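import Pool.Agent.ORB.AAInertia

/-!
ORB, Theorem AA, row G: independence of the automorphisms at different indices.
-/

set_option autoImplicit false

namespace Pool.Agent.ORB.AA

open NumberField Polynomial IntermediateField

universe u

section
variable {L : Type u} [Field L] [NumberField L]

/-- the inertia elements at the primes over the elements of `A` -/
def inS (L : Type u) [Field L] [NumberField L] (A : Set ℕ) : Set (L ≃ₐ[ℚ] L) :=
  {g | ∃ p : ℕ, p.Prime ∧ p ∈ A ∧ ∃ P : Ideal (𝓞 L), P.IsPrime ∧ (p : 𝓞 L) ∈ P ∧ Inert P g}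

theorem inS_conj {A : Set ℕ} {g : L ≃ₐ[ℚ] L} (hg : g ∈ inS L A) (t : L ≃ₐ[ℚ] L) : t * g * t⁻¹ ∈ inS L A := by
  obtain ⟨p, hp, hpA, P, hP, hpP, hin⟩ := hg
  let φ : 𝓞 L →+* 𝓞 L := MulSemiringAction.toRingHom (L ≃ₐ[ℚ] L) (𝓞 L) t⁻¹
  have hφ : ∀ y, φ y = t⁻¹ • y := fun y => rfl
  refine ⟨p, hp, hpA, P.comap φ, Ideal.comap_isPrime φ P, ?_, fun y => ?_⟩
  · rw [Ideal.mem_comap, map_natCast]
    exact hpP
  · rw [Ideal.mem_comap, map_sub, hφ, hφ, mul_smul, mul_smul, inv_smul_smul]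
    exact hin _

/-- the subgroup generated by the inertia groups -/
def Ng (L : Type u) [Field L] [NumberField L] (A : Set ℕ) : Subgroup (L ≃ₐ[ℚ] L) := Subgroup.closure (inS L A)

instance Ng_normal (A : Set ℕ) : (Ng L A).Normal := by
  refine ⟨fun n hn t => ?_⟩
  induction hn using Subgroup.closure_induction with
  | mem x hx => exact Subgroup.subset_closure (inS_conj hx t)
  | one => rw [mul_one, mul_inv_cancel]; exact Subgroup.one_mem _
  | mul x y _ _ hx hy =>
    have e : t * (x * y) * t⁻¹ = (t * x * t⁻¹) * (t * y * t⁻¹) := by group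
    rw [e]
    exact Subgroup.mul_mem _ hx hy
  | inv x _ hx =>
    have e : t * x⁻¹ * t⁻¹ = (t * x * t⁻¹)⁻¹ := by group
    rw [e]
    exact Subgroup.inv_mem _ hx

/-- the elements of `Ng` fix what the generators fix -/
theorem Ng_fix {A : Set ℕ} (s : Set L) (h : ∀ g ∈ inS L A, ∀ x ∈ s, g x = x) (g : L ≃ₐ[ℚ] L) (hg : g ∈ Ng L A)
    (x : L) (hx : x ∈ s) : g x = x := by
  have h1 : Ng L A ≤ fixingSubgroup (L ≃ₐ[ℚ] L) s := by
    refine (Subgroup.closure_le _).2 fun g hg => ?_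
    exact (mem_fixingSubgroup_iff (L ≃ₐ[ℚ] L)).2 (h g hg)
  exact (mem_fixingSubgroup_iff (L ≃ₐ[ℚ] L)).1 (h1 hg) x hx

end

section
variable {K L : Type u} [Field K] [NumberField K] [Field L] [NumberField L] [Algebra K L]

/-- the automorphisms which fix `K` -/
def GK (K L : Type u) [Field K] [NumberField K] [Field L] [NumberField L] [Algebra K L] : Subgroup (L ≃ₐ[ℚ] L) :=
  fixingSubgroup (L ≃ₐ[ℚ] L) (Set.range (algebraMap K L))

/-- the automorphisms which fix `K` and the roots of `G` -/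
def Hg (L : Type u) [Field L] [NumberField L] [Algebra K L] (G : K[X]) : Subgroup (L ≃ₐ[ℚ] L) :=
  fixingSubgroup (L ≃ₐ[ℚ] L) (Set.range (algebraMap K L) ∪ {r : L | aeval r G = 0})

theorem mem_GK {g : L ≃ₐ[ℚ] L} : g ∈ GK K L ↔ ∀ x : K, g (algebraMap K L x) = algebraMap K L x := by
  rw [GK, mem_fixingSubgroup_iff]
  exact Set.forall_mem_range

omit [NumberField K] in
theorem mem_Hg {G : K[X]} {g : L ≃ₐ[ℚ] L} : g ∈ Hg L G ↔
    (∀ x : K, g (algebraMap K L x) = algebraMap K L x) ∧ ∀ r : L, aeval r G = 0 → g r = r := by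
  rw [Hg, mem_fixingSubgroup_iff]
  constructor
  · intro h
    exact ⟨fun x => h _ (Or.inl ⟨x, rfl⟩), fun r hr => h _ (Or.inr hr)⟩
  · rintro ⟨h1, h2⟩ y (⟨x, rfl⟩ | hy)
    · exact h1 x
    · exact h2 y hy

omit [NumberField K] in
theorem root_map {G : K[X]} {g : L ≃ₐ[ℚ] L} (hg : ∀ x : K, g (algebraMap K L x) = algebraMap K L x) {r : L}
    (hr : aeval r G = 0) : aeval (g r) G = 0 := by
  have h1 : aeval (g r) G = g (aeval r G) := by
    rw [aeval_eq_sum_range, aeval_eq_sum_range, map_sum]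
    refine Finset.sum_congr rfl fun i _ => ?_
    rw [Algebra.smul_def, Algebra.smul_def, map_mul, hg, map_pow]
  rw [h1, hr, map_zero]

theorem index_GK [IsGalois ℚ L] : (GK K L).index = Module.finrank ℚ K := by
  let j : K →ₐ[ℚ] L := (algebraMap K L).toRatAlgHom
  have h1 := IntermediateField.finrank_eq_fixingSubgroup_index (F := ℚ) (E' := L) (j.fieldRange)
  have h2 : (j.fieldRange).fixingSubgroup = GK K L := by
    ext g
    rw [IntermediateField.mem_fixingSubgroup_iff, mem_GK]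
    constructor
    · intro h x
      exact h _ ⟨x, rfl⟩
    · rintro h _ ⟨x, rfl⟩
      exact h x
  rw [h2] at h1
  rw [← h1]
  exact (AlgEquiv.ofInjectiveField j).toLinearEquiv.finrank_eq.symm

theorem index_Hg [IsGalois ℚ L] (G : K[X]) (hG : G ≠ 0) :
    (Hg L G).index ≤ Module.finrank ℚ K * G.natDegree.factorial := by
  classical
  have hle : Hg L G ≤ GK K L := fun g hg => mem_GK.2 (mem_Hg.1 hg).1
  rw [← Subgroup.relIndex_mul_index hle, index_GK, mul_comm]
  refine Nat.mul_le_mul_left _ ?_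
  -- the action on the roots
  set Rt : Set L := {r : L | aeval r G = 0} with hRt
  have hGm : G.map (algebraMap K L) ≠ 0 := Polynomial.map_ne_zero hG
  have hsub : Rt ⊆ (G.aroots L).toFinset := by
    intro r hr
    rw [Finset.mem_coe, Multiset.mem_toFinset, mem_aroots]
    exact ⟨hG, hr⟩
  have hfin : Rt.Finite := (Finset.finite_toSet _).subset hsub
  have hcard : Nat.card Rt ≤ G.natDegree := by
    rw [Nat.card_coe_set_eq]
    refine (Set.ncard_le_ncard hsub (Finset.finite_toSet _)).trans ?_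
    rw [Set.ncard_coe_finset]
    refine (Multiset.toFinset_card_le _).trans ?_
    refine (card_roots' _).trans ?_
    rw [natDegree_map]
  let f : GK K L →* Equiv.Perm Rt :=
    { toFun := fun g => ⟨fun r => ⟨(g : L ≃ₐ[ℚ] L) r.1, root_map (mem_GK.1 g.2) r.2⟩,
        fun r => ⟨(g⁻¹ : GK K L).1 r.1, root_map (mem_GK.1 (g⁻¹).2) r.2⟩,
        fun r => Subtype.ext (by
          show ((g : L ≃ₐ[ℚ] L)⁻¹) ((g : L ≃ₐ[ℚ] L) r.1) = r.1
          rw [← AlgEquiv.mul_apply, inv_mul_cancel, AlgEquiv.one_apply]),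
        fun r => Subtype.ext (by
          show (g : L ≃ₐ[ℚ] L) (((g : L ≃ₐ[ℚ] L)⁻¹) r.1) = r.1
          rw [← AlgEquiv.mul_apply, mul_inv_cancel, AlgEquiv.one_apply])⟩
      map_one' := by ext r; rfl
      map_mul' := fun a b => by ext r; rfl }
  have hker : f.ker = (Hg L G).subgroupOf (GK K L) := by
    ext g
    rw [MonoidHom.mem_ker, Subgroup.mem_subgroupOf, mem_Hg]
    constructor
    · intro h
      refine ⟨mem_GK.1 g.2, fun r hr => ?_⟩
      have h1 := congrArg (fun e : Equiv.Perm Rt => ((e ⟨r, hr⟩ : Rt) : L)) h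
      exact h1
    · rintro ⟨-, h⟩
      ext r
      exact h r.1 r.2
  have h1 : (Hg L G).relIndex (GK K L) = Nat.card f.range := by
    rw [← Subgroup.index_ker, hker]
    rfl
  rw [h1]
  have : Finite Rt := hfin
  have : Finite (Equiv.Perm Rt) := inferInstance
  refine (Nat.card_le_card_of_injective (fun x : f.range => x.1) Subtype.val_injective).trans ?_
  rw [Nat.card_perm]
  exact Nat.factorial_le hcard

end

/-- independence: automorphisms `τ k` of `L` with the same restriction `Φ` to `E`, combined to one -/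
theorem combine {K E L : Type u} [Field K] [NumberField K] [Field E] [NumberField E] [Field L] [NumberField L]
    [Algebra K E] [Algebra E L] [Algebra K L] [IsScalarTower K E L] [IsGalois ℚ E] [IsGalois ℚ L]
    {κ : Type} [Finite κ] (G : κ → K[X]) (hG0 : ∀ k, G k ≠ 0)
    (S : Set ℕ) (hE : ∀ p : ℕ, p.Prime → p ∉ S → ¬ (p : ℤ) ∣ discr E) (D : ℕ)
    (hbig : ∀ (F : IntermediateField ℚ L), Module.finrank ℚ F ≤ D →
      (∀ p : ℕ, p.Prime → p ∉ S → ¬ (p : ℤ) ∣ discr F) → ∀ x ∈ F, ∃ y : E, algebraMap E L y = x)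
    (hD : ∀ k, Module.finrank ℚ K * ((G k).natDegree).factorial ≤ D)
    (R : κ → Set ℕ) (hdisj : ∀ k l, k ≠ l → ∀ p : ℕ, p.Prime → p ∉ S → p ∈ R k → p ∉ R l)
    (hin : ∀ k (p : ℕ), p.Prime → p ∉ S → p ∉ R k → ∀ P : Ideal (𝓞 L), P.IsPrime → (p : 𝓞 L) ∈ P →
      ∀ g : L ≃ₐ[ℚ] L, Inert P g → (∀ x : K, g (algebraMap K L x) = algebraMap K L x) →
        ∀ r : L, aeval r (G k) = 0 → g r = r)
    (Φ : E ≃ₐ[ℚ] E) (_hΦ : ∀ x : K, Φ (algebraMap K E x) = algebraMap K E x)
    (τ : κ → L ≃ₐ[ℚ] L) (hτE : ∀ k (x : E), τ k (algebraMap E L x) = algebraMap E L (Φ x))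
    (hτ : ∀ k (r : L), aeval r (G k) = 0 → τ k r ≠ r) :
    ∃ σ : L ≃ₐ[ℚ] L, (∀ x : E, σ (algebraMap E L x) = algebraMap E L (Φ x)) ∧
      ∀ k (r : L), aeval r (G k) = 0 → σ r ≠ r := by
  classical
  cases nonempty_fintype κ
  set A : κ → Set ℕ := fun k => {p | p ∉ S ∧ p ∈ R k} with hA
  -- `N k` fixes `E`
  have hNE : ∀ k, ∀ g ∈ Ng L (A k), ∀ x : E, g (algebraMap E L x) = algebraMap E L x := by
    intro k g hg x
    refine Ng_fix (Set.range (algebraMap E L)) ?_ g hg _ ⟨x, rfl⟩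
    rintro g ⟨p, hp, ⟨hpS, -⟩, P, hP, hpP, hgP⟩ _ ⟨y, rfl⟩
    exact inertia_base hp (hE p hp hpS) P hP hpP g hgP y
  have hEK : ∀ g : L ≃ₐ[ℚ] L, (∀ x : E, g (algebraMap E L x) = algebraMap E L x) →
      ∀ x : K, g (algebraMap K L x) = algebraMap K L x := by
    intro g hg x
    rw [IsScalarTower.algebraMap_apply K E L]
    exact hg _
  -- `N k` fixes the roots of `G l`
  have hNG : ∀ k l, k ≠ l → ∀ g ∈ Ng L (A k), ∀ r : L, aeval r (G l) = 0 → g r = r := by
    intro k l hkl g hg r hr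
    refine Ng_fix {r : L | aeval r (G l) = 0} ?_ g hg r hr
    rintro g ⟨p, hp, ⟨hpS, hpR⟩, P, hP, hpP, hgP⟩ r hr
    refine hin l p hp hpS (hdisj k l hkl p hp hpS hpR) P hP hpP g hgP ?_ r hr
    exact hEK g fun x => inertia_base hp (hE p hp hpS) P hP hpP g hgP x
  -- an extension of `Φ`
  have hstE : IsScalarTower ℚ E L := inferInstance
  set σ0 : L ≃ₐ[ℚ] L := Φ.liftNormal L with hσ0
  have hσ0E : ∀ x : E, σ0 (algebraMap E L x) = algebraMap E L (Φ x) := fun x => Φ.liftNormal_commutes L x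
  -- decomposition
  have hdec : ∀ k, ∃ ν ∈ Ng L (A k), ∃ η ∈ Hg L (G k), ν * η = σ0⁻¹ * τ k := by
    intro k
    rw [← Subgroup.mem_sup_of_normal_left]
    set F : IntermediateField ℚ L := fixedField (Ng L (A k) ⊔ Hg L (G k)) with hF
    have hfix : F.fixingSubgroup = Ng L (A k) ⊔ Hg L (G k) := fixingSubgroup_fixedField _
    have hFD : Module.finrank ℚ F ≤ D := by
      rw [IntermediateField.finrank_eq_fixingSubgroup_index (F := ℚ) (E' := L), hfix]
      have h1 : (Hg L (G k)).index ≤ D := (index_Hg (L := L) (G k) (hG0 k)).trans (hD k)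
      exact (Subgroup.index_antitone le_sup_right).trans h1
    have hmem : ∀ x ∈ F, ∀ g ∈ Ng L (A k) ⊔ Hg L (G k), g x = x := by
      intro x hx g hg
      rw [← hfix] at hg
      exact (IntermediateField.mem_fixingSubgroup_iff _ _).1 hg x hx
    have hFE := hbig F hFD (fun p hp hpS => (inertia_iff F hp).2 fun P hP hpP g hgP x hx => by
      by_cases hpR : p ∈ R k
      · refine hmem x hx g (Subgroup.mem_sup_left (Subgroup.subset_closure ?_))
        exact ⟨p, hp, ⟨hpS, hpR⟩, P, hP, hpP, hgP⟩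
      · refine hmem x hx g (Subgroup.mem_sup_right (mem_Hg.2 ?_))
        have h1 := hEK g fun x => inertia_base hp (hE p hp hpS) P hP hpP g hgP x
        exact ⟨h1, hin k p hp hpS hpR P hP hpP g hgP h1⟩)
    rw [← hfix, IntermediateField.mem_fixingSubgroup_iff]
    intro x hx
    obtain ⟨y, rfl⟩ := hFE x hx
    rw [AlgEquiv.mul_apply, hτE, ← hσ0E, ← AlgEquiv.mul_apply, inv_mul_cancel, AlgEquiv.one_apply]
  choose ν hν η hη hνη using hdec
  -- the product
  have hprod : ∀ l : List κ, l.Nodup → ∃ π : L ≃ₐ[ℚ] L, (∀ x : E, π (algebraMap E L x) = algebraMap E L x) ∧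
      (∀ k ∈ l, ∀ r : L, aeval r (G k) = 0 → π r = ν k r) ∧
      ∀ k, k ∉ l → ∀ r : L, aeval r (G k) = 0 → π r = r := by
    intro l
    induction l with
    | nil => exact fun _ => ⟨1, fun _ => rfl, fun k hk => absurd hk (by simp), fun _ _ _ _ => rfl⟩
    | cons a l ih =>
      intro hnd
      rw [List.nodup_cons] at hnd
      obtain ⟨π, h1, h2, h3⟩ := ih hnd.2
      refine ⟨π * ν a, fun x => ?_, fun k hk r hr => ?_, fun k hk r hr => ?_⟩
      · rw [AlgEquiv.mul_apply, hNE a _ (hν a), h1]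
      · rw [AlgEquiv.mul_apply]
        by_cases hka : k = a
        · subst hka
          exact h3 k hnd.1 _ (root_map (hEK _ (hNE k _ (hν k))) hr)
        · rw [hNG a k (Ne.symm hka) _ (hν a) r hr]
          exact h2 k ((List.mem_cons.1 hk).resolve_left hka) r hr
      · rw [List.mem_cons, not_or] at hk
        rw [AlgEquiv.mul_apply, hNG a k (Ne.symm hk.1) _ (hν a) r hr]
        exact h3 k hk.2 r hr
  obtain ⟨π, h1, h2, -⟩ := hprod (Finset.univ : Finset κ).toList (Finset.nodup_toList _)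
  refine ⟨σ0 * π, fun x => ?_, fun k r hr hfix => ?_⟩
  · rw [AlgEquiv.mul_apply, h1, hσ0E]
  · rw [AlgEquiv.mul_apply, h2 k (by simp) r hr] at hfix
    have h4 : σ0 * (ν k * η k) = τ k := by rw [hνη k, mul_inv_cancel_left]
    have h5 : τ k r = r := by
      rw [← h4, AlgEquiv.mul_apply, AlgEquiv.mul_apply, (mem_Hg.1 (hη k)).2 r hr]
      exact hfix
    exact hτ k r hr h5

end Pool.Agent.ORB.AA
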