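import Pool.Agent.ORB.CountK

/-! ORB, Theorem AA, row S2: few tuples of integral vectors have a common large prime divisor of two of the
numbers attached to the entries. -/

namespace Pool.Agent.ORB.AA

open Classical in
/-- the fibres over two coordinates -/
theorem card_pair_le {J κ : Type*} [Fintype J] [Fintype κ] {k l : κ} (hkl : k ≠ l) (H : ℕ)
    (R : (J → ℤ) → (J → ℤ) → Prop) :
    ((zbox (κ × J) H).filter (fun q => R (fun j => q (k, j)) (fun j => q (l, j)))).card *
      ((2 * H + 1) ^ Fintype.card J * (2 * H + 1) ^ Fintype.card J) ≤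
      (((zbox J H) ×ˢ (zbox J H)).filter (fun z => R z.1 z.2)).card * (zbox (κ × J) H).card := by
  set B := (2 * H + 1) ^ Fintype.card J with hB
  set g : κ → ℕ := fun i => if i = k then 1 else if i = l then 1 else B with hg
  have h1 : ((zbox (κ × J) H).filter (fun q => R (fun j => q (k, j)) (fun j => q (l, j)))).card ≤
      (∏ i, g i) * (((zbox J H) ×ˢ (zbox J H)).filter (fun z => R z.1 z.2)).card := by
    apply Finset.card_le_mul_card_image_of_maps_to (f := fun q => ((fun j => q (k, j)), (fun j => q (l, j))))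
    · intro q hq
      rw [Finset.mem_filter, mem_zbox] at hq
      rw [Finset.mem_filter, Finset.mem_product, mem_zbox, mem_zbox]
      exact ⟨⟨fun j => hq.1 _, fun j => hq.1 _⟩, hq.2⟩
    · rintro ⟨x, y⟩ _
      have hsub : ((zbox (κ × J) H).filter (fun q => R (fun j => q (k, j)) (fun j => q (l, j)))).filter
          (fun q => ((fun j => q (k, j)), (fun j => q (l, j))) = (x, y)) ⊆
          Fintype.piFinset (fun i : κ × J => if i.1 = k then {x i.2} else if i.1 = l then {y i.2} else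
            Finset.Icc (-(H : ℤ)) H) := by
        intro q hq
        rw [Finset.mem_filter, Finset.mem_filter, mem_zbox, Prod.mk.injEq] at hq
        rw [Fintype.mem_piFinset]
        rintro ⟨i, j⟩
        by_cases hi : i = k
        · subst hi
          simp only [if_true, Finset.mem_singleton]
          exact congrFun hq.2.1 j
        · by_cases hi' : i = l
          · subst hi'
            simp only [if_neg hi, if_true, Finset.mem_singleton]
            exact congrFun hq.2.2 j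
          · simp only [if_neg hi, if_neg hi', Finset.mem_Icc]
            exact abs_le.1 (hq.1.1 _)
      refine (Finset.card_le_card hsub).trans (le_of_eq ?_)
      rw [Fintype.card_piFinset, Fintype.prod_prod_type]
      refine Finset.prod_congr rfl (fun i _ => ?_)
      rw [hg]
      by_cases hi : i = k
      · simp [hi]
      · by_cases hi' : i = l
        · subst hi'; simp [hi]
        · simp only [if_neg hi, if_neg hi', Int.card_Icc, Finset.prod_const, Finset.card_univ, hB]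
          congr 1
          omega
  have h2 : (∏ i, g i) * (B * B) = (zbox (κ × J) H).card := by
    rw [card_zbox, Fintype.card_prod, mul_comm (Fintype.card κ), pow_mul, ← hB, ← Finset.card_univ,
      ← Finset.prod_const, ← Finset.mul_prod_erase Finset.univ g (Finset.mem_univ k),
      ← Finset.mul_prod_erase Finset.univ (fun _ => B) (Finset.mem_univ k),
      ← Finset.mul_prod_erase (Finset.univ.erase k) g (Finset.mem_erase.2 ⟨hkl.symm, Finset.mem_univ l⟩),
      ← Finset.mul_prod_erase (Finset.univ.erase k) (fun _ => B)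
        (Finset.mem_erase.2 ⟨hkl.symm, Finset.mem_univ l⟩)]
    have h3 : g k = 1 := by rw [hg]; simp
    have h4 : g l = 1 := by rw [hg]; simp
    have h5 : ∏ i ∈ (Finset.univ.erase k).erase l, g i = ∏ _i ∈ (Finset.univ.erase k).erase l, B := by
      refine Finset.prod_congr rfl (fun i hi => ?_)
      rw [Finset.mem_erase, Finset.mem_erase] at hi
      rw [hg]
      simp only [if_neg hi.1, if_neg hi.2.1]
    rw [h3, h4, h5]
    ring
  calc _ ≤ ((∏ i, g i) * (((zbox J H) ×ˢ (zbox J H)).filter (fun z => R z.1 z.2)).card) * (B * B) :=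
        Nat.mul_le_mul_right _ h1
    _ = (((zbox J H) ×ˢ (zbox J H)).filter (fun z => R z.1 z.2)).card * ((∏ i, g i) * (B * B)) := by ring
    _ = _ := by rw [h2]

open Classical in
/-- the pairs of vectors with a common large prime divisor -/
theorem card_pairs_le {J : Type*} [Fintype J] (N N' : (J → ℤ) → ℕ) (C M P0 : ℕ)
    (h2 : ∀ (p : ℕ), p.Prime → P0 < p → ∀ H : ℕ, 1 ≤ H →
      ((zbox J H).filter (fun x => p ∣ N x)).card * (p * (2 * H + 1)) ≤
        C * (H + p) * (2 * H + 1) ^ Fintype.card J)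
    (h2' : ∀ (p : ℕ), p.Prime → P0 < p → ∀ H : ℕ, 1 ≤ H →
      ((zbox J H).filter (fun x => p ∣ N' x)).card * (p * (2 * H + 1)) ≤
        C * (H + p) * (2 * H + 1) ^ Fintype.card J)
    (h3 : ∀ (H : ℕ) (x : J → ℤ), 1 ≤ H → x ∈ zbox J H → N x ≤ C * H ^ M) (P p1 H : ℕ) (hP : P0 ≤ P)
    (hP' : 1 ≤ P) (hp1 : p1.Prime) (hp1' : P0 < p1) (hH1 : p1 ≤ H) (hHP : P ≤ H) (hHC : C < H) :
    ((((zbox J H) ×ˢ (zbox J H)).filter (fun z => ∃ p : ℕ, p.Prime ∧ P < p ∧ p ∣ N z.1 ∧ p ∣ N' z.2)).card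
      : ℝ) ≤ ((C : ℝ) ^ 2 / P + C / p1 + (M + 1) * C / H) *
        (((2 * H + 1) ^ Fintype.card J : ℕ) : ℝ) ^ 2 := by
  set B := (2 * H + 1) ^ Fintype.card J with hB
  have hHpos : 1 ≤ H := le_trans hP' hHP
  have hHR : (1 : ℝ) ≤ H := by exact_mod_cast hHpos
  have hH0 : (0 : ℝ) < H := by linarith
  -- small primes
  have hsmall : ∀ (F : (J → ℤ) → ℕ), (∀ (p : ℕ), p.Prime → P0 < p → ∀ H : ℕ, 1 ≤ H →
      ((zbox J H).filter (fun x => p ∣ F x)).card * (p * (2 * H + 1)) ≤
        C * (H + p) * (2 * H + 1) ^ Fintype.card J) → ∀ p : ℕ, p.Prime → P0 < p → p ≤ H →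
      (((zbox J H).filter (fun x => p ∣ F x)).card : ℝ) ≤ C * B / p := by
    intro F hF p hp hpP hpH
    have h4 := hF p hp hpP H hHpos
    have hp0 : (0 : ℝ) < p := by exact_mod_cast hp.pos
    rw [le_div_iff₀ hp0]
    have h5 : (((zbox J H).filter (fun x => p ∣ F x)).card * p) * (2 * H + 1) ≤ (C * B) * (2 * H + 1) := by
      calc _ = ((zbox J H).filter (fun x => p ∣ F x)).card * (p * (2 * H + 1)) := by ring
        _ ≤ C * (H + p) * B := h4
        _ ≤ C * (2 * H + 1) * B := Nat.mul_le_mul_right _ (Nat.mul_le_mul_left _ (by omega))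
        _ = _ := by ring
    exact_mod_cast Nat.le_of_mul_le_mul_right h5 (by omega)
  have hlarge : ∀ p : ℕ, p.Prime → H < p →
      (((zbox J H).filter (fun x => p ∣ N' x)).card : ℝ) ≤ C * B / H := by
    intro p hp hpH
    have h4 := h2' p hp (by omega) H hHpos
    rw [le_div_iff₀ hH0]
    have h5 : (((zbox J H).filter (fun x => p ∣ N' x)).card * H) * (2 * p) ≤ (C * B) * (2 * p) := by
      calc _ = ((zbox J H).filter (fun x => p ∣ N' x)).card * (p * (2 * H)) := by ring
        _ ≤ ((zbox J H).filter (fun x => p ∣ N' x)).card * (p * (2 * H + 1)) :=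
            Nat.mul_le_mul_left _ (Nat.mul_le_mul_left _ (by omega))
        _ ≤ C * (H + p) * B := h4
        _ ≤ C * (2 * p) * B := Nat.mul_le_mul_right _ (Nat.mul_le_mul_left _ (by omega))
        _ = _ := by ring
    exact_mod_cast Nat.le_of_mul_le_mul_right h5 (by have := hp.pos; omega)
  -- the number of the large prime divisors
  have hnum : ∀ x ∈ zbox J H, N x ≠ 0 → ((N x).primeFactors.filter (fun p => H < p)).card ≤ M + 1 := by
    intro x hx hx0
    set t := ((N x).primeFactors.filter (fun p => H < p)).card with ht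
    by_contra hlt
    push Not at hlt
    have h4 : ∏ p ∈ (N x).primeFactors.filter (fun p => H < p), p ∣ N x :=
      (Finset.prod_dvd_prod_of_subset _ _ _ (Finset.filter_subset _ _)).trans (Nat.prod_primeFactors_dvd _)
    have h5 := Nat.le_of_dvd (Nat.pos_of_ne_zero hx0) h4
    have h6 : H ^ t ≤ ∏ p ∈ (N x).primeFactors.filter (fun p => H < p), p := by
      rw [ht, ← Finset.prod_const]
      exact Finset.prod_le_prod' (fun p hp => (Finset.mem_filter.1 hp).2.le)
    have h7 : H ^ (M + 1) ≤ H ^ t := Nat.pow_le_pow_right hHpos (by omega)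
    have h8 := h3 H x hHpos hx
    have h9 : C * H ^ M < H * H ^ M := Nat.mul_lt_mul_of_pos_right hHC (by positivity)
    rw [pow_succ, mul_comm] at h7
    omega
  -- the three parts
  set E1 := ((Finset.Ioc P H).filter Nat.Prime).biUnion (fun p =>
    ((zbox J H).filter (fun x => p ∣ N x)) ×ˢ ((zbox J H).filter (fun x => p ∣ N' x))) with hE1
  set E2 := ((zbox J H).filter (fun x => p1 ∣ N x)) ×ˢ (zbox J H) with hE2
  set E3 := ((zbox J H).filter (fun x => N x ≠ 0)).biUnion (fun x =>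
    ((N x).primeFactors.filter (fun p => H < p)).biUnion (fun p =>
      ({x} : Finset (J → ℤ)) ×ˢ ((zbox J H).filter (fun y => p ∣ N' y)))) with hE3
  have hsub : ((zbox J H) ×ˢ (zbox J H)).filter (fun z => ∃ p : ℕ, p.Prime ∧ P < p ∧ p ∣ N z.1 ∧ p ∣ N' z.2)
      ⊆ E1 ∪ (E2 ∪ E3) := by
    rintro ⟨x, y⟩ hz
    rw [Finset.mem_filter, Finset.mem_product] at hz
    obtain ⟨⟨hx, hy⟩, p, hp, hpP, hpx, hpy⟩ := hz
    simp only at hx hy hpx hpy
    rw [Finset.mem_union, Finset.mem_union]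
    by_cases hpH : p ≤ H
    · left
      rw [hE1, Finset.mem_biUnion]
      exact ⟨p, Finset.mem_filter.2 ⟨Finset.mem_Ioc.2 ⟨hpP, hpH⟩, hp⟩,
        Finset.mem_product.2 ⟨Finset.mem_filter.2 ⟨hx, hpx⟩, Finset.mem_filter.2 ⟨hy, hpy⟩⟩⟩
    · right
      by_cases hx0 : N x = 0
      · left
        rw [hE2, Finset.mem_product, Finset.mem_filter]
        exact ⟨⟨hx, hx0 ▸ dvd_zero _⟩, hy⟩
      · right
        rw [hE3, Finset.mem_biUnion]
        refine ⟨x, Finset.mem_filter.2 ⟨hx, hx0⟩, ?_⟩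
        rw [Finset.mem_biUnion]
        refine ⟨p, Finset.mem_filter.2 ⟨Nat.mem_primeFactors.2 ⟨hp, hpx, hx0⟩, by omega⟩, ?_⟩
        exact Finset.mem_product.2 ⟨Finset.mem_singleton.2 rfl, Finset.mem_filter.2 ⟨hy, hpy⟩⟩
  have hBz : ((zbox J H).card : ℝ) = B := by rw [card_zbox]
  have hB0 : (0 : ℝ) ≤ B := Nat.cast_nonneg _
  have hc1 : (E1.card : ℝ) ≤ (C : ℝ) ^ 2 / P * B ^ 2 := by
    have h4 : (E1.card : ℝ) ≤ ∑ p ∈ (Finset.Ioc P H).filter Nat.Prime,
        ((((zbox J H).filter (fun x => p ∣ N x)) ×ˢ ((zbox J H).filter (fun x => p ∣ N' x))).card : ℝ) := by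
      exact_mod_cast Finset.card_biUnion_le
    refine h4.trans ?_
    have h5 : ∀ p ∈ (Finset.Ioc P H).filter Nat.Prime,
        ((((zbox J H).filter (fun x => p ∣ N x)) ×ˢ ((zbox J H).filter (fun x => p ∣ N' x))).card : ℝ) ≤
        (C : ℝ) ^ 2 * B ^ 2 * ((p : ℝ) ^ 2)⁻¹ := by
      intro p hp
      rw [Finset.mem_filter, Finset.mem_Ioc] at hp
      rw [Finset.card_product, Nat.cast_mul]
      calc _ ≤ (C * B / p : ℝ) * (C * B / p) :=
            mul_le_mul (hsmall N h2 p hp.2 (by omega) hp.1.2) (hsmall N' h2' p hp.2 (by omega) hp.1.2)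
              (Nat.cast_nonneg _) (by positivity)
        _ = _ := by ring
    refine (Finset.sum_le_sum h5).trans ?_
    rw [← Finset.mul_sum]
    have h6 : ∑ p ∈ (Finset.Ioc P H).filter Nat.Prime, ((p : ℝ) ^ 2)⁻¹ ≤ (P : ℝ)⁻¹ := by
      calc _ ≤ ∑ p ∈ Finset.Ioc P H, ((p : ℝ) ^ 2)⁻¹ :=
            Finset.sum_le_sum_of_subset_of_nonneg (Finset.filter_subset _ _) (fun _ _ _ => by positivity)
        _ ≤ (P : ℝ)⁻¹ - (H : ℝ)⁻¹ := sum_Ioc_inv_sq_le_sub (by omega) hHP
        _ ≤ _ := by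
            have : (0 : ℝ) ≤ (H : ℝ)⁻¹ := by positivity
            linarith
    calc _ ≤ (C : ℝ) ^ 2 * B ^ 2 * (P : ℝ)⁻¹ := mul_le_mul_of_nonneg_left h6 (by positivity)
      _ = _ := by ring
  have hc2 : (E2.card : ℝ) ≤ C / p1 * B ^ 2 := by
    rw [hE2, Finset.card_product, Nat.cast_mul, hBz]
    calc _ ≤ (C * B / p1 : ℝ) * B := mul_le_mul_of_nonneg_right (hsmall N h2 p1 hp1 hp1' hH1) hB0
      _ = _ := by ring
  have hc3 : (E3.card : ℝ) ≤ (M + 1) * C / H * B ^ 2 := by
    have h4 : (E3.card : ℝ) ≤ ∑ x ∈ (zbox J H).filter (fun x => N x ≠ 0),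
        ((((N x).primeFactors.filter (fun p => H < p)).biUnion (fun p =>
          ({x} : Finset (J → ℤ)) ×ˢ ((zbox J H).filter (fun y => p ∣ N' y)))).card : ℝ) := by
      exact_mod_cast Finset.card_biUnion_le
    refine h4.trans ?_
    have h5 : ∀ x ∈ (zbox J H).filter (fun x => N x ≠ 0),
        ((((N x).primeFactors.filter (fun p => H < p)).biUnion (fun p =>
          ({x} : Finset (J → ℤ)) ×ˢ ((zbox J H).filter (fun y => p ∣ N' y)))).card : ℝ) ≤
        (M + 1) * (C * B / H) := by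
      intro x hx
      rw [Finset.mem_filter] at hx
      have h6 : ((((N x).primeFactors.filter (fun p => H < p)).biUnion (fun p =>
          ({x} : Finset (J → ℤ)) ×ˢ ((zbox J H).filter (fun y => p ∣ N' y)))).card : ℝ) ≤
          ∑ p ∈ (N x).primeFactors.filter (fun p => H < p),
            ((({x} : Finset (J → ℤ)) ×ˢ ((zbox J H).filter (fun y => p ∣ N' y))).card : ℝ) := by
        exact_mod_cast Finset.card_biUnion_le
      refine h6.trans ?_
      have h7 : ∀ p ∈ (N x).primeFactors.filter (fun p => H < p),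
          ((({x} : Finset (J → ℤ)) ×ˢ ((zbox J H).filter (fun y => p ∣ N' y))).card : ℝ) ≤ C * B / H := by
        intro p hp
        rw [Finset.mem_filter] at hp
        rw [Finset.card_product, Finset.card_singleton, one_mul]
        exact hlarge p (Nat.prime_of_mem_primeFactors hp.1) hp.2
      refine (Finset.sum_le_sum h7).trans ?_
      rw [Finset.sum_const, nsmul_eq_mul]
      refine mul_le_mul_of_nonneg_right ?_ (by positivity)
      exact_mod_cast hnum x hx.1 hx.2
    refine (Finset.sum_le_sum h5).trans ?_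
    rw [Finset.sum_const, nsmul_eq_mul]
    have h6 : (((zbox J H).filter (fun x => N x ≠ 0)).card : ℝ) ≤ B := by
      rw [← hBz]
      exact_mod_cast Finset.card_filter_le _ _
    calc _ ≤ (B : ℝ) * ((M + 1) * (C * B / H)) := mul_le_mul_of_nonneg_right h6 (by positivity)
      _ = _ := by ring
  have h4 : ((((zbox J H) ×ˢ (zbox J H)).filter (fun z => ∃ p : ℕ, p.Prime ∧ P < p ∧ p ∣ N z.1 ∧
      p ∣ N' z.2)).card : ℝ) ≤ E1.card + (E2.card + E3.card) := by
    have h5 := (Finset.card_le_card hsub).trans ((Finset.card_union_le _ _).trans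
      (Nat.add_le_add_left (Finset.card_union_le _ _) _))
    exact_mod_cast h5
  refine h4.trans ?_
  rw [add_mul, add_mul]
  linarith

open Classical in
/-- few tuples have a common large prime divisor of two of the numbers `N k`, including the tuples with `N k = 0` -/
theorem count_common {J κ : Type*} [Fintype J] [Fintype κ] (N : κ → (J → ℤ) → ℕ) (C M P0 : ℕ)
    (h2 : ∀ k (p : ℕ), p.Prime → P0 < p → ∀ H : ℕ, 1 ≤ H →
      ((zbox J H).filter (fun x => p ∣ N k x)).card * (p * (2 * H + 1)) ≤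
        C * (H + p) * (2 * H + 1) ^ Fintype.card J)
    (h3 : ∀ k (H : ℕ) (x : J → ℤ), 1 ≤ H → x ∈ zbox J H → N k x ≤ C * H ^ M) :
    ∀ ε : ℝ, 0 < ε → ∃ P1 : ℕ, ∀ P : ℕ, P1 ≤ P → ∃ H0 : ℕ, ∀ H : ℕ, H0 ≤ H →
      (((zbox (κ × J) H).filter (fun q => ∃ k l, k ≠ l ∧ ∃ p : ℕ, p.Prime ∧ P < p ∧
        p ∣ N k (fun j => q (k, j)) ∧ p ∣ N l (fun j => q (l, j)))).card : ℝ) ≤
          ε * (zbox (κ × J) H).card := by
  intro ε hε
  set g := Fintype.card κ with hg
  set η : ℝ := ε / (3 * (g + 1) ^ 2) with hη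
  have hη0 : 0 < η := by rw [hη]; positivity
  obtain ⟨n1, hn1⟩ := exists_nat_gt ((C : ℝ) ^ 2 / η)
  obtain ⟨n2, hn2⟩ := exists_nat_gt ((C : ℝ) / η)
  obtain ⟨n3, hn3⟩ := exists_nat_gt (((M : ℝ) + 1) * C / η)
  obtain ⟨p1, hp1, hp1p⟩ := Nat.exists_infinite_primes (max n2 (P0 + 1))
  refine ⟨max n1 (P0 + 1), fun P hP => ⟨max (max p1 P) (max n3 (C + 1)), fun H hH => ?_⟩⟩
  set B := (2 * H + 1) ^ Fintype.card J with hB
  have hBpos : 0 < B := by positivity
  have hHp1 : p1 ≤ H := by omega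
  have hHP : P ≤ H := by omega
  have hP1 : 1 ≤ P := by omega
  have hpart : ∀ k l : κ, k ≠ l → (((zbox (κ × J) H).filter (fun q => ∃ p : ℕ, p.Prime ∧ P < p ∧
        p ∣ N k (fun j => q (k, j)) ∧ p ∣ N l (fun j => q (l, j)))).card : ℝ) ≤
          (3 * η) * (zbox (κ × J) H).card := by
    intro k l hkl
    have h4 := card_pair_le hkl H (fun x y => ∃ p : ℕ, p.Prime ∧ P < p ∧ p ∣ N k x ∧ p ∣ N l y)
    have h5 := card_pairs_le (N k) (N l) C M P0 (h2 k) (h2 l) (h3 k) P p1 H (by omega) hP1 hp1p (by omega)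
      hHp1 hHP (by omega)
    have h6 : (C : ℝ) ^ 2 / P + C / p1 + (M + 1) * C / H ≤ 3 * η := by
      have hPR : (0 : ℝ) < P := by exact_mod_cast hP1
      have hp1R : (0 : ℝ) < p1 := by exact_mod_cast hp1p.pos
      have hHR : (0 : ℝ) < H := lt_of_lt_of_le hPR (by exact_mod_cast hHP)
      have e1 : (C : ℝ) ^ 2 / P ≤ η := by
        rw [div_le_iff₀ hPR]
        rw [div_lt_iff₀ hη0] at hn1
        have : (n1 : ℝ) ≤ P := by exact_mod_cast (by omega : n1 ≤ P)
        nlinarith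
      have e2 : (C : ℝ) / p1 ≤ η := by
        rw [div_le_iff₀ hp1R]
        rw [div_lt_iff₀ hη0] at hn2
        have : (n2 : ℝ) ≤ p1 := by exact_mod_cast (by omega : n2 ≤ p1)
        nlinarith
      have e3 : ((M : ℝ) + 1) * C / H ≤ η := by
        rw [div_le_iff₀ hHR]
        rw [div_lt_iff₀ hη0] at hn3
        have : (n3 : ℝ) ≤ H := by exact_mod_cast (by omega : n3 ≤ H)
        nlinarith
      linarith
    rw [← hB] at h4 h5
    have h7 : (((zbox (κ × J) H).filter (fun q => ∃ p : ℕ, p.Prime ∧ P < p ∧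
        p ∣ N k (fun j => q (k, j)) ∧ p ∣ N l (fun j => q (l, j)))).card : ℝ) * ((B : ℝ) * B) ≤
        ((((zbox J H) ×ˢ (zbox J H)).filter (fun z => ∃ p : ℕ, p.Prime ∧ P < p ∧ p ∣ N k z.1 ∧
          p ∣ N l z.2)).card : ℝ) * ((zbox (κ × J) H).card : ℝ) := by exact_mod_cast h4
    have hBR : (0 : ℝ) < B := by exact_mod_cast hBpos
    have h8 : (((zbox (κ × J) H).filter (fun q => ∃ p : ℕ, p.Prime ∧ P < p ∧
        p ∣ N k (fun j => q (k, j)) ∧ p ∣ N l (fun j => q (l, j)))).card : ℝ) * ((B : ℝ) * B) ≤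
        ((3 * η) * ((zbox (κ × J) H).card : ℝ)) * ((B : ℝ) * B) := by
      refine h7.trans ?_
      calc _ ≤ (((C : ℝ) ^ 2 / P + C / p1 + (M + 1) * C / H) * (B : ℝ) ^ 2) *
            ((zbox (κ × J) H).card : ℝ) := mul_le_mul_of_nonneg_right h5 (Nat.cast_nonneg _)
        _ ≤ ((3 * η) * (B : ℝ) ^ 2) * ((zbox (κ × J) H).card : ℝ) := by
            apply mul_le_mul_of_nonneg_right _ (Nat.cast_nonneg _)
            exact mul_le_mul_of_nonneg_right h6 (by positivity)
        _ = _ := by ring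
    exact le_of_mul_le_mul_right h8 (by positivity)
  have hsub : (zbox (κ × J) H).filter (fun q => ∃ k l, k ≠ l ∧ ∃ p : ℕ, p.Prime ∧ P < p ∧
        p ∣ N k (fun j => q (k, j)) ∧ p ∣ N l (fun j => q (l, j))) ⊆
      ((Finset.univ : Finset (κ × κ)).filter (fun c => c.1 ≠ c.2)).biUnion (fun c =>
        (zbox (κ × J) H).filter (fun q => ∃ p : ℕ, p.Prime ∧ P < p ∧
        p ∣ N c.1 (fun j => q (c.1, j)) ∧ p ∣ N c.2 (fun j => q (c.2, j)))) := by
    intro q hq
    rw [Finset.mem_filter] at hq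
    obtain ⟨hq1, k, l, hkl, hp⟩ := hq
    rw [Finset.mem_biUnion]
    exact ⟨(k, l), Finset.mem_filter.2 ⟨Finset.mem_univ _, hkl⟩, Finset.mem_filter.2 ⟨hq1, hp⟩⟩
  have h4 : (((zbox (κ × J) H).filter (fun q => ∃ k l, k ≠ l ∧ ∃ p : ℕ, p.Prime ∧ P < p ∧
        p ∣ N k (fun j => q (k, j)) ∧ p ∣ N l (fun j => q (l, j)))).card : ℝ) ≤
      ∑ c ∈ (Finset.univ : Finset (κ × κ)).filter (fun c => c.1 ≠ c.2),
        (((zbox (κ × J) H).filter (fun q => ∃ p : ℕ, p.Prime ∧ P < p ∧
        p ∣ N c.1 (fun j => q (c.1, j)) ∧ p ∣ N c.2 (fun j => q (c.2, j)))).card : ℝ) := by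
    exact_mod_cast (Finset.card_le_card hsub).trans Finset.card_biUnion_le
  refine h4.trans ((Finset.sum_le_sum (fun c hc => hpart c.1 c.2 (Finset.mem_filter.1 hc).2)).trans ?_)
  rw [Finset.sum_const, nsmul_eq_mul]
  have h5 : ((((Finset.univ : Finset (κ × κ)).filter (fun c => c.1 ≠ c.2)).card : ℕ) : ℝ) ≤ (g : ℝ) ^ 2 := by
    have h6 : ((Finset.univ : Finset (κ × κ)).filter (fun c => c.1 ≠ c.2)).card ≤ g * g := by
      refine (Finset.card_filter_le _ _).trans (le_of_eq ?_)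
      rw [Finset.card_univ, Fintype.card_prod]
    calc _ ≤ ((g * g : ℕ) : ℝ) := by exact_mod_cast h6
      _ = _ := by push_cast; ring
  have h6 : (g : ℝ) ^ 2 * (3 * η) ≤ ε := by
    rw [hη]
    have hg0 : (0 : ℝ) ≤ g := Nat.cast_nonneg _
    rw [show (g : ℝ) ^ 2 * (3 * (ε / (3 * (g + 1) ^ 2))) = ε * (g : ℝ) ^ 2 / (g + 1) ^ 2 by field_simp,
      div_le_iff₀ (by positivity)]
    apply mul_le_mul_of_nonneg_left _ hε.le
    nlinarith
  calc _ ≤ (g : ℝ) ^ 2 * ((3 * η) * ((zbox (κ × J) H).card : ℝ)) :=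
        mul_le_mul_of_nonneg_right h5 (by positivity)
    _ = ((g : ℝ) ^ 2 * (3 * η)) * ((zbox (κ × J) H).card : ℝ) := by ring
    _ ≤ _ := mul_le_mul_of_nonneg_right h6 (Nat.cast_nonneg _)

end Pool.Agent.ORB.AA
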