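import Pool.Agent.ORB.FrobEx

/-! ORB, phase 2: the point version of `frob_extract`. -/

namespace Pool.Agent.ORB

open NumberField IsDedekindDomain Polynomial

universe u

/-- the Frobenius element at a prime over `w`, for points -/
theorem frob_ext_aux {K2 M : Type*} [Field K2] [NumberField K2] [Field M] [NumberField M]
    [Algebra K2 M] [IsGalois K2 M] (w : HeightOneSpectrum (𝓞 K2)) :
    ∃ (P : HeightOneSpectrum (𝓞 M)) (τ : M ≃ₐ[K2] M), P.asIdeal.LiesOver w.asIdeal ∧
      ∀ r : M, τ r = r → P.valuation M r ≤ 1 → ∃ y : 𝓞 K2,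
        P.valuation M (r - algebraMap K2 M (algebraMap (𝓞 K2) K2 y)) < 1 := by
  obtain ⟨⟨Q, hQ1, hQ2⟩⟩ := w.asIdeal.nonempty_primesOver (S := 𝓞 M)
  have hQ0 : Q ≠ ⊥ := Ideal.ne_bot_of_mem_primesOver w.ne_bot ⟨hQ1, hQ2⟩
  let P : HeightOneSpectrum (𝓞 M) := ⟨Q, hQ1, hQ0⟩
  have hlo : P.asIdeal.LiesOver w.asIdeal := hQ2
  have hmax : P.asIdeal.IsMaximal := P.isMaximal
  have hfin : Finite (𝓞 M ⧸ P.asIdeal) := inferInstance
  have hinv := inv_ring K2 M
  obtain ⟨τ, hτ⟩ := IsArithFrobAt.exists_of_isInvariant (𝓞 K2) (M ≃ₐ[K2] M) P.asIdeal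
  have hcard : Nat.card (𝓞 K2 ⧸ P.asIdeal.under (𝓞 K2)) = Nat.card (𝓞 K2 ⧸ w.asIdeal) := by
    rw [← hlo.over]
  refine ⟨P, τ, hlo, fun r hfix hri => ?_⟩
  have h1 := frob_val P (τ : M ≃+* M) (q := Nat.card (𝓞 K2 ⧸ w.asIdeal)) (fun y => by
    have := hτ y
    rw [hcard, ← HeightOneSpectrum.valuation_lt_one_iff_mem (K := M)] at this
    have e : (τ : M ≃+* M) (algebraMap (𝓞 M) M y) - (algebraMap (𝓞 M) M y) ^
        Nat.card (𝓞 K2 ⧸ w.asIdeal) = algebraMap (𝓞 M) M
          ((MulSemiringAction.toAlgHom (𝓞 K2) (𝓞 M) τ) y - y ^ Nat.card (𝓞 K2 ⧸ w.asIdeal)) := by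
      rw [map_sub, map_pow]; rfl
    rw [e]
    exact this) hri
  have h2 : (τ : M ≃+* M) r = r := hfix
  rw [h2, Valuation.map_sub_swap] at h1
  obtain ⟨y, hy⟩ := residue w P hri h1
  refine ⟨y, ?_⟩
  rw [← IsScalarTower.algebraMap_apply (𝓞 K2) K2 M]
  exact hy

theorem frob_ext_core {K K2 L M : Type*} [Field K] [NumberField K] [Field K2] [NumberField K2]
    [Field L] [NumberField L] [Algebra K K2] [Algebra K L] [IsGalois ℚ L] [Field M] [NumberField M]
    [Algebra K2 M] [IsGalois K2 M] (p : ℚ[X]) (hp : p.IsSplittingField ℚ L)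
    (hM : (p.map (algebraMap ℚ M)).Splits) (w : HeightOneSpectrum (𝓞 K2)) :
    ∃ (_ : Algebra L M) (P : HeightOneSpectrum (𝓞 M)) (σ : L ≃ₐ[ℚ] L),
      P.asIdeal.LiesOver w.asIdeal ∧
      (∀ x : K, algebraMap L M (algebraMap K L x) = algebraMap K2 M (algebraMap K K2 x)) ∧
      (∀ x : K, σ (algebraMap K L x) = algebraMap K L x) ∧
      ∀ x : L, σ x = x → P.valuation M (algebraMap L M x) ≤ 1 → ∃ y : 𝓞 K2,
        P.valuation M (algebraMap L M x - algebraMap K2 M (algebraMap (𝓞 K2) K2 y)) < 1 := by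
  obtain ⟨P, τ, hlo, hτ⟩ := frob_ext_aux (M := M) w
  let _ : Algebra K M := ((algebraMap K2 M).comp (algebraMap K K2)).toAlgebra
  have hst : IsScalarTower K K2 M := IsScalarTower.of_algebraMap_eq fun x => rfl
  have hsp : (p.map (algebraMap ℚ K)).IsSplittingField K L := inferInstance
  let φ : L →ₐ[K] M := Polynomial.IsSplittingField.lift L (p.map (algebraMap ℚ K)) (by
    rw [Polynomial.map_map]
    have : (algebraMap K M).comp (algebraMap ℚ K) = algebraMap ℚ M := Subsingleton.elim _ _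
    rw [this]
    exact hM)
  let iLM : Algebra L M := φ.toRingHom.toAlgebra
  have hcomm : ∀ x : K, algebraMap L M (algebraMap K L x) = algebraMap K2 M (algebraMap K K2 x) :=
    fun x => φ.commutes x
  let τ' : M ≃ₐ[ℚ] M := AlgEquiv.restrictScalars ℚ τ
  let σ : L ≃ₐ[ℚ] L := τ'.restrictNormal L
  have hσ : ∀ x : L, algebraMap L M (σ x) = τ (algebraMap L M x) := fun x =>
    τ'.restrictNormal_commutes L x
  refine ⟨iLM, P, σ, hlo, hcomm, fun x => ?_, fun x hx hle => ?_⟩
  · apply (algebraMap L M).injective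
    rw [hσ, hcomm, τ.commutes]
  · exact hτ (algebraMap L M x) (by rw [← hσ, hx]) hle

/-- **Frobenius extraction for points.** For a prime `w` of an extension `K2` of `K` and a Galois
number field `L` containing `K` there are a number field `M` containing `K2` and `L`, a prime `P` of
`M` over `w` and an automorphism of `L` over `K` such that every fixed point in `L` which is integral
at `P` is congruent to an integer of `K2` modulo `P`. -/
theorem frob_ext {K K2 L : Type u} [Field K] [NumberField K] [Field K2] [NumberField K2]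
    [Field L] [NumberField L] [Algebra K K2] [Algebra K L] [IsGalois ℚ L]
    (w : HeightOneSpectrum (𝓞 K2)) :
    ∃ (M : Type u) (_ : Field M) (_ : NumberField M) (_ : Algebra K2 M) (_ : Algebra L M)
      (P : HeightOneSpectrum (𝓞 M)) (σ : L ≃ₐ[ℚ] L),
      P.asIdeal.LiesOver w.asIdeal ∧
      (∀ x : K, algebraMap L M (algebraMap K L x) = algebraMap K2 M (algebraMap K K2 x)) ∧
      (∀ x : K, σ (algebraMap K L x) = algebraMap K L x) ∧
      ∀ x : L, σ x = x → P.valuation M (algebraMap L M x) ≤ 1 → ∃ y : 𝓞 K2,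
        P.valuation M (algebraMap L M x - algebraMap K2 M (algebraMap (𝓞 K2) K2 y)) < 1 := by
  obtain ⟨p, hsep, hp⟩ := IsGalois.is_separable_splitting_field ℚ L
  let M := (p.map (algebraMap ℚ K2)).SplittingField
  have hfdM : FiniteDimensional K2 M := inferInstance
  have hgal : IsGalois K2 M :=
    IsGalois.of_separable_splitting_field (p := p.map (algebraMap ℚ K2)) hsep.map
  have hcz : CharZero M := charZero_of_injective_algebraMap (algebraMap K2 M).injective
  have hNF : NumberField M :=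
    { to_charZero := hcz
      to_finiteDimensional := FiniteDimensional.trans ℚ K2 M }
  have hM : (p.map (algebraMap ℚ M)).Splits := by
    have h := SplittingField.splits (p.map (algebraMap ℚ K2))
    rw [Polynomial.map_map] at h
    have : (algebraMap K2 M).comp (algebraMap ℚ K2) = algebraMap ℚ M := Subsingleton.elim _ _
    rw [← this]
    exact h
  obtain ⟨iLM, P, σ, h1, h2, h3, h4⟩ := frob_ext_core (K := K) (L := L) (M := M) p hp hM w
  exact ⟨M, inferInstance, hNF, inferInstance, iLM, P, σ, h1, h2, h3, h4⟩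

end Pool.Agent.ORB
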