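import Pool.Agent.ORB.RTarget
import Pool.Agent.ORB.FrobPt

/-! ORB, rational functions, R5: from a place of an extension to an automorphism without fixed targets. -/

namespace Pool.Agent.ORB

open NumberField IsDedekindDomain Polynomial

universe u

/-- `Provides f β`: over every extension `K'`, for large `N`, every Galois number field `L` has an
automorphism over `K'` which moves all targets of level `N` -/
def Provides {K : Type u} [Field K] [NumberField K] {I : Type} (f : I → RP K) (β : I → OnePoint K) : Prop :=
  ∀ (K' : Type u) [Field K'] [NumberField K'] [Algebra K K'], ∃ N0 : ℕ, ∀ N, N0 ≤ N →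
    ∀ (L : Type u) [Field L] [NumberField L] [Algebra K' L] [Algebra K L] [IsScalarTower K K' L]
      [IsGalois ℚ L], ∃ σ : L ≃ₐ[K'] L, ∀ (i : I) (x : OnePoint L),
        IsTgt (f i) (β i) L (((f i).map (algebraMap K L)).act^[N] x) → pmap (σ : L →+* L) x ≠ x

theorem pmap_fix_iterate {K L : Type*} [Field K] [Field L] [Algebra K L] (f : RP K) (σ : L →+* L)
    (hσ : ∀ x : K, σ (algebraMap K L x) = algebraMap K L x) {x : OnePoint L} (hx : pmap σ x = x) (n : ℕ) :
    pmap σ ((f.map (algebraMap K L)).act^[n] x) = (f.map (algebraMap K L)).act^[n] x := by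
  have h1 : (f.map (algebraMap K L)).map σ = f.map (algebraMap K L) := by
    rw [RP.map_map]
    congr 1
    exact RingHom.ext hσ
  have h2 := RP.act_map_iterate σ (f.map (algebraMap K L)) n x
  rw [h1, hx] at h2
  exact h2.symm

/-- a place of an extension where the wandering `β_i` are not periodic provides such automorphisms -/
theorem provides_of_places {K : Type u} [Field K] [NumberField K] {I : Type} [Finite I] (f : I → RP K)
    (hf : ∀ i, 2 ≤ (f i).d) (β : I → OnePoint K)
    (hw : ∀ (bad : Finset ℕ) (K' : Type u) [Field K'] [NumberField K'] [Algebra K K'],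
      ∃ (K2 : Type u) (_ : Field K2) (_ : NumberField K2) (_ : Algebra K K2) (_ : Algebra K' K2)
        (w : HeightOneSpectrum (𝓞 K2)), IsScalarTower K K' K2 ∧ Off w bad ∧
          ∀ i, Function.Injective (fun n : ℕ => (f i).act^[n] (β i)) →
            RNonPer w ((f i).map (algebraMap K K2)) (pmap (algebraMap K K2) (β i))) :
    Provides f β := by
  classical
  cases nonempty_fintype I
  intro K' _ _ _
  choose bad1 hbad1 using fun i => RP.exists_bad (f i)
  choose bad2 hbad2 using fun i => tgt_nonper (f i) (hf i) (β i)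
  set bad : Finset ℕ := Finset.univ.biUnion (fun i => bad1 i ∪ bad2 i) with hbad
  obtain ⟨K2, _, _, _, _, w, htow, hoff, hnp⟩ := hw bad K'
  obtain ⟨N0, hN0⟩ := exists_sameRed w
  refine ⟨N0, ?_⟩
  intro N hN L _ _ _ _ _ _
  obtain ⟨M, _, _, _, _, P, σ, hlo, h2, h3, h4⟩ := frob_ext (K := K') (K2 := K2) (L := L) w
  refine ⟨AlgEquiv.ofRingEquiv (f := (σ : L ≃+* L)) h3, ?_⟩
  intro i x hx hfix
  let algKM : Algebra K M := ((algebraMap K2 M).comp (algebraMap K K2)).toAlgebra
  have t1 : IsScalarTower K K2 M := IsScalarTower.of_algebraMap_eq (fun x => rfl)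
  have t2 : IsScalarTower K L M := by
    refine IsScalarTower.of_algebraMap_eq (fun y => ?_)
    rw [IsScalarTower.algebraMap_apply K K' L, h2, ← IsScalarTower.algebraMap_apply K K' K2]
    rfl
  have hσK : ∀ y : K, (σ : L →+* L) (algebraMap K L y) = algebraMap K L y := by
    intro y
    rw [IsScalarTower.algebraMap_apply K K' L]
    exact h3 _
  have hfix' : pmap (σ : L →+* L) x = x := hfix
  have hoff1 : Off w (bad1 i) := fun n hn => hoff n (Finset.mem_biUnion.2
    ⟨i, Finset.mem_univ _, Finset.mem_union_left _ hn⟩)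
  have hoff2 : Off w (bad2 i) := fun n hn => hoff n (Finset.mem_biUnion.2
    ⟨i, Finset.mem_univ _, Finset.mem_union_right _ hn⟩)
  have hgood : ((f i).map (algebraMap K M)).Good (P.valuation M) := hbad1 i M P (off_ext w P hoff1)
  -- nonperiodicity of the target
  have hmapM : (f i).map (algebraMap K M) = ((f i).map (algebraMap K K2)).map (algebraMap K2 M) := by
    rw [RP.map_map]
    rfl
  have hmapL : (f i).map (algebraMap K M) = ((f i).map (algebraMap K L)).map (algebraMap L M) := by
    rw [RP.map_map, IsScalarTower.algebraMap_eq K L M]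
  have hnpM : Function.Injective (fun n : ℕ => (f i).act^[n] (β i)) →
      RNonPer P ((f i).map (algebraMap K M)) (pmap (algebraMap K M) (β i)) := by
    intro hinj
    have h5 := (rnonPer_ext w P ((f i).map (algebraMap K K2)) (pmap (algebraMap K K2) (β i))).2
      (hnp i hinj)
    rw [pmap_comp, ← hmapM] at h5
    exact h5
  have hxM : IsTgt (f i) (β i) M (pmap (algebraMap L M) (((f i).map (algebraMap K L)).act^[N] x)) :=
    (isTgt_map (f i) (β i) _).2 hx
  have hnon := hbad2 i M P (off_ext w P hoff2) hnpM _ hxM
  -- the iterates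
  set g := (f i).map (algebraMap K M) with hg
  set X : ℕ → OnePoint M := fun n => g.act^[n] (pmap (algebraMap L M) x) with hX
  have hXn : ∀ n, X n = pmap (algebraMap L M) (((f i).map (algebraMap K L)).act^[n] x) := by
    intro n
    rw [hX]
    simp only
    rw [hmapL, RP.act_map_iterate]
  rw [← hXn] at hnon
  have hred : ∀ n, ∃ y : OnePoint K2, SameRed P (X n) (pmap (algebraMap K2 M) y) := by
    intro n
    rw [hXn]
    have h5 := pmap_fix_iterate (f i) (σ : L →+* L) hσK hfix' n
    generalize ((f i).map (algebraMap K L)).act^[n] x = z at h5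
    induction z using OnePoint.rec with
    | infty =>
      refine ⟨OnePoint.infty, ?_⟩
      rw [pmap_infty, pmap_infty]
      exact SameRed.refl P _
    | coe a =>
      rw [pmap_coe, OnePoint.coe_eq_coe] at h5
      by_cases ha : P.valuation M (algebraMap L M a) ≤ 1
      · obtain ⟨y, hy⟩ := h4 a h5 ha
        refine ⟨((algebraMap (𝓞 K2) K2 y : K2) : OnePoint K2), ?_⟩
        rw [pmap_coe, pmap_coe]
        refine Or.inr ⟨_, _, rfl, rfl, ha, ?_, hy⟩
        rw [← IsScalarTower.algebraMap_apply (𝓞 K2) K2 M, IsScalarTower.algebraMap_apply (𝓞 K2) (𝓞 M) M]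
        exact HeightOneSpectrum.valuation_le_one P _
      · refine ⟨OnePoint.infty, ?_⟩
        rw [pmap_infty, pmap_coe]
        refine Or.inl ⟨?_, ?_⟩
        · intro b hb
          rw [OnePoint.coe_eq_coe] at hb
          rw [← hb]
          exact not_le.1 ha
        · intro b hb
          exact absurd hb.symm (OnePoint.coe_ne_infty _)
  choose Y hY using hred
  obtain ⟨i1, j1, hij, hjN, hsame⟩ := hN0 Y
  have hsameM : SameRed P (X i1) (X j1) := by
    have h5 := (sameRed_ext w P (Y i1) (Y j1)).2 hsame
    exact ((hY i1).trans h5).trans (hY j1).symm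
  -- `f^N(x)` is periodic modulo `P`
  have h6 := hgood.sameRed_iterate hsameM (N - i1)
  rw [hX] at h6
  simp only at h6
  rw [← Function.iterate_add_apply, ← Function.iterate_add_apply] at h6
  have e1 : N - i1 + i1 = N := by omega
  have e2 : N - i1 + j1 = (j1 - i1) + N := by omega
  rw [e1, e2, Function.iterate_add_apply] at h6
  exact hnon (j1 - i1) (by omega) h6.symm

end Pool.Agent.ORB
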