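import Pool.Agent.ORB.Torus
import Pool.Agent.ORB.RFrob

/-!
ORB, rational functions: power maps, Chebyshev maps and their conjugates provide automorphisms, for arbitrary
targets.
-/

namespace Pool.Agent.ORB

open NumberField Polynomial

universe u

/-- the set of the targets is finite -/
theorem finite_tgt {K : Type*} [Field K] (f : RP K) (hf : 1 ≤ f.d) (β : OnePoint K) (L : Type*) [Field L]
    [Algebra K L] : {y : OnePoint L | IsTgt f β L y}.Finite := by
  set g : RP L := f.map (algebraMap K L) with hg
  set Z : Set (OnePoint L) := {z | (∃ m, 1 ≤ m ∧ f.act^[m] β = β) ∧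
    ∃ j, z = pmap (algebraMap K L) (f.act^[j] β)} with hZ
  have hZf : Z.Finite := by
    by_cases h : ∃ m, 1 ≤ m ∧ f.act^[m] β = β
    · obtain ⟨m, hm, h1⟩ := h
      have h2 : Z ⊆ (fun j : ℕ => pmap (algebraMap K L) (f.act^[j] β)) '' (Set.Iio m) := by
        rintro z ⟨-, j, rfl⟩
        refine ⟨j % m, Nat.mod_lt _ hm, ?_⟩
        have h3 : f.act^[j % m] β = f.act^[j] β := by
          conv_rhs => rw [← Nat.mod_add_div j m]
          rw [Function.iterate_add_apply]
          congr 1
          have h4 : Function.IsPeriodicPt f.act (m * (j / m)) β :=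
            Function.IsPeriodicPt.mul_const h1 _
          exact h4.symm
        change pmap _ (f.act^[j % m] β) = _
        rw [h3]
      exact ((Set.finite_Iio m).image _).subset h2
    · have : Z = ∅ := by
        ext z
        simp only [hZ, Set.mem_ofPred_eq, Set.mem_empty_iff_false, iff_false]
        rintro ⟨h1, -⟩
        exact h h1
      rw [this]
      exact Set.finite_empty
  have h1 : {y : OnePoint L | IsTgt f β L y} ⊆ {pmap (algebraMap K L) β} ∪
      ({OnePoint.infty} ∪ (fun a : L => (a : OnePoint L)) '' {v : L | g.act (v : OnePoint L) ∈ Z}) := by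
    rintro y ⟨-, h2 | ⟨h2, j, hj⟩⟩
    · exact Or.inl h2
    · right
      induction y using OnePoint.rec with
      | infty => exact Or.inl rfl
      | coe a => exact Or.inr ⟨a, ⟨h2, j, hj⟩, rfl⟩
  exact ((Set.finite_singleton _).union ((Set.finite_singleton _).union
    ((g.finite_fiber hf Z hZf).image _))).subset h1

/-- maps which are over the algebraic closure conjugate to `x^d`, `x^(-d)`, `T_d` or `-T_d` -/
theorem provides_torus {K : Type u} [Field K] [NumberField K] {I : Type} [Finite I] (f : I → RP K)
    (hf : ∀ i, 1 ≤ (f i).d) (h : ∀ i, IsTorus ((f i).map (algebraMap K (AlgebraicClosure K))))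
    (β : I → OnePoint K) : Provides f β := by
  intro K' _ _ _
  set Ω := AlgebraicClosure K' with hΩ
  have hclK : IsAlgClosure K Ω := inferInstance
  let j : AlgebraicClosure K ≃ₐ[K] Ω := IsAlgClosure.equiv K (AlgebraicClosure K) Ω
  have ht : ∀ i, Nonempty (TorusData ((f i).map (algebraMap K Ω))) := by
    intro i
    apply IsTorus.data
    have h1 := (h i).map (j : AlgebraicClosure K ≃+* Ω)
    rw [RP.map_map] at h1
    have h2 : ((j : AlgebraicClosure K ≃+* Ω) : AlgebraicClosure K →+* Ω).comp
        (algebraMap K (AlgebraicClosure K)) = algebraMap K Ω := RingHom.ext fun x => j.commutes x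
    rw [h2] at h1
    exact h1
  obtain ⟨N0, hN0⟩ := torus_moves_pt (K := K') Ω (fun i => (f i).map (algebraMap K Ω))
    (fun i => (ht i).some) (fun i => {y | IsTgt (f i) (β i) Ω y}) (fun i => finite_tgt _ (hf i) _ _)
    (fun i y hy m hm => hy.1 m hm)
  refine ⟨N0, fun N hN L _ _ _ _ _ _ => ?_⟩
  obtain ⟨τ, hτ⟩ := hN0 N hN
  have hint : Algebra.IsAlgebraic K' L := inferInstance
  let ψ : L →ₐ[K'] Ω := IsAlgClosed.lift
  let _ : Algebra L Ω := ψ.toRingHom.toAlgebra
  have hst : IsScalarTower K' L Ω := IsScalarTower.of_algebraMap_eq fun x => (ψ.commutes x).symm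
  have hst2 : IsScalarTower K L Ω := by
    refine IsScalarTower.of_algebraMap_eq fun x => ?_
    rw [IsScalarTower.algebraMap_apply K K' L, ← IsScalarTower.algebraMap_apply K' L Ω,
      ← IsScalarTower.algebraMap_apply K K' Ω]
  have hgal : IsGalois K' L := IsGalois.tower_top_of_isGalois ℚ K' L
  refine ⟨τ.restrictNormal L, fun i x hx hfix => ?_⟩
  have hτL : (τ : Ω →+* Ω).comp (algebraMap L Ω) = (algebraMap L Ω).comp ((τ.restrictNormal L : L ≃ₐ[K'] L) : L →+* L) :=
    RingHom.ext fun z => (τ.restrictNormal_commutes L z).symm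
  apply hτ i (pmap (algebraMap L Ω) x)
  · change IsTgt (f i) (β i) Ω _
    have h1 : (f i).map (algebraMap K Ω) = ((f i).map (algebraMap K L)).map (algebraMap L Ω) := by
      rw [RP.map_map, ← IsScalarTower.algebraMap_eq]
    rw [h1, RP.act_map_iterate, isTgt_map]
    exact hx
  · rw [pmap_comp, hτL, ← pmap_comp, hfix]

end Pool.Agent.ORB
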