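import Pool.Agent.ORB.RPlace
import Pool.Agent.ORB.RTorus

/-! ORB, rational functions: the kinds of blocks in terms of rational functions, and Theorem I. -/

namespace Pool.Agent.ORB

open NumberField IsDedekindDomain Polynomial

universe u

/-- `f` has good reduction at `w`: for some constant `c` the polynomials `c * num` and `c * denom` have
`w`-integral coefficients and no common zero on the projective line over the residue field -/
def GoodRed {K K2 : Type*} [Field K] [Field K2] [NumberField K2] (φ : K →+* K2)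
    (w : HeightOneSpectrum (𝓞 K2)) (f : RatFunc K) : Prop :=
  ∃ c : K2, c ≠ 0 ∧ (∀ j, w.valuation K2 (c * φ (f.num.coeff j)) ≤ 1) ∧
    (∀ j, w.valuation K2 (c * φ (f.denom.coeff j)) ≤ 1) ∧
    (∃ U V : K2[X], (∀ j, w.valuation K2 (U.coeff j) ≤ 1) ∧ (∀ j, w.valuation K2 (V.coeff j) ≤ 1) ∧
      U * (C c * f.num.map φ) + V * (C c * f.denom.map φ) = 1) ∧
    (w.valuation K2 (c * φ (f.num.coeff (rdeg f))) = 1 ∨
      w.valuation K2 (c * φ (f.denom.coeff (rdeg f))) = 1)

theorem GoodRed.rGood {K K2 : Type u} [Field K] [Field K2] [NumberField K2] {φ : K →+* K2}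
    {w : HeightOneSpectrum (𝓞 K2)} {f : RatFunc K} (h : GoodRed φ w f) :
    RGood w ((RP.ofRat f).map φ) := by
  obtain ⟨c, hc, h1, h2, ⟨U, V, h3, h4, h5⟩, h6⟩ := h
  refine ⟨c, hc, ?_, ?_, ⟨U, V, h3, h4, h5⟩, ?_⟩
  · intro j
    show w.valuation K2 ((C c * f.num.map φ).coeff j) ≤ 1
    rw [coeff_C_mul, coeff_map]
    exact h1 j
  · intro j
    show w.valuation K2 ((C c * f.denom.map φ).coeff j) ≤ 1
    rw [coeff_C_mul, coeff_map]
    exact h2 j
  · show w.valuation K2 ((C c * f.num.map φ).coeff (rdeg f)) = 1 ∨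
      w.valuation K2 ((C c * f.denom.map φ).coeff (rdeg f)) = 1
    rw [coeff_C_mul, coeff_map, coeff_C_mul, coeff_map]
    exact h6

/-- blocks of the second kind: there is a prime `w` of some finite extension of `K` such that the maps `f_i` with
wandering `β_i` have good reduction at `w` and these `β_i` are not periodic modulo `w` -/
def PrimeBlock {K : Type u} [Field K] [NumberField K] {I : Type} (f : I → RatFunc K)
    (β : I → OnePoint K) : Prop :=
  ∃ (K2 : Type u) (_ : Field K2) (_ : NumberField K2) (_ : Algebra K K2) (w : HeightOneSpectrum (𝓞 K2)),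
    ∀ i, Function.Injective (fun n : ℕ => (ract (RingHom.id K) (f i))^[n] (β i)) →
      GoodRed (algebraMap K K2) w (f i) ∧
        ∀ m, 1 ≤ m → ¬ SameRed w
          ((ract (algebraMap K K2) (f i))^[m] (OnePoint.map (algebraMap K K2) (β i)))
          (OnePoint.map (algebraMap K K2) (β i))

theorem PrimeBlock.placeBlock {K : Type u} [Field K] [NumberField K] {I : Type} {f : I → RatFunc K}
    {β : I → OnePoint K} (h : PrimeBlock f β) : PlaceBlock (fun i => RP.ofRat (f i)) β := by
  obtain ⟨K2, _, _, _, w, hw⟩ := h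
  refine ⟨K2, inferInstance, inferInstance, inferInstance, w, ?_⟩
  intro i hi
  obtain ⟨h1, h2⟩ := hw i (by rw [ract_id]; exact hi)
  refine ⟨h1.rGood, ?_⟩
  intro m hm
  have := h2 m hm
  rw [ract_fun_eq] at this
  exact this

/-- `f` is conjugate over `Ka` to `x ^ d`, `x ^ (-d)`, `T_d` or `-T_d` for some `d ≥ 2`, where `T_d` is the
polynomial with `T_d (x + 1 / x) = x ^ d + 1 / x ^ d` -/
def TorusMap {K Ka : Type*} [Field K] [Field Ka] (φ : K →+* Ka) (f : RatFunc K) : Prop :=
  ∃ (d : ℕ) (μ t : RatFunc Ka), 2 ≤ d ∧ rdeg μ = 1 ∧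
    (t = RatFunc.X ^ d ∨ t = (RatFunc.X ^ d)⁻¹ ∨ t = algebraMap Ka[X] (RatFunc Ka) (dickson 1 1 d) ∨
      t = algebraMap Ka[X] (RatFunc Ka) (-dickson 1 1 d)) ∧
    ∀ x : OnePoint Ka, ract φ f (ract (RingHom.id Ka) μ x) =
      ract (RingHom.id Ka) μ (ract (RingHom.id Ka) t x)

theorem act_polynomial {Ka : Type*} [Field Ka] (g : Ka[X]) (hg : 1 ≤ g.natDegree) :
    (RP.ofRat (algebraMap Ka[X] (RatFunc Ka) g)).act = pact g := by
  have hd : rdeg (algebraMap Ka[X] (RatFunc Ka) g) = g.natDegree := by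
    unfold rdeg
    rw [RatFunc.num_algebraMap, RatFunc.denom_algebraMap, natDegree_one]
    exact max_eq_left (Nat.zero_le _)
  funext x
  induction x using OnePoint.rec with
  | infty =>
    rw [RP.act_infty, pact_infty]
    show mk2 ((algebraMap Ka[X] (RatFunc Ka) g).num.coeff _) ((algebraMap Ka[X] (RatFunc Ka) g).denom.coeff
      (rdeg (algebraMap Ka[X] (RatFunc Ka) g))) = _
    rw [hd, RatFunc.denom_algebraMap, coeff_one, if_neg (by omega), mk2_zero]
  | coe a =>
    rw [RP.act_coe, pact_coe]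
    show mk2 ((algebraMap Ka[X] (RatFunc Ka) g).num.eval a) ((algebraMap Ka[X] (RatFunc Ka) g).denom.eval a) = _
    rw [RatFunc.num_algebraMap, RatFunc.denom_algebraMap, eval_one, mk2_one]

theorem act_inv_pow {Ka : Type*} [Field Ka] (d : ℕ) :
    (RP.ofRat ((RatFunc.X ^ d)⁻¹ : RatFunc Ka)).act = (invPow Ka d).act := by
  have h := RP.act_ofRat (invPow Ka d) ((RatFunc.X ^ d)⁻¹ : RatFunc Ka) (by
    show algebraMap Ka[X] (RatFunc Ka) 1 = (RatFunc.X ^ d)⁻¹ * algebraMap Ka[X] (RatFunc Ka) (X ^ d)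
    rw [map_one, map_pow, RatFunc.algebraMap_X, inv_mul_cancel₀]
    exact pow_ne_zero _ RatFunc.X_ne_zero)
  funext x
  have h1 := h.2 Ka x
  rw [Algebra.algebraMap_self, RP.map_id, RP.map_id] at h1
  exact h1.symm

theorem TorusMap.isTorus {K Ka : Type*} [Field K] [Field Ka] [CharZero Ka] {φ : K →+* Ka} {f : RatFunc K}
    (h : TorusMap φ f) : IsTorus ((RP.ofRat f).map φ) := by
  obtain ⟨d, μ, t, hd, hμ, ht, hconj⟩ := h
  refine ⟨d, RP.ofRat μ, hd, hμ, ?_⟩
  have hc : ∀ x, ((RP.ofRat f).map φ).act ((RP.ofRat μ).act x) =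
      (RP.ofRat μ).act ((RP.ofRat t).act x) := by
    intro x
    have := hconj x
    rw [ract_id, ract_id, ract_fun_eq] at this
    exact this
  have hdick : 1 ≤ (dickson 1 (1 : Ka) d).natDegree := by
    by_contra hcon
    have h0 : (dickson 1 (1 : Ka) d).natDegree = 0 := by omega
    obtain ⟨a, ha⟩ := natDegree_eq_zero.1 h0
    have e1 := dickson_one_one_eval_add_inv (1 : Ka) 1 (one_mul 1) d
    have e2 := dickson_one_one_eval_add_inv (2 : Ka) 2⁻¹ (mul_inv_cancel₀ two_ne_zero) d
    rw [← ha, eval_C] at e1 e2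
    rw [e1, one_pow] at e2
    -- `2 = 2 ^ d + 2 ^ (-d)` forces `(2 ^ d - 1) ^ 2 = 0`
    have h2 : (2 : Ka) ^ d ≠ 0 := pow_ne_zero _ two_ne_zero
    have h3 : ((2 : Ka) ^ d - 1) ^ 2 = 0 := by
      have h4 : (2 : Ka) ^ d * (2⁻¹) ^ d = 1 := by
        rw [← mul_pow, mul_inv_cancel₀ two_ne_zero, one_pow]
      linear_combination (-(2 : Ka) ^ d) * e2 - h4
    have h5 : (2 : Ka) ^ d = 1 := sub_eq_zero.1 (pow_eq_zero_iff two_ne_zero |>.1 h3)
    have h6 : (2 ^ d : ℕ) = 1 := by exact_mod_cast h5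
    have h7 : 2 ^ 1 ≤ 2 ^ d := Nat.pow_le_pow_right (by omega) (by omega)
    omega
  rcases ht with rfl | rfl | rfl | rfl
  · left
    have h1 : (RatFunc.X ^ d : RatFunc Ka) = algebraMap Ka[X] (RatFunc Ka) (X ^ d) := by
      rw [map_pow, RatFunc.algebraMap_X]
    intro x
    rw [hc, h1, act_polynomial _ (by rw [natDegree_X_pow]; omega)]
  · right; left
    intro x
    rw [hc, act_inv_pow]
  · right; right; left
    intro x
    rw [hc, act_polynomial _ hdick]
  · right; right; right
    intro x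
    rw [hc, act_polynomial _ (by rw [natDegree_neg]; exact hdick)]

/-- **Theorem I.** The indices are divided into blocks with pairwise coprime exponents; each block is of one of
three kinds. -/
theorem rthmI {K : Type u} [Field K] [NumberField K] {ι J : Type} [Finite ι] [Finite J]
    (f : ι → RatFunc K) (hf : ∀ i, 2 ≤ rdeg (f i)) (α β : ι → OnePoint K)
    (hαβ : ∀ i n, (ract (RingHom.id K) (f i))^[n] (α i) ≠ β i) (blk : ι → J) (E : J → ℕ)
    (hE : ∀ j j', j ≠ j' → Nat.Coprime (E j) (E j')) (hexp : ∀ i, RHasExp (E (blk i)) (f i))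
    (hblk : ∀ j, OrbitBlock (fun i : {i // blk i = j} => f i.1) (fun i : {i // blk i = j} => β i.1) ∨
      PrimeBlock (fun i : {i // blk i = j} => f i.1) (fun i : {i // blk i = j} => β i.1) ∨
      ∀ i, blk i = j → TorusMap (algebraMap K (AlgebraicClosure K)) (f i)) :
    PosDensity (RAvoidSet f α β) := by
  refine rthm_of_provides f hf α β hαβ blk E hE hexp (fun j => ?_)
  rcases hblk j with h | h | h
  · exact provides_of_orbit (fun i : {i // blk i = j} => f i.1) (fun i => hf i.1)
      (fun i : {i // blk i = j} => β i.1) h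
  · exact provides_of_place (fun i : {i // blk i = j} => RP.ofRat (f i.1)) (fun i => hf i.1)
      (fun i : {i // blk i = j} => β i.1) h.placeBlock
  · exact provides_torus (fun i : {i // blk i = j} => RP.ofRat (f i.1)) (fun i => by
      have := hf i.1
      show 1 ≤ rdeg (f i.1)
      omega) (fun i => (h i.1 i.2).isTorus) (fun i : {i // blk i = j} => β i.1)

end Pool.Agent.ORB
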