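import Pool.Agent.ORB.ThmIV
import Pool.Agent.ORB.RBlocks

/-!
ORB, Theorem V, assembly, first part: tuples of rational functions with the extension property can be added to
any family with a core.
-/

namespace Pool.Agent.ORB

open NumberField IsDedekindDomain Polynomial

universe u

/-- the extension property for the targets of a tuple of rational functions over `K`: every automorphism of `W`
over `K` agrees on every given finite set with an automorphism which moves all targets of some level -/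
def ExtT {K : Type*} (W : Type*) [Field K] [Field W] [Algebra K W] {ι : Type*} (f : ι → RP K)
    (β : ι → OnePoint K) : Prop :=
  ∀ T : Set W, T.Finite → ∀ s₀ : W ≃ₐ[K] W, ∃ (N : ℕ) (s : W ≃ₐ[K] W), (∀ t ∈ T, s t = s₀ t) ∧
    ∀ i (x : OnePoint W), IsTgt (f i) (β i) W (((f i).map (algebraMap K W)).act^[N] x) →
      pmap (s : W →+* W) x ≠ x

/-- the same with automorphisms over an extension `F` of `K` -/
def ExtTF {K : Type*} (F W : Type*) [Field K] [Field F] [Field W] [Algebra F W] [Algebra K W] {ι : Type*}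
    (f : ι → RP K) (β : ι → OnePoint K) : Prop :=
  ∀ T : Set W, T.Finite → ∀ s₀ : W ≃ₐ[F] W, ∃ (N : ℕ) (s : W ≃ₐ[F] W), (∀ t ∈ T, s t = s₀ t) ∧
    ∀ i (x : OnePoint W), IsTgt (f i) (β i) W (((f i).map (algebraMap K W)).act^[N] x) →
      pmap (s : W →+* W) x ≠ x

/-- targets of an iterate -/
theorem tgt_iterate {X : Type*} (T : X → X) {k : ℕ} (hk : 1 ≤ k) {b y : X}
    (hy : ∀ m, 1 ≤ m → (T^[k])^[m] y ≠ y)
    (h : y = b ∨ ((∃ m, 1 ≤ m ∧ (T^[k])^[m] b = b) ∧ ∃ j, T^[k] y = (T^[k])^[j] b)) :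
    ∃ e, (∀ m, 1 ≤ m → T^[m] (T^[e] y) ≠ T^[e] y) ∧
      (T^[e] y = b ∨ ((∃ m, 1 ≤ m ∧ T^[m] b = b) ∧ ∃ j, T (T^[e] y) = T^[j] b)) := by
  classical
  have hnp : ∀ m, 1 ≤ m → T^[m] y ≠ y := by
    intro m hm hmy
    apply hy m hm
    rw [← Function.iterate_mul, mul_comm]
    exact Function.IsPeriodicPt.mul_const hmy k
  rcases h with h | ⟨⟨m, hm, hb⟩, j, hj⟩
  · exact ⟨0, hnp, Or.inl h⟩
  · rw [← Function.iterate_mul] at hb hj
    have hkm : 1 ≤ k * m := Nat.mul_pos hk hm
    -- the first index with a periodic point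
    have hper : ∃ i, ∃ n, 1 ≤ n ∧ T^[n] (T^[i] y) = T^[i] y := by
      refine ⟨k, k * m, hkm, ?_⟩
      rw [hj, ← Function.iterate_add_apply, add_comm, Function.iterate_add_apply, hb]
    obtain ⟨n, hn, hn1⟩ := Nat.find_spec hper
    set i0 := Nat.find hper with hi0
    have hi1 : i0 ≠ 0 := by
      intro h0
      rw [h0] at hn1
      exact hnp n hn hn1
    have hi2 : i0 ≤ k := Nat.find_min' hper ⟨k * m, hkm, by
      rw [hj, ← Function.iterate_add_apply, add_comm, Function.iterate_add_apply, hb]⟩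
    refine ⟨i0 - 1, ?_, Or.inr ⟨⟨k * m, hkm, hb⟩, ?_⟩⟩
    · intro m' hm' h'
      exact Nat.find_min hper (m := i0 - 1) (by omega) ⟨m', hm', h'⟩
    · have e1 : T (T^[i0 - 1] y) = T^[i0] y := by
        rw [← Function.iterate_succ_apply' T]
        congr 1
        omega
      refine ⟨n * (k + 1) - (k - i0) + k * j, ?_⟩
      have hnk : k - i0 ≤ n * (k + 1) := by
        have : k + 1 ≤ n * (k + 1) := Nat.le_mul_of_pos_left _ hn
        omega
      rw [e1, Function.iterate_add_apply, ← hj]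
      have e2 : T^[k] y = T^[k - i0] (T^[i0] y) := by
        rw [← Function.iterate_add_apply]
        congr 1
        omega
      rw [e2, ← Function.iterate_add_apply]
      have e3 : n * (k + 1) - (k - i0) + (k - i0) = n * (k + 1) := by omega
      rw [e3]
      exact (Function.IsPeriodicPt.mul_const hn1 (k + 1)).symm

theorem extT_iff {K W : Type*} [Field K] [Field W] [Algebra K W] {ι : Type*} {f : ι → RP K}
    {β : ι → OnePoint K} : ExtT W f β ↔ ExtTF K W f β := Iff.rfl

/-- the property `Core` for one extension `K3` -/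
def CoreAt {K : Type u} [Field K] [NumberField K] (K3 : Type u) [Field K3] [NumberField K3] [Algebra K K3]
    (𝒜 : Set (Set (HeightOneSpectrum (𝓞 K)))) : Prop :=
  ∃ (J : Type) (_ : Finite J) (F : J → K[X]),
    (∀ j, F j ≠ 0) ∧ (∀ A ∈ 𝒜, {v | v ∉ A ∧ ∀ j, ¬ HasRoot v (F j)}.Finite) ∧
    ∀ (L : Type u) [Field L] [NumberField L] [Algebra K3 L] [Algebra K L] [IsScalarTower K K3 L]
      [IsGalois ℚ L], ∃ σ : L ≃ₐ[K3] L, ∀ j (r : L), aeval r (F j) = 0 → σ r ≠ r

theorem core_iff {K : Type u} [Field K] [NumberField K] {𝒜 : Set (Set (HeightOneSpectrum (𝓞 K)))} :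
    Core 𝒜 ↔ ∀ (K3 : Type u) [Field K3] [NumberField K3] [Algebra K K3], CoreAt K3 𝒜 := Iff.rfl

theorem coreAt_univ {K : Type u} [Field K] [NumberField K] (K3 : Type u) [Field K3] [NumberField K3]
    [Algebra K K3] : CoreAt K3 ({Set.univ} : Set (Set (HeightOneSpectrum (𝓞 K)))) := by
  refine ⟨Empty, inferInstance, fun j => j.elim, fun j => j.elim, ?_, ?_⟩
  · rintro A rfl
    have : {v : HeightOneSpectrum (𝓞 K) | v ∉ (Set.univ : Set (HeightOneSpectrum (𝓞 K))) ∧
        ∀ j : Empty, ¬ HasRoot v ((fun j : Empty => j.elim : Empty → K[X]) j)} = ∅ := by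
      ext v
      simp
    rw [this]
    exact Set.finite_empty
  · intro L _ _ _ _ _ _
    exact ⟨AlgEquiv.refl, fun j => j.elim⟩

theorem CoreAt.posDensity {K : Type u} [Field K] [NumberField K] {K3 : Type u} [Field K3] [NumberField K3]
    [Algebra K K3] {𝒜 : Set (Set (HeightOneSpectrum (𝓞 K)))}
    (h : CoreAt K3 𝒜) {A : Set (HeightOneSpectrum (𝓞 K))} (hA : A ∈ 𝒜) : PosDensity A := by
  obtain ⟨J, _, F, hF0, hFA, hL⟩ := h
  obtain ⟨L, _, _, _, hgal, hsp⟩ := exists_closure (fun j => (F j).map (algebraMap K K3))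
    (fun j => Polynomial.map_ne_zero (hF0 j))
  let algKL : Algebra K L := ((algebraMap K3 L).comp (algebraMap K K3)).toAlgebra
  have hst : IsScalarTower K K3 L := IsScalarTower.of_algebraMap_eq (fun x => rfl)
  obtain ⟨σ, hσ⟩ := hL L
  have h1 : ∀ x : K, (σ.restrictScalars ℚ) (algebraMap K L x) = algebraMap K L x :=
    fun x => σ.commutes (algebraMap K K3 x)
  have hfinal : PosDensity {v : HeightOneSpectrum (𝓞 K) | ∀ i, ¬ HasRoot v (F i)} :=
    posDensity_of_rootless (σ.restrictScalars ℚ) h1 F hF0 (fun j => by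
      have h2 := hsp j
      rw [Polynomial.map_map] at h2
      exact h2) (fun i r hr => hσ i r hr)
  refine posDensity_mono ?_ hfinal
  refine (hFA A hA).subset ?_
  rintro v ⟨hv1, hv2⟩
  exact ⟨hv2, hv1⟩

/-- restriction of an automorphism of an algebraically closed field -/
theorem restrict_aut {F L W : Type*} [Field F] [Field L] [Field W] [Algebra F L] [Algebra F W]
    [IsAlgClosed W] [Normal F L] (s : W ≃ₐ[F] W) :
    ∃ (ψ : L →ₐ[F] W) (σ : L ≃ₐ[F] L), ∀ x, ψ (σ x) = s (ψ x) := by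
  have : Algebra.IsAlgebraic F L := Normal.toIsAlgebraic
  let ψ : L →ₐ[F] W := IsAlgClosed.lift
  let _ : Algebra L W := ψ.toRingHom.toAlgebra
  have hst : IsScalarTower F L W := IsScalarTower.of_algebraMap_eq fun x => (ψ.commutes x).symm
  exact ⟨ψ, s.restrictNormal L, fun x => s.restrictNormal_commutes L x⟩

/-- extension of an automorphism to an algebraic closure -/
theorem lift_aut {F L W : Type*} [Field F] [Field L] [Field W] [Algebra F L] [Algebra F W]
    [IsAlgClosed W] [Algebra.IsAlgebraic F W] [Algebra.IsAlgebraic F L] (σ : L ≃ₐ[F] L) :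
    ∃ (ψ : L →ₐ[F] W) (s : W ≃ₐ[F] W), ∀ x, ψ (σ x) = s (ψ x) := by
  let ψ : L →ₐ[F] W := IsAlgClosed.lift
  let _ : Algebra L W := ψ.toRingHom.toAlgebra
  have hst : IsScalarTower F L W := IsScalarTower.of_algebraMap_eq fun x => (ψ.commutes x).symm
  have hcl : IsAlgClosure F W := ⟨inferInstance, inferInstance⟩
  have hn : Normal F W := IsAlgClosure.normal F W
  exact ⟨ψ, σ.liftNormal W, fun x => (σ.liftNormal_commutes W x).symm⟩

/-- the roots in `W` are moved by an extension of an automorphism of a splitting field -/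
theorem moves_lift {K K3 L W : Type*} [Field K] [Field K3] [Field L] [Field W] [Algebra K K3] [Algebra K L]
    [Algebra K W] [Algebra K3 L] [Algebra K3 W] [IsScalarTower K K3 L] [IsScalarTower K K3 W] {F : K[X]}
    (hF : F ≠ 0) (hsp : (F.map (algebraMap K L)).Splits) (ψ : L →ₐ[K3] W) (σ : L ≃ₐ[K3] L)
    (s : W ≃ₐ[K3] W) (hs : ∀ x, ψ (σ x) = s (ψ x)) (hσ : ∀ r : L, aeval r F = 0 → σ r ≠ r) (z : W)
    (hz : aeval z F = 0) : s z ≠ z := by
  have hmap : (F.map (algebraMap K L)).map (ψ : L →+* W) = F.map (algebraMap K W) := by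
    rw [Polynomial.map_map]
    congr 1
    refine RingHom.ext fun x => ?_
    show ψ (algebraMap K L x) = _
    rw [IsScalarTower.algebraMap_apply K K3 L, ψ.commutes, ← IsScalarTower.algebraMap_apply]
  have h1 : ((F.map (algebraMap K L)).map (ψ : L →+* W)).IsRoot z := by
    rw [hmap, IsRoot.def, eval_map_algebraMap]
    exact hz
  obtain ⟨r, hr⟩ := hsp.mem_range_of_isRoot (Polynomial.map_ne_zero hF) h1
  have hr' : ψ r = z := hr
  subst hr'
  intro h
  rw [← hs] at h
  refine hσ r ?_ (ψ.injective h)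
  apply ψ.injective
  rw [map_zero, ← hz]
  exact (Polynomial.aeval_algHom_apply (ψ.restrictScalars K) r F).symm

theorem aeval_hom {K K3 L W : Type*} [Field K] [Field K3] [Field L] [Field W] [Algebra K K3] [Algebra K L]
    [Algebra K W] [Algebra K3 L] [Algebra K3 W] [IsScalarTower K K3 L] [IsScalarTower K K3 W] {F : K[X]}
    (ψ : L →ₐ[K3] W) (r : L) : aeval (ψ r) F = ψ (aeval r F) :=
  Polynomial.aeval_algHom_apply (ψ.restrictScalars K) r F

/-- a core over `K3`, in terms of one automorphism of an algebraic closure -/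
theorem coreAt_of_aut {K : Type u} [Field K] [NumberField K] (K3 : Type u) [Field K3] [NumberField K3]
    [Algebra K K3] {𝒜 : Set (Set (HeightOneSpectrum (𝓞 K)))} {J : Type} [Finite J] (F : J → K[X])
    (hF0 : ∀ j, F j ≠ 0) (hFA : ∀ A ∈ 𝒜, {v | v ∉ A ∧ ∀ j, ¬ HasRoot v (F j)}.Finite)
    (W : Type*) [Field W] [Algebra K3 W] [IsAlgClosed W] (s : W ≃ₐ[K3] W)
    (hmove : ∀ (L : Type u) [Field L] [NumberField L] [Algebra K3 L] [Algebra K L] [IsScalarTower K K3 L]
      (ψ : L →ₐ[K3] W) (j : J) (r : L), aeval r (F j) = 0 → s (ψ r) ≠ ψ r) : CoreAt K3 𝒜 := by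
  refine ⟨J, inferInstance, F, hF0, hFA, ?_⟩
  intro L _ _ _ _ _ _
  have hgal : IsGalois K3 L := IsGalois.tower_top_of_isGalois ℚ K3 L
  obtain ⟨ψ, σ, hσ⟩ := restrict_aut (F := K3) (L := L) s
  refine ⟨σ, fun j r hr h => hmove L ψ j r hr ?_⟩
  rw [← hσ, h]

/-- a core over `K3`, in terms of one large Galois number field and one automorphism -/
theorem coreAt_of_one {K : Type u} [Field K] [NumberField K] (K3 : Type u) [Field K3] [NumberField K3]
    [Algebra K K3] {𝒜 : Set (Set (HeightOneSpectrum (𝓞 K)))} {J : Type} [Finite J] (F : J → K[X])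
    (hF0 : ∀ j, F j ≠ 0) (hFA : ∀ A ∈ 𝒜, {v | v ∉ A ∧ ∀ j, ¬ HasRoot v (F j)}.Finite)
    (L0 : Type u) [Field L0] [NumberField L0] [Algebra K L0] [Algebra K3 L0] [IsScalarTower K K3 L0]
    (hsp : ∀ j, ((F j).map (algebraMap K L0)).Splits) (σ0 : L0 ≃ₐ[K3] L0)
    (hσ0 : ∀ j (r : L0), aeval r (F j) = 0 → σ0 r ≠ r) : CoreAt K3 𝒜 := by
  have ha : Algebra.IsAlgebraic K3 L0 := Algebra.IsAlgebraic.tower_top (K := ℚ) K3
  obtain ⟨ψ, s, hs⟩ := lift_aut (F := K3) (L := L0) (W := AlgebraicClosure K3) σ0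
  refine coreAt_of_aut K3 F hF0 hFA (AlgebraicClosure K3) s (fun L _ _ _ _ _ ψ' j r hr => ?_)
  exact moves_lift (hF0 j) (hsp j) ψ σ0 s hs (hσ0 j) (ψ' r) (by rw [aeval_hom, hr, map_zero])

/-- from a core to an automorphism of an algebraic closure -/
theorem CoreAt.aut {K : Type u} [Field K] [NumberField K] {K3 : Type u} [Field K3] [NumberField K3]
    [Algebra K K3] {𝒜 : Set (Set (HeightOneSpectrum (𝓞 K)))} (h : CoreAt K3 𝒜)
    (W : Type*) [Field W] [Algebra K W] [Algebra K3 W] [IsScalarTower K K3 W] [IsAlgClosed W]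
    [Algebra.IsAlgebraic K3 W] : ∃ (J : Type) (_ : Finite J) (F : J → K[X]), (∀ j, F j ≠ 0) ∧
      (∀ A ∈ 𝒜, {v | v ∉ A ∧ ∀ j, ¬ HasRoot v (F j)}.Finite) ∧
      ∃ s : W ≃ₐ[K3] W, ∀ j, ∀ z : W, aeval z (F j) = 0 → s z ≠ z := by
  obtain ⟨J, hJ, F, hF0, hFA, hL⟩ := h
  obtain ⟨L, _, _, _, hgal, hsp⟩ := exists_closure (fun j => (F j).map (algebraMap K K3))
    (fun j => Polynomial.map_ne_zero (hF0 j))
  let algKL : Algebra K L := ((algebraMap K3 L).comp (algebraMap K K3)).toAlgebra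
  have hst : IsScalarTower K K3 L := IsScalarTower.of_algebraMap_eq (fun x => rfl)
  obtain ⟨σ, hσ⟩ := hL L
  have ha : Algebra.IsAlgebraic K3 L := Algebra.IsAlgebraic.tower_top (K := ℚ) K3
  obtain ⟨ψ, s, hs⟩ := lift_aut (F := K3) (L := L) (W := W) σ
  refine ⟨J, hJ, F, hF0, hFA, s, fun j z hz => ?_⟩
  refine moves_lift (hF0 j) ?_ ψ σ s hs (hσ j) z hz
  have h1 := hsp j
  rw [Polynomial.map_map] at h1
  exact h1

/-- **Adding** a tuple with the extension property over `F` to a family with a core over `K3` -/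
theorem coreAt_addF {K : Type u} [Field K] [NumberField K] {F : Type u} [Field F] [NumberField F]
    [Algebra K F] {K3 : Type u} [Field K3] [NumberField K3]
    [Algebra K K3] [Algebra F K3] [IsScalarTower K F K3] {𝒜 : Set (Set (HeightOneSpectrum (𝓞 K)))}
    (hcore : CoreAt K3 𝒜) (W : Type u) [Field W] [Algebra K W] [Algebra F W] [IsScalarTower K F W]
    [IsAlgClosed W] [Algebra.IsAlgebraic F W] {ι : Type} [Finite ι]
    (f : ι → RP K) (hf : ∀ i, 2 ≤ (f i).d) (β : ι → OnePoint K) (h : ExtTF F W f β) :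
    CoreAt K3 {S | ∃ A ∈ 𝒜, ∃ α : ι → OnePoint K, (∀ i n, (f i).act^[n] (α i) ≠ β i) ∧
      S = A ∩ PAvoidSet f α β} := by
  classical
  have ha : Algebra.IsAlgebraic F K3 := Algebra.IsAlgebraic.tower_top (K := ℚ) F
  have hfd : FiniteDimensional F K3 := Module.Finite.of_restrictScalars_finite ℚ F K3
  let ψ3 : K3 →ₐ[F] W := IsAlgClosed.lift
  let _ : Algebra K3 W := ψ3.toRingHom.toAlgebra
  have hst3 : IsScalarTower F K3 W := IsScalarTower.of_algebraMap_eq fun x => (ψ3.commutes x).symm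
  have hst4 : IsScalarTower K K3 W := IsScalarTower.of_algebraMap_eq fun x => by
    rw [IsScalarTower.algebraMap_apply K F W, IsScalarTower.algebraMap_apply F K3 W,
      ← IsScalarTower.algebraMap_apply K F K3]
  have ha3 : Algebra.IsAlgebraic K3 W := Algebra.IsAlgebraic.tower_top (K := F) K3
  obtain ⟨J, hJ, P, hP0, hPA, s0, hs0⟩ := hcore.aut W
  -- the finite set on which the automorphism is prescribed
  let b := Module.finBasis F K3
  set T : Set W := (⋃ j, {z : W | aeval z (P j) = 0}) ∪ Set.range (fun i => algebraMap K3 W (b i)) with hT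
  have hTf : T.Finite := by
    refine Set.Finite.union (Set.finite_iUnion fun j => ?_) (Set.finite_range _)
    refine ((P j).rootSet W).toFinite.subset fun z hz => ?_
    rw [mem_rootSet]
    exact ⟨hP0 j, hz⟩
  obtain ⟨N, s, hs, hmove⟩ := h T hTf (s0.restrictScalars F)
  have hs' : ∀ t ∈ T, s t = s0 t := hs
  -- it fixes `K3`
  have hfix : ∀ x : K3, s (algebraMap K3 W x) = algebraMap K3 W x := by
    intro x
    have h1 : (s : W →ₐ[F] W).toLinearMap.comp ψ3.toLinearMap = ψ3.toLinearMap := by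
      refine b.ext fun i => ?_
      show s (algebraMap K3 W (b i)) = algebraMap K3 W (b i)
      rw [hs' _ (Or.inr ⟨i, rfl⟩), s0.commutes]
    exact LinearMap.congr_fun h1 x
  let s3 : W ≃ₐ[K3] W := AlgEquiv.ofRingEquiv (f := (s : W ≃+* W)) hfix
  -- the new polynomials
  choose G hG0 hGroot hGcol using fun i => rtarget (f i) (hf i) (β i) N
  have hinf : ∀ i, ¬ IsTgt (f i) (β i) K ((f i).act^[N] OnePoint.infty) := by
    intro i hi
    rw [← isTgt_map (K := K) (L := K) (M := W), ← RP.act_map_iterate, pmap_infty] at hi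
    exact hmove i OnePoint.infty hi rfl
  refine coreAt_of_aut K3 (J := J ⊕ ι) (Sum.elim P G) ?_ ?_ W s3 ?_
  · rintro (j | i)
    · exact hP0 j
    · exact hG0 i
  · rintro S ⟨A, hA, α, hα, rfl⟩
    have hfin : (⋃ i, {v : HeightOneSpectrum (𝓞 K) | (∃ n, SameRed v ((f i).act^[n] (α i)) (β i)) ∧
        ¬ HasRoot v (G i)}).Finite :=
      Set.finite_iUnion (fun i => hGcol i (hinf i) (α i) (hα i))
    refine ((hPA A hA).union hfin).subset ?_
    rintro v ⟨hv1, hv2⟩
    by_cases hvA : v ∈ A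
    · right
      have h3 : v ∉ PAvoidSet f α β := fun h4 => hv1 ⟨hvA, h4⟩
      simp only [PAvoidSet, Set.mem_ofPred_eq, not_forall, not_not] at h3
      obtain ⟨i, n, hin⟩ := h3
      rw [Set.mem_iUnion]
      exact ⟨i, ⟨n, hin⟩, hv2 (Sum.inr i)⟩
    · left
      exact ⟨hvA, fun j => hv2 (Sum.inl j)⟩
  · rintro L _ _ _ _ _ ψ (j | i) r hr
    · have hz : aeval (ψ r) (P j) = 0 := by
        rw [aeval_hom, show aeval r (P j) = 0 from hr, map_zero]
      show s (ψ r) ≠ ψ r
      rw [hs' _ (Or.inl (Set.mem_iUnion.2 ⟨j, hz⟩))]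
      exact hs0 j _ hz
    · intro hzf
      let _ : Algebra L W := ψ.toRingHom.toAlgebra
      have hst : IsScalarTower K L W := by
        refine IsScalarTower.of_algebraMap_eq fun x => ?_
        show _ = ψ (algebraMap K L x)
        rw [IsScalarTower.algebraMap_apply K K3 L, ψ.commutes, ← IsScalarTower.algebraMap_apply]
      apply hmove i (pmap (algebraMap L W) (r : OnePoint L))
      · have h1 : (f i).map (algebraMap K W) = ((f i).map (algebraMap K L)).map (algebraMap L W) := by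
          rw [RP.map_map, ← IsScalarTower.algebraMap_eq]
        rw [h1, RP.act_map_iterate, isTgt_map]
        exact hGroot i L r hr
      · rw [pmap_coe, pmap_coe]
        exact congrArg _ hzf

/-- **Adding** a tuple with the extension property to a family with a core -/
theorem coreAt_add {K : Type u} [Field K] [NumberField K] {K3 : Type u} [Field K3] [NumberField K3]
    [Algebra K K3] {𝒜 : Set (Set (HeightOneSpectrum (𝓞 K)))} (hcore : CoreAt K3 𝒜)
    (W : Type u) [Field W] [Algebra K W] [IsAlgClosed W] [Algebra.IsAlgebraic K W] {ι : Type} [Finite ι]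
    (f : ι → RP K) (hf : ∀ i, 2 ≤ (f i).d) (β : ι → OnePoint K) (h : ExtT W f β) :
    CoreAt K3 {S | ∃ A ∈ 𝒜, ∃ α : ι → OnePoint K, (∀ i n, (f i).act^[n] (α i) ≠ β i) ∧
      S = A ∩ PAvoidSet f α β} :=
  coreAt_addF (F := K) hcore W f hf β h

theorem Core.add {K : Type u} [Field K] [NumberField K] {𝒜 : Set (Set (HeightOneSpectrum (𝓞 K)))}
    (hcore : Core 𝒜) (W : Type u) [Field W] [Algebra K W] [IsAlgClosed W] [Algebra.IsAlgebraic K W]
    {ι : Type} [Finite ι] (f : ι → RP K) (hf : ∀ i, 2 ≤ (f i).d) (β : ι → OnePoint K) (h : ExtT W f β) :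
    Core {S | ∃ A ∈ 𝒜, ∃ α : ι → OnePoint K, (∀ i n, (f i).act^[n] (α i) ≠ β i) ∧
      S = A ∩ PAvoidSet f α β} :=
  fun K3 _ _ _ => coreAt_add (hcore K3) W f hf β h

/-- positive density for tuples with the extension property -/
theorem posDensity_of_extT {K : Type u} [Field K] [NumberField K] (W : Type u) [Field W] [Algebra K W]
    [IsAlgClosed W] [Algebra.IsAlgebraic K W] {ι : Type} [Finite ι] (f : ι → RP K)
    (hf : ∀ i, 2 ≤ (f i).d) (α β : ι → OnePoint K) (hαβ : ∀ i n, (f i).act^[n] (α i) ≠ β i)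
    (h : ExtT W f β) : PosDensity (PAvoidSet f α β) := by
  have h1 := coreAt_add (coreAt_univ (K := K) K) W f hf β h
  have h2 := h1.posDensity (A := Set.univ ∩ PAvoidSet f α β) ⟨Set.univ, rfl, α, hαβ, rfl⟩
  rwa [Set.univ_inter] at h2

theorem posDensity_of_extTF {K : Type u} [Field K] [NumberField K] (F : Type u) [Field F] [NumberField F]
    [Algebra K F] (W : Type u) [Field W] [Algebra K W] [Algebra F W] [IsScalarTower K F W]
    [IsAlgClosed W] [Algebra.IsAlgebraic F W] {ι : Type} [Finite ι] (f : ι → RP K)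
    (hf : ∀ i, 2 ≤ (f i).d) (α β : ι → OnePoint K) (hαβ : ∀ i n, (f i).act^[n] (α i) ≠ β i)
    (h : ExtTF F W f β) : PosDensity (PAvoidSet f α β) := by
  have h1 := coreAt_addF (coreAt_univ (K := K) F) W f hf β h
  have h2 := h1.posDensity (A := Set.univ ∩ PAvoidSet f α β) ⟨Set.univ, rfl, α, hαβ, rfl⟩
  rwa [Set.univ_inter] at h2

/-- the blocks of Theorem I have a core -/
theorem core_of_provides {K : Type u} [Field K] [NumberField K] {ι J : Type} [Finite ι] [Finite J]
    (f : ι → RatFunc K) (hf : ∀ i, 2 ≤ rdeg (f i)) (β : ι → OnePoint K) (blk : ι → J) (E : J → ℕ)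
    (hE : ∀ i j, i ≠ j → Nat.Coprime (E i) (E j)) (hexp : ∀ i, RHasExp (E (blk i)) (f i))
    (hprov : ∀ j, Provides (fun i : {i // blk i = j} => RP.ofRat (f i.1)) (fun i => β i.1)) :
    Core {S : Set (HeightOneSpectrum (𝓞 K)) | ∃ α : ι → OnePoint K,
      (∀ i n, (ract (RingHom.id K) (f i))^[n] (α i) ≠ β i) ∧ S = RAvoidSet f α β} := by
  intro K3 _ _ _
  obtain ⟨F, L, _, _, _, _, σ, hst, hGal, hF0, hsplit, hσK3, hσK, hσ, hcoll⟩ :=
    rthm_core f hf β blk E hE hexp hprov K3
  let σ3 : L ≃ₐ[K3] L := AlgEquiv.ofRingEquiv (f := (σ : L ≃+* L)) hσK3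
  refine coreAt_of_one K3 F hF0 ?_ L hsplit σ3 (fun i r hr => hσ i r hr)
  rintro S ⟨α, hα, rfl⟩
  have hfin : (⋃ i, {v : HeightOneSpectrum (𝓞 K) |
      (∃ n, SameRed v ((RP.ofRat (f i)).act^[n] (α i)) (β i)) ∧ ¬ HasRoot v (F i)}).Finite :=
    Set.finite_iUnion (fun i => hcoll i (α i) (fun n => by
      have := hα i n
      rwa [ract_id] at this))
  refine hfin.subset ?_
  rintro v ⟨hv1, hv2⟩
  simp only [RAvoidSet, ract_id, Set.mem_ofPred_eq, not_forall, not_not] at hv1
  obtain ⟨i, n, hv3⟩ := hv1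
  rw [Set.mem_iUnion]
  exact ⟨i, ⟨n, hv3⟩, hv2 i⟩

theorem OrbitBlock.comp {K : Type u} [Field K] [NumberField K] {I I' : Type} {f : I → RatFunc K}
    {β : I → OnePoint K} (h : OrbitBlock f β) (e : I' → I) : OrbitBlock (fun i => f (e i)) (fun i => β (e i)) := by
  obtain ⟨K1, _, _, _, g, c, hg, h⟩ := h
  exact ⟨K1, inferInstance, inferInstance, inferInstance, g, c, hg, fun i => h (e i)⟩

theorem PrimeBlock.comp {K : Type u} [Field K] [NumberField K] {I I' : Type} {f : I → RatFunc K}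
    {β : I → OnePoint K} (h : PrimeBlock f β) (e : I' → I) : PrimeBlock (fun i => f (e i)) (fun i => β (e i)) := by
  obtain ⟨K1, _, _, _, w, h⟩ := h
  exact ⟨K1, inferInstance, inferInstance, inferInstance, w, fun i => h (e i)⟩

/-- the block conditions of Theorem I -/
def BlockCond {K : Type u} [Field K] [NumberField K] {ι J : Type} (f : ι → RatFunc K)
    (β : ι → OnePoint K) (blk : ι → J) (E : J → ℕ) : Prop :=
  (∀ j j', j ≠ j' → Nat.Coprime (E j) (E j')) ∧ (∀ i, RHasExp (E (blk i)) (f i)) ∧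
    ∀ j, OrbitBlock (fun i : {i // blk i = j} => f i.1) (fun i : {i // blk i = j} => β i.1) ∨
      PrimeBlock (fun i : {i // blk i = j} => f i.1) (fun i : {i // blk i = j} => β i.1) ∨
      ∀ i, blk i = j → TorusMap (algebraMap K (AlgebraicClosure K)) (f i)

theorem core_of_blocks {K : Type u} [Field K] [NumberField K] {ι J : Type} [Finite ι] [Finite J]
    (f : ι → RatFunc K) (hf : ∀ i, 2 ≤ rdeg (f i)) (β : ι → OnePoint K) (blk : ι → J) (E : J → ℕ)
    (h : BlockCond f β blk E) :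
    Core {S : Set (HeightOneSpectrum (𝓞 K)) | ∃ α : ι → OnePoint K,
      (∀ i n, (ract (RingHom.id K) (f i))^[n] (α i) ≠ β i) ∧ S = RAvoidSet f α β} := by
  refine core_of_provides f hf β blk E h.1 h.2.1 (fun j => ?_)
  rcases h.2.2 j with h | h | h
  · exact provides_of_orbit (fun i : {i // blk i = j} => f i.1) (fun i => hf i.1)
      (fun i : {i // blk i = j} => β i.1) h
  · exact provides_of_place (fun i : {i // blk i = j} => RP.ofRat (f i.1)) (fun i => hf i.1)
      (fun i : {i // blk i = j} => β i.1) h.placeBlock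
  · exact provides_torus (fun i : {i // blk i = j} => RP.ofRat (f i.1)) (fun i => by
      have := hf i.1
      show 1 ≤ rdeg (f i.1)
      omega) (fun i => (h i.1 i.2).isTorus) (fun i : {i // blk i = j} => β i.1)

/-- blocks of Theorem I together with a tuple with the extension property over `F` -/
theorem posDensity_blocks_extTF {K : Type u} [Field K] [NumberField K] (F : Type u) [Field F] [NumberField F]
    [Algebra K F] (W : Type u) [Field W] [Algebra K W] [Algebra F W] [IsScalarTower K F W]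
    [IsAlgClosed W] [Algebra.IsAlgebraic F W] {ι J : Type} [Finite ι] [Finite J]
    (f : ι → RatFunc K) (hf : ∀ i, 2 ≤ rdeg (f i)) (α β : ι → OnePoint K)
    (hαβ : ∀ i n, (ract (RingHom.id K) (f i))^[n] (α i) ≠ β i) (blk : ι → J) (E : J → ℕ)
    (hb : BlockCond f β blk E) {κ : Type} [Finite κ] (g : κ → RatFunc K) (hg : ∀ i, 2 ≤ rdeg (g i))
    (α' β' : κ → OnePoint K) (hαβ' : ∀ i n, (ract (RingHom.id K) (g i))^[n] (α' i) ≠ β' i)
    (h : ExtTF F W (fun i => RP.ofRat (g i)) β') :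
    PosDensity (RAvoidSet f α β ∩ RAvoidSet g α' β') := by
  have h1 := coreAt_addF (F := F) (core_iff.1 (core_of_blocks f hf β blk E hb) F) W
    (fun i => RP.ofRat (g i)) hg β' h
  refine h1.posDensity ⟨_, ⟨α, hαβ, rfl⟩, α', fun i n => ?_, ?_⟩
  · have := hαβ' i n
    rwa [ract_id] at this
  · congr 1

/-- blocks of Theorem I together with a tuple with the extension property -/
theorem posDensity_blocks_extT {K : Type u} [Field K] [NumberField K] (W : Type u) [Field W] [Algebra K W]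
    [IsAlgClosed W] [Algebra.IsAlgebraic K W] {ι J : Type} [Finite ι] [Finite J]
    (f : ι → RatFunc K) (hf : ∀ i, 2 ≤ rdeg (f i)) (α β : ι → OnePoint K)
    (hαβ : ∀ i n, (ract (RingHom.id K) (f i))^[n] (α i) ≠ β i) (blk : ι → J) (E : J → ℕ)
    (hb : BlockCond f β blk E) {κ : Type} [Finite κ] (g : κ → RatFunc K) (hg : ∀ i, 2 ≤ rdeg (g i))
    (α' β' : κ → OnePoint K) (hαβ' : ∀ i n, (ract (RingHom.id K) (g i))^[n] (α' i) ≠ β' i)
    (h : ExtT W (fun i => RP.ofRat (g i)) β') :
    PosDensity (RAvoidSet f α β ∩ RAvoidSet g α' β') := by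
  have h1 := (core_of_blocks f hf β blk E hb).add W (fun i => RP.ofRat (g i)) hg β' h
  refine (core_iff.1 h1 K).posDensity ⟨_, ⟨α, hαβ, rfl⟩, α', fun i n => ?_, ?_⟩
  · have := hαβ' i n
    rwa [ract_id] at this
  · congr 1

end Pool.Agent.ORB
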