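import Pool.Agent.ORB.HeightF
import Pool.Agent.ORB.VCore

/-!
ORB, Theorem AA (arbitrary rational functions, 100 percent of the targets): definitions.
-/

namespace Pool.Agent.ORB.AA

open NumberField Polynomial

/-- `g` acts trivially on `𝓞 L / P` -/
def Inert {L : Type*} [Field L] [NumberField L] (P : Ideal (𝓞 L)) (g : L ≃ₐ[ℚ] L) : Prop :=
  ∀ y : 𝓞 L, g • y - y ∈ P

/-- `b` times the homogenized polynomial at `(a, b)` -/
noncomputable def eh {A : Type*} [CommRing A] (Δ : A[X]) (a b : A) : A :=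
  b * ∑ i ∈ Finset.range (Δ.natDegree + 1), Δ.coeff i * a ^ i * b ^ (Δ.natDegree - i)

end Pool.Agent.ORB.AA
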