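import Pool.Agent.ORB.Defs

/-! ORB, M4a: valuations, Frobenius elements and residue fields. -/

namespace Pool.Agent.ORB

open NumberField IsDedekindDomain Polynomial

section one
variable {L : Type*} [Field L] [NumberField L] (P : HeightOneSpectrum (𝓞 L))

/-- the congruence of a Frobenius element holds for all elements which are integral at `P` -/
theorem frob_val (τ : L ≃+* L) {q : ℕ}
    (h : ∀ y : 𝓞 L, P.valuation L (τ (algebraMap (𝓞 L) L y) - (algebraMap (𝓞 L) L y) ^ q) < 1)
    {x : L} (hx : P.valuation L x ≤ 1) : P.valuation L (τ x - x ^ q) < 1 := by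
  obtain ⟨a, ⟨s, hs⟩, e⟩ := P.exists_primeCompl_mul_eq_of_integer x hx
  have hs1 : P.valuation L (algebraMap (𝓞 L) L s) = 1 :=
    (HeightOneSpectrum.valuation_eq_one_iff_notMem P).2 hs
  have hts : P.valuation L (τ (algebraMap (𝓞 L) L s)) = 1 := by
    have h1 : P.valuation L ((algebraMap (𝓞 L) L s) ^ q) = 1 := by rw [map_pow, hs1, one_pow]
    have h2 : τ (algebraMap (𝓞 L) L s) = (τ (algebraMap (𝓞 L) L s) - (algebraMap (𝓞 L) L s) ^ q)
      + (algebraMap (𝓞 L) L s) ^ q := by ring
    rw [h2, Valuation.map_add_eq_of_lt_right _ (by rw [h1]; exact h s), h1]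
  have ha1 : P.valuation L (algebraMap (𝓞 L) L a) ≤ 1 := P.valuation_le_one a
  have key : (τ x - x ^ q) * (τ (algebraMap (𝓞 L) L s) * (algebraMap (𝓞 L) L s) ^ q) =
      (τ (algebraMap (𝓞 L) L a) - (algebraMap (𝓞 L) L a) ^ q) * (algebraMap (𝓞 L) L s) ^ q -
      (algebraMap (𝓞 L) L a) ^ q * (τ (algebraMap (𝓞 L) L s) - (algebraMap (𝓞 L) L s) ^ q) := by
    have e1 : τ x * τ (algebraMap (𝓞 L) L s) = τ (algebraMap (𝓞 L) L a) := by rw [← map_mul, e]
    have e2 : x ^ q * (algebraMap (𝓞 L) L s) ^ q = (algebraMap (𝓞 L) L a) ^ q := by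
      rw [← mul_pow, e]
    calc _ = (τ x * τ (algebraMap (𝓞 L) L s)) * (algebraMap (𝓞 L) L s) ^ q -
        (x ^ q * (algebraMap (𝓞 L) L s) ^ q) * τ (algebraMap (𝓞 L) L s) := by ring
      _ = _ := by rw [e1, e2]; ring
  have hval : P.valuation L (τ x - x ^ q) = P.valuation L ((τ x - x ^ q) *
      (τ (algebraMap (𝓞 L) L s) * (algebraMap (𝓞 L) L s) ^ q)) := by
    rw [map_mul, map_mul, hts, map_pow, hs1, one_pow, mul_one, mul_one]
  rw [hval, key]
  apply Valuation.map_sub_lt
  · rw [map_mul, map_pow, hs1, one_pow, mul_one]; exact h a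
  · rw [map_mul, map_pow]
    exact mul_lt_one_of_nonneg_of_lt_one_right (pow_le_one₀ zero_le ha1) zero_le (h s)

theorem int_pow {x : L} (hx : P.valuation L x ≤ 1) (j : ℕ) : P.valuation L (x ^ j) ≤ 1 := by
  rw [map_pow]; exact pow_le_one₀ zero_le hx

theorem aeval_lt {R : Type*} [CommRing R] [Algebra R L] (D : R[X])
    (hD : ∀ j, P.valuation L (algebraMap R L (D.coeff j)) < 1) {x : L} (hx : P.valuation L x ≤ 1) :
    P.valuation L (aeval x D) < 1 := by
  rw [aeval_eq_sum_range]
  refine Valuation.map_sum_lt _ one_ne_zero fun j _ => ?_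
  rw [Algebra.smul_def, map_mul]
  exact mul_lt_one_of_nonneg_of_lt_one_left zero_le (hD j) (int_pow P hx j)

theorem aeval_le {R : Type*} [CommRing R] [Algebra R L] (D : R[X])
    (hD : ∀ j, P.valuation L (algebraMap R L (D.coeff j)) ≤ 1) {x : L} (hx : P.valuation L x ≤ 1) :
    P.valuation L (aeval x D) ≤ 1 := by
  rw [aeval_eq_sum_range]
  refine Valuation.map_sum_le _ fun j _ => ?_
  rw [Algebra.smul_def, map_mul]
  exact mul_le_one' (hD j) (int_pow P hx j)

/-- congruent arguments have congruent values -/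
theorem aeval_congr {R : Type*} [CommRing R] [Algebra R L] (D : R[X])
    (hD : ∀ j, P.valuation L (algebraMap R L (D.coeff j)) ≤ 1) {x y : L} (hx : P.valuation L x ≤ 1)
    (hy : P.valuation L y ≤ 1) (hxy : P.valuation L (x - y) < 1) :
    P.valuation L (aeval x D - aeval y D) < 1 := by
  rw [aeval_eq_sum_range, aeval_eq_sum_range, ← Finset.sum_sub_distrib]
  refine Valuation.map_sum_lt _ one_ne_zero fun j _ => ?_
  rw [← smul_sub, Algebra.smul_def, map_mul]
  have h : P.valuation L (x ^ j - y ^ j) < 1 := by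
    rw [← Commute.mul_geom_sum₂ (Commute.all x y), map_mul]
    refine mul_lt_one_of_nonneg_of_lt_one_left zero_le hxy (Valuation.map_sum_le _ fun i _ => ?_)
    rw [map_mul]
    exact mul_le_one' (int_pow P hx _) (int_pow P hy _)
  exact mul_lt_one_of_nonneg_of_lt_one_right (hD j) zero_le h

/-- a root of a polynomial with integral coefficients and a unit as leading coefficient is integral -/
theorem root_int {R : Type*} [CommRing R] [Algebra R L] (D : R[X])
    (hD : ∀ j, P.valuation L (algebraMap R L (D.coeff j)) ≤ 1)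
    (hl : P.valuation L (algebraMap R L D.leadingCoeff) = 1) {x : L} (hx : aeval x D = 0) :
    P.valuation L x ≤ 1 := by
  by_contra hc
  push Not at hc
  rw [aeval_eq_sum_range, Finset.sum_range_succ] at hx
  have h0 : P.valuation L (D.coeff D.natDegree • x ^ D.natDegree) = P.valuation L x ^ D.natDegree := by
    rw [Algebra.smul_def, map_mul, map_pow, coeff_natDegree, hl, one_mul]
  have hlt : P.valuation L (∑ j ∈ Finset.range D.natDegree, D.coeff j • x ^ j) <
      P.valuation L (D.coeff D.natDegree • x ^ D.natDegree) := by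
    rw [h0]
    have hx0 : P.valuation L x ≠ 0 := (lt_trans zero_lt_one hc).ne'
    refine Valuation.map_sum_lt _ (pow_ne_zero _ hx0) fun j hj => ?_
    rw [Algebra.smul_def, map_mul, map_pow]
    calc _ ≤ 1 * P.valuation L x ^ j := mul_le_mul' (hD j) le_rfl
      _ = P.valuation L x ^ j := one_mul _
      _ < _ := pow_lt_pow_right₀ hc (Finset.mem_range.1 hj)
  have := Valuation.map_add_eq_of_lt_right _ hlt
  rw [hx, map_zero] at this
  rw [← this] at hlt
  exact absurd hlt (not_lt.2 zero_le)

end one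

theorem exists_red {R k : Type*} [CommRing R] [Field k] [Finite k] (φ : R →+* k)
    (hφ : Function.Surjective φ) : ∃ (s : Finset k) (rep : k → R),
      ∀ j, φ ((X ^ Nat.card k - X - ∏ c ∈ s, (X - C (rep c)) : R[X]).coeff j) = 0 := by
  classical
  have := Fintype.ofFinite k
  choose rep hrep using hφ
  refine ⟨Finset.univ, rep, fun j => ?_⟩
  have h1 : (X ^ Fintype.card k - X : k[X]) = ∏ c : k, (X - C c) := by
    have hr : (X ^ Fintype.card k - X : k[X]).roots = Finset.univ.val :=
      FiniteField.roots_X_pow_card_sub_X k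
    have hd : (X ^ Fintype.card k - X : k[X]).natDegree = Fintype.card k :=
      FiniteField.X_pow_card_sub_X_natDegree_eq k Fintype.one_lt_card
    have hm : (X ^ Fintype.card k - X : k[X]).Monic := by
      rw [Monic, leadingCoeff, hd, coeff_sub, coeff_X_pow, if_pos rfl, coeff_X,
        if_neg (Fintype.one_lt_card (α := k)).ne, sub_zero]
    have := Polynomial.prod_multiset_X_sub_C_of_monic_of_roots_card_eq hm (by rw [hr, hd]; rfl)
    rw [← this, hr]
    rfl
  rw [← coeff_map]
  simp only [Polynomial.map_sub, Polynomial.map_pow, map_X, Polynomial.map_prod, map_C, hrep]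
  rw [Nat.card_eq_fintype_card, h1, sub_self, coeff_zero]

section two
variable {K L : Type*} [Field K] [NumberField K] [Field L] [NumberField L] [Algebra K L]
  (v : HeightOneSpectrum (𝓞 K)) (P : HeightOneSpectrum (𝓞 L)) [P.asIdeal.LiesOver v.asIdeal]

omit [NumberField K] in
theorem ram_ne_zero : v.asIdeal.ramificationIdx' P.asIdeal ≠ 0 :=
  Ideal.IsDedekindDomain.ramificationIdx'_ne_zero_of_liesOver P.asIdeal v.ne_bot

theorem val_lt_iff (x : K) : P.valuation L (algebraMap K L x) < 1 ↔ v.valuation K x < 1 := by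
  rw [← HeightOneSpectrum.valuation_liesOver L v P, pow_lt_one_iff (ram_ne_zero v P)]

theorem val_le_iff (x : K) : P.valuation L (algebraMap K L x) ≤ 1 ↔ v.valuation K x ≤ 1 := by
  rw [← HeightOneSpectrum.valuation_liesOver L v P, pow_le_one_iff (ram_ne_zero v P)]

theorem val_eq_iff (x : K) : P.valuation L (algebraMap K L x) = 1 ↔ v.valuation K x = 1 := by
  have h1 := val_le_iff v P x
  have h2 := val_lt_iff v P x
  exact ⟨fun h => le_antisymm (h1.1 h.le) (not_lt.1 fun h' => (h2.2 h').ne h),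
    fun h => le_antisymm (h1.2 h.le) (not_lt.1 fun h' => (h2.1 h').ne h)⟩

/-- an element whose class is fixed by Frobenius is congruent to an element of the smaller ring -/
theorem residue {x : L} (hx : P.valuation L x ≤ 1)
    (hf : P.valuation L (x ^ Nat.card (𝓞 K ⧸ v.asIdeal) - x) < 1) :
    ∃ y : 𝓞 K, P.valuation L (x - algebraMap (𝓞 K) L y) < 1 := by
  have hmax : v.asIdeal.IsMaximal := v.isMaximal
  have hfin : Finite (𝓞 K ⧸ v.asIdeal) := inferInstance
  let _ : Field (𝓞 K ⧸ v.asIdeal) := Ideal.Quotient.field _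
  obtain ⟨s, rep, hrep⟩ := exists_red (k := 𝓞 K ⧸ v.asIdeal) (Ideal.Quotient.mk v.asIdeal)
    Ideal.Quotient.mk_surjective
  set q := Nat.card (𝓞 K ⧸ v.asIdeal)
  set D : (𝓞 K)[X] := X ^ q - X - ∏ c ∈ s, (X - C (rep c)) with hDdef
  have hcoeff : ∀ j, P.valuation L (algebraMap (𝓞 K) L (D.coeff j)) < 1 := by
    intro j
    have h1 : D.coeff j ∈ v.asIdeal := Ideal.Quotient.eq_zero_iff_mem.1 (hrep j)
    rw [IsScalarTower.algebraMap_apply (𝓞 K) K L, val_lt_iff v P]
    exact (HeightOneSpectrum.valuation_lt_one_iff_mem v _).2 h1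
  have hD := aeval_lt P D hcoeff hx
  have hev : aeval x D = x ^ q - x - ∏ c ∈ s, (x - algebraMap (𝓞 K) L (rep c)) := by
    simp only [hDdef, map_sub, map_pow, aeval_X, map_prod, aeval_C]
  have hprod : P.valuation L (∏ c ∈ s, (x - algebraMap (𝓞 K) L (rep c))) < 1 := by
    have e : (∏ c ∈ s, (x - algebraMap (𝓞 K) L (rep c))) = (x ^ q - x) - aeval x D := by
      rw [hev]; ring
    rw [e]
    exact Valuation.map_sub_lt _ hf hD
  by_contra hc
  push Not at hc
  have hone : ∀ c, P.valuation L (x - algebraMap (𝓞 K) L (rep c)) = 1 := by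
    intro c
    refine le_antisymm ?_ (hc (rep c))
    refine (Valuation.map_sub _ _ _).trans (max_le hx ?_)
    rw [IsScalarTower.algebraMap_apply (𝓞 K) K L, val_le_iff v P]
    exact v.valuation_le_one _
  rw [map_prod, Finset.prod_eq_one fun c _ => hone c] at hprod
  exact lt_irrefl _ hprod

end two

end Pool.Agent.ORB
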