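import Pool.Agent.ORB.AADefs
import Pool.Agent.ORB.Val

/-!
ORB, Theorem AA, row D: outside a discriminant the inertia groups fix the points of `R ^ (-1) (a / b)`.
-/

namespace Pool.Agent.ORB.AA

open NumberField IsDedekindDomain Polynomial

universe u

/-- coprime over the fraction field: a Bezout identity over the ring -/
theorem exists_bezout {A F : Type*} [CommRing A] [IsDomain A] [Field F] [Algebra A F]
    [IsFractionRing A F] (P Q : A[X])
    (h : IsCoprime (P.map (algebraMap A F)) (Q.map (algebraMap A F))) :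
    ∃ (U V : A[X]) (c : A), c ≠ 0 ∧ U * P + V * Q = C c := by
  obtain ⟨U, V, hUV⟩ := h
  obtain ⟨b1, hb1, e1⟩ := IsLocalization.integerNormalization_spec (nonZeroDivisors A) U
  obtain ⟨b2, hb2, e2⟩ := IsLocalization.integerNormalization_spec (nonZeroDivisors A) V
  set U1 := IsLocalization.integerNormalization (nonZeroDivisors A) U
  set V1 := IsLocalization.integerNormalization (nonZeroDivisors A) V
  refine ⟨C b2 * U1, C b1 * V1, b1 * b2, mul_ne_zero (nonZeroDivisors.ne_zero hb1)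
    (nonZeroDivisors.ne_zero hb2), ?_⟩
  apply map_injective (algebraMap A F) (IsFractionRing.injective A F)
  rw [Polynomial.map_add, Polynomial.map_mul, Polynomial.map_mul, Polynomial.map_mul, Polynomial.map_mul,
    map_C, map_C, map_C, e1, e2, ← algebraMap_smul F b1 U, ← algebraMap_smul F b2 V, smul_eq_C_mul,
    smul_eq_C_mul, map_mul, C_mul]
  linear_combination (C (algebraMap A F b1) * C (algebraMap A F b2)) * hUV

/-- a pair of coprime polynomials over the fraction field, scaled to integral coefficients -/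
theorem exists_scale {A F : Type*} [CommRing A] [IsDomain A] [Field F] [Algebra A F]
    [IsFractionRing A F] (P Q : F[X]) :
    ∃ (P0 Q0 : A[X]) (c : A), c ≠ 0 ∧ P0.map (algebraMap A F) = C (algebraMap A F c) * P ∧
      Q0.map (algebraMap A F) = C (algebraMap A F c) * Q := by
  obtain ⟨b1, hb1, e1⟩ := IsLocalization.integerNormalization_spec (nonZeroDivisors A) P
  obtain ⟨b2, hb2, e2⟩ := IsLocalization.integerNormalization_spec (nonZeroDivisors A) Q
  set P1 := IsLocalization.integerNormalization (nonZeroDivisors A) P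
  set Q1 := IsLocalization.integerNormalization (nonZeroDivisors A) Q
  refine ⟨C b2 * P1, C b1 * Q1, b1 * b2, mul_ne_zero (nonZeroDivisors.ne_zero hb1)
    (nonZeroDivisors.ne_zero hb2), ?_, ?_⟩
  · rw [Polynomial.map_mul, map_C, e1, ← algebraMap_smul F b1 P, smul_eq_C_mul, map_mul, C_mul]
    ring
  · rw [Polynomial.map_mul, map_C, e2, ← algebraMap_smul F b2 Q, smul_eq_C_mul, map_mul, C_mul]
    ring

/-- a polynomial with constant coefficients is coprime to `P - T Q`, if `P` and `Q` are coprime -/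
theorem coprime_generic {A : Type*} [CommRing A] [IsDomain A] (P Q U V W : A[X]) (c : A) (hc : c ≠ 0)
    (hUV : U * P + V * Q = C c) (hW : W ≠ 0) :
    IsCoprime ((W.map (C : A →+* A[X])).map (algebraMap A[X] (FractionRing A[X])))
      ((P.map (C : A →+* A[X]) - C (X : A[X]) * Q.map (C : A →+* A[X])).map
        (algebraMap A[X] (FractionRing A[X]))) := by
  let F := FractionRing A[X]
  let Ω := AlgebraicClosure F
  let _ : Algebra A Ω := ((algebraMap F Ω).comp ((algebraMap A[X] F).comp (C : A →+* A[X]))).toAlgebra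
  have hinj : Function.Injective (algebraMap A Ω) :=
    (algebraMap F Ω).injective.comp ((IsFractionRing.injective A[X] F).comp C_injective)
  have hev : ∀ (S : A[X]) (a : Ω), aeval a ((S.map (C : A →+* A[X])).map (algebraMap A[X] F)) =
      aeval a S := by
    intro S a
    rw [aeval_def, aeval_def, Polynomial.map_map, eval₂_map]
    rfl
  refine (Polynomial.isCoprime_iff_aeval_ne_zero_of_isAlgClosed F Ω _ _).2 ?_
  intro a
  by_contra hcon
  push Not at hcon
  obtain ⟨h1, h2⟩ := hcon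
  rw [hev] at h1
  set T : Ω := algebraMap F Ω (algebraMap A[X] F X) with hT
  have h3 : aeval a P = T * aeval a Q := by
    rw [Polynomial.map_sub, Polynomial.map_mul, map_sub, map_mul, hev, hev, map_C, aeval_C, sub_eq_zero] at h2
    exact h2
  have ha : IsAlgebraic A a := ⟨W, hW, h1⟩
  have hQ : aeval a Q ≠ 0 := by
    intro h4
    rw [h4, mul_zero] at h3
    have h5 := congrArg (aeval a) hUV
    rw [map_add, map_mul, map_mul, h3, h4, mul_zero, mul_zero, add_zero, aeval_C] at h5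
    exact hc (hinj (by rw [map_zero]; exact h5.symm))
  have hPa : IsAlgebraic A (aeval a Q * T) := by
    rw [mul_comm, ← h3]
    exact Algebra.isAlgebraic_adjoin_singleton_iff.mpr ha _ (aeval_mem_adjoin_singleton A a)
  have hQa : IsAlgebraic A (aeval a Q) :=
    Algebra.isAlgebraic_adjoin_singleton_iff.mpr ha _ (aeval_mem_adjoin_singleton A a)
  have hTa : IsAlgebraic A T := IsAlgebraic.of_mul (mem_nonZeroDivisors_of_ne_zero hQ) hQa hPa
  obtain ⟨S, hS, hS0⟩ := hTa
  apply hS
  have h6 : aeval T S = algebraMap F Ω (algebraMap A[X] F S) := by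
    rw [aeval_def, show (algebraMap A Ω) = ((algebraMap F Ω).comp ((algebraMap A[X] F).comp
      (C : A →+* A[X]))) from rfl, hT, ← RingHom.comp_assoc, ← RingHom.comp_apply (algebraMap F Ω),
      ← hom_eval₂, eval₂_C_X, RingHom.comp_apply]
  rw [h6] at hS0
  exact (IsFractionRing.injective A[X] F) ((algebraMap F Ω).injective (by rw [hS0, map_zero, map_zero]))


/-- the roots of `P - t Q` are distinct in the residue field, if the leading coefficient and the discriminant
are units -/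
theorem local_sep {A L Γ : Type*} [CommRing A] [Field L] [LinearOrderedCommGroupWithZero Γ]
    (v : Valuation L Γ) (ψ : A →+* L) (hψ : ∀ x, v (ψ x) ≤ 1) (P Q : A[X]) (U V : A[X][X]) (D : A[X])
    (hbez : U * (P * derivative Q - derivative P * Q).map (C : A →+* A[X]) +
      V * (P.map (C : A →+* A[X]) - C (X : A[X]) * Q.map (C : A →+* A[X])) = C D)
    (t : L) (ht : v t ≤ 1) (hD : v (D.eval₂ ψ t) = 1) (r r' : L) (hr1 : v r ≤ 1) (hr1' : v r' ≤ 1)
    (hr : P.eval₂ ψ r - t * Q.eval₂ ψ r = 0) (hr' : P.eval₂ ψ r' - t * Q.eval₂ ψ r' = 0)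
    (hrr : v (r' - r) < 1) : r' = r := by
  let φ : A →+* v.integer := ψ.codRestrict v.integer hψ
  let ι : v.integer →+* L := v.integer.subtype
  have hιφ : ι.comp φ = ψ := RingHom.ext fun _ => rfl
  have hιinj : Function.Injective ι := Subtype.val_injective
  let t0 : v.integer := ⟨t, ht⟩
  let r0 : v.integer := ⟨r, hr1⟩
  let r1 : v.integer := ⟨r', hr1'⟩
  have hev : ∀ (S : A[X]) (x : v.integer), ι (eval₂ φ x S) = eval₂ ψ (ι x) S := by
    intro S x
    rw [hom_eval₂, hιφ]
  have hroot : ∀ x : v.integer, eval₂ ψ (ι x) P - t * eval₂ ψ (ι x) Q = 0 →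
      eval₂ φ x P = t0 * eval₂ φ x Q := by
    intro x hx
    apply hιinj
    rw [map_mul, hev, hev]
    exact sub_eq_zero.1 hx
  have e0 : eval₂ φ r0 P = t0 * eval₂ φ r0 Q := hroot r0 hr
  have e1 : eval₂ φ r1 P = t0 * eval₂ φ r1 Q := hroot r1 hr'
  by_contra hne
  set G : (v.integer)[X] := P.map φ - C t0 * Q.map φ with hG
  have hG0 : G.eval r0 = 0 := by
    rw [hG, eval_sub, eval_mul, eval_C, eval_map, eval_map, e0, sub_self]
  have hG1 : G.eval r1 = 0 := by
    rw [hG, eval_sub, eval_mul, eval_C, eval_map, eval_map, e1, sub_self]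
  obtain ⟨k, hk⟩ := G.binomExpansion r0 (r1 - r0)
  rw [add_sub_cancel, hG0, hG1, zero_add] at hk
  have hne' : r1 - r0 ≠ 0 := by
    intro h
    apply hne
    have h1 := congrArg ι (sub_eq_zero.1 h)
    exact h1
  have hder : (derivative G).eval r0 = -k * (r1 - r0) := by
    apply mul_right_cancel₀ hne'
    linear_combination -hk
  have hder2 : (derivative G).eval r0 = eval₂ φ r0 (derivative P) - t0 * eval₂ φ r0 (derivative Q) := by
    rw [hG, derivative_sub, derivative_C_mul, derivative_map, derivative_map, eval_sub, eval_mul, eval_C,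
      eval_map, eval_map]
  let Φ : A[X][X] →+* v.integer := eval₂RingHom (eval₂RingHom φ t0) r0
  have hΦC : ∀ S : A[X], Φ (S.map (C : A →+* A[X])) = eval₂ φ r0 S := by
    intro S
    show eval₂ (eval₂RingHom φ t0) r0 (S.map (C : A →+* A[X])) = _
    rw [eval₂_map]
    congr 1
    ext x
    show ((eval₂ φ t0 (C x) : v.integer) : L) = _
    rw [eval₂_C]
  have hΦT : Φ (C (X : A[X])) = t0 := by
    show eval₂ (eval₂RingHom φ t0) r0 (C (X : A[X])) = _
    rw [eval₂_C]
    show eval₂ φ t0 X = _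
    rw [eval₂_X]
  have hΦD : Φ (C D) = eval₂ φ t0 D := by
    show eval₂ (eval₂RingHom φ t0) r0 (C D) = _
    rw [eval₂_C]
    rfl
  have hΦW : Φ ((P * derivative Q - derivative P * Q).map (C : A →+* A[X])) =
      eval₂ φ r0 P * eval₂ φ r0 (derivative Q) - eval₂ φ r0 (derivative P) * eval₂ φ r0 Q := by
    rw [hΦC, eval₂_sub, eval₂_mul, eval₂_mul]
  clear_value Φ
  have key := congrArg Φ hbez
  rw [map_add, map_mul, map_mul Φ V, map_sub, map_mul Φ (C (X : A[X])), hΦW, hΦC, hΦC, hΦT, hΦD, e0, sub_self,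
    mul_zero, add_zero] at key
  have key2 : eval₂ φ t0 D = Φ U * eval₂ φ r0 Q * k * (r1 - r0) := by
    rw [← key]
    linear_combination (Φ U * eval₂ φ r0 Q) * hder2 - (Φ U * eval₂ φ r0 Q) * hder
  have h5 := congrArg (fun x => v (ι x)) key2
  simp only [map_mul] at h5
  rw [hev, show ι t0 = t from rfl, hD] at h5
  have h6 : ∀ x : v.integer, v (ι x) ≤ 1 := fun x => x.2
  have h7 : v (ι (r1 - r0)) < 1 := by
    rw [map_sub]
    exact hrr
  have h8 : v (ι (Φ U)) * v (ι (eval₂ φ r0 Q)) * v (ι k) * v (ι (r1 - r0)) < 1 :=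
    mul_lt_one_of_nonneg_of_lt_one_right (mul_le_one' (mul_le_one' (h6 _) (h6 _)) (h6 _)) zero_le h7
  rw [← h5] at h8
  exact lt_irrefl _ h8

/-- elements of the inertia group act trivially on the residues of all elements integral at `P` -/
theorem inert_val {L : Type*} [Field L] [NumberField L] (P : HeightOneSpectrum (𝓞 L)) (g : L ≃ₐ[ℚ] L)
    (hg : Inert P.asIdeal g) {x : L} (hx : P.valuation L x ≤ 1) : P.valuation L (g x - x) < 1 := by
  have h := frob_val P (τ := (g : L ≃+* L)) (q := 1) (fun y => by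
    rw [pow_one]
    have h1 := hg y
    rw [← HeightOneSpectrum.valuation_lt_one_iff_mem (K := L)] at h1
    exact h1) hx
  rw [pow_one] at h
  exact h


/-- a homogenized polynomial which is not in a prime ideal -/
theorem eh_unit {A L Γ : Type*} [CommRing A] [Field L] [LinearOrderedCommGroupWithZero Γ]
    (v : Valuation L Γ) (ψ : A →+* L) (hψ : ∀ x, v (ψ x) ≤ 1) (Δ : A[X]) (a b : A)
    (h : v (ψ (eh Δ a b)) = 1) :
    v (ψ b) = 1 ∧ v (ψ a / ψ b) ≤ 1 ∧ v (Δ.eval₂ ψ (ψ a / ψ b)) = 1 := by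
  unfold eh at h
  rw [map_mul, map_mul] at h
  have hb : v (ψ b) = 1 := by
    refine le_antisymm (hψ b) ?_
    rw [← h]
    exact mul_le_of_le_one_right zero_le (hψ _)
  rw [hb, one_mul] at h
  have hb0 : ψ b ≠ 0 := by
    intro h0
    rw [h0, map_zero] at hb
    exact zero_ne_one hb
  have h2 : v (ψ a / ψ b) ≤ 1 := by
    rw [map_div₀, hb, div_one]
    exact hψ a
  refine ⟨hb, h2, ?_⟩
  have h3 : ψ (∑ i ∈ Finset.range (Δ.natDegree + 1), Δ.coeff i * a ^ i * b ^ (Δ.natDegree - i)) =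
      ψ b ^ Δ.natDegree * Δ.eval₂ ψ (ψ a / ψ b) := by
    rw [map_sum, eval₂_eq_sum_range, Finset.mul_sum]
    refine Finset.sum_congr rfl (fun i hi => ?_)
    have hi' : i ≤ Δ.natDegree := Nat.lt_succ_iff.1 (Finset.mem_range.1 hi)
    obtain ⟨k, hk⟩ := Nat.exists_eq_add_of_le hi'
    rw [map_mul, map_mul, map_pow, map_pow, hk, Nat.add_sub_cancel_left, div_pow, pow_add]
    field_simp
  rw [h3, map_mul, map_pow, hb, one_pow, one_mul] at h
  exact h

/-- `p` does not divide the norm of `e`: then `e` is not in a prime ideal above `p` -/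
theorem notMem_of_norm {K : Type*} [Field K] [NumberField K] {p : ℕ} (hp : p.Prime) {e : 𝓞 K}
    (h : ¬ p ∣ Ideal.absNorm (Ideal.span {e})) (I : Ideal (𝓞 K)) (hI : I.IsPrime) (hpI : (p : 𝓞 K) ∈ I) :
    e ∉ I := by
  intro he
  have h1 : ((Ideal.absNorm (Ideal.span {e}) : ℕ) : 𝓞 K) ∈ I :=
    (Ideal.span_singleton_le_iff_mem I).2 he (Ideal.absNorm_mem _)
  have h2 : IsCoprime (p : ℤ) (Ideal.absNorm (Ideal.span {e}) : ℤ) :=
    Nat.isCoprime_iff_coprime.2 ((Nat.Prime.coprime_iff_not_dvd hp).2 h)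
  obtain ⟨x, y, hxy⟩ := h2
  apply hI.ne_top
  rw [Ideal.eq_top_iff_one]
  have h3 := congrArg (fun n : ℤ => (n : 𝓞 K)) hxy
  push_cast at h3
  rw [← h3]
  exact I.add_mem (I.mul_mem_left _ hpI) (I.mul_mem_left _ h1)

/-- the primes dividing the norms of all coefficients -/
theorem exists_coeff {K : Type u} [Field K] [NumberField K] (Δ : (𝓞 K)[X]) (hΔ : Δ ≠ 0) :
    ∃ B : Set ℕ, B.Finite ∧ ∀ p : ℕ, p.Prime → p ∉ B → ∀ w : HeightOneSpectrum (𝓞 K),
      (p : 𝓞 K) ∈ w.asIdeal → ∃ i, Δ.coeff i ∉ w.asIdeal := by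
  have hN : Ideal.absNorm (Ideal.span {Δ.leadingCoeff}) ≠ 0 := by
    rw [ne_eq, Ideal.absNorm_eq_zero_iff, Ideal.span_singleton_eq_bot, leadingCoeff_eq_zero]
    exact hΔ
  refine ⟨{p | p ∣ Ideal.absNorm (Ideal.span {Δ.leadingCoeff})}, ?_, ?_⟩
  · refine (Set.finite_Iic (Ideal.absNorm (Ideal.span {Δ.leadingCoeff}))).subset (fun p hp => ?_)
    exact Nat.le_of_dvd (Nat.pos_of_ne_zero hN) hp
  · intro p hp hpB w hw
    exact ⟨Δ.natDegree, notMem_of_norm hp hpB w.asIdeal w.isPrime hw⟩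

/-- outside a discriminant the inertia groups fix the points of `R ^ (-1) (a / b)` -/
theorem exists_sep {K : Type u} [Field K] [NumberField K] (R : RP K) (hR : 1 ≤ R.d) :
    ∃ (Δ : (𝓞 K)[X]) (B : Set ℕ), B.Finite ∧
      (∀ p : ℕ, p.Prime → p ∉ B → ∀ w : HeightOneSpectrum (𝓞 K), (p : 𝓞 K) ∈ w.asIdeal →
        ∃ i, Δ.coeff i ∉ w.asIdeal) ∧
      ∀ p : ℕ, p.Prime → p ∉ B → ∀ a b : 𝓞 K, ¬ p ∣ Ideal.absNorm (Ideal.span {eh Δ a b}) →
        ∀ (L : Type u) [Field L] [NumberField L] [Algebra K L] (P : Ideal (𝓞 L)),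
          P.IsPrime → (p : 𝓞 L) ∈ P → ∀ g : L ≃ₐ[ℚ] L, Inert P g →
          (∀ x : K, g (algebraMap K L x) = algebraMap K L x) →
          ∀ r : L, aeval r (R.q ((algebraMap (𝓞 K) K a / algebraMap (𝓞 K) K b : K) : OnePoint K)) = 0 →
            g r = r := by
  -- the scaled polynomials
  obtain ⟨P0, Q0, c, hc, hP0, hQ0⟩ := exists_scale (A := 𝓞 K) R.A R.B
  have hinj : Function.Injective (algebraMap (𝓞 K) K) := IsFractionRing.injective (𝓞 K) K
  have hcK : algebraMap (𝓞 K) K c ≠ 0 := fun h => hc (hinj (by rw [h, map_zero]))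
  have hcop : IsCoprime (P0.map (algebraMap (𝓞 K) K)) (Q0.map (algebraMap (𝓞 K) K)) := by
    have hu : IsUnit (C (algebraMap (𝓞 K) K c)) := isUnit_C.2 (isUnit_iff_ne_zero.2 hcK)
    rw [hP0, hQ0]
    exact (isCoprime_mul_unit_left hu _ _).2 R.hcop
  obtain ⟨U0, V0, c1, hc1, hUV0⟩ := exists_bezout P0 Q0 hcop
  have hdegP : P0.natDegree ≤ R.d := by
    have h1 := natDegree_map_eq_of_injective hinj P0
    rw [← h1, hP0]
    exact le_trans (natDegree_C_mul_le _ _) R.hA
  have hdegQ : Q0.natDegree ≤ R.d := by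
    have h1 := natDegree_map_eq_of_injective hinj Q0
    rw [← h1, hQ0]
    exact le_trans (natDegree_C_mul_le _ _) R.hB
  have htop : P0.coeff R.d ≠ 0 ∨ Q0.coeff R.d ≠ 0 := by
    have h1 : algebraMap (𝓞 K) K (P0.coeff R.d) = algebraMap (𝓞 K) K c * R.A.coeff R.d := by
      rw [← coeff_map, hP0, coeff_C_mul]
    have h2 : algebraMap (𝓞 K) K (Q0.coeff R.d) = algebraMap (𝓞 K) K c * R.B.coeff R.d := by
      rw [← coeff_map, hQ0, coeff_C_mul]
    rcases R.htop with h | h
    · left
      intro h0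
      rw [h0, map_zero] at h1
      exact mul_ne_zero hcK h h1.symm
    · right
      intro h0
      rw [h0, map_zero] at h2
      exact mul_ne_zero hcK h h2.symm
  -- the Wronskian
  have hW : P0 * derivative Q0 - derivative P0 * Q0 ≠ 0 := by
    intro h0
    have h1 : wronskian (P0.map (algebraMap (𝓞 K) K)) (Q0.map (algebraMap (𝓞 K) K)) = 0 := by
      have h2 := congrArg (Polynomial.map (algebraMap (𝓞 K) K)) h0
      rw [Polynomial.map_zero, Polynomial.map_sub, Polynomial.map_mul, Polynomial.map_mul, ← derivative_map,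
        ← derivative_map] at h2
      exact h2
    rw [hcop.wronskian_eq_zero_iff] at h1
    have h3 : ∀ S : (𝓞 K)[X], derivative (S.map (algebraMap (𝓞 K) K)) = 0 → S.coeff R.d = 0 := by
      intro S hS
      have h4 := Polynomial.derivative_eq_zero.1 hS
      rw [natDegree_map_eq_of_injective hinj] at h4
      exact coeff_eq_zero_of_natDegree_lt (by omega)
    rcases htop with h | h
    · exact h (h3 _ h1.1)
    · exact h (h3 _ h1.2)
  obtain ⟨U, V, D, hD, hbez⟩ := exists_bezout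
    ((P0 * derivative Q0 - derivative P0 * Q0).map (C : 𝓞 K →+* (𝓞 K)[X]))
    (P0.map (C : 𝓞 K →+* (𝓞 K)[X]) - C (X : (𝓞 K)[X]) * Q0.map (C : 𝓞 K →+* (𝓞 K)[X]))
    (coprime_generic P0 Q0 U0 V0 _ c1 hc1 hUV0 hW)
  -- the leading coefficient
  set lc : (𝓞 K)[X] := C (P0.coeff R.d) - X * C (Q0.coeff R.d) with hlc
  have hlc0 : lc ≠ 0 := by
    intro h0
    have h1 : lc.coeff 0 = P0.coeff R.d := by
      rw [hlc, coeff_sub, coeff_C_zero, coeff_X_mul_zero, sub_zero]
    have h2 : lc.coeff 1 = - Q0.coeff R.d := by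
      rw [hlc, coeff_sub, coeff_X_mul, coeff_C_zero, coeff_C_succ, zero_sub]
    rw [h0, coeff_zero] at h1 h2
    rcases htop with h | h
    · exact h h1.symm
    · exact h (neg_eq_zero.1 h2.symm)
  obtain ⟨B, hB, hBc⟩ := exists_coeff (lc * D) (mul_ne_zero hlc0 hD)
  refine ⟨lc * D, B, hB, hBc, ?_⟩
  intro p hp _ a b hab L _ _ _ P hP hpP g hg hgK r hr
  have hP0' : P ≠ ⊥ := by
    intro h0
    rw [h0, Ideal.mem_bot] at hpP
    exact hp.ne_zero (by exact_mod_cast hpP)
  let v : HeightOneSpectrum (𝓞 L) := ⟨P, hP, hP0'⟩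
  let ψ : 𝓞 K →+* L := (algebraMap K L).comp (algebraMap (𝓞 K) K)
  have hψ' : ∀ x, ψ x = algebraMap (𝓞 L) L (algebraMap (𝓞 K) (𝓞 L) x) := by
    intro x
    show algebraMap K L (algebraMap (𝓞 K) K x) = _
    rw [← IsScalarTower.algebraMap_apply (𝓞 K) K L, ← IsScalarTower.algebraMap_apply (𝓞 K) (𝓞 L) L]
  have hψ : ∀ x, v.valuation L (ψ x) ≤ 1 := by
    intro x
    rw [hψ']
    exact v.valuation_le_one _
  have hunit : v.valuation L (ψ (eh (lc * D) a b)) = 1 := by
    rw [hψ', HeightOneSpectrum.valuation_eq_one_iff_notMem]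
    have h1 := notMem_of_norm hp hab (P.comap (algebraMap (𝓞 K) (𝓞 L))) (hP.comap _)
      (by rw [Ideal.mem_comap, map_natCast]; exact hpP)
    exact h1
  obtain ⟨hvb, hvt, hvΔ⟩ := eh_unit (v.valuation L) ψ hψ (lc * D) a b hunit
  set t : L := ψ a / ψ b with ht
  have hev1 : ∀ S : (𝓞 K)[X], v.valuation L (S.eval₂ ψ t) ≤ 1 := by
    intro S
    rw [eval₂_eq_sum_range]
    refine Valuation.map_sum_le _ (fun j _ => ?_)
    rw [map_mul, map_pow]
    exact mul_le_one' (hψ _) (pow_le_one₀ zero_le hvt)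
  rw [eval₂_mul, map_mul] at hvΔ
  have hD1 : v.valuation L (D.eval₂ ψ t) = 1 := by
    refine le_antisymm (hev1 D) ?_
    rw [← hvΔ]
    exact mul_le_of_le_one_left zero_le (hev1 lc)
  have hlc1 : v.valuation L (ψ (P0.coeff R.d) - t * ψ (Q0.coeff R.d)) = 1 := by
    have h1 : lc.eval₂ ψ t = ψ (P0.coeff R.d) - t * ψ (Q0.coeff R.d) := by
      rw [hlc, eval₂_sub, eval₂_mul, eval₂_C, eval₂_C, eval₂_X]
    rw [← h1]
    refine le_antisymm (hev1 lc) ?_
    rw [← hvΔ]
    exact mul_le_of_le_one_right zero_le (hev1 D)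
  -- integrality of the roots
  have hint : ∀ x : L, P0.eval₂ ψ x - t * Q0.eval₂ ψ x = 0 → v.valuation L x ≤ 1 := by
    intro x hx
    set G : L[X] := P0.map ψ - C t * Q0.map ψ with hG
    have hGd : G.coeff R.d = ψ (P0.coeff R.d) - t * ψ (Q0.coeff R.d) := by
      rw [hG, coeff_sub, coeff_C_mul, coeff_map, coeff_map]
    have hGdeg : G.natDegree ≤ R.d := by
      refine le_trans (natDegree_sub_le _ _) (max_le (le_trans natDegree_map_le hdegP) ?_)
      exact le_trans (natDegree_C_mul_le _ _) (le_trans natDegree_map_le hdegQ)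
    have hGnat : G.natDegree = R.d := by
      refine natDegree_eq_of_le_of_coeff_ne_zero hGdeg ?_
      rw [hGd]
      intro h0
      rw [h0, map_zero] at hlc1
      exact zero_ne_one hlc1
    refine root_int v G (fun j => ?_) ?_ ?_
    · show v.valuation L (G.coeff j) ≤ 1
      rw [hG, coeff_sub, coeff_C_mul, coeff_map, coeff_map]
      refine (Valuation.map_sub _ _ _).trans (max_le (hψ _) ?_)
      rw [map_mul]
      exact mul_le_one' hvt (hψ _)
    · show v.valuation L G.leadingCoeff = 1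
      rw [leadingCoeff, hGnat, hGd, hlc1]
    · rw [coe_aeval_eq_eval, hG, eval_sub, eval_mul, eval_C, eval_map, eval_map, hx]
  -- the root
  have hbK : algebraMap (𝓞 K) K b ≠ 0 := by
    intro h0
    have h1 : ψ b = 0 := by
      show algebraMap K L (algebraMap (𝓞 K) K b) = 0
      rw [h0, map_zero]
    rw [h1, map_zero] at hvb
    exact zero_ne_one hvb
  have hrt : P0.eval₂ ψ r - t * Q0.eval₂ ψ r = 0 := by
    have e1 : P0.eval₂ ψ r = algebraMap K L (algebraMap (𝓞 K) K c) * aeval r R.A := by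
      rw [← eval₂_map, hP0, eval₂_mul, eval₂_C, aeval_def]
    have e2 : Q0.eval₂ ψ r = algebraMap K L (algebraMap (𝓞 K) K c) * aeval r R.B := by
      rw [← eval₂_map, hQ0, eval₂_mul, eval₂_C, aeval_def]
    have e3 : t = algebraMap K L (algebraMap (𝓞 K) K a / algebraMap (𝓞 K) K b) := by
      rw [map_div₀]
      rfl
    rw [RP.q_coe, map_sub, map_mul, aeval_C, ← e3] at hr
    rw [e1, e2]
    linear_combination (algebraMap K L (algebraMap (𝓞 K) K c)) * hr
  have hgψ : (g : L →+* L).comp ψ = ψ := by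
    ext x
    exact hgK (algebraMap (𝓞 K) K x)
  have hgt : g t = t := by
    rw [ht, map_div₀]
    show g (algebraMap K L (algebraMap (𝓞 K) K a)) / g (algebraMap K L (algebraMap (𝓞 K) K b)) = _
    rw [hgK, hgK]
    rfl
  have hrt' : P0.eval₂ ψ (g r) - t * Q0.eval₂ ψ (g r) = 0 := by
    have e1 : ∀ S : (𝓞 K)[X], g (S.eval₂ ψ r) = S.eval₂ ψ (g r) := by
      intro S
      have h1 := hom_eval₂ S ψ (g : L →+* L) r
      rw [hgψ] at h1
      exact h1
    have h2 := congrArg g hrt
    rw [map_sub, map_mul, e1, e1, hgt, map_zero] at h2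
    exact h2
  exact local_sep (v.valuation L) ψ hψ P0 Q0 U V D hbez t hvt hD1 r (g r) (hint r hrt) (hint _ hrt') hrt hrt'
    (inert_val v g hg (hint r hrt))

end Pool.Agent.ORB.AA
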