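import Pool.Agent.ORB.AADefs
import Mathlib.NumberTheory.RamificationInertia.Galois
import Mathlib.NumberTheory.NumberField.Discriminant.Different

/-!
ORB, Theorem AA, row H: the discriminant of a Galois number field unramified outside a finite set.
-/

set_option autoImplicit false

namespace Pool.Agent.ORB.AA

open NumberField
open scoped Pointwise nonZeroDivisors

variable {F : Type*} [Field F] [NumberField F]

/-- the elements of the different -/
theorem mem_different (b : 𝓞 F) : b ∈ differentIdeal ℤ (𝓞 F) ↔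
    ∀ x : F, (∀ y : 𝓞 F, ∃ m : ℤ, Algebra.trace ℚ F (x * y) = m) → ∃ z : 𝓞 F, (z : F) = b * x := by
  have h := coeSubmodule_differentIdeal ℤ ℚ (B := 𝓞 F) (L := F)
  have h1 : b ∈ differentIdeal ℤ (𝓞 F) ↔ (b : F) ∈ IsLocalization.coeSubmodule F (differentIdeal ℤ (𝓞 F)) := by
    rw [IsLocalization.mem_coeSubmodule]
    constructor
    · intro hb
      exact ⟨b, hb, rfl⟩
    · rintro ⟨y, hy, hyb⟩
      have : y = b := RingOfIntegers.ext hyb
      rwa [← this]
  rw [h1, h, Submodule.mem_div_iff_forall_mul_mem]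
  constructor
  · intro h2 x hx
    have h3 : x ∈ Submodule.traceDual ℤ ℚ (1 : Submodule (𝓞 F) F) := by
      rw [Submodule.mem_traceDual]
      intro a ha
      rw [Submodule.mem_one] at ha
      obtain ⟨y, rfl⟩ := ha
      obtain ⟨m, hm⟩ := hx y
      rw [Algebra.traceForm_apply]
      exact ⟨m, by rw [hm]; rfl⟩
    have h4 := h2 x h3
    rw [Submodule.mem_one] at h4
    exact h4
  · intro h2 x hx
    rw [Submodule.mem_traceDual] at hx
    rw [Submodule.mem_one]
    refine h2 x fun y => ?_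
    have h3 := hx (y : F) (Submodule.mem_one.2 ⟨y, rfl⟩)
    rw [Algebra.traceForm_apply] at h3
    obtain ⟨m, hm⟩ := h3
    exact ⟨m, hm.symm⟩

theorem smul_different (g : F ≃ₐ[ℚ] F) : g • differentIdeal ℤ (𝓞 F) = differentIdeal ℤ (𝓞 F) := by
  have key : ∀ g : F ≃ₐ[ℚ] F, g • differentIdeal ℤ (𝓞 F) ≤ differentIdeal ℤ (𝓞 F) := by
    intro g b hb
    rw [Ideal.mem_pointwise_smul_iff_inv_smul_mem] at hb
    rw [mem_different] at hb ⊢
    intro x hx
    obtain ⟨z, hz⟩ := hb (g⁻¹ x) (fun y => by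
      obtain ⟨m, hm⟩ := hx (g • y)
      refine ⟨m, ?_⟩
      rw [← hm, ← Algebra.trace_eq_of_algEquiv g]
      congr 1
      rw [map_mul]
      congr 1
      exact AlgEquiv.apply_symm_apply g x)
    refine ⟨g • z, ?_⟩
    have h1 : ((g • z : 𝓞 F) : F) = g z := rfl
    have h2 : ((g⁻¹ • b : 𝓞 F) : F) = g⁻¹ b := rfl
    rw [h1, hz, h2, map_mul]
    congr 1
    · exact AlgEquiv.apply_symm_apply g _
    · exact AlgEquiv.apply_symm_apply g _
  refine le_antisymm (key g) ?_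
  have := (Ideal.pointwise_smul_le_pointwise_smul_iff (a := g)).2 (key g⁻¹)
  rwa [smul_inv_smul] at this

theorem smul_natCast (g : F ≃ₐ[ℚ] F) (n : ℕ) : g • (Ideal.span {(n : 𝓞 F)}) = Ideal.span {(n : 𝓞 F)} := by
  have key : ∀ g : F ≃ₐ[ℚ] F, g • (Ideal.span {(n : 𝓞 F)}) ≤ Ideal.span {(n : 𝓞 F)} := by
    intro g b hb
    rw [Ideal.mem_pointwise_smul_iff_inv_smul_mem, Ideal.mem_span_singleton] at hb
    rw [Ideal.mem_span_singleton]
    obtain ⟨c, hc⟩ := hb
    refine ⟨g • c, ?_⟩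
    have := congrArg (fun z => g • z) hc
    simp only [smul_inv_smul, smul_mul'] at this
    rw [this]
    congr 1
    apply RingOfIntegers.ext
    show g ((n : 𝓞 F) : F) = _
    simp
  refine le_antisymm (key g) ?_
  have := (Ideal.pointwise_smul_le_pointwise_smul_iff (a := g)).2 (key g⁻¹)
  rwa [smul_inv_smul] at this

theorem emult_smul (g : F ≃ₐ[ℚ] F) (P J : Ideal (𝓞 F)) (hJ : g • J = J) :
    emultiplicity (g • P) J = emultiplicity P J := by
  have key : ∀ (g : F ≃ₐ[ℚ] F) (P : Ideal (𝓞 F)), g • J = J → emultiplicity P J ≤ emultiplicity (g • P) J := by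
    intro g P hJ
    rw [emultiplicity_le_emultiplicity_iff]
    intro k hk
    rw [Ideal.dvd_iff_le] at hk ⊢
    rw [← smul_pow', ← hJ]
    exact Ideal.pointwise_smul_le_pointwise_smul_iff.2 hk
  refine le_antisymm ?_ (key g P hJ)
  have h1 := key g⁻¹ (g • P) (by rw [← hJ, inv_smul_smul, hJ])
  rwa [inv_smul_smul] at h1

/-- `p ^ k` does not divide the different if `p ^ k` does not divide the degree -/
theorem not_dvd_different (m : ℕ) (hm0 : m ≠ 0) (hm : ¬ m ∣ Module.finrank ℚ F) :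
    ¬ Ideal.span {(m : 𝓞 F)} ∣ differentIdeal ℤ (𝓞 F) := by
  intro h
  rw [Ideal.dvd_iff_le] at h
  have hne : Ideal.span {(m : 𝓞 F)} ≠ ⊥ := by
    rw [Ne, Ideal.span_singleton_eq_bot]
    exact_mod_cast hm0
  rw [differentialIdeal_le_iff (K := ℚ) (L := F) hne] at h
  have h1 : ((m : F)⁻¹ : F) ∈ (((Ideal.span {(m : 𝓞 F)} : Ideal (𝓞 F)) : FractionalIdeal (𝓞 F)⁰ F)⁻¹ :
      FractionalIdeal (𝓞 F)⁰ F) := by
    rw [FractionalIdeal.coeIdeal_span_singleton, FractionalIdeal.spanSingleton_inv,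
      FractionalIdeal.mem_spanSingleton]
    exact ⟨1, by simp⟩
  have h2 := h (Submodule.mem_map_of_mem (f := (Algebra.trace ℚ F).restrictScalars ℤ) (r := (m : F)⁻¹) h1)
  rw [Submodule.mem_one] at h2
  obtain ⟨c, hc⟩ := h2
  have h3 : (Algebra.trace ℚ F) ((m : F)⁻¹) = Module.finrank ℚ F * (m : ℚ)⁻¹ := by
    have : ((m : F)⁻¹) = algebraMap ℚ F ((m : ℚ)⁻¹) := by simp
    rw [this, Algebra.trace_algebraMap, nsmul_eq_mul]
  have h4 : (c : ℚ) = Module.finrank ℚ F * (m : ℚ)⁻¹ := by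
    rw [← h3]
    exact hc
  have hmQ : (m : ℚ) ≠ 0 := by exact_mod_cast hm0
  have h5 : (Module.finrank ℚ F : ℚ) = c * m := by
    rw [h4]
    field_simp
  have h6 : (Module.finrank ℚ F : ℤ) = c * m := by exact_mod_cast h5
  apply hm
  have : (m : ℤ) ∣ Module.finrank ℚ F := ⟨c, by rw [h6, mul_comm]⟩
  exact_mod_cast this

/-- a prime number in a prime ideal -/
theorem exists_prime_mem (P : Ideal (𝓞 F)) [hP : P.IsPrime] (h0 : P ≠ ⊥) : ∃ p : ℕ, p.Prime ∧ (p : 𝓞 F) ∈ P := by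
  have h1 : (Ideal.absNorm P) ≠ 0 := by
    rwa [Ne, Ideal.absNorm_eq_zero_iff]
  have h2 := Ideal.absNorm_mem P
  have key : ∀ l : List ℕ, ((l.prod : ℕ) : 𝓞 F) ∈ P → ∃ q ∈ l, (q : 𝓞 F) ∈ P := by
    intro l
    induction l with
    | nil =>
      intro h
      exact absurd ((Ideal.eq_top_iff_one P).2 (by simpa using h)) hP.ne_top
    | cons a t ih =>
      intro h
      rw [List.prod_cons, Nat.cast_mul] at h
      rcases hP.mem_or_mem h with h | h
      · exact ⟨a, List.mem_cons_self, h⟩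
      · obtain ⟨q, hq, hqP⟩ := ih h
        exact ⟨q, List.mem_cons_of_mem _ hq, hqP⟩
  rw [← Nat.prod_primeFactorsList h1] at h2
  obtain ⟨q, hq, hqP⟩ := key _ h2
  exact ⟨q, Nat.prime_of_mem_primeFactorsList hq, hqP⟩

theorem discr_le [IsGalois ℚ F] (S : Finset ℕ)
    (hS : ∀ p ∈ S, p.Prime) (h : ∀ p : ℕ, p.Prime → p ∉ S → ¬ (p : ℤ) ∣ discr F) :
    (discr F).natAbs ≤ (Module.finrank ℚ F * ∏ p ∈ S, p) ^ Module.finrank ℚ F := by
  classical
  have hG : IsGaloisGroup (F ≃ₐ[ℚ] F) ℤ (𝓞 F) := IsGaloisGroup.of_isFractionRing _ _ _ ℚ F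
  set n := Module.finrank ℚ F with hn
  have hn0 : n ≠ 0 := Module.finrank_pos.ne'
  set D := differentIdeal ℤ (𝓞 F) with hD
  have hD0 : D ≠ 0 := differentIdeal_ne_bot
  have hSp : ∏ p ∈ S, p ≠ 0 := Finset.prod_ne_zero_iff.2 fun p hp => (hS p hp).ne_zero
  have hdvd : D ∣ Ideal.span {((n * ∏ p ∈ S, p : ℕ) : 𝓞 F)} := by
    rw [UniqueFactorizationMonoid.dvd_iff_emultiplicity_le hD0]
    intro P hP
    have hPp : P.IsPrime := Ideal.isPrime_of_prime hP
    have hPb : P ≠ ⊥ := hP.ne_zero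
    obtain ⟨p, hp, hpP⟩ := exists_prime_mem P hPb
    by_cases hpS : p ∈ S
    · -- the exponent at `p`
      set k := n.factorization p + 1 with hk
      have h1 : ¬ p ^ k ∣ n := Nat.pow_succ_factorization_not_dvd hn0 hp
      have h2 : p ^ k ∣ n * ∏ p ∈ S, p := by
        rw [hk, pow_succ]
        exact mul_dvd_mul (Nat.ordProj_dvd n p) (Finset.dvd_prod_of_mem _ hpS)
      have h3 : Ideal.span {((p ^ k : ℕ) : 𝓞 F)} ∣ Ideal.span {((n * ∏ p ∈ S, p : ℕ) : 𝓞 F)} := by
        rw [Ideal.dvd_iff_le, Ideal.span_singleton_le_span_singleton]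
        exact_mod_cast (Nat.cast_dvd_cast (α := 𝓞 F) h2)
      refine le_trans ?_ (emultiplicity_le_emultiplicity_of_dvd_right h3)
      by_contra hlt
      rw [not_le] at hlt
      apply not_dvd_different (F := F) (p ^ k) (pow_ne_zero _ hp.ne_zero) h1
      have hI0 : Ideal.span {((p ^ k : ℕ) : 𝓞 F)} ≠ 0 := by
        rw [Ne, Ideal.zero_eq_bot, Ideal.span_singleton_eq_bot]
        exact_mod_cast pow_ne_zero _ hp.ne_zero
      rw [UniqueFactorizationMonoid.dvd_iff_emultiplicity_le hI0]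
      intro Q hQ
      have hQp : Q.IsPrime := Ideal.isPrime_of_prime hQ
      by_cases hQd : Q ∣ Ideal.span {((p ^ k : ℕ) : 𝓞 F)}
      · have hpQ : (p : 𝓞 F) ∈ Q := by
          rw [Ideal.dvd_iff_le, Ideal.span_singleton_le_iff_mem, Nat.cast_pow] at hQd
          exact hQp.mem_of_pow_mem k hQd
        have hli : ∀ R : Ideal (𝓞 F), R.IsPrime → (p : 𝓞 F) ∈ R → R.LiesOver (Ideal.span {(p : ℤ)}) := by
          intro R hR hpR
          rw [Ideal.liesOver_span_iff hR.ne_top (Nat.prime_iff_prime_int.1 hp)]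
          exact_mod_cast hpR
        have := hli P hPp hpP
        have := hli Q hQp hpQ
        obtain ⟨g, hg⟩ := Ideal.exists_smul_eq_of_isGaloisGroup (Ideal.span {(p : ℤ)}) P Q (F ≃ₐ[ℚ] F)
        rw [← hg, emult_smul g P _ (smul_natCast g _), emult_smul g P _ (smul_different g)]
        exact hlt.le
      · rw [emultiplicity_eq_zero.2 hQd]
        exact zero_le
    · have h1 := (not_dvd_discr_iff_forall_mem F (𝓞 F) (Nat.prime_iff_prime_int.1 hp)).1 (h p hp hpS) P hPp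
        (by exact_mod_cast hpP)
      rw [← not_dvd_differentIdeal_iff] at h1
      rw [emultiplicity_eq_zero.2 h1]
      exact zero_le
  have h1 := Ideal.absNorm_dvd_absNorm_of_le (Ideal.dvd_iff_le.1 hdvd)
  rw [Ideal.absNorm_span_natCast, absNorm_differentIdeal F, RingOfIntegers.rank] at h1
  exact Nat.le_of_dvd (Nat.pos_of_ne_zero (pow_ne_zero _ (mul_ne_zero hn0 hSp))) h1

end Pool.Agent.ORB.AA
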