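import Mathlib

/-! ORB: Galois number fields containing `K` over which given polynomials split. -/

namespace Pool.Agent.ORB

open NumberField Polynomial

universe u

theorem exists_splitting {K : Type u} [Field K] [NumberField K] {ι : Type*} [Finite ι] (F : ι → K[X])
    (hF : ∀ i, F i ≠ 0) :
    ∃ (E : Type u) (_ : Field E) (_ : NumberField E) (_ : Algebra K E),
      ∀ i, ((F i).map (algebraMap K E)).Splits := by
  classical
  cases nonempty_fintype ι
  let G : K[X] := ∏ i, F i
  have hG : G ≠ 0 := Finset.prod_ne_zero_iff.mpr (fun i _ => hF i)
  have : FiniteDimensional ℚ G.SplittingField := FiniteDimensional.trans ℚ K G.SplittingField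
  have : CharZero G.SplittingField := charZero_of_injective_algebraMap (algebraMap K G.SplittingField).injective
  have hN : NumberField G.SplittingField := ⟨⟩
  refine ⟨G.SplittingField, inferInstance, hN, inferInstance, fun i => ?_⟩
  have h1 : (G.map (algebraMap K G.SplittingField)).Splits := SplittingField.splits G
  refine h1.of_dvd ?_ ?_
  · exact Polynomial.map_ne_zero hG
  · exact Polynomial.map_dvd _ (Finset.dvd_prod_of_mem F (Finset.mem_univ i))

/-- a Galois number field containing `K` over which the `F i` split -/
theorem exists_closure {K : Type u} [Field K] [NumberField K] {ι : Type*} [Finite ι] (F : ι → K[X])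
    (hF : ∀ i, F i ≠ 0) :
    ∃ (L : Type u) (_ : Field L) (_ : NumberField L) (_ : Algebra K L), IsGalois ℚ L ∧
      ∀ i, ((F i).map (algebraMap K L)).Splits := by
  obtain ⟨E, _, _, _, hE⟩ := exists_splitting F hF
  let L := IntermediateField.normalClosure ℚ E (AlgebraicClosure E)
  have ha : Algebra.IsAlgebraic ℚ (AlgebraicClosure E) := Algebra.IsAlgebraic.trans ℚ E _
  have hc : IsAlgClosure ℚ (AlgebraicClosure E) := ⟨inferInstance, inferInstance⟩
  have hnn : Normal ℚ (AlgebraicClosure E) := IsAlgClosure.normal ℚ _
  have h0 : NumberField L := by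
    have : CharZero L := charZero_of_injective_algebraMap (algebraMap E L).injective
    exact ⟨⟩
  let alg : Algebra K L := ((algebraMap E L).comp (algebraMap K E)).toAlgebra
  refine ⟨L, inferInstance, h0, alg, ?_, ?_⟩
  · have hn : Normal ℚ L := normalClosure.normal ℚ E (AlgebraicClosure E)
    have hs : Algebra.IsSeparable ℚ L := inferInstance
    exact ⟨⟩
  · intro i
    have h1 := (hE i).map (algebraMap E L)
    rw [Polynomial.map_map] at h1
    exact h1

end Pool.Agent.ORB
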