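import Pool.Agent.ORB.Defs

/-! ORB, M7a: exponents of the Galois action on iterated preimages. -/

namespace Pool.Agent.ORB

open NumberField IsDedekindDomain Polynomial

universe u

/-- `HasExp E f`: `f` is a composition of polynomials `g` such that all primes `≤ deg g` divide `E`, and of
polynomials `a (X - b)^d + c` such that all primes dividing `d` divide `E` -/
inductive HasExp {K : Type*} [Field K] (E : ℕ) : K[X] → Prop
  | small (g : K[X]) (h : ∀ p : ℕ, p.Prime → p ≤ g.natDegree → p ∣ E) : HasExp E g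
  | power (a b c : K) (d : ℕ) (h : ∀ p : ℕ, p.Prime → p ∣ d → p ∣ E) :
      HasExp E (C a * (X - C b) ^ d + C c)
  | comp (g h : K[X]) (hg : HasExp E g) (hh : HasExp E h) : HasExp E (g.comp h)

theorem dvd_pow_of_primes {s E : ℕ} (hs : s ≠ 0) (h : ∀ p : ℕ, p.Prime → p ∣ s → p ∣ E) :
    ∃ k : ℕ, s ∣ E ^ k := by
  rcases Nat.eq_zero_or_pos E with rfl | hE
  · exact ⟨1, by simp⟩
  refine ⟨s, ?_⟩
  rw [← Nat.factorization_prime_le_iff_dvd hs (pow_pos hE s).ne']
  intro p hp
  by_cases hps : p ∣ s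
  · have h1 : p ∣ E := h p hp hps
    have h2 : 1 ≤ E.factorization p := (hp.dvd_iff_one_le_factorization hE.ne').mp h1
    have h3 : s.factorization p < s := Nat.factorization_lt p hs
    rw [Nat.factorization_pow, Finsupp.smul_apply, smul_eq_mul]
    nlinarith
  · rw [Nat.factorization_eq_zero_of_not_dvd hps]
    exact Nat.zero_le _

theorem iter_apply {K L : Type*} [CommSemiring K] [Semiring L] [Algebra K L] (τ : L ≃ₐ[K] L) (n : ℕ) (r : L) :
    (τ ^ n) r = (fun x => τ x)^[n] r := by
  induction n generalizing r with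
  | zero => rfl
  | succ n ih =>
    rw [pow_succ, AlgEquiv.mul_apply, ih, Function.iterate_succ_apply]

theorem pow_fix_of_dvd {K L : Type*} [CommSemiring K] [Semiring L] [Algebra K L] (τ : L ≃ₐ[K] L) {s n : ℕ}
    {r : L} (h : (τ ^ s) r = r) (hd : s ∣ n) : (τ ^ n) r = r := by
  obtain ⟨t, rfl⟩ := hd
  rw [pow_mul]
  induction t with
  | zero => rfl
  | succ t ih =>
    rw [pow_succ, AlgEquiv.mul_apply, h]
    exact ih

theorem pow_fix_field {K L : Type*} [Field K] [Field L] [NumberField L] [Algebra K L] (τ : L ≃ₐ[ℚ] L)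
    (hK : ∀ x : K, τ (algebraMap K L x) = algebraMap K L x) (n : ℕ) (x : K) :
    (τ ^ n) (algebraMap K L x) = algebraMap K L x := by
  have := pow_fix_of_dvd τ (s := 1) (n := n) (r := algebraMap K L x) (by rw [pow_one]; exact hK x)
    (one_dvd n)
  exact this

/-- an automorphism fixing the coefficients commutes with evaluation -/
theorem aeval_comm {K L : Type*} [Field K] [Field L] [NumberField L] [Algebra K L] (τ : L ≃ₐ[ℚ] L)
    (hK : ∀ x : K, τ (algebraMap K L x) = algebraMap K L x) (g : K[X]) (r : L) :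
    τ (aeval r g) = aeval (τ r) g := by
  rw [aeval_eq_sum_range, aeval_eq_sum_range, map_sum]
  refine Finset.sum_congr rfl (fun i _ => ?_)
  rw [Algebra.smul_def, map_mul, map_pow, hK, Algebra.smul_def]

theorem exps_small {K : Type*} [Field K] (E : ℕ) (g : K[X]) (hg : 1 ≤ g.natDegree)
    (h : ∀ p : ℕ, p.Prime → p ≤ g.natDegree → p ∣ E)
    {L : Type*} [Field L] [NumberField L] [Algebra K L] (τ : L ≃ₐ[ℚ] L)
    (hK : ∀ x : K, τ (algebraMap K L x) = algebraMap K L x) (r : L) (hr : τ (aeval r g) = aeval r g) :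
    ∃ k : ℕ, (τ ^ (E ^ k)) r = r := by
  classical
  set s := Function.minimalPeriod (fun x => τ x) r with hs
  have hper : (fun x => τ x)^[s] r = r := Function.iterate_minimalPeriod
  have hs0 : 0 < s := by
    apply Function.IsPeriodicPt.minimalPeriod_pos (n := orderOf τ)
    · exact orderOf_pos τ
    · unfold Function.IsPeriodicPt Function.IsFixedPt
      rw [← iter_apply, pow_orderOf_eq_one]
      rfl
  have hfix : ∀ i : ℕ, aeval ((fun x => τ x)^[i] r) g = aeval r g := by
    intro i
    induction i with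
    | zero => rfl
    | succ i ih =>
      rw [Function.iterate_succ_apply']
      rw [← aeval_comm τ hK, ih, hr]
  set q : L[X] := g.map (algebraMap K L) - C (aeval r g) with hq
  have hqd : q.natDegree = g.natDegree := by
    rw [hq, natDegree_sub_C, natDegree_map]
  have hq0 : q ≠ 0 := by
    intro h0
    rw [h0, natDegree_zero] at hqd
    omega
  have hroot : ∀ i : ℕ, (fun x => τ x)^[i] r ∈ q.roots.toFinset := by
    intro i
    rw [Multiset.mem_toFinset, mem_roots hq0, IsRoot.def, hq, eval_sub, eval_C, eval_map_algebraMap,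
      hfix i, sub_self]
  have hcard : s ≤ g.natDegree := by
    have h1 : (Finset.range s).card ≤ q.roots.toFinset.card := by
      refine Finset.card_le_card_of_injOn (fun i => (fun x => τ x)^[i] r) (fun i _ => hroot i) ?_
      intro a ha b hb hab
      have ha' : a < s := by simpa using ha
      have hb' : b < s := by simpa using hb
      exact Function.iterate_injOn_Iio_minimalPeriod ha' hb' hab
    rw [Finset.card_range] at h1
    calc s ≤ q.roots.toFinset.card := h1
      _ ≤ q.roots.card := Multiset.toFinset_card_le _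
      _ ≤ q.natDegree := q.card_roots'
      _ = g.natDegree := hqd
  obtain ⟨k, hk⟩ := dvd_pow_of_primes (s := s) (E := E) hs0.ne' (fun p hp hps =>
    h p hp ((Nat.le_of_dvd hs0 hps).trans hcard))
  refine ⟨k, pow_fix_of_dvd τ (s := s) ?_ hk⟩
  rw [iter_apply]
  exact hper

theorem exps_power {K : Type*} [Field K] (E : ℕ) (a b c : K) (d : ℕ) (ha : a ≠ 0) (hd : d ≠ 0)
    (h : ∀ p : ℕ, p.Prime → p ∣ d → p ∣ E)
    {L : Type*} [Field L] [NumberField L] [Algebra K L] (τ : L ≃ₐ[ℚ] L)
    (hK : ∀ x : K, τ (algebraMap K L x) = algebraMap K L x) (hd1 : ∀ z : L, z ^ d = 1 → τ z = z)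
    (r : L) (hr : τ (aeval r (C a * (X - C b) ^ d + C c)) = aeval r (C a * (X - C b) ^ d + C c)) :
    ∃ k : ℕ, (τ ^ (E ^ k)) r = r := by
  obtain ⟨k, hk⟩ := dvd_pow_of_primes (s := d) (E := E) hd h
  refine ⟨k, pow_fix_of_dvd τ (s := d) ?_ hk⟩
  simp only [map_add, map_mul, map_sub, map_pow, aeval_C, aeval_X, hK] at hr
  have ha' : algebraMap K L a ≠ 0 := by
    rw [Ne, map_eq_zero]; exact ha
  have h1 : (τ r - algebraMap K L b) ^ d = (r - algebraMap K L b) ^ d :=
    mul_left_cancel₀ ha' (add_right_cancel hr)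
  by_cases hrb : r - algebraMap K L b = 0
  · have : r = algebraMap K L b := sub_eq_zero.mp hrb
    rw [this]
    exact pow_fix_field τ hK d b
  set z := (τ r - algebraMap K L b) / (r - algebraMap K L b) with hz
  have hzd : z ^ d = 1 := by
    rw [hz, div_pow, h1, div_self (pow_ne_zero d hrb)]
  have hτz := hd1 z hzd
  have h2 : τ r = algebraMap K L b + z * (r - algebraMap K L b) := by
    rw [hz, div_mul_cancel₀ _ hrb]; ring
  have h3 : ∀ j : ℕ, (τ ^ j) r = algebraMap K L b + z ^ j * (r - algebraMap K L b) := by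
    intro j
    induction j with
    | zero => simp
    | succ j ih =>
      rw [pow_succ', AlgEquiv.mul_apply, ih, map_add, map_mul, map_pow, map_sub, hτz, hK, h2]
      ring
  rw [h3 d, hzd]
  ring

/-- If `τ` fixes `K`, `f r` and the `m`-th roots of unity of `L`, then a power `τ^(E^k)` fixes `r` -/
theorem exps {K : Type u} [Field K] [NumberField K] (E : ℕ) (f : K[X]) (hf : 1 ≤ f.natDegree)
    (h : HasExp E f) : ∃ m : ℕ, 0 < m ∧
      ∀ (L : Type u) [Field L] [NumberField L] [Algebra K L] (τ : L ≃ₐ[ℚ] L),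
        (∀ x : K, τ (algebraMap K L x) = algebraMap K L x) →
        (∀ z : L, z ^ m = 1 → τ z = z) → ∀ r : L, τ (aeval r f) = aeval r f →
          ∃ k : ℕ, (τ ^ (E ^ k)) r = r := by
  induction h with
  | small g h =>
    refine ⟨1, one_pos, ?_⟩
    intro L _ _ _ τ hK _ r hr
    exact exps_small E g hf h τ hK r hr
  | power a b c d h =>
    have ha : a ≠ 0 := by
      rintro rfl
      simp at hf
    have hd : d ≠ 0 := by
      rintro rfl
      rw [pow_zero, mul_one, ← C_add, natDegree_C] at hf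
      omega
    refine ⟨d, Nat.pos_of_ne_zero hd, ?_⟩
    intro L _ _ _ τ hK hm r hr
    exact exps_power E a b c d ha hd h τ hK hm r hr
  | comp g h hg hh ihg ihh =>
    rw [natDegree_comp] at hf
    have hg1 : 1 ≤ g.natDegree := Nat.pos_of_mul_pos_right hf
    have hh1 : 1 ≤ h.natDegree := Nat.pos_of_mul_pos_left hf
    obtain ⟨m1, hm1, h1⟩ := ihg hg1
    obtain ⟨m2, hm2, h2⟩ := ihh hh1
    refine ⟨m1 * m2, Nat.mul_pos hm1 hm2, ?_⟩
    intro L _ _ _ τ hK hm r hr
    rw [aeval_comp] at hr
    obtain ⟨k1, hk1⟩ := h1 L τ hK (fun z hz => hm z (by rw [pow_mul, hz, one_pow])) (aeval r h) hr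
    obtain ⟨k2, hk2⟩ := h2 L (τ ^ (E ^ k1)) (fun x => pow_fix_field τ hK _ x)
      (fun z hz => pow_fix_of_dvd τ (s := 1)
        (by rw [pow_one]; exact hm z (by rw [mul_comm, pow_mul, hz, one_pow])) (one_dvd _)) r hk1
    refine ⟨k1 + k2, ?_⟩
    rw [pow_add, pow_mul]
    exact hk2

end Pool.Agent.ORB
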