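import Pool.Agent.ORB.GoodPrime

/-! ORB, M6: for a point `β` a polynomial `P` whose roots are the targets: collisions with `β` modulo `v` give
roots modulo `v` of `P ∘ f^N`, and there are none if `β` is not periodic modulo `w` (or `β` is preperiodic).

If `β = b` is finite and not periodic, `P = X - b`. If `b` is periodic, `P` is the product over the cycle of
`(f - f(c)) / (X - c)^{multiplicity}`. If `β = ∞`, `P = 1`. -/

namespace Pool.Agent.ORB

open NumberField IsDedekindDomain Polynomial

universe u

/-- the `N`-th iterate of `f` as a polynomial -/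
noncomputable def iterP {K : Type*} [Field K] (f : K[X]) (N : ℕ) : K[X] := (f.comp)^[N] X

section poly

variable {F : Type*} [Field F]

theorem iterP_zero (f : F[X]) : iterP f 0 = X := rfl

theorem iterP_succ (f : F[X]) (N : ℕ) : iterP f (N + 1) = f.comp (iterP f N) :=
  Function.iterate_succ_apply' _ _ _

theorem eval_iterP (f : F[X]) (N : ℕ) (x : F) :
    (iterP f N).eval x = (fun x => f.eval x)^[N] x := by
  induction N with
  | zero => rw [iterP_zero, eval_X]; rfl
  | succ N ih => rw [iterP_succ, eval_comp, ih, Function.iterate_succ_apply']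

theorem natDegree_iterP (f : F[X]) (N : ℕ) : (iterP f N).natDegree = f.natDegree ^ N := by
  unfold iterP
  rw [natDegree_iterate_comp, natDegree_X, mul_one]

theorem map_iterP {F' : Type*} [Field F'] (φ : F →+* F') (f : F[X]) (N : ℕ) :
    (iterP f N).map φ = iterP (f.map φ) N := by
  induction N with
  | zero => rw [iterP_zero, iterP_zero, map_X]
  | succ N ih => rw [iterP_succ, iterP_succ, map_comp, ih]

theorem iterate_map {F' : Type*} [Field F'] (φ : F →+* F') (f : F[X]) (n : ℕ) (b : F) :
    (fun x => (f.map φ).eval x)^[n] (φ b) = φ ((fun x => f.eval x)^[n] b) := by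
  induction n with
  | zero => rfl
  | succ n ih =>
    rw [Function.iterate_succ_apply', Function.iterate_succ_apply', ih]
    exact eval_map_apply φ _

theorem iterate_aeval {L : Type*} [Field L] [Algebra F L] (f : F[X]) (n : ℕ) (z : F) :
    (fun x : L => aeval x f)^[n] (algebraMap F L z) =
      algebraMap F L ((fun x => f.eval x)^[n] z) := by
  induction n with
  | zero => rfl
  | succ n ih =>
    rw [Function.iterate_succ_apply', Function.iterate_succ_apply', ih]
    exact aeval_algebraMap_apply_eq_algebraMap_eval _ _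

theorem act_coe (f : F[X]) (a : F) (n : ℕ) :
    (act f)^[n] (a : OnePoint F) = (((fun x => f.eval x)^[n] a : F) : OnePoint F) := by
  induction n with
  | zero => rfl
  | succ n ih =>
    rw [Function.iterate_succ_apply', Function.iterate_succ_apply', ih]
    rfl

theorem act_infty (f : F[X]) (n : ℕ) : (act f)^[n] (OnePoint.infty : OnePoint F) = OnePoint.infty := by
  induction n with
  | zero => rfl
  | succ n ih =>
    rw [Function.iterate_succ_apply', ih]
    rfl

variable {Γ₀ : Type*} [LinearOrderedCommGroupWithZero Γ₀]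

/-- integrality of all coefficients -/
def IntC (v : Valuation F Γ₀) (p : F[X]) : Prop := ∀ j, v (p.coeff j) ≤ 1

theorem intC_iff (v : Valuation F Γ₀) (p : F[X]) : IntC v p ↔ p ∈ lifts (v.integer).subtype := by
  rw [lifts_iff_coeff_lifts]
  constructor
  · intro h n
    exact ⟨⟨p.coeff n, h n⟩, rfl⟩
  · intro h n
    obtain ⟨y, hy⟩ := h n
    rw [← hy]
    exact y.2

theorem IntC.comp {v : Valuation F Γ₀} {p q : F[X]} (hp : IntC v p) (hq : IntC v q) :
    IntC v (p.comp q) := by
  rw [intC_iff, mem_lifts] at hp hq ⊢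
  obtain ⟨p', rfl⟩ := hp
  obtain ⟨q', rfl⟩ := hq
  exact ⟨p'.comp q', map_comp _ _ _⟩

theorem intC_iterP {v : Valuation F Γ₀} {f : F[X]} (hf : IntC v f) (N : ℕ) : IntC v (iterP f N) := by
  induction N with
  | zero =>
    intro j
    rw [iterP_zero, coeff_X]
    split_ifs
    · rw [map_one]
    · rw [map_zero]; exact zero_le_one
  | succ N ih => rw [iterP_succ]; exact hf.comp ih

theorem val_lead_comp {v : Valuation F Γ₀} {p q : F[X]} (hp : v p.leadingCoeff = 1)
    (hq : v q.leadingCoeff = 1) (hd : q.natDegree ≠ 0) : v (p.comp q).leadingCoeff = 1 := by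
  rw [leadingCoeff_comp hd, map_mul, map_pow, hp, hq, one_pow, mul_one]

theorem val_lead_iterP {v : Valuation F Γ₀} {f : F[X]} (hf : v f.leadingCoeff = 1)
    (hd : f.natDegree ≠ 0) (N : ℕ) : v (iterP f N).leadingCoeff = 1 := by
  induction N with
  | zero => rw [iterP_zero, leadingCoeff_X, map_one]
  | succ N ih =>
    rw [iterP_succ]
    exact val_lead_comp hf ih (by rw [natDegree_iterP]; exact pow_ne_zero _ hd)

omit [Field F] in
theorem orbit_finite {T : F → F} {b : F} (h : ¬ Function.Injective fun n : ℕ => T^[n] b) :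
    ∃ s : Finset F, ∀ n, T^[n] b ∈ s := by
  classical
  rw [Function.not_injective_iff] at h
  obtain ⟨i, j, hij, hne⟩ := h
  have key : ∀ i j : ℕ, i < j → T^[i] b = T^[j] b → ∃ s : Finset F, ∀ n, T^[n] b ∈ s := by
    intro i j hlt he
    refine ⟨(Finset.range j).image fun n => T^[n] b, fun n => ?_⟩
    induction n using Nat.strong_induction_on with
    | _ n ih =>
      by_cases hn : n < j
      · exact Finset.mem_image.2 ⟨n, Finset.mem_range.2 hn, rfl⟩
      · have h1 : T^[n] b = T^[n - j + i] b := by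
          have h2 : n = n - j + j := by omega
          rw [Function.iterate_add_apply, he, ← Function.iterate_add_apply, ← h2]
        rw [h1]
        exact ih _ (by omega)
  rcases lt_or_gt_of_ne hne with h | h
  · exact key i j h hij
  · exact key j i h hij.symm

end poly

section bad

theorem val_le_one_of_isIntegral {K : Type*} [Field K] [NumberField K]
    (w : HeightOneSpectrum (𝓞 K)) {x : K} (hx : IsIntegral ℤ x) : w.valuation K x ≤ 1 := by
  have h := w.valuation_le_one (K := K) (⟨x, hx⟩ : 𝓞 K)
  exact h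

/-- a nonzero element is a unit outside of a finite set of rational primes, in every extension -/
theorem exists_bad {K : Type u} [Field K] [NumberField K] (c : K) (hc : c ≠ 0) : ∃ m : ℕ, m ≠ 0 ∧
    ∀ (K2 : Type u) [Field K2] [NumberField K2] [Algebra K K2] (w : HeightOneSpectrum (𝓞 K2)),
      w.valuation K2 (m : K2) = 1 → w.valuation K2 (algebraMap K K2 c) = 1 := by
  have h1 : ∀ c : K, ∃ m : ℕ, m ≠ 0 ∧ IsIntegral ℤ ((m : K) * c) := by
    intro c
    have halg : IsAlgebraic ℤ c := by
      have := Algebra.IsAlgebraic.isAlgebraic (R := ℚ) c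
      exact (IsFractionRing.isAlgebraic_iff ℤ ℚ K).2 this
    obtain ⟨y, hy, hint⟩ := halg.exists_integral_multiple
    refine ⟨y.natAbs, Int.natAbs_ne_zero.2 hy, ?_⟩
    rcases Int.natAbs_eq y with h | h
    · rw [h] at hint
      simpa [zsmul_eq_mul] using hint
    · rw [h] at hint
      have := hint.neg
      simpa [zsmul_eq_mul] using this
  obtain ⟨m1, hm1, hi1⟩ := h1 c
  obtain ⟨m2, hm2, hi2⟩ := h1 c⁻¹
  refine ⟨m1 * m2, mul_ne_zero hm1 hm2, ?_⟩
  intro K2 _ _ _ w hw
  rw [Nat.cast_mul, map_mul] at hw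
  have hnat : ∀ m : ℕ, w.valuation K2 (m : K2) ≤ 1 := fun m => by
    have h6 := w.valuation_le_one (K := K2) ((m : ℕ) : 𝓞 K2)
    simpa using h6
  have e1 : w.valuation K2 (m1 : K2) = 1 := by
    refine le_antisymm (hnat m1) ?_
    rw [← hw]
    exact mul_le_of_le_one_right' (hnat m2)
  have e2 : w.valuation K2 (m2 : K2) = 1 := by
    rw [e1, one_mul] at hw
    exact hw
  have i1 : w.valuation K2 (algebraMap K K2 ((m1 : K) * c)) ≤ 1 :=
    val_le_one_of_isIntegral w (hi1.algebraMap (B := K2))
  have i2 : w.valuation K2 (algebraMap K K2 ((m2 : K) * c⁻¹)) ≤ 1 :=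
    val_le_one_of_isIntegral w (hi2.algebraMap (B := K2))
  rw [map_mul, map_natCast, map_mul, e1, one_mul] at i1
  rw [map_mul, map_natCast, map_mul, e2, one_mul, map_inv₀, map_inv₀] at i2
  refine le_antisymm i1 ?_
  have h5 : 0 < w.valuation K2 (algebraMap K K2 c) := by
    rw [Valuation.pos_iff]
    exact (_root_.map_ne_zero _).2 hc
  exact (inv_le_one₀ h5).1 i2

theorem bad_list {K : Type u} [Field K] [NumberField K] (s : Finset K) : ∃ bad : Finset ℕ,
    ∀ (K2 : Type u) [Field K2] [NumberField K2] [Algebra K K2] (w : HeightOneSpectrum (𝓞 K2)),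
      Off w bad → ∀ c ∈ s, c ≠ 0 → w.valuation K2 (algebraMap K K2 c) = 1 := by
  classical
  have h : ∀ c : K, ∃ m : ℕ, m ≠ 0 ∧ (c ≠ 0 → ∀ (K2 : Type u) [Field K2] [NumberField K2]
      [Algebra K K2] (w : HeightOneSpectrum (𝓞 K2)),
      w.valuation K2 (m : K2) = 1 → w.valuation K2 (algebraMap K K2 c) = 1) := by
    intro c
    by_cases hc : c = 0
    · exact ⟨1, one_ne_zero, fun h => absurd hc h⟩
    · obtain ⟨m, hm, h⟩ := exists_bad c hc
      exact ⟨m, hm, fun _ => h⟩
  choose m hm0 hm using h
  refine ⟨s.image m, ?_⟩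
  intro K2 _ _ _ w hoff c hc hc0
  exact hm c hc0 K2 w (hoff (m c) (Finset.mem_image_of_mem m hc) (hm0 c))

/-- all coefficients of a polynomial -/
noncomputable def cf {K : Type*} [Field K] (p : K[X]) : Finset K := by
  classical
  exact (Finset.range (p.natDegree + 1)).image p.coeff

theorem mem_cf {K : Type*} [Field K] (p : K[X]) (i : ℕ) (hi : i ≤ p.natDegree) : p.coeff i ∈ cf p := by
  classical
  unfold cf
  exact Finset.mem_image.2 ⟨i, Finset.mem_range.2 (by omega), rfl⟩

theorem intC_of_cf {F : Type*} [Field F] {Γ₀ : Type*} [LinearOrderedCommGroupWithZero Γ₀]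
    (v : Valuation F Γ₀) (p : F[X]) (h : ∀ c ∈ cf p, c ≠ 0 → v c = 1) : IntC v p := by
  intro j
  by_cases h0 : p.coeff j = 0
  · rw [h0, map_zero]; exact zero_le_one
  · have hj : j ≤ p.natDegree := le_natDegree_of_ne_zero h0
    exact (h _ (mem_cf p j hj) h0).le

theorem lead_of_cf {F : Type*} [Field F] {Γ₀ : Type*} [LinearOrderedCommGroupWithZero Γ₀]
    (v : Valuation F Γ₀) (p : F[X]) (hp : p ≠ 0) (h : ∀ c ∈ cf p, c ≠ 0 → v c = 1) :
    v p.leadingCoeff = 1 :=
  h _ (mem_cf p _ le_rfl) (leadingCoeff_ne_zero.2 hp)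

end bad

section period

variable {K : Type*} [Field K] [NumberField K]

theorem exists_period (w : HeightOneSpectrum (𝓞 K)) : ∃ N0 : ℕ, ∀ g : K[X],
    IntC (w.valuation K) g → ∀ x : K, w.valuation K x ≤ 1 → ∀ N, N0 ≤ N → ∃ t, 1 ≤ t ∧
      Cong (w.valuation K) ((fun x => g.eval x)^[N + t] x) ((fun x => g.eval x)^[N] x) := by
  classical
  have hfin : Finite (𝓞 K ⧸ w.asIdeal) := Ideal.finiteQuotientOfFreeOfNeBot w.asIdeal w.ne_bot
  have := Fintype.ofFinite (𝓞 K ⧸ w.asIdeal)
  refine ⟨Fintype.card (𝓞 K ⧸ w.asIdeal), ?_⟩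
  intro g hg x hx N hN
  set N0 := Fintype.card (𝓞 K ⧸ w.asIdeal) with hN0
  set T : K → K := fun x => g.eval x with hT
  have hint : ∀ n, w.valuation K (T^[n] x) ≤ 1 := fun n => ((Cong.refl hx).iterate hg n).1
  choose y hy using fun n : ℕ => w.exists_valuation_sub_lt_of_integer (K := K) (hint n) 1
  obtain ⟨i, j, hij, he⟩ := Fintype.exists_ne_map_eq_of_card_lt
    (fun n : Fin (N0 + 1) => Ideal.Quotient.mk w.asIdeal (y n.1)) (by rw [Fintype.card_fin]; omega)
  have key : ∀ i j : ℕ, i < j → j ≤ N0 → Ideal.Quotient.mk w.asIdeal (y i) =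
      Ideal.Quotient.mk w.asIdeal (y j) → ∃ t, 1 ≤ t ∧
      Cong (w.valuation K) (T^[N + t] x) (T^[N] x) := by
    intro i j hlt hj he
    rw [Ideal.Quotient.eq] at he
    have hyv : ∀ n, Cong (w.valuation K) (algebraMap (𝓞 K) K (y n)) (T^[n] x) := fun n =>
      ⟨w.valuation_le_one (y n), hint n, by simpa using hy n⟩
    have h1 : Cong (w.valuation K) (algebraMap (𝓞 K) K (y i)) (algebraMap (𝓞 K) K (y j)) := by
      refine ⟨w.valuation_le_one _, w.valuation_le_one _, ?_⟩
      rw [← map_sub]
      exact (w.valuation_lt_one_iff_mem (K := K) _).2 he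
    have h2 : Cong (w.valuation K) (T^[i] x) (T^[j] x) :=
      ((hyv i).symm.trans h1).trans (hyv j)
    refine ⟨j - i, by omega, ?_⟩
    have h3 := h2.iterate hg (N - i)
    change Cong (w.valuation K) (T^[N - i] (T^[i] x)) (T^[N - i] (T^[j] x)) at h3
    rw [← Function.iterate_add_apply, ← Function.iterate_add_apply] at h3
    have e1 : N - i + i = N := by omega
    have e2 : N - i + j = N + (j - i) := by omega
    rw [e1, e2] at h3
    exact h3.symm
  rcases lt_or_gt_of_ne hij with h | h
  · exact key i.1 j.1 h (by omega) he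
  · exact key j.1 i.1 h (by omega) he.symm

end period

section fin

variable {K : Type u} [Field K] [NumberField K]

theorem finite_not_le (a : K) : {v : HeightOneSpectrum (𝓞 K) | ¬ v.valuation K a ≤ 1}.Finite := by
  refine (HeightOneSpectrum.Support.finite (𝓞 K) a).subset ?_
  intro v hv
  exact not_le.1 hv

theorem finite_lt_one {a : K} (ha : a ≠ 0) :
    {v : HeightOneSpectrum (𝓞 K) | v.valuation K a < 1}.Finite := by
  refine (HeightOneSpectrum.Support.finite (𝓞 K) a⁻¹).subset ?_
  intro v hv
  change 1 < v.valuation K a⁻¹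
  rw [map_inv₀]
  have h5 : 0 < v.valuation K a := by
    rw [Valuation.pos_iff]
    exact ha
  exact (one_lt_inv₀ h5).2 hv

theorem finite_not_intC (p : K[X]) :
    {v : HeightOneSpectrum (𝓞 K) | ¬ IntC (v.valuation K) p}.Finite := by
  refine (Set.Finite.biUnion (Finset.finite_toSet (Finset.range (p.natDegree + 1)))
    fun i _ => finite_not_le (p.coeff i)).subset ?_
  intro v hv
  have hv' : ¬ ∀ j, v.valuation K (p.coeff j) ≤ 1 := hv
  push Not at hv'
  obtain ⟨j, hj⟩ := hv'
  rw [Set.mem_iUnion₂]
  refine ⟨j, ?_, not_le.2 hj⟩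
  rw [Finset.coe_range, Set.mem_Iio]
  by_contra h
  rw [coeff_eq_zero_of_natDegree_lt (by omega), map_zero] at hj
  exact absurd hj (not_lt.2 zero_le_one)

theorem sameRed_coe {v : HeightOneSpectrum (𝓞 K)} {a b : K} (hb : v.valuation K b ≤ 1)
    (h : SameRed v (a : OnePoint K) (b : OnePoint K)) : Cong (v.valuation K) a b := by
  rcases h with ⟨-, h⟩ | ⟨a', b', h1, h2, h3, h4, h5⟩
  · exact absurd (h b rfl) (not_lt.2 hb)
  · rw [OnePoint.coe_injective h1, OnePoint.coe_injective h2]
    exact ⟨h3, h4, h5⟩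

theorem not_sameRed_infty {v : HeightOneSpectrum (𝓞 K)} {b : K} (hb : v.valuation K b ≤ 1) :
    ¬ SameRed v (OnePoint.infty : OnePoint K) (b : OnePoint K) := by
  rintro (⟨-, h⟩ | ⟨a', b', h1, -⟩)
  · exact absurd (h b rfl) (not_lt.2 hb)
  · exact OnePoint.infty_ne_coe a' h1

theorem not_sameRed_infty' {v : HeightOneSpectrum (𝓞 K)} {b : K} (hb : v.valuation K b ≤ 1) :
    ¬ SameRed v (b : OnePoint K) (OnePoint.infty : OnePoint K) := by
  rintro (⟨h, -⟩ | ⟨a', b', -, h1, -⟩)
  · exact absurd (h b rfl) (not_lt.2 hb)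
  · exact OnePoint.infty_ne_coe b' h1

end fin

section target

variable {K : Type u} [Field K] [NumberField K]

/-- the properties required of the target polynomial -/
def IsTarget (f : K[X]) (β : OnePoint K) (P : K[X]) : Prop :=
  P ≠ 0 ∧
      (∀ α : OnePoint K, (∀ n, (act f)^[n] α ≠ β) → ∀ N : ℕ,
        {v : HeightOneSpectrum (𝓞 K) | (∃ n, SameRed v ((act f)^[n] α) β) ∧
          ¬ HasRoot v (P.comp (iterP f N))}.Finite) ∧
      (∀ (L : Type u) [Field L] [NumberField L] [Algebra K L] (r : L), aeval r P = 0 →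
        ∃ c : K, aeval r f = algebraMap K L c) ∧
      (∀ (L : Type u) [Field L] [NumberField L] [Algebra K L] (r : L), aeval r P = 0 →
        ∃ b : K, β = (b : OnePoint K) ∧ ∃ m : ℕ, (fun x => aeval x f)^[m] r = algebraMap K L b) ∧
      (∀ (L : Type u) [Field L] [NumberField L] [Algebra K L] (r : L), aeval r P = 0 →
        ∀ n : ℕ, 1 ≤ n → (fun x => aeval x f)^[n] r ≠ r) ∧
      ∃ bad : Finset ℕ, ∀ (K2 : Type u) [Field K2] [NumberField K2] [Algebra K K2]
        (w : HeightOneSpectrum (𝓞 K2)), Off w bad →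
        (∀ N j, w.valuation K2 (algebraMap K K2 ((P.comp (iterP f N)).coeff j)) ≤ 1) ∧
        (∀ N, w.valuation K2 (algebraMap K K2 (P.comp (iterP f N)).leadingCoeff) = 1) ∧
        ((∀ b : K, β = (b : OnePoint K) → Wandering f b →
            NonPer w (f.map (algebraMap K K2)) (algebraMap K K2 b)) →
          ∃ N0, ∀ N, N0 ≤ N → ¬ HasRoot w ((P.comp (iterP f N)).map (algebraMap K K2)))

theorem target_infty (f : K[X]) : IsTarget f OnePoint.infty 1 := by
  refine ⟨one_ne_zero, ?_, ?_, ?_, ?_, ∅, ?_⟩
  · intro α hα N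
    induction α using OnePoint.rec with
    | infty => exact absurd rfl (hα 0)
    | coe a =>
      refine ((finite_not_intC f).union (finite_not_le a)).subset ?_
      rintro v ⟨⟨n, hn⟩, -⟩
      by_contra hv
      rw [Set.mem_union, not_or] at hv
      have h1 : IntC (v.valuation K) f := not_not.1 hv.1
      have h2 : v.valuation K a ≤ 1 := not_not.1 hv.2
      rw [act_coe] at hn
      exact not_sameRed_infty' ((Cong.refl h2).iterate h1 n).1 hn
  · intro L _ _ _ r hr
    rw [map_one] at hr
    exact absurd hr one_ne_zero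
  · intro L _ _ _ r hr
    rw [map_one] at hr
    exact absurd hr one_ne_zero
  · intro L _ _ _ r hr
    rw [map_one] at hr
    exact absurd hr one_ne_zero
  · intro K2 _ _ _ w _
    have hone : ∀ N, (1 : K[X]).comp (iterP f N) = 1 := fun N => by rw [one_comp]
    refine ⟨?_, ?_, ?_⟩
    · intro N j
      rw [hone, coeff_one]
      split_ifs
      · rw [map_one, map_one]
      · rw [map_zero, map_zero]; exact zero_le_one
    · intro N
      rw [hone, leadingCoeff_one, map_one, map_one]
    · intro _
      refine ⟨0, fun N _ => ?_⟩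
      rintro ⟨x, -, hx⟩
      rw [hone, Polynomial.map_one, eval_one, map_one] at hx
      exact lt_irrefl _ hx

omit [NumberField K] in
theorem comap_off {K2 : Type u} [Field K2] [NumberField K2] [Algebra K K2]
    (w : HeightOneSpectrum (𝓞 K2)) {f P : K[X]} (hf : 2 ≤ f.natDegree) (hP : P ≠ 0)
    (h1 : ∀ c ∈ cf f, c ≠ 0 → w.valuation K2 (algebraMap K K2 c) = 1)
    (h2 : ∀ c ∈ cf P, c ≠ 0 → w.valuation K2 (algebraMap K K2 c) = 1) :
    (∀ N j, w.valuation K2 (algebraMap K K2 ((P.comp (iterP f N)).coeff j)) ≤ 1) ∧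
      (∀ N, w.valuation K2 (algebraMap K K2 (P.comp (iterP f N)).leadingCoeff) = 1) ∧
      IntC (w.valuation K2) (f.map (algebraMap K K2)) := by
  set v : Valuation K (WithZero (Multiplicative ℤ)) := (w.valuation K2).comap (algebraMap K K2) with hv
  have e1 : IntC v f := intC_of_cf v f h1
  have e2 : IntC v P := intC_of_cf v P h2
  have hf0 : f ≠ 0 := by
    intro h
    rw [h, natDegree_zero] at hf
    omega
  have e3 : v f.leadingCoeff = 1 := lead_of_cf v f hf0 h1
  have e4 : v P.leadingCoeff = 1 := lead_of_cf v P hP h2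
  refine ⟨fun N => ?_, fun N => ?_, ?_⟩
  · exact e2.comp (intC_iterP e1 N)
  · exact val_lead_comp e4 (val_lead_iterP e3 (by omega) N) (by
      rw [natDegree_iterP]
      exact pow_ne_zero _ (by omega))
  · intro j
    rw [coeff_map]
    exact e1 j

theorem target_nonper (f : K[X]) (hf : 2 ≤ f.natDegree) (b : K)
    (hb : ∀ m : ℕ, 1 ≤ m → (fun x => f.eval x)^[m] b ≠ b) :
    IsTarget f (b : OnePoint K) (X - C b) := by
  classical
  have hP : (X - C b : K[X]) ≠ 0 := X_sub_C_ne_zero b
  refine ⟨hP, ?_, ?_, ?_, ?_, ?_⟩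
  · intro α hα N
    induction α using OnePoint.rec with
    | infty =>
      refine (finite_not_le b).subset ?_
      rintro v ⟨⟨n, hn⟩, -⟩
      by_contra hv
      have h2 : v.valuation K b ≤ 1 := not_not.1 hv
      rw [act_infty] at hn
      exact not_sameRed_infty h2 hn
    | coe a =>
      have hne : ∀ n, (fun x => f.eval x)^[n] a - b ≠ 0 := by
        intro n h0
        apply hα n
        rw [act_coe, sub_eq_zero.1 h0]
      refine ((((finite_not_intC f).union (finite_not_le a)).union (finite_not_le b)).union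
        (Set.Finite.biUnion (Finset.finite_toSet (Finset.range N))
          fun n _ => finite_lt_one (hne n))).subset ?_
      rintro v ⟨⟨n, hn⟩, hno⟩
      by_contra hv
      rw [Set.mem_union, Set.mem_union, Set.mem_union, not_or, not_or, not_or] at hv
      obtain ⟨⟨⟨h1, h2⟩, h3⟩, h4⟩ := hv
      replace h1 : IntC (v.valuation K) f := not_not.1 h1
      replace h2 : v.valuation K a ≤ 1 := not_not.1 h2
      replace h3 : v.valuation K b ≤ 1 := not_not.1 h3
      rw [act_coe] at hn
      have hc := sameRed_coe h3 hn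
      by_cases hnN : n < N
      · apply h4
        rw [Set.mem_iUnion₂]
        exact ⟨n, by rw [Finset.coe_range]; exact hnN, hc.2.2⟩
      · apply hno
        refine ⟨(fun x => f.eval x)^[n - N] a, ((Cong.refl h2).iterate h1 (n - N)).1, ?_⟩
        rw [eval_comp, eval_iterP, ← Function.iterate_add_apply, eval_sub, eval_X, eval_C]
        have e1 : N + (n - N) = n := by omega
        rw [e1]
        exact hc.2.2
  · intro L _ _ _ r hr
    rw [map_sub, aeval_X, aeval_C, sub_eq_zero] at hr
    refine ⟨f.eval b, ?_⟩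
    rw [hr, aeval_algebraMap_apply_eq_algebraMap_eval]
  · intro L _ _ _ r hr
    rw [map_sub, aeval_X, aeval_C, sub_eq_zero] at hr
    exact ⟨b, rfl, 0, hr⟩
  · intro L _ _ _ r hr n hn h
    rw [map_sub, aeval_X, aeval_C, sub_eq_zero] at hr
    rw [hr, iterate_aeval] at h
    exact hb n hn ((algebraMap K L).injective h)
  · -- the values `f^m(b) - b` if the orbit is finite
    obtain ⟨s, hs⟩ : ∃ s : Finset K, ¬ Wandering f b → ∀ n, (fun x => f.eval x)^[n] b ∈ s := by
      by_cases hw : Wandering f b
      · exact ⟨∅, fun h => absurd hw h⟩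
      · obtain ⟨s, hs⟩ := orbit_finite hw
        exact ⟨s, fun _ => hs⟩
    obtain ⟨bad, hbad⟩ := bad_list (cf f ∪ cf (X - C b) ∪ {b} ∪ s.image (fun y => y - b))
    refine ⟨bad, ?_⟩
    intro K2 _ _ _ w hoff
    have hb2 := hbad K2 w hoff
    obtain ⟨c1, c2, c3⟩ := comap_off (K := K) w hf hP
      (fun c hc => hb2 c (by simp [hc])) (fun c hc => hb2 c (by simp [hc]))
    refine ⟨c1, c2, ?_⟩
    intro hnp
    have hbint : w.valuation K2 (algebraMap K K2 b) ≤ 1 := by
      by_cases h0 : b = 0
      · rw [h0, map_zero, map_zero]; exact zero_le_one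
      · exact (hb2 b (by simp) h0).le
    have hNP : NonPer w (f.map (algebraMap K K2)) (algebraMap K K2 b) := by
      by_cases hw : Wandering f b
      · exact hnp b rfl hw
      · intro m hm
        rw [iterate_map, ← map_sub]
        apply le_of_eq
        symm
        apply hb2
        · simp only [Finset.mem_union, Finset.mem_image]
          exact Or.inr ⟨_, hs hw m, rfl⟩
        · exact sub_ne_zero.2 (hb m hm)
    obtain ⟨N0, hN0⟩ := exists_period w
    refine ⟨N0, fun N hN => ?_⟩
    rintro ⟨x, hx, hroot⟩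
    rw [Polynomial.map_comp, map_iterP, Polynomial.map_sub, map_X, map_C, eval_comp, eval_iterP,
      eval_sub, eval_X, eval_C] at hroot
    set g := f.map (algebraMap K K2) with hg
    set T : K2 → K2 := fun x => g.eval x with hT
    obtain ⟨t, ht, hcong⟩ := hN0 g c3 x hx N hN
    have k1 : Cong (w.valuation K2) (T^[N] x) (algebraMap K K2 b) :=
      ⟨((Cong.refl hx).iterate c3 N).1, hbint, hroot⟩
    have k2 := k1.iterate c3 t
    change Cong (w.valuation K2) (T^[t] (T^[N] x)) (T^[t] (algebraMap K K2 b)) at k2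
    rw [← Function.iterate_add_apply, add_comm t N] at k2
    have k3 : Cong (w.valuation K2) (T^[t] (algebraMap K K2 b)) (algebraMap K K2 b) :=
      (k2.symm.trans hcong).trans k1
    exact absurd k3.2.2 (not_lt.2 (hNP t ht))

omit [NumberField K] in
theorem exists_cofactor (f : K[X]) (hf : 2 ≤ f.natDegree) (c : K) : ∃ (e : ℕ) (q : K[X]),
    f - C (f.eval c) = (X - C c) ^ e * q ∧ q.eval c ≠ 0 := by
  have hne : f - C (f.eval c) ≠ 0 := by
    intro h
    have h1 : (f - C (f.eval c)).natDegree = f.natDegree := natDegree_sub_C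
    rw [h, natDegree_zero] at h1
    omega
  obtain ⟨q, h1, h2⟩ := exists_eq_pow_rootMultiplicity_mul_and_not_dvd _ hne c
  refine ⟨_, q, h1, fun h => h2 ?_⟩
  exact dvd_iff_isRoot.2 h

theorem cong_prod {F : Type*} [Field F] {Γ₀ : Type*} [LinearOrderedCommGroupWithZero Γ₀]
    (v : Valuation F Γ₀) {ι : Type*} (s : Finset ι) (g : ι → F) (h1 : ∀ i ∈ s, v (g i) ≤ 1)
    (h : v (∏ i ∈ s, g i) < 1) : ∃ i ∈ s, v (g i) < 1 := by
  classical
  by_contra hcon
  push Not at hcon
  have h2 : v (∏ i ∈ s, g i) = 1 := by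
    rw [map_prod]
    exact Finset.prod_eq_one fun i hi => le_antisymm (h1 i hi) (hcon i hi)
  rw [h2] at h
  exact lt_irrefl _ h

theorem val_prod_lt {F : Type*} [Field F] {Γ₀ : Type*} [LinearOrderedCommGroupWithZero Γ₀]
    (v : Valuation F Γ₀) {ι : Type*} (s : Finset ι) (g : ι → F) (h1 : ∀ i ∈ s, v (g i) ≤ 1)
    {i : ι} (hi : i ∈ s) (h : v (g i) < 1) : v (∏ i ∈ s, g i) < 1 := by
  classical
  rw [← Finset.mul_prod_erase s g hi, map_mul]
  refine lt_of_le_of_lt (mul_le_of_le_one_right' ?_) h
  rw [map_prod]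
  exact Finset.prod_le_one' fun j hj => h1 j (Finset.mem_of_mem_erase hj)

theorem Cong.iterate_mul {F : Type*} [Field F] {Γ₀ : Type*} [LinearOrderedCommGroupWithZero Γ₀]
    {v : Valuation F Γ₀} {g : F[X]} (hg : IntC v g) {y : F} {t : ℕ} (hy : v y ≤ 1)
    (h : Cong v ((fun x => g.eval x)^[t] y) y) (k : ℕ) :
    Cong v ((fun x => g.eval x)^[t * k] y) y := by
  induction k with
  | zero => rw [mul_zero]; exact Cong.refl hy
  | succ k ih =>
    have h3 : (fun x => g.eval x)^[t * (k + 1)] y =
        (fun x => g.eval x)^[t] ((fun x => g.eval x)^[t * k] y) := by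
      rw [← Function.iterate_add_apply]
      congr 1
      ring
    rw [h3]
    exact (ih.iterate hg t).trans h

theorem val_mul_lt {F : Type*} [Field F] {Γ₀ : Type*} [LinearOrderedCommGroupWithZero Γ₀]
    {v : Valuation F Γ₀} {x y : F} {e : ℕ} (hx : v x ≤ 1) (h : v (x ^ e * y) < 1) :
    v x < 1 ∨ v y < 1 := by
  by_contra hcon
  push Not at hcon
  have h1 : v x = 1 := le_antisymm hx hcon.1
  rw [map_mul, map_pow, h1, one_pow, one_mul] at h
  exact absurd h (not_lt.2 hcon.2)

theorem target_per (f : K[X]) (hf : 2 ≤ f.natDegree) (b : K) (k : ℕ) (hk : 1 ≤ k)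
    (hb : (fun x => f.eval x)^[k] b = b) : ∃ P, IsTarget f (b : OnePoint K) P := by
  classical
  choose e q hq using exists_cofactor f hf
  set T : K → K := fun x => f.eval x with hT
  have hper : Function.IsPeriodicPt T k b := hb
  set Cyc : Finset K := (Finset.range k).image (fun j => T^[j] b) with hCyc
  have hmem : ∀ j, T^[j] b ∈ Cyc := by
    intro j
    rw [hCyc, Finset.mem_image]
    exact ⟨j % k, Finset.mem_range.2 (Nat.mod_lt _ (by omega)), hper.iterate_mod_apply j⟩
  have hof : ∀ c ∈ Cyc, ∃ j, T^[j] b = c := by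
    intro c hc
    obtain ⟨j, -, hj⟩ := Finset.mem_image.1 hc
    exact ⟨j, hj⟩
  have hbC : b ∈ Cyc := hmem 0
  set P : K[X] := ∏ c ∈ Cyc, q c with hPdef
  have hq0 : ∀ c, q c ≠ 0 := by
    intro c h
    apply (hq c).2
    rw [h, eval_zero]
  have hP : P ≠ 0 := Finset.prod_ne_zero_iff.2 fun c _ => hq0 c
  refine ⟨P, hP, ?_, ?_, ?_, ?_, ?_⟩
  · intro α hα N
    induction α using OnePoint.rec with
    | infty =>
      refine (finite_not_le b).subset ?_
      rintro v ⟨⟨n, hn⟩, -⟩
      by_contra hv
      have h2 : v.valuation K b ≤ 1 := not_not.1 hv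
      rw [act_infty] at hn
      exact not_sameRed_infty h2 hn
    | coe a =>
      have hne : ∀ n, ∀ c ∈ Cyc, T^[n] a - c ≠ 0 := by
        intro n c hc h0
        obtain ⟨j, hj⟩ := hof c hc
        rw [sub_eq_zero, ← hj] at h0
        obtain ⟨i, hi⟩ : ∃ i, i + j = k * (j + 1) := by
          have : j ≤ k * (j + 1) := le_trans (Nat.le_succ j) (Nat.le_mul_of_pos_left _ (by omega))
          exact ⟨k * (j + 1) - j, by omega⟩
        apply hα (i + n)
        rw [act_coe]
        congr 1
        change T^[i + n] a = b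
        rw [Function.iterate_add_apply, h0, ← Function.iterate_add_apply, hi]
        exact (hper.mul_const (j + 1))
      refine (((((finite_not_intC f).union (finite_not_le a)).union (finite_not_le b)).union
        (Set.Finite.biUnion (Finset.finite_toSet (Finset.range (N + 1)))
          fun n _ => Set.Finite.biUnion (Finset.finite_toSet Cyc.attach)
            fun c _ => finite_lt_one (hne n c.1 c.2))).union
        (Set.Finite.biUnion (Finset.finite_toSet Cyc) fun c _ => finite_not_intC (q c))).subset ?_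
      rintro v ⟨⟨n, hn⟩, hno⟩
      by_contra hv
      rw [Set.mem_union, Set.mem_union, Set.mem_union, Set.mem_union, not_or, not_or, not_or,
        not_or] at hv
      obtain ⟨⟨⟨⟨h1, h2⟩, h3⟩, h4⟩, h5⟩ := hv
      replace h1 : IntC (v.valuation K) f := not_not.1 h1
      replace h2 : v.valuation K a ≤ 1 := not_not.1 h2
      replace h3 : v.valuation K b ≤ 1 := not_not.1 h3
      replace h4 : ∀ n, n ≤ N → ∀ c ∈ Cyc, ¬ v.valuation K (T^[n] a - c) < 1 := by
        intro n hn c hc hlt
        apply h4
        rw [Set.mem_iUnion₂]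
        refine ⟨n, by rw [Finset.coe_range]; exact Nat.lt_succ_of_le hn, ?_⟩
        rw [Set.mem_iUnion₂]
        exact ⟨⟨c, hc⟩, Finset.mem_coe.2 (Finset.mem_attach _ _), hlt⟩
      replace h5 : ∀ c ∈ Cyc, IntC (v.valuation K) (q c) := by
        intro c hc
        by_contra hcon
        apply h5
        rw [Set.mem_iUnion₂]
        exact ⟨c, Finset.mem_coe.2 hc, hcon⟩
      have hinta : ∀ n, v.valuation K (T^[n] a) ≤ 1 := fun n => ((Cong.refl h2).iterate h1 n).1
      have hintC : ∀ c ∈ Cyc, v.valuation K c ≤ 1 := by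
        intro c hc
        obtain ⟨j, rfl⟩ := hof c hc
        exact ((Cong.refl h3).iterate h1 j).1
      rw [act_coe] at hn
      have hc := sameRed_coe h3 hn
      have main : ∀ n, N ≤ n → ∀ c ∈ Cyc, Cong (v.valuation K) (T^[n] a) c →
          HasRoot v (P.comp (iterP f N)) := by
        intro n hn
        induction n, hn using Nat.le_induction with
        | base => exact fun c hc h => absurd h.2.2 (h4 N le_rfl c hc)
        | succ n hn ih =>
          intro c hc h
          obtain ⟨j, hj⟩ := hof c hc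
          -- the predecessor of `c` in the cycle
          set c' := T^[j + k - 1] b with hc'
          have hc'C : c' ∈ Cyc := hmem _
          have hTc' : f.eval c' = c := by
            change T c' = c
            rw [hc', ← Function.iterate_succ_apply' T, ← hj]
            have e1 : (j + k - 1).succ = j + k := by omega
            rw [e1, Function.iterate_add_apply]
            congr 1
          have h6 := congrArg (eval (T^[n] a)) (hq c').1
          rw [eval_sub, eval_C, hTc', eval_mul, eval_pow, eval_sub, eval_X, eval_C] at h6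
          have h7 : f.eval (T^[n] a) = T^[n + 1] a := by
            rw [Function.iterate_succ_apply']
          rw [h7] at h6
          have h8 : v.valuation K (T^[n] a - c') ≤ 1 :=
            le_trans ((v.valuation K).map_sub _ _) (max_le (hinta n) (hintC c' hc'C))
          have h9 := h.2.2
          change (v.valuation K) (T^[n + 1] a - c) < 1 at h9
          rw [h6] at h9
          rcases val_mul_lt h8 h9 with h10 | h10
          · exact ih c' hc'C ⟨hinta n, hintC c' hc'C, h10⟩
          · refine ⟨T^[n - N] a, hinta _, ?_⟩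
            rw [eval_comp, eval_iterP]
            change (v.valuation K) (P.eval (T^[N] (T^[n - N] a))) < 1
            rw [← Function.iterate_add_apply]
            have e1 : N + (n - N) = n := by omega
            rw [e1, hPdef, eval_prod]
            refine val_prod_lt _ _ _ ?_ hc'C h10
            intro c hc
            exact ((Cong.refl (hinta n)).eval (h5 c hc)).1
      by_cases hnN : n ≤ N
      · exact h4 n hnN b hbC hc.2.2
      · exact hno (main n (by omega) b hbC hc)
  · intro L _ _ _ r hr
    rw [hPdef, map_prod, Finset.prod_eq_zero_iff] at hr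
    obtain ⟨c, -, hc⟩ := hr
    refine ⟨f.eval c, ?_⟩
    have h1 := congrArg (aeval r) (hq c).1
    rw [map_sub, map_mul, hc, mul_zero, aeval_C, sub_eq_zero] at h1
    exact h1
  · intro L _ _ _ r hr
    rw [hPdef, map_prod, Finset.prod_eq_zero_iff] at hr
    obtain ⟨c, hcC, hc⟩ := hr
    have h1 := congrArg (aeval r) (hq c).1
    rw [map_sub, map_mul, hc, mul_zero, aeval_C, sub_eq_zero] at h1
    obtain ⟨j, hj⟩ := hof c hcC
    obtain ⟨i, hi⟩ : ∃ i, i + (j + 1) = k * (j + 1) := by
      have : j + 1 ≤ k * (j + 1) := Nat.le_mul_of_pos_left _ (by omega)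
      exact ⟨k * (j + 1) - (j + 1), by omega⟩
    refine ⟨b, rfl, i + 1, ?_⟩
    rw [Function.iterate_succ_apply]
    rw [h1, iterate_aeval]
    congr 1
    have h2 : f.eval c = T^[j + 1] b := by
      rw [Function.iterate_succ_apply', hj]
    rw [h2, ← Function.iterate_add_apply, hi]
    exact hper.mul_const (j + 1)
  · intro L _ _ _ r hr n hn hperr
    rw [hPdef, map_prod, Finset.prod_eq_zero_iff] at hr
    obtain ⟨c, hcC, hc⟩ := hr
    have h1 := congrArg (aeval r) (hq c).1
    rw [map_sub, map_mul, hc, mul_zero, aeval_C, sub_eq_zero] at h1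
    have h2 : Function.IsPeriodicPt (fun x : L => aeval x f) (n * k) r :=
      Function.IsPeriodicPt.mul_const hperr k
    obtain ⟨u, hu⟩ : ∃ u, n * k = u + 1 := by
      have : 0 < n * k := Nat.mul_pos (by omega) (by omega)
      exact ⟨n * k - 1, by omega⟩
    have h3 : (fun x : L => aeval x f)^[n * k] r = r := h2
    rw [hu, Function.iterate_succ_apply] at h3
    simp only [h1] at h3
    rw [iterate_aeval] at h3
    have h4 : T^[u] (f.eval c) = T^[n * k] c := by
      rw [hu, Function.iterate_succ_apply]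
    have h5 : T^[n * k] c = c := by
      obtain ⟨j, rfl⟩ := hof c hcC
      exact (hper.const_mul n).apply_iterate j
    change algebraMap K L (T^[u] (f.eval c)) = r at h3
    rw [h4, h5] at h3
    rw [← h3, aeval_algebraMap_apply_eq_algebraMap_eval] at hc
    exact (hq c).2 ((map_eq_zero _).1 hc)
  · obtain ⟨bad, hbad⟩ := bad_list (cf f ∪ cf P ∪ Cyc ∪ Cyc.image (fun c => (q c).eval c) ∪
      Cyc.biUnion (fun c => cf (q c)))
    refine ⟨bad, ?_⟩
    intro K2 _ _ _ w hoff
    have hb2 := hbad K2 w hoff
    obtain ⟨c1, c2, c3⟩ := comap_off (K := K) w hf hP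
      (fun c hc => hb2 c (by simp [hc])) (fun c hc => hb2 c (by simp [hc]))
    refine ⟨c1, c2, ?_⟩
    intro _
    obtain ⟨N0, hN0⟩ := exists_period w
    refine ⟨N0, fun N hN => ?_⟩
    rintro ⟨x, hx, hroot⟩
    rw [Polynomial.map_comp, map_iterP, eval_comp, eval_iterP, hPdef, Polynomial.map_prod,
      eval_prod] at hroot
    set g := f.map (algebraMap K K2) with hg
    set T2 : K2 → K2 := fun x => g.eval x with hT2
    set y : K2 := T2^[N] x with hy
    have hyint : w.valuation K2 y ≤ 1 := ((Cong.refl hx).iterate c3 N).1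
    have hqint : ∀ c ∈ Cyc, IntC (w.valuation K2) ((q c).map (algebraMap K K2)) := by
      intro c hc j
      rw [coeff_map]
      have := intC_of_cf ((w.valuation K2).comap (algebraMap K K2)) (q c)
        (fun a ha => hb2 a (by
          simp only [Finset.mem_union, Finset.mem_biUnion]
          exact Or.inr ⟨c, hc, ha⟩))
      exact this j
    have hCint : ∀ c ∈ Cyc, w.valuation K2 (algebraMap K K2 c) ≤ 1 := by
      intro c hc
      by_cases h0 : c = 0
      · rw [h0, map_zero, map_zero]; exact zero_le_one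
      · exact (hb2 c (by simp [hc]) h0).le
    obtain ⟨c, hc, hlt⟩ := cong_prod (w.valuation K2) Cyc
      (fun c => ((q c).map (algebraMap K K2)).eval y)
      (fun c hc => ((Cong.refl hyint).eval (hqint c hc)).1) hroot
    -- `T2 y` is congruent to the image of `c`
    have hid : g.eval y - algebraMap K K2 (f.eval c) =
        (y - algebraMap K K2 c) ^ e c * ((q c).map (algebraMap K K2)).eval y := by
      have h1 := congrArg (Polynomial.map (algebraMap K K2)) (hq c).1
      rw [Polynomial.map_sub, map_C, Polynomial.map_mul, Polynomial.map_pow, Polynomial.map_sub,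
        map_X, map_C] at h1
      have h2 := congrArg (eval y) h1
      rw [eval_sub, eval_C, eval_mul, eval_pow, eval_sub, eval_X, eval_C] at h2
      exact h2
    have hcyc1 : T c ∈ Cyc := by
      obtain ⟨j, rfl⟩ := hof c hc
      rw [← Function.iterate_succ_apply' T]
      exact hmem _
    have k1 : Cong (w.valuation K2) (T2 y) (algebraMap K K2 (T c)) := by
      refine ⟨((Cong.refl hyint).eval c3).1, hCint _ hcyc1, ?_⟩
      change w.valuation K2 (g.eval y - algebraMap K K2 (f.eval c)) < 1
      rw [hid, map_mul]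
      refine lt_of_le_of_lt (mul_le_of_le_one_left' ?_) hlt
      rw [map_pow]
      exact pow_le_one' (le_trans ((w.valuation K2).map_sub _ _) (max_le hyint (hCint c hc))) _
    obtain ⟨t, ht, hcong⟩ := hN0 g c3 x hx N hN
    have k2 : Cong (w.valuation K2) (T2^[t] y) y := by
      rw [hy, ← Function.iterate_add_apply, add_comm t N]
      exact hcong
    have k3 := Cong.iterate_mul c3 hyint k2 k
    change Cong (w.valuation K2) (T2^[t * k] y) y at k3
    obtain ⟨u, hu⟩ : ∃ u, t * k = u + 1 := by
      have : 0 < t * k := Nat.mul_pos (by omega) (by omega)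
      exact ⟨t * k - 1, by omega⟩
    have k4 := k1.iterate c3 u
    change Cong (w.valuation K2) (T2^[u] (T2 y)) (T2^[u] (algebraMap K K2 (T c))) at k4
    rw [← Function.iterate_succ_apply, iterate_map] at k4
    change Cong (w.valuation K2) (T2^[u + 1] y) (algebraMap K K2 (T^[u] (T c))) at k4
    rw [← Function.iterate_succ_apply] at k4
    change Cong (w.valuation K2) (T2^[u + 1] y) (algebraMap K K2 (T^[u + 1] c)) at k4
    rw [← hu] at k4
    have hTc : T^[t * k] c = c := by
      obtain ⟨j, rfl⟩ := hof c hc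
      have h1 : Function.IsPeriodicPt T (t * k) (T^[j] b) :=
        (hper.const_mul t).apply_iterate j
      exact h1
    rw [hTc] at k4
    have k5 : Cong (w.valuation K2) y (algebraMap K K2 c) := k3.symm.trans k4
    have k6 := k5.eval (hqint c hc)
    have k7 : ((q c).map (algebraMap K K2)).eval (algebraMap K K2 c) =
        algebraMap K K2 ((q c).eval c) := eval_map_apply _ _
    rw [k7] at k6
    have k8 : w.valuation K2 (algebraMap K K2 ((q c).eval c)) = 1 := by
      apply hb2
      · simp only [Finset.mem_union, Finset.mem_image]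
        exact Or.inl (Or.inr ⟨c, hc, rfl⟩)
      · exact (hq c).2
    have k9 : w.valuation K2 (algebraMap K K2 ((q c).eval c)) < 1 := by
      have e1 : algebraMap K K2 ((q c).eval c) = ((q c).map (algebraMap K K2)).eval y -
          (((q c).map (algebraMap K K2)).eval y - algebraMap K K2 ((q c).eval c)) := by ring
      rw [e1]
      exact (w.valuation K2).map_sub_lt hlt k6.2.2
    rw [k8] at k9
    exact lt_irrefl _ k9

theorem exists_isTarget (f : K[X]) (hf : 2 ≤ f.natDegree) (β : OnePoint K) :
    ∃ P : K[X], IsTarget f β P := by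
  induction β using OnePoint.rec with
  | infty => exact ⟨1, target_infty f⟩
  | coe b =>
    by_cases h : ∃ k : ℕ, 1 ≤ k ∧ (fun x => f.eval x)^[k] b = b
    · obtain ⟨k, hk, hb⟩ := h
      exact target_per f hf b k hk hb
    · push Not at h
      exact ⟨_, target_nonper f hf b h⟩

/-- the same with the fourth property: the roots of `P` lie over `β` -/
theorem target' (f : K[X]) (hf : 2 ≤ f.natDegree)
    (β : OnePoint K) : ∃ P : K[X], P ≠ 0 ∧
      (∀ α : OnePoint K, (∀ n, (act f)^[n] α ≠ β) → ∀ N : ℕ,
        {v : HeightOneSpectrum (𝓞 K) | (∃ n, SameRed v ((act f)^[n] α) β) ∧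
          ¬ HasRoot v (P.comp (iterP f N))}.Finite) ∧
      (∀ (L : Type u) [Field L] [NumberField L] [Algebra K L] (r : L), aeval r P = 0 →
        ∃ c : K, aeval r f = algebraMap K L c) ∧
      (∀ (L : Type u) [Field L] [NumberField L] [Algebra K L] (r : L), aeval r P = 0 →
        ∃ b : K, β = (b : OnePoint K) ∧ ∃ m : ℕ, (fun x => aeval x f)^[m] r = algebraMap K L b) ∧
      ∃ bad : Finset ℕ, ∀ (K2 : Type u) [Field K2] [NumberField K2] [Algebra K K2]
        (w : HeightOneSpectrum (𝓞 K2)), Off w bad →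
        (∀ N j, w.valuation K2 (algebraMap K K2 ((P.comp (iterP f N)).coeff j)) ≤ 1) ∧
        (∀ N, w.valuation K2 (algebraMap K K2 (P.comp (iterP f N)).leadingCoeff) = 1) ∧
        ((∀ b : K, β = (b : OnePoint K) → Wandering f b →
            NonPer w (f.map (algebraMap K K2)) (algebraMap K K2 b)) →
          ∃ N0, ∀ N, N0 ≤ N → ¬ HasRoot w ((P.comp (iterP f N)).map (algebraMap K K2))) := by
  obtain ⟨P, h1, h2, h3, h4, -, h5⟩ := exists_isTarget f hf β
  exact ⟨P, h1, h2, h3, h4, h5⟩

theorem target (f : K[X]) (hf : 2 ≤ f.natDegree)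
    (β : OnePoint K) : ∃ P : K[X], P ≠ 0 ∧
      (∀ α : OnePoint K, (∀ n, (act f)^[n] α ≠ β) → ∀ N : ℕ,
        {v : HeightOneSpectrum (𝓞 K) | (∃ n, SameRed v ((act f)^[n] α) β) ∧
          ¬ HasRoot v (P.comp (iterP f N))}.Finite) ∧
      (∀ (L : Type u) [Field L] [NumberField L] [Algebra K L] (r : L), aeval r P = 0 →
        ∃ c : K, aeval r f = algebraMap K L c) ∧
      ∃ bad : Finset ℕ, ∀ (K2 : Type u) [Field K2] [NumberField K2] [Algebra K K2]
        (w : HeightOneSpectrum (𝓞 K2)), Off w bad →
        (∀ N j, w.valuation K2 (algebraMap K K2 ((P.comp (iterP f N)).coeff j)) ≤ 1) ∧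
        (∀ N, w.valuation K2 (algebraMap K K2 (P.comp (iterP f N)).leadingCoeff) = 1) ∧
        ((∀ b : K, β = (b : OnePoint K) → Wandering f b →
            NonPer w (f.map (algebraMap K K2)) (algebraMap K K2 b)) →
          ∃ N0, ∀ N, N0 ≤ N → ¬ HasRoot w ((P.comp (iterP f N)).map (algebraMap K K2))) := by
  obtain ⟨P, h1, h2, h3, -, -, h5⟩ := exists_isTarget f hf β
  exact ⟨P, h1, h2, h3, h5⟩

end target

end Pool.Agent.ORB
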