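import Pool.Agent.ORB.Rootless
import Pool.Agent.ORB.Target
import Pool.Agent.ORB.Closure
import Pool.Agent.ORB.Exps

/-! ORB, M8: Theorem II, complex conjugation. -/

namespace Pool.Agent.ORB

open NumberField IsDedekindDomain Polynomial Filter

universe u

theorem tendsto_pos {h : ℝ[X]} (hev : Even h.natDegree) (h0 : 1 ≤ h.natDegree) (hl : 0 < h.leadingCoeff) :
    Tendsto (fun x => h.eval x) (cocompact ℝ) atTop := by
  rw [cocompact_eq_atBot_atTop, tendsto_sup]
  have hdeg : 0 < h.degree := natDegree_pos_iff_degree_pos.mp h0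
  refine ⟨?_, Polynomial.tendsto_atTop_of_leadingCoeff_nonneg h hdeg hl.le⟩
  have hX : (-X : ℝ[X]).natDegree = 1 := by rw [natDegree_neg, natDegree_X]
  have h1 : (h.comp (-X)).natDegree = h.natDegree := by
    rw [natDegree_comp, hX, mul_one]
  have h2 : (h.comp (-X)).leadingCoeff = h.leadingCoeff := by
    rw [leadingCoeff_comp (by rw [hX]; norm_num), leadingCoeff_neg, leadingCoeff_X, hev.neg_one_pow,
      mul_one]
  have h3 : Tendsto (fun x => (h.comp (-X)).eval x) atTop atTop := by
    apply Polynomial.tendsto_atTop_of_leadingCoeff_nonneg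
    · rw [← natDegree_pos_iff_degree_pos, h1]; exact h0
    · rw [h2]; exact hl.le
  have h4 := h3.comp tendsto_neg_atBot_atTop
  refine h4.congr (fun x => ?_)
  simp [eval_comp]

theorem eventual_pos {f : ℝ[X]} (hf : Even f.natDegree) (h0 : 2 ≤ f.natDegree)
    (hl : 0 < f.leadingCoeff) (hfix : ∀ x : ℝ, f.eval x ≠ x) (b : ℝ) :
    ∃ N : ℕ, ∀ x : ℝ, b < (fun y => f.eval y)^[N] x := by
  have hfc : Continuous (fun x => f.eval x) := f.continuous
  have htf := tendsto_pos hf (by omega) hl
  obtain ⟨x1, hx1⟩ := hfc.exists_forall_le htf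
  set h : ℝ[X] := f - X with hh
  have hnd : h.natDegree = f.natDegree := by
    rw [hh]
    apply natDegree_sub_eq_left_of_natDegree_lt
    rw [natDegree_X]; omega
  have hlc : h.leadingCoeff = f.leadingCoeff := by
    rw [leadingCoeff, hnd, hh, coeff_sub, coeff_X_of_ne_one (by omega), sub_zero]
    rfl
  have hth := tendsto_pos (h := h) (by rw [hnd]; exact hf) (by rw [hnd]; omega) (by rw [hlc]; exact hl)
  obtain ⟨x0, hx0⟩ := h.continuous.exists_forall_le hth
  have hne : ∀ x, h.eval x ≠ 0 := by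
    intro x hx
    rw [hh, eval_sub, eval_X, sub_eq_zero] at hx
    exact hfix x hx
  have hδ : 0 < h.eval x0 := by
    rcases lt_trichotomy (h.eval x0) 0 with h1 | h1 | h1
    · exfalso
      obtain ⟨x2, hx2⟩ := (hth.eventually (eventually_ge_atTop (0 : ℝ))).exists
      obtain ⟨x3, hx3⟩ := mem_range_of_exists_le_of_exists_ge h.continuous ⟨x0, h1.le⟩ ⟨x2, hx2⟩
      exact hne x3 hx3
    · exact absurd h1 (hne x0)
    · exact h1
  set δ := h.eval x0 with hδd
  have hstep : ∀ x, x + δ ≤ f.eval x := by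
    intro x
    have := hx0 x
    rw [hh, eval_sub, eval_X] at this
    linarith
  have hit : ∀ (n : ℕ) (x : ℝ), f.eval x1 + n * δ ≤ (fun y => f.eval y)^[n + 1] x := by
    intro n
    induction n with
    | zero =>
      intro x
      simpa using hx1 x
    | succ n ih =>
      intro x
      rw [Function.iterate_succ_apply']
      have h1 := ih x
      have h2 := hstep ((fun y => f.eval y)^[n + 1] x)
      push_cast
      linarith
  obtain ⟨n, hn⟩ := exists_nat_gt ((b - f.eval x1) / δ)
  refine ⟨n + 1, fun x => lt_of_lt_of_le ?_ (hit n x)⟩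
  rw [div_lt_iff₀ hδ] at hn
  linarith

/-- a real polynomial of even degree without real fixed points has empty eventual image -/
theorem eventual_image {f : ℝ[X]} (hf : Even f.natDegree) (h0 : 2 ≤ f.natDegree)
    (hfix : ∀ x : ℝ, f.eval x ≠ x) (b : ℝ) : ∃ N : ℕ, ∀ x : ℝ, (fun y => f.eval y)^[N] x ≠ b := by
  have hne : f.leadingCoeff ≠ 0 := by
    rw [Ne, leadingCoeff_eq_zero]
    rintro rfl
    simp at h0
  rcases lt_or_gt_of_ne hne with hl | hl
  · set g : ℝ[X] := -(f.comp (-X)) with hg
    have hX : (-X : ℝ[X]).natDegree = 1 := by rw [natDegree_neg, natDegree_X]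
    have h1 : g.natDegree = f.natDegree := by
      rw [hg, natDegree_neg, natDegree_comp, hX, mul_one]
    have h2 : g.leadingCoeff = - f.leadingCoeff := by
      rw [hg, leadingCoeff_neg, leadingCoeff_comp (by rw [hX]; norm_num), leadingCoeff_neg,
        leadingCoeff_X, hf.neg_one_pow, mul_one]
    have hev : ∀ x, g.eval x = - f.eval (-x) := by
      intro x
      simp [hg, eval_comp]
    obtain ⟨N, hN⟩ := eventual_pos (f := g) (by rw [h1]; exact hf) (by rw [h1]; exact h0)
      (by rw [h2]; linarith) (fun x hx => by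
        rw [hev] at hx
        exact hfix (-x) (by linarith)) (-b)
    have hit : ∀ (n : ℕ) (x : ℝ), (fun y => g.eval y)^[n] (-x) = - (fun y => f.eval y)^[n] x := by
      intro n
      induction n with
      | zero => intro x; rfl
      | succ n ih =>
        intro x
        rw [Function.iterate_succ_apply', Function.iterate_succ_apply', ih, hev, neg_neg]
    refine ⟨N, fun x hx => ?_⟩
    have h3 := hN (-x)
    rw [hit, hx] at h3
    exact lt_irrefl _ h3
  · obtain ⟨N, hN⟩ := eventual_pos hf h0 hl hfix b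
    exact ⟨N, fun x => (hN x).ne'⟩


theorem aeval_iterP {K L : Type*} [Field K] [Field L] [Algebra K L] (f : K[X]) (N : ℕ) (r : L) :
    aeval r (iterP f N) = (fun x => aeval x f)^[N] r := by
  unfold iterP
  induction N with
  | zero => simp
  | succ N ih =>
    rw [Function.iterate_succ_apply', Function.iterate_succ_apply', aeval_comp, ih]

theorem comp_iterP_ne_zero {K : Type*} [Field K] {P f : K[X]} (hP : P ≠ 0) (hf : 2 ≤ f.natDegree)
    (N : ℕ) : P.comp (iterP f N) ≠ 0 := by
  intro h
  rw [comp_eq_zero_iff] at h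
  rcases h with h | ⟨-, h⟩
  · exact hP h
  · have h1 := natDegree_iterP f N
    rw [h, natDegree_C] at h1
    have : 0 < f.natDegree ^ N := pow_pos (by omega) N
    omega

/-- complex conjugation on a Galois number field embedded in `ℂ` -/
theorem exists_conj {L : Type u} [Field L] [NumberField L] [IsGalois ℚ L] (ψ : L →+* ℂ) :
    ∃ σ : L ≃ₐ[ℚ] L, ∀ x, ψ (σ x) = starRingEnd ℂ (ψ x) := by
  let _ : Algebra L ℂ := ψ.toAlgebra
  have : IsScalarTower ℚ L ℂ := IsScalarTower.of_algebraMap_eq (fun x => by simp)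
  let χ : ℂ ≃ₐ[ℚ] ℂ := Complex.conjAe.restrictScalars ℚ
  refine ⟨χ.restrictNormal L, fun x => ?_⟩
  have := χ.restrictNormal_commutes L x
  exact this

/-- Theorem II: `K` has a real embedding `φ`, and no `β_i` lies in all the images `f_i^N(ℝ)` -/
theorem thmII {K : Type u} [Field K] [NumberField K] (φ : K →+* ℝ) {ι : Type} [Finite ι]
    (f : ι → K[X]) (hf : ∀ i, 2 ≤ (f i).natDegree) (α β : ι → OnePoint K)
    (hαβ : ∀ i n, (act (f i))^[n] (α i) ≠ β i)
    (hβ : ∀ i (b : K), β i = (b : OnePoint K) → ∃ N : ℕ, ∀ x : ℝ,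
      (fun y => ((f i).map φ).eval y)^[N] x ≠ φ b) :
    PosDensity (AvoidSet f α β) := by
  classical
  choose P hP hcol hfc hroot _ using fun i => target' (f i) (hf i) (β i)
  have hN : ∀ i, ∃ N : ℕ, ∀ b : K, β i = (b : OnePoint K) → ∀ x : ℝ,
      (fun y => ((f i).map φ).eval y)^[N] x ≠ φ b := by
    intro i
    by_cases h : ∃ b : K, β i = (b : OnePoint K)
    · obtain ⟨b, hb⟩ := h
      obtain ⟨N, hN⟩ := hβ i b hb
      refine ⟨N, fun b' hb' => ?_⟩
      have : b' = b := by
        rw [hb] at hb'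
        exact (OnePoint.coe_injective hb').symm
      rw [this]; exact hN
    · exact ⟨0, fun b hb => absurd ⟨b, hb⟩ h⟩
  choose N hN using hN
  set F : ι → K[X] := fun i => (P i).comp (iterP (f i) (N i)) with hF
  have hF0 : ∀ i, F i ≠ 0 := fun i => comp_iterP_ne_zero (hP i) (hf i) (N i)
  obtain ⟨L, _, _, _, hgal, hsp⟩ := exists_closure F hF0
  let _ : Algebra K ℂ := (Complex.ofRealHom.comp φ).toAlgebra
  have hKC : ∀ x : K, algebraMap K ℂ x = ((φ x : ℝ) : ℂ) := fun x => rfl
  have : Algebra.IsAlgebraic K L := by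
    have : Algebra.IsAlgebraic ℚ L := inferInstance
    exact Algebra.IsAlgebraic.tower_top (K := ℚ) K
  let ψ : L →ₐ[K] ℂ := IsAlgClosed.lift
  obtain ⟨σ, hσ⟩ := exists_conj (ψ : L →+* ℂ)
  have hψi : Function.Injective ψ := ψ.toRingHom.injective
  have hσK : ∀ x : K, σ (algebraMap K L x) = algebraMap K L x := by
    intro x
    apply hψi
    have h1 := hσ (algebraMap K L x)
    have h2 : ψ (algebraMap K L x) = ((φ x : ℝ) : ℂ) := by rw [ψ.commutes, hKC]
    change ψ (σ (algebraMap K L x)) = starRingEnd ℂ (ψ (algebraMap K L x)) at h1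
    rw [h1, h2, Complex.conj_ofReal]
  have hr : ∀ i, ∀ r : L, aeval r (F i) = 0 → σ r ≠ r := by
    intro i r hr hfix
    have h1 := hσ r
    rw [hfix] at h1
    have h1 : ψ r = starRingEnd ℂ (ψ r) := h1
    obtain ⟨x, hx⟩ := Complex.conj_eq_iff_real.mp h1.symm
    rw [hF] at hr
    simp only at hr
    rw [aeval_comp, aeval_iterP] at hr
    obtain ⟨b, hb, m, hm⟩ := hroot i L _ hr
    rw [← Function.iterate_add_apply] at hm
    have h3 : ∀ (n : ℕ), ψ ((fun x => aeval x (f i))^[n] r) =
        (((fun y => ((f i).map φ).eval y)^[n] x : ℝ) : ℂ) := by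
      intro n
      induction n with
      | zero => exact hx
      | succ n ih =>
        rw [Function.iterate_succ_apply', Function.iterate_succ_apply', ← Polynomial.aeval_algHom_apply,
          ih]
        rw [aeval_def, eval_map, ← Complex.ofRealHom_eq_coe, ← Complex.ofRealHom_eq_coe, hom_eval₂]
        rfl
    have h4 := h3 (m + N i)
    rw [hm, ψ.commutes, hKC] at h4
    have h5 : φ b = (fun y => ((f i).map φ).eval y)^[m + N i] x := by exact_mod_cast h4
    rw [add_comm, Function.iterate_add_apply] at h5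
    exact hN i b hb _ h5.symm
  have hpos := posDensity_of_rootless σ hσK F hF0 hsp hr
  refine posDensity_mono ?_ hpos
  have hfin : (⋃ i, {v : HeightOneSpectrum (𝓞 K) | (∃ n, SameRed v ((act (f i))^[n] (α i)) (β i)) ∧
      ¬ HasRoot v (F i)}).Finite :=
    Set.finite_iUnion (fun i => hcol i (α i) (hαβ i) (N i))
  refine hfin.subset ?_
  rintro v ⟨hv1, hv2⟩
  simp only [AvoidSet, Set.mem_ofPred_eq, not_forall, not_not] at hv1 hv2
  obtain ⟨i, n, hin⟩ := hv2
  rw [Set.mem_iUnion]
  exact ⟨i, ⟨n, hin⟩, hv1 i⟩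

/-- Theorem II': polynomials of even degree without real fixed points: all `α`, `β` -/
theorem thmII' {K : Type u} [Field K] [NumberField K] (φ : K →+* ℝ) {ι : Type} [Finite ι]
    (f : ι → K[X]) (hf : ∀ i, 2 ≤ (f i).natDegree) (he : ∀ i, Even (f i).natDegree)
    (hfix : ∀ i (x : ℝ), ((f i).map φ).eval x ≠ x) (α β : ι → OnePoint K)
    (hαβ : ∀ i n, (act (f i))^[n] (α i) ≠ β i) :
    PosDensity (AvoidSet f α β) := by
  refine thmII φ f hf α β hαβ (fun i b _ => ?_)
  have h1 : ((f i).map φ).natDegree = (f i).natDegree := natDegree_map φ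
  exact eventual_image (by rw [h1]; exact he i) (by rw [h1]; exact hf i) (hfix i) (φ b)

end Pool.Agent.ORB
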