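import Pool.Agent.ORB.RAuto
import Pool.Agent.ORB.ThmII

/-! ORB, rational functions: Theorem II, real places. -/

namespace Pool.Agent.ORB

open NumberField IsDedekindDomain Polynomial

universe u

/-- Theorem II for rational functions: `K` has a real embedding `φ`, and for each `i` there is `N` such that
every point of `f_i^N(P^1(ℝ))` whose forward orbit contains `φ(β_i)` is periodic -/
theorem rthmII {K : Type u} [Field K] [NumberField K] (φ : K →+* ℝ) {ι : Type} [Finite ι]
    (f : ι → RP K) (hf : ∀ i, 2 ≤ (f i).d) (α β : ι → OnePoint K)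
    (hαβ : ∀ i n, (f i).act^[n] (α i) ≠ β i)
    (hβ : ∀ i, ∃ N : ℕ, ∀ (x : OnePoint ℝ) (m : ℕ),
      ((f i).map φ).act^[m] (((f i).map φ).act^[N] x) = pmap φ (β i) →
      ∃ n : ℕ, 1 ≤ n ∧ ((f i).map φ).act^[n] (((f i).map φ).act^[N] x) = ((f i).map φ).act^[N] x) :
    PosDensity (PAvoidSet f α β) := by
  classical
  choose N hN using hβ
  refine posDensity_of_auto f hf α β hαβ N ?_
  intro L _ _ _ _
  let _ : Algebra K ℂ := (Complex.ofRealHom.comp φ).toAlgebra
  have hKC : ∀ x : K, algebraMap K ℂ x = ((φ x : ℝ) : ℂ) := fun x => rfl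
  have : Algebra.IsAlgebraic K L := by
    have : Algebra.IsAlgebraic ℚ L := inferInstance
    exact Algebra.IsAlgebraic.tower_top (K := ℚ) K
  let ψ : L →ₐ[K] ℂ := IsAlgClosed.lift
  obtain ⟨σ, hσ⟩ := exists_conj (ψ : L →+* ℂ)
  have hψi : Function.Injective ψ := ψ.toRingHom.injective
  have hσK : ∀ x : K, σ (algebraMap K L x) = algebraMap K L x := by
    intro x
    apply hψi
    have h1 := hσ (algebraMap K L x)
    have h2 : ψ (algebraMap K L x) = ((φ x : ℝ) : ℂ) := by rw [ψ.commutes, hKC]
    change ψ (σ (algebraMap K L x)) = starRingEnd ℂ (ψ (algebraMap K L x)) at h1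
    rw [h1, h2, Complex.conj_ofReal]
  refine ⟨σ, hσK, fun i x htgt hfix => ?_⟩
  -- the point `x` is real
  have hx : ∃ x0 : OnePoint ℝ, pmap (ψ : L →+* ℂ) x = pmap Complex.ofRealHom x0 := by
    induction x using OnePoint.rec with
    | infty => exact ⟨OnePoint.infty, rfl⟩
    | coe r =>
      have h0 : σ r = r := OnePoint.coe_injective hfix
      have h1 : ψ r = starRingEnd ℂ (ψ r) := by
        have := hσ r
        rw [h0] at this
        exact this
      obtain ⟨y, hy⟩ := Complex.conj_eq_iff_real.mp h1.symm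
      refine ⟨(y : OnePoint ℝ), ?_⟩
      rw [pmap_coe, pmap_coe]
      exact congrArg _ hy
  obtain ⟨x0, hx0⟩ := hx
  have hring : (ψ : L →+* ℂ).comp (algebraMap K L) = Complex.ofRealHom.comp φ := by
    ext x
    exact ψ.commutes x
  have key : ∀ n, pmap (ψ : L →+* ℂ) (((f i).map (algebraMap K L)).act^[n] x) =
      pmap Complex.ofRealHom (((f i).map φ).act^[n] x0) := by
    intro n
    rw [← RP.act_map_iterate, ← RP.act_map_iterate, RP.map_map, RP.map_map, hring, hx0]
  obtain ⟨m, hm⟩ := htgt.iterate_eq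
  have h1 : ((f i).map φ).act^[m] (((f i).map φ).act^[N i] x0) = pmap φ (β i) := by
    apply pmap_injective Complex.ofRealHom
    rw [← Function.iterate_add_apply, ← key, Function.iterate_add_apply, hm, pmap_comp, pmap_comp, hring]
  obtain ⟨n, hn1, hn⟩ := hN i x0 m h1
  apply htgt.1 n hn1
  apply pmap_injective (ψ : L →+* ℂ)
  rw [← Function.iterate_add_apply] at hn ⊢
  rw [key, key, hn]

end Pool.Agent.ORB
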