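import Pool.Agent.ORB.Target

/-! ORB, rational functions, R1: rational functions as pairs of coprime polynomials, action on
`P^1(F) = OnePoint F`, homogeneous composition, iterates, numerators of `f - c`. -/

namespace Pool.Agent.ORB

open Polynomial

universe u

section basic

variable {F : Type*} [Field F]

open Classical in
/-- the point `[x : y]` of `P^1(F) = F ∪ {∞}` -/
noncomputable def mk2 (x y : F) : OnePoint F := if y = 0 then OnePoint.infty else ((x / y : F) : OnePoint F)

theorem mk2_zero (x : F) : mk2 x 0 = OnePoint.infty := by simp [mk2]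

theorem mk2_ne {x y : F} (hy : y ≠ 0) : mk2 x y = ((x / y : F) : OnePoint F) := by simp [mk2, hy]

theorem mk2_one (x : F) : mk2 x 1 = (x : OnePoint F) := by simp [mk2]

theorem mk2_mul {x y t : F} (ht : t ≠ 0) : mk2 (t * x) (t * y) = mk2 x y := by
  by_cases hy : y = 0
  · rw [hy, mul_zero, mk2_zero, mk2_zero]
  · rw [mk2_ne hy, mk2_ne (mul_ne_zero ht hy), mul_div_mul_left _ _ ht]

/-- `[x : y] = [x' : y']` -/
theorem mk2_eq_iff {x y x' y' : F} (h : x ≠ 0 ∨ y ≠ 0) (h' : x' ≠ 0 ∨ y' ≠ 0) :
    mk2 x y = mk2 x' y' ↔ x * y' - x' * y = 0 := by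
  by_cases hy : y = 0
  · subst hy
    have hx : x ≠ 0 := by simpa using h
    rw [mk2_zero]
    by_cases hy' : y' = 0
    · subst hy'
      simp [mk2_zero]
    · rw [mk2_ne hy']
      constructor
      · intro h1
        exact absurd h1.symm (OnePoint.coe_ne_infty _)
      · intro h1
        rw [mul_zero, sub_zero] at h1
        rcases mul_eq_zero.1 h1 with h2 | h2
        · exact absurd h2 hx
        · exact absurd h2 hy'
  · rw [mk2_ne hy]
    by_cases hy' : y' = 0
    · subst hy'
      have hx' : x' ≠ 0 := by simpa using h'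
      rw [mk2_zero]
      constructor
      · intro h1
        exact absurd h1 (OnePoint.coe_ne_infty _)
      · intro h1
        rw [mul_zero, zero_sub, neg_eq_zero] at h1
        rcases mul_eq_zero.1 h1 with h2 | h2
        · exact absurd h2 hx'
        · exact absurd h2 hy
    · rw [mk2_ne hy', OnePoint.coe_eq_coe, div_eq_div_iff hy hy', sub_eq_zero]

/-- value of the form of degree `e` with coefficients those of `P` -/
noncomputable def hv (P : F[X]) (e : ℕ) (x y : F) : F :=
  ∑ i ∈ Finset.range (e + 1), P.coeff i * x ^ i * y ^ (e - i)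

theorem hv_zero (P : F[X]) (e : ℕ) (x : F) : hv P e x 0 = P.coeff e * x ^ e := by
  unfold hv
  rw [Finset.sum_range_succ, Nat.sub_self, pow_zero, mul_one]
  rw [Finset.sum_eq_zero, zero_add]
  intro i hi
  have : e - i ≠ 0 := by have := Finset.mem_range.1 hi; omega
  rw [zero_pow this, mul_zero]

theorem hv_ne {P : F[X]} {e : ℕ} (hP : P.natDegree ≤ e) (x : F) {y : F} (hy : y ≠ 0) :
    hv P e x y = y ^ e * P.eval (x / y) := by
  unfold hv
  rw [eval_eq_sum_range' (Nat.lt_succ_of_le hP), Finset.mul_sum]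
  refine Finset.sum_congr rfl (fun i hi => ?_)
  have hi' : i ≤ e := Nat.lt_succ_iff.1 (Finset.mem_range.1 hi)
  obtain ⟨k, rfl⟩ := Nat.exists_eq_add_of_le hi'
  rw [Nat.add_sub_cancel_left, div_pow, pow_add]
  field_simp

theorem hv_one {P : F[X]} {e : ℕ} (hP : P.natDegree ≤ e) (x : F) : hv P e x 1 = P.eval x := by
  rw [hv_ne hP x one_ne_zero, one_pow, one_mul, div_one]

/-- homogeneous composition -/
noncomputable def hc (P : F[X]) (e : ℕ) (A B : F[X]) : F[X] :=
  ∑ i ∈ Finset.range (e + 1), C (P.coeff i) * A ^ i * B ^ (e - i)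

theorem eval_hc (P : F[X]) (e : ℕ) (A B : F[X]) (a : F) :
    (hc P e A B).eval a = hv P e (A.eval a) (B.eval a) := by
  unfold hc hv
  rw [eval_finsetSum]
  refine Finset.sum_congr rfl (fun i _ => ?_)
  rw [eval_mul, eval_mul, eval_pow, eval_pow, eval_C]

theorem map_hc {F' : Type*} [Field F'] (φ : F →+* F') (P : F[X]) (e : ℕ) (A B : F[X]) :
    (hc P e A B).map φ = hc (P.map φ) e (A.map φ) (B.map φ) := by
  unfold hc
  rw [Polynomial.map_sum]
  refine Finset.sum_congr rfl (fun i _ => ?_)
  rw [Polynomial.map_mul, Polynomial.map_mul, Polynomial.map_pow, Polynomial.map_pow, map_C, coeff_map]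

theorem hc_term_natDegree {A B : F[X]} {d : ℕ} (hA : A.natDegree ≤ d) (hB : B.natDegree ≤ d) (c : F)
    {e i : ℕ} (hi : i ≤ e) : (C c * A ^ i * B ^ (e - i)).natDegree ≤ e * d := by
  refine le_trans natDegree_mul_le ?_
  have h1 : (C c * A ^ i).natDegree ≤ i * d := by
    refine le_trans (natDegree_C_mul_le _ _) (le_trans natDegree_pow_le (Nat.mul_le_mul_left _ hA))
  have h2 : (B ^ (e - i)).natDegree ≤ (e - i) * d :=
    le_trans natDegree_pow_le (Nat.mul_le_mul_left _ hB)
  have h3 : i * d + (e - i) * d = e * d := by rw [← Nat.add_mul]; congr 1; omega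
  omega

theorem hc_natDegree (P : F[X]) (e : ℕ) {A B : F[X]} {d : ℕ} (hA : A.natDegree ≤ d)
    (hB : B.natDegree ≤ d) : (hc P e A B).natDegree ≤ e * d := by
  unfold hc
  refine natDegree_sum_le_of_forall_le _ _ (fun i hi => ?_)
  exact hc_term_natDegree hA hB _ (Nat.lt_succ_iff.1 (Finset.mem_range.1 hi))

theorem hc_coeff (P : F[X]) (e : ℕ) {A B : F[X]} {d : ℕ} (hA : A.natDegree ≤ d)
    (hB : B.natDegree ≤ d) : (hc P e A B).coeff (e * d) = hv P e (A.coeff d) (B.coeff d) := by
  unfold hc hv
  rw [finsetSum_coeff]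
  refine Finset.sum_congr rfl (fun i hi => ?_)
  have hi' : i ≤ e := Nat.lt_succ_iff.1 (Finset.mem_range.1 hi)
  have h3 : e * d = i * d + (e - i) * d := by rw [← Nat.add_mul]; congr 1; omega
  have h1 : (C (P.coeff i) * A ^ i).natDegree ≤ i * d :=
    le_trans (natDegree_C_mul_le _ _) (le_trans natDegree_pow_le (Nat.mul_le_mul_left _ hA))
  have h2 : (B ^ (e - i)).natDegree ≤ (e - i) * d :=
    le_trans natDegree_pow_le (Nat.mul_le_mul_left _ hB)
  rw [h3, coeff_mul_add_eq_of_natDegree_le h1 h2, coeff_C_mul, coeff_pow_of_natDegree_le hA,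
    coeff_pow_of_natDegree_le hB]

end basic

/-- a rational function of degree `d`, as a pair of polynomials without common zeros on `P^1` -/
structure RP (F : Type*) [Field F] where
  A : F[X]
  B : F[X]
  d : ℕ
  hA : A.natDegree ≤ d
  hB : B.natDegree ≤ d
  hcop : IsCoprime A B
  htop : A.coeff d ≠ 0 ∨ B.coeff d ≠ 0

section RP

variable {F : Type*} [Field F]

/-- action on `P^1` -/
noncomputable def RP.act (f : RP F) (x : OnePoint F) : OnePoint F :=
  OnePoint.elim x (mk2 (f.A.coeff f.d) (f.B.coeff f.d)) (fun a => mk2 (f.A.eval a) (f.B.eval a))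

theorem RP.act_coe (f : RP F) (a : F) : f.act (a : OnePoint F) = mk2 (f.A.eval a) (f.B.eval a) := rfl

theorem RP.act_infty (f : RP F) : f.act OnePoint.infty = mk2 (f.A.coeff f.d) (f.B.coeff f.d) := rfl

theorem RP.eval_ne (f : RP F) (a : F) : f.A.eval a ≠ 0 ∨ f.B.eval a ≠ 0 := by
  by_contra hcon
  push Not at hcon
  obtain ⟨U, V, h⟩ := f.hcop
  have h1 := congrArg (eval a) h
  rw [eval_add, eval_mul, eval_mul, hcon.1, hcon.2, mul_zero, mul_zero, add_zero, eval_one] at h1
  exact zero_ne_one h1

theorem RP.hv_ne_zero (f : RP F) {x y : F} (h : x ≠ 0 ∨ y ≠ 0) :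
    hv f.A f.d x y ≠ 0 ∨ hv f.B f.d x y ≠ 0 := by
  by_cases hy : y = 0
  · subst hy
    have hx : x ≠ 0 := by simpa using h
    rw [hv_zero, hv_zero]
    rcases f.htop with h1 | h1
    · exact Or.inl (mul_ne_zero h1 (pow_ne_zero _ hx))
    · exact Or.inr (mul_ne_zero h1 (pow_ne_zero _ hx))
  · rw [hv_ne f.hA x hy, hv_ne f.hB x hy]
    rcases f.eval_ne (x / y) with h1 | h1
    · exact Or.inl (mul_ne_zero (pow_ne_zero _ hy) h1)
    · exact Or.inr (mul_ne_zero (pow_ne_zero _ hy) h1)

/-- the action in homogeneous coordinates -/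
theorem RP.act_mk2 (f : RP F) {x y : F} (h : x ≠ 0 ∨ y ≠ 0) :
    f.act (mk2 x y) = mk2 (hv f.A f.d x y) (hv f.B f.d x y) := by
  by_cases hy : y = 0
  · subst hy
    have hx : x ≠ 0 := by simpa using h
    rw [mk2_zero, RP.act_infty, hv_zero, hv_zero, mul_comm _ (x ^ f.d), mul_comm _ (x ^ f.d),
      mk2_mul (pow_ne_zero _ hx)]
  · rw [mk2_ne hy, RP.act_coe, hv_ne f.hA x hy, hv_ne f.hB x hy, mk2_mul (pow_ne_zero _ hy)]

/-- base change -/
noncomputable def RP.map {F' : Type*} [Field F'] (φ : F →+* F') (f : RP F) : RP F' where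
  A := f.A.map φ
  B := f.B.map φ
  d := f.d
  hA := by rw [natDegree_map]; exact f.hA
  hB := by rw [natDegree_map]; exact f.hB
  hcop := f.hcop.map (mapRingHom φ)
  htop := by
    rw [coeff_map, coeff_map]
    rcases f.htop with h | h
    · exact Or.inl ((map_ne_zero φ).2 h)
    · exact Or.inr ((map_ne_zero φ).2 h)

/-- the map on projective lines -/
noncomputable def pmap {F F' : Type*} [Field F] [Field F'] (φ : F →+* F') : OnePoint F → OnePoint F' :=
  OnePoint.map φ

theorem pmap_coe {F' : Type*} [Field F'] (φ : F →+* F') (a : F) : pmap φ (a : OnePoint F) = ((φ a : F') : OnePoint F') := rfl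

theorem pmap_infty {F' : Type*} [Field F'] (φ : F →+* F') : pmap φ (OnePoint.infty : OnePoint F) = OnePoint.infty := rfl

theorem pmap_mk2 {F' : Type*} [Field F'] (φ : F →+* F') (x y : F) : pmap φ (mk2 x y) = mk2 (φ x) (φ y) := by
  by_cases hy : y = 0
  · rw [hy, mk2_zero, map_zero, mk2_zero, pmap_infty]
  · rw [mk2_ne hy, mk2_ne ((map_ne_zero φ).2 hy), pmap_coe, map_div₀]

theorem pmap_injective {F' : Type*} [Field F'] (φ : F →+* F') : Function.Injective (pmap φ) :=
  Option.map_injective φ.injective

theorem pmap_comp {F' F'' : Type*} [Field F'] [Field F''] (φ : F →+* F') (ψ : F' →+* F'') (x : OnePoint F) :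
    pmap ψ (pmap φ x) = pmap (ψ.comp φ) x := by
  induction x using OnePoint.rec with
  | infty => rfl
  | coe x => rfl

theorem RP.act_map {F' : Type*} [Field F'] (φ : F →+* F') (f : RP F) (x : OnePoint F) :
    (f.map φ).act (pmap φ x) = pmap φ (f.act x) := by
  induction x using OnePoint.rec with
  | infty =>
    rw [pmap_infty, RP.act_infty, RP.act_infty, pmap_mk2]
    simp only [RP.map, coeff_map]
  | coe a =>
    rw [pmap_coe, RP.act_coe, RP.act_coe, pmap_mk2]
    simp only [RP.map, eval_map_apply]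

theorem RP.act_map_iterate {F' : Type*} [Field F'] (φ : F →+* F') (f : RP F) (n : ℕ) (x : OnePoint F) :
    (f.map φ).act^[n] (pmap φ x) = pmap φ (f.act^[n] x) := by
  induction n with
  | zero => rfl
  | succ n ih => rw [Function.iterate_succ_apply', Function.iterate_succ_apply', ih, RP.act_map]

theorem RP.map_map {F' F'' : Type*} [Field F'] [Field F''] (φ : F →+* F') (ψ : F' →+* F'') (f : RP F) :
    (f.map φ).map ψ = f.map (ψ.comp φ) := by
  simp only [RP.map, Polynomial.map_map]

/-- homogeneous composition -/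
noncomputable def RP.comp (g h : RP F) : RP F where
  A := hc g.A g.d h.A h.B
  B := hc g.B g.d h.A h.B
  d := g.d * h.d
  hA := hc_natDegree _ _ h.hA h.hB
  hB := hc_natDegree _ _ h.hA h.hB
  hcop := by
    let φ := algebraMap F (AlgebraicClosure F)
    refine (Polynomial.isCoprime_iff_aeval_ne_zero_of_isAlgClosed F (AlgebraicClosure F) _ _).2 ?_
    intro a
    rw [aeval_def, aeval_def, ← eval_map, ← eval_map, map_hc, map_hc, eval_hc, eval_hc]
    have h1 := (h.map φ).eval_ne a
    exact (g.map φ).hv_ne_zero h1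
  htop := by
    rw [hc_coeff _ _ h.hA h.hB, hc_coeff _ _ h.hA h.hB]
    exact g.hv_ne_zero h.htop

theorem RP.act_comp (g h : RP F) (x : OnePoint F) : (g.comp h).act x = g.act (h.act x) := by
  induction x using OnePoint.rec with
  | infty =>
    rw [RP.act_infty, RP.act_infty, g.act_mk2 h.htop]
    simp only [RP.comp, hc_coeff _ _ h.hA h.hB]
  | coe a =>
    rw [RP.act_coe, RP.act_coe, g.act_mk2 (h.eval_ne a)]
    simp only [RP.comp, eval_hc]

theorem RP.map_comp {F' : Type*} [Field F'] (φ : F →+* F') (g h : RP F) :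
    (g.comp h).map φ = (g.map φ).comp (h.map φ) := by
  simp only [RP.comp, RP.map, map_hc]

/-- the identity -/
noncomputable def RP.one (F : Type*) [Field F] : RP F where
  A := X
  B := 1
  d := 1
  hA := natDegree_X_le
  hB := by rw [natDegree_one]; omega
  hcop := isCoprime_one_right
  htop := Or.inl (by rw [coeff_X_one]; exact one_ne_zero)

theorem RP.act_one (x : OnePoint F) : (RP.one F).act x = x := by
  induction x using OnePoint.rec with
  | infty =>
    rw [RP.act_infty]
    simp only [RP.one, coeff_X_one, coeff_one]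
    rw [if_neg (by omega), mk2_zero]
  | coe a =>
    rw [RP.act_coe]
    simp only [RP.one, eval_X, eval_one, mk2_one]

/-- iterates -/
noncomputable def RP.iter (f : RP F) : ℕ → RP F
  | 0 => RP.one F
  | (n + 1) => f.comp (RP.iter f n)

theorem RP.act_iter (f : RP F) (n : ℕ) (x : OnePoint F) : (f.iter n).act x = f.act^[n] x := by
  induction n with
  | zero => exact RP.act_one x
  | succ n ih =>
    rw [Function.iterate_succ_apply', ← ih]
    exact RP.act_comp f (f.iter n) x

theorem RP.map_iter {F' : Type*} [Field F'] (φ : F →+* F') (f : RP F) (n : ℕ) :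
    (f.iter n).map φ = (f.map φ).iter n := by
  induction n with
  | zero => simp only [RP.iter, RP.one, RP.map, map_X, Polynomial.map_one]
  | succ n ih =>
    show (f.comp (f.iter n)).map φ = (f.map φ).comp ((f.map φ).iter n)
    rw [RP.map_comp, ih]

theorem RP.iter_d (f : RP F) (n : ℕ) : (f.iter n).d = f.d ^ n := by
  induction n with
  | zero => rfl
  | succ n ih =>
    show f.d * (f.iter n).d = _
    rw [ih, pow_succ, mul_comm]

/-- numerator of `f - c` -/
noncomputable def RP.q (f : RP F) (c : OnePoint F) : F[X] :=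
  OnePoint.elim c f.B (fun a => f.A - C a * f.B)

theorem RP.q_infty (f : RP F) : f.q OnePoint.infty = f.B := rfl

theorem RP.q_coe (f : RP F) (a : F) : f.q (a : OnePoint F) = f.A - C a * f.B := rfl

theorem RP.q_natDegree (f : RP F) (c : OnePoint F) : (f.q c).natDegree ≤ f.d := by
  induction c using OnePoint.rec with
  | infty => exact f.hB
  | coe a =>
    rw [RP.q_coe]
    refine le_trans (natDegree_sub_le _ _) (max_le f.hA ?_)
    exact le_trans (natDegree_C_mul_le _ _) f.hB

theorem RP.q_root (f : RP F) (c : OnePoint F) (a : F) : (f.q c).eval a = 0 ↔ f.act (a : OnePoint F) = c := by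
  rw [RP.act_coe]
  induction c using OnePoint.rec with
  | infty =>
    rw [RP.q_infty, ← mk2_zero (1 : F), mk2_eq_iff (f.eval_ne a) (Or.inl one_ne_zero)]
    simp
  | coe b =>
    rw [RP.q_coe, ← mk2_one b, mk2_eq_iff (f.eval_ne a) (Or.inr one_ne_zero)]
    simp

theorem RP.q_top (f : RP F) (c : OnePoint F) : (f.q c).coeff f.d = 0 ↔ f.act OnePoint.infty = c := by
  rw [RP.act_infty]
  induction c using OnePoint.rec with
  | infty =>
    rw [RP.q_infty, ← mk2_zero (1 : F), mk2_eq_iff f.htop (Or.inl one_ne_zero)]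
    simp
  | coe b =>
    rw [RP.q_coe, ← mk2_one b, mk2_eq_iff f.htop (Or.inr one_ne_zero)]
    simp

theorem RP.q_ne_zero (f : RP F) (hf : 1 ≤ f.d) (c : OnePoint F) : f.q c ≠ 0 := by
  intro h
  induction c using OnePoint.rec with
  | infty =>
    rw [RP.q_infty] at h
    have h1 : IsUnit f.A := by
      have := f.hcop
      rw [h] at this
      exact isCoprime_zero_right.1 this
    have h2 : f.A.natDegree = 0 := natDegree_eq_zero_of_isUnit h1
    rcases f.htop with h3 | h3
    · exact h3 (coeff_eq_zero_of_natDegree_lt (by omega))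
    · rw [h, coeff_zero] at h3; exact h3 rfl
  | coe a =>
    rw [RP.q_coe, sub_eq_zero] at h
    have h1 : IsUnit f.B := by
      have h2 := f.hcop
      rw [h] at h2
      obtain ⟨U, V, h3⟩ := h2
      exact IsUnit.of_mul_eq_one (U * C a + V) (by rw [← h3]; ring)
    have h2 : f.B.natDegree = 0 := natDegree_eq_zero_of_isUnit h1
    rcases f.htop with h3 | h3
    · rw [h, coeff_C_mul, coeff_eq_zero_of_natDegree_lt (by omega), mul_zero] at h3
      exact h3 rfl
    · exact h3 (coeff_eq_zero_of_natDegree_lt (by omega))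

theorem RP.map_q {F' : Type*} [Field F'] (φ : F →+* F') (f : RP F) (c : OnePoint F) :
    (f.q c).map φ = (f.map φ).q (pmap φ c) := by
  induction c using OnePoint.rec with
  | infty => rfl
  | coe a =>
    rw [RP.q_coe, pmap_coe, RP.q_coe, Polynomial.map_sub, Polynomial.map_mul, map_C]
    rfl

end RP

/-- degree of a rational function -/
noncomputable def rdeg {F : Type*} [Field F] (f : RatFunc F) : ℕ := max f.num.natDegree f.denom.natDegree

/-- the pair of a rational function -/
noncomputable def RP.ofRat {F : Type*} [Field F] (f : RatFunc F) : RP F where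
  A := f.num
  B := f.denom
  d := rdeg f
  hA := le_max_left _ _
  hB := le_max_right _ _
  hcop := f.isCoprime_num_denom
  htop := by
    rcases le_total f.num.natDegree f.denom.natDegree with h | h
    · right
      have : rdeg f = f.denom.natDegree := max_eq_right h
      rw [this]
      exact leadingCoeff_ne_zero.2 f.denom_ne_zero
    · have h1 : rdeg f = f.num.natDegree := max_eq_left h
      by_cases h0 : f.num = 0
      · right
        rw [h1, h0, natDegree_zero]
        have h2 : f.denom.natDegree = 0 := by rw [h0, natDegree_zero] at h; omega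
        rw [← h2]
        exact leadingCoeff_ne_zero.2 f.denom_ne_zero
      · left
        rw [h1]
        exact leadingCoeff_ne_zero.2 h0

end Pool.Agent.ORB
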