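import Pool.Agent.ORB.Kummer
import Pool.Agent.ORB.Closure
import Pool.Agent.ORB.RPair

/-!
ORB, second kind of blocks: maps covered by a power map `u ↦ u ^ e` (power maps and Chebyshev maps).
-/

namespace Pool.Agent.ORB

open NumberField Polynomial

universe u

/-- power maps: an automorphism of the algebraic closure moving all roots of high level -/
theorem kummer_closure {K : Type u} [Field K] [NumberField K] (Ω : Type u) [Field Ω] [Algebra K Ω]
    [IsAlgClosure K Ω] {ι : Type*} [Finite ι] (d : ι → ℕ)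
    (hd : ∀ i, 2 ≤ d i) (y : ι → K) (hy0 : ∀ i, y i ≠ 0)
    (hy : ∀ i m, 1 ≤ m → y i ^ (d i ^ m) ≠ y i) :
    ∃ N0 : ℕ, ∀ N, N0 ≤ N → ∃ τ : Ω ≃ₐ[K] Ω, ∀ i (r : Ω), r ^ (d i ^ N) = algebraMap K Ω (y i) →
      τ r ≠ r := by
  have hΩ : IsAlgClosed Ω := IsAlgClosure.isAlgClosed K
  obtain ⟨N0, hN0⟩ := kummer.{u, u} d hd y hy0 hy
  refine ⟨N0, fun N hN => ?_⟩
  have hdpos : ∀ i, 0 < d i ^ N := fun i => Nat.pow_pos (by have := hd i; omega)
  obtain ⟨L, i1, i2, i3, hgal, hsp⟩ := exists_closure (fun i => (X ^ (d i ^ N) - C (y i) : K[X]))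
    (fun i => X_pow_sub_C_ne_zero (hdpos i) _)
  have hgalK : IsGalois K L := IsGalois.tower_top_of_isGalois ℚ K L
  obtain ⟨σ, hσ⟩ := hN0 N hN L hsp
  have hint : Algebra.IsAlgebraic K L := inferInstance
  let ψ : L →ₐ[K] Ω := IsAlgClosed.lift
  let _ : Algebra L Ω := ψ.toRingHom.toAlgebra
  have hst : IsScalarTower K L Ω := IsScalarTower.of_algebraMap_eq fun x => (ψ.commutes x).symm
  have hn : Normal K Ω := IsAlgClosure.normal K Ω
  refine ⟨σ.liftNormal Ω, fun i r hr hfix => ?_⟩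
  -- the root lies in `L`
  obtain ⟨s, hs⟩ : ∃ s : L, algebraMap L Ω s = r := by
    have h1 := (hsp i)
    have h2 : eval₂ (algebraMap K Ω) r (X ^ (d i ^ N) - C (y i) : K[X]) = 0 := by
      rw [eval₂_sub, eval₂_X_pow, eval₂_C, hr, sub_self]
    have h3 : ((X ^ (d i ^ N) - C (y i) : K[X]).map (algebraMap K L)) ≠ 0 :=
      Polynomial.map_ne_zero (X_pow_sub_C_ne_zero (hdpos i) _)
    have h4 : ((X ^ (d i ^ N) - C (y i) : K[X]).map (algebraMap K L)).eval₂ (algebraMap L Ω) r = 0 := by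
      rw [eval₂_map, ← IsScalarTower.algebraMap_eq K L Ω]
      exact h2
    exact h1.mem_range_of_isRoot h3 (by rw [IsRoot, eval_map]; exact h4)
  rw [← hs, AlgEquiv.liftNormal_commutes] at hfix
  refine hσ i s ?_ ((algebraMap L Ω).injective hfix)
  apply (algebraMap L Ω).injective
  rw [map_pow, hs, hr]
  exact IsScalarTower.algebraMap_apply K L Ω (y i)

section fibers

variable {Ω : Type*} [Field Ω]

theorem RP.surj [IsAlgClosed Ω] (f : RP Ω) (hf : 1 ≤ f.d) (c : OnePoint Ω) : ∃ x, f.act x = c := by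
  by_cases h : (f.q c).coeff f.d = 0
  · exact ⟨OnePoint.infty, (f.q_top c).1 h⟩
  · have h1 : (f.q c).natDegree = f.d := le_antisymm (f.q_natDegree c) (le_natDegree_of_ne_zero h)
    have h2 : (f.q c).degree ≠ 0 := by
      rw [degree_eq_natDegree (f.q_ne_zero hf c), h1]
      exact_mod_cast (by omega : f.d ≠ 0)
    obtain ⟨a, ha⟩ := IsAlgClosed.exists_root (f.q c) h2
    exact ⟨(a : OnePoint Ω), (f.q_root c a).1 ha⟩

theorem RP.finite_fiber (f : RP Ω) (hf : 1 ≤ f.d) (T : Set (OnePoint Ω)) (hT : T.Finite) :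
    {v : Ω | f.act (v : OnePoint Ω) ∈ T}.Finite := by
  have h1 : {v : Ω | f.act (v : OnePoint Ω) ∈ T} ⊆ ⋃ c ∈ T, ((f.q c).rootSet Ω) := by
    intro v hv
    rw [Set.mem_iUnion₂]
    refine ⟨_, hv, ?_⟩
    rw [mem_rootSet]
    refine ⟨f.q_ne_zero hf _, ?_⟩
    rw [coe_aeval_eq_eval]
    exact (f.q_root _ v).2 rfl
  exact (hT.biUnion fun c _ => rootSet_finite _ _).subset h1

theorem RP.inj_of_deg_one (f : RP Ω) (hf : f.d = 1) {u u' : Ω}
    (h : f.act (u : OnePoint Ω) = f.act (u' : OnePoint Ω)) : u = u' := by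
  classical
  by_contra hne
  set q := f.q (f.act (u : OnePoint Ω)) with hq
  have h0 : q ≠ 0 := f.q_ne_zero (by omega) _
  have h1 : q.natDegree ≤ 1 := by
    have := f.q_natDegree (f.act (u : OnePoint Ω))
    rw [hf] at this
    exact this
  have h2 : u ∈ q.roots.toFinset := by
    rw [Multiset.mem_toFinset, mem_roots h0]
    exact (f.q_root _ u).2 rfl
  have h3 : u' ∈ q.roots.toFinset := by
    rw [Multiset.mem_toFinset, mem_roots h0]
    exact (f.q_root _ u').2 h.symm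
  have h4 : ({u, u'} : Finset Ω) ⊆ q.roots.toFinset := by
    intro z hz
    rw [Finset.mem_insert, Finset.mem_singleton] at hz
    rcases hz with rfl | rfl
    · exact h2
    · exact h3
  have h5 := Finset.card_le_card h4
  rw [Finset.card_pair hne] at h5
  have h6 := q.roots.toFinset_card_le
  have h7 := card_roots' q
  omega

end fibers

/-- a covering of `f` by the power map `u ↦ u ^ e` -/
structure TorusData {Ω : Type*} [Field Ω] (f : RP Ω) where
  P : RP Ω
  hP : 1 ≤ P.d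
  e : ℤ
  he : 2 ≤ e.natAbs
  c : Ω
  semi : ∀ u : Ω, u ≠ 0 → f.act (P.act (u : OnePoint Ω)) = P.act ((u ^ e : Ω) : OnePoint Ω)
  per0 : ∃ m, 1 ≤ m ∧ f.act^[m] (P.act ((0 : Ω) : OnePoint Ω)) = P.act ((0 : Ω) : OnePoint Ω)
  perI : ∃ m, 1 ≤ m ∧ f.act^[m] (P.act OnePoint.infty) = P.act OnePoint.infty
  fib : ∀ u u' : Ω, u ≠ 0 → u' ≠ 0 → P.act (u : OnePoint Ω) = P.act (u' : OnePoint Ω) →
    u' = u ∨ u' = c / u
  comm : c ≠ 0 → c ^ e = c

section torus

variable {Ω : Type*} [Field Ω]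

theorem zpow_ne {u : Ω} (hu : u ≠ 0) (e : ℤ) (k : ℕ) : u ^ (e ^ k) ≠ 0 := zpow_ne_zero _ hu

theorem TorusData.iterate {f : RP Ω} (t : TorusData f) {u : Ω} (hu : u ≠ 0) (k : ℕ) :
    f.act^[k] (t.P.act (u : OnePoint Ω)) = t.P.act ((u ^ (t.e ^ k) : Ω) : OnePoint Ω) := by
  induction k with
  | zero => rw [pow_zero, zpow_one]; rfl
  | succ k ih =>
    rw [Function.iterate_succ_apply', ih, t.semi _ (zpow_ne_zero _ hu), ← zpow_mul, ← pow_succ]

/-- the image of a periodic point is periodic -/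
theorem periodic_image {X : Type*} {F : X → X} {x : X} (h : ∃ m, 1 ≤ m ∧ F^[m] x = x) (n : ℕ) :
    ∃ m, 1 ≤ m ∧ F^[m] (F^[n] x) = F^[n] x := by
  obtain ⟨m, hm, h1⟩ := h
  refine ⟨m, hm, ?_⟩
  rw [← Function.iterate_add_apply, add_comm, Function.iterate_add_apply, h1]

/-- a point over a nonperiodic point is not periodic -/
theorem TorusData.nonper {f : RP Ω} (t : TorusData f) {v : Ω} (hv : v ≠ 0)
    (h : ∀ m, 1 ≤ m → f.act^[m] (t.P.act (v : OnePoint Ω)) ≠ t.P.act (v : OnePoint Ω)) (m : ℕ)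
    (hm : 1 ≤ m) : v ^ (t.e ^ m) ≠ v := by
  intro h1
  apply h m hm
  rw [t.iterate hv, h1]

theorem TorusData.nonper_nat {f : RP Ω} (t : TorusData f) {v : Ω} (hv : v ≠ 0)
    (h : ∀ m, 1 ≤ m → f.act^[m] (t.P.act (v : OnePoint Ω)) ≠ t.P.act (v : OnePoint Ω)) (m : ℕ)
    (hm : 1 ≤ m) : v ^ (t.e.natAbs ^ m) ≠ v := by
  intro h1
  apply t.nonper hv h (2 * m) (by omega)
  have h2 : t.e ^ (2 * m) = ((t.e.natAbs ^ m * t.e.natAbs ^ m : ℕ) : ℤ) := by
    rw [pow_mul, ← Int.natAbs_sq, Nat.cast_mul, Nat.cast_pow, ← mul_pow]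
    congr 1
    ring
  rw [h2, zpow_natCast, pow_mul, h1, h1]

theorem TorusData.comm_pow {f : RP Ω} (t : TorusData f) (hc : t.c ≠ 0) (k : ℕ) : t.c ^ (t.e ^ k) = t.c := by
  induction k with
  | zero => rw [pow_zero, zpow_one]
  | succ k ih => rw [pow_succ, zpow_mul, ih, t.comm hc]

end torus

theorem RP.map_eq_self {Ω : Type*} [Field Ω] (P : RP Ω) (φ : Ω →+* Ω) (hA : ∀ j, φ (P.A.coeff j) = P.A.coeff j)
    (hB : ∀ j, φ (P.B.coeff j) = P.B.coeff j) : P.map φ = P := by
  have h1 : P.A.map φ = P.A := by ext j; rw [coeff_map]; exact hA j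
  have h2 : P.B.map φ = P.B := by ext j; rw [coeff_map]; exact hB j
  cases P
  simp only [RP.map] at *
  simp only [h1, h2]

/-- maps covered by power maps: an automorphism of the algebraic closure which moves all points of high
level over finite sets of nonperiodic points -/
theorem torus_moves {K : Type u} [Field K] [NumberField K] (Ω : Type u) [Field Ω] [Algebra K Ω]
    [IsAlgClosure K Ω] {I : Type*} [Finite I] (f : I → RP Ω) (t : ∀ i, TorusData (f i))
    (T : I → Set (OnePoint Ω)) (hT : ∀ i, (T i).Finite)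
    (hper : ∀ i, ∀ y ∈ T i, ∀ m, 1 ≤ m → (f i).act^[m] y ≠ y) :
    ∃ N0 : ℕ, ∀ N, N0 ≤ N → ∃ τ : Ω ≃ₐ[K] Ω, ∀ i (x : Ω),
      (f i).act^[N] (x : OnePoint Ω) ∈ T i → τ x ≠ x := by
  classical
  have hΩ : IsAlgClosed Ω := IsAlgClosure.isAlgClosed K
  have hcz : CharZero Ω := charZero_of_injective_algebraMap (algebraMap K Ω).injective
  set V : I → Set Ω := fun i => {v | v ≠ 0 ∧ (t i).P.act (v : OnePoint Ω) ∈ T i} with hV
  have hVf : ∀ i, (V i).Finite := fun i =>
    ((t i).P.finite_fiber (t i).hP (T i) (hT i)).subset (fun v hv => hv.2)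
  set W : I → Set Ω := fun i => {w | w ≠ 0 ∧ w ^ (t i).e ∈ V i} with hW
  have hne0 : ∀ i, (t i).e.natAbs ≠ 0 := fun i => by have := (t i).he; omega
  have hWf : ∀ i, (W i).Finite := by
    intro i
    have h1 : W i ⊆ ⋃ v ∈ V i, (((X ^ (t i).e.natAbs - C v : Polynomial Ω).rootSet Ω) ∪
        ((X ^ (t i).e.natAbs - C v⁻¹ : Polynomial Ω).rootSet Ω)) := by
      intro w hw
      rw [Set.mem_iUnion₂]
      refine ⟨_, hw.2, ?_⟩
      rcases Int.natAbs_eq (t i).e with h2 | h2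
      · left
        rw [mem_rootSet]
        refine ⟨X_pow_sub_C_ne_zero (Nat.pos_of_ne_zero (hne0 i)) _, ?_⟩
        rw [coe_aeval_eq_eval, eval_sub, eval_pow, eval_X, eval_C, sub_eq_zero]
        conv_rhs => rw [h2]
        rw [zpow_natCast]
      · right
        rw [mem_rootSet]
        refine ⟨X_pow_sub_C_ne_zero (Nat.pos_of_ne_zero (hne0 i)) _, ?_⟩
        rw [coe_aeval_eq_eval, eval_sub, eval_pow, eval_X, eval_C, sub_eq_zero]
        conv_rhs => rw [h2]
        rw [zpow_neg, zpow_natCast, inv_inv]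
    exact ((hVf i).biUnion fun v _ => (rootSet_finite _ _).union (rootSet_finite _ _)).subset h1
  set S : Set Ω := ⋃ i, (V i ∪ W i ∪ ((t i).P.A.coeffs : Set Ω) ∪ ((t i).P.B.coeffs : Set Ω)) with hS
  have hSf : S.Finite := Set.finite_iUnion fun i =>
    (((hVf i).union (hWf i)).union (Finset.finite_toSet _)).union (Finset.finite_toSet _)
  have hSfin : Finite S := hSf.to_subtype
  set K2 : IntermediateField K Ω := IntermediateField.adjoin K S with hK2
  have hfd : FiniteDimensional K K2 := IntermediateField.finiteDimensional_adjoin fun x _ =>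
    Algebra.IsIntegral.isIntegral x
  have hNF : NumberField K2 := NumberField.of_module_finite K K2
  have hcl : IsAlgClosure K2 Ω := ⟨hΩ, Algebra.IsAlgebraic.tower_top (K := K) K2⟩
  have hsub : S ⊆ K2 := IntermediateField.subset_adjoin K S
  have hVK : ∀ i, ∀ v ∈ V i, v ∈ K2 := fun i v hv =>
    hsub (Set.mem_iUnion.2 ⟨i, Or.inl (Or.inl (Or.inl hv))⟩)
  have hWK : ∀ i, ∀ v ∈ W i, v ∈ K2 := fun i v hv =>
    hsub (Set.mem_iUnion.2 ⟨i, Or.inl (Or.inl (Or.inr hv))⟩)
  have hfix : ∀ (τ : Ω ≃ₐ[K2] Ω) (x : Ω), x ∈ K2 → τ x = x := fun τ x hx => τ.commutes ⟨x, hx⟩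
  have hPmap : ∀ (τ : Ω ≃ₐ[K2] Ω) (i : I), (t i).P.map (τ : Ω →+* Ω) = (t i).P := by
    intro τ i
    apply RP.map_eq_self
    · intro j
      by_cases hj : (t i).P.A.coeff j = 0
      · rw [hj, map_zero]
      · exact hfix τ _ (hsub (Set.mem_iUnion.2 ⟨i, Or.inl (Or.inr (coeff_mem_coeffs hj))⟩))
    · intro j
      by_cases hj : (t i).P.B.coeff j = 0
      · rw [hj, map_zero]
      · exact hfix τ _ (hsub (Set.mem_iUnion.2 ⟨i, Or.inr (coeff_mem_coeffs hj)⟩))
  have hVfin : ∀ i, Finite (V i) := fun i => (hVf i).to_subtype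
  -- the roots to be moved
  set J := Σ i : I, (V i) × Bool with hJ
  have hymem : ∀ j : J, (if j.2.2 then (j.2.1 : Ω) else (j.2.1 : Ω)⁻¹) ∈ K2 := by
    intro j
    have h1 := hVK j.1 j.2.1 j.2.1.2
    split_ifs
    · exact h1
    · exact inv_mem h1
  set y : J → K2 := fun j => ⟨_, hymem j⟩ with hy
  have hVnp : ∀ i, ∀ v ∈ V i, ∀ m, 1 ≤ m → v ^ ((t i).e.natAbs ^ m) ≠ v := fun i v hv m hm =>
    (t i).nonper_nat hv.1 (hper i _ hv.2) m hm
  obtain ⟨N0, hN0⟩ := kummer_closure (K := K2) Ω (fun j : J => (t j.1).e.natAbs)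
    (fun j => (t j.1).he) y (by
      intro j h0
      have h1 : ((y j : K2) : Ω) = 0 := by rw [h0]; rfl
      have h2 : (j.2.1 : Ω) ≠ 0 := j.2.1.2.1
      simp only [hy] at h1
      split_ifs at h1
      · exact h2 h1
      · exact inv_ne_zero h2 h1) (by
      intro j m hm h0
      have h1 : ((y j : K2) : Ω) ^ ((t j.1).e.natAbs ^ m) = (y j : K2) := congrArg Subtype.val h0
      have h2 := hVnp j.1 j.2.1 j.2.1.2 m hm
      simp only [hy] at h1
      split_ifs at h1
      · exact h2 h1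
      · rw [inv_pow] at h1
        exact h2 (inv_injective h1))
  refine ⟨N0 + 1, fun N hN => ?_⟩
  obtain ⟨τ, hτ⟩ := hN0 N (by omega)
  refine ⟨τ.restrictScalars K, fun i x hx hfx => ?_⟩
  have hfx' : τ x = x := hfx
  obtain ⟨p, hp⟩ := (t i).P.surj (t i).hP (x : OnePoint Ω)
  have hxT := hx
  rw [← hp] at hxT
  have hpn : ∀ m, 1 ≤ m → (f i).act^[m] ((f i).act^[N] ((t i).P.act p)) ≠ (f i).act^[N] ((t i).P.act p) :=
    hper i _ hxT
  induction p using OnePoint.rec with
  | infty =>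
    obtain ⟨m, hm, h1⟩ := periodic_image (t i).perI N
    exact hpn m hm h1
  | coe u =>
  by_cases hu : u = 0
  · rw [hu] at hpn
    obtain ⟨m, hm, h1⟩ := periodic_image (t i).per0 N
    exact hpn m hm h1
  set e := (t i).e with he
  set v := u ^ (e ^ N) with hv
  obtain ⟨N', rfl⟩ : ∃ N', N = N' + 1 := ⟨N - 1, by omega⟩
  set w := u ^ (e ^ N') with hw
  have hu1 : ∀ k, u ^ (e ^ k) ≠ 0 := fun k => zpow_ne_zero _ hu
  have hvV : v ∈ V i := by
    refine ⟨hu1 _, ?_⟩
    rw [← (t i).iterate hu]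
    exact hxT
  have hwv : w ^ e = v := by rw [hw, hv, ← zpow_mul, ← pow_succ]
  have hwW : w ∈ W i := ⟨hu1 _, by rw [hwv]; exact hvV⟩
  have hw0 : w ≠ 0 := hu1 _
  have hv0 : v ≠ 0 := hu1 _
  -- `u` is moved
  have hτu : τ u ≠ u := by
    rcases Int.natAbs_eq (e ^ (N' + 1)) with h2 | h2
    · refine hτ ⟨i, ⟨v, hvV⟩, true⟩ u ?_
      change u ^ (e.natAbs ^ (N' + 1)) = v
      rw [hv, h2, zpow_natCast, Int.natAbs_pow]
    · refine hτ ⟨i, ⟨v, hvV⟩, false⟩ u ?_
      change u ^ (e.natAbs ^ (N' + 1)) = v⁻¹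
      rw [hv, h2, zpow_neg, zpow_natCast, Int.natAbs_pow, inv_inv]
  have hτu0 : τ u ≠ 0 := (map_ne_zero τ).2 hu
  have himg : (t i).P.act ((τ u : Ω) : OnePoint Ω) = (t i).P.act (u : OnePoint Ω) := by
    have h1 := RP.act_map (τ : Ω →+* Ω) (t i).P (u : OnePoint Ω)
    rw [hPmap τ i, hp, pmap_coe, pmap_coe] at h1
    change (t i).P.act ((τ u : Ω) : OnePoint Ω) = ((τ x : Ω) : OnePoint Ω) at h1
    rw [h1, hfx', hp]
  have hcu : τ u = (t i).c / u := by
    rcases (t i).fib u (τ u) hu hτu0 himg.symm with h1 | h1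
    · exact absurd h1 hτu
    · exact h1
  have hc0 : (t i).c ≠ 0 := by
    intro h0
    rw [h0, zero_div] at hcu
    exact hτu0 hcu
  have hsq : ∀ k, τ (u ^ (e ^ k)) = (t i).c / u ^ (e ^ k) := by
    intro k
    rw [map_zpow₀, hcu, div_zpow, (t i).comm_pow hc0]
  have hw2 : w * w = (t i).c := by
    have h1 := hsq N'
    rw [hfix τ _ (hWK i _ hwW)] at h1
    exact (eq_div_iff hw0).1 h1
  have hv2 : v * v = (t i).c := by
    have h1 := hsq (N' + 1)
    rw [hfix τ _ (hVK i _ hvV)] at h1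
    exact (eq_div_iff hv0).1 h1
  have hnp := (t i).nonper hv0 (hper i _ hvV.2)
  rcases mul_self_eq_mul_self_iff.1 (hw2.trans hv2.symm) with h1 | h1
  · apply hnp 1 le_rfl
    rw [pow_one, ← h1]
    rw [← hwv] at h1
    exact h1.symm
  · -- `w = - v`
    have h2 : v ^ e = v ∨ v ^ e = w := by
      have h3 : v = (-1) * w := by rw [h1]; ring
      have h4 : v ^ e = (-1) ^ e * v := by
        conv_lhs => rw [h3]
        rw [mul_zpow, hwv]
      rcases Int.even_or_odd e with h5 | h5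
      · left; rw [h4, h5.neg_one_zpow, one_mul]
      · right; rw [h4, h5.neg_one_zpow, h1]; ring
    rcases h2 with h3 | h3
    · apply hnp 1 le_rfl
      rw [pow_one]
      exact h3
    · apply hnp 2 (by omega)
      rw [pow_two, zpow_mul, h3, hwv]

/-- an orbit leaves a finite set of nonperiodic points -/
theorem leaves_finite {X : Type*} {F : X → X} {T : Set X} (hT : T.Finite)
    (hper : ∀ y ∈ T, ∀ m, 1 ≤ m → F^[m] y ≠ y) (x : X) : ∃ N0 : ℕ, ∀ N, N0 ≤ N → F^[N] x ∉ T := by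
  have hinj : Set.InjOn (fun n : ℕ => F^[n] x) {n : ℕ | F^[n] x ∈ T} := by
    have key : ∀ n n' : ℕ, F^[n] x ∈ T → n < n' → F^[n] x ≠ F^[n'] x := by
      intro n n' hn hlt h
      apply hper _ hn (n' - n) (by omega)
      rw [← Function.iterate_add_apply, Nat.sub_add_cancel hlt.le, h]
    intro n hn n' hn' h
    rcases lt_trichotomy n n' with h1 | h1 | h1
    · exact absurd h (key n n' hn h1)
    · exact h1
    · exact absurd h.symm (key n' n hn' h1)
  have hfin : {n : ℕ | F^[n] x ∈ T}.Finite :=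
    Set.Finite.of_injOn (f := fun n : ℕ => F^[n] x) (t := T) (fun n hn => hn) hinj hT
  obtain ⟨N0, hN0⟩ := hfin.bddAbove
  refine ⟨N0 + 1, fun N hN h => ?_⟩
  have := hN0 (show N ∈ {n : ℕ | F^[n] x ∈ T} from h)
  omega

/-- the same with points of `P^1` -/
theorem torus_moves_pt {K : Type u} [Field K] [NumberField K] (Ω : Type u) [Field Ω] [Algebra K Ω]
    [IsAlgClosure K Ω] {I : Type*} [Finite I] (f : I → RP Ω) (t : ∀ i, TorusData (f i))
    (T : I → Set (OnePoint Ω)) (hT : ∀ i, (T i).Finite)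
    (hper : ∀ i, ∀ y ∈ T i, ∀ m, 1 ≤ m → (f i).act^[m] y ≠ y) :
    ∃ N0 : ℕ, ∀ N, N0 ≤ N → ∃ τ : Ω ≃ₐ[K] Ω, ∀ i (x : OnePoint Ω),
      (f i).act^[N] x ∈ T i → pmap (τ : Ω →+* Ω) x ≠ x := by
  have := Fintype.ofFinite I
  obtain ⟨N0, hN0⟩ := torus_moves (K := K) Ω f t T hT hper
  choose N1 hN1 using fun i => leaves_finite (hT i) (hper i) OnePoint.infty
  refine ⟨max N0 (Finset.univ.sup N1), fun N hN => ?_⟩
  obtain ⟨τ, hτ⟩ := hN0 N (le_trans (le_max_left _ _) hN)
  refine ⟨τ, fun i x hx => ?_⟩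
  induction x using OnePoint.rec with
  | infty =>
    exact absurd hx (hN1 i N (le_trans (Finset.le_sup (Finset.mem_univ i)) (le_trans (le_max_right _ _) hN)))
  | coe a =>
    intro h
    rw [pmap_coe, OnePoint.coe_eq_coe] at h
    exact hτ i a hx h

section standard

/-- action of a polynomial on `P^1(F)` -/
def pact {F : Type*} [Field F] (g : Polynomial F) : OnePoint F → OnePoint F :=
  OnePoint.map (fun a => g.eval a)

theorem pact_coe {F : Type*} [Field F] (g : Polynomial F) (a : F) :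
    pact g (a : OnePoint F) = ((g.eval a : F) : OnePoint F) := rfl

theorem pact_infty {F : Type*} [Field F] (g : Polynomial F) :
    pact g (OnePoint.infty : OnePoint F) = OnePoint.infty := rfl

/-- the map `x ↦ x ^ (-d)` -/
noncomputable def invPow (F : Type*) [Field F] (d : ℕ) : RP F where
  A := 1
  B := X ^ d
  d := d
  hA := by rw [natDegree_one]; omega
  hB := by rw [natDegree_X_pow]
  hcop := isCoprime_one_left
  htop := Or.inr (by rw [coeff_X_pow_self]; exact one_ne_zero)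

/-- `f` is conjugate to `x ^ d`, `x ^ (-d)`, `T_d` or `-T_d` for some `d ≥ 2`, where `T_d` is the polynomial
with `T_d (x + 1 / x) = x ^ d + 1 / x ^ d` -/
def IsTorus {F : Type*} [Field F] (f : RP F) : Prop := ∃ (d : ℕ) (m : RP F), 2 ≤ d ∧ m.d = 1 ∧
  ((∀ x, f.act (m.act x) = m.act (pact (X ^ d) x)) ∨
   (∀ x, f.act (m.act x) = m.act ((invPow F d).act x)) ∨
   (∀ x, f.act (m.act x) = m.act (pact (dickson 1 1 d) x)) ∨
   (∀ x, f.act (m.act x) = m.act (pact (-dickson 1 1 d) x)))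

variable {Ω : Type*} [Field Ω]

theorem torus_pow (f m : RP Ω) {d : ℕ} (hd : 2 ≤ d) (hm : m.d = 1)
    (h : ∀ x, f.act (m.act x) = m.act (pact (X ^ d) x)) : Nonempty (TorusData f) := by
  refine ⟨⟨m, by omega, d, by rw [Int.natAbs_natCast]; exact hd, 0, ?_, ?_, ?_, ?_, ?_⟩⟩
  · intro u _
    rw [h, pact_coe, eval_pow, eval_X, zpow_natCast]
  · refine ⟨1, le_rfl, ?_⟩
    rw [Function.iterate_one, h, pact_coe, eval_pow, eval_X, zero_pow (by omega)]
  · refine ⟨1, le_rfl, ?_⟩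
    rw [Function.iterate_one, h, pact_infty]
  · intro u u' _ _ he
    exact Or.inl (m.inj_of_deg_one hm he).symm
  · intro h0
    exact absurd rfl h0

theorem invPow_act (d : ℕ) {u : Ω} (hu : u ≠ 0) :
    (invPow Ω d).act (u : OnePoint Ω) = (((u ^ d)⁻¹ : Ω) : OnePoint Ω) := by
  rw [RP.act_coe]
  simp only [invPow, eval_one, eval_pow, eval_X]
  rw [mk2_ne (pow_ne_zero _ hu), one_div]

theorem invPow_zero {d : ℕ} (hd : d ≠ 0) : (invPow Ω d).act ((0 : Ω) : OnePoint Ω) = OnePoint.infty := by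
  rw [RP.act_coe]
  simp only [invPow, eval_one, eval_pow, eval_X]
  rw [zero_pow hd, mk2_zero]

theorem invPow_infty {d : ℕ} (hd : d ≠ 0) :
    (invPow Ω d).act (OnePoint.infty : OnePoint Ω) = ((0 : Ω) : OnePoint Ω) := by
  rw [RP.act_infty]
  simp only [invPow, coeff_X_pow_self]
  rw [coeff_one, if_neg hd, mk2_one]

theorem torus_inv (f m : RP Ω) {d : ℕ} (hd : 2 ≤ d) (hm : m.d = 1)
    (h : ∀ x, f.act (m.act x) = m.act ((invPow Ω d).act x)) : Nonempty (TorusData f) := by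
  have hd0 : d ≠ 0 := by omega
  refine ⟨⟨m, by omega, -d, by rw [Int.natAbs_neg, Int.natAbs_natCast]; exact hd, 0, ?_, ?_, ?_, ?_, ?_⟩⟩
  · intro u hu
    rw [h, invPow_act d hu, zpow_neg, zpow_natCast]
  · refine ⟨2, by omega, ?_⟩
    change f.act (f.act _) = _
    rw [h, invPow_zero hd0, h, invPow_infty hd0]
  · refine ⟨2, by omega, ?_⟩
    change f.act (f.act _) = _
    rw [h, invPow_infty hd0, h, invPow_zero hd0]
  · intro u u' _ _ he
    exact Or.inl (m.inj_of_deg_one hm he).symm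
  · intro h0
    exact absurd rfl h0

/-- the map `u ↦ l u + 1 / (l u)` -/
noncomputable def jou (l : Ω) (hl : l ≠ 0) : RP Ω where
  A := C (l ^ 2) * X ^ 2 + 1
  B := C l * X
  d := 2
  hA := by
    refine (natDegree_add_le _ _).trans (max_le (natDegree_C_mul_X_pow_le _ _) ?_)
    rw [natDegree_one]; omega
  hB := (natDegree_C_mul_le _ _).trans (natDegree_X_le.trans (by omega))
  hcop := ⟨1, - (C l * X), by rw [C_pow]; ring⟩
  htop := Or.inl (by
    rw [coeff_add, coeff_C_mul, coeff_X_pow_self, coeff_one, if_neg (by omega), mul_one, add_zero]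
    exact pow_ne_zero _ hl)

theorem jou_act {l : Ω} (hl : l ≠ 0) {u : Ω} (hu : u ≠ 0) :
    (jou l hl).act (u : OnePoint Ω) = ((l * u + (l * u)⁻¹ : Ω) : OnePoint Ω) := by
  rw [RP.act_coe]
  simp only [jou, eval_add, eval_mul, eval_C, eval_pow, eval_X, eval_one]
  rw [mk2_ne (mul_ne_zero hl hu)]
  congr 1
  field_simp

theorem jou_zero {l : Ω} (hl : l ≠ 0) : (jou l hl).act ((0 : Ω) : OnePoint Ω) = OnePoint.infty := by
  rw [RP.act_coe]
  simp only [jou, eval_add, eval_mul, eval_C, eval_pow, eval_X, eval_one]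
  rw [mul_zero, mk2_zero]

theorem jou_infty {l : Ω} (hl : l ≠ 0) : (jou l hl).act (OnePoint.infty : OnePoint Ω) = OnePoint.infty := by
  rw [RP.act_infty]
  have h1 : (jou l hl).B.coeff (jou l hl).d = 0 := by
    simp only [jou]
    rw [coeff_C_mul, coeff_X, if_neg (by omega), mul_zero]
  rw [h1, mk2_zero]

theorem torus_cheb (f m : RP Ω) {d : ℕ} (hd : 2 ≤ d) (hm : m.d = 1) (l ε : Ω) (hl : l ≠ 0)
    (hε : ε * ε = 1) (hlε : l ^ (d - 1) = ε) (g : Polynomial Ω)
    (hg : ∀ a, g.eval a = ε * (dickson 1 (1 : Ω) d).eval a)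
    (h : ∀ x, f.act (m.act x) = m.act (pact g x)) : Nonempty (TorusData f) := by
  have hε0 : ε ≠ 0 := by
    intro h0
    rw [h0, mul_zero] at hε
    exact zero_ne_one hε
  have hld : ε * l ^ d = l := by
    obtain ⟨k, rfl⟩ : ∃ k, d = k + 1 := ⟨d - 1, by omega⟩
    rw [Nat.add_sub_cancel] at hlε
    rw [pow_succ, hlε, ← mul_assoc, hε, one_mul]
  have hactP : ∀ x, (m.comp (jou l hl)).act x = m.act ((jou l hl).act x) := fun x => RP.act_comp _ _ _
  refine ⟨⟨m.comp (jou l hl), ?_, d, by rw [Int.natAbs_natCast]; exact hd, (l ^ 2)⁻¹, ?_, ?_, ?_, ?_, ?_⟩⟩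
  · change 1 ≤ m.d * 2
    rw [hm]; omega
  · intro u hu
    have hlu : l * u ≠ 0 := mul_ne_zero hl hu
    rw [hactP, hactP, h, zpow_natCast, jou_act hl hu, jou_act hl (pow_ne_zero _ hu), pact_coe, hg,
      dickson_one_one_eval_add_inv _ _ (mul_inv_cancel₀ hlu)]
    congr 2
    have h1 : ε * (l * u) ^ d = l * u ^ d := by rw [mul_pow, ← mul_assoc, hld]
    have h2 : ε * ((l * u)⁻¹) ^ d = (l * u ^ d)⁻¹ := by
      rw [← h1, inv_pow, mul_inv ε]
      congr 1
      exact eq_inv_of_mul_eq_one_left hε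
    rw [mul_add, h1, h2]
  · refine ⟨1, le_rfl, ?_⟩
    rw [Function.iterate_one, hactP, jou_zero, h, pact_infty]
  · refine ⟨1, le_rfl, ?_⟩
    rw [Function.iterate_one, hactP, jou_infty, h, pact_infty]
  · intro u u' hu hu' he
    rw [hactP, hactP, jou_act hl hu, jou_act hl hu'] at he
    have h1 := m.inj_of_deg_one hm he
    have h2 : (u' - u) * (l ^ 2 * u * u' - 1) = 0 := by
      field_simp at h1
      linear_combination (-1 : Ω) * h1
    rcases mul_eq_zero.1 h2 with h3 | h3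
    · exact Or.inl (sub_eq_zero.1 h3)
    · right
      rw [eq_div_iff hu]
      rw [eq_comm, inv_eq_iff_eq_inv]
      have h4 : u' * u ≠ 0 := mul_ne_zero hu' hu
      rw [eq_comm, inv_eq_iff_eq_inv, eq_comm]
      apply inv_eq_of_mul_eq_one_left
      linear_combination h3
  · intro _
    rw [zpow_natCast, inv_pow, ← pow_mul, mul_comm 2 d, pow_mul]
    congr 1
    have h1 : l ^ d = ε * l := by
      rw [← hld]
      rw [← mul_assoc, hε, one_mul, hld]
    rw [h1, mul_pow, pow_two ε, hε, one_mul]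

theorem IsTorus.data [IsAlgClosed Ω] {f : RP Ω} (h : IsTorus f) : Nonempty (TorusData f) := by
  obtain ⟨d, m, hd, hm, h | h | h | h⟩ := h
  · exact torus_pow f m hd hm h
  · exact torus_inv f m hd hm h
  · exact torus_cheb f m hd hm 1 1 one_ne_zero (one_mul 1) (one_pow _) _ (fun a => (one_mul _).symm) h
  · obtain ⟨l, hl⟩ := IsAlgClosed.exists_pow_nat_eq (-1 : Ω) (by omega : 0 < d - 1)
    refine torus_cheb f m hd hm l (-1) ?_ (by ring) hl _ (fun a => ?_) h
    · intro h0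
      rw [h0, zero_pow (by omega)] at hl
      exact neg_ne_zero.2 one_ne_zero hl.symm
    · rw [eval_neg]; ring

theorem pmap_pact {F F' : Type*} [Field F] [Field F'] (φ : F →+* F') (g : Polynomial F) (x : OnePoint F) :
    pmap φ (pact g x) = pact (g.map φ) (pmap φ x) := by
  induction x using OnePoint.rec with
  | infty => rfl
  | coe a => rw [pact_coe, pmap_coe, pmap_coe, pact_coe, eval_map_apply]

theorem map_invPow {F F' : Type*} [Field F] [Field F'] (φ : F →+* F') (d : ℕ) :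
    (invPow F d).map φ = invPow F' d := by
  simp only [RP.map, invPow, Polynomial.map_one, Polynomial.map_pow, map_X]

/-- transport along an isomorphism -/
theorem IsTorus.map {F F' : Type*} [Field F] [Field F'] (j : F ≃+* F') {f : RP F} (h : IsTorus f) :
    IsTorus (f.map (j : F →+* F')) := by
  have hsurj : ∀ x : OnePoint F', ∃ x0 : OnePoint F, pmap (j : F →+* F') x0 = x := by
    intro x
    induction x using OnePoint.rec with
    | infty => exact ⟨OnePoint.infty, rfl⟩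
    | coe a =>
      refine ⟨((j.symm a : F) : OnePoint F), ?_⟩
      rw [pmap_coe]
      congr 1
      exact j.apply_symm_apply a
  have key : ∀ (m : RP F) (G : OnePoint F → OnePoint F) (G' : OnePoint F' → OnePoint F'),
      (∀ x, pmap (j : F →+* F') (G x) = G' (pmap (j : F →+* F') x)) →
      (∀ x, f.act (m.act x) = m.act (G x)) →
      ∀ x, (f.map (j : F →+* F')).act ((m.map (j : F →+* F')).act x) =
        (m.map (j : F →+* F')).act (G' x) := by
    intro m G G' hG h x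
    obtain ⟨x0, rfl⟩ := hsurj x
    rw [← hG, RP.act_map, RP.act_map, RP.act_map, h]
  obtain ⟨d, m, hd, hm, h⟩ := h
  refine ⟨d, m.map (j : F →+* F'), hd, hm, ?_⟩
  rcases h with h | h | h | h
  · refine Or.inl (key m _ _ (fun x => ?_) h)
    rw [pmap_pact, Polynomial.map_pow, map_X]
  · refine Or.inr (Or.inl (key m _ _ (fun x => ?_) h))
    rw [← RP.act_map, map_invPow]
  · refine Or.inr (Or.inr (Or.inl (key m _ _ (fun x => ?_) h)))
    rw [pmap_pact, map_dickson, map_one]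
  · refine Or.inr (Or.inr (Or.inr (key m _ _ (fun x => ?_) h)))
    rw [pmap_pact, Polynomial.map_neg, map_dickson, map_one]

end standard

end Pool.Agent.ORB
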