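import Pool.Agent.ORB.RDefs
import Pool.Agent.ORB.RThmII
import Pool.Agent.ORB.Torus

/-! ORB, rational functions: Theorem II for `RatFunc`, and polynomials of even degree without real fixed
points. -/

namespace Pool.Agent.ORB

open NumberField IsDedekindDomain Polynomial

universe u

theorem ract_polynomial {K L : Type*} [Field K] [Field L] (φ : K →+* L) (p : K[X]) (hp : 1 ≤ p.natDegree) :
    ract φ (algebraMap K[X] (RatFunc K) p) = pact (p.map φ) := by
  have hd : rdeg (algebraMap K[X] (RatFunc K) p) = p.natDegree := by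
    unfold rdeg
    rw [RatFunc.num_algebraMap, RatFunc.denom_algebraMap, natDegree_one]
    exact max_eq_left (Nat.zero_le _)
  funext x
  induction x using OnePoint.rec with
  | infty =>
    rw [ract_eq, RP.act_infty, pact_infty]
    have h1 : ((RP.ofRat (algebraMap K[X] (RatFunc K) p)).map φ).B.coeff
        ((RP.ofRat (algebraMap K[X] (RatFunc K) p)).map φ).d = 0 := by
      show (((algebraMap K[X] (RatFunc K) p).denom).map φ).coeff (rdeg (algebraMap K[X] (RatFunc K) p)) = 0
      rw [hd, RatFunc.denom_algebraMap, Polynomial.map_one, coeff_one, if_neg (by omega)]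
    rw [h1, mk2_zero]
  | coe a =>
    rw [ract_eq, RP.act_coe, pact_coe]
    show mk2 (((algebraMap K[X] (RatFunc K) p).num.map φ).eval a)
      (((algebraMap K[X] (RatFunc K) p).denom.map φ).eval a) = _
    rw [RatFunc.num_algebraMap, RatFunc.denom_algebraMap, Polynomial.map_one, eval_one, mk2_one]

theorem pact_iterate_infty {F : Type*} [Field F] (g : F[X]) (n : ℕ) :
    (pact g)^[n] (OnePoint.infty : OnePoint F) = OnePoint.infty := by
  induction n with
  | zero => rfl
  | succ n ih => rw [Function.iterate_succ_apply', ih, pact_infty]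

theorem pact_iterate_coe {F : Type*} [Field F] (g : F[X]) (n : ℕ) (a : F) :
    (pact g)^[n] (a : OnePoint F) = (((fun y => g.eval y)^[n] a : F) : OnePoint F) := by
  induction n with
  | zero => rfl
  | succ n ih => rw [Function.iterate_succ_apply', ih, pact_coe, Function.iterate_succ_apply']

theorem rthmII_rat {K : Type u} [Field K] [NumberField K] (φ : K →+* ℝ) {ι : Type} [Finite ι]
    (f : ι → RatFunc K) (hf : ∀ i, 2 ≤ rdeg (f i)) (α β : ι → OnePoint K)
    (hαβ : ∀ i n, (ract (RingHom.id K) (f i))^[n] (α i) ≠ β i)
    (hβ : ∀ i, (∃ N : ℕ, ∀ (x : OnePoint ℝ) (m : ℕ), (ract φ (f i))^[m + N] x = OnePoint.map φ (β i) →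
        (ract φ (f i))^[N] x ∈ Function.periodicPts (ract φ (f i))) ∨
      (∃ p : K[X], f i = algebraMap K[X] (RatFunc K) p ∧ Even p.natDegree ∧
        ∀ x : ℝ, (p.map φ).eval x ≠ x)) :
    PosDensity (RAvoidSet f α β) := by
  have hset : RAvoidSet f α β = PAvoidSet (fun i => RP.ofRat (f i)) α β := by
    unfold RAvoidSet PAvoidSet
    simp only [ract_id]
  rw [hset]
  refine rthmII φ (fun i => RP.ofRat (f i)) hf α β (fun i n => ?_) (fun i => ?_)
  · have := hαβ i n
    rw [ract_id] at this
    exact this
  · show ∃ N : ℕ, ∀ (x : OnePoint ℝ) (m : ℕ),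
      ((RP.ofRat (f i)).map φ).act^[m] (((RP.ofRat (f i)).map φ).act^[N] x) = pmap φ (β i) →
      ∃ n : ℕ, 1 ≤ n ∧ ((RP.ofRat (f i)).map φ).act^[n] (((RP.ofRat (f i)).map φ).act^[N] x) =
        ((RP.ofRat (f i)).map φ).act^[N] x
    rw [← ract_fun_eq]
    rcases hβ i with ⟨N, hN⟩ | ⟨p, hp, he, hfix⟩
    · refine ⟨N, fun x m hx => ?_⟩
      rw [← Function.iterate_add_apply] at hx
      obtain ⟨n, hn, hper⟩ := hN x m hx
      exact ⟨n, hn, hper⟩
    · have hd : rdeg (f i) = p.natDegree := by
        rw [hp]
        unfold rdeg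
        rw [RatFunc.num_algebraMap, RatFunc.denom_algebraMap, natDegree_one]
        exact max_eq_left (Nat.zero_le _)
      have h2 : 2 ≤ p.natDegree := by rw [← hd]; exact hf i
      have h1 : (p.map φ).natDegree = p.natDegree := natDegree_map φ
      rw [hp, ract_polynomial φ p (by omega)]
      have hb : ∀ b : OnePoint K, ∃ N : ℕ, ∀ (x : OnePoint ℝ) (m : ℕ),
          (pact (p.map φ))^[m] ((pact (p.map φ))^[N] x) = pmap φ b →
          ∃ n : ℕ, 1 ≤ n ∧ (pact (p.map φ))^[n] ((pact (p.map φ))^[N] x) = (pact (p.map φ))^[N] x := by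
        intro b
        induction b using OnePoint.rec with
        | infty =>
          refine ⟨0, fun x m hx => ?_⟩
          induction x using OnePoint.rec with
          | infty => exact ⟨1, le_rfl, rfl⟩
          | coe a =>
            rw [← Function.iterate_add_apply, pact_iterate_coe] at hx
            exact absurd hx (OnePoint.coe_ne_infty _)
        | coe b =>
          obtain ⟨N, hN⟩ := eventual_image (by rw [h1]; exact he) (by rw [h1]; exact h2) hfix (φ b)
          refine ⟨N, fun x m hx => ?_⟩
          induction x using OnePoint.rec with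
          | infty =>
            rw [← Function.iterate_add_apply, pact_iterate_infty] at hx
            exact absurd hx.symm (OnePoint.coe_ne_infty _)
          | coe a =>
            rw [← Function.iterate_add_apply, add_comm, Function.iterate_add_apply, pact_iterate_coe,
              pact_iterate_coe] at hx
            exact absurd (OnePoint.coe_injective hx) (hN _)
      exact hb (β i)

end Pool.Agent.ORB
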