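import Pool.Agent.ORB.VCore
import Pool.Agent.ORB.RReal

/-!
ORB: the families of Theorem II (real places) have a core over `K`; so tuples with the extension property can be
added.
-/

namespace Pool.Agent.ORB

open NumberField IsDedekindDomain Polynomial

universe u

/-- the condition of Theorem II: every point of `f^N(P^1(ℝ))` whose forward orbit contains `φ(β)` is periodic, for
some `N` -/
def RealCond {K : Type*} [Field K] (φ : K →+* ℝ) (f : RP K) (β : OnePoint K) : Prop :=
  ∃ N : ℕ, ∀ (x : OnePoint ℝ) (m : ℕ),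
    (f.map φ).act^[m] ((f.map φ).act^[N] x) = pmap φ β →
      ∃ n : ℕ, 1 ≤ n ∧ (f.map φ).act^[n] ((f.map φ).act^[N] x) = (f.map φ).act^[N] x

theorem coreAt_real {K : Type u} [Field K] [NumberField K] (φ : K →+* ℝ) {ι : Type} [Finite ι]
    (f : ι → RP K) (hf : ∀ i, 2 ≤ (f i).d) (β : ι → OnePoint K) (hβ : ∀ i, RealCond φ (f i) (β i)) :
    CoreAt K {S : Set (HeightOneSpectrum (𝓞 K)) | ∃ α : ι → OnePoint K,
      (∀ i n, (f i).act^[n] (α i) ≠ β i) ∧ S = PAvoidSet f α β} := by
  classical
  choose N hN using hβ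
  choose F hF0 hFroot hFcol using fun i => rtarget (f i) (hf i) (β i) (N i)
  -- the automorphism
  have key : ∀ (L : Type u) [Field L] [NumberField L] [Algebra K L] [IsGalois ℚ L], ∃ σ : L ≃ₐ[ℚ] L,
      (∀ x : K, σ (algebraMap K L x) = algebraMap K L x) ∧ ∀ i (x : OnePoint L),
        IsTgt (f i) (β i) L (((f i).map (algebraMap K L)).act^[N i] x) → pmap (σ : L →+* L) x ≠ x := by
    intro L _ _ _ _
    let _ : Algebra K ℂ := (Complex.ofRealHom.comp φ).toAlgebra
    have hKC : ∀ x : K, algebraMap K ℂ x = ((φ x : ℝ) : ℂ) := fun x => rfl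
    have : Algebra.IsAlgebraic K L := by
      have : Algebra.IsAlgebraic ℚ L := inferInstance
      exact Algebra.IsAlgebraic.tower_top (K := ℚ) K
    let ψ : L →ₐ[K] ℂ := IsAlgClosed.lift
    obtain ⟨σ, hσ⟩ := exists_conj (ψ : L →+* ℂ)
    have hψi : Function.Injective ψ := ψ.toRingHom.injective
    have hσK : ∀ x : K, σ (algebraMap K L x) = algebraMap K L x := by
      intro x
      apply hψi
      have h1 := hσ (algebraMap K L x)
      have h2 : ψ (algebraMap K L x) = ((φ x : ℝ) : ℂ) := by rw [ψ.commutes, hKC]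
      change ψ (σ (algebraMap K L x)) = starRingEnd ℂ (ψ (algebraMap K L x)) at h1
      rw [h1, h2, Complex.conj_ofReal]
    refine ⟨σ, hσK, fun i x htgt hfix => ?_⟩
    -- the point `x` is real
    have hx : ∃ x0 : OnePoint ℝ, pmap (ψ : L →+* ℂ) x = pmap Complex.ofRealHom x0 := by
      induction x using OnePoint.rec with
      | infty => exact ⟨OnePoint.infty, rfl⟩
      | coe r =>
        have h0 : σ r = r := OnePoint.coe_injective hfix
        have h1 : ψ r = starRingEnd ℂ (ψ r) := by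
          have := hσ r
          rw [h0] at this
          exact this
        obtain ⟨y, hy⟩ := Complex.conj_eq_iff_real.mp h1.symm
        refine ⟨(y : OnePoint ℝ), ?_⟩
        rw [pmap_coe, pmap_coe]
        exact congrArg _ hy
    obtain ⟨x0, hx0⟩ := hx
    have hring : (ψ : L →+* ℂ).comp (algebraMap K L) = Complex.ofRealHom.comp φ := by
      ext x
      exact ψ.commutes x
    have key : ∀ n, pmap (ψ : L →+* ℂ) (((f i).map (algebraMap K L)).act^[n] x) =
        pmap Complex.ofRealHom (((f i).map φ).act^[n] x0) := by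
      intro n
      rw [← RP.act_map_iterate, ← RP.act_map_iterate, RP.map_map, RP.map_map, hring, hx0]
    obtain ⟨m, hm⟩ := htgt.iterate_eq
    have h1 : ((f i).map φ).act^[m] (((f i).map φ).act^[N i] x0) = pmap φ (β i) := by
      apply pmap_injective Complex.ofRealHom
      rw [← Function.iterate_add_apply, ← key, Function.iterate_add_apply, hm, pmap_comp, pmap_comp, hring]
    obtain ⟨n, hn1, hn⟩ := hN i x0 m h1
    apply htgt.1 n hn1
    apply pmap_injective (ψ : L →+* ℂ)
    rw [← Function.iterate_add_apply] at hn ⊢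
    rw [key, key, hn]
  have hinf : ∀ i, ¬ IsTgt (f i) (β i) K ((f i).act^[N i] OnePoint.infty) := by
    obtain ⟨L, _, _, _, hgal, hsp⟩ := exists_closure F hF0
    obtain ⟨σ, hσ, hmove⟩ := key L
    intro i hi
    rw [← isTgt_map (K := K) (L := K) (M := L), ← RP.act_map_iterate, pmap_infty] at hi
    exact hmove i OnePoint.infty hi rfl
  refine ⟨ι, inferInstance, F, hF0, ?_, ?_⟩
  · rintro S ⟨α, hα, rfl⟩
    have hfin : (⋃ i, {v : HeightOneSpectrum (𝓞 K) | (∃ n, SameRed v ((f i).act^[n] (α i)) (β i)) ∧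
        ¬ HasRoot v (F i)}).Finite :=
      Set.finite_iUnion (fun i => hFcol i (hinf i) (α i) (hα i))
    refine hfin.subset ?_
    rintro v ⟨hv1, hv2⟩
    simp only [PAvoidSet, Set.mem_ofPred_eq, not_forall, not_not] at hv1
    obtain ⟨i, n, hin⟩ := hv1
    rw [Set.mem_iUnion]
    exact ⟨i, ⟨n, hin⟩, hv2 i⟩
  · intro L _ _ a1 a2 hst _
    obtain ⟨σ, hσ, hmove⟩ := @key L _ _ a2 _
    have h12 : ∀ x : K, @algebraMap K L _ _ a1 x = @algebraMap K L _ _ a2 x := fun x =>
      (@IsScalarTower.algebraMap_apply K K L _ _ _ _ a1 a2 hst x).symm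
    refine ⟨@AlgEquiv.ofRingEquiv K L L _ _ _ a1 a1 (σ : L ≃+* L) (fun x => by
      rw [h12]
      exact hσ x), fun i r hr hfix => ?_⟩
    exact @hmove i (r : OnePoint L) (@hFroot i L _ _ a2 r hr) (by rw [pmap_coe]; exact congrArg _ hfix)

theorem PAvoidSet_rat {K : Type u} [Field K] [NumberField K] {ι : Type*} (f : ι → RatFunc K)
    (α β : ι → OnePoint K) : PAvoidSet (fun i => RP.ofRat (f i)) α β = RAvoidSet f α β := by
  unfold PAvoidSet RAvoidSet
  simp only [ract_id]

/-- families of Theorem II together with a tuple with the extension property -/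
theorem posDensity_real_extT {K : Type u} [Field K] [NumberField K] (φ : K →+* ℝ) (W : Type u) [Field W]
    [Algebra K W] [IsAlgClosed W] [Algebra.IsAlgebraic K W] {ι : Type} [Finite ι]
    (f : ι → RatFunc K) (hf : ∀ i, 2 ≤ rdeg (f i)) (α β : ι → OnePoint K)
    (hαβ : ∀ i n, (ract (RingHom.id K) (f i))^[n] (α i) ≠ β i)
    (hβ : ∀ i, RealCond φ (RP.ofRat (f i)) (β i)) {κ : Type} [Finite κ] (g : κ → RatFunc K)
    (hg : ∀ i, 2 ≤ rdeg (g i)) (α' β' : κ → OnePoint K)
    (hαβ' : ∀ i n, (ract (RingHom.id K) (g i))^[n] (α' i) ≠ β' i)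
    (h : ExtT W (fun i => RP.ofRat (g i)) β') :
    PosDensity (RAvoidSet f α β ∩ RAvoidSet g α' β') := by
  have h1 := coreAt_add (coreAt_real φ (fun i => RP.ofRat (f i)) hf β hβ) W (fun i => RP.ofRat (g i)) hg β' h
  refine h1.posDensity ⟨_, ⟨α, fun i n => ?_, rfl⟩, α', fun i n => ?_, ?_⟩
  · have := hαβ i n
    rwa [ract_id] at this
  · have := hαβ' i n
    rwa [ract_id] at this
  · rw [PAvoidSet_rat, PAvoidSet_rat]

end Pool.Agent.ORB
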