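import Pool.Agent.ORB.UUni
import Pool.Agent.ORB.VReal

/-!
ORB, Theorem V for unicritical maps, assembly (row U11), third part: the final theorem for a general condition.
-/

namespace Pool.Agent.ORB

open NumberField IsDedekindDomain Polynomial

universe u

/-- a condition on the degree `d` and the pair `(c, b)` over number fields which is stable under extension of the
field and gives the extension property for `x ^ d + c` and wandering `b` over fields containing the `d`-th roots of
unity -/
structure GoodCond (P : ∀ (L : Type u) [Field L] [NumberField L], ℕ → L → L → Prop) : Prop where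
  ext : ∀ (L L' : Type u) [Field L] [NumberField L] [Field L'] [NumberField L'] [Algebra L L'] (d : ℕ)
    (c b : L), P L d c b → P L' d (algebraMap L L' c) (algebraMap L L' b)
  extP : ∀ (L W : Type u) [Field L] [NumberField L] [Field W] [Algebra L W] [IsAlgClosed W]
    [Algebra.IsAlgebraic L W] (d : ℕ) (ζ c b : L), 1 ≤ d → IsPrimitiveRoot ζ d →
    (Function.Injective fun n : ℕ => (uf d c)^[n] b) → P L d c b → UQ.ExtP d W c b

/-- over a finite extension `K1` of `K` the map `f` is conjugate by a linear fractional map `μ` to an iterate of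
`x ^ d + c`, and the pair `(c, b)` satisfies the condition `P`, where `b` is the point which corresponds to `β` -/
def UniConj {K : Type u} [Field K] [NumberField K]
    (P : ∀ (L : Type u) [Field L] [NumberField L], ℕ → L → L → Prop) (f : RatFunc K) (β : OnePoint K) : Prop :=
  ∃ (K1 : Type u) (_ : Field K1) (_ : NumberField K1) (_ : Algebra K K1) (d : ℕ) (c : K1) (k : ℕ)
    (μ : RatFunc K1) (b : K1), 1 ≤ d ∧ 1 ≤ k ∧ rdeg μ = 1 ∧
    (∀ x : OnePoint K1, ract (algebraMap K K1) f (ract (RingHom.id K1) μ x) =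
      ract (RingHom.id K1) μ ((ract (RingHom.id K1) (RatFunc.X ^ d + RatFunc.C c))^[k] x)) ∧
    ract (RingHom.id K1) μ (b : OnePoint K1) = OnePoint.map (algebraMap K K1) β ∧ P K1 d c b

theorem iter_pre {X : Type*} (T : X → X) (x : X) {k : ℕ} (hk : 1 ≤ k)
    (h : ¬ Function.Injective fun n : ℕ => T^[n] x) : ¬ Function.Injective fun n : ℕ => (T^[k])^[n] x := by
  have key : ∃ i j : ℕ, i < j ∧ T^[i] x = T^[j] x := by
    rw [Function.Injective] at h
    push Not at h
    obtain ⟨i, j, he, hne⟩ := h
    rcases lt_or_gt_of_ne hne with hlt | hlt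
    · exact ⟨i, j, hlt, he⟩
    · exact ⟨j, i, hlt, he.symm⟩
  obtain ⟨i, j, hij, he⟩ := key
  -- periodicity from `i` on
  have hper : ∀ m n : ℕ, i ≤ n → T^[n + (j - i) * m] x = T^[n] x := by
    intro m
    induction m with
    | zero => intro n _; simp
    | succ m ih =>
      intro n hn
      have e1 : n + (j - i) * (m + 1) = (n - i) + (j + (j - i) * m) := by
        rw [Nat.mul_succ]; omega
      have e2 : n - i + (j - i) * m + i = n + (j - i) * m := by omega
      rw [e1, Function.iterate_add_apply, add_comm j, Function.iterate_add_apply _ ((j - i) * m), ← he,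
        ← Function.iterate_add_apply, ← Function.iterate_add_apply, e2, ih n hn]
  intro hinj
  have h1 : (T^[k])^[i] x = (T^[k])^[j] x := by
    rw [← Function.iterate_mul, ← Function.iterate_mul]
    have e3 : k * j = k * i + (j - i) * k := by
      have : j = i + (j - i) := by omega
      calc k * j = k * (i + (j - i)) := by rw [← this]
        _ = k * i + (j - i) * k := by ring
    rw [e3, hper k (k * i) (Nat.le_mul_of_pos_left i hk)]
  have := hinj h1
  omega

theorem datum_uni {K W : Type u} [Field K] [NumberField K] [Field W] [Algebra K W] [IsAlgClosed W]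
    [Algebra.IsAlgebraic K W] {P : ∀ (L : Type u) [Field L] [NumberField L], ℕ → L → L → Prop}
    (hP : GoodCond P) (f : RatFunc K) (β : OnePoint K)
    (hβ : Function.Injective fun n : ℕ => (RP.ofRat f).act^[n] β) (h : UniConj P f β) :
    ∃ T : Set W, T.Finite ∧ ∀ (F : Type u) [Field F] [NumberField F] [Algebra K F] [Algebra F W]
      [IsScalarTower K F W], Large T F → Datum F W (RP.ofRat f) β := by
  obtain ⟨K1, _, _, _, d, c, k, μ, b, hd, hk, hμ, hconj, hb, hPb⟩ := h
  have haK1 : Algebra.IsAlgebraic K K1 := Algebra.IsAlgebraic.tower_top (K := ℚ) K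
  have hfd : FiniteDimensional K K1 := Module.Finite.of_restrictScalars_finite ℚ K K1
  have hcz : CharZero W := charZero_of_injective_algebraMap (algebraMap K W).injective
  let ψ : K1 →ₐ[K] W := IsAlgClosed.lift
  have hNd : NeZero (d : W) := ⟨by exact_mod_cast (by omega : d ≠ 0)⟩
  obtain ⟨ζW, hζW⟩ := HasEnoughRootsOfUnity.exists_primitiveRoot W d
  refine ⟨insert ζW (Set.range fun i => ψ (Module.finBasis K K1 i)), (Set.finite_range _).insert _, ?_⟩
  intro F _ _ _ _ _ hT
  have haFW : Algebra.IsAlgebraic F W := Algebra.IsAlgebraic.tower_top (K := K) F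
  obtain ⟨φ, hφ1, hφ2⟩ := exists_hom (F := F) ψ fun t ht => hT t (Or.inr ht)
  obtain ⟨ζ, hζ⟩ := hT ζW (Or.inl rfl)
  have hζ' : IsPrimitiveRoot ζ d := by
    rw [← hζ] at hζW
    exact hζW.of_map_of_injective (algebraMap F W).injective
  let _ : Algebra K1 F := φ.toAlgebra
  have hPF : P F d (φ c) (φ b) := hP.ext K1 F d c b hPb
  set u0 : RP K1 := RP.ofRat (RatFunc.X ^ d + RatFunc.C c) with hu0
  have hu0act : ∀ {W' : Type u} [Field W'] (χ : K1 →+* W'), (u0.map χ).act = up d (χ c) := by
    intro W' _ χ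
    rw [hu0, ← ract_fun_eq, ract_uni χ hd]
  have hKW : (ψ : K1 →+* W).comp (algebraMap K K1) = algebraMap K W := RingHom.ext fun x => ψ.commutes x
  -- the conjugacy over `K1`
  have hc1 : ∀ x : OnePoint K1, ((RP.ofRat f).map (algebraMap K K1)).act ((RP.ofRat μ).act x) =
      (RP.ofRat μ).act (u0.act^[k] x) := by
    intro x
    have h1 := hconj x
    rw [ract_fun_eq, ract_id, ract_id] at h1
    exact h1
  have hc2 := conj_ext hc1 (ψ : K1 →+* W)
  rw [RP.map_map, hKW] at hc2
  have hb1 : (RP.ofRat μ).act (b : OnePoint K1) = pmap (algebraMap K K1) β := by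
    rw [← ract_id]
    exact hb
  have hWb : ((u0.map φ).map (algebraMap F W)).act = up d (algebraMap F W (φ c)) := by
    rw [RP.map_map, hu0act]
    rfl
  -- `b` is wandering
  have hwb : Function.Injective fun n : ℕ => u0.act^[n] (b : OnePoint K1) := by
    by_contra hno
    have h1 := iter_pre _ _ hk hno
    apply h1
    intro m n hmn
    apply hβ
    apply pmap_injective (algebraMap K K1)
    simp only at hmn ⊢
    rw [← RP.act_map_iterate, ← RP.act_map_iterate, ← hb1, semiconj_iterate _ _ _ hc1,
      semiconj_iterate _ _ _ hc1, hmn]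
  have hwφ : Function.Injective fun n : ℕ => (u0.map φ).act^[n] (pmap φ (b : OnePoint K1)) := by
    intro m n hmn
    apply hwb
    apply pmap_injective φ
    simp only at hmn ⊢
    rw [← RP.act_map_iterate, ← RP.act_map_iterate, hmn]
  refine ⟨u0.map φ, k, (RP.ofRat μ).map φ, pmap φ (b : OnePoint K1), ?_, hk, hμ, ?_, ?_, ?_⟩
  · show 1 ≤ rdeg (RatFunc.X ^ d + RatFunc.C c : RatFunc K1)
    rw [rdeg_uni]
    exact hd
  · rw [RP.act_map, hb1, pmap_comp, hφ2]
  · intro x
    rw [RP.map_map, RP.map_map, hφ1]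
    exact hc2 x
  · intro y hy
    obtain ⟨hy1, hy2 | ⟨⟨m, hm, hper⟩, -⟩⟩ := hy
    · refine ⟨pmap φ (b : OnePoint K1), hy2, ?_⟩
      rw [pmap_coe]
      refine extR_of_extP hWb (hP.extP F W d ζ (φ c) (φ b) hd hζ' ?_ hPF)
      intro m n hmn
      apply hwφ
      simp only at hmn ⊢
      rw [hu0act φ, pmap_coe, up_iter_coe, up_iter_coe, hmn]
    · exfalso
      have h1 : (fun n : ℕ => (u0.map φ).act^[n] (pmap φ (b : OnePoint K1))) m =
          (fun n : ℕ => (u0.map φ).act^[n] (pmap φ (b : OnePoint K1))) 0 := hper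
      have := hwφ h1
      omega

/-- the extension property over a large field for tuples of maps whose point `β i` is preperiodic or which are
unicritical up to conjugacy and iteration -/
theorem exists_extTF {K : Type u} [Field K] [NumberField K]
    {P : ∀ (L : Type u) [Field L] [NumberField L], ℕ → L → L → Prop}
    (hP : GoodCond P) {ι : Type} [Finite ι] (f : ι → RatFunc K) (hf : ∀ i, 2 ≤ rdeg (f i)) (β : ι → OnePoint K)
    (h : ∀ i, (¬ Function.Injective fun n : ℕ => (ract (RingHom.id K) (f i))^[n] (β i)) ∨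
      UniConj P (f i) (β i)) :
    ∃ (F : Type u) (_ : Field F) (_ : NumberField F) (_ : Algebra K F) (_ : Algebra F (AlgebraicClosure K)),
      IsScalarTower K F (AlgebraicClosure K) ∧
        ExtTF F (AlgebraicClosure K) (fun i => RP.ofRat (f i)) β := by
  classical
  have key : ∀ i, ∃ T : Set (AlgebraicClosure K), T.Finite ∧ ∀ (F : Type u) [Field F] [NumberField F]
      [Algebra K F] [Algebra F (AlgebraicClosure K)] [IsScalarTower K F (AlgebraicClosure K)], Large T F →
        Datum F (AlgebraicClosure K) (RP.ofRat (f i)) (β i) := by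
    intro i
    by_cases hi : Function.Injective fun n : ℕ => (RP.ofRat (f i)).act^[n] (β i)
    · refine datum_uni hP (f i) (β i) hi ((h i).resolve_left fun h1 => h1 ?_)
      rw [ract_id]
      exact hi
    · exact datum_preper (RP.ofRat (f i)) (le_trans one_le_two (hf i)) (β i) hi
  choose T hT hD using key
  obtain ⟨F, _, _, _, _, hst, -, hF⟩ := exists_gal (F := K) (W := AlgebraicClosure K) (⋃ i, T i)
    (Set.finite_iUnion hT)
  exact ⟨F, inferInstance, inferInstance, inferInstance, inferInstance, hst,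
    extTF_of_datum _ β fun i => hD i F fun t ht => hF t (Set.mem_iUnion.2 ⟨i, ht⟩)⟩

/-- **Theorem V+ with the blocks of Theorem I**, for a general condition `P`: the indices in `Q` have a preperiodic
`β i` or are unicritical up to conjugacy and iteration; the other indices are divided into blocks. -/
theorem thmU {K : Type u} [Field K] [NumberField K]
    {P : ∀ (L : Type u) [Field L] [NumberField L], ℕ → L → L → Prop} (hP : GoodCond P)
    {ι J : Type} [Finite ι] [Finite J]
    (f : ι → RatFunc K) (hf : ∀ i, 2 ≤ rdeg (f i)) (α β : ι → OnePoint K)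
    (hαβ : ∀ i n, (ract (RingHom.id K) (f i))^[n] (α i) ≠ β i) (Q : Set ι)
    (hQ : ∀ i ∈ Q, (¬ Function.Injective fun n : ℕ => (ract (RingHom.id K) (f i))^[n] (β i)) ∨
      UniConj P (f i) (β i))
    (blk : ι → J) (E : J → ℕ)
    (hE : ∀ j j', j ≠ j' → Nat.Coprime (E j) (E j')) (hexp : ∀ i, i ∉ Q → RHasExp (E (blk i)) (f i))
    (hblk : ∀ j, OrbitBlock (fun i : {i // i ∉ Q ∧ blk i = j} => f i.1)
        (fun i : {i // i ∉ Q ∧ blk i = j} => β i.1) ∨
      PrimeBlock (fun i : {i // i ∉ Q ∧ blk i = j} => f i.1)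
        (fun i : {i // i ∉ Q ∧ blk i = j} => β i.1) ∨
      ∀ i, i ∉ Q → blk i = j → TorusMap (algebraMap K (AlgebraicClosure K)) (f i)) :
    PosDensity (RAvoidSet f α β) := by
  classical
  obtain ⟨F, _, _, _, _, hst, hext⟩ := exists_extTF hP (fun i : {i // i ∈ Q} => f i.1) (fun i => hf i.1)
    (fun i => β i.1) (fun i => hQ i.1 i.2)
  have haF : Algebra.IsAlgebraic F (AlgebraicClosure K) := Algebra.IsAlgebraic.tower_top (K := K) F
  have hb : BlockCond (fun i : {i // i ∉ Q} => f i.1) (fun i => β i.1) (fun i => blk i.1) E := by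
    refine ⟨hE, fun i => hexp i.1 i.2, fun j => ?_⟩
    rcases hblk j with h | h | h
    · exact Or.inl (h.comp (fun i : {i : {i // i ∉ Q} // blk i.1 = j} => ⟨i.1.1, i.1.2, i.2⟩))
    · exact Or.inr (Or.inl (h.comp (fun i : {i : {i // i ∉ Q} // blk i.1 = j} => ⟨i.1.1, i.1.2, i.2⟩)))
    · exact Or.inr (Or.inr fun i hi => h i.1 i.2 hi)
  have h1 := posDensity_blocks_extTF F (AlgebraicClosure K) (fun i : {i // i ∉ Q} => f i.1) (fun i => hf i.1)
    (fun i => α i.1) (fun i => β i.1) (fun i => hαβ i.1) (fun i => blk i.1) E hb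
    (fun i : {i // i ∈ Q} => f i.1) (fun i => hf i.1) (fun i => α i.1) (fun i => β i.1) (fun i => hαβ i.1)
    hext
  refine posDensity_mono ?_ h1
  have hsub : (RAvoidSet (fun i : {i // i ∉ Q} => f i.1) (fun i => α i.1) (fun i => β i.1) ∩
      RAvoidSet (fun i : {i // i ∈ Q} => f i.1) (fun i => α i.1) (fun i => β i.1)) ⊆ RAvoidSet f α β := by
    rintro v ⟨hv1, hv2⟩ i n
    by_cases hi : i ∈ Q
    · exact hv2 ⟨i, hi⟩ n
    · exact hv1 ⟨i, hi⟩ n
  rw [Set.sdiff_eq_empty.2 hsub]
  exact Set.finite_empty

end Pool.Agent.ORB
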