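import Pool.Agent.ORB.GDefs
import Pool.Agent.ORB.UThm

/-!
ORB, Theorem V++: the general condition `HasDatum` on an index of the final theorem, and the condition `GenConj`.
-/

set_option autoImplicit false

namespace Pool.Agent.ORB.GP

open Polynomial NI NumberField IsDedekindDomain

universe u

/-- the pair has a datum over every large field -/
def HasDatum {K : Type u} [Field K] [NumberField K] (f : RatFunc K) (β : OnePoint K) : Prop :=
  ∃ T : Set (AlgebraicClosure K), T.Finite ∧ ∀ (F : Type u) [Field F] [NumberField F] [Algebra K F]
    [Algebra F (AlgebraicClosure K)] [IsScalarTower K F (AlgebraicClosure K)], Large T F →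
      Datum F (AlgebraicClosure K) (RP.ofRat f) β

/-- over a finite extension `K1` of `K` the map `f` is conjugate by a linear fractional map `μ` to an iterate of a
polynomial `h` of degree prime to 6 whose critical points are in general position, and the pair `(h, b)` is eventually
stable, where `b` is the point which corresponds to `β` -/
def GenConj {K : Type u} [Field K] [NumberField K] (f : RatFunc K) (β : OnePoint K) : Prop :=
  ∃ (K1 : Type u) (_ : Field K1) (_ : NumberField K1) (_ : Algebra K K1) (h : K1[X]) (k : ℕ)
    (μ : RatFunc K1) (b : K1), 2 ≤ h.natDegree ∧ Nat.Coprime h.natDegree 6 ∧ 1 ≤ k ∧ rdeg μ = 1 ∧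
    (∀ x : OnePoint K1, ract (algebraMap K K1) f (ract (RingHom.id K1) μ x) =
      ract (RingHom.id K1) μ ((ract (RingHom.id K1) (algebraMap K1[X] (RatFunc K1) h))^[k] x)) ∧
    ract (RingHom.id K1) μ (b : OnePoint K1) = OnePoint.map (algebraMap K K1) β ∧
    CritCond h (AlgebraicClosure K1) ∧ (EvStable h b ∨ LocT h b)

theorem hasDatum_uni {K : Type u} [Field K] [NumberField K]
    {P : ∀ (L : Type u) [Field L] [NumberField L], ℕ → L → L → Prop} (hP : GoodCond P) (f : RatFunc K)
    (β : OnePoint K) (hβ : Function.Injective fun n : ℕ => (ract (RingHom.id K) f)^[n] β) (h : UniConj P f β) :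
    HasDatum f β :=
  datum_uni hP f β (by rw [← ract_id]; exact hβ) h

/-- the extension property over a large field for tuples of maps whose point `β i` is preperiodic or which have a
datum over every large field -/
theorem exists_extTFD {K : Type u} [Field K] [NumberField K] {ι : Type} [Finite ι] (f : ι → RatFunc K)
    (hf : ∀ i, 2 ≤ rdeg (f i)) (β : ι → OnePoint K)
    (h : ∀ i, (¬ Function.Injective fun n : ℕ => (ract (RingHom.id K) (f i))^[n] (β i)) ∨ HasDatum (f i) (β i)) :
    ∃ (F : Type u) (_ : Field F) (_ : NumberField F) (_ : Algebra K F) (_ : Algebra F (AlgebraicClosure K)),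
      IsScalarTower K F (AlgebraicClosure K) ∧
        ExtTF F (AlgebraicClosure K) (fun i => RP.ofRat (f i)) β := by
  classical
  have key : ∀ i, HasDatum (f i) (β i) := by
    intro i
    rcases h i with hi | hi
    · refine datum_preper (RP.ofRat (f i)) (le_trans one_le_two (hf i)) (β i) ?_
      rw [ract_id] at hi
      exact hi
    · exact hi
  choose T hT hD using key
  obtain ⟨F, _, _, _, _, hst, -, hF⟩ := exists_gal (F := K) (W := AlgebraicClosure K) (⋃ i, T i)
    (Set.finite_iUnion hT)
  exact ⟨F, inferInstance, inferInstance, inferInstance, inferInstance, hst,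
    extTF_of_datum _ β fun i => hD i F fun t ht => hF t (Set.mem_iUnion.2 ⟨i, ht⟩)⟩

end Pool.Agent.ORB.GP
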