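import Pool.Agent.ORB.NRCore
import Pool.Agent.ORB.GHas

/-!
ORB, Theorem V++: the final theorem for rational functions with the general condition `HasDatum` on the indices in
`Q`, and the version with the explicit conditions (preperiodic points, unicritical maps, polynomials with critical
points in general position).
-/

set_option autoImplicit false

namespace Pool.Agent.ORB.GP

open NumberField IsDedekindDomain Polynomial NI NR

universe u

/-- **Main theorem for rational functions**, for the general condition `HasDatum`. The indices in `Q` have a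
preperiodic `β i` or a datum; for the indices in `A` there is a prime at which all `f j`, `j ∉ Q`, have good tame
reduction and modulo which `β i` is exceptional for `f i`; the other indices are divided into coprime blocks. -/
theorem thmBED0 {K : Type u} [Field K] [NumberField K]
    {ι : Type} [Finite ι] (f : ι → RatFunc K) (hf : ∀ i, 2 ≤ rdeg (f i)) (α β : ι → OnePoint K)
    (hαβ : ∀ i n, (ract (RingHom.id K) (f i))^[n] (α i) ≠ β i) (Q A : Set ι)
    (hQ : ∀ i ∈ Q, (¬ Function.Injective fun n : ℕ => (ract (RingHom.id K) (f i))^[n] (β i)) ∨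
      HasDatum (f i) (β i))
    (hA : ∀ i ∈ A, ∃ v : HeightOneSpectrum (𝓞 K), ExcMod v (f i) (β i) ∧ ∀ j, j ∉ Q → GoodTame v (f j))
    {J : Type} [Finite J] (blk : ι → J) (E : J → ℕ)
    (hE : ∀ j j', j ≠ j' → Nat.Coprime (E j) (E j'))
    (hexp : ∀ i, i ∉ Q → i ∉ A → RHasExp (E (blk i)) (f i))
    (hblk : ∀ j, OrbitBlock (fun i : {i // (i ∉ Q ∧ i ∉ A) ∧ blk i = j} => f i.1)
        (fun i : {i // (i ∉ Q ∧ i ∉ A) ∧ blk i = j} => β i.1) ∨
      PrimeBlock (fun i : {i // (i ∉ Q ∧ i ∉ A) ∧ blk i = j} => f i.1)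
        (fun i : {i // (i ∉ Q ∧ i ∉ A) ∧ blk i = j} => β i.1) ∨
      ∀ i, i ∉ Q → i ∉ A → blk i = j → TorusMap (algebraMap K (AlgebraicClosure K)) (f i)) :
    PosDensity (RAvoidSet f α β) := by
  classical
  have hprov : Provides (fun i : {i // i ∉ Q} => RP.ofRat (f i.1)) (fun i => β i.1) :=
    provides_free f hf β Q A hA blk E hE hexp hblk
  obtain ⟨F, _, _, _, _, hst, hext⟩ := exists_extTFD
    (fun i : {i // ¬ i ∉ Q} => f i.1) (fun i => hf i.1)
    (fun i => β i.1) (fun i => hQ i.1 (not_not.1 i.2))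
  have haF : Algebra.IsAlgebraic F (AlgebraicClosure K) := Algebra.IsAlgebraic.tower_top (K := K) F
  have hid : ∀ i n, (RP.ofRat (f i)).act^[n] (α i) ≠ β i := by
    intro i n
    have := hαβ i n
    rwa [ract_id] at this
  have h1 := posDensity_prov_extTF F (AlgebraicClosure K)
    (fun i : {i // i ∉ Q} => RP.ofRat (f i.1))
    (fun i => hf i.1) (fun i => α i.1) (fun i => β i.1) (fun i => hid i.1) hprov
    (fun i : {i // ¬ i ∉ Q} => RP.ofRat (f i.1)) (fun i => hf i.1) (fun i => α i.1)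
    (fun i => β i.1) (fun i => hid i.1) hext
  refine posDensity_mono ?_ h1
  have hsub : (PAvoidSet (fun i : {i // i ∉ Q} => RP.ofRat (f i.1)) (fun i => α i.1)
      (fun i => β i.1) ∩ PAvoidSet (fun i : {i // ¬ i ∉ Q} => RP.ofRat (f i.1))
        (fun i => α i.1) (fun i => β i.1)) ⊆ RAvoidSet f α β := by
    rw [← PAvoidSet_rat]
    rintro v ⟨hv1, hv2⟩ i n
    by_cases hi : i ∉ Q
    · exact hv1 ⟨i, hi⟩ n
    · exact hv2 ⟨i, hi⟩ n
  rw [Set.sdiff_eq_empty.2 hsub]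
  exact Set.finite_empty

/-- **Main theorem for rational functions**, with preperiodic `α i` as well -/
theorem thmBED {K : Type u} [Field K] [NumberField K]
    {ι : Type} [Finite ι] (f : ι → RatFunc K) (hf : ∀ i, 2 ≤ rdeg (f i)) (α β : ι → OnePoint K)
    (hαβ : ∀ i n, (ract (RingHom.id K) (f i))^[n] (α i) ≠ β i) (Q A : Set ι)
    (hQ : ∀ i ∈ Q, (¬ Function.Injective fun n : ℕ => (ract (RingHom.id K) (f i))^[n] (α i)) ∨
      (¬ Function.Injective fun n : ℕ => (ract (RingHom.id K) (f i))^[n] (β i)) ∨ HasDatum (f i) (β i))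
    (hA : ∀ i ∈ A, ∃ v : HeightOneSpectrum (𝓞 K), ExcMod v (f i) (β i) ∧ ∀ j, j ∉ Q → GoodTame v (f j))
    {J : Type} [Finite J] (blk : ι → J) (E : J → ℕ)
    (hE : ∀ j j', j ≠ j' → Nat.Coprime (E j) (E j'))
    (hexp : ∀ i, i ∉ Q → i ∉ A → RHasExp (E (blk i)) (f i))
    (hblk : ∀ j, OrbitBlock (fun i : {i // (i ∉ Q ∧ i ∉ A) ∧ blk i = j} => f i.1)
        (fun i : {i // (i ∉ Q ∧ i ∉ A) ∧ blk i = j} => β i.1) ∨
      PrimeBlock (fun i : {i // (i ∉ Q ∧ i ∉ A) ∧ blk i = j} => f i.1)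
        (fun i : {i // (i ∉ Q ∧ i ∉ A) ∧ blk i = j} => β i.1) ∨
      ∀ i, i ∉ Q → i ∉ A → blk i = j → TorusMap (algebraMap K (AlgebraicClosure K)) (f i)) :
    PosDensity (RAvoidSet f α β) := by
  classical
  set T : Set ι := {i | i ∈ Q ∧ ¬ Function.Injective fun n : ℕ => (ract (RingHom.id K) (f i))^[n] (α i)} with hTdef
  refine posDensity_drop f α β hαβ T (fun i hi => hi.2) ?_
  refine thmBED0 (fun i : {i // i ∉ T} => f i.1) (fun i => hf i.1) (fun i => α i.1) (fun i => β i.1)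
    (fun i => hαβ i.1) {i | i.1 ∈ Q} {i | i.1 ∈ A} (fun i hi => ?_)
    (fun i hi => ?_) (fun i => blk i.1) E hE
    (fun i hi1 hi2 => hexp i.1 hi1 hi2) (fun j => ?_)
  · rcases hQ i.1 hi with h | h
    · exact absurd ⟨hi, h⟩ i.2
    · exact h
  · obtain ⟨v, h1, h2⟩ := hA i.1 hi
    exact ⟨v, h1, fun j hj => h2 j.1 hj⟩
  · rcases hblk j with h | h | h
    · exact Or.inl (h.comp (fun i : {i : {i // i ∉ T} // (i ∉ {i : {i // i ∉ T} | i.1 ∈ Q} ∧
        i ∉ {i : {i // i ∉ T} | i.1 ∈ A}) ∧ blk i.1 = j} =>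
          (⟨i.1.1, i.2⟩ : {i // (i ∉ Q ∧ i ∉ A) ∧ blk i = j})))
    · exact Or.inr (Or.inl (h.comp (fun i : {i : {i // i ∉ T} // (i ∉ {i : {i // i ∉ T} | i.1 ∈ Q} ∧
        i ∉ {i : {i // i ∉ T} | i.1 ∈ A}) ∧ blk i.1 = j} =>
          (⟨i.1.1, i.2⟩ : {i // (i ∉ Q ∧ i ∉ A) ∧ blk i = j}))))
    · exact Or.inr (Or.inr fun i h1 h2 h3 => h i.1 h1 h2 h3)

/-- the core of the family of the final theorem, over a cofinal set of extensions; for all starting points -/
theorem core_freeD0 {K : Type u} [Field K] [NumberField K]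
    {ι : Type} [Finite ι] (f : ι → RatFunc K) (hf : ∀ i, 2 ≤ rdeg (f i)) (β : ι → OnePoint K) (Q A : Set ι)
    (hQ : ∀ i ∈ Q, (¬ Function.Injective fun n : ℕ => (ract (RingHom.id K) (f i))^[n] (β i)) ∨
      HasDatum (f i) (β i))
    (hA : ∀ i ∈ A, ∃ v : HeightOneSpectrum (𝓞 K), ExcMod v (f i) (β i) ∧ ∀ j, j ∉ Q → GoodTame v (f j))
    {J : Type} [Finite J] (blk : ι → J) (E : J → ℕ)
    (hE : ∀ j j', j ≠ j' → Nat.Coprime (E j) (E j'))
    (hexp : ∀ i, i ∉ Q → i ∉ A → RHasExp (E (blk i)) (f i))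
    (hblk : ∀ j, OrbitBlock (fun i : {i // (i ∉ Q ∧ i ∉ A) ∧ blk i = j} => f i.1)
        (fun i : {i // (i ∉ Q ∧ i ∉ A) ∧ blk i = j} => β i.1) ∨
      PrimeBlock (fun i : {i // (i ∉ Q ∧ i ∉ A) ∧ blk i = j} => f i.1)
        (fun i : {i // (i ∉ Q ∧ i ∉ A) ∧ blk i = j} => β i.1) ∨
      ∀ i, i ∉ Q → i ∉ A → blk i = j → TorusMap (algebraMap K (AlgebraicClosure K)) (f i))
    (K3 : Type u) [Field K3] [NumberField K3] [Algebra K K3] :
    ∃ (K4 : Type u) (_ : Field K4) (_ : NumberField K4) (_ : Algebra K K4) (_ : Algebra K3 K4)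
      (_ : IsScalarTower K K3 K4), CoreAt K4 {S : Set (HeightOneSpectrum (𝓞 K)) | ∃ α : ι → OnePoint K,
        (∀ i n, (ract (RingHom.id K) (f i))^[n] (α i) ≠ β i) ∧ S = RAvoidSet f α β} := by
  classical
  have hprov : Provides (fun i : {i // i ∉ Q} => RP.ofRat (f i.1)) (fun i => β i.1) :=
    provides_free f hf β Q A hA blk E hE hexp hblk
  obtain ⟨F, _, _, _, _, hst, hext⟩ := exists_extTFD
    (fun i : {i // ¬ i ∉ Q} => f i.1) (fun i => hf i.1)
    (fun i => β i.1) (fun i => hQ i.1 (not_not.1 i.2))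
  have haF : Algebra.IsAlgebraic F (AlgebraicClosure K) := Algebra.IsAlgebraic.tower_top (K := K) F
  obtain ⟨K4, _, _, _, _, _, h3, h4⟩ := exists_common (K := K) F (AlgebraicClosure K) K3
  refine ⟨K4, inferInstance, inferInstance, inferInstance, inferInstance, h3, ?_⟩
  have h1 := coreAt_addF (F := F) (core_iff.1 (core_of_provides1 (fun i : {i // i ∉ Q} => RP.ofRat (f i.1))
    (fun i => hf i.1) (fun i => β i.1) hprov) K4) (AlgebraicClosure K)
    (fun i : {i // ¬ i ∉ Q} => RP.ofRat (f i.1)) (fun i => hf i.1) (fun i => β i.1) hext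
  refine h1.mono ?_
  rintro S ⟨α, hα, rfl⟩
  have hid : ∀ i n, (RP.ofRat (f i)).act^[n] (α i) ≠ β i := by
    intro i n
    have := hα i n
    rwa [ract_id] at this
  refine ⟨_, ⟨_, ⟨fun i => α i.1, fun i => hid i.1, rfl⟩, fun i => α i.1, fun i => hid i.1, rfl⟩, ?_⟩
  have hsub : (PAvoidSet (fun i : {i // i ∉ Q} => RP.ofRat (f i.1)) (fun i => α i.1)
      (fun i => β i.1) ∩ PAvoidSet (fun i : {i // ¬ i ∉ Q} => RP.ofRat (f i.1))
        (fun i => α i.1) (fun i => β i.1)) ⊆ RAvoidSet f α β := by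
    rw [← PAvoidSet_rat]
    rintro v ⟨hv1, hv2⟩ i n
    by_cases hi : i ∉ Q
    · exact hv1 ⟨i, hi⟩ n
    · exact hv2 ⟨i, hi⟩ n
  rw [Set.sdiff_eq_empty.2 hsub]
  exact Set.finite_empty

/-- the same with preperiodic starting points for the indices in `T` -/
theorem core_freeD {K : Type u} [Field K] [NumberField K]
    {ι : Type} [Finite ι] (f : ι → RatFunc K) (hf : ∀ i, 2 ≤ rdeg (f i)) (β : ι → OnePoint K) (T Q A : Set ι)
    (hQ : ∀ i ∈ Q, i ∈ T ∨ (¬ Function.Injective fun n : ℕ => (ract (RingHom.id K) (f i))^[n] (β i)) ∨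
      HasDatum (f i) (β i))
    (hA : ∀ i ∈ A, ∃ v : HeightOneSpectrum (𝓞 K), ExcMod v (f i) (β i) ∧ ∀ j, j ∉ Q → GoodTame v (f j))
    {J : Type} [Finite J] (blk : ι → J) (E : J → ℕ)
    (hE : ∀ j j', j ≠ j' → Nat.Coprime (E j) (E j'))
    (hexp : ∀ i, i ∉ Q → i ∉ A → RHasExp (E (blk i)) (f i))
    (hblk : ∀ j, OrbitBlock (fun i : {i // (i ∉ Q ∧ i ∉ A) ∧ blk i = j} => f i.1)
        (fun i : {i // (i ∉ Q ∧ i ∉ A) ∧ blk i = j} => β i.1) ∨
      PrimeBlock (fun i : {i // (i ∉ Q ∧ i ∉ A) ∧ blk i = j} => f i.1)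
        (fun i : {i // (i ∉ Q ∧ i ∉ A) ∧ blk i = j} => β i.1) ∨
      ∀ i, i ∉ Q → i ∉ A → blk i = j → TorusMap (algebraMap K (AlgebraicClosure K)) (f i))
    (K3 : Type u) [Field K3] [NumberField K3] [Algebra K K3] :
    ∃ (K4 : Type u) (_ : Field K4) (_ : NumberField K4) (_ : Algebra K K4) (_ : Algebra K3 K4)
      (_ : IsScalarTower K K3 K4), CoreAt K4 {S : Set (HeightOneSpectrum (𝓞 K)) | ∃ α : ι → OnePoint K,
        (∀ i n, (ract (RingHom.id K) (f i))^[n] (α i) ≠ β i) ∧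
        (∀ i ∈ T, ¬ Function.Injective fun n : ℕ => (ract (RingHom.id K) (f i))^[n] (α i)) ∧
        S = RAvoidSet f α β} := by
  classical
  obtain ⟨K4, _, _, _, _, h3, h4⟩ := core_freeD0 (fun i : {i // i ∉ T} => f i.1)
    (fun i => hf i.1) (fun i => β i.1) {i | i.1 ∈ Q} {i | i.1 ∈ A} (fun i hi => by
      rcases hQ i.1 hi with h | h
      · exact absurd h i.2
      · exact h) (fun i hi => by
      obtain ⟨v, h1, h2⟩ := hA i.1 hi
      exact ⟨v, h1, fun j hj => h2 j.1 hj⟩) (fun i => blk i.1) E hE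
    (fun i hi1 hi2 => hexp i.1 hi1 hi2) (fun j => by
      rcases hblk j with h | h | h
      · exact Or.inl (h.comp (fun i : {i : {i // i ∉ T} // (i ∉ {i : {i // i ∉ T} | i.1 ∈ Q} ∧
          i ∉ {i : {i // i ∉ T} | i.1 ∈ A}) ∧ blk i.1 = j} =>
            (⟨i.1.1, i.2⟩ : {i // (i ∉ Q ∧ i ∉ A) ∧ blk i = j})))
      · exact Or.inr (Or.inl (h.comp (fun i : {i : {i // i ∉ T} // (i ∉ {i : {i // i ∉ T} | i.1 ∈ Q} ∧
          i ∉ {i : {i // i ∉ T} | i.1 ∈ A}) ∧ blk i.1 = j} =>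
            (⟨i.1.1, i.2⟩ : {i // (i ∉ Q ∧ i ∉ A) ∧ blk i = j}))))
      · exact Or.inr (Or.inr fun i h1 h2 h3 => h i.1 h1 h2 h3)) K3
  refine ⟨K4, inferInstance, inferInstance, inferInstance, inferInstance, h3, ?_⟩
  refine h4.mono ?_
  rintro S ⟨α, hα, hT, rfl⟩
  exact ⟨_, ⟨fun i => α i.1, fun i => hα i.1, rfl⟩, finite_drop f α β hα T hT⟩

/-- from the explicit conditions to the general condition; `hG` is the case of polynomials with critical points in
general position -/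
theorem hasDatum_alt {K : Type u} [Field K] [NumberField K]
    (hG : ∀ (f : RatFunc K) (β : OnePoint K),
      (Function.Injective fun n : ℕ => (ract (RingHom.id K) f)^[n] β) → GenConj f β → HasDatum f β)
    (f : RatFunc K) (β : OnePoint K)
    (h : (¬ Function.Injective fun n : ℕ => (ract (RingHom.id K) f)^[n] β) ∨
      UniConj (fun L _ _ d c b => UniCondY L d c b) f β ∨ GenConj f β) :
    (¬ Function.Injective fun n : ℕ => (ract (RingHom.id K) f)^[n] β) ∨ HasDatum f β := by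
  by_cases hβ : Function.Injective fun n : ℕ => (ract (RingHom.id K) f)^[n] β
  · rcases h with h | h | h
    · exact Or.inl h
    · exact Or.inr (hasDatum_uni uniCondY_good f β hβ h)
    · exact Or.inr (hG f β hβ h)
  · exact Or.inl hβ

end Pool.Agent.ORB.GP
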