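import Pool.Agent.ORB.AAThm
import Pool.Agent.ORB.GFinal

/-!
ORB, Theorem AA: the final theorems. A fixed tuple as in the main theorem, together with arbitrary rational functions
whose targets vary.
-/

namespace Pool.Agent.ORB.AA

open NumberField IsDedekindDomain Polynomial GP

universe u

/-- the targets `c k` of the maps `R k` are good, together with the fixed tuple -/
def JGood {K : Type u} [Field K] [NumberField K] {ι κ : Type} (f : ι → RatFunc K) (β : ι → OnePoint K)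
    (R : κ → RatFunc K) (c : κ → K) : Prop :=
  ∀ α : ι ⊕ κ → OnePoint K, (∀ i n, (ract (RingHom.id K) (Sum.elim f R i))^[n] (α i) ≠
    (Sum.elim β (fun k => (c k : OnePoint K)) : ι ⊕ κ → OnePoint K) i) →
    PosDensity (RAvoidSet (Sum.elim f R) α (Sum.elim β (fun k => (c k : OnePoint K))))

theorem jgood_of {K : Type u} [Field K] [NumberField K] {ι κ : Type} (f : ι → RatFunc K) (β : ι → OnePoint K)
    (R : κ → RatFunc K) (c : κ → K)
    (h : GoodR {S : Set (HeightOneSpectrum (𝓞 K)) | ∃ α : ι → OnePoint K,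
        (∀ i n, (ract (RingHom.id K) (f i))^[n] (α i) ≠ β i) ∧ S = RAvoidSet f α β}
      (fun k => RP.ofRat (R k)) c) : JGood f β R c := by
  intro α hα
  have h1 := h (RAvoidSet f (fun i => α (Sum.inl i)) β) ⟨_, fun i n => hα (Sum.inl i) n, rfl⟩
    (fun k => α (Sum.inr k)) (fun k n => by
      have h2 := hα (Sum.inr k) n
      rw [ract_id] at h2
      exact h2)
  refine posDensity_mono ?_ h1
  have hsub : (RAvoidSet f (fun i => α (Sum.inl i)) β ∩ PAvoidSet (fun k => RP.ofRat (R k))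
      (fun k => α (Sum.inr k)) (fun k => (c k : OnePoint K))) ⊆
      RAvoidSet (Sum.elim f R) α (Sum.elim β (fun k => (c k : OnePoint K))) := by
    rintro v ⟨hv1, hv2⟩
    rw [← PAvoidSet_rat] at hv1 ⊢
    rintro (i | k) n
    · exact hv1 i n
    · exact hv2 k n
  rw [Set.sdiff_eq_empty.2 hsub]
  exact Set.finite_empty

section

variable {K : Type u} [Field K] [NumberField K]
    {ι : Type} [Finite ι] (f : ι → RatFunc K) (hf : ∀ i, 2 ≤ rdeg (f i)) (β : ι → OnePoint K) (Q A : Set ι)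
    (hQ : ∀ i ∈ Q, (¬ Function.Injective fun n : ℕ => (ract (RingHom.id K) (f i))^[n] (β i)) ∨
      HasDatum (f i) (β i))
    (hA : ∀ i ∈ A, ∃ v : HeightOneSpectrum (𝓞 K), ExcMod v (f i) (β i) ∧ ∀ j, j ∉ Q → GoodTame v (f j))
    {J : Type} [Finite J] (blk : ι → J) (E : J → ℕ)
    (hE : ∀ j j', j ≠ j' → Nat.Coprime (E j) (E j'))
    (hexp : ∀ i, i ∉ Q → i ∉ A → RHasExp (E (blk i)) (f i))
    (hblk : ∀ j, OrbitBlock (fun i : {i // (i ∉ Q ∧ i ∉ A) ∧ blk i = j} => f i.1)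
        (fun i : {i // (i ∉ Q ∧ i ∉ A) ∧ blk i = j} => β i.1) ∨
      PrimeBlock (fun i : {i // (i ∉ Q ∧ i ∉ A) ∧ blk i = j} => f i.1)
        (fun i : {i // (i ∉ Q ∧ i ∉ A) ∧ blk i = j} => β i.1) ∨
      ∀ i, i ∉ Q → i ∉ A → blk i = j → TorusMap (algebraMap K (AlgebraicClosure K)) (f i))

include hf hQ hA hE hexp hblk

theorem joint_height {κ : Type} [Fintype κ] (R : κ → RatFunc K) (hR : ∀ k, 2 ≤ rdeg (R k)) :
    Filter.Tendsto (fun X : ℝ => ({c | c ∈ HtBox κ K X ∧ ¬ JGood f β R c}.ncard : ℝ) /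
      ((HtBox κ K X).ncard : ℝ)) Filter.atTop (nhds 0) := by
  have h := aa_height (fun k => RP.ofRat (R k)) (fun k => hR k)
    (fun K3 _ _ _ => core_freeD0 f hf β Q A hQ hA blk E hE hexp hblk K3)
  refine squeeze_zero (fun X => by positivity) (fun X => ?_) h
  refine div_le_div_of_nonneg_right ?_ (Nat.cast_nonneg _)
  have h3 : {c | c ∈ HtBox κ K X ∧ ¬ JGood f β R c} ⊆ {c | c ∈ HtBox κ K X ∧
      ¬ GoodR {S : Set (HeightOneSpectrum (𝓞 K)) | ∃ α : ι → OnePoint K,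
        (∀ i n, (ract (RingHom.id K) (f i))^[n] (α i) ≠ β i) ∧ S = RAvoidSet f α β}
      (fun k => RP.ofRat (R k)) c} := fun c hc => ⟨hc.1, fun h2 => hc.2 (jgood_of f β R c h2)⟩
  exact_mod_cast Set.ncard_le_ncard h3 ((finite_htBox κ X).subset fun c hc => hc.1)

theorem joint_conj {κ : Type} [Fintype κ] (R : κ → RatFunc K) (hR : ∀ k, 2 ≤ rdeg (R k)) (s : 𝓞 K)
    (hs : s ≠ 0) :
    (∀ X : ℝ, (CjBox κ K X).Finite) ∧
    Filter.Tendsto (fun X : ℝ => ({b | b ∈ CjBox κ K X ∧ ¬ JGood f β R (fun k => algebraMap (𝓞 K) K (b k) /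
      algebraMap (𝓞 K) K s)}.ncard : ℝ) / ((CjBox κ K X).ncard : ℝ)) Filter.atTop (nhds 0) := by
  obtain ⟨h0, h⟩ := aa_conj (fun k => RP.ofRat (R k)) (fun k => hR k)
    (fun K3 _ _ _ => core_freeD0 f hf β Q A hQ hA blk E hE hexp hblk K3) s hs
  refine ⟨h0, squeeze_zero (fun X => by positivity) (fun X => ?_) h⟩
  refine div_le_div_of_nonneg_right ?_ (Nat.cast_nonneg _)
  have h3 : {b | b ∈ CjBox κ K X ∧ ¬ JGood f β R (fun k => algebraMap (𝓞 K) K (b k) /
      algebraMap (𝓞 K) K s)} ⊆ {b | b ∈ CjBox κ K X ∧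
      ¬ GoodR {S : Set (HeightOneSpectrum (𝓞 K)) | ∃ α : ι → OnePoint K,
        (∀ i n, (ract (RingHom.id K) (f i))^[n] (α i) ≠ β i) ∧ S = RAvoidSet f α β}
      (fun k => RP.ofRat (R k)) (fun k => algebraMap (𝓞 K) K (b k) / algebraMap (𝓞 K) K s)} :=
    fun c hc => ⟨hc.1, fun h2 => hc.2 (jgood_of f β R _ h2)⟩
  exact_mod_cast Set.ncard_le_ncard h3 ((h0 X).subset fun c hc => hc.1)

end

end Pool.Agent.ORB.AA
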