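import Pool.Agent.ORB.AADefs
import Mathlib.NumberTheory.RamificationInertia.Galois
import Mathlib.NumberTheory.NumberField.Discriminant.Different

/-!
ORB, Theorem AA, row I: discriminants and inertia groups.
-/

set_option autoImplicit false

namespace Pool.Agent.ORB.AA

open NumberField Module

/-- the order of the inertia group is the ramification index -/
theorem card_inertia_eq {K L : Type*} [Field K] [NumberField K] [Field L] [NumberField L] [Algebra K L]
    [IsGalois K L] (P : Ideal (𝓞 L)) [hP : P.IsPrime] :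
    Nat.card (P.inertia (L ≃ₐ[K] L)) = P.ramificationIdx (𝓞 K) := by
  have hG : IsGaloisGroup (L ≃ₐ[K] L) (𝓞 K) (𝓞 L) := IsGaloisGroup.of_isFractionRing _ _ _ K L
  rw [Ideal.card_inertia_eq_ramificationIdxIn (G := L ≃ₐ[K] L) (P.under (𝓞 K)) P,
    Ideal.ramificationIdxIn_eq_ramificationIdx (P.under (𝓞 K)) P (L ≃ₐ[K] L)]

/-- the order of the inertia group over the integers -/
theorem card_inertia_int {L : Type*} [Field L] [NumberField L]
    [IsGalois ℚ L] (P : Ideal (𝓞 L)) [hP : P.IsPrime] :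
    Nat.card (P.inertia (L ≃ₐ[ℚ] L)) = P.ramificationIdx ℤ := by
  have hG : IsGaloisGroup (L ≃ₐ[ℚ] L) ℤ (𝓞 L) := IsGaloisGroup.of_isFractionRing _ _ _ ℚ L
  rw [Ideal.card_inertia_eq_ramificationIdxIn (G := L ≃ₐ[ℚ] L) (P.under ℤ) P,
    Ideal.ramificationIdxIn_eq_ramificationIdx (P.under ℤ) P (L ≃ₐ[ℚ] L)]

theorem mem_inertia_iff {K L : Type*} [Field K] [Field L] [Algebra K L]
    (P : Ideal (𝓞 L)) (g : L ≃ₐ[K] L) : g ∈ P.inertia (L ≃ₐ[K] L) ↔ ∀ y : 𝓞 L, g • y - y ∈ P :=
  Iff.rfl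

/-- the inertia group over `F` is the part of the inertia group over `ℚ` which fixes `F` -/
theorem card_inertia_eq_iff {L : Type*} [Field L] [NumberField L] (F : IntermediateField ℚ L)
    (P : Ideal (𝓞 L)) :
    Nat.card (P.inertia (L ≃ₐ[ℚ] L)) = Nat.card (P.inertia (L ≃ₐ[F] L)) ↔
      ∀ g : L ≃ₐ[ℚ] L, Inert P g → ∀ x ∈ F, g x = x := by
  let f : P.inertia (L ≃ₐ[F] L) → P.inertia (L ≃ₐ[ℚ] L) := fun g =>
    ⟨g.1.restrictScalars ℚ, fun y => g.2 y⟩
  have hf : Function.Injective f := by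
    intro a b h
    have h1 : a.1.restrictScalars ℚ = b.1.restrictScalars ℚ := congrArg Subtype.val h
    apply Subtype.ext
    ext x
    exact AlgEquiv.congr_fun h1 x
  have hs : Function.Surjective f ↔ ∀ g : L ≃ₐ[ℚ] L, Inert P g → ∀ x ∈ F, g x = x := by
    constructor
    · intro h g hg x hx
      obtain ⟨a, ha⟩ := h ⟨g, hg⟩
      have h1 : a.1.restrictScalars ℚ = g := congrArg Subtype.val ha
      rw [← h1]
      exact a.1.commutes ⟨x, hx⟩
    · intro h g
      refine ⟨⟨AlgEquiv.ofRingEquiv (f := g.1.toRingEquiv) (fun x => h g.1 g.2 x.1 x.2), fun y => ?_⟩, ?_⟩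
      · exact g.2 y
      · apply Subtype.ext
        ext x
        rfl
  rw [← hs]
  constructor
  · intro h
    have := (Nat.bijective_iff_injective_and_card f).2 ⟨hf, h.symm⟩
    exact this.2
  · intro h
    exact (Nat.card_eq_of_bijective f ⟨hf, h⟩).symm

/-- unramified below `P` iff the inertia group at `P` fixes `F` -/
theorem unramified_iff {L : Type*} [Field L] [NumberField L] [IsGalois ℚ L] (F : IntermediateField ℚ L)
    (P : Ideal (𝓞 L)) [hP : P.IsPrime] :
    Algebra.IsUnramifiedAt ℤ (P.under (𝓞 F)) ↔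
      ∀ g : L ≃ₐ[ℚ] L, Inert P g → ∀ x ∈ F, g x = x := by
  rw [← card_inertia_eq_iff, card_inertia_int, card_inertia_eq,
    ← Ideal.ramificationIdx_eq_one_iff,
    Ideal.ramificationIdx_tower (R := ℤ) (P.under (𝓞 F)) P]
  have h0 : P.ramificationIdx (𝓞 F) ≠ 0 := by
    rw [← card_inertia_eq]
    exact Nat.card_pos.ne'
  constructor
  · intro h
    rw [h, one_mul]
  · intro h
    exact Nat.eq_of_mul_eq_mul_right (Nat.pos_of_ne_zero h0) (by rw [h, one_mul])

/-- `p` does not divide the discriminant iff the inertia groups above `p` act trivially -/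
theorem inertia_iff {L : Type*} [Field L] [NumberField L] [IsGalois ℚ L] (F : IntermediateField ℚ L)
    {p : ℕ} (hp : p.Prime) :
    (¬ (p : ℤ) ∣ discr F) ↔ ∀ P : Ideal (𝓞 L), P.IsPrime → (p : 𝓞 L) ∈ P → ∀ g : L ≃ₐ[ℚ] L, Inert P g →
      ∀ x ∈ F, g x = x := by
  rw [not_dvd_discr_iff_forall_mem F (𝓞 F) (Nat.prime_iff_prime_int.1 hp)]
  constructor
  · intro h P hP hpP
    rw [← unramified_iff]
    refine h _ inferInstance ?_
    rw [Ideal.under, Ideal.mem_comap]
    simpa using hpP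
  · intro h Q hQ hpQ
    obtain ⟨P, hP, hPQ⟩ := Ideal.exists_ideal_over_prime_of_isIntegral (S := 𝓞 L) Q ⊥ (by
      simp)
    have h1 : P.under (𝓞 F) = Q := hPQ.2
    have h2 := hPQ.1
    subst h1
    rw [unramified_iff]
    refine h P hPQ.1 ?_
    simpa using hpQ

theorem inertia_base {E L : Type*} [Field E] [NumberField E] [Field L] [NumberField L] [Algebra E L]
    [IsGalois ℚ L] {p : ℕ} (hp : p.Prime) (h : ¬ (p : ℤ) ∣ discr E) (P : Ideal (𝓞 L)) (hP : P.IsPrime)
    (hpP : (p : 𝓞 L) ∈ P) (g : L ≃ₐ[ℚ] L) (hg : Inert P g) (x : E) :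
    g (algebraMap E L x) = algebraMap E L x := by
  let i : E →ₐ[ℚ] L := (algebraMap E L).toRatAlgHom
  have e : E ≃ₐ[ℚ] i.fieldRange := AlgEquiv.ofInjectiveField i
  have h1 : discr i.fieldRange = discr E := discr_eq_discr_of_algEquiv _ e.symm
  exact (inertia_iff i.fieldRange hp).1 (by rwa [h1]) P hP hpP g hg _ ⟨x, rfl⟩

end Pool.Agent.ORB.AA
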