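import Pool.Agent.ORB.Box

/-! ORB, M2: prime ideals of degree one of subfields of a Galois number field and Frobenius elements. -/

namespace Pool.Agent.ORB

open NumberField Module

/-- `τ` is an (absolute) Frobenius element at the ideal `P` over `p` -/
def IsFrob {L : Type*} [Field L] [NumberField L] (p : ℕ) (P : Ideal (𝓞 L)) (τ : L ≃ₐ[ℚ] L) : Prop :=
  ∀ y : 𝓞 L, τ • y - y ^ p ∈ P

/-- number of prime ideals of norm `p` -/
noncomputable def n1 (M : Type*) [Field M] [NumberField M] (p : ℕ) : ℕ :=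
  ((P1 M p).filter (fun Q => Ideal.absNorm Q = p)).card

section
variable {L : Type*} [Field L] [NumberField L]

theorem fr_smul_coe (g : L ≃ₐ[ℚ] L) (y : 𝓞 L) : ((g • y : 𝓞 L) : L) = g (y : L) := rfl

theorem fr_smul_natCast (g : L ≃ₐ[ℚ] L) (m : ℕ) : g • ((m : ℕ) : 𝓞 L) = (m : 𝓞 L) := by
  apply RingOfIntegers.ext
  rw [fr_smul_coe]
  simp

theorem fr_exists_over (L : Type*) [Field L] [NumberField L] {p : ℕ} (hp : p.Prime) :
    ∃ P : Ideal (𝓞 L), P.IsPrime ∧ (p : 𝓞 L) ∈ P ∧ P.under ℤ = Ideal.span {(p : ℤ)} := by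
  have hpz : Prime (p : ℤ) := Nat.prime_iff_prime_int.1 hp
  have h1 : (Ideal.span {(p : ℤ)}).IsPrime := (Ideal.span_singleton_prime hpz.ne_zero).2 hpz
  obtain ⟨⟨P, hP1, hP2⟩⟩ := (Ideal.span {(p : ℤ)}).nonempty_primesOver (S := 𝓞 L)
  refine ⟨P, hP1, ?_, hP2.over.symm⟩
  have h2 : (p : ℤ) ∈ P.under ℤ := by
    rw [← hP2.over]; exact Ideal.mem_span_singleton_self _
  have h3 : algebraMap ℤ (𝓞 L) (p : ℤ) ∈ P := h2
  simpa using h3

omit [NumberField L] in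
theorem fr_under {p : ℕ} (hp : p.Prime) {P : Ideal (𝓞 L)} (hP : P.IsPrime) (h : (p : 𝓞 L) ∈ P) :
    P.under ℤ = Ideal.span {(p : ℤ)} := by
  have hpz : Prime (p : ℤ) := Nat.prime_iff_prime_int.1 hp
  have h1 : (Ideal.span {(p : ℤ)}).IsMaximal :=
    PrincipalIdealRing.isMaximal_of_irreducible hpz.irreducible
  have h2 : Ideal.span {(p : ℤ)} ≤ P.under ℤ := by
    rw [Ideal.span_singleton_le_iff_mem]
    change algebraMap ℤ (𝓞 L) (p : ℤ) ∈ P
    simpa using h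
  exact (h1.eq_of_le (Ideal.IsPrime.ne_top (inferInstance : (P.under ℤ).IsPrime)) h2).symm

theorem fr_inv (L : Type*) [Field L] [NumberField L] [IsGalois ℚ L] :
    Algebra.IsInvariant ℤ (𝓞 L) (L ≃ₐ[ℚ] L) := by
  refine ⟨fun b hb => ?_⟩
  have h1 : (algebraMap (𝓞 L) L b) ∈ Set.range (algebraMap ℚ L) := by
    rw [IsGalois.mem_range_algebraMap_iff_fixed]
    intro f
    have := congrArg (algebraMap (𝓞 L) L) (hb f)
    exact this
  obtain ⟨x, hx⟩ := h1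
  have hint : IsIntegral ℤ x := by
    rw [← isIntegral_algebraMap_iff (algebraMap ℚ L).injective, hx]
    exact RingOfIntegers.isIntegral_coe b
  obtain ⟨m, hm⟩ := IsIntegrallyClosed.isIntegral_iff.1 hint
  refine ⟨m, ?_⟩
  apply RingOfIntegers.ext
  have e : ((algebraMap ℤ (𝓞 L) m : 𝓞 L) : L) = algebraMap ℚ L (algebraMap ℤ ℚ m) := by
    simp
  rw [e, hm]
  exact hx

theorem exists_frob (L : Type*) [Field L] [NumberField L] [IsGalois ℚ L] {p : ℕ} (hp : p.Prime) :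
    ∃ P : Ideal (𝓞 L), P.IsPrime ∧ (p : 𝓞 L) ∈ P ∧ ∃ τ : L ≃ₐ[ℚ] L, IsFrob p P τ := by
  obtain ⟨P, hP, hm, hu⟩ := fr_exists_over L hp
  refine ⟨P, hP, hm, ?_⟩
  have hinv := fr_inv L
  have hP0 : P ≠ ⊥ := by
    intro h
    rw [h, Ideal.mem_bot] at hm
    exact hp.ne_zero (by exact_mod_cast hm)
  have hfin : Finite (𝓞 L ⧸ P) := Ideal.finiteQuotientOfFreeOfNeBot P hP0
  obtain ⟨τ, hτ⟩ := IsArithFrobAt.exists_of_isInvariant ℤ (L ≃ₐ[ℚ] L) P
  refine ⟨τ, fun y => ?_⟩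
  have h1 := hτ y
  have h2 : Nat.card (ℤ ⧸ P.under ℤ) = p := by
    rw [hu, ← Submodule.cardQuot_apply, ← Ideal.absNorm_apply, Ideal.absNorm_span_singleton]
    simp
  rw [h2] at h1
  exact h1

theorem IsFrob.conj {p : ℕ} {P : Ideal (𝓞 L)} {τ : L ≃ₐ[ℚ] L} (h : IsFrob p P τ) (hP : P.IsPrime)
    (hp : (p : 𝓞 L) ∈ P) (g : L ≃ₐ[ℚ] L) :
    ∃ P' : Ideal (𝓞 L), P'.IsPrime ∧ (p : 𝓞 L) ∈ P' ∧ IsFrob p P' (g⁻¹ * τ * g) := by
  refine ⟨P.comap (MulSemiringAction.toRingHom (L ≃ₐ[ℚ] L) (𝓞 L) g), Ideal.IsPrime.comap _, ?_, ?_⟩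
  · rw [Ideal.mem_comap, MulSemiringAction.toRingHom_apply, fr_smul_natCast]; exact hp
  · intro y
    rw [Ideal.mem_comap, MulSemiringAction.toRingHom_apply, smul_sub, smul_pow', ← mul_smul]
    have : g * (g⁻¹ * τ * g) = τ * g := by group
    rw [this, mul_smul]
    exact h (g • y)


omit [NumberField L] in
theorem fr_dvd_of_mem {p : ℕ} (hp : p.Prime) {P : Ideal (𝓞 L)} (hP : P.IsPrime)
    (h : (p : 𝓞 L) ∈ P) {m : ℕ} (hm : (m : 𝓞 L) ∈ P) : p ∣ m := by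
  have h1 : (m : ℤ) ∈ P.under ℤ := by
    change algebraMap ℤ (𝓞 L) (m : ℤ) ∈ P
    simpa using hm
  rw [fr_under hp hP h, Ideal.mem_span_singleton] at h1
  exact_mod_cast h1

/-- residue classes modulo an ideal of norm `p` are represented by integers -/
theorem fr_int_rep {p : ℕ} (hp : p.Prime) {Q : Ideal (𝓞 L)} (hQ : Ideal.absNorm Q = p) (x : 𝓞 L) :
    ∃ a : ℤ, x - (a : 𝓞 L) ∈ Q := by
  have hc : Nat.card (𝓞 L ⧸ Q) = p := by
    rw [← hQ, Ideal.absNorm_apply, Submodule.cardQuot_apply]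
  have hne : Q ≠ ⊤ := by
    intro h
    rw [h, Ideal.absNorm_top] at hQ
    exact hp.one_lt.ne hQ
  have h1 : (1 : 𝓞 L ⧸ Q) ≠ 0 := by
    intro h
    rw [← map_one (Ideal.Quotient.mk Q), Ideal.Quotient.eq_zero_iff_mem] at h
    exact hne ((Ideal.eq_top_iff_one Q).2 h)
  have := Fact.mk hp
  have h2 := zmultiples_eq_top_of_prime_card hc h1
  have h3 : Ideal.Quotient.mk Q x ∈ AddSubgroup.zmultiples (1 : 𝓞 L ⧸ Q) := by
    rw [h2]; exact AddSubgroup.mem_top _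
  obtain ⟨a, ha⟩ := AddSubgroup.mem_zmultiples_iff.1 h3
  refine ⟨a, ?_⟩
  rw [← Ideal.Quotient.eq, ← ha]
  simp

theorem fr_pow_sub {p : ℕ} (hp : p.Prime) {Q : Ideal (𝓞 L)} (hQ : Ideal.absNorm Q = p) (x : 𝓞 L) :
    x ^ p - x ∈ Q := by
  obtain ⟨a, ha⟩ := fr_int_rep hp hQ x
  have hpQ : (p : 𝓞 L) ∈ Q := by
    rw [← hQ]; exact Ideal.absNorm_mem Q
  have := Fact.mk hp
  have h1 : ((a ^ p - a : ℤ) : 𝓞 L) ∈ Q := by
    have h2 : (p : ℤ) ∣ a ^ p - a := by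
      rw [← ZMod.intCast_eq_intCast_iff_dvd_sub]
      push_cast
      rw [ZMod.pow_card]
    obtain ⟨c, hc⟩ := h2
    rw [hc]
    push_cast
    exact Q.mul_mem_right _ hpQ
  have h3 : x ^ p - (a : 𝓞 L) ^ p ∈ Q := by
    obtain ⟨c, hc⟩ := sub_dvd_pow_sub_pow x (a : 𝓞 L) p
    rw [hc]
    exact Q.mul_mem_right _ ha
  have h4 : x ^ p - x = (x ^ p - (a : 𝓞 L) ^ p) + ((a ^ p - a : ℤ) : 𝓞 L) - (x - (a : 𝓞 L)) := by
    push_cast; ring
  rw [h4]
  exact Q.sub_mem (Q.add_mem h3 h1) ha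

/-- a prime ideal with `x ^ p = x` in the residue field has norm `p` -/
theorem fr_norm_eq {p : ℕ} (hp : p.Prime) {Q : Ideal (𝓞 L)} (hQ : Q.IsPrime) (hpQ : (p : 𝓞 L) ∈ Q)
    (h : ∀ x : 𝓞 L, x ^ p - x ∈ Q) : Ideal.absNorm Q = p := by
  have hQ0 : Q ≠ ⊥ := by
    intro h
    rw [h, Ideal.mem_bot] at hpQ
    exact hp.ne_zero (by exact_mod_cast hpQ)
  have hmax : Q.IsMaximal := hQ.isMaximal hQ0
  let _ : Field (𝓞 L ⧸ Q) := Ideal.Quotient.field Q
  have hfin : Finite (𝓞 L ⧸ Q) := Ideal.finiteQuotientOfFreeOfNeBot Q hQ0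
  let _ : Fintype (𝓞 L ⧸ Q) := Fintype.ofFinite _
  have hc : Fintype.card (𝓞 L ⧸ Q) = Ideal.absNorm Q := by
    rw [Ideal.absNorm_apply, Submodule.cardQuot_apply, Nat.card_eq_fintype_card]
  have h0 : ((p : ℕ) : 𝓞 L ⧸ Q) = 0 := by
    have : Ideal.Quotient.mk Q (p : 𝓞 L) = 0 := Ideal.Quotient.eq_zero_iff_mem.2 hpQ
    simpa using this
  have hch : CharP (𝓞 L ⧸ Q) p := by
    obtain ⟨r, hr⟩ := CharP.exists (𝓞 L ⧸ Q)
    have h1 : r ∣ p := (CharP.cast_eq_zero_iff (𝓞 L ⧸ Q) r p).1 h0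
    rcases (Nat.dvd_prime hp).1 h1 with h2 | h2
    · exact absurd h2 (CharP.char_ne_one (𝓞 L ⧸ Q) r)
    · rwa [h2] at hr
  have hle : p ≤ Fintype.card (𝓞 L ⧸ Q) := by
    have h1 : p ∣ Fintype.card (𝓞 L ⧸ Q) :=
      (CharP.cast_eq_zero_iff (𝓞 L ⧸ Q) p _).1 (Nat.cast_card_eq_zero (𝓞 L ⧸ Q))
    exact Nat.le_of_dvd Fintype.card_pos h1
  have hge : Fintype.card (𝓞 L ⧸ Q) ≤ p := by
    classical
    obtain ⟨ζ, hζ⟩ := IsCyclic.exists_generator (α := (𝓞 L ⧸ Q)ˣ)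
    have ho : orderOf ζ = Fintype.card (𝓞 L ⧸ Q) - 1 := by
      rw [orderOf_eq_card_of_forall_mem_zpowers hζ, Nat.card_eq_fintype_card, Fintype.card_units]
    obtain ⟨y, hy⟩ := Ideal.Quotient.mk_surjective (ζ : 𝓞 L ⧸ Q)
    have h1 : (ζ : 𝓞 L ⧸ Q) ^ p = ζ := by
      rw [← hy, ← map_pow]
      exact Ideal.Quotient.eq.2 (h y)
    have h2 : ζ ^ (p - 1) = 1 := by
      have h3 : ζ ^ p = ζ := Units.ext (by simpa using h1)
      have h4 : ζ ^ (p - 1) * ζ = 1 * ζ := by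
        rw [← pow_succ, Nat.sub_add_cancel hp.one_lt.le, h3, one_mul]
      exact mul_right_cancel h4
    have h5 : orderOf ζ ∣ p - 1 := orderOf_dvd_of_pow_eq_one h2
    have h6 := Nat.le_of_dvd (by have := hp.one_lt; omega) h5
    have := hp.one_lt
    omega
  omega

section fixed
variable (D : Subgroup (L ≃ₐ[ℚ] L))

/-- the prime of the fixed field below `g⁻¹ P` -/
noncomputable def frQ (P : Ideal (𝓞 L)) (g : L ≃ₐ[ℚ] L) : Ideal (𝓞 (IntermediateField.fixedField D)) :=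
  P.comap ((MulSemiringAction.toRingHom (L ≃ₐ[ℚ] L) (𝓞 L) g).comp
    (algebraMap (𝓞 (IntermediateField.fixedField D)) (𝓞 L)))

theorem fr_mem_Q {P : Ideal (𝓞 L)} {g : L ≃ₐ[ℚ] L} {x : 𝓞 (IntermediateField.fixedField D)} :
    x ∈ frQ D P g ↔ g • (algebraMap (𝓞 (IntermediateField.fixedField D)) (𝓞 L) x) ∈ P := Iff.rfl

theorem fr_fix {d : L ≃ₐ[ℚ] L} (hd : d ∈ D) (x : 𝓞 (IntermediateField.fixedField D)) :
    d • (algebraMap (𝓞 (IntermediateField.fixedField D)) (𝓞 L) x) =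
      algebraMap (𝓞 (IntermediateField.fixedField D)) (𝓞 L) x := by
  apply RingOfIntegers.ext
  rw [fr_smul_coe]
  have h1 : (((algebraMap (𝓞 (IntermediateField.fixedField D)) (𝓞 L) x : 𝓞 L)) : L) =
      ((x : IntermediateField.fixedField D) : L) := rfl
  rw [h1]
  exact (x : IntermediateField.fixedField D).2 ⟨d, hd⟩

theorem fr_exists_sep {h : L ≃ₐ[ℚ] L} (hh : h ∉ D) :
    ∃ x : 𝓞 (IntermediateField.fixedField D),
      h • (algebraMap (𝓞 (IntermediateField.fixedField D)) (𝓞 L) x) ≠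
        algebraMap (𝓞 (IntermediateField.fixedField D)) (𝓞 L) x := by
  by_contra hcon
  push Not at hcon
  apply hh
  rw [← IntermediateField.fixingSubgroup_fixedField D, IntermediateField.mem_fixingSubgroup_iff]
  intro z hz
  obtain ⟨a, b, hb, hab⟩ := IsFractionRing.div_surjective (A := 𝓞 (IntermediateField.fixedField D))
    (⟨z, hz⟩ : IntermediateField.fixedField D)
  have h1 : ∀ x : 𝓞 (IntermediateField.fixedField D),
      h ((x : IntermediateField.fixedField D) : L) = ((x : IntermediateField.fixedField D) : L) := by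
    intro x
    exact congrArg (fun y : 𝓞 L => (y : L)) (hcon x)
  have h2 : z = ((a : IntermediateField.fixedField D) : L) / ((b : IntermediateField.fixedField D) : L) := by
    have := congrArg (fun y : IntermediateField.fixedField D => (y : L)) hab
    simpa using this.symm
  rw [h2, map_div₀, h1, h1]

theorem fr_sep : ∃ B : ℕ, ∀ p : ℕ, p.Prime → B < p → ∀ P : Ideal (𝓞 L), P.IsPrime →
    (p : 𝓞 L) ∈ P → ∀ g g' : L ≃ₐ[ℚ] L,
      (∀ x : 𝓞 (IntermediateField.fixedField D),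
        g • (algebraMap (𝓞 (IntermediateField.fixedField D)) (𝓞 L) x) -
          g' • (algebraMap (𝓞 (IntermediateField.fixedField D)) (𝓞 L) x) ∈ P) → g⁻¹ * g' ∈ D := by
  classical
  let _ : Fintype (L ≃ₐ[ℚ] L) := Fintype.ofFinite _
  have hch : ∀ h : L ≃ₐ[ℚ] L, ∃ x : 𝓞 (IntermediateField.fixedField D), h ∉ D →
      h • (algebraMap (𝓞 (IntermediateField.fixedField D)) (𝓞 L) x) ≠
        algebraMap (𝓞 (IntermediateField.fixedField D)) (𝓞 L) x := by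
    intro h
    by_cases hh : h ∈ D
    · exact ⟨0, fun h' => absurd hh h'⟩
    · obtain ⟨x, hx⟩ := fr_exists_sep D hh
      exact ⟨x, fun _ => hx⟩
  choose c hc using hch
  let y : (L ≃ₐ[ℚ] L) × (L ≃ₐ[ℚ] L) → 𝓞 L := fun q =>
    q.1 • (algebraMap (𝓞 (IntermediateField.fixedField D)) (𝓞 L) (c (q.1⁻¹ * q.2))) -
      q.2 • (algebraMap (𝓞 (IntermediateField.fixedField D)) (𝓞 L) (c (q.1⁻¹ * q.2)))
  refine ⟨∑ q, Ideal.absNorm (Ideal.span {y q}), ?_⟩
  intro p hp hB P hP hpP g g' hg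
  by_contra hcon
  have h1 : y (g, g') ∈ P := hg _
  have h2 : y (g, g') ≠ 0 := by
    intro h0
    have h3 : g • (algebraMap (𝓞 (IntermediateField.fixedField D)) (𝓞 L) (c (g⁻¹ * g'))) =
      g' • (algebraMap (𝓞 (IntermediateField.fixedField D)) (𝓞 L) (c (g⁻¹ * g'))) := sub_eq_zero.1 h0
    apply hc (g⁻¹ * g') hcon
    rw [mul_smul, ← h3, inv_smul_smul]
  have h4 : (Ideal.absNorm (Ideal.span {y (g, g')}) : 𝓞 L) ∈ P := by
    have h5 : Ideal.span {y (g, g')} ≤ P := by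
      rw [Ideal.span_singleton_le_iff_mem]; exact h1
    exact h5 (Ideal.absNorm_mem _)
  have h6 := fr_dvd_of_mem hp hP hpP h4
  have h7 : Ideal.absNorm (Ideal.span {y (g, g')}) ≠ 0 := by
    rw [Ne, Ideal.absNorm_eq_zero_iff, Ideal.span_singleton_eq_bot]
    exact h2
  have h8 := Nat.le_of_dvd (Nat.pos_of_ne_zero h7) h6
  have h9 : Ideal.absNorm (Ideal.span {y (g, g')}) ≤ ∑ q, Ideal.absNorm (Ideal.span {y q}) :=
    Finset.single_le_sum (f := fun q => Ideal.absNorm (Ideal.span {y q}))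
      (fun _ _ => Nat.zero_le _) (Finset.mem_univ (g, g'))
  omega

end fixed

end

variable {L : Type*} [Field L] [NumberField L] [IsGalois ℚ L]

omit [IsGalois ℚ L] in
theorem fr_Q_mul (D : Subgroup (L ≃ₐ[ℚ] L)) (P : Ideal (𝓞 L)) (g : L ≃ₐ[ℚ] L) {d : L ≃ₐ[ℚ] L}
    (hd : d ∈ D) : frQ D P (g * d) = frQ D P g := by
  ext x
  rw [fr_mem_Q, fr_mem_Q, mul_smul, fr_fix D hd]

/-- number of prime ideals of norm `p` of the fixed field of `D` = number of cosets fixed by Frobenius -/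
theorem n1_fixed (D : Subgroup (L ≃ₐ[ℚ] L)) : ∃ B : ℕ, ∀ p : ℕ, p.Prime → B < p →
    ∀ P : Ideal (𝓞 L), P.IsPrime → (p : 𝓞 L) ∈ P → ∀ τ : L ≃ₐ[ℚ] L, IsFrob p P τ →
      n1 (IntermediateField.fixedField D) p * Nat.card D =
        Nat.card {g : L ≃ₐ[ℚ] L // g⁻¹ * τ * g ∈ D} := by
  classical
  obtain ⟨B, hB⟩ := fr_sep D
  refine ⟨B, fun p hp hpB P hP hpP τ hτ => ?_⟩
  have hinv := fr_inv L
  set T := (P1 (IntermediateField.fixedField D) p).filter (fun Q => Ideal.absNorm Q = p) with hT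
  have hmemT : ∀ Q, Q ∈ T ↔ Q.IsPrime ∧ Ideal.absNorm Q = p := by
    intro Q
    rw [hT, Finset.mem_filter, mem_P1]
    constructor
    · rintro ⟨⟨h1, h2, h3⟩, h4⟩
      exact ⟨h1, h4⟩
    · rintro ⟨h1, h2⟩
      exact ⟨⟨h1, by rw [h2]; exact hp, h2.le⟩, h2⟩
  -- the ideals Q_g
  have hQT : ∀ g : L ≃ₐ[ℚ] L, g⁻¹ * τ * g ∈ D → frQ D P g ∈ T := by
    intro g hg
    rw [hmemT]
    have h1 : (frQ D P g).IsPrime := Ideal.IsPrime.comap _
    refine ⟨h1, fr_norm_eq hp h1 ?_ ?_⟩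
    · rw [fr_mem_Q, map_natCast, fr_smul_natCast]; exact hpP
    · intro x
      rw [fr_mem_Q, map_sub, map_pow, smul_sub, smul_pow']
      set z := algebraMap (𝓞 (IntermediateField.fixedField D)) (𝓞 L) x with hz
      have h2 : τ • (g • z) = g • z := by
        have h3 := fr_fix D hg x
        rw [← hz, mul_smul, mul_smul, inv_smul_eq_iff] at h3
        exact h3
      have h4 := hτ (g • z)
      rw [h2] at h4
      rw [← neg_sub]
      exact P.neg_mem h4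
  have hex : ∀ Q : T, ∃ g : L ≃ₐ[ℚ] L, g⁻¹ * τ * g ∈ D ∧ frQ D P g = Q.1 := by
    rintro ⟨Q, hQ⟩
    rw [hmemT] at hQ
    obtain ⟨hQ1, hQ2⟩ := hQ
    obtain ⟨⟨P', hP1, hP2⟩⟩ := Q.nonempty_primesOver (S := 𝓞 L)
    have hpQ : ((p : ℕ) : 𝓞 (IntermediateField.fixedField D)) ∈ Q := by
      rw [← hQ2]; exact Ideal.absNorm_mem Q
    have hover : ∀ x : 𝓞 (IntermediateField.fixedField D), x ∈ Q ↔
        algebraMap (𝓞 (IntermediateField.fixedField D)) (𝓞 L) x ∈ P' := by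
      intro x
      have := hP2.over
      rw [this]; rfl
    have hpP' : (p : 𝓞 L) ∈ P' := by
      have := (hover _).1 hpQ
      rwa [map_natCast] at this
    have hu : P'.under ℤ = P.under ℤ := by
      rw [fr_under hp hP1 hpP', fr_under hp hP hpP]
    obtain ⟨g, hg⟩ := Algebra.IsInvariant.exists_smul_of_under_eq ℤ (𝓞 L) (L ≃ₐ[ℚ] L) P' P hu
    have hQg : frQ D P g = Q := by
      ext x
      rw [fr_mem_Q, hover, hg, Ideal.mem_pointwise_smul_iff_inv_smul_mem, inv_smul_smul]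
    refine ⟨g, ?_, hQg⟩
    have h1 := hB p hp hpB P hP hpP g (τ * g) (fun x => by
      set z := algebraMap (𝓞 (IntermediateField.fixedField D)) (𝓞 L) x with hz
      have h2 : x ^ p - x ∈ frQ D P g := by rw [hQg]; exact fr_pow_sub hp hQ2 x
      rw [fr_mem_Q, map_sub, map_pow, smul_sub, smul_pow', ← hz] at h2
      have h3 := hτ (g • z)
      rw [mul_smul]
      have h4 : g • z - τ • g • z = -((τ • (g • z) - (g • z) ^ p) + ((g • z) ^ p - g • z)) := by ring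
      rw [h4]
      exact P.neg_mem (P.add_mem h3 h2))
    rwa [← mul_assoc] at h1
  choose gQ hgQ1 hgQ2 using hex
  have hbij : Function.Bijective (fun q : T × D =>
      (⟨gQ q.1 * q.2.1, by
        have h1 : (gQ q.1 * q.2.1)⁻¹ * τ * (gQ q.1 * q.2.1) =
          (q.2.1)⁻¹ * ((gQ q.1)⁻¹ * τ * gQ q.1) * q.2.1 := by group
        rw [h1]
        exact D.mul_mem (D.mul_mem (D.inv_mem q.2.2) (hgQ1 q.1)) q.2.2⟩ :
        {g : L ≃ₐ[ℚ] L // g⁻¹ * τ * g ∈ D})) := by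
    constructor
    · rintro ⟨Q, d⟩ ⟨Q', d'⟩ h
      have h1 : gQ Q * d.1 = gQ Q' * d'.1 := congrArg Subtype.val h
      have h2 : Q = Q' := by
        apply Subtype.ext
        rw [← hgQ2 Q, ← hgQ2 Q', ← fr_Q_mul D P (gQ Q) d.2, ← fr_Q_mul D P (gQ Q') d'.2, h1]
      subst h2
      have h3 : d.1 = d'.1 := mul_left_cancel h1
      rw [Subtype.ext h3]
    · rintro ⟨g, hg⟩
      let Q : T := ⟨frQ D P g, hQT g hg⟩
      have hQp : Ideal.absNorm Q.1 = p := ((hmemT _).1 Q.2).2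
      have h1 := hB p hp hpB P hP hpP (gQ Q) g (fun x => by
        obtain ⟨a, ha⟩ := fr_int_rep hp hQp x
        have h2 : x - (a : 𝓞 (IntermediateField.fixedField D)) ∈ frQ D P g := ha
        have h3 : x - (a : 𝓞 (IntermediateField.fixedField D)) ∈ frQ D P (gQ Q) := by
          rw [hgQ2 Q]; exact ha
        rw [fr_mem_Q, map_sub, smul_sub, map_intCast] at h2 h3
        have e : ∀ h : L ≃ₐ[ℚ] L, h • ((a : ℤ) : 𝓞 L) = (a : 𝓞 L) := by
          intro h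
          apply RingOfIntegers.ext
          rw [fr_smul_coe]
          simp
        rw [e] at h2 h3
        have h4 := P.sub_mem h3 h2
        rwa [sub_sub_sub_cancel_right] at h4)
      refine ⟨⟨Q, ⟨(gQ Q)⁻¹ * g, h1⟩⟩, ?_⟩
      apply Subtype.ext
      simp
  have hcard := Nat.card_congr (Equiv.ofBijective _ hbij)
  rw [Nat.card_prod] at hcard
  rw [← hcard, n1, ← hT]
  simp

end Pool.Agent.ORB
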