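import Pool.Agent.ORB.Defs
import Pool.Agent.ORB.Val

/-! ORB, M4b: from a prime of an extension modulo which there is no root to an automorphism. -/

namespace Pool.Agent.ORB

open NumberField IsDedekindDomain Polynomial

universe u

theorem inv_ring (K2 M : Type*) [Field K2] [NumberField K2] [Field M] [NumberField M]
    [Algebra K2 M] [IsGalois K2 M] : Algebra.IsInvariant (𝓞 K2) (𝓞 M) (M ≃ₐ[K2] M) := by
  refine ⟨fun b hb => ?_⟩
  have h1 : (algebraMap (𝓞 M) M b) ∈ Set.range (algebraMap K2 M) := by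
    rw [IsGalois.mem_range_algebraMap_iff_fixed]
    intro f
    have := congrArg (algebraMap (𝓞 M) M) (hb f)
    exact this
  obtain ⟨x, hx⟩ := h1
  have hint : IsIntegral ℤ x := by
    rw [← isIntegral_algebraMap_iff (algebraMap K2 M).injective, hx]
    exact RingOfIntegers.isIntegral_coe b
  refine ⟨⟨x, hint⟩, ?_⟩
  apply RingOfIntegers.ext
  exact hx

/-- the case when `L` contains everything, with the Frobenius element -/
theorem frob_extract_aux {K2 M : Type*} [Field K2] [NumberField K2] [Field M] [NumberField M]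
    [Algebra K2 M] [IsGalois K2 M] (w : HeightOneSpectrum (𝓞 K2)) :
    ∃ τ : M ≃ₐ[K2] M, ∀ F : K2[X], (∀ j, w.valuation K2 (F.coeff j) ≤ 1) →
      w.valuation K2 F.leadingCoeff = 1 → ¬ HasRoot w F → ∀ r : M, aeval r F = 0 → τ r ≠ r := by
  obtain ⟨⟨Q, hQ1, hQ2⟩⟩ := w.asIdeal.nonempty_primesOver (S := 𝓞 M)
  have hQ0 : Q ≠ ⊥ := Ideal.ne_bot_of_mem_primesOver w.ne_bot ⟨hQ1, hQ2⟩
  let P : HeightOneSpectrum (𝓞 M) := ⟨Q, hQ1, hQ0⟩
  have hlo : P.asIdeal.LiesOver w.asIdeal := hQ2
  have hmax : P.asIdeal.IsMaximal := P.isMaximal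
  have hfin : Finite (𝓞 M ⧸ P.asIdeal) := inferInstance
  have hinv := inv_ring K2 M
  obtain ⟨τ, hτ⟩ := IsArithFrobAt.exists_of_isInvariant (𝓞 K2) (M ≃ₐ[K2] M) P.asIdeal
  have hcard : Nat.card (𝓞 K2 ⧸ P.asIdeal.under (𝓞 K2)) = Nat.card (𝓞 K2 ⧸ w.asIdeal) := by
    rw [← hlo.over]
  refine ⟨τ, fun F hint hlead hno r hr hfix => hno ?_⟩
  have hri : P.valuation M r ≤ 1 := by
    refine root_int P F (fun j => ?_) ?_ hr
    · rw [val_le_iff w P]; exact hint j
    · rw [val_eq_iff w P]; exact hlead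
  have h1 := frob_val P (τ : M ≃+* M) (q := Nat.card (𝓞 K2 ⧸ w.asIdeal)) (fun y => by
    have := hτ y
    rw [hcard, ← HeightOneSpectrum.valuation_lt_one_iff_mem (K := M)] at this
    have e : (τ : M ≃+* M) (algebraMap (𝓞 M) M y) - (algebraMap (𝓞 M) M y) ^
        Nat.card (𝓞 K2 ⧸ w.asIdeal) = algebraMap (𝓞 M) M
          ((MulSemiringAction.toAlgHom (𝓞 K2) (𝓞 M) τ) y - y ^ Nat.card (𝓞 K2 ⧸ w.asIdeal)) := by
      rw [map_sub, map_pow]; rfl
    rw [e]
    exact this) hri
  have h2 : (τ : M ≃+* M) r = r := hfix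
  rw [h2, Valuation.map_sub_swap] at h1
  obtain ⟨y, hy⟩ := residue w P hri h1
  have hyi : P.valuation M (algebraMap (𝓞 K2) M y) ≤ 1 := by
    rw [IsScalarTower.algebraMap_apply (𝓞 K2) K2 M, val_le_iff w P]; exact w.valuation_le_one y
  refine ⟨algebraMap (𝓞 K2) K2 y, w.valuation_le_one y, ?_⟩
  rw [← val_lt_iff w P, ← aeval_algebraMap_apply_eq_algebraMap_eval,
    ← IsScalarTower.algebraMap_apply (𝓞 K2) K2 M]
  have h3 := aeval_congr P F (fun j => (val_le_iff w P _).2 (hint j)) hri hyi hy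
  rw [hr, zero_sub, Valuation.map_neg] at h3
  exact h3

theorem frob_extract_core {K K2 L M : Type*} [Field K] [NumberField K] [Field K2] [NumberField K2]
    [Field L] [NumberField L] [Algebra K K2] [Algebra K L] [IsGalois ℚ L] [Field M] [NumberField M]
    [Algebra K2 M] [IsGalois K2 M] (p : ℚ[X]) (hp : p.IsSplittingField ℚ L)
    (hM : (p.map (algebraMap ℚ M)).Splits)
    (w : HeightOneSpectrum (𝓞 K2)) {ι : Type*} (F : ι → K[X])
    (hint : ∀ i j, w.valuation K2 (algebraMap K K2 ((F i).coeff j)) ≤ 1)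
    (hlead : ∀ i, w.valuation K2 (algebraMap K K2 (F i).leadingCoeff) = 1)
    (hno : ∀ i, ¬ HasRoot w ((F i).map (algebraMap K K2))) :
    ∃ σ : L ≃ₐ[ℚ] L, (∀ x : K, σ (algebraMap K L x) = algebraMap K L x) ∧
      ∀ i, ∀ r : L, aeval r (F i) = 0 → σ r ≠ r := by
  obtain ⟨τ, hτ⟩ := frob_extract_aux (M := M) w
  let _ : Algebra K M := ((algebraMap K2 M).comp (algebraMap K K2)).toAlgebra
  have hst : IsScalarTower K K2 M := IsScalarTower.of_algebraMap_eq fun x => rfl
  have hsp : (p.map (algebraMap ℚ K)).IsSplittingField K L := inferInstance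
  let φ : L →ₐ[K] M := Polynomial.IsSplittingField.lift L (p.map (algebraMap ℚ K)) (by
    rw [Polynomial.map_map]
    have : (algebraMap K M).comp (algebraMap ℚ K) = algebraMap ℚ M := Subsingleton.elim _ _
    rw [this]
    exact hM)
  let _ : Algebra L M := φ.toRingHom.toAlgebra
  have hcomm : ∀ x : K, algebraMap L M (algebraMap K L x) = algebraMap K2 M (algebraMap K K2 x) :=
    fun x => φ.commutes x
  let τ' : M ≃ₐ[ℚ] M := AlgEquiv.restrictScalars ℚ τ
  let σ : L ≃ₐ[ℚ] L := τ'.restrictNormal L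
  have hσ : ∀ x : L, algebraMap L M (σ x) = τ (algebraMap L M x) := fun x =>
    τ'.restrictNormal_commutes L x
  refine ⟨σ, fun x => ?_, fun i r hr hfix => ?_⟩
  · apply (algebraMap L M).injective
    rw [hσ, hcomm, τ.commutes]
  · refine hτ ((F i).map (algebraMap K K2)) (fun j => ?_) ?_ (hno i) (algebraMap L M r) ?_ ?_
    · rw [coeff_map]; exact hint i j
    · rw [leadingCoeff_map]; exact hlead i
    · rw [aeval_map_algebraMap]
      have : aeval (φ r) (F i) = φ (aeval r (F i)) := Polynomial.aeval_algHom_apply φ r (F i)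
      rw [hr, map_zero] at this
      exact this
    · rw [← hσ, hfix]

/-- if the `F_i` have no root modulo the prime `w` of the extension `K2` of `K`, then every Galois number
field `L` containing `K` has an automorphism over `K` which fixes no root of the `F_i` -/
theorem frob_extract {K K2 L : Type u} [Field K] [NumberField K] [Field K2] [NumberField K2]
    [Field L] [NumberField L] [Algebra K K2] [Algebra K L] [IsGalois ℚ L]
    (w : HeightOneSpectrum (𝓞 K2)) {ι : Type*} (F : ι → K[X])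
    (hint : ∀ i j, w.valuation K2 (algebraMap K K2 ((F i).coeff j)) ≤ 1)
    (hlead : ∀ i, w.valuation K2 (algebraMap K K2 (F i).leadingCoeff) = 1)
    (hno : ∀ i, ¬ HasRoot w ((F i).map (algebraMap K K2))) :
    ∃ σ : L ≃ₐ[ℚ] L, (∀ x : K, σ (algebraMap K L x) = algebraMap K L x) ∧
      ∀ i, ∀ r : L, aeval r (F i) = 0 → σ r ≠ r := by
  obtain ⟨p, hsep, hp⟩ := IsGalois.is_separable_splitting_field ℚ L
  let M := (p.map (algebraMap ℚ K2)).SplittingField
  have hfdM : FiniteDimensional K2 M := inferInstance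
  have hgal : IsGalois K2 M :=
    IsGalois.of_separable_splitting_field (p := p.map (algebraMap ℚ K2)) hsep.map
  have hcz : CharZero M := charZero_of_injective_algebraMap (algebraMap K2 M).injective
  have hNF : NumberField M :=
    { to_charZero := hcz
      to_finiteDimensional := FiniteDimensional.trans ℚ K2 M }
  refine frob_extract_core (M := M) p hp ?_ w F hint hlead hno
  have h := SplittingField.splits (p.map (algebraMap ℚ K2))
  rw [Polynomial.map_map] at h
  have : (algebraMap K2 M).comp (algebraMap ℚ K2) = algebraMap ℚ M := Subsingleton.elim _ _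
  rw [← this]
  exact h

end Pool.Agent.ORB
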