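import Pool.Agent.ORB.Mertens
import Pool.Agent.ORB.Frob

/-! ORB, M3: Frobenius density theorem with positive lower natural density. -/

namespace Pool.Agent.ORB

open NumberField Module

/-- the primes for which some Frobenius element generates the same cyclic group as `σ` -/
def FrobSet {L : Type*} [Field L] [NumberField L] (σ : L ≃ₐ[ℚ] L) : Set ℕ :=
  {p | p.Prime ∧ ∃ P : Ideal (𝓞 L), P.IsPrime ∧ (p : 𝓞 L) ∈ P ∧ ∃ τ : L ≃ₐ[ℚ] L,
    Subgroup.zpowers τ = Subgroup.zpowers σ ∧ IsFrob p P τ}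

/-- `S` contains at least `c x / log x` primes up to `x`, for large `x` -/
def ManyPrimes (S : Set ℕ) : Prop :=
  ∃ c : ℝ, 0 < c ∧ ∃ x0 : ℕ, ∀ x : ℕ, x0 ≤ x →
    c * (x / Real.log x) ≤ ({p : ℕ | p ∈ S ∧ p ≤ x}.ncard : ℝ)

/-- sum of `a p * log p / p` over the primes up to `Y` -/
noncomputable def wsum (a : ℕ → ℕ) (Y : ℕ) : ℝ :=
  ∑ p ∈ (Finset.Icc 1 Y).filter Nat.Prime, (a p : ℝ) * (Real.log p / p)

theorem log_div_nonneg (p : ℕ) : 0 ≤ Real.log p / (p : ℝ) :=
  div_nonneg (Real.log_natCast_nonneg p) (Nat.cast_nonneg p)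

theorem wsum_add (a b : ℕ → ℕ) (Y : ℕ) :
    wsum (fun p => a p + b p) Y = wsum a Y + wsum b Y := by
  simp only [wsum, Nat.cast_add, add_mul, Finset.sum_add_distrib]

theorem wsum_sum {ι : Type*} (s : Finset ι) (b : ι → ℕ → ℕ) (Y : ℕ) :
    wsum (fun p => ∑ i ∈ s, b i p) Y = ∑ i ∈ s, wsum (b i) Y := by
  simp only [wsum, Nat.cast_sum, Finset.sum_mul]
  rw [Finset.sum_comm]

theorem many_of_wsum {S : Set ℕ} {a : ℕ → ℕ} {A : ℕ} (hA : ∀ p, a p ≤ A)
    (hS : ∀ p, p.Prime → 0 < a p → p ∈ S) {k : ℕ} (hk : 1 ≤ k) {C : ℝ}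
    (h : ∀ Y : ℕ, 1 ≤ Y → |wsum a Y - k * Real.log Y| ≤ C) : ManyPrimes S := by
  classical
  have hC : 0 ≤ C := le_trans (abs_nonneg _) (h 1 le_rfl)
  obtain ⟨K, hK2, hKC⟩ : ∃ K : ℕ, 2 ≤ K ∧ 2 * C + 1 ≤ Real.log K := by
    refine ⟨⌈Real.exp (2 * C + 1)⌉₊ + 2, by omega, ?_⟩
    rw [Real.le_log_iff_exp_le (by positivity)]
    push_cast
    have := Nat.le_ceil (Real.exp (2 * C + 1))
    linarith
  refine ⟨1 / (2 * K * (A + 1)), by positivity, 4 * K, ?_⟩
  intro y hy
  set x : ℕ := y / K with hx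
  have hK0 : 0 < K := by omega
  have hx4 : 4 ≤ x := (Nat.le_div_iff_mul_le hK0).2 hy
  have hKx : K * x ≤ y := Nat.mul_div_le y K
  have hyx : y < K * (x + 1) := by
    rw [mul_comm]; exact Nat.lt_mul_of_div_lt (Nat.lt_succ_self _) hK0
  have hKR : (2 : ℝ) ≤ K := by exact_mod_cast hK2
  have hxR : (4 : ℝ) ≤ x := by exact_mod_cast hx4
  have hyR : (4 : ℝ) * K ≤ y := by exact_mod_cast hy
  have hyxR : (y : ℝ) < K * (x + 1) := by exact_mod_cast hyx
  have hKxR : (K : ℝ) * x ≤ y := by exact_mod_cast hKx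
  -- the window
  set T : Finset ℕ := (Finset.Icc 1 (K * x)).filter Nat.Prime \ (Finset.Icc 1 x).filter Nat.Prime
    with hT
  have hsub : (Finset.Icc 1 x).filter Nat.Prime ⊆ (Finset.Icc 1 (K * x)).filter Nat.Prime := by
    apply Finset.filter_subset_filter
    apply Finset.Icc_subset_Icc le_rfl
    exact Nat.le_mul_of_pos_left x hK0
  have hsum : ∑ p ∈ T, (a p : ℝ) * (Real.log p / p) = wsum a (K * x) - wsum a x := by
    have := Finset.sum_sdiff (f := fun p : ℕ => (a p : ℝ) * (Real.log p / p)) hsub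
    simp only [wsum]
    linarith
  have h1 := h (K * x) (by nlinarith)
  have h2 := h x (by omega)
  rw [abs_le] at h1 h2
  have hlog : Real.log ((K * x : ℕ) : ℝ) = Real.log K + Real.log x := by
    push_cast
    exact Real.log_mul (by positivity) (by positivity)
  rw [hlog] at h1
  have hlogK : 0 ≤ Real.log K := by linarith
  have hkR : (1 : ℝ) ≤ k := by exact_mod_cast hk
  have hge : 1 ≤ ∑ p ∈ T, (a p : ℝ) * (Real.log p / p) := by
    rw [hsum]
    nlinarith [h1.1, h2.2]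
  set T' : Finset ℕ := T.filter (fun p => p ∈ S) with hT'
  have hle : ∑ p ∈ T, (a p : ℝ) * (Real.log p / p) ≤ (T'.card : ℝ) * ((A + 1) * (Real.log x / x)) := by
    have h3 : ∑ p ∈ T, (a p : ℝ) * (Real.log p / p) = ∑ p ∈ T', (a p : ℝ) * (Real.log p / p) := by
      symm
      apply Finset.sum_subset (Finset.filter_subset _ _)
      intro p hp hp'
      have hpr : p.Prime := (Finset.mem_filter.1 (Finset.mem_sdiff.1 hp).1).2
      have : ¬ 0 < a p := by
        intro h0
        exact hp' (Finset.mem_filter.2 ⟨hp, hS p hpr h0⟩)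
      have h0 : a p = 0 := by omega
      rw [h0]; simp
    rw [h3]
    have h4 : ∀ p ∈ T', (a p : ℝ) * (Real.log p / p) ≤ (A + 1) * (Real.log x / x) := by
      intro p hp
      have hpT := (Finset.mem_filter.1 hp).1
      have hp1 := Finset.mem_sdiff.1 hpT
      have hpr : p.Prime := (Finset.mem_filter.1 hp1.1).2
      have hxp : x < p := by
        by_contra hcon
        exact hp1.2 (Finset.mem_filter.2 ⟨Finset.mem_Icc.2 ⟨hpr.one_lt.le, by omega⟩, hpr⟩)
      have hxpR : (x : ℝ) ≤ p := by exact_mod_cast hxp.le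
      have he : Real.exp 1 ≤ x := by
        have := Real.exp_one_lt_d9
        linarith
      have h5 := Real.log_div_self_antitoneOn (a := (x : ℝ)) (b := (p : ℝ)) he (he.trans hxpR) hxpR
      have h6 : (a p : ℝ) ≤ A + 1 := by
        have : (a p : ℝ) ≤ A := by exact_mod_cast hA p
        linarith
      exact mul_le_mul h6 h5 (log_div_nonneg p) (by positivity)
    refine (Finset.sum_le_sum h4).trans ?_
    rw [Finset.sum_const, nsmul_eq_mul]
  have hcard : (T'.card : ℝ) ≤ ({p : ℕ | p ∈ S ∧ p ≤ y}.ncard : ℝ) := by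
    rw [← Set.ncard_coe_finset T']
    have hfin : {p : ℕ | p ∈ S ∧ p ≤ y}.Finite := (Set.finite_Iic y).subset (fun p hp => hp.2)
    have hss : (T' : Set ℕ) ⊆ {p : ℕ | p ∈ S ∧ p ≤ y} := by
      intro p hp
      have hp0 := Finset.mem_filter.1 (Finset.mem_coe.1 hp)
      have hp1 := Finset.mem_sdiff.1 hp0.1
      have hp2 := Finset.mem_Icc.1 (Finset.mem_filter.1 hp1.1).1
      exact ⟨hp0.2, hp2.2.trans hKx⟩
    exact_mod_cast Set.ncard_le_ncard hss hfin
  refine le_trans ?_ hcard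
  have hx0 : (0 : ℝ) < x := by linarith
  have hlx : 0 < Real.log x := Real.log_pos (by linarith)
  have hxy : (x : ℝ) ≤ y := by nlinarith
  have hlxy : Real.log x ≤ Real.log y := Real.log_le_log hx0 hxy
  have hly : 0 < Real.log y := lt_of_lt_of_le hlx hlxy
  have h7 : 1 ≤ (T'.card : ℝ) * ((A + 1) * (Real.log x / x)) := hge.trans hle
  have h8 : (x : ℝ) ≤ T'.card * ((A + 1) * Real.log x) := by
    have h9 : (T'.card : ℝ) * ((A + 1) * (Real.log x / x)) = T'.card * ((A + 1) * Real.log x) / x := by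
      ring
    rw [h9, le_div_iff₀ hx0, one_mul] at h7
    exact h7
  have h10 : (x : ℝ) ≤ T'.card * ((A + 1) * Real.log y) := by
    refine h8.trans ?_
    gcongr
  have h11 : (y : ℝ) ≤ 2 * K * x := by nlinarith
  rw [show 1 / (2 * (K : ℝ) * (A + 1)) * (y / Real.log y) = y / (2 * K * (A + 1) * Real.log y) by
    field_simp]
  rw [div_le_iff₀ (by positivity)]
  calc (y : ℝ) ≤ 2 * K * x := h11
    _ ≤ 2 * K * (T'.card * ((A + 1) * Real.log y)) := by gcongr
    _ = T'.card * (2 * K * (A + 1) * Real.log y) := by ring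

theorem sum_P1_eq (M : Type*) [Field M] [NumberField M] (Y : ℕ) :
    ∑ Q ∈ P1 M Y, Real.log (Ideal.absNorm Q) / (Ideal.absNorm Q : ℝ) = wsum (n1 M) Y := by
  classical
  unfold wsum
  rw [← Finset.sum_fiberwise_of_maps_to (s := P1 M Y) (t := (Finset.Icc 1 Y).filter Nat.Prime)
    (g := fun Q => Ideal.absNorm Q)]
  · apply Finset.sum_congr rfl
    intro p hp
    have hp1 := Finset.mem_filter.1 hp
    have hp2 := Finset.mem_Icc.1 hp1.1
    have h1 : (P1 M Y).filter (fun Q => Ideal.absNorm Q = p) =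
        (P1 M p).filter (fun Q => Ideal.absNorm Q = p) := by
      ext Q
      simp only [Finset.mem_filter, mem_P1]
      constructor
      · rintro ⟨⟨h1, h2, h3⟩, h4⟩
        exact ⟨⟨h1, h2, h4.le⟩, h4⟩
      · rintro ⟨⟨h1, h2, h3⟩, h4⟩
        exact ⟨⟨h1, h2, h4 ▸ hp2.2⟩, h4⟩
    have h2 : ∀ Q ∈ (P1 M Y).filter (fun Q => Ideal.absNorm Q = p),
        Real.log (Ideal.absNorm Q) / (Ideal.absNorm Q : ℝ) = Real.log p / p := by
      intro Q hQ
      rw [(Finset.mem_filter.1 hQ).2]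
    rw [Finset.sum_congr rfl h2, Finset.sum_const, nsmul_eq_mul, h1]
    congr 2
  · intro Q hQ
    rw [mem_P1] at hQ
    exact Finset.mem_filter.2 ⟨Finset.mem_Icc.2 ⟨hQ.2.1.one_lt.le, hQ.2.2⟩, hQ.2.1⟩

theorem wsum_approx {a b : ℕ → ℕ} {B k : ℕ} (hab : ∀ p, p.Prime → B < p → a p * k = b p)
    {C : ℝ} (h : ∀ Y : ℕ, 1 ≤ Y → |wsum a Y - Real.log Y| ≤ C) :
    ∃ C' : ℝ, ∀ Y : ℕ, 1 ≤ Y → |wsum b Y - k * Real.log Y| ≤ C' := by
  classical
  set E : ℝ := ∑ p ∈ Finset.Icc 1 B, |((b p : ℝ) - a p * k) * (Real.log p / p)| with hE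
  refine ⟨E + k * C, ?_⟩
  intro Y hY
  have h1 : wsum b Y - k * wsum a Y =
      ∑ p ∈ (Finset.Icc 1 Y).filter Nat.Prime, ((b p : ℝ) - a p * k) * (Real.log p / p) := by
    unfold wsum
    rw [Finset.mul_sum, ← Finset.sum_sub_distrib]
    apply Finset.sum_congr rfl
    intro p _
    ring
  have h2 : |wsum b Y - k * wsum a Y| ≤ E := by
    rw [h1]
    refine (Finset.abs_sum_le_sum_abs _ _).trans ?_
    have h3 : ∑ p ∈ (Finset.Icc 1 Y).filter Nat.Prime, |((b p : ℝ) - a p * k) * (Real.log p / p)|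
        = ∑ p ∈ ((Finset.Icc 1 Y).filter Nat.Prime).filter (fun p => p ≤ B),
          |((b p : ℝ) - a p * k) * (Real.log p / p)| := by
      symm
      apply Finset.sum_subset (Finset.filter_subset _ _)
      intro p hp hp'
      have hpr := (Finset.mem_filter.1 hp).2
      have hB : B < p := by
        by_contra hcon
        exact hp' (Finset.mem_filter.2 ⟨hp, by omega⟩)
      have h4 := hab p hpr hB
      rw [← h4]
      push_cast
      simp
    rw [h3, hE]
    apply Finset.sum_le_sum_of_subset_of_nonneg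
    · intro p hp
      have hp1 := Finset.mem_filter.1 hp
      have hp2 := Finset.mem_Icc.1 (Finset.mem_filter.1 hp1.1).1
      exact Finset.mem_Icc.2 ⟨hp2.1, hp1.2⟩
    · intro _ _ _
      exact abs_nonneg _
  have h5 : |(k : ℝ) * (wsum a Y - Real.log Y)| ≤ k * C := by
    rw [abs_mul, Nat.abs_cast]
    exact mul_le_mul_of_nonneg_left (h Y hY) (Nat.cast_nonneg k)
  calc |wsum b Y - k * Real.log Y|
      = |(wsum b Y - k * wsum a Y) + k * (wsum a Y - Real.log Y)| := by congr 1; ring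
    _ ≤ |wsum b Y - k * wsum a Y| + |(k : ℝ) * (wsum a Y - Real.log Y)| := abs_add_le _ _
    _ ≤ E + k * C := add_le_add h2 h5

theorem card_mem_eq {G : Type*} [Group G] [Finite G] (κ : G → G) (D : Subgroup G)
    (s : Finset (Subgroup G)) (hs : ∀ E, E ∈ s ↔ E < D) :
    Nat.card {g : G // κ g ∈ D} = Nat.card {g : G // Subgroup.zpowers (κ g) = D} +
      ∑ E ∈ s, Nat.card {g : G // Subgroup.zpowers (κ g) = E} := by
  classical
  have := Fintype.ofFinite G
  simp only [Nat.card_eq_fintype_card, Fintype.card_subtype]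
  have hD : D ∉ s := by rw [hs]; exact lt_irrefl D
  have h1 := Finset.card_eq_sum_card_fiberwise (s := Finset.univ.filter (fun g : G => κ g ∈ D))
    (t := insert D s) (f := fun g => Subgroup.zpowers (κ g)) (by
      intro g hg
      have hg1 : κ g ∈ D := by simpa using hg
      have hg2 : Subgroup.zpowers (κ g) ≤ D := by rwa [Subgroup.zpowers_le]
      rcases hg2.lt_or_eq with h | h
      · exact Finset.mem_coe.2 (Finset.mem_insert_of_mem ((hs _).2 h))
      · have h' : Subgroup.zpowers (κ g) ∈ insert D s := by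
          rw [h]; exact Finset.mem_insert_self _ _
        exact Finset.mem_coe.2 h')
  have h3 : ∀ E ∈ insert D s, (Finset.univ.filter (fun g : G => κ g ∈ D)).filter
      (fun g => Subgroup.zpowers (κ g) = E) =
      Finset.univ.filter (fun g : G => Subgroup.zpowers (κ g) = E) := by
    intro E hE
    ext g
    simp only [Finset.mem_filter, Finset.mem_univ, true_and, and_iff_right_iff_imp]
    intro hg
    have hE1 : E ≤ D := by
      rcases Finset.mem_insert.1 hE with h | h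
      · exact h.le
      · exact ((hs E).1 h).le
    exact hE1 (hg ▸ Subgroup.mem_zpowers (κ g))
  rw [h1, Finset.sum_congr rfl (fun E hE => by rw [h3 E hE]), Finset.sum_insert hD]

theorem cyclic_inversion {G : Type*} [Group G] [Finite G] (κ : ℕ → G → G)
    (h : ∀ D : Subgroup G, ∃ C : ℝ, ∀ Y : ℕ, 1 ≤ Y →
      |wsum (fun p => Nat.card {g : G // κ p g ∈ D}) Y - (Nat.card D : ℕ) * Real.log Y| ≤ C)
    (D : Subgroup G) : ∃ C : ℝ, ∀ Y : ℕ, 1 ≤ Y →
      |wsum (fun p => Nat.card {g : G // Subgroup.zpowers (κ p g) = D}) Y -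
        (Nat.card {c : G // Subgroup.zpowers c = D} : ℕ) * Real.log Y| ≤ C := by
  classical
  induction D using WellFoundedLT.induction with
  | ind D ih =>
    have := Fintype.ofFinite (Subgroup G)
    set s : Finset (Subgroup G) := Finset.univ.filter (fun E => E < D) with hs
    have hs' : ∀ E, E ∈ s ↔ E < D := by intro E; simp [hs]
    have ih' : ∀ E : Subgroup G, ∃ C : ℝ, E ∈ s → ∀ Y : ℕ, 1 ≤ Y →
        |wsum (fun p => Nat.card {g : G // Subgroup.zpowers (κ p g) = E}) Y -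
          (Nat.card {c : G // Subgroup.zpowers c = E} : ℕ) * Real.log Y| ≤ C := by
      intro E
      by_cases hE : E ∈ s
      · obtain ⟨C, hC⟩ := ih E ((hs' E).1 hE)
        exact ⟨C, fun _ => hC⟩
      · exact ⟨0, fun h => absurd h hE⟩
    choose CE hCE using ih'
    obtain ⟨C0, hC0⟩ := h D
    refine ⟨C0 + ∑ E ∈ s, CE E, ?_⟩
    intro Y hY
    have h1 : wsum (fun p => Nat.card {g : G // κ p g ∈ D}) Y =
        wsum (fun p => Nat.card {g : G // Subgroup.zpowers (κ p g) = D}) Y +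
        ∑ E ∈ s, wsum (fun p => Nat.card {g : G // Subgroup.zpowers (κ p g) = E}) Y := by
      rw [← wsum_sum, ← wsum_add]
      congr 1
      funext p
      exact card_mem_eq (κ p) D s hs'
    have h2 : (Nat.card D : ℕ) = Nat.card {c : G // Subgroup.zpowers c = D} +
        ∑ E ∈ s, Nat.card {c : G // Subgroup.zpowers c = E} :=
      card_mem_eq (fun g => g) D s hs'
    have h3 : ((Nat.card D : ℕ) : ℝ) = (Nat.card {c : G // Subgroup.zpowers c = D} : ℕ) +
        ∑ E ∈ s, ((Nat.card {c : G // Subgroup.zpowers c = E} : ℕ) : ℝ) := by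
      rw [h2]; push_cast; rfl
    have h4 := hC0 Y hY
    have h5 : |∑ E ∈ s, (wsum (fun p => Nat.card {g : G // Subgroup.zpowers (κ p g) = E}) Y -
          (Nat.card {c : G // Subgroup.zpowers c = E} : ℕ) * Real.log Y)| ≤ ∑ E ∈ s, CE E :=
      (Finset.abs_sum_le_sum_abs _ _).trans (Finset.sum_le_sum (fun E hE => hCE E hE Y hY))
    rw [Finset.sum_sub_distrib, ← Finset.sum_mul] at h5
    rw [h1, h3] at h4
    rw [abs_le] at h4 h5 ⊢
    constructor <;> nlinarith [h4.1, h4.2, h5.1, h5.2]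

/-- Frobenius density theorem -/
theorem frob_density {L : Type*} [Field L] [NumberField L] [IsGalois ℚ L] (σ : L ≃ₐ[ℚ] L) :
    ManyPrimes (FrobSet σ) := by
  classical
  have key : ∀ p : ℕ, ∃ τ : L ≃ₐ[ℚ] L, p.Prime → ∃ P : Ideal (𝓞 L), P.IsPrime ∧
      (p : 𝓞 L) ∈ P ∧ IsFrob p P τ := by
    intro p
    by_cases hp : p.Prime
    · obtain ⟨P, hP, hpP, τ, hτ⟩ := exists_frob L hp
      exact ⟨τ, fun _ => ⟨P, hP, hpP, hτ⟩⟩
    · exact ⟨1, fun h => absurd h hp⟩
  choose τ hτ using key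
  have hD : ∀ D : Subgroup (L ≃ₐ[ℚ] L), ∃ C : ℝ, ∀ Y : ℕ, 1 ≤ Y →
      |wsum (fun p => Nat.card {g : L ≃ₐ[ℚ] L // g⁻¹ * τ p * g ∈ D}) Y -
        (Nat.card D : ℕ) * Real.log Y| ≤ C := by
    intro D
    obtain ⟨B, hB⟩ := n1_fixed D
    obtain ⟨C, hC⟩ := mertens (IntermediateField.fixedField D)
    refine wsum_approx (a := n1 (IntermediateField.fixedField D)) (B := B) (C := C) ?_ ?_
    · intro p hp hBp
      obtain ⟨P, hP, hpP, hF⟩ := hτ p hp
      exact hB p hp hBp P hP hpP (τ p) hF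
    · intro Y hY
      rw [← sum_P1_eq]
      exact hC Y hY
  obtain ⟨C, hC⟩ := cyclic_inversion (fun p g => g⁻¹ * τ p * g) hD (Subgroup.zpowers σ)
  have hpos : 1 ≤ Nat.card {c : L ≃ₐ[ℚ] L // Subgroup.zpowers c = Subgroup.zpowers σ} := by
    have : Nonempty {c : L ≃ₐ[ℚ] L // Subgroup.zpowers c = Subgroup.zpowers σ} := ⟨⟨σ, rfl⟩⟩
    exact Nat.card_pos
  refine many_of_wsum (A := Nat.card (L ≃ₐ[ℚ] L)) ?_ ?_ hpos hC
  · intro p
    exact Nat.card_le_card_of_injective _ Subtype.val_injective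
  · intro p hp h0
    have hne : Nonempty {g : L ≃ₐ[ℚ] L // Subgroup.zpowers (g⁻¹ * τ p * g) = Subgroup.zpowers σ} := by
      by_contra hcon
      rw [not_nonempty_iff] at hcon
      rw [Nat.card_of_isEmpty] at h0
      exact lt_irrefl 0 h0
    obtain ⟨g, hg⟩ := hne
    obtain ⟨P, hP, hpP, hF⟩ := hτ p hp
    obtain ⟨P', hP', hpP', hF'⟩ := hF.conj hP hpP g
    exact ⟨hp, P', hP', hpP', g⁻¹ * τ p * g, hg, hF'⟩

end Pool.Agent.ORB
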