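import Pool.Agent.ORB.Box

/-! ORB, M1c: prime ideals dividing an element; sums over prime ideals. -/

namespace Pool.Agent.ORB

open NumberField Module UniqueFactorizationMonoid

variable {M : Type*} [Field M] [NumberField M]

theorem absNorm_span_nat (p : ℕ) : Ideal.absNorm (Ideal.span {(p : 𝓞 M)}) = p ^ deg M := by
  rw [Ideal.absNorm_span_singleton]
  have h : Algebra.norm ℤ ((p : 𝓞 M)) = (p : ℤ) ^ deg M := by
    have h1 := Algebra.norm_algebraMap_of_basis (RingOfIntegers.basis M) (p : ℤ)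
    rw [deg]
    rw [← h1]
    simp
  rw [h]
  simp [Int.natAbs_pow]

theorem two_le_absNorm {Q : Ideal (𝓞 M)} (hp : Q.IsPrime) (hb : Q ≠ ⊥) : 2 ≤ Ideal.absNorm Q := by
  have h3 : Ideal.absNorm Q ≠ 0 := by rwa [Ne, Ideal.absNorm_eq_zero_iff]
  have h4 : Ideal.absNorm Q ≠ 1 := by
    rw [Ne, Ideal.absNorm_eq_one_iff]; exact hp.ne_top
  omega

/-- at most `deg M` prime ideals contain the prime number `p` -/
theorem card_over {p : ℕ} (hp : p.Prime) (S : Finset (Ideal (𝓞 M)))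
    (hS : ∀ Q ∈ S, Q.IsPrime ∧ (p : 𝓞 M) ∈ Q) : S.card ≤ deg M := by
  classical
  have hp0 : (p : 𝓞 M) ≠ 0 := by exact_mod_cast hp.ne_zero
  have hI : Ideal.span {(p : 𝓞 M)} ≠ ⊥ := by
    rw [Ne, Ideal.span_singleton_eq_bot]; exact hp0
  have h1 : S ⊆ (normalizedFactors (Ideal.span {(p : 𝓞 M)})).toFinset := by
    intro Q hQ
    rw [Multiset.mem_toFinset, Ideal.mem_normalizedFactors_iff hI]
    refine ⟨(hS Q hQ).1, ?_⟩
    rw [Ideal.span_singleton_le_iff_mem]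
    exact (hS Q hQ).2
  have h2 : S.card ≤ (normalizedFactors (Ideal.span {(p : 𝓞 M)})).card :=
    (Finset.card_le_card h1).trans (Multiset.toFinset_card_le _)
  have h3 : ((normalizedFactors (Ideal.span {(p : 𝓞 M)})).map Ideal.absNorm).prod = p ^ deg M := by
    rw [← absNorm_span_nat (M := M) p]
    rw [← map_multiset_prod]
    congr 1
    exact Ideal.prod_normalizedFactors_eq_self hI
  have h4 : p ^ (normalizedFactors (Ideal.span {(p : 𝓞 M)})).card ≤ p ^ deg M := by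
    rw [← h3]
    have := Multiset.pow_card_le_prod (s := (normalizedFactors (Ideal.span {(p : 𝓞 M)})).map Ideal.absNorm)
      (a := p) ?_
    · simpa using this
    · intro x hx
      rw [Multiset.mem_map] at hx
      obtain ⟨Q, hQ, rfl⟩ := hx
      rw [Ideal.mem_normalizedFactors_iff hI] at hQ
      obtain ⟨hQp, hQle⟩ := hQ
      have hQb : Q ≠ ⊥ := by
        rintro rfl
        exact hI (le_bot_iff.mp hQle)
      have : Q.IsMaximal := hQp.isMaximal hQb
      obtain ⟨q, n, hn, hqQ, hq, hN⟩ := Ideal.exists_prime_and_absNorm_eq_pow Q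
      have hpQ : (p : 𝓞 M) ∈ Q := hQle (Ideal.mem_span_singleton_self _)
      have : q = p := by
        by_contra hne
        have hc : Nat.Coprime q p := (Nat.coprime_primes hq hp).mpr hne
        have h5 : IsCoprime (q : ℤ) (p : ℤ) := Nat.isCoprime_iff_coprime.mpr hc
        obtain ⟨a, b, hab⟩ := h5
        apply hQp.ne_top
        rw [Ideal.eq_top_iff_one]
        have h6 : (1 : 𝓞 M) = (a : 𝓞 M) * (q : 𝓞 M) + (b : 𝓞 M) * (p : 𝓞 M) := by
          exact_mod_cast congrArg (Int.cast : ℤ → 𝓞 M) hab.symm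
        rw [h6]
        exact Q.add_mem (Q.mul_mem_left _ hqQ) (Q.mul_mem_left _ hpQ)
      subst this
      rw [hN]
      exact Nat.le_self_pow (by omega) _
  exact h2.trans ((Nat.pow_le_pow_iff_right hp.one_lt).mp h4)


theorem log_absNorm_nonneg (Q : Ideal (𝓞 M)) : 0 ≤ Real.log (Ideal.absNorm Q) :=
  Real.log_natCast_nonneg _

open Classical in
theorem log_nrm_eq {v : Idx M → ℤ} (hv : v ≠ 0) :
    Real.log (nrm v) = ∑ Q ∈ (normalizedFactors (Ideal.span {el v})).toFinset,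
      ((normalizedFactors (Ideal.span {el v})).count Q : ℝ) * Real.log (Ideal.absNorm Q) := by
  have hI : Ideal.span {el v} ≠ ⊥ := by
    rw [Ne, Ideal.span_singleton_eq_bot]; exact el_ne_zero hv
  have h1 : nrm v = ∏ Q ∈ (normalizedFactors (Ideal.span {el v})).toFinset,
      Ideal.absNorm Q ^ (normalizedFactors (Ideal.span {el v})).count Q := by
    rw [← Finset.prod_multiset_map_count, ← map_multiset_prod,
      Ideal.prod_normalizedFactors_eq_self hI]
    rfl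
  rw [h1]
  push_cast
  rw [Real.log_prod]
  · refine Finset.sum_congr rfl (fun Q _ => ?_)
    rw [Real.log_pow]
  · intro Q hQ
    rw [Multiset.mem_toFinset, Ideal.mem_normalizedFactors_iff hI] at hQ
    have hQb : Q ≠ ⊥ := by
      rintro rfl
      exact hI (le_bot_iff.mp hQ.2)
    have := two_le_absNorm hQ.1 hQb
    positivity

open Classical in
theorem mem_pow_iff {v : Idx M → ℤ} (hv : v ≠ 0) {Q : Ideal (𝓞 M)} (hQ : Q.IsPrime) (hb : Q ≠ ⊥) (k : ℕ) :
    el v ∈ Q ^ k ↔ k ≤ (normalizedFactors (Ideal.span {el v})).count Q := by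
  have hI : Ideal.span {el v} ≠ ⊥ := by
    rw [Ne, Ideal.span_singleton_eq_bot]; exact el_ne_zero hv
  have hir : Irreducible Q := ((Ideal.prime_iff_isPrime hb).mpr hQ).irreducible
  rw [← Ideal.span_singleton_le_iff_mem, ← Ideal.dvd_iff_le, pow_dvd_iff_le_emultiplicity,
    emultiplicity_eq_count_normalizedFactors hir hI, normalize_eq]
  exact Nat.cast_le

open Classical in
theorem log_nrm_ge {v : Idx M → ℤ} (hv : v ≠ 0) (Y : ℕ) :
    ∑ Q ∈ (P1 M Y).filter (fun Q => el v ∈ Q), Real.log (Ideal.absNorm Q) ≤ Real.log (nrm v) := by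
  rw [log_nrm_eq hv]
  have key : ∀ Q ∈ (P1 M Y).filter (fun Q => el v ∈ Q),
      1 ≤ (normalizedFactors (Ideal.span {el v})).count Q := by
    intro Q hQ
    rw [Finset.mem_filter, mem_P1] at hQ
    obtain ⟨⟨h1, h2, h3⟩, h4⟩ := hQ
    have hb : Q ≠ ⊥ := by
      rintro rfl
      rw [Ideal.absNorm_bot] at h2
      exact Nat.not_prime_zero h2
    rw [← mem_pow_iff hv h1 hb, pow_one]
    exact h4
  calc ∑ Q ∈ (P1 M Y).filter (fun Q => el v ∈ Q), Real.log (Ideal.absNorm Q)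
      ≤ ∑ Q ∈ (P1 M Y).filter (fun Q => el v ∈ Q),
        ((normalizedFactors (Ideal.span {el v})).count Q : ℝ) * Real.log (Ideal.absNorm Q) := by
        refine Finset.sum_le_sum (fun Q hQ => ?_)
        have h1 : (1 : ℝ) ≤ ((normalizedFactors (Ideal.span {el v})).count Q : ℝ) := by
          exact_mod_cast key Q hQ
        have h2 := log_absNorm_nonneg Q
        nlinarith
    _ ≤ _ := by
        refine Finset.sum_le_sum_of_subset_of_nonneg ?_ ?_
        · intro Q hQ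
          rw [Multiset.mem_toFinset, ← Multiset.one_le_count_iff_mem]
          exact key Q hQ
        · intro Q _ _
          exact mul_nonneg (Nat.cast_nonneg _) (log_absNorm_nonneg Q)

open Classical in
theorem log_nrm_le {v : Idx M → ℤ} (hv : v ≠ 0) {Y : ℕ} (hY : nrm v ≤ Y) :
    Real.log (nrm v) ≤ ∑ Q ∈ (P1 M Y).filter (fun Q => el v ∈ Q), Real.log (Ideal.absNorm Q) +
      ∑ q ∈ (PP M Y).filter (fun q => el v ∈ q.1 ^ q.2), Real.log (Ideal.absNorm q.1) := by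
  have hI : Ideal.span {el v} ≠ ⊥ := by
    rw [Ne, Ideal.span_singleton_eq_bot]; exact el_ne_zero hv
  set F := normalizedFactors (Ideal.span {el v}) with hF
  let T : Finset (Ideal (𝓞 M) × ℕ) :=
    (F.toFinset ×ˢ Finset.range (F.card + 1)).filter (fun q => q.2 ∈ Finset.Icc 1 (F.count q.1))
  have hT : ∀ q : Ideal (𝓞 M) × ℕ, q ∈ T ↔ q.1 ∈ F.toFinset ∧ q.2 ∈ Finset.Icc 1 (F.count q.1) := by
    intro q
    simp only [T, Finset.mem_filter, Finset.mem_product, Finset.mem_range, Finset.mem_Icc]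
    constructor
    · rintro ⟨⟨h1, -⟩, h2⟩
      exact ⟨h1, h2⟩
    · rintro ⟨h1, h2⟩
      exact ⟨⟨h1, by have := Multiset.count_le_card q.1 F; omega⟩, h2⟩
  have h1 : Real.log (nrm v) = ∑ q ∈ T, Real.log (Ideal.absNorm q.1) := by
    rw [log_nrm_eq hv, Finset.sum_finset_product T F.toFinset (fun Q => Finset.Icc 1 (F.count Q)) hT]
    refine Finset.sum_congr rfl (fun Q _ => ?_)
    simp only [Finset.sum_const, Nat.card_Icc, nsmul_eq_mul, Nat.add_sub_cancel]
    rfl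
  have h2 : T ⊆ ((P1 M Y).filter (fun Q => el v ∈ Q)).image (fun Q => (Q, 1)) ∪
      (PP M Y).filter (fun q => el v ∈ q.1 ^ q.2) := by
    rintro ⟨Q, k⟩ hq
    rw [hT] at hq
    obtain ⟨hq1, hq2⟩ := hq
    simp only [Finset.mem_Icc] at hq2
    rw [Multiset.mem_toFinset, Ideal.mem_normalizedFactors_iff hI] at hq1
    simp only at hq1
    have hQb : Q ≠ ⊥ := by
      rintro rfl
      exact hI (le_bot_iff.mp hq1.2)
    have hmem : el v ∈ Q ^ k := (mem_pow_iff hv hq1.1 hQb k).mpr hq2.2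
    have hN : Ideal.absNorm Q ^ k ≤ Y := by
      refine le_trans ?_ hY
      rw [← map_pow]
      refine Nat.le_of_dvd (Nat.pos_of_ne_zero (nrm_ne_zero hv)) ?_
      unfold nrm
      apply Ideal.absNorm_dvd_absNorm_of_le
      rw [Ideal.span_singleton_le_iff_mem]
      exact hmem
    rw [Finset.mem_union]
    by_cases hk : k = 1 ∧ (Ideal.absNorm Q).Prime
    · left
      rw [Finset.mem_image]
      refine ⟨Q, ?_, by rw [hk.1]⟩
      rw [Finset.mem_filter, mem_P1]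
      rw [hk.1, pow_one] at hN hmem
      exact ⟨⟨hq1.1, hk.2, hN⟩, hmem⟩
    · right
      rw [Finset.mem_filter, mem_PP]
      exact ⟨⟨hq1.1, hQb, hq2.1, hN, hk⟩, hmem⟩
  rw [h1]
  have h3 : ∑ q ∈ ((P1 M Y).filter (fun Q => el v ∈ Q)).image (fun Q => (Q, 1)),
      Real.log (Ideal.absNorm q.1) =
      ∑ Q ∈ (P1 M Y).filter (fun Q => el v ∈ Q), Real.log (Ideal.absNorm Q) := by
    rw [Finset.sum_image]
    intro a _ b _ hab
    exact (Prod.mk.inj hab).1
  rw [← h3]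
  refine (Finset.sum_le_sum_of_subset_of_nonneg h2 (fun q _ _ => log_absNorm_nonneg q.1)).trans ?_
  rw [← Finset.sum_union_inter]
  have h4 : 0 ≤ ∑ q ∈ ((P1 M Y).filter (fun Q => el v ∈ Q)).image (fun Q => (Q, 1)) ∩
      (PP M Y).filter (fun q => el v ∈ q.1 ^ q.2), Real.log (Ideal.absNorm q.1) :=
    Finset.sum_nonneg (fun q _ => log_absNorm_nonneg q.1)
  linarith

theorem norm_eq_pow {Q : Ideal (𝓞 M)} (hQ : Q.IsPrime) (hb : Q ≠ ⊥) :
    ∃ p f : ℕ, 0 < f ∧ (p : 𝓞 M) ∈ Q ∧ p.Prime ∧ Ideal.absNorm Q = p ^ f ∧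
      (Ideal.absNorm Q).minFac = p := by
  have : Q.IsMaximal := hQ.isMaximal hb
  obtain ⟨q, n, hn, hqQ, hq, hN⟩ := Ideal.exists_prime_and_absNorm_eq_pow Q
  refine ⟨q, n, hn, hqQ, hq, hN, ?_⟩
  rw [hN]
  exact hq.pow_minFac (by omega)

theorem summable_log_div_sq : Summable (fun n : ℕ => Real.log n / (n : ℝ) ^ 2) := by
  have h1 : Summable (fun n : ℕ => 2 * (n : ℝ) ^ (-(3/2) : ℝ)) := by
    refine Summable.mul_left 2 ?_
    rw [Real.summable_nat_rpow]
    norm_num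
  refine Summable.of_nonneg_of_le (fun n => ?_) (fun n => ?_) h1
  · exact div_nonneg (Real.log_natCast_nonneg n) (by positivity)
  · rcases Nat.eq_zero_or_pos n with rfl | hn
    · simp
    have hn' : (0 : ℝ) < n := by exact_mod_cast hn
    have h2 := Real.log_le_rpow_div hn'.le (ε := 1/2) (by norm_num)
    rw [div_le_iff₀ (by positivity)]
    have h3 : (n : ℝ) ^ (-(3/2) : ℝ) * (n : ℝ) ^ 2 = (n : ℝ) ^ (1/2 : ℝ) := by
      rw [← Real.rpow_natCast, ← Real.rpow_add hn']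
      norm_num
    rw [mul_assoc, h3]
    linarith

theorem sum_over_primes (S : Finset (Ideal (𝓞 M))) (hS : ∀ Q ∈ S, Q.IsPrime ∧ Q ≠ ⊥) (h : ℕ → ℝ)
    (hh : ∀ n, 0 ≤ h n) :
    ∑ Q ∈ S, h (Ideal.absNorm Q).minFac ≤
      deg M * ∑ p ∈ S.image (fun Q => (Ideal.absNorm Q).minFac), h p := by
  classical
  rw [Finset.sum_comp h (fun Q => (Ideal.absNorm Q).minFac), Finset.mul_sum]
  refine Finset.sum_le_sum (fun p hp => ?_)
  rw [nsmul_eq_mul]
  refine mul_le_mul_of_nonneg_right ?_ (hh p)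
  rw [Nat.cast_le]
  rw [Finset.mem_image] at hp
  obtain ⟨Q0, hQ0, hQp⟩ := hp
  obtain ⟨q, f, hf, hqQ, hq, hN, hmin⟩ := norm_eq_pow (hS Q0 hQ0).1 (hS Q0 hQ0).2
  have hpq : p = q := by rw [← hQp, ← hmin]
  subst hpq
  refine card_over hq _ ?_
  intro Q hQ
  rw [Finset.mem_filter] at hQ
  obtain ⟨q', f', hf', hqQ', hq', hN', hmin'⟩ := norm_eq_pow (hS Q hQ.1).1 (hS Q hQ.1).2
  refine ⟨(hS Q hQ.1).1, ?_⟩
  have : q' = p := by rw [← hmin', hQ.2]
  rw [← this]; exact hqQ'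

theorem term_le {p f k : ℕ} (hp : p.Prime) (hf : 0 < f) (hk : 1 ≤ k) (hfk : 2 ≤ f * k) :
    Real.log ((p ^ f : ℕ) : ℝ) / ((p ^ f : ℕ) : ℝ) ^ k ≤
      4 * (Real.log p / (p : ℝ) ^ 2) * (1 / 2 : ℝ) ^ k := by
  have hp2 : (2 : ℝ) ≤ p := by exact_mod_cast hp.two_le
  have hp0 : (0 : ℝ) < p := by linarith
  have hl : 0 ≤ Real.log p := Real.log_natCast_nonneg p
  have h1 : (f : ℝ) * 2 ^ k ≤ 2 ^ (f * k) := by
    have h2 : f ≤ 2 ^ (f - 1) := by
      have := Nat.lt_two_pow_self (n := f - 1)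
      omega
    have h3 : f * 2 ^ k ≤ 2 ^ (f * k) := by
      calc f * 2 ^ k ≤ 2 ^ (f - 1) * 2 ^ k := Nat.mul_le_mul_right _ h2
        _ = 2 ^ (f - 1 + k) := by rw [pow_add]
        _ ≤ 2 ^ (f * k) := by
          apply Nat.pow_le_pow_right (by norm_num)
          obtain ⟨f', rfl⟩ : ∃ f', f = f' + 1 := ⟨f - 1, by omega⟩
          obtain ⟨k', rfl⟩ : ∃ k', k = k' + 1 := ⟨k - 1, by omega⟩
          have : (f' + 1) * (k' + 1) = f' * k' + f' + k' + 1 := by ring
          rw [this]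
          have : 0 ≤ f' * k' := Nat.zero_le _
          omega
    exact_mod_cast h3
  have h4 : (4 : ℝ) * p ^ (f * k) ≥ (p : ℝ) ^ 2 * 2 ^ (f * k) := by
    obtain ⟨m, hm⟩ : ∃ m, f * k = m + 2 := ⟨f * k - 2, by omega⟩
    rw [hm, pow_add, pow_add]
    have h5 : (2 : ℝ) ^ m ≤ (p : ℝ) ^ m := pow_le_pow_left₀ (by norm_num) hp2 m
    have h6 : (0 : ℝ) < (p : ℝ) ^ 2 := by positivity
    nlinarith
  push_cast
  rw [Real.log_pow, ← pow_mul]
  rw [div_le_iff₀ (by positivity)]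
  have h7 : 4 * (Real.log p / (p : ℝ) ^ 2) * (1 / 2 : ℝ) ^ k * (p : ℝ) ^ (f * k) =
      Real.log p * ((4 * (p : ℝ) ^ (f * k)) / ((p : ℝ) ^ 2 * 2 ^ k)) := by
    field_simp
    rw [mul_assoc, ← mul_pow]
    norm_num
  rw [h7, mul_comm (f : ℝ)]
  refine mul_le_mul_of_nonneg_left ?_ hl
  rw [le_div_iff₀ (by positivity)]
  have h8 : (0 : ℝ) < (p : ℝ) ^ 2 := by positivity
  nlinarith

/-- the prime ideal powers which are not prime ideals of degree one contribute a bounded amount -/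
theorem sum_PP (M : Type*) [Field M] [NumberField M] : ∃ C : ℝ, ∀ Y : ℕ,
    ∑ q ∈ PP M Y, Real.log (Ideal.absNorm q.1) / (Ideal.absNorm q.1 : ℝ) ^ q.2 ≤ C := by
  classical
  refine ⟨8 * (deg M * ∑' n : ℕ, Real.log n / (n : ℝ) ^ 2), fun Y => ?_⟩
  set h : ℕ → ℝ := fun n => Real.log n / (n : ℝ) ^ 2 with hh
  have hnn : ∀ n, 0 ≤ h n := fun n => div_nonneg (Real.log_natCast_nonneg n) (by positivity)
  set S := (PP M Y).image Prod.fst with hS
  set K := (PP M Y).sup Prod.snd + 1 with hK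
  have h1 : PP M Y ⊆ S ×ˢ Finset.range K := by
    intro q hq
    rw [Finset.mem_product, Finset.mem_range]
    refine ⟨Finset.mem_image_of_mem _ hq, ?_⟩
    have := Finset.le_sup (f := Prod.snd) hq
    omega
  have hSp : ∀ Q ∈ S, Q.IsPrime ∧ Q ≠ ⊥ := by
    intro Q hQ
    rw [hS, Finset.mem_image] at hQ
    obtain ⟨q, hq, rfl⟩ := hQ
    rw [mem_PP] at hq
    exact ⟨hq.1, hq.2.1⟩
  calc ∑ q ∈ PP M Y, Real.log (Ideal.absNorm q.1) / (Ideal.absNorm q.1 : ℝ) ^ q.2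
      ≤ ∑ q ∈ PP M Y, 4 * h (Ideal.absNorm q.1).minFac * (1 / 2 : ℝ) ^ q.2 := by
        refine Finset.sum_le_sum (fun q hq => ?_)
        rw [mem_PP] at hq
        obtain ⟨hq1, hq2, hq3, hq4, hq5⟩ := hq
        obtain ⟨p, f, hf, hpQ, hp, hN, hmin⟩ := norm_eq_pow hq1 hq2
        rw [hmin, hN]
        refine term_le hp hf hq3 ?_
        by_contra hlt
        have hf1 : f = 1 := by nlinarith
        have hk1 : q.2 = 1 := by nlinarith
        apply hq5
        refine ⟨hk1, ?_⟩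
        rw [hN, hf1, pow_one]
        exact hp
    _ ≤ ∑ q ∈ S ×ˢ Finset.range K, 4 * h (Ideal.absNorm q.1).minFac * (1 / 2 : ℝ) ^ q.2 := by
        refine Finset.sum_le_sum_of_subset_of_nonneg h1 (fun q _ _ => ?_)
        have := hnn (Ideal.absNorm q.1).minFac
        positivity
    _ = ∑ Q ∈ S, 4 * h (Ideal.absNorm Q).minFac * ∑ k ∈ Finset.range K, (1 / 2 : ℝ) ^ k := by
        rw [Finset.sum_product]
        refine Finset.sum_congr rfl (fun Q _ => ?_)
        rw [Finset.mul_sum]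
    _ ≤ ∑ Q ∈ S, 8 * h (Ideal.absNorm Q).minFac := by
        refine Finset.sum_le_sum (fun Q _ => ?_)
        have h2 := sum_geometric_two_le K
        have h3 := hnn (Ideal.absNorm Q).minFac
        nlinarith
    _ = 8 * ∑ Q ∈ S, h (Ideal.absNorm Q).minFac := by rw [Finset.mul_sum]
    _ ≤ 8 * (deg M * ∑ p ∈ S.image (fun Q => (Ideal.absNorm Q).minFac), h p) := by
        refine mul_le_mul_of_nonneg_left (sum_over_primes S hSp h hnn) (by norm_num)
    _ ≤ 8 * (deg M * ∑' n : ℕ, h n) := by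
        refine mul_le_mul_of_nonneg_left (mul_le_mul_of_nonneg_left ?_ (Nat.cast_nonneg _)) (by norm_num)
        exact summable_log_div_sq.sum_le_tsum _ (fun n _ => hnn n)

/-- at most `deg M` prime ideals of degree one lie over a prime number -/
theorem sum_P1_le (f : ℕ → ℝ) (hf : ∀ n, 0 ≤ f n) (Y : ℕ) :
    ∑ Q ∈ P1 M Y, f (Ideal.absNorm Q) ≤ deg M * ∑ p ∈ (Finset.Icc 1 Y).filter Nat.Prime, f p := by
  classical
  have hP : ∀ Q ∈ P1 M Y, Q.IsPrime ∧ Q ≠ ⊥ ∧ (Ideal.absNorm Q).Prime ∧ Ideal.absNorm Q ≤ Y := by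
    intro Q hQ
    rw [mem_P1] at hQ
    refine ⟨hQ.1, ?_, hQ.2⟩
    rintro rfl
    rw [Ideal.absNorm_bot] at hQ
    exact Nat.not_prime_zero hQ.2.1
  have h1 : ∑ Q ∈ P1 M Y, f (Ideal.absNorm Q) = ∑ Q ∈ P1 M Y, f (Ideal.absNorm Q).minFac :=
    Finset.sum_congr rfl (fun Q hQ => by rw [(hP Q hQ).2.2.1.minFac_eq])
  rw [h1]
  refine (sum_over_primes (P1 M Y) (fun Q hQ => ⟨(hP Q hQ).1, (hP Q hQ).2.1⟩) f hf).trans ?_
  refine mul_le_mul_of_nonneg_left ?_ (Nat.cast_nonneg _)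
  refine Finset.sum_le_sum_of_subset_of_nonneg ?_ (fun p _ _ => hf p)
  intro p hp
  rw [Finset.mem_image] at hp
  obtain ⟨Q, hQ, rfl⟩ := hp
  rw [(hP Q hQ).2.2.1.minFac_eq, Finset.mem_filter, Finset.mem_Icc]
  exact ⟨⟨(hP Q hQ).2.2.1.one_lt.le, (hP Q hQ).2.2.2⟩, (hP Q hQ).2.2.1⟩

end Pool.Agent.ORB
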