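import Pool.Agent.ORB.Defs
import Pool.Agent.ORB.Val
import Pool.Agent.ORB.PrimeSums

/-! ORB, M4: counting primes; primes without roots from Frobenius elements. -/

namespace Pool.Agent.ORB

open NumberField IsDedekindDomain Polynomial

section count
variable (K : Type*) [Field K] [NumberField K]

theorem finite_norm_le (x : ℕ) :
    {v : HeightOneSpectrum (𝓞 K) | Ideal.absNorm v.asIdeal ≤ x}.Finite := by
  have h := Ideal.finite_setOfPred_absNorm_le (S := 𝓞 K) x
  exact Set.Finite.preimage (f := fun v : HeightOneSpectrum (𝓞 K) => v.asIdeal)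
    (fun a _ b _ hab => HeightOneSpectrum.ext hab) h

theorem prime_unique {v : HeightOneSpectrum (𝓞 K)} {p q : ℕ} (hp : p.Prime) (hq : q.Prime)
    (hpv : (p : 𝓞 K) ∈ v.asIdeal) (hqv : (q : 𝓞 K) ∈ v.asIdeal) : p = q := by
  by_contra hne
  have hc : Nat.Coprime p q := (Nat.coprime_primes hp hq).mpr hne
  obtain ⟨a, b, hab⟩ := Nat.isCoprime_iff_coprime.mpr hc
  apply v.isPrime.ne_top
  rw [Ideal.eq_top_iff_one]
  have h6 : (1 : 𝓞 K) = (a : 𝓞 K) * (p : 𝓞 K) + (b : 𝓞 K) * (q : 𝓞 K) := by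
    exact_mod_cast congrArg (Int.cast : ℤ → 𝓞 K) hab.symm
  rw [h6]
  exact v.asIdeal.add_mem (v.asIdeal.mul_mem_left _ hpv) (v.asIdeal.mul_mem_left _ hqv)

theorem exists_over {p : ℕ} (hp : p.Prime) : ∃ v : HeightOneSpectrum (𝓞 K), (p : 𝓞 K) ∈ v.asIdeal := by
  have h1 : Ideal.span {(p : 𝓞 K)} ≠ ⊤ := by
    intro h
    have h2 := absNorm_span_nat (M := K) p
    rw [h, Ideal.absNorm_top] at h2
    have h3 := one_lt_pow₀ hp.one_lt (deg_pos (M := K)).ne'
    omega
  obtain ⟨m, hm, hle⟩ := Ideal.exists_le_maximal _ h1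
  have hpm : (p : 𝓞 K) ∈ m := hle (Ideal.mem_span_singleton_self _)
  refine ⟨⟨m, hm.isPrime, ?_⟩, hpm⟩
  rintro rfl
  rw [Ideal.mem_bot] at hpm
  exact hp.ne_zero (by exact_mod_cast hpm)

instance infinite_primes : Infinite (HeightOneSpectrum (𝓞 K)) := by
  have h : ∀ p : {p : ℕ // p.Prime}, ∃ v : HeightOneSpectrum (𝓞 K), ((p : ℕ) : 𝓞 K) ∈ v.asIdeal :=
    fun p => exists_over K p.2
  choose V hV using h
  have : Infinite {p : ℕ // p.Prime} := Nat.infinite_setOfPred_prime.to_subtype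
  refine Infinite.of_injective V fun p q hpq => Subtype.ext ?_
  have h2 := hV q
  rw [← hpq] at h2
  exact prime_unique K p.2 q.2 (hV p) h2

theorem count_unbounded (k : ℕ) : ∃ x0 : ℕ, ∀ x : ℕ, x0 ≤ x →
    k ≤ {v : HeightOneSpectrum (𝓞 K) | Ideal.absNorm v.asIdeal ≤ x}.ncard := by
  obtain ⟨T, hT⟩ := Infinite.exists_subset_card_eq (HeightOneSpectrum (𝓞 K)) k
  refine ⟨T.sup fun v => Ideal.absNorm v.asIdeal, fun x hx => ?_⟩
  rw [← hT, ← Set.ncard_coe_finset]
  refine Set.ncard_le_ncard (fun v hv => ?_) (finite_norm_le K x)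
  exact (Finset.le_sup (f := fun v : HeightOneSpectrum (𝓞 K) => Ideal.absNorm v.asIdeal) hv).trans hx

theorem count_le : ∃ C : ℝ, 0 < C ∧ ∀ x : ℕ, 2 ≤ x →
    ({v : HeightOneSpectrum (𝓞 K) | Ideal.absNorm v.asIdeal ≤ x}.ncard : ℝ) ≤
      C * (x / Real.log x) := by
  classical
  refine ⟨deg K * 20, by have := deg_pos (M := K); positivity, fun x hx => ?_⟩
  have hfin := finite_norm_le K x
  set T := hfin.toFinset with hT
  set S : Finset (Ideal (𝓞 K)) := T.image fun v => v.asIdeal with hS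
  have hc : {v : HeightOneSpectrum (𝓞 K) | Ideal.absNorm v.asIdeal ≤ x}.ncard = S.card := by
    rw [Set.ncard_eq_toFinset_card _ hfin, hS, Finset.card_image_of_injective]
    exact fun a b hab => HeightOneSpectrum.ext hab
  have hSp : ∀ Q ∈ S, Q.IsPrime ∧ Q ≠ ⊥ := by
    intro Q hQ
    rw [hS, Finset.mem_image] at hQ
    obtain ⟨v, _, rfl⟩ := hQ
    exact ⟨v.isPrime, v.ne_bot⟩
  have h1 := sum_over_primes S hSp (fun _ => 1) (fun _ => zero_le_one)
  rw [Finset.sum_const, Finset.sum_const, nsmul_eq_mul, nsmul_eq_mul, mul_one, mul_one] at h1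
  have h2 : (S.image fun Q => (Ideal.absNorm Q).minFac).card ≤ Nat.primeCounting x := by
    rw [← Nat.primesLE_card_eq_primeCounting]
    refine Finset.card_le_card fun p hp => ?_
    rw [Finset.mem_image] at hp
    obtain ⟨Q, hQ, rfl⟩ := hp
    have hQS := hQ
    rw [hS, Finset.mem_image] at hQ
    obtain ⟨v, hv, rfl⟩ := hQ
    rw [hT, Set.Finite.mem_toFinset] at hv
    rw [Nat.mem_primesLE]
    have h2 := two_le_absNorm v.isPrime v.ne_bot
    exact ⟨(Nat.minFac_le (by omega)).trans hv, Nat.minFac_prime (by omega)⟩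
  have h3 : (Nat.primeCounting x : ℝ) ≤ 20 * (x / Real.log x) := by
    have hx1 : (1 : ℝ) < x := by exact_mod_cast (by omega : 1 < x)
    have hx0 : (0 : ℝ) < x := by linarith
    have hlog : 0 < Real.log x := Real.log_pos hx1
    have h4 := Chebyshev.pi_le_log4_mul_div hx1
    rw [Nat.floor_natCast, Real.log_sqrt hx0.le] at h4
    have h5 : Real.log 4 ≤ 2 := by
      have : Real.log 4 = 2 * Real.log 2 := by
        rw [show (4 : ℝ) = 2 ^ 2 by norm_num, Real.log_pow]; norm_num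
      have := Real.log_two_lt_d9
      linarith
    have hs0 : 0 < Real.sqrt x := Real.sqrt_pos.2 hx0
    have hss : Real.sqrt x * Real.sqrt x = x := Real.mul_self_sqrt hx0.le
    have h6 : Real.log x ≤ 2 * Real.sqrt x := by
      have h7 := Real.log_le_sub_one_of_pos hs0
      rw [Real.log_sqrt hx0.le] at h7
      linarith
    have h8 : Real.sqrt x ≤ 2 * (x / Real.log x) := by
      rw [mul_div_assoc', le_div_iff₀ hlog]
      nlinarith
    have h9 : Real.log 4 * x / (Real.log x / 2) ≤ 4 * (x / Real.log x) := by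
      have : Real.log 4 * x / (Real.log x / 2) = 2 * Real.log 4 * (x / Real.log x) := by
        field_simp
      rw [this]
      have : 0 < x / Real.log x := by positivity
      nlinarith
    have h10 : 0 < x / Real.log x := by positivity
    linarith
  rw [hc]
  calc (S.card : ℝ) ≤ deg K * ((S.image fun Q => (Ideal.absNorm Q).minFac).card : ℝ) := h1
    _ ≤ deg K * (20 * (x / Real.log x)) := by
        refine mul_le_mul_of_nonneg_left (le_trans ?_ h3) (Nat.cast_nonneg _)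
        exact_mod_cast h2
    _ = _ := by ring

end count

theorem posDensity_mono {K : Type*} [Field K] [NumberField K] {S T : Set (HeightOneSpectrum (𝓞 K))}
    (h : (S \ T).Finite) (hS : PosDensity S) : PosDensity T := by
  classical
  obtain ⟨c, hc, x0, hx0⟩ := hS
  set m := (S \ T).ncard
  obtain ⟨x1, hx1⟩ := count_unbounded K ⌈2 * (m : ℝ) / c⌉₊
  refine ⟨c / 2, half_pos hc, max x0 x1, fun x hx => ?_⟩
  have h1 := hx0 x ((le_max_left _ _).trans hx)
  have h2 := hx1 x ((le_max_right _ _).trans hx)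
  set A := {v : HeightOneSpectrum (𝓞 K) | Ideal.absNorm v.asIdeal ≤ x} with hA
  have hAf : A.Finite := finite_norm_le K x
  have h3 : {v : HeightOneSpectrum (𝓞 K) | v ∈ S ∧ Ideal.absNorm v.asIdeal ≤ x}.ncard ≤
      m + {v : HeightOneSpectrum (𝓞 K) | v ∈ T ∧ Ideal.absNorm v.asIdeal ≤ x}.ncard := by
    have hsub : {v : HeightOneSpectrum (𝓞 K) | v ∈ S ∧ Ideal.absNorm v.asIdeal ≤ x} ⊆
        (S \ T) ∪ {v : HeightOneSpectrum (𝓞 K) | v ∈ T ∧ Ideal.absNorm v.asIdeal ≤ x} := by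
      rintro v ⟨hv, hv'⟩
      by_cases hT : v ∈ T
      · exact Or.inr ⟨hT, hv'⟩
      · exact Or.inl ⟨hv, hT⟩
    exact (Set.ncard_le_ncard hsub (h.union (hAf.subset fun v hv => hv.2))).trans
      (Set.ncard_union_le _ _)
  have h4 : 2 * (m : ℝ) / c ≤ A.ncard := (Nat.le_ceil _).trans (by exact_mod_cast h2)
  have h5 : (({v : HeightOneSpectrum (𝓞 K) | v ∈ S ∧ Ideal.absNorm v.asIdeal ≤ x}.ncard : ℕ) : ℝ) ≤
      m + ({v : HeightOneSpectrum (𝓞 K) | v ∈ T ∧ Ideal.absNorm v.asIdeal ≤ x}.ncard : ℝ) := by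
    exact_mod_cast h3
  rw [div_le_iff₀ hc] at h4
  nlinarith

/-- many prime numbers which are norms of primes in `S` give positive density -/
theorem posDensity_of_norms {K : Type*} [Field K] [NumberField K] {S : Set (HeightOneSpectrum (𝓞 K))}
    {T B : Set ℕ} (hB : B.Finite) (hT : ∃ c : ℝ, 0 < c ∧ ∃ x0 : ℕ, ∀ x : ℕ, x0 ≤ x →
      c * (x / Real.log x) ≤ ({p : ℕ | p ∈ T ∧ p ≤ x}.ncard : ℝ))
    (h : ∀ p ∈ T, p ∉ B → ∃ v : HeightOneSpectrum (𝓞 K), Ideal.absNorm v.asIdeal = p ∧ v ∈ S) :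
    PosDensity S := by
  classical
  obtain ⟨c, hc, x0, hx0⟩ := hT
  obtain ⟨C, hC, hC2⟩ := count_le K
  set m := B.ncard
  have hlim : ∃ x1 : ℕ, ∀ x : ℕ, x1 ≤ x → 2 * (m : ℝ) / c ≤ x / Real.log x := by
    refine ⟨max 2 ⌈(4 * (m : ℝ) / c) ^ 2⌉₊, fun x hx => ?_⟩
    have hx1 : (1 : ℝ) < x := by exact_mod_cast (le_max_left _ _).trans hx
    have hx0 : (0 : ℝ) < x := by linarith
    have h1 : (4 * (m : ℝ) / c) ^ 2 ≤ x :=
      (Nat.le_ceil _).trans (by exact_mod_cast (le_max_right _ _).trans hx)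
    have h2 : 4 * (m : ℝ) / c ≤ Real.sqrt x := Real.le_sqrt_of_sq_le h1
    have hs0 : 0 < Real.sqrt x := Real.sqrt_pos.2 hx0
    have hss : Real.sqrt x * Real.sqrt x = x := Real.mul_self_sqrt hx0.le
    have h6 : Real.log x ≤ 2 * Real.sqrt x := by
      have h7 := Real.log_le_sub_one_of_pos hs0
      rw [Real.log_sqrt hx0.le] at h7
      linarith
    have h8 : Real.sqrt x / 2 ≤ x / Real.log x := by
      rw [le_div_iff₀ (Real.log_pos hx1)]
      nlinarith
    have h9 : 2 * (m : ℝ) / c = (4 * (m : ℝ) / c) / 2 := by ring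
    linarith
  obtain ⟨x1, hx1⟩ := hlim
  refine ⟨c / 2 / C, by positivity, max 2 (max x0 x1), fun x hx => ?_⟩
  have hx2 : 2 ≤ x := (le_max_left _ _).trans hx
  have h1 := hx0 x (((le_max_left _ _).trans (le_max_right _ _)).trans hx)
  have h2 := hx1 x (((le_max_right _ _).trans (le_max_right _ _)).trans hx)
  have h3 := hC2 x hx2
  set A := {v : HeightOneSpectrum (𝓞 K) | Ideal.absNorm v.asIdeal ≤ x} with hA
  have hAf : A.Finite := finite_norm_le K x
  have h4 : {p : ℕ | p ∈ T ∧ p ≤ x}.ncard ≤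
      m + {v : HeightOneSpectrum (𝓞 K) | v ∈ S ∧ Ideal.absNorm v.asIdeal ≤ x}.ncard := by
    have hsub : {p : ℕ | p ∈ T ∧ p ≤ x} ⊆ B ∪ (fun v : HeightOneSpectrum (𝓞 K) =>
        Ideal.absNorm v.asIdeal) '' {v | v ∈ S ∧ Ideal.absNorm v.asIdeal ≤ x} := by
      rintro p ⟨hp, hpx⟩
      by_cases hb : p ∈ B
      · exact Or.inl hb
      · obtain ⟨v, hv, hvS⟩ := h p hp hb
        exact Or.inr ⟨v, ⟨hvS, hv.le.trans hpx⟩, hv⟩
    have hf : {v : HeightOneSpectrum (𝓞 K) | v ∈ S ∧ Ideal.absNorm v.asIdeal ≤ x}.Finite :=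
      hAf.subset fun v hv => hv.2
    exact (Set.ncard_le_ncard hsub (hB.union (hf.image _))).trans ((Set.ncard_union_le _ _).trans
      (Nat.add_le_add_left (Set.ncard_image_le hf) _))
  have h5 : (({p : ℕ | p ∈ T ∧ p ≤ x}.ncard : ℕ) : ℝ) ≤
      m + ({v : HeightOneSpectrum (𝓞 K) | v ∈ S ∧ Ideal.absNorm v.asIdeal ≤ x}.ncard : ℝ) := by
    exact_mod_cast h4
  rw [div_le_iff₀ hc] at h2
  have h6 : c / 2 / C * (A.ncard : ℝ) ≤ c / 2 * (x / Real.log x) := by
    calc c / 2 / C * (A.ncard : ℝ) ≤ c / 2 / C * (C * (x / Real.log x)) :=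
          mul_le_mul_of_nonneg_left h3 (by positivity)
      _ = _ := by field_simp
  nlinarith

end Pool.Agent.ORB
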