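import Pool.Agent.ORB.Defs
import Pool.Agent.ORB.RootlessA
import Pool.Agent.ORB.Density

/-! ORB, M4: from an automorphism without fixed roots to a positive density of primes without roots. -/

namespace Pool.Agent.ORB

open NumberField IsDedekindDomain Polynomial

universe u

theorem finite_not_one {L : Type*} [Field L] [NumberField L] {z : L} (hz : z ≠ 0) :
    {P : HeightOneSpectrum (𝓞 L) | P.valuation L z ≠ 1}.Finite := by
  refine ((HeightOneSpectrum.Support.finite (𝓞 L) z).union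
    (HeightOneSpectrum.Support.finite (𝓞 L) z⁻¹)).subset fun P hP => ?_
  rcases lt_or_gt_of_ne hP with h | h
  · right
    show 1 < P.valuation L z⁻¹
    rw [map_inv₀]
    exact (one_lt_inv₀ (zero_lt_iff.2 ((Valuation.ne_zero_iff _).2 hz))).2 h
  · left
    exact h

theorem zpowers_fix {L : Type*} [Field L] [NumberField L] {σ τ : L ≃ₐ[ℚ] L} {x : L} (h : σ x = x)
    (ht : τ ∈ Subgroup.zpowers σ) : τ x = x := by
  obtain ⟨n, rfl⟩ := Subgroup.mem_zpowers_iff.1 ht
  have h1 : σ ∈ MulAction.stabilizer (L ≃ₐ[ℚ] L) x := h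
  exact (MulAction.stabilizer (L ≃ₐ[ℚ] L) x).zpow_mem h1 n

theorem card_le_of_pow {k : Type*} [Field k] [Finite k] {q : ℕ} (hq : 1 < q)
    (h : ∀ c : k, c ^ q = c) : Nat.card k ≤ q := by
  classical
  have := Fintype.ofFinite k
  have h0 := FiniteField.X_pow_card_sub_X_ne_zero k hq
  have hd : (X ^ q - X : k[X]).natDegree = q := FiniteField.X_pow_card_sub_X_natDegree_eq k hq
  have h1 : (Finset.univ : Finset k) ⊆ (X ^ q - X : k[X]).roots.toFinset := by
    intro c _
    rw [Multiset.mem_toFinset, mem_roots h0, IsRoot, eval_sub, eval_pow, eval_X, h, sub_self]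
  rw [Nat.card_eq_fintype_card, ← Finset.card_univ]
  calc _ ≤ _ := Finset.card_le_card h1
    _ ≤ _ := Multiset.toFinset_card_le _
    _ ≤ _ := card_roots' _
    _ = q := hd

/-- Frobenius elements acting like `σ` -/
theorem rootless_prime {K L : Type*} [Field K] [NumberField K] [Field L] [NumberField L]
    [Algebra K L] (σ : L ≃ₐ[ℚ] L)
    (hσ : ∀ x : K, σ (algebraMap K L x) = algebraMap K L x) {ι : Type*} [Finite ι] (F : ι → K[X])
    (hF : ∀ i, F i ≠ 0) (hs : ∀ i, ((F i).map (algebraMap K L)).Splits)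
    (hr : ∀ i, ∀ r : L, aeval r (F i) = 0 → σ r ≠ r) :
    ∃ B : Set ℕ, B.Finite ∧ ∀ p : ℕ, p.Prime → p ∉ B → ∀ P : Ideal (𝓞 L), P.IsPrime →
      (p : 𝓞 L) ∈ P → ∀ τ : L ≃ₐ[ℚ] L, Subgroup.zpowers τ = Subgroup.zpowers σ → IsFrob p P τ →
      ∃ v : HeightOneSpectrum (𝓞 K), Ideal.absNorm v.asIdeal = p ∧ ∀ i, ¬ HasRoot v (F i) := by
  classical
  set Z : Set L := {z | z ≠ 0 ∧ ((∃ i j, z = algebraMap K L ((F i).coeff j)) ∨
    ∃ (i : ι) (τ : L ≃ₐ[ℚ] L) (r : L), aeval r (F i) = 0 ∧ z = τ r - r)} with hZ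
  have hZf : Z.Finite := by
    have h1 : (⋃ i : ι, ⋃ j ∈ Finset.range ((F i).natDegree + 1),
        {z : L | z = algebraMap K L ((F i).coeff j)}).Finite := by
      refine Set.finite_iUnion fun i => Set.Finite.biUnion (Finset.finite_toSet _) fun j _ => ?_
      exact Set.finite_singleton _
    have h2 : (⋃ i : ι, ⋃ τ : L ≃ₐ[ℚ] L, (fun r : L => τ r - r) '' {r | aeval r (F i) = 0}).Finite := by
      refine Set.finite_iUnion fun i => Set.finite_iUnion fun τ => Set.Finite.image _ ?_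
      have : {r : L | aeval r (F i) = 0} ⊆ (((F i).map (algebraMap K L)).roots.toFinset : Set L) := by
        intro r hr
        rw [Finset.mem_coe, Multiset.mem_toFinset, mem_roots (Polynomial.map_ne_zero (hF i)), IsRoot,
          eval_map_algebraMap]
        exact hr
      exact (Finset.finite_toSet _).subset this
    refine (h1.union h2).subset ?_
    rintro z ⟨hz, ⟨i, j, rfl⟩ | ⟨i, τ, r, hr, rfl⟩⟩
    · left
      refine Set.mem_iUnion.2 ⟨i, Set.mem_iUnion₂.2 ⟨j, ?_, rfl⟩⟩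
      rw [Finset.mem_range, Nat.lt_succ_iff]
      by_contra hj
      push Not at hj
      rw [coeff_eq_zero_of_natDegree_lt hj, map_zero] at hz
      exact hz rfl
    · right
      exact Set.mem_iUnion.2 ⟨i, Set.mem_iUnion.2 ⟨τ, r, hr, rfl⟩⟩
  set BP : Set (HeightOneSpectrum (𝓞 L)) := ⋃ z ∈ Z, {P | P.valuation L z ≠ 1} with hBP
  have hBPf : BP.Finite := Set.Finite.biUnion hZf fun z hz => finite_not_one hz.1
  refine ⟨{p : ℕ | p.Prime ∧ ∃ P ∈ BP, (p : 𝓞 L) ∈ P.asIdeal}, ?_, ?_⟩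
  · have hinj : ∀ P : HeightOneSpectrum (𝓞 L), {p : ℕ | p.Prime ∧ (p : 𝓞 L) ∈ P.asIdeal}.Subsingleton :=
      fun P p hp q hq => prime_unique L hp.1 hq.1 hp.2 hq.2
    refine (Set.Finite.biUnion hBPf fun P _ => (hinj P).finite).subset ?_
    rintro p ⟨hp, P, hP, hpP⟩
    exact Set.mem_iUnion₂.2 ⟨P, hP, hp, hpP⟩
  intro p hp hpB P0 hP0 hpP0 τ hτσ hfrob
  have hP0b : P0 ≠ ⊥ := by
    rintro rfl
    rw [Ideal.mem_bot] at hpP0
    exact hp.ne_zero (by exact_mod_cast hpP0)
  let P : HeightOneSpectrum (𝓞 L) := ⟨P0, hP0, hP0b⟩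
  have hgood : ∀ z ∈ Z, P.valuation L z = 1 := by
    intro z hz
    by_contra hne
    exact hpB ⟨hp, P, Set.mem_iUnion₂.2 ⟨z, hz, hne⟩, hpP0⟩
  let v : HeightOneSpectrum (𝓞 K) := P.under (𝓞 K)
  have hlo : P.asIdeal.LiesOver v.asIdeal := ⟨rfl⟩
  have hτK : ∀ x : K, τ (algebraMap K L x) = algebraMap K L x := fun x =>
    zpowers_fix (hσ x) (hτσ ▸ Subgroup.mem_zpowers τ)
  have hστ : σ ∈ Subgroup.zpowers τ := hτσ ▸ Subgroup.mem_zpowers σ
  have hτr : ∀ i, ∀ r : L, aeval r (F i) = 0 → τ r ≠ r := fun i r h h' =>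
    hr i r h (zpowers_fix h' hστ)
  have hfv : ∀ y : 𝓞 L, P.valuation L ((τ : L ≃+* L) (algebraMap (𝓞 L) L y) -
      (algebraMap (𝓞 L) L y) ^ p) < 1 := by
    intro y
    have e : (τ : L ≃+* L) (algebraMap (𝓞 L) L y) - (algebraMap (𝓞 L) L y) ^ p =
        algebraMap (𝓞 L) L (τ • y - y ^ p) := by
      rw [map_sub, map_pow]; rfl
    rw [e]
    exact (HeightOneSpectrum.valuation_lt_one_iff_mem P _).2 (hfrob y)
  refine ⟨v, ?_, ?_⟩
  · have hpv : (p : 𝓞 K) ∈ v.asIdeal := by
      show algebraMap (𝓞 K) (𝓞 L) (p : 𝓞 K) ∈ P0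
      rw [map_natCast]; exact hpP0
    obtain ⟨q, f, hf, hqv, hq, hN, -⟩ := norm_eq_pow v.isPrime v.ne_bot
    have hpq := prime_unique K hq hp hqv hpv
    subst hpq
    have hmax : v.asIdeal.IsMaximal := v.isMaximal
    have hfin : Finite (𝓞 K ⧸ v.asIdeal) := inferInstance
    let _ : Field (𝓞 K ⧸ v.asIdeal) := Ideal.Quotient.field _
    have hcard : Nat.card (𝓞 K ⧸ v.asIdeal) ≤ q := by
      refine card_le_of_pow hq.one_lt fun c => ?_
      obtain ⟨y, rfl⟩ := Ideal.Quotient.mk_surjective c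
      rw [← map_pow, eq_comm, Ideal.Quotient.eq]
      show algebraMap (𝓞 K) (𝓞 L) (y - y ^ q) ∈ P0
      rw [map_sub, map_pow]
      have h1 := hfrob (algebraMap (𝓞 K) (𝓞 L) y)
      have h2 : τ • (algebraMap (𝓞 K) (𝓞 L) y) = algebraMap (𝓞 K) (𝓞 L) y := by
        apply RingOfIntegers.ext
        exact hτK _
      rw [h2] at h1
      exact h1
    have h3 : Ideal.absNorm v.asIdeal = Nat.card (𝓞 K ⧸ v.asIdeal) := Ideal.absNorm_apply _
    rw [← h3, hN] at hcard
    rw [hN]
    exact le_antisymm hcard (Nat.le_self_pow hf.ne' q)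
  · rintro i ⟨x, hx, hFx⟩
    have hxP : P.valuation L (algebraMap K L x) ≤ 1 := (val_le_iff v P x).2 hx
    have hFxP : P.valuation L (algebraMap K L ((F i).eval x)) < 1 := (val_lt_iff v P _).2 hFx
    have hco : ∀ j, P.valuation L (algebraMap K L ((F i).coeff j)) ≤ 1 := by
      intro j
      by_cases h0 : algebraMap K L ((F i).coeff j) = 0
      · rw [h0, map_zero]; exact zero_le
      · exact (hgood _ ⟨h0, Or.inl ⟨i, j, rfl⟩⟩).le
    have hlead : P.valuation L (algebraMap K L (F i).leadingCoeff) = 1 := by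
      refine hgood _ ⟨?_, Or.inl ⟨i, _, rfl⟩⟩
      rw [Ne, FaithfulSMul.algebraMap_eq_zero_iff, leadingCoeff_eq_zero]
      exact hF i
    have hroots : ∀ r ∈ ((F i).map (algebraMap K L)).roots, P.valuation L r ≤ 1 ∧
        aeval r (F i) = 0 := by
      intro r hr
      have h1 := (mem_roots'.1 hr).2
      rw [IsRoot, eval_map_algebraMap] at h1
      exact ⟨root_int P (F i) hco hlead h1, h1⟩
    have hev : algebraMap K L ((F i).eval x) = algebraMap K L (F i).leadingCoeff *
        (((F i).map (algebraMap K L)).roots.map fun r => algebraMap K L x - r).prod := by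
      have h1 := (hs i).eq_prod_roots
      have h2 := congrArg (eval (algebraMap K L x)) h1
      rw [eval_map_algebraMap, aeval_algebraMap_apply_eq_algebraMap_eval] at h2
      rw [h2, eval_mul, eval_C, leadingCoeff_map, eval_multiset_prod, Multiset.map_map]
      simp
    rw [hev, map_mul, hlead, one_mul, map_multiset_prod, Multiset.map_map] at hFxP
    have hex : ∃ r ∈ ((F i).map (algebraMap K L)).roots, P.valuation L (algebraMap K L x - r) < 1 := by
      by_contra hno
      push Not at hno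
      rw [Multiset.prod_eq_one] at hFxP
      · exact lt_irrefl _ hFxP
      · intro y hy
        obtain ⟨r, hr, rfl⟩ := Multiset.mem_map.1 hy
        refine le_antisymm ?_ (hno r hr)
        exact (Valuation.map_sub _ _ _).trans (max_le hxP (hroots r hr).1)
    obtain ⟨r, hrr, hxr⟩ := hex
    obtain ⟨hri, hr0⟩ := hroots r hrr
    have hd := frob_val P (τ : L ≃+* L) hfv hxr.le
    have h1 : P.valuation L ((algebraMap K L x - r) ^ p) < 1 := by
      rw [map_pow]; exact pow_lt_one₀ zero_le hxr hp.ne_zero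
    have h2 : P.valuation L ((τ : L ≃+* L) (algebraMap K L x - r)) < 1 := by
      have e : (τ : L ≃+* L) (algebraMap K L x - r) = ((τ : L ≃+* L) (algebraMap K L x - r) -
        (algebraMap K L x - r) ^ p) + (algebraMap K L x - r) ^ p := by ring
      rw [e]
      exact Valuation.map_add_lt _ hd h1
    have h3 : τ r - r = (algebraMap K L x - r) - (τ : L ≃+* L) (algebraMap K L x - r) := by
      rw [map_sub]
      have : (τ : L ≃+* L) (algebraMap K L x) = algebraMap K L x := hτK x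
      rw [this]
      have : (τ : L ≃+* L) r = τ r := rfl
      rw [this]
      ring
    have h4 : P.valuation L (τ r - r) < 1 := by
      rw [h3]; exact Valuation.map_sub_lt _ hxr h2
    have h5 : P.valuation L (τ r - r) = 1 :=
      hgood _ ⟨sub_ne_zero.2 (hτr i r hr0), Or.inr ⟨i, τ, r, hr0, rfl⟩⟩
    exact absurd h5 h4.ne

/-- if `σ ∈ Gal(L/ℚ)` fixes `K` and no root of the `F_i`, then for a positive density of the primes `v`
of `K` no `F_i` has a root modulo `v` -/
theorem posDensity_of_rootless {K L : Type u} [Field K] [NumberField K] [Field L] [NumberField L]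
    [Algebra K L] [IsGalois ℚ L] (σ : L ≃ₐ[ℚ] L)
    (hσ : ∀ x : K, σ (algebraMap K L x) = algebraMap K L x) {ι : Type*} [Finite ι] (F : ι → K[X])
    (hF : ∀ i, F i ≠ 0) (hs : ∀ i, ((F i).map (algebraMap K L)).Splits)
    (hr : ∀ i, ∀ r : L, aeval r (F i) = 0 → σ r ≠ r) :
    PosDensity {v : HeightOneSpectrum (𝓞 K) | ∀ i, ¬ HasRoot v (F i)} := by
  obtain ⟨B, hB, h⟩ := rootless_prime σ hσ F hF hs hr
  refine posDensity_of_norms hB (frob_density σ) ?_
  rintro p ⟨hp, P, hP, hpP, τ, hτ, hfr⟩ hpB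
  exact h p hp hpB P hP hpP τ hτ hfr

end Pool.Agent.ORB
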