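import Pool.Agent.ORB.AADefs
import Pool.Agent.ORB.AAInertia
import Pool.Agent.ORB.FrobEx
import Pool.Agent.ORB.Rootless
import Pool.Agent.ORB.Frob

/-!
ORB, Theorem AA, row Pc: Frobenius elements in extensions.
-/

set_option autoImplicit false

namespace Pool.Agent.ORB.AA

open NumberField IsDedekindDomain Polynomial

universe u

/-- there is a Frobenius element at every prime ideal over `p` -/
theorem exists_frobAt {L : Type*} [Field L] [NumberField L] [IsGalois ℚ L] {p : ℕ} (hp : p.Prime)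
    (Q : Ideal (𝓞 L)) (hQ : Q.IsPrime) (hpQ : (p : 𝓞 L) ∈ Q) : ∃ τ : L ≃ₐ[ℚ] L, IsFrob p Q τ := by
  have hu := fr_under hp hQ hpQ
  have hinv := fr_inv L
  have hP0 : Q ≠ ⊥ := by
    intro h
    rw [h, Ideal.mem_bot] at hpQ
    exact hp.ne_zero (by exact_mod_cast hpQ)
  have hfin : Finite (𝓞 L ⧸ Q) := Ideal.finiteQuotientOfFreeOfNeBot Q hP0
  obtain ⟨τ, hτ⟩ := IsArithFrobAt.exists_of_isInvariant ℤ (L ≃ₐ[ℚ] L) Q
  refine ⟨τ, fun y => ?_⟩
  have h1 := hτ y
  have h2 : Nat.card (ℤ ⧸ Q.under ℤ) = p := by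
    rw [hu, ← Submodule.cardQuot_apply, ← Ideal.absNorm_apply, Ideal.absNorm_span_singleton]
    simp
  rw [h2] at h1
  exact h1

/-- if the inertia group is trivial, then there is only one Frobenius element -/
theorem frob_unique {E : Type*} [Field E] [NumberField E] {p : ℕ} {P : Ideal (𝓞 E)} (hP : P.IsPrime)
    (hI : ∀ g : E ≃ₐ[ℚ] E, Inert P g → g = 1) {a b : E ≃ₐ[ℚ] E} (ha : IsFrob p P a)
    (hb : IsFrob p P b) : a = b := by
  have h : b⁻¹ * a = 1 := by
    refine hI _ fun y => ?_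
    set z := (b⁻¹ * a) • y - y with hz
    have h1 : b • z = a • y - b • y := by
      rw [hz, smul_sub, mul_smul, smul_inv_smul]
    have h2 : b • z ∈ P := by
      rw [h1]
      have e : a • y - b • y = (a • y - y ^ p) - (b • y - y ^ p) := by ring
      rw [e]
      exact P.sub_mem (ha y) (hb y)
    have h3 : z ^ p ∈ P := by
      have e : z ^ p = b • z - (b • z - z ^ p) := by ring
      rw [e]
      exact P.sub_mem h2 (hb z)
    exact hP.mem_of_pow_mem _ h3
  have h2 : b * (b⁻¹ * a) = b * 1 := by rw [h]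
  rwa [mul_inv_cancel_left, mul_one] at h2

/-- an exponent which is prime to a multiple of the order -/
theorem exists_exponent {G : Type*} [Group G] [Finite G] {s φ : G}
    (hz : Subgroup.zpowers s = Subgroup.zpowers φ) {N : ℕ} (hN : N ≠ 0) (hM : orderOf s ∣ N) :
    ∃ m : ℕ, m.Coprime N ∧ s ^ m = φ := by
  have h1 : φ ∈ Subgroup.zpowers s := hz ▸ Subgroup.mem_zpowers φ
  obtain ⟨n, hn⟩ := (mem_powers_iff_mem_zpowers (x := s) (y := φ)).2 h1
  have hn' : s ^ n = φ := hn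
  have ho : orderOf φ = orderOf s := by
    rw [← Nat.card_zpowers, ← Nat.card_zpowers, hz]
  have hs0 : 0 < orderOf s := orderOf_pos s
  have hc : n.Coprime (orderOf s) := by
    have h2 := orderOf_pow s (n := n)
    rw [hn', ho] at h2
    have h3 : Nat.gcd (orderOf s) n ∣ orderOf s := Nat.gcd_dvd_left _ _
    have h4 : 0 < Nat.gcd (orderOf s) n := Nat.gcd_pos_of_pos_left _ hs0
    rw [Nat.coprime_iff_gcd_eq_one, Nat.gcd_comm]
    have h5 := Nat.div_mul_cancel h3
    rw [← h2] at h5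
    exact Nat.eq_of_mul_eq_mul_left hs0 (by rw [h5, mul_one])
  have : NeZero N := ⟨hN⟩
  obtain ⟨v, hv⟩ := ZMod.unitsMap_surjective hM (ZMod.unitOfCoprime n hc)
  refine ⟨(v : ZMod N).val, ZMod.val_coe_unit_coprime v, ?_⟩
  rw [← hn', pow_eq_pow_iff_modEq]
  rw [← ZMod.natCast_eq_natCast_iff]
  have h6 := congrArg (fun u : (ZMod (orderOf s))ˣ => (u : ZMod (orderOf s))) hv
  simp only [ZMod.coe_unitOfCoprime] at h6
  rw [← h6, ZMod.unitsMap_val, ZMod.natCast_val]

/-- Frobenius elements in extensions, if the inertia group in `E` is trivial -/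
theorem frob_lift_of {E : Type u} [Field E] [NumberField E] [IsGalois ℚ E] (Φ : E ≃ₐ[ℚ] E) {p : ℕ}
    (hp : p.Prime) (P : Ideal (𝓞 E)) (hP : P.IsPrime) (hpP : (p : 𝓞 E) ∈ P)
    (hI : ∀ g : E ≃ₐ[ℚ] E, Inert P g → g = 1) (τE : E ≃ₐ[ℚ] E)
    (hz : Subgroup.zpowers τE = Subgroup.zpowers Φ) (hfr : IsFrob p P τE)
    {K : Type u} [Field K] [NumberField K] [Algebra K E]
    (hΦ : ∀ x : K, Φ (algebraMap K E x) = algebraMap K E x) (w : HeightOneSpectrum (𝓞 K))
    (hw : P.LiesOver w.asIdeal)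
    (L : Type u) [Field L] [NumberField L] [Algebra E L] [Algebra K L] [IsScalarTower K E L]
    [IsGalois ℚ L] :
    ∃ τ : L ≃ₐ[ℚ] L, (∀ x : E, τ (algebraMap E L x) = algebraMap E L (Φ x)) ∧
      ∀ G : K[X], (∀ n, w.valuation K (G.coeff n) ≤ 1) → w.valuation K G.leadingCoeff = 1 →
        ¬ HasRoot w G → ∀ r : L, aeval r G = 0 → τ r ≠ r := by
  classical
  obtain ⟨⟨Q, hQ1, hQ2⟩⟩ := P.nonempty_primesOver (S := 𝓞 L)
  have hmem : ∀ y : 𝓞 E, y ∈ P ↔ algebraMap (𝓞 E) (𝓞 L) y ∈ Q := by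
    intro y
    have := hQ2.over
    rw [this]; rfl
  have hpQ : (p : 𝓞 L) ∈ Q := by
    have := (hmem _).1 hpP
    rwa [map_natCast] at this
  obtain ⟨τL, hτL⟩ := exists_frobAt hp Q hQ1 hpQ
  -- the restriction to `E`
  have hres : ∀ x : E, τL (algebraMap E L x) = algebraMap E L (τL.restrictNormal E x) := fun x =>
    (τL.restrictNormal_commutes E x).symm
  have hfrE : IsFrob p P (τL.restrictNormal E) := by
    intro y
    rw [hmem]
    have h1 := hτL (algebraMap (𝓞 E) (𝓞 L) y)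
    have e : algebraMap (𝓞 E) (𝓞 L) ((τL.restrictNormal E) • y - y ^ p) =
        τL • (algebraMap (𝓞 E) (𝓞 L) y) - (algebraMap (𝓞 E) (𝓞 L) y) ^ p := by
      rw [map_sub, map_pow]
      congr 1
      apply RingOfIntegers.ext
      exact (hres y).symm
    rw [e]
    exact h1
  have hEq : τL.restrictNormal E = τE := frob_unique hP hI hfrE hfr
  rw [hEq] at hres
  have hpow : ∀ (k : ℕ) (x : E), (τL ^ k) (algebraMap E L x) = algebraMap E L ((τE ^ k) x) := by
    intro k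
    induction k with
    | zero => intro x; simp
    | succ k ih =>
      intro x
      rw [pow_succ, pow_succ, AlgEquiv.mul_apply, AlgEquiv.mul_apply, hres, ih]
  have hdvd : orderOf τE ∣ orderOf τL := by
    apply orderOf_dvd_of_pow_eq_one
    ext x
    apply (algebraMap E L).injective
    rw [← hpow, pow_orderOf_eq_one]
    simp
  obtain ⟨m, hm1, hm2⟩ := exists_exponent hz (orderOf_pos τL).ne' hdvd
  refine ⟨τL ^ m, fun x => ?_, ?_⟩
  · rw [hpow, hm2]
  intro G hint hlead hno r hr hfix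
  -- `τL` fixes `r`
  obtain ⟨k, hk⟩ := exists_pow_eq_self_of_coprime hm1
  have hfixL : τL r = r := by
    rw [← hk]
    have h1 : τL ^ m ∈ MulAction.stabilizer (L ≃ₐ[ℚ] L) r := hfix
    exact (MulAction.stabilizer (L ≃ₐ[ℚ] L) r).pow_mem h1 k
  have hQ0 : Q ≠ ⊥ := by
    intro h
    rw [h, Ideal.mem_bot] at hpQ
    exact hp.ne_zero (by exact_mod_cast hpQ)
  let Q' : HeightOneSpectrum (𝓞 L) := ⟨Q, hQ1, hQ0⟩
  have hlo : Q'.asIdeal.LiesOver w.asIdeal := Ideal.LiesOver.trans Q P w.asIdeal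
  apply hno
  have hri : Q'.valuation L r ≤ 1 := by
    refine root_int Q' G (fun j => ?_) ?_ hr
    · rw [val_le_iff w Q']; exact hint j
    · rw [val_eq_iff w Q']; exact hlead
  have hfv : ∀ y : 𝓞 L, Q'.valuation L ((τL : L ≃+* L) (algebraMap (𝓞 L) L y) -
      (algebraMap (𝓞 L) L y) ^ p) < 1 := by
    intro y
    have e : (τL : L ≃+* L) (algebraMap (𝓞 L) L y) - (algebraMap (𝓞 L) L y) ^ p =
        algebraMap (𝓞 L) L (τL • y - y ^ p) := by
      rw [map_sub, map_pow]; rfl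
    rw [e]
    exact (HeightOneSpectrum.valuation_lt_one_iff_mem Q' _).2 (hτL y)
  have hpk : ∀ k : ℕ, Q'.valuation L (r ^ p ^ k - r) < 1 := by
    intro k
    induction k with
    | zero => simp
    | succ k ih =>
      have h1 := frob_val Q' (τL : L ≃+* L) hfv (int_pow Q' hri (p ^ k))
      have h2 : (τL : L ≃+* L) (r ^ p ^ k) = r ^ p ^ k := by
        rw [map_pow]
        have : (τL : L ≃+* L) r = r := hfixL
        rw [this]
      rw [h2, Valuation.map_sub_swap, ← pow_mul, ← pow_succ] at h1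
      have e : r ^ p ^ (k + 1) - r = (r ^ p ^ (k + 1) - r ^ p ^ k) + (r ^ p ^ k - r) := by ring
      rw [e]
      exact Valuation.map_add_lt _ h1 ih
  have hpw : (p : 𝓞 K) ∈ w.asIdeal := by
    have h1 : (p : 𝓞 K) ∈ w.asIdeal ↔ algebraMap (𝓞 K) (𝓞 E) (p : 𝓞 K) ∈ P := by
      rw [hw.over]; rfl
    rw [h1, map_natCast]; exact hpP
  obtain ⟨q, f, hf, hqv, hq, hN, -⟩ := norm_eq_pow w.isPrime w.ne_bot
  have hpq := prime_unique K hq hp hqv hpw
  subst hpq
  have hcard : Nat.card (𝓞 K ⧸ w.asIdeal) = q ^ f := by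
    rw [← hN, Ideal.absNorm_apply, Submodule.cardQuot_apply]
  have h1 := hpk f
  rw [← hcard] at h1
  obtain ⟨y, hy⟩ := residue w Q' hri h1
  have hyi : Q'.valuation L (algebraMap (𝓞 K) L y) ≤ 1 := by
    rw [IsScalarTower.algebraMap_apply (𝓞 K) K L, val_le_iff w Q']; exact w.valuation_le_one y
  refine ⟨algebraMap (𝓞 K) K y, w.valuation_le_one y, ?_⟩
  rw [← val_lt_iff w Q', ← aeval_algebraMap_apply_eq_algebraMap_eval,
    ← IsScalarTower.algebraMap_apply (𝓞 K) K L]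
  have h3 := aeval_congr Q' G (fun j => (val_le_iff w Q' _).2 (hint j)) hri hyi hy
  rw [hr, zero_sub, Valuation.map_neg] at h3
  exact h3

/-- the inertia groups of a field which is unramified at `p` -/
theorem inert_trivial {E : Type*} [Field E] [NumberField E] [IsGalois ℚ E] {p : ℕ} (hp : p.Prime)
    (hpE : ¬ (p : ℤ) ∣ discr E) (P : Ideal (𝓞 E)) (hP : P.IsPrime) (hpP : (p : 𝓞 E) ∈ P)
    (g : E ≃ₐ[ℚ] E) (hg : Inert P g) : g = 1 :=
  AlgEquiv.ext fun x => inertia_base hp hpE P hP hpP g hg x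

/-- **Pc**: Frobenius elements in extensions -/
theorem frob_lift {E : Type u} [Field E] [NumberField E] [IsGalois ℚ E] (Φ : E ≃ₐ[ℚ] E) {p : ℕ} (hp : p.Prime)
    (hpE : ¬ (p : ℤ) ∣ discr E) (P : Ideal (𝓞 E)) (hP : P.IsPrime) (hpP : (p : 𝓞 E) ∈ P) (τE : E ≃ₐ[ℚ] E)
    (hz : Subgroup.zpowers τE = Subgroup.zpowers Φ) (hfr : IsFrob p P τE)
    {K : Type u} [Field K] [NumberField K] [Algebra K E]
    (hΦ : ∀ x : K, Φ (algebraMap K E x) = algebraMap K E x) (w : HeightOneSpectrum (𝓞 K))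
    (hw : P.LiesOver w.asIdeal)
    (L : Type u) [Field L] [NumberField L] [Algebra E L] [Algebra K L] [IsScalarTower K E L] [IsGalois ℚ L] :
    ∃ τ : L ≃ₐ[ℚ] L, (∀ x : E, τ (algebraMap E L x) = algebraMap E L (Φ x)) ∧
      ∀ G : K[X], (∀ n, w.valuation K (G.coeff n) ≤ 1) → w.valuation K G.leadingCoeff = 1 → ¬ HasRoot w G →
        ∀ r : L, aeval r G = 0 → τ r ≠ r :=
  frob_lift_of Φ hp P hP hpP (fun g hg => inert_trivial hp hpE P hP hpP g hg) τE hz hfr hΦ w hw L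

end Pool.Agent.ORB.AA
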