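import Pool.Agent.ORB.AAInertia
import Pool.Agent.ORB.AADiscr
import Mathlib.FieldTheory.Normal.Closure
import Mathlib.FieldTheory.Fixed
import Mathlib.FieldTheory.IsAlgClosed.AlgebraicClosure
import Mathlib.NumberTheory.NumberField.Discriminant.Basic

/-!
ORB, Theorem AA, row H: Hermite-Minkowski for number fields unramified outside a finite set.
-/

set_option autoImplicit false

namespace Pool.Agent.ORB.AA

open NumberField IntermediateField

universe u

/-- unramified outside `S` -/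
def Unr (S : Set ℕ) (F : Type*) [Field F] [NumberField F] : Prop :=
  ∀ p : ℕ, p.Prime → p ∉ S → ¬ (p : ℤ) ∣ discr F

theorem Unr.congr {S : Set ℕ} {F F' : Type*} [Field F] [NumberField F] [Field F'] [NumberField F']
    (e : F ≃+* F') (h : Unr S F) : Unr S F' := by
  intro p hp hpS
  rw [← discr_eq_discr_of_ringEquiv F e]
  exact h p hp hpS

section
variable {L : Type*} [Field L] [NumberField L]

/-- the inertia elements at the primes outside `S` -/
def inO (L : Type*) [Field L] [NumberField L] (S : Set ℕ) : Set (L ≃ₐ[ℚ] L) :=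
  {g | ∃ p : ℕ, p.Prime ∧ p ∉ S ∧ ∃ P : Ideal (𝓞 L), P.IsPrime ∧ (p : 𝓞 L) ∈ P ∧ Inert P g}

theorem inO_conj {S : Set ℕ} {g : L ≃ₐ[ℚ] L} (hg : g ∈ inO L S) (t : L ≃ₐ[ℚ] L) : t * g * t⁻¹ ∈ inO L S := by
  obtain ⟨p, hp, hpA, P, hP, hpP, hin⟩ := hg
  let φ : 𝓞 L →+* 𝓞 L := MulSemiringAction.toRingHom (L ≃ₐ[ℚ] L) (𝓞 L) t⁻¹
  have hφ : ∀ y, φ y = t⁻¹ • y := fun y => rfl
  refine ⟨p, hp, hpA, P.comap φ, Ideal.comap_isPrime φ P, ?_, fun y => ?_⟩
  · rw [Ideal.mem_comap, map_natCast]
    exact hpP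
  · rw [Ideal.mem_comap, map_sub, hφ, hφ, mul_smul, mul_smul, inv_smul_smul]
    exact hin _

/-- the subgroup generated by the inertia groups outside `S` -/
def No (L : Type*) [Field L] [NumberField L] (S : Set ℕ) : Subgroup (L ≃ₐ[ℚ] L) := Subgroup.closure (inO L S)

instance No_normal (S : Set ℕ) : (No L S).Normal := by
  refine ⟨fun n hn t => ?_⟩
  induction hn using Subgroup.closure_induction with
  | mem x hx => exact Subgroup.subset_closure (inO_conj hx t)
  | one => rw [mul_one, mul_inv_cancel]; exact Subgroup.one_mem _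
  | mul x y _ _ hx hy =>
    have e : t * (x * y) * t⁻¹ = (t * x * t⁻¹) * (t * y * t⁻¹) := by group
    rw [e]
    exact Subgroup.mul_mem _ hx hy
  | inv x _ hx =>
    have e : t * x⁻¹ * t⁻¹ = (t * x * t⁻¹)⁻¹ := by group
    rw [e]
    exact Subgroup.inv_mem _ hx

/-- `F` is unramified outside `S` iff the inertia groups outside `S` fix it -/
theorem unr_iff [IsGalois ℚ L] (S : Set ℕ) (F : IntermediateField ℚ L) :
    Unr S F ↔ F ≤ fixedField (No L S) := by
  rw [IntermediateField.le_iff_le, No, Subgroup.closure_le]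
  constructor
  · rintro h g ⟨p, hp, hpS, P, hP, hpP, hg⟩
    rw [SetLike.mem_coe, IntermediateField.mem_fixingSubgroup_iff]
    exact (inertia_iff F hp).1 (h p hp hpS) P hP hpP g hg
  · intro h p hp hpS
    rw [inertia_iff F hp]
    intro P hP hpP g hg
    have h1 := h ⟨p, hp, hpS, P, hP, hpP, hg⟩
    rw [SetLike.mem_coe, IntermediateField.mem_fixingSubgroup_iff] at h1
    exact h1

/-- the automorphism group acts on the embeddings -/
theorem finrank_normalClosure_le [IsGalois ℚ L] (F : IntermediateField ℚ L) :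
    Module.finrank ℚ (normalClosure ℚ F L) ≤ (Module.finrank ℚ F).factorial := by
  classical
  set N := normalClosure ℚ F L with hN
  let f : (L ≃ₐ[ℚ] L) →* Equiv.Perm (F →ₐ[ℚ] L) :=
    { toFun := fun g => ⟨fun φ => g.toAlgHom.comp φ, fun φ => g.symm.toAlgHom.comp φ,
        fun φ => by ext x; simp, fun φ => by ext x; simp⟩
      map_one' := by ext φ x; rfl
      map_mul' := fun a b => by ext φ x; rfl }
  have hker : f.ker ≤ N.fixingSubgroup := by
    intro g hg
    rw [MonoidHom.mem_ker] at hg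
    have h1 : ∀ φ : F →ₐ[ℚ] L, ∀ x, g (φ x) = φ x := fun φ x =>
      AlgHom.congr_fun (congrArg (fun e : Equiv.Perm (F →ₐ[ℚ] L) => e φ) hg) x
    have h2 : N ≤ fixedField (Subgroup.zpowers g) := by
      rw [hN, normalClosure_def, iSup_le_iff]
      rintro φ _ ⟨x, rfl⟩
      rw [mem_fixedField_iff]
      intro k hk
      obtain ⟨n, rfl⟩ := Subgroup.mem_zpowers_iff.1 hk
      have h4 : g ∈ MulAction.stabilizer (L ≃ₐ[ℚ] L) (φ x) := h1 φ x
      exact Subgroup.zpow_mem _ h4 n
    rw [IntermediateField.le_iff_le] at h2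
    exact h2 (Subgroup.mem_zpowers g)
  have h1 : Module.finrank ℚ N = N.fixingSubgroup.index :=
    finrank_eq_fixingSubgroup_index (F := ℚ) (E' := L) N
  have h2 : Nat.card (F →ₐ[ℚ] L) ≤ Module.finrank ℚ F := by
    exact card_algHom_le_finrank ℚ F L
  have h3 : N.fixingSubgroup.index ≤ f.ker.index := by
    refine Nat.le_of_dvd ?_ (Subgroup.index_dvd_of_le hker)
    exact Nat.pos_of_ne_zero Subgroup.FiniteIndex.index_ne_zero
  rw [h1]
  refine h3.trans ?_
  rw [Subgroup.index_ker]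
  refine (Nat.card_le_card_of_injective (fun x : f.range => x.1) Subtype.val_injective).trans ?_
  rw [Nat.card_perm]
  exact Nat.factorial_le h2

theorem unr_normalClosure [IsGalois ℚ L] (S : Set ℕ) (F : IntermediateField ℚ L) (hF : Unr S F) :
    Unr S (normalClosure ℚ F L) := by
  rw [unr_iff] at hF ⊢
  have := normalClosure_mono F _ hF
  rwa [normalClosure_of_normal (fixedField (No L S))] at this

/-- the bound of Hermite and Minkowski -/
noncomputable def bnd (S : Set ℕ) (D : ℕ) : ℕ := by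
  classical
  exact (D.factorial * ∏ᶠ p ∈ {p | p ∈ S ∧ p.Prime}, p) ^ D.factorial

theorem hermite [IsGalois ℚ L] (S : Set ℕ) (hS : S.Finite) (D : ℕ) (F : IntermediateField ℚ L)
    (hD : Module.finrank ℚ F ≤ D) (hF : Unr S F) :
    ∃ N : IntermediateField ℚ L, F ≤ N ∧ Unr S N ∧ |discr N| ≤ bnd S D := by
  classical
  refine ⟨normalClosure ℚ F L, le_normalClosure F, unr_normalClosure S F hF, ?_⟩
  have hN := unr_normalClosure S F hF
  have hn : @Normal ℚ (normalClosure ℚ F L) _ _ DivisionRing.toRatAlgebra := normalClosure.normal ℚ F L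
  set N := normalClosure ℚ F L with hNdef
  have hfr : Module.finrank ℚ N ≤ D.factorial := (finrank_normalClosure_le F).trans (Nat.factorial_le hD)
  have hGal : @IsGalois ℚ _ N _ DivisionRing.toRatAlgebra := ⟨⟩
  have hfin : {p | p ∈ S ∧ p.Prime}.Finite := hS.subset fun p hp => hp.1
  have h1 := discr_le (F := N) hfin.toFinset (fun p hp => by simpa using (hfin.mem_toFinset.1 hp).2)
    (fun p hp hpS => hN p hp fun h => hpS (hfin.mem_toFinset.2 ⟨h, hp⟩))
  have h2 : (discr N).natAbs ≤ bnd S D := by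
    refine h1.trans ?_
    rw [bnd, finprod_mem_eq_finite_toFinset_prod _ hfin]
    have hpos : 1 ≤ ∏ p ∈ hfin.toFinset, p := Nat.one_le_iff_ne_zero.2
      (Finset.prod_ne_zero_iff.2 fun p hp => (hfin.mem_toFinset.1 hp).2.ne_zero)
    refine (Nat.pow_le_pow_left (Nat.mul_le_mul_right _ hfr) _).trans ?_
    refine Nat.pow_le_pow_right ?_ hfr
    exact Nat.mul_pos (Nat.factorial_pos D) hpos
  rw [Int.abs_eq_natAbs]
  exact_mod_cast h2

end

section
variable {A : Type u} [Field A] [CharZero A]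

/-- the finitely many subfields of `A` of small discriminant generate a number field -/
theorem exists_comp (A : Type u) [Field A] [CharZero A] (B : ℕ) :
    ∃ G : IntermediateField ℚ A, FiniteDimensional ℚ G ∧ ∀ (N : Type u) [Field N] [NumberField N] (j : N →+* A),
      |discr N| ≤ B → ∀ x : N, j x ∈ G := by
  classical
  set T := {K : {F : IntermediateField ℚ A // FiniteDimensional ℚ F} |
      haveI :  NumberField K := @NumberField.mk _ _ inferInstance K.prop
      |discr K| ≤ (B : ℤ)} with hT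
  have hfin : T.Finite := NumberField.finite_of_discr_bdd A B
  have : Finite T := hfin
  have h1 : ∀ K : T, FiniteDimensional ℚ K.1.1 := fun K => K.1.2
  refine ⟨⨆ K : T, K.1.1, finiteDimensional_iSup_of_finite, ?_⟩
  intro N _ _ j hN x
  let i : N →ₐ[ℚ] A := j.toRatAlgHom
  have e : N ≃ₐ[ℚ] i.fieldRange := AlgEquiv.ofInjectiveField i
  have h2 : FiniteDimensional ℚ i.fieldRange := LinearEquiv.finiteDimensional e.toLinearEquiv
  have h3 : NumberField i.fieldRange := @NumberField.mk _ _ inferInstance h2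
  have h4 : (⟨i.fieldRange, h2⟩ : {F : IntermediateField ℚ A // FiniteDimensional ℚ F}) ∈ T := by
    rw [hT, Set.mem_ofPred_eq]
    rw [← discr_eq_discr_of_ringEquiv N e.toRingEquiv]
    exact hN
  have h5 : i.fieldRange ≤ ⨆ K : T, K.1.1 := le_iSup_of_le ⟨_, h4⟩ le_rfl
  exact h5 ⟨x, rfl⟩

/-- Galois hull -/
theorem exists_hull (A : Type u) [Field A] [CharZero A] [IsAlgClosed A] [Algebra.IsAlgebraic ℚ A]
    (G : IntermediateField ℚ A) [FiniteDimensional ℚ G] :
    ∃ C : IntermediateField ℚ A, ∃ (_ : NumberField C), G ≤ C ∧ IsGalois ℚ C := by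
  have : IsAlgClosure ℚ A := ⟨inferInstance, inferInstance⟩
  have hn : Normal ℚ A := IsAlgClosure.normal ℚ A
  have hn' : @Normal ℚ (normalClosure ℚ G A) _ _ DivisionRing.toRatAlgebra := normalClosure.normal ℚ G A
  have hf : FiniteDimensional ℚ (normalClosure ℚ G A) := inferInstance
  exact ⟨normalClosure ℚ G A, @NumberField.mk _ _ inferInstance hf, le_normalClosure G, ⟨⟩⟩

/-- the maximal subfield unramified outside `S` of a Galois hull -/
theorem exists_big_aux (A : Type u) [Field A] [CharZero A] [IsAlgClosed A] [Algebra.IsAlgebraic ℚ A]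
    {L0 : Type u} [Field L0] [NumberField L0] (i : L0 →+* A) (S : Set ℕ) (hS : S.Finite)
    (hL0 : Unr S L0) (D : ℕ) :
    ∃ (E : Type u) (_ : Field E) (_ : NumberField E) (_ : Algebra L0 E), IsGalois ℚ E ∧ Unr S E ∧
      ∃ j : E →+* A, ∀ (L : Type u) [Field L] [NumberField L] (l : L →+* A) (F : IntermediateField ℚ L),
        Module.finrank ℚ F ≤ D → Unr S F → ∀ x ∈ F, ∃ y : E, j y = l x := by
  obtain ⟨G, hGf, hG⟩ := exists_comp A (bnd S D)
  let i' : L0 →ₐ[ℚ] A := i.toRatAlgHom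
  have e0 : L0 ≃ₐ[ℚ] i'.fieldRange := AlgEquiv.ofInjectiveField i'
  have h0 : FiniteDimensional ℚ i'.fieldRange := LinearEquiv.finiteDimensional e0.toLinearEquiv
  obtain ⟨C, hC, hGC, hCG⟩ := exists_hull A (i'.fieldRange ⊔ G)
  -- the embedding of a subfield unramified outside `S`
  have key : ∀ (N : Type u) [Field N] [NumberField N] (k : N →+* A), (∀ x, k x ∈ C) → Unr S N →
      ∀ x : N, ∃ y ∈ fixedField (No C S), (y : A) = k x := by
    intro N _ _ k hk hN x
    let k1 : N →ₐ[ℚ] C := (k.codRestrict C hk : N →+* C).toRatAlgHom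
    have e1 : N ≃ₐ[ℚ] k1.fieldRange := AlgEquiv.ofInjectiveField k1
    have h1 : Unr S k1.fieldRange := hN.congr e1.toRingEquiv
    rw [unr_iff] at h1
    exact ⟨k1 x, h1 ⟨x, rfl⟩, rfl⟩
  set E : IntermediateField ℚ C := fixedField (No C S) with hE
  have hL : ∀ x, i x ∈ C := fun x => hGC ((le_sup_left : i'.fieldRange ≤ i'.fieldRange ⊔ G) ⟨x, rfl⟩)
  have hL' : ∀ x, (⟨i x, hL x⟩ : C) ∈ E := by
    intro x
    obtain ⟨y, hy, hyx⟩ := key L0 i hL hL0 x
    have : (⟨i x, hL x⟩ : C) = y := Subtype.ext hyx.symm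
    rw [this]
    exact hy
  let i2 : L0 →+* E := (i.codRestrict C hL).codRestrict E hL'
  have hEG : @IsGalois ℚ _ E _ DivisionRing.toRatAlgebra := IsGalois.of_fixedField_normal_subgroup (No C S)
  have hEU : Unr S E := (unr_iff S E).2 le_rfl
  let j : E →+* A := (algebraMap C A).comp (algebraMap E C)
  refine ⟨E, inferInstance, inferInstance, i2.toAlgebra, hEG, hEU, j, ?_⟩
  intro L _ _ l F hFD hFU x hx
  let l' : L →ₐ[ℚ] A := l.toRatAlgHom
  have e1 : L ≃ₐ[ℚ] l'.fieldRange := AlgEquiv.ofInjectiveField l'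
  have h1 : FiniteDimensional ℚ l'.fieldRange := LinearEquiv.finiteDimensional e1.toLinearEquiv
  obtain ⟨C1, hC1, hlC, hCG1⟩ := exists_hull A l'.fieldRange
  let l1 : L →ₐ[ℚ] C1 := (l.codRestrict C1 (fun x => hlC ⟨x, rfl⟩) : L →+* C1).toRatAlgHom
  have e2 : F ≃ₐ[ℚ] F.map l1 := equivMap F l1
  have h2 : Unr S (F.map l1) := hFU.congr e2.toRingEquiv
  have h3 : Module.finrank ℚ (F.map l1) ≤ D := by
    rw [← e2.toLinearEquiv.finrank_eq]
    exact hFD
  obtain ⟨N, hFN, hNU, hNb⟩ := hermite S hS D (F.map l1) h3 h2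
  let k : N →+* A := (algebraMap C1 A).comp (algebraMap N C1)
  have hk : ∀ y, k y ∈ C := fun y => hGC ((le_sup_right : G ≤ i'.fieldRange ⊔ G) (hG N k hNb y))
  have hxN : l1 x ∈ N := hFN ⟨x, hx, rfl⟩
  obtain ⟨y, hy, hyx⟩ := key N k hk hNU ⟨l1 x, hxN⟩
  exact ⟨⟨y, hy⟩, hyx⟩

end

/-- a Galois number field unramified outside `S` which contains all number fields of degree at most `D` which
are unramified outside `S` -/
theorem exists_big {L0 : Type u} [Field L0] [NumberField L0] (S : Set ℕ) (hS : S.Finite)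
    (hL0 : ∀ p : ℕ, p.Prime → p ∉ S → ¬ (p : ℤ) ∣ discr L0) (D : ℕ) :
    ∃ (E : Type u) (_ : Field E) (_ : NumberField E) (_ : Algebra L0 E), IsGalois ℚ E ∧
      (∀ p : ℕ, p.Prime → p ∉ S → ¬ (p : ℤ) ∣ discr E) ∧
      ∀ (L : Type u) [Field L] [NumberField L] [Algebra E L] (F : IntermediateField ℚ L),
        Module.finrank ℚ F ≤ D → (∀ p : ℕ, p.Prime → p ∉ S → ¬ (p : ℤ) ∣ discr F) →
        ∀ x ∈ F, ∃ y : E, algebraMap E L y = x := by
  have hchar : CharZero (AlgebraicClosure L0) := charZero_of_injective_algebraMap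
    (algebraMap L0 (AlgebraicClosure L0)).injective
  have halg : @Algebra.IsAlgebraic ℚ (AlgebraicClosure L0) _ _ DivisionRing.toRatAlgebra :=
    Algebra.IsAlgebraic.trans ℚ L0 (AlgebraicClosure L0)
  obtain ⟨E, hEF, hEN, hEA, hEG, hEU, j, hj⟩ := exists_big_aux (AlgebraicClosure L0)
    (algebraMap L0 (AlgebraicClosure L0)) S hS hL0 D
  refine ⟨E, hEF, hEN, hEA, hEG, hEU, ?_⟩
  intro L _ _ _ F hFD hFU x hx
  let _ : Algebra E (AlgebraicClosure L0) := j.toAlgebra
  have : Algebra.IsAlgebraic E L := Algebra.IsAlgebraic.tower_top (K := ℚ) E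
  let l : L →ₐ[E] AlgebraicClosure L0 := IsAlgClosed.lift
  obtain ⟨y, hy⟩ := hj L l.toRingHom F hFD hFU x hx
  exact ⟨y, l.injective ((l.commutes y).trans hy)⟩

end Pool.Agent.ORB.AA

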