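import Pool.Agent.ORB.HeightL

/-! ORB, Theorem IV: lower bound for the number of elements of bounded height. -/

namespace Pool.Agent.ORB

open NumberField Module

variable {K : Type*} [Field K] [NumberField K]

theorem emb_bound_real (K : Type*) [Field K] [NumberField K] : ∃ C : ℝ, 1 ≤ C ∧ ∀ (Y : ℝ), 0 ≤ Y →
    ∀ q : Bool × Idx K → ℤ, (∀ k, |(q k : ℝ)| ≤ Y) → ∀ σ : K →+* ℂ,
      ‖σ (pa q : K)‖ ≤ C * Y ∧ ‖σ (pb q : K)‖ ≤ C * Y := by
  refine ⟨(∑ σ : K →+* ℂ, ∑ i, ‖σ (RingOfIntegers.basis K i)‖) + 1, by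
    linarith [Finset.sum_nonneg (fun (σ : K →+* ℂ) (_ : σ ∈ Finset.univ) =>
      Finset.sum_nonneg (fun i (_ : i ∈ Finset.univ) => norm_nonneg (σ (RingOfIntegers.basis K i))))], ?_⟩
  intro Y hY q hq σ
  have key : ∀ v : Idx K → ℤ, (∀ k, |(v k : ℝ)| ≤ Y) → ‖σ (el v : K)‖ ≤
      ((∑ σ : K →+* ℂ, ∑ i, ‖σ (RingOfIntegers.basis K i)‖) + 1) * Y := by
    intro v hv
    rw [emb_el]
    have h1 : ‖∑ i, (v i : ℂ) * σ (RingOfIntegers.basis K i)‖ ≤ ∑ i, Y * ‖σ (RingOfIntegers.basis K i)‖ := by
      refine (norm_sum_le _ _).trans (Finset.sum_le_sum (fun i _ => ?_))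
      rw [norm_mul, Complex.norm_intCast]
      exact mul_le_mul_of_nonneg_right (hv i) (norm_nonneg _)
    rw [← Finset.mul_sum] at h1
    have h2 : ∑ i, ‖σ (RingOfIntegers.basis K i)‖ ≤ ∑ σ : K →+* ℂ, ∑ i, ‖σ (RingOfIntegers.basis K i)‖ :=
      Finset.single_le_sum (f := fun σ : K →+* ℂ => ∑ i, ‖σ (RingOfIntegers.basis K i)‖)
        (fun τ _ => Finset.sum_nonneg (fun i _ => norm_nonneg _)) (Finset.mem_univ σ)
    calc ‖∑ i, (v i : ℂ) * σ (RingOfIntegers.basis K i)‖ ≤ Y * ∑ i, ‖σ (RingOfIntegers.basis K i)‖ := h1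
      _ ≤ Y * (∑ σ : K →+* ℂ, ∑ i, ‖σ (RingOfIntegers.basis K i)‖) := mul_le_mul_of_nonneg_left h2 hY
      _ ≤ _ := by nlinarith
  exact ⟨key _ (fun k => hq _), key _ (fun k => hq _)⟩

/-- the height of a quotient of small integers -/
theorem height_le_of_emb {a b : 𝓞 K} (hb : b ≠ 0) {R : ℝ} (hR : ∀ σ : K →+* ℂ, ‖σ (a : K)‖ ≤ R ∧ ‖σ (b : K)‖ ≤ R) :
    Height.mulHeight₁ ((a : K) / (b : K)) * (Ideal.absNorm (Ideal.span {a, b}) : ℝ) ≤ R ^ finrank ℚ K ∧
    Height.mulHeight₁ ((a : K) / (b : K)) ≤ R ^ finrank ℚ K := by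
  have h1 := mulHeight_div a b hb
  have h2 : ∏ w : InfinitePlace K, (max (w (a : K)) (w (b : K))) ^ w.mult ≤ R ^ finrank ℚ K := by
    rw [← InfinitePlace.sum_mult_eq (K := K), ← Finset.prod_pow_eq_pow_sum]
    refine Finset.prod_le_prod (fun w _ => by positivity) (fun w _ => ?_)
    apply pow_le_pow_left₀ (by positivity)
    have h3 := hR w.embedding
    rw [InfinitePlace.norm_embedding_eq, InfinitePlace.norm_embedding_eq] at h3
    exact max_le h3.1 h3.2
  have hN : (1 : ℝ) ≤ (Ideal.absNorm (Ideal.span {a, b}) : ℝ) := by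
    have h4 : Ideal.absNorm (Ideal.span {a, b}) ≠ 0 := by
      rw [Ne, Ideal.absNorm_eq_zero_iff]
      intro h
      have : b ∈ Ideal.span {a, b} := Ideal.subset_span (by simp)
      rw [h, Ideal.mem_bot] at this
      exact hb this
    exact_mod_cast Nat.one_le_iff_ne_zero.2 h4
  have hH := Height.mulHeight₁_pos ((a : K) / (b : K))
  rw [← h1] at h2
  exact ⟨h2, by nlinarith⟩

/-- the number of the pairs in the box with quotient `β` -/
theorem mult_bound (K : Type*) [Field K] [NumberField K] : ∃ C : ℝ, 1 ≤ C ∧ ∀ (Y : ℕ), 1 ≤ Y → ∀ β : K,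
    (∃ q ∈ zbox (Bool × Idx K) Y, pb q ≠ 0 ∧ (pa q : K) / (pb q : K) = β) →
    Height.mulHeight₁ β ≤ C * (Y : ℝ) ^ finrank ℚ K ∧
    ∀ s : Finset (Bool × Idx K → ℤ), (∀ q ∈ s, q ∈ zbox (Bool × Idx K) Y ∧ pb q ≠ 0 ∧
      (pa q : K) / (pb q : K) = β) → (s.card : ℝ) ≤ C * ((Y : ℝ) ^ finrank ℚ K / Height.mulHeight₁ β) := by
  classical
  obtain ⟨C1, hC1, hpair⟩ := exists_pair K
  obtain ⟨C2, hC2, hemb⟩ := emb_bound_real K
  obtain ⟨C3, hC3, hcoord⟩ := coord_bound K
  set n := finrank ℚ K with hn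
  have hn0 : 0 < n := finrank_pos
  set C5 : ℝ := C3 * (C1 ^ n * (C2 * C1 ^ n)) with hC5
  have hC1n : 1 ≤ C1 ^ n := one_le_pow₀ hC1
  have hC5' : 1 ≤ C5 := by
    rw [hC5]
    have : 1 ≤ C2 * C1 ^ n := by nlinarith
    have : 1 ≤ C1 ^ n * (C2 * C1 ^ n) := by nlinarith
    nlinarith
  refine ⟨max (C2 ^ n) ((3 * C5) ^ n), le_max_of_le_left (one_le_pow₀ hC2), ?_⟩
  intro Y hY β hex
  have hY1 : (1 : ℝ) ≤ Y := by exact_mod_cast hY
  have hzr : ∀ q ∈ zbox (Bool × Idx K) Y, ∀ k, |(q k : ℝ)| ≤ (Y : ℝ) := by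
    intro q hq k
    rw [mem_zbox] at hq
    have := hq k
    have h2 : ((|q k| : ℤ) : ℝ) ≤ ((Y : ℤ) : ℝ) := by exact_mod_cast this
    push_cast at h2
    exact h2
  have hH0 := Height.mulHeight₁_pos β
  have hH1 := Height.one_le_mulHeight₁ β
  constructor
  · obtain ⟨q, hq, hb, hqβ⟩ := hex
    have h1 := (height_le_of_emb hb (hemb Y (by positivity) q (hzr q hq))).2
    rw [hqβ] at h1
    refine h1.trans ?_
    rw [mul_pow]
    exact mul_le_mul_of_nonneg_right (le_max_left _ _) (by positivity)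
  · intro s hs
    -- a balanced representation
    set T : ℝ := (Height.mulHeight₁ β) ^ ((1 : ℝ) / n) with hT
    have hT1 : 1 ≤ T := Real.one_le_rpow hH1 (by positivity)
    have hTn : T ^ n = Height.mulHeight₁ β := by
      rw [hT, ← Real.rpow_natCast, ← Real.rpow_mul hH0.le, one_div,
        inv_mul_cancel₀ (by exact_mod_cast hn0.ne'), Real.rpow_one]
    obtain ⟨r, hr0, hrβ, -, hrσ⟩ := hpair β T (by linarith) (by rw [hTn])
    set a1 := pa r with ha1
    set b1 := pb r with hb1
    have hb1K : (b1 : K) ≠ 0 := fun h => hr0 (RingOfIntegers.coe_eq_zero_iff.1 h)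
    have hprod := mulHeight_div a1 b1 hr0
    rw [← hrβ] at hprod
    set N := Ideal.absNorm (Ideal.span {a1, b1}) with hN
    have hN0 : N ≠ 0 := by
      rw [hN, Ne, Ideal.absNorm_eq_zero_iff]
      intro h
      have : b1 ∈ Ideal.span {a1, b1} := Ideal.subset_span (by simp)
      rw [h, Ideal.mem_bot] at this
      exact hr0 this
    have hN1 : (1 : ℝ) ≤ N := by exact_mod_cast Nat.one_le_iff_ne_zero.2 hN0
    have hNle : (N : ℝ) ≤ C1 ^ n := by
      have h1 := (height_le_of_emb hr0 hrσ).1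
      rw [← hrβ, mul_pow, hTn] at h1
      have h2 : Height.mulHeight₁ β * (N : ℝ) ≤ Height.mulHeight₁ β * C1 ^ n := by linarith
      exact le_of_mul_le_mul_left h2 hH0
    -- lower bound for the maxima
    have hMw : ∀ w : InfinitePlace K, T / C1 ^ n ≤ max (w (a1 : K)) (w (b1 : K)) := by
      intro w
      have hub : ∀ w : InfinitePlace K, max (w (a1 : K)) (w (b1 : K)) ≤ C1 * T := by
        intro w
        have h3 := hrσ w.embedding
        rw [InfinitePlace.norm_embedding_eq, InfinitePlace.norm_embedding_eq] at h3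
        exact max_le h3.1 h3.2
      have hpos : ∀ w : InfinitePlace K, 0 < max (w (a1 : K)) (w (b1 : K)) := by
        intro w
        exact lt_max_of_lt_right (w.pos_iff.2 hb1K)
      by_contra hcon
      push Not at hcon
      have h1 : (max (w (a1 : K)) (w (b1 : K))) ^ w.mult < (T / C1 ^ n) ^ w.mult :=
        pow_lt_pow_left₀ hcon (hpos w).le w.mult_ne_zero
      have h2 : ∏ w' ∈ Finset.univ.erase w, (max (w' (a1 : K)) (w' (b1 : K))) ^ w'.mult ≤
          ∏ w' ∈ Finset.univ.erase w, (C1 * T) ^ w'.mult :=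
        Finset.prod_le_prod (fun w' _ => by positivity)
          (fun w' _ => pow_le_pow_left₀ (hpos w').le (hub w') _)
      rw [← Finset.mul_prod_erase Finset.univ _ (Finset.mem_univ w)] at hprod
      have h3 : (∏ w' ∈ Finset.univ.erase w, (C1 * T) ^ w'.mult) * (C1 * T) ^ w.mult = (C1 * T) ^ n := by
        rw [mul_comm, Finset.mul_prod_erase Finset.univ (fun w' : InfinitePlace K => (C1 * T) ^ w'.mult)
          (Finset.mem_univ w), Finset.prod_pow_eq_pow_sum, InfinitePlace.sum_mult_eq]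
      have h4 : 0 < ∏ w' ∈ Finset.univ.erase w, (max (w' (a1 : K)) (w' (b1 : K))) ^ w'.mult :=
        Finset.prod_pos (fun w' _ => by have := hpos w'; positivity)
      have h5 : Height.mulHeight₁ β * (N : ℝ) < (T / C1 ^ n) ^ w.mult *
          ∏ w' ∈ Finset.univ.erase w, (C1 * T) ^ w'.mult := by
        rw [hprod]
        calc _ < (T / C1 ^ n) ^ w.mult * ∏ w' ∈ Finset.univ.erase w, (max (w' (a1 : K)) (w' (b1 : K))) ^ w'.mult :=
              mul_lt_mul_of_pos_right h1 h4
          _ ≤ _ := mul_le_mul_of_nonneg_left h2 (by positivity)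
      have h6 : (T / C1 ^ n) ^ w.mult * C1 ^ n ≤ T ^ w.mult := by
        rw [div_pow, div_mul_eq_mul_div, div_le_iff₀ (by positivity)]
        apply mul_le_mul_of_nonneg_left _ (by positivity)
        calc C1 ^ n = (C1 ^ n) ^ 1 := (pow_one _).symm
          _ ≤ (C1 ^ n) ^ w.mult := pow_le_pow_right₀ hC1n w.mult_pos
      have h7 : (T / C1 ^ n) ^ w.mult * (∏ w' ∈ Finset.univ.erase w, (C1 * T) ^ w'.mult) * (C1 * T) ^ w.mult ≤
          T ^ w.mult * T ^ n := by
        rw [mul_assoc, h3, mul_pow]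
        calc (T / C1 ^ n) ^ w.mult * (C1 ^ n * T ^ n) = ((T / C1 ^ n) ^ w.mult * C1 ^ n) * T ^ n := by ring
          _ ≤ T ^ w.mult * T ^ n := mul_le_mul_of_nonneg_right h6 (by positivity)
      have h8 : Height.mulHeight₁ β * (N : ℝ) * (C1 * T) ^ w.mult < T ^ w.mult * T ^ n :=
        lt_of_lt_of_le (mul_lt_mul_of_pos_right h5 (by positivity)) h7
      rw [hTn] at h8
      have h9 : T ^ w.mult * Height.mulHeight₁ β ≤ Height.mulHeight₁ β * (N : ℝ) * (C1 * T) ^ w.mult := by
        have h10 : T ^ w.mult ≤ (C1 * T) ^ w.mult := pow_le_pow_left₀ (by positivity) (by nlinarith) _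
        calc T ^ w.mult * Height.mulHeight₁ β ≤ (C1 * T) ^ w.mult * Height.mulHeight₁ β :=
              mul_le_mul_of_nonneg_right h10 hH0.le
          _ ≤ (C1 * T) ^ w.mult * (Height.mulHeight₁ β * N) := by
              apply mul_le_mul_of_nonneg_left _ (by positivity)
              nlinarith
          _ = _ := by ring
      linarith
    -- coefficients of the norm
    have hNmem : ∃ x y : 𝓞 K, x * a1 + y * b1 = (N : 𝓞 K) := by
      have h1 := Ideal.absNorm_mem (Ideal.span {a1, b1})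
      rw [← hN, Ideal.mem_span_pair] at h1
      exact h1
    obtain ⟨x, y, hxy⟩ := hNmem
    -- the multiplier
    have hmul : ∀ q ∈ s, ∃ v : Idx K → ℤ, (el v : K) * (b1 : K) = (N : K) * (pb q : K) ∧
        (el v : K) * (a1 : K) = (N : K) * (pa q : K) ∧ ∀ k, |(v k : ℝ)| ≤ C5 * ((Y : ℝ) / T) := by
      intro q hq
      obtain ⟨hqz, hqb, hqβ⟩ := hs q hq
      have hqbK : (pb q : K) ≠ 0 := fun h => hqb (RingOfIntegers.coe_eq_zero_iff.1 h)
      set l : K := (pb q : K) / (b1 : K) with hl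
      have hlb : l * (b1 : K) = (pb q : K) := div_mul_cancel₀ _ hb1K
      have hla : l * (a1 : K) = (pa q : K) := by
        have h1 : (a1 : K) = β * (b1 : K) := by rw [hrβ, div_mul_cancel₀ _ hb1K]
        have h2 : (pa q : K) = β * (pb q : K) := by rw [← hqβ, div_mul_cancel₀ _ hqbK]
        rw [h1, h2, ← hlb]; ring
      obtain ⟨v, hv⟩ := el_surjective (x * pa q + y * pb q)
      have hvl : (el v : K) = l * (N : K) := by
        have h1 : ((N : 𝓞 K) : K) = (N : K) := map_natCast (algebraMap (𝓞 K) K) N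
        have h2 := congrArg (algebraMap (𝓞 K) K) hxy
        rw [map_add, map_mul, map_mul, map_natCast] at h2
        have h3 : (el v : K) = (x : K) * (pa q : K) + (y : K) * (pb q : K) := by
          rw [hv]; simp
        rw [h3, ← hla, ← hlb, ← h2]
        ring
      refine ⟨v, ?_, ?_, ?_⟩
      · rw [hvl, ← hlb]; ring
      · rw [hvl, ← hla]; ring
      · intro k
        have h1 : ∀ σ : K →+* ℂ, ‖σ (el v)‖ ≤ C1 ^ n * (C2 * C1 ^ n) * (Y / T) := by
          intro σ
          set w := InfinitePlace.mk σ with hw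
          have h4 : ∀ x : K, ‖σ x‖ = w x := fun x => rfl
          have h5 := hMw w
          have h6 := hemb Y (by positivity) q (hzr q hqz) σ
          rw [h4, h4, ← hla, ← hlb, map_mul, map_mul] at h6
          have h7 : w l * max (w (a1 : K)) (w (b1 : K)) ≤ C2 * Y := by
            rcases le_total (w (a1 : K)) (w (b1 : K)) with h | h
            · rw [max_eq_right h]; exact h6.2
            · rw [max_eq_left h]; exact h6.1
          have h8 : w l * (T / C1 ^ n) ≤ C2 * Y :=
            (mul_le_mul_of_nonneg_left h5 (by positivity)).trans h7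
          have h9 : w l ≤ C2 * C1 ^ n * (Y / T) := by
            have hC1p : 0 < C1 ^ n := by positivity
            rw [mul_div_assoc', div_le_iff₀ hC1p] at h8
            rw [mul_div_assoc', le_div_iff₀ (by linarith)]
            nlinarith
          rw [h4, hvl, map_mul]
          have h10 : w (N : K) = (N : ℝ) := by
            rw [← h4, map_natCast, Complex.norm_natCast]
          rw [h10]
          calc w l * (N : ℝ) ≤ (C2 * C1 ^ n * (Y / T)) * C1 ^ n :=
                mul_le_mul h9 hNle (by positivity) (by positivity)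
            _ = _ := by ring
        have h2 := hcoord v _ h1 k
        refine h2.trans (le_of_eq ?_)
        rw [hC5]; ring
    choose! v hv1 hv2 hv3 using hmul
    set H := ⌊C5 * ((Y : ℝ) / T)⌋₊ with hH
    have hcard : s.card ≤ (zbox (Idx K) H).card := by
      refine Finset.card_le_card_of_injOn v ?_ ?_
      · intro q hq
        rw [Finset.mem_coe, mem_zbox]
        intro k
        have h1 := hv3 q hq k
        have h2 : ((|v q k|).toNat : ℝ) ≤ C5 * ((Y : ℝ) / T) := by
          have : (((|v q k|).toNat : ℤ) : ℝ) = |(v q k : ℝ)| := by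
            rw [Int.toNat_of_nonneg (abs_nonneg _)]; push_cast; rfl
          calc ((|v q k|).toNat : ℝ) = (((|v q k|).toNat : ℤ) : ℝ) := by push_cast; rfl
            _ = |(v q k : ℝ)| := this
            _ ≤ _ := h1
        have h3 := Nat.le_floor h2
        have h4 : ((|v q k|).toNat : ℤ) = |v q k| := Int.toNat_of_nonneg (abs_nonneg _)
        rw [← h4]
        exact_mod_cast h3
      · intro q hq q' hq' he
        have hNK : (N : K) ≠ 0 := by exact_mod_cast hN0
        have e1 := hv1 q hq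
        have e2 := hv2 q hq
        have e3 := hv1 q' hq'
        have e4 := hv2 q' hq'
        rw [he] at e1 e2
        have e5 : (pb q : K) = (pb q' : K) := mul_left_cancel₀ hNK (e1.symm.trans e3)
        have e6 : (pa q : K) = (pa q' : K) := mul_left_cancel₀ hNK (e2.symm.trans e4)
        exact pair_ext (RingOfIntegers.ext e6) (RingOfIntegers.ext e5)
    rcases s.eq_empty_or_nonempty with hse | ⟨q0, hq0⟩
    · rw [hse, Finset.card_empty, Nat.cast_zero]
      positivity
    · -- the vector `v q0` is not zero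
      have hbig : 1 ≤ C5 * ((Y : ℝ) / T) := by
        have h1 : v q0 ≠ 0 := by
          intro h
          have e1 := hv1 q0 hq0
          rw [h, el_zero] at e1
          have e2 : (0 : K) = (N : K) * (pb q0 : K) := by
            rw [← e1]; simp
          have hNK : (N : K) ≠ 0 := by exact_mod_cast hN0
          rcases mul_eq_zero.1 e2.symm with h2 | h2
          · exact hNK h2
          · exact (hs q0 hq0).2.1 (RingOfIntegers.coe_eq_zero_iff.1 h2)
        obtain ⟨k, hk⟩ := Function.ne_iff.1 h1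
        have h2 := hv3 q0 hq0 k
        have h3 : (1 : ℝ) ≤ |(v q0 k : ℝ)| := by
          have : 1 ≤ |v q0 k| := Int.one_le_abs hk
          exact_mod_cast this
        linarith
      have hHle : (H : ℝ) ≤ C5 * ((Y : ℝ) / T) := Nat.floor_le (by positivity)
      have h1 : (s.card : ℝ) ≤ (2 * H + 1 : ℝ) ^ n := by
        rw [card_zbox] at hcard
        have h2 : Fintype.card (Idx K) = n := deg_eq_finrank K
        rw [h2] at hcard
        exact_mod_cast hcard
      refine h1.trans ?_
      calc (2 * H + 1 : ℝ) ^ n ≤ (3 * C5 * (Y / T)) ^ n := by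
            apply pow_le_pow_left₀ (by positivity)
            nlinarith
        _ = (3 * C5) ^ n * ((Y : ℝ) ^ n / Height.mulHeight₁ β) := by
            rw [mul_pow, div_pow, hTn]
        _ ≤ _ := mul_le_mul_of_nonneg_right (le_max_right _ _) (by positivity)

end Pool.Agent.ORB
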