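import Pool.Agent.ORB.ThmIV
import Pool.Agent.ORB.HeightM

/-! ORB, Theorem IV for integral targets: almost all integral targets (ordered by the size of the conjugates) are
good, for arbitrary polynomials, together with a family with a core. -/

namespace Pool.Agent.ORB

open NumberField IsDedekindDomain Polynomial Module

universe u

/-- bad residue classes of the numerators, for a fixed denominator -/
def IBad {ι : Type*} {p : ℕ} (G : ι → (ZMod p)[X]) (s c : ZMod p) (v : ι → ZMod p) : Prop :=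
  ¬ ∀ i, ∀ x, s * (G i).eval x ≠ c * v i

open Classical in
theorem card_ibad_le {ι : Type*} [Fintype ι] {p : ℕ} [Fact p.Prime] (d : ι → ℕ) (hd : ∀ i, 1 ≤ d i)
    (G : ι → (ZMod p)[X]) (hG : ∀ i, (G i).natDegree ≤ d i) (s c : ZMod p) (hs0 : s ≠ 0) (hc0 : c ≠ 0)
    (hf : ∀ i, ¬ Function.Injective (fun x : ZMod p => (G i).eval x)) :
    ((Finset.univ.filter (fun v : ι → ZMod p => IBad G s c v)).card : ℝ) ≤
      (1 - dshare d) * (p : ℝ) ^ Fintype.card ι := by
  have hp := (Fact.out : p.Prime)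
  set good : Finset (ι → ZMod p) := Fintype.piFinset (fun i =>
    Finset.univ.filter (fun a : ZMod p => ∀ x, s * (G i).eval x ≠ c * a)) with hgood
  have h1 : (Finset.univ.filter (fun v : ι → ZMod p => IBad G s c v)) = goodᶜ := by
    ext q
    simp only [Finset.mem_filter, Finset.mem_univ, true_and, hgood, Finset.mem_compl,
      Fintype.mem_piFinset, IBad]
  have h2 : (goodᶜ.card : ℝ) = (p : ℝ) ^ Fintype.card ι - (good.card : ℝ) := by
    have h3 := Finset.card_add_card_compl good
    have h4 : Fintype.card (ι → ZMod p) = p ^ Fintype.card ι := by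
      rw [Fintype.card_fun, ZMod.card]
    rw [h4] at h3
    have h5 : ((good.card : ℝ) + (goodᶜ.card : ℝ)) = (p : ℝ) ^ Fintype.card ι := by exact_mod_cast h3
    linarith
  have h6 : dshare d * (p : ℝ) ^ Fintype.card ι ≤ (good.card : ℝ) := by
    have h7 : good.card = ∏ i, (Finset.univ.filter (fun a : ZMod p => ∀ x,
      s * (G i).eval x ≠ c * a)).card := by
      rw [hgood, Fintype.card_piFinset]
    rw [h7, Nat.cast_prod]
    have h8 : dshare d * (p : ℝ) ^ Fintype.card ι = ∏ i, ((1 / (4 * d i : ℝ)) * (p : ℝ)) := by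
      rw [Finset.prod_mul_distrib, Finset.prod_const, Finset.card_univ]; rfl
    rw [h8]
    apply Finset.prod_le_prod
    · intro i _
      positivity
    · intro i _
      have h10 := omit_bound' (G i) (d i) (hd i) (hG i) (hf i)
      set O := p - (Finset.univ.image (fun x : ZMod p => (G i).eval x)).card with hO
      set N := (Finset.univ.filter (fun a : ZMod p => ∀ x, s * (G i).eval x ≠ c * a)).card with hN
      have h9 : O ≤ N := by
        have h3 : ((Finset.univ.image (fun x : ZMod p => (G i).eval x))ᶜ).card = O := by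
          rw [Finset.card_compl, ZMod.card]
        rw [← h3]
        apply Finset.card_le_card_of_injOn (fun u => s * u / c)
        · intro u h
          rw [Finset.mem_coe, Finset.mem_compl, Finset.mem_image] at h
          push Not at h
          rw [Finset.mem_coe, Finset.mem_filter]
          refine ⟨Finset.mem_univ _, fun x hx => h x (Finset.mem_univ _) ?_⟩
          rw [mul_div_cancel₀ _ hc0] at hx
          exact mul_left_cancel₀ hs0 hx
        · intro u _ u' _ heq
          simp only at heq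
          rw [div_left_inj' hc0] at heq
          exact mul_left_cancel₀ hs0 heq
      have hp2 : (2 : ℝ) ≤ p := by exact_mod_cast hp.two_le
      have h11 : ((p : ℝ) - 1) ≤ d i * O := by
        have : ((p - 1 : ℕ) : ℝ) ≤ ((d i * O : ℕ) : ℝ) := by exact_mod_cast h10
        rw [Nat.cast_sub hp.one_le] at this
        push_cast at this
        exact this
      have h12 : (O : ℝ) ≤ N := by exact_mod_cast h9
      have hd1 : (1 : ℝ) ≤ d i := by exact_mod_cast hd i
      have h13 : ((p : ℝ) - 1) ≤ d i * N :=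
        h11.trans (mul_le_mul_of_nonneg_left h12 (by linarith))
      rw [div_mul_eq_mul_div, one_mul, div_le_iff₀ (by positivity)]
      nlinarith
  rw [h1, h2]
  linarith

section
variable {K : Type*} [Field K] [NumberField K]

/-- the entries of a vector -/
noncomputable def vecK {ι : Type*} (q : ι × Idx K → ℤ) (i : ι) : 𝓞 K := el (fun k => q (i, k))

/-- reduction of a tuple -/
noncomputable def redI {p : ℕ} (φ : 𝓞 K →+* ZMod p) (ι : Type*) :
    (ι × Idx K → ZMod p) →+ (ι → ZMod p) where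
  toFun q i := linK φ (fun k => q (i, k))
  map_zero' := by
    funext i
    exact map_zero (linK φ)
  map_add' q r := by
    funext i
    exact map_add (linK φ) (fun k => q (i, k)) (fun k => r (i, k))

theorem redI_zres {p : ℕ} (φ : 𝓞 K →+* ZMod p) {ι : Type*} (q : ι × Idx K → ℤ) (i : ι) :
    redI φ ι (zres p q) i = φ (vecK q i) := by
  show linK φ (fun k => zres p q (i, k)) = _
  have h1 := linK_apply φ (fun k => q (i, k))
  rw [vecK, ← h1]; rfl

theorem redI_surjective {p : ℕ} (φ : 𝓞 K →+* ZMod p) (ι : Type*) : Function.Surjective (redI φ ι) := by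
  intro t
  choose u hu using linK_surjective φ
  refine ⟨fun q => u (t q.1) q.2, ?_⟩
  funext i
  exact hu (t i)

open Classical in
theorem card_ikbad_le {ι : Type*} [Fintype ι] {p : ℕ} [Fact p.Prime] (φ : 𝓞 K →+* ZMod p) (d : ι → ℕ)
    (hd : ∀ i, 1 ≤ d i) (G : ι → (ZMod p)[X]) (hG : ∀ i, (G i).natDegree ≤ d i) (s c : ZMod p) (hs0 : s ≠ 0)
    (hc0 : c ≠ 0) (hf : ∀ i, ¬ Function.Injective (fun x : ZMod p => (G i).eval x)) :
    ((Finset.univ.filter (fun q : ι × Idx K → ZMod p => IBad G s c (redI φ ι q))).card : ℝ) ≤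
      (1 - dshare d) * (p : ℝ) ^ Fintype.card (ι × Idx K) := by
  have hp := (Fact.out : p.Prime)
  have h1 := card_ibad_le d hd G hG s c hs0 hc0 hf
  have h2 := card_preimage_mul (redI φ ι) (redI_surjective φ ι)
    (Finset.univ.filter (fun q : ι → ZMod p => IBad G s c q))
  have h3 : (Finset.univ.filter (fun q : ι × Idx K → ZMod p => IBad G s c (redI φ ι q))).card *
      Fintype.card (ι → ZMod p) =
      (Finset.univ.filter (fun q : ι → ZMod p => IBad G s c q)).card *
        Fintype.card (ι × Idx K → ZMod p) := by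
    refine Eq.trans ?_ h2
    congr 2
    ext q
    simp only [Finset.mem_filter, Finset.mem_univ, true_and]
  clear h2
  rename' h3 => h2
  have h4 : Fintype.card (ι → ZMod p) = p ^ Fintype.card ι := by
    rw [Fintype.card_fun, ZMod.card]
  have h5 : Fintype.card (ι × Idx K → ZMod p) = p ^ Fintype.card (ι × Idx K) := by
    rw [Fintype.card_fun, ZMod.card]
  rw [h4, h5] at h2
  have h6 : ((Finset.univ.filter (fun q : ι × Idx K → ZMod p => IBad G s c (redI φ ι q))).card : ℝ) *
      (p : ℝ) ^ Fintype.card ι =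
      ((Finset.univ.filter (fun q : ι → ZMod p => IBad G s c q)).card : ℝ) *
        (p : ℝ) ^ Fintype.card (ι × Idx K) := by exact_mod_cast h2
  have hp0 : (0 : ℝ) < p := by exact_mod_cast hp.pos
  have h7 : (0 : ℝ) < (p : ℝ) ^ Fintype.card ι := by positivity
  have h8 : ((Finset.univ.filter (fun q : ι × Idx K → ZMod p => IBad G s c (redI φ ι q))).card : ℝ) *
      (p : ℝ) ^ Fintype.card ι ≤
      ((1 - dshare d) * (p : ℝ) ^ Fintype.card (ι × Idx K)) * (p : ℝ) ^ Fintype.card ι := by
    rw [h6]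
    calc _ ≤ ((1 - dshare d) * (p : ℝ) ^ Fintype.card ι) * (p : ℝ) ^ Fintype.card (ι × Idx K) :=
          mul_le_mul_of_nonneg_right h1 (by positivity)
      _ = _ := by ring
  exact le_of_mul_le_mul_right h8 h7

end

open Classical in
/-- Theorem IV for integral targets with a fixed denominator, in a box of coordinates -/
theorem thmIVint_box {K : Type u} [Field K] [NumberField K] {𝒜 : Set (Set (HeightOneSpectrum (𝓞 K)))}
    (hcore : Core 𝒜) {ι : Type} [Fintype ι] (f : ι → K[X]) (hf : ∀ i, 2 ≤ (f i).natDegree) (s : 𝓞 K)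
    (hs : s ≠ 0) : ∀ ε : ℝ, 0 < ε → ∃ H0 : ℕ, ∀ H : ℕ, H0 ≤ H →
      (((zbox (ι × Idx K) H).filter (fun q => ¬ GoodT 𝒜 f (fun i => algebraMap (𝓞 K) K (vecK q i) /
        algebraMap (𝓞 K) K s))).card : ℝ) ≤ ε * (zbox (ι × Idx K) H).card := by
  obtain ⟨c, g, hc, hg⟩ := exists_commonK f
  have hinjK : Function.Injective (algebraMap (𝓞 K) K) := FaithfulSMul.algebraMap_injective (𝓞 K) K
  have hcK : algebraMap (𝓞 K) K c ≠ 0 := fun h => hc ((map_eq_zero_iff _ hinjK).1 h)
  have hdeg : ∀ i, (g i).natDegree = (f i).natDegree := by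
    intro i
    rw [← natDegree_map_eq_of_injective hinjK (g i), hg i, natDegree_C_mul hcK]
  have hg2 : ∀ i, 2 ≤ (g i).natDegree := fun i => (hdeg i).symm ▸ hf i
  obtain ⟨J, hJ, F, hF0, hFA, hinf⟩ := exists_places hcore g hg2 (c * s) (mul_ne_zero hc hs)
  set S := {p : ℕ | p.Prime ∧ ∃ (φ : 𝓞 K →+* ZMod p) (w : HeightOneSpectrum (𝓞 K)), RingHom.ker φ = w.asIdeal ∧
        φ (c * s) ≠ 0 ∧ (∀ i, φ (g i).leadingCoeff ≠ 0) ∧
        (∀ i, ¬ Function.Injective (fun x : ZMod p => ((g i).map φ).eval x)) ∧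
        (∀ j n, w.valuation K ((F j).coeff n) ≤ 1) ∧ (∀ j, w.valuation K (F j).leadingCoeff = 1) ∧
        ∀ j, ¬ HasRoot w (F j)} with hS
  let Bad : ∀ p : ℕ, Finset (ι × Idx K → ZMod p) := fun p =>
    if h : p ∈ S then haveI := Fact.mk h.1
      Finset.univ.filter (fun q => IBad (fun i => (g i).map h.2.choose) (h.2.choose s) (h.2.choose c)
        (redI h.2.choose ι q))
    else ∅
  refine count_main S hinf (fun p hp => hp.1) (dshare (fun i => (g i).natDegree))
    (dshare_pos _ (fun i => le_trans one_le_two (hg2 i))) (dshare_le_one _ (fun i => le_trans one_le_two (hg2 i)))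
    Bad ?_ _ ?_
  · intro p hp
    have hF := Fact.mk hp.1
    obtain ⟨w, hker, hφcs, hφl, hφn, h1, h2, h3⟩ := hp.2.choose_spec
    rw [map_mul] at hφcs
    have h5 : Bad p = Finset.univ.filter (fun q => IBad (fun i => (g i).map hp.2.choose) (hp.2.choose s)
        (hp.2.choose c) (redI hp.2.choose ι q)) := by
      show (if h : p ∈ S then _ else _) = _
      rw [dif_pos hp]
    rw [h5]
    exact card_ikbad_le hp.2.choose (fun i => (g i).natDegree) (fun i => le_trans one_le_two (hg2 i)) _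
      (fun i => natDegree_map_le) _ _ (right_ne_zero_of_mul hφcs) (left_ne_zero_of_mul hφcs) hφn
  · intro p hp q hq A hA α hα
    have hF := Fact.mk hp.1
    obtain ⟨w, hker, hφcs, hφl, hφn, h1, h2, h3⟩ := hp.2.choose_spec
    rw [map_mul] at hφcs
    have hφc := left_ne_zero_of_mul hφcs
    have hφs := right_ne_zero_of_mul hφcs
    set φ := hp.2.choose with hφ
    have h5 : Bad p = Finset.univ.filter (fun q => IBad (fun i => (g i).map φ) (φ s) (φ c)
        (redI φ ι q)) := by
      show (if h : p ∈ S then _ else _) = _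
      rw [dif_pos hp]
    rw [h5, Finset.mem_filter, not_and] at hq
    have h6 := hq (Finset.mem_univ _)
    unfold IBad at h6
    rw [not_not] at h6
    have h7 : ∀ i, ∀ x, φ s * ((g i).map φ).eval x ≠ φ c * φ (vecK q i) := by
      intro i
      have h8 := h6 i
      rw [redI_zres] at h8
      exact h8
    have hval1 : ∀ y : 𝓞 K, φ y ≠ 0 → w.valuation K (algebraMap (𝓞 K) K y) = 1 := by
      intro y hy
      rw [HeightOneSpectrum.valuation_eq_one_iff_notMem]
      intro h
      rw [← hker] at h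
      exact hy h
    have hvc := hval1 c hφc
    have hcoef : ∀ i n, w.valuation K ((f i).coeff n) = w.valuation K (algebraMap (𝓞 K) K ((g i).coeff n)) := by
      intro i n
      have h8 := congrArg (fun q => Polynomial.coeff q n) (hg i)
      simp only [coeff_map, coeff_C_mul] at h8
      rw [h8, map_mul, hvc, one_mul]
    refine posDensity_of_place w F hF0 h1 h2 h3 f hf _ ?_ ?_ ?_ ?_ A (hFA A hA) α (fun i => hα i 0)
    · intro i n
      rw [hcoef]
      exact w.valuation_le_one _
    · intro i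
      rw [leadingCoeff, hcoef, ← hdeg i]
      exact hval1 _ (hφl i)
    · intro i
      rw [map_div₀, hval1 _ hφs, div_one]
      exact w.valuation_le_one _
    · intro i
      exact no_rootK w φ hker (f i) (g i) c (hg i) _ _ hφs (h7 i)

/-- tuples of integers of `K` with all conjugates of size at most `X` -/
def CjBox (ι : Type) (K : Type u) [Field K] [NumberField K] (X : ℝ) : Set (ι → 𝓞 K) :=
  {b | ∀ i, ∀ σ : K →+* ℂ, ‖σ (b i : K)‖ ≤ X}

section conj

variable {K : Type u} [Field K] [NumberField K]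

theorem emb_boundI (K : Type u) [Field K] [NumberField K] : ∃ C : ℝ, 1 ≤ C ∧ ∀ (Y : ℝ), 0 ≤ Y →
    ∀ v : Idx K → ℤ, (∀ k, |(v k : ℝ)| ≤ Y) → ∀ σ : K →+* ℂ, ‖σ (el v : K)‖ ≤ C * Y := by
  obtain ⟨C, hC, h⟩ := emb_bound_real K
  refine ⟨C, hC, fun Y hY v hv σ => ?_⟩
  exact (h Y hY (fun q => v q.2) (fun k => hv k.2) σ).1

/-- the tuple with given coordinates -/
noncomputable def tup {ι : Type} (q : ι × Idx K → ℤ) : ι → 𝓞 K := fun i => vecK q i

theorem tup_injective {ι : Type} : Function.Injective (tup : (ι × Idx K → ℤ) → ι → 𝓞 K) := by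
  intro q r h
  funext ⟨i, k⟩
  have h1 := el_injective (M := K) (congrFun h i)
  exact congrFun h1 k

theorem tup_surjective {ι : Type} : Function.Surjective (tup : (ι × Idx K → ℤ) → ι → 𝓞 K) := by
  intro b
  choose u hu using fun i => el_surjective (M := K) (b i)
  exact ⟨fun q => u q.1 q.2, funext fun i => hu i⟩

open Classical in
/-- density zero in boxes implies density zero by the size of the conjugates -/
theorem conj_of_zbox {ι : Type} [Fintype ι] (Q : (ι → 𝓞 K) → Prop)
    (h : ∀ ε : ℝ, 0 < ε → ∃ H0 : ℕ, ∀ H : ℕ, H0 ≤ H →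
      (((zbox (ι × Idx K) H).filter (fun q => ¬ Q (tup q))).card : ℝ) ≤ ε * (zbox (ι × Idx K) H).card) :
    (∀ X : ℝ, (CjBox ι K X).Finite) ∧
    Filter.Tendsto (fun X : ℝ => ({b | b ∈ CjBox ι K X ∧ ¬ Q b}.ncard : ℝ) / ((CjBox ι K X).ncard : ℝ))
      Filter.atTop (nhds 0) := by
  obtain ⟨C, hC, hcoord⟩ := coord_bound K
  obtain ⟨C', hC', hemb⟩ := emb_boundI K
  set N := Fintype.card (ι × Idx K) with hN
  -- upper inclusion
  have hup : ∀ X : ℝ, ∀ q : ι × Idx K → ℤ, tup q ∈ CjBox ι K X → q ∈ zbox (ι × Idx K) ⌊C * X⌋₊ := by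
    intro X q hq
    rw [mem_zbox]
    rintro ⟨i, k⟩
    have h1 := hcoord (fun k => q (i, k)) X (fun σ => hq i σ) k
    have h0 : 0 ≤ C * X := (abs_nonneg _).trans h1
    have h2 : (((q (i, k)).natAbs : ℕ) : ℝ) ≤ C * X := by
      rw [Nat.cast_natAbs]
      push_cast
      exact h1
    have h3 := Nat.le_floor h2
    rw [Int.abs_eq_natAbs]
    exact_mod_cast h3
  have hfin : ∀ X : ℝ, (CjBox ι K X).Finite := by
    intro X
    refine (((zbox (ι × Idx K) ⌊C * X⌋₊).finite_toSet).image tup).subset ?_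
    intro b hb
    obtain ⟨q, rfl⟩ := tup_surjective b
    exact ⟨q, Finset.mem_coe.2 (hup X q hb), rfl⟩
  refine ⟨hfin, ?_⟩
  have hlow : ∀ X : ℝ, 0 ≤ X → (X / C') ^ N ≤ ((CjBox ι K X).ncard : ℝ) := by
    intro X hX
    have hC0 : 0 < C' := by linarith
    have h1 : (zbox (ι × Idx K) ⌊X / C'⌋₊).card ≤ (CjBox ι K X).ncard := by
      rw [← Set.ncard_coe_finset]
      refine Set.ncard_le_ncard_of_injOn tup ?_ tup_injective.injOn (hfin X)
      intro q hq i σ
      rw [Finset.mem_coe, mem_zbox] at hq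
      have h2 := hemb (X / C') (by positivity) (fun k => q (i, k)) (fun k => by
        have h3 : |((q (i, k) : ℤ) : ℝ)| ≤ (⌊X / C'⌋₊ : ℝ) := by exact_mod_cast hq (i, k)
        exact h3.trans (Nat.floor_le (by positivity))) σ
      rw [mul_div_cancel₀ _ hC0.ne'] at h2
      exact h2
    rw [card_zbox] at h1
    have h2 : X / C' ≤ ((2 * ⌊X / C'⌋₊ + 1 : ℕ) : ℝ) := by
      have := (Nat.lt_floor_add_one (X / C')).le
      push_cast
      have h3 : (0 : ℝ) ≤ (⌊X / C'⌋₊ : ℝ) := Nat.cast_nonneg _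
      linarith
    calc (X / C') ^ N ≤ ((2 * ⌊X / C'⌋₊ + 1 : ℕ) : ℝ) ^ N := pow_le_pow_left₀ (by positivity) h2 N
      _ ≤ _ := by exact_mod_cast h1
  set A : ℝ := (3 * C * C') ^ N with hA
  have hA0 : 0 < A := by rw [hA]; positivity
  rw [Metric.tendsto_atTop]
  intro ε hε
  obtain ⟨H0, hH0⟩ := h (ε / (2 * A)) (by positivity)
  refine ⟨(H0 : ℝ) + 1, fun X hX => ?_⟩
  have hH0' : (0 : ℝ) ≤ H0 := Nat.cast_nonneg _
  have hX1 : 1 ≤ X := by linarith
  have hX0 : 0 < X := by linarith
  have hCX : X ≤ C * X := le_mul_of_one_le_left hX0.le hC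
  have h1 : H0 ≤ ⌊C * X⌋₊ := Nat.le_floor (by linarith)
  have h2 := hH0 _ h1
  have h3 : ({b | b ∈ CjBox ι K X ∧ ¬ Q b}.ncard : ℝ) ≤
      (((zbox (ι × Idx K) ⌊C * X⌋₊).filter (fun q => ¬ Q (tup q))).card : ℝ) := by
    have h4 : {b | b ∈ CjBox ι K X ∧ ¬ Q b}.ncard ≤
        ((zbox (ι × Idx K) ⌊C * X⌋₊).filter (fun q => ¬ Q (tup q))).card := by
      rw [← Set.ncard_coe_finset]
      have h5 : {b | b ∈ CjBox ι K X ∧ ¬ Q b} ⊆
          tup '' (((zbox (ι × Idx K) ⌊C * X⌋₊).filter (fun q => ¬ Q (tup q)) : Finset _) : Set _) := by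
        rintro b ⟨hb1, hb2⟩
        obtain ⟨q, rfl⟩ := tup_surjective b
        refine ⟨q, ?_, rfl⟩
        rw [Finset.mem_coe, Finset.mem_filter]
        exact ⟨hup X q hb1, hb2⟩
      exact (Set.ncard_le_ncard h5 ((Finset.finite_toSet _).image _)).trans
        (Set.ncard_image_le (Finset.finite_toSet _))
    exact_mod_cast h4
  have h4 : (((zbox (ι × Idx K) ⌊C * X⌋₊).card : ℕ) : ℝ) ≤ (3 * C * X) ^ N := by
    rw [card_zbox, Nat.cast_pow]
    refine pow_le_pow_left₀ (Nat.cast_nonneg _) ?_ N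
    push_cast
    have h5 := Nat.floor_le (by positivity : 0 ≤ C * X)
    nlinarith
  have h5 := hlow X hX0.le
  have hpos : 0 < (X / C') ^ N := by positivity
  have h6 : A * (X / C') ^ N = (3 * C * X) ^ N := by
    rw [hA, ← mul_pow]
    congr 1
    field_simp
  rw [Real.dist_eq, sub_zero, abs_of_nonneg (by positivity), div_lt_iff₀ (lt_of_lt_of_le hpos h5)]
  calc ({b | b ∈ CjBox ι K X ∧ ¬ Q b}.ncard : ℝ)
      ≤ ε / (2 * A) * ((zbox (ι × Idx K) ⌊C * X⌋₊).card : ℝ) := h3.trans h2
    _ ≤ ε / (2 * A) * (3 * C * X) ^ N := mul_le_mul_of_nonneg_left h4 (by positivity)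
    _ = ε / 2 * (X / C') ^ N := by
        rw [← h6]
        field_simp
    _ ≤ ε / 2 * ((CjBox ι K X).ncard : ℝ) := mul_le_mul_of_nonneg_left h5 (by positivity)
    _ < ε * ((CjBox ι K X).ncard : ℝ) := by
        have : 0 < ((CjBox ι K X).ncard : ℝ) := lt_of_lt_of_le hpos h5
        nlinarith

end conj

/-- **Theorem IV for integral targets**: for polynomials of degree at least two and a fixed denominator, almost all
tuples of integers of `K`, ordered by the size of the conjugates, are good -/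
theorem thmIVint {K : Type u} [Field K] [NumberField K] {𝒜 : Set (Set (HeightOneSpectrum (𝓞 K)))}
    (hcore : Core 𝒜) {ι : Type} [Fintype ι] (f : ι → K[X]) (hf : ∀ i, 2 ≤ (f i).natDegree) (s : 𝓞 K)
    (hs : s ≠ 0) :
    Filter.Tendsto (fun X : ℝ => ({b | b ∈ CjBox ι K X ∧ ¬ GoodT 𝒜 f (fun i => (b i : K) / (s : K))}.ncard : ℝ) /
      ((CjBox ι K X).ncard : ℝ)) Filter.atTop (nhds 0) :=
  by
  classical
  refine (conj_of_zbox (K := K) (ι := ι) (fun b => GoodT 𝒜 f (fun i => algebraMap (𝓞 K) K (b i) /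
    algebraMap (𝓞 K) K s)) ?_).2
  intro ε hε
  obtain ⟨H0, h⟩ := thmIVint_box hcore f hf s hs ε hε
  refine ⟨H0, fun H hH => ?_⟩
  have h1 := h H hH
  refine le_trans (le_of_eq ?_) h1
  congr 2

end Pool.Agent.ORB
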