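import Pool.Agent.ORB.AADefs
import Pool.Agent.ORB.IThmIV

/-! ORB, Theorem AA, row E: divisibility of the norms of the values of a polynomial, counted in boxes. -/

namespace Pool.Agent.ORB.AA

open NumberField IsDedekindDomain Polynomial Module

universe u

section
variable {K : Type u} [Field K] [NumberField K]

/-- the rational prime in `w` divides every rational integer in `w` -/
theorem dvd_of_mem {w : HeightOneSpectrum (𝓞 K)} {p : ℕ} (hp : p.Prime) (hpw : (p : 𝓞 K) ∈ w.asIdeal)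
    {m : ℤ} (hm : (m : 𝓞 K) ∈ w.asIdeal) : (p : ℤ) ∣ m := by
  by_contra h
  have hp' : Prime (p : ℤ) := Nat.prime_iff_prime_int.1 hp
  obtain ⟨a, b, hab⟩ := (Prime.coprime_iff_not_dvd hp').2 h
  apply w.isPrime.ne_top
  rw [Ideal.eq_top_iff_one]
  have h1 : (1 : 𝓞 K) = (a : 𝓞 K) * (p : 𝓞 K) + (b : 𝓞 K) * (m : 𝓞 K) := by
    have h2 := congrArg (Int.cast : ℤ → 𝓞 K) hab
    push_cast at h2
    exact h2.symm
  rw [h1]
  exact Ideal.add_mem _ (Ideal.mul_mem_left _ _ hpw) (Ideal.mul_mem_left _ _ hm)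

open Classical in
/-- the vectors of the box whose element lies in a given class modulo `w` -/
theorem card_class_le {w : HeightOneSpectrum (𝓞 K)} {p : ℕ} (hp : p.Prime) (hpw : (p : 𝓞 K) ∈ w.asIdeal)
    (t : 𝓞 K) (H : ℕ) :
    ((zbox (Idx K) H).filter (fun x => el x - t ∈ w.asIdeal)).card * (p * (2 * H + 1)) ≤
      (2 * H + 1 + p) * (2 * H + 1) ^ Fintype.card (Idx K) := by
  obtain ⟨j, hj⟩ : ∃ j, RingOfIntegers.basis K j ∉ w.asIdeal := by
    by_contra h
    push Not at h
    apply w.isPrime.ne_top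
    rw [Ideal.eq_top_iff_one]
    obtain ⟨v, hv⟩ := el_surjective (M := K) 1
    rw [← hv, el]
    exact Ideal.sum_mem _ (fun k _ => by rw [zsmul_eq_mul]; exact Ideal.mul_mem_left _ _ (h k))
  set F := (zbox (Idx K) H).filter (fun x => el x - t ∈ w.asIdeal) with hF
  set s : Idx K → Finset ℤ := fun k => if k = j then {0} else Finset.Icc (-(H : ℤ)) H with hs
  have hfib : F.card ≤ ((2 * H + 1) / p + 1) * (Fintype.piFinset s).card := by
    apply Finset.card_le_mul_card_image_of_maps_to (f := fun x => Function.update x j 0)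
    · intro x hx
      rw [hF, Finset.mem_filter, mem_zbox] at hx
      rw [Fintype.mem_piFinset]
      intro k
      by_cases hk : k = j
      · subst hk
        rw [Function.update_self, hs]
        simp
      · rw [Function.update_of_ne hk, hs]
        simp only [if_neg hk, Finset.mem_Icc]
        exact abs_le.1 (hx.1 k)
    · intro b _
      rcases Finset.eq_empty_or_nonempty (F.filter (fun x => Function.update x j 0 = b)) with h0 | ⟨x0, hx0⟩
      · rw [h0, Finset.card_empty]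
        exact Nat.zero_le _
      · refine (Finset.card_le_card_of_injOn (fun x => x j)
          (t := ((Finset.Ioc (-(H : ℤ) - 1) ((-(H : ℤ) - 1) + (2 * H + 1 : ℕ))).filter
            (fun y => y ≡ x0 j [ZMOD p]))) ?_ ?_).trans (card_modEq_le _ _ _ hp.pos _)
        · intro x hx
          rw [Finset.mem_coe] at hx
          rw [Finset.mem_filter, hF, Finset.mem_filter, mem_zbox] at hx hx0
          have h1 := abs_le.1 (hx.1.1 j)
          rw [Finset.mem_coe, Finset.mem_filter, Finset.mem_Ioc]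
          refine ⟨⟨by linarith [h1.1], by push_cast; linarith [h1.2]⟩, ?_⟩
          have h2 : el x - el x0 ∈ w.asIdeal := by
            have h3 := w.asIdeal.sub_mem hx.1.2 hx0.1.2
            have h4 : el x - t - (el x0 - t) = el x - el x0 := by ring
            rwa [h4] at h3
          have h3 : el x - el x0 = ((x j - x0 j : ℤ) : 𝓞 K) * RingOfIntegers.basis K j := by
            rw [← el_sub, el, Finset.sum_eq_single j]
            · rw [zsmul_eq_mul]; rfl
            · intro k _ hk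
              have h4 : x k = x0 k := by
                have h5 := congrFun (hx.2.trans hx0.2.symm) k
                rwa [Function.update_of_ne hk, Function.update_of_ne hk] at h5
              rw [Pi.sub_apply, h4, sub_self, zero_smul]
            · intro h; exact absurd (Finset.mem_univ _) h
          rw [h3] at h2
          have h4 := (w.isPrime.mem_or_mem h2).resolve_right hj
          exact (Int.modEq_iff_dvd.2 (dvd_of_mem hp hpw h4)).symm
        · intro x hx x' hx' heq
          rw [Finset.mem_coe, Finset.mem_filter] at hx hx'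
          funext k
          by_cases hk : k = j
          · subst hk; exact heq
          · have h5 := congrFun (hx.2.trans hx'.2.symm) k
            rwa [Function.update_of_ne hk, Function.update_of_ne hk] at h5
  have hcard : (Fintype.piFinset s).card * (2 * H + 1) = (2 * H + 1) ^ Fintype.card (Idx K) := by
    rw [Fintype.card_piFinset, ← Finset.mul_prod_erase Finset.univ _ (Finset.mem_univ j)]
    have h1 : (s j).card = 1 := by rw [hs]; simp
    have h2 : ∀ k ∈ Finset.univ.erase j, (s k).card = 2 * H + 1 := by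
      intro k hk
      rw [hs]
      simp only [if_neg (Finset.ne_of_mem_erase hk), Int.card_Icc]
      omega
    rw [h1, one_mul, Finset.prod_congr rfl h2, Finset.prod_const, Finset.card_erase_of_mem (Finset.mem_univ j),
      Finset.card_univ, ← pow_succ]
    congr 1
    exact Nat.sub_add_cancel (Fintype.card_pos_iff.2 ⟨j⟩)
  have hdiv : ((2 * H + 1) / p + 1) * p ≤ 2 * H + 1 + p := by
    rw [add_mul, one_mul]
    exact Nat.add_le_add_right (Nat.div_mul_le_self _ _) _
  calc F.card * (p * (2 * H + 1))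
      ≤ (((2 * H + 1) / p + 1) * (Fintype.piFinset s).card) * (p * (2 * H + 1)) :=
        Nat.mul_le_mul_right _ hfib
    _ = (((2 * H + 1) / p + 1) * p) * ((Fintype.piFinset s).card * (2 * H + 1)) := by ring
    _ ≤ (2 * H + 1 + p) * (2 * H + 1) ^ Fintype.card (Idx K) := by
        rw [hcard]
        exact Nat.mul_le_mul_right _ hdiv

theorem absNorm_natCast (p : ℕ) : Ideal.absNorm (Ideal.span {(p : 𝓞 K)}) = p ^ finrank ℚ K := by
  rw [Ideal.absNorm_span_singleton]
  have h1 : (p : 𝓞 K) = algebraMap ℤ (𝓞 K) (p : ℤ) := by simp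
  rw [h1, Algebra.norm_algebraMap, RingOfIntegers.rank, Int.natAbs_pow, Int.natAbs_natCast]

/-- the number of primes above `p` -/
theorem over_finite {p : ℕ} (hp : p.Prime) : {w : HeightOneSpectrum (𝓞 K) | (p : 𝓞 K) ∈ w.asIdeal}.Finite := by
  have h0 : (Ideal.span {(p : 𝓞 K)}) ≠ 0 := by
    rw [Ne, Ideal.zero_eq_bot, Ideal.span_singleton_eq_bot]
    exact_mod_cast hp.ne_zero
  refine (Ideal.finite_factors h0).subset ?_
  intro w hw
  exact Ideal.dvd_span_singleton.2 hw

theorem over_card {p : ℕ} (hp : p.Prime) (T : Finset (HeightOneSpectrum (𝓞 K)))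
    (hT : ∀ w ∈ T, (p : 𝓞 K) ∈ w.asIdeal) : T.card ≤ finrank ℚ K := by
  classical
  have h1 : (∏ w ∈ T, w.asIdeal) ∣ Ideal.span {(p : 𝓞 K)} := by
    have h2 : ∏ w ∈ T, w.asIdeal = ∏ Q ∈ T.image (fun w => w.asIdeal), Q := by
      rw [Finset.prod_image]
      intro a _ b _ hab
      exact HeightOneSpectrum.ext hab
    rw [h2]
    apply Finset.prod_primes_dvd
    · intro Q hQ
      obtain ⟨w, hw, rfl⟩ := Finset.mem_image.1 hQ
      exact w.prime
    · intro Q hQ
      obtain ⟨w, hw, rfl⟩ := Finset.mem_image.1 hQ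
      exact Ideal.dvd_span_singleton.2 (hT w hw)
  have h2 := map_dvd (Ideal.absNorm (S := 𝓞 K)) h1
  rw [map_prod, absNorm_natCast] at h2
  have h3 : p ^ T.card ∣ ∏ w ∈ T, Ideal.absNorm w.asIdeal := by
    rw [← Finset.prod_const]
    apply Finset.prod_dvd_prod_of_dvd
    intro w hw
    have h4 := map_dvd (Ideal.absNorm (S := 𝓞 K)) (Ideal.dvd_span_singleton.2 (hT w hw))
    rw [absNorm_natCast] at h4
    obtain ⟨k, hk, hk'⟩ := (Nat.dvd_prime_pow hp).1 h4
    have h5 : k ≠ 0 := by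
      rintro rfl
      rw [pow_zero, Ideal.absNorm_eq_one_iff] at hk'
      exact w.isPrime.ne_top hk'
    rw [hk']
    exact dvd_pow_self p h5
  exact (Nat.pow_dvd_pow_iff_le_right hp.one_lt).1 (h3.trans h2)

/-- a prime divisor of the norm of `y` comes from a prime ideal which contains `y` -/
theorem exists_over {p : ℕ} (hp : p.Prime) (y : 𝓞 K) (h : p ∣ Ideal.absNorm (Ideal.span {y})) :
    ∃ w : HeightOneSpectrum (𝓞 K), (p : 𝓞 K) ∈ w.asIdeal ∧ y ∈ w.asIdeal := by
  have hJ : Ideal.span {y, (p : 𝓞 K)} ≠ ⊤ := by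
    intro htop
    rw [Ideal.eq_top_iff_one, Ideal.mem_span_pair] at htop
    obtain ⟨a, b, hab⟩ := htop
    by_cases hy : y = 0
    · rw [hy, mul_zero, zero_add] at hab
      have h1 : Ideal.absNorm (Ideal.span {(p : 𝓞 K)}) = 1 := by
        rw [Ideal.absNorm_eq_one_iff, Ideal.span_singleton_eq_top]
        exact IsUnit.of_mul_eq_one b (by rw [mul_comm]; exact hab)
      rw [absNorm_natCast] at h1
      have h2 : 0 < finrank ℚ K := finrank_pos
      have h3 := Nat.one_lt_pow h2.ne' hp.one_lt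
      omega
    · have h0 : Ideal.span {y} ≠ ⊥ := by rwa [Ne, Ideal.span_singleton_eq_bot]
      have hfin : Finite (𝓞 K ⧸ Ideal.span {y}) := by
        rw [← Ideal.absNorm_ne_zero_iff]
        rwa [Ne, Ideal.absNorm_eq_zero_iff]
      rw [Ideal.absNorm_apply, Submodule.cardQuot_apply] at h
      have := Fact.mk hp
      obtain ⟨x, hx⟩ := exists_prime_addOrderOf_dvd_card' p h
      have h1 : p • x = 0 := by rw [← hx]; exact addOrderOf_nsmul_eq_zero x
      have h2 : (Ideal.Quotient.mk (Ideal.span {y})) (b * (p : 𝓞 K)) = 1 := by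
        have h3 : (Ideal.Quotient.mk (Ideal.span {y})) (a * y + b * (p : 𝓞 K)) = 1 := by
          rw [hab, map_one]
        rw [map_add] at h3
        have h4 : (Ideal.Quotient.mk (Ideal.span {y})) (a * y) = 0 :=
          Ideal.Quotient.eq_zero_iff_mem.2 (Ideal.mul_mem_left _ _ (Ideal.mem_span_singleton_self y))
        rwa [h4, zero_add] at h3
      have h3 : x = 0 := by
        have h4 : x = (Ideal.Quotient.mk (Ideal.span {y}) b) * (p • x) := by
          rw [nsmul_eq_mul, ← mul_assoc]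
          rw [map_mul, map_natCast] at h2
          erw [h2, one_mul]
        rw [h4, h1, mul_zero]
      rw [h3, addOrderOf_zero] at hx
      exact hp.one_lt.ne hx
  obtain ⟨M, hM, hJM⟩ := Ideal.exists_le_maximal _ hJ
  have hy : y ∈ M := hJM (Ideal.subset_span (by simp))
  have hpM : (p : 𝓞 K) ∈ M := hJM (Ideal.subset_span (by simp))
  have hbot : M ≠ ⊥ := by
    rintro rfl
    rw [Ideal.mem_bot] at hpM
    exact hp.ne_zero (by exact_mod_cast hpM)
  exact ⟨⟨M, hM.isPrime, hbot⟩, hpM, hy⟩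

/-- the classes of the zeros modulo `w` -/
theorem exists_root_classes (w : HeightOneSpectrum (𝓞 K)) (Δ : (𝓞 K)[X]) (hΔ : ∃ i, Δ.coeff i ∉ w.asIdeal) :
    ∃ T : Finset (𝓞 K), T.card ≤ Δ.natDegree ∧ ∀ a b : 𝓞 K, b ∉ w.asIdeal →
      ∑ i ∈ Finset.range (Δ.natDegree + 1), Δ.coeff i * a ^ i * b ^ (Δ.natDegree - i) ∈ w.asIdeal →
      ∃ ρ ∈ T, a - ρ * b ∈ w.asIdeal := by
  classical
  have hmax := w.isMaximal
  let _ := Ideal.Quotient.field w.asIdeal
  set π := Ideal.Quotient.mk w.asIdeal with hπ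
  have hsurj : Function.Surjective π := Ideal.Quotient.mk_surjective
  have hne : Δ.map π ≠ 0 := by
    obtain ⟨i, hi⟩ := hΔ
    intro h
    apply hi
    rw [← Ideal.Quotient.eq_zero_iff_mem]
    have h1 := congrArg (fun q => Polynomial.coeff q i) h
    simpa only [coeff_map, coeff_zero] using h1
  refine ⟨(Δ.map π).roots.toFinset.image (Function.surjInv hsurj), ?_, ?_⟩
  · exact Finset.card_image_le.trans ((Multiset.toFinset_card_le _).trans
      ((card_roots' _).trans natDegree_map_le))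
  · intro a b hb hsum
    have hb0 : π b ≠ 0 := fun h => hb (Ideal.Quotient.eq_zero_iff_mem.1 h)
    have hroot : (Δ.map π).eval (π a / π b) = 0 := by
      have h1 : (π b) ^ Δ.natDegree * (Δ.map π).eval (π a / π b) = 0 := by
        rw [eval_map, eval₂_eq_sum_range, Finset.mul_sum]
        rw [← Ideal.Quotient.eq_zero_iff_mem] at hsum
        rw [← hsum, map_sum]
        refine Finset.sum_congr rfl (fun i hi => ?_)
        have hi' : i ≤ Δ.natDegree := Nat.lt_succ_iff.1 (Finset.mem_range.1 hi)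
        rw [map_mul, map_mul, map_pow, map_pow, div_pow]
        have h2 : (π b) ^ Δ.natDegree = (π b) ^ i * (π b) ^ (Δ.natDegree - i) := by
          rw [← pow_add]; congr 1; omega
        rw [h2]
        show π b ^ i * π b ^ (Δ.natDegree - i) * (π (Δ.coeff i) * (π a ^ i / π b ^ i)) =
          π (Δ.coeff i) * π a ^ i * π b ^ (Δ.natDegree - i)
        field_simp
      exact (mul_eq_zero.1 h1).resolve_left (pow_ne_zero _ hb0)
    refine ⟨Function.surjInv hsurj (π a / π b), ?_, ?_⟩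
    · rw [Finset.mem_image]
      refine ⟨_, ?_, rfl⟩
      rw [Multiset.mem_toFinset, mem_roots hne]
      exact hroot
    · rw [← Ideal.Quotient.eq_zero_iff_mem, map_sub, map_mul]
      have h1 : π (Function.surjInv hsurj (π a / π b)) = π a / π b := Function.surjInv_eq hsurj _
      show π a - π (Function.surjInv hsurj (π a / π b)) * π b = 0
      rw [h1, div_mul_cancel₀ _ hb0, sub_self]

open Classical in
/-- the numerators, for a fixed denominator prime to `w` -/
theorem card_num_le {w : HeightOneSpectrum (𝓞 K)} {p : ℕ} (hp : p.Prime) (hpw : (p : 𝓞 K) ∈ w.asIdeal)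
    (Δ : (𝓞 K)[X]) (hΔ : ∃ i, Δ.coeff i ∉ w.asIdeal) (b : 𝓞 K) (hb : b ∉ w.asIdeal) (H : ℕ) :
    ((zbox (Idx K) H).filter (fun x =>
      ∑ i ∈ Finset.range (Δ.natDegree + 1), Δ.coeff i * (el x) ^ i * b ^ (Δ.natDegree - i) ∈
        w.asIdeal)).card * (p * (2 * H + 1)) ≤
      Δ.natDegree * ((2 * H + 1 + p) * (2 * H + 1) ^ Fintype.card (Idx K)) := by
  obtain ⟨T, hT, h⟩ := exists_root_classes w Δ hΔ
  have h1 : ((zbox (Idx K) H).filter (fun x =>
      ∑ i ∈ Finset.range (Δ.natDegree + 1), Δ.coeff i * (el x) ^ i * b ^ (Δ.natDegree - i) ∈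
        w.asIdeal)) ⊆ T.biUnion (fun ρ => (zbox (Idx K) H).filter (fun x => el x - ρ * b ∈ w.asIdeal)) := by
    intro x hx
    rw [Finset.mem_filter] at hx
    obtain ⟨ρ, hρ, h2⟩ := h (el x) b hb hx.2
    rw [Finset.mem_biUnion]
    exact ⟨ρ, hρ, Finset.mem_filter.2 ⟨hx.1, h2⟩⟩
  calc _ ≤ (∑ ρ ∈ T, ((zbox (Idx K) H).filter (fun x => el x - ρ * b ∈ w.asIdeal)).card) *
        (p * (2 * H + 1)) :=
        Nat.mul_le_mul_right _ ((Finset.card_le_card h1).trans Finset.card_biUnion_le)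
    _ = ∑ ρ ∈ T, ((zbox (Idx K) H).filter (fun x => el x - ρ * b ∈ w.asIdeal)).card * (p * (2 * H + 1)) := by
        rw [Finset.sum_mul]
    _ ≤ ∑ ρ ∈ T, (2 * H + 1 + p) * (2 * H + 1) ^ Fintype.card (Idx K) :=
        Finset.sum_le_sum (fun ρ _ => card_class_le hp hpw _ H)
    _ = T.card * ((2 * H + 1 + p) * (2 * H + 1) ^ Fintype.card (Idx K)) := by
        rw [Finset.sum_const, smul_eq_mul]
    _ ≤ _ := Nat.mul_le_mul_right _ hT

/-- counting in the product of two boxes, fibre by fibre -/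
theorem card_fib_le (e : Bool) (P : (Bool × Idx K → ℤ) → Prop) [DecidablePred P] (H c M : ℕ) (hc : 0 < c)
    (h : ∀ y : Idx K → ℤ, ((zbox (Idx K) H).filter (fun z => P (fun k => if k.1 = e then z k.2 else y k.2))).card
      * c ≤ M) :
    ((zbox (Bool × Idx K) H).filter P).card * c ≤ M * (2 * H + 1) ^ Fintype.card (Idx K) := by
  classical
  have h1 : ((zbox (Bool × Idx K) H).filter P).card ≤ (M / c) * (zbox (Idx K) H).card := by
    apply Finset.card_le_mul_card_image_of_maps_to (f := fun x k => x (!e, k))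
    · intro x hx
      rw [Finset.mem_filter, mem_zbox] at hx
      rw [mem_zbox]
      intro k
      exact hx.1 _
    · intro y _
      refine le_trans ?_ ((Nat.le_div_iff_mul_le hc).2 (h y))
      apply Finset.card_le_card_of_injOn (fun x k => x (e, k))
      · intro x hx
        rw [Finset.mem_coe, Finset.mem_filter, Finset.mem_filter, mem_zbox] at hx
        rw [Finset.mem_coe, Finset.mem_filter, mem_zbox]
        refine ⟨fun k => hx.1.1 _, ?_⟩
        have h2 : (fun k : Bool × Idx K => if k.1 = e then x (e, k.2) else y k.2) = x := by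
          funext k
          obtain ⟨k1, k2⟩ := k
          by_cases hk : k1 = e
          · subst hk; simp
          · have h3 : k1 = !e := by
              cases k1 <;> cases e <;> simp_all
            subst h3
            simp only [if_neg hk]
            exact (congrFun hx.2 k2).symm
        rw [h2]
        exact hx.1.2
      · intro x hx x' hx' heq
        rw [Finset.mem_coe, Finset.mem_filter] at hx hx'
        funext k
        obtain ⟨k1, k2⟩ := k
        by_cases hk : k1 = e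
        · subst hk; exact congrFun heq k2
        · have h3 : k1 = !e := by
            cases k1 <;> cases e <;> simp_all
          subst h3
          exact (congrFun hx.2 k2).trans (congrFun hx'.2 k2).symm
  calc ((zbox (Bool × Idx K) H).filter P).card * c ≤ ((M / c) * (zbox (Idx K) H).card) * c :=
        Nat.mul_le_mul_right _ h1
    _ = ((M / c) * c) * (2 * H + 1) ^ Fintype.card (Idx K) := by rw [card_zbox]; ring
    _ ≤ M * (2 * H + 1) ^ Fintype.card (Idx K) := Nat.mul_le_mul_right _ (Nat.div_mul_le_self _ _)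

theorem norm_eq_prod (y : 𝓞 K) : (Ideal.absNorm (Ideal.span {y}) : ℝ) = ∏ σ : K →+* ℂ, ‖σ (y : K)‖ := by
  obtain ⟨v, rfl⟩ := el_surjective (M := K) y
  exact nrm_eq_prod v

/-- a bound for the conjugates of the value -/
theorem norm_eh_le (Δ : (𝓞 K)[X]) (C₁ : ℕ) : ∃ C : ℕ, ∀ (H : ℕ) (a b : 𝓞 K),
    (∀ σ : K →+* ℂ, ‖σ (a : K)‖ ≤ C₁ * H) → (∀ σ : K →+* ℂ, ‖σ (b : K)‖ ≤ C₁ * H) →
    Ideal.absNorm (Ideal.span {eh Δ a b}) ≤ C * H ^ ((Δ.natDegree + 1) * Fintype.card (K →+* ℂ)) := by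
  classical
  set D := Δ.natDegree with hD
  set n := Fintype.card (K →+* ℂ) with hn
  obtain ⟨S, hS⟩ : ∃ S : ℕ, ∀ i ∈ Finset.range (D + 1), ∀ σ : K →+* ℂ, ‖σ ((Δ.coeff i : 𝓞 K) : K)‖ ≤ S := by
    obtain ⟨S, hS⟩ := exists_nat_ge (∑ i ∈ Finset.range (D + 1), ∑ σ : K →+* ℂ, ‖σ ((Δ.coeff i : 𝓞 K) : K)‖)
    refine ⟨S, fun i hi σ => le_trans ?_ hS⟩
    refine le_trans ?_ (Finset.single_le_sum (f := fun i => ∑ σ : K →+* ℂ, ‖σ ((Δ.coeff i : 𝓞 K) : K)‖)
      (fun i _ => Finset.sum_nonneg (fun σ _ => norm_nonneg _)) hi)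
    exact Finset.single_le_sum (f := fun σ : K →+* ℂ => ‖σ ((Δ.coeff i : 𝓞 K) : K)‖)
      (fun σ _ => norm_nonneg _) (Finset.mem_univ σ)
  refine ⟨(((D + 1) * S) * C₁ ^ (D + 1)) ^ n, fun H a b ha hb => ?_⟩
  have hC0 : (0 : ℝ) ≤ C₁ * H := by positivity
  have h1 : ∀ σ : K →+* ℂ, ‖σ ((eh Δ a b : 𝓞 K) : K)‖ ≤ ((D + 1) * S) * (C₁ * H : ℝ) ^ (D + 1) := by
    intro σ
    have h2 : σ ((eh Δ a b : 𝓞 K) : K) = σ (b : K) * ∑ i ∈ Finset.range (D + 1),
        σ ((Δ.coeff i : 𝓞 K) : K) * (σ (a : K)) ^ i * (σ (b : K)) ^ (D - i) := by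
      rw [eh]
      push_cast
      rw [map_mul, map_sum]
      congr 1
      refine Finset.sum_congr rfl (fun i _ => ?_)
      rw [map_mul, map_mul, map_pow, map_pow]
    rw [h2, norm_mul]
    have h3 : ‖∑ i ∈ Finset.range (D + 1), σ ((Δ.coeff i : 𝓞 K) : K) * (σ (a : K)) ^ i *
        (σ (b : K)) ^ (D - i)‖ ≤ ((D + 1) * S) * (C₁ * H : ℝ) ^ D := by
      refine (norm_sum_le _ _).trans ?_
      have h4 : ∀ i ∈ Finset.range (D + 1), ‖σ ((Δ.coeff i : 𝓞 K) : K) * (σ (a : K)) ^ i *
          (σ (b : K)) ^ (D - i)‖ ≤ S * (C₁ * H : ℝ) ^ D := by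
        intro i hi
        have hi' : i ≤ D := Nat.lt_succ_iff.1 (Finset.mem_range.1 hi)
        rw [norm_mul, norm_mul, norm_pow, norm_pow, mul_assoc]
        refine mul_le_mul (hS i hi σ) ?_ (by positivity) (by positivity)
        calc ‖σ (a : K)‖ ^ i * ‖σ (b : K)‖ ^ (D - i) ≤ (C₁ * H : ℝ) ^ i * (C₁ * H : ℝ) ^ (D - i) :=
              mul_le_mul (pow_le_pow_left₀ (norm_nonneg _) (ha σ) _) (pow_le_pow_left₀ (norm_nonneg _) (hb σ) _)
                (by positivity) (by positivity)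
          _ = (C₁ * H : ℝ) ^ D := by rw [← pow_add]; congr 1; omega
      refine (Finset.sum_le_sum h4).trans (le_of_eq ?_)
      rw [Finset.sum_const, Finset.card_range, nsmul_eq_mul]
      push_cast
      ring
    calc ‖σ (b : K)‖ * _ ≤ (C₁ * H : ℝ) * (((D + 1) * S) * (C₁ * H : ℝ) ^ D) :=
          mul_le_mul (hb σ) h3 (norm_nonneg _) hC0
      _ = ((D + 1) * S) * (C₁ * H : ℝ) ^ (D + 1) := by rw [pow_succ]; ring
  have h2 : (Ideal.absNorm (Ideal.span {eh Δ a b}) : ℝ) ≤ (((D + 1) * S) * (C₁ * H : ℝ) ^ (D + 1)) ^ n := by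
    rw [norm_eq_prod]
    calc ∏ σ : K →+* ℂ, ‖σ ((eh Δ a b : 𝓞 K) : K)‖ ≤ ∏ _σ : K →+* ℂ, (((D + 1) * S) * (C₁ * H : ℝ) ^ (D + 1)) :=
          Finset.prod_le_prod (fun σ _ => norm_nonneg _) (fun σ _ => h1 σ)
      _ = _ := by rw [Finset.prod_const, Finset.card_univ]
  have h3 : (((D + 1) * S) * (C₁ * H : ℝ) ^ (D + 1)) ^ n =
      (((((D + 1) * S) * C₁ ^ (D + 1)) ^ n * H ^ ((D + 1) * n) : ℕ) : ℝ) := by
    push_cast
    rw [pow_mul, ← mul_pow]
    congr 1
    rw [mul_pow]
    ring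
  rw [h3] at h2
  exact_mod_cast h2

end

open Classical in
theorem norm_rat {K : Type u} [Field K] [NumberField K] (Δ : (𝓞 K)[X]) (B : Set ℕ) (hB : B.Finite)
    (hΔ : ∀ p : ℕ, p.Prime → p ∉ B → ∀ w : HeightOneSpectrum (𝓞 K), (p : 𝓞 K) ∈ w.asIdeal →
        ∃ i, Δ.coeff i ∉ w.asIdeal) :
    ∃ C M P0 : ℕ, (∀ p : ℕ, p.Prime → P0 < p → ∀ H : ℕ, 1 ≤ H →
      ((zbox (Bool × Idx K) H).filter (fun x => p ∣ Ideal.absNorm (Ideal.span
        {eh Δ (el (fun k => x (false, k))) (el (fun k => x (true, k)))}))).card * (p * (2 * H + 1)) ≤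
        C * (H + p) * (2 * H + 1) ^ Fintype.card (Bool × Idx K)) ∧
      ∀ (H : ℕ) (x : Bool × Idx K → ℤ), 1 ≤ H → x ∈ zbox (Bool × Idx K) H → Ideal.absNorm (Ideal.span
        {eh Δ (el (fun k => x (false, k))) (el (fun k => x (true, k)))}) ≤ C * H ^ M := by
  obtain ⟨C₀, hC₀, hemb⟩ := emb_boundI K
  obtain ⟨C₁, hC₁⟩ := exists_nat_ge C₀
  obtain ⟨C₂, hC₂⟩ := norm_eh_le Δ C₁
  obtain ⟨P0, hP0⟩ := hB.bddAbove
  refine ⟨max C₂ (2 * (finrank ℚ K * (1 + Δ.natDegree))), (Δ.natDegree + 1) * Fintype.card (K →+* ℂ), P0,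
    ?_, ?_⟩
  · intro p hp hpP H hH
    have hpB : p ∉ B := fun h => absurd (hP0 h) (by omega)
    set W := (over_finite (K := K) hp).toFinset with hW
    have hmemW : ∀ w ∈ W, (p : 𝓞 K) ∈ w.asIdeal := by
      intro w hw
      rwa [hW, Set.Finite.mem_toFinset] at hw
    set n := Fintype.card (Idx K) with hn
    set A : HeightOneSpectrum (𝓞 K) → Finset (Bool × Idx K → ℤ) := fun w =>
      (zbox (Bool × Idx K) H).filter (fun x => el (fun k => x (true, k)) ∈ w.asIdeal) with hA
    set P' : HeightOneSpectrum (𝓞 K) → (Bool × Idx K → ℤ) → Prop := fun w x =>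
      el (fun k => x (true, k)) ∉ w.asIdeal ∧
        ∑ i ∈ Finset.range (Δ.natDegree + 1), Δ.coeff i * (el (fun k => x (false, k))) ^ i *
          (el (fun k => x (true, k))) ^ (Δ.natDegree - i) ∈ w.asIdeal with hP'
    set A' : HeightOneSpectrum (𝓞 K) → Finset (Bool × Idx K → ℤ) := fun w =>
      (zbox (Bool × Idx K) H).filter (P' w) with hA'
    have hsub : ((zbox (Bool × Idx K) H).filter (fun x => p ∣ Ideal.absNorm (Ideal.span
        {eh Δ (el (fun k => x (false, k))) (el (fun k => x (true, k)))}))) ⊆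
        W.biUnion (fun w => A w ∪ A' w) := by
      intro x hx
      rw [Finset.mem_filter] at hx
      obtain ⟨w, hw1, hw2⟩ := exists_over hp _ hx.2
      rw [Finset.mem_biUnion]
      refine ⟨w, by rw [hW, Set.Finite.mem_toFinset]; exact hw1, ?_⟩
      rw [Finset.mem_union, hA, hA']
      simp only [Finset.mem_filter]
      by_cases hb : el (fun k => x (true, k)) ∈ w.asIdeal
      · exact Or.inl ⟨hx.1, hb⟩
      · exact Or.inr ⟨hx.1, hb, (w.isPrime.mem_or_mem hw2).resolve_left hb⟩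
    have hc : 0 < p * (2 * H + 1) := Nat.mul_pos hp.pos (by omega)
    have hA1 : ∀ w ∈ W, (A w).card * (p * (2 * H + 1)) ≤
        ((2 * H + 1 + p) * (2 * H + 1) ^ n) * (2 * H + 1) ^ n := by
      intro w hw
      apply card_fib_le true _ H _ _ hc
      intro y
      simpa using card_class_le hp (hmemW w hw) 0 H
    have hA2 : ∀ w ∈ W, (A' w).card * (p * (2 * H + 1)) ≤
        (Δ.natDegree * ((2 * H + 1 + p) * (2 * H + 1) ^ n)) * (2 * H + 1) ^ n := by
      intro w hw
      refine card_fib_le (K := K) false (P' w) H _ _ hc ?_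
      intro y
      by_cases hb : el y ∈ w.asIdeal
      · have h0 : (zbox (Idx K) H).filter (fun z => P' w (fun k =>
            if k.1 = false then z k.2 else y k.2)) = ∅ := by
          apply Finset.filter_eq_empty_iff.2
          intro z _ h
          exact h.1 (by simpa using hb)
        rw [h0, Finset.card_empty, zero_mul]
        exact Nat.zero_le _
      · refine le_trans (Nat.mul_le_mul_right _ (Finset.card_le_card ?_))
          (card_num_le hp (hmemW w hw) Δ (hΔ p hp hpB w (hmemW w hw)) (el y) hb H)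
        intro z hz
        rw [Finset.mem_filter] at hz ⊢
        exact ⟨hz.1, by simpa using hz.2.2⟩
    have hWc : W.card ≤ finrank ℚ K := over_card hp W hmemW
    have h2n : Fintype.card (Bool × Idx K) = n + n := by
      rw [Fintype.card_prod, Fintype.card_bool, hn]; ring
    rw [h2n, pow_add]
    have hstep : (W.biUnion (fun w => A w ∪ A' w)).card * (p * (2 * H + 1)) ≤
        finrank ℚ K * ((1 + Δ.natDegree) * ((2 * H + 1 + p) * ((2 * H + 1) ^ n * (2 * H + 1) ^ n))) := by
      calc (W.biUnion (fun w => A w ∪ A' w)).card * (p * (2 * H + 1))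
          ≤ (∑ w ∈ W, (A w ∪ A' w).card) * (p * (2 * H + 1)) :=
            Nat.mul_le_mul_right _ Finset.card_biUnion_le
        _ = ∑ w ∈ W, (A w ∪ A' w).card * (p * (2 * H + 1)) := by rw [Finset.sum_mul]
        _ ≤ ∑ w ∈ W, ((1 + Δ.natDegree) * ((2 * H + 1 + p) * ((2 * H + 1) ^ n * (2 * H + 1) ^ n))) := by
            apply Finset.sum_le_sum
            intro w hw
            calc (A w ∪ A' w).card * (p * (2 * H + 1)) ≤ ((A w).card + (A' w).card) * (p * (2 * H + 1)) :=
                  Nat.mul_le_mul_right _ (Finset.card_union_le _ _)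
              _ = (A w).card * (p * (2 * H + 1)) + (A' w).card * (p * (2 * H + 1)) := by ring
              _ ≤ ((2 * H + 1 + p) * (2 * H + 1) ^ n) * (2 * H + 1) ^ n +
                  (Δ.natDegree * ((2 * H + 1 + p) * (2 * H + 1) ^ n)) * (2 * H + 1) ^ n :=
                  Nat.add_le_add (hA1 w hw) (hA2 w hw)
              _ = _ := by ring
        _ = W.card * ((1 + Δ.natDegree) * ((2 * H + 1 + p) * ((2 * H + 1) ^ n * (2 * H + 1) ^ n))) := by
            rw [Finset.sum_const, smul_eq_mul]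
        _ ≤ _ := Nat.mul_le_mul_right _ hWc
    have h3 : 2 * H + 1 + p ≤ 2 * (H + p) := by have := hp.one_le; omega
    calc _ ≤ (W.biUnion (fun w => A w ∪ A' w)).card * (p * (2 * H + 1)) :=
          Nat.mul_le_mul_right _ (Finset.card_le_card hsub)
      _ ≤ _ := hstep
      _ ≤ finrank ℚ K * ((1 + Δ.natDegree) * ((2 * (H + p)) * ((2 * H + 1) ^ n * (2 * H + 1) ^ n))) :=
          Nat.mul_le_mul_left _ (Nat.mul_le_mul_left _ (Nat.mul_le_mul_right _ h3))
      _ = (2 * (finrank ℚ K * (1 + Δ.natDegree))) * (H + p) * ((2 * H + 1) ^ n * (2 * H + 1) ^ n) := by ring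
      _ ≤ _ := Nat.mul_le_mul_right _ (Nat.mul_le_mul_right _ (le_max_right _ _))
  · intro H x hH hx
    rw [mem_zbox] at hx
    have hH0 : (0 : ℝ) ≤ H := Nat.cast_nonneg _
    have h1 : ∀ (e : Bool) (σ : K →+* ℂ), ‖σ ((el (fun k => x (e, k)) : 𝓞 K) : K)‖ ≤ C₁ * H := by
      intro e σ
      have h2 := hemb H hH0 (fun k => x (e, k)) (fun k => by exact_mod_cast hx (e, k)) σ
      exact h2.trans (mul_le_mul_of_nonneg_right hC₁ hH0)
    exact (hC₂ H _ _ (h1 false) (h1 true)).trans (Nat.mul_le_mul_right _ (le_max_left _ _))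

open Classical in
theorem norm_int {K : Type u} [Field K] [NumberField K] (Δ : (𝓞 K)[X]) (B : Set ℕ) (hB : B.Finite)
    (hΔ : ∀ p : ℕ, p.Prime → p ∉ B → ∀ w : HeightOneSpectrum (𝓞 K), (p : 𝓞 K) ∈ w.asIdeal →
        ∃ i, Δ.coeff i ∉ w.asIdeal) (q : 𝓞 K) (hq : q ≠ 0) :
    ∃ C M P0 : ℕ, (∀ p : ℕ, p.Prime → P0 < p → ∀ H : ℕ, 1 ≤ H →
      ((zbox (Idx K) H).filter (fun x => p ∣ Ideal.absNorm (Ideal.span {eh Δ (el x) q}))).card *
        (p * (2 * H + 1)) ≤ C * (H + p) * (2 * H + 1) ^ Fintype.card (Idx K)) ∧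
      ∀ (H : ℕ) (x : Idx K → ℤ), 1 ≤ H → x ∈ zbox (Idx K) H →
        Ideal.absNorm (Ideal.span {eh Δ (el x) q}) ≤ C * H ^ M := by
  obtain ⟨C₀, hC₀, hemb⟩ := emb_boundI K
  obtain ⟨C₁, hC₁⟩ := exists_nat_ge (C₀ + ∑ σ : K →+* ℂ, ‖σ (q : K)‖)
  have hsum0 : 0 ≤ ∑ σ : K →+* ℂ, ‖σ (q : K)‖ := Finset.sum_nonneg (fun σ _ => norm_nonneg _)
  obtain ⟨C₂, hC₂⟩ := norm_eh_le Δ C₁
  obtain ⟨P0, hP0⟩ := hB.bddAbove
  have hq0 : Ideal.absNorm (Ideal.span {q}) ≠ 0 := by
    rw [Ne, Ideal.absNorm_eq_zero_iff, Ideal.span_singleton_eq_bot]; exact hq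
  refine ⟨max C₂ (2 * (finrank ℚ K * Δ.natDegree)), (Δ.natDegree + 1) * Fintype.card (K →+* ℂ),
    max P0 (Ideal.absNorm (Ideal.span {q})), ?_, ?_⟩
  · intro p hp hpP H hH
    have hpB : p ∉ B := fun h => absurd (hP0 h) (by omega)
    set W := (over_finite (K := K) hp).toFinset with hW
    have hmemW : ∀ w ∈ W, (p : 𝓞 K) ∈ w.asIdeal := by
      intro w hw
      rwa [hW, Set.Finite.mem_toFinset] at hw
    have hqW : ∀ w ∈ W, q ∉ w.asIdeal := by
      intro w hw hqw
      have h1 := map_dvd (Ideal.absNorm (S := 𝓞 K)) (Ideal.dvd_span_singleton.2 hqw)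
      have h4 := map_dvd (Ideal.absNorm (S := 𝓞 K)) (Ideal.dvd_span_singleton.2 (hmemW w hw))
      rw [absNorm_natCast] at h4
      obtain ⟨k, hk, hk'⟩ := (Nat.dvd_prime_pow hp).1 h4
      have h5 : k ≠ 0 := by
        rintro rfl
        rw [pow_zero, Ideal.absNorm_eq_one_iff] at hk'
        exact w.isPrime.ne_top hk'
      have h6 : p ∣ Ideal.absNorm (Ideal.span {q}) := (hk' ▸ dvd_pow_self p h5 : p ∣ _).trans h1
      have h7 := Nat.le_of_dvd (Nat.pos_of_ne_zero hq0) h6
      omega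
    set n := Fintype.card (Idx K) with hn
    set A' : HeightOneSpectrum (𝓞 K) → Finset (Idx K → ℤ) := fun w =>
      (zbox (Idx K) H).filter (fun x => ∑ i ∈ Finset.range (Δ.natDegree + 1), Δ.coeff i * (el x) ^ i *
          q ^ (Δ.natDegree - i) ∈ w.asIdeal) with hA'
    have hsub : ((zbox (Idx K) H).filter (fun x => p ∣ Ideal.absNorm (Ideal.span {eh Δ (el x) q}))) ⊆
        W.biUnion A' := by
      intro x hx
      rw [Finset.mem_filter] at hx
      obtain ⟨w, hw1, hw2⟩ := exists_over hp _ hx.2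
      have hw3 : w ∈ W := by rw [hW, Set.Finite.mem_toFinset]; exact hw1
      rw [Finset.mem_biUnion]
      refine ⟨w, hw3, ?_⟩
      rw [hA']
      simp only [Finset.mem_filter]
      exact ⟨hx.1, (w.isPrime.mem_or_mem hw2).resolve_left (hqW w hw3)⟩
    have hWc : W.card ≤ finrank ℚ K := over_card hp W hmemW
    have h3 : 2 * H + 1 + p ≤ 2 * (H + p) := by have := hp.one_le; omega
    calc _ ≤ (W.biUnion A').card * (p * (2 * H + 1)) :=
          Nat.mul_le_mul_right _ (Finset.card_le_card hsub)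
      _ ≤ (∑ w ∈ W, (A' w).card) * (p * (2 * H + 1)) :=
            Nat.mul_le_mul_right _ Finset.card_biUnion_le
      _ = ∑ w ∈ W, (A' w).card * (p * (2 * H + 1)) := by rw [Finset.sum_mul]
      _ ≤ ∑ w ∈ W, (Δ.natDegree * ((2 * H + 1 + p) * (2 * H + 1) ^ n)) :=
            Finset.sum_le_sum (fun w hw => card_num_le hp (hmemW w hw) Δ (hΔ p hp hpB w (hmemW w hw)) q
              (hqW w hw) H)
      _ = W.card * (Δ.natDegree * ((2 * H + 1 + p) * (2 * H + 1) ^ n)) := by
            rw [Finset.sum_const, smul_eq_mul]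
      _ ≤ finrank ℚ K * (Δ.natDegree * ((2 * (H + p)) * (2 * H + 1) ^ n)) :=
          Nat.mul_le_mul hWc (Nat.mul_le_mul_left _ (Nat.mul_le_mul_right _ h3))
      _ = (2 * (finrank ℚ K * Δ.natDegree)) * (H + p) * (2 * H + 1) ^ n := by ring
      _ ≤ _ := Nat.mul_le_mul_right _ (Nat.mul_le_mul_right _ (le_max_right _ _))
  · intro H x hH hx
    rw [mem_zbox] at hx
    have hH0 : (1 : ℝ) ≤ H := by exact_mod_cast hH
    have hH0' : (0 : ℝ) ≤ H := by linarith
    have h1 : ∀ σ : K →+* ℂ, ‖σ ((el x : 𝓞 K) : K)‖ ≤ C₁ * H := by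
      intro σ
      have h2 := hemb H hH0' x (fun k => by exact_mod_cast hx k) σ
      exact h2.trans (mul_le_mul_of_nonneg_right (by linarith) hH0')
    have h2 : ∀ σ : K →+* ℂ, ‖σ (q : K)‖ ≤ C₁ * H := by
      intro σ
      have h3 : ‖σ (q : K)‖ ≤ ∑ σ : K →+* ℂ, ‖σ (q : K)‖ :=
        Finset.single_le_sum (f := fun σ : K →+* ℂ => ‖σ (q : K)‖) (fun σ _ => norm_nonneg _)
          (Finset.mem_univ σ)
      have h4 : ‖σ (q : K)‖ ≤ C₁ := by linarith
      have h5 : (C₁ : ℝ) ≤ C₁ * H := le_mul_of_one_le_right (Nat.cast_nonneg _) hH0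
      exact h4.trans h5
    exact (hC₂ H _ _ h1 h2).trans (Nat.mul_le_mul_right _ (le_max_left _ _))

end Pool.Agent.ORB.AA
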