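import Pool.Agent.ORB.Density

/-! ORB: infinitely many primes modulo which given polynomials are not injective. -/

namespace Pool.Agent.ORB

open NumberField Module Polynomial

theorem ManyPrimes.exists_gt {S : Set ℕ} (h : ManyPrimes S) (B : ℕ) : ∃ p ∈ S, B < p := by
  obtain ⟨c, hc, x0, hx⟩ := h
  by_contra hcon
  push Not at hcon
  obtain ⟨N, hN⟩ := exists_nat_gt (2 * (B + 1 : ℝ) / c)
  set n : ℕ := N + x0 + 2 with hn
  have h1 : x0 ≤ n ^ 2 := by nlinarith
  have h2 := hx (n ^ 2) h1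
  have h3 : ({p : ℕ | p ∈ S ∧ p ≤ n ^ 2}.ncard : ℝ) ≤ B + 1 := by
    have h4 : {p : ℕ | p ∈ S ∧ p ≤ n ^ 2} ⊆ (Finset.range (B + 1) : Set ℕ) := by
      intro p hp
      rw [Finset.mem_coe, Finset.mem_range]
      have := hcon p hp.1
      omega
    have h5 := Set.ncard_le_ncard h4 (Finset.finite_toSet _)
    rw [Set.ncard_coe_finset, Finset.card_range] at h5
    exact_mod_cast h5
  have hn2 : (2 : ℝ) ≤ n := by rw [hn]; push_cast; linarith [Nat.cast_nonneg (α := ℝ) N, Nat.cast_nonneg (α := ℝ) x0]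
  have h6 : (n : ℝ) / 2 ≤ ((n ^ 2 : ℕ) : ℝ) / Real.log ((n ^ 2 : ℕ) : ℝ) := by
    push_cast
    rw [Real.log_pow, le_div_iff₀ (by
      have := Real.log_pos (show (1 : ℝ) < n by linarith)
      positivity)]
    have h7 := Real.log_le_sub_one_of_pos (show (0 : ℝ) < n by linarith)
    push_cast
    nlinarith
  have h8 : c * ((n : ℝ) / 2) ≤ B + 1 := le_trans (le_trans (mul_le_mul_of_nonneg_left h6 hc.le) h2) h3
  have h9 : 2 * (B + 1 : ℝ) / c < n := by
    refine lt_trans hN ?_
    rw [hn]; push_cast; linarith [Nat.cast_nonneg (α := ℝ) x0]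
  rw [div_lt_iff₀ hc] at h9
  linarith

section
variable {L : Type*} [Field L] [NumberField L] {p : ℕ} {P : Ideal (𝓞 L)}

theorem int_mem_iff (hp : p.Prime) (hP : P.IsPrime) (hpP : (p : 𝓞 L) ∈ P) (n : ℤ) :
    (n : 𝓞 L) ∈ P ↔ (p : ℤ) ∣ n := by
  constructor
  · intro h
    by_contra hn
    have h1 : IsCoprime (p : ℤ) n := (Nat.prime_iff_prime_int.mp hp).coprime_iff_not_dvd.mpr hn
    obtain ⟨a, b, hab⟩ := h1
    apply hP.ne_top
    rw [Ideal.eq_top_iff_one]
    have h2 : (1 : 𝓞 L) = (a : 𝓞 L) * (p : 𝓞 L) + (b : 𝓞 L) * (n : 𝓞 L) := by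
      exact_mod_cast congrArg (Int.cast : ℤ → 𝓞 L) hab.symm
    rw [h2]
    exact P.add_mem (P.mul_mem_left _ hpP) (P.mul_mem_left _ h)
  · rintro ⟨k, rfl⟩
    push_cast
    exact P.mul_mem_right _ hpP

theorem exists_int_of_frob_one (hp : p.Prime) (hP : P.IsPrime) (hpP : (p : 𝓞 L) ∈ P)
    (h : IsFrob p P (1 : L ≃ₐ[ℚ] L)) (y : 𝓞 L) : ∃ a : ℤ, y - a ∈ P := by
  have : Fact p.Prime := ⟨hp⟩
  have hbot : P ≠ ⊥ := by
    rintro rfl
    rw [Ideal.mem_bot] at hpP
    exact hp.ne_zero (by exact_mod_cast hpP)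
  have : P.IsMaximal := hP.isMaximal hbot
  let _ := Ideal.Quotient.field P
  have : CharP (𝓞 L ⧸ P) p := by
    refine (CharP.charP_iff_prime_eq_zero hp).mpr ?_
    have := Ideal.Quotient.eq_zero_iff_mem.mpr hpP
    rwa [map_natCast] at this
  have h1 : (Ideal.Quotient.mk P y) ^ p = Ideal.Quotient.mk P y := by
    rw [← map_pow, eq_comm, Ideal.Quotient.eq]
    have := h y
    rwa [one_smul] at this
  rw [← Subfield.mem_bot_iff_pow_eq_self, mem_bot_iff_intCast p] at h1
  obtain ⟨a, ha⟩ := h1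
  refine ⟨a, ?_⟩
  rw [← Ideal.Quotient.eq, ← ha, map_intCast]

end

/-- a split polynomial with a simple root `x0` and of degree at least two has another root -/
theorem exists_other_root {L : Type*} [Field L] {q : L[X]} (hq : q.Splits) (hd : 2 ≤ q.natDegree) {x0 : L}
    (h0 : q.eval x0 = 0) (h1 : (derivative q).eval x0 ≠ 0) : ∃ r : L, q.eval r = 0 ∧ r ≠ x0 := by
  have hq0 : q ≠ 0 := by rintro rfl; simp at hd
  set H := q /ₘ (X - C x0) with hH
  have hmul : (X - C x0) * H = q := mul_divByMonic_eq_iff_isRoot.mpr h0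
  have hHd : H.natDegree = q.natDegree - 1 := by
    rw [hH, natDegree_divByMonic _ (monic_X_sub_C x0), natDegree_X_sub_C]
  have hHs : H.Splits := hq.of_dvd hq0 ⟨X - C x0, by rw [mul_comm]; exact hmul.symm⟩
  have hHdeg : H.degree ≠ 0 := by
    intro h
    have h2 : H.natDegree = 0 := natDegree_eq_of_degree_eq_some h
    omega
  obtain ⟨r, hr⟩ := hHs.exists_eval_eq_zero hHdeg
  refine ⟨r, ?_, ?_⟩
  · rw [← hmul, eval_mul, hr, mul_zero]
  · rintro rfl
    apply h1
    rw [← hmul, derivative_mul, derivative_X_sub_C, one_mul, eval_add, hr, eval_mul, eval_sub, eval_X,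
      eval_C, sub_self, zero_mul, add_zero]

theorem normal_change {K : Type*} [Field K] (A B : Algebra ℚ K) (h : @Normal ℚ K _ _ A) :
    @Normal ℚ K _ _ B := by
  have h1 : B = A := Subsingleton.elim _ _
  rw [h1]
  exact h

/-- there are arbitrarily large primes modulo which no `g_i` is injective -/
theorem exists_noninj {ι : Type} [Finite ι] (g : ι → ℤ[X]) (hg : ∀ i, 2 ≤ (g i).natDegree) (B : ℕ) :
    ∃ p : ℕ, p.Prime ∧ B < p ∧ ∀ i, ¬ Function.Injective
      (fun x : ZMod p => ((g i).map (Int.castRingHom (ZMod p))).eval x) := by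
  classical
  have := Fintype.ofFinite ι
  obtain ⟨x0, hx0⟩ : ∃ x0 : ℤ, ∀ i, (derivative (g i)).eval x0 ≠ 0 := by
    have hD : (∏ i, derivative (g i)) ≠ 0 := by
      rw [Finset.prod_ne_zero_iff]
      intro i _ h
      have h1 := derivative_eq_zero.mp h
      have h2 := hg i
      omega
    by_contra hcon
    push Not at hcon
    apply hD
    refine Polynomial.funext (fun x => ?_)
    obtain ⟨i, hi⟩ := hcon x
    rw [eval_prod, eval_zero]
    exact Finset.prod_eq_zero (Finset.mem_univ i) hi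
  set h : ι → ℤ[X] := fun i => g i - C ((g i).eval x0) with hh
  have hnd : ∀ i, (h i).natDegree = (g i).natDegree := fun i => natDegree_sub_C
  have hh0 : ∀ i, h i ≠ 0 := by
    intro i h0
    have h1 := hnd i
    rw [h0, natDegree_zero] at h1
    have := hg i
    omega
  have hlc : ∀ i, (h i).leadingCoeff ≠ 0 := fun i => leadingCoeff_ne_zero.mpr (hh0 i)
  set Q : ℚ[X] := ∏ i, (h i).map (Int.castRingHom ℚ) with hQ
  have hinj : Function.Injective (Int.castRingHom ℚ) := (Int.castRingHom ℚ).injective_int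
  have hQ0 : Q ≠ 0 := by
    rw [hQ, Finset.prod_ne_zero_iff]
    intro i _
    exact (Polynomial.map_ne_zero_iff hinj).mpr (hh0 i)
  let L := Q.SplittingField
  have hLn : NumberField L := { to_charZero := inferInstance, to_finiteDimensional := inferInstance }
  have hLg : IsGalois ℚ L :=
    { to_isSeparable := inferInstance,
      to_normal := normal_change _ _ (Polynomial.SplittingField.instNormal Q) }
  have hinjL : Function.Injective (Int.castRingHom L) := (Int.castRingHom L).injective_int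
  -- the other roots
  have hroot : ∀ i, ∃ r : L, aeval r (h i) = 0 ∧ r ≠ (x0 : L) := by
    intro i
    set q : L[X] := (h i).map (Int.castRingHom L) with hq
    have hqQ : q ∣ Q.map (algebraMap ℚ L) := by
      have h1 : q = ((h i).map (Int.castRingHom ℚ)).map (algebraMap ℚ L) := by
        rw [hq, Polynomial.map_map]
        congr 1
      rw [h1]
      exact Polynomial.map_dvd _ (Finset.dvd_prod_of_mem _ (Finset.mem_univ i))
    have hqs : q.Splits := (Polynomial.SplittingField.splits Q).of_dvd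
      ((Polynomial.map_ne_zero_iff (algebraMap ℚ L).injective).mpr hQ0) hqQ
    have hqd : 2 ≤ q.natDegree := by
      rw [hq, natDegree_map_eq_of_injective hinjL, hnd]
      exact hg i
    have hq0 : q.eval (x0 : L) = 0 := by
      rw [hq, eval_intCast_map, hh]
      simp
    have hq1 : (derivative q).eval (x0 : L) ≠ 0 := by
      rw [hq, derivative_map, eval_intCast_map, hh]
      simp only [derivative_sub, derivative_C, sub_zero]
      intro h0
      rw [Int.cast_id] at h0
      exact hx0 i (hinjL (by rw [h0, map_zero]))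
    obtain ⟨r, hr, hne⟩ := exists_other_root hqs hqd hq0 hq1
    refine ⟨r, ?_, hne⟩
    rw [aeval_def, eval₂_eq_eval_map]
    exact hr
  choose r hr hrne using hroot
  have hint : ∀ i, IsIntegral ℤ ((h i).leadingCoeff • r i) := fun i => isIntegral_leadingCoeff_smul _ _ (hr i)
  set s : ι → 𝓞 L := fun i => ⟨(h i).leadingCoeff • r i, hint i⟩ with hs
  have hsval : ∀ i, algebraMap (𝓞 L) L (s i) = ((h i).leadingCoeff : L) * r i := by
    intro i
    rw [← zsmul_eq_mul]
    rfl
  set δ : 𝓞 L := ∏ i, ((((h i).leadingCoeff : ℤ) : 𝓞 L) * (s i - (((h i).leadingCoeff : ℤ) : 𝓞 L) * (x0 : 𝓞 L)))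
    with hδ
  have hδ0 : δ ≠ 0 := by
    rw [hδ, Finset.prod_ne_zero_iff]
    intro i _
    refine mul_ne_zero (by exact_mod_cast hlc i) ?_
    intro h0
    have h1 := congrArg (algebraMap (𝓞 L) L) h0
    rw [map_sub, hsval, map_mul, map_intCast, map_intCast, map_zero, ← mul_sub, mul_eq_zero] at h1
    rcases h1 with h1 | h1
    · exact hlc i (by exact_mod_cast h1)
    · exact hrne i (sub_eq_zero.mp h1)
  have hm : Ideal.absNorm (Ideal.span {δ}) ≠ 0 := by
    rw [Ne, Ideal.absNorm_eq_zero_iff, Ideal.span_singleton_eq_bot]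
    exact hδ0
  obtain ⟨p, ⟨hp, P, hP, hpP, τ, hτ, hfrob⟩, hpB⟩ :=
    (frob_density (L := L) 1).exists_gt (max B (Ideal.absNorm (Ideal.span {δ})))
  have hτ1 : τ = 1 := by
    have h1 : τ ∈ Subgroup.zpowers (1 : L ≃ₐ[ℚ] L) := by
      rw [← hτ]; exact Subgroup.mem_zpowers τ
    rw [Subgroup.zpowers_one_eq_bot, Subgroup.mem_bot] at h1
    exact h1
  subst hτ1
  refine ⟨p, hp, lt_of_le_of_lt (le_max_left _ _) hpB, fun i hinjp => ?_⟩
  have hpm : Ideal.absNorm (Ideal.span {δ}) < p := lt_of_le_of_lt (le_max_right _ _) hpB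
  have hδP : δ ∉ P := by
    intro hmem
    have h1 : Ideal.span {δ} ≤ P := (Ideal.span_singleton_le_iff_mem P).mpr hmem
    have h2 : (((Ideal.absNorm (Ideal.span {δ}) : ℕ) : ℤ) : 𝓞 L) ∈ P := by
      have := h1 (Ideal.absNorm_mem (Ideal.span {δ}))
      rwa [Int.cast_natCast]
    rw [int_mem_iff hp hP hpP] at h2
    have h3 := Nat.le_of_dvd (Nat.pos_of_ne_zero hm) (Int.natCast_dvd_natCast.mp h2)
    omega
  have hfac : (((h i).leadingCoeff : ℤ) : 𝓞 L) *
      (s i - (((h i).leadingCoeff : ℤ) : 𝓞 L) * (x0 : 𝓞 L)) ∉ P := by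
    intro hmem
    apply hδP
    rw [hδ, ← Finset.mul_prod_erase Finset.univ _ (Finset.mem_univ i)]
    exact P.mul_mem_right _ hmem
  have hcP : (((h i).leadingCoeff : ℤ) : 𝓞 L) ∉ P := fun hmem => hfac (P.mul_mem_right _ hmem)
  have hsP : s i - (((h i).leadingCoeff : ℤ) : 𝓞 L) * (x0 : 𝓞 L) ∉ P := fun hmem => hfac (P.mul_mem_left _ hmem)
  set c : ℤ := (h i).leadingCoeff with hc
  have : Fact p.Prime := ⟨hp⟩
  rw [int_mem_iff hp hP hpP] at hcP
  have hcp : (c : ZMod p) ≠ 0 := by rwa [Ne, ZMod.intCast_zmod_eq_zero_iff_dvd]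
  obtain ⟨a, ha⟩ := exists_int_of_frob_one hp hP hpP hfrob (s i)
  -- the polynomial `G`
  have hG : aeval (s i) (scaleRoots (h i) c) = 0 := by
    apply FaithfulSMul.algebraMap_injective (𝓞 L) L
    rw [map_zero, ← aeval_algebraMap_apply, hsval, aeval_def]
    have h1 := scaleRoots_eval₂_mul (p := h i) (algebraMap ℤ L) (r i) c
    have h2 : algebraMap ℤ L c = (c : L) := eq_intCast _ c
    rw [h2] at h1
    rw [h1, ← aeval_def, hr, mul_zero]
  have hGa : (p : ℤ) ∣ (scaleRoots (h i) c).eval a := by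
    rw [← int_mem_iff hp hP hpP]
    have h1 : ((((scaleRoots (h i) c).eval a : ℤ)) : 𝓞 L) =
        aeval ((a : ℤ) : 𝓞 L) (scaleRoots (h i) c) - aeval (s i) (scaleRoots (h i) c) := by
      rw [hG, sub_zero, aeval_def, eval₂_eq_eval_map]
      have h2 : (algebraMap ℤ (𝓞 L)) = Int.castRingHom (𝓞 L) := RingHom.ext_int _ _
      rw [h2, eval_intCast_map]
      rfl
    rw [h1, aeval_def, aeval_def, eval₂_eq_eval_map, eval₂_eq_eval_map]
    have h3 := sub_dvd_eval_sub ((a : ℤ) : 𝓞 L) (s i) ((scaleRoots (h i) c).map (algebraMap ℤ (𝓞 L)))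
    refine P.mem_of_dvd h3 ?_
    rw [← neg_sub]
    exact P.neg_mem ha
  obtain ⟨u, hu⟩ : ∃ u : ZMod p, (c : ZMod p) * u = 1 := ⟨(c : ZMod p)⁻¹, mul_inv_cancel₀ hcp⟩
  have hau : (c : ZMod p) * (u * (a : ZMod p)) = a := by rw [← mul_assoc, hu, one_mul]
  have hroot : eval₂ (Int.castRingHom (ZMod p)) (u * (a : ZMod p)) (h i) = 0 := by
    have h1 := scaleRoots_eval₂_mul (p := h i) (Int.castRingHom (ZMod p)) (u * (a : ZMod p)) c
    rw [eq_intCast (Int.castRingHom (ZMod p)) c, hau] at h1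
    have h2 : eval₂ (Int.castRingHom (ZMod p)) (a : ZMod p) (scaleRoots (h i) c) = 0 := by
      rw [eval₂_eq_eval_map, eval_intCast_map]
      rw [eq_intCast (Int.castRingHom (ZMod p)), ZMod.intCast_zmod_eq_zero_iff_dvd]
      exact hGa
    rw [h2] at h1
    exact (mul_eq_zero.mp h1.symm).resolve_left (pow_ne_zero _ hcp)
  have heq : ((g i).map (Int.castRingHom (ZMod p))).eval (u * (a : ZMod p)) =
      ((g i).map (Int.castRingHom (ZMod p))).eval (x0 : ZMod p) := by
    rw [hh, eval₂_eq_eval_map, Polynomial.map_sub, eval_sub, map_C, eval_C, sub_eq_zero] at hroot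
    rw [hroot, eval_intCast_map, Int.cast_id]
  have hxe := hinjp heq
  apply hsP
  have h4 : ((a - c * x0 : ℤ) : 𝓞 L) ∈ P := by
    rw [int_mem_iff hp hP hpP, ← ZMod.intCast_zmod_eq_zero_iff_dvd]
    push_cast
    rw [← hau, hxe, sub_self]
  have h5 : s i - (c : 𝓞 L) * (x0 : 𝓞 L) = (s i - a) + ((a - c * x0 : ℤ) : 𝓞 L) := by
    push_cast; ring
  rw [h5]
  exact P.add_mem ha h4

end Pool.Agent.ORB
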