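import Pool.Agent.ORB.AADefs
import Pool.Agent.ORB.Noninj
import Pool.Agent.ORB.Closure

/-!
ORB, Theorem AA, row Pa: two collisions with different values, over a finite extension.
-/

namespace Pool.Agent.ORB.AA

open NumberField IsDedekindDomain Polynomial

universe u

/-- outside a finite set of values `c` the numerator of `R - c` has degree `d` and is separable -/
theorem finite_bad_val {K : Type u} [Field K] [CharZero K] (R : RP K) (hd : 1 ≤ R.d) :
    {c : K | ¬ ((R.q (c : OnePoint K)).natDegree = R.d ∧ (R.q (c : OnePoint K)).Separable)}.Finite := by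
  classical
  let Ω := AlgebraicClosure K
  have hW : wronskian R.A R.B ≠ 0 := by
    intro h0
    rw [R.hcop.wronskian_eq_zero_iff] at h0
    have h1 := Polynomial.derivative_eq_zero.1 h0.1
    have h2 := Polynomial.derivative_eq_zero.1 h0.2
    rcases R.htop with h | h
    · exact h (coeff_eq_zero_of_natDegree_lt (by omega))
    · exact h (coeff_eq_zero_of_natDegree_lt (by omega))
  have hWΩ : (wronskian R.A R.B).map (algebraMap K Ω) ≠ 0 := Polynomial.map_ne_zero hW
  have hfin1 : {c : K | R.A.coeff R.d = c * R.B.coeff R.d}.Finite := by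
    refine Set.Subsingleton.finite (fun c hc c' hc' => ?_)
    have hc1 : R.A.coeff R.d = c * R.B.coeff R.d := hc
    have hc2 : R.A.coeff R.d = c' * R.B.coeff R.d := hc'
    have hB : R.B.coeff R.d ≠ 0 := by
      intro h0
      rw [h0, mul_zero] at hc1
      rcases R.htop with h | h
      · exact h hc1
      · exact h h0
    exact mul_right_cancel₀ hB (hc1.symm.trans hc2)
  have hfin2 : {c : K | ∃ r : Ω, aeval r (wronskian R.A R.B) = 0 ∧
      algebraMap K Ω c = aeval r R.A / aeval r R.B}.Finite := by
    have hfin : (((wronskian R.A R.B).map (algebraMap K Ω)).roots.toFinset.image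
        (fun r : Ω => aeval r R.A / aeval r R.B) : Set Ω).Finite := Finset.finite_toSet _
    refine (hfin.preimage ((algebraMap K Ω).injective.injOn)).subset ?_
    rintro c ⟨r, hr, hc⟩
    rw [Set.mem_preimage, Finset.mem_coe, Finset.mem_image]
    refine ⟨r, ?_, hc.symm⟩
    rw [Multiset.mem_toFinset, mem_roots hWΩ, IsRoot.def, eval_map_algebraMap]
    exact hr
  refine (hfin1.union hfin2).subset ?_
  intro c hc
  by_contra hcon
  apply hc
  rw [Set.mem_union, not_or] at hcon
  obtain ⟨h1, h2⟩ := hcon
  refine ⟨?_, ?_⟩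
  · refine natDegree_eq_of_le_of_coeff_ne_zero (R.q_natDegree _) ?_
    rw [RP.q_coe, coeff_sub, coeff_C_mul]
    intro h0
    exact h1 (sub_eq_zero.1 h0)
  · show IsCoprime _ _
    refine (Polynomial.isCoprime_iff_aeval_ne_zero_of_isAlgClosed K Ω _ _).2 ?_
    intro r
    by_contra h3
    push Not at h3
    obtain ⟨h4, h5⟩ := h3
    rw [RP.q_coe, map_sub, map_mul, aeval_C] at h4
    rw [RP.q_coe, derivative_sub, derivative_C_mul, map_sub, map_mul, aeval_C] at h5
    apply h2
    have hB : aeval r R.B ≠ 0 := by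
      intro h0
      have h6 := h4
      rw [h0, mul_zero, sub_zero] at h6
      obtain ⟨U, V, hUV⟩ := R.hcop
      have h7 := congrArg (aeval r) hUV
      rw [map_add, map_mul, map_mul, h6, h0, mul_zero, mul_zero, add_zero, map_one] at h7
      exact zero_ne_one h7
    refine ⟨r, ?_, ?_⟩
    · rw [wronskian, map_sub, map_mul, map_mul]
      linear_combination (aeval r (derivative R.B)) * h4 - (aeval r R.B) * h5
    · rw [eq_div_iff hB]
      exact (sub_eq_zero.1 h4).symm

/-- a value with two different preimages -/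
theorem two_preimages {K E : Type*} [Field K] [Field E] [Algebra K E] (R : RP K) (hd : 2 ≤ R.d) (c : K)
    (hdeg : (R.q (c : OnePoint K)).natDegree = R.d) (hsep : (R.q (c : OnePoint K)).Separable)
    (hs : ((R.q (c : OnePoint K)).map (algebraMap K E)).Splits) :
    ∃ x x' : OnePoint E, x ≠ x' ∧ (R.map (algebraMap K E)).act x = ((algebraMap K E c : E) : OnePoint E) ∧
      (R.map (algebraMap K E)).act x' = ((algebraMap K E c : E) : OnePoint E) := by
  set G := (R.q (c : OnePoint K)).map (algebraMap K E) with hG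
  have hGd : G.natDegree = R.d := by rw [hG, natDegree_map, hdeg]
  have hGdeg : G.degree ≠ 0 := by
    intro h
    have h2 : G.natDegree = 0 := natDegree_eq_of_degree_eq_some h
    omega
  obtain ⟨x, hx⟩ := hs.exists_eval_eq_zero hGdeg
  have hder : (derivative G).eval x ≠ 0 := by
    intro h0
    obtain ⟨U, V, hUV⟩ := hsep.map (f := algebraMap K E)
    have h7 := congrArg (eval x) hUV
    rw [eval_add, eval_mul, eval_mul, ← hG, hx, h0, mul_zero, mul_zero, add_zero, eval_one] at h7
    exact zero_ne_one h7
  obtain ⟨x', hx', hne⟩ := exists_other_root hs (by omega) hx hder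
  refine ⟨x, x', fun h => hne (OnePoint.coe_eq_coe.1 h).symm, ?_, ?_⟩
  · rw [hG, RP.map_q, RP.q_root] at hx
    exact hx
  · rw [hG, RP.map_q, RP.q_root] at hx'
    exact hx'

/-- two collisions with different values, over a finite extension -/
theorem exists_partners {K : Type u} [Field K] [NumberField K] {κ : Type} [Finite κ] (R : κ → RP K)
    (hd : ∀ k, 2 ≤ (R k).d) :
    ∃ (K3 : Type u) (_ : Field K3) (_ : NumberField K3) (_ : Algebra K K3), ∀ k, ∃ x x' y y' : OnePoint K3,
      x ≠ x' ∧ y ≠ y' ∧ ((R k).map (algebraMap K K3)).act x = ((R k).map (algebraMap K K3)).act x' ∧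
      ((R k).map (algebraMap K K3)).act y = ((R k).map (algebraMap K K3)).act y' ∧
      ((R k).map (algebraMap K K3)).act x ≠ ((R k).map (algebraMap K K3)).act y := by
  have hfin := fun k => finite_bad_val (R k) (le_trans one_le_two (hd k))
  have hc1 : ∀ k, ∃ c : K, c ∉ {c : K | ¬ (((R k).q (c : OnePoint K)).natDegree = (R k).d ∧
      ((R k).q (c : OnePoint K)).Separable)} := fun k => (hfin k).exists_notMem
  choose c hc using hc1
  have hc2 : ∀ k, ∃ c' : K, c' ∉ {c : K | ¬ (((R k).q (c : OnePoint K)).natDegree = (R k).d ∧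
      ((R k).q (c : OnePoint K)).Separable)} ∪ {c k} :=
    fun k => ((hfin k).union (Set.finite_singleton _)).exists_notMem
  choose c' hc' using hc2
  have hcg : ∀ k, ((R k).q (c k : OnePoint K)).natDegree = (R k).d ∧
      ((R k).q (c k : OnePoint K)).Separable := fun k => not_not.1 (hc k)
  have hcg' : ∀ k, (((R k).q (c' k : OnePoint K)).natDegree = (R k).d ∧
      ((R k).q (c' k : OnePoint K)).Separable) ∧ c' k ≠ c k := by
    intro k
    have h := hc' k
    rw [Set.mem_union, not_or] at h
    exact ⟨not_not.1 h.1, h.2⟩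
  obtain ⟨E, _, _, _, hE⟩ := exists_splitting (K := K) (ι := κ × Bool)
    (fun z => (R z.1).q ((cond z.2 (c z.1) (c' z.1) : K) : OnePoint K))
    (fun z => (R z.1).q_ne_zero (le_trans one_le_two (hd z.1)) _)
  refine ⟨E, inferInstance, inferInstance, inferInstance, fun k => ?_⟩
  obtain ⟨x, x', h1, h2, h3⟩ := two_preimages (E := E) (R k) (hd k) (c k) (hcg k).1 (hcg k).2 (hE (k, true))
  obtain ⟨y, y', h4, h5, h6⟩ := two_preimages (E := E) (R k) (hd k) (c' k) (hcg' k).1.1 (hcg' k).1.2
    (hE (k, false))
  refine ⟨x, x', y, y', h1, h4, h2.trans h3.symm, h5.trans h6.symm, ?_⟩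
  rw [h2, h5]
  intro h
  exact (hcg' k).2 ((algebraMap K E).injective (OnePoint.coe_eq_coe.1 h)).symm

end Pool.Agent.ORB.AA
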