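import Pool.Agent.ORB.RRed

/-!
ORB, Theorem AA, row Pb: an affine class modulo `p` which is not a value of `R` modulo `p`.
-/

set_option autoImplicit false

namespace Pool.Agent.ORB.AA

open NumberField IsDedekindDomain Polynomial

universe u

/-- a self-map of a finite set with two collisions misses a point different from a given one -/
theorem exists_missing {C : Type*} [Fintype C] [DecidableEq C] (T : C → C) {a a' b b' : C} (haa : a ≠ a')
    (hbb : b ≠ b') (h1 : T a = T a') (h2 : T b = T b') (h3 : T a ≠ T b) (z : C) : ∃ u, u ≠ z ∧ ∀ c, T c ≠ u := by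
  by_contra hcon
  push Not at hcon
  have hab' : a' ≠ b' := by
    rintro rfl
    exact h3 (h1.trans h2.symm)
  have hsub : (Finset.univ.erase z) ⊆ ((Finset.univ.erase a').erase b').image T := by
    intro u hu
    obtain ⟨c, hc⟩ := hcon u (Finset.ne_of_mem_erase hu)
    rw [Finset.mem_image]
    by_cases hca : c = a'
    · refine ⟨a, ?_, by rw [h1, ← hca, hc]⟩
      rw [Finset.mem_erase, Finset.mem_erase]
      refine ⟨?_, haa, Finset.mem_univ _⟩
      rintro rfl
      exact h3 h2.symm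
    · by_cases hcb : c = b'
      · refine ⟨b, ?_, by rw [h2, ← hcb, hc]⟩
        rw [Finset.mem_erase, Finset.mem_erase]
        refine ⟨hbb, ?_, Finset.mem_univ _⟩
        rintro rfl
        exact h3 h1
      · exact ⟨c, by rw [Finset.mem_erase, Finset.mem_erase]; exact ⟨hcb, hca, Finset.mem_univ _⟩, hc⟩
  have hcard := (Finset.card_le_card hsub).trans Finset.card_image_le
  rw [Finset.card_erase_of_mem (Finset.mem_univ z), Finset.card_erase_of_mem, Finset.card_erase_of_mem
    (Finset.mem_univ a')] at hcard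
  · have h4 : 2 ≤ (Finset.univ : Finset C).card := by
      have : ({a', b'} : Finset C).card ≤ (Finset.univ : Finset C).card := Finset.card_le_card (Finset.subset_univ _)
      rwa [Finset.card_pair hab'] at this
    omega
  · rw [Finset.mem_erase]
    exact ⟨hab'.symm, Finset.mem_univ _⟩

/-- representatives of the points of the projective line over `ZMod p` -/
noncomputable def rep (K : Type*) [Field K] (p : ℕ) (o : Option (ZMod p)) : OnePoint K :=
  o.elim OnePoint.infty (fun t => (((t.val : ℕ) : K) : OnePoint K))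

theorem pmap_rep {K L : Type*} [Field K] [Field L] (φ : K →+* L) (p : ℕ) (o : Option (ZMod p)) :
    pmap φ (rep K p o) = rep L p o := by
  cases o with
  | none => exact pmap_infty φ
  | some t =>
    show pmap φ (((t.val : ℕ) : K) : OnePoint K) = (((t.val : ℕ) : L) : OnePoint L)
    rw [pmap_coe, map_natCast]

section red
variable {K : Type u} [Field K] [NumberField K]

theorem val_le (v : HeightOneSpectrum (𝓞 K)) (x : 𝓞 K) : v.valuation K (algebraMap (𝓞 K) K x) ≤ 1 :=
  v.valuation_le_one x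

theorem val_lt_iff (v : HeightOneSpectrum (𝓞 K)) (x : 𝓞 K) :
    v.valuation K (algebraMap (𝓞 K) K x) < 1 ↔ x ∈ v.asIdeal :=
  v.valuation_lt_one_iff_mem x

theorem val_nat_one {v : HeightOneSpectrum (𝓞 K)} {p : ℕ} (hp : p.Prime) (hpv : ((p : ℕ) : 𝓞 K) ∈ v.asIdeal)
    {m : ℕ} (hm : ¬ p ∣ m) : v.valuation K (m : K) = 1 := by
  have h1 : ((m : ℕ) : 𝓞 K) ∉ v.asIdeal := by
    intro h
    apply v.isPrime.ne_top
    rw [Ideal.eq_top_iff_one]
    have hcop : IsCoprime (m : ℤ) (p : ℤ) :=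
      Nat.isCoprime_iff_coprime.2 ((hp.coprime_iff_not_dvd.2 hm).symm)
    obtain ⟨s, t, hst⟩ := hcop
    have h2 : (1 : 𝓞 K) = (s : 𝓞 K) * ((m : ℕ) : 𝓞 K) + (t : 𝓞 K) * ((p : ℕ) : 𝓞 K) := by
      have h3 := congrArg (fun z : ℤ => (z : 𝓞 K)) hst
      push_cast at h3
      exact h3.symm
    rw [h2]
    exact v.asIdeal.add_mem (Ideal.mul_mem_left _ _ h) (Ideal.mul_mem_left _ _ hpv)
  have h2 : v.valuation K (algebraMap (𝓞 K) K ((m : ℕ) : 𝓞 K)) = 1 := by
    refine le_antisymm (v.valuation_le_one _) (not_lt.1 fun h => h1 ?_)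
    exact (v.valuation_lt_one_iff_mem _).1 h
  rwa [map_natCast] at h2

theorem off_of {v : HeightOneSpectrum (𝓞 K)} {p : ℕ} (hp : p.Prime) (hpv : ((p : ℕ) : 𝓞 K) ∈ v.asIdeal)
    {bad : Finset ℕ} (hb : ∀ m ∈ bad, m ≠ 0 → ¬ p ∣ m) : Off v bad :=
  fun m hm hm0 => val_nat_one hp hpv (hb m hm hm0)

/-- reduction, if every residue class contains a natural number -/
theorem exists_rep {v : HeightOneSpectrum (𝓞 K)} {p : ℕ}
    (h : ∀ y : 𝓞 K, ∃ t : ZMod p, y - ((t.val : ℕ) : 𝓞 K) ∈ v.asIdeal) (z : OnePoint K) :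
    ∃ o : Option (ZMod p), SameRed v z (rep K p o) := by
  by_cases hz : RedInfty v z
  · refine ⟨none, Or.inl ⟨hz, ?_⟩⟩
    intro a ha
    exact absurd ha (OnePoint.infty_ne_coe a)
  · unfold RedInfty at hz
    push Not at hz
    obtain ⟨a, rfl, ha⟩ := hz
    obtain ⟨y, hy⟩ := v.exists_valuation_sub_lt_of_integer (K := K) ha 1
    obtain ⟨t, ht⟩ := h y
    have h1 : v.valuation K ((y : K) - a) < 1 := by simpa using hy
    have h2 : v.valuation K ((y : K) - ((t.val : ℕ) : K)) < 1 := by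
      have h3 := (val_lt_iff v _).2 ht
      rw [map_sub, map_natCast] at h3
      exact h3
    have h4 : v.valuation K ((t.val : ℕ) : K) ≤ 1 := by
      have h5 := val_le v ((t.val : ℕ) : 𝓞 K)
      rwa [map_natCast] at h5
    refine ⟨some t, Or.inr ⟨a, ((t.val : ℕ) : K), rfl, rfl, ha, h4, ?_⟩⟩
    have h6 : a - ((t.val : ℕ) : K) = ((y : K) - ((t.val : ℕ) : K)) - ((y : K) - a) := by ring
    rw [h6]
    exact (Valuation.map_sub _ _ _).trans_lt (max_lt h2 h1)

omit [NumberField K] in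
theorem nat_of_hom {w : HeightOneSpectrum (𝓞 K)} {p : ℕ} [Fact p.Prime] (φ : 𝓞 K →+* ZMod p)
    (hφ : RingHom.ker φ = w.asIdeal) (y : 𝓞 K) : ∃ t : ZMod p, y - ((t.val : ℕ) : 𝓞 K) ∈ w.asIdeal := by
  refine ⟨φ y, ?_⟩
  rw [← hφ, RingHom.mem_ker, map_sub, map_natCast, ZMod.natCast_zmod_val, sub_self]

theorem nat_of_norm {v : HeightOneSpectrum (𝓞 K)} {p : ℕ} [Fact p.Prime] (hv : Ideal.absNorm v.asIdeal = p)
    (y : 𝓞 K) : ∃ t : ZMod p, y - ((t.val : ℕ) : 𝓞 K) ∈ v.asIdeal := by
  have hp : p.Prime := Fact.out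
  have hfin : Finite (𝓞 K ⧸ v.asIdeal) := Ideal.finiteQuotientOfFreeOfNeBot v.asIdeal v.ne_bot
  have := Fintype.ofFinite (𝓞 K ⧸ v.asIdeal)
  have hcard : Fintype.card (𝓞 K ⧸ v.asIdeal) = p := by
    rw [← hv, Ideal.absNorm_apply, Submodule.cardQuot_apply, Nat.card_eq_fintype_card]
  let e := ZMod.ringEquivOfPrime (𝓞 K ⧸ v.asIdeal) hp hcard
  obtain ⟨t, ht⟩ := e.surjective (Ideal.Quotient.mk v.asIdeal y)
  refine ⟨t, ?_⟩
  rw [← Ideal.Quotient.eq, ← ht, map_natCast]
  conv_lhs => rw [← ZMod.natCast_zmod_val t]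
  rw [map_natCast]

theorem rep_inj {w : HeightOneSpectrum (𝓞 K)} {p : ℕ} [Fact p.Prime] (φ : 𝓞 K →+* ZMod p)
    (hφ : RingHom.ker φ = w.asIdeal) {o o' : Option (ZMod p)} (h : SameRed w (rep K p o) (rep K p o')) : o = o' := by
  have hval : ∀ t : ZMod p, w.valuation K ((t.val : ℕ) : K) ≤ 1 := by
    intro t
    have h5 := val_le w ((t.val : ℕ) : 𝓞 K)
    rwa [map_natCast] at h5
  cases o with
  | none =>
    cases o' with
    | none => rfl
    | some t' =>
      rcases h with ⟨-, h⟩ | ⟨a, b, h, -⟩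
      · exact absurd (h _ rfl) (not_lt.2 (hval t'))
      · exact absurd h (OnePoint.infty_ne_coe a)
  | some t =>
    cases o' with
    | none =>
      rcases h with ⟨h, -⟩ | ⟨a, b, -, h, -⟩
      · exact absurd (h _ rfl) (not_lt.2 (hval t))
      · exact absurd h (OnePoint.infty_ne_coe b)
    | some t' =>
      rcases h with ⟨h, -⟩ | ⟨a, b, ha, hb, -, -, h⟩
      · exact absurd (h _ rfl) (not_lt.2 (hval t))
      · have ha' : ((t.val : ℕ) : K) = a := OnePoint.coe_injective ha
        have hb' : ((t'.val : ℕ) : K) = b := OnePoint.coe_injective hb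
        rw [← ha', ← hb'] at h
        have h1 : ((t.val : ℕ) : 𝓞 K) - ((t'.val : ℕ) : 𝓞 K) ∈ w.asIdeal := by
          rw [← val_lt_iff w, map_sub, map_natCast, map_natCast]
          exact h
        rw [← hφ, RingHom.mem_ker, map_sub, map_natCast, map_natCast, ZMod.natCast_zmod_val,
          ZMod.natCast_zmod_val, sub_eq_zero] at h1
        rw [h1]

end red

/-- an affine class modulo `p` without preimage -/
theorem missing_class {K : Type u} [Field K] [NumberField K] (R : RP K) (_hd : 2 ≤ R.d)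
    {K3 : Type u} [Field K3] [NumberField K3] [Algebra K K3] (x x' y y' : OnePoint K3)
    (hx : x ≠ x') (hy : y ≠ y')
    (hxx : (R.map (algebraMap K K3)).act x = (R.map (algebraMap K K3)).act x')
    (hyy : (R.map (algebraMap K K3)).act y = (R.map (algebraMap K K3)).act y')
    (hxy : (R.map (algebraMap K K3)).act x ≠ (R.map (algebraMap K K3)).act y) :
    ∃ B : Set ℕ, B.Finite ∧ ∀ p : ℕ, p.Prime → p ∉ B → ∀ v : HeightOneSpectrum (𝓞 K3),
      Ideal.absNorm v.asIdeal = p → ∀ w : HeightOneSpectrum (𝓞 K), v.asIdeal.LiesOver w.asIdeal →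
      ∀ φ : 𝓞 K →+* ZMod p, RingHom.ker φ = w.asIdeal →
        ∃ u : ZMod p, ∀ a b : 𝓞 K, φ b ≠ 0 → φ a = u * φ b →
          (∀ n, w.valuation K ((R.q ((algebraMap (𝓞 K) K a / algebraMap (𝓞 K) K b : K) :
            OnePoint K)).coeff n) ≤ 1) ∧
          w.valuation K (R.q ((algebraMap (𝓞 K) K a / algebraMap (𝓞 K) K b : K) :
            OnePoint K)).leadingCoeff = 1 ∧
          ¬ HasRoot w (R.q ((algebraMap (𝓞 K) K a / algebraMap (𝓞 K) K b : K) : OnePoint K)) ∧
          R.act OnePoint.infty ≠ ((algebraMap (𝓞 K) K a / algebraMap (𝓞 K) K b : K) : OnePoint K) := by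
  classical
  obtain ⟨b1, hb1⟩ := R.exists_bad
  obtain ⟨b2, hb2⟩ := not_sameRed_bad hx
  obtain ⟨b3, hb3⟩ := not_sameRed_bad hy
  obtain ⟨b4, hb4⟩ := not_sameRed_bad hxy
  set bad := b1 ∪ b2 ∪ b3 ∪ b4 with hbad
  refine ⟨⋃ m ∈ bad.erase 0, {p : ℕ | p ∣ m}, ?_, ?_⟩
  · refine Set.Finite.biUnion (Finset.finite_toSet _) fun m hm => ?_
    have hm0 : m ≠ 0 := Finset.ne_of_mem_erase hm
    exact (Nat.divisors m).finite_toSet.subset fun p hp => Nat.mem_divisors.2 ⟨hp, hm0⟩
  intro p hp hpB v hv w hvw φ hφ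
  have hfact : Fact p.Prime := ⟨hp⟩
  have hndvd : ∀ m ∈ bad, m ≠ 0 → ¬ p ∣ m := by
    intro m hm hm0 h
    exact hpB (Set.mem_biUnion (Finset.mem_erase.2 ⟨hm0, hm⟩) h)
  have hpv : ((p : ℕ) : 𝓞 K3) ∈ v.asIdeal := by
    rw [← hv]
    exact Ideal.absNorm_mem v.asIdeal
  have hpw : ((p : ℕ) : 𝓞 K) ∈ w.asIdeal := by
    rw [← hφ, RingHom.mem_ker, map_natCast, CharP.cast_eq_zero]
  have hoff : ∀ b : Finset ℕ, b ⊆ bad → ∀ m ∈ b, m ≠ 0 → ¬ p ∣ m := fun b hb m hm hm0 => hndvd m (hb hm) hm0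
  have hs1 : b1 ⊆ bad := fun m hm => by simp [hbad, hm]
  have hs2 : b2 ⊆ bad := fun m hm => by simp [hbad, hm]
  have hs3 : b3 ⊆ bad := fun m hm => by simp [hbad, hm]
  have hs4 : b4 ⊆ bad := fun m hm => by simp [hbad, hm]
  have hgv := hb1 K3 v (off_of hp hpv (hoff b1 hs1))
  have hgw : R.Good (w.valuation K) := by
    have h := hb1 K w (off_of hp hpw (hoff b1 hs1))
    rwa [RP.map_self] at h
  have hnx : ¬ SameRed v x x' := by
    have h := hb2 K3 v (off_of hp hpv (hoff b2 hs2))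
    rwa [pmap_self, pmap_self] at h
  have hny : ¬ SameRed v y y' := by
    have h := hb3 K3 v (off_of hp hpv (hoff b3 hs3))
    rwa [pmap_self, pmap_self] at h
  have hnxy : ¬ SameRed v ((R.map (algebraMap K K3)).act x) ((R.map (algebraMap K K3)).act y) := by
    have h := hb4 K3 v (off_of hp hpv (hoff b4 hs4))
    rwa [pmap_self, pmap_self] at h
  -- reduction
  choose red hred using exists_rep (K := K) (v := w) (nat_of_hom φ hφ)
  choose redv hredv using exists_rep (K := K3) (v := v) (nat_of_norm hv)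
  have hredeq : ∀ z z' : OnePoint K, SameRed w z z' → red z = red z' := by
    intro z z' h
    exact rep_inj φ hφ (((hred z).symm.trans h).trans (hred z'))
  let T : Option (ZMod p) → Option (ZMod p) := fun o => red (R.act (rep K p o))
  have hT : ∀ z : OnePoint K3, SameRed v ((R.map (algebraMap K K3)).act z) (pmap (algebraMap K K3)
      (rep K p (T (redv z)))) := by
    intro z
    have h1 : SameRed v ((R.map (algebraMap K K3)).act z)
        ((R.map (algebraMap K K3)).act (pmap (algebraMap K K3) (rep K p (redv z)))) := by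
      refine hgv.sameRed ?_
      rw [pmap_rep]
      exact hredv z
    rw [RP.act_map] at h1
    exact h1.trans ((sameRed_ext w v _ _).2 (hred _))
  have hinj : ∀ z z' : OnePoint K3, SameRed v ((R.map (algebraMap K K3)).act z)
      ((R.map (algebraMap K K3)).act z') → T (redv z) = T (redv z') := by
    intro z z' h
    refine rep_inj φ hφ ?_
    rw [← sameRed_ext w v]
    exact ((hT z).symm.trans h).trans (hT z')
  have hne : ∀ z z' : OnePoint K3, ¬ SameRed v z z' → redv z ≠ redv z' := by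
    intro z z' h he
    apply h
    have h1 := hredv z
    rw [he] at h1
    exact h1.trans (hredv z').symm
  have hxy' : T (redv x) ≠ T (redv y) := by
    intro he
    apply hnxy
    have h1 := hT x
    rw [he] at h1
    exact h1.trans (hT y).symm
  obtain ⟨u', hu1, hu2⟩ := exists_missing T (hne x x' hnx) (hne y y' hny)
    (hinj x x' (by rw [hxx]; exact SameRed.refl v _)) (hinj y y' (by rw [hyy]; exact SameRed.refl v _)) hxy' none
  obtain ⟨u, rfl⟩ := Option.ne_none_iff_exists'.1 hu1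
  refine ⟨u, fun a b hb hab => ?_⟩
  set c : K := algebraMap (𝓞 K) K a / algebraMap (𝓞 K) K b with hc
  have hbw : w.valuation K (algebraMap (𝓞 K) K b) = 1 := by
    refine le_antisymm (w.valuation_le_one _) (not_lt.1 fun h => hb ?_)
    have h1 := (w.valuation_lt_one_iff_mem _).1 h
    rwa [← hφ, RingHom.mem_ker] at h1
  have hb0 : algebraMap (𝓞 K) K b ≠ 0 := by
    intro h0
    rw [h0, map_zero] at hbw
    exact zero_ne_one hbw
  have hc1 : w.valuation K c ≤ 1 := by
    rw [hc, map_div₀, hbw, div_one]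
    exact w.valuation_le_one a
  have hcu : SameRed w (c : OnePoint K) (rep K p (some u)) := by
    have h4 : w.valuation K ((u.val : ℕ) : K) ≤ 1 := by
      have h5 := val_le w ((u.val : ℕ) : 𝓞 K)
      rwa [map_natCast] at h5
    refine Or.inr ⟨c, ((u.val : ℕ) : K), rfl, rfl, hc1, h4, ?_⟩
    have h6 : a - ((u.val : ℕ) : 𝓞 K) * b ∈ w.asIdeal := by
      rw [← hφ, RingHom.mem_ker, map_sub, map_mul, map_natCast, ZMod.natCast_zmod_val, hab, sub_self]
    have h7 := (val_lt_iff w _).2 h6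
    rw [map_sub, map_mul, map_natCast] at h7
    have h8 : c - ((u.val : ℕ) : K) = (algebraMap (𝓞 K) K a - ((u.val : ℕ) : K) * algebraMap (𝓞 K) K b) /
        algebraMap (𝓞 K) K b := by
      rw [hc]
      field_simp
    rw [h8, map_div₀, hbw, div_one]
    exact h7
  have hmiss : ∀ z : OnePoint K, ¬ SameRed w (R.act z) (c : OnePoint K) := by
    intro z h
    apply hu2 (red z)
    have h1 : SameRed w (R.act z) (R.act (rep K p (red z))) := hgw.sameRed (hred z)
    refine rep_inj φ hφ ?_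
    exact ((hred _).symm.trans (h1.symm.trans h)).trans hcu
  have hpt : PtInt w (c : OnePoint K) := by
    intro b' hb'
    rw [← OnePoint.coe_injective hb']
    exact hc1
  have hint := hgw.q_le hpt
  have hlead : w.valuation K ((R.q (c : OnePoint K)).coeff R.d) = 1 := by
    refine le_antisymm (hint _) (not_lt.1 fun h => ?_)
    apply hmiss OnePoint.infty
    rw [RP.act_infty, ← mk2_one c, sameRed_mk2 ⟨hgw.1 _, hgw.2.1 _, hgw.2.2.2⟩ (prim_right hc1)]
    rw [RP.q_coe, coeff_sub, coeff_C_mul] at h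
    rw [mul_one]
    exact h
  have hdeg : (R.q (c : OnePoint K)).natDegree = R.d := by
    refine le_antisymm (R.q_natDegree _) (le_natDegree_of_ne_zero ?_)
    intro h0
    rw [h0, map_zero] at hlead
    exact zero_ne_one hlead
  refine ⟨hint, ?_, ?_, ?_⟩
  · rw [leadingCoeff, hdeg]
    exact hlead
  · rintro ⟨z, hz1, hz2⟩
    exact hmiss z ((hgw.q_lt_iff hpt hz1).1 hz2)
  · intro h
    apply hmiss OnePoint.infty
    rw [h]
    exact SameRed.refl w _

end Pool.Agent.ORB.AA
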