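import Pool.Agent.ORB.AAFrob
import Pool.Agent.ORB.AAMissing

/-!
ORB, Theorem AA, row P: places and residue classes without preimage.
-/

set_option autoImplicit false

namespace Pool.Agent.ORB.AA

open NumberField IsDedekindDomain Polynomial

universe u

/-- removing finitely many primes -/
theorem many_diff {T B : Set ℕ} (hT : ManyPrimes T) (hB : B.Finite) : ManyPrimes (T \ B) := by
  classical
  obtain ⟨c, hc, x0, hx0⟩ := hT
  set m := B.ncard
  have hlim : ∃ x1 : ℕ, ∀ x : ℕ, x1 ≤ x → 2 * (m : ℝ) / c ≤ x / Real.log x := by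
    refine ⟨max 2 ⌈(4 * (m : ℝ) / c) ^ 2⌉₊, fun x hx => ?_⟩
    have hx1 : (1 : ℝ) < x := by exact_mod_cast (le_max_left _ _).trans hx
    have hx0 : (0 : ℝ) < x := by linarith
    have h1 : (4 * (m : ℝ) / c) ^ 2 ≤ x :=
      (Nat.le_ceil _).trans (by exact_mod_cast (le_max_right _ _).trans hx)
    have h2 : 4 * (m : ℝ) / c ≤ Real.sqrt x := Real.le_sqrt_of_sq_le h1
    have hs0 : 0 < Real.sqrt x := Real.sqrt_pos.2 hx0
    have hss : Real.sqrt x * Real.sqrt x = x := Real.mul_self_sqrt hx0.le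
    have h6 : Real.log x ≤ 2 * Real.sqrt x := by
      have h7 := Real.log_le_sub_one_of_pos hs0
      rw [Real.log_sqrt hx0.le] at h7
      linarith
    have h8 : Real.sqrt x / 2 ≤ x / Real.log x := by
      rw [le_div_iff₀ (Real.log_pos hx1)]
      nlinarith
    have h9 : 2 * (m : ℝ) / c = (4 * (m : ℝ) / c) / 2 := by ring
    linarith
  obtain ⟨x1, hx1⟩ := hlim
  refine ⟨c / 2, by positivity, max x0 x1, fun x hx => ?_⟩
  have h1 := hx0 x ((le_max_left _ _).trans hx)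
  have h2 := hx1 x ((le_max_right _ _).trans hx)
  have h4 : {p : ℕ | p ∈ T ∧ p ≤ x}.ncard ≤ m + {p : ℕ | p ∈ T \ B ∧ p ≤ x}.ncard := by
    have hsub : {p : ℕ | p ∈ T ∧ p ≤ x} ⊆ B ∪ {p : ℕ | p ∈ T \ B ∧ p ≤ x} := by
      rintro p ⟨hp, hpx⟩
      by_cases hb : p ∈ B
      · exact Or.inl hb
      · exact Or.inr ⟨⟨hp, hb⟩, hpx⟩
    have hf : {p : ℕ | p ∈ T \ B ∧ p ≤ x}.Finite := (Set.finite_Iic x).subset fun p hp => hp.2
    exact (Set.ncard_le_ncard hsub (hB.union hf)).trans (Set.ncard_union_le _ _)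
  have h5 : (({p : ℕ | p ∈ T ∧ p ≤ x}.ncard : ℕ) : ℝ) ≤
      m + ({p : ℕ | p ∈ T \ B ∧ p ≤ x}.ncard : ℝ) := by
    exact_mod_cast h4
  rw [div_le_iff₀ hc] at h2
  nlinarith

/-- if a Frobenius element fixes a subfield, then the prime below has degree one -/
theorem norm_of_frob {M E : Type*} [Field M] [NumberField M] [Field E] [NumberField E] [Algebra M E]
    {p : ℕ} (hp : p.Prime) (P : Ideal (𝓞 E)) (hpP : (p : 𝓞 E) ∈ P) (τ : E ≃ₐ[ℚ] E)
    (hτ : ∀ x : M, τ (algebraMap M E x) = algebraMap M E x) (hfr : IsFrob p P τ)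
    (v : HeightOneSpectrum (𝓞 M)) (hv : P.LiesOver v.asIdeal) : Ideal.absNorm v.asIdeal = p := by
  have hmem : ∀ y : 𝓞 M, y ∈ v.asIdeal ↔ algebraMap (𝓞 M) (𝓞 E) y ∈ P := by
    intro y
    rw [hv.over]
    rfl
  have hpv : (p : 𝓞 M) ∈ v.asIdeal := by
    rw [hmem, map_natCast]
    exact hpP
  obtain ⟨q, f, hf, hqv, hq, hN, -⟩ := norm_eq_pow v.isPrime v.ne_bot
  have hpq := prime_unique M hq hp hqv hpv
  subst hpq
  have hmax : v.asIdeal.IsMaximal := v.isMaximal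
  have hfin : Finite (𝓞 M ⧸ v.asIdeal) := inferInstance
  let _ : Field (𝓞 M ⧸ v.asIdeal) := Ideal.Quotient.field _
  have hcard : Nat.card (𝓞 M ⧸ v.asIdeal) ≤ q := by
    refine card_le_of_pow hq.one_lt fun c => ?_
    obtain ⟨y, rfl⟩ := Ideal.Quotient.mk_surjective c
    rw [← map_pow, eq_comm, Ideal.Quotient.eq, hmem, map_sub, map_pow]
    have h1 := hfr (algebraMap (𝓞 M) (𝓞 E) y)
    have h2 : τ • (algebraMap (𝓞 M) (𝓞 E) y) = algebraMap (𝓞 M) (𝓞 E) y := by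
      apply RingOfIntegers.ext
      exact hτ _
    rw [h2] at h1
    exact h1
  have h3 : Ideal.absNorm v.asIdeal = Nat.card (𝓞 M ⧸ v.asIdeal) := Ideal.absNorm_apply _
  rw [← h3, hN] at hcard
  rw [hN]
  exact le_antisymm hcard (Nat.le_self_pow hf.ne' q)

/-- `exists_placesR` with trivial inertia groups in `E` as hypothesis -/
theorem exists_placesR_of {K : Type u} [Field K] [NumberField K] {κ : Type} [Finite κ] (R : κ → RP K)
    (hd : ∀ k, 2 ≤ (R k).d) {K3 : Type u} [Field K3] [NumberField K3] [Algebra K K3]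
    (hpart : ∀ k, ∃ x x' y y' : OnePoint K3,
      x ≠ x' ∧ y ≠ y' ∧ ((R k).map (algebraMap K K3)).act x = ((R k).map (algebraMap K K3)).act x' ∧
      ((R k).map (algebraMap K K3)).act y = ((R k).map (algebraMap K K3)).act y' ∧
      ((R k).map (algebraMap K K3)).act x ≠ ((R k).map (algebraMap K K3)).act y)
    {E : Type u} [Field E] [NumberField E] [Algebra K3 E] [Algebra K E] [IsScalarTower K K3 E] [IsGalois ℚ E]
    (Φ : E ≃ₐ[K3] E) (S : Set ℕ) (hS : S.Finite)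
    (hI : ∀ p : ℕ, p.Prime → p ∉ S → ∀ P : Ideal (𝓞 E), P.IsPrime → (p : 𝓞 E) ∈ P →
      ∀ g : E ≃ₐ[ℚ] E, Inert P g → g = 1) :
    ∃ T : Set ℕ, ManyPrimes T ∧ (∀ p ∈ T, p.Prime) ∧ ∀ p ∈ T, ∃ φ : 𝓞 K →+* ZMod p, ∀ k, ∃ u : ZMod p,
      ∀ a b : 𝓞 K, φ b ≠ 0 → φ a = u * φ b →
      (R k).act OnePoint.infty ≠ ((algebraMap (𝓞 K) K a / algebraMap (𝓞 K) K b : K) : OnePoint K) ∧
      ∀ (L : Type u) [Field L] [NumberField L] [Algebra E L] [Algebra K L] [IsScalarTower K E L] [IsGalois ℚ L],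
        ∃ τ : L ≃ₐ[ℚ] L, (∀ x : E, τ (algebraMap E L x) = algebraMap E L (Φ x)) ∧
          ∀ r : L, aeval r ((R k).q ((algebraMap (𝓞 K) K a / algebraMap (𝓞 K) K b : K) : OnePoint K)) = 0 →
            τ r ≠ r := by
  classical
  choose x x' y y' hx hy hxx hyy hxy using hpart
  choose B hB hBm using fun k => missing_class (R k) (hd k) (x k) (x' k) (y k) (y' k) (hx k) (hy k)
    (hxx k) (hyy k) (hxy k)
  set Φ' : E ≃ₐ[ℚ] E := Φ.restrictScalars ℚ with hΦ'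
  refine ⟨FrobSet Φ' \ (S ∪ ⋃ k, B k), many_diff (frob_density Φ')
    (hS.union (Set.finite_iUnion hB)), fun p hp => hp.1.1, fun p hp => ?_⟩
  obtain ⟨⟨hpp, P, hP, hpP, τ, hz, hfr⟩, hpB⟩ := hp
  have hpS : p ∉ S := fun h => hpB (Or.inl h)
  have hpBk : ∀ k, p ∉ B k := fun k h => hpB (Or.inr (Set.mem_iUnion.2 ⟨k, h⟩))
  have hP0b : P ≠ ⊥ := by
    rintro rfl
    rw [Ideal.mem_bot] at hpP
    exact hpp.ne_zero (by exact_mod_cast hpP)
  let P' : HeightOneSpectrum (𝓞 E) := ⟨P, hP, hP0b⟩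
  let v : HeightOneSpectrum (𝓞 K3) := P'.under (𝓞 K3)
  have hlov : P.LiesOver v.asIdeal := ⟨rfl⟩
  let w : HeightOneSpectrum (𝓞 K) := v.under (𝓞 K)
  have hlow : v.asIdeal.LiesOver w.asIdeal := ⟨rfl⟩
  have hloP : P.LiesOver w.asIdeal := Ideal.LiesOver.trans P v.asIdeal w.asIdeal
  have hΦK3 : ∀ z : K3, Φ' (algebraMap K3 E z) = algebraMap K3 E z := fun z => Φ.commutes z
  have hΦK : ∀ z : K, Φ' (algebraMap K E z) = algebraMap K E z := by
    intro z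
    rw [IsScalarTower.algebraMap_apply K K3 E]
    exact hΦK3 _
  have hτK3 : ∀ z : K3, τ (algebraMap K3 E z) = algebraMap K3 E z := fun z =>
    zpowers_fix (hΦK3 z) (hz ▸ Subgroup.mem_zpowers τ)
  have hNv : Ideal.absNorm v.asIdeal = p := norm_of_frob hpp P hpP τ hτK3 hfr v hlov
  obtain ⟨φ3, hφ3⟩ := exists_resHom hpp v hNv
  have hker : RingHom.ker (φ3.comp (algebraMap (𝓞 K) (𝓞 K3))) = w.asIdeal := by
    rw [← RingHom.comap_ker, hφ3]
    rfl
  refine ⟨φ3.comp (algebraMap (𝓞 K) (𝓞 K3)), fun k => ?_⟩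
  obtain ⟨u, hu⟩ := hBm k p hpp (hpBk k) v hNv w hlow _ hker
  refine ⟨u, fun a b hb hab => ?_⟩
  obtain ⟨h1, h2, h3, h4⟩ := hu a b hb hab
  refine ⟨h4, ?_⟩
  intro L _ _ _ _ _ _
  obtain ⟨τL, hτ1, hτ2⟩ := frob_lift_of Φ' hpp P hP hpP (hI p hpp hpS P hP hpP) τ hz hfr hΦK w hloP L
  exact ⟨τL, hτ1, fun r hr => hτ2 _ h1 h2 h3 r hr⟩

/-- **P**: places and residue classes without preimage -/
theorem exists_placesR {K : Type u} [Field K] [NumberField K] {κ : Type} [Finite κ] (R : κ → RP K)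
    (hd : ∀ k, 2 ≤ (R k).d) {K3 : Type u} [Field K3] [NumberField K3] [Algebra K K3]
    (hpart : ∀ k, ∃ x x' y y' : OnePoint K3,
      x ≠ x' ∧ y ≠ y' ∧ ((R k).map (algebraMap K K3)).act x = ((R k).map (algebraMap K K3)).act x' ∧
      ((R k).map (algebraMap K K3)).act y = ((R k).map (algebraMap K K3)).act y' ∧
      ((R k).map (algebraMap K K3)).act x ≠ ((R k).map (algebraMap K K3)).act y)
    {E : Type u} [Field E] [NumberField E] [Algebra K3 E] [Algebra K E] [IsScalarTower K K3 E] [IsGalois ℚ E]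
    (Φ : E ≃ₐ[K3] E) (S : Set ℕ) (hS : S.Finite) (hE : ∀ p : ℕ, p.Prime → p ∉ S → ¬ (p : ℤ) ∣ discr E) :
    ∃ T : Set ℕ, ManyPrimes T ∧ (∀ p ∈ T, p.Prime) ∧ ∀ p ∈ T, ∃ φ : 𝓞 K →+* ZMod p, ∀ k, ∃ u : ZMod p,
      ∀ a b : 𝓞 K, φ b ≠ 0 → φ a = u * φ b →
      (R k).act OnePoint.infty ≠ ((algebraMap (𝓞 K) K a / algebraMap (𝓞 K) K b : K) : OnePoint K) ∧
      ∀ (L : Type u) [Field L] [NumberField L] [Algebra E L] [Algebra K L] [IsScalarTower K E L] [IsGalois ℚ L],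
        ∃ τ : L ≃ₐ[ℚ] L, (∀ x : E, τ (algebraMap E L x) = algebraMap E L (Φ x)) ∧
          ∀ r : L, aeval r ((R k).q ((algebraMap (𝓞 K) K a / algebraMap (𝓞 K) K b : K) : OnePoint K)) = 0 →
            τ r ≠ r :=
  exists_placesR_of R hd hpart Φ S hS fun p hp hpS P hP hpP g hg => inert_trivial hp (hE p hp hpS) P hP hpP g hg

end Pool.Agent.ORB.AA
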