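import Pool.Agent.ORB.CountK
import Pool.Agent.ORB.Density

/-! ORB, Theorem AA, row S1: counting with a divergent sum of probabilities. -/

set_option autoImplicit false

namespace Pool.Agent.ORB.AA

open Finset

theorem not_summable_log : ¬ Summable (fun n : ℕ => 1 / (((n : ℝ) + 1) * Real.log (n + 2))) := by
  have hmono : ∀ ⦃m n : ℕ⦄, 0 < m → m ≤ n →
      1 / (((n : ℝ) + 1) * Real.log (n + 2)) ≤ 1 / (((m : ℝ) + 1) * Real.log (m + 2)) := by
    intro m n hm hmn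
    have hmn' : (m : ℝ) ≤ n := by exact_mod_cast hmn
    have h0 : (0 : ℝ) ≤ m := Nat.cast_nonneg m
    have h1 : 0 < Real.log ((m : ℝ) + 2) := Real.log_pos (by linarith)
    apply one_div_le_one_div_of_le
    · positivity
    · apply mul_le_mul
      · linarith
      · exact Real.log_le_log (by linarith) (by linarith)
      · exact h1.le
      · linarith
  have hnn : ∀ n : ℕ, 0 ≤ 1 / (((n : ℝ) + 1) * Real.log (n + 2)) := by
    intro n
    have h0 : (0 : ℝ) ≤ n := Nat.cast_nonneg n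
    have h1 : 0 < Real.log ((n : ℝ) + 2) := Real.log_pos (by linarith)
    positivity
  intro hs
  have h1 := (summable_condensed_iff_of_nonneg hnn hmono).2 hs
  have h2 : Summable (fun k : ℕ => 1 / (2 * (((k : ℝ) + 2) * Real.log 2))) := by
    refine Summable.of_nonneg_of_le (fun k => ?_) (fun k => ?_) h1
    · have : 0 < Real.log 2 := Real.log_pos (by norm_num)
      positivity
    · have h3 : (1 : ℝ) ≤ 2 ^ k := one_le_pow₀ (by norm_num)
      have h4 : Real.log (((2 ^ k : ℕ) : ℝ) + 2) ≤ ((k : ℝ) + 2) * Real.log 2 := by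
        have h5 : ((2 ^ k : ℕ) : ℝ) + 2 ≤ 2 ^ (k + 2) := by
          push_cast
          rw [pow_add]
          linarith
        have h6 := Real.log_le_log (by positivity) h5
        rw [Real.log_pow] at h6
        push_cast at h6 ⊢
        exact h6
      have h7 : 0 < Real.log (((2 ^ k : ℕ) : ℝ) + 2) := by
        apply Real.log_pos
        push_cast
        linarith
      have h8 : 0 < ((2 ^ k : ℕ) : ℝ) + 1 := by positivity
      have h9 : 0 < Real.log 2 := Real.log_pos (by norm_num)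
      rw [mul_one_div, div_le_div_iff₀ (by positivity) (by positivity), one_mul]
      push_cast at h4 h7 h8 ⊢
      calc ((2 : ℝ) ^ k + 1) * Real.log (2 ^ k + 2)
          ≤ (2 * 2 ^ k) * (((k : ℝ) + 2) * Real.log 2) := by
            apply mul_le_mul _ h4 h7.le (by positivity)
            linarith
        _ = 2 ^ k * (2 * (((k : ℝ) + 2) * Real.log 2)) := by ring
  have h3 : Summable (fun k : ℕ => 1 / ((k : ℝ) + 2)) := by
    have h4 := h2.mul_left (2 * Real.log 2)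
    refine h4.congr fun k => ?_
    have h9 : Real.log 2 ≠ 0 := (Real.log_pos (by norm_num)).ne'
    field_simp
  have h4 : Summable (fun k : ℕ => 1 / ((k : ℝ))) := by
    rw [← summable_nat_add_iff 2]
    refine h3.congr fun k => ?_
    push_cast
    rfl
  exact Real.not_summable_one_div_natCast h4

open Classical in
/-- the elements of `S` up to `x` -/
noncomputable def upto (S : Set ℕ) (x : ℕ) : Finset ℕ := (Finset.Icc 1 x).filter (fun p => p ∈ S)

theorem upto_card {S : Set ℕ} (hSp : ∀ p ∈ S, p.Prime) (x : ℕ) :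
    {p : ℕ | p ∈ S ∧ p ≤ x}.ncard = (upto S x).card := by
  classical
  rw [← Set.ncard_coe_finset]
  congr 1
  ext p
  simp only [upto, Set.mem_ofPred_eq, Finset.coe_filter, Finset.mem_Icc]
  constructor
  · rintro ⟨h1, h2⟩
    exact ⟨⟨(hSp p h1).one_lt.le, h2⟩, h1⟩
  · rintro ⟨⟨_, h2⟩, h1⟩
    exact ⟨h1, h2⟩

theorem tele (p x : ℕ) (hp : 1 ≤ p) (hpx : p ≤ x + 1) :
    ∑ n ∈ Finset.Ico p (x + 1), 1 / ((n : ℝ) * (n + 1)) = 1 / (p : ℝ) - 1 / ((x : ℝ) + 1) := by
  induction x with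
  | zero =>
    have : p = 1 := by omega
    subst this
    simp
  | succ x ih =>
    rcases Nat.lt_or_ge (x + 1) p with h | h
    · have : p = x + 1 + 1 := by omega
      subst this
      simp
    · rw [Finset.sum_Ico_succ_top h, ih h]
      have : (0 : ℝ) < p := by exact_mod_cast hp
      push_cast
      field_simp
      ring

/-- the sum of the reciprocals is unbounded -/
theorem exists_sum_gt (S : Set ℕ) (hS : ManyPrimes S) (hSp : ∀ p ∈ S, p.Prime) (M : ℝ) :
    ∃ T : Finset ℕ, (∀ p ∈ T, p ∈ S) ∧ M < ∑ p ∈ T, 1 / (p : ℝ) := by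
  classical
  by_contra hcon
  push Not at hcon
  obtain ⟨c, hc, x0, hx0⟩ := hS
  apply not_summable_log
  set f : ℕ → ℝ := fun n => 1 / (((n : ℝ) + 1) * Real.log (n + 2)) with hf
  have hnn : ∀ n : ℕ, 0 ≤ f n := by
    intro n
    have h0 : (0 : ℝ) ≤ n := Nat.cast_nonneg n
    have h1 : 0 < Real.log ((n : ℝ) + 2) := Real.log_pos (by linarith)
    simp only [hf]
    positivity
  rw [← summable_nat_add_iff (x0 + 2)]
  refine summable_of_sum_range_le (c := M / c) (fun n => hnn _) (fun m => ?_)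
  rw [le_div_iff₀ hc]
  set x : ℕ := x0 + 2 + m with hx
  have h1 := hcon (upto S x) (fun p hp => (Finset.mem_filter.1 hp).2)
  refine le_trans ?_ h1
  have h2 : ∀ p ∈ upto S x, ∑ n ∈ Finset.Ico p (x + 1), 1 / ((n : ℝ) * (n + 1)) ≤ 1 / (p : ℝ) := by
    intro p hp
    have h3 := (Finset.mem_Icc.1 (Finset.mem_filter.1 hp).1)
    rw [tele p x h3.1 (by omega)]
    have : (0 : ℝ) ≤ 1 / ((x : ℝ) + 1) := by positivity
    linarith
  refine le_trans ?_ (Finset.sum_le_sum h2)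
  -- exchange
  have h3 : ∑ p ∈ upto S x, ∑ n ∈ Finset.Ico p (x + 1), 1 / ((n : ℝ) * (n + 1)) =
      ∑ n ∈ Finset.Icc 1 x, ((upto S n).card : ℝ) * (1 / ((n : ℝ) * (n + 1))) := by
    have e1 : ∀ p ∈ upto S x, ∑ n ∈ Finset.Ico p (x + 1), 1 / ((n : ℝ) * (n + 1)) =
        ∑ n ∈ Finset.Icc 1 x, if p ≤ n then 1 / ((n : ℝ) * (n + 1)) else 0 := by
      intro p hp
      have h3 := (Finset.mem_Icc.1 (Finset.mem_filter.1 hp).1)
      rw [← Finset.sum_filter]
      congr 1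
      ext n
      simp only [Finset.mem_Ico, Finset.mem_filter, Finset.mem_Icc]
      omega
    rw [Finset.sum_congr rfl e1, Finset.sum_comm]
    refine Finset.sum_congr rfl fun n hn => ?_
    rw [← Finset.sum_filter, Finset.sum_const, nsmul_eq_mul]
    congr 2
    congr 1
    ext p
    have hn' := Finset.mem_Icc.1 hn
    simp only [upto, Finset.mem_filter, Finset.mem_Icc]
    constructor
    · rintro ⟨⟨⟨h1, _⟩, h2⟩, h3⟩
      exact ⟨⟨h1, h3⟩, h2⟩
    · rintro ⟨⟨h1, h3⟩, h2⟩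
      exact ⟨⟨⟨h1, h3.trans hn'.2⟩, h2⟩, h3⟩
  rw [h3]
  have h4 : ∑ n ∈ Finset.Ico (x0 + 2) x, ((upto S n).card : ℝ) * (1 / ((n : ℝ) * (n + 1))) ≤
      ∑ n ∈ Finset.Icc 1 x, ((upto S n).card : ℝ) * (1 / ((n : ℝ) * (n + 1))) := by
    apply Finset.sum_le_sum_of_subset_of_nonneg
    · intro n hn
      rw [Finset.mem_Ico] at hn
      rw [Finset.mem_Icc]
      omega
    · intro n _ _
      positivity
  refine le_trans ?_ h4
  rw [Finset.sum_Ico_eq_sum_range, show x - (x0 + 2) = m by omega, Finset.sum_mul]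
  refine Finset.sum_le_sum fun i _ => ?_
  have h5 := hx0 (x0 + 2 + i) (by omega)
  rw [upto_card hSp] at h5
  have e2 : i + (x0 + 2) = x0 + 2 + i := by omega
  rw [e2]
  set n : ℕ := x0 + 2 + i with hn
  have hn2 : (2 : ℝ) ≤ n := by
    have : 2 ≤ n := by omega
    exact_mod_cast this
  have hlog : 0 < Real.log n := Real.log_pos (by linarith)
  have hlog2 : Real.log n ≤ Real.log ((n : ℝ) + 2) := Real.log_le_log (by linarith) (by linarith)
  calc f n * c ≤ (c * ((n : ℝ) / Real.log n)) * (1 / ((n : ℝ) * (n + 1))) := by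
        simp only [hf]
        have e3 : (c * ((n : ℝ) / Real.log n)) * (1 / ((n : ℝ) * (n + 1))) =
            1 / (((n : ℝ) + 1) * Real.log n) * c := by
          field_simp
        rw [e3]
        apply mul_le_mul_of_nonneg_right _ hc.le
        apply one_div_le_one_div_of_le (by positivity)
        apply mul_le_mul_of_nonneg_left hlog2 (by linarith)
    _ ≤ _ := mul_le_mul_of_nonneg_right h5 (by positivity)

/-- a finite set of primes with small product of failure probabilities -/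
theorem exists_prod_lt (S : Set ℕ) (hS : ManyPrimes S) (hSp : ∀ p ∈ S, p.Prime)
    (c : ℝ) (hc0 : 0 < c) (hc1 : c ≤ 1) (ε : ℝ) (hε : 0 < ε) :
    ∃ T : Finset ℕ, (∀ p ∈ T, p ∈ S) ∧ (∀ p ∈ T, 0 ≤ 1 - c / (p : ℝ)) ∧
      ∏ p ∈ T, (1 - c / (p : ℝ)) < ε := by
  obtain ⟨T, hT, hsum⟩ := exists_sum_gt S hS hSp ((-Real.log ε) / c)
  have h0 : ∀ p ∈ T, 0 ≤ 1 - c / (p : ℝ) := by
    intro p hp
    have h1 : (1 : ℝ) ≤ p := by exact_mod_cast (hSp p (hT p hp)).one_lt.le
    have h2 : c / (p : ℝ) ≤ 1 := by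
      rw [div_le_one (by linarith)]
      linarith
    linarith
  refine ⟨T, hT, h0, ?_⟩
  have h1 : ∏ p ∈ T, (1 - c / (p : ℝ)) ≤ ∏ p ∈ T, Real.exp (-(c / (p : ℝ))) := by
    refine Finset.prod_le_prod h0 fun p _ => ?_
    have := Real.add_one_le_exp (-(c / (p : ℝ)))
    linarith
  rw [← Real.exp_sum] at h1
  refine h1.trans_lt ?_
  rw [← Real.lt_log_iff_exp_lt hε, Finset.sum_neg_distrib]
  have h2 : ∑ p ∈ T, c / (p : ℝ) = c * ∑ p ∈ T, 1 / (p : ℝ) := by
    rw [Finset.mul_sum]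
    exact Finset.sum_congr rfl fun p _ => by ring
  rw [h2]
  rw [div_lt_iff₀ hc0] at hsum
  linarith

open Classical in
theorem count_sum {κ : Type*} [Fintype κ] (S : Set ℕ) (hS : ManyPrimes S) (hSp : ∀ p ∈ S, p.Prime)
    (c : ℝ) (hc0 : 0 < c) (hc1 : c ≤ 1) (Bad : ∀ p : ℕ, Finset (κ → ZMod p))
    (hBad : ∀ p ∈ S, ((Bad p).card : ℝ) ≤ (1 - c / p) * (p : ℝ) ^ Fintype.card κ)
    (Good : (κ → ℤ) → Prop) (hGood : ∀ p ∈ S, ∀ q, zres p q ∉ Bad p → Good q) :
    ∀ ε : ℝ, 0 < ε → ∃ H0 : ℕ, ∀ H : ℕ, H0 ≤ H →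
      (((zbox κ H).filter (fun q => ¬ Good q)).card : ℝ) ≤ ε * (zbox κ H).card := by
  intro ε hε
  set N := Fintype.card κ with hN
  obtain ⟨s, hsS, hs0, hsr⟩ := exists_prod_lt S hS hSp c hc0 hc1 (ε / 2 ^ N) (by positivity)
  have hs : ∀ p ∈ s, p.Prime := fun p hp => hSp p (hsS p hp)
  set m := ∏ p ∈ s, p with hm
  have hm0 : 0 < m := Finset.prod_pos (fun p hp => (hs p hp).pos)
  refine ⟨m, fun H hH => ?_⟩
  have hmH : (1 : ℝ) ≤ m := by exact_mod_cast hm0
  have hHR : (m : ℝ) ≤ H := by exact_mod_cast hH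
  have hsub : ((zbox κ H).filter (fun q => ¬ Good q)) ⊆
      (zbox κ H).filter (fun q => ∀ p ∈ s, zres p q ∈ Bad p) := by
    intro q hq
    rw [Finset.mem_filter] at hq ⊢
    refine ⟨hq.1, fun p hp => ?_⟩
    by_contra hnot
    exact hq.2 (hGood p (hsS p hp) q hnot)
  have h2 := (Finset.card_le_card hsub).trans (card_all_bad_zbox s hs Bad H)
  have h4 : ((∏ p ∈ s, (Bad p).card : ℕ) : ℝ) ≤ (∏ p ∈ s, (1 - c / (p : ℝ))) * (m : ℝ) ^ N := by
    rw [Nat.cast_prod]
    calc ∏ p ∈ s, ((Bad p).card : ℝ) ≤ ∏ p ∈ s, ((1 - c / (p : ℝ)) * (p : ℝ) ^ N) :=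
          Finset.prod_le_prod (fun _ _ => Nat.cast_nonneg _) (fun p hp => hBad p (hsS p hp))
      _ = (∏ p ∈ s, (1 - c / (p : ℝ))) * (m : ℝ) ^ N := by
          rw [Finset.prod_mul_distrib, hm, Finset.prod_pow, Nat.cast_prod]
  have h5 : (((2 * H + 1) / m + 1 : ℕ) : ℝ) * m ≤ 2 * (2 * H + 1) := by
    have h6 : (((2 * H + 1) / m : ℕ) : ℝ) * m ≤ 2 * H + 1 := by exact_mod_cast Nat.div_mul_le_self _ _
    push_cast at h6 ⊢
    nlinarith
  have h8 : (((zbox κ H).filter (fun q => ¬ Good q)).card : ℝ) ≤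
      (((2 * H + 1) / m + 1 : ℕ) : ℝ) ^ N * ((∏ p ∈ s, (Bad p).card : ℕ) : ℝ) := by
    exact_mod_cast h2
  refine h8.trans ?_
  have hP0 : 0 ≤ ∏ p ∈ s, (1 - c / (p : ℝ)) := Finset.prod_nonneg hs0
  calc (((2 * H + 1) / m + 1 : ℕ) : ℝ) ^ N * ((∏ p ∈ s, (Bad p).card : ℕ) : ℝ)
      ≤ (((2 * H + 1) / m + 1 : ℕ) : ℝ) ^ N * ((∏ p ∈ s, (1 - c / (p : ℝ))) * (m : ℝ) ^ N) :=
        mul_le_mul_of_nonneg_left h4 (by positivity)
    _ = (∏ p ∈ s, (1 - c / (p : ℝ))) * ((((2 * H + 1) / m + 1 : ℕ) : ℝ) * (m : ℝ)) ^ N := by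
        rw [mul_pow]; ring
    _ ≤ (∏ p ∈ s, (1 - c / (p : ℝ))) * (2 * (2 * H + 1)) ^ N := by
        apply mul_le_mul_of_nonneg_left _ hP0
        exact pow_le_pow_left₀ (by positivity) h5 N
    _ ≤ (ε / 2 ^ N) * (2 * (2 * H + 1)) ^ N :=
        mul_le_mul_of_nonneg_right hsr.le (by positivity)
    _ = ε * ((zbox κ H).card : ℝ) := by
        rw [card_zbox, ← hN, mul_pow]
        push_cast
        field_simp

end Pool.Agent.ORB.AA
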