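import Pool.Agent.ORB.AACommon
import Pool.Agent.ORB.AADisc
import Pool.Agent.ORB.AANorm
import Pool.Agent.ORB.AAPartner
import Pool.Agent.ORB.AASum
import Pool.Agent.ORB.AACombine
import Pool.Agent.ORB.AAPlaces
import Pool.Agent.ORB.AAHermite
import Pool.Agent.ORB.VCore

/-!
ORB, Theorem AA: assembly, part 1. From automorphisms to good targets, and the count in boxes.
-/

namespace Pool.Agent.ORB.AA

open NumberField IsDedekindDomain Polynomial

universe u

/-- collisions are roots of `f.q β`, up to finitely many primes -/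
theorem finite_coll {K : Type u} [Field K] [NumberField K] (f : RP K) (β : OnePoint K)
    (hne : f.act OnePoint.infty ≠ β) (α : OnePoint K) (hα : ∀ n, f.act^[n] α ≠ β) :
    {v : HeightOneSpectrum (𝓞 K) | (∃ n, SameRed v (f.act^[n] α) β) ∧ ¬ HasRoot v (f.q β)}.Finite := by
  refine (((f.finite_not_good.union (finite_not_ptInt β)).union (finite_sameRed hne)).union
    (finite_sameRed (hα 0))).subset ?_
  rintro v ⟨⟨n, hn⟩, hroot⟩
  by_contra hv
  simp only [Set.mem_union, not_or, Set.mem_ofPred_eq, not_not] at hv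
  obtain ⟨⟨⟨hgood, hint⟩, hinfv⟩, hAv⟩ := hv
  cases n with
  | zero => exact hAv hn
  | succ k =>
    rw [Function.iterate_succ_apply'] at hn
    set x := f.act^[k] α with hx
    by_cases hxa : ∃ a : K, x = (a : OnePoint K) ∧ v.valuation K a ≤ 1
    · obtain ⟨a, ha, ha1⟩ := hxa
      apply hroot
      refine ⟨a, ha1, ?_⟩
      rw [hgood.q_lt_iff hint ha1, ← ha]
      exact hn
    · push Not at hxa
      have h1 : SameRed v x OnePoint.infty := tg_infty (fun a ha => not_le.mpr (hxa a ha))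
      exact hinfv (((hgood.sameRed_iterate h1 1).symm).trans hn)

/-- the target `β` is good for the maps `R k`, together with the sets of the family `𝒜` -/
def GoodR {K : Type u} [Field K] [NumberField K] (𝒜 : Set (Set (HeightOneSpectrum (𝓞 K)))) {κ : Type}
    (R : κ → RP K) (β : κ → K) : Prop :=
  ∀ A ∈ 𝒜, ∀ α : κ → OnePoint K, (∀ k n, (R k).act^[n] (α k) ≠ (β k : OnePoint K)) →
    PosDensity (A ∩ PAvoidSet R α (fun k => (β k : OnePoint K)))

theorem good_of {K : Type u} [Field K] [NumberField K] {κ : Type} [Finite κ] (R : κ → RP K)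
    (hd : ∀ k, 2 ≤ (R k).d) {𝒜 : Set (Set (HeightOneSpectrum (𝓞 K)))} {J0 : Type} [Finite J0] (F : J0 → K[X])
    (hF0 : ∀ j, F j ≠ 0) (hFA : ∀ A ∈ 𝒜, {v | v ∉ A ∧ ∀ j, ¬ HasRoot v (F j)}.Finite)
    {E : Type u} [Field E] [NumberField E] [Algebra K E] [IsGalois ℚ E]
    (hspl : ∀ j, ((F j).map (algebraMap K E)).Splits)
    (S : Set ℕ) (hE : ∀ p : ℕ, p.Prime → p ∉ S → ¬ (p : ℤ) ∣ discr E) (D : ℕ)
    (hbig : ∀ (L : Type u) [Field L] [NumberField L] [Algebra E L] (F : IntermediateField ℚ L),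
        Module.finrank ℚ F ≤ D → (∀ p : ℕ, p.Prime → p ∉ S → ¬ (p : ℤ) ∣ discr F) →
        ∀ x ∈ F, ∃ y : E, algebraMap E L y = x)
    (hD : ∀ k, Module.finrank ℚ K * ((R k).d).factorial ≤ D)
    (Φ : E ≃ₐ[ℚ] E) (hΦ : ∀ x : K, Φ (algebraMap K E x) = algebraMap K E x)
    (hΦF : ∀ j (r : E), aeval r (F j) = 0 → Φ r ≠ r)
    (β : κ → K) (hβ : ∀ k, (R k).act OnePoint.infty ≠ (β k : OnePoint K))
    (hτ : ∀ k (L : Type u) [Field L] [NumberField L] [Algebra E L] [Algebra K L] [IsScalarTower K E L]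
        [IsGalois ℚ L], ∃ τ : L ≃ₐ[ℚ] L, (∀ x : E, τ (algebraMap E L x) = algebraMap E L (Φ x)) ∧
          ∀ r : L, aeval r ((R k).q (β k : OnePoint K)) = 0 → τ r ≠ r)
    (B : κ → Set ℕ) (hdisj : ∀ k l, k ≠ l → ∀ p : ℕ, p.Prime → p ∉ S → p ∈ B k → p ∉ B l)
    (hin : ∀ k (p : ℕ), p.Prime → p ∉ S → p ∉ B k →
        ∀ (L : Type u) [Field L] [NumberField L] [Algebra K L] (P : Ideal (𝓞 L)),
          P.IsPrime → (p : 𝓞 L) ∈ P → ∀ g : L ≃ₐ[ℚ] L, Inert P g →
          (∀ x : K, g (algebraMap K L x) = algebraMap K L x) →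
          ∀ r : L, aeval r ((R k).q (β k : OnePoint K)) = 0 → g r = r) :
    GoodR 𝒜 R β := by
  classical
  have hG0 : ∀ k, (R k).q (β k : OnePoint K) ≠ 0 := fun k => RP.q_ne_zero _ (by have := hd k; omega) _
  obtain ⟨L, _, _, _, hgal, hsp⟩ := exists_closure
    (fun k => ((R k).q (β k : OnePoint K)).map (algebraMap K E)) (fun k => Polynomial.map_ne_zero (hG0 k))
  let algKL : Algebra K L := ((algebraMap E L).comp (algebraMap K E)).toAlgebra
  have hst : IsScalarTower K E L := IsScalarTower.of_algebraMap_eq (fun x => rfl)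
  choose τ hτE hτr using fun k => hτ k L
  obtain ⟨σ, hσE, hσ⟩ := combine (K := K) (E := E) (L := L) (fun k => (R k).q (β k : OnePoint K)) hG0 S hE D
    (fun F => hbig L F) (fun k => le_trans (Nat.mul_le_mul_left _ (Nat.factorial_le (RP.q_natDegree _ _))) (hD k))
    B hdisj (fun k p hp hpS hpB P hP hpP g hg hgK r hr => hin k p hp hpS hpB L P hP hpP g hg hgK r hr)
    Φ hΦ τ hτE hτr
  have hσK : ∀ x : K, σ (algebraMap K L x) = algebraMap K L x := fun x => by
    rw [IsScalarTower.algebraMap_apply K E L, hσE, hΦ]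
  have hpos := posDensity_of_rootless σ hσK (Sum.elim F (fun k => (R k).q (β k : OnePoint K)))
    (by rintro (j | k); exacts [hF0 j, hG0 k])
    (by
      rintro (j | k)
      · have h1 := (hspl j).map (algebraMap E L)
        rw [Polynomial.map_map] at h1
        exact h1
      · have h1 := hsp k
        rw [Polynomial.map_map] at h1
        exact h1)
    (by
      rintro (j | k) r hr
      · have hmap : ((F j).map (algebraMap K E)).map (algebraMap E L) = (F j).map (algebraMap K L) := by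
          rw [Polynomial.map_map]
          rfl
        have h1 : (((F j).map (algebraMap K E)).map (algebraMap E L)).IsRoot r := by
          rw [hmap, IsRoot.def, eval_map_algebraMap]
          exact hr
        obtain ⟨x, rfl⟩ := (hspl j).mem_range_of_isRoot (Polynomial.map_ne_zero (hF0 j)) h1
        rw [hσE]
        intro h
        refine hΦF j x ?_ ((algebraMap E L).injective h)
        apply (algebraMap E L).injective
        rw [map_zero, ← aeval_algebraMap_apply]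
        exact hr
      · exact hσ k r hr)
  intro A hA α hα
  refine posDensity_mono ?_ hpos
  have hfin : (⋃ k, {v : HeightOneSpectrum (𝓞 K) | (∃ n, SameRed v ((R k).act^[n] (α k)) (β k : OnePoint K)) ∧
      ¬ HasRoot v ((R k).q (β k : OnePoint K))}).Finite :=
    Set.finite_iUnion (fun k => finite_coll (R k) _ (hβ k) (α k) (hα k))
  refine ((hFA A hA).union hfin).subset ?_
  rintro v ⟨hv1, hv2⟩
  by_cases hvA : v ∈ A
  · right
    have h3 : v ∉ PAvoidSet R α (fun k => (β k : OnePoint K)) := fun h4 => hv2 ⟨hvA, h4⟩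
    simp only [PAvoidSet, Set.mem_ofPred_eq, not_forall, not_not] at h3
    obtain ⟨k, n, hkn⟩ := h3
    rw [Set.mem_iUnion]
    exact ⟨k, ⟨n, hkn⟩, hv1 (Sum.inr k)⟩
  · left
    exact ⟨hvA, fun j => hv1 (Sum.inl j)⟩

theorem ManyPrimes.sdiff {S B : Set ℕ} (h : ManyPrimes S) (hB : B.Finite) : ManyPrimes (S \ B) := by
  classical
  obtain ⟨c, hc, x0, hx0⟩ := h
  have hlim : Filter.Tendsto (fun x : ℝ => x / Real.log x) Filter.atTop Filter.atTop := by
    have h1 := Real.isLittleO_log_id_atTop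
    have h2 : Filter.Tendsto (fun x : ℝ => Real.log x / x) Filter.atTop (nhds 0) := h1.tendsto_div_nhds_zero
    have h3 : ∀ᶠ x : ℝ in Filter.atTop, 0 < Real.log x / x := by
      filter_upwards [Filter.eventually_gt_atTop 1] with x hx
      exact div_pos (Real.log_pos hx) (by linarith)
    have h4 := Filter.Tendsto.comp tendsto_inv_nhdsGT_zero (tendsto_nhdsWithin_iff.2 ⟨h2, h3⟩)
    refine h4.congr (fun x => ?_)
    simp
  obtain ⟨x1, hx1⟩ := Filter.eventually_atTop.1 (hlim.eventually_ge_atTop (2 * (B.ncard : ℝ) / c))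
  refine ⟨c / 2, half_pos hc, max x0 ⌈x1⌉₊, fun x hx => ?_⟩
  have hxx0 := hx0 x ((le_max_left _ _).trans hx)
  have hxx1 := hx1 (x : ℝ) ((Nat.le_ceil x1).trans (by exact_mod_cast (le_max_right _ _).trans hx))
  have hfin : {p : ℕ | p ∈ S ∧ p ≤ x}.Finite := (Set.finite_Iic x).subset (fun p hp => hp.2)
  have hfin2 : {p : ℕ | p ∈ S \ B ∧ p ≤ x}.Finite := (Set.finite_Iic x).subset (fun p hp => hp.2)
  have h5 : ({p : ℕ | p ∈ S ∧ p ≤ x}.ncard : ℝ) ≤ {p : ℕ | p ∈ S \ B ∧ p ≤ x}.ncard + B.ncard := by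
    have h6 : {p : ℕ | p ∈ S ∧ p ≤ x} ⊆ {p : ℕ | p ∈ S \ B ∧ p ≤ x} ∪ B := by
      rintro p ⟨hp1, hp2⟩
      by_cases hpB : p ∈ B
      · exact Or.inr hpB
      · exact Or.inl ⟨⟨hp1, hpB⟩, hp2⟩
    exact_mod_cast (Set.ncard_le_ncard h6 (hfin2.union hB)).trans (Set.ncard_union_le _ _)
  have h7 : (B.ncard : ℝ) ≤ c / 2 * (x / Real.log x) := by
    rw [div_le_iff₀ hc] at hxx1
    linarith
  linarith

open Classical in
/-- the count in boxes, for a general parametrization of the targets -/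
theorem aa_box {K : Type u} [Field K] [NumberField K] {κ : Type} [Fintype κ] (R : κ → RP K)
    (hd : ∀ k, 2 ≤ (R k).d) {𝒜 : Set (Set (HeightOneSpectrum (𝓞 K)))}
    (hcore : ∀ (K3 : Type u) [Field K3] [NumberField K3] [Algebra K K3],
      ∃ (K4 : Type u) (_ : Field K4) (_ : NumberField K4) (_ : Algebra K K4) (_ : Algebra K3 K4)
        (_ : IsScalarTower K K3 K4), CoreAt K4 𝒜)
    {J : Type*} [Fintype J] (num den : (J → ℤ) → 𝓞 K)
    (hshare : ∃ B : Set ℕ, B.Finite ∧ ∀ p : ℕ, p.Prime → p ∉ B → ∀ (φ : 𝓞 K →+* ZMod p) (u : ZMod p) (k : κ),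
      ∃ Bad : Finset (κ × J → ZMod p), (Bad.card : ℝ) ≤ (1 - (1 / 2) / p) * (p : ℝ) ^ Fintype.card (κ × J) ∧
        ∀ q : κ × J → ℤ, zres p q ∉ Bad → φ (den (fun j => q (k, j))) ≠ 0 ∧
          φ (num (fun j => q (k, j))) = u * φ (den (fun j => q (k, j))))
    (hnorm : ∀ (Δ : (𝓞 K)[X]) (B : Set ℕ), B.Finite → (∀ p : ℕ, p.Prime → p ∉ B →
        ∀ w : HeightOneSpectrum (𝓞 K), (p : 𝓞 K) ∈ w.asIdeal → ∃ i, Δ.coeff i ∉ w.asIdeal) →
      ∃ C M P0 : ℕ, (∀ p : ℕ, p.Prime → P0 < p → ∀ H : ℕ, 1 ≤ H →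
        ((zbox J H).filter (fun x => p ∣ Ideal.absNorm (Ideal.span {eh Δ (num x) (den x)}))).card *
          (p * (2 * H + 1)) ≤ C * (H + p) * (2 * H + 1) ^ Fintype.card J) ∧
        ∀ (H : ℕ) (x : J → ℤ), 1 ≤ H → x ∈ zbox J H →
          Ideal.absNorm (Ideal.span {eh Δ (num x) (den x)}) ≤ C * H ^ M) :
    ∀ ε : ℝ, 0 < ε → ∃ H0 : ℕ, ∀ H : ℕ, H0 ≤ H →
      (((zbox (κ × J) H).filter (fun q => ¬ GoodR 𝒜 R (fun k =>
        algebraMap (𝓞 K) K (num (fun j => q (k, j))) / algebraMap (𝓞 K) K (den (fun j => q (k, j)))))).card : ℝ) ≤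
        ε * (zbox (κ × J) H).card := by
  intro ε hε
  obtain ⟨K3, _, _, _, hpart⟩ := exists_partners R hd
  obtain ⟨K4, _, _, _, _, hst34, J0, _, F, hF0, hFA, hL⟩ := hcore K3
  obtain ⟨L0, _, _, _, hgal0, hsp0⟩ := exists_closure (fun j => (F j).map (algebraMap K K4))
    (fun j => Polynomial.map_ne_zero (hF0 j))
  choose Δ B hB hΔ hsep using fun k => exists_sep (R k) (le_trans one_le_two (hd k))
  choose C M P0 hC2 hC3 using fun k => hnorm (Δ k) (B k) (hB k) (hΔ k)
  have hle : ∀ (f : κ → ℕ) k, f k ≤ ∑ k, f k := fun f k =>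
    Finset.single_le_sum (f := f) (fun _ _ => Nat.zero_le _) (Finset.mem_univ k)
  obtain ⟨P1, hP1⟩ := count_common (κ := κ) (J := J)
    (fun k x => Ideal.absNorm (Ideal.span {eh (Δ k) (num x) (den x)})) (∑ k, C k) (∑ k, M k) (∑ k, P0 k)
    (fun k p hp hpP H hH => (hC2 k p hp (lt_of_le_of_lt (hle P0 k) hpP) H hH).trans
      (Nat.mul_le_mul_right _ (Nat.mul_le_mul_right _ (hle C k))))
    (fun k H x hH hx => (hC3 k H x hH hx).trans
      (Nat.mul_le_mul (hle C k) (Nat.pow_le_pow_right hH (hle M k)))) (ε / 2) (half_pos hε)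
  obtain ⟨H1, hH1⟩ := hP1 P1 le_rfl
  -- the bad primes
  set S0 : Set ℕ := (Set.Iic P1 ∪ ⋃ k, B k) ∪ {p | p.Prime ∧ (p : ℤ) ∣ discr L0} with hS0def
  have hdl : {p : ℕ | p.Prime ∧ (p : ℤ) ∣ discr L0}.Finite := by
    have h0 : discr L0 ≠ 0 := discr_ne_zero L0
    refine (Set.finite_Iic (discr L0).natAbs).subset ?_
    rintro p ⟨hp, hpd⟩
    exact Nat.le_of_dvd (Int.natAbs_pos.2 h0) (Int.natCast_dvd.1 hpd)
  have hS0 : S0.Finite := ((Set.finite_Iic P1).union (Set.finite_iUnion hB)).union hdl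
  obtain ⟨E, _, _, _, hgalE, hE, hbig⟩ := exists_big (L0 := L0) S0 hS0
    (fun p hp hpS hdvd => hpS (Or.inr ⟨hp, hdvd⟩)) (Module.finrank ℚ K * ∑ k, ((R k).d).factorial)
  let alg4E : Algebra K4 E := ((algebraMap L0 E).comp (algebraMap K4 L0)).toAlgebra
  let alg3E : Algebra K3 E := ((algebraMap K4 E).comp (algebraMap K3 K4)).toAlgebra
  let algE : Algebra K E := ((algebraMap K4 E).comp (algebraMap K K4)).toAlgebra
  have hst1 : IsScalarTower K K4 E := IsScalarTower.of_algebraMap_eq (fun x => rfl)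
  have hst2 : IsScalarTower K3 K4 E := IsScalarTower.of_algebraMap_eq (fun x => rfl)
  have hst3 : IsScalarTower K K3 E := IsScalarTower.of_algebraMap_eq (fun x => by
    rw [IsScalarTower.algebraMap_apply K K4 E, IsScalarTower.algebraMap_apply K3 K4 E,
      ← IsScalarTower.algebraMap_apply K K3 K4])
  obtain ⟨σ, hσ⟩ := hL E
  obtain ⟨T, hTm, hTp, hT⟩ := exists_placesR R hd hpart (σ.restrictScalars K3) S0 hS0 hE
  obtain ⟨B1, hB1, hsh⟩ := hshare
  choose φ hφ using hT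
  choose u hu using hφ
  -- the property of one coordinate
  obtain ⟨GK, hGKd⟩ : ∃ GK : κ → (κ × J → ℤ) → Prop, ∀ k q, GK k q ↔
    (((R k).act OnePoint.infty ≠ ((algebraMap (𝓞 K) K (num (fun j => q (k, j))) /
      algebraMap (𝓞 K) K (den (fun j => q (k, j))) : K) : OnePoint K)) ∧
      ∀ (L : Type u) [Field L] [NumberField L] [Algebra E L] [Algebra K L] [IsScalarTower K E L] [IsGalois ℚ L],
        ∃ τ : L ≃ₐ[ℚ] L, (∀ x : E, τ (algebraMap E L x) = algebraMap E L ((σ.restrictScalars K3) x)) ∧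
          ∀ r : L, aeval r ((R k).q ((algebraMap (𝓞 K) K (num (fun j => q (k, j))) /
            algebraMap (𝓞 K) K (den (fun j => q (k, j))) : K) : OnePoint K)) = 0 → τ r ≠ r) :=
    ⟨_, fun k q => Iff.rfl⟩
  have hcount : ∀ k, ∀ ε' : ℝ, 0 < ε' → ∃ H0 : ℕ, ∀ H : ℕ, H0 ≤ H →
      (((zbox (κ × J) H).filter (fun q => ¬ GK k q)).card : ℝ) ≤ ε' * (zbox (κ × J) H).card := by
    intro k
    let Bad : ∀ p : ℕ, Finset (κ × J → ZMod p) := fun p =>
      if h : p ∈ T \ B1 then (hsh p (hTp p h.1) h.2 (φ p h.1) (u p h.1 k) k).choose else ∅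
    have hBadeq : ∀ p (h : p ∈ T \ B1), Bad p = (hsh p (hTp p h.1) h.2 (φ p h.1) (u p h.1 k) k).choose := by
      intro p h
      show (if h : p ∈ T \ B1 then _ else _) = _
      rw [dif_pos h]
    refine count_sum (T \ B1) (ManyPrimes.sdiff hTm hB1) (fun p hp => hTp p hp.1) (1 / 2) (by norm_num) (by norm_num)
      Bad ?_ (GK k) ?_
    · intro p hp
      rw [hBadeq p hp]
      exact (hsh p (hTp p hp.1) hp.2 (φ p hp.1) (u p hp.1 k) k).choose_spec.1
    · intro p hp q hq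
      rw [hBadeq p hp] at hq
      obtain ⟨h1, h2⟩ := (hsh p (hTp p hp.1) hp.2 (φ p hp.1) (u p hp.1 k) k).choose_spec.2 q hq
      exact (hGKd k q).2 (hu p hp.1 k _ _ h1 h2)
  set g : ℝ := ((Fintype.card κ : ℕ) : ℝ) with hg
  choose H2 hH2 using fun k => hcount k (ε / (2 * (g + 1))) (by positivity)
  refine ⟨max H1 (∑ k, H2 k), fun H hH => ?_⟩
  have hN0 : (0 : ℝ) ≤ (zbox (κ × J) H).card := Nat.cast_nonneg _
  have hsub : (zbox (κ × J) H).filter (fun q => ¬ GoodR 𝒜 R (fun k =>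
        algebraMap (𝓞 K) K (num (fun j => q (k, j))) / algebraMap (𝓞 K) K (den (fun j => q (k, j))))) ⊆
      ((zbox (κ × J) H).filter (fun q => ∃ k l, k ≠ l ∧ ∃ p : ℕ, p.Prime ∧ P1 < p ∧
        p ∣ Ideal.absNorm (Ideal.span {eh (Δ k) (num (fun j => q (k, j))) (den (fun j => q (k, j)))}) ∧
        p ∣ Ideal.absNorm (Ideal.span {eh (Δ l) (num (fun j => q (l, j))) (den (fun j => q (l, j)))}))) ∪
      Finset.univ.biUnion (fun k => (zbox (κ × J) H).filter (fun q => ¬ GK k q)) := by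
    intro q hq
    rw [Finset.mem_filter] at hq
    by_contra hcon
    simp only [Finset.mem_union, Finset.mem_biUnion, Finset.mem_filter, Finset.mem_univ, true_and, not_or,
      not_exists, not_and, not_not] at hcon
    obtain ⟨hc1, hc2⟩ := hcon
    have hGK := fun k => (hGKd k q).1 (hc2 k hq.1)
    refine hq.2 (good_of R hd F hF0 hFA (E := E) (fun j => ?_) S0 hE _ hbig (fun k => ?_)
      (σ.restrictScalars ℚ) (fun x => ?_) (fun j r hr => hσ j r hr) _ (fun k => (hGK k).1)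
      (fun k L _ _ _ _ _ _ => (hGK k).2 L)
      (fun k => {p | p ∣ Ideal.absNorm (Ideal.span {eh (Δ k) (num (fun j => q (k, j)))
        (den (fun j => q (k, j)))})}) ?_ ?_)
    · have h1 := (hsp0 j).map (algebraMap L0 E)
      rw [Polynomial.map_map, Polynomial.map_map] at h1
      exact h1
    · exact Nat.mul_le_mul_left _ (hle (fun k => ((R k).d).factorial) k)
    · show σ (algebraMap K4 E (algebraMap K K4 x)) = _
      rw [σ.commutes]
      rfl
    · intro k l hkl p hp hpS hpk hpl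
      exact hc1 hq.1 k l hkl p hp (not_le.1 (fun h => hpS (Or.inl (Or.inl h)))) hpk hpl
    · intro k p hp hpS hpk L _ _ _ P hP hpP g hg hgK r hr
      exact hsep k p hp (fun h => hpS (Or.inl (Or.inr (Set.mem_iUnion.2 ⟨k, h⟩)))) _ _ hpk L P hP hpP g hg hgK r hr
  have h1 := hH1 H ((le_max_left _ _).trans hH)
  have h2 : ∀ k, (((zbox (κ × J) H).filter (fun q => ¬ GK k q)).card : ℝ) ≤
      ε / (2 * (g + 1)) * (zbox (κ × J) H).card :=
    fun k => hH2 k H ((hle H2 k).trans ((le_max_right _ _).trans hH))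
  have h3 := (Finset.card_le_card hsub).trans (Finset.card_union_le _ _)
  have h4 : ((Finset.univ.biUnion (fun k => (zbox (κ × J) H).filter (fun q => ¬ GK k q))).card : ℝ) ≤
      ∑ k : κ, (((zbox (κ × J) H).filter (fun q => ¬ GK k q)).card : ℝ) := by
    exact_mod_cast Finset.card_biUnion_le
  have h5 : ∑ k : κ, (((zbox (κ × J) H).filter (fun q => ¬ GK k q)).card : ℝ) ≤
      g * (ε / (2 * (g + 1)) * (zbox (κ × J) H).card) := by
    refine (Finset.sum_le_sum (fun k _ => h2 k)).trans (le_of_eq ?_)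
    rw [Finset.sum_const, Finset.card_univ, nsmul_eq_mul]
  have hg0 : (0 : ℝ) ≤ g := Nat.cast_nonneg _
  have h6 : g * (ε / (2 * (g + 1)) * (zbox (κ × J) H).card) ≤ ε / 2 * (zbox (κ × J) H).card := by
    have h7 : g * (ε / (2 * (g + 1))) ≤ ε / 2 := by
      rw [mul_div_assoc', div_le_div_iff₀ (by positivity) (by norm_num)]
      nlinarith
    calc g * (ε / (2 * (g + 1)) * (zbox (κ × J) H).card) = g * (ε / (2 * (g + 1))) * (zbox (κ × J) H).card := by ring
      _ ≤ _ := mul_le_mul_of_nonneg_right h7 hN0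
  have h8 : ((((zbox (κ × J) H).filter (fun q => ¬ GoodR 𝒜 R (fun k =>
        algebraMap (𝓞 K) K (num (fun j => q (k, j))) / algebraMap (𝓞 K) K (den (fun j => q (k, j)))))).card : ℕ) : ℝ) ≤
      (((zbox (κ × J) H).filter (fun q => ∃ k l, k ≠ l ∧ ∃ p : ℕ, p.Prime ∧ P1 < p ∧
        p ∣ Ideal.absNorm (Ideal.span {eh (Δ k) (num (fun j => q (k, j))) (den (fun j => q (k, j)))}) ∧
        p ∣ Ideal.absNorm (Ideal.span {eh (Δ l) (num (fun j => q (l, j))) (den (fun j => q (l, j)))}))).card : ℝ) +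
      ((Finset.univ.biUnion (fun k => (zbox (κ × J) H).filter (fun q => ¬ GK k q))).card : ℝ) := by
    exact_mod_cast h3
  linarith

end Pool.Agent.ORB.AA
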