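import Pool.Agent.ORB.BadK

/-! ORB, Theorem AA, row M: shares of the residue classes. -/

namespace Pool.Agent.ORB.AA

open NumberField Polynomial

universe u

open Classical in
/-- the share of the vectors whose image is not in the set `Q` -/
theorem share_gen {N : Type*} [Fintype N] {p : ℕ} [Fact p.Prime] {T : Type*} [AddGroup T] [Fintype T]
    (Λ : (N → ZMod p) →+ T) (hΛ : Function.Surjective Λ) (Q : T → Prop)
    (h : Fintype.card T ≤ 2 * p * (Finset.univ.filter Q).card) :
    ((Finset.univ.filter (fun q : N → ZMod p => ¬ Q (Λ q))).card : ℝ) ≤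
      (1 - (1 / 2) / p) * (p : ℝ) ^ Fintype.card N := by
  have hp := (Fact.out : p.Prime)
  have hp0 : (0 : ℝ) < p := by exact_mod_cast hp.pos
  have h1 := card_preimage_mul Λ hΛ (Finset.univ.filter Q)
  have h2 : (Finset.univ.filter (fun q : N → ZMod p => Λ q ∈ Finset.univ.filter Q)) =
      Finset.univ.filter (fun q : N → ZMod p => Q (Λ q)) := by
    ext q
    simp only [Finset.mem_filter, Finset.mem_univ, true_and]
  have h4 : Fintype.card (N → ZMod p) = p ^ Fintype.card N := by
    rw [Fintype.card_fun, ZMod.card]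
  rw [h2, h4] at h1
  set g := (Finset.univ.filter (fun q : N → ZMod p => Q (Λ q))).card with hg
  set c := (Finset.univ.filter Q).card with hc
  have hT : 0 < Fintype.card T := Fintype.card_pos
  have hc0 : 0 < c := by
    rcases Nat.eq_zero_or_pos c with h0 | h0
    · rw [h0] at h; omega
    · exact h0
  have h5 : p ^ Fintype.card N ≤ g * (2 * p) := by
    have h6 : c * p ^ Fintype.card N ≤ c * (g * (2 * p)) := by
      rw [← h1]
      calc g * Fintype.card T ≤ g * (2 * p * c) := Nat.mul_le_mul_left _ h
        _ = _ := by ring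
    exact Nat.le_of_mul_le_mul_left h6 hc0
  have h7 : g + (Finset.univ.filter (fun q : N → ZMod p => ¬ Q (Λ q))).card = p ^ Fintype.card N := by
    rw [hg, ← h4, ← Finset.card_univ]
    exact Finset.card_filter_add_card_filter_not _
  have h8 : (g : ℝ) + ((Finset.univ.filter (fun q : N → ZMod p => ¬ Q (Λ q))).card : ℝ) =
      (p : ℝ) ^ Fintype.card N := by exact_mod_cast h7
  have h9 : (p : ℝ) ^ Fintype.card N ≤ g * (2 * p) := by exact_mod_cast h5
  have h10 : (1 / 2) / (p : ℝ) * (p : ℝ) ^ Fintype.card N ≤ g := by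
    rw [div_div, div_mul_eq_mul_div, one_mul, div_le_iff₀ (by positivity)]
    exact h9
  linarith

/-- evaluation at one index, after the reduction -/
noncomputable def redAt {K : Type*} [Field K] [NumberField K] {κ : Type*} {p : ℕ} (φ : 𝓞 K →+* ZMod p)
    (k : κ) : (KIdx κ K → ZMod p) →+ ZMod p × ZMod p :=
  (Pi.evalAddMonoidHom (fun _ : κ => ZMod p × ZMod p) k).comp (redK φ κ)

open Classical in
theorem share_rat {K : Type u} [Field K] [NumberField K] {κ : Type} [Fintype κ] {p : ℕ} [Fact p.Prime]
    (φ : 𝓞 K →+* ZMod p) (u : ZMod p) (k : κ) :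
    ((Finset.univ.filter (fun q : KIdx κ K → ZMod p => ¬ ((redK φ κ q k).2 ≠ 0 ∧
      (redK φ κ q k).1 = u * (redK φ κ q k).2))).card : ℝ) ≤
      (1 - (1 / 2) / p) * (p : ℝ) ^ Fintype.card (KIdx κ K) := by
  have hp := (Fact.out : p.Prime)
  have hsurj : Function.Surjective (redAt (K := K) φ k) := by
    intro t
    obtain ⟨q, hq⟩ := redK_surjective φ κ (fun _ => t)
    exact ⟨q, congrFun hq k⟩
  have h := share_gen (redAt (K := K) φ k) hsurj (fun t : ZMod p × ZMod p => t.2 ≠ 0 ∧ t.1 = u * t.2) (by
    rw [Fintype.card_prod, ZMod.card]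
    have h1 : ((Finset.univ : Finset (ZMod p)).erase 0).card ≤
        (Finset.univ.filter (fun t : ZMod p × ZMod p => t.2 ≠ 0 ∧ t.1 = u * t.2)).card := by
      apply Finset.card_le_card_of_injOn (fun b => (u * b, b))
      · intro b hb
        rw [Finset.mem_coe, Finset.mem_erase] at hb
        rw [Finset.mem_coe, Finset.mem_filter]
        exact ⟨Finset.mem_univ _, hb.1, rfl⟩
      · intro b _ b' _ hbb
        exact (Prod.mk.inj hbb).2
    rw [Finset.card_erase_of_mem (Finset.mem_univ _), Finset.card_univ, ZMod.card] at h1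
    have h2 : p ≤ 2 * (p - 1) := by have := hp.two_le; omega
    have h3 : p * p ≤ 2 * p * (p - 1) := by
      calc p * p ≤ p * (2 * (p - 1)) := Nat.mul_le_mul_left _ h2
        _ = 2 * p * (p - 1) := by ring
    refine (h3.trans (Nat.mul_le_mul_left _ h1)).trans (le_of_eq ?_)
    congr)
  refine le_trans (le_of_eq ?_) h
  congr
  exact Subsingleton.elim _ _

open Classical in
theorem share_int {K : Type u} [Field K] [NumberField K] {κ : Type} [Fintype κ] {p : ℕ} [Fact p.Prime]
    (φ : 𝓞 K →+* ZMod p) (u : ZMod p) (k : κ) :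
    ((Finset.univ.filter (fun q : κ × Idx K → ZMod p => ¬ (linK φ (fun j => q (k, j)) = u))).card : ℝ) ≤
      (1 - (1 / 2) / p) * (p : ℝ) ^ Fintype.card (κ × Idx K) := by
  have hp := (Fact.out : p.Prime)
  set Λ : (κ × Idx K → ZMod p) →+ ZMod p :=
    { toFun := fun q => linK φ (fun j => q (k, j))
      map_zero' := map_zero (linK φ)
      map_add' := fun q r => map_add (linK φ) (fun j => q (k, j)) (fun j => r (k, j)) } with hΛ
  have hsurj : Function.Surjective Λ := by
    intro t
    obtain ⟨v, hv⟩ := linK_surjective φ t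
    exact ⟨fun i => v i.2, hv⟩
  have h := share_gen Λ hsurj (fun t : ZMod p => t = u) (by
    rw [ZMod.card]
    have h1 : (Finset.univ.filter (fun t : ZMod p => t = u)).card = 1 := by
      rw [Finset.filter_eq', if_pos (Finset.mem_univ _), Finset.card_singleton]
    have h2 : p ≤ 2 * p * (Finset.univ.filter (fun t : ZMod p => t = u)).card := by
      rw [h1]
      have := hp.pos
      omega
    refine h2.trans (le_of_eq ?_)
    congr)
  refine le_trans (le_of_eq ?_) h
  congr
  exact Subsingleton.elim _ _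

end Pool.Agent.ORB.AA
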