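import Pool.Agent.ORB.AAMain
import Pool.Agent.ORB.AAShare
import Pool.Agent.ORB.IThmIV

/-!
ORB, Theorem AA: 100 percent of the targets, for arbitrary rational functions of degree at least two.
-/

namespace Pool.Agent.ORB.AA

open NumberField IsDedekindDomain Polynomial

universe u

open Classical in
theorem aa_rat_box {K : Type u} [Field K] [NumberField K] {κ : Type} [Fintype κ] (R : κ → RP K)
    (hd : ∀ k, 2 ≤ (R k).d) {𝒜 : Set (Set (HeightOneSpectrum (𝓞 K)))}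
    (hcore : ∀ (K3 : Type u) [Field K3] [NumberField K3] [Algebra K K3],
      ∃ (K4 : Type u) (_ : Field K4) (_ : NumberField K4) (_ : Algebra K K4) (_ : Algebra K3 K4)
        (_ : IsScalarTower K K3 K4), CoreAt K4 𝒜) :
    ∀ ε : ℝ, 0 < ε → ∃ H0 : ℕ, ∀ H : ℕ, H0 ≤ H →
      (((zbox (KIdx κ K) H).filter (fun q => ¬ GoodR 𝒜 R (quotK q))).card : ℝ) ≤
        ε * (zbox (KIdx κ K) H).card := by
  intro ε hε
  obtain ⟨H0, h⟩ := aa_box R hd hcore (J := Bool × Idx K) (fun x => el (fun k => x (false, k)))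
    (fun x => el (fun k => x (true, k))) ⟨∅, Set.finite_empty, fun p hp _ φ u k => by
      have hF := Fact.mk hp
      refine ⟨_, share_rat φ u k, fun q hq => ?_⟩
      rw [Finset.mem_filter, not_and] at hq
      have h1 := not_not.1 (hq (Finset.mem_univ _))
      rw [redK_zres] at h1
      exact h1⟩ (fun Δ B hB hΔ => norm_rat Δ B hB hΔ) ε hε
  exact ⟨H0, h⟩

open Classical in
theorem aa_int_box {K : Type u} [Field K] [NumberField K] {κ : Type} [Fintype κ] (R : κ → RP K)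
    (hd : ∀ k, 2 ≤ (R k).d) {𝒜 : Set (Set (HeightOneSpectrum (𝓞 K)))}
    (hcore : ∀ (K3 : Type u) [Field K3] [NumberField K3] [Algebra K K3],
      ∃ (K4 : Type u) (_ : Field K4) (_ : NumberField K4) (_ : Algebra K K4) (_ : Algebra K3 K4)
        (_ : IsScalarTower K K3 K4), CoreAt K4 𝒜) (s : 𝓞 K) (hs : s ≠ 0) :
    ∀ ε : ℝ, 0 < ε → ∃ H0 : ℕ, ∀ H : ℕ, H0 ≤ H →
      (((zbox (κ × Idx K) H).filter (fun q => ¬ GoodR 𝒜 R (fun i => algebraMap (𝓞 K) K (vecK q i) /
        algebraMap (𝓞 K) K s))).card : ℝ) ≤ ε * (zbox (κ × Idx K) H).card := by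
  intro ε hε
  have hn0 : Ideal.absNorm (Ideal.span {s}) ≠ 0 := by
    rw [Ne, Ideal.absNorm_eq_zero_iff, Ideal.span_singleton_eq_bot]
    exact hs
  obtain ⟨H0, h⟩ := aa_box R hd hcore (J := Idx K) (fun x => el x) (fun _ => s)
    ⟨{p | p ∣ Ideal.absNorm (Ideal.span {s})}, (Set.finite_Iic _).subset
      (fun p hp => Nat.le_of_dvd (Nat.pos_of_ne_zero hn0) hp), fun p hp hpB φ u k => by
      have hF := Fact.mk hp
      have hφs : φ s ≠ 0 := by
        intro h0
        apply hpB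
        have h1 : ((Ideal.absNorm (Ideal.span {s}) : ℕ) : 𝓞 K) ∈ Ideal.span {s} := Ideal.absNorm_mem _
        obtain ⟨t, ht⟩ := Ideal.mem_span_singleton.1 h1
        have h2 : φ ((Ideal.absNorm (Ideal.span {s}) : ℕ) : 𝓞 K) = 0 := by rw [ht, map_mul, h0, zero_mul]
        rw [map_natCast] at h2
        exact (ZMod.natCast_eq_zero_iff _ _).1 h2
      refine ⟨_, share_int φ (u * φ s) k, fun q hq => ⟨hφs, ?_⟩⟩
      rw [Finset.mem_filter, not_and] at hq
      have h1 := not_not.1 (hq (Finset.mem_univ _))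
      rw [← h1]
      exact (linK_apply φ (fun j => q (k, j))).symm⟩ (fun Δ B hB hΔ => norm_int Δ B hB hΔ s hs) ε hε
  exact ⟨H0, h⟩

/-- **Theorem AA**, by height -/
theorem aa_height {K : Type u} [Field K] [NumberField K] {κ : Type} [Fintype κ] (R : κ → RP K)
    (hd : ∀ k, 2 ≤ (R k).d) {𝒜 : Set (Set (HeightOneSpectrum (𝓞 K)))}
    (hcore : ∀ (K3 : Type u) [Field K3] [NumberField K3] [Algebra K K3],
      ∃ (K4 : Type u) (_ : Field K4) (_ : NumberField K4) (_ : Algebra K K4) (_ : Algebra K3 K4)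
        (_ : IsScalarTower K K3 K4), CoreAt K4 𝒜) :
    Filter.Tendsto (fun X : ℝ => ({β | β ∈ HtBox κ K X ∧ ¬ GoodR 𝒜 R β}.ncard : ℝ) /
      ((HtBox κ K X).ncard : ℝ)) Filter.atTop (nhds 0) := by
  classical
  exact height_of_zbox (GoodR 𝒜 R) (aa_rat_box R hd hcore)

/-- **Theorem AA**, for integral targets by the size of the conjugates -/
theorem aa_conj {K : Type u} [Field K] [NumberField K] {κ : Type} [Fintype κ] (R : κ → RP K)
    (hd : ∀ k, 2 ≤ (R k).d) {𝒜 : Set (Set (HeightOneSpectrum (𝓞 K)))}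
    (hcore : ∀ (K3 : Type u) [Field K3] [NumberField K3] [Algebra K K3],
      ∃ (K4 : Type u) (_ : Field K4) (_ : NumberField K4) (_ : Algebra K K4) (_ : Algebra K3 K4)
        (_ : IsScalarTower K K3 K4), CoreAt K4 𝒜) (s : 𝓞 K) (hs : s ≠ 0) :
    (∀ X : ℝ, (CjBox κ K X).Finite) ∧
    Filter.Tendsto (fun X : ℝ => ({b | b ∈ CjBox κ K X ∧ ¬ GoodR 𝒜 R (fun i => algebraMap (𝓞 K) K (b i) /
      algebraMap (𝓞 K) K s)}.ncard : ℝ) / ((CjBox κ K X).ncard : ℝ)) Filter.atTop (nhds 0) := by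
  classical
  refine conj_of_zbox (K := K) (ι := κ) (fun b => GoodR 𝒜 R (fun i => algebraMap (𝓞 K) K (b i) /
    algebraMap (𝓞 K) K s)) ?_
  intro ε hε
  obtain ⟨H0, h⟩ := aa_int_box R hd hcore s hs ε hε
  exact ⟨H0, h⟩

end Pool.Agent.ORB.AA
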