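import Mathlib

/-! ORB, M1d: elementary sums over primes. -/

namespace Pool.Agent.ORB

/-- comparison of weighted sums from partial sums -/
theorem sum_weight_le {a b w : ℕ → ℝ} (hab : ∀ N, ∑ m ∈ Finset.range N, a m ≤ ∑ m ∈ Finset.range N, b m)
    (hw : Antitone w) (hw0 : ∀ m, 0 ≤ w m) (N : ℕ) :
    ∑ m ∈ Finset.range N, a m * w m ≤ ∑ m ∈ Finset.range N, b m * w m := by
  have key : ∀ N, (∑ m ∈ Finset.range N, b m - ∑ m ∈ Finset.range N, a m) * w N ≤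
      ∑ m ∈ Finset.range N, b m * w m - ∑ m ∈ Finset.range N, a m * w m := by
    intro N
    induction N with
    | zero => simp
    | succ N ih =>
      rw [Finset.sum_range_succ, Finset.sum_range_succ, Finset.sum_range_succ, Finset.sum_range_succ]
      have h1 : w (N + 1) ≤ w N := hw (Nat.le_succ N)
      have h2 : 0 ≤ (∑ m ∈ Finset.range (N + 1), b m - ∑ m ∈ Finset.range (N + 1), a m) := by
        linarith [hab (N + 1)]
      rw [Finset.sum_range_succ, Finset.sum_range_succ] at h2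
      have h3 := mul_le_mul_of_nonneg_left h1 h2
      nlinarith
  have h1 := key N
  have h2 : 0 ≤ (∑ m ∈ Finset.range N, b m - ∑ m ∈ Finset.range N, a m) * w N :=
    mul_nonneg (by linarith [hab N]) (hw0 N)
  linarith

theorem sum_rpow_le {s : ℝ} (hs : 0 < s) (hs1 : s ≤ 1) (N : ℕ) :
    ∑ m ∈ Finset.range N, ((m : ℝ) + 1) ^ (s - 1) ≤ (1 / s) * (N : ℝ) ^ s := by
  induction N with
  | zero => simp [Real.zero_rpow hs.ne']
  | succ N ih =>
    rw [Finset.sum_range_succ]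
    have hN : (0 : ℝ) < (N : ℝ) + 1 := by positivity
    have h1 : (N : ℝ) ^ s ≤ ((N : ℝ) + 1) ^ s * (1 + s * (-1 / ((N : ℝ) + 1))) := by
      have h2 : (N : ℝ) = ((N : ℝ) + 1) * (1 + (-1 / ((N : ℝ) + 1))) := by field_simp; ring
      have h3 : (-1 : ℝ) ≤ -1 / ((N : ℝ) + 1) := by
        rw [le_div_iff₀ hN]; nlinarith [Nat.cast_nonneg (α := ℝ) N]
      have h4 := rpow_one_add_le_one_add_mul_self h3 hs.le hs1
      calc (N : ℝ) ^ s = (((N : ℝ) + 1) * (1 + (-1 / ((N : ℝ) + 1)))) ^ s := by rw [← h2]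
        _ = ((N : ℝ) + 1) ^ s * (1 + (-1 / ((N : ℝ) + 1))) ^ s := by
            rw [Real.mul_rpow hN.le (by linarith)]
        _ ≤ _ := by gcongr
    have h5 : ((N : ℝ) + 1) ^ (s - 1) = ((N : ℝ) + 1) ^ s / ((N : ℝ) + 1) := by
      rw [Real.rpow_sub hN, Real.rpow_one]
    push_cast
    rw [h5]
    have h6 : (1 / s) * (N : ℝ) ^ s ≤ (1 / s) * (((N : ℝ) + 1) ^ s * (1 + s * (-1 / ((N : ℝ) + 1)))) := by
      gcongr
    have h7 : (1 / s) * (((N : ℝ) + 1) ^ s * (1 + s * (-1 / ((N : ℝ) + 1)))) =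
        (1 / s) * ((N : ℝ) + 1) ^ s - ((N : ℝ) + 1) ^ s / ((N : ℝ) + 1) := by
      field_simp
      ring
    linarith

theorem sum_log_prime_le (Y : ℕ) :
    ∑ p ∈ (Finset.Icc 1 Y).filter Nat.Prime, Real.log p ≤ Real.log 4 * Y := by
  have h := Chebyshev.theta_le_log4_mul_x (x := (Y : ℝ)) (by positivity)
  rw [Chebyshev.theta_eq_sum_Icc, Nat.floor_natCast] at h
  refine le_trans (le_of_eq ?_) h
  refine Finset.sum_congr ?_ (fun _ _ => rfl)
  ext p
  simp only [Finset.mem_filter, Finset.mem_Icc]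
  constructor
  · rintro ⟨⟨_, h2⟩, h3⟩; exact ⟨⟨Nat.zero_le _, h2⟩, h3⟩
  · rintro ⟨⟨_, h2⟩, h3⟩; exact ⟨⟨h3.one_lt.le, h2⟩, h3⟩

/-- Chebyshev type bound `∑_{p ≤ Y} log p · p^(s-1) ≤ C Y^s` -/
theorem sum_prime_rpow_le {s : ℝ} (hs : 0 < s) (hs1 : s ≤ 1) (Y : ℕ) :
    ∑ p ∈ (Finset.Icc 1 Y).filter Nat.Prime, Real.log p * (p : ℝ) ^ (s - 1) ≤
      (Real.log 4 / s) * (Y : ℝ) ^ s := by
  have h1 : ∀ (g : ℕ → ℝ) (N : ℕ), ∑ p ∈ (Finset.Icc 1 N).filter Nat.Prime, g p =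
      ∑ m ∈ Finset.range N, if (m + 1).Prime then g (m + 1) else 0 := by
    intro g N
    rw [Finset.sum_filter]
    rw [Finset.range_eq_Ico, Finset.sum_Ico_add' (fun m => if m.Prime then g m else 0) 0 N 1]
    refine Finset.sum_congr ?_ (fun _ _ => rfl)
    ext p; simp only [Finset.mem_Icc, Finset.mem_Ico]; omega
  have h2 := sum_weight_le (a := fun m => if (m + 1).Prime then Real.log ((m + 1 : ℕ) : ℝ) else 0)
    (b := fun _ => Real.log 4) (w := fun m => ((m : ℝ) + 1) ^ (s - 1)) (by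
      intro N
      rw [← h1 (fun p => Real.log (p : ℝ)) N, Finset.sum_const, Finset.card_range, nsmul_eq_mul,
        mul_comm]
      exact sum_log_prime_le N) (by
      intro m m' hmm
      have h3 : ((m : ℝ) + 1) ≤ (m' : ℝ) + 1 := by
        have : (m : ℝ) ≤ m' := by exact_mod_cast hmm
        linarith
      exact Real.rpow_le_rpow_of_nonpos (by positivity) h3 (by linarith)) (by
      intro m; positivity) Y
  rw [h1 (fun p => Real.log (p : ℝ) * (p : ℝ) ^ (s - 1)) Y]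
  have h4 : ∑ m ∈ Finset.range Y, (if (m + 1).Prime then Real.log ((m + 1 : ℕ) : ℝ) *
      ((m + 1 : ℕ) : ℝ) ^ (s - 1) else 0) = ∑ m ∈ Finset.range Y,
      (if (m + 1).Prime then Real.log ((m + 1 : ℕ) : ℝ) else 0) * ((m : ℝ) + 1) ^ (s - 1) := by
    refine Finset.sum_congr rfl (fun m _ => ?_)
    split_ifs
    · push_cast; rfl
    · simp
  rw [h4]
  refine le_trans h2 ?_
  rw [← Finset.mul_sum]
  calc Real.log 4 * ∑ m ∈ Finset.range Y, ((m : ℝ) + 1) ^ (s - 1)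
      ≤ Real.log 4 * ((1 / s) * (Y : ℝ) ^ s) := by
        refine mul_le_mul_of_nonneg_left (sum_rpow_le hs hs1 Y) (Real.log_nonneg (by norm_num))
    _ = _ := by ring

/-- largest `K` with `K^n ≤ Y` -/
theorem exists_root {n : ℕ} (hn : 0 < n) (Y : ℕ) (hY : 1 ≤ Y) : ∃ K : ℕ, 1 ≤ K ∧ K ^ n ≤ Y ∧
    Y < (K + 1) ^ n ∧ ∀ k : ℕ, k ^ n ≤ Y → k ≤ K := by
  set K := Nat.findGreatest (fun k => k ^ n ≤ Y) Y with hK
  have h1 : K ^ n ≤ Y := Nat.findGreatest_spec (P := fun k => k ^ n ≤ Y) (m := 1) (n := Y) (by omega)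
    (by simp; omega)
  have h2 : ∀ k : ℕ, k ^ n ≤ Y → k ≤ K := by
    intro k hk
    exact Nat.le_findGreatest (P := fun k => k ^ n ≤ Y) (le_trans (Nat.le_self_pow (by omega) _) hk) hk
  refine ⟨K, h2 1 (by simp; omega), h1, ?_, h2⟩
  by_contra hcon
  rw [not_lt] at hcon
  have := h2 _ hcon
  omega

end Pool.Agent.ORB
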