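import Mathlib

/-! ORB, module M1: Mertens theorem for number fields. Boxes in the ring of integers. -/

namespace Pool.Agent.ORB

open NumberField Module

section
variable (M : Type*) [Field M] [NumberField M]

/-- index type of an integral basis -/
abbrev Idx := Free.ChooseBasisIndex ℤ (𝓞 M)

/-- the degree of `M` -/
noncomputable def deg : ℕ := Fintype.card (Idx M)

variable {M}

/-- element with given coordinates -/
noncomputable def el (v : Idx M → ℤ) : 𝓞 M := ∑ i, v i • RingOfIntegers.basis M i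

/-- box of integer vectors -/
noncomputable def box (M : Type*) [Field M] [NumberField M] (X : ℕ) : Finset (Idx M → ℤ) :=
  Fintype.piFinset (fun _ => Finset.Icc (-(X : ℤ)) X)

/-- absolute norm of the element -/
noncomputable def nrm (v : Idx M → ℤ) : ℕ := Ideal.absNorm (Ideal.span {el v})

open Classical in
/-- number of points of the box in an ideal -/
noncomputable def cnt (I : Ideal (𝓞 M)) (X : ℕ) : ℕ := ((box M X).filter (fun v => el v ∈ I)).card

theorem deg_pos : 0 < deg M := by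
  unfold deg
  rw [← Module.finrank_eq_card_chooseBasisIndex, RingOfIntegers.rank]
  exact Module.finrank_pos

theorem mem_box {X : ℕ} {v : Idx M → ℤ} : v ∈ box M X ↔ ∀ i, |v i| ≤ (X : ℤ) := by
  simp only [box, Fintype.mem_piFinset, Finset.mem_Icc, abs_le]

theorem card_box (X : ℕ) : (box M X).card = (2 * X + 1) ^ deg M := by
  simp only [box, Fintype.card_piFinset, Int.card_Icc, Finset.prod_const, Finset.card_univ, deg]
  congr 1
  omega

theorem zero_mem_box (X : ℕ) : (0 : Idx M → ℤ) ∈ box M X := by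
  rw [mem_box]; intro i; simp

theorem el_zero : el (0 : Idx M → ℤ) = 0 := by simp [el]

theorem el_add (v w : Idx M → ℤ) : el (v + w) = el v + el w := by
  simp [el, add_smul, Finset.sum_add_distrib]

theorem el_sub (v w : Idx M → ℤ) : el (v - w) = el v - el w := by
  simp [el, sub_smul, Finset.sum_sub_distrib]

theorem el_eq (v : Idx M → ℤ) : el v = (RingOfIntegers.basis M).equivFun.symm v := by
  rw [Basis.equivFun_symm_apply]; rfl

theorem el_injective : Function.Injective (el : (Idx M → ℤ) → 𝓞 M) := by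
  intro v w h
  rw [el_eq, el_eq] at h
  exact (RingOfIntegers.basis M).equivFun.symm.injective h

theorem el_surjective : Function.Surjective (el : (Idx M → ℤ) → 𝓞 M) := by
  intro y
  refine ⟨(RingOfIntegers.basis M).equivFun y, ?_⟩
  rw [el_eq, LinearEquiv.symm_apply_apply]

theorem el_ne_zero {v : Idx M → ℤ} (hv : v ≠ 0) : el v ≠ 0 := by
  rw [← el_zero]; exact fun h => hv (el_injective h)

theorem nrm_ne_zero {v : Idx M → ℤ} (hv : v ≠ 0) : nrm v ≠ 0 := by
  unfold nrm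
  rw [Ne, Ideal.absNorm_eq_zero_iff, Ideal.span_singleton_eq_bot]
  exact el_ne_zero hv

theorem nrm_eq_prod (v : Idx M → ℤ) : (nrm v : ℝ) = ∏ σ : M →+* ℂ, ‖σ (el v)‖ := by
  have h1 := Algebra.norm_eq_prod_embeddings ℚ ℂ ((el v : 𝓞 M) : M)
  have h2 : (nrm v : ℝ) = ‖(algebraMap ℚ ℂ (Algebra.norm ℚ ((el v : 𝓞 M) : M)))‖ := by
    unfold nrm
    rw [Ideal.absNorm_span_singleton, ← Algebra.coe_norm_int]
    simp
  rw [h2, h1, norm_prod]
  exact Fintype.prod_equiv (RingHom.equivRatAlgHom (R := M) (S := ℂ)).symm _ _ (fun σ => rfl)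

/-- prime ideals of `𝓞 M` whose norm is a prime number `≤ Y` -/
noncomputable def P1 (M : Type*) [Field M] [NumberField M] (Y : ℕ) : Finset (Ideal (𝓞 M)) := by
  classical
  exact (Ideal.finite_setOfPred_absNorm_le (S := 𝓞 M) Y).toFinset.filter
    (fun Q => Q.IsPrime ∧ (Ideal.absNorm Q).Prime)

theorem mem_P1 {Y : ℕ} {Q : Ideal (𝓞 M)} :
    Q ∈ P1 M Y ↔ Q.IsPrime ∧ (Ideal.absNorm Q).Prime ∧ Ideal.absNorm Q ≤ Y := by
  simp only [P1, Finset.mem_filter, Set.Finite.mem_toFinset, Set.mem_ofPred_eq]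
  tauto

/-- the set of the other prime ideal powers of norm `≤ Y` -/
def PPset (M : Type*) [Field M] [NumberField M] (Y : ℕ) : Set (Ideal (𝓞 M) × ℕ) :=
  {q | q.1.IsPrime ∧ q.1 ≠ ⊥ ∧ 1 ≤ q.2 ∧ Ideal.absNorm q.1 ^ q.2 ≤ Y ∧
    ¬ (q.2 = 1 ∧ (Ideal.absNorm q.1).Prime)}

theorem finite_PPset (Y : ℕ) : (PPset M Y).Finite := by
  have h1 := (Ideal.finite_setOfPred_absNorm_le (S := 𝓞 M) Y).prod (Set.finite_Iic Y)
  refine h1.subset ?_
  rintro ⟨Q, k⟩ ⟨hp, hb, hk, hle, -⟩
  have h2 : 2 ≤ Ideal.absNorm Q := by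
    have h3 : Ideal.absNorm Q ≠ 0 := by rwa [Ne, Ideal.absNorm_eq_zero_iff]
    have h4 : Ideal.absNorm Q ≠ 1 := by
      rw [Ne, Ideal.absNorm_eq_one_iff]; exact hp.ne_top
    omega
  simp only [Set.mem_prod, Set.mem_ofPred_eq, Set.mem_Iic]
  have h5 : Ideal.absNorm Q ^ k ≤ Y := hle
  have h6 : 1 ≤ k := hk
  constructor
  · exact le_trans (Nat.le_self_pow (by omega) _) h5
  · exact le_trans (le_of_lt (Nat.lt_pow_self (by omega))) h5

/-- the other prime ideal powers of norm `≤ Y` -/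
noncomputable def PP (M : Type*) [Field M] [NumberField M] (Y : ℕ) : Finset (Ideal (𝓞 M) × ℕ) :=
  (finite_PPset (M := M) Y).toFinset

theorem mem_PP {Y : ℕ} {q : Ideal (𝓞 M) × ℕ} :
    q ∈ PP M Y ↔ q.1.IsPrime ∧ q.1 ≠ ⊥ ∧ 1 ≤ q.2 ∧ Ideal.absNorm q.1 ^ q.2 ≤ Y ∧
      ¬ (q.2 = 1 ∧ (Ideal.absNorm q.1).Prime) := by
  simp only [PP, Set.Finite.mem_toFinset, PPset, Set.mem_ofPred_eq]

end

end Pool.Agent.ORB
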