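import Pool.Agent.ORB.CountK
import Pool.Agent.ORB.Box

/-! ORB, Theorem IV: the share of the good residue classes. -/

namespace Pool.Agent.ORB

open NumberField Polynomial

theorem omit_bound' {p : ℕ} [Fact p.Prime] (G : (ZMod p)[X]) (d : ℕ) (hd : 1 ≤ d) (hG : G.natDegree ≤ d)
    (hf : ¬ Function.Injective (fun x : ZMod p => G.eval x)) :
    p - 1 ≤ d * (p - (Finset.univ.image (fun x : ZMod p => G.eval x)).card) := by
  have hp := (Fact.out : p.Prime)
  rcases value_set G hf with h | h
  · exact h.trans (Nat.mul_le_mul_right _ hG)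
  · have h1 : (Finset.univ.image (fun x : ZMod p => G.eval x)).card ≤ 1 := by
      rw [Finset.card_le_one]
      intro a ha b hb
      simp only [Finset.mem_image, Finset.mem_univ, true_and] at ha hb
      obtain ⟨x, rfl⟩ := ha
      obtain ⟨y, rfl⟩ := hb
      rw [eq_C_of_natDegree_eq_zero h]
      simp
    calc p - 1 ≤ p - (Finset.univ.image (fun x : ZMod p => G.eval x)).card := by
          omega
      _ ≤ _ := Nat.le_mul_of_pos_left _ hd

/-- bad residue classes of pairs -/
def PBad {ι : Type*} {p : ℕ} (G : ι → (ZMod p)[X]) (c : ZMod p) (q : ι → ZMod p × ZMod p) : Prop :=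
  ¬ ∀ i, (q i).2 ≠ 0 ∧ ∀ x, (q i).2 * (G i).eval x ≠ c * (q i).1

/-- the share of the good classes -/
noncomputable def dshare {ι : Type*} [Fintype ι] (d : ι → ℕ) : ℝ := ∏ i, (1 / (4 * d i : ℝ))

theorem dshare_pos {ι : Type*} [Fintype ι] (d : ι → ℕ) (hg : ∀ i, 1 ≤ d i) : 0 < dshare d := by
  apply Finset.prod_pos
  intro i _
  have : (1 : ℝ) ≤ d i := by exact_mod_cast hg i
  positivity

theorem dshare_le_one {ι : Type*} [Fintype ι] (d : ι → ℕ) (hg : ∀ i, 1 ≤ d i) : dshare d ≤ 1 := by
  apply Finset.prod_le_one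
  · intro i _
    positivity
  · intro i _
    have : (1 : ℝ) ≤ d i := by exact_mod_cast hg i
    rw [div_le_one (by positivity)]
    linarith

open Classical in
theorem card_pbad_le {ι : Type*} [Fintype ι] {p : ℕ} [Fact p.Prime] (d : ι → ℕ) (hd : ∀ i, 1 ≤ d i)
    (G : ι → (ZMod p)[X]) (hG : ∀ i, (G i).natDegree ≤ d i) (c : ZMod p) (hc0 : c ≠ 0)
    (hf : ∀ i, ¬ Function.Injective (fun x : ZMod p => (G i).eval x)) :
    ((Finset.univ.filter (fun q : ι → ZMod p × ZMod p => PBad G c q)).card : ℝ) ≤
      (1 - dshare d) * ((p : ℝ) ^ 2) ^ Fintype.card ι := by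
  have hp := (Fact.out : p.Prime)
  set good : Finset (ι → ZMod p × ZMod p) := Fintype.piFinset (fun i =>
    Finset.univ.filter (fun q : ZMod p × ZMod p => q.2 ≠ 0 ∧ ∀ x,
      q.2 * (G i).eval x ≠ c * q.1)) with hgood
  have h1 : (Finset.univ.filter (fun q : ι → ZMod p × ZMod p => PBad G c q)) = goodᶜ := by
    ext q
    simp only [Finset.mem_filter, Finset.mem_univ, true_and, hgood, Finset.mem_compl,
      Fintype.mem_piFinset, PBad]
  have h2 : (goodᶜ.card : ℝ) = ((p : ℝ) ^ 2) ^ Fintype.card ι - (good.card : ℝ) := by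
    have h3 := Finset.card_add_card_compl good
    have h4 : Fintype.card (ι → ZMod p × ZMod p) = (p ^ 2) ^ Fintype.card ι := by
      rw [Fintype.card_fun, Fintype.card_prod, ZMod.card, sq]
    rw [h4] at h3
    have h5 : ((good.card : ℝ) + (goodᶜ.card : ℝ)) = ((p : ℝ) ^ 2) ^ Fintype.card ι := by exact_mod_cast h3
    linarith
  have h6 : dshare d * ((p : ℝ) ^ 2) ^ Fintype.card ι ≤ (good.card : ℝ) := by
    have h7 : good.card = ∏ i, (Finset.univ.filter (fun q : ZMod p × ZMod p => q.2 ≠ 0 ∧ ∀ x,
      q.2 * (G i).eval x ≠ c * q.1)).card := by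
      rw [hgood, Fintype.card_piFinset]
    rw [h7, Nat.cast_prod]
    have h8 : dshare d * ((p : ℝ) ^ 2) ^ Fintype.card ι =
        ∏ i, ((1 / (4 * d i : ℝ)) * (p : ℝ) ^ 2) := by
      rw [Finset.prod_mul_distrib, Finset.prod_const, Finset.card_univ]; rfl
    rw [h8]
    apply Finset.prod_le_prod
    · intro i _
      positivity
    · intro i _
      have h9 := card_good_one (G i) c hc0
      have h10 := omit_bound' (G i) (d i) (hd i) (hG i) (hf i)
      set O := p - (Finset.univ.image (fun x : ZMod p => (G i).eval x)).card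
        with hO
      set N := (Finset.univ.filter (fun q : ZMod p × ZMod p => q.2 ≠ 0 ∧ ∀ x,
        q.2 * (G i).eval x ≠ c * q.1)).card with hN
      have hp2 : (2 : ℝ) ≤ p := by exact_mod_cast hp.two_le
      have h11 : ((p : ℝ) - 1) ≤ d i * O := by
        have : ((p - 1 : ℕ) : ℝ) ≤ ((d i * O : ℕ) : ℝ) := by exact_mod_cast h10
        rw [Nat.cast_sub hp.one_le] at this
        push_cast at this
        exact this
      have h12 : (O : ℝ) * ((p : ℝ) - 1) ≤ N := by
        have : ((O * (p - 1) : ℕ) : ℝ) ≤ ((N : ℕ) : ℝ) := by exact_mod_cast h9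
        rw [Nat.cast_mul, Nat.cast_sub hp.one_le] at this
        push_cast at this
        exact this
      have hd1 : (1 : ℝ) ≤ d i := by exact_mod_cast hd i
      have h13 : ((p : ℝ) - 1) ^ 2 ≤ d i * N := by
        calc ((p : ℝ) - 1) ^ 2 = ((p : ℝ) - 1) * ((p : ℝ) - 1) := sq _
          _ ≤ (d i * O) * ((p : ℝ) - 1) :=
              mul_le_mul_of_nonneg_right h11 (by linarith)
          _ = d i * (O * ((p : ℝ) - 1)) := by ring
          _ ≤ d i * N := mul_le_mul_of_nonneg_left h12 (by linarith)
      rw [div_mul_eq_mul_div, one_mul, div_le_iff₀ (by positivity)]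
      nlinarith
  rw [h1, h2]
  linarith

open Classical in
/-- preimages under surjective homomorphisms of finite groups -/
theorem card_preimage_mul {G H : Type*} [AddGroup G] [Fintype G] [AddGroup H] [Fintype H] (Λ : G →+ H)
    (hΛ : Function.Surjective Λ) (B : Finset H) :
    (Finset.univ.filter (fun g => Λ g ∈ B)).card * Fintype.card H = B.card * Fintype.card G := by
  set c0 := (Finset.univ.filter (fun g => Λ g = 0)).card with hc0
  have h1 : ∀ h : H, (Finset.univ.filter (fun g => Λ g = h)).card = c0 := by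
    intro h
    exact AddMonoidHom.card_fiber_eq_of_mem_range Λ (hΛ h) (hΛ 0)
  have h2 : (Finset.univ.filter (fun g => Λ g ∈ B)).card = B.card * c0 := by
    rw [Finset.card_eq_sum_card_fiberwise (s := Finset.univ.filter (fun g => Λ g ∈ B)) (f := Λ) (t := B)
      (fun g hg => (Finset.mem_filter.1 hg).2)]
    rw [Finset.sum_const_nat (m := c0)]
    intro b hb
    rw [← h1 b]
    congr 1
    ext g
    simp only [Finset.mem_filter, Finset.mem_univ, true_and]
    constructor
    · exact fun h => h.2
    · intro h; exact ⟨by rw [h]; exact hb, h⟩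
  have h3 : Fintype.card G = Fintype.card H * c0 := by
    rw [← Finset.card_univ, Finset.card_eq_sum_card_fiberwise (f := Λ) (t := Finset.univ)
      (fun g _ => Finset.mem_coe.2 (Finset.mem_univ _)), Finset.sum_const_nat (m := c0)]
    · rw [Finset.card_univ]
    · intro b _
      exact h1 b
  rw [h2, h3]
  ring

section
variable {K : Type*} [Field K] [NumberField K]

/-- index type of the coordinates of tuples of pairs of integers of `K` -/
abbrev KIdx (ι : Type*) (K : Type*) [Field K] [NumberField K] := ι × (Bool × Idx K)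

/-- the numerator of a vector -/
noncomputable def numK {ι : Type*} (q : KIdx ι K → ℤ) (i : ι) : 𝓞 K := el (fun k => q (i, false, k))

/-- the denominator of a vector -/
noncomputable def denK {ι : Type*} (q : KIdx ι K → ℤ) (i : ι) : 𝓞 K := el (fun k => q (i, true, k))

/-- reduction of the coordinates and of the basis -/
noncomputable def linK {p : ℕ} (φ : 𝓞 K →+* ZMod p) : (Idx K → ZMod p) →+ ZMod p where
  toFun v := ∑ k, v k * φ (RingOfIntegers.basis K k)
  map_zero' := by simp
  map_add' v w := by simp [add_mul, Finset.sum_add_distrib]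

theorem linK_apply {p : ℕ} (φ : 𝓞 K →+* ZMod p) (v : Idx K → ℤ) :
    linK φ (fun k => (v k : ZMod p)) = φ (el v) := by
  show ∑ k, (v k : ZMod p) * φ (RingOfIntegers.basis K k) = _
  rw [el, map_sum]
  refine Finset.sum_congr rfl (fun k _ => ?_)
  rw [zsmul_eq_mul, map_mul, map_intCast]

theorem linK_surjective {p : ℕ} (φ : 𝓞 K →+* ZMod p) : Function.Surjective (linK φ) := by
  intro t
  obtain ⟨v, hv⟩ := el_surjective (M := K) 1
  refine ⟨fun k => t * (v k : ZMod p), ?_⟩
  have h1 := linK_apply φ v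
  rw [hv, map_one] at h1
  show ∑ k, (t * (v k : ZMod p)) * φ (RingOfIntegers.basis K k) = t
  simp only [mul_assoc]
  rw [← Finset.mul_sum]
  have h2 : ∑ k, ((v k : ZMod p) * φ (RingOfIntegers.basis K k)) = 1 := h1
  rw [h2, mul_one]

/-- reduction of a tuple of pairs -/
noncomputable def redK {p : ℕ} (φ : 𝓞 K →+* ZMod p) (ι : Type*) :
    (KIdx ι K → ZMod p) →+ (ι → ZMod p × ZMod p) where
  toFun q i := (linK φ (fun k => q (i, false, k)), linK φ (fun k => q (i, true, k)))
  map_zero' := by
    funext i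
    have : (linK φ (fun _ => (0 : ZMod p))) = 0 := map_zero (linK φ)
    show (linK φ (fun _ => (0 : ZMod p)), linK φ (fun _ => (0 : ZMod p))) = 0
    rw [this]; rfl
  map_add' q r := by
    funext i
    show (linK φ (fun k => q (i, false, k) + r (i, false, k)), linK φ (fun k => q (i, true, k) + r (i, true, k))) = _
    have h1 : linK φ (fun k => q (i, false, k) + r (i, false, k)) =
      linK φ (fun k => q (i, false, k)) + linK φ (fun k => r (i, false, k)) := map_add (linK φ) _ _
    have h2 : linK φ (fun k => q (i, true, k) + r (i, true, k)) =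
      linK φ (fun k => q (i, true, k)) + linK φ (fun k => r (i, true, k)) := map_add (linK φ) _ _
    rw [h1, h2]; rfl

theorem redK_zres {p : ℕ} (φ : 𝓞 K →+* ZMod p) {ι : Type*} (q : KIdx ι K → ℤ) (i : ι) :
    redK φ ι (zres p q) i = (φ (numK q i), φ (denK q i)) := by
  show (linK φ (fun k => zres p q (i, false, k)), linK φ (fun k => zres p q (i, true, k))) = _
  have h1 := linK_apply φ (fun k => q (i, false, k))
  have h2 := linK_apply φ (fun k => q (i, true, k))
  rw [numK, denK, ← h1, ← h2]; rfl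

theorem redK_surjective {p : ℕ} (φ : 𝓞 K →+* ZMod p) (ι : Type*) : Function.Surjective (redK φ ι) := by
  intro t
  choose u hu using linK_surjective φ
  refine ⟨fun q => match q with
    | (i, false, k) => u (t i).1 k
    | (i, true, k) => u (t i).2 k, ?_⟩
  funext i
  show (linK φ (fun k => u (t i).1 k), linK φ (fun k => u (t i).2 k)) = t i
  have h1 : linK φ (fun k => u (t i).1 k) = (t i).1 := hu _
  have h2 : linK φ (fun k => u (t i).2 k) = (t i).2 := hu _
  rw [h1, h2]

open Classical in
theorem card_kbad_le {ι : Type*} [Fintype ι] {p : ℕ} [Fact p.Prime] (φ : 𝓞 K →+* ZMod p) (d : ι → ℕ)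
    (hd : ∀ i, 1 ≤ d i) (G : ι → (ZMod p)[X]) (hG : ∀ i, (G i).natDegree ≤ d i) (c : ZMod p) (hc0 : c ≠ 0)
    (hf : ∀ i, ¬ Function.Injective (fun x : ZMod p => (G i).eval x)) :
    ((Finset.univ.filter (fun q : KIdx ι K → ZMod p => PBad G c (redK φ ι q))).card : ℝ) ≤
      (1 - dshare d) * (p : ℝ) ^ Fintype.card (KIdx ι K) := by
  have hp := (Fact.out : p.Prime)
  have h1 := card_pbad_le d hd G hG c hc0 hf
  have h2 := card_preimage_mul (redK φ ι) (redK_surjective φ ι)
    (Finset.univ.filter (fun q : ι → ZMod p × ZMod p => PBad G c q))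
  have h3 : (Finset.univ.filter (fun q : KIdx ι K → ZMod p => PBad G c (redK φ ι q))).card *
      Fintype.card (ι → ZMod p × ZMod p) =
      (Finset.univ.filter (fun q : ι → ZMod p × ZMod p => PBad G c q)).card *
        Fintype.card (KIdx ι K → ZMod p) := by
    refine Eq.trans ?_ h2
    congr 2
    ext q
    simp only [Finset.mem_filter, Finset.mem_univ, true_and]
  clear h2
  rename' h3 => h2
  have h4 : Fintype.card (ι → ZMod p × ZMod p) = (p ^ 2) ^ Fintype.card ι := by
    rw [Fintype.card_fun, Fintype.card_prod, ZMod.card, sq]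
  have h5 : Fintype.card (KIdx ι K → ZMod p) = p ^ Fintype.card (KIdx ι K) := by
    rw [Fintype.card_fun, ZMod.card]
  rw [h4, h5] at h2
  have h6 : ((Finset.univ.filter (fun q : KIdx ι K → ZMod p => PBad G c (redK φ ι q))).card : ℝ) *
      ((p : ℝ) ^ 2) ^ Fintype.card ι =
      ((Finset.univ.filter (fun q : ι → ZMod p × ZMod p => PBad G c q)).card : ℝ) *
        (p : ℝ) ^ Fintype.card (KIdx ι K) := by exact_mod_cast h2
  have hp0 : (0 : ℝ) < p := by exact_mod_cast hp.pos
  have h7 : (0 : ℝ) < ((p : ℝ) ^ 2) ^ Fintype.card ι := by positivity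
  have h8 : ((Finset.univ.filter (fun q : KIdx ι K → ZMod p => PBad G c (redK φ ι q))).card : ℝ) *
      ((p : ℝ) ^ 2) ^ Fintype.card ι ≤
      ((1 - dshare d) * (p : ℝ) ^ Fintype.card (KIdx ι K)) * ((p : ℝ) ^ 2) ^ Fintype.card ι := by
    rw [h6]
    calc _ ≤ ((1 - dshare d) * ((p : ℝ) ^ 2) ^ Fintype.card ι) * (p : ℝ) ^ Fintype.card (KIdx ι K) :=
          mul_le_mul_of_nonneg_right h1 (by positivity)
      _ = _ := by ring
  exact le_of_mul_le_mul_right h8 h7

end

end Pool.Agent.ORB
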