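import Pool.Agent.ORB.Exps

/-! ORB, M7b: combination of automorphisms with coprime exponents (Chinese remainder theorem). -/

namespace Pool.Agent.ORB

/-- `G` acts on `R`; the points of `R` are divided into blocks stable under `G`; the element `σ j` moves all the
points of block `j`; all `g ^ (E j ^ k)` act trivially on block `j`; the `E j` are pairwise coprime. Then one
element moves all points. -/
theorem combine {G R J : Type*} [Group G] [MulAction G R] [Fintype J] (blk : R → J)
    (hblk : ∀ (g : G) (r : R), blk (g • r) = blk r) (E : J → ℕ)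
    (hE : ∀ i j, i ≠ j → Nat.Coprime (E i) (E j)) (k : ℕ) (H : Subgroup G)
    (hk : ∀ g ∈ H, ∀ r : R, g ^ (E (blk r) ^ k) • r = r) (σ : J → G) (hσH : ∀ j, σ j ∈ H)
    (hσ : ∀ r : R, σ (blk r) • r ≠ r) : ∃ τ ∈ H, ∀ r : R, τ • r ≠ r := by
  classical
  have hcong : ∀ g ∈ H, ∀ r : R, ∀ a b : ℕ, a ≡ b [MOD E (blk r) ^ k] → g ^ a • r = g ^ b • r := by
    intro g hg r a b hab
    have key : ∀ t : ℕ, (g ^ (E (blk r) ^ k)) ^ t • r = r := by
      intro t
      induction t with
      | zero => simp
      | succ t ih =>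
        rw [pow_succ, mul_smul, hk g hg r, ih]
    have h2 : ∀ a : ℕ, g ^ a • r = g ^ (a % (E (blk r) ^ k)) • r := by
      intro a
      conv_lhs => rw [← Nat.mod_add_div a (E (blk r) ^ k)]
      rw [pow_add, mul_smul, pow_mul, key]
    rw [h2 a, h2 b, hab]
  have hc : ∀ j : J, ∃ c : ℕ, c ≡ 1 [MOD E j ^ k] ∧ ∀ i, i ≠ j → c ≡ 0 [MOD E i ^ k] := by
    intro j
    have hco : Nat.Coprime (E j ^ k) (∏ i ∈ Finset.univ.erase j, E i ^ k) := by
      refine Nat.Coprime.prod_right (fun i hi => ?_)
      exact Nat.Coprime.pow _ _ (hE j i (Finset.ne_of_mem_erase hi).symm)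
    obtain ⟨c, hc1, hc2⟩ := Nat.chineseRemainder hco 1 0
    refine ⟨c, hc1, fun i hi => ?_⟩
    exact hc2.of_dvd (Finset.dvd_prod_of_mem (fun i => E i ^ k)
      (Finset.mem_erase.mpr ⟨hi, Finset.mem_univ i⟩))
  choose c hc1 hc2 using hc
  have hl : ∀ l : List J, l.Nodup → ∀ r : R,
      (l.map (fun j => σ j ^ c j)).prod • r = if blk r ∈ l then σ (blk r) • r else r := by
    intro l
    induction l with
    | nil => intro _ r; simp
    | cons a l ih =>
      intro hnd r
      rw [List.nodup_cons] at hnd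
      rw [List.map_cons, List.prod_cons, mul_smul, ih hnd.2 r]
      by_cases ha : blk r = a
      · have h1 : blk r ∉ l := by rw [ha]; exact hnd.1
        rw [if_neg h1, if_pos (by rw [ha]; exact List.mem_cons_self)]
        rw [ha, hcong (σ a) (hσH a) r (c a) 1 (by rw [ha]; exact hc1 a), pow_one]
      · by_cases h1 : blk r ∈ l
        · rw [if_pos h1, if_pos (List.mem_cons_of_mem _ h1)]
          have h2 := hcong (σ a) (hσH a) (σ (blk r) • r) (c a) 0 (by rw [hblk]; exact hc2 a _ ha)
          rw [h2, pow_zero, one_smul]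
        · rw [if_neg h1, if_neg (by rw [List.mem_cons]; tauto)]
          rw [hcong (σ a) (hσH a) r (c a) 0 (hc2 a _ ha), pow_zero, one_smul]
  refine ⟨((Finset.univ : Finset J).toList.map (fun j => σ j ^ c j)).prod, ?_, fun r => ?_⟩
  · refine Subgroup.list_prod_mem _ (fun x hx => ?_)
    rw [List.mem_map] at hx
    obtain ⟨j, -, rfl⟩ := hx
    exact H.pow_mem (hσH j) _
  · rw [hl _ (Finset.nodup_toList _) r, if_pos (by rw [Finset.mem_toList]; exact Finset.mem_univ _)]
    exact hσ r

end Pool.Agent.ORB
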