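import Pool.Agent.ORB.ValueSet

/-! ORB, M10c: the counting argument of Theorem III. -/

namespace Pool.Agent.ORB

open Polynomial

theorem card_modEq_le (a : ℤ) (L m : ℕ) (hm : 0 < m) (v : ℤ) :
    ((Finset.Ioc a (a + L)).filter (fun x => x ≡ v [ZMOD m])).card ≤ L / m + 1 := by
  have h1 := Int.Ioc_filter_modEq_card a (a + L) (r := (m : ℤ)) (by exact_mod_cast hm) v
  have h2 : ((((Finset.Ioc a (a + L)).filter (fun x => x ≡ v [ZMOD m])).card : ℕ) : ℤ) ≤
      ((L / m + 1 : ℕ) : ℤ) := by
    rw [h1]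
    apply max_le
    · have hmq : (0 : ℚ) < m := by exact_mod_cast hm
      have h3 := Int.floor_le (((a + L : ℤ) - v : ℚ) / ((m : ℤ) : ℚ))
      have h4 := Int.lt_floor_add_one (((a : ℤ) - v : ℚ) / ((m : ℤ) : ℚ))
      set F := ⌊(((a + L : ℤ) - v : ℚ) / ((m : ℤ) : ℚ))⌋ with hF
      set G := ⌊(((a : ℤ) - v : ℚ) / ((m : ℤ) : ℚ))⌋ with hG
      have h5 : ((F - G - 1 : ℤ) : ℚ) * m < L := by
        rw [le_div_iff₀ (by exact_mod_cast hm)] at h3
        rw [div_lt_iff₀ (by exact_mod_cast hm)] at h4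
        push_cast at h3 h4 ⊢
        nlinarith
      have h6 : (F - G - 1) * m < L := by exact_mod_cast h5
      have h7 : F - G - 1 ≤ (L : ℤ) / m := by
        rw [Int.le_ediv_iff_mul_le (by exact_mod_cast hm)]
        exact h6.le
      push_cast
      linarith
    · positivity
  exact_mod_cast h2

/-- pairs `(a, b)` modulo `p`, `b` a unit, such that `b G(x) = c a` has no solution -/
theorem card_good_one {p : ℕ} [Fact p.Prime] (G : (ZMod p)[X]) (c : ZMod p) (hc : c ≠ 0) :
    (p - (Finset.univ.image (fun x : ZMod p => G.eval x)).card) * (p - 1) ≤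
      (Finset.univ.filter (fun q : ZMod p × ZMod p => q.2 ≠ 0 ∧ ∀ x, q.2 * G.eval x ≠ c * q.1)).card := by
  classical
  have h1 : ((Finset.univ.image (fun x : ZMod p => G.eval x))ᶜ ×ˢ ({0}ᶜ : Finset (ZMod p))).card =
      (p - (Finset.univ.image (fun x : ZMod p => G.eval x)).card) * (p - 1) := by
    rw [Finset.card_product, Finset.card_compl, Finset.card_compl, ZMod.card, Finset.card_singleton]
  rw [← h1]
  apply Finset.card_le_card_of_injOn (fun z => (z.2 * z.1 / c, z.2))
  · rintro ⟨u, b⟩ h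
    simp only [Finset.coe_product, Set.mem_prod, Finset.mem_coe, Finset.mem_compl, Finset.mem_image,
      Finset.mem_univ, true_and, Finset.mem_singleton, not_exists] at h
    simp only [Finset.coe_filter, Finset.mem_univ, true_and, Set.mem_ofPred_eq]
    refine ⟨h.2, fun x hx => h.1 x ?_⟩
    rw [mul_div_cancel₀ _ hc] at hx
    exact mul_left_cancel₀ h.2 hx
  · rintro ⟨u, b⟩ h ⟨u', b'⟩ h' heq
    simp only [Finset.coe_product, Set.mem_prod, Finset.mem_coe, Finset.mem_compl, Finset.mem_image,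
      Finset.mem_univ, true_and, Finset.mem_singleton, not_exists] at h h'
    simp only [Prod.mk.injEq] at heq
    obtain ⟨h3, h4⟩ := heq
    subst h4
    rw [div_left_inj' hc] at h3
    rw [mul_left_cancel₀ h.2 h3]

/-- lower bound for the number of the omitted values -/
theorem omit_bound {p : ℕ} [Fact p.Prime] (g : ℤ[X])
    (hg : 1 ≤ g.natDegree)
    (hf : ¬ Function.Injective (fun x : ZMod p => (g.map (Int.castRingHom (ZMod p))).eval x)) :
    p - 1 ≤ g.natDegree *
      (p - (Finset.univ.image (fun x : ZMod p => (g.map (Int.castRingHom (ZMod p))).eval x)).card) := by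
  have hp := (Fact.out : p.Prime)
  rcases value_set (g.map (Int.castRingHom (ZMod p))) hf with h | h
  · exact h.trans (Nat.mul_le_mul_right _ natDegree_map_le)
  · have h1 : (Finset.univ.image (fun x : ZMod p => (g.map (Int.castRingHom (ZMod p))).eval x)).card ≤ 1 := by
      rw [Finset.card_le_one]
      intro a ha b hb
      simp only [Finset.mem_image, Finset.mem_univ, true_and] at ha hb
      obtain ⟨x, rfl⟩ := ha
      obtain ⟨y, rfl⟩ := hb
      rw [eq_C_of_natDegree_eq_zero h]
      simp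
    calc p - 1 ≤ p - (Finset.univ.image (fun x : ZMod p => (g.map (Int.castRingHom (ZMod p))).eval x)).card := by
          omega
      _ ≤ _ := Nat.le_mul_of_pos_left _ hg

/-- the bad residues modulo `p` -/
def IsBad {ι : Type} (g : ι → ℤ[X]) (c : ℤ) (p : ℕ) (q : ι → ZMod p × ZMod p) : Prop :=
  ¬ ∀ i, (q i).2 ≠ 0 ∧ ∀ x, (q i).2 * ((g i).map (Int.castRingHom (ZMod p))).eval x ≠ (c : ZMod p) * (q i).1

/-- the share of the good residues -/
noncomputable def dlt {ι : Type} [Fintype ι] (g : ι → ℤ[X]) : ℝ := ∏ i, (1 / (4 * (g i).natDegree : ℝ))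

theorem dlt_pos {ι : Type} [Fintype ι] (g : ι → ℤ[X]) (hg : ∀ i, 1 ≤ (g i).natDegree) : 0 < dlt g := by
  apply Finset.prod_pos
  intro i _
  have : (1 : ℝ) ≤ (g i).natDegree := by exact_mod_cast hg i
  positivity

theorem dlt_le_one {ι : Type} [Fintype ι] (g : ι → ℤ[X]) (hg : ∀ i, 1 ≤ (g i).natDegree) : dlt g ≤ 1 := by
  apply Finset.prod_le_one
  · intro i _
    positivity
  · intro i _
    have : (1 : ℝ) ≤ (g i).natDegree := by exact_mod_cast hg i
    rw [div_le_one (by positivity)]
    linarith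

open Classical in
theorem card_bad_le {ι : Type} [Fintype ι] (g : ι → ℤ[X]) (hg : ∀ i, 1 ≤ (g i).natDegree) (c : ℤ) {p : ℕ}
    [Fact p.Prime] (hc : ¬ ((p : ℤ) ∣ c))
    (hf : ∀ i, ¬ Function.Injective (fun x : ZMod p => ((g i).map (Int.castRingHom (ZMod p))).eval x)) :
    ((Finset.univ.filter (fun q : ι → ZMod p × ZMod p => IsBad g c p q)).card : ℝ) ≤
      (1 - dlt g) * ((p : ℝ) ^ 2) ^ Fintype.card ι := by
  have hp := (Fact.out : p.Prime)
  have hc0 : (c : ZMod p) ≠ 0 := by
    rw [Ne, ZMod.intCast_zmod_eq_zero_iff_dvd]; exact hc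
  set good : Finset (ι → ZMod p × ZMod p) := Fintype.piFinset (fun i =>
    Finset.univ.filter (fun q : ZMod p × ZMod p => q.2 ≠ 0 ∧ ∀ x,
      q.2 * ((g i).map (Int.castRingHom (ZMod p))).eval x ≠ (c : ZMod p) * q.1)) with hgood
  have h1 : (Finset.univ.filter (fun q : ι → ZMod p × ZMod p => IsBad g c p q)) = goodᶜ := by
    ext q
    simp only [Finset.mem_filter, Finset.mem_univ, true_and, hgood, Finset.mem_compl,
      Fintype.mem_piFinset, IsBad]
  have h2 : (goodᶜ.card : ℝ) = ((p : ℝ) ^ 2) ^ Fintype.card ι - (good.card : ℝ) := by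
    have h3 := Finset.card_add_card_compl good
    have h4 : Fintype.card (ι → ZMod p × ZMod p) = (p ^ 2) ^ Fintype.card ι := by
      rw [Fintype.card_fun, Fintype.card_prod, ZMod.card, sq]
    rw [h4] at h3
    have h5 : ((good.card : ℝ) + (goodᶜ.card : ℝ)) = ((p : ℝ) ^ 2) ^ Fintype.card ι := by exact_mod_cast h3
    linarith
  have h6 : dlt g * ((p : ℝ) ^ 2) ^ Fintype.card ι ≤ (good.card : ℝ) := by
    have h7 : good.card = ∏ i, (Finset.univ.filter (fun q : ZMod p × ZMod p => q.2 ≠ 0 ∧ ∀ x,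
      q.2 * ((g i).map (Int.castRingHom (ZMod p))).eval x ≠ (c : ZMod p) * q.1)).card := by
      rw [hgood, Fintype.card_piFinset]
    rw [h7, Nat.cast_prod]
    have h8 : dlt g * ((p : ℝ) ^ 2) ^ Fintype.card ι =
        ∏ i, ((1 / (4 * (g i).natDegree : ℝ)) * (p : ℝ) ^ 2) := by
      rw [Finset.prod_mul_distrib, Finset.prod_const, Finset.card_univ]; rfl
    rw [h8]
    apply Finset.prod_le_prod
    · intro i _
      positivity
    · intro i _
      have h9 := card_good_one ((g i).map (Int.castRingHom (ZMod p))) (c : ZMod p) hc0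
      have h10 := omit_bound (g i) (hg i) (hf i)
      set O := p - (Finset.univ.image (fun x : ZMod p => ((g i).map (Int.castRingHom (ZMod p))).eval x)).card
        with hO
      set N := (Finset.univ.filter (fun q : ZMod p × ZMod p => q.2 ≠ 0 ∧ ∀ x,
        q.2 * ((g i).map (Int.castRingHom (ZMod p))).eval x ≠ (c : ZMod p) * q.1)).card with hN
      have hp2 : (2 : ℝ) ≤ p := by exact_mod_cast hp.two_le
      have h11 : ((p : ℝ) - 1) ≤ (g i).natDegree * O := by
        have : ((p - 1 : ℕ) : ℝ) ≤ (((g i).natDegree * O : ℕ) : ℝ) := by exact_mod_cast h10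
        rw [Nat.cast_sub hp.one_le] at this
        push_cast at this
        exact this
      have h12 : (O : ℝ) * ((p : ℝ) - 1) ≤ N := by
        have : ((O * (p - 1) : ℕ) : ℝ) ≤ ((N : ℕ) : ℝ) := by exact_mod_cast h9
        rw [Nat.cast_mul, Nat.cast_sub hp.one_le] at this
        push_cast at this
        exact this
      have hd : (1 : ℝ) ≤ (g i).natDegree := by exact_mod_cast hg i
      have h13 : ((p : ℝ) - 1) ^ 2 ≤ (g i).natDegree * N := by
        calc ((p : ℝ) - 1) ^ 2 = ((p : ℝ) - 1) * ((p : ℝ) - 1) := sq _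
          _ ≤ ((g i).natDegree * O) * ((p : ℝ) - 1) :=
              mul_le_mul_of_nonneg_right h11 (by linarith)
          _ = (g i).natDegree * (O * ((p : ℝ) - 1)) := by ring
          _ ≤ (g i).natDegree * N := mul_le_mul_of_nonneg_left h12 (by linarith)
      rw [div_mul_eq_mul_div, one_mul, div_le_iff₀ (by positivity)]
      nlinarith
  rw [h1, h2]
  linarith

open Classical in
/-- the box of numerators `|a_i| ≤ H` and denominators `1 ≤ b_i ≤ H` -/
noncomputable def qbox (ι : Type) [Fintype ι] (H : ℕ) : Finset (ι → ℤ × ℤ) :=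
  Fintype.piFinset (fun _ => (Finset.Icc (-(H : ℤ)) H) ×ˢ (Finset.Icc (1 : ℤ) H))

open Classical in
theorem card_qbox (ι : Type) [Fintype ι] (H : ℕ) : (qbox ι H).card = ((2 * H + 1) * H) ^ Fintype.card ι := by
  rw [qbox, Fintype.card_piFinset, Finset.prod_const, Finset.card_univ, Finset.card_product, Int.card_Icc,
    Int.card_Icc]
  congr 1
  congr 1
  · omega
  · omega

/-- residue of a tuple of pairs -/
def res {ι : Type} (p : ℕ) (q : ι → ℤ × ℤ) : ι → ZMod p × ZMod p :=
  fun i => (((q i).1 : ZMod p), ((q i).2 : ZMod p))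

open Classical in
theorem card_all_bad_le {ι : Type} [Fintype ι] (s : Finset ℕ) (hs : ∀ p ∈ s, p.Prime)
    (Bad : ∀ p : ℕ, Finset (ι → ZMod p × ZMod p)) (H : ℕ) :
    ((qbox ι H).filter (fun q => ∀ p ∈ s, res p q ∈ Bad p)).card ≤
      (((2 * H + 1) / (∏ p ∈ s, p) + 1) * (H / (∏ p ∈ s, p) + 1)) ^ Fintype.card ι *
        ∏ p ∈ s, (Bad p).card := by
  set m := ∏ p ∈ s, p with hm
  have hm0 : 0 < m := Finset.prod_pos (fun p hp => (hs p hp).pos)
  have hcop : ∀ x y : ℤ, (∀ p ∈ s, (x : ZMod p) = (y : ZMod p)) → x ≡ y [ZMOD m] := by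
    intro x y h
    rw [Int.modEq_iff_dvd, hm, Nat.cast_prod]
    apply Finset.prod_dvd_of_coprime
    · intro p hp p' hp' hne
      show IsCoprime (p : ℤ) (p' : ℤ)
      rw [Nat.isCoprime_iff_coprime]
      exact (Nat.coprime_primes (hs p hp) (hs p' hp')).2 hne
    · intro p hp
      have := h p hp
      rw [ZMod.intCast_eq_intCast_iff_dvd_sub] at this
      exact this
  have hprod : ∏ p ∈ s, (Bad p).card = (Fintype.piFinset (fun p : s => Bad p)).card := by
    rw [Fintype.card_piFinset, Finset.prod_coe_sort s (fun p => (Bad p).card)]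
  rw [hprod]
  apply Finset.card_le_mul_card_image_of_maps_to (f := fun q => (fun p : s => res (p : ℕ) q))
  · intro q hq
    rw [Finset.mem_filter] at hq
    rw [Fintype.mem_piFinset]
    intro p
    exact hq.2 p p.2
  · intro b _
    rcases Finset.eq_empty_or_nonempty
      (((qbox ι H).filter (fun q => ∀ p ∈ s, res p q ∈ Bad p)).filter
        (fun q => (fun p : s => res (p : ℕ) q) = b)) with h0 | ⟨q0, hq0⟩
    · rw [h0, Finset.card_empty]
      exact Nat.zero_le _
    · have hsub : (((qbox ι H).filter (fun q => ∀ p ∈ s, res p q ∈ Bad p)).filter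
        (fun q => (fun p : s => res (p : ℕ) q) = b)) ⊆ Fintype.piFinset (fun i =>
          ((Finset.Ioc (-(H : ℤ) - 1) ((-(H : ℤ) - 1) + (2 * H + 1 : ℕ))).filter
            (fun x => x ≡ (q0 i).1 [ZMOD m])) ×ˢ
          ((Finset.Ioc (0 : ℤ) (0 + (H : ℕ))).filter (fun x => x ≡ (q0 i).2 [ZMOD m]))) := by
        intro q hq
        rw [Finset.mem_filter, Finset.mem_filter] at hq hq0
        rw [Fintype.mem_piFinset]
        intro i
        have hqb := hq.1.1
        rw [qbox, Fintype.mem_piFinset] at hqb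
        have hqi := hqb i
        rw [Finset.mem_product, Finset.mem_Icc, Finset.mem_Icc] at hqi
        have heq : ∀ p ∈ s, res p q i = res p q0 i := by
          intro p hp
          have h1 := congrFun (hq.2.trans hq0.2.symm) ⟨p, hp⟩
          exact congrFun h1 i
        rw [Finset.mem_product, Finset.mem_filter, Finset.mem_filter, Finset.mem_Ioc, Finset.mem_Ioc]
        refine ⟨⟨⟨by linarith [hqi.1.1], by push_cast; linarith [hqi.1.2]⟩, ?_⟩,
          ⟨by linarith [hqi.2.1], by linarith [hqi.2.2]⟩, ?_⟩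
        · exact hcop _ _ (fun p hp => (Prod.mk.inj (heq p hp)).1)
        · exact hcop _ _ (fun p hp => (Prod.mk.inj (heq p hp)).2)
      refine (Finset.card_le_card hsub).trans ?_
      rw [Fintype.card_piFinset]
      refine (Finset.prod_le_prod (fun _ _ => Nat.zero_le _) (fun i _ => ?_)).trans
        (le_of_eq (by rw [Finset.prod_const, Finset.card_univ]))
      rw [Finset.card_product]
      exact Nat.mul_le_mul (card_modEq_le _ _ _ hm0 _) (card_modEq_le _ _ _ hm0 _)

end Pool.Agent.ORB
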