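import Pool.Agent.ORB.Count3

/-! ORB, Theorem IV: the counting argument, for integral vectors in a box. -/

namespace Pool.Agent.ORB

/-- integral vectors with coordinates of size at most `H` -/
noncomputable def zbox (κ : Type*) [Fintype κ] (H : ℕ) : Finset (κ → ℤ) := by
  classical
  exact Fintype.piFinset (fun _ => Finset.Icc (-(H : ℤ)) H)

theorem mem_zbox {κ : Type*} [Fintype κ] {H : ℕ} {q : κ → ℤ} : q ∈ zbox κ H ↔ ∀ k, |q k| ≤ (H : ℤ) := by
  classical
  simp only [zbox, Fintype.mem_piFinset, Finset.mem_Icc, abs_le]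

theorem card_zbox (κ : Type*) [Fintype κ] (H : ℕ) : (zbox κ H).card = (2 * H + 1) ^ Fintype.card κ := by
  classical
  rw [zbox, Fintype.card_piFinset, Finset.prod_const, Finset.card_univ, Int.card_Icc]
  congr 1
  omega

/-- residue of a vector -/
def zres {κ : Type*} (p : ℕ) (q : κ → ℤ) : κ → ZMod p := fun k => (q k : ZMod p)

open Classical in
theorem card_all_bad_zbox {κ : Type*} [Fintype κ] (s : Finset ℕ) (hs : ∀ p ∈ s, p.Prime)
    (Bad : ∀ p : ℕ, Finset (κ → ZMod p)) (H : ℕ) :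
    ((zbox κ H).filter (fun q => ∀ p ∈ s, zres p q ∈ Bad p)).card ≤
      ((2 * H + 1) / (∏ p ∈ s, p) + 1) ^ Fintype.card κ * ∏ p ∈ s, (Bad p).card := by
  set m := ∏ p ∈ s, p with hm
  have hm0 : 0 < m := Finset.prod_pos (fun p hp => (hs p hp).pos)
  have hcop : ∀ x y : ℤ, (∀ p ∈ s, (x : ZMod p) = (y : ZMod p)) → x ≡ y [ZMOD m] := by
    intro x y h
    rw [Int.modEq_iff_dvd, hm, Nat.cast_prod]
    apply Finset.prod_dvd_of_coprime
    · intro p hp p' hp' hne
      show IsCoprime (p : ℤ) (p' : ℤ)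
      rw [Nat.isCoprime_iff_coprime]
      exact (Nat.coprime_primes (hs p hp) (hs p' hp')).2 hne
    · intro p hp
      have := h p hp
      rw [ZMod.intCast_eq_intCast_iff_dvd_sub] at this
      exact this
  have hprod : ∏ p ∈ s, (Bad p).card = (Fintype.piFinset (fun p : s => Bad p)).card := by
    rw [Fintype.card_piFinset, Finset.prod_coe_sort s (fun p => (Bad p).card)]
  rw [hprod]
  apply Finset.card_le_mul_card_image_of_maps_to (f := fun q => (fun p : s => zres (p : ℕ) q))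
  · intro q hq
    rw [Finset.mem_filter] at hq
    rw [Fintype.mem_piFinset]
    intro p
    exact hq.2 p p.2
  · intro b _
    rcases Finset.eq_empty_or_nonempty
      (((zbox κ H).filter (fun q => ∀ p ∈ s, zres p q ∈ Bad p)).filter
        (fun q => (fun p : s => zres (p : ℕ) q) = b)) with h0 | ⟨q0, hq0⟩
    · rw [h0, Finset.card_empty]
      exact Nat.zero_le _
    · have hsub : (((zbox κ H).filter (fun q => ∀ p ∈ s, zres p q ∈ Bad p)).filter
        (fun q => (fun p : s => zres (p : ℕ) q) = b)) ⊆ Fintype.piFinset (fun i =>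
          ((Finset.Ioc (-(H : ℤ) - 1) ((-(H : ℤ) - 1) + (2 * H + 1 : ℕ))).filter
            (fun x => x ≡ q0 i [ZMOD m]))) := by
        intro q hq
        rw [Finset.mem_filter, Finset.mem_filter] at hq hq0
        rw [Fintype.mem_piFinset]
        intro i
        have hqi := abs_le.1 (mem_zbox.1 hq.1.1 i)
        have heq : ∀ p ∈ s, zres p q i = zres p q0 i := by
          intro p hp
          have h1 := congrFun (hq.2.trans hq0.2.symm) ⟨p, hp⟩
          exact congrFun h1 i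
        rw [Finset.mem_filter, Finset.mem_Ioc]
        exact ⟨⟨by linarith [hqi.1], by push_cast; linarith [hqi.2]⟩, hcop _ _ (fun p hp => heq p hp)⟩
      refine (Finset.card_le_card hsub).trans ?_
      rw [Fintype.card_piFinset]
      refine (Finset.prod_le_prod (fun _ _ => Nat.zero_le _) (fun i _ => ?_)).trans
        (le_of_eq (by rw [Finset.prod_const, Finset.card_univ]))
      exact card_modEq_le _ _ _ hm0 _

open Classical in
/-- if for infinitely many primes a residue class mod `p` is good with probability at least `δ`, almost all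
vectors are good -/
theorem count_main {κ : Type*} [Fintype κ] (S : Set ℕ) (hSinf : S.Infinite) (hSp : ∀ p ∈ S, p.Prime)
    (δ : ℝ) (hδ0 : 0 < δ) (hδ1 : δ ≤ 1) (Bad : ∀ p : ℕ, Finset (κ → ZMod p))
    (hBad : ∀ p ∈ S, ((Bad p).card : ℝ) ≤ (1 - δ) * (p : ℝ) ^ Fintype.card κ)
    (Good : (κ → ℤ) → Prop) (hGood : ∀ p ∈ S, ∀ q, zres p q ∉ Bad p → Good q) :
    ∀ ε : ℝ, 0 < ε → ∃ H0 : ℕ, ∀ H : ℕ, H0 ≤ H →
      (((zbox κ H).filter (fun q => ¬ Good q)).card : ℝ) ≤ ε * (zbox κ H).card := by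
  intro ε hε
  set N := Fintype.card κ with hN
  obtain ⟨r, hr⟩ := exists_pow_lt_of_lt_one (y := 1 - δ) (x := ε / 2 ^ N) (by positivity) (by linarith)
  obtain ⟨s, hsS, hsr⟩ := hSinf.exists_subset_card_eq r
  have hs : ∀ p ∈ s, p.Prime := fun p hp => hSp p (hsS hp)
  set m := ∏ p ∈ s, p with hm
  have hm0 : 0 < m := Finset.prod_pos (fun p hp => (hs p hp).pos)
  refine ⟨m, fun H hH => ?_⟩
  have hmH : (1 : ℝ) ≤ m := by exact_mod_cast hm0
  have hHR : (m : ℝ) ≤ H := by exact_mod_cast hH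
  have hsub : ((zbox κ H).filter (fun q => ¬ Good q)) ⊆
      (zbox κ H).filter (fun q => ∀ p ∈ s, zres p q ∈ Bad p) := by
    intro q hq
    rw [Finset.mem_filter] at hq ⊢
    refine ⟨hq.1, fun p hp => ?_⟩
    by_contra hnot
    exact hq.2 (hGood p (hsS hp) q hnot)
  have h2 := (Finset.card_le_card hsub).trans (card_all_bad_zbox s hs Bad H)
  have h4 : ((∏ p ∈ s, (Bad p).card : ℕ) : ℝ) ≤ (1 - δ) ^ r * (m : ℝ) ^ N := by
    rw [Nat.cast_prod]
    calc ∏ p ∈ s, ((Bad p).card : ℝ) ≤ ∏ p ∈ s, ((1 - δ) * (p : ℝ) ^ N) :=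
          Finset.prod_le_prod (fun _ _ => Nat.cast_nonneg _) (fun p hp => hBad p (hsS hp))
      _ = (1 - δ) ^ r * (m : ℝ) ^ N := by
          rw [Finset.prod_mul_distrib, Finset.prod_const, hsr, hm, Finset.prod_pow, Nat.cast_prod]
  have h5 : (((2 * H + 1) / m + 1 : ℕ) : ℝ) * m ≤ 2 * (2 * H + 1) := by
    have h6 : (((2 * H + 1) / m : ℕ) : ℝ) * m ≤ 2 * H + 1 := by exact_mod_cast Nat.div_mul_le_self _ _
    push_cast at h6 ⊢
    nlinarith
  have h8 : (((zbox κ H).filter (fun q => ¬ Good q)).card : ℝ) ≤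
      (((2 * H + 1) / m + 1 : ℕ) : ℝ) ^ N * ((∏ p ∈ s, (Bad p).card : ℕ) : ℝ) := by
    exact_mod_cast h2
  refine h8.trans ?_
  calc (((2 * H + 1) / m + 1 : ℕ) : ℝ) ^ N * ((∏ p ∈ s, (Bad p).card : ℕ) : ℝ)
      ≤ (((2 * H + 1) / m + 1 : ℕ) : ℝ) ^ N * ((1 - δ) ^ r * (m : ℝ) ^ N) :=
        mul_le_mul_of_nonneg_left h4 (by positivity)
    _ = (1 - δ) ^ r * ((((2 * H + 1) / m + 1 : ℕ) : ℝ) * (m : ℝ)) ^ N := by
        rw [mul_pow]; ring
    _ ≤ (1 - δ) ^ r * (2 * (2 * H + 1)) ^ N := by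
        apply mul_le_mul_of_nonneg_left
        · exact pow_le_pow_left₀ (by positivity) h5 N
        · exact pow_nonneg (by linarith) _
    _ ≤ (ε / 2 ^ N) * (2 * (2 * H + 1)) ^ N :=
        mul_le_mul_of_nonneg_right hr.le (by positivity)
    _ = ε * ((zbox κ H).card : ℝ) := by
        rw [card_zbox, ← hN, mul_pow]
        push_cast
        field_simp

end Pool.Agent.ORB
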