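import Mathlib

/-! ORB: definitions for the problem (orbit collisions modulo primes). -/

namespace Pool.Agent.ORB

open NumberField IsDedekindDomain Polynomial

universe u

section
variable {K : Type u} [Field K] [NumberField K]

/-- the point `x` of `P^1(K)` (with `OnePoint K = K ∪ {∞}`) reduces to `∞` modulo `v` -/
def RedInfty (v : HeightOneSpectrum (𝓞 K)) (x : OnePoint K) : Prop :=
  ∀ a : K, x = (a : OnePoint K) → 1 < v.valuation K a

/-- `x` and `y` have the same reduction modulo `v` -/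
def SameRed (v : HeightOneSpectrum (𝓞 K)) (x y : OnePoint K) : Prop :=
  (RedInfty v x ∧ RedInfty v y) ∨
    ∃ a b : K, x = (a : OnePoint K) ∧ y = (b : OnePoint K) ∧
      v.valuation K a ≤ 1 ∧ v.valuation K b ≤ 1 ∧ v.valuation K (a - b) < 1

/-- action of a nonconstant polynomial on `P^1(K)` -/
def act (f : K[X]) : OnePoint K → OnePoint K := OnePoint.map (fun a => f.eval a)

/-- the set of the primes `v` such that `f_i^n(α_i)` and `β_i` have different reductions for all `i`, `n` -/
def AvoidSet {ι : Type*} (f : ι → K[X]) (α β : ι → OnePoint K) : Set (HeightOneSpectrum (𝓞 K)) :=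
  {v | ∀ i, ∀ n : ℕ, ¬ SameRed v ((act (f i))^[n] (α i)) (β i)}

/-- positive lower natural density, primes ordered by their norm -/
def PosDensity (S : Set (HeightOneSpectrum (𝓞 K))) : Prop :=
  ∃ c : ℝ, 0 < c ∧ ∃ x0 : ℕ, ∀ x : ℕ, x0 ≤ x →
    c * ({v : HeightOneSpectrum (𝓞 K) | Ideal.absNorm v.asIdeal ≤ x}.ncard : ℝ) ≤
      ({v : HeightOneSpectrum (𝓞 K) | v ∈ S ∧ Ideal.absNorm v.asIdeal ≤ x}.ncard : ℝ)

/-- `F` has a root modulo `v` -/
def HasRoot (v : HeightOneSpectrum (𝓞 K)) (F : K[X]) : Prop :=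
  ∃ x : K, v.valuation K x ≤ 1 ∧ v.valuation K (F.eval x) < 1

/-- the orbit of `b` is infinite -/
def Wandering (f : K[X]) (b : K) : Prop :=
  Function.Injective (fun n : ℕ => (fun x => f.eval x)^[n] b)

/-- `b` is not periodic modulo `v` -/
def NonPer (v : HeightOneSpectrum (𝓞 K)) (f : K[X]) (b : K) : Prop :=
  ∀ m : ℕ, 1 ≤ m → 1 ≤ v.valuation K ((fun x => f.eval x)^[m] b - b)

/-- `v` does not divide any number of the finite set `bad` -/
def Off (v : HeightOneSpectrum (𝓞 K)) (bad : Finset ℕ) : Prop :=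
  ∀ m ∈ bad, m ≠ 0 → v.valuation K (m : K) = 1

end

end Pool.Agent.ORB
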