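import Mathlib

/-!
ORB, second kind of blocks: an element of infinite order of a number field is not a high power in any
cyclotomic extension.
-/

namespace Pool.Agent.ORB

open NumberField

universe u v

/-- an integral multiple -/
theorem exists_nat_mul_integral {K : Type*} [Field K] [NumberField K] (c : K) :
    ∃ m : ℕ, m ≠ 0 ∧ IsIntegral ℤ ((m : K) * c) := by
  have halg : IsAlgebraic ℤ c := by
    have := Algebra.IsAlgebraic.isAlgebraic (R := ℚ) c
    exact (IsFractionRing.isAlgebraic_iff ℤ ℚ K).2 this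
  obtain ⟨y, hy, hint⟩ := halg.exists_integral_multiple
  refine ⟨y.natAbs, Int.natAbs_ne_zero.2 hy, ?_⟩
  rcases Int.natAbs_eq y with h | h
  · rw [h] at hint
    simpa [zsmul_eq_mul] using hint
  · rw [h] at hint
    have := hint.neg
    simpa [zsmul_eq_mul] using this

/-- (D) an infinitely divisible element is a root of unity -/
theorem torsion_of_divisible {K : Type*} [Field K] [NumberField K] (y : K) (hy : y ≠ 0) {l : ℕ}
    (hl : 2 ≤ l) (h : ∀ M0 : ℕ, ∃ M, M0 ≤ M ∧ ∃ z : K, z ^ (l ^ M) = y) :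
    ∃ n : ℕ, 0 < n ∧ y ^ n = 1 := by
  classical
  obtain ⟨D, hD, hDy⟩ := exists_nat_mul_integral y
  have hDK : (D : K) ≠ 0 := by exact_mod_cast hD
  set C : ℝ := D * (1 + ∑ σ : K →+* ℂ, ‖σ y‖) with hC
  have hfin := NumberField.Embeddings.finite_of_norm_le K ℂ C
  set S : Set ℕ := {M | ∃ z : K, z ^ (l ^ M) = y} with hS
  have hSinf : S.Infinite := by
    refine Set.infinite_of_forall_exists_gt fun M0 => ?_
    obtain ⟨M, hM, hz⟩ := h (M0 + 1)
    exact ⟨M, hz, by omega⟩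
  have hch : ∀ M : ℕ, ∃ z : K, M ∈ S → z ^ (l ^ M) = y := by
    intro M
    by_cases hM : M ∈ S
    · obtain ⟨z, hz⟩ := hM
      exact ⟨z, fun _ => hz⟩
    · exact ⟨0, fun h => absurd h hM⟩
  choose z hz using hch
  have hmaps : Set.MapsTo (fun M => (D : K) * z M) S
      {x : K | IsIntegral ℤ x ∧ ∀ φ : K →+* ℂ, ‖φ x‖ ≤ C} := by
    intro M hM
    have hzM := hz M hM
    have hn : 0 < l ^ M := Nat.pow_pos (by omega)
    refine ⟨?_, fun φ => ?_⟩
    · apply IsIntegral.of_pow hn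
      obtain ⟨k, hk⟩ : ∃ k, l ^ M = k + 1 := ⟨l ^ M - 1, by omega⟩
      have h1 : ((D : K) * z M) ^ (l ^ M) = (D : K) ^ k * ((D : K) * y) := by
        rw [mul_pow, hzM]
        rw [hk, pow_succ]
        ring
      change IsIntegral ℤ (((D : K) * z M) ^ (l ^ M))
      rw [h1]
      have hDint : IsIntegral ℤ (D : K) := by
        simpa using (isIntegral_algebraMap (R := ℤ) (A := K) (x := (D : ℤ)))
      exact (hDint.pow k).mul hDy
    · change ‖φ ((D : K) * z M)‖ ≤ C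
      rw [map_mul, norm_mul, map_natCast, Complex.norm_natCast, hC]
      apply mul_le_mul_of_nonneg_left _ (Nat.cast_nonneg D)
      have h1 : ‖φ (z M)‖ ^ (l ^ M) = ‖φ y‖ := by rw [← norm_pow, ← map_pow, hzM]
      have h2 : ‖φ y‖ ≤ ∑ σ : K →+* ℂ, ‖σ y‖ :=
        Finset.single_le_sum (f := fun σ : K →+* ℂ => ‖σ y‖) (fun _ _ => norm_nonneg _)
          (Finset.mem_univ φ)
      rcases le_or_gt ‖φ (z M)‖ 1 with h3 | h3
      · have : 0 ≤ ∑ σ : K →+* ℂ, ‖σ y‖ := Finset.sum_nonneg fun _ _ => norm_nonneg _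
        linarith
      · have h4 : ‖φ (z M)‖ ≤ ‖φ (z M)‖ ^ (l ^ M) := le_self_pow₀ h3.le (by omega)
        linarith
  obtain ⟨M, hM, M', hM', hne, heq⟩ := hSinf.exists_ne_map_eq_of_mapsTo hmaps hfin
  have hzz : z M = z M' := mul_left_cancel₀ hDK heq
  have key : ∀ (M M' : ℕ) (z : K), M < M' → z ^ (l ^ M) = y → z ^ (l ^ M') = y →
      ∃ n : ℕ, 0 < n ∧ y ^ n = 1 := by
    intro M M' z hlt h1 h2
    have hlt2 : l ^ M < l ^ M' := Nat.pow_lt_pow_right (by omega) hlt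
    refine ⟨l ^ M' - l ^ M, by omega, ?_⟩
    have hz0 : z ^ (l ^ M) ≠ 0 := by rw [h1]; exact hy
    have h3 : z ^ (l ^ M' - l ^ M) = 1 := by
      have h4 : z ^ (l ^ M' - l ^ M) * z ^ (l ^ M) = z ^ (l ^ M) := by
        rw [← pow_add]
        rw [Nat.sub_add_cancel hlt2.le, h2, h1]
      exact mul_right_cancel₀ hz0 (by rw [h4, one_mul])
    rw [← h1, ← pow_mul, mul_comm, pow_mul, h3, one_pow]
  rcases lt_or_gt_of_ne hne with hlt | hlt
  · exact key M M' (z M) hlt (hz M hM) (by rw [hzz]; exact hz M' hM')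
  · exact key M' M (z M) hlt (by rw [hzz]; exact hz M' hM') (hz M hM)

/-- a number field contains primitive `l^k`-th roots of unity only for finitely many `k` -/
theorem exists_no_primitive (K : Type*) [Field K] [NumberField K] {l : ℕ} (hl : 2 ≤ l) :
    ∃ c : ℕ, ∀ ω : K, ¬ IsPrimitiveRoot ω (l ^ (c + 1)) := by
  classical
  by_contra hcon
  push Not at hcon
  choose ω hω using hcon
  have hfin := NumberField.Embeddings.finite_of_norm_le K ℂ 1
  have hmaps : Set.MapsTo ω Set.univ {x : K | IsIntegral ℤ x ∧ ∀ φ : K →+* ℂ, ‖φ x‖ ≤ 1} := by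
    intro k _
    have hpos : 0 < l ^ (k + 1) := Nat.pow_pos (by omega)
    refine ⟨(hω k).isIntegral hpos, fun φ => ?_⟩
    have h1 : ‖φ (ω k)‖ ^ (l ^ (k + 1)) = 1 := by
      rw [← norm_pow, ← map_pow, (hω k).pow_eq_one, map_one, norm_one]
    exact ((pow_eq_one_iff_of_nonneg (norm_nonneg _) hpos.ne').1 h1).le
  obtain ⟨i, -, j, -, hne, heq⟩ := Set.infinite_univ.exists_ne_map_eq_of_mapsTo hmaps hfin
  have h1 : l ^ (i + 1) = l ^ (j + 1) := by
    rw [(hω i).eq_orderOf, (hω j).eq_orderOf, heq]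
  have h2 := Nat.pow_right_injective hl h1
  omega

/-- (K) an element of infinite order is not a high `l`-power in any cyclotomic extension -/
theorem not_power_cyclo {K : Type u} [Field K] [NumberField K] (y : K) (hy0 : y ≠ 0)
    (hy : ∀ n : ℕ, 0 < n → y ^ n ≠ 1) {l : ℕ} (hl : l.Prime) : ∃ M0 : ℕ, ∀ M, M0 ≤ M →
      ∀ n : ℕ, 0 < n → l ^ M ∣ n → ∀ (E : Type v) [Field E] [Algebra K E]
        [IsCyclotomicExtension {n} K E] (s : E), s ^ (l ^ M) ≠ algebraMap K E y := by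
  classical
  obtain ⟨c, hc⟩ := exists_no_primitive K hl.two_le
  -- `y^(l^c)` is not infinitely divisible
  obtain ⟨M1, hM1⟩ : ∃ M1 : ℕ, ∀ M, M1 ≤ M → ∀ z : K, z ^ (l ^ M) ≠ y ^ (l ^ c) := by
    by_contra hcon
    push Not at hcon
    obtain ⟨n, hn, h1⟩ := torsion_of_divisible (y ^ (l ^ c)) (pow_ne_zero _ hy0) hl.two_le
      (fun M0 => by
        obtain ⟨M, hM, z, hz⟩ := hcon M0
        exact ⟨M, hM, z, hz⟩)
    rw [← pow_mul] at h1
    exact hy _ (Nat.mul_pos (Nat.pow_pos hl.pos) hn) h1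
  refine ⟨max M1 (c + 1), ?_⟩
  intro M hM n hn hdvd E _ _ _ s hs
  have hM1' : M1 ≤ M := le_trans (le_max_left _ _) hM
  have hcM : c + 1 ≤ M := le_trans (le_max_right _ _) hM
  have : NeZero n := ⟨hn.ne'⟩
  have : CharZero K := inferInstance
  have : CharZero E := charZero_of_injective_algebraMap (algebraMap K E).injective
  have hgal : IsGalois K E := IsCyclotomicExtension.isGalois {n} K E
  have hfd : FiniteDimensional K E := IsCyclotomicExtension.finiteDimensional {n} K E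
  have hcomm := IsCyclotomicExtension.isMulCommutative {n} K E
  set ζ : E := IsCyclotomicExtension.zeta n K E with hζ
  have hζp : IsPrimitiveRoot ζ n := IsCyclotomicExtension.zeta_spec n K E
  have hs0 : s ≠ 0 := by
    intro h0
    rw [h0, zero_pow (Nat.pow_pos hl.pos).ne'] at hs
    exact hy0 ((map_eq_zero (algebraMap K E)).1 hs.symm)
  -- a root of unity outside `K`
  obtain ⟨q, hq⟩ : l ^ (c + 1) ∣ n := dvd_trans (pow_dvd_pow l hcM) hdvd
  have hω : IsPrimitiveRoot (ζ ^ q) (l ^ (c + 1)) := hζp.pow hn (by rw [hq, mul_comm])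
  obtain ⟨τ, hτ⟩ : ∃ τ : E ≃ₐ[K] E, τ (ζ ^ q) ≠ ζ ^ q := by
    by_contra hcon
    push Not at hcon
    obtain ⟨x, hx⟩ := (IsGalois.mem_range_algebraMap_iff_fixed (ζ ^ q)).2 hcon
    apply hc x
    rw [← hx] at hω
    exact IsPrimitiveRoot.of_map_of_injective hω (algebraMap K E).injective
  -- the action of `τ` on roots of unity
  obtain ⟨a, -, ha⟩ := hζp.eq_pow_of_pow_eq_one (ξ := τ ζ) (by rw [← map_pow, hζp.pow_eq_one, map_one])
  have hact : ∀ x : E, x ^ (l ^ M) = 1 → τ x = x ^ a := by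
    intro x hx
    have hx' : x ^ n = 1 := by
      obtain ⟨k, hk⟩ := hdvd
      rw [hk, pow_mul, hx, one_pow]
    obtain ⟨j, -, hj⟩ := hζp.eq_pow_of_pow_eq_one hx'
    rw [← hj, map_pow, ← ha, ← pow_mul, ← pow_mul, mul_comm]
  have hyE : algebraMap K E y ≠ 0 := (map_ne_zero (algebraMap K E)).2 hy0
  have hη : ∀ ρ : E ≃ₐ[K] E, (ρ s / s) ^ (l ^ M) = 1 := by
    intro ρ
    rw [div_pow, ← map_pow, hs, ρ.commutes, div_self hyE]
  have hτs0 : τ s ≠ 0 := (map_ne_zero τ).2 hs0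
  -- the element `z = s^a / τ s` lies in `K`
  have hzfix : ∀ ρ : E ≃ₐ[K] E, ρ (s ^ a / τ s) = s ^ a / τ s := by
    intro ρ
    set η : E := ρ s / s with hηdef
    have hη0 : η ≠ 0 := div_ne_zero ((map_ne_zero ρ).2 hs0) hs0
    have h1 : ρ s = s * η := by rw [hηdef, mul_div_cancel₀ _ hs0]
    have h2 : ρ (τ s) = τ (ρ s) := by
      have h3 := hcomm.is_comm.comm ρ τ
      have h4 := congrArg (fun g : E ≃ₐ[K] E => g s) h3
      exact h4
    rw [map_div₀, map_pow, h2, h1, map_mul, hact η (hη ρ), mul_pow]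
    exact mul_div_mul_right _ _ (pow_ne_zero a hη0)
  obtain ⟨z, hz⟩ := (IsGalois.mem_range_algebraMap_iff_fixed (s ^ a / τ s)).2 hzfix
  have hz1 : z ^ (l ^ M) * y = y ^ a := by
    apply (algebraMap K E).injective
    have h5 : (τ s) ^ (l ^ M) = algebraMap K E y := by rw [← map_pow, hs, τ.commutes]
    rw [map_mul, map_pow, map_pow, hz, div_pow, h5, ← pow_mul, mul_comm a, pow_mul, hs,
      div_mul_cancel₀ _ hyE]
  have hz0 : z ≠ 0 := by
    intro h0
    rw [h0, zero_pow (Nat.pow_pos hl.pos).ne', zero_mul] at hz1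
    exact pow_ne_zero a hy0 hz1.symm
  have hz2 : y ^ ((a : ℤ) - 1) = z ^ (l ^ M) := by
    rw [zpow_sub_one₀ hy0, zpow_natCast, ← hz1, mul_inv_cancel_right₀ hy0]
  -- `a` is not congruent to one modulo `l^(c+1)`
  have hnd : ¬ ((l ^ (c + 1) : ℕ) : ℤ) ∣ (a : ℤ) - 1 := by
    intro hd
    apply hτ
    rw [map_pow, ← ha, ← pow_mul, mul_comm, pow_mul]
    have h3 : (ζ ^ q) ^ ((a : ℤ) - 1) = 1 := (hω.zpow_eq_one_iff_dvd _).2 hd
    have hω0 : ζ ^ q ≠ 0 := hω.ne_zero (Nat.pow_pos hl.pos).ne'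
    rw [zpow_sub_one₀ hω0, zpow_natCast] at h3
    exact (mul_inv_eq_one₀ hω0).1 h3
  -- Bezout
  obtain ⟨k, hkM, hk⟩ : ∃ k, k ≤ M ∧ Int.gcd ((a : ℤ) - 1) ((l ^ M : ℕ) : ℤ) = l ^ k := by
    have h3 : Int.gcd ((a : ℤ) - 1) ((l ^ M : ℕ) : ℤ) ∣ l ^ M := by
      have := Int.gcd_dvd_right (a := (a : ℤ) - 1) (b := ((l ^ M : ℕ) : ℤ))
      exact_mod_cast this
    exact (Nat.dvd_prime_pow hl).1 h3
  have hkc : k ≤ c := by
    by_contra hlt
    apply hnd
    have h3 : ((Int.gcd ((a : ℤ) - 1) ((l ^ M : ℕ) : ℤ) : ℕ) : ℤ) ∣ (a : ℤ) - 1 :=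
      Int.gcd_dvd_left _ _
    rw [hk] at h3
    refine dvd_trans ?_ h3
    exact_mod_cast pow_dvd_pow l (by omega)
  have hbez := Int.gcd_eq_gcd_ab ((a : ℤ) - 1) ((l ^ M : ℕ) : ℤ)
  rw [hk] at hbez
  set g1 := Int.gcdA ((a : ℤ) - 1) ((l ^ M : ℕ) : ℤ) with hg1
  set g2 := Int.gcdB ((a : ℤ) - 1) ((l ^ M : ℕ) : ℤ) with hg2
  have hfinal : (z ^ g1 * y ^ g2) ^ (l ^ M) = y ^ (l ^ k) := by
    have h3 : y ^ (((l ^ k : ℕ) : ℤ)) = (z ^ g1 * y ^ g2) ^ (l ^ M) := by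
      rw [hbez, zpow_add₀ hy0, zpow_mul, hz2, zpow_mul, mul_pow, ← zpow_natCast (z ^ g1),
        ← zpow_natCast (y ^ g2), ← zpow_mul, ← zpow_mul, ← zpow_natCast z, ← zpow_mul, ← zpow_mul,
        mul_comm g1, mul_comm g2]
    rw [← h3, zpow_natCast]
  refine hM1 M hM1' ((z ^ g1 * y ^ g2) ^ (l ^ (c - k))) ?_
  rw [← pow_mul, Nat.mul_comm (l ^ (c - k)), pow_mul, hfinal, ← pow_mul, ← pow_add]
  congr 2
  omega

end Pool.Agent.ORB
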