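import Pool.Agent.ORB.GDefs

/-!
ORB, Theorem V++, row G5: the engine, from the fresh swap (G4) and the theorem on finite permutation groups (G1),
which are hypotheses here.
-/

set_option autoImplicit false

namespace Pool.Agent.ORB.GP

open Polynomial NI NumberField IsDedekindDomain

universe u

/-- if all classes have the same size then it divides the number of points -/
theorem dvd_of_classes {X : Type*} [Finite X] (R : X → X → Prop) (hR : Equivalence R) (m : ℕ)
    (hm : ∀ x, {x' | R x x'}.ncard = m) : m ∣ Nat.card X := by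
  classical
  cases nonempty_fintype X
  let s : Setoid X := ⟨R, hR⟩
  have h1 : Nat.card X = ∑ q : Quotient s, Nat.card {x : X // (Quotient.mk s x) = q} := by
    rw [← Nat.card_sigma]
    exact (Nat.card_congr (Equiv.sigmaFiberEquiv (Quotient.mk s))).symm
  have h2 : ∀ q : Quotient s, Nat.card {x : X // (Quotient.mk s x) = q} = m := by
    intro q
    induction q using Quotient.inductionOn with
    | h y =>
      rw [← hm y, ← Nat.card_coe_set_eq]
      refine Nat.card_congr (Equiv.subtypeEquivRight fun x => ?_)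
      rw [Quotient.eq]
      exact ⟨fun h => hR.symm h, fun h => hR.symm h⟩
  rw [h1, Finset.sum_congr rfl fun q _ => h2 q, Finset.sum_const, smul_eq_mul]
  exact dvd_mul_left _ _

theorem five_le {m d : ℕ} (hm : m ∣ d) (h2 : 2 ≤ m) (h6 : Nat.Coprime d 6) : 5 ≤ m := by
  by_contra hlt
  have hm4 : m = 2 ∨ m = 3 ∨ m = 4 := by omega
  have hcop : Nat.Coprime m 6 := Nat.Coprime.coprime_dvd_left hm h6
  rcases hm4 with rfl | rfl | rfl <;> revert hcop <;> decide

section
variable {F W : Type*} [Field F] [Field W] [Algebra F W]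

theorem fibre_finite' (h : F[X]) (hd : 1 ≤ h.natDegree) (N : ℕ) (x : W) : {z : W | (ev h)^[N] z = x}.Finite := by
  have h1 := fibre_finite (W := W) (polyRP h) (by rw [polyRP_d]; exact hd) (x : OnePoint W) N
  refine h1.subset fun z hz => ?_
  show ((polyRP h).map (algebraMap F W)).act^[N] (z : OnePoint W) = (x : OnePoint W)
  rw [polyRP_act _ h hd, pact_iterate_coe]
  congr 1
  have h2 : (fun y => (h.map (algebraMap F W)).eval y) = ev (Ω := W) h := by
    funext y
    rw [eval_map_algebraMap]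
    rfl
  rw [h2]
  exact hz

/-- a fibre without critical point has `deg h` points -/
theorem ncard_fibre [IsAlgClosed W] (h : F[X]) (hd : 1 ≤ h.natDegree) (y : W)
    (hy : ∀ c : W, Crit h c → ev h c ≠ y) : {z : W | ev h z = y}.ncard = h.natDegree := by
  classical
  set g : W[X] := h.map (algebraMap F W) - C y with hg
  have hgd : g.natDegree = h.natDegree := by
    rw [hg, natDegree_sub_C, natDegree_map]
  have hg0 : g ≠ 0 := by
    intro h0
    rw [h0, natDegree_zero] at hgd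
    omega
  have hroot : ∀ z, IsRoot g z ↔ ev h z = y := by
    intro z
    rw [hg, IsRoot, eval_sub, eval_C, eval_map_algebraMap, sub_eq_zero]
    rfl
  have hnd : g.roots.Nodup := by
    rw [Multiset.nodup_iff_count_le_one]
    intro z
    rw [count_roots]
    by_contra hlt
    have h1 : 1 < g.rootMultiplicity z := by omega
    rw [one_lt_rootMultiplicity_iff_isRoot hg0] at h1
    refine hy z ?_ ((hroot z).1 h1.1)
    have h2 := h1.2
    rw [hg, derivative_sub, derivative_C, sub_zero, derivative_map, IsRoot, eval_map_algebraMap] at h2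
    exact h2
  have hset : {z : W | ev h z = y} = (g.roots.toFinset : Set W) := by
    ext z
    rw [Finset.mem_coe, Multiset.mem_toFinset, mem_roots hg0, hroot]
    rfl
  rw [hset, Set.ncard_coe_finset, Multiset.toFinset_card_of_nodup hnd, ← hgd]
  exact (IsAlgClosed.splits g).natDegree_eq_card_roots.symm

/-- a finite set which is stable under the automorphisms and contains a given finite set -/
theorem exists_stable [Algebra.IsAlgebraic F W] (T : Set W) (hT : T.Finite) :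
    ∃ T' : Set W, T'.Finite ∧ T ⊆ T' ∧ ∀ (g : W ≃ₐ[F] W), ∀ t ∈ T', g t ∈ T' := by
  classical
  refine ⟨⋃ t ∈ T, {x : W | aeval x (minpoly F t) = 0}, ?_, ?_, ?_⟩
  · refine Set.Finite.biUnion hT fun t _ => ?_
    have h0 : (minpoly F t).map (algebraMap F W) ≠ 0 := by
      rw [Ne, Polynomial.map_eq_zero]
      exact minpoly.ne_zero (Algebra.IsAlgebraic.isAlgebraic t).isIntegral
    refine ((minpoly F t).map (algebraMap F W)).roots.toFinset.finite_toSet.subset fun x hx => ?_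
    rw [Finset.mem_coe, Multiset.mem_toFinset, mem_roots h0, IsRoot, eval_map_algebraMap]
    exact hx
  · intro t ht
    exact Set.mem_iUnion₂.2 ⟨t, ht, minpoly.aeval F t⟩
  · intro g x hx
    obtain ⟨t, ht, hx⟩ := Set.mem_iUnion₂.1 hx
    refine Set.mem_iUnion₂.2 ⟨t, ht, ?_⟩
    show aeval (g x) (minpoly F t) = 0
    have h1 : aeval ((g : W →ₐ[F] W) x) (minpoly F t) = (g : W →ₐ[F] W) (aeval x (minpoly F t)) :=
      Polynomial.aeval_algHom_apply (g : W →ₐ[F] W) x _
    have h2 : aeval x (minpoly F t) = 0 := hx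
    rw [h2, map_zero] at h1
    exact h1

end

/-- **Row G5**, with the rows G1 and G4 as hypotheses -/
theorem engine_of
    (hderange : ∀ {G Y : Type u} [Group G] [MulAction G Y] [Finite Y] (S : Set G)
      (_ : ∀ g : G, ∀ u ∈ S, g * u * g⁻¹ ∈ S) (R : Y → Y → Prop) (_ : Equivalence R)
      (_ : ∀ (g : G) (z z' : Y), R z z' → R (g • z) (g • z')) (_ : ∀ u ∈ S, ∀ z : Y, R z (u • z))
      (_ : ∀ u ∈ S, ∀ z z' : Y, R z z' → u • z ≠ z → u • z' ≠ z' → z' = z ∨ z' = u • z)
      (_ : ∀ z z' : Y, R z z' → z ≠ z' → ∃ u ∈ S, u • z = z') (_ : ∀ z : Y, 5 ≤ {z' : Y | R z z'}.ncard)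
      (s : G), ∃ u ∈ Subgroup.closure S, ∀ z : Y, (s * u) • z ≠ z)
    {F W : Type u} [Field F] [Field W] [Algebra F W] [IsAlgClosed W]
    [Algebra.IsAlgebraic F W] (h : F[X]) (hd : 2 ≤ h.natDegree) (h6 : Nat.Coprime h.natDegree 6)
    (r : W)
    (hav : ∀ c : W, Crit h c → ∀ n, (ev h)^[n] c ≠ r)
    (htr : ∀ (l : ℕ) (y y' : W), (ev h)^[l] y = r → (ev h)^[l] y' = r → ∃ g : W ≃ₐ[F] W, g r = r ∧ g y = y')
    (hfresh : ∀ T : Set W, T.Finite → ∃ (A : W ≃ₐ[F] W) (l : ℕ), (∀ t ∈ T, A t = t) ∧ A r = r ∧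
      (∀ k, k ≤ l → ∀ z : W, (ev h)^[k] z = r → A z = z) ∧ (∃ z : W, (ev h)^[l + 1] z = r ∧ A z ≠ z) ∧
      ∀ z z' : W, (ev h)^[l + 1] z = r → ev h z = ev h z' → A z ≠ z → A z' ≠ z' → z' = z ∨ z' = A z)
    (T : Set W) (hT : T.Finite) (s₀ : W ≃ₐ[F] W) (hs₀ : s₀ r = r) :
    ∃ (N : ℕ) (s : W ≃ₐ[F] W), (∀ t ∈ T, s t = s₀ t) ∧ ∀ z : W, (ev h)^[N] z = r → s z ≠ z := by
  classical
  have hd1 : 1 ≤ h.natDegree := by omega
  obtain ⟨T', hT', hTT', hstab⟩ := exists_stable (F := F) T hT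
  obtain ⟨A, l, hAT, hAr, hAk, ⟨z₀, hz₀, hz₀A⟩, hAs⟩ := hfresh T' hT'
  -- the group and the set
  let G : Subgroup (W ≃ₐ[F] W) := MulAction.stabilizer (W ≃ₐ[F] W) r
  have hG : ∀ g : G, (g : W ≃ₐ[F] W) r = r := fun g => g.2
  let Y : Type u := {z : W // (ev h)^[l + 1] z = r}
  have hYf : Finite Y := (fibre_finite' h hd1 (l + 1) r).to_subtype
  have hlev : ∀ (g : W ≃ₐ[F] W), g r = r → ∀ (k : ℕ) (z : W), (ev h)^[k] z = r → (ev h)^[k] (g z) = r := by
    intro g hg k z hz
    rw [← evW_aut, hz, hg]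
  let act : MulAction G Y :=
    { smul := fun g z => ⟨(g : W ≃ₐ[F] W) z.1, hlev g (hG g) (l + 1) z.1 z.2⟩
      one_smul := fun z => Subtype.ext rfl
      mul_smul := fun g g' z => Subtype.ext rfl }
  have hsmul : ∀ (g : G) (z : Y), ((g • z : Y) : W) = (g : W ≃ₐ[F] W) (z : W) := fun _ _ => rfl
  have hinv : ∀ (g : W ≃ₐ[F] W) (x : W), g (g⁻¹ x) = x := fun g x => g.apply_symm_apply x
  have hinv' : ∀ (g : W ≃ₐ[F] W) (x : W), g⁻¹ (g x) = x := fun g x => g.symm_apply_apply x
  -- the swaps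
  let S : Set G := {u | (∀ t ∈ T', (u : W ≃ₐ[F] W) t = t) ∧
    (∀ k, k ≤ l → ∀ z : W, (ev h)^[k] z = r → (u : W ≃ₐ[F] W) z = z) ∧
    ∀ z z' : W, (ev h)^[l + 1] z = r → ev h z = ev h z' → (u : W ≃ₐ[F] W) z ≠ z → (u : W ≃ₐ[F] W) z' ≠ z' →
      z' = z ∨ z' = (u : W ≃ₐ[F] W) z}
  have hev : ∀ (g : W ≃ₐ[F] W) (z : W), g (ev h z) = ev h (g z) := fun g z => evW_aut h g z 1
  have hSconj : ∀ g : G, ∀ u ∈ S, g * u * g⁻¹ ∈ S := by
    rintro g u ⟨h1, h2, h3⟩
    have happ : ∀ x : W, ((g * u * g⁻¹ : G) : W ≃ₐ[F] W) x =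
        (g : W ≃ₐ[F] W) ((u : W ≃ₐ[F] W) ((g : W ≃ₐ[F] W)⁻¹ x)) := fun x => rfl
    have hgi : (g : W ≃ₐ[F] W)⁻¹ r = r := by
      conv_lhs => rw [← hG g]
      exact hinv' _ _
    refine ⟨fun t ht => ?_, fun k hk z hz => ?_, fun z z' hz hzz hz1 hz2 => ?_⟩
    · rw [happ, h1 _ (hstab _ t ht), hinv]
    · rw [happ, h2 k hk _ (hlev _ hgi k z hz), hinv]
    · rw [happ] at hz1 hz2 ⊢
      have e1 : (u : W ≃ₐ[F] W) ((g : W ≃ₐ[F] W)⁻¹ z) ≠ (g : W ≃ₐ[F] W)⁻¹ z := by
        intro he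
        rw [he, hinv] at hz1
        exact hz1 rfl
      have e2 : (u : W ≃ₐ[F] W) ((g : W ≃ₐ[F] W)⁻¹ z') ≠ (g : W ≃ₐ[F] W)⁻¹ z' := by
        intro he
        rw [he, hinv] at hz2
        exact hz2 rfl
      rcases h3 _ _ (hlev _ hgi (l + 1) z hz) (by rw [← hev, ← hev, hzz]) e1 e2 with e | e
      · left
        have := congrArg (g : W ≃ₐ[F] W) e
        rwa [hinv, hinv] at this
      · right
        have := congrArg (g : W ≃ₐ[F] W) e
        rwa [hinv] at this
  -- basic facts on the swaps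
  have hSh : ∀ u ∈ S, ∀ z : W, (ev h)^[l + 1] z = r → ev h ((u : W ≃ₐ[F] W) z) = ev h z := by
    rintro u ⟨-, h2, -⟩ z hz
    rw [← hev]
    refine h2 l le_rfl _ ?_
    rw [← Function.iterate_succ_apply]
    exact hz
  have hSS : ∀ u ∈ S, ∀ z : W, (ev h)^[l + 1] z = r → (u : W ≃ₐ[F] W) z ≠ z →
      (u : W ≃ₐ[F] W) ((u : W ≃ₐ[F] W) z) = z := by
    intro u hu z hz hne
    have h1 : (u : W ≃ₐ[F] W) ((u : W ≃ₐ[F] W) z) ≠ (u : W ≃ₐ[F] W) z := fun he =>
      hne ((u : W ≃ₐ[F] W).injective he)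
    rcases hu.2.2 _ z (hlev _ (hG u) (l + 1) z hz) (hSh u hu z hz) h1 hne with e | e
    · exact absurd e.symm hne
    · exact e.symm
  -- the equivalence
  let R : Y → Y → Prop := fun z z' => z = z' ∨ ∃ u ∈ S, u • z = z'
  have hRval : ∀ z z' : Y, R z z' → ev h z.1 = ev h z'.1 := by
    rintro z z' (rfl | ⟨u, hu, rfl⟩)
    · rfl
    · exact (hSh u hu z.1 z.2).symm
  have hR : Equivalence R := by
    refine ⟨fun z => Or.inl rfl, ?_, ?_⟩
    · rintro z z' (rfl | ⟨u, hu, rfl⟩)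
      · exact Or.inl rfl
      · by_cases hne : (u : W ≃ₐ[F] W) z.1 = z.1
        · left
          exact Subtype.ext hne
        · right
          exact ⟨u, hu, Subtype.ext (hSS u hu z.1 z.2 hne)⟩
    · rintro z z' z'' (rfl | ⟨u, hu, rfl⟩) (rfl | ⟨u', hu', rfl⟩)
      · exact Or.inl rfl
      · exact Or.inr ⟨u', hu', rfl⟩
      · exact Or.inr ⟨u, hu, rfl⟩
      · by_cases e1 : (u : W ≃ₐ[F] W) z.1 = z.1
        · right
          exact ⟨u', hu', Subtype.ext (by rw [hsmul, hsmul, hsmul, e1])⟩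
        by_cases e2 : (u' : W ≃ₐ[F] W) ((u : W ≃ₐ[F] W) z.1) = (u : W ≃ₐ[F] W) z.1
        · right
          exact ⟨u, hu, Subtype.ext (by rw [hsmul, hsmul, hsmul, e2])⟩
        by_cases e3 : (u' : W ≃ₐ[F] W) ((u : W ≃ₐ[F] W) z.1) = z.1
        · left
          exact Subtype.ext (by rw [hsmul, hsmul, e3])
        -- three different points
        right
        set a := (z : W) with ha
        set b := (u : W ≃ₐ[F] W) a with hb
        set c := (u' : W ≃ₐ[F] W) b with hc
        have hbY : (ev h)^[l + 1] b = r := hlev _ (hG u) (l + 1) a z.2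
        have hcY : (ev h)^[l + 1] c = r := hlev _ (hG u') (l + 1) b hbY
        have hub : (u : W ≃ₐ[F] W) b = a := hSS u hu a z.2 e1
        have huc : (u : W ≃ₐ[F] W) c = c := by
          by_contra hne
          have h1 : ev h a = ev h c := by
            rw [hc, hSh u' hu' b hbY, hb, hSh u hu a z.2]
          rcases hu.2.2 a c z.2 h1 e1 hne with e | e
          · exact e3 e
          · exact e2 e
        refine ⟨u⁻¹ * u' * (u⁻¹)⁻¹, hSconj u⁻¹ u' hu', Subtype.ext ?_⟩
        rw [hsmul, hsmul, hsmul]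
        show (u : W ≃ₐ[F] W)⁻¹ ((u' : W ≃ₐ[F] W) (((u : W ≃ₐ[F] W)⁻¹)⁻¹ a)) = c
        rw [inv_inv, ← hb, ← hc]
        conv_lhs => rw [← huc]
        exact hinv' _ _
  have hRG : ∀ (g : G) (z z' : Y), R z z' → R (g • z) (g • z') := by
    rintro g z z' (rfl | ⟨u, hu, rfl⟩)
    · exact Or.inl rfl
    · right
      refine ⟨g * u * g⁻¹, hSconj g u hu, ?_⟩
      rw [smul_smul, inv_mul_cancel_right, mul_smul]
  -- the size of the classes
  have hcls : ∀ z z' : Y, {x | R z x}.ncard = {x | R z' x}.ncard := by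
    intro z z'
    obtain ⟨g, hg1, hg2⟩ := htr (l + 1) z.1 z'.1 z.2 z'.2
    let g' : G := ⟨g, hg1⟩
    have hgz : g' • z = z' := Subtype.ext hg2
    have himg : {x | R z' x} = (fun x => g' • x) '' {x | R z x} := by
      ext x
      constructor
      · intro hx
        refine ⟨g'⁻¹ • x, ?_, smul_inv_smul g' x⟩
        have h1 := hRG g'⁻¹ z' x hx
        rw [← hgz, inv_smul_smul] at h1
        exact h1
      · rintro ⟨y, hy, rfl⟩
        have h1 := hRG g' z y hy
        rwa [hgz] at h1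
    rw [himg, Set.ncard_image_of_injective _ (MulAction.injective g')]
  have hdvd : ∀ z : Y, {x | R z x}.ncard ∣ h.natDegree := by
    intro z
    set X : Set Y := {x | ev h x.1 = ev h z.1} with hX
    have hXc : Nat.card X = h.natDegree := by
      have h1 : ∀ c : W, Crit h c → ev h c ≠ ev h z.1 := by
        intro c hc he
        apply hav c hc (l + 1)
        rw [Function.iterate_succ_apply, he, ← Function.iterate_succ_apply]
        exact z.2
      rw [← ncard_fibre h hd1 (ev h z.1) h1, Nat.card_coe_set_eq]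
      have himg : {w : W | ev h w = ev h z.1} = Subtype.val '' X := by
        ext w
        constructor
        · intro hw
          refine ⟨⟨w, ?_⟩, hw, rfl⟩
          rw [Function.iterate_succ_apply, show ev h w = ev h z.1 from hw, ← Function.iterate_succ_apply]
          exact z.2
        · rintro ⟨x, hx, rfl⟩
          exact hx
      rw [himg, Set.ncard_image_of_injective _ Subtype.val_injective]
    rw [← hXc]
    refine dvd_of_classes (fun x y : X => R x.1 y.1) ⟨fun x => hR.refl x.1, fun h => hR.symm h,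
      fun h h' => hR.trans h h'⟩ _ fun x => ?_
    rw [hcls z x.1]
    have himg : {y : Y | R x.1 y} = Subtype.val '' {y : X | R x.1 y.1} := by
      ext y
      constructor
      · intro hy
        exact ⟨⟨y, by
          rw [hX, Set.mem_ofPred_eq, ← hRval _ _ hy]
          exact x.2⟩, hy, rfl⟩
      · rintro ⟨y, hy, rfl⟩
        exact hy
    rw [himg, Set.ncard_image_of_injective _ Subtype.val_injective]
  have hAG : A ∈ G := hAr
  have hAS : (⟨A, hAG⟩ : G) ∈ S := ⟨hAT, hAk, hAs⟩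
  have htwo : ∀ z : Y, 2 ≤ {x | R z x}.ncard := by
    intro z
    rw [hcls z ⟨z₀, hz₀⟩]
    have hsub : ({⟨z₀, hz₀⟩, (⟨A, hAG⟩ : G) • (⟨z₀, hz₀⟩ : Y)} : Set Y) ⊆ {x | R ⟨z₀, hz₀⟩ x} := by
      rintro x (rfl | hx)
      · exact Or.inl rfl
      · exact Or.inr ⟨_, hAS, (Set.mem_singleton_iff.1 hx).symm⟩
    refine le_trans ?_ (Set.ncard_le_ncard hsub (Set.toFinite _))
    rw [Set.ncard_pair]
    intro he
    exact hz₀A (congrArg Subtype.val he).symm
  obtain ⟨u, hu, hmove⟩ := hderange (G := G) (Y := Y) S hSconj R hR hRG (fun u hu z => Or.inr ⟨u, hu, rfl⟩)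
    (fun u hu z z' hzz h1 h2 => by
      have e1 : (u : W ≃ₐ[F] W) z.1 ≠ z.1 := fun he => h1 (Subtype.ext he)
      have e2 : (u : W ≃ₐ[F] W) z'.1 ≠ z'.1 := fun he => h2 (Subtype.ext he)
      rcases hu.2.2 z.1 z'.1 z.2 (hRval _ _ hzz) e1 e2 with e | e
      · exact Or.inl (Subtype.ext e)
      · exact Or.inr (Subtype.ext e))
    (fun z z' hzz hne => hzz.resolve_left hne)
    (fun z => five_le (hdvd z) (htwo z) h6) ⟨s₀, hs₀⟩
  refine ⟨l + 1, s₀ * (u : W ≃ₐ[F] W), fun t ht => ?_, fun z hz hfix => ?_⟩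
  · have hfixT : ∀ x ∈ Subgroup.closure S, ∀ t ∈ T', (x : W ≃ₐ[F] W) t = t := by
      intro x hx
      induction hx using Subgroup.closure_induction with
      | mem x hx => exact hx.1
      | one => exact fun t _ => rfl
      | mul x y _ _ hx hy =>
        intro t ht
        show (x : W ≃ₐ[F] W) ((y : W ≃ₐ[F] W) t) = t
        rw [hy t ht, hx t ht]
      | inv x _ hx =>
        intro t ht
        show (x : W ≃ₐ[F] W)⁻¹ t = t
        conv_lhs => rw [← hx t ht]
        exact hinv' _ _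
    show s₀ ((u : W ≃ₐ[F] W) t) = s₀ t
    rw [hfixT u hu t (hTT' ht)]
  · exact hmove ⟨z, hz⟩ (Subtype.ext hfix)

end Pool.Agent.ORB.GP
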