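import Mathlib

/-!
ORB, Theorem V, row R5: elements of a number field with even valuations outside a finite set of
primes lie in finitely many square classes.
-/

namespace Pool.Agent.ORB.VSel

open NumberField IsDedekindDomain WithZero

/-- finitely many units represent all units modulo squares -/
theorem exists_unit_reps (K : Type*) [Field K] [NumberField K] :
    ∃ U : Finset (𝓞 K)ˣ, ∀ u : (𝓞 K)ˣ, ∃ w ∈ U, IsSquare (u * w) := by
  classical
  let M := Additive (𝓞 K)ˣ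
  let I : Ideal ℤ := Ideal.span {2}
  have hI2 : Finite (ℤ ⧸ I) := Ideal.finiteQuotientOfFreeOfNeBot I (by
    rw [Ne, Ideal.span_singleton_eq_bot]
    exact two_ne_zero)
  let L : Submodule ℤ M := I • (⊤ : Submodule ℤ M)
  have hfin : Finite (M ⧸ L) :=
    Submodule.finite_quotient_smul I (N := (⊤ : Submodule ℤ M)) Module.Finite.fg_top
  have := Fintype.ofFinite (M ⧸ L)
  let s : M ⧸ L → M := Function.surjInv (Submodule.mkQ_surjective L)
  have hs : ∀ q, L.mkQ (s q) = q := Function.surjInv_eq (Submodule.mkQ_surjective L)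
  refine ⟨Finset.univ.image fun q : M ⧸ L => Additive.toMul (s q), fun u => ?_⟩
  let x : M := Additive.ofMul u
  refine ⟨Additive.toMul (s (L.mkQ x)), Finset.mem_image.2 ⟨_, Finset.mem_univ _, rfl⟩, ?_⟩
  have h2 : s (L.mkQ x) - x ∈ L := (Submodule.Quotient.eq _).1 (hs (L.mkQ x))
  have h2' : s (L.mkQ x) - x ∈ (Ideal.span {(2 : ℤ)}) • (⊤ : Submodule ℤ M) := h2
  rw [Submodule.ideal_span_singleton_smul, Submodule.mem_smul_pointwise_iff_exists] at h2'
  obtain ⟨y, -, hy⟩ := h2'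
  refine ⟨Additive.toMul y * u, ?_⟩
  have h3 : s (L.mkQ x) = (2 : ℤ) • y + x := by rw [hy]; abel
  have h4 : Additive.toMul (s (L.mkQ x)) = Additive.toMul y ^ 2 * u := by
    rw [h3]
    rfl
  rw [h4, pow_two]
  simp only [mul_comm, mul_left_comm]

variable {K : Type*} [Field K] [NumberField K]

/-- the exponent of a prime in an algebraic integer -/
noncomputable def cnt (Q : HeightOneSpectrum (𝓞 K)) (α : 𝓞 K) : ℕ :=
  (Associates.mk Q.asIdeal).count (Associates.mk (Ideal.span {α} : Ideal (𝓞 K))).factors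

theorem decomp {S : Set (HeightOneSpectrum (𝓞 K))} (hS : S.Finite) {α : 𝓞 K} (hα : α ≠ 0)
    (h : ∀ Q ∉ S, Even (cnt Q α)) :
    ∃ T ∈ hS.toFinset.powerset, ∃ I : Ideal (𝓞 K), I ≠ 0 ∧
      Ideal.span {α} = (∏ Q ∈ T, Q.asIdeal) * I ^ 2 := by
  classical
  have h0 : (Ideal.span {α} : Ideal (𝓞 K)) ≠ 0 := by
    rw [Ne, Ideal.zero_eq_bot, Ideal.span_singleton_eq_bot]
    exact hα
  have hf : {Q : HeightOneSpectrum (𝓞 K) | cnt Q α ≠ 0}.Finite := by
    refine (Filter.eventually_cofinite.mp (Associates.finite_factors h0)).subset fun Q hQ h1 => ?_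
    exact hQ (by exact_mod_cast h1)
  have h1 := Ideal.finprod_heightOneSpectrum_factorization h0
  have h2 : (Function.mulSupport fun Q : HeightOneSpectrum (𝓞 K) =>
      Q.maxPowDividing (Ideal.span {α})) ⊆ hf.toFinset := by
    intro Q hQ
    rw [Set.Finite.coe_toFinset]
    intro h3
    refine hQ ?_
    have h3' : (Associates.mk Q.asIdeal).count
      (Associates.mk (Ideal.span {α} : Ideal (𝓞 K))).factors = 0 := h3
    show Q.maxPowDividing (Ideal.span {α}) = 1
    rw [HeightOneSpectrum.maxPowDividing, h3', pow_zero]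
  rw [finprod_eq_prod_of_mulSupport_subset _ h2] at h1
  refine ⟨hf.toFinset.filter fun Q => ¬ Even (cnt Q α), ?_,
    ∏ Q ∈ hf.toFinset, Q.asIdeal ^ (cnt Q α / 2), ?_, ?_⟩
  · rw [Finset.mem_powerset]
    intro Q hQ
    rw [Set.Finite.mem_toFinset]
    by_contra h3
    exact (Finset.mem_filter.1 hQ).2 (h Q h3)
  · exact Finset.prod_ne_zero_iff.2 fun Q _ => pow_ne_zero _ Q.ne_bot
  · rw [← h1, Finset.prod_filter, ← Finset.prod_pow, ← Finset.prod_mul_distrib]
    refine Finset.prod_congr rfl fun Q _ => ?_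
    show Q.asIdeal ^ cnt Q α = _
    rw [← pow_mul]
    split_ifs with h3
    · have h4 := Nat.even_iff.1 h3
      rw [one_mul]
      congr 1
      omega
    · have h4 := Nat.not_even_iff.1 h3
      rw [← pow_succ']
      congr 1
      omega

open Classical in
/-- finitely many square classes of algebraic integers -/
theorem integral {S : Set (HeightOneSpectrum (𝓞 K))} (hS : S.Finite) :
    ∃ D : Finset (𝓞 K), (∀ d ∈ D, d ≠ 0) ∧ ∀ α : 𝓞 K, α ≠ 0 → (∀ Q ∉ S, Even (cnt Q α)) →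
      ∃ d ∈ D, IsSquare ((algebraMap (𝓞 K) K α) * algebraMap (𝓞 K) K d) := by
  obtain ⟨U, hU⟩ := exists_unit_reps K
  let P : Finset (HeightOneSpectrum (𝓞 K)) → ClassGroup (𝓞 K) → 𝓞 K → Prop := fun T c α =>
    α ≠ 0 ∧ ∃ I : Ideal (𝓞 K), ∃ hI : I ≠ 0, ClassGroup.mk0 ⟨I, mem_nonZeroDivisors_iff_ne_zero.2 hI⟩ = c ∧
      Ideal.span {α} = (∏ Q ∈ T, Q.asIdeal) * I ^ 2
  let f : Finset (HeightOneSpectrum (𝓞 K)) → ClassGroup (𝓞 K) → 𝓞 K := fun T c =>
    if hT : ∃ α, P T c α then hT.choose else 1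
  have hf0 : ∀ T c, f T c ≠ 0 := by
    intro T c
    simp only [f]
    split_ifs with hT
    · exact hT.choose_spec.1
    · exact one_ne_zero
  refine ⟨((hS.toFinset.powerset ×ˢ (Finset.univ : Finset (ClassGroup (𝓞 K)))) ×ˢ U).image
    fun p => f p.1.1 p.1.2 * (p.2 : 𝓞 K), ?_, ?_⟩
  · intro d hd
    obtain ⟨p, -, rfl⟩ := Finset.mem_image.1 hd
    exact mul_ne_zero (hf0 _ _) p.2.ne_zero
  · intro α hα h
    obtain ⟨T, hT, I, hI, hαI⟩ := decomp hS hα h
    set c := ClassGroup.mk0 ⟨I, mem_nonZeroDivisors_iff_ne_zero.2 hI⟩ with hc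
    have hP : ∃ β, P T c β := ⟨α, hα, I, hI, rfl, hαI⟩
    obtain ⟨hβ, J, hJ, hcJ, hβJ⟩ := hP.choose_spec
    have hfT : f T c = hP.choose := by simp only [f, dif_pos hP]
    set β := hP.choose with hβdef
    obtain ⟨x, y, hx, hy, hxy⟩ := ClassGroup.mk0_eq_mk0_iff.1 (hcJ.trans hc)
    have h1 : Ideal.span {x ^ 2 * β} = Ideal.span {y ^ 2 * α} := by
      rw [← Ideal.span_singleton_mul_span_singleton, ← Ideal.span_singleton_mul_span_singleton,
        ← Ideal.span_singleton_pow, ← Ideal.span_singleton_pow, hβJ, hαI]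
      have h2 : (Ideal.span {x} * J) ^ 2 = (Ideal.span {y} * I) ^ 2 := by
        rw [show Ideal.span {x} * J = Ideal.span {y} * I from hxy]
      calc Ideal.span {x} ^ 2 * ((∏ Q ∈ T, Q.asIdeal) * J ^ 2)
          = (∏ Q ∈ T, Q.asIdeal) * (Ideal.span {x} * J) ^ 2 := by rw [mul_pow]; ac_rfl
        _ = (∏ Q ∈ T, Q.asIdeal) * (Ideal.span {y} * I) ^ 2 := by rw [h2]
        _ = Ideal.span {y} ^ 2 * ((∏ Q ∈ T, Q.asIdeal) * I ^ 2) := by rw [mul_pow]; ac_rfl
    obtain ⟨u, hu⟩ := Ideal.span_singleton_eq_span_singleton.1 h1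
    obtain ⟨w, hw, r, hr⟩ := hU u
    refine ⟨β * (w : 𝓞 K), Finset.mem_image.2 ⟨((T, c), w), ?_, ?_⟩, ?_⟩
    · simp only [Finset.mem_product, Finset.mem_univ, and_true]
      exact ⟨hT, hw⟩
    · simp only [hfT]
    · have hyK : (algebraMap (𝓞 K) K y) ≠ 0 := by
        rw [Ne, FaithfulSMul.algebraMap_eq_zero_iff]; exact hy
      have h2 : algebraMap (𝓞 K) K x ^ 2 * algebraMap (𝓞 K) K β * algebraMap (𝓞 K) K (u : 𝓞 K) =
          algebraMap (𝓞 K) K y ^ 2 * algebraMap (𝓞 K) K α := by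
        rw [← map_pow, ← map_pow, ← map_mul, ← map_mul, ← map_mul, hu]
      have h3 : algebraMap (𝓞 K) K (u : 𝓞 K) * algebraMap (𝓞 K) K (w : 𝓞 K) =
          algebraMap (𝓞 K) K (r : 𝓞 K) * algebraMap (𝓞 K) K (r : 𝓞 K) := by
        rw [← map_mul, ← map_mul, ← Units.val_mul, ← Units.val_mul, hr]
      refine ⟨algebraMap (𝓞 K) K x * algebraMap (𝓞 K) K β * algebraMap (𝓞 K) K (r : 𝓞 K) /
        algebraMap (𝓞 K) K y, ?_⟩
      rw [map_mul]
      field_simp
      linear_combination (-(algebraMap (𝓞 K) K β * algebraMap (𝓞 K) K (w : 𝓞 K))) * h2 +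
        (algebraMap (𝓞 K) K x ^ 2 * algebraMap (𝓞 K) K β ^ 2) * h3

/-- ROW R5: finitely many square classes with even valuations outside a finite set. -/
theorem selmer {S : Set (HeightOneSpectrum (𝓞 K))} (hS : S.Finite) :
    ∃ D : Finset K, (∀ d ∈ D, d ≠ 0) ∧ ∀ a : K, a ≠ 0 →
      (∀ Q ∉ S, ∃ m : ℤ, Q.valuation K a = exp (2 * m)) → ∃ d ∈ D, IsSquare (a * d) := by
  classical
  obtain ⟨D, hD0, hD⟩ := integral hS
  refine ⟨D.image (algebraMap (𝓞 K) K), ?_, ?_⟩
  · intro d hd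
    obtain ⟨e, he, rfl⟩ := Finset.mem_image.1 hd
    rw [Ne, FaithfulSMul.algebraMap_eq_zero_iff]
    exact hD0 e he
  · intro a ha h
    obtain ⟨x, y, hy, hxy⟩ := IsFractionRing.div_surjective (A := 𝓞 K) a
    have hy0 : y ≠ 0 := nonZeroDivisors.ne_zero hy
    have hyK : (algebraMap (𝓞 K) K y) ≠ 0 := by
      rw [Ne, FaithfulSMul.algebraMap_eq_zero_iff]; exact hy0
    have hx0 : x ≠ 0 := by
      rintro rfl
      apply ha
      rw [← hxy, map_zero, zero_div]
    have hax : algebraMap (𝓞 K) K (x * y) = a * algebraMap (𝓞 K) K y ^ 2 := by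
      rw [← hxy, map_mul]
      field_simp
    obtain ⟨d, hd, r, hr⟩ := hD (x * y) (mul_ne_zero hx0 hy0) (by
      intro Q hQ
      obtain ⟨m, hm⟩ := h Q hQ
      have h1 : Q.valuation K (algebraMap (𝓞 K) K (x * y)) =
          exp (2 * m) * (Q.valuation K (algebraMap (𝓞 K) K y)) ^ 2 := by
        rw [hax, map_mul, map_pow, hm]
      rw [HeightOneSpectrum.valuation_of_algebraMap, HeightOneSpectrum.valuation_of_algebraMap,
        Q.intValuation_if_neg (mul_ne_zero hx0 hy0), Q.intValuation_if_neg hy0, pow_two,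
        ← exp_add, ← exp_add, exp_inj] at h1
      have h2 : (cnt Q (x * y) : ℤ) = 2 * (cnt Q y - m) := by
        show ((Associates.mk Q.asIdeal).count
          (Associates.mk (Ideal.span {x * y} : Ideal (𝓞 K))).factors : ℤ) = 2 * (((Associates.mk Q.asIdeal).count
          (Associates.mk (Ideal.span {y} : Ideal (𝓞 K))).factors : ℤ) - m)
        linear_combination -h1
      have h3 : Even (cnt Q (x * y) : ℤ) := ⟨cnt Q y - m, by rw [h2]; ring⟩
      exact_mod_cast h3)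
    refine ⟨algebraMap (𝓞 K) K d, Finset.mem_image_of_mem _ hd, r / algebraMap (𝓞 K) K y, ?_⟩
    rw [hax] at hr
    field_simp
    linear_combination hr

end Pool.Agent.ORB.VSel
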