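import Pool.Agent.ORB.GWin
import Pool.Agent.ORB.VSel

/-!
ORB, Theorem V++, row G3b: the orbit has an odd valuation at a new prime.
-/

set_option autoImplicit false

open Polynomial NumberField IsDedekindDomain WithZero

namespace Pool.Agent.ORB.GP

universe u

/-- the monic conjugate `μ h (x / μ)` -/
theorem monic_conj {F : Type*} [Field F] (h : F[X]) (hd : 2 ≤ h.natDegree) (μ : F)
    (hμ : μ ^ (h.natDegree - 1) = h.leadingCoeff) :
    μ ≠ 0 ∧ ∃ f : F[X], f.Monic ∧ f.natDegree = h.natDegree ∧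
      ∀ (n : ℕ) (x : F), (fun x => eval x f)^[n] (μ * x) = μ * (fun x => eval x h)^[n] x := by
  have hh0 : h ≠ 0 := by
    rintro rfl
    simp at hd
  have hl0 : h.leadingCoeff ≠ 0 := leadingCoeff_ne_zero.2 hh0
  have hμ0 : μ ≠ 0 := by
    rintro rfl
    rw [zero_pow (by omega)] at hμ
    exact hl0 hμ.symm
  refine ⟨hμ0, C μ * h.comp (C μ⁻¹ * X), ?_, ?_, ?_⟩
  · have hlin : (C μ⁻¹ * X : F[X]).natDegree = 1 := natDegree_C_mul_X _ (inv_ne_zero hμ0)
    rw [Monic, leadingCoeff_mul, leadingCoeff_C, leadingCoeff_comp (by rw [hlin]; exact one_ne_zero),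
      leadingCoeff_mul, leadingCoeff_C, leadingCoeff_X, mul_one, ← hμ, inv_pow]
    have h1 : μ ^ h.natDegree = μ * μ ^ (h.natDegree - 1) := by
      rw [← pow_succ']
      congr 1
      omega
    rw [h1]
    have h2 : μ ^ (h.natDegree - 1) ≠ 0 := pow_ne_zero _ hμ0
    field_simp
  · rw [natDegree_C_mul hμ0, natDegree_comp, natDegree_C_mul_X _ (inv_ne_zero hμ0), mul_one]
  · intro n x
    induction n with
    | zero => rfl
    | succ n ih =>
      rw [Function.iterate_succ_apply', Function.iterate_succ_apply', ih]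
      simp only [eval_mul, eval_C, eval_comp, eval_X]
      rw [inv_mul_cancel_left₀ hμ0]

/-- **G3b** (the odd prime) -/
theorem exists_odd {L : Type u} [Field L] [NumberField L] (h : L[X]) (hodd : Odd h.natDegree)
    (hd : 2 ≤ h.natDegree) (μ : L) (hμ : μ ^ (h.natDegree - 1) = h.leadingCoeff) (c r : L)
    (hc : Function.Injective fun n : ℕ => (fun x => eval x h)^[n] c)
    (hr : ∀ n, 1 ≤ n → (fun x => eval x h)^[n] r ≠ r) (S : Set (HeightOneSpectrum (𝓞 L))) (hS : S.Finite) :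
    ∃ n, 1 ≤ n ∧ ∃ Q ∉ S, ∃ m : ℤ, Q.valuation L ((fun x => eval x h)^[n] c - r) = exp (2 * m + 1) := by
  classical
  obtain ⟨hμ0, f, hf, hfd, hfe⟩ := monic_conj h hd μ hμ
  obtain ⟨D, hD0, hD⟩ := VSel.selmer hS
  obtain ⟨n, hn, hne, hsq⟩ := exists_nonsquare f hf (by rw [hfd]; exact hodd) (by rw [hfd]; exact hd)
    (μ * c) (μ * r)
    (fun a b hab => hc (mul_left_cancel₀ hμ0 (by
      show μ * (fun x => eval x h)^[a] c = μ * (fun x => eval x h)^[b] c
      rw [← hfe, ← hfe]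
      exact hab)))
    (fun n hn h1 => hr n hn (mul_left_cancel₀ hμ0 (by rw [← hfe]; exact h1)))
    (D.image fun d => d * μ) (fun d hd => by
      obtain ⟨e, he, rfl⟩ := Finset.mem_image.1 hd
      exact mul_ne_zero (hD0 e he) hμ0) 1
  by_contra hcon
  push Not at hcon
  rw [hfe] at hne
  have ha : (fun x => eval x h)^[n] c - r ≠ 0 := sub_ne_zero.2 fun h1 => hne (by rw [h1])
  obtain ⟨d, hdD, s, hs⟩ := hD _ ha (fun Q hQ => by
    have h1 : Q.valuation L ((fun x => eval x h)^[n] c - r) ≠ 0 := (Valuation.ne_zero_iff _).2 ha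
    obtain ⟨k, hk⟩ : ∃ k : ℤ, Q.valuation L ((fun x => eval x h)^[n] c - r) = exp k :=
      ⟨log (Q.valuation L ((fun x => eval x h)^[n] c - r)), (exp_log h1).symm⟩
    rcases Int.even_or_odd' k with ⟨m, hm | hm⟩
    · exact ⟨m, by rw [hk, hm]⟩
    · exact absurd (by rw [hk, hm]) (hcon n hn Q hQ m))
  refine hsq (d * μ) (Finset.mem_image_of_mem _ hdD) ⟨μ * s, ?_⟩
  rw [hfe]
  linear_combination (μ * μ) * hs

end Pool.Agent.ORB.GP
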