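import Pool.Agent.ORB.NGlob

/-!
ORB, Theorem B, row N10: for every prime `v` of a number field `K` there are a field `F` over `K` with an algebraic
closure `Ω` and an absolute value as in `LocAbs` which is compatible with `v` (the completion and the spectral norm).
-/

namespace Pool.Agent.ORB.NI

open Polynomial NumberField IsDedekindDomain HeightOneSpectrum
open scoped WithZero

universe u

/-- congruence of powers for a nonarchimedean absolute value -/
theorem na_pow_sub {Ω : Type*} [Field Ω] (N : AbsoluteValue Ω ℝ) (hN : ∀ x y : Ω, N (x + y) ≤ max (N x) (N y))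
    {x y : Ω} (hx : N x ≤ 1) (hy : N y ≤ 1) (hxy : N (x - y) < 1) (n : ℕ) : N (x ^ n - y ^ n) < 1 := by
  induction n with
  | zero => simp
  | succ n ih =>
    have e : x ^ (n + 1) - y ^ (n + 1) = x * (x ^ n - y ^ n) + (x - y) * y ^ n := by ring
    rw [e]
    refine lt_of_le_of_lt (hN _ _) (max_lt ?_ ?_)
    · rw [map_mul]
      calc N x * N (x ^ n - y ^ n) ≤ 1 * N (x ^ n - y ^ n) :=
            mul_le_mul_of_nonneg_right hx (N.nonneg _)
        _ < 1 := by rw [one_mul]; exact ih
    · rw [map_mul, map_pow]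
      calc N (x - y) * N y ^ n ≤ N (x - y) * 1 :=
            mul_le_mul_of_nonneg_left (pow_le_one₀ (N.nonneg _) hy) (N.nonneg _)
        _ < 1 := by rw [mul_one]; exact hxy

/-- the spectral norm of a complete field with a discrete absolute value and a finite residue field -/
theorem locAbs_of_complete {F : Type u} [NontriviallyNormedField F] [IsUltrametricDist F] [CompleteSpace F]
    (π : F) (hπ : π ≠ 0) (hπ1 : ‖π‖ < 1) (disc : ∀ x : F, x ≠ 0 → ∃ n : ℤ, ‖x‖ = ‖π‖ ^ n)
    (p : ℕ) (hp : p.Prime) (p_lt : ‖(p : F)‖ < 1) (a : ℕ) (ha : 1 ≤ a)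
    (fin : ∀ x : F, ‖x‖ ≤ 1 → ‖x ^ p ^ a - x‖ < 1) :
    ∃ D : LocAbs F (AlgebraicClosure F), ∀ x, D.N (algebraMap F (AlgebraicClosure F) x) = ‖x‖ := by
  let N : AbsoluteValue (AlgebraicClosure F) ℝ :=
    { toFun := spectralNorm F (AlgebraicClosure F)
      map_mul' := fun x y => (spectralMulAlgNorm F (AlgebraicClosure F)).map_mul' x y
      nonneg' := spectralNorm_nonneg
      eq_zero' := fun x => map_eq_zero_iff_eq_zero (spectralMulAlgNorm F (AlgebraicClosure F))
      add_le' := fun x y => (spectralMulAlgNorm F (AlgebraicClosure F)).add_le' x y }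
  have hN : ∀ x, N x = spectralNorm F (AlgebraicClosure F) x := fun x => rfl
  have hNF : ∀ x : F, N (algebraMap F (AlgebraicClosure F) x) = ‖x‖ := fun x => by
    rw [hN, spectralNorm_extends]
  exact ⟨{  N := N
            nonarch := fun x y => by
              simp only [hN]
              exact isNonarchimedean_spectralNorm x y
            inv := fun g x => by
              simp only [hN]
              exact (spectralNorm_eq_of_equiv g x).symm
            π := π
            π_ne := hπ
            π_lt := by rw [hNF]; exact hπ1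
            disc := fun x hx => by
              obtain ⟨n, hn⟩ := disc x hx
              exact ⟨n, by rw [hNF, hNF]; exact hn⟩
            p := p
            hp := hp
            p_lt := by
              have := hNF (p : F)
              rw [map_natCast] at this
              rw [this]; exact p_lt
            a := a
            ha := ha
            fin := fun x hx => by
              rw [hNF] at hx ⊢
              exact fin x hx }, hNF⟩

section
variable {K : Type u} [Field K] [NumberField K] (v : HeightOneSpectrum (𝓞 K))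

theorem norm_alg (x : K) : ‖algebraMap K (v.adicCompletion K) x‖ = NumberField.HeightOneSpectrum.adicAbv K v x :=
  FinitePlace.norm_embedding v x

theorem adicAbv_le_one_iff' (x : K) : NumberField.HeightOneSpectrum.adicAbv K v x ≤ 1 ↔ v.valuation K x ≤ 1 := by
  rw [NumberField.HeightOneSpectrum.adicAbv_def]
  have := WithZeroMulInt.toNNReal_le_one_iff (m := v.valuation K x)
    (NumberField.HeightOneSpectrum.one_lt_absNorm_nnreal v)
  exact_mod_cast this

theorem adicAbv_lt_one_iff' (x : K) : NumberField.HeightOneSpectrum.adicAbv K v x < 1 ↔ v.valuation K x < 1 := by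
  rw [NumberField.HeightOneSpectrum.adicAbv_def]
  have := WithZeroMulInt.toNNReal_lt_one_iff (m := v.valuation K x)
    (NumberField.HeightOneSpectrum.one_lt_absNorm_nnreal v)
  exact_mod_cast this

theorem norm_le_one_iff' (x : K) : ‖algebraMap K (v.adicCompletion K) x‖ ≤ 1 ↔ v.valuation K x ≤ 1 := by
  rw [norm_alg, adicAbv_le_one_iff']

theorem norm_lt_one_iff' (x : K) : ‖algebraMap K (v.adicCompletion K) x‖ < 1 ↔ v.valuation K x < 1 := by
  rw [norm_alg, adicAbv_lt_one_iff']

theorem norm_eq_zpow {x π : v.adicCompletion K} (hx : x ≠ 0)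
    (hπ : Valued.v π = WithZero.exp (-1 : ℤ)) : ∃ n : ℤ, ‖x‖ = ‖π‖ ^ n := by
  have hx0 : (Valued.v x : ℤᵐ⁰) ≠ 0 := by simpa using hx
  refine ⟨-(WithZero.log (Valued.v x : ℤᵐ⁰)), ?_⟩
  have e1 : (Valued.v x : ℤᵐ⁰) = (Valued.v π : ℤᵐ⁰) ^ (-(WithZero.log (Valued.v x : ℤᵐ⁰))) := by
    rw [hπ, ← WithZero.exp_zsmul]
    conv_lhs => rw [← WithZero.exp_log hx0]
    congr 1
    simp
  rw [FinitePlace.norm_def, FinitePlace.norm_def]
  conv_lhs => rw [e1]
  rw [map_zpow₀]
  push_cast
  rfl

theorem sub_ultra (x y : v.adicCompletion K) : ‖x - y‖ ≤ max ‖x‖ ‖y‖ := by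
  have := IsUltrametricDist.norm_add_le_max x (-y)
  rwa [norm_neg, ← sub_eq_add_neg] at this

theorem exists_close {x : v.adicCompletion K} (hx : ‖x‖ ≤ 1) :
    ∃ a : 𝓞 K, ‖x - algebraMap K (v.adicCompletion K) (a : K)‖ < 1 := by
  obtain ⟨y, hy⟩ := (denseRange_algebraMap K v).exists_dist_lt x (ε := 1) one_pos
  rw [dist_eq_norm] at hy
  have hy1 : ‖algebraMap K (v.adicCompletion K) y‖ ≤ 1 := by
    have e : algebraMap K (v.adicCompletion K) y = x - (x - algebraMap K (v.adicCompletion K) y) := by ring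
    rw [e]
    exact (sub_ultra v _ _).trans (max_le hx hy.le)
  rw [norm_le_one_iff'] at hy1
  obtain ⟨a, ha⟩ := v.exists_valuation_sub_lt_of_integer hy1 1
  refine ⟨a, ?_⟩
  have ha' : ‖algebraMap K (v.adicCompletion K) ((a : K) - y)‖ < 1 := by
    rw [norm_lt_one_iff']
    exact_mod_cast ha
  have e : x - algebraMap K (v.adicCompletion K) (a : K) =
      (x - algebraMap K (v.adicCompletion K) y) - algebraMap K (v.adicCompletion K) ((a : K) - y) := by
    rw [map_sub]; ring
  rw [e]
  exact (sub_ultra v _ _).trans_lt (max_lt hy ha')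

/-- N10 -/
theorem exists_locAbs {K : Type u} [Field K] [NumberField K] (v : HeightOneSpectrum (𝓞 K)) :
    ∃ (F Ω : Type u) (_ : Field F) (_ : Field Ω) (_ : Algebra K F) (_ : Algebra F Ω) (_ : CharZero F)
      (_ : IsAlgClosed Ω) (_ : Algebra.IsAlgebraic F Ω) (D : LocAbs F Ω), Compat v D := by
  obtain ⟨π₀, hπ₀⟩ := v.valuation_exists_uniformizer K
  have hπ0 : π₀ ≠ 0 := by
    rintro rfl
    rw [map_zero] at hπ₀
    exact WithZero.exp_ne_zero hπ₀.symm
  have hlt : v.valuation K π₀ < 1 := by
    rw [hπ₀, ← WithZero.exp_zero]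
    exact WithZero.exp_lt_exp.2 (by norm_num)
  set π : v.adicCompletion K := algebraMap K _ π₀ with hπ
  have hπne : π ≠ 0 := by
    rw [hπ]; exact (_root_.map_ne_zero _).2 hπ0
  have hπlt : ‖π‖ < 1 := by rw [hπ, norm_lt_one_iff']; exact hlt
  let _ : NontriviallyNormedField (v.adicCompletion K) :=
    NontriviallyNormedField.ofNormNeOne ⟨π, hπne, hπlt.ne⟩
  have : Finite (𝓞 K ⧸ v.asIdeal) := v.asIdeal.finiteQuotientOfFreeOfNeBot v.ne_bot
  have := v.isMaximal
  let _ := Ideal.Quotient.field v.asIdeal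
  let _ : Fintype (𝓞 K ⧸ v.asIdeal) := Fintype.ofFinite _
  obtain ⟨p, hp⟩ := CharP.exists (𝓞 K ⧸ v.asIdeal)
  obtain ⟨a, hp', ha⟩ := FiniteField.card (𝓞 K ⧸ v.asIdeal) p
  have hpv : (p : 𝓞 K) ∈ v.asIdeal := by
    rw [← Ideal.Quotient.eq_zero_iff_mem, map_natCast]
    exact CharP.cast_eq_zero _ p
  have hfermat : ∀ x : 𝓞 K, x ^ p ^ (a : ℕ) - x ∈ v.asIdeal := by
    intro x
    rw [← Ideal.Quotient.eq_zero_iff_mem, map_sub, map_pow, ← ha, FiniteField.pow_card, sub_self]
  have hmem : ∀ x : 𝓞 K, x ∈ v.asIdeal → ‖algebraMap K (v.adicCompletion K) (x : K)‖ < 1 := by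
    intro x hx
    rw [norm_lt_one_iff']
    exact (v.valuation_lt_one_iff_mem x).2 hx
  have hint : ∀ x : 𝓞 K, ‖algebraMap K (v.adicCompletion K) (x : K)‖ ≤ 1 := by
    intro x
    rw [norm_le_one_iff']
    exact v.valuation_le_one x
  obtain ⟨D, hD⟩ := locAbs_of_complete π hπne hπlt
    (fun x hx => norm_eq_zpow v hx (by rw [hπ]; exact (valuedAdicCompletion_eq_valuation' v π₀).trans hπ₀))
    p hp' (by have := hmem _ hpv; simpa using this) a a.2 (by
      intro x hx
      obtain ⟨y, hy⟩ := exists_close v hx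
      have h1 := na_pow_sub (NormedField.toAbsoluteValue (v.adicCompletion K))
        (fun x y => IsUltrametricDist.norm_add_le_max x y) hx (hint y) hy (p ^ (a : ℕ))
      have h2 := hmem _ (hfermat y)
      have e : x ^ p ^ (a : ℕ) - x = ((x ^ p ^ (a : ℕ) - algebraMap K (v.adicCompletion K) (y : K) ^ p ^ (a : ℕ)) +
          algebraMap K (v.adicCompletion K) ((y ^ p ^ (a : ℕ) - y : 𝓞 K) : K)) -
          (x - algebraMap K (v.adicCompletion K) (y : K)) := by
        simp only [map_sub, map_pow]
        ring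
      rw [e]
      exact (sub_ultra v _ _).trans_lt (max_lt
        ((IsUltrametricDist.norm_add_le_max _ _).trans_lt (max_lt h1 h2)) hy))
  refine ⟨v.adicCompletion K, AlgebraicClosure (v.adicCompletion K), inferInstance, inferInstance, inferInstance,
    inferInstance, ?_, inferInstance, inferInstance, D, ?_⟩
  · exact charZero_of_injective_algebraMap (algebraMap K (v.adicCompletion K)).injective
  · intro x
    rw [hD]
    exact ⟨norm_le_one_iff' v x, norm_lt_one_iff' v x⟩

end

end Pool.Agent.ORB.NI
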