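import Pool.Agent.ORB.NGlob

/-! ORB, Theorem B, row N11: a polynomial is good at almost every place. -/

set_option autoImplicit false

namespace Pool.Agent.ORB.NI

open Polynomial IntermediateField NumberField IsDedekindDomain

universe u

section unit

variable {K : Type u} [Field K] [NumberField K]

/-- the places where `x` is not a unit -/
def badU (x : K) : Set (HeightOneSpectrum (𝓞 K)) := {v | v.valuation K x ≠ 1}

theorem badU_finite {x : K} (hx : x ≠ 0) : (badU x).Finite := by
  have h1 := HeightOneSpectrum.Support.finite (R := 𝓞 K) (K := K) x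
  have h2 := HeightOneSpectrum.Support.finite (R := 𝓞 K) (K := K) x⁻¹
  refine (h1.union h2).subset ?_
  intro v hv
  have hv' : v.valuation K x ≠ 1 := hv
  rcases lt_or_gt_of_ne hv' with h | h
  · right
    show 1 < v.valuation K x⁻¹
    rw [map_inv₀]
    have h0 : v.valuation K x ≠ 0 := (Valuation.ne_zero_iff _).2 hx
    exact (one_lt_inv₀ (zero_lt_iff.2 h0)).2 h
  · left
    exact h

/-- the places where a coefficient of `P` is not a unit (and not zero) -/
def badP (P : K[X]) : Set (HeightOneSpectrum (𝓞 K)) := ⋃ n ∈ P.support, badU (P.coeff n)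

theorem badP_finite (P : K[X]) : (badP P).Finite := by
  refine Set.Finite.biUnion (Finset.finite_toSet _) ?_
  intro n hn
  exact badU_finite (mem_support_iff.1 hn)

theorem valuation_of_notMem_badU {x : K} {v : HeightOneSpectrum (𝓞 K)} (hv : v ∉ badU x) :
    v.valuation K x = 1 := by
  by_contra h
  exact hv h

theorem coeff_le_one {P : K[X]} {v : HeightOneSpectrum (𝓞 K)} (hv : v ∉ badP P) (n : ℕ) :
    v.valuation K (P.coeff n) ≤ 1 := by
  by_cases h : P.coeff n = 0
  · rw [h, map_zero]
    exact zero_le_one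
  · refine (valuation_of_notMem_badU ?_).le
    intro hb
    exact hv (Set.mem_biUnion (mem_support_iff.2 h) hb)

end unit

section loc

variable {K : Type u} [Field K] [NumberField K] {v : HeightOneSpectrum (𝓞 K)}
  {F Ω : Type u} [Field F] [Field Ω] [Algebra K F] [Algebra F Ω] {D : LocAbs F Ω}

theorem N_le {D : LocAbs F Ω} (hD : Compat v D) {x : K} (hx : v.valuation K x ≤ 1) :
    D.N (algebraMap F Ω (algebraMap K F x)) ≤ 1 := ((hD x).1).2 hx

theorem N_eq {D : LocAbs F Ω} (hD : Compat v D) {x : K} (hx : v.valuation K x = 1) :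
    D.N (algebraMap F Ω (algebraMap K F x)) = 1 := by
  refine le_antisymm (N_le hD hx.le) ?_
  by_contra h
  push Not at h
  have := ((hD x).2).1 h
  rw [hx] at this
  exact lt_irrefl _ this

/-- a root of a monic polynomial with integral coefficients is integral -/
theorem N_root_le (N : AbsoluteValue Ω ℝ) (hN : ∀ x y : Ω, N (x + y) ≤ max (N x) (N y)) (P : Polynomial Ω)
    (hP : P.Monic) (hc : ∀ n, N (P.coeff n) ≤ 1) {x : Ω} (hx : P.eval x = 0) : N x ≤ 1 := by
  by_contra h
  push Not at h
  have hpos : 0 < N x := lt_trans one_pos h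
  -- the sum over the lower coefficients
  have hsum : ∀ (s : Finset ℕ) (g : ℕ → Ω) (B : ℝ), 0 ≤ B → (∀ i ∈ s, N (g i) ≤ B) → N (∑ i ∈ s, g i) ≤ B := by
    intro s g B hB
    classical
    induction s using Finset.induction_on with
    | empty => intro _; simpa using hB
    | insert a s ha ih =>
      intro hg
      rw [Finset.sum_insert ha]
      refine (hN _ _).trans (max_le (hg a (Finset.mem_insert_self _ _)) (ih fun i hi => hg i (Finset.mem_insert_of_mem hi)))
  rw [eval_eq_sum_range, Finset.sum_range_succ, hP.coeff_natDegree, one_mul] at hx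
  have h1 : x ^ P.natDegree = - ∑ i ∈ Finset.range P.natDegree, P.coeff i * x ^ i := by
    linear_combination hx
  rcases Nat.eq_zero_or_pos P.natDegree with h0 | h0
  · rw [h0] at h1
    simp at h1
  have h2 : N (x ^ P.natDegree) ≤ N x ^ (P.natDegree - 1) := by
    rw [h1, N.map_neg]
    refine hsum _ _ _ (pow_nonneg hpos.le _) ?_
    intro i hi
    rw [map_mul, map_pow]
    have hi' : i ≤ P.natDegree - 1 := by
      have := Finset.mem_range.1 hi
      omega
    calc N (P.coeff i) * N x ^ i ≤ 1 * N x ^ i := by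
          exact mul_le_mul_of_nonneg_right (hc i) (pow_nonneg hpos.le _)
      _ = N x ^ i := one_mul _
      _ ≤ N x ^ (P.natDegree - 1) := pow_le_pow_right₀ h.le hi'
  rw [map_pow] at h2
  have h3 : N x ^ (P.natDegree - 1) < N x ^ P.natDegree := pow_lt_pow_right₀ h (by omega)
  exact absurd h2 (not_le.2 h3)

end loc

theorem good_finite {K : Type u} [Field K] [NumberField K] (f : K[X]) (hf : 2 ≤ f.natDegree) :
    ∃ B : Set (HeightOneSpectrum (𝓞 K)), B.Finite ∧ ∀ v ∉ B, ∀ (F Ω : Type u) [Field F] [Field Ω] [Algebra K F]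
      [Algebra F Ω] [CharZero F] [IsAlgClosed Ω] (D : LocAbs F Ω), Compat v D →
      Good D (f.map (algebraMap K F)) := by
  classical
  set Kb := AlgebraicClosure K with hKb
  -- the differences of the critical points
  set Rt : Finset Kb := ((derivative f).aroots Kb).toFinset with hRt
  set X : Finset Kb := ((Rt ×ˢ Rt).image fun q => q.1 - q.2) with hX
  set B : Set (HeightOneSpectrum (𝓞 K)) :=
    badP f ∪ (⋃ n ∈ Finset.Icc 1 f.natDegree, badU (n : K)) ∪ (⋃ x ∈ X, badP (minpoly K x⁻¹)) ∪
      (⋃ x ∈ X, badP (minpoly K x)) with hB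
  refine ⟨B, ?_, ?_⟩
  · refine ((Set.Finite.union (Set.Finite.union (badP_finite f) ?_) ?_).union ?_)
    · refine Set.Finite.biUnion (Finset.finite_toSet _) ?_
      intro n hn
      have hn1 : 1 ≤ n := (Finset.mem_Icc.1 hn).1
      exact badU_finite (Nat.cast_ne_zero.2 (by omega))
    · exact Set.Finite.biUnion (Finset.finite_toSet _) fun x _ => badP_finite _
    · exact Set.Finite.biUnion (Finset.finite_toSet _) fun x _ => badP_finite _
  intro v hv F Ω _ _ _ _ _ _ D hD
  have hv1 : v ∉ badP f := fun h => hv (Or.inl (Or.inl (Or.inl h)))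
  have hv2 : ∀ n, 1 ≤ n → n ≤ f.natDegree → v ∉ badU (n : K) := fun n h1 h2 h =>
    hv (Or.inl (Or.inl (Or.inr (Set.mem_biUnion (Finset.mem_Icc.2 ⟨h1, h2⟩) h))))
  have hv3 : ∀ x ∈ X, v ∉ badP (minpoly K x⁻¹) := fun x hx h => hv (Or.inl (Or.inr (Set.mem_biUnion hx h)))
  have hv4 : ∀ x ∈ X, v ∉ badP (minpoly K x) := fun x hx h => hv (Or.inr (Set.mem_biUnion hx h))
  have hf0 : f ≠ 0 := by
    rintro rfl
    simp at hf
  have hdeg : (f.map (algebraMap K F)).natDegree = f.natDegree := natDegree_map _
  let _ : Algebra K Ω := ((algebraMap F Ω).comp (algebraMap K F)).toAlgebra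
  have : IsScalarTower K F Ω := IsScalarTower.of_algebraMap_eq' rfl
  have hmap : ∀ x : K, algebraMap K Ω x = algebraMap F Ω (algebraMap K F x) := fun x => rfl
  -- roots in `Ω` come from the algebraic closure
  let σ : Kb →ₐ[K] Ω := IsAlgClosed.lift
  have hinj : Function.Injective σ := σ.toRingHom.injective
  have hd0 : derivative f ≠ 0 := by
    intro h
    have := Polynomial.derivative_eq_zero.1 h
    omega
  have hroot : ∀ c : Ω, aeval c (derivative (f.map (algebraMap K F))) = 0 → ∃ c₀ ∈ Rt, σ c₀ = c := by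
    intro c hc
    rw [derivative_map, aeval_map_algebraMap] at hc
    have hsp : (((derivative f).map (algebraMap K Kb))).Splits := IsAlgClosed.splits _
    have h1 : (derivative f).aroots Ω = ((derivative f).aroots Kb).map σ := by
      have h2 := hsp.roots_map σ.toRingHom
      rw [aroots_def, aroots_def]
      have h3 : ((derivative f).map (algebraMap K Kb)).map σ.toRingHom = (derivative f).map (algebraMap K Ω) := by
        rw [Polynomial.map_map]
        congr 1
        ext x
        exact σ.commutes x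
      rw [← h3]
      exact h2
    have h4 : c ∈ (derivative f).aroots Ω := (mem_aroots).2 ⟨hd0, hc⟩
    rw [h1, Multiset.mem_map] at h4
    obtain ⟨c₀, h5, h6⟩ := h4
    exact ⟨c₀, Multiset.mem_toFinset.2 h5, h6⟩
  have hint : ∀ x : Kb, v ∉ badP (minpoly K x) → D.N (σ x) ≤ 1 := by
    intro x hx
    have hm : (minpoly K x).Monic := minpoly.monic (Algebra.IsIntegral.isIntegral x)
    refine N_root_le D.N D.nonarch ((minpoly K x).map (algebraMap K Ω)) (hm.map _) ?_ ?_
    · intro n
      rw [coeff_map]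
      exact N_le hD (coeff_le_one hx n)
    · have h1 : aeval (σ x) (minpoly K x) = 0 := by
        rw [aeval_algHom_apply, minpoly.aeval, map_zero]
      rwa [eval_map_algebraMap]
  refine ⟨?_, ?_, ?_, ?_, ?_⟩
  · rw [hdeg]; exact hf
  · intro n
    rw [coeff_map]
    exact N_le hD (coeff_le_one hv1 n)
  · rw [leadingCoeff_map]
    refine N_eq hD (valuation_of_notMem_badU ?_)
    intro hb
    refine hv1 (Set.mem_biUnion (mem_support_iff.2 ?_) hb)
    exact leadingCoeff_ne_zero.2 hf0
  · intro n hn1 hn2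
    rw [hdeg] at hn2
    have h := N_eq hD (valuation_of_notMem_badU (hv2 n hn1 hn2))
    simpa using h
  · intro c c' hc hc' hne
    obtain ⟨c₀, h0, rfl⟩ := hroot c hc
    obtain ⟨c₁, h1, rfl⟩ := hroot c' hc'
    have hne' : c₀ ≠ c₁ := fun h => hne (by rw [h])
    have hmem : c₀ - c₁ ∈ X := Finset.mem_image.2 ⟨(c₀, c₁), Finset.mem_product.2 ⟨h0, h1⟩, rfl⟩
    have ha := hint _ (hv4 _ hmem)
    have hb := hint _ (hv3 _ hmem)
    rw [← map_sub]
    refine le_antisymm ha ?_
    have hx0 : c₀ - c₁ ≠ 0 := sub_ne_zero.2 hne'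
    have hσ0 : σ (c₀ - c₁) ≠ 0 := fun h => hx0 (hinj (by rw [h, map_zero]))
    rw [map_inv₀, map_inv₀] at hb
    have hpos : 0 < D.N (σ (c₀ - c₁)) := D.N.pos hσ0
    exact (inv_le_one₀ hpos).1 hb

end Pool.Agent.ORB.NI
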