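import Pool.Agent.ORB.NProd

/-! ORB, Theorem B, N12: restriction of the local automorphism to the algebraic closure of the number field. -/

namespace Pool.Agent.ORB.NI

open Polynomial IntermediateField NumberField IsDedekindDomain

universe u

section restr

variable {K F E Ω : Type*} [Field K] [Field F] [Field E] [Field Ω] [Algebra K F] [Algebra F Ω] [Algebra K E]
  [Algebra K Ω] [IsScalarTower K F Ω] [Algebra E Ω] [IsScalarTower K E Ω]

theorem ev_map (f : K[X]) (z : E) :
    ev (f.map (algebraMap K F)) (algebraMap E Ω z) = algebraMap E Ω (ev f z) := by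
  unfold ev
  rw [aeval_map_algebraMap, aeval_algebraMap_apply]

theorem ev_map_iter (f : K[X]) (n : ℕ) (z : E) :
    (ev (f.map (algebraMap K F)))^[n] (algebraMap E Ω z) = algebraMap E Ω ((ev f)^[n] z) := by
  induction n generalizing z with
  | zero => rfl
  | succ n ih => rw [Function.iterate_succ_apply, ev_map, ih, ← Function.iterate_succ_apply]

theorem node_map {f : K[X]} {b : K} {k : ℕ} {z : E} (hz : z ∈ Node E f b k) :
    algebraMap E Ω z ∈ Node Ω (f.map (algebraMap K F)) (algebraMap K F b) k := by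
  show (ev (f.map (algebraMap K F)))^[k] (algebraMap E Ω z) = _
  rw [ev_map_iter, show (ev f)^[k] z = algebraMap K E b from hz, ← IsScalarTower.algebraMap_apply K E Ω,
    ← IsScalarTower.algebraMap_apply K F Ω]

/-- the restriction of an automorphism of `Ω` over `F` to the normal extension `E` of `K` -/
theorem exists_restr [Normal K E] (A : Ω ≃ₐ[F] Ω) :
    ∃ B : E ≃ₐ[K] E, ∀ z : E, algebraMap E Ω (B z) = A (algebraMap E Ω z) :=
  ⟨(A.restrictScalars K).restrictNormal E, fun z => (A.restrictScalars K).restrictNormal_commutes E z⟩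

end restr

theorem eval_map_iter {K F : Type*} [Field K] [Field F] [Algebra K F] (f : K[X]) (n : ℕ) (x : K) :
    (fun y => eval y (f.map (algebraMap K F)))^[n] (algebraMap K F x) =
      algebraMap K F ((fun y => eval y f)^[n] x) := by
  induction n generalizing x with
  | zero => rfl
  | succ n ih =>
    rw [Function.iterate_succ_apply, Function.iterate_succ_apply, ← ih]
    congr 1
    rw [eval_map_algebraMap, aeval_algebraMap_apply, coe_aeval_eq_eval]

/-- N12, from the local theorem over one completion -/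
theorem restrict_local {K : Type u} [Field K] [NumberField K] (v : HeightOneSpectrum (𝓞 K)) {E : Type u} [Field E]
    [Algebra K E] [IsAlgClosed E] [Algebra.IsAlgebraic K E] {F Ω : Type u} [Field F] [Field Ω] [Algebra K F]
    [Algebra F Ω] [IsAlgClosed Ω] (D : LocAbs F Ω) (hD : Compat v D) {ι : Type*} (f : ι → K[X])
    (b : ι → K) (t : ℕ)
    (h : ∃ (A : Ω ≃ₐ[F] Ω) (s : ℕ), ∀ i,
      (∀ k, k ≤ t → ∀ z ∈ Node Ω ((f i).map (algebraMap K F)) (algebraMap K F (b i)) k, A z = z) ∧
      (∀ k, s ≤ k → ∀ z ∈ Node Ω ((f i).map (algebraMap K F)) (algebraMap K F (b i)) k, A z = z →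
        ∀ m z', (ev ((f i).map (algebraMap K F)))^[m] z' = z → A z' = z') ∧
      (1 < D.N (algebraMap F Ω (algebraMap K F (b i))) → ∀ k, s ≤ k →
        ∀ z ∈ Node Ω ((f i).map (algebraMap K F)) (algebraMap K F (b i)) k, A z ≠ z)) :
    ∃ (A : E ≃ₐ[K] E) (s : ℕ), Nice f b t s A ∧
      ∀ i, 1 < v.valuation K (b i) → ∀ k, s ≤ k → ∀ z ∈ Node E (f i) (b i) k, A z ≠ z := by
  let algKΩ : Algebra K Ω := ((algebraMap F Ω).comp (algebraMap K F)).toAlgebra
  have t1 : IsScalarTower K F Ω := IsScalarTower.of_algebraMap_eq (fun x => rfl)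
  let φ : E →ₐ[K] Ω := IsAlgClosed.lift
  let algEΩ : Algebra E Ω := φ.toRingHom.toAlgebra
  have t2 : IsScalarTower K E Ω := IsScalarTower.of_algebraMap_eq (fun x => (φ.commutes x).symm)
  have hc : IsAlgClosure K E := ⟨inferInstance, inferInstance⟩
  have hn : Normal K E := IsAlgClosure.normal K E
  obtain ⟨A, s, h⟩ := h
  obtain ⟨B, hB⟩ := exists_restr (K := K) (E := E) A
  have hinj : Function.Injective (algebraMap E Ω) := (algebraMap E Ω).injective
  refine ⟨B, s, ?_, ?_⟩
  · intro i
    obtain ⟨h1, h2, -⟩ := h i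
    refine ⟨?_, ?_⟩
    · intro k hk z hz
      apply hinj
      rw [hB]
      exact h1 k hk _ (node_map hz)
    · intro k hk z hz hBz m z' hm
      apply hinj
      rw [hB]
      refine h2 k hk _ (node_map hz) ?_ m _ ?_
      · rw [← hB, hBz]
      · rw [ev_map_iter, hm]
  · intro i hi k hk z hz hBz
    refine (h i).2.2 ?_ k hk _ (node_map hz) ?_
    · by_contra hcon
      exact absurd ((hD (b i)).1.1 (not_lt.1 hcon)) (not_le.2 hi)
    · rw [← hB, hBz]

end Pool.Agent.ORB.NI
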