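import Pool.Agent.ORB.RPair
import Pool.Agent.ORB.Val

/-! ORB, rational functions, R2: good reduction, reduction of points of `P^1`, periodicity modulo `v`. -/

namespace Pool.Agent.ORB

open NumberField IsDedekindDomain Polynomial

universe u

section prim

variable {F : Type*} [Field F] {Γ₀ : Type*} [LinearOrderedCommGroupWithZero Γ₀]

/-- primitive coordinates -/
def Prim (v : Valuation F Γ₀) (x y : F) : Prop := v x ≤ 1 ∧ v y ≤ 1 ∧ (v x = 1 ∨ v y = 1)

theorem Prim.ne_zero {v : Valuation F Γ₀} {x y : F} (h : Prim v x y) : x ≠ 0 ∨ y ≠ 0 := by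
  rcases h.2.2 with h1 | h1
  · left
    rintro rfl
    rw [map_zero] at h1
    exact zero_ne_one h1
  · right
    rintro rfl
    rw [map_zero] at h1
    exact zero_ne_one h1

theorem prim_left {v : Valuation F Γ₀} {t : F} (ht : v t ≤ 1) : Prim v 1 t :=
  ⟨by rw [map_one], ht, Or.inl (map_one v)⟩

theorem prim_right {v : Valuation F Γ₀} {t : F} (ht : v t ≤ 1) : Prim v t 1 :=
  ⟨ht, by rw [map_one], Or.inr (map_one v)⟩

theorem mk2_inv {a : F} (ha : a ≠ 0) : (a : OnePoint F) = mk2 1 a⁻¹ := by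
  rw [mk2_ne (inv_ne_zero ha), one_div, inv_inv]

theorem exists_prim (v : Valuation F Γ₀) (x : OnePoint F) : ∃ a b : F, Prim v a b ∧ x = mk2 a b := by
  induction x using OnePoint.rec with
  | infty =>
    exact ⟨1, 0, prim_left (by rw [map_zero]; exact zero_le_one), (mk2_zero 1).symm⟩
  | coe a =>
    by_cases ha : v a ≤ 1
    · exact ⟨a, 1, prim_right ha, (mk2_one a).symm⟩
    · rw [not_le] at ha
      have ha0 : a ≠ 0 := by
        rintro rfl
        rw [map_zero] at ha
        exact absurd ha (not_lt.2 zero_le_one)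
      refine ⟨1, a⁻¹, prim_left ?_, mk2_inv ha0⟩
      rw [map_inv₀]
      exact inv_le_one_of_one_le₀ ha.le

theorem IntC.add {v : Valuation F Γ₀} {p q : F[X]} (hp : IntC v p) (hq : IntC v q) :
    IntC v (p + q) := by
  intro j
  rw [coeff_add]
  exact Valuation.map_add_le v (hp j) (hq j)

theorem IntC.sub {v : Valuation F Γ₀} {p q : F[X]} (hp : IntC v p) (hq : IntC v q) :
    IntC v (p - q) := by
  intro j
  rw [coeff_sub]
  exact (Valuation.map_sub v _ _).trans (max_le (hp j) (hq j))

theorem IntC.mul {v : Valuation F Γ₀} {p q : F[X]} (hp : IntC v p) (hq : IntC v q) :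
    IntC v (p * q) := by
  rw [intC_iff] at hp hq ⊢
  exact mul_mem hp hq

theorem IntC.const {v : Valuation F Γ₀} {c : F} (hc : v c ≤ 1) : IntC v (C c) := by
  intro j
  rw [coeff_C]
  split_ifs
  · exact hc
  · rw [map_zero]
    exact zero_le_one

theorem IntC.one {v : Valuation F Γ₀} : IntC v (1 : F[X]) := by
  rw [← C_1]
  exact IntC.const (by rw [map_one])

theorem IntC.zero {v : Valuation F Γ₀} : IntC v (0 : F[X]) := by
  rw [← C_0]
  exact IntC.const (by rw [map_zero]; exact zero_le_one)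

theorem IntC.X {v : Valuation F Γ₀} : IntC v (X : F[X]) := by
  intro j
  rw [coeff_X]
  split_ifs
  · rw [map_one]
  · rw [map_zero]
    exact zero_le_one

theorem IntC.pow {v : Valuation F Γ₀} {p : F[X]} (hp : IntC v p) (n : ℕ) : IntC v (p ^ n) := by
  induction n with
  | zero =>
    rw [pow_zero]
    exact IntC.one
  | succ n ih =>
    rw [pow_succ]
    exact ih.mul hp

theorem IntC.sum {v : Valuation F Γ₀} {ι : Type*} (s : Finset ι) (p : ι → F[X])
    (hp : ∀ i ∈ s, IntC v (p i)) : IntC v (∑ i ∈ s, p i) :=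
  Finset.sum_induction p (IntC v) (fun _ _ h1 h2 => h1.add h2) IntC.zero hp

theorem IntC.hc {v : Valuation F Γ₀} {P A B : F[X]} (hP : IntC v P) (hA : IntC v A) (hB : IntC v B)
    (e : ℕ) : IntC v (hc P e A B) :=
  IntC.sum _ _ (fun i _ => ((IntC.const (hP i)).mul (hA.pow i)).mul (hB.pow (e - i)))

theorem IntC.map {F' : Type*} [Field F'] {φ : F →+* F'} {v : Valuation F' Γ₀} {p : F[X]}
    (hp : IntC (v.comap φ) p) : IntC v (p.map φ) := by
  intro j
  rw [coeff_map]
  exact hp j

theorem Cong.sum {v : Valuation F Γ₀} {ι : Type*} (s : Finset ι) (p q : ι → F)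
    (hp : ∀ i ∈ s, Cong v (p i) (q i)) : Cong v (∑ i ∈ s, p i) (∑ i ∈ s, q i) := by
  classical
  induction s using Finset.induction_on with
  | empty =>
    rw [Finset.sum_empty, Finset.sum_empty]
    exact Cong.refl (by rw [map_zero]; exact zero_le_one)
  | insert a s ha ih =>
    rw [Finset.sum_insert ha, Finset.sum_insert ha]
    exact (hp a (Finset.mem_insert_self a s)).add (ih fun i hi => hp i (Finset.mem_insert_of_mem hi))

theorem Cong.hv {v : Valuation F Γ₀} {P : F[X]} (hP : IntC v P) (e : ℕ) {x x' y y' : F}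
    (hx : Cong v x x') (hy : Cong v y y') : Cong v (hv P e x y) (hv P e x' y') :=
  Cong.sum _ _ _ (fun i _ => ((Cong.refl (hP i)).mul (hx.pow i)).mul (hy.pow (e - i)))

theorem cong_zero {v : Valuation F Γ₀} {y : F} (hy : v y < 1) : Cong v y 0 :=
  ⟨hy.le, by rw [map_zero]; exact zero_le_one, by rw [sub_zero]; exact hy⟩

theorem Cong.val_one {v : Valuation F Γ₀} {x y : F} (h : Cong v x y) (hy : v y = 1) : v x = 1 := by
  have h1 : x = (x - y) + y := by ring
  rw [h1, Valuation.map_add_eq_of_lt_right _ (by rw [hy]; exact h.2.2), hy]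

/-- good reduction -/
def RP.Good (v : Valuation F Γ₀) (f : RP F) : Prop :=
  IntC v f.A ∧ IntC v f.B ∧ (∃ U V : F[X], IntC v U ∧ IntC v V ∧ U * f.A + V * f.B = 1) ∧
    (v (f.A.coeff f.d) = 1 ∨ v (f.B.coeff f.d) = 1)

theorem IntC.eval_le {v : Valuation F Γ₀} {p : F[X]} (hp : IntC v p) {a : F} (ha : v a ≤ 1) :
    v (p.eval a) ≤ 1 := ((Cong.refl ha).eval hp).1

theorem RP.Good.unit_eval {v : Valuation F Γ₀} {f : RP F} (h : f.Good v) {a : F} (ha : v a ≤ 1) :
    v (f.A.eval a) = 1 ∨ v (f.B.eval a) = 1 := by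
  obtain ⟨hA, hB, ⟨U, V, hU, hV, hUV⟩, -⟩ := h
  by_contra hcon
  rw [not_or] at hcon
  have h1 : v (f.A.eval a) < 1 := lt_of_le_of_ne (hA.eval_le ha) hcon.1
  have h2 : v (f.B.eval a) < 1 := lt_of_le_of_ne (hB.eval_le ha) hcon.2
  have h3 := congrArg (eval a) hUV
  rw [eval_add, eval_mul, eval_mul, eval_one] at h3
  have h4 : v (U.eval a * f.A.eval a + V.eval a * f.B.eval a) < 1 := by
    refine Valuation.map_add_lt _ ?_ ?_
    · rw [map_mul]
      exact mul_lt_one_of_nonneg_of_lt_one_right (hU.eval_le ha) zero_le h1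
    · rw [map_mul]
      exact mul_lt_one_of_nonneg_of_lt_one_right (hV.eval_le ha) zero_le h2
  rw [h3, map_one] at h4
  exact lt_irrefl _ h4

theorem RP.Good.prim {v : Valuation F Γ₀} {f : RP F} (h : f.Good v) {x y : F} (hxy : Prim v x y) :
    Prim v (hv f.A f.d x y) (hv f.B f.d x y) := by
  have hA := h.1
  have hB := h.2.1
  refine ⟨(Cong.hv hA f.d (Cong.refl hxy.1) (Cong.refl hxy.2.1)).1,
    (Cong.hv hB f.d (Cong.refl hxy.1) (Cong.refl hxy.2.1)).1, ?_⟩
  by_cases hy : v y < 1
  · have hx : v x = 1 := by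
      rcases hxy.2.2 with h1 | h1
      · exact h1
      · exact absurd h1 hy.ne
    have e1 := Cong.hv hA f.d (Cong.refl hxy.1) (cong_zero hy)
    have e2 := Cong.hv hB f.d (Cong.refl hxy.1) (cong_zero hy)
    rw [hv_zero] at e1 e2
    rcases h.2.2.2 with h1 | h1
    · left
      exact e1.val_one (by rw [map_mul, map_pow, hx, h1, one_pow, mul_one])
    · right
      exact e2.val_one (by rw [map_mul, map_pow, hx, h1, one_pow, mul_one])
  · have hy1 : v y = 1 := le_antisymm hxy.2.1 (not_lt.1 hy)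
    have hy0 : y ≠ 0 := by
      rintro rfl
      rw [map_zero] at hy1
      exact zero_ne_one hy1
    have hq : v (x / y) ≤ 1 := by
      rw [map_div₀, hy1, div_one]
      exact hxy.1
    rw [hv_ne f.hA x hy0, hv_ne f.hB x hy0, map_mul, map_mul, map_pow, hy1, one_pow, one_mul, one_mul]
    exact h.unit_eval hq

/-- homogeneous composition keeps the ideal `(1)` -/
theorem comp_bezout {O : Type*} [CommRing O] (P Q : O[X]) (e : ℕ) (hP : P.natDegree ≤ e)
    (hQ : Q.natDegree ≤ e) (hPQ : IsCoprime P Q) (htop : IsUnit (P.coeff e) ∨ IsUnit (Q.coeff e))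
    (A B : O[X]) (hAB : IsCoprime A B) :
    IsCoprime (∑ i ∈ Finset.range (e + 1), C (P.coeff i) * A ^ i * B ^ (e - i))
      (∑ i ∈ Finset.range (e + 1), C (Q.coeff i) * A ^ i * B ^ (e - i)) := by
  set a := ∑ i ∈ Finset.range (e + 1), C (P.coeff i) * A ^ i * B ^ (e - i) with ha
  set b := ∑ i ∈ Finset.range (e + 1), C (Q.coeff i) * A ^ i * B ^ (e - i) with hb
  by_contra hcon
  have hne : Ideal.span ({a, b} : Set O[X]) ≠ ⊤ := by
    intro h
    apply hcon
    rw [Ideal.eq_top_iff_one, Ideal.mem_span_pair] at h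
    obtain ⟨u, w, h⟩ := h
    exact ⟨u, w, h⟩
  obtain ⟨M, hM, hle⟩ := Ideal.exists_le_maximal _ hne
  let _ : Field (O[X] ⧸ M) := Ideal.Quotient.field M
  let π : O[X] →+* (O[X] ⧸ M) := Ideal.Quotient.mk M
  let φ : O →+* (O[X] ⧸ M) := π.comp C
  have hm : ∀ R : O[X], π (∑ i ∈ Finset.range (e + 1), C (R.coeff i) * A ^ i * B ^ (e - i)) =
      hv (R.map φ) e (π A) (π B) := by
    intro R
    unfold hv
    rw [map_sum]
    refine Finset.sum_congr rfl (fun i _ => ?_)
    rw [map_mul, map_mul, map_pow, map_pow, coeff_map]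
    rfl
  let g : RP (O[X] ⧸ M) :=
    { A := P.map φ
      B := Q.map φ
      d := e
      hA := natDegree_map_le.trans hP
      hB := natDegree_map_le.trans hQ
      hcop := hPQ.map (mapRingHom φ)
      htop := by
        rw [coeff_map, coeff_map]
        rcases htop with h | h
        · exact Or.inl (h.map φ).ne_zero
        · exact Or.inr (h.map φ).ne_zero }
  have h0 : π A ≠ 0 ∨ π B ≠ 0 := by
    by_contra hcon
    push Not at hcon
    obtain ⟨U, V, h⟩ := hAB
    have h1 := congrArg π h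
    rw [map_add, map_mul, map_mul, hcon.1, hcon.2, mul_zero, mul_zero, add_zero, map_one] at h1
    exact zero_ne_one h1
  have ha0 : π a = 0 := Ideal.Quotient.eq_zero_iff_mem.2 (hle (Ideal.subset_span (by simp)))
  have hb0 : π b = 0 := Ideal.Quotient.eq_zero_iff_mem.2 (hle (Ideal.subset_span (by simp)))
  rcases g.hv_ne_zero h0 with h1 | h1
  · exact h1 ((hm P).symm.trans ha0)
  · exact h1 ((hm Q).symm.trans hb0)

theorem RP.Good.comp {v : Valuation F Γ₀} {g h : RP F} (hg : g.Good v) (hh : h.Good v) :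
    (g.comp h).Good v := by
  have hprim : Prim v (h.A.coeff h.d) (h.B.coeff h.d) := ⟨hh.1 _, hh.2.1 _, hh.2.2.2⟩
  refine ⟨IntC.hc hg.1 hh.1 hh.2.1 _, IntC.hc hg.2.1 hh.1 hh.2.1 _, ?_, ?_⟩
  · obtain ⟨hgA, hgB, ⟨gU, gV, hgU, hgV, hguv⟩, hgt⟩ := hg
    obtain ⟨hhA, hhB, ⟨hU, hV, hhU, hhV, hhuv⟩, -⟩ := hh
    rw [intC_iff, mem_lifts] at hgA hgB hgU hgV hhA hhB hhU hhV
    obtain ⟨gA0, egA⟩ := hgA
    obtain ⟨gB0, egB⟩ := hgB
    obtain ⟨gU0, egU⟩ := hgU
    obtain ⟨gV0, egV⟩ := hgV
    obtain ⟨hA0, ehA⟩ := hhA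
    obtain ⟨hB0, ehB⟩ := hhB
    obtain ⟨hU0, ehU⟩ := hhU
    obtain ⟨hV0, ehV⟩ := hhV
    have hinj : Function.Injective (Polynomial.map v.integer.subtype) :=
      Polynomial.map_injective _ Subtype.val_injective
    have e1 : IsCoprime gA0 gB0 := by
      refine ⟨gU0, gV0, hinj ?_⟩
      rw [Polynomial.map_add, Polynomial.map_mul, Polynomial.map_mul, Polynomial.map_one, egA, egB, egU, egV, hguv]
    have e2 : IsCoprime hA0 hB0 := by
      refine ⟨hU0, hV0, hinj ?_⟩
      rw [Polynomial.map_add, Polynomial.map_mul, Polynomial.map_mul, Polynomial.map_one, ehA, ehB, ehU, ehV, hhuv]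
    have hunit : ∀ (R : v.integer[X]) (i : ℕ), v ((R.map v.integer.subtype).coeff i) = 1 →
        IsUnit (R.coeff i) := by
      intro R i hi
      rw [coeff_map] at hi
      exact (Valuation.integer.integers v).isUnit_of_one' hi
    have e3 : IsUnit (gA0.coeff g.d) ∨ IsUnit (gB0.coeff g.d) := by
      rcases hgt with h1 | h1
      · left
        exact hunit _ _ (by rw [egA]; exact h1)
      · right
        exact hunit _ _ (by rw [egB]; exact h1)
    have d1 : gA0.natDegree ≤ g.d := by
      rw [← natDegree_map_eq_of_injective (f := v.integer.subtype) Subtype.val_injective, egA]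
      exact g.hA
    have d2 : gB0.natDegree ≤ g.d := by
      rw [← natDegree_map_eq_of_injective (f := v.integer.subtype) Subtype.val_injective, egB]
      exact g.hB
    obtain ⟨U, V, hUV⟩ := comp_bezout gA0 gB0 g.d d1 d2 e1 e3 hA0 hB0 e2
    have hmap : ∀ R : v.integer[X], (∑ i ∈ Finset.range (g.d + 1), C (R.coeff i) * hA0 ^ i *
        hB0 ^ (g.d - i)).map v.integer.subtype = hc (R.map v.integer.subtype) g.d h.A h.B := by
      intro R
      unfold hc
      rw [Polynomial.map_sum]
      refine Finset.sum_congr rfl (fun i _ => ?_)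
      rw [Polynomial.map_mul, Polynomial.map_mul, Polynomial.map_pow, Polynomial.map_pow, map_C, coeff_map, ehA, ehB]
    refine ⟨U.map v.integer.subtype, V.map v.integer.subtype, ?_, ?_, ?_⟩
    · rw [intC_iff, mem_lifts]
      exact ⟨U, rfl⟩
    · rw [intC_iff, mem_lifts]
      exact ⟨V, rfl⟩
    · have h1 := congrArg (Polynomial.map v.integer.subtype) hUV
      rw [Polynomial.map_add, Polynomial.map_mul, Polynomial.map_mul, Polynomial.map_one, hmap, hmap,
        egA, egB] at h1
      exact h1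
  · have h1 : (g.comp h).A.coeff (g.comp h).d = hv g.A g.d (h.A.coeff h.d) (h.B.coeff h.d) :=
      hc_coeff _ _ h.hA h.hB
    have h2 : (g.comp h).B.coeff (g.comp h).d = hv g.B g.d (h.A.coeff h.d) (h.B.coeff h.d) :=
      hc_coeff _ _ h.hA h.hB
    rw [h1, h2]
    exact (hg.prim hprim).2.2

theorem RP.Good.iter {v : Valuation F Γ₀} {f : RP F} (h : f.Good v) (n : ℕ) : (f.iter n).Good v := by
  induction n with
  | zero =>
    refine ⟨IntC.X, IntC.one, ⟨0, 1, IntC.zero, IntC.one, ?_⟩, Or.inl ?_⟩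
    · rw [zero_mul, zero_add, one_mul]
      rfl
    · show v ((X : F[X]).coeff 1) = 1
      rw [coeff_X_one, map_one]
  | succ n ih => exact h.comp ih

/-- good reduction and base change -/
theorem RP.Good.map_comap {F' : Type*} [Field F'] {φ : F →+* F'} {v : Valuation F' Γ₀} {f : RP F}
    (h : f.Good (v.comap φ)) : (f.map φ).Good v := by
  obtain ⟨hA, hB, ⟨U, V, hU, hV, hUV⟩, ht⟩ := h
  refine ⟨hA.map, hB.map, ⟨U.map φ, V.map φ, hU.map, hV.map, ?_⟩, ?_⟩
  · have h1 := congrArg (Polynomial.map φ) hUV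
    rw [Polynomial.map_add, Polynomial.map_mul, Polynomial.map_mul, Polynomial.map_one] at h1
    exact h1
  · show v ((f.A.map φ).coeff f.d) = 1 ∨ v ((f.B.map φ).coeff f.d) = 1
    rw [coeff_map, coeff_map]
    exact ht

end prim

section red

variable {K : Type u} [Field K] [NumberField K] (v : HeightOneSpectrum (𝓞 K))

theorem redInfty_mk2 {v : HeightOneSpectrum (𝓞 K)} {x y : K} (h : Prim (v.valuation K) x y) :
    RedInfty v (mk2 x y) ↔ v.valuation K y < 1 := by
  by_cases hy : y = 0
  · rw [hy, mk2_zero, map_zero]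
    exact ⟨fun _ => zero_lt_one, fun _ a ha => absurd ha (OnePoint.infty_ne_coe a)⟩
  · rw [mk2_ne hy]
    have hy0 : 0 < v.valuation K y := by
      rw [Valuation.pos_iff]
      exact hy
    have hiff : RedInfty v ((x / y : K) : OnePoint K) ↔ v.valuation K y < v.valuation K x := by
      constructor
      · intro h1
        have h2 := h1 (x / y) rfl
        rw [map_div₀, one_lt_div₀ hy0] at h2
        exact h2
      · intro h1 a ha
        rw [← OnePoint.coe_injective ha, map_div₀, one_lt_div₀ hy0]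
        exact h1
    rw [hiff]
    constructor
    · intro h1
      exact lt_of_lt_of_le h1 h.1
    · intro h1
      rcases h.2.2 with h2 | h2
      · rw [h2]
        exact h1
      · exact absurd h2 h1.ne

theorem not_sameRed_of {v : HeightOneSpectrum (𝓞 K)} {x y : OnePoint K} (hx : RedInfty v x)
    (hy : ¬ RedInfty v y) : ¬ SameRed v x y := by
  rintro (⟨-, h⟩ | ⟨a, b, h1, -, h3, -, -⟩)
  · exact hy h
  · exact absurd (hx a h1) (not_lt.2 h3)

theorem SameRed.symm {v : HeightOneSpectrum (𝓞 K)} {x y : OnePoint K} (h : SameRed v x y) :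
    SameRed v y x := by
  rcases h with ⟨h1, h2⟩ | ⟨a, b, h1, h2, h3, h4, h5⟩
  · exact Or.inl ⟨h2, h1⟩
  · exact Or.inr ⟨b, a, h2, h1, h4, h3, by rw [Valuation.map_sub_swap]; exact h5⟩

theorem sameRed_mk2 {v : HeightOneSpectrum (𝓞 K)} {x y x' y' : K} (h : Prim (v.valuation K) x y)
    (h' : Prim (v.valuation K) x' y') :
    SameRed v (mk2 x y) (mk2 x' y') ↔ v.valuation K (x * y' - x' * y) < 1 := by
  -- `∞` and a finite point are different
  have key : ∀ {x y x' y' : K}, Prim (v.valuation K) x y → Prim (v.valuation K) x' y' →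
      v.valuation K y < 1 → ¬ v.valuation K y' < 1 →
      ¬ SameRed v (mk2 x y) (mk2 x' y') ∧ ¬ v.valuation K (x * y' - x' * y) < 1 := by
    intro x y x' y' h h' hy hy'
    refine ⟨not_sameRed_of ((redInfty_mk2 h).2 hy) (fun hc => hy' ((redInfty_mk2 h').1 hc)), ?_⟩
    have hx : v.valuation K x = 1 := by
      rcases h.2.2 with h2 | h2
      · exact h2
      · exact absurd h2 hy.ne
    have hy1 : v.valuation K y' = 1 := le_antisymm h'.2.1 (not_lt.1 hy')
    have e1 : v.valuation K (x * y') = 1 := by rw [map_mul, hx, hy1, one_mul]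
    have e2 : v.valuation K (x' * y) < 1 := by
      rw [map_mul]
      exact mul_lt_one_of_nonneg_of_lt_one_right h'.1 zero_le hy
    rw [Valuation.map_sub_eq_of_lt_left _ (by rw [e1]; exact e2), e1]
    exact lt_irrefl _
  by_cases hy : v.valuation K y < 1
  · by_cases hy' : v.valuation K y' < 1
    · refine ⟨fun _ => ?_, fun _ => Or.inl ⟨(redInfty_mk2 h).2 hy, (redInfty_mk2 h').2 hy'⟩⟩
      refine Valuation.map_sub_lt _ ?_ ?_
      · rw [map_mul]
        exact mul_lt_one_of_nonneg_of_lt_one_right h.1 zero_le hy'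
      · rw [map_mul]
        exact mul_lt_one_of_nonneg_of_lt_one_right h'.1 zero_le hy
    · have h1 := key h h' hy hy'
      exact ⟨fun h2 => absurd h2 h1.1, fun h2 => absurd h2 h1.2⟩
  · by_cases hy' : v.valuation K y' < 1
    · have h1 := key h' h hy' hy
      rw [Valuation.map_sub_swap] at h1
      exact ⟨fun h2 => absurd h2.symm h1.1, fun h2 => absurd h2 h1.2⟩
    · have e1 : v.valuation K y = 1 := le_antisymm h.2.1 (not_lt.1 hy)
      have e2 : v.valuation K y' = 1 := le_antisymm h'.2.1 (not_lt.1 hy')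
      have n1 : y ≠ 0 := by
        rintro rfl
        rw [map_zero] at e1
        exact zero_ne_one e1
      have n2 : y' ≠ 0 := by
        rintro rfl
        rw [map_zero] at e2
        exact zero_ne_one e2
      have e3 : v.valuation K (x / y - x' / y') = v.valuation K (x * y' - x' * y) := by
        rw [div_sub_div _ _ n1 n2, map_div₀, map_mul, e1, e2, one_mul, div_one, mul_comm y x']
      have i1 : v.valuation K (x / y) ≤ 1 := by
        rw [map_div₀, e1, div_one]
        exact h.1
      have i2 : v.valuation K (x' / y') ≤ 1 := by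
        rw [map_div₀, e2, div_one]
        exact h'.1
      rw [mk2_ne n1, mk2_ne n2, ← e3]
      constructor
      · intro h1
        exact (sameRed_coe i2 h1).2.2
      · intro h1
        exact Or.inr ⟨_, _, rfl, rfl, i1, i2, h1⟩

theorem SameRed.refl (x : OnePoint K) : SameRed v x x := by
  obtain ⟨a, b, h, rfl⟩ := exists_prim (v.valuation K) x
  rw [sameRed_mk2 h h, sub_self, map_zero]
  exact zero_lt_one

theorem SameRed.trans {v : HeightOneSpectrum (𝓞 K)} {x y z : OnePoint K} (h : SameRed v x y)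
    (h' : SameRed v y z) : SameRed v x z := by
  obtain ⟨x, x', hx, rfl⟩ := exists_prim (v.valuation K) x
  obtain ⟨y, y', hy, rfl⟩ := exists_prim (v.valuation K) y
  obtain ⟨z, z', hz, rfl⟩ := exists_prim (v.valuation K) z
  rw [sameRed_mk2 hx hy] at h
  rw [sameRed_mk2 hy hz] at h'
  rw [sameRed_mk2 hx hz]
  have hm : ∀ {s t : K}, v.valuation K s ≤ 1 → v.valuation K t < 1 → v.valuation K (s * t) < 1 := by
    intro s t hs ht
    rw [map_mul]
    exact mul_lt_one_of_nonneg_of_lt_one_right hs zero_le ht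
  rcases hy.2.2 with h1 | h1
  · have e : v.valuation K (x * z' - z * x') = v.valuation K (y * (x * z' - z * x')) := by
      rw [map_mul, h1, one_mul]
    have e' : y * (x * z' - z * x') = x * (y * z' - z * y') + z * (x * y' - y * x') := by ring
    rw [e, e']
    exact Valuation.map_add_lt _ (hm hx.1 h') (hm hz.1 h)
  · have e : v.valuation K (x * z' - z * x') = v.valuation K (y' * (x * z' - z * x')) := by
      rw [map_mul, h1, one_mul]
    have e' : y' * (x * z' - z * x') = z' * (x * y' - y * x') + x' * (y * z' - z * y') := by ring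
    rw [e, e']
    exact Valuation.map_add_lt _ (hm hz.2.1 h) (hm hx.2.1 h')

/-- coordinates of points with the same reduction -/
theorem sameRed_coords {v : HeightOneSpectrum (𝓞 K)} {x y : OnePoint K} (h : SameRed v x y) :
    ∃ a b a' b' : K, Prim (v.valuation K) a b ∧ Prim (v.valuation K) a' b' ∧ x = mk2 a b ∧
      y = mk2 a' b' ∧ Cong (v.valuation K) a a' ∧ Cong (v.valuation K) b b' := by
  have hinf : ∀ x : OnePoint K, RedInfty v x → ∃ t : K, v.valuation K t < 1 ∧ x = mk2 1 t := by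
    intro x hx
    induction x using OnePoint.rec with
    | infty => exact ⟨0, by rw [map_zero]; exact zero_lt_one, (mk2_zero 1).symm⟩
    | coe a =>
      have h1 := hx a rfl
      have ha : a ≠ 0 := by
        rintro rfl
        rw [map_zero] at h1
        exact absurd h1 (not_lt.2 zero_le_one)
      refine ⟨a⁻¹, ?_, mk2_inv ha⟩
      rw [map_inv₀]
      exact inv_lt_one_of_one_lt₀ h1
  have h11 : Cong (v.valuation K) 1 1 := Cong.refl (by rw [map_one])
  rcases h with ⟨h1, h2⟩ | ⟨a, b, h1, h2, h3, h4, h5⟩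
  · obtain ⟨s, hs, e1⟩ := hinf x h1
    obtain ⟨t, ht, e2⟩ := hinf y h2
    exact ⟨1, s, 1, t, prim_left hs.le, prim_left ht.le, e1, e2, h11,
      (cong_zero hs).trans (cong_zero ht).symm⟩
  · exact ⟨a, 1, b, 1, prim_right h3, prim_right h4, by rw [mk2_one]; exact h1,
      by rw [mk2_one]; exact h2, ⟨h3, h4, h5⟩, h11⟩

theorem RP.Good.sameRed {v : HeightOneSpectrum (𝓞 K)} {f : RP K} (hf : f.Good (v.valuation K))
    {x y : OnePoint K} (h : SameRed v x y) : SameRed v (f.act x) (f.act y) := by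
  obtain ⟨a, b, a', b', h1, h2, rfl, rfl, h3, h4⟩ := sameRed_coords h
  rw [f.act_mk2 h1.ne_zero, f.act_mk2 h2.ne_zero, sameRed_mk2 (hf.prim h1) (hf.prim h2)]
  have e1 := Cong.hv hf.1 f.d h3 h4
  have e2 := Cong.hv hf.2.1 f.d h3 h4
  have e3 := e1.mul e2.symm
  exact e3.2.2

theorem RP.Good.sameRed_iterate {v : HeightOneSpectrum (𝓞 K)} {f : RP K} (hf : f.Good (v.valuation K))
    {x y : OnePoint K} (h : SameRed v x y) (n : ℕ) : SameRed v (f.act^[n] x) (f.act^[n] y) := by
  induction n with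
  | zero => exact h
  | succ n ih =>
    rw [Function.iterate_succ_apply', Function.iterate_succ_apply']
    exact hf.sameRed ih

/-- `c` is `∞` or integral -/
def PtInt (v : HeightOneSpectrum (𝓞 K)) (c : OnePoint K) : Prop :=
  ∀ b : K, c = (b : OnePoint K) → v.valuation K b ≤ 1

theorem RP.Good.q_lt_iff {v : HeightOneSpectrum (𝓞 K)} {f : RP K} (hf : f.Good (v.valuation K))
    {c : OnePoint K} (hc : PtInt v c) {a : K} (ha : v.valuation K a ≤ 1) :
    v.valuation K ((f.q c).eval a) < 1 ↔ SameRed v (f.act (a : OnePoint K)) c := by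
  have hp : Prim (v.valuation K) (f.A.eval a) (f.B.eval a) :=
    ⟨hf.1.eval_le ha, hf.2.1.eval_le ha, hf.unit_eval ha⟩
  rw [RP.act_coe]
  induction c using OnePoint.rec with
  | infty =>
    rw [RP.q_infty, ← mk2_zero (1 : K), sameRed_mk2 hp (prim_left (by rw [map_zero]; exact zero_le_one)),
      mul_zero, zero_sub, one_mul, Valuation.map_neg]
  | coe b =>
    rw [RP.q_coe, ← mk2_one b, sameRed_mk2 hp (prim_right (hc b rfl)), mul_one, eval_sub, eval_mul, eval_C]

theorem RP.Good.q_le {v : HeightOneSpectrum (𝓞 K)} {f : RP K} (hf : f.Good (v.valuation K))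
    {c : OnePoint K} (hc : PtInt v c) : IntC (v.valuation K) (f.q c) := by
  induction c using OnePoint.rec with
  | infty => exact hf.2.1
  | coe b =>
    rw [RP.q_coe]
    exact hf.1.sub ((IntC.const (hc b rfl)).mul hf.2.1)

/-- not periodic modulo `v` -/
def RNonPer (v : HeightOneSpectrum (𝓞 K)) (f : RP K) (x : OnePoint K) : Prop :=
  ∀ m : ℕ, 1 ≤ m → ¬ SameRed v (f.act^[m] x) x

theorem RNonPer.of_iterate {v : HeightOneSpectrum (𝓞 K)} {f : RP K} (hf : f.Good (v.valuation K))
    {x : OnePoint K} {n : ℕ} (h : RNonPer v f (f.act^[n] x)) : RNonPer v f x := by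
  intro m hm hc
  apply h m hm
  have h1 := hf.sameRed_iterate hc n
  rw [← Function.iterate_add_apply, Nat.add_comm, Function.iterate_add_apply] at h1
  exact h1

/-- nonperiodicity depends on the reduction -/
theorem RNonPer.congr {v : HeightOneSpectrum (𝓞 K)} {f : RP K} (hf : f.Good (v.valuation K))
    {x y : OnePoint K} (hxy : SameRed v x y) (h : RNonPer v f x) : RNonPer v f y := by
  intro m hm hc
  exact h m hm (((hf.sameRed_iterate hxy m).trans hc).trans hxy.symm)

theorem iterate_mul_sameRed {v : HeightOneSpectrum (𝓞 K)} {f : RP K} (hf : f.Good (v.valuation K))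
    {x : OnePoint K} {m : ℕ} (h : SameRed v (f.act^[m] x) x) (k : ℕ) :
    SameRed v (f.act^[m * k] x) x := by
  induction k with
  | zero => exact SameRed.refl v x
  | succ k ih =>
    rw [Nat.mul_succ, Function.iterate_add_apply]
    exact (hf.sameRed_iterate h (m * k)).trans ih

/-- the reduction of `f` is injective on the periodic points modulo `v` -/
theorem per_inj {v : HeightOneSpectrum (𝓞 K)} {f : RP K} (hf : f.Good (v.valuation K))
    {x y : OnePoint K} (hx : ¬ RNonPer v f x) (hy : ¬ RNonPer v f y)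
    (h : SameRed v (f.act x) (f.act y)) : SameRed v x y := by
  unfold RNonPer at hx hy
  push Not at hx hy
  obtain ⟨m, hm, h1⟩ := hx
  obtain ⟨n, hn, h2⟩ := hy
  have e1 := iterate_mul_sameRed hf h1 n
  have e2 := iterate_mul_sameRed hf h2 m
  obtain ⟨k, hk⟩ := Nat.exists_eq_succ_of_ne_zero (Nat.mul_pos hm hn).ne'
  rw [hk, Function.iterate_succ_apply] at e1
  rw [Nat.mul_comm, hk, Function.iterate_succ_apply] at e2
  exact (e1.symm.trans (hf.sameRed_iterate h k)).trans e2

/-- the residue field is finite -/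
theorem exists_sameRed (v : HeightOneSpectrum (𝓞 K)) : ∃ N0 : ℕ, ∀ x : ℕ → OnePoint K,
    ∃ i j : ℕ, i < j ∧ j ≤ N0 ∧ SameRed v (x i) (x j) := by
  classical
  have hfin : Finite (𝓞 K ⧸ v.asIdeal) := Ideal.finiteQuotientOfFreeOfNeBot v.asIdeal v.ne_bot
  have := Fintype.ofFinite (𝓞 K ⧸ v.asIdeal)
  have hr : ∀ x : OnePoint K, ∃ o : Option (𝓞 K ⧸ v.asIdeal), (o = none ∧ RedInfty v x) ∨
      ∃ (a : K) (y : 𝓞 K), x = (a : OnePoint K) ∧ v.valuation K a ≤ 1 ∧
        Cong (v.valuation K) (algebraMap (𝓞 K) K y) a ∧ o = some (Ideal.Quotient.mk v.asIdeal y) := by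
    intro x
    by_cases hx : RedInfty v x
    · exact ⟨none, Or.inl ⟨rfl, hx⟩⟩
    · unfold RedInfty at hx
      push Not at hx
      obtain ⟨a, ha, ha1⟩ := hx
      obtain ⟨y, hy⟩ := v.exists_valuation_sub_lt_of_integer (K := K) ha1 1
      exact ⟨some (Ideal.Quotient.mk v.asIdeal y), Or.inr ⟨a, y, ha, ha1,
        ⟨v.valuation_le_one y, ha1, by simpa using hy⟩, rfl⟩⟩
  choose r hr using hr
  have hrs : ∀ x y : OnePoint K, r x = r y → SameRed v x y := by
    intro x y he
    rcases hr x with ⟨h1, h2⟩ | ⟨a, s, h1, h2, h3, h4⟩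
    · rcases hr y with ⟨h1', h2'⟩ | ⟨a', s', h1', h2', h3', h4'⟩
      · exact Or.inl ⟨h2, h2'⟩
      · rw [h1, h4'] at he
        exact absurd he (by simp)
    · rcases hr y with ⟨h1', h2'⟩ | ⟨a', s', h1', h2', h3', h4'⟩
      · rw [h1', h4] at he
        exact absurd he (by simp)
      · rw [h4, h4', Option.some_inj, Ideal.Quotient.eq] at he
        have h5 : Cong (v.valuation K) (algebraMap (𝓞 K) K s) (algebraMap (𝓞 K) K s') := by
          refine ⟨v.valuation_le_one _, v.valuation_le_one _, ?_⟩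
          rw [← map_sub]
          exact (v.valuation_lt_one_iff_mem (K := K) _).2 he
        exact Or.inr ⟨a, a', h1, h1', h2, h2', ((h3.symm.trans h5).trans h3').2.2⟩
  refine ⟨Fintype.card (Option (𝓞 K ⧸ v.asIdeal)), fun x => ?_⟩
  obtain ⟨i, j, hij, he⟩ := Fintype.exists_ne_map_eq_of_card_lt
    (fun n : Fin (Fintype.card (Option (𝓞 K ⧸ v.asIdeal)) + 1) => r (x n.1)) (by rw [Fintype.card_fin]; omega)
  rcases lt_or_gt_of_ne hij with h | h
  · exact ⟨i.1, j.1, h, by omega, hrs _ _ he⟩
  · exact ⟨j.1, i.1, h, by omega, hrs _ _ he.symm⟩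

theorem RP.exists_bad (f : RP K) : ∃ bad : Finset ℕ, ∀ (K2 : Type u) [Field K2] [NumberField K2]
    [Algebra K K2] (w : HeightOneSpectrum (𝓞 K2)), Off w bad →
      (f.map (algebraMap K K2)).Good (w.valuation K2) := by
  classical
  obtain ⟨U, V, hUV⟩ := f.hcop
  obtain ⟨bad, hbad⟩ := bad_list (cf f.A ∪ cf f.B ∪ cf U ∪ cf V)
  refine ⟨bad, ?_⟩
  intro K2 _ _ _ w hoff
  apply RP.Good.map_comap
  have h := hbad K2 w hoff
  have hA : ∀ c ∈ cf f.A, c ≠ 0 → ((w.valuation K2).comap (algebraMap K K2)) c = 1 := fun c hc h0 =>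
    h c (by simp [hc]) h0
  have hB : ∀ c ∈ cf f.B, c ≠ 0 → ((w.valuation K2).comap (algebraMap K K2)) c = 1 := fun c hc h0 =>
    h c (by simp [hc]) h0
  have hU : ∀ c ∈ cf U, c ≠ 0 → ((w.valuation K2).comap (algebraMap K K2)) c = 1 := fun c hc h0 =>
    h c (by simp [hc]) h0
  have hV : ∀ c ∈ cf V, c ≠ 0 → ((w.valuation K2).comap (algebraMap K K2)) c = 1 := fun c hc h0 =>
    h c (by simp [hc]) h0
  refine ⟨intC_of_cf _ _ hA, intC_of_cf _ _ hB, ⟨U, V, intC_of_cf _ _ hU, intC_of_cf _ _ hV, hUV⟩, ?_⟩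
  rcases f.htop with h1 | h1
  · left
    exact hA _ (mem_cf _ _ (le_natDegree_of_ne_zero h1)) h1
  · right
    exact hB _ (mem_cf _ _ (le_natDegree_of_ne_zero h1)) h1

theorem finite_not_off (bad : Finset ℕ) : {v : HeightOneSpectrum (𝓞 K) | ¬ Off v bad}.Finite := by
  have h1 : ∀ m : ℕ, {v : HeightOneSpectrum (𝓞 K) | m ≠ 0 ∧ v.valuation K (m : K) < 1}.Finite := by
    intro m
    by_cases hm : m = 0
    · refine Set.finite_empty.subset ?_
      rintro v ⟨h, -⟩
      exact absurd hm h
    · refine (finite_lt_one (Nat.cast_ne_zero.2 hm)).subset ?_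
      rintro v ⟨-, h⟩
      exact h
  refine (Set.Finite.biUnion (Finset.finite_toSet bad) fun m _ => h1 m).subset ?_
  intro v hv
  have hv' : ¬ ∀ m ∈ bad, m ≠ 0 → v.valuation K (m : K) = 1 := hv
  push Not at hv'
  obtain ⟨m, hm, hm0, hne⟩ := hv'
  rw [Set.mem_iUnion₂]
  refine ⟨m, hm, hm0, lt_of_le_of_ne ?_ hne⟩
  have h6 := v.valuation_le_one (K := K) ((m : ℕ) : 𝓞 K)
  simpa using h6

omit [NumberField K] in
theorem pmap_self (x : OnePoint K) : pmap (algebraMap K K) x = x := by
  induction x using OnePoint.rec with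
  | infty => rfl
  | coe a => rfl

omit [NumberField K] in
theorem RP.map_self (f : RP K) : f.map (algebraMap K K) = f := by
  have h : ∀ p : K[X], p.map (algebraMap K K) = p := fun p => Polynomial.map_id
  obtain ⟨A, B, d, hA, hB, hcop, htop⟩ := f
  simp only [RP.map, h]

theorem RP.finite_not_good (f : RP K) :
    {v : HeightOneSpectrum (𝓞 K) | ¬ f.Good (v.valuation K)}.Finite := by
  obtain ⟨bad, hbad⟩ := f.exists_bad
  refine (finite_not_off bad).subset ?_
  intro v hv hoff
  apply hv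
  have h := hbad K v hoff
  rw [RP.map_self] at h
  exact h

theorem ptInt_bad (c : OnePoint K) : ∃ bad : Finset ℕ, ∀ (K2 : Type u) [Field K2] [NumberField K2]
    [Algebra K K2] (w : HeightOneSpectrum (𝓞 K2)), Off w bad → PtInt w (pmap (algebraMap K K2) c) := by
  induction c using OnePoint.rec with
  | infty =>
    refine ⟨∅, ?_⟩
    intro K2 _ _ _ w _ b hb
    rw [pmap_infty] at hb
    exact absurd hb (OnePoint.infty_ne_coe b)
  | coe a =>
    obtain ⟨bad, hbad⟩ := bad_list ({a} : Finset K)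
    refine ⟨bad, ?_⟩
    intro K2 _ _ _ w hoff b hb
    rw [pmap_coe] at hb
    rw [← OnePoint.coe_injective hb]
    by_cases ha : a = 0
    · rw [ha, map_zero, map_zero]
      exact zero_le_one
    · exact (hbad K2 w hoff a (Finset.mem_singleton_self a) ha).le

theorem finite_not_ptInt (c : OnePoint K) : {v : HeightOneSpectrum (𝓞 K) | ¬ PtInt v c}.Finite := by
  obtain ⟨bad, hbad⟩ := ptInt_bad c
  refine (finite_not_off bad).subset ?_
  intro v hv hoff
  apply hv
  have h := hbad K v hoff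
  rw [pmap_self] at h
  exact h

omit [NumberField K] in
/-- coordinates, one of which is `1` -/
theorem exists_coords (x : OnePoint K) : ∃ a b : K, (a = 1 ∨ b = 1) ∧ x = mk2 a b := by
  induction x using OnePoint.rec with
  | infty => exact ⟨1, 0, Or.inl rfl, (mk2_zero 1).symm⟩
  | coe a => exact ⟨a, 1, Or.inr rfl, (mk2_one a).symm⟩

theorem not_sameRed_bad {x y : OnePoint K} (h : x ≠ y) : ∃ bad : Finset ℕ, ∀ (K2 : Type u) [Field K2]
    [NumberField K2] [Algebra K K2] (w : HeightOneSpectrum (𝓞 K2)), Off w bad →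
      ¬ SameRed w (pmap (algebraMap K K2) x) (pmap (algebraMap K K2) y) := by
  classical
  obtain ⟨a, b, hab, rfl⟩ := exists_coords x
  obtain ⟨a', b', hab', rfl⟩ := exists_coords y
  obtain ⟨bad, hbad⟩ := bad_list ({a, b, a', b', a * b' - a' * b} : Finset K)
  refine ⟨bad, ?_⟩
  intro K2 _ _ _ w hoff
  have h1 := hbad K2 w hoff
  have hle : ∀ c ∈ ({a, b, a', b', a * b' - a' * b} : Finset K), w.valuation K2 (algebraMap K K2 c) ≤ 1 := by
    intro c hc
    by_cases h0 : c = 0
    · rw [h0, map_zero, map_zero]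
      exact zero_le_one
    · exact (h1 c hc h0).le
  have hp : ∀ s t : K, (s = 1 ∨ t = 1) → w.valuation K2 (algebraMap K K2 s) ≤ 1 →
      w.valuation K2 (algebraMap K K2 t) ≤ 1 →
      Prim (w.valuation K2) (algebraMap K K2 s) (algebraMap K K2 t) := by
    intro s t hst h2 h3
    refine ⟨h2, h3, ?_⟩
    rcases hst with rfl | rfl
    · left
      rw [map_one, map_one]
    · right
      rw [map_one, map_one]
  have hne : a * b' - a' * b ≠ 0 := by
    intro h0
    apply h
    rw [mk2_eq_iff _ _]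
    · exact h0
    · rcases hab with h2 | h2
      · left
        rw [h2]
        exact one_ne_zero
      · right
        rw [h2]
        exact one_ne_zero
    · rcases hab' with h2 | h2
      · left
        rw [h2]
        exact one_ne_zero
      · right
        rw [h2]
        exact one_ne_zero
  rw [pmap_mk2, pmap_mk2, sameRed_mk2 (hp a b hab (hle a (by simp)) (hle b (by simp)))
    (hp a' b' hab' (hle a' (by simp)) (hle b' (by simp))), ← map_mul, ← map_mul, ← map_sub,
    h1 _ (by simp) hne]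
  exact lt_irrefl _

theorem finite_sameRed {x y : OnePoint K} (h : x ≠ y) :
    {v : HeightOneSpectrum (𝓞 K) | SameRed v x y}.Finite := by
  obtain ⟨bad, hbad⟩ := not_sameRed_bad h
  refine (finite_not_off bad).subset ?_
  intro v hv hoff
  have h1 := hbad K v hoff
  rw [pmap_self, pmap_self] at h1
  exact h1 hv

/-- a strictly preperiodic point is not periodic modulo almost all places, in all extensions -/
theorem strict_nonper (f : RP K) (g : OnePoint K) (hg : ∀ k, 1 ≤ k → f.act^[k] g ≠ g)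
    (hpre : ∃ i j : ℕ, i < j ∧ f.act^[i] g = f.act^[j] g) : ∃ bad : Finset ℕ,
    ∀ (K2 : Type u) [Field K2] [NumberField K2] [Algebra K K2] (w : HeightOneSpectrum (𝓞 K2)),
      Off w bad → RNonPer w (f.map (algebraMap K K2)) (pmap (algebraMap K K2) g) := by
  classical
  obtain ⟨i, j, hij, he⟩ := hpre
  obtain ⟨s, hs⟩ := orbit_finite (T := f.act) (b := g) (fun hinj => hij.ne (hinj he))
  have h : ∀ z : OnePoint K, ∃ bad : Finset ℕ, z ≠ g → ∀ (K2 : Type u) [Field K2]
      [NumberField K2] [Algebra K K2] (w : HeightOneSpectrum (𝓞 K2)), Off w bad →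
      ¬ SameRed w (pmap (algebraMap K K2) z) (pmap (algebraMap K K2) g) := by
    intro z
    by_cases hz : z = g
    · exact ⟨∅, fun h => absurd hz h⟩
    · obtain ⟨bad, hbad⟩ := not_sameRed_bad hz
      exact ⟨bad, fun _ => hbad⟩
  choose bad hbad using h
  refine ⟨s.biUnion bad, ?_⟩
  intro K2 _ _ _ w hoff m hm
  rw [RP.act_map_iterate]
  refine hbad _ (hg m hm) K2 w (fun t ht ht0 => hoff t ?_ ht0)
  exact Finset.mem_biUnion.2 ⟨_, hs m, ht⟩

end red

section ext

variable {K : Type u} [Field K] [NumberField K] {M : Type u} [Field M] [NumberField M] [Algebra K M]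
  (v : HeightOneSpectrum (𝓞 K)) (w : HeightOneSpectrum (𝓞 M)) [w.asIdeal.LiesOver v.asIdeal]

theorem prim_ext {x y : K} (h : Prim (v.valuation K) x y) :
    Prim (w.valuation M) (algebraMap K M x) (algebraMap K M y) := by
  refine ⟨(val_le_iff v w x).2 h.1, (val_le_iff v w y).2 h.2.1, ?_⟩
  rcases h.2.2 with h1 | h1
  · exact Or.inl ((val_eq_iff v w x).2 h1)
  · exact Or.inr ((val_eq_iff v w y).2 h1)

theorem sameRed_ext (x y : OnePoint K) :
    SameRed w (pmap (algebraMap K M) x) (pmap (algebraMap K M) y) ↔ SameRed v x y := by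
  obtain ⟨a, b, h, rfl⟩ := exists_prim (v.valuation K) x
  obtain ⟨a', b', h', rfl⟩ := exists_prim (v.valuation K) y
  rw [pmap_mk2, pmap_mk2, sameRed_mk2 (prim_ext v w h) (prim_ext v w h'), sameRed_mk2 h h',
    ← map_mul, ← map_mul, ← map_sub, val_lt_iff v w]

theorem rnonPer_ext (f : RP K) (x : OnePoint K) :
    RNonPer w (f.map (algebraMap K M)) (pmap (algebraMap K M) x) ↔ RNonPer v f x := by
  unfold RNonPer
  refine forall_congr' fun m => forall_congr' fun _ => ?_
  rw [RP.act_map_iterate, sameRed_ext v w]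

theorem good_ext (f : RP K) (h : f.Good (v.valuation K)) :
    (f.map (algebraMap K M)).Good (w.valuation M) := by
  apply RP.Good.map_comap
  obtain ⟨hA, hB, ⟨U, V, hU, hV, hUV⟩, ht⟩ := h
  have hi : ∀ p : K[X], IntC (v.valuation K) p → IntC ((w.valuation M).comap (algebraMap K M)) p :=
    fun p hp j => (val_le_iff v w _).2 (hp j)
  refine ⟨hi _ hA, hi _ hB, ⟨U, V, hi _ hU, hi _ hV, hUV⟩, ?_⟩
  rcases ht with h1 | h1
  · exact Or.inl ((val_eq_iff v w _).2 h1)
  · exact Or.inr ((val_eq_iff v w _).2 h1)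

theorem off_ext {bad : Finset ℕ} (h : Off v bad) : Off w bad := by
  intro m hm hm0
  have h1 := (val_eq_iff v w (m : K)).2 (h m hm hm0)
  rw [map_natCast] at h1
  exact h1

end ext

end Pool.Agent.ORB
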