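import Pool.Agent.ORB.UMain
import Pool.Agent.ORB.RRed

/-!
ORB: the extension property for strictly preperiodic targets of arbitrary rational functions (row U9b in general
form), from the density theorem of Frobenius.
-/

namespace Pool.Agent.ORB

open NumberField IsDedekindDomain Polynomial

universe u

/-! ### Galois number fields inside an algebraic closure -/

theorem exists_gal {F W : Type u} [Field F] [NumberField F] [Field W] [Algebra F W] [IsAlgClosed W]
    [Algebra.IsAlgebraic F W] (T : Set W) (hT : T.Finite) :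
    ∃ (L : Type u) (_ : Field L) (_ : NumberField L) (_ : Algebra F L) (_ : Algebra L W),
      IsScalarTower F L W ∧ IsGalois ℚ L ∧ ∀ t ∈ T, ∃ x : L, algebraMap L W x = t := by
  have hcz : CharZero W := charZero_of_injective_algebraMap (algebraMap F W).injective
  have hfin : Finite T := hT
  let E := IntermediateField.adjoin F T
  have hfd : FiniteDimensional F E := IntermediateField.finiteDimensional_adjoin
    (fun x _ => (Algebra.IsAlgebraic.isAlgebraic x).isIntegral)
  have hczE : CharZero E := charZero_of_injective_algebraMap (algebraMap F E).injective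
  have hfdQ : FiniteDimensional ℚ E := FiniteDimensional.trans ℚ F E
  have hEN : NumberField E := ⟨⟩
  have hst : IsScalarTower ℚ F W := inferInstance
  have ha : Algebra.IsAlgebraic ℚ W := Algebra.IsAlgebraic.trans ℚ F W
  let L := IntermediateField.normalClosure ℚ E W
  have hc : IsAlgClosure ℚ W := ⟨inferInstance, inferInstance⟩
  have hnn : Normal ℚ W := IsAlgClosure.normal ℚ _
  have h0 : NumberField L := by
    have : CharZero L := charZero_of_injective_algebraMap (algebraMap E L).injective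
    exact ⟨⟩
  have hn : Normal ℚ L := normalClosure.normal ℚ E W
  have hgal : IsGalois ℚ L := ⟨⟩
  let alg : Algebra F L := ((algebraMap E L).comp (algebraMap F E)).toAlgebra
  have hEL : ∀ x : E, algebraMap L W (algebraMap E L x) = algebraMap E W x := fun x => rfl
  refine ⟨L, inferInstance, h0, alg, inferInstance, ?_, hgal, fun t ht => ?_⟩
  · exact IsScalarTower.of_algebraMap_eq fun x => by
      show algebraMap F W x = algebraMap L W (algebraMap E L (algebraMap F E x))
      rw [hEL, ← IsScalarTower.algebraMap_apply F E W]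
  · exact ⟨algebraMap E L ⟨t, IntermediateField.subset_adjoin F T ht⟩, hEL _⟩

/-! ### Frobenius elements -/

theorem exists_frob_prime {L : Type*} [Field L] [NumberField L] [IsGalois ℚ L] (σ : L ≃ₐ[ℚ] L) (m : ℕ) :
    ∃ p, m < p ∧ p ∈ FrobSet σ := by
  obtain ⟨c, hc, x0, h⟩ := frob_density σ
  by_contra hcon
  push Not at hcon
  obtain ⟨n, hn⟩ := exists_nat_gt (2 * ((m : ℝ) + 2) / c)
  set k := n + x0 + 2 with hk
  have hk1 : (0 : ℝ) < k := by rw [hk]; positivity
  have h1 := h (k ^ 2) (by nlinarith)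
  have h2 : ({p : ℕ | p ∈ FrobSet σ ∧ p ≤ k ^ 2}.ncard : ℝ) ≤ m + 1 := by
    have h3 : {p : ℕ | p ∈ FrobSet σ ∧ p ≤ k ^ 2} ⊆ (Finset.range (m + 1) : Set ℕ) := by
      rintro p ⟨hp, -⟩
      rw [Finset.mem_coe, Finset.mem_range]
      by_contra h4
      exact hcon p (by omega) hp
    have h4 := Set.ncard_le_ncard h3 (Finset.finite_toSet _)
    rw [Set.ncard_coe_finset, Finset.card_range] at h4
    exact_mod_cast h4
  have hlog : Real.log ((k ^ 2 : ℕ) : ℝ) ≤ 2 * k := by
    rw [Nat.cast_pow, Real.log_pow]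
    have := Real.log_le_self hk1.le
    push_cast
    linarith
  have hlog0 : 0 < Real.log ((k ^ 2 : ℕ) : ℝ) := by
    apply Real.log_pos
    have : 2 ≤ k := by omega
    have : 1 < k ^ 2 := by nlinarith
    exact_mod_cast this
  have h5 : (k : ℝ) / 2 ≤ ((k ^ 2 : ℕ) : ℝ) / Real.log ((k ^ 2 : ℕ) : ℝ) := by
    rw [div_le_div_iff₀ two_pos hlog0]
    push_cast
    push_cast at hlog
    nlinarith
  have h6 : c * ((k : ℝ) / 2) ≤ m + 1 := (mul_le_mul_of_nonneg_left h5 hc.le).trans (h1.trans h2)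
  rw [div_lt_iff₀ hc] at hn
  have h7 : (n : ℝ) ≤ k := by
    rw [hk]
    push_cast
    linarith [Nat.cast_nonneg (α := ℝ) x0]
  nlinarith

theorem off_of_lt {L : Type*} [Field L] [NumberField L] {bad : Finset ℕ} {p : ℕ} (hp : p.Prime)
    (h : ∀ k ∈ bad, k < p) (P : HeightOneSpectrum (𝓞 L)) (hP : (p : 𝓞 L) ∈ P.asIdeal) : Off P bad := by
  intro k hk hk0
  have h1 : P.valuation L (k : L) ≤ 1 := by
    have := P.valuation_le_one (K := L) ((k : ℕ) : 𝓞 L)
    simpa using this
  refine le_antisymm h1 ?_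
  by_contra hlt
  rw [not_le] at hlt
  have h2 : ((k : ℕ) : 𝓞 L) ∈ P.asIdeal := by
    rw [← P.valuation_lt_one_iff_mem (K := L)]
    simpa using hlt
  have hcop : Nat.Coprime k p := ((Nat.Prime.coprime_iff_not_dvd hp).2 fun hd =>
    absurd (Nat.le_of_dvd (Nat.pos_of_ne_zero hk0) hd) (not_le.2 (h k hk))).symm
  have h3 : IsCoprime ((k : ℕ) : ℤ) ((p : ℕ) : ℤ) := Nat.isCoprime_iff_coprime.2 hcop
  obtain ⟨a, b, hab⟩ := h3
  have h4 : (1 : 𝓞 L) ∈ P.asIdeal := by
    have h5 : ((a : ℤ) : 𝓞 L) * ((k : ℕ) : 𝓞 L) + ((b : ℤ) : 𝓞 L) * ((p : ℕ) : 𝓞 L) = 1 := by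
      exact_mod_cast congrArg (Int.cast : ℤ → 𝓞 L) hab
    rw [← h5]
    exact P.asIdeal.add_mem (P.asIdeal.mul_mem_left _ h2) (P.asIdeal.mul_mem_left _ hP)
  exact P.isPrime.ne_top ((Ideal.eq_top_iff_one _).2 h4)

/-- for large `p` the Frobenius element is unique -/
theorem frob_unique (L : Type u) [Field L] [NumberField L] : ∃ m : ℕ, ∀ p : ℕ, p.Prime → m < p →
    ∀ P : Ideal (𝓞 L), P.IsPrime → (p : 𝓞 L) ∈ P → ∀ τ τ' : L ≃ₐ[ℚ] L, IsFrob p P τ → IsFrob p P τ' →
      τ = τ' := by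
  classical
  have hex : ∀ q : (L ≃ₐ[ℚ] L) × (L ≃ₐ[ℚ] L), ∃ y : 𝓞 L, q.1 ≠ q.2 →
      algebraMap (𝓞 L) L (q.1 • y - q.2 • y) ≠ 0 := by
    intro q
    by_cases hq : q.1 = q.2
    · exact ⟨0, fun h => absurd hq h⟩
    · by_contra hcon
      push Not at hcon
      apply hq
      have h1 : ∀ y : 𝓞 L, q.1 (y : L) = q.2 (y : L) := by
        intro y
        have h2 := (hcon y).2
        rw [map_sub, sub_eq_zero] at h2
        exact h2
      ext x
      obtain ⟨a, b, hb, rfl⟩ := IsFractionRing.div_surjective (A := 𝓞 L) x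
      rw [map_div₀, map_div₀]
      congr 1
      · exact h1 a
      · exact h1 b
  choose y hy using hex
  have hfin : Finite (L ≃ₐ[ℚ] L) := inferInstance
  have := Fintype.ofFinite (L ≃ₐ[ℚ] L)
  obtain ⟨bad, hbad⟩ := bad_list (Finset.univ.image fun q : (L ≃ₐ[ℚ] L) × (L ≃ₐ[ℚ] L) =>
    algebraMap (𝓞 L) L (q.1 • y q - q.2 • y q))
  refine ⟨bad.sup id, fun p hp hm P hP hpP τ τ' h1 h2 => ?_⟩
  by_contra hne
  have hP0 : P ≠ ⊥ := by
    rintro rfl
    rw [Ideal.mem_bot] at hpP
    exact hp.ne_zero (by exact_mod_cast hpP)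
  let v : HeightOneSpectrum (𝓞 L) := ⟨P, hP, hP0⟩
  have hoff : Off v bad := off_of_lt hp (fun k hk => lt_of_le_of_lt (Finset.le_sup (f := id) hk) hm) v hpP
  have h3 := hbad L v hoff _ (Finset.mem_image_of_mem _ (Finset.mem_univ (τ, τ'))) (hy (τ, τ') hne)
  have h4 : (τ • y (τ, τ') - τ' • y (τ, τ') : 𝓞 L) ∈ v.asIdeal := by
    have e : (τ • y (τ, τ') - τ' • y (τ, τ') : 𝓞 L) = (τ • y (τ, τ') - y (τ, τ') ^ p) -
      (τ' • y (τ, τ') - y (τ, τ') ^ p) := by ring
    rw [e]
    exact v.asIdeal.sub_mem (h1 _) (h2 _)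
  have h5 := (v.valuation_lt_one_iff_mem (K := L) _).2 h4
  simp only [Algebra.algebraMap_self, RingHom.id_apply] at h3
  rw [h3] at h5
  exact lt_irrefl _ h5

/-- Frobenius elements of an extension -/
theorem frob_lift {L M : Type*} [Field L] [NumberField L] [IsGalois ℚ L] [Field M] [NumberField M]
    [IsGalois ℚ M] [Algebra L M] {p : ℕ} (hp : p.Prime) {P0 : Ideal (𝓞 L)} (hP0 : P0.IsPrime)
    (hpP0 : (p : 𝓞 L) ∈ P0) :
    ∃ P : Ideal (𝓞 M), P.IsPrime ∧ (p : 𝓞 M) ∈ P ∧ ∃ (τ : M ≃ₐ[ℚ] M) (τ0 : L ≃ₐ[ℚ] L),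
      (∀ x, algebraMap L M (τ0 x) = τ (algebraMap L M x)) ∧ IsFrob p P τ ∧ IsFrob p P0 τ0 := by
  obtain ⟨⟨P, hP1, hP2⟩⟩ := P0.nonempty_primesOver (S := 𝓞 M)
  have hmem : ∀ y : 𝓞 L, algebraMap (𝓞 L) (𝓞 M) y ∈ P ↔ y ∈ P0 := by
    intro y
    rw [hP2.over]
    rfl
  have hpP : (p : 𝓞 M) ∈ P := by
    have := (hmem (p : 𝓞 L)).2 hpP0
    rwa [map_natCast] at this
  have hinv := fr_inv M
  have hPb : P ≠ ⊥ := by
    rintro rfl
    rw [Ideal.mem_bot] at hpP
    exact hp.ne_zero (by exact_mod_cast hpP)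
  have hfin : Finite (𝓞 M ⧸ P) := Ideal.finiteQuotientOfFreeOfNeBot P hPb
  obtain ⟨τ, hτ⟩ := IsArithFrobAt.exists_of_isInvariant ℤ (M ≃ₐ[ℚ] M) P
  have hfr : IsFrob p P τ := by
    intro y
    have h1 := hτ y
    have h2 : Nat.card (ℤ ⧸ P.under ℤ) = p := by
      rw [fr_under hp hP1 hpP, ← Submodule.cardQuot_apply, ← Ideal.absNorm_apply, Ideal.absNorm_span_singleton]
      simp
    rw [h2] at h1
    exact h1
  have hcomm : ∀ x, algebraMap L M (τ.restrictNormal L x) = τ (algebraMap L M x) := fun x =>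
    τ.restrictNormal_commutes L x
  refine ⟨P, hP1, hpP, τ, τ.restrictNormal L, hcomm, hfr, fun y => ?_⟩
  rw [← hmem]
  have h1 := hfr (algebraMap (𝓞 L) (𝓞 M) y)
  have h2 : algebraMap (𝓞 L) (𝓞 M) (τ.restrictNormal L • y - y ^ p) =
      τ • algebraMap (𝓞 L) (𝓞 M) y - algebraMap (𝓞 L) (𝓞 M) y ^ p := by
    rw [map_sub, map_pow]
    congr 1
    apply RingOfIntegers.ext
    exact hcomm (y : L)
  rw [h2]
  exact h1

theorem frob_pow_val {M : Type*} [Field M] [NumberField M] (P : HeightOneSpectrum (𝓞 M)) (τ : M ≃+* M) {q : ℕ}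
    (h : ∀ x : M, P.valuation M x ≤ 1 → P.valuation M (τ x - x ^ q) < 1) (e : ℕ) (x : M)
    (hx : P.valuation M x ≤ 1) : P.valuation M ((τ^[e] x : M) - x ^ q ^ e) < 1 := by
  induction e with
  | zero => simp
  | succ e ih =>
    rw [Function.iterate_succ_apply']
    have h1 : P.valuation M (τ^[e] x) ≤ 1 := by
      have e1 : τ^[e] x = (τ^[e] x - x ^ q ^ e) + x ^ q ^ e := by ring
      rw [e1]
      exact (P.valuation M).map_add_le ih.le (int_pow P hx _)
    have h2 := h _ h1
    have h3 : P.valuation M ((τ^[e] x) ^ q - x ^ q ^ (e + 1)) < 1 := by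
      have e2 : x ^ q ^ (e + 1) = (x ^ q ^ e) ^ q := by rw [← pow_mul, pow_succ]
      rw [e2]
      obtain ⟨z, hz⟩ := sub_dvd_pow_sub_pow (τ^[e] x) (x ^ q ^ e) q
      have h4 : (τ^[e] x) ^ q - (x ^ q ^ e) ^ q = (∑ i ∈ Finset.range q, (τ^[e] x) ^ i * (x ^ q ^ e) ^ (q - 1 - i)) *
          (τ^[e] x - x ^ q ^ e) := by
        rw [Commute.geom_sum₂_mul (Commute.all _ _)]
      rw [h4, map_mul]
      refine mul_lt_one_of_nonneg_of_lt_one_right ?_ zero_le ih
      refine Valuation.map_sum_le _ fun i _ => ?_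
      rw [map_mul]
      exact mul_le_one₀ (int_pow P h1 _) zero_le (int_pow P (int_pow P hx _) _)
    have e3 : τ (τ^[e] x) - x ^ q ^ (e + 1) = (τ (τ^[e] x) - (τ^[e] x) ^ q) + ((τ^[e] x) ^ q - x ^ q ^ (e + 1)) := by
      ring
    rw [e3]
    exact (P.valuation M).map_add_lt h2 h3

theorem fixed_card (R : Type*) [CommRing R] [IsDomain R] {Q : ℕ} (hQ : 2 ≤ Q) :
    ∃ S : Finset R, S.card ≤ Q ∧ ∀ c : R, c ^ Q = c → c ∈ S := by
  classical
  have hd : (X ^ Q - X : R[X]).natDegree = Q := by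
    rw [natDegree_sub_eq_left_of_natDegree_lt]
    · exact natDegree_X_pow Q
    · rw [natDegree_X_pow, natDegree_X]
      omega
  have h0 : (X ^ Q - X : R[X]) ≠ 0 := by
    intro h
    rw [h, natDegree_zero] at hd
    omega
  refine ⟨(X ^ Q - X : R[X]).roots.toFinset, ?_, fun c hc => ?_⟩
  · calc _ ≤ _ := Multiset.toFinset_card_le _
      _ ≤ _ := card_roots' _
      _ = Q := hd
  · rw [Multiset.mem_toFinset, mem_roots h0, IsRoot, eval_sub, eval_pow, eval_X, hc, sub_self]

/-- points fixed by a power of the Frobenius element have few reductions -/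
theorem pigeon {M : Type*} [Field M] [NumberField M] (P : HeightOneSpectrum (𝓞 M)) {Q : ℕ} (hQ : 2 ≤ Q)
    (x : ℕ → OnePoint M)
    (hX : ∀ n (a : M), x n = (a : OnePoint M) → P.valuation M a ≤ 1 → P.valuation M (a ^ Q - a) < 1) :
    ∃ i j : ℕ, i < j ∧ j ≤ Q + 1 ∧ SameRed P (x i) (x j) := by
  classical
  have hfin : Finite (𝓞 M ⧸ P.asIdeal) := Ideal.finiteQuotientOfFreeOfNeBot P.asIdeal P.ne_bot
  have hdom : IsDomain (𝓞 M ⧸ P.asIdeal) := (Ideal.Quotient.isDomain_iff_prime _).2 P.isPrime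
  obtain ⟨S, hScard, hS⟩ := fixed_card (𝓞 M ⧸ P.asIdeal) hQ
  have hr : ∀ n, ∃ o : Option (𝓞 M ⧸ P.asIdeal), o ∈ insert none (S.image some) ∧ ((o = none ∧ RedInfty P (x n)) ∨
      ∃ (a : M) (y : 𝓞 M), x n = (a : OnePoint M) ∧ P.valuation M a ≤ 1 ∧
        P.valuation M (algebraMap (𝓞 M) M y - a) < 1 ∧ o = some (Ideal.Quotient.mk P.asIdeal y)) := by
    intro n
    by_cases hx : RedInfty P (x n)
    · exact ⟨none, Finset.mem_insert_self _ _, Or.inl ⟨rfl, hx⟩⟩
    · unfold RedInfty at hx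
      push Not at hx
      obtain ⟨a, ha, ha1⟩ := hx
      obtain ⟨y, hy⟩ := P.exists_valuation_sub_lt_of_integer (K := M) ha1 1
      have hy1 : P.valuation M (algebraMap (𝓞 M) M y - a) < 1 := by simpa using hy
      refine ⟨some (Ideal.Quotient.mk P.asIdeal y), ?_, Or.inr ⟨a, y, ha, ha1, hy1, rfl⟩⟩
      refine Finset.mem_insert_of_mem (Finset.mem_image_of_mem _ ?_)
      apply hS
      rw [← map_pow, Ideal.Quotient.eq, ← P.valuation_lt_one_iff_mem (K := M)]
      show P.valuation M (algebraMap (𝓞 M) M (y ^ Q - y)) < 1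
      rw [map_sub, map_pow]
      have h1 := hX n a ha ha1
      have h2 : P.valuation M ((algebraMap (𝓞 M) M y) ^ Q - a ^ Q) < 1 := by
        have h4 : (algebraMap (𝓞 M) M y) ^ Q - a ^ Q =
            (∑ i ∈ Finset.range Q, (algebraMap (𝓞 M) M y) ^ i * a ^ (Q - 1 - i)) *
              (algebraMap (𝓞 M) M y - a) := by
          rw [Commute.geom_sum₂_mul (Commute.all _ _)]
        rw [h4, map_mul]
        refine mul_lt_one_of_nonneg_of_lt_one_right ?_ zero_le hy1
        refine Valuation.map_sum_le _ fun i _ => ?_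
        rw [map_mul]
        exact mul_le_one₀ (int_pow P (P.valuation_le_one y) _) zero_le (int_pow P ha1 _)
      have e3 : (algebraMap (𝓞 M) M y) ^ Q - algebraMap (𝓞 M) M y =
          ((algebraMap (𝓞 M) M y) ^ Q - a ^ Q) + (a ^ Q - a) - (algebraMap (𝓞 M) M y - a) := by ring
      rw [e3]
      exact (P.valuation M).map_sub_lt ((P.valuation M).map_add_lt h2 h1) hy1
  choose r hr1 hr using hr
  have hrs : ∀ i j, r i = r j → SameRed P (x i) (x j) := by
    intro i j he
    rcases hr i with ⟨h1, h2⟩ | ⟨a, s, h1, h2, h3, h4⟩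
    · rcases hr j with ⟨h1', h2'⟩ | ⟨a', s', h1', h2', h3', h4'⟩
      · exact Or.inl ⟨h2, h2'⟩
      · rw [h1, h4'] at he
        exact absurd he (by simp)
    · rcases hr j with ⟨h1', h2'⟩ | ⟨a', s', h1', h2', h3', h4'⟩
      · rw [h1', h4] at he
        exact absurd he (by simp)
      · rw [h4, h4', Option.some_inj, Ideal.Quotient.eq, ← P.valuation_lt_one_iff_mem (K := M)] at he
        replace he : P.valuation M (algebraMap (𝓞 M) M (s - s')) < 1 := he
        rw [map_sub] at he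
        refine Or.inr ⟨a, a', h1, h1', h2, h2', ?_⟩
        have e3 : a - a' = (algebraMap (𝓞 M) M s - algebraMap (𝓞 M) M s') -
            (algebraMap (𝓞 M) M s - a) + (algebraMap (𝓞 M) M s' - a') := by ring
        rw [e3]
        exact (P.valuation M).map_add_lt ((P.valuation M).map_sub_lt he h3) h3'
  have hcard : (insert none (S.image some) : Finset (Option (𝓞 M ⧸ P.asIdeal))).card < (Finset.range (Q + 2)).card := by
    rw [Finset.card_range]
    have h1 := Finset.card_insert_le (none : Option (𝓞 M ⧸ P.asIdeal)) (S.image some)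
    have h2 := Finset.card_image_le (s := S) (f := (some : (𝓞 M ⧸ P.asIdeal) → Option (𝓞 M ⧸ P.asIdeal)))
    omega
  obtain ⟨i, hi, j, hj, hij, he⟩ := Finset.exists_ne_map_eq_of_card_lt_of_maps_to hcard (f := r)
    (fun i _ => hr1 i)
  rw [Finset.mem_range] at hi hj
  rcases lt_or_gt_of_ne hij with h | h
  · exact ⟨i, j, h, by omega, hrs _ _ he⟩
  · exact ⟨j, i, h, by omega, hrs _ _ he.symm⟩

/-- **The extension property for strictly preperiodic targets.** -/
theorem extR_preper {F W : Type u} [Field F] [NumberField F] [Field W] [Algebra F W] [IsAlgClosed W]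
    [Algebra.IsAlgebraic F W] (h : RP F) (hd : 1 ≤ h.d) (b : OnePoint F)
    (hpre : ¬ Function.Injective fun n : ℕ => h.act^[n] b) (hper : ∀ m, 1 ≤ m → h.act^[m] b ≠ b) :
    ExtR W h b := by
  classical
  intro T hT s₀
  -- the bad primes
  obtain ⟨bad1, hbad1⟩ := h.exists_bad
  have hij : ∃ i j : ℕ, i < j ∧ h.act^[i] b = h.act^[j] b := by
    rw [Function.Injective] at hpre
    push Not at hpre
    obtain ⟨i, j, he, hne⟩ := hpre
    rcases lt_or_gt_of_ne hne with hlt | hlt
    · exact ⟨i, j, hlt, he⟩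
    · exact ⟨j, i, hlt, he.symm⟩
  obtain ⟨bad2, hbad2⟩ := strict_nonper h b hper hij
  -- the field `L`
  obtain ⟨L, _, _, _, _, hstL, hgalL, hTL⟩ := exists_gal (F := F) T hT
  have : Algebra.IsAlgebraic ℚ L := inferInstance
  have hFL : Algebra.IsAlgebraic F L := Algebra.IsAlgebraic.tower_top (K := ℚ) F
  have hgFL : IsGalois F L := IsGalois.tower_top_of_isGalois ℚ F L
  let σF : L ≃ₐ[F] L := s₀.restrictNormal L
  have hσF : ∀ x, algebraMap L W (σF x) = s₀ (algebraMap L W x) := fun x => s₀.restrictNormal_commutes L x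
  let σ : L ≃ₐ[ℚ] L := σF.restrictScalars ℚ
  obtain ⟨m0, hm0⟩ := frob_unique L
  obtain ⟨p, hmp, hp, P0, hP0, hpP0, τ0, hτσ, hfr0⟩ := exists_frob_prime σ (m0 + (bad1 ∪ bad2).sup id)
  -- `σ` is a power of the Frobenius element
  obtain ⟨e, he1, he⟩ : ∃ e : ℕ, 1 ≤ e ∧ τ0 ^ e = σ := by
    have h1 : σ ∈ Subgroup.zpowers τ0 := hτσ ▸ Subgroup.mem_zpowers σ
    obtain ⟨e, he⟩ : ∃ e : ℕ, τ0 ^ e = σ := (mem_powers_iff_mem_zpowers).2 h1
    refine ⟨e + orderOf τ0, ?_, ?_⟩
    · have := orderOf_pos τ0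
      omega
    · rw [pow_add, pow_orderOf_eq_one, mul_one, he]
  set Q := p ^ e with hQ
  have hQ2 : 2 ≤ Q := hp.two_le.trans (Nat.le_self_pow (by omega) p)
  -- the field `M`
  have haLW : Algebra.IsAlgebraic L W := Algebra.IsAlgebraic.tower_top (K := F) L
  obtain ⟨M, _, _, _, _, hstM, hgalM, hTM⟩ := exists_gal (F := L)
    {z : W | (h.map (algebraMap F W)).act^[Q + 1] (z : OnePoint W) = pmap (algebraMap F W) b}
    (fibre_finite h hd _ _)
  let algFM : Algebra F M := ((algebraMap L M).comp (algebraMap F L)).toAlgebra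
  have hst1 : IsScalarTower F L M := IsScalarTower.of_algebraMap_eq fun x => rfl
  have hst2 : IsScalarTower F M W := IsScalarTower.of_algebraMap_eq fun x => by
    rw [IsScalarTower.algebraMap_apply F L W, IsScalarTower.algebraMap_apply F L M,
      ← IsScalarTower.algebraMap_apply L M W]
  have hgFM : IsGalois F M := IsGalois.tower_top_of_isGalois ℚ F M
  obtain ⟨P, hP, hpP, τ, τ0', hcomm, hfr, hfr0'⟩ := frob_lift (L := L) (M := M) hp hP0 hpP0
  have hτ0' : τ0' = τ0 := hm0 p hp (by omega) P0 hP0 hpP0 _ _ hfr0' hfr0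
  subst hτ0'
  have hpow : ∀ (n : ℕ) (x : L), algebraMap L M ((τ0' ^ n) x) = (τ ^ n) (algebraMap L M x) := by
    intro n
    induction n with
    | zero => intro x; rfl
    | succ n ih =>
      intro x
      rw [pow_succ, pow_succ, AlgEquiv.mul_apply, AlgEquiv.mul_apply, ih, hcomm]
  have hiter : ∀ (n : ℕ) (x : M), (τ ^ n) x = (τ : M ≃+* M)^[n] x := by
    intro n
    induction n with
    | zero => intro x; rfl
    | succ n ih =>
      intro x
      rw [pow_succ', AlgEquiv.mul_apply, ih, Function.iterate_succ_apply']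
      rfl
  set ρ := τ ^ e with hρ
  have hρL : ∀ x : L, ρ (algebraMap L M x) = algebraMap L M (σ x) := fun x => by
    rw [hρ, ← hpow, he]
  have hρF : ∀ x : F, ρ (algebraMap F M x) = algebraMap F M x := fun x => by
    rw [IsScalarTower.algebraMap_apply F L M, hρL]
    congr 1
    exact σF.commutes x
  let ρF : M ≃ₐ[F] M := AlgEquiv.ofRingEquiv (f := (ρ : M ≃+* M)) hρF
  have hcl : IsAlgClosure F W := ⟨inferInstance, inferInstance⟩
  have hn : Normal F W := IsAlgClosure.normal F W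
  let s : W ≃ₐ[F] W := ρF.liftNormal W
  have hs : ∀ x : M, s (algebraMap M W x) = algebraMap M W (ρ x) := fun x => ρF.liftNormal_commutes W x
  refine ⟨Q + 1, s, fun t ht => ?_, fun x hx hfix => ?_⟩
  · obtain ⟨y, rfl⟩ := hTL t ht
    rw [← hσF, IsScalarTower.algebraMap_apply L M W, hs, hρL, ← IsScalarTower.algebraMap_apply L M W]
    rfl
  · have hx' : ∃ x' : OnePoint M, pmap (algebraMap M W) x' = x := by
      induction x using OnePoint.rec with
      | infty => exact ⟨OnePoint.infty, rfl⟩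
      | coe z =>
        obtain ⟨y, hy⟩ := hTM z hx
        exact ⟨(y : OnePoint M), by rw [pmap_coe, hy]⟩
    obtain ⟨x', rfl⟩ := hx'
    set g := h.map (algebraMap F M) with hg
    have hgW : h.map (algebraMap F W) = g.map (algebraMap M W) := by
      rw [hg, RP.map_map, ← IsScalarTower.algebraMap_eq]
    set Xs : ℕ → OnePoint M := fun n => g.act^[n] x' with hXs
    have hXW : ∀ n, pmap (algebraMap M W) (Xs n) = (h.map (algebraMap F W)).act^[n] (pmap (algebraMap M W) x') := by
      intro n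
      rw [hgW, RP.act_map_iterate]
    have hfixX : ∀ n, pmap (s : W →+* W) (pmap (algebraMap M W) (Xs n)) = pmap (algebraMap M W) (Xs n) := by
      intro n
      rw [hXW, pmap_aut_iter, hfix]
    have hPb : P ≠ ⊥ := by
      rintro rfl
      rw [Ideal.mem_bot] at hpP
      exact hp.ne_zero (by exact_mod_cast hpP)
    let v : HeightOneSpectrum (𝓞 M) := ⟨P, hP, hPb⟩
    have hoff : Off v (bad1 ∪ bad2) := off_of_lt hp (fun k hk => by
      have := Finset.le_sup (f := id) hk
      simp only [id_eq] at this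
      omega) v hpP
    have hgood : g.Good (v.valuation M) := hbad1 M v fun k hk => hoff k (Finset.mem_union_left _ hk)
    have hnp : RNonPer v g (pmap (algebraMap F M) b) := hbad2 M v fun k hk => hoff k (Finset.mem_union_right _ hk)
    obtain ⟨i, j, hij', hjQ, hsame⟩ := pigeon v hQ2 Xs (fun n a ha hav => by
      have h1 := hfixX n
      rw [ha, pmap_coe, pmap_coe, OnePoint.coe_eq_coe] at h1
      have h2 : ρ a = a := by
        apply (algebraMap M W).injective
        rw [← hs]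
        exact h1
      have h3 := frob_pow_val v (τ : M ≃+* M) (q := p) (fun x hx => frob_val v (τ : M ≃+* M) (fun y => by
        have h5 := (v.valuation_lt_one_iff_mem (K := M) _).2 (hfr y)
        have e1 : (τ : M ≃+* M) (algebraMap (𝓞 M) M y) - (algebraMap (𝓞 M) M y) ^ p =
            algebraMap (𝓞 M) M (τ • y - y ^ p) := by
          rw [map_sub, map_pow]; rfl
        rw [e1]
        exact h5) hx) e a hav
      rw [← hiter, ← hρ, h2] at h3
      rw [Valuation.map_sub_swap]
      exact h3)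
    have h6 := hgood.sameRed_iterate hsame (Q + 1 - i)
    rw [hXs] at h6
    simp only at h6
    rw [← Function.iterate_add_apply, ← Function.iterate_add_apply] at h6
    have e1 : Q + 1 - i + i = Q + 1 := by omega
    have e2 : Q + 1 - i + j = (j - i) + (Q + 1) := by omega
    have h7 : g.act^[Q + 1] x' = pmap (algebraMap F M) b := by
      apply pmap_injective (algebraMap M W)
      have h8 := hXW (Q + 1)
      rw [hx] at h8
      rw [pmap_comp, ← IsScalarTower.algebraMap_eq, ← h8]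
    rw [e1, e2, Function.iterate_add_apply _ (j - i), h7] at h6
    exact hnp (j - i) (by omega) h6.symm

end Pool.Agent.ORB
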