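import Pool.Agent.ORB.GSwap
import Pool.Agent.ORB.GOdd
import Pool.Agent.ORB.NCompl
import Pool.Agent.ORB.NRestr
import Pool.Agent.ORB.NGood
import Pool.Agent.ORB.UPre

/-!
ORB, Theorem V++, row G4: the fresh swap.
-/

set_option autoImplicit false

open Polynomial NumberField IsDedekindDomain WithZero

namespace Pool.Agent.ORB.GP

open NI

universe u

/-- the absolute value over a completion, with its values on `K` -/
theorem exists_locAbs_val {K : Type u} [Field K] [NumberField K] (v : HeightOneSpectrum (𝓞 K)) :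
    ∃ (F Ω : Type u) (_ : Field F) (_ : Field Ω) (_ : Algebra K F) (_ : Algebra F Ω) (_ : CharZero F)
      (_ : IsAlgClosed Ω) (_ : Algebra.IsAlgebraic F Ω) (D : LocAbs F Ω), Compat v D ∧
      ∀ (x : K) (j : ℤ), v.valuation K x = exp j →
        D.N (algebraMap F Ω (algebraMap K F x)) = D.N (algebraMap F Ω D.π) ^ (-j) := by
  obtain ⟨π₀, hπ₀⟩ := v.valuation_exists_uniformizer K
  have hπ0 : π₀ ≠ 0 := by
    rintro rfl
    rw [map_zero] at hπ₀
    exact WithZero.exp_ne_zero hπ₀.symm
  have hlt : v.valuation K π₀ < 1 := by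
    rw [hπ₀, ← WithZero.exp_zero]
    exact WithZero.exp_lt_exp.2 (by norm_num)
  set π : v.adicCompletion K := algebraMap K _ π₀ with hπ
  have hπne : π ≠ 0 := by
    rw [hπ]; exact (_root_.map_ne_zero _).2 hπ0
  have hπlt : ‖π‖ < 1 := by rw [hπ, norm_lt_one_iff']; exact hlt
  let _ : NontriviallyNormedField (v.adicCompletion K) :=
    NontriviallyNormedField.ofNormNeOne ⟨π, hπne, hπlt.ne⟩
  have : Finite (𝓞 K ⧸ v.asIdeal) := v.asIdeal.finiteQuotientOfFreeOfNeBot v.ne_bot
  have := v.isMaximal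
  let _ := Ideal.Quotient.field v.asIdeal
  let _ : Fintype (𝓞 K ⧸ v.asIdeal) := Fintype.ofFinite _
  obtain ⟨p, hp⟩ := CharP.exists (𝓞 K ⧸ v.asIdeal)
  obtain ⟨a, hp', ha⟩ := FiniteField.card (𝓞 K ⧸ v.asIdeal) p
  have hpv : (p : 𝓞 K) ∈ v.asIdeal := by
    rw [← Ideal.Quotient.eq_zero_iff_mem, map_natCast]
    exact CharP.cast_eq_zero _ p
  have hfermat : ∀ x : 𝓞 K, x ^ p ^ (a : ℕ) - x ∈ v.asIdeal := by
    intro x
    rw [← Ideal.Quotient.eq_zero_iff_mem, map_sub, map_pow, ← ha, FiniteField.pow_card, sub_self]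
  have hmem : ∀ x : 𝓞 K, x ∈ v.asIdeal → ‖algebraMap K (v.adicCompletion K) (x : K)‖ < 1 := by
    intro x hx
    rw [norm_lt_one_iff']
    exact (v.valuation_lt_one_iff_mem x).2 hx
  have hint : ∀ x : 𝓞 K, ‖algebraMap K (v.adicCompletion K) (x : K)‖ ≤ 1 := by
    intro x
    rw [norm_le_one_iff']
    exact v.valuation_le_one x
  have hvπ : (Valued.v π : ℤᵐ⁰) = exp (-1 : ℤ) := by
    rw [hπ]
    exact (HeightOneSpectrum.valuedAdicCompletion_eq_valuation' v π₀).trans hπ₀
  obtain ⟨D, hD⟩ := locAbs_of_complete π hπne hπlt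
    (fun x hx => norm_eq_zpow v hx hvπ)
    p hp' (by have := hmem _ hpv; simpa using this) a a.2 (by
      intro x hx
      obtain ⟨y, hy⟩ := exists_close v hx
      have h1 := na_pow_sub (NormedField.toAbsoluteValue (v.adicCompletion K))
        (fun x y => IsUltrametricDist.norm_add_le_max x y) hx (hint y) hy (p ^ (a : ℕ))
      have h2 := hmem _ (hfermat y)
      have e : x ^ p ^ (a : ℕ) - x = ((x ^ p ^ (a : ℕ) - algebraMap K (v.adicCompletion K) (y : K) ^ p ^ (a : ℕ)) +
          algebraMap K (v.adicCompletion K) ((y ^ p ^ (a : ℕ) - y : 𝓞 K) : K)) -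
          (x - algebraMap K (v.adicCompletion K) (y : K)) := by
        simp only [map_sub, map_pow]
        ring
      rw [e]
      exact (sub_ultra v _ _).trans_lt (max_lt
        ((IsUltrametricDist.norm_add_le_max _ _).trans_lt (max_lt h1 h2)) hy))
  have hDπ : ‖D.π‖ = ‖π‖ := by
    have hD1 : ‖D.π‖ < 1 := by rw [← hD]; exact D.π_lt
    have hD0 : 0 < ‖D.π‖ := norm_pos_iff.2 D.π_ne
    have hπ0' : 0 < ‖π‖ := norm_pos_iff.2 hπne
    obtain ⟨n, hn⟩ := D.disc π hπne
    rw [hD, hD] at hn
    obtain ⟨k, hk⟩ := norm_eq_zpow v D.π_ne hvπ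
    have h1 : ‖π‖ ^ (1 : ℤ) = ‖π‖ ^ (k * n) := by
      rw [zpow_one, zpow_mul, ← hk, ← hn]
    have h2 : (1 : ℤ) = k * n := zpow_right_injective₀ hπ0' hπlt.ne h1
    rcases Int.isUnit_iff.1 (IsUnit.of_mul_eq_one n h2.symm) with h3 | h3
    · rw [hk, h3, zpow_one]
    · exfalso
      rw [h3, zpow_neg, zpow_one] at hk
      have h4 : 1 < ‖π‖⁻¹ := (one_lt_inv₀ hπ0').2 hπlt
      rw [← hk] at h4
      linarith
  refine ⟨v.adicCompletion K, AlgebraicClosure (v.adicCompletion K), inferInstance, inferInstance, inferInstance,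
    inferInstance, ?_, inferInstance, inferInstance, D, ?_, ?_⟩
  · exact charZero_of_injective_algebraMap (algebraMap K (v.adicCompletion K)).injective
  · intro x
    rw [hD]
    exact ⟨norm_le_one_iff' v x, norm_lt_one_iff' v x⟩
  · intro x j hj
    rw [hD, hD, hDπ]
    have h1 : v.valuation K (x * π₀ ^ j) = 1 := by
      rw [map_mul, map_zpow₀, hj, hπ₀, ← exp_zsmul, ← exp_add, ← exp_zero]
      congr 1
      simp
    have h2 : ‖algebraMap K (v.adicCompletion K) (x * π₀ ^ j)‖ = 1 := by
      refine le_antisymm ((norm_le_one_iff' v _).2 h1.le) (not_lt.1 fun h => ?_)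
      rw [norm_lt_one_iff', h1] at h
      exact lt_irrefl _ h
    rw [map_mul, map_zpow₀, norm_mul, norm_zpow, ← hπ] at h2
    rw [zpow_neg]
    exact eq_inv_of_mul_eq_one_left h2

section transfer

variable {K F Ω E : Type*} [Field K] [Field F] [Field Ω] [Field E] [Algebra K F] [Algebra F Ω] [Algebra K Ω]
  [IsScalarTower K F Ω] [Algebra K E] [Algebra E Ω] [IsScalarTower K E Ω]

theorem crit_iff (h : K[X]) (c : E) :
    Crit (h.map (algebraMap K F)) (algebraMap E Ω c) ↔ Crit h c := by
  unfold Crit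
  rw [derivative_map, aeval_map_algebraMap, aeval_algebraMap_apply, FaithfulSMul.algebraMap_eq_zero_iff]

theorem simp_iff (h : K[X]) (c : E) :
    Simp (h.map (algebraMap K F)) (algebraMap E Ω c) ↔ Simp h c := by
  unfold Simp
  rw [derivative_map, derivative_map, aeval_map_algebraMap, aeval_map_algebraMap, aeval_algebraMap_apply,
    aeval_algebraMap_apply, FaithfulSMul.algebraMap_eq_zero_iff, Ne, FaithfulSMul.algebraMap_eq_zero_iff]

theorem mult_eq (h : K[X]) (c : E) :
    rootMultiplicity (algebraMap E Ω c) ((derivative (h.map (algebraMap K F))).map (algebraMap F Ω)) =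
      rootMultiplicity c ((derivative h).map (algebraMap K E)) := by
  rw [eq_rootMultiplicity_map (algebraMap E Ω).injective c, Polynomial.map_map, derivative_map,
    Polynomial.map_map, ← IsScalarTower.algebraMap_eq, ← IsScalarTower.algebraMap_eq]

end transfer

/-- the orbit of a point which is not wandering is finite -/
theorem orbit_finite {K W : Type*} [Field K] [Field W] [Algebra K W] {h : K[X]} {c : W} (hc : ¬ Wand h c) :
    (Set.range fun n : ℕ => (ev h)^[n] c).Finite := by
  rw [Wand, Function.Injective] at hc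
  push Not at hc
  obtain ⟨a, b, hab, hne⟩ := hc
  have key : ∀ a b : ℕ, a < b → (ev h)^[a] c = (ev h)^[b] c →
      (Set.range fun n : ℕ => (ev h)^[n] c).Finite := by
    intro a b hlt hab
    refine ((Finset.range b).finite_toSet.image fun n => (ev h)^[n] c).subset ?_
    rintro _ ⟨n, rfl⟩
    induction n using Nat.strong_induction_on with
    | _ n ih =>
      by_cases hn : n < b
      · exact ⟨n, Finset.mem_coe.2 (Finset.mem_range.2 hn), rfl⟩
      · obtain ⟨k, rfl⟩ : ∃ k, n = k + b := ⟨n - b, by omega⟩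
        have h1 : (ev h)^[k + b] c = (ev h)^[k + a] c := by
          rw [Function.iterate_add_apply, Function.iterate_add_apply, hab]
        have h2 := ih (k + a) (by omega)
        show (ev h)^[k + b] c ∈ _
        rw [h1]
        exact h2
  rcases lt_or_gt_of_ne hne with h1 | h1
  · exact key a b h1 hab
  · exact key b a h1 hab.symm

/-- **G4** (fresh swap) -/
theorem fresh_swap {F W : Type u} [Field F] [NumberField F] [Field W] [Algebra F W] [IsAlgClosed W]
    [Algebra.IsAlgebraic F W] (h : F[X]) (hd : 2 ≤ h.natDegree) (hodd : Odd h.natDegree) (hc : CritCond h W)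
    (r : W) (hr : ∀ n, 1 ≤ n → (ev h)^[n] r ≠ r) (hav : ∀ c : W, Crit h c → ∀ n, (ev h)^[n] c ≠ r)
    (T : Set W) (hT : T.Finite) :
    ∃ (A : W ≃ₐ[F] W) (l : ℕ), (∀ t ∈ T, A t = t) ∧ A r = r ∧ (∀ k, k ≤ l → ∀ z : W, (ev h)^[k] z = r → A z = z) ∧
      (∃ z : W, (ev h)^[l + 1] z = r ∧ A z ≠ z) ∧
      ∀ z z' : W, (ev h)^[l + 1] z = r → ev h z = ev h z' → A z ≠ z → A z' ≠ z' → z' = z ∨ z' = A z := by
  classical
  have hh0 : h ≠ 0 := by
    rintro rfl
    simp at hd
  have hcz : CharZero W := charZero_of_injective_algebraMap (algebraMap F W).injective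
  have hd0 : derivative h ≠ 0 := by
    intro h0
    have := Polynomial.derivative_eq_zero.1 h0
    omega
  -- the leading coefficient is a power
  obtain ⟨μ, hμ⟩ := IsAlgClosed.exists_pow_nat_eq (algebraMap F W h.leadingCoeff)
    (show 0 < h.natDegree - 1 by omega)
  have hcritF : {c : W | Crit h c}.Finite := by
    refine (Finset.finite_toSet ((derivative h).aroots W).toFinset).subset fun c hc => ?_
    rw [Finset.mem_coe, Multiset.mem_toFinset, mem_aroots]
    exact ⟨hd0, hc⟩
  obtain ⟨L, _, _, _, _, hst, -, hTL⟩ := exists_gal (F := F) (W := W) (T ∪ ({r, μ} ∪ {c : W | Crit h c}))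
    (hT.union ((Set.toFinite _).union hcritF))
  have hin : Function.Injective (algebraMap L W) := (algebraMap L W).injective
  obtain ⟨r1, hr1⟩ := hTL r (Or.inr (Or.inl (Or.inl rfl)))
  obtain ⟨μ1, hμ1⟩ := hTL μ (Or.inr (Or.inl (Or.inr rfl)))
  have hcL : ∀ c : W, Crit h c → ∃ c1 : L, algebraMap L W c1 = c := fun c hc => hTL c (Or.inr (Or.inr hc))
  set h1 : L[X] := h.map (algebraMap F L) with hh1
  have hd1 : h1.natDegree = h.natDegree := natDegree_map _
  have hevW : ∀ z : W, ev h1 z = ev h z := by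
    intro z
    unfold ev
    rw [hh1, aeval_map_algebraMap]
  have hevWn : ∀ (n : ℕ) (z : W), (ev h1)^[n] z = (ev h)^[n] z := by
    intro n z
    have : (ev h1 : W → W) = ev h := funext hevW
    rw [this]
  have hit1 : ∀ (n : ℕ) (x : L), algebraMap L W ((fun y => eval y h1)^[n] x) = (ev h)^[n] (algebraMap L W x) := by
    intro n x
    rw [← hevWn]
    induction n generalizing x with
    | zero => rfl
    | succ n ih =>
      rw [Function.iterate_succ_apply, Function.iterate_succ_apply, ih]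
      congr 1
      show algebraMap L W (eval x h1) = aeval (algebraMap L W x) h1
      rw [aeval_algebraMap_apply, coe_aeval_eq_eval]
  have hCritW : ∀ c : W, Crit h1 c ↔ Crit h c := by
    intro c
    unfold Crit
    rw [hh1, derivative_map, aeval_map_algebraMap]
  have hSimpW : ∀ c : W, Simp h1 c ↔ Simp h c := by
    intro c
    unfold Simp
    rw [hh1, derivative_map, derivative_map, aeval_map_algebraMap, aeval_map_algebraMap]
  obtain ⟨c0, hc0s, hc0w⟩ := hc.ex
  obtain ⟨c01, hc01⟩ := hcL c0 hc0s.1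
  -- the bad primes
  obtain ⟨B1, hB1, hgood⟩ := good_finite h1 (by rw [hd1]; exact hd)
  -- the elements which have to be units
  set U : Set L := {x | x ≠ 0 ∧ ((∃ c : W, Crit h c ∧ ¬ Wand h c ∧ ∃ n : ℕ, algebraMap L W x = (ev h)^[n] c - r) ∨
    ∃ c c' : W, Crit h c ∧ Crit h c' ∧ algebraMap L W x = ev h c - ev h c')} with hU
  have hUf : U.Finite := by
    have e1 : (⋃ c ∈ {c : W | Crit h c}, {y : W | ¬ Wand h c ∧ ∃ n : ℕ, y = (ev h)^[n] c - r}).Finite := by
      refine hcritF.biUnion fun c _ => ?_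
      by_cases hw : Wand h c
      · refine Set.finite_empty.subset ?_
        rintro y ⟨h2, -⟩
        exact h2 hw
      · refine ((orbit_finite hw).image fun z => z - r).subset ?_
        rintro y ⟨-, n, rfl⟩
        exact ⟨_, ⟨n, rfl⟩, rfl⟩
    have e2 : (⋃ c ∈ {c : W | Crit h c}, ⋃ c' ∈ {c : W | Crit h c}, {ev h c - ev h c'}).Finite :=
      hcritF.biUnion fun c _ => hcritF.biUnion fun c' _ => Set.finite_singleton _
    refine Set.Finite.of_finite_image (f := algebraMap L W) ((e1.union e2).subset ?_) hin.injOn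
    rintro _ ⟨x, ⟨-, ⟨c, hcc, hcw, n, hn⟩ | ⟨c, c', hcc, hcc', hx⟩⟩, rfl⟩
    · exact Or.inl (Set.mem_biUnion hcc ⟨hcw, n, hn⟩)
    · exact Or.inr (Set.mem_biUnion hcc (Set.mem_biUnion hcc' hx))
  set S : Set (HeightOneSpectrum (𝓞 L)) := B1 ∪ (HeightOneSpectrum.Support (𝓞 L) r1 ∪ ⋃ x ∈ U, badU x) with hS
  have hSf : S.Finite := by
    refine hB1.union ((HeightOneSpectrum.Support.finite (𝓞 L) r1).union ?_)
    exact hUf.biUnion fun x hx => badU_finite hx.1
  -- the odd prime
  obtain ⟨n, hn, Q, hQS, m, hm⟩ := exists_odd h1 (by rw [hd1]; exact hodd) (by rw [hd1]; exact hd) μ1 (by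
      apply hin
      rw [map_pow, hμ1, hd1, hμ, hh1, leadingCoeff_map, ← IsScalarTower.algebraMap_apply F L W]) c01 r1 (by
      intro a b hab
      apply hc0w
      show (ev h)^[a] c0 = (ev h)^[b] c0
      rw [← hc01, ← hit1, ← hit1]
      exact congrArg _ hab) (by
      intro n hn h2
      apply hr n hn
      rw [← hr1, ← hit1, h2]) S hSf
  have hQB : Q ∉ B1 := fun h2 => hQS (Or.inl h2)
  have hQr : Q.valuation L r1 ≤ 1 := not_lt.1 fun h2 => hQS (Or.inr (Or.inl h2))
  have hQU : ∀ x ∈ U, Q.valuation L x = 1 := by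
    intro x hx
    by_contra h2
    exact hQS (Or.inr (Or.inr (Set.mem_biUnion hx h2)))
  -- the completion
  obtain ⟨Fq, Ω, _, _, _, _, _, _, _, D, hD, hval⟩ := exists_locAbs_val Q
  let algLΩ : Algebra L Ω := ((algebraMap Fq Ω).comp (algebraMap L Fq)).toAlgebra
  have t1 : IsScalarTower L Fq Ω := IsScalarTower.of_algebraMap_eq (fun x => rfl)
  have halg : Algebra.IsAlgebraic L W := Algebra.IsAlgebraic.tower_top (K := F) L
  let φ : W →ₐ[L] Ω := IsAlgClosed.lift
  let algWΩ : Algebra W Ω := φ.toRingHom.toAlgebra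
  have t2 : IsScalarTower L W Ω := IsScalarTower.of_algebraMap_eq (fun x => (φ.commutes x).symm)
  have hcl : IsAlgClosure L W := ⟨inferInstance, inferInstance⟩
  have hnm : Normal L W := IsAlgClosure.normal L W
  have hinj : Function.Injective (algebraMap W Ω) := (algebraMap W Ω).injective
  have hLΩ : ∀ x : L, algebraMap Fq Ω (algebraMap L Fq x) = algebraMap W Ω (algebraMap L W x) := by
    intro x
    rw [← IsScalarTower.algebraMap_apply L W Ω, ← IsScalarTower.algebraMap_apply L Fq Ω]
  -- algebraic elements of `Ω` come from `W`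
  have hroot : ∀ (P : L[X]), P ≠ 0 → ∀ z : Ω, aeval z P = 0 → ∃ z0 : W, algebraMap W Ω z0 = z := by
    intro P hP z hz
    have hsp : (P.map (algebraMap L W)).Splits := IsAlgClosed.splits _
    have h2 := hsp.roots_map (algebraMap W Ω)
    rw [Polynomial.map_map, ← IsScalarTower.algebraMap_eq L W Ω] at h2
    have h3 : z ∈ (P.map (algebraMap L Ω)).roots := (mem_aroots).2 ⟨hP, hz⟩
    rw [h2, Multiset.mem_map] at h3
    obtain ⟨z0, -, h4⟩ := h3
    exact ⟨z0, h4⟩
  have hd10 : derivative h1 ≠ 0 := by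
    rw [hh1, derivative_map]
    exact (Polynomial.map_ne_zero_iff (algebraMap F L).injective).2 hd0
  have hcritΩ : ∀ c : Ω, Crit (h1.map (algebraMap L Fq)) c → ∃ c1 : L, Crit h (algebraMap L W c1) ∧
      algebraMap W Ω (algebraMap L W c1) = c := by
    intro c hcc
    obtain ⟨z0, rfl⟩ := hroot (derivative h1) hd10 c (by
      have h2 : aeval c (derivative (h1.map (algebraMap L Fq))) = 0 := hcc
      rwa [derivative_map, aeval_map_algebraMap] at h2)
    rw [crit_iff, hCritW] at hcc
    obtain ⟨c1, rfl⟩ := hcL z0 hcc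
    exact ⟨c1, hcc, rfl⟩
  have hiter : ∀ (n : ℕ) (z : W), (ev (h1.map (algebraMap L Fq)))^[n] (algebraMap W Ω z) =
      algebraMap W Ω ((ev h)^[n] z) := by
    intro n z
    rw [ev_map_iter, hevWn]
  -- active critical points are wandering
  have hact : ∀ c1 : L, Crit h (algebraMap L W c1) →
      (∃ n, 1 ≤ n ∧ D.N ((ev (h1.map (algebraMap L Fq)))^[n] (algebraMap W Ω (algebraMap L W c1)) -
        algebraMap Fq Ω (algebraMap L Fq r1)) < 1) → Wand h (algebraMap L W c1) := by
    rintro c1 hcc ⟨k, hk, hlt⟩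
    by_contra hw
    have e1 : (ev (h1.map (algebraMap L Fq)))^[k] (algebraMap W Ω (algebraMap L W c1)) -
        algebraMap Fq Ω (algebraMap L Fq r1) =
        algebraMap Fq Ω (algebraMap L Fq ((fun y => eval y h1)^[k] c1 - r1)) := by
      rw [hLΩ, hLΩ, map_sub (algebraMap L W), map_sub (algebraMap W Ω), hiter, hit1]
    rw [e1] at hlt
    have h2 := ((hD _).2).1 hlt
    have h3 : (fun y => eval y h1)^[k] c1 - r1 ∈ U := by
      refine ⟨?_, Or.inl ⟨_, hcc, hw, k, ?_⟩⟩
      · intro h4
        apply hav _ hcc k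
        rw [← hit1, sub_eq_zero.1 h4, hr1]
      · rw [map_sub, hit1, hr1]
    rw [hQU _ h3] at h2
    exact lt_irrefl _ h2
  obtain ⟨A, l, hln, hA1, ⟨z1, hz1, hz1A⟩, hA3⟩ := local_swap D (h1.map (algebraMap L Fq))
    (hgood Q hQB Fq Ω D hD) (algebraMap L Fq r1) (((hD r1).1).2 hQr)
    (fun c hcc hca => by
      obtain ⟨c1, hc1, rfl⟩ := hcritΩ c hcc
      have hw := hact c1 hc1 hca
      rcases hc.odd _ hc1 hw with h2 | h2
      · left
        rw [simp_iff, hSimpW]
        exact h2
      · right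
        rw [mult_eq]
        have e : (derivative h1).map (algebraMap L W) = (derivative h).map (algebraMap F W) := by
          rw [hh1, derivative_map, Polynomial.map_map, ← IsScalarTower.algebraMap_eq]
        rw [e]
        exact h2)
    (fun c c' hcs hcs' hca hca' hne hlt => by
      obtain ⟨c1, hc1, rfl⟩ := hcritΩ c hcs.1
      obtain ⟨c1', hc1', rfl⟩ := hcritΩ c' hcs'.1
      have hw := hact c1 hc1 hca
      have hw' := hact c1' hc1' hca'
      rw [simp_iff, hSimpW] at hcs hcs'
      have hne' : algebraMap L W c1 ≠ algebraMap L W c1' := fun h2 => hne (by rw [h2])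
      have h2 : ev h (algebraMap L W c1) ≠ ev h (algebraMap L W c1') := fun h3 =>
        hne' (hc.sep _ _ hcs hcs' hw hw' h3)
      have ee : ∀ x : L, algebraMap L W (eval x h1) = ev h (algebraMap L W x) := fun x => hit1 1 x
      have e1 : ev (h1.map (algebraMap L Fq)) (algebraMap W Ω (algebraMap L W c1)) -
          ev (h1.map (algebraMap L Fq)) (algebraMap W Ω (algebraMap L W c1')) =
          algebraMap Fq Ω (algebraMap L Fq (eval c1 h1 - eval c1' h1)) := by
        have e2 : ∀ z : W, ev (h1.map (algebraMap L Fq)) (algebraMap W Ω z) = algebraMap W Ω (ev h z) :=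
          fun z => hiter 1 z
        rw [hLΩ, map_sub (algebraMap L W), map_sub (algebraMap W Ω), ee, ee, e2, e2]
      rw [e1] at hlt
      have h3 := ((hD _).2).1 hlt
      have h4 : eval c1 h1 - eval c1' h1 ∈ U := by
        refine ⟨?_, Or.inr ⟨_, _, hc1, hc1', ?_⟩⟩
        · intro h5
          apply h2
          rw [← ee, ← ee, sub_eq_zero.1 h5]
        · rw [map_sub, ee, ee]
      rw [hQU _ h4] at h3
      exact lt_irrefl _ h3)
    (algebraMap L Fq c01) (by
      rw [hLΩ, hc01, simp_iff, hSimpW]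
      exact hc0s) n hn (-m - 1) (by
      rw [eval_map_iter, ← map_sub, hval _ _ hm]
      congr 1
      ring)
  obtain ⟨B, hB⟩ := exists_restr (K := L) (E := W) A
  have hnode : ∀ (k : ℕ) (z : W), (ev h)^[k] z = r →
      algebraMap W Ω z ∈ Node Ω (h1.map (algebraMap L Fq)) (algebraMap L Fq r1) k := by
    intro k z hz
    show (ev (h1.map (algebraMap L Fq)))^[k] (algebraMap W Ω z) = _
    rw [hiter, hz, hLΩ, hr1]
  refine ⟨B.restrictScalars F, l, ?_, ?_, ?_, ?_, ?_⟩
  · intro t ht
    obtain ⟨x, rfl⟩ := hTL t (Or.inl ht)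
    exact B.commutes x
  · rw [← hr1]
    exact B.commutes r1
  · intro k hk z hz
    apply hinj
    show algebraMap W Ω (B z) = _
    rw [hB]
    exact hA1 k hk _ (hnode k z hz)
  · obtain ⟨z0, hz0⟩ := hroot (itp h1 (l + 1) - C r1) (by
        intro h2
        have h3 : (itp h1 (l + 1)).natDegree = 0 := by
          rw [sub_eq_zero.1 h2, natDegree_C]
        rw [itp, natDegree_iterate_comp, natDegree_X, mul_one, hd1] at h3
        exact absurd h3 (pow_ne_zero _ (by omega))) z1 (by
        have h2 : (ev (h1.map (algebraMap L Fq)))^[l + 1] z1 = algebraMap Fq Ω (algebraMap L Fq r1) := hz1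
        rw [map_sub, aeval_C, sub_eq_zero, IsScalarTower.algebraMap_apply L Fq Ω, ← h2]
        have h3 : ∀ (k : ℕ) (z : Ω), aeval z (itp h1 k) = (ev (h1.map (algebraMap L Fq)))^[k] z := by
          intro k z
          induction k with
          | zero =>
            show aeval z (X : L[X]) = z
            rw [aeval_X]
          | succ k ih =>
            rw [itp, Function.iterate_succ_apply', aeval_comp, Function.iterate_succ_apply']
            have h4 : aeval z (h1.comp^[k] X) = (ev (h1.map (algebraMap L Fq)))^[k] z := ih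
            rw [h4]
            exact (aeval_map_algebraMap Fq _ h1).symm
        exact h3 _ _)
    refine ⟨z0, ?_, ?_⟩
    · apply hinj
      rw [← hiter, hz0]
      have h2 : (ev (h1.map (algebraMap L Fq)))^[l + 1] z1 = algebraMap Fq Ω (algebraMap L Fq r1) := hz1
      rw [h2, hLΩ, hr1]
    · intro h2
      apply hz1A
      have h3 : B z0 = z0 := h2
      rw [← hz0, ← hB, h3]
  · intro z z' hz hzz h2 h3
    have hBz : ∀ y : W, B y ≠ y → A (algebraMap W Ω y) ≠ algebraMap W Ω y := by
      intro y hy h4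
      apply hy
      apply hinj
      rw [hB, h4]
    have h5 := hA3 (algebraMap W Ω z) (hnode (l + 1) z hz) (algebraMap W Ω z') (by
      rw [ev_map, ev_map, hevW, hevW, hzz]) (hBz z h2) (hBz z' h3)
    rcases h5 with h5 | h5
    · exact Or.inl (hinj h5)
    · right
      apply hinj
      rw [h5]
      exact (hB z).symm

end Pool.Agent.ORB.GP
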