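import Mathlib

/-!
ORB, Theorem V++, row G1: a statement on finite permutation groups generated by elements which act on each block of
an invariant equivalence relation as the identity or as a transposition.
-/

set_option autoImplicit false

namespace Pool.Agent.ORB.GP

open Equiv.Perm

section perm
variable {G Y : Type*} [Group G] [MulAction G Y]

/-- the hypotheses -/
structure Cfg (S : Set G) (R : Y → Y → Prop) : Prop where
  conj : ∀ g : G, ∀ u ∈ S, g * u * g⁻¹ ∈ S
  eqv : Equivalence R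
  inv : ∀ (g : G) (z z' : Y), R z z' → R (g • z) (g • z')
  pres : ∀ u ∈ S, ∀ z : Y, R z (u • z)
  two : ∀ u ∈ S, ∀ z z' : Y, R z z' → u • z ≠ z → u • z' ≠ z' → z' = z ∨ z' = u • z
  ex : ∀ z z' : Y, R z z' → z ≠ z' → ∃ u ∈ S, u • z = z'
  five : ∀ z : Y, 5 ≤ {z' : Y | R z z'}.ncard

variable {S : Set G} {R : Y → Y → Prop}

theorem Cfg.back (h : Cfg S R) {u : G} (hu : u ∈ S) {z : Y} (hz : u • z ≠ z) : u • (u • z) = z := by
  have h1 : R z (u • (u • z)) := h.eqv.trans (h.pres u hu z) (h.pres u hu _)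
  have h2 : u • (u • (u • z)) ≠ u • (u • z) := by
    intro h3
    exact hz (MulAction.injective u (MulAction.injective u h3))
  rcases h.two u hu z (u • (u • z)) h1 hz h2 with h3 | h3
  · exact h3
  · exact absurd (MulAction.injective u h3) hz

theorem Cfg.cl_pres (h : Cfg S R) {c : G} (hc : c ∈ Subgroup.closure S) (z : Y) : R z (c • z) := by
  induction hc using Subgroup.closure_induction generalizing z with
  | mem x hx => exact h.pres x hx z
  | one => rw [one_smul]; exact h.eqv.refl z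
  | mul x y _ _ hx hy =>
    rw [mul_smul]
    exact h.eqv.trans (hy z) (hx _)
  | inv x _ hx =>
    have h1 := hx (x⁻¹ • z)
    rw [smul_inv_smul] at h1
    exact h.eqv.symm h1

/-- the action on a block -/
def Cfg.rho (h : Cfg S R) (z0 : Y) : Subgroup.closure S →* Equiv.Perm {z // R z0 z} where
  toFun c :=
    { toFun := fun z => ⟨(c : G) • z.1, h.eqv.trans z.2 (h.cl_pres c.2 z.1)⟩
      invFun := fun z => ⟨((c⁻¹ : Subgroup.closure S) : G) • z.1, h.eqv.trans z.2 (h.cl_pres (c⁻¹).2 z.1)⟩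
      left_inv := fun z => Subtype.ext (by
        show ((c⁻¹ : Subgroup.closure S) : G) • ((c : G) • z.1) = z.1
        rw [Subgroup.coe_inv, inv_smul_smul])
      right_inv := fun z => Subtype.ext (by
        show (c : G) • (((c⁻¹ : Subgroup.closure S) : G) • z.1) = z.1
        rw [Subgroup.coe_inv, smul_inv_smul]) }
  map_one' := by
    ext z
    exact one_smul G z.1
  map_mul' a b := by
    ext z
    exact mul_smul (a : G) (b : G) z.1

theorem Cfg.rho_apply (h : Cfg S R) (z0 : Y) (c : Subgroup.closure S) (z : {z // R z0 z}) :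
    ((h.rho z0 c z : {z // R z0 z}) : Y) = (c : G) • z.1 := rfl

/-- the kernel of the action on a block -/
def Cfg.K (h : Cfg S R) (z0 : Y) : Subgroup (Subgroup.closure S) := (h.rho z0).ker

instance Cfg.K_normal (h : Cfg S R) (z0 : Y) : (h.K z0).Normal := MonoidHom.normal_ker _

theorem Cfg.mem_K (h : Cfg S R) {z0 : Y} {c : Subgroup.closure S} : c ∈ h.K z0 ↔ ∀ z, R z0 z → (c : G) • z = z := by
  rw [Cfg.K, MonoidHom.mem_ker]
  constructor
  · intro h1 z hz
    exact congrArg (fun e : Equiv.Perm {z // R z0 z} => ((e ⟨z, hz⟩ : {z // R z0 z}) : Y)) h1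
  · intro h1
    ext z
    exact h1 z.1 z.2

theorem Cfg.K_congr (h : Cfg S R) {z0 z1 : Y} (h01 : R z0 z1) : h.K z0 = h.K z1 := by
  ext c
  rw [h.mem_K, h.mem_K]
  constructor
  · exact fun h1 z hz => h1 z (h.eqv.trans h01 hz)
  · exact fun h1 z hz => h1 z (h.eqv.trans (h.eqv.symm h01) hz)

variable [Finite Y]

omit [Finite Y] in
theorem Cfg.card_blk (h : Cfg S R) (z0 : Y) : 5 ≤ Nat.card {z // R z0 z} := h.five z0

theorem Cfg.rho_surj (h : Cfg S R) (z0 : Y) : Function.Surjective (h.rho z0) := by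
  classical
  rw [← MonoidHom.range_eq_top, eq_top_iff, ← Equiv.Perm.closure_isSwap, Subgroup.closure_le]
  rintro σ ⟨x, y, hxy, rfl⟩
  have hxy' : x.1 ≠ y.1 := fun h1 => hxy (Subtype.ext h1)
  obtain ⟨u, hu, hux⟩ := h.ex x.1 y.1 (h.eqv.trans (h.eqv.symm x.2) y.2) hxy'
  have hmx : u • x.1 ≠ x.1 := by rw [hux]; exact hxy'.symm
  refine ⟨⟨u, Subgroup.subset_closure hu⟩, ?_⟩
  ext z
  rw [h.rho_apply]
  show u • z.1 = _
  by_cases hzx : z = x
  · rw [hzx, Equiv.swap_apply_left, hux]
  · by_cases hzy : z = y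
    · rw [hzy, Equiv.swap_apply_right, ← hux, h.back hu hmx]
    · rw [Equiv.swap_apply_of_ne_of_ne hzx hzy]
      by_contra hne
      rcases h.two u hu x.1 z.1 (h.eqv.trans (h.eqv.symm x.2) z.2) hmx hne with h1 | h1
      · exact hzx (Subtype.ext h1)
      · rw [hux] at h1
        exact hzy (Subtype.ext h1)

open Classical in
theorem Cfg.alt_le (h : Cfg S R) {z0 z1 : Y} [Fintype {z // R z1 z}] (hK : ¬ h.K z0 ≤ h.K z1) :
    alternatingGroup {z // R z1 z} ≤ (h.K z0).map (h.rho z1) := by
  have hn : ((h.K z0).map (h.rho z1)).Normal := Subgroup.Normal.map inferInstance _ (h.rho_surj z1)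
  refine alternatingGroup_le_of_normal (h.card_blk z1) ?_
  rw [Subgroup.nontrivial_iff_ne_bot]
  intro h1
  apply hK
  intro c hc
  have h2 : h.rho z1 c ∈ (h.K z0).map (h.rho z1) := Subgroup.mem_map_of_mem _ hc
  rw [h1, Subgroup.mem_bot] at h2
  exact h2

theorem Cfg.K_symm (h : Cfg S R) {z0 z1 : Y} (hK : h.K z0 ≤ h.K z1) : h.K z1 ≤ h.K z0 := by
  classical
  cases nonempty_fintype Y
  by_contra hno
  have h1 := h.alt_le hno
  -- the commutator subgroup lies in the kernel
  have h2 : commutator (Subgroup.closure S) ≤ h.K z1 := by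
    intro w hw
    have h3 : h.rho z0 w ∈ alternatingGroup {z // R z0 z} := by
      apply alternatingGroup.commutator_perm_le
      have h4 : h.rho z0 w ∈ (commutator (Subgroup.closure S)).map (h.rho z0) := Subgroup.mem_map_of_mem _ hw
      rw [commutator_def, Subgroup.map_commutator] at h4
      exact Subgroup.commutator_mono le_top le_top h4
    obtain ⟨k, hk, hkw⟩ := h1 h3
    have h5 : w * k⁻¹ ∈ h.K z0 := by
      rw [Cfg.K, MonoidHom.mem_ker, map_mul, map_inv, hkw, mul_inv_cancel]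
    have h6 := (h.K z1).mul_mem (hK h5) hk
    rwa [inv_mul_cancel_right] at h6
  have h3 : alternatingGroup {z // R z1 z} ≤ ⊥ := by
    rw [← alternatingGroup.commutator_perm_eq (h.card_blk z1)]
    intro x hx
    have h4 : (commutator (Subgroup.closure S)).map (h.rho z1) = commutator (Equiv.Perm {z // R z1 z}) := by
      rw [commutator_def, Subgroup.map_commutator, ← MonoidHom.range_eq_map,
        MonoidHom.range_eq_top.2 (h.rho_surj z1), commutator_def]
    rw [← h4] at hx
    obtain ⟨c, hc, rfl⟩ := hx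
    rw [Subgroup.mem_bot]
    exact h2 hc
  have h4 : Nontrivial (alternatingGroup {z // R z1 z}) := by
    apply alternatingGroup.nontrivial_of_three_le_card
    exact le_trans (by norm_num) (h.card_blk z1)
  rw [le_bot_iff] at h3
  rw [h3] at h4
  exact not_nontrivial _ h4

/-! ### Linked blocks -/

/-- `z` and `z'` are moved by the same elements of `S` -/
def Th (S : Set G) (z z' : Y) : Prop := ∀ u ∈ S, (u • z ≠ z ↔ u • z' ≠ z')

omit [Finite Y] in
theorem Th.symm {z z' : Y} (h : Th S z z') : Th S z' z := fun u hu => (h u hu).symm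

omit [Finite Y] in
theorem Th.trans {z z' z'' : Y} (h : Th S z z') (h' : Th S z' z'') : Th S z z'' :=
  fun u hu => (h u hu).trans (h' u hu)

omit [Finite Y] in
theorem Cfg.Th_smul (h : Cfg S R) {z z' : Y} (h1 : Th S z z') (g : G) : Th S (g • z) (g • z') := by
  intro u hu
  have h2 : g⁻¹ * u * g ∈ S := by
    have := h.conj g⁻¹ u hu
    rwa [inv_inv] at this
  have h3 : ∀ w : Y, ((g⁻¹ * u * g) • w ≠ w ↔ u • (g • w) ≠ g • w) := by
    intro w
    rw [mul_smul, mul_smul, Ne, Ne, inv_smul_eq_iff]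
  rw [← h3, ← h3]
  exact h1 _ h2

omit [Finite Y] in
theorem exists_ne4 (h : Cfg S R) (z0 : Y) (a b c d : Y) : ∃ w, R z0 w ∧ w ≠ a ∧ w ≠ b ∧ w ≠ c ∧ w ≠ d := by
  classical
  by_contra hno
  push Not at hno
  have h1 : {z' : Y | R z0 z'} ⊆ (({a, b, c, d} : Finset Y) : Set Y) := by
    intro w hw
    simp only [Finset.coe_insert, Finset.coe_singleton, Set.mem_insert_iff, Set.mem_singleton_iff]
    by_contra hcon
    push Not at hcon
    exact hcon.2.2.2 (hno w hw hcon.1 hcon.2.1 hcon.2.2.1)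
  have h2 := Set.ncard_le_ncard h1 (Finset.finite_toSet _)
  rw [Set.ncard_coe_finset] at h2
  have h3 := h.five z0
  have h4 : ({a, b, c, d} : Finset Y).card ≤ 4 := Finset.card_le_four
  omega

omit [Finite Y] in
/-- in one block `Th` is equality -/
theorem Cfg.Th_eq (h : Cfg S R) {z z' : Y} (hR : R z z') (h1 : Th S z z') : z = z' := by
  by_contra hne
  obtain ⟨y, hy, hyz, hyz', -, -⟩ := exists_ne4 h z z z' z z'
  obtain ⟨u, hu, huy⟩ := h.ex z y hy (Ne.symm hyz)
  have h2 : u • z ≠ z := by rw [huy]; exact hyz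
  rcases h.two u hu z z' hR h2 ((h1 u hu).1 h2) with h3 | h3
  · exact hne h3.symm
  · rw [huy] at h3
    exact hyz' h3.symm

omit [Finite Y] in
/-- two elements of `S` which agree at a point of a block which they move agree on the block -/
theorem Cfg.agree (h : Cfg S R) {u v : G} (hu : u ∈ S) (hv : v ∈ S) {p : Y} (hp : u • p ≠ p) (huv : u • p = v • p)
    {z : Y} (hz : R p z) : u • z = v • z := by
  have hp' : v • p ≠ p := by rw [← huv]; exact hp
  by_cases h1 : z = p
  · rw [h1, huv]
  · by_cases h2 : z = u • p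
    · rw [h2, h.back hu hp, huv, h.back hv hp']
    · have h3 : u • z = z := by
        by_contra hne
        rcases h.two u hu p z hz hp hne with h4 | h4
        · exact h1 h4
        · exact h2 h4
      have h4 : v • z = z := by
        by_contra hne
        rcases h.two v hv p z hz hp' hne with h4 | h4
        · exact h1 h4
        · exact h2 (h4.trans huv.symm)
      rw [h3, h4]

omit [Finite Y] in
/-- equality on one block and on a block with the same kernel -/
theorem Cfg.agree_iff (h : Cfg S R) {z0 z1 : Y} (hK : h.K z0 = h.K z1) {u v : G} (hu : u ∈ Subgroup.closure S)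
    (hv : v ∈ Subgroup.closure S) : (∀ z, R z0 z → u • z = v • z) ↔ ∀ z, R z1 z → u • z = v • z := by
  have key : ∀ w : Y, (⟨v⁻¹ * u, Subgroup.mul_mem _ (Subgroup.inv_mem _ hv) hu⟩ : Subgroup.closure S) ∈ h.K w ↔
      ∀ z, R w z → u • z = v • z := by
    intro w
    rw [h.mem_K]
    refine forall_congr' fun z => imp_congr_right fun _ => ?_
    show (v⁻¹ * u) • z = z ↔ _
    rw [mul_smul, inv_smul_eq_iff]
  rw [← key, ← key, hK]

omit [Finite Y] in
/-- two elements of `S` with a common fixed part on a block commute there -/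
theorem Cfg.comm_of_disj (h : Cfg S R) {u v : G} (hu : u ∈ S) (hv : v ∈ S) {z1 : Y}
    (hd : ∀ p, R z1 p → u • p ≠ p → v • p = p) (z : Y) (hz : R z1 z) : (u * v) • z = (v * u) • z := by
  rw [mul_smul, mul_smul]
  by_cases h1 : u • z = z
  · rw [h1]
    by_cases h2 : v • z = z
    · rw [h2, h1]
    · by_contra h3
      have h4 : u • (v • z) ≠ v • z := h3
      have h5 := hd (v • z) (h.eqv.trans hz (h.pres v hv z)) h4
      exact h2 (MulAction.injective v h5)
  · rw [hd z hz h1]
    by_contra h3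
    have h4 : u • (u • z) ≠ u • z := fun h5 => h1 (MulAction.injective u h5)
    have h5 := hd (u • z) (h.eqv.trans hz (h.pres u hu z)) h4
    exact h3 h5.symm

omit [Finite Y] in
/-- **the star argument** -/
theorem Cfg.exists_th (h : Cfg S R) {z0 z1 : Y} (hK : h.K z0 = h.K z1) : ∃ z', R z1 z' ∧ Th S z0 z' := by
  have hS : ∀ u ∈ S, u ∈ Subgroup.closure S := fun u hu => Subgroup.subset_closure hu
  -- swaps of `z0` with different points have a common moved point in the other block
  have hmeet : ∀ u ∈ S, ∀ v ∈ S, ∀ a b : Y, R z0 a → R z0 b → a ≠ b → u • a ≠ a → v • a ≠ a → u • a ≠ v • a →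
      ∃ p, R z1 p ∧ u • p ≠ p ∧ v • p ≠ p := by
    intro u hu v hv a _ ha _ _ hua hva huv
    by_contra hno
    push Not at hno
    have h1 := h.comm_of_disj hu hv (z1 := z1) (fun p hp hup => hno p hp hup)
    have h2 := (h.agree_iff hK (Subgroup.mul_mem _ (hS u hu) (hS v hv))
      (Subgroup.mul_mem _ (hS v hv) (hS u hu))).2 h1 a ha
    rw [mul_smul, mul_smul] at h2
    -- `u (v a) = v a` and `v (u a) = u a`
    have h3 : u • (v • a) = v • a := by
      by_contra hne
      rcases h.two u hu a (v • a) (h.pres v hv a) hua hne with h4 | h4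
      · exact hva h4
      · exact huv h4.symm
    have h4 : v • (u • a) = u • a := by
      by_contra hne
      rcases h.two v hv a (u • a) (h.pres u hu a) hva hne with h4 | h4
      · exact hua h4
      · exact huv h4
    rw [h3, h4] at h2
    exact huv h2.symm
  -- choose
  obtain ⟨w1, hw1, hw10, -, -, -⟩ := exists_ne4 h z0 z0 z0 z0 z0
  obtain ⟨w2, hw2, hw20, hw21, -, -⟩ := exists_ne4 h z0 z0 w1 z0 z0
  obtain ⟨u1, hu1, hu1z⟩ := h.ex z0 w1 hw1 (Ne.symm hw10)
  obtain ⟨u2, hu2, hu2z⟩ := h.ex z0 w2 hw2 (Ne.symm hw20)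
  have hm1 : u1 • z0 ≠ z0 := by rw [hu1z]; exact hw10
  have hm2 : u2 • z0 ≠ z0 := by rw [hu2z]; exact hw20
  -- elements which agree at a moved point of the second block agree at `z0`
  have hag : ∀ u ∈ S, ∀ v ∈ S, ∀ p, R z1 p → u • p ≠ p → u • p = v • p → u • z0 = v • z0 := by
    intro u hu v hv p hp hup huv
    refine (h.agree_iff hK (hS u hu) (hS v hv)).2 (fun z hz => ?_) z0 (h.eqv.refl z0)
    exact h.agree hu hv hup huv (h.eqv.trans (h.eqv.symm hp) hz)
  have hag' : ∀ u ∈ S, ∀ v ∈ S, u • z0 ≠ z0 → u • z0 = v • z0 → ∀ p, R z1 p → u • p = v • p := by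
    intro u hu v hv hu0 huv p hp
    refine (h.agree_iff hK (hS u hu) (hS v hv)).1 (fun z hz => ?_) p hp
    exact h.agree hu hv hu0 huv hz
  obtain ⟨p, hp, hp1, hp2⟩ := hmeet u1 hu1 u2 hu2 z0 w1 (h.eqv.refl z0) hw1 (Ne.symm hw10) hm1 hm2
    (by rw [hu1z, hu2z]; exact Ne.symm hw21)
  refine ⟨p, hp, ?_⟩
  have hab : u1 • p ≠ u2 • p := by
    intro h1
    have := hag u1 hu1 u2 hu2 p hp hp1 h1
    rw [hu1z, hu2z] at this
    exact hw21 this.symm
  -- every swap of `z0` moves `p`
  have hall : ∀ u ∈ S, u • z0 ≠ z0 → u • p ≠ p := by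
    intro u3 hu3 hm3 hfix
    have h31 : u3 • z0 ≠ u1 • z0 := by
      intro h1
      have := hag' u3 hu3 u1 hu1 hm3 h1 p hp
      rw [hfix] at this
      exact hp1 this.symm
    have h32 : u3 • z0 ≠ u2 • z0 := by
      intro h1
      have := hag' u3 hu3 u2 hu2 hm3 h1 p hp
      rw [hfix] at this
      exact hp2 this.symm
    have hR1 : R p (u1 • p) := h.pres u1 hu1 p
    have hR2 : R p (u2 • p) := h.pres u2 hu2 p
    -- a common moved point of `u` and `u1` is `p` or `u1 p`
    have hc1 : ∀ v ∈ S, v • z0 ≠ z0 → v • z0 ≠ u1 • z0 → v • p ≠ p ∨ v • (u1 • p) ≠ u1 • p := by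
      intro v hv hv0 hv1
      obtain ⟨q, hq, hq1, hq2⟩ := hmeet u1 hu1 v hv z0 w1 (h.eqv.refl z0) hw1 (Ne.symm hw10) hm1 hv0
        (Ne.symm hv1)
      rcases h.two u1 hu1 p q (h.eqv.trans (h.eqv.symm hp) hq) hp1 hq1 with h1 | h1
      · left; rwa [h1] at hq2
      · right; rwa [h1] at hq2
    have hc2 : ∀ v ∈ S, v • z0 ≠ z0 → v • z0 ≠ u2 • z0 → v • p ≠ p ∨ v • (u2 • p) ≠ u2 • p := by
      intro v hv hv0 hv1
      obtain ⟨q, hq, hq1, hq2⟩ := hmeet u2 hu2 v hv z0 w2 (h.eqv.refl z0) hw2 (Ne.symm hw20) hm2 hv0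
        (Ne.symm hv1)
      rcases h.two u2 hu2 p q (h.eqv.trans (h.eqv.symm hp) hq) hp2 hq1 with h1 | h1
      · left; rwa [h1] at hq2
      · right; rwa [h1] at hq2
    have h3a : u3 • (u1 • p) ≠ u1 • p := (hc1 u3 hu3 hm3 h31).resolve_left fun h1 => h1 hfix
    have h3b : u3 • (u2 • p) ≠ u2 • p := (hc2 u3 hu3 hm3 h32).resolve_left fun h1 => h1 hfix
    have hRab : R (u1 • p) (u2 • p) := h.eqv.trans (h.eqv.symm hR1) hR2
    have h3ab : u3 • (u1 • p) = u2 • p := by
      rcases h.two u3 hu3 _ _ hRab h3a h3b with h1 | h1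
      · exact absurd h1.symm hab
      · exact h1.symm
    -- a fourth swap
    obtain ⟨w4, hw4, hw40, hw41, hw42, hw43⟩ := exists_ne4 h z0 z0 w1 w2 (u3 • z0)
    obtain ⟨u4, hu4, hu4z⟩ := h.ex z0 w4 hw4 (Ne.symm hw40)
    have hm4 : u4 • z0 ≠ z0 := by rw [hu4z]; exact hw40
    have h41 : u4 • z0 ≠ u1 • z0 := by rw [hu4z, hu1z]; exact hw41
    have h42 : u4 • z0 ≠ u2 • z0 := by rw [hu4z, hu2z]; exact hw42
    have h43 : u4 • z0 ≠ u3 • z0 := by rw [hu4z]; exact hw43
    have hpa : R z1 (u1 • p) := h.eqv.trans hp hR1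
    have hpb : R z1 (u2 • p) := h.eqv.trans hp hR2
    by_cases h4p : u4 • p = p
    · have h4a := (hc1 u4 hu4 hm4 h41).resolve_left fun h1 => h1 h4p
      have h4b := (hc2 u4 hu4 hm4 h42).resolve_left fun h1 => h1 h4p
      have h4ab : u4 • (u1 • p) = u2 • p := by
        rcases h.two u4 hu4 _ _ hRab h4a h4b with h1 | h1
        · exact absurd h1.symm hab
        · exact h1.symm
      exact h43 (hag u4 hu4 u3 hu3 _ hpa h4a (by rw [h4ab, h3ab]))
    · obtain ⟨q, hq, hq3, hq4⟩ := hmeet u3 hu3 u4 hu4 z0 w1 (h.eqv.refl z0) hw1 (Ne.symm hw10) hm3 hm4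
        (Ne.symm h43)
      have hqab : q = u1 • p ∨ q = u2 • p := by
        rcases h.two u3 hu3 (u1 • p) q (h.eqv.trans (h.eqv.symm hpa) hq) h3a hq3 with h1 | h1
        · exact Or.inl h1
        · exact Or.inr (h1.trans h3ab)
      have h4q : q = p ∨ q = u4 • p := h.two u4 hu4 p q (h.eqv.trans (h.eqv.symm hp) hq) h4p hq4
      rcases hqab with h1 | h1
      · rcases h4q with h2 | h2
        · exact hp1 (h1.symm.trans h2)
        · exact h41 (hag u4 hu4 u1 hu1 p hp h4p (h2.symm.trans h1))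
      · rcases h4q with h2 | h2
        · exact hp2 (h1.symm.trans h2)
        · exact h42 (hag u4 hu4 u2 hu2 p hp h4p (h2.symm.trans h1))
  intro u hu
  refine ⟨hall u hu, fun hup hz => ?_⟩
  -- `u` moves `p` and fixes `z0`
  have hnot : ∃ w, R z0 w ∧ u • w ≠ w := by
    by_contra hno
    push Not at hno
    have h1 := (h.agree_iff hK (hS u hu) (Subgroup.one_mem _)).1 (fun z hz => by rw [one_smul]; exact hno z hz) p hp
    rw [one_smul] at h1
    exact hup h1
  obtain ⟨w, hw, huw⟩ := hnot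
  have key : ∀ v ∈ S, v • z0 ≠ z0 → v • z0 ≠ w → v • z0 ≠ u • w → v • p = u • p := by
    intro v hv hv0 hvw hvuw
    have hvp := hall v hv hv0
    -- `u` and `v` commute on the first block
    have hdis : ∀ q, R z0 q → u • q ≠ q → v • q = q := by
      intro q hq huq
      have h1 : q = w ∨ q = u • w := h.two u hu w q (h.eqv.trans (h.eqv.symm hw) hq) huw huq
      by_contra hne
      have h2 : q = z0 ∨ q = v • z0 := h.two v hv z0 q hq hv0 hne
      rcases h2 with h2 | h2
      · exact huq (by rw [h2]; exact hz)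
      · rcases h1 with h1 | h1
        · exact hvw (h2.symm.trans h1)
        · exact hvuw (h2.symm.trans h1)
    have h1 := h.comm_of_disj hu hv (z1 := z0) hdis
    have h2 := (h.agree_iff hK (Subgroup.mul_mem _ (hS u hu) (hS v hv))
      (Subgroup.mul_mem _ (hS v hv) (hS u hu))).1 h1 p hp
    rw [mul_smul, mul_smul] at h2
    by_contra hne
    have h3 : u • (v • p) = v • p := by
      by_contra h4
      rcases h.two u hu p (v • p) (h.pres v hv p) hup h4 with h5 | h5
      · exact hvp h5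
      · exact hne h5
    have h4 : v • (u • p) = u • p := by
      by_contra h4
      rcases h.two v hv p (u • p) (h.pres u hu p) hvp h4 with h5 | h5
      · exact hup h5
      · exact hne h5.symm
    rw [h3, h4] at h2
    exact hne h2
  obtain ⟨w4, hw4, hw40, hw41, hw42, -⟩ := exists_ne4 h z0 z0 w (u • w) z0
  obtain ⟨w5, hw5, hw50, hw51, hw52, hw54⟩ := exists_ne4 h z0 z0 w (u • w) w4
  obtain ⟨u4, hu4, hu4z⟩ := h.ex z0 w4 hw4 (Ne.symm hw40)
  obtain ⟨u5, hu5, hu5z⟩ := h.ex z0 w5 hw5 (Ne.symm hw50)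
  have h4 := key u4 hu4 (by rw [hu4z]; exact hw40) (by rw [hu4z]; exact hw41) (by rw [hu4z]; exact hw42)
  have h5 := key u5 hu5 (by rw [hu5z]; exact hw50) (by rw [hu5z]; exact hw51) (by rw [hu5z]; exact hw52)
  have h6 := hag u4 hu4 u5 hu5 p hp (by rw [h4]; exact hup) (by rw [h4, h5])
  rw [hu4z, hu5z] at h6
  exact hw54 h6.symm

/-! ### Independence -/

open Classical in
/-- the elements of the commutator subgroup which are trivial on finitely many blocks -/
theorem Cfg.alt_le_inf (h : Cfg S R) [Fintype Y] (z0 : Y) (J : Finset Y) (hJ : ∀ j ∈ J, ¬ h.K j ≤ h.K z0) :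
    alternatingGroup {z // R z0 z} ≤ (commutator (Subgroup.closure S) ⊓ ⨅ j ∈ J, h.K j).map (h.rho z0) := by
  classical
  have hcomm : (commutator (Subgroup.closure S)).map (h.rho z0) = commutator (Equiv.Perm {z // R z0 z}) := by
    rw [commutator_def, Subgroup.map_commutator, ← MonoidHom.range_eq_map,
      MonoidHom.range_eq_top.2 (h.rho_surj z0), commutator_def]
  induction J using Finset.induction_on with
  | empty =>
    simp only [Finset.notMem_empty, iInf_false, iInf_top, inf_top_eq]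
    rw [hcomm, alternatingGroup.commutator_perm_eq (h.card_blk z0)]
  | insert j J hj ih =>
    have h1 := ih fun i hi => hJ i (Finset.mem_insert_of_mem hi)
    have h2 := h.alt_le (hJ j (Finset.mem_insert_self j J))
    have hn : (commutator (Subgroup.closure S) ⊓ ⨅ i ∈ J, h.K i).Normal := by
      refine Subgroup.normal_inf_normal _ _ (hK := ?_)
      refine Subgroup.normal_iInf_normal fun i => Subgroup.normal_iInf_normal fun _ => inferInstance
    have h3 : ⁅commutator (Subgroup.closure S) ⊓ ⨅ i ∈ J, h.K i, h.K j⁆ ≤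
        commutator (Subgroup.closure S) ⊓ ⨅ i ∈ insert j J, h.K i := by
      refine le_inf ?_ ?_
      · exact (Subgroup.commutator_le_left _ _).trans inf_le_left
      · refine le_iInf fun i => le_iInf fun hi => ?_
        rcases Finset.mem_insert.1 hi with rfl | hi
        · exact Subgroup.commutator_le_right _ _
        · exact (Subgroup.commutator_le_left _ _).trans
            (inf_le_right.trans ((iInf_le _ i).trans (iInf_le _ hi)))
    refine le_trans ?_ (Subgroup.map_mono h3)
    rw [Subgroup.map_commutator]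
    conv_lhs => rw [← commutator_alternatingGroup_eq_self (h.card_blk z0)]
    exact Subgroup.commutator_mono h1 h2

open Classical in
/-- arbitrary even permutations of pairwise independent blocks -/
theorem Cfg.exists_even (h : Cfg S R) [Fintype Y] (I : Finset Y)
    (hI : ∀ i ∈ I, ∀ j ∈ I, i ≠ j → ¬ h.K i ≤ h.K j) (a : ∀ i : Y, Equiv.Perm {z // R i z})
    (ha : ∀ i ∈ I, a i ∈ alternatingGroup {z // R i z}) :
    ∃ u ∈ commutator (Subgroup.closure S), ∀ i ∈ I, h.rho i u = a i := by
  classical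
  induction I using Finset.induction_on with
  | empty => exact ⟨1, Subgroup.one_mem _, fun i hi => absurd hi (Finset.notMem_empty i)⟩
  | insert j I hj ih =>
    obtain ⟨u, hu, hua⟩ := ih (fun i hi k hk => hI i (Finset.mem_insert_of_mem hi) k (Finset.mem_insert_of_mem hk))
      fun i hi => ha i (Finset.mem_insert_of_mem hi)
    have h1 := h.alt_le_inf j I fun i hi => hI i (Finset.mem_insert_of_mem hi) j (Finset.mem_insert_self j I)
      (fun h1 => hj (h1 ▸ hi))
    have h2 : (h.rho j u)⁻¹ * a j ∈ alternatingGroup {z // R j z} := by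
      refine Subgroup.mul_mem _ (Subgroup.inv_mem _ ?_) (ha j (Finset.mem_insert_self j I))
      apply alternatingGroup.commutator_perm_le
      have h4 : h.rho j u ∈ (commutator (Subgroup.closure S)).map (h.rho j) := Subgroup.mem_map_of_mem _ hu
      rw [commutator_def, Subgroup.map_commutator] at h4
      exact Subgroup.commutator_mono le_top le_top h4
    obtain ⟨v, hv, hvj⟩ := h1 h2
    obtain ⟨hv1, hv2⟩ := Subgroup.mem_inf.1 hv
    refine ⟨u * v, Subgroup.mul_mem _ hu hv1, fun i hi => ?_⟩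
    rw [map_mul]
    rcases Finset.mem_insert.1 hi with rfl | hi
    · rw [hvj, mul_inv_cancel_left]
    · have h3 : v ∈ h.K i := by
        have h4 := (Subgroup.mem_iInf.1 hv2) i
        exact (Subgroup.mem_iInf.1 h4) hi
      have h5 : h.rho i v = 1 := h3
      rw [h5, mul_one, hua i hi]

/-- a permutation can be changed by an even permutation to a derangement -/
theorem exists_even_derange {α : Type*} [DecidableEq α] [Fintype α] (hα : 5 ≤ Nat.card α) (σ : Equiv.Perm α) :
    ∃ a ∈ alternatingGroup α, ∀ x, σ (a x) ≠ x := by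
  classical
  rw [Nat.card_eq_fintype_card] at hα
  -- derangements of both signs
  have key : ∀ m : Multiset ℕ, m.sum = Fintype.card α → (∀ i ∈ m, 2 ≤ i) →
      ∃ δ : Equiv.Perm α, (∀ x, δ x ≠ x) ∧ Equiv.Perm.sign δ = (-1) ^ (m.sum + m.card) := by
    intro m hm hm2
    obtain ⟨δ, hδ⟩ := (Equiv.Perm.exists_with_cycleType_iff α).2 ⟨hm.le, hm2⟩
    refine ⟨δ, fun x => ?_, ?_⟩
    · have h1 : δ.support.card = Fintype.card α := by
        rw [← Equiv.Perm.sum_cycleType, hδ, hm]
      have h2 := Finset.eq_univ_of_card _ h1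
      have h3 : x ∈ δ.support := by rw [h2]; exact Finset.mem_univ x
      exact Equiv.Perm.mem_support.1 h3
    · rw [Equiv.Perm.sign_of_cycleType, hδ]
  obtain ⟨δ1, h11, h12⟩ := key {Fintype.card α} (by simp) (by simp; omega)
  obtain ⟨δ2, h21, h22⟩ := key {2, Fintype.card α - 2} (by simp; omega) (by simp; omega)
  have hfin : ∀ δ : Equiv.Perm α, (∀ x, δ x ≠ x) → Equiv.Perm.sign δ = Equiv.Perm.sign σ →
      ∃ a ∈ alternatingGroup α, ∀ x, σ (a x) ≠ x := by
    intro δ hδ hs
    refine ⟨σ⁻¹ * δ, ?_, fun x => ?_⟩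
    · rw [mem_alternatingGroup, map_mul, map_inv, hs, inv_mul_cancel]
    · have h1 : σ ((σ⁻¹ * δ) x) = δ x := by
        rw [← Equiv.Perm.mul_apply, mul_inv_cancel_left]
      rw [h1]
      exact hδ x
  have hne : Equiv.Perm.sign δ1 = - Equiv.Perm.sign δ2 := by
    rw [h12, h22]
    have e1 : ({Fintype.card α} : Multiset ℕ).sum + ({Fintype.card α} : Multiset ℕ).card = Fintype.card α + 1 := by
      simp
    have e2 : ({2, Fintype.card α - 2} : Multiset ℕ).sum + ({2, Fintype.card α - 2} : Multiset ℕ).card =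
        Fintype.card α + 2 := by
      simp
      omega
    rw [e1, e2, pow_succ, pow_succ, pow_succ]
    simp
  rcases Int.units_eq_one_or (Equiv.Perm.sign σ) with h1 | h1
  · rcases Int.units_eq_one_or (Equiv.Perm.sign δ1) with h2 | h2
    · exact hfin δ1 h11 (h2.trans h1.symm)
    · rw [h2] at hne
      exact hfin δ2 h21 (by rw [h1]; exact (neg_injective hne).symm)
  · rcases Int.units_eq_one_or (Equiv.Perm.sign δ1) with h2 | h2
    · rw [h2] at hne
      refine hfin δ2 h21 ?_
      rw [h1, ← neg_eq_iff_eq_neg]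
      exact hne.symm
    · exact hfin δ1 h11 (h2.trans h1.symm)

end perm

/-- **G1** (finite permutation groups) -/
theorem exists_derange {G Y : Type*} [Group G] [MulAction G Y] [Finite Y] (S : Set G)
    (hS : ∀ g : G, ∀ u ∈ S, g * u * g⁻¹ ∈ S) (R : Y → Y → Prop) (hR : Equivalence R)
    (hRG : ∀ (g : G) (z z' : Y), R z z' → R (g • z) (g • z')) (h1 : ∀ u ∈ S, ∀ z : Y, R z (u • z))
    (h2 : ∀ u ∈ S, ∀ z z' : Y, R z z' → u • z ≠ z → u • z' ≠ z' → z' = z ∨ z' = u • z)
    (h3 : ∀ z z' : Y, R z z' → z ≠ z' → ∃ u ∈ S, u • z = z') (h5 : ∀ z : Y, 5 ≤ {z' : Y | R z z'}.ncard)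
    (s : G) : ∃ u ∈ Subgroup.closure S, ∀ z : Y, (s * u) • z ≠ z := by
  classical
  cases nonempty_fintype Y
  have h : Cfg S R := ⟨hS, hR, hRG, h1, h2, h3, h5⟩
  -- representatives of the stable blocks
  obtain ⟨I, hI1, hI2⟩ := Set.exists_subset_bijOn {z : Y | R z (s • z)} h.K
  have hIf : I.Finite := Set.toFinite I
  have hIs : ∀ i ∈ I, R i (s • i) := fun i hi => hI1 hi
  -- the action of `s` on a stable block
  have hst : ∀ i ∈ I, ∀ z, R i z → R i (s • z) := fun i hi z hz => hR.trans (hIs i hi) (hRG s _ _ hz)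
  have hst' : ∀ i ∈ I, ∀ z, R i z → R i (s⁻¹ • z) := fun i hi z hz => by
    have h4 := hRG s⁻¹ _ _ (hIs i hi)
    rw [inv_smul_smul] at h4
    exact hR.trans (hR.symm h4) (hRG s⁻¹ _ _ hz)
  have hσ : ∀ i : Y, ∃ a ∈ alternatingGroup {z // R i z}, i ∈ I → ∀ x : {z // R i z}, s • (a x).1 ≠ x.1 := by
    intro i
    by_cases hi : i ∈ I
    · let σ : Equiv.Perm {z // R i z} :=
        { toFun := fun z => ⟨s • z.1, hst i hi _ z.2⟩
          invFun := fun z => ⟨s⁻¹ • z.1, hst' i hi _ z.2⟩
          left_inv := fun z => Subtype.ext (inv_smul_smul s z.1)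
          right_inv := fun z => Subtype.ext (smul_inv_smul s z.1) }
      obtain ⟨a, ha, hax⟩ := exists_even_derange (h.card_blk i) σ
      exact ⟨a, ha, fun _ x hx => hax x (Subtype.ext hx)⟩
    · exact ⟨1, Subgroup.one_mem _, fun h4 => absurd h4 hi⟩
  choose a ha hax using hσ
  obtain ⟨u, -, hu⟩ := h.exists_even hIf.toFinset (by
    intro i hi j hj hij hle
    rw [Set.Finite.mem_toFinset] at hi hj
    exact hij (hI2.injOn hi hj (le_antisymm hle (h.K_symm hle)))) a fun i _ => ha i
  refine ⟨u, u.2, fun z hz => ?_⟩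
  have hzs : R z (s • z) := by
    have h4 := hRG s _ _ (h.cl_pres u.2 z)
    rw [← mul_smul, hz] at h4
    exact hR.symm h4
  obtain ⟨i, hi, hiz⟩ := hI2.surjOn ⟨z, hzs, rfl⟩
  obtain ⟨z', hz', hth⟩ := h.exists_th hiz.symm
  have h4 : Th S z ((s * u.1) • z') := by
    have := h.Th_smul hth (s * u.1)
    rwa [hz] at this
  have h5' : R i ((s * u.1) • z') := by
    rw [mul_smul]
    exact hst i hi _ (hR.trans hz' (h.cl_pres u.2 z'))
  have h6 := h.Th_eq (hR.trans (hR.symm hz') h5') (hth.symm.trans h4)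
  have h7 := hax i hi ⟨z', hz'⟩
  rw [← hu i (by rw [Set.Finite.mem_toFinset]; exact hi), h.rho_apply, ← mul_smul] at h7
  exact h7 h6.symm

end Pool.Agent.ORB.GP
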