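import Pool.Agent.ORB.TDefs
import Pool.Agent.ORB.GEngine
import Pool.Agent.ORB.GFresh
import Pool.Agent.ORB.GPerm

/-!
ORB, Theorem V3 (odd degrees), row T2: the engine.
-/

set_option autoImplicit false

namespace Pool.Agent.ORB.GP

open Polynomial NI NumberField IsDedekindDomain

universe u

section Lev
variable {F W : Type u} [Field F] [Field W] [Algebra F W]

/-- the stabilizer of `r` -/
abbrev StG (F : Type u) {W : Type u} [Field F] [Field W] [Algebra F W] (r : W) : Subgroup (W ≃ₐ[F] W) :=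
  MulAction.stabilizer (W ≃ₐ[F] W) r

theorem lev_aut (h : F[X]) {r : W} (g : W ≃ₐ[F] W) (hg : g r = r) (k : ℕ) (z : W) (hz : (ev h)^[k] z = r) :
    (ev h)^[k] (g z) = r := by
  rw [← evW_aut, hz, hg]

/-- the level `n` above `r` -/
abbrev Lv (h : F[X]) (r : W) (n : ℕ) : Type u := {z : W // (ev h)^[n] z = r}

instance (h : F[X]) (r : W) (n : ℕ) : MulAction (StG F r) (Lv h r n) where
  smul g z := ⟨(g : W ≃ₐ[F] W) z.1, lev_aut h g.1 g.2 n z.1 z.2⟩
  one_smul _ := Subtype.ext rfl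
  mul_smul _ _ _ := Subtype.ext rfl

theorem Lv.smul_val (h : F[X]) (r : W) (n : ℕ) (g : StG F r) (z : Lv h r n) :
    ((g • z : Lv h r n) : W) = (g : W ≃ₐ[F] W) (z : W) := rfl

theorem Lv.finite (h : F[X]) (hd : 1 ≤ h.natDegree) (r : W) (n : ℕ) : Finite (Lv h r n) :=
  (fibre_finite' h hd n r).to_subtype

/-- the map from the level `n + 1` to the level `n` -/
noncomputable def Lv.down (h : F[X]) (r : W) (n : ℕ) (z : Lv h r (n + 1)) : Lv h r n :=
  ⟨ev h z.1, by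
    rw [← Function.iterate_succ_apply]
    exact z.2⟩

theorem ev_aut (h : F[X]) (g : W ≃ₐ[F] W) (z : W) : g (ev h z) = ev h (g z) := evW_aut h g z 1

theorem ev_surj [IsAlgClosed W] (h : F[X]) (hd : 1 ≤ h.natDegree) (y : W) : ∃ z : W, ev h z = y := by
  have h1 : (h.map (algebraMap F W) - C y).degree ≠ 0 := by
    have h2 : (h.map (algebraMap F W) - C y).natDegree = h.natDegree := by
      rw [natDegree_sub_C, natDegree_map]
    intro h3
    have h4 := natDegree_eq_of_degree_eq_some (n := 0) h3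
    omega
  obtain ⟨z, hz⟩ := IsAlgClosed.exists_root _ h1
  refine ⟨z, ?_⟩
  rw [IsRoot, eval_sub, eval_C, eval_map_algebraMap, sub_eq_zero] at hz
  exact hz

theorem ev_iterate_surj [IsAlgClosed W] (h : F[X]) (hd : 1 ≤ h.natDegree) (n : ℕ) (y : W) :
    ∃ z : W, (ev h)^[n] z = y := by
  induction n generalizing y with
  | zero => exact ⟨y, rfl⟩
  | succ n ih =>
    obtain ⟨x, hx⟩ := ih y
    obtain ⟨z, hz⟩ := ev_surj h hd x
    exact ⟨z, by rw [Function.iterate_succ_apply, hz, hx]⟩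

/-- the classes of the swaps: the part of `engine_of` which does not depend on the size of the classes -/
theorem swap_classes [IsAlgClosed W] [Algebra.IsAlgebraic F W] (h : F[X]) (hd : 2 ≤ h.natDegree) (r : W)
    (hav : ∀ c : W, Crit h c → ∀ n, (ev h)^[n] c ≠ r)
    (htr : ∀ (l : ℕ) (y y' : W), (ev h)^[l] y = r → (ev h)^[l] y' = r → ∃ g : W ≃ₐ[F] W, g r = r ∧ g y = y')
    (T' : Set W) (hstab : ∀ (g : W ≃ₐ[F] W), ∀ t ∈ T', g t ∈ T') (A : W ≃ₐ[F] W) (l : ℕ)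
    (hAT : ∀ t ∈ T', A t = t) (hAr : A r = r) (hAk : ∀ k, k ≤ l → ∀ z : W, (ev h)^[k] z = r → A z = z)
    (hAz : ∃ z : W, (ev h)^[l + 1] z = r ∧ A z ≠ z)
    (hAs : ∀ z z' : W, (ev h)^[l + 1] z = r → ev h z = ev h z' → A z ≠ z → A z' ≠ z' → z' = z ∨ z' = A z) :
    ∃ (S : Set (StG F r)) (R : Lv h r (l + 1) → Lv h r (l + 1) → Prop) (m : ℕ),
      (∀ u ∈ S, (∀ t ∈ T', (u : W ≃ₐ[F] W) t = t) ∧
        ∀ k, k ≤ l → ∀ z : W, (ev h)^[k] z = r → (u : W ≃ₐ[F] W) z = z) ∧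
      (∀ g : StG F r, ∀ u ∈ S, g * u * g⁻¹ ∈ S) ∧ Equivalence R ∧
      (∀ (g : StG F r) (z z' : Lv h r (l + 1)), R z z' → R (g • z) (g • z')) ∧
      (∀ u ∈ S, ∀ z : Lv h r (l + 1), R z (u • z)) ∧
      (∀ u ∈ S, ∀ z z' : Lv h r (l + 1), R z z' → u • z ≠ z → u • z' ≠ z' → z' = z ∨ z' = u • z) ∧
      (∀ z z' : Lv h r (l + 1), R z z' → z ≠ z' → ∃ u ∈ S, u • z = z') ∧
      (∀ z : Lv h r (l + 1), {z' : Lv h r (l + 1) | R z z'}.ncard = m) ∧ m ∣ h.natDegree ∧ 2 ≤ m := by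
  classical
  have hd1 : 1 ≤ h.natDegree := by omega
  obtain ⟨z₀, hz₀, hz₀A⟩ := hAz
  have hG : ∀ g : StG F r, (g : W ≃ₐ[F] W) r = r := fun g => g.2
  have hYf : Finite (Lv h r (l + 1)) := Lv.finite h hd1 r (l + 1)
  have hlev : ∀ (g : W ≃ₐ[F] W), g r = r → ∀ (k : ℕ) (z : W), (ev h)^[k] z = r → (ev h)^[k] (g z) = r :=
    fun g hg k z hz => lev_aut h g hg k z hz
  have hsmul : ∀ (g : StG F r) (z : Lv h r (l + 1)), ((g • z : Lv h r (l + 1)) : W) = (g : W ≃ₐ[F] W) (z : W) :=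
    fun _ _ => rfl
  have hinv : ∀ (g : W ≃ₐ[F] W) (x : W), g (g⁻¹ x) = x := fun g x => g.apply_symm_apply x
  have hinv' : ∀ (g : W ≃ₐ[F] W) (x : W), g⁻¹ (g x) = x := fun g x => g.symm_apply_apply x
  -- the swaps
  let S : Set (StG F r) := {u | (∀ t ∈ T', (u : W ≃ₐ[F] W) t = t) ∧
    (∀ k, k ≤ l → ∀ z : W, (ev h)^[k] z = r → (u : W ≃ₐ[F] W) z = z) ∧
    ∀ z z' : W, (ev h)^[l + 1] z = r → ev h z = ev h z' → (u : W ≃ₐ[F] W) z ≠ z → (u : W ≃ₐ[F] W) z' ≠ z' →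
      z' = z ∨ z' = (u : W ≃ₐ[F] W) z}
  have hev : ∀ (g : W ≃ₐ[F] W) (z : W), g (ev h z) = ev h (g z) := fun g z => evW_aut h g z 1
  have hSconj : ∀ g : StG F r, ∀ u ∈ S, g * u * g⁻¹ ∈ S := by
    rintro g u ⟨h1, h2, h3⟩
    have happ : ∀ x : W, ((g * u * g⁻¹ : StG F r) : W ≃ₐ[F] W) x =
        (g : W ≃ₐ[F] W) ((u : W ≃ₐ[F] W) ((g : W ≃ₐ[F] W)⁻¹ x)) := fun x => rfl
    have hgi : (g : W ≃ₐ[F] W)⁻¹ r = r := by
      have := hinv' (g : W ≃ₐ[F] W) r
      rwa [hG g] at this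
    refine ⟨fun t ht => ?_, fun k hk z hz => ?_, fun z z' hz hzz hz1 hz2 => ?_⟩
    · rw [happ, h1 _ (hstab _ t ht), hinv]
    · rw [happ, h2 k hk _ (hlev _ hgi k z hz), hinv]
    · rw [happ] at hz1 hz2 ⊢
      have e1 : (u : W ≃ₐ[F] W) ((g : W ≃ₐ[F] W)⁻¹ z) ≠ (g : W ≃ₐ[F] W)⁻¹ z := by
        intro he
        rw [he, hinv] at hz1
        exact hz1 rfl
      have e2 : (u : W ≃ₐ[F] W) ((g : W ≃ₐ[F] W)⁻¹ z') ≠ (g : W ≃ₐ[F] W)⁻¹ z' := by
        intro he
        rw [he, hinv] at hz2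
        exact hz2 rfl
      rcases h3 _ _ (hlev _ hgi (l + 1) z hz) (by rw [← hev, ← hev, hzz]) e1 e2 with e | e
      · left
        have := congrArg (g : W ≃ₐ[F] W) e
        rwa [hinv, hinv] at this
      · right
        have := congrArg (g : W ≃ₐ[F] W) e
        rwa [hinv] at this
  -- basic facts on the swaps
  have hSh : ∀ u ∈ S, ∀ z : W, (ev h)^[l + 1] z = r → ev h ((u : W ≃ₐ[F] W) z) = ev h z := by
    rintro u ⟨-, h2, -⟩ z hz
    rw [← hev]
    refine h2 l le_rfl _ ?_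
    rw [← Function.iterate_succ_apply]
    exact hz
  have hSS : ∀ u ∈ S, ∀ z : W, (ev h)^[l + 1] z = r → (u : W ≃ₐ[F] W) z ≠ z →
      (u : W ≃ₐ[F] W) ((u : W ≃ₐ[F] W) z) = z := by
    intro u hu z hz hne
    have h1 : (u : W ≃ₐ[F] W) ((u : W ≃ₐ[F] W) z) ≠ (u : W ≃ₐ[F] W) z := fun he =>
      hne ((u : W ≃ₐ[F] W).injective he)
    rcases hu.2.2 _ z (hlev _ (hG u) (l + 1) z hz) (hSh u hu z hz) h1 hne with e | e
    · exact absurd e.symm hne
    · exact e.symm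
  -- the equivalence
  let R : Lv h r (l + 1) → Lv h r (l + 1) → Prop := fun z z' => z = z' ∨ ∃ u ∈ S, u • z = z'
  have hRval : ∀ z z' : Lv h r (l + 1), R z z' → ev h z.1 = ev h z'.1 := by
    rintro z z' (rfl | ⟨u, hu, rfl⟩)
    · rfl
    · exact (hSh u hu z.1 z.2).symm
  have hR : Equivalence R := by
    refine ⟨fun z => Or.inl rfl, ?_, ?_⟩
    · rintro z z' (rfl | ⟨u, hu, rfl⟩)
      · exact Or.inl rfl
      · by_cases hne : (u : W ≃ₐ[F] W) z.1 = z.1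
        · left
          exact Subtype.ext hne
        · right
          exact ⟨u, hu, Subtype.ext (hSS u hu z.1 z.2 hne)⟩
    · rintro z z' z'' (rfl | ⟨u, hu, rfl⟩) (rfl | ⟨u', hu', rfl⟩)
      · exact Or.inl rfl
      · exact Or.inr ⟨u', hu', rfl⟩
      · exact Or.inr ⟨u, hu, rfl⟩
      · by_cases e1 : (u : W ≃ₐ[F] W) z.1 = z.1
        · right
          exact ⟨u', hu', Subtype.ext (by rw [hsmul, hsmul, hsmul, e1])⟩
        by_cases e2 : (u' : W ≃ₐ[F] W) ((u : W ≃ₐ[F] W) z.1) = (u : W ≃ₐ[F] W) z.1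
        · right
          exact ⟨u, hu, Subtype.ext (by rw [hsmul, hsmul, hsmul, e2])⟩
        by_cases e3 : (u' : W ≃ₐ[F] W) ((u : W ≃ₐ[F] W) z.1) = z.1
        · left
          exact Subtype.ext (by rw [hsmul, hsmul, e3])
        -- three different points
        right
        set a := (z : W) with ha
        set b := (u : W ≃ₐ[F] W) a with hb
        set c := (u' : W ≃ₐ[F] W) b with hc
        have hbY : (ev h)^[l + 1] b = r := hlev _ (hG u) (l + 1) a z.2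
        have hcY : (ev h)^[l + 1] c = r := hlev _ (hG u') (l + 1) b hbY
        have hub : (u : W ≃ₐ[F] W) b = a := hSS u hu a z.2 e1
        have huc : (u : W ≃ₐ[F] W) c = c := by
          by_contra hne
          have h1 : ev h a = ev h c := by
            rw [hc, hSh u' hu' b hbY, hb, hSh u hu a z.2]
          rcases hu.2.2 a c z.2 h1 e1 hne with e | e
          · exact e3 e
          · exact e2 e
        refine ⟨u⁻¹ * u' * (u⁻¹)⁻¹, hSconj u⁻¹ u' hu', Subtype.ext ?_⟩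
        rw [hsmul, hsmul, hsmul]
        show (u : W ≃ₐ[F] W)⁻¹ ((u' : W ≃ₐ[F] W) (((u : W ≃ₐ[F] W)⁻¹)⁻¹ a)) = c
        rw [inv_inv, ← hb, ← hc]
        conv_lhs => rw [← huc]
        exact hinv' _ _
  have hRG : ∀ (g : StG F r) (z z' : Lv h r (l + 1)), R z z' → R (g • z) (g • z') := by
    rintro g z z' (rfl | ⟨u, hu, rfl⟩)
    · exact Or.inl rfl
    · right
      refine ⟨g * u * g⁻¹, hSconj g u hu, ?_⟩
      rw [smul_smul, inv_mul_cancel_right, mul_smul]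
  -- the size of the classes
  have hcls : ∀ z z' : Lv h r (l + 1), {x | R z x}.ncard = {x | R z' x}.ncard := by
    intro z z'
    obtain ⟨g, hg1, hg2⟩ := htr (l + 1) z.1 z'.1 z.2 z'.2
    let g' : StG F r := ⟨g, hg1⟩
    have hgz : g' • z = z' := Subtype.ext hg2
    have himg : {x | R z' x} = (fun x => g' • x) '' {x | R z x} := by
      ext x
      constructor
      · intro hx
        refine ⟨g'⁻¹ • x, ?_, smul_inv_smul g' x⟩
        have h1 := hRG g'⁻¹ z' x hx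
        rw [← hgz, inv_smul_smul] at h1
        exact h1
      · rintro ⟨y, hy, rfl⟩
        have h1 := hRG g' z y hy
        rwa [hgz] at h1
    rw [himg, Set.ncard_image_of_injective _ (MulAction.injective g')]
  have hdvd : ∀ z : Lv h r (l + 1), {x | R z x}.ncard ∣ h.natDegree := by
    intro z
    set X : Set (Lv h r (l + 1)) := {x | ev h x.1 = ev h z.1} with hX
    have hXc : Nat.card X = h.natDegree := by
      have h1 : ∀ c : W, Crit h c → ev h c ≠ ev h z.1 := by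
        intro c hc he
        apply hav c hc (l + 1)
        rw [Function.iterate_succ_apply, he, ← Function.iterate_succ_apply]
        exact z.2
      rw [← ncard_fibre h hd1 (ev h z.1) h1, Nat.card_coe_set_eq]
      have himg : {w : W | ev h w = ev h z.1} = Subtype.val '' X := by
        ext w
        constructor
        · intro hw
          refine ⟨⟨w, ?_⟩, hw, rfl⟩
          rw [Function.iterate_succ_apply, show ev h w = ev h z.1 from hw, ← Function.iterate_succ_apply]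
          exact z.2
        · rintro ⟨x, hx, rfl⟩
          exact hx
      rw [himg, Set.ncard_image_of_injective _ Subtype.val_injective]
    rw [← hXc]
    refine dvd_of_classes (fun x y : X => R x.1 y.1) ⟨fun x => hR.refl x.1, fun h => hR.symm h,
      fun h h' => hR.trans h h'⟩ _ fun x => ?_
    rw [hcls z x.1]
    have himg : {y : Lv h r (l + 1) | R x.1 y} = Subtype.val '' {y : X | R x.1 y.1} := by
      ext y
      constructor
      · intro hy
        exact ⟨⟨y, by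
          rw [hX, Set.mem_ofPred_eq, ← hRval _ _ hy]
          exact x.2⟩, hy, rfl⟩
      · rintro ⟨y, hy, rfl⟩
        exact hy
    rw [himg, Set.ncard_image_of_injective _ Subtype.val_injective]
  have hAG : A ∈ StG F r := hAr
  have hAS : (⟨A, hAG⟩ : StG F r) ∈ S := ⟨hAT, hAk, hAs⟩
  have htwo : ∀ z : Lv h r (l + 1), 2 ≤ {x | R z x}.ncard := by
    intro z
    rw [hcls z ⟨z₀, hz₀⟩]
    have hsub : ({⟨z₀, hz₀⟩, (⟨A, hAG⟩ : StG F r) • (⟨z₀, hz₀⟩ : Lv h r (l + 1))} : Set (Lv h r (l + 1))) ⊆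
        {x | R ⟨z₀, hz₀⟩ x} := by
      rintro x (rfl | hx)
      · exact Or.inl rfl
      · exact Or.inr ⟨_, hAS, (Set.mem_singleton_iff.1 hx).symm⟩
    refine le_trans ?_ (Set.ncard_le_ncard hsub (Set.toFinite _))
    rw [Set.ncard_pair]
    intro he
    exact hz₀A (congrArg Subtype.val he).symm
  refine ⟨S, R, {x | R ⟨z₀, hz₀⟩ x}.ncard, fun u hu => ⟨hu.1, hu.2.1⟩, hSconj, hR, hRG,
    fun u hu z => Or.inr ⟨u, hu, rfl⟩, fun u hu z z' hzz h1 h2 => ?_, fun z z' hzz hne => hzz.resolve_left hne,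
    fun z => hcls z _, hdvd _, htwo _⟩
  have e1 : (u : W ≃ₐ[F] W) z.1 ≠ z.1 := fun he => h1 (Subtype.ext he)
  have e2 : (u : W ≃ₐ[F] W) z'.1 ≠ z'.1 := fun he => h2 (Subtype.ext he)
  rcases hu.2.2 z.1 z'.1 z.2 (hRval _ _ hzz) e1 e2 with e | e
  · exact Or.inl (Subtype.ext e)
  · exact Or.inr (Subtype.ext e)

end Lev

/-- the statement of row T1a -/
def LeStat : Prop := ∀ {G Y Y' : Type u} [Group G] [MulAction G Y] [MulAction G Y'] [Finite Y] [Finite Y']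
    (π : Y → Y') (_ : ∀ (g : G) (z : Y), π (g • z) = g • π z) (_ : Function.Surjective π) (K : Subgroup G)
    (_ : ∀ u ∈ K, ∀ y : Y', u • y = y) (_ : ∀ z z' : Y, π z = π z' → ∃ u ∈ K, u • z = z') (s : G),
    ∃ u ∈ K, {z : Y | (s * u) • z = z}.ncard ≤ {y : Y' | s • y = y}.ncard

/-- the statement of row T1b -/
def LtStat : Prop := ∀ {G Y Y' : Type u} [Group G] [MulAction G Y] [MulAction G Y'] [Finite Y] [Finite Y']
    (π : Y → Y') (_ : ∀ (g : G) (z : Y), π (g • z) = g • π z) (_ : Function.Surjective π) (K : Subgroup G)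
    (_ : ∀ u ∈ K, ∀ y : Y', u • y = y) (_ : ∀ z z' : Y, π z = π z' → ∃ u ∈ K, u • z = z') (S : Set G)
    (_ : ∀ u ∈ S, u ∈ K) (_ : ∀ g : G, ∀ u ∈ S, g * u * g⁻¹ ∈ S) (R : Y → Y → Prop) (_ : Equivalence R)
    (_ : ∀ (g : G) (z z' : Y), R z z' → R (g • z) (g • z')) (_ : ∀ u ∈ S, ∀ z : Y, R z (u • z))
    (_ : ∀ u ∈ S, ∀ z z' : Y, R z z' → u • z ≠ z → u • z' ≠ z' → z' = z ∨ z' = u • z)
    (_ : ∀ z z' : Y, R z z' → z ≠ z' → ∃ u ∈ S, u • z = z') (_ : ∀ z : Y, {z' : Y | R z z'}.ncard = 3) (s : G)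
    (_ : ∃ y : Y', s • y = y), ∃ u ∈ K, {z : Y | (s * u) • z = z}.ncard < {y : Y' | s • y = y}.ncard

theorem three_or_five_le {m d : ℕ} (hm : m ∣ d) (h2 : 2 ≤ m) (hd : Odd d) : m = 3 ∨ 5 ≤ m := by
  by_contra hlt
  push Not at hlt
  have hodd : Odd m := Odd.of_dvd_nat hd hm
  have hm4 : m = 2 ∨ m = 4 := by omega
  rcases hm4 with rfl | rfl <;> revert hodd <;> decide

/-- **T2** (engine for odd degrees), with T1a and T1b as hypotheses -/
theorem engine_odd_of (hle : LeStat.{u}) (hlt : LtStat.{u})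
    {F W : Type u} [Field F] [NumberField F] [Field W] [Algebra F W] [IsAlgClosed W]
    [Algebra.IsAlgebraic F W] (h : F[X]) (hd : 2 ≤ h.natDegree) (hodd : Odd h.natDegree) (hc : CritCond h W) (r : W)
    (hr : ∀ n, 1 ≤ n → (ev h)^[n] r ≠ r) (hav : ∀ c : W, Crit h c → ∀ n, (ev h)^[n] c ≠ r)
    (htr : ∀ (l : ℕ) (y y' : W), (ev h)^[l] y = r → (ev h)^[l] y' = r → ∃ g : W ≃ₐ[F] W, g r = r ∧ g y = y')
    (hFT : FT h r) (T : Set W) (hT : T.Finite) (s₀ : W ≃ₐ[F] W) (hs₀ : s₀ r = r) :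
    ∃ (N : ℕ) (s : W ≃ₐ[F] W), (∀ t ∈ T, s t = s₀ t) ∧ ∀ z : W, (ev h)^[N] z = r → s z ≠ z := by
  classical
  have hd1 : 1 ≤ h.natDegree := by omega
  obtain ⟨T', hT', hTT', hstab⟩ := exists_stable (F := F) T hT
  obtain ⟨m₀, hm₀⟩ := hFT T' hT'
  have hinv' : ∀ (g : W ≃ₐ[F] W) (x : W), g⁻¹ (g x) = x := fun g x => g.symm_apply_apply x
  -- the group which fixes `T'` and the levels `≤ i`
  let K : ℕ → Subgroup (StG F r) := fun i =>
    { carrier := {u | (∀ t ∈ T', (u : W ≃ₐ[F] W) t = t) ∧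
        ∀ k, k ≤ i → ∀ z : W, (ev h)^[k] z = r → (u : W ≃ₐ[F] W) z = z}
      mul_mem' := by
        rintro a b ⟨ha1, ha2⟩ ⟨hb1, hb2⟩
        refine ⟨fun t ht => ?_, fun k hk z hz => ?_⟩
        · show (a : W ≃ₐ[F] W) ((b : W ≃ₐ[F] W) t) = t
          rw [hb1 t ht, ha1 t ht]
        · show (a : W ≃ₐ[F] W) ((b : W ≃ₐ[F] W) z) = z
          rw [hb2 k hk z hz, ha2 k hk z hz]
      one_mem' := ⟨fun _ _ => rfl, fun _ _ _ _ => rfl⟩
      inv_mem' := by
        rintro a ⟨ha1, ha2⟩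
        refine ⟨fun t ht => ?_, fun k hk z hz => ?_⟩
        · show (a : W ≃ₐ[F] W)⁻¹ t = t
          conv_lhs => rw [← ha1 t ht]
          exact hinv' _ _
        · show (a : W ≃ₐ[F] W)⁻¹ z = z
          conv_lhs => rw [← ha2 k hk z hz]
          exact hinv' _ _ }
  have hKfix : ∀ i, ∀ u ∈ K i, ∀ y : Lv h r i, u • y = y := fun i u hu y =>
    Subtype.ext (hu.2 i le_rfl y.1 y.2)
  have hKt : ∀ i, m₀ ≤ i → ∀ z z' : Lv h r (i + 1), Lv.down h r i z = Lv.down h r i z' → ∃ u ∈ K i, u • z = z' := by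
    intro i hi z z' hzz
    obtain ⟨g, hg1, hg2, hg3, hg4⟩ := hm₀ i hi z.1 z'.1 z.2 (congrArg Subtype.val hzz)
    exact ⟨⟨g, hg2⟩, ⟨hg1, hg3⟩, Subtype.ext hg4⟩
  have hdown : ∀ i (g : StG F r) (z : Lv h r (i + 1)), Lv.down h r i (g • z) = g • Lv.down h r i z :=
    fun i g z => Subtype.ext (ev_aut h g.1 z.1).symm
  have hsurj : ∀ i, Function.Surjective (Lv.down h r i) := by
    intro i y
    obtain ⟨z, hz⟩ := ev_surj h hd1 y.1
    refine ⟨⟨z, ?_⟩, Subtype.ext hz⟩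
    rw [Function.iterate_succ_apply, hz]
    exact y.2
  have hfin : ∀ i, Finite (Lv h r i) := fun i => Lv.finite h hd1 r i
  -- the number of fixed points
  let X : ℕ → StG F r → ℕ := fun n s => {z : Lv h r n | s • z = z}.ncard
  let P : StG F r → Prop := fun s => ∀ t ∈ T', (s : W ≃ₐ[F] W) t = s₀ t
  have hPmul : ∀ s : StG F r, P s → ∀ i, ∀ u ∈ K i, P (s * u) := by
    intro s hs i u hu t ht
    show (s : W ≃ₐ[F] W) ((u : W ≃ₐ[F] W) t) = s₀ t
    rw [hu.1 t ht, hs t ht]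
  have hex : ∃ x : ℕ, ∃ n, m₀ ≤ n ∧ ∃ s : StG F r, P s ∧ X n s = x :=
    ⟨_, m₀, le_rfl, ⟨s₀, hs₀⟩, fun _ _ => rfl, rfl⟩
  obtain ⟨n, hn, s, hs, hXs⟩ := Nat.find_spec hex
  have hmin : ∀ n, m₀ ≤ n → ∀ s : StG F r, P s → Nat.find hex ≤ X n s := fun n hn s hs =>
    Nat.find_min' hex ⟨n, hn, s, hs, rfl⟩
  rcases Nat.eq_zero_or_pos (Nat.find hex) with h0 | hpos
  · -- no fixed points
    rw [h0] at hXs
    have h1 : {z : Lv h r n | s • z = z} = ∅ := (Set.ncard_eq_zero (Set.toFinite _)).1 hXs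
    refine ⟨n, s, fun t ht => hs t (hTT' ht), fun z hz hfix => ?_⟩
    have h2 : (⟨z, hz⟩ : Lv h r n) ∈ {z : Lv h r n | s • z = z} := Subtype.ext hfix
    rw [h1] at h2
    exact h2
  -- a fresh swap
  obtain ⟨A, l, hAT, hAr, hAk, hAz, hAs⟩ := fresh_swap h hd hodd hc r hr hav (T' ∪ {z : W | (ev h)^[n] z = r})
    (hT'.union (fibre_finite' h hd1 n r))
  have hnl : n ≤ l := by
    by_contra hlt
    push Not at hlt
    obtain ⟨z, hz, hzA⟩ := hAz
    obtain ⟨x, hx⟩ := ev_iterate_surj h hd1 (n - (l + 1)) z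
    apply hzA
    have h1 : (ev h)^[n] x = r := by
      have h2 : n = (l + 1) + (n - (l + 1)) := by omega
      rw [h2, Function.iterate_add_apply, hx]
      exact hz
    have h3 : A x = x := hAT x (Or.inr h1)
    rw [← hx, evW_aut, h3]
  -- descend to the level `l`
  have hstep : ∀ i, n ≤ i → ∃ s₁ : StG F r, P s₁ ∧ X i s₁ ≤ Nat.find hex := by
    intro i hi
    induction i, hi using Nat.le_induction with
    | base => exact ⟨s, hs, hXs.le⟩
    | succ i hi ih =>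
      obtain ⟨s₁, hs₁, hX₁⟩ := ih
      obtain ⟨u, hu, hX₂⟩ := hle (Lv.down h r i) (hdown i) (hsurj i) (K i) (hKfix i) (hKt i (hn.trans hi)) s₁
      exact ⟨s₁ * u, hPmul s₁ hs₁ i u hu, hX₂.trans hX₁⟩
  obtain ⟨s₁, hs₁, hX₁⟩ := hstep l hnl
  have hfixed : ∃ y : Lv h r l, s₁ • y = y := by
    have h1 : 0 < X l s₁ := lt_of_lt_of_le hpos (hmin l (hn.trans hnl) s₁ hs₁)
    exact (Set.ncard_pos (Set.toFinite _)).1 h1
  obtain ⟨S, R, m, hS1, hS2, hR, hRG, h1, h2, h3, h4, hmd, hm2⟩ := swap_classes h hd r hav htr T' hstab A l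
    (fun t ht => hAT t (Or.inl ht)) hAr hAk hAz hAs
  rcases three_or_five_le hmd hm2 hodd with rfl | hm5
  · -- classes of three points: the number of fixed points decreases
    exfalso
    obtain ⟨u, hu, hX₂⟩ := hlt (Lv.down h r l) (hdown l) (hsurj l) (K l) (hKfix l) (hKt l (hn.trans hnl)) S
      (fun u hu => hS1 u hu) hS2 R hR hRG h1 h2 h3 h4 s₁ hfixed
    have h5 := hmin (l + 1) (by omega) (s₁ * u) (hPmul s₁ hs₁ l u hu)
    have h6 : X (l + 1) (s₁ * u) < X l s₁ := hX₂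
    omega
  · -- larger classes: there is an automorphism without fixed points
    obtain ⟨u, hu, hmove⟩ := exists_derange (G := StG F r) (Y := Lv h r (l + 1)) S hS2 R hR hRG h1 h2 h3
      (fun z => by rw [h4]; exact hm5) s₁
    have huK : u ∈ K l := by
      have hle' : Subgroup.closure S ≤ K l := (Subgroup.closure_le _).2 fun u hu => hS1 u hu
      exact hle' hu
    refine ⟨l + 1, ((s₁ * u : StG F r) : W ≃ₐ[F] W), fun t ht => hPmul s₁ hs₁ l u huK t (hTT' ht),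
      fun z hz hfix => ?_⟩
    exact hmove ⟨z, hz⟩ (Subtype.ext hfix)

end Pool.Agent.ORB.GP
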