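import Pool.Agent.ORB.YPer
import Pool.Agent.ORB.GFresh
import Pool.Agent.ORB.GEngine
import Pool.Agent.ORB.TEngine

/-!
ORB, Theorem W, row Y15: the transfer from the completion and the transitivity on the fibres.
-/

set_option autoImplicit false

namespace Pool.Agent.ORB.WP

open Polynomial NI GP NumberField IsDedekindDomain IntermediateField

universe u

section transfer

variable {F Fq W Ω : Type*} [Field F] [Field Fq] [Field W] [Field Ω] [Algebra F Fq] [Algebra Fq Ω] [Algebra F W]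
  [Algebra W Ω] [Algebra F Ω] [IsScalarTower F Fq Ω] [IsScalarTower F W Ω]

theorem ev_tr (h : F[X]) (n : ℕ) (z : W) :
    (ev (h.map (algebraMap F Fq)))^[n] (algebraMap W Ω z) = algebraMap W Ω ((ev h)^[n] z) := by
  induction n with
  | zero => rfl
  | succ n ih =>
    rw [Function.iterate_succ_apply', Function.iterate_succ_apply', ih]
    unfold ev
    rw [aeval_map_algebraMap, aeval_algebraMap_apply]

/-- the points of the tree over `Ω` come from `W` -/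
theorem exists_tr [IsAlgClosed W] (h : F[X]) (hd : 1 ≤ h.natDegree) (n : ℕ) (y : W) (z' : Ω)
    (hz : (ev (h.map (algebraMap F Fq)))^[n] z' = algebraMap W Ω y) :
    ∃ z : W, algebraMap W Ω z = z' ∧ (ev h)^[n] z = y := by
  induction n generalizing z' with
  | zero => exact ⟨y, hz.symm, rfl⟩
  | succ n ih =>
    rw [Function.iterate_succ_apply] at hz
    obtain ⟨w, hw1, hw2⟩ := ih _ hz
    set g : W[X] := h.map (algebraMap F W) - C w with hg
    have hgd : g.natDegree = h.natDegree := by rw [hg, natDegree_sub_C, natDegree_map]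
    have hg0 : g ≠ 0 := by
      intro h0
      rw [h0, natDegree_zero] at hgd
      omega
    have h1 : z' ∈ (g.map (algebraMap W Ω)).roots := by
      rw [mem_roots ((Polynomial.map_ne_zero_iff (algebraMap W Ω).injective).2 hg0), IsRoot, hg, Polynomial.map_sub,
        map_C, eval_sub, eval_C, hw1, Polynomial.map_map, ← IsScalarTower.algebraMap_eq, sub_eq_zero,
        eval_map_algebraMap]
      unfold ev
      rw [aeval_map_algebraMap]
    rw [(IsAlgClosed.splits g).roots_map, Multiset.mem_map] at h1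
    obtain ⟨z, -, hz2⟩ := h1
    refine ⟨z, hz2, ?_⟩
    rw [Function.iterate_succ_apply]
    have h3 : ev h z = w := by
      apply (algebraMap W Ω).injective
      have h4 := ev_tr (Fq := Fq) (Ω := Ω) h 1 z
      rw [Function.iterate_one, Function.iterate_one, hz2, ← hw1] at h4
      exact h4.symm
    rw [h3, hw2]

end transfer

/-- **Y15a**, with the local theorem Y13 as hypothesis -/
theorem wild_move_of
    (HL : ∀ (F Ω : Type u) [Field F] [Field Ω] [Algebra F Ω] [CharZero F] [IsAlgClosed Ω] [Algebra.IsAlgebraic F Ω]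
      (D : LocAbs F Ω) (h : F[X]) (_ : WildL D h) (b : F) (e : ℕ → F) (_ : Ref D h b e),
      ∃ k₂ : ℕ, ∀ k, k₂ ≤ k → ∀ r ∈ Node Ω h b k, ∀ T : Set Ω, T.Finite → ∃ m₀ : ℕ, ∀ m, m₀ ≤ m →
        ∃ A : Ω ≃ₐ[F] Ω, (∀ t ∈ T, A t = t) ∧ A r = r ∧ (∀ k, k ≤ m → ∀ x : Ω, (ev h)^[k] x = r → A x = x) ∧
          ∃ z : Ω, (ev h)^[m + 1] z = r ∧ A z ≠ z)
    {F W : Type u} [Field F] [NumberField F] [Field W] [Algebra F W] [IsAlgClosed W]
    [Algebra.IsAlgebraic F W] (h : F[X]) (hw : WildT h) (b : F)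
    (hb : ∀ n, 1 ≤ n → (fun x => eval x h)^[n] b ≠ b) :
    ∃ k₂ : ℕ, ∀ k, k₂ ≤ k → ∀ r ∈ Node W h b k, ∀ T : Set W, T.Finite → ∃ m₀ : ℕ, ∀ m, m₀ ≤ m →
      ∃ A : W ≃ₐ[F] W, (∀ t ∈ T, A t = t) ∧ A r = r ∧ (∀ k, k ≤ m → ∀ x : W, (ev h)^[k] x = r → A x = x) ∧
        ∃ z : W, (ev h)^[m + 1] z = r ∧ A z ≠ z := by
  obtain ⟨hp, hodd, v, hpv, hg, hl, hm⟩ := hw
  obtain ⟨Fq, Ω, _, _, _, _, _, _, _, D, hD⟩ := exists_locAbs v
  let algFΩ : Algebra F Ω := ((algebraMap Fq Ω).comp (algebraMap F Fq)).toAlgebra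
  have t1 : IsScalarTower F Fq Ω := IsScalarTower.of_algebraMap_eq (fun x => rfl)
  let ψ : W →ₐ[F] Ω := IsAlgClosed.lift
  let algWΩ : Algebra W Ω := ψ.toRingHom.toAlgebra
  have t2 : IsScalarTower F W Ω := IsScalarTower.of_algebraMap_eq (fun x => (ψ.commutes x).symm)
  have hnm : Normal F W := normal_iff.2 fun x => ⟨Algebra.IsIntegral.isIntegral x, IsAlgClosed.splits _⟩
  have hinj : Function.Injective (algebraMap W Ω) := (algebraMap W Ω).injective
  set h' : Fq[X] := h.map (algebraMap F Fq) with hh'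
  have hdeg : h'.natDegree = h.natDegree := natDegree_map _
  have hwL : WildL D h' := by
    refine ⟨by rw [hdeg]; exact hp, by rw [hdeg]; exact hodd, ?_, fun i => ?_, ?_, fun i hi hid => ?_⟩
    · have h1 := (hD (h.natDegree : F)).2.2 hpv
      rw [map_natCast, map_natCast] at h1
      rw [hdeg]
      exact h1
    · rw [hh', coeff_map]
      exact (hD _).1.2 (hg i)
    · rw [hh', leadingCoeff_map]
      refine le_antisymm ((hD _).1.2 hl.le) (not_lt.1 fun h2 => ?_)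
      have h3 := (hD _).2.1 h2
      rw [hl] at h3
      exact lt_irrefl _ h3
    · rw [hh', coeff_map]
      rw [hdeg] at hid
      exact (hD _).2.2 (hm i hi hid)
  have hb' : ∀ n, 1 ≤ n → (fun x => eval x h')^[n] (algebraMap F Fq b) ≠ algebraMap F Fq b := by
    intro n hn h1
    rw [hh', ← GP.ev_map] at h1
    exact hb n hn ((algebraMap F Fq).injective h1)
  obtain ⟨e, he⟩ := exists_ref D h' hwL.prime.two_le hwL.coef hwL.lead (algebraMap F Fq b) hb' (hwL.per _)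
  obtain ⟨k₂, hk₂⟩ := HL Fq Ω D h' hwL (algebraMap F Fq b) e he
  refine ⟨k₂, fun k hk r hr T hT => ?_⟩
  have hr' : algebraMap W Ω r ∈ Node Ω h' (algebraMap F Fq b) k := by
    show (ev h')^[k] (algebraMap W Ω r) = algebraMap Fq Ω (algebraMap F Fq b)
    have h1 : (ev h)^[k] r = algebraMap F W b := hr
    rw [hh', ev_tr, h1, ← IsScalarTower.algebraMap_apply, ← IsScalarTower.algebraMap_apply]
  obtain ⟨m₀, hm₀⟩ := hk₂ k hk (algebraMap W Ω r) hr' ((algebraMap W Ω) '' T) (hT.image _)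
  refine ⟨m₀, fun m hmm => ?_⟩
  obtain ⟨A, hA1, hA2, hA3, z', hz1, hz2⟩ := hm₀ m hmm
  obtain ⟨B, hB⟩ := exists_restr (K := F) (E := W) A
  refine ⟨B, fun t ht => ?_, ?_, fun j hj x hx => ?_, ?_⟩
  · apply hinj
    rw [hB]
    exact hA1 _ ⟨t, ht, rfl⟩
  · apply hinj
    rw [hB]
    exact hA2
  · apply hinj
    rw [hB]
    exact hA3 j hj _ (by rw [hh', ev_tr, hx])
  · obtain ⟨z, rfl, hz⟩ := exists_tr (Fq := Fq) h (by have := hp.two_le; omega) (m + 1) r z' hz1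
    refine ⟨z, hz, fun h1 => hz2 ?_⟩
    rw [← hB, h1]

/-- **Y15b** -/
theorem ft_of_move {F W : Type u} [Field F] [CharZero F] [Field W] [Algebra F W] [IsAlgClosed W]
    [Algebra.IsAlgebraic F W] (h : F[X]) (hp : h.natDegree.Prime) (r : W)
    (hav : ∀ c : W, Crit h c → ∀ n, (ev h)^[n] c ≠ r)
    (htr : ∀ (l : ℕ) (y y' : W), (ev h)^[l] y = r → (ev h)^[l] y' = r → ∃ g : W ≃ₐ[F] W, g r = r ∧ g y = y')
    (hm : ∀ T : Set W, T.Finite → ∃ m₀ : ℕ, ∀ m, m₀ ≤ m → ∃ A : W ≃ₐ[F] W, (∀ t ∈ T, A t = t) ∧ A r = r ∧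
      (∀ k, k ≤ m → ∀ x : W, (ev h)^[k] x = r → A x = x) ∧ ∃ z : W, (ev h)^[m + 1] z = r ∧ A z ≠ z) :
    FT h r := by
  intro T hT
  obtain ⟨T', hT'f, hTT', hT's⟩ := exists_stable (F := F) T hT
  obtain ⟨m₀, hm₀⟩ := hm T' hT'f
  refine ⟨m₀, fun m hmm => ?_⟩
  obtain ⟨A, hA1, hA2, hA3, z₁, hz₁, hAz⟩ := hm₀ m hmm
  let P : (W ≃ₐ[F] W) → Prop := fun u =>
    (∀ t ∈ T', u t = t) ∧ u r = r ∧ ∀ k, k ≤ m → ∀ x : W, (ev h)^[k] x = r → u x = x
  have P1 : P 1 := ⟨fun _ _ => rfl, rfl, fun _ _ _ _ => rfl⟩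
  have Pmul : ∀ u w, P u → P w → P (u * w) := by
    intro u w hu hw
    refine ⟨fun t ht => ?_, ?_, fun k hk x hx => ?_⟩
    · rw [AlgEquiv.mul_apply, hw.1 t ht, hu.1 t ht]
    · rw [AlgEquiv.mul_apply, hw.2.1, hu.2.1]
    · rw [AlgEquiv.mul_apply, hw.2.2 k hk x hx, hu.2.2 k hk x hx]
  have Pinv : ∀ u, P u → P u⁻¹ := by
    intro u hu
    refine ⟨fun t ht => ?_, ?_, fun k hk x hx => ?_⟩
    · exact (AlgEquiv.symm_apply_eq u).2 (hu.1 t ht).symm
    · exact (AlgEquiv.symm_apply_eq u).2 hu.2.1.symm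
    · exact (AlgEquiv.symm_apply_eq u).2 (hu.2.2 k hk x hx).symm
  have Pconj : ∀ (g u : W ≃ₐ[F] W), g r = r → P u → P (g⁻¹ * u * g) := by
    intro g u hg hu
    have hg' : g⁻¹ r = r := (AlgEquiv.symm_apply_eq g).2 hg.symm
    refine ⟨fun t ht => ?_, ?_, fun k hk x hx => ?_⟩
    · rw [AlgEquiv.mul_apply, AlgEquiv.mul_apply, hu.1 _ (hT's g t ht)]
      exact g.symm_apply_apply t
    · rw [AlgEquiv.mul_apply, AlgEquiv.mul_apply, hg, hu.2.1, hg']
    · rw [AlgEquiv.mul_apply, AlgEquiv.mul_apply, hu.2.2 k hk _ (lev_aut h g hg k x hx)]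
      exact g.symm_apply_apply x
  -- the fibre of `y₁`
  set y₁ : W := ev h z₁ with hy₁
  have hy₁l : (ev h)^[m] y₁ = r := by rw [hy₁, ← Function.iterate_succ_apply]; exact hz₁
  have hXf : Finite {z : W // ev h z = y₁} := by
    have := fibre_finite' (W := W) h hp.one_lt.le 1 y₁
    exact this.to_subtype
  have hXl : ∀ z : W, ev h z = y₁ → (ev h)^[m + 1] z = r := by
    intro z hz
    rw [Function.iterate_succ_apply, hz, hy₁l]
  let R : {z : W // ev h z = y₁} → {z : W // ev h z = y₁} → Prop := fun x y => ∃ u, P u ∧ u x.1 = y.1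
  have hR : Equivalence R := by
    refine ⟨fun x => ⟨1, P1, rfl⟩, ?_, ?_⟩
    · rintro x y ⟨u, hu, h1⟩
      exact ⟨u⁻¹, Pinv u hu, (AlgEquiv.symm_apply_eq u).2 h1.symm⟩
    · rintro x y z ⟨u, hu, h1⟩ ⟨w, hw, h2⟩
      exact ⟨w * u, Pmul w u hw hu, by rw [AlgEquiv.mul_apply, h1, h2]⟩
  set c : ℕ := {y | R ⟨z₁, rfl⟩ y}.ncard with hc
  have hclass : ∀ x, {y | R x y}.ncard = c := by
    intro x
    obtain ⟨g, hgr, hgz⟩ := htr (m + 1) z₁ x.1 hz₁ (hXl x.1 x.2)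
    have hgy : g y₁ = y₁ := by
      rw [hy₁, GP.ev_aut, hgz, x.2]
    have hgX : ∀ w : W, ev h w = y₁ → ev h (g w) = y₁ := by
      intro w hw
      rw [← GP.ev_aut, hw, hgy]
    have hgr' : g⁻¹ r = r := (AlgEquiv.symm_apply_eq g).2 hgr.symm
    have hgX' : ∀ w : W, ev h w = y₁ → ev h (g⁻¹ w) = y₁ := by
      intro w hw
      rw [← GP.ev_aut, hw]
      exact (AlgEquiv.symm_apply_eq g).2 hgy.symm
    rw [hc]
    symm
    refine Set.ncard_congr (fun y _ => ⟨g y.1, hgX _ y.2⟩) ?_ ?_ ?_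
    · rintro y ⟨u, hu, h1⟩
      refine ⟨g * u * g⁻¹, ?_, ?_⟩
      · have h2 := Pconj g⁻¹ u hgr' hu
        rwa [inv_inv] at h2
      · show (g * u * g⁻¹) x.1 = g y.1
        rw [AlgEquiv.mul_apply, AlgEquiv.mul_apply, ← h1]
        have h3 : g⁻¹ x.1 = z₁ := (AlgEquiv.symm_apply_eq g).2 hgz.symm
        rw [h3]
    · intro a b _ _ hab
      exact Subtype.ext (g.injective (congrArg Subtype.val hab))
    · rintro w ⟨u, hu, h1⟩
      refine ⟨⟨g⁻¹ w.1, hgX' _ w.2⟩, ⟨g⁻¹ * u * g, Pconj g u hgr hu, ?_⟩, ?_⟩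
      · show (g⁻¹ * u * g) z₁ = g⁻¹ w.1
        rw [AlgEquiv.mul_apply, AlgEquiv.mul_apply, hgz, h1]
      · apply Subtype.ext
        exact g.apply_symm_apply w.1
  have hdvd := dvd_of_classes R hR c hclass
  have hcard : Nat.card {z : W // ev h z = y₁} = h.natDegree := by
    have h1 := ncard_fibre (W := W) h hp.one_lt.le y₁ (fun c hc h2 => hav c hc (m + 1) (hXl c h2))
    rw [← h1]
    rfl
  have hc2 : 1 < c := by
    have h1 : (⟨z₁, rfl⟩ : {z : W // ev h z = y₁}) ∈ {y | R ⟨z₁, rfl⟩ y} := hR.refl _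
    have hAy : ev h (A z₁) = y₁ := by
      rw [← GP.ev_aut]
      exact hA3 m le_rfl y₁ hy₁l
    have h2 : (⟨A z₁, hAy⟩ : {z : W // ev h z = y₁}) ∈ {y | R ⟨z₁, rfl⟩ y} := ⟨A, ⟨hA1, hA2, hA3⟩, rfl⟩
    exact (Set.one_lt_ncard (Set.toFinite _)).2 ⟨_, h1, _, h2, fun h3 => hAz (congrArg Subtype.val h3).symm⟩
  rw [hcard] at hdvd
  have hcp : c = h.natDegree := ((Nat.dvd_prime hp).1 hdvd).resolve_left (by omega)
  have htrans : ∀ a b : {z : W // ev h z = y₁}, R a b := by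
    intro a b
    have h1 : {y | R a y} = Set.univ := by
      apply Set.eq_of_subset_of_ncard_le (Set.subset_univ _) _ Set.finite_univ
      rw [Set.ncard_univ, hcard, hclass a, hcp]
    have h2 : b ∈ {y | R a y} := h1 ▸ Set.mem_univ b
    exact h2
  intro z z' hz hzz
  have hyl : (ev h)^[m] (ev h z) = r := by rw [← Function.iterate_succ_apply]; exact hz
  obtain ⟨g, hgr, hgy⟩ := htr m (ev h z) y₁ hyl hy₁l
  have h1 : ev h (g z) = y₁ := by rw [← GP.ev_aut, hgy]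
  have h2 : ev h (g z') = y₁ := by rw [← GP.ev_aut, ← hzz, hgy]
  obtain ⟨u, hu, h3⟩ := htrans ⟨g z, h1⟩ ⟨g z', h2⟩
  have hu' := Pconj g u hgr hu
  refine ⟨g⁻¹ * u * g, fun t ht => hu'.1 t (hTT' ht), hu'.2.1, hu'.2.2, ?_⟩
  rw [AlgEquiv.mul_apply, AlgEquiv.mul_apply]
  show g⁻¹ (u (g z)) = z'
  rw [show u (g z) = g z' from h3]
  exact g.symm_apply_apply z'

end Pool.Agent.ORB.WP
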