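import Pool.Agent.ORB.ECycL
import Pool.Agent.ORB.YGlob

/-!
ORB, Theorem V5, row E7g: one cycle on every level, from `TamT`.
-/

set_option autoImplicit false

namespace Pool.Agent.ORB.GP

open Polynomial NI WP NumberField IsDedekindDomain IntermediateField

universe u

/-- **E7g** -/
theorem cyc_of_tamT {F W : Type u} [Field F] [NumberField F] [Field W] [Algebra F W] [IsAlgClosed W]
    [Algebra.IsAlgebraic F W] (h : F[X]) (hd : 2 ≤ h.natDegree) (b : F)
    (hb : ∀ n, 1 ≤ n → (fun x => eval x h)^[n] b ≠ b) (ht : TamT h b) :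
    ∃ k₂ : ℕ, ∀ k, k₂ ≤ k → ∀ r ∈ Node W h b k, Cyc h r := by
  obtain ⟨v, hg, hl, hdv, ho⟩ := ht
  obtain ⟨Fq, Ω, _, _, _, _, _, _, _, D, hD⟩ := exists_locAbs v
  let algFΩ : Algebra F Ω := ((algebraMap Fq Ω).comp (algebraMap F Fq)).toAlgebra
  have t1 : IsScalarTower F Fq Ω := IsScalarTower.of_algebraMap_eq (fun x => rfl)
  let ψ : W →ₐ[F] Ω := IsAlgClosed.lift
  let algWΩ : Algebra W Ω := ψ.toRingHom.toAlgebra
  have t2 : IsScalarTower F W Ω := IsScalarTower.of_algebraMap_eq (fun x => (ψ.commutes x).symm)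
  have hnm : Normal F W := normal_iff.2 fun x => ⟨Algebra.IsIntegral.isIntegral x, IsAlgClosed.splits _⟩
  have hinj : Function.Injective (algebraMap W Ω) := (algebraMap W Ω).injective
  set h' : Fq[X] := h.map (algebraMap F Fq) with hh'
  have hdeg : h'.natDegree = h.natDegree := natDegree_map _
  have hunit : ∀ x : F, v.valuation F x = 1 → D.N (algebraMap Fq Ω (algebraMap F Fq x)) = 1 := by
    intro x hx
    refine le_antisymm ((hD _).1.2 hx.le) (not_lt.1 fun h2 => ?_)
    have h3 := (hD _).2.1 h2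
    rw [hx] at h3
    exact lt_irrefl _ h3
  have hg' : ∀ i, D.N (algebraMap Fq Ω (h'.coeff i)) ≤ 1 := fun i => by
    rw [hh', coeff_map]
    exact (hD _).1.2 (hg i)
  have hl' : D.N (algebraMap Fq Ω h'.leadingCoeff) = 1 := by
    rw [hh', leadingCoeff_map]
    exact hunit _ hl
  have hdN : D.N ((h'.natDegree : ℕ) : Ω) = 1 := by
    have h2 := hunit _ hdv
    rw [map_natCast, map_natCast] at h2
    rw [hdeg]
    exact h2
  have hb' : ∀ n, 1 ≤ n → (fun x => eval x h')^[n] (algebraMap F Fq b) ≠ algebraMap F Fq b := by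
    intro n hn h1
    rw [hh', ← GP.ev_map] at h1
    exact hb n hn ((algebraMap F Fq).injective h1)
  obtain ⟨e, he⟩ := exists_ref D h' (by rw [hdeg]; exact hd) hg' hl' (algebraMap F Fq b) hb' (by
    rcases ho with hbv | ⟨⟨m, hm, hper⟩, hc⟩
    · left
      rw [← not_le] at hbv ⊢
      exact fun h1 => hbv ((hD b).1.1 h1)
    · refine Or.inr ⟨⟨m, hm, ?_⟩, fun n i hi hid => ?_⟩
      · rw [hh', ← GP.ev_map, ← map_sub]
        exact (hD _).2.2 hper
      · rw [hh', ← GP.ev_map, ← map_taylor, coeff_map]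
        rw [hdeg] at hid
        exact (hD _).2.2 (hc n i hi hid))
  obtain ⟨k₂, hk₂⟩ := cyc_local D h' (by rw [hdeg]; exact hd) hg' hl' hdN (algebraMap F Fq b) e he
  refine ⟨k₂, fun k hk r hr => ?_⟩
  have hr' : algebraMap W Ω r ∈ Node Ω h' (algebraMap F Fq b) k := by
    show (ev h')^[k] (algebraMap W Ω r) = algebraMap Fq Ω (algebraMap F Fq b)
    have h1 : (ev h)^[k] r = algebraMap F W b := hr
    rw [hh', ev_tr, h1, ← IsScalarTower.algebraMap_apply, ← IsScalarTower.algebraMap_apply]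
  obtain ⟨A, hA1, hA2⟩ := hk₂ k hk _ hr'
  obtain ⟨B, hB⟩ := exists_restr (K := F) (E := W) A
  have hBi : ∀ (i : ℕ) (x : W), algebraMap W Ω ((B ^ i) x) = (A ^ i) (algebraMap W Ω x) := by
    intro i
    induction i with
    | zero => intro x; rfl
    | succ i ih =>
      intro x
      rw [pow_succ, pow_succ, AlgEquiv.mul_apply, AlgEquiv.mul_apply, ih, hB]
  refine ⟨B, hinj (by rw [hB]; exact hA1), fun n z z' hz hz' => ?_⟩
  obtain ⟨i, hi⟩ := hA2 n (algebraMap W Ω z) (algebraMap W Ω z') (by rw [hh', ev_tr, hz]) (by rw [hh', ev_tr, hz'])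
  exact ⟨i, hinj (by rw [hBi, hi])⟩

end Pool.Agent.ORB.GP
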