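import Pool.Agent.ORB.EDefs
import Pool.Agent.ORB.TEngine

/-!
ORB, Theorem V5 (all degrees), row E4: an invariant equivalence relation on a level which is permuted in
one cycle contains siblings.
-/

set_option autoImplicit false

namespace Pool.Agent.ORB.GP

open Polynomial NI NumberField IsDedekindDomain

universe u

section abs

/-- the powers of an element which moves a finite set in one cycle -/
theorem cyc_zpow {G Y : Type*} [Group G] [MulAction G Y] [Finite Y] (g : G)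
    (ht : ∀ y y' : Y, ∃ i : ℕ, g ^ i • y = y') (y : Y) (j : ℤ) :
    g ^ j • y = y ↔ (Nat.card Y : ℤ) ∣ j := by
  classical
  haveI : Fintype Y := Fintype.ofFinite Y
  haveI : Fintype (MulAction.orbit (Subgroup.zpowers g) y) := Fintype.ofFinite _
  rw [MulAction.zpow_smul_eq_iff_minimalPeriod_dvd, MulAction.minimalPeriod_eq_card]
  have h1 : Fintype.card (MulAction.orbit (Subgroup.zpowers g) y) = Nat.card Y := by
    rw [← Nat.card_eq_fintype_card]
    have h2 : MulAction.orbit (Subgroup.zpowers g) y = Set.univ := by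
      ext y'
      refine ⟨fun _ => Set.mem_univ _, fun _ => ?_⟩
      obtain ⟨i, hi⟩ := ht y y'
      exact ⟨⟨g ^ i, Subgroup.npow_mem_zpowers g i⟩, hi⟩
    rw [h2]
    exact Nat.card_congr (Equiv.Set.univ Y)
  rw [h1]

/-- an invariant equivalence relation on a cycle of length `d ^ (l + 1)` contains two points over the same point of
the cycle of length `d ^ l` -/
theorem sib_abs {G Y Y' : Type*} [Group G] [MulAction G Y] [MulAction G Y'] [Finite Y] [Finite Y'] (π : Y → Y')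
    (hπ : ∀ (u : G) (y : Y), π (u • y) = u • π y) (g : G) (d l : ℕ) (hd : 2 ≤ d)
    (hY : Nat.card Y = d ^ (l + 1)) (hY' : Nat.card Y' = d ^ l)
    (ht : ∀ y y' : Y, ∃ i : ℕ, g ^ i • y = y') (ht' : ∀ y y' : Y', ∃ i : ℕ, g ^ i • y = y')
    (E : Y → Y → Prop) (hE : Equivalence E) (hEG : ∀ (u : G) (y y' : Y), E y y' → E (u • y) (u • y'))
    (hne : ∃ y y' : Y, y ≠ y' ∧ E y y') : ∃ y y' : Y, y ≠ y' ∧ E y y' ∧ π y = π y' := by
  classical
  obtain ⟨y, y', hyy, hEy⟩ := hne
  have hN0 : 0 < d ^ (l + 1) := Nat.pow_pos (by omega)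
  -- the subgroup
  let H : AddSubgroup ℤ :=
    { carrier := {j | E y (g ^ j • y)}
      zero_mem' := by
        show E y (g ^ (0 : ℤ) • y)
        rw [zpow_zero, one_smul]
        exact hE.refl y
      add_mem' := by
        intro i j hi hj
        show E y (g ^ (i + j) • y)
        rw [zpow_add, mul_smul]
        exact hE.trans hi (hEG _ _ _ hj)
      neg_mem' := by
        intro j hj
        show E y (g ^ (-j) • y)
        have h1 := hEG (g ^ (-j)) _ _ hj
        rw [← mul_smul, ← zpow_add, neg_add_cancel, zpow_zero, one_smul] at h1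
        exact hE.symm h1 }
  have hH : ∀ j : ℤ, j ∈ H ↔ E y (g ^ j • y) := fun j => Iff.rfl
  obtain ⟨a, ha⟩ := Int.subgroup_cyclic H
  have hmem : ∀ j : ℤ, j ∈ H ↔ a ∣ j := by
    intro j
    rw [ha, ← AddSubgroup.zmultiples_eq_closure]
    exact Int.mem_zmultiples_iff
  obtain ⟨i, hi⟩ := ht y y'
  have hiH : (i : ℤ) ∈ H := by
    rw [hH, zpow_natCast, hi]
    exact hEy
  have hNi : ¬ ((d ^ (l + 1) : ℕ) : ℤ) ∣ (i : ℤ) := by
    rw [← hY, ← cyc_zpow g ht y, zpow_natCast, hi]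
    exact fun h => hyy h.symm
  have hNH : ((d ^ (l + 1) : ℕ) : ℤ) ∈ H := by
    rw [hH]
    have h1 : g ^ ((d ^ (l + 1) : ℕ) : ℤ) • y = y := by
      rw [cyc_zpow g ht y, hY]
    rw [h1]
    exact hE.refl y
  obtain ⟨m, hm⟩ := (hmem _).1 hNH
  have hm0 : m.natAbs ≠ 1 := by
    intro h1
    apply hNi
    have h2 : ((d ^ (l + 1) : ℕ) : ℤ) ∣ a := by
      rcases Int.natAbs_eq m with h3 | h3
      · rw [h1] at h3
        rw [hm, h3]
        simp
      · rw [h1] at h3
        rw [hm, h3]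
        simp
    exact h2.trans ((hmem _).1 hiH)
  obtain ⟨p, hp, hpm⟩ := Nat.exists_prime_and_dvd hm0
  have hpm' : (p : ℤ) ∣ m := Int.natCast_dvd.2 hpm
  obtain ⟨m', hm'⟩ := hpm'
  have hpN : p ∣ d ^ (l + 1) := by
    have h1 : (p : ℤ) ∣ ((d ^ (l + 1) : ℕ) : ℤ) := by
      rw [hm, hm']
      exact Dvd.intro_left (a * m') (by ring)
    exact_mod_cast h1
  obtain ⟨e, he⟩ := hp.dvd_of_dvd_pow hpN
  have hp0 : (p : ℤ) ≠ 0 := by exact_mod_cast hp.ne_zero
  have he0 : 0 < e := by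
    rcases Nat.eq_zero_or_pos e with h1 | h1
    · rw [h1, mul_zero] at he
      omega
    · exact h1
  -- the number N / p
  have hq : ((d ^ l * e : ℕ) : ℤ) = a * m' := by
    have h1 : (p : ℤ) * ((d ^ l * e : ℕ) : ℤ) = (p : ℤ) * (a * m') := by
      have h2 : ((p * (d ^ l * e) : ℕ) : ℤ) = ((d ^ (l + 1) : ℕ) : ℤ) := by
        congr 1
        rw [pow_succ]
        conv_rhs => rw [he]
        conv_lhs => rw [he]
        ring
      rw [← Nat.cast_mul, h2, hm, hm']
      ring
    exact mul_left_cancel₀ hp0 h1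
  refine ⟨y, g ^ ((d ^ l * e : ℕ) : ℤ) • y, ?_, ?_, ?_⟩
  · intro h1
    have h2 := (cyc_zpow g ht y ((d ^ l * e : ℕ) : ℤ)).1 h1.symm
    rw [hY] at h2
    have h3 : d ^ (l + 1) ∣ d ^ l * e := by exact_mod_cast h2
    have h4 := Nat.le_of_dvd (Nat.mul_pos (Nat.pow_pos (by omega)) he0) h3
    rw [pow_succ] at h4
    have h5 : d ≤ e := Nat.le_of_mul_le_mul_left h4 (Nat.pow_pos (by omega))
    have h6 := hp.two_le
    have h7 : 2 * e ≤ p * e := Nat.mul_le_mul_right _ h6
    omega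
  · rw [← hH, hmem]
    exact ⟨m', hq⟩
  · rw [hπ]
    symm
    rw [cyc_zpow g ht' (π y), hY']
    exact_mod_cast Dvd.intro _ rfl

end abs

section lev

variable {F W : Type u} [Field F] [Field W] [Algebra F W]

/-- the level `n` has `d ^ n` points -/
theorem card_Lv [CharZero F] [IsAlgClosed W] (h : F[X]) (hd : 1 ≤ h.natDegree) (r : W)
    (hav : ∀ c : W, Crit h c → ∀ n, (ev h)^[n] c ≠ r) (n : ℕ) :
    Nat.card (Lv h r n) = h.natDegree ^ n := by
  classical
  induction n with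
  | zero =>
    rw [pow_zero, Nat.card_eq_one_iff_unique]
    exact ⟨⟨fun a b => Subtype.ext (a.2.trans b.2.symm)⟩, ⟨⟨r, rfl⟩⟩⟩
  | succ n ih =>
    haveI : Finite (Lv h r n) := Lv.finite h hd r n
    haveI : Finite (Lv h r (n + 1)) := Lv.finite h hd r (n + 1)
    haveI : Fintype (Lv h r n) := Fintype.ofFinite _
    rw [← Nat.card_congr (Equiv.sigmaFiberEquiv (Lv.down h r n)), Nat.card_sigma]
    have h1 : ∀ y : Lv h r n, Nat.card {x : Lv h r (n + 1) // Lv.down h r n x = y} =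
        h.natDegree := by
      intro y
      rw [← ncard_fibre h hd y.1 (fun c hc hcy => hav c hc (n + 1) (by
        rw [Function.iterate_succ_apply, hcy]
        exact y.2)), ← Nat.card_coe_set_eq]
      refine Nat.card_congr ⟨fun x => ⟨x.1.1, ?_⟩, fun z => ⟨⟨z.1, ?_⟩, ?_⟩, fun x => ?_, fun z => ?_⟩
      · exact congrArg Subtype.val x.2
      · rw [Function.iterate_succ_apply, show ev h z.1 = y.1 from z.2]
        exact y.2
      · exact Subtype.ext z.2
      · rfl
      · rfl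
    rw [Finset.sum_congr rfl fun y _ => h1 y, Finset.sum_const, Finset.card_univ,
      ← Nat.card_eq_fintype_card, ih, smul_eq_mul, pow_succ]

end lev

/-- **E4** (invariant equivalence relations on a level contain siblings) -/
theorem sib_of_cyc {F W : Type u} [Field F] [CharZero F] [Field W] [Algebra F W] [IsAlgClosed W] (h : F[X])
    (hd : 2 ≤ h.natDegree) (r : W) (hav : ∀ c : W, Crit h c → ∀ n, (ev h)^[n] c ≠ r) (hcyc : Cyc h r) (l : ℕ)
    (E : Lv h r (l + 1) → Lv h r (l + 1) → Prop) (hE : Equivalence E)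
    (hEG : ∀ (g : StG F r) (y y' : Lv h r (l + 1)), E y y' → E (g • y) (g • y'))
    (hne : ∃ y y' : Lv h r (l + 1), y ≠ y' ∧ E y y') :
    ∃ y y' : Lv h r (l + 1), y ≠ y' ∧ E y y' ∧ Lv.down h r l y = Lv.down h r l y' := by
  obtain ⟨g, hgr, hg⟩ := hcyc
  haveI : Finite (Lv h r l) := Lv.finite h (by omega) r l
  haveI : Finite (Lv h r (l + 1)) := Lv.finite h (by omega) r (l + 1)
  have hpow : ∀ (n i : ℕ) (z : Lv h r n), (((⟨g, hgr⟩ : StG F r) ^ i • z : Lv h r n) : W) = (g ^ i) z.1 :=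
    fun n i z => rfl
  have ht : ∀ (n : ℕ) (y y' : Lv h r n), ∃ i : ℕ, (⟨g, hgr⟩ : StG F r) ^ i • y = y' := by
    intro n y y'
    obtain ⟨i, hi⟩ := hg n y.1 y'.1 y.2 y'.2
    exact ⟨i, Subtype.ext ((hpow n i y).trans hi)⟩
  refine sib_abs (Lv.down h r l) (fun u y => ?_) (⟨g, hgr⟩ : StG F r) h.natDegree l hd
    (card_Lv h (by omega) r hav (l + 1)) (card_Lv h (by omega) r hav l) (ht (l + 1)) (ht l) E hE hEG hne
  exact Subtype.ext (ev_aut h u.1 y.1).symm

end Pool.Agent.ORB.GP
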