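import Pool.Agent.ORB.TPerm

/-!
ORB, Theorem V5, row E3: the second moment of the number of fixed points in a coset of a finite permutation group.
-/

set_option autoImplicit false

namespace Pool.Agent.ORB.GP

open Finset

/-- **the counting lemma** (right translations by `N`, transitive on `X`) -/
theorem sum_right {G Z : Type*} [Group G] [MulAction G Z] (U : Finset G) (N : Subgroup G)
    (hU : ∀ u ∈ U, ∀ n ∈ N, u * n ∈ U) (s : G) (X : Finset Z) (z₀ : Z) (ht : ∀ z ∈ X, ∃ n ∈ N, n • z₀ = z)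
    (hX : ∀ u ∈ U, s • u • z₀ ∈ X) [DecidableEq Z] :
    ∑ z ∈ X, #(U.filter fun u => u • z = s⁻¹ • z) = #U := by
  classical
  have h1 : ∀ z ∈ X, #(U.filter fun u => u • z = s⁻¹ • z) = #(U.filter fun u => u • z₀ = s⁻¹ • z) := by
    intro z hz
    obtain ⟨n, hn, hnz⟩ := ht z hz
    refine Finset.card_bij (fun u _ => u * n) ?_ ?_ ?_
    · intro u hu
      rw [Finset.mem_filter] at hu ⊢
      exact ⟨hU u hu.1 n hn, by rw [mul_smul, hnz]; exact hu.2⟩
    · intro u _ u' _ h
      exact mul_right_cancel h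
    · intro u hu
      rw [Finset.mem_filter] at hu
      refine ⟨u * n⁻¹, ?_, by rw [inv_mul_cancel_right]⟩
      rw [Finset.mem_filter]
      refine ⟨hU u hu.1 _ (N.inv_mem hn), ?_⟩
      rw [mul_smul, ← hu.2]
      congr 1
      rw [inv_smul_eq_iff, hnz]
  rw [Finset.sum_congr rfl h1]
  simp_rw [Finset.card_filter]
  rw [Finset.sum_comm]
  have h2 : ∀ u ∈ U, ∑ z ∈ X, (if u • z₀ = s⁻¹ • z then 1 else 0) = 1 := by
    intro u hu
    have h3 : ∀ z ∈ X, (if u • z₀ = s⁻¹ • z then 1 else 0) = if z = s • u • z₀ then 1 else 0 := by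
      intro z _
      have : (u • z₀ = s⁻¹ • z) ↔ (z = s • u • z₀) := by
        rw [eq_inv_smul_iff]
        exact eq_comm
      simp only [this]
    rw [Finset.sum_congr rfl h3, Finset.sum_ite_eq' X (s • u • z₀), if_pos (hX u hu)]
  rw [Finset.sum_congr rfl h2]; simp

/-- the hypotheses of E3 on the classes -/
structure Cfg2 {G Y : Type*} [Group G] [MulAction G Y] (S : Set G) (R : Y → Y → Prop) : Prop where
  conj : ∀ g : G, ∀ u ∈ S, g * u * g⁻¹ ∈ S
  eqv : Equivalence R
  inv : ∀ (g : G) (z z' : Y), R z z' → R (g • z) (g • z')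
  pres : ∀ u ∈ S, ∀ z : Y, R z (u • z)
  two : ∀ u ∈ S, ∀ z z' : Y, R z z' → u • z ≠ z → u • z' ≠ z' → z' = z ∨ z' = u • z
  ex : ∀ z z' : Y, R z z' → z ≠ z' → ∃ u ∈ S, u • z = z'
  card : ∀ z : Y, 2 ≤ {z' : Y | R z z'}.ncard

section cfg
variable {G Y : Type*} [Group G] [MulAction G Y] {S : Set G} {R : Y → Y → Prop}

theorem Cfg2.cl_pres (h : Cfg2 S R) {c : G} (hc : c ∈ Subgroup.closure S) (z : Y) : R z (c • z) := by
  induction hc using Subgroup.closure_induction generalizing z with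
  | mem x hx => exact h.pres x hx z
  | one => rw [one_smul]; exact h.eqv.refl z
  | mul x y _ _ hx hy =>
    rw [mul_smul]
    exact h.eqv.trans (hy z) (hx _)
  | inv x _ hx =>
    have h1 := hx (x⁻¹ • z)
    rw [smul_inv_smul] at h1
    exact h.eqv.symm h1

theorem Cfg2.cl_conj (h : Cfg2 S R) (g : G) {c : G} (hc : c ∈ Subgroup.closure S) :
    g * c * g⁻¹ ∈ Subgroup.closure S := by
  induction hc using Subgroup.closure_induction with
  | mem x hx => exact Subgroup.subset_closure (h.conj g x hx)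
  | one => rw [mul_one, mul_inv_cancel]; exact Subgroup.one_mem _
  | mul x y _ _ hx hy =>
    have : g * (x * y) * g⁻¹ = (g * x * g⁻¹) * (g * y * g⁻¹) := by group
    rw [this]
    exact Subgroup.mul_mem _ hx hy
  | inv x _ hx =>
    have : g * x⁻¹ * g⁻¹ = (g * x * g⁻¹)⁻¹ := by group
    rw [this]
    exact Subgroup.inv_mem _ hx

theorem Cfg2.other (h : Cfg2 S R) (z : Y) : ∃ a, R z a ∧ a ≠ z := by
  by_contra hno
  push Not at hno
  have h1 : {z' : Y | R z z'} ⊆ {z} := fun y hy => hno y hy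
  have h2 := Set.ncard_le_ncard h1 (Set.finite_singleton z)
  rw [Set.ncard_singleton] at h2
  have := h.card z
  omega

/-- the closure of `S` is 2-transitive on each class -/
theorem Cfg2.two_trans (h : Cfg2 S R) {x y x' y' : Y} (hxy : R x y) (hne : x ≠ y) (hxx : R x x') (hyy : R x y')
    (hne' : x' ≠ y') : ∃ c ∈ Subgroup.closure S, c • x = x' ∧ c • y = y' := by
  obtain ⟨c, hc, hcx⟩ : ∃ c ∈ Subgroup.closure S, c • x = x' := by
    by_cases hx : x = x'
    · exact ⟨1, Subgroup.one_mem _, by rw [one_smul, hx]⟩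
    · obtain ⟨u, hu, hux⟩ := h.ex x x' hxx hx
      exact ⟨u, Subgroup.subset_closure hu, hux⟩
  by_cases hy : c • y = y'
  · exact ⟨c, hc, hcx, hy⟩
  · have h1 : R (c • y) y' := h.eqv.trans (h.eqv.symm (h.cl_pres hc y)) (h.eqv.trans (h.eqv.symm hxy) hyy)
    obtain ⟨u, hu, huy⟩ := h.ex _ _ h1 hy
    refine ⟨u * c, Subgroup.mul_mem _ (Subgroup.subset_closure hu) hc, ?_, ?_⟩
    · rw [mul_smul, hcx]
      by_contra hne2
      have h2 : R (c • y) x' := h.eqv.trans h1 (h.eqv.trans (h.eqv.symm hyy) hxx)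
      rcases h.two u hu (c • y) x' h2 (by rw [huy]; exact Ne.symm hy) hne2 with h3 | h3
      · rw [← hcx] at h3
        exact hne (MulAction.injective c h3)
      · rw [huy] at h3
        exact hne' h3
    · rw [mul_smul, huy]

/-- the elements of the closure of `S` which are trivial on the class of `z` -/
def Kr (_h : Cfg2 S R) (z : Y) : Subgroup G where
  carrier := {u | u ∈ Subgroup.closure S ∧ ∀ y, R z y → u • y = y}
  mul_mem' := by
    rintro a b ⟨ha, ha'⟩ ⟨hb, hb'⟩
    refine ⟨Subgroup.mul_mem _ ha hb, fun y hy => ?_⟩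
    rw [mul_smul, hb' y hy, ha' y hy]
  one_mem' := ⟨Subgroup.one_mem _, fun y _ => one_smul G y⟩
  inv_mem' := by
    rintro a ⟨ha, ha'⟩
    refine ⟨Subgroup.inv_mem _ ha, fun y hy => ?_⟩
    rw [inv_smul_eq_iff, ha' y hy]

theorem mem_Kr (h : Cfg2 S R) {z : Y} {u : G} :
    u ∈ Kr h z ↔ u ∈ Subgroup.closure S ∧ ∀ y, R z y → u • y = y := Iff.rfl

/-- `Kr` of a translate -/
theorem mem_Kr_smul (h : Cfg2 S R) (g : G) {z : Y} {u : G} : u ∈ Kr h (g • z) ↔ g⁻¹ * u * g ∈ Kr h z := by
  rw [mem_Kr, mem_Kr]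
  constructor
  · rintro ⟨hu, hu'⟩
    refine ⟨?_, fun y hy => ?_⟩
    · have := h.cl_conj g⁻¹ hu
      rwa [inv_inv] at this
    · rw [mul_smul, mul_smul, hu' (g • y) (h.inv g _ _ hy), inv_smul_smul]
  · rintro ⟨hu, hu'⟩
    refine ⟨?_, fun y hy => ?_⟩
    · have := h.cl_conj g hu
      have e : g * (g⁻¹ * u * g) * g⁻¹ = u := by group
      rwa [e] at this
    · have h1 : R z (g⁻¹ • y) := by
        have := h.inv g⁻¹ _ _ hy
        rwa [inv_smul_smul] at this
      have h2 := hu' _ h1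
      rw [mul_smul, mul_smul, smul_inv_smul, inv_smul_eq_iff, smul_inv_smul] at h2
      exact h2

theorem Kr_smul_congr (h : Cfg2 S R) (g : G) {z z' : Y} (hz : Kr h z = Kr h z') :
    Kr h (g • z) = Kr h (g • z') := by
  ext u
  rw [mem_Kr_smul, mem_Kr_smul, hz]

/-- the kernel of one class is transitive on another class if it is not trivial there -/
theorem Kr_trans (h : Cfg2 S R) {z z' : Y} (hz : ¬ Kr h z ≤ Kr h z') :
    ∃ p, R z' p ∧ ∀ y, R z' y → ∃ n ∈ Kr h z, n • p = y := by
  obtain ⟨u, hu, hu'⟩ := SetLike.not_le_iff_exists.1 hz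
  have huC := hu.1
  have : ∃ p, R z' p ∧ u • p ≠ p := by
    by_contra hno
    push Not at hno
    exact hu' ⟨huC, hno⟩
  obtain ⟨p, hp, hup⟩ := this
  refine ⟨p, hp, fun y hy => ?_⟩
  by_cases hyp : y = p
  · exact ⟨1, Subgroup.one_mem _, by rw [one_smul, hyp]⟩
  · have hpu : R p (u • p) := h.cl_pres huC p
    obtain ⟨c, hc, hcp, hcu⟩ := h.two_trans hpu (Ne.symm hup) (h.eqv.refl p)
      (h.eqv.trans (h.eqv.symm hp) hy) (Ne.symm hyp)
    refine ⟨c * u * c⁻¹, ⟨Subgroup.mul_mem _ (Subgroup.mul_mem _ hc huC) (Subgroup.inv_mem _ hc),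
      fun w hw => ?_⟩, ?_⟩
    · have h1 : R z (c⁻¹ • w) := h.eqv.trans hw (h.cl_pres (Subgroup.inv_mem _ hc) w)
      rw [mul_smul, mul_smul, hu.2 _ h1, smul_inv_smul]
    · have h1 : c⁻¹ • p = p := by rw [inv_smul_eq_iff, hcp]
      rw [mul_smul, mul_smul, h1, hcu]

end cfg

/-! ### the second moment -/

section fin2
variable {G Y : Type*} [Group G] [MulAction G Y] [Fintype G] [Fintype Y] {S : Set G} {R : Y → Y → Prop}

open scoped Classical in
/-- the number of `u` in `H` with `u x = s⁻¹ x` and `u y = s⁻¹ y` -/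
noncomputable def N2 (H : Subgroup G) (s : G) (x y : Y) : ℕ :=
  #((elts H).filter fun u => u • x = s⁻¹ • x ∧ u • y = s⁻¹ • y)

theorem sum_fx_sq (H : Subgroup G) (s : G) :
    ∑ u ∈ elts H, fx Y (s * u) ^ 2 = ∑ x : Y, ∑ y : Y, N2 H s x y := by
  classical
  have h1 : ∀ u ∈ elts H, fx Y (s * u) ^ 2 =
      ∑ x : Y, ∑ y : Y, if u • x = s⁻¹ • x ∧ u • y = s⁻¹ • y then 1 else 0 := by
    intro u _
    have h2 : fx Y (s * u) = ∑ x : Y, if u • x = s⁻¹ • x then 1 else 0 := by
      unfold fx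
      rw [Finset.card_filter]
      refine Finset.sum_congr rfl fun z _ => ?_
      have : ((s * u) • z = z) ↔ (u • z = s⁻¹ • z) := by
        rw [mul_smul]
        constructor
        · intro h; rw [eq_inv_smul_iff]; exact h
        · intro h; rw [eq_inv_smul_iff] at h; exact h
      simp only [this]
    rw [h2, sq, Finset.sum_mul_sum]
    refine Finset.sum_congr rfl fun x _ => Finset.sum_congr rfl fun y _ => ?_
    by_cases hx : u • x = s⁻¹ • x <;> by_cases hy : u • y = s⁻¹ • y <;> simp [hx, hy]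
  rw [Finset.sum_congr rfl h1, Finset.sum_comm]
  refine Finset.sum_congr rfl fun x _ => ?_
  rw [Finset.sum_comm]
  refine Finset.sum_congr rfl fun y _ => ?_
  unfold N2
  rw [Finset.card_filter]

omit [Fintype G] in
theorem Cfg2.card_blk (h : Cfg2 S R) (x : Y) : 2 ≤ #(blk R x) := by
  classical
  have h1 : (blk R x : Set Y) = {z' : Y | R x z'} := by
    ext y
    rw [Finset.mem_coe, mem_blk]; rfl
  have := h.card x
  rw [← h1, Set.ncard_coe_finset] at this
  exact this

/-- the weight of a point -/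
noncomputable def wt2 (R : Y → Y → Prop) (z : Y) : ℝ := 1 / #(blk R z)

omit [Fintype G] in
theorem Cfg2.blk_congr (h : Cfg2 S R) {x y : Y} (hxy : R x y) : blk R x = blk R y := by
  ext z
  rw [mem_blk, mem_blk]
  exact ⟨fun h1 => h.eqv.trans (h.eqv.symm hxy) h1, fun h1 => h.eqv.trans hxy h1⟩

omit [Fintype G] in
/-- averaging over the classes -/
theorem Cfg2.sum_wt (h : Cfg2 S R) (f : Y → ℝ) : ∑ y, f y = ∑ z, wt2 R z * ∑ y ∈ blk R z, f y := by
  classical
  have h1 : ∀ z : Y, wt2 R z * ∑ y ∈ blk R z, f y = ∑ y : Y, if R z y then wt2 R z * f y else 0 := by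
    intro z
    unfold blk
    rw [Finset.sum_filter, Finset.mul_sum]
    refine Finset.sum_congr rfl fun y _ => ?_
    split_ifs <;> ring
  rw [Finset.sum_congr rfl fun z _ => h1 z, Finset.sum_comm]
  refine Finset.sum_congr rfl fun y _ => ?_
  have h2 : ∀ z : Y, (if R z y then wt2 R z * f y else 0) = if R y z then wt2 R y * f y else 0 := by
    intro z
    by_cases hz : R z y
    · rw [if_pos hz, if_pos (h.eqv.symm hz)]
      unfold wt2
      rw [h.blk_congr hz]
    · rw [if_neg hz, if_neg fun h3 => hz (h.eqv.symm h3)]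
  rw [Finset.sum_congr rfl fun z _ => h2 z, ← Finset.sum_filter, Finset.sum_const, nsmul_eq_mul]
  have h3 : #((univ : Finset Y).filter fun z => R y z) = #(blk R y) := rfl
  rw [h3]
  unfold wt2
  have h4 : (#(blk R y) : ℝ) ≠ 0 := by
    have := h.card_blk y
    have h5 : (0 : ℝ) < #(blk R y) := by exact_mod_cast (by omega : 0 < #(blk R y))
    exact h5.ne'
  field_simp

omit [Fintype G] in
theorem Cfg2.sum_wt2 (h : Cfg2 S R) (F : Y → Y → ℝ) : ∑ x, ∑ y, F x y =
    ∑ z, ∑ z', wt2 R z * wt2 R z' * ∑ x ∈ blk R z, ∑ y ∈ blk R z', F x y := by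
  rw [h.sum_wt fun x => ∑ y, F x y]
  refine Finset.sum_congr rfl fun z _ => ?_
  have h1 : ∀ x ∈ blk R z, ∑ y, F x y = ∑ z', wt2 R z' * ∑ y ∈ blk R z', F x y :=
    fun x _ => h.sum_wt (F x)
  rw [Finset.sum_congr rfl h1, Finset.sum_comm, Finset.mul_sum]
  refine Finset.sum_congr rfl fun z' _ => ?_
  rw [← Finset.mul_sum]
  ring

/-- stable classes: first moment -/
theorem Cfg2.sum_one (h : Cfg2 S R) {s : G} {z : Y} (hz : R z (s • z)) :
    ∑ x ∈ blk R z, NN (Subgroup.closure S) s x = #(elts (Subgroup.closure S)) := by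
  classical
  apply sum_right (elts (Subgroup.closure S)) (Subgroup.closure S) _ s (blk R z) z
  · intro x hx
    rw [mem_blk] at hx
    by_cases hxz : z = x
    · exact ⟨1, Subgroup.one_mem _, by rw [one_smul, hxz]⟩
    · obtain ⟨u, hu, hux⟩ := h.ex z x hx hxz
      exact ⟨u, Subgroup.subset_closure hu, hux⟩
  · intro u hu
    rw [mem_elts] at hu
    rw [mem_blk]
    exact h.eqv.trans hz (h.inv s _ _ (h.cl_pres hu z))
  · intro u hu n hn
    rw [mem_elts] at hu ⊢
    exact Subgroup.mul_mem _ hu hn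

omit [Fintype G] [Fintype Y] in
/-- unstable classes -/
theorem Cfg2.zero (h : Cfg2 S R) {s : G} {z : Y} (hz : ¬ R z (s • z)) {x : Y} (hx : R z x) {u : G}
    (hu : u ∈ Subgroup.closure S) : u • x ≠ s⁻¹ • x := by
  intro h1
  apply hz
  have h2 : R x (s⁻¹ • x) := by rw [← h1]; exact h.cl_pres hu x
  have h3 : R (s • x) x := by
    have := h.inv s _ _ h2
    rwa [smul_inv_smul] at this
  exact h.eqv.trans hx (h.eqv.trans (h.eqv.symm h3) (h.inv s _ _ (h.eqv.symm hx)))

/-- second moment, the same stable class -/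
theorem Cfg2.sum_same (h : Cfg2 S R) {s : G} {z z' : Y} (hz : R z (s • z)) (hzz : R z z') :
    ∑ x ∈ blk R z, ∑ y ∈ blk R z', N2 (Subgroup.closure S) s x y = 2 * #(elts (Subgroup.closure S)) := by
  classical
  rw [← h.blk_congr hzz, ← Finset.sum_product', ← Finset.diag_union_offDiag,
    Finset.sum_union (Finset.disjoint_diag_offDiag _), Finset.sum_diag]
  have h1 : ∑ x ∈ blk R z, N2 (Subgroup.closure S) s x x = #(elts (Subgroup.closure S)) := by
    rw [← h.sum_one hz]
    refine Finset.sum_congr rfl fun x _ => ?_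
    unfold N2 NN
    simp only [and_self]
  have h2 : ∑ x ∈ (blk R z).offDiag, N2 (Subgroup.closure S) s x.1 x.2 = #(elts (Subgroup.closure S)) := by
    obtain ⟨a, hza, haz⟩ := h.other z
    have h3 := sum_right (Z := Y × Y) (elts (Subgroup.closure S)) (Subgroup.closure S)
      (fun u hu n hn => by
        rw [mem_elts] at hu ⊢
        exact Subgroup.mul_mem _ hu hn) s ((blk R z).offDiag) (z, a)
      (fun p hp => by
        rw [Finset.mem_offDiag, mem_blk, mem_blk] at hp
        obtain ⟨c, hc, hc1, hc2⟩ := h.two_trans hza (Ne.symm haz) hp.1 hp.2.1 hp.2.2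
        exact ⟨c, hc, Prod.ext hc1 hc2⟩)
      (fun u hu => by
        rw [mem_elts] at hu
        rw [Finset.mem_offDiag, mem_blk, mem_blk]
        refine ⟨h.eqv.trans hz (h.inv s _ _ (h.cl_pres hu z)),
          h.eqv.trans hz (h.inv s _ _ (h.eqv.trans hza (h.cl_pres hu a))), fun h4 => ?_⟩
        exact haz (MulAction.injective u (MulAction.injective s h4)).symm)
    rw [← h3]
    refine Finset.sum_congr rfl fun p _ => ?_
    unfold N2
    congr 1
    ext u
    simp only [Finset.mem_filter, Prod.ext_iff, Prod.smul_fst, Prod.smul_snd]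
  rw [h1, h2]; ring

/-- second moment, different stable classes with different kernels -/
theorem Cfg2.sum_diff (h : Cfg2 S R) {s : G} {z z' : Y} (hz : R z (s • z)) (hz' : R z' (s • z'))
    (hk : ¬ Kr h z ≤ Kr h z') :
    ∑ x ∈ blk R z, ∑ y ∈ blk R z', N2 (Subgroup.closure S) s x y = #(elts (Subgroup.closure S)) := by
  classical
  rw [← h.sum_one hz]
  refine Finset.sum_congr rfl fun x hx => ?_
  rw [mem_blk] at hx
  obtain ⟨p, hp, hpt⟩ := Kr_trans h hk
  have h3 := sum_right ((elts (Subgroup.closure S)).filter fun u => u • x = s⁻¹ • x) (Kr h z)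
    (fun u hu n hn => by
      rw [Finset.mem_filter, mem_elts] at hu ⊢
      exact ⟨Subgroup.mul_mem _ hu.1 hn.1, by rw [mul_smul, hn.2 x hx, hu.2]⟩) s (blk R z') p
    (fun y hy => hpt y (mem_blk.1 hy))
    (fun u hu => by
      rw [Finset.mem_filter, mem_elts] at hu
      rw [mem_blk]
      exact h.eqv.trans hz' (h.inv s _ _ (h.eqv.trans hp (h.cl_pres hu.1 p))))
  unfold NN
  rw [← h3]
  refine Finset.sum_congr rfl fun y _ => ?_
  unfold N2
  rw [Finset.filter_filter]

omit [Fintype Y] in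
theorem N2_comm (H : Subgroup G) (s : G) (x y : Y) : N2 H s x y = N2 H s y x := by
  classical
  unfold N2
  congr 1
  ext u
  rw [Finset.mem_filter, Finset.mem_filter]
  tauto

/-- **the second moment argument** -/
theorem Cfg2.exists_linked (h : Cfg2 S R) {s : G} {k : ℕ} (hk : 0 < k)
    (hall : ∀ u ∈ Subgroup.closure S, fx Y (s * u) = k) :
    ∃ z z' : Y, ¬ R z z' ∧ Kr h z = Kr h z' := by
  classical
  by_contra hno
  push Not at hno
  set c : ℝ := (#(elts (Subgroup.closure S)) : ℝ) with hc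
  have hc0 : 0 < c := by
    rw [hc]
    exact_mod_cast elts_pos (Subgroup.closure S)
  -- first moment
  have e1 : (k : ℝ) * c = ∑ z : Y, wt2 R z * (if R z (s • z) then c else 0) := by
    have a1 : ∑ x : Y, NN (Subgroup.closure S) s x = #(elts (Subgroup.closure S)) * k := by
      rw [← sum_fx, Finset.sum_congr rfl fun u hu => hall u (mem_elts.1 hu), Finset.sum_const, smul_eq_mul]
    have a2 : ∑ x : Y, (NN (Subgroup.closure S) s x : ℝ) = c * k := by
      rw [hc]; exact_mod_cast a1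
    rw [mul_comm, ← a2, h.sum_wt]
    refine Finset.sum_congr rfl fun z _ => ?_
    congr 1
    split_ifs with hz
    · rw [hc, ← h.sum_one hz]; push_cast; rfl
    · apply Finset.sum_eq_zero
      intro x hx
      rw [mem_blk] at hx
      unfold NN
      rw [Nat.cast_eq_zero, Finset.card_eq_zero, Finset.filter_eq_empty_iff]
      intro u hu
      exact h.zero hz hx (mem_elts.1 hu)
  have e1' : (k : ℝ) = ∑ z : Y, wt2 R z * (if R z (s • z) then 1 else 0) := by
    have : (k : ℝ) * c = (∑ z : Y, wt2 R z * (if R z (s • z) then 1 else 0)) * c := by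
      rw [e1, Finset.sum_mul]
      refine Finset.sum_congr rfl fun z _ => ?_
      split_ifs <;> ring
    exact mul_right_cancel₀ hc0.ne' this
  -- second moment
  have e2 : (k : ℝ) ^ 2 * c = ∑ z : Y, ∑ z' : Y, wt2 R z * wt2 R z' *
      ((if R z (s • z) then 1 else 0) * (if R z' (s • z') then 1 else 0) *
        (c + if R z z' then c else 0)) := by
    have a1 : ∑ x : Y, ∑ y : Y, N2 (Subgroup.closure S) s x y = #(elts (Subgroup.closure S)) * k ^ 2 := by
      rw [← sum_fx_sq, Finset.sum_congr rfl fun u hu => by rw [hall u (mem_elts.1 hu)], Finset.sum_const,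
        smul_eq_mul]
    have a2 : ∑ x : Y, ∑ y : Y, (N2 (Subgroup.closure S) s x y : ℝ) = c * k ^ 2 := by
      rw [hc]; exact_mod_cast a1
    rw [mul_comm, ← a2, h.sum_wt2]
    refine Finset.sum_congr rfl fun z _ => Finset.sum_congr rfl fun z' _ => ?_
    congr 1
    by_cases hz : R z (s • z)
    · by_cases hz' : R z' (s • z')
      · rw [if_pos hz, if_pos hz', one_mul, one_mul]
        by_cases hzz : R z z'
        · rw [if_pos hzz]
          have := h.sum_same hz hzz
          have a3 : (∑ x ∈ blk R z, ∑ y ∈ blk R z', (N2 (Subgroup.closure S) s x y : ℝ)) = 2 * c := by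
            rw [hc]; exact_mod_cast this
          rw [a3]; ring
        · rw [if_neg hzz, add_zero]
          have hne := hno z z' hzz
          have : ∑ x ∈ blk R z, ∑ y ∈ blk R z', N2 (Subgroup.closure S) s x y =
              #(elts (Subgroup.closure S)) := by
            by_cases hle : Kr h z ≤ Kr h z'
            · have hle' : ¬ Kr h z' ≤ Kr h z := fun h2 => hne (le_antisymm hle h2)
              rw [Finset.sum_comm, ← h.sum_diff hz' hz hle']
              refine Finset.sum_congr rfl fun x _ => Finset.sum_congr rfl fun y _ => ?_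
              exact N2_comm _ _ _ _
            · exact h.sum_diff hz hz' hle
          rw [hc]; exact_mod_cast this
      · rw [if_neg hz', mul_zero, zero_mul]
        apply Finset.sum_eq_zero
        intro x _
        apply Finset.sum_eq_zero
        intro y hy
        rw [mem_blk] at hy
        unfold N2
        rw [Nat.cast_eq_zero, Finset.card_eq_zero, Finset.filter_eq_empty_iff]
        intro u hu h2
        exact h.zero hz' hy (mem_elts.1 hu) h2.2
    · rw [if_neg hz, zero_mul, zero_mul]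
      apply Finset.sum_eq_zero
      intro x hx
      apply Finset.sum_eq_zero
      intro y _
      rw [mem_blk] at hx
      unfold N2
      rw [Nat.cast_eq_zero, Finset.card_eq_zero, Finset.filter_eq_empty_iff]
      intro u hu h2
      exact h.zero hz hx (mem_elts.1 hu) h2.1
  have e3 : ∑ z : Y, ∑ z' : Y, wt2 R z * wt2 R z' *
      ((if R z (s • z) then 1 else 0) * (if R z' (s • z') then 1 else 0) *
        (c + if R z z' then c else 0)) = c * (k : ℝ) ^ 2 + c * k := by
    have a1 : ∀ z : Y, ∑ z' : Y, wt2 R z * wt2 R z' *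
        ((if R z (s • z) then 1 else 0) * (if R z' (s • z') then 1 else 0) *
        (c + if R z z' then c else 0)) =
        c * (wt2 R z * (if R z (s • z) then 1 else 0)) * k + c * (wt2 R z * (if R z (s • z) then 1 else 0)) := by
      intro z
      have a2 : ∀ z' : Y, wt2 R z * wt2 R z' *
          ((if R z (s • z) then 1 else 0) * (if R z' (s • z') then 1 else 0) *
          (c + if R z z' then c else 0)) =
          c * (wt2 R z * (if R z (s • z) then 1 else 0)) * (wt2 R z' * (if R z' (s • z') then 1 else 0)) +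
          c * (wt2 R z * (if R z (s • z) then 1 else 0)) * (if R z z' then wt2 R z else 0) := by
        intro z'
        by_cases hz : R z (s • z)
        · by_cases hzz : R z z'
          · have hz' : R z' (s • z') :=
              h.eqv.trans (h.eqv.symm hzz) (h.eqv.trans hz (h.inv s _ _ hzz))
            have hw : wt2 R z' = wt2 R z := by unfold wt2; rw [h.blk_congr hzz]
            rw [if_pos hz, if_pos hz', if_pos hzz, if_pos hzz, hw]; ring
          · rw [if_neg hzz, if_neg hzz]; ring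
        · rw [if_neg hz]; ring
      rw [Finset.sum_congr rfl fun z' _ => a2 z', Finset.sum_add_distrib, ← Finset.mul_sum, ← e1',
        ← Finset.mul_sum]
      congr 1
      have a3 : ∑ z' : Y, (if R z z' then wt2 R z else 0) = 1 := by
        rw [← Finset.sum_filter, Finset.sum_const, nsmul_eq_mul]
        have h3 : #((univ : Finset Y).filter fun z' => R z z') = #(blk R z) := rfl
        rw [h3]
        unfold wt2
        have h4 : (#(blk R z) : ℝ) ≠ 0 := by
          have := h.card_blk z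
          have h5 : (0 : ℝ) < #(blk R z) := by exact_mod_cast (by omega : 0 < #(blk R z))
          exact h5.ne'
        field_simp
      rw [a3, mul_one]
    rw [Finset.sum_congr rfl fun z _ => a1 z, Finset.sum_add_distrib]
    have a4 : ∑ z : Y, c * (wt2 R z * (if R z (s • z) then 1 else 0)) = c * k := by
      rw [← Finset.mul_sum, ← e1']
    rw [← Finset.sum_mul, a4]
    ring
  rw [e3] at e2
  have hk0 : (0 : ℝ) < k := by exact_mod_cast hk
  nlinarith [mul_pos hc0 hk0]

end fin2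

theorem exists_lt2_fin {G Y Y' Y'' : Type*} [Group G] [MulAction G Y] [MulAction G Y'] [Fintype G] [Fintype Y]
    [Fintype Y'] (π : Y → Y')
    (hπ : ∀ (g : G) (z : Y), π (g • z) = g • π z) (hsurj : Function.Surjective π) (K : Subgroup G)
    (hK : ∀ u ∈ K, ∀ y : Y', u • y = y) (hKt : ∀ z z' : Y, π z = π z' → ∃ u ∈ K, u • z = z') {S : Set G}
    (hSK : ∀ u ∈ S, u ∈ K) {R : Y → Y → Prop} (h : Cfg2 S R)
    (ρ : Y' → Y'') (h5 : ∀ u ∈ S, ∀ z z' : Y, ρ (π z) = ρ (π z') → u • z ≠ z → u • z' ≠ z' → z' = z ∨ z' = u • z)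
    (hsib : ∀ E : Y' → Y' → Prop, Equivalence E → (∀ (g : G) (y y' : Y'), E y y' → E (g • y) (g • y')) →
      (∃ y y' : Y', y ≠ y' ∧ E y y') → ∃ y y' : Y', y ≠ y' ∧ E y y' ∧ ρ y = ρ y')
    (s : G) (hs : 0 < fx Y' s) : ∃ u ∈ K, fx Y (s * u) < fx Y' s := by
  classical
  by_contra hno
  push Not at hno
  have hsum := sum_fx_eq π hπ hsurj K hK hKt s
  have hall : ∀ u ∈ K, fx Y (s * u) = fx Y' s := by
    intro u hu
    have h1 : ∑ u ∈ elts K, fx Y' s = ∑ u ∈ elts K, fx Y (s * u) := by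
      rw [hsum, Finset.sum_const, smul_eq_mul]
    exact ((Finset.sum_eq_sum_iff_of_le fun u hu => hno u (mem_elts.1 hu)).1 h1 u
      (mem_elts.2 hu)).symm
  have hCK : Subgroup.closure S ≤ K := (Subgroup.closure_le K).2 hSK
  obtain ⟨z, z', hzz, hkr⟩ := h.exists_linked hs fun u hu => hall u (hCK hu)
  have hRπ : ∀ x y : Y, R x y → π x = π y := by
    intro x y hxy
    by_cases hne : x = y
    · rw [hne]
    · obtain ⟨u, hu, hux⟩ := h.ex x y hxy hne
      rw [← hux, hπ, hK u (hSK u hu)]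
  -- the key
  have key : ∀ x x' : Y, ¬ R x x' → Kr h x = Kr h x' → ρ (π x) ≠ ρ (π x') := by
    intro x x' hxx hk he
    obtain ⟨a, hxa, hax⟩ := h.other x
    obtain ⟨u, hu, hux⟩ := h.ex x a hxa (Ne.symm hax)
    have hnot : u ∉ Kr h x' := by
      rw [← hk]
      intro h1
      have := h1.2 x (h.eqv.refl x)
      rw [hux] at this
      exact hax this
    have : ∃ y, R x' y ∧ u • y ≠ y := by
      by_contra hn
      push Not at hn
      exact hnot ⟨Subgroup.subset_closure hu, hn⟩
    obtain ⟨y, hy, huy⟩ := this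
    have h6 : ρ (π x) = ρ (π y) := by rw [he, hRπ _ _ hy]
    rcases h5 u hu x y h6 (by rw [hux]; exact hax) huy with h7 | h7
    · apply hxx
      rw [h7] at hy
      exact h.eqv.symm hy
    · apply hxx
      rw [h7, hux] at hy
      exact h.eqv.trans hxa (h.eqv.symm hy)
  -- the equivalence relation
  let E : Y' → Y' → Prop := fun y y' => ∃ x x' : Y, π x = y ∧ π x' = y' ∧ Kr h x = Kr h x'
  have hE : Equivalence E := by
    refine ⟨fun y => ?_, ?_, ?_⟩
    · obtain ⟨x, hx⟩ := hsurj y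
      exact ⟨x, x, hx, hx, rfl⟩
    · rintro y y' ⟨x, x', hx, hx', hk⟩
      exact ⟨x', x, hx', hx, hk.symm⟩
    · rintro y y' y'' ⟨x1, x1', hx1, hx1', hk1⟩ ⟨x2', x2'', hx2', hx2'', hk2⟩
      obtain ⟨u, hu, hux⟩ := hKt x1' x2' (hx1'.trans hx2'.symm)
      refine ⟨u • x1, x2'', ?_, hx2'', ?_⟩
      · rw [hπ, hx1, hK u hu]
      · rw [Kr_smul_congr h u hk1, hux, hk2]
  have hEG : ∀ (g : G) (y y' : Y'), E y y' → E (g • y) (g • y') := by
    rintro g y y' ⟨x, x', hx, hx', hk⟩
    exact ⟨g • x, g • x', by rw [hπ, hx], by rw [hπ, hx'], Kr_smul_congr h g hk⟩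
  have hne : ∃ y y' : Y', y ≠ y' ∧ E y y' := by
    refine ⟨π z, π z', fun h1 => key z z' hzz hkr (by rw [h1]), z, z', rfl, rfl, hkr⟩
  obtain ⟨y, y', hyy, ⟨x, x', hx, hx', hk⟩, hρ⟩ := hsib E hE hEG hne
  refine key x x' (fun h1 => hyy ?_) hk (by rw [hx, hx', hρ])
  rw [← hx, ← hx', hRπ _ _ h1]

/-- **E3** (finite permutation groups: if no invariant equivalence relation on `Y'` avoids the fibres of `ρ` then the
number of fixed points can be decreased) -/
theorem exists_lt2 {G Y Y' Y'' : Type*} [Group G] [MulAction G Y] [MulAction G Y'] [Finite Y] [Finite Y'] (π : Y → Y')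
    (hπ : ∀ (g : G) (z : Y), π (g • z) = g • π z) (hsurj : Function.Surjective π) (K : Subgroup G)
    (hK : ∀ u ∈ K, ∀ y : Y', u • y = y) (hKt : ∀ z z' : Y, π z = π z' → ∃ u ∈ K, u • z = z') (S : Set G)
    (hSK : ∀ u ∈ S, u ∈ K) (hS : ∀ g : G, ∀ u ∈ S, g * u * g⁻¹ ∈ S) (R : Y → Y → Prop) (hR : Equivalence R)
    (hRG : ∀ (g : G) (z z' : Y), R z z' → R (g • z) (g • z')) (h1 : ∀ u ∈ S, ∀ z : Y, R z (u • z))
    (h3 : ∀ z z' : Y, R z z' → z ≠ z' → ∃ u ∈ S, u • z = z') (h4 : ∀ z : Y, 2 ≤ {z' : Y | R z z'}.ncard)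
    (ρ : Y' → Y'') (h5 : ∀ u ∈ S, ∀ z z' : Y, ρ (π z) = ρ (π z') → u • z ≠ z → u • z' ≠ z' → z' = z ∨ z' = u • z)
    (hsib : ∀ E : Y' → Y' → Prop, Equivalence E → (∀ (g : G) (y y' : Y'), E y y' → E (g • y) (g • y')) →
      (∃ y y' : Y', y ≠ y' ∧ E y y') → ∃ y y' : Y', y ≠ y' ∧ E y y' ∧ ρ y = ρ y')
    (s : G) (hs : ∃ y : Y', s • y = y) : ∃ u ∈ K, {z : Y | (s * u) • z = z}.ncard < {y : Y' | s • y = y}.ncard := by
  classical
  cases nonempty_fintype Y
  cases nonempty_fintype Y'
  let φ : G →* Equiv.Perm Y × Equiv.Perm Y' := (MulAction.toPermHom G Y).prod (MulAction.toPermHom G Y')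
  let _ : Fintype φ.range := Fintype.ofFinite _
  let a1 : MulAction φ.range Y := MulAction.compHom Y ((MonoidHom.fst _ _).comp φ.range.subtype)
  let a2 : MulAction φ.range Y' := MulAction.compHom Y' ((MonoidHom.snd _ _).comp φ.range.subtype)
  have e1 : ∀ (g : G) (z : Y), φ.rangeRestrict g • z = g • z := fun g z => rfl
  have e2 : ∀ (g : G) (z : Y'), φ.rangeRestrict g • z = g • z := fun g z => rfl
  have hsur : Function.Surjective φ.rangeRestrict := φ.rangeRestrict_surjective
  have hRπ : ∀ x y : Y, R x y → π x = π y := by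
    intro x y hxy
    by_cases hne : x = y
    · rw [hne]
    · obtain ⟨u, hu, hux⟩ := h3 x y hxy hne
      rw [← hux, hπ, hK u (hSK u hu)]
  have hcfg : Cfg2 (φ.rangeRestrict '' S) R := by
    refine ⟨?_, hR, ?_, ?_, ?_, ?_, h4⟩
    · rintro g _ ⟨u, hu, rfl⟩
      obtain ⟨g, rfl⟩ := hsur g
      exact ⟨g * u * g⁻¹, hS g u hu, by rw [map_mul, map_mul, map_inv]⟩
    · intro g z z' hz
      obtain ⟨g, rfl⟩ := hsur g
      rw [e1, e1]; exact hRG g z z' hz
    · rintro _ ⟨u, hu, rfl⟩ z
      rw [e1]; exact h1 u hu z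
    · rintro _ ⟨u, hu, rfl⟩ z z' hz hz1 hz2
      rw [e1] at hz1 hz2 ⊢
      exact h5 u hu z z' (by rw [hRπ _ _ hz]) hz1 hz2
    · intro z z' hz hne
      obtain ⟨u, hu, huz⟩ := h3 z z' hz hne
      exact ⟨φ.rangeRestrict u, ⟨u, hu, rfl⟩, by rw [e1]; exact huz⟩
  have hpos : 0 < fx Y' (φ.rangeRestrict s) := by
    obtain ⟨y, hy⟩ := hs
    unfold fx
    refine Finset.card_pos.2 ⟨y, ?_⟩
    rw [Finset.mem_filter, e2]
    exact ⟨Finset.mem_univ _, hy⟩
  obtain ⟨u, hu, h⟩ := exists_lt2_fin (G := φ.range) π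
    (fun g z => by obtain ⟨g, rfl⟩ := hsur g; rw [e1, e2]; exact hπ g z) hsurj
    (K.map φ.rangeRestrict)
    (fun u hu y => by
      obtain ⟨v, hv, rfl⟩ := Subgroup.mem_map.1 hu
      rw [e2]; exact hK v hv y)
    (fun z z' hz => by
      obtain ⟨u, hu, huz⟩ := hKt z z' hz
      exact ⟨φ.rangeRestrict u, Subgroup.mem_map_of_mem _ hu, by rw [e1]; exact huz⟩)
    (fun u hu => by
      obtain ⟨u, hu, rfl⟩ := hu
      exact Subgroup.mem_map_of_mem _ (hSK u hu))
    hcfg ρ
    (by
      rintro _ ⟨u, hu, rfl⟩ z z' hz hz1 hz2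
      rw [e1] at hz1 hz2 ⊢
      exact h5 u hu z z' hz hz1 hz2)
    (fun E hE hEG hne => hsib E hE (fun g y y' hy => by
      have := hEG (φ.rangeRestrict g) y y' hy
      rwa [e2, e2] at this) hne)
    (φ.rangeRestrict s) hpos
  obtain ⟨v, hv, rfl⟩ := Subgroup.mem_map.1 hu
  refine ⟨v, hv, ?_⟩
  rw [fx_eq_ncard, fx_eq_ncard, ← map_mul] at h
  exact h

end Pool.Agent.ORB.GP
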