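import Pool.Agent.ORB.EDefs
import Pool.Agent.ORB.TEngine
import Pool.Agent.ORB.EPerm
import Pool.Agent.ORB.ECyc

/-!
ORB, Theorem V5 (all degrees), row E5: the engine.
-/

set_option autoImplicit false

namespace Pool.Agent.ORB.GP

open Polynomial NI NumberField IsDedekindDomain

universe u

section Lev
variable {F W : Type u} [Field F] [Field W] [Algebra F W]

/-- the classes of the swaps; the swap property holds for points with the same second image -/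
theorem swap_classes2 [IsAlgClosed W] [Algebra.IsAlgebraic F W] (h : F[X]) (hd : 2 ≤ h.natDegree) (r : W)
    (htr : ∀ (l : ℕ) (y y' : W), (ev h)^[l] y = r → (ev h)^[l] y' = r → ∃ g : W ≃ₐ[F] W, g r = r ∧ g y = y')
    (T' : Set W) (hstab : ∀ (g : W ≃ₐ[F] W), ∀ t ∈ T', g t ∈ T') (A : W ≃ₐ[F] W) (l : ℕ)
    (hAT : ∀ t ∈ T', A t = t) (hAr : A r = r) (hAk : ∀ k, k ≤ l → ∀ z : W, (ev h)^[k] z = r → A z = z)
    (hAz : ∃ z : W, (ev h)^[l + 1] z = r ∧ A z ≠ z)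
    (hAs : ∀ z z' : W, (ev h)^[l + 1] z = r → (ev h)^[l + 1] z' = r → (ev h)^[2] z = (ev h)^[2] z' → A z ≠ z →
      A z' ≠ z' → z' = z ∨ z' = A z) :
    ∃ (S : Set (StG F r)) (R : Lv h r (l + 1) → Lv h r (l + 1) → Prop) (m : ℕ),
      (∀ u ∈ S, (∀ t ∈ T', (u : W ≃ₐ[F] W) t = t) ∧
        ∀ k, k ≤ l → ∀ z : W, (ev h)^[k] z = r → (u : W ≃ₐ[F] W) z = z) ∧
      (∀ g : StG F r, ∀ u ∈ S, g * u * g⁻¹ ∈ S) ∧ Equivalence R ∧
      (∀ (g : StG F r) (z z' : Lv h r (l + 1)), R z z' → R (g • z) (g • z')) ∧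
      (∀ u ∈ S, ∀ z : Lv h r (l + 1), R z (u • z)) ∧
      (∀ u ∈ S, ∀ z z' : Lv h r (l + 1), ev h (ev h z.1) = ev h (ev h z'.1) → u • z ≠ z → u • z' ≠ z' →
        z' = z ∨ z' = u • z) ∧
      (∀ z z' : Lv h r (l + 1), R z z' → z ≠ z' → ∃ u ∈ S, u • z = z') ∧
      (∀ z : Lv h r (l + 1), {z' : Lv h r (l + 1) | R z z'}.ncard = m) ∧ 2 ≤ m := by
  classical
  have hd1 : 1 ≤ h.natDegree := by omega
  obtain ⟨z₀, hz₀, hz₀A⟩ := hAz
  have hG : ∀ g : StG F r, (g : W ≃ₐ[F] W) r = r := fun g => g.2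
  have hYf : Finite (Lv h r (l + 1)) := Lv.finite h hd1 r (l + 1)
  have hlev : ∀ (g : W ≃ₐ[F] W), g r = r → ∀ (k : ℕ) (z : W), (ev h)^[k] z = r → (ev h)^[k] (g z) = r :=
    fun g hg k z hz => lev_aut h g hg k z hz
  have hsmul : ∀ (g : StG F r) (z : Lv h r (l + 1)), ((g • z : Lv h r (l + 1)) : W) = (g : W ≃ₐ[F] W) (z : W) :=
    fun _ _ => rfl
  have hinv : ∀ (g : W ≃ₐ[F] W) (x : W), g (g⁻¹ x) = x := fun g x => g.apply_symm_apply x
  have hinv' : ∀ (g : W ≃ₐ[F] W) (x : W), g⁻¹ (g x) = x := fun g x => g.symm_apply_apply x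
  -- the swaps
  let S : Set (StG F r) := {u | (∀ t ∈ T', (u : W ≃ₐ[F] W) t = t) ∧
    (∀ k, k ≤ l → ∀ z : W, (ev h)^[k] z = r → (u : W ≃ₐ[F] W) z = z) ∧
    ∀ z z' : W, (ev h)^[l + 1] z = r → (ev h)^[l + 1] z' = r → ev h (ev h z) = ev h (ev h z') →
      (u : W ≃ₐ[F] W) z ≠ z → (u : W ≃ₐ[F] W) z' ≠ z' → z' = z ∨ z' = (u : W ≃ₐ[F] W) z}
  have hev : ∀ (g : W ≃ₐ[F] W) (z : W), g (ev h z) = ev h (g z) := fun g z => evW_aut h g z 1
  have hSconj : ∀ g : StG F r, ∀ u ∈ S, g * u * g⁻¹ ∈ S := by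
    rintro g u ⟨h1, h2, h3⟩
    have happ : ∀ x : W, ((g * u * g⁻¹ : StG F r) : W ≃ₐ[F] W) x =
        (g : W ≃ₐ[F] W) ((u : W ≃ₐ[F] W) ((g : W ≃ₐ[F] W)⁻¹ x)) := fun x => rfl
    have hgi : (g : W ≃ₐ[F] W)⁻¹ r = r := by
      have := hinv' (g : W ≃ₐ[F] W) r
      rwa [hG g] at this
    refine ⟨fun t ht => ?_, fun k hk z hz => ?_, fun z z' hz hz' hzz hz1 hz2 => ?_⟩
    · rw [happ, h1 _ (hstab _ t ht), hinv]
    · rw [happ, h2 k hk _ (hlev _ hgi k z hz), hinv]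
    · rw [happ] at hz1 hz2 ⊢
      have e1 : (u : W ≃ₐ[F] W) ((g : W ≃ₐ[F] W)⁻¹ z) ≠ (g : W ≃ₐ[F] W)⁻¹ z := by
        intro he
        rw [he, hinv] at hz1
        exact hz1 rfl
      have e2 : (u : W ≃ₐ[F] W) ((g : W ≃ₐ[F] W)⁻¹ z') ≠ (g : W ≃ₐ[F] W)⁻¹ z' := by
        intro he
        rw [he, hinv] at hz2
        exact hz2 rfl
      rcases h3 _ _ (hlev _ hgi (l + 1) z hz) (hlev _ hgi (l + 1) z' hz')
        (by rw [← hev, ← hev, ← hev, ← hev, hzz]) e1 e2 with e | e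
      · left
        have := congrArg (g : W ≃ₐ[F] W) e
        rwa [hinv, hinv] at this
      · right
        have := congrArg (g : W ≃ₐ[F] W) e
        rwa [hinv] at this
  -- basic facts on the swaps
  have hSh : ∀ u ∈ S, ∀ z : W, (ev h)^[l + 1] z = r → ev h ((u : W ≃ₐ[F] W) z) = ev h z := by
    rintro u ⟨-, h2, -⟩ z hz
    rw [← hev]
    refine h2 l le_rfl _ ?_
    rw [← Function.iterate_succ_apply]
    exact hz
  have hSS : ∀ u ∈ S, ∀ z : W, (ev h)^[l + 1] z = r → (u : W ≃ₐ[F] W) z ≠ z →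
      (u : W ≃ₐ[F] W) ((u : W ≃ₐ[F] W) z) = z := by
    intro u hu z hz hne
    have h1 : (u : W ≃ₐ[F] W) ((u : W ≃ₐ[F] W) z) ≠ (u : W ≃ₐ[F] W) z := fun he =>
      hne ((u : W ≃ₐ[F] W).injective he)
    rcases hu.2.2 _ z (hlev _ (hG u) (l + 1) z hz) hz (by rw [hSh u hu z hz]) h1 hne with e | e
    · exact absurd e.symm hne
    · exact e.symm
  -- the equivalence
  let R : Lv h r (l + 1) → Lv h r (l + 1) → Prop := fun z z' => z = z' ∨ ∃ u ∈ S, u • z = z'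
  have hRval : ∀ z z' : Lv h r (l + 1), R z z' → ev h z.1 = ev h z'.1 := by
    rintro z z' (rfl | ⟨u, hu, rfl⟩)
    · rfl
    · exact (hSh u hu z.1 z.2).symm
  have hR : Equivalence R := by
    refine ⟨fun z => Or.inl rfl, ?_, ?_⟩
    · rintro z z' (rfl | ⟨u, hu, rfl⟩)
      · exact Or.inl rfl
      · by_cases hne : (u : W ≃ₐ[F] W) z.1 = z.1
        · left
          exact Subtype.ext hne
        · right
          exact ⟨u, hu, Subtype.ext (hSS u hu z.1 z.2 hne)⟩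
    · rintro z z' z'' (rfl | ⟨u, hu, rfl⟩) (rfl | ⟨u', hu', rfl⟩)
      · exact Or.inl rfl
      · exact Or.inr ⟨u', hu', rfl⟩
      · exact Or.inr ⟨u, hu, rfl⟩
      · by_cases e1 : (u : W ≃ₐ[F] W) z.1 = z.1
        · right
          exact ⟨u', hu', Subtype.ext (by rw [hsmul, hsmul, hsmul, e1])⟩
        by_cases e2 : (u' : W ≃ₐ[F] W) ((u : W ≃ₐ[F] W) z.1) = (u : W ≃ₐ[F] W) z.1
        · right
          exact ⟨u, hu, Subtype.ext (by rw [hsmul, hsmul, hsmul, e2])⟩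
        by_cases e3 : (u' : W ≃ₐ[F] W) ((u : W ≃ₐ[F] W) z.1) = z.1
        · left
          exact Subtype.ext (by rw [hsmul, hsmul, e3])
        -- three different points
        right
        set a := (z : W) with ha
        set b := (u : W ≃ₐ[F] W) a with hb
        set c := (u' : W ≃ₐ[F] W) b with hc
        have hbY : (ev h)^[l + 1] b = r := hlev _ (hG u) (l + 1) a z.2
        have hcY : (ev h)^[l + 1] c = r := hlev _ (hG u') (l + 1) b hbY
        have hub : (u : W ≃ₐ[F] W) b = a := hSS u hu a z.2 e1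
        have huc : (u : W ≃ₐ[F] W) c = c := by
          by_contra hne
          have h1 : ev h a = ev h c := by
            rw [hc, hSh u' hu' b hbY, hb, hSh u hu a z.2]
          rcases hu.2.2 a c z.2 hcY (by rw [h1]) e1 hne with e | e
          · exact e3 e
          · exact e2 e
        refine ⟨u⁻¹ * u' * (u⁻¹)⁻¹, hSconj u⁻¹ u' hu', Subtype.ext ?_⟩
        rw [hsmul, hsmul, hsmul]
        show (u : W ≃ₐ[F] W)⁻¹ ((u' : W ≃ₐ[F] W) (((u : W ≃ₐ[F] W)⁻¹)⁻¹ a)) = c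
        rw [inv_inv, ← hb, ← hc]
        conv_lhs => rw [← huc]
        exact hinv' _ _
  have hRG : ∀ (g : StG F r) (z z' : Lv h r (l + 1)), R z z' → R (g • z) (g • z') := by
    rintro g z z' (rfl | ⟨u, hu, rfl⟩)
    · exact Or.inl rfl
    · right
      refine ⟨g * u * g⁻¹, hSconj g u hu, ?_⟩
      rw [smul_smul, inv_mul_cancel_right, mul_smul]
  -- the size of the classes
  have hcls : ∀ z z' : Lv h r (l + 1), {x | R z x}.ncard = {x | R z' x}.ncard := by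
    intro z z'
    obtain ⟨g, hg1, hg2⟩ := htr (l + 1) z.1 z'.1 z.2 z'.2
    let g' : StG F r := ⟨g, hg1⟩
    have hgz : g' • z = z' := Subtype.ext hg2
    have himg : {x | R z' x} = (fun x => g' • x) '' {x | R z x} := by
      ext x
      constructor
      · intro hx
        refine ⟨g'⁻¹ • x, ?_, smul_inv_smul g' x⟩
        have h1 := hRG g'⁻¹ z' x hx
        rw [← hgz, inv_smul_smul] at h1
        exact h1
      · rintro ⟨y, hy, rfl⟩
        have h1 := hRG g' z y hy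
        rwa [hgz] at h1
    rw [himg, Set.ncard_image_of_injective _ (MulAction.injective g')]
  have hAG : A ∈ StG F r := hAr
  have hAS : (⟨A, hAG⟩ : StG F r) ∈ S := ⟨hAT, hAk, fun z z' hz hz' hzz => hAs z z' hz hz' hzz⟩
  have htwo : ∀ z : Lv h r (l + 1), 2 ≤ {x | R z x}.ncard := by
    intro z
    rw [hcls z ⟨z₀, hz₀⟩]
    have hsub : ({⟨z₀, hz₀⟩, (⟨A, hAG⟩ : StG F r) • (⟨z₀, hz₀⟩ : Lv h r (l + 1))} : Set (Lv h r (l + 1))) ⊆
        {x | R ⟨z₀, hz₀⟩ x} := by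
      rintro x (rfl | hx)
      · exact Or.inl rfl
      · exact Or.inr ⟨_, hAS, (Set.mem_singleton_iff.1 hx).symm⟩
    refine le_trans ?_ (Set.ncard_le_ncard hsub (Set.toFinite _))
    rw [Set.ncard_pair]
    intro he
    exact hz₀A (congrArg Subtype.val he).symm
  refine ⟨S, R, {x | R ⟨z₀, hz₀⟩ x}.ncard, fun u hu => ⟨hu.1, hu.2.1⟩, hSconj, hR, hRG,
    fun u hu z => Or.inr ⟨u, hu, rfl⟩, fun u hu z z' hzz h1 h2 => ?_, fun z z' hzz hne => hzz.resolve_left hne,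
    fun z => hcls z _, htwo _⟩
  have e1 : (u : W ≃ₐ[F] W) z.1 ≠ z.1 := fun he => h1 (Subtype.ext he)
  have e2 : (u : W ≃ₐ[F] W) z'.1 ≠ z'.1 := fun he => h2 (Subtype.ext he)
  rcases hu.2.2 z.1 z'.1 z.2 z'.2 hzz e1 e2 with e | e
  · exact Or.inl (Subtype.ext e)
  · exact Or.inr (Subtype.ext e)

end Lev

/-- row E4 in the form for `exists_lt2`, all levels -/
theorem sib_ev {F W : Type u} [Field F] [CharZero F] [Field W] [Algebra F W] [IsAlgClosed W] (h : F[X])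
    (hd : 2 ≤ h.natDegree) (r : W) (hav : ∀ c : W, Crit h c → ∀ n, (ev h)^[n] c ≠ r) (hcyc : Cyc h r) (l : ℕ)
    (E : Lv h r l → Lv h r l → Prop) (hE : Equivalence E)
    (hEG : ∀ (g : StG F r) (y y' : Lv h r l), E y y' → E (g • y) (g • y'))
    (hne : ∃ y y' : Lv h r l, y ≠ y' ∧ E y y') :
    ∃ y y' : Lv h r l, y ≠ y' ∧ E y y' ∧ ev h y.1 = ev h y'.1 := by
  cases l with
  | zero =>
    obtain ⟨y, y', hyy, -⟩ := hne
    exact absurd (Subtype.ext (y.2.trans y'.2.symm)) hyy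
  | succ l =>
    obtain ⟨y, y', h1, h2, h3⟩ := sib_of_cyc h hd r hav hcyc l E hE hEG hne
    exact ⟨y, y', h1, h2, congrArg Subtype.val h3⟩

/-- the statement of row E2 for one field -/
def FreshStat (F W : Type u) [Field F] [NumberField F] [Field W] [Algebra F W] [IsAlgClosed W]
    [Algebra.IsAlgebraic F W] : Prop :=
  ∀ (h : F[X]) (_ : 2 ≤ h.natDegree) (_ : CritCond2 h W)
    (r : W) (_ : ∀ n, 1 ≤ n → (ev h)^[n] r ≠ r) (_ : ∀ c : W, Crit h c → ∀ n, (ev h)^[n] c ≠ r)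
    (T : Set W) (_ : T.Finite),
    ∃ (A : W ≃ₐ[F] W) (l : ℕ), (∀ t ∈ T, A t = t) ∧ A r = r ∧ (∀ k, k ≤ l → ∀ z : W, (ev h)^[k] z = r → A z = z) ∧
      (∃ z : W, (ev h)^[l + 1] z = r ∧ A z ≠ z) ∧
      ∀ z z' : W, (ev h)^[l + 1] z = r → (ev h)^[l + 1] z' = r → (ev h)^[2] z = (ev h)^[2] z' → A z ≠ z →
        A z' ≠ z' → z' = z ∨ z' = A z

/-- **E5** (engine for all degrees), with E2 as a hypothesis -/
theorem engine_all_of {F W : Type u} [Field F] [NumberField F] [Field W] [Algebra F W] [IsAlgClosed W]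
    [Algebra.IsAlgebraic F W] (hfs : FreshStat F W) (h : F[X]) (hd : 2 ≤ h.natDegree) (hc : CritCond2 h W) (r : W)
    (hr : ∀ n, 1 ≤ n → (ev h)^[n] r ≠ r) (hav : ∀ c : W, Crit h c → ∀ n, (ev h)^[n] c ≠ r)
    (htr : ∀ (l : ℕ) (y y' : W), (ev h)^[l] y = r → (ev h)^[l] y' = r → ∃ g : W ≃ₐ[F] W, g r = r ∧ g y = y')
    (hFT : FT h r) (hcyc : Cyc h r) (T : Set W) (hT : T.Finite) (s₀ : W ≃ₐ[F] W) (hs₀ : s₀ r = r) :
    ∃ (N : ℕ) (s : W ≃ₐ[F] W), (∀ t ∈ T, s t = s₀ t) ∧ ∀ z : W, (ev h)^[N] z = r → s z ≠ z := by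
  classical
  have hd1 : 1 ≤ h.natDegree := by omega
  obtain ⟨T', hT', hTT', hstab⟩ := exists_stable (F := F) T hT
  obtain ⟨m₀, hm₀⟩ := hFT T' hT'
  have hinv' : ∀ (g : W ≃ₐ[F] W) (x : W), g⁻¹ (g x) = x := fun g x => g.symm_apply_apply x
  -- the group which fixes `T'` and the levels `≤ i`
  let K : ℕ → Subgroup (StG F r) := fun i =>
    { carrier := {u | (∀ t ∈ T', (u : W ≃ₐ[F] W) t = t) ∧
        ∀ k, k ≤ i → ∀ z : W, (ev h)^[k] z = r → (u : W ≃ₐ[F] W) z = z}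
      mul_mem' := by
        rintro a b ⟨ha1, ha2⟩ ⟨hb1, hb2⟩
        refine ⟨fun t ht => ?_, fun k hk z hz => ?_⟩
        · show (a : W ≃ₐ[F] W) ((b : W ≃ₐ[F] W) t) = t
          rw [hb1 t ht, ha1 t ht]
        · show (a : W ≃ₐ[F] W) ((b : W ≃ₐ[F] W) z) = z
          rw [hb2 k hk z hz, ha2 k hk z hz]
      one_mem' := ⟨fun _ _ => rfl, fun _ _ _ _ => rfl⟩
      inv_mem' := by
        rintro a ⟨ha1, ha2⟩
        refine ⟨fun t ht => ?_, fun k hk z hz => ?_⟩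
        · show (a : W ≃ₐ[F] W)⁻¹ t = t
          conv_lhs => rw [← ha1 t ht]
          exact hinv' _ _
        · show (a : W ≃ₐ[F] W)⁻¹ z = z
          conv_lhs => rw [← ha2 k hk z hz]
          exact hinv' _ _ }
  have hKfix : ∀ i, ∀ u ∈ K i, ∀ y : Lv h r i, u • y = y := fun i u hu y =>
    Subtype.ext (hu.2 i le_rfl y.1 y.2)
  have hKt : ∀ i, m₀ ≤ i → ∀ z z' : Lv h r (i + 1), Lv.down h r i z = Lv.down h r i z' → ∃ u ∈ K i, u • z = z' := by
    intro i hi z z' hzz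
    obtain ⟨g, hg1, hg2, hg3, hg4⟩ := hm₀ i hi z.1 z'.1 z.2 (congrArg Subtype.val hzz)
    exact ⟨⟨g, hg2⟩, ⟨hg1, hg3⟩, Subtype.ext hg4⟩
  have hdown : ∀ i (g : StG F r) (z : Lv h r (i + 1)), Lv.down h r i (g • z) = g • Lv.down h r i z :=
    fun i g z => Subtype.ext (ev_aut h g.1 z.1).symm
  have hsurj : ∀ i, Function.Surjective (Lv.down h r i) := by
    intro i y
    obtain ⟨z, hz⟩ := ev_surj h hd1 y.1
    refine ⟨⟨z, ?_⟩, Subtype.ext hz⟩
    rw [Function.iterate_succ_apply, hz]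
    exact y.2
  have hfin : ∀ i, Finite (Lv h r i) := fun i => Lv.finite h hd1 r i
  -- the number of fixed points
  let X : ℕ → StG F r → ℕ := fun n s => {z : Lv h r n | s • z = z}.ncard
  let P : StG F r → Prop := fun s => ∀ t ∈ T', (s : W ≃ₐ[F] W) t = s₀ t
  have hPmul : ∀ s : StG F r, P s → ∀ i, ∀ u ∈ K i, P (s * u) := by
    intro s hs i u hu t ht
    show (s : W ≃ₐ[F] W) ((u : W ≃ₐ[F] W) t) = s₀ t
    rw [hu.1 t ht, hs t ht]
  have hex : ∃ x : ℕ, ∃ n, m₀ ≤ n ∧ ∃ s : StG F r, P s ∧ X n s = x :=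
    ⟨_, m₀, le_rfl, ⟨s₀, hs₀⟩, fun _ _ => rfl, rfl⟩
  obtain ⟨n, hn, s, hs, hXs⟩ := Nat.find_spec hex
  have hmin : ∀ n, m₀ ≤ n → ∀ s : StG F r, P s → Nat.find hex ≤ X n s := fun n hn s hs =>
    Nat.find_min' hex ⟨n, hn, s, hs, rfl⟩
  rcases Nat.eq_zero_or_pos (Nat.find hex) with h0 | hpos
  · -- no fixed points
    rw [h0] at hXs
    have h1 : {z : Lv h r n | s • z = z} = ∅ := (Set.ncard_eq_zero (Set.toFinite _)).1 hXs
    refine ⟨n, s, fun t ht => hs t (hTT' ht), fun z hz hfix => ?_⟩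
    have h2 : (⟨z, hz⟩ : Lv h r n) ∈ {z : Lv h r n | s • z = z} := Subtype.ext hfix
    rw [h1] at h2
    exact h2
  -- a fresh swap
  obtain ⟨A, l, hAT, hAr, hAk, hAz, hAs⟩ := hfs h hd hc r hr hav (T' ∪ {z : W | (ev h)^[n] z = r})
    (hT'.union (fibre_finite' h hd1 n r))
  have hnl : n ≤ l := by
    by_contra hlt
    push Not at hlt
    obtain ⟨z, hz, hzA⟩ := hAz
    obtain ⟨x, hx⟩ := ev_iterate_surj h hd1 (n - (l + 1)) z
    apply hzA
    have h1 : (ev h)^[n] x = r := by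
      have h2 : n = (l + 1) + (n - (l + 1)) := by omega
      rw [h2, Function.iterate_add_apply, hx]
      exact hz
    have h3 : A x = x := hAT x (Or.inr h1)
    rw [← hx, evW_aut, h3]
  -- descend to the level `l`
  have hstep : ∀ i, n ≤ i → ∃ s₁ : StG F r, P s₁ ∧ X i s₁ ≤ Nat.find hex := by
    intro i hi
    induction i, hi using Nat.le_induction with
    | base => exact ⟨s, hs, hXs.le⟩
    | succ i hi ih =>
      obtain ⟨s₁, hs₁, hX₁⟩ := ih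
      obtain ⟨u, hu, hX₂⟩ := exists_le (Lv.down h r i) (hdown i) (hsurj i) (K i) (hKfix i) (hKt i (hn.trans hi)) s₁
      exact ⟨s₁ * u, hPmul s₁ hs₁ i u hu, hX₂.trans hX₁⟩
  obtain ⟨s₁, hs₁, hX₁⟩ := hstep l hnl
  have hfixed : ∃ y : Lv h r l, s₁ • y = y := by
    have h1 : 0 < X l s₁ := lt_of_lt_of_le hpos (hmin l (hn.trans hnl) s₁ hs₁)
    exact (Set.ncard_pos (Set.toFinite _)).1 h1
  obtain ⟨S, R, m, hS1, hS2, hR, hRG, h1, h2, h3, h4, hm2⟩ := swap_classes2 h hd r htr T' hstab A l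
    (fun t ht => hAT t (Or.inl ht)) hAr hAk hAz hAs
  -- the number of fixed points decreases
  exfalso
  obtain ⟨u, hu, hX₂⟩ := exists_lt2 (Lv.down h r l) (hdown l) (hsurj l) (K l) (hKfix l) (hKt l (hn.trans hnl)) S
    (fun u hu => hS1 u hu) hS2 R hR hRG h1 h3 (fun z => by rw [h4]; exact hm2) (fun y : Lv h r l => ev h y.1)
    (fun u hu z z' hzz => h2 u hu z z' hzz) (sib_ev h hd r hav hcyc l) s₁ hfixed
  have h5 := hmin (l + 1) (by omega) (s₁ * u) (hPmul s₁ hs₁ l u hu)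
  have h6 : X (l + 1) (s₁ * u) < X l s₁ := hX₂
  omega

end Pool.Agent.ORB.GP
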