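import Pool.Agent.ORB.TDefs

/-!
ORB, Theorem V5 (all degrees): definitions.
-/

set_option autoImplicit false

namespace Pool.Agent.ORB.GP

open Polynomial NI NumberField IsDedekindDomain

/-- the condition on the critical points with infinite orbit for arbitrary degrees: they are simple or have an odd
ramification index, at least one of them is simple, different simple ones have different second images, and the
image of a simple one is not critical -/
structure CritCond2 {K : Type*} [Field K] (h : K[X]) (Ω : Type*) [Field Ω] [Algebra K Ω] : Prop where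
  odd : ∀ c : Ω, Crit h c → Wand h c → Simp h c ∨
    Even (rootMultiplicity c ((derivative h).map (algebraMap K Ω)))
  ex : ∃ c : Ω, Simp h c ∧ Wand h c
  sep : ∀ c c' : Ω, Simp h c → Simp h c' → Wand h c → Wand h c' → ev h (ev h c) = ev h (ev h c') → c = c'
  ncr : ∀ c : Ω, Simp h c → Wand h c → ¬ Crit h (ev h c)

theorem CritCond2.critCond {K Ω : Type*} [Field K] [Field Ω] [Algebra K Ω] {h : K[X]} (hc : CritCond2 h Ω) :
    CritCond h Ω :=
  ⟨hc.odd, hc.ex, fun c c' h1 h2 h3 h4 h5 => hc.sep c c' h1 h2 h3 h4 (by rw [h5])⟩

/-- there is an automorphism which permutes the points of every level above `r` in one cycle -/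
def Cyc {F W : Type*} [Field F] [Field W] [Algebra F W] (h : F[X]) (r : W) : Prop :=
  ∃ g : W ≃ₐ[F] W, g r = r ∧ ∀ (n : ℕ) (z z' : W), (ev h)^[n] z = r → (ev h)^[n] z' = r → ∃ i : ℕ, (g ^ i) z = z'

end Pool.Agent.ORB.GP
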