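import Pool.Agent.ORB.GOdd
import Pool.Agent.ORB.UPre

/-!
ORB, Theorem V5, row E1: even degree, the orbit has an odd valuation at a new prime.
-/

set_option autoImplicit false

open Polynomial Filter NumberField IsDedekindDomain WithZero

namespace Pool.Agent.ORB.GP

open VWin

section place

variable {F : Type*} [Field F]

/-- the product of two square roots with the same sign -/
theorem near_prod (A : AbsoluteValue F ℝ) {f : F[X]} (hf : f.Monic) (hd0 : f.natDegree ≠ 0) {H1 : F[X]}
    {D1 : ℕ} (hH : H1.Monic) (hHd : H1.natDegree = 2 * D1) (k : ℕ) {ε : ℝ} (hε : 0 < ε) :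
    ∃ M : ℝ, ∀ y W1 W2 : F, M ≤ A y → M ≤ A ((fun x => eval x f)^[k] y) → W1 ^ 2 = H1.eval y →
      W2 ^ 2 = H1.eval ((fun x => eval x f)^[k] y) →
      (Pos A W1 (y ^ D1) ↔ Pos A W2 (((fun x => eval x f)^[k] y) ^ D1)) →
      A (W1 * W2 - y ^ (D1 + f.natDegree ^ k * D1)) ≤ ε * A y ^ (D1 + f.natDegree ^ k * D1) := by
  set δ : ℝ := min (1 / 2) (ε / 8) with hδ
  have hδ0 : 0 < δ := lt_min (by norm_num) (by positivity)
  have hδ1 : δ ≤ 1 / 2 := min_le_left _ _
  have hδ2 : δ ≤ ε / 8 := min_le_right _ _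
  obtain ⟨M1, hM1, h1⟩ := near_sq A hH hHd hδ0
  obtain ⟨hm, hmd⟩ := itp_monic hf hd0 k
  have hPm : (itp f k ^ D1).Monic := hm.pow D1
  have hPd : (itp f k ^ D1).natDegree = f.natDegree ^ k * D1 := by
    rw [hm.natDegree_pow, hmd, mul_comm]
  obtain ⟨M3, hM3, h3⟩ := eval_asymp A (itp f k ^ D1) (f.natDegree ^ k * D1) hPd.le hδ0
  refine ⟨max M1 M3, fun y W1 W2 hy hz hW1 hW2 hpos => ?_⟩
  have y1 : M1 ≤ A y := (le_max_left _ _).trans hy
  have y3 : M3 ≤ A y := (le_max_right _ _).trans hy
  have z1 : M1 ≤ A ((fun x => eval x f)^[k] y) := (le_max_left _ _).trans hz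
  obtain ⟨e, he, hev⟩ := h3 y y3
  have hc : (itp f k ^ D1).coeff (f.natDegree ^ k * D1) = 1 := by
    rw [← hPd]
    exact hPm.coeff_natDegree
  rw [hc, eval_pow, itp_eval] at hev
  set z : F := (fun x => eval x f)^[k] y with hzdef
  have hA0 : ∀ {t : F}, 1 ≤ A t → t ≠ 0 := by
    rintro t ht rfl
    rw [map_zero] at ht
    linarith
  have hy0 : y ≠ 0 := hA0 (hM1.trans y1)
  have hz0 : z ≠ 0 := hA0 (hM1.trans z1)
  have hyA : 0 < A y := A.pos hy0
  have hzA : 0 < A z := A.pos hz0
  -- the two square roots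
  have hquot : ∀ (t T : F), t ≠ 0 → A (T - t ^ D1) ≤ δ * A t ^ D1 → A (T / t ^ D1 - 1) ≤ δ := by
    intro t T ht h
    have h4 : T / t ^ D1 - 1 = (T - t ^ D1) / t ^ D1 := by field_simp
    have h5 : 0 < A t := A.pos ht
    rw [h4, map_div₀, map_pow, div_le_iff₀ (by positivity)]
    exact h
  obtain ⟨u1, u2, hu, hu1, hu2⟩ : ∃ u1 u2 : F, W1 * W2 = y ^ D1 * z ^ D1 * (u1 * u2) ∧ A (u1 - 1) ≤ δ ∧
      A (u2 - 1) ≤ δ := by
    by_cases hp : Pos A W1 (y ^ D1)
    · have hp2 := hpos.1 hp
      refine ⟨W1 / y ^ D1, W2 / z ^ D1, ?_, hquot y W1 hy0 ((h1 y W1 y1 hW1).1 hp),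
        hquot z W2 hz0 ((h1 z W2 z1 hW2).1 hp2)⟩
      field_simp
    · have hp2 : ¬ Pos A W2 (z ^ D1) := fun h => hp (hpos.2 h)
      rw [Pos, not_le] at hp hp2
      have e1 : ∀ (T t : F), A (T + t ^ D1) ≤ δ * A t ^ D1 → A (-T - t ^ D1) ≤ δ * A t ^ D1 := by
        intro T t h
        have : -T - t ^ D1 = -(T + t ^ D1) := by ring
        rw [this, A.map_neg]
        exact h
      refine ⟨-W1 / y ^ D1, -W2 / z ^ D1, ?_,
        hquot y (-W1) hy0 (e1 W1 y ((h1 y W1 y1 hW1).2 hp.le)),
        hquot z (-W2) hz0 (e1 W2 z ((h1 z W2 z1 hW2).2 hp2.le))⟩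
      field_simp
  have h6 : ∀ u : F, A (u - 1) ≤ δ → A u ≤ 2 := by
    intro u hu
    have h7 : u = (u - 1) + 1 := by ring
    have h8 : A u ≤ A (u - 1) + A 1 := by
      conv_lhs => rw [h7]
      exact A.add_le _ _
    rw [map_one] at h8
    linarith
  have h7 : A (1 + e) ≤ 2 := h6 (1 + e) (by rw [add_sub_cancel_left]; exact he)
  have h8 : W1 * W2 - y ^ (D1 + f.natDegree ^ k * D1) =
      y ^ (D1 + f.natDegree ^ k * D1) * ((u1 - 1) * (u2 * (1 + e)) + (u2 - 1) * (1 + e) + e) := by
    rw [hu, hev, pow_add]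
    ring
  rw [h8, map_mul, map_pow, mul_comm]
  refine mul_le_mul_of_nonneg_right ?_ (by positivity)
  have h9 : A ((u1 - 1) * (u2 * (1 + e))) ≤ δ * (2 * 2) := by
    rw [map_mul, map_mul]
    exact mul_le_mul hu1 (mul_le_mul (h6 u2 hu2) h7 (A.nonneg _) (by norm_num))
      (mul_nonneg (A.nonneg _) (A.nonneg _)) hδ0.le
  have h10 : A ((u2 - 1) * (1 + e)) ≤ δ * 2 := by
    rw [map_mul]
    exact mul_le_mul hu2 h7 (A.nonneg _) hδ0.le
  have h11 := A.add_le ((u1 - 1) * (u2 * (1 + e)) + (u2 - 1) * (1 + e)) e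
  have h12 := A.add_le ((u1 - 1) * (u2 * (1 + e))) ((u2 - 1) * (1 + e))
  linarith

end place

universe u

/-- infinitely many pairs of equal values at a bounded distance -/
theorem exists_gap {P : Type*} [Finite P] (pat : ℕ → P) :
    ∃ k : ℕ, 1 ≤ k ∧ {n : ℕ | pat n = pat (n + k)}.Infinite := by
  classical
  have := Fintype.ofFinite P
  by_contra hcon
  push Not at hcon
  set B : ℕ := Fintype.card P with hB
  have hfin : (⋃ k ∈ Finset.Icc 1 B, {n : ℕ | pat n = pat (n + k)}).Finite := by
    refine Set.Finite.biUnion (Finset.finite_toSet _) fun k hk => ?_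
    exact hcon k (Finset.mem_Icc.1 (Finset.mem_coe.1 hk)).1
  obtain ⟨N, hN⟩ := hfin.bddAbove
  obtain ⟨a, ha, b, hb, hne, heq⟩ := Finset.exists_ne_map_eq_of_card_lt_of_maps_to
    (s := Finset.Icc (N + 1) (N + 1 + B)) (t := (Finset.univ : Finset P)) (f := pat) (by
      rw [Nat.card_Icc, Finset.card_univ]
      omega) (fun a _ => Finset.mem_coe.2 (Finset.mem_univ _))
  have main : ∀ a ∈ Finset.Icc (N + 1) (N + 1 + B), ∀ b ∈ Finset.Icc (N + 1) (N + 1 + B), a < b →
      pat a = pat b → False := by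
    intro a ha b hb hlt heq
    rw [Finset.mem_Icc] at ha hb
    have hmem : a ∈ ⋃ k ∈ Finset.Icc 1 B, {n : ℕ | pat n = pat (n + k)} := by
      refine Set.mem_biUnion (Finset.mem_coe.2 (Finset.mem_Icc.2 (by omega : 1 ≤ b - a ∧ b - a ≤ B))) ?_
      show pat a = pat (a + (b - a))
      rw [heq]
      congr 1
      omega
    have h9 := hN hmem
    omega
  rcases lt_or_gt_of_ne hne with h | h
  · exact main a ha b hb h heq
  · exact main b hb a ha h heq.symm

/-- the case in which all square roots are in the field -/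
theorem even_core {L : Type u} [Field L] [NumberField L] (h : L[X]) (heven : Even h.natDegree)
    (hd : 2 ≤ h.natDegree) (μ : L) (hμ : μ ^ (h.natDegree - 1) = h.leadingCoeff) (c r : L)
    (hc : Function.Injective fun n : ℕ => (fun x => eval x h)^[n] c)
    (hr : ∀ n, 1 ≤ n → (fun x => eval x h)^[n] r ≠ r) (hsep : (h - C r).Separable) (W : ℕ → L)
    (hW : ∀ n, W n ^ 2 = μ * ((fun x => eval x h)^[n + 1] c - r)) : False := by
  classical
  obtain ⟨hμ0, f, hf, hfd, hfe⟩ := monic_conj h hd μ hμ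
  obtain ⟨D1, hD1⟩ := heven
  have hd0 : f.natDegree ≠ 0 := by omega
  set x : ℕ → L := fun n => (fun x => eval x f)^[n] (μ * c) with hxdef
  have hx : ∀ n, x (n + 1) = f.eval (x n) := fun n => Function.iterate_succ_apply' _ _ _
  have hxe : ∀ n, x n = μ * (fun x => eval x h)^[n] c := fun n => hfe n c
  have hinj : Function.Injective x := fun a b hab => hc (mul_left_cancel₀ hμ0 (by
    show μ * (fun x => eval x h)^[a] c = μ * (fun x => eval x h)^[b] c
    rw [← hxe, ← hxe]
    exact hab))
  have hit : ∀ n k, (fun x => eval x f)^[k] (x n) = x (n + k) := by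
    intro n k
    induction k with
    | zero => rfl
    | succ k ih => rw [Function.iterate_succ_apply', ih, ← add_assoc, hx]
  obtain ⟨hH1, hH1d⟩ := sub_C_monic hf hd0 (μ * r)
  set H1 : L[X] := f - C (μ * r) with hH1def
  have hWx : ∀ n, W n ^ 2 = H1.eval (x n) := by
    intro n
    rw [hW, hH1def, eval_sub, eval_C, ← hx, hxe]
    ring
  have hH1d2 : H1.natDegree = 2 * D1 := by rw [hH1d, hfd, hD1]; ring
  -- the places
  set S0 : Finset (HeightOneSpectrum (𝓞 L)) :=
    ((Finset.range (f.natDegree + 1)).biUnion fun i =>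
      (HeightOneSpectrum.Support.finite (𝓞 L) (f.coeff i)).toFinset) ∪
    (HeightOneSpectrum.Support.finite (𝓞 L) (x 0)).toFinset with hS0def
  have hS0 : ∀ w ∉ S0, (∀ i, w.valuation L (f.coeff i) ≤ 1) ∧ w.valuation L (x 0) ≤ 1 := by
    intro w hw
    rw [hS0def, Finset.mem_union, Finset.mem_biUnion, Set.Finite.mem_toFinset] at hw
    push Not at hw
    refine ⟨fun i => ?_, ?_⟩
    · by_cases hi : i < f.natDegree + 1
      · by_contra h
        exact hw.1 i (Finset.mem_range.2 hi) ((Set.Finite.mem_toFinset _).2 (not_le.1 h))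
      · rw [coeff_eq_zero_of_natDegree_lt (by omega), map_zero]
        exact zero_le_one
    · by_contra h
      exact hw.2 (not_le.1 h)
  let P := {w // w ∈ S0} ⊕ (L →+* ℂ)
  set pat : ℕ → (P → Bool) := fun n v =>
    decide (Pos (pabv (v.map (fun w => w.1) id)) (W n) (x n ^ D1)) with hpat
  obtain ⟨k, hk, hI⟩ := exists_gap pat
  set I : Set ℕ := {n : ℕ | pat n = pat (n + k)} with hIdef
  obtain ⟨hm, hmd⟩ := itp_monic hf hd0 k
  have hmd0 : (itp f k).natDegree ≠ 0 := by rw [hmd]; exact pow_ne_zero _ hd0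
  have hGm : (H1.comp (itp f k)).Monic := hH1.comp hm hmd0
  have hGd : (H1.comp (itp f k)).natDegree = 2 * D1 * f.natDegree ^ k := by
    rw [natDegree_comp, hH1d2, hmd]
  obtain ⟨S, hS⟩ := rungeP hf (by omega) x hx hinj (le_refl 2) (D := D1 + f.natDegree ^ k * D1)
    (H1 * H1.comp (itp f k)) (hH1.mul hGm)
    (by rw [hH1.natDegree_mul hGm, hGd, hH1d2]; ring) I hI (fun n => W n * W (n + k))
    (fun n _ => by
      rw [mul_pow, hWx, hWx, eval_mul, eval_comp, itp_eval, hit])
    (fun i hi ε hε => by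
      -- the place is in the finite list
      have hplace : ∃ v : {w // w ∈ S0} ⊕ (L →+* ℂ), v.map (fun w => w.1) id = i := by
        rcases i with w | σ
        · by_cases hw : w ∈ S0
          · exact ⟨Sum.inl ⟨w, hw⟩, rfl⟩
          · exfalso
            obtain ⟨h1, h2⟩ := hS0 w hw
            obtain ⟨n, hn⟩ := (hi.eventually_ge_atTop 2).exists
            have h3 := URoot.pabv_inl_le_one_of (orbit_int_f x hx w h2 h1 n)
            linarith
        · exact ⟨Sum.inr σ, rfl⟩
      obtain ⟨v, hv⟩ := hplace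
      obtain ⟨M, hM⟩ := near_prod (pabv i) hf hd0 hH1 hH1d2 k hε
      obtain ⟨n0, hn0⟩ := eventually_atTop.1 (hi.eventually_ge_atTop M)
      refine ⟨n0, fun n hn hle => ?_⟩
      have h6 := decide_eq_decide.1 (congrFun hn v)
      rw [hv] at h6
      have h7 := hM (x n) (W n) (W (n + k)) (hn0 n hle) (by rw [hit]; exact hn0 (n + k) (by omega))
        (hWx n) (by rw [hit]; exact hWx (n + k)) (by rw [hit]; exact h6)
      exact h7)
  -- a root of `H1` in the algebraic closure
  set K := AlgebraicClosure L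
  obtain ⟨z, hz⟩ := IsAlgClosed.exists_aeval_eq_zero K H1 (by
    rw [degree_eq_natDegree hH1.ne_zero, hH1d2]
    intro h0
    have h1 : 2 * D1 = 0 := by exact_mod_cast h0
    omega)
  have hzf : aeval z f = algebraMap L K (μ * r) := by
    have h1 := hz
    rw [hH1def, map_sub, aeval_C, sub_eq_zero] at h1
    exact h1
  -- the polynomial identity
  have hfid : f.comp (C μ * X) = C μ * h := by
    refine Polynomial.funext fun y => ?_
    have h1 := hfe 1 y
    simp only [Function.iterate_one] at h1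
    rw [eval_comp, eval_mul, eval_C, eval_X, eval_mul, eval_C]
    exact h1
  have hder : (derivative f).comp (C μ * X) = derivative h := by
    have h1 := congrArg derivative hfid
    rw [derivative_comp, derivative_C_mul, derivative_C_mul, derivative_X, mul_one] at h1
    exact mul_left_cancel₀ (C_ne_zero.2 hμ0) h1
  set w : K := algebraMap L K μ⁻¹ * z with hwdef
  have hμK : algebraMap L K μ ≠ 0 := by
    rw [Ne, map_eq_zero]
    exact hμ0
  have hzw : algebraMap L K μ * w = z := by
    rw [hwdef, map_inv₀, mul_inv_cancel_left₀ hμK]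
  have hlin : aeval w (C μ * X : L[X]) = z := by
    rw [map_mul, aeval_C, aeval_X, hzw]
  have hw1 : aeval w (h - C r) = 0 := by
    have h1 := congrArg (aeval w) hfid
    rw [aeval_comp, hlin, hzf, map_mul, map_mul, aeval_C] at h1
    rw [map_sub, aeval_C, sub_eq_zero]
    exact (mul_left_cancel₀ hμK h1).symm
  have hw2 : aeval z (derivative f) ≠ 0 := by
    have h1 := hsep.aeval_derivative_ne_zero hw1
    rw [derivative_sub, derivative_C, sub_zero, ← hder, aeval_comp, hlin] at h1
    exact h1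
  -- `z` is a double root
  have hG0 : aeval z (H1.comp (itp f k)) = 0 := by
    have hz2 : aeval z S = 0 := by
      have h1 := congrArg (aeval z) hS
      rw [map_mul, hz, zero_mul, map_pow] at h1
      exact pow_eq_zero_iff two_ne_zero |>.1 h1.symm
    have h1 := congrArg (fun q => aeval z (derivative q)) hS
    beta_reduce at h1
    rw [derivative_mul, map_add, map_mul, map_mul, hz, zero_mul, add_zero, derivative_pow, map_mul, map_mul,
      map_pow, hz2] at h1
    have h2 : aeval z (derivative H1) * aeval z (H1.comp (itp f k)) = 0 := by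
      rw [h1]
      simp
    rcases mul_eq_zero.1 h2 with h3 | h3
    · exfalso
      rw [hH1def, derivative_sub, derivative_C, sub_zero] at h3
      exact hw2 h3
    · exact h3
  -- the iterates
  have hitp : ∀ (j : ℕ) (y : K), aeval y (itp f j) = (fun y => aeval y f)^[j] y := by
    intro j y
    induction j with
    | zero => simp [itp]
    | succ j ih =>
      have h1 : itp f (j + 1) = f.comp (itp f j) := Function.iterate_succ_apply' _ _ _
      rw [h1, aeval_comp, ih, Function.iterate_succ_apply']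
  have hbase : ∀ (j : ℕ) (y : L), (fun y : K => aeval y f)^[j] (algebraMap L K y) =
      algebraMap L K ((fun x => eval x f)^[j] y) := by
    intro j y
    induction j with
    | zero => rfl
    | succ j ih =>
      rw [Function.iterate_succ_apply', Function.iterate_succ_apply', ih]
      exact aeval_algebraMap_apply_eq_algebraMap_eval _ _
  rw [aeval_comp, hitp, hH1def, map_sub, aeval_C, sub_eq_zero] at hG0
  have h1 : (fun y : K => aeval y f)^[k + 1] z = algebraMap L K (μ * r) := by
    rw [Function.iterate_succ_apply']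
    exact hG0
  rw [Function.iterate_succ_apply] at h1
  have h2 : (fun y : K => aeval y f)^[k] (algebraMap L K (μ * r)) = algebraMap L K (μ * r) := by
    rw [← hzf]
    rw [← hzf] at h1
    exact h1
  rw [hbase] at h2
  have h3 := (algebraMap L K).injective h2
  rw [hfe] at h3
  exact hr k hk (mul_left_cancel₀ hμ0 h3)

/-- **E1** (even degree: the orbit has an odd valuation at a new prime) -/
theorem exists_odd_even {L : Type u} [Field L] [NumberField L] (h : L[X]) (heven : Even h.natDegree)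
    (hd : 2 ≤ h.natDegree) (μ : L) (hμ : μ ^ (h.natDegree - 1) = h.leadingCoeff) (c r : L)
    (hc : Function.Injective fun n : ℕ => (fun x => eval x h)^[n] c)
    (hr : ∀ n, 1 ≤ n → (fun x => eval x h)^[n] r ≠ r) (hsep : (h - C r).Separable)
    (S : Set (HeightOneSpectrum (𝓞 L))) (hS : S.Finite) :
    ∃ n, 1 ≤ n ∧ ∃ Q ∉ S, ∃ m : ℤ, Q.valuation L ((fun x => eval x h)^[n] c - r) = WithZero.exp (2 * m + 1) := by
  classical
  obtain ⟨D, hD0, hD⟩ := VSel.selmer hS
  by_contra hcon
  push Not at hcon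
  -- the field of the square roots
  let K := AlgebraicClosure L
  have hsq : ∀ e : L, ∃ s : K, s ^ 2 = algebraMap L K e := fun e =>
    IsAlgClosed.exists_pow_nat_eq _ (by norm_num)
  choose sq hsq' using hsq
  obtain ⟨L1, i1, i2, i3, i4, htow, -, hL1⟩ := exists_gal (F := L) (W := K)
    (((insert μ D).image sq : Finset K) : Set K) (Finset.finite_toSet _)
  have hroot : ∀ e ∈ insert μ D, ∃ s : L1, s ^ 2 = algebraMap L L1 e := by
    intro e he
    obtain ⟨s, hs⟩ := hL1 (sq e) (Finset.mem_coe.2 (Finset.mem_image_of_mem _ he))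
    refine ⟨s, (algebraMap L1 K).injective ?_⟩
    rw [map_pow, hs, hsq', ← IsScalarTower.algebraMap_apply L L1 K]
  set φ := algebraMap L L1 with hφ
  have hφi : Function.Injective φ := φ.injective
  -- the iterates
  have hiter : ∀ (n : ℕ) (y : L), (fun x => eval x (h.map φ))^[n] (φ y) = φ ((fun x => eval x h)^[n] y) := by
    intro n y
    induction n with
    | zero => rfl
    | succ n ih =>
      rw [Function.iterate_succ_apply', Function.iterate_succ_apply', ih]
      show eval _ _ = _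
      rw [eval_map, eval₂_at_apply]
  have hdeg : (h.map φ).natDegree = h.natDegree := natDegree_map φ
  -- the square roots
  have hW : ∀ n : ℕ, ∃ s : L1, s ^ 2 = φ μ * ((fun x => eval x (h.map φ))^[n + 1] (φ c) - φ r) := by
    intro n
    rw [hiter, ← map_sub, ← map_mul]
    by_cases ha : (fun x => eval x h)^[n + 1] c - r = 0
    · exact ⟨0, by rw [ha]; simp⟩
    · obtain ⟨d, hdD, s, hs⟩ := hD _ ha (fun Q hQ => by
        have h1 : Q.valuation L ((fun x => eval x h)^[n + 1] c - r) ≠ 0 := (Valuation.ne_zero_iff _).2 ha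
        obtain ⟨k, hk⟩ : ∃ k : ℤ, Q.valuation L ((fun x => eval x h)^[n + 1] c - r) = exp k :=
          ⟨log (Q.valuation L ((fun x => eval x h)^[n + 1] c - r)), (exp_log h1).symm⟩
        rcases Int.even_or_odd' k with ⟨m, hm | hm⟩
        · exact ⟨m, by rw [hk, hm]⟩
        · exact absurd (by rw [hk, hm]) (hcon (n + 1) (by omega) Q hQ m))
      obtain ⟨s1, hs1⟩ := hroot μ (Finset.mem_insert_self _ _)
      obtain ⟨s2, hs2⟩ := hroot d (Finset.mem_insert_of_mem hdD)
      have hd0 : d ≠ 0 := hD0 d hdD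
      refine ⟨s1 * φ s / s2, ?_⟩
      have h2 : (s1 * φ s / s2) ^ 2 = s1 ^ 2 * (φ s) ^ 2 / s2 ^ 2 := by ring
      have h3 : φ d ≠ 0 := by
        rw [Ne, map_eq_zero]
        exact hd0
      rw [h2, hs1, hs2, div_eq_iff h3, ← map_pow, ← map_mul, ← map_mul]
      congr 1
      linear_combination (-μ) * hs
  choose W hW' using hW
  refine even_core (h.map φ) (by rw [hdeg]; exact heven) (by rw [hdeg]; exact hd) (φ μ) ?_ (φ c) (φ r) ?_ ?_ ?_
    W hW'
  · rw [hdeg, leadingCoeff_map, ← map_pow, hμ]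
  · intro a b hab
    refine hc (hφi ?_)
    show φ ((fun x => eval x h)^[a] c) = φ ((fun x => eval x h)^[b] c)
    rw [← hiter, ← hiter]
    exact hab
  · intro n hn h1
    rw [hiter] at h1
    exact hr n hn (hφi h1)
  · have h1 : h.map φ - C (φ r) = (h - C r).map φ := by rw [Polynomial.map_sub, map_C]
    rw [h1]
    exact hsep.map

end Pool.Agent.ORB.GP
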