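import Pool.Agent.ORB.GFresh
import Pool.Agent.ORB.EOdd
import Pool.Agent.ORB.EDefs

/-!
ORB, Theorem V5, row E2: the fresh swap for all degrees.
-/

set_option autoImplicit false

open Polynomial NumberField IsDedekindDomain WithZero

namespace Pool.Agent.ORB.GP

open NI

universe u

/-- the local swap lemma; the moved points of the new level are close to active simple critical points -/
theorem local_swap2 {F Ω : Type*} [Field F] [Field Ω] [Algebra F Ω] [CharZero F] [IsAlgClosed Ω]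
    [Algebra.IsAlgebraic F Ω] (D : LocAbs F Ω) (h : F[X]) (hg : Good D h) (r : F)
    (hr : D.N (algebraMap F Ω r) ≤ 1)
    (hodd : ∀ c : Ω, Crit h c → (∃ n, 1 ≤ n ∧ D.N ((ev h)^[n] c - algebraMap F Ω r) < 1) →
      Simp h c ∨ Even (rootMultiplicity c ((derivative h).map (algebraMap F Ω))))
    (hsep : ∀ c c' : Ω, Simp h c → Simp h c' → (∃ n, 1 ≤ n ∧ D.N ((ev h)^[n] c - algebraMap F Ω r) < 1) →
      (∃ n, 1 ≤ n ∧ D.N ((ev h)^[n] c' - algebraMap F Ω r) < 1) → c ≠ c' → ¬ D.N (ev h c - ev h c') < 1)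
    (c₀ : F) (hc₀ : Simp h (algebraMap F Ω c₀)) (n : ℕ) (hn : 1 ≤ n) (m : ℤ)
    (hm : D.N (algebraMap F Ω ((fun x => eval x h)^[n] c₀ - r)) = D.N (algebraMap F Ω D.π) ^ (2 * m + 1)) :
    ∃ (A : Ω ≃ₐ[F] Ω) (l : ℕ), l < n ∧ (∀ k, k ≤ l → ∀ z ∈ Node Ω h r k, A z = z) ∧
      (∃ z ∈ Node Ω h r (l + 1), A z ≠ z) ∧
      (∀ z ∈ Node Ω h r (l + 1), A z ≠ z → ∃ c, Simp h c ∧ Act D h r c ∧ D.N (z - c) < 1) ∧
      ∀ z ∈ Node Ω h r (l + 1), ∀ z', ev h z = ev h z' → A z ≠ z → A z' ≠ z' → z' = z ∨ z' = A z := by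
  classical
  have hcz : CharZero Ω := charZero_of_injective_algebraMap (algebraMap F Ω).injective
  have hd := hg.deg
  -- the odd number
  set q : ℕ := ∏ e ∈ (Finset.range (h.natDegree + 1)).filter Odd, e with hq
  have hqo : Odd q := by
    rw [hq]
    refine Finset.prod_induction _ Odd (fun a b => Odd.mul) odd_one fun e he => (Finset.mem_filter.1 he).2
  have hq0 : q ≠ 0 := fun h0 => by rw [h0] at hqo; exact absurd hqo (by decide)
  have hqd : ∀ e : ℕ, Odd e → e ≤ h.natDegree → e ∣ q := fun e he1 he2 =>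
    Finset.dvd_prod_of_mem (fun e => e) (Finset.mem_filter.2 ⟨Finset.mem_range.2 (by omega), he1⟩)
  obtain ⟨w, hw0, hw⟩ := exists_tower hq0 (algebraMap F Ω D.π)
  -- the level
  have hex : ∃ k, ∃ z ∈ Node Ω h r k, z ∉ MF D (w k) := by
    obtain ⟨k, -, hk⟩ := exists_level hq0 w hw0 hw hg hr hqo c₀ hc₀ n hn m hm
    exact ⟨k, hk⟩
  obtain ⟨k0, hk0n, hk0⟩ := exists_level hq0 w hw0 hw hg hr hqo c₀ hc₀ n hn m hm
  set j := Nat.find hex with hj
  have hjspec := Nat.find_spec hex
  have hjmin : ∀ k, k < j → ∀ z ∈ Node Ω h r k, z ∈ MF D (w k) := by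
    intro k hk z hz
    by_contra hcon
    exact Nat.find_min hex hk ⟨z, hz, hcon⟩
  have hj0 : j ≠ 0 := by
    intro h0
    obtain ⟨z, hz, hzM⟩ := hjspec
    rw [← hj, h0] at hz hzM
    have h1 : z = algebraMap F Ω r := hz
    rw [h1] at hzM
    exact hzM ((MF D (w 0)).algebraMap_mem _)
  have hjn : j ≤ n := (Nat.find_min' hex hk0).trans hk0n
  obtain ⟨l, hl⟩ := Nat.exists_eq_succ_of_ne_zero hj0
  rw [Nat.succ_eq_add_one] at hl
  rw [← hj, hl] at hjspec
  set M := MF D (w (l + 1)) with hM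
  have hlow : ∀ k, k ≤ l → ∀ z ∈ Node Ω h r k, z ∈ M := fun k hk z hz =>
    w_mono hq0 w hw0 hw (by omega : k ≤ l + 1) (hjmin k (by omega) z hz)
  have hval : ∀ x ∈ M, x ≠ 0 → Pw D (w (l + 1)) x := fun x hx h0 => w_val hq0 w hw0 hw hx h0
  have hwne := w_ne hq0 w hw0 hw (l + 1)
  obtain ⟨ϖ', hϖ'⟩ := IsAlgClosed.exists_pow_nat_eq (w (l + 1)) (n := 2) (by norm_num)
  obtain ⟨A, hA1, hA2⟩ := exists_aut D (Nat.one_le_iff_ne_zero.2 (pow_ne_zero (l + 1) hq0))
    (w_root hq0 w hw0 hw (l + 1)) (by norm_num : 1 ≤ 2) (by exact_mod_cast N_two hg) hϖ'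
  -- children outside `M`
  have hchild : ∀ z ∈ Node Ω h r (l + 1), z ∉ M → ∃ c, Simp h c ∧ Act D h r c ∧ D.N (z - c) < 1 := by
    intro z hz hzM
    refine near_simple hq0 w hw0 hw hg hr hodd hqd hz ?_ hzM
    refine hjmin l (by omega) _ ?_
    rw [Node_succ] at hz
    exact hz
  have hmove : ∀ z ∈ Node Ω h r (l + 1), z ∉ M → A z ≠ z := by
    intro z hz hzM
    obtain ⟨c, hc, -, hzc⟩ := hchild z hz hzM
    have hyM : ev h z ∈ M := hlow l le_rfl _ (Node_succ.1 hz)
    have hcM : c ∈ M := crit_mem D hg (muS_le _) hc.1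
    have hN := N_near hg hc.1 hzc
    rw [mult_simp hc] at hN
    norm_num at hN
    have hne : ev h z - ev h c ≠ 0 := by
      intro h0
      rw [h0, N_zero] at hN
      have h2 : D.N (z - c) = 0 := (pow_eq_zero_iff two_ne_zero).1 hN.symm
      rw [AbsoluteValue.eq_zero, sub_eq_zero] at h2
      exact hzM (h2 ▸ hcM)
    obtain ⟨i, hi⟩ := hval _ (sub_mem hyM (aeval_mem' _ hcM h)) hne
    have hi' : D.N (ev h z - ev h c) = D.N (w (l + 1)) ^ i := hi
    refine hA2 c hcM z ⟨i, ?_⟩ ?_
    · refine (pow_left_inj₀ (N_nonneg D _) (zpow_nonneg (N_nonneg D _) _) two_ne_zero).1 ?_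
      rw [← hN, hi', ← hϖ', N_pow, ← zpow_natCast, ← zpow_natCast, ← zpow_mul, ← zpow_mul]
      congr 1
      ring
    · rintro ⟨k, hk⟩
      exact hzM (key_crit D hg (muS_le _) hc.1 hzc (zpow_mem (mem_MF _) k) (zpow_ne_zero k hwne)
        (by rw [hk, map_zpow₀]) hyM)
  have hnotM : ∀ z, A z ≠ z → z ∉ M := fun z hz hzM => hz (hA1 z hzM)
  refine ⟨A, l, by omega, fun k hk z hz => hA1 z (hlow k hk z hz), ?_, ?_, ?_⟩
  · obtain ⟨z, hz, hzM⟩ := hjspec
    exact ⟨z, hz, hmove z hz hzM⟩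
  · exact fun z hz hAz => hchild z hz (hnotM z hAz)
  · intro z hz z' hzz' hAz hAz'
    by_contra hcon
    push Not at hcon
    have hz' : z' ∈ Node Ω h r (l + 1) := by
      rw [Node_succ] at hz ⊢
      rw [← hzz']
      exact hz
    have hAzn : A z ∈ Node Ω h r (l + 1) := by
      rw [Node_succ, ← aut_ev, hA1 _ (hlow l le_rfl _ (Node_succ.1 hz))]
      exact Node_succ.1 hz
    have hAev : ev h z = ev h (A z) := by
      rw [← aut_ev, hA1 _ (hlow l le_rfl _ (Node_succ.1 hz))]
    have hAM : A z ∉ M := by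
      intro h1
      have h2 := hA1 _ h1
      exact hAz (A.injective h2)
    obtain ⟨c1, s1, a1, n1⟩ := hchild z hz (hnotM z hAz)
    obtain ⟨c2, s2, a2, n2⟩ := hchild z' hz' (hnotM z' hAz')
    obtain ⟨c3, s3, a3, n3⟩ := hchild (A z) hAzn hAM
    have hnear : ∀ x c : Ω, Simp h c → ev h x = ev h z → D.N (x - c) < 1 → D.N (ev h z - ev h c) < 1 := by
      intro x c hc hx hxc
      rw [← hx, N_near hg hc.1 hxc]
      exact pow_lt_one₀ (N_nonneg D _) hxc (by omega)
    have t1 := hnear z c1 s1 rfl n1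
    have t2 := hnear z' c2 s2 hzz'.symm n2
    have t3 := hnear (A z) c3 s3 hAev.symm n3
    have e12 : c1 = c2 := by
      by_contra hne
      refine hsep c1 c2 s1 s2 a1 a2 hne (N_lt_trans D ?_ t2)
      rw [N_symm]
      exact t1
    have e13 : c1 = c3 := by
      by_contra hne
      refine hsep c1 c3 s1 s3 a1 a3 hne (N_lt_trans D ?_ t3)
      rw [N_symm]
      exact t1
    subst e12
    subst e13
    exact no_three hg s1 n1 n2 n3 hzz' hAev (Ne.symm hcon.1) hAz.symm hcon.2


/-- the swap property for points with the same second image -/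
theorem local_swap22 {F Ω : Type*} [Field F] [Field Ω] [Algebra F Ω] [CharZero F] [IsAlgClosed Ω]
    [Algebra.IsAlgebraic F Ω] (D : LocAbs F Ω) (h : F[X]) (hg : Good D h) (r : F)
    (hr : D.N (algebraMap F Ω r) ≤ 1)
    (hodd : ∀ c : Ω, Crit h c → (∃ n, 1 ≤ n ∧ D.N ((ev h)^[n] c - algebraMap F Ω r) < 1) →
      Simp h c ∨ Even (rootMultiplicity c ((derivative h).map (algebraMap F Ω))))
    (hsep : ∀ c c' : Ω, Simp h c → Simp h c' → (∃ n, 1 ≤ n ∧ D.N ((ev h)^[n] c - algebraMap F Ω r) < 1) →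
      (∃ n, 1 ≤ n ∧ D.N ((ev h)^[n] c' - algebraMap F Ω r) < 1) → c ≠ c' →
      ¬ D.N (ev h (ev h c) - ev h (ev h c')) < 1)
    (hncr : ∀ c : Ω, Simp h c → (∃ n, 1 ≤ n ∧ D.N ((ev h)^[n] c - algebraMap F Ω r) < 1) →
      ¬ D.N (aeval (ev h c) (derivative h)) < 1)
    (c₀ : F) (hc₀ : Simp h (algebraMap F Ω c₀)) (n : ℕ) (hn : 1 ≤ n) (m : ℤ)
    (hm : D.N (algebraMap F Ω ((fun x => eval x h)^[n] c₀ - r)) = D.N (algebraMap F Ω D.π) ^ (2 * m + 1)) :
    ∃ (A : Ω ≃ₐ[F] Ω) (l : ℕ), l < n ∧ (∀ k, k ≤ l → ∀ z ∈ Node Ω h r k, A z = z) ∧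
      (∃ z ∈ Node Ω h r (l + 1), A z ≠ z) ∧
      ∀ z ∈ Node Ω h r (l + 1), ∀ z' ∈ Node Ω h r (l + 1), ev h (ev h z) = ev h (ev h z') → A z ≠ z → A z' ≠ z' →
        z' = z ∨ z' = A z := by
  have hcz : CharZero Ω := charZero_of_injective_algebraMap (algebraMap F Ω).injective
  have hci : ∀ c : Ω, Simp h c → D.N c ≤ 1 := fun c hc => crit_int hg hc.1
  obtain ⟨A, l, h1, h2, h3, h4, h5⟩ := local_swap2 D h hg r hr hodd (fun c c' s s' a a' hne hlt =>
    hsep c c' s s' a a' hne ((hg.le (hg.int (hci c s)) (hg.int (hci c' s'))).trans_lt hlt)) c₀ hc₀ n hn m hm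
  refine ⟨A, l, h1, h2, h3, fun z hz z' hz' hzz hAz hAz' => ?_⟩
  obtain ⟨c, sc, ac, nc⟩ := h4 z hz hAz
  obtain ⟨c', sc', ac', nc'⟩ := h4 z' hz' hAz'
  have zi := hg.node_int hr _ hz
  have zi' := hg.node_int hr _ hz'
  have ci := hci c sc
  have ci' := hci c' sc'
  have e : c = c' := by
    by_contra hne
    refine hsep c c' sc sc' ac ac' hne ?_
    have t1 := hg.iter_cg zi ci nc 2
    have t2 := hg.iter_cg zi' ci' nc' 2
    have t1' : D.N (ev h (ev h z) - ev h (ev h c)) < 1 := t1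
    have t2' : D.N (ev h (ev h z') - ev h (ev h c')) < 1 := t2
    rw [← hzz] at t2'
    refine N_lt_trans D ?_ t2'
    rw [N_symm]
    exact t1'
  subst e
  by_cases hy : ev h z = ev h z'
  · exact h5 z hz z' hy hAz hAz'
  exfalso
  have yi := hg.int zi
  have yi' := hg.int zi'
  have hci' := hg.int ci
  have n1 : D.N (ev h z - ev h c) < 1 := (hg.le zi ci).trans_lt nc
  have n2 : D.N (ev h z' - ev h c) < 1 := (hg.le zi' ci).trans_lt nc'
  have n3 : D.N (ev h z' - ev h z) < 1 := by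
    refine N_lt_trans D n2 ?_
    rw [N_symm]
    exact n1
  obtain ⟨k, hk, e1⟩ := eval_diff D _ hg.coef' yi' yi
  rw [← ev_eq, ← ev_eq, hzz, sub_self, ← dv_eq] at e1
  have e2 : aeval (ev h z) (derivative h) = -((ev h z' - ev h z) * k) := by
    have e3 := (mul_eq_zero.1 e1.symm).resolve_left (sub_ne_zero.2 (Ne.symm hy))
    linear_combination e3
  have n4 : D.N (aeval (ev h z) (derivative h)) < 1 := by
    rw [e2, N_neg, N_mul]
    exact (mul_le_of_le_one_right (N_nonneg D _) hk).trans_lt n3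
  refine hncr c sc ac ?_
  have n5 := hg.dcg hci' yi (by rw [N_symm]; exact n1)
  have e4 : aeval (ev h c) (derivative h) = (aeval (ev h c) (derivative h) - aeval (ev h z) (derivative h)) +
      aeval (ev h z) (derivative h) := by ring
  rw [e4]
  exact (D.nonarch _ _).trans_lt (max_lt n5 n4)

/-- **E2** (fresh swap for all degrees; the swap property holds for points with the same second image) -/
theorem fresh_swap2 {F W : Type u} [Field F] [NumberField F] [Field W] [Algebra F W] [IsAlgClosed W]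
    [Algebra.IsAlgebraic F W] (h : F[X]) (hd : 2 ≤ h.natDegree) (hc : CritCond2 h W)
    (r : W) (hr : ∀ n, 1 ≤ n → (ev h)^[n] r ≠ r) (hav : ∀ c : W, Crit h c → ∀ n, (ev h)^[n] c ≠ r)
    (T : Set W) (hT : T.Finite) :
    ∃ (A : W ≃ₐ[F] W) (l : ℕ), (∀ t ∈ T, A t = t) ∧ A r = r ∧ (∀ k, k ≤ l → ∀ z : W, (ev h)^[k] z = r → A z = z) ∧
      (∃ z : W, (ev h)^[l + 1] z = r ∧ A z ≠ z) ∧
      ∀ z z' : W, (ev h)^[l + 1] z = r → (ev h)^[l + 1] z' = r → (ev h)^[2] z = (ev h)^[2] z' → A z ≠ z →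
        A z' ≠ z' → z' = z ∨ z' = A z := by
  classical
  have hh0 : h ≠ 0 := by
    rintro rfl
    simp at hd
  have hcz : CharZero W := charZero_of_injective_algebraMap (algebraMap F W).injective
  have hd0 : derivative h ≠ 0 := by
    intro h0
    have := Polynomial.derivative_eq_zero.1 h0
    omega
  -- the leading coefficient is a power
  obtain ⟨μ, hμ⟩ := IsAlgClosed.exists_pow_nat_eq (algebraMap F W h.leadingCoeff)
    (show 0 < h.natDegree - 1 by omega)
  have hcritF : {c : W | Crit h c}.Finite := by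
    refine (Finset.finite_toSet ((derivative h).aroots W).toFinset).subset fun c hc => ?_
    rw [Finset.mem_coe, Multiset.mem_toFinset, mem_aroots]
    exact ⟨hd0, hc⟩
  obtain ⟨L, _, _, _, _, hst, -, hTL⟩ := exists_gal (F := F) (W := W) (T ∪ ({r, μ} ∪ {c : W | Crit h c}))
    (hT.union ((Set.toFinite _).union hcritF))
  have hin : Function.Injective (algebraMap L W) := (algebraMap L W).injective
  obtain ⟨r1, hr1⟩ := hTL r (Or.inr (Or.inl (Or.inl rfl)))
  obtain ⟨μ1, hμ1⟩ := hTL μ (Or.inr (Or.inl (Or.inr rfl)))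
  have hcL : ∀ c : W, Crit h c → ∃ c1 : L, algebraMap L W c1 = c := fun c hc => hTL c (Or.inr (Or.inr hc))
  set h1 : L[X] := h.map (algebraMap F L) with hh1
  have hd1 : h1.natDegree = h.natDegree := natDegree_map _
  have hevW : ∀ z : W, ev h1 z = ev h z := by
    intro z
    unfold ev
    rw [hh1, aeval_map_algebraMap]
  have hevWn : ∀ (n : ℕ) (z : W), (ev h1)^[n] z = (ev h)^[n] z := by
    intro n z
    have : (ev h1 : W → W) = ev h := funext hevW
    rw [this]
  have hit1 : ∀ (n : ℕ) (x : L), algebraMap L W ((fun y => eval y h1)^[n] x) = (ev h)^[n] (algebraMap L W x) := by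
    intro n x
    rw [← hevWn]
    induction n generalizing x with
    | zero => rfl
    | succ n ih =>
      rw [Function.iterate_succ_apply, Function.iterate_succ_apply, ih]
      congr 1
      show algebraMap L W (eval x h1) = aeval (algebraMap L W x) h1
      rw [aeval_algebraMap_apply, coe_aeval_eq_eval]
  have hCritW : ∀ c : W, Crit h1 c ↔ Crit h c := by
    intro c
    unfold Crit
    rw [hh1, derivative_map, aeval_map_algebraMap]
  have hSimpW : ∀ c : W, Simp h1 c ↔ Simp h c := by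
    intro c
    unfold Simp
    rw [hh1, derivative_map, derivative_map, aeval_map_algebraMap, aeval_map_algebraMap]
  obtain ⟨c0, hc0s, hc0w⟩ := hc.ex
  obtain ⟨c01, hc01⟩ := hcL c0 hc0s.1
  -- the bad primes
  obtain ⟨B1, hB1, hgood⟩ := good_finite h1 (by rw [hd1]; exact hd)
  -- the elements which have to be units
  set U : Set L := {x | x ≠ 0 ∧ ((∃ c : W, Crit h c ∧ ¬ Wand h c ∧ ∃ n : ℕ, algebraMap L W x = (ev h)^[n] c - r) ∨
    (∃ c c' : W, Crit h c ∧ Crit h c' ∧ algebraMap L W x = ev h (ev h c) - ev h (ev h c')) ∨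
    ∃ c : W, Crit h c ∧ algebraMap L W x = aeval (ev h c) (derivative h))} with hU
  have hUf : U.Finite := by
    have e1 : (⋃ c ∈ {c : W | Crit h c}, {y : W | ¬ Wand h c ∧ ∃ n : ℕ, y = (ev h)^[n] c - r}).Finite := by
      refine hcritF.biUnion fun c _ => ?_
      by_cases hw : Wand h c
      · refine Set.finite_empty.subset ?_
        rintro y ⟨h2, -⟩
        exact h2 hw
      · refine ((orbit_finite hw).image fun z => z - r).subset ?_
        rintro y ⟨-, n, rfl⟩
        exact ⟨_, ⟨n, rfl⟩, rfl⟩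
    have e2 : (⋃ c ∈ {c : W | Crit h c}, ⋃ c' ∈ {c : W | Crit h c},
        {ev h (ev h c) - ev h (ev h c')}).Finite :=
      hcritF.biUnion fun c _ => hcritF.biUnion fun c' _ => Set.finite_singleton _
    have e3 : (⋃ c ∈ {c : W | Crit h c}, {aeval (ev h c) (derivative h)}).Finite :=
      hcritF.biUnion fun c _ => Set.finite_singleton _
    refine Set.Finite.of_finite_image (f := algebraMap L W) ((e1.union (e2.union e3)).subset ?_) hin.injOn
    rintro _ ⟨x, ⟨-, ⟨c, hcc, hcw, n, hn⟩ | ⟨c, c', hcc, hcc', hx⟩ | ⟨c, hcc, hx⟩⟩, rfl⟩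
    · exact Or.inl (Set.mem_biUnion hcc ⟨hcw, n, hn⟩)
    · exact Or.inr (Or.inl (Set.mem_biUnion hcc (Set.mem_biUnion hcc' hx)))
    · exact Or.inr (Or.inr (Set.mem_biUnion hcc hx))
  set S : Set (HeightOneSpectrum (𝓞 L)) := B1 ∪ (HeightOneSpectrum.Support (𝓞 L) r1 ∪ ⋃ x ∈ U, badU x) with hS
  have hSf : S.Finite := by
    refine hB1.union ((HeightOneSpectrum.Support.finite (𝓞 L) r1).union ?_)
    exact hUf.biUnion fun x hx => badU_finite hx.1
  -- the odd prime
  have hμL : μ1 ^ (h1.natDegree - 1) = h1.leadingCoeff := by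
    apply hin
    rw [map_pow, hμ1, hd1, hμ, hh1, leadingCoeff_map, ← IsScalarTower.algebraMap_apply F L W]
  have hcL' : Function.Injective fun n : ℕ => (fun x => eval x h1)^[n] c01 := by
    intro a b hab
    apply hc0w
    show (ev h)^[a] c0 = (ev h)^[b] c0
    rw [← hc01, ← hit1, ← hit1]
    exact congrArg _ hab
  have hrL : ∀ n, 1 ≤ n → (fun x => eval x h1)^[n] r1 ≠ r1 := by
    intro n hn h2
    apply hr n hn
    rw [← hr1, ← hit1, h2]
  have hsepL : (h1 - C r1).Separable := by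
    rw [← separable_map (algebraMap L W), Polynomial.Separable,
      Polynomial.isCoprime_iff_aeval_ne_zero_of_isAlgClosed W W]
    intro a
    by_contra hcon
    push Not at hcon
    obtain ⟨h2, h3⟩ := hcon
    rw [Polynomial.map_sub, map_C, map_sub, aeval_map_algebraMap, aeval_C, sub_eq_zero] at h2
    rw [Polynomial.map_sub, map_C, derivative_sub, derivative_C, sub_zero, derivative_map,
      aeval_map_algebraMap] at h3
    refine hav a ((hCritW a).1 h3) 1 ?_
    rw [← hevWn, ← hr1]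
    exact h2
  obtain ⟨n, hn, Q, hQS, m, hm⟩ : ∃ n, 1 ≤ n ∧ ∃ Q ∉ S, ∃ m : ℤ,
      Q.valuation L ((fun x => eval x h1)^[n] c01 - r1) = WithZero.exp (2 * m + 1) := by
    rcases Nat.even_or_odd h1.natDegree with he | ho
    · exact exists_odd_even h1 he (by rw [hd1]; exact hd) μ1 hμL c01 r1 hcL' hrL hsepL S hSf
    · exact exists_odd h1 ho (by rw [hd1]; exact hd) μ1 hμL c01 r1 hcL' hrL S hSf
  have hQB : Q ∉ B1 := fun h2 => hQS (Or.inl h2)
  have hQr : Q.valuation L r1 ≤ 1 := not_lt.1 fun h2 => hQS (Or.inr (Or.inl h2))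
  have hQU : ∀ x ∈ U, Q.valuation L x = 1 := by
    intro x hx
    by_contra h2
    exact hQS (Or.inr (Or.inr (Set.mem_biUnion hx h2)))
  -- the completion
  obtain ⟨Fq, Ω, _, _, _, _, _, _, _, D, hD, hval⟩ := exists_locAbs_val Q
  let algLΩ : Algebra L Ω := ((algebraMap Fq Ω).comp (algebraMap L Fq)).toAlgebra
  have t1 : IsScalarTower L Fq Ω := IsScalarTower.of_algebraMap_eq (fun x => rfl)
  have halg : Algebra.IsAlgebraic L W := Algebra.IsAlgebraic.tower_top (K := F) L
  let φ : W →ₐ[L] Ω := IsAlgClosed.lift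
  let algWΩ : Algebra W Ω := φ.toRingHom.toAlgebra
  have t2 : IsScalarTower L W Ω := IsScalarTower.of_algebraMap_eq (fun x => (φ.commutes x).symm)
  have hcl : IsAlgClosure L W := ⟨inferInstance, inferInstance⟩
  have hnm : Normal L W := IsAlgClosure.normal L W
  have hinj : Function.Injective (algebraMap W Ω) := (algebraMap W Ω).injective
  have hLΩ : ∀ x : L, algebraMap Fq Ω (algebraMap L Fq x) = algebraMap W Ω (algebraMap L W x) := by
    intro x
    rw [← IsScalarTower.algebraMap_apply L W Ω, ← IsScalarTower.algebraMap_apply L Fq Ω]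
  -- algebraic elements of `Ω` come from `W`
  have hroot : ∀ (P : L[X]), P ≠ 0 → ∀ z : Ω, aeval z P = 0 → ∃ z0 : W, algebraMap W Ω z0 = z := by
    intro P hP z hz
    have hsp : (P.map (algebraMap L W)).Splits := IsAlgClosed.splits _
    have h2 := hsp.roots_map (algebraMap W Ω)
    rw [Polynomial.map_map, ← IsScalarTower.algebraMap_eq L W Ω] at h2
    have h3 : z ∈ (P.map (algebraMap L Ω)).roots := (mem_aroots).2 ⟨hP, hz⟩
    rw [h2, Multiset.mem_map] at h3
    obtain ⟨z0, -, h4⟩ := h3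
    exact ⟨z0, h4⟩
  have hd10 : derivative h1 ≠ 0 := by
    rw [hh1, derivative_map]
    exact (Polynomial.map_ne_zero_iff (algebraMap F L).injective).2 hd0
  have hcritΩ : ∀ c : Ω, Crit (h1.map (algebraMap L Fq)) c → ∃ c1 : L, Crit h (algebraMap L W c1) ∧
      algebraMap W Ω (algebraMap L W c1) = c := by
    intro c hcc
    obtain ⟨z0, rfl⟩ := hroot (derivative h1) hd10 c (by
      have h2 : aeval c (derivative (h1.map (algebraMap L Fq))) = 0 := hcc
      rwa [derivative_map, aeval_map_algebraMap] at h2)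
    rw [crit_iff, hCritW] at hcc
    obtain ⟨c1, rfl⟩ := hcL z0 hcc
    exact ⟨c1, hcc, rfl⟩
  have hiter : ∀ (n : ℕ) (z : W), (ev (h1.map (algebraMap L Fq)))^[n] (algebraMap W Ω z) =
      algebraMap W Ω ((ev h)^[n] z) := by
    intro n z
    rw [ev_map_iter, hevWn]
  -- active critical points are wandering
  have hact : ∀ c1 : L, Crit h (algebraMap L W c1) →
      (∃ n, 1 ≤ n ∧ D.N ((ev (h1.map (algebraMap L Fq)))^[n] (algebraMap W Ω (algebraMap L W c1)) -
        algebraMap Fq Ω (algebraMap L Fq r1)) < 1) → Wand h (algebraMap L W c1) := by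
    rintro c1 hcc ⟨k, hk, hlt⟩
    by_contra hw
    have e1 : (ev (h1.map (algebraMap L Fq)))^[k] (algebraMap W Ω (algebraMap L W c1)) -
        algebraMap Fq Ω (algebraMap L Fq r1) =
        algebraMap Fq Ω (algebraMap L Fq ((fun y => eval y h1)^[k] c1 - r1)) := by
      rw [hLΩ, hLΩ, map_sub (algebraMap L W), map_sub (algebraMap W Ω), hiter, hit1]
    rw [e1] at hlt
    have h2 := ((hD _).2).1 hlt
    have h3 : (fun y => eval y h1)^[k] c1 - r1 ∈ U := by
      refine ⟨?_, Or.inl ⟨_, hcc, hw, k, ?_⟩⟩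
      · intro h4
        apply hav _ hcc k
        rw [← hit1, sub_eq_zero.1 h4, hr1]
      · rw [map_sub, hit1, hr1]
    rw [hQU _ h3] at h2
    exact lt_irrefl _ h2
  obtain ⟨A, l, hln, hA1, ⟨z1, hz1, hz1A⟩, hA3⟩ := local_swap22 D (h1.map (algebraMap L Fq))
    (hgood Q hQB Fq Ω D hD) (algebraMap L Fq r1) (((hD r1).1).2 hQr)
    (fun c hcc hca => by
      obtain ⟨c1, hc1, rfl⟩ := hcritΩ c hcc
      have hw := hact c1 hc1 hca
      rcases hc.odd _ hc1 hw with h2 | h2
      · left
        rw [simp_iff, hSimpW]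
        exact h2
      · right
        rw [mult_eq]
        have e : (derivative h1).map (algebraMap L W) = (derivative h).map (algebraMap F W) := by
          rw [hh1, derivative_map, Polynomial.map_map, ← IsScalarTower.algebraMap_eq]
        rw [e]
        exact h2)
    (fun c c' hcs hcs' hca hca' hne hlt => by
      obtain ⟨c1, hc1, rfl⟩ := hcritΩ c hcs.1
      obtain ⟨c1', hc1', rfl⟩ := hcritΩ c' hcs'.1
      have hw := hact c1 hc1 hca
      have hw' := hact c1' hc1' hca'
      rw [simp_iff, hSimpW] at hcs hcs'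
      have hne' : algebraMap L W c1 ≠ algebraMap L W c1' := fun h2 => hne (by rw [h2])
      have h2 : ev h (ev h (algebraMap L W c1)) ≠ ev h (ev h (algebraMap L W c1')) := fun h3 =>
        hne' (hc.sep _ _ hcs hcs' hw hw' h3)
      have ee : ∀ x : L, algebraMap L W (eval x h1) = ev h (algebraMap L W x) := fun x => hit1 1 x
      have e2 : ∀ z : W, ev (h1.map (algebraMap L Fq)) (algebraMap W Ω z) = algebraMap W Ω (ev h z) :=
        fun z => hiter 1 z
      have e1 : ev (h1.map (algebraMap L Fq)) (ev (h1.map (algebraMap L Fq))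
            (algebraMap W Ω (algebraMap L W c1))) -
          ev (h1.map (algebraMap L Fq)) (ev (h1.map (algebraMap L Fq)) (algebraMap W Ω (algebraMap L W c1'))) =
          algebraMap Fq Ω (algebraMap L Fq (eval (eval c1 h1) h1 - eval (eval c1' h1) h1)) := by
        rw [hLΩ, map_sub (algebraMap L W), map_sub (algebraMap W Ω), ee, ee, ee, ee, e2, e2, e2, e2]
      rw [e1] at hlt
      have h3 := ((hD _).2).1 hlt
      have h4 : eval (eval c1 h1) h1 - eval (eval c1' h1) h1 ∈ U := by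
        refine ⟨?_, Or.inr (Or.inl ⟨_, _, hc1, hc1', ?_⟩)⟩
        · intro h5
          apply h2
          rw [← ee, ← ee, ← ee, ← ee, sub_eq_zero.1 h5]
        · rw [map_sub, ee, ee, ee, ee]
      rw [hQU _ h4] at h3
      exact lt_irrefl _ h3)
    (fun c hcs hca hlt => by
      obtain ⟨c1, hc1, rfl⟩ := hcritΩ c hcs.1
      have hw := hact c1 hc1 hca
      rw [simp_iff, hSimpW] at hcs
      have h2 : ¬ Crit h (ev h (algebraMap L W c1)) := hc.ncr _ hcs hw
      have ee : ∀ x : L, algebraMap L W (eval x h1) = ev h (algebraMap L W x) := fun x => hit1 1 x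
      have e2 : ∀ z : W, ev (h1.map (algebraMap L Fq)) (algebraMap W Ω z) = algebraMap W Ω (ev h z) :=
        fun z => hiter 1 z
      have e3 : aeval (ev h (algebraMap L W c1)) (derivative h) =
          algebraMap L W (eval (eval c1 h1) (derivative h1)) := by
        rw [← ee, hh1, derivative_map, ← aeval_map_algebraMap L (algebraMap L W (eval c1 (h.map (algebraMap F L))))
          (derivative h), aeval_algebraMap_apply, coe_aeval_eq_eval]
      have e1 : aeval (ev (h1.map (algebraMap L Fq)) (algebraMap W Ω (algebraMap L W c1)))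
          (derivative (h1.map (algebraMap L Fq))) =
          algebraMap Fq Ω (algebraMap L Fq (eval (eval c1 h1) (derivative h1))) := by
        rw [hLΩ, ← e3, e2, derivative_map, aeval_map_algebraMap, aeval_algebraMap_apply, hh1, derivative_map,
          aeval_map_algebraMap]
      rw [e1] at hlt
      have h3 := ((hD _).2).1 hlt
      have h4 : eval (eval c1 h1) (derivative h1) ∈ U := by
        refine ⟨?_, Or.inr (Or.inr ⟨_, hc1, e3.symm⟩)⟩
        intro h5
        apply h2
        unfold Crit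
        rw [e3, h5, map_zero]
      rw [hQU _ h4] at h3
      exact lt_irrefl _ h3)
    (algebraMap L Fq c01) (by
      rw [hLΩ, hc01, simp_iff, hSimpW]
      exact hc0s) n hn (-m - 1) (by
      rw [eval_map_iter, ← map_sub, hval _ _ hm]
      congr 1
      ring)
  obtain ⟨B, hB⟩ := exists_restr (K := L) (E := W) A
  have hnode : ∀ (k : ℕ) (z : W), (ev h)^[k] z = r →
      algebraMap W Ω z ∈ Node Ω (h1.map (algebraMap L Fq)) (algebraMap L Fq r1) k := by
    intro k z hz
    show (ev (h1.map (algebraMap L Fq)))^[k] (algebraMap W Ω z) = _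
    rw [hiter, hz, hLΩ, hr1]
  refine ⟨B.restrictScalars F, l, ?_, ?_, ?_, ?_, ?_⟩
  · intro t ht
    obtain ⟨x, rfl⟩ := hTL t (Or.inl ht)
    exact B.commutes x
  · rw [← hr1]
    exact B.commutes r1
  · intro k hk z hz
    apply hinj
    show algebraMap W Ω (B z) = _
    rw [hB]
    exact hA1 k hk _ (hnode k z hz)
  · obtain ⟨z0, hz0⟩ := hroot (itp h1 (l + 1) - C r1) (by
        intro h2
        have h3 : (itp h1 (l + 1)).natDegree = 0 := by
          rw [sub_eq_zero.1 h2, natDegree_C]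
        rw [itp, natDegree_iterate_comp, natDegree_X, mul_one, hd1] at h3
        exact absurd h3 (pow_ne_zero _ (by omega))) z1 (by
        have h2 : (ev (h1.map (algebraMap L Fq)))^[l + 1] z1 = algebraMap Fq Ω (algebraMap L Fq r1) := hz1
        rw [map_sub, aeval_C, sub_eq_zero, IsScalarTower.algebraMap_apply L Fq Ω, ← h2]
        have h3 : ∀ (k : ℕ) (z : Ω), aeval z (itp h1 k) = (ev (h1.map (algebraMap L Fq)))^[k] z := by
          intro k z
          induction k with
          | zero =>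
            show aeval z (X : L[X]) = z
            rw [aeval_X]
          | succ k ih =>
            rw [itp, Function.iterate_succ_apply', aeval_comp, Function.iterate_succ_apply']
            have h4 : aeval z (h1.comp^[k] X) = (ev (h1.map (algebraMap L Fq)))^[k] z := ih
            rw [h4]
            exact (aeval_map_algebraMap Fq _ h1).symm
        exact h3 _ _)
    refine ⟨z0, ?_, ?_⟩
    · apply hinj
      rw [← hiter, hz0]
      have h2 : (ev (h1.map (algebraMap L Fq)))^[l + 1] z1 = algebraMap Fq Ω (algebraMap L Fq r1) := hz1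
      rw [h2, hLΩ, hr1]
    · intro h2
      apply hz1A
      have h3 : B z0 = z0 := h2
      rw [← hz0, ← hB, h3]
  · intro z z' hz hz' hzz h2 h3
    have hBz : ∀ y : W, B y ≠ y → A (algebraMap W Ω y) ≠ algebraMap W Ω y := by
      intro y hy h4
      apply hy
      apply hinj
      rw [hB, h4]
    have h5 := hA3 (algebraMap W Ω z) (hnode (l + 1) z hz) (algebraMap W Ω z') (hnode (l + 1) z' hz') (by
      have h6 := hiter 2 z
      have h7 := hiter 2 z'
      rw [hzz] at h6
      exact h6.trans h7.symm) (hBz z h2) (hBz z' h3)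
    rcases h5 with h5 | h5
    · exact Or.inl (hinj h5)
    · right
      apply hinj
      rw [h5]
      exact (hB z).symm

end Pool.Agent.ORB.GP
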