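import Pool.Agent.ORB.EExt
import Pool.Agent.ORB.EFresh
import Pool.Agent.ORB.EEngine
import Pool.Agent.ORB.ECycG

/-!
ORB, Theorem V5 (all degrees), rows E5, E8, closed.
-/

set_option autoImplicit false

namespace Pool.Agent.ORB.GP

open Polynomial NI NumberField IsDedekindDomain

universe u

/-- **E5** (engine for all degrees) -/
theorem engine_all {F W : Type u} [Field F] [NumberField F] [Field W] [Algebra F W] [IsAlgClosed W]
    [Algebra.IsAlgebraic F W] (h : F[X]) (hd : 2 ≤ h.natDegree) (hc : CritCond2 h W) (r : W)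
    (hr : ∀ n, 1 ≤ n → (ev h)^[n] r ≠ r) (hav : ∀ c : W, Crit h c → ∀ n, (ev h)^[n] c ≠ r)
    (htr : ∀ (l : ℕ) (y y' : W), (ev h)^[l] y = r → (ev h)^[l] y' = r → ∃ g : W ≃ₐ[F] W, g r = r ∧ g y = y')
    (hFT : FT h r) (hcyc : Cyc h r) (T : Set W) (hT : T.Finite) (s₀ : W ≃ₐ[F] W) (hs₀ : s₀ r = r) :
    ∃ (N : ℕ) (s : W ≃ₐ[F] W), (∀ t ∈ T, s t = s₀ t) ∧ ∀ z : W, (ev h)^[N] z = r → s z ≠ z :=
  engine_all_of (fun h hd hc r hr hav T hT => fresh_swap2 h hd hc r hr hav T hT) h hd hc r hr hav htr hFT hcyc T hT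
    s₀ hs₀

/-- **E8** -/
theorem extR_all {F W : Type u} [Field F] [NumberField F] [Field W] [Algebra F W] [IsAlgClosed W]
    [Algebra.IsAlgebraic F W] (h : F[X]) (hd : 2 ≤ h.natDegree) (hc : CritCond2 h W) (b : F)
    (hb : Function.Injective fun n : ℕ => (fun x => eval x h)^[n] b)
    (ht : TamT h b) : ExtR W (polyRP h) (b : OnePoint F) :=
  extR_all_of h hd (fun r hr hav htr hFT hcy T hT s₀ hs₀ => engine_all h hd hc r hr hav htr hFT hcy T hT s₀ hs₀) b hb
    (fun hper => cyc_of_tamT h hd b hper ht) ht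

/-- **E8b** -/
theorem hasDatum_all {K : Type u} [Field K] [NumberField K] (f : RatFunc K) (β : OnePoint K)
    (hβ : Function.Injective fun n : ℕ => (ract (RingHom.id K) f)^[n] β) (h : AllConj f β) : HasDatum f β :=
  hasDatum_all_of (fun _ _ _ _ _ _ _ _ h hd hc b hb ht => extR_all h hd hc b hb ht) f β hβ h

end Pool.Agent.ORB.GP
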