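import Pool.Agent.ORB.GDefs

/-!
ORB, Theorem V++, row G6a: the number of orbits on the levels is bounded, so that points of a high level
with the same image in some level are conjugate.
-/

set_option autoImplicit false

namespace Pool.Agent.ORB.GP

open Polynomial NI NumberField IsDedekindDomain

section orb

variable {K W : Type*} [Field K] [Field W] [Algebra K W]

theorem aeval_itp (h : K[X]) (n : ℕ) (z : W) : aeval z (itp h n) = (ev h)^[n] z := by
  induction n with
  | zero => simp [itp]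
  | succ n ih =>
    have e1 : itp h (n + 1) = h.comp (itp h n) := by
      unfold itp
      rw [Function.iterate_succ_apply']
    rw [e1, aeval_comp, ih, Function.iterate_succ_apply']
    rfl

theorem exists_preG [IsAlgClosed W] (h : K[X]) (hd : 1 ≤ h.natDegree) (l : ℕ) (y : W) :
    ∃ z : W, (ev h)^[l] z = y := by
  induction l generalizing y with
  | zero => exact ⟨y, rfl⟩
  | succ l ih =>
    obtain ⟨x, hx⟩ : ∃ x : W, ev h x = y := by
      have h1 : (h.map (algebraMap K W) - C y).degree ≠ 0 := by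
        intro h0
        have h3 : (h.map (algebraMap K W) - C y).natDegree = 0 :=
          natDegree_eq_zero_iff_degree_le_zero.2 h0.le
        rw [natDegree_sub_C, natDegree_map] at h3
        omega
      obtain ⟨x, hx⟩ := IsAlgClosed.exists_root _ h1
      refine ⟨x, ?_⟩
      rw [IsRoot, eval_sub, eval_C, eval_map_algebraMap, sub_eq_zero] at hx
      exact hx
    obtain ⟨z, hz⟩ := ih x
    exact ⟨z, by rw [Function.iterate_succ_apply', hz, hx]⟩

/-- the minimal polynomials of the points of a level -/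
def mpG (W : Type*) [Field W] [Algebra K W] (h : K[X]) (b : K) (n : ℕ) : Set K[X] :=
  minpoly K '' Node W h b n

theorem mpG_finite (h : K[X]) (hd : 1 ≤ h.natDegree) (b : K) (n : ℕ) : (mpG W h b n).Finite :=
  (nodeW_finite h hd b n).image _

theorem mpG_card [Algebra.IsAlgebraic K W] (h : K[X]) (hd : 1 ≤ h.natDegree) (b : K) {C : ℕ}
    (hC : ∀ (n : ℕ) (s : Finset K[X]), (∀ P ∈ s, P.Monic ∧ Irreducible P ∧ P ∣ itp h n - Polynomial.C b) →
      s.card ≤ C) (n : ℕ) : (mpG W h b n).ncard ≤ C := by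
  classical
  have hfin := mpG_finite (W := W) h hd b n
  rw [Set.ncard_eq_toFinset_card _ hfin]
  refine hC n _ fun P hP => ?_
  rw [Set.Finite.mem_toFinset] at hP
  obtain ⟨z, hz, rfl⟩ := hP
  have hint : IsIntegral K z := Algebra.IsIntegral.isIntegral z
  refine ⟨minpoly.monic hint, minpoly.irreducible hint, minpoly.dvd _ _ ?_⟩
  rw [map_sub, aeval_itp, aeval_C, sub_eq_zero]
  exact hz

theorem exists_lift [IsAlgClosed W] (h : K[X]) (hd : 1 ≤ h.natDegree) (b : K) (k l : ℕ) :
    ∀ P ∈ mpG W h b k, ∃ z ∈ Node W h b (k + l), minpoly K ((ev h)^[l] z) = P := by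
  rintro P ⟨y, hy, rfl⟩
  obtain ⟨z, hz⟩ := exists_preG h hd l y
  refine ⟨z, ?_, by rw [hz]⟩
  rw [nodeW_iff, hz]
  exact hy

/-- conjugate points have conjugate images -/
theorem minpoly_iter [Normal K W] (h : K[X]) (l : ℕ) (u v : W) (huv : minpoly K u = minpoly K v) :
    minpoly K ((ev h)^[l] u) = minpoly K ((ev h)^[l] v) := by
  obtain ⟨g, hg⟩ := IsConjRoot.exists_algEquiv (K := K) (L := W) huv
  rw [← hg, ← ev_aut_iter]
  exact minpoly.algEquiv_eq g _

/-- if the number of orbits does not grow then points with the same image are conjugate -/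
theorem conjG_of_card [IsAlgClosed W] [Normal K W] (h : K[X]) (hd : 1 ≤ h.natDegree) (b : K) (k l : ℕ)
    (hk : (mpG W h b (k + l)).ncard ≤ (mpG W h b k).ncard) {z z' : W}
    (hz : z ∈ Node W h b (k + l)) (hzz : (ev h)^[l] z = (ev h)^[l] z') : IsConjRoot K z z' := by
  classical
  have hz' : z' ∈ Node W h b (k + l) := by
    rw [nodeW_iff] at hz ⊢
    rw [← hzz]
    exact hz
  have hex := exists_lift (W := W) h hd b k l
  choose! s hs1 hs2 using hex
  have hsurj := Set.surj_on_of_inj_on_of_ncard_le (s := mpG W h b k) (t := mpG W h b (k + l))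
    (fun P _ => minpoly K (s P)) (fun P hP => ⟨s P, hs1 P hP, rfl⟩) (by
      intro P Q hP hQ hPQ
      have := minpoly_iter h l _ _ hPQ
      rw [hs2 P hP, hs2 Q hQ] at this
      exact this) hk (mpG_finite h hd b (k + l))
  obtain ⟨P, hP, hPz⟩ := hsurj _ ⟨z, hz, rfl⟩
  obtain ⟨Q, hQ, hQz⟩ := hsurj _ ⟨z', hz', rfl⟩
  have h1 : P = Q := by
    rw [← hs2 P hP, ← hs2 Q hQ, ← minpoly_iter h l _ _ hPz, ← minpoly_iter h l _ _ hQz, hzz]
  rw [isConjRoot_def, hPz, hQz, h1]

end orb

/-- **G6a** (orbits) -/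
theorem exists_tran {K W : Type*} [Field K] [CharZero K] [Field W] [Algebra K W] [IsAlgClosed W]
    [Algebra.IsAlgebraic K W] (h : K[X]) (hd : 1 ≤ h.natDegree) (b : K) (hst : EvStable h b) :
    ∃ k₀ : ℕ, ∀ l, ∀ z ∈ Node W h b (k₀ + l), ∀ z' : W, (ev h)^[l] z = (ev h)^[l] z' →
      ∃ g : W ≃ₐ[K] W, g z = z' := by
  have : Normal K W := normal_iff.2 fun x =>
    ⟨Algebra.IsIntegral.isIntegral x, IsAlgClosed.splits _⟩
  obtain ⟨C, hC⟩ := hst
  have hbd : BddAbove (Set.range fun n => (mpG W h b n).ncard) := by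
    refine ⟨C, ?_⟩
    rintro _ ⟨n, rfl⟩
    exact mpG_card h hd b hC n
  obtain ⟨k₀, hk₀⟩ := Nat.sSup_mem (Set.range_nonempty _) hbd
  refine ⟨k₀, fun l z hz z' hzz => ?_⟩
  have h1 : (mpG W h b (k₀ + l)).ncard ≤ (mpG W h b k₀).ncard := by
    have := le_csSup hbd ⟨k₀ + l, rfl⟩
    rw [← hk₀] at this
    exact this
  exact IsConjRoot.exists_algEquiv (conjG_of_card h hd b k₀ l h1 hz hzz).symm

end Pool.Agent.ORB.GP
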