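import Pool.Agent.ORB.NDefs

/-!
ORB, Theorem B, row N2: the values of the field `F(mu, ϖ)` are the powers of the value of `ϖ`.
-/

namespace Pool.Agent.ORB.NI

open Polynomial IntermediateField Finset

namespace Val

section abs
variable {F Ω : Type*} [Field F] [Field Ω] [Algebra F Ω] (D : LocAbs F Ω)

theorem add_eq {x y : Ω} (h : D.N x ≠ D.N y) : D.N (x + y) = max (D.N x) (D.N y) := by
  have key : ∀ x y : Ω, D.N x < D.N y → D.N (x + y) = max (D.N x) (D.N y) := by
    intro x y hxy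
    refine le_antisymm (D.nonarch x y) ?_
    rw [max_eq_right hxy.le]
    have h1 := D.nonarch (x + y) (-x)
    rw [add_neg_cancel_comm, D.N.map_neg] at h1
    rcases le_max_iff.1 h1 with h2 | h2
    · exact h2
    · exact absurd h2 (not_le.2 hxy)
  rcases lt_or_gt_of_ne h with h1 | h1
  · exact key x y h1
  · rw [add_comm, max_comm]
    exact key y x h1

theorem sum_le {ι : Type*} (s : Finset ι) (t : ι → Ω) {B : ℝ} (hB : 0 ≤ B)
    (h : ∀ i ∈ s, D.N (t i) ≤ B) : D.N (∑ i ∈ s, t i) ≤ B := by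
  classical
  induction s using Finset.induction_on with
  | empty => rw [sum_empty, map_zero]; exact hB
  | insert a s ha ih =>
    rw [sum_insert ha]
    exact (D.nonarch _ _).trans (max_le (h a (mem_insert_self a s))
      (ih fun i hi => h i (mem_insert_of_mem hi)))

theorem exists_le_of_sum {ι : Type*} (s : Finset ι) (t : ι → Ω) (h : ∑ i ∈ s, t i ≠ 0) :
    ∃ i ∈ s, D.N (∑ i ∈ s, t i) ≤ D.N (t i) := by
  classical
  by_contra hcon
  push Not at hcon
  have hs : s.Nonempty := by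
    rw [nonempty_iff_ne_empty]
    rintro rfl
    exact h sum_empty
  obtain ⟨j, hj, hmax⟩ := s.exists_max_image (fun i => D.N (t i)) hs
  exact absurd (sum_le D s t (D.N.nonneg _) hmax) (not_le.2 (hcon j hj))

theorem exists_eq_of_sum {ι : Type*} [DecidableEq ι] (s : Finset ι) (t : ι → Ω) (hs : s.Nonempty)
    (hd : ∀ i ∈ s, ∀ j ∈ s, i ≠ j → D.N (t i) ≠ D.N (t j)) :
    ∃ i ∈ s, D.N (∑ i ∈ s, t i) = D.N (t i) := by
  induction s using Finset.induction_on with
  | empty => exact absurd rfl hs.ne_empty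
  | insert a s ha ih =>
    rw [sum_insert ha]
    rcases s.eq_empty_or_nonempty with rfl | hne
    · exact ⟨a, mem_insert_self _ _, by rw [sum_empty, add_zero]⟩
    · obtain ⟨j, hj, h1⟩ := ih hne fun i hi j hj => hd i (mem_insert_of_mem hi) j
        (mem_insert_of_mem hj)
      have h2 : D.N (t a) ≠ D.N (∑ i ∈ s, t i) := by
        rw [h1]
        exact hd a (mem_insert_self _ _) j (mem_insert_of_mem hj) (by
          rintro rfl
          exact ha hj)
      rw [add_eq D h2]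
      rcases max_choice (D.N (t a)) (D.N (∑ i ∈ s, t i)) with h3 | h3
      · exact ⟨a, mem_insert_self _ _, h3⟩
      · exact ⟨j, mem_insert_of_mem hj, by rw [h3, h1]⟩

theorem nat_le (n : ℕ) : D.N (n : Ω) ≤ 1 := by
  induction n with
  | zero => simp
  | succ n ih =>
    rw [Nat.cast_succ]
    exact (D.nonarch _ _).trans (max_le ih (by rw [map_one]))

theorem root_one {ζ : Ω} {n : ℕ} (hn : 1 ≤ n) (h : ζ ^ n = 1) : D.N ζ = 1 := by
  have h1 : D.N ζ ^ n = 1 := by rw [← map_pow, h, map_one]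
  exact (pow_eq_one_iff_of_nonneg (D.N.nonneg _) (by omega)).1 h1

theorem eq_one_of_mul {a b : ℝ} (ha0 : 0 ≤ a) (ha : a ≤ 1) (hb : b ≤ 1) (h : a * b = 1) : a = 1 := by
  refine le_antisymm ha ?_
  calc (1 : ℝ) = a * b := h.symm
    _ ≤ a * 1 := mul_le_mul_of_nonneg_left hb ha0
    _ = a := mul_one a

theorem dvd_one {k n : ℕ} (h : k ∣ n) (hn : D.N (n : Ω) = 1) : D.N (k : Ω) = 1 := by
  obtain ⟨m, rfl⟩ := h
  rw [Nat.cast_mul, map_mul] at hn
  exact eq_one_of_mul (D.N.nonneg _) (nat_le D k) (nat_le D m) hn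

/-- different roots of unity of a unit order have distance one -/
theorem root_sub {ζ ζ' : Ω} {n : ℕ} (hn : 1 ≤ n) (hN : D.N (n : Ω) = 1) (h : ζ ^ n = 1)
    (h' : ζ' ^ n = 1) (hne : ζ ≠ ζ') : D.N (ζ - ζ') = 1 := by
  have hζ0 : ζ ≠ 0 := by
    rintro rfl
    rw [zero_pow (by omega)] at h
    exact zero_ne_one h
  set ξ : Ω := ζ' / ζ with hξ
  have hξn : ξ ^ n = 1 := by rw [hξ, div_pow, h, h', div_one]
  have hξ1 : ξ ≠ 1 := by
    intro h1
    rw [hξ, div_eq_one_iff_eq hζ0] at h1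
    exact hne h1.symm
  have hfin : IsOfFinOrder ξ := isOfFinOrder_iff_pow_eq_one.2 ⟨n, by omega, hξn⟩
  have hpos : 0 < orderOf ξ := hfin.orderOf_pos
  have hprim : IsPrimitiveRoot ξ (orderOf ξ) := IsPrimitiveRoot.orderOf ξ
  have hk1 : orderOf ξ ≠ 1 := by
    intro h1
    exact hξ1 (orderOf_eq_one_iff.1 h1)
  obtain ⟨k, hk⟩ : ∃ k, orderOf ξ = k + 1 + 1 := ⟨orderOf ξ - 2, by omega⟩
  have hprod := (hk ▸ hprim : IsPrimitiveRoot ξ (k + 1 + 1)).prod_one_sub_pow_eq_order
  have hNk : D.N ((k + 1 : ℕ) + 1 : Ω) = 1 := by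
    have h1 := dvd_one D (orderOf_dvd_of_pow_eq_one hξn) hN
    rw [hk] at h1
    exact_mod_cast h1
  have hle : ∀ j : ℕ, D.N (1 - ξ ^ (j + 1)) ≤ 1 := by
    intro j
    rw [sub_eq_add_neg]
    refine (D.nonarch _ _).trans (max_le (by rw [map_one]) ?_)
    rw [D.N.map_neg, map_pow, root_one D hn hξn, one_pow]
  have h1 : D.N (1 - ξ) = 1 := by
    rw [prod_range_succ', zero_add, pow_one] at hprod
    have h2 : D.N (∏ j ∈ range k, (1 - ξ ^ (j + 1 + 1))) ≤ 1 := by
      rw [map_prod]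
      exact prod_le_one (fun _ _ => D.N.nonneg _) fun j _ => hle (j + 1)
    have h3 := congrArg D.N hprod
    rw [map_mul, hNk, mul_comm] at h3
    exact eq_one_of_mul (D.N.nonneg _) (by simpa using hle 0) h2 h3
  have h2 : ζ - ζ' = ζ * (1 - ξ) := by
    rw [hξ, mul_sub, mul_one, mul_div_cancel₀ _ hζ0]
  rw [h2, map_mul, h1, root_one D hn h, mul_one]

/-- polynomials with integral coefficients -/
theorem int_mul {P Q : Polynomial Ω} (hP : ∀ n, D.N (P.coeff n) ≤ 1)
    (hQ : ∀ n, D.N (Q.coeff n) ≤ 1) (n : ℕ) : D.N ((P * Q).coeff n) ≤ 1 := by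
  rw [coeff_mul]
  refine sum_le D _ _ zero_le_one fun i _ => ?_
  rw [map_mul]
  exact mul_le_one₀ (hP _) (D.N.nonneg _) (hQ _)

theorem int_prod {ι : Type*} (s : Finset ι) (P : ι → Polynomial Ω)
    (hP : ∀ i ∈ s, ∀ n, D.N ((P i).coeff n) ≤ 1) (n : ℕ) : D.N ((∏ i ∈ s, P i).coeff n) ≤ 1 := by
  classical
  induction s using Finset.induction_on generalizing n with
  | empty =>
    rw [prod_empty, coeff_one]
    split_ifs
    · rw [map_one]
    · rw [map_zero]
      exact zero_le_one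
  | insert a s ha ih =>
    rw [prod_insert ha]
    exact int_mul D (hP a (mem_insert_self _ _)) (ih fun i hi => hP i (mem_insert_of_mem hi)) n

theorem int_X_sub {y : Ω} (hy : D.N y ≤ 1) (n : ℕ) : D.N ((X - C y : Polynomial Ω).coeff n) ≤ 1 := by
  rw [coeff_sub, coeff_X, coeff_C, sub_eq_add_neg]
  refine (D.nonarch _ _).trans (max_le ?_ ?_)
  · split_ifs
    · rw [map_one]
    · rw [map_zero]
      exact zero_le_one
  · rw [D.N.map_neg]
    split_ifs
    · exact hy
    · rw [map_zero]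
      exact zero_le_one

end abs

section values
variable {F Ω : Type*} [Field F] [Field Ω] [Algebra F Ω] [CharZero F] [IsAlgClosed Ω]
  [Algebra.IsAlgebraic F Ω] (D : LocAbs F Ω)

/-- the extension `F(ζ)` is unramified -/
theorem value_simple {ζ : Ω} {n : ℕ} (hn : 1 ≤ n) (hζn : ζ ^ n = 1) (hN : D.N (n : Ω) = 1) {y : Ω}
    (hy : y ∈ F⟮ζ⟯) (h0 : y ≠ 0) : ∃ k : ℤ, D.N y = D.N (algebraMap F Ω D.π) ^ k := by
  classical
  have hcl : IsAlgClosure F Ω := ⟨inferInstance, inferInstance⟩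
  have hnor : Normal F Ω := IsAlgClosure.normal F Ω
  have halg : IsAlgebraic F ζ := Algebra.IsAlgebraic.isAlgebraic ζ
  have hint : IsIntegral F ζ := halg.isIntegral
  set g := minpoly F ζ with hg
  have hmon : g.Monic := minpoly.monic hint
  obtain ⟨P, hP⟩ : ∃ P : F[X], aeval ζ P = y := by
    have h1 : y ∈ F⟮ζ⟯.toSubalgebra := hy
    rw [adjoin_simple_toSubalgebra_of_isAlgebraic halg, Algebra.adjoin_singleton_eq_range_aeval] at h1
    obtain ⟨P, hP⟩ := h1
    exact ⟨P, hP⟩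
  set A := P %ₘ g with hA
  have hAy : aeval ζ A = y := by
    rw [hA, aeval_modByMonic_eq_self_of_root (minpoly.aeval F ζ), hP]
  have hAdeg : A.degree < g.degree := degree_modByMonic_lt P hmon
  -- the conjugates
  set s : Finset Ω := (g.aroots Ω).toFinset with hs
  have hsep : g.Separable := (minpoly.irreducible hint).separable
  have hcard : (s.card : WithBot ℕ) = g.degree := by
    rw [hs, Multiset.toFinset_card_of_nodup (nodup_aroots_iff_of_splits hmon.ne_zero
      (IsAlgClosed.splits _) |>.2 hsep), ← (IsAlgClosed.splits (g.map (algebraMap F Ω))).natDegree_eq_card_roots,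
      natDegree_map, degree_eq_natDegree hmon.ne_zero]
  have hconj : ∀ r ∈ s, ∃ σ : Ω ≃ₐ[F] Ω, σ ζ = r := by
    intro r hr
    rw [hs, Multiset.mem_toFinset, mem_aroots] at hr
    exact minpoly.exists_algEquiv_of_root' halg hr.2
  have hrn : ∀ r ∈ s, r ^ n = 1 := by
    intro r hr
    obtain ⟨σ, rfl⟩ := hconj r hr
    rw [← map_pow, hζn, map_one]
  set A' : Polynomial Ω := A.map (algebraMap F Ω) with hA'
  have hev : ∀ r ∈ s, D.N (A'.eval r) = D.N y := by
    intro r hr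
    obtain ⟨σ, rfl⟩ := hconj r hr
    have h1 : A'.eval (σ ζ) = σ y := by
      rw [hA', eval_map_algebraMap, ← AlgEquiv.coe_toAlgHom σ, aeval_algHom_apply, hAy]
    rw [h1, D.inv]
  have hinj : Set.InjOn (id : Ω → Ω) s := Set.injOn_id _
  have hinterp : A' = Lagrange.interpolate s id fun r => A'.eval (id r) :=
    Lagrange.eq_interpolate hinj (by
      have h1 : A'.degree < g.degree := (degree_map_le).trans_lt hAdeg
      rw [← hcard] at h1
      exact h1)
  have hbasis : ∀ r ∈ s, ∀ k, D.N ((Lagrange.basis s id r).coeff k) ≤ 1 := by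
    intro r hr k
    rw [Lagrange.basis]
    refine int_prod D _ _ (fun j hj k => ?_) k
    rw [mem_erase] at hj
    rw [Lagrange.basisDivisor, coeff_C_mul, map_mul, map_inv₀]
    have h1 : D.N (id r - id j) = 1 := root_sub D hn hN (hrn r hr) (hrn j hj.2) hj.1.symm
    rw [h1, inv_one, one_mul]
    exact int_X_sub D (root_one D hn (hrn j hj.2)).le k
  have hcoef : ∀ k, D.N (algebraMap F Ω (A.coeff k)) ≤ D.N y := by
    intro k
    have h1 : algebraMap F Ω (A.coeff k) = A'.coeff k := (coeff_map _ _).symm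
    rw [h1, hinterp, Lagrange.interpolate_apply, finsetSum_coeff]
    refine sum_le D _ _ (D.N.nonneg _) fun r hr => ?_
    rw [coeff_C_mul, map_mul]
    calc D.N (A'.eval (id r)) * D.N ((Lagrange.basis s id r).coeff k)
        ≤ D.N (A'.eval (id r)) * 1 :=
          mul_le_mul_of_nonneg_left (hbasis r hr k) (D.N.nonneg _)
      _ = D.N y := by rw [mul_one]; exact hev r hr
  have hsum : y = ∑ k ∈ range (A.natDegree + 1), algebraMap F Ω (A.coeff k) * ζ ^ k := by
    rw [← hAy, aeval_eq_sum_range]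
    exact sum_congr rfl fun k _ => Algebra.smul_def _ _
  obtain ⟨k, -, hk⟩ := exists_le_of_sum D (range (A.natDegree + 1))
    (fun k => algebraMap F Ω (A.coeff k) * ζ ^ k) (by rw [← hsum]; exact h0)
  rw [← hsum, map_mul, map_pow, root_one D hn hζn, one_pow, mul_one] at hk
  have heq : D.N y = D.N (algebraMap F Ω (A.coeff k)) := le_antisymm hk (hcoef k)
  have hne : A.coeff k ≠ 0 := by
    intro h1
    rw [h1, map_zero, map_zero] at heq
    exact h0 ((D.N.eq_zero).1 heq)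
  obtain ⟨j, hj⟩ := D.disc _ hne
  exact ⟨j, by rw [heq, hj]⟩

end values

end Val

section main
variable {F Ω : Type*} [Field F] [Field Ω] [Algebra F Ω] [CharZero F] [IsAlgClosed Ω]
  [Algebra.IsAlgebraic F Ω] (D : LocAbs F Ω)

omit [CharZero F] [IsAlgClosed Ω] in
open Val in
/-- totally ramified over an unramified extension -/
theorem value_step (E : IntermediateField F Ω)
    (hE : ∀ y ∈ E, y ≠ 0 → ∃ k : ℤ, D.N y = D.N (algebraMap F Ω D.π) ^ k) {ϖ : Ω} {m : ℕ} (hm : 1 ≤ m)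
    (hϖ : ϖ ^ m = algebraMap F Ω D.π) {x : Ω} (hxE : x ∈ adjoin E ({ϖ} : Set Ω)) (h0 : x ≠ 0) :
    Pw D ϖ x := by
  classical
  have hπ0 : algebraMap F Ω D.π ≠ 0 := fun h => D.π_ne ((map_eq_zero _).1 h)
  have hϖ0 : ϖ ≠ 0 := by
    rintro rfl
    rw [zero_pow (by omega)] at hϖ
    exact hπ0 hϖ.symm
  have hNϖ0 : 0 < D.N ϖ := D.N.pos hϖ0
  have hNπ : D.N (algebraMap F Ω D.π) = D.N ϖ ^ m := by rw [← hϖ, map_pow]
  have hNϖ1 : D.N ϖ < 1 := by
    by_contra hcon
    push Not at hcon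
    have := one_le_pow₀ (n := m) hcon
    rw [← hNπ] at this
    exact absurd D.π_lt (not_lt.2 this)
  -- a polynomial in `ϖ` of degree `< m`
  have halgE : IsAlgebraic E ϖ := (Algebra.IsAlgebraic.isAlgebraic (R := F) ϖ).tower_top E
  obtain ⟨P, hP⟩ : ∃ P : E[X], aeval ϖ P = x := by
    have h1 : x ∈ (adjoin E ({ϖ} : Set Ω)).toSubalgebra := hxE
    rw [adjoin_simple_toSubalgebra_of_isAlgebraic halgE, Algebra.adjoin_singleton_eq_range_aeval] at h1
    obtain ⟨P, hP⟩ := h1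
    exact ⟨P, hP⟩
  set q : E[X] := X ^ m - C (algebraMap F E D.π) with hq
  have hqm : q.Monic := monic_X_pow_sub_C _ (by omega)
  have hqd : q.natDegree = m := natDegree_X_pow_sub_C
  have hq0 : aeval ϖ q = 0 := by
    rw [hq, map_sub, map_pow, aeval_X, aeval_C, ← IsScalarTower.algebraMap_apply, hϖ, sub_self]
  set A := P %ₘ q with hA
  have hAx : aeval ϖ A = x := by
    rw [hA, aeval_modByMonic_eq_self_of_root hq0, hP]
  have hAdeg : A.natDegree < m := by
    rw [← hqd]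
    exact natDegree_modByMonic_lt P hqm (by
      intro h1
      rw [h1, natDegree_one] at hqd
      omega)
  have hsum : x = ∑ i ∈ range m, (A.coeff i : Ω) * ϖ ^ i := by
    rw [← hAx, aeval_eq_sum_range' hAdeg]
    exact sum_congr rfl fun i _ => Algebra.smul_def _ _
  set s := (range m).filter fun i => A.coeff i ≠ 0 with hs
  have hsum' : x = ∑ i ∈ s, (A.coeff i : Ω) * ϖ ^ i := by
    rw [hsum, hs, sum_filter]
    refine sum_congr rfl fun i _ => ?_
    split_ifs with h1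
    · rfl
    · rw [not_not.1 h1]
      simp
  have hsne : s.Nonempty := by
    rw [nonempty_iff_ne_empty]
    intro h1
    rw [h1, sum_empty] at hsum'
    exact h0 hsum'
  have hval : ∀ i ∈ s, ∃ k : ℤ, D.N ((A.coeff i : Ω) * ϖ ^ i) =
      D.N ϖ ^ ((m : ℤ) * k + i) := by
    intro i hi
    have hne : (A.coeff i : Ω) ≠ 0 := fun h1 => (mem_filter.1 hi).2 (Subtype.ext h1)
    obtain ⟨k, hk⟩ := hE (A.coeff i : Ω) (A.coeff i).2 hne
    refine ⟨k, ?_⟩
    rw [map_mul, hk, hNπ, map_pow, zpow_add₀ hNϖ0.ne', zpow_mul, zpow_natCast, zpow_natCast]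
  choose! κ hκ using hval
  obtain ⟨i, hi, hxi⟩ := exists_eq_of_sum D s (fun i => (A.coeff i : Ω) * ϖ ^ i) hsne
    (by
      intro i hi j hj hij h1
      rw [hκ i hi, hκ j hj] at h1
      have h2 := zpow_right_injective₀ hNϖ0 hNϖ1.ne h1
      have hi' := mem_range.1 (mem_filter.1 hi).1
      have hj' := mem_range.1 (mem_filter.1 hj).1
      have h3 : ((m : ℤ) * κ i + i) % m = ((m : ℤ) * κ j + j) % m := by
        have h4 : (m : ℤ) * κ i + i = (m : ℤ) * κ j + j := h2
        rw [h4]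
      rw [Int.mul_add_emod_self_left, Int.mul_add_emod_self_left,
        Int.emod_eq_of_lt (by omega) (by omega), Int.emod_eq_of_lt (by omega) (by omega)] at h3
      exact hij (by exact_mod_cast h3))
  rw [← hsum', hκ i hi] at hxi
  exact ⟨_, hxi⟩

open Val in
/-- **N2** -/
theorem value_MF {ϖ : Ω} {m : ℕ} (hm : 1 ≤ m) (hϖ : ϖ ^ m = algebraMap F Ω D.π) {x : Ω}
    (hx : x ∈ MF D ϖ) (h0 : x ≠ 0) : Pw D ϖ x := by
  classical
  -- finitely many roots of unity
  obtain ⟨T, hT, hxT⟩ := exists_finset_of_mem_adjoin hx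
  have hT' : ∀ t : Ω, t ∈ T.erase ϖ → ∃ n : ℕ, 1 ≤ n ∧ t ^ n = 1 ∧ D.N (n : Ω) = 1 := by
    intro t ht
    rw [mem_erase] at ht
    rcases hT (mem_coe.2 ht.2) with h | h
    · exact absurd h ht.1
    · exact h
  choose! N hN1 hN2 hN3 using hT'
  set n : ℕ := ∏ t ∈ T.erase ϖ, N t with hn
  have hn1 : 1 ≤ n := Nat.one_le_iff_ne_zero.2 (prod_ne_zero_iff.2 fun t ht => by
    have := hN1 t ht
    omega)
  have hnN : D.N (n : Ω) = 1 := by
    rw [hn, Nat.cast_prod, map_prod]
    exact prod_eq_one hN3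
  have hz : NeZero (n : Ω) := ⟨fun h => by
    rw [h, map_zero] at hnN
    exact zero_ne_one hnN⟩
  obtain ⟨ζ, hζ⟩ := (inferInstance : HasEnoughRootsOfUnity Ω n).prim
  have hζn : ζ ^ n = 1 := hζ.pow_eq_one
  have hn0 : NeZero n := ⟨by omega⟩
  have hunr : ∀ y ∈ F⟮ζ⟯, y ≠ 0 → ∃ k : ℤ, D.N y = D.N (algebraMap F Ω D.π) ^ k :=
    fun y hy h0 => value_simple D hn1 hζn hnN hy h0
  have hmemζ : ζ ∈ F⟮ζ⟯ := mem_adjoin_simple_self F ζ
  generalize F⟮ζ⟯ = E at hunr hmemζ
  refine value_step D E hunr hm hϖ ?_ h0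
  have h1 : adjoin F (T : Set Ω) ≤ (adjoin E ({ϖ} : Set Ω)).restrictScalars F := by
    rw [adjoin_le_iff]
    intro t ht
    by_cases htϖ : t = ϖ
    · rw [htϖ]
      exact subset_adjoin E _ (Set.mem_singleton ϖ)
    · have ht' : t ∈ T.erase ϖ := mem_erase.2 ⟨htϖ, mem_coe.1 ht⟩
      have h2 : t ^ n = 1 := by
        rw [hn, ← mul_prod_erase _ _ ht', pow_mul, hN2 t ht', one_pow]
      obtain ⟨i, -, hi⟩ := hζ.eq_pow_of_pow_eq_one h2
      have h3 : t ∈ E := by
        rw [← hi]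
        exact pow_mem hmemζ i
      exact (adjoin E ({ϖ} : Set Ω)).algebraMap_mem ⟨t, h3⟩
  exact h1 hxT

end main

end Pool.Agent.ORB.NI
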