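import Pool.Agent.ORB.NRigid
import Pool.Agent.ORB.NVal

/-!
ORB, Theorem B, row N5: the automorphism.
-/

namespace Pool.Agent.ORB.NI

open Polynomial IntermediateField

section basic
variable {F Ω : Type*} [Field F] [Field Ω] [Algebra F Ω] (D : LocAbs F Ω)

/-- a root of unity of an order which is a unit is far from `1` -/
theorem one_le_root_sub_one {E : ℕ} (hE1 : D.N (E : Ω) = 1) {η : Ω} (hη : η ^ E = 1) (hne : η ≠ 1) :
    1 ≤ D.N (η - 1) := by
  have hE : E ≠ 0 := by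
    rintro rfl
    simp at hE1
  have hη1 : D.N η = 1 := by
    have h1 : D.N η ^ E = 1 := by rw [← map_pow, hη, map_one]
    exact (pow_eq_one_iff_of_nonneg (D.N.nonneg _) hE).1 h1
  have hgs : ∑ i ∈ Finset.range E, η ^ i = 0 := by
    have h2 := mul_geom_sum η E
    rw [hη, sub_self] at h2
    rcases mul_eq_zero.1 h2 with h | h
    · exact absurd (sub_eq_zero.1 h) hne
    · exact h
  have h3 : (E : Ω) = -((η - 1) * ∑ i ∈ Finset.range E, ∑ j ∈ Finset.range i, η ^ j) := by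
    rw [Finset.mul_sum]
    have h4 : ∀ i ∈ Finset.range E, (η - 1) * ∑ j ∈ Finset.range i, η ^ j = η ^ i - 1 :=
      fun i _ => mul_geom_sum η i
    rw [Finset.sum_congr rfl h4, Finset.sum_sub_distrib, hgs]
    simp
  have h5 : D.N (∑ i ∈ Finset.range E, ∑ j ∈ Finset.range i, η ^ j) ≤ 1 := by
    refine rg_sum_le D _ _ zero_le_one ?_
    intro i _
    refine rg_sum_le D _ _ zero_le_one ?_
    intro j _
    rw [map_pow, hη1, one_pow]
  rw [h3, AbsoluteValue.map_neg, map_mul] at hE1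
  calc (1 : ℝ) = D.N (η - 1) * D.N (∑ i ∈ Finset.range E, ∑ j ∈ Finset.range i, η ^ j) := hE1.symm
    _ ≤ D.N (η - 1) * 1 := mul_le_mul_of_nonneg_left h5 (D.N.nonneg _)
    _ = _ := mul_one _

end basic

variable {F Ω : Type*} [Field F] [Field Ω] [Algebra F Ω] [CharZero F] [IsAlgClosed Ω] [Algebra.IsAlgebraic F Ω]
  (D : LocAbs F Ω)

theorem exists_aut {ϖ ϖ' : Ω} {m E : ℕ} (hm : 1 ≤ m) (hϖ : ϖ ^ m = algebraMap F Ω D.π) (hE : 1 ≤ E)
    (hE1 : D.N (E : Ω) = 1) (hϖ' : ϖ' ^ E = ϖ) :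
    ∃ A : Ω ≃ₐ[F] Ω, (∀ x ∈ MF D ϖ, A x = x) ∧ ∀ c ∈ MF D ϖ, ∀ z, Pw D ϖ' (z - c) → ¬ Pw D ϖ (z - c) →
      A z ≠ z := by
  classical
  have : CharZero Ω := charZero_of_injective_algebraMap (algebraMap F Ω).injective
  have hE0 : E ≠ 0 := by omega
  have hm0 : m ≠ 0 := by omega
  have hmu : muS D ⊆ MF D ϖ := fun x hx => subset_adjoin F _ (Set.mem_insert_of_mem _ hx)
  have hϖM : ϖ ∈ MF D ϖ := subset_adjoin F _ (Set.mem_insert _ _)
  have hπ0 : algebraMap F Ω D.π ≠ 0 := by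
    rw [Ne, map_eq_zero]; exact D.π_ne
  have hϖ0 : ϖ ≠ 0 := by
    rintro rfl
    rw [zero_pow hm0] at hϖ
    exact hπ0 hϖ.symm
  have hϖ'0 : ϖ' ≠ 0 := by
    rintro rfl
    rw [zero_pow hE0] at hϖ'
    exact hϖ0 hϖ'.symm
  have hNϖ : D.N ϖ < 1 := by
    have h1 : D.N ϖ ^ m < 1 := by rw [← map_pow, hϖ]; exact D.π_lt
    exact (pow_lt_one_iff_of_nonneg (D.N.nonneg _) hm0).1 h1
  have hNϖE : D.N ϖ' ^ E = D.N ϖ := by rw [← map_pow, hϖ']
  have hq1 : D.N ϖ' < 1 := by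
    have h1 : D.N ϖ' ^ E < 1 := by rw [hNϖE]; exact hNϖ
    exact (pow_lt_one_iff_of_nonneg (D.N.nonneg _) hE0).1 h1
  have hq0 : 0 < D.N ϖ' := D.N.pos hϖ'0
  have hpow : ∀ k : ℤ, D.N ϖ ^ k = D.N ϖ' ^ ((E : ℤ) * k) := by
    intro k
    rw [← hNϖE, zpow_mul, zpow_natCast]
  have hinj : Function.Injective (fun k : ℤ => D.N ϖ' ^ k) := zpow_right_injective₀ hq0 hq1.ne
  -- the minimal polynomial
  have hint : IsIntegral (MF D ϖ) ϖ' := (Algebra.IsAlgebraic.isAlgebraic (R := F) ϖ').isIntegral.tower_top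
  set P := minpoly (MF D ϖ) ϖ' with hP
  have hP0 : P ≠ 0 := minpoly.ne_zero hint
  have hdeg : E ≤ P.natDegree := by
    by_contra hlt
    push Not at hlt
    have haev : aeval ϖ' P = 0 := minpoly.aeval _ _
    rw [aeval_def, eval₂_eq_sum, Polynomial.sum_def] at haev
    refine rg_sum_ne_zero D P.support ?_ (fun i => algebraMap (MF D ϖ) Ω (P.coeff i) * ϖ' ^ i) ?_ ?_ haev
    · exact Polynomial.support_nonempty.2 hP0
    · intro i hi
      refine mul_ne_zero ?_ (pow_ne_zero _ hϖ'0)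
      rw [Ne, map_eq_zero]
      exact Polynomial.mem_support_iff.1 hi
    · intro i hi j hj hij heq
      have key : ∀ i ∈ P.support, ∃ k : ℤ, D.N (algebraMap (MF D ϖ) Ω (P.coeff i) * ϖ' ^ i) =
          D.N ϖ' ^ ((E : ℤ) * k + i) := by
        intro i hi
        have hne : ((P.coeff i : MF D ϖ) : Ω) ≠ 0 := by
          intro h
          exact Polynomial.mem_support_iff.1 hi (by exact_mod_cast h)
        obtain ⟨k, hk⟩ := value_MF D hm hϖ (P.coeff i).2 hne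
        refine ⟨k, ?_⟩
        rw [map_mul, map_pow, zpow_add₀ hq0.ne', zpow_natCast, ← hpow k]
        congr 1
      obtain ⟨ki, hki⟩ := key i hi
      obtain ⟨kj, hkj⟩ := key j hj
      simp only [hki, hkj] at heq
      have h1 := hinj heq
      have hiE : i < E := lt_of_le_of_lt (Polynomial.le_natDegree_of_mem_supp i hi) hlt
      have hjE : j < E := lt_of_le_of_lt (Polynomial.le_natDegree_of_mem_supp j hj) hlt
      apply hij
      have h2 : ((i : ℤ) % E) = ((j : ℤ) % E) := by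
        have h3 := congrArg (fun t : ℤ => t % E) h1
        simpa [Int.add_emod, Int.mul_emod_right] using h3
      rw [Int.emod_eq_of_lt (by positivity) (by exact_mod_cast hiE),
        Int.emod_eq_of_lt (by positivity) (by exact_mod_cast hjE)] at h2
      exact_mod_cast h2
  set ϖM : MF D ϖ := ⟨ϖ, hϖM⟩ with hϖMdef
  have hPeq : (X ^ E - C ϖM : (MF D ϖ)[X]) = P := by
    refine Polynomial.eq_of_monic_of_dvd_of_natDegree_le (minpoly.monic hint)
      (Polynomial.monic_X_pow_sub_C _ hE0) (minpoly.dvd _ _ ?_) ?_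
    · rw [map_sub, map_pow, aeval_X, aeval_C, hϖ']
      exact sub_self ϖ
    · rw [Polynomial.natDegree_X_pow_sub_C]; exact hdeg
  have : NeZero (E : Ω) := ⟨by exact_mod_cast hE0⟩
  have : NeZero E := ⟨hE0⟩
  obtain ⟨ζ, hζ⟩ := HasEnoughRootsOfUnity.exists_primitiveRoot Ω E
  have hζE : ζ ^ E = 1 := hζ.pow_eq_one
  have hζmu : ζ ∈ muS D := ⟨E, hE, hζE, hE1⟩
  have hroot : aeval (ζ * ϖ') P = 0 := by
    rw [← hPeq, map_sub, map_pow, aeval_X, aeval_C, mul_pow, hζE, one_mul, hϖ']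
    exact sub_self ϖ
  have : Algebra.IsAlgebraic (MF D ϖ) Ω := Algebra.IsAlgebraic.tower_top (K := F) (MF D ϖ)
  have : IsAlgClosure (MF D ϖ) Ω := ⟨inferInstance, inferInstance⟩
  have : Normal (MF D ϖ) Ω := IsAlgClosure.normal _ _
  obtain ⟨σ, hσ⟩ := minpoly.exists_algEquiv_of_root' (K := MF D ϖ) (L := Ω) (x := ζ * ϖ') (y := ϖ')
    hint.isAlgebraic hroot
  have hfix : ∀ x ∈ MF D ϖ, (σ.restrictScalars F) x = x := by
    intro x hx
    exact σ.commutes ⟨x, hx⟩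
  refine ⟨σ.restrictScalars F, hfix, ?_⟩
  set A : Ω ≃ₐ[F] Ω := σ.restrictScalars F with hA
  have hAϖ : A ϖ' = ζ * ϖ' := hσ
  intro c hc z hz hnz hAz
  obtain ⟨k, hk⟩ := hz
  set w := z - c with hw
  have hAw : A w = w := by rw [hw, map_sub, hAz, hfix c hc]
  have hw0 : w ≠ 0 := by
    intro h
    rw [h, map_zero] at hk
    exact (zpow_pos hq0 k).ne hk
  have hζ0 : ζ ≠ 0 := hζ.ne_zero hE0
  set r := w / ϖ' ^ k with hr
  have hNr : D.N r = 1 := by
    rw [hr, map_div₀, map_zpow₀, hk]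
    exact div_self (zpow_pos hq0 k).ne'
  have hAr : A r = r * (ζ ^ k)⁻¹ := by
    rw [hr, map_div₀, map_zpow₀, hAw, hAϖ, mul_zpow]
    field_simp
  have hcl : D.N (A r - r) < 1 := close_of_mem D hmu hNr.le hfix
  have h1 : A r - r = r * ((ζ ^ k)⁻¹ - 1) := by rw [hAr]; ring
  rw [h1, map_mul, hNr, one_mul] at hcl
  refine absurd (one_le_root_sub_one D hE1 (η := (ζ ^ k)⁻¹) ?_ ?_) (not_le.2 hcl)
  · rw [inv_pow, ← zpow_natCast, ← zpow_mul, mul_comm, zpow_mul, zpow_natCast, hζE, one_zpow, inv_one]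
  · intro h
    rw [inv_eq_one] at h
    obtain ⟨j, hj⟩ := (hζ.zpow_eq_one_iff_dvd k).1 h
    apply hnz
    exact ⟨j, by rw [hk, hj, hpow]⟩

end Pool.Agent.ORB.NI
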