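import Pool.Agent.ORB.NLevel
import Pool.Agent.ORB.NAut

/-!
ORB, Theorem B, row N9: the local theorem.
-/

namespace Pool.Agent.ORB.NI

open Polynomial IntermediateField

section
variable {F Ω : Type*} [Field F] [Field Ω] [Algebra F Ω] [CharZero F] [IsAlgClosed Ω] [Algebra.IsAlgebraic F Ω]
  (D : LocAbs F Ω)

omit [CharZero F] [Algebra.IsAlgebraic F Ω] in
/-- a tower of radicals -/
theorem exists_tower {E : ℕ} (hE : E ≠ 0) (x : Ω) : ∃ w : ℕ → Ω, w 0 = x ∧ ∀ n, w (n + 1) ^ E = w n := by
  have h : ∀ y : Ω, ∃ z : Ω, z ^ E = y := fun y => IsAlgClosed.exists_pow_nat_eq y (Nat.pos_of_ne_zero hE)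
  choose r hr using h
  exact ⟨fun n => r^[n] x, rfl, fun n => by
    show (r^[n + 1] x) ^ E = r^[n] x
    rw [Function.iterate_succ_apply', hr]⟩

omit [CharZero F] [IsAlgClosed Ω] [Algebra.IsAlgebraic F Ω] in
theorem N_factorial {f : F[X]} (hf : Good D f) (n : ℕ) (hn : n ≤ f.natDegree) : D.N ((n.factorial : ℕ) : Ω) = 1 := by
  induction n with
  | zero => simp [N_one]
  | succ n ih =>
    rw [Nat.factorial_succ, Nat.cast_mul, N_mul, ih (by omega), hf.tame (n + 1) (by omega) hn, mul_one]

omit [CharZero F] [IsAlgClosed Ω] [Algebra.IsAlgebraic F Ω] in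
theorem aut_ev (f : F[X]) (A : Ω ≃ₐ[F] Ω) (z : Ω) : A (ev f z) = ev f (A z) := by
  rw [ev, ev]
  exact (aeval_algHom_apply (A : Ω →ₐ[F] Ω) z f).symm

theorem local_main {ι : Type*} [Finite ι] (f : ι → F[X]) (b : ι → F) (hf : ∀ i, Good D (f i))
    (hb : ∀ i, ∀ n, 1 ≤ n → (fun x => eval x (f i))^[n] (b i) ≠ b i) (t : ℕ) :
    ∃ (A : Ω ≃ₐ[F] Ω) (s : ℕ), ∀ i, (∀ k, k ≤ t → ∀ z ∈ Node Ω (f i) (b i) k, A z = z) ∧
      (∀ k, s ≤ k → ∀ z ∈ Node Ω (f i) (b i) k, A z = z → ∀ m z', (ev (f i))^[m] z' = z → A z' = z') ∧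
      (1 < D.N (algebraMap F Ω (b i)) → ∀ k, s ≤ k → ∀ z ∈ Node Ω (f i) (b i) k, A z ≠ z) := by
  classical
  have := Fintype.ofFinite ι
  set E : ℕ := ∏ i, (f i).natDegree.factorial with hEdef
  have hE0 : E ≠ 0 := Finset.prod_ne_zero_iff.2 fun i _ => Nat.factorial_ne_zero _
  have hEi : ∀ i, (f i).natDegree.factorial ∣ E := fun i => Finset.dvd_prod_of_mem _ (Finset.mem_univ i)
  have hE1 : D.N (E : Ω) = 1 := by
    rw [hEdef, Nat.cast_prod, map_prod]
    exact Finset.prod_eq_one fun i _ => N_factorial D (hf i) _ le_rfl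
  -- residual orbits of the critical points
  have hcoefs : ∀ i, ∀ n, D.N (algebraMap F Ω ((f i).coeff n)) ≤ 1 := fun i => (hf i).coef
  have hD : ∃ D₀ : ℕ, ∀ i, ∀ c : Ω, aeval c (derivative (f i)) = 0 → ∃ r, 1 ≤ r ∧ ∀ j, D₀ ≤ j →
      D.N ((ev (f i))^[j + r] c - (ev (f i))^[j] c) < 1 := by
    have hfin : ∀ i, {c : Ω | aeval c (derivative (f i)) = 0}.Finite := by
      intro i
      have hne : derivative (f i) ≠ 0 := by
        intro h0
        have := natDegree_eq_zero_of_derivative_eq_zero h0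
        have := (hf i).deg
        omega
      refine (((derivative (f i)).map (algebraMap F Ω)).roots.toFinset.finite_toSet).subset ?_
      intro c hc
      rw [Finset.mem_coe, Multiset.mem_toFinset, mem_roots (Polynomial.map_ne_zero hne), IsRoot.def, eval_map]
      exact hc
    have hint : ∀ i, ∀ c : Ω, aeval c (derivative (f i)) = 0 → D.N c ≤ 1 := by
      intro i c hc
      -- a root of large value would make the derivative nonzero
      by_contra h
      push Not at h
      obtain ⟨c', hc', h1⟩ := (hf i).crit_close (z := c) (by rw [hc, N_zero]; exact one_pos)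
      -- leading term dominates
      set g := ((f i).map (algebraMap F Ω)).derivative with hg
      have hd := (hf i).deg
      have hlc : D.N (g.coeff ((f i).natDegree - 1)) = 1 := by
        rw [hg, coeff_derivative]
        have h1 : (f i).natDegree - 1 + 1 = (f i).natDegree := by omega
        have h2 : (((f i).natDegree - 1 : ℕ) : Ω) + 1 = ((f i).natDegree : Ω) := by
          exact_mod_cast congrArg (Nat.cast (R := Ω)) h1
        rw [h1, h2, N_mul, (hf i).tame _ (by omega) le_rfl, mul_one, coeff_map]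
        exact (hf i).lead
      have hgd : g.natDegree = (f i).natDegree - 1 := by
        apply le_antisymm
        · refine (natDegree_derivative_le _).trans ?_
          rw [natDegree_map_eq_of_injective (algebraMap F Ω).injective]
        · apply le_natDegree_of_ne_zero
          exact ne_zero_of_N D (by rw [hlc]; exact one_ne_zero)
      have h3 : g.eval c = 0 := by
        rw [← dv_eq]
        exact hc
      rw [eval_eq_sum_range, hgd, Finset.sum_range_succ] at h3
      have h4 : D.N (g.coeff ((f i).natDegree - 1) * c ^ ((f i).natDegree - 1)) =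
          D.N c ^ ((f i).natDegree - 1) := by
        rw [N_mul, hlc, one_mul, N_pow]
      have h5 : D.N (∑ n ∈ Finset.range ((f i).natDegree - 1), g.coeff n * c ^ n) <
          D.N (g.coeff ((f i).natDegree - 1) * c ^ ((f i).natDegree - 1)) := by
        rw [h4]
        refine N_sum_lt D _ _ (pow_pos (by linarith) _) fun n hn => ?_
        rw [Finset.mem_range] at hn
        rw [N_mul, N_pow]
        exact (mul_le_of_le_one_left (pow_nonneg (N_nonneg D c) _) ((hf i).dcoef n)).trans_lt
          (pow_lt_pow_right₀ h hn)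
      have h6 := N_add_eq D h5
      rw [h3, N_zero, h4] at h6
      exact absurd h6.symm (pow_pos (by linarith) _).ne'
    have h1 : ∀ i, ∀ c : Ω, ∃ D₀ r : ℕ, 1 ≤ r ∧ (aeval c (derivative (f i)) = 0 → ∀ j, D₀ ≤ j →
        D.N ((ev (f i))^[j + r] c - (ev (f i))^[j] c) < 1) := by
      intro i c
      by_cases hc : aeval c (derivative (f i)) = 0
      · obtain ⟨D₀, r, hr, h⟩ := residual_orbit D (f i) (hcoefs i) c (hint i c hc)
        exact ⟨D₀, r, hr, fun _ => h⟩
      · exact ⟨0, 1, le_rfl, fun h => absurd h hc⟩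
    choose Dc rc hrc hDc using h1
    refine ⟨Finset.univ.sup fun i => (hfin i).toFinset.sup (Dc i), fun i c hc => ⟨rc i c, hrc i c, fun j hj => ?_⟩⟩
    refine hDc i c hc j (le_trans ?_ hj)
    refine le_trans ?_ (Finset.le_sup (f := fun i => (hfin i).toFinset.sup (Dc i)) (Finset.mem_univ i))
    exact Finset.le_sup (f := Dc i) ((hfin i).mem_toFinset.2 hc)
  obtain ⟨D₀, hD₀⟩ := hD
  obtain ⟨w, hw0, hw⟩ := exists_tower hE0 (algebraMap F Ω D.π)
  set L := t + D₀ with hL
  set M := MF D (w L) with hM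
  have hw_ne := w_ne hE0 w hw0 hw L
  have hw_lt := w_lt (D := D) hE0 w hw0 hw L
  have hval : ∀ x ∈ M, x ≠ 0 → Pw D (w L) x := fun x hx h0 => w_val hE0 w hw0 hw hx h0
  -- levels of the exits
  have h1 : ∀ i, ∃ s, ∀ k z, z ∈ Node Ω (f i) (b i) k → z ∉ M → ev (f i) z ∈ M → k ≤ s := fun i =>
    level_exits (hf i) (b i) (hb i) (hEi i) hE0 w hw0 hw D₀ L (by omega) (hD₀ i)
  choose s₁ hs₁ using h1
  have h2 : ∀ i, ∃ s, 1 < D.N (algebraMap F Ω (b i)) → ∀ k, s ≤ k → ∀ z ∈ Node Ω (f i) (b i) k, z ∉ M := by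
    intro i
    by_cases hb1 : 1 < D.N (algebraMap F Ω (b i))
    · obtain ⟨s, hs⟩ := level_infty (hf i) hw_ne hw_lt (b i) hb1
      refine ⟨s, fun _ k hk z hz hzM => hs k hk z hz (hval z hzM ?_)⟩
      intro h0
      have h3 := ((hf i).node_big hb1 k hz).1
      rw [h0, N_zero] at h3
      linarith
    · exact ⟨0, fun h => absurd h hb1⟩
  choose s₂ hs₂ using h2
  obtain ⟨A, hA1, hA2⟩ := exists_aut D (Nat.one_le_iff_ne_zero.2 (pow_ne_zero L hE0)) (w_root hE0 w hw0 hw L)
    (Nat.one_le_iff_ne_zero.2 hE0) hE1 (hw L)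
  -- nodes outside `M` are moved
  have hmove : ∀ i, ∀ k, ∀ z ∈ Node Ω (f i) (b i) k, z ∉ M → A z ≠ z := by
    intro i k
    induction k with
    | zero =>
      intro z hz hzM
      have h3 : z = algebraMap F Ω (b i) := hz
      exact absurd (h3 ▸ M.algebraMap_mem _) hzM
    | succ k ih =>
      intro z hz hzM
      by_cases hev : ev (f i) z ∈ M
      · obtain ⟨c, hc, e, he1, he2, ⟨j, hj⟩, hnp, -⟩ := child_exit D (hf i) (muS_le _) hw_ne (mem_MF _) hval hev hzM
        refine hA2 c hc z ?_ hnp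
        obtain ⟨E', hE'⟩ : e ∣ E := (Nat.dvd_factorial he1 he2).trans (hEi i)
        refine ⟨(E' : ℤ) * j, ?_⟩
        have h3 : D.N (w (L + 1)) ^ E = D.N (w L) := by rw [← N_pow, hw]
        have h4 : D.N (z - c) ^ e = (D.N (w (L + 1)) ^ ((E' : ℤ) * j)) ^ e := by
          rw [hj, ← h3, hE', ← zpow_natCast (D.N (w (L + 1))), ← zpow_mul, ← zpow_natCast (_ ^ _), ← zpow_mul]
          congr 1
          push_cast
          ring
        exact (pow_left_inj₀ (N_nonneg D _) (zpow_nonneg (N_nonneg D _) _) (by omega)).1 h4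
      · intro hAz
        apply ih (ev (f i) z) (Node_succ.1 hz) hev
        rw [aut_ev, hAz]
  -- low levels
  have hlow : ∀ i, ∀ k, ∀ z ∈ Node Ω (f i) (b i) k, z ∈ MF D (w k) := by
    intro i k
    induction k with
    | zero =>
      intro z hz
      have h3 : z = algebraMap F Ω (b i) := hz
      rw [h3]
      exact (MF D _).algebraMap_mem _
    | succ k ih =>
      intro z hz
      exact child_up D (hf i) (hEi i) hE0 (w_mono hE0 w hw0 hw (Nat.le_succ k)) (muS_le _) (w_ne hE0 w hw0 hw k)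
        (mem_MF _) (fun x hx h0 => w_val hE0 w hw0 hw hx h0) (mem_MF _) (hw k) (ih _ (Node_succ.1 hz))
  refine ⟨A, Finset.univ.sup s₁ + Finset.univ.sup s₂ + 1, fun i => ⟨?_, ?_, ?_⟩⟩
  · intro k hk z hz
    exact hA1 z (w_mono hE0 w hw0 hw (by omega : k ≤ L) (hlow i k z hz))
  · intro k hk z hz hAz
    have hzM : z ∈ M := by
      by_contra hzM
      exact hmove i k z hz hzM hAz
    have hle : s₁ i ≤ Finset.univ.sup s₁ := Finset.le_sup (Finset.mem_univ i)
    have key : ∀ m z', (ev (f i))^[m] z' = z → z' ∈ M := by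
      intro m
      induction m with
      | zero =>
        intro z' hz'
        have h3 : z' = z := hz'
        rwa [h3]
      | succ m ih =>
        intro z' hz'
        have h3 := ih (ev (f i) z') (by rwa [← Function.iterate_succ_apply])
        by_contra hz'M
        have h4 : z' ∈ Node Ω (f i) (b i) (k + (m + 1)) := by
          show (ev (f i))^[k + (m + 1)] z' = _
          rw [Function.iterate_add_apply, hz']
          exact hz
        have := hs₁ i _ z' h4 hz'M h3
        omega
    intro m z' hz'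
    exact hA1 z' (key m z' hz')
  · intro hb1 k hk z hz
    have hle : s₂ i ≤ Finset.univ.sup s₂ := Finset.le_sup (Finset.mem_univ i)
    exact hmove i k z hz (hs₂ i hb1 k (by omega) z hz)

end

end Pool.Agent.ORB.NI
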