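import Pool.Agent.ORB.NRes

/-!
ORB, Theorem B, rows N3: rigidity over a field containing the tame roots of unity.
-/

namespace Pool.Agent.ORB.NI

open Polynomial IntermediateField

section basic
variable {F Ω : Type*} [Field F] [Field Ω] [Algebra F Ω] (D : LocAbs F Ω)

/-- the integral elements -/
def rigO : Subring Ω where
  carrier := {x | D.N x ≤ 1}
  mul_mem' := by
    intro x y hx hy
    simp only [Set.mem_ofPred_eq] at *
    rw [map_mul]
    exact mul_le_one₀ hx (D.N.nonneg y) hy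
  one_mem' := by simp
  add_mem' := by
    intro x y hx hy
    exact (D.nonarch x y).trans (max_le hx hy)
  zero_mem' := by simp
  neg_mem' := by
    intro x hx
    simpa using hx

theorem mem_rigO {x : Ω} : x ∈ rigO D ↔ D.N x ≤ 1 := Iff.rfl

theorem rg_sub_lt {x y : Ω} {B : ℝ} (hx : D.N x < B) (hy : D.N y < B) : D.N (x - y) < B := by
  rw [sub_eq_add_neg]
  refine (D.nonarch _ _).trans_lt (max_lt hx ?_)
  rwa [AbsoluteValue.map_neg]

theorem rg_sum_le {α : Type*} (s : Finset α) (x : α → Ω) {B : ℝ} (hB : 0 ≤ B) (h : ∀ i ∈ s, D.N (x i) ≤ B) :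
    D.N (∑ i ∈ s, x i) ≤ B := by
  classical
  induction s using Finset.induction_on with
  | empty => simpa using hB
  | insert a s ha ih =>
    rw [Finset.sum_insert ha]
    refine (D.nonarch _ _).trans (max_le (h a (Finset.mem_insert_self a s)) (ih ?_))
    intro i hi
    exact h i (Finset.mem_insert_of_mem hi)

theorem rg_sum_lt {α : Type*} (s : Finset α) (x : α → Ω) {B : ℝ} (hB : 0 < B) (h : ∀ i ∈ s, D.N (x i) < B) :
    D.N (∑ i ∈ s, x i) < B := by
  classical
  induction s using Finset.induction_on with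
  | empty => simpa using hB
  | insert a s ha ih =>
    rw [Finset.sum_insert ha]
    refine (D.nonarch _ _).trans_lt (max_lt (h a (Finset.mem_insert_self a s)) (ih ?_))
    intro i hi
    exact h i (Finset.mem_insert_of_mem hi)

/-- a sum of nonzero terms with pairwise different values is not zero -/
theorem rg_sum_ne_zero {α : Type*} (s : Finset α) (hs : s.Nonempty) (x : α → Ω) (h0 : ∀ i ∈ s, x i ≠ 0)
    (h : ∀ i ∈ s, ∀ j ∈ s, i ≠ j → D.N (x i) ≠ D.N (x j)) : ∑ i ∈ s, x i ≠ 0 := by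
  classical
  obtain ⟨i, hi, hmax⟩ := Finset.exists_max_image s (fun i => D.N (x i)) hs
  intro hsum
  rw [← Finset.add_sum_erase s x hi] at hsum
  have h1 : D.N (∑ j ∈ s.erase i, x j) < D.N (x i) := by
    refine rg_sum_lt D _ _ (D.N.pos (h0 i hi)) ?_
    intro j hj
    obtain ⟨hj1, hj2⟩ := Finset.mem_erase.1 hj
    exact lt_of_le_of_ne (hmax j hj2) (h j hj2 i hi hj1)
  have h2 : x i = -∑ j ∈ s.erase i, x j := eq_neg_of_add_eq_zero_left hsum
  have h3 : D.N (x i) = D.N (∑ j ∈ s.erase i, x j) := by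
    rw [← AbsoluteValue.map_neg D.N (∑ j ∈ s.erase i, x j), ← h2]
  rw [h3] at h1
  exact lt_irrefl _ h1

end basic

variable {F Ω : Type*} [Field F] [Field Ω] [Algebra F Ω] [CharZero F] [IsAlgClosed Ω] [Algebra.IsAlgebraic F Ω]
  (D : LocAbs F Ω)

omit D in
theorem rg_isGalois : IsGalois F Ω := by
  have : IsAlgClosure F Ω := ⟨inferInstance, inferInstance⟩
  have : Normal F Ω := IsAlgClosure.normal F Ω
  have : Algebra.IsSeparable F Ω := Algebra.IsAlgebraic.isSeparable_of_perfectField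
  exact ⟨⟩

theorem close_of_mem {M : IntermediateField F Ω} (hM : muS D ⊆ M) {x : Ω} (hx : D.N x ≤ 1)
    {g : Ω ≃ₐ[F] Ω} (hg : ∀ y ∈ M, g y = y) : D.N (g x - x) < 1 := by
  rcases lt_or_eq_of_le hx with hlt | heq
  · exact rg_sub_lt D (by rwa [D.inv]) hlt
  · obtain ⟨ζ, hζ, hlt⟩ := exists_mu D x heq
    have h1 : g x - x = g (x - ζ) - (x - ζ) := by
      rw [map_sub, hg ζ (hM hζ)]; ring
    rw [h1]
    exact rg_sub_lt D (by rwa [D.inv]) hlt

theorem rigid {M : IntermediateField F Ω} (hM : muS D ⊆ M) (G : Polynomial Ω) (hG : ∀ n, G.coeff n ∈ M)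
    (hG1 : ∀ n, D.N (G.coeff n) ≤ 1) {ξ : Ω} (hξ : D.N ξ ≤ 1) (h1 : G.eval ξ ∈ M)
    (h2 : D.N (G.derivative.eval ξ) = 1) : ξ ∈ M := by
  have := rg_isGalois (F := F) (Ω := Ω)
  rw [← InfiniteGalois.fixedField_fixingSubgroup M, IntermediateField.mem_fixedField_iff]
  intro g hg
  have hgM : ∀ y ∈ M, g y = y := fun y hy => (IntermediateField.mem_fixingSubgroup_iff M g).1 hg y hy
  have hGg : G.map (g : Ω →+* Ω) = G := by
    ext n
    rw [Polynomial.coeff_map]
    exact hgM _ (hG n)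
  have hev : G.eval (g ξ) = G.eval ξ := by
    have h3 : (G.map (g : Ω →+* Ω)).eval ((g : Ω →+* Ω) ξ) = (g : Ω →+* Ω) (G.eval ξ) := by
      rw [Polynomial.eval_map, Polynomial.eval₂_at_apply]
    rw [hGg] at h3
    exact h3.trans (hgM _ h1)
  have hclose : D.N (g ξ - ξ) < 1 := close_of_mem D hM hξ hgM
  by_contra hne
  have hne' : g ξ ≠ ξ := hne
  have hcoef : (↑G.coeffs : Set Ω) ⊆ ↑(rigO D) := by
    intro y hy
    have hy' : y ∈ G.coeffs := hy
    rw [Polynomial.mem_coeffs_iff] at hy'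
    obtain ⟨n, -, rfl⟩ := hy'
    exact hG1 n
  set G' : (rigO D)[X] := G.toSubring (rigO D) hcoef with hG'
  have hmap : G'.map (rigO D).subtype = G := Polynomial.map_toSubring G (rigO D) hcoef
  set x : rigO D := ⟨ξ, hξ⟩ with hx
  set y : rigO D := ⟨g ξ - ξ, hclose.le⟩ with hy
  obtain ⟨k, hk⟩ := Polynomial.binomExpansion G' x y
  have e1 : ((G'.eval (x + y) : rigO D) : Ω) = G.eval (g ξ) := by
    rw [← hmap]
    have : g ξ = (rigO D).subtype (x + y) := by simp [hx, hy]
    rw [this, Polynomial.eval_map, Polynomial.eval₂_at_apply]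
    rfl
  have e2 : ((G'.eval x : rigO D) : Ω) = G.eval ξ := by
    rw [← hmap]
    have : ξ = (rigO D).subtype x := by simp [hx]
    conv_rhs => rw [this]
    rw [Polynomial.eval_map, Polynomial.eval₂_at_apply]
    rfl
  have e3 : ((G'.derivative.eval x : rigO D) : Ω) = G.derivative.eval ξ := by
    rw [← hmap, Polynomial.derivative_map]
    have : ξ = (rigO D).subtype x := by simp [hx]
    conv_rhs => rw [this]
    rw [Polynomial.eval_map, Polynomial.eval₂_at_apply]
    rfl
  have hk' := congrArg (fun z : rigO D => (z : Ω)) hk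
  simp only [Subring.coe_add, Subring.coe_mul, Subring.coe_pow, e1, e2, e3, hev] at hk'
  have hy0 : (y : Ω) = g ξ - ξ := rfl
  have hyne : (y : Ω) ≠ 0 := by rw [hy0]; exact sub_ne_zero.2 hne'
  have h4 : (y : Ω) * (G.derivative.eval ξ + k * y) = 0 := by linear_combination -hk'
  have h5 : G.derivative.eval ξ = -(k * y : Ω) := by
    rcases mul_eq_zero.1 h4 with h | h
    · exact absurd h hyne
    · exact eq_neg_of_add_eq_zero_left h
  rw [h5, AbsoluteValue.map_neg, map_mul] at h2
  have h6 : D.N (k : Ω) * D.N (y : Ω) < 1 := by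
    have := k.2
    rw [mem_rigO] at this
    calc D.N (k : Ω) * D.N (y : Ω) ≤ 1 * D.N (y : Ω) :=
          mul_le_mul_of_nonneg_right this (D.N.nonneg _)
      _ < 1 := by rw [one_mul]; exact hclose
  linarith

end Pool.Agent.ORB.NI
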