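import Pool.Agent.ORB.NBasic
import Pool.Agent.ORB.NRigid

/-!
ORB, Theorem B: the children of a point of the field `M` of tame inertia (row N4).
-/

set_option autoImplicit false

namespace Pool.Agent.ORB.NI

open Polynomial IntermediateField

theorem one_le_mprod (s : Multiset ℝ) (h : ∀ x ∈ s, 1 ≤ x) : 1 ≤ s.prod := by
  induction s using Multiset.induction_on with
  | empty => simp
  | cons a s ih =>
    rw [Multiset.prod_cons]
    exact one_le_mul_of_one_le_of_one_le (h a (Multiset.mem_cons_self _ _))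
      (ih fun x hx => h x (Multiset.mem_cons_of_mem hx))

section base

variable {Ω : Type*} [Field Ω] (N : AbsoluteValue Ω ℝ) (hN : ∀ x y, N (x + y) ≤ max (N x) (N y))
include hN

theorem na_add_eq {x y : Ω} (h : N y < N x) : N (x + y) = N x := by
  refine le_antisymm ((hN x y).trans (max_le le_rfl h.le)) ?_
  by_contra hcon
  rw [not_le] at hcon
  have h1 := hN (x + y) (-y)
  rw [add_neg_cancel_right, N.map_neg] at h1
  exact absurd h1 (not_le.2 (max_lt hcon h))

theorem na_sum_le {ι : Type*} (s : Finset ι) (f : ι → Ω) {B : ℝ} (hB : 0 ≤ B)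
    (h : ∀ i ∈ s, N (f i) ≤ B) : N (∑ i ∈ s, f i) ≤ B := by
  classical
  induction s using Finset.induction_on with
  | empty => simpa using hB
  | insert a s ha ih =>
    rw [Finset.sum_insert ha]
    exact (hN _ _).trans (max_le (h a (Finset.mem_insert_self _ _))
      (ih fun i hi => h i (Finset.mem_insert_of_mem hi)))

theorem na_nat_le (n : ℕ) : N (n : Ω) ≤ 1 := by
  induction n with
  | zero => simp
  | succ n ih =>
    rw [Nat.cast_succ]
    exact (hN _ _).trans (max_le ih (by rw [map_one]))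

theorem na_eval_le (G : Polynomial Ω) (hG : ∀ n, N (G.coeff n) ≤ 1) {x : Ω} (hx : N x ≤ 1) :
    N (G.eval x) ≤ 1 := by
  rw [eval_eq_sum_range]
  refine na_sum_le N hN _ _ zero_le_one fun i _ => ?_
  rw [map_mul, map_pow]
  exact mul_le_one₀ (hG i) (pow_nonneg (N.nonneg _) _) (pow_le_one₀ (N.nonneg _) hx)

theorem na_eval_unit (H : Polynomial Ω) (hH : ∀ n, N (H.coeff n) ≤ 1) (h0 : N (H.coeff 0) = 1) {x : Ω}
    (hx : N x < 1) : N (H.eval x) = 1 := by
  have h1 : H.eval x = H.coeff 0 + (divX H).eval x * x := by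
    conv_lhs => rw [← divX_mul_X_add H]
    rw [eval_add, eval_mul, eval_X, eval_C, add_comm]
  rw [h1, na_add_eq N hN, h0]
  rw [h0, map_mul]
  have h2 : N ((divX H).eval x) ≤ 1 := na_eval_le N hN _ (fun n => by
    rw [coeff_divX]
    exact hH _) hx.le
  calc N ((divX H).eval x) * N x ≤ 1 * N x := mul_le_mul_of_nonneg_right h2 (N.nonneg _)
    _ = N x := one_mul _
    _ < 1 := hx

theorem na_eval_big (G : Polynomial Ω) (hG : ∀ n, N (G.coeff n) ≤ 1) (hl : N G.leadingCoeff = 1) {x : Ω}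
    (hx : 1 < N x) : N (G.eval x) = N x ^ G.natDegree := by
  have h1 : ∀ n, N (∑ i ∈ Finset.range n, G.coeff i * x ^ i) < N x ^ n := by
    intro n
    induction n with
    | zero => simp
    | succ n ih =>
      rw [Finset.sum_range_succ]
      refine (hN _ _).trans_lt (max_lt ?_ ?_)
      · refine ih.trans (pow_lt_pow_right₀ hx (Nat.lt_succ_self n))
      · rw [map_mul, map_pow]
        calc N (G.coeff n) * N x ^ n ≤ 1 * N x ^ n :=
              mul_le_mul_of_nonneg_right (hG n) (pow_nonneg (N.nonneg _) _)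
          _ = N x ^ n := one_mul _
          _ < N x ^ (n + 1) := pow_lt_pow_right₀ hx (Nat.lt_succ_self n)
  rw [eval_eq_sum_range, Finset.sum_range_succ, add_comm]
  have h2 : N (G.coeff G.natDegree * x ^ G.natDegree) = N x ^ G.natDegree := by
    rw [map_mul, map_pow, coeff_natDegree, hl, one_mul]
  rw [na_add_eq N hN, h2]
  rw [h2]
  exact h1 _

theorem na_root_le (G : Polynomial Ω) (hG : ∀ n, N (G.coeff n) ≤ 1) (hl : N G.leadingCoeff = 1) {x : Ω}
    (hx : G.eval x = 0) : N x ≤ 1 := by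
  by_contra h
  rw [not_le] at h
  have h1 := na_eval_big N hN G hG hl h
  rw [hx, map_zero] at h1
  exact absurd h1.symm (pow_pos (zero_lt_one.trans h) _).ne'

end base

section good

variable {F Ω : Type*} [Field F] [Field Ω] [Algebra F Ω] {D : LocAbs F Ω} {f : F[X]}

theorem Good.lead' (hf : Good D f) : D.N (f.map (algebraMap F Ω)).leadingCoeff = 1 := by
  rw [leadingCoeff_map]
  exact hf.lead

theorem Good.ddeg [CharZero Ω] (_hf : Good D f) :
    (f.map (algebraMap F Ω)).derivative.natDegree = f.natDegree - 1 := by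
  rw [natDegree_derivative, natDegree_map]

theorem Good.dlead [CharZero Ω] (hf : Good D f) :
    D.N (f.map (algebraMap F Ω)).derivative.leadingCoeff = 1 := by
  have hd := hf.deg
  rw [leadingCoeff, hf.ddeg, coeff_derivative, map_mul]
  have h1 : f.natDegree - 1 + 1 = f.natDegree := by omega
  have h2 : ((f.natDegree - 1 : ℕ) : Ω) + 1 = (f.natDegree : Ω) := by
    rw [← Nat.cast_succ, Nat.succ_eq_add_one, h1]
  rw [h1, h2, hf.tame _ (by omega) le_rfl, mul_one, coeff_map]
  exact hf.lead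

theorem aeval_mem' (M : IntermediateField F Ω) {c : Ω} (hc : c ∈ M) (g : F[X]) : aeval c g ∈ M := by
  have h1 := aeval_algebraMap_apply Ω (⟨c, hc⟩ : M) g
  have h2 : algebraMap M Ω ⟨c, hc⟩ = c := rfl
  rw [h2] at h1
  rw [h1]
  exact (aeval (⟨c, hc⟩ : M) g).2

/-- the expansion at a critical point, with the exponent -/
theorem crit_expansion_mult [CharZero Ω] [IsAlgClosed Ω] (hf : Good D f) {c : Ω}
    (hc : aeval c (derivative f) = 0) : ∃ H : Polynomial Ω,
      rootMultiplicity c (f.map (algebraMap F Ω)).derivative + 1 ≤ f.natDegree ∧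
      (∀ z, ev f z - ev f c =
        (z - c) ^ (rootMultiplicity c (f.map (algebraMap F Ω)).derivative + 1) * H.eval (z - c)) ∧
      (∀ n, D.N (H.coeff n) ≤ 1) ∧
      D.N (H.coeff 0) = 1 ∧ ∀ M : IntermediateField F Ω, c ∈ M → ∀ n, H.coeff n ∈ M := by
  classical
  set fΩ := f.map (algebraMap F Ω) with hfΩ
  set f' := fΩ.derivative with hf'
  have hd := hf.deg
  have hf'0 : f' ≠ 0 := by
    intro h
    have h1 := hf.dlead
    rw [← hfΩ, ← hf', h, leadingCoeff_zero, map_zero] at h1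
    exact zero_ne_one h1
  have hcr : f'.eval c = 0 := by rw [hf', hfΩ, ← dv_eq]; exact hc
  have hc1 : D.N c ≤ 1 := na_root_le D.N D.nonarch f' hf.dcoef hf.dlead hcr
  obtain ⟨q, hq, hqd⟩ := exists_eq_pow_rootMultiplicity_mul_and_not_dvd f' hf'0 c
  set m := rootMultiplicity c f' with hm
  have hqc : q.eval c ≠ 0 := by
    intro h
    exact hqd (dvd_iff_isRoot.2 h)
  have hq0 : q ≠ 0 := by
    rintro rfl
    exact hqc eval_zero
  have hlq : q.leadingCoeff = f'.leadingCoeff := by
    conv_rhs => rw [hq]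
    rw [leadingCoeff_mul, ((monic_X_sub_C c).pow m).leadingCoeff, one_mul]
  -- the value of `q` at `c`
  have hqN : D.N (q.eval c) = 1 := by
    have h1 := (IsAlgClosed.splits q).eq_prod_roots
    rw [h1, eval_mul, eval_C, map_mul, hlq, hf.dlead, one_mul, eval_multiset_prod, Multiset.map_map,
      map_multiset_prod, Multiset.map_map]
    refine Multiset.prod_eq_one fun x hx => ?_
    rw [Multiset.mem_map] at hx
    obtain ⟨a, ha, rfl⟩ := hx
    rw [mem_roots hq0] at ha
    simp only [Function.comp, eval_sub, eval_X, eval_C]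
    refine hf.sep c a hc ?_ ?_
    · rw [dv_eq, ← hfΩ, ← hf', hq, eval_mul, ha.eq_zero, mul_zero]
    · rintro rfl
      exact hqc ha
  -- the Taylor expansion
  set T := taylor c fΩ with hT
  have hTd : derivative T = taylor c f' := by
    rw [hT, hf', taylor_apply, taylor_apply, derivative_comp]
    simp
  have hTd2 : derivative T = X ^ m * taylor c q := by
    rw [hTd]
    conv_lhs => rw [hq]
    rw [taylor_apply, mul_comp, pow_comp, sub_comp, X_comp, C_comp, add_sub_cancel_right, taylor_apply]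
  have hTc : ∀ j, T.coeff (j + 1) * ((j : Ω) + 1) = (X ^ m * taylor c q).coeff j := by
    intro j
    rw [← hTd2, coeff_derivative]
  have hj0 : ∀ j : ℕ, ((j : Ω) + 1) ≠ 0 := fun j => by exact_mod_cast Nat.succ_ne_zero j
  have hTz : ∀ j, 1 ≤ j → j < m + 1 → T.coeff j = 0 := by
    intro j hj1 hj2
    obtain ⟨i, rfl⟩ := Nat.exists_eq_add_of_le' hj1
    have h1 := hTc i
    rw [coeff_X_pow_mul', if_neg (by omega)] at h1
    exact (mul_eq_zero.1 h1).resolve_right (hj0 i)
  have hTe : T.coeff (m + 1) * ((m : Ω) + 1) = q.eval c := by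
    rw [hTc, coeff_X_pow_mul', if_pos le_rfl, Nat.sub_self, taylor_coeff_zero]
  have hmd : m + 1 ≤ f.natDegree := by
    have h1 : m ≤ f'.natDegree := by
      have h2 := congrArg natDegree hq
      rw [natDegree_mul (pow_ne_zero _ (X_sub_C_ne_zero c)) hq0, natDegree_pow, natDegree_X_sub_C,
        mul_one] at h2
      omega
    rw [hf', hfΩ, hf.ddeg] at h1
    omega
  have hTN : D.N (T.coeff (m + 1)) = 1 := by
    have h1 := congrArg D.N hTe
    rw [map_mul, hqN] at h1
    have h2 : D.N ((m : Ω) + 1) = 1 := by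
      have := hf.tame (m + 1) (by omega) hmd
      rwa [Nat.cast_succ] at this
    rwa [h2, mul_one] at h1
  obtain ⟨H, hH⟩ : X ^ (m + 1) ∣ T - C (T.coeff 0) := by
    rw [X_pow_dvd_iff]
    intro j hj
    rcases Nat.eq_zero_or_pos j with rfl | hj1
    · simp
    · rw [coeff_sub, hTz j hj1 hj, coeff_C, if_neg (by omega), sub_zero]
  have hHc : ∀ n, H.coeff n = T.coeff (n + (m + 1)) := by
    intro n
    have h1 := congrArg (fun P => P.coeff (n + (m + 1))) hH
    simp only [coeff_sub, coeff_C, coeff_X_pow_mul] at h1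
    rw [if_neg (by omega), sub_zero] at h1
    exact h1.symm
  have hTcoef : ∀ n, T.coeff n = aeval c (hasseDeriv n f) := by
    intro n
    rw [hT, taylor_coeff, ← eval_map_algebraMap]
    congr 1
    ext i
    rw [hasseDeriv_coeff, coeff_map, coeff_map, hasseDeriv_coeff, map_mul, map_natCast]
  have hTint : ∀ n, D.N (T.coeff n) ≤ 1 := by
    intro n
    rw [hT, taylor_coeff]
    refine na_eval_le D.N D.nonarch _ (fun i => ?_) hc1
    rw [hasseDeriv_coeff, map_mul]
    exact mul_le_one₀ (na_nat_le D.N D.nonarch _) (D.N.nonneg _) (hf.coef' _)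
  refine ⟨H, hmd, fun z => ?_, fun n => ?_, ?_, fun M hcM n => ?_⟩
  · have h1 := congrArg (fun P => P.eval (z - c)) hH
    simp only [eval_sub, eval_mul, eval_pow, eval_X, eval_C] at h1
    rw [← h1, hT, taylor_eval, taylor_coeff_zero, sub_add_cancel, ev_eq, ev_eq]
  · rw [hHc]
    exact hTint _
  · rw [hHc, zero_add]
    exact hTN
  · rw [hHc, hTcoef]
    exact aeval_mem' M hcM _

/-- the expansion at a critical point -/
theorem crit_expansion [CharZero Ω] [IsAlgClosed Ω] (hf : Good D f) {c : Ω}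
    (hc : aeval c (derivative f) = 0) : ∃ (e : ℕ) (H : Polynomial Ω), 1 ≤ e ∧ e ≤ f.natDegree ∧
      (∀ z, ev f z - ev f c = (z - c) ^ e * H.eval (z - c)) ∧ (∀ n, D.N (H.coeff n) ≤ 1) ∧
      D.N (H.coeff 0) = 1 ∧ ∀ M : IntermediateField F Ω, c ∈ M → ∀ n, H.coeff n ∈ M := by
  obtain ⟨H, h1, h2, h3, h4, h5⟩ := crit_expansion_mult hf hc
  exact ⟨_, H, by omega, h1, h2, h3, h4, h5⟩

end good

section loc

variable {F Ω : Type*} [Field F] [Field Ω] [Algebra F Ω] [CharZero F] [IsAlgClosed Ω] [Algebra.IsAlgebraic F Ω]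
  (D : LocAbs F Ω)

/-- the critical points lie in `M` -/
theorem crit_mem {f : F[X]} (hf : Good D f) {M : IntermediateField F Ω} (hM : muS D ⊆ M) {c : Ω}
    (hc : aeval c (derivative f) = 0) : c ∈ M := by
  have hcz : CharZero Ω := charZero_of_injective_algebraMap (algebraMap F Ω).injective
  have hN : Normal F Ω := normal_iff.2 fun x =>
    ⟨Algebra.IsIntegral.isIntegral x, IsAlgClosed.splits _⟩
  have hG : IsGalois F Ω := IsGalois.mk
  have hc1 : D.N c ≤ 1 := na_root_le D.N D.nonarch _ hf.dcoef hf.dlead (by rw [← dv_eq]; exact hc)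
  rw [← InfiniteGalois.fixedField_fixingSubgroup M, IntermediateField.mem_fixedField_iff]
  intro g hg
  have hg' : ∀ y ∈ M, g y = y := fun y hy => (IntermediateField.mem_fixingSubgroup_iff _ _).1 hg y hy
  have h1 := close_of_mem D hM hc1 hg'
  by_contra hne
  have h2 : aeval (g c) (derivative f) = 0 := by
    have := aeval_algHom_apply (g : Ω →ₐ[F] Ω) c (derivative f)
    rw [hc, map_zero] at this
    exact this
  have h3 := hf.sep (g c) c h2 hc hne
  exact absurd h3 h1.ne

/-- N4 (a) -/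
theorem child_unit {f : F[X]} (hf : Good D f) {M : IntermediateField F Ω} (hM : muS D ⊆ M) {z : Ω}
    (hz : D.N z ≤ 1) (h1 : ev f z ∈ M) (h2 : D.N (aeval z (derivative f)) = 1) : z ∈ M := by
  refine rigid D hM (f.map (algebraMap F Ω)) (fun n => ?_) hf.coef' hz (by rw [← ev_eq]; exact h1)
    (by rw [← dv_eq]; exact h2)
  rw [coeff_map]
  exact M.algebraMap_mem _

/-- a point outside the unit disc whose value is the value of an element of `M` -/
theorem key_inf {f : F[X]} (hf : Good D f) {M : IntermediateField F Ω} (hM : muS D ⊆ M) {z t : Ω}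
    (hz : 1 < D.N z) (ht : t ∈ M) (hzt : D.N z = D.N t) (h1 : ev f z ∈ M) : z ∈ M := by
  have hcz : CharZero Ω := charZero_of_injective_algebraMap (algebraMap F Ω).injective
  have hd := hf.deg
  have ht0 : t ≠ 0 := by
    rintro rfl
    rw [map_zero] at hzt
    linarith
  have hNt : 0 < D.N t := D.N.pos ht0
  have h3 : z / t ∈ M := by
    refine rigid D hM (C (t ^ f.natDegree)⁻¹ * (f.map (algebraMap F Ω)).comp (C t * X)) (fun n => ?_)
      (fun n => ?_) (ξ := z / t) ?_ ?_ ?_
    · rw [coeff_C_mul, comp_C_mul_X_coeff, coeff_map]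
      exact mul_mem (inv_mem (pow_mem ht _)) (mul_mem (M.algebraMap_mem _) (pow_mem ht _))
    · rw [coeff_C_mul, comp_C_mul_X_coeff, map_mul, map_mul, map_pow, map_inv₀, map_pow]
      rcases le_or_gt n f.natDegree with hn | hn
      · rw [inv_mul_le_iff₀ (pow_pos hNt _), mul_one]
        calc D.N ((f.map (algebraMap F Ω)).coeff n) * D.N t ^ n ≤ 1 * D.N t ^ n :=
              mul_le_mul_of_nonneg_right (hf.coef' n) (pow_nonneg hNt.le _)
          _ = D.N t ^ n := one_mul _
          _ ≤ D.N t ^ f.natDegree := pow_le_pow_right₀ (by linarith) hn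
      · rw [coeff_eq_zero_of_natDegree_lt (by rw [natDegree_map]; exact hn), map_zero, zero_mul,
          mul_zero]
        exact zero_le_one
    · rw [map_div₀, hzt, div_self hNt.ne']
    · rw [eval_mul, eval_C, eval_comp, eval_mul, eval_C, eval_X, mul_div_cancel₀ z ht0, ← ev_eq]
      exact mul_mem (inv_mem (pow_mem ht _)) h1
    · have h4 : (f.map (algebraMap F Ω)).derivative.natDegree + 1 = f.natDegree := by
        rw [hf.ddeg]
        omega
      rw [derivative_C_mul, derivative_comp, eval_mul, eval_C, eval_mul, eval_comp, eval_mul, eval_C,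
        eval_X, mul_div_cancel₀ z ht0, map_mul, map_inv₀, map_pow, map_mul,
        na_eval_big D.N D.nonarch _ hf.dcoef hf.dlead hz, derivative_C_mul, derivative_X, mul_one,
        eval_C, hzt, ← pow_succ', h4, inv_mul_cancel₀ (pow_pos hNt _).ne']
  have h5 := mul_mem h3 ht
  rwa [div_mul_cancel₀ z ht0] at h5

/-- a point near a critical point with the value of the difference the value of an element of `M` -/
theorem key_crit {f : F[X]} (hf : Good D f) {M : IntermediateField F Ω} (hM : muS D ⊆ M) {z c t : Ω}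
    (hc : aeval c (derivative f) = 0) (hz : D.N (z - c) < 1) (ht : t ∈ M) (ht0 : t ≠ 0)
    (hzt : D.N (z - c) = D.N t) (h1 : ev f z ∈ M) : z ∈ M := by
  have hcz : CharZero Ω := charZero_of_injective_algebraMap (algebraMap F Ω).injective
  have hcM := crit_mem D hf hM hc
  obtain ⟨e, H, he1, hed, hexp, hHN, hH0, hHM⟩ := crit_expansion hf hc
  have hNt : 0 < D.N t := D.N.pos ht0
  have hlin : t * ((z - c) / t) = z - c := mul_div_cancel₀ _ ht0
  have hξ : D.N ((z - c) / t) = 1 := by rw [map_div₀, hzt, div_self hNt.ne']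
  have h3 : (z - c) / t ∈ M := by
    refine rigid D hM (X ^ e * H.comp (C t * X)) (fun n => ?_) (fun n => ?_) hξ.le ?_ ?_
    · rw [coeff_X_pow_mul']
      split_ifs
      · rw [comp_C_mul_X_coeff]
        exact mul_mem (hHM M hcM _) (pow_mem ht _)
      · exact zero_mem M
    · rw [coeff_X_pow_mul']
      split_ifs
      · rw [comp_C_mul_X_coeff, map_mul, map_pow]
        exact mul_le_one₀ (hHN _) (pow_nonneg hNt.le _) (pow_le_one₀ hNt.le (by rw [← hzt]; exact hz.le))
      · rw [map_zero]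
        exact zero_le_one
    · rw [eval_mul, eval_pow, eval_X, eval_comp, eval_mul, eval_C, eval_X, hlin, div_pow]
      have h4 : (z - c) ^ e / t ^ e * H.eval (z - c) = (ev f z - ev f c) / t ^ e := by
        rw [hexp z]
        ring
      rw [h4]
      exact div_mem (sub_mem h1 (aeval_mem' M hcM f)) (pow_mem ht _)
    · rw [derivative_mul, derivative_X_pow, derivative_comp, derivative_C_mul, derivative_X, mul_one]
      simp only [eval_add, eval_mul, eval_comp, eval_C, eval_X, eval_pow, hlin]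
      have h5 : D.N ((e : Ω) * ((z - c) / t) ^ (e - 1) * H.eval (z - c)) = 1 := by
        rw [map_mul, map_mul, map_pow, hξ, one_pow, hf.tame e he1 hed,
          na_eval_unit D.N D.nonarch H hHN hH0 hz]
        norm_num
      rw [na_add_eq D.N D.nonarch, h5]
      rw [h5, map_mul, map_mul, map_pow, hξ, one_pow, one_mul]
      have h6 : D.N (H.derivative.eval (z - c)) ≤ 1 := by
        refine na_eval_le D.N D.nonarch _ (fun n => ?_) hz.le
        rw [coeff_derivative, map_mul]
        have h7 : D.N ((n : Ω) + 1) ≤ 1 := by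
          have := na_nat_le D.N D.nonarch (n + 1)
          rwa [Nat.cast_succ] at this
        exact mul_le_one₀ (hHN _) (D.N.nonneg _) h7
      calc D.N t * D.N (H.derivative.eval (z - c)) ≤ D.N t * 1 :=
            mul_le_mul_of_nonneg_left h6 hNt.le
        _ = D.N (z - c) := by rw [mul_one, hzt]
        _ < 1 := hz
  have h5 := mul_mem h3 ht
  rw [div_mul_cancel₀ _ ht0] at h5
  have h6 := add_mem h5 hcM
  rwa [sub_add_cancel] at h6

/-- the two kinds of children outside `M` -/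
theorem child_cases {f : F[X]} (hf : Good D f) {ϖ : Ω} {M : IntermediateField F Ω} (hM : muS D ⊆ M)
    (hv : ∀ x ∈ M, x ≠ 0 → Pw D ϖ x) {z : Ω} (h1 : ev f z ∈ M) (hz : z ∉ M) :
    (1 < D.N z ∧ ∃ k : ℤ, D.N z ^ f.natDegree = D.N ϖ ^ k) ∨
    (D.N z ≤ 1 ∧ D.N (aeval z (derivative f)) < 1 ∧ ∃ c, aeval c (derivative f) = 0 ∧
      D.N (z - c) < 1 ∧ ∃ e : ℕ, 1 ≤ e ∧ e ≤ f.natDegree ∧ ∃ k : ℤ, D.N (z - c) ^ e = D.N ϖ ^ k) := by
  have hcz : CharZero Ω := charZero_of_injective_algebraMap (algebraMap F Ω).injective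
  rcases lt_or_ge 1 (D.N z) with h | h
  · left
    refine ⟨h, ?_⟩
    have h2 := na_eval_big D.N D.nonarch _ hf.coef' hf.lead' h
    rw [← ev_eq, natDegree_map] at h2
    rw [← h2]
    refine hv _ h1 fun h3 => ?_
    rw [h3, map_zero] at h2
    exact absurd h2.symm (pow_pos (zero_lt_one.trans h) _).ne'
  · right
    have h2 : D.N (aeval z (derivative f)) < 1 := by
      refine lt_of_le_of_ne ?_ fun h3 => hz (child_unit D hf hM h h1 h3)
      rw [dv_eq]
      exact na_eval_le D.N D.nonarch _ hf.dcoef h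
    refine ⟨h, h2, ?_⟩
    set f' := (f.map (algebraMap F Ω)).derivative with hf'
    have hf'0 : f' ≠ 0 := by
      intro h
      have h1 := hf.dlead
      rw [← hf', h, leadingCoeff_zero, map_zero] at h1
      exact zero_ne_one h1
    obtain ⟨c, hc, hzc⟩ : ∃ c ∈ f'.roots, D.N (z - c) < 1 := by
      by_contra hcon
      push Not at hcon
      rw [dv_eq, ← hf', (IsAlgClosed.splits f').eq_prod_roots, eval_mul, eval_C, map_mul,
        hf.dlead, one_mul, eval_multiset_prod, Multiset.map_map, map_multiset_prod,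
        Multiset.map_map] at h2
      refine absurd h2 (not_lt.2 (one_le_mprod _ fun x hx => ?_))
      rw [Multiset.mem_map] at hx
      obtain ⟨a, ha, rfl⟩ := hx
      simpa using hcon a ha
    rw [mem_roots hf'0] at hc
    have hc' : aeval c (derivative f) = 0 := by
      rw [dv_eq, ← hf']
      exact hc
    obtain ⟨e, H, he1, hed, hexp, hHN, hH0, hHM⟩ := crit_expansion hf hc'
    refine ⟨c, hc', hzc, e, he1, hed, ?_⟩
    have hcM := crit_mem D hf hM hc'
    have hHu := na_eval_unit D.N D.nonarch H hHN hH0 hzc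
    have h3 : D.N (z - c) ^ e = D.N (ev f z - ev f c) := by
      rw [hexp z, map_mul, map_pow, hHu, mul_one]
    rw [h3]
    refine hv _ (sub_mem h1 (aeval_mem' M hcM f)) fun h4 => ?_
    rw [h4, map_zero] at h3
    have h5 : D.N (z - c) = 0 := (pow_eq_zero_iff (by omega)).1 h3
    rw [AbsoluteValue.eq_zero, sub_eq_zero] at h5
    exact hz (h5 ▸ hcM)

/-- N4 (b): `hv` holds for `M = MF D ϖ` by `value_MF` -/
theorem child_exit {f : F[X]} (hf : Good D f) {ϖ : Ω} {M : IntermediateField F Ω} (hM : muS D ⊆ M)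
    (hϖ0 : ϖ ≠ 0) (hϖ : ϖ ∈ M) (hv : ∀ x ∈ M, x ≠ 0 → Pw D ϖ x) {z : Ω} (h1 : ev f z ∈ M) (hz : z ∉ M) :
    ∃ c ∈ M, ∃ e : ℕ, 1 ≤ e ∧ e ≤ f.natDegree ∧ (∃ k : ℤ, D.N (z - c) ^ e = D.N ϖ ^ k) ∧ ¬ Pw D ϖ (z - c) ∧
      (D.N z ≤ 1 → D.N (aeval z (derivative f)) < 1) := by
  have hd := hf.deg
  rcases child_cases D hf hM hv h1 hz with ⟨h2, h3⟩ | ⟨h2, h3, c, hc, hzc, e, he1, hed, hk⟩
  · refine ⟨0, M.zero_mem, f.natDegree, by omega, le_rfl, by rwa [sub_zero], ?_,
      fun h => absurd h (not_le.2 h2)⟩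
    rintro ⟨k, hk⟩
    rw [sub_zero] at hk
    exact hz (key_inf D hf hM h2 (zpow_mem hϖ k) (by rw [hk, map_zpow₀]) h1)
  · refine ⟨c, crit_mem D hf hM hc, e, he1, hed, hk, ?_, fun _ => h3⟩
    rintro ⟨k, hk⟩
    exact hz (key_crit D hf hM hc hzc (zpow_mem hϖ k) (zpow_ne_zero k hϖ0) (by rw [hk, map_zpow₀]) h1)

/-- N4 (d) -/
theorem child_up {f : F[X]} (hf : Good D f) {ϖ ϖ' : Ω} {E : ℕ} (hE : f.natDegree.factorial ∣ E) (hE0 : E ≠ 0)
    {M M' : IntermediateField F Ω} (hMM' : M ≤ M') (hM : muS D ⊆ M) (hϖ0 : ϖ ≠ 0) (_hϖ : ϖ ∈ M)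
    (hv : ∀ x ∈ M, x ≠ 0 → Pw D ϖ x) (hϖ' : ϖ' ∈ M') (hEϖ : ϖ' ^ E = ϖ)
    {z : Ω} (h1 : ev f z ∈ M) : z ∈ M' := by
  have hd := hf.deg
  by_cases hz : z ∈ M
  · exact hMM' hz
  have hM' : muS D ⊆ M' := hM.trans hMM'
  have hϖ'0 : ϖ' ≠ 0 := by
    rintro rfl
    rw [zero_pow hE0] at hEϖ
    exact hϖ0 hEϖ.symm
  have hNϖ : D.N ϖ = D.N ϖ' ^ E := by rw [← hEϖ, map_pow]
  -- values whose power of a small exponent is a power of the value of `ϖ`
  have key : ∀ (x : ℝ) (e : ℕ), 0 ≤ x → 1 ≤ e → e ≤ f.natDegree → ∀ k : ℤ, x ^ e = D.N ϖ ^ k →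
      ∃ t ∈ M', t ≠ 0 ∧ x = D.N t := by
    intro x e hx he1 hed k hk
    obtain ⟨E1, hE1⟩ : e ∣ E := (Nat.dvd_factorial (by omega) hed).trans hE
    refine ⟨ϖ' ^ ((E1 : ℤ) * k), zpow_mem hϖ' _, zpow_ne_zero _ hϖ'0, ?_⟩
    rw [map_zpow₀]
    refine (pow_left_inj₀ hx (zpow_nonneg (D.N.nonneg _) _) (by omega : e ≠ 0)).1 ?_
    rw [hk, hNϖ, ← zpow_natCast, ← zpow_natCast, ← zpow_mul, ← zpow_mul, hE1]
    congr 1
    push_cast
    ring
  rcases child_cases D hf hM hv h1 hz with ⟨h2, k, h3⟩ | ⟨h2, h3, c, hc, hzc, e, he1, hed, k, hk⟩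
  · obtain ⟨t, htM, ht0, hxt⟩ := key _ _ (D.N.nonneg _) (by omega) le_rfl k h3
    exact key_inf D hf hM' h2 htM hxt (hMM' h1)
  · obtain ⟨t, htM, ht0, hxt⟩ := key _ _ (D.N.nonneg _) he1 hed k hk
    exact key_crit D hf hM' hc hzc htM ht0 hxt (hMM' h1)

end loc

end Pool.Agent.ORB.NI
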