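import Pool.Agent.ORB.NBasic

/-!
ORB, Theorem B, row N1: residues.
-/

namespace Pool.Agent.ORB.NI

open Polynomial IntermediateField

section loc
variable {F Ω : Type*} [Field F] [Field Ω] [Algebra F Ω] (D : LocAbs F Ω)

/-! ### the residue ring -/

/-- the maximal ideal of the ring of integers -/
def mm : Ideal (OO D) where
  carrier := {x | D.N (x : Ω) < 1}
  add_mem' := fun {x y} hx hy => (D.nonarch _ _).trans_lt (max_lt hx hy)
  zero_mem' := by
    show D.N ((0 : OO D) : Ω) < 1
    rw [ZeroMemClass.coe_zero, N_zero]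
    exact one_pos
  smul_mem' := fun c x hx => by
    show D.N ((c * x : OO D) : Ω) < 1
    rw [Subring.coe_mul, N_mul]
    exact (mul_le_of_le_one_left (N_nonneg D _) c.2).trans_lt hx

theorem mem_mm {x : OO D} : x ∈ mm D ↔ D.N (x : Ω) < 1 := Iff.rfl

instance mm_prime : (mm D).IsPrime where
  ne_top' := by
    rw [Ideal.ne_top_iff_one, mem_mm, Subring.coe_one, N_one]
    exact lt_irrefl _
  mem_or_mem' := by
    intro x y h
    rw [mem_mm, Subring.coe_mul, N_mul] at h
    by_contra hcon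
    push Not at hcon
    obtain ⟨h1, h2⟩ := hcon
    rw [mem_mm, not_lt] at h1 h2
    have := one_le_mul_of_one_le_of_one_le h1 h2
    linarith

/-- the residue ring -/
abbrev RR : Type _ := OO D ⧸ mm D

theorem RR_eq {x y : OO D} :
    (Ideal.Quotient.mk (mm D) x = Ideal.Quotient.mk (mm D) y) ↔ D.N ((x : Ω) - y) < 1 := by
  rw [Ideal.Quotient.mk_eq_mk_iff_sub_mem, mem_mm]
  rfl

instance RR_domain : IsDomain (RR D) := Ideal.Quotient.isDomain (mm D)

instance RR_char : CharP (RR D) D.p := by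
  have hp : ((D.p : ℕ) : RR D) = 0 := by
    have h1 : (Ideal.Quotient.mk (mm D) ((D.p : ℕ) : OO D)) = 0 := by
      rw [Ideal.Quotient.eq_zero_iff_mem, mem_mm]
      have h2 : (((D.p : ℕ) : OO D) : Ω) = (D.p : Ω) := by push_cast; rfl
      rw [h2]
      exact D.p_lt
    rw [← h1, map_natCast]
  exact (CharP.charP_iff_prime_eq_zero D.hp).2 hp

instance fact_p : Fact D.p.Prime := ⟨D.hp⟩

/-- powers of a difference, modulo the maximal ideal -/
theorem sub_pow_cg {x y : Ω} (hx : D.N x ≤ 1) (hy : D.N y ≤ 1) (k : ℕ) :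
    D.N ((x - y) ^ D.p ^ k - (x ^ D.p ^ k - y ^ D.p ^ k)) < 1 := by
  set X : OO D := ⟨x, hx⟩
  set Y : OO D := ⟨y, hy⟩
  have h1 : (Ideal.Quotient.mk (mm D) ((X - Y) ^ D.p ^ k)) =
      Ideal.Quotient.mk (mm D) (X ^ D.p ^ k - Y ^ D.p ^ k) := by
    rw [map_pow, map_sub, map_sub, map_pow, map_pow, sub_pow_char_pow]
  rw [RR_eq] at h1
  exact h1

theorem N_pow_sub_lt {x y : Ω} (hx : D.N x ≤ 1) (hy : D.N y ≤ 1) (h : D.N (x - y) < 1) (n : ℕ) :
    D.N (x ^ n - y ^ n) < 1 := by
  set X : OO D := ⟨x, hx⟩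
  set Y : OO D := ⟨y, hy⟩
  have h0 : Ideal.Quotient.mk (mm D) X = Ideal.Quotient.mk (mm D) Y := (RR_eq D).2 h
  have h1 : Ideal.Quotient.mk (mm D) (X ^ n) = Ideal.Quotient.mk (mm D) (Y ^ n) := by
    rw [map_pow, map_pow, h0]
  exact (RR_eq D).1 h1

/-- if `x ^ (p ^ k)` is congruent to `x`, so is `x ^ (p ^ (k n))` -/
theorem pow_iter {x : Ω} (hx : D.N x ≤ 1) {k : ℕ} (h : D.N (x ^ D.p ^ k - x) < 1) (n : ℕ) :
    D.N (x ^ D.p ^ (k * n) - x) < 1 := by
  induction n with
  | zero =>
    rw [mul_zero, pow_zero, pow_one, sub_self, N_zero]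
    exact one_pos
  | succ n ih =>
    have hx1 : D.N (x ^ D.p ^ (k * n)) ≤ 1 := by
      rw [N_pow]
      exact pow_le_one₀ (N_nonneg D x) hx
    have h1 := N_pow_sub_lt D hx1 hx ih (D.p ^ k)
    rw [← pow_mul, ← pow_add] at h1
    rw [mul_add, mul_one]
    exact N_lt_trans D h1 h

/-- a polynomial with coefficients in `F` commutes with the Frobenius map, modulo the maximal
ideal -/
theorem frob_eval (f : F[X]) (hf : ∀ n, D.N (algebraMap F Ω (f.coeff n)) ≤ 1) {x : Ω}
    (hx : D.N x ≤ 1) (k : ℕ) :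
    D.N ((aeval x f) ^ D.p ^ (D.a * k) - aeval (x ^ D.p ^ (D.a * k)) f) < 1 := by
  set q := D.p ^ (D.a * k) with hq
  set X : OO D := ⟨x, hx⟩
  set c : ℕ → OO D := fun n => ⟨algebraMap F Ω (f.coeff n), hf n⟩ with hc
  have h1 : aeval x f = ((∑ n ∈ Finset.range (f.natDegree + 1), c n * X ^ n : OO D) : Ω) := by
    rw [aeval_eq_sum_range]
    push_cast
    refine Finset.sum_congr rfl fun n _ => ?_
    rw [Algebra.smul_def]
  have h2 : aeval (x ^ q) f =
      ((∑ n ∈ Finset.range (f.natDegree + 1), c n * (X ^ q) ^ n : OO D) : Ω) := by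
    rw [aeval_eq_sum_range]
    push_cast
    refine Finset.sum_congr rfl fun n _ => ?_
    rw [Algebra.smul_def]
  have hcq : ∀ n, Ideal.Quotient.mk (mm D) (c n) ^ q = Ideal.Quotient.mk (mm D) (c n) := by
    intro n
    rw [← map_pow, RR_eq]
    have h3 : D.N ((algebraMap F Ω (f.coeff n)) ^ D.p ^ D.a - algebraMap F Ω (f.coeff n)) < 1 := by
      have := D.fin (f.coeff n) (hf n)
      rwa [map_sub, map_pow] at this
    exact pow_iter D (hf n) h3 k
  have h4 : Ideal.Quotient.mk (mm D) ((∑ n ∈ Finset.range (f.natDegree + 1), c n * X ^ n) ^ q) =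
      Ideal.Quotient.mk (mm D)
        (∑ n ∈ Finset.range (f.natDegree + 1), c n * (X ^ q) ^ n) := by
    rw [map_pow, map_sum, map_sum, hq, sum_pow_char_pow]
    refine Finset.sum_congr rfl fun n _ => ?_
    rw [map_mul, map_mul, mul_pow, ← hq, hcq, ← map_pow, ← pow_mul, ← pow_mul, mul_comm n q]
  rw [RR_eq] at h4
  rw [h1, h2]
  exact h4

/-- a product close to zero has a factor close to zero -/
theorem exists_root_close (P : Polynomial Ω) (hP : P.Splits) (hm : P.Monic) {x : Ω}
    (h : D.N (P.eval x) < 1) : ∃ r ∈ P.roots, D.N (x - r) < 1 := by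
  have hroots := hP.eval_eq_prod_roots x
  rw [hm.leadingCoeff, one_mul] at hroots
  rw [hroots] at h
  by_contra hcon
  push Not at hcon
  have key : ∀ s : Multiset Ω, (∀ c ∈ s, 1 ≤ D.N (x - c)) →
      1 ≤ D.N ((s.map fun a => x - a).prod) := by
    intro s
    induction s using Multiset.induction_on with
    | empty => intro _; rw [Multiset.map_zero, Multiset.prod_zero, N_one]
    | cons a s ih =>
      intro hs
      rw [Multiset.map_cons, Multiset.prod_cons, N_mul]
      exact one_le_mul_of_one_le_of_one_le (hs a (Multiset.mem_cons_self a s))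
        (ih fun c hc => hs c (Multiset.mem_cons_of_mem hc))
  have := key _ hcon
  linarith

section closed
variable [IsAlgClosed Ω] [Algebra.IsAlgebraic F Ω]

/-- the coefficients of the minimal polynomial of an integral element are integral -/
theorem minpoly_int (x : Ω) (hx : D.N x ≤ 1) (n : ℕ) :
    D.N (algebraMap F Ω ((minpoly F x).coeff n)) ≤ 1 := by
  classical
  have hint : IsIntegral F x := Algebra.IsIntegral.isIntegral x
  set P := (minpoly F x).map (algebraMap F Ω) with hP
  have hmon : P.Monic := (minpoly.monic hint).map _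
  have hsp : P.Splits := IsAlgClosed.splits P
  have hnorm : Normal F Ω := normal_iff.2 fun y =>
    ⟨Algebra.IsIntegral.isIntegral y, IsAlgClosed.splits _⟩
  have hroot : ∀ r ∈ P.roots, D.N r ≤ 1 := by
    intro r hr
    have h1 : aeval r (minpoly F x) = 0 := by
      have := (mem_roots'.1 hr).2
      rwa [IsRoot.def, hP, eval_map_algebraMap] at this
    obtain ⟨g, hg⟩ := minpoly.exists_algEquiv_of_root (Algebra.IsAlgebraic.isAlgebraic x) h1
    rw [← D.inv g r, hg]
    exact hx
  have h1 : P = (P.roots.map fun a => X - C a).prod := by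
    have := hsp.eq_prod_roots
    rwa [hmon.leadingCoeff, C_1, one_mul] at this
  have key : ∀ s : Multiset Ω, (∀ r ∈ s, D.N r ≤ 1) →
      ∀ n, ((s.map fun a => X - C a).prod).coeff n ∈ OO D := by
    intro s
    induction s using Multiset.induction_on with
    | empty =>
      intro _ n
      rw [Multiset.map_zero, Multiset.prod_zero, coeff_one]
      split_ifs
      · exact Subring.one_mem _
      · exact Subring.zero_mem _
    | cons a s ih =>
      intro hs n
      rw [Multiset.map_cons, Multiset.prod_cons, coeff_mul]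
      refine Subring.sum_mem _ fun y _ => Subring.mul_mem _ ?_
        (ih (fun r hr => hs r (Multiset.mem_cons_of_mem hr)) y.2)
      rw [coeff_sub, coeff_X, coeff_C]
      refine Subring.sub_mem _ ?_ ?_
      · split_ifs
        · exact Subring.one_mem _
        · exact Subring.zero_mem _
      · split_ifs
        · exact hs a (Multiset.mem_cons_self a s)
        · exact Subring.zero_mem _
  have h2 := key P.roots hroot n
  rw [← h1, hP, coeff_map] at h2
  exact h2

theorem exists_pow_residue (x : Ω) (hx : D.N x ≤ 1) :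
    ∃ k : ℕ, 1 ≤ k ∧ D.N (x ^ D.p ^ k - x) < 1 := by
  classical
  have hint : IsIntegral F x := Algebra.IsIntegral.isIntegral x
  set P := (minpoly F x).map (algebraMap F Ω) with hP
  have hmon : P.Monic := (minpoly.monic hint).map _
  have hsp : P.Splits := IsAlgClosed.splits P
  have h1 : ∀ j : ℕ, ∃ r ∈ P.roots.toFinset, D.N (x ^ D.p ^ (D.a * j) - r) < 1 := by
    intro j
    have h2 := frob_eval D (minpoly F x) (minpoly_int D x hx) hx j
    rw [minpoly.aeval, zero_pow (pow_ne_zero _ D.hp.ne_zero), zero_sub, N_neg] at h2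
    have h3 : D.N (P.eval (x ^ D.p ^ (D.a * j))) < 1 := by
      rwa [hP, eval_map_algebraMap]
    obtain ⟨r, hr, hr2⟩ := exists_root_close D P hsp hmon h3
    exact ⟨r, Multiset.mem_toFinset.2 hr, hr2⟩
  choose r hr hr2 using h1
  obtain ⟨i, j, hij, hrij⟩ : ∃ i j : ℕ, i ≠ j ∧ r i = r j := by
    have hfin : Finite P.roots.toFinset := inferInstance
    obtain ⟨i, j, hij, h4⟩ := Finite.exists_ne_map_eq_of_infinite
      (fun i : ℕ => (⟨r i, hr i⟩ : P.roots.toFinset))
    exact ⟨i, j, hij, congrArg Subtype.val h4⟩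
  have main : ∀ i j : ℕ, i < j → r i = r j → ∃ k : ℕ, 1 ≤ k ∧ D.N (x ^ D.p ^ k - x) < 1 := by
    intro i j hij hrij
    refine ⟨D.a * (j - i), Nat.mul_pos D.ha (by omega), ?_⟩
    have h5 : D.N (x ^ D.p ^ (D.a * j) - x ^ D.p ^ (D.a * i)) < 1 := by
      refine N_lt_trans D (hr2 j) ?_
      rw [N_symm, ← hrij]
      exact hr2 i
    have hpow : D.N (x ^ D.p ^ (D.a * (j - i))) ≤ 1 := by
      rw [N_pow]
      exact pow_le_one₀ (N_nonneg D x) hx
    have h6 := sub_pow_cg D hpow hx (D.a * i)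
    have e1 : (x ^ D.p ^ (D.a * (j - i))) ^ D.p ^ (D.a * i) = x ^ D.p ^ (D.a * j) := by
      rw [← pow_mul, ← pow_add, ← mul_add, Nat.sub_add_cancel hij.le]
    rw [e1] at h6
    have h7 : D.N ((x ^ D.p ^ (D.a * (j - i)) - x) ^ D.p ^ (D.a * i)) < 1 := by
      have h8 : (x ^ D.p ^ (D.a * (j - i)) - x) ^ D.p ^ (D.a * i) =
          ((x ^ D.p ^ (D.a * (j - i)) - x) ^ D.p ^ (D.a * i) -
            (x ^ D.p ^ (D.a * j) - x ^ D.p ^ (D.a * i))) +
            (x ^ D.p ^ (D.a * j) - x ^ D.p ^ (D.a * i)) := by ring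
      rw [h8]
      exact (D.nonarch _ _).trans_lt (max_lt h6 h5)
    rw [N_pow] at h7
    by_contra hcon
    push Not at hcon
    exact absurd h7 (not_lt.2 (one_le_pow₀ hcon))
  rcases lt_or_gt_of_ne hij with h | h
  · exact main i j h hrij
  · exact main j i h hrij.symm

theorem exists_mu (x : Ω) (hx : D.N x = 1) : ∃ ζ ∈ muS D, D.N (x - ζ) < 1 := by
  classical
  obtain ⟨k, hk, h⟩ := exists_pow_residue D x hx.le
  have hp := D.hp.two_le
  have hpk : 2 ≤ D.p ^ k := hp.trans (Nat.le_self_pow (by omega) _)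
  obtain ⟨m, hm⟩ : ∃ m, D.p ^ k = m + 1 := ⟨D.p ^ k - 1, by omega⟩
  have hm1 : 1 ≤ m := by omega
  have hNm : D.N (m : Ω) = 1 := by
    have h1 : (m : Ω) = ((D.p ^ k : ℕ) : Ω) + (-1) := by
      rw [hm]; push_cast; ring
    have h2 : D.N ((D.p ^ k : ℕ) : Ω) < D.N (-1 : Ω) := by
      rw [N_neg, N_one]
      push_cast
      rw [N_pow]
      exact pow_lt_one₀ (N_nonneg D _) D.p_lt (by omega)
    rw [h1, N_add_eq D h2, N_neg, N_one]
  have h3 : D.N (x ^ m - 1) < 1 := by
    rw [hm, pow_succ] at h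
    have h4 : x ^ m * x - x = (x ^ m - 1) * x := by ring
    rwa [h4, N_mul, hx, mul_one] at h
  set P : Polynomial Ω := X ^ m - 1 with hP
  have hmon : P.Monic := by
    rw [hP]
    exact monic_X_pow_sub_C (1 : Ω) (by omega)
  have hev : P.eval x = x ^ m - 1 := by
    rw [hP]; simp
  rw [← hev] at h3
  obtain ⟨ζ, hζ, hζ2⟩ := exists_root_close D P (IsAlgClosed.splits P) hmon h3
  refine ⟨ζ, ⟨m, hm1, ?_, hNm⟩, hζ2⟩
  have := (mem_roots'.1 hζ).2
  rw [IsRoot.def, hP] at this
  simp only [eval_sub, eval_pow, eval_X, eval_one] at this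
  exact sub_eq_zero.1 this

/-- N7 -/
theorem residual_orbit (f : F[X]) (hf : ∀ n, D.N (algebraMap F Ω (f.coeff n)) ≤ 1) (x : Ω)
    (hx : D.N x ≤ 1) :
    ∃ D₀ r : ℕ, 1 ≤ r ∧ ∀ i, D₀ ≤ i → D.N ((ev f)^[i + r] x - (ev f)^[i] x) < 1 := by
  classical
  obtain ⟨k, hk, h⟩ := exists_pow_residue D x hx
  have hcoef : ∀ n, D.N ((f.map (algebraMap F Ω)).coeff n) ≤ 1 := fun n => by
    rw [coeff_map]; exact hf n
  have hint : ∀ {z : Ω}, D.N z ≤ 1 → D.N (ev f z) ≤ 1 := fun {z} hz => by
    rw [ev_eq]; exact eval_int D _ hcoef hz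
  have hiter : ∀ n, D.N ((ev f)^[n] x) ≤ 1 := by
    intro n
    induction n with
    | zero => exact hx
    | succ n ih =>
      rw [Function.iterate_succ_apply']
      exact hint ih
  have hle : ∀ {u v : Ω}, D.N u ≤ 1 → D.N v ≤ 1 → D.N (u - v) < 1 →
      D.N (ev f u - ev f v) < 1 := by
    intro u v hu hv huv
    obtain ⟨l, hl, h1⟩ := eval_diff D _ hcoef hu hv
    rw [ev_eq, ev_eq, h1, N_mul]
    refine (mul_le_of_le_one_right (N_nonneg D _) ?_).trans_lt huv
    refine (D.nonarch _ _).trans (max_le ?_ ?_)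
    · refine eval_int D _ (fun n => ?_) hv
      rw [coeff_derivative, ← mem_OO]
      refine Subring.mul_mem _ (hcoef (n + 1)) ?_
      have : ((n : Ω) + 1) = ((n + 1 : ℕ) : Ω) := by push_cast; ring
      rw [this]
      exact natCast_mem (OO D) (n + 1)
    · rw [N_mul]
      exact mul_le_one₀ huv.le (N_nonneg D _) hl
  -- all the points of the orbit are fixed by the Frobenius map
  set q := D.p ^ (D.a * k) with hq
  have hfix : ∀ n, D.N (((ev f)^[n] x) ^ q - (ev f)^[n] x) < 1 := by
    intro n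
    induction n with
    | zero =>
      have := pow_iter D hx h D.a
      rw [mul_comm k D.a] at this
      exact this
    | succ n ih =>
      rw [Function.iterate_succ_apply']
      set y := (ev f)^[n] x with hy
      have hyq : D.N (y ^ q) ≤ 1 := by
        rw [N_pow]
        exact pow_le_one₀ (N_nonneg D _) (hiter n)
      have h1 := frob_eval D f hf (hiter n) k
      rw [← hy, ← hq] at h1
      have h2 := hle hyq (hiter n) ih
      exact N_lt_trans D h1 h2
  have hq2 : 1 < q := by
    rw [hq]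
    exact Nat.one_lt_pow (Nat.mul_ne_zero (by have := D.ha; omega) (by omega)) D.hp.one_lt
  set S : Set (RR D) := {y | y ^ q = y} with hS
  have hSfin : S.Finite := by
    have hne : (X ^ q - X : Polynomial (RR D)) ≠ 0 := by
      intro h0
      have h1 := congrArg (fun P : Polynomial (RR D) => P.coeff q) h0
      simp only [coeff_sub, coeff_X_pow, coeff_X, coeff_zero] at h1
      rw [if_pos trivial, if_neg (by omega), sub_zero] at h1
      exact one_ne_zero h1
    refine ((X ^ q - X : Polynomial (RR D)).roots.toFinset.finite_toSet).subset ?_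
    intro y hy
    rw [Finset.mem_coe, Multiset.mem_toFinset, mem_roots hne, IsRoot.def]
    simp only [eval_sub, eval_pow, eval_X]
    exact sub_eq_zero.2 hy
  have hmem : ∀ n, Ideal.Quotient.mk (mm D) (⟨(ev f)^[n] x, hiter n⟩ : OO D) ∈ S := by
    intro n
    show Ideal.Quotient.mk (mm D) (⟨(ev f)^[n] x, hiter n⟩ : OO D) ^ q = _
    rw [← map_pow, RR_eq]
    exact hfix n
  have hSf : Finite S := hSfin
  obtain ⟨i, j, hij, h4⟩ := Finite.exists_ne_map_eq_of_infinite
    (fun n : ℕ => (⟨_, hmem n⟩ : S))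
  have h5 : D.N ((ev f)^[i] x - (ev f)^[j] x) < 1 := by
    have := congrArg Subtype.val h4
    exact (RR_eq D).1 this
  have main : ∀ i j : ℕ, i < j → D.N ((ev f)^[i] x - (ev f)^[j] x) < 1 →
      ∃ D₀ r : ℕ, 1 ≤ r ∧ ∀ i, D₀ ≤ i → D.N ((ev f)^[i + r] x - (ev f)^[i] x) < 1 := by
    intro i j hij h5
    refine ⟨i, j - i, by omega, ?_⟩
    have key : ∀ l, D.N ((ev f)^[i + l + (j - i)] x - (ev f)^[i + l] x) < 1 := by
      intro l
      induction l with
      | zero =>
        have e1 : i + 0 + (j - i) = j := by omega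
        rw [e1, add_zero, N_symm]
        exact h5
      | succ l ih =>
        have e1 : i + (l + 1) + (j - i) = (i + l + (j - i)) + 1 := by omega
        have e2 : i + (l + 1) = (i + l) + 1 := by omega
        rw [e1, e2, Function.iterate_succ_apply', Function.iterate_succ_apply']
        exact hle (hiter _) (hiter _) ih
    intro m hm
    have := key (m - i)
    rwa [Nat.add_sub_cancel' hm] at this
  rcases lt_or_gt_of_ne hij with h6 | h6
  · exact main i j h6 h5
  · refine main j i h6 ?_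
    rw [N_symm]
    exact h5

end closed

end loc

end Pool.Agent.ORB.NI
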