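import Pool.Agent.ORB.NBasic
import Pool.Agent.ORB.NVal
import Pool.Agent.ORB.NChild
import Pool.Agent.ORB.NRes

/-!
ORB, Theorem B, rows N6 and N8: the levels of the exits are bounded.
-/

namespace Pool.Agent.ORB.NI

open Polynomial IntermediateField

section
variable {F Ω : Type*} [Field F] [Field Ω] [Algebra F Ω] (D : LocAbs F Ω)

/-- `z` is congruent to a point of the orbit of `b` -/
def Near (f : F[X]) (b : F) (z : Ω) : Prop := ∃ j : ℕ, D.N (z - (ev f)^[j] (algebraMap F Ω b)) < 1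

variable {D} {f : F[X]}

theorem Pw.pos {ϖ x : Ω} (h : Pw D ϖ x) (hϖ : ϖ ≠ 0) : 0 < D.N x := by
  obtain ⟨k, hk⟩ := h
  rw [hk]
  exact zpow_pos (N_pos D hϖ) k

theorem Pw.le {ϖ x : Ω} (h : Pw D ϖ x) (hϖ : ϖ ≠ 0) (hϖ1 : D.N ϖ < 1) (hx : D.N x < 1) : D.N x ≤ D.N ϖ := by
  obtain ⟨k, hk⟩ := h
  have h0 := N_pos D hϖ
  rw [hk] at hx ⊢
  have hk1 : 1 ≤ k := by
    by_contra hlt
    push Not at hlt
    have : k ≤ 0 := by omega
    have := one_le_zpow_of_nonpos₀ h0 hϖ1.le this
    linarith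
  calc D.N ϖ ^ k ≤ D.N ϖ ^ (1 : ℤ) := zpow_le_zpow_right_of_le_one₀ h0 hϖ1.le hk1
    _ = D.N ϖ := zpow_one _

theorem Pw.ge {ϖ x : Ω} (h : Pw D ϖ x) (hϖ : ϖ ≠ 0) (hϖ1 : D.N ϖ < 1) (hx : 1 < D.N x) : 1 ≤ D.N x * D.N ϖ := by
  obtain ⟨k, hk⟩ := h
  have h0 := N_pos D hϖ
  rw [hk] at hx ⊢
  have hk1 : k ≤ -1 := by
    by_contra hlt
    push Not at hlt
    have : 0 ≤ k := by omega
    have := zpow_le_one₀ h0 hϖ1.le this
    linarith
  rw [← zpow_add_one₀ h0.ne']
  exact one_le_zpow_of_nonpos₀ h0 hϖ1.le (by omega)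

/-- N6 -/
theorem level_infty (hf : Good D f) {ϖ : Ω} (hϖ0 : ϖ ≠ 0) (hϖ1 : D.N ϖ < 1) (b : F)
    (hb : 1 < D.N (algebraMap F Ω b)) :
    ∃ s, ∀ k, s ≤ k → ∀ z ∈ Node Ω f b k, ¬ Pw D ϖ z := by
  have h0 := N_pos D hϖ0
  have hd := hf.deg
  obtain ⟨s, hs⟩ := exists_pow_lt_of_lt_one (inv_pos.2 (by linarith : 0 < D.N (algebraMap F Ω b))) hϖ1
  refine ⟨s, fun k hk z hz hp => ?_⟩
  obtain ⟨h1, h2⟩ := hf.node_big hb k hz
  have h3 := hp.ge hϖ0 hϖ1 h1
  have h4 : 1 ≤ (D.N z * D.N ϖ) ^ (f.natDegree ^ k) := one_le_pow₀ h3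
  rw [mul_pow, h2] at h4
  have h5 : k ≤ f.natDegree ^ k := (Nat.lt_pow_self (by omega)).le
  have h6 : D.N ϖ ^ (f.natDegree ^ k) ≤ D.N ϖ ^ s := pow_le_pow_of_le_one h0.le hϖ1.le (hk.trans h5)
  have hB : 0 < D.N (algebraMap F Ω b) := by linarith
  have h7 : D.N (algebraMap F Ω b) * D.N ϖ ^ (f.natDegree ^ k) < 1 := by
    calc D.N (algebraMap F Ω b) * D.N ϖ ^ (f.natDegree ^ k) ≤ D.N (algebraMap F Ω b) * D.N ϖ ^ s :=
          mul_le_mul_of_nonneg_left h6 hB.le
      _ < D.N (algebraMap F Ω b) * (D.N (algebraMap F Ω b))⁻¹ := by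
          exact mul_lt_mul_of_pos_left hs hB
      _ = 1 := mul_inv_cancel₀ hB.ne'
  linarith

theorem ev_algebraMap (f : F[X]) (x : F) (j : ℕ) :
    (ev f)^[j] (algebraMap F Ω x) = algebraMap F Ω ((fun x => eval x f)^[j] x) := by
  induction j with
  | zero => rfl
  | succ j ih =>
    rw [Function.iterate_succ_apply', Function.iterate_succ_apply', ih, ev, aeval_algebraMap_apply_eq_algebraMap_eval]

section near
variable {b : F} (hf : Good D f) (hb : D.N (algebraMap F Ω b) ≤ 1)
include hf hb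

theorem orb_int (j : ℕ) : D.N ((ev f)^[j] (algebraMap F Ω b)) ≤ 1 := hf.iter_int hb j

theorem near_int {z : Ω} (h : Near D f b z) : D.N z ≤ 1 := by
  obtain ⟨j, hj⟩ := h
  have := (D.nonarch (z - (ev f)^[j] (algebraMap F Ω b)) ((ev f)^[j] (algebraMap F Ω b)))
  rw [sub_add_cancel] at this
  exact this.trans (max_le hj.le (orb_int hf hb j))

theorem near_iter {z : Ω} (h : Near D f b z) (n : ℕ) : Near D f b ((ev f)^[n] z) := by
  have hz := near_int hf hb h
  obtain ⟨j, hj⟩ := h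
  refine ⟨n + j, ?_⟩
  rw [Function.iterate_add_apply]
  exact hf.iter_cg hz (orb_int hf hb j) hj n

/-- a residually periodic point whose orbit meets the cycle of `b` lies in it -/
theorem near_of_rper {z : Ω} (hz : D.N z ≤ 1) {r : ℕ} (hr : 1 ≤ r) (h : D.N ((ev f)^[r] z - z) < 1) (n : ℕ)
    (hn : Near D f b ((ev f)^[n] z)) : Near D f b z := by
  -- `f^(m r) z ≡ z`
  have key : ∀ m : ℕ, D.N ((ev f)^[m * r] z - z) < 1 := by
    intro m
    induction m with
    | zero =>
      have h1 : 0 * r = 0 := Nat.zero_mul r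
      rw [h1, Function.iterate_zero_apply, sub_self, N_zero]
      exact one_pos
    | succ m ih =>
      have h1 : (m + 1) * r = m * r + r := by ring
      rw [h1, Function.iterate_add_apply]
      exact N_lt_trans D (hf.iter_cg (hf.iter_int hz r) hz h (m * r)) ih
  have hle : n ≤ n * r := Nat.le_mul_of_pos_right n hr
  have h2 := near_iter hf hb hn (n * r - n)
  rw [← Function.iterate_add_apply, Nat.sub_add_cancel hle] at h2
  obtain ⟨j, hj⟩ := h2
  refine ⟨j, N_lt_trans D ?_ hj⟩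
  rw [N_symm]
  exact key n

end near

end

section
variable {F Ω : Type*} [Field F] [Field Ω] [Algebra F Ω] [CharZero F] [IsAlgClosed Ω] [Algebra.IsAlgebraic F Ω]
  {D : LocAbs F Ω} {f : F[X]}

theorem muS_le (ϖ : Ω) : muS D ⊆ MF D ϖ := fun _ hx => subset_adjoin F _ (Set.mem_insert_of_mem _ hx)

theorem mem_MF (ϖ : Ω) : ϖ ∈ MF D ϖ := subset_adjoin F _ (Set.mem_insert _ _)

theorem ev_mem (M : IntermediateField F Ω) {z : Ω} (hz : z ∈ M) : ev f z ∈ M := by
  rw [ev, aeval_eq_sum_range]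
  exact M.toSubalgebra.sum_mem fun i _ => M.toSubalgebra.smul_mem (M.toSubalgebra.pow_mem hz i) _

theorem ev_iter_mem (M : IntermediateField F Ω) {z : Ω} (hz : z ∈ M) (n : ℕ) : (ev f)^[n] z ∈ M := by
  induction n with
  | zero => exact hz
  | succ n ih =>
    rw [Function.iterate_succ_apply']
    exact ev_mem M ih

section tower
variable {E : ℕ} (hE0 : E ≠ 0) (w : ℕ → Ω) (hw0 : w 0 = algebraMap F Ω D.π) (hw : ∀ n, w (n + 1) ^ E = w n)
include hE0 hw0 hw

theorem w_pow (n m : ℕ) : w (n + m) ^ (E ^ m) = w n := by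
  induction m with
  | zero => rw [pow_zero, pow_one, add_zero]
  | succ m ih => rw [← add_assoc, pow_succ', pow_mul, hw, ih]

theorem w_root (n : ℕ) : w n ^ (E ^ n) = algebraMap F Ω D.π := by
  have := w_pow hE0 w hw0 hw 0 n
  rwa [zero_add, hw0] at this

theorem w_ne (n : ℕ) : w n ≠ 0 := by
  intro h
  have h1 := w_root hE0 w hw0 hw n
  rw [h, zero_pow (pow_ne_zero _ hE0)] at h1
  exact D.π_ne ((map_eq_zero _).1 h1.symm)

theorem w_lt (n : ℕ) : D.N (w n) < 1 := by
  have h1 := congrArg D.N (w_root hE0 w hw0 hw n)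
  rw [N_pow] at h1
  by_contra h
  push Not at h
  have h2 : 1 ≤ D.N (w n) ^ (E ^ n) := one_le_pow₀ h
  rw [h1] at h2
  exact absurd D.π_lt (not_lt.2 h2)

theorem w_mono {n m : ℕ} (h : n ≤ m) : MF D (w n) ≤ MF D (w m) := by
  obtain ⟨k, rfl⟩ := Nat.exists_eq_add_of_le h
  refine adjoin_le_iff.2 ?_
  rintro x (rfl | hx)
  · rw [← w_pow hE0 w hw0 hw n k]
    exact pow_mem (mem_MF (w (n + k))) _
  · exact muS_le _ hx

theorem w_val {n : ℕ} {x : Ω} (hx : x ∈ MF D (w n)) (h0 : x ≠ 0) : Pw D (w n) x :=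
  value_MF D (Nat.one_le_iff_ne_zero.2 (pow_ne_zero n hE0)) (w_root hE0 w hw0 hw n) hx h0

end tower

section levels
variable (hf : Good D f) (b : F) (hb : ∀ n, 1 ≤ n → (fun x => eval x f)^[n] b ≠ b)
    {E : ℕ} (hE : f.natDegree.factorial ∣ E) (hE0 : E ≠ 0) (w : ℕ → Ω) (hw0 : w 0 = algebraMap F Ω D.π)
    (hw : ∀ n, w (n + 1) ^ E = w n) (D₀ L : ℕ) (hL : D₀ ≤ L)
    (hD₀ : ∀ c : Ω, aeval c (derivative f) = 0 → ∃ r, 1 ≤ r ∧ ∀ i, D₀ ≤ i →
      D.N ((ev f)^[i + r] c - (ev f)^[i] c) < 1)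

include hf hD₀ in
/-- a point close to a critical point: after `D₀` steps it is residually periodic -/
theorem crit_rper {z : Ω} (hz : D.N z ≤ 1) (h : D.N (aeval z (derivative f)) < 1) {i : ℕ} (hi : D₀ ≤ i) :
    ∃ r, 1 ≤ r ∧ D.N ((ev f)^[r] ((ev f)^[i] z) - (ev f)^[i] z) < 1 := by
  obtain ⟨c, hc, hcz⟩ := hf.crit_close h
  have hcint : D.N c ≤ 1 := by
    have := N_sub_le D z (z - c)
    rw [sub_sub_cancel] at this
    exact this.trans (max_le hz hcz.le)
  obtain ⟨r, hr, hr1⟩ := hD₀ c hc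
  refine ⟨r, hr, ?_⟩
  have h1 := hr1 i hi
  rw [← Function.iterate_add_apply, add_comm r i]
  have h2 := hf.iter_cg hz hcint hcz (i + r)
  have h3 := hf.iter_cg hz hcint hcz i
  rw [N_symm] at h3
  exact N_lt_trans D (N_lt_trans D h2 h1) h3

include hf hD₀ in
/-- N8 (a) -/
theorem levels_a (hb1 : D.N (algebraMap F Ω b) ≤ 1) (hper : ¬ RPer D f (algebraMap F Ω b)) {k : ℕ} {z : Ω}
    (hz : z ∈ Node Ω f b k) (hcr : D.N (aeval z (derivative f)) < 1) : k < D₀ := by
  by_contra hk
  push Not at hk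
  obtain ⟨r, hr, h⟩ := crit_rper hf D₀ hD₀ (hf.node_int hb1 k hz) hcr hk
  apply hper
  have h1 : (ev f)^[k] z = algebraMap F Ω b := hz
  rw [h1] at h
  exact ⟨r, hr, h⟩

include hf hE hE0 hw0 hw hD₀ in
/-- N8 (b) -/
theorem levels_b (hb1 : D.N (algebraMap F Ω b) ≤ 1)
    (hun : ∀ j, D.N (aeval ((ev f)^[j] (algebraMap F Ω b)) (derivative f)) = 1) (l : ℕ) :
    ∀ k, ∀ z ∈ Node Ω f b k, Near D f b ((ev f)^[l] z) → z ∈ MF D (w (min l D₀)) := by
  induction l with
  | zero =>
    intro k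
    induction k with
    | zero =>
      intro z hz _
      have : z = algebraMap F Ω b := hz
      rw [this]
      exact (MF D _).algebraMap_mem _
    | succ k ih =>
      intro z hz hn
      have hzi := hf.node_int hb1 _ hz
      have h1 := ih (ev f z) (Node_succ.1 hz) (near_iter hf hb1 hn 1)
      rw [Nat.zero_min] at h1 ⊢
      refine child_unit D hf (muS_le _) hzi h1 ?_
      obtain ⟨j, hj⟩ := hn
      exact hf.dunit hzi (orb_int hf hb1 j) hj (hun j)
  | succ l ih =>
    intro k z hz hn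
    rcases Nat.eq_zero_or_pos k with rfl | hk
    · have : z = algebraMap F Ω b := hz
      rw [this]
      exact (MF D _).algebraMap_mem _
    obtain ⟨k, rfl⟩ := Nat.exists_eq_succ_of_ne_zero hk.ne'
    have hzi := hf.node_int hb1 _ hz
    have h1 := ih k (ev f z) (Node_succ.1 hz) (by rwa [← Function.iterate_succ_apply])
    rcases Nat.lt_or_ge l D₀ with hlt | hge
    · rw [min_eq_left hlt.le] at h1
      rw [min_eq_left (by omega : l + 1 ≤ D₀)]
      exact child_up D hf hE hE0 (w_mono hE0 w hw0 hw (Nat.le_succ l)) (muS_le _) (w_ne hE0 w hw0 hw l)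
        (mem_MF _) (fun x hx h0 => w_val hE0 w hw0 hw hx h0) (mem_MF _) (hw l) h1
    · rw [min_eq_right hge] at h1
      rw [min_eq_right (by omega : D₀ ≤ l + 1)]
      by_cases hnl : Near D f b ((ev f)^[l] z)
      · have := ih _ z hz hnl
        rwa [min_eq_right hge] at this
      · refine child_unit D hf (muS_le _) hzi h1 ?_
        by_contra hne
        have hcr := lt_of_le_of_ne (hf.dint hzi) hne
        obtain ⟨r, hr, h⟩ := crit_rper hf D₀ hD₀ hzi hcr hge
        exact hnl (near_of_rper hf hb1 (hf.iter_int hzi l) hr h 1 (by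
          rw [← Function.iterate_add_apply, add_comm]
          exact hn))

/-! ### N8 (c) -/

/-- the polynomial of the `R`-th iterate -/
noncomputable def itp (f : F[X]) (R : ℕ) : F[X] := f.comp^[R] X

omit [CharZero F] [IsAlgClosed Ω] [Algebra.IsAlgebraic F Ω] in
theorem itp_eval (f : F[X]) (R : ℕ) (z : Ω) : ((itp f R).map (algebraMap F Ω)).eval z = (ev f)^[R] z := by
  induction R generalizing z with
  | zero => simp [itp]
  | succ R ih =>
    rw [itp, Function.iterate_succ_apply', Function.iterate_succ_apply', Polynomial.map_comp, eval_comp]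
    have := ih z
    rw [itp] at this
    rw [this, ev_eq]

omit [CharZero F] [IsAlgClosed Ω] [Algebra.IsAlgebraic F Ω] in
theorem itp_deriv (f : F[X]) (R : ℕ) (z : Ω) : ((itp f R).map (algebraMap F Ω)).derivative.eval z =
    ∏ i ∈ Finset.range R, aeval ((ev f)^[i] z) (derivative f) := by
  induction R with
  | zero => simp [itp]
  | succ R ih =>
    have h1 : itp f (R + 1) = f.comp (itp f R) := by rw [itp, Function.iterate_succ_apply']; rfl
    rw [Finset.prod_range_succ, ← ih, h1, Polynomial.map_comp, derivative_comp, eval_mul, eval_comp,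
      itp_eval, ← dv_eq, ← dv_eq]

omit [CharZero F] [IsAlgClosed Ω] [Algebra.IsAlgebraic F Ω] in
theorem int_comp {g h : Polynomial Ω} (hg : ∀ n, D.N (g.coeff n) ≤ 1) (hh : ∀ n, D.N (h.coeff n) ≤ 1) (n : ℕ) :
    D.N ((g.comp h).coeff n) ≤ 1 := by
  have key : ∀ q : Polynomial Ω, (∀ n, D.N (q.coeff n) ≤ 1) ↔ q ∈ Polynomial.lifts (OO D).subtype := by
    intro q
    rw [Polynomial.lifts_iff_coeff_lifts]
    refine forall_congr' fun n => ?_
    rw [Set.mem_range]
    constructor
    · intro h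
      exact ⟨⟨_, h⟩, rfl⟩
    · rintro ⟨x, hx⟩
      rw [← hx]
      exact x.2
  have h1 := (key g).1 hg
  have h2 := (key h).1 hh
  rw [Polynomial.mem_lifts] at h1 h2
  obtain ⟨G, rfl⟩ := h1
  obtain ⟨H, rfl⟩ := h2
  rw [← Polynomial.map_comp]
  refine (key _).2 ?_ n
  rw [Polynomial.mem_lifts]
  exact ⟨_, rfl⟩

omit [CharZero F] [IsAlgClosed Ω] [Algebra.IsAlgebraic F Ω] in
include hf in
theorem itp_int (R n : ℕ) : D.N (((itp f R).map (algebraMap F Ω)).coeff n) ≤ 1 := by
  induction R generalizing n with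
  | zero =>
    rw [itp, Function.iterate_zero_apply, map_X, coeff_X]
    split_ifs
    · exact (N_one D).le
    · rw [N_zero]; exact zero_le_one
  | succ R ih =>
    rw [itp, Function.iterate_succ_apply', Polynomial.map_comp]
    exact int_comp hf.coef' ih n

omit [CharZero F] [IsAlgClosed Ω] [Algebra.IsAlgebraic F Ω] in
include hf in
theorem itp_lead (R : ℕ) : (itp f R).natDegree = f.natDegree ^ R ∧
    D.N (algebraMap F Ω (itp f R).leadingCoeff) = 1 := by
  have hd := hf.deg
  induction R with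
  | zero => simp [itp, N_one]
  | succ R ih =>
    have h1 : itp f (R + 1) = f.comp (itp f R) := by rw [itp, Function.iterate_succ_apply']; rfl
    refine ⟨by rw [h1, natDegree_comp, ih.1, pow_succ']; , ?_⟩
    rw [h1, leadingCoeff_comp (by rw [ih.1]; exact pow_ne_zero _ (by omega)), map_mul, map_pow, N_mul, N_pow, ih.2,
      hf.lead, one_pow, one_mul]

omit [CharZero F] [Algebra.IsAlgebraic F Ω] in
include hf in
/-- a periodic point close to `b` -/
theorem exists_periodic (hb1 : D.N (algebraMap F Ω b) ≤ 1) {R : ℕ}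
    (hR : D.N ((ev f)^[R] (algebraMap F Ω b) - algebraMap F Ω b) < 1) (hR1 : 1 ≤ R) :
    ∃ q : Ω, (ev f)^[R] q = q ∧ D.N (q - algebraMap F Ω b) < 1 := by
  have hd := hf.deg
  set G : F[X] := itp f R - X with hG
  obtain ⟨h1, h2⟩ := itp_lead hf R
  have hdeg : 1 < (itp f R).natDegree := by
    rw [h1]
    exact Nat.one_lt_pow (by omega) (by omega)
  have hlt : (X : F[X]).degree < (itp f R).degree := by
    apply degree_lt_degree
    rw [natDegree_X]
    exact hdeg
  have hlead : G.leadingCoeff = (itp f R).leadingCoeff := leadingCoeff_sub_of_degree_lt hlt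
  have hsp : (G.map (algebraMap F Ω)).Splits := IsAlgClosed.splits _
  have hroots := hsp.eval_eq_prod_roots (algebraMap F Ω b)
  have hev : ∀ z : Ω, (G.map (algebraMap F Ω)).eval z = (ev f)^[R] z - z := by
    intro z
    rw [hG, Polynomial.map_sub, eval_sub, itp_eval, map_X, eval_X]
  rw [hev] at hroots
  rw [hroots, N_mul, leadingCoeff_map, hlead, h2, one_mul] at hR
  by_contra hcon
  push Not at hcon
  have hmem : ∀ c ∈ (G.map (algebraMap F Ω)).roots, 1 ≤ D.N (algebraMap F Ω b - c) := by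
    intro c hc
    rw [N_symm]
    apply hcon c
    have := (mem_roots'.1 hc).2
    rw [IsRoot.def, hev, sub_eq_zero] at this
    exact this
  have key : ∀ s : Multiset Ω, (∀ c ∈ s, 1 ≤ D.N (algebraMap F Ω b - c)) →
      1 ≤ D.N ((s.map fun a => algebraMap F Ω b - a).prod) := by
    intro s
    induction s using Multiset.induction_on with
    | empty => intro _; rw [Multiset.map_zero, Multiset.prod_zero, N_one]
    | cons a s ih =>
      intro hs
      rw [Multiset.map_cons, Multiset.prod_cons, N_mul]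
      exact one_le_mul_of_one_le_of_one_le (hs a (Multiset.mem_cons_self a s))
        (ih fun c hc => hs c (Multiset.mem_cons_of_mem hc))
  have := key _ hmem
  linarith


include hf hb hE0 hw0 hw hD₀ in
/-- N8 (c) -/
theorem levels_c (hb1 : D.N (algebraMap F Ω b) ≤ 1) {r : ℕ} (hr : 1 ≤ r)
    (hrb : D.N ((ev f)^[r] (algebraMap F Ω b) - algebraMap F Ω b) < 1) {j₀ : ℕ}
    (hcr : D.N (aeval ((ev f)^[j₀] (algebraMap F Ω b)) (derivative f)) < 1) :
    ∃ s, ∀ k z, z ∈ Node Ω f b k → D.N (aeval z (derivative f)) < 1 → ev f z ∈ MF D (w L) → k ≤ s := by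
  set β : Ω := algebraMap F Ω b with hβ
  set M := MF D (w L) with hM
  -- a large period
  set R := r * (j₀ + 1) with hRdef
  have hj₀R : j₀ < R := by
    have := Nat.mul_le_mul_right (j₀ + 1) hr
    omega
  have hR1 : 1 ≤ R := by omega
  have hRb : D.N ((ev f)^[R] β - β) < 1 := by
    have key : ∀ m : ℕ, D.N ((ev f)^[r * m] β - β) < 1 := by
      intro m
      induction m with
      | zero =>
        rw [Nat.mul_zero, Function.iterate_zero_apply, sub_self, N_zero]
        exact one_pos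
      | succ m ih =>
        rw [Nat.mul_succ, Function.iterate_add_apply]
        exact N_lt_trans D (hf.iter_cg (hf.iter_int hb1 r) hb1 hrb (r * m)) ih
    exact key (j₀ + 1)
  obtain ⟨q, hq, hqb⟩ := exists_periodic hf b hb1 hRb hR1
  have hqi : D.N q ≤ 1 := by
    have := D.nonarch (q - β) β
    rw [sub_add_cancel] at this
    exact this.trans (max_le hqb.le hb1)
  have hqp : Function.IsPeriodicPt (ev f) R q := hq
  -- `G = f^R - X`
  set G : Polynomial Ω := (itp f R).map (algebraMap F Ω) - X with hG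
  have hGev : ∀ z, G.eval z = (ev f)^[R] z - z := by
    intro z
    rw [hG, eval_sub, itp_eval, eval_X]
  have hGint : ∀ n, D.N (G.coeff n) ≤ 1 := by
    intro n
    rw [hG, coeff_sub]
    refine (N_sub_le D _ _).trans (max_le (itp_int hf R n) ?_)
    rw [coeff_X]
    split_ifs
    · exact (N_one D).le
    · rw [N_zero]; exact zero_le_one
  have hθ₀ : D.N (aeval ((ev f)^[j₀] q) (derivative f)) < 1 := by
    have h1 := hf.dcg (hf.iter_int hqi j₀) (hf.iter_int hb1 j₀) (hf.iter_cg hqi hb1 hqb j₀)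
    have h2 := D.nonarch (aeval ((ev f)^[j₀] q) (derivative f) - aeval ((ev f)^[j₀] β) (derivative f))
      (aeval ((ev f)^[j₀] β) (derivative f))
    rw [sub_add_cancel] at h2
    exact h2.trans_lt (max_lt h1 hcr)
  have hGd : D.N (G.derivative.eval q) = 1 := by
    rw [hG, derivative_sub, derivative_X, eval_sub, eval_one, itp_deriv, N_symm, ← N_one D]
    apply N_eq_of_close
    have h3 : D.N (1 - ∏ i ∈ Finset.range R, aeval ((ev f)^[i] q) (derivative f) - 1) =
        D.N (∏ i ∈ Finset.range R, aeval ((ev f)^[i] q) (derivative f)) := by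
      rw [sub_sub_cancel_left, N_neg]
    rw [h3, N_one, ← Finset.mul_prod_erase _ _ (Finset.mem_range.2 hj₀R), N_mul]
    refine (mul_le_of_le_one_right (N_nonneg D _) ?_).trans_lt hθ₀
    rw [← mem_OO]
    exact Subring.prod_mem _ fun i _ => hf.dint (hf.iter_int hqi i)
  have hqM : q ∈ M := by
    refine rigid D (muS_le _) G (fun n => ?_) hGint hqi ?_ hGd
    · rw [hG, coeff_sub, coeff_map]
      refine sub_mem (M.algebraMap_mem _) ?_
      rw [coeff_X]
      split_ifs
      · exact one_mem _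
      · exact zero_mem _
    · rw [hGev, hq, sub_self]
      exact zero_mem _
  -- uniqueness
  have huniq : ∀ x : Ω, D.N x ≤ 1 → (ev f)^[R] x = x → D.N (x - β) < 1 → x = q := by
    intro x hx hxR hxb
    obtain ⟨k, hk, h⟩ := eval_diff D G hGint hx hqi
    rw [hGev, hGev, hxR, hq, sub_self, sub_self, sub_zero] at h
    have h1 : D.N (x - q) < 1 := N_lt_trans D hxb (by rw [N_symm]; exact hqb)
    have h2 : D.N (G.derivative.eval q + (x - q) * k) = 1 := by
      rw [← hGd]
      apply N_eq_of_close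
      rw [hGd, add_sub_cancel_left, N_mul]
      exact (mul_le_of_le_one_right (N_nonneg D _) hk).trans_lt h1
    rcases mul_eq_zero.1 h.symm with h3 | h3
    · exact sub_eq_zero.1 h3
    · rw [h3, N_zero] at h2
      exact absurd h2 zero_ne_one
  have hbq : β ≠ q := by
    intro h
    apply hb R hR1
    apply (algebraMap F Ω).injective
    rw [← ev_algebraMap, ← hβ, h, hq]
  set ρ := D.N (w L) with hρ
  have hρ1 : ρ < 1 := w_lt hE0 w hw0 hw L
  have hρ0 : 0 < ρ := N_pos D (w_ne hE0 w hw0 hw L)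
  set θ := max (D.N (aeval ((ev f)^[j₀] q) (derivative f))) ρ with hθ
  have hθ1 : θ < 1 := max_lt hθ₀ hρ1
  have hθ0 : 0 < θ := lt_of_lt_of_le hρ0 (le_max_right _ _)
  -- one block
  have hblock : ∀ (j : ℕ) (x : Ω), D.N (x - (ev f)^[j] q) ≤ ρ →
      D.N ((ev f)^[R] x - (ev f)^[j] q) ≤ θ * D.N (x - (ev f)^[j] q) := by
    intro j x hx
    have hqj := hf.iter_int hqi j
    have hxi : D.N x ≤ 1 := by
      have := D.nonarch (x - (ev f)^[j] q) ((ev f)^[j] q)
      rw [sub_add_cancel] at this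
      exact this.trans (max_le (hx.trans hρ1.le) hqj)
    set i := (j₀ + (R - j % R)) % R with hi
    have hiR : i < R := Nat.mod_lt _ (by omega)
    have hij : (i + j) % R = j₀ := by
      have h1 : (i + j) % R = (j₀ + (R - j % R) + j) % R := by
        rw [hi, Nat.add_mod, Nat.mod_mod, ← Nat.add_mod]
      rw [h1]
      have h2 : j % R < R := Nat.mod_lt _ (by omega)
      have h3 : j₀ + (R - j % R) + j = j₀ + R * (j / R + 1) := by
        have h4 := Nat.div_add_mod j R
        have h5 : R * (j / R + 1) = R * (j / R) + R := by ring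
        omega
      rw [h3, Nat.add_mul_mod_self_left, Nat.mod_eq_of_lt hj₀R]
    have hyi : (ev f)^[i] ((ev f)^[j] q) = (ev f)^[j₀] q := by
      rw [← Function.iterate_add_apply, ← hqp.iterate_mod_apply, hij]
    have hR2 : R = (R - (i + 1)) + (1 + i) := by omega
    have hjR : (ev f)^[j] q = (ev f)^[R] ((ev f)^[j] q) := by
      rw [← Function.iterate_add_apply, add_comm, Function.iterate_add_apply, hq]
    have h6 : D.N ((ev f)^[1 + i] x - (ev f)^[1 + i] ((ev f)^[j] q)) ≤ θ * D.N (x - (ev f)^[j] q) := by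
      rw [Function.iterate_add_apply, Function.iterate_add_apply, Function.iterate_one, hyi]
      have hle : D.N ((ev f)^[i] x - (ev f)^[j₀] q) ≤ D.N (x - (ev f)^[j] q) := by
        rw [← hyi]
        exact hf.iter_le hxi hqj i
      refine (hf.contract (hf.iter_int hxi i) (hf.iter_int hqi j₀)).trans ?_
      rw [mul_comm]
      exact mul_le_mul (max_le_max le_rfl (hle.trans hx)) hle (N_nonneg D _) hθ0.le
    calc D.N ((ev f)^[R] x - (ev f)^[j] q) = D.N ((ev f)^[R] x - (ev f)^[R] ((ev f)^[j] q)) := by rw [← hjR]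
      _ = D.N ((ev f)^[R - (i + 1)] ((ev f)^[1 + i] x) -
            (ev f)^[R - (i + 1)] ((ev f)^[1 + i] ((ev f)^[j] q))) := by
          rw [← Function.iterate_add_apply (ev f) (R - (i + 1)) (1 + i) x,
            ← Function.iterate_add_apply (ev f) (R - (i + 1)) (1 + i) ((ev f)^[j] q), ← hR2]
      _ ≤ D.N ((ev f)^[1 + i] x - (ev f)^[1 + i] ((ev f)^[j] q)) :=
          hf.iter_le (hf.iter_int hxi _) (hf.iter_int hqj _) _
      _ ≤ θ * D.N (x - (ev f)^[j] q) := h6
  have hblocks : ∀ (j : ℕ) (x : Ω), D.N (x - (ev f)^[j] q) ≤ ρ → ∀ m : ℕ,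
      D.N ((ev f)^[m * R] x - (ev f)^[j] q) ≤ θ ^ m * D.N (x - (ev f)^[j] q) := by
    intro j x hx m
    induction m with
    | zero => rw [Nat.zero_mul, Function.iterate_zero_apply, pow_zero, one_mul]
    | succ m ih =>
      have h1 : (m + 1) * R = R + m * R := by ring
      have h2 : D.N ((ev f)^[m * R] x - (ev f)^[j] q) ≤ ρ := by
        refine ih.trans ((mul_le_of_le_one_left (N_nonneg D _) (pow_le_one₀ hθ0.le hθ1.le)).trans hx)
      rw [h1, Function.iterate_add_apply]
      refine (hblock j _ h2).trans ?_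
      rw [pow_succ, mul_comm (θ ^ m), mul_assoc]
      exact mul_le_mul_of_nonneg_left ih hθ0.le
  obtain ⟨m₀, hm₀⟩ := exists_pow_lt_of_lt_one (N_pos D (sub_ne_zero.2 hbq)) hθ1
  -- near nodes in `M`
  have hnear : ∀ k z, z ∈ Node Ω f b k → z ∈ M → Near D f b z → k < m₀ * R := by
    intro k z hz hzM hn
    by_contra hk
    push Not at hk
    have hzi := hf.node_int hb1 k hz
    obtain ⟨j, hj⟩ := hn
    have hj2 : D.N (z - (ev f)^[j] q) < 1 := by
      refine N_lt_trans D hj ?_
      rw [N_symm]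
      exact hf.iter_cg hqi hb1 hqb j
    have hzk : (ev f)^[k] z = β := hz
    have hkq : (ev f)^[k] ((ev f)^[j] q) = q := by
      apply huniq
      · exact hf.iter_int (hf.iter_int hqi j) k
      · have h8 : (ev f)^[R] ((ev f)^[k + j] q) = (ev f)^[k + j] ((ev f)^[R] q) := by
          rw [← Function.iterate_add_apply, ← Function.iterate_add_apply, add_comm]
        rw [← Function.iterate_add_apply (ev f) k j q, h8, hq]
      · have := hf.iter_cg hzi (hf.iter_int hqi j) hj2 k
        rw [hzk] at this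
        rw [N_symm]
        exact this
    have hne : z - (ev f)^[j] q ≠ 0 := by
      intro h0
      rw [sub_eq_zero] at h0
      apply hbq
      rw [← hzk, h0, hkq]
    have hle : D.N (z - (ev f)^[j] q) ≤ ρ :=
      (w_val hE0 w hw0 hw (sub_mem hzM (ev_iter_mem M hqM j)) hne).le (w_ne hE0 w hw0 hw L) hρ1 hj2
    have h1 := hblocks j z hle m₀
    have h2 : D.N (β - q) ≤ D.N ((ev f)^[m₀ * R] z - (ev f)^[j] q) := by
      obtain ⟨k', rfl⟩ := Nat.exists_eq_add_of_le hk
      have h3 : (ev f)^[m₀ * R] ((ev f)^[j] q) = (ev f)^[j] q := by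
        rw [← Function.iterate_add_apply, add_comm, Function.iterate_add_apply]
        congr 1
        exact (hqp.const_mul m₀)
      have h4 : (ev f)^[k'] ((ev f)^[m₀ * R] z) = β := by
        rw [← Function.iterate_add_apply, add_comm]
        exact hzk
      have h5 : (ev f)^[k'] ((ev f)^[j] q) = q := by
        rw [add_comm, Function.iterate_add_apply, h3] at hkq
        exact hkq
      calc D.N (β - q) = D.N ((ev f)^[k'] ((ev f)^[m₀ * R] z) - (ev f)^[k'] ((ev f)^[j] q)) := by rw [h4, h5]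
        _ ≤ _ := hf.iter_le (hf.iter_int hzi _) (hf.iter_int hqi j) k'
    have h6 : D.N (β - q) ≤ θ ^ m₀ := by
      refine h2.trans (h1.trans ?_)
      exact mul_le_of_le_one_right (pow_nonneg hθ0.le _) (hle.trans hρ1.le)
    linarith
  refine ⟨m₀ * R + D₀ + 1, fun k z hz hcrz hzM => ?_⟩
  by_contra hk
  push Not at hk
  have hzi := hf.node_int hb1 k hz
  obtain ⟨r', hr', h⟩ := crit_rper hf D₀ hD₀ hzi hcrz (le_refl D₀)
  obtain ⟨k', rfl⟩ : ∃ k', k = (k' + 1) + D₀ := ⟨k - D₀ - 1, by omega⟩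
  have hu := Node_iter (f := f) hz
  have hu1 := Node_succ.1 hu
  have hnu : Near D f b ((ev f)^[D₀] z) := by
    refine near_of_rper hf hb1 (hf.iter_int hzi D₀) hr' h (k' + 1) ?_
    have : (ev f)^[k' + 1] ((ev f)^[D₀] z) = β := hu
    rw [this]
    refine ⟨0, ?_⟩
    rw [Function.iterate_zero_apply, ← hβ, sub_self, N_zero]
    exact one_pos
  have hnu1 : Near D f b (ev f ((ev f)^[D₀] z)) := near_iter hf hb1 hnu 1
  have huM : ev f ((ev f)^[D₀] z) ∈ M := by
    rw [← Function.iterate_succ_apply' (ev f) D₀ z, Function.iterate_succ_apply]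
    exact ev_iter_mem M hzM D₀
  have := hnear k' _ hu1 huM hnu1
  omega

include hf hb hE hE0 hw0 hw hL hD₀ in
/-- N8: the levels of the exits are bounded -/
theorem level_exits : ∃ s, ∀ k z, z ∈ Node Ω f b k → z ∉ MF D (w L) → ev f z ∈ MF D (w L) → k ≤ s := by
  have hval : ∀ x ∈ MF D (w L), x ≠ 0 → Pw D (w L) x := fun x hx h0 => w_val hE0 w hw0 hw hx h0
  rcases lt_or_ge 1 (D.N (algebraMap F Ω b)) with hb1 | hb1
  · obtain ⟨s, hs⟩ := level_infty hf (w_ne hE0 w hw0 hw L) (w_lt hE0 w hw0 hw L) b hb1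
    refine ⟨s, fun k z hz hzM hev => ?_⟩
    by_contra hk
    push Not at hk
    obtain ⟨k, rfl⟩ : ∃ k', k = k' + 1 := ⟨k - 1, by omega⟩
    have h1 := Node_succ.1 hz
    refine hs k (by omega) _ h1 (hval _ hev ?_)
    intro h0
    have h2 := (hf.node_big hb1 k h1).1
    rw [h0, N_zero] at h2
    linarith
  have hcrit : ∀ k z, z ∈ Node Ω f b k → z ∉ MF D (w L) → ev f z ∈ MF D (w L) →
      D.N (aeval z (derivative f)) < 1 := by
    intro k z hz hzM hev
    obtain ⟨c, -, e, -, -, -, -, h⟩ := child_exit D hf (muS_le _) (w_ne hE0 w hw0 hw L) (mem_MF _) hval hev hzM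
    exact h (hf.node_int hb1 k hz)
  by_cases hper : RPer D f (algebraMap F Ω b)
  · obtain ⟨r, hr, hrb⟩ := hper
    by_cases hun : ∀ j, D.N (aeval ((ev f)^[j] (algebraMap F Ω b)) (derivative f)) = 1
    · refine ⟨0, fun k z hz hzM _ => absurd ?_ hzM⟩
      have h1 := levels_b hf b hE hE0 w hw0 hw D₀ hD₀ hb1 hun k k z hz ⟨0, by
        have h2 : (ev f)^[k] z = algebraMap F Ω b := hz
        rw [h2, Function.iterate_zero_apply, sub_self, N_zero]
        exact one_pos⟩
      exact w_mono hE0 w hw0 hw ((min_le_right k D₀).trans hL) h1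
    · push Not at hun
      obtain ⟨j₀, hj₀⟩ := hun
      have hcr := lt_of_le_of_ne (hf.dint (orb_int hf hb1 j₀)) hj₀
      obtain ⟨s, hs⟩ := levels_c hf b hb hE0 w hw0 hw D₀ L hD₀ hb1 hr hrb hcr
      exact ⟨s, fun k z hz hzM hev => hs k z hz (hcrit k z hz hzM hev) hev⟩
  · exact ⟨D₀, fun k z hz hzM hev => (levels_a hf b D₀ hD₀ hb1 hper hz (hcrit k z hz hzM hev)).le⟩

end levels

end

end Pool.Agent.ORB.NI
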