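import Pool.Agent.ORB.RRed
import Pool.Agent.ORB.Divis

/-! ORB, Theorem V: eventual stability of `x^p + c`: the points of the backward orbit of a non-periodic point
have large degree. -/

namespace Pool.Agent.ORB

open NumberField IsDedekindDomain WithZero

universe u

section Ord

variable {M : Type*} [Field M] [NumberField M] (P : HeightOneSpectrum (𝓞 M))

/-- the order at `P` -/
noncomputable def ordp (x : M) : ℤ := - log (P.valuation M x)

theorem val_ne {x : M} (hx : x ≠ 0) : P.valuation M x ≠ 0 := (Valuation.ne_zero_iff _).2 hx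

theorem ordp_mul {x y : M} (hx : x ≠ 0) (hy : y ≠ 0) : ordp P (x * y) = ordp P x + ordp P y := by
  unfold ordp
  rw [map_mul, log_mul (val_ne P hx) (val_ne P hy)]
  ring

theorem ordp_pow (x : M) (n : ℕ) : ordp P (x ^ n) = n * ordp P x := by
  unfold ordp
  rw [map_pow, log_pow, nsmul_eq_mul]
  ring

theorem ordp_le {x y : M} (hx : x ≠ 0) (hy : y ≠ 0) :
    ordp P x ≤ ordp P y ↔ P.valuation M y ≤ P.valuation M x := by
  unfold ordp
  rw [neg_le_neg_iff, log_le_log (val_ne P hy) (val_ne P hx)]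

theorem ordp_nonneg {x : M} (hx : x ≠ 0) : 0 ≤ ordp P x ↔ P.valuation M x ≤ 1 := by
  have h := ordp_le P (one_ne_zero (α := M)) hx
  have h1 : ordp P (1 : M) = 0 := by unfold ordp; rw [map_one, log_one, neg_zero]
  rw [h1, map_one] at h
  exact h

theorem ordp_pos {x : M} (hx : x ≠ 0) : 0 < ordp P x ↔ P.valuation M x < 1 := by
  have h := ordp_le P hx (one_ne_zero (α := M))
  have h1 : ordp P (1 : M) = 0 := by unfold ordp; rw [map_one, log_one, neg_zero]
  rw [h1, map_one] at h
  rw [← not_le, ← not_le, h]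

/-- the order is bounded by the degree -/
theorem ordp_nat_le {p : ℕ} (hp : 2 ≤ p) : ordp P (p : M) ≤ p * Module.finrank ℚ M := by
  have hp0 : (p : 𝓞 M) ≠ 0 := by exact_mod_cast (by omega : p ≠ 0)
  have hv : P.valuation M (p : M) = P.intValuation (p : 𝓞 M) := by
    rw [← HeightOneSpectrum.valuation_of_algebraMap (K := M)]
    congr 1
  have hp0' : (p : M) ≠ 0 := by exact_mod_cast (by omega : p ≠ 0)
  have h0 : 0 ≤ ordp P (p : M) := by
    rw [ordp_nonneg P hp0', hv]
    exact P.intValuation_le_one _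
  obtain ⟨n, hn⟩ := Int.eq_ofNat_of_zero_le h0
  have h1 : P.intValuation (p : 𝓞 M) ≤ exp (-(n : ℤ)) := by
    rw [← hv, ← log_le_iff_le_exp (val_ne P hp0'), ← hn]
    unfold ordp
    rw [neg_neg]
  rw [HeightOneSpectrum.intValuation_le_pow_iff_dvd] at h1
  have h2 := Ideal.absNorm_dvd_absNorm_of_le (Ideal.dvd_iff_le.1 h1)
  rw [map_pow, Ideal.absNorm_span_singleton] at h2
  have h3 : (Algebra.norm ℤ (p : 𝓞 M)).natAbs = p ^ Module.finrank ℚ M := by
    have : (p : 𝓞 M) = algebraMap ℤ (𝓞 M) (p : ℤ) := by simp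
    rw [this, Algebra.norm_algebraMap, NumberField.RingOfIntegers.rank, Int.natAbs_pow, Int.natAbs_natCast]
  rw [h3] at h2
  have h4 : 2 ≤ Ideal.absNorm P.asIdeal := by
    have h5 : Ideal.absNorm P.asIdeal ≠ 0 := by
      rw [Ne, Ideal.absNorm_eq_zero_iff]; exact P.ne_bot
    have h6 : Ideal.absNorm P.asIdeal ≠ 1 := by
      rw [Ne, Ideal.absNorm_eq_one_iff]; exact P.isPrime.ne_top
    omega
  have h7 : 2 ^ n ≤ 2 ^ (p * Module.finrank ℚ M) := by
    calc 2 ^ n ≤ Ideal.absNorm P.asIdeal ^ n := Nat.pow_le_pow_left h4 n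
      _ ≤ p ^ Module.finrank ℚ M := Nat.le_of_dvd (Nat.pow_pos (by omega)) h2
      _ ≤ (2 ^ p) ^ Module.finrank ℚ M := Nat.pow_le_pow_left Nat.lt_two_pow_self.le _
      _ = 2 ^ (p * Module.finrank ℚ M) := by rw [pow_mul]
  have h8 := (Nat.pow_le_pow_iff_right (by norm_num : 1 < 2)).1 h7
  rw [hn]
  exact_mod_cast h8

end Ord

/-- one step: the order of `(y + z)^p - y^p` -/
theorem ordp_step {M : Type*} [Field M] [NumberField M] (P : HeightOneSpectrum (𝓞 M)) {p : ℕ} (hp : p.Prime)
    {y z : M} (hy : P.valuation M y ≤ 1) (hz : P.valuation M z ≤ 1) (hz0 : z ≠ 0)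
    (hd : (y + z) ^ p - y ^ p ≠ 0) :
    ordp P ((y + z) ^ p - y ^ p) = p * ordp P z ∨
      (ordp P (p : M) + ordp P z ≤ p * ordp P z ∧
        ordp P (p : M) + ordp P z ≤ ordp P ((y + z) ^ p - y ^ p)) := by
  obtain ⟨t, ht1, ht2⟩ : ∃ t : M, P.valuation M t ≤ 1 ∧ (y + z) ^ p - y ^ p = z ^ p + p * z * t := by
    refine ⟨y * ∑ k ∈ Finset.Ioo 0 p, y ^ (k - 1) * z ^ (p - k - 1) * ↑(p.choose k / p), ?_, ?_⟩
    · rw [map_mul]
      refine mul_le_one₀ hy zero_le ?_
      refine Valuation.map_sum_le _ fun k _ => ?_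
      rw [map_mul, map_mul, map_pow, map_pow]
      refine mul_le_one₀ (mul_le_one₀ (pow_le_one₀ zero_le hy) zero_le (pow_le_one₀ zero_le hz)) zero_le ?_
      have := P.valuation_le_one (K := M) ((p.choose k / p : ℕ) : 𝓞 M)
      simpa using this
    · rw [add_pow_prime_eq hp]
      ring
  have hp0 : (p : M) ≠ 0 := by exact_mod_cast hp.ne_zero
  have hpz : (p : M) * z ≠ 0 := mul_ne_zero hp0 hz0
  have h1 : P.valuation M (p * z * t) ≤ P.valuation M (p * z) := by
    rw [map_mul]
    exact mul_le_of_le_one_right' ht1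
  by_cases h2 : P.valuation M (p * z) < P.valuation M (z ^ p)
  · left
    have h3 : P.valuation M ((y + z) ^ p - y ^ p) = P.valuation M (z ^ p) := by
      rw [ht2]
      exact Valuation.map_add_eq_of_lt_left _ (lt_of_le_of_lt h1 h2)
    rw [← ordp_pow]
    unfold ordp
    rw [h3]
  · right
    rw [not_lt] at h2
    constructor
    · rw [← ordp_mul P hp0 hz0, ← ordp_pow, ordp_le P hpz (pow_ne_zero _ hz0)]
      exact h2
    · rw [← ordp_mul P hp0 hz0, ordp_le P hpz hd, ht2]
      exact le_trans (Valuation.map_add _ _ _) (max_le h2 h1)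

/-- the arithmetic of the orders along a backward orbit -/
theorem chain_bound {p : ℕ} (hp : 2 ≤ p) {T : ℤ} (hT : 0 < T) {B n : ℕ} (V : ℕ → ℤ)
    (hpos : ∀ j ≤ n, 0 < V j) (h0 : V 0 ≤ B * T)
    (hstep : ∀ j < n, V j = p * V (j + 1) ∨ (T + V (j + 1) ≤ p * V (j + 1) ∧ T + V (j + 1) ≤ V j)) :
    (p : ℤ) ^ (n - B) ≤ 2 * T := by
  have hp' : (2 : ℤ) ≤ p := by exact_mod_cast hp
  rcases Nat.lt_or_ge n B with hn | hn
  · rw [Nat.sub_eq_zero_of_le hn.le, pow_zero]
    linarith
  -- small values stay small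
  have hsmall : ∀ j < n, (p - 1) * V j < p * T → V j = p * V (j + 1) ∧ (p - 1) * V (j + 1) < p * T := by
    intro j hj hs
    rcases hstep j hj with h | ⟨h1, h2⟩
    · refine ⟨h, ?_⟩
      have := hpos (j + 1) hj
      rw [h] at hs
      have h5 : ((p : ℤ) - 1) * V (j + 1) ≤ (p - 1) * (p * V (j + 1)) :=
        mul_le_mul_of_nonneg_left (by nlinarith) (by linarith)
      linarith
    · exfalso
      have h3 : T ≤ (p - 1) * V (j + 1) := by linarith
      have h4 : (p - 1) * (T + V (j + 1)) ≤ (p - 1) * V j :=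
        mul_le_mul_of_nonneg_left h2 (by linarith)
      nlinarith
  -- large values decrease
  have hlarge : ∀ j < n, p * T ≤ (p - 1) * V j → V (j + 1) ≤ V j - T := by
    intro j hj hs
    rcases hstep j hj with h | ⟨h1, h2⟩
    · rw [h] at hs ⊢
      have h3 : T ≤ (p - 1) * V (j + 1) := by
        have : (p : ℤ) * T ≤ p * ((p - 1) * V (j + 1)) := by linarith
        exact le_of_mul_le_mul_left this (by linarith)
      linarith
    · linarith
  obtain ⟨j0, hj0, hs0⟩ : ∃ j0 ≤ B, (p - 1) * V j0 < p * T := by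
    by_contra hcon
    push Not at hcon
    have : ∀ j ≤ B, V j ≤ V 0 - j * T := by
      intro j
      induction j with
      | zero => intro _; simp
      | succ j ih =>
        intro hj
        have h1 := ih (by omega)
        have h2 := hlarge j (by omega) (hcon j (by omega))
        push_cast
        linarith
    have h1 := this B le_rfl
    have h2 := hpos B hn
    linarith
  have hgeo : ∀ i, j0 + i ≤ n → V j0 = p ^ i * V (j0 + i) ∧ (p - 1) * V (j0 + i) < p * T := by
    intro i
    induction i with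
    | zero => intro _; exact ⟨by simp, hs0⟩
    | succ i ih =>
      intro hi
      obtain ⟨h1, h2⟩ := ih (by omega)
      obtain ⟨h3, h4⟩ := hsmall (j0 + i) (by omega) h2
      refine ⟨?_, h4⟩
      rw [h1, h3]
      ring_nf
  obtain ⟨h1, -⟩ := hgeo (n - j0) (by omega)
  have h2 : j0 + (n - j0) = n := by omega
  rw [h2] at h1
  have h3 : (p : ℤ) ^ (n - B) ≤ p ^ (n - j0) := pow_le_pow_right₀ (by linarith) (by omega)
  have h4 : (p : ℤ) ^ (n - j0) ≤ V j0 := by
    rw [h1]
    have := hpos n le_rfl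
    have h5 : (0 : ℤ) < (p : ℤ) ^ (n - j0) := by positivity
    nlinarith
  have h5 : V j0 ≤ 2 * T := by
    by_contra hcon
    push Not at hcon
    nlinarith
  linarith

/-- the map `x ↦ x^p + c` -/
def uf {F : Type*} [Field F] (p : ℕ) (c : F) (x : F) : F := x ^ p + c

theorem uf_map {F F' : Type*} [Field F] [Field F'] (φ : F →+* F') (p : ℕ) (c x : F) (n : ℕ) :
    φ ((uf p c)^[n] x) = (uf p (φ c))^[n] (φ x) := by
  induction n generalizing x with
  | zero => rfl
  | succ n ih =>
    rw [Function.iterate_succ_apply, Function.iterate_succ_apply, ih]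
    simp only [uf, map_add, map_pow]

theorem uf_int {M : Type*} [Field M] [NumberField M] (P : HeightOneSpectrum (𝓞 M)) {p : ℕ} {c : M}
    (hc : P.valuation M c ≤ 1) {x : M} (hx : P.valuation M x ≤ 1) (n : ℕ) :
    P.valuation M ((uf p c)^[n] x) ≤ 1 := by
  induction n generalizing x with
  | zero => exact hx
  | succ n ih =>
    rw [Function.iterate_succ_apply]
    refine ih ?_
    exact le_trans (Valuation.map_add _ _ _) (max_le (by rw [map_pow]; exact pow_le_one₀ zero_le hx) hc)

theorem uf_int_back {M : Type*} [Field M] [NumberField M] (P : HeightOneSpectrum (𝓞 M)) {p : ℕ} (hp : p ≠ 0)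
    {c : M} (hc : P.valuation M c ≤ 1) {x : M} (n : ℕ) (hx : P.valuation M ((uf p c)^[n] x) ≤ 1) :
    P.valuation M x ≤ 1 := by
  induction n generalizing x with
  | zero => exact hx
  | succ n ih =>
    rw [Function.iterate_succ_apply] at hx
    have h1 := ih hx
    have h2 : P.valuation M (x ^ p) ≤ 1 := by
      have : x ^ p = uf p c x - c := by rw [uf]; ring
      rw [this]
      exact le_trans (Valuation.map_sub _ _ _) (max_le h1 hc)
    rw [map_pow] at h2
    exact (pow_le_one_iff hp).1 h2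

theorem cong_back {M : Type*} [Field M] [NumberField M] (P : HeightOneSpectrum (𝓞 M)) {p : ℕ} (hp : p.Prime)
    (hpP : P.valuation M (p : M) < 1) {c : M} (hc : P.valuation M c ≤ 1) (n : ℕ) {x y : M}
    (hx : P.valuation M x ≤ 1) (hy : P.valuation M y ≤ 1)
    (h : P.valuation M ((uf p c)^[n] x - (uf p c)^[n] y) < 1) : P.valuation M (x - y) < 1 := by
  induction n generalizing x y with
  | zero => exact h
  | succ n ih =>
    rw [Function.iterate_succ_apply, Function.iterate_succ_apply] at h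
    have h1 := ih (x := uf p c x) (y := uf p c y) (uf_int P hc hx 1) (uf_int P hc hy 1) h
    have h2 : x ^ p = (x - y) ^ p + y ^ p + p * (x - y) * y *
        ∑ k ∈ Finset.Ioo 0 p, (x - y) ^ (k - 1) * y ^ (p - k - 1) * ↑(p.choose k / p) := by
      conv_lhs => rw [← sub_add_cancel x y]
      exact add_pow_prime_eq hp _ _
    have hxy : P.valuation M (x - y) ≤ 1 := le_trans (Valuation.map_sub _ _ _) (max_le hx hy)
    have h3 : P.valuation M (∑ k ∈ Finset.Ioo 0 p, (x - y) ^ (k - 1) * y ^ (p - k - 1) *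
        ↑(p.choose k / p)) ≤ 1 := by
      refine Valuation.map_sum_le _ fun k _ => ?_
      rw [map_mul, map_mul, map_pow, map_pow]
      refine mul_le_one₀ (mul_le_one₀ (pow_le_one₀ zero_le hxy) zero_le (pow_le_one₀ zero_le hy)) zero_le ?_
      have := P.valuation_le_one (K := M) ((p.choose k / p : ℕ) : 𝓞 M)
      simpa using this
    have h4 : (x - y) ^ p = (uf p c x - uf p c y) - p * ((x - y) * y *
        ∑ k ∈ Finset.Ioo 0 p, (x - y) ^ (k - 1) * y ^ (p - k - 1) * ↑(p.choose k / p)) := by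
      simp only [uf]
      linear_combination -h2
    have h5 : P.valuation M ((x - y) ^ p) < 1 := by
      rw [h4]
      refine lt_of_le_of_lt (Valuation.map_sub _ _ _) (max_lt h1 ?_)
      rw [map_mul]
      refine mul_lt_one_of_lt_of_le hpP ?_
      rw [map_mul, map_mul]
      exact mul_le_one₀ (mul_le_one₀ hxy zero_le hy) zero_le h3
    rw [map_pow] at h5
    exact (pow_lt_one_iff hp.ne_zero).1 h5

/-- eventual stability at a place above `p` at which `c` and `b` are integral -/
theorem evst_int {K : Type u} [Field K] [NumberField K] {p : ℕ} (hp : p.Prime) (w : HeightOneSpectrum (𝓞 K))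
    (hw : w.valuation K (p : K) < 1) (c b : K) (hc : w.valuation K c ≤ 1) (hb : w.valuation K b ≤ 1)
    (hper : ∀ k, 1 ≤ k → (uf p c)^[k] b ≠ b) : ∃ C : ℕ, 0 < C ∧
      ∀ (M : Type u) [Field M] [NumberField M] [Algebra K M] (x : M) (n : ℕ),
        (uf p (algebraMap K M c))^[n] x = algebraMap K M b → p ^ n ≤ C * Module.finrank ℚ M := by
  obtain ⟨N0, hN0⟩ := exists_sameRed w
  obtain ⟨i, j, hij, -, hsame⟩ := hN0 (fun i => ((uf p c)^[i] b : K))
  have hbi : ∀ i, w.valuation K ((uf p c)^[i] b) ≤ 1 := fun i => uf_int w hc hb i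
  set k := j - i with hk
  have hk1 : 1 ≤ k := by omega
  have hcong : w.valuation K (b - (uf p c)^[k] b) < 1 := by
    refine cong_back w hp hw hc i hb (hbi k) ?_
    rw [← Function.iterate_add_apply, show i + k = j by omega]
    rcases hsame with ⟨h1, -⟩ | ⟨a1, a2, h1, h2, -, -, h3⟩
    · exact absurd (hbi i) (not_le.2 (h1 _ rfl))
    · rw [OnePoint.coe_eq_coe] at h1 h2
      rw [h1, h2]
      exact h3
  set D : K := b - (uf p c)^[k] b with hD
  have hD0 : D ≠ 0 := sub_ne_zero.2 (Ne.symm (hper k hk1))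
  have hp0K : (p : K) ≠ 0 := by exact_mod_cast hp.ne_zero
  obtain ⟨B, hB⟩ := Int.eq_ofNat_of_zero_le ((ordp_pos w hD0).2 hcong).le
  have hTK : 0 < ordp w (p : K) := (ordp_pos w hp0K).2 hw
  have hBw : w.valuation K ((p : K) ^ B / D) ≤ 1 := by
    have h1 : w.valuation K ((p : K) ^ B) ≤ w.valuation K D := by
      rw [← ordp_le w hD0 (pow_ne_zero _ hp0K), ordp_pow, hB]
      have h2 : (0 : ℤ) ≤ B := Int.natCast_nonneg B
      nlinarith
    rw [map_div₀]
    exact div_le_one_of_le₀ h1 zero_le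
  refine ⟨p ^ B * (2 * p), by have := hp.pos; positivity, ?_⟩
  intro M _ _ _ x n hx
  obtain ⟨⟨Q, hQ1, hQ2⟩⟩ := w.asIdeal.nonempty_primesOver (S := 𝓞 M)
  have hQ0 : Q ≠ ⊥ := Ideal.ne_bot_of_mem_primesOver w.ne_bot ⟨hQ1, hQ2⟩
  let P : HeightOneSpectrum (𝓞 M) := ⟨Q, hQ1, hQ0⟩
  have hlo : P.asIdeal.LiesOver w.asIdeal := hQ2
  set cM : M := algebraMap K M c with hcM
  have hcP : P.valuation M cM ≤ 1 := (val_le_iff w P c).2 hc
  have hbP : P.valuation M (algebraMap K M b) ≤ 1 := (val_le_iff w P b).2 hb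
  have hpP : P.valuation M (p : M) < 1 := by
    have := (val_lt_iff w P (p : K)).2 hw
    rwa [map_natCast] at this
  have hp0 : (p : M) ≠ 0 := by exact_mod_cast hp.ne_zero
  have hxP : P.valuation M x ≤ 1 := uf_int_back P hp.ne_zero hcP n (by rw [hx]; exact hbP)
  have hui : ∀ i, P.valuation M ((uf p cM)^[i] x) ≤ 1 := fun i => uf_int P hcP hxP i
  have hDM : algebraMap K M D = (uf p cM)^[n] x - (uf p cM)^[n + k] x := by
    rw [hD, map_sub, uf_map, hx, add_comm n k, Function.iterate_add_apply, hx]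
  have hDM0 : algebraMap K M D ≠ 0 := (map_ne_zero _).2 hD0
  have hne : ∀ j ≤ n, (uf p cM)^[n - j] x - (uf p cM)^[n - j + k] x ≠ 0 := by
    intro j hj h0
    apply hDM0
    rw [hDM, sub_eq_zero]
    have h1 := congrArg ((uf p cM)^[j]) (sub_eq_zero.1 h0)
    rw [← Function.iterate_add_apply, ← Function.iterate_add_apply] at h1
    rw [show j + (n - j) = n by omega, show j + (n - j + k) = n + k by omega] at h1
    exact h1
  have hposV : ∀ j ≤ n, 0 < ordp P ((uf p cM)^[n - j] x - (uf p cM)^[n - j + k] x) := by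
    intro j hj
    rw [ordp_pos P (hne j hj)]
    refine cong_back P hp hpP hcP j (hui _) (hui _) ?_
    rw [← Function.iterate_add_apply, ← Function.iterate_add_apply, show j + (n - j) = n by omega,
      show j + (n - j + k) = n + k by omega, ← hDM]
    exact (val_lt_iff w P D).2 hcong
  have hT : 0 < ordp P (p : M) := (ordp_pos P hp0).2 hpP
  have hmain := chain_bound hp.two_le hT (B := B) (n := n)
    (fun j => ordp P ((uf p cM)^[n - j] x - (uf p cM)^[n - j + k] x)) hposV ?_ ?_
  · have h1 := ordp_nat_le P hp.two_le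
    have h2 : (p : ℤ) ^ (n - B) ≤ 2 * (p * Module.finrank ℚ M) := by linarith
    have h3 : p ^ (n - B) ≤ 2 * (p * Module.finrank ℚ M) := by exact_mod_cast h2
    calc p ^ n ≤ p ^ (B + (n - B)) := Nat.pow_le_pow_right hp.pos (by omega)
      _ = p ^ B * p ^ (n - B) := by rw [pow_add]
      _ ≤ p ^ B * (2 * (p * Module.finrank ℚ M)) := Nat.mul_le_mul_left _ h3
      _ = p ^ B * (2 * p) * Module.finrank ℚ M := by ring
  · show ordp P ((uf p cM)^[n - 0] x - (uf p cM)^[n - 0 + k] x) ≤ B * ordp P (p : M)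
    rw [Nat.sub_zero, ← hDM]
    have h1 : P.valuation M (algebraMap K M ((p : K) ^ B / D)) ≤ 1 := (val_le_iff w P _).2 hBw
    rw [map_div₀, map_pow, map_natCast] at h1
    have h2 : P.valuation M ((p : M) ^ B) ≤ P.valuation M (algebraMap K M D) := by
      rw [map_div₀, div_le_one₀ (zero_lt_iff.2 (val_ne P hDM0))] at h1
      exact h1
    rw [← ordp_pow, ordp_le P hDM0 (pow_ne_zero _ hp0)]
    exact h2
  · intro j hj
    have h1 : (uf p cM)^[n - j] x - (uf p cM)^[n - j + k] x =
        ((uf p cM)^[n - (j + 1) + k] x + ((uf p cM)^[n - (j + 1)] x - (uf p cM)^[n - (j + 1) + k] x)) ^ p -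
          ((uf p cM)^[n - (j + 1) + k] x) ^ p := by
      rw [show n - j = (n - (j + 1)) + 1 by omega, Function.iterate_succ_apply',
        show n - (j + 1) + 1 + k = (n - (j + 1) + k) + 1 by omega, Function.iterate_succ_apply']
      simp only [uf, add_sub_cancel]
      ring
    have h2 := ordp_step P hp (hui (n - (j + 1) + k))
      (z := (uf p cM)^[n - (j + 1)] x - (uf p cM)^[n - (j + 1) + k] x)
      (le_trans (Valuation.map_sub _ _ _) (max_le (hui _) (hui _))) (hne (j + 1) hj)
      (by rw [← h1]; exact hne j hj.le)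
    rw [← h1] at h2
    exact h2

/-- eventual stability at a place at which `c` but not `b` is integral -/
theorem evst_bad {K : Type u} [Field K] [NumberField K] {p : ℕ} (hp : 2 ≤ p) (w : HeightOneSpectrum (𝓞 K))
    (c b : K) (hc : w.valuation K c ≤ 1) (hb : 1 < w.valuation K b) : ∃ C : ℕ, 0 < C ∧
      ∀ (M : Type u) [Field M] [NumberField M] [Algebra K M] (x : M) (n : ℕ),
        (uf p (algebraMap K M c))^[n] x = algebraMap K M b → p ^ n ≤ C * Module.finrank ℚ M := by
  obtain ⟨m, hm0, hm⟩ := exists_nat_mul_integral b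
  refine ⟨2 * m, by omega, ?_⟩
  intro M _ _ _ x n hx
  obtain ⟨⟨Q, hQ1, hQ2⟩⟩ := w.asIdeal.nonempty_primesOver (S := 𝓞 M)
  have hQ0 : Q ≠ ⊥ := Ideal.ne_bot_of_mem_primesOver w.ne_bot ⟨hQ1, hQ2⟩
  let P : HeightOneSpectrum (𝓞 M) := ⟨Q, hQ1, hQ0⟩
  have hlo : P.asIdeal.LiesOver w.asIdeal := hQ2
  set cM : M := algebraMap K M c with hcM
  have hcP : P.valuation M cM ≤ 1 := (val_le_iff w P c).2 hc
  have hbP : 1 < P.valuation M (algebraMap K M b) := by
    rw [← not_le] at hb ⊢
    exact fun h => hb ((val_le_iff w P b).1 h)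
  have hb0 : algebraMap K M b ≠ 0 := by
    intro h0
    rw [h0, map_zero] at hbP
    exact absurd hbP (not_lt.2 zero_le)
  have key : ∀ (n : ℕ) (x : M), 1 < P.valuation M ((uf p cM)^[n] x) →
      1 < P.valuation M x ∧ P.valuation M ((uf p cM)^[n] x) = P.valuation M x ^ (p ^ n) := by
    intro n
    induction n with
    | zero => intro x h; exact ⟨h, by simp⟩
    | succ n ih =>
      intro x h
      rw [Function.iterate_succ_apply] at h ⊢
      obtain ⟨h1, h2⟩ := ih _ h
      have h3 : P.valuation M (x ^ p) > 1 := by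
        by_contra hcon
        rw [gt_iff_lt, not_lt] at hcon
        exact absurd h1 (not_lt.2 (le_trans (Valuation.map_add _ _ _) (max_le hcon hcP)))
      have h4 : P.valuation M (uf p cM x) = P.valuation M x ^ p := by
        rw [uf, Valuation.map_add_eq_of_lt_left _ (lt_of_le_of_lt hcP h3), map_pow]
      refine ⟨?_, ?_⟩
      · by_contra hcon
        rw [not_lt] at hcon
        rw [gt_iff_lt, map_pow] at h3
        exact absurd h3 (not_lt.2 (pow_le_one₀ zero_le hcon))
      · rw [h2, h4, ← pow_mul]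
        congr 1
        rw [pow_succ]
        ring
  rw [← hx] at hbP
  obtain ⟨h1, h2⟩ := key n x hbP
  rw [hx] at h2
  have hx0 : x ≠ 0 := by
    rintro rfl
    rw [map_zero] at h1
    exact absurd h1 (not_lt.2 zero_le)
  have h3 : ordp P (algebraMap K M b) = p ^ n * ordp P x := by
    have := ordp_pow P x (p ^ n)
    unfold ordp at this ⊢
    rw [h2, ← map_pow, this]
    push_cast
    ring
  have h4 : ordp P x < 0 := by
    rw [← not_le, ordp_nonneg P hx0, not_le]
    exact h1
  have h5 : ((2 * m : ℕ) : M) ≠ 0 := by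
    have : (2 * m : ℕ) ≠ 0 := by omega
    exact_mod_cast this
  have h6 : 0 ≤ ordp P (((2 * m : ℕ) : M) * algebraMap K M b) := by
    rw [ordp_nonneg P (mul_ne_zero h5 hb0)]
    have h7 : IsIntegral ℤ ((m : K) * b) := hm
    have h8 : IsIntegral ℤ (algebraMap K M ((m : K) * b)) := h7.map (algebraMap K M).toIntAlgHom
    let y : 𝓞 M := ⟨algebraMap K M ((m : K) * b), h8⟩
    have h9 : P.valuation M (algebraMap (𝓞 M) M (2 * y)) ≤ 1 := P.valuation_le_one (K := M) (2 * y)
    have h10 : algebraMap (𝓞 M) M y = (m : M) * algebraMap K M b := by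
      show algebraMap K M ((m : K) * b) = _
      rw [map_mul, map_natCast]
    have h11 : algebraMap (𝓞 M) M (2 * y) = ((2 * m : ℕ) : M) * algebraMap K M b := by
      rw [map_mul, map_ofNat, h10]
      push_cast
      rw [mul_assoc]
    rwa [h11] at h9
  rw [ordp_mul P h5 hb0] at h6
  have h7 := ordp_nat_le P (p := 2 * m) (by omega)
  have h8 : (p : ℤ) ^ n ≤ ((2 * m : ℕ) : ℤ) * Module.finrank ℚ M := by
    have h9 : (0 : ℤ) < (p : ℤ) ^ n := by positivity
    nlinarith
  exact_mod_cast h8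

end Pool.Agent.ORB
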