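import Pool.Agent.ORB.GDefs
import Pool.Agent.ORB.EvSt

/-!
ORB, Theorem V++, row G7: local conditions which give eventual stability.
-/

set_option autoImplicit false

namespace Pool.Agent.ORB.GP

open Polynomial NumberField IsDedekindDomain WithZero

universe u

section Val

variable {M : Type*} [Field M] [NumberField M] (P : HeightOneSpectrum (𝓞 M)) {g : M[X]}

theorem val_eval_le (hg : ∀ i, P.valuation M (g.coeff i) ≤ 1) {x : M} (hx : P.valuation M x ≤ 1) :
    P.valuation M (eval x g) ≤ 1 := by
  rw [eval_eq_sum_range]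
  refine Valuation.map_sum_le _ fun i _ => ?_
  rw [map_mul, map_pow]
  exact mul_le_one₀ (hg i) zero_le (pow_le_one₀ zero_le hx)

theorem val_eval_big (hg : ∀ i, P.valuation M (g.coeff i) ≤ 1) (hl : P.valuation M g.leadingCoeff = 1) {x : M}
    (hx : 1 < P.valuation M x) : P.valuation M (eval x g) = P.valuation M x ^ g.natDegree := by
  have h1 : P.valuation M (g.coeff g.natDegree * x ^ g.natDegree) = P.valuation M x ^ g.natDegree := by
    rw [map_mul, map_pow, coeff_natDegree, hl, one_mul]
  have hx0 : P.valuation M x ≠ 0 := fun h => by rw [h] at hx; exact absurd hx (not_lt.2 zero_le)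
  rw [eval_eq_sum_range, Finset.sum_range_succ, Valuation.map_add_eq_of_lt_right, h1]
  rw [h1]
  refine Valuation.map_sum_lt _ (pow_ne_zero _ hx0) fun i hi => ?_
  rw [map_mul, map_pow]
  calc P.valuation M (g.coeff i) * P.valuation M x ^ i ≤ 1 * P.valuation M x ^ i :=
        mul_le_mul' (hg i) le_rfl
    _ = P.valuation M x ^ i := one_mul _
    _ < P.valuation M x ^ g.natDegree := pow_lt_pow_right₀ hx (Finset.mem_range.1 hi)

theorem val_int_back (hg : ∀ i, P.valuation M (g.coeff i) ≤ 1) (hl : P.valuation M g.leadingCoeff = 1)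
    (hd : 1 ≤ g.natDegree) {x : M} (h : P.valuation M (eval x g) ≤ 1) : P.valuation M x ≤ 1 := by
  by_contra hx
  push Not at hx
  rw [val_eval_big P hg hl hx] at h
  exact absurd (one_lt_pow₀ hx (by omega)) (not_lt.2 h)

theorem iter_int (hg : ∀ i, P.valuation M (g.coeff i) ≤ 1) {x : M} (hx : P.valuation M x ≤ 1) (n : ℕ) :
    P.valuation M ((fun x => eval x g)^[n] x) ≤ 1 := by
  induction n with
  | zero => exact hx
  | succ n ih => rw [Function.iterate_succ_apply']; exact val_eval_le P hg ih

theorem iter_int_back (hg : ∀ i, P.valuation M (g.coeff i) ≤ 1) (hl : P.valuation M g.leadingCoeff = 1)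
    (hd : 1 ≤ g.natDegree) (n : ℕ) {x : M} (h : P.valuation M ((fun x => eval x g)^[n] x) ≤ 1) :
    P.valuation M x ≤ 1 := by
  induction n with
  | zero => exact h
  | succ n ih =>
    rw [Function.iterate_succ_apply'] at h
    exact ih (val_int_back P hg hl hd h)

/-- the Taylor expansion -/
theorem step_eq (hd : 1 ≤ g.natDegree) (y z : M) : eval (y + z) g - eval y g =
    z * (∑ i ∈ Finset.Ico 1 g.natDegree, (taylor y g).coeff i * z ^ (i - 1)) +
      g.leadingCoeff * z ^ g.natDegree := by
  have h1 : eval (y + z) g = eval z (taylor y g) := by rw [taylor_eval, add_comm]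
  have h2 : eval z (taylor y g) = (eval y g + ∑ i ∈ Finset.Ico 1 g.natDegree, (taylor y g).coeff i * z ^ i) +
      g.leadingCoeff * z ^ g.natDegree := by
    rw [eval_eq_sum_range, natDegree_taylor, Finset.sum_range_succ, coeff_taylor_natDegree,
      Finset.range_eq_Ico, Finset.sum_eq_sum_Ico_succ_bot (by omega), taylor_coeff_zero, pow_zero, mul_one]
  have h3 : z * (∑ i ∈ Finset.Ico 1 g.natDegree, (taylor y g).coeff i * z ^ (i - 1)) =
      ∑ i ∈ Finset.Ico 1 g.natDegree, (taylor y g).coeff i * z ^ i := by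
    rw [Finset.mul_sum]
    refine Finset.sum_congr rfl fun i hi => ?_
    rw [Finset.mem_Ico] at hi
    obtain ⟨j, rfl⟩ : ∃ j, i = j + 1 := ⟨i - 1, by omega⟩
    rw [Nat.add_sub_cancel, pow_succ]
    ring
  rw [h1, h2, h3]
  ring

/-- one step: the order of the difference of two values -/
theorem gstep (hl : P.valuation M g.leadingCoeff = 1) (hd : 1 ≤ g.natDegree) {t y z : M}
    (ht0 : t ≠ 0) (hc : ∀ i, 0 < i → i < g.natDegree → P.valuation M ((taylor y g).coeff i) ≤ P.valuation M t)
    (hz : P.valuation M z ≤ 1) (hz0 : z ≠ 0) (hne : eval (y + z) g - eval y g ≠ 0) :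
    ordp P (eval (y + z) g - eval y g) = g.natDegree * ordp P z ∨
      (ordp P t + ordp P z ≤ g.natDegree * ordp P z ∧
        ordp P t + ordp P z ≤ ordp P (eval (y + z) g - eval y g)) := by
  rw [step_eq hd] at hne ⊢
  set S := ∑ i ∈ Finset.Ico 1 g.natDegree, (taylor y g).coeff i * z ^ (i - 1) with hS
  have hSv : P.valuation M S ≤ P.valuation M t := by
    refine Valuation.map_sum_le _ fun i hi => ?_
    rw [Finset.mem_Ico] at hi
    rw [map_mul, map_pow]
    calc _ ≤ P.valuation M t * 1 := mul_le_mul' (hc i (by omega) hi.2) (pow_le_one₀ zero_le hz)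
      _ = _ := mul_one _
  have h1 : P.valuation M (z * S) ≤ P.valuation M (t * z) := by
    rw [mul_comm, map_mul, map_mul]
    exact mul_le_mul' hSv le_rfl
  have hlz : P.valuation M (g.leadingCoeff * z ^ g.natDegree) = P.valuation M (z ^ g.natDegree) := by
    rw [map_mul, hl, one_mul]
  have htz : t * z ≠ 0 := mul_ne_zero ht0 hz0
  by_cases h2 : P.valuation M (t * z) < P.valuation M (z ^ g.natDegree)
  · left
    have h3 : P.valuation M (z * S + g.leadingCoeff * z ^ g.natDegree) = P.valuation M (z ^ g.natDegree) := by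
      rw [Valuation.map_add_eq_of_lt_right _ (by rw [hlz]; exact lt_of_le_of_lt h1 h2), hlz]
    rw [← ordp_pow]
    unfold ordp
    rw [h3]
  · right
    rw [not_lt] at h2
    constructor
    · rw [← ordp_mul P ht0 hz0, ← ordp_pow, ordp_le P htz (pow_ne_zero _ hz0)]
      exact h2
    · rw [← ordp_mul P ht0 hz0, ordp_le P htz hne]
      exact le_trans (Valuation.map_add _ _ _) (max_le h1 (by rw [hlz]; exact h2))

theorem sum_lt_one {y z : M} (hc : ∀ i, 0 < i → i < g.natDegree → P.valuation M ((taylor y g).coeff i) < 1)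
    (hz : P.valuation M z ≤ 1) :
    P.valuation M (∑ i ∈ Finset.Ico 1 g.natDegree, (taylor y g).coeff i * z ^ (i - 1)) < 1 := by
  refine Valuation.map_sum_lt _ one_ne_zero fun i hi => ?_
  rw [Finset.mem_Ico] at hi
  rw [map_mul, map_pow]
  exact mul_lt_one_of_lt_of_le (hc i (by omega) hi.2) (pow_le_one₀ zero_le hz)

/-- contraction -/
theorem contract (hl : P.valuation M g.leadingCoeff = 1) (hd : 2 ≤ g.natDegree) {y z : M}
    (hc : ∀ i, 0 < i → i < g.natDegree → P.valuation M ((taylor y g).coeff i) < 1)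
    (hz : P.valuation M z < 1) (hz0 : z ≠ 0) :
    P.valuation M (eval (y + z) g - eval y g) < P.valuation M z := by
  have hv0 : 0 < P.valuation M z := zero_lt_iff.2 (val_ne P hz0)
  rw [step_eq (by omega)]
  refine lt_of_le_of_lt (Valuation.map_add _ _ _) (max_lt ?_ ?_)
  · rw [map_mul]
    exact mul_lt_of_lt_one_right hv0 (sum_lt_one P hc hz.le)
  · rw [map_mul, hl, one_mul, map_pow]
    calc P.valuation M z ^ g.natDegree ≤ P.valuation M z ^ 2 := pow_le_pow_right_of_le_one' hz.le hd
      _ = P.valuation M z * P.valuation M z := sq _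
      _ < P.valuation M z := mul_lt_of_lt_one_right hv0 hz

/-- total ramification modulo the prime -/
theorem backstep (hl : P.valuation M g.leadingCoeff = 1) (hd : 1 ≤ g.natDegree) {y z : M}
    (hc : ∀ i, 0 < i → i < g.natDegree → P.valuation M ((taylor y g).coeff i) < 1)
    (hz : P.valuation M z ≤ 1) (h : P.valuation M (eval (y + z) g - eval y g) < 1) :
    P.valuation M z < 1 := by
  have h1 := sum_lt_one P hc hz
  have h2 := step_eq hd y z
  set S := ∑ i ∈ Finset.Ico 1 g.natDegree, (taylor y g).coeff i * z ^ (i - 1) with hS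
  have h3 : g.leadingCoeff * z ^ g.natDegree = (eval (y + z) g - eval y g) - z * S := by rw [h2]; ring
  have h4 : P.valuation M (g.leadingCoeff * z ^ g.natDegree) < 1 := by
    rw [h3]
    refine lt_of_le_of_lt (Valuation.map_sub _ _ _) (max_lt h ?_)
    rw [map_mul]
    exact lt_of_le_of_lt (mul_le_of_le_one_left' hz) h1
  rw [map_mul, hl, one_mul, map_pow] at h4
  exact (pow_lt_one_iff (by omega)).1 h4

end Val

theorem le_unif {x : ℤᵐ⁰} (hx : x < 1) : x ≤ exp (-1) := by
  by_cases h0 : x = 0
  · rw [h0]; exact zero_le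
  · rw [← log_le_iff_le_exp h0]
    have h1 : log x < log (1 : ℤᵐ⁰) := (log_lt_log h0 one_ne_zero).2 hx
    rw [log_one] at h1
    omega

theorem ev_map {L M : Type*} [Field L] [Field M] (φ : L →+* M) (h : L[X]) (x : L) (n : ℕ) :
    φ ((fun x => eval x h)^[n] x) = (fun x => eval x (h.map φ))^[n] (φ x) := by
  induction n with
  | zero => rfl
  | succ n ih =>
    rw [Function.iterate_succ_apply', Function.iterate_succ_apply', ← ih, eval_map, eval₂_at_apply]

/-- eventual stability at a prime at which the target is periodic and the cycle is totally ramified -/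
theorem evst_per {L : Type u} [Field L] [NumberField L] {h : L[X]} (hd : 2 ≤ h.natDegree) {b : L}
    (hb : ∀ n, 1 ≤ n → (fun x => eval x h)^[n] b ≠ b) (v : HeightOneSpectrum (𝓞 L))
    (hg : ∀ i, v.valuation L (h.coeff i) ≤ 1) (hl : v.valuation L h.leadingCoeff = 1)
    (hbv : v.valuation L b ≤ 1) {k : ℕ} (hk : 1 ≤ k)
    (hkb : v.valuation L ((fun x => eval x h)^[k] b - b) < 1)
    (hc : ∀ n i, 0 < i → i < h.natDegree →
      v.valuation L ((taylor ((fun x => eval x h)^[n] b) h).coeff i) < 1) :
    ∃ C : ℕ, 0 < C ∧ ∀ (M : Type u) [Field M] [NumberField M] [Algebra L M] (x : M) (n : ℕ),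
      (fun x => eval x (h.map (algebraMap L M)))^[n] x = algebraMap L M b →
        h.natDegree ^ n ≤ C * Module.finrank ℚ M := by
  set F : L → L := fun x => eval x h with hF
  set d := h.natDegree with hdd
  -- contraction along the orbit
  have hcontr : ∀ (n : ℕ) (u : L), v.valuation L (u - F^[n] b) < 1 →
      v.valuation L (F u - F^[n + 1] b) ≤ v.valuation L (u - F^[n] b) ∧
      (u ≠ F^[n] b → v.valuation L (F u - F^[n + 1] b) < v.valuation L (u - F^[n] b)) := by
    intro n u hu
    by_cases h0 : u = F^[n] b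
    · rw [Function.iterate_succ_apply', ← h0]
      exact ⟨by rw [sub_self, sub_self], fun h => absurd rfl h⟩
    · have h1 := contract v hl hd (hc n) hu (sub_ne_zero.2 h0)
      rw [add_sub_cancel] at h1
      rw [Function.iterate_succ_apply']
      exact ⟨h1.le, fun _ => h1⟩
  have hcontr2 : ∀ (j n : ℕ) (u : L), v.valuation L (u - F^[n] b) < 1 →
      v.valuation L (F^[j] u - F^[n + j] b) ≤ v.valuation L (u - F^[n] b) := by
    intro j
    induction j with
    | zero => intro n u _; exact le_rfl
    | succ j ih =>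
      intro n u hu
      have h1 := hcontr n u hu
      have h2 := ih (n + 1) (F u) (lt_of_le_of_lt h1.1 hu)
      rw [Function.iterate_succ_apply, show n + (j + 1) = n + 1 + j by omega]
      exact h2.trans h1.1
  have hcontr3 : ∀ (j n : ℕ) (u : L), 1 ≤ j → v.valuation L (u - F^[n] b) < 1 → u ≠ F^[n] b →
      v.valuation L (F^[j] u - F^[n + j] b) < v.valuation L (u - F^[n] b) := by
    intro j n u hj hu hne
    obtain ⟨i, rfl⟩ : ∃ i, j = i + 1 := ⟨j - 1, by omega⟩
    have h1 := hcontr n u hu
    have h2 := hcontr2 i (n + 1) (F u) (lt_of_le_of_lt h1.1 hu)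
    rw [Function.iterate_succ_apply, show n + (i + 1) = n + 1 + i by omega]
    exact lt_of_le_of_lt h2 (h1.2 hne)
  set D : L := b - F^[k] b with hD
  have hD0 : D ≠ 0 := sub_ne_zero.2 (Ne.symm (hb k hk))
  have hDv : v.valuation L D < 1 := by rw [hD, Valuation.map_sub_swap]; exact hkb
  have hDR : ∀ R, 1 ≤ R → v.valuation L (b - F^[R * k] b) = v.valuation L D := by
    intro R
    induction R with
    | zero => intro h; omega
    | succ R ih =>
      intro _
      rcases Nat.eq_zero_or_pos R with h0 | h0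
      · subst h0; rw [zero_add, one_mul]
      · have h1 := ih h0
        have h2 : F^[R * k] b ≠ F^[0] b := hb (R * k) (Nat.mul_pos h0 hk)
        have h3 := hcontr3 k 0 (F^[R * k] b) hk (by
          show v.valuation L (F^[R * k] b - b) < 1
          rw [Valuation.map_sub_swap, h1]; exact hDv) h2
        rw [zero_add, ← Function.iterate_add_apply] at h3
        have h4 : v.valuation L (F^[R * k] b - F^[0] b) = v.valuation L D := by
          show v.valuation L (F^[R * k] b - b) = _
          rw [Valuation.map_sub_swap, h1]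
        rw [h4] at h3
        have h5 : b - F^[(R + 1) * k] b = D - (F^[k + R * k] b - F^[k] b) := by
          rw [hD, show (R + 1) * k = k + R * k by ring]; ring
        rw [h5, Valuation.map_sub_eq_of_lt_left _ h3]
  -- constants
  obtain ⟨π, hπ⟩ := v.valuation_exists_uniformizer L
  have hπ0 : π ≠ 0 := by
    rintro rfl
    rw [map_zero] at hπ
    exact absurd hπ.symm (by simp)
  have hπ' : v.valuation L π = exp (-1) := hπ
  have hπ1 : v.valuation L π < 1 := by rw [hπ', ← exp_zero]; exact exp_lt_exp.2 (by norm_num)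
  obtain ⟨B, hB⟩ := Int.eq_ofNat_of_zero_le ((ordp_pos v hD0).2 hDv).le
  have hordπ : ordp v π = 1 := by rw [ordp, hπ', log_exp, neg_neg]
  set q := Ideal.absNorm v.asIdeal with hq
  have hq2 : 2 ≤ q := by
    have h5 : Ideal.absNorm v.asIdeal ≠ 0 := by
      rw [Ne, Ideal.absNorm_eq_zero_iff]; exact v.ne_bot
    have h6 : Ideal.absNorm v.asIdeal ≠ 1 := by
      rw [Ne, Ideal.absNorm_eq_one_iff]; exact v.isPrime.ne_top
    omega
  have hqv : v.valuation L (q : L) < 1 := by
    have h1 : ((q : 𝓞 L) : L) = (q : L) := by simp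
    have h2 := (v.valuation_lt_one_iff_mem (K := L) (q : 𝓞 L)).2 (Ideal.absNorm_mem v.asIdeal)
    rw [← h1]
    exact h2
  have hq0 : (q : L) ≠ 0 := by exact_mod_cast (by omega : q ≠ 0)
  refine ⟨d ^ B * (2 * q), by positivity, ?_⟩
  intro M _ _ _ x n hx
  obtain ⟨⟨Q, hQ1, hQ2⟩⟩ := v.asIdeal.nonempty_primesOver (S := 𝓞 M)
  have hQ0 : Q ≠ ⊥ := Ideal.ne_bot_of_mem_primesOver v.ne_bot ⟨hQ1, hQ2⟩
  let P : HeightOneSpectrum (𝓞 M) := ⟨Q, hQ1, hQ0⟩
  have hlo : P.asIdeal.LiesOver v.asIdeal := hQ2
  set φ := algebraMap L M with hφ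
  set gM : M[X] := h.map φ with hgM
  have hdM : gM.natDegree = d := natDegree_map φ
  have hgP : ∀ i, P.valuation M (gM.coeff i) ≤ 1 := by
    intro i
    rw [hgM, coeff_map]
    exact (val_le_iff v P _).2 (hg i)
  have hlP : P.valuation M gM.leadingCoeff = 1 := by
    rw [hgM, leadingCoeff_map]
    refine le_antisymm ((val_le_iff v P _).2 hl.le) ?_
    by_contra hlt
    push Not at hlt
    exact absurd ((val_lt_iff v P _).1 hlt) (by rw [hl]; exact lt_irrefl _)
  set N := (n + 1) * k with hN
  have hNn : n + 1 ≤ N := Nat.le_mul_of_pos_right _ hk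
  set e : ℕ → L := fun j => F^[N - j] b with he
  set G : M → M := fun x => eval x gM with hG
  set z : ℕ → M := fun j => G^[n - j] x - φ (e j) with hz
  have hbP : P.valuation M (φ b) ≤ 1 := (val_le_iff v P b).2 hbv
  have hxP : P.valuation M x ≤ 1 := iter_int_back P hgP hlP (by omega) n (by
    show P.valuation M (G^[n] x) ≤ 1
    rw [hx]; exact hbP)
  have heP : ∀ j, P.valuation M (φ (e j)) ≤ 1 := fun j => (val_le_iff v P _).2 (iter_int v hg hbv _)
  have hyP : ∀ j, P.valuation M (G^[j] x) ≤ 1 := fun j => iter_int P hgP hxP j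
  have hzP : ∀ j, P.valuation M (z j) ≤ 1 := fun j =>
    le_trans (Valuation.map_sub _ _ _) (max_le (hyP _) (heP _))
  have hz0 : z 0 = φ (b - F^[N] b) := by
    show G^[n - 0] x - φ (F^[N - 0] b) = _
    rw [Nat.sub_zero, Nat.sub_zero, hx, map_sub]
  have hNb : b - F^[N] b ≠ 0 := sub_ne_zero.2 (Ne.symm (hb N (by omega)))
  have hzstep : ∀ j < n, z j = eval (φ (e (j + 1)) + z (j + 1)) gM - eval (φ (e (j + 1))) gM := by
    intro j hj
    have h1 : φ (e (j + 1)) + z (j + 1) = G^[n - (j + 1)] x := by
      show φ (e (j + 1)) + (G^[n - (j + 1)] x - φ (e (j + 1))) = _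
      ring
    rw [h1]
    have h2 : eval (G^[n - (j + 1)] x) gM = G^[n - j] x := by
      rw [show n - j = n - (j + 1) + 1 by omega, Function.iterate_succ_apply']
    have h3 : eval (φ (e (j + 1))) gM = φ (e j) := by
      rw [hgM, eval_map, eval₂_at_apply]
      congr 1
      show F (F^[N - (j + 1)] b) = F^[N - j] b
      rw [show N - j = N - (j + 1) + 1 by omega, Function.iterate_succ_apply']
    rw [h2, h3]
  have hcP : ∀ j i, 0 < i → i < gM.natDegree → P.valuation M ((taylor (φ (e j)) gM).coeff i) < 1 := by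
    intro j i hi hid
    rw [hgM, ← map_taylor, coeff_map]
    rw [hdM] at hid
    exact (val_lt_iff v P _).2 (hc _ i hi hid)
  have hcP' : ∀ j i, 0 < i → i < gM.natDegree →
      P.valuation M ((taylor (φ (e j)) gM).coeff i) ≤ P.valuation M (φ π) := by
    intro j i hi hid
    rw [hgM, ← map_taylor, coeff_map]
    rw [hdM] at hid
    set c := (taylor (e j) h).coeff i with hcc
    have h1 : v.valuation L c ≤ v.valuation L π := by rw [hπ']; exact le_unif (hc _ i hi hid)
    have h2 : v.valuation L (c / π) ≤ 1 := by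
      rw [map_div₀]
      exact div_le_one_of_le₀ h1 zero_le
    have h3 : P.valuation M (φ (c / π)) ≤ 1 := (val_le_iff v P _).2 h2
    have h4 : φ c = φ (c / π) * φ π := by rw [← map_mul, div_mul_cancel₀ _ hπ0]
    rw [h4, map_mul]
    exact mul_le_of_le_one_left' h3
  have hφπ0 : φ π ≠ 0 := (_root_.map_ne_zero _).2 hπ0
  have hT : 0 < ordp P (φ π) := (ordp_pos P hφπ0).2 ((val_lt_iff v P π).2 hπ1)
  have hmain0 : ∀ j ≤ n, z j ≠ 0 ∧ P.valuation M (z j) < 1 := by
    intro j
    induction j with
    | zero =>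
      intro _
      rw [hz0]
      refine ⟨(_root_.map_ne_zero _).2 hNb, (val_lt_iff v P _).2 ?_⟩
      rw [hN, hDR (n + 1) (by omega)]
      exact hDv
    | succ j ih =>
      intro hj
      obtain ⟨h1, h2⟩ := ih (by omega)
      have h3 := hzstep j (by omega)
      constructor
      · intro h0
        rw [h0, add_zero, sub_self] at h3
        exact h1 h3
      · rw [h3] at h2
        exact backstep P hlP (by omega) (hcP (j + 1)) (hzP _) h2
  have hmain := chain_bound (p := d) hd hT (B := B) (n := n) (fun j => ordp P (z j))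
    (fun j hj => (ordp_pos P (hmain0 j hj).1).2 (hmain0 j hj).2) ?_ ?_
  · have h0 : P.valuation M (q : M) ≤ P.valuation M (φ π) := by
      have h1 : v.valuation L (q : L) ≤ v.valuation L π := by rw [hπ']; exact le_unif hqv
      have h2 : v.valuation L ((q : L) / π) ≤ 1 := by
        rw [map_div₀]
        exact div_le_one_of_le₀ h1 zero_le
      have h3 : P.valuation M (φ ((q : L) / π)) ≤ 1 := (val_le_iff v P _).2 h2
      have h4 : (q : M) = φ ((q : L) / π) * φ π := by
        rw [← map_mul, div_mul_cancel₀ _ hπ0, map_natCast]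
      rw [h4, map_mul]
      exact mul_le_of_le_one_left' h3
    have hqM : (q : M) ≠ 0 := by exact_mod_cast (by omega : q ≠ 0)
    have h1 := ordp_nat_le P hq2
    have h2 : ordp P (φ π) ≤ ordp P (q : M) := (ordp_le P hφπ0 hqM).2 h0
    have h3 : (d : ℤ) ^ (n - B) ≤ 2 * (q * Module.finrank ℚ M) := by linarith
    have h4 : d ^ (n - B) ≤ 2 * (q * Module.finrank ℚ M) := by exact_mod_cast h3
    calc d ^ n ≤ d ^ (B + (n - B)) := Nat.pow_le_pow_right (by omega) (by omega)
      _ = d ^ B * d ^ (n - B) := by rw [pow_add]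
      _ ≤ d ^ B * (2 * (q * Module.finrank ℚ M)) := Nat.mul_le_mul_left _ h4
      _ = d ^ B * (2 * q) * Module.finrank ℚ M := by ring
  · show ordp P (z 0) ≤ B * ordp P (φ π)
    rw [hz0, ← ordp_pow, ordp_le P ((_root_.map_ne_zero _).2 hNb) (pow_ne_zero _ hφπ0)]
    have h1 : v.valuation L (π ^ B) = v.valuation L (b - F^[N] b) := by
      rw [hN, hDR (n + 1) (by omega), map_pow, hπ']
      have h2 : log (v.valuation L D) = -(B : ℤ) := by
        have h3 := hB
        unfold ordp at h3
        omega
      rw [← exp_log (val_ne v hD0), h2, ← exp_nsmul]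
      congr 1
      simp
    have h2 : v.valuation L (π ^ B / (b - F^[N] b)) ≤ 1 := by
      rw [map_div₀, h1, div_self (val_ne v hNb)]
    have h3 : P.valuation M (φ (π ^ B / (b - F^[N] b))) ≤ 1 := (val_le_iff v P _).2 h2
    have h4 : (φ π) ^ B = φ (π ^ B / (b - F^[N] b)) * φ (b - F^[N] b) := by
      rw [← map_mul, div_mul_cancel₀ _ hNb, map_pow]
    rw [h4, map_mul]
    exact mul_le_of_le_one_left' h3
  · intro j hj
    have h1 := hzstep j hj
    have h2 := gstep P hlP (by omega) hφπ0 (hcP' (j + 1)) (hzP (j + 1)) (hmain0 (j + 1) hj).1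
      (by rw [← h1]; exact (hmain0 j hj.le).1)
    rw [← h1, hdM] at h2
    exact h2

/-- eventual stability at a prime at which the target is not integral -/
theorem evst_out {L : Type u} [Field L] [NumberField L] {h : L[X]} (hd : 2 ≤ h.natDegree) {b : L}
    (v : HeightOneSpectrum (𝓞 L)) (hg : ∀ i, v.valuation L (h.coeff i) ≤ 1)
    (hl : v.valuation L h.leadingCoeff = 1) (hbv : 1 < v.valuation L b) :
    ∃ C : ℕ, 0 < C ∧ ∀ (M : Type u) [Field M] [NumberField M] [Algebra L M] (x : M) (n : ℕ),
      (fun x => eval x (h.map (algebraMap L M)))^[n] x = algebraMap L M b →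
        h.natDegree ^ n ≤ C * Module.finrank ℚ M := by
  set d := h.natDegree with hdd
  obtain ⟨m, hm0, hm⟩ := exists_nat_mul_integral b
  refine ⟨2 * m, by omega, ?_⟩
  intro M _ _ _ x n hx
  obtain ⟨⟨Q, hQ1, hQ2⟩⟩ := v.asIdeal.nonempty_primesOver (S := 𝓞 M)
  have hQ0 : Q ≠ ⊥ := Ideal.ne_bot_of_mem_primesOver v.ne_bot ⟨hQ1, hQ2⟩
  let P : HeightOneSpectrum (𝓞 M) := ⟨Q, hQ1, hQ0⟩
  have hlo : P.asIdeal.LiesOver v.asIdeal := hQ2
  set φ := algebraMap L M with hφ
  set gM : M[X] := h.map φ with hgM
  have hdM : gM.natDegree = d := natDegree_map φ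
  have hgP : ∀ i, P.valuation M (gM.coeff i) ≤ 1 := by
    intro i
    rw [hgM, coeff_map]
    exact (val_le_iff v P _).2 (hg i)
  have hlP : P.valuation M gM.leadingCoeff = 1 := by
    rw [hgM, leadingCoeff_map]
    refine le_antisymm ((val_le_iff v P _).2 hl.le) ?_
    by_contra hlt
    push Not at hlt
    exact absurd ((val_lt_iff v P _).1 hlt) (by rw [hl]; exact lt_irrefl _)
  have hbP : 1 < P.valuation M (φ b) := by
    rw [← not_le] at hbv ⊢
    exact fun h => hbv ((val_le_iff v P b).1 h)
  have hb0 : φ b ≠ 0 := by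
    intro h0
    rw [h0, map_zero] at hbP
    exact absurd hbP (not_lt.2 zero_le)
  have key : ∀ (n : ℕ) (x : M), 1 < P.valuation M ((fun x => eval x gM)^[n] x) →
      1 < P.valuation M x ∧ P.valuation M ((fun x => eval x gM)^[n] x) = P.valuation M x ^ (d ^ n) := by
    intro n
    induction n with
    | zero => intro x h; exact ⟨h, by simp⟩
    | succ n ih =>
      intro x h
      rw [Function.iterate_succ_apply] at h ⊢
      obtain ⟨h1, h2⟩ := ih _ h
      have h3 : 1 < P.valuation M x := by
        by_contra hcon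
        rw [not_lt] at hcon
        exact absurd h1 (not_lt.2 (val_eval_le P hgP hcon))
      refine ⟨h3, ?_⟩
      rw [h2]
      show P.valuation M (eval x gM) ^ d ^ n = _
      rw [val_eval_big P hgP hlP h3, hdM, ← pow_mul]
      congr 1
      rw [pow_succ]
      ring
  rw [← hx] at hbP
  obtain ⟨h1, h2⟩ := key n x hbP
  rw [hx] at h2
  have hx0 : x ≠ 0 := by
    rintro rfl
    rw [map_zero] at h1
    exact absurd h1 (not_lt.2 zero_le)
  have h3 : ordp P (φ b) = d ^ n * ordp P x := by
    have := ordp_pow P x (d ^ n)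
    unfold ordp at this ⊢
    rw [h2, ← map_pow, this]
    push_cast
    ring
  have h4 : ordp P x < 0 := by
    rw [← not_le, ordp_nonneg P hx0, not_le]
    exact h1
  have h5 : ((2 * m : ℕ) : M) ≠ 0 := by
    have : (2 * m : ℕ) ≠ 0 := by omega
    exact_mod_cast this
  have h6 : 0 ≤ ordp P (((2 * m : ℕ) : M) * φ b) := by
    rw [ordp_nonneg P (mul_ne_zero h5 hb0)]
    have h7 : IsIntegral ℤ ((m : L) * b) := hm
    have h8 : IsIntegral ℤ (φ ((m : L) * b)) := h7.map φ.toIntAlgHom
    let y : 𝓞 M := ⟨φ ((m : L) * b), h8⟩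
    have h9 : P.valuation M (algebraMap (𝓞 M) M (2 * y)) ≤ 1 := P.valuation_le_one (K := M) (2 * y)
    have h10 : algebraMap (𝓞 M) M y = (m : M) * φ b := by
      show φ ((m : L) * b) = _
      rw [map_mul, map_natCast]
    have h11 : algebraMap (𝓞 M) M (2 * y) = ((2 * m : ℕ) : M) * φ b := by
      rw [map_mul, map_ofNat, h10]
      push_cast
      rw [mul_assoc]
    rwa [h11] at h9
  rw [ordp_mul P h5 hb0] at h6
  have h7 := ordp_nat_le P (p := 2 * m) (by omega)
  have h8 : (d : ℤ) ^ n ≤ ((2 * m : ℕ) : ℤ) * Module.finrank ℚ M := by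
    have h9 : (0 : ℤ) < (d : ℤ) ^ n := by positivity
    nlinarith
  exact_mod_cast h8

/-- large degrees of the points of the backward orbit give eventual stability -/
theorem EvStable.of_degree {L : Type u} [Field L] [NumberField L] {h : L[X]} (hd : 1 ≤ h.natDegree) {b : L}
    (C₀ : ℕ) (H : ∀ (M : Type u) [Field M] [NumberField M] [Algebra L M] (x : M) (n : ℕ),
      (fun x => eval x (h.map (algebraMap L M)))^[n] x = algebraMap L M b →
        h.natDegree ^ n ≤ C₀ * Module.finrank ℚ M) : EvStable h b := by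
  classical
  refine ⟨C₀ * Module.finrank ℚ L, fun n s hs => ?_⟩
  set d := h.natDegree with hdd
  set I := itp h n - Polynomial.C b with hI
  have hdI : (itp h n).natDegree = d ^ n := by
    rw [itp, natDegree_iterate_comp, natDegree_X, mul_one]
  have hdI' : I.natDegree ≤ d ^ n := by
    rw [hI]
    refine (natDegree_sub_le _ _).trans (max_le hdI.le ?_)
    rw [natDegree_C]
    exact Nat.zero_le _
  have hdn : 1 ≤ d ^ n := Nat.one_le_pow _ _ hd
  have hI0 : I ≠ 0 := by
    intro h0
    have h1 : itp h n = Polynomial.C b := sub_eq_zero.1 h0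
    rw [h1, natDegree_C] at hdI
    omega
  -- the degree of each factor
  have hdeg : ∀ P ∈ s, d ^ n ≤ C₀ * Module.finrank ℚ L * P.natDegree := by
    intro P hP
    obtain ⟨hm, hirr, hdvd⟩ := hs P hP
    have := Fact.mk hirr
    have hfin : Module.Finite L (AdjoinRoot P) := (AdjoinRoot.powerBasis hirr.ne_zero).finite
    have hnf : NumberField (AdjoinRoot P) := NumberField.of_module_finite L (AdjoinRoot P)
    have h1 := H (AdjoinRoot P) (AdjoinRoot.root P) n (by
      have h2 : eval₂ (algebraMap L (AdjoinRoot P)) (AdjoinRoot.root P) I = 0 := by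
        obtain ⟨R, hR⟩ := hdvd
        rw [hR, eval₂_mul]
        have h3 : eval₂ (algebraMap L (AdjoinRoot P)) (AdjoinRoot.root P) P = 0 := AdjoinRoot.eval₂_root P
        rw [h3, zero_mul]
      rw [hI, eval₂_sub, eval₂_C, sub_eq_zero, itp, iterate_comp_eval₂, eval₂_X] at h2
      rw [← h2]
      congr 1
      funext x
      rw [eval_map])
    have h2 : Module.finrank ℚ (AdjoinRoot P) = Module.finrank ℚ L * P.natDegree := by
      rw [← Module.finrank_mul_finrank ℚ L (AdjoinRoot P), (AdjoinRoot.powerBasis hirr.ne_zero).finrank,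
        AdjoinRoot.powerBasis_dim]
    rw [h2, ← mul_assoc] at h1
    exact h1
  have hprod : ∏ P ∈ s, P ∣ I := by
    apply Finset.prod_dvd_of_coprime
    · intro P hP Q hQ hne
      obtain ⟨hm, hirr, -⟩ := hs P hP
      obtain ⟨hm', hirr', -⟩ := hs Q hQ
      show IsCoprime P Q
      rw [hirr.coprime_iff_not_dvd]
      intro hdv
      exact hne (eq_of_monic_of_associated hm hm' (hirr.associated_of_dvd hirr' hdv))
    · intro P hP
      exact (hs P hP).2.2
  have hsum : ∑ P ∈ s, P.natDegree ≤ d ^ n := by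
    rw [← natDegree_prod_of_monic _ _ (fun P hP => (hs P hP).1)]
    exact (natDegree_le_of_dvd hprod hI0).trans hdI'
  have h1 : s.card * d ^ n ≤ (C₀ * Module.finrank ℚ L) * d ^ n := by
    calc s.card * d ^ n = ∑ P ∈ s, d ^ n := by rw [Finset.sum_const, smul_eq_mul]
      _ ≤ ∑ P ∈ s, C₀ * Module.finrank ℚ L * P.natDegree := Finset.sum_le_sum hdeg
      _ = C₀ * Module.finrank ℚ L * ∑ P ∈ s, P.natDegree := by rw [Finset.mul_sum]
      _ ≤ _ := Nat.mul_le_mul_left _ hsum
  exact Nat.le_of_mul_le_mul_right h1 (by omega)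

/-- **G7** (local conditions) -/
theorem EvStable.of_loc {L : Type u} [Field L] [NumberField L] {h : L[X]} (hd : 2 ≤ h.natDegree) {b : L}
    (hb : ∀ n, 1 ≤ n → (fun x => eval x h)^[n] b ≠ b) (hl : LocT h b) : EvStable h b := by
  obtain ⟨v, hg, hlead, h1⟩ := hl
  by_cases hbv : 1 < v.valuation L b
  · obtain ⟨C, -, H⟩ := evst_out hd v hg hlead hbv
    exact EvStable.of_degree (by omega) C H
  · rcases h1 with h1 | ⟨⟨m, hm, hmb⟩, hc⟩
    · exact absurd h1 hbv
    · obtain ⟨C, -, H⟩ := evst_per hd hb v hg hlead (not_lt.1 hbv) hm hmb hc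
      exact EvStable.of_degree (by omega) C H

/-- **G7b** (degree a power of the residue characteristic) -/
theorem LocT.of_pow {L : Type u} [Field L] [NumberField L] {h : L[X]} (hd : 2 ≤ h.natDegree) {p k : ℕ}
    (hp : p.Prime) (hk : h.natDegree = p ^ k) (v : HeightOneSpectrum (𝓞 L)) (hv : v.valuation L (p : L) < 1)
    (h1 : v.valuation L h.leadingCoeff = 1) (h2 : ∀ i, 0 < i → i < h.natDegree → v.valuation L (h.coeff i) < 1)
    (h3 : v.valuation L (h.coeff 0) ≤ 1) (b : L) : LocT h b := by
  have hg : ∀ i, v.valuation L (h.coeff i) ≤ 1 := by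
    intro i
    rcases Nat.eq_zero_or_pos i with h0 | h0
    · rw [h0]; exact h3
    · rcases lt_trichotomy i h.natDegree with hi | hi | hi
      · exact (h2 i h0 hi).le
      · rw [hi, coeff_natDegree, h1]
      · rw [coeff_eq_zero_of_natDegree_lt hi, map_zero]; exact zero_le
  -- the Taylor coefficients at integral points
  have hT : ∀ r : L, v.valuation L r ≤ 1 → ∀ i, 0 < i → i < h.natDegree →
      v.valuation L ((taylor r h).coeff i) < 1 := by
    intro r hr i hi hid
    rw [taylor_coeff, hasseDeriv_apply, sum_def, eval_finset_sum]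
    refine Valuation.map_sum_lt _ one_ne_zero fun j hj => ?_
    rw [eval_monomial, map_mul, map_mul, map_pow]
    have hr' : v.valuation L r ^ (j - i) ≤ 1 := pow_le_one₀ zero_le hr
    have hch : ∀ m : ℕ, v.valuation L (m : L) ≤ 1 := by
      intro m
      have := v.valuation_le_one (K := L) (m : 𝓞 L)
      simpa using this
    refine mul_lt_one_of_lt_of_le ?_ hr'
    by_cases hjd : j = h.natDegree
    · have h4 : p ∣ j.choose i := by
        rw [hjd, hk]
        have h5 := hp.dvd_choose_pow hi.ne' (n := k) (by rw [← hk]; exact hid.ne)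
        exact h5
      obtain ⟨m, hm⟩ := h4
      rw [hm, Nat.cast_mul, map_mul]
      calc v.valuation L (p : L) * v.valuation L (m : L) * v.valuation L (h.coeff j)
          ≤ v.valuation L (p : L) * 1 * 1 := mul_le_mul' (mul_le_mul' le_rfl (hch m)) (hg j)
        _ = v.valuation L (p : L) := by rw [mul_one, mul_one]
        _ < 1 := hv
    · by_cases hji : j < i
      · rw [Nat.choose_eq_zero_of_lt hji, Nat.cast_zero, map_zero, zero_mul]
        exact zero_lt_one
      · have h4 : j ≤ h.natDegree := le_natDegree_of_mem_supp j hj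
        exact lt_of_le_of_lt (mul_le_of_le_one_left' (hch _)) (h2 j (by omega) (by omega))
  by_cases hbv : 1 < v.valuation L b
  · exact ⟨v, hg, h1, Or.inl hbv⟩
  · rw [not_lt] at hbv
    have hbi : ∀ n, v.valuation L ((fun x => eval x h)^[n] b) ≤ 1 := fun n => iter_int v hg hbv n
    refine ⟨v, hg, h1, Or.inr ⟨?_, fun n i hi hid => hT _ (hbi n) i hi hid⟩⟩
    obtain ⟨N0, hN0⟩ := exists_sameRed v
    obtain ⟨i, j, hij, -, hsame⟩ := hN0 (fun i => ((fun x => eval x h)^[i] b : L))
    have hback : ∀ (n : ℕ) (x y : L), v.valuation L x ≤ 1 → v.valuation L y ≤ 1 →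
        v.valuation L ((fun x => eval x h)^[n] x - (fun x => eval x h)^[n] y) < 1 →
          v.valuation L (x - y) < 1 := by
      intro n
      induction n with
      | zero => intro x y _ _ h; exact h
      | succ n ih =>
        intro x y hx hy hxy
        rw [Function.iterate_succ_apply, Function.iterate_succ_apply] at hxy
        have h4 := ih _ _ (val_eval_le v hg hx) (val_eval_le v hg hy) hxy
        refine backstep v h1 (by omega) (hT y hy) (le_trans (Valuation.map_sub _ _ _) (max_le hx hy)) ?_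
        rw [add_sub_cancel]
        exact h4
    refine ⟨j - i, by omega, ?_⟩
    rw [Valuation.map_sub_swap]
    refine hback i b ((fun x => eval x h)^[j - i] b) hbv (hbi _) ?_
    rw [← Function.iterate_add_apply, show i + (j - i) = j by omega]
    rcases hsame with ⟨h4, -⟩ | ⟨a1, a2, h4, h5, -, -, h6⟩
    · exact absurd (hbi i) (not_le.2 (h4 _ rfl))
    · rw [OnePoint.coe_eq_coe] at h4 h5
      rw [h4, h5]
      exact h6

end Pool.Agent.ORB.GP
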