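import Pool.Agent.ORB.NChild

/-!
ORB, Theorem V3 (odd degrees), row T3a: a child of an element of `M` lies in `M` if it is near the
point `e` (or far away) with a value in `M`.
-/

set_option autoImplicit false

namespace Pool.Agent.ORB.GP

open Polynomial NI

/-- **T3a** (local) a child of an element of `M` lies in `M` if it is near the point `e` (or far away) with a value
in `M` -/
theorem key_tot {F Ω : Type*} [Field F] [Field Ω] [Algebra F Ω] [CharZero F] [IsAlgClosed Ω]
    [Algebra.IsAlgebraic F Ω] (D : LocAbs F Ω) {h : F[X]} (hl : D.N (algebraMap F Ω h.leadingCoeff) = 1)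
    (hd : D.N ((h.natDegree : ℕ) : Ω) = 1) {M : IntermediateField F Ω} (hM : muS D ⊆ M) {e w z : Ω} (he : e ∈ M)
    (hw : w ∈ M) (hwz : D.N (z - e) = D.N w)
    (hc : ∀ i, 0 < i → i < h.natDegree →
      D.N ((taylor e (h.map (algebraMap F Ω))).coeff i) * D.N w ^ i < D.N w ^ h.natDegree)
    (h1 : ev h z ∈ M) : z ∈ M := by
  rcases eq_or_ne w 0 with hw0 | hw0
  · rw [hw0, map_zero, AbsoluteValue.eq_zero, sub_eq_zero] at hwz
    rw [hwz]
    exact he
  have hNw : 0 < D.N w := D.N.pos hw0
  have hlin : w * ((z - e) / w) = z - e := mul_div_cancel₀ _ hw0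
  have hξ : D.N ((z - e) / w) = 1 := by rw [map_div₀, hwz, div_self hNw.ne']
  set T := taylor e (h.map (algebraMap F Ω)) with hT
  have hTd : T.natDegree = h.natDegree := by rw [hT, natDegree_taylor, natDegree_map]
  have hTM : ∀ n, T.coeff n ∈ M := by
    intro n
    have h2 : T.coeff n = aeval e (hasseDeriv n h) := by
      rw [hT, taylor_coeff, ← eval_map_algebraMap]
      congr 1
      ext i
      rw [hasseDeriv_coeff, coeff_map, coeff_map, hasseDeriv_coeff, map_mul, map_natCast]
    rw [h2]
    exact aeval_mem' M he _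
  have hTl : D.N (T.coeff h.natDegree) = 1 := by
    have h2 : T.coeff h.natDegree = algebraMap F Ω h.leadingCoeff := by
      rw [← hTd]
      show T.leadingCoeff = _
      rw [hT, leadingCoeff_taylor, leadingCoeff_map]
    rw [h2, hl]
  obtain ⟨m, hm⟩ : ∃ m, h.natDegree = m + 1 := by
    refine Nat.exists_eq_add_of_le' (Nat.pos_of_ne_zero fun h0 => ?_)
    rw [h0, Nat.cast_zero, map_zero] at hd
    exact zero_ne_one hd
  have hpd : 0 < D.N w ^ h.natDegree := pow_pos hNw _
  set G : Polynomial Ω := C (w ^ h.natDegree)⁻¹ * (T - C (T.coeff 0)).comp (C w * X) with hG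
  have hG0 : G.coeff 0 = 0 := by
    rw [hG, coeff_C_mul, comp_C_mul_X_coeff, coeff_sub, coeff_C_zero, sub_self, zero_mul, mul_zero]
  have hGc : ∀ n, 0 < n → G.coeff n = (w ^ h.natDegree)⁻¹ * (T.coeff n * w ^ n) := by
    intro n hn
    rw [hG, coeff_C_mul, comp_C_mul_X_coeff, coeff_sub, coeff_C, if_neg hn.ne', sub_zero]
  have hGN : ∀ n, 0 < n → D.N (G.coeff n) = (D.N w ^ h.natDegree)⁻¹ * (D.N (T.coeff n) * D.N w ^ n) := by
    intro n hn
    rw [hGc n hn, map_mul, map_mul, map_inv₀, map_pow, map_pow]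
  have hGlt : ∀ n, 0 < n → n < h.natDegree → D.N (G.coeff n) < 1 := by
    intro n h2 h3
    rw [hGN n h2, inv_mul_lt_iff₀ hpd, mul_one]
    exact hc n h2 h3
  have hGd : D.N (G.coeff h.natDegree) = 1 := by
    rw [hGN _ (by omega), hTl, one_mul, inv_mul_cancel₀ hpd.ne']
  have hGz : ∀ n, h.natDegree < n → G.coeff n = 0 := by
    intro n hn
    rw [hGc n (by omega), coeff_eq_zero_of_natDegree_lt (by rw [hTd]; exact hn), zero_mul, mul_zero]
  have hG1 : ∀ n, D.N (G.coeff n) ≤ 1 := by
    intro n
    rcases Nat.eq_zero_or_pos n with rfl | h2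
    · rw [hG0, map_zero]
      exact zero_le_one
    · rcases lt_trichotomy n h.natDegree with h3 | h3 | h3
      · exact (hGlt n h2 h3).le
      · rw [h3, hGd]
      · rw [hGz n h3, map_zero]
        exact zero_le_one
  have h3 : (z - e) / w ∈ M := by
    refine rigid D hM G (fun n => ?_) hG1 hξ.le ?_ ?_
    · rcases Nat.eq_zero_or_pos n with rfl | h2
      · rw [hG0]
        exact zero_mem M
      · rw [hGc n h2]
        exact mul_mem (inv_mem (pow_mem hw _)) (mul_mem (hTM n) (pow_mem hw _))
    · rw [hG, eval_mul, eval_C, eval_comp, eval_mul, eval_C, eval_X, hlin, eval_sub, eval_C, hT, taylor_eval,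
        sub_add_cancel, ← ev_eq]
      exact mul_mem (inv_mem (pow_mem hw _)) (sub_mem h1 (hTM 0))
    · have h4 : G.derivative.natDegree < m + 1 := by
        have h5 : G.natDegree ≤ h.natDegree := natDegree_le_iff_coeff_eq_zero.2 fun n hn => hGz n hn
        have h6 := natDegree_derivative_le G
        omega
      rw [eval_eq_sum_range' h4, Finset.sum_range_succ, add_comm]
      have h5 : D.N (G.derivative.coeff m * ((z - e) / w) ^ m) = 1 := by
        rw [coeff_derivative, map_mul, map_mul, map_pow, hξ, one_pow, mul_one, ← hm, hGd, one_mul]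
        rw [hm, Nat.cast_succ] at hd
        exact hd
      rw [na_add_eq D.N D.nonarch, h5]
      rw [h5]
      refine rg_sum_lt D _ _ zero_lt_one fun i hi => ?_
      have hi' := Finset.mem_range.1 hi
      rw [coeff_derivative, map_mul, map_mul, map_pow, hξ, one_pow, mul_one]
      have h6 : D.N ((i : Ω) + 1) ≤ 1 := by
        have := na_nat_le D.N D.nonarch (i + 1)
        rwa [Nat.cast_succ] at this
      calc D.N (G.coeff (i + 1)) * D.N ((i : Ω) + 1) ≤ D.N (G.coeff (i + 1)) * 1 :=
            mul_le_mul_of_nonneg_left h6 (D.N.nonneg _)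
        _ = D.N (G.coeff (i + 1)) := mul_one _
        _ < 1 := hGlt _ (Nat.succ_pos _) (by omega)
  have h4 := add_mem (mul_mem hw h3) he
  rwa [hlin, sub_add_cancel] at h4

end Pool.Agent.ORB.GP
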