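import Pool.Agent.ORB.TDefs
import Pool.Agent.ORB.TKey
import Pool.Agent.ORB.GFresh
import Pool.Agent.ORB.GLoc

/-!
ORB, Theorem V3 (odd degrees), row T3: at a tame prime the fibres of high levels stay irreducible.
-/

set_option autoImplicit false

namespace Pool.Agent.ORB.GP

open Polynomial NI NumberField IsDedekindDomain WithZero IntermediateField

universe u

/-- the part of `β` which is made of primes that divide `d` -/
theorem exists_split (d : ℕ) {β : ℤ} (hβ : β ≠ 0) {m : ℕ} (hm : β.natAbs ≤ m) :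
    ∃ (g : ℕ) (β' : ℤ), β = g * β' ∧ IsCoprime β' (d : ℤ) ∧ g ∣ d ^ m := by
  set n := β.natAbs with hn
  have hn0 : n ≠ 0 := Int.natAbs_ne_zero.2 hβ
  set g := Nat.gcd n (d ^ m) with hg
  have hg0 : 0 < g := Nat.gcd_pos_of_pos_left _ (Nat.pos_of_ne_zero hn0)
  obtain ⟨q, hq⟩ : g ∣ n := Nat.gcd_dvd_left _ _
  have hcop : Nat.Coprime q d := by
    rw [Nat.coprime_iff_gcd_eq_one]
    by_contra hne
    obtain ⟨p, hp, hpd⟩ := Nat.exists_prime_and_dvd hne
    have hpq : p ∣ q := hpd.trans (Nat.gcd_dvd_left _ _)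
    have hpd' : p ∣ d := hpd.trans (Nat.gcd_dvd_right _ _)
    obtain ⟨a, n', hn', hna⟩ := Nat.exists_eq_pow_mul_and_not_dvd hn0 p hp.ne_one
    have ha : a ≤ m := by
      have h1 : a < p ^ a := Nat.lt_pow_self hp.one_lt
      have h2 : p ^ a ≤ n := Nat.le_of_dvd (Nat.pos_of_ne_zero hn0) ⟨n', hna⟩
      omega
    have h1 : p ^ a ∣ g := Nat.dvd_gcd ⟨n', hna⟩ ((pow_dvd_pow_of_dvd hpd' a).trans (pow_dvd_pow d ha))
    obtain ⟨c, hc⟩ := h1
    apply hn'
    have h2 : p ^ a * n' = p ^ a * (c * q) := by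
      rw [← hna, hq, hc]
      ring
    have h3 : n' = c * q := Nat.eq_of_mul_eq_mul_left (pow_pos hp.pos a) h2
    rw [h3]
    exact Dvd.dvd.mul_left hpq c
  have hgβ : (g : ℤ) ∣ β := Int.natCast_dvd.2 ⟨q, hq⟩
  obtain ⟨β', hβ'⟩ := hgβ
  refine ⟨g, β', hβ', ?_, Nat.gcd_dvd_right _ _⟩
  have h1 : β'.natAbs = q := by
    have h2 : n = g * β'.natAbs := by
      rw [hn, hβ', Int.natAbs_mul, Int.natAbs_natCast]
    exact (Nat.eq_of_mul_eq_mul_left hg0 (hq.symm.trans h2)).symm
  rw [Int.isCoprime_iff_gcd_eq_one, Int.gcd_eq_natAbs, h1, Int.natAbs_natCast]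
  exact hcop

/-- reference points: for every `m` there are points `e 0, .., e (m + 1)` near the points of the levels above `r`,
such that the differences are large enough -/
def Refs {F Ω : Type*} [Field F] [Field Ω] [Algebra F Ω] (D : LocAbs F Ω) (h : F[X]) (r : F) : Prop :=
  ∃ C : ℕ, ∀ m : ℕ, ∃ (e : ℕ → F) (β : ℤ), β ≠ 0 ∧ β.natAbs ≤ C ∧
    D.N (algebraMap F Ω (r - e 0)) = D.N (algebraMap F Ω D.π) ^ β ∧
    ∀ j, j ≤ m → ∀ z : Ω, (ev h)^[j + 1] z = algebraMap F Ω r →
      D.N (z - algebraMap F Ω (e (j + 1))) ^ h.natDegree = D.N (ev h z - algebraMap F Ω (e j)) ∧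
      ∀ i, 0 < i → i < h.natDegree →
        D.N (algebraMap F Ω ((taylor (e (j + 1)) h).coeff i)) * D.N (z - algebraMap F Ω (e (j + 1))) ^ i <
          D.N (z - algebraMap F Ω (e (j + 1))) ^ h.natDegree

/-- the local transitivity -/
theorem local_ft {F Ω : Type*} [Field F] [Field Ω] [Algebra F Ω] [CharZero F] [IsAlgClosed Ω]
    [Algebra.IsAlgebraic F Ω] (D : LocAbs F Ω) {h : F[X]} (hd : 2 ≤ h.natDegree)
    (hl : D.N (algebraMap F Ω h.leadingCoeff) = 1) (hdN : D.N ((h.natDegree : ℕ) : Ω) = 1) (r : F)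
    (hr : Refs D h r) : ∃ m₀ : ℕ, ∀ m, m₀ ≤ m → ∀ z z' : Ω, (ev h)^[m + 1] z = algebraMap F Ω r →
      ev h z = ev h z' → ∃ g : Ω ≃ₐ[F] Ω,
        (∀ k, k ≤ m → ∀ x : Ω, (ev h)^[k] x = algebraMap F Ω r → g x = x) ∧ g z = z' := by
  classical
  obtain ⟨m₀, hm₀⟩ := hr
  refine ⟨m₀, fun m hm z z' hz hzz => ?_⟩
  obtain ⟨e, β, hβ0, hβC, hβ, hstep⟩ := hm₀ m
  set d := h.natDegree with hdd
  obtain ⟨g0, β', hβg, hcop, q, hq⟩ := exists_split d hβ0 (hβC.trans hm)
  have hdm : 0 < d ^ m := pow_pos (by omega) m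
  have hq0 : 0 < q := Nat.pos_of_ne_zero fun h0 => by
    rw [h0, mul_zero] at hq
    omega
  obtain ⟨w, hw⟩ := IsAlgClosed.exists_pow_nat_eq (algebraMap F Ω D.π) hq0
  have hπ0 : algebraMap F Ω D.π ≠ 0 := (_root_.map_ne_zero _).2 D.π_ne
  have hw0 : w ≠ 0 := by
    rintro rfl
    rw [zero_pow hq0.ne'] at hw
    exact hπ0 hw.symm
  have hNw : 0 < D.N w := D.N.pos hw0
  have hNw1 : D.N w < 1 := by
    by_contra hcon
    push Not at hcon
    have h1 := one_le_pow₀ (n := q) hcon
    rw [← map_pow, hw] at h1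
    exact absurd D.π_lt (not_lt.2 h1)
  set M := MF D w with hM
  have hmu : muS D ⊆ M := muS_le w
  have hval : ∀ x ∈ M, x ≠ 0 → Pw D w x := fun x hx h0 => value_MF D hq0 hw hx h0
  -- the values
  have hlev : ∀ j, j ≤ m → ∀ x : Ω, (ev h)^[j] x = algebraMap F Ω r →
      D.N (x - algebraMap F Ω (e j)) = D.N w ^ (β' * (d ^ (m - j) : ℕ)) := by
    intro j
    induction j with
    | zero =>
      intro _ x hx
      have h1 : x = algebraMap F Ω r := hx
      rw [h1, ← map_sub, hβ, ← hw, map_pow, ← zpow_natCast, ← zpow_mul, Nat.sub_zero, hq, hβg]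
      congr 1
      push_cast
      ring
    | succ j ih =>
      intro hj x hx
      have h1 := (hstep j (by omega) x hx).1
      have h2 := ih (by omega) (ev h x) (by rw [← Function.iterate_succ_apply]; exact hx)
      rw [h2] at h1
      have h3 : D.N w ^ (β' * (d ^ (m - j) : ℕ)) = (D.N w ^ (β' * (d ^ (m - (j + 1)) : ℕ))) ^ d := by
        rw [← zpow_natCast (D.N w ^ (β' * (d ^ (m - (j + 1)) : ℕ))) d, ← zpow_mul,
          show m - j = m - (j + 1) + 1 by omega, pow_succ]
        congr 1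
        push_cast
        ring
      rw [h3] at h1
      exact (pow_left_inj₀ (D.N.nonneg _) (zpow_nonneg hNw.le _) (by omega)).1 h1
  have hmem : ∀ j, j ≤ m → ∀ x : Ω, (ev h)^[j] x = algebraMap F Ω r → x ∈ M := by
    intro j
    induction j with
    | zero =>
      intro _ x hx
      have h1 : x = algebraMap F Ω r := hx
      rw [h1]
      exact M.algebraMap_mem r
    | succ j ih =>
      intro hj x hx
      have h1 := hlev (j + 1) hj x hx
      refine key_tot D hl hdN hmu (e := algebraMap F Ω (e (j + 1))) (w := w ^ (β' * (d ^ (m - (j + 1)) : ℕ)))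
        (M.algebraMap_mem _) (zpow_mem (mem_MF w) _) (by rw [h1, map_zpow₀]) (fun i hi hid => ?_)
        (ih (by omega) (ev h x) (by rw [← Function.iterate_succ_apply]; exact hx))
      rw [← map_taylor, coeff_map, map_zpow₀, ← h1]
      exact (hstep j (by omega) x hx).2 i hi hid
  -- the last level
  have hlin : (ev h)^[m] (ev h z) = algebraMap F Ω r := by rw [← Function.iterate_succ_apply]; exact hz
  have hyM : ev h z ∈ M := hmem m le_rfl _ hlin
  have hyN := hlev m le_rfl _ hlin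
  have hzN := (hstep m le_rfl z hz).1
  rw [hyN, Nat.sub_self, pow_zero, Nat.cast_one, mul_one] at hzN
  set c : Ω := algebraMap F Ω (e (m + 1)) with hc
  have hcM : c ∈ M := M.algebraMap_mem _
  have halgM : Algebra.IsAlgebraic M Ω := Algebra.IsAlgebraic.tower_top (K := F) M
  have hint : IsIntegral M z := (Algebra.IsAlgebraic.isAlgebraic (R := M) z).isIntegral
  set P := minpoly M z with hP
  set n := P.natDegree with hnd
  have hPm : P.Monic := minpoly.monic hint
  have hn0 : 0 < n := minpoly.natDegree_pos hint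
  set P' : Polynomial Ω := P.map (algebraMap M Ω) with hP'
  have hP'm : P'.Monic := hPm.map _
  have hspl : P'.Splits := IsAlgClosed.splits _
  have hcard : P'.roots.card = n := by
    rw [← hspl.natDegree_eq_card_roots, hP', natDegree_map]
  have hcl : IsAlgClosure M Ω := ⟨inferInstance, inferInstance⟩
  have hnor : Normal M Ω := IsAlgClosure.normal _ _
  have hconj : ∀ x ∈ P'.roots, D.N (x - c) = D.N (z - c) := by
    intro x hx
    have hx' : aeval x P = 0 := by
      have := isRoot_of_mem_roots hx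
      rw [IsRoot.def, hP', eval_map] at this
      exact this
    obtain ⟨σ, hσ⟩ := minpoly.exists_algEquiv_of_root' (K := M) (L := Ω) (x := x) (y := z)
      hint.isAlgebraic hx'
    have h1 : x - c = (σ.restrictScalars F) (z - c) := by
      rw [map_sub]
      have h2 : (σ.restrictScalars F) c = c := σ.commutes ⟨c, hcM⟩
      have h3 : (σ.restrictScalars F) z = x := hσ
      rw [h2, h3]
    rw [h1, D.inv]
  have hPc : D.N (P'.eval c) = D.N (z - c) ^ n := by
    have h1 : P'.eval c = (P'.roots.map fun x => c - x).prod := by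
      have := hspl.eval_eq_prod_roots c
      rwa [hP'm.leadingCoeff, one_mul] at this
    have h2 : ∀ s : Multiset Ω, (∀ x ∈ s, D.N (x - c) = D.N (z - c)) →
        D.N ((s.map fun x => c - x).prod) = D.N (z - c) ^ s.card := by
      intro s
      induction s using Multiset.induction_on with
      | empty =>
        intro _
        rw [Multiset.map_zero, Multiset.prod_zero, map_one, Multiset.card_zero, pow_zero]
      | cons a s ih =>
        intro hs
        rw [Multiset.map_cons, Multiset.prod_cons, map_mul, ih fun x hx => hs x (Multiset.mem_cons_of_mem hx),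
          D.N.map_sub, hs a (Multiset.mem_cons_self a s), Multiset.card_cons, pow_succ, mul_comm]
    rw [h1, h2 P'.roots hconj, hcard]
  have hPM : P'.eval c ∈ M := by
    have h5 : P'.eval c = ((P.eval ⟨c, hcM⟩ : M) : Ω) := by
      rw [hP', eval_map]
      exact eval₂_at_apply (algebraMap M Ω) (⟨c, hcM⟩ : M)
    rw [h5]
    exact (P.eval _).2
  have hzc : 0 < D.N (z - c) := by
    refine lt_of_le_of_ne (D.N.nonneg _) fun h0 => ?_
    rw [← h0, zero_pow (by omega)] at hzN
    exact (zpow_pos hNw _).ne hzN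
  obtain ⟨i, hi⟩ := hval _ hPM (by
    intro h0
    rw [h0, map_zero] at hPc
    exact (pow_pos hzc n).ne hPc)
  have hdn : d ∣ n := by
    have h1 : D.N w ^ (i * d) = D.N w ^ (β' * n) := by
      rw [zpow_mul, ← hi, hPc, zpow_mul, ← hzN, zpow_natCast, zpow_natCast, ← pow_mul, ← pow_mul, mul_comm]
    have h2 : i * d = β' * n := zpow_right_injective₀ hNw hNw1.ne h1
    have h3 : (d : ℤ) ∣ β' * n := ⟨i, by rw [← h2]; ring⟩
    have h4 : (d : ℤ) ∣ n := hcop.symm.dvd_of_dvd_mul_left h3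
    exact_mod_cast h4
  set H : M[X] := h.map (algebraMap F M) - C ⟨ev h z, hyM⟩ with hH
  have hHd : H.natDegree = d := by
    rw [hH, natDegree_sub_C, natDegree_map]
  have hHz : ∀ x : Ω, aeval x H = ev h x - ev h z := by
    intro x
    rw [hH, map_sub, aeval_C, aeval_map_algebraMap]
    rfl
  have hH0 : H ≠ 0 := by
    intro h0
    rw [h0, natDegree_zero] at hHd
    omega
  obtain ⟨R, hR⟩ : P ∣ H := minpoly.dvd M z (by rw [hHz, sub_self])
  have hR0 : R ≠ 0 := by
    rintro rfl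
    rw [mul_zero] at hR
    exact hH0 hR
  have hRd : R.natDegree = 0 := by
    have h1 : H.natDegree = n + R.natDegree := by rw [hR, natDegree_mul hPm.ne_zero hR0]
    have h2 := Nat.le_of_dvd hn0 hdn
    omega
  have hz' : aeval z' P = 0 := by
    have h1 : aeval z' H = 0 := by rw [hHz, hzz, sub_self]
    rw [hR, map_mul, eq_C_of_natDegree_eq_zero hRd, aeval_C, mul_eq_zero] at h1
    rcases h1 with h1 | h1
    · exact h1
    · exfalso
      rw [FaithfulSMul.algebraMap_eq_zero_iff] at h1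
      apply hR0
      rw [eq_C_of_natDegree_eq_zero hRd, h1, C_0]
  obtain ⟨σ, hσ⟩ := minpoly.exists_algEquiv_of_root' (K := M) (L := Ω) (x := z') (y := z)
    hint.isAlgebraic hz'
  exact ⟨σ.restrictScalars F, fun k hk x hx => σ.commutes ⟨x, hmem k hk x hx⟩, hσ⟩

section refs

variable {F Ω : Type*} [Field F] [Field Ω] [Algebra F Ω] (D : LocAbs F Ω) {g : F[X]}

theorem nint (hg : ∀ i, D.N (algebraMap F Ω (g.coeff i)) ≤ 1) {z : Ω} (hz : D.N z ≤ 1) (n : ℕ) :
    D.N ((ev g)^[n] z) ≤ 1 := by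
  induction n with
  | zero => exact hz
  | succ n ih =>
    rw [Function.iterate_succ_apply', ev_eq]
    exact na_eval_le D.N D.nonarch _ (fun i => by rw [coeff_map]; exact hg i) ih

theorem nbig (hg : ∀ i, D.N (algebraMap F Ω (g.coeff i)) ≤ 1) (hl : D.N (algebraMap F Ω g.leadingCoeff) = 1)
    {z : Ω} (hz : 1 < D.N z) : D.N (ev g z) = D.N z ^ g.natDegree := by
  rw [ev_eq, na_eval_big D.N D.nonarch _ (fun i => by rw [coeff_map]; exact hg i)
    (by rw [leadingCoeff_map]; exact hl) hz, natDegree_map]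

theorem nback (hd : 1 ≤ g.natDegree) (hg : ∀ i, D.N (algebraMap F Ω (g.coeff i)) ≤ 1)
    (hl : D.N (algebraMap F Ω g.leadingCoeff) = 1) (n : ℕ) {z : Ω} (hz : D.N ((ev g)^[n] z) ≤ 1) : D.N z ≤ 1 := by
  induction n with
  | zero => exact hz
  | succ n ih =>
    rw [Function.iterate_succ_apply'] at hz
    refine ih (not_lt.1 fun h => ?_)
    rw [nbig D hg hl h] at hz
    exact absurd (one_lt_pow₀ h (by omega)) (not_lt.2 hz)

/-- reference points if `r` is not integral -/
theorem refs_out (hg : ∀ i, D.N (algebraMap F Ω (g.coeff i)) ≤ 1)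
    (hl : D.N (algebraMap F Ω g.leadingCoeff) = 1) {r : F} (hr : 1 < D.N (algebraMap F Ω r)) : Refs D g r := by
  have hr0 : r ≠ 0 := by
    rintro rfl
    rw [map_zero, map_zero] at hr
    exact absurd hr (by norm_num)
  obtain ⟨β, hβ⟩ := D.disc r hr0
  refine ⟨β.natAbs, fun m => ⟨fun _ => 0, β, ?_, le_rfl, by rw [sub_zero, hβ], ?_⟩⟩
  · rintro rfl
    rw [hβ, zpow_zero] at hr
    exact lt_irrefl _ hr
  · intro j _ z hz
    have h1 : 1 < D.N z := by
      rw [← hz] at hr
      exact not_le.1 fun h => absurd (nint D hg h (j + 1)) (not_le.2 hr)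
    rw [map_zero, sub_zero, sub_zero, nbig D hg hl h1, taylor_zero]
    refine ⟨rfl, fun i _ hid => ?_⟩
    calc D.N (algebraMap F Ω (g.coeff i)) * D.N z ^ i ≤ 1 * D.N z ^ i :=
          mul_le_mul_of_nonneg_right (hg i) (pow_nonneg (D.N.nonneg _) _)
      _ = D.N z ^ i := one_mul _
      _ < D.N z ^ g.natDegree := pow_lt_pow_right₀ h1 hid

/-- one step near a point of the cycle -/
theorem near_step (hd : 2 ≤ g.natDegree) (hl : D.N (algebraMap F Ω g.leadingCoeff) = 1) {θ : ℝ} (hθ0 : 0 < θ)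
    {c : F} (hc : ∀ i, 0 < i → i < g.natDegree → D.N (algebraMap F Ω ((taylor c g).coeff i)) ≤ θ) {x : Ω}
    (hx : D.N (x - algebraMap F Ω c) ≤ 1) :
    ∃ S T : Ω, ev g x - algebraMap F Ω (eval c g) = S + T ∧ D.N S ≤ θ * D.N (x - algebraMap F Ω c) ∧
      D.N T = D.N (x - algebraMap F Ω c) ^ g.natDegree := by
  set δ := x - algebraMap F Ω c with hδ
  set G := g.map (algebraMap F Ω) with hG
  have hGd : G.natDegree = g.natDegree := natDegree_map _
  have h1 : ev g x = (taylor (algebraMap F Ω c) G).eval δ := by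
    rw [ev_eq, taylor_eval, hδ, sub_add_cancel]
  have h2 : (taylor (algebraMap F Ω c) G).eval δ =
      (algebraMap F Ω (eval c g) + ∑ i ∈ Finset.Ico 1 g.natDegree, (taylor (algebraMap F Ω c) G).coeff i * δ ^ i) +
        algebraMap F Ω g.leadingCoeff * δ ^ g.natDegree := by
    have h3 : (taylor (algebraMap F Ω c) G).coeff g.natDegree = algebraMap F Ω g.leadingCoeff := by
      have h4 : (taylor (algebraMap F Ω c) G).coeff G.natDegree = G.leadingCoeff := coeff_taylor_natDegree ..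
      rwa [hGd, hG, leadingCoeff_map] at h4
    rw [eval_eq_sum_range, natDegree_taylor, hGd, Finset.sum_range_succ, h3,
      Finset.range_eq_Ico, Finset.sum_eq_sum_Ico_succ_bot (by omega), taylor_coeff_zero, pow_zero, mul_one, hG,
      eval_map_algebraMap, aeval_algebraMap_apply, coe_aeval_eq_eval]
  refine ⟨∑ i ∈ Finset.Ico 1 g.natDegree, (taylor (algebraMap F Ω c) G).coeff i * δ ^ i,
    algebraMap F Ω g.leadingCoeff * δ ^ g.natDegree, by rw [h1, h2]; ring, ?_, ?_⟩
  · refine rg_sum_le D _ _ (mul_nonneg hθ0.le (D.N.nonneg _)) fun i hi => ?_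
    rw [Finset.mem_Ico] at hi
    rw [map_mul, map_pow, hG, ← map_taylor, coeff_map]
    refine mul_le_mul (hc i (by omega) hi.2) ?_ (pow_nonneg (D.N.nonneg _) _) hθ0.le
    exact pow_le_of_le_one (D.N.nonneg _) hx (by omega)
  · rw [map_mul, map_pow, hl, one_mul]

/-- reference points in the periodic case -/
theorem refs_per (hd : 2 ≤ g.natDegree) (hg : ∀ i, D.N (algebraMap F Ω (g.coeff i)) ≤ 1)
    (hl : D.N (algebraMap F Ω g.leadingCoeff) = 1) {b : F} (hb : D.N (algebraMap F Ω b) ≤ 1) {ϖ : F} (hϖ0 : ϖ ≠ 0)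
    (hϖ : D.N (algebraMap F Ω ϖ) < 1)
    (hc : ∀ n i, 0 < i → i < g.natDegree →
      D.N (algebraMap F Ω ((taylor ((fun x => eval x g)^[n] b) g).coeff i)) ≤ D.N (algebraMap F Ω ϖ))
    {m₁ : ℕ} (hm₁ : 1 ≤ m₁) {B : ℝ} (hB : 0 < B) (hB1 : B < 1)
    (hDR : ∀ R, 1 ≤ R → D.N (algebraMap F Ω (b - (fun x => eval x g)^[R * m₁] b)) = B) {k : ℕ}
    (hk : D.N (algebraMap F Ω ϖ) ^ k < B) {r : F} (hr : (fun x => eval x g)^[k] r = b) : Refs D g r := by
  set G : F → F := fun x => eval x g with hG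
  set θ := D.N (algebraMap F Ω ϖ) with hθ
  have hθ0 : 0 < θ := D.N.pos ((_root_.map_ne_zero _).2 hϖ0)
  set d := g.natDegree with hdd
  obtain ⟨c, hcπ⟩ := D.disc ϖ hϖ0
  have hπ0 : 0 < D.N (algebraMap F Ω D.π) := D.N.pos ((_root_.map_ne_zero _).2 D.π_ne)
  have hevG : ∀ (n : ℕ) (x : F), (ev g)^[n] (algebraMap F Ω x) = algebraMap F Ω (G^[n] x) := by
    intro n x
    induction n generalizing x with
    | zero => rfl
    | succ n ih =>
      rw [Function.iterate_succ_apply, Function.iterate_succ_apply, ← ih]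
      congr 1
      show aeval (algebraMap F Ω x) g = algebraMap F Ω (eval x g)
      rw [aeval_algebraMap_apply, coe_aeval_eq_eval]
  refine ⟨c.natAbs, fun m => ?_⟩
  set R := k + m + 1 with hR
  have hRm : k + m + 1 ≤ R * m₁ := Nat.le_mul_of_pos_right _ hm₁
  set N := R * m₁ with hN
  set E : ℕ → F := fun j => G^[N - j] b with hE
  have hEint : ∀ j, D.N (algebraMap F Ω (E j)) ≤ 1 := by
    intro j
    rw [hE]
    show D.N (algebraMap F Ω (G^[N - j] b)) ≤ 1
    rw [← hevG]
    exact nint D hg hb _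
  have hEs : ∀ j, j < N → eval (E (j + 1)) g = E j := by
    intro j hj
    show G (G^[N - (j + 1)] b) = G^[N - j] b
    rw [show N - j = N - (j + 1) + 1 by omega, Function.iterate_succ_apply']
  -- the step
  have hst : ∀ j, j ≤ k + m → ∀ x : Ω, (ev g)^[j + 1] x = algebraMap F Ω b →
      ∃ S T : Ω, ev g x - algebraMap F Ω (E j) = S + T ∧ D.N S ≤ θ * D.N (x - algebraMap F Ω (E (j + 1))) ∧
        D.N T = D.N (x - algebraMap F Ω (E (j + 1))) ^ d ∧ D.N (x - algebraMap F Ω (E (j + 1))) ≤ 1 := by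
    intro j hj x hx
    have h1 : D.N x ≤ 1 := nback D (by omega) hg hl (j + 1) (by rw [hx]; exact hb)
    have h2 : D.N (x - algebraMap F Ω (E (j + 1))) ≤ 1 := (N_sub_le D _ _).trans (max_le h1 (hEint _))
    obtain ⟨S, T, h3, h4, h5⟩ := near_step D hd hl hθ0 (c := E (j + 1)) (fun i hi hid => hc _ i hi hid) h2
    rw [hEs j (by omega)] at h3
    exact ⟨S, T, h3, h4, h5, h2⟩
  have hP : ∀ j, j ≤ k + m + 1 → ∀ x : Ω, (ev g)^[j] x = algebraMap F Ω b →
      D.N (x - algebraMap F Ω (E j)) < 1 ∧ 0 < D.N (x - algebraMap F Ω (E j)) ∧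
        (θ < D.N (x - algebraMap F Ω (E j)) ^ (d - 1) ∨ B ≤ D.N (x - algebraMap F Ω (E j)) * θ ^ j) := by
    intro j
    induction j with
    | zero =>
      intro _ x hx
      have h1 : x = algebraMap F Ω b := hx
      have h2 : D.N (x - algebraMap F Ω (E 0)) = B := by
        rw [h1, ← map_sub]
        exact hDR R (by omega)
      rw [h2]
      exact ⟨hB1, hB, Or.inr (by rw [pow_zero, mul_one])⟩
    | succ j ih =>
      intro hj x hx
      obtain ⟨h1, h2, h3⟩ := ih (by omega) (ev g x) (by rw [← Function.iterate_succ_apply]; exact hx)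
      obtain ⟨S, T, h4, h5, h6, h7⟩ := hst j (by omega) x hx
      rw [h4] at h1 h2 h3
      set δ := D.N (x - algebraMap F Ω (E (j + 1))) with hδ
      have hδ1 : δ < 1 := by
        refine lt_of_le_of_ne h7 fun h8 => ?_
        rw [h8, mul_one] at h5
        rw [h8, one_pow] at h6
        have h9 : D.N (S + T) = 1 := by
          rw [add_comm, na_add_eq D.N D.nonarch (by rw [h6]; exact h5.trans_lt hϖ), h6]
        rw [h9] at h1
        exact lt_irrefl _ h1
      have hδ0 : 0 < δ := by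
        refine lt_of_le_of_ne (D.N.nonneg _) fun h8 => ?_
        rw [← h8, mul_zero] at h5
        rw [← h8, zero_pow (by omega)] at h6
        have h9 : D.N (S + T) ≤ 0 := (D.nonarch _ _).trans (max_le h5 h6.le)
        exact absurd h2 (not_lt.2 h9)
      refine ⟨hδ1, hδ0, ?_⟩
      by_cases h8 : θ < δ ^ (d - 1)
      · exact Or.inl h8
      · right
        rw [not_lt] at h8
        have h9 : δ ^ d ≤ θ * δ := by
          calc δ ^ d = δ ^ (d - 1) * δ := by rw [← pow_succ]; congr 1; omega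
            _ ≤ θ * δ := mul_le_mul_of_nonneg_right h8 hδ0.le
        have h10 : D.N (S + T) ≤ θ * δ := (D.nonarch _ _).trans (max_le h5 (by rw [h6]; exact h9))
        rcases h3 with h3 | h3
        · exfalso
          have h11 : D.N (S + T) ^ (d - 1) ≤ D.N (S + T) := pow_le_of_le_one h2.le h1.le (by omega)
          have h12 : θ * δ < θ := by
            calc θ * δ < θ * 1 := mul_lt_mul_of_pos_left hδ1 hθ0
              _ = θ := mul_one _
          linarith
        · calc B ≤ D.N (S + T) * θ ^ j := h3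
            _ ≤ (θ * δ) * θ ^ j := mul_le_mul_of_nonneg_right h10 (pow_nonneg hθ0.le _)
            _ = δ * θ ^ (j + 1) := by ring
  have hpow : ∀ j, k ≤ j → j ≤ k + m + 1 → ∀ x : Ω, (ev g)^[j] x = algebraMap F Ω b →
      θ < D.N (x - algebraMap F Ω (E j)) ^ (d - 1) := by
    intro j hkj hj x hx
    obtain ⟨h1, h2, h3⟩ := hP j hj x hx
    rcases h3 with h3 | h3
    · exact h3
    · exfalso
      have h4 : θ ^ j ≤ θ ^ k := pow_le_pow_of_le_one hθ0.le hϖ.le hkj
      have h5 : D.N (x - algebraMap F Ω (E j)) * θ ^ j ≤ 1 * θ ^ j :=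
        mul_le_mul_of_nonneg_right h1.le (pow_nonneg hθ0.le _)
      linarith
  have hrb : (ev g)^[k] (algebraMap F Ω r) = algebraMap F Ω b := by rw [hevG, hr]
  obtain ⟨hr1, hr2, -⟩ := hP k (by omega) _ hrb
  have hr3 := hpow k le_rfl (by omega) _ hrb
  rw [← map_sub] at hr1 hr2 hr3
  have hrE : r - E k ≠ 0 := by
    intro h0
    rw [h0, map_zero, map_zero] at hr2
    exact lt_irrefl _ hr2
  obtain ⟨β, hβ⟩ := D.disc _ hrE
  have hβ0 : 0 < β := by
    by_contra hcon
    rw [hβ] at hr1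
    exact absurd hr1 (not_lt.2 (one_le_zpow_of_nonpos₀ hπ0 D.π_lt.le (not_lt.1 hcon)))
  have hβc : β < c := by
    by_contra hcon
    have h1 : D.N (algebraMap F Ω D.π) ^ β ≤ D.N (algebraMap F Ω D.π) ^ c :=
      zpow_le_zpow_right_of_le_one₀ hπ0 D.π_lt.le (not_lt.1 hcon)
    have h2 := pow_le_of_le_one hr2.le hr1.le (show d - 1 ≠ 0 by omega)
    rw [hβ] at h2 hr3
    rw [hθ, hcπ] at hr3
    linarith
  refine ⟨fun j => E (k + j), β, hβ0.ne', by omega, hβ, ?_⟩
  intro j hj z hz
  have hz' : (ev g)^[k + j + 1] z = algebraMap F Ω b := by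
    rw [show k + j + 1 = k + (j + 1) by omega, Function.iterate_add_apply, hz, hrb]
  obtain ⟨h1, h2, -⟩ := hP (k + j + 1) (by omega) z hz'
  have h3 := hpow (k + j + 1) (by omega) (by omega) z hz'
  obtain ⟨S, T, h4, h5, h6, -⟩ := hst (k + j) (by omega) z hz'
  show D.N (z - algebraMap F Ω (E (k + (j + 1)))) ^ d = D.N (ev g z - algebraMap F Ω (E (k + j))) ∧
    ∀ i, 0 < i → i < d → D.N (algebraMap F Ω ((taylor (E (k + (j + 1))) g).coeff i)) *
      D.N (z - algebraMap F Ω (E (k + (j + 1)))) ^ i < D.N (z - algebraMap F Ω (E (k + (j + 1)))) ^ d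
  rw [show k + (j + 1) = k + j + 1 by omega, h4]
  set δ := D.N (z - algebraMap F Ω (E (k + j + 1))) with hδ
  have h7 : θ * δ < δ ^ d := by
    calc θ * δ < δ ^ (d - 1) * δ := mul_lt_mul_of_pos_right h3 h2
      _ = δ ^ d := by rw [← pow_succ]; congr 1; omega
  constructor
  · rw [add_comm, na_add_eq D.N D.nonarch (by rw [h6]; exact h5.trans_lt h7), h6]
  · intro i hi hid
    refine lt_of_le_of_lt (mul_le_mul (hc _ i hi hid) (pow_le_of_le_one h2.le h1.le (by omega))
      (pow_nonneg h2.le _) hθ0.le) h7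

end refs

/-- the distance of `b` from the points of its residue cycle -/
theorem per_val {L : Type u} [Field L] [NumberField L] {h : L[X]} (hd : 2 ≤ h.natDegree) {b : L}
    (hb : ∀ n, 1 ≤ n → (fun x => eval x h)^[n] b ≠ b) (v : HeightOneSpectrum (𝓞 L))
    (hl : v.valuation L h.leadingCoeff = 1) {k : ℕ} (hk : 1 ≤ k)
    (hkb : v.valuation L ((fun x => eval x h)^[k] b - b) < 1)
    (hc : ∀ n i, 0 < i → i < h.natDegree →
      v.valuation L ((taylor ((fun x => eval x h)^[n] b) h).coeff i) < 1) :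
    ∀ R, 1 ≤ R → v.valuation L (b - (fun x => eval x h)^[R * k] b) =
      v.valuation L (b - (fun x => eval x h)^[k] b) := by
  set F : L → L := fun x => eval x h with hF
  have hcontr : ∀ (n : ℕ) (u : L), v.valuation L (u - F^[n] b) < 1 →
      v.valuation L (F u - F^[n + 1] b) ≤ v.valuation L (u - F^[n] b) ∧
      (u ≠ F^[n] b → v.valuation L (F u - F^[n + 1] b) < v.valuation L (u - F^[n] b)) := by
    intro n u hu
    by_cases h0 : u = F^[n] b
    · rw [Function.iterate_succ_apply', ← h0]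
      exact ⟨by rw [sub_self, sub_self], fun h => absurd rfl h⟩
    · have h1 := contract v hl hd (hc n) hu (sub_ne_zero.2 h0)
      rw [add_sub_cancel] at h1
      rw [Function.iterate_succ_apply']
      exact ⟨h1.le, fun _ => h1⟩
  have hcontr2 : ∀ (j n : ℕ) (u : L), v.valuation L (u - F^[n] b) < 1 →
      v.valuation L (F^[j] u - F^[n + j] b) ≤ v.valuation L (u - F^[n] b) := by
    intro j
    induction j with
    | zero => intro n u _; exact le_rfl
    | succ j ih =>
      intro n u hu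
      have h1 := hcontr n u hu
      have h2 := ih (n + 1) (F u) (lt_of_le_of_lt h1.1 hu)
      rw [Function.iterate_succ_apply, show n + (j + 1) = n + 1 + j by omega]
      exact h2.trans h1.1
  have hcontr3 : ∀ (j n : ℕ) (u : L), 1 ≤ j → v.valuation L (u - F^[n] b) < 1 → u ≠ F^[n] b →
      v.valuation L (F^[j] u - F^[n + j] b) < v.valuation L (u - F^[n] b) := by
    intro j n u hj hu hne
    obtain ⟨i, rfl⟩ : ∃ i, j = i + 1 := ⟨j - 1, by omega⟩
    have h1 := hcontr n u hu
    have h2 := hcontr2 i (n + 1) (F u) (lt_of_le_of_lt h1.1 hu)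
    rw [Function.iterate_succ_apply, show n + (i + 1) = n + 1 + i by omega]
    exact lt_of_le_of_lt h2 (h1.2 hne)
  have hDv : v.valuation L (b - F^[k] b) < 1 := by rw [Valuation.map_sub_swap]; exact hkb
  intro R
  induction R with
  | zero => intro h; omega
  | succ R ih =>
    intro _
    rcases Nat.eq_zero_or_pos R with h0 | h0
    · subst h0; rw [zero_add, one_mul]
    · have h1 := ih h0
      have h2 : F^[R * k] b ≠ F^[0] b := hb (R * k) (Nat.mul_pos h0 hk)
      have h3 := hcontr3 k 0 (F^[R * k] b) hk (by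
        show v.valuation L (F^[R * k] b - b) < 1
        rw [Valuation.map_sub_swap, h1]; exact hDv) h2
      rw [zero_add, ← Function.iterate_add_apply] at h3
      have h4 : v.valuation L (F^[R * k] b - F^[0] b) = v.valuation L (b - F^[k] b) := by
        show v.valuation L (F^[R * k] b - b) = _
        rw [Valuation.map_sub_swap, h1]
      rw [h4] at h3
      have h5 : b - F^[(R + 1) * k] b = (b - F^[k] b) - (F^[k + R * k] b - F^[k] b) := by
        rw [show (R + 1) * k = k + R * k by ring]; ring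
      rw [h5, Valuation.map_sub_eq_of_lt_left _ h3]

/-- **T3**, the descent to the algebraic closure of the number field -/
theorem ft_of_refs {F W : Type u} [Field F] [NumberField F] [Field W] [Algebra F W] [IsAlgClosed W]
    [Algebra.IsAlgebraic F W] (h : F[X]) (hd : 2 ≤ h.natDegree) (b : F) (v : HeightOneSpectrum (𝓞 F))
    (hl : v.valuation F h.leadingCoeff = 1) (hdv : v.valuation F (h.natDegree : F) = 1) (k : ℕ)
    (H : ∀ (Fq Ω : Type u) [Field Fq] [Field Ω] [Algebra Fq Ω] (D : LocAbs Fq Ω) (φ : F →+* Fq),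
      (∀ x : F, (D.N (algebraMap Fq Ω (φ x)) ≤ 1 ↔ v.valuation F x ≤ 1) ∧
        (D.N (algebraMap Fq Ω (φ x)) < 1 ↔ v.valuation F x < 1)) →
      ∀ s : Fq, (fun x => eval x (h.map φ))^[k] s = φ b → Refs D (h.map φ) s)
    (r : W) (hr : r ∈ Node W h b k) : FT h r := by
  intro T hT
  obtain ⟨L, _, _, _, _, hst, -, hTL⟩ := exists_gal (F := F) (W := W) (T ∪ {r}) (hT.union (Set.finite_singleton r))
  have hin : Function.Injective (algebraMap L W) := (algebraMap L W).injective
  obtain ⟨r1, hr1⟩ := hTL r (Or.inr rfl)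
  set h1 : L[X] := h.map (algebraMap F L) with hh1
  have hevW : (ev h1 : W → W) = ev h := by
    funext z
    unfold ev
    rw [hh1, aeval_map_algebraMap]
  have hit1 : ∀ (n : ℕ) (x : L), algebraMap L W ((fun y => eval y h1)^[n] x) = (ev h)^[n] (algebraMap L W x) := by
    intro n x
    rw [← hevW]
    induction n generalizing x with
    | zero => rfl
    | succ n ih =>
      rw [Function.iterate_succ_apply, Function.iterate_succ_apply, ih]
      congr 1
      show algebraMap L W (eval x h1) = aeval (algebraMap L W x) h1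
      rw [aeval_algebraMap_apply, coe_aeval_eq_eval]
  -- the prime
  obtain ⟨⟨Q, hQ1, hQ2⟩⟩ := v.asIdeal.nonempty_primesOver (S := 𝓞 L)
  have hQ0 : Q ≠ ⊥ := Ideal.ne_bot_of_mem_primesOver v.ne_bot ⟨hQ1, hQ2⟩
  let P : HeightOneSpectrum (𝓞 L) := ⟨Q, hQ1, hQ0⟩
  have hlo : P.asIdeal.LiesOver v.asIdeal := hQ2
  obtain ⟨Fq, Ω, _, _, _, _, _, _, _, D, hD, -⟩ := exists_locAbs_val P
  let algLΩ : Algebra L Ω := ((algebraMap Fq Ω).comp (algebraMap L Fq)).toAlgebra
  have t1 : IsScalarTower L Fq Ω := IsScalarTower.of_algebraMap_eq (fun x => rfl)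
  have halg : Algebra.IsAlgebraic L W := Algebra.IsAlgebraic.tower_top (K := F) L
  let ψ : W →ₐ[L] Ω := IsAlgClosed.lift
  let algWΩ : Algebra W Ω := ψ.toRingHom.toAlgebra
  have t2 : IsScalarTower L W Ω := IsScalarTower.of_algebraMap_eq (fun x => (ψ.commutes x).symm)
  have hcl : IsAlgClosure L W := ⟨inferInstance, inferInstance⟩
  have hnm : Normal L W := IsAlgClosure.normal L W
  have hinj : Function.Injective (algebraMap W Ω) := (algebraMap W Ω).injective
  have hLΩ : ∀ x : L, algebraMap Fq Ω (algebraMap L Fq x) = algebraMap W Ω (algebraMap L W x) := by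
    intro x
    rw [← IsScalarTower.algebraMap_apply L W Ω, ← IsScalarTower.algebraMap_apply L Fq Ω]
  set φ : F →+* Fq := (algebraMap L Fq).comp (algebraMap F L) with hφ
  have hφv : ∀ x : F, (D.N (algebraMap Fq Ω (φ x)) ≤ 1 ↔ v.valuation F x ≤ 1) ∧
      (D.N (algebraMap Fq Ω (φ x)) < 1 ↔ v.valuation F x < 1) := by
    intro x
    have h2 := hD (algebraMap F L x)
    exact ⟨h2.1.trans (val_le_iff v P x), h2.2.trans (val_lt_iff v P x)⟩
  have hunit : ∀ x : F, v.valuation F x = 1 → D.N (algebraMap Fq Ω (φ x)) = 1 := by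
    intro x hx
    refine le_antisymm ((hφv x).1.2 hx.le) (not_lt.1 fun h2 => ?_)
    have h3 := (hφv x).2.1 h2
    rw [hx] at h3
    exact lt_irrefl _ h3
  have hgφ : h.map φ = h1.map (algebraMap L Fq) := by rw [hh1, Polynomial.map_map]
  have hs : (fun x => eval x (h.map φ))^[k] (algebraMap L Fq r1) = φ b := by
    rw [hgφ, eval_map_iter]
    show algebraMap L Fq _ = algebraMap L Fq (algebraMap F L b)
    congr 1
    apply hin
    rw [hit1, hr1, ← IsScalarTower.algebraMap_apply F L W]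
    exact hr
  obtain ⟨m₀, hm₀⟩ := local_ft D (h := h.map φ) (by rw [natDegree_map]; exact hd)
    (by rw [leadingCoeff_map]; exact hunit _ hl)
    (by
      have h2 := hunit _ hdv
      rw [map_natCast, map_natCast] at h2
      rw [natDegree_map]
      exact h2) (algebraMap L Fq r1) (H Fq Ω D φ hφv _ hs)
  have hiter : ∀ (n : ℕ) (z : W), (ev (h.map φ))^[n] (algebraMap W Ω z) = algebraMap W Ω ((ev h)^[n] z) := by
    intro n z
    rw [hgφ, ev_map_iter, hevW]
  refine ⟨m₀, fun m hm z z' hz hzz => ?_⟩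
  obtain ⟨A, hA1, hA2⟩ := hm₀ m hm (algebraMap W Ω z) (algebraMap W Ω z') (by
    rw [hiter, hz, hLΩ, hr1]) (by
    have h2 := hiter 1 z
    have h3 := hiter 1 z'
    rw [Function.iterate_one, Function.iterate_one] at h2 h3
    rw [h2, h3, hzz])
  obtain ⟨B, hB⟩ := exists_restr (K := L) (E := W) A
  refine ⟨B.restrictScalars F, ?_, ?_, ?_, ?_⟩
  · intro t ht
    obtain ⟨x, rfl⟩ := hTL t (Or.inl ht)
    exact B.commutes x
  · rw [← hr1]
    exact B.commutes r1
  · intro j hj x hx
    apply hinj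
    show algebraMap W Ω (B x) = _
    rw [hB]
    exact hA1 j hj _ (by rw [hiter, hx, hLΩ, hr1])
  · apply hinj
    show algebraMap W Ω (B z) = _
    rw [hB]
    exact hA2

/-- **T3** -/
theorem ft_of_tamT {F W : Type u} [Field F] [NumberField F] [Field W] [Algebra F W] [IsAlgClosed W]
    [Algebra.IsAlgebraic F W] (h : F[X]) (hd : 2 ≤ h.natDegree) (b : F)
    (hb : ∀ n, 1 ≤ n → (fun x => eval x h)^[n] b ≠ b) (ht : TamT h b) :
    ∃ k₂ : ℕ, ∀ k, k₂ ≤ k → ∀ r ∈ Node W h b k, FT h r := by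
  obtain ⟨v, hg, hl, hdv, h3⟩ := ht
  have hmap : ∀ {Fq : Type u} [Field Fq] (φ : F →+* Fq) (n : ℕ) (x : F),
      (fun x => eval x (h.map φ))^[n] (φ x) = φ ((fun x => eval x h)^[n] x) := fun φ n x => (ev_map φ h x n).symm
  by_cases hbv : 1 < v.valuation F b
  · refine ⟨0, fun k _ r hr => ft_of_refs h hd b v hl hdv k ?_ r hr⟩
    intro Fq Ω _ _ _ D φ hφ s hs
    have hgD : ∀ i, D.N (algebraMap Fq Ω ((h.map φ).coeff i)) ≤ 1 := fun i => by
      rw [coeff_map]; exact (hφ _).1.2 (hg i)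
    have hlD : D.N (algebraMap Fq Ω (h.map φ).leadingCoeff) = 1 := by
      rw [leadingCoeff_map]
      refine le_antisymm ((hφ _).1.2 hl.le) (not_lt.1 fun h2 => ?_)
      have h4 := (hφ _).2.1 h2
      rw [hl] at h4
      exact lt_irrefl _ h4
    refine refs_out D hgD hlD (not_le.1 fun h4 => ?_)
    have h5 := nint D hgD h4 k
    rw [ev_algebraMap, hs] at h5
    exact absurd ((hφ b).1.1 h5) (not_le.2 hbv)
  · rcases h3 with h3 | ⟨⟨m₁, hm₁, hmb⟩, hc⟩
    · exact absurd h3 hbv
    rw [not_lt] at hbv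
    have hDR := per_val hd hb v hl hm₁ hmb hc
    set D₀ : F := b - (fun x => eval x h)^[m₁] b with hD₀
    have hD0 : D₀ ≠ 0 := sub_ne_zero.2 (Ne.symm (hb m₁ hm₁))
    have hDv : v.valuation F D₀ < 1 := by rw [hD₀, Valuation.map_sub_swap]; exact hmb
    obtain ⟨ϖ, hϖ⟩ := v.valuation_exists_uniformizer F
    have hϖ' : v.valuation F ϖ = exp (-1) := hϖ
    have hϖ0 : ϖ ≠ 0 := by
      rintro rfl
      rw [map_zero] at hϖ
      exact absurd hϖ.symm (by simp)
    have hϖ1 : v.valuation F ϖ < 1 := by rw [hϖ', ← exp_zero]; exact exp_lt_exp.2 (by norm_num)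
    obtain ⟨B, hB⟩ := Int.eq_ofNat_of_zero_le ((ordp_pos v hD0).2 hDv).le
    have hDB : v.valuation F D₀ = exp (-(B : ℤ)) := by
      have h4 : log (v.valuation F D₀) = -(B : ℤ) := by
        unfold ordp at hB
        omega
      rw [← exp_log (val_ne v hD0), h4]
    refine ⟨B + 1, fun k hk r hr => ft_of_refs h hd b v hl hdv k ?_ r hr⟩
    intro Fq Ω _ _ _ D φ hφ s hs
    have hgD : ∀ i, D.N (algebraMap Fq Ω ((h.map φ).coeff i)) ≤ 1 := fun i => by
      rw [coeff_map]; exact (hφ _).1.2 (hg i)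
    have hunit : ∀ x : F, v.valuation F x = 1 → D.N (algebraMap Fq Ω (φ x)) = 1 := by
      intro x hx
      refine le_antisymm ((hφ x).1.2 hx.le) (not_lt.1 fun h2 => ?_)
      have h4 := (hφ x).2.1 h2
      rw [hx] at h4
      exact lt_irrefl _ h4
    have hlD : D.N (algebraMap Fq Ω (h.map φ).leadingCoeff) = 1 := by
      rw [leadingCoeff_map]
      exact hunit _ hl
    have hφ0 : ∀ x : F, x ≠ 0 → φ x ≠ 0 := fun x hx => (_root_.map_ne_zero φ).2 hx
    have hNϖ : 0 < D.N (algebraMap Fq Ω (φ ϖ)) := D.N.pos ((_root_.map_ne_zero _).2 (hφ0 _ hϖ0))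
    have hND : 0 < D.N (algebraMap Fq Ω (φ D₀)) := D.N.pos ((_root_.map_ne_zero _).2 (hφ0 _ hD0))
    refine refs_per D (by rw [natDegree_map]; exact hd) hgD hlD ((hφ b).1.2 hbv) (hφ0 _ hϖ0) ((hφ ϖ).2.2 hϖ1)
      (fun n i hi hid => ?_) hm₁ hND ((hφ D₀).2.2 hDv) (fun R hR => ?_) (k := k) ?_ hs
    · rw [hmap, ← map_taylor, coeff_map]
      rw [natDegree_map] at hid
      set c := (taylor ((fun x => eval x h)^[n] b) h).coeff i with hcc
      have h1 : v.valuation F c ≤ v.valuation F ϖ := by rw [hϖ']; exact le_unif (hc _ i hi hid)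
      have h2 : v.valuation F (c / ϖ) ≤ 1 := by
        rw [map_div₀]
        exact div_le_one_of_le₀ h1 zero_le
      have h4 := (hφ (c / ϖ)).1.2 h2
      rw [map_div₀, map_div₀, map_div₀] at h4
      exact (div_le_one hNϖ).1 h4
    · rw [hmap, ← map_sub]
      have h1 : v.valuation F ((b - (fun x => eval x h)^[R * m₁] b) / D₀) = 1 := by
        rw [map_div₀, hDR R hR, div_self (val_ne v hD0)]
      have h2 := hunit _ h1
      rw [map_div₀, map_div₀, map_div₀] at h2
      exact (div_eq_one_iff_eq hND.ne').1 h2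
    · have h1 : v.valuation F (ϖ ^ k / D₀) < 1 := by
        rw [map_div₀, map_pow, hϖ', hDB, ← exp_nsmul, ← exp_sub, ← exp_zero, exp_lt_exp]
        simp only [nsmul_eq_mul]
        have : (B : ℤ) + 1 ≤ k := by exact_mod_cast hk
        omega
      have h2 := (hφ (ϖ ^ k / D₀)).2.2 h1
      rw [map_div₀, map_div₀, map_div₀, map_pow, map_pow, map_pow] at h2
      exact (div_lt_one hND).1 h2

end Pool.Agent.ORB.GP
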