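import Pool.Agent.ORB.YDefs
import Pool.Agent.ORB.TOmega
import Pool.Agent.ORB.NLevel

/-!
ORB, rows X1 and X1a: exact periodic reference points over a local field.
-/

set_option autoImplicit false

namespace Pool.Agent.ORB.GP

open Polynomial NI WP NumberField IsDedekindDomain IntermediateField

section refpts

variable {F Ω : Type*} [Field F] [Field Ω] [Algebra F Ω] (D : LocAbs F Ω) {h : F[X]}

/-- elements of `F` of value less than one -/
theorem le_pi {x : F} (hx : D.N (algebraMap F Ω x) < 1) :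
    D.N (algebraMap F Ω x) ≤ D.N (algebraMap F Ω D.π) := by
  by_cases h0 : x = 0
  · rw [h0, map_zero, map_zero]
    exact D.N.nonneg _
  · obtain ⟨n, hn⟩ := D.disc x h0
    have hπ : 0 < D.N (algebraMap F Ω D.π) := D.N.pos ((_root_.map_ne_zero _).2 D.π_ne)
    rw [hn] at hx ⊢
    have h1 : 1 ≤ n := by
      by_contra hcon
      exact absurd hx (not_lt.2 (one_le_zpow_of_nonpos₀ hπ D.π_lt.le (by omega)))
    calc D.N (algebraMap F Ω D.π) ^ n ≤ D.N (algebraMap F Ω D.π) ^ (1 : ℤ) :=
          zpow_le_zpow_right_of_le_one₀ hπ D.π_lt.le h1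
      _ = _ := zpow_one _

/-- Taylor coefficients at congruent points are congruent -/
theorem taylor_cg (hg : ∀ i, D.N (algebraMap F Ω (h.coeff i)) ≤ 1) {x y : Ω} (hx : D.N x ≤ 1) (hy : D.N y ≤ 1)
    (hxy : D.N (x - y) < 1) (i : ℕ) :
    D.N ((taylor x (h.map (algebraMap F Ω))).coeff i - (taylor y (h.map (algebraMap F Ω))).coeff i) < 1 := by
  rw [taylor_coeff, taylor_coeff]
  set G := hasseDeriv i (h.map (algebraMap F Ω)) with hGdef
  have hG : ∀ n, D.N (G.coeff n) ≤ 1 := by
    intro n
    rw [hGdef, hasseDeriv_coeff, map_mul, coeff_map]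
    exact mul_le_one₀ (na_nat_le D.N D.nonarch _) (D.N.nonneg _) (hg _)
  have hG' : ∀ n, D.N (G.derivative.coeff n) ≤ 1 := by
    intro n
    rw [coeff_derivative, map_mul]
    refine mul_le_one₀ (hG _) (D.N.nonneg _) ?_
    have : ((n : Ω) + 1) = ((n + 1 : ℕ) : Ω) := by push_cast; ring
    rw [this]
    exact na_nat_le D.N D.nonarch _
  obtain ⟨k, hk, h1⟩ := eval_diff D G hG hx hy
  rw [h1, map_mul]
  refine (mul_le_of_le_one_right (D.N.nonneg _) ?_).trans_lt hxy
  refine (D.nonarch _ _).trans (max_le (na_eval_le D.N D.nonarch _ hG' hy) ?_)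
  rw [map_mul]
  exact mul_le_one₀ hxy.le (D.N.nonneg _) hk

/-- the map contracts near a totally ramified point -/
theorem contr (hd : 2 ≤ h.natDegree) (hl : D.N (algebraMap F Ω h.leadingCoeff) = 1) {x y : Ω}
    (hc : ∀ i, 0 < i → i < h.natDegree → D.N ((taylor y (h.map (algebraMap F Ω))).coeff i) < 1)
    (hxy : D.N (x - y) < 1) (hne : x ≠ y) : D.N (ev h x - ev h y) < D.N (x - y) := by
  set δ := x - y with hδ
  set G := h.map (algebraMap F Ω) with hG
  have hGd : G.natDegree = h.natDegree := natDegree_map _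
  have hδ0 : 0 < D.N δ := D.N.pos (sub_ne_zero.2 hne)
  have h1 : ev h x = (taylor y G).eval δ := by
    rw [ev_eq, taylor_eval, hδ, sub_add_cancel]
  have h2 : (taylor y G).eval δ = ev h y + ∑ i ∈ Finset.Ico 1 (h.natDegree + 1), (taylor y G).coeff i * δ ^ i := by
    rw [eval_eq_sum_range, natDegree_taylor, hGd, Finset.range_eq_Ico, Finset.sum_eq_sum_Ico_succ_bot (by omega),
      taylor_coeff_zero, pow_zero, mul_one, ev_eq]
  rw [h1, h2, add_sub_cancel_left]
  refine rg_sum_lt D _ _ hδ0 fun i hi => ?_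
  rw [Finset.mem_Ico] at hi
  rw [map_mul, map_pow]
  rcases Nat.lt_or_ge i h.natDegree with h3 | h3
  · calc D.N ((taylor y G).coeff i) * D.N δ ^ i ≤ D.N ((taylor y G).coeff i) * D.N δ :=
          mul_le_mul_of_nonneg_left (pow_le_of_le_one (D.N.nonneg _) hxy.le (by omega)) (D.N.nonneg _)
      _ < 1 * D.N δ := mul_lt_mul_of_pos_right (hc i (by omega) h3) hδ0
      _ = D.N δ := one_mul _
  · have h4 : i = h.natDegree := by omega
    have h5 : (taylor y G).coeff h.natDegree = algebraMap F Ω h.leadingCoeff := by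
      have h6 : (taylor y G).coeff G.natDegree = G.leadingCoeff := coeff_taylor_natDegree ..
      rwa [hGd, hG, leadingCoeff_map] at h6
    rw [h4, h5, hl, one_mul]
    calc D.N δ ^ h.natDegree < D.N δ ^ 1 := pow_lt_pow_right_of_lt_one₀ hδ0 hxy (by omega)
      _ = D.N δ := pow_one _

variable {b : F}

/-- Taylor coefficients near the orbit -/
theorem taylor_near (hg : ∀ i, D.N (algebraMap F Ω (h.coeff i)) ≤ 1) (hb : D.N (algebraMap F Ω b) ≤ 1)
    (hc : ∀ n i, 0 < i → i < h.natDegree →
      D.N (algebraMap F Ω ((taylor ((fun x => eval x h)^[n] b) h).coeff i)) < 1) (n : ℕ) {y : Ω}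
    (hy : D.N (y - (ev h)^[n] (algebraMap F Ω b)) < 1) :
    ∀ i, 0 < i → i < h.natDegree → D.N ((taylor y (h.map (algebraMap F Ω))).coeff i) < 1 := by
  intro i hi hid
  set B := (ev h)^[n] (algebraMap F Ω b) with hB
  have hB1 : D.N B ≤ 1 := nint D hg hb n
  have hy1 : D.N y ≤ 1 := by
    have := D.nonarch (y - B) B
    rw [sub_add_cancel] at this
    exact this.trans (max_le hy.le hB1)
  have h1 := taylor_cg D hg hy1 hB1 hy i
  have h2 : D.N ((taylor B (h.map (algebraMap F Ω))).coeff i) < 1 := by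
    have h3 := hc n i hi hid
    rw [hB, ev_algebraMap, ← map_taylor, coeff_map]
    exact h3
  have h4 := D.nonarch ((taylor y (h.map (algebraMap F Ω))).coeff i - (taylor B (h.map (algebraMap F Ω))).coeff i)
    ((taylor B (h.map (algebraMap F Ω))).coeff i)
  rw [sub_add_cancel] at h4
  exact h4.trans_lt (max_lt h1 h2)

/-- the iterates near the orbit -/
theorem iter_near (hd : 2 ≤ h.natDegree) (hg : ∀ i, D.N (algebraMap F Ω (h.coeff i)) ≤ 1)
    (hl : D.N (algebraMap F Ω h.leadingCoeff) = 1) (hb : D.N (algebraMap F Ω b) ≤ 1)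
    (hc : ∀ n i, 0 < i → i < h.natDegree →
      D.N (algebraMap F Ω ((taylor ((fun x => eval x h)^[n] b) h).coeff i)) < 1) (n : ℕ) :
    ∀ x y : Ω, D.N (x - algebraMap F Ω b) < 1 → D.N (y - algebraMap F Ω b) < 1 →
      D.N ((ev h)^[n] x - (ev h)^[n] y) ≤ D.N (x - y) := by
  induction n with
  | zero => intro x y _ _; exact le_rfl
  | succ n ih =>
    intro x y hx hy
    rw [Function.iterate_succ_apply', Function.iterate_succ_apply']
    have h1 := ih x y hx hy
    have hxy : D.N (x - y) < 1 := N_lt_trans D hx (by rw [N_symm]; exact hy)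
    by_cases h0 : (ev h)^[n] x = (ev h)^[n] y
    · rw [h0, sub_self, map_zero]
      exact D.N.nonneg _
    · have hβ : D.N (algebraMap F Ω b - algebraMap F Ω b) < 1 := by rw [sub_self, map_zero]; exact one_pos
      have h2 := (ih y (algebraMap F Ω b) hy hβ).trans_lt hy
      exact (contr D hd hl (taylor_near D hg hb hc n h2) (h1.trans_lt hxy) h0).le.trans h1

/-- strict form -/
theorem iter_near_lt (hd : 2 ≤ h.natDegree) (hg : ∀ i, D.N (algebraMap F Ω (h.coeff i)) ≤ 1)
    (hl : D.N (algebraMap F Ω h.leadingCoeff) = 1) (hb : D.N (algebraMap F Ω b) ≤ 1)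
    (hc : ∀ n i, 0 < i → i < h.natDegree →
      D.N (algebraMap F Ω ((taylor ((fun x => eval x h)^[n] b) h).coeff i)) < 1) (n : ℕ) (hn : 1 ≤ n) {x y : Ω}
    (hx : D.N (x - algebraMap F Ω b) < 1) (hy : D.N (y - algebraMap F Ω b) < 1) (hne : x ≠ y) :
    D.N ((ev h)^[n] x - (ev h)^[n] y) < D.N (x - y) := by
  obtain ⟨n, rfl⟩ : ∃ k, n = k + 1 := ⟨n - 1, by omega⟩
  rw [Function.iterate_succ_apply', Function.iterate_succ_apply']
  have h1 := iter_near D hd hg hl hb hc n x y hx hy
  have hxy : D.N (x - y) < 1 := N_lt_trans D hx (by rw [N_symm]; exact hy)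
  by_cases h0 : (ev h)^[n] x = (ev h)^[n] y
  · rw [h0, sub_self, map_zero]
    exact D.N.pos (sub_ne_zero.2 hne)
  · have hβ : D.N (algebraMap F Ω b - algebraMap F Ω b) < 1 := by rw [sub_self, map_zero]; exact one_pos
    have h2 := (iter_near D hd hg hl hb hc n y (algebraMap F Ω b) hy hβ).trans_lt hy
    exact (contr D hd hl (taylor_near D hg hb hc n h2) (h1.trans_lt hxy) h0).trans_le h1

/-- a periodic point close to `b` -/
theorem exists_per [IsAlgClosed Ω] (hd : 2 ≤ h.natDegree) (hl : D.N (algebraMap F Ω h.leadingCoeff) = 1) {R : ℕ}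
    (hR : D.N ((ev h)^[R] (algebraMap F Ω b) - algebraMap F Ω b) < 1) (hR1 : 1 ≤ R) :
    ∃ q : Ω, (ev h)^[R] q = q ∧ D.N (q - algebraMap F Ω b) < 1 := by
  set G : F[X] := NI.itp h R - X with hG
  have h12 : ∀ R : ℕ, (NI.itp h R).natDegree = h.natDegree ^ R ∧
      D.N (algebraMap F Ω (NI.itp h R).leadingCoeff) = 1 := by
    intro R
    induction R with
    | zero => simp [NI.itp]
    | succ R ih =>
      have h1 : NI.itp h (R + 1) = h.comp (NI.itp h R) := by rw [NI.itp, Function.iterate_succ_apply']; rfl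
      refine ⟨by rw [h1, natDegree_comp, ih.1, pow_succ'], ?_⟩
      rw [h1, leadingCoeff_comp (by rw [ih.1]; exact pow_ne_zero _ (by omega)), map_mul, map_pow, map_mul,
        map_pow, ih.2, hl, one_pow, one_mul]
  obtain ⟨h1, h2⟩ := h12 R
  have hdeg : 1 < (NI.itp h R).natDegree := by
    rw [h1]
    exact Nat.one_lt_pow (by omega) (by omega)
  have hlt : (X : F[X]).degree < (NI.itp h R).degree := by
    apply degree_lt_degree
    rw [natDegree_X]
    exact hdeg
  have hlead : G.leadingCoeff = (NI.itp h R).leadingCoeff := leadingCoeff_sub_of_degree_lt hlt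
  have hsp : (G.map (algebraMap F Ω)).Splits := IsAlgClosed.splits _
  have hroots := hsp.eval_eq_prod_roots (algebraMap F Ω b)
  have hev : ∀ z : Ω, (G.map (algebraMap F Ω)).eval z = (ev h)^[R] z - z := by
    intro z
    rw [hG, Polynomial.map_sub, eval_sub, NI.itp_eval, map_X, eval_X]
  rw [hev] at hroots
  rw [hroots, N_mul, leadingCoeff_map, hlead, h2, one_mul] at hR
  by_contra hcon
  push Not at hcon
  have hmem : ∀ c ∈ (G.map (algebraMap F Ω)).roots, 1 ≤ D.N (algebraMap F Ω b - c) := by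
    intro c hc
    rw [N_symm]
    apply hcon c
    have := (mem_roots'.1 hc).2
    rw [IsRoot.def, hev, sub_eq_zero] at this
    exact this
  have key : ∀ s : Multiset Ω, (∀ c ∈ s, 1 ≤ D.N (algebraMap F Ω b - c)) →
      1 ≤ D.N ((s.map fun a => algebraMap F Ω b - a).prod) := by
    intro s
    induction s using Multiset.induction_on with
    | empty => intro _; rw [Multiset.map_zero, Multiset.prod_zero, N_one]
    | cons a s ih =>
      intro hs
      rw [Multiset.map_cons, Multiset.prod_cons, N_mul]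
      exact one_le_mul_of_one_le_of_one_le (hs a (Multiset.mem_cons_self a s))
        (ih fun c hc => hs c (Multiset.mem_cons_of_mem hc))
  have := key _ hmem
  linarith

/-- the automorphisms commute with the map -/
theorem ev_aut_ref (g : Ω ≃ₐ[F] Ω) (z : Ω) (n : ℕ) : (ev h)^[n] (g z) = g ((ev h)^[n] z) := by
  induction n with
  | zero => rfl
  | succ n ih =>
    rw [Function.iterate_succ_apply', Function.iterate_succ_apply', ih]
    exact aeval_algHom_apply (g : Ω →ₐ[F] Ω) _ h

/-- the periodic point close to `b` lies in `F` -/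
theorem exists_perF [CharZero F] [IsAlgClosed Ω] [Algebra.IsAlgebraic F Ω] (hd : 2 ≤ h.natDegree)
    (hg : ∀ i, D.N (algebraMap F Ω (h.coeff i)) ≤ 1) (hl : D.N (algebraMap F Ω h.leadingCoeff) = 1)
    (hb : D.N (algebraMap F Ω b) ≤ 1)
    (hc : ∀ n i, 0 < i → i < h.natDegree →
      D.N (algebraMap F Ω ((taylor ((fun x => eval x h)^[n] b) h).coeff i)) < 1) {m : ℕ} (hm : 1 ≤ m)
    (hmb : D.N (algebraMap F Ω ((fun x => eval x h)^[m] b - b)) < 1) :
    ∃ e : F, (fun x => eval x h)^[m] e = e ∧ D.N (algebraMap F Ω e - algebraMap F Ω b) < 1 := by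
  have hR : D.N ((ev h)^[m] (algebraMap F Ω b) - algebraMap F Ω b) < 1 := by
    rw [ev_algebraMap, ← map_sub]
    exact hmb
  obtain ⟨q, hq1, hq2⟩ := exists_per D hd hl hR hm
  have hcz : CharZero Ω := charZero_of_injective_algebraMap (algebraMap F Ω).injective
  have hN : Normal F Ω := normal_iff.2 fun x =>
    ⟨Algebra.IsIntegral.isIntegral x, IsAlgClosed.splits _⟩
  have hG : IsGalois F Ω := IsGalois.mk
  have hmem : q ∈ (⊥ : IntermediateField F Ω) := by
    rw [← InfiniteGalois.fixedField_fixingSubgroup (⊥ : IntermediateField F Ω),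
      IntermediateField.mem_fixedField_iff]
    intro g _
    by_contra hne
    have h1 : D.N (g q - algebraMap F Ω b) < 1 := by
      rw [← g.commutes b, ← map_sub, D.inv]
      exact hq2
    have h2 := iter_near_lt D hd hg hl hb hc m hm h1 hq2 hne
    rw [ev_aut_ref, hq1] at h2
    exact lt_irrefl _ h2
  rw [IntermediateField.mem_bot] at hmem
  obtain ⟨e, he⟩ := hmem
  refine ⟨e, ?_, by rw [he]; exact hq2⟩
  apply (algebraMap F Ω).injective
  rw [← ev_algebraMap, he]
  exact hq1

/-- the points outside the unit disc -/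
theorem big_pow (hg : ∀ i, D.N (algebraMap F Ω (h.coeff i)) ≤ 1)
    (hl : D.N (algebraMap F Ω h.leadingCoeff) = 1) (n : ℕ) :
    ∀ z : Ω, 1 < D.N ((ev h)^[n] z) → 1 < D.N z ∧ D.N z ^ (h.natDegree ^ n) = D.N ((ev h)^[n] z) := by
  induction n with
  | zero => intro z hz; exact ⟨hz, by rw [pow_zero, pow_one]; rfl⟩
  | succ n ih =>
    intro z hz
    have h1 : 1 < D.N z := not_le.1 fun hcon => absurd (nint D hg hcon (n + 1)) (not_le.2 hz)
    refine ⟨h1, ?_⟩
    rw [Function.iterate_succ_apply] at hz ⊢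
    rw [← (ih (ev h z) hz).2, nbig D hg hl h1, ← pow_mul, pow_succ']

end refpts

section refthm

variable {F Ω : Type*} [Field F] [Field Ω] [Algebra F Ω] [CharZero F] [IsAlgClosed Ω]
    [Algebra.IsAlgebraic F Ω]

/-- **X1** (exact reference points over a local field) -/
theorem exists_ref (D : LocAbs F Ω) (h : F[X]) (hd : 2 ≤ h.natDegree)
    (hg : ∀ i, D.N (algebraMap F Ω (h.coeff i)) ≤ 1) (hl : D.N (algebraMap F Ω h.leadingCoeff) = 1) (b : F)
    (hb : ∀ n, 1 ≤ n → (fun x => eval x h)^[n] b ≠ b)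
    (ht : 1 < D.N (algebraMap F Ω b) ∨
      ((∃ m, 1 ≤ m ∧ D.N (algebraMap F Ω ((fun x => eval x h)^[m] b - b)) < 1) ∧
      ∀ n i, 0 < i → i < h.natDegree → D.N (algebraMap F Ω ((taylor ((fun x => eval x h)^[n] b) h).coeff i)) < 1)) :
    ∃ e : ℕ → F, Ref D h b e := by
  classical
  by_cases hb1 : 1 < D.N (algebraMap F Ω b)
  · have hbig : ∀ n, ∀ z ∈ Node Ω h b n, 1 < D.N z ∧ D.N z ^ (h.natDegree ^ n) = D.N (algebraMap F Ω b) := by
      intro n z hz
      have hz' : (ev h)^[n] z = algebraMap F Ω b := hz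
      have h1 := big_pow D hg hl n z (by rw [hz']; exact hb1)
      rw [hz'] at h1
      exact h1
    refine ⟨fun _ => 0, ⟨fun n => by rw [map_zero, map_zero]; exact zero_le_one,
      Or.inr fun n => ⟨rfl, fun z hz => (hbig n z hz).1⟩, ?_⟩⟩
    intro ε hε
    have hlb : 0 < Real.log (D.N (algebraMap F Ω b)) := Real.log_pos hb1
    obtain ⟨k, hk⟩ := pow_unbounded_of_one_lt (Real.log (D.N (algebraMap F Ω b)) / ε) (one_lt_two)
    refine ⟨k, fun n hn z hz => ?_⟩
    obtain ⟨h1, h2⟩ := hbig n z hz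
    have h3 : ((h.natDegree ^ n : ℕ) : ℝ) * Real.log (D.N z) = Real.log (D.N (algebraMap F Ω b)) := by
      rw [← h2, Real.log_pow]
    have h4 : (2 : ℝ) ^ k ≤ ((h.natDegree ^ n : ℕ) : ℝ) := by
      have h5 : 2 ^ k ≤ h.natDegree ^ n := (Nat.pow_le_pow_right (by norm_num) hn).trans (Nat.pow_le_pow_left hd n)
      exact_mod_cast h5
    have h5 : 0 < Real.log (D.N z) := Real.log_pos h1
    rw [map_zero, sub_zero]
    unfold vv
    rw [abs_neg, abs_of_pos h5]
    rw [div_lt_iff₀ hε] at hk
    have h6 : (2 : ℝ) ^ k * Real.log (D.N z) ≤ Real.log (D.N (algebraMap F Ω b)) := by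
      rw [← h3]
      exact mul_le_mul_of_nonneg_right h4 h5.le
    have h7 : (0 : ℝ) < 2 ^ k := by positivity
    nlinarith
  · rcases ht with ht | ⟨⟨m, hm, hmb⟩, hc⟩
    · exact absurd ht hb1
    rw [not_lt] at hb1
    obtain ⟨e₀, he1, he2⟩ := exists_perF D hd hg hl hb1 hc hm hmb
    set G : F → F := fun x => eval x h with hG
    set β := algebraMap F Ω b with hβ
    have he0 : D.N (algebraMap F Ω e₀) ≤ 1 := by
      have := D.nonarch (algebraMap F Ω e₀ - β) β
      rw [sub_add_cancel] at this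
      exact this.trans (max_le he2.le hb1)
    set e : ℕ → F := fun n => G^[(m - 1) * n] e₀ with he
    have heA : ∀ n, algebraMap F Ω (e n) = (ev h)^[(m - 1) * n] (algebraMap F Ω e₀) := fun n =>
      (ev_algebraMap h e₀ _).symm
    have hint : ∀ n, D.N (algebraMap F Ω (e n)) ≤ 1 := fun n => by
      rw [heA]
      exact nint D hg he0 _
    have hstep : ∀ n, eval (e (n + 1)) h = e n := by
      intro n
      show G (G^[(m - 1) * (n + 1)] e₀) = G^[(m - 1) * n] e₀
      rw [← Function.iterate_succ_apply' G,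
        show ((m - 1) * (n + 1)).succ = (m - 1) * n + m by
          have h1 : (m - 1) * (n + 1) = (m - 1) * n + (m - 1) := by ring
          rw [h1]
          omega, Function.iterate_add_apply, he1]
    have hββ : D.N (β - β) < 1 := by rw [sub_self, map_zero]; exact one_pos
    have htay : ∀ n i, 0 < i → i < h.natDegree → D.N (algebraMap F Ω ((taylor (e n) h).coeff i)) < 1 := by
      intro n i hi hid
      have h1 := taylor_near D hg hb1 hc ((m - 1) * n) (y := algebraMap F Ω (e n)) (by
        rw [heA]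
        exact (iter_near D hd hg hl hb1 hc _ _ _ he2 hββ).trans_lt he2) i hi hid
      rwa [← map_taylor, coeff_map] at h1
    have hθ0 : 0 < D.N (algebraMap F Ω D.π) := D.N.pos ((_root_.map_ne_zero _).2 D.π_ne)
    have hst : ∀ n, ∀ z ∈ Node Ω h b (n + 1), ∃ S T : Ω, ev h z - algebraMap F Ω (e n) = S + T ∧
        D.N S ≤ D.N (algebraMap F Ω D.π) * D.N (z - algebraMap F Ω (e (n + 1))) ∧
        D.N T = D.N (z - algebraMap F Ω (e (n + 1))) ^ h.natDegree ∧
        D.N (z - algebraMap F Ω (e (n + 1))) ≤ 1 := by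
      intro n z hz
      have hz' : (ev h)^[n + 1] z = β := hz
      have h1 : D.N z ≤ 1 := nback D (by omega) hg hl (n + 1) (by rw [hz']; exact hb1)
      have h2 : D.N (z - algebraMap F Ω (e (n + 1))) ≤ 1 := (N_sub_le D _ _).trans (max_le h1 (hint _))
      obtain ⟨S, T, h3, h4, h5⟩ := near_step D hd hl hθ0 (c := e (n + 1))
        (fun i hi hid => le_pi D (htay _ i hi hid)) h2
      rw [hstep] at h3
      exact ⟨S, T, h3, h4, h5, h2⟩
    have hdown : ∀ n, ∀ z ∈ Node Ω h b (n + 1), ev h z ∈ Node Ω h b n := by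
      intro n z hz
      have hz' : (ev h)^[n + 1] z = β := hz
      show (ev h)^[n] (ev h z) = β
      rw [← Function.iterate_succ_apply]
      exact hz'
    have hnear : ∀ n, ∀ z ∈ Node Ω h b n, D.N (z - algebraMap F Ω (e n)) < 1 := by
      intro n
      induction n with
      | zero =>
        intro z hz
        have hz' : z = β := hz
        rw [hz', N_symm, heA]
        exact he2
      | succ n ih =>
        intro z hz
        obtain ⟨S, T, h3, h4, h5, h6⟩ := hst n z hz
        have h7 := ih _ (hdown n z hz)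
        rw [h3] at h7
        refine lt_of_le_of_ne h6 fun h8 => ?_
        rw [h8, mul_one] at h4
        rw [h8, one_pow] at h5
        have h9 : D.N (S + T) = 1 := by
          rw [add_comm, na_add_eq D.N D.nonarch (by rw [h5]; exact h4.trans_lt D.π_lt), h5]
        rw [h9] at h7
        exact lt_irrefl _ h7
    have hne : ∀ n, ∀ z ∈ Node Ω h b n, z ≠ algebraMap F Ω (e n) := by
      intro n z hz h0
      have hz' : (ev h)^[n] z = β := hz
      have h1 : ∀ n, G^[n] (e n) = e₀ := by
        intro n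
        induction n with
        | zero => rfl
        | succ n ih =>
          rw [Function.iterate_succ_apply]
          show G^[n] (eval (e (n + 1)) h) = e₀
          rw [hstep, ih]
      rw [h0, ev_algebraMap] at hz'
      have h2 : e₀ = b := by
        have h3 := (algebraMap F Ω).injective hz'
        rw [← h3]
        exact (h1 n).symm
      rw [h2] at he1
      exact hb m hm he1
    refine ⟨e, ⟨hint, Or.inl fun n => ⟨hstep n, htay n, fun z hz => ⟨hne n z hz, hnear n z hz⟩⟩, ?_⟩⟩
    -- the limit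
    set P := vv D.N (algebraMap F Ω D.π) with hP
    have hP0 : 0 < P := by
      have := Real.log_neg hθ0 D.π_lt
      rw [hP]
      unfold vv
      linarith
    set s₀ := vv D.N (β - algebraMap F Ω (e 0)) with hs0
    have hpos : ∀ n, ∀ z ∈ Node Ω h b n, 0 < vv D.N (z - algebraMap F Ω (e n)) := by
      intro n z hz
      have h1 := Real.log_neg (D.N.pos (sub_ne_zero.2 (hne n z hz))) (hnear n z hz)
      unfold vv
      linarith
    have hs0p : 0 < s₀ := hpos 0 β rfl
    set ρ := max (1 / 2) (1 - P / s₀) with hρ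
    have hρ1 : ρ < 1 := max_lt (by norm_num) (by have := div_pos hP0 hs0p; linarith)
    have hρ0 : 0 < ρ := lt_of_lt_of_le (by norm_num) (le_max_left _ _)
    have hρ2 : (1 - ρ) * s₀ ≤ P := by
      have h1 : 1 - P / s₀ ≤ ρ := le_max_right _ _
      have h2 : 1 - ρ ≤ P / s₀ := by linarith
      calc (1 - ρ) * s₀ ≤ P / s₀ * s₀ := mul_le_mul_of_nonneg_right h2 hs0p.le
        _ = P := div_mul_cancel₀ _ hs0p.ne'
    have hmain : ∀ n, ∀ z ∈ Node Ω h b n, vv D.N (z - algebraMap F Ω (e n)) ≤ s₀ * ρ ^ n := by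
      intro n
      induction n with
      | zero =>
        intro z hz
        have hz' : z = β := hz
        rw [hz', pow_zero, mul_one]
      | succ n ih =>
        intro z hz
        have hy := hdown n z hz
        have h1 := ih _ hy
        have h2 := hpos n _ hy
        have h3 := hpos (n + 1) z hz
        obtain ⟨S, T, h4, h5, h6, h7⟩ := hst n z hz
        set δ := D.N (z - algebraMap F Ω (e (n + 1))) with hδ
        have hδ0 : 0 < δ := D.N.pos (sub_ne_zero.2 (hne (n + 1) z hz))
        have hyy : 0 < D.N (ev h z - algebraMap F Ω (e n)) := D.N.pos (sub_ne_zero.2 (hne n _ hy))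
        have h8 : D.N (ev h z - algebraMap F Ω (e n)) ≤ max (D.N (algebraMap F Ω D.π) * δ) (δ ^ h.natDegree) := by
          rw [h4]
          exact (D.nonarch S T).trans (max_le_max h5 h6.le)
        set s := vv D.N (ev h z - algebraMap F Ω (e n)) with hs
        set s' := vv D.N (z - algebraMap F Ω (e (n + 1))) with hs'
        have hkey : s' ≤ ρ * s := by
          rcases le_max_iff.1 h8 with h9 | h9
          · have h10 := Real.log_le_log hyy h9
            rw [Real.log_mul hθ0.ne' hδ0.ne'] at h10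
            have h11 : P + s' ≤ s := by
              rw [hs, hs', hP]
              unfold vv
              linarith
            have h12 : s ≤ s₀ := h1.trans (mul_le_of_le_one_right hs0p.le (pow_le_one₀ hρ0.le hρ1.le))
            have h13 : (1 - ρ) * s ≤ (1 - ρ) * s₀ := mul_le_mul_of_nonneg_left h12 (by linarith)
            nlinarith
          · have h10 := Real.log_le_log hyy h9
            rw [Real.log_pow] at h10
            have h11 : (h.natDegree : ℝ) * s' ≤ s := by
              rw [hs, hs']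
              unfold vv
              rw [hδ] at h10
              linarith
            have h12 : (2 : ℝ) * s' ≤ h.natDegree * s' :=
              mul_le_mul_of_nonneg_right (by exact_mod_cast hd) h3.le
            have h13 : (1 / 2 : ℝ) * s ≤ ρ * s := mul_le_mul_of_nonneg_right (le_max_left _ _) h2.le
            linarith
        calc s' ≤ ρ * s := hkey
          _ ≤ ρ * (s₀ * ρ ^ n) := mul_le_mul_of_nonneg_left h1 hρ0.le
          _ = s₀ * ρ ^ (n + 1) := by ring
    intro ε hε
    obtain ⟨k, hk⟩ := exists_pow_lt_of_lt_one (div_pos hε hs0p) hρ1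
    refine ⟨k, fun n hn z hz => ?_⟩
    rw [abs_of_pos (hpos n z hz)]
    have h1 : ρ ^ n ≤ ρ ^ k := pow_le_pow_of_le_one hρ0.le hρ1.le hn
    calc vv D.N (z - algebraMap F Ω (e n)) ≤ s₀ * ρ ^ n := hmain n z hz
      _ ≤ s₀ * ρ ^ k := mul_le_mul_of_nonneg_left h1 hs0p.le
      _ ≤ s₀ * (ε / s₀) := mul_le_mul_of_nonneg_left hk.le hs0p.le
      _ = ε := mul_div_cancel₀ _ hs0p.ne'

/-- **X1a** (one step of the tree in the regime) -/
theorem Ref.step {D : LocAbs F Ω} {h : F[X]} (hd : 2 ≤ h.natDegree)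
    (hg : ∀ i, D.N (algebraMap F Ω (h.coeff i)) ≤ 1) (hl : D.N (algebraMap F Ω h.leadingCoeff) = 1) {b : F}
    {e : ℕ → F} (he : Ref D h b e) : ∃ k₂ : ℕ, ∀ n, k₂ ≤ n → ∀ z ∈ Node Ω h b (n + 1),
      D.N (z - algebraMap F Ω (e (n + 1))) ^ h.natDegree = D.N (ev h z - algebraMap F Ω (e n)) ∧
      (∀ i, 0 < i → i < h.natDegree →
        D.N (algebraMap F Ω ((taylor (e (n + 1)) h).coeff i)) * D.N (z - algebraMap F Ω (e (n + 1))) ^ i <
          D.N (z - algebraMap F Ω (e (n + 1))) ^ h.natDegree) := by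
  have hθ0 : 0 < D.N (algebraMap F Ω D.π) := D.N.pos ((_root_.map_ne_zero _).2 D.π_ne)
  rcases he.typ with h1 | h1
  · set P := vv D.N (algebraMap F Ω D.π) with hP
    have hP0 : 0 < P := by
      have := Real.log_neg hθ0 D.π_lt
      rw [hP]
      unfold vv
      linarith
    have hd0 : (0 : ℝ) < h.natDegree := by exact_mod_cast (by omega : 0 < h.natDegree)
    obtain ⟨k, hk⟩ := he.lim (P / h.natDegree) (div_pos hP0 hd0)
    refine ⟨k, fun n hn z hz => ?_⟩
    have h2 := hk (n + 1) (by omega) z hz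
    obtain ⟨hne, hlt⟩ := (h1 (n + 1)).2.2 z hz
    set δ := D.N (z - algebraMap F Ω (e (n + 1))) with hδ
    have hδ0 : 0 < δ := D.N.pos (sub_ne_zero.2 hne)
    have hs : 0 < vv D.N (z - algebraMap F Ω (e (n + 1))) := by
      have := Real.log_neg hδ0 hlt
      unfold vv
      linarith
    rw [abs_of_pos hs] at h2
    have h3 : D.N (algebraMap F Ω D.π) * δ < δ ^ h.natDegree := by
      rw [← Real.log_lt_log_iff (mul_pos hθ0 hδ0) (pow_pos hδ0 _), Real.log_mul hθ0.ne' hδ0.ne', Real.log_pow]
      rw [le_div_iff₀ hd0] at h2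
      have h4 : vv D.N (z - algebraMap F Ω (e (n + 1))) * h.natDegree <
          P + vv D.N (z - algebraMap F Ω (e (n + 1))) := by linarith
      rw [hP] at h4
      unfold vv at h4
      rw [← hδ] at h4
      linarith
    have hc : ∀ i, 0 < i → i < h.natDegree →
        D.N (algebraMap F Ω ((taylor (e (n + 1)) h).coeff i)) ≤ D.N (algebraMap F Ω D.π) :=
      fun i hi hid => le_pi D ((h1 (n + 1)).2.1 i hi hid)
    obtain ⟨S, T, h4, h5, h6⟩ := near_step D hd hl hθ0 (c := e (n + 1)) hc (x := z) hlt.le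
    rw [(h1 n).1] at h4
    constructor
    · rw [h4, add_comm, na_add_eq D.N D.nonarch (by rw [h6]; exact h5.trans_lt h3), h6]
    · intro i hi hid
      refine lt_of_le_of_lt (mul_le_mul (hc i hi hid) (pow_le_of_le_one hδ0.le hlt.le (by omega))
        (pow_nonneg hδ0.le _) hθ0.le) h3
  · refine ⟨0, fun n _ z hz => ?_⟩
    have h2 := (h1 (n + 1)).2 z hz
    rw [(h1 (n + 1)).1, (h1 n).1, map_zero, sub_zero, sub_zero, nbig D hg hl h2, taylor_zero]
    refine ⟨rfl, fun i _ hid => ?_⟩
    calc D.N (algebraMap F Ω (h.coeff i)) * D.N z ^ i ≤ 1 * D.N z ^ i :=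
          mul_le_mul_of_nonneg_right (hg i) (pow_nonneg (D.N.nonneg _) _)
      _ = D.N z ^ i := one_mul _
      _ < D.N z ^ h.natDegree := pow_lt_pow_right₀ h2 hid

end refthm

end Pool.Agent.ORB.GP
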