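import Pool.Agent.ORB.TDefs

/-!
ORB, Theorem W (wild place): definitions.
-/

set_option autoImplicit false

namespace Pool.Agent.ORB.WP

open Polynomial IntermediateField NI GP NumberField IsDedekindDomain

/-- an absolute value on an algebraic closure `Ω` of a field `U`, discrete on `U`, invariant under the automorphisms
of `Ω` over `U`, such that `U` and `Ω` have the same residues -/
structure SLoc (U Ω : Type*) [Field U] [Field Ω] [Algebra U Ω] where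
  /-- the absolute value -/
  N : AbsoluteValue Ω ℝ
  nonarch : ∀ x y : Ω, N (x + y) ≤ max (N x) (N y)
  inv : ∀ (g : Ω ≃ₐ[U] Ω) (x : Ω), N (g x) = N x
  /-- a uniformizer -/
  π : U
  π_ne : π ≠ 0
  π_lt : N (algebraMap U Ω π) < 1
  disc : ∀ x : U, x ≠ 0 → ∃ n : ℤ, N (algebraMap U Ω x) = N (algebraMap U Ω π) ^ n
  res : ∀ x : Ω, N x = 1 → ∃ u : U, N (x - algebraMap U Ω u) < 1

variable {U Ω : Type*} [Field U] [Field Ω] [Algebra U Ω]

/-- the additive value -/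
noncomputable def vv (N : AbsoluteValue Ω ℝ) (x : Ω) : ℝ := -Real.log (N x)

/-- `ϖ` is a uniformizer of the field `E` -/
structure Unif (S : SLoc U Ω) (E : IntermediateField U Ω) (ϖ : Ω) : Prop where
  mem : ϖ ∈ E
  ne : ϖ ≠ 0
  lt : S.N ϖ < 1
  gen : ∀ x ∈ E, x ≠ 0 → ∃ k : ℤ, S.N x = S.N ϖ ^ k

/-- the values of the Taylor coefficients of `h` at the point `x`; `d` is nearly the value of the derivative divided
by `p - 1` -/
structure Step (N : AbsoluteValue Ω ℝ) (h : U[X]) (p : ℕ) (δ Δ : ℝ) (x : Ω) : Prop where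
  top : N ((taylor x (h.map (algebraMap U Ω))).coeff p) = 1
  der : aeval x (derivative h) ≠ 0
  der_ge : ((p : ℝ) - 1) * δ ≤ vv N (aeval x (derivative h))
  der_le : vv N (aeval x (derivative h)) ≤ ((p : ℝ) - 1) * Δ
  mid : ∀ i, 1 < i → i < p → (taylor x (h.map (algebraMap U Ω))).coeff i = 0 ∨
    ((p : ℝ) - i) * Δ < vv N ((taylor x (h.map (algebraMap U Ω))).coeff i)

/-- a polynomial of odd prime degree `p` which is congruent to `a x ^ p + c` at a place above `p` -/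
def WildT {L : Type*} [Field L] [NumberField L] (h : L[X]) : Prop :=
  h.natDegree.Prime ∧ Odd h.natDegree ∧ ∃ v : HeightOneSpectrum (𝓞 L), v.valuation L (h.natDegree : L) < 1 ∧
    (∀ i, v.valuation L (h.coeff i) ≤ 1) ∧ v.valuation L h.leadingCoeff = 1 ∧
    ∀ i, 0 < i → i < h.natDegree → v.valuation L (h.coeff i) < 1

/-- the same over a local field -/
structure WildL {F Ω : Type*} [Field F] [Field Ω] [Algebra F Ω] (D : LocAbs F Ω) (h : F[X]) : Prop where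
  prime : h.natDegree.Prime
  odd : Odd h.natDegree
  pN : D.N ((h.natDegree : ℕ) : Ω) < 1
  coef : ∀ i, D.N (algebraMap F Ω (h.coeff i)) ≤ 1
  lead : D.N (algebraMap F Ω h.leadingCoeff) = 1
  mid : ∀ i, 0 < i → i < h.natDegree → D.N (algebraMap F Ω (h.coeff i)) < 1

/-- exact reference points for the tree above `b`: either a backward orbit of periodic points near the tree, at which
`h` is totally ramified modulo the prime, or `0` if the tree is not integral -/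
structure Ref {F Ω : Type*} [Field F] [Field Ω] [Algebra F Ω] (D : LocAbs F Ω) (h : F[X]) (b : F) (e : ℕ → F) :
    Prop where
  int : ∀ n, D.N (algebraMap F Ω (e n)) ≤ 1
  typ : (∀ n, eval (e (n + 1)) h = e n ∧
      (∀ i, 0 < i → i < h.natDegree → D.N (algebraMap F Ω ((taylor (e n) h).coeff i)) < 1) ∧
      ∀ z ∈ Node Ω h b n, z ≠ algebraMap F Ω (e n) ∧ D.N (z - algebraMap F Ω (e n)) < 1) ∨
    ∀ n, e n = 0 ∧ ∀ z ∈ Node Ω h b n, 1 < D.N z
  lim : ∀ ε : ℝ, 0 < ε → ∃ k₂ : ℕ, ∀ n, k₂ ≤ n → ∀ z ∈ Node Ω h b n,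
    |vv D.N (z - algebraMap F Ω (e n))| ≤ ε

/-- the data of a tree above `b` over `U` for the wild case -/
structure Tree (S : SLoc U Ω) (h : U[X]) (b : U) (p : ℕ) (ψ : Ω → Ω) (δ Δ : ℝ) : Prop where
  prime : p.Prime
  pN : S.N (p : Ω) < 1
  deg : h.natDegree = p
  psi : ψ = id ∨ ψ = fun x => x⁻¹
  δ_pos : 0 < δ
  le : δ ≤ Δ
  Δ_le : 2 * Δ ≤ p * δ
  sep : ∀ n, ∀ x ∈ Node Ω h b (n + 1), aeval x (derivative h) ≠ 0
  int : ∀ n, ∀ x ∈ Node Ω h b n, S.N (ψ x) ≤ 1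
  up : ∀ n k, ∀ x ∈ Node Ω h b (n + k), ∀ x' ∈ Node Ω h b (n + k), (ev h)^[k] x ≠ (ev h)^[k] x' →
    vv S.N (ψ x - ψ x') ≤ Δ / p ^ k
  low : ∀ n k, ∀ x ∈ Node Ω h b (n + 1 + k), ∀ x' ∈ Node Ω h b (n + 1 + k),
    (ev h)^[k + 1] x = (ev h)^[k + 1] x' → (ev h)^[k] x ≠ (ev h)^[k] x' → δ / p ^ k ≤ vv S.N (ψ x - ψ x')
  tran : ∃ k₀, ∀ l, ∀ z ∈ Node Ω h b (k₀ + l), ∀ z' : Ω, (ev h)^[l] z = (ev h)^[l] z' →
    ∃ g : Ω ≃ₐ[U] Ω, g z = z'
  fin : ∀ k₀, ∀ y ∈ Node Ω h b k₀, ∃ k, ∀ z : Ω, (ev h)^[k] z = y → ∀ x ∈ U⟮y⟯,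
    ψ z ≠ x ∧ vv S.N (ψ z - x) ≤ Δ / p ^ k

/-- the local conditions over `U`; `P` is the value of a uniformizer of the small field -/
structure RefU (S : SLoc U Ω) (h : U[X]) (p : ℕ) (P : ℝ) (b : U) (e : ℕ → U) : Prop where
  P_pos : 0 < P
  deg : h.natDegree = p
  prime : p.Prime
  p3 : 3 ≤ p
  pN : (S.N (p : Ω)) < 1
  coef : ∀ i, S.N (algebraMap U Ω (h.coeff i)) ≤ 1
  lead : S.N (algebraMap U Ω h.leadingCoeff) = 1
  int : ∀ n, S.N (algebraMap U Ω (e n)) ≤ 1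
  mid : ∀ n i, 0 < i → i < p → (taylor (e n) h).coeff i = 0 ∨ P ≤ vv S.N (algebraMap U Ω ((taylor (e n) h).coeff i))
  ne : b ≠ e 0
  small : 9 * (p : ℝ) ^ 2 * |vv S.N (algebraMap U Ω (b - e 0))| ≤ P
  typ : ((∀ n, eval (e (n + 1)) h = e n) ∧ 0 < vv S.N (algebraMap U Ω (b - e 0))) ∨
    ((∀ n, e n = 0) ∧ vv S.N (algebraMap U Ω b) < 0)

end Pool.Agent.ORB.WP
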