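import Pool.Agent.ORB.GOrb
import Pool.Agent.ORB.YDefs

/-!
ORB, Theorem V5, row X3: eventual stability from the values of the points of the tree.
-/

set_option autoImplicit false

namespace Pool.Agent.ORB.GP

open Polynomial NI WP NumberField IsDedekindDomain IntermediateField

/-- different monic irreducible factors of `h^n(x) - b`: the sum of the degrees is at most `d ^ n` -/
theorem sum_deg_factors {U : Type*} [Field U] (h : U[X]) (hd : 1 ≤ h.natDegree) (b : U) (n : ℕ) (s : Finset U[X])
    (hs : ∀ P ∈ s, P.Monic ∧ Irreducible P ∧ P ∣ itp h n - Polynomial.C b) :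
    ∑ P ∈ s, P.natDegree ≤ h.natDegree ^ n := by
  classical
  set d := h.natDegree with hdd
  set I := itp h n - Polynomial.C b with hI
  have hdI : (itp h n).natDegree = d ^ n := by
    rw [itp, natDegree_iterate_comp, natDegree_X, mul_one]
  have hdI' : I.natDegree ≤ d ^ n := by
    rw [hI]
    refine (natDegree_sub_le _ _).trans (max_le hdI.le ?_)
    rw [natDegree_C]
    exact Nat.zero_le _
  have hdn : 1 ≤ d ^ n := Nat.one_le_pow _ _ hd
  have hI0 : I ≠ 0 := by
    intro h0
    have h1 : itp h n = Polynomial.C b := sub_eq_zero.1 h0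
    rw [h1, natDegree_C] at hdI
    omega
  have hprod : ∏ P ∈ s, P ∣ I := by
    apply Finset.prod_dvd_of_coprime
    · intro P hP Q hQ hne
      obtain ⟨hm, hirr, -⟩ := hs P hP
      obtain ⟨hm', hirr', -⟩ := hs Q hQ
      show IsCoprime P Q
      rw [hirr.coprime_iff_not_dvd]
      intro hdv
      exact hne (eq_of_monic_of_associated hm hm' (hirr.associated_of_dvd hirr' hdv))
    · intro P hP
      exact (hs P hP).2.2
  rw [← natDegree_prod_of_monic _ _ (fun P hP => (hs P hP).1)]
  exact (natDegree_le_of_dvd hprod hI0).trans hdI'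

/-- a product over a multiset, in terms of values -/
theorem vv_prod {Ω : Type*} [Field Ω] (N : AbsoluteValue Ω ℝ) (m : Multiset Ω) (h0 : ∀ z ∈ m, z ≠ 0) :
    vv N m.prod = (m.map fun z => vv N z).sum := by
  induction m using Multiset.induction_on with
  | empty => simp [vv]
  | cons a m ih =>
    have ha : a ≠ 0 := h0 a (Multiset.mem_cons_self a m)
    have hm : m.prod ≠ 0 := by
      intro h1
      exact h0 0 (Multiset.mem_cons_of_mem (Multiset.prod_eq_zero_iff.1 h1)) rfl
    rw [Multiset.prod_cons, Multiset.map_cons, Multiset.sum_cons,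
      ← ih (fun z hz => h0 z (Multiset.mem_cons_of_mem hz))]
    unfold vv
    rw [map_mul, Real.log_mul ((N.ne_zero_iff).2 ha) ((N.ne_zero_iff).2 hm)]
    ring

/-- the degree of a factor is large -/
theorem deg_factor_ge {U Ω : Type*} [Field U] [Field Ω] [Algebra U Ω] [IsAlgClosed Ω] (S : SLoc U Ω) (h : U[X])
    (b e : U) (C : ℝ) (n : ℕ)
    (h1 : (∀ z ∈ Node Ω h b n, z ≠ algebraMap U Ω e ∧ 0 < vv S.N (z - algebraMap U Ω e)) ∨
      ∀ z ∈ Node Ω h b n, z ≠ algebraMap U Ω e ∧ vv S.N (z - algebraMap U Ω e) < 0)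
    (h2 : ∀ z ∈ Node Ω h b n, |vv S.N (z - algebraMap U Ω e)| * (h.natDegree : ℝ) ^ n ≤ C)
    (P : U[X]) (hm : P.Monic) (hirr : Irreducible P) (hdvd : P ∣ itp h n - Polynomial.C b) :
    vv S.N (algebraMap U Ω S.π) * (h.natDegree : ℝ) ^ n ≤ C * P.natDegree := by
  classical
  -- the roots of `P`
  set R := (P.map (algebraMap U Ω)).roots with hR
  have hsp : (P.map (algebraMap U Ω)).Splits := IsAlgClosed.splits _
  have hcard : Multiset.card R = P.natDegree := by
    rw [hR, ← hsp.natDegree_eq_card_roots, natDegree_map]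
  have hPm : P.map (algebraMap U Ω) = (R.map fun a => X - Polynomial.C a).prod :=
    hsp.eq_prod_roots_of_monic (hm.map _)
  have hnode : ∀ z ∈ R, z ∈ Node Ω h b n := by
    intro z hz
    rw [hR, mem_roots (hm.map _).ne_zero, IsRoot, eval_map_algebraMap] at hz
    obtain ⟨Q, hQ⟩ := hdvd
    have h3 : aeval z (itp h n - Polynomial.C b) = 0 := by rw [hQ, map_mul, hz, zero_mul]
    rw [map_sub, aeval_itp, aeval_C, sub_eq_zero] at h3
    exact h3
  have hev : algebraMap U Ω (eval e P) = (R.map fun z => algebraMap U Ω e - z).prod := by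
    have h3 : algebraMap U Ω (eval e P) = eval (algebraMap U Ω e) (P.map (algebraMap U Ω)) := by
      rw [eval_map_algebraMap, aeval_algebraMap_apply]
      rfl
    rw [h3, hPm, eval_multiset_prod, Multiset.map_map]
    congr 1
    refine Multiset.map_congr rfl fun z _ => ?_
    simp
  have hne : ∀ z ∈ R, z ≠ algebraMap U Ω e := by
    intro z hz
    rcases h1 with h1 | h1
    · exact (h1 z (hnode z hz)).1
    · exact (h1 z (hnode z hz)).1
  have hev0 : eval e P ≠ 0 := by
    intro h0
    rw [h0, map_zero] at hev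
    have h3 := Multiset.prod_eq_zero_iff.1 hev.symm
    obtain ⟨z, hz, hz'⟩ := Multiset.mem_map.1 h3
    exact hne z hz (sub_eq_zero.1 hz').symm
  have hsym : ∀ z : Ω, vv S.N (algebraMap U Ω e - z) = vv S.N (z - algebraMap U Ω e) := by
    intro z
    unfold vv
    rw [← S.N.map_neg, neg_sub]
  have hval : vv S.N (algebraMap U Ω (eval e P)) = (R.map fun z => vv S.N (z - algebraMap U Ω e)).sum := by
    rw [hev, vv_prod, Multiset.map_map]
    · congr 1
      refine Multiset.map_congr rfl fun z _ => ?_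
      exact hsym z
    · intro y hy
      obtain ⟨z, hz, rfl⟩ := Multiset.mem_map.1 hy
      exact sub_ne_zero.2 (hne z hz).symm
  -- the uniformizer
  have hπ0 : algebraMap U Ω S.π ≠ 0 := by
    rw [Ne, map_eq_zero]
    exact S.π_ne
  have hπpos : 0 < vv S.N (algebraMap U Ω S.π) := by
    unfold vv
    have := Real.log_neg (S.N.pos hπ0) S.π_lt
    linarith
  obtain ⟨k, hk⟩ := S.disc (eval e P) hev0
  have hvk : vv S.N (algebraMap U Ω (eval e P)) = k * vv S.N (algebraMap U Ω S.π) := by
    unfold vv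
    rw [hk, Real.log_zpow]
    ring
  -- the number of roots is positive
  have hpos : 0 < P.natDegree := hirr.natDegree_pos
  obtain ⟨z₀, hz₀⟩ : ∃ z, z ∈ R := by
    have : 0 < Multiset.card R := by rw [hcard]; exact hpos
    exact Multiset.card_pos_iff_exists_mem.1 this
  have hsum : vv S.N (algebraMap U Ω S.π) ≤ (R.map fun z => |vv S.N (z - algebraMap U Ω e)|).sum := by
    have key : ∀ x : ℝ, x ≠ 0 → |x| = (R.map fun z => |vv S.N (z - algebraMap U Ω e)|).sum →
        x = k * vv S.N (algebraMap U Ω S.π) →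
        vv S.N (algebraMap U Ω S.π) ≤ (R.map fun z => |vv S.N (z - algebraMap U Ω e)|).sum := by
      intro x hx0 hx1 hx2
      rw [← hx1, hx2, abs_mul, abs_of_pos hπpos]
      have hk0 : k ≠ 0 := by
        rintro rfl
        apply hx0
        rw [hx2]
        simp
      have h3 : (1 : ℝ) ≤ |(k : ℝ)| := by
        have := Int.one_le_abs hk0
        exact_mod_cast this
      nlinarith
    rcases h1 with h1 | h1
    · have e1 : (R.map fun z => |vv S.N (z - algebraMap U Ω e)|) =
          (R.map fun z => vv S.N (z - algebraMap U Ω e)) :=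
        Multiset.map_congr rfl fun z hz => abs_of_pos (h1 z (hnode z hz)).2
      have h4 : 0 < (R.map fun z => vv S.N (z - algebraMap U Ω e)).sum := by
        obtain ⟨t, ht⟩ := Multiset.exists_cons_of_mem hz₀
        rw [ht, Multiset.map_cons, Multiset.sum_cons]
        have h5 : 0 < vv S.N (z₀ - algebraMap U Ω e) := (h1 z₀ (hnode z₀ hz₀)).2
        have h6 : 0 ≤ (t.map fun z => vv S.N (z - algebraMap U Ω e)).sum := by
          refine Multiset.sum_nonneg fun y hy => ?_
          obtain ⟨z, hz, rfl⟩ := Multiset.mem_map.1 hy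
          exact (h1 z (hnode z (by rw [ht]; exact Multiset.mem_cons_of_mem hz))).2.le
        linarith
      refine key _ h4.ne' ?_ ?_
      · rw [abs_of_pos h4, e1]
      · rw [← hvk, hval]
    · have e1 : (R.map fun z => |vv S.N (z - algebraMap U Ω e)|) =
          (R.map fun z => -vv S.N (z - algebraMap U Ω e)) :=
        Multiset.map_congr rfl fun z hz => abs_of_neg (h1 z (hnode z hz)).2
      have e2 : (R.map fun z => -vv S.N (z - algebraMap U Ω e)).sum =
          -(R.map fun z => vv S.N (z - algebraMap U Ω e)).sum := Multiset.sum_map_neg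
      have h4 : (R.map fun z => vv S.N (z - algebraMap U Ω e)).sum < 0 := by
        obtain ⟨t, ht⟩ := Multiset.exists_cons_of_mem hz₀
        rw [ht, Multiset.map_cons, Multiset.sum_cons]
        have h5 : vv S.N (z₀ - algebraMap U Ω e) < 0 := (h1 z₀ (hnode z₀ hz₀)).2
        have h6 : (t.map fun z => vv S.N (z - algebraMap U Ω e)).sum ≤ 0 := by
          have h7 : 0 ≤ (t.map fun z => -vv S.N (z - algebraMap U Ω e)).sum := by
            refine Multiset.sum_nonneg fun y hy => ?_
            obtain ⟨z, hz, rfl⟩ := Multiset.mem_map.1 hy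
            have := (h1 z (hnode z (by rw [ht]; exact Multiset.mem_cons_of_mem hz))).2
            linarith
          rw [Multiset.sum_map_neg] at h7
          linarith
        linarith
      refine key _ h4.ne ?_ ?_
      · rw [abs_of_neg h4, e1, e2]
      · rw [← hvk, hval]
  -- the sum of the absolute values
  have hd0 : (0 : ℝ) ≤ (h.natDegree : ℝ) ^ n := by positivity
  calc vv S.N (algebraMap U Ω S.π) * (h.natDegree : ℝ) ^ n
      ≤ (R.map fun z => |vv S.N (z - algebraMap U Ω e)|).sum * (h.natDegree : ℝ) ^ n :=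
        mul_le_mul_of_nonneg_right hsum hd0
    _ = (R.map fun z => |vv S.N (z - algebraMap U Ω e)| * (h.natDegree : ℝ) ^ n).sum := by
        rw [Multiset.sum_map_mul_right]
    _ ≤ Multiset.card (R.map fun z => |vv S.N (z - algebraMap U Ω e)| * (h.natDegree : ℝ) ^ n) • C := by
        refine Multiset.sum_le_card_nsmul _ _ fun y hy => ?_
        obtain ⟨z, hz, rfl⟩ := Multiset.mem_map.1 hy
        exact h2 z (hnode z hz)
    _ = C * P.natDegree := by
        rw [Multiset.card_map, hcard, nsmul_eq_mul, mul_comm]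

/-- **X3** (eventual stability from the values of the points of the tree) -/
theorem evst_of_val {U Ω : Type*} [Field U] [Field Ω] [Algebra U Ω] [CharZero U] [IsAlgClosed Ω]
    [Algebra.IsAlgebraic U Ω] (S : SLoc U Ω) (h : U[X]) (hd : 2 ≤ h.natDegree) (b : U) (e : ℕ → U) (C : ℝ) (n₀ : ℕ)
    (h1 : (∀ n, n₀ ≤ n → ∀ z ∈ Node Ω h b n, z ≠ algebraMap U Ω (e n) ∧ 0 < vv S.N (z - algebraMap U Ω (e n))) ∨
      ∀ n, n₀ ≤ n → ∀ z ∈ Node Ω h b n, z ≠ algebraMap U Ω (e n) ∧ vv S.N (z - algebraMap U Ω (e n)) < 0)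
    (h2 : ∀ n, n₀ ≤ n → ∀ z ∈ Node Ω h b n, |vv S.N (z - algebraMap U Ω (e n))| * h.natDegree ^ n ≤ C) :
    EvStable h b := by
  classical
  have hπ0 : algebraMap U Ω S.π ≠ 0 := by
    rw [Ne, map_eq_zero]
    exact S.π_ne
  have hπpos : 0 < vv S.N (algebraMap U Ω S.π) := by
    unfold vv
    have := Real.log_neg (S.N.pos hπ0) S.π_lt
    linarith
  refine ⟨max (h.natDegree ^ n₀) ⌈C / vv S.N (algebraMap U Ω S.π)⌉₊, fun n s hs => ?_⟩
  have hsum := sum_deg_factors h (by omega) b n s hs
  rcases Nat.lt_or_ge n n₀ with hn | hn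
  · refine le_trans ?_ (le_max_left _ _)
    have h3 : s.card ≤ ∑ P ∈ s, P.natDegree := by
      rw [Finset.card_eq_sum_ones]
      exact Finset.sum_le_sum fun P hP => (hs P hP).2.1.natDegree_pos
    exact h3.trans (hsum.trans (Nat.pow_le_pow_right (by omega) hn.le))
  · refine le_trans ?_ (le_max_right _ _)
    rcases s.eq_empty_or_nonempty with rfl | ⟨P₀, hP₀⟩
    · simp
    have hfac : ∀ P ∈ s, vv S.N (algebraMap U Ω S.π) * (h.natDegree : ℝ) ^ n ≤ C * P.natDegree := by
      intro P hP
      obtain ⟨hm, hirr, hdvd⟩ := hs P hP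
      refine deg_factor_ge S h b (e n) C n ?_ (h2 n hn) P hm hirr hdvd
      rcases h1 with h1 | h1
      · exact Or.inl (h1 n hn)
      · exact Or.inr (h1 n hn)
    have hdpos : (0 : ℝ) < (h.natDegree : ℝ) ^ n := by
      have : (0 : ℝ) < (h.natDegree : ℝ) := by
        have : 0 < h.natDegree := by omega
        exact_mod_cast this
      positivity
    have hC : 0 ≤ C := by
      have h3 := hfac P₀ hP₀
      have h4 : (0 : ℝ) < (P₀.natDegree : ℝ) := by
        have := (hs P₀ hP₀).2.1.natDegree_pos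
        exact_mod_cast this
      by_contra hcon
      push Not at hcon
      have h5 : C * (P₀.natDegree : ℝ) < 0 := mul_neg_of_neg_of_pos hcon h4
      have h6 := mul_pos hπpos hdpos
      linarith
    have h3 : (s.card : ℝ) * (vv S.N (algebraMap U Ω S.π) * (h.natDegree : ℝ) ^ n) ≤
        C * (h.natDegree : ℝ) ^ n := by
      calc (s.card : ℝ) * (vv S.N (algebraMap U Ω S.π) * (h.natDegree : ℝ) ^ n)
          = ∑ P ∈ s, vv S.N (algebraMap U Ω S.π) * (h.natDegree : ℝ) ^ n := by
            rw [Finset.sum_const, nsmul_eq_mul]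
        _ ≤ ∑ P ∈ s, C * (P.natDegree : ℝ) := Finset.sum_le_sum hfac
        _ = C * ((∑ P ∈ s, P.natDegree : ℕ) : ℝ) := by
            rw [← Finset.mul_sum]
            push_cast
            rfl
        _ ≤ C * (h.natDegree : ℝ) ^ n := by
            refine mul_le_mul_of_nonneg_left ?_ hC
            exact_mod_cast hsum
    have h4 : (s.card : ℝ) * vv S.N (algebraMap U Ω S.π) ≤ C := by
      have h5 : ((s.card : ℝ) * vv S.N (algebraMap U Ω S.π)) * (h.natDegree : ℝ) ^ n ≤
          C * (h.natDegree : ℝ) ^ n := by linarith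
      exact le_of_mul_le_mul_right h5 hdpos
    have h5 : (s.card : ℝ) ≤ C / vv S.N (algebraMap U Ω S.π) := by
      rw [le_div_iff₀ hπpos]
      exact h4
    have h6 : (s.card : ℝ) ≤ (⌈C / vv S.N (algebraMap U Ω S.π)⌉₊ : ℝ) := h5.trans (Nat.le_ceil _)
    exact_mod_cast h6

end Pool.Agent.ORB.GP
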