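import Pool.Agent.ORB.EDefs
import Pool.Agent.ORB.YRef
import Pool.Agent.ORB.YStab
import Pool.Agent.ORB.GOrb
import Pool.Agent.ORB.GEngine
import Pool.Agent.ORB.NLocal

/-!
ORB, Theorem V5 (all degrees), row E7: above a point of a high level there is a local automorphism which permutes
every level in one cycle.
-/

set_option autoImplicit false

namespace Pool.Agent.ORB.GP

open Polynomial NI WP IntermediateField

section cycl

variable {F Ω : Type*} [Field F] [Field Ω] [Algebra F Ω]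

theorem vv_of_pow {N : AbsoluteValue Ω ℝ} {x y : Ω} {d : ℕ} (h : N x ^ d = N y) : vv N y = d * vv N x := by
  rw [vv, vv, ← h, Real.log_pow]
  ring

theorem ev_mapUL (U : IntermediateField F Ω) (h : F[X]) : ev (Ω := Ω) (h.map (algebraMap F U)) = ev h := by
  funext z
  exact aeval_map_algebraMap U z h

theorem node_mapUL (U : IntermediateField F Ω) (h : F[X]) (b : F) (n : ℕ) :
    Node Ω (h.map (algebraMap F U)) (algebraMap F U b) n = Node Ω h b n := by
  unfold Node
  rw [ev_mapUL]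
  rfl

/-- the levels above a point -/
def Lev (h : F[X]) (r : Ω) (n : ℕ) : Set Ω := {z | (ev h)^[n] z = r}

variable (D : LocAbs F Ω) {h : F[X]} {b : F} {e : ℕ → F}

/-- the regime of `Ref.step` -/
def Reg (h : F[X]) (b : F) (e : ℕ → F) (k₂ : ℕ) : Prop :=
  ∀ n, k₂ ≤ n → ∀ z ∈ Node Ω h b (n + 1),
    D.N (z - algebraMap F Ω (e (n + 1))) ^ h.natDegree = D.N (ev h z - algebraMap F Ω (e n)) ∧
    (∀ i, 0 < i → i < h.natDegree →
      D.N (algebraMap F Ω ((taylor (e (n + 1)) h).coeff i)) * D.N (z - algebraMap F Ω (e (n + 1))) ^ i <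
        D.N (z - algebraMap F Ω (e (n + 1))) ^ h.natDegree)

/-- eventual stability over the maximal unramified extension -/
theorem evst_U [CharZero F] [IsAlgClosed Ω] [Algebra.IsAlgebraic F Ω] (hd : 2 ≤ h.natDegree) {k₂ : ℕ}
    (hreg : Reg D h b e k₂) (he : Ref D h b e) (U : IntermediateField F Ω) (S : SLoc U Ω) (hS : S.N = D.N) :
    EvStable (h.map (algebraMap F U)) (algebraMap F U b) := by
  have hdU : (h.map (algebraMap F U)).natDegree = h.natDegree := natDegree_map _
  have hfin := nodeW_finite (W := Ω) h (by omega) b k₂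
  obtain ⟨C, hC⟩ := (hfin.image fun z => |vv D.N (z - algebraMap F Ω (e k₂))| * (h.natDegree : ℝ) ^ k₂).bddAbove
  have halg : Algebra.IsAlgebraic U Ω := Algebra.IsAlgebraic.tower_top (K := F) U
  have hmain : ∀ j, ∀ z ∈ Node Ω h b (k₂ + j),
      |vv D.N (z - algebraMap F Ω (e (k₂ + j)))| * (h.natDegree : ℝ) ^ (k₂ + j) ≤ C := by
    intro j
    induction j with
    | zero => exact fun z hz => hC ⟨z, hz, rfl⟩
    | succ j ih =>
      intro z hz
      have hz' : z ∈ Node Ω h b ((k₂ + j) + 1) := hz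
      have h1 := ih (ev h z) (Node_succ.1 hz')
      have h2 := vv_of_pow (hreg (k₂ + j) (by omega) z hz').1
      rw [h2, abs_mul, Nat.abs_cast] at h1
      rw [show k₂ + (j + 1) = k₂ + j + 1 by omega, pow_succ]
      linarith
  refine evst_of_val S _ (by rw [hdU]; exact hd) _ (fun n => algebraMap F U (e n)) C k₂ ?_ ?_
  · rcases he.typ with h1 | h1
    · refine Or.inl fun n _ z hz => ?_
      rw [node_mapUL] at hz
      obtain ⟨h2, h3⟩ := (h1 n).2.2 z hz
      refine ⟨h2, ?_⟩
      rw [hS, vv]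
      have h4 : 0 < D.N (z - algebraMap F Ω (e n)) := D.N.pos (sub_ne_zero.2 h2)
      have h5 := Real.log_neg h4 h3
      show 0 < -Real.log (D.N (z - algebraMap F Ω (e n)))
      linarith
    · refine Or.inr fun n _ z hz => ?_
      rw [node_mapUL] at hz
      obtain ⟨h2, h3⟩ := h1 n
      have h4 := h3 z hz
      have h6 : algebraMap U Ω (algebraMap F U (e n)) = 0 := by rw [h2, map_zero, map_zero]
      rw [hS, vv, h6, sub_zero]
      refine ⟨?_, ?_⟩
      · rintro rfl
        rw [map_zero] at h4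
        exact absurd h4 (by norm_num)
      · have h5 := Real.log_pos h4
        linarith
  · intro n hn z hz
    rw [node_mapUL] at hz
    obtain ⟨j, rfl⟩ : ∃ j, n = k₂ + j := ⟨n - k₂, by omega⟩
    rw [hS, hdU]
    exact hmain j z hz

theorem mem_lev_succ {r z : Ω} {n : ℕ} : z ∈ Lev h r (n + 1) ↔ ev h z ∈ Lev h r n := by
  show (ev h)^[n + 1] z = r ↔ (ev h)^[n] (ev h z) = r
  rw [Function.iterate_succ_apply]

theorem node_of_lev {k n : ℕ} {r z : Ω} (hr : r ∈ Node Ω h b k) (hz : z ∈ Lev h r n) : z ∈ Node Ω h b (k + n) := by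
  rw [nodeW_iff]
  have h1 : (ev h)^[n] z = r := hz
  rw [h1]
  exact hr

/-- the values of the points of the levels above `r` -/
theorem lev_val (hd : 2 ≤ h.natDegree) {k₂ : ℕ} (hreg : Reg D h b e k₂) {k : ℕ} (hk : k₂ ≤ k) {r : Ω}
    (hr : r ∈ Node Ω h b k) {w : ℕ → Ω} (hw0 : w 0 = r - algebraMap F Ω (e k))
    (hw : ∀ n, w (n + 1) ^ h.natDegree = w n) (n : ℕ) :
    ∀ z ∈ Lev h r n, D.N (z - algebraMap F Ω (e (k + n))) = D.N (w n) := by
  induction n with
  | zero =>
    intro z hz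
    have h1 : z = r := hz
    rw [h1, hw0]
    rfl
  | succ n ih =>
    intro z hz
    have h1 := ih _ (mem_lev_succ.1 hz)
    have hz2 : z ∈ Node Ω h b (k + (n + 1)) := node_of_lev hr hz
    have h2 := (hreg (k + n) (by omega) z hz2).1
    rw [h1, ← hw n, map_pow] at h2
    exact (pow_left_inj₀ (D.N.nonneg _) (D.N.nonneg _) (by omega)).1 h2

theorem w_down {d : ℕ} {w : ℕ → Ω} (hw : ∀ n, w (n + 1) ^ d = w n) (m n : ℕ) : w (m + n) ^ d ^ n = w m := by
  induction n with
  | zero => rw [pow_zero, pow_one, Nat.add_zero]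
  | succ n ih =>
    rw [pow_succ', pow_mul, ← ih, ← hw (m + n)]
    rfl

/-- the points of the levels above `r` lie in the field generated by `r`, `w n` and the roots of unity -/
theorem lev_mem [CharZero F] [IsAlgClosed Ω] [Algebra.IsAlgebraic F Ω] (hd : 2 ≤ h.natDegree)
    (hl : D.N (algebraMap F Ω h.leadingCoeff) = 1) (hdN : D.N ((h.natDegree : ℕ) : Ω) = 1) {k₂ : ℕ}
    (hreg : Reg D h b e k₂) {k : ℕ} (hk : k₂ ≤ k) {r : Ω}
    (hr : r ∈ Node Ω h b k) {w : ℕ → Ω} (hw0 : w 0 = r - algebraMap F Ω (e k))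
    (hw : ∀ n, w (n + 1) ^ h.natDegree = w n) {M : IntermediateField F Ω} (hM : muS D ⊆ M) (hrM : r ∈ M) (n : ℕ) :
    ∀ N, n ≤ N → w N ∈ M → ∀ z ∈ Lev h r n, z ∈ M := by
  induction n with
  | zero =>
    intro N _ _ z hz
    have h1 : z = r := hz
    rw [h1]
    exact hrM
  | succ n ih =>
    intro N hN hwN z hz
    have h1 := lev_val D hd hreg hk hr hw0 hw (n + 1) z hz
    have hz2 : z ∈ Node Ω h b (k + (n + 1)) := node_of_lev hr hz
    have h2 := hreg (k + n) (by omega) z hz2
    have hwn : w (n + 1) ∈ M := by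
      rw [← w_down hw (n + 1) (N - (n + 1)), show n + 1 + (N - (n + 1)) = N by omega]
      exact pow_mem hwN _
    refine key_tot D hl hdN hM (e := algebraMap F Ω (e (k + (n + 1)))) (w := w (n + 1)) (M.algebraMap_mem _) hwn h1
      (fun i hi hid => ?_) (ih N (by omega) hwN _ (mem_lev_succ.1 hz))
    rw [← map_taylor, coeff_map, ← h1]
    exact h2.2 i hi hid

/-- no point of a high level is critical -/
theorem lev_nc (hd : 2 ≤ h.natDegree) (hl : D.N (algebraMap F Ω h.leadingCoeff) = 1)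
    (hdN : D.N ((h.natDegree : ℕ) : Ω) = 1) {k₂ : ℕ} (hreg : Reg D h b e k₂) (he : Ref D h b e) {n : ℕ}
    (hn : k₂ ≤ n) {z : Ω} (hz : z ∈ Node Ω h b (n + 1)) : ¬ Crit h z := by
  intro hcr
  have hne : z - algebraMap F Ω (e (n + 1)) ≠ 0 := by
    rw [sub_ne_zero]
    rcases he.typ with h1 | h1
    · exact ((h1 (n + 1)).2.2 z hz).1
    · intro h2
      have h3 := (h1 (n + 1)).2 z hz
      rw [h2, (h1 (n + 1)).1, map_zero, map_zero] at h3
      exact absurd h3 (by norm_num)
  set s := z - algebraMap F Ω (e (n + 1)) with hs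
  set c := algebraMap F Ω (e (n + 1)) with hc
  set T := taylor c (h.map (algebraMap F Ω)) with hT
  have hTd : T.natDegree = h.natDegree := by rw [hT, natDegree_taylor, natDegree_map]
  have hTl : D.N (T.coeff h.natDegree) = 1 := by
    have h2 : T.coeff h.natDegree = algebraMap F Ω h.leadingCoeff := by
      rw [← hTd]
      show T.leadingCoeff = _
      rw [hT, leadingCoeff_taylor, leadingCoeff_map]
    rw [h2, hl]
  have hTc : ∀ i, 0 < i → i < h.natDegree → D.N (T.coeff i) * D.N s ^ i < D.N s ^ h.natDegree := by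
    intro i hi hid
    rw [hT, hc, ← map_taylor, coeff_map]
    exact (hreg n hn z hz).2 i hi hid
  obtain ⟨m, hm⟩ : ∃ m, h.natDegree = m + 1 := ⟨h.natDegree - 1, by omega⟩
  have hs0 : 0 < D.N s := D.N.pos hne
  have hev : aeval z (derivative h) = (derivative T).eval s := by
    rw [hT, taylor_apply, derivative_comp, derivative_add, derivative_X, derivative_C, add_zero, one_mul,
      derivative_map, eval_comp, eval_add, eval_X, eval_C, hs, sub_add_cancel, eval_map_algebraMap]
  have h4 : (derivative T).natDegree < m + 1 := by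
    have := natDegree_derivative_le T
    omega
  have h5 : D.N ((derivative T).coeff m * s ^ m) = D.N s ^ m := by
    rw [coeff_derivative, map_mul, map_mul, map_pow, ← hm, hTl, one_mul]
    have h6 : D.N ((m : Ω) + 1) = 1 := by
      have h7 := hdN
      rw [hm, Nat.cast_succ] at h7
      exact h7
    rw [h6, one_mul]
  have h8 : D.N (aeval z (derivative h)) = D.N s ^ m := by
    rw [hev, eval_eq_sum_range' h4, Finset.sum_range_succ, add_comm, na_add_eq D.N D.nonarch, h5]
    rw [h5]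
    refine rg_sum_lt D _ _ (pow_pos hs0 _) fun i hi => ?_
    have hi' := Finset.mem_range.1 hi
    rw [coeff_derivative, map_mul, map_mul, map_pow]
    have h6 : D.N ((i : Ω) + 1) ≤ 1 := by
      have := na_nat_le D.N D.nonarch (i + 1)
      rwa [Nat.cast_succ] at this
    have h7 := hTc (i + 1) (by omega) (by omega)
    rw [hm, pow_succ, pow_succ, ← mul_assoc] at h7
    have h9 := lt_of_mul_lt_mul_right h7 hs0.le
    calc D.N (T.coeff (i + 1)) * D.N ((i : Ω) + 1) * D.N s ^ i
        ≤ D.N (T.coeff (i + 1)) * 1 * D.N s ^ i :=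
          mul_le_mul_of_nonneg_right (mul_le_mul_of_nonneg_left h6 (D.N.nonneg _)) (pow_nonneg hs0.le _)
      _ = D.N (T.coeff (i + 1)) * D.N s ^ i := by rw [mul_one]
      _ < D.N s ^ m := h9
  have h9 : aeval z (derivative h) = 0 := hcr
  rw [h9, map_zero] at h8
  exact (pow_pos hs0 m).ne h8

/-- the level `n` has `d ^ n` points -/
theorem ncard_lev [IsAlgClosed Ω] (hd : 1 ≤ h.natDegree) (r : Ω)
    (hav : ∀ c : Ω, Crit h c → ∀ n, (ev h)^[n + 1] c ≠ r) (n : ℕ) :
    (Lev h r n).Finite ∧ (Lev h r n).ncard = h.natDegree ^ n := by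
  classical
  induction n with
  | zero =>
    have h1 : Lev h r 0 = {r} := rfl
    rw [h1]
    exact ⟨Set.finite_singleton r, by rw [Set.ncard_singleton, pow_zero]⟩
  | succ n ih =>
    obtain ⟨h1, h2⟩ := ih
    have hfin : (Lev h r (n + 1)).Finite := fibre_finite' h hd (n + 1) r
    refine ⟨hfin, ?_⟩
    have h3 : ∀ y ∈ Lev h r n, {z : Ω | ev h z = y}.ncard = h.natDegree := by
      intro y hy
      refine ncard_fibre h hd y fun c hc hcy => hav c hc n ?_
      rw [Function.iterate_succ_apply, hcy]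
      exact hy
    rw [Set.ncard_eq_toFinset_card _ hfin, Finset.card_eq_sum_card_fiberwise (f := ev h) (t := h1.toFinset)
      (fun z hz => by
        rw [Finset.mem_coe, Set.Finite.mem_toFinset] at hz ⊢
        exact mem_lev_succ.1 hz)]
    have h4 : ∀ y ∈ h1.toFinset, ({z ∈ hfin.toFinset | ev h z = y}).card = h.natDegree := by
      intro y hy
      rw [Set.Finite.mem_toFinset] at hy
      rw [← h3 y hy, ← Set.ncard_coe_finset]
      congr 1
      ext z
      rw [Finset.mem_coe, Finset.mem_filter, Set.Finite.mem_toFinset, mem_lev_succ]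
      exact ⟨fun h => h.2, fun h => ⟨by
        have h5 : ev _ z = y := h
        rw [h5]
        exact hy, h⟩⟩
    rw [Finset.sum_congr rfl h4, Finset.sum_const, smul_eq_mul, ← Set.ncard_eq_toFinset_card _ h1, h2, pow_succ]

/-- the automorphisms which fix the roots of unity and `r` -/
def InI (r : Ω) (g : Ω ≃ₐ[F] Ω) : Prop := (∀ ζ ∈ muS D, g ζ = ζ) ∧ g r = r

variable {D} in
theorem InI.one (r : Ω) : InI D r (1 : Ω ≃ₐ[F] Ω) := ⟨fun _ _ => rfl, rfl⟩

variable {D} in
theorem InI.mul {r : Ω} {g g' : Ω ≃ₐ[F] Ω} (hg : InI D r g) (hg' : InI D r g') : InI D r (g * g') :=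
  ⟨fun ζ hζ => by rw [AlgEquiv.mul_apply, hg'.1 ζ hζ, hg.1 ζ hζ], by rw [AlgEquiv.mul_apply, hg'.2, hg.2]⟩

variable {D} in
theorem InI.pow {r : Ω} {g : Ω ≃ₐ[F] Ω} (hg : InI D r g) (n : ℕ) : InI D r (g ^ n) := by
  induction n with
  | zero => exact InI.one r
  | succ n ih =>
    rw [pow_succ]
    exact ih.mul hg

/-- two automorphisms of the group which agree on `w` agree on the field generated by it -/
theorem agree {r w : Ω} {g g' : Ω ≃ₐ[F] Ω} (hg : InI D r g) (hg' : InI D r g') (hw : g w = g' w) {z : Ω}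
    (hz : z ∈ adjoin F (insert w (insert r (muS D)))) : g z = g' z := by
  induction hz using adjoin_induction with
  | mem x hx =>
    rcases hx with rfl | rfl | hx
    · exact hw
    · rw [hg.2, hg'.2]
    · rw [hg.1 x hx, hg'.1 x hx]
  | algebraMap x => rw [g.commutes, g'.commutes]
  | add x y _ _ hx hy => rw [map_add, map_add, hx, hy]
  | inv x _ hx => rw [map_inv₀, map_inv₀, hx]
  | mul x y _ _ hx hy => rw [map_mul, map_mul, hx, hy]

/-- **E7** with the maximal unramified extension (X2) as a hypothesis -/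
theorem cyc_local_of [CharZero F] [IsAlgClosed Ω] [Algebra.IsAlgebraic F Ω] (D : LocAbs F Ω) (h : F[X])
    (hd : 2 ≤ h.natDegree)
    (hg : ∀ i, D.N (algebraMap F Ω (h.coeff i)) ≤ 1) (hl : D.N (algebraMap F Ω h.leadingCoeff) = 1)
    (hdN : D.N ((h.natDegree : ℕ) : Ω) = 1) (b : F) (e : ℕ → F) (he : Ref D h b e)
    (hX2 : ∃ S : SLoc (adjoin F (muS D) : IntermediateField F Ω) Ω, S.N = D.N) :
    ∃ k₂ : ℕ, ∀ k, k₂ ≤ k → ∀ r ∈ Node Ω h b k, Cyc h r := by
  classical
  obtain ⟨k₂, hreg⟩ := Ref.step hd hg hl he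
  have hreg' : Reg D h b e k₂ := hreg
  set U : IntermediateField F Ω := adjoin F (muS D) with hU
  obtain ⟨S, hS⟩ := hX2
  have halg : Algebra.IsAlgebraic U Ω := Algebra.IsAlgebraic.tower_top (K := F) U
  have hst := evst_U D hd hreg' he U S hS
  obtain ⟨k₀, hk₀⟩ := exists_tran (W := Ω) (h.map (algebraMap F U)) (by rw [natDegree_map]; omega) _ hst
  refine ⟨max k₀ (k₂ + 1), fun k hk r hr => ?_⟩
  have hk0 : k₀ ≤ k := (le_max_left _ _).trans hk
  have hk1 : k₂ + 1 ≤ k := (le_max_right _ _).trans hk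
  have hk2 : k₂ ≤ k := by omega
  have hrne : r - algebraMap F Ω (e k) ≠ 0 := by
    rw [sub_ne_zero]
    rcases he.typ with h1 | h1
    · exact ((h1 k).2.2 r hr).1
    · intro h2
      have h3 := (h1 k).2 r hr
      rw [h2, (h1 k).1, map_zero, map_zero] at h3
      exact absurd h3 (by norm_num)
  set d := h.natDegree with hdd
  set t := r - algebraMap F Ω (e k) with ht
  have hd0 : d ≠ 0 := by omega
  obtain ⟨w, hw0, hw⟩ := exists_tower hd0 t
  have hwt : ∀ n, w n ^ d ^ n = t := by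
    intro n
    have h1 := w_down hw 0 n
    rw [Nat.zero_add, hw0] at h1
    exact h1
  have hwne : ∀ n, w n ≠ 0 := by
    intro n h0
    have h1 := hwt n
    rw [h0, zero_pow (pow_ne_zero _ hd0)] at h1
    exact hrne h1.symm
  -- transitivity
  have htr : ∀ n, ∀ z ∈ Lev h r n, ∀ z' ∈ Lev h r n, ∃ g : Ω ≃ₐ[F] Ω, InI D r g ∧ g z = z' := by
    intro n z hz z' hz'
    obtain ⟨m, rfl⟩ : ∃ m, k = k₀ + m := ⟨k - k₀, by omega⟩
    have h1 : z ∈ Node Ω h b (k₀ + (m + n)) := by
      have := node_of_lev hr hz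
      rwa [Nat.add_assoc] at this
    have hzr : (ev h)^[n] z = r := hz
    have hzr' : (ev h)^[n] z' = r := hz'
    obtain ⟨g, hg⟩ := hk₀ (m + n) z (by rw [node_mapUL]; exact h1) z' (by
      rw [ev_mapUL, Function.iterate_add_apply, Function.iterate_add_apply, hzr, hzr'])
    refine ⟨g.restrictScalars F, ⟨fun ζ hζ => g.commutes ⟨ζ, subset_adjoin F _ hζ⟩, ?_⟩, hg⟩
    rw [← hzr, ev_aut_iter]
    have h2 : (g.restrictScalars F) z = z' := hg
    rw [h2, hzr, hzr']
  have hav : ∀ c : Ω, Crit h c → ∀ n, (ev h)^[n + 1] c ≠ r := by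
    intro c hc n hcr
    have h1 : c ∈ Node Ω h b (k + (n + 1)) := node_of_lev hr hcr
    exact lev_nc D hd hl hdN hreg' he (n := k + n) (by omega) h1 hc
  have hlev := ncard_lev (by omega : 1 ≤ h.natDegree) r hav
  -- the bijection
  have hbij : ∀ n, ∀ z ∈ Lev h r n, (∀ x : Ω, x ^ d ^ n = t → ∃ g : Ω ≃ₐ[F] Ω, InI D r g ∧ g (w n) = x) ∧
      ∀ g g' : Ω ≃ₐ[F] Ω, InI D r g → InI D r g' → g z = g' z → g (w n) = g' (w n) := by
    intro n z hz
    set B : Set Ω := {x | ∃ g : Ω ≃ₐ[F] Ω, InI D r g ∧ g (w n) = x} with hB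
    set A : Set Ω := {x | x ^ d ^ n = t} with hA
    have hdn : 0 < d ^ n := pow_pos (by omega) n
    have hAs : A ⊆ ((nthRoots (d ^ n) t).toFinset : Set Ω) := by
      intro x hx
      rw [Finset.mem_coe, Multiset.mem_toFinset, mem_nthRoots hdn]
      exact hx
    have hAf : A.Finite := (Finset.finite_toSet _).subset hAs
    have hAc : A.ncard ≤ d ^ n := by
      refine (Set.ncard_le_ncard hAs (Finset.finite_toSet _)).trans ?_
      rw [Set.ncard_coe_finset]
      exact (Multiset.toFinset_card_le _).trans (card_nthRoots _ _)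
    have htg : ∀ g : Ω ≃ₐ[F] Ω, InI D r g → g t = t := by
      intro g hg
      rw [ht, map_sub, hg.2, g.commutes]
    have hBA : B ⊆ A := by
      rintro x ⟨g, hg, rfl⟩
      show g (w n) ^ d ^ n = t
      rw [← map_pow, hwt, htg g hg]
    have hBf : B.Finite := hAf.subset hBA
    set M : IntermediateField F Ω := adjoin F (insert (w n) (insert r (muS D))) with hM
    have hzM : z ∈ M := by
      refine lev_mem D hd hl hdN hreg' hk2 hr hw0 hw (M := M) ?_ ?_ n n le_rfl ?_ z hz
      · exact fun x hx => subset_adjoin F _ (Set.mem_insert_of_mem _ (Set.mem_insert_of_mem _ hx))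
      · exact subset_adjoin F _ (Set.mem_insert_of_mem _ (Set.mem_insert _ _))
      · exact subset_adjoin F _ (Set.mem_insert _ _)
    set φ : Ω → Ω := fun x => if hx : ∃ g : Ω ≃ₐ[F] Ω, InI D r g ∧ g (w n) = x then hx.choose z else z with hφ
    have hφg : ∀ g : Ω ≃ₐ[F] Ω, InI D r g → φ (g (w n)) = g z := by
      intro g hg
      have hx : ∃ g' : Ω ≃ₐ[F] Ω, InI D r g' ∧ g' (w n) = g (w n) := ⟨g, hg, rfl⟩
      show (if hx : ∃ g' : Ω ≃ₐ[F] Ω, InI D r g' ∧ g' (w n) = g (w n) then hx.choose z else z) = g z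
      rw [dif_pos hx]
      exact agree D hx.choose_spec.1 hg hx.choose_spec.2 hzM
    have hLs : Lev h r n ⊆ φ '' B := by
      intro z' hz'
      obtain ⟨g, hg, hgz⟩ := htr n z hz z' hz'
      exact ⟨g (w n), ⟨g, hg, rfl⟩, by rw [hφg g hg, hgz]⟩
    have h1 : d ^ n ≤ (φ '' B).ncard := by
      rw [← (hlev n).2]
      exact Set.ncard_le_ncard hLs (hBf.image _)
    have h2 : (φ '' B).ncard ≤ B.ncard := Set.ncard_image_le hBf
    have h3 : B.ncard ≤ A.ncard := Set.ncard_le_ncard hBA hAf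
    have h4 : B = A := Set.eq_of_subset_of_ncard_le hBA (by omega) hAf
    have h5 : Set.InjOn φ B := Set.injOn_of_ncard_image_eq (by omega) hBf
    refine ⟨fun x hx => ?_, fun g g' hg hg' hgg => ?_⟩
    · have h6 : x ∈ B := by
        rw [h4]
        exact hx
      exact h6
    · exact h5 ⟨g, hg, rfl⟩ ⟨g', hg', rfl⟩ (by rw [hφg g hg, hφg g' hg', hgg])
  -- the generator
  have hCO : CharZero Ω := charZero_of_injective_algebraMap (algebraMap F Ω).injective
  have : NeZero (d : Ω) := ⟨Nat.cast_ne_zero.2 hd0⟩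
  obtain ⟨ζ, hζ⟩ := HasEnoughRootsOfUnity.exists_primitiveRoot Ω d
  obtain ⟨z₁, hz₁⟩ := exists_preG h (by omega) 1 r
  obtain ⟨g, hgI, hg1⟩ := (hbij 1 z₁ hz₁).1 (ζ * w 1) (by
    rw [pow_one, mul_pow, hζ.pow_eq_one, one_mul, hw 0, hw0])
  refine ⟨g, hgI.2, fun n z z' hz hz' => ?_⟩
  set Z : ℕ → Ω := fun n => g (w n) / w n with hZ
  have hZ1 : Z 1 = ζ := by
    show g (w 1) / w 1 = ζ
    rw [hg1, mul_div_cancel_right₀ _ (hwne 1)]
  have hZp : ∀ m n, Z (m + n) ^ d ^ n = Z m := by
    intro m n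
    show (g (w (m + n)) / w (m + n)) ^ d ^ n = g (w m) / w m
    rw [div_pow, ← map_pow, w_down hw]
  have hgt : g t = t := by rw [ht, map_sub, hgI.2, g.commutes]
  have hZ0 : Z 0 = 1 := by
    show g (w 0) / w 0 = 1
    rw [hw0, hgt, div_self hrne]
  have hZmu : ∀ n, Z n ∈ muS D := by
    intro n
    refine ⟨d ^ n, Nat.one_le_pow _ _ (by omega), ?_, ?_⟩
    · have h1 := hZp 0 n
      rwa [Nat.zero_add, hZ0] at h1
    · rw [Nat.cast_pow, map_pow, hdN, one_pow]
  have hgw : ∀ n i, (g ^ i) (w n) = Z n ^ i * w n := by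
    intro n i
    induction i with
    | zero => rw [pow_zero, pow_zero, one_mul]; rfl
    | succ i ih =>
      rw [pow_succ', AlgEquiv.mul_apply, ih, map_mul, map_pow, hgI.1 _ (hZmu n), pow_succ, mul_assoc]
      congr 1
      show g (w n) = g (w n) / w n * w n
      rw [div_mul_cancel₀ _ (hwne n)]
  have hord : ∀ n m, Z n ^ m = 1 → d ^ n ∣ m := by
    intro n
    induction n with
    | zero => exact fun m _ => by rw [pow_zero]; exact one_dvd m
    | succ n ih =>
      intro m hm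
      have h1 : Z n ^ m = 1 := by
        have h2 := hZp n 1
        rw [pow_one] at h2
        rw [← h2, ← pow_mul, mul_comm, pow_mul, hm, one_pow]
      obtain ⟨m', rfl⟩ := ih m h1
      have h2 := hZp 1 n
      rw [hZ1, Nat.add_comm] at h2
      rw [pow_mul, h2] at hm
      rw [pow_succ]
      exact Nat.mul_dvd_mul_left _ (hζ.dvd_of_pow_eq_one m' hm)
  have hfix : ∀ m, (g ^ m) z = z → d ^ n ∣ m := by
    intro m hm
    have h1 := (hbij n z hz).2 (g ^ m) 1 (hgI.pow m) (InI.one r) hm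
    rw [hgw] at h1
    have h2 : Z n ^ m * w n = 1 * w n := by rw [h1, one_mul]; rfl
    exact hord n m (mul_right_cancel₀ (hwne n) h2)
  have hinj : ∀ i j, i ≤ j → j < d ^ n → (g ^ i) z = (g ^ j) z → i = j := by
    intro i j hij hj hgg
    obtain ⟨m, rfl⟩ : ∃ m, j = i + m := ⟨j - i, by omega⟩
    rw [pow_add, AlgEquiv.mul_apply] at hgg
    have h1 := hfix m ((g ^ i).injective hgg).symm
    have h2 := Nat.eq_zero_of_dvd_of_lt h1 (by omega)
    omega
  have hfinL := (hlev n).1
  have himg : (Finset.range (d ^ n)).image (fun i => (g ^ i) z) = hfinL.toFinset := by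
    refine Finset.eq_of_subset_of_card_le ?_ ?_
    · intro x hx
      obtain ⟨i, _, rfl⟩ := Finset.mem_image.1 hx
      rw [Set.Finite.mem_toFinset]
      show (ev h)^[n] ((g ^ i) z) = r
      rw [← ev_aut_iter]
      have h1 : (ev h)^[n] z = r := hz
      rw [h1]
      exact (hgI.pow i).2
    · rw [Finset.card_image_of_injOn, Finset.card_range, ← Set.ncard_eq_toFinset_card _ hfinL, (hlev n).2]
      intro i hi j hj hij
      rw [Finset.coe_range, Set.mem_Iio] at hi hj
      rcases le_total i j with h1 | h1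
      · exact hinj i j h1 hj hij
      · exact (hinj j i h1 hi hij.symm).symm
  have hz'' : z' ∈ hfinL.toFinset := by
    rw [Set.Finite.mem_toFinset]
    exact hz'
  rw [← himg, Finset.mem_image] at hz''
  obtain ⟨i, _, hi⟩ := hz''
  exact ⟨i, hi⟩

/-- the absolute value on the maximal unramified extension -/
theorem slocL [CharZero F] [IsAlgClosed Ω] [Algebra.IsAlgebraic F Ω] (D : LocAbs F Ω) :
    ∃ S : SLoc (adjoin F (muS D) : IntermediateField F Ω) Ω, S.N = D.N := by
  refine ⟨{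
    N := D.N
    nonarch := D.nonarch
    inv := fun g x => D.inv (g.restrictScalars F) x
    π := algebraMap F _ D.π
    π_ne := (_root_.map_ne_zero _).2 D.π_ne
    π_lt := D.π_lt
    disc := fun x hx => ?_
    res := fun x hx => ?_ }, rfl⟩
  · have h1 : (x : Ω) ∈ MF D (algebraMap F Ω D.π) :=
      adjoin.mono F _ _ (Set.subset_insert _ _) x.2
    exact value_MF D le_rfl (pow_one _) h1 fun h0 => hx (Subtype.ext h0)
  · obtain ⟨ζ, hζ, h1⟩ := exists_mu D x hx
    exact ⟨⟨ζ, subset_adjoin F _ hζ⟩, h1⟩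

/-- **E7** (local: one cycle on every level) -/
theorem cyc_local {F Ω : Type*} [Field F] [Field Ω] [Algebra F Ω] [CharZero F] [IsAlgClosed Ω]
    [Algebra.IsAlgebraic F Ω] (D : LocAbs F Ω) (h : F[X]) (hd : 2 ≤ h.natDegree)
    (hg : ∀ i, D.N (algebraMap F Ω (h.coeff i)) ≤ 1) (hl : D.N (algebraMap F Ω h.leadingCoeff) = 1)
    (hdN : D.N ((h.natDegree : ℕ) : Ω) = 1) (b : F) (e : ℕ → F) (he : Ref D h b e) :
    ∃ k₂ : ℕ, ∀ k, k₂ ≤ k → ∀ r ∈ Node Ω h b k, Cyc h r :=
  cyc_local_of D h hd hg hl hdN b e he (slocL D)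

end cycl

end Pool.Agent.ORB.GP
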