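import Pool.Agent.ORB.GHas
import Pool.Agent.ORB.GLoc

/-!
ORB, Theorem V++, row G9: the datum of a map which is conjugate to an iterate of a polynomial whose critical points
are in general position.
-/

set_option autoImplicit false

namespace Pool.Agent.ORB.GP

open Polynomial NI NumberField IsDedekindDomain

universe u

section crit

variable {K Ω W : Type*} [Field K] [Field Ω] [Field W] [Algebra K Ω] [Algebra K W]

theorem aeval_ae (e : Ω ≃ₐ[K] W) (q : K[X]) (z : Ω) : aeval (e z) q = e (aeval z q) := by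
  rw [← AlgEquiv.coe_toAlgHom e, aeval_algHom_apply]

theorem ev_ae (e : Ω ≃ₐ[K] W) (h : K[X]) (z : Ω) : ev h (e z) = e (ev h z) := aeval_ae e h z

theorem ev_ae_iter (e : Ω ≃ₐ[K] W) (h : K[X]) (n : ℕ) (z : Ω) : (ev h)^[n] (e z) = e ((ev h)^[n] z) := by
  induction n with
  | zero => rfl
  | succ n ih => rw [Function.iterate_succ_apply', Function.iterate_succ_apply', ih, ev_ae]

theorem crit_ae (e : Ω ≃ₐ[K] W) (h : K[X]) (z : Ω) : Crit h (e z) ↔ Crit h z := by
  unfold Crit
  rw [aeval_ae, map_eq_zero_iff e e.injective]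

theorem simp_ae (e : Ω ≃ₐ[K] W) (h : K[X]) (z : Ω) : Simp h (e z) ↔ Simp h z := by
  unfold Simp
  rw [aeval_ae, aeval_ae, map_eq_zero_iff e e.injective, Ne, Ne, map_eq_zero_iff e e.injective]

theorem wand_ae (e : Ω ≃ₐ[K] W) (h : K[X]) (z : Ω) : Wand h (e z) ↔ Wand h z := by
  unfold Wand
  have h1 : (fun n : ℕ => (ev h)^[n] (e z)) = e ∘ fun n : ℕ => (ev h)^[n] z := by
    funext n
    exact ev_ae_iter e h n z
  rw [h1]
  exact e.injective.of_comp_iff _

/-- the condition does not depend on the algebraic closure -/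
theorem CritCond.ae (e : Ω ≃ₐ[K] W) {h : K[X]} (hc : CritCond h Ω) : CritCond h W := by
  have hroot : ∀ z : Ω, rootMultiplicity (e z) ((derivative h).map (algebraMap K W)) =
      rootMultiplicity z ((derivative h).map (algebraMap K Ω)) := by
    intro z
    have h1 : ((derivative h).map (algebraMap K Ω)).map (e : Ω →+* W) = (derivative h).map (algebraMap K W) := by
      rw [Polynomial.map_map]
      congr 1
      exact RingHom.ext fun x => e.commutes x
    rw [← h1]
    exact (eq_rootMultiplicity_map (f := (e : Ω →+* W)) e.injective z).symm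
  refine ⟨?_, ?_, ?_⟩
  · intro c h1 h2
    obtain ⟨z, rfl⟩ := e.surjective c
    rw [crit_ae] at h1
    rw [wand_ae] at h2
    rw [simp_ae, hroot]
    exact hc.odd z h1 h2
  · obtain ⟨z, h1, h2⟩ := hc.ex
    exact ⟨e z, (simp_ae e h z).2 h1, (wand_ae e h z).2 h2⟩
  · intro c c' h1 h2 h3 h4 h5
    obtain ⟨z, rfl⟩ := e.surjective c
    obtain ⟨z', rfl⟩ := e.surjective c'
    rw [simp_ae] at h1 h2
    rw [wand_ae] at h3 h4
    rw [ev_ae, ev_ae] at h5
    rw [hc.sep z z' h1 h2 h3 h4 (e.injective h5)]

/-- the condition for the polynomial over a larger field -/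
theorem CritCond.tower {F : Type*} [Field F] [Algebra K F] [Algebra F W] [IsScalarTower K F W] {h : K[X]}
    (hc : CritCond h W) : CritCond (h.map (algebraMap K F)) W := by
  have hev : (ev (h.map (algebraMap K F)) : W → W) = ev h := by
    funext z
    exact aeval_map_algebraMap F z h
  have hd : ∀ z : W, aeval z (derivative (h.map (algebraMap K F))) = aeval z (derivative h) := by
    intro z
    rw [derivative_map, aeval_map_algebraMap]
  have hdd : ∀ z : W, aeval z (derivative (derivative (h.map (algebraMap K F)))) =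
      aeval z (derivative (derivative h)) := by
    intro z
    rw [derivative_map, derivative_map, aeval_map_algebraMap]
  have hcrit : ∀ z : W, Crit (h.map (algebraMap K F)) z ↔ Crit h z := by
    intro z
    unfold Crit
    rw [hd]
  have hsimp : ∀ z : W, Simp (h.map (algebraMap K F)) z ↔ Simp h z := by
    intro z
    unfold Simp
    rw [hd, hdd]
  have hwand : ∀ z : W, Wand (h.map (algebraMap K F)) z ↔ Wand h z := by
    intro z
    unfold Wand
    rw [hev]
  have hmap : (derivative (h.map (algebraMap K F))).map (algebraMap F W) =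
      (derivative h).map (algebraMap K W) := by
    rw [derivative_map, Polynomial.map_map, ← IsScalarTower.algebraMap_eq]
  refine ⟨?_, ?_, ?_⟩
  · intro c h1 h2
    rw [hcrit] at h1
    rw [hwand] at h2
    rw [hsimp, hmap]
    exact hc.odd c h1 h2
  · obtain ⟨z, h1, h2⟩ := hc.ex
    exact ⟨z, (hsimp z).2 h1, (hwand z).2 h2⟩
  · intro c c' h1 h2 h3 h4 h5
    rw [hsimp] at h1 h2
    rw [hwand] at h3 h4
    rw [hev] at h5
    exact hc.sep c c' h1 h2 h3 h4 h5

end crit

/-- **G9**, from the extension property and the extension of the field of a stable pair -/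
theorem hasDatum_gen_of
    (HE : ∀ (F W : Type u) [Field F] [NumberField F] [Field W] [Algebra F W] [IsAlgClosed W]
      [Algebra.IsAlgebraic F W] (h : F[X]) (_ : 2 ≤ h.natDegree) (_ : Nat.Coprime h.natDegree 6)
      (_ : CritCond h W) (b : F) (_ : Function.Injective fun n : ℕ => (fun x => eval x h)^[n] b)
      (_ : EvStable h b), ExtR W (polyRP h) (b : OnePoint F))
    (HX : ∀ (L L' : Type u) [Field L] [CharZero L] [Field L'] [Algebra L L'] [FiniteDimensional L L']
      (h : L[X]) (_ : 1 ≤ h.natDegree) (b : L) (_ : EvStable h b),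
      EvStable (h.map (algebraMap L L')) (algebraMap L L' b))
    {K : Type u} [Field K] [NumberField K] (f : RatFunc K) (β : OnePoint K)
    (hβ : Function.Injective fun n : ℕ => (ract (RingHom.id K) f)^[n] β) (h : GenConj f β) :
    HasDatum f β := by
  obtain ⟨K1, _, _, _, g, k, μ, b, hd, h6, hk, hμ, hconj, hb, hcrit, hst⟩ := h
  rw [ract_id] at hβ
  have hd1 : 1 ≤ g.natDegree := by omega
  have haK1 : Algebra.IsAlgebraic K K1 := Algebra.IsAlgebraic.tower_top (K := ℚ) K
  have hfd : FiniteDimensional K K1 := Module.Finite.of_restrictScalars_finite ℚ K K1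
  let ψ : K1 →ₐ[K] AlgebraicClosure K := IsAlgClosed.lift
  refine ⟨Set.range fun i => ψ (Module.finBasis K K1 i), Set.finite_range _, ?_⟩
  intro F _ _ _ _ _ hT
  have haFW : Algebra.IsAlgebraic F (AlgebraicClosure K) := Algebra.IsAlgebraic.tower_top (K := K) F
  obtain ⟨φ, hφ1, hφ2⟩ := exists_hom (F := F) ψ fun t ht => hT t ht
  let _ : Algebra K1 F := φ.toAlgebra
  let _ : Algebra K1 (AlgebraicClosure K) := (ψ : K1 →+* AlgebraicClosure K).toAlgebra
  have hst1 : IsScalarTower K1 F (AlgebraicClosure K) := IsScalarTower.of_algebraMap_eq' hφ1.symm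
  have haK1F : Algebra.IsAlgebraic K1 F := Algebra.IsAlgebraic.tower_top (K := ℚ) K1
  have haK1W : Algebra.IsAlgebraic K1 (AlgebraicClosure K) := Algebra.IsAlgebraic.trans K1 F _
  have hcl : IsAlgClosure K1 (AlgebraicClosure K) := ⟨inferInstance, haK1W⟩
  have hKW : (ψ : K1 →+* AlgebraicClosure K).comp (algebraMap K K1) = algebraMap K (AlgebraicClosure K) :=
    RingHom.ext fun x => ψ.commutes x
  -- the conjugacy over `K1`
  have hc1 : ∀ x : OnePoint K1, ((RP.ofRat f).map (algebraMap K K1)).act ((RP.ofRat μ).act x) =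
      (RP.ofRat μ).act ((polyRP g).act^[k] x) := by
    intro x
    have h1 := hconj x
    rw [ract_fun_eq, ract_id, ract_id] at h1
    exact h1
  have hc2 := conj_ext hc1 (ψ : K1 →+* AlgebraicClosure K)
  rw [RP.map_map, hKW] at hc2
  have hb1 : (RP.ofRat μ).act (b : OnePoint K1) = pmap (algebraMap K K1) β := by
    rw [← ract_id]
    exact hb
  -- `b` is wandering
  have hwb : Function.Injective fun n : ℕ => (polyRP g).act^[n] (b : OnePoint K1) := by
    by_contra hno
    have h1 := iter_pre _ _ hk hno
    apply h1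
    intro m n hmn
    apply hβ
    apply pmap_injective (algebraMap K K1)
    simp only at hmn ⊢
    rw [← RP.act_map_iterate, ← RP.act_map_iterate, ← hb1, semiconj_iterate _ _ _ hc1,
      semiconj_iterate _ _ _ hc1, hmn]
  have hwb' : Function.Injective fun n : ℕ => (fun x => eval x g)^[n] b := by
    intro m n hmn
    apply hwb
    simp only at hmn ⊢
    rw [polyRP_act' g hd1, pact_iterate_coe, pact_iterate_coe, hmn]
  have hstb : EvStable g b := by
    rcases hst with h1 | h1
    · exact h1
    · refine EvStable.of_loc hd (fun n hn h2 => ?_) h1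
      have h3 : (fun n : ℕ => (fun x => eval x g)^[n] b) n = (fun n : ℕ => (fun x => eval x g)^[n] b) 0 := h2
      have := hwb' h3
      omega
  have hgF : (g.map φ).natDegree = g.natDegree := natDegree_map φ
  have hwφ : Function.Injective fun n : ℕ => (fun x => eval x (g.map φ))^[n] (φ b) := by
    intro m n hmn
    apply hwb'
    apply φ.injective
    simp only at hmn ⊢
    rw [ev_map φ g b m, ev_map φ g b n, hmn]
  have hcF : CritCond (g.map φ) (AlgebraicClosure K) :=
    (hcrit.ae (IsAlgClosure.equiv K1 (AlgebraicClosure K1) (AlgebraicClosure K))).tower (F := F)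
  have hfdF : FiniteDimensional K1 F := Module.Finite.of_restrictScalars_finite ℚ K1 F
  have hstF : EvStable (g.map φ) (φ b) := HX K1 F g hd1 b hstb
  have hext : ExtR (AlgebraicClosure K) (polyRP (g.map φ)) ((φ b : F) : OnePoint F) :=
    HE F (AlgebraicClosure K) (g.map φ) (by rw [hgF]; exact hd) (by rw [hgF]; exact h6) hcF (φ b) hwφ hstF
  -- the action on the closure
  have hact : ((polyRP (g.map φ)).map (algebraMap F (AlgebraicClosure K))).act =
      ((polyRP g).map (ψ : K1 →+* AlgebraicClosure K)).act := by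
    rw [polyRP_act _ _ (by rw [hgF]; exact hd1), polyRP_act _ _ hd1, Polynomial.map_map, hφ1]
  refine ⟨polyRP (g.map φ), k, (RP.ofRat μ).map φ, ((φ b : F) : OnePoint F), ?_, hk, hμ, ?_, ?_, ?_⟩
  · rw [polyRP_d, hgF]
    exact hd1
  · rw [← pmap_coe φ b, RP.act_map, hb1, pmap_comp, hφ2]
  · intro x
    rw [RP.map_map, hφ1, hact]
    exact hc2 x
  · intro y hy
    obtain ⟨hy1, hy2 | ⟨⟨m, hm, hper⟩, -⟩⟩ := hy
    · exact ⟨((φ b : F) : OnePoint F), hy2, hext⟩
    · exfalso
      rw [polyRP_act' _ (by rw [hgF]; exact hd1), pact_iterate_coe, OnePoint.coe_eq_coe] at hper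
      have h3 : (fun n : ℕ => (fun x => eval x (g.map φ))^[n] (φ b)) m =
          (fun n : ℕ => (fun x => eval x (g.map φ))^[n] (φ b)) 0 := hper
      have := hwφ h3
      omega

end Pool.Agent.ORB.GP
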