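import Pool.Agent.ORB.TDefs
import Pool.Agent.ORB.GDatum

/-!
ORB, Theorem V3 (odd degrees), rows T5a, T5: the extension of the field and the datum.
-/

set_option autoImplicit false

namespace Pool.Agent.ORB.GP

open Polynomial NI NumberField IsDedekindDomain

universe u

/-- **T5a** -/
theorem TamT.ext {K K' : Type u} [Field K] [NumberField K] [Field K'] [NumberField K'] [Algebra K K'] {h : K[X]}
    {b : K} (ht : TamT h b) : TamT (h.map (algebraMap K K')) (algebraMap K K' b) := by
  obtain ⟨v, hg, hl, hdv, ho⟩ := ht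
  obtain ⟨⟨Q, hQ1, hQ2⟩⟩ := v.asIdeal.nonempty_primesOver (S := 𝓞 K')
  have hQ0 : Q ≠ ⊥ := Ideal.ne_bot_of_mem_primesOver v.ne_bot ⟨hQ1, hQ2⟩
  let P : HeightOneSpectrum (𝓞 K') := ⟨Q, hQ1, hQ0⟩
  have hlo : P.asIdeal.LiesOver v.asIdeal := hQ2
  set φ := algebraMap K K' with hφ
  have hone : ∀ x : K, v.valuation K x = 1 → P.valuation K' (φ x) = 1 := by
    intro x hx
    refine le_antisymm ((val_le_iff v P _).2 hx.le) ?_
    by_contra hlt
    push Not at hlt
    exact absurd ((val_lt_iff v P _).1 hlt) (by rw [hx]; exact lt_irrefl _)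
  refine ⟨P, fun i => ?_, ?_, ?_, ?_⟩
  · rw [coeff_map]
    exact (val_le_iff v P _).2 (hg i)
  · rw [leadingCoeff_map]
    exact hone _ hl
  · rw [natDegree_map, ← map_natCast φ]
    exact hone _ hdv
  · rcases ho with hb | ⟨⟨m, hm, hper⟩, hc⟩
    · left
      rw [← not_le] at hb ⊢
      exact fun h1 => hb ((val_le_iff v P b).1 h1)
    · refine Or.inr ⟨⟨m, hm, ?_⟩, fun n i hi hid => ?_⟩
      · rw [← ev_map, ← map_sub]
        exact (val_lt_iff v P _).2 hper
      · rw [← ev_map, ← map_taylor, coeff_map]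
        rw [natDegree_map] at hid
        exact (val_lt_iff v P _).2 (hc n i hi hid)

/-- over a finite extension `K1` of `K` the map `f` is conjugate by a linear fractional map `μ` to an iterate of a
polynomial `h` of odd degree whose critical points are in general position, and the pair `(h, b)` satisfies `TamT`,
where `b` is the point which corresponds to `β` -/
def OddConj {K : Type u} [Field K] [NumberField K] (f : RatFunc K) (β : OnePoint K) : Prop :=
  ∃ (K1 : Type u) (_ : Field K1) (_ : NumberField K1) (_ : Algebra K K1) (h : K1[X]) (k : ℕ)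
    (μ : RatFunc K1) (b : K1), 2 ≤ h.natDegree ∧ Odd h.natDegree ∧ 1 ≤ k ∧ rdeg μ = 1 ∧
    (∀ x : OnePoint K1, ract (algebraMap K K1) f (ract (RingHom.id K1) μ x) =
      ract (RingHom.id K1) μ ((ract (RingHom.id K1) (algebraMap K1[X] (RatFunc K1) h))^[k] x)) ∧
    ract (RingHom.id K1) μ (b : OnePoint K1) = OnePoint.map (algebraMap K K1) β ∧
    CritCond h (AlgebraicClosure K1) ∧ TamT h b

/-- **T5**, general form: a condition `Cnd` on pairs which is inherited by finite extensions of the field and which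
gives the extension property -/
theorem hasDatum_cnd_of (Cnd : ∀ (L : Type u) [Field L] [NumberField L], L[X] → L → Prop)
    (HX : ∀ (L L' : Type u) [Field L] [NumberField L] [Field L'] [NumberField L'] [Algebra L L'] (h : L[X]) (b : L)
      (_ : Cnd L h b), Cnd L' (h.map (algebraMap L L')) (algebraMap L L' b))
    (HE : ∀ (F W : Type u) [Field F] [NumberField F] [Field W] [Algebra F W] [IsAlgClosed W]
      [Algebra.IsAlgebraic F W] (h : F[X]) (_ : 2 ≤ h.natDegree)
      (_ : CritCond h W) (b : F) (_ : Function.Injective fun n : ℕ => (fun x => eval x h)^[n] b)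
      (_ : Cnd F h b), ExtR W (polyRP h) (b : OnePoint F))
    {K : Type u} [Field K] [NumberField K] (f : RatFunc K) (β : OnePoint K)
    (hβ : Function.Injective fun n : ℕ => (ract (RingHom.id K) f)^[n] β)
    (h : ∃ (K1 : Type u) (_ : Field K1) (_ : NumberField K1) (_ : Algebra K K1) (h : K1[X]) (k : ℕ)
      (μ : RatFunc K1) (b : K1), 2 ≤ h.natDegree ∧ 1 ≤ k ∧ rdeg μ = 1 ∧
      (∀ x : OnePoint K1, ract (algebraMap K K1) f (ract (RingHom.id K1) μ x) =
        ract (RingHom.id K1) μ ((ract (RingHom.id K1) (algebraMap K1[X] (RatFunc K1) h))^[k] x)) ∧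
      ract (RingHom.id K1) μ (b : OnePoint K1) = OnePoint.map (algebraMap K K1) β ∧
      CritCond h (AlgebraicClosure K1) ∧ Cnd K1 h b) :
    HasDatum f β := by
  obtain ⟨K1, _, _, _, g, k, μ, b, hd, hk, hμ, hconj, hb, hcrit, ht⟩ := h
  rw [ract_id] at hβ
  have hd1 : 1 ≤ g.natDegree := by omega
  have haK1 : Algebra.IsAlgebraic K K1 := Algebra.IsAlgebraic.tower_top (K := ℚ) K
  have hfd : FiniteDimensional K K1 := Module.Finite.of_restrictScalars_finite ℚ K K1
  let ψ : K1 →ₐ[K] AlgebraicClosure K := IsAlgClosed.lift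
  refine ⟨Set.range fun i => ψ (Module.finBasis K K1 i), Set.finite_range _, ?_⟩
  intro F _ _ _ _ _ hT
  have haFW : Algebra.IsAlgebraic F (AlgebraicClosure K) := Algebra.IsAlgebraic.tower_top (K := K) F
  obtain ⟨φ, hφ1, hφ2⟩ := exists_hom (F := F) ψ fun t ht => hT t ht
  let _ : Algebra K1 F := φ.toAlgebra
  let _ : Algebra K1 (AlgebraicClosure K) := (ψ : K1 →+* AlgebraicClosure K).toAlgebra
  have hst1 : IsScalarTower K1 F (AlgebraicClosure K) := IsScalarTower.of_algebraMap_eq' hφ1.symm
  have haK1F : Algebra.IsAlgebraic K1 F := Algebra.IsAlgebraic.tower_top (K := ℚ) K1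
  have haK1W : Algebra.IsAlgebraic K1 (AlgebraicClosure K) := Algebra.IsAlgebraic.trans K1 F _
  have hcl : IsAlgClosure K1 (AlgebraicClosure K) := ⟨inferInstance, haK1W⟩
  have hKW : (ψ : K1 →+* AlgebraicClosure K).comp (algebraMap K K1) = algebraMap K (AlgebraicClosure K) :=
    RingHom.ext fun x => ψ.commutes x
  -- the conjugacy over `K1`
  have hc1 : ∀ x : OnePoint K1, ((RP.ofRat f).map (algebraMap K K1)).act ((RP.ofRat μ).act x) =
      (RP.ofRat μ).act ((polyRP g).act^[k] x) := by
    intro x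
    have h1 := hconj x
    rw [ract_fun_eq, ract_id, ract_id] at h1
    exact h1
  have hc2 := conj_ext hc1 (ψ : K1 →+* AlgebraicClosure K)
  rw [RP.map_map, hKW] at hc2
  have hb1 : (RP.ofRat μ).act (b : OnePoint K1) = pmap (algebraMap K K1) β := by
    rw [← ract_id]
    exact hb
  -- `b` is wandering
  have hwb : Function.Injective fun n : ℕ => (polyRP g).act^[n] (b : OnePoint K1) := by
    by_contra hno
    have h1 := iter_pre _ _ hk hno
    apply h1
    intro m n hmn
    apply hβ
    apply pmap_injective (algebraMap K K1)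
    simp only at hmn ⊢
    rw [← RP.act_map_iterate, ← RP.act_map_iterate, ← hb1, semiconj_iterate _ _ _ hc1,
      semiconj_iterate _ _ _ hc1, hmn]
  have hwb' : Function.Injective fun n : ℕ => (fun x => eval x g)^[n] b := by
    intro m n hmn
    apply hwb
    simp only at hmn ⊢
    rw [polyRP_act' g hd1, pact_iterate_coe, pact_iterate_coe, hmn]
  have hgF : (g.map φ).natDegree = g.natDegree := natDegree_map φ
  have hwφ : Function.Injective fun n : ℕ => (fun x => eval x (g.map φ))^[n] (φ b) := by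
    intro m n hmn
    apply hwb'
    apply φ.injective
    simp only at hmn ⊢
    rw [ev_map φ g b m, ev_map φ g b n, hmn]
  have hcF : CritCond (g.map φ) (AlgebraicClosure K) :=
    (hcrit.ae (IsAlgClosure.equiv K1 (AlgebraicClosure K1) (AlgebraicClosure K))).tower (F := F)
  have htF : Cnd F (g.map φ) (φ b) := HX K1 F g b ht
  have hext : ExtR (AlgebraicClosure K) (polyRP (g.map φ)) ((φ b : F) : OnePoint F) :=
    HE F (AlgebraicClosure K) (g.map φ) (by rw [hgF]; exact hd) hcF (φ b) hwφ htF
  -- the action on the closure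
  have hact : ((polyRP (g.map φ)).map (algebraMap F (AlgebraicClosure K))).act =
      ((polyRP g).map (ψ : K1 →+* AlgebraicClosure K)).act := by
    rw [polyRP_act _ _ (by rw [hgF]; exact hd1), polyRP_act _ _ hd1, Polynomial.map_map, hφ1]
  refine ⟨polyRP (g.map φ), k, (RP.ofRat μ).map φ, ((φ b : F) : OnePoint F), ?_, hk, hμ, ?_, ?_, ?_⟩
  · rw [polyRP_d, hgF]
    exact hd1
  · rw [← pmap_coe φ b, RP.act_map, hb1, pmap_comp, hφ2]
  · intro x
    rw [RP.map_map, hφ1, hact]
    exact hc2 x
  · intro y hy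
    obtain ⟨hy1, hy2 | ⟨⟨m, hm, hper⟩, -⟩⟩ := hy
    · exact ⟨((φ b : F) : OnePoint F), hy2, hext⟩
    · exfalso
      rw [polyRP_act' _ (by rw [hgF]; exact hd1), pact_iterate_coe, OnePoint.coe_eq_coe] at hper
      have h3 : (fun n : ℕ => (fun x => eval x (g.map φ))^[n] (φ b)) m =
          (fun n : ℕ => (fun x => eval x (g.map φ))^[n] (φ b)) 0 := hper
      have := hwφ h3
      omega

/-- **T5**, from the extension property -/
theorem hasDatum_odd_of
    (HE : ∀ (F W : Type u) [Field F] [NumberField F] [Field W] [Algebra F W] [IsAlgClosed W]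
      [Algebra.IsAlgebraic F W] (h : F[X]) (_ : 2 ≤ h.natDegree) (_ : Odd h.natDegree)
      (_ : CritCond h W) (b : F) (_ : Function.Injective fun n : ℕ => (fun x => eval x h)^[n] b)
      (_ : TamT h b), ExtR W (polyRP h) (b : OnePoint F))
    {K : Type u} [Field K] [NumberField K] (f : RatFunc K) (β : OnePoint K)
    (hβ : Function.Injective fun n : ℕ => (ract (RingHom.id K) f)^[n] β) (h : OddConj f β) :
    HasDatum f β := by
  refine hasDatum_cnd_of (fun L _ _ h b => Odd h.natDegree ∧ TamT h b) (fun L L' _ _ _ _ _ h b hc => ?_)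
    (fun F W _ _ _ _ _ _ h hd hcr b hb hc => HE F W h hd hc.1 hcr b hb hc.2) f β hβ ?_
  · exact ⟨by rw [natDegree_map]; exact hc.1, hc.2.ext⟩
  · obtain ⟨K1, i1, i2, i3, g, k, μ, b, hd, hodd, hk, hμ, hconj, hb, hcrit, ht⟩ := h
    exact ⟨K1, i1, i2, i3, g, k, μ, b, hd, hk, hμ, hconj, hb, hcrit, hodd, ht⟩

end Pool.Agent.ORB.GP
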