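import Pool.Agent.ORB.GDefs

/-!
ORB, Theorem V++, row G8: from the engine (G5) and the transitivity (G6a) to the extension property. The two
results are hypotheses here.
-/

set_option autoImplicit false

namespace Pool.Agent.ORB.GP

open Polynomial NI NumberField IsDedekindDomain

universe u

section
variable {F W : Type*} [Field F] [Field W] [Algebra F W]

theorem ev_iter_algebraMap (h : F[X]) (b : F) (n : ℕ) :
    (ev (Ω := W) h)^[n] (algebraMap F W b) = algebraMap F W ((fun x => eval x h)^[n] b) := by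
  induction n with
  | zero => rfl
  | succ n ih =>
    rw [Function.iterate_succ_apply', ih, Function.iterate_succ_apply']
    unfold ev
    rw [aeval_algebraMap_apply, coe_aeval_eq_eval]

/-- a wandering point is not on a cycle -/
theorem wand_ne {h : F[X]} {b : F} (hb : Function.Injective fun n : ℕ => (fun x => eval x h)^[n] b) (n : ℕ)
    (hn : 1 ≤ n) : (ev (Ω := W) h)^[n] (algebraMap F W b) ≠ algebraMap F W b := by
  intro he
  rw [ev_iter_algebraMap] at he
  have h1 : (fun n : ℕ => (fun x => eval x h)^[n] b) n = (fun n : ℕ => (fun x => eval x h)^[n] b) 0 :=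
    (algebraMap F W).injective he
  have := hb h1
  omega

/-- the critical points do not lie in the high levels above a wandering point -/
theorem exists_levelR [CharZero F] {h : F[X]} (hd : 2 ≤ h.natDegree) {b : F}
    (hb : Function.Injective fun n : ℕ => (fun x => eval x h)^[n] b) :
    ∃ k₁ : ℕ, ∀ c : W, Crit h c → ∀ n, k₁ ≤ n → (ev h)^[n] c ≠ algebraMap F W b := by
  classical
  have hder : (derivative h).map (algebraMap F W) ≠ 0 := by
    rw [Ne, Polynomial.map_eq_zero]
    intro h0
    have := derivative_eq_zero.1 h0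
    omega
  have key : ∀ c : W, ∃ k : ℕ, ∀ n, k ≤ n → (ev h)^[n] c ≠ algebraMap F W b := by
    intro c
    by_cases hc : ∃ m, (ev h)^[m] c = algebraMap F W b
    · obtain ⟨m, hm⟩ := hc
      refine ⟨m + 1, fun n hn he => ?_⟩
      obtain ⟨e, rfl⟩ := Nat.exists_eq_add_of_le hn
      have h1 : m + 1 + e = (1 + e) + m := by ring
      rw [h1, Function.iterate_add_apply, hm] at he
      exact wand_ne hb (1 + e) (by omega) he
    · exact ⟨0, fun n _ he => hc ⟨n, he⟩⟩
  choose k hk using key
  refine ⟨((derivative h).map (algebraMap F W)).roots.toFinset.sup k, fun c hc n hn => hk c n ?_⟩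
  refine (Finset.le_sup (f := k) ?_).trans hn
  rw [Multiset.mem_toFinset, mem_roots hder, IsRoot, eval_map_algebraMap]
  exact hc

end

/-- **Row G8**, with the engine and the transitivity as hypotheses -/
theorem extR_gen_of {F W : Type*} [Field F] [CharZero F] [Field W] [Algebra F W] [IsAlgClosed W]
    (h : F[X]) (hd : 2 ≤ h.natDegree) (b : F)
    (hb : Function.Injective fun n : ℕ => (fun x => eval x h)^[n] b)
    (htran : ∃ k₀ : ℕ, ∀ l, ∀ z ∈ Node W h b (k₀ + l), ∀ z' : W, (ev h)^[l] z = (ev h)^[l] z' →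
      ∃ g : W ≃ₐ[F] W, g z = z')
    (heng : ∀ r : W, (∀ n, 1 ≤ n → (ev h)^[n] r ≠ r) → (∀ c : W, Crit h c → ∀ n, (ev h)^[n] c ≠ r) →
      (∀ (l : ℕ) (y y' : W), (ev h)^[l] y = r → (ev h)^[l] y' = r → ∃ g : W ≃ₐ[F] W, g r = r ∧ g y = y') →
      ∀ T : Set W, T.Finite → ∀ s₀ : W ≃ₐ[F] W, s₀ r = r →
        ∃ (N : ℕ) (s : W ≃ₐ[F] W), (∀ t ∈ T, s t = s₀ t) ∧ ∀ z : W, (ev h)^[N] z = r → s z ≠ z) :
    ExtR W (polyRP h) (b : OnePoint F) := by
  classical
  have hd1 : 1 ≤ h.natDegree := by omega
  obtain ⟨k₀, hk₀⟩ := htran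
  obtain ⟨k₁, hk₁⟩ := exists_levelR (W := W) hd hb
  set k := k₀ + k₁ with hk
  -- one node
  have one : ∀ r ∈ Node W h b k, ∀ T : Set W, T.Finite → ∀ s₀ : W ≃ₐ[F] W,
      ∃ (N : ℕ) (s : W ≃ₐ[F] W), (∀ t ∈ T, s t = s₀ t) ∧ ∀ z : W, (ev h)^[N] z = r → s z ≠ z := by
    intro r hr T hT s₀
    by_cases hs : s₀ r = r
    · refine heng r (fun n hn he => ?_) (fun c hc n he => ?_) (fun l y y' hy hy' => ?_) T hT s₀ hs
      · apply wand_ne (W := W) hb n hn
        have h1 : (ev h)^[k] r = algebraMap F W b := hr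
        rw [← h1, ← Function.iterate_add_apply, add_comm n k, Function.iterate_add_apply, he]
      · refine hk₁ c hc (k + n) (by omega) ?_
        rw [Function.iterate_add_apply, he]
        exact hr
      · have hr1 : (ev h)^[k₀] ((ev h)^[k₁] r) = algebraMap F W b := by
          rw [← Function.iterate_add_apply]
          exact hr
        obtain ⟨g, hg⟩ := hk₀ (k₁ + l) y (by
          show (ev h)^[k₀ + (k₁ + l)] y = algebraMap F W b
          rw [Function.iterate_add_apply, Function.iterate_add_apply, hy]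
          exact hr1) y' (by
          rw [Function.iterate_add_apply, Function.iterate_add_apply, hy, hy'])
        refine ⟨g, ?_, hg⟩
        conv_lhs => rw [← hy]
        rw [evW_aut, hg, hy']
    · refine ⟨0, s₀, fun _ _ => rfl, fun z hz => ?_⟩
      have : z = r := hz
      rw [this]
      exact hs
  intro T hT s₀
  -- finitely many nodes
  have hfin : ∀ (N : ℕ) (x : W), {z : W | (ev h)^[N] z = x}.Finite := by
    intro N x
    have h1 := fibre_finite (W := W) (polyRP h) (by rw [polyRP_d]; exact hd1) (x : OnePoint W) N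
    refine h1.subset fun z hz => ?_
    show ((polyRP h).map (algebraMap F W)).act^[N] (z : OnePoint W) = (x : OnePoint W)
    rw [polyRP_act _ h hd1, pact_iterate_coe]
    congr 1
    have h2 : (fun y => (h.map (algebraMap F W)).eval y) = ev (Ω := W) h := by
      funext y
      rw [eval_map_algebraMap]
      rfl
    rw [h2]
    exact hz
  have hup : ∀ {s : W ≃ₐ[F] W} {x : W} {N M : ℕ}, N ≤ M → (∀ z : W, (ev h)^[N] z = x → s z ≠ z) →
      ∀ z : W, (ev h)^[M] z = x → s z ≠ z := by
    intro s x N M hNM hm z hz hfix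
    obtain ⟨e, rfl⟩ := Nat.exists_eq_add_of_le hNM
    rw [Function.iterate_add_apply] at hz
    refine hm _ hz ?_
    rw [evW_aut, hfix]
  have key : ∀ A : Finset W, (∀ r ∈ A, r ∈ Node W h b k) → ∃ (N : ℕ) (s : W ≃ₐ[F] W),
      (∀ t ∈ T, s t = s₀ t) ∧ ∀ r ∈ A, ∀ z, (ev h)^[N] z = r → s z ≠ z := by
    intro A
    induction A using Finset.induction_on with
    | empty => exact fun _ => ⟨0, s₀, fun _ _ => rfl, fun r hr => absurd hr (by simp)⟩
    | insert r A _ ih =>
      intro hA
      obtain ⟨N, s, h1, h2⟩ := ih fun x hx => hA x (Finset.mem_insert_of_mem hx)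
      obtain ⟨N', s', h3, h4⟩ := one r (hA r (Finset.mem_insert_self r A))
        (T ∪ ⋃ x ∈ A, {z | (ev h)^[N] z = x}) (hT.union (A.finite_toSet.biUnion fun x _ => hfin N x)) s
      refine ⟨max N N', s', fun t ht => ?_, fun x hx => ?_⟩
      · rw [h3 t (Or.inl ht), h1 t ht]
      rcases Finset.mem_insert.1 hx with rfl | hx
      · exact hup (le_max_right N N') h4
      · refine hup (le_max_left N N') fun z hz => ?_
        rw [h3 z (Or.inr (Set.mem_biUnion hx hz))]
        exact h2 x hx z hz
  obtain ⟨N, s, h1, h2⟩ := key (nodeW_finite h hd1 b k).toFinset fun r hr =>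
    (Set.Finite.mem_toFinset _).1 hr
  refine ⟨k + N, s, h1, fun x hx hfix => ?_⟩
  induction x using OnePoint.rec with
  | infty =>
    rw [polyRP_act _ _ hd1, pact_iterate_infty, pmap_coe] at hx
    exact OnePoint.coe_ne_infty _ hx.symm
  | coe z =>
    rw [pmap_coe, OnePoint.coe_eq_coe] at hfix
    have hz := (mem_node_iff h hd1 b (k + N) z).2 hx
    exact h2 _ ((Set.Finite.mem_toFinset _).2 ((nodeW_iff h b k N z).1 hz)) z rfl hfix

end Pool.Agent.ORB.GP
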