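import Pool.Agent.ORB.TDefs
import Pool.Agent.ORB.GExtRA
import Pool.Agent.ORB.GLoc
import Pool.Agent.ORB.GOrb

/-!
ORB, Theorem V3 (odd degrees), rows T4a, T4: from an engine for the nodes of high levels to the extension property.
The engine (T2) and the irreducibility of the fibres (T3) are hypotheses here.
-/

set_option autoImplicit false

namespace Pool.Agent.ORB.GP

open Polynomial NI NumberField IsDedekindDomain

universe u

/-- **T4a** as `extR_gen_of`, with the engine only for the nodes `r` of high levels -/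
theorem extR_deep_of {F W : Type*} [Field F] [CharZero F] [Field W] [Algebra F W] [IsAlgClosed W]
    (h : F[X]) (hd : 2 ≤ h.natDegree) (b : F)
    (hb : Function.Injective fun n : ℕ => (fun x => eval x h)^[n] b)
    (htran : ∃ k₀ : ℕ, ∀ l, ∀ z ∈ Node W h b (k₀ + l), ∀ z' : W, (ev h)^[l] z = (ev h)^[l] z' →
      ∃ g : W ≃ₐ[F] W, g z = z') (k₂ : ℕ)
    (heng : ∀ k, k₂ ≤ k → ∀ r ∈ Node W h b k,
      (∀ n, 1 ≤ n → (ev h)^[n] r ≠ r) → (∀ c : W, Crit h c → ∀ n, (ev h)^[n] c ≠ r) →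
      (∀ (l : ℕ) (y y' : W), (ev h)^[l] y = r → (ev h)^[l] y' = r → ∃ g : W ≃ₐ[F] W, g r = r ∧ g y = y') →
      ∀ T : Set W, T.Finite → ∀ s₀ : W ≃ₐ[F] W, s₀ r = r →
        ∃ (N : ℕ) (s : W ≃ₐ[F] W), (∀ t ∈ T, s t = s₀ t) ∧ ∀ z : W, (ev h)^[N] z = r → s z ≠ z) :
    ExtR W (polyRP h) (b : OnePoint F) := by
  classical
  have hd1 : 1 ≤ h.natDegree := by omega
  obtain ⟨k₀, hk₀⟩ := htran
  obtain ⟨k₁, hk₁⟩ := exists_levelR (W := W) hd hb
  set k := k₀ + (k₁ + k₂) with hk
  -- one node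
  have one : ∀ r ∈ Node W h b k, ∀ T : Set W, T.Finite → ∀ s₀ : W ≃ₐ[F] W,
      ∃ (N : ℕ) (s : W ≃ₐ[F] W), (∀ t ∈ T, s t = s₀ t) ∧ ∀ z : W, (ev h)^[N] z = r → s z ≠ z := by
    intro r hr T hT s₀
    by_cases hs : s₀ r = r
    · refine heng k (by omega) r hr (fun n hn he => ?_) (fun c hc n he => ?_) (fun l y y' hy hy' => ?_) T hT s₀ hs
      · apply wand_ne (W := W) hb n hn
        have h1 : (ev h)^[k] r = algebraMap F W b := hr
        rw [← h1, ← Function.iterate_add_apply, add_comm n k, Function.iterate_add_apply, he]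
      · refine hk₁ c hc (k + n) (by omega) ?_
        rw [Function.iterate_add_apply, he]
        exact hr
      · have hr1 : (ev h)^[k₀] ((ev h)^[k₁ + k₂] r) = algebraMap F W b := by
          rw [← Function.iterate_add_apply]
          exact hr
        obtain ⟨g, hg⟩ := hk₀ (k₁ + k₂ + l) y (by
          show (ev h)^[k₀ + (k₁ + k₂ + l)] y = algebraMap F W b
          rw [Function.iterate_add_apply _ k₀, Function.iterate_add_apply _ (k₁ + k₂), hy]
          exact hr1) y' (by
          rw [Function.iterate_add_apply _ (k₁ + k₂), Function.iterate_add_apply _ (k₁ + k₂), hy, hy'])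
        refine ⟨g, ?_, hg⟩
        conv_lhs => rw [← hy]
        rw [evW_aut, hg, hy']
    · refine ⟨0, s₀, fun _ _ => rfl, fun z hz => ?_⟩
      have : z = r := hz
      rw [this]
      exact hs
  intro T hT s₀
  -- finitely many nodes
  have hfin : ∀ (N : ℕ) (x : W), {z : W | (ev h)^[N] z = x}.Finite := by
    intro N x
    have h1 := fibre_finite (W := W) (polyRP h) (by rw [polyRP_d]; exact hd1) (x : OnePoint W) N
    refine h1.subset fun z hz => ?_
    show ((polyRP h).map (algebraMap F W)).act^[N] (z : OnePoint W) = (x : OnePoint W)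
    rw [polyRP_act _ h hd1, pact_iterate_coe]
    congr 1
    have h2 : (fun y => (h.map (algebraMap F W)).eval y) = ev (Ω := W) h := by
      funext y
      rw [eval_map_algebraMap]
      rfl
    rw [h2]
    exact hz
  have hup : ∀ {s : W ≃ₐ[F] W} {x : W} {N M : ℕ}, N ≤ M → (∀ z : W, (ev h)^[N] z = x → s z ≠ z) →
      ∀ z : W, (ev h)^[M] z = x → s z ≠ z := by
    intro s x N M hNM hm z hz hfix
    obtain ⟨e, rfl⟩ := Nat.exists_eq_add_of_le hNM
    rw [Function.iterate_add_apply] at hz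
    refine hm _ hz ?_
    rw [evW_aut, hfix]
  have key : ∀ A : Finset W, (∀ r ∈ A, r ∈ Node W h b k) → ∃ (N : ℕ) (s : W ≃ₐ[F] W),
      (∀ t ∈ T, s t = s₀ t) ∧ ∀ r ∈ A, ∀ z, (ev h)^[N] z = r → s z ≠ z := by
    intro A
    induction A using Finset.induction_on with
    | empty => exact fun _ => ⟨0, s₀, fun _ _ => rfl, fun r hr => absurd hr (by simp)⟩
    | insert r A _ ih =>
      intro hA
      obtain ⟨N, s, h1, h2⟩ := ih fun x hx => hA x (Finset.mem_insert_of_mem hx)
      obtain ⟨N', s', h3, h4⟩ := one r (hA r (Finset.mem_insert_self r A))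
        (T ∪ ⋃ x ∈ A, {z | (ev h)^[N] z = x}) (hT.union (A.finite_toSet.biUnion fun x _ => hfin N x)) s
      refine ⟨max N N', s', fun t ht => ?_, fun x hx => ?_⟩
      · rw [h3 t (Or.inl ht), h1 t ht]
      rcases Finset.mem_insert.1 hx with rfl | hx
      · exact hup (le_max_right N N') h4
      · refine hup (le_max_left N N') fun z hz => ?_
        rw [h3 z (Or.inr (Set.mem_biUnion hx hz))]
        exact h2 x hx z hz
  obtain ⟨N, s, h1, h2⟩ := key (nodeW_finite h hd1 b k).toFinset fun r hr =>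
    (Set.Finite.mem_toFinset _).1 hr
  refine ⟨k + N, s, h1, fun x hx hfix => ?_⟩
  induction x using OnePoint.rec with
  | infty =>
    rw [polyRP_act _ _ hd1, pact_iterate_infty, pmap_coe] at hx
    exact OnePoint.coe_ne_infty _ hx.symm
  | coe z =>
    rw [pmap_coe, OnePoint.coe_eq_coe] at hfix
    have hz := (mem_node_iff h hd1 b (k + N) z).2 hx
    exact h2 _ ((Set.Finite.mem_toFinset _).2 ((nodeW_iff h b k N z).1 hz)) z rfl hfix

/-- a wandering point is not periodic -/
theorem wand_iter_ne {F : Type*} [Field F] {h : F[X]} {b : F}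
    (hb : Function.Injective fun n : ℕ => (fun x => eval x h)^[n] b) :
    ∀ n, 1 ≤ n → (fun x => eval x h)^[n] b ≠ b := by
  intro n hn he
  have h1 : (fun n : ℕ => (fun x => eval x h)^[n] b) n = (fun n : ℕ => (fun x => eval x h)^[n] b) 0 := he
  have := hb h1
  omega

/-- **T4**, general form: eventual stability and the irreducibility of the fibres above the nodes of high levels give
the extension property; the engine T2 is a hypothesis -/
theorem extR_of_ft {F W : Type*} [Field F] [CharZero F] [Field W] [Algebra F W] [IsAlgClosed W]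
    [Algebra.IsAlgebraic F W] (h : F[X]) (hd : 2 ≤ h.natDegree)
    (heng : ∀ r : W, (∀ n, 1 ≤ n → (ev h)^[n] r ≠ r) → (∀ c : W, Crit h c → ∀ n, (ev h)^[n] c ≠ r) →
      (∀ (l : ℕ) (y y' : W), (ev h)^[l] y = r → (ev h)^[l] y' = r → ∃ g : W ≃ₐ[F] W, g r = r ∧ g y = y') →
      FT h r → ∀ T : Set W, T.Finite → ∀ s₀ : W ≃ₐ[F] W, s₀ r = r →
        ∃ (N : ℕ) (s : W ≃ₐ[F] W), (∀ t ∈ T, s t = s₀ t) ∧ ∀ z : W, (ev h)^[N] z = r → s z ≠ z)
    (b : F) (hb : Function.Injective fun n : ℕ => (fun x => eval x h)^[n] b) (hst : EvStable h b)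
    (hft : ∃ k₂ : ℕ, ∀ k, k₂ ≤ k → ∀ r ∈ Node W h b k, FT h r) : ExtR W (polyRP h) (b : OnePoint F) := by
  obtain ⟨k₂, hk₂⟩ := hft
  exact extR_deep_of h hd b hb (exists_tran h (by omega) b hst) k₂
    fun k hk r hr h1 h2 h3 => heng r h1 h2 h3 (hk₂ k hk r hr)

/-- **T4**, with the engine T2 and the irreducibility of the fibres T3 as hypotheses -/
theorem extR_odd_of {F W : Type u} [Field F] [NumberField F] [Field W] [Algebra F W] [IsAlgClosed W]
    [Algebra.IsAlgebraic F W] (h : F[X]) (hd : 2 ≤ h.natDegree)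
    (heng : ∀ r : W, (∀ n, 1 ≤ n → (ev h)^[n] r ≠ r) → (∀ c : W, Crit h c → ∀ n, (ev h)^[n] c ≠ r) →
      (∀ (l : ℕ) (y y' : W), (ev h)^[l] y = r → (ev h)^[l] y' = r → ∃ g : W ≃ₐ[F] W, g r = r ∧ g y = y') →
      FT h r → ∀ T : Set W, T.Finite → ∀ s₀ : W ≃ₐ[F] W, s₀ r = r →
        ∃ (N : ℕ) (s : W ≃ₐ[F] W), (∀ t ∈ T, s t = s₀ t) ∧ ∀ z : W, (ev h)^[N] z = r → s z ≠ z)
    (b : F) (hb : Function.Injective fun n : ℕ => (fun x => eval x h)^[n] b)
    (hft : (∀ n, 1 ≤ n → (fun x => eval x h)^[n] b ≠ b) →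
      ∃ k₂ : ℕ, ∀ k, k₂ ≤ k → ∀ r ∈ Node W h b k, FT h r)
    (ht : TamT h b) : ExtR W (polyRP h) (b : OnePoint F) :=
  extR_of_ft h hd heng b hb (EvStable.of_loc hd (wand_iter_ne hb) ht.locT) (hft (wand_iter_ne hb))

/-- the irreducibility of the fibres is inherited by finite extensions of the field -/
theorem FT.ext {K F W : Type*} [Field K] [Field F] [Field W] [Algebra K F] [FiniteDimensional K F] [Algebra K W]
    [Algebra F W] [IsScalarTower K F W] {h : K[X]} {r : W} (hFT : FT h r) : FT (h.map (algebraMap K F)) r := by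
  have hev : (ev (h.map (algebraMap K F)) : W → W) = ev h := by
    funext z
    exact aeval_map_algebraMap F z h
  intro T hT
  obtain ⟨m₀, hm₀⟩ := hFT (T ∪ Set.range fun i => algebraMap F W (Module.finBasis K F i))
    (hT.union (Set.finite_range _))
  refine ⟨m₀, fun m hm z z' hz hzz => ?_⟩
  rw [hev] at hz hzz
  obtain ⟨g, h1, h2, h3, h4⟩ := hm₀ m hm z z' hz hzz
  have hg : ∀ x : F, g (algebraMap F W x) = algebraMap F W x := by
    intro x
    rw [← (Module.finBasis K F).sum_repr x, map_sum, map_sum]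
    refine Finset.sum_congr rfl fun i _ => ?_
    rw [Algebra.smul_def, map_mul, ← IsScalarTower.algebraMap_apply, map_mul, AlgEquiv.commutes]
    rw [h1 _ (Or.inr ⟨i, rfl⟩)]
  refine ⟨AlgEquiv.ofRingEquiv (f := (g : W ≃+* W)) hg, fun t ht => h1 t (Or.inl ht), h2, ?_, h4⟩
  rw [hev]
  exact h3

end Pool.Agent.ORB.GP
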