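import Pool.Agent.ORB.EDefs
import Pool.Agent.ORB.TExt
import Pool.Agent.ORB.TDatum
import Pool.Agent.ORB.TOmega

/-!
ORB, Theorem V5 (all degrees), rows E8, E8b: the extension property and the datum. The engine E5 and the cycle
property E7g are hypotheses here.
-/

set_option autoImplicit false

namespace Pool.Agent.ORB.GP

open Polynomial NI NumberField IsDedekindDomain

universe u

section crit

variable {K Ω W : Type*} [Field K] [Field Ω] [Field W] [Algebra K Ω] [Algebra K W]

/-- the condition does not depend on the algebraic closure -/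
theorem CritCond2.ae (e : Ω ≃ₐ[K] W) {h : K[X]} (hc : CritCond2 h Ω) : CritCond2 h W := by
  have h1 : CritCond h W := CritCond.ae e hc.critCond
  refine ⟨h1.odd, h1.ex, ?_, ?_⟩
  · intro c c' h1 h2 h3 h4 h5
    obtain ⟨z, rfl⟩ := e.surjective c
    obtain ⟨z', rfl⟩ := e.surjective c'
    rw [simp_ae] at h1 h2
    rw [wand_ae] at h3 h4
    rw [ev_ae, ev_ae, ev_ae, ev_ae] at h5
    rw [hc.sep z z' h1 h2 h3 h4 (e.injective h5)]
  · intro c h1 h2
    obtain ⟨z, rfl⟩ := e.surjective c
    rw [simp_ae] at h1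
    rw [wand_ae] at h2
    rw [ev_ae, crit_ae]
    exact hc.ncr z h1 h2

/-- the condition for the polynomial over a larger field -/
theorem CritCond2.tower {F : Type*} [Field F] [Algebra K F] [Algebra F W] [IsScalarTower K F W] {h : K[X]}
    (hc : CritCond2 h W) : CritCond2 (h.map (algebraMap K F)) W := by
  have hev : (ev (h.map (algebraMap K F)) : W → W) = ev h := by
    funext z
    exact aeval_map_algebraMap F z h
  have hd : ∀ z : W, aeval z (derivative (h.map (algebraMap K F))) = aeval z (derivative h) := by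
    intro z
    rw [derivative_map, aeval_map_algebraMap]
  have hdd : ∀ z : W, aeval z (derivative (derivative (h.map (algebraMap K F)))) =
      aeval z (derivative (derivative h)) := by
    intro z
    rw [derivative_map, derivative_map, aeval_map_algebraMap]
  have hcrit : ∀ z : W, Crit (h.map (algebraMap K F)) z ↔ Crit h z := by
    intro z
    unfold Crit
    rw [hd]
  have hsimp : ∀ z : W, Simp (h.map (algebraMap K F)) z ↔ Simp h z := by
    intro z
    unfold Simp
    rw [hd, hdd]
  have hwand : ∀ z : W, Wand (h.map (algebraMap K F)) z ↔ Wand h z := by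
    intro z
    unfold Wand
    rw [hev]
  have h1 : CritCond (h.map (algebraMap K F)) W := hc.critCond.tower
  refine ⟨h1.odd, h1.ex, ?_, ?_⟩
  · intro c c' h1 h2 h3 h4 h5
    rw [hsimp] at h1 h2
    rw [hwand] at h3 h4
    rw [hev] at h5
    exact hc.sep c c' h1 h2 h3 h4 h5
  · intro c h1 h2
    rw [hsimp] at h1
    rw [hwand] at h2
    rw [hev, hcrit]
    exact hc.ncr c h1 h2

/-- the condition over a larger field and its algebraic closure -/
theorem CritCond2.ext {L L' : Type*} [Field L] [Field L'] [Algebra L L'] [Algebra.IsAlgebraic L L'] {h : L[X]}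
    (hc : CritCond2 h (AlgebraicClosure L)) :
    CritCond2 (h.map (algebraMap L L')) (AlgebraicClosure L') := by
  have ha : Algebra.IsAlgebraic L (AlgebraicClosure L') := Algebra.IsAlgebraic.trans L L' _
  have hcl : IsAlgClosure L (AlgebraicClosure L') := ⟨inferInstance, ha⟩
  exact (hc.ae (IsAlgClosure.equiv L (AlgebraicClosure L) (AlgebraicClosure L'))).tower

end crit

/-- **E8**, with the engine E5 and the cycle property E7g as hypotheses -/
theorem extR_all_of {F W : Type u} [Field F] [NumberField F] [Field W] [Algebra F W] [IsAlgClosed W]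
    [Algebra.IsAlgebraic F W] (h : F[X]) (hd : 2 ≤ h.natDegree)
    (heng : ∀ r : W, (∀ n, 1 ≤ n → (ev h)^[n] r ≠ r) → (∀ c : W, Crit h c → ∀ n, (ev h)^[n] c ≠ r) →
      (∀ (l : ℕ) (y y' : W), (ev h)^[l] y = r → (ev h)^[l] y' = r → ∃ g : W ≃ₐ[F] W, g r = r ∧ g y = y') →
      FT h r → Cyc h r → ∀ T : Set W, T.Finite → ∀ s₀ : W ≃ₐ[F] W, s₀ r = r →
        ∃ (N : ℕ) (s : W ≃ₐ[F] W), (∀ t ∈ T, s t = s₀ t) ∧ ∀ z : W, (ev h)^[N] z = r → s z ≠ z)
    (b : F) (hb : Function.Injective fun n : ℕ => (fun x => eval x h)^[n] b)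
    (hcyc : (∀ n, 1 ≤ n → (fun x => eval x h)^[n] b ≠ b) →
      ∃ k₂ : ℕ, ∀ k, k₂ ≤ k → ∀ r ∈ Node W h b k, Cyc h r)
    (ht : TamT h b) : ExtR W (polyRP h) (b : OnePoint F) := by
  have hper := wand_iter_ne hb
  obtain ⟨k₂, hk₂⟩ := ft_of_tamT (W := W) h hd b hper ht
  obtain ⟨k₃, hk₃⟩ := hcyc hper
  exact extR_deep_of h hd b hb (exists_tran h (by omega) b (EvStable.of_loc hd hper ht.locT)) (k₂ + k₃)
    fun k hk r hr h1 h2 h3 => heng r h1 h2 h3 (hk₂ k (by omega) r hr) (hk₃ k (by omega) r hr)

/-- over a finite extension `K1` of `K` the map `f` is conjugate by a linear fractional map `μ` to an iterate of a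
polynomial `h` whose critical points are in general position, and the pair `(h, b)` satisfies `TamT` -/
def AllConj {K : Type u} [Field K] [NumberField K] (f : RatFunc K) (β : OnePoint K) : Prop :=
  ∃ (K1 : Type u) (_ : Field K1) (_ : NumberField K1) (_ : Algebra K K1) (h : K1[X]) (k : ℕ)
    (μ : RatFunc K1) (b : K1), 2 ≤ h.natDegree ∧ 1 ≤ k ∧ rdeg μ = 1 ∧
    (∀ x : OnePoint K1, ract (algebraMap K K1) f (ract (RingHom.id K1) μ x) =
      ract (RingHom.id K1) μ ((ract (RingHom.id K1) (algebraMap K1[X] (RatFunc K1) h))^[k] x)) ∧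
    ract (RingHom.id K1) μ (b : OnePoint K1) = OnePoint.map (algebraMap K K1) β ∧
    CritCond2 h (AlgebraicClosure K1) ∧ TamT h b

/-- **E8b**, from the extension property -/
theorem hasDatum_all_of
    (HE : ∀ (F W : Type u) [Field F] [NumberField F] [Field W] [Algebra F W] [IsAlgClosed W]
      [Algebra.IsAlgebraic F W] (h : F[X]) (_ : 2 ≤ h.natDegree)
      (_ : CritCond2 h W) (b : F) (_ : Function.Injective fun n : ℕ => (fun x => eval x h)^[n] b)
      (_ : TamT h b), ExtR W (polyRP h) (b : OnePoint F))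
    {K : Type u} [Field K] [NumberField K] (f : RatFunc K) (β : OnePoint K)
    (hβ : Function.Injective fun n : ℕ => (ract (RingHom.id K) f)^[n] β) (h : AllConj f β) :
    HasDatum f β := by
  refine hasDatum_cnd_of (fun L _ _ h b => CritCond2 h (AlgebraicClosure L) ∧ TamT h b)
    (fun L L' _ _ _ _ _ h b hc => ?_) (fun F W _ _ _ _ _ _ h hd _ b hb hc => ?_) f β hβ ?_
  · have ha : Algebra.IsAlgebraic L L' := Algebra.IsAlgebraic.tower_top (K := ℚ) L
    exact ⟨hc.1.ext, hc.2.ext⟩
  · have hcl : IsAlgClosure F W := ⟨inferInstance, inferInstance⟩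
    exact HE F W h hd (hc.1.ae (IsAlgClosure.equiv F (AlgebraicClosure F) W)) b hb hc.2
  · obtain ⟨K1, i1, i2, i3, g, k, μ, b, hd, hk, hμ, hconj, hb, hcrit, ht⟩ := h
    exact ⟨K1, i1, i2, i3, g, k, μ, b, hd, hk, hμ, hconj, hb, hcrit.critCond, hcrit, ht⟩

end Pool.Agent.ORB.GP
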