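import Pool.Agent.ORB.Box

/-! ORB, M1a: sizes of embeddings and norms over a box. -/

namespace Pool.Agent.ORB

open NumberField Module

variable {M : Type*} [Field M] [NumberField M]

theorem emb_el (σ : M →+* ℂ) (v : Idx M → ℤ) :
    σ (el v) = ∑ i, (v i : ℂ) * σ (RingOfIntegers.basis M i) := by
  have h : ((el v : 𝓞 M) : M) = ∑ i, (v i : M) * ((RingOfIntegers.basis M i : 𝓞 M) : M) := by
    unfold el
    rw [RingOfIntegers.coe_eq_algebraMap, map_sum]
    refine Finset.sum_congr rfl (fun i _ => ?_)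
    rw [zsmul_eq_mul, map_mul, map_intCast]
  rw [h, map_sum]
  refine Finset.sum_congr rfl (fun i _ => ?_)
  rw [map_mul, map_intCast]

/-- embeddings are bounded on the box -/
theorem emb_bound (M : Type*) [Field M] [NumberField M] : ∃ C : ℕ, 1 ≤ C ∧ ∀ X : ℕ,
    ∀ v ∈ box M X, ∀ σ : M →+* ℂ, ‖σ (el v)‖ ≤ C * X := by
  obtain ⟨C, hC⟩ := exists_nat_ge (∑ σ : M →+* ℂ, ∑ i, ‖σ (RingOfIntegers.basis M i)‖)
  refine ⟨C + 1, by omega, fun X v hv σ => ?_⟩
  rw [mem_box] at hv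
  rw [emb_el]
  have h1 : ∑ i, ‖σ (RingOfIntegers.basis M i)‖ ≤ C := by
    refine le_trans ?_ hC
    exact Finset.single_le_sum (f := fun σ : M →+* ℂ => ∑ i, ‖σ (RingOfIntegers.basis M i)‖)
      (fun τ _ => Finset.sum_nonneg (fun i _ => norm_nonneg _)) (Finset.mem_univ σ)
  calc ‖∑ i, (v i : ℂ) * σ (RingOfIntegers.basis M i)‖
      ≤ ∑ i, ‖(v i : ℂ) * σ (RingOfIntegers.basis M i)‖ := norm_sum_le _ _
    _ ≤ ∑ i, (X : ℝ) * ‖σ (RingOfIntegers.basis M i)‖ := by
        refine Finset.sum_le_sum (fun i _ => ?_)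
        rw [norm_mul]
        refine mul_le_mul_of_nonneg_right ?_ (norm_nonneg _)
        rw [Complex.norm_intCast]
        exact_mod_cast hv i
    _ = (∑ i, ‖σ (RingOfIntegers.basis M i)‖) * X := by rw [← Finset.mul_sum, mul_comm]
    _ ≤ ((C + 1 : ℕ) : ℝ) * X := by
        refine mul_le_mul_of_nonneg_right ?_ (Nat.cast_nonneg _)
        push_cast
        linarith

theorem card_emb (M : Type*) [Field M] [NumberField M] : Fintype.card (M →+* ℂ) = deg M := by
  rw [NumberField.Embeddings.card]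
  unfold deg
  rw [← Module.finrank_eq_card_chooseBasisIndex, RingOfIntegers.rank]

/-- norms are bounded on the box -/
theorem nrm_bound (M : Type*) [Field M] [NumberField M] : ∃ C : ℕ, 1 ≤ C ∧ ∀ X : ℕ,
    ∀ v ∈ box M X, nrm v ≤ C * X ^ deg M := by
  obtain ⟨C, hC1, hC⟩ := emb_bound M
  refine ⟨C ^ deg M, Nat.one_le_pow _ _ hC1, fun X v hv => ?_⟩
  have h1 : (nrm v : ℝ) ≤ ((C ^ deg M * X ^ deg M : ℕ) : ℝ) := by
    rw [nrm_eq_prod]
    calc ∏ σ : M →+* ℂ, ‖σ (el v)‖ ≤ ∏ _σ : M →+* ℂ, ((C : ℝ) * X) :=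
          Finset.prod_le_prod (fun σ _ => norm_nonneg _) (fun σ _ => hC X v hv σ)
      _ = ((C ^ deg M * X ^ deg M : ℕ) : ℝ) := by
          rw [Finset.prod_const, Finset.card_univ, card_emb]
          push_cast
          rw [mul_pow]
  exact_mod_cast h1

theorem card_le_of_diam (s : Finset ℤ) (N : ℕ) (h : ∀ x ∈ s, ∀ y ∈ s, x - y ≤ N) :
    s.card ≤ N + 1 := by
  rcases s.eq_empty_or_nonempty with rfl | hs
  · simp
  · have h1 : s ⊆ Finset.Icc (s.min' hs) (s.min' hs + N) := by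
      intro x hx
      rw [Finset.mem_Icc]
      refine ⟨s.min'_le x hx, ?_⟩
      have := h x hx _ (s.min'_mem hs)
      linarith
    refine le_trans (Finset.card_le_card h1) ?_
    rw [Int.card_Icc]
    omega

open Classical in
/-- few points of the box have a small embedding -/
theorem count_emb (M : Type*) [Field M] [NumberField M] : ∃ C : ℝ, 0 ≤ C ∧ ∀ X : ℕ, ∀ δ : ℝ, 0 ≤ δ →
    ∀ σ : M →+* ℂ, (((box M X).filter (fun v => ‖σ (el v)‖ ≤ δ)).card : ℝ) ≤
      C * (δ + 1) * (2 * X + 1 : ℝ) ^ (deg M - 1) := by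
  have hpos : 0 < Fintype.card (Idx M) := deg_pos (M := M)
  obtain ⟨i0⟩ := Fintype.card_pos_iff.mp hpos
  have ha : ∀ σ : M →+* ℂ, 0 < ‖σ (RingOfIntegers.basis M i0)‖ := by
    intro σ
    rw [norm_pos_iff]
    intro h
    rw [map_eq_zero] at h
    exact (RingOfIntegers.basis M).ne_zero i0 (RingOfIntegers.ext h)
  have hC0 : ∀ σ : M →+* ℂ, 0 ≤ 2 / ‖σ (RingOfIntegers.basis M i0)‖ :=
    fun σ => div_nonneg (by norm_num) (ha σ).le
  refine ⟨1 + ∑ σ : M →+* ℂ, 2 / ‖σ (RingOfIntegers.basis M i0)‖,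
    add_nonneg zero_le_one (Finset.sum_nonneg (fun σ _ => hC0 σ)), fun X δ hδ σ => ?_⟩
  set a : ℝ := ‖σ (RingOfIntegers.basis M i0)‖ with hadef
  set t : Finset (Idx M → ℤ) := Fintype.piFinset
    (fun i => if i = i0 then {0} else Finset.Icc (-(X : ℤ)) X) with ht
  have hcard : t.card = (2 * X + 1) ^ (deg M - 1) := by
    rw [ht, Fintype.card_piFinset, ← Finset.mul_prod_erase Finset.univ _ (Finset.mem_univ i0)]
    rw [if_pos rfl, Finset.card_singleton, one_mul]
    have h1 : ∀ i ∈ Finset.univ.erase i0,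
        (if i = i0 then ({0} : Finset ℤ) else Finset.Icc (-(X : ℤ)) X).card = 2 * X + 1 := by
      intro i hi
      rw [if_neg (Finset.ne_of_mem_erase hi), Int.card_Icc]
      omega
    rw [Finset.prod_congr rfl h1, Finset.prod_const, Finset.card_erase_of_mem (Finset.mem_univ _),
      Finset.card_univ]
    rfl
  set N : ℕ := ⌊2 * δ / a⌋₊ with hN
  have hmaps : ∀ v ∈ (box M X).filter (fun v => ‖σ (el v)‖ ≤ δ), Function.update v i0 0 ∈ t := by
    intro v hv
    rw [Finset.mem_filter, mem_box] at hv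
    rw [ht, Fintype.mem_piFinset]
    intro i
    by_cases hi : i = i0
    · subst hi
      simp
    · rw [if_neg hi, Function.update_of_ne hi, Finset.mem_Icc]
      exact abs_le.mp (hv.1 i)
  have hfib : ∀ w ∈ t, (((box M X).filter (fun v => ‖σ (el v)‖ ≤ δ)).filter
      (fun v => Function.update v i0 0 = w)).card ≤ N + 1 := by
    intro w _
    set F := ((box M X).filter (fun v => ‖σ (el v)‖ ≤ δ)).filter
      (fun v => Function.update v i0 0 = w) with hF
    have hinj : Set.InjOn (fun v : Idx M → ℤ => v i0) (F : Set (Idx M → ℤ)) := by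
      intro v hv v' hv' hvv
      rw [Finset.mem_coe, hF, Finset.mem_filter] at hv hv'
      funext i
      by_cases hi : i = i0
      · rw [hi]; exact hvv
      · have h1 := congrFun (hv.2.trans hv'.2.symm) i
        rwa [Function.update_of_ne hi, Function.update_of_ne hi] at h1
    rw [← Finset.card_image_of_injOn hinj]
    refine card_le_of_diam _ _ ?_
    intro x hx y hy
    rw [Finset.mem_image] at hx hy
    obtain ⟨v, hv, rfl⟩ := hx
    obtain ⟨v', hv', rfl⟩ := hy
    rw [hF, Finset.mem_filter, Finset.mem_filter] at hv hv'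
    have h1 : v - v' = Function.update (0 : Idx M → ℤ) i0 (v i0 - v' i0) := by
      funext i
      by_cases hi : i = i0
      · subst hi; simp
      · have h1 := congrFun (hv.2.trans hv'.2.symm) i
        rw [Function.update_of_ne hi, Function.update_of_ne hi] at h1
        rw [Function.update_of_ne hi, Pi.sub_apply, h1, sub_self, Pi.zero_apply]
    have h2 : σ (el (v - v')) = ((v i0 - v' i0 : ℤ) : ℂ) * σ (RingOfIntegers.basis M i0) := by
      rw [h1, emb_el, Finset.sum_eq_single i0]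
      · rw [Function.update_self]
      · intro i _ hi
        rw [Function.update_of_ne hi]; simp
      · intro h; exact absurd (Finset.mem_univ _) h
    have h3 : ‖σ (el (v - v'))‖ ≤ 2 * δ := by
      rw [el_sub]
      have h4 : σ (((el v - el v' : 𝓞 M)) : M) = σ (el v) - σ (el v') := by
        rw [RingOfIntegers.coe_eq_algebraMap, map_sub, map_sub]
      rw [h4]
      refine le_trans (norm_sub_le _ _) ?_
      linarith [hv.1.2, hv'.1.2]
    rw [h2, norm_mul, Complex.norm_intCast] at h3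
    have h5 : |((v i0 - v' i0 : ℤ) : ℝ)| ≤ 2 * δ / a := by
      rw [le_div_iff₀ (ha σ)]
      exact h3
    have h6 : ((v i0 - v' i0).toNat : ℝ) ≤ 2 * δ / a := by
      refine le_trans ?_ h5
      rcases le_total 0 (v i0 - v' i0) with h7 | h7
      · have h8 : (((v i0 - v' i0).toNat : ℤ) : ℝ) = ((v i0 - v' i0 : ℤ) : ℝ) := by
          rw [Int.toNat_of_nonneg h7]
        have h9 : (((v i0 - v' i0).toNat : ℕ) : ℝ) = ((v i0 - v' i0 : ℤ) : ℝ) := by
          rw [← h8]; norm_cast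
        rw [h9]
        exact le_abs_self _
      · rw [Int.toNat_of_nonpos h7]
        simp
    have h7 : (v i0 - v' i0).toNat ≤ N := Nat.le_floor h6
    omega
  have h1 := Finset.card_le_mul_card_image_of_maps_to hmaps (N + 1) hfib
  rw [hcard] at h1
  have h2 : ((N + 1 : ℕ) : ℝ) ≤ (1 + ∑ σ : M →+* ℂ, 2 / ‖σ (RingOfIntegers.basis M i0)‖) * (δ + 1) := by
    have h3 : (N : ℝ) ≤ 2 * δ / a := Nat.floor_le (by positivity)
    have h4 : 2 / a ≤ ∑ σ : M →+* ℂ, 2 / ‖σ (RingOfIntegers.basis M i0)‖ :=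
      Finset.single_le_sum (f := fun σ : M →+* ℂ => 2 / ‖σ (RingOfIntegers.basis M i0)‖)
        (fun τ _ => hC0 τ) (Finset.mem_univ σ)
    have h5 : 2 * δ / a = 2 / a * δ := by ring
    have h6 : 0 ≤ ∑ σ : M →+* ℂ, 2 / ‖σ (RingOfIntegers.basis M i0)‖ := le_trans (hC0 σ) h4
    push_cast
    nlinarith [mul_le_mul_of_nonneg_right h4 hδ]
  calc (((box M X).filter (fun v => ‖σ (el v)‖ ≤ δ)).card : ℝ)
      ≤ (((N + 1) * (2 * X + 1) ^ (deg M - 1) : ℕ) : ℝ) := by exact_mod_cast h1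
    _ = ((N + 1 : ℕ) : ℝ) * (2 * X + 1 : ℝ) ^ (deg M - 1) := by push_cast; ring
    _ ≤ _ := mul_le_mul_of_nonneg_right h2 (by positivity)

theorem log_le_layers {y : ℝ} (hy : 1 ≤ y) (T : ℕ) (hT : y ≤ 2 ^ T) :
    Real.log y ≤ ∑ t ∈ Finset.range (T + 1), if (2 : ℝ) ^ t ≤ y then (1 : ℝ) else 0 := by
  obtain ⟨N, hN1, hN2⟩ := exists_nat_pow_near hy (one_lt_two)
  have hNT : N ≤ T := by
    have h1 : (2 : ℝ) ^ N ≤ 2 ^ T := le_trans hN1 hT
    exact (pow_le_pow_iff_right₀ (one_lt_two)).mp h1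
  have h1 : Real.log y ≤ N + 1 := by
    have h2 : Real.log y ≤ Real.log ((2 : ℝ) ^ (N + 1)) := Real.log_le_log (by linarith) hN2.le
    rw [Real.log_pow] at h2
    have h3 : Real.log 2 ≤ 1 := by
      have := Real.log_two_lt_d9
      linarith
    push_cast at h2
    have h4 : (0 : ℝ) ≤ (N : ℝ) + 1 := by positivity
    nlinarith
  refine le_trans h1 ?_
  calc ((N : ℝ) + 1) = ∑ t ∈ Finset.range (N + 1), (1 : ℝ) := by simp
    _ = ∑ t ∈ Finset.range (N + 1), if (2 : ℝ) ^ t ≤ y then (1 : ℝ) else 0 := by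
        refine Finset.sum_congr rfl (fun t ht => ?_)
        rw [if_pos]
        refine le_trans (pow_le_pow_right₀ (by norm_num) ?_) hN1
        rw [Finset.mem_range] at ht
        omega
    _ ≤ ∑ t ∈ Finset.range (T + 1), if (2 : ℝ) ^ t ≤ y then (1 : ℝ) else 0 := by
        refine Finset.sum_le_sum_of_subset_of_nonneg (Finset.range_mono (by omega)) ?_
        intro t _ _
        split_ifs <;> norm_num

/-- the defect of the logarithm of one embedding, summed over the box -/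
theorem sum_defect (M : Type*) [Field M] [NumberField M] : ∃ C : ℕ, 1 ≤ C ∧ ∃ K : ℝ, 0 ≤ K ∧
    ∀ X : ℕ, 1 ≤ X → (∀ v ∈ box M X, ∀ σ : M →+* ℂ, ‖σ (el v)‖ ≤ C * X) ∧ ∀ σ : M →+* ℂ,
      ∑ v ∈ (box M X).erase 0, Real.log ((C * X : ℝ) / ‖σ (el v)‖) ≤ K * (2 * X + 1 : ℝ) ^ deg M := by
  classical
  obtain ⟨C, hC1, hC⟩ := emb_bound M
  obtain ⟨C1, hC10, hC1c⟩ := count_emb M
  refine ⟨C, hC1, C1 * (2 * (deg M * C)) + C1 * (2 * C + (C + 1)), by positivity, fun X hX => ⟨hC X, fun σ => ?_⟩⟩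
  set A : ℝ := C * X with hA
  have hX1 : (1 : ℝ) ≤ X := by exact_mod_cast hX
  have hCr : (1 : ℝ) ≤ C := by exact_mod_cast hC1
  have hA1 : 1 ≤ A := by rw [hA]; nlinarith
  have hne : ∀ v ∈ (box M X).erase 0, ∀ τ : M →+* ℂ, 0 < ‖τ (el v)‖ := by
    intro v hv τ
    rw [norm_pos_iff]
    intro h
    rw [map_eq_zero] at h
    exact el_ne_zero (Finset.ne_of_mem_erase hv) (RingOfIntegers.ext h)
  have hle : ∀ v ∈ (box M X).erase 0, ∀ τ : M →+* ℂ, ‖τ (el v)‖ ≤ A :=
    fun v hv τ => hC X v (Finset.mem_of_mem_erase hv) τ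
  -- every term
  have hterm : ∀ v ∈ (box M X).erase 0, Real.log (A / ‖σ (el v)‖) ≤
      (if ‖σ (el v)‖ ≤ 1 then (deg M : ℝ) * A else 0) +
        ∑ t ∈ Finset.range (C * X + 1), if ‖σ (el v)‖ ≤ A * (1 / 2) ^ t then (1 : ℝ) else 0 := by
    intro v hv
    have hp := hne v hv σ
    have hsum0 : 0 ≤ ∑ t ∈ Finset.range (C * X + 1),
        if ‖σ (el v)‖ ≤ A * (1 / 2) ^ t then (1 : ℝ) else 0 :=
      Finset.sum_nonneg (fun t _ => by split_ifs <;> norm_num)
    by_cases h1 : ‖σ (el v)‖ ≤ 1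
    · rw [if_pos h1]
      have h2 : (1 : ℝ) ≤ ‖σ (el v)‖ * A ^ (deg M - 1) := by
        have h3 : (1 : ℝ) ≤ nrm v := by
          have := nrm_ne_zero (Finset.ne_of_mem_erase hv)
          exact_mod_cast Nat.one_le_iff_ne_zero.mpr this
        rw [nrm_eq_prod, ← Finset.mul_prod_erase Finset.univ _ (Finset.mem_univ σ)] at h3
        refine le_trans h3 (mul_le_mul_of_nonneg_left ?_ (norm_nonneg _))
        calc ∏ τ ∈ Finset.univ.erase σ, ‖τ (el v)‖ ≤ ∏ _τ ∈ Finset.univ.erase σ, A :=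
              Finset.prod_le_prod (fun τ _ => norm_nonneg _) (fun τ _ => hle v hv τ)
          _ = A ^ (deg M - 1) := by
              rw [Finset.prod_const, Finset.card_erase_of_mem (Finset.mem_univ _), Finset.card_univ,
                card_emb]
      have h4 : A / ‖σ (el v)‖ ≤ A ^ deg M := by
        rw [div_le_iff₀ hp]
        have h5 : A ^ deg M = A ^ (deg M - 1) * A := by
          rw [← pow_succ, Nat.sub_add_cancel (deg_pos (M := M))]
        rw [h5]
        nlinarith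
      have h5 : Real.log (A / ‖σ (el v)‖) ≤ deg M * A := by
        refine le_trans (Real.log_le_log (by positivity) h4) ?_
        rw [Real.log_pow]
        refine mul_le_mul_of_nonneg_left ?_ (Nat.cast_nonneg _)
        have := Real.log_le_sub_one_of_pos (show 0 < A by linarith)
        linarith
      linarith
    · rw [if_neg h1, zero_add]
      push Not at h1
      have h2 : 1 ≤ A / ‖σ (el v)‖ := by
        rw [le_div_iff₀ hp, one_mul]
        exact hle v hv σ
      have h3 : A / ‖σ (el v)‖ ≤ 2 ^ (C * X) := by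
        rw [div_le_iff₀ hp]
        have h4 : A ≤ 2 ^ (C * X) := by
          have h5 : C * X < 2 ^ (C * X) := Nat.lt_two_pow_self
          have h6 : ((C * X : ℕ) : ℝ) ≤ ((2 ^ (C * X) : ℕ) : ℝ) := by exact_mod_cast h5.le
          push_cast at h6
          exact h6
        have h7 : (0 : ℝ) < 2 ^ (C * X) := by positivity
        nlinarith
      refine le_trans (log_le_layers h2 (C * X) h3) ?_
      refine Finset.sum_le_sum (fun t _ => ?_)
      by_cases h4 : (2 : ℝ) ^ t ≤ A / ‖σ (el v)‖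
      · have h5 : ‖σ (el v)‖ ≤ A * (1 / 2) ^ t := by
          rw [le_div_iff₀ hp] at h4
          have h6 : (1 / 2 : ℝ) ^ t * 2 ^ t = 1 := by
            rw [← mul_pow]; norm_num
          have h7 : (0 : ℝ) < (1 / 2 : ℝ) ^ t := by positivity
          nlinarith
        rw [if_pos h4, if_pos h5]
      · rw [if_neg h4]
        split_ifs <;> norm_num
  refine le_trans (Finset.sum_le_sum hterm) ?_
  rw [Finset.sum_add_distrib, Finset.sum_comm]
  have hpow : (2 * X + 1 : ℝ) ^ deg M = (2 * X + 1 : ℝ) ^ (deg M - 1) * (2 * X + 1) := by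
    rw [← pow_succ, Nat.sub_add_cancel (deg_pos (M := M))]
  have hB : (0 : ℝ) ≤ (2 * X + 1 : ℝ) ^ (deg M - 1) := by positivity
  -- small values
  have hS1 : ∑ v ∈ (box M X).erase 0, (if ‖σ (el v)‖ ≤ 1 then (deg M : ℝ) * A else 0) ≤
      C1 * (2 * (deg M * C)) * (2 * X + 1 : ℝ) ^ deg M := by
    calc ∑ v ∈ (box M X).erase 0, (if ‖σ (el v)‖ ≤ 1 then (deg M : ℝ) * A else 0)
        ≤ ∑ v ∈ box M X, (if ‖σ (el v)‖ ≤ 1 then (deg M : ℝ) * A else 0) := by
          refine Finset.sum_le_sum_of_subset_of_nonneg (Finset.erase_subset _ _) ?_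
          intro v _ _
          split_ifs
          · positivity
          · exact le_refl _
      _ = ((box M X).filter (fun v => ‖σ (el v)‖ ≤ 1)).card * ((deg M : ℝ) * A) := by
          rw [← Finset.sum_filter, Finset.sum_const, nsmul_eq_mul]
      _ ≤ (C1 * (1 + 1) * (2 * X + 1 : ℝ) ^ (deg M - 1)) * ((deg M : ℝ) * A) :=
          mul_le_mul_of_nonneg_right (hC1c X 1 zero_le_one σ) (by positivity)
      _ = C1 * (2 * (deg M * C)) * ((2 * X + 1 : ℝ) ^ (deg M - 1) * X) := by rw [hA]; ring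
      _ ≤ C1 * (2 * (deg M * C)) * (2 * X + 1 : ℝ) ^ deg M := by
          rw [hpow]
          refine mul_le_mul_of_nonneg_left ?_ (by positivity)
          refine mul_le_mul_of_nonneg_left ?_ hB
          linarith
  have hS2 : ∑ t ∈ Finset.range (C * X + 1), ∑ v ∈ (box M X).erase 0,
      (if ‖σ (el v)‖ ≤ A * (1 / 2) ^ t then (1 : ℝ) else 0) ≤
        C1 * (2 * C + (C + 1)) * (2 * X + 1 : ℝ) ^ deg M := by
    have h1 : ∀ t ∈ Finset.range (C * X + 1), ∑ v ∈ (box M X).erase 0,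
        (if ‖σ (el v)‖ ≤ A * (1 / 2) ^ t then (1 : ℝ) else 0) ≤
          (C1 * (2 * X + 1 : ℝ) ^ (deg M - 1)) * (A * (1 / 2) ^ t + 1) := by
      intro t _
      calc ∑ v ∈ (box M X).erase 0, (if ‖σ (el v)‖ ≤ A * (1 / 2) ^ t then (1 : ℝ) else 0)
          ≤ ∑ v ∈ box M X, (if ‖σ (el v)‖ ≤ A * (1 / 2) ^ t then (1 : ℝ) else 0) := by
            refine Finset.sum_le_sum_of_subset_of_nonneg (Finset.erase_subset _ _) ?_
            intro v _ _
            split_ifs <;> norm_num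
        _ = ((box M X).filter (fun v => ‖σ (el v)‖ ≤ A * (1 / 2) ^ t)).card := by
            rw [← Finset.sum_filter, Finset.sum_const, nsmul_eq_mul, mul_one]
        _ ≤ C1 * (A * (1 / 2) ^ t + 1) * (2 * X + 1 : ℝ) ^ (deg M - 1) :=
            hC1c X _ (by positivity) σ
        _ = _ := by ring
    refine le_trans (Finset.sum_le_sum h1) ?_
    rw [← Finset.mul_sum, Finset.sum_add_distrib, ← Finset.mul_sum, Finset.sum_const, nsmul_eq_mul,
      Finset.card_range, mul_one]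
    have h2 := sum_geometric_two_le (C * X + 1)
    have h3 : A * ∑ i ∈ Finset.range (C * X + 1), (1 / 2 : ℝ) ^ i + ((C * X + 1 : ℕ) : ℝ) ≤
        (2 * C + (C + 1)) * (2 * X + 1) := by
      push_cast
      have h4 : A * ∑ i ∈ Finset.range (C * X + 1), (1 / 2 : ℝ) ^ i ≤ A * 2 :=
        mul_le_mul_of_nonneg_left h2 (by linarith)
      rw [hA] at h4 ⊢
      nlinarith
    calc C1 * (2 * X + 1 : ℝ) ^ (deg M - 1) *
          (A * ∑ i ∈ Finset.range (C * X + 1), (1 / 2 : ℝ) ^ i + ((C * X + 1 : ℕ) : ℝ))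
        ≤ C1 * (2 * X + 1 : ℝ) ^ (deg M - 1) * ((2 * C + (C + 1)) * (2 * X + 1)) :=
          mul_le_mul_of_nonneg_left h3 (by positivity)
      _ = C1 * (2 * C + (C + 1)) * (2 * X + 1 : ℝ) ^ deg M := by rw [hpow]; ring
  calc _ ≤ C1 * (2 * (deg M * C)) * (2 * X + 1 : ℝ) ^ deg M +
        C1 * (2 * C + (C + 1)) * (2 * X + 1 : ℝ) ^ deg M := add_le_add hS1 hS2
    _ = _ := by ring

/-- lower bound for the sum of the logarithms of the norms -/
theorem sum_log_lower (M : Type*) [Field M] [NumberField M] : ∃ C : ℝ, ∀ X : ℕ, 1 ≤ X →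
    (2 * X + 1 : ℝ) ^ deg M * (deg M * Real.log X) - C * (2 * X + 1 : ℝ) ^ deg M ≤
      ∑ v ∈ (box M X).erase 0, Real.log (nrm v) := by
  obtain ⟨C, hC1, K, hK0, hK⟩ := sum_defect M
  refine ⟨deg M * K + deg M, fun X hX => ?_⟩
  obtain ⟨hb, hd⟩ := hK X hX
  have hX1 : (1 : ℝ) ≤ X := by exact_mod_cast hX
  have hCr : (1 : ℝ) ≤ C := by exact_mod_cast hC1
  set A : ℝ := C * X with hA
  have hA1 : 1 ≤ A := by rw [hA]; nlinarith
  have hne : ∀ v ∈ (box M X).erase 0, ∀ τ : M →+* ℂ, 0 < ‖τ (el v)‖ := by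
    intro v hv τ
    rw [norm_pos_iff]
    intro h
    rw [map_eq_zero] at h
    exact el_ne_zero (Finset.ne_of_mem_erase hv) (RingOfIntegers.ext h)
  have h1 : ∀ v ∈ (box M X).erase 0, Real.log (nrm v) =
      deg M * Real.log A - ∑ σ : M →+* ℂ, Real.log (A / ‖σ (el v)‖) := by
    intro v hv
    rw [nrm_eq_prod, Real.log_prod (fun σ _ => (hne v hv σ).ne')]
    have h2 : ∀ σ ∈ (Finset.univ : Finset (M →+* ℂ)), Real.log (A / ‖σ (el v)‖) =
        Real.log A - Real.log ‖σ (el v)‖ := by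
      intro σ _
      rw [Real.log_div (by positivity) (hne v hv σ).ne']
    rw [Finset.sum_congr rfl h2, Finset.sum_sub_distrib, Finset.sum_const, Finset.card_univ, card_emb,
      nsmul_eq_mul]
    ring
  rw [Finset.sum_congr rfl h1, Finset.sum_sub_distrib, Finset.sum_const, nsmul_eq_mul,
    Finset.card_erase_of_mem (zero_mem_box X), card_box, Finset.sum_comm]
  have h3 : ∑ σ : M →+* ℂ, ∑ v ∈ (box M X).erase 0, Real.log (A / ‖σ (el v)‖) ≤
      deg M * (K * (2 * X + 1 : ℝ) ^ deg M) := by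
    refine le_trans (Finset.sum_le_sum (fun σ _ => hd σ)) ?_
    rw [Finset.sum_const, Finset.card_univ, card_emb, nsmul_eq_mul]
  have h4 : (((2 * X + 1) ^ deg M - 1 : ℕ) : ℝ) = (2 * X + 1 : ℝ) ^ deg M - 1 := by
    rw [Nat.cast_sub (Nat.one_le_pow _ _ (by omega))]
    push_cast
    ring
  rw [h4]
  have h5 : Real.log X ≤ Real.log A := Real.log_le_log (by linarith) (by rw [hA]; nlinarith)
  have h6 : (1 : ℝ) ≤ (2 * X + 1 : ℝ) ^ deg M := one_le_pow₀ (by linarith)
  have h7 : Real.log X ≤ (2 * X + 1 : ℝ) ^ deg M := by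
    have h8 := Real.log_le_sub_one_of_pos (show (0 : ℝ) < X by linarith)
    have h9 : (2 * X + 1 : ℝ) ≤ (2 * X + 1 : ℝ) ^ deg M :=
      le_self_pow₀ (by linarith) (deg_pos (M := M)).ne'
    linarith
  have h8 : (0 : ℝ) ≤ Real.log X := Real.log_nonneg hX1
  have h9 : (0 : ℝ) ≤ deg M := Nat.cast_nonneg _
  have h10 : ((2 * X + 1 : ℝ) ^ deg M - 1) * (deg M * Real.log X) ≤
      ((2 * X + 1 : ℝ) ^ deg M - 1) * (deg M * Real.log A) :=
    mul_le_mul_of_nonneg_left (mul_le_mul_of_nonneg_left h5 h9) (by linarith)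
  have h11 : deg M * Real.log X ≤ deg M * (2 * X + 1 : ℝ) ^ deg M := mul_le_mul_of_nonneg_left h7 h9
  nlinarith

/-- upper bound for the sum of the logarithms of the norms -/
theorem sum_log_upper (M : Type*) [Field M] [NumberField M] : ∃ C : ℝ, ∀ X : ℕ, 1 ≤ X →
    ∑ v ∈ (box M X).erase 0, Real.log (nrm v) ≤
      (2 * X + 1 : ℝ) ^ deg M * (deg M * Real.log X + C) := by
  obtain ⟨C, hC1, hC⟩ := nrm_bound M
  refine ⟨Real.log C, fun X hX => ?_⟩
  have hX1 : (1 : ℝ) ≤ X := by exact_mod_cast hX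
  have hCr : (1 : ℝ) ≤ C := by exact_mod_cast hC1
  have h1 : ∀ v ∈ (box M X).erase 0, Real.log (nrm v) ≤ deg M * Real.log X + Real.log C := by
    intro v hv
    have h2 : (nrm v : ℝ) ≤ C * (X : ℝ) ^ deg M := by
      exact_mod_cast hC X v (Finset.mem_of_mem_erase hv)
    have h3 : (0 : ℝ) < nrm v := by
      exact_mod_cast Nat.pos_of_ne_zero (nrm_ne_zero (Finset.ne_of_mem_erase hv))
    refine le_trans (Real.log_le_log h3 h2) ?_
    rw [Real.log_mul (by positivity) (by positivity), Real.log_pow]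
    linarith
  refine le_trans (Finset.sum_le_sum h1) ?_
  rw [Finset.sum_const, nsmul_eq_mul, Finset.card_erase_of_mem (zero_mem_box X), card_box]
  refine mul_le_mul_of_nonneg_right ?_ ?_
  · have h4 : (((2 * X + 1) ^ deg M - 1 : ℕ) : ℝ) ≤ (((2 * X + 1) ^ deg M : ℕ) : ℝ) := by
      exact_mod_cast Nat.sub_le _ _
    push_cast at h4
    exact h4
  · have h5 := Real.log_nonneg hX1
    have h6 := Real.log_nonneg hCr
    positivity

end Pool.Agent.ORB
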