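import Pool.Agent.ORB.GOrb

/-!
ORB, Theorem V++, row G6b: eventual stability is inherited by finite extensions of the field.
-/

set_option autoImplicit false

namespace Pool.Agent.ORB.GP

open Polynomial NI NumberField IsDedekindDomain IntermediateField

theorem itp_map {K K' : Type*} [Field K] [Field K'] [Algebra K K'] (h : K[X]) (n : ℕ) :
    itp (h.map (algebraMap K K')) n = (itp h n).map (algebraMap K K') := by
  induction n with
  | zero => simp [itp]
  | succ n ih =>
    have e1 : ∀ {F : Type _} [Field F] (f : F[X]), itp f (n + 1) = f.comp (itp f n) := by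
      intro F _ f
      unfold itp
      rw [Function.iterate_succ_apply']
    have e2 : itp h (n + 1) = h.comp (itp h n) := by
      unfold itp
      rw [Function.iterate_succ_apply']
    rw [e1, ih, e2, map_comp]

theorem natDegree_le_mul {K K' Ω : Type*} [Field K] [Field K'] [Algebra K K'] [FiniteDimensional K K']
    [Field Ω] [Algebra K Ω] [Algebra K' Ω] [IsScalarTower K K' Ω] (z : Ω) (hz : IsIntegral K' z) :
    (minpoly K z).natDegree ≤ Module.finrank K K' * (minpoly K' z).natDegree := by
  have : FiniteDimensional K' K'⟮z⟯ := adjoin.finiteDimensional hz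
  have : FiniteDimensional K K'⟮z⟯ := FiniteDimensional.trans K K' K'⟮z⟯
  have h1 := minpoly.natDegree_le (A := K) (AdjoinSimple.gen K' z)
  have hst : IsScalarTower K K'⟮z⟯ Ω := by
    refine IsScalarTower.of_algebraMap_eq fun x => ?_
    rw [IsScalarTower.algebraMap_apply K K' Ω, IsScalarTower.algebraMap_apply K K' K'⟮z⟯]
    rfl
  have h2 : minpoly K (AdjoinSimple.gen K' z) = minpoly K z := by
    have h3 := minpoly.algebraMap_eq (A := K) (algebraMap K'⟮z⟯ Ω).injective (AdjoinSimple.gen K' z)
    rw [AdjoinSimple.algebraMap_gen] at h3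
    exact h3.symm
  rw [h2, ← Module.finrank_mul_finrank K K' K'⟮z⟯, adjoin.finrank hz] at h1
  exact h1

/-- **G6b** (extension of the field) -/
theorem EvStable.ext {K K' : Type*} [Field K] [CharZero K] [Field K'] [Algebra K K'] [FiniteDimensional K K']
    {h : K[X]} (hd : 1 ≤ h.natDegree) {b : K} (hst : EvStable h b) :
    EvStable (h.map (algebraMap K K')) (algebraMap K K' b) := by
  classical
  obtain ⟨B, hC⟩ := hst
  set e := Module.finrank K K' with he
  refine ⟨B * e, fun n s hs => ?_⟩
  -- roots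
  have hroot : ∀ Q ∈ s, ∃ z : AlgebraicClosure K', minpoly K' z = Q := by
    intro Q hQ
    obtain ⟨h1, h2, -⟩ := hs Q hQ
    have h3 : Q.degree ≠ 0 := by
      intro h0
      exact h2.not_isUnit (isUnit_iff_degree_eq_zero.2 h0)
    obtain ⟨z, hz⟩ := IsAlgClosed.exists_aeval_eq_zero (AlgebraicClosure K') Q h3
    exact ⟨z, (minpoly.eq_of_irreducible_of_monic h2 hz h1).symm⟩
  choose! z hz using hroot
  set φ : K'[X] → K[X] := fun Q => minpoly K (z Q) with hφ
  have hii : Algebra.IsIntegral K K' := Algebra.IsIntegral.of_finite K K'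
  have hint : ∀ Q, IsIntegral K (z Q) := fun Q =>
    isIntegral_trans (R := K) (A := K') (z Q) (Algebra.IsIntegral.isIntegral (z Q))
  have hint' : ∀ Q, IsIntegral K' (z Q) := fun Q => Algebra.IsIntegral.isIntegral (z Q)
  have hC' : (s.image φ).card ≤ B := by
    refine hC n _ fun P hP => ?_
    obtain ⟨Q, hQ, rfl⟩ := Finset.mem_image.1 hP
    refine ⟨minpoly.monic (hint Q), minpoly.irreducible (hint Q), minpoly.dvd _ _ ?_⟩
    obtain ⟨-, -, R, hR⟩ := hs Q hQ
    have h1 : aeval (z Q) (itp (h.map (algebraMap K K')) n - C (algebraMap K K' b)) = 0 := by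
      have h0 : aeval (z Q) Q = 0 := by
        have h00 := minpoly.aeval K' (z Q)
        rwa [hz Q hQ] at h00
      rw [hR, map_mul, h0, zero_mul]
    rw [itp_map, ← map_C, ← Polynomial.map_sub, aeval_map_algebraMap] at h1
    exact h1
  have hfib : ∀ P ∈ s.image φ, (s.filter fun Q => φ Q = P).card ≤ e := by
    intro P hP
    obtain ⟨Q0, hQ0, rfl⟩ := Finset.mem_image.1 hP
    set P := φ Q0 with hPdef
    have hPm : P.Monic := minpoly.monic (hint Q0)
    have hP0 : 0 < P.natDegree := minpoly.natDegree_pos (hint Q0)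
    have h1 : ∏ Q ∈ s.filter (fun Q => φ Q = P), Q ∣ P.map (algebraMap K K') := by
      refine Finset.prod_dvd_of_coprime ?_ fun Q hQ => ?_
      · intro Q hQ Q' hQ' hne
        obtain ⟨hm, hi, -⟩ := hs Q (Finset.mem_filter.1 hQ).1
        obtain ⟨hm', hi', -⟩ := hs Q' (Finset.mem_filter.1 hQ').1
        refine (hi.coprime_iff_not_dvd).2 fun hdv => hne ?_
        exact eq_of_monic_of_associated hm hm' (hi.associated_of_dvd hi' hdv)
      · obtain ⟨hQs, hQP⟩ := Finset.mem_filter.1 hQ
        have h2 : aeval (z Q) (P.map (algebraMap K K')) = 0 := by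
          rw [aeval_map_algebraMap, ← hQP]
          exact minpoly.aeval K (z Q)
        have h3 := minpoly.dvd K' (z Q) h2
        rwa [hz Q hQs] at h3
    have h2 := natDegree_le_of_dvd h1 (hPm.map _).ne_zero
    rw [natDegree_map, natDegree_prod_of_monic _ _
      fun Q hQ => (hs Q (Finset.mem_filter.1 hQ).1).1] at h2
    have h3 : ∀ Q ∈ s.filter (fun Q => φ Q = P), P.natDegree ≤ e * Q.natDegree := by
      intro Q hQ
      obtain ⟨hQs, hQP⟩ := Finset.mem_filter.1 hQ
      have h4 := natDegree_le_mul (K := K) (K' := K') (z Q) (hint' Q)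
      rw [hz Q hQs] at h4
      rw [← hQP]
      exact h4
    have h4 : (s.filter fun Q => φ Q = P).card * P.natDegree ≤ e * P.natDegree := by
      calc (s.filter fun Q => φ Q = P).card * P.natDegree
          = ∑ _Q ∈ s.filter (fun Q => φ Q = P), P.natDegree := by rw [Finset.sum_const, smul_eq_mul]
        _ ≤ ∑ Q ∈ s.filter (fun Q => φ Q = P), e * Q.natDegree := Finset.sum_le_sum h3
        _ = e * ∑ Q ∈ s.filter (fun Q => φ Q = P), Q.natDegree := by rw [Finset.mul_sum]
        _ ≤ e * P.natDegree := Nat.mul_le_mul_left _ h2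
    exact Nat.le_of_mul_le_mul_right h4 hP0
  rw [Finset.card_eq_sum_card_image φ s]
  calc ∑ P ∈ s.image φ, (s.filter fun Q => φ Q = P).card ≤ ∑ _P ∈ s.image φ, e := Finset.sum_le_sum hfib
    _ = (s.image φ).card * e := by rw [Finset.sum_const, smul_eq_mul]
    _ ≤ B * e := Nat.mul_le_mul_right _ hC'

end Pool.Agent.ORB.GP
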