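import Pool.Agent.ORB.GEngine
import Pool.Agent.ORB.GFresh
import Pool.Agent.ORB.GPerm
import Pool.Agent.ORB.GExtRA
import Pool.Agent.ORB.GDatum
import Pool.Agent.ORB.GOrb
import Pool.Agent.ORB.GExt

/-!
ORB, Theorem V++: the engine, the extension property and the datum, closed.
-/

set_option autoImplicit false

namespace Pool.Agent.ORB.GP

open Polynomial NI NumberField IsDedekindDomain

universe u

/-- **G5** (engine) -/
theorem engine {F W : Type u} [Field F] [NumberField F] [Field W] [Algebra F W] [IsAlgClosed W]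
    [Algebra.IsAlgebraic F W] (h : F[X]) (hd : 2 ≤ h.natDegree) (h6 : Nat.Coprime h.natDegree 6)
    (hc : CritCond h W) (r : W) (hr : ∀ n, 1 ≤ n → (ev h)^[n] r ≠ r)
    (hav : ∀ c : W, Crit h c → ∀ n, (ev h)^[n] c ≠ r)
    (htr : ∀ (l : ℕ) (y y' : W), (ev h)^[l] y = r → (ev h)^[l] y' = r → ∃ g : W ≃ₐ[F] W, g r = r ∧ g y = y')
    (T : Set W) (hT : T.Finite) (s₀ : W ≃ₐ[F] W) (hs₀ : s₀ r = r) :
    ∃ (N : ℕ) (s : W ≃ₐ[F] W), (∀ t ∈ T, s t = s₀ t) ∧ ∀ z : W, (ev h)^[N] z = r → s z ≠ z := by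
  have hodd : Odd h.natDegree := by
    rw [← Nat.not_even_iff_odd]
    intro h2
    have h3 := Nat.dvd_gcd h2.two_dvd (by norm_num : 2 ∣ 6)
    rw [Nat.Coprime] at h6
    rw [h6] at h3
    omega
  exact engine_of (fun S hS R hR hRG h1 h2 h3 h5 s => exists_derange S hS R hR hRG h1 h2 h3 h5 s) h hd h6 r hav htr
    (fun T' hT' => fresh_swap h hd hodd hc r hr hav T' hT') T hT s₀ hs₀

/-- **G8** (the extension property) -/
theorem extR_gen {F W : Type u} [Field F] [NumberField F] [Field W] [Algebra F W] [IsAlgClosed W]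
    [Algebra.IsAlgebraic F W] (h : F[X]) (hd : 2 ≤ h.natDegree) (h6 : Nat.Coprime h.natDegree 6)
    (hc : CritCond h W) (b : F) (hb : Function.Injective fun n : ℕ => (fun x => eval x h)^[n] b)
    (hst : EvStable h b) : ExtR W (polyRP h) (b : OnePoint F) :=
  extR_gen_of h hd b hb (exists_tran h (by omega) b hst)
    (fun r hr hav htr T hT s₀ hs₀ => engine h hd h6 hc r hr hav htr T hT s₀ hs₀)

/-- **G9** -/
theorem hasDatum_gen {K : Type u} [Field K] [NumberField K] (f : RatFunc K) (β : OnePoint K)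
    (hβ : Function.Injective fun n : ℕ => (ract (RingHom.id K) f)^[n] β) (h : GenConj f β) : HasDatum f β :=
  hasDatum_gen_of (fun _ _ _ _ _ _ _ _ h hd h6 hc b hb hst => extR_gen h hd h6 hc b hb hst)
    (fun _ _ _ _ _ _ _ _ hd _ hst => EvStable.ext hd hst) f β hβ h

end Pool.Agent.ORB.GP
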