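import Pool.Agent.ORB.NTopB

/-!
ORB, Theorem V++ (polynomials whose critical points are in general position), definitions.
-/

set_option autoImplicit false

namespace Pool.Agent.ORB.GP

open Polynomial NI NumberField IsDedekindDomain

universe u

/-- the orbit of `z` is infinite -/
def Wand {K Ω : Type*} [Field K] [Field Ω] [Algebra K Ω] (h : K[X]) (z : Ω) : Prop :=
  Function.Injective fun n : ℕ => (ev h)^[n] z

/-- `c` is a critical point -/
def Crit {K Ω : Type*} [Field K] [Field Ω] [Algebra K Ω] (h : K[X]) (c : Ω) : Prop :=
  aeval c (derivative h) = 0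

/-- `c` is a simple critical point -/
def Simp {K Ω : Type*} [Field K] [Field Ω] [Algebra K Ω] (h : K[X]) (c : Ω) : Prop :=
  aeval c (derivative h) = 0 ∧ aeval c (derivative (derivative h)) ≠ 0

/-- the condition on the critical points with infinite orbit: they are simple or have an odd ramification index, at
least one of them is simple, and different simple ones have different images -/
structure CritCond {K : Type*} [Field K] (h : K[X]) (Ω : Type*) [Field Ω] [Algebra K Ω] : Prop where
  odd : ∀ c : Ω, Crit h c → Wand h c → Simp h c ∨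
    Even (rootMultiplicity c ((derivative h).map (algebraMap K Ω)))
  ex : ∃ c : Ω, Simp h c ∧ Wand h c
  sep : ∀ c c' : Ω, Simp h c → Simp h c' → Wand h c → Wand h c' → ev h c = ev h c' → c = c'

/-- the polynomials of the iterates -/
noncomputable def itp {K : Type*} [Field K] (h : K[X]) (n : ℕ) : K[X] := h.comp^[n] X

/-- eventual stability: the number of different irreducible factors of `h^n(x) - b` is bounded -/
def EvStable {K : Type*} [Field K] (h : K[X]) (b : K) : Prop :=
  ∃ C : ℕ, ∀ (n : ℕ) (s : Finset K[X]), (∀ P ∈ s, P.Monic ∧ Irreducible P ∧ P ∣ itp h n - Polynomial.C b) →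
    s.card ≤ C

/-- local conditions which give eventual stability -/
def LocT {L : Type*} [Field L] [NumberField L] (h : L[X]) (b : L) : Prop :=
  ∃ v : HeightOneSpectrum (𝓞 L), (∀ i, v.valuation L (h.coeff i) ≤ 1) ∧ v.valuation L h.leadingCoeff = 1 ∧
    (1 < v.valuation L b ∨ ((∃ m, 1 ≤ m ∧ v.valuation L ((fun x => eval x h)^[m] b - b) < 1) ∧
      ∀ n i, 0 < i → i < h.natDegree → v.valuation L ((taylor ((fun x => eval x h)^[n] b) h).coeff i) < 1))

end Pool.Agent.ORB.GP
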