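import Pool.Agent.ORB.NLocal
import Pool.Agent.ORB.GDefs

/-!
ORB, Theorem V++, row G2: the local swap lemma.
-/

set_option autoImplicit false

namespace Pool.Agent.ORB.GP

open Polynomial IntermediateField NI

section
variable {F Ω : Type*} [Field F] [Field Ω] [Algebra F Ω] [CharZero F] [IsAlgClosed Ω]
  [Algebra.IsAlgebraic F Ω] {D : LocAbs F Ω} {h : F[X]}

/-- `c` is critical and some iterate of `c` is close to `r` -/
def Act (D : LocAbs F Ω) (h : F[X]) (r : F) (c : Ω) : Prop :=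
  ∃ n, 1 ≤ n ∧ D.N ((ev h)^[n] c - algebraMap F Ω r) < 1

omit [CharZero F] [IsAlgClosed Ω] [Algebra.IsAlgebraic F Ω] in
theorem N_two (hg : Good D h) : D.N (2 : Ω) = 1 := by
  have h1 := hg.tame 2 one_le_two hg.deg
  exact_mod_cast h1

omit [CharZero F] [IsAlgClosed Ω] [Algebra.IsAlgebraic F Ω] in
/-- a simple critical point has multiplicity one -/
theorem mult_simp [CharZero Ω] {c : Ω} (hc : Simp h c) :
    rootMultiplicity c (h.map (algebraMap F Ω)).derivative = 1 := by
  obtain ⟨h1, h2⟩ := hc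
  rw [dv_eq] at h1
  have h3 : (h.map (algebraMap F Ω)).derivative ≠ 0 := by
    intro h0
    apply h2
    rw [← eval_map_algebraMap, ← derivative_map, ← derivative_map, h0, derivative_zero, eval_zero]
  have h4 : 0 < rootMultiplicity c (h.map (algebraMap F Ω)).derivative := (rootMultiplicity_pos h3).2 h1
  have h5 : ¬ 1 < rootMultiplicity c (h.map (algebraMap F Ω)).derivative := by
    rw [one_lt_rootMultiplicity_iff_isRoot h3]
    rintro ⟨-, h6⟩
    apply h2
    rw [← eval_map_algebraMap, ← derivative_map, ← derivative_map]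
    exact h6
  omega

omit [Algebra.IsAlgebraic F Ω] in
/-- the value of `h z - h c` for `z` close to a critical point `c` -/
theorem N_near (hg : Good D h) {c z : Ω} (hc : Crit h c) (hz : D.N (z - c) < 1) :
    D.N (ev h z - ev h c) = D.N (z - c) ^ (rootMultiplicity c (h.map (algebraMap F Ω)).derivative + 1) := by
  have : CharZero Ω := charZero_of_injective_algebraMap (algebraMap F Ω).injective
  obtain ⟨H, -, h2, h3, h4, -⟩ := crit_expansion_mult hg hc
  rw [h2 z, N_mul, N_pow, na_eval_unit D.N D.nonarch H h3 h4 hz, mul_one]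

omit [CharZero F] [IsAlgClosed Ω] [Algebra.IsAlgebraic F Ω] in
theorem crit_int [CharZero Ω] (hg : Good D h) {c : Ω} (hc : Crit h c) : D.N c ≤ 1 :=
  na_root_le D.N D.nonarch _ hg.dcoef hg.dlead (by rw [← dv_eq]; exact hc)

omit [CharZero F] [IsAlgClosed Ω] [Algebra.IsAlgebraic F Ω] in
/-- a critical point close to a node is active -/
theorem act_of_near [CharZero Ω] (hg : Good D h) {r : F} (hr : D.N (algebraMap F Ω r) ≤ 1) {c z : Ω}
    (hc : Crit h c) (hz : D.N (z - c) < 1) {k : ℕ} (hk : 1 ≤ k) (hzk : z ∈ Node Ω h r k) : Act D h r c := by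
  refine ⟨k, hk, ?_⟩
  have h1 := hg.iter_cg (hg.node_int hr k hzk) (crit_int hg hc) hz k
  rw [N_symm, ← show (ev h)^[k] z = algebraMap F Ω r from hzk]
  exact h1

omit [Algebra.IsAlgebraic F Ω] in
/-- roots of `h x = y` close to a given point -/
theorem exists_near (hg : Good D h) {x y : Ω} (hxy : D.N (ev h x - y) < 1) :
    ∃ z, ev h z = y ∧ D.N (z - x) < 1 := by
  classical
  have hcz : CharZero Ω := charZero_of_injective_algebraMap (algebraMap F Ω).injective
  have hd := hg.deg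
  set P : Polynomial Ω := h.map (algebraMap F Ω) - Polynomial.C y with hP
  have hPd : P.natDegree = h.natDegree := by
    rw [hP, natDegree_sub_C, natDegree_map]
  have hPl : P.leadingCoeff = (h.map (algebraMap F Ω)).leadingCoeff := by
    rw [leadingCoeff, hPd, hP, coeff_sub, coeff_C, if_neg (by omega), sub_zero, leadingCoeff, natDegree_map]
  by_contra hcon
  push Not at hcon
  have h1 : P.eval x = ev h x - y := by
    rw [hP, eval_sub, eval_C, ← ev_eq]
  rw [← h1, (IsAlgClosed.splits P).eq_prod_roots, eval_mul, eval_C, map_mul, hPl, hg.lead', one_mul,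
    eval_multiset_prod, Multiset.map_map, map_multiset_prod, Multiset.map_map] at hxy
  refine absurd hxy (not_lt.2 (one_le_mprod _ fun t ht => ?_))
  rw [Multiset.mem_map] at ht
  obtain ⟨a, ha, rfl⟩ := ht
  have hP0 : P ≠ 0 := by
    rintro h0
    rw [h0, natDegree_zero] at hPd
    omega
  rw [mem_roots hP0, IsRoot, hP, eval_sub, eval_C, ← ev_eq, sub_eq_zero] at ha
  have h2 := hcon a ha
  rw [N_symm] at h2
  simpa using h2

section tower
variable {q : ℕ} (hq0 : q ≠ 0) (w : ℕ → Ω) (hw0 : w 0 = algebraMap F Ω D.π) (hw : ∀ n, w (n + 1) ^ q = w n)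
include hq0 hw0 hw

/-- a child outside the next field is close to an active simple critical point -/
theorem near_simple (hg : Good D h) {r : F} (hr : D.N (algebraMap F Ω r) ≤ 1)
    (hodd : ∀ c : Ω, Crit h c → Act D h r c →
      Simp h c ∨ Even (rootMultiplicity c ((derivative h).map (algebraMap F Ω))))
    (hq : ∀ e : ℕ, Odd e → e ≤ h.natDegree → e ∣ q) {k : ℕ} {z : Ω} (hz : z ∈ Node Ω h r (k + 1))
    (hy : ev h z ∈ MF D (w k)) (hzM : z ∉ MF D (w (k + 1))) :
    ∃ c, Simp h c ∧ Act D h r c ∧ D.N (z - c) < 1 := by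
  have hcz : CharZero Ω := charZero_of_injective_algebraMap (algebraMap F Ω).injective
  have hmono : MF D (w k) ≤ MF D (w (k + 1)) := w_mono hq0 w hw0 hw (Nat.le_succ k)
  have hzk : z ∉ MF D (w k) := fun h1 => hzM (hmono h1)
  have hval : ∀ x ∈ MF D (w k), x ≠ 0 → Pw D (w k) x := fun x hx h0 => w_val hq0 w hw0 hw hx h0
  have hzi := hg.node_int hr _ hz
  rcases child_cases D hg (muS_le _) hval hy hzk with ⟨h1, -⟩ | ⟨-, -, c, hc, hzc, -⟩
  · exact absurd hzi (not_le.2 h1)
  have hact := act_of_near hg hr hc hzc (Nat.succ_le_succ (Nat.zero_le k)) hz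
  rcases hodd c hc hact with h1 | h1
  · exact ⟨c, h1, hact, hzc⟩
  exfalso
  rw [← derivative_map] at h1
  have hcM : c ∈ MF D (w k) := crit_mem D hg (muS_le _) hc
  obtain ⟨H, hmd, -⟩ := crit_expansion_mult hg hc
  set e := rootMultiplicity c (h.map (algebraMap F Ω)).derivative + 1 with he
  have hN : D.N (ev h z - ev h c) = D.N (z - c) ^ e := N_near hg hc hzc
  have hne : ev h z - ev h c ≠ 0 := by
    intro h0
    rw [h0, N_zero] at hN
    have h2 : D.N (z - c) = 0 := (pow_eq_zero_iff (by omega)).1 hN.symm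
    rw [AbsoluteValue.eq_zero, sub_eq_zero] at h2
    exact hzk (h2 ▸ hcM)
  obtain ⟨j, hj⟩ := hval _ (sub_mem hy (aeval_mem' _ hcM h)) hne
  obtain ⟨q', hq'⟩ := hq e (by rw [he]; exact h1.add_one) hmd
  have hwk := w_ne hq0 w hw0 hw (k + 1)
  refine hzM (key_crit D hg (muS_le _) hc hzc (zpow_mem (mem_MF (w (k + 1))) ((q' : ℤ) * j))
    (zpow_ne_zero _ hwk) ?_ (hmono hy))
  rw [map_zpow₀]
  refine (pow_left_inj₀ (N_nonneg D _) (zpow_nonneg (N_nonneg D _) _) (by omega : e ≠ 0)).1 ?_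
  rw [← hN]
  have hj' : D.N (ev h z - ev h c) = D.N (w k) ^ j := hj
  rw [hj', ← hw k, N_pow, hq', ← zpow_natCast, ← zpow_natCast, ← zpow_mul, ← zpow_mul]
  congr 1
  push_cast
  ring

/-- the parity argument -/
theorem exists_level (hg : Good D h) {r : F} (hr : D.N (algebraMap F Ω r) ≤ 1) (hqo : Odd q)
    (c₀ : F) (hc₀ : Simp h (algebraMap F Ω c₀)) (n : ℕ) (hn : 1 ≤ n) (m : ℤ)
    (hm : D.N (algebraMap F Ω ((fun x => eval x h)^[n] c₀ - r)) = D.N (algebraMap F Ω D.π) ^ (2 * m + 1)) :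
    ∃ k, k ≤ n ∧ ∃ z ∈ Node Ω h r k, z ∉ MF D (w k) := by
  classical
  have hcz : CharZero Ω := charZero_of_injective_algebraMap (algebraMap F Ω).injective
  by_contra hcon
  push Not at hcon
  obtain ⟨n, rfl⟩ := Nat.exists_eq_add_of_le' hn
  set M := MF D (w (n + 1)) with hM
  have hval : ∀ x ∈ M, x ≠ 0 → Pw D (w (n + 1)) x := fun x hx h0 => w_val hq0 w hw0 hw hx h0
  have hmem : ∀ k, k ≤ n + 1 → ∀ z ∈ Node Ω h r k, z ∈ M := fun k hk z hz =>
    w_mono hq0 w hw0 hw hk (hcon k hk z hz)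
  have hwne := w_ne hq0 w hw0 hw (n + 1)
  have hwlt := w_lt (D := D) hq0 w hw0 hw (n + 1)
  have hwpos := N_pos D hwne
  set c : Ω := algebraMap F Ω c₀ with hc
  have hcM : c ∈ M := M.algebraMap_mem _
  have hci : D.N c ≤ 1 := crit_int hg hc₀.1
  -- the factors
  have hfac : ∀ y ∈ Node Ω h r n, ev h c - y ≠ 0 → ∃ j : ℤ, D.N (ev h c - y) = D.N (w (n + 1)) ^ (2 * j) := by
    intro y hy hne
    have hyi := hg.node_int hr _ hy
    have hle : D.N (ev h c - y) ≤ 1 := (N_sub_le D _ _).trans (max_le (hg.int hci) hyi)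
    rcases hle.lt_or_eq with hlt | heq
    · obtain ⟨z, hz, hzc⟩ := exists_near hg hlt
      have hzn : z ∈ Node Ω h r (n + 1) := by
        show (ev h)^[n + 1] z = _
        rw [Function.iterate_succ_apply, hz]
        exact hy
      have hzM := hmem (n + 1) le_rfl z hzn
      have hzne : z - c ≠ 0 := by
        intro h0
        apply hne
        rw [← hz, sub_eq_zero.1 h0, sub_self]
      obtain ⟨j, hj⟩ := hval _ (sub_mem hzM hcM) hzne
      refine ⟨j, ?_⟩
      rw [← hz, N_symm, N_near hg hc₀.1 hzc, mult_simp hc₀, hj, mul_comm, zpow_mul]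
      norm_cast
    · exact ⟨0, by rw [heq, mul_zero, zpow_zero]⟩
  -- the product
  have hprod : ∀ s : Multiset Ω, (∀ y ∈ s, y ∈ Node Ω h r n) → (s.map fun y => D.N (ev h c - y)).prod ≠ 0 →
      ∃ j : ℤ, (s.map fun y => D.N (ev h c - y)).prod = D.N (w (n + 1)) ^ (2 * j) := by
    intro s
    induction s using Multiset.induction_on with
    | empty => exact fun _ _ => ⟨0, by simp⟩
    | cons y s ih =>
      intro hs hne
      rw [Multiset.map_cons, Multiset.prod_cons] at hne ⊢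
      obtain ⟨hne1, hne2⟩ := mul_ne_zero_iff.1 hne
      obtain ⟨j, hj⟩ := ih (fun y hy => hs y (Multiset.mem_cons_of_mem hy)) hne2
      obtain ⟨i, hi⟩ := hfac y (hs y (Multiset.mem_cons_self y s)) (ne_zero_of_N D hne1)
      exact ⟨i + j, by rw [hj, hi, ← zpow_add₀ hwpos.ne']; congr 1; ring⟩
  set P : Polynomial Ω := (NI.itp h n).map (algebraMap F Ω) - Polynomial.C (algebraMap F Ω r) with hP
  obtain ⟨hd1, hd2⟩ := itp_lead hg n
  have hpos : 0 < h.natDegree ^ n := Nat.pow_pos (by have := hg.deg; omega)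
  have hPd : P.natDegree = h.natDegree ^ n := by
    rw [hP, natDegree_sub_C, natDegree_map, hd1]
  have hPl : D.N P.leadingCoeff = 1 := by
    have h1 : P.leadingCoeff = algebraMap F Ω (NI.itp h n).leadingCoeff := by
      rw [leadingCoeff, hPd, hP, coeff_sub, coeff_C, if_neg (by omega), sub_zero, coeff_map, leadingCoeff, hd1]
    rw [h1, hd2]
  have hP0 : P ≠ 0 := by
    rintro h0
    rw [h0, natDegree_zero] at hPd
    omega
  have hroot : ∀ y ∈ P.roots, y ∈ Node Ω h r n := by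
    intro y hy
    rw [mem_roots hP0, IsRoot, hP, eval_sub, eval_C, itp_eval, sub_eq_zero] at hy
    exact hy
  have hPe : P.eval (ev h c) = algebraMap F Ω ((fun x => eval x h)^[n + 1] c₀ - r) := by
    rw [hP, eval_sub, eval_C, itp_eval, map_sub, ← ev_algebraMap, Function.iterate_succ_apply]
  have hNe : (P.roots.map fun y => D.N (ev h c - y)).prod = D.N (algebraMap F Ω D.π) ^ (2 * m + 1) := by
    rw [← hm, ← hPe, (IsAlgClosed.splits P).eq_prod_roots, eval_mul, eval_C, map_mul, hPl, one_mul,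
      eval_multiset_prod, Multiset.map_map, map_multiset_prod, Multiset.map_map,
      ← (IsAlgClosed.splits P).eq_prod_roots]
    congr 1
    refine Multiset.map_congr rfl fun y _ => ?_
    simp
  have hπ0 : D.N (algebraMap F Ω D.π) ≠ 0 := by
    rw [← w_root hq0 w hw0 hw (n + 1), N_pow]
    exact pow_ne_zero _ hwpos.ne'
  obtain ⟨j, hj⟩ := hprod P.roots hroot (by rw [hNe]; exact zpow_ne_zero _ hπ0)
  rw [hNe, ← w_root hq0 w hw0 hw (n + 1), N_pow, ← zpow_natCast, ← zpow_mul] at hj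
  have h5 := zpow_right_injective₀ hwpos hwlt.ne hj
  have h6 : Odd (((q ^ (n + 1) : ℕ) : ℤ) * (2 * m + 1)) :=
    Odd.mul (by exact_mod_cast hqo.pow) (odd_two_mul_add_one m)
  rw [h5] at h6
  exact (Int.not_odd_iff_even.2 (even_two_mul j)) h6

end tower

omit [Algebra.IsAlgebraic F Ω] in
/-- three different points with the same image cannot be close to one simple critical point -/
theorem no_three (hg : Good D h) {c z1 z2 z3 : Ω} (hc : Simp h c) (h1 : D.N (z1 - c) < 1) (h2 : D.N (z2 - c) < 1)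
    (h3 : D.N (z3 - c) < 1) (e12 : ev h z1 = ev h z2) (e13 : ev h z1 = ev h z3) (n12 : z1 ≠ z2) (n13 : z1 ≠ z3)
    (n23 : z2 ≠ z3) : False := by
  have hcz : CharZero Ω := charZero_of_injective_algebraMap (algebraMap F Ω).injective
  obtain ⟨H, -, hexp, hHN, hH0, -⟩ := crit_expansion_mult hg hc.1
  rw [mult_simp hc] at hexp
  norm_num at hexp
  -- two points
  have key : ∀ x y : Ω, D.N (x - c) < 1 → D.N (y - c) < 1 → ev h x = ev h y → x ≠ y →
      D.N (x - c) = D.N (y - c) ∧ D.N ((x - c) + (y - c)) ≤ D.N (y - c) ^ 2 := by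
    intro x y hx hy hxy hne
    set t := x - c with ht
    set s := y - c with hs
    have hts : t - s ≠ 0 := by
      rw [ht, hs, sub_sub_sub_cancel_right, sub_ne_zero]
      exact hne
    have hHt := na_eval_unit D.N D.nonarch H hHN hH0 hx
    have hHs := na_eval_unit D.N D.nonarch H hHN hH0 hy
    have e1 : t ^ 2 * H.eval t = s ^ 2 * H.eval s := by
      rw [← hexp x, ← hexp y, hxy]
    constructor
    · have e2 := congrArg D.N e1
      rw [N_mul, N_mul, N_pow, N_pow, hHt, hHs, mul_one, mul_one] at e2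
      exact (pow_left_inj₀ (N_nonneg D _) (N_nonneg D _) two_ne_zero).1 e2
    · obtain ⟨k, hk, e3⟩ := eval_diff D H hHN hx.le hy.le
      set Q := H.derivative.eval s + (t - s) * k with hQ
      have hQN : D.N Q ≤ 1 := by
        refine (D.nonarch _ _).trans (max_le ?_ ?_)
        · refine eval_int D _ (fun n => ?_) hy.le
          rw [coeff_derivative, N_mul]
          refine mul_le_one₀ (hHN _) (N_nonneg D _) ?_
          have := na_nat_le D.N D.nonarch (n + 1)
          rwa [Nat.cast_succ] at this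
        · rw [N_mul]
          exact mul_le_one₀ ((N_sub_le D _ _).trans (max_le hx.le hy.le)) (N_nonneg D _) hk
      have e4 : (t - s) * ((t + s) * H.eval t + s ^ 2 * Q) = 0 := by
        have e5 : H.eval t = H.eval s + (t - s) * Q := by
          rw [hQ, ← e3]
          ring
        have e6 : (t - s) * ((t + s) * H.eval t + s ^ 2 * Q) = t ^ 2 * H.eval t - s ^ 2 * H.eval t +
            s ^ 2 * ((t - s) * Q) := by ring
        rw [e6, e1]
        rw [e5]
        ring
      have e7 := (mul_eq_zero.1 e4).resolve_left hts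
      have e8 : (t + s) * H.eval t = -(s ^ 2 * Q) := by linear_combination e7
      have e9 := congrArg D.N e8
      rw [N_mul, hHt, mul_one, N_neg, N_mul, N_pow] at e9
      rw [e9]
      exact mul_le_of_le_one_right (pow_nonneg (N_nonneg D _) _) hQN
  obtain ⟨a1, b1⟩ := key z1 z2 h1 h2 e12 n12
  obtain ⟨a2, b2⟩ := key z1 z3 h1 h3 e13 n13
  obtain ⟨a3, b3⟩ := key z2 z3 h2 h3 (e12.symm.trans e13) n23
  set ρ := D.N (z1 - c) with hρ
  rw [← a1] at b1 a3
  rw [← a2] at b2 b3
  have hρ0 : 0 < ρ := by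
    rcases (N_nonneg D (z1 - c)).lt_or_eq with h4 | h4
    · exact h4
    · exfalso
      have h5 : D.N (z1 - c) = 0 := h4.symm
      have h6 : D.N (z2 - c) = 0 := by rw [← a1]; exact h5
      rw [AbsoluteValue.eq_zero, sub_eq_zero] at h5 h6
      exact n12 (h5.trans h6.symm)
  have hlt : ρ ^ 2 < ρ := by nlinarith
  have e10 : (2 : Ω) * (z1 - c) = ((z1 - c) + (z2 - c)) + ((z1 - c) + (z3 - c)) - ((z2 - c) + (z3 - c)) := by ring
  have e11 : D.N ((2 : Ω) * (z1 - c)) ≤ ρ ^ 2 := by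
    rw [e10]
    exact (N_sub_le D _ _).trans (max_le ((D.nonarch _ _).trans (max_le b1 b2)) b3)
  rw [N_mul, N_two hg, one_mul] at e11
  linarith

end

/-- **G2** (local swap lemma) -/
theorem local_swap {F Ω : Type*} [Field F] [Field Ω] [Algebra F Ω] [CharZero F] [IsAlgClosed Ω]
    [Algebra.IsAlgebraic F Ω] (D : LocAbs F Ω) (h : F[X]) (hg : Good D h) (r : F)
    (hr : D.N (algebraMap F Ω r) ≤ 1)
    (hodd : ∀ c : Ω, Crit h c → (∃ n, 1 ≤ n ∧ D.N ((ev h)^[n] c - algebraMap F Ω r) < 1) →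
      Simp h c ∨ Even (rootMultiplicity c ((derivative h).map (algebraMap F Ω))))
    (hsep : ∀ c c' : Ω, Simp h c → Simp h c' → (∃ n, 1 ≤ n ∧ D.N ((ev h)^[n] c - algebraMap F Ω r) < 1) →
      (∃ n, 1 ≤ n ∧ D.N ((ev h)^[n] c' - algebraMap F Ω r) < 1) → c ≠ c' → ¬ D.N (ev h c - ev h c') < 1)
    (c₀ : F) (hc₀ : Simp h (algebraMap F Ω c₀)) (n : ℕ) (hn : 1 ≤ n) (m : ℤ)
    (hm : D.N (algebraMap F Ω ((fun x => eval x h)^[n] c₀ - r)) = D.N (algebraMap F Ω D.π) ^ (2 * m + 1)) :
    ∃ (A : Ω ≃ₐ[F] Ω) (l : ℕ), l < n ∧ (∀ k, k ≤ l → ∀ z ∈ Node Ω h r k, A z = z) ∧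
      (∃ z ∈ Node Ω h r (l + 1), A z ≠ z) ∧
      ∀ z ∈ Node Ω h r (l + 1), ∀ z', ev h z = ev h z' → A z ≠ z → A z' ≠ z' → z' = z ∨ z' = A z := by
  classical
  have hcz : CharZero Ω := charZero_of_injective_algebraMap (algebraMap F Ω).injective
  have hd := hg.deg
  -- the odd number
  set q : ℕ := ∏ e ∈ (Finset.range (h.natDegree + 1)).filter Odd, e with hq
  have hqo : Odd q := by
    rw [hq]
    refine Finset.prod_induction _ Odd (fun a b => Odd.mul) odd_one fun e he => (Finset.mem_filter.1 he).2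
  have hq0 : q ≠ 0 := fun h0 => by rw [h0] at hqo; exact absurd hqo (by decide)
  have hqd : ∀ e : ℕ, Odd e → e ≤ h.natDegree → e ∣ q := fun e he1 he2 =>
    Finset.dvd_prod_of_mem (fun e => e) (Finset.mem_filter.2 ⟨Finset.mem_range.2 (by omega), he1⟩)
  obtain ⟨w, hw0, hw⟩ := exists_tower hq0 (algebraMap F Ω D.π)
  -- the level
  have hex : ∃ k, ∃ z ∈ Node Ω h r k, z ∉ MF D (w k) := by
    obtain ⟨k, -, hk⟩ := exists_level hq0 w hw0 hw hg hr hqo c₀ hc₀ n hn m hm
    exact ⟨k, hk⟩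
  obtain ⟨k0, hk0n, hk0⟩ := exists_level hq0 w hw0 hw hg hr hqo c₀ hc₀ n hn m hm
  set j := Nat.find hex with hj
  have hjspec := Nat.find_spec hex
  have hjmin : ∀ k, k < j → ∀ z ∈ Node Ω h r k, z ∈ MF D (w k) := by
    intro k hk z hz
    by_contra hcon
    exact Nat.find_min hex hk ⟨z, hz, hcon⟩
  have hj0 : j ≠ 0 := by
    intro h0
    obtain ⟨z, hz, hzM⟩ := hjspec
    rw [← hj, h0] at hz hzM
    have h1 : z = algebraMap F Ω r := hz
    rw [h1] at hzM
    exact hzM ((MF D (w 0)).algebraMap_mem _)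
  have hjn : j ≤ n := (Nat.find_min' hex hk0).trans hk0n
  obtain ⟨l, hl⟩ := Nat.exists_eq_succ_of_ne_zero hj0
  rw [Nat.succ_eq_add_one] at hl
  rw [← hj, hl] at hjspec
  set M := MF D (w (l + 1)) with hM
  have hlow : ∀ k, k ≤ l → ∀ z ∈ Node Ω h r k, z ∈ M := fun k hk z hz =>
    w_mono hq0 w hw0 hw (by omega : k ≤ l + 1) (hjmin k (by omega) z hz)
  have hval : ∀ x ∈ M, x ≠ 0 → Pw D (w (l + 1)) x := fun x hx h0 => w_val hq0 w hw0 hw hx h0
  have hwne := w_ne hq0 w hw0 hw (l + 1)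
  obtain ⟨ϖ', hϖ'⟩ := IsAlgClosed.exists_pow_nat_eq (w (l + 1)) (n := 2) (by norm_num)
  obtain ⟨A, hA1, hA2⟩ := exists_aut D (Nat.one_le_iff_ne_zero.2 (pow_ne_zero (l + 1) hq0))
    (w_root hq0 w hw0 hw (l + 1)) (by norm_num : 1 ≤ 2) (by exact_mod_cast N_two hg) hϖ'
  -- children outside `M`
  have hchild : ∀ z ∈ Node Ω h r (l + 1), z ∉ M → ∃ c, Simp h c ∧ Act D h r c ∧ D.N (z - c) < 1 := by
    intro z hz hzM
    refine near_simple hq0 w hw0 hw hg hr hodd hqd hz ?_ hzM
    refine hjmin l (by omega) _ ?_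
    rw [Node_succ] at hz
    exact hz
  have hmove : ∀ z ∈ Node Ω h r (l + 1), z ∉ M → A z ≠ z := by
    intro z hz hzM
    obtain ⟨c, hc, -, hzc⟩ := hchild z hz hzM
    have hyM : ev h z ∈ M := hlow l le_rfl _ (Node_succ.1 hz)
    have hcM : c ∈ M := crit_mem D hg (muS_le _) hc.1
    have hN := N_near hg hc.1 hzc
    rw [mult_simp hc] at hN
    norm_num at hN
    have hne : ev h z - ev h c ≠ 0 := by
      intro h0
      rw [h0, N_zero] at hN
      have h2 : D.N (z - c) = 0 := (pow_eq_zero_iff two_ne_zero).1 hN.symm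
      rw [AbsoluteValue.eq_zero, sub_eq_zero] at h2
      exact hzM (h2 ▸ hcM)
    obtain ⟨i, hi⟩ := hval _ (sub_mem hyM (aeval_mem' _ hcM h)) hne
    have hi' : D.N (ev h z - ev h c) = D.N (w (l + 1)) ^ i := hi
    refine hA2 c hcM z ⟨i, ?_⟩ ?_
    · refine (pow_left_inj₀ (N_nonneg D _) (zpow_nonneg (N_nonneg D _) _) two_ne_zero).1 ?_
      rw [← hN, hi', ← hϖ', N_pow, ← zpow_natCast, ← zpow_natCast, ← zpow_mul, ← zpow_mul]
      congr 1
      ring
    · rintro ⟨k, hk⟩
      exact hzM (key_crit D hg (muS_le _) hc.1 hzc (zpow_mem (mem_MF _) k) (zpow_ne_zero k hwne)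
        (by rw [hk, map_zpow₀]) hyM)
  have hnotM : ∀ z, A z ≠ z → z ∉ M := fun z hz hzM => hz (hA1 z hzM)
  refine ⟨A, l, by omega, fun k hk z hz => hA1 z (hlow k hk z hz), ?_, ?_⟩
  · obtain ⟨z, hz, hzM⟩ := hjspec
    exact ⟨z, hz, hmove z hz hzM⟩
  · intro z hz z' hzz' hAz hAz'
    by_contra hcon
    push Not at hcon
    have hz' : z' ∈ Node Ω h r (l + 1) := by
      rw [Node_succ] at hz ⊢
      rw [← hzz']
      exact hz
    have hAzn : A z ∈ Node Ω h r (l + 1) := by
      rw [Node_succ, ← aut_ev, hA1 _ (hlow l le_rfl _ (Node_succ.1 hz))]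
      exact Node_succ.1 hz
    have hAev : ev h z = ev h (A z) := by
      rw [← aut_ev, hA1 _ (hlow l le_rfl _ (Node_succ.1 hz))]
    have hAM : A z ∉ M := by
      intro h1
      have h2 := hA1 _ h1
      exact hAz (A.injective h2)
    obtain ⟨c1, s1, a1, n1⟩ := hchild z hz (hnotM z hAz)
    obtain ⟨c2, s2, a2, n2⟩ := hchild z' hz' (hnotM z' hAz')
    obtain ⟨c3, s3, a3, n3⟩ := hchild (A z) hAzn hAM
    have hnear : ∀ x c : Ω, Simp h c → ev h x = ev h z → D.N (x - c) < 1 → D.N (ev h z - ev h c) < 1 := by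
      intro x c hc hx hxc
      rw [← hx, N_near hg hc.1 hxc]
      exact pow_lt_one₀ (N_nonneg D _) hxc (by omega)
    have t1 := hnear z c1 s1 rfl n1
    have t2 := hnear z' c2 s2 hzz'.symm n2
    have t3 := hnear (A z) c3 s3 hAev.symm n3
    have e12 : c1 = c2 := by
      by_contra hne
      refine hsep c1 c2 s1 s2 a1 a2 hne (N_lt_trans D ?_ t2)
      rw [N_symm]
      exact t1
    have e13 : c1 = c3 := by
      by_contra hne
      refine hsep c1 c3 s1 s3 a1 a3 hne (N_lt_trans D ?_ t3)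
      rw [N_symm]
      exact t1
    subst e12
    subst e13
    exact no_three hg s1 n1 n2 n3 hzz' hAev (Ne.symm hcon.1) hAz.symm hcon.2

end Pool.Agent.ORB.GP
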