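import Pool.Agent.ORB.URoot

/-!
# ORB V+, row U4 (part 2): Runge's method, global form
-/

set_option autoImplicit false

open Polynomial Filter NumberField IsDedekindDomain

namespace Pool.Agent.ORB.URoot

open VWin

universe u

variable {L : Type u} [Field L] [NumberField L]

/-- outside the primes of `c` and `x 0` the orbit is integral -/
theorem orbit_int {d : ℕ} (c : L) (x : ℕ → L) (hx : ∀ n, x (n + 1) = x n ^ d + c)
    (w : HeightOneSpectrum (𝓞 L)) (h0 : w.valuation L (x 0) ≤ 1) (hc : w.valuation L c ≤ 1) (n : ℕ) :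
    w.valuation L (x n) ≤ 1 := by
  have cI : c ∈ (w.valuation L).integer := hc
  have h : x n ∈ (w.valuation L).integer := by
    induction n with
    | zero => exact h0
    | succ n ih => rw [hx]; exact Subring.add_mem _ (Subring.pow_mem _ ih d) cI
  exact h

theorem pabv_inl_le_one_of {w : HeightOneSpectrum (𝓞 L)} {y : L} (h : w.valuation L y ≤ 1) :
    pabv (Sum.inl w) y ≤ 1 := by
  have h3 := (WithZeroMulInt.toNNReal_strictMono
    (one_lt_two : (1 : NNReal) < 2)).monotone h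
  rw [map_one] at h3
  exact_mod_cast h3

/-- **Runge's method** for `q`-th roots `W n` of `H (x n)` which are close to `x n ^ D` at every
escaping place: `H` is a `q`-th power. -/
theorem rungeQ {d : ℕ} (hd : 2 ≤ d) (c : L) (x : ℕ → L) (hx : ∀ n, x (n + 1) = x n ^ d + c)
    (hinj : Function.Injective x) {q D : ℕ} (hq : 2 ≤ q) (H : L[X]) (hH : H.Monic)
    (hHd : H.natDegree = q * D) (I : Set ℕ) (hI : I.Infinite) (W : ℕ → L)
    (hW : ∀ n ∈ I, W n ^ q = H.eval (x n))
    (hnear : ∀ i : HeightOneSpectrum (𝓞 L) ⊕ (L →+* ℂ),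
      Tendsto (fun n => pabv i (x n)) atTop atTop → ∀ ε : ℝ, 0 < ε → ∃ n0 : ℕ, ∀ n ∈ I, n0 ≤ n →
        pabv i (W n - x n ^ D) ≤ ε * pabv i (x n) ^ D) :
    ∃ S : L[X], H = S ^ q := by
  classical
  have hq0 : q ≠ 0 := by omega
  have hqF : (q : L) ≠ 0 := by exact_mod_cast hq0
  obtain ⟨P, hP, hPm, hR'⟩ := approx_root hq hqF hH hHd D le_rfl
  have hR : ∀ i, (q - 1) * D ≤ i → (H - P ^ q).coeff i = 0 := fun i hi => hR' i (by
    obtain ⟨r, rfl⟩ : ∃ r, q = r + 1 := ⟨q - 1, by omega⟩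
    have : (r + 1) * D = r * D + D := by ring
    rw [Nat.add_sub_cancel] at hi
    omega)
  -- the primes
  set S : Finset (HeightOneSpectrum (𝓞 L)) :=
    (HeightOneSpectrum.Support.finite (𝓞 L) c).toFinset ∪
    (HeightOneSpectrum.Support.finite (𝓞 L) (x 0)).toFinset ∪
    ((Finset.range (P.natDegree + 1)).biUnion fun i =>
      (HeightOneSpectrum.Support.finite (𝓞 L) (P.coeff i)).toFinset) ∪
    ((Finset.range (H.natDegree + 1)).biUnion fun i =>
      (HeightOneSpectrum.Support.finite (𝓞 L) (H.coeff i)).toFinset) with hS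
  have hint : ∀ w ∉ S, w.valuation L c ≤ 1 ∧ w.valuation L (x 0) ≤ 1 ∧
      (∀ i, w.valuation L (P.coeff i) ≤ 1) ∧ ∀ i, w.valuation L (H.coeff i) ≤ 1 := by
    intro w hw
    rw [hS, Finset.mem_union, Finset.mem_union, Finset.mem_union, Set.Finite.mem_toFinset,
      Set.Finite.mem_toFinset, Finset.mem_biUnion, Finset.mem_biUnion] at hw
    push Not at hw
    obtain ⟨⟨⟨h1, h0⟩, h2⟩, h3⟩ := hw
    refine ⟨?_, ?_, fun i => ?_, fun i => ?_⟩
    · by_contra h
      exact h1 (not_le.1 h)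
    · by_contra h
      exact h0 (not_le.1 h)
    · by_cases hi : i < P.natDegree + 1
      · by_contra h
        exact h2 i (Finset.mem_range.2 hi) ((Set.Finite.mem_toFinset _).2 (not_le.1 h))
      · rw [coeff_eq_zero_of_natDegree_lt (by omega), map_zero]
        exact zero_le_one
    · by_cases hi : i < H.natDegree + 1
      · by_contra h
        exact h3 i (Finset.mem_range.2 hi) ((Set.Finite.mem_toFinset _).2 (not_le.1 h))
      · rw [coeff_eq_zero_of_natDegree_lt (by omega), map_zero]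
        exact zero_le_one
  have hxint : ∀ w ∉ S, ∀ n, w.valuation L (x n) ≤ 1 := fun w hw n =>
    orbit_int c x hx w (hint w hw).2.1 (hint w hw).1 n
  have hevint : ∀ w ∉ S, ∀ (f : L[X]), (∀ i, w.valuation L (f.coeff i) ≤ 1) → ∀ n,
      w.valuation L (f.eval (x n)) ≤ 1 := by
    intro w hw f hf n
    have h : f.eval (x n) ∈ (w.valuation L).integer := by
      rw [eval_eq_sum_range]
      exact Subring.sum_mem _ fun i _ => Subring.mul_mem _ (hf i)
        (Subring.pow_mem _ (hxint w hw n) i)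
    exact h
  -- the finite set
  have key : ∀ C : ℝ, {y : L | (∀ w ∉ S, w.valuation L y ≤ 1) ∧
      (∀ w ∈ S, pabv (Sum.inl w) y ≤ C) ∧ (∀ σ : L →+* ℂ, ‖σ y‖ ≤ C)}.Finite :=
    fun C => finite_bounded S C
  -- an escaping place
  obtain ⟨i0, hi0⟩ : ∃ i : HeightOneSpectrum (𝓞 L) ⊕ (L →+* ℂ),
      Tendsto (fun n => pabv i (x n)) atTop atTop := by
    by_contra hno
    push Not at hno
    have hall : ∀ i : HeightOneSpectrum (𝓞 L) ⊕ (L →+* ℂ), ∃ B : ℝ, ∀ n, pabv i (x n) ≤ B := by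
      intro i
      rcases UQ.dichotomy_p (pabv i) hd c x hx with h | h
      · exact h
      · exact absurd h (hno i)
    choose Bi hBi using hall
    set C : ℝ := ∑ w ∈ S, |Bi (Sum.inl w)| + ∑ σ : L →+* ℂ, |Bi (Sum.inr σ)| with hC
    have h1 : 0 ≤ ∑ w ∈ S, |Bi (Sum.inl w)| := Finset.sum_nonneg fun _ _ => abs_nonneg _
    have h2 : 0 ≤ ∑ σ : L →+* ℂ, |Bi (Sum.inr σ)| := Finset.sum_nonneg fun _ _ => abs_nonneg _
    refine Set.infinite_range_of_injective hinj ((key C).subset ?_)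
    rintro _ ⟨n, rfl⟩
    refine ⟨fun w hw => hxint w hw n, fun w hw => ?_, fun σ => ?_⟩
    · have h3 := Finset.single_le_sum (f := fun w => |Bi (Sum.inl w)|)
        (fun _ _ => abs_nonneg _) hw
      have h4 := (hBi (Sum.inl w) n).trans (le_abs_self _)
      linarith
    · have h3 := Finset.single_le_sum (f := fun σ : L →+* ℂ => |Bi (Sum.inr σ)|)
        (fun _ _ => abs_nonneg _) (Finset.mem_univ σ)
      have h4 : ‖σ (x n)‖ ≤ _ := (hBi (Sum.inr σ) n).trans (le_abs_self _)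
      linarith
  -- the difference is small at escaping places
  have hsmall : ∀ i : HeightOneSpectrum (𝓞 L) ⊕ (L →+* ℂ),
      Tendsto (fun n => pabv i (x n)) atTop atTop → ∀ ε : ℝ, 0 < ε → ∃ n0 : ℕ, ∀ n ∈ I, n0 ≤ n →
        pabv i (W n - P.eval (x n)) ≤ ε := by
    intro i hi ε hε
    obtain ⟨M, δ, hδ, hM⟩ := small (pabv i) hqF hP hPm hR hε
    obtain ⟨n0, hn0⟩ := eventually_atTop.1 (hi.eventually_ge_atTop M)
    obtain ⟨n1, hn1⟩ := hnear i hi δ hδ
    refine ⟨max n0 n1, fun n hn hle => ?_⟩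
    exact hM (x n) (W n) (hn0 n ((le_max_left _ _).trans hle)) (hW n hn)
      (hn1 n hn ((le_max_right _ _).trans hle))
  -- uniform bounds
  have hbd : ∀ i : HeightOneSpectrum (𝓞 L) ⊕ (L →+* ℂ), ∃ (C : ℝ) (n1 : ℕ), ∀ n ∈ I, n1 ≤ n →
      pabv i (W n - P.eval (x n)) ≤ C := by
    intro i
    rcases UQ.dichotomy_p (pabv i) hd c x hx with ⟨B, hB⟩ | h
    · obtain ⟨C, hC⟩ := bounded (pabv i) hq0 H P B
      exact ⟨C, 0, fun n hn _ => hC (x n) (W n) (hB n) (hW n hn)⟩
    · obtain ⟨n1, hn1⟩ := hsmall i h 1 one_pos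
      exact ⟨1, n1, hn1⟩
  choose Ci ni hCi using hbd
  set C : ℝ := ∑ w ∈ S, |Ci (Sum.inl w)| + ∑ σ : L →+* ℂ, |Ci (Sum.inr σ)| with hC
  set n1 : ℕ := ∑ w ∈ S, ni (Sum.inl w) + ∑ σ : L →+* ℂ, ni (Sum.inr σ) with hn1
  set Z : Set L := {y : L | (∀ w ∉ S, w.valuation L y ≤ 1) ∧ (∀ w ∈ S, pabv (Sum.inl w) y ≤ C) ∧
      (∀ σ : L →+* ℂ, ‖σ y‖ ≤ C)} with hZ
  have hZfin : Z.Finite := finite_bounded S C
  have hmem : ∀ n ∈ I, n1 ≤ n → W n - P.eval (x n) ∈ Z := by
    intro n hn hle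
    have h1 : 0 ≤ ∑ w ∈ S, |Ci (Sum.inl w)| := Finset.sum_nonneg fun _ _ => abs_nonneg _
    have h2 : 0 ≤ ∑ σ : L →+* ℂ, |Ci (Sum.inr σ)| := Finset.sum_nonneg fun _ _ => abs_nonneg _
    refine ⟨fun w hw => ?_, fun w hw => ?_, fun σ => ?_⟩
    · obtain ⟨-, -, hPi, hGi⟩ := hint w hw
      have hyI : W n ∈ (w.valuation L).integer := by
        have h3 : w.valuation L (W n) ^ q ≤ 1 := by
          rw [← map_pow, hW n hn]
          exact hevint w hw H hGi n
        exact (pow_le_one_iff hq0).1 h3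
      have hPI : P.eval (x n) ∈ (w.valuation L).integer := hevint w hw P hPi n
      exact Subring.sub_mem _ hyI hPI
    · have h3 := Finset.single_le_sum (f := fun w => |Ci (Sum.inl w)|)
        (fun _ _ => abs_nonneg _) hw
      have h5 := Finset.single_le_sum (f := fun w => ni (Sum.inl w))
        (fun _ _ => Nat.zero_le _) hw
      have h4 := (hCi (Sum.inl w) n hn (by omega)).trans (le_abs_self _)
      linarith
    · have h3 := Finset.single_le_sum (f := fun σ : L →+* ℂ => |Ci (Sum.inr σ)|)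
        (fun _ _ => abs_nonneg _) (Finset.mem_univ σ)
      have h5 := Finset.single_le_sum (f := fun σ : L →+* ℂ => ni (Sum.inr σ))
        (fun _ _ => Nat.zero_le _) (Finset.mem_univ σ)
      have h4 : ‖σ (W n - P.eval (x n))‖ ≤ _ :=
        (hCi (Sum.inr σ) n hn (by omega)).trans (le_abs_self _)
      linarith
  -- a lower bound on the nonzero elements
  obtain ⟨ε, hε0, hε⟩ : ∃ ε : ℝ, 0 < ε ∧ ∀ z ∈ Z, z ≠ 0 → ε < pabv i0 z := by
    have h1 : ∀ᶠ ε : ℝ in nhdsWithin 0 (Set.Ioi 0), ∀ z ∈ hZfin.toFinset, z ≠ 0 →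
        ε < pabv i0 z := by
      rw [eventually_all_finset]
      intro z _
      by_cases hz : z = 0
      · exact Eventually.of_forall fun _ h => absurd hz h
      · have h2 : ∀ᶠ ε : ℝ in nhds 0, ε < pabv i0 z := eventually_lt_nhds ((pabv i0).pos hz)
        exact (h2.filter_mono nhdsWithin_le_nhds).mono fun ε h _ => h
    obtain ⟨ε, h2, h3⟩ := (h1.and self_mem_nhdsWithin).exists
    exact ⟨ε, h3, fun z hz => h2 z (hZfin.mem_toFinset.2 hz)⟩
  obtain ⟨n2, hn2⟩ := hsmall i0 hi0 ε hε0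
  have hinf : {n : ℕ | (H - P ^ q).eval (x n) = 0}.Infinite := by
    refine Set.infinite_of_forall_exists_gt fun N0 => ?_
    obtain ⟨n, hn, hnlt⟩ := hI.exists_gt (max (max n1 n2) N0)
    have hn1' : n1 ≤ n := ((le_max_left _ _).trans (le_max_left _ _)).trans hnlt.le
    have hn2' : n2 ≤ n := ((le_max_right _ _).trans (le_max_left _ _)).trans hnlt.le
    have hn3' : N0 < n := lt_of_le_of_lt (le_max_right _ _) hnlt
    have h1 := hmem n hn hn1'
    have h2 := hn2 n hn hn2'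
    have h3 : W n - P.eval (x n) = 0 := by
      by_contra h
      exact absurd (hε _ h1 h) (not_lt.2 h2)
    refine ⟨n, ?_, hn3'⟩
    rw [Set.mem_ofPred_eq, eval_sub, eval_pow, ← hW n hn, sub_eq_zero.1 h3, sub_self]
  have hR0 : H - P ^ q = 0 := by
    refine Polynomial.eq_of_infinite_eval_eq _ _ ?_
    refine (hinf.image (f := x) (hinj.injOn)).mono ?_
    rintro _ ⟨n, hn, rfl⟩
    rw [Set.mem_ofPred_eq, eval_zero]
    exact hn
  exact ⟨P, sub_eq_zero.1 hR0⟩

end Pool.Agent.ORB.URoot
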