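import Pool.Agent.ORB.GDefs
import Pool.Agent.ORB.URootR

/-!
ORB, Theorem V++, row G3a: windows for polynomials of odd degree.
-/

set_option autoImplicit false

open Polynomial Filter NumberField IsDedekindDomain

namespace Pool.Agent.ORB.GP

open VWin

section place

variable {F : Type*} [Field F]

/-- an orbit of a monic polynomial is bounded or escapes -/
theorem dichotomy_f (A : AbsoluteValue F ℝ) {f : F[X]} (hf : f.Monic) (hd : 2 ≤ f.natDegree)
    (x : ℕ → F) (hx : ∀ n, x (n + 1) = f.eval (x n)) :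
    (∃ B : ℝ, ∀ n, A (x n) ≤ B) ∨ Tendsto (fun n => A (x n)) atTop atTop := by
  obtain ⟨M, hM1, hM⟩ := eval_asymp A f f.natDegree le_rfl (by norm_num : (0 : ℝ) < 1 / 2)
  by_cases h : ∃ n, max M 4 < A (x n)
  · right
    obtain ⟨n0, hn0⟩ := h
    have step : ∀ n, max M 4 < A (x n) → 2 * A (x n) ≤ A (x (n + 1)) := by
      intro n hn
      have h1 : M ≤ A (x n) := (le_max_left _ _).trans hn.le
      have h2 : 4 ≤ A (x n) := (le_max_right _ _).trans hn.le
      obtain ⟨e, he, hev⟩ := hM (x n) h1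
      rw [hf.coeff_natDegree] at hev
      have h3 : (1 : ℝ) ≤ A (1 + e) + A e := by
        have h9 : (1 : F) = (1 + e) - e := by ring
        calc (1 : ℝ) = A 1 := (map_one A).symm
          _ = A ((1 + e) - e) := by rw [← h9]
          _ ≤ _ := A.sub_le_add _ _
      have h4 : A (x n) ^ 2 ≤ A (x n) ^ f.natDegree := pow_le_pow_right₀ (by linarith) hd
      rw [hx, hev, map_mul, map_pow]
      have h5 : A (x n) ^ 2 * (1 / 2) ≤ A (x n) ^ f.natDegree * A (1 + e) :=
        mul_le_mul h4 (by linarith) (by norm_num) (by positivity)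
      nlinarith
    have hall : ∀ j : ℕ, max M 4 < A (x (n0 + j)) ∧ 2 ^ j ≤ A (x (n0 + j)) := by
      intro j
      induction j with
      | zero =>
        refine ⟨hn0, ?_⟩
        rw [pow_zero, add_zero]
        have := (le_max_right M 4).trans hn0.le
        linarith
      | succ j ih =>
        have h1 := step _ ih.1
        have h2 := (A.nonneg (x (n0 + j)))
        rw [← add_assoc]
        refine ⟨by linarith [ih.1], ?_⟩
        rw [pow_succ]
        linarith [ih.2]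
    have h2 : Tendsto (fun j : ℕ => A (x (n0 + j))) atTop atTop :=
      tendsto_atTop_mono (fun j => (hall j).2) (tendsto_pow_atTop_atTop_of_one_lt one_lt_two)
    have h3 : Tendsto (fun n : ℕ => A (x (n + n0))) atTop atTop := by
      simpa [add_comm] using h2
    exact (tendsto_add_atTop_iff_nat n0).1 h3
  · left
    push Not at h
    exact ⟨max M 4, h⟩

/-- the square roots of a monic polynomial of even degree -/
theorem near_sq (A : AbsoluteValue F ℝ) {H : F[X]} {D : ℕ} (hH : H.Monic) (hHd : H.natDegree = 2 * D)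
    {δ : ℝ} (hδ : 0 < δ) :
    ∃ M : ℝ, 1 ≤ M ∧ ∀ y W : F, M ≤ A y → W ^ 2 = H.eval y →
      (A (W - y ^ D) ≤ A (W + y ^ D) → A (W - y ^ D) ≤ δ * A y ^ D) ∧
      (A (W + y ^ D) ≤ A (W - y ^ D) → A (W + y ^ D) ≤ δ * A y ^ D) := by
  obtain ⟨M, hM1, hM⟩ := eval_asymp A H (2 * D) hHd.le (by positivity : 0 < δ ^ 2)
  refine ⟨M, hM1, fun y W hy hW => ?_⟩
  obtain ⟨e, he, hev⟩ := hM y hy
  have hc : H.coeff (2 * D) = 1 := by rw [← hHd]; exact hH.coeff_natDegree
  rw [hc] at hev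
  have hprod : A (W - y ^ D) * A (W + y ^ D) ≤ (δ * A y ^ D) * (δ * A y ^ D) := by
    rw [← map_mul]
    have h1 : (W - y ^ D) * (W + y ^ D) = y ^ (2 * D) * e := by
      have h2 : (W - y ^ D) * (W + y ^ D) = W ^ 2 - y ^ (2 * D) := by ring
      rw [h2, hW, hev]
      ring
    rw [h1, map_mul, map_pow]
    have h3 : A y ^ (2 * D) * A e ≤ A y ^ (2 * D) * δ ^ 2 :=
      mul_le_mul_of_nonneg_left he (by positivity)
    refine h3.trans (le_of_eq ?_)
    ring
  have hb : 0 ≤ δ * A y ^ D := by positivity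
  constructor
  · intro h
    by_contra hcon
    push Not at hcon
    have h1 : (δ * A y ^ D) * (δ * A y ^ D) < A (W - y ^ D) * A (W + y ^ D) :=
      mul_lt_mul'' hcon (hcon.trans_le h) hb hb
    linarith
  · intro h
    by_contra hcon
    push Not at hcon
    have h1 : (δ * A y ^ D) * (δ * A y ^ D) < A (W - y ^ D) * A (W + y ^ D) :=
      mul_lt_mul'' (hcon.trans_le h) hcon hb hb
    linarith

theorem itp_eval (f : F[X]) (k : ℕ) (y : F) :
    (itp f k).eval y = (fun x => eval x f)^[k] y := by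
  rw [itp, iterate_comp_eval, eval_X]

theorem itp_monic {f : F[X]} (hf : f.Monic) (hd : f.natDegree ≠ 0) (k : ℕ) :
    (itp f k).Monic ∧ (itp f k).natDegree = f.natDegree ^ k := by
  constructor
  · induction k with
    | zero => exact monic_X
    | succ k ih =>
      rw [itp, Function.iterate_succ_apply']
      have h1 : (itp f k).natDegree = f.natDegree ^ k * 1 := by
        rw [itp, natDegree_iterate_comp, natDegree_X]
      have h2 : (itp f k).natDegree ≠ 0 := by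
        rw [h1, mul_one]
        exact pow_ne_zero _ hd
      exact hf.comp ih h2
  · rw [itp, natDegree_iterate_comp, natDegree_X, mul_one]

/-- `(X - r) (f^k - r)` -/
noncomputable def WF (f : F[X]) (r : F) (k : ℕ) : F[X] := (X - C r) * (itp f k - C r)

theorem WF_eval (f : F[X]) (r : F) (k : ℕ) (y : F) :
    (WF f r k).eval y = (y - r) * ((fun x => eval x f)^[k] y - r) := by
  rw [WF, eval_mul, eval_sub, eval_sub, eval_X, eval_C, itp_eval]

theorem sub_C_monic {G : F[X]} (hG : G.Monic) (hGd : G.natDegree ≠ 0) (r : F) :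
    (G - C r).Monic ∧ (G - C r).natDegree = G.natDegree := by
  have hlt : (C r : F[X]).degree < G.degree :=
    degree_C_le.trans_lt (by
      rw [degree_eq_natDegree hG.ne_zero]
      exact_mod_cast Nat.pos_of_ne_zero hGd)
  refine ⟨hG.sub_of_left hlt, natDegree_eq_of_degree_eq (degree_sub_eq_left_of_degree_lt hlt)⟩

/-- half of the degree of `WF f r k` -/
def WD (d k : ℕ) : ℕ := (1 + d ^ k) / 2

theorem two_WD {d : ℕ} (hodd : Odd d) (k : ℕ) : 2 * WD d k = 1 + d ^ k := by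
  have h1 : Even (1 + d ^ k) := by
    rw [add_comm]
    exact (hodd.pow).add_one
  exact Nat.two_mul_div_two_of_even h1

theorem WD_add {d : ℕ} (hodd : Odd d) (k1 k3 : ℕ) :
    WD d k1 + WD d (k1 + k3) = 1 + d ^ k1 * WD d k3 := by
  have h1 := two_WD hodd k1
  have h2 := two_WD hodd (k1 + k3)
  have h3 := two_WD hodd k3
  have h4 : d ^ k1 * (2 * WD d k3) = d ^ k1 * (1 + d ^ k3) := by rw [h3]
  have h5 : d ^ (k1 + k3) = d ^ k1 * d ^ k3 := pow_add _ _ _
  nlinarith

theorem WF_monic {f : F[X]} (hf : f.Monic) (hodd : Odd f.natDegree) (r : F) (k : ℕ) :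
    (WF f r k).Monic ∧ (WF f r k).natDegree = 2 * WD f.natDegree k := by
  have hd0 : f.natDegree ≠ 0 := hodd.pos.ne'
  obtain ⟨h1, h2⟩ := itp_monic hf hd0 k
  obtain ⟨h3, h4⟩ := sub_C_monic h1 (by rw [h2]; exact pow_ne_zero _ hd0) r
  refine ⟨(monic_X_sub_C r).mul h3, ?_⟩
  rw [WF, (monic_X_sub_C r).natDegree_mul h3, natDegree_X_sub_C, h4, h2, two_WD hodd]

/-- `(X - r) (f^k)^D` -/
theorem WH_monic {f : F[X]} (hf : f.Monic) (hd0 : f.natDegree ≠ 0) (r : F) (k D : ℕ) :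
    ((X - C r) * itp f k ^ D).Monic ∧ ((X - C r) * itp f k ^ D).natDegree = 1 + f.natDegree ^ k * D := by
  obtain ⟨h1, h2⟩ := itp_monic hf hd0 k
  refine ⟨(monic_X_sub_C r).mul (h1.pow D), ?_⟩
  rw [(monic_X_sub_C r).natDegree_mul (h1.pow D), natDegree_X_sub_C, h1.natDegree_pow, h2, mul_comm D]

/-- the sign of a square root -/
def Pos (A : AbsoluteValue F ℝ) (T Z : F) : Prop := A (T - Z) ≤ A (T + Z)

/-- the cocycle relation -/
theorem cocycle (A : AbsoluteValue F ℝ) {f : F[X]} (hf : f.Monic) (hodd : Odd f.natDegree) (r : F)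
    (k1 k3 : ℕ) {ε : ℝ} (hε : 0 < ε) :
    ∃ M : ℝ, ∀ y T1 T2 T3 : F, M ≤ A y → T1 ^ 2 = (WF f r k1).eval y →
      T2 ^ 2 = (WF f r (k1 + k3)).eval y → T1 * T2 = (y - r) * T3 →
      (Pos A T1 (y ^ WD f.natDegree k1) ↔ Pos A T2 (y ^ WD f.natDegree (k1 + k3))) →
      A (T3 - ((fun x => eval x f)^[k1] y) ^ WD f.natDegree k3)
        ≤ ε * A ((fun x => eval x f)^[k1] y) ^ WD f.natDegree k3 := by
  have hd0 : f.natDegree ≠ 0 := hodd.pos.ne'
  set D1 := WD f.natDegree k1 with hD1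
  set D2 := WD f.natDegree (k1 + k3) with hD2
  set D3 := WD f.natDegree k3 with hD3
  have hN : D1 + D2 = 1 + f.natDegree ^ k1 * D3 := WD_add hodd k1 k3
  set δ : ℝ := min (1 / 2) (ε / 8) with hδ
  have hδ0 : 0 < δ := lt_min (by norm_num) (by positivity)
  have hδ1 : δ ≤ 1 / 2 := min_le_left _ _
  have hδ2 : δ ≤ ε / 8 := min_le_right _ _
  obtain ⟨M1, hM1, h1⟩ := near_sq A (WF_monic hf hodd r k1).1 (WF_monic hf hodd r k1).2 hδ0
  obtain ⟨M2, hM2, h2⟩ := near_sq A (WF_monic hf hodd r (k1 + k3)).1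
    (WF_monic hf hodd r (k1 + k3)).2 hδ0
  obtain ⟨hHm, hHd⟩ := WH_monic hf hd0 r k1 D3
  obtain ⟨M3, hM3, h3⟩ := eval_asymp A ((X - C r) * itp f k1 ^ D3) (D1 + D2)
    (by rw [hHd, hN]) hδ0
  refine ⟨max (max M1 M2) M3, fun y T1 T2 T3 hy hT1 hT2 hT hpos => ?_⟩
  have y1 : M1 ≤ A y := ((le_max_left _ _).trans (le_max_left _ _)).trans hy
  have y2 : M2 ≤ A y := ((le_max_right _ _).trans (le_max_left _ _)).trans hy
  have y3 : M3 ≤ A y := (le_max_right _ _).trans hy
  have hy1 : 1 ≤ A y := hM1.trans y1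
  have hy0 : y ≠ 0 := by
    rintro rfl
    rw [map_zero] at hy1
    linarith
  obtain ⟨e, he, hev⟩ := h3 y y3
  have hc : ((X - C r) * itp f k1 ^ D3).coeff (D1 + D2) = 1 := by
    rw [hN, ← hHd]
    exact hHm.coeff_natDegree
  rw [hc, eval_mul, eval_pow, itp_eval, eval_sub, eval_X, eval_C] at hev
  set z : F := (fun x => eval x f)^[k1] y with hz
  -- the two square roots
  obtain ⟨u1, u2, hu, hu1, hu2⟩ : ∃ u1 u2 : F, T1 * T2 = y ^ (D1 + D2) * (u1 * u2) ∧ A (u1 - 1) ≤ δ ∧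
      A (u2 - 1) ≤ δ := by
    have hquot : ∀ (T : F) (D : ℕ), A (T - y ^ D) ≤ δ * A y ^ D → A (T / y ^ D - 1) ≤ δ := by
      intro T D h
      have h4 : T / y ^ D - 1 = (T - y ^ D) / y ^ D := by field_simp
      rw [h4, map_div₀, map_pow, div_le_iff₀ (by positivity)]
      exact h
    by_cases hp : Pos A T1 (y ^ D1)
    · have hp2 := hpos.1 hp
      refine ⟨T1 / y ^ D1, T2 / y ^ D2, ?_, hquot T1 D1 ((h1 y T1 y1 hT1).1 hp),
        hquot T2 D2 ((h2 y T2 y2 hT2).1 hp2)⟩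
      rw [pow_add]
      field_simp
    · have hp2 : ¬ Pos A T2 (y ^ D2) := fun h => hp (hpos.2 h)
      rw [Pos, not_le] at hp hp2
      have e1 : ∀ (T : F) (D : ℕ), A (T + y ^ D) ≤ δ * A y ^ D → A (-T - y ^ D) ≤ δ * A y ^ D := by
        intro T D h
        have : -T - y ^ D = -(T + y ^ D) := by ring
        rw [this, A.map_neg]
        exact h
      refine ⟨-T1 / y ^ D1, -T2 / y ^ D2, ?_,
        hquot (-T1) D1 (e1 T1 D1 ((h1 y T1 y1 hT1).2 hp.le)),
        hquot (-T2) D2 (e1 T2 D2 ((h2 y T2 y2 hT2).2 hp2.le))⟩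
      rw [pow_add]
      field_simp
  have hyN : 0 < A y ^ (D1 + D2) := by positivity
  have hone : (1 : ℝ) ≤ A (1 + e) + A e := by
    have h9 : (1 : F) = (1 + e) - e := by ring
    calc (1 : ℝ) = A 1 := (map_one A).symm
      _ = A ((1 + e) - e) := by rw [← h9]
      _ ≤ _ := A.sub_le_add _ _
  -- the lower bound
  have hlow : A y ^ (D1 + D2) * (1 / 2) ≤ A (y - r) * A z ^ D3 := by
    have h4 : A (y - r) * A z ^ D3 = A y ^ (D1 + D2) * A (1 + e) := by
      rw [← map_pow A z, ← map_mul, hev, map_mul, map_pow]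
    rw [h4]
    exact mul_le_mul_of_nonneg_left (by linarith) hyN.le
  -- the upper bound
  have hup : A (y - r) * A (T3 - z ^ D3) ≤ A y ^ (D1 + D2) * (4 * δ) := by
    rw [← map_mul]
    have h4 : (y - r) * (T3 - z ^ D3) = y ^ (D1 + D2) * ((u1 - 1) * u2 + (u2 - 1) - e) := by
      have h5 : (y - r) * (T3 - z ^ D3) = (y - r) * T3 - (y - r) * z ^ D3 := by ring
      rw [h5, ← hT, hu, hev]
      ring
    rw [h4, map_mul, map_pow]
    refine mul_le_mul_of_nonneg_left ?_ hyN.le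
    have h6 : A u2 ≤ 2 := by
      have h7 : u2 = (u2 - 1) + 1 := by ring
      have h8 : A u2 ≤ A (u2 - 1) + A 1 := by
        conv_lhs => rw [h7]
        exact A.add_le _ _
      rw [map_one] at h8
      linarith
    have h9 : A ((u1 - 1) * u2) ≤ δ * 2 := by
      rw [map_mul]
      exact mul_le_mul hu1 h6 (A.nonneg _) hδ0.le
    have h10 := A.sub_le_add ((u1 - 1) * u2 + (u2 - 1)) e
    have h11 := A.add_le ((u1 - 1) * u2) (u2 - 1)
    linarith
  have hyr : 0 < A (y - r) := by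
    refine A.pos fun h => ?_
    rw [h, map_zero, zero_mul] at hlow
    linarith [mul_pos hyN (by norm_num : (0 : ℝ) < 1 / 2)]
  have hfin : A (y - r) * A (T3 - z ^ D3) ≤ A (y - r) * (ε * A z ^ D3) := by
    have h12 : A y ^ (D1 + D2) * (4 * δ) ≤ ε * (A y ^ (D1 + D2) * (1 / 2)) := by
      nlinarith
    calc A (y - r) * A (T3 - z ^ D3) ≤ A y ^ (D1 + D2) * (4 * δ) := hup
      _ ≤ ε * (A y ^ (D1 + D2) * (1 / 2)) := h12
      _ ≤ ε * (A (y - r) * A z ^ D3) := mul_le_mul_of_nonneg_left hlow hε.le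
      _ = A (y - r) * (ε * A z ^ D3) := by ring
  exact le_of_mul_le_mul_left hfin hyr

end place

universe u

section glob

variable {L : Type u} [Field L] [NumberField L]

/-- outside the primes of the coefficients of `f` and `x 0` the orbit is integral -/
theorem orbit_int_f {f : L[X]} (x : ℕ → L) (hx : ∀ n, x (n + 1) = f.eval (x n))
    (w : HeightOneSpectrum (𝓞 L)) (h0 : w.valuation L (x 0) ≤ 1)
    (hc : ∀ i, w.valuation L (f.coeff i) ≤ 1) (n : ℕ) :
    w.valuation L (x n) ≤ 1 := by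
  have h : x n ∈ (w.valuation L).integer := by
    induction n with
    | zero => exact h0
    | succ n ih =>
      rw [hx, eval_eq_sum_range]
      exact Subring.sum_mem _ fun i _ => Subring.mul_mem _ (hc i) (Subring.pow_mem _ ih i)
  exact h

open URoot in
/-- **Runge's method** for `q`-th roots `W n` of `H (x n)` which are close to `x n ^ D` at every
escaping place: `H` is a `q`-th power. -/
theorem rungeP {f : L[X]} (hf : f.Monic) (hd : 2 ≤ f.natDegree) (x : ℕ → L)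
    (hx : ∀ n, x (n + 1) = f.eval (x n))
    (hinj : Function.Injective x) {q D : ℕ} (hq : 2 ≤ q) (H : L[X]) (hH : H.Monic)
    (hHd : H.natDegree = q * D) (I : Set ℕ) (hI : I.Infinite) (W : ℕ → L)
    (hW : ∀ n ∈ I, W n ^ q = H.eval (x n))
    (hnear : ∀ i : HeightOneSpectrum (𝓞 L) ⊕ (L →+* ℂ),
      Tendsto (fun n => pabv i (x n)) atTop atTop → ∀ ε : ℝ, 0 < ε → ∃ n0 : ℕ, ∀ n ∈ I, n0 ≤ n →
        pabv i (W n - x n ^ D) ≤ ε * pabv i (x n) ^ D) :
    ∃ S : L[X], H = S ^ q := by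
  classical
  have hq0 : q ≠ 0 := by omega
  have hqF : (q : L) ≠ 0 := by exact_mod_cast hq0
  obtain ⟨P, hP, hPm, hR'⟩ := approx_root hq hqF hH hHd D le_rfl
  have hR : ∀ i, (q - 1) * D ≤ i → (H - P ^ q).coeff i = 0 := fun i hi => hR' i (by
    obtain ⟨r, rfl⟩ : ∃ r, q = r + 1 := ⟨q - 1, by omega⟩
    have : (r + 1) * D = r * D + D := by ring
    rw [Nat.add_sub_cancel] at hi
    omega)
  -- the primes
  set S : Finset (HeightOneSpectrum (𝓞 L)) :=
    ((Finset.range (f.natDegree + 1)).biUnion fun i =>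
      (HeightOneSpectrum.Support.finite (𝓞 L) (f.coeff i)).toFinset) ∪
    (HeightOneSpectrum.Support.finite (𝓞 L) (x 0)).toFinset ∪
    ((Finset.range (P.natDegree + 1)).biUnion fun i =>
      (HeightOneSpectrum.Support.finite (𝓞 L) (P.coeff i)).toFinset) ∪
    ((Finset.range (H.natDegree + 1)).biUnion fun i =>
      (HeightOneSpectrum.Support.finite (𝓞 L) (H.coeff i)).toFinset) with hS
  have hint : ∀ w ∉ S, (∀ i, w.valuation L (f.coeff i) ≤ 1) ∧ w.valuation L (x 0) ≤ 1 ∧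
      (∀ i, w.valuation L (P.coeff i) ≤ 1) ∧ ∀ i, w.valuation L (H.coeff i) ≤ 1 := by
    intro w hw
    rw [hS, Finset.mem_union, Finset.mem_union, Finset.mem_union, Finset.mem_biUnion,
      Set.Finite.mem_toFinset, Finset.mem_biUnion, Finset.mem_biUnion] at hw
    push Not at hw
    obtain ⟨⟨⟨h1, h0⟩, h2⟩, h3⟩ := hw
    have gen : ∀ G : L[X], (∀ i ∈ Finset.range (G.natDegree + 1),
        w ∉ (HeightOneSpectrum.Support.finite (𝓞 L) (G.coeff i)).toFinset) →
        ∀ i, w.valuation L (G.coeff i) ≤ 1 := by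
      intro G hG i
      by_cases hi : i < G.natDegree + 1
      · by_contra h
        exact hG i (Finset.mem_range.2 hi) ((Set.Finite.mem_toFinset _).2 (not_le.1 h))
      · rw [coeff_eq_zero_of_natDegree_lt (by omega), map_zero]
        exact zero_le_one
    refine ⟨gen f h1, ?_, gen P h2, gen H h3⟩
    by_contra h
    exact h0 (not_le.1 h)
  have hxint : ∀ w ∉ S, ∀ n, w.valuation L (x n) ≤ 1 := fun w hw n =>
    orbit_int_f x hx w (hint w hw).2.1 (hint w hw).1 n
  have hevint : ∀ w ∉ S, ∀ (f : L[X]), (∀ i, w.valuation L (f.coeff i) ≤ 1) → ∀ n,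
      w.valuation L (f.eval (x n)) ≤ 1 := by
    intro w hw f hf n
    have h : f.eval (x n) ∈ (w.valuation L).integer := by
      rw [eval_eq_sum_range]
      exact Subring.sum_mem _ fun i _ => Subring.mul_mem _ (hf i)
        (Subring.pow_mem _ (hxint w hw n) i)
    exact h
  -- the finite set
  have key : ∀ C : ℝ, {y : L | (∀ w ∉ S, w.valuation L y ≤ 1) ∧
      (∀ w ∈ S, pabv (Sum.inl w) y ≤ C) ∧ (∀ σ : L →+* ℂ, ‖σ y‖ ≤ C)}.Finite :=
    fun C => finite_bounded S C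
  -- an escaping place
  obtain ⟨i0, hi0⟩ : ∃ i : HeightOneSpectrum (𝓞 L) ⊕ (L →+* ℂ),
      Tendsto (fun n => pabv i (x n)) atTop atTop := by
    by_contra hno
    push Not at hno
    have hall : ∀ i : HeightOneSpectrum (𝓞 L) ⊕ (L →+* ℂ), ∃ B : ℝ, ∀ n, pabv i (x n) ≤ B := by
      intro i
      rcases dichotomy_f (pabv i) hf hd x hx with h | h
      · exact h
      · exact absurd h (hno i)
    choose Bi hBi using hall
    set C : ℝ := ∑ w ∈ S, |Bi (Sum.inl w)| + ∑ σ : L →+* ℂ, |Bi (Sum.inr σ)| with hC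
    have h1 : 0 ≤ ∑ w ∈ S, |Bi (Sum.inl w)| := Finset.sum_nonneg fun _ _ => abs_nonneg _
    have h2 : 0 ≤ ∑ σ : L →+* ℂ, |Bi (Sum.inr σ)| := Finset.sum_nonneg fun _ _ => abs_nonneg _
    refine Set.infinite_range_of_injective hinj ((key C).subset ?_)
    rintro _ ⟨n, rfl⟩
    refine ⟨fun w hw => hxint w hw n, fun w hw => ?_, fun σ => ?_⟩
    · have h3 := Finset.single_le_sum (f := fun w => |Bi (Sum.inl w)|)
        (fun _ _ => abs_nonneg _) hw
      have h4 := (hBi (Sum.inl w) n).trans (le_abs_self _)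
      linarith
    · have h3 := Finset.single_le_sum (f := fun σ : L →+* ℂ => |Bi (Sum.inr σ)|)
        (fun _ _ => abs_nonneg _) (Finset.mem_univ σ)
      have h4 : ‖σ (x n)‖ ≤ _ := (hBi (Sum.inr σ) n).trans (le_abs_self _)
      linarith
  -- the difference is small at escaping places
  have hsmall : ∀ i : HeightOneSpectrum (𝓞 L) ⊕ (L →+* ℂ),
      Tendsto (fun n => pabv i (x n)) atTop atTop → ∀ ε : ℝ, 0 < ε → ∃ n0 : ℕ, ∀ n ∈ I, n0 ≤ n →
        pabv i (W n - P.eval (x n)) ≤ ε := by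
    intro i hi ε hε
    obtain ⟨M, δ, hδ, hM⟩ := small (pabv i) hqF hP hPm hR hε
    obtain ⟨n0, hn0⟩ := eventually_atTop.1 (hi.eventually_ge_atTop M)
    obtain ⟨n1, hn1⟩ := hnear i hi δ hδ
    refine ⟨max n0 n1, fun n hn hle => ?_⟩
    exact hM (x n) (W n) (hn0 n ((le_max_left _ _).trans hle)) (hW n hn)
      (hn1 n hn ((le_max_right _ _).trans hle))
  -- uniform bounds
  have hbd : ∀ i : HeightOneSpectrum (𝓞 L) ⊕ (L →+* ℂ), ∃ (C : ℝ) (n1 : ℕ), ∀ n ∈ I, n1 ≤ n →
      pabv i (W n - P.eval (x n)) ≤ C := by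
    intro i
    rcases dichotomy_f (pabv i) hf hd x hx with ⟨B, hB⟩ | h
    · obtain ⟨C, hC⟩ := bounded (pabv i) hq0 H P B
      exact ⟨C, 0, fun n hn _ => hC (x n) (W n) (hB n) (hW n hn)⟩
    · obtain ⟨n1, hn1⟩ := hsmall i h 1 one_pos
      exact ⟨1, n1, hn1⟩
  choose Ci ni hCi using hbd
  set C : ℝ := ∑ w ∈ S, |Ci (Sum.inl w)| + ∑ σ : L →+* ℂ, |Ci (Sum.inr σ)| with hC
  set n1 : ℕ := ∑ w ∈ S, ni (Sum.inl w) + ∑ σ : L →+* ℂ, ni (Sum.inr σ) with hn1
  set Z : Set L := {y : L | (∀ w ∉ S, w.valuation L y ≤ 1) ∧ (∀ w ∈ S, pabv (Sum.inl w) y ≤ C) ∧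
      (∀ σ : L →+* ℂ, ‖σ y‖ ≤ C)} with hZ
  have hZfin : Z.Finite := finite_bounded S C
  have hmem : ∀ n ∈ I, n1 ≤ n → W n - P.eval (x n) ∈ Z := by
    intro n hn hle
    have h1 : 0 ≤ ∑ w ∈ S, |Ci (Sum.inl w)| := Finset.sum_nonneg fun _ _ => abs_nonneg _
    have h2 : 0 ≤ ∑ σ : L →+* ℂ, |Ci (Sum.inr σ)| := Finset.sum_nonneg fun _ _ => abs_nonneg _
    refine ⟨fun w hw => ?_, fun w hw => ?_, fun σ => ?_⟩
    · obtain ⟨-, -, hPi, hGi⟩ := hint w hw
      have hyI : W n ∈ (w.valuation L).integer := by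
        have h3 : w.valuation L (W n) ^ q ≤ 1 := by
          rw [← map_pow, hW n hn]
          exact hevint w hw H hGi n
        exact (pow_le_one_iff hq0).1 h3
      have hPI : P.eval (x n) ∈ (w.valuation L).integer := hevint w hw P hPi n
      exact Subring.sub_mem _ hyI hPI
    · have h3 := Finset.single_le_sum (f := fun w => |Ci (Sum.inl w)|)
        (fun _ _ => abs_nonneg _) hw
      have h5 := Finset.single_le_sum (f := fun w => ni (Sum.inl w))
        (fun _ _ => Nat.zero_le _) hw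
      have h4 := (hCi (Sum.inl w) n hn (by omega)).trans (le_abs_self _)
      linarith
    · have h3 := Finset.single_le_sum (f := fun σ : L →+* ℂ => |Ci (Sum.inr σ)|)
        (fun _ _ => abs_nonneg _) (Finset.mem_univ σ)
      have h5 := Finset.single_le_sum (f := fun σ : L →+* ℂ => ni (Sum.inr σ))
        (fun _ _ => Nat.zero_le _) (Finset.mem_univ σ)
      have h4 : ‖σ (W n - P.eval (x n))‖ ≤ _ :=
        (hCi (Sum.inr σ) n hn (by omega)).trans (le_abs_self _)
      linarith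
  -- a lower bound on the nonzero elements
  obtain ⟨ε, hε0, hε⟩ : ∃ ε : ℝ, 0 < ε ∧ ∀ z ∈ Z, z ≠ 0 → ε < pabv i0 z := by
    have h1 : ∀ᶠ ε : ℝ in nhdsWithin 0 (Set.Ioi 0), ∀ z ∈ hZfin.toFinset, z ≠ 0 →
        ε < pabv i0 z := by
      rw [eventually_all_finset]
      intro z _
      by_cases hz : z = 0
      · exact Eventually.of_forall fun _ h => absurd hz h
      · have h2 : ∀ᶠ ε : ℝ in nhds 0, ε < pabv i0 z := eventually_lt_nhds ((pabv i0).pos hz)
        exact (h2.filter_mono nhdsWithin_le_nhds).mono fun ε h _ => h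
    obtain ⟨ε, h2, h3⟩ := (h1.and self_mem_nhdsWithin).exists
    exact ⟨ε, h3, fun z hz => h2 z (hZfin.mem_toFinset.2 hz)⟩
  obtain ⟨n2, hn2⟩ := hsmall i0 hi0 ε hε0
  have hinf : {n : ℕ | (H - P ^ q).eval (x n) = 0}.Infinite := by
    refine Set.infinite_of_forall_exists_gt fun N0 => ?_
    obtain ⟨n, hn, hnlt⟩ := hI.exists_gt (max (max n1 n2) N0)
    have hn1' : n1 ≤ n := ((le_max_left _ _).trans (le_max_left _ _)).trans hnlt.le
    have hn2' : n2 ≤ n := ((le_max_right _ _).trans (le_max_left _ _)).trans hnlt.le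
    have hn3' : N0 < n := lt_of_le_of_lt (le_max_right _ _) hnlt
    have h1 := hmem n hn hn1'
    have h2 := hn2 n hn hn2'
    have h3 : W n - P.eval (x n) = 0 := by
      by_contra h
      exact absurd (hε _ h1 h) (not_lt.2 h2)
    refine ⟨n, ?_, hn3'⟩
    rw [Set.mem_ofPred_eq, eval_sub, eval_pow, ← hW n hn, sub_eq_zero.1 h3, sub_self]
  have hR0 : H - P ^ q = 0 := by
    refine Polynomial.eq_of_infinite_eval_eq _ _ ?_
    refine (hinf.image (f := x) (hinj.injOn)).mono ?_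
    rintro _ ⟨n, hn, rfl⟩
    rw [Set.mem_ofPred_eq, eval_zero]
    exact hn
  exact ⟨P, sub_eq_zero.1 hR0⟩

/-- two gaps: infinitely many triples `(n, n + k1, n + k1 + k3)` with the same signs are impossible -/
theorem gap_finite_f {f : L[X]} (hf : f.Monic) (hodd : Odd f.natDegree) (hd : 2 ≤ f.natDegree) (r : L)
    (hr : ∀ n, 1 ≤ n → (fun x => eval x f)^[n] r ≠ r) (x : ℕ → L)
    (hx : ∀ n, x (n + 1) = f.eval (x n)) (hinj : Function.Injective x) (k1 : ℕ) {k3 : ℕ} (hk3 : 1 ≤ k3)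
    (S0 : Finset (HeightOneSpectrum (𝓞 L)))
    (hS0 : ∀ w ∉ S0, (∀ i, w.valuation L (f.coeff i) ≤ 1) ∧ w.valuation L (x 0) ≤ 1) :
    {n : ℕ | ∃ T1 T2 T3 : L, T1 ^ 2 = (WF f r k1).eval (x n) ∧ T2 ^ 2 = (WF f r (k1 + k3)).eval (x n) ∧
      T3 ^ 2 = (WF f r k3).eval (x (n + k1)) ∧ T1 * T2 = (x n - r) * T3 ∧
      ∀ v : {w // w ∈ S0} ⊕ (L →+* ℂ),
        (Pos (pabv (v.map (fun w => w.1) id)) T1 (x n ^ WD f.natDegree k1) ↔
        Pos (pabv (v.map (fun w => w.1) id)) T2 (x n ^ WD f.natDegree (k1 + k3)))}.Finite := by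
  classical
  by_contra hinf
  change Set.Infinite _ at hinf
  set I : Set ℕ := {n : ℕ | ∃ T1 T2 T3 : L, T1 ^ 2 = (WF f r k1).eval (x n) ∧
      T2 ^ 2 = (WF f r (k1 + k3)).eval (x n) ∧
      T3 ^ 2 = (WF f r k3).eval (x (n + k1)) ∧ T1 * T2 = (x n - r) * T3 ∧
      ∀ v : {w // w ∈ S0} ⊕ (L →+* ℂ),
        (Pos (pabv (v.map (fun w => w.1) id)) T1 (x n ^ WD f.natDegree k1) ↔
        Pos (pabv (v.map (fun w => w.1) id)) T2 (x n ^ WD f.natDegree (k1 + k3)))} with hI
  have hch : ∀ n : ℕ, ∃ T1 T2 T3 : L, n ∈ I → T1 ^ 2 = (WF f r k1).eval (x n) ∧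
      T2 ^ 2 = (WF f r (k1 + k3)).eval (x n) ∧
      T3 ^ 2 = (WF f r k3).eval (x (n + k1)) ∧ T1 * T2 = (x n - r) * T3 ∧
      ∀ v : {w // w ∈ S0} ⊕ (L →+* ℂ),
        (Pos (pabv (v.map (fun w => w.1) id)) T1 (x n ^ WD f.natDegree k1) ↔
        Pos (pabv (v.map (fun w => w.1) id)) T2 (x n ^ WD f.natDegree (k1 + k3))) := by
    intro n
    by_cases hn : n ∈ I
    · obtain ⟨T1, T2, T3, h⟩ := hn
      exact ⟨T1, T2, T3, fun _ => h⟩
    · exact ⟨0, 0, 0, fun h => absurd h hn⟩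
  choose T1 T2 T3 hT using hch
  have hit : ∀ n k, (fun x => eval x f)^[k] (x n) = x (n + k) := by
    intro n k
    induction k with
    | zero => rfl
    | succ k ih => rw [Function.iterate_succ_apply', ih, ← add_assoc, hx]
  have hx' : ∀ n, x (n + 1 + k1) = f.eval (x (n + k1)) := by
    intro n
    rw [show n + 1 + k1 = n + k1 + 1 by ring, hx]
  obtain ⟨hm, hmd⟩ := WF_monic hf hodd r k3
  obtain ⟨S, hS⟩ := rungeP hf hd (fun n => x (n + k1)) hx' (fun a b h => by
      have h1 := hinj h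
      omega) (le_refl 2) (WF f r k3) hm hmd I hinf T3
    (fun n hn => (hT n hn).2.2.1)
    (fun i hi ε hε => by
      have hi' : Tendsto (fun n => pabv i (x n)) atTop atTop :=
        (tendsto_add_atTop_iff_nat k1).1 hi
      -- the place is in the finite list
      have hplace : ∃ v : {w // w ∈ S0} ⊕ (L →+* ℂ), v.map (fun w => w.1) id = i := by
        rcases i with w | σ
        · by_cases hw : w ∈ S0
          · exact ⟨Sum.inl ⟨w, hw⟩, rfl⟩
          · exfalso
            obtain ⟨h1, h2⟩ := hS0 w hw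
            obtain ⟨n, hn⟩ := (hi'.eventually_ge_atTop 2).exists
            have h3 := URoot.pabv_inl_le_one_of (orbit_int_f x hx w h2 h1 n)
            linarith
        · exact ⟨Sum.inr σ, rfl⟩
      obtain ⟨v, hv⟩ := hplace
      obtain ⟨M, hM⟩ := cocycle (pabv i) hf hodd r k1 k3 hε
      obtain ⟨n0, hn0⟩ := eventually_atTop.1 (hi'.eventually_ge_atTop M)
      refine ⟨n0, fun n hn hle => ?_⟩
      obtain ⟨h1, h2, -, h4, h5⟩ := hT n hn
      have h6 := h5 v
      rw [hv] at h6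
      have h7 := hM (x n) (T1 n) (T2 n) (T3 n) (hn0 n hle) h1 h2 h4 h6
      rw [hit] at h7
      exact h7)
  -- `WF f r k3` is not a square
  have hdvd : (X - C r : L[X]) ∣ S := by
    have h1 : (X - C r : L[X]) ∣ S ^ 2 := by
      rw [← hS, WF]
      exact dvd_mul_right _ _
    exact (prime_X_sub_C r).dvd_of_dvd_pow h1
  obtain ⟨Q, hQ⟩ := hdvd
  have h2 : itp f k3 - C r = (X - C r) * Q ^ 2 := by
    have h3 : (X - C r) * (itp f k3 - C r) = (X - C r) * ((X - C r) * Q ^ 2) := by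
      have h4 : WF f r k3 = (X - C r) * (itp f k3 - C r) := rfl
      rw [← h4, hS, hQ]
      ring
    exact mul_left_cancel₀ (X_sub_C_ne_zero r) h3
  have h3 : (itp f k3 - C r).eval r = 0 := by
    rw [h2]
    simp
  rw [eval_sub, itp_eval, eval_C, sub_eq_zero] at h3
  exact hr k3 hk3 h3

/-- **G3a** (windows, odd degree) -/
theorem exists_nonsquare (f : L[X]) (hf : f.Monic)
    (hodd : Odd f.natDegree) (hd : 2 ≤ f.natDegree) (x r : L)
    (hx : Function.Injective fun n : ℕ => (fun x => eval x f)^[n] x)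
    (hr : ∀ n, 1 ≤ n → (fun x => eval x f)^[n] r ≠ r) (D : Finset L) (hD : ∀ d ∈ D, d ≠ 0) (n₀ : ℕ) :
    ∃ n, n₀ ≤ n ∧ (fun x => eval x f)^[n] x ≠ r ∧
      ∀ d ∈ D, ¬ IsSquare (((fun x => eval x f)^[n] x - r) * d) := by
  classical
  set y : ℕ → L := fun n => (fun x => eval x f)^[n] x with hy
  have hxs : ∀ n, y (n + 1) = f.eval (y n) := fun n => Function.iterate_succ_apply' _ _ _
  have hinj : Function.Injective y := hx
  have hit : ∀ n k, (fun x => eval x f)^[k] (y n) = y (n + k) := by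
    intro n k
    induction k with
    | zero => rfl
    | succ k ih => rw [Function.iterate_succ_apply', ih, ← add_assoc, hxs]
  set S0 : Finset (HeightOneSpectrum (𝓞 L)) :=
    ((Finset.range (f.natDegree + 1)).biUnion fun i =>
      (HeightOneSpectrum.Support.finite (𝓞 L) (f.coeff i)).toFinset) ∪
    (HeightOneSpectrum.Support.finite (𝓞 L) (y 0)).toFinset with hS0def
  have hS0 : ∀ w ∉ S0, (∀ i, w.valuation L (f.coeff i) ≤ 1) ∧ w.valuation L (y 0) ≤ 1 := by
    intro w hw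
    rw [hS0def, Finset.mem_union, Finset.mem_biUnion, Set.Finite.mem_toFinset] at hw
    push Not at hw
    refine ⟨fun i => ?_, ?_⟩
    · by_cases hi : i < f.natDegree + 1
      · by_contra h
        exact hw.1 i (Finset.mem_range.2 hi) ((Set.Finite.mem_toFinset _).2 (not_le.1 h))
      · rw [coeff_eq_zero_of_natDegree_lt (by omega), map_zero]
        exact zero_le_one
    · by_contra h
      exact hw.2 (not_le.1 h)
  let P := {w // w ∈ S0} ⊕ (L →+* ℂ)
  set B : ℕ := Fintype.card (P → Bool) with hB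
  set R : ℕ := D.card * (B + 1) with hR
  by_contra hcon
  push Not at hcon
  -- the good triples
  set E : ℕ → ℕ → Set ℕ := fun k1 k3 => {n : ℕ | ∃ T1 T2 T3 : L, T1 ^ 2 = (WF f r k1).eval (y n) ∧
      T2 ^ 2 = (WF f r (k1 + k3)).eval (y n) ∧
      T3 ^ 2 = (WF f r k3).eval (y (n + k1)) ∧ T1 * T2 = (y n - r) * T3 ∧
      ∀ v : {w // w ∈ S0} ⊕ (L →+* ℂ),
        (Pos (pabv (v.map (fun w => w.1) id)) T1 (y n ^ WD f.natDegree k1) ↔
        Pos (pabv (v.map (fun w => w.1) id)) T2 (y n ^ WD f.natDegree (k1 + k3)))} with hE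
  have hfin : (⋃ k1 ∈ Finset.range (R + 1), ⋃ k3 ∈ Finset.Icc 1 R, E k1 k3).Finite := by
    refine Set.Finite.biUnion (Finset.finite_toSet _) fun k1 hk1 => ?_
    refine Set.Finite.biUnion (Finset.finite_toSet _) fun k3 hk3 => ?_
    have h1 : 1 ≤ k3 := (Finset.mem_Icc.1 (Finset.mem_coe.1 hk3)).1
    exact gap_finite_f hf hodd hd r hr y hxs hinj k1 h1 S0 hS0
  obtain ⟨N1, hN1⟩ := hfin.bddAbove
  -- the orbit avoids `r` from some point on
  obtain ⟨N2, hN2⟩ : ∃ N2, ∀ n, N2 ≤ n → y n ≠ r := by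
    by_cases h : ∃ n, y n = r
    · obtain ⟨n, hn⟩ := h
      refine ⟨n + 1, fun m hm hmr => ?_⟩
      have h1 := hinj (hmr.trans hn.symm)
      omega
    · push Not at h
      exact ⟨0, fun n _ => h n⟩
  set N : ℕ := max n₀ (max (N1 + 1) N2) with hN
  have hNn : n₀ ≤ N := le_max_left _ _
  have hN1' : N1 + 1 ≤ N := (le_max_left _ _).trans (le_max_right _ _)
  have hN2' : N2 ≤ N := (le_max_right _ _).trans (le_max_right _ _)
  have hsq : ∀ n, ∃ d s : L, N ≤ n → d ∈ D ∧ (y n - r) * d = s * s := by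
    intro n
    by_cases hn : N ≤ n
    · obtain ⟨d, hdD, s, hs⟩ := hcon n (hNn.trans hn) (hN2 n (hN2'.trans hn))
      exact ⟨d, s, fun _ => ⟨hdD, hs⟩⟩
    · exact ⟨0, 0, fun h => absurd h hn⟩
  choose dn sn hdn using hsq
  -- many indices with the same `d`
  obtain ⟨d, hdD, hcard⟩ := Finset.exists_lt_card_fiber_of_mul_lt_card_of_maps_to
    (s := Finset.Icc N (N + R)) (t := D) (f := dn) (n := B + 1)
    (fun n hn => (hdn n (Finset.mem_Icc.1 hn).1).1) (by
      rw [Nat.card_Icc]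
      omega)
  set U := (Finset.Icc N (N + R)).filter (fun n => dn n = d) with hU
  have hUne : U.Nonempty := by
    rw [← Finset.card_pos]
    omega
  set n1 := U.min' hUne with hn1
  have hn1U : n1 ∈ U := U.min'_mem hUne
  set T : ℕ → ℕ → L := fun a b => sn a * sn b / d with hT
  have hd0 : d ≠ 0 := hD d hdD
  have hUd : ∀ n ∈ U, N ≤ n ∧ n ≤ N + R ∧ (y n - r) * d = sn n * sn n := by
    intro n hn
    obtain ⟨h1, h2⟩ := Finset.mem_filter.1 hn
    obtain ⟨h3, h4⟩ := Finset.mem_Icc.1 h1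
    refine ⟨h3, h4, ?_⟩
    rw [← (hdn n h3).2, h2]
  have hTsq : ∀ a ∈ U, ∀ k, a + k ∈ U → T a (a + k) ^ 2 = (WF f r k).eval (y a) := by
    intro a ha k hk
    obtain ⟨-, -, h1⟩ := hUd a ha
    obtain ⟨-, -, h2⟩ := hUd _ hk
    rw [WF_eval, hit]
    have h3 : T a (a + k) = sn a * sn (a + k) / d := rfl
    rw [h3, div_pow, div_eq_iff (pow_ne_zero 2 hd0)]
    linear_combination (-(sn (a + k) * sn (a + k))) * h1 - ((y a - r) * d) * h2
  -- two indices with the same pattern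
  set pat : ℕ → (P → Bool) := fun m v =>
    decide (Pos (pabv (v.map (fun w => w.1) id)) (T n1 m) (y n1 ^ WD f.natDegree (m - n1))) with hpat
  obtain ⟨m1, hm1, m2, hm2, hne, heq⟩ := Finset.exists_ne_map_eq_of_card_lt_of_maps_to
    (s := U.erase n1) (t := (Finset.univ : Finset (P → Bool))) (f := pat) (by
      rw [Finset.card_erase_of_mem hn1U, Finset.card_univ]
      omega) (fun a _ => Finset.mem_coe.2 (Finset.mem_univ _))
  have main : ∀ m1 ∈ U.erase n1, ∀ m2 ∈ U.erase n1, m1 < m2 → pat m1 = pat m2 → False := by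
    intro m1 hm1 m2 hm2 hlt heq
    obtain ⟨hm1n, hm1U⟩ := Finset.mem_erase.1 hm1
    obtain ⟨-, hm2U⟩ := Finset.mem_erase.1 hm2
    have h1 : n1 ≤ m1 := U.min'_le m1 hm1U
    obtain ⟨k1, rfl⟩ : ∃ k1, m1 = n1 + k1 := ⟨m1 - n1, by omega⟩
    obtain ⟨k3, rfl⟩ : ∃ k3, m2 = n1 + k1 + k3 := ⟨m2 - (n1 + k1), by omega⟩
    obtain ⟨b1, b2, b3⟩ := hUd n1 hn1U
    obtain ⟨c1, c2, c3⟩ := hUd _ hm1U
    obtain ⟨e1, e2, e3⟩ := hUd _ hm2U
    have hmem : n1 ∈ ⋃ k1 ∈ Finset.range (R + 1), ⋃ k3 ∈ Finset.Icc 1 R, E k1 k3 := by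
      refine Set.mem_biUnion (Finset.mem_coe.2 (Finset.mem_range.2 (by omega : k1 < R + 1))) ?_
      refine Set.mem_biUnion (Finset.mem_coe.2 (Finset.mem_Icc.2 (by omega : 1 ≤ k3 ∧ k3 ≤ R))) ?_
      refine ⟨T n1 (n1 + k1), T n1 (n1 + (k1 + k3)), T (n1 + k1) (n1 + k1 + k3), hTsq n1 hn1U k1 hm1U,
        hTsq n1 hn1U (k1 + k3) (by rw [← add_assoc]; exact hm2U), hTsq _ hm1U k3 hm2U, ?_, fun v => ?_⟩
      · have h3 : T n1 (n1 + k1) = sn n1 * sn (n1 + k1) / d := rfl
        have h4 : T n1 (n1 + (k1 + k3)) = sn n1 * sn (n1 + k1 + k3) / d := by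
          rw [add_assoc]
        have h5 : T (n1 + k1) (n1 + k1 + k3) = sn (n1 + k1) * sn (n1 + k1 + k3) / d := rfl
        rw [h3, h4, h5, div_mul_div_comm, ← mul_div_assoc, div_eq_div_iff (mul_ne_zero hd0 hd0) hd0]
        linear_combination (-(sn (n1 + k1) * sn (n1 + k1 + k3) * d)) * b3
      · have h3 := congrFun heq v
        rw [hpat] at h3
        have h4 := decide_eq_decide.1 h3
        rw [show n1 + k1 - n1 = k1 by omega, show n1 + k1 + k3 - n1 = k1 + k3 by omega] at h4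
        rw [← add_assoc]
        exact h4
    have h9 := hN1 hmem
    omega
  rcases lt_or_gt_of_ne hne with h | h
  · exact main m1 hm1 m2 hm2 h heq
  · exact main m2 hm2 m1 hm1 h heq.symm

end glob

end Pool.Agent.ORB.GP
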