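import Pool.Agent.ORB.Defs

/-!
ORB, M5 (G1): a wandering orbit of a polynomial meets, modulo some prime outside any given finite
set, a strictly preperiodic point.
-/

namespace Pool.Agent.ORB

open Polynomial NumberField IsDedekindDomain

universe u

section pair

/-- Over an algebraically closed field of characteristic zero a polynomial of degree at least two
has a fixed point with another preimage. -/
theorem fixed_pair_closed {F : Type*} [Field F] [IsAlgClosed F] [CharZero F] (f : F[X])
    (h : 2 ≤ f.natDegree) : ∃ γ γ' : F, γ' ≠ γ ∧ f.eval γ = γ ∧ f.eval γ' = γ := by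
  by_contra hcon
  push Not at hcon
  set d := f.natDegree with hd
  have hf0 : f ≠ 0 := by
    intro h0
    rw [h0, natDegree_zero] at hd
    omega
  set a := f.leadingCoeff with ha
  have ha0 : a ≠ 0 := leadingCoeff_ne_zero.2 hf0
  -- a fixed point is totally ramified
  have key : ∀ γ : F, f.eval γ = γ → f - C γ = C a * (X - C γ) ^ d := by
    intro γ hγ
    have hdeg : (f - C γ).natDegree = d := natDegree_sub_C
    have hlead : (f - C γ).leadingCoeff = a := by
      rw [ha]
      exact leadingCoeff_sub_of_degree_lt (by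
        rw [degree_eq_natDegree hf0]
        exact lt_of_le_of_lt degree_C_le (by exact_mod_cast (by omega : 0 < f.natDegree)))
    have hsp := IsAlgClosed.splits (f - C γ)
    have hroots : (f - C γ).roots = Multiset.replicate d γ := by
      rw [Multiset.eq_replicate]
      constructor
      · rw [← hdeg]
        exact (splits_iff_card_roots.1 hsp)
      · intro b hb
        by_contra hne
        have h1 : (f - C γ).eval b = 0 := isRoot_of_mem_roots hb
        rw [eval_sub, eval_C, sub_eq_zero] at h1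
        exact hcon γ b hne hγ h1
    have h2 := C_leadingCoeff_mul_prod_multiset_X_sub_C (p := f - C γ)
      (splits_iff_card_roots.1 hsp)
    rw [hlead, hroots, Multiset.map_replicate, Multiset.prod_replicate] at h2
    exact h2.symm
  -- a fixed point
  have hg : (f - X).degree ≠ 0 := by
    have h1 : (f - X).natDegree = d := by
      rw [natDegree_sub_eq_left_of_natDegree_lt]
      rw [natDegree_X]
      omega
    have h2 : f - X ≠ 0 := by
      intro h0
      rw [h0, natDegree_zero] at h1
      omega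
    rw [degree_eq_natDegree h2, h1]
    exact_mod_cast (by omega : d ≠ 0)
  obtain ⟨γ, hγ⟩ := IsAlgClosed.exists_root (f - X) hg
  have hγ' : f.eval γ = γ := by
    have := hγ
    rw [IsRoot, eval_sub, eval_X, sub_eq_zero] at this
    exact this
  have hk := key γ hγ'
  -- another fixed point
  obtain ⟨y, hy⟩ := IsAlgClosed.exists_pow_nat_eq (a⁻¹) (by omega : 0 < d - 1)
  have hy0 : y ≠ 0 := by
    intro h0
    rw [h0, zero_pow (by omega)] at hy
    exact inv_ne_zero ha0 hy.symm
  have hfy : f.eval (γ + y) = γ + y := by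
    have h1 := congrArg (eval (γ + y)) hk
    rw [eval_sub, eval_C, eval_mul, eval_C, eval_pow, eval_sub, eval_X, eval_C] at h1
    have h2 : y ^ d = y ^ (d - 1) * y := by
      rw [← pow_succ]
      congr 1
      omega
    rw [add_sub_cancel_left, h2, hy, ← mul_assoc, mul_inv_cancel₀ ha0, one_mul] at h1
    rw [sub_eq_iff_eq_add] at h1
    rw [h1, add_comm]
  have hk2 := key (γ + y) hfy
  -- compare the derivatives
  have hD : derivative (C a * (X - C γ) ^ d) = derivative (C a * (X - C (γ + y)) ^ d) := by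
    rw [← hk, ← hk2, derivative_sub, derivative_sub, derivative_C, derivative_C]
  have h3 := congrArg (eval γ) hD
  rw [derivative_C_mul, derivative_C_mul, derivative_X_sub_C_pow, derivative_X_sub_C_pow] at h3
  simp only [eval_mul, eval_C, eval_pow, eval_sub, eval_X, sub_self] at h3
  rw [zero_pow (by omega), mul_zero, mul_zero] at h3
  have h4 : (γ - (γ + y)) ^ (d - 1) ≠ 0 := by
    apply pow_ne_zero
    rw [sub_add_cancel_left]
    exact neg_ne_zero.2 hy0
  have h5 : (d : F) ≠ 0 := by exact_mod_cast (by omega : d ≠ 0)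
  exact mul_ne_zero ha0 (mul_ne_zero h5 h4) h3.symm

end pair

section cont

/-- Iterates of a polynomial map are continuous for every absolute value. -/
theorem iterate_cont {K : Type*} [Field K] (A : AbsoluteValue K ℝ) (f : K[X]) (c : K) (k : ℕ)
    {ε : ℝ} (hε : 0 < ε) : ∃ δ : ℝ, 0 < δ ∧ ∀ x : K, A (x - c) < δ →
      A ((fun x => f.eval x)^[k] x - (fun x => f.eval x)^[k] c) < ε := by
  let _ := A.toNormedField
  have h1 : Continuous (fun x : K => f.eval x) := f.continuous
  have h2 : Continuous ((fun x : K => f.eval x)^[k]) := h1.iterate k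
  obtain ⟨δ, hδ, h3⟩ := Metric.continuous_iff.1 h2 c ε hε
  refine ⟨δ, hδ, fun x hx => ?_⟩
  have h4 := h3 x (by rw [dist_eq_norm]; exact hx)
  rw [dist_eq_norm] at h4
  exact h4

end cont

variable {K : Type*} [Field K] [NumberField K]

/-- The absolute values of a number field. -/
noncomputable def pabv : HeightOneSpectrum (𝓞 K) ⊕ (K →+* ℂ) → AbsoluteValue K ℝ
  | Sum.inl w => w.adicAbv (K := K) (b := 2) one_lt_two
  | Sum.inr σ => place σ

theorem pabv_inr (σ : K →+* ℂ) (x : K) : pabv (Sum.inr σ) x = ‖σ x‖ := rfl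

theorem pabv_inl_le_one {w : HeightOneSpectrum (𝓞 K)} {x : K} (h : pabv (Sum.inl w) x ≤ 1) :
    w.valuation K x ≤ 1 := by
  have h1 : WithZeroMulInt.toNNReal (ne_zero_of_lt (one_lt_two : (1 : NNReal) < 2))
      (w.valuation K x) ≤ 1 := by
    have h2 : ((WithZeroMulInt.toNNReal (ne_zero_of_lt (one_lt_two : (1 : NNReal) < 2))
      (w.valuation K x) : NNReal) : ℝ) ≤ 1 := h
    exact_mod_cast h2
  exact (WithZeroMulInt.toNNReal_strictMono (one_lt_two : (1 : NNReal) < 2)).le_iff_le.1
    (by rw [map_one]; exact h1)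

/-- Boundedness at the places of a finite set and integrality elsewhere leave finitely many elements. -/
theorem finite_bounded (S : Finset (HeightOneSpectrum (𝓞 K))) (C : ℝ) :
    {y : K | (∀ w ∉ S, w.valuation K y ≤ 1) ∧ (∀ w ∈ S, pabv (Sum.inl w) y ≤ C) ∧
      (∀ σ : K →+* ℂ, ‖σ y‖ ≤ C)}.Finite := by
  classical
  set N : ℕ := ∏ w ∈ S, Ideal.absNorm w.asIdeal with hN
  have hN0 : N ≠ 0 := by
    rw [hN, Finset.prod_ne_zero_iff]
    intro w _
    rw [Ne, Ideal.absNorm_eq_zero_iff]
    exact w.ne_bot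
  have hNw : ∀ w ∈ S, pabv (Sum.inl w) (N : K) < 1 := by
    intro w hw
    have h1 : ((N : ℕ) : 𝓞 K) ∈ w.asIdeal := by
      have h2 : ((Ideal.absNorm w.asIdeal : ℕ) : 𝓞 K) ∈ w.asIdeal := Ideal.absNorm_mem w.asIdeal
      have h3 : Ideal.absNorm w.asIdeal ∣ N := Finset.dvd_prod_of_mem _ hw
      obtain ⟨c, hc⟩ := h3
      rw [hc, Nat.cast_mul]
      exact Ideal.mul_mem_right _ _ h2
    have h4 := (w.adicAbv_coe_lt_one_iff (K := K) (one_lt_two : (1 : NNReal) < 2) ((N : ℕ) : 𝓞 K)).2 h1
    rw [map_natCast] at h4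
    exact h4
  -- a power of `N` which kills the denominators
  obtain ⟨m, hm⟩ : ∃ m : ℕ, ∀ w ∈ S, pabv (Sum.inl w) (N : K) ^ m * |C| ≤ 1 := by
    have h1 : ∀ᶠ m : ℕ in Filter.atTop, ∀ w ∈ S, pabv (Sum.inl w) (N : K) ^ m * |C| ≤ 1 := by
      rw [Filter.eventually_all_finset]
      intro w hw
      have h2 := (tendsto_pow_atTop_nhds_zero_of_lt_one
        ((pabv (Sum.inl w)).nonneg (N : K)) (hNw w hw)).mul_const |C|
      rw [zero_mul] at h2
      exact (h2.eventually_lt_const one_pos).mono fun m hm => hm.le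
    exact h1.exists
  set D : ℕ := N ^ m with hD
  have hD0 : (D : K) ≠ 0 := by
    rw [hD]
    exact_mod_cast pow_ne_zero _ hN0
  have hfin := NumberField.Embeddings.finite_of_norm_le K ℂ (D * C)
  refine Set.Finite.of_finite_image (f := fun y => (D : K) * y) (hfin.subset ?_)
    (fun x _ y _ hxy => mul_left_cancel₀ hD0 hxy)
  rintro _ ⟨y, ⟨h1, h2, h3⟩, rfl⟩
  constructor
  · have h4 : (D : K) * y ∈ (algebraMap (𝓞 K) K).range := by
      apply HeightOneSpectrum.mem_integers_of_valuation_le_one
      intro w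
      by_cases hw : w ∈ S
      · apply pabv_inl_le_one
        rw [map_mul, hD, Nat.cast_pow, map_pow]
        have h5 := hm w hw
        have h6 : pabv (Sum.inl w) y ≤ |C| := le_trans (h2 w hw) (le_abs_self C)
        exact le_trans (mul_le_mul_of_nonneg_left h6
          (pow_nonneg ((pabv (Sum.inl w)).nonneg _) _)) h5
      · rw [map_mul]
        have h5 : w.valuation K (D : K) ≤ 1 := by
          have h6 := w.valuation_le_one (K := K) ((D : ℕ) : 𝓞 K)
          simpa using h6
        exact mul_le_one' h5 (h1 w hw)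
    obtain ⟨z, hz⟩ := h4
    change IsIntegral ℤ ((D : K) * y)
    rw [← hz]
    exact RingOfIntegers.isIntegral_coe z
  · intro σ
    change ‖σ ((D : K) * y)‖ ≤ D * C
    rw [map_mul, norm_mul, map_natCast, Complex.norm_natCast]
    exact mul_le_mul_of_nonneg_left (h3 σ) (Nat.cast_nonneg _)

/-- (G1) A wandering orbit meets `γ'` modulo a prime outside any given finite set, if `γ'` is
strictly preperiodic (`γ' ↦ γ ↦ γ`, `γ' ≠ γ`). -/
theorem good_prime (f : K[X]) {β γ γ' : K} (hγ : f.eval γ = γ) (hγ' : f.eval γ' = γ)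
    (hne : γ' ≠ γ) (hβ : Function.Injective fun n : ℕ => (fun x => f.eval x)^[n] β)
    (S : Finset (HeightOneSpectrum (𝓞 K))) :
    ∃ w ∉ S, ∃ n : ℕ, w.valuation K ((fun x => f.eval x)^[n] β - γ') < 1 := by
  classical
  by_contra hcon
  push Not at hcon
  set x : ℕ → K := fun n => (fun x => f.eval x)^[n] β with hx
  -- enlarge the set of primes
  have hfin : (⋃ i ∈ Finset.range (f.natDegree + 1), HeightOneSpectrum.Support (𝓞 K) (f.coeff i)).Finite :=
    Set.Finite.biUnion (Finset.finite_toSet _) fun i _ => HeightOneSpectrum.Support.finite (𝓞 K) _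
  set S' : Finset (HeightOneSpectrum (𝓞 K)) := S ∪ hfin.toFinset ∪
    (HeightOneSpectrum.Support.finite (𝓞 K) β).toFinset ∪
    (HeightOneSpectrum.Support.finite (𝓞 K) γ').toFinset with hS'
  have hint : ∀ w ∉ S', (∀ i, w.valuation K (f.coeff i) ≤ 1) ∧ w.valuation K β ≤ 1 ∧
      w.valuation K γ' ≤ 1 ∧ w ∉ S := by
    intro w hw
    rw [hS', Finset.mem_union, Finset.mem_union, Finset.mem_union, Set.Finite.mem_toFinset,
      Set.Finite.mem_toFinset, Set.Finite.mem_toFinset] at hw
    push Not at hw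
    obtain ⟨⟨⟨h1, h2⟩, h3⟩, h4⟩ := hw
    refine ⟨fun i => ?_, ?_, ?_, h1⟩
    · by_cases hi : i ∈ Finset.range (f.natDegree + 1)
      · by_contra h5
        apply h2
        rw [Set.mem_iUnion₂]
        exact ⟨i, hi, not_le.1 h5⟩
      · rw [Finset.mem_range] at hi
        rw [coeff_eq_zero_of_natDegree_lt (by omega), map_zero]
        exact zero_le
    · by_contra h5
      exact h3 (not_le.1 h5)
    · by_contra h5
      exact h4 (not_le.1 h5)
  have hxint : ∀ w ∉ S', ∀ n, w.valuation K (x n) ≤ 1 := by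
    intro w hw n
    obtain ⟨h1, h2, -, -⟩ := hint w hw
    induction n with
    | zero => exact h2
    | succ n ih =>
      have h3 : x (n + 1) = f.eval (x n) := by
        rw [hx]
        exact Function.iterate_succ_apply' _ _ _
      rw [h3, eval_eq_sum_range]
      have h4 : ∑ i ∈ Finset.range (f.natDegree + 1), f.coeff i * x n ^ i ∈
          (w.valuation K).integer := by
        apply Subring.sum_mem
        intro i _
        apply Subring.mul_mem
        · exact h1 i
        · exact Subring.pow_mem _ ih i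
      exact h4
  have hval : ∀ w ∉ S', ∀ n, w.valuation K (x n - γ') = 1 := by
    intro w hw n
    refine le_antisymm ?_ (hcon w (hint w hw).2.2.2 n)
    exact le_trans ((w.valuation K).map_sub _ _) (max_le (hxint w hw n) (hint w hw).2.2.1)
  have hx1 : ∀ n, x (n + 1) = f.eval (x n) := fun n => Function.iterate_succ_apply' _ _ _
  have hxne : ∀ n, x n - γ' ≠ 0 := by
    intro n h0
    rw [sub_eq_zero] at h0
    have h1 : x (n + 1) = γ := by rw [hx1, h0, hγ']
    have h2 : x (n + 2) = γ := by rw [hx1, h1, hγ]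
    have h3 := hβ (h1.trans h2.symm)
    omega
  set y : ℕ → K := fun n => (x n - γ')⁻¹ with hy
  have hyinj : Function.Injective y := by
    intro n n' h
    have h1 : x n - γ' = x n' - γ' := inv_injective h
    exact hβ (sub_left_injective h1)
  -- close to `γ'` at some place
  have hclose : ∀ δ : ℝ, 0 < δ → ∃ n0 : ℕ, ∀ n, n0 ≤ n →
      ∃ i : {w // w ∈ S'} ⊕ (K →+* ℂ), pabv (i.map (fun w => w.1) id) (x n - γ') < δ := by
    intro δ hδ
    have h1 := (finite_bounded (K := K) S' δ⁻¹).preimage (hyinj.injOn (s := y ⁻¹' _))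
    obtain ⟨n0, hn0⟩ := h1.bddAbove
    refine ⟨n0 + 1, fun n hn => ?_⟩
    by_contra hno
    push Not at hno
    have h2 : n ∈ y ⁻¹' {y : K | (∀ w ∉ S', w.valuation K y ≤ 1) ∧
        (∀ w ∈ S', pabv (Sum.inl w) y ≤ δ⁻¹) ∧ (∀ σ : K →+* ℂ, ‖σ y‖ ≤ δ⁻¹)} := by
      refine ⟨fun w hw => ?_, fun w hw => ?_, fun σ => ?_⟩
      · change w.valuation K ((x n - γ')⁻¹) ≤ 1
        rw [map_inv₀, hval w hw n, inv_one]
      · have h3 := hno (Sum.inl ⟨w, hw⟩)
        change δ ≤ pabv (Sum.inl w) (x n - γ') at h3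
        change pabv (Sum.inl w) ((x n - γ')⁻¹) ≤ δ⁻¹
        rw [map_inv₀]
        exact inv_anti₀ hδ h3
      · have h3 := hno (Sum.inr σ)
        change δ ≤ ‖σ (x n - γ')‖ at h3
        change ‖σ ((x n - γ')⁻¹)‖ ≤ δ⁻¹
        rw [map_inv₀, norm_inv]
        exact inv_anti₀ hδ h3
    have h3 := hn0 h2
    omega
  -- the constants
  set m := Fintype.card ({w // w ∈ S'} ⊕ (K →+* ℂ)) with hm
  have hdel : ∀ q : ({w // w ∈ S'} ⊕ (K →+* ℂ)) × Fin (m + 1), ∃ δ : ℝ, 0 < δ ∧ ∀ z : K,
      pabv (q.1.map (fun w => w.1) id) (z - γ') < δ →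
      pabv (q.1.map (fun w => w.1) id) ((fun x => f.eval x)^[q.2.1] z -
        (fun x => f.eval x)^[q.2.1] γ') < pabv (q.1.map (fun w => w.1) id) (γ - γ') / 2 := by
    intro q
    apply iterate_cont
    have := (pabv (q.1.map (fun w => w.1) id)).pos (sub_ne_zero.2 hne.symm)
    positivity
  choose del hdel0 hdel1 using hdel
  obtain ⟨δ, hδ0, hδ1⟩ : ∃ δ : ℝ, 0 < δ ∧ ∀ q, δ < del q := by
    have h1 : ∀ᶠ δ : ℝ in nhdsWithin 0 (Set.Ioi 0), ∀ q, δ < del q := by
      rw [Filter.eventually_all]
      intro q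
      exact (eventually_lt_nhds (hdel0 q)).filter_mono nhdsWithin_le_nhds
    obtain ⟨δ, h2, h3⟩ := (h1.and self_mem_nhdsWithin).exists
    exact ⟨δ, h3, h2⟩
  obtain ⟨n0, hn0⟩ := hclose δ hδ0
  choose idx hidx using fun j : Fin (m + 1) => hn0 (n0 + j.1) (Nat.le_add_right _ _)
  obtain ⟨j1, j2, hj, hjj⟩ := Fintype.exists_ne_map_eq_of_card_lt idx (by
    rw [Fintype.card_fin, ← hm]
    omega)
  -- order the two indices
  have main : ∀ j1 j2 : Fin (m + 1), j1 < j2 → idx j1 = idx j2 → False := by
    intro j1 j2 hlt he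
    set A : AbsoluteValue K ℝ := pabv ((idx j1).map (fun w => w.1) id) with hA
    have h1 : A (x (n0 + j1.1) - γ') < δ := hidx j1
    have h2 : A (x (n0 + j2.1) - γ') < δ := by
      have := hidx j2
      rw [← he] at this
      exact this
    have hlt' : j1.1 < j2.1 := hlt
    obtain ⟨k, hk⟩ : ∃ k : ℕ, j2.1 = j1.1 + (k + 1) := ⟨j2.1 - j1.1 - 1, by omega⟩
    have hkm : k + 1 < m + 1 := by
      have := j2.2
      omega
    have h3 := hdel1 (idx j1, ⟨k + 1, hkm⟩) (x (n0 + j1.1)) (lt_trans h1 (hδ1 _))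
    have h4 := hdel1 (idx j1, ⟨0, by omega⟩) (x (n0 + j2.1)) (lt_trans h2 (hδ1 _))
    change A ((fun x => f.eval x)^[k + 1] (x (n0 + j1.1)) - (fun x => f.eval x)^[k + 1] γ')
      < A (γ - γ') / 2 at h3
    change A (x (n0 + j2.1) - γ') < A (γ - γ') / 2 at h4
    have h5 : (fun x => f.eval x)^[k + 1] (x (n0 + j1.1)) = x (n0 + j2.1) := by
      rw [hx]
      change (fun x => f.eval x)^[k + 1] ((fun x => f.eval x)^[n0 + j1.1] β) =
        (fun x => f.eval x)^[n0 + j2.1] β
      rw [← Function.iterate_add_apply]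
      congr 1
      omega
    have h6 : (fun x => f.eval x)^[k + 1] γ' = γ := by
      rw [Function.iterate_succ_apply]
      rw [hγ']
      exact Function.iterate_fixed hγ k
    rw [h5, h6] at h3
    have h7 : A (γ - γ') ≤ A (x (n0 + j2.1) - γ) + A (x (n0 + j2.1) - γ') := by
      have h8 : γ - γ' = (x (n0 + j2.1) - γ') - (x (n0 + j2.1) - γ) := by ring
      rw [h8]
      refine le_trans (A.sub_le_add _ _) ?_
      rw [add_comm]
    linarith
  rcases lt_or_gt_of_ne hj with h | h
  · exact main j1 j2 h hjj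
  · exact main j2 j1 h hjj.symm

section congr

variable {Γ₀ : Type*} [LinearOrderedCommGroupWithZero Γ₀] {F : Type*} [Field F] (v : Valuation F Γ₀)

/-- congruence of integral elements -/
def Cong (x y : F) : Prop := v x ≤ 1 ∧ v y ≤ 1 ∧ v (x - y) < 1

theorem Cong.symm {v : Valuation F Γ₀} {x y : F} (h : Cong v x y) : Cong v y x :=
  ⟨h.2.1, h.1, by rw [v.map_sub_swap]; exact h.2.2⟩

theorem Cong.trans {v : Valuation F Γ₀} {x y z : F} (h : Cong v x y) (h' : Cong v y z) :
    Cong v x z := by
  refine ⟨h.1, h'.2.1, ?_⟩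
  have h1 : x - z = (x - y) + (y - z) := by ring
  rw [h1]
  exact v.map_add_lt h.2.2 h'.2.2

theorem Cong.refl {v : Valuation F Γ₀} {x : F} (h : v x ≤ 1) : Cong v x x :=
  ⟨h, h, by rw [sub_self, map_zero]; exact zero_lt_one⟩

theorem Cong.add {v : Valuation F Γ₀} {x y x' y' : F} (h : Cong v x y) (h' : Cong v x' y') :
    Cong v (x + x') (y + y') := by
  refine ⟨v.map_add_le h.1 h'.1, v.map_add_le h.2.1 h'.2.1, ?_⟩
  have h1 : x + x' - (y + y') = (x - y) + (x' - y') := by ring
  rw [h1]
  exact v.map_add_lt h.2.2 h'.2.2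

theorem Cong.mul {v : Valuation F Γ₀} {x y x' y' : F} (h : Cong v x y) (h' : Cong v x' y') :
    Cong v (x * x') (y * y') := by
  refine ⟨?_, ?_, ?_⟩
  · rw [map_mul]
    exact mul_le_one' h.1 h'.1
  · rw [map_mul]
    exact mul_le_one' h.2.1 h'.2.1
  · have h1 : x * x' - y * y' = (x - y) * x' + y * (x' - y') := by ring
    rw [h1]
    apply v.map_add_lt
    · rw [map_mul]
      exact lt_of_le_of_lt (mul_le_of_le_one_right' h'.1) h.2.2
    · rw [map_mul]
      exact lt_of_le_of_lt (mul_le_of_le_one_left' h.2.1) h'.2.2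

theorem Cong.pow {v : Valuation F Γ₀} {x y : F} (h : Cong v x y) (n : ℕ) :
    Cong v (x ^ n) (y ^ n) := by
  induction n with
  | zero => rw [pow_zero, pow_zero]; exact Cong.refl (by rw [map_one])
  | succ n ih => rw [pow_succ, pow_succ]; exact ih.mul h

theorem Cong.eval {v : Valuation F Γ₀} {x y : F} (h : Cong v x y) {f : F[X]}
    (hf : ∀ i, v (f.coeff i) ≤ 1) : Cong v (f.eval x) (f.eval y) := by
  rw [eval_eq_sum_range, eval_eq_sum_range]
  induction f.natDegree + 1 with
  | zero => rw [Finset.sum_range_zero, Finset.sum_range_zero]; exact Cong.refl (by rw [map_zero]; exact zero_le_one)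
  | succ n ih =>
    rw [Finset.sum_range_succ, Finset.sum_range_succ]
    exact ih.add ((Cong.refl (hf n)).mul (h.pow n))

theorem Cong.iterate {v : Valuation F Γ₀} {x y : F} (h : Cong v x y) {f : F[X]}
    (hf : ∀ i, v (f.coeff i) ≤ 1) (n : ℕ) :
    Cong v ((fun x => f.eval x)^[n] x) ((fun x => f.eval x)^[n] y) := by
  induction n with
  | zero => exact h
  | succ n ih =>
    rw [Function.iterate_succ_apply', Function.iterate_succ_apply']
    exact ih.eval hf

end congr

/-- a polynomial of degree at least two has a fixed point with a second preimage, in an extension -/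
theorem exists_fixed_pair {K : Type u} [Field K] [NumberField K] (f : K[X]) (hf : 2 ≤ f.natDegree) :
    ∃ (K2 : Type u) (_ : Field K2) (_ : NumberField K2) (_ : Algebra K K2) (γ γ' : K2),
      γ' ≠ γ ∧ aeval γ f = γ ∧ aeval γ' f = γ := by
  have hd : (f.map (algebraMap K (AlgebraicClosure K))).natDegree = f.natDegree :=
    natDegree_map_eq_of_injective (algebraMap K (AlgebraicClosure K)).injective f
  obtain ⟨γ, γ', h1, h2, h3⟩ := fixed_pair_closed (f.map (algebraMap K (AlgebraicClosure K)))
    (by rw [hd]; exact hf)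
  rw [eval_map_algebraMap] at h2 h3
  set E : IntermediateField K (AlgebraicClosure K) := IntermediateField.adjoin K {γ, γ'} with hE
  have hfin : FiniteDimensional K E := by
    rw [hE]
    refine IntermediateField.finiteDimensional_adjoin ?_
    intro x _
    exact Algebra.IsIntegral.isIntegral x
  have hNF : NumberField E := NumberField.of_module_finite K E
  have m1 : γ ∈ E := IntermediateField.subset_adjoin K _ (Set.mem_insert _ _)
  have m2 : γ' ∈ E := IntermediateField.subset_adjoin K _ (Set.mem_insert_of_mem _ rfl)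
  refine ⟨E, inferInstance, hNF, inferInstance, ⟨γ, m1⟩, ⟨γ', m2⟩, ?_, ?_, ?_⟩
  · intro h
    exact h1 (congrArg Subtype.val h)
  · apply Subtype.ext
    have := aeval_algebraMap_apply (AlgebraicClosure K) (⟨γ, m1⟩ : E) f
    change aeval γ f = algebraMap E (AlgebraicClosure K) (aeval (⟨γ, m1⟩ : E) f) at this
    rw [h2] at this
    exact this.symm
  · apply Subtype.ext
    have := aeval_algebraMap_apply (AlgebraicClosure K) (⟨γ', m2⟩ : E) f
    change aeval γ' f = algebraMap E (AlgebraicClosure K) (aeval (⟨γ', m2⟩ : E) f) at this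
    rw [h3] at this
    exact this.symm

/-- core of the argument -/
theorem exists_prime_hit {K : Type u} [Field K] [NumberField K] (f : K[X])
    (γ γ' b : K) (hne : γ' ≠ γ) (h1 : f.eval γ = γ) (h2 : f.eval γ' = γ) (hb : Wandering f b)
    (bad : Finset ℕ) : ∃ w : HeightOneSpectrum (𝓞 K), Off w bad ∧ (∀ j, w.valuation K (f.coeff j) ≤ 1) ∧
      w.valuation K b ≤ 1 ∧ w.valuation K γ ≤ 1 ∧ w.valuation K γ' ≤ 1 ∧ w.valuation K (γ' - γ) = 1 ∧
      ∃ n : ℕ, w.valuation K ((fun x => f.eval x)^[n] b - γ') < 1 := by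
  classical
  have hfin : ∀ a : K, (HeightOneSpectrum.Support (𝓞 K) a).Finite := fun a =>
    HeightOneSpectrum.Support.finite (𝓞 K) a
  set S : Finset (HeightOneSpectrum (𝓞 K)) :=
    ((Finset.range (f.natDegree + 1)).biUnion fun i => (hfin (f.coeff i)).toFinset) ∪
    (bad.biUnion fun m => (hfin ((m : K)⁻¹)).toFinset) ∪ (hfin b).toFinset ∪ (hfin γ).toFinset ∪
    (hfin γ').toFinset ∪ (hfin ((γ' - γ)⁻¹)).toFinset with hS
  obtain ⟨w, hw, n, hn⟩ := good_prime f h1 h2 hne hb S
  simp only [hS, Finset.mem_union, Finset.mem_biUnion, Set.Finite.mem_toFinset, not_or, not_exists,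
    not_and] at hw
  obtain ⟨⟨⟨⟨⟨hw1, hw2⟩, hw3⟩, hw4⟩, hw5⟩, hw6⟩ := hw
  have hle : ∀ a : K, w ∉ HeightOneSpectrum.Support (𝓞 K) a → w.valuation K a ≤ 1 :=
    fun a ha => not_lt.1 ha
  have hge : ∀ a : K, a ≠ 0 → w ∉ HeightOneSpectrum.Support (𝓞 K) a⁻¹ → 1 ≤ w.valuation K a := by
    intro a ha h3
    have h4 := hle _ h3
    rw [map_inv₀] at h4
    have h5 : 0 < w.valuation K a := by
      rw [Valuation.pos_iff]
      exact ha
    exact (inv_le_one₀ h5).1 h4
  refine ⟨w, ?_, ?_, hle _ hw3, hle _ hw4, hle _ hw5, ?_, n, hn⟩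
  · intro m hm hm0
    refine le_antisymm ?_ (hge _ (by exact_mod_cast hm0) (hw2 m hm))
    have h6 := w.valuation_le_one (K := K) ((m : ℕ) : 𝓞 K)
    simpa using h6
  · intro j
    by_cases hj : j ∈ Finset.range (f.natDegree + 1)
    · exact hle _ (hw1 j hj)
    · rw [Finset.mem_range] at hj
      rw [coeff_eq_zero_of_natDegree_lt (by omega), map_zero]
      exact zero_le
  · refine le_antisymm ?_ (hge _ (sub_ne_zero.2 hne) hw6)
    exact le_trans ((w.valuation K).map_sub _ _) (max_le (hle _ hw5) (hle _ hw4))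

theorem exists_good_prime {K : Type u} [Field K] [NumberField K] (f : K[X]) (hf : 2 ≤ f.natDegree)
    (b : K) (hb : Wandering f b) (bad : Finset ℕ) :
    ∃ (K2 : Type u) (_ : Field K2) (_ : NumberField K2) (_ : Algebra K K2)
      (w : HeightOneSpectrum (𝓞 K2)), Off w bad ∧
        NonPer w (f.map (algebraMap K K2)) (algebraMap K K2 b) := by
  obtain ⟨K2, i1, i2, i3, γ, γ', hne, hγ, hγ'⟩ := exists_fixed_pair f hf
  set g : K2[X] := f.map (algebraMap K K2) with hg
  have e1 : g.eval γ = γ := by rw [hg, eval_map_algebraMap]; exact hγ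
  have e2 : g.eval γ' = γ := by rw [hg, eval_map_algebraMap]; exact hγ'
  have hit : ∀ n : ℕ, (fun x => g.eval x)^[n] (algebraMap K K2 b) =
      algebraMap K K2 ((fun x => f.eval x)^[n] b) := by
    intro n
    induction n with
    | zero => rfl
    | succ n ih =>
      rw [Function.iterate_succ_apply', Function.iterate_succ_apply', ih]
      rw [hg, eval_map_algebraMap, aeval_algebraMap_apply_eq_algebraMap_eval]
  have hb2 : Wandering g (algebraMap K K2 b) := by
    intro n n' h
    apply hb
    have h3 : (fun x => g.eval x)^[n] (algebraMap K K2 b) =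
      (fun x => g.eval x)^[n'] (algebraMap K K2 b) := h
    rw [hit, hit] at h3
    exact (algebraMap K K2).injective h3
  obtain ⟨w, hoff, hc, hwb, hwγ, hwγ', hunit, n, hn⟩ :=
    exists_prime_hit g γ γ' (algebraMap K K2 b) hne e1 e2 hb2 bad
  refine ⟨K2, i1, i2, i3, w, hoff, ?_⟩
  intro m hm
  by_contra hlt
  rw [not_le] at hlt
  set v := w.valuation K2 with hv
  set T : K2 → K2 := fun x => g.eval x with hT
  set B := algebraMap K K2 b with hB
  -- all points of the orbit are integral
  have hBB : Cong v B B := Cong.refl hwb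
  have hint : ∀ k, v (T^[k] B) ≤ 1 := fun k => (hBB.iterate hc k).1
  -- `b` is periodic modulo `w`
  have hper : Cong v (T^[m] B) B := ⟨hint m, hwb, hlt⟩
  have hper2 : ∀ k, Cong v (T^[m * k] B) B := by
    intro k
    induction k with
    | zero => rw [mul_zero]; exact hBB
    | succ k ih =>
      have h3 : T^[m * (k + 1)] B = T^[m] (T^[m * k] B) := by
        rw [← Function.iterate_add_apply]
        congr 1
        ring
      rw [h3]
      exact (ih.iterate hc m).trans hper
  have hTγ : ∀ k, T^[k] γ = γ := fun k => Function.iterate_fixed e1 k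
  have hhit : Cong v (T^[n] B) γ' := ⟨hint n, hwγ', hn⟩
  -- after the hit the orbit is at `γ`
  have hafter : ∀ k, Cong v (T^[n + (k + 1)] B) γ := by
    intro k
    have h3 : T^[n + (k + 1)] B = T^[k + 1] (T^[n] B) := by
      rw [← Function.iterate_add_apply]
      congr 1
      ring
    have h4 : T^[k + 1] γ' = γ := by
      rw [Function.iterate_succ_apply]
      have h5 : T γ' = γ := e2
      rw [h5]
      exact hTγ k
    rw [h3]
    have h5 := hhit.iterate hc (k + 1)
    change Cong v (T^[k + 1] (T^[n] B)) (T^[k + 1] γ') at h5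
    rw [h4] at h5
    exact h5
  have hBγ : Cong v B γ := by
    obtain ⟨k, hk⟩ : ∃ k, m * (n + 1) = n + (k + 1) := by
      have : n + 1 ≤ m * (n + 1) := Nat.le_mul_of_pos_left _ (by omega)
      exact ⟨m * (n + 1) - (n + 1), by omega⟩
    have h3 := hafter k
    rw [← hk] at h3
    exact (hper2 (n + 1)).symm.trans h3
  have h6 : Cong v (T^[n] B) γ := by
    have h7 := hBγ.iterate hc n
    change Cong v (T^[n] B) (T^[n] γ) at h7
    rw [hTγ] at h7
    exact h7
  have h7 := (hhit.symm.trans h6).2.2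
  rw [hunit] at h7
  exact lt_irrefl _ h7

end Pool.Agent.ORB
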