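import Pool.Agent.ORB.Count3

/-! ORB, M10d: from pairs of numerators and denominators to rational numbers ordered by height. -/

namespace Pool.Agent.ORB

/-- the tuples of rational numbers of height at most `H` -/
def HBox (ι : Type) (H : ℕ) : Set (ι → ℚ) := {β | ∀ i, (β i).num.natAbs ≤ H ∧ (β i).den ≤ H}

theorem sum_inv_sq_le (n : ℕ) (hn : 1 ≤ n) :
    ∑ d ∈ Finset.Icc 2 n, (1 : ℝ) / (d : ℝ) ^ 2 ≤ 2 / 3 - 1 / (n + 1 / 2 : ℝ) := by
  induction n, hn using Nat.le_induction with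
  | base => norm_num
  | succ n hn ih =>
    rw [Finset.sum_Icc_succ_top (by omega)]
    have hn' : (1 : ℝ) ≤ n := by exact_mod_cast hn
    have h1 : (1 : ℝ) / ((n + 1 : ℕ) : ℝ) ^ 2 ≤ 1 / (n + 1 / 2 : ℝ) - 1 / (((n + 1 : ℕ) : ℝ) + 1 / 2 : ℝ) := by
      rw [div_sub_div _ _ (by positivity) (by positivity), div_le_div_iff₀ (by positivity) (by positivity)]
      push_cast
      nlinarith
    linarith

theorem card_coprime_ge (H : ℕ) :
    (H : ℝ) ^ 2 / 3 ≤ (((Finset.Ioc 0 H ×ˢ Finset.Ioc 0 H).filter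
      (fun q : ℕ × ℕ => Nat.Coprime q.1 q.2)).card : ℝ) := by
  rcases Nat.eq_zero_or_pos H with rfl | hH
  · simp
  have hHR : (1 : ℝ) ≤ H := by exact_mod_cast hH
  have h1 := Finset.card_filter_add_card_filter_not (s := Finset.Ioc 0 H ×ˢ Finset.Ioc 0 H)
    (fun q : ℕ × ℕ => Nat.Coprime q.1 q.2)
  rw [Finset.card_product, Nat.card_Ioc, Nat.sub_zero] at h1
  have h2 : ((Finset.Ioc 0 H ×ˢ Finset.Ioc 0 H).filter (fun q : ℕ × ℕ => ¬ Nat.Coprime q.1 q.2)) ⊆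
      (Finset.Icc 2 H).biUnion (fun d => ((Finset.Ioc 0 H).filter (fun x => d ∣ x)) ×ˢ
        ((Finset.Ioc 0 H).filter (fun x => d ∣ x))) := by
    rintro ⟨a, b⟩ h
    simp only [Finset.mem_filter, Finset.mem_product, Finset.mem_Ioc] at h
    simp only [Finset.mem_biUnion, Finset.mem_Icc, Finset.mem_product, Finset.mem_filter, Finset.mem_Ioc]
    have hg : 0 < Nat.gcd a b := Nat.gcd_pos_of_pos_left _ h.1.1.1
    have hga : Nat.gcd a b ≤ a := Nat.le_of_dvd h.1.1.1 (Nat.gcd_dvd_left _ _)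
    refine ⟨Nat.gcd a b, ⟨?_, hga.trans h.1.1.2⟩, ⟨h.1.1, Nat.gcd_dvd_left _ _⟩, ⟨h.1.2, Nat.gcd_dvd_right _ _⟩⟩
    have hne : Nat.gcd a b ≠ 1 := h.2
    omega
  have h3 : (((Finset.Ioc 0 H ×ˢ Finset.Ioc 0 H).filter (fun q : ℕ × ℕ => ¬ Nat.Coprime q.1 q.2)).card : ℝ) ≤
      (2 / 3) * (H : ℝ) ^ 2 := by
    have h4 := (Finset.card_le_card h2).trans Finset.card_biUnion_le
    have h5 : (((Finset.Ioc 0 H ×ˢ Finset.Ioc 0 H).filter (fun q : ℕ × ℕ => ¬ Nat.Coprime q.1 q.2)).card : ℝ) ≤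
        ∑ d ∈ Finset.Icc 2 H, ((((Finset.Ioc 0 H).filter (fun x => d ∣ x)) ×ˢ
        ((Finset.Ioc 0 H).filter (fun x => d ∣ x))).card : ℝ) := by exact_mod_cast h4
    refine h5.trans ?_
    have h6 : ∀ d ∈ Finset.Icc 2 H, ((((Finset.Ioc 0 H).filter (fun x => d ∣ x)) ×ˢ
        ((Finset.Ioc 0 H).filter (fun x => d ∣ x))).card : ℝ) ≤ (H : ℝ) ^ 2 * (1 / (d : ℝ) ^ 2) := by
      intro d hd
      rw [Finset.card_product, Nat.Ioc_filter_dvd_card_eq_div, Nat.cast_mul]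
      have h7 : ((H / d : ℕ) : ℝ) ≤ (H : ℝ) / d := Nat.cast_div_le
      have h8 : ((H / d : ℕ) : ℝ) * ((H / d : ℕ) : ℝ) ≤ ((H : ℝ) / d) * ((H : ℝ) / d) :=
        mul_le_mul h7 h7 (by positivity) (by positivity)
      refine h8.trans (le_of_eq ?_)
      rw [div_mul_div_comm, ← sq, ← sq]
      ring
    refine (Finset.sum_le_sum h6).trans ?_
    rw [← Finset.mul_sum]
    have h7 := sum_inv_sq_le H hH
    have h8 : (0 : ℝ) ≤ 1 / (H + 1 / 2 : ℝ) := by positivity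
    nlinarith
  have h4 : (((Finset.Ioc 0 H ×ˢ Finset.Ioc 0 H).filter (fun q : ℕ × ℕ => Nat.Coprime q.1 q.2)).card : ℝ) +
      (((Finset.Ioc 0 H ×ˢ Finset.Ioc 0 H).filter (fun q : ℕ × ℕ => ¬ Nat.Coprime q.1 q.2)).card : ℝ) =
      (H : ℝ) * H := by exact_mod_cast h1
  nlinarith

theorem finite_HBox_one (H : ℕ) : {x : ℚ | x.num.natAbs ≤ H ∧ x.den ≤ H}.Finite := by
  apply Set.Finite.of_finite_image (f := fun x : ℚ => (x.num, x.den))
  · apply Set.Finite.subset ((Set.finite_Icc (-(H : ℤ)) H).prod (Set.finite_Icc 0 H))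
    rintro _ ⟨x, hx, rfl⟩
    simp only [Set.mem_ofPred_eq] at hx
    simp only [Set.mem_prod, Set.mem_Icc]
    omega
  · intro x _ y _ h
    simp only [Prod.mk.injEq] at h
    exact Rat.ext h.1 h.2

theorem ncard_HBox_one_ge (H : ℕ) : (H : ℝ) ^ 2 / 3 ≤ ({x : ℚ | x.num.natAbs ≤ H ∧ x.den ≤ H}.ncard : ℝ) := by
  refine (card_coprime_ge H).trans ?_
  have h1 : ((Finset.Ioc 0 H ×ˢ Finset.Ioc 0 H).filter (fun q : ℕ × ℕ => Nat.Coprime q.1 q.2)).card ≤
      {x : ℚ | x.num.natAbs ≤ H ∧ x.den ≤ H}.ncard := by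
    rw [← Set.ncard_coe_finset]
    have key : ∀ q : ℕ × ℕ, 0 < q.2 → Nat.Coprime q.1 q.2 →
        ((q.1 : ℚ) / (q.2 : ℚ)).num = q.1 ∧ ((q.1 : ℚ) / (q.2 : ℚ)).den = q.2 := by
      intro q h0 hc
      have e : ((q.1 : ℚ) / (q.2 : ℚ)) = (((q.1 : ℤ) : ℚ) / ((q.2 : ℤ) : ℚ)) := by push_cast; rfl
      constructor
      · rw [e]
        exact Rat.num_div_eq_of_coprime (by exact_mod_cast h0) (by simpa using hc)
      · have := Rat.den_div_eq_of_coprime (a := (q.1 : ℤ)) (b := (q.2 : ℤ)) (by exact_mod_cast h0) (by simpa using hc)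
        rw [← e] at this
        exact_mod_cast this
    apply Set.ncard_le_ncard_of_injOn (f := fun q : ℕ × ℕ => ((q.1 : ℚ) / (q.2 : ℚ))) ?_ ?_ (finite_HBox_one H)
    · rintro ⟨a, b⟩ h
      simp only [Finset.coe_filter, Finset.mem_product, Finset.mem_Ioc, Set.mem_ofPred_eq] at h
      obtain ⟨h2, h3⟩ := key (a, b) h.1.2.1 h.2
      simp only at h2 h3
      simp only [Set.mem_ofPred_eq]
      rw [h2, h3]
      simp only [Int.natAbs_natCast]
      exact ⟨h.1.1.2, h.1.2.2⟩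
    · rintro ⟨a, b⟩ h ⟨a', b'⟩ h' heq
      simp only [Finset.coe_filter, Finset.mem_product, Finset.mem_Ioc, Set.mem_ofPred_eq] at h h'
      obtain ⟨h2, h3⟩ := key (a, b) h.1.2.1 h.2
      obtain ⟨h4, h5⟩ := key (a', b') h'.1.2.1 h'.2
      simp only at h2 h3 h4 h5 heq
      rw [← heq] at h4 h5
      rw [h2] at h4
      rw [h3] at h5
      rw [Prod.mk.injEq]
      exact ⟨by exact_mod_cast h4, h5⟩
  exact_mod_cast h1

theorem HBox_eq_pi (ι : Type) (H : ℕ) :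
    HBox ι H = Set.pi Set.univ (fun _ => {x : ℚ | x.num.natAbs ≤ H ∧ x.den ≤ H}) := by
  ext β
  simp [HBox]

theorem finite_HBox (ι : Type) [Finite ι] (H : ℕ) : (HBox ι H).Finite := by
  rw [HBox_eq_pi]
  exact Set.Finite.pi (fun _ => finite_HBox_one H)

theorem ncard_HBox (ι : Type) [Fintype ι] (H : ℕ) :
    (HBox ι H).ncard = {x : ℚ | x.num.natAbs ≤ H ∧ x.den ≤ H}.ncard ^ Fintype.card ι := by
  classical
  set T := (finite_HBox_one H).toFinset with hT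
  have h1 : HBox ι H = ((Fintype.piFinset (fun _ : ι => T) : Finset (ι → ℚ)) : Set (ι → ℚ)) := by
    ext β
    simp [HBox, hT]
  have h2 : {x : ℚ | x.num.natAbs ≤ H ∧ x.den ≤ H} = (T : Set ℚ) := by
    rw [hT, Set.Finite.coe_toFinset]
  rw [h1, Set.ncard_coe_finset, Fintype.card_piFinset, Finset.prod_const, Finset.card_univ, h2,
    Set.ncard_coe_finset]

open Classical in
/-- density zero for pairs implies density zero for rational numbers -/
theorem height_of_qbox {ι : Type} [Fintype ι] (Q : (ι → ℚ) → Prop)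
    (h : ∀ ε : ℝ, 0 < ε → ∃ H0 : ℕ, ∀ H : ℕ, H0 ≤ H →
      (((qbox ι H).filter (fun q => ¬ Q (fun i => ((q i).1 : ℚ) / ((q i).2 : ℚ)))).card : ℝ) ≤
        ε * (qbox ι H).card) :
    ∀ ε : ℝ, 0 < ε → ∃ H0 : ℕ, ∀ H : ℕ, H0 ≤ H →
      (({β | β ∈ HBox ι H ∧ ¬ Q β}.ncard : ℕ) : ℝ) ≤ ε * ((HBox ι H).ncard : ℝ) := by
  intro ε hε
  obtain ⟨H0, hH0⟩ := h (ε / 9 ^ Fintype.card ι) (by positivity)
  refine ⟨H0 + 1, fun H hH => ?_⟩
  have h1 := hH0 H (by omega)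
  have hHR : (1 : ℝ) ≤ H := by
    have : 1 ≤ H := by omega
    exact_mod_cast this
  have h2 : {β | β ∈ HBox ι H ∧ ¬ Q β}.ncard ≤
      ((qbox ι H).filter (fun q => ¬ Q (fun i => ((q i).1 : ℚ) / ((q i).2 : ℚ)))).card := by
    rw [← Set.ncard_coe_finset]
    apply Set.ncard_le_ncard_of_injOn (f := fun β : ι → ℚ => fun i => ((β i).num, ((β i).den : ℤ))) ?_ ?_
      (Finset.finite_toSet _)
    · rintro β ⟨hβ, hQ⟩
      simp only [Finset.coe_filter, Set.mem_ofPred_eq]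
      refine ⟨?_, ?_⟩
      · rw [qbox, Fintype.mem_piFinset]
        intro i
        have h3 := hβ i
        have h4 := (β i).den_pos
        rw [Finset.mem_product, Finset.mem_Icc, Finset.mem_Icc]
        simp only
        omega
      · have e : (fun i => (((β i).num : ℤ) : ℚ) / ((((β i).den : ℤ)) : ℚ)) = β := by
          funext i
          rw [Int.cast_natCast]
          exact Rat.num_div_den (β i)
        rw [e]
        exact hQ
    · intro β _ γ _ heq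
      funext i
      have h3 := congrFun heq i
      simp only [Prod.mk.injEq] at h3
      exact Rat.ext h3.1 (by exact_mod_cast h3.2)
  have h3 : ((qbox ι H).card : ℝ) ≤ 9 ^ Fintype.card ι * ((HBox ι H).ncard : ℝ) := by
    rw [card_qbox, ncard_HBox]
    push_cast
    rw [← mul_pow]
    apply pow_le_pow_left₀ (by positivity)
    have := ncard_HBox_one_ge H
    nlinarith
  calc (({β | β ∈ HBox ι H ∧ ¬ Q β}.ncard : ℕ) : ℝ)
      ≤ (((qbox ι H).filter (fun q => ¬ Q (fun i => ((q i).1 : ℚ) / ((q i).2 : ℚ)))).card : ℝ) := by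
        exact_mod_cast h2
    _ ≤ (ε / 9 ^ Fintype.card ι) * (qbox ι H).card := h1
    _ ≤ (ε / 9 ^ Fintype.card ι) * (9 ^ Fintype.card ι * ((HBox ι H).ncard : ℝ)) :=
        mul_le_mul_of_nonneg_left h3 (by positivity)
    _ = ε * ((HBox ι H).ncard : ℝ) := by field_simp

end Pool.Agent.ORB
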