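import Pool.Agent.ORB.OnePrimeK
import Pool.Agent.ORB.BadK

/-! ORB, Theorem IV: almost all targets for arbitrary polynomials, together with a family with a core. -/

namespace Pool.Agent.ORB

open NumberField IsDedekindDomain Polynomial

universe u

/-- a common denominator -/
theorem exists_commonK {K : Type*} [Field K] [NumberField K] {ι : Type*} [Fintype ι] (f : ι → K[X]) :
    ∃ (c : 𝓞 K) (g : ι → (𝓞 K)[X]), c ≠ 0 ∧
      ∀ i, (g i).map (algebraMap (𝓞 K) K) = C (algebraMap (𝓞 K) K c) * f i := by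
  classical
  have h1 : ∀ i, ∃ (b : 𝓞 K) (h : (𝓞 K)[X]), b ≠ 0 ∧
      h.map (algebraMap (𝓞 K) K) = C (algebraMap (𝓞 K) K b) * f i := by
    intro i
    obtain ⟨b, hbm, hb⟩ := IsLocalization.integerNormalization_spec (nonZeroDivisors (𝓞 K)) (f i)
    refine ⟨b, IsLocalization.integerNormalization (nonZeroDivisors (𝓞 K)) (f i),
      nonZeroDivisors.ne_zero hbm, ?_⟩
    rw [hb]
    ext n
    rw [coeff_smul, coeff_C_mul, Algebra.smul_def]
  choose b h hb hh using h1
  refine ⟨∏ i, b i, fun i => C (∏ j ∈ Finset.univ.erase i, b j) * h i,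
    Finset.prod_ne_zero_iff.2 (fun i _ => hb i), fun i => ?_⟩
  rw [Polynomial.map_mul, map_C, hh i, ← Finset.mul_prod_erase Finset.univ b (Finset.mem_univ i), map_mul,
    C_mul]
  ring

theorem finite_bad_primes {M : Type*} [Field M] [NumberField M] {Z : Set M} (hZ : Z.Finite)
    (h0 : ∀ z ∈ Z, z ≠ 0) : {p : ℕ | p.Prime ∧ ∃ v : HeightOneSpectrum (𝓞 M), (p : 𝓞 M) ∈ v.asIdeal ∧
      ∃ z ∈ Z, v.valuation M z ≠ 1}.Finite := by
  set BP : Set (HeightOneSpectrum (𝓞 M)) := ⋃ z ∈ Z, {P | P.valuation M z ≠ 1} with hBP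
  have hBPf : BP.Finite := Set.Finite.biUnion hZ fun z hz => finite_not_one (h0 z hz)
  have hinj : ∀ P : HeightOneSpectrum (𝓞 M), {p : ℕ | p.Prime ∧ (p : 𝓞 M) ∈ P.asIdeal}.Subsingleton :=
    fun P p hp q hq => prime_unique M hp.1 hq.1 hp.2 hq.2
  refine (Set.Finite.biUnion hBPf fun P _ => (hinj P).finite).subset ?_
  rintro p ⟨hp, P, hpP, z, hz, hP⟩
  exact Set.mem_iUnion₂.2 ⟨P, Set.mem_iUnion₂.2 ⟨z, hz, hP⟩, hp, hpP⟩

/-- the family of the sets `A` has a core: polynomials `F_j` whose roots are moved by some automorphism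
over every number field, and which have a root modulo almost all `v` outside `A` -/
def Core {K : Type u} [Field K] [NumberField K] (𝒜 : Set (Set (HeightOneSpectrum (𝓞 K)))) : Prop :=
  ∀ (K3 : Type u) [Field K3] [NumberField K3] [Algebra K K3], ∃ (J : Type) (_ : Finite J) (F : J → K[X]),
    (∀ j, F j ≠ 0) ∧ (∀ A ∈ 𝒜, {v | v ∉ A ∧ ∀ j, ¬ HasRoot v (F j)}.Finite) ∧
    ∀ (L : Type u) [Field L] [NumberField L] [Algebra K3 L] [Algebra K L] [IsScalarTower K K3 L]
      [IsGalois ℚ L], ∃ σ : L ≃ₐ[K3] L, ∀ j (r : L), aeval r (F j) = 0 → σ r ≠ r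

/-- places of degree one over infinitely many primes -/
theorem exists_places {K : Type u} [Field K] [NumberField K] {𝒜 : Set (Set (HeightOneSpectrum (𝓞 K)))}
    (hcore : Core 𝒜) {ι : Type} [Fintype ι] (g : ι → (𝓞 K)[X]) (hg : ∀ i, 2 ≤ (g i).natDegree) (c : 𝓞 K)
    (hc : c ≠ 0) : ∃ (J : Type) (_ : Finite J) (F : J → K[X]), (∀ j, F j ≠ 0) ∧
      (∀ A ∈ 𝒜, {v | v ∉ A ∧ ∀ j, ¬ HasRoot v (F j)}.Finite) ∧
      {p : ℕ | p.Prime ∧ ∃ (φ : 𝓞 K →+* ZMod p) (w : HeightOneSpectrum (𝓞 K)), RingHom.ker φ = w.asIdeal ∧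
        φ c ≠ 0 ∧ (∀ i, φ (g i).leadingCoeff ≠ 0) ∧
        (∀ i, ¬ Function.Injective (fun x : ZMod p => ((g i).map φ).eval x)) ∧
        (∀ j n, w.valuation K ((F j).coeff n) ≤ 1) ∧ (∀ j, w.valuation K (F j).leadingCoeff = 1) ∧
        ∀ j, ¬ HasRoot w (F j)}.Infinite := by
  classical
  choose x0 H hH hd hx using fun i => exists_quotR (g i) (hg i)
  have hH0 : ∀ i, H i ≠ 0 := by
    intro i h0
    have := hd i
    rw [h0] at this
    simp at this
  have hinjK : Function.Injective (algebraMap (𝓞 K) K) := FaithfulSMul.algebraMap_injective (𝓞 K) K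
  obtain ⟨K3, _, _, _, hK3⟩ := exists_splitting (fun i => (H i).map (algebraMap (𝓞 K) K))
    (fun i => (Polynomial.map_ne_zero_iff hinjK).2 (hH0 i))
  -- roots of the `H i`
  have hθ : ∀ i, ∃ θ : K3, aeval θ ((H i).map (algebraMap (𝓞 K) (𝓞 K3))) = 0 := by
    intro i
    have hdeg : (((H i).map (algebraMap (𝓞 K) K)).map (algebraMap K K3)).degree ≠ 0 := by
      rw [Polynomial.degree_map, Polynomial.degree_map_eq_of_injective hinjK]
      have := hd i
      intro h0
      have := natDegree_eq_zero_iff_degree_le_zero.2 h0.le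
      omega
    obtain ⟨θ, hθ⟩ := (hK3 i).exists_eval_eq_zero hdeg
    refine ⟨θ, ?_⟩
    rw [Polynomial.map_map] at hθ
    rw [aeval_def, ← eval_map, Polynomial.map_map]
    have he : (algebraMap (𝓞 K3) K3).comp (algebraMap (𝓞 K) (𝓞 K3)) =
        (algebraMap K K3).comp (algebraMap (𝓞 K) K) := by
      rw [← IsScalarTower.algebraMap_eq, ← IsScalarTower.algebraMap_eq]
    rw [he]
    exact hθ
  choose θ hθ using hθ
  obtain ⟨J, hJ, F, hF0, hFA, hFL⟩ := hcore K3
  refine ⟨J, hJ, F, hF0, hFA, ?_⟩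
  have := Fintype.ofFinite J
  obtain ⟨L, _, _, _, hLg, hLs⟩ := exists_closure (fun j => (F j).map (algebraMap K K3))
    (fun j => Polynomial.map_ne_zero (hF0 j))
  let alg : Algebra K L := ((algebraMap K3 L).comp (algebraMap K K3)).toAlgebra
  have hst : IsScalarTower K K3 L := IsScalarTower.of_algebraMap_eq (fun _ => rfl)
  obtain ⟨σ, hσ⟩ := hFL L
  set σ' : L ≃ₐ[ℚ] L := σ.restrictScalars ℚ with hσ'
  obtain ⟨B, hB, hrp⟩ := rootless_prime (K := K3) (L := L) σ' (fun x => σ.commutes x)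
    (fun j => (F j).map (algebraMap K K3)) (fun j => Polynomial.map_ne_zero (hF0 j)) hLs
    (fun j r hr => hσ j r (by rwa [aeval_map_algebraMap] at hr))
  -- the finitely many bad primes
  set Z : Set K3 := ((({algebraMap (𝓞 K) K3 c} ∪ (⋃ i, {algebraMap (𝓞 K) K3 (g i).leadingCoeff})) ∪
    (⋃ i, {algebraMap (𝓞 K) K3 (H i).leadingCoeff})) ∪ (⋃ i, {algebraMap (𝓞 K) K3 ((H i).eval (x0 i))})) ∪
    {z | z ≠ 0 ∧ ∃ j, ∃ n ∈ Finset.range ((F j).natDegree + 1), z = algebraMap K K3 ((F j).coeff n)} with hZ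
  have hZf : Z.Finite := by
    refine ((((Set.finite_singleton _).union (Set.finite_iUnion fun i => Set.finite_singleton _)).union
      (Set.finite_iUnion fun i => Set.finite_singleton _)).union
      (Set.finite_iUnion fun i => Set.finite_singleton _)).union ?_
    have h1 : (⋃ j : J, ⋃ n ∈ Finset.range ((F j).natDegree + 1),
        {z : K3 | z = algebraMap K K3 ((F j).coeff n)}).Finite :=
      Set.finite_iUnion fun j => Set.Finite.biUnion (Finset.finite_toSet _) fun n _ => Set.finite_singleton _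
    refine h1.subset ?_
    rintro z ⟨-, j, n, hn, hz⟩
    exact Set.mem_iUnion.2 ⟨j, Set.mem_iUnion₂.2 ⟨n, hn, hz⟩⟩
  have hinj3 : Function.Injective (algebraMap (𝓞 K) K3) := by
    rw [IsScalarTower.algebraMap_eq (𝓞 K) K K3]
    exact (algebraMap K K3).injective.comp hinjK
  have hne3 : ∀ y : 𝓞 K, y ≠ 0 → algebraMap (𝓞 K) K3 y ≠ 0 := by
    intro y hy h0
    exact hy ((map_eq_zero_iff _ hinj3).1 h0)
  have hg0 : ∀ i, g i ≠ 0 := by
    intro i h0
    have := hg i
    rw [h0] at this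
    simp at this
  have hZ0 : ∀ z ∈ Z, z ≠ 0 := by
    rintro z ((((h | h) | h) | h) | h)
    · rw [Set.mem_singleton_iff] at h
      rw [h]; exact hne3 _ hc
    · obtain ⟨i, h⟩ := Set.mem_iUnion.1 h
      rw [Set.mem_singleton_iff] at h
      rw [h]; exact hne3 _ (leadingCoeff_ne_zero.2 (hg0 i))
    · obtain ⟨i, h⟩ := Set.mem_iUnion.1 h
      rw [Set.mem_singleton_iff] at h
      rw [h]; exact hne3 _ (leadingCoeff_ne_zero.2 (hH0 i))
    · obtain ⟨i, h⟩ := Set.mem_iUnion.1 h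
      rw [Set.mem_singleton_iff] at h
      rw [h]; exact hne3 _ (hx i)
    · exact h.1
  have hbad := finite_bad_primes hZf hZ0
  have hmany := frob_density (L := L) σ'
  apply Set.infinite_of_forall_exists_gt
  intro a
  obtain ⟨M, hM⟩ := (hB.union hbad).bddAbove
  obtain ⟨p, ⟨hp, P, hP, hpP, τ, hτ, hfr⟩, hpgt⟩ := hmany.exists_gt (a + M)
  have hpB : p ∉ B := by
    intro h
    have := hM (Or.inl h)
    omega
  have hpZ : ∀ v : HeightOneSpectrum (𝓞 K3), (p : 𝓞 K3) ∈ v.asIdeal → ∀ z ∈ Z, v.valuation K3 z = 1 := by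
    intro v hv z hz
    by_contra hne
    have := hM (Or.inr ⟨hp, v, hv, z, hz, hne⟩)
    omega
  obtain ⟨v3, hv3n, hv3r⟩ := hrp p hp hpB P hP hpP τ hτ hfr
  have hpv3 : (p : 𝓞 K3) ∈ v3.asIdeal := by
    have := Ideal.absNorm_mem v3.asIdeal
    rwa [hv3n] at this
  obtain ⟨φ3, hφ3⟩ := exists_resHom hp v3 hv3n
  have hFact : Fact p.Prime := ⟨hp⟩
  let w : HeightOneSpectrum (𝓞 K) := v3.under (𝓞 K)
  have hlo : v3.asIdeal.LiesOver w.asIdeal := ⟨rfl⟩
  set φ : 𝓞 K →+* ZMod p := φ3.comp (algebraMap (𝓞 K) (𝓞 K3)) with hφ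
  have hker : RingHom.ker φ = w.asIdeal := by
    rw [hφ, ← RingHom.comap_ker, hφ3]
    rfl
  have hunit : ∀ y : 𝓞 K, algebraMap (𝓞 K) K3 y ∈ Z → φ y ≠ 0 := by
    intro y hy h0
    have h1 : y ∈ RingHom.ker φ := h0
    rw [hker] at h1
    have h2 := (HeightOneSpectrum.valuation_lt_one_iff_mem (K := K) w y).2 h1
    have h3 := hpZ v3 hpv3 _ hy
    rw [IsScalarTower.algebraMap_apply (𝓞 K) K K3, val_eq_iff w v3] at h3
    exact absurd h3 h2.ne
  refine ⟨p, ⟨hp, φ, w, hker, ?_, ?_, ?_, ?_, ?_, ?_⟩, by omega⟩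
  · exact hunit c (Or.inl (Or.inl (Or.inl (Or.inl rfl))))
  · intro i
    exact hunit _ (Or.inl (Or.inl (Or.inl (Or.inr (Set.mem_iUnion.2 ⟨i, rfl⟩)))))
  · intro i
    have h1 : φ (H i).leadingCoeff ≠ 0 := hunit _ (Or.inl (Or.inl (Or.inr (Set.mem_iUnion.2 ⟨i, rfl⟩))))
    have h2 : φ ((H i).eval (x0 i)) ≠ 0 := hunit _ (Or.inl (Or.inr (Set.mem_iUnion.2 ⟨i, rfl⟩)))
    have hinj13 : Function.Injective (algebraMap (𝓞 K) (𝓞 K3)) := FaithfulSMul.algebraMap_injective _ _
    obtain ⟨u, hu⟩ := root_hom (Fr := K3) φ3 ((H i).map (algebraMap (𝓞 K) (𝓞 K3)))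
      (by rw [natDegree_map_eq_of_injective hinj13]; exact hd i)
      (by rw [leadingCoeff_map_of_injective hinj13]; exact h1) (hθ i)
    rw [Polynomial.map_map] at hu
    exact noninj_of_root φ (hH i) h2 hu
  · intro j n
    by_cases h0 : (F j).coeff n = 0
    · rw [h0, map_zero]; exact zero_le_one
    · have h1 : algebraMap K K3 ((F j).coeff n) ∈ Z := by
        refine Or.inr ⟨fun h => h0 ((map_eq_zero_iff _ (algebraMap K K3).injective).1 h), j, n, ?_, rfl⟩
        rw [Finset.mem_range, Nat.lt_succ_iff]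
        by_contra hj
        push Not at hj
        exact h0 (coeff_eq_zero_of_natDegree_lt hj)
      have h2 := hpZ v3 hpv3 _ h1
      rw [val_eq_iff w v3] at h2
      exact h2.le
  · intro j
    have h1 : algebraMap K K3 (F j).leadingCoeff ∈ Z := by
      refine Or.inr ⟨fun h => (leadingCoeff_ne_zero.2 (hF0 j))
        ((map_eq_zero_iff _ (algebraMap K K3).injective).1 h), j, (F j).natDegree, ?_, rfl⟩
      rw [Finset.mem_range]; omega
    have h2 := hpZ v3 hpv3 _ h1
    rw [val_eq_iff w v3] at h2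
    exact h2
  · rintro j ⟨x, hx1, hx2⟩
    apply hv3r j
    refine ⟨algebraMap K K3 x, (val_le_iff w v3 x).2 hx1, ?_⟩
    rw [eval_map_algebraMap, aeval_algebraMap_apply_eq_algebraMap_eval]
    exact (val_lt_iff w v3 _).2 hx2

/-- the target `β` is good -/
def GoodT {K : Type u} [Field K] [NumberField K] (𝒜 : Set (Set (HeightOneSpectrum (𝓞 K)))) {ι : Type}
    (f : ι → K[X]) (β : ι → K) : Prop :=
  ∀ A ∈ 𝒜, ∀ α : ι → OnePoint K, (∀ i n, (act (f i))^[n] (α i) ≠ (β i : OnePoint K)) →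
    PosDensity (A ∩ AvoidSet f α (fun i => (β i : OnePoint K)))

/-- the quotient of a vector -/
noncomputable def quotK {K : Type u} [Field K] [NumberField K] {ι : Type} (q : KIdx ι K → ℤ) (i : ι) : K :=
  algebraMap (𝓞 K) K (numK q i) / algebraMap (𝓞 K) K (denK q i)

open Classical in
/-- Theorem IV, for pairs of algebraic integers in a box -/
theorem thmIV_box {K : Type u} [Field K] [NumberField K] {𝒜 : Set (Set (HeightOneSpectrum (𝓞 K)))}
    (hcore : Core 𝒜) {ι : Type} [Fintype ι] (f : ι → K[X]) (hf : ∀ i, 2 ≤ (f i).natDegree) :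
    ∀ ε : ℝ, 0 < ε → ∃ H0 : ℕ, ∀ H : ℕ, H0 ≤ H →
      (((zbox (KIdx ι K) H).filter (fun q => ¬ GoodT 𝒜 f (quotK q))).card : ℝ) ≤
        ε * (zbox (KIdx ι K) H).card := by
  obtain ⟨c, g, hc, hg⟩ := exists_commonK f
  have hinjK : Function.Injective (algebraMap (𝓞 K) K) := FaithfulSMul.algebraMap_injective (𝓞 K) K
  have hcK : algebraMap (𝓞 K) K c ≠ 0 := fun h => hc ((map_eq_zero_iff _ hinjK).1 h)
  have hdeg : ∀ i, (g i).natDegree = (f i).natDegree := by
    intro i
    rw [← natDegree_map_eq_of_injective hinjK (g i), hg i, natDegree_C_mul hcK]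
  have hg2 : ∀ i, 2 ≤ (g i).natDegree := fun i => (hdeg i).symm ▸ hf i
  obtain ⟨J, hJ, F, hF0, hFA, hinf⟩ := exists_places hcore g hg2 c hc
  set S := {p : ℕ | p.Prime ∧ ∃ (φ : 𝓞 K →+* ZMod p) (w : HeightOneSpectrum (𝓞 K)), RingHom.ker φ = w.asIdeal ∧
        φ c ≠ 0 ∧ (∀ i, φ (g i).leadingCoeff ≠ 0) ∧
        (∀ i, ¬ Function.Injective (fun x : ZMod p => ((g i).map φ).eval x)) ∧
        (∀ j n, w.valuation K ((F j).coeff n) ≤ 1) ∧ (∀ j, w.valuation K (F j).leadingCoeff = 1) ∧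
        ∀ j, ¬ HasRoot w (F j)} with hS
  let Bad : ∀ p : ℕ, Finset (KIdx ι K → ZMod p) := fun p =>
    if h : p ∈ S then haveI := Fact.mk h.1
      Finset.univ.filter (fun q => PBad (fun i => (g i).map h.2.choose) (h.2.choose c) (redK h.2.choose ι q))
    else ∅
  refine count_main S hinf (fun p hp => hp.1) (dshare (fun i => (g i).natDegree))
    (dshare_pos _ (fun i => le_trans one_le_two (hg2 i))) (dshare_le_one _ (fun i => le_trans one_le_two (hg2 i)))
    Bad ?_ _ ?_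
  · intro p hp
    have hF := Fact.mk hp.1
    obtain ⟨w, hker, hφc, hφl, hφn, h1, h2, h3⟩ := hp.2.choose_spec
    have h5 : Bad p = Finset.univ.filter (fun q => PBad (fun i => (g i).map hp.2.choose) (hp.2.choose c)
        (redK hp.2.choose ι q)) := by
      show (if h : p ∈ S then _ else _) = _
      rw [dif_pos hp]
    rw [h5]
    exact card_kbad_le hp.2.choose (fun i => (g i).natDegree) (fun i => le_trans one_le_two (hg2 i)) _
      (fun i => natDegree_map_le) _ hφc hφn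
  · intro p hp q hq A hA α hα
    have hF := Fact.mk hp.1
    obtain ⟨w, hker, hφc, hφl, hφn, h1, h2, h3⟩ := hp.2.choose_spec
    set φ := hp.2.choose with hφ
    have h5 : Bad p = Finset.univ.filter (fun q => PBad (fun i => (g i).map φ) (φ c)
        (redK φ ι q)) := by
      show (if h : p ∈ S then _ else _) = _
      rw [dif_pos hp]
    rw [h5, Finset.mem_filter, not_and] at hq
    have h6 := hq (Finset.mem_univ _)
    unfold PBad at h6
    rw [not_not] at h6
    have h7 : ∀ i, φ (denK q i) ≠ 0 ∧ ∀ x, φ (denK q i) * ((g i).map φ).eval x ≠ φ c * φ (numK q i) := by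
      intro i
      have h8 := h6 i
      rw [redK_zres] at h8
      exact h8
    have hval1 : ∀ y : 𝓞 K, φ y ≠ 0 → w.valuation K (algebraMap (𝓞 K) K y) = 1 := by
      intro y hy
      rw [HeightOneSpectrum.valuation_eq_one_iff_notMem]
      intro h
      rw [← hker] at h
      exact hy h
    have hvc := hval1 c hφc
    have hcoef : ∀ i n, w.valuation K ((f i).coeff n) = w.valuation K (algebraMap (𝓞 K) K ((g i).coeff n)) := by
      intro i n
      have h8 := congrArg (fun q => Polynomial.coeff q n) (hg i)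
      simp only [coeff_map, coeff_C_mul] at h8
      rw [h8, map_mul, hvc, one_mul]
    refine posDensity_of_place w F hF0 h1 h2 h3 f hf (quotK q) ?_ ?_ ?_ ?_ A (hFA A hA) α (fun i => hα i 0)
    · intro i n
      rw [hcoef]
      exact w.valuation_le_one _
    · intro i
      rw [leadingCoeff, hcoef, ← hdeg i]
      exact hval1 _ (hφl i)
    · intro i
      show w.valuation K (algebraMap (𝓞 K) K (numK q i) / algebraMap (𝓞 K) K (denK q i)) ≤ 1
      rw [map_div₀, hval1 _ (h7 i).1, div_one]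
      exact w.valuation_le_one _
    · intro i
      exact no_rootK w φ hker (f i) (g i) c (hg i) _ _ (h7 i).1 (h7 i).2

end Pool.Agent.ORB
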