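import Pool.Agent.ORB.HeightN
import Pool.Agent.ORB.ThmIV

/-! ORB, Theorem IV: from boxes to heights. -/

namespace Pool.Agent.ORB

open NumberField Module

universe u

/-- tuples of elements of height at most `X` -/
def HtBox (ι : Type) (K : Type u) [Field K] [NumberField K] (X : ℝ) : Set (ι → K) :=
  {β | ∀ i, Height.mulHeight₁ (β i) ≤ X}

variable {K : Type u} [Field K] [NumberField K]

open Classical in
theorem htBox_eq (ι : Type) [Fintype ι] (X : ℝ) : HtBox ι K X =
    (Fintype.piFinset (fun _ : ι => (finite_hset (K := K) X).toFinset) : Finset (ι → K)) := by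
  ext β
  simp [HtBox, hset]

theorem finite_htBox (ι : Type) [Fintype ι] (X : ℝ) : (HtBox ι K X).Finite := by
  classical
  rw [htBox_eq]
  exact Finset.finite_toSet _

theorem ncard_htBox (ι : Type) [Fintype ι] (X : ℝ) :
    (HtBox ι K X).ncard = (hset K X).ncard ^ Fintype.card ι := by
  classical
  rw [htBox_eq, Set.ncard_coe_finset, Fintype.card_piFinset, Finset.prod_const, Finset.card_univ,
    Set.ncard_eq_toFinset_card _ (finite_hset X)]

open Classical in
/-- density zero in boxes implies density zero by height -/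
theorem height_of_zbox {ι : Type} [Fintype ι] (Q : (ι → K) → Prop)
    (h : ∀ ε : ℝ, 0 < ε → ∃ H0 : ℕ, ∀ H : ℕ, H0 ≤ H →
      (((zbox (KIdx ι K) H).filter (fun q => ¬ Q (quotK q))).card : ℝ) ≤ ε * (zbox (KIdx ι K) H).card) :
    Filter.Tendsto (fun X : ℝ => ({β | β ∈ HtBox ι K X ∧ ¬ Q β}.ncard : ℝ) / ((HtBox ι K X).ncard : ℝ))
      Filter.atTop (nhds 0) := by
  obtain ⟨C, hC, hpair⟩ := exists_pair K
  obtain ⟨c, hc, X0, hX01, hlow⟩ := ncard_hset_ge K
  set n := finrank ℚ K with hn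
  have hn0 : 0 < n := finrank_pos
  set m := Fintype.card ι with hm
  set A : ℝ := ((3 * C) ^ (2 * n) / c) ^ m with hA
  have hA0 : 0 < A := by rw [hA]; positivity
  rw [Metric.tendsto_atTop]
  intro ε hε
  obtain ⟨H0, hH0⟩ := h (ε / (2 * A)) (by positivity)
  refine ⟨max (max X0 1) (((H0 : ℝ) + 1) ^ n), fun X hX => ?_⟩
  have hX0 : X0 ≤ X := (le_max_left _ _).trans ((le_max_left _ _).trans hX)
  have hX1 : 1 ≤ X := (le_max_right _ _).trans ((le_max_left _ _).trans hX)
  have hXH : ((H0 : ℝ) + 1) ^ n ≤ X := (le_max_right _ _).trans hX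
  set T : ℝ := X ^ ((1 : ℝ) / n) with hT
  have hT1 : 1 ≤ T := Real.one_le_rpow hX1 (by positivity)
  have hTn : T ^ n = X := by
    rw [hT, ← Real.rpow_natCast, ← Real.rpow_mul (by linarith), one_div,
      inv_mul_cancel₀ (by exact_mod_cast hn0.ne'), Real.rpow_one]
  have hTH : (H0 : ℝ) + 1 ≤ T := by
    rw [← hTn] at hXH
    exact le_of_pow_le_pow_left₀ hn0.ne' (by linarith) hXH
  set H := ⌊C * T⌋₊ with hH
  have hHle : (H : ℝ) ≤ C * T := Nat.floor_le (by positivity)
  have hH0H : H0 ≤ H := by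
    apply Nat.le_floor
    nlinarith
  have h1 := hH0 H hH0H
  -- representations
  have hrep : ∀ β : ι → K, ∃ q : KIdx ι K → ℤ, β ∈ HtBox ι K X → q ∈ zbox (KIdx ι K) H ∧ quotK q = β := by
    intro β
    by_cases hβ : β ∈ HtBox ι K X
    · have h2 : ∀ i, ∃ q : Bool × Idx K → ℤ, pb q ≠ 0 ∧ β i = (pa q : K) / (pb q : K) ∧
          (∀ k, |(q k : ℝ)| ≤ C * T) := by
        intro i
        obtain ⟨q, hq1, hq2, hq3, -⟩ := hpair (β i) T (by linarith) (by rw [hTn]; exact hβ i)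
        exact ⟨q, hq1, hq2, hq3⟩
      choose q hq1 hq2 hq3 using h2
      refine ⟨fun k => q k.1 k.2, fun _ => ⟨?_, ?_⟩⟩
      · rw [mem_zbox]
        rintro ⟨i, k⟩
        have h1 := hq3 i k
        have h2 : ((|q i k|).toNat : ℝ) ≤ C * T := by
          have : (((|q i k|).toNat : ℤ) : ℝ) = |(q i k : ℝ)| := by
            rw [Int.toNat_of_nonneg (abs_nonneg _)]; push_cast; rfl
          calc ((|q i k|).toNat : ℝ) = (((|q i k|).toNat : ℤ) : ℝ) := by push_cast; rfl
            _ = |(q i k : ℝ)| := this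
            _ ≤ C * T := h1
        have h3 := Nat.le_floor h2
        have h4 : ((|q i k|).toNat : ℤ) = |q i k| := Int.toNat_of_nonneg (abs_nonneg _)
        show |q i k| ≤ (H : ℤ)
        rw [← h4]
        exact_mod_cast h3
      · funext i
        exact (hq2 i).symm
    · exact ⟨0, fun hh => absurd hh hβ⟩
  choose q hq using hrep
  have h2 : {β | β ∈ HtBox ι K X ∧ ¬ Q β}.ncard ≤
      ((zbox (KIdx ι K) H).filter (fun q => ¬ Q (quotK q))).card := by
    rw [← Set.ncard_coe_finset]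
    refine Set.ncard_le_ncard_of_injOn q ?_ ?_ (Finset.finite_toSet _)
    · rintro β ⟨hβ, hQ⟩
      rw [Finset.mem_coe, Finset.mem_filter]
      refine ⟨(hq β hβ).1, ?_⟩
      rw [(hq β hβ).2]
      exact hQ
    · rintro β ⟨hβ, -⟩ γ ⟨hγ, -⟩ he
      rw [← (hq β hβ).2, ← (hq γ hγ).2, he]
  have hcard : ((zbox (KIdx ι K) H).card : ℝ) ≤ ((3 * C) ^ (2 * n) * X ^ 2) ^ m := by
    rw [card_zbox, Fintype.card_prod, Fintype.card_prod, Fintype.card_bool]
    have h3 : Fintype.card (Idx K) = n := deg_eq_finrank K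
    rw [h3]
    push_cast
    calc (2 * H + 1 : ℝ) ^ (Fintype.card ι * (2 * n)) ≤ (3 * C * T) ^ (Fintype.card ι * (2 * n)) := by
          apply pow_le_pow_left₀ (by positivity)
          nlinarith
      _ = ((3 * C) ^ (2 * n) * X ^ 2) ^ m := by
          rw [← hm, mul_comm m, pow_mul, mul_pow (3 * C) T (2 * n), mul_comm 2 n, pow_mul T, hTn]
  have hlowm : (c * X ^ 2) ^ m ≤ ((HtBox ι K X).ncard : ℝ) := by
    rw [ncard_htBox]
    push_cast
    exact pow_le_pow_left₀ (by positivity) (hlow X hX0) _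
  have hpos : 0 < (c * X ^ 2) ^ m := by positivity
  have hmain : (({β | β ∈ HtBox ι K X ∧ ¬ Q β}.ncard : ℕ) : ℝ) ≤ (ε / 2) * ((HtBox ι K X).ncard : ℝ) := by
    calc (({β | β ∈ HtBox ι K X ∧ ¬ Q β}.ncard : ℕ) : ℝ)
        ≤ (((zbox (KIdx ι K) H).filter (fun q => ¬ Q (quotK q))).card : ℝ) := by exact_mod_cast h2
      _ ≤ ε / (2 * A) * (zbox (KIdx ι K) H).card := h1
      _ ≤ ε / (2 * A) * ((3 * C) ^ (2 * n) * X ^ 2) ^ m := mul_le_mul_of_nonneg_left hcard (by positivity)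
      _ = ε / (2 * A) * (A * (c * X ^ 2) ^ m) := by
          congr 1
          rw [hA, ← mul_pow]
          congr 1
          field_simp
      _ = (ε / 2) * (c * X ^ 2) ^ m := by field_simp
      _ ≤ (ε / 2) * ((HtBox ι K X).ncard : ℝ) := mul_le_mul_of_nonneg_left hlowm (by positivity)
  rw [Real.dist_eq, sub_zero, abs_of_nonneg (by positivity)]
  have hB : 0 < ((HtBox ι K X).ncard : ℝ) := lt_of_lt_of_le hpos hlowm
  rw [div_lt_iff₀ hB]
  nlinarith

/-- Theorem IV, by height -/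
theorem thmIV {𝒜 : Set (Set (IsDedekindDomain.HeightOneSpectrum (𝓞 K)))} (hcore : Core 𝒜) {ι : Type} [Fintype ι]
    (f : ι → Polynomial K) (hf : ∀ i, 2 ≤ (f i).natDegree) :
    Filter.Tendsto (fun X : ℝ => ({β | β ∈ HtBox ι K X ∧ ¬ GoodT 𝒜 f β}.ncard : ℝ) /
      ((HtBox ι K X).ncard : ℝ)) Filter.atTop (nhds 0) :=
  height_of_zbox (GoodT 𝒜 f) (thmIV_box hcore f hf)

end Pool.Agent.ORB
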