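import Pool.Agent.ORB.Emb

/-! ORB, Theorem IV: elements of bounded height are quotients of small algebraic integers. -/

namespace Pool.Agent.ORB

open NumberField Module NumberField.mixedEmbedding

variable {K : Type*} [Field K] [NumberField K]

theorem iSup_fin_two (f : Fin 2 → ℝ) : ⨆ i, f i = max (f 0) (f 1) := by
  apply le_antisymm
  · apply ciSup_le
    intro i
    fin_cases i
    · exact le_max_left _ _
    · exact le_max_right _ _
  · exact max_le (le_ciSup (Set.finite_range f).bddAbove 0) (le_ciSup (Set.finite_range f).bddAbove 1)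

theorem mulHeight_div (a0 b0 : 𝓞 K) (hb : b0 ≠ 0) :
    Height.mulHeight₁ ((a0 : K) / (b0 : K)) * (Ideal.absNorm (Ideal.span {a0, b0}) : ℝ) =
      ∏ w : InfinitePlace K, (max (w (a0 : K)) (w (b0 : K))) ^ w.mult := by
  have hx : (![a0, b0] : Fin 2 → 𝓞 K) ≠ 0 := by
    intro h
    have := congrFun h 1
    exact hb this
  have hxK : (![(a0 : K), (b0 : K)] : Fin 2 → K) ≠ 0 := by
    intro h
    have h1 := congrFun h 1
    have h2 : (b0 : K) = 0 := h1
    exact hb (RingOfIntegers.coe_eq_zero_iff.1 h2)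
  have h1 := absNorm_mul_finprod_finitePlace_eq_one (K := K) hx
  have h2 : Set.range (![a0, b0] : Fin 2 → 𝓞 K) = {a0, b0} := by
    rw [Matrix.range_cons, Matrix.range_cons, Matrix.range_empty, Set.union_empty]
    rfl
  rw [h2] at h1
  rw [Height.mulHeight₁_div_eq_mulHeight, NumberField.mulHeight_eq hxK]
  have h3 : ∀ v : FinitePlace K, ⨆ i, v (![(a0 : K), (b0 : K)] i) = ⨆ i, v ((![a0, b0] i : 𝓞 K) : K) := by
    intro v
    congr 1
    funext i
    fin_cases i <;> rfl
  simp only [h3]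
  rw [mul_assoc, mul_comm (∏ᶠ v : FinitePlace K, _), h1, mul_one]
  refine Finset.prod_congr rfl (fun w _ => ?_)
  congr 1
  exact iSup_fin_two _

theorem one_le_mulHeight₁' (β : K) : 1 ≤ Height.mulHeight₁ β := Height.one_le_mulHeight₁ β

theorem finrank_pos' : 0 < finrank ℚ K := finrank_pos

open nonZeroDivisors in
/-- an element of height `≤ T^n` is a quotient of algebraic integers with conjugates of size `≤ C T` -/
theorem exists_small_rep (K : Type*) [Field K] [NumberField K] : ∃ C : ℝ, 1 ≤ C ∧ ∀ (β : K) (T : ℝ), 0 < T →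
    Height.mulHeight₁ β ≤ T ^ (finrank ℚ K) → ∃ (a b : 𝓞 K), b ≠ 0 ∧ β = (a : K) / (b : K) ∧
      ∀ σ : K →+* ℂ, ‖σ (a : K)‖ ≤ C * T ∧ ‖σ (b : K)‖ ≤ C * T := by
  classical
  set V0 : ENNReal := MeasureTheory.volume (ZSpan.fundamentalDomain (latticeBasis K)) *
    (2 : ENNReal) ^ (finrank ℝ (mixedSpace K)) with hV0
  have hV0top : V0 ≠ ⊤ := by
    refine (ENNReal.mul_lt_top (ZSpan.fundamentalDomain_isBounded _).measure_lt_top
      (ENNReal.pow_lt_top ENNReal.ofNat_lt_top)).ne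
  set C : ℝ := V0.toReal + 1 with hC
  have hC1 : 1 ≤ C := by rw [hC]; linarith [ENNReal.toReal_nonneg (a := V0)]
  refine ⟨C, hC1, ?_⟩
  intro β T hT hβ
  obtain ⟨a0, b0, hb0, hβab⟩ := IsFractionRing.div_surjective (A := 𝓞 K) β
  have hb0' : b0 ≠ 0 := nonZeroDivisors.ne_zero hb0
  set J : Ideal (𝓞 K) := Ideal.span {a0, b0} with hJ
  have hJ0 : J ≠ ⊥ := by
    intro h
    have : b0 ∈ J := Ideal.subset_span (by simp)
    rw [h, Ideal.mem_bot] at this
    exact hb0' this
  have hJF : (J : FractionalIdeal (𝓞 K)⁰ K) ≠ 0 := FractionalIdeal.coeIdeal_ne_zero.2 hJ0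
  set I : (FractionalIdeal (𝓞 K)⁰ K)ˣ := (Units.mk0 (J : FractionalIdeal (𝓞 K)⁰ K) hJF)⁻¹ with hI
  set N : ℝ := (Ideal.absNorm J : ℝ) with hN
  have hN0 : 0 < N := by
    have : Ideal.absNorm J ≠ 0 := by
      rw [Ne, Ideal.absNorm_eq_zero_iff]; exact hJ0
    rw [hN]; exact_mod_cast Nat.pos_of_ne_zero this
  have hIN : ((FractionalIdeal.absNorm (I : FractionalIdeal (𝓞 K)⁰ K) : ℚ) : ℝ) = N⁻¹ := by
    rw [hI, Units.val_inv_eq_inv_val, Units.val_mk0, map_inv₀, FractionalIdeal.coeIdeal_absNorm, hN]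
    push_cast
    rfl
  have hMpos : ∀ w : InfinitePlace K, 0 < max (w (a0 : K)) (w (b0 : K)) := by
    intro w
    refine lt_max_of_lt_right (w.pos_iff.2 ?_)
    intro h
    exact hb0' (RingOfIntegers.coe_eq_zero_iff.1 h)
  let f : InfinitePlace K → NNReal := fun w => ⟨C * T / max (w (a0 : K)) (w (b0 : K)), by
    have := hMpos w; positivity⟩
  have hfw : ∀ w, (f w : ℝ) = C * T / max (w (a0 : K)) (w (b0 : K)) := fun w => rfl
  have hprod : (∏ w, (f w : ℝ) ^ w.mult) ≥ C ^ finrank ℚ K * N⁻¹ := by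
    simp only [hfw, div_pow]
    rw [Finset.prod_div_distrib, Finset.prod_pow_eq_pow_sum, InfinitePlace.sum_mult_eq, ← mulHeight_div a0 b0 hb0',
      mul_pow, ge_iff_le, le_div_iff₀ (by
        have := Height.mulHeight₁_pos ((a0 : K) / (b0 : K))
        positivity)]
    have h1 : Height.mulHeight₁ ((a0 : K) / (b0 : K)) ≤ T ^ finrank ℚ K := by
      have : (a0 : K) / (b0 : K) = β := hβab
      rw [this]; exact hβ
    calc C ^ finrank ℚ K * N⁻¹ * (Height.mulHeight₁ ((a0 : K) / (b0 : K)) * N)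
        = C ^ finrank ℚ K * Height.mulHeight₁ ((a0 : K) / (b0 : K)) := by field_simp
      _ ≤ C ^ finrank ℚ K * T ^ finrank ℚ K := mul_le_mul_of_nonneg_left h1 (by positivity)
  have hmink : minkowskiBound K I < MeasureTheory.volume (convexBodyLT K f) := by
    unfold minkowskiBound
    have h5 : ((∏ w, (f w) ^ w.mult : NNReal) : ENNReal) = ∏ w, (f w : ENNReal) ^ w.mult := by
      push_cast; rfl
    rw [volume_fundamentalDomain_fractionalIdealLatticeBasis, convexBodyLT_volume, hIN, mul_assoc, ← hV0, h5]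
    have h1 : ((∏ w, (f w : ENNReal) ^ w.mult)) = ENNReal.ofReal (∏ w, (f w : ℝ) ^ w.mult) := by
      rw [ENNReal.ofReal_prod_of_nonneg (fun w _ => by positivity)]
      refine Finset.prod_congr rfl (fun w _ => ?_)
      rw [ENNReal.ofReal_pow (NNReal.coe_nonneg _), ENNReal.ofReal_coe_nnreal]
    have h2 : V0 = ENNReal.ofReal V0.toReal := (ENNReal.ofReal_toReal hV0top).symm
    calc ENNReal.ofReal N⁻¹ * V0 = ENNReal.ofReal (N⁻¹ * V0.toReal) := by
          rw [ENNReal.ofReal_mul (by positivity), ← h2]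
      _ < ENNReal.ofReal (C ^ finrank ℚ K * N⁻¹) := by
          rw [ENNReal.ofReal_lt_ofReal_iff (by positivity), mul_comm]
          apply mul_lt_mul_of_pos_right _ (by positivity)
          calc V0.toReal < C := by rw [hC]; linarith
            _ = C ^ 1 := (pow_one C).symm
            _ ≤ C ^ finrank ℚ K := pow_le_pow_right₀ hC1 finrank_pos
      _ ≤ ENNReal.ofReal (∏ w, (f w : ℝ) ^ w.mult) := ENNReal.ofReal_le_ofReal hprod
      _ = 1 * ∏ w, (f w : ENNReal) ^ w.mult := by rw [one_mul, h1]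
      _ ≤ (convexBodyLTFactor K) * ∏ w, (f w : ENNReal) ^ w.mult := by
          gcongr
          exact_mod_cast one_le_convexBodyLTFactor K
  obtain ⟨l, hl, hl0, hlw⟩ := exists_ne_zero_mem_ideal_lt K I hmink
  have hmem : ∀ y ∈ J, ∃ z : 𝓞 K, (z : K) = l * (y : K) := by
    intro y hy
    have h1 : l ∈ (J : FractionalIdeal (𝓞 K)⁰ K)⁻¹ := by
      rw [hI, Units.val_inv_eq_inv_val, Units.val_mk0] at hl
      exact hl
    rw [FractionalIdeal.mem_inv_iff hJF] at h1
    have h2 := h1 (algebraMap (𝓞 K) K y) (FractionalIdeal.mem_coeIdeal_of_mem _ hy)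
    rw [FractionalIdeal.mem_one_iff] at h2
    obtain ⟨z, hz⟩ := h2
    exact ⟨z, hz⟩
  obtain ⟨a, ha⟩ := hmem a0 (Ideal.subset_span (by simp))
  obtain ⟨b, hb⟩ := hmem b0 (Ideal.subset_span (by simp))
  have hb0K : (b0 : K) ≠ 0 := fun h => hb0' (RingOfIntegers.coe_eq_zero_iff.1 h)
  refine ⟨a, b, ?_, ?_, ?_⟩
  · intro h
    rw [h] at hb
    have : l * (b0 : K) = 0 := by rw [← hb]; exact map_zero _
    rcases mul_eq_zero.1 this with h1 | h1
    · exact hl0 h1
    · exact hb0K h1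
  · rw [ha, hb, mul_div_mul_left _ _ hl0]
    exact hβab.symm
  · intro σ
    set w := InfinitePlace.mk σ with hw
    have h1 := hlw w
    rw [hfw] at h1
    have h2 := hMpos w
    have h3 : w l * max (w (a0 : K)) (w (b0 : K)) ≤ C * T := by
      rw [lt_div_iff₀ h2] at h1
      exact h1.le
    have h4 : ∀ x : K, ‖σ x‖ = w x := fun x => rfl
    constructor
    · rw [h4, ha, map_mul]
      exact le_trans (mul_le_mul_of_nonneg_left (le_max_left _ _) (by positivity)) h3
    · rw [h4, hb, map_mul]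
      exact le_trans (mul_le_mul_of_nonneg_left (le_max_right _ _) (by positivity)) h3

theorem coord_bound (K : Type*) [Field K] [NumberField K] : ∃ C : ℝ, 1 ≤ C ∧ ∀ (v : Idx K → ℤ) (B : ℝ),
    (∀ σ : K →+* ℂ, ‖σ (el v)‖ ≤ B) → ∀ k, |(v k : ℝ)| ≤ C * B := by
  classical
  let b := canonicalEmbedding.latticeBasis K
  let cf : Idx K → ((K →+* ℂ) → ℂ) →L[ℂ] ℂ := fun k => LinearMap.toContinuousLinearMap (b.coord k)
  refine ⟨(∑ k, ‖cf k‖) + 1, by linarith [Finset.sum_nonneg (fun k (_ : k ∈ Finset.univ) => norm_nonneg (cf k))],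
    fun v B hB k => ?_⟩
  obtain ⟨σ0⟩ : Nonempty (K →+* ℂ) := inferInstance
  have hB0 : 0 ≤ B := le_trans (norm_nonneg _) (hB σ0)
  have h1 : canonicalEmbedding K (el v : K) = ∑ j, (v j : ℂ) • b j := by
    funext σ
    rw [Finset.sum_apply]
    show σ (el v : K) = _
    rw [emb_el]
    refine Finset.sum_congr rfl (fun j _ => ?_)
    rw [Pi.smul_apply, smul_eq_mul, canonicalEmbedding.latticeBasis_apply]
    rw [integralBasis_apply]
    rfl
  have h2 : cf k (canonicalEmbedding K (el v : K)) = (v k : ℂ) := by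
    show b.coord k _ = _
    rw [h1, Basis.coord_apply, Basis.repr_sum_self]
  have h3 : ‖canonicalEmbedding K (el v : K)‖ ≤ B := (pi_norm_le_iff_of_nonneg hB0).2 hB
  have h4 : |(v k : ℝ)| ≤ ‖cf k‖ * B := by
    have h5 := (cf k).le_opNorm (canonicalEmbedding K (el v : K))
    rw [h2] at h5
    have h6 : ‖(v k : ℂ)‖ = |(v k : ℝ)| := by
      rw [Complex.norm_intCast]
    rw [h6] at h5
    exact h5.trans (mul_le_mul_of_nonneg_left h3 (norm_nonneg _))
  have h5 : ‖cf k‖ ≤ ∑ k, ‖cf k‖ :=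
    Finset.single_le_sum (f := fun k => ‖cf k‖) (fun j _ => (cf j).opNorm_nonneg) (Finset.mem_univ k)
  nlinarith

end Pool.Agent.ORB
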