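import Pool.Agent.ORB.HeightK
import Pool.Agent.ORB.CountK

/-! ORB, Theorem IV: the number of elements of bounded height has the order of the square. -/

namespace Pool.Agent.ORB

open NumberField Module

variable {K : Type*} [Field K] [NumberField K]

theorem deg_eq_finrank (K : Type*) [Field K] [NumberField K] : deg K = finrank ℚ K := by
  unfold deg
  rw [← Module.finrank_eq_card_chooseBasisIndex, RingOfIntegers.rank]

/-- first element of a pair -/
noncomputable def pa (q : Bool × Idx K → ℤ) : 𝓞 K := el (fun k => q (false, k))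
/-- second element of a pair -/
noncomputable def pb (q : Bool × Idx K → ℤ) : 𝓞 K := el (fun k => q (true, k))

theorem pair_ext {q r : Bool × Idx K → ℤ} (h1 : pa q = pa r) (h2 : pb q = pb r) : q = r := by
  funext ⟨b, k⟩
  cases b
  · exact congrFun (el_injective h1) k
  · exact congrFun (el_injective h2) k

theorem exists_pair (K : Type*) [Field K] [NumberField K] : ∃ C : ℝ, 1 ≤ C ∧ ∀ (β : K) (T : ℝ), 0 < T →
    Height.mulHeight₁ β ≤ T ^ (finrank ℚ K) → ∃ q : Bool × Idx K → ℤ, pb q ≠ 0 ∧
      β = (pa q : K) / (pb q : K) ∧ (∀ k, |(q k : ℝ)| ≤ C * T) ∧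
      ∀ σ : K →+* ℂ, ‖σ (pa q : K)‖ ≤ C * T ∧ ‖σ (pb q : K)‖ ≤ C * T := by
  obtain ⟨C1, hC1, h1⟩ := exists_small_rep K
  obtain ⟨C2, hC2, h2⟩ := coord_bound K
  refine ⟨C2 * C1, by nlinarith, fun β T hT hβ => ?_⟩
  obtain ⟨a, b, hb, hab, hσ⟩ := h1 β T hT hβ
  obtain ⟨u, hu⟩ := el_surjective a
  obtain ⟨v, hv⟩ := el_surjective b
  refine ⟨fun k => match k with
    | (false, k) => u k
    | (true, k) => v k, ?_, ?_, ?_, ?_⟩
  · show el v ≠ 0
    rw [hv]; exact hb
  · show β = ((el u : 𝓞 K) : K) / ((el v : 𝓞 K) : K)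
    rw [hu, hv]; exact hab
  · rintro ⟨b', k⟩
    cases b'
    · have := h2 u (C1 * T) (fun σ => by rw [hu]; exact (hσ σ).1) k
      show |(u k : ℝ)| ≤ _
      rw [mul_assoc]; exact this
    · have := h2 v (C1 * T) (fun σ => by rw [hv]; exact (hσ σ).2) k
      show |(v k : ℝ)| ≤ _
      rw [mul_assoc]; exact this
  · intro σ
    show ‖σ ((el u : 𝓞 K) : K)‖ ≤ _ ∧ ‖σ ((el v : 𝓞 K) : K)‖ ≤ _
    rw [hu, hv]
    have h3 : C1 * T ≤ C2 * C1 * T := by
      have : 0 ≤ C1 * T := by positivity
      nlinarith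
    exact ⟨(hσ σ).1.trans h3, (hσ σ).2.trans h3⟩

/-- elements of height at most `X` -/
def hset (K : Type*) [Field K] [NumberField K] (X : ℝ) : Set K := {β | Height.mulHeight₁ β ≤ X}

theorem finite_hset (X : ℝ) : (hset K X).Finite := finite_setOfPred_mulHeight₁_le K X

theorem card_pairs (K : Type*) [Field K] [NumberField K] (H : ℕ) :
    (zbox (Bool × Idx K) H).card = (2 * H + 1) ^ (2 * finrank ℚ K) := by
  rw [card_zbox, Fintype.card_prod, Fintype.card_bool]
  congr 2
  exact deg_eq_finrank K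

theorem ncard_hset_le (K : Type*) [Field K] [NumberField K] : ∃ C : ℝ, 1 ≤ C ∧ ∀ X : ℝ, 1 ≤ X →
    ((hset K X).ncard : ℝ) ≤ C * X ^ 2 := by
  classical
  obtain ⟨C, hC, h⟩ := exists_pair K
  have hn : finrank ℚ K ≠ 0 := finrank_pos.ne'
  refine ⟨(3 * C) ^ (2 * finrank ℚ K), one_le_pow₀ (by linarith), fun X hX => ?_⟩
  set T : ℝ := X ^ ((1 : ℝ) / finrank ℚ K) with hT
  have hT1 : 1 ≤ T := Real.one_le_rpow hX (by positivity)
  have hTn : T ^ finrank ℚ K = X := by
    rw [hT, ← Real.rpow_natCast, ← Real.rpow_mul (by linarith), one_div, inv_mul_cancel₀ (by exact_mod_cast hn),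
      Real.rpow_one]
  set H := ⌊C * T⌋₊ with hH
  have hHle : (H : ℝ) ≤ C * T := Nat.floor_le (by positivity)
  have hrep : ∀ β : K, ∃ q : Bool × Idx K → ℤ, β ∈ hset K X → q ∈ zbox (Bool × Idx K) H ∧
      β = (pa q : K) / (pb q : K) := by
    intro β
    by_cases hβ : β ∈ hset K X
    · obtain ⟨q, hq1, hq2, hq3, -⟩ := h β T (by linarith) (by rw [hTn]; exact hβ)
      refine ⟨q, fun _ => ⟨?_, hq2⟩⟩
      rw [mem_zbox]
      intro k
      have h1 := hq3 k
      have h2 : ((|q k|).toNat : ℝ) ≤ C * T := by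
        have : (((|q k|).toNat : ℤ) : ℝ) = |(q k : ℝ)| := by
          rw [Int.toNat_of_nonneg (abs_nonneg _)]; push_cast; rfl
        calc ((|q k|).toNat : ℝ) = (((|q k|).toNat : ℤ) : ℝ) := by push_cast; rfl
          _ = |(q k : ℝ)| := this
          _ ≤ C * T := h1
      have h3 := Nat.le_floor h2
      have h4 : ((|q k|).toNat : ℤ) = |q k| := Int.toNat_of_nonneg (abs_nonneg _)
      rw [← h4]
      exact_mod_cast h3
    · exact ⟨0, fun hh => absurd hh hβ⟩
  choose q hq using hrep
  have h1 : (hset K X).ncard ≤ (zbox (Bool × Idx K) H).card := by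
    rw [← Set.ncard_coe_finset]
    refine Set.ncard_le_ncard_of_injOn q (fun β hβ => (hq β hβ).1) ?_ (Finset.finite_toSet _)
    intro β hβ γ hγ he
    rw [(hq β hβ).2, (hq γ hγ).2, he]
  have h2 : ((hset K X).ncard : ℝ) ≤ (2 * H + 1 : ℝ) ^ (2 * finrank ℚ K) := by
    rw [card_pairs] at h1
    exact_mod_cast h1
  refine h2.trans ?_
  calc (2 * H + 1 : ℝ) ^ (2 * finrank ℚ K) ≤ (3 * C * T) ^ (2 * finrank ℚ K) := by
        apply pow_le_pow_left₀ (by positivity)
        nlinarith
    _ = (3 * C) ^ (2 * finrank ℚ K) * X ^ 2 := by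
        rw [mul_pow, mul_comm 2 (finrank ℚ K), pow_mul T, hTn]

/-- sum of the inverses of the heights -/
theorem sum_inv_height_le (K : Type*) [Field K] [NumberField K] : ∃ C : ℝ, 1 ≤ C ∧ ∀ Z : ℝ, 0 ≤ Z →
    ∑ β ∈ (finite_hset (K := K) Z).toFinset, 1 / Height.mulHeight₁ β ≤ C * Z := by
  classical
  obtain ⟨C, hC, h⟩ := ncard_hset_le K
  refine ⟨4 * C, by linarith, ?_⟩
  have key : ∀ m : ℕ, ∀ Z : ℝ, 0 ≤ Z → Z < 2 ^ m →
      ∑ β ∈ (finite_hset (K := K) Z).toFinset, 1 / Height.mulHeight₁ β ≤ 4 * C * Z := by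
    intro m
    induction m with
    | zero =>
      intro Z hZ0 hZ
      rw [Finset.sum_eq_zero]
      · positivity
      · intro β hβ
        rw [Set.Finite.mem_toFinset] at hβ
        have h1 : Height.mulHeight₁ β ≤ Z := hβ
        have h2 := Height.one_le_mulHeight₁ β
        rw [pow_zero] at hZ
        linarith
    | succ m ih =>
      intro Z hZ0 hZ
      by_cases hZ1 : Z < 1
      · rw [Finset.sum_eq_zero]
        · positivity
        · intro β hβ
          rw [Set.Finite.mem_toFinset] at hβ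
          have h1 : Height.mulHeight₁ β ≤ Z := hβ
          have h2 := Height.one_le_mulHeight₁ β
          linarith
      · push Not at hZ1
        have ih1 := ih (Z / 2) (by positivity) (by rw [pow_succ] at hZ; linarith)
        have hsub : (finite_hset (K := K) (Z / 2)).toFinset ⊆ (finite_hset (K := K) Z).toFinset := by
          intro β hβ
          rw [Set.Finite.mem_toFinset] at hβ ⊢
          have h1 : Height.mulHeight₁ β ≤ Z / 2 := hβ
          show Height.mulHeight₁ β ≤ Z
          linarith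
        rw [← Finset.sum_sdiff hsub]
        have h2 : ∑ β ∈ (finite_hset (K := K) Z).toFinset \ (finite_hset (K := K) (Z / 2)).toFinset,
            1 / Height.mulHeight₁ β ≤ 2 * C * Z := by
          have h3 : ∀ β ∈ (finite_hset (K := K) Z).toFinset \ (finite_hset (K := K) (Z / 2)).toFinset,
              1 / Height.mulHeight₁ β ≤ 2 / Z := by
            intro β hβ
            rw [Finset.mem_sdiff, Set.Finite.mem_toFinset, Set.Finite.mem_toFinset] at hβ
            have h4 : Z / 2 < Height.mulHeight₁ β := not_le.1 hβ.2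
            rw [div_le_div_iff₀ (by linarith) (by linarith)]
            linarith
          refine (Finset.sum_le_sum h3).trans ?_
          rw [Finset.sum_const, nsmul_eq_mul]
          have h5 : (((finite_hset (K := K) Z).toFinset \ (finite_hset (K := K) (Z / 2)).toFinset).card : ℝ) ≤
              C * Z ^ 2 := by
            refine le_trans ?_ (h Z hZ1)
            rw [Set.ncard_eq_toFinset_card _ (finite_hset Z)]
            exact_mod_cast Finset.card_le_card Finset.sdiff_subset
          calc (((finite_hset (K := K) Z).toFinset \ (finite_hset (K := K) (Z / 2)).toFinset).card : ℝ) * (2 / Z)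
              ≤ C * Z ^ 2 * (2 / Z) := mul_le_mul_of_nonneg_right h5 (by positivity)
            _ = 2 * C * Z := by field_simp
        linarith
  intro Z hZ
  obtain ⟨m, hm⟩ := pow_unbounded_of_one_lt Z (one_lt_two)
  exact key m Z hZ hm

end Pool.Agent.ORB
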