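import Pool.Agent.ORB.HeightM

/-! ORB, Theorem IV: at least `c X^2` elements of height at most `X`. -/

namespace Pool.Agent.ORB

open NumberField Module

theorem ncard_hset_ge_aux (K : Type*) [Field K] [NumberField K] : ∃ c : ℝ, 0 < c ∧ ∃ C : ℝ, 1 ≤ C ∧
    ∀ Y : ℕ, 1 ≤ Y → c * (C * (Y : ℝ) ^ finrank ℚ K) ^ 2 ≤ ((hset K (C * (Y : ℝ) ^ finrank ℚ K)).ncard : ℝ) := by
  classical
  obtain ⟨C3, hC3, hmult⟩ := mult_bound K
  obtain ⟨C2, hC2, hsum⟩ := sum_inv_height_le K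
  set n := finrank ℚ K with hn
  set δ : ℝ := 1 / (2 * C2 * C3 ^ 2) with hδ
  have hδ0 : 0 < δ := by rw [hδ]; positivity
  have hδ1 : δ ≤ 1 := by
    rw [hδ, div_le_one (by positivity)]
    have : 1 ≤ C3 ^ 2 := one_le_pow₀ hC3
    nlinarith
  refine ⟨δ / (2 * C3 ^ 2), by positivity, C3, hC3, fun Y hY => ?_⟩
  have hY1 : (1 : ℝ) ≤ Y := by exact_mod_cast hY
  set Z : ℝ := C3 * (Y : ℝ) ^ n with hZ
  have hYn : (1 : ℝ) ≤ (Y : ℝ) ^ n := one_le_pow₀ hY1
  have hZ1 : 1 ≤ Z := by rw [hZ]; nlinarith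
  set P := (zbox (Bool × Idx K) Y).filter (fun q => pb q ≠ 0) with hP
  let quo : (Bool × Idx K → ℤ) → K := fun q => (pa q : K) / (pb q : K)
  -- many pairs
  have hcardP : (Y : ℝ) ^ n * (Y : ℝ) ^ n ≤ (P.card : ℝ) := by
    have h1 : (Fintype.piFinset (fun _ : Bool × Idx K => Finset.Icc (1 : ℤ) Y)) ⊆ P := by
      intro q hq
      rw [Fintype.mem_piFinset] at hq
      rw [hP, Finset.mem_filter, mem_zbox]
      refine ⟨fun k => ?_, ?_⟩
      · have := Finset.mem_Icc.1 (hq k)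
        rw [abs_of_nonneg (by linarith)]
        exact this.2
      · have hpos : 0 < Fintype.card (Idx K) := deg_pos (M := K)
        obtain ⟨i0⟩ := Fintype.card_pos_iff.mp hpos
        refine el_ne_zero (fun h => ?_)
        have h2 := congrFun h i0
        have h3 := (Finset.mem_Icc.1 (hq (true, i0))).1
        simp only [Pi.zero_apply] at h2
        omega
    have h2 := Finset.card_le_card h1
    rw [Fintype.card_piFinset, Finset.prod_const, Finset.card_univ, Int.card_Icc, Fintype.card_prod,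
      Fintype.card_bool] at h2
    have h3 : Fintype.card (Idx K) = n := deg_eq_finrank K
    rw [h3] at h2
    have h4 : ((Y : ℤ) + 1 - 1).toNat = Y := by simp
    rw [h4] at h2
    have h5 : ((Y ^ (2 * n) : ℕ) : ℝ) ≤ (P.card : ℝ) := by exact_mod_cast h2
    push_cast at h5
    rw [← pow_add, ← two_mul]
    exact h5
  have hfib : (P.card : ℝ) ≤ ∑ β ∈ P.image quo, C3 * ((Y : ℝ) ^ n / Height.mulHeight₁ β) := by
    rw [Finset.card_eq_sum_card_image quo P, Nat.cast_sum]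
    refine Finset.sum_le_sum (fun β hβ => ?_)
    obtain ⟨q, hq, hqβ⟩ := Finset.mem_image.1 hβ
    rw [hP, Finset.mem_filter] at hq
    refine (hmult Y hY β ⟨q, hq.1, hq.2, hqβ⟩).2 _ ?_
    intro q' hq'
    rw [Finset.mem_filter, hP, Finset.mem_filter] at hq'
    exact ⟨hq'.1.1, hq'.1.2, hq'.2⟩
  have himg : P.image quo ⊆ (finite_hset (K := K) Z).toFinset := by
    intro β hβ
    obtain ⟨q, hq, hqβ⟩ := Finset.mem_image.1 hβ
    rw [hP, Finset.mem_filter] at hq
    rw [Set.Finite.mem_toFinset]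
    exact (hmult Y hY β ⟨q, hq.1, hq.2, hqβ⟩).1
  set S : ℝ → ℝ := fun Z => ∑ β ∈ (finite_hset (K := K) Z).toFinset, 1 / Height.mulHeight₁ β with hS
  have hSlow : (Y : ℝ) ^ n ≤ C3 * S Z := by
    have h1 : (P.card : ℝ) ≤ C3 * (Y : ℝ) ^ n * S Z := by
      refine hfib.trans ?_
      rw [hS]
      simp only
      rw [Finset.mul_sum]
      refine (Finset.sum_le_sum_of_subset_of_nonneg himg (fun β _ _ => by
        have := Height.mulHeight₁_pos β
        positivity)).trans (Finset.sum_le_sum (fun β _ => le_of_eq (by ring)))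
    have h2 := hcardP.trans h1
    have h3 : (Y : ℝ) ^ n * (Y : ℝ) ^ n ≤ (Y : ℝ) ^ n * (C3 * S Z) := by linarith
    exact le_of_mul_le_mul_left h3 (by positivity)
  have hSδ := hsum (δ * Z) (by positivity)
  have hsub : (finite_hset (K := K) (δ * Z)).toFinset ⊆ (finite_hset (K := K) Z).toFinset := by
    intro β hβ
    rw [Set.Finite.mem_toFinset] at hβ ⊢
    have h1 : Height.mulHeight₁ β ≤ δ * Z := hβ
    show Height.mulHeight₁ β ≤ Z
    nlinarith
  have hsplit : S Z ≤ C2 * (δ * Z) + ((hset K Z).ncard : ℝ) * (1 / (δ * Z)) := by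
    rw [hS]
    simp only
    rw [← Finset.sum_sdiff hsub]
    have h2 : ∑ β ∈ (finite_hset (K := K) Z).toFinset \ (finite_hset (K := K) (δ * Z)).toFinset,
        1 / Height.mulHeight₁ β ≤ ((hset K Z).ncard : ℝ) * (1 / (δ * Z)) := by
      have h3 : ∀ β ∈ (finite_hset (K := K) Z).toFinset \ (finite_hset (K := K) (δ * Z)).toFinset,
          1 / Height.mulHeight₁ β ≤ 1 / (δ * Z) := by
        intro β hβ
        rw [Finset.mem_sdiff, Set.Finite.mem_toFinset, Set.Finite.mem_toFinset] at hβ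
        have h4 : δ * Z < Height.mulHeight₁ β := not_le.1 hβ.2
        exact one_div_le_one_div_of_le (by positivity) h4.le
      refine (Finset.sum_le_sum h3).trans ?_
      rw [Finset.sum_const, nsmul_eq_mul]
      apply mul_le_mul_of_nonneg_right _ (by positivity)
      rw [Set.ncard_eq_toFinset_card _ (finite_hset Z)]
      exact_mod_cast Finset.card_le_card Finset.sdiff_subset
    linarith
  -- conclusion
  have h5 : Z ≤ C3 ^ 2 * S Z := by
    rw [hZ]
    calc C3 * (Y : ℝ) ^ n ≤ C3 * (C3 * S Z) := mul_le_mul_of_nonneg_left hSlow (by linarith)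
      _ = C3 ^ 2 * S Z := by ring
  have h6 : Z / C3 ^ 2 ≤ C2 * (δ * Z) + ((hset K Z).ncard : ℝ) * (1 / (δ * Z)) := by
    rw [div_le_iff₀ (by positivity)]
    calc Z ≤ C3 ^ 2 * S Z := h5
      _ = S Z * C3 ^ 2 := mul_comm _ _
      _ ≤ _ := mul_le_mul_of_nonneg_right hsplit (by positivity)
  have h7 : C2 * (δ * Z) = Z / (2 * C3 ^ 2) := by
    rw [hδ]; field_simp
  rw [h7] at h6
  have h8 : Z / (2 * C3 ^ 2) ≤ ((hset K Z).ncard : ℝ) * (1 / (δ * Z)) := by
    have : Z / C3 ^ 2 = Z / (2 * C3 ^ 2) + Z / (2 * C3 ^ 2) := by field_simp; ring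
    linarith
  rw [mul_one_div, le_div_iff₀ (by positivity)] at h8
  calc δ / (2 * C3 ^ 2) * Z ^ 2 = Z / (2 * C3 ^ 2) * (δ * Z) := by ring
    _ ≤ _ := h8

theorem ncard_hset_ge (K : Type*) [Field K] [NumberField K] : ∃ c : ℝ, 0 < c ∧ ∃ X0 : ℝ, 1 ≤ X0 ∧ ∀ X : ℝ, X0 ≤ X →
    c * X ^ 2 ≤ ((hset K X).ncard : ℝ) := by
  obtain ⟨c, hc, C, hC, h⟩ := ncard_hset_ge_aux K
  set n := finrank ℚ K with hn
  have hn0 : 0 < n := finrank_pos
  refine ⟨c / 4 ^ n, by positivity, C, hC, fun X hX => ?_⟩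
  set T : ℝ := (X / C) ^ ((1 : ℝ) / n) with hT
  have hXC : 1 ≤ X / C := by rw [one_le_div (by linarith)]; exact hX
  have hT1 : 1 ≤ T := Real.one_le_rpow hXC (by positivity)
  have hTn : T ^ n = X / C := by
    rw [hT, ← Real.rpow_natCast, ← Real.rpow_mul (by linarith), one_div,
      inv_mul_cancel₀ (by exact_mod_cast hn0.ne'), Real.rpow_one]
  set Y := ⌊T⌋₊ with hYdef
  have hY : 1 ≤ Y := Nat.le_floor (by exact_mod_cast hT1)
  have hY1 : (1 : ℝ) ≤ Y := by exact_mod_cast hY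
  have hYT : (Y : ℝ) ≤ T := Nat.floor_le (by linarith)
  have hTY : T ≤ 2 * Y := by
    have := Nat.lt_floor_add_one T
    linarith
  have h1 := h Y hY
  have h2 : C * (Y : ℝ) ^ n ≤ X := by
    calc C * (Y : ℝ) ^ n ≤ C * T ^ n := mul_le_mul_of_nonneg_left (pow_le_pow_left₀ (by positivity) hYT n)
          (by linarith)
      _ = X := by rw [hTn]; field_simp
  have h3 : X / 2 ^ n ≤ C * (Y : ℝ) ^ n := by
    rw [div_le_iff₀ (by positivity)]
    calc X = C * T ^ n := by rw [hTn]; field_simp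
      _ ≤ C * (2 * Y) ^ n := mul_le_mul_of_nonneg_left (pow_le_pow_left₀ (by positivity) hTY n) (by linarith)
      _ = C * (Y : ℝ) ^ n * 2 ^ n := by rw [mul_pow]; ring
  have h4 : ((hset K (C * (Y : ℝ) ^ n)).ncard : ℝ) ≤ ((hset K X).ncard : ℝ) := by
    have : (hset K (C * (Y : ℝ) ^ n)).ncard ≤ (hset K X).ncard :=
      Set.ncard_le_ncard (fun β hβ => le_trans hβ h2) (finite_hset X)
    exact_mod_cast this
  refine le_trans ?_ (h1.trans h4)
  calc c / 4 ^ n * X ^ 2 = c * (X / 2 ^ n) ^ 2 := by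
        rw [div_pow, ← pow_mul, mul_comm n 2, pow_mul]; norm_num; ring
    _ ≤ c * (C * (Y : ℝ) ^ n) ^ 2 := by
        apply mul_le_mul_of_nonneg_left _ hc.le
        have hX0 : 0 ≤ X := by linarith
        exact pow_le_pow_left₀ (by positivity) h3 2

end Pool.Agent.ORB
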