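import Pool.Agent.ORB.Box

/-! ORB, M1b: points of an ideal in a box. -/

namespace Pool.Agent.ORB

open NumberField Module

variable {M : Type*} [Field M] [NumberField M]

/-- structure constants of the integral basis -/
noncomputable def scst (M : Type*) [Field M] [NumberField M] (i j l : Idx M) : ℤ :=
  (RingOfIntegers.basis M).repr (RingOfIntegers.basis M i * RingOfIntegers.basis M j) l

/-- a bound for the structure constants -/
noncomputable def cmax (M : Type*) [Field M] [NumberField M] : ℕ :=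
  1 + ∑ i : Idx M, ∑ j : Idx M, ∑ l : Idx M, (scst M i j l).natAbs

/-- pigeonhole: a small nonzero element of an ideal -/
theorem exists_small {I : Ideal (𝓞 M)} (hI : I ≠ ⊥) : ∃ k : ℕ, 1 ≤ k ∧ k ^ deg M ≤ Ideal.absNorm I ∧
    ∃ u ∈ box M k, u ≠ 0 ∧ el u ∈ I := by
  classical
  have hn := deg_pos (M := M)
  set m := Ideal.absNorm I with hm
  have hm0 : m ≠ 0 := by rw [hm, Ne, Ideal.absNorm_eq_zero_iff]; exact hI
  set k := Nat.findGreatest (fun k => k ^ deg M ≤ m) m with hk
  have hk1 : k ^ deg M ≤ m := by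
    have := Nat.findGreatest_spec (P := fun k => k ^ deg M ≤ m) (m := 1) (n := m) (by omega)
      (by simp; omega)
    exact this
  have hk2 : m < (k + 1) ^ deg M := by
    by_contra hcon
    rw [not_lt] at hcon
    have h1 : k + 1 ≤ m := le_trans (Nat.le_self_pow (by omega) _) hcon
    have := Nat.findGreatest_is_greatest (P := fun k => k ^ deg M ≤ m) (n := m) (k := k + 1)
      (by rw [← hk]; omega) h1
    exact this hcon
  have hk0 : 1 ≤ k := by
    have := Nat.le_findGreatest (P := fun k => k ^ deg M ≤ m) (m := 1) (n := m) (by omega)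
      (by simp; omega)
    exact this
  refine ⟨k, hk0, hk1, ?_⟩
  have hfin : Finite (𝓞 M ⧸ I) := Ideal.finiteQuotientOfFreeOfNeBot I hI
  have := Fintype.ofFinite (𝓞 M ⧸ I)
  have hcard : Fintype.card (𝓞 M ⧸ I) = m := by
    rw [hm, Ideal.absNorm_apply, Submodule.cardQuot_apply, Nat.card_eq_fintype_card]
  set S : Finset (Idx M → ℤ) := Fintype.piFinset (fun _ => Finset.Icc (0 : ℤ) k) with hS
  have hScard : S.card = (k + 1) ^ deg M := by
    simp only [hS, Fintype.card_piFinset, Int.card_Icc, Finset.prod_const, Finset.card_univ, deg]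
    congr 1
  obtain ⟨v, hv, w, hw, hne, heq⟩ := Finset.exists_ne_map_eq_of_card_lt_of_maps_to
    (s := S) (t := (Finset.univ : Finset (𝓞 M ⧸ I))) (f := fun v => Ideal.Quotient.mk I (el v))
    (by rw [hScard, Finset.card_univ, hcard]; exact hk2) (fun _ _ => Finset.mem_coe.2 (Finset.mem_univ _))
  refine ⟨v - w, ?_, sub_ne_zero.2 hne, ?_⟩
  · rw [mem_box]
    intro i
    rw [hS, Fintype.mem_piFinset] at hv hw
    have h1 := Finset.mem_Icc.1 (hv i)
    have h2 := Finset.mem_Icc.1 (hw i)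
    rw [Pi.sub_apply, abs_le]
    constructor <;> linarith [h1.1, h1.2, h2.1, h2.2]
  · rw [el_sub]
    exact (Ideal.Quotient.eq).1 heq

/-- every class modulo `I` has a representative with coordinates `O(N(I)^(1/n))` -/
theorem exists_reps (M : Type*) [Field M] [NumberField M] : ∃ C : ℕ, 1 ≤ C ∧
    ∀ I : Ideal (𝓞 M), I ≠ ⊥ → ∃ k : ℕ, 1 ≤ k ∧ k ^ deg M ≤ Ideal.absNorm I ∧
      ∀ y : 𝓞 M, ∃ r ∈ box M (C * k), y - el r ∈ I := by
  classical
  refine ⟨cmax M, by unfold cmax; omega, ?_⟩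
  intro I hI
  obtain ⟨k, hk1, hk2, u, hu, hu0, huI⟩ := exists_small hI
  refine ⟨k, hk1, hk2, ?_⟩
  intro y
  have hb0 : ((el u : 𝓞 M) : M) ≠ 0 := by
    rw [RingOfIntegers.coe_ne_zero_iff]; exact el_ne_zero hu0
  set t : Idx M → ℚ := fun i => (integralBasis M).repr ((y : M) / (el u : 𝓞 M)) i with ht
  set z : Idx M → ℤ := fun i => ⌊t i⌋ with hz
  obtain ⟨r, hr⟩ := el_surjective (M := M) (y - el u * el z)
  refine ⟨r, ?_, ?_⟩
  swap
  · rw [hr, sub_sub_cancel]
    exact Ideal.mul_mem_right _ _ huI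
  -- coordinates
  have hy : ((el r : 𝓞 M) : M) = ∑ j, ∑ i, ((Int.fract (t j) * (u i : ℚ)) : ℚ) •
      ((RingOfIntegers.basis M i * RingOfIntegers.basis M j : 𝓞 M) : M) := by
    have h1 : (y : M) = (el u : 𝓞 M) * ∑ j, t j • ((RingOfIntegers.basis M j : 𝓞 M) : M) := by
      have h2 := (integralBasis M).sum_repr ((y : M) / (el u : 𝓞 M))
      have h3 : ∑ j, t j • ((RingOfIntegers.basis M j : 𝓞 M) : M) = (y : M) / (el u : 𝓞 M) := by
        rw [← h2]
        refine Finset.sum_congr rfl (fun j _ => ?_)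
        rw [integralBasis_apply]
      rw [h3]; field_simp
    have h4 : ((el z : 𝓞 M) : M) = ∑ j, ((z j : ℤ) : ℚ) • ((RingOfIntegers.basis M j : 𝓞 M) : M) := by
      unfold el
      rw [RingOfIntegers.coe_eq_algebraMap, map_sum]
      refine Finset.sum_congr rfl (fun j _ => ?_)
      rw [map_zsmul, Int.cast_smul_eq_zsmul]
    have h5 : ((el u : 𝓞 M) : M) = ∑ i, ((u i : ℤ) : ℚ) • ((RingOfIntegers.basis M i : 𝓞 M) : M) := by
      unfold el
      rw [RingOfIntegers.coe_eq_algebraMap, map_sum]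
      refine Finset.sum_congr rfl (fun j _ => ?_)
      rw [map_zsmul, Int.cast_smul_eq_zsmul]
    have h6 : ((el r : 𝓞 M) : M) = (el u : 𝓞 M) *
        ∑ j, (Int.fract (t j)) • ((RingOfIntegers.basis M j : 𝓞 M) : M) := by
      rw [hr, RingOfIntegers.coe_eq_algebraMap, map_sub, map_mul, ← RingOfIntegers.coe_eq_algebraMap y,
        ← RingOfIntegers.coe_eq_algebraMap (el u), ← RingOfIntegers.coe_eq_algebraMap (el z), h1, h4,
        ← mul_sub, ← Finset.sum_sub_distrib]
      congr 1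
      refine Finset.sum_congr rfl (fun j _ => ?_)
      rw [← sub_smul]
      rfl
    rw [h6, h5, Finset.mul_sum]
    refine Finset.sum_congr rfl (fun j _ => ?_)
    rw [Finset.sum_mul]
    refine Finset.sum_congr rfl (fun i _ => ?_)
    rw [RingOfIntegers.coe_eq_algebraMap (RingOfIntegers.basis M i * RingOfIntegers.basis M j),
      map_mul, smul_mul_smul_comm, mul_comm (Int.fract (t j))]
  have hcoord : ∀ l, ((r l : ℤ) : ℚ) = ∑ j, ∑ i, (Int.fract (t j) * (u i : ℚ)) * (scst M i j l : ℚ) := by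
    intro l
    have h1 : (integralBasis M).repr ((el r : 𝓞 M) : M) l = ((r l : ℤ) : ℚ) := by
      rw [integralBasis_repr_apply, el_eq]
      exact congrArg (fun x : ℤ => (x : ℚ))
        (congrFun ((RingOfIntegers.basis M).equivFun.apply_symm_apply r) l)
    rw [← h1, hy]
    simp only [map_sum, map_smul, Finsupp.coe_finsetSum, Finset.sum_apply, Finsupp.coe_smul,
      Pi.smul_apply, smul_eq_mul]
    refine Finset.sum_congr rfl (fun j _ => ?_)
    refine Finset.sum_congr rfl (fun i _ => ?_)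
    rw [integralBasis_repr_apply]
    rfl
  rw [mem_box]
  intro l
  have hu' := mem_box.1 hu
  have h7 : |((r l : ℤ) : ℚ)| ≤ ∑ j, ∑ i, (k : ℚ) * ((scst M i j l).natAbs : ℚ) := by
    rw [hcoord l]
    refine le_trans (Finset.abs_sum_le_sum_abs _ _) (Finset.sum_le_sum fun j _ => ?_)
    refine le_trans (Finset.abs_sum_le_sum_abs _ _) (Finset.sum_le_sum fun i _ => ?_)
    rw [abs_mul, abs_mul]
    have h8 : |(scst M i j l : ℚ)| = ((scst M i j l).natAbs : ℚ) := by
      rw [← Int.cast_abs, Int.abs_eq_natAbs]; rfl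
    rw [h8]
    refine mul_le_mul_of_nonneg_right ?_ (by positivity)
    have h9 : |Int.fract (t j)| ≤ 1 := by
      rw [abs_of_nonneg (Int.fract_nonneg _)]; exact (Int.fract_lt_one _).le
    have h10 : |(u i : ℚ)| ≤ k := by
      rw [← Int.cast_abs]; exact_mod_cast hu' i
    calc |Int.fract (t j)| * |(u i : ℚ)| ≤ 1 * k := by gcongr
      _ = k := one_mul _
  have h11 : ∑ j, ∑ i, (k : ℚ) * ((scst M i j l).natAbs : ℚ) ≤ (cmax M : ℚ) * k := by
    have h12 : ∑ j : Idx M, ∑ i : Idx M, (scst M i j l).natAbs ≤ cmax M := by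
      unfold cmax
      have h13 : ∑ j : Idx M, ∑ i : Idx M, (scst M i j l).natAbs =
          ∑ i : Idx M, ∑ j : Idx M, (scst M i j l).natAbs := Finset.sum_comm
      rw [h13]
      have h14 : ∑ i : Idx M, ∑ j : Idx M, (scst M i j l).natAbs ≤
          ∑ i : Idx M, ∑ j : Idx M, ∑ l : Idx M, (scst M i j l).natAbs :=
        Finset.sum_le_sum fun i _ => Finset.sum_le_sum fun j _ =>
          Finset.single_le_sum (f := fun l => (scst M i j l).natAbs) (fun _ _ => Nat.zero_le _)
            (Finset.mem_univ l)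
      omega
    have h15 : ∑ j, ∑ i, (k : ℚ) * ((scst M i j l).natAbs : ℚ) =
        (k : ℚ) * ((∑ j : Idx M, ∑ i : Idx M, (scst M i j l).natAbs : ℕ) : ℚ) := by
      push_cast
      simp only [Finset.mul_sum]
    rw [h15, mul_comm]
    gcongr
  have h16 : |((r l : ℤ) : ℚ)| ≤ (cmax M : ℚ) * k := le_trans h7 h11
  rw [← Int.cast_abs] at h16
  exact_mod_cast h16

theorem cnt_upper {I : Ideal (𝓞 M)} (hI : I ≠ ⊥) {D : ℕ} (h : ∀ y : 𝓞 M, ∃ r ∈ box M D, y - el r ∈ I)
    (X : ℕ) : Ideal.absNorm I * cnt I X ≤ (2 * (X + D) + 1) ^ deg M := by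
  classical
  have hfin : Finite (𝓞 M ⧸ I) := Ideal.finiteQuotientOfFreeOfNeBot I hI
  have := Fintype.ofFinite (𝓞 M ⧸ I)
  have hcard : Fintype.card (𝓞 M ⧸ I) = Ideal.absNorm I := by
    rw [Ideal.absNorm_apply, Submodule.cardQuot_apply, Nat.card_eq_fintype_card]
  have hrep : ∀ c : 𝓞 M ⧸ I, ∃ r ∈ box M D, Ideal.Quotient.mk I (el r) = c := by
    intro c
    obtain ⟨y, rfl⟩ := Ideal.Quotient.mk_surjective c
    obtain ⟨r, hr, hr2⟩ := h y
    exact ⟨r, hr, (Ideal.Quotient.eq.2 hr2).symm⟩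
  choose r hr hr2 using hrep
  rw [← hcard, ← Finset.card_univ, ← card_box, cnt, ← Finset.card_product]
  refine Finset.card_le_card_of_injOn (fun q => q.2 + r q.1) ?_ ?_
  · rintro ⟨c, v⟩ hq
    rw [Finset.mem_coe, Finset.mem_product, Finset.mem_filter] at hq
    rw [Finset.mem_coe, mem_box]
    intro i
    have h1 := mem_box.1 hq.2.1 i
    have h2 := mem_box.1 (hr c) i
    simp only [Pi.add_apply]
    push_cast
    calc |v i + r c i| ≤ |v i| + |r c i| := abs_add_le _ _
      _ ≤ _ := by linarith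
  · rintro ⟨c, v⟩ hq ⟨c', v'⟩ hq' heq
    rw [Finset.mem_coe, Finset.mem_product, Finset.mem_filter] at hq hq'
    simp only at heq
    have h1 : Ideal.Quotient.mk I (el (v + r c)) = c := by
      rw [el_add, map_add, Ideal.Quotient.eq_zero_iff_mem.2 hq.2.2, zero_add, hr2]
    have h2 : Ideal.Quotient.mk I (el (v' + r c')) = c' := by
      rw [el_add, map_add, Ideal.Quotient.eq_zero_iff_mem.2 hq'.2.2, zero_add, hr2]
    have h3 : c = c' := by rw [← h1, ← h2, heq]
    subst h3
    rw [Prod.mk.injEq]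
    exact ⟨rfl, add_right_cancel heq⟩

theorem cnt_lower {I : Ideal (𝓞 M)} (hI : I ≠ ⊥) {D : ℕ} (h : ∀ y : 𝓞 M, ∃ r ∈ box M D, y - el r ∈ I)
    {X : ℕ} (hX : D ≤ X) : (2 * (X - D) + 1) ^ deg M ≤ Ideal.absNorm I * cnt I X := by
  classical
  have hfin : Finite (𝓞 M ⧸ I) := Ideal.finiteQuotientOfFreeOfNeBot I hI
  have := Fintype.ofFinite (𝓞 M ⧸ I)
  have hcard : Fintype.card (𝓞 M ⧸ I) = Ideal.absNorm I := by
    rw [Ideal.absNorm_apply, Submodule.cardQuot_apply, Nat.card_eq_fintype_card]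
  have hrep : ∀ c : 𝓞 M ⧸ I, ∃ r ∈ box M D, Ideal.Quotient.mk I (el r) = c := by
    intro c
    obtain ⟨y, rfl⟩ := Ideal.Quotient.mk_surjective c
    obtain ⟨r, hr, hr2⟩ := h y
    exact ⟨r, hr, (Ideal.Quotient.eq.2 hr2).symm⟩
  choose r hr hr2 using hrep
  rw [← hcard, ← Finset.card_univ, ← card_box, cnt, ← Finset.card_product]
  refine Finset.card_le_card_of_injOn
    (fun v => (Ideal.Quotient.mk I (el v), v - r (Ideal.Quotient.mk I (el v)))) ?_ ?_
  · intro v hv
    rw [Finset.mem_coe] at hv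
    rw [Finset.mem_coe, Finset.mem_product, Finset.mem_filter]
    refine ⟨Finset.mem_univ _, ?_, ?_⟩
    · rw [mem_box]
      intro i
      have h1 := mem_box.1 hv i
      have h2 := mem_box.1 (hr (Ideal.Quotient.mk I (el v))) i
      simp only [Pi.sub_apply]
      have h3 : ((X - D : ℕ) : ℤ) = (X : ℤ) - D := by push_cast [hX]; ring
      rw [h3] at h1
      calc |v i - r (Ideal.Quotient.mk I (el v)) i| ≤ |v i| + |r (Ideal.Quotient.mk I (el v)) i| :=
            abs_sub _ _
        _ ≤ _ := by linarith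
    · simp only
      rw [el_sub, ← Ideal.Quotient.eq_zero_iff_mem, map_sub, hr2, sub_self]
  · intro v _ v' _ heq
    simp only [Prod.mk.injEq] at heq
    have h1 := heq.2
    rw [heq.1] at h1
    exact sub_left_injective h1

end Pool.Agent.ORB
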