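import Mathlib

/-! ORB: a finite group is not the union of few subgroups of large index. -/

namespace Pool.Agent.ORB

theorem exists_not_mem_union {H : Type*} [Group H] [Finite H] {ι : Type*} [Fintype ι]
    (S : ι → Subgroup H) (h : ∀ i, Fintype.card ι < (S i).index) : ∃ g : H, ∀ i, g ∉ S i := by
  classical
  have := Fintype.ofFinite H
  by_contra hcon
  push Not at hcon
  have h1 : (Finset.univ : Finset H) ⊆ Finset.univ.biUnion fun i => Finset.univ.filter (· ∈ S i) := by
    intro g _
    obtain ⟨i, hi⟩ := hcon g
    exact Finset.mem_biUnion.2 ⟨i, Finset.mem_univ i, Finset.mem_filter.2 ⟨Finset.mem_univ g, hi⟩⟩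
  have h2 := (Finset.card_le_card h1).trans Finset.card_biUnion_le
  have h3 : ∀ i, (Finset.univ.filter (· ∈ S i)).card * (Fintype.card ι + 1) ≤ Fintype.card H := by
    intro i
    have h4 : (Finset.univ.filter (· ∈ S i)).card = Nat.card (S i) := by
      rw [Nat.card_eq_fintype_card, Fintype.card_subtype]
    have h5 := (S i).card_mul_index
    rw [Nat.card_eq_fintype_card (α := H)] at h5
    rw [h4, ← h5]
    exact Nat.mul_le_mul_left _ (h i)
  have h6 : (∑ i, (Finset.univ.filter (· ∈ S i)).card) * (Fintype.card ι + 1) ≤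
      Fintype.card ι * Fintype.card H := by
    rw [Finset.sum_mul]
    refine (Finset.sum_le_sum fun i _ => h3 i).trans ?_
    rw [Finset.sum_const, Finset.card_univ, smul_eq_mul]
  rw [Finset.card_univ] at h2
  have h7 : 0 < Fintype.card H := Fintype.card_pos
  have h8 : Fintype.card H * (Fintype.card ι + 1) ≤ Fintype.card ι * Fintype.card H :=
    (Nat.mul_le_mul_right _ h2).trans h6
  rw [mul_comm (Fintype.card ι)] at h8
  have := Nat.le_of_mul_le_mul_left h8 h7
  omega

end Pool.Agent.ORB
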