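import Pool.Agent.ORB.Divis
import Pool.Agent.ORB.Union

/-!
ORB, second kind of blocks: power maps with arbitrary targets.
-/

namespace Pool.Agent.ORB

open NumberField Polynomial

universe u v

/-- a nonperiodic root of unity for `x ^ d` has order divisible by a prime factor of `d` -/
theorem exists_prime_of_torsion {K : Type*} [Field K] {d : ℕ} {y : K}
    (ht : ∃ n : ℕ, 0 < n ∧ y ^ n = 1) (hy : ∀ m, 1 ≤ m → y ^ (d ^ m) ≠ y) :
    ∃ l : ℕ, l.Prime ∧ l ∣ d ∧ l ∣ orderOf y := by
  have hpos : 0 < orderOf y := orderOf_pos_iff.2 (isOfFinOrder_iff_pow_eq_one.2 ht)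
  have hnc : ¬ Nat.Coprime d (orderOf y) := by
    intro hc
    have h1 := Nat.ModEq.pow_totient hc
    have h2 : y ^ (d ^ Nat.totient (orderOf y)) = y ^ 1 := by
      rw [← pow_mod_orderOf, ← pow_mod_orderOf y 1]
      exact congrArg (fun k => y ^ k) h1
    rw [pow_one] at h2
    exact hy _ (Nat.totient_pos.2 hpos) h2
  obtain ⟨l, hl, h1, h2⟩ := Nat.Prime.not_coprime_iff_dvd.1 hnc
  exact ⟨l, hl, h1, h2⟩

/-- iterated roots of a root of unity of order divisible by `l` -/
theorem dvd_orderOf_root {L : Type*} [Field L] {d l : ℕ} (hld : l ∣ d) (hd : d ≠ 0)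
    (y : L) (hy : l ∣ orderOf y) : ∀ (N : ℕ) (r : L), r ^ (d ^ N) = y → l ^ (N + 1) ∣ orderOf r := by
  intro N
  induction N with
  | zero =>
    intro r hr
    rw [pow_zero, pow_one] at hr
    rw [zero_add, pow_one, hr]
    exact hy
  | succ N ih =>
    intro r hr
    have h1 : (r ^ d) ^ (d ^ N) = y := by rw [← pow_mul, ← pow_succ', hr]
    have h2 := ih (r ^ d) h1
    have h3 : orderOf (r ^ d) = orderOf r / Nat.gcd (orderOf r) d := orderOf_pow' r hd
    have h4 : orderOf (r ^ d) * Nat.gcd (orderOf r) d = orderOf r := by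
      rw [h3]
      exact Nat.div_mul_cancel (Nat.gcd_dvd_left _ _)
    have h5 : l ∣ orderOf (r ^ d) := dvd_trans (dvd_pow_self l (by omega)) h2
    have h6 : l ∣ orderOf r := by
      rw [← h4]
      exact dvd_mul_of_dvd_left h5 _
    have h7 : l ∣ Nat.gcd (orderOf r) d := Nat.dvd_gcd h6 hld
    rw [pow_succ, ← h4]
    exact mul_dvd_mul h2 h7

/-- primitive roots of orders `a i` give one of order `lcm` -/
theorem exists_primitive_lcm {L : Type*} [Field L] {ι : Type*} (s : Finset ι) (a : ι → ℕ)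
    (ha : ∀ i ∈ s, a i ≠ 0) (h : ∀ i ∈ s, ∃ ζ : L, IsPrimitiveRoot ζ (a i)) :
    ∃ ζ : L, IsPrimitiveRoot ζ (s.lcm a) := by
  classical
  induction s using Finset.induction_on with
  | empty => exact ⟨1, by rw [Finset.lcm_empty]; exact IsPrimitiveRoot.one⟩
  | insert i s hi ih =>
    obtain ⟨ζ, hζ⟩ := h i (Finset.mem_insert_self _ _)
    obtain ⟨ζ', hζ'⟩ := ih (fun j hj => ha j (Finset.mem_insert_of_mem hj))
      (fun j hj => h j (Finset.mem_insert_of_mem hj))
    rw [Finset.lcm_insert]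
    have h0 : s.lcm a ≠ 0 := by
      rw [Ne, Finset.lcm_eq_zero_iff]
      rintro ⟨j, hj, hj0⟩
      exact ha j (Finset.mem_insert_of_mem hj) hj0
    exact ⟨_, hζ.pow_mul_pow_lcm hζ' (ha i (Finset.mem_insert_self _ _)) h0⟩

/-- a splitting field of `X ^ m - y` contains the `m`-th roots of unity -/
theorem exists_primitive_of_splits {K : Type*} [Field K] {L : Type*} [Field L] [CharZero L]
    (φ : K →+* L) {m : ℕ} (hm : 0 < m) {y : K} (hy : y ≠ 0)
    (h : ((X ^ m - C y : K[X]).map φ).Splits) : ∃ ζ : L, IsPrimitiveRoot ζ m := by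
  have h1 := splits_X_pow_sub_one_of_X_pow_sub_C φ m hy h
  rw [Polynomial.map_sub, Polynomial.map_pow, map_X, Polynomial.map_one] at h1
  have : NeZero m := ⟨hm.ne'⟩
  have hne : (X ^ m - 1 : L[X]) ≠ 0 := by
    have := X_pow_sub_C_ne_zero hm (1 : L)
    rwa [C_1] at this
  have h2 : (cyclotomic m L).Splits := h1.of_dvd hne (cyclotomic.dvd_X_pow_sub_one m L)
  obtain ⟨ζ, hζ⟩ := Splits.exists_eval_eq_zero h2 (degree_cyclotomic_pos m L hm).ne'
  have : NeZero (m : L) := ⟨by exact_mod_cast hm.ne'⟩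
  exact ⟨ζ, isRoot_cyclotomic_iff.1 hζ⟩

/-- degree of a root of unity over a number field -/
theorem totient_le_finrank {K2 L : Type*} [Field K2] [NumberField K2] [Field L] [NumberField L]
    [Algebra K2 L] {η : L} {m : ℕ} (hm : 0 < m) (hη : IsPrimitiveRoot η m) :
    Nat.totient m ≤ Module.finrank ℚ K2 * Module.finrank K2 (IntermediateField.adjoin K2 {η}) := by
  have h1 : Module.finrank ℚ (IntermediateField.adjoin K2 {η}) =
      Module.finrank ℚ K2 * Module.finrank K2 (IntermediateField.adjoin K2 {η}) :=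
    (Module.finrank_mul_finrank ℚ K2 (IntermediateField.adjoin K2 {η})).symm
  have h2 : (minpoly ℚ η).natDegree = Nat.totient m := by
    rw [← cyclotomic_eq_minpoly_rat hη hm, natDegree_cyclotomic]
  set η' : IntermediateField.adjoin K2 {η} := IntermediateField.AdjoinSimple.gen K2 η with hη'
  have h3 : minpoly ℚ η' = minpoly ℚ η := by
    have h4 : algebraMap (IntermediateField.adjoin K2 {η}) L η' = η :=
      IntermediateField.AdjoinSimple.algebraMap_gen K2 η
    have h5 := minpoly.algebraMap_eq (A := ℚ) (algebraMap (IntermediateField.adjoin K2 {η}) L).injective η'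
    rw [h4] at h5
    exact h5.symm
  rw [← h1, ← h2, ← h3]
  exact minpoly.natDegree_le η'

/-- an automorphism fixing `x` fixes the field generated by `x` -/
theorem mem_fixingSubgroup_adjoin {K2 L : Type*} [Field K2] [Field L] [Algebra K2 L] (x : L)
    (σ : L ≃ₐ[K2] L) (h : σ x = x) : σ ∈ (IntermediateField.adjoin K2 {x}).fixingSubgroup := by
  rw [IntermediateField.mem_fixingSubgroup_iff]
  intro z hz
  induction hz using IntermediateField.adjoin_induction with
  | mem x hx => rw [Set.mem_singleton_iff.1 hx]; exact h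
  | algebraMap a => exact σ.commutes a
  | add a b _ _ ha hb => rw [map_add, ha, hb]
  | inv a _ ha => rw [map_inv₀, ha]
  | mul a b _ _ ha hb => rw [map_mul, ha, hb]

/-- power maps: an automorphism moving all roots of high level -/
theorem kummer {K : Type u} [Field K] [NumberField K] {ι : Type*} [Finite ι] (d : ι → ℕ)
    (hd : ∀ i, 2 ≤ d i) (y : ι → K) (hy0 : ∀ i, y i ≠ 0)
    (hy : ∀ i m, 1 ≤ m → y i ^ (d i ^ m) ≠ y i) :
    ∃ N0 : ℕ, ∀ N, N0 ≤ N → ∀ (L : Type v) [Field L] [NumberField L] [Algebra K L] [IsGalois K L],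
      (∀ i, ((X ^ (d i ^ N) - C (y i) : K[X]).map (algebraMap K L)).Splits) →
      ∃ σ : L ≃ₐ[K] L, ∀ i (r : L), r ^ (d i ^ N) = algebraMap K L (y i) → σ r ≠ r := by
  classical
  have := Fintype.ofFinite ι
  set g := Fintype.card ι with hg
  -- the primes
  have hl : ∀ i, ∃ l : ℕ, l.Prime ∧ l ∣ d i ∧ ((∃ n, 0 < n ∧ y i ^ n = 1) → l ∣ orderOf (y i)) := by
    intro i
    by_cases ht : ∃ n, 0 < n ∧ y i ^ n = 1
    · obtain ⟨l, h1, h2, h3⟩ := exists_prime_of_torsion ht (hy i)
      exact ⟨l, h1, h2, fun _ => h3⟩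
    · exact ⟨(d i).minFac, Nat.minFac_prime (by have := hd i; omega), Nat.minFac_dvd _,
        fun h => absurd h ht⟩
  choose l hlp hld hlt using hl
  -- the exponent
  have hM : ∃ M : ℕ, ∀ i, (¬ ∃ n, 0 < n ∧ y i ^ n = 1) → ∀ t, 1 ≤ t → t ≤ g →
      ∀ n : ℕ, 0 < n → l i ^ M ∣ n → ∀ (E : Type v) [Field E] [Algebra K E]
        [IsCyclotomicExtension {n} K E] (s : E), s ^ (l i ^ M) ≠ algebraMap K E (y i ^ t) := by
    have h1 : ∀ i : ι, ∀ t : ℕ, ∃ M0 : ℕ, (¬ ∃ n, 0 < n ∧ y i ^ n = 1) → 1 ≤ t → ∀ M, M0 ≤ M →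
        ∀ n : ℕ, 0 < n → l i ^ M ∣ n → ∀ (E : Type v) [Field E] [Algebra K E]
        [IsCyclotomicExtension {n} K E] (s : E), s ^ (l i ^ M) ≠ algebraMap K E (y i ^ t) := by
      intro i t
      by_cases hi : ∃ n, 0 < n ∧ y i ^ n = 1
      · exact ⟨0, fun h => absurd hi h⟩
      by_cases ht : 1 ≤ t
      · obtain ⟨M0, hM0⟩ := not_power_cyclo.{u, v} (y i ^ t) (pow_ne_zero _ (hy0 i)) (by
          intro n hn h
          rw [← pow_mul] at h
          exact hi ⟨t * n, Nat.mul_pos ht hn, h⟩) (hlp i)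
        exact ⟨M0, fun _ _ => hM0⟩
      · exact ⟨0, fun _ h => absurd h ht⟩
    choose M0 hM0 using h1
    refine ⟨Finset.univ.sup fun i => (Finset.range (g + 1)).sup (M0 i), ?_⟩
    intro i hi t ht htg
    refine hM0 i t hi ht _ ?_
    exact le_trans (Finset.le_sup (f := M0 i) (Finset.mem_range.2 (by omega)))
      (Finset.le_sup (f := fun i => (Finset.range (g + 1)).sup (M0 i)) (Finset.mem_univ i))
  obtain ⟨M, hM⟩ := hM
  set I : Finset ι := Finset.univ.filter fun i => ¬ ∃ n, 0 < n ∧ y i ^ n = 1 with hI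
  set n : ℕ := I.lcm fun i => l i ^ M with hn
  have hn0 : n ≠ 0 := by
    rw [hn, Ne, Finset.lcm_eq_zero_iff]
    rintro ⟨j, hj, hj0⟩
    exact (Nat.pow_pos (hlp j).pos).ne' hj0
  set c : ℕ := g * (Module.finrank ℚ K * n) + 1 with hc
  refine ⟨max M c, ?_⟩
  intro N hN L _ _ _ _ hsp
  have hMN : M ≤ N := le_trans (le_max_left _ _) hN
  have hcN : c ≤ N := le_trans (le_max_right _ _) hN
  have hdpos : ∀ i, 0 < d i ^ N := fun i => Nat.pow_pos (by have := hd i; omega)
  -- roots
  have hroot : ∀ i, ∃ r : L, r ^ (d i ^ N) = algebraMap K L (y i) := by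
    intro i
    obtain ⟨r, hr⟩ := Splits.exists_eval_eq_zero (hsp i) (by
      rw [degree_map, degree_X_pow_sub_C (hdpos i)]
      exact_mod_cast (hdpos i).ne')
    refine ⟨r, ?_⟩
    rw [Polynomial.map_sub, Polynomial.map_pow, map_X, map_C, eval_sub, eval_pow, eval_X, eval_C,
      sub_eq_zero] at hr
    exact hr
  choose r hr using hroot
  -- roots of unity
  obtain ⟨ζ, hζ⟩ : ∃ ζ : L, IsPrimitiveRoot ζ n := by
    refine exists_primitive_lcm I _ (fun i _ => (Nat.pow_pos (hlp i).pos).ne') (fun i _ => ?_)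
    obtain ⟨ω, hω⟩ := exists_primitive_of_splits (algebraMap K L) (hdpos i) (hy0 i) (hsp i)
    obtain ⟨k, hk⟩ : l i ^ M ∣ d i ^ N := (pow_dvd_pow_of_dvd (hld i) M).trans (pow_dvd_pow _ hMN)
    exact ⟨ω ^ k, hω.pow (hdpos i) (by rw [hk, mul_comm])⟩
  set K2 : IntermediateField K L := IntermediateField.adjoin K {ζ} with hK2
  have : NeZero n := ⟨hn0⟩
  have hcyc : IsCyclotomicExtension {n} K K2 := hζ.intermediateField_adjoin_isCyclotomicExtension K
  have hζ2 : ζ ∈ K2 := IntermediateField.mem_adjoin_simple_self K ζ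
  have hNF : NumberField K2 := NumberField.of_module_finite K K2
  -- degree of `K2`
  have hdeg : Module.finrank K K2 ≤ n := by
    rw [hK2, IntermediateField.adjoin.finrank (Algebra.IsIntegral.isIntegral ζ)]
    have h1 : minpoly K ζ ∣ X ^ n - 1 := by
      apply minpoly.dvd
      rw [map_sub, map_pow, aeval_X, map_one, hζ.pow_eq_one, sub_self]
    have h2 : (X ^ n - 1 : K[X]) ≠ 0 := by
      have := X_pow_sub_C_ne_zero (Nat.pos_of_ne_zero hn0) (1 : K)
      rwa [C_1] at this
    refine (natDegree_le_of_dvd h1 h2).trans ?_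
    have := natDegree_X_pow_sub_C (n := n) (r := (1 : K))
    rw [C_1] at this
    exact this.le
  have hμ : ∀ (σ : L ≃ₐ[K2] L) (z : L), z ^ n = 1 → σ z = z := by
    intro σ z hz
    obtain ⟨j, -, hj⟩ := hζ.eq_pow_of_pow_eq_one hz
    have h1 : σ ζ = ζ := σ.commutes ⟨ζ, hζ2⟩
    rw [← hj, map_pow, h1]
  -- the elements
  have hx : ∀ i, ∃ x : L, g < Module.finrank K2 (IntermediateField.adjoin K2 {x}) ∧
      ∀ (σ : L ≃ₐ[K2] L) (s : L), s ^ (d i ^ N) = algebraMap K L (y i) → σ s = s → σ x = x := by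
    intro i
    by_cases hi : ∃ n, 0 < n ∧ y i ^ n = 1
    · -- roots of unity
      have hyo : orderOf (algebraMap K L (y i)) = orderOf (y i) :=
        orderOf_injective (algebraMap K L : K →* L) (algebraMap K L).injective (y i)
      have hdvd : ∀ s : L, s ^ (d i ^ N) = algebraMap K L (y i) → ∃ k, IsPrimitiveRoot (s ^ k) (l i ^ c) := by
        intro s hs
        have h1 := dvd_orderOf_root (hld i) (by have := hd i; omega) (algebraMap K L (y i))
          (by rw [hyo]; exact hlt i hi) N s hs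
        have h2 : l i ^ c ∣ orderOf s := dvd_trans (pow_dvd_pow _ (by omega)) h1
        obtain ⟨k, hk⟩ := h2
        have h3 : 0 < orderOf s := by
          obtain ⟨n1, hn1, hn2⟩ := hi
          refine orderOf_pos_iff.2 (isOfFinOrder_iff_pow_eq_one.2 ⟨d i ^ N * n1, Nat.mul_pos (hdpos i) hn1, ?_⟩)
          rw [pow_mul, hs, ← map_pow, hn2, map_one]
        exact ⟨k, (IsPrimitiveRoot.orderOf s).pow h3 (by rw [hk, mul_comm])⟩
      obtain ⟨k, hk⟩ := hdvd (r i) (hr i)
      refine ⟨r i ^ k, ?_, ?_⟩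
      · by_contra hle
        rw [not_lt] at hle
        have h1 := totient_le_finrank (K2 := K2) (Nat.pow_pos (hlp i).pos) hk
        have h2 : Module.finrank ℚ K2 = Module.finrank ℚ K * Module.finrank K K2 :=
          (Module.finrank_mul_finrank ℚ K K2).symm
        rw [h2] at h1
        have h3 : Module.finrank ℚ K * Module.finrank K K2 * Module.finrank K2
            (IntermediateField.adjoin K2 {r i ^ k}) ≤ Module.finrank ℚ K * n * g :=
          Nat.mul_le_mul (Nat.mul_le_mul_left _ hdeg) hle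
        have h4 : 2 ^ (c - 1) ≤ Nat.totient (l i ^ c) := by
          rw [Nat.totient_prime_pow (hlp i) (by omega)]
          calc 2 ^ (c - 1) ≤ l i ^ (c - 1) * 1 := by
                rw [mul_one]
                exact Nat.pow_le_pow_left (hlp i).two_le _
            _ ≤ l i ^ (c - 1) * (l i - 1) := Nat.mul_le_mul_left _ (by have := (hlp i).two_le; omega)
        have h5 : c - 1 < 2 ^ (c - 1) := Nat.lt_two_pow_self
        have h6 : c - 1 = Module.finrank ℚ K * n * g := by rw [hc, Nat.add_sub_cancel, mul_comm]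
        omega
      · intro σ s hs hσ
        obtain ⟨k', hk'⟩ := hdvd s hs
        have : NeZero (l i ^ c) := ⟨(Nat.pow_pos (hlp i).pos).ne'⟩
        obtain ⟨j, -, hj⟩ := hk'.eq_pow_of_pow_eq_one (ξ := r i ^ k) hk.pow_eq_one
        rw [← hj, map_pow, map_pow, hσ]
    · -- infinite order
      obtain ⟨k, hk⟩ : l i ^ M ∣ d i ^ N := (pow_dvd_pow_of_dvd (hld i) M).trans (pow_dvd_pow _ hMN)
      have hlM : l i ^ M ∣ n := Finset.dvd_lcm (Finset.mem_filter.2 ⟨Finset.mem_univ i, hi⟩)
      have hpow : ∀ s : L, s ^ (d i ^ N) = algebraMap K L (y i) → (s ^ k) ^ (l i ^ M) = algebraMap K L (y i) := by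
        intro s hs
        rw [← pow_mul, mul_comm, ← hk, hs]
      refine ⟨r i ^ k, ?_, ?_⟩
      · by_contra hle
        rw [not_lt] at hle
        set E := IntermediateField.adjoin K2 {r i ^ k} with hE
        set x' : E := IntermediateField.AdjoinSimple.gen K2 (r i ^ k) with hx'
        have h1 : x' ^ (l i ^ M) = algebraMap K2 E (algebraMap K K2 (y i)) := by
          apply (algebraMap E L).injective
          have h2 : algebraMap E L x' = r i ^ k := IntermediateField.AdjoinSimple.algebraMap_gen K2 _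
          rw [map_pow, h2, hpow (r i) (hr i)]
          rfl
        have h3 := congrArg (Algebra.norm K2) h1
        have h4 : (algebraMap K K2 (y i)) ^ Module.finrank K2 E =
            algebraMap K K2 (y i ^ Module.finrank K2 E) := (map_pow _ _ _).symm
        rw [map_pow, Algebra.norm_algebraMap, h4] at h3
        exact hM i hi (Module.finrank K2 E) Module.finrank_pos hle n (Nat.pos_of_ne_zero hn0) hlM K2 _ h3
      · intro σ s hs hσ
        have hs0 : s ≠ 0 := by
          intro h0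
          rw [h0, zero_pow (hdpos i).ne'] at hs
          exact hy0 i ((map_eq_zero (algebraMap K L)).1 hs.symm)
        have h1 : (r i ^ k / s ^ k) ^ n = 1 := by
          obtain ⟨j, hj⟩ := hlM
          rw [hj, pow_mul, div_pow, hpow _ (hr i), hpow _ hs, div_self, one_pow]
          exact (map_ne_zero (algebraMap K L)).2 (hy0 i)
        have h2 := hμ σ _ h1
        have h3 : r i ^ k = (r i ^ k / s ^ k) * s ^ k := (div_mul_cancel₀ _ (pow_ne_zero _ hs0)).symm
        rw [h3, map_mul, h2, map_pow, hσ]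
  choose x hxg hxσ using hx
  obtain ⟨σ, hσ⟩ := exists_not_mem_union (H := L ≃ₐ[K2] L)
    (fun i => (IntermediateField.adjoin K2 {x i}).fixingSubgroup) (fun i => by
      rw [← IntermediateField.finrank_eq_fixingSubgroup_index]
      exact hxg i)
  refine ⟨σ.restrictScalars K, fun i s hs hσs => hσ i ?_⟩
  exact mem_fixingSubgroup_adjoin _ _ (hxσ i σ s hs hσs)

end Pool.Agent.ORB
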