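import Pool.Agent.ORB.Emb
import Pool.Agent.ORB.IdealBox
import Pool.Agent.ORB.PrimeSums
import Pool.Agent.ORB.Analytic

/-! ORB, M1d: Mertens theorem for number fields. -/

namespace Pool.Agent.ORB

open NumberField Module

variable {M : Type*} [Field M] [NumberField M]

/-- interchange of summation -/
theorem sum_box_P1 (X Y : ℕ) (g : Ideal (𝓞 M) → ℝ) :
    (by classical exact ∑ v ∈ (box M X).erase 0, ∑ Q ∈ (P1 M Y).filter (fun Q => el v ∈ Q), g Q) =
      ∑ Q ∈ P1 M Y, g Q * ((cnt Q X : ℝ) - 1) := by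
  classical
  have h1 : ∀ v : Idx M → ℤ, ∑ Q ∈ (P1 M Y).filter (fun Q => el v ∈ Q), g Q =
      ∑ Q ∈ P1 M Y, if el v ∈ Q then g Q else 0 := fun v => Finset.sum_filter _ _
  simp only [h1]
  rw [Finset.sum_comm]
  refine Finset.sum_congr rfl (fun Q _ => ?_)
  rw [← Finset.sum_filter, Finset.sum_const, nsmul_eq_mul, mul_comm]
  congr 1
  have h2 : ((box M X).erase 0).filter (fun v => el v ∈ Q) =
      ((box M X).filter (fun v => el v ∈ Q)).erase 0 := by
    ext v; simp only [Finset.mem_filter, Finset.mem_erase]; tauto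
  have h3 : (0 : Idx M → ℤ) ∈ (box M X).filter (fun v => el v ∈ Q) := by
    rw [Finset.mem_filter]
    exact ⟨zero_mem_box X, by rw [el_zero]; exact Q.zero_mem⟩
  rw [h2, Finset.card_erase_of_mem h3, cnt]
  have h4 : 1 ≤ ((box M X).filter (fun v => el v ∈ Q)).card := Finset.card_pos.2 ⟨0, h3⟩
  push_cast [Nat.cast_sub h4]
  rfl

theorem sum_box_PP (X Y : ℕ) (g : Ideal (𝓞 M) × ℕ → ℝ) (hg : ∀ q, 0 ≤ g q) :
    (by classical exact ∑ v ∈ (box M X).erase 0,
      ∑ q ∈ (PP M Y).filter (fun q => el v ∈ q.1 ^ q.2), g q) ≤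
      ∑ q ∈ PP M Y, g q * (cnt (q.1 ^ q.2) X : ℝ) := by
  classical
  have h1 : ∀ v : Idx M → ℤ, ∑ q ∈ (PP M Y).filter (fun q => el v ∈ q.1 ^ q.2), g q =
      ∑ q ∈ PP M Y, if el v ∈ q.1 ^ q.2 then g q else 0 := fun v => Finset.sum_filter _ _
  simp only [h1]
  rw [Finset.sum_comm]
  refine Finset.sum_le_sum (fun q _ => ?_)
  rw [← Finset.sum_filter, Finset.sum_const, nsmul_eq_mul, mul_comm]
  refine mul_le_mul_of_nonneg_left ?_ (hg q)
  rw [cnt]
  exact_mod_cast Finset.card_le_card (Finset.filter_subset_filter _ (Finset.erase_subset _ _))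

theorem pow_sub_ge {a b : ℝ} (hb : 0 ≤ b) (hab : b ≤ a) (n : ℕ) :
    a ^ n - n * b * a ^ (n - 1) ≤ (a - b) ^ n := by
  induction n with
  | zero => simp
  | succ n ih =>
    have ha : 0 ≤ a := le_trans hb hab
    have h1 : 0 ≤ a - b := by linarith
    have h2 := mul_le_mul_of_nonneg_right ih h1
    rw [pow_succ (a - b)]
    refine le_trans ?_ h2
    rcases Nat.eq_zero_or_pos n with hn | hn
    · subst hn; simp
    · have h3 : a ^ n = a ^ (n - 1) * a := by rw [← pow_succ]; congr 1; omega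
      have h4 : 0 ≤ (n : ℝ) * b * a ^ (n - 1) * b := by positivity
      push_cast
      rw [pow_succ, h3]
      nlinarith

theorem pow_add_le {a b c : ℝ} (ha : 0 ≤ a) (hb : 0 ≤ b) (hc : a + b ≤ c) (n : ℕ) :
    (a + b) ^ n ≤ a ^ n + n * b * c ^ (n - 1) := by
  induction n with
  | zero => simp
  | succ n ih =>
    have hc0 : 0 ≤ c := by linarith
    rw [pow_succ]
    have h1 := mul_le_mul_of_nonneg_right ih (by linarith : (0:ℝ) ≤ a + b)
    refine le_trans h1 ?_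
    rcases Nat.eq_zero_or_pos n with hn | hn
    · subst hn; simp
    · have h3 : c ^ n = c ^ (n - 1) * c := by rw [← pow_succ]; congr 1; omega
      have h4 : a ^ n ≤ c ^ n := pow_le_pow_left₀ ha (by linarith) n
      have h5 : (n : ℝ) * b * c ^ (n - 1) * (a + b) ≤ (n : ℝ) * b * c ^ (n - 1) * c :=
        mul_le_mul_of_nonneg_left hc (by positivity)
      have h6 : a ^ n * b ≤ c ^ n * b := mul_le_mul_of_nonneg_right h4 hb
      push_cast
      rw [h3, pow_succ a]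
      rw [h3] at h6
      nlinarith

/-- the size of the representatives modulo `I` -/
theorem exists_kk (M : Type*) [Field M] [NumberField M] : ∃ C : ℕ, 1 ≤ C ∧
    ∃ kk : Ideal (𝓞 M) → ℕ, ∀ I : Ideal (𝓞 M), I ≠ ⊥ → 1 ≤ kk I ∧ kk I ^ deg M ≤ Ideal.absNorm I ∧
      ∀ y : 𝓞 M, ∃ r ∈ box M (C * kk I), y - el r ∈ I := by
  classical
  obtain ⟨C, hC, h⟩ := exists_reps M
  refine ⟨C, hC, fun I => if hI : I ≠ ⊥ then (h I hI).choose else 0, ?_⟩
  intro I hI
  simp only [dif_pos hI]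
  exact (h I hI).choose_spec

theorem ne_bot_of_mem_P1 {Y : ℕ} {Q : Ideal (𝓞 M)} (h : Q ∈ P1 M Y) : Q ≠ ⊥ := by
  intro h0
  have := (mem_P1.1 h).2.1
  rw [h0, Ideal.absNorm_bot] at this
  exact Nat.not_prime_zero this

theorem sum_kk_le (M : Type*) [Field M] [NumberField M] (kk : Ideal (𝓞 M) → ℕ)
    (hkk : ∀ I : Ideal (𝓞 M), I ≠ ⊥ → kk I ^ deg M ≤ Ideal.absNorm I) :
    ∃ C : ℝ, 0 ≤ C ∧ ∀ Y K : ℕ, Y < (K + 1) ^ deg M →
      ∑ Q ∈ P1 M Y, Real.log (Ideal.absNorm Q) / (Ideal.absNorm Q : ℝ) * kk Q ≤ C * (K + 1) := by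
  have hn : (0 : ℝ) < deg M := by exact_mod_cast deg_pos
  have hn1 : (1 : ℝ) ≤ deg M := by exact_mod_cast deg_pos
  set s : ℝ := 1 / deg M with hs
  have hs0 : 0 < s := by positivity
  have hs1 : s ≤ 1 := by rw [hs, div_le_one hn]; exact hn1
  refine ⟨deg M * (Real.log 4 / s), by have := Real.log_nonneg (show (1:ℝ) ≤ 4 by norm_num); positivity, ?_⟩
  intro Y K hYK
  have h1 : ∑ Q ∈ P1 M Y, Real.log (Ideal.absNorm Q) / (Ideal.absNorm Q : ℝ) * kk Q ≤
      ∑ Q ∈ P1 M Y, (fun m : ℕ => Real.log m * (m : ℝ) ^ (s - 1)) (Ideal.absNorm Q) := by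
    refine Finset.sum_le_sum (fun Q hQ => ?_)
    have hQ0 := ne_bot_of_mem_P1 hQ
    have hpos : 0 < Ideal.absNorm Q := (mem_P1.1 hQ).2.1.pos
    have hpos' : (0 : ℝ) < Ideal.absNorm Q := by exact_mod_cast hpos
    have h2 : (kk Q : ℝ) ≤ (Ideal.absNorm Q : ℝ) ^ s := by
      have h3 : (kk Q : ℝ) ^ (deg M : ℕ) ≤ (Ideal.absNorm Q : ℝ) := by exact_mod_cast hkk Q hQ0
      have h4 : ((kk Q : ℝ) ^ (deg M : ℕ)) ^ s = kk Q := by
        rw [hs, ← Real.rpow_natCast, ← Real.rpow_mul (by positivity)]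
        rw [mul_one_div_cancel hn.ne', Real.rpow_one]
      rw [← h4]
      exact Real.rpow_le_rpow (by positivity) h3 hs0.le
    simp only
    rw [Real.rpow_sub hpos', Real.rpow_one]
    have h5 : 0 ≤ Real.log (Ideal.absNorm Q : ℝ) := Real.log_natCast_nonneg _
    calc Real.log (Ideal.absNorm Q) / (Ideal.absNorm Q : ℝ) * kk Q
        ≤ Real.log (Ideal.absNorm Q) / (Ideal.absNorm Q : ℝ) * (Ideal.absNorm Q : ℝ) ^ s := by gcongr
      _ = _ := by ring
  refine le_trans h1 (le_trans (sum_P1_le (fun m : ℕ => Real.log m * (m : ℝ) ^ (s - 1)) (fun m => by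
    have := Real.log_natCast_nonneg m; positivity) Y) ?_)
  rw [mul_assoc]
  refine mul_le_mul_of_nonneg_left ?_ hn.le
  refine le_trans (sum_prime_rpow_le hs0 hs1 Y) ?_
  refine mul_le_mul_of_nonneg_left ?_ (by have := Real.log_nonneg (show (1:ℝ) ≤ 4 by norm_num); positivity)
  have h6 : (Y : ℝ) ≤ ((K : ℝ) + 1) ^ (deg M : ℕ) := by exact_mod_cast hYK.le
  calc (Y : ℝ) ^ s ≤ (((K : ℝ) + 1) ^ (deg M : ℕ)) ^ s := Real.rpow_le_rpow (by positivity) h6 hs0.le
    _ = (K : ℝ) + 1 := by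
      rw [hs, ← Real.rpow_natCast, ← Real.rpow_mul (by positivity)]
      rw [mul_one_div_cancel hn.ne', Real.rpow_one]

theorem sum_log_P1_le (Y : ℕ) : ∑ Q ∈ P1 M Y, Real.log (Ideal.absNorm Q) ≤ deg M * (Real.log 4 * Y) := by
  refine le_trans (sum_P1_le (fun m => Real.log m) (fun m => Real.log_natCast_nonneg m) Y) ?_
  exact mul_le_mul_of_nonneg_left (sum_log_prime_le Y) (by positivity)

/-- upper bound in Mertens theorem -/
theorem mertens_upper (M : Type*) [Field M] [NumberField M] : ∃ C : ℝ, ∀ Y : ℕ, 1 ≤ Y →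
    ∑ Q ∈ P1 M Y, Real.log (Ideal.absNorm Q) / (Ideal.absNorm Q : ℝ) ≤ Real.log Y + C := by
  classical
  have hn := deg_pos (M := M)
  obtain ⟨Chi, hhi⟩ := sum_log_upper M
  obtain ⟨C2, hC2, kk, hkk⟩ := exists_kk M
  obtain ⟨C3, hC3, hW⟩ := sum_kk_le M kk (fun I hI => (hkk I hI).2.1)
  refine ⟨deg M * Real.log C2 + Chi + deg M * Real.log 4 + deg M * C3 * 2, ?_⟩
  intro Y hY
  obtain ⟨K, hK1, hK2, hK3, hK4⟩ := exists_root hn Y hY
  set X := C2 * K with hX
  have hX1 : 1 ≤ X := Nat.mul_pos hC2 hK1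
  set a : ℝ := 2 * X + 1 with ha
  have ha0 : 0 < a := by positivity
  have ha1 : (1 : ℝ) ≤ a := by rw [ha]; have : (0:ℝ) ≤ X := by positivity
                               linarith
  set A := ∑ Q ∈ P1 M Y, Real.log (Ideal.absNorm Q) / (Ideal.absNorm Q : ℝ) with hA
  -- number of points
  have hcnt : ∀ Q ∈ P1 M Y, a ^ deg M - deg M * (2 * (C2 * kk Q : ℕ)) * a ^ (deg M - 1) ≤
      (Ideal.absNorm Q : ℝ) * cnt Q X := by
    intro Q hQ
    have hQ0 := ne_bot_of_mem_P1 hQ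
    obtain ⟨h1, h2, h3⟩ := hkk Q hQ0
    have hD : C2 * kk Q ≤ X := by
      rw [hX]
      exact Nat.mul_le_mul_left _ (hK4 _ (le_trans h2 (mem_P1.1 hQ).2.2))
    have h4 := cnt_lower hQ0 h3 hD
    have h5 : (((2 * (X - C2 * kk Q) + 1) ^ deg M : ℕ) : ℝ) ≤ ((Ideal.absNorm Q * cnt Q X : ℕ) : ℝ) := by
      exact_mod_cast h4
    push_cast [Nat.cast_sub hD] at h5
    refine le_trans ?_ h5
    have hD' : ((C2 * kk Q : ℕ) : ℝ) ≤ X := by exact_mod_cast hD
    have h6 := pow_sub_ge (a := a) (b := 2 * (C2 * kk Q : ℕ)) (by positivity) (by rw [ha]; linarith) (deg M)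
    refine le_trans h6 (le_of_eq ?_)
    congr 1
    rw [ha]; push_cast; ring
  -- the main inequality
  have hmain : a ^ deg M * A - (deg M * (2 * C2) * a ^ (deg M - 1)) *
      (∑ Q ∈ P1 M Y, Real.log (Ideal.absNorm Q) / (Ideal.absNorm Q : ℝ) * kk Q) ≤
      ∑ Q ∈ P1 M Y, Real.log (Ideal.absNorm Q) * (cnt Q X : ℝ) := by
    rw [hA, Finset.mul_sum, Finset.mul_sum, ← Finset.sum_sub_distrib]
    refine Finset.sum_le_sum (fun Q hQ => ?_)
    have hpos : (0 : ℝ) < Ideal.absNorm Q := by exact_mod_cast (mem_P1.1 hQ).2.1.pos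
    have h1 := mul_le_mul_of_nonneg_left (hcnt Q hQ)
      (div_nonneg (Real.log_natCast_nonneg (Ideal.absNorm Q)) hpos.le)
    refine le_trans (le_of_eq ?_) (le_trans h1 (le_of_eq ?_))
    · push_cast; ring
    · field_simp
  have hup : ∑ Q ∈ P1 M Y, Real.log (Ideal.absNorm Q) * ((cnt Q X : ℝ) - 1) ≤
      a ^ deg M * (deg M * Real.log X + Chi) := by
    rw [← sum_box_P1]
    refine le_trans (Finset.sum_le_sum (fun v hv => ?_)) (hhi X hX1)
    exact log_nrm_ge (Finset.ne_of_mem_erase hv) Y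
  have hT := sum_log_P1_le (M := M) Y
  have hsplit : ∑ Q ∈ P1 M Y, Real.log (Ideal.absNorm Q) * ((cnt Q X : ℝ) - 1) =
      ∑ Q ∈ P1 M Y, Real.log (Ideal.absNorm Q) * (cnt Q X : ℝ) -
        ∑ Q ∈ P1 M Y, Real.log (Ideal.absNorm Q) := by
    rw [← Finset.sum_sub_distrib]
    exact Finset.sum_congr rfl (fun Q _ => by ring)
  have hWY := hW Y K hK3
  have hYa : (Y : ℝ) ≤ a ^ deg M := by
    have h1 : (Y : ℝ) ≤ ((K : ℝ) + 1) ^ deg M := by exact_mod_cast hK3.le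
    refine le_trans h1 (pow_le_pow_left₀ (by positivity) ?_ _)
    have h2 : (K : ℝ) ≤ X := by
      rw [hX]; exact_mod_cast Nat.le_mul_of_pos_left K hC2
    have h3 : (0 : ℝ) ≤ K := by positivity
    rw [ha]; linarith
  have hK1' : (1 : ℝ) ≤ K := by exact_mod_cast hK1
  have hKX : (C2 : ℝ) * (K + 1) ≤ a := by
    have h1 : (X : ℝ) = C2 * K := by rw [hX]; push_cast; ring
    have h2 : (1 : ℝ) ≤ C2 := by exact_mod_cast hC2
    rw [ha, h1]; nlinarith
  have hpowa : a ^ (deg M - 1) * a = a ^ deg M := by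
    rw [← pow_succ]; congr 1; omega
  have hWa : (deg M * (2 * C2) * a ^ (deg M - 1)) *
      (∑ Q ∈ P1 M Y, Real.log (Ideal.absNorm Q) / (Ideal.absNorm Q : ℝ) * kk Q) ≤
      (deg M * C3 * 2) * a ^ deg M := by
    calc _ ≤ (deg M * (2 * C2) * a ^ (deg M - 1)) * (C3 * (K + 1)) := by gcongr
      _ = (deg M * C3 * 2) * (a ^ (deg M - 1) * (C2 * (K + 1))) := by ring
      _ ≤ (deg M * C3 * 2) * (a ^ (deg M - 1) * a) := by gcongr
      _ = _ := by rw [hpowa]
  have hlog4 : 0 ≤ Real.log 4 := Real.log_nonneg (by norm_num)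
  have hTa : ∑ Q ∈ P1 M Y, Real.log (Ideal.absNorm Q) ≤ (deg M * Real.log 4) * a ^ deg M := by
    refine le_trans hT ?_
    calc (deg M : ℝ) * (Real.log 4 * Y) ≤ deg M * (Real.log 4 * a ^ deg M) := by gcongr
      _ = _ := by ring
  have hfin : a ^ deg M * A ≤ a ^ deg M * (deg M * Real.log X + Chi + deg M * Real.log 4 + deg M * C3 * 2) := by
    nlinarith
  have hA2 : A ≤ deg M * Real.log X + Chi + deg M * Real.log 4 + deg M * C3 * 2 :=
    le_of_mul_le_mul_left hfin (by positivity)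
  have hlogX : deg M * Real.log X ≤ deg M * Real.log C2 + Real.log Y := by
    have h1 : (X : ℝ) = C2 * K := by rw [hX]; push_cast; ring
    have h2 : (0 : ℝ) < C2 := by exact_mod_cast hC2
    rw [h1, Real.log_mul h2.ne' (by linarith), mul_add]
    have h3 : deg M * Real.log K ≤ Real.log Y := by
      rw [← Real.log_pow]
      exact Real.log_le_log (by positivity) (by exact_mod_cast hK2)
    linarith
  linarith

/-- lower bound in Mertens theorem -/
theorem mertens_lower (M : Type*) [Field M] [NumberField M] : ∃ C : ℝ, ∀ Y : ℕ, 1 ≤ Y →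
    Real.log Y - C ≤ ∑ Q ∈ P1 M Y, Real.log (Ideal.absNorm Q) / (Ideal.absNorm Q : ℝ) := by
  classical
  have hn := deg_pos (M := M)
  obtain ⟨C1, hC1, hnrm⟩ := nrm_bound M
  obtain ⟨Clo, hlo⟩ := sum_log_lower M
  obtain ⟨C2, hC2, kk, hkk⟩ := exists_kk M
  obtain ⟨C3, hC3, hW⟩ := sum_kk_le M kk (fun I hI => (hkk I hI).2.1)
  obtain ⟨CPP, hPP⟩ := sum_PP M
  have hC1' : (1 : ℝ) ≤ C1 := by exact_mod_cast hC1
  have hC2' : (1 : ℝ) ≤ C2 := by exact_mod_cast hC2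
  -- constants
  set c6 : ℝ := 1 + 2 * C2 * (2 * C1) with hc6
  have hc6' : 1 ≤ c6 := by rw [hc6]; nlinarith
  set Cfin : ℝ := Clo + deg M * (2 * C2) * c6 ^ (deg M - 1) * (C3 * (2 * C1)) + c6 ^ deg M * |CPP| +
    deg M * Real.log 2 + Real.log (2 * C1) with hCfin
  refine ⟨max Cfin (Real.log C1), ?_⟩
  intro Y hY
  have hA0 : 0 ≤ ∑ Q ∈ P1 M Y, Real.log (Ideal.absNorm Q) / (Ideal.absNorm Q : ℝ) :=
    Finset.sum_nonneg (fun Q _ => div_nonneg (Real.log_natCast_nonneg _) (by positivity))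
  rcases lt_or_ge Y C1 with hYC | hYC
  · have h1 : Real.log Y ≤ Real.log C1 :=
      Real.log_le_log (by exact_mod_cast hY) (by exact_mod_cast hYC.le)
    linarith [le_max_right Cfin (Real.log C1)]
  refine le_trans (sub_le_sub_left (le_max_left _ _) _) ?_
  have hY'1 : 1 ≤ Y / C1 := by rwa [Nat.one_le_div_iff hC1]
  obtain ⟨X, hX1, hX2, hX3, hX4⟩ := exists_root hn (Y / C1) hY'1
  have hX1' : (1 : ℝ) ≤ X := by exact_mod_cast hX1
  have hC1XY : C1 * X ^ deg M ≤ Y := le_trans (Nat.mul_le_mul_left _ hX2) (Nat.mul_div_le Y C1)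
  -- Y < 2 C1 (X+1)^n
  have hYup : Y < C1 * (X + 1) ^ deg M := by
    have h1 : Y / C1 < (X + 1) ^ deg M := hX3
    rw [Nat.div_lt_iff_lt_mul hC1] at h1
    rwa [mul_comm]
  have hYup2 : Y < ((C1 * (X + 1) - 1) + 1) ^ deg M := by
    have h1 : C1 * (X + 1) - 1 + 1 = C1 * (X + 1) := Nat.sub_add_cancel (Nat.mul_pos hC1 (by omega))
    rw [h1, mul_pow]
    exact lt_of_lt_of_le hYup (Nat.mul_le_mul_right _ (Nat.le_self_pow (by omega) _))
  have hkY : ∀ I : Ideal (𝓞 M), I ≠ ⊥ → Ideal.absNorm I ≤ Y → kk I ≤ C1 * (X + 1) := by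
    intro I hI hIY
    have h1 := (hkk I hI).2.1
    by_contra hcon
    rw [not_le] at hcon
    have h2 : (C1 * (X + 1)) ^ deg M < kk I ^ deg M := Nat.pow_lt_pow_left hcon (by omega)
    have h3 : Y < (C1 * (X + 1)) ^ deg M := by
      rw [mul_pow]
      exact lt_of_lt_of_le hYup (Nat.mul_le_mul_right _ (Nat.le_self_pow (by omega) _))
    omega
  set a : ℝ := 2 * X + 1 with ha
  have ha0 : 0 < a := by positivity
  have hX1a : (X : ℝ) + 1 ≤ a := by rw [ha]; linarith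
  set A := ∑ Q ∈ P1 M Y, Real.log (Ideal.absNorm Q) / (Ideal.absNorm Q : ℝ) with hA
  -- counting bound
  have hD : ∀ I : Ideal (𝓞 M), I ≠ ⊥ → Ideal.absNorm I ≤ Y →
      a + 2 * ((C2 * kk I : ℕ) : ℝ) ≤ c6 * a := by
    intro I hI hIY
    have h1 : (kk I : ℝ) ≤ C1 * (X + 1) := by exact_mod_cast hkY I hI hIY
    push_cast
    have h2 : (C2 : ℝ) * kk I ≤ C2 * (C1 * (X + 1)) := by gcongr
    have h3 : (C2 : ℝ) * (C1 * (X + 1)) ≤ C2 * (C1 * a) := by gcongr
    rw [hc6]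
    nlinarith
  have hcnt : ∀ I : Ideal (𝓞 M), I ≠ ⊥ → Ideal.absNorm I ≤ Y →
      (Ideal.absNorm I : ℝ) * cnt I X ≤ (a + 2 * ((C2 * kk I : ℕ) : ℝ)) ^ deg M := by
    intro I hI hIY
    have h1 := cnt_upper hI (hkk I hI).2.2 X
    have h2 : ((Ideal.absNorm I * cnt I X : ℕ) : ℝ) ≤ (((2 * (X + C2 * kk I) + 1) ^ deg M : ℕ) : ℝ) := by
      exact_mod_cast h1
    push_cast at h2
    refine le_trans h2 (le_of_eq ?_)
    congr 1
    rw [ha]; push_cast; ring
  -- degree one part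
  have h1part : ∑ Q ∈ P1 M Y, Real.log (Ideal.absNorm Q) * (cnt Q X : ℝ) ≤
      a ^ deg M * A + (deg M * (2 * C2) * (c6 * a) ^ (deg M - 1)) *
      (∑ Q ∈ P1 M Y, Real.log (Ideal.absNorm Q) / (Ideal.absNorm Q : ℝ) * kk Q) := by
    rw [hA, Finset.mul_sum, Finset.mul_sum, ← Finset.sum_add_distrib]
    refine Finset.sum_le_sum (fun Q hQ => ?_)
    have hQ0 := ne_bot_of_mem_P1 hQ
    have hQY := (mem_P1.1 hQ).2.2
    have hpos : (0 : ℝ) < Ideal.absNorm Q := by exact_mod_cast (mem_P1.1 hQ).2.1.pos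
    have h2 := pow_add_le (a := a) (b := 2 * ((C2 * kk Q : ℕ) : ℝ)) (c := c6 * a) ha0.le
      (by positivity) (hD Q hQ0 hQY) (deg M)
    have h3 := le_trans (hcnt Q hQ0 hQY) h2
    have h4 := mul_le_mul_of_nonneg_left h3
      (div_nonneg (Real.log_natCast_nonneg (Ideal.absNorm Q)) hpos.le)
    refine le_trans (le_of_eq ?_) (le_trans h4 (le_of_eq ?_))
    · field_simp
    · push_cast; ring
  have h2part : ∑ q ∈ PP M Y, Real.log (Ideal.absNorm q.1) * (cnt (q.1 ^ q.2) X : ℝ) ≤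
      (c6 * a) ^ deg M * |CPP| := by
    have h1 : ∑ q ∈ PP M Y, Real.log (Ideal.absNorm q.1) * (cnt (q.1 ^ q.2) X : ℝ) ≤
        (c6 * a) ^ deg M * ∑ q ∈ PP M Y, Real.log (Ideal.absNorm q.1) / (Ideal.absNorm q.1 : ℝ) ^ q.2 := by
      rw [Finset.mul_sum]
      refine Finset.sum_le_sum (fun q hq => ?_)
      obtain ⟨hq1, hq2, hq3, hq4, -⟩ := mem_PP.1 hq
      have hI0 : q.1 ^ q.2 ≠ ⊥ := pow_ne_zero _ hq2
      have hIN : Ideal.absNorm (q.1 ^ q.2) = Ideal.absNorm q.1 ^ q.2 := map_pow _ _ _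
      have hIY : Ideal.absNorm (q.1 ^ q.2) ≤ Y := by rw [hIN]; exact hq4
      have hposn : 0 < Ideal.absNorm q.1 := by
        rw [Nat.pos_iff_ne_zero, Ne, Ideal.absNorm_eq_zero_iff]; exact hq2
      have hpos : (0 : ℝ) < (Ideal.absNorm q.1 : ℝ) ^ q.2 := by
        have : (0 : ℝ) < Ideal.absNorm q.1 := by exact_mod_cast hposn
        positivity
      have h3 := hcnt _ hI0 hIY
      have h4 := pow_le_pow_left₀ (by positivity) (hD _ hI0 hIY) (deg M)
      have h5 := le_trans h3 h4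
      rw [hIN] at h5
      push_cast at h5
      have h6 := mul_le_mul_of_nonneg_left h5
        (div_nonneg (Real.log_natCast_nonneg (Ideal.absNorm q.1)) hpos.le)
      refine le_trans (le_of_eq ?_) (le_trans h6 (le_of_eq ?_))
      · field_simp
      · ring
    refine le_trans h1 ?_
    gcongr
    exact le_trans (hPP Y) (le_abs_self _)
  have hlow := hlo X hX1
  have hsum : ∑ v ∈ (box M X).erase 0, Real.log (nrm v) ≤
      ∑ Q ∈ P1 M Y, Real.log (Ideal.absNorm Q) * (cnt Q X : ℝ) +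
      ∑ q ∈ PP M Y, Real.log (Ideal.absNorm q.1) * (cnt (q.1 ^ q.2) X : ℝ) := by
    have h1 : ∑ v ∈ (box M X).erase 0, Real.log (nrm v) ≤
        ∑ v ∈ (box M X).erase 0, (∑ Q ∈ (P1 M Y).filter (fun Q => el v ∈ Q), Real.log (Ideal.absNorm Q) +
          ∑ q ∈ (PP M Y).filter (fun q => el v ∈ q.1 ^ q.2), Real.log (Ideal.absNorm q.1)) := by
      refine Finset.sum_le_sum (fun v hv => ?_)
      refine log_nrm_le (Finset.ne_of_mem_erase hv) ?_
      exact le_trans (hnrm X v (Finset.mem_of_mem_erase hv)) hC1XY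
    rw [Finset.sum_add_distrib] at h1
    have h2 := sum_box_P1 (M := M) X Y (fun Q => Real.log (Ideal.absNorm Q))
    have h3 := sum_box_PP (M := M) X Y (fun q => Real.log (Ideal.absNorm q.1))
      (fun q => Real.log_natCast_nonneg _)
    have h4 : ∑ Q ∈ P1 M Y, Real.log (Ideal.absNorm Q) * ((cnt Q X : ℝ) - 1) ≤
        ∑ Q ∈ P1 M Y, Real.log (Ideal.absNorm Q) * (cnt Q X : ℝ) := by
      refine Finset.sum_le_sum (fun Q _ => ?_)
      exact mul_le_mul_of_nonneg_left (by linarith) (Real.log_natCast_nonneg _)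
    calc _ ≤ _ := h1
      _ ≤ _ := add_le_add (le_trans (le_of_eq h2) h4) h3
  -- collect
  have hWY := hW Y (C1 * (X + 1) - 1) hYup2
  have hWY' : ∑ Q ∈ P1 M Y, Real.log (Ideal.absNorm Q) / (Ideal.absNorm Q : ℝ) * kk Q ≤
      C3 * (2 * C1) * a := by
    refine le_trans hWY ?_
    have h1 : (((C1 * (X + 1) - 1 : ℕ) : ℝ) + 1) = C1 * (X + 1) := by
      have h2 : C1 * (X + 1) - 1 + 1 = C1 * (X + 1) := Nat.sub_add_cancel (Nat.mul_pos hC1 (by omega))
      exact_mod_cast h2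
    rw [h1]
    have h3 : (C1 : ℝ) * (X + 1) ≤ 2 * C1 * a := by nlinarith
    calc C3 * (C1 * (X + 1)) ≤ C3 * (2 * C1 * a) := by gcongr
      _ = _ := by ring
  have hpowa : a ^ (deg M - 1) * a = a ^ deg M := by
    rw [← pow_succ]; congr 1; omega
  have hWa : (deg M * (2 * C2) * (c6 * a) ^ (deg M - 1)) *
      (∑ Q ∈ P1 M Y, Real.log (Ideal.absNorm Q) / (Ideal.absNorm Q : ℝ) * kk Q) ≤
      (deg M * (2 * C2) * c6 ^ (deg M - 1) * (C3 * (2 * C1))) * a ^ deg M := by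
    calc _ ≤ (deg M * (2 * C2) * (c6 * a) ^ (deg M - 1)) * (C3 * (2 * C1) * a) := by gcongr
      _ = (deg M * (2 * C2) * c6 ^ (deg M - 1) * (C3 * (2 * C1))) * (a ^ (deg M - 1) * a) := by
          rw [mul_pow]; ring
      _ = _ := by rw [hpowa]
  have hfin : a ^ deg M * (deg M * Real.log X - Clo -
      deg M * (2 * C2) * c6 ^ (deg M - 1) * (C3 * (2 * C1)) - c6 ^ deg M * |CPP|) ≤ a ^ deg M * A := by
    rw [mul_pow] at h2part
    nlinarith
  have hA2 := le_of_mul_le_mul_left hfin (by positivity)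
  have hlogY : Real.log Y ≤ Real.log (2 * C1) + deg M * Real.log 2 + deg M * Real.log X := by
    have h1 : (Y : ℝ) ≤ C1 * ((X : ℝ) + 1) ^ deg M := by exact_mod_cast hYup.le
    have h2 : (Y : ℝ) ≤ (2 * C1) * (2 * X) ^ deg M := by
      refine le_trans h1 ?_
      have h3 : ((X : ℝ) + 1) ^ deg M ≤ (2 * X) ^ deg M := pow_le_pow_left₀ (by positivity) (by linarith) _
      have h4 : (0 : ℝ) ≤ (2 * X) ^ deg M := by positivity
      nlinarith
    have h5 : Real.log Y ≤ Real.log ((2 * C1) * (2 * X) ^ deg M) :=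
      Real.log_le_log (by exact_mod_cast hY) h2
    have h6 : Real.log (2 * (X:ℝ)) = Real.log 2 + Real.log X :=
      Real.log_mul (by norm_num) (by positivity)
    rw [Real.log_mul (by positivity) (by positivity), Real.log_pow, h6] at h5
    linarith
  rw [hCfin]
  linarith

/-- Mertens theorem: `∑_{Q of degree one, N Q ≤ Y} log N Q / N Q = log Y + O(1)` -/
theorem mertens (M : Type*) [Field M] [NumberField M] : ∃ C : ℝ, ∀ Y : ℕ, 1 ≤ Y →
    |∑ Q ∈ P1 M Y, Real.log (Ideal.absNorm Q) / (Ideal.absNorm Q : ℝ) - Real.log Y| ≤ C := by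
  obtain ⟨C, hC⟩ := mertens_upper M
  obtain ⟨C', hC'⟩ := mertens_lower M
  refine ⟨max C C', ?_⟩
  intro Y hY
  rw [abs_le]
  constructor
  · linarith [hC' Y hY, le_max_right C C']
  · linarith [hC Y hY, le_max_left C C']

end Pool.Agent.ORB
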