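import Pool.Agent.ORB.NDefs

/-!
ORB, Theorem B: elementary facts on the absolute value.
-/

namespace Pool.Agent.ORB.NI

open Polynomial IntermediateField

section
variable {F Ω : Type*} [Field F] [Field Ω] [Algebra F Ω] (D : LocAbs F Ω)

theorem N_neg (x : Ω) : D.N (-x) = D.N x := AbsoluteValue.map_neg D.N x

theorem N_symm (x y : Ω) : D.N (x - y) = D.N (y - x) := AbsoluteValue.map_sub D.N x y

theorem N_sub_le (x y : Ω) : D.N (x - y) ≤ max (D.N x) (D.N y) := by
  rw [sub_eq_add_neg, ← N_neg D y]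
  exact D.nonarch x (-y)

theorem N_sub_trans (x y z : Ω) : D.N (x - z) ≤ max (D.N (x - y)) (D.N (y - z)) := by
  have := D.nonarch (x - y) (y - z)
  rwa [sub_add_sub_cancel] at this

theorem N_lt_trans {x y z : Ω} (h1 : D.N (x - y) < 1) (h2 : D.N (y - z) < 1) : D.N (x - z) < 1 :=
  (N_sub_trans D x y z).trans_lt (max_lt h1 h2)

theorem N_add_eq {x y : Ω} (h : D.N x < D.N y) : D.N (x + y) = D.N y := by
  apply le_antisymm
  · exact (D.nonarch x y).trans (max_le h.le le_rfl)
  · by_contra hlt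
    push Not at hlt
    have h1 : D.N y ≤ max (D.N (x + y)) (D.N x) := by
      have := N_sub_le D (x + y) x
      rwa [add_sub_cancel_left] at this
    exact absurd h1 (not_le.2 (max_lt hlt h))

theorem N_eq_of_close {x y : Ω} (h : D.N (x - y) < D.N y) : D.N x = D.N y := by
  have := N_add_eq D h
  rwa [sub_add_cancel] at this

theorem N_one : D.N (1 : Ω) = 1 := D.N.map_one

theorem N_pow (x : Ω) (n : ℕ) : D.N (x ^ n) = D.N x ^ n := D.N.map_pow x n

theorem N_mul (x y : Ω) : D.N (x * y) = D.N x * D.N y := D.N.map_mul x y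

theorem N_nonneg (x : Ω) : 0 ≤ D.N x := D.N.nonneg x

theorem N_pos {x : Ω} (h : x ≠ 0) : 0 < D.N x := D.N.pos h

theorem N_zero : D.N (0 : Ω) = 0 := D.N.map_zero

theorem ne_zero_of_N {x : Ω} (h : D.N x ≠ 0) : x ≠ 0 := by
  rintro rfl
  exact h (N_zero D)

theorem N_sum_lt {ι : Type*} (s : Finset ι) (g : ι → Ω) {c : ℝ} (hc : 0 < c) (h : ∀ i ∈ s, D.N (g i) < c) :
    D.N (∑ i ∈ s, g i) < c := by
  classical
  induction s using Finset.induction_on with
  | empty => rw [Finset.sum_empty, N_zero]; exact hc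
  | insert i s hi ih =>
    rw [Finset.sum_insert hi]
    exact (D.nonarch _ _).trans_lt (max_lt (h i (Finset.mem_insert_self _ _))
      (ih fun j hj => h j (Finset.mem_insert_of_mem hj)))

theorem N_sum_le {ι : Type*} (s : Finset ι) (g : ι → Ω) {c : ℝ} (hc : 0 ≤ c) (h : ∀ i ∈ s, D.N (g i) ≤ c) :
    D.N (∑ i ∈ s, g i) ≤ c := by
  classical
  induction s using Finset.induction_on with
  | empty => rw [Finset.sum_empty, N_zero]; exact hc
  | insert i s hi ih =>
    rw [Finset.sum_insert hi]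
    exact (D.nonarch _ _).trans (max_le (h i (Finset.mem_insert_self _ _))
      (ih fun j hj => h j (Finset.mem_insert_of_mem hj)))

/-- the ring of integers -/
def OO : Subring Ω where
  carrier := {x | D.N x ≤ 1}
  mul_mem' := fun {x y} hx hy => by
    show D.N (x * y) ≤ 1
    rw [N_mul]
    exact mul_le_one₀ hx (N_nonneg D y) hy
  one_mem' := (N_one D).le
  add_mem' := fun {x y} hx hy => (D.nonarch x y).trans (max_le hx hy)
  zero_mem' := by
    show D.N 0 ≤ 1
    rw [N_zero]; exact zero_le_one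
  neg_mem' := fun {x} hx => by
    show D.N (-x) ≤ 1
    rw [N_neg]; exact hx

theorem mem_OO {x : Ω} : x ∈ OO D ↔ D.N x ≤ 1 := Iff.rfl

theorem eval_int (g : Polynomial Ω) (hg : ∀ n, D.N (g.coeff n) ≤ 1) {x : Ω} (hx : D.N x ≤ 1) :
    D.N (g.eval x) ≤ 1 := by
  rw [← mem_OO, eval_eq_sum]
  exact Subring.sum_mem _ fun n _ => Subring.mul_mem _ (hg n) (Subring.pow_mem _ hx n)

/-- first order expansion, with integral remainder -/
theorem eval_diff (g : Polynomial Ω) (hg : ∀ n, D.N (g.coeff n) ≤ 1) {x y : Ω} (hx : D.N x ≤ 1)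
    (hy : D.N y ≤ 1) : ∃ k, D.N k ≤ 1 ∧ g.eval x - g.eval y = (x - y) * (g.derivative.eval y + (x - y) * k) := by
  have hsub : (↑g.coeffs : Set Ω) ⊆ OO D := by
    intro a ha
    rw [Finset.mem_coe, Polynomial.mem_coeffs_iff] at ha
    obtain ⟨n, -, rfl⟩ := ha
    exact hg n
  set G := g.toSubring (OO D) hsub with hG
  have hmap : G.map (OO D).subtype = g := Polynomial.map_toSubring g (OO D) hsub
  set X : OO D := ⟨x, hx⟩
  set Y : OO D := ⟨y, hy⟩
  obtain ⟨k, hk⟩ := G.binomExpansion Y (X - Y)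
  refine ⟨k, k.2, ?_⟩
  have e1 : ∀ Z : OO D, ((G.eval Z : OO D) : Ω) = g.eval (Z : Ω) := by
    intro Z
    have := Polynomial.eval_map_apply (OO D).subtype (p := G) Z
    rw [hmap] at this
    exact this.symm
  have e2 : ((G.derivative.eval Y : OO D) : Ω) = g.derivative.eval y := by
    have := Polynomial.eval_map_apply (OO D).subtype (p := G.derivative) Y
    rw [← derivative_map, hmap] at this
    exact this.symm
  have h1 := congrArg (Subtype.val) hk
  rw [add_sub_cancel] at h1
  push_cast at h1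
  rw [e1, e1, e2] at h1
  have hX : ((X : OO D) : Ω) = x := rfl
  have hY : ((Y : OO D) : Ω) = y := rfl
  rw [hX, hY] at h1
  rw [h1]
  ring

/-! ### the map `ev f` -/

theorem ev_eq (f : F[X]) (z : Ω) : ev f z = (f.map (algebraMap F Ω)).eval z := by
  rw [ev, aeval_def, eval_map]

theorem dv_eq (f : F[X]) (z : Ω) : aeval z (derivative f) = (f.map (algebraMap F Ω)).derivative.eval z := by
  rw [derivative_map, aeval_def, eval_map]

variable {D} {f : F[X]}

theorem Good.coef' (hf : Good D f) (n : ℕ) : D.N ((f.map (algebraMap F Ω)).coeff n) ≤ 1 := by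
  rw [coeff_map]
  exact hf.coef n

theorem Good.dcoef (hf : Good D f) (n : ℕ) : D.N ((f.map (algebraMap F Ω)).derivative.coeff n) ≤ 1 := by
  rw [coeff_derivative, ← mem_OO]
  refine Subring.mul_mem _ (hf.coef' (n + 1)) ?_
  have : ((n : Ω) + 1) = ((n + 1 : ℕ) : Ω) := by push_cast; ring
  rw [this]
  exact natCast_mem (OO D) (n + 1)

theorem Good.int (hf : Good D f) {z : Ω} (hz : D.N z ≤ 1) : D.N (ev f z) ≤ 1 := by
  rw [ev_eq]
  exact eval_int D _ hf.coef' hz

theorem Good.iter_int (hf : Good D f) {z : Ω} (hz : D.N z ≤ 1) (n : ℕ) : D.N ((ev f)^[n] z) ≤ 1 := by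
  induction n with
  | zero => exact hz
  | succ n ih =>
    rw [Function.iterate_succ_apply']
    exact hf.int ih

/-- the basic estimate -/
theorem Good.contract (hf : Good D f) {x y : Ω} (hx : D.N x ≤ 1) (hy : D.N y ≤ 1) :
    D.N (ev f x - ev f y) ≤ D.N (x - y) * max (D.N (aeval y (derivative f))) (D.N (x - y)) := by
  obtain ⟨k, hk, h⟩ := eval_diff D _ hf.coef' hx hy
  rw [ev_eq, ev_eq, h, N_mul, dv_eq]
  refine mul_le_mul_of_nonneg_left ((D.nonarch _ _).trans (max_le_max le_rfl ?_)) (N_nonneg D _)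
  rw [N_mul]
  exact mul_le_of_le_one_right (N_nonneg D _) hk

theorem Good.dint (hf : Good D f) {z : Ω} (hz : D.N z ≤ 1) : D.N (aeval z (derivative f)) ≤ 1 := by
  rw [dv_eq]
  exact eval_int D _ hf.dcoef hz

theorem Good.le (hf : Good D f) {x y : Ω} (hx : D.N x ≤ 1) (hy : D.N y ≤ 1) :
    D.N (ev f x - ev f y) ≤ D.N (x - y) := by
  refine (hf.contract hx hy).trans (mul_le_of_le_one_right (N_nonneg D _) (max_le (hf.dint hy) ?_))
  exact (N_sub_le D x y).trans (max_le hx hy)

theorem Good.iter_le (hf : Good D f) {x y : Ω} (hx : D.N x ≤ 1) (hy : D.N y ≤ 1) (n : ℕ) :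
    D.N ((ev f)^[n] x - (ev f)^[n] y) ≤ D.N (x - y) := by
  induction n with
  | zero => exact le_rfl
  | succ n ih =>
    rw [Function.iterate_succ_apply', Function.iterate_succ_apply']
    exact (hf.le (hf.iter_int hx n) (hf.iter_int hy n)).trans ih

theorem Good.iter_cg (hf : Good D f) {x y : Ω} (hx : D.N x ≤ 1) (hy : D.N y ≤ 1) (h : D.N (x - y) < 1)
    (n : ℕ) : D.N ((ev f)^[n] x - (ev f)^[n] y) < 1 := (hf.iter_le hx hy n).trans_lt h

/-- the derivative at congruent points -/
theorem Good.dcg (hf : Good D f) {x y : Ω} (hx : D.N x ≤ 1) (hy : D.N y ≤ 1) (h : D.N (x - y) < 1) :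
    D.N (aeval x (derivative f) - aeval y (derivative f)) < 1 := by
  obtain ⟨k, hk, h1⟩ := eval_diff D _ hf.dcoef hx hy
  rw [dv_eq, dv_eq, h1, N_mul]
  refine (mul_le_of_le_one_right (N_nonneg D _) ?_).trans_lt h
  refine (D.nonarch _ _).trans (max_le ?_ ?_)
  · refine eval_int D _ (fun n => ?_) hy
    rw [coeff_derivative, ← mem_OO]
    refine Subring.mul_mem _ (hf.dcoef (n + 1)) ?_
    have : ((n : Ω) + 1) = ((n + 1 : ℕ) : Ω) := by push_cast; ring
    rw [this]
    exact natCast_mem (OO D) (n + 1)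
  · rw [N_mul]
    exact mul_le_one₀ h.le (N_nonneg D _) hk

theorem Good.dunit (hf : Good D f) {x y : Ω} (hx : D.N x ≤ 1) (hy : D.N y ≤ 1) (h : D.N (x - y) < 1)
    (h1 : D.N (aeval y (derivative f)) = 1) : D.N (aeval x (derivative f)) = 1 := by
  rw [← h1]
  apply N_eq_of_close
  rw [h1]
  exact hf.dcg hx hy h

/-- at infinity -/
theorem Good.big (hf : Good D f) {z : Ω} (hz : 1 < D.N z) : D.N (ev f z) = D.N z ^ f.natDegree := by
  have hd : (f.map (algebraMap F Ω)).natDegree = f.natDegree := natDegree_map_eq_of_injective (algebraMap F Ω).injective f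
  rw [ev_eq, eval_eq_sum_range, hd, Finset.sum_range_succ]
  have h1 : D.N ((f.map (algebraMap F Ω)).coeff f.natDegree * z ^ f.natDegree) = D.N z ^ f.natDegree := by
    rw [N_mul, N_pow, coeff_map]
    have := hf.lead
    rw [leadingCoeff] at this
    rw [this, one_mul]
  rw [← h1]
  apply N_add_eq
  rw [h1]
  refine N_sum_lt D _ _ (pow_pos (by linarith) _) fun i hi => ?_
  rw [Finset.mem_range] at hi
  rw [N_mul, N_pow]
  refine (mul_le_of_le_one_left (pow_nonneg (N_nonneg D z) _) (hf.coef' i)).trans_lt ?_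
  exact pow_lt_pow_right₀ hz hi

theorem Good.int_of_ev (hf : Good D f) {z : Ω} (hz : D.N (ev f z) ≤ 1) : D.N z ≤ 1 := by
  by_contra h
  push Not at h
  rw [hf.big h] at hz
  have := hf.deg
  exact absurd hz (not_le.2 (one_lt_pow₀ h (by omega)))

theorem Good.node_int (hf : Good D f) {b : F} (hb : D.N (algebraMap F Ω b) ≤ 1) (k : ℕ) {z : Ω}
    (hz : z ∈ Node Ω f b k) : D.N z ≤ 1 := by
  have key : ∀ k : ℕ, ∀ z : Ω, D.N ((ev f)^[k] z) ≤ 1 → D.N z ≤ 1 := by
    intro k
    induction k with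
    | zero => intro z h; exact h
    | succ k ih =>
      intro z h
      rw [Function.iterate_succ_apply] at h
      exact hf.int_of_ev (ih _ h)
  apply key k
  have : (ev f)^[k] z = algebraMap F Ω b := hz
  rw [this]
  exact hb

theorem Good.node_big (hf : Good D f) {b : F} (hb : 1 < D.N (algebraMap F Ω b)) (k : ℕ) {z : Ω}
    (hz : z ∈ Node Ω f b k) : 1 < D.N z ∧ D.N z ^ (f.natDegree ^ k) = D.N (algebraMap F Ω b) := by
  have hd := hf.deg
  have key : ∀ k : ℕ, ∀ z : Ω, 1 < D.N ((ev f)^[k] z) → 1 < D.N z ∧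
      D.N z ^ (f.natDegree ^ k) = D.N ((ev f)^[k] z) := by
    intro k
    induction k with
    | zero => intro z h; exact ⟨h, by simp⟩
    | succ k ih =>
      intro z h
      rw [Function.iterate_succ_apply] at h ⊢
      obtain ⟨h1, h2⟩ := ih _ h
      have hz1 : 1 < D.N z := by
        by_contra hle
        push Not at hle
        exact absurd (hf.int hle) (not_le.2 h1)
      refine ⟨hz1, ?_⟩
      rw [← h2, hf.big hz1, ← pow_mul, pow_succ, mul_comm]
  have h1 : (ev f)^[k] z = algebraMap F Ω b := hz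
  have := key k z (by rw [h1]; exact hb)
  rwa [h1] at this

theorem Node_succ {b : F} {k : ℕ} {z : Ω} : z ∈ Node Ω f b (k + 1) ↔ ev f z ∈ Node Ω f b k := by
  show (ev f)^[k + 1] z = _ ↔ (ev f)^[k] (ev f z) = _
  rw [Function.iterate_succ_apply]

theorem Node_iter {b : F} {k m : ℕ} {z : Ω} (hz : z ∈ Node Ω f b (k + m)) : (ev f)^[m] z ∈ Node Ω f b k := by
  show (ev f)^[k] ((ev f)^[m] z) = _
  rw [← Function.iterate_add_apply]
  exact hz

/-- a critical point close to `z` -/
theorem Good.crit_close [IsAlgClosed Ω] (hf : Good D f) {z : Ω} (h : D.N (aeval z (derivative f)) < 1) :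
    ∃ c : Ω, aeval c (derivative f) = 0 ∧ D.N (z - c) < 1 := by
  have hd := hf.deg
  have hchar : CharZero Ω ∨ True := Or.inr trivial
  set g := (f.map (algebraMap F Ω)).derivative with hg
  have hdn : ((f.natDegree : ℕ) : Ω) ≠ 0 := by
    intro h0
    have := hf.tame f.natDegree (by omega) le_rfl
    rw [h0, N_zero] at this
    exact zero_ne_one this
  have hlc : (f.map (algebraMap F Ω)).coeff f.natDegree ≠ 0 := by
    intro h0
    have := hf.lead
    rw [coeff_map] at h0
    rw [leadingCoeff, h0, N_zero] at this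
    exact zero_ne_one this
  have hcoef : g.coeff (f.natDegree - 1) = (f.map (algebraMap F Ω)).coeff f.natDegree * (f.natDegree : Ω) := by
    rw [hg, coeff_derivative]
    have h1 : f.natDegree - 1 + 1 = f.natDegree := by omega
    have h2 : ((f.natDegree - 1 : ℕ) : Ω) + 1 = (f.natDegree : Ω) := by
      exact_mod_cast congrArg (Nat.cast (R := Ω)) h1
    rw [h1, h2]
  have hgd : g.natDegree = f.natDegree - 1 := by
    apply le_antisymm
    · refine (natDegree_derivative_le _).trans ?_
      rw [natDegree_map_eq_of_injective (algebraMap F Ω).injective]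
    · apply le_natDegree_of_ne_zero
      rw [hcoef]
      exact mul_ne_zero hlc hdn
  have hlead : D.N g.leadingCoeff = 1 := by
    rw [leadingCoeff, hgd, hcoef, N_mul, hf.tame _ (by omega) le_rfl, mul_one, coeff_map]
    exact hf.lead
  have hsp : g.Splits := IsAlgClosed.splits g
  have hroots := hsp.eval_eq_prod_roots z
  rw [dv_eq, ← hg, hroots, N_mul, hlead, one_mul] at h
  by_contra hcon
  push Not at hcon
  have hmem : ∀ c ∈ g.roots, 1 ≤ D.N (z - c) := by
    intro c hc
    apply hcon c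
    rw [dv_eq]
    exact (mem_roots'.1 hc).2
  have : 1 ≤ D.N ((g.roots.map fun a => z - a).prod) := by
    have key : ∀ s : Multiset Ω, (∀ c ∈ s, 1 ≤ D.N (z - c)) → 1 ≤ D.N ((s.map fun a => z - a).prod) := by
      intro s
      induction s using Multiset.induction_on with
      | empty => intro _; rw [Multiset.map_zero, Multiset.prod_zero, N_one]
      | cons a s ih =>
        intro hs
        rw [Multiset.map_cons, Multiset.prod_cons, N_mul]
        exact one_le_mul_of_one_le_of_one_le (hs a (Multiset.mem_cons_self a s))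
          (ih fun c hc => hs c (Multiset.mem_cons_of_mem hc))
    exact key _ hmem
  linarith

end

end Pool.Agent.ORB.NI
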