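import Pool.Agent.ORB.NTop

/-!
ORB, Theorem B, assembly: a family divided into blocks with coprime exponents, each block with `Provides`, has
`Provides`.
-/

namespace Pool.Agent.ORB

open NumberField IsDedekindDomain Polynomial

universe u

section act
variable {K L : Type*} [Field K] [Field L] [Algebra K L] {ι : Type*} {K' : Type*} [Field K'] [Algebra K' L]

/-- pairs of an index and a target of level `N` -/
def TgtSet (L : Type*) [Field L] [Algebra K L] (f : ι → RP K) (β : ι → OnePoint K) (N : ℕ) : Type _ :=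
  {p : ι × OnePoint L // IsTgt (f p.1) (β p.1) L (((f p.1).map (algebraMap K L)).act^[N] p.2)}

theorem isTgt_aut {f : RP K} {β : OnePoint K} {N : ℕ} {x : OnePoint L} (g : L ≃+* L)
    (hg : ∀ y : K, g (algebraMap K L y) = algebraMap K L y)
    (h : IsTgt f β L ((f.map (algebraMap K L)).act^[N] x)) :
    IsTgt f β L ((f.map (algebraMap K L)).act^[N] (pmap (g : L →+* L) x)) := by
  have hcomp : (g : L →+* L).comp (algebraMap K L) = algebraMap K L := RingHom.ext hg
  have h1 : (f.map (algebraMap K L)).map (g : L →+* L) = f.map (algebraMap K L) := by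
    rw [RP.map_map, hcomp]
  have h2 : ∀ (n : ℕ) (y : OnePoint L), (f.map (algebraMap K L)).act^[n] (pmap (g : L →+* L) y) =
      pmap (g : L →+* L) ((f.map (algebraMap K L)).act^[n] y) := by
    intro n y
    have := RP.act_map_iterate (g : L →+* L) (f.map (algebraMap K L)) n y
    rwa [h1] at this
  have h3 : ∀ c : OnePoint K, pmap (g : L →+* L) (pmap (algebraMap K L) c) = pmap (algebraMap K L) c := by
    intro c
    rw [pmap_comp, hcomp]
  rw [h2]
  set y := (f.map (algebraMap K L)).act^[N] x
  obtain ⟨ha, hb⟩ := h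
  refine ⟨fun m hm hper => ?_, ?_⟩
  · rw [h2] at hper
    exact ha m hm (pmap_injective _ hper)
  · rcases hb with hb | ⟨hper, j, hj⟩
    · left
      rw [hb, h3]
    · right
      refine ⟨hper, j, ?_⟩
      have := h2 1 y
      rw [Function.iterate_one] at this
      rw [this, hj, h3]

/-- the Galois group acts on the targets of level `N` -/
noncomputable instance tgtAction (f : ι → RP K) (β : ι → OnePoint K) (N : ℕ) [Algebra K K']
    [IsScalarTower K K' L] : MulAction (L ≃ₐ[K'] L) (TgtSet L f β N) where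
  smul g p := ⟨(p.1.1, pmap ((g : L ≃+* L) : L →+* L) p.1.2), isTgt_aut (g : L ≃+* L) (fun y => by
    rw [IsScalarTower.algebraMap_apply K K' L]
    exact g.commutes _) p.2⟩
  one_smul p := by
    apply Subtype.ext
    refine Prod.ext rfl ?_
    show pmap _ p.1.2 = p.1.2
    generalize p.1.2 = x
    induction x using OnePoint.rec with
    | infty => rfl
    | coe a => rfl
  mul_smul g h p := by
    apply Subtype.ext
    refine Prod.ext rfl ?_
    show pmap _ p.1.2 = pmap _ (pmap _ p.1.2)
    generalize p.1.2 = x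
    induction x using OnePoint.rec with
    | infty => rfl
    | coe a => rfl

theorem tgtSet_finite [Finite ι] (f : ι → RP K) (hf : ∀ i, 1 ≤ (f i).d) (β : ι → OnePoint K) (N : ℕ) :
    Finite (TgtSet L f β N) := by
  have h1 : (⋃ i, {p : ι × OnePoint L | p.1 = i ∧
      IsTgt (f i) (β i) L (((f i).map (algebraMap K L)).act^[N] p.2)}).Finite := by
    refine Set.finite_iUnion fun i => ?_
    have h1 := finite_tgt (f i) (hf i) (β i) L
    have h2 : 1 ≤ (((f i).map (algebraMap K L)).iter N).d := by
      rw [RP.iter_d]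
      exact Nat.one_le_pow _ _ (hf i)
    have h3 := (((f i).map (algebraMap K L)).iter N).finite_fiber h2 _ h1
    refine (((h3.image (fun z : L => (z : OnePoint L))).insert OnePoint.infty).image
      (fun x => ((i, x) : ι × OnePoint L))).subset ?_
    rintro ⟨j, x⟩ ⟨hj, hx⟩
    simp only at hj hx
    subst hj
    refine ⟨x, ?_, rfl⟩
    induction x using OnePoint.rec with
    | infty => exact Or.inl rfl
    | coe z =>
      refine Or.inr ⟨z, ?_, rfl⟩
      show (((f j).map (algebraMap K L)).iter N).act (z : OnePoint L) ∈ {y | IsTgt (f j) (β j) L y}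
      rw [RP.act_iter]
      exact hx
  exact Set.Finite.to_subtype (h1.subset fun p hp => Set.mem_iUnion.2 ⟨p.1, rfl, hp⟩)

end act

/-- coprime blocks -/
theorem provides_of_blocks {K : Type u} [Field K] [NumberField K] {ι J : Type} [Finite ι] [Finite J]
    (f : ι → RatFunc K) (hf : ∀ i, 2 ≤ rdeg (f i)) (β : ι → OnePoint K) (blk : ι → J) (E : J → ℕ)
    (hE : ∀ i j, i ≠ j → Nat.Coprime (E i) (E j)) (hexp : ∀ i, RHasExp (E (blk i)) (f i))
    (hprov : ∀ j, Provides (fun i : {i // blk i = j} => RP.ofRat (f i.1)) (fun i => β i.1)) :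
    Provides (fun i => RP.ofRat (f i)) β := by
  classical
  cases nonempty_fintype ι
  cases nonempty_fintype J
  have hf1 : ∀ i, 1 ≤ (RP.ofRat (f i)).d := fun i => le_trans one_le_two (hf i)
  -- exponents
  have hex := fun i => rexps (E (blk i)) (f i) (by have := hf i; omega) (hexp i)
  choose mi hmi0 hmi using hex
  set m : ℕ := ∏ i, mi i with hm
  have hm0 : 0 < m := Finset.prod_pos (fun i _ => hmi0 i)
  have hmdvd : ∀ i, mi i ∣ m := fun i => Finset.dvd_prod_of_mem mi (Finset.mem_univ i)
  refine provides_of_W (W := AlgebraicClosure K) _ _ ?_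
  intro F _ _ _ _ _
  have haFW : Algebra.IsAlgebraic F (AlgebraicClosure K) := Algebra.IsAlgebraic.tower_top (K := K) F
  have hNd : NeZero (m : AlgebraicClosure K) := ⟨by exact_mod_cast hm0.ne'⟩
  obtain ⟨zW, hzW⟩ := HasEnoughRootsOfUnity.exists_primitiveRoot (AlgebraicClosure K) m
  -- the field with the roots of unity
  obtain ⟨K', _, _, _, _, hstK', -, hTK'⟩ := exists_gal (F := F) (W := AlgebraicClosure K) {zW}
    (Set.finite_singleton _)
  obtain ⟨z, hz0⟩ := hTK' zW rfl
  have hz : IsPrimitiveRoot z m := by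
    rw [← hz0] at hzW
    exact hzW.of_map_of_injective (algebraMap K' (AlgebraicClosure K)).injective
  let algKK' : Algebra K K' := ((algebraMap F K').comp (algebraMap K F)).toAlgebra
  have hst0 : IsScalarTower K F K' := IsScalarTower.of_algebraMap_eq fun x => rfl
  have hst0' : IsScalarTower K K' (AlgebraicClosure K) := IsScalarTower.of_algebraMap_eq fun x => by
    rw [IsScalarTower.algebraMap_apply K F (AlgebraicClosure K), IsScalarTower.algebraMap_apply K F K',
      ← IsScalarTower.algebraMap_apply F K' (AlgebraicClosure K)]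
  have haK'W : Algebra.IsAlgebraic K' (AlgebraicClosure K) := Algebra.IsAlgebraic.tower_top (K := K) K'
  -- level
  choose N0 hN0 using fun j => hprov j K'
  set N : ℕ := Finset.univ.sup N0 with hN
  obtain ⟨L, _, _, _, _, hstL, hgalL, hTL⟩ := exists_gal (F := K') (W := AlgebraicClosure K)
    (⋃ i, {z : AlgebraicClosure K | IsTgt (RP.ofRat (f i)) (β i) (AlgebraicClosure K)
      (((RP.ofRat (f i)).map (algebraMap K (AlgebraicClosure K))).act^[N] (z : OnePoint (AlgebraicClosure K)))})
    (Set.finite_iUnion fun i => tgtlev_finite (RP.ofRat (f i)) (hf1 i) (β i) N)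
  let algKL : Algebra K L := ((algebraMap K' L).comp (algebraMap K K')).toAlgebra
  have hst1 : IsScalarTower K K' L := IsScalarTower.of_algebraMap_eq fun x => rfl
  have hst2 : IsScalarTower K L (AlgebraicClosure K) := IsScalarTower.of_algebraMap_eq fun x => by
    rw [IsScalarTower.algebraMap_apply K K' (AlgebraicClosure K), IsScalarTower.algebraMap_apply K K' L,
      ← IsScalarTower.algebraMap_apply K' L (AlgebraicClosure K)]
  -- automorphisms for the blocks
  have hσ : ∀ j : J, ∃ σ : L ≃ₐ[K'] L, ∀ i, blk i = j → ∀ x : OnePoint L,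
      IsTgt (RP.ofRat (f i)) (β i) L (((RP.ofRat (f i)).map (algebraMap K L)).act^[N] x) →
        pmap (σ : L →+* L) x ≠ x := by
    intro j
    obtain ⟨σ, hσ⟩ := hN0 j N (Finset.le_sup (Finset.mem_univ j)) L
    exact ⟨σ, fun i hij x hx => hσ ⟨i, hij⟩ x hx⟩
  choose σ hσ' using hσ
  set R := TgtSet L (fun i => RP.ofRat (f i)) β N with hR
  have hRfin : Finite R := tgtSet_finite _ hf1 β N
  have hGfin : Finite (L ≃ₐ[K'] L) := inferInstance
  have hsmul : ∀ (g : L ≃ₐ[K'] L) (p : R), g • p = p ↔ pmap ((g : L ≃+* L) : L →+* L) p.1.2 = p.1.2 := by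
    intro g p
    constructor
    · intro h
      exact congrArg (fun q : R => q.1.2) h
    · intro h
      exact Subtype.ext (Prod.ext rfl h)
  -- a uniform exponent
  have hpow : ∀ (g : L ≃ₐ[K'] L) (p : R), ∃ k : ℕ, g ^ (E (blk p.1.1) ^ k) • p = p := by
    intro g p
    obtain ⟨⟨i, x⟩, hx⟩ := p
    simp only at hx ⊢
    let τ : L ≃ₐ[ℚ] L := g.restrictScalars ℚ
    have hτK : ∀ y : K, τ (algebraMap K L y) = algebraMap K L y := by
      intro y
      show g (algebraMap K' L (algebraMap K K' y)) = _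
      rw [g.commutes]
      rfl
    have hτz : ∀ y : L, y ^ mi i = 1 → τ y = y := by
      intro y hy
      have hy' : y ^ m = 1 := by
        obtain ⟨t, ht⟩ := hmdvd i
        rw [ht, pow_mul, hy, one_pow]
      have : NeZero m := ⟨hm0.ne'⟩
      obtain ⟨t, -, ht⟩ := (hz.map_of_injective (algebraMap K' L).injective).eq_pow_of_pow_eq_one hy'
      show g y = y
      rw [← ht, ← map_pow, g.commutes]
    obtain ⟨c, hc⟩ := hx.act_mem
    have hprim : ∃ z' : L, IsPrimitiveRoot z' (mi i) := by
      obtain ⟨t, ht⟩ := hmdvd i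
      exact ⟨_, (hz.map_of_injective (algebraMap K' L).injective).pow hm0 (by rw [ht, mul_comm])⟩
    obtain ⟨k, hk⟩ := rexists_pow_fix (E (blk i)) ((RP.ofRat (f i)).map (algebraMap K L)) (mi i)
      (fun τ h1 h2 => hmi i L τ h1 hprim h2) τ hτK hτz (N + 1) x
      ⟨c, by rw [Function.iterate_succ_apply']; exact hc⟩
    refine ⟨k, (hsmul _ _).2 ?_⟩
    have h2 : ∀ (n : ℕ) (x : L), (τ ^ n) x = (g ^ n) x := by
      intro n
      induction n with
      | zero => intro x; rfl
      | succ n ih =>
        intro x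
        rw [pow_succ, pow_succ, AlgEquiv.mul_apply, AlgEquiv.mul_apply, ih]
        rfl
    have h3 : pmap (((g ^ (E (blk i) ^ k) : L ≃ₐ[K'] L) : L ≃+* L) : L →+* L) x =
        pmap ((τ ^ (E (blk i) ^ k) : L ≃ₐ[ℚ] L) : L →+* L) x := by
      congr 1
      exact RingHom.ext fun y => (h2 _ y).symm
    exact h3.trans hk
  obtain ⟨k, hk⟩ : ∃ k : ℕ, ∀ g ∈ (⊤ : Subgroup (L ≃ₐ[K'] L)), ∀ p : R,
      g ^ (E (blk p.1.1) ^ k) • p = p := by
    choose kk hkk using hpow
    cases nonempty_fintype (L ≃ₐ[K'] L)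
    cases nonempty_fintype R
    refine ⟨Finset.univ.sup (fun gp : (L ≃ₐ[K'] L) × R => kk gp.1 gp.2), ?_⟩
    intro g _ p
    have hle : kk g p ≤ Finset.univ.sup (fun gp : (L ≃ₐ[K'] L) × R => kk gp.1 gp.2) :=
      Finset.le_sup (f := fun gp : (L ≃ₐ[K'] L) × R => kk gp.1 gp.2) (Finset.mem_univ (g, p))
    obtain ⟨t, ht⟩ := Nat.exists_eq_add_of_le hle
    rw [ht, pow_add, pow_mul]
    have h3 := hkk g p
    generalize g ^ E (blk p.1.1) ^ kk g p = h at h3
    have h4 : ∀ n : ℕ, h ^ n • p = p := by
      intro n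
      induction n with
      | zero => rw [pow_zero, one_smul]
      | succ n ih => rw [pow_succ, mul_smul, h3, ih]
    exact h4 _
  obtain ⟨τ, -, hτ⟩ := combine (fun p : R => blk p.1.1) (fun g p => rfl) E hE k ⊤ hk σ
    (fun j => Subgroup.mem_top _) (by
      rintro ⟨⟨i, x⟩, hx⟩ heq
      exact hσ' (blk i) i rfl x hx ((hsmul _ _).1 heq))
  -- lift to `W`
  have hcl : IsAlgClosure K' (AlgebraicClosure K) := ⟨inferInstance, inferInstance⟩
  have hn : Normal K' (AlgebraicClosure K) := IsAlgClosure.normal K' _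
  have hgal : IsGalois K' L := IsGalois.tower_top_of_isGalois ℚ K' L
  have hs : ∀ y : L, τ.liftNormal (AlgebraicClosure K) (algebraMap L (AlgebraicClosure K) y) =
      algebraMap L (AlgebraicClosure K) (τ y) := fun y => τ.liftNormal_commutes _ y
  refine ⟨N, (τ.liftNormal (AlgebraicClosure K)).restrictScalars F, fun i x hx hfix => ?_⟩
  have hx' : ∃ x' : OnePoint L, pmap (algebraMap L (AlgebraicClosure K)) x' = x := by
    induction x using OnePoint.rec with
    | infty => exact ⟨OnePoint.infty, rfl⟩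
    | coe z =>
      obtain ⟨y, hy⟩ := hTL z (Set.mem_iUnion.2 ⟨i, hx⟩)
      exact ⟨(y : OnePoint L), by rw [pmap_coe, hy]⟩
  obtain ⟨x', rfl⟩ := hx'
  have hx2 : IsTgt (RP.ofRat (f i)) (β i) L (((RP.ofRat (f i)).map (algebraMap K L)).act^[N] x') := by
    have h1 : (RP.ofRat (f i)).map (algebraMap K (AlgebraicClosure K)) =
        ((RP.ofRat (f i)).map (algebraMap K L)).map (algebraMap L (AlgebraicClosure K)) := by
      rw [RP.map_map, ← IsScalarTower.algebraMap_eq]
    rw [h1, RP.act_map_iterate, isTgt_map] at hx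
    exact hx
  refine hτ ⟨(i, x'), hx2⟩ ((hsmul _ _).2 ?_)
  show pmap _ x' = x'
  apply pmap_injective (algebraMap L (AlgebraicClosure K))
  conv_rhs => rw [← hfix]
  rw [pmap_comp, pmap_comp]
  congr 1
  exact RingHom.ext fun z => (hs z).symm

end Pool.Agent.ORB
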