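import Mathlib

/-!
ORB, Theorem B: the local setting (tame inertia at a prime of good reduction), definitions.
-/

namespace Pool.Agent.ORB.NI

open Polynomial IntermediateField

/-- an absolute value on an algebraic closure `Ω` of a field `F` with a discrete valuation and finite residue
field, invariant under the automorphisms of `Ω` over `F` -/
structure LocAbs (F Ω : Type*) [Field F] [Field Ω] [Algebra F Ω] where
  /-- the absolute value -/
  N : AbsoluteValue Ω ℝ
  nonarch : ∀ x y : Ω, N (x + y) ≤ max (N x) (N y)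
  inv : ∀ (g : Ω ≃ₐ[F] Ω) (x : Ω), N (g x) = N x
  /-- a uniformizer -/
  π : F
  π_ne : π ≠ 0
  π_lt : N (algebraMap F Ω π) < 1
  disc : ∀ x : F, x ≠ 0 → ∃ n : ℤ, N (algebraMap F Ω x) = N (algebraMap F Ω π) ^ n
  /-- the residue characteristic -/
  p : ℕ
  hp : p.Prime
  p_lt : N (p : Ω) < 1
  /-- the residue field is contained in the field with `p ^ a` elements -/
  a : ℕ
  ha : 1 ≤ a
  fin : ∀ x : F, N (algebraMap F Ω x) ≤ 1 → N (algebraMap F Ω (x ^ p ^ a - x)) < 1

variable {F Ω : Type*} [Field F] [Field Ω] [Algebra F Ω]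

/-- the roots of unity of an order which is a unit -/
def muS (D : LocAbs F Ω) : Set Ω := {ζ | ∃ n : ℕ, 1 ≤ n ∧ ζ ^ n = 1 ∧ D.N (n : Ω) = 1}

/-- `F(mu, ϖ)` -/
noncomputable def MF (D : LocAbs F Ω) (ϖ : Ω) : IntermediateField F Ω := adjoin F (insert ϖ (muS D))

/-- the action of `f` on `Ω` -/
noncomputable def ev (f : F[X]) (z : Ω) : Ω := aeval z f

/-- the points of level `k` above `b` -/
def Node (Ω : Type*) {F : Type*} [Field F] [Field Ω] [Algebra F Ω] (f : F[X]) (b : F) (k : ℕ) : Set Ω :=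
  {z | (ev f)^[k] z = algebraMap F Ω b}

/-- good tame reduction, with critical points which stay different -/
structure Good (D : LocAbs F Ω) (f : F[X]) : Prop where
  deg : 2 ≤ f.natDegree
  coef : ∀ n, D.N (algebraMap F Ω (f.coeff n)) ≤ 1
  lead : D.N (algebraMap F Ω f.leadingCoeff) = 1
  tame : ∀ n : ℕ, 1 ≤ n → n ≤ f.natDegree → D.N (n : Ω) = 1
  sep : ∀ c c' : Ω, aeval c (derivative f) = 0 → aeval c' (derivative f) = 0 → c ≠ c' → D.N (c - c') = 1

/-- `x` is residually periodic -/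
def RPer (D : LocAbs F Ω) (f : F[X]) (x : Ω) : Prop := ∃ r : ℕ, 1 ≤ r ∧ D.N ((ev f)^[r] x - x) < 1

/-- the value of `x` is a power of the value of `ϖ` -/
def Pw (D : LocAbs F Ω) (ϖ x : Ω) : Prop := ∃ k : ℤ, D.N x = D.N ϖ ^ k

end Pool.Agent.ORB.NI
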