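import Pool.Agent.ORB.NTopB
import Pool.Agent.ORB.NBlk
import Pool.Agent.ORB.NGood

/-!
ORB: final theorem: Theorem B (targets which are not `S`-integral), Theorem V+ (preperiodic targets and unicritical
maps) and the blocks of Theorem I together.
-/

namespace Pool.Agent.ORB

open NumberField IsDedekindDomain Polynomial NI

universe u

theorem posDensity_prov_extTF {K : Type u} [Field K] [NumberField K] (F : Type u) [Field F] [NumberField F]
    [Algebra K F] (W : Type u) [Field W] [Algebra K W] [Algebra F W] [IsScalarTower K F W]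
    [IsAlgClosed W] [Algebra.IsAlgebraic F W] {ι : Type} [Finite ι]
    (f : ι → RP K) (hf : ∀ i, 2 ≤ (f i).d) (α β : ι → OnePoint K) (hαβ : ∀ i n, (f i).act^[n] (α i) ≠ β i)
    (hprov : Provides f β) {κ : Type} [Finite κ] (g : κ → RP K) (hg : ∀ i, 2 ≤ (g i).d)
    (α' β' : κ → OnePoint K) (hαβ' : ∀ i n, (g i).act^[n] (α' i) ≠ β' i) (h : ExtTF F W g β') :
    PosDensity (PAvoidSet f α β ∩ PAvoidSet g α' β') := by
  have h1 := coreAt_addF (F := F) (core_iff.1 (core_of_provides1 f hf β hprov) F) W g hg β' h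
  exact h1.posDensity ⟨_, ⟨α, hαβ, rfl⟩, α', hαβ', rfl⟩

/-- finitely many bad places for the polynomials among the `f i` -/
theorem exists_bad_places {K : Type u} [Field K] [NumberField K] {ι : Type} [Finite ι] (f : ι → RatFunc K) :
    ∃ S : Set (HeightOneSpectrum (𝓞 K)), S.Finite ∧ ∀ v ∉ S, ∀ i (p : K[X]), f i = algebraMap K[X] (RatFunc K) p →
      2 ≤ p.natDegree → GoodAt v p := by
  classical
  have key : ∀ i, ∃ S : Set (HeightOneSpectrum (𝓞 K)), S.Finite ∧ ∀ v ∉ S, ∀ (p : K[X]),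
      f i = algebraMap K[X] (RatFunc K) p → 2 ≤ p.natDegree → GoodAt v p := by
    intro i
    by_cases h : ∃ p : K[X], f i = algebraMap K[X] (RatFunc K) p ∧ 2 ≤ p.natDegree
    · obtain ⟨p, hp, hd⟩ := h
      obtain ⟨B, hB, hB'⟩ := good_finite p hd
      refine ⟨B, hB, fun v hv q hq _ => ?_⟩
      have : q = p := RatFunc.algebraMap_injective K (hq.symm.trans hp)
      subst this
      intro F Ω _ _ _ _ _ _ D hD
      exact hB' v hv F Ω D hD
    · exact ⟨∅, Set.finite_empty, fun v _ p hp hd => absurd ⟨p, hp, hd⟩ h⟩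
  choose S hS1 hS2 using key
  exact ⟨⋃ i, S i, Set.finite_iUnion hS1, fun v hv i p hp hd =>
    hS2 i v (fun h => hv (Set.mem_iUnion.2 ⟨i, h⟩)) p hp hd⟩

/-- **Main theorem**, for a general condition `P` on the unicritical indices. The finite set `S` depends only on the
`f i`. The indices in `Q` have a preperiodic `β i` or are unicritical up to conjugacy and iteration; the indices in `A`
are polynomials with `β i` not `S`-integral; the other indices are divided into coprime blocks, and are polynomials if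
`A` is not empty. -/
theorem thmBU {K : Type u} [Field K] [NumberField K]
    {P : ∀ (L : Type u) [Field L] [NumberField L], ℕ → L → L → Prop} (hP : GoodCond P)
    {ι : Type} [Finite ι] (f : ι → RatFunc K) (hf : ∀ i, 2 ≤ rdeg (f i)) :
    ∃ S : Set (HeightOneSpectrum (𝓞 K)), S.Finite ∧ ∀ (α β : ι → OnePoint K)
      (_ : ∀ i n, (ract (RingHom.id K) (f i))^[n] (α i) ≠ β i) (Q A : Set ι)
      (_ : ∀ i ∈ Q, (¬ Function.Injective fun n : ℕ => (ract (RingHom.id K) (f i))^[n] (β i)) ∨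
        UniConj P (f i) (β i))
      (_ : ∀ i ∈ A, ∃ (b : K) (v : HeightOneSpectrum (𝓞 K)), v ∉ S ∧ β i = (b : OnePoint K) ∧
        1 < v.valuation K b)
      (_ : A.Nonempty → ∀ i ∉ Q, ∃ p : K[X], f i = algebraMap K[X] (RatFunc K) p)
      (J : Type) (_ : Finite J) (blk : ι → J) (E : J → ℕ)
      (_ : ∀ j j', j ≠ j' → Nat.Coprime (E j) (E j'))
      (_ : ∀ i, i ∉ Q → i ∉ A → RHasExp (E (blk i)) (f i))
      (_ : ∀ j, OrbitBlock (fun i : {i // (i ∉ Q ∧ i ∉ A) ∧ blk i = j} => f i.1)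
          (fun i : {i // (i ∉ Q ∧ i ∉ A) ∧ blk i = j} => β i.1) ∨
        PrimeBlock (fun i : {i // (i ∉ Q ∧ i ∉ A) ∧ blk i = j} => f i.1)
          (fun i : {i // (i ∉ Q ∧ i ∉ A) ∧ blk i = j} => β i.1) ∨
        ∀ i, i ∉ Q → i ∉ A → blk i = j → TorusMap (algebraMap K (AlgebraicClosure K)) (f i)),
      PosDensity (RAvoidSet f α β) := by
  classical
  obtain ⟨S, hS, hgood⟩ := exists_bad_places f
  refine ⟨S, hS, ?_⟩
  intro α β hαβ Q A hQ hA hpoly J _ blk E hE hexp hblk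
  -- the blocks
  have hprov1 : Provides (fun i : {i // i ∉ Q ∧ i ∉ A} => RP.ofRat (f i.1)) (fun i => β i.1) := by
    refine provides_of_blocks (fun i : {i // i ∉ Q ∧ i ∉ A} => f i.1) (fun i => hf i.1) (fun i => β i.1)
      (fun i => blk i.1) E hE (fun i => hexp i.1 i.2.1 i.2.2) (fun j => ?_)
    rcases hblk j with h | h | h
    · exact provides_of_orbit (fun i : {i : {i // i ∉ Q ∧ i ∉ A} // blk i.1 = j} => f i.1.1) (fun i => hf i.1.1)
        (fun i => β i.1.1) (h.comp (fun i : {i : {i // i ∉ Q ∧ i ∉ A} // blk i.1 = j} => ⟨i.1.1, i.1.2, i.2⟩))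
    · exact provides_of_place (fun i : {i : {i // i ∉ Q ∧ i ∉ A} // blk i.1 = j} => RP.ofRat (f i.1.1))
        (fun i => hf i.1.1) (fun i => β i.1.1)
        (h.comp (fun i : {i : {i // i ∉ Q ∧ i ∉ A} // blk i.1 = j} => ⟨i.1.1, i.1.2, i.2⟩)).placeBlock
    · exact provides_torus (fun i : {i : {i // i ∉ Q ∧ i ∉ A} // blk i.1 = j} => RP.ofRat (f i.1.1)) (fun i => by
        have := hf i.1.1
        show 1 ≤ rdeg (f i.1.1)
        omega) (fun i => (h i.1.1 i.1.2.1 i.1.2.2 i.2).isTorus) (fun i => β i.1.1)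
  -- all indices outside `Q`
  have hprov : Provides (fun i : {i // i ∉ Q} => RP.ofRat (f i.1)) (fun i => β i.1) := by
    by_cases hAn : A.Nonempty
    · choose p hp using fun i : {i // i ∉ Q} => hpoly hAn i.1 i.2
      have hpd : ∀ i, 2 ≤ (p i).natDegree := by
        intro i
        have h1 := hf i.1
        rw [hp i] at h1
        rw [← polyRP_d]
        exact h1
      have hfp : (fun i : {i // i ∉ Q} => RP.ofRat (f i.1)) = fun i => polyRP (p i) := by
        funext i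
        rw [hp i]
        rfl
      rw [hfp]
      refine provides_poly p hpd (fun i => β i.1) {i | i.1 ∈ A} (fun i hi => ?_) ?_
      · obtain ⟨b, v, hv, hb, hvb⟩ := hA i.1 hi
        exact ⟨b, v, hb, fun j => hgood v hv j.1 (p j) (hp j) (hpd j), hvb⟩
      · have h2 := hprov1.comp (fun i : {i : {i // i ∉ Q} // i ∉ {i : {i // i ∉ Q} | i.1 ∈ A}} =>
          (⟨i.1.1, i.1.2, i.2⟩ : {i // i ∉ Q ∧ i ∉ A}))
        have h3 : (fun i : {i : {i // i ∉ Q} // i ∉ {i : {i // i ∉ Q} | i.1 ∈ A}} => RP.ofRat (f i.1.1)) =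
            fun i => polyRP (p i.1) := by
          funext i
          rw [hp i.1]
          rfl
        rw [← h3]
        exact h2
    · rw [Set.not_nonempty_iff_eq_empty] at hAn
      exact hprov1.comp (fun i : {i // i ∉ Q} =>
        (⟨i.1, i.2, by rw [hAn]; exact Set.notMem_empty _⟩ : {i // i ∉ Q ∧ i ∉ A}))
  obtain ⟨F, _, _, _, _, hst, hext⟩ := exists_extTF hP (fun i : {i // i ∈ Q} => f i.1) (fun i => hf i.1)
    (fun i => β i.1) (fun i => hQ i.1 i.2)
  have haF : Algebra.IsAlgebraic F (AlgebraicClosure K) := Algebra.IsAlgebraic.tower_top (K := K) F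
  have hid : ∀ i n, (RP.ofRat (f i)).act^[n] (α i) ≠ β i := by
    intro i n
    have := hαβ i n
    rwa [ract_id] at this
  have h1 := posDensity_prov_extTF F (AlgebraicClosure K) (fun i : {i // i ∉ Q} => RP.ofRat (f i.1))
    (fun i => hf i.1) (fun i => α i.1) (fun i => β i.1) (fun i => hid i.1) hprov
    (fun i : {i // i ∈ Q} => RP.ofRat (f i.1)) (fun i => hf i.1) (fun i => α i.1) (fun i => β i.1)
    (fun i => hid i.1) hext
  refine posDensity_mono ?_ h1
  have hsub : (PAvoidSet (fun i : {i // i ∉ Q} => RP.ofRat (f i.1)) (fun i => α i.1) (fun i => β i.1) ∩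
      PAvoidSet (fun i : {i // i ∈ Q} => RP.ofRat (f i.1)) (fun i => α i.1) (fun i => β i.1)) ⊆
      RAvoidSet f α β := by
    rw [← PAvoidSet_rat]
    rintro v ⟨hv1, hv2⟩ i n
    by_cases hi : i ∈ Q
    · exact hv2 ⟨i, hi⟩ n
    · exact hv1 ⟨i, hi⟩ n
  rw [Set.sdiff_eq_empty.2 hsub]
  exact Set.finite_empty

/-- indices with a preperiodic `α i` only contribute finitely many places -/
theorem finite_drop {K : Type u} [Field K] [NumberField K] {ι : Type} [Finite ι] (f : ι → RatFunc K)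
    (α β : ι → OnePoint K) (hαβ : ∀ i n, (ract (RingHom.id K) (f i))^[n] (α i) ≠ β i) (T : Set ι)
    (hT : ∀ i ∈ T, ¬ Function.Injective fun n : ℕ => (ract (RingHom.id K) (f i))^[n] (α i)) :
    (RAvoidSet (fun i : {i // i ∉ T} => f i.1) (fun i => α i.1) (fun i => β i.1) \ RAvoidSet f α β).Finite := by
  have hfin : (⋃ i : {i // i ∈ T}, {v : HeightOneSpectrum (𝓞 K) |
      ∃ n, SameRed v ((ract (RingHom.id K) (f i.1))^[n] (α i.1)) (β i.1)}).Finite := by
    refine Set.finite_iUnion fun i => ?_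
    obtain ⟨s, hs⟩ := orbit_finite (hT i.1 i.2)
    have h1 : (⋃ x : {x // x ∈ s ∧ x ≠ β i.1}, {v : HeightOneSpectrum (𝓞 K) | SameRed v x.1 (β i.1)}).Finite := by
      have : Finite {x // x ∈ s ∧ x ≠ β i.1} :=
        Finite.of_injective (fun x => (⟨x.1, x.2.1⟩ : {x // x ∈ s})) fun x y hxy =>
          Subtype.ext (congrArg (fun z : {x // x ∈ s} => z.1) hxy)
      exact Set.finite_iUnion fun x => finite_sameRed x.2.2
    refine h1.subset ?_
    rintro v ⟨n, hn⟩
    exact Set.mem_iUnion.2 ⟨⟨_, hs n, hαβ i.1 n⟩, hn⟩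
  refine hfin.subset ?_
  rintro v ⟨hv1, hv2⟩
  by_contra hv3
  apply hv2
  intro i n hn
  by_cases hi : i ∈ T
  · exact hv3 (Set.mem_iUnion.2 ⟨⟨i, hi⟩, n, hn⟩)
  · exact hv1 ⟨i, hi⟩ n hn

theorem posDensity_drop {K : Type u} [Field K] [NumberField K] {ι : Type} [Finite ι] (f : ι → RatFunc K)
    (α β : ι → OnePoint K) (hαβ : ∀ i n, (ract (RingHom.id K) (f i))^[n] (α i) ≠ β i) (T : Set ι)
    (hT : ∀ i ∈ T, ¬ Function.Injective fun n : ℕ => (ract (RingHom.id K) (f i))^[n] (α i))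
    (h : PosDensity (RAvoidSet (fun i : {i // i ∉ T} => f i.1) (fun i => α i.1) (fun i => β i.1))) :
    PosDensity (RAvoidSet f α β) :=
  posDensity_mono (finite_drop f α β hαβ T hT) h

/-- **Main theorem**, with preperiodic `α i` as well -/
theorem thmBUT {K : Type u} [Field K] [NumberField K]
    {P : ∀ (L : Type u) [Field L] [NumberField L], ℕ → L → L → Prop} (hP : GoodCond P)
    {ι : Type} [Finite ι] (f : ι → RatFunc K) (hf : ∀ i, 2 ≤ rdeg (f i)) :
    ∃ S : Set (HeightOneSpectrum (𝓞 K)), S.Finite ∧ ∀ (α β : ι → OnePoint K)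
      (_ : ∀ i n, (ract (RingHom.id K) (f i))^[n] (α i) ≠ β i) (Q A : Set ι)
      (_ : ∀ i ∈ Q, (¬ Function.Injective fun n : ℕ => (ract (RingHom.id K) (f i))^[n] (α i)) ∨
        (¬ Function.Injective fun n : ℕ => (ract (RingHom.id K) (f i))^[n] (β i)) ∨ UniConj P (f i) (β i))
      (_ : ∀ i ∈ A, ∃ (b : K) (v : HeightOneSpectrum (𝓞 K)), v ∉ S ∧ β i = (b : OnePoint K) ∧
        1 < v.valuation K b)
      (_ : A.Nonempty → ∀ i ∉ Q, ∃ p : K[X], f i = algebraMap K[X] (RatFunc K) p)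
      (J : Type) (_ : Finite J) (blk : ι → J) (E : J → ℕ)
      (_ : ∀ j j', j ≠ j' → Nat.Coprime (E j) (E j'))
      (_ : ∀ i, i ∉ Q → i ∉ A → RHasExp (E (blk i)) (f i))
      (_ : ∀ j, OrbitBlock (fun i : {i // (i ∉ Q ∧ i ∉ A) ∧ blk i = j} => f i.1)
          (fun i : {i // (i ∉ Q ∧ i ∉ A) ∧ blk i = j} => β i.1) ∨
        PrimeBlock (fun i : {i // (i ∉ Q ∧ i ∉ A) ∧ blk i = j} => f i.1)
          (fun i : {i // (i ∉ Q ∧ i ∉ A) ∧ blk i = j} => β i.1) ∨
        ∀ i, i ∉ Q → i ∉ A → blk i = j → TorusMap (algebraMap K (AlgebraicClosure K)) (f i)),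
      PosDensity (RAvoidSet f α β) := by
  classical
  choose S hS1 hS2 using fun T : Set ι => thmBU hP (fun i : {i // i ∉ T} => f i.1) (fun i => hf i.1)
  refine ⟨⋃ T, S T, Set.finite_iUnion hS1, ?_⟩
  intro α β hαβ Q A hQ hA hpoly J _ blk E hE hexp hblk
  set T : Set ι := {i | i ∈ Q ∧ ¬ Function.Injective fun n : ℕ => (ract (RingHom.id K) (f i))^[n] (α i)} with hTdef
  refine posDensity_drop f α β hαβ T (fun i hi => hi.2) ?_
  refine hS2 T (fun i => α i.1) (fun i => β i.1) (fun i => hαβ i.1) {i | i.1 ∈ Q} {i | i.1 ∈ A} (fun i hi => ?_)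
    (fun i hi => ?_) (fun hAn i hi => ?_) J inferInstance (fun i => blk i.1) E hE
    (fun i hi1 hi2 => hexp i.1 hi1 hi2) (fun j => ?_)
  · rcases hQ i.1 hi with h | h
    · exact absurd ⟨hi, h⟩ i.2
    · exact h
  · obtain ⟨b, v, hv, hb⟩ := hA i.1 hi
    exact ⟨b, v, fun h => hv (Set.mem_iUnion.2 ⟨T, h⟩), hb⟩
  · obtain ⟨a, ha⟩ := hAn
    exact hpoly ⟨a.1, ha⟩ i.1 hi
  · rcases hblk j with h | h | h
    · exact Or.inl (h.comp (fun i : {i : {i // i ∉ T} // (i ∉ {i : {i // i ∉ T} | i.1 ∈ Q} ∧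
        i ∉ {i : {i // i ∉ T} | i.1 ∈ A}) ∧ blk i.1 = j} =>
          (⟨i.1.1, i.2⟩ : {i // (i ∉ Q ∧ i ∉ A) ∧ blk i = j})))
    · exact Or.inr (Or.inl (h.comp (fun i : {i : {i // i ∉ T} // (i ∉ {i : {i // i ∉ T} | i.1 ∈ Q} ∧
        i ∉ {i : {i // i ∉ T} | i.1 ∈ A}) ∧ blk i.1 = j} =>
          (⟨i.1.1, i.2⟩ : {i // (i ∉ Q ∧ i ∉ A) ∧ blk i = j}))))
    · exact Or.inr (Or.inr fun i h1 h2 h3 => h i.1 h1 h2 h3)

end Pool.Agent.ORB
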