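import Pool.Agent.ORB.UFlip

/-!
ORB, Theorem V for `x ^ p + c`: a trivial level above a flip gives equivariant `p`-th roots of
`x_2 - x`.
-/

set_option autoImplicit false

namespace Pool.Agent.ORB.UQ

open Finset

universe u

/-- **trivial levels** -/
theorem equiv_root {K W : Type u} [Field K] [Field W] [CharZero W] [Algebra K W] [IsAlgClosed W]
    [Algebra.IsAlgebraic K W] {p : ℕ} (hp : p.Prime) {ζ c b : K} (hζ : IsPrimitiveRoot ζ p)
    (_hb : ∀ n, 1 ≤ n → (uf p c)^[n] 0 ≠ b) (_hT : ∀ l, Tran p W c b l) {l : ℕ}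
    (hF : FlipAt p ζ W c b l) (htriv : ¬ Nontriv p W c b (l + 1)) :
    ∃ e : W → W, ∀ x ∈ Lev p W c b l, e x ^ p = algebraMap K W ((uf p c)^[2] 0) - x ∧
      ∀ g : W ≃ₐ[K] W, g (e x) = e (g x) := by
  classical
  have hp0 := hp.ne_zero
  have hζ' : IsPrimitiveRoot (algebraMap K W ζ) p := hζ.map_of_injective (algebraMap K W).injective
  set C : W := algebraMap K W c with hC
  obtain ⟨h, hh0, hh1⟩ := hF
  have htr : ∀ g : W ≃ₐ[K] W, (∀ y ∈ Lev p W c b (l + 1), g y = y) →
      ∀ z ∈ Lev p W c b (l + 2), g z = z := by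
    intro g hg z hz
    by_contra hne
    exact htriv ⟨g, hg, z, hz, hne⟩
  -- the power `p` of `h`
  have hhp : ∀ z ∈ Lev p W c b (l + 2), (h ^ p) z = z := by
    refine htr _ fun y hy => ?_
    rw [flip_pow hh1 p y hy, ← map_pow, hζ.pow_eq_one, map_one, one_mul]
  -- `h` commutes with everything on the level `l + 2`
  have hcomm : ∀ g : W ≃ₐ[K] W, ∀ z ∈ Lev p W c b (l + 2), g (h z) = h (g z) := by
    intro g z hz
    have h3 := htr (h⁻¹ * (g⁻¹ * (h * g))) (fun y hy => by
      rw [AlgEquiv.mul_apply, AlgEquiv.mul_apply, AlgEquiv.mul_apply, hh1 _ (Lev_aut g hy), map_mul,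
        AlgEquiv.commutes, ← AlgEquiv.mul_apply g⁻¹ g, inv_mul_cancel, AlgEquiv.one_apply]
      exact inv_eq.2 (hh1 y hy).symm) z hz
    rw [AlgEquiv.mul_apply, AlgEquiv.mul_apply, AlgEquiv.mul_apply] at h3
    have h4 := inv_eq.1 h3
    exact (inv_eq.1 h4).symm
  have hcommp : ∀ g : W ≃ₐ[K] W, ∀ m : ℕ, ∀ z ∈ Lev p W c b (l + 2),
      g ((h ^ m) z) = (h ^ m) (g z) := by
    intro g m
    induction m with
    | zero => exact fun z _ => rfl
    | succ m ih =>
      intro z hz
      rw [pow_succ, AlgEquiv.mul_apply, AlgEquiv.mul_apply, ih _ (Lev_aut h hz), hcomm g z hz]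
  -- the product over the powers of `h`
  set E : W → W := fun z => ∏ m ∈ range p, (h ^ m) z with hE
  have hEh : ∀ z ∈ Lev p W c b (l + 2), E (h z) = E z := by
    intro z hz
    have h3 : ∀ m, (h ^ m) (h z) = (h ^ (m + 1)) z := fun m => by
      rw [pow_succ, AlgEquiv.mul_apply]
    have h4 : E (h z) = ∏ m ∈ range p, (h ^ (m + 1)) z := prod_congr rfl fun m _ => h3 m
    obtain ⟨q, rfl⟩ := Nat.exists_eq_succ_of_ne_zero hp0
    rw [h4]
    simp only [hE]
    rw [prod_range_succ, hhp z hz, prod_range_succ' (fun m => (h ^ m) z) q, pow_zero,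
      AlgEquiv.one_apply]
  have hEha : ∀ a : ℕ, ∀ z ∈ Lev p W c b (l + 2), E ((h ^ a) z) = E z := by
    intro a
    induction a with
    | zero => exact fun z _ => rfl
    | succ a ih =>
      intro z hz
      rw [pow_succ, AlgEquiv.mul_apply, ih _ (Lev_aut h hz), hEh z hz]
  have hEζ : ∀ i : ℕ, ∀ z : W, E (algebraMap K W ζ ^ i * z) = E z := by
    intro i z
    have h3 : ∀ m ∈ range p, (h ^ m) (algebraMap K W ζ ^ i * z) =
        algebraMap K W ζ ^ i * (h ^ m) z := fun m _ => by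
      rw [map_mul, ← map_pow, AlgEquiv.commutes]
    simp only [hE]
    rw [prod_congr rfl h3, prod_mul_distrib, prod_const, card_range, ← pow_mul, mul_comm i p,
      pow_mul, ← map_pow, hζ.pow_eq_one, map_one, one_pow, one_mul]
  -- dependence only on the node of the level `l`
  have hEeq : ∀ z ∈ Lev p W c b (l + 2), ∀ z' ∈ Lev p W c b (l + 2),
      (uf p C)^[2] z = (uf p C)^[2] z' → E z = E z' := by
    intro z hz z' hz' h3
    have h4 : uf p C (uf p C z) = uf p C (uf p C z') := h3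
    obtain ⟨a, ha, h5⟩ := (uf_eq_iff hp0 hζ).1 h4
    have hyL : uf p C z ∈ Lev p W c b (l + 1) := Lev_succ.1 hz
    rw [← flip_pow hh1 a _ hyL, hC, aut_uf, ← hC] at h5
    obtain ⟨i, hi, h6⟩ := (uf_eq_iff hp0 hζ).1 h5.symm
    rw [h6, hEζ, hEha a z hz]
  have hEg : ∀ g : W ≃ₐ[K] W, ∀ z ∈ Lev p W c b (l + 2), g (E z) = E (g z) := by
    intro g z hz
    simp only [hE]
    rw [map_prod]
    exact prod_congr rfl fun m _ => hcommp g m z hz
  -- the power
  have hEp : ∀ z ∈ Lev p W c b (l + 2), (-E z) ^ p = (uf p C)^[2] 0 - (uf p C)^[2] z := by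
    intro z hz
    set y : W := uf p C z with hy
    have hyL : y ∈ Lev p W c b (l + 1) := Lev_succ.1 hz
    have hz2 : z ^ p = y - C := by
      rw [hy, uf]
      ring
    have h3 : ∀ m ∈ range p, ((h ^ m) z) ^ p = algebraMap K W ζ ^ m * y - C := by
      intro m _
      rw [← map_pow, hz2, map_sub, flip_pow hh1 m y hyL, hC, AlgEquiv.commutes]
    have h4 : (E z) ^ p = ∏ m ∈ range p, (algebraMap K W ζ ^ m * y - C) := by
      simp only [hE]
      rw [← prod_pow]
      exact prod_congr rfl h3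
    have h5 : C ^ p - y ^ p = ∏ m ∈ range p, (C - algebraMap K W ζ ^ m * y) := by
      rw [hζ'.pow_sub_pow_eq_prod_sub_mul C y hp.pos]
      symm
      refine prod_bij (fun m _ => algebraMap K W ζ ^ m) ?_ ?_ ?_ ?_
      · intro m _
        rw [Polynomial.mem_nthRootsFinset hp.pos, ← pow_mul, mul_comm m p, pow_mul, hζ'.pow_eq_one,
          one_pow]
      · intro i hi j hj hij
        exact hζ'.pow_inj (mem_range.1 hi) (mem_range.1 hj) hij
      · intro x hx
        rw [Polynomial.mem_nthRootsFinset hp.pos] at hx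
        have : NeZero p := ⟨hp0⟩
        obtain ⟨i, hi, h6⟩ := hζ'.eq_pow_of_pow_eq_one hx
        exact ⟨i, mem_range.2 hi, h6⟩
      · intro m _
        rfl
    have h6 : ∏ m ∈ range p, (algebraMap K W ζ ^ m * y - C) =
        (-1) ^ p * ∏ m ∈ range p, (C - algebraMap K W ζ ^ m * y) := by
      have h7 : ∏ m ∈ range p, (algebraMap K W ζ ^ m * y - C) =
          ∏ m ∈ range p, ((-1) * (C - algebraMap K W ζ ^ m * y)) :=
        prod_congr rfl fun m _ => by ring
      rw [h7, prod_mul_distrib, prod_const, card_range]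
    have h8 : ((-1 : W) ^ p) * (-1) ^ p = 1 := by
      rw [← mul_pow]
      simp
    rw [neg_pow, h4, h6, ← mul_assoc, h8, one_mul, ← h5]
    show C ^ p - y ^ p = (uf p C (uf p C 0)) - uf p C (uf p C z)
    rw [← hy]
    simp only [uf]
    rw [zero_pow hp0, zero_add]
    ring
  -- the choice of a node above
  have hpre : ∀ x : W, ∃ z, (uf p C)^[2] z = x := fun x => exists_pre hp0 C 2 x
  choose s hs using hpre
  have hsL : ∀ x ∈ Lev p W c b l, s x ∈ Lev p W c b (l + 2) := fun x hx =>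
    Lev_iter.2 (by rw [← hC, hs x]; exact hx)
  refine ⟨fun x => -E (s x), fun x hx => ⟨?_, fun g => ?_⟩⟩
  · show (-E (s x)) ^ p = _
    rw [hEp _ (hsL x hx), hs x, uf_map, ← hC, map_zero]
  · show g (-E (s x)) = -E (s (g x))
    rw [map_neg, hEg g _ (hsL x hx)]
    congr 1
    refine hEeq _ (Lev_aut g (hsL x hx)) _ (hsL _ (Lev_aut g hx)) ?_
    rw [hs, hC, ← aut_iter, ← hC, hs]

end Pool.Agent.ORB.UQ
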