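import Pool.Agent.ORB.URunge
import Pool.Agent.ORB.UTriv

/-!
ORB, unicritical maps: all the high levels are nontrivial.
-/

set_option autoImplicit false

namespace Pool.Agent.ORB.UQ

open Finset Polynomial NumberField IsDedekindDomain

universe u

/-- the size of a level is bounded by the degree of a field which contains one of its elements -/
theorem card_le_finrank {K W : Type u} [Field K] [CharZero K] [Field W] [Algebra K W] [IsAlgClosed W]
    {p : ℕ} (hp : p ≠ 0) {c b : K} (hb : ∀ n, 1 ≤ n → (uf p c)^[n] 0 ≠ b) {l : ℕ}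
    (hT : Tran p W c b l) (L : IntermediateField K W) [FiniteDimensional K L] {y : W}
    (hy : y ∈ Lev p W c b l) (hyL : y ∈ L) : p ^ l ≤ Module.finrank K L := by
  classical
  have : CharZero W := charZero_of_injective_algebraMap (algebraMap K W).injective
  have hb' : ∀ i y, (uf p (algebraMap K W c))^[i] y = algebraMap K W b → y ≠ algebraMap K W c :=
    fun i y hy => ne_of_Lev hp hb hy
  have h1 : (pre p (algebraMap K W c) l (algebraMap K W b)).card = p ^ l :=
    card_pre hp l fun i _ y hy => hb' i y hy
  have hint : IsIntegral K (⟨y, hyL⟩ : L) := Algebra.IsIntegral.isIntegral _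
  have h2 : minpoly K (⟨y, hyL⟩ : L) = minpoly K y :=
    (minpoly.algebraMap_eq (algebraMap L W).injective (⟨y, hyL⟩ : L)).symm
  have hne : minpoly K y ≠ 0 := by
    rw [← h2]
    exact minpoly.ne_zero hint
  have h3 : pre p (algebraMap K W c) l (algebraMap K W b) ⊆
      ((minpoly K y).map (algebraMap K W)).roots.toFinset := by
    intro z hz
    rw [mem_pre hp] at hz
    obtain ⟨g, rfl⟩ := hT y hy z hz
    rw [Multiset.mem_toFinset, mem_roots (by rwa [Polynomial.map_ne_zero_iff (algebraMap K W).injective]),
      IsRoot, eval_map_algebraMap]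
    have h4 := Polynomial.aeval_algHom_apply (g : W →ₐ[K] W) y (minpoly K y)
    rw [minpoly.aeval, map_zero] at h4
    exact h4
  rw [← h1]
  refine (card_le_card h3).trans ((Multiset.toFinset_card_le _).trans ((card_roots' _).trans ?_))
  rw [natDegree_map, ← h2]
  exact minpoly.natDegree_le _

/-- the levels are not all trivial above a given one -/
theorem exists_nontriv {K W : Type u} [Field K] [NumberField K] [Field W] [Algebra K W]
    [IsAlgClosed W] [Algebra.IsAlgebraic K W] {p : ℕ} (hp : 2 ≤ p) {c b : K}
    (hb : ∀ n, 1 ≤ n → (uf p c)^[n] 0 ≠ b) (hT : ∀ l, Tran p W c b l) (l1 : ℕ) :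
    ∃ l, l1 ≤ l ∧ Nontriv p W c b l := by
  by_contra hno
  push Not at hno
  have hp0 : p ≠ 0 := by omega
  have hG := galois_W K W
  have hfd := LF_finite (W := W) hp0 c b l1
  have hfix : ∀ g : W ≃ₐ[K] W, (∀ y ∈ Lev p W c b l1, g y = y) → ∀ m, ∀ y ∈ Lev p W c b (l1 + m),
      g y = y := by
    intro g hg m
    induction m with
    | zero => exact hg
    | succ m ih =>
      intro z hz
      by_contra hne
      exact hno (l1 + m) (Nat.le_add_right _ _) ⟨g, ih, z, hz, hne⟩
  have hmem : ∀ m, ∀ y ∈ Lev p W c b (l1 + m), y ∈ LF p W c b l1 := by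
    intro m y hy
    rw [← InfiniteGalois.fixedField_fixingSubgroup (LF p W c b l1), IntermediateField.mem_fixedField_iff]
    intro g hg
    exact hfix g (fun z hz => (IntermediateField.mem_fixingSubgroup_iff _ _).1 hg z
      (IntermediateField.subset_adjoin _ _ hz)) m y hy
  have hcz : CharZero W := charZero_of_injective_algebraMap (algebraMap K W).injective
  set m := Module.finrank K (LF p W c b l1) with hm
  obtain ⟨y, hy⟩ : ∃ y, y ∈ Lev p W c b (l1 + m) := exists_pre hp0 (algebraMap K W c) (l1 + m) _
  have h1 := card_le_finrank hp0 hb (hT (l1 + m)) (LF p W c b l1) hy (hmem m y hy)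
  have h2 : m < p ^ (l1 + m) :=
    (Nat.lt_pow_self (by omega : 1 < p)).trans_le (Nat.pow_le_pow_right (by omega) (Nat.le_add_left _ _))
  omega

/-- **U8**: all the high levels are nontrivial -/
theorem nontriv_eventually {K W : Type u} [Field K] [NumberField K] [Field W] [Algebra K W]
    [IsAlgClosed W] [Algebra.IsAlgebraic K W] {p : ℕ} (hp : p.Prime) {ζ c b : K}
    (hζ : IsPrimitiveRoot ζ p) (h0 : Function.Injective fun n : ℕ => (uf p c)^[n] 0)
    (hb : ∀ n, 1 ≤ n → (uf p c)^[n] 0 ≠ b) (hT : ∀ l, Tran p W c b l) :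
    ∃ l0, ∀ l, l0 ≤ l → Nontriv p W c b l := by
  classical
  have hcz : CharZero W := charZero_of_injective_algebraMap (algebraMap K W).injective
  have hp0 := hp.ne_zero
  have hb' : ∀ i y, (uf p (algebraMap K W c))^[i] y = algebraMap K W b → y ≠ algebraMap K W c :=
    fun i y hy => ne_of_Lev hp0 hb hy
  obtain ⟨k, hk⟩ := finite_eqrad (W := W) hp h0 hb
  obtain ⟨B, hB⟩ := hk.bddAbove
  have hstep : ∀ l, k + B ≤ l → Nontriv p W c b l → Nontriv p W c b (l + 1) := by
    intro l hl hn
    by_contra htriv
    obtain ⟨e, he⟩ := equiv_root hp hζ hb hT (flip_of_move hp hζ (hT l) hn) htriv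
    have h1 : EqRad p W c b k ((uf p c)^[l - k + 1] 0)
        (fun z => ∏ x ∈ pre p (algebraMap K W c) (l - k) z, e x) := by
      intro z hz
      have hLev : ∀ x ∈ pre p (algebraMap K W c) (l - k) z, x ∈ Lev p W c b l := by
        intro x hx
        rw [mem_pre hp0] at hx
        have h3 := Function.iterate_add_apply (uf p (algebraMap K W c)) k (l - k) x
        rw [Nat.add_sub_cancel' (by omega : k ≤ l)] at h3
        rw [mem_Lev, h3, hx, hz]
      constructor
      · simp only []
        rw [← prod_pow, prod_congr rfl fun x hx => (he x (hLev x hx)).1,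
          prod_sub hp0 (l - k) (fun i _ y hy => hb' (k + i) y (by
            rw [Function.iterate_add_apply, hy, hz])), uf_map, uf_map, ← Function.iterate_add_apply,
          map_zero]
        have h4 : l - k + 2 = (l - k + 1) + 1 := rfl
        rw [h4, Function.iterate_succ_apply']
        simp only [uf]
        ring
      · intro g
        simp only []
        rw [map_prod, ← aut_pre hp0 g]
        exact prod_congr rfl fun x hx => (he x (hLev x hx)).2 g
    have h2 := hB (⟨_, h1⟩ : l - k + 1 ∈ {n : ℕ | ∃ Y : W → W, EqRad p W c b k ((uf p c)^[n] 0) Y})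
    omega
  obtain ⟨l2, hl2, hn2⟩ := exists_nontriv (W := W) hp.two_le hb hT (k + B)
  refine ⟨l2, fun l hl => ?_⟩
  induction l, hl using Nat.le_induction with
  | base => exact hn2
  | succ l hl ih => exact hstep l (hl2.trans hl) ih

end Pool.Agent.ORB.UQ
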