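import Pool.Agent.ORB.UTransfer

/-!
ORB, Theorem V+ (U9b): strictly preperiodic targets have the extension property.
-/

set_option autoImplicit false

namespace Pool.Agent.ORB.UQ

open NumberField IsDedekindDomain Polynomial

/-- a preperiodic orbit is finite -/
theorem orbit_finite {X : Type*} (f : X → X) {b : X}
    (h : ¬ Function.Injective fun n : ℕ => f^[n] b) : {x | ∃ n : ℕ, f^[n] b = x}.Finite := by
  have h' : ∃ i j : ℕ, i < j ∧ f^[i] b = f^[j] b := by
    by_contra hcon
    push Not at hcon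
    apply h
    intro i j hij
    rcases lt_trichotomy i j with h1 | h1 | h1
    · exact absurd hij (hcon i j h1)
    · exact h1
    · exact absurd hij.symm (hcon j i h1)
  obtain ⟨i, j, hij, he⟩ := h'
  have hall : ∀ n, ∃ e < j, f^[n] b = f^[e] b := by
    intro n
    induction n with
    | zero => exact ⟨0, by omega, rfl⟩
    | succ n ih =>
      obtain ⟨e, he1, he2⟩ := ih
      by_cases h2 : e + 1 < j
      · exact ⟨e + 1, h2, by rw [Function.iterate_succ_apply', he2, Function.iterate_succ_apply' f e b]⟩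
      · have h3 : e + 1 = j := by omega
        refine ⟨i, hij, ?_⟩
        rw [Function.iterate_succ_apply', he2, he, ← h3, Function.iterate_succ_apply' f e b]
  refine ((Finset.range j).finite_toSet.image fun e => f^[e] b).subset ?_
  rintro x ⟨n, rfl⟩
  obtain ⟨e, he1, he2⟩ := hall n
  exact ⟨e, Finset.mem_coe.2 (Finset.mem_range.2 he1), he2.symm⟩

/-- strictly preperiodic points have the extension property -/
theorem extP_preper {K W : Type*} [Field K] [NumberField K] [Field W] [Algebra K W] [IsAlgClosed W]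
    [Algebra.IsAlgebraic K W] {d : ℕ} (hd : d ≠ 0) {c b : K}
    (hpre : ¬ Function.Injective fun n : ℕ => (uf d c)^[n] b)
    (hper : b ∉ Function.periodicPts (uf d c)) : ExtP d W c b := by
  classical
  by_contra hno
  unfold ExtP at hno
  push Not at hno
  obtain ⟨T, hT, s₁, hno⟩ := hno
  set C : W := algebraMap K W c with hCdef
  set b' : W := algebraMap K W b with hb'def
  have hper' : ∀ n, 1 ≤ n → (uf d c)^[n] b ≠ b := fun n hn h => hper ⟨n, hn, h⟩
  set U : Set W := {u | u ∈ ({C, b'} : Set W) ∧ u ≠ 0} ∪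
    (fun x : K => algebraMap K W x - b') '' {x | (∃ n : ℕ, (uf d c)^[n] b = x) ∧ x ≠ b} with hUdef
  have hUf : U.Finite := by
    refine Set.Finite.union ?_ (Set.Finite.image _ ((orbit_finite _ hpre).subset fun x hx => hx.1))
    exact (Set.toFinite ({C, b'} : Set W)).subset fun u hu => hu.1
  have hU0 : ∀ u ∈ U, u ≠ 0 := by
    rintro u (hu | ⟨x, ⟨-, hx⟩, rfl⟩)
    · exact hu.2
    · intro h
      exact hx ((algebraMap K W).injective (sub_eq_zero.1 h))
  obtain ⟨p, hp, -, H⟩ := frob_W s₁ hT hUf hU0 0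
  set L : Set W := ⋃ i ∈ Finset.range (p + 1), Lev d W c b i with hLdef
  have hL : L.Finite := Set.Finite.biUnion (Finset.finite_toSet _) fun i _ => Lev_finite hd c b i
  have hLmem : ∀ i, i ≤ p → ∀ z ∈ Lev d W c b i, z ∈ L := fun i hi z hz =>
    Set.mem_iUnion₂.2 ⟨i, Finset.mem_range.2 (Nat.lt_succ_of_le hi), hz⟩
  obtain ⟨A, t, s', g1, g2, g3, g4⟩ := H L hL
  set v := A.valuation with hv
  have hint : ∀ u ∈ ({C, b'} : Set W), v u ≤ 1 := by
    intro u hu
    by_cases h0 : u = 0
    · rw [h0, map_zero]; exact zero_le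
    · exact (g3 u (Or.inl ⟨hu, h0⟩)).le
  have hvC : v C ≤ 1 := hint C (by simp)
  have hvb : v b' ≤ 1 := hint b' (by simp)
  obtain ⟨x, hxL, hsx⟩ := hno p s' g1
  have hxL' : (uf d C)^[p] x = b' := hxL
  have hxi : ∀ i, i ≤ p → (uf d C)^[i] x ∈ Lev d W c b (p - i) := by
    intro i hi
    rw [← Lev_iter, Nat.sub_add_cancel hi]
    exact hxL
  have htxi : ∀ i, i ≤ p → t ((uf d C)^[i] x) = (uf d C)^[i] x := by
    intro i hi
    refine (g2 _ (hLmem _ (Nat.sub_le _ _) _ (hxi i hi))).2 ?_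
    rw [aut_iter d c s' i x, hsx]
  have hvx : v x ≤ 1 := int_back_iter hd hvC p (by rw [hxL']; exact hvb)
  have hvxi : ∀ i, v ((uf d C)^[i] x) ≤ 1 := fun i => (cong_iter (d := d) hvC (Cong.refl hvx) i).1
  obtain ⟨i1, i2, hi12, hi2, hcong0⟩ := pigeon A hp (fun i => (uf d C)^[i] x) (fun i _ => hvxi i)
    (fun i hi => by
      have h3 := g4 _ (hLmem _ (Nat.sub_le _ _) _ (hxi i hi)) (hvxi i)
      rw [htxi i hi] at h3
      exact h3)
  have h2 : Cong v ((uf d C)^[i1] x) ((uf d C)^[i2] x) := ⟨hvxi _, hvxi _, hcong0⟩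
  have h3 := cong_iter (d := d) hvC h2 (p - i1)
  rw [← Function.iterate_add_apply, ← Function.iterate_add_apply] at h3
  have e1 : p - i1 + i1 = p := by omega
  have e2 : p - i1 + i2 = (i2 - i1) + p := by omega
  rw [e1, e2, Function.iterate_add_apply, hxL'] at h3
  have e3 : (uf d C)^[i2 - i1] b' = algebraMap K W ((uf d c)^[i2 - i1] b) :=
    (uf_map (algebraMap K W) d c b _).symm
  rw [e3] at h3
  have h4 : v (algebraMap K W ((uf d c)^[i2 - i1] b) - b') = 1 :=
    g3 _ (Or.inr ⟨_, ⟨⟨_, rfl⟩, hper' _ (by omega)⟩, rfl⟩)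
  have h5 := h3.symm.2.2
  rw [h4] at h5
  exact lt_irrefl _ h5

end Pool.Agent.ORB.UQ
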