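import Mathlib

/-!
ORB, Theorem V, row R1: the part about 2-groups.
-/

namespace Pool.Agent.ORB.VQ

open MulAction

theorem pair_finite {Q α : Type*} [Group Q] [Finite Q] [MulAction Q α] [Finite α]
    [IsPretransitive Q α] (hQ : IsPGroup 2 Q) (R : α → α → Prop) (hR : Equivalence R)
    (hinv : ∀ (q : Q) (x y : α), R x y → R (q • x) (q • y)) (x₀ y₀ : α) (h0 : R x₀ y₀)
    (hne : x₀ ≠ y₀) (y : α) :
    ∃ y', y' ≠ y ∧ R y y' ∧ ∀ q : Q, q • y = y ↔ q • y' = y' := by
  classical
  have : Fact (Nat.Prime 2) := ⟨Nat.prime_two⟩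
  -- a second element in the class of `y`
  obtain ⟨q₀, hq₀⟩ := exists_smul_eq Q x₀ y
  have hy1 : R y (q₀ • y₀) := by
    have := hinv q₀ _ _ h0
    rwa [hq₀] at this
  have hy2 : q₀ • y₀ ≠ y := by
    intro h
    rw [← hq₀] at h
    exact hne (MulAction.injective q₀ h).symm
  -- the stabiliser of the class
  let B : Subgroup Q :=
    { carrier := {q | R y (q • y)}
      mul_mem' := by
        intro p q hp hq
        show R y ((p * q) • y)
        rw [mul_smul]
        exact hR.trans hp (hinv p _ _ hq)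
      one_mem' := by
        show R y ((1 : Q) • y)
        rw [one_smul]
        exact hR.refl y
      inv_mem' := by
        intro q hq
        show R y (q⁻¹ • y)
        have h1 := hinv q⁻¹ _ _ hq
        rw [inv_smul_smul] at h1
        exact hR.symm h1 }
  have horb : ∀ x, R y x → x ∈ orbit B y := by
    intro x hx
    obtain ⟨q, hq⟩ := exists_smul_eq Q y x
    have hqB : q ∈ B := by
      show R y (q • y)
      rw [hq]
      exact hx
    exact ⟨⟨q, hqB⟩, hq⟩
  let S : Subgroup Q := stabilizer Q y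
  let Cl : SubMulAction S α :=
    { carrier := {x | R y x}
      smul_mem' := by
        intro q x hx
        show R y ((q : Q) • x)
        have h1 := hinv (q : Q) _ _ hx
        have h2 : (q : Q) • y = y := q.2
        rwa [h2] at h1 }
  have hcl : Nat.card Cl = Nat.card (orbit B y) := by
    refine Nat.card_congr (Equiv.subtypeEquivRight fun x => ?_)
    constructor
    · intro hx
      exact horb x hx
    · rintro ⟨q, rfl⟩
      exact q.2
  have hyCl : y ∈ Cl := hR.refl y
  have hdvd : 2 ∣ Nat.card Cl := by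
    obtain ⟨n, hn⟩ := (hQ.to_subgroup B).card_orbit y
    rw [hcl, hn]
    rcases Nat.eq_zero_or_pos n with h | h
    · exfalso
      rw [h, pow_zero, ← hcl] at hn
      have hsub : Subsingleton Cl := (Nat.card_eq_one_iff_unique.1 hn).1
      have h3 : (⟨q₀ • y₀, hy1⟩ : Cl) = ⟨y, hyCl⟩ := Subsingleton.elim _ _
      exact hy2 (congrArg (fun x : Cl => (x : α)) h3)
    · exact dvd_pow_self 2 h.ne'
  obtain ⟨y', hy', hyy'⟩ := (hQ.to_subgroup S).exists_fixed_point_of_prime_dvd_card_of_fixed_point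
    Cl hdvd (a := ⟨y, hyCl⟩) (by
      intro q
      apply Subtype.ext
      exact q.2)
  refine ⟨y', fun h => hyy' (Subtype.ext h.symm), y'.2, ?_⟩
  have hle : stabilizer Q y ≤ stabilizer Q (y' : α) := by
    intro q hq
    have := hy' ⟨q, hq⟩
    exact congrArg (fun x : Cl => (x : α)) this
  have heq : stabilizer Q y = stabilizer Q (y' : α) := by
    refine Subgroup.eq_of_le_of_card_ge hle ?_
    have h1 := (stabilizer Q y).card_mul_index
    have h2 := (stabilizer Q (y' : α)).card_mul_index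
    rw [index_stabilizer_of_transitive] at h1 h2
    have h3 : 0 < Nat.card α := Nat.card_pos_iff.2 ⟨⟨y⟩, inferInstance⟩
    exact (Nat.eq_of_mul_eq_mul_right h3 (h2.trans h1.symm)).le
  intro q
  rw [← mem_stabilizer_iff, ← mem_stabilizer_iff, heq]

theorem pair {G α : Type*} [Group G] [MulAction G α] [Finite α] [IsPretransitive G α]
    (hG : ∀ g : G, ∃ k : ℕ, ∀ x : α, g ^ (2 ^ k) • x = x) (R : α → α → Prop) (hR : Equivalence R)
    (hinv : ∀ (q : G) (x y : α), R x y → R (q • x) (q • y)) (x₀ y₀ : α) (h0 : R x₀ y₀)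
    (hne : x₀ ≠ y₀) (y : α) :
    ∃ y', y' ≠ y ∧ R y y' ∧ ∀ q : G, q • y = y ↔ q • y' = y' := by
  let Q : Subgroup (Equiv.Perm α) := (toPermHom G α).range
  have hact : ∀ (g : G) (x : α), (⟨toPermHom G α g, ⟨g, rfl⟩⟩ : Q) • x = g • x := fun _ _ => rfl
  have htr : IsPretransitive Q α := ⟨fun x z => by
    obtain ⟨g, hg⟩ := exists_smul_eq G x z
    exact ⟨⟨toPermHom G α g, ⟨g, rfl⟩⟩, hg⟩⟩
  have hQ : IsPGroup 2 Q := by
    rintro ⟨_, g, rfl⟩
    obtain ⟨k, hk⟩ := hG g
    refine ⟨k, ?_⟩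
    apply Subtype.ext
    show (toPermHom G α g) ^ (2 ^ k) = 1
    rw [← map_pow]
    ext x
    exact hk x
  obtain ⟨y', h1, h2, h3⟩ := pair_finite hQ R hR (by
    rintro ⟨_, g, rfl⟩ x z h
    exact hinv g x z h) x₀ y₀ h0 hne y
  exact ⟨y', h1, h2, fun g => h3 ⟨toPermHom G α g, ⟨g, rfl⟩⟩⟩

end Pool.Agent.ORB.VQ
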