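import Pool.Agent.ORB.VBase
import Pool.Agent.ORB.VPair

/-!
ORB, Theorem V, row R1: the tree of the preimages; an automorphism which cannot be extended to a
derangement produces pairs of nodes with the same stabiliser and the same square classes.
-/

namespace Pool.Agent.ORB.VQ

open Finset

section basic
variable {K W : Type*} [Field K] [Field W] [Algebra K W]

theorem exists_pre [IsAlgClosed W] (c : W) (e : ℕ) (x : W) : ∃ z, (qm c)^[e] z = x := by
  induction e with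
  | zero => exact ⟨x, rfl⟩
  | succ e ih =>
    obtain ⟨y, hy⟩ := ih
    exact ⟨rt c y, by rw [Function.iterate_succ_apply, qm_rt, hy]⟩

theorem levFin [IsAlgClosed W] (c b : K) (l : ℕ) : (Lev W c b l).Finite :=
  (pre (algebraMap K W c) l (algebraMap K W b)).finite_toSet.subset fun _ hx => mem_pre.2 hx

theorem fix_down [IsAlgClosed W] {c b : K} {g : W ≃ₐ[K] W} {l : ℕ}
    (hg : ∀ x ∈ Lev W c b l, g x = x) {i : ℕ} (hi : i ≤ l) (x : W) (hx : x ∈ Lev W c b i) :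
    g x = x := by
  obtain ⟨e, rfl⟩ := Nat.exists_eq_add_of_le hi
  obtain ⟨z, rfl⟩ := exists_pre (algebraMap K W c) e x
  rw [aut_iter, hg z (Lev_iter.2 hx)]

theorem pow_fix {c b : K} (g : W ≃ₐ[K] W) (l : ℕ) (x : W) (hx : x ∈ Lev W c b l) :
    (g ^ (2 ^ l)) x = x := by
  induction l generalizing x with
  | zero =>
    have : x = algebraMap K W b := hx
    rw [this]
    exact (g ^ (2 ^ 0)).commutes b
  | succ l ih =>
    have h1 := ih _ (Lev_qm.1 hx)
    rw [aut_qm, eq_comm, qm_eq_iff] at h1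
    rw [pow_succ, pow_mul, sq, AlgEquiv.mul_apply]
    rcases h1 with h1 | h1
    · rw [h1, h1]
    · rw [h1, map_neg, h1, neg_neg]

/-- the finite stable hull of a finite set -/
theorem exists_hull [Algebra.IsAlgebraic K W] (T : Set W) (hT : T.Finite) :
    ∃ T' : Set W, T'.Finite ∧ T ⊆ T' ∧ ∀ (g : W ≃ₐ[K] W), ∀ t ∈ T', g t ∈ T' := by
  refine ⟨⋃ t ∈ T, (minpoly K t).rootSet W, ?_, ?_, ?_⟩
  · exact hT.biUnion fun t _ => Polynomial.rootSet_finite _ _
  · intro t ht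
    refine Set.mem_biUnion ht ?_
    rw [Polynomial.mem_rootSet]
    exact ⟨minpoly.ne_zero (Algebra.IsAlgebraic.isAlgebraic t).isIntegral, minpoly.aeval K t⟩
  · intro g t ht
    rw [Set.mem_iUnion₂] at ht ⊢
    obtain ⟨s, hs, h⟩ := ht
    refine ⟨s, hs, ?_⟩
    rw [Polynomial.mem_rootSet] at h ⊢
    refine ⟨h.1, ?_⟩
    rw [← AlgEquiv.coe_toAlgHom g, Polynomial.aeval_algHom_apply, h.2, map_zero]

/-- pigeonhole -/
theorem eventually_recurrent {α : Type*} [Finite α] (r : ℕ → α) :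
    ∃ N, ∀ l, N ≤ l → ∃ l', l < l' ∧ r l' = r l := by
  by_contra hcon
  push Not at hcon
  have hinf : {l | ∀ l', l < l' → r l' ≠ r l}.Infinite := by
    rw [Set.infinite_iff_exists_gt]
    intro N
    obtain ⟨l, hl, h⟩ := hcon (N + 1)
    exact ⟨l, h, hl⟩
  refine hinf ((Set.toFinite (r '' _)).of_finite_image fun l hl l' hl' h => ?_)
  rcases lt_trichotomy l l' with h1 | h1 | h1
  · exact absurd h.symm (hl l' h1)
  · exact h1
  · exact absurd h (hl' l h1)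

/-- flips which fix a given finite set -/
theorem flip_fixing [IsAlgClosed W] {c b : K} {l₀ : ℕ} (hF : ∀ l, l₀ ≤ l → FlipAt W c b l)
    (T : Set W) (hT : T.Finite) (hst : ∀ (g : W ≃ₐ[K] W), ∀ t ∈ T, g t ∈ T) :
    ∃ N, l₀ ≤ N ∧ ∀ l, N ≤ l → ∃ g : W ≃ₐ[K] W, (∀ t ∈ T, g t = t) ∧
      (∀ y ∈ Lev W c b l, g y = y) ∧ ∀ z ∈ Lev W c b (l + 1), g z = -z := by
  classical
  have : ∀ l, ∃ g : W ≃ₐ[K] W, l₀ ≤ l → (∀ y ∈ Lev W c b l, g y = y) ∧
      ∀ z ∈ Lev W c b (l + 1), g z = -z := by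
    intro l
    by_cases h : l₀ ≤ l
    · obtain ⟨g, hg⟩ := hF l h
      exact ⟨g, fun _ => hg⟩
    · exact ⟨1, fun h' => absurd h' h⟩
  choose G hG using this
  have hTf : Finite T := hT
  obtain ⟨N, hN⟩ := eventually_recurrent (fun l => (fun t : T => (⟨G l t, hst _ _ t.2⟩ : T)))
  refine ⟨max l₀ N, le_max_left _ _, fun l hl => ?_⟩
  obtain ⟨l', hll', heq⟩ := hN l ((le_max_right _ _).trans hl)
  have h1 := hG l ((le_max_left _ _).trans hl)
  have h2 := hG l' ((le_max_left _ _).trans (hl.trans hll'.le))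
  have hinv : ∀ x y : W, G l' x = y → (G l')⁻¹ y = x := fun x y h => by
    rw [← h, ← AlgEquiv.mul_apply, inv_mul_cancel, AlgEquiv.one_apply]
  refine ⟨(G l')⁻¹ * G l, fun t ht => ?_, fun y hy => ?_, fun z hz => ?_⟩
  · rw [AlgEquiv.mul_apply]
    apply hinv
    exact congrArg (fun φ : T → T => (φ ⟨t, ht⟩ : W)) heq
  · rw [AlgEquiv.mul_apply, h1.1 y hy]
    exact hinv _ _ (fix_down h2.1 hll'.le y hy)
  · rw [AlgEquiv.mul_apply, h1.2 z hz]
    exact hinv _ _ (fix_down h2.1 hll' _ (Lev_neg hz))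

end basic

section count
variable {K W : Type*} [Field K] [Field W] [Algebra K W] [IsAlgClosed W]

theorem sum_pre {c : W} (h2 : (2 : W) ≠ 0) (e : ℕ) {x : W}
    (h : ∀ y, (qm c)^[e] y = x → y ≠ c) {M : Type*} [AddCommMonoid M] (φ : W → M) :
    ∑ z ∈ pre c (e + 1) x, φ z = ∑ y ∈ pre c e x, (φ (rt c y) + φ (-rt c y)) :=
  Multiplicative.ofAdd.injective (by
    rw [ofAdd_sum, ofAdd_sum, prod_pre h2 e h]
    rfl)

open Classical in
/-- the fixed points of `s` on the level `l` -/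
noncomputable def Fx (c b : K) (s : W ≃ₐ[K] W) (l : ℕ) : Finset W :=
  (pre (algebraMap K W c) l (algebraMap K W b)).filter fun x => s x = x

theorem mem_Fx {c b : K} {s : W ≃ₐ[K] W} {l : ℕ} {x : W} :
    x ∈ Fx c b s l ↔ x ∈ Lev W c b l ∧ s x = x := by
  classical
  rw [Fx, mem_filter, mem_pre]
  rfl

open Classical in
/-- the sign of `g` above the node `y` -/
noncomputable def sgn (c : K) (g : W ≃ₐ[K] W) (y : W) : ℤ :=
  if g (rt (algebraMap K W c) y) = rt (algebraMap K W c) y then 1 else -1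

theorem rt_dich {c : K} {g : W ≃ₐ[K] W} {y : W} (hg : g y = y) :
    g (rt (algebraMap K W c) y) = rt (algebraMap K W c) y ∨
      g (rt (algebraMap K W c) y) = -rt (algebraMap K W c) y := by
  have h1 : g (qm (algebraMap K W c) (rt (algebraMap K W c) y)) =
      qm (algebraMap K W c) (rt (algebraMap K W c) y) := by rw [qm_rt, hg]
  rw [aut_qm, eq_comm, qm_eq_iff] at h1
  exact h1

variable {c b : K} (h2 : (2 : W) ≠ 0) (hb : ∀ n, 1 ≤ n → (qm c)^[n] 0 ≠ b)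
include h2 hb

theorem rt_ne' {l : ℕ} {y : W} (hy : y ∈ Lev W c b l) :
    rt (algebraMap K W c) y ≠ -rt (algebraMap K W c) y := rt_ne h2 (ne_of_Lev hb hy)

omit h2 hb in
theorem sgn_one_iff {y : W} (g : W ≃ₐ[K] W) :
    sgn c g y = 1 ↔ g (rt (algebraMap K W c) y) = rt (algebraMap K W c) y := by
  classical
  rw [sgn]
  split_ifs with h
  · simp [h]
  · simp [h]

theorem sgn_mul {l : ℕ} {y : W} (hy : y ∈ Lev W c b l) {s g : W ≃ₐ[K] W} (hs : s y = y)
    (hg : g y = y) : sgn c (s * g) y = sgn c s y * sgn c g y := by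
  classical
  have hne := rt_ne' h2 hb hy
  rcases rt_dich (c := c) hs with h1 | h1 <;> rcases rt_dich (c := c) hg with h3 | h3
  · rw [sgn, sgn, sgn, AlgEquiv.mul_apply, h3, h1, if_pos rfl, mul_one]
  · rw [sgn, sgn, sgn, AlgEquiv.mul_apply, h3, map_neg, h1, if_pos rfl, if_neg hne.symm, one_mul]
  · rw [sgn, sgn, sgn, AlgEquiv.mul_apply, h3, h1, if_pos rfl, if_neg hne.symm, mul_one]
  · rw [sgn, sgn, sgn, AlgEquiv.mul_apply, h3, map_neg, h1, neg_neg, if_pos rfl,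
      if_neg hne.symm]
    norm_num

theorem card_Fx_succ (s : W ≃ₐ[K] W) (l : ℕ) :
    ((Fx c b s (l + 1)).card : ℤ) = ∑ y ∈ Fx c b s l, (1 + sgn c s y) := by
  classical
  have hC : ∀ y, (qm (algebraMap K W c))^[l] y = algebraMap K W b → y ≠ algebraMap K W c :=
    fun y hy => ne_of_Lev (l := l) hb hy
  rw [Fx, card_filter, Nat.cast_sum, sum_pre h2 l hC, Fx, sum_filter]
  refine sum_congr rfl fun y hy => ?_
  have hyL : y ∈ Lev W c b l := mem_pre.1 hy
  have hne := rt_ne' h2 hb hyL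
  have hneg : s (-rt (algebraMap K W c) y) = -rt (algebraMap K W c) y ↔
      s (rt (algebraMap K W c) y) = rt (algebraMap K W c) y := by
    rw [map_neg, neg_inj]
  by_cases h : s y = y
  · rw [if_pos h, sgn]
    rcases rt_dich (c := c) h with h1 | h1
    · simp [h1]
    · have h3 : s (rt (algebraMap K W c) y) ≠ rt (algebraMap K W c) y := by
        rw [h1]
        exact hne.symm
      rw [if_neg h3, if_neg h3, if_neg fun h4 => h3 (hneg.1 h4)]
      norm_num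
  · have h3 : s (rt (algebraMap K W c) y) ≠ rt (algebraMap K W c) y := by
      intro h4
      apply h
      have h5 := congrArg (qm (algebraMap K W c)) h4
      rw [← aut_qm, qm_rt] at h5
      exact h5
    rw [if_neg h, if_neg h3, if_neg fun h4 => h3 (hneg.1 h4)]
    norm_num

omit h2 hb in
theorem Fx_mul {s g : W ≃ₐ[K] W} {l : ℕ} (hg : ∀ y ∈ Lev W c b l, g y = y) :
    Fx c b (s * g) l = Fx c b s l := by
  ext x
  rw [mem_Fx, mem_Fx]
  refine and_congr_right fun hx => ?_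
  rw [AlgEquiv.mul_apply, hg x hx]

theorem flip_count {s g : W ≃ₐ[K] W} {l : ℕ} (hg : ∀ y ∈ Lev W c b l, g y = y)
    (hg' : ∀ z ∈ Lev W c b (l + 1), g z = -z) :
    (Fx c b s (l + 1)).card + (Fx c b (s * g) (l + 1)).card = 2 * (Fx c b s l).card := by
  have h1 := card_Fx_succ h2 hb s l
  have h3 := card_Fx_succ h2 hb (s * g) l
  rw [Fx_mul hg] at h3
  have h4 : ∀ y ∈ Fx c b s l, 1 + sgn c (s * g) y = 1 - sgn c s y := by
    intro y hy
    obtain ⟨hy1, hy2⟩ := mem_Fx.1 hy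
    have h5 : sgn c g y = -1 := by
      have h6 := hg' (rt (algebraMap K W c) y) (Lev_qm.2 (by rw [qm_rt]; exact hy1))
      rw [sgn, h6, if_neg (rt_ne' h2 hb hy1).symm]
    rw [sgn_mul h2 hb hy1 hy2 (hg y hy1), h5]
    ring
  rw [sum_congr rfl h4] at h3
  have h5 : ((Fx c b s (l + 1)).card : ℤ) + (Fx c b (s * g) (l + 1)).card =
      2 * (Fx c b s l).card := by
    rw [h1, h3, ← sum_add_distrib, sum_congr rfl (g := fun _ => (2 : ℤ)) (fun y _ => by ring),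
      sum_const]
    simp [mul_comm]
  exact_mod_cast h5

end count

section main
variable {K W : Type*} [Field K] [Field W] [Algebra K W] [IsAlgClosed W]

/-- the automorphisms which fix `T` and the level `l` -/
def Ufix (T : Set W) (c b : K) (l : ℕ) : Subgroup (W ≃ₐ[K] W) where
  carrier := {g | (∀ t ∈ T, g t = t) ∧ ∀ x ∈ Lev W c b l, g x = x}
  mul_mem' := by
    rintro g h ⟨h1, h2⟩ ⟨h3, h4⟩
    exact ⟨fun t ht => by rw [AlgEquiv.mul_apply, h3 t ht, h1 t ht],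
      fun x hx => by rw [AlgEquiv.mul_apply, h4 x hx, h2 x hx]⟩
  one_mem' := ⟨fun _ _ => rfl, fun _ _ => rfl⟩
  inv_mem' := by
    rintro g ⟨h1, h2⟩
    have : ∀ x : W, g x = x → g⁻¹ x = x := fun x hx => by
      conv_lhs => rw [← hx]
      rw [← AlgEquiv.mul_apply, inv_mul_cancel, AlgEquiv.one_apply]
    exact ⟨fun t ht => this t (h1 t ht), fun x hx => this x (h2 x hx)⟩

omit [IsAlgClosed W] in
theorem mem_Ufix {T : Set W} {c b : K} {l : ℕ} {g : W ≃ₐ[K] W} :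
    g ∈ Ufix T c b l ↔ (∀ t ∈ T, g t = t) ∧ ∀ x ∈ Lev W c b l, g x = x := Iff.rfl

/-- the character of a node -/
noncomputable def chr (h2 : (2 : W) ≠ 0) (T : Set W) {c b : K}
    (hb : ∀ n, 1 ≤ n → (qm c)^[n] 0 ≠ b) {l : ℕ} (y : Lev W c b l) : Ufix T c b l →* ℤ where
  toFun h := sgn c (h : W ≃ₐ[K] W) y
  map_one' := by
    classical
    show sgn c (1 : W ≃ₐ[K] W) y = 1
    rw [sgn_one_iff]
    rfl
  map_mul' g h := sgn_mul h2 hb y.2 (g.2.2 y y.2) (h.2.2 y y.2)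

/-- orthogonality gives two nodes with the same character -/
theorem exists_same_chr (h2 : (2 : W) ≠ 0) (T : Set W) {c b : K}
    (hb : ∀ n, 1 ≤ n → (qm c)^[n] 0 ≠ b) {l m : ℕ} (s₁ : W ≃ₐ[K] W) (hm : 0 < m)
    (hl : (Fx c b s₁ l).card = m)
    (hcard : ∀ h ∈ Ufix T c b l, (Fx c b (s₁ * h) (l + 1)).card = m) :
    ∃ y y' : Lev W c b l, y ≠ y' ∧ chr h2 T hb y = chr h2 T hb y' := by
  classical
  by_contra hcon
  push Not at hcon
  let ι : {x // x ∈ Fx c b s₁ l} ↪ Lev W c b l :=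
    ⟨fun x => ⟨x.1, (mem_Fx.1 x.2).1⟩, fun x y h => Subtype.ext (congrArg
      (fun z : Lev W c b l => (z : W)) h)⟩
  let F : Finset (Lev W c b l) := (Fx c b s₁ l).attach.map ι
  have hF : ∀ φ : W → ℤ, ∑ y ∈ F, φ y = ∑ y ∈ Fx c b s₁ l, φ y := by
    intro φ
    rw [sum_map, ← sum_attach (Fx c b s₁ l) φ]
    rfl
  have hrel : ∑ y ∈ F, sgn c s₁ y • (chr h2 T hb y : Ufix T c b l → ℤ) = 0 := by
    funext h
    rw [Finset.sum_apply, Pi.zero_apply]
    have h3 := card_Fx_succ h2 hb (s₁ * h.1) l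
    rw [hcard h.1 h.2, Fx_mul h.2.2] at h3
    have h4 : ∑ y ∈ Fx c b s₁ l, (1 + sgn c (s₁ * h.1) y) =
        (m : ℤ) + ∑ y ∈ Fx c b s₁ l, sgn c s₁ y * sgn c h.1 y := by
      rw [sum_add_distrib, sum_const, hl, nsmul_eq_mul, mul_one]
      congr 1
      refine sum_congr rfl fun y hy => ?_
      obtain ⟨hy1, hy2⟩ := mem_Fx.1 hy
      exact sgn_mul h2 hb hy1 hy2 (h.2.2 y hy1)
    rw [h4] at h3
    have h5 : ∑ y ∈ Fx c b s₁ l, sgn c s₁ y * sgn c h.1 y = 0 := by linarith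
    rw [← hF (fun y => sgn c s₁ y * sgn c h.1 y)] at h5
    exact h5
  have hinj : Function.Injective fun y : Lev W c b l => chr h2 T hb y := fun y y' h => by
    by_contra hne
    exact hcon y y' hne h
  have hli := (linearIndependent_monoidHom (Ufix T c b l) ℤ).comp _ hinj
  have h6 := linearIndependent_iff'.1 hli F (fun y => sgn c s₁ y) hrel
  obtain ⟨x, hx⟩ := Finset.card_pos.1 (hl.symm ▸ hm)
  have h7 := h6 ⟨x, (mem_Fx.1 hx).1⟩ (by
    rw [mem_map]
    exact ⟨⟨x, hx⟩, mem_attach _ _, rfl⟩)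
  rw [sgn] at h7
  split_ifs at h7 <;> omega

omit [IsAlgClosed W] in
theorem inv_fix {g : W ≃ₐ[K] W} {x y : W} : g⁻¹ x = y ↔ x = g y := by
  constructor
  · intro h
    rw [← h, ← AlgEquiv.mul_apply, mul_inv_cancel, AlgEquiv.one_apply]
  · intro h
    rw [h, ← AlgEquiv.mul_apply, inv_mul_cancel, AlgEquiv.one_apply]

/-- an automorphism fixes one child iff it fixes the chosen one -/
theorem fix_child {c : K} {u : W ≃ₐ[K] W} {y z : W} (hz : qm (algebraMap K W c) z = y) :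
    u z = z ↔ u (rt (algebraMap K W c) y) = rt (algebraMap K W c) y := by
  rcases qm_eq_iff'.1 hz with h | h
  · rw [h]
  · rw [h, map_neg, neg_inj]

theorem sgn_conj {c : K} (g h : W ≃ₐ[K] W) (y : W) :
    sgn c h (g y) = sgn c (g⁻¹ * h * g) y := by
  classical
  have h1 : h (rt (algebraMap K W c) (g y)) = rt (algebraMap K W c) (g y) ↔
      (g⁻¹ * h * g) (rt (algebraMap K W c) y) = rt (algebraMap K W c) y := by
    rw [← fix_child (z := g (rt (algebraMap K W c) y)) (by rw [← aut_qm, qm_rt]),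
      AlgEquiv.mul_apply, AlgEquiv.mul_apply, inv_fix]
  rw [sgn, sgn]
  by_cases h3 : h (rt (algebraMap K W c) (g y)) = rt (algebraMap K W c) (g y)
  · rw [if_pos h3, if_pos (h1.1 h3)]
  · rw [if_neg h3, if_neg fun h4 => h3 (h1.2 h4)]

omit [IsAlgClosed W] in
theorem Ufix_conj {T : Set W} (hst : ∀ (g : W ≃ₐ[K] W), ∀ t ∈ T, g t ∈ T) {c b : K} {l : ℕ}
    {h : W ≃ₐ[K] W} (hh : h ∈ Ufix T c b l) (g : W ≃ₐ[K] W) : g⁻¹ * h * g ∈ Ufix T c b l := by
  refine ⟨fun t ht => ?_, fun x hx => ?_⟩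
  · rw [AlgEquiv.mul_apply, AlgEquiv.mul_apply, inv_fix]
    exact hh.1 _ (hst g t ht)
  · rw [AlgEquiv.mul_apply, AlgEquiv.mul_apply, inv_fix]
    exact hh.2 _ (Lev_aut g hx)

omit [IsAlgClosed W] in
/-- the action on a level -/
@[reducible]
def levAct (c b : K) (l : ℕ) : MulAction (W ≃ₐ[K] W) (Lev W c b l) where
  smul g x := ⟨g x, Lev_aut g x.2⟩
  one_smul _ := rfl
  mul_smul _ _ _ := rfl

/-- **R1**: if an automorphism cannot be extended to a derangement, then every node of a high level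
has a partner with the same stabiliser and the same sign character. -/
theorem pairs [Algebra.IsAlgebraic K W] (h2 : (2 : W) ≠ 0) {c b : K}
    (hb : ∀ n, 1 ≤ n → (qm c)^[n] 0 ≠ b) (hT : ∀ l, Tran W c b l) (l₀ : ℕ)
    (hF : ∀ l, l₀ ≤ l → FlipAt W c b l) (hE : ¬ ExtP W c b) :
    ∃ (T : Set W) (l₁ : ℕ), T.Finite ∧ (∀ (g : W ≃ₐ[K] W), ∀ t ∈ T, g t ∈ T) ∧
      Lev W c b l₁ ⊆ T ∧ ∀ l, l₁ ≤ l → ∀ y ∈ Lev W c b l, ∃ y' ∈ Lev W c b l, y' ≠ y ∧
        (∀ g : W ≃ₐ[K] W, g y = y ↔ g y' = y') ∧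
        ∀ u ∈ Ufix T c b l, ∀ z z', qm (algebraMap K W c) z = y →
          qm (algebraMap K W c) z' = y' → (u z = z ↔ u z' = z') := by
  classical
  rw [ExtP] at hE
  push Not at hE
  obtain ⟨T₀, hT₀, s₀, hs₀⟩ := hE
  obtain ⟨T, hTf, hTT, hst⟩ := exists_hull (K := K) T₀ hT₀
  obtain ⟨N, -, hN⟩ := flip_fixing hF T hTf hst
  let P : Set ℕ := {n | ∃ l, N ≤ l ∧ ∃ s : W ≃ₐ[K] W, (∀ t ∈ T, s t = s₀ t) ∧
    (Fx c b s l).card = n}
  have hP : P.Nonempty := ⟨_, N, le_rfl, s₀, fun _ _ => rfl, rfl⟩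
  set m := sInf P with hm
  obtain ⟨l₁, hl₁, s₁, hs₁, hcard₁⟩ := Nat.sInf_mem hP
  have hmin : ∀ l, N ≤ l → ∀ s : W ≃ₐ[K] W, (∀ t ∈ T, s t = s₀ t) → m ≤ (Fx c b s l).card :=
    fun l hl s hs => Nat.sInf_le ⟨l, hl, s, hs, rfl⟩
  have hmpos : 0 < m := by
    obtain ⟨z, hz, hsz⟩ := hs₀ l₁ s₁ fun t ht => hs₁ t (hTT ht)
    rw [hm, ← hcard₁]
    exact card_pos.2 ⟨z, mem_Fx.2 ⟨hz, hsz⟩⟩
  have hclaim : ∀ l, l₁ ≤ l → ∀ s : W ≃ₐ[K] W,
      (∀ t ∈ T ∪ Lev W c b l₁, s t = s₁ t) → (Fx c b s l).card = m := by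
    intro l hl
    induction l, hl using Nat.le_induction with
    | base =>
      intro s hs
      rw [hm, ← hcard₁]
      congr 1
      ext x
      rw [mem_Fx, mem_Fx]
      refine and_congr_right fun hx => ?_
      rw [hs x (Or.inr hx)]
    | succ l hl ih =>
      intro s hs
      obtain ⟨g, hg1, hg2, hg3⟩ := hN l (hl₁.trans hl)
      have h3 := flip_count h2 hb (s := s) hg2 hg3
      rw [ih s hs] at h3
      have h4 := hmin (l + 1) (hl₁.trans (hl.trans l.le_succ)) s fun t ht => by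
        rw [hs t (Or.inl ht), hs₁ t ht]
      have h5 := hmin (l + 1) (hl₁.trans (hl.trans l.le_succ)) (s * g) fun t ht => by
        rw [AlgEquiv.mul_apply, hg1 t ht, hs t (Or.inl ht), hs₁ t ht]
      omega
  refine ⟨T ∪ Lev W c b l₁, l₁, hTf.union (levFin c b l₁), ?_, Set.subset_union_right, ?_⟩
  · rintro g t (ht | ht)
    · exact Or.inl (hst g t ht)
    · exact Or.inr (Lev_aut g ht)
  intro l hl y hy
  set T₁ : Set W := T ∪ Lev W c b l₁ with hT₁
  have hst₁ : ∀ (g : W ≃ₐ[K] W), ∀ t ∈ T₁, g t ∈ T₁ := by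
    rintro g t (ht | ht)
    · exact Or.inl (hst g t ht)
    · exact Or.inr (Lev_aut g ht)
  obtain ⟨y₀, y₀', hne, hchr⟩ := exists_same_chr h2 T₁ hb s₁ hmpos
    (hclaim l hl s₁ fun _ _ => rfl) fun h hh => hclaim (l + 1) (hl.trans l.le_succ) _
      fun t ht => by rw [AlgEquiv.mul_apply, hh.1 t ht]
  let _ : MulAction (W ≃ₐ[K] W) (Lev W c b l) := levAct c b l
  have hsmul : ∀ (g : W ≃ₐ[K] W) (x : Lev W c b l), ((g • x : Lev W c b l) : W) = g x :=
    fun _ _ => rfl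
  have hfin : Finite (Lev W c b l) := levFin c b l
  have htr : MulAction.IsPretransitive (W ≃ₐ[K] W) (Lev W c b l) := ⟨fun x z => by
    obtain ⟨g, hg⟩ := hT l x x.2 z z.2
    exact ⟨g, Subtype.ext hg⟩⟩
  obtain ⟨y', h3, h4, h5⟩ := pair (G := W ≃ₐ[K] W) (α := Lev W c b l)
    (fun g => ⟨l, fun x => Subtype.ext (pow_fix g l x x.2)⟩)
    (fun x z => chr h2 T₁ hb x = chr h2 T₁ hb z)
    ⟨fun _ => rfl, fun h => h.symm, fun h h' => h.trans h'⟩ (by
      intro g x z hxz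
      refine MonoidHom.ext fun h => ?_
      show sgn c h.1 (g x) = sgn c h.1 (g z)
      rw [sgn_conj, sgn_conj]
      exact congrArg (fun φ : Ufix T₁ c b l →* ℤ => φ ⟨g⁻¹ * h.1 * g, Ufix_conj hst₁ h.2 g⟩) hxz)
    y₀ y₀' hchr hne ⟨y, hy⟩
  refine ⟨y', y'.2, fun h => h3 (Subtype.ext h), fun g => ?_, fun u hu z z' hz hz' => ?_⟩
  · have h6 := h5 g
    rw [Subtype.ext_iff, Subtype.ext_iff] at h6
    exact h6
  · have h6 : sgn c u y = sgn c u y' :=
      congrArg (fun φ : Ufix T₁ c b l →* ℤ => φ ⟨u, hu⟩) h4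
    rw [fix_child hz, fix_child hz', ← sgn_one_iff, ← sgn_one_iff, h6]

end main

end Pool.Agent.ORB.VQ
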