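import Pool.Agent.ORB.UDefs
import Pool.Agent.ORB.VTree

/-!
ORB, Theorem V for `x ^ d + c`, row U1: if an automorphism cannot be extended to a derangement, then
some extension has the same number of fixed points on all high levels, and so do all its
modifications.
-/

set_option autoImplicit false

namespace Pool.Agent.ORB.UQ

open Finset Polynomial

section basic
variable {K W : Type*} [Field K] [Field W] [Algebra K W]

theorem exists_pre [IsAlgClosed W] {d : ℕ} (hd : d ≠ 0) (c : W) (e : ℕ) (x : W) :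
    ∃ z, (uf d c)^[e] z = x := by
  induction e with
  | zero => exact ⟨x, rfl⟩
  | succ e ih =>
    obtain ⟨y, hy⟩ := ih
    obtain ⟨z, hz⟩ := IsAlgClosed.exists_pow_nat_eq (y - c) (Nat.pos_of_ne_zero hd)
    refine ⟨z, ?_⟩
    rw [Function.iterate_succ_apply]
    have : uf d c z = y := by rw [uf, hz, sub_add_cancel]
    rw [this, hy]

theorem aut_uf (d : ℕ) (c : K) (g : W ≃ₐ[K] W) (z : W) :
    g (uf d (algebraMap K W c) z) = uf d (algebraMap K W c) (g z) := aut_iter d c g 1 z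

theorem fix_down [IsAlgClosed W] {d : ℕ} (hd : d ≠ 0) {c b : K} {g : W ≃ₐ[K] W} {l : ℕ}
    (hg : ∀ x ∈ Lev d W c b l, g x = x) {i : ℕ} (hi : i ≤ l) (x : W) (hx : x ∈ Lev d W c b i) :
    g x = x := by
  obtain ⟨e, rfl⟩ := Nat.exists_eq_add_of_le hi
  obtain ⟨z, rfl⟩ := exists_pre hd (algebraMap K W c) e x
  rw [aut_iter, hg z (Lev_iter.2 hx)]

theorem mem_Lev_zero {d : ℕ} {c b : K} {z : W} : z ∈ Lev d W c b 0 ↔ z = algebraMap K W b := Iff.rfl

theorem Lev_zeta {d : ℕ} {c b ζ : K} (hζ : ζ ^ d = 1) {l : ℕ} {z : W} (hz : z ∈ Lev d W c b (l + 1)) :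
    algebraMap K W ζ * z ∈ Lev d W c b (l + 1) := by
  rw [Lev_succ] at hz ⊢
  have h1 : uf d (algebraMap K W c) (algebraMap K W ζ * z) = uf d (algebraMap K W c) z := by
    simp only [uf, mul_pow, ← map_pow, hζ, map_one, one_mul]
  rw [h1]
  exact hz

theorem ne_zero_of_Lev {d : ℕ} (hd : d ≠ 0) {c b : K} (hb : ∀ n, 1 ≤ n → (uf d c)^[n] 0 ≠ b) {l : ℕ}
    {z : W} (hz : z ∈ Lev d W c b (l + 1)) : z ≠ 0 := by
  rintro rfl
  refine ne_of_Lev hd hb (Lev_succ.1 hz) ?_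
  rw [uf, zero_pow hd, zero_add]

theorem inv_eq {g : W ≃ₐ[K] W} {x y : W} : g⁻¹ x = y ↔ x = g y := by
  constructor
  · intro h
    rw [← h, ← AlgEquiv.mul_apply, mul_inv_cancel, AlgEquiv.one_apply]
  · intro h
    rw [h, ← AlgEquiv.mul_apply, inv_mul_cancel, AlgEquiv.one_apply]

/-- powers of a flip -/
theorem flip_pow {d : ℕ} {c b ζ : K} {l : ℕ} {g : W ≃ₐ[K] W}
    (hg' : ∀ z ∈ Lev d W c b (l + 1), g z = algebraMap K W ζ * z) (a : ℕ) (z : W)
    (hz : z ∈ Lev d W c b (l + 1)) : (g ^ a) z = algebraMap K W ζ ^ a * z := by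
  induction a with
  | zero => simp
  | succ a ih =>
    rw [pow_succ, AlgEquiv.mul_apply, hg' z hz, map_mul, ih, AlgEquiv.commutes, pow_succ]
    ring

theorem fix_pow {g : W ≃ₐ[K] W} {x : W} (h : g x = x) (a : ℕ) : (g ^ a) x = x := by
  induction a with
  | zero => simp
  | succ a ih => rw [pow_succ, AlgEquiv.mul_apply, h, ih]

/-- flips which fix a given finite set -/
theorem flip_fixing [IsAlgClosed W] {d : ℕ} (hd : d ≠ 0) {c b ζ : K} (hζ : ζ ^ d = 1) {l₀ : ℕ}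
    (hF : ∀ l, l₀ ≤ l → FlipAt d ζ W c b l)
    (T : Set W) (hT : T.Finite) (hst : ∀ (g : W ≃ₐ[K] W), ∀ t ∈ T, g t ∈ T) :
    ∃ N, l₀ ≤ N ∧ ∀ l, N ≤ l → ∃ g : W ≃ₐ[K] W, (∀ t ∈ T, g t = t) ∧
      (∀ y ∈ Lev d W c b l, g y = y) ∧
        ∀ z ∈ Lev d W c b (l + 1), g z = algebraMap K W ζ * z := by
  classical
  have : ∀ l, ∃ g : W ≃ₐ[K] W, l₀ ≤ l → (∀ y ∈ Lev d W c b l, g y = y) ∧
      ∀ z ∈ Lev d W c b (l + 1), g z = algebraMap K W ζ * z := by
    intro l
    by_cases h : l₀ ≤ l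
    · obtain ⟨g, hg⟩ := hF l h
      exact ⟨g, fun _ => hg⟩
    · exact ⟨1, fun h' => absurd h' h⟩
  choose G hG using this
  have hTf : Finite T := hT
  obtain ⟨N, hN⟩ := VQ.eventually_recurrent (fun l => (fun t : T => (⟨G l t, hst _ _ t.2⟩ : T)))
  refine ⟨max l₀ N, le_max_left _ _, fun l hl => ?_⟩
  obtain ⟨l', hll', heq⟩ := hN l ((le_max_right _ _).trans hl)
  have h1 := hG l ((le_max_left _ _).trans hl)
  have h2 := hG l' ((le_max_left _ _).trans (hl.trans hll'.le))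
  have hinv : ∀ x y : W, G l' x = y → (G l')⁻¹ y = x := fun x y h => inv_eq.2 h.symm
  refine ⟨(G l')⁻¹ * G l, fun t ht => ?_, fun y hy => ?_, fun z hz => ?_⟩
  · rw [AlgEquiv.mul_apply]
    apply hinv
    exact congrArg (fun φ : T → T => (φ ⟨t, ht⟩ : W)) heq
  · rw [AlgEquiv.mul_apply, h1.1 y hy]
    exact hinv _ _ (fix_down hd h2.1 hll'.le y hy)
  · rw [AlgEquiv.mul_apply, h1.2 z hz]
    exact hinv _ _ (fix_down hd h2.1 hll' _ (Lev_zeta hζ hz))

end basic

section count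
variable {K W : Type*} [Field K] [Field W] [Algebra K W] [IsAlgClosed W]

/-- a node has exactly `d` children -/
theorem card_children {d : ℕ} (hd : d ≠ 0) {ζ c b : K} (hζ : IsPrimitiveRoot ζ d)
    (hb : ∀ n, 1 ≤ n → (uf d c)^[n] 0 ≠ b) {l : ℕ} {y : W} (hy : y ∈ Lev d W c b l)
    (A : Finset W) (hA : ∀ z, z ∈ A ↔ uf d (algebraMap K W c) z = y) : A.card = d := by
  classical
  have hζ' : IsPrimitiveRoot (algebraMap K W ζ) d := hζ.map_of_injective (algebraMap K W).injective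
  obtain ⟨z₀, hz₀⟩ := exists_pre hd (algebraMap K W c) 1 y
  rw [Function.iterate_one] at hz₀
  have hz : z₀ ∈ Lev d W c b (l + 1) := Lev_succ.2 (by rw [hz₀]; exact hy)
  have hne := ne_zero_of_Lev hd hb hz
  have h1 : A = (range d).image fun i => algebraMap K W ζ ^ i * z₀ := by
    ext z
    rw [hA, mem_image]
    constructor
    · intro h
      obtain ⟨i, hi, h3⟩ := (uf_eq_iff hd hζ).1 (hz₀.trans h.symm)
      exact ⟨i, mem_range.2 hi, h3.symm⟩
    · rintro ⟨i, hi, rfl⟩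
      rw [← hz₀]
      exact ((uf_eq_iff hd hζ).2 ⟨i, mem_range.1 hi, rfl⟩).symm
  rw [h1, card_image_of_injOn, card_range]
  intro i hi j hj hij
  exact hζ'.pow_inj (mem_range.1 hi) (mem_range.1 hj) (mul_right_cancel₀ hne hij)

omit [IsAlgClosed W] in
theorem Fix_mul {d : ℕ} {c b : K} {s g : W ≃ₐ[K] W} {l : ℕ} (hg : ∀ y ∈ Lev d W c b l, g y = y) :
    Fix d W c b l (s * g) = Fix d W c b l s := by
  ext x
  show (_ ∧ _) ↔ (_ ∧ _)
  refine and_congr_right fun hx => ?_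
  rw [AlgEquiv.mul_apply, hg x hx]

theorem flip_count {d : ℕ} (hd : d ≠ 0) {ζ c b : K} (hζ : IsPrimitiveRoot ζ d)
    (hb : ∀ n, 1 ≤ n → (uf d c)^[n] 0 ≠ b) {s g : W ≃ₐ[K] W} {l : ℕ}
    (hg : ∀ y ∈ Lev d W c b l, g y = y)
    (hg' : ∀ z ∈ Lev d W c b (l + 1), g z = algebraMap K W ζ * z) :
    ∑ a ∈ range d, (Fix d W c b (l + 1) (s * g ^ a)).ncard = d * (Fix d W c b l s).ncard := by
  classical
  have hζ' : IsPrimitiveRoot (algebraMap K W ζ) d := hζ.map_of_injective (algebraMap K W).injective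
  set C := algebraMap K W c with hC
  -- the nodes above the fixed points
  have hfin := Fix_finite (W := W) hd c b l s
  let B : Finset W := hfin.toFinset
  have hB : ∀ y, y ∈ B ↔ y ∈ Lev d W c b l ∧ s y = y := fun y => hfin.mem_toFinset
  let L : Finset W := (Lev_finite (W := W) hd c b (l + 1)).toFinset
  have hL : ∀ z, z ∈ L ↔ z ∈ Lev d W c b (l + 1) := fun z => Set.Finite.mem_toFinset _
  let A : Finset W := L.filter fun z => uf d C z ∈ B
  have hA : ∀ z, z ∈ A ↔ uf d C z ∈ B := by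
    intro z
    rw [mem_filter, hL]
    refine ⟨fun h => h.2, fun h => ⟨Lev_succ.2 ((hB _).1 h).1, h⟩⟩
  have hAcard : A.card = d * (Fix d W c b l s).ncard := by
    rw [card_eq_sum_card_fiberwise (f := uf d C) (t := B) fun z hz => (hA z).1 hz]
    rw [sum_congr rfl fun y hy => card_children hd hζ hb ((hB y).1 hy).1
      (A.filter fun z => uf d C z = y) fun z => by
        rw [mem_filter, hA]
        exact ⟨fun h => h.2, fun h => ⟨by rw [h]; exact hy, h⟩⟩]
    rw [sum_const, smul_eq_mul, mul_comm, Set.ncard_eq_toFinset_card _ hfin]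
  rw [← hAcard]
  have h1 : ∀ a ∈ range d, (Fix d W c b (l + 1) (s * g ^ a)).ncard =
      (A.filter fun z => (s * g ^ a) z = z).card := by
    intro a _
    rw [← Set.ncard_coe_finset]
    congr 1
    ext z
    rw [mem_coe, mem_filter, hA, hB]
    show (_ ∧ _) ↔ _
    refine ⟨fun h => ⟨⟨Lev_succ.1 h.1, ?_⟩, h.2⟩, fun h => ⟨Lev_succ.2 h.1.1, h.2⟩⟩
    have h3 := congrArg (uf d C) h.2
    rw [AlgEquiv.mul_apply, hC, ← aut_uf, ← aut_uf, fix_pow (hg _ (Lev_succ.1 h.1))] at h3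
    exact h3
  rw [sum_congr rfl h1]
  simp only [card_filter]
  rw [sum_comm, card_eq_sum_ones]
  refine sum_congr rfl fun z hz => ?_
  rw [← card_filter, card_eq_one]
  have hzA := (hB _).1 ((hA z).1 hz)
  have hzL : z ∈ Lev d W c b (l + 1) := Lev_succ.2 hzA.1
  have hne := ne_zero_of_Lev hd hb hzL
  have h3 : uf d C z = uf d C (s z) := by
    have := hzA.2
    rw [aut_uf] at this
    exact this.symm
  obtain ⟨e, he, hse⟩ := (uf_eq_iff hd hζ).1 h3
  have h4 : ∀ a, (s * g ^ a) z = algebraMap K W ζ ^ (a + e) * z := by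
    intro a
    rw [AlgEquiv.mul_apply, flip_pow hg' a z hzL, map_mul, ← map_pow, AlgEquiv.commutes, hse,
      map_pow, pow_add, mul_assoc]
  have h5 : ∀ a, (s * g ^ a) z = z ↔ d ∣ a + e := by
    intro a
    rw [h4, ← hζ'.pow_eq_one_iff_dvd]
    constructor
    · intro h
      exact mul_right_cancel₀ hne (by rw [h, one_mul])
    · intro h
      rw [h, one_mul]
  refine ⟨(d - e) % d, ?_⟩
  ext a
  rw [mem_filter, mem_range, mem_singleton, h5]
  have hdpos := Nat.pos_of_ne_zero hd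
  constructor
  · rintro ⟨ha, k, hk⟩
    have hk2 : k < 2 := by
      by_contra hcon
      push Not at hcon
      have : d * 2 ≤ d * k := Nat.mul_le_mul_left _ hcon
      omega
    rcases Nat.lt_or_ge k 1 with h6 | h6
    · have h7 : k = 0 := by omega
      subst h7
      have h8 : a = 0 ∧ e = 0 := by omega
      rw [h8.1, h8.2, Nat.sub_zero, Nat.mod_self]
    · have h7 : k = 1 := by omega
      subst h7
      rw [mul_one] at hk
      have h8 : a = d - e := by omega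
      rw [← h8, Nat.mod_eq_of_lt ha]
  · intro ha
    refine ⟨by rw [ha]; exact Nat.mod_lt _ hdpos, ?_⟩
    rcases Nat.eq_zero_or_pos e with h6 | h6
    · rw [ha, h6, Nat.sub_zero, Nat.mod_self]
      exact dvd_zero _
    · rw [ha, Nat.mod_eq_of_lt (by omega : d - e < d)]
      exact ⟨1, by omega⟩

end count

/-- **U1** -/
theorem minCoset {K W : Type*} [Field K] [Field W] [Algebra K W] [IsAlgClosed W]
    [Algebra.IsAlgebraic K W] {d : ℕ} (hd : 2 ≤ d) {ζ c b : K} (hζ : IsPrimitiveRoot ζ d)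
    (hb : ∀ n, 1 ≤ n → (uf d c)^[n] 0 ≠ b) (hF : ∃ l0, ∀ l, l0 ≤ l → FlipAt d ζ W c b l)
    (hno : ¬ ExtP d W c b) :
    ∃ (T : Set W) (s₁ : W ≃ₐ[K] W) (m l1 : ℕ), T.Finite ∧
      ∀ s : W ≃ₐ[K] W, (∀ t ∈ T, s t = s₁ t) →
        (∀ N, (Fix d W c b N s).Nonempty) ∧ ∀ l, l1 ≤ l → (Fix d W c b l s).ncard = m := by
  classical
  have hd0 : d ≠ 0 := by omega
  obtain ⟨l₀, hF⟩ := hF
  rw [ExtP] at hno
  push Not at hno
  obtain ⟨T₀, hT₀, s₀, hs₀⟩ := hno
  obtain ⟨T, hTf, hTT, hst⟩ := VQ.exists_hull (K := K) T₀ hT₀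
  obtain ⟨N, -, hN⟩ := flip_fixing hd0 hζ.pow_eq_one hF T hTf hst
  let P : Set ℕ := {n | ∃ l, N ≤ l ∧ ∃ s : W ≃ₐ[K] W, (∀ t ∈ T, s t = s₀ t) ∧
    (Fix d W c b l s).ncard = n}
  have hP : P.Nonempty := ⟨_, N, le_rfl, s₀, fun _ _ => rfl, rfl⟩
  set m := sInf P with hm
  obtain ⟨l₁, hl₁, s₁, hs₁, hcard₁⟩ := Nat.sInf_mem hP
  have hmin : ∀ l, N ≤ l → ∀ s : W ≃ₐ[K] W, (∀ t ∈ T, s t = s₀ t) →
      m ≤ (Fix d W c b l s).ncard :=
    fun l hl s hs => Nat.sInf_le ⟨l, hl, s, hs, rfl⟩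
  refine ⟨T ∪ Lev d W c b l₁, s₁, m, l₁, hTf.union (Lev_finite hd0 c b l₁), fun s hs => ⟨?_, ?_⟩⟩
  · intro M
    obtain ⟨z, hz, hsz⟩ := hs₀ M s fun t ht => by rw [hs t (Or.inl (hTT ht)), hs₁ t (hTT ht)]
    exact ⟨z, hz, hsz⟩
  · intro l hl
    induction l, hl using Nat.le_induction generalizing s with
    | base =>
      rw [hm, ← hcard₁]
      congr 1
      ext x
      show (_ ∧ _) ↔ (_ ∧ _)
      refine and_congr_right fun hx => ?_
      rw [hs x (Or.inr hx)]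
    | succ l hl ih =>
      obtain ⟨g, hg1, hg2, hg3⟩ := hN l (hl₁.trans hl)
      have h3 := flip_count hd0 hζ hb (s := s) hg2 hg3
      rw [ih s hs] at h3
      have h4 : ∀ a ∈ range d, m ≤ (Fix d W c b (l + 1) (s * g ^ a)).ncard := fun a _ =>
        hmin (l + 1) (hl₁.trans (hl.trans l.le_succ)) _ fun t ht => by
          rw [AlgEquiv.mul_apply, fix_pow (hg1 t ht), hs t (Or.inl ht), hs₁ t ht]
      have h5 : ∑ a ∈ range d, m = ∑ a ∈ range d, (Fix d W c b (l + 1) (s * g ^ a)).ncard := by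
        rw [h3, sum_const, card_range, smul_eq_mul]
      have h6 := (sum_eq_sum_iff_of_le h4).1 h5 0 (mem_range.2 (by omega))
      rw [pow_zero, mul_one] at h6
      exact h6.symm

end Pool.Agent.ORB.UQ
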