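import Pool.Agent.ORB.UTameA
import Pool.Agent.ORB.UMin

/-!
ORB, unicritical maps: the number of orbits on the levels is bounded, so that points of a high level with
the same image in some level are conjugate.
-/

set_option autoImplicit false

namespace Pool.Agent.ORB.UQ

open Polynomial IntermediateField NumberField IsDedekindDomain

universe u

section stab

variable {K W : Type*} [Field K] [Field W] [Algebra K W]

/-- the minimal polynomials of the points of a level -/
def mps (p : ℕ) (W : Type*) [Field W] [Algebra K W] (c b : K) (n : ℕ) : Set K[X] :=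
  minpoly K '' Lev p W c b n

theorem mps_finite {p : ℕ} (hp : p ≠ 0) (c b : K) (n : ℕ) : (mps p W c b n).Finite :=
  (Lev_finite hp c b n).image _

/-- the number of orbits is bounded -/
theorem mps_card [Algebra.IsAlgebraic K W] {p : ℕ} (hp : p ≠ 0) (c b : K) (n A : ℕ)
    (hA : ∀ z ∈ Lev p W c b n, p ^ n ≤ A * (minpoly K z).natDegree) : (mps p W c b n).ncard ≤ A := by
  classical
  have hfin := mps_finite (W := W) hp c b n
  have hfac : ∀ P ∈ hfin.toFinset, Irreducible P ∧ P.Monic ∧ P ∣ lp p c b n ∧ p ^ n ≤ A * P.natDegree := by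
    intro P hP
    rw [Set.Finite.mem_toFinset] at hP
    obtain ⟨z, hz, rfl⟩ := hP
    have hint : IsIntegral K z := Algebra.IsIntegral.isIntegral z
    refine ⟨minpoly.irreducible hint, minpoly.monic hint, ?_, hA z hz⟩
    apply minpoly.dvd
    rw [aeval_lp, mem_Lev.1 hz, sub_self]
  have h1 : ∏ P ∈ hfin.toFinset, P ∣ lp p c b n := by
    refine Finset.prod_dvd_of_coprime ?_ fun P hP => (hfac P hP).2.2.1
    intro P hP Q hQ hne
    obtain ⟨hP1, hP2, -, -⟩ := hfac P hP
    obtain ⟨hQ1, hQ2, -, -⟩ := hfac Q hQ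
    refine (hP1.coprime_iff_not_dvd).2 fun hd => hne ?_
    exact eq_of_monic_of_associated hP2 hQ2 (hP1.associated_of_dvd hQ1 hd)
  have h2 := natDegree_le_of_dvd h1 (lp_monic hp c b n).ne_zero
  rw [lp_natDegree, natDegree_prod_of_monic _ _ fun P hP => (hfac P hP).2.1] at h2
  have h3 : hfin.toFinset.card * p ^ n ≤ A * p ^ n := by
    calc hfin.toFinset.card * p ^ n = ∑ _P ∈ hfin.toFinset, p ^ n := by rw [Finset.sum_const, smul_eq_mul]
      _ ≤ ∑ P ∈ hfin.toFinset, A * P.natDegree := Finset.sum_le_sum fun P hP => (hfac P hP).2.2.2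
      _ = A * ∑ P ∈ hfin.toFinset, P.natDegree := by rw [Finset.mul_sum]
      _ ≤ A * p ^ n := Nat.mul_le_mul_left _ h2
  rw [Set.ncard_eq_toFinset_card _ hfin]
  exact Nat.le_of_mul_le_mul_right h3 (Nat.pow_pos (Nat.pos_of_ne_zero hp))

/-- if the number of orbits does not grow then points with the same image are conjugate -/
theorem conj_of_card [IsAlgClosed W] [Normal K W] {p : ℕ} (hp : p ≠ 0) (c b : K) (k l : ℕ)
    (h : (mps p W c b (k + l)).ncard ≤ (mps p W c b k).ncard) {z z' : W}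
    (hz : z ∈ Lev p W c b (k + l))
    (hzz : (uf p (algebraMap K W c))^[l] z = (uf p (algebraMap K W c))^[l] z') : IsConjRoot K z z' := by
  classical
  have hz' : z' ∈ Lev p W c b (k + l) := by
    rw [Lev_iter] at hz ⊢
    rw [← hzz]
    exact hz
  have hex : ∀ P ∈ mps p W c b k, ∃ z ∈ Lev p W c b (k + l),
      minpoly K ((uf p (algebraMap K W c))^[l] z) = P := by
    rintro P ⟨y, hy, rfl⟩
    obtain ⟨z, hz⟩ := exists_pre hp (algebraMap K W c) l y
    refine ⟨z, ?_, by rw [hz]⟩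
    rw [Lev_iter, hz]
    exact hy
  choose! s hs1 hs2 using hex
  -- conjugate points have conjugate images
  have hconj : ∀ u v : W, minpoly K u = minpoly K v →
      minpoly K ((uf p (algebraMap K W c))^[l] u) = minpoly K ((uf p (algebraMap K W c))^[l] v) := by
    intro u v huv
    obtain ⟨g, hg⟩ := IsConjRoot.exists_algEquiv (K := K) (L := W) huv
    rw [← hg, ← aut_iter]
    exact minpoly.algEquiv_eq g _
  have hsurj := Set.surj_on_of_inj_on_of_ncard_le (s := mps p W c b k) (t := mps p W c b (k + l))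
    (fun P _ => minpoly K (s P)) (fun P hP => ⟨s P, hs1 P hP, rfl⟩) (by
      intro P Q hP hQ hPQ
      have := hconj _ _ hPQ
      rw [hs2 P hP, hs2 Q hQ] at this
      exact this) h (mps_finite hp c b (k + l))
  obtain ⟨P, hP, hPz⟩ := hsurj _ ⟨z, hz, rfl⟩
  obtain ⟨Q, hQ, hQz⟩ := hsurj _ ⟨z', hz', rfl⟩
  have h1 : P = Q := by
    rw [← hs2 P hP, ← hs2 Q hQ, ← hconj _ _ hPz, ← hconj _ _ hQz, hzz]
  rw [isConjRoot_def, hPz, hQz, h1]

theorem mps_mono [IsAlgClosed W] [Normal K W] {p : ℕ} (hp : p ≠ 0) (c b : K) (k l : ℕ) :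
    (mps p W c b k).ncard ≤ (mps p W c b (k + l)).ncard := by
  classical
  have hex : ∀ P ∈ mps p W c b k, ∃ z ∈ Lev p W c b (k + l),
      minpoly K ((uf p (algebraMap K W c))^[l] z) = P := by
    rintro P ⟨y, hy, rfl⟩
    obtain ⟨z, hz⟩ := exists_pre hp (algebraMap K W c) l y
    refine ⟨z, ?_, by rw [hz]⟩
    rw [Lev_iter, hz]
    exact hy
  choose! s hs1 hs2 using hex
  refine Set.ncard_le_ncard_of_injOn (fun P => minpoly K (s P)) (fun P hP => ⟨s P, hs1 P hP, rfl⟩) ?_
    (mps_finite hp c b (k + l))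
  intro P hP Q hQ hPQ
  obtain ⟨g, hg⟩ := IsConjRoot.exists_algEquiv (K := K) (L := W) hPQ
  rw [← hs2 P hP, ← hs2 Q hQ, ← hg, ← aut_iter]
  exact minpoly.algEquiv_eq g _

/-- bounded number of orbits: points of a high level with the same image are conjugate -/
theorem exists_stab [IsAlgClosed W] [Normal K W] {p : ℕ} (hp : p ≠ 0)
    (c b : K) (A : ℕ) (hA : ∀ n, ∀ z ∈ Lev p W c b n, p ^ n ≤ A * (minpoly K z).natDegree) :
    ∃ k₀, ∀ l, ∀ z ∈ Lev p W c b (k₀ + l), ∀ z' : W,
      (uf p (algebraMap K W c))^[l] z = (uf p (algebraMap K W c))^[l] z' →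
        ∃ g : W ≃ₐ[K] W, g z = z' := by
  have hbd : BddAbove (Set.range fun n => (mps p W c b n).ncard) := by
    refine ⟨A, ?_⟩
    rintro _ ⟨n, rfl⟩
    exact mps_card hp c b n A (hA n)
  obtain ⟨k₀, hk₀⟩ := Nat.sSup_mem (Set.range_nonempty _) hbd
  refine ⟨k₀, fun l z hz z' hzz => ?_⟩
  have h1 : (mps p W c b (k₀ + l)).ncard ≤ (mps p W c b k₀).ncard := by
    have := le_csSup hbd ⟨k₀ + l, rfl⟩
    rw [← hk₀] at this
    exact this
  exact IsConjRoot.exists_algEquiv (conj_of_card hp c b k₀ l h1 hz hzz).symm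

end stab

/-- transitivity on the fibres from a lower bound for the degrees -/
theorem orbits_of_evst {K W : Type u} [Field K] [NumberField K] [Field W] [Algebra K W]
    [IsAlgClosed W] [Algebra.IsAlgebraic K W] {p : ℕ} (hp : p ≠ 0) {c b : K}
    (h : ∃ C : ℕ, 0 < C ∧ ∀ (M : Type u) [Field M] [NumberField M] [Algebra K M] (x : M) (n : ℕ),
      (uf p (algebraMap K M c))^[n] x = algebraMap K M b → p ^ n ≤ C * Module.finrank ℚ M) :
    ∃ k0, ∀ l, ∀ y ∈ Lev p W c b (k0 + l), ∀ y' : W,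
      (uf p (algebraMap K W c))^[l] y = (uf p (algebraMap K W c))^[l] y' →
        ∃ g : W ≃ₐ[K] W, g y = y' := by
  have : Normal K W := normal_iff.2 fun x =>
    ⟨Algebra.IsIntegral.isIntegral x, IsAlgClosed.splits _⟩
  obtain ⟨C, hC0, hC⟩ := h
  have hA : ∀ n, ∀ z ∈ Lev p W c b n, p ^ n ≤ (C * Module.finrank ℚ K) * (minpoly K z).natDegree := by
    intro n z hz
    have hint : IsIntegral K z := Algebra.IsIntegral.isIntegral z
    have : FiniteDimensional K K⟮z⟯ := adjoin.finiteDimensional hint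
    have : FiniteDimensional ℚ K⟮z⟯ := FiniteDimensional.trans ℚ K K⟮z⟯
    have : NumberField K⟮z⟯ := ⟨⟩
    have h1 := hC K⟮z⟯ (AdjoinSimple.gen K z) n (by
      apply (algebraMap K⟮z⟯ W).injective
      rw [uf_map, ← IsScalarTower.algebraMap_apply, ← IsScalarTower.algebraMap_apply,
        AdjoinSimple.algebraMap_gen]
      exact hz)
    rw [← Module.finrank_mul_finrank ℚ K K⟮z⟯, adjoin.finrank hint] at h1
    rw [mul_assoc]
    exact h1
  exact exists_stab hp c b _ hA

/-- **U5**, the cases in which the degree is arbitrary -/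
theorem orbits_tame {K W : Type u} [Field K] [NumberField K] [Field W] [Algebra K W] [IsAlgClosed W]
    [Algebra.IsAlgebraic K W] {d : ℕ} (hd : 2 ≤ d) {c b : K} (v : HeightOneSpectrum (𝓞 K))
    (hv : (v.valuation K c ≤ 1 ∧ 1 < v.valuation K b) ∨
      (v.valuation K c < 1 ∧ v.valuation K b < 1))
    (hw : Function.Injective fun n : ℕ => (uf d c)^[n] b) :
    ∃ k0, ∀ l, ∀ y ∈ Lev d W c b (k0 + l), ∀ y' ∈ Lev d W c b (k0 + l),
      (uf d (algebraMap K W c))^[l] y = (uf d (algebraMap K W c))^[l] y' →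
        ∃ g : W ≃ₐ[K] W, g y = y' := by
  have hper : ∀ k, 1 ≤ k → (uf d c)^[k] b ≠ b := by
    intro k hk h
    have := hw (a₁ := k) (a₂ := 0) h
    omega
  obtain ⟨k0, h⟩ := orbits_of_evst (W := W) (by omega : d ≠ 0) (c := c) (b := b) (by
    rcases hv with ⟨h1, h2⟩ | ⟨h1, h2⟩
    · exact evst_bad hd v c b h1 h2
    · exact evst_small hd v c b h1 h2 hper)
  exact ⟨k0, fun l y hy y' _ hyy => h l y hy y' hyy⟩

/-- **U5** (three cases; all give fibrewise transitivity above some level) -/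
theorem orbits_place {K W : Type u} [Field K] [NumberField K] [Field W] [Algebra K W] [IsAlgClosed W]
    [Algebra.IsAlgebraic K W] {p : ℕ} (hp : p.Prime) {c b : K} (v : HeightOneSpectrum (𝓞 K))
    (hv : (v.valuation K (p : K) < 1 ∧ v.valuation K c ≤ 1) ∨
      (v.valuation K c ≤ 1 ∧ 1 < v.valuation K b) ∨
      (v.valuation K c < 1 ∧ v.valuation K b < 1))
    (hw : Function.Injective fun n : ℕ => (uf p c)^[n] b) :
    ∃ k0, ∀ l, ∀ y ∈ Lev p W c b (k0 + l), ∀ y' ∈ Lev p W c b (k0 + l),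
      (uf p (algebraMap K W c))^[l] y = (uf p (algebraMap K W c))^[l] y' →
        ∃ g : W ≃ₐ[K] W, g y = y' := by
  rcases hv with ⟨h1, h2⟩ | hv
  · rcases lt_or_ge 1 (v.valuation K b) with h3 | h3
    · exact orbits_tame hp.two_le v (Or.inl ⟨h2, h3⟩) hw
    · have hper : ∀ k, 1 ≤ k → (uf p c)^[k] b ≠ b := by
        intro k hk h
        have := hw (a₁ := k) (a₂ := 0) h
        omega
      obtain ⟨k0, h⟩ := orbits_of_evst (W := W) hp.ne_zero (c := c) (b := b)
        (evst_int hp v h1 c b h2 h3 hper)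
      exact ⟨k0, fun l y hy y' _ hyy => h l y hy y' hyy⟩
  · exact orbits_tame hp.two_le v hv hw

end Pool.Agent.ORB.UQ
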