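import Pool.Agent.ORB.UEng
import Pool.Agent.ORB.UNontriv
import Pool.Agent.ORB.UStab
import Pool.Agent.ORB.UPreU

/-!
ORB, Theorem V for `x ^ p + c`, `p` prime: the extension property.
-/

set_option autoImplicit false

namespace Pool.Agent.ORB.UQ

open NumberField IsDedekindDomain Polynomial

universe u

/-- **The engine for a prime degree.** -/
theorem engine {K W : Type u} [Field K] [NumberField K] [Field W] [Algebra K W]
    [IsAlgClosed W] [Algebra.IsAlgebraic K W] {p : ℕ} (hp : p.Prime) {ζ c b : K}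
    (hζ : IsPrimitiveRoot ζ p) (h0 : Function.Injective fun n : ℕ => (uf p c)^[n] 0)
    (hw : Function.Injective fun n : ℕ => (uf p c)^[n] b)
    (hb : ∀ n, 1 ≤ n → (uf p c)^[n] 0 ≠ b) (hT : ∀ l, Tran p W c b l) : ExtP p W c b := by
  have : CharZero W := charZero_of_injective_algebraMap (algebraMap K W).injective
  obtain ⟨l0, hl0⟩ := nontriv_eventually (W := W) hp hζ h0 hb hT
  exact engineD hp.two_le hζ h0 hw hb ⟨l0, fun l hl => flip_of_nontriv hp hζ hb hT (hl0 l hl)⟩

/-- **The extension property from the boundedness of the number of orbits**: `0` is wandering, `b` is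
not periodic, and above some level the Galois group is transitive on the fibres. -/
theorem extP_of_orbits {K W : Type u} [Field K] [NumberField K] [Field W] [Algebra K W]
    [IsAlgClosed W] [Algebra.IsAlgebraic K W] {p : ℕ} (hp : p.Prime) {ζ c b : K}
    (hζ : IsPrimitiveRoot ζ p) (h0 : Function.Injective fun n : ℕ => (uf p c)^[n] 0)
    (hw : Function.Injective fun n : ℕ => (uf p c)^[n] b) {k₀ : ℕ}
    (hk₀ : ∀ l, ∀ y ∈ Lev p W c b (k₀ + l), ∀ y' ∈ Lev p W c b (k₀ + l),
      (uf p (algebraMap K W c))^[l] y = (uf p (algebraMap K W c))^[l] y' →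
        ∃ g : W ≃ₐ[K] W, g y = y') : ExtP p W c b :=
  ExtP_of_engine hp.ne_zero hζ (fun _ _ _ _ _ _ _ _ hζ' h0' hw' hb' hT' => engine hp hζ' h0' hw' hb' hT')
    h0 hw hk₀

/-- **Theorem V, local form** -/
theorem extP_place {K W : Type u} [Field K] [NumberField K] [Field W] [Algebra K W]
    [IsAlgClosed W] [Algebra.IsAlgebraic K W] {p : ℕ} (hp : p.Prime) {ζ c b : K}
    (hζ : IsPrimitiveRoot ζ p) (h0 : Function.Injective fun n : ℕ => (uf p c)^[n] 0)
    (hper : b ∉ Function.periodicPts (uf p c)) (v : HeightOneSpectrum (𝓞 K))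
    (hv : (v.valuation K (p : K) < 1 ∧ v.valuation K c ≤ 1) ∨
      (v.valuation K c ≤ 1 ∧ 1 < v.valuation K b) ∨
      (v.valuation K c < 1 ∧ v.valuation K b < 1)) : ExtP p W c b := by
  by_cases hw : Function.Injective fun n : ℕ => (uf p c)^[n] b
  · obtain ⟨k₀, hk₀⟩ := orbits_place (W := W) hp v hv hw
    exact extP_of_orbits hp hζ h0 hw hk₀
  · exact extP_preper hp.ne_zero hw hper

end Pool.Agent.ORB.UQ
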