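import Mathlib

/-!
# ORB: orbit counting on a coset

A coset `s N` of a group acting on a finite set fixes on average as many points as there are
`s`-stable orbits of `N`.
-/

namespace Pool.Agent.ORB.WAvg

open Finset

variable {X : Type*}

/-- Orbit counting for a finite group `H` and a permutation `s`: the `s`-stable `H`-orbits
`S i` contribute `card H` each to the number of pairs `(h, x)` with `s (h x) = x`. -/
theorem sum_ge [Fintype X] [DecidableEq X] {H : Type*} [Group H] [Fintype H] [MulAction H X]
    (s : X ≃ X) {ι : Type*} [Fintype ι] [DecidableEq ι] (S : ι → Finset X)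
    (hne : ∀ i, (S i).Nonempty) (hdisj : ∀ i j, i ≠ j → Disjoint (S i) (S j))
    (hN : ∀ i, ∀ x ∈ S i, ∀ h : H, h • x ∈ S i)
    (htr : ∀ i, ∀ x ∈ S i, ∀ y ∈ S i, ∃ h : H, h • x = y)
    (hs : ∀ i, ∀ x ∈ S i, s x ∈ S i) :
    Fintype.card ι * Fintype.card H ≤ ∑ h : H, (univ.filter fun x : X => s (h • x) = x).card := by
  classical
  have h1 : ∑ h : H, (univ.filter fun x : X => s (h • x) = x).card
      = ∑ x : X, (univ.filter fun h : H => s (h • x) = x).card := by
    simp_rw [card_filter]
    exact sum_comm
  rw [h1]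
  have h2 : ∀ i, ∀ x ∈ S i, (univ.filter fun h : H => s (h • x) = x).card * (S i).card
      = Fintype.card H := by
    intro i x hx
    have hinv : s.symm x ∈ S i := by
      have hm : (S i).map s.toEmbedding = S i := by
        apply eq_of_subset_of_card_le
        · intro y hy
          obtain ⟨z, hz, rfl⟩ := mem_map.1 hy
          exact hs i z hz
        · rw [card_map]
      rw [← hm] at hx
      obtain ⟨z, hz, hzx⟩ := mem_map.1 hx
      have : s.symm x = z := by rw [← hzx]; simp
      rw [this]; exact hz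
    obtain ⟨h0, hh0⟩ := htr i x hx _ hinv
    have horb : (MulAction.orbit H x) = (S i : Set X) := by
      ext y
      constructor
      · rintro ⟨h, rfl⟩
        exact hN i x hx h
      · intro hy
        obtain ⟨h, hh⟩ := htr i x hx y hy
        exact ⟨h, hh⟩
    have hcard : Nat.card (MulAction.stabilizer H x) * (S i).card = Fintype.card H := by
      have := MulAction.card_orbit_mul_card_stabilizer_eq_card_group H x
      have ho : Fintype.card (MulAction.orbit H x) = (S i).card := by
        rw [← Fintype.card_coe]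
        exact Fintype.card_congr (Equiv.setCongr horb)
      rw [ho] at this
      rw [Nat.card_eq_fintype_card, mul_comm]
      exact this
    have hst : (univ.filter fun h : H => s (h • x) = x).card
        = Nat.card (MulAction.stabilizer H x) := by
      rw [Nat.card_eq_fintype_card, ← Fintype.card_coe]
      refine Fintype.card_congr ⟨fun h => ⟨h0⁻¹ * h.1, ?_⟩, fun h => ⟨h0 * h.1, ?_⟩, ?_, ?_⟩
      · have := (mem_filter.1 h.2).2
        have h3 : h.1 • x = s.symm x := (Equiv.eq_symm_apply s).2 this
        rw [MulAction.mem_stabilizer_iff, mul_smul, h3, ← hh0, inv_smul_smul]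
      · have := MulAction.mem_stabilizer_iff.1 h.2
        simp [mul_smul, this, hh0]
      · intro h; simp
      · intro h; simp
    rw [hst, hcard]
  have h3 : ∀ i, ∑ x ∈ S i, (univ.filter fun h : H => s (h • x) = x).card = Fintype.card H := by
    intro i
    obtain ⟨x0, hx0⟩ := hne i
    have hpos : 0 < (S i).card := card_pos.2 (hne i)
    have h4 : ∀ x ∈ S i, (univ.filter fun h : H => s (h • x) = x).card
        = (univ.filter fun h : H => s (h • x0) = x0).card := by
      intro x hx
      exact Nat.eq_of_mul_eq_mul_right hpos ((h2 i x hx).trans (h2 i x0 hx0).symm)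
    rw [sum_congr rfl h4, sum_const, smul_eq_mul, mul_comm]
    exact h2 i x0 hx0
  calc Fintype.card ι * Fintype.card H
      = ∑ i : ι, ∑ x ∈ S i, (univ.filter fun h : H => s (h • x) = x).card := by
        rw [sum_congr rfl (fun i _ => h3 i)]
        simp
    _ = ∑ x ∈ univ.biUnion S, (univ.filter fun h : H => s (h • x) = x).card := by
        rw [sum_biUnion]
        intro i _ j _ hij
        exact hdisj i j hij
    _ ≤ ∑ x : X, (univ.filter fun h : H => s (h • x) = x).card :=
        sum_le_sum_of_subset (subset_univ _)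

/-- Orbit counting on a coset `s N` of a (possibly infinite) group acting on a type, on a finite
stable part `T`: if `S i` (finitely many, disjoint, nonempty) are `N`-orbits contained in `T`
and `s`-stable, then some `s n` with `n ∈ N` fixes at least as many points of `T` as there are
orbits `S i`. -/
theorem exists_fix_ge {G : Type*} [Group G] [MulAction G X] (N : Subgroup G) (s : G)
    (T : Finset X) (hT : ∀ g : G, ∀ x ∈ T, g • x ∈ T)
    {ι : Type*} [Fintype ι] (S : ι → Finset X) (hST : ∀ i, S i ⊆ T)
    (hne : ∀ i, (S i).Nonempty) (hdisj : ∀ i j, i ≠ j → Disjoint (S i) (S j))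
    (hN : ∀ i, ∀ x ∈ S i, ∀ n ∈ N, n • x ∈ S i)
    (htr : ∀ i, ∀ x ∈ S i, ∀ y ∈ S i, ∃ n ∈ N, n • x = y)
    (hs : ∀ i, ∀ x ∈ S i, s • x ∈ S i) :
    ∃ n ∈ N, Fintype.card ι ≤ {x ∈ (T : Set X) | (s * n) • x = x}.ncard := by
  classical
  -- the action on `T`
  let A : MulAction G T :=
    { smul := fun g x => ⟨g • (x : X), hT g _ x.2⟩
      one_smul := fun x => Subtype.ext (one_smul G (x : X))
      mul_smul := fun g h x => Subtype.ext (mul_smul g h (x : X)) }
  have hA : ∀ (g : G) (x : T), ((g • x : T) : X) = g • (x : X) := fun g x => rfl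
  let ρ : G →* Equiv.Perm T := MulAction.toPermHom G T
  let H : Subgroup (Equiv.Perm T) := N.map ρ
  have : Fintype H := Fintype.ofFinite _
  let S' : ι → Finset T := fun i => (S i).subtype (· ∈ T)
  have hmem : ∀ i (x : T), x ∈ S' i ↔ (x : X) ∈ S i := by
    intro i x; simp [S']
  have key := sum_ge (X := T) (H := H) (ρ s) S' ?_ ?_ ?_ ?_ ?_
  · -- pigeonhole
    by_contra hcon
    push Not at hcon
    have hlt : ∀ h : H, (univ.filter fun x : T => (ρ s) (h • x) = x).card < Fintype.card ι := by
      rintro ⟨h, hh⟩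
      obtain ⟨n, hn, rfl⟩ := Subgroup.mem_map.1 hh
      have := hcon n hn
      refine lt_of_le_of_lt ?_ this
      have hcard : ((univ.filter fun x : T => (ρ s) ((⟨ρ n, hh⟩ : H) • x) = x).map
          (Function.Embedding.subtype _)).card
          ≤ {x ∈ (T : Set X) | (s * n) • x = x}.ncard := by
        rw [← Set.ncard_coe_finset]
        apply Set.ncard_le_ncard
        · intro y hy
          simp only [coe_map, Set.mem_image, mem_coe, mem_filter] at hy
          obtain ⟨x, ⟨_, hx⟩, rfl⟩ := hy
          refine ⟨x.2, ?_⟩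
          have h5 : s • (n • x) = x := hx
          have h6 := congrArg (Subtype.val) h5
          rw [hA, hA] at h6
          rw [mul_smul]
          exact h6
        · exact (T.finite_toSet).subset (fun x hx => hx.1)
      rwa [card_map] at hcard
    have hH : 0 < Fintype.card H := Fintype.card_pos
    have h7 : ∑ h : H, (univ.filter fun x : T => (ρ s) (h • x) = x).card
        < ∑ h : H, Fintype.card ι := by
      apply sum_lt_sum_of_nonempty
      · exact ⟨1, mem_univ _⟩
      · intro h _; exact hlt h
    rw [sum_const, smul_eq_mul, card_univ, mul_comm] at h7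
    exact absurd key (not_le.2 h7)
  · intro i
    obtain ⟨x, hx⟩ := hne i
    exact ⟨⟨x, hST i hx⟩, (hmem i _).2 hx⟩
  · intro i j hij
    rw [disjoint_left]
    intro x hx hx'
    exact (disjoint_left.1 (hdisj i j hij)) ((hmem i x).1 hx) ((hmem j x).1 hx')
  · rintro i x hx ⟨h, hh⟩
    obtain ⟨n, hn, rfl⟩ := Subgroup.mem_map.1 hh
    exact (hmem i _).2 (hN i x ((hmem i x).1 hx) n hn)
  · intro i x hx y hy
    obtain ⟨n, hn, hny⟩ := htr i x ((hmem i x).1 hx) y ((hmem i y).1 hy)
    exact ⟨⟨ρ n, Subgroup.mem_map.2 ⟨n, hn, rfl⟩⟩, Subtype.ext hny⟩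
  · intro i x hx
    exact (hmem i _).2 (hs i x ((hmem i x).1 hx))

/-- If every element of the coset `s N` fixes at most `m` points of `T`, there are at most `m`
disjoint `s`-stable `N`-orbits in `T`. -/
theorem card_le_of_fix_le {G : Type*} [Group G] [MulAction G X] (N : Subgroup G) (s : G)
    (T : Finset X) (hT : ∀ g : G, ∀ x ∈ T, g • x ∈ T) {m : ℕ}
    (hm : ∀ n ∈ N, {x ∈ (T : Set X) | (s * n) • x = x}.ncard ≤ m)
    {ι : Type*} [Fintype ι] (S : ι → Finset X) (hST : ∀ i, S i ⊆ T)
    (hne : ∀ i, (S i).Nonempty) (hdisj : ∀ i j, i ≠ j → Disjoint (S i) (S j))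
    (hN : ∀ i, ∀ x ∈ S i, ∀ n ∈ N, n • x ∈ S i)
    (htr : ∀ i, ∀ x ∈ S i, ∀ y ∈ S i, ∃ n ∈ N, n • x = y)
    (hs : ∀ i, ∀ x ∈ S i, s • x ∈ S i) :
    Fintype.card ι ≤ m := by
  obtain ⟨n, hn, h⟩ := exists_fix_ge N s T hT S hST hne hdisj hN htr hs
  exact h.trans (hm n hn)

end Pool.Agent.ORB.WAvg
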