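import Pool.Agent.ORB.UDefs
import Pool.Agent.ORB.WAvg

/-!
ORB, Theorem V for unicritical polynomials `x ^ d + c`, row U3: an automorphism, given on a finite
set, with many fixed points on a level of the tree of a far point of the orbit of `b`.
-/

set_option autoImplicit false

namespace Pool.Agent.ORB.UQ

open Finset Polynomial

/-- orbit products of radicals -/
theorem orbProdPow {K W : Type*} [Field K] [Field W] [Algebra K W]
    (H : Subgroup (W ≃ₐ[K] W)) (S : Finset W) (x₀ : W)
    (hS : ∀ h ∈ H, ∀ x ∈ S, h x ∈ S) (htr : ∀ x ∈ S, ∃ h ∈ H, h x₀ = x)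
    (φ : W → W) (hφ : ∀ h ∈ H, ∀ x ∈ S, h (φ x) = φ (h x)) (hx₀ : x₀ ∈ S) (θ : W) (q : ℕ)
    (hθ : θ ^ q = φ x₀) (hθ' : ∀ h ∈ H, h x₀ = x₀ → h θ = θ) :
    ∃ Θ : W, (∀ h ∈ H, h Θ = Θ) ∧ Θ ^ q = ∏ x ∈ S, φ x := by
  classical
  have htr' : ∀ x, ∃ h : W ≃ₐ[K] W, x ∈ S → h ∈ H ∧ h x₀ = x := by
    intro x
    by_cases hx : x ∈ S
    · obtain ⟨h, h1, h2⟩ := htr x hx
      exact ⟨h, fun _ => ⟨h1, h2⟩⟩
    · exact ⟨1, fun h => absurd h hx⟩
  choose k hk using htr'
  have hkey : ∀ x ∈ S, ∀ h ∈ H, h (k x θ) = k (h x) θ := by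
    intro x hx h hh
    obtain ⟨h1, h2⟩ := hk x hx
    obtain ⟨h3, h4⟩ := hk (h x) (hS h hh x hx)
    have h5 : ((k (h x))⁻¹ * (h * k x)) x₀ = x₀ := by
      rw [AlgEquiv.mul_apply, AlgEquiv.mul_apply, h2]
      apply (k (h x)).injective
      rw [← AlgEquiv.mul_apply, mul_inv_cancel, AlgEquiv.one_apply, h4]
    have h6 := hθ' _ (H.mul_mem (H.inv_mem h3) (H.mul_mem hh h1)) h5
    rw [AlgEquiv.mul_apply, AlgEquiv.mul_apply] at h6
    have h7 := congrArg (k (h x)) h6
    rw [← AlgEquiv.mul_apply, mul_inv_cancel, AlgEquiv.one_apply] at h7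
    exact h7
  refine ⟨∏ x ∈ S, k x θ, fun h hh => ?_, ?_⟩
  · rw [map_prod]
    refine prod_bij' (fun x _ => h x) (fun x _ => h⁻¹ x) (fun x hx => hS h hh x hx)
      (fun x hx => hS _ (H.inv_mem hh) x hx) (fun x _ => ?_) (fun x _ => ?_)
      (fun x hx => hkey x hx h hh)
    · rw [← AlgEquiv.mul_apply, inv_mul_cancel, AlgEquiv.one_apply]
    · rw [← AlgEquiv.mul_apply, mul_inv_cancel, AlgEquiv.one_apply]
  · rw [← prod_pow]
    refine prod_congr rfl fun x hx => ?_
    obtain ⟨h1, h2⟩ := hk x hx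
    rw [← map_pow, hθ, hφ _ h1 x₀ hx₀, h2]

section root

variable {K W : Type*} [Field K] [Field W] [Algebra K W]

/-- Kummer step: a radical `z` with `z ^ d` fixed by `H`. Either `H` moves `z` to all the
`ζ ^ a * z`, or a power `z ^ (d / q)`, `q` a prime divisor of `d`, is fixed by `H`. -/
theorem kummer_step {d : ℕ} (hd : d ≠ 0) {ζ : K} (hζ : IsPrimitiveRoot ζ d)
    (H : Subgroup (W ≃ₐ[K] W)) {z : W} (hz : z ≠ 0) (hzH : ∀ h ∈ H, h (z ^ d) = z ^ d) :
    (∀ a : ℕ, ∃ h ∈ H, h z = algebraMap K W ζ ^ a * z) ∨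
      ∃ q : ℕ, q.Prime ∧ q ∣ d ∧ ∀ h ∈ H, h (z ^ (d / q)) = z ^ (d / q) := by
  classical
  have hζ' : IsPrimitiveRoot (algebraMap K W ζ) d := hζ.map_of_injective (algebraMap K W).injective
  have hNZ : NeZero d := ⟨hd⟩
  have hdpos : 0 < d := Nat.pos_of_ne_zero hd
  obtain ⟨u, hu⟩ : IsUnit (algebraMap K W ζ) := hζ'.isUnit hd
  have huord : orderOf u = d := by
    rw [← orderOf_units, hu]
    exact hζ'.eq_orderOf.symm
  have hact : ∀ h ∈ H, ∃ a : ℕ, h z = algebraMap K W ζ ^ a * z := by
    intro h hh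
    have h1 : (h z / z) ^ d = 1 := by
      rw [div_pow, ← map_pow, hzH h hh, div_self (pow_ne_zero _ hz)]
    obtain ⟨i, hi, h3⟩ := hζ'.eq_pow_of_pow_eq_one h1
    exact ⟨i, by rw [h3, div_mul_cancel₀ _ hz]⟩
  have hfix : ∀ (h : W ≃ₐ[K] W) (a : ℕ), h (algebraMap K W ζ ^ a) = algebraMap K W ζ ^ a := by
    intro h a
    rw [map_pow, h.commutes]
  let R : Subgroup Wˣ :=
    { carrier := {r | ∃ a : ℕ, r = u ^ a ∧ ∃ h ∈ H, h z = algebraMap K W ζ ^ a * z}
      mul_mem' := by
        rintro r r' ⟨a, rfl, h, hh, h1⟩ ⟨a', rfl, h', hh', h1'⟩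
        refine ⟨a + a', (pow_add u a a').symm, h * h', H.mul_mem hh hh', ?_⟩
        rw [AlgEquiv.mul_apply, h1', map_mul, hfix, h1, pow_add]
        ring
      one_mem' := ⟨0, by simp, 1, H.one_mem, by simp⟩
      inv_mem' := by
        rintro r ⟨a, rfl, h, hh, h1⟩
        have h2 : h⁻¹ z = (algebraMap K W ζ ^ a)⁻¹ * z := by
          have h3 := congrArg (h⁻¹ : W ≃ₐ[K] W) h1
          rw [← AlgEquiv.mul_apply, inv_mul_cancel, AlgEquiv.one_apply, map_mul, hfix] at h3
          have h5 : algebraMap K W ζ ^ a ≠ 0 := by rw [← hu]; exact pow_ne_zero _ u.ne_zero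
          rw [eq_inv_mul_iff_mul_eq₀ h5]
          exact h3.symm
        obtain ⟨b, hb⟩ := hact _ (H.inv_mem hh)
        refine ⟨b, ?_, h⁻¹, H.inv_mem hh, hb⟩
        rw [h2] at hb
        have h4 := mul_right_cancel₀ hz hb
        ext
        push_cast
        rw [hu]
        exact h4 }
  have hmem : ∀ r, r ∈ R ↔ ∃ a : ℕ, r = u ^ a ∧ ∃ h ∈ H, h z = algebraMap K W ζ ^ a * z :=
    fun r => Iff.rfl
  have hle : R ≤ Subgroup.zpowers u := by
    rintro r ⟨a, rfl, -⟩
    exact Subgroup.npow_mem_zpowers u a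
  have hcz : Nat.card (Subgroup.zpowers u) = d := by rw [Nat.card_zpowers, huord]
  have hfinz : Finite (Subgroup.zpowers u) := Nat.finite_of_card_ne_zero (by rw [hcz]; exact hd)
  by_cases hR : R = Subgroup.zpowers u
  · left
    intro a
    have h1 : u ^ a ∈ R := by rw [hR]; exact Subgroup.npow_mem_zpowers u a
    obtain ⟨b, hb, h, hh, h2⟩ := (hmem _).1 h1
    refine ⟨h, hh, ?_⟩
    rw [h2, ← hu]
    have h3 := congrArg (Units.val) hb
    push_cast at h3
    rw [h3]
  · right
    have hdvd : Nat.card R ∣ d := by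
      rw [← hcz]
      exact Subgroup.card_dvd_of_le hle
    have hne : Nat.card R ≠ d := by
      intro h
      apply hR
      exact Subgroup.eq_of_le_of_card_ge hle (by rw [hcz, h])
    obtain ⟨k, hk⟩ := hdvd
    have hk1 : k ≠ 1 := by
      rintro rfl
      exact hne (by rw [hk, mul_one])
    obtain ⟨q, hq, hqk⟩ := Nat.exists_prime_and_dvd hk1
    obtain ⟨k', rfl⟩ := hqk
    have hqd : d / q = Nat.card R * k' := by
      rw [hk, mul_left_comm, Nat.mul_div_cancel_left _ hq.pos]
    refine ⟨q, hq, ⟨Nat.card R * k', by rw [hk]; ring⟩, ?_⟩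
    intro h hh
    obtain ⟨a, ha⟩ := hact h hh
    have h1 : u ^ a ∈ R := ⟨a, rfl, h, hh, ha⟩
    have h2 : (u ^ a) ^ Nat.card R = 1 := by
      have := pow_card_eq_one' (x := (⟨u ^ a, h1⟩ : R))
      exact congrArg Subtype.val this
    have h3 : (algebraMap K W ζ ^ a) ^ Nat.card R = 1 := by
      have := congrArg Units.val h2
      push_cast at this
      rw [hu] at this
      exact this
    rw [map_pow, ha, mul_pow, hqd]
    rw [pow_mul ((algebraMap K W) ζ ^ a), h3, one_pow, one_mul]

end root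

section tran

variable {K W : Type*} [Field K] [CharZero K] [Field W] [Algebra K W] [IsAlgClosed W]
  [Algebra.IsAlgebraic K W]

theorem mem_of_fixed (E : IntermediateField K W) {x : W}
    (hx : ∀ g ∈ E.fixingSubgroup, g x = x) : x ∈ E := by
  have h1 : IsAlgClosure K W := ⟨inferInstance, inferInstance⟩
  have h2 : IsGalois K W := isGalois_iff.2 ⟨inferInstance, inferInstance⟩
  rw [← InfiniteGalois.fixedField_fixingSubgroup E, IntermediateField.mem_fixedField_iff]
  exact hx

/-- irreducibility of `f ^ l (X) - b'` over `E`, stated as transitivity on the level `l` -/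
theorem tran_over {d : ℕ} (hd : 2 ≤ d) {ζ c b' : K} (hζ : IsPrimitiveRoot ζ d)
    (E : IntermediateField K W) {η : W} (hη : η ∈ E) (hη1 : η ^ d = -1) (l : ℕ)
    (hirr : ∀ j < l, ∀ q : ℕ, q.Prime → q ∣ d → ∀ y ∈ E,
      y ^ q ≠ algebraMap K W (b' - (uf d c)^[j + 1] 0)) :
    ∀ y ∈ Lev d W c b' l, ∀ y' ∈ Lev d W c b' l, ∃ g ∈ E.fixingSubgroup, g y = y' := by
  classical
  have hW : CharZero W := charZero_of_injective_algebraMap (algebraMap K W).injective
  have hd0 : d ≠ 0 := by omega
  have huc : uf d c 0 = c := by simp [uf, hd0]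
  have hne : ∀ j < l, (uf d c)^[j] c ≠ b' := by
    intro j hj h
    refine hirr j hj d.minFac (Nat.minFac_prime (by omega)) (Nat.minFac_dvd d) 0 E.zero_mem ?_
    rw [Function.iterate_succ_apply, huc, h, sub_self, map_zero,
      zero_pow (Nat.minFac_prime (by omega)).ne_zero]
  have hneW : ∀ j < l, ∀ y, (uf d (algebraMap K W c))^[j] y = algebraMap K W b' →
      y ≠ algebraMap K W c := by
    rintro j hj y hy rfl
    rw [← uf_map] at hy
    exact hne j hj ((algebraMap K W).injective hy)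
  induction l with
  | zero =>
    intro y hy y' hy'
    refine ⟨1, E.fixingSubgroup.one_mem, ?_⟩
    rw [mem_Lev, Function.iterate_zero_apply] at hy hy'
    rw [hy, hy', AlgEquiv.one_apply]
  | succ l ih =>
    have ih' := ih (fun j hj => hirr j (hj.trans (Nat.lt_succ_self l)))
      (fun j hj => hne j (hj.trans (Nat.lt_succ_self l)))
      (fun j hj => hneW j (hj.trans (Nat.lt_succ_self l)))
    intro y hy y' hy'
    obtain ⟨g, hg, hgy⟩ := ih' _ (Lev_succ.1 hy) _ (Lev_succ.1 hy')
    have h1 : uf d (algebraMap K W c) (g y) = uf d (algebraMap K W c) y' := by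
      rw [← hgy]
      exact (aut_iter d c g 1 y).symm
    obtain ⟨i, -, hi⟩ := (uf_eq_iff hd0 hζ).1 h1
    have hz : g y ∈ Lev d W c b' (l + 1) := Lev_aut g hy
    set z := g y with hzdef
    set x := uf d (algebraMap K W c) z with hx
    have hxL : x ∈ Lev d W c b' l := Lev_succ.1 hz
    have hxc : x ≠ algebraMap K W c := hneW l (Nat.lt_succ_self l) x hxL
    have hzd : z ^ d = x - algebraMap K W c := by rw [hx, uf, add_sub_cancel_right]
    have hz0 : z ≠ 0 := by
      rintro h
      rw [h, zero_pow hd0] at hzd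
      exact hxc (sub_eq_zero.1 hzd.symm)
    let Hx : Subgroup (W ≃ₐ[K] W) := E.fixingSubgroup ⊓ MulAction.stabilizer (W ≃ₐ[K] W) x
    have hHx : ∀ h, h ∈ Hx ↔ h ∈ E.fixingSubgroup ∧ h x = x := fun h => by
      rw [Subgroup.mem_inf, MulAction.mem_stabilizer_iff, AlgEquiv.smul_def]
    rcases kummer_step hd0 hζ Hx hz0 (fun h hh => by
      rw [hzd, map_sub, ((hHx h).1 hh).2, h.commutes]) with hall | ⟨q, hq, hqd, hfix⟩
    · obtain ⟨h, hh, he⟩ := hall i
      refine ⟨h * g, E.fixingSubgroup.mul_mem ((hHx h).1 hh).1 hg, ?_⟩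
      rw [AlgEquiv.mul_apply, ← hzdef, he, hi]
    · exfalso
      have hmem : ∀ w, w ∈ pre d (algebraMap K W c) l (algebraMap K W b') ↔ w ∈ Lev d W c b' l :=
        fun w => mem_pre hd0
      obtain ⟨Θ, hΘ1, hΘ2⟩ := orbProdPow E.fixingSubgroup
        (pre d (algebraMap K W c) l (algebraMap K W b')) x
        (fun h _ w hw => (hmem _).2 (Lev_aut h ((hmem w).1 hw)))
        (fun w hw => ih' x hxL w ((hmem w).1 hw)) (fun w => w - algebraMap K W c)
        (fun h _ w _ => by rw [map_sub, h.commutes]) ((hmem x).2 hxL) (z ^ (d / q)) q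
        (by rw [← pow_mul, Nat.div_mul_cancel hqd, hzd])
        (fun h hh hhx => hfix h ((hHx h).2 ⟨hh, hhx⟩))
      have hΘE : Θ ∈ E := mem_of_fixed E hΘ1
      have hprod := prod_sub (W := W) hd0 (c := algebraMap K W c) l (x := algebraMap K W b')
        (fun i hi => hneW i (hi.trans (Nat.lt_succ_self l))) (algebraMap K W c)
      set N := (pre d (algebraMap K W c) l (algebraMap K W b')).card with hN
      have hneg : ∏ w ∈ pre d (algebraMap K W c) l (algebraMap K W b'), (w - algebraMap K W c)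
          = (-1) ^ N * algebraMap K W ((uf d c)^[l] c - b') := by
        rw [map_sub, uf_map, ← hprod, hN, ← Finset.prod_const, ← Finset.prod_mul_distrib]
        refine Finset.prod_congr rfl fun w _ => by ring
      refine hirr l (Nat.lt_succ_self l) q hq hqd (η ^ (d / q * (N + 1)) * Θ)
        (E.mul_mem (pow_mem hη _) hΘE) ?_
      have h5 : (η ^ (d / q * (N + 1))) ^ q = (-1) ^ (N + 1) := by
        rw [← pow_mul, show d / q * (N + 1) * q = (d / q * q) * (N + 1) by ring,
          Nat.div_mul_cancel hqd, pow_mul, hη1]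
      rw [mul_pow, h5, hΘ2, hneg, Function.iterate_succ_apply, huc, ← mul_assoc, ← pow_add,
        show N + 1 + N = 2 * N + 1 by ring, pow_succ, pow_mul]
      simp only [map_sub]
      ring

omit [CharZero K] [Algebra.IsAlgebraic K W] in
/-- there is a point on every level -/
theorem Lev_nonempty {d : ℕ} (hd : d ≠ 0) (c b' : K) (l : ℕ) : (Lev d W c b' l).Nonempty := by
  have h1 : (lp d (algebraMap K W c) (algebraMap K W b') l).degree ≠ 0 := by
    rw [degree_eq_natDegree (lp_monic hd _ _ l).ne_zero, lp_natDegree]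
    exact_mod_cast pow_ne_zero l hd
  obtain ⟨z, hz⟩ := IsAlgClosed.exists_root _ h1
  refine ⟨z, ?_⟩
  rw [IsRoot, eval_lp, sub_eq_zero] at hz
  exact hz

/-- ROW U3, general degree: the hypothesis is the existence of long windows without `q`-th powers,
`q` a prime divisor of `d`, over the finite extensions of `K`. -/
theorem branches_of_window {d : ℕ} (hd : 2 ≤ d) {ζ c b : K} (hζ : IsPrimitiveRoot ζ d)
    (h0 : Function.Injective fun n : ℕ => (uf d c)^[n] 0)
    (hw : Function.Injective fun n : ℕ => (uf d c)^[n] b)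
    {T : Set W} (hT : T.Finite) (s₁ : W ≃ₐ[K] W) (m N0 : ℕ)
    (hwin : ∀ E : IntermediateField K W, FiniteDimensional K E → ∀ F : Finset K,
      (∀ t ∈ F, t ≠ c) → ∀ N : ℕ, ∃ k, N ≤ k ∧ ∀ i, k ≤ i → i < k + m →
        ∀ q : ℕ, q.Prime → q ∣ d → ∀ t ∈ F, ∀ y ∈ E, y ^ q ≠ algebraMap K W ((uf d c)^[i] b - t)) :
    ∃ k, N0 ≤ k ∧ ∃ s : W ≃ₐ[K] W, (∀ t ∈ T, s t = s₁ t) ∧
      m + 1 ≤ (Fix d W c ((uf d c)^[k] b) m s).ncard := by
  classical
  have hW : CharZero W := charZero_of_injective_algebraMap (algebraMap K W).injective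
  have hd0 : d ≠ 0 := by omega
  have huc : uf d c 0 = c := by simp [uf, hd0]
  have hζ1 : ζ ≠ 1 := hζ.ne_one (by omega)
  have hζ0 : ζ ≠ 0 := hζ.ne_zero hd0
  have hc0 : c ≠ 0 := by
    rintro rfl
    have h1 : (uf d (0 : K))^[1] 0 = (uf d (0 : K))^[0] 0 := huc
    exact absurd (h0 h1) one_ne_zero
  have hζd : ∀ x : K, uf d c (ζ * x) = uf d c x := by
    intro x
    rw [uf, uf, mul_pow, hζ.pow_eq_one, one_mul]
  -- the radicals of `ζ` and `-1`
  obtain ⟨ξ, hξ⟩ := IsAlgClosed.exists_pow_nat_eq (algebraMap K W ζ) (Nat.pos_of_ne_zero hd0)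
  obtain ⟨η, hη⟩ := IsAlgClosed.exists_pow_nat_eq (-1 : W) (Nat.pos_of_ne_zero hd0)
  have hξ0 : ξ ≠ 0 := by
    rintro rfl
    rw [zero_pow hd0] at hξ
    exact hζ0 ((map_eq_zero _).1 hξ.symm)
  set E : IntermediateField K W := IntermediateField.adjoin K (T ∪ {ξ, η}) with hE
  have hTE : ∀ t ∈ T, t ∈ E := fun t ht => IntermediateField.subset_adjoin K _ (Or.inl ht)
  have hξE : ξ ∈ E := IntermediateField.subset_adjoin K _ (Or.inr (Or.inl rfl))
  have hηE : η ∈ E := IntermediateField.subset_adjoin K _ (Or.inr (Or.inr rfl))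
  have hfin : FiniteDimensional K E := by
    have h1 : Finite (T ∪ {ξ, η} : Set W) := (hT.union (Set.toFinite {ξ, η}))
    exact IntermediateField.finiteDimensional_adjoin
      fun x _ => (Algebra.IsAlgebraic.isAlgebraic x).isIntegral
  -- the window
  obtain ⟨M, hM⟩ : ∃ M, ∀ n, M ≤ n → (uf d c)^[n] b ≠ 0 := by
    by_cases h : ∃ n, (uf d c)^[n] b = 0
    · obtain ⟨n, hn⟩ := h
      refine ⟨n + 1, fun n' hn' h' => ?_⟩
      have : n' = n := hw (h'.trans hn.symm)
      omega
    · push Not at h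
      exact ⟨0, fun n _ => h n⟩
  obtain ⟨k, hk, hkw⟩ := hwin E hfin ((Finset.range m).image fun l => ζ⁻¹ * (uf d c)^[l + 1] 0)
    (by
      intro t ht
      obtain ⟨l, -, rfl⟩ := Finset.mem_image.1 ht
      intro h
      rw [inv_mul_eq_iff_eq_mul₀ hζ0] at h
      have h1 : (uf d c)^[l + 2] 0 = (uf d c)^[2] 0 := by
        rw [Function.iterate_succ_apply', h, hζd]
        show _ = uf d c (uf d c 0)
        rw [huc]
      have h2 : l + 2 = 2 := h0 h1
      have h3 : l = 0 := by omega
      subst h3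
      have h4 : c = ζ * c := by
        rw [← h]
        exact huc.symm
      have h5 : (ζ - 1) * c = 0 := by linear_combination -h4
      rcases mul_eq_zero.1 h5 with h6 | h6
      · exact hζ1 (sub_eq_zero.1 h6)
      · exact hc0 h6) (max N0 M)
  set β : ℕ → K := fun l => ζ * (uf d c)^[k + l] b with hβ
  -- transitivity on the branches
  have htran : ∀ l < m, ∀ y ∈ Lev d W c (β l) l, ∀ y' ∈ Lev d W c (β l) l,
      ∃ g ∈ E.fixingSubgroup, g y = y' := by
    intro l hl
    refine tran_over hd hζ E hηE hη l ?_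
    intro j hj q hq hqd y hy h
    refine hkw (k + l) (by omega) (by omega) q hq hqd _
      (Finset.mem_image.2 ⟨j, Finset.mem_range.2 (by omega), rfl⟩) (y * (ξ ^ (d / q))⁻¹)
      (E.mul_mem hy (E.inv_mem (pow_mem hξE _))) ?_
    rw [mul_pow, h, inv_pow, ← pow_mul, Nat.div_mul_cancel hqd, hξ, ← map_inv₀, ← map_mul]
    congr 1
    rw [hβ]
    field_simp
  -- the points of the branches are on the level `m`
  have hstep : ∀ l, ∀ x ∈ Lev d W c (β l) l,
      (uf d (algebraMap K W c))^[l + 1] x = algebraMap K W ((uf d c)^[k + l + 1] b) := by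
    intro l x hx
    rw [Function.iterate_succ_apply', mem_Lev.1 hx, Function.iterate_succ_apply', ← hζd]
    exact (uf_map (algebraMap K W) d c _ 1).symm
  have hlev : ∀ l, l < m → ∀ x ∈ Lev d W c (β l) l, x ∈ Lev d W c ((uf d c)^[k + m] b) m := by
    intro l hl x hx
    rw [mem_Lev, show m = (m - (l + 1)) + (l + 1) by omega, Function.iterate_add_apply,
      hstep l x hx, ← uf_map, ← Function.iterate_add_apply]
    congr 2
    omega
  have hmem : ∀ (l : ℕ) (b' : K) (w : W),
      w ∈ pre d (algebraMap K W c) l (algebraMap K W b') ↔ w ∈ Lev d W c b' l :=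
    fun l b' w => mem_pre hd0
  let S : Option (Fin m) → Finset W := fun o => match o with
    | none => {algebraMap K W ((uf d c)^[k] b)}
    | some l => pre d (algebraMap K W c) l (algebraMap K W (β l))
  have hSn : ∀ x, x ∈ S none ↔ x = algebraMap K W ((uf d c)^[k] b) := fun x => Finset.mem_singleton
  have hSs : ∀ (l : Fin m) (x : W), x ∈ S (some l) ↔ x ∈ Lev d W c (β l) l :=
    fun l x => hmem _ _ _
  -- a point of a branch does not satisfy the equation of a later one
  have hneβ : ∀ l, (uf d c)^[k + l] b ≠ β l := by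
    intro l h
    have h1 : (uf d c)^[k + l] b ≠ 0 := hM _ ((le_max_right _ _).trans (hk.trans (by omega)))
    have h2 : (ζ - 1) * (uf d c)^[k + l] b = 0 := by
      rw [hβ] at h
      linear_combination -h
    rcases mul_eq_zero.1 h2 with h6 | h6
    · exact hζ1 (sub_eq_zero.1 h6)
    · exact h1 h6
  have hdis1 : ∀ l : Fin m, algebraMap K W ((uf d c)^[k] b) ∉ Lev d W c (β l) l := by
    intro l h
    rw [mem_Lev, ← uf_map, ← Function.iterate_add_apply] at h
    have h2 := (algebraMap K W).injective h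
    rw [show (l : ℕ) + k = k + l by omega] at h2
    exact hneβ l h2
  have hdis2 : ∀ l l' : Fin m, l < l' → ∀ x ∈ Lev d W c (β l) l, x ∉ Lev d W c (β l') l' := by
    intro l l' hll' x hx hx'
    have hlt : (l : ℕ) < l' := hll'
    rw [mem_Lev, show (l' : ℕ) = (l' - (l + 1)) + (l + 1) by omega, Function.iterate_add_apply,
      hstep l x hx, ← uf_map, ← Function.iterate_add_apply] at hx'
    have h2 := (algebraMap K W).injective hx'
    rw [show (l' : ℕ) - (l + 1) + (k + l + 1) = k + ((l' : ℕ) - (l + 1) + (l + 1)) by omega] at h2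
    exact hneβ _ h2
  have hStab : ∀ (g : W ≃ₐ[K] W) (o : Option (Fin m)), ∀ x ∈ S o, g x ∈ S o := by
    intro g o x hx
    cases o with
    | none =>
      rw [hSn] at hx ⊢
      rw [hx, g.commutes]
    | some l =>
      rw [hSs] at hx ⊢
      exact Lev_aut g hx
  obtain ⟨n, hn, hcard⟩ := WAvg.exists_fix_ge (G := W ≃ₐ[K] W) (X := W) E.fixingSubgroup s₁
    (pre d (algebraMap K W c) m (algebraMap K W ((uf d c)^[k + m] b)))
    (by
      intro g x hx
      rw [hmem] at hx ⊢
      exact Lev_aut g hx)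
    S
    (by
      intro o x hx
      rw [hmem]
      cases o with
      | none =>
        rw [hSn] at hx
        rw [hx, mem_Lev, ← uf_map, ← Function.iterate_add_apply, add_comm m k]
      | some l => exact hlev l l.2 x ((hSs l x).1 hx))
    (by
      intro o
      cases o with
      | none => exact ⟨_, (hSn _).2 rfl⟩
      | some l =>
        obtain ⟨z, hz⟩ := Lev_nonempty (W := W) hd0 c (β l) l
        exact ⟨z, (hSs l z).2 hz⟩)
    (by
      intro o o' hoo'
      rw [Finset.disjoint_left]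
      intro x hx hx'
      cases o with
      | none =>
        cases o' with
        | none => exact hoo' rfl
        | some l' =>
          rw [hSn] at hx
          rw [hSs, hx] at hx'
          exact hdis1 l' hx'
      | some l =>
        cases o' with
        | none =>
          rw [hSn] at hx'
          rw [hSs, hx'] at hx
          exact hdis1 l hx
        | some l' =>
          rw [hSs] at hx hx'
          rcases lt_trichotomy l l' with h | h | h
          · exact hdis2 l l' h x hx hx'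
          · exact hoo' (by rw [h])
          · exact hdis2 l' l h x hx' hx)
    (fun o x hx g _ => hStab g o x hx)
    (by
      intro o x hx y hy
      cases o with
      | none =>
        rw [hSn] at hx hy
        exact ⟨1, E.fixingSubgroup.one_mem, by rw [hx, hy, one_smul]⟩
      | some l =>
        rw [hSs] at hx hy
        exact htran l l.2 x hx y hy)
    (fun o x hx => hStab s₁ o x hx)
  refine ⟨k + m, ((le_max_left _ _).trans hk).trans (by omega), s₁ * n, ?_, ?_⟩
  · intro t ht
    rw [AlgEquiv.mul_apply]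
    congr 1
    exact ((IntermediateField.mem_fixingSubgroup_iff _ _).1 hn) t (hTE t ht)
  · rw [Fintype.card_option, Fintype.card_fin] at hcard
    refine hcard.trans (Set.ncard_le_ncard ?_ (Fix_finite hd0 _ _ _ _))
    rintro x ⟨hx, hx'⟩
    exact ⟨(hmem _ _ _).1 (Finset.mem_coe.1 hx), hx'⟩

end tran

universe u

/-- ROW U3, general degree, with windows over number fields -/
theorem branches_of_windowD {K W : Type u} [Field K] [NumberField K] [Field W] [Algebra K W]
    [IsAlgClosed W] [Algebra.IsAlgebraic K W] {d : ℕ} (hd : 2 ≤ d) {ζ c b : K}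
    (hζ : IsPrimitiveRoot ζ d)
    (h0 : Function.Injective fun n : ℕ => (uf d c)^[n] 0)
    (hw : Function.Injective fun n : ℕ => (uf d c)^[n] b)
    {T : Set W} (hT : T.Finite) (s₁ : W ≃ₐ[K] W) (m N0 : ℕ)
    (hwin : ∀ (L : Type u) [Field L] [NumberField L] (ζ c x0 : L), IsPrimitiveRoot ζ d →
      (Function.Injective fun n : ℕ => (uf d c)^[n] 0) →
      (Function.Injective fun n : ℕ => (uf d c)^[n] x0) → ∀ F : Finset L, (∀ t ∈ F, t ≠ c) →
      ∀ m N0 : ℕ, ∃ k, N0 ≤ k ∧ ∀ i, k ≤ i → i < k + m → ∀ q : ℕ, q.Prime → q ∣ d →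
        ∀ t ∈ F, ∀ y : L, y ^ q ≠ (uf d c)^[i] x0 - t) :
    ∃ k, N0 ≤ k ∧ ∃ s : W ≃ₐ[K] W, (∀ t ∈ T, s t = s₁ t) ∧
      m + 1 ≤ (Fix d W c ((uf d c)^[k] b) m s).ncard := by
  classical
  refine branches_of_window hd hζ h0 hw hT s₁ m N0 ?_
  intro E hE F hF N
  have hNF : NumberField E := NumberField.of_module_finite K E
  have hinj : ∀ x : K, (Function.Injective fun n : ℕ => (uf d c)^[n] x) →
      Function.Injective fun n : ℕ => (uf d (algebraMap K E c))^[n] (algebraMap K E x) := by
    intro x hx n n' h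
    simp only [← uf_map] at h
    exact hx ((algebraMap K E).injective h)
  obtain ⟨k, hk, h⟩ := hwin E (algebraMap K E ζ) (algebraMap K E c) (algebraMap K E b)
    (hζ.map_of_injective (algebraMap K E).injective)
    (by simpa using hinj 0 h0) (hinj b hw) (F.image (algebraMap K E))
    (by
      intro t ht
      obtain ⟨t', ht', rfl⟩ := Finset.mem_image.1 ht
      exact fun h => hF t' ht' ((algebraMap K E).injective h)) m N
  refine ⟨k, hk, fun i hi hik q hq hqd t ht y hy hyq => ?_⟩
  refine h i hi hik q hq hqd _ (Finset.mem_image_of_mem _ ht) ⟨y, hy⟩ ?_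
  apply (algebraMap E W).injective
  rw [map_pow, map_sub, ← uf_map, ← IsScalarTower.algebraMap_apply, ← IsScalarTower.algebraMap_apply,
    ← map_sub]
  exact hyq

end Pool.Agent.ORB.UQ
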