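import Pool.Agent.ORB.UDown

/-!
ORB, Theorem V for `x ^ p + c`: the hypotheses of the engine over the fields of the nodes of a high
level.
-/

set_option autoImplicit false

namespace Pool.Agent.ORB.UQ

open IntermediateField NumberField Polynomial

universe u

theorem numberField_adjoin {K W : Type*} [Field K] [NumberField K] [Field W] [Algebra K W]
    [Algebra.IsAlgebraic K W] (r : W) : NumberField K⟮r⟯ := by
  have hfin : FiniteDimensional K K⟮r⟯ :=
    adjoin.finiteDimensional (Algebra.IsAlgebraic.isAlgebraic (R := K) r).isIntegral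
  have hQ : Module.Finite ℚ K⟮r⟯ := Module.Finite.trans (R := ℚ) K K⟮r⟯
  have hz : CharZero K⟮r⟯ := charZero_of_injective_algebraMap (algebraMap K K⟮r⟯).injective
  exact ⟨⟩

section
variable {K W : Type*} [Field K] [Field W] [Algebra K W] {p : ℕ} {c b : K}

/-- above a node of a high level there is nothing from the orbit of `0` -/
theorem orbit_avoid (h0 : Function.Injective fun n : ℕ => (uf p c)^[n] 0) :
    ∃ k₀ : ℕ, ∀ k, k₀ ≤ k → ∀ r ∈ Lev p W c b k, ∀ n, 1 ≤ n →
      algebraMap K W ((uf p c)^[n] 0) ≠ r := by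
  by_cases hb : ∃ m, (uf p c)^[m] 0 = b
  · obtain ⟨m, hm⟩ := hb
    refine ⟨m, fun k hk r hr n hn h => ?_⟩
    rw [← h, mem_Lev, ← uf_map] at hr
    have h1 := (algebraMap K W).injective hr
    rw [← Function.iterate_add_apply, ← hm] at h1
    have h2 : k + n = m := h0 h1
    omega
  · push Not at hb
    refine ⟨0, fun k _ r hr n _ h => ?_⟩
    rw [← h, mem_Lev, ← uf_map] at hr
    have h1 := (algebraMap K W).injective hr
    rw [← Function.iterate_add_apply] at h1
    exact hb _ h1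

/-- over the field of a node: `0` is wandering and the node is not in its orbit -/
theorem node_zero (h0 : Function.Injective fun n : ℕ => (uf p c)^[n] 0) {r : W}
    (hr : ∀ n, 1 ≤ n → algebraMap K W ((uf p c)^[n] 0) ≠ r) :
    (Function.Injective fun n : ℕ => (uf p (algebraMap K K⟮r⟯ c))^[n] 0) ∧
      ∀ n, 1 ≤ n → (uf p (algebraMap K K⟮r⟯ c))^[n] 0 ≠ AdjoinSimple.gen K r := by
  have hz : (algebraMap K K⟮r⟯) 0 = 0 := map_zero _
  refine ⟨fun n m hnm => h0 ?_, fun n hn h => ?_⟩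
  · show (uf p c)^[n] 0 = (uf p c)^[m] 0
    have h1 : (uf p (algebraMap K K⟮r⟯ c))^[n] 0 = (uf p (algebraMap K K⟮r⟯ c))^[m] 0 := hnm
    rw [← hz, ← uf_map, ← uf_map] at h1
    exact (algebraMap K K⟮r⟯).injective h1
  · rw [← hz, ← uf_map] at h
    apply hr n hn
    have h2 := congrArg (algebraMap K⟮r⟯ W) h
    rw [AdjoinSimple.algebraMap_gen, ← IsScalarTower.algebraMap_apply] at h2
    exact h2

/-- over the field of a node: the node is wandering -/
theorem node_wander (hw : Function.Injective fun n : ℕ => (uf p c)^[n] b) {k : ℕ} {r : W}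
    (hr : r ∈ Lev p W c b k) :
    Function.Injective fun n : ℕ => (uf p (algebraMap K K⟮r⟯ c))^[n] (AdjoinSimple.gen K r) := by
  intro n m hnm
  apply hw
  show (uf p c)^[n] b = (uf p c)^[m] b
  have h1 : (uf p (algebraMap K K⟮r⟯ c))^[n] (AdjoinSimple.gen K r) =
    (uf p (algebraMap K K⟮r⟯ c))^[m] (AdjoinSimple.gen K r) := hnm
  have h2 := congrArg (algebraMap K⟮r⟯ W) h1
  rw [uf_map, uf_map, AdjoinSimple.algebraMap_gen, ← IsScalarTower.algebraMap_apply] at h2
  have h3 := congrArg ((uf p (algebraMap K W c))^[k]) h2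
  rw [← Function.iterate_add_apply, ← Function.iterate_add_apply, add_comm k n, add_comm k m,
    Function.iterate_add_apply, Function.iterate_add_apply, mem_Lev.1 hr, ← uf_map, ← uf_map] at h3
  exact (algebraMap K W).injective h3

/-- a level of a level -/
theorem Lev_adjoin {k m : ℕ} {r z : W} (hr : r ∈ Lev p W c b k)
    (hz : z ∈ Lev p W (algebraMap K K⟮r⟯ c) (AdjoinSimple.gen K r) m) :
    z ∈ Lev p W c b (k + m) := by
  rw [Lev_iter]
  have h1 : (uf p (algebraMap K W c))^[m] z = r := hz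
  rw [h1]
  exact hr

/-- over the field of a node: transitivity -/
theorem node_tran {k₀ : ℕ} (hk₀ : ∀ l, ∀ y ∈ Lev p W c b (k₀ + l), ∀ y' ∈ Lev p W c b (k₀ + l),
      (uf p (algebraMap K W c))^[l] y = (uf p (algebraMap K W c))^[l] y' →
        ∃ g : W ≃ₐ[K] W, g y = y') {k : ℕ} (hk : k₀ ≤ k) {r : W} (hr : r ∈ Lev p W c b k) (l : ℕ) :
    Tran p W (algebraMap K K⟮r⟯ c) (AdjoinSimple.gen K r) l := by
  intro y hy y' hy'
  have h1 : (uf p (algebraMap K W c))^[l] y = r := hy
  have h2 : (uf p (algebraMap K W c))^[l] y' = r := hy'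
  obtain ⟨e, rfl⟩ := Nat.exists_eq_add_of_le hk
  obtain ⟨g, hg⟩ := hk₀ (e + l) y (by rw [← add_assoc]; exact Lev_adjoin hr hy) y'
    (by rw [← add_assoc]; exact Lev_adjoin hr hy') (by
      rw [Function.iterate_add_apply, Function.iterate_add_apply, h1, h2])
  have h3 : g r = r := by
    conv_lhs => rw [← h1]
    rw [aut_iter, hg, h2]
  exact ⟨VQ.liftAdj g r h3, hg⟩

/-- **The hypotheses of the engine over the fields of the nodes of a high level.** -/
theorem exists_nodes (h0 : Function.Injective fun n : ℕ => (uf p c)^[n] 0)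
    (hw : Function.Injective fun n : ℕ => (uf p c)^[n] b) {k₀ : ℕ}
    (hk₀ : ∀ l, ∀ y ∈ Lev p W c b (k₀ + l), ∀ y' ∈ Lev p W c b (k₀ + l),
      (uf p (algebraMap K W c))^[l] y = (uf p (algebraMap K W c))^[l] y' →
        ∃ g : W ≃ₐ[K] W, g y = y') :
    ∃ k, ∀ r ∈ Lev p W c b k,
      (Function.Injective fun n : ℕ => (uf p (algebraMap K K⟮r⟯ c))^[n] 0) ∧
      (Function.Injective fun n : ℕ => (uf p (algebraMap K K⟮r⟯ c))^[n] (AdjoinSimple.gen K r)) ∧
      (∀ n, 1 ≤ n → (uf p (algebraMap K K⟮r⟯ c))^[n] 0 ≠ AdjoinSimple.gen K r) ∧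
      ∀ l, Tran p W (algebraMap K K⟮r⟯ c) (AdjoinSimple.gen K r) l := by
  obtain ⟨k₁, hk₁⟩ := orbit_avoid (W := W) (b := b) h0
  refine ⟨max k₀ k₁, fun r hr => ?_⟩
  obtain ⟨h1, h2⟩ := node_zero h0 (hk₁ _ (le_max_right _ _) r hr)
  exact ⟨h1, node_wander hw hr, h2, node_tran hk₀ (le_max_left _ _) hr⟩

end

/-- from the engine over the fields of the nodes to the extension property -/
theorem ExtP_of_engine {K W : Type u} [Field K] [NumberField K] [Field W] [Algebra K W]
    [IsAlgClosed W] [Algebra.IsAlgebraic K W] {p : ℕ} (hp : p ≠ 0) {ζ c b : K}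
    (hζ : IsPrimitiveRoot ζ p)
    (E : ∀ (L : Type u) [Field L] [NumberField L] [Algebra L W] [Algebra.IsAlgebraic L W]
      (ζ' c' b' : L), IsPrimitiveRoot ζ' p →
      (Function.Injective fun n : ℕ => (uf p c')^[n] 0) →
      (Function.Injective fun n : ℕ => (uf p c')^[n] b') →
      (∀ n, 1 ≤ n → (uf p c')^[n] 0 ≠ b') → (∀ l, Tran p W c' b' l) → ExtP p W c' b')
    (h0 : Function.Injective fun n : ℕ => (uf p c)^[n] 0)
    (hw : Function.Injective fun n : ℕ => (uf p c)^[n] b) {k₀ : ℕ}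
    (hk₀ : ∀ l, ∀ y ∈ Lev p W c b (k₀ + l), ∀ y' ∈ Lev p W c b (k₀ + l),
      (uf p (algebraMap K W c))^[l] y = (uf p (algebraMap K W c))^[l] y' →
        ∃ g : W ≃ₐ[K] W, g y = y') : ExtP p W c b := by
  obtain ⟨k, hk⟩ := exists_nodes h0 hw hk₀
  refine descent hp k fun r hr => ?_
  have hnf : NumberField K⟮r⟯ := numberField_adjoin r
  have halg : Algebra.IsAlgebraic K⟮r⟯ W := Algebra.IsAlgebraic.tower_top (K := K) K⟮r⟯
  obtain ⟨h1, h2, h3, h4⟩ := hk r hr
  exact E K⟮r⟯ (algebraMap K K⟮r⟯ ζ) _ _ (hζ.map_of_injective (algebraMap K K⟮r⟯).injective)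
    h1 h2 h3 h4

end Pool.Agent.ORB.UQ
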