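import Mathlib

/-!
# ORB V+, row U4 (part 3): `(f^g(X) ^ d + a) (X ^ d + a) ^ (q - 1)` is not a `q`-th power
-/

set_option autoImplicit false

open Polynomial

namespace Pool.Agent.ORB.URoot

variable {F : Type*} [Field F]

/-- iterates of `X ^ d + c` -/
noncomputable def FP (d : ℕ) (c : F) : ℕ → F[X]
  | 0 => X
  | g + 1 => FP d c g ^ d + C c

theorem FP_eval {d : ℕ} (c : F) (x : ℕ → F) (hx : ∀ n, x (n + 1) = x n ^ d + c) (n g : ℕ) :
    (FP d c g).eval (x n) = x (n + g) := by
  induction g with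
  | zero => simp [FP]
  | succ g ih =>
    simp only [FP, eval_add, eval_pow, eval_C, ih]
    rw [← add_assoc, hx]

theorem FP_monic {d : ℕ} (hd : d ≠ 0) (c : F) (g : ℕ) :
    (FP d c g).Monic ∧ (FP d c g).natDegree = d ^ g := by
  induction g with
  | zero => simp [FP, monic_X]
  | succ g ih =>
    have h1 : (FP d c g ^ d).Monic := ih.1.pow d
    have h2 : (FP d c g ^ d).natDegree = d ^ (g + 1) := by
      rw [natDegree_pow, ih.2, pow_succ']
    have h3 : (C c : F[X]).degree < (FP d c g ^ d).degree := by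
      refine lt_of_le_of_lt degree_C_le ?_
      rw [degree_eq_natDegree h1.ne_zero, h2]
      exact_mod_cast Nat.pow_pos (Nat.pos_of_ne_zero hd)
    simp only [FP]
    exact ⟨h1.add_of_left h3, by rw [natDegree_add_eq_left_of_degree_lt h3, h2]⟩

theorem sum_monic {d : ℕ} (hd : d ≠ 0) {G : F[X]} {N : ℕ} (hG : G.Monic) (hGN : G.natDegree = N)
    (hN : 1 ≤ N) (a : F) : (G ^ d + C a).Monic ∧ (G ^ d + C a).natDegree = d * N := by
  have h1 : (G ^ d).Monic := hG.pow d
  have h2 : (G ^ d).natDegree = d * N := by rw [natDegree_pow, hGN]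
  have h3 : (C a : F[X]).degree < (G ^ d).degree := by
    refine lt_of_le_of_lt degree_C_le ?_
    rw [degree_eq_natDegree h1.ne_zero, h2]
    exact_mod_cast Nat.mul_pos (Nat.pos_of_ne_zero hd) hN
  exact ⟨h1.add_of_left h3, by rw [natDegree_add_eq_left_of_degree_lt h3, h2]⟩

/-- a nonconstant polynomial does not divide a nonzero constant -/
theorem const_zero {G : F[X]} (hG : 1 ≤ G.natDegree) {b : F} (h : G ∣ C b) : b = 0 := by
  by_contra hb
  have h1 : (C b : F[X]) ≠ 0 := by rwa [Ne, C_eq_zero]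
  have h2 := natDegree_le_of_dvd h h1
  rw [natDegree_C] at h2
  omega

/-- the case `d = 2` -/
theorem two_case [CharZero F] {c a κ : F} (hκ : κ ≠ 0) (g : ℕ)
    (h : C (κ ^ 2) * (FP 2 c (g + 1) ^ 2 + C a)
      = 4 * (X ^ 2 + C a) * derivative (FP 2 c (g + 1)) ^ 2) : c * (c + 2) = 0 := by
  have hκ2 : κ ^ 2 ≠ 0 := pow_ne_zero _ hκ
  set G : F[X] := FP 2 c g with hG
  have hF : FP 2 c (g + 1) = G ^ 2 + C c := rfl
  have hF' : derivative (FP 2 c (g + 1)) = 2 * G * derivative G := by
    rw [hF, derivative_add, derivative_C, add_zero, derivative_pow]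
    simp only [Nat.cast_ofNat, Nat.add_one_sub_one, pow_one, map_ofNat]
  have hGd : 1 ≤ G.natDegree := by
    rw [hG, (FP_monic two_ne_zero c g).2]
    exact Nat.one_le_two_pow
  have hG0 : G ≠ 0 := by
    rintro h0
    rw [h0, natDegree_zero] at hGd
    omega
  have ha : a = -c ^ 2 := by
    have h1 : G ∣ C (κ ^ 2 * (c ^ 2 + a)) := by
      refine ⟨4 * (X ^ 2 + C a) * (4 * G * derivative G ^ 2) - C (κ ^ 2) * (G ^ 3 + 2 * G * C c), ?_⟩
      rw [hF'] at h
      rw [hF] at h
      simp only [map_mul, map_add, map_pow] at h ⊢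
      linear_combination h
    have h2 := const_zero hGd h1
    rcases mul_eq_zero.1 h2 with h3 | h3
    · exact absurd h3 hκ2
    · linear_combination h3
  have hC : (C a : F[X]) = -C c ^ 2 := by rw [ha, map_neg, map_pow]
  have h4 : C (κ ^ 2) * (G ^ 2 + 2 * C c) = 16 * (X ^ 2 - C c ^ 2) * derivative G ^ 2 := by
    rw [hF', hF, hC] at h
    have h5 : G ^ 2 * (C (κ ^ 2) * (G ^ 2 + 2 * C c))
        = G ^ 2 * (16 * (X ^ 2 - C c ^ 2) * derivative G ^ 2) := by
      linear_combination h
    exact mul_left_cancel₀ (pow_ne_zero 2 hG0) h5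
  rcases g with _ | g
  · have hGX : G = X := rfl
    rw [hGX, derivative_X] at h4
    have e2 : (2 : F[X]) = C 2 := (map_ofNat C 2).symm
    have e16 : (16 : F[X]) = C 16 := (map_ofNat C 16).symm
    have h5 := congrArg (fun p => eval 0 p) h4
    have h6 := congrArg (fun p => eval 1 p) h4
    simp only [eval_mul, eval_C, eval_add, eval_pow, eval_X, eval_sub, eval_ofNat, eval_one] at h5 h6
    have h7 : κ ^ 2 = 16 := by linear_combination h6 - h5
    rw [h7] at h5
    have h8 : (16 : F) * (c * (c + 2)) = 0 := by linear_combination h5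
    rcases mul_eq_zero.1 h8 with h9 | h9
    · exact absurd h9 (by norm_num)
    · exact h9
  · set G1 : F[X] := FP 2 c g with hG1
    have hGG : G = G1 ^ 2 + C c := rfl
    have hG' : derivative G = 2 * G1 * derivative G1 := by
      rw [hGG, derivative_add, derivative_C, add_zero, derivative_pow]
      simp only [Nat.cast_ofNat, Nat.add_one_sub_one, pow_one, map_ofNat]
    have hG1d : 1 ≤ G1.natDegree := by
      rw [hG1, (FP_monic two_ne_zero c g).2]
      exact Nat.one_le_two_pow
    have h1 : G1 ∣ C (κ ^ 2 * (c * (c + 2))) := by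
      refine ⟨16 * (X ^ 2 - C c ^ 2) * (4 * G1 * derivative G1 ^ 2)
        - C (κ ^ 2) * (G1 ^ 3 + 2 * G1 * C c), ?_⟩
      rw [hG', hGG] at h4
      have e2 : (C (2 : F) : F[X]) = 2 := map_ofNat C 2
      simp only [map_mul, map_add, map_pow, e2] at h4 ⊢
      linear_combination h4
    have h2 := const_zero hG1d h1
    rcases mul_eq_zero.1 h2 with h3 | h3
    · exact absurd h3 hκ2
    · exact h3

theorem no_power [CharZero F] {q d : ℕ} (hq : q.Prime) (hqd : q ∣ d) (hd : d ≠ 0) {c a : F}
    (ha : a ≠ 0) (hc : d = 2 → c ≠ 0 ∧ c ≠ -2) {g : ℕ} (hg : 1 ≤ g) (S : F[X]) :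
    (FP d c g ^ d + C a) * (X ^ d + C a) ^ (q - 1) ≠ S ^ q := by
  intro hS
  have hq2 := hq.two_le
  have hdq : q ≤ d := Nat.le_of_dvd (Nat.pos_of_ne_zero hd) hqd
  have hd2 : 2 ≤ d := hq2.trans hdq
  obtain ⟨hFm, hFd⟩ := FP_monic hd c g
  set P1 : F[X] := X ^ d + C a with hP1
  set N : ℕ := d ^ g with hN
  have hN1 : 2 ≤ N := by
    calc 2 ≤ d := hd2
      _ = d ^ 1 := (pow_one d).symm
      _ ≤ d ^ g := Nat.pow_le_pow_right (by omega) hg
  obtain ⟨hP1m, hP1d⟩ := sum_monic (G := (X : F[X])) hd monic_X natDegree_X le_rfl a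
  rw [mul_one] at hP1d
  rw [← hP1] at hP1m hP1d
  obtain ⟨hP2m, hP2d⟩ := sum_monic hd hFm hFd (by omega) a
  set G : F[X] := FP d c g with hG
  have hsep : P1.Separable := by
    have h1 := separable_X_pow_sub_C (-a) (n := d) (by exact_mod_cast hd) (neg_ne_zero.2 ha)
    rwa [map_neg, sub_neg_eq_add] at h1
  have hdvd : P1 ∣ S := by
    have h1 : P1 ∣ S ^ q := by
      rw [← hS]
      refine Dvd.dvd.mul_left ?_ _
      exact dvd_pow_self _ (by omega)
    exact (hsep.squarefree.dvd_pow_iff_dvd hq.ne_zero).1 h1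
  obtain ⟨R, rfl⟩ := hdvd
  have hP10 : P1 ≠ 0 := hP1m.ne_zero
  have hPR : G ^ d + C a = P1 * R ^ q := by
    have h1 : P1 ^ (q - 1) * (G ^ d + C a) = P1 ^ (q - 1) * (P1 * R ^ q) := by
      have h2 : P1 ^ (q - 1) * (P1 * R ^ q) = (P1 * R) ^ q := by
        obtain ⟨r, rfl⟩ : ∃ r, q = r + 1 := ⟨q - 1, by omega⟩
        rw [Nat.add_sub_cancel, mul_pow, pow_succ P1 r]
        ring
      rw [h2, ← hS]
      ring
    exact mul_left_cancel₀ (pow_ne_zero _ hP10) h1
  have hR0 : R ≠ 0 := by
    rintro rfl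
    rw [zero_pow hq.ne_zero, mul_zero] at hPR
    exact hP2m.ne_zero hPR
  set r : ℕ := R.natDegree with hr
  have hdeg : d * N = d + q * r := by
    rw [← hP2d, hPR, natDegree_mul hP10 (pow_ne_zero _ hR0), hP1d, natDegree_pow]
  -- the derivative
  set T : F[X] := derivative P1 * R + (q : F[X]) * P1 * derivative R with hT
  have hder : C (d : F) * G ^ (d - 1) * derivative G = R ^ (q - 1) * T := by
    have h1 := congrArg derivative hPR
    rw [derivative_add, derivative_C, add_zero, derivative_pow, derivative_mul, derivative_pow] at h1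
    rw [h1, hT]
    have h2 : R ^ q = R ^ (q - 1) * R := by
      rw [← pow_succ]
      congr 1
      omega
    rw [h2]
    simp only [map_natCast]
    ring
  have hcopG : IsCoprime G R := by
    have h1 : IsCoprime G (G ^ d + C a) := by
      refine ⟨-(C a⁻¹ * G ^ (d - 1)), C a⁻¹, ?_⟩
      have h2 : G ^ d = G ^ (d - 1) * G := by
        rw [← pow_succ]
        congr 1
        omega
      have h3 : (C a⁻¹ : F[X]) * C a = 1 := by rw [← C_mul, inv_mul_cancel₀ ha, C_1]
      rw [h2]
      linear_combination h3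
    rw [hPR] at h1
    exact (h1.of_mul_right_right).of_isCoprime_of_dvd_right (dvd_pow_self R hq.ne_zero)
  have hdR0 : derivative G ≠ 0 := by
    intro h0
    have h1 := natDegree_eq_zero_of_derivative_eq_zero h0
    omega
  have hG0 : G ≠ 0 := hFm.ne_zero
  have hdF : (C (d : F) : F[X]) ≠ 0 := by
    rw [Ne, C_eq_zero]
    exact_mod_cast hd
  have hT0 : T ≠ 0 := by
    intro h0
    rw [h0, mul_zero] at hder
    exact mul_ne_zero (mul_ne_zero hdF (pow_ne_zero _ hG0)) hdR0 hder
  have hGT : G ^ (d - 1) ∣ T := by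
    have h1 : G ^ (d - 1) ∣ R ^ (q - 1) * T := by
      rw [← hder]
      exact ⟨C (d : F) * derivative G, by ring⟩
    exact (hcopG.pow).dvd_of_dvd_mul_left h1
  have hTd : T.natDegree ≤ r + (d - 1) := by
    rw [hT]
    refine (natDegree_add_le _ _).trans (max_le ?_ ?_)
    · refine natDegree_mul_le.trans ?_
      have h1 := natDegree_derivative_le P1
      rw [hP1d] at h1
      omega
    · refine natDegree_mul_le.trans ?_
      have h1 : ((q : F[X]) * P1).natDegree ≤ d := by
        refine natDegree_mul_le.trans ?_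
        rw [natDegree_natCast, hP1d, zero_add]
      have h2 := natDegree_derivative_le R
      rcases Nat.eq_zero_or_pos r with h0 | h0
      · have h3 : derivative R = 0 := by
          have h4 : R.natDegree = 0 := h0
          rw [eq_C_of_natDegree_eq_zero h4, derivative_C]
        -- degree of the product is zero
        have h5 : ((q : F[X]) * P1 * derivative R).natDegree = 0 := by rw [h3, mul_zero, natDegree_zero]
        have h6 : (derivative R).natDegree = 0 := by rw [h3, natDegree_zero]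
        -- fall back: refine the bound
        exact absurd h0 (by
          have h7 : 0 < q * r := by
            have h8 : d * 2 ≤ d * N := Nat.mul_le_mul_left d hN1
            omega
          exact (Nat.pos_of_mul_pos_left h7).ne')
      · omega
  have hle : (d - 1) * N ≤ r + (d - 1) := by
    have h1 := natDegree_le_of_dvd hGT hT0
    rw [natDegree_pow, hFd] at h1
    exact h1.trans hTd
  have hqr : 2 * r ≤ q * r := Nat.mul_le_mul_right r hq2
  rcases Nat.lt_or_ge 2 d with h3d | h3d
  · -- `d ≥ 3`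
    obtain ⟨k, rfl⟩ : ∃ k, d = k + 3 := ⟨d - 3, by omega⟩
    have e1 : k + 3 - 1 = k + 2 := by omega
    rw [e1] at hle
    have h4 : (k + 3) * N = (k + 2) * N + N := by ring
    have h5 : (k + 2) * N = k * N + 2 * N := by ring
    have h6 : k * 2 ≤ k * N := Nat.mul_le_mul_left k hN1
    omega
  · -- `d = 2`
    have hd2' : d = 2 := by omega
    obtain ⟨hc0, hc2⟩ := hc hd2'
    have hq2' : q = 2 := by omega
    obtain ⟨g', rfl⟩ : ∃ g', g = g' + 1 := ⟨g - 1, by omega⟩
    subst hd2'
    subst hq2'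
    simp only [Nat.add_one_sub_one, pow_one, Nat.cast_ofNat] at hder hGT
    obtain ⟨Q, hQ⟩ := hGT
    have hQd : Q.natDegree = 0 := by
      have hQ0 : Q ≠ 0 := by
        rintro rfl
        rw [mul_zero] at hQ
        exact hT0 hQ
      have h1 := congrArg natDegree hQ
      rw [natDegree_mul hG0 hQ0, hFd] at h1
      omega
    obtain ⟨κ, hκ⟩ : ∃ κ : F, Q = C κ := ⟨Q.coeff 0, eq_C_of_natDegree_eq_zero hQd⟩
    have hκ0 : κ ≠ 0 := by
      rintro rfl
      rw [hκ, C_0, mul_zero] at hQ
      exact hT0 hQ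
    have h2F : 2 * derivative G = R * C κ := by
      have e2 : (C (2 : F) : F[X]) = 2 := map_ofNat C 2
      have h1 : G * (2 * derivative G) = G * (R * C κ) := by
        rw [hQ, hκ, e2] at hder
        linear_combination hder
      exact mul_left_cancel₀ hG0 h1
    have hfin : c * (c + 2) = 0 := by
      refine two_case hκ0 g' (a := a) ?_
      change C (κ ^ 2) * (G ^ 2 + C a) = 4 * (X ^ 2 + C a) * derivative G ^ 2
      rw [hPR, ← hP1, map_pow]
      linear_combination (-P1 * (2 * derivative G + R * C κ)) * h2F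
    rcases mul_eq_zero.1 hfin with h | h
    · exact hc0 h
    · exact hc2 (by linear_combination h)

end Pool.Agent.ORB.URoot
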