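import Pool.Agent.ORB.UDefs
import Pool.Agent.ORB.URootR
import Pool.Agent.ORB.URootP

/-!
# ORB V+, row U4: long windows of the orbit of `x0` in which `x_i - t` is not a `q`-th power
-/

set_option autoImplicit false

open Polynomial Filter NumberField IsDedekindDomain

namespace Pool.Agent.ORB.URoot

open VWin

section place

variable {F : Type*} [Field F]

/-- a `q`-th root of `Z ^ q + a` is close to `ζ ^ i * Z` for some `i` -/
theorem near_root (A : AbsoluteValue F ℝ) {q : ℕ} (hq : 0 < q) {ζ : F} (hζ : IsPrimitiveRoot ζ q)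
    (a : F) {δ : ℝ} (hδ : 0 < δ) :
    ∃ M : ℝ, ∀ Z Y : F, M ≤ A Z → Y ^ q = Z ^ q + a →
      ∃ i < q, A (Y - ζ ^ i * Z) ≤ δ * A Z := by
  classical
  have ha := A.nonneg a
  refine ⟨(A a + 1) / δ, fun Z Y hZ hY => ?_⟩
  have hZδ : A a + 1 ≤ δ * A Z := by
    rw [div_le_iff₀ hδ] at hZ
    linarith
  by_contra hcon
  push Not at hcon
  have hprod : ∏ η ∈ nthRootsFinset q (1 : F), (Y - η * Z) = a := by
    rw [← hζ.pow_sub_pow_eq_prod_sub_mul Y Z hq, hY]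
    ring
  have hlow : ∀ η ∈ nthRootsFinset q (1 : F), A a + 1 ≤ A (Y - η * Z) := by
    intro η hη
    rw [mem_nthRootsFinset hq] at hη
    have : NeZero q := ⟨hq.ne'⟩
    obtain ⟨i, hi, rfl⟩ := hζ.eq_pow_of_pow_eq_one hη
    exact hZδ.trans (hcon i hi).le
  have hcard : (nthRootsFinset q (1 : F)).card = q := hζ.card_nthRootsFinset
  have h1 : (A a + 1) ^ q ≤ A a := by
    calc (A a + 1) ^ q = ∏ _η ∈ nthRootsFinset q (1 : F), (A a + 1) := by
          rw [Finset.prod_const, hcard]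
      _ ≤ ∏ η ∈ nthRootsFinset q (1 : F), A (Y - η * Z) :=
          Finset.prod_le_prod (fun _ _ => by linarith) hlow
      _ = A a := by rw [← map_prod, hprod]
  have h2 : A a + 1 ≤ (A a + 1) ^ q := le_self_pow₀ (by linarith) hq.ne'
  linarith

/-- `i` is the index of a nearest root -/
def Nearest (A : AbsoluteValue F ℝ) (ζ : F) (q : ℕ) (Y Z : F) (i : ℕ) : Prop :=
  i < q ∧ ∀ j < q, A (Y - ζ ^ i * Z) ≤ A (Y - ζ ^ j * Z)

theorem exists_nearest (A : AbsoluteValue F ℝ) (ζ : F) {q : ℕ} (hq : 0 < q) (Y Z : F) :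
    ∃ i, Nearest A ζ q Y Z i := by
  obtain ⟨i, hi, h⟩ := Finset.exists_min_image (Finset.range q) (fun i => A (Y - ζ ^ i * Z))
    ⟨0, Finset.mem_range.2 hq⟩
  exact ⟨i, Finset.mem_range.1 hi, fun j hj => h j (Finset.mem_range.2 hj)⟩

theorem abs_zeta (A : AbsoluteValue F ℝ) {q : ℕ} (hq : 0 < q) {ζ : F} (hζ : IsPrimitiveRoot ζ q)
    (i : ℕ) : A (ζ ^ i) = 1 := by
  have h1 : A ζ ^ q = 1 := by rw [← map_pow, hζ.pow_eq_one, map_one]
  have h2 : A ζ = 1 := (pow_eq_one_iff_of_nonneg (A.nonneg _) hq.ne').1 h1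
  rw [map_pow, h2, one_pow]

/-- a product of two roots with the same pattern -/
theorem near_W [CharZero F] (A : AbsoluteValue F ℝ) {q e d : ℕ} (hq : 1 ≤ q) (he : 1 ≤ e)
    (hd : d ≠ 0) {ζ : F} (hζ : IsPrimitiveRoot ζ q) (c a : F) (x : ℕ → F)
    (hx : ∀ n, x (n + 1) = x n ^ d + c) (g : ℕ) {ε : ℝ} (hε : 0 < ε) :
    ∃ M : ℝ, ∀ (n : ℕ) (Y1 Y2 : F) (i : ℕ), M ≤ A (x n) → M ≤ A (x (n + g)) →
      Y1 ^ q = (x n ^ e) ^ q + a → Y2 ^ q = (x (n + g) ^ e) ^ q + a →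
      Nearest A ζ q Y1 (x n ^ e) i → Nearest A ζ q Y2 (x (n + g) ^ e) i →
      A (Y2 * Y1 ^ (q - 1) - x n ^ (e * (d ^ g + (q - 1)))) ≤ ε * A (x n) ^ (e * (d ^ g + (q - 1))) := by
  set δ : ℝ := min 1 (ε / 2 ^ (q + 1)) with hδ
  have hδ0 : 0 < δ := lt_min one_pos (by positivity)
  have hδ1 : δ ≤ 1 := min_le_left _ _
  have hδ2 : 2 ^ (q + 1) * δ ≤ ε := by
    have h1 : δ ≤ ε / 2 ^ (q + 1) := min_le_right _ _
    rw [le_div_iff₀ (by positivity)] at h1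
    linarith
  obtain ⟨M1, hM1⟩ := near_root A hq hζ a hδ0
  have hpd : (FP d c g ^ e).natDegree ≤ e * d ^ g := by
    rw [natDegree_pow, (FP_monic hd c g).2]
  obtain ⟨M2, hM2, h2⟩ := eval_asymp A (FP d c g ^ e) (e * d ^ g) hpd hδ0
  have hcoef : (FP d c g ^ e).coeff (e * d ^ g) = 1 := by
    have h3 : (FP d c g ^ e).Monic := (FP_monic hd c g).1.pow e
    have h4 : (FP d c g ^ e).natDegree = e * d ^ g := by
      rw [natDegree_pow, (FP_monic hd c g).2]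
    rw [← h4]
    exact h3.coeff_natDegree
  refine ⟨max (max M1 1) M2, fun n Y1 Y2 i hn hng hY1 hY2 hi1 hi2 => ?_⟩
  have hMb : ∀ t : ℝ, max (max M1 1) M2 ≤ t → M1 ≤ t ∧ 1 ≤ t ∧ M2 ≤ t := fun t ht =>
    ⟨((le_max_left _ _).trans (le_max_left _ _)).trans ht,
      ((le_max_right _ _).trans (le_max_left _ _)).trans ht, (le_max_right _ _).trans ht⟩
  obtain ⟨n1, n2, n3⟩ := hMb _ hn
  obtain ⟨g1, g2, g3⟩ := hMb _ hng
  have hpowge : ∀ y : F, 1 ≤ A y → A y ≤ A (y ^ e) := by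
    intro y hy
    rw [map_pow]
    exact le_self_pow₀ hy (by omega)
  have hne : ∀ y : F, 1 ≤ A y → y ≠ 0 := by
    rintro y h rfl
    rw [map_zero] at h
    linarith
  -- normalised quotients
  have key : ∀ Z Y : F, M1 ≤ A Z → Z ≠ 0 → Y ^ q = Z ^ q + a → Nearest A ζ q Y Z i →
      ∃ u : F, Y = ζ ^ i * Z * u ∧ A (u - 1) ≤ δ := by
    intro Z Y hZ hZ0 hY hi
    obtain ⟨j, hj, hle⟩ := hM1 Z Y hZ hY
    have h3 : A (Y - ζ ^ i * Z) ≤ δ * A Z := (hi.2 j hj).trans hle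
    have hζ0 : ζ ^ i ≠ 0 := pow_ne_zero _ (hζ.ne_zero (by omega))
    have hAz := abs_zeta A hq hζ i
    refine ⟨Y / (ζ ^ i * Z), by field_simp, ?_⟩
    have h4 : Y / (ζ ^ i * Z) - 1 = (Y - ζ ^ i * Z) / (ζ ^ i * Z) := by field_simp
    rw [h4, map_div₀, map_mul, hAz, one_mul, div_le_iff₀ (A.pos hZ0)]
    exact h3
  obtain ⟨u1, hu1, hu1'⟩ := key (x n ^ e) Y1 (n1.trans (hpowge _ n2)) (pow_ne_zero _ (hne _ n2))
    hY1 hi1
  obtain ⟨u2, hu2, hu2'⟩ := key (x (n + g) ^ e) Y2 (g1.trans (hpowge _ g2))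
    (pow_ne_zero _ (hne _ g2)) hY2 hi2
  obtain ⟨e', he', hev⟩ := h2 (x n) n3
  rw [hcoef, eval_pow, FP_eval c x hx] at hev
  set s : F := 1 + e' with hs
  have hs1 : A (s - 1) ≤ δ := by
    have h4 : s - 1 = e' := by rw [hs]; ring
    rw [h4]
    exact he'
  have hzq : ζ ^ i * (ζ ^ i) ^ (q - 1) = 1 := by
    rw [← pow_succ', Nat.sub_add_cancel hq, ← pow_mul, mul_comm, pow_mul, hζ.pow_eq_one, one_pow]
  have hW : Y2 * Y1 ^ (q - 1) = x n ^ (e * (d ^ g + (q - 1))) * (s * u2 * u1 ^ (q - 1)) := by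
    have hpw : x n ^ (e * (d ^ g + (q - 1))) = x n ^ (e * d ^ g) * (x n ^ e) ^ (q - 1) := by
      rw [Nat.mul_add, pow_add, pow_mul (x n) e (q - 1)]
    rw [hu2, hu1, hev, mul_pow, mul_pow, hpw]
    linear_combination (x n ^ (e * d ^ g) * s * u2 * (x n ^ e) ^ (q - 1) * u1 ^ (q - 1)) * hzq
  have hdiff : Y2 * Y1 ^ (q - 1) - x n ^ (e * (d ^ g + (q - 1)))
      = x n ^ (e * (d ^ g + (q - 1))) * (s * u2 * u1 ^ (q - 1) - 1) := by
    rw [hW]
    ring
  rw [hdiff, map_mul, map_pow, mul_comm ε]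
  refine mul_le_mul_of_nonneg_left ?_ (pow_nonneg (A.nonneg _) _)
  obtain ⟨v1, v2⟩ := near_pow A hδ0.le hδ1 hu1' (q - 1)
  obtain ⟨-, w2⟩ := near_pow A hδ0.le hδ1 hu2' 1
  obtain ⟨-, z2⟩ := near_pow A hδ0.le hδ1 hs1 1
  rw [pow_one, pow_one] at w2 z2
  have e1 : s * u2 * u1 ^ (q - 1) - 1
      = s * u2 * (u1 ^ (q - 1) - 1) + (s * (u2 - 1) + (s - 1)) := by ring
  rw [e1]
  have hone : (1 : ℝ) ≤ 2 ^ (q - 1) := one_le_pow₀ (by norm_num)
  have hb1 : A (s * u2 * (u1 ^ (q - 1) - 1)) ≤ 2 * 2 * ((2 ^ (q - 1) - 1) * δ) := by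
    rw [map_mul, map_mul]
    exact mul_le_mul (mul_le_mul z2 w2 (A.nonneg _) (by norm_num)) v1 (A.nonneg _) (by norm_num)
  have hb2 : A (s * (u2 - 1)) ≤ 2 * δ := by
    rw [map_mul]
    exact mul_le_mul z2 hu2' (A.nonneg _) (by norm_num)
  have hb3 : A (s * (u2 - 1) + (s - 1)) ≤ 2 * δ + δ := (A.add_le _ _).trans (add_le_add hb2 hs1)
  have h2q : (2 : ℝ) ^ (q + 1) = 4 * 2 ^ (q - 1) := by
    have : q + 1 = (q - 1) + 2 := by omega
    rw [this, pow_add]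
    ring
  rw [h2q] at hδ2
  refine ((A.add_le _ _).trans (add_le_add hb1 hb3)).trans ?_
  nlinarith

end place

universe u

/-- one gap: infinitely many pairs `(n, n + g)` with the same pattern are impossible -/
theorem gap_finite {L : Type u} [Field L] [NumberField L] {d q : ℕ} (hd : d ≠ 0) (hq : q.Prime)
    (hqd : q ∣ d) {ζ : L} (hζ : IsPrimitiveRoot ζ q) (c a : L) (x : ℕ → L)
    (hx : ∀ n, x (n + 1) = x n ^ d + c) (hinj : Function.Injective x) (ha : a ≠ 0)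
    (hc : d = 2 → c ≠ 0 ∧ c ≠ -2) {g : ℕ} (hg : 1 ≤ g)
    (S0 : Finset (HeightOneSpectrum (𝓞 L)))
    (hS0 : ∀ w ∉ S0, w.valuation L c ≤ 1 ∧ w.valuation L (x 0) ≤ 1) :
    {n : ℕ | ∃ Y1 Y2 : L, Y1 ^ q = x n ^ d + a ∧ Y2 ^ q = x (n + g) ^ d + a ∧
      ∀ v : {w // w ∈ S0} ⊕ (L →+* ℂ), ∃ i,
        Nearest (pabv (v.map (fun w => w.1) id)) ζ q Y1 (x n ^ (d / q)) i ∧
        Nearest (pabv (v.map (fun w => w.1) id)) ζ q Y2 (x (n + g) ^ (d / q)) i}.Finite := by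
  classical
  by_contra hinf
  change Set.Infinite _ at hinf
  obtain ⟨e, he⟩ := hqd
  have he1 : 1 ≤ e := by
    rcases Nat.eq_zero_or_pos e with h | h
    · rw [h, mul_zero] at he
      exact absurd he hd
    · exact h
  have hdiv : d / q = e := by
    rw [he]
    exact Nat.mul_div_cancel_left e hq.pos
  rw [hdiv] at hinf
  have hq2 := hq.two_le
  have hd2 : 2 ≤ d := by
    rw [he]
    calc 2 ≤ q := hq2
      _ = q * 1 := (mul_one q).symm
      _ ≤ q * e := Nat.mul_le_mul_left q he1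
  set I : Set ℕ := {n : ℕ | ∃ Y1 Y2 : L, Y1 ^ q = x n ^ d + a ∧ Y2 ^ q = x (n + g) ^ d + a ∧
      ∀ v : {w // w ∈ S0} ⊕ (L →+* ℂ), ∃ i,
        Nearest (pabv (v.map (fun w => w.1) id)) ζ q Y1 (x n ^ e) i ∧
        Nearest (pabv (v.map (fun w => w.1) id)) ζ q Y2 (x (n + g) ^ e) i} with hI
  have hch : ∀ n : ℕ, ∃ Y1 Y2 : L, n ∈ I → Y1 ^ q = x n ^ d + a ∧ Y2 ^ q = x (n + g) ^ d + a ∧
      ∀ v : {w // w ∈ S0} ⊕ (L →+* ℂ), ∃ i,
        Nearest (pabv (v.map (fun w => w.1) id)) ζ q Y1 (x n ^ e) i ∧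
        Nearest (pabv (v.map (fun w => w.1) id)) ζ q Y2 (x (n + g) ^ e) i := by
    intro n
    by_cases hn : n ∈ I
    · obtain ⟨Y1, Y2, h⟩ := hn
      exact ⟨Y1, Y2, fun _ => h⟩
    · exact ⟨0, 0, fun h => absurd h hn⟩
  choose Y1 Y2 hY using hch
  have hpe : ∀ y : L, y ^ d = (y ^ e) ^ q := by
    intro y
    rw [← pow_mul, mul_comm e q, ← he]
  set D : ℕ := e * (d ^ g + (q - 1)) with hD
  obtain ⟨hFm, hFd⟩ := FP_monic hd c g
  obtain ⟨hP1m, hP1d⟩ := sum_monic (G := (X : L[X])) hd monic_X natDegree_X le_rfl a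
  obtain ⟨hP2m, hP2d⟩ := sum_monic hd hFm hFd (Nat.one_le_iff_ne_zero.2 (pow_ne_zero _ hd)) a
  set H : L[X] := (FP d c g ^ d + C a) * (X ^ d + C a) ^ (q - 1) with hH
  have hHm : H.Monic := hP2m.mul (hP1m.pow _)
  have hHd : H.natDegree = q * D := by
    rw [hH, hP2m.natDegree_mul (hP1m.pow _), hP2d, hP1m.natDegree_pow, hP1d, hD, mul_one]
    rw [he]
    ring
  have hHe : ∀ n, H.eval (x n) = (x (n + g) ^ d + a) * (x n ^ d + a) ^ (q - 1) := by
    intro n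
    rw [hH]
    simp only [eval_mul, eval_add, eval_pow, eval_C, eval_X, FP_eval c x hx]
  obtain ⟨S, hS⟩ := rungeQ hd2 c x hx hinj hq2 H hHm hHd I hinf (fun n => Y2 n * Y1 n ^ (q - 1))
    (fun n hn => by
      obtain ⟨h1, h2, -⟩ := hY n hn
      rw [hHe, mul_pow, h2, ← pow_mul, mul_comm (q - 1) q, pow_mul, h1])
    (fun i hi ε hε => by
      -- the place is in the finite list
      have hplace : ∃ v : {w // w ∈ S0} ⊕ (L →+* ℂ), v.map (fun w => w.1) id = i := by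
        rcases i with w | σ
        · by_cases hw : w ∈ S0
          · exact ⟨Sum.inl ⟨w, hw⟩, rfl⟩
          · exfalso
            obtain ⟨h1, h2⟩ := hS0 w hw
            obtain ⟨n, hn⟩ := (hi.eventually_ge_atTop 2).exists
            have h3 := pabv_inl_le_one_of (orbit_int c x hx w h2 h1 n)
            linarith
        · exact ⟨Sum.inr σ, rfl⟩
      obtain ⟨v, hv⟩ := hplace
      obtain ⟨M, hM⟩ := near_W (pabv i) hq.one_le he1 hd hζ c a x hx g hε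
      obtain ⟨n0, hn0⟩ := eventually_atTop.1 (hi.eventually_ge_atTop M)
      refine ⟨n0, fun n hn hle => ?_⟩
      obtain ⟨h1, h2, h3⟩ := hY n hn
      obtain ⟨j, hj1, hj2⟩ := h3 v
      rw [hv] at hj1 hj2
      refine hM n (Y1 n) (Y2 n) j (hn0 n hle) (hn0 _ (by omega)) ?_ ?_ hj1 hj2
      · rw [h1, hpe]
      · rw [h2, hpe])
  exact no_power hq ⟨e, he⟩ hd ha hc hg S hS

end Pool.Agent.ORB.URoot

namespace Pool.Agent.ORB.UQ

open URoot

universe u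

/-- **Row U4**: arbitrarily long windows of the orbit of `x0`, arbitrarily far out, in which no
`f^i(x0) - t`, `t ∈ F`, is a `q`-th power. -/
theorem windowD {L : Type u} [Field L] [NumberField L] {d q : ℕ} (hd : d ≠ 0) (hq : q.Prime)
    (hqd : q ∣ d) {ζ : L} (hζ : IsPrimitiveRoot ζ q) (c x0 : L)
    (hw : Function.Injective fun n : ℕ => (uf d c)^[n] x0) (F : Finset L) (hF : ∀ t ∈ F, t ≠ c)
    (hc : d = 2 → c ≠ 0 ∧ c ≠ -2) (m N0 : ℕ) :
    ∃ k, N0 ≤ k ∧ ∀ i, k ≤ i → i < k + m → ∀ t ∈ F, ∀ y : L, y ^ q ≠ (uf d c)^[i] x0 - t := by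
  classical
  set x : ℕ → L := fun n => (uf d c)^[n] x0 with hxdef
  have hx : ∀ n, x (n + 1) = x n ^ d + c := fun n => Function.iterate_succ_apply' _ _ _
  set S0 : Finset (HeightOneSpectrum (𝓞 L)) :=
    (HeightOneSpectrum.Support.finite (𝓞 L) c).toFinset ∪
    (HeightOneSpectrum.Support.finite (𝓞 L) (x 0)).toFinset with hS0def
  have hS0 : ∀ w ∉ S0, w.valuation L c ≤ 1 ∧ w.valuation L (x 0) ≤ 1 := by
    intro w hw
    rw [hS0def, Finset.mem_union, Set.Finite.mem_toFinset, Set.Finite.mem_toFinset] at hw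
    push Not at hw
    refine ⟨?_, ?_⟩
    · by_contra h
      exact hw.1 (not_le.1 h)
    · by_contra h
      exact hw.2 (not_le.1 h)
  let P := {w // w ∈ S0} ⊕ (L →+* ℂ)
  set R : ℕ := Fintype.card (F × (P → Fin q)) with hR
  by_contra hcon
  push Not at hcon
  -- the good pairs
  set E : ℕ → L → Set ℕ := fun g t => {n : ℕ | ∃ Y1 Y2 : L, Y1 ^ q = x n ^ d + (c - t) ∧
      Y2 ^ q = x (n + g) ^ d + (c - t) ∧
      ∀ v : {w // w ∈ S0} ⊕ (L →+* ℂ), ∃ i,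
        Nearest (pabv (v.map (fun w => w.1) id)) ζ q Y1 (x n ^ (d / q)) i ∧
        Nearest (pabv (v.map (fun w => w.1) id)) ζ q Y2 (x (n + g) ^ (d / q)) i} with hE
  have hfin : (⋃ g ∈ Finset.Icc 1 ((R + 1) * m), ⋃ t ∈ F, E g t).Finite := by
    refine Set.Finite.biUnion (Finset.finite_toSet _) fun g hg => ?_
    refine Set.Finite.biUnion (Finset.finite_toSet _) fun t ht => ?_
    have hg1 : 1 ≤ g := (Finset.mem_Icc.1 (Finset.mem_coe.1 hg)).1
    have ht' : c - t ≠ 0 := sub_ne_zero.2 (hF t (Finset.mem_coe.1 ht)).symm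
    exact gap_finite hd hq hqd hζ c (c - t) x hx hw ht' hc hg1 S0 hS0
  refine absurd hfin ?_
  change Set.Infinite _
  refine Set.infinite_of_forall_exists_gt fun N1 => ?_
  set n0 : ℕ := max N0 (N1 + 2) with hn0
  -- one bad index in every block
  have hblock : ∀ j : Fin (R + 1), ∃ (i : ℕ) (t : F) (y : L), n0 + j * m ≤ i ∧
      i < n0 + j * m + m ∧ y ^ q = x i - t := by
    intro j
    obtain ⟨i, hi1, hi2, t, ht, y, hy⟩ := hcon (n0 + j * m)
      ((le_max_left _ _).trans (Nat.le_add_right _ _))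
    exact ⟨i, ⟨t, ht⟩, y, hi1, hi2, hy⟩
  choose ix tx yx hix1 hix2 hyx using hblock
  have hpos : 0 < q := hq.pos
  have hpat : ∀ (j : Fin (R + 1)) (v : P), ∃ i : Fin q,
      Nearest (pabv (v.map (fun w => w.1) id)) ζ q (yx j) (x (ix j - 1) ^ (d / q)) i := by
    intro j v
    obtain ⟨i, hi⟩ := exists_nearest (pabv (v.map (fun w => w.1) id)) ζ hpos (yx j)
      (x (ix j - 1) ^ (d / q))
    exact ⟨⟨i, hi.1⟩, hi⟩
  choose pat hpat using hpat
  obtain ⟨j, j', hjj, heq⟩ := Fintype.exists_ne_map_eq_of_card_lt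
    (fun j : Fin (R + 1) => ((tx j, pat j) : F × (P → Fin q))) (by
      rw [Fintype.card_fin]
      exact Nat.lt_succ_self _)
  have main : ∀ j j' : Fin (R + 1), j < j' → tx j = tx j' → pat j = pat j' →
      ∃ n ∈ (⋃ g ∈ Finset.Icc 1 ((R + 1) * m), ⋃ t ∈ F, E g t), N1 < n := by
    intro j j' hlt ht hp
    have hlt' : j.1 + 1 ≤ j'.1 := hlt
    have h1 : j.1 * m + m ≤ j'.1 * m := by
      calc j.1 * m + m = (j.1 + 1) * m := by ring
        _ ≤ j'.1 * m := Nat.mul_le_mul_right m hlt'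
    have h2 : j'.1 * m + m ≤ (R + 1) * m := by
      calc j'.1 * m + m = (j'.1 + 1) * m := by ring
        _ ≤ (R + 1) * m := Nat.mul_le_mul_right m (by have := j'.2; omega)
    have a1 := hix1 j
    have a2 := hix2 j
    have b1 := hix1 j'
    have b2 := hix2 j'
    have hn0' : N1 + 2 ≤ n0 := le_max_right _ _
    obtain ⟨n, hn⟩ : ∃ n, ix j = n + 1 := ⟨ix j - 1, by omega⟩
    obtain ⟨g, hg⟩ : ∃ g, ix j' = n + g + 1 := ⟨ix j' - n - 1, by omega⟩
    have hgpos : 1 ≤ g := by omega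
    have hgle : g ≤ (R + 1) * m := by omega
    refine ⟨n, ?_, by omega⟩
    refine Set.mem_biUnion (Finset.mem_coe.2 (Finset.mem_Icc.2 ⟨hgpos, hgle⟩)) ?_
    refine Set.mem_biUnion (Finset.mem_coe.2 (tx j).2) ?_
    refine ⟨yx j, yx j', ?_, ?_, fun v => ⟨pat j v, ?_, ?_⟩⟩
    · rw [hyx j, hn, hx]
      ring
    · rw [hyx j', hg, hx, ← ht]
      ring
    · have h3 := hpat j v
      rw [hn, Nat.add_sub_cancel] at h3
      exact h3
    · have h3 := hpat j' v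
      rw [hg, Nat.add_sub_cancel, ← hp] at h3
      exact h3
  have e1 : tx j = tx j' := (Prod.ext_iff.1 heq).1
  have e2 : pat j = pat j' := (Prod.ext_iff.1 heq).2
  rcases lt_or_gt_of_ne hjj with h | h
  · exact main j j' h e1 e2
  · exact main j' j h e1.symm e2.symm

/-- **Row U4 for composite degrees**: the window is good for all primes `q ∣ d` at once. -/
theorem windowAll {L : Type u} [Field L] [NumberField L] {d : ℕ} (hd : d ≠ 0)
    (hζ : ∀ q, q.Prime → q ∣ d → ∃ ζ : L, IsPrimitiveRoot ζ q) (c x0 : L)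
    (hw : Function.Injective fun n : ℕ => (uf d c)^[n] x0) (F : Finset L) (hF : ∀ t ∈ F, t ≠ c)
    (hc : d = 2 → c ≠ 0 ∧ c ≠ -2) (m N0 : ℕ) :
    ∃ k, N0 ≤ k ∧ ∀ i, k ≤ i → i < k + m → ∀ q : ℕ, q.Prime → q ∣ d → ∀ t ∈ F, ∀ y : L,
      y ^ q ≠ (uf d c)^[i] x0 - t := by
  classical
  set x : ℕ → L := fun n => (uf d c)^[n] x0 with hxdef
  have hx : ∀ n, x (n + 1) = x n ^ d + c := fun n => Function.iterate_succ_apply' _ _ _
  set S0 : Finset (HeightOneSpectrum (𝓞 L)) :=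
    (HeightOneSpectrum.Support.finite (𝓞 L) c).toFinset ∪
    (HeightOneSpectrum.Support.finite (𝓞 L) (x 0)).toFinset with hS0def
  have hS0 : ∀ w ∉ S0, w.valuation L c ≤ 1 ∧ w.valuation L (x 0) ≤ 1 := by
    intro w hw
    rw [hS0def, Finset.mem_union, Set.Finite.mem_toFinset, Set.Finite.mem_toFinset] at hw
    push Not at hw
    refine ⟨?_, ?_⟩
    · by_contra h
      exact hw.1 (not_le.1 h)
    · by_contra h
      exact hw.2 (not_le.1 h)
  let P := {w // w ∈ S0} ⊕ (L →+* ℂ)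
  let Q := {q // q ∈ d.primeFactors}
  have hQ : ∀ q : Q, q.1.Prime ∧ q.1 ∣ d := fun q => ⟨Nat.prime_of_mem_primeFactors q.2,
    Nat.dvd_of_mem_primeFactors q.2⟩
  choose zt hzt using fun q : Q => hζ q.1 (hQ q).1 (hQ q).2
  set R : ℕ := Fintype.card (Q × F × (P → Fin d)) with hR
  by_contra hcon
  push Not at hcon
  -- the good pairs
  set E : ℕ → Q → L → Set ℕ := fun g q t => {n : ℕ | ∃ Y1 Y2 : L, Y1 ^ q.1 = x n ^ d + (c - t) ∧
      Y2 ^ q.1 = x (n + g) ^ d + (c - t) ∧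
      ∀ v : {w // w ∈ S0} ⊕ (L →+* ℂ), ∃ i,
        Nearest (pabv (v.map (fun w => w.1) id)) (zt q) q.1 Y1 (x n ^ (d / q.1)) i ∧
        Nearest (pabv (v.map (fun w => w.1) id)) (zt q) q.1 Y2 (x (n + g) ^ (d / q.1)) i} with hE
  have hfin : (⋃ g ∈ Finset.Icc 1 ((R + 1) * m), ⋃ q : Q, ⋃ t ∈ F, E g q t).Finite := by
    refine Set.Finite.biUnion (Finset.finite_toSet _) fun g hg => ?_
    refine Set.finite_iUnion fun q => ?_
    refine Set.Finite.biUnion (Finset.finite_toSet _) fun t ht => ?_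
    have hg1 : 1 ≤ g := (Finset.mem_Icc.1 (Finset.mem_coe.1 hg)).1
    have ht' : c - t ≠ 0 := sub_ne_zero.2 (hF t (Finset.mem_coe.1 ht)).symm
    exact gap_finite hd (hQ q).1 (hQ q).2 (hzt q) c (c - t) x hx hw ht' hc hg1 S0 hS0
  refine absurd hfin ?_
  change Set.Infinite _
  refine Set.infinite_of_forall_exists_gt fun N1 => ?_
  set n0 : ℕ := max N0 (N1 + 2) with hn0
  -- one bad index in every block
  have hblock : ∀ j : Fin (R + 1), ∃ (i : ℕ) (q : Q) (t : F) (y : L), n0 + j * m ≤ i ∧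
      i < n0 + j * m + m ∧ y ^ q.1 = x i - t := by
    intro j
    obtain ⟨i, hi1, hi2, q, hq, hqd, t, ht, y, hy⟩ := hcon (n0 + j * m)
      ((le_max_left _ _).trans (Nat.le_add_right _ _))
    exact ⟨i, ⟨q, Nat.mem_primeFactors.2 ⟨hq, hqd, hd⟩⟩, ⟨t, ht⟩, y, hi1, hi2, hy⟩
  choose ix qx tx yx hix1 hix2 hyx using hblock
  have hpat : ∀ (j : Fin (R + 1)) (v : P), ∃ i : Fin d,
      Nearest (pabv (v.map (fun w => w.1) id)) (zt (qx j)) (qx j).1 (yx j)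
        (x (ix j - 1) ^ (d / (qx j).1)) i := by
    intro j v
    obtain ⟨i, hi⟩ := exists_nearest (pabv (v.map (fun w => w.1) id)) (zt (qx j))
      (hQ (qx j)).1.pos (yx j) (x (ix j - 1) ^ (d / (qx j).1))
    exact ⟨⟨i, hi.1.trans_le (Nat.le_of_dvd (Nat.pos_of_ne_zero hd) (hQ (qx j)).2)⟩, hi⟩
  choose pat hpat using hpat
  obtain ⟨j, j', hjj, heq⟩ := Fintype.exists_ne_map_eq_of_card_lt
    (fun j : Fin (R + 1) => ((qx j, tx j, pat j) : Q × F × (P → Fin d))) (by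
      rw [Fintype.card_fin]
      exact Nat.lt_succ_self _)
  have main : ∀ j j' : Fin (R + 1), j < j' → qx j = qx j' → tx j = tx j' → pat j = pat j' →
      ∃ n ∈ (⋃ g ∈ Finset.Icc 1 ((R + 1) * m), ⋃ q : Q, ⋃ t ∈ F, E g q t), N1 < n := by
    intro j j' hlt hqq ht hp
    have hlt' : j.1 + 1 ≤ j'.1 := hlt
    have h1 : j.1 * m + m ≤ j'.1 * m := by
      calc j.1 * m + m = (j.1 + 1) * m := by ring
        _ ≤ j'.1 * m := Nat.mul_le_mul_right m hlt'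
    have h2 : j'.1 * m + m ≤ (R + 1) * m := by
      calc j'.1 * m + m = (j'.1 + 1) * m := by ring
        _ ≤ (R + 1) * m := Nat.mul_le_mul_right m (by have := j'.2; omega)
    have a1 := hix1 j
    have a2 := hix2 j
    have b1 := hix1 j'
    have b2 := hix2 j'
    have hn0' : N1 + 2 ≤ n0 := le_max_right _ _
    obtain ⟨n, hn⟩ : ∃ n, ix j = n + 1 := ⟨ix j - 1, by omega⟩
    obtain ⟨g, hg⟩ : ∃ g, ix j' = n + g + 1 := ⟨ix j' - n - 1, by omega⟩
    have hgpos : 1 ≤ g := by omega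
    have hgle : g ≤ (R + 1) * m := by omega
    refine ⟨n, ?_, by omega⟩
    refine Set.mem_biUnion (Finset.mem_coe.2 (Finset.mem_Icc.2 ⟨hgpos, hgle⟩)) ?_
    refine Set.mem_iUnion.2 ⟨qx j, ?_⟩
    refine Set.mem_biUnion (Finset.mem_coe.2 (tx j).2) ?_
    have h3 := hpat j
    have h4 := hpat j'
    rw [hn, Nat.add_sub_cancel] at h3
    rw [hg, Nat.add_sub_cancel, ← hp, ← hqq] at h4
    refine ⟨yx j, yx j', ?_, ?_, fun v => ⟨pat j v, h3 v, h4 v⟩⟩
    · rw [hyx j, hn, hx]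
      ring
    · rw [hqq, hyx j', hg, hx, ← ht]
      ring
  have e0 : qx j = qx j' := (Prod.ext_iff.1 heq).1
  have e1 : tx j = tx j' := (Prod.ext_iff.1 (Prod.ext_iff.1 heq).2).1
  have e2 : pat j = pat j' := (Prod.ext_iff.1 (Prod.ext_iff.1 heq).2).2
  rcases lt_or_gt_of_ne hjj with h | h
  · exact main j j' h e0 e1 e2
  · exact main j' j h e0.symm e1.symm e2.symm

/-- the same with a primitive `d`-th root of unity -/
theorem windowAll' {L : Type u} [Field L] [NumberField L] {d : ℕ} (hd : d ≠ 0) {ζ : L}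
    (hζ : IsPrimitiveRoot ζ d) (c x0 : L)
    (hw : Function.Injective fun n : ℕ => (uf d c)^[n] x0) (F : Finset L) (hF : ∀ t ∈ F, t ≠ c)
    (hc : d = 2 → c ≠ 0 ∧ c ≠ -2) (m N0 : ℕ) :
    ∃ k, N0 ≤ k ∧ ∀ i, k ≤ i → i < k + m → ∀ q : ℕ, q.Prime → q ∣ d → ∀ t ∈ F, ∀ y : L,
      y ^ q ≠ (uf d c)^[i] x0 - t := by
  refine windowAll hd (fun q _ hqd => ?_) c x0 hw F hF hc m N0
  obtain ⟨e, he⟩ := hqd
  exact ⟨ζ ^ e, hζ.pow (Nat.pos_of_ne_zero hd) (by rw [he, mul_comm])⟩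

end Pool.Agent.ORB.UQ
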