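import Pool.Agent.ORB.UTransfer
import Pool.Agent.ORB.UBranch
import Pool.Agent.ORB.UWindow
import Pool.Agent.ORB.UNode

/-!
ORB, Theorem V for `x ^ d + c`: the engine for every degree `d`, from uniform flips.
-/

set_option autoImplicit false

namespace Pool.Agent.ORB.UQ

open NumberField Polynomial

universe u

/-- if `0` is wandering, then `c` is not `0` and not `-2` -/
theorem ne_of_wander {K : Type*} [Field K] {d : ℕ} (hd : d ≠ 0) {c : K}
    (h0 : Function.Injective fun n : ℕ => (uf d c)^[n] 0) : c ≠ 0 ∧ (d = 2 → c ≠ -2) := by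
  constructor
  · rintro rfl
    have h1 : (uf d (0 : K))^[1] 0 = (uf d (0 : K))^[0] 0 := by simp [uf, hd]
    exact absurd (h0 h1) one_ne_zero
  · rintro rfl rfl
    have h1 : (uf 2 (-2 : K))^[3] 0 = (uf 2 (-2 : K))^[2] 0 := by
      simp only [Function.iterate_succ, Function.iterate_zero, Function.comp, id, uf]
      ring
    exact absurd (h0 h1) (by norm_num)

/-- U3 for every degree -/
theorem branchesAll {K W : Type u} [Field K] [NumberField K] [Field W] [Algebra K W]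
    [IsAlgClosed W] [Algebra.IsAlgebraic K W] {d : ℕ} (hd : 2 ≤ d) {ζ c b : K}
    (hζ : IsPrimitiveRoot ζ d)
    (h0 : Function.Injective fun n : ℕ => (uf d c)^[n] 0)
    (hw : Function.Injective fun n : ℕ => (uf d c)^[n] b)
    {T : Set W} (hT : T.Finite) (s₁ : W ≃ₐ[K] W) (m N0 : ℕ) :
    ∃ k, N0 ≤ k ∧ ∃ s : W ≃ₐ[K] W, (∀ t ∈ T, s t = s₁ t) ∧
      m + 1 ≤ (Fix d W c ((uf d c)^[k] b) m s).ncard := by
  refine branches_of_windowD hd hζ h0 hw hT s₁ m N0 ?_
  intro L _ _ ζ' c' x0 hζ' h0' hw' F hF m' N0'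
  have h1 := ne_of_wander (by omega : d ≠ 0) h0'
  exact windowAll' (by omega) hζ' c' x0 hw' F hF (fun h => ⟨h1.1, h1.2 h⟩) m' N0'

/-- **The engine for every degree**: uniform flips at all high levels, `0` and `b` wandering -/
theorem engineD {K W : Type u} [Field K] [NumberField K] [Field W] [Algebra K W]
    [IsAlgClosed W] [Algebra.IsAlgebraic K W] {d : ℕ} (hd : 2 ≤ d) {ζ c b : K}
    (hζ : IsPrimitiveRoot ζ d) (h0 : Function.Injective fun n : ℕ => (uf d c)^[n] 0)
    (hw : Function.Injective fun n : ℕ => (uf d c)^[n] b)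
    (hb : ∀ n, 1 ≤ n → (uf d c)^[n] 0 ≠ b)
    (hF : ∃ l0, ∀ l, l0 ≤ l → FlipAt d ζ W c b l) : ExtP d W c b := by
  by_contra hno
  obtain ⟨T, s₁, m, l1, hTf, h1⟩ := minCoset hd hζ hb hF hno
  obtain ⟨N0, hN0⟩ : ∃ N0, ∀ k, N0 ≤ k → ∀ i, 1 ≤ i → i ≤ m → (uf d c)^[i] 0 ≠ (uf d c)^[k] b := by
    have hfin : {k : ℕ | ∃ i ∈ Finset.Icc 1 m, (uf d c)^[i] 0 = (uf d c)^[k] b}.Finite := by
      have h2 : {k : ℕ | ∃ i ∈ Finset.Icc 1 m, (uf d c)^[i] 0 = (uf d c)^[k] b} ⊆
          (fun n : ℕ => (uf d c)^[n] b) ⁻¹' ((fun i : ℕ => (uf d c)^[i] 0) '' (Finset.Icc 1 m : Set ℕ)) := by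
        rintro k ⟨i, hi, h⟩
        exact ⟨i, Finset.mem_coe.2 hi, h⟩
      exact Set.Finite.subset (Set.Finite.preimage hw.injOn
        ((Finset.finite_toSet _).image _)) h2
    obtain ⟨M, hM⟩ := hfin.bddAbove
    refine ⟨M + 1, fun k hk i hi1 hi2 h => ?_⟩
    have := hM ⟨i, Finset.mem_Icc.2 ⟨hi1, hi2⟩, h⟩
    omega
  obtain ⟨k, hk, s, hs, hcard⟩ := branchesAll hd hζ h0 hw hTf s₁ m N0
  have h3 := transfer (by omega : d ≠ 0) hTf
    (fun s hs => ⟨(h1 s hs).1, fun l hl => ((h1 s hs).2 l hl).le⟩) m k (hN0 k hk) s hs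
  omega

/-- from flips over the fields of the nodes of one high level to the extension property -/
theorem ExtP_of_flips {K W : Type u} [Field K] [NumberField K] [Field W] [Algebra K W]
    [IsAlgClosed W] [Algebra.IsAlgebraic K W] {d : ℕ} (hd : 2 ≤ d) {ζ c b : K}
    (hζ : IsPrimitiveRoot ζ d) (h0 : Function.Injective fun n : ℕ => (uf d c)^[n] 0)
    (hw : Function.Injective fun n : ℕ => (uf d c)^[n] b) (k : ℕ)
    (hr : ∀ r ∈ Lev d W c b k, ∀ n, 1 ≤ n → algebraMap K W ((uf d c)^[n] 0) ≠ r)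
    (hF : ∀ r ∈ Lev d W c b k, ∃ l0, ∀ l, l0 ≤ l →
      FlipAt d (algebraMap K (IntermediateField.adjoin K {r}) ζ) W
        (algebraMap K (IntermediateField.adjoin K {r}) c)
        (IntermediateField.AdjoinSimple.gen K r) l) : ExtP d W c b := by
  refine descent (by omega) k fun r hrk => ?_
  have hnf : NumberField (IntermediateField.adjoin K {r}) := numberField_adjoin r
  have halg : Algebra.IsAlgebraic (IntermediateField.adjoin K {r}) W :=
    Algebra.IsAlgebraic.tower_top (K := K) (IntermediateField.adjoin K {r})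
  obtain ⟨h1, h2⟩ := node_zero h0 (hr r hrk)
  exact engineD hd (hζ.map_of_injective (algebraMap K (IntermediateField.adjoin K {r})).injective)
    h1 (node_wander hw hrk) h2 (hF r hrk)

end Pool.Agent.ORB.UQ
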