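import Pool.Agent.ORB.UTame
import Pool.Agent.ORB.UEng
import Pool.Agent.ORB.UPreU

/-!
ORB, Theorem V for unicritical maps: the extension property at tame places, for every degree `d`.
-/

set_option autoImplicit false

namespace Pool.Agent.ORB.UQ

open NumberField IsDedekindDomain IntermediateField

universe u

/-- over the field of a point of a high level: flips -/
theorem flips_node {K W : Type u} [Field K] [NumberField K] [Field W] [Algebra K W]
    [IsAlgClosed W] [Algebra.IsAlgebraic K W] {d : ℕ} (hd : 2 ≤ d) {ζ c b : K} (hζ : ζ ^ d = 1)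
    (v : HeightOneSpectrum (𝓞 K)) (hvd : v.valuation K (d : K) = 1)
    (hc : v.valuation K c < 1) (hb : v.valuation K b < 1)
    (hper : ∀ k, 1 ≤ k → (uf d c)^[k] b ≠ b) :
    ∃ B : ℕ, ∀ k, B ≤ k → ∀ r ∈ Lev d W c b k, ∃ l0, ∀ l, l0 ≤ l →
      FlipAt d (algebraMap K K⟮r⟯ ζ) W (algebraMap K K⟮r⟯ c) (AdjoinSimple.gen K r) l := by
  obtain ⟨B, hB⟩ := small_level hd v c b hc hb hper
  refine ⟨B, fun k hk r hr => ?_⟩
  have hnf : NumberField K⟮r⟯ := numberField_adjoin r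
  have halg : Algebra.IsAlgebraic K⟮r⟯ W := Algebra.IsAlgebraic.tower_top (K := K) K⟮r⟯
  obtain ⟨⟨Q, hQ1, hQ2⟩⟩ := v.asIdeal.nonempty_primesOver (S := 𝓞 K⟮r⟯)
  have hQ0 : Q ≠ ⊥ := Ideal.ne_bot_of_mem_primesOver v.ne_bot ⟨hQ1, hQ2⟩
  let P : HeightOneSpectrum (𝓞 K⟮r⟯) := ⟨Q, hQ1, hQ0⟩
  have hlo : P.asIdeal.LiesOver v.asIdeal := hQ2
  have h1 : (uf d (algebraMap K K⟮r⟯ c))^[k] (AdjoinSimple.gen K r) = algebraMap K K⟮r⟯ b := by
    apply (algebraMap K⟮r⟯ W).injective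
    rw [uf_map, AdjoinSimple.algebraMap_gen, ← IsScalarTower.algebraMap_apply,
      ← IsScalarTower.algebraMap_apply]
    exact hr
  obtain ⟨h2, h3⟩ := hB K⟮r⟯ P hlo (AdjoinSimple.gen K r) k hk h1
  refine flips_tame hd (by rw [← map_pow, hζ, map_one]) P ?_ ?_ h2 h3.ne
  · have := (val_eq_iff v P (d : K)).2 hvd
    rwa [map_natCast] at this
  · exact (val_le_iff v P c).2 hc.le

/-- **The extension property at a tame place**, every degree. -/
theorem extP_tame {K W : Type u} [Field K] [NumberField K] [Field W] [Algebra K W]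
    [IsAlgClosed W] [Algebra.IsAlgebraic K W] {d : ℕ} (hd : 2 ≤ d) {ζ c b : K}
    (hζ : IsPrimitiveRoot ζ d) (h0 : Function.Injective fun n : ℕ => (uf d c)^[n] 0)
    (hper : b ∉ Function.periodicPts (uf d c)) (v : HeightOneSpectrum (𝓞 K))
    (hvd : v.valuation K (d : K) = 1)
    (hv : (v.valuation K c ≤ 1 ∧ 1 < v.valuation K b) ∨
      (v.valuation K c < 1 ∧ v.valuation K b < 1)) : ExtP d W c b := by
  have hd0 : d ≠ 0 := by omega
  by_cases hw : Function.Injective fun n : ℕ => (uf d c)^[n] b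
  swap
  · exact extP_preper hd0 hw hper
  rcases hv with ⟨hc, hb⟩ | ⟨hc, hb⟩
  · refine engineD hd hζ h0 hw (fun n _ h => ?_)
      (flips_tame hd hζ.pow_eq_one v hvd hc (lt_of_le_of_lt hc hb) hb.ne')
    have h1 := uf_int v (p := d) hc (x := 0) (by rw [map_zero]; exact zero_le) n
    rw [h] at h1
    exact absurd hb (not_lt.2 h1)
  · have hper' : ∀ k, 1 ≤ k → (uf d c)^[k] b ≠ b := fun k hk h => hper ⟨k, hk, h⟩
    obtain ⟨B, hB⟩ := flips_node (W := W) hd hζ.pow_eq_one v hvd hc hb hper'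
    obtain ⟨k₀, hk₀⟩ := orbit_avoid (W := W) (b := b) h0
    exact ExtP_of_flips hd hζ h0 hw (max B k₀) (hk₀ _ (le_max_right _ _))
      (hB _ (le_max_left _ _))

end Pool.Agent.ORB.UQ
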