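import Pool.Agent.ORB.UCond
import Pool.Agent.ORB.UPlace
import Pool.Agent.ORB.UPlaceD

/-!
ORB, Theorem V for unicritical maps: final theorem.
-/

namespace Pool.Agent.ORB

open NumberField IsDedekindDomain Polynomial

universe u

/-- the condition on `x ^ d + c` and the target `b`: the orbit of `0` is infinite; and `d` is a prime and there is a
prime of the field which lies over `d` and at which `c` is integral, or at which `c` is integral and `b` is not, or
which divides `c` and `b`; or `d` is arbitrary and there is a prime not dividing `d` with one of the last two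
properties -/
def UniCond (L : Type u) [Field L] [NumberField L] (d : ℕ) (c b : L) : Prop :=
  CritWand d c ∧ ((d.Prime ∧ LocCond L d c b) ∨ (2 ≤ d ∧ TameCond L d c b))

theorem uniCond_good : GoodCond.{u} (fun L _ _ d c b => UniCond L d c b) := by
  refine ⟨?_, ?_⟩
  · intro L L' _ _ _ _ _ d c b h
    obtain ⟨h0, ⟨hd, h⟩ | ⟨hd, h⟩⟩ := h
    · exact ⟨critWand_ext _ h0, Or.inl ⟨hd, locCond_ext h⟩⟩
    · exact ⟨critWand_ext _ h0, Or.inr ⟨hd, tameCond_ext h⟩⟩
  · intro L W _ _ _ _ _ _ d ζ c b _ hζ hw h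
    have hper : b ∉ Function.periodicPts (uf d c) := by
      rintro ⟨m, hm, h1⟩
      have h2 : (fun n : ℕ => (uf d c)^[n] b) m = (fun n : ℕ => (uf d c)^[n] b) 0 := h1
      have := hw h2
      omega
    obtain ⟨h0, ⟨hd, v, hv⟩ | ⟨hd, v, hvd, hv⟩⟩ := h
    · exact UQ.extP_place hd hζ h0 hper v hv
    · exact UQ.extP_tame hd hζ h0 hper v hvd hv

/-- **Theorem V+ with the blocks of Theorem I** -/
theorem thmU_final {K : Type u} [Field K] [NumberField K] {ι J : Type} [Finite ι] [Finite J]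
    (f : ι → RatFunc K) (hf : ∀ i, 2 ≤ rdeg (f i)) (α β : ι → OnePoint K)
    (hαβ : ∀ i n, (ract (RingHom.id K) (f i))^[n] (α i) ≠ β i) (Q : Set ι)
    (hQ : ∀ i ∈ Q, (¬ Function.Injective fun n : ℕ => (ract (RingHom.id K) (f i))^[n] (β i)) ∨
      UniConj (fun L _ _ d c b => UniCond L d c b) (f i) (β i))
    (blk : ι → J) (E : J → ℕ)
    (hE : ∀ j j', j ≠ j' → Nat.Coprime (E j) (E j')) (hexp : ∀ i, i ∉ Q → RHasExp (E (blk i)) (f i))
    (hblk : ∀ j, OrbitBlock (fun i : {i // i ∉ Q ∧ blk i = j} => f i.1)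
        (fun i : {i // i ∉ Q ∧ blk i = j} => β i.1) ∨
      PrimeBlock (fun i : {i // i ∉ Q ∧ blk i = j} => f i.1)
        (fun i : {i // i ∉ Q ∧ blk i = j} => β i.1) ∨
      ∀ i, i ∉ Q → blk i = j → TorusMap (algebraMap K (AlgebraicClosure K)) (f i)) :
    PosDensity (RAvoidSet f α β) :=
  thmU uniCond_good f hf α β hαβ Q hQ blk E hE hexp hblk

end Pool.Agent.ORB
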