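import Pool.Agent.ORB.NFinal
import Pool.Agent.ORB.UFinal

/-!
ORB: final theorem (Theorem B, Theorem V+ and the blocks of Theorem I), with the explicit condition on unicritical
maps.
-/

namespace Pool.Agent.ORB

open NumberField IsDedekindDomain Polynomial

universe u

/-- **Main theorem.** -/
theorem thmBU_final {K : Type u} [Field K] [NumberField K] {ι : Type} [Finite ι] (f : ι → RatFunc K)
    (hf : ∀ i, 2 ≤ rdeg (f i)) :
    ∃ S : Set (HeightOneSpectrum (𝓞 K)), S.Finite ∧ ∀ (α β : ι → OnePoint K)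
      (_ : ∀ i n, (ract (RingHom.id K) (f i))^[n] (α i) ≠ β i) (Q A : Set ι)
      (_ : ∀ i ∈ Q, (¬ Function.Injective fun n : ℕ => (ract (RingHom.id K) (f i))^[n] (α i)) ∨
        (¬ Function.Injective fun n : ℕ => (ract (RingHom.id K) (f i))^[n] (β i)) ∨
        UniConj (fun L _ _ d c b => UniCond L d c b) (f i) (β i))
      (_ : ∀ i ∈ A, ∃ (b : K) (v : HeightOneSpectrum (𝓞 K)), v ∉ S ∧ β i = (b : OnePoint K) ∧
        1 < v.valuation K b)
      (_ : A.Nonempty → ∀ i ∉ Q, ∃ p : K[X], f i = algebraMap K[X] (RatFunc K) p)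
      (J : Type) (_ : Finite J) (blk : ι → J) (E : J → ℕ)
      (_ : ∀ j j', j ≠ j' → Nat.Coprime (E j) (E j'))
      (_ : ∀ i, i ∉ Q → i ∉ A → RHasExp (E (blk i)) (f i))
      (_ : ∀ j, OrbitBlock (fun i : {i // (i ∉ Q ∧ i ∉ A) ∧ blk i = j} => f i.1)
          (fun i : {i // (i ∉ Q ∧ i ∉ A) ∧ blk i = j} => β i.1) ∨
        PrimeBlock (fun i : {i // (i ∉ Q ∧ i ∉ A) ∧ blk i = j} => f i.1)
          (fun i : {i // (i ∉ Q ∧ i ∉ A) ∧ blk i = j} => β i.1) ∨
        ∀ i, i ∉ Q → i ∉ A → blk i = j → TorusMap (algebraMap K (AlgebraicClosure K)) (f i)),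
      PosDensity (RAvoidSet f α β) :=
  thmBUT uniCond_good f hf

end Pool.Agent.ORB
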