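import Pool.Agent.ORB.NDefs

/-! ORB, Theorem B: definitions of the global rows (`Compat`, `GoodAt`, `Nice`). -/

namespace Pool.Agent.ORB.NI

open Polynomial IntermediateField NumberField IsDedekindDomain

universe u

/-- the absolute value of `D` on `K` is the one of `v` -/
def Compat {K : Type*} [Field K] [NumberField K] (v : HeightOneSpectrum (𝓞 K)) {F Ω : Type*} [Field F] [Field Ω]
    [Algebra F Ω] [Algebra K F] (D : LocAbs F Ω) : Prop :=
  ∀ x : K, (D.N (algebraMap F Ω (algebraMap K F x)) ≤ 1 ↔ v.valuation K x ≤ 1) ∧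
    (D.N (algebraMap F Ω (algebraMap K F x)) < 1 ↔ v.valuation K x < 1)

/-- good at `v` -/
def GoodAt {K : Type u} [Field K] [NumberField K] (v : HeightOneSpectrum (𝓞 K)) (f : K[X]) : Prop :=
  ∀ (F Ω : Type u) [Field F] [Field Ω] [Algebra K F] [Algebra F Ω] [CharZero F] [IsAlgClosed Ω]
    (D : LocAbs F Ω), Compat v D → Good D (f.map (algebraMap K F))

/-- the properties (i), (ii) of an automorphism, for all trees -/
def Nice {K E : Type*} [Field K] [Field E] [Algebra K E] {ι : Type*} (f : ι → K[X]) (b : ι → K) (t s : ℕ)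
    (A : E ≃ₐ[K] E) : Prop :=
  ∀ i, (∀ k, k ≤ t → ∀ z ∈ Node E (f i) (b i) k, A z = z) ∧
    (∀ k, s ≤ k → ∀ z ∈ Node E (f i) (b i) k, A z = z → ∀ m z', (ev (f i))^[m] z' = z → A z' = z')

end Pool.Agent.ORB.NI
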