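import Pool.Agent.ORB.NRestr
import Pool.Agent.ORB.NCompl
import Pool.Agent.ORB.NLocal

/-! ORB, Theorem B: the local theorem for the algebraic closure of a number field and the product over places. -/

namespace Pool.Agent.ORB.NI

open Polynomial IntermediateField NumberField IsDedekindDomain

universe u


theorem local_E {K : Type u} [Field K] [NumberField K] (v : HeightOneSpectrum (𝓞 K)) {E : Type u} [Field E]
    [Algebra K E] [IsAlgClosed E] [Algebra.IsAlgebraic K E] {ι : Type*} [Finite ι] (f : ι → K[X]) (b : ι → K)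
    (hf : ∀ i, GoodAt v (f i)) (hb : ∀ i, ∀ n, 1 ≤ n → (fun x => eval x (f i))^[n] (b i) ≠ b i) (t : ℕ) :
    ∃ (A : E ≃ₐ[K] E) (s : ℕ), Nice f b t s A ∧
      ∀ i, 1 < v.valuation K (b i) → ∀ k, s ≤ k → ∀ z ∈ Node E (f i) (b i) k, A z ≠ z := by
  obtain ⟨F, Ω, _, _, _, _, _, _, _, D, hD⟩ := exists_locAbs v
  refine restrict_local v D hD f b t (local_main D (fun i => (f i).map (algebraMap K F))
    (fun i => algebraMap K F (b i)) (fun i => hf i F Ω D hD) (fun i n hn h => hb i n hn ?_) t)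
  rw [eval_map_iter] at h
  exact (algebraMap K F).injective h

theorem product {K : Type u} [Field K] [NumberField K] (P : Finset (HeightOneSpectrum (𝓞 K))) {E : Type u}
    [Field E] [Algebra K E] [IsAlgClosed E] [Algebra.IsAlgebraic K E] {ι : Type*} [Finite ι] (f : ι → K[X])
    (b : ι → K) (hf : ∀ v ∈ P, ∀ i, GoodAt v (f i))
    (hb : ∀ i, ∀ n, 1 ≤ n → (fun x => eval x (f i))^[n] (b i) ≠ b i) (t : ℕ) :
    ∃ (A : E ≃ₐ[K] E) (s : ℕ), Nice f b t s A ∧
      ∀ i, (∃ v ∈ P, 1 < v.valuation K (b i)) → ∀ k, s ≤ k → ∀ z ∈ Node E (f i) (b i) k, A z ≠ z :=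
  product_of_local f b P (fun v hv t => local_E v f b (hf v hv) hb t) t

end Pool.Agent.ORB.NI
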