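import Pool.Agent.ORB.NGlob

/-! ORB, Theorem B, N13: the product of the local automorphisms at finitely many places. -/

namespace Pool.Agent.ORB.NI

open Polynomial IntermediateField NumberField IsDedekindDomain

universe u

section general

variable {K E : Type*} [Field K] [Field E] [Algebra K E]

theorem ev_aut (f : K[X]) (A : E ≃ₐ[K] E) (z : E) : A (ev f z) = ev f (A z) := by
  unfold ev
  rw [← AlgEquiv.coe_toAlgHom, Polynomial.aeval_algHom_apply]

theorem ev_aut_iter (f : K[X]) (A : E ≃ₐ[K] E) (n : ℕ) (z : E) :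
    A ((ev f)^[n] z) = (ev f)^[n] (A z) := by
  induction n generalizing z with
  | zero => rfl
  | succ n ih => rw [Function.iterate_succ_apply, ih, ev_aut, ← Function.iterate_succ_apply]

theorem node_aut {f : K[X]} {b : K} {k : ℕ} {z : E} (hz : z ∈ Node E f b k) (A : E ≃ₐ[K] E) :
    A z ∈ Node E f b k := by
  show (ev f)^[k] (A z) = _
  rw [← ev_aut_iter, show (ev f)^[k] z = algebraMap K E b from hz, A.commutes]

theorem node_down {f : K[X]} {b : K} {k m : ℕ} (hm : m ≤ k) {z : E} (hz : z ∈ Node E f b k) :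
    (ev f)^[k - m] z ∈ Node E f b m := by
  show (ev f)^[m] ((ev f)^[k - m] z) = _
  rw [← Function.iterate_add_apply, Nat.add_sub_cancel' hm]
  exact hz

/-- composition: `A'` is nice from level `s'` on; `B` is nice from level `s` on and trivial up to level `s'`
(this is the only thing needed for the first two conclusions about a fixed node) -/
theorem fixed_both {f : K[X]} {b : K} {s' : ℕ} {A' B : E ≃ₐ[K] E}
    (hA' : ∀ z ∈ Node E f b s', A' z = z → ∀ m z', (ev f)^[m] z' = z → A' z' = z')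
    (hB : ∀ z ∈ Node E f b s', B z = z) {k : ℕ} (hk : s' ≤ k) {z : E} (hz : z ∈ Node E f b k)
    (h : (A' * B) z = z) :
    A' ((ev f)^[k - s'] z) = (ev f)^[k - s'] z ∧ B z = z ∧
      ∀ m z', (ev f)^[m] z' = z → A' z' = z' := by
  have hz0 := node_down hk hz
  set z0 := (ev f)^[k - s'] z with hz0'
  have hB0 : B z0 = z0 := hB z0 hz0
  have h0 : A' z0 = z0 := by
    have h1 : (A' * B) z0 = z0 := by
      rw [hz0', ev_aut_iter, h]
    rwa [AlgEquiv.mul_apply, hB0] at h1
  have h2 : A' (B z) = B z := by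
    apply hA' z0 hz0 h0 (k - s') (B z)
    rw [← ev_aut_iter, ← hz0', hB0]
  refine ⟨h0, ?_, ?_⟩
  · rw [AlgEquiv.mul_apply, h2] at h
    exact h
  · intro m z' hm
    apply hA' z0 hz0 h0 (k - s' + m) z'
    rw [Function.iterate_add_apply, hm]

end general

/-- the identity is nice -/
theorem nice_one {K E : Type*} [Field K] [Field E] [Algebra K E] {ι : Type*} (f : ι → K[X]) (b : ι → K)
    (t s : ℕ) : Nice f b t s (1 : E ≃ₐ[K] E) :=
  fun _ => ⟨fun _ _ _ _ => rfl, fun _ _ _ _ _ _ _ _ => rfl⟩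

/-- products: `B` trivial up to the level from which on `A'` is nice -/
theorem Nice.mul {K E : Type*} [Field K] [Field E] [Algebra K E] {ι : Type*} {f : ι → K[X]} {b : ι → K}
    {t t' s' s : ℕ} {A' B : E ≃ₐ[K] E} (hA' : Nice f b t s' A') (hB : Nice f b t' s B) (ht : t ≤ t')
    (hs : s' ≤ t') : Nice f b t (max s' s) (A' * B) := by
  intro i
  refine ⟨?_, ?_⟩
  · intro k hk z hz
    rw [AlgEquiv.mul_apply, (hB i).1 k (le_trans hk ht) z hz]
    exact (hA' i).1 k hk z hz
  · intro k hk z hz h m z' hm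
    obtain ⟨-, h2, h3⟩ := fixed_both (f := f i) (b := b i) (s' := s') (A' := A') (B := B)
      (fun w hw hw1 => (hA' i).2 s' le_rfl w hw hw1) (fun w hw => (hB i).1 s' hs w hw)
      (le_trans (le_max_left _ _) hk) hz h
    rw [AlgEquiv.mul_apply, (hB i).2 k (le_trans (le_max_right _ _) hk) z hz h2 m z' hm]
    exact h3 m z' hm

/-- a node moved by one factor is moved by the product -/
theorem Nice.moves {K E : Type*} [Field K] [Field E] [Algebra K E] {ι : Type*} {f : ι → K[X]} {b : ι → K}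
    {t s' s : ℕ} {A' B : E ≃ₐ[K] E} {i : ι} (hA' : Nice f b t s' A')
    (hB : ∀ z ∈ Node E (f i) (b i) s', B z = z) {k : ℕ} (hk : max s' s ≤ k)
    (h : (∀ k, s' ≤ k → ∀ z ∈ Node E (f i) (b i) k, A' z ≠ z) ∨
      ∀ k, s ≤ k → ∀ z ∈ Node E (f i) (b i) k, B z ≠ z) {z : E} (hz : z ∈ Node E (f i) (b i) k) :
    (A' * B) z ≠ z := by
  intro hfix
  obtain ⟨h1, h2, -⟩ := fixed_both (f := f i) (b := b i) (s' := s') (A' := A') (B := B)
    (fun w hw hw1 => (hA' i).2 s' le_rfl w hw hw1) hB (le_trans (le_max_left _ _) hk) hz hfix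
  rcases h with h | h
  · exact h s' le_rfl _ (node_down (le_trans (le_max_left _ _) hk) hz) h1
  · exact h k (le_trans (le_max_right _ _) hk) z hz h2

/-- N13 -/
theorem product_of_local {K : Type u} [Field K] [NumberField K] {E : Type u} [Field E] [Algebra K E]
    {ι : Type*} (f : ι → K[X]) (b : ι → K) (P : Finset (HeightOneSpectrum (𝓞 K)))
    (hloc : ∀ v ∈ P, ∀ t : ℕ, ∃ (A : E ≃ₐ[K] E) (s : ℕ), Nice f b t s A ∧
      ∀ i, 1 < v.valuation K (b i) → ∀ k, s ≤ k → ∀ z ∈ Node E (f i) (b i) k, A z ≠ z) (t : ℕ) :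
    ∃ (A : E ≃ₐ[K] E) (s : ℕ), Nice f b t s A ∧
      ∀ i, (∃ v ∈ P, 1 < v.valuation K (b i)) → ∀ k, s ≤ k → ∀ z ∈ Node E (f i) (b i) k, A z ≠ z := by
  classical
  induction P using Finset.induction_on with
  | empty =>
    exact ⟨1, 0, nice_one f b t 0, fun i ⟨v, hv, _⟩ => absurd hv (Finset.notMem_empty v)⟩
  | insert v P _ ih =>
    obtain ⟨A', s', hA', hm'⟩ := ih (fun w hw => hloc w (Finset.mem_insert_of_mem hw))
    obtain ⟨B, s, hB, hm⟩ := hloc v (Finset.mem_insert_self v P) (max t s')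
    refine ⟨A' * B, max s' s, hA'.mul hB (le_max_left _ _) (le_max_right _ _), ?_⟩
    intro i hi k hk z hz
    refine hA'.moves (fun w hw => (hB i).1 s' (le_max_right _ _) w hw) hk ?_ hz
    obtain ⟨w, hw, hwi⟩ := hi
    rcases Finset.mem_insert.1 hw with rfl | hw
    · exact Or.inr (hm i hwi)
    · exact Or.inl (hm' i ⟨w, hw, hwi⟩)

end Pool.Agent.ORB.NI
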