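import Pool.Agent.ORB.NRDefs

/-!
ORB, Theorem B for rational functions, row RA: points, charts, the basic estimate.
-/

namespace Pool.Agent.ORB.NR

open Polynomial IntermediateField Pool.Agent.ORB.NI

section basic
variable {F Ω : Type*} [Field F] [Field Ω] [Algebra F Ω] (D : LocAbs F Ω)

theorem big_infty : Big D (OnePoint.infty : OnePoint Ω) := fun z h => absurd h.symm (OnePoint.coe_ne_infty z)

theorem big_coe {z : Ω} : Big D (z : OnePoint Ω) ↔ 1 < D.N z := by
  constructor
  · intro h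
    exact h z rfl
  · intro h w hw
    rw [OnePoint.coe_eq_coe] at hw
    rw [← hw]
    exact h

theorem co_infty : co D (OnePoint.infty : OnePoint Ω) = 0 := rfl

theorem co_big {z : Ω} (h : 1 < D.N z) : co D (z : OnePoint Ω) = z⁻¹ := by
  show (if 1 < D.N z then z⁻¹ else z) = _
  rw [if_pos h]

theorem co_small {z : Ω} (h : D.N z ≤ 1) : co D (z : OnePoint Ω) = z := by
  show (if 1 < D.N z then z⁻¹ else z) = _
  rw [if_neg (not_lt.2 h)]

theorem N_inv_lt {z : Ω} (h : 1 < D.N z) : D.N z⁻¹ < 1 := by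
  rw [map_inv₀]
  exact inv_lt_one_of_one_lt₀ h

theorem N_co_lt {x : OnePoint Ω} (h : Big D x) : D.N (co D x) < 1 := by
  induction x using OnePoint.rec with
  | infty => rw [co_infty, N_zero]; exact one_pos
  | coe z =>
    have h1 := (big_coe D).1 h
    rw [co_big D h1]
    exact N_inv_lt D h1

theorem N_co_le (x : OnePoint Ω) : D.N (co D x) ≤ 1 := by
  by_cases h : Big D x
  · exact (N_co_lt D h).le
  · induction x using OnePoint.rec with
    | infty => exact absurd (big_infty D) h
    | coe z =>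
      rw [big_coe, not_lt] at h
      rw [co_small D h]
      exact h

theorem co_inj {x y : OnePoint Ω} (h : Big D x ↔ Big D y) (h1 : co D x = co D y) : x = y := by
  by_cases hx : Big D x
  · have hy := h.1 hx
    induction x using OnePoint.rec with
    | infty =>
      induction y using OnePoint.rec with
      | infty => rfl
      | coe w =>
        have hw := (big_coe D).1 hy
        rw [co_infty, co_big D hw] at h1
        have : w = 0 := inv_eq_zero.1 h1.symm
        rw [this, N_zero] at hw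
        exact absurd hw (by norm_num)
    | coe z =>
      have hz := (big_coe D).1 hx
      induction y using OnePoint.rec with
      | infty =>
        rw [co_infty, co_big D hz] at h1
        have : z = 0 := inv_eq_zero.1 h1
        rw [this, N_zero] at hz
        exact absurd hz (by norm_num)
      | coe w =>
        rw [co_big D hz, co_big D ((big_coe D).1 hy)] at h1
        rw [inv_injective h1]
  · have hy : ¬ Big D y := fun h' => hx (h.2 h')
    induction x using OnePoint.rec with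
    | infty => exact absurd (big_infty D) hx
    | coe z =>
      induction y using OnePoint.rec with
      | infty => exact absurd (big_infty D) hy
      | coe w =>
        rw [big_coe, not_lt] at hx hy
        rw [co_small D hx, co_small D hy] at h1
        rw [h1]

variable {D} in
theorem Cl.refl (x : OnePoint Ω) : Cl D x x := ⟨Iff.rfl, by rw [sub_self, N_zero]; exact one_pos⟩

variable {D} in
theorem Cl.symm {x y : OnePoint Ω} (h : Cl D x y) : Cl D y x := ⟨h.1.symm, by rw [N_symm]; exact h.2⟩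

variable {D} in
theorem Cl.trans {x y z : OnePoint Ω} (h : Cl D x y) (h' : Cl D y z) : Cl D x z :=
  ⟨h.1.trans h'.1, N_lt_trans D h.2 h'.2⟩

theorem inM_infty (M : IntermediateField F Ω) : InM M (OnePoint.infty : OnePoint Ω) :=
  fun z h => absurd h.symm (OnePoint.coe_ne_infty z)

theorem inM_coe {M : IntermediateField F Ω} {z : Ω} : InM M (z : OnePoint Ω) ↔ z ∈ M := by
  constructor
  · intro h
    exact h z rfl
  · intro h w hw
    rw [OnePoint.coe_eq_coe] at hw
    rw [← hw]
    exact h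

theorem inM_iff (M : IntermediateField F Ω) (x : OnePoint Ω) : InM M x ↔ co D x ∈ M := by
  induction x using OnePoint.rec with
  | infty =>
    rw [co_infty]
    exact ⟨fun _ => M.zero_mem, fun _ => inM_infty M⟩
  | coe z =>
    rw [inM_coe]
    by_cases h : 1 < D.N z
    · rw [co_big D h]
      exact inv_mem_iff.symm
    · rw [co_small D (not_lt.1 h)]

theorem inM_mono {M M' : IntermediateField F Ω} (h : M ≤ M') {x : OnePoint Ω} (hx : InM M x) : InM M' x :=
  fun z hz => h (hx z hz)

theorem inM_pmap (M : IntermediateField F Ω) (b : OnePoint F) : InM M (pmap (algebraMap F Ω) b) := by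
  induction b using OnePoint.rec with
  | infty => exact inM_infty M
  | coe z =>
    rw [pmap_coe, inM_coe]
    exact M.algebraMap_mem z

theorem inM_mk2 (M : IntermediateField F Ω) {x y : Ω} (hx : x ∈ M) (hy : y ∈ M) : InM M (mk2 x y) := by
  by_cases h : y = 0
  · rw [h, mk2_zero]
    exact inM_infty M
  · rw [mk2_ne h, inM_coe]
    exact div_mem hx hy

theorem rv_coe (R : RP F) (z : Ω) : rv R (z : OnePoint Ω) = mk2 (aeval z R.A) (aeval z R.B) := by
  show (R.map (algebraMap F Ω)).act (z : OnePoint Ω) = _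
  rw [RP.act_coe]
  simp only [RP.map, eval_map_algebraMap]

theorem rv_infty (R : RP F) : rv R (OnePoint.infty : OnePoint Ω) =
    mk2 (algebraMap F Ω (R.A.coeff R.d)) (algebraMap F Ω (R.B.coeff R.d)) := by
  show (R.map (algebraMap F Ω)).act OnePoint.infty = _
  rw [RP.act_infty]
  simp only [RP.map, coeff_map]

theorem aeval_mem (M : IntermediateField F Ω) (f : F[X]) {z : Ω} (hz : z ∈ M) : aeval z f ∈ M := by
  rw [aeval_eq_sum_range]
  exact M.toSubalgebra.sum_mem fun i _ => M.toSubalgebra.smul_mem (M.toSubalgebra.pow_mem hz i) _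

theorem inM_rv (M : IntermediateField F Ω) (R : RP F) {x : OnePoint Ω} (hx : InM M x) : InM M (rv R x) := by
  induction x using OnePoint.rec with
  | infty =>
    rw [rv_infty]
    exact inM_mk2 M (M.algebraMap_mem _) (M.algebraMap_mem _)
  | coe z =>
    rw [rv_coe]
    have hz := inM_coe.1 hx
    exact inM_mk2 M (aeval_mem M _ hz) (aeval_mem M _ hz)

theorem inM_iter (M : IntermediateField F Ω) (R : RP F) {x : OnePoint Ω} (hx : InM M x) (n : ℕ) :
    InM M ((rv R)^[n] x) := by
  induction n with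
  | zero => exact hx
  | succ n ih =>
    rw [Function.iterate_succ_apply']
    exact inM_rv M R ih

theorem N_aut (g : Ω ≃ₐ[F] Ω) (x : Ω) : D.N (g x) = D.N x := D.inv g x

theorem big_aut (g : Ω ≃ₐ[F] Ω) (x : OnePoint Ω) : Big D (pmap (g : Ω →+* Ω) x) ↔ Big D x := by
  induction x using OnePoint.rec with
  | infty => exact ⟨fun _ => big_infty D, fun _ => big_infty D⟩
  | coe z =>
    rw [pmap_coe, big_coe, big_coe]
    show 1 < D.N (g z) ↔ _
    rw [D.inv]

theorem co_aut (g : Ω ≃ₐ[F] Ω) (x : OnePoint Ω) : co D (pmap (g : Ω →+* Ω) x) = g (co D x) := by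
  induction x using OnePoint.rec with
  | infty => rw [pmap_infty, co_infty, map_zero]
  | coe z =>
    rw [pmap_coe]
    show co D ((g z : Ω) : OnePoint Ω) = _
    by_cases h : 1 < D.N z
    · rw [co_big D h, co_big D (by rw [D.inv]; exact h), map_inv₀]
    · have h := not_lt.1 h
      rw [co_small D h, co_small D (by rw [D.inv]; exact h)]

theorem rv_aut (g : Ω ≃ₐ[F] Ω) (R : RP F) (x : OnePoint Ω) :
    rv R (pmap (g : Ω →+* Ω) x) = pmap (g : Ω →+* Ω) (rv R x) := by
  have hcomp : (g : Ω →+* Ω).comp (algebraMap F Ω) = algebraMap F Ω := RingHom.ext fun y => g.commutes y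
  have h1 : (R.map (algebraMap F Ω)).map (g : Ω →+* Ω) = R.map (algebraMap F Ω) := by
    show RP.mk _ _ _ _ _ _ _ = RP.mk _ _ _ _ _ _ _
    simp only [RP.map, Polynomial.map_map, hcomp]
  have := RP.act_map (g : Ω →+* Ω) (R.map (algebraMap F Ω)) x
  rw [h1] at this
  exact this

theorem rv_iter_aut (g : Ω ≃ₐ[F] Ω) (R : RP F) (n : ℕ) (x : OnePoint Ω) :
    (rv R)^[n] (pmap (g : Ω →+* Ω) x) = pmap (g : Ω →+* Ω) ((rv R)^[n] x) := by
  induction n with
  | zero => rfl
  | succ n ih => rw [Function.iterate_succ_apply', Function.iterate_succ_apply', ih, rv_aut]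

theorem pmap_fix_of_inM {M : IntermediateField F Ω} (g : Ω ≃ₐ[F] Ω) (hg : ∀ y ∈ M, g y = y) {x : OnePoint Ω}
    (hx : InM M x) : pmap (g : Ω →+* Ω) x = x := by
  induction x using OnePoint.rec with
  | infty => rfl
  | coe z =>
    rw [pmap_coe]
    show ((g z : Ω) : OnePoint Ω) = _
    rw [hg z (inM_coe.1 hx)]

theorem nodeR_succ {R : RP F} {b : OnePoint F} {k : ℕ} {x : OnePoint Ω} :
    x ∈ NodeR Ω R b (k + 1) ↔ rv R x ∈ NodeR Ω R b k := by
  show (rv R)^[k + 1] x = _ ↔ (rv R)^[k] (rv R x) = _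
  rw [Function.iterate_succ_apply]

theorem nodeR_iter {R : RP F} {b : OnePoint F} {k m : ℕ} {x : OnePoint Ω} (hx : x ∈ NodeR Ω R b (k + m)) :
    (rv R)^[m] x ∈ NodeR Ω R b k := by
  show (rv R)^[k] ((rv R)^[m] x) = _
  rw [← Function.iterate_add_apply]
  exact hx

theorem rv_pmap (R : RP F) (b : OnePoint F) (n : ℕ) :
    (rv R)^[n] (pmap (algebraMap F Ω) b) = pmap (algebraMap F Ω) (R.act^[n] b) := by
  induction n with
  | zero => rfl
  | succ n ih =>
    rw [Function.iterate_succ_apply', Function.iterate_succ_apply', ih]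
    exact RP.act_map (algebraMap F Ω) R _

/-! ### good pairs -/

theorem wr_swap {F : Type*} [Field F] (P Q : F[X]) : wr Q P = -wr P Q := by
  rw [wr, wr]
  ring

variable {D} in
theorem GP.swap {P Q : F[X]} (h : GP D P Q) : GP D Q P where
  cP := h.cQ
  cQ := h.cP
  unit := fun z hz => (h.unit z hz).symm
  wunit := by
    obtain ⟨n, hn⟩ := h.wunit
    exact ⟨n, by rw [wr_swap, coeff_neg, map_neg, N_neg]; exact hn⟩

theorem coef_map {P : F[X]} (h : ∀ n, D.N (algebraMap F Ω (P.coeff n)) ≤ 1) (n : ℕ) :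
    D.N ((P.map (algebraMap F Ω)).coeff n) ≤ 1 := by
  rw [coeff_map]
  exact h n

theorem aeval_int {P : F[X]} (h : ∀ n, D.N (algebraMap F Ω (P.coeff n)) ≤ 1) {z : Ω} (hz : D.N z ≤ 1) :
    D.N (aeval z P) ≤ 1 := by
  rw [← eval_map_algebraMap]
  exact eval_int D _ (coef_map D h) hz

theorem deriv_coef {P : Polynomial Ω} (h : ∀ n, D.N (P.coeff n) ≤ 1) (n : ℕ) :
    D.N (P.derivative.coeff n) ≤ 1 := by
  rw [coeff_derivative, ← mem_OO]
  refine Subring.mul_mem _ (h (n + 1)) ?_
  have : ((n : Ω) + 1) = ((n + 1 : ℕ) : Ω) := by push_cast; ring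
  rw [this]
  exact natCast_mem (OO D) (n + 1)

theorem mul_coef {P Q : Polynomial Ω} (h : ∀ n, D.N (P.coeff n) ≤ 1) (h' : ∀ n, D.N (Q.coeff n) ≤ 1) (n : ℕ) :
    D.N ((P * Q).coeff n) ≤ 1 := by
  rw [coeff_mul, ← mem_OO]
  exact Subring.sum_mem _ fun y _ => Subring.mul_mem _ (h y.1) (h' y.2)

theorem sub_coef {P Q : Polynomial Ω} (h : ∀ n, D.N (P.coeff n) ≤ 1) (h' : ∀ n, D.N (Q.coeff n) ≤ 1) (n : ℕ) :
    D.N ((P - Q).coeff n) ≤ 1 := by
  rw [coeff_sub, ← mem_OO]
  exact Subring.sub_mem _ (h n) (h' n)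

variable {D} in
theorem GP.cW {P Q : F[X]} (h : GP D P Q) (n : ℕ) : D.N (algebraMap F Ω ((wr P Q).coeff n)) ≤ 1 := by
  have h1 : ((wr P Q).map (algebraMap F Ω)).coeff n =
      ((P.map (algebraMap F Ω)).derivative * (Q.map (algebraMap F Ω)) -
        (P.map (algebraMap F Ω)) * (Q.map (algebraMap F Ω)).derivative).coeff n := by
    rw [wr, Polynomial.map_sub, Polynomial.map_mul, Polynomial.map_mul, derivative_map, derivative_map]
  rw [← coeff_map, h1]
  exact sub_coef D (mul_coef D (deriv_coef D (coef_map D h.cP)) (coef_map D h.cQ))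
    (mul_coef D (coef_map D h.cP) (deriv_coef D (coef_map D h.cQ))) n

/-- values at close points -/
theorem aeval_close {P : F[X]} (h : ∀ n, D.N (algebraMap F Ω (P.coeff n)) ≤ 1) {x y : Ω} (hx : D.N x ≤ 1)
    (hy : D.N y ≤ 1) (hxy : D.N (x - y) < 1) : D.N (aeval x P - aeval y P) < 1 := by
  obtain ⟨k, hk, h1⟩ := eval_diff D _ (coef_map D h) hx hy
  rw [← eval_map_algebraMap, ← eval_map_algebraMap, h1, N_mul]
  refine (mul_le_of_le_one_right (N_nonneg D _) ?_).trans_lt hxy
  refine (D.nonarch _ _).trans (max_le ?_ ?_)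
  · exact eval_int D _ (deriv_coef D (coef_map D h)) hy
  · rw [N_mul]
    exact mul_le_one₀ hxy.le (N_nonneg D _) hk

theorem aeval_unit {P : F[X]} (h : ∀ n, D.N (algebraMap F Ω (P.coeff n)) ≤ 1) {x y : Ω} (hx : D.N x ≤ 1)
    (hy : D.N y ≤ 1) (hxy : D.N (x - y) < 1) (h1 : D.N (aeval y P) = 1) : D.N (aeval x P) = 1 := by
  rw [← h1]
  apply N_eq_of_close
  rw [h1]
  exact aeval_close D h hx hy hxy

/-! ### charts -/

open Classical in
/-- the chart at the source -/
noncomputable def sc (R : RP F) (x : OnePoint Ω) : F[X] × F[X] :=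
  if Big D x then (R.A.reflect R.d, R.B.reflect R.d) else (R.A, R.B)

theorem aeval_reflect {P : F[X]} {d : ℕ} (hP : P.natDegree ≤ d) {z : Ω} (hz : z ≠ 0) :
    z ^ d * aeval z⁻¹ (P.reflect d) = aeval z P := by
  let _ : Invertible z := invertibleOfNonzero hz
  have h := eval₂_reflect_mul_pow (algebraMap F Ω) z d P hP
  rw [invOf_eq_inv] at h
  rw [aeval_def, aeval_def, ← h, mul_comm]

theorem rv_eq_mk2 (R : RP F) (x : OnePoint Ω) :
    rv R x = mk2 (aeval (co D x) (sc D R x).1) (aeval (co D x) (sc D R x).2) := by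
  induction x using OnePoint.rec with
  | infty =>
    have h : sc D R (OnePoint.infty : OnePoint Ω) = (R.A.reflect R.d, R.B.reflect R.d) := if_pos (big_infty D)
    have h0 : ∀ P : F[X], aeval (0 : Ω) (P.reflect R.d) = algebraMap F Ω (P.coeff R.d) := by
      intro P
      rw [aeval_def, eval₂_at_zero, coeff_reflect, revAt_zero]
    rw [rv_infty, h, co_infty, h0, h0]
  | coe z =>
    by_cases hz : 1 < D.N z
    · have h : sc D R (z : OnePoint Ω) = (R.A.reflect R.d, R.B.reflect R.d) := if_pos ((big_coe D).2 hz)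
      have hz0 : z ≠ 0 := by
        rintro rfl
        rw [N_zero] at hz
        exact absurd hz (by norm_num)
      rw [rv_coe, h, co_big D hz, ← aeval_reflect R.hA hz0, ← aeval_reflect R.hB hz0,
        mk2_mul (pow_ne_zero _ hz0)]
    · have h : sc D R (z : OnePoint Ω) = (R.A, R.B) := if_neg fun h => hz ((big_coe D).1 h)
      rw [rv_coe, h, co_small D (not_lt.1 hz)]

theorem sc_gp {R : RP F} (hR : GoodR D R) (x : OnePoint Ω) : GP D (sc D R x).1 (sc D R x).2 := by
  by_cases h : Big D x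
  · have h1 : sc D R x = (R.A.reflect R.d, R.B.reflect R.d) := if_pos h
    rw [h1]
    exact hR.gp'
  · have h1 : sc D R x = (R.A, R.B) := if_neg h
    rw [h1]
    exact hR.gp

theorem sc_deg (R : RP F) (x : OnePoint Ω) : (sc D R x).1.natDegree ≤ R.d ∧ (sc D R x).2.natDegree ≤ R.d := by
  have key : ∀ P : F[X], P.natDegree ≤ R.d → (P.reflect R.d).natDegree ≤ R.d := by
    intro P hP
    rw [natDegree_le_iff_coeff_eq_zero]
    intro n hn
    rw [coeff_reflect, revAt_eq_self_of_lt hn]
    exact coeff_eq_zero_of_natDegree_lt (by omega)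
  by_cases h : Big D x
  · have h1 : sc D R x = (R.A.reflect R.d, R.B.reflect R.d) := if_pos h
    rw [h1]
    exact ⟨key _ R.hA, key _ R.hB⟩
  · have h1 : sc D R x = (R.A, R.B) := if_neg h
    rw [h1]
    exact ⟨R.hA, R.hB⟩

theorem sc_cr (R : RP F) (x : OnePoint Ω) : cr D R x = D.N (aeval (co D x) (wr (sc D R x).1 (sc D R x).2)) := by
  by_cases h : Big D x
  · have h1 : sc D R x = (R.A.reflect R.d, R.B.reflect R.d) := if_pos h
    rw [h1, cr, if_pos h]
  · have h1 : sc D R x = (R.A, R.B) := if_neg h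
    rw [h1, cr, if_neg h]

theorem sc_cl (R : RP F) {x y : OnePoint Ω} (h : Cl D x y) : sc D R y = sc D R x := by
  by_cases hx : Big D x
  · have h1 : sc D R x = (R.A.reflect R.d, R.B.reflect R.d) := if_pos hx
    have h2 : sc D R y = (R.A.reflect R.d, R.B.reflect R.d) := if_pos (h.1.1 hx)
    rw [h1, h2]
  · have h1 : sc D R x = (R.A, R.B) := if_neg hx
    have h2 : sc D R y = (R.A, R.B) := if_neg fun hy => hx (h.1.2 hy)
    rw [h1, h2]

/-- coordinates of a point given by homogeneous coordinates with a unit -/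
theorem mk2_small {a b : Ω} (ha : D.N a ≤ 1) (hb : D.N b = 1) : ¬ Big D (mk2 a b) ∧ co D (mk2 a b) = a / b := by
  have hb0 : b ≠ 0 := ne_zero_of_N D (by rw [hb]; exact one_ne_zero)
  have h1 : D.N (a / b) ≤ 1 := by rw [map_div₀, hb, div_one]; exact ha
  rw [mk2_ne hb0]
  exact ⟨fun h => absurd ((big_coe D).1 h) (not_lt.2 h1), co_small D h1⟩

theorem mk2_big {a b : Ω} (ha : D.N a = 1) (hb : D.N b < 1) : Big D (mk2 a b) ∧ co D (mk2 a b) = b / a := by
  have ha0 : a ≠ 0 := ne_zero_of_N D (by rw [ha]; exact one_ne_zero)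
  by_cases hb0 : b = 0
  · rw [hb0, mk2_zero]
    exact ⟨big_infty D, by rw [co_infty, zero_div]⟩
  · have h1 : 1 < D.N (a / b) := by
      rw [map_div₀, ha, one_div]
      exact one_lt_inv_iff₀.2 ⟨N_pos D hb0, hb⟩
    rw [mk2_ne hb0]
    exact ⟨(big_coe D).2 h1, by rw [co_big D h1, inv_div]⟩

/-- the charts: `(P, Q)` is one of `(A, B)`, `(B, A)` and the same with the reflected polynomials; it depends only
on the residue classes of `x` and of `R x` -/
theorem chart_big {R : RP F} (hR : GoodR D R) (x : OnePoint Ω) : ∃ P Q : F[X], GP D P Q ∧ P.natDegree ≤ R.d ∧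
    Q.natDegree ≤ R.d ∧ ∀ y, Cl D x y → D.N (aeval (co D y) Q) = 1 ∧
      co D (rv R y) = aeval (co D y) P / aeval (co D y) Q ∧ D.N (aeval (co D y) (wr P Q)) = cr D R y ∧
      (Big D (rv R x) ↔ Big D (rv R y)) := by
  obtain ⟨P, Q, hPQ⟩ : ∃ P Q, sc D R x = (P, Q) := ⟨_, _, rfl⟩
  have hG := sc_gp D hR x
  have hd := sc_deg D R x
  rw [hPQ] at hG hd
  have hy : ∀ y, Cl D x y → rv R y = mk2 (aeval (co D y) P) (aeval (co D y) Q) ∧
      cr D R y = D.N (aeval (co D y) (wr P Q)) := by
    intro y h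
    have h1 := sc_cl D R h
    have h2 := rv_eq_mk2 D R y
    have h3 := sc_cr D R y
    rw [h1, hPQ] at h2 h3
    exact ⟨h2, h3⟩
  have hx := hy x (Cl.refl x)
  by_cases hQ : D.N (aeval (co D x) Q) = 1
  · refine ⟨P, Q, hG, hd.1, hd.2, fun y h => ?_⟩
    have hQy := aeval_unit D hG.cQ (N_co_le D y) (N_co_le D x) (by rw [N_symm]; exact h.2) hQ
    obtain ⟨h1, h2⟩ := hy y h
    have h3 := mk2_small D (aeval_int D hG.cP (N_co_le D y)) hQy
    have h4 := mk2_small D (aeval_int D hG.cP (N_co_le D x)) hQ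
    refine ⟨hQy, ?_, h2.symm, ?_⟩
    · rw [h1]
      exact h3.2
    · rw [h1, hx.1]
      exact ⟨fun h => absurd h h4.1, fun h => absurd h h3.1⟩
  · have hP : D.N (aeval (co D x) P) = 1 := (hG.unit _ (N_co_le D x)).resolve_right hQ
    have hQ1 : D.N (aeval (co D x) Q) < 1 := lt_of_le_of_ne (aeval_int D hG.cQ (N_co_le D x)) hQ
    refine ⟨Q, P, hG.swap, hd.2, hd.1, fun y h => ?_⟩
    have hPy := aeval_unit D hG.cP (N_co_le D y) (N_co_le D x) (by rw [N_symm]; exact h.2) hP
    have hQy : D.N (aeval (co D y) Q) < 1 := by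
      have h5 := aeval_close D hG.cQ (N_co_le D y) (N_co_le D x) (by rw [N_symm]; exact h.2)
      have h6 := D.nonarch (aeval (co D y) Q - aeval (co D x) Q) (aeval (co D x) Q)
      rw [sub_add_cancel] at h6
      exact h6.trans_lt (max_lt h5 hQ1)
    obtain ⟨h1, h2⟩ := hy y h
    have h3 := mk2_big D hPy hQy
    have h4 := mk2_big D hP hQ1
    refine ⟨hPy, ?_, ?_, ?_⟩
    · rw [h1]
      exact h3.2
    · rw [h2, wr_swap, map_neg, N_neg]
    · rw [h1, hx.1]
      exact ⟨fun _ => h3.1, fun _ => h4.1⟩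

theorem chart {R : RP F} (hR : GoodR D R) (x : OnePoint Ω) : ∃ P Q : F[X], GP D P Q ∧ P.natDegree ≤ R.d ∧
    Q.natDegree ≤ R.d ∧ ∀ y, Cl D x y → D.N (aeval (co D y) Q) = 1 ∧
      co D (rv R y) = aeval (co D y) P / aeval (co D y) Q ∧ D.N (aeval (co D y) (wr P Q)) = cr D R y := by
  obtain ⟨P, Q, h1, h2, h3, h4⟩ := chart_big D hR x
  exact ⟨P, Q, h1, h2, h3, fun y h => ⟨(h4 y h).1, (h4 y h).2.1, (h4 y h).2.2.1⟩⟩

theorem cr_le {R : RP F} (hR : GoodR D R) (x : OnePoint Ω) : cr D R x ≤ 1 := by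
  rw [sc_cr]
  exact aeval_int D (sc_gp D hR x).cW (N_co_le D x)

/-- the basic estimate -/
theorem contract {R : RP F} (hR : GoodR D R) {x y : OnePoint Ω} (h : Cl D x y) :
    D.N (co D (rv R x) - co D (rv R y)) ≤ D.N (co D x - co D y) * max (cr D R y) (D.N (co D x - co D y)) := by
  obtain ⟨P, Q, hG, -, -, hc⟩ := chart D hR x
  obtain ⟨hx1, hx2, -⟩ := hc x (Cl.refl x)
  obtain ⟨hy1, hy2, hy3⟩ := hc y h
  rw [hx2, hy2, ← hy3]
  set z := co D x with hz
  set w := co D y with hw
  have hz1 := N_co_le D x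
  have hw1 := N_co_le D y
  rw [← hz] at hz1
  rw [← hw] at hw1
  have hQz : aeval z Q ≠ 0 := ne_zero_of_N D (by rw [hx1]; exact one_ne_zero)
  have hQw : aeval w Q ≠ 0 := ne_zero_of_N D (by rw [hy1]; exact one_ne_zero)
  set G : Polynomial Ω := (P.map (algebraMap F Ω)) * C (aeval w Q) - (Q.map (algebraMap F Ω)) * C (aeval w P)
    with hGdef
  have hC : ∀ a : Ω, D.N a ≤ 1 → ∀ n, D.N ((C a : Polynomial Ω).coeff n) ≤ 1 := by
    intro a ha n
    rw [coeff_C]
    split_ifs
    · exact ha
    · rw [N_zero]; exact zero_le_one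
  have hGc : ∀ n, D.N (G.coeff n) ≤ 1 := sub_coef D (mul_coef D (coef_map D hG.cP) (hC _ (aeval_int D hG.cQ hw1)))
    (mul_coef D (coef_map D hG.cQ) (hC _ (aeval_int D hG.cP hw1)))
  obtain ⟨k, hk, h1⟩ := eval_diff D G hGc hz1 hw1
  have e1 : G.eval z = aeval z P * aeval w Q - aeval z Q * aeval w P := by
    rw [hGdef, eval_sub, eval_mul, eval_mul, eval_C, eval_C, eval_map_algebraMap, eval_map_algebraMap]
  have e2 : G.eval w = 0 := by
    rw [hGdef, eval_sub, eval_mul, eval_mul, eval_C, eval_C, eval_map_algebraMap, eval_map_algebraMap]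
    ring
  have e3 : G.derivative.eval w = aeval w (wr P Q) := by
    rw [hGdef, derivative_sub, derivative_mul, derivative_mul, derivative_C, derivative_C, mul_zero, mul_zero,
      add_zero, add_zero, eval_sub, eval_mul, eval_mul, eval_C, eval_C, derivative_map, derivative_map,
      eval_map_algebraMap, eval_map_algebraMap, wr, map_sub, map_mul, map_mul]
    ring
  rw [e1, e2, e3, sub_zero] at h1
  have h2 : aeval z P / aeval z Q - aeval w P / aeval w Q =
      (aeval z P * aeval w Q - aeval z Q * aeval w P) / (aeval z Q * aeval w Q) := by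
    rw [div_sub_div _ _ hQz hQw]
  rw [h2, h1, map_div₀, N_mul, N_mul D (aeval z Q), hx1, hy1, mul_one, div_one]
  refine mul_le_mul_of_nonneg_left ((D.nonarch _ _).trans (max_le_max le_rfl ?_)) (N_nonneg D _)
  rw [N_mul]
  exact mul_le_of_le_one_right (N_nonneg D _) hk

theorem contract_le {R : RP F} (hR : GoodR D R) {x y : OnePoint Ω} (h : Cl D x y) :
    D.N (co D (rv R x) - co D (rv R y)) ≤ D.N (co D x - co D y) :=
  (contract D hR h).trans (mul_le_of_le_one_right (N_nonneg D _) (max_le (cr_le D hR y) h.2.le))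

theorem cl_rv {R : RP F} (hR : GoodR D R) {x y : OnePoint Ω} (h : Cl D x y) : Cl D (rv R x) (rv R y) := by
  obtain ⟨P, Q, -, -, -, h4⟩ := chart_big D hR x
  exact ⟨(h4 y h).2.2.2, (contract_le D hR h).trans_lt h.2⟩

theorem cl_iter {R : RP F} (hR : GoodR D R) {x y : OnePoint Ω} (h : Cl D x y) (n : ℕ) :
    Cl D ((rv R)^[n] x) ((rv R)^[n] y) := by
  induction n with
  | zero => exact h
  | succ n ih =>
    rw [Function.iterate_succ_apply', Function.iterate_succ_apply']
    exact cl_rv D hR ih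

theorem contract_iter {R : RP F} (hR : GoodR D R) {x y : OnePoint Ω} (h : Cl D x y) (n : ℕ) :
    D.N (co D ((rv R)^[n] x) - co D ((rv R)^[n] y)) ≤ D.N (co D x - co D y) := by
  induction n with
  | zero => exact le_rfl
  | succ n ih =>
    rw [Function.iterate_succ_apply', Function.iterate_succ_apply']
    exact (contract_le D hR (cl_iter D hR h n)).trans ih

/-- the derivative at points of the same class -/
theorem cr_one {R : RP F} (hR : GoodR D R) {x y : OnePoint Ω} (h : Cl D x y) (hy : cr D R y = 1) :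
    cr D R x = 1 := by
  rw [sc_cr] at hy ⊢
  rw [sc_cl D R h] at hy
  exact aeval_unit D (sc_gp D hR x).cW (N_co_le D x) (N_co_le D y) h.2 hy

theorem cr_lt {R : RP F} (hR : GoodR D R) {x y : OnePoint Ω} (h : Cl D x y) (hy : cr D R y < 1) :
    cr D R x < 1 := by
  refine lt_of_le_of_ne (cr_le D hR x) fun h1 => ?_
  rw [cr_one D hR h.symm h1] at hy
  exact lt_irrefl _ hy

/-- the derivative at a point of `P^1(M)` is the value of an element of `M` -/
theorem cr_mem (R : RP F) {M : IntermediateField F Ω} {x : OnePoint Ω} (hx : InM M x) :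
    ∃ a ∈ M, cr D R x = D.N a := by
  rw [sc_cr]
  exact ⟨_, aeval_mem M _ ((inM_iff D M x).1 hx), rfl⟩

end basic

end Pool.Agent.ORB.NR
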