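import Pool.Agent.ORB.NAut

/-!
ORB, Theorem B: tame extensions of small degree of the fields `M ⊇ mu` with a discrete value group.
-/

namespace Pool.Agent.ORB.NI

open Polynomial IntermediateField

section alg
variable {F Ω : Type*} [Field F] [Field Ω] [Algebra F Ω] [Algebra.IsAlgebraic F Ω]

/-- elements of a simple extension are polynomials of small degree in the generator -/
theorem mem_simple (M : IntermediateField F Ω) {y x : Ω} (hx : x ∈ adjoin M ({y} : Set Ω)) :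
    ∃ A : M[X], aeval y A = x ∧ A.natDegree < (minpoly M y).natDegree := by
  have halg : IsAlgebraic M y := (Algebra.IsAlgebraic.isAlgebraic (R := F) y).tower_top M
  obtain ⟨P, hP⟩ : ∃ P : M[X], aeval y P = x := by
    have h1 : x ∈ (adjoin M ({y} : Set Ω)).toSubalgebra := hx
    rw [adjoin_simple_toSubalgebra_of_isAlgebraic halg, Algebra.adjoin_singleton_eq_range_aeval] at h1
    obtain ⟨P, hP⟩ := h1
    exact ⟨P, hP⟩
  refine ⟨P %ₘ minpoly M y, ?_, ?_⟩
  · rw [aeval_modByMonic_eq_self_of_root (minpoly.aeval M y), hP]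
  · exact natDegree_modByMonic_lt P (minpoly.monic halg.isIntegral) (minpoly.ne_one M y)

omit [Algebra.IsAlgebraic F Ω] in
/-- a polynomial with coefficients in `M` which kills `z` bounds the degree of `z` -/
theorem minpoly_le (M : IntermediateField F Ω) {G : Polynomial Ω} (hG : ∀ n, G.coeff n ∈ M) (hG0 : G ≠ 0)
    {z : Ω} (hz : G.eval z = 0) : (minpoly M z).natDegree ≤ G.natDegree := by
  have h1 : G ∈ lifts (algebraMap M Ω) := by
    rw [lifts_iff_coeff_lifts]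
    intro n
    exact ⟨⟨G.coeff n, hG n⟩, rfl⟩
  obtain ⟨q, hq⟩ := (mem_lifts G).1 h1
  have hq0 : q ≠ 0 := by
    rintro rfl
    rw [Polynomial.map_zero] at hq
    exact hG0 hq.symm
  have hqz : aeval z q = 0 := by
    rw [aeval_def, ← eval_map, hq, hz]
  have h2 := natDegree_le_of_dvd (minpoly.dvd M z hqz) hq0
  rw [← hq, natDegree_map]
  exact h2

end alg

variable {F Ω : Type*} [Field F] [Field Ω] [Algebra F Ω] [CharZero F] [IsAlgClosed Ω] [Algebra.IsAlgebraic F Ω]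
  (D : LocAbs F Ω)

/-- the mean value of the conjugates is a best approximation, and its distance is not a value of `M` -/
theorem tame_best {M : IntermediateField F Ω} (hM : muS D ⊆ M) {ϖ : Ω} (hϖ0 : ϖ ≠ 0) (hϖ : ϖ ∈ M)
    (hv : ∀ x ∈ M, x ≠ 0 → Pw D ϖ x) {z : Ω} (hz : z ∉ M)
    (hn : D.N ((minpoly M z).natDegree : Ω) = 1) :
    ∃ c ∈ M, (∃ k : ℤ, D.N (z - c) ^ (minpoly M z).natDegree = D.N ϖ ^ k) ∧ ¬ Pw D ϖ (z - c) := by
  classical
  have halgM : Algebra.IsAlgebraic M Ω := Algebra.IsAlgebraic.tower_top (K := F) M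
  have hint : IsIntegral M z := (Algebra.IsAlgebraic.isAlgebraic (R := M) z).isIntegral
  set P := minpoly M z with hP
  set n := P.natDegree with hnd
  have hPm : P.Monic := minpoly.monic hint
  have hn0 : n ≠ 0 := by
    intro h
    rw [h] at hn
    simp at hn
  set P' : Polynomial Ω := P.map (algebraMap M Ω) with hP'
  have hP'm : P'.Monic := hPm.map _
  have hspl : P'.Splits := IsAlgClosed.splits _
  have hcard : P'.roots.card = n := by
    rw [← hspl.natDegree_eq_card_roots, hP', natDegree_map]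
  -- all roots have the same distance from the elements of `M`
  have hconj : ∀ r ∈ P'.roots, ∀ c ∈ M, D.N (r - c) = D.N (z - c) := by
    intro r hr c hc
    have hr' : aeval r P = 0 := by
      have := isRoot_of_mem_roots hr
      rw [IsRoot.def, hP', eval_map] at this
      exact this
    have hcl : IsAlgClosure M Ω := ⟨inferInstance, inferInstance⟩
    have hnor : Normal M Ω := IsAlgClosure.normal _ _
    obtain ⟨σ, hσ⟩ := minpoly.exists_algEquiv_of_root' (K := M) (L := Ω) (x := r) (y := z)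
      hint.isAlgebraic hr'
    have h1 : r - c = (σ.restrictScalars F) (z - c) := by
      rw [map_sub]
      have h2 : (σ.restrictScalars F) c = c := σ.commutes ⟨c, hc⟩
      have h3 : (σ.restrictScalars F) z = r := hσ
      rw [h2, h3]
    rw [h1, D.inv]
  have hcz : CharZero Ω := charZero_of_injective_algebraMap (algebraMap F Ω).injective
  have hnΩ : (n : Ω) ≠ 0 := by exact_mod_cast hn0
  set c₀ : Ω := P'.roots.sum / n with hc₀
  have hsumM : P'.roots.sum ∈ M := by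
    have h1 := hspl.nextCoeff_eq_neg_sum_roots_of_monic hP'm
    have h2 : P'.nextCoeff ∈ M := by
      rw [hP', nextCoeff_map (algebraMap M Ω).injective]
      exact (P.nextCoeff).2
    have h3 : P'.roots.sum = -P'.nextCoeff := by rw [h1, neg_neg]
    rw [h3]
    exact neg_mem h2
  have hnM : (n : Ω) ∈ M := _root_.natCast_mem M n
  have hc₀M : c₀ ∈ M := div_mem hsumM hnM
  -- best approximation
  have hbest : ∀ c ∈ M, D.N (c₀ - c) ≤ D.N (z - c) := by
    intro c hc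
    have h1 : c₀ - c = (P'.roots.map fun r => r - c).sum / n := by
      rw [Multiset.sum_map_sub, Multiset.map_id', Multiset.map_const', Multiset.sum_replicate, hcard, hc₀,
        nsmul_eq_mul, sub_div, mul_div_cancel_left₀ _ hnΩ]
    have h2 : ∀ s : Multiset Ω, (∀ r ∈ s, D.N (r - c) = D.N (z - c)) →
        D.N ((s.map fun r => r - c).sum) ≤ D.N (z - c) := by
      intro s
      induction s using Multiset.induction_on with
      | empty =>
        intro _
        rw [Multiset.map_zero, Multiset.sum_zero, map_zero]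
        exact D.N.nonneg _
      | cons a s ih =>
        intro hs
        rw [Multiset.map_cons, Multiset.sum_cons]
        refine (D.nonarch _ _).trans (max_le ?_ ?_)
        · exact (hs a (Multiset.mem_cons_self a s)).le
        · exact ih fun r hr => hs r (Multiset.mem_cons_of_mem hr)
    rw [h1, map_div₀, hn, div_one]
    exact h2 _ fun r hr => hconj r hr c hc
  refine ⟨c₀, hc₀M, ?_, ?_⟩
  · -- the norm of `z - c₀`
    have h1 : P'.eval c₀ = (P'.roots.map fun r => c₀ - r).prod := by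
      have := hspl.eval_eq_prod_roots c₀
      rwa [hP'm.leadingCoeff, one_mul] at this
    have h2 : ∀ s : Multiset Ω, (∀ r ∈ s, D.N (r - c₀) = D.N (z - c₀)) →
        D.N ((s.map fun r => c₀ - r).prod) = D.N (z - c₀) ^ s.card := by
      intro s
      induction s using Multiset.induction_on with
      | empty =>
        intro _
        rw [Multiset.map_zero, Multiset.prod_zero, map_one, Multiset.card_zero, pow_zero]
      | cons a s ih =>
        intro hs
        rw [Multiset.map_cons, Multiset.prod_cons, map_mul, ih fun r hr => hs r (Multiset.mem_cons_of_mem hr),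
          D.N.map_sub, hs a (Multiset.mem_cons_self a s), Multiset.card_cons, pow_succ, mul_comm]
    have h3 := h2 P'.roots fun r hr => hconj r hr c₀ hc₀M
    rw [← h1, hcard] at h3
    have h4 : P'.eval c₀ ∈ M := by
      have h5 : P'.eval c₀ = ((P.eval ⟨c₀, hc₀M⟩ : M) : Ω) := by
        rw [hP', eval_map]
        exact eval₂_at_apply (algebraMap M Ω) (⟨c₀, hc₀M⟩ : M)
      rw [h5]
      exact (P.eval _).2
    have h6 : P'.eval c₀ ≠ 0 := by
      intro h7
      rw [h7, map_zero] at h3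
      have h8 : D.N (z - c₀) = 0 := (pow_eq_zero_iff hn0).1 h3.symm
      have h9 : z = c₀ := sub_eq_zero.1 (D.N.eq_zero.1 h8)
      exact hz (h9 ▸ hc₀M)
    obtain ⟨k, hk⟩ := hv _ h4 h6
    exact ⟨k, by rw [← h3, hk]⟩
  · rintro ⟨k, hk⟩
    have hϖk : ϖ ^ k ≠ 0 := zpow_ne_zero k hϖ0
    have hϖkM : ϖ ^ k ∈ M := zpow_mem hϖ k
    have hpos : 0 < D.N ϖ ^ k := by rw [← map_zpow₀]; exact D.N.pos hϖk
    obtain ⟨ζ, hζ, hlt⟩ := exists_mu D ((z - c₀) / ϖ ^ k) (by
      rw [map_div₀, hk, map_zpow₀]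
      exact div_self hpos.ne')
    have hζM : ζ ∈ M := hM hζ
    have h1 : D.N (z - (c₀ + ζ * ϖ ^ k)) < D.N (z - c₀) := by
      have h2 : z - (c₀ + ζ * ϖ ^ k) = ((z - c₀) / ϖ ^ k - ζ) * ϖ ^ k := by
        rw [sub_mul, div_mul_cancel₀ _ hϖk]
        ring
      rw [h2, map_mul, map_zpow₀, hk]
      calc D.N ((z - c₀) / ϖ ^ k - ζ) * D.N ϖ ^ k < 1 * D.N ϖ ^ k := mul_lt_mul_of_pos_right hlt hpos
        _ = D.N ϖ ^ k := one_mul _
    have hc' : c₀ + ζ * ϖ ^ k ∈ M := add_mem hc₀M (mul_mem hζM hϖkM)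
    have h3 := hbest _ hc'
    have h4 : D.N (z - c₀) ≤ max (D.N (z - (c₀ + ζ * ϖ ^ k))) (D.N ((c₀ + ζ * ϖ ^ k) - c₀)) :=
      N_sub_trans D z (c₀ + ζ * ϖ ^ k) c₀
    rw [D.N.map_sub (c₀ + ζ * ϖ ^ k) c₀] at h4
    have h5 := h4.trans (max_le le_rfl h3)
    linarith

/-- **T1**: an element `z ∉ M` of degree at most `d` over `M` -/
theorem tame_exit {M : IntermediateField F Ω} (hM : muS D ⊆ M) {ϖ : Ω} (hϖ0 : ϖ ≠ 0) (hϖ : ϖ ∈ M)
    (hv : ∀ x ∈ M, x ≠ 0 → Pw D ϖ x) {d : ℕ} (ht : ∀ n : ℕ, 1 ≤ n → n ≤ d → D.N (n : Ω) = 1)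
    {G : Polynomial Ω} (hG : ∀ n, G.coeff n ∈ M) (hG0 : G ≠ 0) (hd : G.natDegree ≤ d) {z : Ω}
    (hz : G.eval z = 0) (hzM : z ∉ M) :
    ∃ c ∈ M, ∃ e : ℕ, 1 ≤ e ∧ e ≤ d ∧ (∃ k : ℤ, D.N (z - c) ^ e = D.N ϖ ^ k) ∧ ¬ Pw D ϖ (z - c) := by
  have halgM : Algebra.IsAlgebraic M Ω := Algebra.IsAlgebraic.tower_top (K := F) M
  have hint : IsIntegral M z := (Algebra.IsAlgebraic.isAlgebraic (R := M) z).isIntegral
  have h1 := minpoly.natDegree_pos hint
  have h2 := (minpoly_le M hG hG0 hz).trans hd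
  obtain ⟨c, hc, hk, hnk⟩ := tame_best D hM hϖ0 hϖ hv hzM (ht _ h1 h2)
  exact ⟨c, hc, _, h1, h2, hk, hnk⟩

/-! ### the ascent -/

omit [CharZero F] [IsAlgClosed Ω] in
open Val in
/-- the values of `M(w)`, `w ^ e = ϖ`, are the powers of the value of `w` -/
theorem value_root {M : IntermediateField F Ω} {ϖ : Ω} (hϖ0 : ϖ ≠ 0) (hϖ1 : D.N ϖ < 1) (hϖM : ϖ ∈ M)
    (hv : ∀ y ∈ M, y ≠ 0 → Pw D ϖ y) {w : Ω} {m : ℕ} (hm : 1 ≤ m) (hw : w ^ m = ϖ) {x : Ω}
    (hxE : x ∈ adjoin M ({w} : Set Ω)) (h0 : x ≠ 0) : Pw D w x := by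
  classical
  have hw0 : w ≠ 0 := by
    rintro rfl
    rw [zero_pow (by omega)] at hw
    exact hϖ0 hw.symm
  have hNw0 : 0 < D.N w := D.N.pos hw0
  have hNϖ : D.N ϖ = D.N w ^ m := by rw [← hw, map_pow]
  have hNw1 : D.N w < 1 := by
    by_contra hcon
    push Not at hcon
    have := one_le_pow₀ (n := m) hcon
    rw [← hNϖ] at this
    exact absurd hϖ1 (not_lt.2 this)
  -- a polynomial in `w` of degree `< m`
  have halgE : IsAlgebraic M w := (Algebra.IsAlgebraic.isAlgebraic (R := F) w).tower_top M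
  obtain ⟨P, hP⟩ : ∃ P : M[X], aeval w P = x := by
    have h1 : x ∈ (adjoin M ({w} : Set Ω)).toSubalgebra := hxE
    rw [adjoin_simple_toSubalgebra_of_isAlgebraic halgE, Algebra.adjoin_singleton_eq_range_aeval] at h1
    obtain ⟨P, hP⟩ := h1
    exact ⟨P, hP⟩
  set q : M[X] := X ^ m - C (⟨ϖ, hϖM⟩ : M) with hq
  have hqm : q.Monic := monic_X_pow_sub_C _ (by omega)
  have hqd : q.natDegree = m := natDegree_X_pow_sub_C
  have hq0 : aeval w q = 0 := by
    rw [hq, map_sub, map_pow, aeval_X, aeval_C]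
    have h1 : algebraMap M Ω (⟨ϖ, hϖM⟩ : M) = ϖ := rfl
    rw [h1, hw, sub_self]
  set A := P %ₘ q with hA
  have hAx : aeval w A = x := by
    rw [hA, aeval_modByMonic_eq_self_of_root hq0, hP]
  have hAdeg : A.natDegree < m := by
    rw [← hqd]
    exact natDegree_modByMonic_lt P hqm (by
      intro h1
      rw [h1, natDegree_one] at hqd
      omega)
  have hsum : x = ∑ i ∈ Finset.range m, (A.coeff i : Ω) * w ^ i := by
    rw [← hAx, aeval_eq_sum_range' hAdeg]
    exact Finset.sum_congr rfl fun i _ => Algebra.smul_def _ _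
  set s := (Finset.range m).filter fun i => A.coeff i ≠ 0 with hs
  have hsum' : x = ∑ i ∈ s, (A.coeff i : Ω) * w ^ i := by
    rw [hsum, hs, Finset.sum_filter]
    refine Finset.sum_congr rfl fun i _ => ?_
    split_ifs with h1
    · rfl
    · rw [not_not.1 h1]
      simp
  have hsne : s.Nonempty := by
    rw [Finset.nonempty_iff_ne_empty]
    intro h1
    rw [h1, Finset.sum_empty] at hsum'
    exact h0 hsum'
  have hval : ∀ i ∈ s, ∃ k : ℤ, D.N ((A.coeff i : Ω) * w ^ i) =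
      D.N w ^ ((m : ℤ) * k + i) := by
    intro i hi
    have hne : (A.coeff i : Ω) ≠ 0 := fun h1 => (Finset.mem_filter.1 hi).2 (Subtype.ext h1)
    obtain ⟨k, hk⟩ := hv (A.coeff i : Ω) (A.coeff i).2 hne
    refine ⟨k, ?_⟩
    rw [map_mul, hk, hNϖ, map_pow, zpow_add₀ hNw0.ne', zpow_mul, zpow_natCast, zpow_natCast]
  choose! κ hκ using hval
  obtain ⟨i, hi, hxi⟩ := exists_eq_of_sum D s (fun i => (A.coeff i : Ω) * w ^ i) hsne
    (by
      intro i hi j hj hij h1
      rw [hκ i hi, hκ j hj] at h1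
      have h2 := zpow_right_injective₀ hNw0 hNw1.ne h1
      have hi' := Finset.mem_range.1 (Finset.mem_filter.1 hi).1
      have hj' := Finset.mem_range.1 (Finset.mem_filter.1 hj).1
      have h3 : ((m : ℤ) * κ i + i) % m = ((m : ℤ) * κ j + j) % m := by
        have h4 : (m : ℤ) * κ i + i = (m : ℤ) * κ j + j := h2
        rw [h4]
      rw [Int.mul_add_emod_self_left, Int.mul_add_emod_self_left,
        Int.emod_eq_of_lt (by omega) (by omega), Int.emod_eq_of_lt (by omega) (by omega)] at h3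
      exact hij (by exact_mod_cast h3))
  rw [← hsum', hκ i hi] at hxi
  exact ⟨_, hxi⟩

omit [CharZero F] [Algebra.IsAlgebraic F Ω] in
/-- roots of tame roots of unity -/
theorem muS_root {ζ : Ω} (hζ : ζ ∈ muS D) {e : ℕ} (he : 1 ≤ e) (heN : D.N (e : Ω) = 1) :
    ∃ η ∈ muS D, η ^ e = ζ := by
  obtain ⟨n, hn, hζn, hnN⟩ := hζ
  obtain ⟨η, hη⟩ := IsAlgClosed.exists_pow_nat_eq ζ (by omega : 0 < e)
  refine ⟨η, ⟨e * n, Nat.mul_pos he hn, ?_, ?_⟩, hη⟩
  · rw [pow_mul, hη, hζn]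
  · rw [Nat.cast_mul, map_mul, heN, hnN, one_mul]

/-- tame roots of one-units -/
theorem unit_root {L : IntermediateField F Ω} (hL : muS D ⊆ L) {y : Ω} (hy : y ∈ L)
    (h1 : D.N (y - 1) < 1) {e : ℕ} (he : 1 ≤ e) (heN : D.N (e : Ω) = 1) :
    ∃ ξ ∈ L, ξ ^ e = y ∧ D.N ξ = 1 := by
  set P : Polynomial Ω := X ^ e - C y with hP
  have hmon : P.Monic := monic_X_pow_sub_C _ (by omega)
  have hev : P.eval 1 = 1 - y := by
    rw [hP, eval_sub, eval_pow, eval_X, eval_C, one_pow]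
  obtain ⟨ξ, hξ, hlt⟩ := exists_root_close D P (IsAlgClosed.splits P) hmon (x := 1) (by
    rw [hev, N_symm]
    exact h1)
  have hξe : ξ ^ e = y := by
    have := (mem_roots'.1 hξ).2
    rw [IsRoot.def, hP, eval_sub, eval_pow, eval_X, eval_C] at this
    exact sub_eq_zero.1 this
  have hNξ : D.N ξ = 1 := by
    rw [N_eq_of_close D (x := ξ) (y := 1) (by rw [N_symm, N_one]; exact hlt), N_one]
  refine ⟨ξ, ?_, hξe, hNξ⟩
  refine rigid D hL (X ^ e) ?_ ?_ hNξ.le ?_ ?_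
  · intro n
    rw [coeff_X_pow]
    split_ifs
    · exact one_mem L
    · exact zero_mem L
  · intro n
    rw [coeff_X_pow]
    split_ifs
    · exact (N_one D).le
    · rw [N_zero]
      exact zero_le_one
  · rw [eval_pow, eval_X, hξe]
    exact hy
  · rw [derivative_X_pow, eval_mul, eval_C, eval_pow, eval_X, N_mul, N_pow, hNξ, one_pow, heN, one_mul]

/-- an element with a new value gives a root of `ϖ` -/
theorem root_mem {L : IntermediateField F Ω} (hL : muS D ⊆ L) {ϖ : Ω} (hϖ0 : ϖ ≠ 0)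
    (hϖ : ϖ ∈ L) {z : Ω} (hz : z ∈ L) {n : ℕ} (hn : 1 ≤ n) (hnN : D.N (n : Ω) = 1) {k : ℤ}
    (hk : D.N z ^ n = D.N ϖ ^ k) (hnp : ¬ Pw D ϖ z) : ∃ e : ℕ, 2 ≤ e ∧ e ∣ n ∧ ∃ w ∈ L, w ^ e = ϖ := by
  classical
  have hNϖ : 0 < D.N ϖ := N_pos D hϖ0
  have hz0 : z ≠ 0 := by
    rintro rfl
    rw [N_zero, zero_pow (by omega)] at hk
    exact (zpow_pos hNϖ k).ne hk
  have hNz : 0 < D.N z := N_pos D hz0
  -- the order of the value
  have hex : ∃ e : ℕ, 1 ≤ e ∧ ∃ j : ℤ, D.N z ^ e = D.N ϖ ^ j := ⟨n, hn, k, hk⟩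
  set e := Nat.find hex with hedef
  obtain ⟨he1, j, hj⟩ := Nat.find_spec hex
  have hmin : ∀ m : ℕ, 1 ≤ m → (∃ j : ℤ, D.N z ^ m = D.N ϖ ^ j) → e ≤ m := fun m h1 h2 =>
    Nat.find_min' hex ⟨h1, h2⟩
  rw [← hedef] at he1 hj
  have he2 : 2 ≤ e := by
    by_contra hcon
    have h1 : e = 1 := by omega
    rw [h1, pow_one] at hj
    exact hnp ⟨j, hj⟩
  have hdvd : e ∣ n := by
    rw [Nat.dvd_iff_mod_eq_zero]
    by_contra hne
    have h1 : e * (n / e) + n % e = n := Nat.div_add_mod n e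
    have h2 : D.N z ^ (n % e) = D.N ϖ ^ (k - j * (n / e : ℕ)) := by
      have h3 : D.N z ^ n = (D.N z ^ e) ^ (n / e) * D.N z ^ (n % e) := by
        rw [← pow_mul, ← pow_add, h1]
      rw [hk, hj, ← zpow_natCast (D.N ϖ ^ j), ← zpow_mul] at h3
      rw [zpow_sub₀ hNϖ.ne', h3, mul_div_cancel_left₀ _ (zpow_pos hNϖ _).ne']
    have h4 := hmin (n % e) (Nat.one_le_iff_ne_zero.2 hne) ⟨_, h2⟩
    have h5 := Nat.mod_lt n (by omega : e > 0)
    omega
  have heN : D.N (e : Ω) = 1 := Val.dvd_one D hdvd hnN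
  -- the exponents are coprime
  have hcop : IsCoprime j (e : ℤ) := by
    rw [Int.isCoprime_iff_gcd_eq_one]
    have hg0 : 0 < Int.gcd j e := Int.gcd_pos_of_ne_zero_right j (by exact_mod_cast (by omega : e ≠ 0))
    obtain ⟨a, ha⟩ : ((Int.gcd j e : ℕ) : ℤ) ∣ j := Int.gcd_dvd_left ..
    obtain ⟨b, hb⟩ : Int.gcd j e ∣ e := by
      have : ((Int.gcd j e : ℕ) : ℤ) ∣ (e : ℤ) := Int.gcd_dvd_right ..
      exact_mod_cast this
    generalize Int.gcd j e = g at *
    have hb1 : 1 ≤ b := by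
      rcases Nat.eq_zero_or_pos b with h | h
      · rw [h, mul_zero] at hb
        omega
      · exact h
    have h1 : (D.N z ^ b) ^ g = (D.N ϖ ^ a) ^ g := by
      rw [← pow_mul, mul_comm b g, ← hb, hj, ← zpow_natCast (D.N ϖ ^ a), ← zpow_mul, ha, mul_comm]
    have h2 : D.N z ^ b = D.N ϖ ^ a :=
      (pow_left_inj₀ (pow_pos hNz b).le (zpow_pos hNϖ a).le (by omega)).1 h1
    have h3 := hmin b hb1 ⟨a, h2⟩
    by_contra hg
    have hg2 : 2 ≤ g := by omega
    have : b < e := by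
      rw [hb]
      nlinarith
    omega
  obtain ⟨a, b, hab⟩ := hcop
  have hϖj : ϖ ^ j ≠ 0 := zpow_ne_zero j hϖ0
  have hϖjL : ϖ ^ j ∈ L := zpow_mem hϖ j
  set u : Ω := z ^ e / ϖ ^ j with hu
  have huN : D.N u = 1 := by
    rw [hu, map_div₀, map_pow, map_zpow₀, hj, div_self (zpow_pos hNϖ j).ne']
  obtain ⟨ζ, hζ, hζlt⟩ := exists_mu D u huN
  have hNζ : D.N ζ = 1 := by
    obtain ⟨m, hm, hζm, -⟩ := hζ
    exact Val.root_one D hm hζm
  have hζ0 : ζ ≠ 0 := ne_zero_of_N D (by rw [hNζ]; exact one_ne_zero)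
  have huL : u ∈ L := div_mem (pow_mem hz e) hϖjL
  obtain ⟨ξ, hξL, hξe, hNξ⟩ := unit_root D hL (y := u / ζ) (div_mem huL (hL hζ)) (by
    have h1 : u / ζ - 1 = (u - ζ) / ζ := by rw [sub_div, div_self hζ0]
    rw [h1, map_div₀, hNζ, div_one]
    exact hζlt) he1 heN
  have hξ0 : ξ ≠ 0 := ne_zero_of_N D (by rw [hNξ]; exact one_ne_zero)
  obtain ⟨η, hη, hηe⟩ := muS_root D hζ he1 heN
  have hη0 : η ≠ 0 := by
    rintro rfl
    rw [zero_pow (by omega)] at hηe
    exact hζ0 hηe.symm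
  have hroot : (z / ξ / η) ^ e = ϖ ^ j := by
    rw [div_pow, div_pow, hξe, hηe, hu]
    field_simp
  refine ⟨e, he2, hdvd, (z / ξ / η) ^ a * ϖ ^ b, ?_, ?_⟩
  · exact mul_mem (zpow_mem (div_mem (div_mem hz hξL) (hL hη)) a) (zpow_mem hϖ b)
  · rw [mul_pow, ← zpow_natCast ((z / ξ / η) ^ a), ← zpow_mul, mul_comm a (e : ℤ), zpow_mul, zpow_natCast, hroot,
      ← zpow_mul, ← zpow_natCast (ϖ ^ b), ← zpow_mul, ← zpow_add₀ hϖ0, mul_comm j a, hab, zpow_one]

omit [CharZero F] [IsAlgClosed Ω] [Algebra.IsAlgebraic F Ω] in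
theorem factorial_unit {N : ℕ} (h : ∀ k : ℕ, 1 ≤ k → k ≤ N → D.N (k : Ω) = 1) :
    D.N ((N.factorial : ℕ) : Ω) = 1 := by
  induction N with
  | zero => rw [Nat.factorial_zero, Nat.cast_one, N_one]
  | succ N ih =>
    rw [Nat.factorial_succ, Nat.cast_mul, N_mul, h (N + 1) (by omega) le_rfl,
      ih fun k h1 h2 => h k h1 (by omega), one_mul]

theorem tame_up_aux (N : ℕ) : ∀ (M : IntermediateField F Ω) (ϖ : Ω), muS D ⊆ M → ϖ ≠ 0 → D.N ϖ < 1 → ϖ ∈ M →
    (∀ x ∈ M, x ≠ 0 → Pw D ϖ x) → ∀ z : Ω, (minpoly M z).natDegree ≤ N →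
    (∀ k : ℕ, 1 ≤ k → k ≤ N → D.N (k : Ω) = 1) → ∀ M' : IntermediateField F Ω, M ≤ M' →
    ∀ w' ∈ M', w' ^ N.factorial = ϖ → z ∈ M' := by
  classical
  induction N with
  | zero =>
    intro M ϖ _ _ _ _ _ z hz
    have halgM : Algebra.IsAlgebraic M Ω := Algebra.IsAlgebraic.tower_top (K := F) M
    have hint : IsIntegral M z := (Algebra.IsAlgebraic.isAlgebraic (R := M) z).isIntegral
    have := minpoly.natDegree_pos hint
    omega
  | succ N ih =>
    intro M ϖ hM hϖ0 hϖ1 hϖ hv z hz hk M' hMM' w' hw' hw'e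
    by_cases hzM : z ∈ M
    · exact hMM' hzM
    have hkN : ∀ k : ℕ, 1 ≤ k → k ≤ N → D.N (k : Ω) = 1 := fun k h1 h2 => hk k h1 (by omega)
    by_cases hzN : (minpoly M z).natDegree ≤ N
    · refine ih M ϖ hM hϖ0 hϖ1 hϖ hv z hzN hkN M' hMM' (w' ^ (N + 1)) (pow_mem hw' _) ?_
      rw [← pow_mul, ← Nat.factorial_succ, hw'e]
    have hn : (minpoly M z).natDegree = N + 1 := by omega
    have hnN : D.N ((N + 1 : ℕ) : Ω) = 1 := hk (N + 1) (by omega) le_rfl
    obtain ⟨c, hc, ⟨k, hck⟩, hnp⟩ := tame_best D hM hϖ0 hϖ hv hzM (by rw [hn]; exact hnN)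
    rw [hn] at hck
    set L : IntermediateField F Ω := (adjoin M ({z} : Set Ω)).restrictScalars F with hL
    have hML : M ≤ L := by
      intro x hx
      exact (adjoin M ({z} : Set Ω)).algebraMap_mem ⟨x, hx⟩
    have hzL : z ∈ L := subset_adjoin M _ (Set.mem_singleton z)
    obtain ⟨e, he2, hen, w, hwL, hwe⟩ := root_mem D (fun x hx => hML (hM hx)) hϖ0 (hML hϖ)
      (sub_mem hzL (hML hc)) (by omega : 1 ≤ N + 1) hnN hck hnp
    have he1 : 1 ≤ e := by omega
    have heN : D.N (e : Ω) = 1 := Val.dvd_one D hen hnN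
    have hw0 : w ≠ 0 := by
      rintro rfl
      rw [zero_pow (by omega)] at hwe
      exact hϖ0 hwe.symm
    have hNw0 : 0 < D.N w := D.N.pos hw0
    have hNϖ : D.N ϖ = D.N w ^ e := by rw [← hwe, map_pow]
    have hNw1 : D.N w < 1 := by
      by_contra hcon
      push Not at hcon
      have := one_le_pow₀ (n := e) hcon
      rw [← hNϖ] at this
      exact absurd hϖ1 (not_lt.2 this)
    have hwM : w ∉ M := by
      intro hwM
      obtain ⟨l, hl⟩ := hv w hwM hw0
      rw [hNϖ, ← zpow_natCast, ← zpow_mul] at hl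
      have h1 : D.N w ^ (1 : ℤ) = D.N w ^ ((e : ℤ) * l) := by rw [zpow_one]; exact hl
      have h2 : (1 : ℤ) = (e : ℤ) * l := zpow_right_injective₀ hNw0 hNw1.ne h1
      have h3 : (e : ℤ) ∣ 1 := ⟨l, h2⟩
      have h4 := Int.le_of_dvd one_pos h3
      omega
    set M₁ : IntermediateField F Ω := (adjoin M ({w} : Set Ω)).restrictScalars F with hM₁
    have hMM₁ : M ≤ M₁ := by
      intro x hx
      exact (adjoin M ({w} : Set Ω)).algebraMap_mem ⟨x, hx⟩
    have hwM₁ : w ∈ M₁ := subset_adjoin M _ (Set.mem_singleton w)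
    have hv₁ : ∀ x ∈ M₁, x ≠ 0 → Pw D w x := fun x hx h0 =>
      value_root D hϖ0 hϖ1 hϖ hv he1 hwe hx h0
    -- the degree drops
    obtain ⟨A, hA, hAdeg⟩ := mem_simple M (y := z) (x := w) hwL
    rw [hn] at hAdeg
    have hdeg : (minpoly M₁ z).natDegree ≤ N := by
      refine (minpoly_le M₁ (G := A.map (algebraMap M Ω) - C w) ?_ ?_ ?_).trans ?_
      · intro n
        rw [coeff_sub, coeff_map, coeff_C]
        refine sub_mem (hMM₁ (A.coeff n).2) ?_
        split_ifs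
        · exact hwM₁
        · exact zero_mem M₁
      · intro h1
        have h2 := congrArg (fun g => g.coeff 0) (sub_eq_zero.1 h1)
        simp only [coeff_map, coeff_C_zero] at h2
        exact hwM (h2 ▸ (A.coeff 0).2)
      · rw [eval_sub, eval_C, eval_map_algebraMap, hA, sub_self]
      · refine (natDegree_sub_le _ _).trans (max_le ?_ ?_)
        · rw [natDegree_map]
          omega
        · rw [natDegree_C]
          omega
    -- a root of `w` in `M'`
    obtain ⟨m, hm⟩ := hen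
    have h1 : ((w' ^ m) ^ N.factorial) ^ e = w ^ e := by
      rw [← pow_mul, ← pow_mul, hwe, ← hw'e, Nat.factorial_succ, hm]
      congr 1
      ring
    have hNfac : D.N ((N.factorial : ℕ) : Ω) = 1 := factorial_unit D hkN
    have hτ0 : (w' ^ m) ^ N.factorial ≠ 0 := by
      intro h2
      rw [h2, zero_pow (by omega)] at h1
      exact pow_ne_zero e hw0 h1.symm
    set η : Ω := w / (w' ^ m) ^ N.factorial with hη
    have hηe : η ^ e = 1 := by
      rw [hη, div_pow, h1, div_self (pow_ne_zero e hw0)]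
    have hηmu : η ∈ muS D := ⟨e, he1, hηe, heN⟩
    have hwη : w = η * (w' ^ m) ^ N.factorial := by
      rw [hη, div_mul_cancel₀ _ hτ0]
    obtain ⟨η', hη', hη'e⟩ := muS_root D hηmu (Nat.factorial_pos N) hNfac
    have hmuM' : muS D ⊆ M' := fun x hx => hMM' (hM hx)
    have hwM' : w ∈ M' := by
      rw [hwη]
      exact mul_mem (hmuM' hηmu) (pow_mem (pow_mem hw' _) _)
    have hM₁M' : M₁ ≤ M' := by
      have h2 : adjoin M ({w} : Set Ω) ≤ extendScalars hMM' := by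
        rw [adjoin_le_iff, Set.singleton_subset_iff]
        exact hwM'
      intro x hx
      exact h2 hx
    refine ih M₁ w (fun x hx => hMM₁ (hM hx)) hw0 hNw1 hwM₁ hv₁ z hdeg hkN M' hM₁M' (η' * w' ^ m)
      (mul_mem (hmuM' hη') (pow_mem hw' m)) ?_
    rw [mul_pow, hη'e, ← hwη]

/-- **T2**: an element of degree at most `d` over `M` lies in `M(ϖ')`, `ϖ' ^ E = ϖ`, `d! ∣ E` -/
theorem tame_up {M : IntermediateField F Ω} (hM : muS D ⊆ M) {ϖ : Ω} (hϖ0 : ϖ ≠ 0) (hϖ1 : D.N ϖ < 1)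
    (hϖ : ϖ ∈ M) (hv : ∀ x ∈ M, x ≠ 0 → Pw D ϖ x) {d : ℕ} (ht : ∀ n : ℕ, 1 ≤ n → n ≤ d → D.N (n : Ω) = 1)
    {G : Polynomial Ω} (hG : ∀ n, G.coeff n ∈ M) (hG0 : G ≠ 0) (hd : G.natDegree ≤ d) {z : Ω}
    (hz : G.eval z = 0) {M' : IntermediateField F Ω} (hMM' : M ≤ M') {ϖ' : Ω} (hϖ' : ϖ' ∈ M') {E : ℕ}
    (hE : d.factorial ∣ E) (hϖE : ϖ' ^ E = ϖ) : z ∈ M' := by
  obtain ⟨m, hm⟩ := hE
  refine tame_up_aux D d M ϖ hM hϖ0 hϖ1 hϖ hv z ((minpoly_le M hG hG0 hz).trans hd) ht M' hMM' (ϖ' ^ m)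
    (pow_mem hϖ' m) ?_
  rw [← pow_mul, mul_comm m, ← hm, hϖE]

end Pool.Agent.ORB.NI
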