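import Pool.Agent.ORB.NRBasic
import Pool.Agent.ORB.NTame

/-!
ORB, Theorem B for rational functions, row RB: the preimages of a point of `M` in a chart.
-/

namespace Pool.Agent.ORB.NR

open Polynomial IntermediateField Pool.Agent.ORB.NI

theorem wr_map {F Ω : Type*} [Field F] [Field Ω] [Algebra F Ω] (P Q : F[X]) : (wr P Q).map (algebraMap F Ω) =
    (P.map (algebraMap F Ω)).derivative * (Q.map (algebraMap F Ω)) -
      (P.map (algebraMap F Ω)) * (Q.map (algebraMap F Ω)).derivative := by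
  rw [wr, Polynomial.map_sub, Polynomial.map_mul, Polynomial.map_mul, derivative_map, derivative_map]

section loc
variable {F Ω : Type*} [Field F] [Field Ω] [Algebra F Ω] [CharZero F] [IsAlgClosed Ω] [Algebra.IsAlgebraic F Ω]
  (D : LocAbs F Ω)

/-- the polynomial `P - y Q` -/
noncomputable def pq (P Q : F[X]) (y : Ω) : Polynomial Ω := P.map (algebraMap F Ω) - C y * Q.map (algebraMap F Ω)

omit [CharZero F] [IsAlgClosed Ω] [Algebra.IsAlgebraic F Ω] in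
theorem pq_mem (P Q : F[X]) {M : IntermediateField F Ω} {y : Ω} (hy : y ∈ M) (n : ℕ) : (pq P Q y).coeff n ∈ M := by
  rw [pq, coeff_sub, coeff_C_mul, coeff_map, coeff_map]
  exact sub_mem (M.algebraMap_mem _) (mul_mem hy (M.algebraMap_mem _))

omit [CharZero F] [IsAlgClosed Ω] [Algebra.IsAlgebraic F Ω] in
theorem pq_eval (P Q : F[X]) (y z : Ω) : (pq P Q y).eval z = aeval z P - y * aeval z Q := by
  rw [pq, eval_sub, eval_mul, eval_C, eval_map_algebraMap, eval_map_algebraMap]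

omit [CharZero F] [IsAlgClosed Ω] [Algebra.IsAlgebraic F Ω] in
theorem pq_wr (P Q : F[X]) (y : Ω) : (wr P Q).map (algebraMap F Ω) =
    derivative (pq P Q y) * Q.map (algebraMap F Ω) - pq P Q y * derivative (Q.map (algebraMap F Ω)) := by
  rw [wr_map, pq, derivative_sub, derivative_C_mul]
  ring

omit [CharZero F] [IsAlgClosed Ω] [Algebra.IsAlgebraic F Ω] in
theorem pq_ne {P Q : F[X]} (hG : GP D P Q) (y : Ω) : pq P Q y ≠ 0 := by
  intro h
  have h1 := pq_wr P Q y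
  rw [h, derivative_zero, zero_mul, zero_mul, sub_zero] at h1
  obtain ⟨n, hn⟩ := hG.wunit
  rw [← coeff_map, h1, coeff_zero, N_zero] at hn
  exact zero_ne_one hn

omit [CharZero F] [IsAlgClosed Ω] [Algebra.IsAlgebraic F Ω] in
theorem pq_deg {P Q : F[X]} {d : ℕ} (hP : P.natDegree ≤ d) (hQ : Q.natDegree ≤ d) (y : Ω) :
    (pq P Q y).natDegree ≤ d := by
  refine (natDegree_sub_le _ _).trans (max_le ?_ ?_)
  · rw [natDegree_map]
    exact hP
  · refine (natDegree_C_mul_le _ _).trans ?_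
    rw [natDegree_map]
    exact hQ

theorem chart_unit {P Q : F[X]} (hG : GP D P Q) {M : IntermediateField F Ω} (hM : muS D ⊆ M) {z : Ω}
    (hz : D.N z ≤ 1) (hQ : D.N (aeval z Q) = 1) (hy : aeval z P / aeval z Q ∈ M)
    (hW : D.N (aeval z (wr P Q)) = 1) : z ∈ M := by
  have hQ0 : aeval z Q ≠ 0 := ne_zero_of_N D (by rw [hQ]; exact one_ne_zero)
  set y := aeval z P / aeval z Q with hydef
  have hy1 : D.N y ≤ 1 := by
    rw [hydef, map_div₀, hQ, div_one]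
    exact aeval_int D hG.cP hz
  have hyz : aeval z P = y * aeval z Q := by rw [hydef, div_mul_cancel₀ _ hQ0]
  refine rigid D hM (pq P Q y) (pq_mem P Q hy) (fun n => ?_) hz ?_ ?_
  · rw [pq, coeff_sub, coeff_C_mul, coeff_map, coeff_map, ← mem_OO]
    exact Subring.sub_mem _ (hG.cP n) (Subring.mul_mem _ hy1 (hG.cQ n))
  · rw [pq_eval, hyz, sub_self]
    exact M.zero_mem
  · have h1 := congrArg (eval z) (pq_wr P Q y)
    rw [eval_sub, eval_mul, eval_mul, eval_map_algebraMap, eval_map_algebraMap, pq_eval, hyz, sub_self, zero_mul,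
      sub_zero] at h1
    rw [h1, map_mul, hQ, mul_one] at hW
    exact hW

theorem chart_exit {P Q : F[X]} (hG : GP D P Q) {d : ℕ} (hP : P.natDegree ≤ d) (hQd : Q.natDegree ≤ d)
    (ht : ∀ n : ℕ, 1 ≤ n → n ≤ d → D.N (n : Ω) = 1) {ϖ : Ω} {M : IntermediateField F Ω} (hM : muS D ⊆ M)
    (hϖ0 : ϖ ≠ 0) (hϖ : ϖ ∈ M) (hv : ∀ x ∈ M, x ≠ 0 → Pw D ϖ x) {z : Ω} (hz : D.N z ≤ 1)
    (hQ : D.N (aeval z Q) = 1) (hy : aeval z P / aeval z Q ∈ M) (hzM : z ∉ M) :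
    ∃ c ∈ M, ∃ e : ℕ, 1 ≤ e ∧ e ≤ d ∧ (∃ k : ℤ, D.N (z - c) ^ e = D.N ϖ ^ k) ∧ ¬ Pw D ϖ (z - c) ∧
      D.N (aeval z (wr P Q)) < 1 := by
  have hQ0 : aeval z Q ≠ 0 := ne_zero_of_N D (by rw [hQ]; exact one_ne_zero)
  obtain ⟨c, hc, e, he1, he2, hk, hp⟩ := tame_exit D hM hϖ0 hϖ hv ht (pq_mem P Q hy) (pq_ne D hG _)
    (pq_deg hP hQd _) (z := z) (by rw [pq_eval, div_mul_cancel₀ _ hQ0, sub_self]) hzM
  refine ⟨c, hc, e, he1, he2, hk, hp, lt_of_le_of_ne (aeval_int D hG.cW hz) fun h => ?_⟩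
  exact hzM (chart_unit D hG hM hz hQ hy h)

theorem chart_up {P Q : F[X]} (hG : GP D P Q) {d : ℕ} (hP : P.natDegree ≤ d) (hQd : Q.natDegree ≤ d)
    (ht : ∀ n : ℕ, 1 ≤ n → n ≤ d → D.N (n : Ω) = 1) {ϖ ϖ' : Ω} {E : ℕ} (hE : d.factorial ∣ E)
    {M M' : IntermediateField F Ω} (hMM' : M ≤ M') (hM : muS D ⊆ M) (hϖ0 : ϖ ≠ 0) (hϖ1 : D.N ϖ < 1) (hϖ : ϖ ∈ M)
    (hv : ∀ x ∈ M, x ≠ 0 → Pw D ϖ x) (hϖ' : ϖ' ∈ M') (hEϖ : ϖ' ^ E = ϖ) {z : Ω}
    (hQ : D.N (aeval z Q) = 1) (hy : aeval z P / aeval z Q ∈ M) : z ∈ M' := by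
  have hQ0 : aeval z Q ≠ 0 := ne_zero_of_N D (by rw [hQ]; exact one_ne_zero)
  exact tame_up D hM hϖ0 hϖ1 hϖ hv ht (pq_mem P Q hy) (pq_ne D hG _) (pq_deg hP hQd _) (z := z)
    (by rw [pq_eval, div_mul_cancel₀ _ hQ0, sub_self]) hMM' hϖ' hE hEϖ

end loc

end Pool.Agent.ORB.NR
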