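import Pool.Agent.ORB.UBase

/-!
ORB, Theorem V for unicritical polynomials `x ^ p + c`: flips, trivial levels, the extension property.
-/

set_option autoImplicit false

namespace Pool.Agent.ORB.UQ

variable {K : Type*} [Field K]

/-- there is a flip at level `l`: an automorphism which is the identity on the level `l` and the
multiplication by `ζ` on the level `l + 1` -/
def FlipAt (p : ℕ) (ζ : K) (W : Type*) [Field W] [Algebra K W] (c b : K) (l : ℕ) : Prop :=
  ∃ g : W ≃ₐ[K] W, (∀ y ∈ Lev p W c b l, g y = y) ∧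
    ∀ z ∈ Lev p W c b (l + 1), g z = algebraMap K W ζ * z

/-- the level `l` is not trivial: an element of the next level is moved by an automorphism which fixes
the level `l` -/
def Nontriv (p : ℕ) (W : Type*) [Field W] [Algebra K W] (c b : K) (l : ℕ) : Prop :=
  ∃ g : W ≃ₐ[K] W, (∀ y ∈ Lev p W c b l, g y = y) ∧ ∃ z ∈ Lev p W c b (l + 1), g z ≠ z

/-- the extension property -/
def ExtP (p : ℕ) (W : Type*) [Field W] [Algebra K W] (c b : K) : Prop :=
  ∀ T : Set W, T.Finite → ∀ s₀ : W ≃ₐ[K] W, ∃ (N : ℕ) (s : W ≃ₐ[K] W),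
    (∀ t ∈ T, s t = s₀ t) ∧ ∀ z ∈ Lev p W c b N, s z ≠ z

/-- the fixed points of `s` on the level `l` -/
def Fix (p : ℕ) (W : Type*) [Field W] [Algebra K W] (c b : K) (l : ℕ) (s : W ≃ₐ[K] W) : Set W :=
  {z | z ∈ Lev p W c b l ∧ s z = z}

theorem Fix_finite {W : Type*} [Field W] [Algebra K W] {p : ℕ} (hp : p ≠ 0) (c b : K) (l : ℕ)
    (s : W ≃ₐ[K] W) : (Fix p W c b l s).Finite := (Lev_finite hp c b l).subset fun _ h => h.1

/-- two elements with the same image differ by a root of unity of `K` -/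
theorem uf_eq_iff {W : Type*} [Field W] [Algebra K W] {d : ℕ} (hd : d ≠ 0) {c ζ : K}
    (hζ : IsPrimitiveRoot ζ d) {z z' : W} :
    uf d (algebraMap K W c) z = uf d (algebraMap K W c) z' ↔
      ∃ i < d, z' = algebraMap K W ζ ^ i * z := by
  have hζ' : IsPrimitiveRoot (algebraMap K W ζ) d := hζ.map_of_injective (algebraMap K W).injective
  constructor
  · intro h
    have h1 : z' ^ d = z ^ d := by
      have : z ^ d + algebraMap K W c = z' ^ d + algebraMap K W c := h
      exact (add_right_cancel this).symm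
    by_cases hz : z = 0
    · refine ⟨0, Nat.pos_of_ne_zero hd, ?_⟩
      rw [hz, zero_pow hd] at h1
      rw [pow_eq_zero_iff hd |>.1 h1, hz]
      simp
    · have h2 : (z' / z) ^ d = 1 := by rw [div_pow, h1, div_self (pow_ne_zero _ hz)]
      have : NeZero d := ⟨hd⟩
      obtain ⟨i, hi, h3⟩ := hζ'.eq_pow_of_pow_eq_one h2
      refine ⟨i, hi, ?_⟩
      rw [h3, div_mul_cancel₀ _ hz]
  · rintro ⟨i, -, rfl⟩
    simp only [uf, mul_pow, ← pow_mul, mul_comm i d]
    rw [pow_mul, hζ'.pow_eq_one, one_pow, one_mul]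

end Pool.Agent.ORB.UQ
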