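import Pool.Agent.ORB.UPre
import Pool.Agent.ORB.UDefs
import Pool.Agent.ORB.RReal

/-!
ORB, Theorem V for unicritical maps, assembly (row U11), second part: maps which over a finite extension are
conjugate to iterates of `x ^ d + c`, and maps with preperiodic `β`.
-/

namespace Pool.Agent.ORB

open NumberField IsDedekindDomain Polynomial

universe u

/-! ### Equality of actions passes to extensions -/

theorem RP.act_ext {F : Type*} [Field F] [Infinite F] {g h : RP F}
    (hgh : ∀ x : OnePoint F, g.act x = h.act x) {W : Type*} [Field W] (φ : F →+* W) (x : OnePoint W) :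
    (g.map φ).act x = (h.map φ).act x := by
  have hpoly : g.A * h.B - h.A * g.B = 0 := by
    refine Polynomial.funext fun a => ?_
    rw [eval_sub, eval_mul, eval_mul, eval_zero]
    have h1 := hgh (a : OnePoint F)
    rw [RP.act_coe, RP.act_coe, mk2_eq_iff (g.eval_ne a) (h.eval_ne a)] at h1
    exact h1
  induction x using OnePoint.rec with
  | infty =>
    rw [RP.act_infty, RP.act_infty, mk2_eq_iff (g.map φ).htop (h.map φ).htop]
    simp only [RP.map, coeff_map]
    rw [← map_mul, ← map_mul, ← map_sub]
    have h1 := congrArg (fun p => p.coeff (g.d + h.d)) hpoly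
    simp only [coeff_sub, coeff_zero] at h1
    rw [coeff_mul_add_eq_of_natDegree_le g.hA h.hB, add_comm g.d h.d,
      coeff_mul_add_eq_of_natDegree_le h.hA g.hB] at h1
    rw [h1, map_zero]
  | coe a =>
    rw [RP.act_coe, RP.act_coe, mk2_eq_iff ((g.map φ).eval_ne a) ((h.map φ).eval_ne a)]
    simp only [RP.map]
    rw [← eval_mul, ← eval_mul, ← eval_sub, ← Polynomial.map_mul, ← Polynomial.map_mul, ← Polynomial.map_sub,
      hpoly, Polynomial.map_zero, eval_zero]

theorem conj_ext {F : Type*} [Field F] [Infinite F] {f μ u : RP F} {k : ℕ}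
    (h : ∀ x : OnePoint F, f.act (μ.act x) = μ.act (u.act^[k] x)) {W : Type*} [Field W] (φ : F →+* W)
    (x : OnePoint W) : (f.map φ).act ((μ.map φ).act x) = (μ.map φ).act ((u.map φ).act^[k] x) := by
  have h1 := RP.act_ext (g := f.comp μ) (h := μ.comp (u.iter k)) (fun x => by
    rw [RP.act_comp, RP.act_comp, RP.act_iter]
    exact h x) φ x
  rw [RP.map_comp, RP.map_comp, RP.act_comp, RP.act_comp, RP.map_iter, RP.act_iter] at h1
  exact h1

/-! ### The map `x ^ d + c` on the projective line -/

/-- the unicritical map on the projective line -/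
def up {W : Type*} [Field W] (d : ℕ) (c : W) : OnePoint W → OnePoint W := OnePoint.map (uf d c)

section up
variable {W : Type*} [Field W]

theorem up_coe (d : ℕ) (c z : W) : up d c (z : OnePoint W) = ((uf d c z : W) : OnePoint W) := rfl

theorem up_infty (d : ℕ) (c : W) : up d c (OnePoint.infty : OnePoint W) = OnePoint.infty := rfl

theorem up_iter_coe (d : ℕ) (c z : W) (n : ℕ) :
    (up d c)^[n] (z : OnePoint W) = (((uf d c)^[n] z : W) : OnePoint W) := by
  induction n with
  | zero => rfl
  | succ n ih => rw [Function.iterate_succ_apply', ih, up_coe, Function.iterate_succ_apply']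

theorem up_iter_infty (d : ℕ) (c : W) (n : ℕ) :
    (up d c)^[n] (OnePoint.infty : OnePoint W) = OnePoint.infty := by
  induction n with
  | zero => rfl
  | succ n ih => rw [Function.iterate_succ_apply', ih, up_infty]

end up

theorem uni_poly {K : Type*} [Field K] (d : ℕ) (c : K) :
    (RatFunc.X ^ d + RatFunc.C c : RatFunc K) = algebraMap K[X] (RatFunc K) (X ^ d + C c) := by
  rw [map_add, map_pow, RatFunc.algebraMap_X, RatFunc.algebraMap_C]

theorem uni_natDegree {K : Type*} [Field K] (d : ℕ) (c : K) : (X ^ d + C c : K[X]).natDegree = d :=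
  natDegree_X_pow_add_C

theorem rdeg_uni {K : Type*} [Field K] (d : ℕ) (c : K) : rdeg (RatFunc.X ^ d + RatFunc.C c : RatFunc K) = d := by
  rw [uni_poly]
  unfold rdeg
  rw [RatFunc.num_algebraMap, RatFunc.denom_algebraMap, natDegree_one, uni_natDegree]
  exact max_eq_left (Nat.zero_le _)

theorem ract_uni {K W : Type*} [Field K] [Field W] (φ : K →+* W) {d : ℕ} (hd : 1 ≤ d) (c : K) :
    ract φ (RatFunc.X ^ d + RatFunc.C c) = up d (φ c) := by
  rw [uni_poly, ract_polynomial _ _ (by rw [uni_natDegree]; exact hd)]
  funext x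
  induction x using OnePoint.rec with
  | infty => rfl
  | coe a =>
    rw [pact_coe, up_coe]
    simp [uf]

theorem extR_of_extP {F W : Type*} [Field F] [Field W] [Algebra F W] {d : ℕ} {c b0 : F} {h : RP F}
    (hact : (h.map (algebraMap F W)).act = up d (algebraMap F W c)) (hE : UQ.ExtP d W c b0) :
    ExtR W h (b0 : OnePoint F) := by
  intro T hT s₀
  obtain ⟨N, s, h1, h2⟩ := hE T hT s₀
  refine ⟨N, s, h1, fun x hx hfix => ?_⟩
  rw [hact] at hx
  induction x using OnePoint.rec with
  | infty =>
    rw [up_iter_infty, pmap_coe] at hx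
    exact OnePoint.coe_ne_infty _ hx.symm
  | coe z =>
    rw [up_iter_coe, pmap_coe, OnePoint.coe_eq_coe] at hx
    rw [pmap_coe, OnePoint.coe_eq_coe] at hfix
    exact h2 z hx hfix

/-! ### Data over a large field -/

/-- the field `F` contains the elements of `T` -/
def Large {W : Type*} [Field W] (T : Set W) (F : Type*) [Field F] [Algebra F W] : Prop :=
  ∀ t ∈ T, ∃ x : F, algebraMap F W x = t

/-- over `F` the map `f` is conjugate to an iterate of `h`, and all targets are rational over `F` and have the
extension property -/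
def Datum {K : Type*} (F W : Type*) [Field K] [Field F] [Field W] [Algebra K F] [Algebra K W] [Algebra F W]
    (f : RP K) (β : OnePoint K) : Prop :=
  ∃ (h : RP F) (k : ℕ) (μ : RP F) (b : OnePoint F), 1 ≤ h.d ∧ 1 ≤ k ∧ μ.d = 1 ∧
    μ.act b = pmap (algebraMap K F) β ∧
    (∀ x : OnePoint W, (f.map (algebraMap K W)).act ((μ.map (algebraMap F W)).act x) =
      (μ.map (algebraMap F W)).act ((h.map (algebraMap F W)).act^[k] x)) ∧
    ∀ y : OnePoint W, IsTgt h b W y → ∃ b' : OnePoint F, y = pmap (algebraMap F W) b' ∧ ExtR W h b'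

theorem extTF_of_datum {K F W : Type*} [Field K] [Field F] [Field W] [Algebra K F] [Algebra K W] [Algebra F W]
    [IsScalarTower K F W] [IsAlgClosed W] {ι : Type*} [Finite ι] (f : ι → RP K) (β : ι → OnePoint K)
    (h : ∀ i, Datum F W (f i) (β i)) : ExtTF F W f β := by
  choose h k μ b hd hk hμ hb hconj hE using h
  exact extTF_of_extR f β h hd k hk μ hμ b hb hconj hE

theorem RP.map_one {F F' : Type*} [Field F] [Field F'] (φ : F →+* F') : (RP.one F).map φ = RP.one F' := by
  simp only [RP.one, RP.map, map_X, Polynomial.map_one]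

/-- preperiodic `β` -/
theorem datum_preper {K : Type u} {W : Type u} [Field K] [NumberField K] [Field W] [Algebra K W] [IsAlgClosed W]
    [Algebra.IsAlgebraic K W] (f : RP K) (hf : 1 ≤ f.d) (β : OnePoint K)
    (hβ : ¬ Function.Injective fun n : ℕ => f.act^[n] β) :
    ∃ T : Set W, T.Finite ∧ ∀ (F : Type u) [Field F] [NumberField F] [Algebra K F] [Algebra F W]
      [IsScalarTower K F W], Large T F → Datum F W f β := by
  refine ⟨{z : W | IsTgt f β W (z : OnePoint W)}, ?_, ?_⟩
  · exact Set.Finite.preimage (OnePoint.coe_injective.injOn) (finite_tgt f hf β W)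
  intro F _ _ _ _ _ hT
  have haFW : Algebra.IsAlgebraic F W := Algebra.IsAlgebraic.tower_top (K := K) F
  refine ⟨f.map (algebraMap K F), 1, RP.one F, pmap (algebraMap K F) β, hf, le_rfl, rfl, RP.act_one _, ?_, ?_⟩
  · intro x
    rw [RP.map_one, RP.act_one, RP.act_one, RP.map_map, ← IsScalarTower.algebraMap_eq]
    rfl
  · intro y hy
    have hmap : (f.map (algebraMap K F)).map (algebraMap F W) = f.map (algebraMap K W) := by
      rw [RP.map_map, ← IsScalarTower.algebraMap_eq]
    have hpm : ∀ x : OnePoint K, pmap (algebraMap F W) (pmap (algebraMap K F) x) = pmap (algebraMap K W) x := by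
      intro x
      rw [pmap_comp, ← IsScalarTower.algebraMap_eq]
    have hy' : IsTgt f β W y := by
      obtain ⟨h1, h2⟩ := hy
      rw [hmap] at h1 h2
      refine ⟨h1, ?_⟩
      rcases h2 with h2 | ⟨⟨m, hm, hper⟩, j, hj⟩
      · left
        rw [h2, hpm]
      · right
        refine ⟨⟨m, hm, ?_⟩, j, ?_⟩
        · rw [RP.act_map_iterate] at hper
          exact pmap_injective _ hper
        · rw [hj, RP.act_map_iterate, hpm]
    have hb' : ∃ b' : OnePoint F, y = pmap (algebraMap F W) b' := by
      induction y using OnePoint.rec with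
      | infty => exact ⟨OnePoint.infty, rfl⟩
      | coe z =>
        obtain ⟨x, hx⟩ := hT z hy'
        exact ⟨(x : OnePoint F), by rw [pmap_coe, hx]⟩
    obtain ⟨b', rfl⟩ := hb'
    refine ⟨b', rfl, extR_preper (f.map (algebraMap K F)) hf b' ?_ ?_⟩
    · -- the orbit is finite since it meets the orbit of `β`
      intro hinj
      obtain ⟨m, hm⟩ := hy.iterate_eq
      rw [RP.act_map_iterate] at hm
      have hm' := pmap_injective _ hm
      have h1 := injective_iterate _ _ m hinj
      rw [hm'] at h1
      apply hβ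
      intro i j hij
      apply h1
      simp only at hij ⊢
      rw [RP.act_map_iterate, RP.act_map_iterate, hij]
    · intro m hm h1
      apply hy.1 m hm
      rw [RP.act_map_iterate, h1]

/-- an extension of `K` inside `W` whose generators lie in `F` maps to `F` -/
theorem exists_hom {K K1 F W : Type*} [Field K] [Field K1] [Field F] [Field W] [Algebra K K1] [Algebra K F]
    [Algebra K W] [Algebra F W] [IsScalarTower K F W] [FiniteDimensional K K1] (ψ : K1 →ₐ[K] W)
    (h : Large (Set.range fun i => ψ (Module.finBasis K K1 i)) F) :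
    ∃ φ : K1 →+* F, (algebraMap F W).comp φ = (ψ : K1 →+* W) ∧
      φ.comp (algebraMap K K1) = algebraMap K F := by
  set bs := Module.finBasis K K1 with hbs
  have hall : ∀ x : K1, ∃ y : F, algebraMap F W y = ψ x := by
    intro x
    choose g hg using fun i => h (ψ (bs i)) ⟨i, rfl⟩
    refine ⟨∑ i, (algebraMap K F (bs.repr x i)) * g i, ?_⟩
    conv_rhs => rw [← bs.sum_repr x]
    rw [map_sum, map_sum]
    refine Finset.sum_congr rfl fun i _ => ?_
    rw [map_mul, ← IsScalarTower.algebraMap_apply K F W, hg, Algebra.smul_def, map_mul, AlgHom.commutes]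
  choose φ hφ using hall
  have hinj := (algebraMap F W).injective
  let Φ : K1 →+* F :=
    { toFun := φ
      map_one' := by apply hinj; rw [hφ, map_one, map_one]
      map_mul' := fun x y => by apply hinj; rw [hφ, map_mul, map_mul, hφ, hφ]
      map_zero' := by apply hinj; rw [hφ, map_zero, map_zero]
      map_add' := fun x y => by apply hinj; rw [hφ, map_add, map_add, hφ, hφ] }
  refine ⟨Φ, RingHom.ext hφ, RingHom.ext fun x => hinj ?_⟩
  rw [← IsScalarTower.algebraMap_apply K F W, ← ψ.commutes x]
  exact hφ _

end Pool.Agent.ORB
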