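import Pool.Agent.ORB.RPlace
import Pool.Agent.ORB.RBlocks
import Pool.Agent.ORB.UUni

/-!
ORB, Theorem B for rational functions: totally invariant points and conjugation to polynomials with good reduction.
-/

namespace Pool.Agent.ORB

open NumberField IsDedekindDomain Polynomial

universe u

/-- `e` is totally invariant: `f⁻¹(e) = {e}` over an algebraic closure of `K` -/
def TotInv {K : Type u} [Field K] (f : RatFunc K) (e : OnePoint K) : Prop :=
  ∀ x : OnePoint (AlgebraicClosure K), ract (algebraMap K (AlgebraicClosure K)) f x =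
    OnePoint.map (algebraMap K (AlgebraicClosure K)) e ↔ x = OnePoint.map (algebraMap K (AlgebraicClosure K)) e

/-- `e` is totally invariant, over all extensions -/
def TInv {K : Type u} [Field K] (f : RP K) (e : OnePoint K) : Prop :=
  ∀ (W : Type u) [Field W] [Algebra K W] (x : OnePoint W), (f.map (algebraMap K W)).act x =
    pmap (algebraMap K W) e ↔ x = pmap (algebraMap K W) e

/-- inverse linear maps -/
structure InvPair (K : Type*) [Field K] (μ ν : RP K) : Prop where
  dμ : μ.d = 1
  dν : ν.d = 1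
  νμ : ∀ x, ν.act (μ.act x) = x
  μν : ∀ x, μ.act (ν.act x) = x

section alg
variable {K : Type*} [Field K]

theorem InvPair.symm {μ ν : RP K} (h : InvPair K μ ν) : InvPair K ν μ := ⟨h.dν, h.dμ, h.μν, h.νμ⟩

theorem InvPair.map [Infinite K] {μ ν : RP K} (h : InvPair K μ ν) {W : Type*} [Field W] (φ : K →+* W) :
    InvPair W (μ.map φ) (ν.map φ) := by
  refine ⟨h.dμ, h.dν, fun x => ?_, fun x => ?_⟩
  · have h4 := RP.act_ext (g := ν.comp μ) (h := RP.one K) (fun x => by
      rw [RP.act_comp, h.νμ, RP.act_one]) φ x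
    rw [RP.map_comp, RP.act_comp, RP.map_one, RP.act_one] at h4
    exact h4
  · have h4 := RP.act_ext (g := μ.comp ν) (h := RP.one K) (fun x => by
      rw [RP.act_comp, h.μν, RP.act_one]) φ x
    rw [RP.map_comp, RP.act_comp, RP.map_one, RP.act_one] at h4
    exact h4

/-- the map which takes infinity to `a` -/
noncomputable def RP.toPt (a : K) : RP K where
  A := C a * X + 1
  B := X
  d := 1
  hA := by compute_degree
  hB := natDegree_X_le
  hcop := ⟨1, -C a, by ring⟩
  htop := Or.inr (by rw [coeff_X_one]; exact one_ne_zero)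

/-- its inverse -/
noncomputable def RP.ofPt (a : K) : RP K where
  A := 1
  B := X - C a
  d := 1
  hA := by rw [natDegree_one]; omega
  hB := (natDegree_X_sub_C a).le
  hcop := isCoprime_one_left
  htop := Or.inr (by simp)

theorem RP.toPt_infty (a : K) : (RP.toPt a).act OnePoint.infty = (a : OnePoint K) := by
  rw [RP.act_infty]
  have h1 : (RP.toPt a).A.coeff (RP.toPt a).d = a := by
    show (C a * X + 1 : K[X]).coeff 1 = a
    rw [coeff_add, coeff_C_mul, coeff_X_one, coeff_one]
    simp
  have h2 : (RP.toPt a).B.coeff (RP.toPt a).d = 1 := coeff_X_one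
  rw [h1, h2, mk2_one]

theorem RP.toPt_coe (a x : K) : (RP.toPt a).act (x : OnePoint K) = mk2 (a * x + 1) x := by
  rw [RP.act_coe]
  simp [RP.toPt]

theorem RP.ofPt_infty (a : K) : (RP.ofPt a).act OnePoint.infty = ((0 : K) : OnePoint K) := by
  rw [RP.act_infty]
  have h1 : (RP.ofPt a).A.coeff (RP.ofPt a).d = 0 := by
    show (1 : K[X]).coeff 1 = 0
    rw [coeff_one]
    simp
  have h2 : (RP.ofPt a).B.coeff (RP.ofPt a).d = 1 := by
    show (X - C a : K[X]).coeff 1 = 1
    simp
  rw [h1, h2, mk2_one]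

theorem RP.ofPt_coe (a x : K) : (RP.ofPt a).act (x : OnePoint K) = mk2 1 (x - a) := by
  rw [RP.act_coe]
  simp [RP.ofPt]

theorem inv_pt (a : K) : InvPair K (RP.toPt a) (RP.ofPt a) := by
  refine ⟨rfl, rfl, fun x => ?_, fun x => ?_⟩
  · induction x using OnePoint.rec with
    | infty => rw [RP.toPt_infty, RP.ofPt_coe, sub_self, mk2_zero]
    | coe x =>
      rw [RP.toPt_coe]
      by_cases hx : x = 0
      · rw [hx, mk2_zero, RP.ofPt_infty]
      · rw [mk2_ne hx, RP.ofPt_coe]
        have h1 : (a * x + 1) / x - a = 1 / x := by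
          field_simp
          ring
        have h2 : (1 : K) / x ≠ 0 := one_div_ne_zero hx
        rw [h1, mk2_ne h2, one_div_one_div]
  · induction x using OnePoint.rec with
    | infty => rw [RP.ofPt_infty, RP.toPt_coe, mk2_zero]
    | coe x =>
      rw [RP.ofPt_coe]
      by_cases hx : x - a = 0
      · rw [hx, mk2_zero, RP.toPt_infty, sub_eq_zero.1 hx]
      · have h2 : (1 : K) / (x - a) ≠ 0 := one_div_ne_zero hx
        rw [mk2_ne hx, RP.toPt_coe, mk2_ne h2]
        congr 1
        field_simp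
        ring

/-- the map which takes infinity to `a⁻¹`, and zero to zero -/
noncomputable def RP.toInv (a : K) : RP K where
  A := X
  B := C a * X + 1
  d := 1
  hA := natDegree_X_le
  hB := by compute_degree
  hcop := ⟨-C a, 1, by ring⟩
  htop := Or.inl (by rw [coeff_X_one]; exact one_ne_zero)

theorem RP.toInv_infty (a : K) : (RP.toInv a).act OnePoint.infty = mk2 1 a := by
  rw [RP.act_infty]
  have h1 : (RP.toInv a).B.coeff (RP.toInv a).d = a := by
    show (C a * X + 1 : K[X]).coeff 1 = a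
    rw [coeff_add, coeff_C_mul, coeff_X_one, coeff_one]
    simp
  have h2 : (RP.toInv a).A.coeff (RP.toInv a).d = 1 := coeff_X_one
  rw [h1, h2]

theorem RP.toInv_coe (a x : K) : (RP.toInv a).act (x : OnePoint K) = mk2 x (a * x + 1) := by
  rw [RP.act_coe]
  simp [RP.toInv]

theorem RP.toInv_mk2 (a x y : K) (h : x ≠ 0 ∨ y ≠ 0) : (RP.toInv a).act (mk2 x y) = mk2 x (a * x + y) := by
  by_cases hy : y = 0
  · have hx : x ≠ 0 := h.resolve_right (not_not.2 hy)
    rw [hy, mk2_zero, RP.toInv_infty, add_zero]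
    have h1 := mk2_mul (x := (1 : K)) (y := a) hx
    rw [mul_one] at h1
    rw [← h1, mul_comm a x]
  · rw [mk2_ne hy, RP.toInv_coe]
    have h1 := mk2_mul (x := x / y) (y := a * (x / y) + 1) hy
    rw [← h1, mul_div_cancel₀ _ hy]
    congr 1
    field_simp

theorem toInv_toInv (a b : K) (hab : a + b = 0) (x : OnePoint K) :
    (RP.toInv a).act ((RP.toInv b).act x) = x := by
  have hb : b = -a := by linear_combination hab
  induction x using OnePoint.rec with
  | infty =>
    rw [RP.toInv_infty, RP.toInv_mk2 _ _ _ (Or.inl one_ne_zero), mul_one, hab, mk2_zero]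
  | coe x =>
    rw [RP.toInv_coe, RP.toInv_mk2]
    · have : a * x + (b * x + 1) = 1 := by rw [hb]; ring
      rw [this, mk2_one]
    · by_contra hcon
      push Not at hcon
      rw [hcon.1, mul_zero, zero_add] at hcon
      exact one_ne_zero hcon.2

theorem inv_inv' (a : K) : InvPair K (RP.toInv a) (RP.toInv (-a)) :=
  ⟨rfl, rfl, toInv_toInv _ _ (by ring), toInv_toInv _ _ (by ring)⟩

theorem inv_lin_one : InvPair K (RP.one K) (RP.one K) :=
  ⟨rfl, rfl, fun x => by rw [RP.act_one, RP.act_one], fun x => by rw [RP.act_one, RP.act_one]⟩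

/-- a map for which infinity is totally invariant is a polynomial -/
theorem denom_const {K : Type u} [Field K] (g : RP K) (hg : 1 ≤ g.d)
    (h : ∀ x : OnePoint (AlgebraicClosure K), (g.map (algebraMap K (AlgebraicClosure K))).act x =
      OnePoint.infty ↔ x = OnePoint.infty) :
    ∃ c : K, c ≠ 0 ∧ g.B = C c ∧ g.A.coeff g.d ≠ 0 := by
  set W := AlgebraicClosure K
  set φ := algebraMap K W with hφ
  have hB : g.B.natDegree = 0 := by
    by_contra hne
    have h1 : (g.B.map φ).degree ≠ 0 := by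
      rw [degree_map]
      intro h2
      exact hne (natDegree_eq_of_degree_eq_some h2)
    obtain ⟨a, ha⟩ := IsAlgClosed.exists_root (g.B.map φ) h1
    have h3 : (g.map φ).act (a : OnePoint W) = OnePoint.infty := by
      rw [RP.act_coe]
      have : (g.map φ).B.eval a = 0 := ha
      rw [this, mk2_zero]
    exact OnePoint.coe_ne_infty _ ((h _).1 h3)
  obtain ⟨c, hc⟩ : ∃ c : K, g.B = C c := ⟨_, eq_C_of_natDegree_eq_zero hB⟩
  have hc0 : c ≠ 0 := by
    rintro rfl
    rw [map_zero] at hc
    have h1 : (g.map φ).act ((0 : W) : OnePoint W) = OnePoint.infty := by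
      rw [RP.act_coe]
      have : (g.map φ).B.eval 0 = 0 := by
        show (g.B.map φ).eval 0 = 0
        rw [hc]
        simp
      rw [this, mk2_zero]
    exact OnePoint.coe_ne_infty _ ((h _).1 h1)
  refine ⟨c, hc0, hc, ?_⟩
  rcases g.htop with h | h
  · exact h
  · exfalso
    rw [hc, coeff_C, if_neg (by omega)] at h
    exact h rfl

/-- the conjugate of a map with a totally invariant point -/
theorem conj_denom {K : Type u} [Field K] [Infinite K] (f : RP K) {μ ν : RP K} (hf : 1 ≤ f.d) (h : InvPair K μ ν)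
    (he : ∀ x : OnePoint (AlgebraicClosure K), (f.map (algebraMap K (AlgebraicClosure K))).act x =
      pmap (algebraMap K (AlgebraicClosure K)) (μ.act OnePoint.infty) ↔
        x = pmap (algebraMap K (AlgebraicClosure K)) (μ.act OnePoint.infty)) :
    ∃ c : K, c ≠ 0 ∧ (ν.comp (f.comp μ)).B = C c ∧
      (ν.comp (f.comp μ)).A.coeff (ν.comp (f.comp μ)).d ≠ 0 := by
  refine denom_const _ ?_ (fun x => ?_)
  · show 1 ≤ ν.d * (f.d * μ.d)
    rw [h.dμ, h.dν, one_mul, mul_one]
    exact hf
  set φ := algebraMap K (AlgebraicClosure K) with hφ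
  have h' := h.map φ
  have hμinf : (μ.map φ).act OnePoint.infty = pmap φ (μ.act OnePoint.infty) := by
    rw [← RP.act_map, pmap_infty]
  rw [RP.map_comp, RP.map_comp, RP.act_comp, RP.act_comp]
  constructor
  · intro h0
    have h1 := congrArg (μ.map φ).act h0
    rw [h'.μν, hμinf, he] at h1
    have h2 := congrArg (ν.map φ).act h1
    rw [h'.νμ, ← hμinf, h'.νμ] at h2
    exact h2
  · rintro rfl
    rw [hμinf, (he _).2 rfl, ← hμinf, h'.νμ]

theorem act_polynomial_infty {W : Type*} [Field W] (g : RP W) (hg : 1 ≤ g.d) {c : W} (hc : c ≠ 0)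
    (hB : g.B = C c) (x : OnePoint W) : g.act x = OnePoint.infty ↔ x = OnePoint.infty := by
  constructor
  · intro h
    induction x using OnePoint.rec with
    | infty => rfl
    | coe a =>
      rw [RP.act_coe, hB, eval_C, mk2_ne hc] at h
      exact absurd h (OnePoint.coe_ne_infty _)
  · rintro rfl
    rw [RP.act_infty, hB, coeff_C, if_neg (by omega), mk2_zero]

/-- total invariance over the algebraic closure gives it over all extensions -/
theorem TotInv.tInv {K : Type u} [Field K] [Infinite K] {f : RatFunc K} (hf : 1 ≤ rdeg f) {e : OnePoint K}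
    (he : TotInv f e) : TInv (RP.ofRat f) e := by
  obtain ⟨μ, ν, h, hinf⟩ : ∃ μ ν : RP K, InvPair K μ ν ∧ μ.act OnePoint.infty = e := by
    induction e using OnePoint.rec with
    | infty => exact ⟨_, _, inv_lin_one, RP.act_one _⟩
    | coe a => exact ⟨_, _, inv_pt a, RP.toPt_infty a⟩
  obtain ⟨c, hc, hB, -⟩ := conj_denom (RP.ofRat f) hf h (fun x => by
    rw [hinf, ← ract_eq]
    exact he x)
  intro W _ _ x
  set φ := algebraMap K W with hφ
  have h' := h.map φ
  have hμinf : (μ.map φ).act OnePoint.infty = pmap φ e := by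
    rw [← hinf, ← RP.act_map, pmap_infty]
  have key := act_polynomial_infty ((ν.comp ((RP.ofRat f).comp μ)).map φ) (by
    show 1 ≤ ν.d * (rdeg f * μ.d)
    rw [h.dμ, h.dν, one_mul, mul_one]
    exact hf) ((_root_.map_ne_zero φ).2 hc) (by
    show (ν.comp ((RP.ofRat f).comp μ)).B.map φ = _
    rw [hB, map_C]) ((ν.map φ).act x)
  rw [RP.map_comp, RP.map_comp, RP.act_comp, RP.act_comp, h'.μν] at key
  constructor
  · intro h0
    rw [h0, ← hμinf, h'.νμ] at key
    rw [← h'.μν x, key.1 rfl, hμinf]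
  · rintro rfl
    have h1 : (ν.map φ).act (pmap φ e) = OnePoint.infty := by rw [← hμinf, h'.νμ]
    have h2 := congrArg (μ.map φ).act (key.2 h1)
    rw [h'.μν, hμinf] at h2
    exact h2

end alg

section good
variable {F : Type*} [Field F] {Γ₀ : Type*} [LinearOrderedCommGroupWithZero Γ₀] {v : Valuation F Γ₀}

theorem RP.Good.scale {f : RP F} (hf : f.Good v) {c : F} (hc : c ≠ 0) (hvc : v c = 1) :
    (f.scale c hc).Good v := by
  obtain ⟨hA, hB, ⟨U, V, hU, hV, hUV⟩, ht⟩ := hf
  have hci : v c⁻¹ = 1 := by rw [map_inv₀, hvc, inv_one]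
  refine ⟨(IntC.const hvc.le).mul hA, (IntC.const hvc.le).mul hB, ⟨C c⁻¹ * U, C c⁻¹ * V,
    (IntC.const hci.le).mul hU, (IntC.const hci.le).mul hV, ?_⟩, ?_⟩
  · show C c⁻¹ * U * (C c * f.A) + C c⁻¹ * V * (C c * f.B) = 1
    have h1 : (C c⁻¹ * C c : F[X]) = 1 := by rw [← C_mul, inv_mul_cancel₀ hc, C_1]
    linear_combination (U * f.A + V * f.B) * h1 + hUV
  · show v ((C c * f.A).coeff f.d) = 1 ∨ v ((C c * f.B).coeff f.d) = 1
    rw [coeff_C_mul, coeff_C_mul, map_mul, map_mul, hvc, one_mul, one_mul]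
    exact ht

/-- good reduction of a polynomial whose denominator is constant -/
theorem RP.Good.const_unit {f : RP F} (hf : f.Good v) (hd : 1 ≤ f.d) {c : F} (hB : f.B = C c) : v c = 1 := by
  obtain ⟨hA, hBi, ⟨U, V, hU, hV, hUV⟩, ht⟩ := hf
  have hc1 : v c ≤ 1 := by
    have := hBi 0
    rwa [hB, coeff_C_zero] at this
  by_contra hne
  have hlt : v c < 1 := lt_of_le_of_ne hc1 hne
  have hlead : v (f.A.coeff f.d) = 1 := by
    rcases ht with h | h
    · exact h
    · rw [hB, coeff_C, if_neg (by omega), map_zero] at h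
      exact absurd h zero_ne_one
  -- the largest coefficient of `U` which is a unit
  have hex : ∃ m, v (U.coeff m) = 1 := by
    by_contra hcon
    push Not at hcon
    have hU' : ∀ m, v (U.coeff m) < 1 := fun m => lt_of_le_of_ne (hU m) (hcon m)
    have h1 := congrArg (fun p => p.coeff 0) hUV
    simp only [coeff_add, mul_coeff_zero, coeff_one_zero] at h1
    have h2 : v (U.coeff 0 * f.A.coeff 0 + V.coeff 0 * f.B.coeff 0) < 1 := by
      refine Valuation.map_add_lt _ ?_ ?_
      · rw [map_mul]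
        exact mul_lt_one_of_nonneg_of_lt_one_left zero_le (hU' 0) (hA 0)
      · rw [map_mul, hB, coeff_C_zero]
        exact mul_lt_one_of_nonneg_of_lt_one_right (hV 0) zero_le hlt
    rw [h1, _root_.map_one] at h2
    exact lt_irrefl _ h2
  classical
  obtain ⟨m, hm1, hm2⟩ : ∃ m, v (U.coeff m) = 1 ∧ ∀ n, m < n → v (U.coeff n) < 1 := by
    have hb : ∀ n, U.natDegree < n → v (U.coeff n) ≠ 1 := by
      intro n hn h
      rw [coeff_eq_zero_of_natDegree_lt hn, map_zero] at h
      exact zero_ne_one h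
    refine ⟨Nat.findGreatest (fun m => v (U.coeff m) = 1) U.natDegree, ?_, ?_⟩
    · obtain ⟨m, hm⟩ := hex
      refine Nat.findGreatest_spec (P := fun m => v (U.coeff m) = 1) (m := m) ?_ hm
      by_contra h
      exact hb m (not_le.1 h) hm
    · intro n hn
      refine lt_of_le_of_ne (hU n) ?_
      by_cases hn' : n ≤ U.natDegree
      · exact Nat.findGreatest_is_greatest hn hn'
      · exact hb n (not_le.1 hn')
  have h1 := congrArg (fun p => p.coeff (m + f.d)) hUV
  simp only [coeff_add] at h1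
  rw [coeff_one, if_neg (by omega), hB, mul_comm V, coeff_C_mul, coeff_mul] at h1
  have h2 : v (∑ x ∈ Finset.HasAntidiagonal.antidiagonal (m + f.d), U.coeff x.1 * f.A.coeff x.2) = 1 := by
    rw [← Finset.add_sum_erase _ _ (Finset.HasAntidiagonal.mem_antidiagonal.2
      (rfl : (m, f.d).1 + (m, f.d).2 = m + f.d))]
    have h3 : v (U.coeff m * f.A.coeff f.d) = 1 := by rw [map_mul, hm1, hlead, one_mul]
    rw [Valuation.map_add_eq_of_lt_left, h3]
    show v _ < v (U.coeff m * f.A.coeff f.d)
    rw [h3]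
    refine Valuation.map_sum_lt _ one_ne_zero fun x hx => ?_
    rw [Finset.mem_erase, Finset.HasAntidiagonal.mem_antidiagonal] at hx
    obtain ⟨hx1, hx2⟩ := hx
    rw [map_mul]
    rcases lt_trichotomy x.1 m with h | h | h
    · have : f.d < x.2 := by omega
      rw [coeff_eq_zero_of_natDegree_lt (lt_of_le_of_lt f.hA this), map_zero, mul_zero]
      exact zero_lt_one
    · exfalso
      apply hx1
      ext
      · exact h
      · show x.2 = f.d
        omega
    · exact mul_lt_one_of_nonneg_of_lt_one_left zero_le (hm2 _ h) (hA _)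
  have h4 : v (c * V.coeff (m + f.d)) < 1 := by
    rw [map_mul]
    exact mul_lt_one_of_nonneg_of_lt_one_left zero_le hlt (hV _)
  have h5 := Valuation.map_add_eq_of_lt_right v (x := c * V.coeff (m + f.d))
    (y := ∑ x ∈ Finset.HasAntidiagonal.antidiagonal (m + f.d), U.coeff x.1 * f.A.coeff x.2) (by rw [h2]; exact h4)
  rw [add_comm, h1, map_zero, h2] at h5
  exact zero_ne_one h5

theorem good_one : (RP.one F).Good v := by
  refine ⟨IntC.X, IntC.one, ⟨0, 1, IntC.zero, IntC.one, ?_⟩, Or.inl ?_⟩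
  · rw [zero_mul, zero_add, one_mul]
    rfl
  · show v ((X : F[X]).coeff 1) = 1
    rw [coeff_X_one, map_one]

theorem good_toPt {a : F} (ha : v a ≤ 1) : (RP.toPt a).Good v := by
  refine ⟨((IntC.const ha).mul IntC.X).add IntC.one, IntC.X, ⟨1, -C a, IntC.one, ?_, ?_⟩, Or.inr ?_⟩
  · have h1 : (-C a : F[X]) = C (-a) := by rw [C_neg]
    rw [h1]
    exact IntC.const (by rw [Valuation.map_neg]; exact ha)
  · show 1 * (C a * X + 1) + -C a * X = 1
    ring
  · show v ((X : F[X]).coeff 1) = 1
    rw [coeff_X_one, map_one]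

theorem good_ofPt {a : F} (ha : v a ≤ 1) : (RP.ofPt a).Good v := by
  refine ⟨IntC.one, IntC.X.sub (IntC.const ha), ⟨1, 0, IntC.one, IntC.zero, ?_⟩, Or.inr ?_⟩
  · show 1 * (1 : F[X]) + 0 * (X - C a) = 1
    ring
  · show v ((X - C a : F[X]).coeff 1) = 1
    rw [coeff_sub, coeff_X_one, coeff_C, if_neg one_ne_zero, sub_zero, map_one]

theorem good_toInv {a : F} (ha : v a ≤ 1) : (RP.toInv a).Good v := by
  refine ⟨IntC.X, ((IntC.const ha).mul IntC.X).add IntC.one, ⟨-C a, 1, ?_, IntC.one, ?_⟩, Or.inl ?_⟩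
  · have h1 : (-C a : F[X]) = C (-a) := by rw [C_neg]
    rw [h1]
    exact IntC.const (by rw [Valuation.map_neg]; exact ha)
  · show -C a * X + 1 * (C a * X + 1) = 1
    ring
  · show v ((X : F[X]).coeff 1) = 1
    rw [coeff_X_one, map_one]

/-- a linear map with good reduction which takes infinity to a given point -/
theorem exists_good_lin (v : Valuation F Γ₀) (e : OnePoint F) : ∃ μ ν : RP F, InvPair F μ ν ∧ μ.Good v ∧ ν.Good v ∧
    μ.act OnePoint.infty = e := by
  induction e using OnePoint.rec with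
  | infty => exact ⟨_, _, inv_lin_one, good_one, good_one, RP.act_one _⟩
  | coe a =>
    by_cases ha : v a ≤ 1
    · exact ⟨_, _, inv_pt a, good_toPt ha, good_ofPt ha, RP.toPt_infty a⟩
    · rw [not_le] at ha
      have ha0 : a ≠ 0 := by
        rintro rfl
        rw [map_zero] at ha
        exact absurd ha (not_lt.2 zero_le)
      have hai : v a⁻¹ ≤ 1 := by
        rw [map_inv₀]
        exact inv_le_one_of_one_le₀ ha.le
      refine ⟨_, _, inv_inv' a⁻¹, good_toInv hai, good_toInv (by rw [Valuation.map_neg]; exact hai), ?_⟩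
      rw [RP.toInv_infty, ← mk2_inv ha0]

end good

/-- the data of a totally invariant point at a place of good reduction -/
theorem good_conj {K : Type u} [Field K] [NumberField K] (v : HeightOneSpectrum (𝓞 K)) (R : RP K)
    (hR : 1 ≤ R.d) (hg : RGood v R) {e : OnePoint K} (he : TInv R e) :
    ∃ μ ν G : RP K, InvPair K μ ν ∧ μ.Good (v.valuation K) ∧ ν.Good (v.valuation K) ∧
      μ.act OnePoint.infty = e ∧ G.B = 1 ∧ G.d = R.d ∧ G.Good (v.valuation K) ∧
      ∀ x, R.act (μ.act x) = μ.act (G.act x) := by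
  obtain ⟨μ, ν, h, hμ, hν, hinf⟩ := exists_good_lin (v.valuation K) e
  obtain ⟨c0, hc0, hg0⟩ := hg
  set R' := R.scale c0 hc0 with hR'
  have hact : ∀ x, R'.act x = R.act x := fun x => by rw [hR', RP.scale_act]
  set g := ν.comp (R'.comp μ) with hgdef
  have hgd : g.d = R.d := by
    show ν.d * (R.d * μ.d) = R.d
    rw [h.dμ, h.dν, one_mul, mul_one]
  have hgg : g.Good (v.valuation K) := hν.comp (hg0.comp hμ)
  obtain ⟨c, hc, hB, -⟩ := conj_denom R' (show 1 ≤ R.d from hR) h (fun x => by
    have h1 := he (AlgebraicClosure K) x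
    rw [hinf]
    rw [hR', RP.scale_map, RP.scale_act]
    exact h1)
  have hvc : v.valuation K c = 1 := hgg.const_unit (by rw [hgd]; exact hR) hB
  refine ⟨μ, ν, g.scale c⁻¹ (inv_ne_zero hc), h, hμ, hν, hinf, ?_, hgd, hgg.scale (inv_ne_zero hc) (by
    rw [map_inv₀, hvc, inv_one]), fun x => ?_⟩
  · show C c⁻¹ * g.B = 1
    rw [hB, ← C_mul, inv_mul_cancel₀ hc, C_1]
  · rw [RP.scale_act, hgdef, RP.act_comp, RP.act_comp, h.μν, hact]

/-- modulo `v`, the value `e` is taken only at `e` -/
theorem tInv_sameRed {K : Type u} [Field K] [NumberField K] (v : HeightOneSpectrum (𝓞 K)) (R : RP K)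
    (hR : 1 ≤ R.d) (hg : RGood v R) {e : OnePoint K} (he : TInv R e) {y : OnePoint K}
    (hy : SameRed v (R.act y) e) : SameRed v y e := by
  obtain ⟨μ, ν, G, h, hμ, hν, hinf, hB, -, hG, hconj⟩ := good_conj v R hR hg he
  have h1 : SameRed v (G.act (ν.act y)) OnePoint.infty := by
    have h2 := hν.sameRed hy
    rw [← h.μν y, hconj, h.νμ, ← hinf, h.νμ] at h2
    exact h2
  have h3 : SameRed v (ν.act y) OnePoint.infty := by
    refine Or.inl ⟨?_, fun a ha => absurd ha (OnePoint.infty_ne_coe a)⟩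
    intro z hz
    by_contra hcon
    rw [not_lt] at hcon
    rw [hz, RP.act_coe, hB, eval_one, mk2_one] at h1
    rcases h1 with ⟨h2, -⟩ | ⟨a, b, -, h2, -⟩
    · exact absurd (h2 _ rfl) (not_lt.2 (hG.1.eval_le hcon))
    · exact absurd h2.symm (OnePoint.coe_ne_infty b)
  have h4 := hμ.sameRed h3
  rwa [h.μν, hinf] at h4

end Pool.Agent.ORB
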