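import Pool.Agent.ORB.NRFinalY

/-!
ORB: the families of the final theorem have a core over a cofinal set of extensions.
-/

namespace Pool.Agent.ORB

open NumberField IsDedekindDomain Polynomial NI NR

universe u

theorem CoreAt.mono {K : Type u} [Field K] [NumberField K] {K3 : Type u} [Field K3] [NumberField K3]
    [Algebra K K3] {𝒜 𝒜' : Set (Set (HeightOneSpectrum (𝓞 K)))} (h : CoreAt K3 𝒜)
    (h2 : ∀ S ∈ 𝒜', ∃ A ∈ 𝒜, (A \ S).Finite) : CoreAt K3 𝒜' := by
  obtain ⟨J, hJ, F, hF0, hFA, hL⟩ := h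
  refine ⟨J, hJ, F, hF0, fun S hS => ?_, hL⟩
  obtain ⟨A, hA, hfin⟩ := h2 S hS
  refine ((hFA A hA).union hfin).subset ?_
  rintro v ⟨hv1, hv2⟩
  by_cases hvA : v ∈ A
  · exact Or.inr ⟨hvA, hv1⟩
  · exact Or.inl ⟨hvA, hv2⟩

/-- a common extension of `K3` and of a subfield `F` of an algebraic closure -/
theorem exists_common {K : Type u} [Field K] [NumberField K] (F : Type u) [Field F] [NumberField F]
    [Algebra K F] (W : Type u) [Field W] [Algebra K W] [Algebra F W] [IsScalarTower K F W]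
    [IsAlgClosed W] [Algebra.IsAlgebraic F W] (K3 : Type u) [Field K3] [NumberField K3] [Algebra K K3] :
    ∃ (K4 : Type u) (_ : Field K4) (_ : NumberField K4) (_ : Algebra K K4) (_ : Algebra K3 K4)
      (_ : Algebra F K4), IsScalarTower K K3 K4 ∧ IsScalarTower K F K4 := by
  have ha3 : Algebra.IsAlgebraic K K3 := Algebra.IsAlgebraic.tower_top (K := ℚ) K
  have hfd : FiniteDimensional K K3 := Module.Finite.of_restrictScalars_finite ℚ K K3
  let ψ : K3 →ₐ[K] W := IsAlgClosed.lift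
  let b := Module.finBasis K K3
  obtain ⟨L, _, _, _, _, hstL, -, hTL⟩ := exists_gal (F := F) (W := W) (Set.range fun i => ψ (b i))
    (Set.finite_range _)
  let algKL : Algebra K L := ((algebraMap F L).comp (algebraMap K F)).toAlgebra
  have hst1 : IsScalarTower K F L := IsScalarTower.of_algebraMap_eq fun x => rfl
  have hst2 : IsScalarTower K L W := IsScalarTower.of_algebraMap_eq fun x => by
    rw [IsScalarTower.algebraMap_apply K F W, IsScalarTower.algebraMap_apply K F L,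
      ← IsScalarTower.algebraMap_apply F L W]
  -- the image of `K3` lies in `L`
  have himg : ∀ x : K3, ψ x ∈ (IsScalarTower.toAlgHom K L W).range := by
    intro x
    rw [← b.sum_repr x, map_sum]
    refine sum_mem fun i _ => ?_
    rw [map_smul]
    refine Subalgebra.smul_mem _ ?_ _
    obtain ⟨y, hy⟩ := hTL (ψ (b i)) ⟨i, rfl⟩
    exact ⟨y, hy⟩
  let ψ1 : K3 →ₐ[K] (IsScalarTower.toAlgHom K L W).range := ψ.codRestrict _ himg
  let e : L ≃ₐ[K] (IsScalarTower.toAlgHom K L W).range :=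
    AlgEquiv.ofInjective (IsScalarTower.toAlgHom K L W) (algebraMap L W).injective
  let ψ2 : K3 →ₐ[K] L := (e.symm : _ →ₐ[K] L).comp ψ1
  let alg3L : Algebra K3 L := ψ2.toRingHom.toAlgebra
  have hst3 : IsScalarTower K K3 L := IsScalarTower.of_algebraMap_eq fun x => (ψ2.commutes x).symm
  exact ⟨L, inferInstance, inferInstance, algKL, alg3L, inferInstance, hst3, hst1⟩

/-- the core of the family of the final theorem, over a cofinal set of extensions; for all starting points -/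
theorem core_free0 {K : Type u} [Field K] [NumberField K]
    {P : ∀ (L : Type u) [Field L] [NumberField L], ℕ → L → L → Prop} (hP : GoodCond P)
    {ι : Type} [Finite ι] (f : ι → RatFunc K) (hf : ∀ i, 2 ≤ rdeg (f i)) (β : ι → OnePoint K) (Q A : Set ι)
    (hQ : ∀ i ∈ Q, (¬ Function.Injective fun n : ℕ => (ract (RingHom.id K) (f i))^[n] (β i)) ∨
      UniConj P (f i) (β i))
    (hA : ∀ i ∈ A, ∃ v : HeightOneSpectrum (𝓞 K), ExcMod v (f i) (β i) ∧ ∀ j, j ∉ Q → GoodTame v (f j))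
    {J : Type} [Finite J] (blk : ι → J) (E : J → ℕ)
    (hE : ∀ j j', j ≠ j' → Nat.Coprime (E j) (E j'))
    (hexp : ∀ i, i ∉ Q → i ∉ A → RHasExp (E (blk i)) (f i))
    (hblk : ∀ j, OrbitBlock (fun i : {i // (i ∉ Q ∧ i ∉ A) ∧ blk i = j} => f i.1)
        (fun i : {i // (i ∉ Q ∧ i ∉ A) ∧ blk i = j} => β i.1) ∨
      PrimeBlock (fun i : {i // (i ∉ Q ∧ i ∉ A) ∧ blk i = j} => f i.1)
        (fun i : {i // (i ∉ Q ∧ i ∉ A) ∧ blk i = j} => β i.1) ∨
      ∀ i, i ∉ Q → i ∉ A → blk i = j → TorusMap (algebraMap K (AlgebraicClosure K)) (f i))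
    (K3 : Type u) [Field K3] [NumberField K3] [Algebra K K3] :
    ∃ (K4 : Type u) (_ : Field K4) (_ : NumberField K4) (_ : Algebra K K4) (_ : Algebra K3 K4)
      (_ : IsScalarTower K K3 K4), CoreAt K4 {S : Set (HeightOneSpectrum (𝓞 K)) | ∃ α : ι → OnePoint K,
        (∀ i n, (ract (RingHom.id K) (f i))^[n] (α i) ≠ β i) ∧ S = RAvoidSet f α β} := by
  classical
  have hprov : Provides (fun i : {i // i ∉ Q} => RP.ofRat (f i.1)) (fun i => β i.1) :=
    provides_free f hf β Q A hA blk E hE hexp hblk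
  obtain ⟨F, _, _, _, _, hst, hext⟩ := exists_extTF hP
    (fun i : {i // ¬ i ∉ Q} => f i.1) (fun i => hf i.1)
    (fun i => β i.1) (fun i => hQ i.1 (not_not.1 i.2))
  have haF : Algebra.IsAlgebraic F (AlgebraicClosure K) := Algebra.IsAlgebraic.tower_top (K := K) F
  obtain ⟨K4, _, _, _, _, _, h3, h4⟩ := exists_common (K := K) F (AlgebraicClosure K) K3
  refine ⟨K4, inferInstance, inferInstance, inferInstance, inferInstance, h3, ?_⟩
  have h1 := coreAt_addF (F := F) (core_iff.1 (core_of_provides1 (fun i : {i // i ∉ Q} => RP.ofRat (f i.1))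
    (fun i => hf i.1) (fun i => β i.1) hprov) K4) (AlgebraicClosure K)
    (fun i : {i // ¬ i ∉ Q} => RP.ofRat (f i.1)) (fun i => hf i.1) (fun i => β i.1) hext
  refine h1.mono ?_
  rintro S ⟨α, hα, rfl⟩
  have hid : ∀ i n, (RP.ofRat (f i)).act^[n] (α i) ≠ β i := by
    intro i n
    have := hα i n
    rwa [ract_id] at this
  refine ⟨_, ⟨_, ⟨fun i => α i.1, fun i => hid i.1, rfl⟩, fun i => α i.1, fun i => hid i.1, rfl⟩, ?_⟩
  have hsub : (PAvoidSet (fun i : {i // i ∉ Q} => RP.ofRat (f i.1)) (fun i => α i.1)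
      (fun i => β i.1) ∩ PAvoidSet (fun i : {i // ¬ i ∉ Q} => RP.ofRat (f i.1))
        (fun i => α i.1) (fun i => β i.1)) ⊆ RAvoidSet f α β := by
    rw [← PAvoidSet_rat]
    rintro v ⟨hv1, hv2⟩ i n
    by_cases hi : i ∉ Q
    · exact hv1 ⟨i, hi⟩ n
    · exact hv2 ⟨i, hi⟩ n
  rw [Set.sdiff_eq_empty.2 hsub]
  exact Set.finite_empty

/-- the same with preperiodic starting points for the indices in `T`, and with the explicit conditions -/
theorem core_free {K : Type u} [Field K] [NumberField K]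
    {ι : Type} [Finite ι] (f : ι → RatFunc K) (hf : ∀ i, 2 ≤ rdeg (f i)) (β : ι → OnePoint K) (T Q A : Set ι)
    (hQ : ∀ i ∈ Q, i ∈ T ∨ (¬ Function.Injective fun n : ℕ => (ract (RingHom.id K) (f i))^[n] (β i)) ∨
      UniConj (fun L _ _ d c b => UniCondY L d c b) (f i) (β i))
    (hA : ∀ i ∈ A, ∃ v : HeightOneSpectrum (𝓞 K), ExcMod v (f i) (β i) ∧ ∀ j, j ∉ Q → GoodTame v (f j))
    {J : Type} [Finite J] (blk : ι → J) (E : J → ℕ)
    (hE : ∀ j j', j ≠ j' → Nat.Coprime (E j) (E j'))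
    (hexp : ∀ i, i ∉ Q → i ∉ A → RHasExp (E (blk i)) (f i))
    (hblk : ∀ j, OrbitBlock (fun i : {i // (i ∉ Q ∧ i ∉ A) ∧ blk i = j} => f i.1)
        (fun i : {i // (i ∉ Q ∧ i ∉ A) ∧ blk i = j} => β i.1) ∨
      PrimeBlock (fun i : {i // (i ∉ Q ∧ i ∉ A) ∧ blk i = j} => f i.1)
        (fun i : {i // (i ∉ Q ∧ i ∉ A) ∧ blk i = j} => β i.1) ∨
      ∀ i, i ∉ Q → i ∉ A → blk i = j → TorusMap (algebraMap K (AlgebraicClosure K)) (f i))
    (K3 : Type u) [Field K3] [NumberField K3] [Algebra K K3] :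
    ∃ (K4 : Type u) (_ : Field K4) (_ : NumberField K4) (_ : Algebra K K4) (_ : Algebra K3 K4)
      (_ : IsScalarTower K K3 K4), CoreAt K4 {S : Set (HeightOneSpectrum (𝓞 K)) | ∃ α : ι → OnePoint K,
        (∀ i n, (ract (RingHom.id K) (f i))^[n] (α i) ≠ β i) ∧
        (∀ i ∈ T, ¬ Function.Injective fun n : ℕ => (ract (RingHom.id K) (f i))^[n] (α i)) ∧
        S = RAvoidSet f α β} := by
  classical
  obtain ⟨K4, _, _, _, _, h3, h4⟩ := core_free0 uniCondY_good (fun i : {i // i ∉ T} => f i.1)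
    (fun i => hf i.1) (fun i => β i.1) {i | i.1 ∈ Q} {i | i.1 ∈ A} (fun i hi => by
      rcases hQ i.1 hi with h | h
      · exact absurd h i.2
      · exact h) (fun i hi => by
      obtain ⟨v, h1, h2⟩ := hA i.1 hi
      exact ⟨v, h1, fun j hj => h2 j.1 hj⟩) (fun i => blk i.1) E hE
    (fun i hi1 hi2 => hexp i.1 hi1 hi2) (fun j => by
      rcases hblk j with h | h | h
      · exact Or.inl (h.comp (fun i : {i : {i // i ∉ T} // (i ∉ {i : {i // i ∉ T} | i.1 ∈ Q} ∧
          i ∉ {i : {i // i ∉ T} | i.1 ∈ A}) ∧ blk i.1 = j} =>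
            (⟨i.1.1, i.2⟩ : {i // (i ∉ Q ∧ i ∉ A) ∧ blk i = j})))
      · exact Or.inr (Or.inl (h.comp (fun i : {i : {i // i ∉ T} // (i ∉ {i : {i // i ∉ T} | i.1 ∈ Q} ∧
          i ∉ {i : {i // i ∉ T} | i.1 ∈ A}) ∧ blk i.1 = j} =>
            (⟨i.1.1, i.2⟩ : {i // (i ∉ Q ∧ i ∉ A) ∧ blk i = j}))))
      · exact Or.inr (Or.inr fun i h1 h2 h3 => h i.1 h1 h2 h3)) K3
  refine ⟨K4, inferInstance, inferInstance, inferInstance, inferInstance, h3, ?_⟩
  refine h4.mono ?_
  rintro S ⟨α, hα, hT, rfl⟩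
  exact ⟨_, ⟨fun i => α i.1, fun i => hα i.1, rfl⟩, finite_drop f α β hα T hT⟩

end Pool.Agent.ORB
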