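import Pool.Agent.ORB.NBasic
import Pool.Agent.ORB.RPair

/-!
ORB, Theorem B for rational functions: points of `P^1(Ω)`, residue classes, charts. Definitions.
-/

namespace Pool.Agent.ORB.NR

open Polynomial IntermediateField Pool.Agent.ORB.NI

variable {F Ω : Type*} [Field F] [Field Ω] [Algebra F Ω]

/-- the action of a rational function over `F` on `P^1(Ω)` -/
noncomputable def rv (R : RP F) : OnePoint Ω → OnePoint Ω := (R.map (algebraMap F Ω)).act

/-- the points of level `k` above `b` -/
def NodeR (Ω : Type*) {F : Type*} [Field F] [Field Ω] [Algebra F Ω] (R : RP F) (b : OnePoint F) (k : ℕ) :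
    Set (OnePoint Ω) := {x | (rv R)^[k] x = pmap (algebraMap F Ω) b}

/-- the residue class of infinity -/
def Big (D : LocAbs F Ω) (x : OnePoint Ω) : Prop := ∀ z : Ω, x = (z : OnePoint Ω) → 1 < D.N z

open Classical in
/-- the local coordinate: `z` if `N z ≤ 1`, its inverse if `N z > 1`, `0` at infinity -/
noncomputable def co (D : LocAbs F Ω) (x : OnePoint Ω) : Ω :=
  OnePoint.elim x 0 (fun z => if 1 < D.N z then z⁻¹ else z)

/-- same residue class -/
def Cl (D : LocAbs F Ω) (x y : OnePoint Ω) : Prop := (Big D x ↔ Big D y) ∧ D.N (co D x - co D y) < 1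

/-- `x ∈ P^1(M)` -/
def InM (M : IntermediateField F Ω) (x : OnePoint Ω) : Prop := ∀ z : Ω, x = (z : OnePoint Ω) → z ∈ M

/-- the Wronskian -/
noncomputable def wr {F : Type*} [Field F] (P Q : F[X]) : F[X] := derivative P * Q - P * derivative Q

/-- a good pair -/
structure GP (D : LocAbs F Ω) (P Q : F[X]) : Prop where
  cP : ∀ n, D.N (algebraMap F Ω (P.coeff n)) ≤ 1
  cQ : ∀ n, D.N (algebraMap F Ω (Q.coeff n)) ≤ 1
  unit : ∀ z : Ω, D.N z ≤ 1 → D.N (aeval z P) = 1 ∨ D.N (aeval z Q) = 1
  wunit : ∃ n, D.N (algebraMap F Ω ((wr P Q).coeff n)) = 1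

/-- good reduction, the degree is smaller than the residue characteristic -/
structure GoodR (D : LocAbs F Ω) (R : RP F) : Prop where
  deg : 2 ≤ R.d
  tame : ∀ n : ℕ, 1 ≤ n → n ≤ R.d → D.N (n : Ω) = 1
  gp : GP D R.A R.B
  gp' : GP D (R.A.reflect R.d) (R.B.reflect R.d)

open Classical in
/-- the value of the derivative of `R` at `x`, in local coordinates -/
noncomputable def cr (D : LocAbs F Ω) (R : RP F) (x : OnePoint Ω) : ℝ :=
  if Big D x then D.N (aeval (co D x) (wr (R.A.reflect R.d) (R.B.reflect R.d)))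
  else D.N (aeval (co D x) (wr R.A R.B))

end Pool.Agent.ORB.NR
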