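import Pool.Agent.ORB.NRLevel
import Pool.Agent.ORB.Torus

/-!
ORB, Theorem B for rational functions: residually exceptional points. All the nodes above such a point are
residually critical, and only finitely many of their levels meet `P^1(M)`.
-/

namespace Pool.Agent.ORB.NR

open Polynomial IntermediateField Pool.Agent.ORB.NI

section
variable {F Ω : Type*} [Field F] [Field Ω] [Algebra F Ω] (D : LocAbs F Ω)

/-- every number is the coordinate, in the chart of `x₀`, of a point -/
theorem sc_pt (R : RP F) (x₀ : OnePoint Ω) (z : Ω) : ∃ x : OnePoint Ω,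
    rv R x = mk2 (aeval z (sc D R x₀).1) (aeval z (sc D R x₀).2) ∧ (Cl D x x₀ → D.N (z - co D x₀) < 1) := by
  by_cases h : Big D x₀
  · have h1 : sc D R x₀ = (R.A.reflect R.d, R.B.reflect R.d) := if_pos h
    rw [h1]
    by_cases hz : z = 0
    · refine ⟨OnePoint.infty, ?_, fun hc => ?_⟩
      · have h0 : ∀ P : F[X], aeval (0 : Ω) (P.reflect R.d) = algebraMap F Ω (P.coeff R.d) := by
          intro P
          rw [aeval_def, eval₂_at_zero, coeff_reflect, revAt_zero]
        rw [rv_infty, hz, h0, h0]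
      · rw [hz]
        have := hc.2
        rwa [co_infty] at this
    · refine ⟨((z⁻¹ : Ω) : OnePoint Ω), ?_, fun hc => ?_⟩
      · have h2 := aeval_reflect R.hA (inv_ne_zero hz)
        have h3 := aeval_reflect R.hB (inv_ne_zero hz)
        rw [inv_inv] at h2 h3
        rw [rv_coe, ← h2, ← h3, mk2_mul (pow_ne_zero _ (inv_ne_zero hz))]
      · have h2 := (big_coe D).1 (hc.1.2 h)
        have := hc.2
        rwa [co_big D h2, inv_inv] at this
  · have h1 : sc D R x₀ = (R.A, R.B) := if_neg h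
    rw [h1]
    refine ⟨(z : OnePoint Ω), rv_coe R z, fun hc => ?_⟩
    have h2 : ¬ Big D (z : OnePoint Ω) := fun h' => h (hc.1.1 h')
    rw [big_coe, not_lt] at h2
    have := hc.2
    rwa [co_small D h2] at this

/-- the point at infinity of the chart of `x₀` -/
theorem sc_top (R : RP F) (x₀ : OnePoint Ω) : ∃ x : OnePoint Ω,
    rv R x = mk2 (algebraMap F Ω ((sc D R x₀).1.coeff R.d)) (algebraMap F Ω ((sc D R x₀).2.coeff R.d)) ∧
      ¬ Cl D x x₀ := by
  by_cases h : Big D x₀
  · have h1 : sc D R x₀ = (R.A.reflect R.d, R.B.reflect R.d) := if_pos h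
    rw [h1]
    refine ⟨((0 : Ω) : OnePoint Ω), ?_, fun hc => ?_⟩
    · have h0 : ∀ P : F[X], aeval (0 : Ω) P = algebraMap F Ω ((P.reflect R.d).coeff R.d) := by
        intro P
        rw [coeff_reflect, revAt_le (le_refl R.d), Nat.sub_self, aeval_def, eval₂_at_zero]
      rw [rv_coe, h0, h0]
    · have h2 := (big_coe D).1 (hc.1.2 h)
      rw [N_zero] at h2
      exact absurd h2 (by norm_num)
  · have h1 : sc D R x₀ = (R.A, R.B) := if_neg h
    rw [h1]
    exact ⟨OnePoint.infty, rv_infty R, fun hc => h (hc.1.1 (big_infty D))⟩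

theorem sc_ne (R : RP F) (x₀ : OnePoint Ω) (z : Ω) :
    aeval z (sc D R x₀).1 ≠ 0 ∨ aeval z (sc D R x₀).2 ≠ 0 := by
  by_cases h : Big D x₀
  · have h1 : sc D R x₀ = (R.A.reflect R.d, R.B.reflect R.d) := if_pos h
    rw [h1]
    by_cases hz : z = 0
    · have h0 : ∀ P : F[X], aeval (0 : Ω) (P.reflect R.d) = algebraMap F Ω (P.coeff R.d) := by
        intro P
        rw [aeval_def, eval₂_at_zero, coeff_reflect, revAt_zero]
      rw [hz, h0, h0]
      rcases R.htop with h | h
      · exact Or.inl ((_root_.map_ne_zero _).2 h)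
      · exact Or.inr ((_root_.map_ne_zero _).2 h)
    · have h2 := aeval_reflect R.hA (inv_ne_zero hz)
      have h3 := aeval_reflect R.hB (inv_ne_zero hz)
      rw [inv_inv] at h2 h3
      have h4 := (R.map (algebraMap F Ω)).eval_ne z⁻¹
      simp only [RP.map, eval_map_algebraMap] at h4
      rw [← h2, ← h3] at h4
      rcases h4 with h4 | h4
      · exact Or.inl (right_ne_zero_of_mul h4)
      · exact Or.inr (right_ne_zero_of_mul h4)
  · have h1 : sc D R x₀ = (R.A, R.B) := if_neg h
    rw [h1]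
    have h4 := (R.map (algebraMap F Ω)).eval_ne z
    simp only [RP.map, eval_map_algebraMap] at h4
    exact h4

theorem sc_top_ne (R : RP F) (x₀ : OnePoint Ω) :
    algebraMap F Ω ((sc D R x₀).1.coeff R.d) ≠ 0 ∨ algebraMap F Ω ((sc D R x₀).2.coeff R.d) ≠ 0 := by
  by_cases h : Big D x₀
  · have h1 : sc D R x₀ = (R.A.reflect R.d, R.B.reflect R.d) := if_pos h
    rw [h1]
    have h0 : ∀ P : F[X], algebraMap F Ω ((P.reflect R.d).coeff R.d) = aeval (0 : Ω) P := by
      intro P
      rw [coeff_reflect, revAt_le (le_refl R.d), Nat.sub_self, aeval_def, eval₂_at_zero]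
    rw [h0, h0]
    have h4 := (R.map (algebraMap F Ω)).eval_ne 0
    simp only [RP.map, eval_map_algebraMap] at h4
    exact h4
  · have h1 : sc D R x₀ = (R.A, R.B) := if_neg h
    rw [h1]
    rcases R.htop with h | h
    · exact Or.inl ((_root_.map_ne_zero _).2 h)
    · exact Or.inr ((_root_.map_ne_zero _).2 h)

/-- a point whose fibre lies in its residue class is residually critical -/
theorem cr_lt_of_single [IsAlgClosed Ω] {R : RP F} (hR : GoodR D R) {x₀ : OnePoint Ω}
    (h : ∀ y, rv R y = rv R x₀ → Cl D y x₀) : cr D R x₀ < 1 := by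
  classical
  obtain ⟨P, Q, hPQ⟩ : ∃ P Q, sc D R x₀ = (P, Q) := ⟨_, _, rfl⟩
  have hG := sc_gp D hR x₀
  have hd := sc_deg D R x₀
  have hpt := sc_pt D R x₀
  have htop := sc_top D R x₀
  have hne := sc_ne D R x₀
  have htn := sc_top_ne D R x₀
  have hval := rv_eq_mk2 D R x₀
  rw [sc_cr]
  rw [hPQ] at hG hd hpt htop hne htn hval ⊢
  set z₀ := co D x₀ with hz₀
  have hz1 : D.N z₀ ≤ 1 := N_co_le D x₀
  set p := aeval z₀ P with hp
  set q := aeval z₀ Q with hq
  have hp1 : D.N p ≤ 1 := aeval_int D hG.cP hz1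
  have hq1 : D.N q ≤ 1 := aeval_int D hG.cQ hz1
  have hpq := hne z₀
  set G : Polynomial Ω := C q * P.map (algebraMap F Ω) - C p * Q.map (algebraMap F Ω) with hGdef
  have hGe : ∀ z, G.eval z = q * aeval z P - p * aeval z Q := by
    intro z
    rw [hGdef, eval_sub, eval_mul, eval_mul, eval_C, eval_C, eval_map_algebraMap, eval_map_algebraMap]
  have hGd : G.natDegree ≤ R.d := by
    refine (natDegree_sub_le _ _).trans (max_le ?_ ?_)
    · exact (natDegree_C_mul_le _ _).trans (natDegree_map_le.trans hd.1)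
    · exact (natDegree_C_mul_le _ _).trans (natDegree_map_le.trans hd.2)
  have hlead : G.coeff R.d = q * algebraMap F Ω (P.coeff R.d) - p * algebraMap F Ω (Q.coeff R.d) := by
    rw [hGdef, coeff_sub, coeff_C_mul, coeff_C_mul, coeff_map, coeff_map]
  have hlead0 : G.coeff R.d ≠ 0 := by
    intro h0
    obtain ⟨x, hx1, hx2⟩ := htop
    apply hx2
    apply h
    rw [hx1, hval, mk2_eq_iff htn hpq]
    rw [hlead] at h0
    linear_combination h0
  have hdeg : G.natDegree = R.d := le_antisymm hGd (le_natDegree_of_ne_zero hlead0)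
  have hG0 : G ≠ 0 := by
    rintro h0
    rw [h0, coeff_zero] at hlead0
    exact hlead0 rfl
  have hspl : G.Splits := IsAlgClosed.splits G
  have hcard : G.roots.card = R.d := by rw [← hspl.natDegree_eq_card_roots, hdeg]
  have hroots : ∀ r ∈ G.roots, D.N (r - z₀) < 1 := by
    intro r hr
    have h0 : G.eval r = 0 := (mem_roots hG0).1 hr
    obtain ⟨x, hx1, hx2⟩ := hpt r
    apply hx2
    apply h
    rw [hx1, hval, mk2_eq_iff (hne r) hpq]
    rw [hGe] at h0
    linear_combination h0
  have hz₀r : z₀ ∈ G.roots := by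
    rw [mem_roots hG0, IsRoot, hGe]
    ring
  have hder : aeval z₀ (wr P Q) = G.derivative.eval z₀ := by
    rw [hGdef, derivative_sub, derivative_mul, derivative_mul, derivative_C, derivative_C, zero_mul, zero_mul,
      zero_add, zero_add, eval_sub, eval_mul, eval_mul, eval_C, eval_C, derivative_map, derivative_map,
      eval_map_algebraMap, eval_map_algebraMap, wr, map_sub, map_mul, map_mul]
    ring
  have hfac : G = (X - C z₀) * (C G.leadingCoeff * ((G.roots.erase z₀).map fun a => X - C a).prod) := by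
    conv_lhs => rw [hspl.eq_prod_roots, ← Multiset.cons_erase hz₀r, Multiset.map_cons, Multiset.prod_cons]
    ring
  have hder2 : G.derivative.eval z₀ = G.leadingCoeff * ((G.roots.erase z₀).map fun a => z₀ - a).prod := by
    conv_lhs => rw [hfac]
    rw [derivative_mul, derivative_X_sub_C, one_mul, eval_add, eval_mul (p := X - C z₀), eval_sub, eval_X, eval_C,
      sub_self, zero_mul, add_zero, eval_mul, eval_C, eval_multiset_prod, Multiset.map_map]
    congr 2
    refine Multiset.map_congr rfl fun a _ => ?_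
    show eval z₀ (X - C a) = _
    rw [eval_sub, eval_X, eval_C]
  have hl1 : D.N G.leadingCoeff ≤ 1 := by
    rw [leadingCoeff, hdeg, hlead]
    refine (N_sub_le D _ _).trans (max_le ?_ ?_)
    · rw [N_mul]
      exact mul_le_one₀ hq1 (N_nonneg D _) (hG.cP _)
    · rw [N_mul]
      exact mul_le_one₀ hp1 (N_nonneg D _) (hG.cQ _)
  rw [hder, hder2, N_mul]
  have hprod : ∀ s : Multiset Ω, (∀ r ∈ s, D.N (r - z₀) < 1) → D.N ((s.map fun a => z₀ - a).prod) ≤ 1 ∧
      (s ≠ 0 → D.N ((s.map fun a => z₀ - a).prod) < 1) := by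
    intro s
    induction s using Multiset.induction_on with
    | empty =>
      intro _
      rw [Multiset.map_zero, Multiset.prod_zero, N_one]
      exact ⟨le_rfl, fun h => absurd rfl h⟩
    | cons a s ih =>
      intro hs
      rw [Multiset.map_cons, Multiset.prod_cons, N_mul]
      have h1 : D.N (z₀ - a) < 1 := by
        rw [N_symm]
        exact hs a (Multiset.mem_cons_self a s)
      have h2 := (ih fun r hr => hs r (Multiset.mem_cons_of_mem hr)).1
      have h3 : D.N (z₀ - a) * D.N ((s.map fun a => z₀ - a).prod) < 1 :=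
        (mul_le_of_le_one_right (N_nonneg D _) h2).trans_lt h1
      exact ⟨h3.le, fun _ => h3⟩
  have hs : G.roots.erase z₀ ≠ 0 := by
    intro h0
    have h1 := Multiset.card_erase_of_mem hz₀r
    rw [h0, Multiset.card_zero, hcard, Nat.pred_eq_sub_one] at h1
    have := hR.deg
    omega
  have h5 := (hprod _ fun r hr => hroots r (Multiset.mem_of_mem_erase hr)).2 hs
  exact (mul_le_of_le_one_left (N_nonneg D _) hl1).trans_lt h5

/-- residually exceptional -/
def Exc (R : RP F) (β : OnePoint Ω) : Prop := ∀ y : OnePoint Ω, Cl D (rv R (rv R y)) β → Cl D y β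

variable {D}

theorem rv_surj [IsAlgClosed Ω] {R : RP F} (hR : GoodR D R) (y : OnePoint Ω) : ∃ x, rv R x = y :=
  RP.surj (R.map (algebraMap F Ω)) (by
    show 1 ≤ R.d
    have := hR.deg
    omega) y

section exc
variable [IsAlgClosed Ω] {R : RP F} (hR : GoodR D R) {β : OnePoint Ω} (h : Exc D R β)
include hR h

theorem Exc.one {y : OnePoint Ω} (hy : Cl D (rv R y) β) : Cl D y (rv R β) := by
  obtain ⟨z, rfl⟩ := rv_surj hR y
  exact cl_rv D hR (h z hy)

theorem Exc.per : Cl D ((rv R)^[2] β) β := by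
  obtain ⟨y, hy⟩ := rv_surj hR β
  have h1 := Exc.one hR h (y := y) (by rw [hy]; exact Cl.refl β)
  have h2 := cl_rv D hR h1
  rw [hy] at h2
  exact Cl.symm h2

theorem Exc.two {y : OnePoint Ω} (hy : Cl D (rv R y) (rv R β)) : Cl D y β := by
  apply h
  exact Cl.trans (cl_rv D hR hy) (Exc.per hR h)

/-- the two residue classes -/
theorem Exc.node {k : ℕ} {x : OnePoint Ω} (hx : (rv R)^[k] x = β) : Cl D x β ∨ Cl D x (rv R β) := by
  induction k generalizing x with
  | zero =>
    left
    have h1 : x = β := hx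
    rw [h1]
    exact Cl.refl β
  | succ k ih =>
    rw [Function.iterate_succ_apply] at hx
    rcases ih hx with h1 | h1
    · exact Or.inr (Exc.one hR h h1)
    · exact Or.inl (Exc.two hR h h1)

theorem Exc.cr_lt {x : OnePoint Ω} (hx : Cl D x β ∨ Cl D x (rv R β)) : cr D R x < 1 := by
  rcases hx with hx | hx
  · refine cr_lt_of_single D hR fun y hy => ?_
    have h1 : Cl D (rv R y) (rv R β) := by
      rw [hy]
      exact cl_rv D hR hx
    exact Cl.trans (Exc.two hR h h1) (Cl.symm hx)
  · refine cr_lt_of_single D hR fun y hy => ?_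
    have h1 : Cl D (rv R y) β := by
      rw [hy]
      exact Cl.trans (cl_rv D hR hx) (Exc.per hR h)
    exact Cl.trans (Exc.one hR h h1) (Cl.symm hx)

end exc

end

section
variable {F Ω : Type*} [Field F] [Field Ω] [Algebra F Ω] [CharZero F] [IsAlgClosed Ω] [Algebra.IsAlgebraic F Ω]
  {D : LocAbs F Ω}

/-- above a residually exceptional point, no node of high level lies in `P^1(M)` -/
theorem exc_level {R : RP F} (hR : GoodR D R) (b : OnePoint F) (hb : ∀ n, 1 ≤ n → R.act^[n] b ≠ b)
    (hexc : Exc D R (pmap (algebraMap F Ω) b))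
    {E : ℕ} (hE0 : E ≠ 0) (w : ℕ → Ω) (hw0 : w 0 = algebraMap F Ω D.π)
    (hw : ∀ n, w (n + 1) ^ E = w n) (D₀ L : ℕ)
    (hD₀ : ∀ x : OnePoint Ω, cr D R x < 1 → ∃ r, 1 ≤ r ∧ ∀ i, D₀ ≤ i →
      Cl D ((rv R)^[i + r] x) ((rv R)^[i] x)) :
    ∃ s, ∀ k, s ≤ k → ∀ x ∈ NodeR Ω R b k, ¬ InM (MF D (w L)) x := by
  have hcr : cr D R ((rv R)^[0] (pmap (algebraMap F Ω) b)) < 1 := Exc.cr_lt hR hexc (Or.inl (Cl.refl _))
  obtain ⟨s, hs⟩ := levels_c hR b hb hE0 w hw0 hw D₀ L hD₀ (r := 2) one_le_two (Exc.per hR hexc) hcr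
  refine ⟨s, fun k hk x hx hxM => ?_⟩
  obtain ⟨y, hy⟩ := rv_surj hR x
  have hyn : y ∈ NodeR Ω R b (k + 1) := nodeR_succ.2 (by rw [hy]; exact hx)
  have := hs (k + 1) y hyn (Exc.cr_lt hR hexc (Exc.node hR hexc hyn)) (by rw [hy]; exact hxM)
  omega

end

end Pool.Agent.ORB.NR
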