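import Pool.Agent.ORB.NRPlace
import Pool.Agent.ORB.NRConj
import Pool.Agent.ORB.NFinal

/-!
ORB: final theorem for rational functions: targets which are exceptional modulo some prime, preperiodic targets
and unicritical maps, and coprime blocks together.
-/

namespace Pool.Agent.ORB

open NumberField IsDedekindDomain Polynomial NI NR

universe u

/-- `β` is exceptional for `f` modulo `v`: modulo `v`, the map `f ∘ f` takes the value `β` only at `β`. This is
expressed with points over the finite extensions `L` of `K` and the primes `w` of `L` above `v`. -/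
def ExcMod {K : Type u} [Field K] [NumberField K] (v : HeightOneSpectrum (𝓞 K)) (f : RatFunc K) (β : OnePoint K) :
    Prop :=
  ∀ (L : Type u) [Field L] [NumberField L] [Algebra K L] (w : HeightOneSpectrum (𝓞 L))
    [w.asIdeal.LiesOver v.asIdeal] (x : OnePoint L),
    SameRed w (ract (algebraMap K L) f (ract (algebraMap K L) f x)) (OnePoint.map (algebraMap K L) β) →
      SameRed w x (OnePoint.map (algebraMap K L) β)

/-- `f` has good reduction at `v`, and `1, ..., deg f` are units at `v` -/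
def GoodTame {K : Type u} [Field K] [NumberField K] (v : HeightOneSpectrum (𝓞 K)) (f : RatFunc K) : Prop :=
  GoodRed (RingHom.id K) v f ∧ ∀ n : ℕ, 1 ≤ n → n ≤ rdeg f → v.valuation K (n : K) = 1

theorem ExcMod.resExc {K : Type u} [Field K] [NumberField K] {v : HeightOneSpectrum (𝓞 K)} {f : RatFunc K}
    {β : OnePoint K} (h : ExcMod v f β) : ResExc v (RP.ofRat f) β := by
  intro L _ _ _ w _ x hx
  refine h L w x ?_
  rw [ract_eq, ract_eq]
  exact hx

/-- a point close to a totally invariant point is exceptional modulo `v` -/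
theorem ExcMod.of_totInv {K : Type u} [Field K] [NumberField K] {v : HeightOneSpectrum (𝓞 K)} {f : RatFunc K}
    (hf : 1 ≤ rdeg f) (hg : GoodRed (RingHom.id K) v f) {e β : OnePoint K} (he : TotInv f e)
    (hβ : SameRed v β e) : ExcMod v f β := by
  have hg' : RGood v (RP.ofRat f) := by
    have h1 := hg.rGood
    rwa [RP.map_id] at h1
  have hTI := he.tInv hf
  intro L _ _ _ w hw x hx
  rw [ract_eq, ract_eq] at hx
  have hTIL : TInv ((RP.ofRat f).map (algebraMap K L)) (pmap (algebraMap K L) e) := by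
    intro W _ _ x
    let _ : Algebra K W := ((algebraMap L W).comp (algebraMap K L)).toAlgebra
    have h1 := hTI W x
    rw [RP.map_map, pmap_comp]
    exact h1
  have hβL : SameRed w (OnePoint.map (algebraMap K L) β) (pmap (algebraMap K L) e) := (sameRed_ext v w β e).2 hβ
  have h1 := tInv_sameRed w ((RP.ofRat f).map (algebraMap K L)) hf (rgood_ext v w hg') hTIL (hx.trans hβL)
  exact (tInv_sameRed w ((RP.ofRat f).map (algebraMap K L)) hf (rgood_ext v w hg') hTIL h1).trans hβL.symm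

/-- the automorphisms for all indices outside `Q` -/
theorem provides_free {K : Type u} [Field K] [NumberField K]
    {ι : Type} [Finite ι] (f : ι → RatFunc K) (hf : ∀ i, 2 ≤ rdeg (f i)) (β : ι → OnePoint K) (Q A : Set ι)
    (hA : ∀ i ∈ A, ∃ v : HeightOneSpectrum (𝓞 K), ExcMod v (f i) (β i) ∧ ∀ j, j ∉ Q → GoodTame v (f j))
    {J : Type} [Finite J] (blk : ι → J) (E : J → ℕ)
    (hE : ∀ j j', j ≠ j' → Nat.Coprime (E j) (E j'))
    (hexp : ∀ i, i ∉ Q → i ∉ A → RHasExp (E (blk i)) (f i))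
    (hblk : ∀ j, OrbitBlock (fun i : {i // (i ∉ Q ∧ i ∉ A) ∧ blk i = j} => f i.1)
        (fun i : {i // (i ∉ Q ∧ i ∉ A) ∧ blk i = j} => β i.1) ∨
      PrimeBlock (fun i : {i // (i ∉ Q ∧ i ∉ A) ∧ blk i = j} => f i.1)
        (fun i : {i // (i ∉ Q ∧ i ∉ A) ∧ blk i = j} => β i.1) ∨
      ∀ i, i ∉ Q → i ∉ A → blk i = j → TorusMap (algebraMap K (AlgebraicClosure K)) (f i)) :
    Provides (fun i : {i // i ∉ Q} => RP.ofRat (f i.1)) (fun i => β i.1) := by
  classical
  -- the blocks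
  have hprov1 : Provides (fun i : {i // i ∉ Q ∧ i ∉ A} => RP.ofRat (f i.1)) (fun i => β i.1) := by
    refine provides_of_blocks (fun i : {i // i ∉ Q ∧ i ∉ A} => f i.1) (fun i => hf i.1) (fun i => β i.1)
      (fun i => blk i.1) E hE (fun i => hexp i.1 i.2.1 i.2.2) (fun j => ?_)
    rcases hblk j with h | h | h
    · exact provides_of_orbit (fun i : {i : {i // i ∉ Q ∧ i ∉ A} // blk i.1 = j} => f i.1.1) (fun i => hf i.1.1)
        (fun i => β i.1.1) (h.comp (fun i : {i : {i // i ∉ Q ∧ i ∉ A} // blk i.1 = j} => ⟨i.1.1, i.1.2, i.2⟩))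
    · exact provides_of_place (fun i : {i : {i // i ∉ Q ∧ i ∉ A} // blk i.1 = j} => RP.ofRat (f i.1.1))
        (fun i => hf i.1.1) (fun i => β i.1.1)
        (h.comp (fun i : {i : {i // i ∉ Q ∧ i ∉ A} // blk i.1 = j} => ⟨i.1.1, i.1.2, i.2⟩)).placeBlock
    · exact provides_torus (fun i : {i : {i // i ∉ Q ∧ i ∉ A} // blk i.1 = j} => RP.ofRat (f i.1.1)) (fun i => by
        have := hf i.1.1
        show 1 ≤ rdeg (f i.1.1)
        omega) (fun i => (h i.1.1 i.1.2.1 i.1.2.2 i.2).isTorus) (fun i => β i.1.1)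
  refine provides_exc (fun i : {i // i ∉ Q} => RP.ofRat (f i.1)) (fun i => hf i.1) (fun i => β i.1)
    {i | i.1 ∈ A} (fun i hi => ?_) ?_
  · obtain ⟨v, he, hv⟩ := hA i.1 hi
    refine ⟨v, he.resExc, fun j => ⟨?_, (hv j.1 j.2).2⟩⟩
    have h1 := (hv j.1 j.2).1.rGood
    rwa [RP.map_id] at h1
  · exact hprov1.comp (fun i : {i : {i // i ∉ Q} // i ∉ {i : {i // i ∉ Q} | i.1 ∈ A}} =>
      (⟨i.1.1, i.1.2, i.2⟩ : {i // i ∉ Q ∧ i ∉ A}))

/-- **Main theorem for rational functions**, for a general condition `P` on the unicritical indices. The indices in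
`Q` have a preperiodic `β i` or are unicritical up to conjugacy and iteration; for the indices in `A` there is a
prime at which all `f j`, `j ∉ Q`, have good tame reduction and modulo which `β i` is exceptional for `f i`; the
other indices are divided into coprime blocks. -/
theorem thmBE0 {K : Type u} [Field K] [NumberField K]
    {P : ∀ (L : Type u) [Field L] [NumberField L], ℕ → L → L → Prop} (hP : GoodCond P)
    {ι : Type} [Finite ι] (f : ι → RatFunc K) (hf : ∀ i, 2 ≤ rdeg (f i)) (α β : ι → OnePoint K)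
    (hαβ : ∀ i n, (ract (RingHom.id K) (f i))^[n] (α i) ≠ β i) (Q A : Set ι)
    (hQ : ∀ i ∈ Q, (¬ Function.Injective fun n : ℕ => (ract (RingHom.id K) (f i))^[n] (β i)) ∨
      UniConj P (f i) (β i))
    (hA : ∀ i ∈ A, ∃ v : HeightOneSpectrum (𝓞 K), ExcMod v (f i) (β i) ∧ ∀ j, j ∉ Q → GoodTame v (f j))
    {J : Type} [Finite J] (blk : ι → J) (E : J → ℕ)
    (hE : ∀ j j', j ≠ j' → Nat.Coprime (E j) (E j'))
    (hexp : ∀ i, i ∉ Q → i ∉ A → RHasExp (E (blk i)) (f i))
    (hblk : ∀ j, OrbitBlock (fun i : {i // (i ∉ Q ∧ i ∉ A) ∧ blk i = j} => f i.1)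
        (fun i : {i // (i ∉ Q ∧ i ∉ A) ∧ blk i = j} => β i.1) ∨
      PrimeBlock (fun i : {i // (i ∉ Q ∧ i ∉ A) ∧ blk i = j} => f i.1)
        (fun i : {i // (i ∉ Q ∧ i ∉ A) ∧ blk i = j} => β i.1) ∨
      ∀ i, i ∉ Q → i ∉ A → blk i = j → TorusMap (algebraMap K (AlgebraicClosure K)) (f i)) :
    PosDensity (RAvoidSet f α β) := by
  classical
  have hprov : Provides (fun i : {i // i ∉ Q} => RP.ofRat (f i.1)) (fun i => β i.1) :=
    provides_free f hf β Q A hA blk E hE hexp hblk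
  obtain ⟨F, _, _, _, _, hst, hext⟩ := exists_extTF hP
    (fun i : {i // ¬ i ∉ Q} => f i.1) (fun i => hf i.1)
    (fun i => β i.1) (fun i => hQ i.1 (not_not.1 i.2))
  have haF : Algebra.IsAlgebraic F (AlgebraicClosure K) := Algebra.IsAlgebraic.tower_top (K := K) F
  have hid : ∀ i n, (RP.ofRat (f i)).act^[n] (α i) ≠ β i := by
    intro i n
    have := hαβ i n
    rwa [ract_id] at this
  have h1 := posDensity_prov_extTF F (AlgebraicClosure K)
    (fun i : {i // i ∉ Q} => RP.ofRat (f i.1))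
    (fun i => hf i.1) (fun i => α i.1) (fun i => β i.1) (fun i => hid i.1) hprov
    (fun i : {i // ¬ i ∉ Q} => RP.ofRat (f i.1)) (fun i => hf i.1) (fun i => α i.1)
    (fun i => β i.1) (fun i => hid i.1) hext
  refine posDensity_mono ?_ h1
  have hsub : (PAvoidSet (fun i : {i // i ∉ Q} => RP.ofRat (f i.1)) (fun i => α i.1)
      (fun i => β i.1) ∩ PAvoidSet (fun i : {i // ¬ i ∉ Q} => RP.ofRat (f i.1))
        (fun i => α i.1) (fun i => β i.1)) ⊆ RAvoidSet f α β := by
    rw [← PAvoidSet_rat]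
    rintro v ⟨hv1, hv2⟩ i n
    by_cases hi : i ∉ Q
    · exact hv1 ⟨i, hi⟩ n
    · exact hv2 ⟨i, hi⟩ n
  rw [Set.sdiff_eq_empty.2 hsub]
  exact Set.finite_empty

/-- **Main theorem for rational functions**, with preperiodic `α i` as well -/
theorem thmBE {K : Type u} [Field K] [NumberField K]
    {P : ∀ (L : Type u) [Field L] [NumberField L], ℕ → L → L → Prop} (hP : GoodCond P)
    {ι : Type} [Finite ι] (f : ι → RatFunc K) (hf : ∀ i, 2 ≤ rdeg (f i)) (α β : ι → OnePoint K)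
    (hαβ : ∀ i n, (ract (RingHom.id K) (f i))^[n] (α i) ≠ β i) (Q A : Set ι)
    (hQ : ∀ i ∈ Q, (¬ Function.Injective fun n : ℕ => (ract (RingHom.id K) (f i))^[n] (α i)) ∨
      (¬ Function.Injective fun n : ℕ => (ract (RingHom.id K) (f i))^[n] (β i)) ∨ UniConj P (f i) (β i))
    (hA : ∀ i ∈ A, ∃ v : HeightOneSpectrum (𝓞 K), ExcMod v (f i) (β i) ∧ ∀ j, j ∉ Q → GoodTame v (f j))
    {J : Type} [Finite J] (blk : ι → J) (E : J → ℕ)
    (hE : ∀ j j', j ≠ j' → Nat.Coprime (E j) (E j'))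
    (hexp : ∀ i, i ∉ Q → i ∉ A → RHasExp (E (blk i)) (f i))
    (hblk : ∀ j, OrbitBlock (fun i : {i // (i ∉ Q ∧ i ∉ A) ∧ blk i = j} => f i.1)
        (fun i : {i // (i ∉ Q ∧ i ∉ A) ∧ blk i = j} => β i.1) ∨
      PrimeBlock (fun i : {i // (i ∉ Q ∧ i ∉ A) ∧ blk i = j} => f i.1)
        (fun i : {i // (i ∉ Q ∧ i ∉ A) ∧ blk i = j} => β i.1) ∨
      ∀ i, i ∉ Q → i ∉ A → blk i = j → TorusMap (algebraMap K (AlgebraicClosure K)) (f i)) :
    PosDensity (RAvoidSet f α β) := by
  classical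
  set T : Set ι := {i | i ∈ Q ∧ ¬ Function.Injective fun n : ℕ => (ract (RingHom.id K) (f i))^[n] (α i)} with hTdef
  refine posDensity_drop f α β hαβ T (fun i hi => hi.2) ?_
  refine thmBE0 hP (fun i : {i // i ∉ T} => f i.1) (fun i => hf i.1) (fun i => α i.1) (fun i => β i.1)
    (fun i => hαβ i.1) {i | i.1 ∈ Q} {i | i.1 ∈ A} (fun i hi => ?_)
    (fun i hi => ?_) (fun i => blk i.1) E hE
    (fun i hi1 hi2 => hexp i.1 hi1 hi2) (fun j => ?_)
  · rcases hQ i.1 hi with h | h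
    · exact absurd ⟨hi, h⟩ i.2
    · exact h
  · obtain ⟨v, h1, h2⟩ := hA i.1 hi
    exact ⟨v, h1, fun j hj => h2 j.1 hj⟩
  · rcases hblk j with h | h | h
    · exact Or.inl (h.comp (fun i : {i : {i // i ∉ T} // (i ∉ {i : {i // i ∉ T} | i.1 ∈ Q} ∧
        i ∉ {i : {i // i ∉ T} | i.1 ∈ A}) ∧ blk i.1 = j} =>
          (⟨i.1.1, i.2⟩ : {i // (i ∉ Q ∧ i ∉ A) ∧ blk i = j})))
    · exact Or.inr (Or.inl (h.comp (fun i : {i : {i // i ∉ T} // (i ∉ {i : {i // i ∉ T} | i.1 ∈ Q} ∧
        i ∉ {i : {i // i ∉ T} | i.1 ∈ A}) ∧ blk i.1 = j} =>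
          (⟨i.1.1, i.2⟩ : {i // (i ∉ Q ∧ i ∉ A) ∧ blk i = j}))))
    · exact Or.inr (Or.inr fun i h1 h2 h3 => h i.1 h1 h2 h3)

end Pool.Agent.ORB
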