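import Pool.Agent.ORB.UBranchX

/-!
ORB, Theorem V for unicritical maps: the engine, with the transitivity of the pointwise stabilizer of a level
on the children of the nodes of the level in place of flips.
-/

set_option autoImplicit false

namespace Pool.Agent.ORB.UQ

open Finset Polynomial

universe u

/-- the pointwise stabilizer of the level `l` is transitive on the children of every node of the level `l` -/
def TransAt {K : Type*} [Field K] (d : ℕ) (W : Type*) [Field W] [Algebra K W] (c b : K) (l : ℕ) : Prop :=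
  ∀ z ∈ Lev d W c b (l + 1), ∀ z' ∈ Lev d W c b (l + 1),
    uf d (algebraMap K W c) z = uf d (algebraMap K W c) z' →
      ∃ g : W ≃ₐ[K] W, (∀ y ∈ Lev d W c b l, g y = y) ∧ g z = z'

section basic
variable {K W : Type*} [Field K] [Field W] [Algebra K W]

theorem transAt_of_flip {d : ℕ} (hd : d ≠ 0) {c b ζ : K} (hζ : IsPrimitiveRoot ζ d) {l : ℕ}
    (h : FlipAt d ζ W c b l) : TransAt d W c b l := by
  intro z hz z' _ hzz
  obtain ⟨g, hg1, hg2⟩ := h
  obtain ⟨i, _, hi⟩ := (uf_eq_iff hd hζ).1 hzz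
  refine ⟨g ^ i, fun y hy => fix_pow (hg1 y hy) i, ?_⟩
  rw [flip_pow hg2 i z hz, hi]

/-- transitivity with a given finite set fixed -/
theorem trans_fixing [IsAlgClosed W] {d : ℕ} (hd : d ≠ 0) {c b : K} {l₀ : ℕ}
    (hF : ∀ l, l₀ ≤ l → TransAt d W c b l)
    (T : Set W) (hT : T.Finite) (hst : ∀ (g : W ≃ₐ[K] W), ∀ t ∈ T, g t ∈ T) :
    ∃ N, l₀ ≤ N ∧ ∀ l, N ≤ l → ∀ z ∈ Lev d W c b (l + 1), ∀ z' ∈ Lev d W c b (l + 1),
      uf d (algebraMap K W c) z = uf d (algebraMap K W c) z' →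
      ∃ g : W ≃ₐ[K] W, ((∀ t ∈ T, g t = t) ∧ ∀ y ∈ Lev d W c b l, g y = y) ∧ g z = z' := by
  classical
  have hTf : Finite T := hT
  -- the restrictions to `T` of the automorphisms which fix the level `l`
  have hex : ∀ φ : T → T, ∃ n : ℕ, (∃ l : ℕ, ¬ ∃ g : W ≃ₐ[K] W, (∀ y ∈ Lev d W c b l, g y = y) ∧
      ∀ t : T, g t = φ t) → ¬ ∃ g : W ≃ₐ[K] W, (∀ y ∈ Lev d W c b n, g y = y) ∧ ∀ t : T, g t = φ t := by
    intro φ
    by_cases h : ∃ l : ℕ, ¬ ∃ g : W ≃ₐ[K] W, (∀ y ∈ Lev d W c b l, g y = y) ∧ ∀ t : T, g t = φ t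
    · obtain ⟨l, hl⟩ := h
      exact ⟨l, fun _ => hl⟩
    · exact ⟨0, fun h' => absurd h' h⟩
  choose n hn using hex
  have hfin : (Set.range n).Finite := Set.finite_range n
  obtain ⟨N, hN⟩ := hfin.bddAbove
  refine ⟨max l₀ N, le_max_left _ _, fun l hl z hz z' hz' hzz => ?_⟩
  have hNl : N ≤ l := (le_max_right _ _).trans hl
  obtain ⟨g, hg1, hg2⟩ := hF l ((le_max_left _ _).trans hl) z hz z' hz' hzz
  let φ : T → T := fun t => ⟨g t, hst g _ t.2⟩
  have hall : ∀ l, ∃ g : W ≃ₐ[K] W, (∀ y ∈ Lev d W c b l, g y = y) ∧ ∀ t : T, g t = φ t := by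
    intro l'
    by_contra hcon
    refine hn φ ⟨l', hcon⟩ ⟨g, fun y hy => ?_, fun t => rfl⟩
    exact fix_down hd hg1 ((hN ⟨φ, rfl⟩).trans hNl) y hy
  obtain ⟨h, hh1, hh2⟩ := hall (l + 1)
  refine ⟨g * h⁻¹, ⟨fun t ht => ?_, fun y hy => ?_⟩, ?_⟩
  · rw [AlgEquiv.mul_apply]
    -- `h⁻¹ t` is in `T`
    have h1 : h⁻¹ t ∈ T := hst _ _ ht
    have h2 : h (h⁻¹ t) = g (h⁻¹ t) := hh2 ⟨h⁻¹ t, h1⟩
    rw [← h2, ← AlgEquiv.mul_apply, mul_inv_cancel, AlgEquiv.one_apply]
  · rw [AlgEquiv.mul_apply]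
    have h1 : h⁻¹ y = y := inv_eq.2 (fix_down hd hh1 l.le_succ y hy).symm
    rw [h1, hg1 y hy]
  · rw [AlgEquiv.mul_apply]
    have h1 : h⁻¹ z = z := inv_eq.2 (hh1 z hz).symm
    rw [h1, hg2]

end basic

section count
variable {K W : Type*} [Field K] [Field W] [Algebra K W] [IsAlgClosed W]

/-- coset counting: if no modification of `s` has fewer than `m` fixed points on the level `l + 1`, and `s`
has `m` fixed points on the level `l`, then it has `m` fixed points on the level `l + 1` -/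
theorem trans_count {d : ℕ} (hd : d ≠ 0) {ζ c b : K} (hζ : IsPrimitiveRoot ζ d)
    (hb : ∀ n, 1 ≤ n → (uf d c)^[n] 0 ≠ b) {l : ℕ} (V : Subgroup (W ≃ₐ[K] W))
    (hV : ∀ g ∈ V, ∀ y ∈ Lev d W c b l, g y = y)
    (htr : ∀ z ∈ Lev d W c b (l + 1), ∀ z' ∈ Lev d W c b (l + 1),
      uf d (algebraMap K W c) z = uf d (algebraMap K W c) z' → ∃ g ∈ V, g z = z')
    {s : W ≃ₐ[K] W} {m : ℕ} (hm : ∀ g ∈ V, m ≤ (Fix d W c b (l + 1) (s * g)).ncard)
    (hs : (Fix d W c b l s).ncard = m) : (Fix d W c b (l + 1) s).ncard = m := by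
  classical
  set C := algebraMap K W c with hC
  have hfin := Fix_finite (W := W) hd c b l s
  let B : Finset W := hfin.toFinset
  have hB : ∀ y, y ∈ B ↔ y ∈ Lev d W c b l ∧ s y = y := fun y => hfin.mem_toFinset
  have hLf := Lev_finite (W := W) hd c b (l + 1)
  have hLfin : Finite (Lev d W c b (l + 1)) := hLf
  let L : Finset W := hLf.toFinset
  have hL : ∀ z, z ∈ L ↔ z ∈ Lev d W c b (l + 1) := fun z => Set.Finite.mem_toFinset _
  let A : Finset W := L.filter fun z => uf d C z ∈ B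
  have hA : ∀ z, z ∈ A ↔ uf d C z ∈ B := by
    intro z
    rw [mem_filter, hL]
    refine ⟨fun h => h.2, fun h => ⟨Lev_succ.2 ((hB _).1 h).1, h⟩⟩
  have hAcard : A.card = d * m := by
    rw [card_eq_sum_card_fiberwise (f := uf d C) (t := B) fun z hz => (hA z).1 hz]
    rw [sum_congr rfl fun y hy => card_children hd hζ hb ((hB y).1 hy).1
      (A.filter fun z => uf d C z = y) fun z => by
        rw [mem_filter, hA]
        exact ⟨fun h => h.2, fun h => ⟨by rw [h]; exact hy, h⟩⟩]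
    rw [sum_const, smul_eq_mul, mul_comm, ← hs, Set.ncard_eq_toFinset_card _ hfin]
  -- the restrictions to the level `l + 1` of the elements of `V`
  let X := Lev d W c b (l + 1)
  let hXf : Fintype X := hLf.fintype
  let ρ : (W ≃ₐ[K] W) → X → X := fun g z => ⟨g z, Lev_aut g z.2⟩
  have hFfin : (ρ '' (V : Set (W ≃ₐ[K] W))).Finite := Set.toFinite _
  let F : Finset (X → X) := hFfin.toFinset
  have hF : ∀ φ, φ ∈ F ↔ ∃ g ∈ V, ρ g = φ := fun φ => hFfin.mem_toFinset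
  have hFpos : 0 < F.card := card_pos.2 ⟨ρ 1, (hF _).2 ⟨1, V.one_mem, rfl⟩⟩
  -- left multiplication
  have hmul : ∀ z z' z'' : X, uf d C (z' : W) = uf d C (z'' : W) →
      (F.filter fun φ => φ z = z').card = (F.filter fun φ => φ z = z'').card := by
    intro z z' z'' h1
    obtain ⟨h, hhV, hh⟩ := htr z' z'.2 z'' z''.2 h1
    refine card_bij' (fun φ _ => fun x => ρ h (φ x)) (fun φ _ => fun x => ρ h⁻¹ (φ x)) ?_ ?_ ?_ ?_
    · intro φ hφ
      rw [mem_filter, hF] at hφ ⊢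
      obtain ⟨⟨g, hg, rfl⟩, h2⟩ := hφ
      refine ⟨⟨h * g, V.mul_mem hhV hg, rfl⟩, ?_⟩
      show ρ h (ρ g z) = z''
      rw [h2]
      exact Subtype.ext hh
    · intro φ hφ
      rw [mem_filter, hF] at hφ ⊢
      obtain ⟨⟨g, hg, rfl⟩, h2⟩ := hφ
      refine ⟨⟨h⁻¹ * g, V.mul_mem (V.inv_mem hhV) hg, rfl⟩, ?_⟩
      show ρ h⁻¹ (ρ g z) = z'
      rw [h2]
      exact Subtype.ext (inv_eq.2 hh.symm)
    · intro φ _
      funext x
      apply Subtype.ext
      show h⁻¹ (h (φ x)) = φ x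
      rw [← AlgEquiv.mul_apply, inv_mul_cancel, AlgEquiv.one_apply]
    · intro φ _
      funext x
      apply Subtype.ext
      show h (h⁻¹ (φ x)) = φ x
      rw [← AlgEquiv.mul_apply, mul_inv_cancel, AlgEquiv.one_apply]
  have hone : ∀ z z' : X, uf d C (z : W) = uf d C (z' : W) →
      d * (F.filter fun φ => φ z = z').card = F.card := by
    intro z z' hzz
    set y := uf d C (z' : W) with hy
    have hyL : y ∈ Lev d W c b l := Lev_succ.1 z'.2
    let Y : Finset X := univ.filter fun x => uf d C (x : W) = y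
    have hYcard : Y.card = d := by
      have h1 := card_children (W := W) hd hζ hb hyL (Y.map (Function.Embedding.subtype _)) (by
        intro x
        rw [mem_map]
        constructor
        · rintro ⟨x', hx', rfl⟩
          exact (mem_filter.1 hx').2
        · intro hx
          exact ⟨⟨x, Lev_succ.2 (by rw [← hC, hx]; exact hyL)⟩, mem_filter.2 ⟨mem_univ _, hx⟩, rfl⟩)
      rwa [card_map] at h1
    have h2 : F.card = ∑ x ∈ Y, (F.filter fun φ => φ z = x).card := by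
      rw [card_eq_sum_card_fiberwise (f := fun φ => φ z) (t := Y)]
      intro φ hφ
      obtain ⟨g, hg, rfl⟩ := (hF φ).1 hφ
      refine mem_filter.2 ⟨mem_univ _, ?_⟩
      show uf d C (g z) = y
      rw [hC, ← aut_uf, ← hC, hzz, hV g hg y hyL]
    rw [h2, sum_congr rfl fun x hx => (hmul z x z' (by rw [(mem_filter.1 hx).2])), sum_const, hYcard,
      smul_eq_mul]
  -- the sum
  have hfix : ∀ g ∈ V, (Fix d W c b (l + 1) (s * g)).ncard = (A.filter fun z => (s * g) z = z).card := by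
    intro g hg
    rw [← Set.ncard_coe_finset]
    congr 1
    ext z
    rw [mem_coe, mem_filter, hA, hB]
    show (_ ∧ _) ↔ _
    refine ⟨fun h => ⟨⟨Lev_succ.1 h.1, ?_⟩, h.2⟩, fun h => ⟨Lev_succ.2 h.1.1, h.2⟩⟩
    have h3 := congrArg (uf d C) h.2
    rw [AlgEquiv.mul_apply, hC, ← aut_uf, ← aut_uf, hV g hg _ (Lev_succ.1 h.1)] at h3
    exact h3
  let A' : Finset X := univ.filter fun x => (x : W) ∈ A
  have hA'card : A'.card = A.card := by
    rw [← card_map (Function.Embedding.subtype _)]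
    congr 1
    ext x
    rw [mem_map]
    constructor
    · rintro ⟨x', hx', rfl⟩
      exact (mem_filter.1 hx').2
    · intro hx
      exact ⟨⟨x, (hL x).1 (mem_filter.1 hx).1⟩, mem_filter.2 ⟨mem_univ _, hx⟩, rfl⟩
  have hcnt : ∀ g ∈ V, (Fix d W c b (l + 1) (s * g)).ncard
      = (A'.filter fun z => ρ g z = ρ s⁻¹ z).card := by
    intro g hg
    rw [hfix g hg, ← card_map (Function.Embedding.subtype _)]
    congr 1
    ext x
    rw [mem_map, mem_filter]
    constructor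
    · rintro ⟨hx, hx2⟩
      refine ⟨⟨x, (hL x).1 (mem_filter.1 hx).1⟩, ?_, rfl⟩
      rw [mem_filter]
      refine ⟨mem_filter.2 ⟨mem_univ _, hx⟩, Subtype.ext ?_⟩
      show g x = s⁻¹ x
      rw [AlgEquiv.mul_apply] at hx2
      exact (inv_eq.2 hx2.symm).symm
    · rintro ⟨x', hx', rfl⟩
      rw [mem_filter] at hx'
      refine ⟨(mem_filter.1 hx'.1).2, ?_⟩
      have h3 : g x' = s⁻¹ x' := congrArg Subtype.val hx'.2
      show s (g x') = x'
      exact (inv_eq.1 h3.symm).symm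
  -- a function on `F`
  let θ : (X → X) → ℕ := fun φ => (A'.filter fun z => φ z = ρ s⁻¹ z).card
  have hθ : ∀ φ ∈ F, m ≤ θ φ := by
    intro φ hφ
    obtain ⟨g, hg, rfl⟩ := (hF φ).1 hφ
    show m ≤ (A'.filter fun z => ρ g z = ρ s⁻¹ z).card
    rw [← hcnt g hg]
    exact hm g hg
  have hsum : ∑ φ ∈ F, θ φ = F.card * m := by
    have h1 : ∑ φ ∈ F, θ φ = ∑ z ∈ A', (F.filter fun φ => φ z = ρ s⁻¹ z).card := by
      simp only [θ, card_filter]
      rw [sum_comm]
    have h2 : d * ∑ φ ∈ F, θ φ = d * (F.card * m) := by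
      rw [h1, mul_sum, sum_congr rfl fun z hz => hone z (ρ s⁻¹ z) ?_, sum_const, smul_eq_mul, hA'card,
        hAcard]
      · ring
      · have h3 := (hB _).1 ((hA _).1 (mem_filter.1 hz).2)
        show uf d C (z : W) = uf d C (s⁻¹ z)
        rw [hC, ← aut_uf, ← hC]
        exact (inv_eq.2 h3.2.symm).symm
    exact Nat.eq_of_mul_eq_mul_left (Nat.pos_of_ne_zero hd) h2
  have h5 : ∑ φ ∈ F, m = ∑ φ ∈ F, θ φ := by
    rw [hsum, sum_const, smul_eq_mul]
  have h6 := (sum_eq_sum_iff_of_le hθ).1 h5 (ρ 1) ((hF _).2 ⟨1, V.one_mem, rfl⟩)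
  have h7 := hcnt 1 V.one_mem
  rw [mul_one] at h7
  rw [h7]
  exact h6.symm

end count

/-- **U1** with transitivity on the children in place of flips -/
theorem minCosetT {K W : Type*} [Field K] [Field W] [Algebra K W] [IsAlgClosed W]
    [Algebra.IsAlgebraic K W] {d : ℕ} (hd : 2 ≤ d) {ζ c b : K} (hζ : IsPrimitiveRoot ζ d)
    (hb : ∀ n, 1 ≤ n → (uf d c)^[n] 0 ≠ b) (hF : ∃ l0, ∀ l, l0 ≤ l → TransAt d W c b l)
    (hno : ¬ ExtP d W c b) :
    ∃ (T : Set W) (s₁ : W ≃ₐ[K] W) (m l1 : ℕ), T.Finite ∧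
      ∀ s : W ≃ₐ[K] W, (∀ t ∈ T, s t = s₁ t) →
        (∀ N, (Fix d W c b N s).Nonempty) ∧ ∀ l, l1 ≤ l → (Fix d W c b l s).ncard = m := by
  classical
  have hd0 : d ≠ 0 := by omega
  obtain ⟨l₀, hF⟩ := hF
  rw [ExtP] at hno
  push Not at hno
  obtain ⟨T₀, hT₀, s₀, hs₀⟩ := hno
  obtain ⟨T, hTf, hTT, hst⟩ := VQ.exists_hull (K := K) T₀ hT₀
  obtain ⟨N, -, hN⟩ := trans_fixing hd0 hF T hTf hst
  let P : Set ℕ := {n | ∃ l, N ≤ l ∧ ∃ s : W ≃ₐ[K] W, (∀ t ∈ T, s t = s₀ t) ∧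
    (Fix d W c b l s).ncard = n}
  have hP : P.Nonempty := ⟨_, N, le_rfl, s₀, fun _ _ => rfl, rfl⟩
  set m := sInf P with hm
  obtain ⟨l₁, hl₁, s₁, hs₁, hcard₁⟩ := Nat.sInf_mem hP
  have hmin : ∀ l, N ≤ l → ∀ s : W ≃ₐ[K] W, (∀ t ∈ T, s t = s₀ t) →
      m ≤ (Fix d W c b l s).ncard :=
    fun l hl s hs => Nat.sInf_le ⟨l, hl, s, hs, rfl⟩
  refine ⟨T ∪ Lev d W c b l₁, s₁, m, l₁, hTf.union (Lev_finite hd0 c b l₁), fun s hs => ⟨?_, ?_⟩⟩
  · intro M
    obtain ⟨z, hz, hsz⟩ := hs₀ M s fun t ht => by rw [hs t (Or.inl (hTT ht)), hs₁ t (hTT ht)]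
    exact ⟨z, hz, hsz⟩
  · intro l hl
    induction l, hl using Nat.le_induction with
    | base =>
      rw [hm, ← hcard₁]
      congr 1
      ext x
      show (_ ∧ _) ↔ (_ ∧ _)
      refine and_congr_right fun hx => ?_
      rw [hs x (Or.inr hx)]
    | succ l hl ih =>
      -- the automorphisms which fix `T` and the level `l`
      let V : Subgroup (W ≃ₐ[K] W) :=
        { carrier := {g | (∀ t ∈ T, g t = t) ∧ ∀ y ∈ Lev d W c b l, g y = y}
          mul_mem' := fun {g h} hg hh => ⟨fun t ht => by rw [AlgEquiv.mul_apply, hh.1 t ht, hg.1 t ht],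
            fun y hy => by rw [AlgEquiv.mul_apply, hh.2 y hy, hg.2 y hy]⟩
          one_mem' := ⟨fun _ _ => rfl, fun _ _ => rfl⟩
          inv_mem' := fun {g} hg => ⟨fun t ht => inv_eq.2 (hg.1 t ht).symm,
            fun y hy => inv_eq.2 (hg.2 y hy).symm⟩ }
      refine trans_count hd0 hζ hb V (fun g hg => hg.2) ?_ ?_ ih
      · intro z hz z' hz' hzz
        obtain ⟨g, hg, hgz⟩ := hN l (hl₁.trans hl) z hz z' hz' hzz
        exact ⟨g, hg, hgz⟩
      · intro g hg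
        refine hmin (l + 1) (hl₁.trans (hl.trans l.le_succ)) _ fun t ht => ?_
        rw [AlgEquiv.mul_apply, hg.1 t ht, hs t (Or.inl ht), hs₁ t ht]

/-- **The engine for every degree**, from transitivity on the children -/
theorem engineT {K W : Type u} [Field K] [NumberField K] [Field W] [Algebra K W]
    [IsAlgClosed W] [Algebra.IsAlgebraic K W] {d : ℕ} (hd : 2 ≤ d) {ζ c b : K}
    (hζ : IsPrimitiveRoot ζ d) (hc0 : c ≠ 0) (hc2 : d = 2 → c ≠ -2)
    (hw : Function.Injective fun n : ℕ => (uf d c)^[n] b)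
    (hb : ∀ n, 1 ≤ n → (uf d c)^[n] 0 ≠ b)
    (hF : ∃ l0, ∀ l, l0 ≤ l → TransAt d W c b l) : ExtP d W c b := by
  by_contra hno
  obtain ⟨T, s₁, m, l1, hTf, h1⟩ := minCosetT hd hζ hb hF hno
  obtain ⟨N0, hN0⟩ : ∃ N0, ∀ k, N0 ≤ k → ∀ i, 1 ≤ i → i ≤ m → (uf d c)^[i] 0 ≠ (uf d c)^[k] b := by
    have hfin : {k : ℕ | ∃ i ∈ Finset.Icc 1 m, (uf d c)^[i] 0 = (uf d c)^[k] b}.Finite := by
      have h2 : {k : ℕ | ∃ i ∈ Finset.Icc 1 m, (uf d c)^[i] 0 = (uf d c)^[k] b} ⊆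
          (fun n : ℕ => (uf d c)^[n] b) ⁻¹' ((fun i : ℕ => (uf d c)^[i] 0) '' (Finset.Icc 1 m : Set ℕ)) := by
        rintro k ⟨i, hi, h⟩
        exact ⟨i, Finset.mem_coe.2 hi, h⟩
      exact Set.Finite.subset (Set.Finite.preimage hw.injOn
        ((Finset.finite_toSet _).image _)) h2
    obtain ⟨M, hM⟩ := hfin.bddAbove
    refine ⟨M + 1, fun k hk i hi1 hi2 h => ?_⟩
    have := hM ⟨i, Finset.mem_Icc.2 ⟨hi1, hi2⟩, h⟩
    omega
  obtain ⟨k, hk, s, hs, hcard⟩ := branchesX hd hζ hc0 hc2 hw hTf s₁ m N0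
  have h3 := transfer (by omega : d ≠ 0) hTf
    (fun s hs => ⟨(h1 s hs).1, fun l hl => ((h1 s hs).2 l hl).le⟩) m k (hN0 k hk) s hs
  omega

/-- from transitivity on the children over the fields of the nodes of one high level to the extension property -/
theorem ExtP_of_trans {K W : Type u} [Field K] [NumberField K] [Field W] [Algebra K W]
    [IsAlgClosed W] [Algebra.IsAlgebraic K W] {d : ℕ} (hd : 2 ≤ d) {ζ c b : K}
    (hζ : IsPrimitiveRoot ζ d) (hc0 : c ≠ 0) (hc2 : d = 2 → c ≠ -2)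
    (hw : Function.Injective fun n : ℕ => (uf d c)^[n] b) (k : ℕ)
    (hr : ∀ r ∈ Lev d W c b k, ∀ n, 1 ≤ n → algebraMap K W ((uf d c)^[n] 0) ≠ r)
    (hF : ∀ r ∈ Lev d W c b k, ∃ l0, ∀ l, l0 ≤ l →
      TransAt d W (algebraMap K (IntermediateField.adjoin K {r}) c)
        (IntermediateField.AdjoinSimple.gen K r) l) : ExtP d W c b := by
  refine descent (by omega) k fun r hrk => ?_
  have hnf : NumberField (IntermediateField.adjoin K {r}) := numberField_adjoin r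
  have halg : Algebra.IsAlgebraic (IntermediateField.adjoin K {r}) W :=
    Algebra.IsAlgebraic.tower_top (K := K) (IntermediateField.adjoin K {r})
  refine engineT hd (hζ.map_of_injective (algebraMap K (IntermediateField.adjoin K {r})).injective)
    (fun h => hc0 ((map_eq_zero _).1 h)) (fun h2 h => ?_) (node_wander hw hrk) ?_ (hF r hrk)
  · apply hc2 h2
    apply (algebraMap K (IntermediateField.adjoin K {r})).injective
    rw [h, map_neg, map_ofNat]
  · intro n hn h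
    apply hr r hrk n hn
    have h3 := congrArg (algebraMap (IntermediateField.adjoin K {r}) W) h
    have h4 := uf_map (algebraMap K (IntermediateField.adjoin K {r})) d c 0 n
    rw [map_zero] at h4
    rw [← h4, ← IsScalarTower.algebraMap_apply] at h3
    rw [h3]
    exact IntermediateField.AdjoinSimple.algebraMap_gen K r

end Pool.Agent.ORB.UQ
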