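import Pool.Agent.ORB.UStab

/-!
ORB, unicritical maps of prime power degree: eventual stability at a place above `p`.
-/

set_option autoImplicit false

namespace Pool.Agent.ORB

open NumberField IsDedekindDomain WithZero

universe u

/-- one congruence step for the `p`-th power -/
theorem cong_pow {M : Type*} [Field M] [NumberField M] (P : HeightOneSpectrum (𝓞 M)) {p : ℕ} (hp : p.Prime)
    (hpP : P.valuation M (p : M) < 1) {x y : M} (hx : P.valuation M x ≤ 1) (hy : P.valuation M y ≤ 1)
    (h : P.valuation M (x ^ p - y ^ p) < 1) : P.valuation M (x - y) < 1 := by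
  refine cong_back P hp hpP (c := 0) (by rw [map_zero]; exact zero_le) 1 hx hy ?_
  simpa [uf] using h

/-- the sub-steps of the iteration of `x ^ (p ^ r) + c` -/
def sub {M : Type*} [Field M] (p r : ℕ) (c : M) (x : M) (j : ℕ) : M :=
  ((uf (p ^ r) c)^[j / r] x) ^ p ^ (j % r)

theorem sub_mul {M : Type*} [Field M] {p r : ℕ} (hr : 0 < r) (c x : M) (n : ℕ) :
    sub p r c x (r * n) = (uf (p ^ r) c)^[n] x := by
  rw [sub, Nat.mul_div_cancel_left _ hr, Nat.mul_mod_right, pow_zero, pow_one]

/-- a sub-step is the `p`-th power up to a constant which does not depend on the point -/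
theorem sub_succ {M : Type*} [Field M] {p r : ℕ} (hr : 0 < r) (c : M) (j : ℕ) :
    ∃ e : M, (e = 0 ∨ e = c) ∧ ∀ x : M, sub p r c x (j + 1) = sub p r c x j ^ p + e := by
  by_cases h : j % r + 1 = r
  · refine ⟨c, Or.inr rfl, fun x => ?_⟩
    have h1 : (j + 1) % r = 0 := by
      rw [Nat.add_mod, ← Nat.add_mod]
      have h2 : j + 1 = r * (j / r) + r := by
        have := Nat.div_add_mod j r
        omega
      rw [h2, Nat.add_mod_right, Nat.mul_mod_right]
    have h3 : (j + 1) / r = j / r + 1 := by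
      have h2 : j + 1 = r * (j / r) + r := by
        have := Nat.div_add_mod j r
        omega
      rw [h2, Nat.add_div_right _ hr, Nat.mul_div_cancel_left _ hr]
    rw [sub, h1, h3, pow_zero, pow_one, Function.iterate_succ_apply', uf, sub, ← pow_mul, ← pow_succ, h]
  · refine ⟨0, Or.inl rfl, fun x => ?_⟩
    have h0 : j % r < r := Nat.mod_lt _ hr
    have h2 : j + 1 = r * (j / r) + (j % r + 1) := by
      have := Nat.div_add_mod j r
      omega
    have h1 : (j + 1) % r = j % r + 1 := by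
      rw [h2, Nat.mul_add_mod]
      exact Nat.mod_eq_of_lt (by omega)
    have h3 : (j + 1) / r = j / r := by
      rw [h2, Nat.mul_add_div hr, Nat.div_eq_of_lt (by omega : j % r + 1 < r), add_zero]
    rw [sub, h1, h3, sub, ← pow_mul, ← pow_succ, add_zero]

theorem sub_int {M : Type*} [Field M] [NumberField M] (P : HeightOneSpectrum (𝓞 M)) {p r : ℕ} {c : M}
    (hc : P.valuation M c ≤ 1) {x : M} (hx : P.valuation M x ≤ 1) (j : ℕ) :
    P.valuation M (sub p r c x j) ≤ 1 := by
  rw [sub, map_pow]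
  exact pow_le_one₀ zero_le (uf_int P hc hx _)

theorem sub_cong {M : Type*} [Field M] [NumberField M] (P : HeightOneSpectrum (𝓞 M)) {p r : ℕ}
    (hp : p.Prime) (hr : 0 < r) (hpP : P.valuation M (p : M) < 1) {c : M} (hc : P.valuation M c ≤ 1) {x y : M}
    (hx : P.valuation M x ≤ 1) (hy : P.valuation M y ≤ 1) (i j : ℕ)
    (h : P.valuation M (sub p r c x (i + j) - sub p r c y (i + j)) < 1) :
    P.valuation M (sub p r c x i - sub p r c y i) < 1 := by
  induction j with
  | zero => exact h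
  | succ j ih =>
    obtain ⟨e, -, he⟩ := sub_succ (p := p) hr c (i + j)
    refine ih (cong_pow P hp hpP (sub_int P hc hx _) (sub_int P hc hy _) ?_)
    have h1 := h
    rw [← add_assoc, he x, he y, add_sub_add_right_eq_sub] at h1
    exact h1

/-- eventual stability at a place above `p` at which `c` and `b` are integral, prime power degree -/
theorem evst_int_pp {K : Type u} [Field K] [NumberField K] {p r : ℕ} (hp : p.Prime) (hr : 0 < r)
    (w : HeightOneSpectrum (𝓞 K)) (hw : w.valuation K (p : K) < 1) (c b : K) (hc : w.valuation K c ≤ 1)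
    (hb : w.valuation K b ≤ 1) (hper : ∀ k, 1 ≤ k → (uf (p ^ r) c)^[k] b ≠ b) : ∃ C : ℕ, 0 < C ∧
      ∀ (M : Type u) [Field M] [NumberField M] [Algebra K M] (x : M) (n : ℕ),
        (uf (p ^ r) (algebraMap K M c))^[n] x = algebraMap K M b →
          (p ^ r) ^ n ≤ C * Module.finrank ℚ M := by
  obtain ⟨N0, hN0⟩ := exists_sameRed w
  obtain ⟨i, j, hij, -, hsame⟩ := hN0 (fun i => ((uf (p ^ r) c)^[i] b : K))
  have hbi : ∀ i, w.valuation K ((uf (p ^ r) c)^[i] b) ≤ 1 := fun i => uf_int w hc hb i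
  set k := j - i with hk
  have hk1 : 1 ≤ k := by omega
  have hpr : p ^ r ≠ 0 := pow_ne_zero _ hp.ne_zero
  have hcong : w.valuation K (b - (uf (p ^ r) c)^[k] b) < 1 := by
    have h1 := sub_cong w hp hr hw hc hb (hbi k) 0 (r * i) (by
      rw [zero_add, sub_mul hr, sub_mul hr, ← Function.iterate_add_apply, show i + k = j by omega]
      rcases hsame with ⟨h1, -⟩ | ⟨a1, a2, h1, h2, -, -, h3⟩
      · exact absurd (hbi i) (not_le.2 (h1 _ rfl))
      · rw [OnePoint.coe_eq_coe] at h1 h2
        rw [h1, h2]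
        exact h3)
    have h2 := sub_mul (p := p) hr c b 0
    have h3 := sub_mul (p := p) hr c ((uf (p ^ r) c)^[k] b) 0
    rw [mul_zero, Function.iterate_zero, id] at h2 h3
    rwa [h2, h3] at h1
  set D : K := b - (uf (p ^ r) c)^[k] b with hD
  have hD0 : D ≠ 0 := sub_ne_zero.2 (Ne.symm (hper k hk1))
  have hp0K : (p : K) ≠ 0 := by exact_mod_cast hp.ne_zero
  obtain ⟨B, hB⟩ := Int.eq_ofNat_of_zero_le ((ordp_pos w hD0).2 hcong).le
  have hTK : 0 < ordp w (p : K) := (ordp_pos w hp0K).2 hw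
  have hBw : w.valuation K ((p : K) ^ B / D) ≤ 1 := by
    have h1 : w.valuation K ((p : K) ^ B) ≤ w.valuation K D := by
      rw [← ordp_le w hD0 (pow_ne_zero _ hp0K), ordp_pow, hB]
      have h2 : (0 : ℤ) ≤ B := Int.natCast_nonneg B
      nlinarith
    rw [map_div₀]
    exact div_le_one_of_le₀ h1 zero_le
  refine ⟨p ^ B * (2 * p), by have := hp.pos; positivity, ?_⟩
  intro M _ _ _ x n hx
  obtain ⟨⟨Q, hQ1, hQ2⟩⟩ := w.asIdeal.nonempty_primesOver (S := 𝓞 M)
  have hQ0 : Q ≠ ⊥ := Ideal.ne_bot_of_mem_primesOver w.ne_bot ⟨hQ1, hQ2⟩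
  let P : HeightOneSpectrum (𝓞 M) := ⟨Q, hQ1, hQ0⟩
  have hlo : P.asIdeal.LiesOver w.asIdeal := hQ2
  set cM : M := algebraMap K M c with hcM
  have hcP : P.valuation M cM ≤ 1 := (val_le_iff w P c).2 hc
  have hbP : P.valuation M (algebraMap K M b) ≤ 1 := (val_le_iff w P b).2 hb
  have hpP : P.valuation M (p : M) < 1 := by
    have := (val_lt_iff w P (p : K)).2 hw
    rwa [map_natCast] at this
  have hp0 : (p : M) ≠ 0 := by exact_mod_cast hp.ne_zero
  have hxP : P.valuation M x ≤ 1 := uf_int_back P hpr hcP n (by rw [hx]; exact hbP)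
  set x' : M := (uf (p ^ r) cM)^[k] x with hx'
  have hxP' : P.valuation M x' ≤ 1 := uf_int P hcP hxP k
  have hui : ∀ i, P.valuation M (sub p r cM x i) ≤ 1 := fun i => sub_int P hcP hxP i
  have hui' : ∀ i, P.valuation M (sub p r cM x' i) ≤ 1 := fun i => sub_int P hcP hxP' i
  have hDM : algebraMap K M D = sub p r cM x (r * n) - sub p r cM x' (r * n) := by
    rw [hD, map_sub, uf_map, sub_mul hr, sub_mul hr, hx, hx', ← Function.iterate_add_apply, add_comm n k,
      Function.iterate_add_apply, hx]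
  have hDM0 : algebraMap K M D ≠ 0 := (map_ne_zero _).2 hD0
  have hne1 : ∀ i j, sub p r cM x (i + j) - sub p r cM x' (i + j) ≠ 0 →
      sub p r cM x i - sub p r cM x' i ≠ 0 := by
    intro i j
    induction j with
    | zero => exact fun h => h
    | succ j ih =>
      intro h
      apply ih
      intro h0
      apply h
      obtain ⟨e, -, he⟩ := sub_succ (p := p) hr cM (i + j)
      rw [← add_assoc, he x, he x', sub_eq_zero.1 h0, sub_self]
  have hne : ∀ j ≤ r * n, sub p r cM x (r * n - j) - sub p r cM x' (r * n - j) ≠ 0 := by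
    intro j hj
    refine hne1 (r * n - j) j ?_
    rw [Nat.sub_add_cancel hj, ← hDM]
    exact hDM0
  have hposV : ∀ j ≤ r * n, 0 < ordp P (sub p r cM x (r * n - j) - sub p r cM x' (r * n - j)) := by
    intro j hj
    rw [ordp_pos P (hne j hj)]
    refine sub_cong P hp hr hpP hcP hxP hxP' (r * n - j) j ?_
    rw [Nat.sub_add_cancel hj, ← hDM]
    exact (val_lt_iff w P D).2 hcong
  have hT : 0 < ordp P (p : M) := (ordp_pos P hp0).2 hpP
  have hmain := chain_bound hp.two_le hT (B := B) (n := r * n)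
    (fun j => ordp P (sub p r cM x (r * n - j) - sub p r cM x' (r * n - j))) hposV ?_ ?_
  · have h1 := ordp_nat_le P hp.two_le
    have h2 : (p : ℤ) ^ (r * n - B) ≤ 2 * (p * Module.finrank ℚ M) := by linarith
    have h3 : p ^ (r * n - B) ≤ 2 * (p * Module.finrank ℚ M) := by exact_mod_cast h2
    calc (p ^ r) ^ n = p ^ (r * n) := (pow_mul _ _ _).symm
      _ ≤ p ^ (B + (r * n - B)) := Nat.pow_le_pow_right hp.pos (by omega)
      _ = p ^ B * p ^ (r * n - B) := by rw [pow_add]
      _ ≤ p ^ B * (2 * (p * Module.finrank ℚ M)) := Nat.mul_le_mul_left _ h3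
      _ = p ^ B * (2 * p) * Module.finrank ℚ M := by ring
  · show ordp P (sub p r cM x (r * n - 0) - sub p r cM x' (r * n - 0)) ≤ B * ordp P (p : M)
    rw [Nat.sub_zero, ← hDM]
    have h1 : P.valuation M (algebraMap K M ((p : K) ^ B / D)) ≤ 1 := (val_le_iff w P _).2 hBw
    rw [map_div₀, map_pow, map_natCast] at h1
    have h2 : P.valuation M ((p : M) ^ B) ≤ P.valuation M (algebraMap K M D) := by
      rw [map_div₀, div_le_one₀ (zero_lt_iff.2 (val_ne P hDM0))] at h1
      exact h1
    rw [← ordp_pow, ordp_le P hDM0 (pow_ne_zero _ hp0)]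
    exact h2
  · intro j hj
    obtain ⟨e, -, he⟩ := sub_succ (p := p) hr cM (r * n - (j + 1))
    have h0 : r * n - j = r * n - (j + 1) + 1 := by omega
    have h1 : sub p r cM x (r * n - j) - sub p r cM x' (r * n - j) =
        (sub p r cM x' (r * n - (j + 1)) + (sub p r cM x (r * n - (j + 1)) -
          sub p r cM x' (r * n - (j + 1)))) ^ p - (sub p r cM x' (r * n - (j + 1))) ^ p := by
      rw [h0, he x, he x', add_sub_cancel]
      ring
    have h2 := ordp_step P hp (hui' (r * n - (j + 1)))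
      (z := sub p r cM x (r * n - (j + 1)) - sub p r cM x' (r * n - (j + 1)))
      (le_trans (Valuation.map_sub _ _ _) (max_le (hui _) (hui' _))) (hne (j + 1) hj)
      (by rw [← h1]; exact hne j hj.le)
    rw [← h1] at h2
    exact h2

/-- a prime divides a prime power if and only if it divides the prime -/
theorem val_pp {K : Type*} [Field K] [NumberField K] (v : HeightOneSpectrum (𝓞 K)) {p r : ℕ} (hr : 0 < r) :
    v.valuation K ((p ^ r : ℕ) : K) < 1 ↔ v.valuation K (p : K) < 1 := by
  rw [Nat.cast_pow, map_pow]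
  exact pow_lt_one_iff hr.ne'

namespace UQ

/-- **U5** for prime power degree -/
theorem orbits_place_pp {K W : Type u} [Field K] [NumberField K] [Field W] [Algebra K W] [IsAlgClosed W]
    [Algebra.IsAlgebraic K W] {p r : ℕ} (hp : p.Prime) (hr : 0 < r) {c b : K} (v : HeightOneSpectrum (𝓞 K))
    (hv : (v.valuation K ((p ^ r : ℕ) : K) < 1 ∧ v.valuation K c ≤ 1) ∨
      (v.valuation K c ≤ 1 ∧ 1 < v.valuation K b) ∨
      (v.valuation K c < 1 ∧ v.valuation K b < 1))
    (hw : Function.Injective fun n : ℕ => (uf (p ^ r) c)^[n] b) :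
    ∃ k0, ∀ l, ∀ y ∈ Lev (p ^ r) W c b (k0 + l), ∀ y' ∈ Lev (p ^ r) W c b (k0 + l),
      (uf (p ^ r) (algebraMap K W c))^[l] y = (uf (p ^ r) (algebraMap K W c))^[l] y' →
        ∃ g : W ≃ₐ[K] W, g y = y' := by
  have hpr : p ^ r ≠ 0 := pow_ne_zero _ hp.ne_zero
  have h2 : 2 ≤ p ^ r := le_trans hp.two_le (Nat.le_self_pow hr.ne' p)
  rcases hv with ⟨h1, h2'⟩ | hv
  · rcases lt_or_ge 1 (v.valuation K b) with h3 | h3
    · exact orbits_tame h2 v (Or.inl ⟨h2', h3⟩) hw
    · have hper : ∀ k, 1 ≤ k → (uf (p ^ r) c)^[k] b ≠ b := by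
        intro k hk h
        have := hw (a₁ := k) (a₂ := 0) h
        omega
      obtain ⟨k0, h⟩ := orbits_of_evst (W := W) hpr (c := c) (b := b)
        (evst_int_pp hp hr v ((val_pp v hr).1 h1) c b h2' h3 hper)
      exact ⟨k0, fun l y hy y' _ hyy => h l y hy y' hyy⟩
  · exact orbits_tame h2 v hv hw

end UQ

end Pool.Agent.ORB
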