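import Pool.Agent.ORB.UETriv
import Pool.Agent.ORB.UMinT
import Pool.Agent.ORB.UPPow
import Pool.Agent.ORB.UPreU

/-!
ORB, Theorem V for `x ^ (p ^ r) + c`: the extension property.
-/

set_option autoImplicit false

namespace Pool.Agent.ORB.UE

open NumberField IsDedekindDomain Polynomial Pool.Agent.ORB.UQ

universe u

/-- full levels: transitivity on the children of the nodes -/
theorem transAt_of_full {K W : Type*} [Field K] [Field W] [Algebra K W] {p r : ℕ} (hp : p.Prime) (hr : 0 < r)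
    {ζ c b : K} (hζ : IsPrimitiveRoot ζ (p ^ r)) {l : ℕ} (hT : Tran (p ^ r) W c b l)
    (h : Full (p ^ r) (p ^ (r - 1)) W c b l) : TransAt (p ^ r) W c b l := by
  intro z hz z' _ hzz
  obtain ⟨g, hg1, hg2⟩ := trans_of_full hp hr hζ hT h z hz
  obtain ⟨i, _, hi⟩ := (uf_eq_iff (pow_ne_zero r hp.ne_zero) hζ).1 hzz
  have hpow : ∀ n : ℕ, (g ^ n) z = algebraMap K W ζ ^ n * z := by
    intro n
    induction n with
    | zero => simp
    | succ n ih =>
      rw [pow_succ, AlgEquiv.mul_apply, hg2, map_mul, ih, AlgEquiv.commutes, pow_succ]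
      ring
  refine ⟨g ^ i, fun y hy => fix_pow (hg1 y hy) i, ?_⟩
  rw [hpow, hi]

/-- **The engine for a prime power degree.** -/
theorem engine {K W : Type u} [Field K] [NumberField K] [Field W] [Algebra K W]
    [IsAlgClosed W] [Algebra.IsAlgebraic K W] {p r : ℕ} (hp : p.Prime) (hr : 0 < r) {ζ c b : K}
    (hζ : IsPrimitiveRoot ζ (p ^ r)) (h0 : Function.Injective fun n : ℕ => (uf (p ^ r) c)^[n] 0)
    (hw : Function.Injective fun n : ℕ => (uf (p ^ r) c)^[n] b)
    (hb : ∀ n, 1 ≤ n → (uf (p ^ r) c)^[n] 0 ≠ b) (hT : ∀ l, Tran (p ^ r) W c b l) :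
    ExtP (p ^ r) W c b := by
  have hpr : p ^ r ≠ 0 := pow_ne_zero _ hp.ne_zero
  have h1 := ne_of_wander hpr h0
  obtain ⟨l0, hl0⟩ := full_eventually (W := W) hp hr hζ h0 hb hT
  exact engineT (le_trans hp.two_le (Nat.le_self_pow hr.ne' p)) hζ h1.1 h1.2 hw hb
    ⟨l0, fun l hl => transAt_of_full hp hr hζ (hT l) (hl0 l hl)⟩

/-- **Theorem V for prime powers, local form** -/
theorem extP_place_pp {K W : Type u} [Field K] [NumberField K] [Field W] [Algebra K W]
    [IsAlgClosed W] [Algebra.IsAlgebraic K W] {p r : ℕ} (hp : p.Prime) (hr : 0 < r) {ζ c b : K}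
    (hζ : IsPrimitiveRoot ζ (p ^ r)) (h0 : Function.Injective fun n : ℕ => (uf (p ^ r) c)^[n] 0)
    (hper : b ∉ Function.periodicPts (uf (p ^ r) c)) (v : HeightOneSpectrum (𝓞 K))
    (hv : (v.valuation K ((p ^ r : ℕ) : K) < 1 ∧ v.valuation K c ≤ 1) ∨
      (v.valuation K c ≤ 1 ∧ 1 < v.valuation K b) ∨
      (v.valuation K c < 1 ∧ v.valuation K b < 1)) : ExtP (p ^ r) W c b := by
  have hpr : p ^ r ≠ 0 := pow_ne_zero _ hp.ne_zero
  by_cases hw : Function.Injective fun n : ℕ => (uf (p ^ r) c)^[n] b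
  · obtain ⟨k₀, hk₀⟩ := orbits_place_pp (W := W) hp hr v hv hw
    exact ExtP_of_engine hpr hζ
      (fun _ _ _ _ _ _ _ _ hζ' h0' hw' hb' hT' => engine hp hr hζ' h0' hw' hb' hT') h0 hw hk₀
  · exact extP_preper hpr hw hper

end Pool.Agent.ORB.UE
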