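import Pool.Agent.ORB.UFinalX
import Pool.Agent.ORB.UEPlace

/-!
ORB, Theorem V for unicritical maps: final theorem, with prime power degrees.
-/

set_option autoImplicit false

namespace Pool.Agent.ORB

open NumberField IsDedekindDomain Polynomial

universe u

/-- the condition on `x ^ d + c` and the target `b`: `UniCondX`, or `d` is a power of a prime, the orbit of `0` is
infinite and there is a prime of the field which lies over `d` and at which `c` is integral, or at which `c` is
integral and `b` is not, or which divides `c` and `b` -/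
def UniCondY (L : Type u) [Field L] [NumberField L] (d : ℕ) (c b : L) : Prop :=
  UniCondX L d c b ∨ (IsPrimePow d ∧ CritWand d c ∧ LocCond L d c b)

theorem uniCondY_good : GoodCond.{u} (fun L _ _ d c b => UniCondY L d c b) := by
  refine ⟨?_, ?_⟩
  · intro L L' _ _ _ _ _ d c b h
    rcases h with h | ⟨hd, h0, h⟩
    · exact Or.inl (uniCondX_good.ext L L' d c b h)
    · exact Or.inr ⟨hd, critWand_ext _ h0, locCond_ext h⟩
  · intro L W _ _ _ _ _ _ d ζ c b hd1 hζ hw h
    rcases h with h | ⟨hd, h0, v, hv⟩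
    · exact uniCondX_good.extP L W d ζ c b hd1 hζ hw h
    · have hper : b ∉ Function.periodicPts (uf d c) := by
        rintro ⟨m, hm, h1⟩
        have h2 : (fun n : ℕ => (uf d c)^[n] b) m = (fun n : ℕ => (uf d c)^[n] b) 0 := h1
        have := hw h2
        omega
      obtain ⟨p, r, hp, hr, rfl⟩ := hd
      exact UE.extP_place_pp hp.nat_prime hr hζ h0 hper v hv

/-- **Main theorem**, with prime power degrees. -/
theorem thmBUY_final {K : Type u} [Field K] [NumberField K] {ι : Type} [Finite ι] (f : ι → RatFunc K)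
    (hf : ∀ i, 2 ≤ rdeg (f i)) :
    ∃ S : Set (HeightOneSpectrum (𝓞 K)), S.Finite ∧ ∀ (α β : ι → OnePoint K)
      (_ : ∀ i n, (ract (RingHom.id K) (f i))^[n] (α i) ≠ β i) (Q A : Set ι)
      (_ : ∀ i ∈ Q, (¬ Function.Injective fun n : ℕ => (ract (RingHom.id K) (f i))^[n] (α i)) ∨
        (¬ Function.Injective fun n : ℕ => (ract (RingHom.id K) (f i))^[n] (β i)) ∨
        UniConj (fun L _ _ d c b => UniCondY L d c b) (f i) (β i))
      (_ : ∀ i ∈ A, ∃ (b : K) (v : HeightOneSpectrum (𝓞 K)), v ∉ S ∧ β i = (b : OnePoint K) ∧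
        1 < v.valuation K b)
      (_ : A.Nonempty → ∀ i ∉ Q, ∃ p : K[X], f i = algebraMap K[X] (RatFunc K) p)
      (J : Type) (_ : Finite J) (blk : ι → J) (E : J → ℕ)
      (_ : ∀ j j', j ≠ j' → Nat.Coprime (E j) (E j'))
      (_ : ∀ i, i ∉ Q → i ∉ A → RHasExp (E (blk i)) (f i))
      (_ : ∀ j, OrbitBlock (fun i : {i // (i ∉ Q ∧ i ∉ A) ∧ blk i = j} => f i.1)
          (fun i : {i // (i ∉ Q ∧ i ∉ A) ∧ blk i = j} => β i.1) ∨
        PrimeBlock (fun i : {i // (i ∉ Q ∧ i ∉ A) ∧ blk i = j} => f i.1)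
          (fun i : {i // (i ∉ Q ∧ i ∉ A) ∧ blk i = j} => β i.1) ∨
        ∀ i, i ∉ Q → i ∉ A → blk i = j → TorusMap (algebraMap K (AlgebraicClosure K)) (f i)),
      PosDensity (RAvoidSet f α β) :=
  thmBUT uniCondY_good f hf

end Pool.Agent.ORB
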