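import Pool.Agent.ORB.NRFinalE
import Pool.Agent.ORB.UFinalY

/-!
ORB: final theorem for rational functions, with the explicit conditions on the unicritical maps.
-/

namespace Pool.Agent.ORB

open NumberField IsDedekindDomain Polynomial

universe u

/-- **Final theorem.** The indices in `Q` have a preperiodic `α i` or a preperiodic `β i` or are unicritical up to
conjugacy and iteration, with an explicit condition; for the indices in `A` there is a prime at which all `f j`,
`j ∉ Q`, have good tame reduction and modulo which `β i` is exceptional for `f i`; the other indices are divided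
into coprime blocks. -/
theorem thmBE_final {K : Type u} [Field K] [NumberField K] {ι : Type} [Finite ι] (f : ι → RatFunc K)
    (hf : ∀ i, 2 ≤ rdeg (f i)) (α β : ι → OnePoint K)
    (hαβ : ∀ i n, (ract (RingHom.id K) (f i))^[n] (α i) ≠ β i) (Q A : Set ι)
    (hQ : ∀ i ∈ Q, (¬ Function.Injective fun n : ℕ => (ract (RingHom.id K) (f i))^[n] (α i)) ∨
      (¬ Function.Injective fun n : ℕ => (ract (RingHom.id K) (f i))^[n] (β i)) ∨
      UniConj (fun L _ _ d c b => UniCondY L d c b) (f i) (β i))
    (hA : ∀ i ∈ A, ∃ v : HeightOneSpectrum (𝓞 K), ExcMod v (f i) (β i) ∧ ∀ j, j ∉ Q → GoodTame v (f j))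
    {J : Type} [Finite J] (blk : ι → J) (E : J → ℕ)
    (hE : ∀ j j', j ≠ j' → Nat.Coprime (E j) (E j'))
    (hexp : ∀ i, i ∉ Q → i ∉ A → RHasExp (E (blk i)) (f i))
    (hblk : ∀ j, OrbitBlock (fun i : {i // (i ∉ Q ∧ i ∉ A) ∧ blk i = j} => f i.1)
        (fun i : {i // (i ∉ Q ∧ i ∉ A) ∧ blk i = j} => β i.1) ∨
      PrimeBlock (fun i : {i // (i ∉ Q ∧ i ∉ A) ∧ blk i = j} => f i.1)
        (fun i : {i // (i ∉ Q ∧ i ∉ A) ∧ blk i = j} => β i.1) ∨
      ∀ i, i ∉ Q → i ∉ A → blk i = j → TorusMap (algebraMap K (AlgebraicClosure K)) (f i)) :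
    PosDensity (RAvoidSet f α β) :=
  thmBE uniCondY_good f hf α β hαβ Q A hQ hA blk E hE hexp hblk

end Pool.Agent.ORB
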