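import Pool.Agent.ORB.NRPoly
import Pool.Agent.ORB.NRes

/-!
ORB, Theorem B for rational functions, row RC: residues.
-/

namespace Pool.Agent.ORB.NR

open Polynomial IntermediateField Pool.Agent.ORB.NI

section loc
variable {F Ω : Type*} [Field F] [Field Ω] [Algebra F Ω] (D : LocAbs F Ω)

section closed
variable [IsAlgClosed Ω]

variable [Algebra.IsAlgebraic F Ω]

theorem residual_orbit {R : RP F} (hR : GoodR D R) (x : OnePoint Ω) :
    ∃ D₀ r : ℕ, 1 ≤ r ∧ ∀ i, D₀ ≤ i → Cl D ((rv R)^[i + r] x) ((rv R)^[i] x) := by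
  classical
  obtain ⟨k, hk, h⟩ := exists_pow_residue D (co D x) (N_co_le D x)
  set q := D.p ^ (D.a * k) with hq
  -- all the points of the orbit are fixed by the Frobenius map
  have hfix : ∀ n, D.N ((co D ((rv R)^[n] x)) ^ q - co D ((rv R)^[n] x)) < 1 := by
    intro n
    induction n with
    | zero =>
      have := pow_iter D (N_co_le D x) h D.a
      rw [mul_comm k D.a] at this
      exact this
    | succ n ih =>
      rw [Function.iterate_succ_apply']
      set y := (rv R)^[n] x with hy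
      obtain ⟨P, Q, hG, -, -, hc⟩ := chart D hR y
      obtain ⟨h1, h2, -⟩ := hc y (Cl.refl y)
      have hc1 := N_co_le D y
      have hcq : D.N (co D y ^ q) ≤ 1 := by
        rw [N_pow]
        exact pow_le_one₀ (N_nonneg D _) hc1
      rw [h2]
      set u := aeval (co D y) P with hu
      set v := aeval (co D y) Q with hv
      have hu1 : D.N (u ^ q - u) < 1 :=
        N_lt_trans D (frob_eval D P hG.cP hc1 k) (aeval_close D hG.cP hcq hc1 ih)
      have hv1 : D.N (v ^ q - v) < 1 :=
        N_lt_trans D (frob_eval D Q hG.cQ hc1 k) (aeval_close D hG.cQ hcq hc1 ih)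
      have hule : D.N u ≤ 1 := aeval_int D hG.cP hc1
      have hv0 : v ≠ 0 := ne_zero_of_N D (by rw [h1]; exact one_ne_zero)
      have e1 : (u / v) ^ q - u / v = ((u ^ q - u) * v - u * (v ^ q - v)) / (v ^ q * v) := by
        rw [div_pow, div_sub_div _ _ (pow_ne_zero _ hv0) hv0]
        congr 1
        ring
      rw [e1, map_div₀, N_mul D (v ^ q), N_pow, h1, one_pow, mul_one, div_one]
      refine (N_sub_le D _ _).trans_lt (max_lt ?_ ?_)
      · rw [N_mul, h1, mul_one]
        exact hu1
      · rw [N_mul]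
        exact (mul_le_of_le_one_left (N_nonneg D _) hule).trans_lt hv1
  have hq2 : 1 < q := by
    rw [hq]
    exact Nat.one_lt_pow (Nat.mul_ne_zero (by have := D.ha; omega) (by omega)) D.hp.one_lt
  set S : Set (RR D) := {y | y ^ q = y} with hS
  have hSfin : S.Finite := by
    have hne : (X ^ q - X : Polynomial (RR D)) ≠ 0 := by
      intro h0
      have h1 := congrArg (fun P : Polynomial (RR D) => P.coeff q) h0
      simp only [coeff_sub, coeff_X_pow, coeff_X, coeff_zero] at h1
      rw [if_pos trivial, if_neg (by omega), sub_zero] at h1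
      exact one_ne_zero h1
    refine ((X ^ q - X : Polynomial (RR D)).roots.toFinset.finite_toSet).subset ?_
    intro y hy
    rw [Finset.mem_coe, Multiset.mem_toFinset, mem_roots hne, IsRoot.def]
    simp only [eval_sub, eval_pow, eval_X]
    exact sub_eq_zero.2 hy
  have hmem : ∀ n, Ideal.Quotient.mk (mm D) (⟨co D ((rv R)^[n] x), N_co_le D _⟩ : OO D) ∈ S := by
    intro n
    show Ideal.Quotient.mk (mm D) (⟨co D ((rv R)^[n] x), N_co_le D _⟩ : OO D) ^ q = _
    rw [← map_pow, RR_eq]
    exact hfix n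
  have hSf : Finite S := hSfin
  obtain ⟨i, j, hij, h4⟩ := Finite.exists_ne_map_eq_of_infinite
    (fun n : ℕ => ((Big D ((rv R)^[n] x), (⟨_, hmem n⟩ : S)) : Prop × S))
  have h5 : Cl D ((rv R)^[i] x) ((rv R)^[j] x) := by
    refine ⟨iff_of_eq (congrArg Prod.fst h4), ?_⟩
    have := congrArg Subtype.val (congrArg Prod.snd h4)
    exact (RR_eq D).1 this
  have main : ∀ i j : ℕ, i < j → Cl D ((rv R)^[j] x) ((rv R)^[i] x) →
      ∃ D₀ r : ℕ, 1 ≤ r ∧ ∀ i, D₀ ≤ i → Cl D ((rv R)^[i + r] x) ((rv R)^[i] x) := by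
    intro i j hij h5
    refine ⟨i, j - i, by omega, ?_⟩
    intro m hm
    have h6 := cl_iter D hR h5 (m - i)
    rw [← Function.iterate_add_apply, ← Function.iterate_add_apply] at h6
    have e1 : m - i + j = m + (j - i) := by omega
    have e2 : m - i + i = m := by omega
    rwa [e1, e2] at h6
  rcases lt_or_gt_of_ne hij with h6 | h6
  · exact main i j h6 h5.symm
  · exact main j i h6 h5

/-- one bound for all residually critical points -/
theorem crit_orbits {R : RP F} (hR : GoodR D R) : ∃ D₀ : ℕ, ∀ x : OnePoint Ω, cr D R x < 1 → ∃ r, 1 ≤ r ∧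
    ∀ i, D₀ ≤ i → Cl D ((rv R)^[i + r] x) ((rv R)^[i] x) := by
  classical
  choose d₀ r hr hd using residual_orbit D hR
  obtain ⟨T₁, -, hT₁⟩ := close_finite D hR.gp
  obtain ⟨T₂, -, hT₂⟩ := close_finite D hR.gp'
  set T : Finset (OnePoint Ω) :=
    Finset.image (fun c : Ω => (c : OnePoint Ω)) T₁ ∪ Finset.image (fun c : Ω => mk2 1 c) T₂ with hT
  have hclose : ∀ x : OnePoint Ω, cr D R x < 1 → ∃ y ∈ T, Cl D x y := by
    intro x hx
    by_cases hb : Big D x
    · rw [cr, if_pos hb] at hx
      obtain ⟨c, hc, hc1⟩ := hT₂ _ (N_co_le D x) hx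
      have hcl : D.N c < 1 := by
        have h1 : c = co D x - (co D x - c) := by ring
        rw [h1]
        exact (N_sub_le D _ _).trans_lt (max_lt (N_co_lt D hb) hc1)
      refine ⟨mk2 1 c, ?_, ?_⟩
      · rw [hT, Finset.mem_union]
        exact Or.inr (Finset.mem_image_of_mem _ hc)
      · have h2 := mk2_big D (N_one D) hcl
        refine ⟨⟨fun _ => h2.1, fun _ => hb⟩, ?_⟩
        rw [h2.2, div_one]
        exact hc1
    · rw [cr, if_neg hb] at hx
      obtain ⟨c, hc, hc1⟩ := hT₁ _ (N_co_le D x) hx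
      have hcl : D.N c ≤ 1 := by
        have h1 : c = co D x - (co D x - c) := by ring
        rw [h1]
        exact (N_sub_le D _ _).trans (max_le (N_co_le D x) hc1.le)
      refine ⟨(c : OnePoint Ω), ?_, ?_⟩
      · rw [hT, Finset.mem_union]
        exact Or.inl (Finset.mem_image_of_mem _ hc)
      · refine ⟨⟨fun h => absurd h hb, fun h => absurd ((big_coe D).1 h) (not_lt.2 hcl)⟩, ?_⟩
        rw [co_small D hcl]
        exact hc1
  refine ⟨T.sup d₀, fun x hx => ?_⟩
  obtain ⟨y, hyT, hy⟩ := hclose x hx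
  refine ⟨r y, hr y, fun i hi => ?_⟩
  have hi' : d₀ y ≤ i := (Finset.le_sup hyT).trans hi
  exact (cl_iter D hR hy _).trans ((hd y i hi').trans (cl_iter D hR hy.symm _))

end closed

end loc

end Pool.Agent.ORB.NR
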