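import Pool.Agent.ORB.NRPoly

/-! ORB, Theorem B for rational functions: nodes close to a totally invariant point. -/

namespace Pool.Agent.ORB.NR

open Polynomial IntermediateField Pool.Agent.ORB.NI

/-- the numerator of the local coordinate at `e` -/
noncomputable def lin {F : Type*} [Field F] (e : OnePoint F) : F[X] := OnePoint.elim e 1 (fun a => X - C a)

/-- `e` is totally invariant, as an identity of polynomials -/
def TI {F : Type*} [Field F] (R : RP F) (e : OnePoint F) : Prop := ∃ u : F, R.q e = C u * (lin e) ^ R.d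

theorem TI.map {F E : Type*} [Field F] [Field E] (φ : F →+* E) {R : RP F} {e : OnePoint F} (h : TI R e) :
    TI (R.map φ) (pmap φ e) := by
  obtain ⟨u, hu⟩ := h
  refine ⟨φ u, ?_⟩
  have h1 := congrArg (Polynomial.map φ) hu
  rw [RP.map_q, Polynomial.map_mul, map_C, Polynomial.map_pow] at h1
  rw [h1]
  congr 2
  induction e using OnePoint.rec with
  | infty =>
    show Polynomial.map φ 1 = 1
    rw [Polynomial.map_one]
  | coe a =>
    show Polynomial.map φ (X - C a) = X - C (φ a)
    rw [Polynomial.map_sub, map_X, map_C]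

theorem reflect_lin {F : Type*} [Field F] (a : F) (n : ℕ) :
    ((X - C a : F[X]) ^ n).reflect n = (1 - C a * X) ^ n := by
  induction n with
  | zero =>
    rw [pow_zero, pow_zero]
    have := reflect_C (1 : F) 0
    rw [C_1, pow_zero, mul_one] at this
    exact this
  | succ n ih =>
    have h1 : (X - C a : F[X]).reflect 1 = 1 - C a * X := by
      have h2 : (X - C a : F[X]) = C 1 * X ^ 1 + C (-a) := by
        rw [C_1, one_mul, pow_one, C_neg, sub_eq_add_neg]
      rw [h2, reflect_add, reflect_C_mul_X_pow, reflect_C, revAt_le le_rfl, Nat.sub_self, pow_zero, pow_one,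
        C_1, C_neg]
      ring
    have h3 : ((X - C a : F[X]) ^ n).natDegree ≤ n := by
      rw [natDegree_pow, natDegree_X_sub_C, mul_one]
    rw [pow_succ, reflect_mul _ _ h3 (natDegree_X_sub_C_le a), ih, h1, ← pow_succ]

section
variable {F Ω : Type*} [Field F] [Field Ω] [Algebra F Ω] (D : LocAbs F Ω)

theorem reflect_aeval (P : F[X]) (d : ℕ) (z : Ω) :
    aeval z (P.reflect d) = ((P.map (algebraMap F Ω)).reflect d).eval z := by
  rw [← eval_map_algebraMap]
  congr 1
  ext n
  rw [coeff_map, coeff_reflect, coeff_reflect, coeff_map]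

theorem reflect_sub' {F : Type*} [Field F] (p q : F[X]) (c : F) (d : ℕ) :
    (p - C c * q).reflect d = p.reflect d - C c * q.reflect d := by
  ext n
  rw [coeff_reflect, coeff_sub, coeff_sub, coeff_C_mul, coeff_C_mul, coeff_reflect, coeff_reflect]

/-- the two charts at a totally invariant point -/
theorem tot_core {R : RP F} {e : OnePoint F} (hT : TI R e) :
    ∃ u : Ω,
      (¬ Big D (pmap (algebraMap F Ω) e) →
        (R.A.map (algebraMap F Ω) - C (co D (pmap (algebraMap F Ω) e)) * R.B.map (algebraMap F Ω) =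
          C u * (X - C (co D (pmap (algebraMap F Ω) e))) ^ R.d) ∧
        ((R.A.reflect R.d).map (algebraMap F Ω) -
          C (co D (pmap (algebraMap F Ω) e)) * (R.B.reflect R.d).map (algebraMap F Ω) =
          C u * (1 - C (co D (pmap (algebraMap F Ω) e)) * X) ^ R.d)) ∧
      (Big D (pmap (algebraMap F Ω) e) →
        ((R.B.reflect R.d).map (algebraMap F Ω) -
          C (co D (pmap (algebraMap F Ω) e)) * (R.A.reflect R.d).map (algebraMap F Ω) =
          C u * (X - C (co D (pmap (algebraMap F Ω) e))) ^ R.d) ∧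
        (R.B.map (algebraMap F Ω) - C (co D (pmap (algebraMap F Ω) e)) * R.A.map (algebraMap F Ω) =
          C u * (1 - C (co D (pmap (algebraMap F Ω) e)) * X) ^ R.d)) := by
  have hmr : ∀ P : F[X], (P.reflect R.d).map (algebraMap F Ω) = (P.map (algebraMap F Ω)).reflect R.d := by
    intro P
    ext n
    rw [coeff_map, coeff_reflect, coeff_reflect, coeff_map]
  rw [hmr, hmr]
  set A := R.A.map (algebraMap F Ω) with hA
  set B := R.B.map (algebraMap F Ω) with hB
  set d := R.d with hd
  obtain ⟨v, hv⟩ := TI.map (algebraMap F Ω) hT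
  induction e using OnePoint.rec with
  | infty =>
    have hv' : B = C v := by
      have h1 : (R.map (algebraMap F Ω)).q (pmap (algebraMap F Ω) OnePoint.infty) = B := rfl
      rw [← h1, hv]
      show C v * (1 : Polynomial Ω) ^ _ = _
      rw [one_pow, mul_one]
    refine ⟨v, fun h => absurd (big_infty D) h, fun _ => ?_⟩
    rw [pmap_infty, co_infty, C_0, zero_mul, sub_zero, zero_mul, sub_zero, sub_zero, zero_mul, sub_zero, one_pow,
      mul_one, hv']
    exact ⟨reflect_C v d, rfl⟩
  | coe a₀ =>
    set a := algebraMap F Ω a₀ with ha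
    have hq : A - C a * B = C v * (X - C a) ^ d := hv
    have hqr : A.reflect d - C a * B.reflect d = C v * (1 - C a * X) ^ d := by
      rw [← reflect_sub', hq, reflect_C_mul, reflect_lin]
    rw [pmap_coe, ← ha]
    by_cases h : 1 < D.N a
    · have ha0 : a ≠ 0 := by
        intro h0
        rw [h0, N_zero] at h
        exact absurd h (by norm_num)
      rw [co_big D h]
      set c := a⁻¹ with hc
      have hca : c * a = 1 := inv_mul_cancel₀ ha0
      have hcC : (C c : Polynomial Ω) * C a = 1 := by rw [← C_mul, hca, C_1]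
      have e3 : (C (-(c * v * (-a) ^ d)) : Polynomial Ω) = -(C c * C v * C (-a) ^ d) := by
        rw [C_neg, C_mul, C_mul, C_pow]
      refine ⟨-(c * v * (-a) ^ d), fun hb => absurd ((big_coe D).2 h) hb, fun _ => ⟨?_, ?_⟩⟩
      · have e1 : B.reflect d - C c * A.reflect d = -C c * (A.reflect d - C a * B.reflect d) := by
          linear_combination (-B.reflect d) * hcC
        have e2 : (1 - C a * X : Polynomial Ω) = C (-a) * (X - C c) := by
          rw [C_neg]
          linear_combination -hcC
        rw [e1, hqr, e2, mul_pow, e3]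
        ring
      · have e1 : B - C c * A = -C c * (A - C a * B) := by
          linear_combination (-B) * hcC
        have e2 : (X - C a : Polynomial Ω) = C (-a) * (1 - C c * X) := by
          rw [C_neg]
          linear_combination (-X) * hcC
        rw [e1, hq, e2, mul_pow, e3]
        ring
    · rw [co_small D (not_lt.1 h)]
      exact ⟨v, fun _ => ⟨hq, hqr⟩, fun hb => absurd ((big_coe D).1 hb) h⟩

theorem lin_coef {c : Ω} (hc : D.N c ≤ 1) (d : ℕ) : ∀ n, D.N (((X - C c : Polynomial Ω) ^ d).coeff n) ≤ 1 := by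
  have h1 : ∀ n, D.N ((X - C c : Polynomial Ω).coeff n) ≤ 1 := by
    intro n
    rw [coeff_sub, coeff_X, coeff_C, ← mem_OO]
    refine Subring.sub_mem _ ?_ ?_
    · split_ifs
      · exact Subring.one_mem _
      · exact Subring.zero_mem _
    · split_ifs
      · exact hc
      · exact Subring.zero_mem _
  induction d with
  | zero =>
    intro n
    rw [pow_zero, coeff_one]
    split_ifs
    · exact (N_one D).le
    · rw [N_zero]; exact zero_le_one
  | succ d ih =>
    rw [pow_succ]
    exact mul_coef D ih h1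

/-- the constant is a unit -/
theorem tot_unit {P Q : F[X]} (hG : GP D P Q) {d : ℕ} (hP : P.natDegree ≤ d) (hQ : Q.natDegree ≤ d) {c u : Ω}
    (hc : D.N c ≤ 1)
    (h : P.map (algebraMap F Ω) - C c * Q.map (algebraMap F Ω) = C u * (X - C c) ^ d) : D.N u = 1 := by
  classical
  have hlin := lin_coef D hc d
  have hle : D.N u ≤ 1 := by
    have h1 : (P.map (algebraMap F Ω) - C c * Q.map (algebraMap F Ω)).coeff d = u := by
      have h2 : ((X - C c : Polynomial Ω) ^ d).coeff d = 1 := by
        have h3 := ((monic_X_sub_C c).pow d).coeff_natDegree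
        rwa [natDegree_pow, natDegree_X_sub_C, mul_one] at h3
      rw [h, coeff_C_mul, h2, mul_one]
    rw [← h1]
    refine sub_coef D (coef_map D hG.cP) (fun n => ?_) d
    rw [coeff_C_mul, N_mul]
    exact mul_le_one₀ hc (N_nonneg D _) (coef_map D hG.cQ n)
  by_contra hne
  have hlt : D.N u < 1 := lt_of_le_of_ne hle hne
  obtain ⟨m, hm⟩ := hG.wunit
  have h2 : (wr P Q).map (algebraMap F Ω) =
      wr' (P.map (algebraMap F Ω) - C c * Q.map (algebraMap F Ω)) (Q.map (algebraMap F Ω)) := by
    rw [wr, wr', Polynomial.map_sub, Polynomial.map_mul, Polynomial.map_mul, derivative_sub, derivative_C_mul,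
      derivative_map, derivative_map]
    ring
  rw [← coeff_map, h2, wr'_coeff, h] at hm
  refine absurd hm (ne_of_lt (N_sum_lt D _ _ one_pos fun x _ => ?_))
  have hcast : D.N ((x.1 : Ω) - x.2) ≤ 1 := by
    rw [← mem_OO]
    exact Subring.sub_mem _ (natCast_mem (OO D) _) (natCast_mem (OO D) _)
  rw [coeff_C_mul, N_mul, N_mul, N_mul]
  calc D.N ((x.1 : Ω) - x.2) * (D.N u * D.N (((X - C c : Polynomial Ω) ^ d).coeff x.1) *
        D.N ((Q.map (algebraMap F Ω)).coeff x.2)) ≤ 1 * (D.N u * 1 * 1) := by
        refine mul_le_mul hcast (mul_le_mul (mul_le_mul_of_nonneg_left (hlin _) (N_nonneg D _))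
          (coef_map D hG.cQ _) (N_nonneg D _) ?_) ?_ zero_le_one
        · exact mul_nonneg (N_nonneg D _) zero_le_one
        · exact mul_nonneg (mul_nonneg (N_nonneg D _) (N_nonneg D _)) (N_nonneg D _)
    _ = D.N u := by ring
    _ < 1 := hlt

/-- `e` is fixed -/
theorem TI.fix {K : Type*} [Field K] {R : RP K} (hd : 1 ≤ R.d) {e : OnePoint K} (h : TI R e) : R.act e = e := by
  obtain ⟨u, hu⟩ := h
  induction e using OnePoint.rec with
  | infty =>
    rw [← RP.q_top, hu]
    show (C u * (1 : K[X]) ^ R.d).coeff R.d = 0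
    rw [one_pow, mul_one, coeff_C, if_neg (by omega)]
  | coe a =>
    rw [← RP.q_root, hu]
    show (C u * (X - C a) ^ R.d).eval a = 0
    rw [eval_mul, eval_pow, eval_sub, eval_X, eval_C, eval_C, sub_self, zero_pow (by omega), mul_zero]

/-- the local behaviour at a totally invariant point -/
theorem tot_local {R : RP F} (hR : GoodR D R) {e : OnePoint F} (hT : TI R e) {x : OnePoint Ω}
    (hx : Cl D (rv R x) (pmap (algebraMap F Ω) e)) : Cl D x (pmap (algebraMap F Ω) e) ∧
      D.N (co D (rv R x) - co D (pmap (algebraMap F Ω) e)) =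
        D.N (co D x - co D (pmap (algebraMap F Ω) e)) ^ R.d := by
  have hd1 : 1 ≤ R.d := by have := hR.deg; omega
  obtain ⟨u, h1, h2⟩ := tot_core D hT
  set e' : OnePoint Ω := pmap (algebraMap F Ω) e with he'
  set c := co D e' with hc
  have hc1 : D.N c ≤ 1 := N_co_le D e'
  have hz1 : D.N (co D x) ≤ 1 := N_co_le D x
  set z := co D x with hz
  have hrv := rv_eq_mk2 D R x
  rw [← hz] at hrv
  -- evaluation of the two identities
  have ev : ∀ {P Q : F[X]} {G : Polynomial Ω}, P.map (algebraMap F Ω) - C c * Q.map (algebraMap F Ω) = G →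
      aeval z P - c * aeval z Q = G.eval z := by
    intro P Q G h
    rw [← h, eval_sub, eval_mul, eval_C, eval_map_algebraMap, eval_map_algebraMap]
  have hfin : ∀ {p q v : Ω}, D.N q = 1 → D.N v = 1 → co D (rv R x) = p / q → p - c * q = v * (z - c) ^ R.d →
      (D.N (co D (rv R x) - c) = D.N (z - c) ^ R.d) := by
    intro p q v hq hv hco hpq
    have hq0 : q ≠ 0 := ne_zero_of_N D (by rw [hq]; exact one_ne_zero)
    have e1 : p / q - c = (p - c * q) / q := by rw [sub_div, mul_div_cancel_right₀ _ hq0]
    rw [hco, e1, hpq, map_div₀, hq, div_one, N_mul, hv, one_mul, N_pow]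
  have hlt : D.N (co D (rv R x) - c) = D.N (z - c) ^ R.d → D.N (z - c) < 1 := by
    intro h
    by_contra hcon
    push Not at hcon
    have h3 := hx.2
    rw [h] at h3
    exact absurd h3 (not_lt.2 (one_le_pow₀ hcon))
  have hbad : ∀ {p q v : Ω}, D.N q = 1 → D.N v = 1 → co D (rv R x) = p / q → D.N (c * z) < 1 →
      p - c * q = v * (1 - c * z) ^ R.d → False := by
    intro p q v hq hv hco hcz hpq
    have hq0 : q ≠ 0 := ne_zero_of_N D (by rw [hq]; exact one_ne_zero)
    have e1 : p / q - c = (p - c * q) / q := by rw [sub_div, mul_div_cancel_right₀ _ hq0]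
    have e2 : D.N (1 - c * z) = 1 := by
      have h3 : D.N (1 - c * z) = D.N (1 : Ω) := by
        apply N_eq_of_close
        rw [sub_sub_cancel_left, N_neg, N_one]
        exact hcz
      rw [h3, N_one]
    have h3 := hx.2
    rw [hco, ← hc, e1, hpq, map_div₀, hq, div_one, N_mul, hv, one_mul, N_pow, e2, one_pow] at h3
    exact lt_irrefl _ h3
  have hA := aeval_int D hR.gp.cP hz1
  have hB := aeval_int D hR.gp.cQ hz1
  have hAr := aeval_int D hR.gp'.cP hz1
  have hBr := aeval_int D hR.gp'.cQ hz1
  have hdr := sc_deg D R (OnePoint.infty : OnePoint Ω)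
  have hscI : sc D R (OnePoint.infty : OnePoint Ω) = (R.A.reflect R.d, R.B.reflect R.d) := if_pos (big_infty D)
  rw [hscI] at hdr
  by_cases he : Big D e'
  · obtain ⟨h3, h4⟩ := h2 he
    have hu : D.N u = 1 := tot_unit D hR.gp'.swap hdr.2 hdr.1 hc1 h3
    have hbx := hx.1.2 he
    by_cases hxb : Big D x
    · have hsc : sc D R x = (R.A.reflect R.d, R.B.reflect R.d) := if_pos hxb
      rw [hsc] at hrv
      have hArz : D.N (aeval z (R.A.reflect R.d)) = 1 := by
        by_contra hne
        have h5 := (hR.gp'.unit z hz1).resolve_left hne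
        have h6 := (mk2_small D hAr h5).1
        rw [← hrv] at h6
        exact h6 hbx
      have hBrz : D.N (aeval z (R.B.reflect R.d)) < 1 := by
        refine lt_of_le_of_ne hBr fun h5 => ?_
        have h6 := (mk2_small D hAr h5).1
        rw [← hrv] at h6
        exact h6 hbx
      have hco := (mk2_big D hArz hBrz).2
      rw [← hrv] at hco
      have h7 := ev h3
      rw [eval_mul, eval_C, eval_pow, eval_sub, eval_X, eval_C] at h7
      have h8 := hfin hArz hu hco h7
      exact ⟨⟨⟨fun _ => he, fun _ => hxb⟩, hlt h8⟩, h8⟩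
    · exfalso
      have hsc : sc D R x = (R.A, R.B) := if_neg hxb
      rw [hsc] at hrv
      have hAz : D.N (aeval z R.A) = 1 := by
        by_contra hne
        have h5 := (hR.gp.unit z hz1).resolve_left hne
        have h6 := (mk2_small D hA h5).1
        rw [← hrv] at h6
        exact h6 hbx
      have hBz : D.N (aeval z R.B) < 1 := by
        refine lt_of_le_of_ne hB fun h5 => ?_
        have h6 := (mk2_small D hA h5).1
        rw [← hrv] at h6
        exact h6 hbx
      have hco := (mk2_big D hAz hBz).2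
      rw [← hrv] at hco
      have h7 := ev h4
      rw [eval_mul, eval_C, eval_pow, eval_sub, eval_one, eval_mul, eval_C, eval_X] at h7
      refine hbad hAz hu hco ?_ h7
      rw [N_mul]
      exact (mul_le_of_le_one_right (N_nonneg D _) hz1).trans_lt (N_co_lt D he)
  · obtain ⟨h3, h4⟩ := h1 he
    have hu : D.N u = 1 := tot_unit D hR.gp R.hA R.hB hc1 h3
    have hbx : ¬ Big D (rv R x) := fun h => he (hx.1.1 h)
    by_cases hxb : Big D x
    · exfalso
      have hsc : sc D R x = (R.A.reflect R.d, R.B.reflect R.d) := if_pos hxb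
      rw [hsc] at hrv
      have hBrz : D.N (aeval z (R.B.reflect R.d)) = 1 := by
        by_contra hne
        have h5 := (hR.gp'.unit z hz1).resolve_right hne
        have h6 := (mk2_big D h5 (lt_of_le_of_ne hBr hne)).1
        rw [← hrv] at h6
        exact hbx h6
      have hco := (mk2_small D hAr hBrz).2
      rw [← hrv] at hco
      have h7 := ev h4
      rw [eval_mul, eval_C, eval_pow, eval_sub, eval_one, eval_mul, eval_C, eval_X] at h7
      refine hbad hBrz hu hco ?_ h7
      rw [N_mul]
      exact (mul_le_of_le_one_left (N_nonneg D _) hc1).trans_lt (N_co_lt D hxb)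
    · have hsc : sc D R x = (R.A, R.B) := if_neg hxb
      rw [hsc] at hrv
      have hBz : D.N (aeval z R.B) = 1 := by
        by_contra hne
        have h5 := (hR.gp.unit z hz1).resolve_right hne
        have h6 := (mk2_big D h5 (lt_of_le_of_ne hB hne)).1
        rw [← hrv] at h6
        exact hbx h6
      have hco := (mk2_small D hA hBz).2
      rw [← hrv] at hco
      have h7 := ev h3
      rw [eval_mul, eval_C, eval_pow, eval_sub, eval_X, eval_C] at h7
      have h8 := hfin hBz hu hco h7
      exact ⟨⟨⟨fun h => absurd h hxb, fun h => absurd h he⟩, hlt h8⟩, h8⟩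

/-- the nodes above a point in the residue class of a totally invariant point -/
theorem tot_node {R : RP F} (hR : GoodR D R) {e : OnePoint F} (hT : TI R e) {b : OnePoint F}
    (hb : Cl D (pmap (algebraMap F Ω) b) (pmap (algebraMap F Ω) e)) (k : ℕ) {x : OnePoint Ω}
    (hx : x ∈ NodeR Ω R b k) : Cl D x (pmap (algebraMap F Ω) e) ∧
      D.N (co D (pmap (algebraMap F Ω) b) - co D (pmap (algebraMap F Ω) e)) =
        D.N (co D x - co D (pmap (algebraMap F Ω) e)) ^ (R.d ^ k) := by
  induction k generalizing x with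
  | zero =>
    have h1 : x = pmap (algebraMap F Ω) b := hx
    rw [h1, pow_zero, pow_one]
    exact ⟨hb, rfl⟩
  | succ k ih =>
    obtain ⟨h1, h2⟩ := ih (nodeR_succ.1 hx)
    obtain ⟨h3, h4⟩ := tot_local D hR hT h1
    refine ⟨h3, ?_⟩
    rw [h2, h4, ← pow_mul, pow_succ, mul_comm]

/-- no node of high level lies in `P^1(M)` -/
theorem tot_level {R : RP F} (hR : GoodR D R) {e : OnePoint F} (hT : TI R e) {b : OnePoint F}
    (hb : Cl D (pmap (algebraMap F Ω) b) (pmap (algebraMap F Ω) e)) (hbe : b ≠ e) {ϖ : Ω} (hϖ0 : ϖ ≠ 0)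
    (hϖ1 : D.N ϖ < 1) {M : IntermediateField F Ω} (hv : ∀ x ∈ M, x ≠ 0 → Pw D ϖ x) :
    ∃ s, ∀ k, s ≤ k → ∀ x ∈ NodeR Ω R b k, ¬ InM M x := by
  have hd := hR.deg
  have h0 := N_pos D hϖ0
  set e' : OnePoint Ω := pmap (algebraMap F Ω) e with he'
  have hpos : 0 < D.N (co D (pmap (algebraMap F Ω) b) - co D e') := by
    refine N_pos D fun h => hbe ?_
    exact pmap_injective _ (co_inj D hb.1 (sub_eq_zero.1 h))
  obtain ⟨s, hs⟩ := exists_pow_lt_of_lt_one hpos hϖ1
  refine ⟨s, fun k hk x hx hxM => ?_⟩
  obtain ⟨h1, h2⟩ := tot_node D hR hT hb k hx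
  rw [← he'] at h1 h2
  have hne : co D x - co D e' ≠ 0 := by
    intro h
    rw [h, N_zero, zero_pow (pow_ne_zero _ (by omega))] at h2
    exact hpos.ne' h2
  have hmem : co D x - co D e' ∈ M := sub_mem ((inM_iff D M x).1 hxM) ((inM_iff D M e').1 (inM_pmap M e))
  obtain ⟨j, hj⟩ := hv _ hmem hne
  have hj1 : 1 ≤ j := by
    by_contra hlt
    push Not at hlt
    have := one_le_zpow_of_nonpos₀ h0 hϖ1.le (by omega : j ≤ 0)
    rw [← hj] at this
    exact absurd h1.2 (not_lt.2 this)
  have hle : D.N (co D x - co D e') ≤ D.N ϖ := by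
    rw [hj]
    calc D.N ϖ ^ j ≤ D.N ϖ ^ (1 : ℤ) := zpow_le_zpow_right_of_le_one₀ h0 hϖ1.le hj1
      _ = D.N ϖ := zpow_one _
  have h5 : k ≤ R.d ^ k := (Nat.lt_pow_self (by omega)).le
  have h6 : D.N (co D (pmap (algebraMap F Ω) b) - co D e') ≤ D.N ϖ ^ s := by
    rw [h2]
    calc D.N (co D x - co D e') ^ (R.d ^ k) ≤ D.N ϖ ^ (R.d ^ k) := pow_le_pow_left₀ (N_nonneg D _) hle _
      _ ≤ D.N ϖ ^ s := pow_le_pow_of_le_one h0.le hϖ1.le (hk.trans h5)
  exact absurd hs (not_lt.2 h6)

end

end Pool.Agent.ORB.NR
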