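import Pool.Agent.ORB.NRLevel
import Pool.Agent.ORB.NRRes
import Pool.Agent.ORB.NRTot
import Pool.Agent.ORB.NRExc
import Pool.Agent.ORB.NLocal

/-!
ORB, Theorem B for rational functions, row RE: the local theorem.
-/

namespace Pool.Agent.ORB.NR

open Polynomial IntermediateField Pool.Agent.ORB.NI

section
variable {F Ω : Type*} [Field F] [Field Ω] [Algebra F Ω] [CharZero F] [IsAlgClosed Ω] [Algebra.IsAlgebraic F Ω]
  (D : LocAbs F Ω)

omit [CharZero F] [IsAlgClosed Ω] [Algebra.IsAlgebraic F Ω] in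
theorem N_factorial {R : RP F} (hR : GoodR D R) (n : ℕ) (hn : n ≤ R.d) :
    D.N ((n.factorial : ℕ) : Ω) = 1 := by
  induction n with
  | zero => simp [N_one]
  | succ n ih =>
    rw [Nat.factorial_succ, Nat.cast_mul, N_mul, ih (by omega), hR.tame (n + 1) (by omega) hn, mul_one]

omit [CharZero F] [IsAlgClosed Ω] [Algebra.IsAlgebraic F Ω] in
/-- a point with the same reduction as a totally invariant point is residually exceptional -/
theorem exc_of_ti {R : RP F} (hR : GoodR D R) {e : OnePoint F} (hT : TI R e) {b : OnePoint Ω}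
    (h : Cl D b (pmap (algebraMap F Ω) e)) : Exc D R b := by
  intro y hy
  exact Cl.trans (tot_local D hR hT (tot_local D hR hT (Cl.trans hy h)).1).1 (Cl.symm h)

theorem local_main {ι : Type*} [Finite ι] (R : ι → RP F) (b : ι → OnePoint F) (hR : ∀ i, GoodR D (R i))
    (hb : ∀ i, ∀ n, 1 ≤ n → (R i).act^[n] (b i) ≠ b i) (t : ℕ) :
    ∃ (A : Ω ≃ₐ[F] Ω) (s : ℕ), ∀ i,
      (∀ k, k ≤ t → ∀ x ∈ NodeR Ω (R i) (b i) k, pmap (A : Ω →+* Ω) x = x) ∧
      (∀ k, s ≤ k → ∀ x ∈ NodeR Ω (R i) (b i) k, pmap (A : Ω →+* Ω) x = x →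
        ∀ m x', (rv (R i))^[m] x' = x → pmap (A : Ω →+* Ω) x' = x') ∧
      (Exc D (R i) (pmap (algebraMap F Ω) (b i)) →
        ∀ k, s ≤ k → ∀ x ∈ NodeR Ω (R i) (b i) k, pmap (A : Ω →+* Ω) x ≠ x) := by
  classical
  have := Fintype.ofFinite ι
  set E : ℕ := ∏ i, (R i).d.factorial with hEdef
  have hE0 : E ≠ 0 := Finset.prod_ne_zero_iff.2 fun i _ => Nat.factorial_ne_zero _
  have hEi : ∀ i, (R i).d.factorial ∣ E := fun i => Finset.dvd_prod_of_mem _ (Finset.mem_univ i)
  have hE1 : D.N (E : Ω) = 1 := by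
    rw [hEdef, Nat.cast_prod, map_prod]
    exact Finset.prod_eq_one fun i _ => N_factorial D (hR i) _ le_rfl
  -- residual orbits of the critical points
  choose Dc hDc using fun i => crit_orbits D (hR i)
  set D₀ := Finset.univ.sup Dc with hD₀def
  have hD₀ : ∀ i, ∀ x : OnePoint Ω, cr D (R i) x < 1 → ∃ r, 1 ≤ r ∧ ∀ j, D₀ ≤ j →
      Cl D ((rv (R i))^[j + r] x) ((rv (R i))^[j] x) := by
    intro i x hx
    obtain ⟨r, hr, h⟩ := hDc i x hx
    exact ⟨r, hr, fun j hj => h j (le_trans (Finset.le_sup (Finset.mem_univ i)) hj)⟩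
  obtain ⟨w, hw0, hw⟩ := exists_tower hE0 (algebraMap F Ω D.π)
  set L := t + D₀ with hL
  set M := MF D (w L) with hM
  have hw_ne := w_ne hE0 w hw0 hw L
  have hw_lt := w_lt (D := D) hE0 w hw0 hw L
  have hval : ∀ x ∈ M, x ≠ 0 → Pw D (w L) x := fun x hx h0 => w_val hE0 w hw0 hw hx h0
  -- levels of the exits
  have h1 : ∀ i, ∃ s, ∀ k x, x ∈ NodeR Ω (R i) (b i) k → ¬ InM M x → InM M (rv (R i) x) → k ≤ s := fun i =>
    level_exits (hR i) (b i) (hb i) (hEi i) hE0 w hw0 hw D₀ L (by omega) (hD₀ i)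
  choose s₁ hs₁ using h1
  have h2 : ∀ i, ∃ s, Exc D (R i) (pmap (algebraMap F Ω) (b i)) →
      ∀ k, s ≤ k → ∀ x ∈ NodeR Ω (R i) (b i) k, ¬ InM M x := by
    intro i
    by_cases hex : Exc D (R i) (pmap (algebraMap F Ω) (b i))
    · obtain ⟨s, hs⟩ := exc_level (hR i) (b i) (hb i) hex hE0 w hw0 hw D₀ L (hD₀ i)
      exact ⟨s, fun _ => hs⟩
    · exact ⟨0, fun h => absurd h hex⟩
  choose s₂ hs₂ using h2
  obtain ⟨A, hA1, hA2⟩ := exists_aut D (Nat.one_le_iff_ne_zero.2 (pow_ne_zero L hE0)) (w_root hE0 w hw0 hw L)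
    (Nat.one_le_iff_ne_zero.2 hE0) hE1 (hw L)
  -- nodes outside `M` are moved
  have hmove : ∀ i, ∀ k, ∀ x ∈ NodeR Ω (R i) (b i) k, ¬ InM M x → pmap (A : Ω →+* Ω) x ≠ x := by
    intro i k
    induction k with
    | zero =>
      intro x hx hxM
      have h3 : x = pmap (algebraMap F Ω) (b i) := hx
      exact absurd (h3 ▸ inM_pmap M (b i)) hxM
    | succ k ih =>
      intro x hx hxM
      by_cases hev : InM M (rv (R i) x)
      · obtain ⟨c, hc, e, he1, he2, ⟨j, hj⟩, hnp, -⟩ :=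
          child_exit D (hR i) (muS_le _) hw_ne hw_lt (mem_MF _) hval hev hxM
        intro hfix
        have hco := co_aut D A x
        rw [hfix] at hco
        refine hA2 c hc (co D x) ?_ hnp hco.symm
        obtain ⟨E', hE'⟩ : e ∣ E := (Nat.dvd_factorial he1 he2).trans (hEi i)
        refine ⟨(E' : ℤ) * j, ?_⟩
        have h3 : D.N (w (L + 1)) ^ E = D.N (w L) := by rw [← N_pow, hw]
        have h4 : D.N (co D x - c) ^ e = (D.N (w (L + 1)) ^ ((E' : ℤ) * j)) ^ e := by
          rw [hj, ← h3, hE', ← zpow_natCast (D.N (w (L + 1))), ← zpow_mul, ← zpow_natCast (_ ^ _), ← zpow_mul]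
          congr 1
          push_cast
          ring
        exact (pow_left_inj₀ (N_nonneg D _) (zpow_nonneg (N_nonneg D _) _) (by omega)).1 h4
      · intro hAx
        apply ih (rv (R i) x) (nodeR_succ.1 hx) hev
        rw [← rv_aut, hAx]
  -- low levels
  have hlow : ∀ i, ∀ k, ∀ x ∈ NodeR Ω (R i) (b i) k, InM (MF D (w k)) x := by
    intro i k
    induction k with
    | zero =>
      intro x hx
      have h3 : x = pmap (algebraMap F Ω) (b i) := hx
      rw [h3]
      exact inM_pmap _ (b i)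
    | succ k ih =>
      intro x hx
      exact child_up D (hR i) (hEi i) hE0 (w_mono hE0 w hw0 hw (Nat.le_succ k)) (muS_le _) (w_ne hE0 w hw0 hw k)
        (w_lt hE0 w hw0 hw k) (mem_MF _) (fun x hx h0 => w_val hE0 w hw0 hw hx h0) (mem_MF _) (hw k)
        (ih _ (nodeR_succ.1 hx))
  have hfixM : ∀ {x : OnePoint Ω}, InM M x → pmap (A : Ω →+* Ω) x = x := fun hx => pmap_fix_of_inM A hA1 hx
  refine ⟨A, Finset.univ.sup s₁ + Finset.univ.sup s₂ + 1, fun i => ⟨?_, ?_, ?_⟩⟩
  · intro k hk x hx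
    exact hfixM (inM_mono (w_mono hE0 w hw0 hw (by omega : k ≤ L)) (hlow i k x hx))
  · intro k hk x hx hAx
    have hxM : InM M x := by
      by_contra hxM
      exact hmove i k x hx hxM hAx
    have hle : s₁ i ≤ Finset.univ.sup s₁ := Finset.le_sup (Finset.mem_univ i)
    have key : ∀ m x', (rv (R i))^[m] x' = x → InM M x' := by
      intro m
      induction m with
      | zero =>
        intro x' hx'
        have h3 : x' = x := hx'
        rwa [h3]
      | succ m ih =>
        intro x' hx'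
        have h3 := ih (rv (R i) x') (by rwa [← Function.iterate_succ_apply])
        by_contra hx'M
        have h4 : x' ∈ NodeR Ω (R i) (b i) (k + (m + 1)) := by
          show (rv (R i))^[k + (m + 1)] x' = _
          rw [Function.iterate_add_apply, hx']
          exact hx
        have := hs₁ i _ x' h4 hx'M h3
        omega
    intro m x' hx'
    exact hfixM (key m x' hx')
  · intro hex k hk x hx
    have hle : s₂ i ≤ Finset.univ.sup s₂ := Finset.le_sup (Finset.mem_univ i)
    exact hmove i k x hx (hs₂ i hex k (by omega) x hx)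

end

end Pool.Agent.ORB.NR
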