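import Pool.Agent.ORB.NRProd
import Pool.Agent.ORB.NCompl
import Pool.Agent.ORB.NRLocal
import Pool.Agent.ORB.RRed

/-! ORB, Theorem B for rational functions, row RG: the local theorem for the algebraic closure of a number field
and the product over places. -/

namespace Pool.Agent.ORB.NR

open Polynomial IntermediateField NumberField IsDedekindDomain Pool.Agent.ORB.NI

universe u

/-- `b` has the same reduction at `v` as a totally invariant point of `R` -/
def MovesAt {K : Type u} [Field K] [NumberField K] (v : HeightOneSpectrum (𝓞 K)) (R : RP K) (b : OnePoint K) :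
    Prop := ∃ e : OnePoint K, TI R e ∧ SameRed v b e

/-- `b` is residually exceptional for `R` at `v` -/
def ExcAt {K : Type u} [Field K] [NumberField K] (v : HeightOneSpectrum (𝓞 K)) (R : RP K) (b : OnePoint K) :
    Prop :=
  ∀ (F Ω : Type u) [Field F] [Field Ω] [Algebra K F] [Algebra F Ω] [CharZero F] [IsAlgClosed Ω]
    [Algebra.IsAlgebraic F Ω] (D : LocAbs F Ω), Compat v D →
    Exc D (R.map (algebraMap K F)) (pmap (algebraMap F Ω) (pmap (algebraMap K F) b))

/-- points with the same reduction lie in the same class -/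
theorem cl_of_sameRed {K : Type u} [Field K] [NumberField K] {v : HeightOneSpectrum (𝓞 K)} {F Ω : Type u}
    [Field F] [Field Ω] [Algebra K F] [Algebra F Ω] {D : LocAbs F Ω} (hD : Compat v D) {x y : OnePoint K}
    (h : SameRed v x y) :
    Cl D (pmap (algebraMap F Ω) (pmap (algebraMap K F) x)) (pmap (algebraMap F Ω) (pmap (algebraMap K F) y)) := by
  have hbig : ∀ x : OnePoint K, RedInfty v x → Big D (pmap (algebraMap F Ω) (pmap (algebraMap K F) x)) := by
    intro x hx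
    induction x using OnePoint.rec with
    | infty => exact big_infty D
    | coe a =>
      rw [pmap_coe, pmap_coe, big_coe]
      by_contra hcon
      exact absurd ((hD a).1.1 (not_lt.1 hcon)) (not_le.2 (hx a rfl))
  rcases h with ⟨h1, h2⟩ | ⟨a, b, rfl, rfl, ha, hb, hab⟩
  · refine ⟨⟨fun _ => hbig y h2, fun _ => hbig x h1⟩, ?_⟩
    exact (N_sub_le D _ _).trans_lt (max_lt (N_co_lt D (hbig x h1)) (N_co_lt D (hbig y h2)))
  · have ha' := (hD a).1.2 ha
    have hb' := (hD b).1.2 hb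
    rw [pmap_coe, pmap_coe, pmap_coe, pmap_coe]
    refine ⟨⟨fun h => absurd ((big_coe D).1 h) (not_lt.2 ha'), fun h => absurd ((big_coe D).1 h) (not_lt.2 hb')⟩, ?_⟩
    rw [co_small D ha', co_small D hb', ← map_sub, ← map_sub]
    exact (hD (a - b)).2.2 hab

theorem MovesAt.exc {K : Type u} [Field K] [NumberField K] {v : HeightOneSpectrum (𝓞 K)} {R : RP K}
    {b : OnePoint K} (hR : GoodRAt v R) (h : MovesAt v R b) : ExcAt v R b := by
  intro F Ω _ _ _ _ _ _ _ D hD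
  obtain ⟨e, he, hred⟩ := h
  exact exc_of_ti D (hR F Ω D hD) (he.map (algebraMap K F)) (cl_of_sameRed hD hred)

theorem local_E {K : Type u} [Field K] [NumberField K] (v : HeightOneSpectrum (𝓞 K)) {E : Type u} [Field E]
    [Algebra K E] [IsAlgClosed E] [Algebra.IsAlgebraic K E] {ι : Type*} [Finite ι] (R : ι → RP K)
    (b : ι → OnePoint K) (hR : ∀ i, GoodRAt v (R i)) (hb : ∀ i, ∀ n, 1 ≤ n → (R i).act^[n] (b i) ≠ b i)
    (t : ℕ) : ∃ (A : E ≃ₐ[K] E) (s : ℕ), NiceR R b t s A ∧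
      ∀ i, ExcAt v (R i) (b i) → ∀ k, s ≤ k → ∀ x ∈ NodeR E (R i) (b i) k, pmap (A : E →+* E) x ≠ x := by
  obtain ⟨F, Ω, _, _, _, _, _, _, _, D, hD⟩ := exists_locAbs v
  obtain ⟨A, s, h⟩ := local_main D (fun i => (R i).map (algebraMap K F))
    (fun i => pmap (algebraMap K F) (b i)) (fun i => hR i F Ω D hD) (fun i n hn h => hb i n hn (by
      rw [RP.act_map_iterate] at h
      exact pmap_injective _ h)) t
  exact restrict_local R b (fun i => ExcAt v (R i) (b i)) t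
    ⟨A, s, fun i => ⟨(h i).1, (h i).2.1, fun hex => (h i).2.2 (hex F Ω D hD)⟩⟩

theorem product_x {K : Type u} [Field K] [NumberField K] (P : Finset (HeightOneSpectrum (𝓞 K))) {E : Type u}
    [Field E] [Algebra K E] [IsAlgClosed E] [Algebra.IsAlgebraic K E] {ι : Type*} [Finite ι] (R : ι → RP K)
    (b : ι → OnePoint K) (hR : ∀ v ∈ P, ∀ i, GoodRAt v (R i))
    (hb : ∀ i, ∀ n, 1 ≤ n → (R i).act^[n] (b i) ≠ b i) (t : ℕ) :
    ∃ (A : E ≃ₐ[K] E) (s : ℕ), NiceR R b t s A ∧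
      ∀ i, (∃ v ∈ P, ExcAt v (R i) (b i)) →
        ∀ k, s ≤ k → ∀ x ∈ NodeR E (R i) (b i) k, pmap (A : E →+* E) x ≠ x :=
  product_of_local R b (fun v i => ExcAt v (R i) (b i)) P (fun v hv t => local_E v R b (hR v hv) hb t) t

theorem product_mv {K : Type u} [Field K] [NumberField K] (P : Finset (HeightOneSpectrum (𝓞 K))) {E : Type u}
    [Field E] [Algebra K E] [IsAlgClosed E] [Algebra.IsAlgebraic K E] {ι : Type*} [Finite ι] (R : ι → RP K)
    (b : ι → OnePoint K) (hR : ∀ v ∈ P, ∀ i, GoodRAt v (R i))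
    (hb : ∀ i, ∀ n, 1 ≤ n → (R i).act^[n] (b i) ≠ b i) (t : ℕ) :
    ∃ (A : E ≃ₐ[K] E) (s : ℕ), NiceR R b t s A ∧
      ∀ i, (∃ v ∈ P, MovesAt v (R i) (b i)) →
        ∀ k, s ≤ k → ∀ x ∈ NodeR E (R i) (b i) k, pmap (A : E →+* E) x ≠ x := by
  obtain ⟨A, s, h1, h2⟩ := product_x P (E := E) R b hR hb t
  refine ⟨A, s, h1, fun i hv => h2 i ?_⟩
  obtain ⟨v, hv, h⟩ := hv
  exact ⟨v, hv, h.exc (hR v hv i)⟩

/-- the point at infinity of a polynomial -/
theorem movesAt_poly {K : Type u} [Field K] [NumberField K] {v : HeightOneSpectrum (𝓞 K)} {R : RP K}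
    (hB : R.B = 1) {b' : K} (hb : 1 < v.valuation K b') : MovesAt v R (b' : OnePoint K) := by
  refine ⟨OnePoint.infty, ⟨1, ?_⟩, Or.inl ⟨?_, ?_⟩⟩
  · show R.B = C 1 * (1 : K[X]) ^ R.d
    rw [hB, one_pow, C_1, mul_one]
  · intro a ha
    rw [OnePoint.coe_eq_coe] at ha
    rw [← ha]
    exact hb
  · intro a ha
    exact absurd ha.symm (OnePoint.coe_ne_infty a)

theorem product {K : Type u} [Field K] [NumberField K] (P : Finset (HeightOneSpectrum (𝓞 K))) {E : Type u}
    [Field E] [Algebra K E] [IsAlgClosed E] [Algebra.IsAlgebraic K E] {ι : Type*} [Finite ι] (R : ι → RP K)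
    (b : ι → OnePoint K) (hR : ∀ v ∈ P, ∀ i, GoodRAt v (R i))
    (hb : ∀ i, ∀ n, 1 ≤ n → (R i).act^[n] (b i) ≠ b i) (t : ℕ) :
    ∃ (A : E ≃ₐ[K] E) (s : ℕ), NiceR R b t s A ∧
      ∀ i (f : K[X]) (b' : K), (R i).A = f → (R i).B = 1 → (R i).d = f.natDegree → b i = (b' : OnePoint K) →
        (∃ v ∈ P, GoodAt v f ∧ 1 < v.valuation K b') →
        ∀ k, s ≤ k → ∀ x ∈ NodeR E (R i) (b i) k, pmap (A : E →+* E) x ≠ x := by
  obtain ⟨A, s, h1, h2⟩ := product_mv P (E := E) R b hR hb t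
  refine ⟨A, s, h1, fun i f b' hA hB hd hbb hv => h2 i ?_⟩
  obtain ⟨v, hv, hg, hv1⟩ := hv
  exact ⟨v, hv, by rw [hbb]; exact movesAt_poly hB hv1⟩

end Pool.Agent.ORB.NR
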