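import Pool.Agent.ORB.NRBasic
import Pool.Agent.ORB.NGood
import Pool.Agent.ORB.NRes

/-! ORB, Theorem B for rational functions: the residual Wronskian is not zero, and it has finitely many roots. -/

namespace Pool.Agent.ORB.NR

open Polynomial IntermediateField Pool.Agent.ORB.NI

section
variable {F Ω : Type*} [Field F] [Field Ω] [Algebra F Ω] (D : LocAbs F Ω)

/-- small coefficients -/
theorem eval_small (g : Polynomial Ω) (hg : ∀ n, D.N (g.coeff n) < 1) {z : Ω} (hz : D.N z ≤ 1) :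
    D.N (g.eval z) < 1 := by
  rw [eval_eq_sum_range]
  refine N_sum_lt D _ _ one_pos fun i _ => ?_
  rw [N_mul, N_pow]
  exact (mul_le_of_le_one_right (N_nonneg D _) (pow_le_one₀ (N_nonneg D z) hz)).trans_lt (hg i)

/-- the last unit coefficient -/
theorem exists_last {g : Polynomial Ω} (hg : ∃ n, D.N (g.coeff n) = 1) :
    ∃ n, D.N (g.coeff n) = 1 ∧ ∀ m, n < m → D.N (g.coeff m) ≠ 1 := by
  classical
  obtain ⟨n₀, hn₀⟩ := hg
  have hle : ∀ n, D.N (g.coeff n) = 1 → n ≤ g.natDegree := by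
    intro n hn
    apply le_natDegree_of_ne_zero
    exact ne_zero_of_N D (by rw [hn]; exact one_ne_zero)
  set P : ℕ → Prop := fun n => D.N (g.coeff n) = 1
  refine ⟨Nat.findGreatest P g.natDegree, Nat.findGreatest_spec (P := P) (hle n₀ hn₀) hn₀, fun m hm h => ?_⟩
  exact absurd (Nat.le_findGreatest (P := P) (hle m h) h) (not_le.2 hm)

theorem exists_factor_close [IsAlgClosed Ω] {g : Polynomial Ω} (hl : D.N g.leadingCoeff = 1) {z : Ω}
    (h : D.N (g.eval z) < 1) : ∃ c ∈ g.roots, D.N (z - c) < 1 := by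
  have hroots := (IsAlgClosed.splits g).eval_eq_prod_roots z
  rw [hroots, N_mul, hl, one_mul] at h
  by_contra hcon
  push Not at hcon
  have key : ∀ s : Multiset Ω, (∀ c ∈ s, 1 ≤ D.N (z - c)) → 1 ≤ D.N ((s.map fun a => z - a).prod) := by
    intro s
    induction s using Multiset.induction_on with
    | empty => intro _; rw [Multiset.map_zero, Multiset.prod_zero, N_one]
    | cons a s ih =>
      intro hs
      rw [Multiset.map_cons, Multiset.prod_cons, N_mul]
      exact one_le_mul_of_one_le_of_one_le (hs a (Multiset.mem_cons_self a s))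
        (ih fun c hc => hs c (Multiset.mem_cons_of_mem hc))
  have := key _ hcon
  linarith

/-- finitely many residue classes of zeros -/
theorem close_finite' [IsAlgClosed Ω] {g : Polynomial Ω} (hg : ∀ n, D.N (g.coeff n) ≤ 1)
    (hu : ∃ n, D.N (g.coeff n) = 1) : ∃ T : Finset Ω, (∀ c ∈ T, D.N c ≤ 1) ∧
      ∀ z, D.N z ≤ 1 → D.N (g.eval z) < 1 → ∃ c ∈ T, D.N (z - c) < 1 := by
  classical
  obtain ⟨n, hn, hlast⟩ := exists_last D hu
  set g₁ : Polynomial Ω := ∑ i ∈ Finset.range (n + 1), monomial i (g.coeff i) with hg₁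
  have hcoef : ∀ m, g₁.coeff m = if m ≤ n then g.coeff m else 0 := by
    intro m
    rw [hg₁, finsetSum_coeff]
    simp only [coeff_monomial]
    rw [Finset.sum_ite_eq']
    by_cases h : m ≤ n
    · rw [if_pos (Finset.mem_range.2 (by omega)), if_pos h]
    · rw [if_neg (by rw [Finset.mem_range]; omega), if_neg h]
  have hdeg : g₁.natDegree = n := by
    apply le_antisymm
    · rw [natDegree_le_iff_coeff_eq_zero]
      intro m hm
      rw [hcoef, if_neg (by omega)]
    · apply le_natDegree_of_ne_zero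
      rw [hcoef, if_pos le_rfl]
      exact ne_zero_of_N D (by rw [hn]; exact one_ne_zero)
  have hl : D.N g₁.leadingCoeff = 1 := by
    rw [leadingCoeff, hdeg, hcoef, if_pos le_rfl]
    exact hn
  have hsmall : ∀ m, D.N ((g - g₁).coeff m) < 1 := by
    intro m
    rw [coeff_sub, hcoef]
    by_cases h : m ≤ n
    · rw [if_pos h, sub_self, N_zero]
      exact one_pos
    · rw [if_neg h, sub_zero]
      exact lt_of_le_of_ne (hg m) (hlast m (by omega))
  refine ⟨g₁.roots.toFinset.filter (fun c => D.N c ≤ 1), fun c hc => (Finset.mem_filter.1 hc).2,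
    fun z hz hgz => ?_⟩
  have h1 := eval_small D _ hsmall hz
  rw [eval_sub] at h1
  have h2 : D.N (g₁.eval z) < 1 := by
    have := N_sub_le D (g.eval z) (g.eval z - g₁.eval z)
    rw [sub_sub_cancel] at this
    exact this.trans_lt (max_lt hgz h1)
  obtain ⟨c, hc, hc1⟩ := exists_factor_close D hl h2
  refine ⟨c, Finset.mem_filter.2 ⟨Multiset.mem_toFinset.2 hc, ?_⟩, hc1⟩
  have := N_sub_le D z (z - c)
  rw [sub_sub_cancel] at this
  exact this.trans (max_le hz hc1.le)

theorem close_finite [IsAlgClosed Ω] {P Q : F[X]} (hG : GP D P Q) : ∃ T : Finset Ω, (∀ c ∈ T, D.N c ≤ 1) ∧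
    ∀ z, D.N z ≤ 1 → D.N (aeval z (wr P Q)) < 1 → ∃ c ∈ T, D.N (z - c) < 1 := by
  obtain ⟨T, hT, h⟩ := close_finite' D (g := (wr P Q).map (algebraMap F Ω)) (coef_map D hG.cW) (by
    obtain ⟨n, hn⟩ := hG.wunit
    exact ⟨n, by rw [coeff_map]; exact hn⟩)
  refine ⟨T, hT, fun z hz hW => h z hz ?_⟩
  rw [eval_map_algebraMap]
  exact hW

/-! ### the Wronskian -/

/-- the Wronskian in `Ω[X]` -/
noncomputable def wr' (p q : Polynomial Ω) : Polynomial Ω := derivative p * q - p * derivative q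

theorem wr'_coeff (p q : Polynomial Ω) (m : ℕ) : (wr' p q).coeff m =
    ∑ x ∈ Finset.HasAntidiagonal.antidiagonal (m + 1), ((x.1 : Ω) - x.2) * (p.coeff x.1 * q.coeff x.2) := by
  have hX : ∀ (r : Polynomial Ω) (i : ℕ), (X * derivative r).coeff i = (i : Ω) * r.coeff i := by
    intro r i
    cases i with
    | zero => simp
    | succ i =>
      rw [coeff_X_mul, coeff_derivative, Nat.cast_succ, mul_comm]
  have h1 : (wr' p q).coeff m = ((X * derivative p) * q - p * (X * derivative q)).coeff (m + 1) := by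
    have h2 : (X * derivative p) * q - p * (X * derivative q) = X * wr' p q := by
      rw [wr']
      ring
    rw [h2, coeff_X_mul]
  rw [h1, coeff_sub, coeff_mul, coeff_mul, ← Finset.sum_sub_distrib]
  refine Finset.sum_congr rfl fun x _ => ?_
  rw [hX, hX]
  ring

variable {d : ℕ}

/-- the main case -/
theorem wr'_unit_aux (ht : ∀ n : ℕ, 1 ≤ n → n ≤ d → D.N (n : Ω) = 1) {p q : Polynomial Ω}
    (hp : ∀ n, D.N (p.coeff n) ≤ 1) (hq : ∀ n, D.N (q.coeff n) ≤ 1) (hqd : q.natDegree ≤ d)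
    (hq1 : D.N (q.coeff d) = 1) (hpd : ∀ m, d ≤ m → D.N (p.coeff m) ≠ 1) (hu : ∃ n, D.N (p.coeff n) = 1) :
    ∃ n, D.N ((wr' p q).coeff n) = 1 := by
  classical
  obtain ⟨i, hi, hlast⟩ := exists_last D hu
  have hid : i < d := by
    by_contra h
    exact hpd i (not_lt.1 h) hi
  refine ⟨i + d - 1, ?_⟩
  rw [wr'_coeff, show i + d - 1 + 1 = i + d by omega]
  have hmem : (i, d) ∈ Finset.HasAntidiagonal.antidiagonal (i + d) := by rw [Finset.HasAntidiagonal.mem_antidiagonal]
  rw [← Finset.add_sum_erase _ _ hmem, add_comm]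
  have hmain : D.N (((i : Ω) - (d : ℕ)) * (p.coeff i * q.coeff d)) = 1 := by
    rw [N_mul, N_mul, hi, hq1, mul_one, mul_one, N_symm]
    have h1 := ht (d - i) (by omega) (by omega)
    rwa [Nat.cast_sub hid.le] at h1
  rw [← hmain]
  apply N_add_eq
  rw [hmain]
  refine N_sum_lt D _ _ one_pos fun x hx => ?_
  obtain ⟨hx1, hx2⟩ := Finset.mem_erase.1 hx
  rw [Finset.HasAntidiagonal.mem_antidiagonal] at hx2
  have hcast : D.N ((x.1 : Ω) - x.2) ≤ 1 := by
    rw [← mem_OO]
    exact Subring.sub_mem _ (natCast_mem (OO D) _) (natCast_mem (OO D) _)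
  rcases lt_trichotomy x.1 i with h | h | h
  · have h1 : q.coeff x.2 = 0 := coeff_eq_zero_of_natDegree_lt (by omega)
    rw [h1, mul_zero, mul_zero, N_zero]
    exact one_pos
  · exfalso
    apply hx1
    exact Prod.ext h (by omega)
  · have h1 : D.N (p.coeff x.1) < 1 := lt_of_le_of_ne (hp _) (hlast _ h)
    rw [N_mul, N_mul]
    calc D.N ((x.1 : Ω) - x.2) * (D.N (p.coeff x.1) * D.N (q.coeff x.2)) ≤
        1 * (D.N (p.coeff x.1) * 1) := mul_le_mul hcast (mul_le_mul_of_nonneg_left (hq _) (N_nonneg D _))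
          (mul_nonneg (N_nonneg D _) (N_nonneg D _)) zero_le_one
      _ = D.N (p.coeff x.1) := by rw [one_mul, mul_one]
      _ < 1 := h1

theorem wr'_unit [IsAlgClosed Ω] (hd : 1 ≤ d) (ht : ∀ n : ℕ, 1 ≤ n → n ≤ d → D.N (n : Ω) = 1)
    {p q : Polynomial Ω} (hp : ∀ n, D.N (p.coeff n) ≤ 1) (hq : ∀ n, D.N (q.coeff n) ≤ 1)
    (hpd : p.natDegree ≤ d) (hqd : q.natDegree ≤ d)
    (hu : ∀ z, D.N z ≤ 1 → D.N (p.eval z) = 1 ∨ D.N (q.eval z) = 1) (hq1 : D.N (q.coeff d) = 1) :
    ∃ n, D.N ((wr' p q).coeff n) = 1 := by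
  have hq0 : q.coeff d ≠ 0 := ne_zero_of_N D (by rw [hq1]; exact one_ne_zero)
  set l : Ω := p.coeff d / q.coeff d with hl
  have hl1 : D.N l ≤ 1 := by rw [hl, map_div₀, hq1, div_one]; exact hp d
  set p' : Polynomial Ω := p - C l * q with hp'
  have hp'c : ∀ n, D.N (p'.coeff n) ≤ 1 := by
    intro n
    rw [hp', coeff_sub, coeff_C_mul, ← mem_OO]
    exact Subring.sub_mem _ (hp n) (Subring.mul_mem _ hl1 (hq n))
  have hp'd : ∀ m, d ≤ m → p'.coeff m = 0 := by
    intro m hm
    rcases Nat.lt_or_ge d m with h | h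
    · rw [hp', coeff_sub, coeff_C_mul, coeff_eq_zero_of_natDegree_lt (by omega),
        coeff_eq_zero_of_natDegree_lt (by omega), mul_zero, sub_zero]
    · have : m = d := le_antisymm h hm
      rw [this, hp', coeff_sub, coeff_C_mul, hl, div_mul_cancel₀ _ hq0, sub_self]
  have hW : wr' p q = wr' p' q := by
    rw [wr', wr', hp', derivative_sub, derivative_C_mul]
    ring
  rw [hW]
  refine wr'_unit_aux D ht hp'c hq hqd hq1 (fun m hm => by rw [hp'd m hm, N_zero]; exact zero_ne_one) ?_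
  by_contra hcon
  push Not at hcon
  -- a root of `q`
  have hqdeg : q.natDegree = d := le_antisymm hqd (le_natDegree_of_ne_zero hq0)
  have hlead : D.N q.leadingCoeff = 1 := by rw [leadingCoeff, hqdeg]; exact hq1
  obtain ⟨z, hz⟩ := IsAlgClosed.exists_root q (by
    intro h
    have h' : q.degree = ((0 : ℕ) : WithBot ℕ) := h
    have := natDegree_eq_of_degree_eq_some h'
    omega)
  have hz0 : q.eval z = 0 := hz
  have hzN : D.N z ≤ 1 := by
    have hlc : q.leadingCoeff ≠ 0 := by rw [leadingCoeff, hqdeg]; exact hq0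
    refine N_root_le D.N D.nonarch (C q.leadingCoeff⁻¹ * q) ?_ ?_ ?_
    · rw [Monic, leadingCoeff_mul, leadingCoeff_C, inv_mul_cancel₀ hlc]
    · intro n
      rw [coeff_C_mul, N_mul, map_inv₀, hlead, inv_one, one_mul]
      exact hq n
    · rw [eval_mul, hz0, mul_zero]
  have hpz : D.N (p.eval z) < 1 := by
    have h1 : p.eval z = p'.eval z := by
      rw [hp', eval_sub, eval_mul, hz0, mul_zero, sub_zero]
    rw [h1]
    exact eval_small D _ (fun n => lt_of_le_of_ne (hp'c n) (hcon n)) hzN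
  rcases hu z hzN with h | h
  · rw [h] at hpz
    exact lt_irrefl _ hpz
  · rw [hz0, N_zero] at h
    exact zero_ne_one h

/-- the Wronskian of a good pair has a unit coefficient -/
theorem wunit_of [IsAlgClosed Ω] (hd : 1 ≤ d) (ht : ∀ n : ℕ, 1 ≤ n → n ≤ d → D.N (n : Ω) = 1) {P Q : F[X]}
    (cP : ∀ n, D.N (algebraMap F Ω (P.coeff n)) ≤ 1) (cQ : ∀ n, D.N (algebraMap F Ω (Q.coeff n)) ≤ 1)
    (hpd : P.natDegree ≤ d) (hqd : Q.natDegree ≤ d)
    (hu : ∀ z : Ω, D.N z ≤ 1 → D.N (aeval z P) = 1 ∨ D.N (aeval z Q) = 1)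
    (htop : D.N (algebraMap F Ω (P.coeff d)) = 1 ∨ D.N (algebraMap F Ω (Q.coeff d)) = 1) :
    ∃ n, D.N (algebraMap F Ω ((wr P Q).coeff n)) = 1 := by
  have key : ∀ {P Q : F[X]}, (∀ n, D.N (algebraMap F Ω (P.coeff n)) ≤ 1) →
      (∀ n, D.N (algebraMap F Ω (Q.coeff n)) ≤ 1) → P.natDegree ≤ d → Q.natDegree ≤ d →
      (∀ z : Ω, D.N z ≤ 1 → D.N (aeval z P) = 1 ∨ D.N (aeval z Q) = 1) →
      D.N (algebraMap F Ω (Q.coeff d)) = 1 → ∃ n, D.N (algebraMap F Ω ((wr P Q).coeff n)) = 1 := by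
    intro P Q cP cQ hpd hqd hu htop
    obtain ⟨n, hn⟩ := wr'_unit D hd ht (coef_map D cP) (coef_map D cQ) (by rw [natDegree_map]; exact hpd)
      (by rw [natDegree_map]; exact hqd) (fun z hz => by
        rw [eval_map_algebraMap, eval_map_algebraMap]; exact hu z hz) (by rw [coeff_map]; exact htop)
    refine ⟨n, ?_⟩
    rw [← hn, ← coeff_map]
    congr 2
    rw [wr, wr', Polynomial.map_sub, Polynomial.map_mul, Polynomial.map_mul, derivative_map, derivative_map]
  rcases htop with h | h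
  · obtain ⟨n, hn⟩ := key cQ cP hqd hpd (fun z hz => (hu z hz).symm) h
    refine ⟨n, ?_⟩
    rw [wr_swap, coeff_neg, map_neg, N_neg] at hn
    exact hn
  · exact key cP cQ hpd hqd hu h

end

end Pool.Agent.ORB.NR
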