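import Pool.Agent.ORB.NRProd
import Pool.Agent.ORB.NRPoly
import Pool.Agent.ORB.RRed

/-! ORB, Theorem B for rational functions, row RF: a rational function of degree `d` is good at `v` as soon as it
has good reduction at `v` and the numbers `1, .., d` are units at `v`. -/

namespace Pool.Agent.ORB.NR

open Polynomial IntermediateField NumberField IsDedekindDomain Pool.Agent.ORB.NI

universe u

section loc
variable {F Ω : Type*} [Field F] [Field Ω] [Algebra F Ω] (D : LocAbs F Ω)

theorem reflect_natDegree {P : F[X]} {d : ℕ} (hP : P.natDegree ≤ d) : (P.reflect d).natDegree ≤ d := by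
  rw [natDegree_le_iff_coeff_eq_zero]
  intro n hn
  rw [coeff_reflect, revAt_eq_self_of_lt hn]
  exact coeff_eq_zero_of_natDegree_lt (by omega)

/-- the value of the reflected polynomial -/
theorem reflect_val {P : F[X]} {d : ℕ} (hP : P.natDegree ≤ d) (hc : ∀ n, D.N (algebraMap F Ω (P.coeff n)) ≤ 1)
    {z : Ω} (hz : D.N z ≤ 1) :
    (D.N z < 1 → D.N (algebraMap F Ω (P.coeff d)) = 1 → D.N (aeval z (P.reflect d)) = 1) ∧
      (D.N z = 1 → D.N (aeval z (P.reflect d)) = D.N (aeval z⁻¹ P)) := by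
  constructor
  · intro h1 h2
    have hc' : ∀ n, D.N (algebraMap F Ω ((P.reflect d).coeff n)) ≤ 1 := by
      intro n
      rw [coeff_reflect]
      exact hc _
    refine aeval_unit D hc' hz (y := 0) (by rw [N_zero]; exact zero_le_one) (by rw [sub_zero]; exact h1) ?_
    rw [aeval_def, eval₂_at_zero, coeff_reflect, revAt_zero]
    exact h2
  · intro h1
    have hz0 : z ≠ 0 := ne_zero_of_N D (by rw [h1]; exact one_ne_zero)
    have h2 := aeval_reflect hP (inv_ne_zero hz0)
    rw [inv_inv] at h2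
    rw [← h2, N_mul, N_pow, map_inv₀, h1, inv_one, one_pow, one_mul]

theorem goodR_mk [IsAlgClosed Ω] {R : RP F} (hd : 2 ≤ R.d)
    (ht : ∀ n : ℕ, 1 ≤ n → n ≤ R.d → D.N (n : Ω) = 1)
    (cA : ∀ n, D.N (algebraMap F Ω (R.A.coeff n)) ≤ 1) (cB : ∀ n, D.N (algebraMap F Ω (R.B.coeff n)) ≤ 1)
    (hu : ∀ z : Ω, D.N z ≤ 1 → D.N (aeval z R.A) = 1 ∨ D.N (aeval z R.B) = 1)
    (htop : D.N (algebraMap F Ω (R.A.coeff R.d)) = 1 ∨ D.N (algebraMap F Ω (R.B.coeff R.d)) = 1) :
    GoodR D R := by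
  have cr : ∀ {P : F[X]}, (∀ n, D.N (algebraMap F Ω (P.coeff n)) ≤ 1) →
      ∀ n, D.N (algebraMap F Ω ((P.reflect R.d).coeff n)) ≤ 1 := by
    intro P hP n
    rw [coeff_reflect]
    exact hP _
  have hu' : ∀ z : Ω, D.N z ≤ 1 → D.N (aeval z (R.A.reflect R.d)) = 1 ∨ D.N (aeval z (R.B.reflect R.d)) = 1 := by
    intro z hz
    have h1 := reflect_val D R.hA cA hz
    have h2 := reflect_val D R.hB cB hz
    rcases lt_or_eq_of_le hz with h | h
    · exact htop.imp (h1.1 h) (h2.1 h)
    · rw [h1.2 h, h2.2 h]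
      exact hu _ (by rw [map_inv₀, h, inv_one])
  have htop' : D.N (algebraMap F Ω ((R.A.reflect R.d).coeff R.d)) = 1 ∨
      D.N (algebraMap F Ω ((R.B.reflect R.d).coeff R.d)) = 1 := by
    have h0 := hu 0 (by rw [N_zero]; exact zero_le_one)
    rw [aeval_def, aeval_def, eval₂_at_zero, eval₂_at_zero] at h0
    rw [coeff_reflect, coeff_reflect, revAt_le le_rfl, Nat.sub_self]
    exact h0
  exact ⟨hd, ht, ⟨cA, cB, hu, wunit_of D (by omega) ht cA cB R.hA R.hB hu htop⟩,
    ⟨cr cA, cr cB, hu', wunit_of D (by omega) ht (cr cA) (cr cB) (reflect_natDegree R.hA)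
      (reflect_natDegree R.hB) hu' htop'⟩⟩

end loc

/-- **good reduction and small degree are enough** -/
theorem goodRAt_of_good {K : Type u} [Field K] [NumberField K] {v : HeightOneSpectrum (𝓞 K)} {R : RP K}
    (hR : 2 ≤ R.d) (hg : R.Good (v.valuation K))
    (ht : ∀ n : ℕ, 1 ≤ n → n ≤ R.d → v.valuation K (n : K) = 1) : GoodRAt v R := by
  intro F Ω _ _ _ _ _ _ D hD
  obtain ⟨hA, hB, ⟨U, V, hU, hV, hUV⟩, htop⟩ := hg
  have hcoef : ∀ {T : K[X]}, IntC (v.valuation K) T →
      ∀ n, D.N (algebraMap F Ω ((T.map (algebraMap K F)).coeff n)) ≤ 1 := by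
    intro T hT n
    rw [coeff_map]
    exact N_le hD (hT n)
  refine goodR_mk D (R := R.map (algebraMap K F)) hR ?_ (hcoef hA) (hcoef hB) ?_ ?_
  · intro n h1 h2
    have h := N_eq hD (ht n h1 h2)
    simpa using h
  · intro z hz
    have hU := aeval_int D (hcoef hU) hz
    have hV := aeval_int D (hcoef hV) hz
    have hP := aeval_int D (hcoef hA) hz
    have hQ := aeval_int D (hcoef hB) hz
    show D.N (aeval z (R.A.map (algebraMap K F))) = 1 ∨ D.N (aeval z (R.B.map (algebraMap K F))) = 1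
    by_contra hcon
    push Not at hcon
    have hP1 := lt_of_le_of_ne hP hcon.1
    have hQ1 := lt_of_le_of_ne hQ hcon.2
    have h1 : aeval z (U.map (algebraMap K F)) * aeval z (R.A.map (algebraMap K F)) +
        aeval z (V.map (algebraMap K F)) * aeval z (R.B.map (algebraMap K F)) = 1 := by
      rw [← map_mul, ← map_mul, ← map_add, ← Polynomial.map_mul, ← Polynomial.map_mul, ← Polynomial.map_add,
        hUV, Polynomial.map_one, map_one]
    have h2 := D.nonarch (aeval z (U.map (algebraMap K F)) * aeval z (R.A.map (algebraMap K F)))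
      (aeval z (V.map (algebraMap K F)) * aeval z (R.B.map (algebraMap K F)))
    rw [h1, N_one, N_mul, N_mul] at h2
    have h3 := (mul_le_of_le_one_left (N_nonneg D _) hU).trans_lt hP1
    have h4 := (mul_le_of_le_one_left (N_nonneg D _) hV).trans_lt hQ1
    exact absurd h2 (not_le.2 (max_lt h3 h4))
  · show D.N (algebraMap F Ω ((R.A.map (algebraMap K F)).coeff R.d)) = 1 ∨
      D.N (algebraMap F Ω ((R.B.map (algebraMap K F)).coeff R.d)) = 1
    rw [coeff_map, coeff_map]
    exact htop.imp (N_eq hD) (N_eq hD)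

/-- the numbers `1, .., d` are units at almost all places -/
theorem tame_finite (K : Type u) [Field K] [NumberField K] (d : ℕ) :
    {v : HeightOneSpectrum (𝓞 K) | ¬ ∀ n : ℕ, 1 ≤ n → n ≤ d → v.valuation K (n : K) = 1}.Finite := by
  have h : (⋃ n ∈ Finset.Icc 1 d, badU (n : K)).Finite := by
    refine Set.Finite.biUnion (Finset.finite_toSet _) ?_
    intro n hn
    have hn1 : 1 ≤ n := (Finset.mem_Icc.1 hn).1
    exact badU_finite (Nat.cast_ne_zero.2 (by omega))
  refine h.subset fun v hv => ?_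
  have hv' : ¬ ∀ n : ℕ, 1 ≤ n → n ≤ d → v.valuation K (n : K) = 1 := hv
  push Not at hv'
  obtain ⟨n, hn1, hn2, hn⟩ := hv'
  exact Set.mem_biUnion (Finset.mem_coe.2 (Finset.mem_Icc.2 ⟨hn1, hn2⟩)) hn

theorem goodR_finite {K : Type u} [Field K] [NumberField K] (R : RP K) (hR : 2 ≤ R.d) :
    {v : HeightOneSpectrum (𝓞 K) | ¬ GoodRAt v R}.Finite := by
  refine ((RP.finite_not_good R).union (tame_finite K R.d)).subset fun v hv => ?_
  by_contra hcon
  rw [Set.mem_union, not_or] at hcon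
  obtain ⟨h1, h2⟩ := hcon
  simp only [Set.mem_ofPred_eq, not_not] at h1 h2
  exact hv (goodRAt_of_good hR h1 h2)

end Pool.Agent.ORB.NR
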