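import Pool.Agent.ORB.NRPoint
import Pool.Agent.ORB.NLevel

/-!
ORB, Theorem B for rational functions, row RD: the levels of the exits are bounded.
-/

namespace Pool.Agent.ORB.NR

open Polynomial IntermediateField Pool.Agent.ORB.NI

section
variable {F Ω : Type*} [Field F] [Field Ω] [Algebra F Ω] (D : LocAbs F Ω)

/-- `x` lies in the residue class of a point of the orbit of `b` -/
def NearR (R : RP F) (b : OnePoint F) (x : OnePoint Ω) : Prop :=
  ∃ j : ℕ, Cl D x ((rv R)^[j] (pmap (algebraMap F Ω) b))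

variable {D} {R : RP F} {b : OnePoint F} (hR : GoodR D R)
include hR

theorem near_iter {x : OnePoint Ω} (h : NearR D R b x) (n : ℕ) : NearR D R b ((rv R)^[n] x) := by
  obtain ⟨j, hj⟩ := h
  refine ⟨n + j, ?_⟩
  rw [Function.iterate_add_apply]
  exact cl_iter D hR hj n

/-- a residually periodic class -/
theorem rper_mul {x : OnePoint Ω} {r : ℕ} (h : Cl D ((rv R)^[r] x) x) (m : ℕ) :
    Cl D ((rv R)^[m * r] x) x := by
  induction m with
  | zero =>
    rw [Nat.zero_mul, Function.iterate_zero_apply]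
    exact Cl.refl x
  | succ m ih =>
    have h1 : (m + 1) * r = m * r + r := by ring
    rw [h1, Function.iterate_add_apply]
    exact Cl.trans (cl_iter D hR h (m * r)) ih

/-- a residually periodic point whose orbit meets the cycle of `b` lies in it -/
theorem near_of_rper {x : OnePoint Ω} {r : ℕ} (hr : 1 ≤ r) (h : Cl D ((rv R)^[r] x) x) (n : ℕ)
    (hn : NearR D R b ((rv R)^[n] x)) : NearR D R b x := by
  have hle : n ≤ n * r := Nat.le_mul_of_pos_right n hr
  have h2 := near_iter hR hn (n * r - n)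
  rw [← Function.iterate_add_apply, Nat.sub_add_cancel hle] at h2
  obtain ⟨j, hj⟩ := h2
  exact ⟨j, Cl.trans (Cl.symm (rper_mul hR h n)) hj⟩

end

section
variable {F Ω : Type*} [Field F] [Field Ω] [Algebra F Ω] [CharZero F] [IsAlgClosed Ω] [Algebra.IsAlgebraic F Ω]
  {D : LocAbs F Ω}

section levels
variable {R : RP F} (hR : GoodR D R) (b : OnePoint F) (hb : ∀ n, 1 ≤ n → R.act^[n] b ≠ b)
    {E : ℕ} (hE : R.d.factorial ∣ E) (hE0 : E ≠ 0) (w : ℕ → Ω) (hw0 : w 0 = algebraMap F Ω D.π)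
    (hw : ∀ n, w (n + 1) ^ E = w n) (D₀ L : ℕ) (hL : D₀ ≤ L)
    (hD₀ : ∀ x : OnePoint Ω, cr D R x < 1 → ∃ r, 1 ≤ r ∧ ∀ i, D₀ ≤ i →
      Cl D ((rv R)^[i + r] x) ((rv R)^[i] x))

omit [CharZero F] [IsAlgClosed Ω] [Algebra.IsAlgebraic F Ω] in
include hD₀ in
/-- a residually critical point: after `D₀` steps it is residually periodic -/
theorem crit_rper {x : OnePoint Ω} (h : cr D R x < 1) {i : ℕ} (hi : D₀ ≤ i) :
    ∃ r, 1 ≤ r ∧ Cl D ((rv R)^[r] ((rv R)^[i] x)) ((rv R)^[i] x) := by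
  obtain ⟨r, hr, hr1⟩ := hD₀ x h
  refine ⟨r, hr, ?_⟩
  rw [← Function.iterate_add_apply, add_comm r i]
  exact hr1 i hi

omit [CharZero F] [IsAlgClosed Ω] [Algebra.IsAlgebraic F Ω] in
include hD₀ in
/-- (8a) -/
theorem levels_a (hper : ¬ ∃ r, 1 ≤ r ∧ Cl D ((rv R)^[r] (pmap (algebraMap F Ω) b)) (pmap (algebraMap F Ω) b))
    {k : ℕ} {x : OnePoint Ω} (hx : x ∈ NodeR Ω R b k) (hcr : cr D R x < 1) : k < D₀ := by
  by_contra hk
  push Not at hk
  obtain ⟨r, hr, h⟩ := crit_rper D₀ hD₀ hcr hk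
  apply hper
  have h1 : (rv R)^[k] x = pmap (algebraMap F Ω) b := hx
  rw [h1] at h
  exact ⟨r, hr, h⟩

include hR hE hE0 hw0 hw hD₀ in
/-- (8b) -/
theorem levels_b (hun : ∀ j, cr D R ((rv R)^[j] (pmap (algebraMap F Ω) b)) = 1) (l : ℕ) :
    ∀ k, ∀ x ∈ NodeR Ω R b k, NearR D R b ((rv R)^[l] x) → InM (MF D (w (min l D₀))) x := by
  induction l with
  | zero =>
    intro k
    induction k with
    | zero =>
      intro x hx _
      have : x = pmap (algebraMap F Ω) b := hx
      rw [this]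
      exact inM_pmap _ b
    | succ k ih =>
      intro x hx hn
      have h1 := ih (rv R x) (nodeR_succ.1 hx) (near_iter hR hn 1)
      rw [Nat.zero_min] at h1 ⊢
      refine child_unit D hR (muS_le _) h1 ?_
      obtain ⟨j, hj⟩ := hn
      exact cr_one D hR hj (hun j)
  | succ l ih =>
    intro k x hx hn
    rcases Nat.eq_zero_or_pos k with rfl | hk
    · have : x = pmap (algebraMap F Ω) b := hx
      rw [this]
      exact inM_pmap _ b
    obtain ⟨k, rfl⟩ := Nat.exists_eq_succ_of_ne_zero hk.ne'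
    have h1 := ih k (rv R x) (nodeR_succ.1 hx) (by rwa [← Function.iterate_succ_apply])
    rcases Nat.lt_or_ge l D₀ with hlt | hge
    · rw [min_eq_left hlt.le] at h1
      rw [min_eq_left (by omega : l + 1 ≤ D₀)]
      exact child_up D hR hE hE0 (w_mono hE0 w hw0 hw (Nat.le_succ l)) (muS_le _) (w_ne hE0 w hw0 hw l)
        (w_lt hE0 w hw0 hw l) (mem_MF _) (fun x hx h0 => w_val hE0 w hw0 hw hx h0) (mem_MF _) (hw l) h1
    · rw [min_eq_right hge] at h1
      rw [min_eq_right (by omega : D₀ ≤ l + 1)]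
      by_cases hnl : NearR D R b ((rv R)^[l] x)
      · have := ih _ x hx hnl
        rwa [min_eq_right hge] at this
      · refine child_unit D hR (muS_le _) h1 ?_
        by_contra hne
        have hcr := lt_of_le_of_ne (cr_le D hR x) hne
        obtain ⟨r, hr, h⟩ := crit_rper D₀ hD₀ hcr hge
        exact hnl (near_of_rper hR hr h 1 (by
          rw [← Function.iterate_add_apply, add_comm]
          exact hn))

include hR hb hE0 hw0 hw hD₀ in
/-- (8c) -/
theorem levels_c {r : ℕ} (hr : 1 ≤ r)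
    (hrb : Cl D ((rv R)^[r] (pmap (algebraMap F Ω) b)) (pmap (algebraMap F Ω) b)) {j₀ : ℕ}
    (hcr : cr D R ((rv R)^[j₀] (pmap (algebraMap F Ω) b)) < 1) :
    ∃ s, ∀ k x, x ∈ NodeR Ω R b k → cr D R x < 1 → InM (MF D (w L)) (rv R x) → k ≤ s := by
  set β : OnePoint Ω := pmap (algebraMap F Ω) b with hβ
  set M := MF D (w L) with hM
  have hβM : InM M β := inM_pmap M b
  have hw1 : D.N (w L) < 1 := w_lt hE0 w hw0 hw L
  have hwne := w_ne hE0 w hw0 hw L
  have hval : ∀ y ∈ M, D.N y < 1 → D.N y ≤ D.N (w L) := by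
    intro y hy h1
    by_cases h0 : y = 0
    · rw [h0, N_zero]
      exact N_nonneg D _
    · exact (w_val hE0 w hw0 hw hy h0).le hwne hw1 h1
  set ρ := D.N (w L) with hρ
  have hρ0 : 0 < ρ := N_pos D hwne
  -- a critical step in each period
  set j₁ := j₀ % r with hj₁
  have hj₁r : j₁ < r := Nat.mod_lt _ hr
  have hcr₁ : cr D R ((rv R)^[j₁] β) < 1 := by
    refine cr_lt D hR (Cl.symm ?_) hcr
    have h1 : j₀ = j₁ + (j₀ / r) * r := by
      rw [hj₁, mul_comm]
      exact (Nat.mod_add_div j₀ r).symm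
    rw [h1, Function.iterate_add_apply]
    exact cl_iter D hR (rper_mul hR hrb (j₀ / r)) j₁
  have hT : ∀ x y : OnePoint Ω, InM M x → InM M y → Cl D x β → Cl D y β →
      D.N (co D ((rv R)^[r] x) - co D ((rv R)^[r] y)) ≤ ρ * D.N (co D x - co D y) := by
    intro x y hx hy hxb hyb
    have hxy : Cl D x y := Cl.trans hxb (Cl.symm hyb)
    have h1 : cr D R ((rv R)^[j₁] y) < 1 := cr_lt D hR (cl_iter D hR hyb j₁) hcr₁
    have h2 : cr D R ((rv R)^[j₁] y) ≤ ρ := by
      obtain ⟨c, hc, h⟩ := cr_mem D R (inM_iter M R hy j₁)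
      rw [h] at h1 ⊢
      exact hval c hc h1
    have h3 := cl_iter D hR hxy j₁
    have h4 : D.N (co D ((rv R)^[j₁] x) - co D ((rv R)^[j₁] y)) ≤ ρ :=
      hval _ (sub_mem ((inM_iff D M _).1 (inM_iter M R hx j₁)) ((inM_iff D M _).1 (inM_iter M R hy j₁))) h3.2
    have h5 := contract D hR h3
    have h6 : D.N (co D ((rv R)^[j₁ + 1] x) - co D ((rv R)^[j₁ + 1] y)) ≤ ρ * D.N (co D x - co D y) := by
      rw [Function.iterate_succ_apply', Function.iterate_succ_apply']
      refine h5.trans ?_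
      rw [mul_comm]
      exact mul_le_mul (max_le h2 h4) (contract_iter D hR hxy j₁) (N_nonneg D _) hρ0.le
    obtain ⟨i, hi⟩ := Nat.exists_eq_add_of_le (Nat.succ_le_of_lt hj₁r)
    have hi2 : r = i + (j₁ + 1) := by omega
    have h7 := contract_iter D hR (cl_iter D hR hxy (j₁ + 1)) i
    rw [← Function.iterate_add_apply, ← Function.iterate_add_apply, ← hi2] at h7
    exact h7.trans h6
  have hTcl : ∀ x : OnePoint Ω, Cl D x β → ∀ m : ℕ, Cl D ((rv R)^[m * r] x) β := by
    intro x hx m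
    exact Cl.trans (cl_iter D hR hx (m * r)) (rper_mul hR hrb m)
  have hTm : ∀ (m : ℕ) (x y : OnePoint Ω), InM M x → InM M y → Cl D x β → Cl D y β →
      D.N (co D ((rv R)^[m * r] x) - co D ((rv R)^[m * r] y)) ≤ ρ ^ m * D.N (co D x - co D y) := by
    intro m x y hx hy hxb hyb
    induction m with
    | zero => rw [Nat.zero_mul, Function.iterate_zero_apply, Function.iterate_zero_apply, pow_zero, one_mul]
    | succ m ih =>
      have h1 : (m + 1) * r = r + m * r := by ring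
      rw [h1, Function.iterate_add_apply, Function.iterate_add_apply]
      refine (hT _ _ (inM_iter M R hx _) (inM_iter M R hy _) (hTcl x hxb m) (hTcl y hyb m)).trans ?_
      rw [pow_succ, mul_comm (ρ ^ m), mul_assoc]
      exact mul_le_mul_of_nonneg_left ih hρ0.le
  have hne : co D β - co D ((rv R)^[r] β) ≠ 0 := by
    intro h
    have h1 : β = (rv R)^[r] β := by
      refine co_inj D ?_ (sub_eq_zero.1 h)
      exact (Cl.symm hrb).1
    apply hb r hr
    apply pmap_injective (algebraMap F Ω)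
    rw [← rv_pmap]
    exact h1.symm
  obtain ⟨m₀, hm₀⟩ := exists_pow_lt_of_lt_one (N_pos D hne) hw1
  -- near nodes in `P^1(M)`
  have hnear : ∀ k x, x ∈ NodeR Ω R b k → InM M x → NearR D R b x → k < m₀ * r := by
    intro k x hx hxM hn
    by_contra hk
    push Not at hk
    have hkx : (rv R)^[k] x = β := hx
    set m := k / r with hm
    have hmm : m₀ ≤ m := by
      rw [hm]
      exact (Nat.le_div_iff_mul_le hr).2 hk
    set y := (rv R)^[k % r] x with hy
    have hyM : InM M y := inM_iter M R hxM _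
    have hyT : (rv R)^[m * r] y = β := by
      rw [hy, ← Function.iterate_add_apply, hm, Nat.div_add_mod' k r]
      exact hkx
    obtain ⟨j, hj⟩ := near_iter hR hn (k % r)
    have hyb : Cl D y β := by
      have h1 := cl_iter D hR hj (m * r)
      rw [hyT, ← Function.iterate_add_apply, add_comm, Function.iterate_add_apply] at h1
      -- `β ≡ R^j (R^(m r) β) ≡ R^j β ≡ y`
      have h2 := cl_iter D hR (rper_mul hR hrb m) j
      exact Cl.trans hj (Cl.symm (Cl.trans h1 h2))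
    have hTy : Cl D ((rv R)^[r] y) β := by
      have := hTcl y hyb 1
      rwa [one_mul] at this
    have h3 := hTm m y ((rv R)^[r] y) hyM (inM_iter M R hyM r) hyb hTy
    rw [← Function.iterate_add_apply (rv R) (m * r) r y, add_comm (m * r) r,
      Function.iterate_add_apply (rv R) r (m * r) y, hyT] at h3
    have h4 : D.N (co D y - co D ((rv R)^[r] y)) ≤ 1 := by
      refine (N_sub_le D _ _).trans (max_le (N_co_le D _) (N_co_le D _))
    have h5 : ρ ^ m ≤ ρ ^ m₀ := pow_le_pow_of_le_one hρ0.le hw1.le hmm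
    have h6 : D.N (co D β - co D ((rv R)^[r] β)) ≤ ρ ^ m₀ := by
      refine h3.trans ((mul_le_of_le_one_right (pow_nonneg hρ0.le _) h4).trans h5)
    linarith
  refine ⟨m₀ * r + D₀ + 1, fun k x hx hcrx hxM => ?_⟩
  by_contra hk
  push Not at hk
  obtain ⟨r', hr', h⟩ := crit_rper D₀ hD₀ hcrx (le_refl D₀)
  obtain ⟨k', rfl⟩ : ∃ k', k = (k' + 1) + D₀ := ⟨k - D₀ - 1, by omega⟩
  have hu := nodeR_iter hx
  have hu1 := nodeR_succ.1 hu
  have hnu : NearR D R b ((rv R)^[D₀] x) := by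
    refine near_of_rper hR hr' h (k' + 1) ?_
    have : (rv R)^[k' + 1] ((rv R)^[D₀] x) = β := hu
    rw [this]
    exact ⟨0, Cl.refl _⟩
  have hnu1 : NearR D R b (rv R ((rv R)^[D₀] x)) := near_iter hR hnu 1
  have huM : InM M (rv R ((rv R)^[D₀] x)) := by
    rw [← Function.iterate_succ_apply' (rv R) D₀ x, Function.iterate_succ_apply]
    exact inM_iter M R hxM D₀
  have := hnear k' _ hu1 huM hnu1
  omega

end levels

theorem level_exits {R : RP F} (hR : GoodR D R) (b : OnePoint F) (hb : ∀ n, 1 ≤ n → R.act^[n] b ≠ b)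
    {E : ℕ} (hE : R.d.factorial ∣ E) (hE0 : E ≠ 0) (w : ℕ → Ω) (hw0 : w 0 = algebraMap F Ω D.π)
    (hw : ∀ n, w (n + 1) ^ E = w n) (D₀ L : ℕ) (hL : D₀ ≤ L)
    (hD₀ : ∀ x : OnePoint Ω, cr D R x < 1 → ∃ r, 1 ≤ r ∧ ∀ i, D₀ ≤ i →
      Cl D ((rv R)^[i + r] x) ((rv R)^[i] x)) :
    ∃ s, ∀ k x, x ∈ NodeR Ω R b k → ¬ InM (MF D (w L)) x → InM (MF D (w L)) (rv R x) → k ≤ s := by
  have hval : ∀ x ∈ MF D (w L), x ≠ 0 → Pw D (w L) x := fun x hx h0 => w_val hE0 w hw0 hw hx h0
  have hcrit : ∀ x : OnePoint Ω, ¬ InM (MF D (w L)) x → InM (MF D (w L)) (rv R x) → cr D R x < 1 := by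
    intro x hxM hev
    obtain ⟨c, -, e, -, -, -, -, h⟩ := child_exit D hR (muS_le _) (w_ne hE0 w hw0 hw L)
      (w_lt hE0 w hw0 hw L) (mem_MF _) hval hev hxM
    exact h
  by_cases hper : ∃ r, 1 ≤ r ∧ Cl D ((rv R)^[r] (pmap (algebraMap F Ω) b)) (pmap (algebraMap F Ω) b)
  · obtain ⟨r, hr, hrb⟩ := hper
    by_cases hun : ∀ j, cr D R ((rv R)^[j] (pmap (algebraMap F Ω) b)) = 1
    · refine ⟨0, fun k x hx hxM _ => absurd ?_ hxM⟩
      have h1 := levels_b hR b hE hE0 w hw0 hw D₀ hD₀ hun k k x hx ⟨0, by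
        have h2 : (rv R)^[k] x = pmap (algebraMap F Ω) b := hx
        rw [h2, Function.iterate_zero_apply]
        exact Cl.refl _⟩
      exact inM_mono (w_mono hE0 w hw0 hw ((min_le_right k D₀).trans hL)) h1
    · push Not at hun
      obtain ⟨j₀, hj₀⟩ := hun
      have hcr := lt_of_le_of_ne (cr_le D hR _) hj₀
      obtain ⟨s, hs⟩ := levels_c hR b hb hE0 w hw0 hw D₀ L hD₀ hr hrb hcr
      exact ⟨s, fun k x hx hxM hev => hs k x hx (hcrit x hxM hev) hev⟩
  · exact ⟨D₀, fun k x hx hxM hev => (levels_a b D₀ hD₀ hper hx (hcrit x hxM hev)).le⟩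

end

end Pool.Agent.ORB.NR
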