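import Pool.Agent.ORB.NRBasic
import Pool.Agent.ORB.NGlob

/-! ORB, Theorem B for rational functions, row RG: restriction to the algebraic closure of the number field and
the product of the local automorphisms at finitely many places. -/

namespace Pool.Agent.ORB.NR

open Polynomial IntermediateField NumberField IsDedekindDomain Pool.Agent.ORB.NI

universe u

/-- good at `v` -/
def GoodRAt {K : Type u} [Field K] [NumberField K] (v : HeightOneSpectrum (𝓞 K)) (R : RP K) : Prop :=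
  ∀ (F Ω : Type u) [Field F] [Field Ω] [Algebra K F] [Algebra F Ω] [CharZero F] [IsAlgClosed Ω]
    (D : LocAbs F Ω), Compat v D → GoodR D (R.map (algebraMap K F))

/-- the properties (i), (ii) of an automorphism, for all trees -/
def NiceR {K E : Type*} [Field K] [Field E] [Algebra K E] {ι : Type*} (R : ι → RP K) (b : ι → OnePoint K)
    (t s : ℕ) (A : E ≃ₐ[K] E) : Prop :=
  ∀ i, (∀ k, k ≤ t → ∀ x ∈ NodeR E (R i) (b i) k, pmap (A : E →+* E) x = x) ∧
    (∀ k, s ≤ k → ∀ x ∈ NodeR E (R i) (b i) k, pmap (A : E →+* E) x = x →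
      ∀ m x', (rv (R i))^[m] x' = x → pmap (A : E →+* E) x' = x')

section general

variable {K E : Type*} [Field K] [Field E] [Algebra K E]

theorem pmap_mul (A B : E ≃ₐ[K] E) (x : OnePoint E) :
    pmap ((A * B : E ≃ₐ[K] E) : E →+* E) x = pmap (A : E →+* E) (pmap (B : E →+* E) x) := by
  rw [pmap_comp]
  rfl

theorem pmap_id (x : OnePoint E) : pmap ((1 : E ≃ₐ[K] E) : E →+* E) x = x := by
  induction x using OnePoint.rec with
  | infty => rfl
  | coe z => rfl

theorem nodeR_down {R : RP K} {b : OnePoint K} {k m : ℕ} (hm : m ≤ k) {x : OnePoint E}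
    (hx : x ∈ NodeR E R b k) : (rv R)^[k - m] x ∈ NodeR E R b m := by
  show (rv R)^[m] ((rv R)^[k - m] x) = _
  rw [← Function.iterate_add_apply, Nat.add_sub_cancel' hm]
  exact hx

theorem nodeR_aut {R : RP K} {b : OnePoint K} {k : ℕ} {x : OnePoint E} (hx : x ∈ NodeR E R b k)
    (A : E ≃ₐ[K] E) : pmap (A : E →+* E) x ∈ NodeR E R b k := by
  show (rv R)^[k] (pmap (A : E →+* E) x) = _
  rw [rv_iter_aut, show (rv R)^[k] x = pmap (algebraMap K E) b from hx, pmap_comp]
  congr 1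
  exact RingHom.ext fun y => A.commutes y

/-- composition: `A'` is nice from level `s'` on; `B` is nice from level `s` on and trivial up to level `s'`
(this is the only thing needed for the first two conclusions about a fixed node) -/
theorem fixed_both {R : RP K} {b : OnePoint K} {s' : ℕ} {A' B : E ≃ₐ[K] E}
    (hA' : ∀ x ∈ NodeR E R b s', pmap (A' : E →+* E) x = x → ∀ m x', (rv R)^[m] x' = x →
      pmap (A' : E →+* E) x' = x')
    (hB : ∀ x ∈ NodeR E R b s', pmap (B : E →+* E) x = x) {k : ℕ} (hk : s' ≤ k) {x : OnePoint E}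
    (hx : x ∈ NodeR E R b k) (h : pmap ((A' * B : E ≃ₐ[K] E) : E →+* E) x = x) :
    pmap (A' : E →+* E) ((rv R)^[k - s'] x) = (rv R)^[k - s'] x ∧ pmap (B : E →+* E) x = x ∧
      ∀ m x', (rv R)^[m] x' = x → pmap (A' : E →+* E) x' = x' := by
  have hx0 := nodeR_down hk hx
  set x0 := (rv R)^[k - s'] x with hx0'
  have hB0 : pmap (B : E →+* E) x0 = x0 := hB x0 hx0
  have h0 : pmap (A' : E →+* E) x0 = x0 := by
    have h1 : pmap ((A' * B : E ≃ₐ[K] E) : E →+* E) x0 = x0 := by
      rw [hx0', ← rv_iter_aut, h]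
    rwa [pmap_mul, hB0] at h1
  have h2 : pmap (A' : E →+* E) (pmap (B : E →+* E) x) = pmap (B : E →+* E) x := by
    apply hA' x0 hx0 h0 (k - s') (pmap (B : E →+* E) x)
    rw [rv_iter_aut, ← hx0', hB0]
  refine ⟨h0, ?_, ?_⟩
  · rw [pmap_mul, h2] at h
    exact h
  · intro m x' hm
    apply hA' x0 hx0 h0 (k - s' + m) x'
    rw [Function.iterate_add_apply, hm]

end general

/-- the identity is nice -/
theorem niceR_one {K E : Type*} [Field K] [Field E] [Algebra K E] {ι : Type*} (R : ι → RP K)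
    (b : ι → OnePoint K) (t s : ℕ) : NiceR R b t s (1 : E ≃ₐ[K] E) :=
  fun _ => ⟨fun _ _ x _ => pmap_id x, fun _ _ _ _ _ _ x' _ => pmap_id x'⟩

/-- products: `B` trivial up to the level from which on `A'` is nice -/
theorem NiceR.mul {K E : Type*} [Field K] [Field E] [Algebra K E] {ι : Type*} {R : ι → RP K}
    {b : ι → OnePoint K} {t t' s' s : ℕ} {A' B : E ≃ₐ[K] E} (hA' : NiceR R b t s' A')
    (hB : NiceR R b t' s B) (ht : t ≤ t') (hs : s' ≤ t') : NiceR R b t (max s' s) (A' * B) := by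
  intro i
  refine ⟨?_, ?_⟩
  · intro k hk x hx
    rw [pmap_mul, (hB i).1 k (le_trans hk ht) x hx]
    exact (hA' i).1 k hk x hx
  · intro k hk x hx h m x' hm
    obtain ⟨-, h2, h3⟩ := fixed_both (R := R i) (b := b i) (s' := s') (A' := A') (B := B)
      (fun w hw hw1 => (hA' i).2 s' le_rfl w hw hw1) (fun w hw => (hB i).1 s' hs w hw)
      (le_trans (le_max_left _ _) hk) hx h
    rw [pmap_mul, (hB i).2 k (le_trans (le_max_right _ _) hk) x hx h2 m x' hm]
    exact h3 m x' hm

/-- a node moved by one factor is moved by the product -/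
theorem NiceR.moves {K E : Type*} [Field K] [Field E] [Algebra K E] {ι : Type*} {R : ι → RP K}
    {b : ι → OnePoint K} {t s' s : ℕ} {A' B : E ≃ₐ[K] E} {i : ι} (hA' : NiceR R b t s' A')
    (hB : ∀ x ∈ NodeR E (R i) (b i) s', pmap (B : E →+* E) x = x) {k : ℕ} (hk : max s' s ≤ k)
    (h : (∀ k, s' ≤ k → ∀ x ∈ NodeR E (R i) (b i) k, pmap (A' : E →+* E) x ≠ x) ∨
      ∀ k, s ≤ k → ∀ x ∈ NodeR E (R i) (b i) k, pmap (B : E →+* E) x ≠ x) {x : OnePoint E}
    (hx : x ∈ NodeR E (R i) (b i) k) : pmap ((A' * B : E ≃ₐ[K] E) : E →+* E) x ≠ x := by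
  intro hfix
  obtain ⟨h1, h2, -⟩ := fixed_both (R := R i) (b := b i) (s' := s') (A' := A') (B := B)
    (fun w hw hw1 => (hA' i).2 s' le_rfl w hw hw1) hB (le_trans (le_max_left _ _) hk) hx hfix
  rcases h with h | h
  · exact h s' le_rfl _ (nodeR_down (le_trans (le_max_left _ _) hk) hx) h1
  · exact h k (le_trans (le_max_right _ _) hk) x hx h2

/-- the product over finitely many places; `Mv v i`: the automorphism at `v` moves the nodes of the tree `i` -/
theorem product_of_local {K : Type u} [Field K] [NumberField K] {E : Type u} [Field E] [Algebra K E]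
    {ι : Type*} (R : ι → RP K) (b : ι → OnePoint K) (Mv : HeightOneSpectrum (𝓞 K) → ι → Prop)
    (P : Finset (HeightOneSpectrum (𝓞 K)))
    (hloc : ∀ v ∈ P, ∀ t : ℕ, ∃ (A : E ≃ₐ[K] E) (s : ℕ), NiceR R b t s A ∧
      ∀ i, Mv v i → ∀ k, s ≤ k → ∀ x ∈ NodeR E (R i) (b i) k, pmap (A : E →+* E) x ≠ x) (t : ℕ) :
    ∃ (A : E ≃ₐ[K] E) (s : ℕ), NiceR R b t s A ∧
      ∀ i, (∃ v ∈ P, Mv v i) → ∀ k, s ≤ k → ∀ x ∈ NodeR E (R i) (b i) k, pmap (A : E →+* E) x ≠ x := by
  classical
  induction P using Finset.induction_on with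
  | empty =>
    exact ⟨1, 0, niceR_one R b t 0, fun i ⟨v, hv, _⟩ => absurd hv (Finset.notMem_empty v)⟩
  | insert v P _ ih =>
    obtain ⟨A', s', hA', hm'⟩ := ih (fun w hw => hloc w (Finset.mem_insert_of_mem hw))
    obtain ⟨B, s, hB, hm⟩ := hloc v (Finset.mem_insert_self v P) (max t s')
    refine ⟨A' * B, max s' s, hA'.mul hB (le_max_left _ _) (le_max_right _ _), ?_⟩
    intro i hi k hk x hx
    refine hA'.moves (fun w hw => (hB i).1 s' (le_max_right _ _) w hw) hk ?_ hx
    obtain ⟨w, hw, hwi⟩ := hi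
    rcases Finset.mem_insert.1 hw with rfl | hw
    · exact Or.inr (hm i hwi)
    · exact Or.inl (hm' i ⟨w, hw, hwi⟩)

/-! ### restriction -/

section restr

variable {K F E Ω : Type*} [Field K] [Field F] [Field E] [Field Ω] [Algebra K F] [Algebra F Ω] [Algebra K E]
  [Algebra K Ω] [IsScalarTower K F Ω] [Algebra E Ω] [IsScalarTower K E Ω]

theorem RP_map_map {K F E : Type*} [Field K] [Field F] [Field E] (φ : K →+* F) (ψ : F →+* E) (R : RP K) :
    (R.map φ).map ψ = R.map (ψ.comp φ) := by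
  show RP.mk _ _ _ _ _ _ _ = RP.mk _ _ _ _ _ _ _
  simp only [RP.map, Polynomial.map_map]

theorem rv_map (R : RP K) (x : OnePoint E) :
    rv (R.map (algebraMap K F)) (pmap (algebraMap E Ω) x) = pmap (algebraMap E Ω) (rv R x) := by
  unfold rv
  rw [RP_map_map, ← IsScalarTower.algebraMap_eq K F Ω, IsScalarTower.algebraMap_eq K E Ω, ← RP_map_map,
    RP.act_map]

theorem rv_map_iter (R : RP K) (n : ℕ) (x : OnePoint E) :
    (rv (R.map (algebraMap K F)))^[n] (pmap (algebraMap E Ω) x) = pmap (algebraMap E Ω) ((rv R)^[n] x) := by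
  induction n generalizing x with
  | zero => rfl
  | succ n ih => rw [Function.iterate_succ_apply, rv_map, ih, ← Function.iterate_succ_apply]

theorem nodeR_map {R : RP K} {b : OnePoint K} {k : ℕ} {x : OnePoint E} (hx : x ∈ NodeR E R b k) :
    pmap (algebraMap E Ω) x ∈ NodeR Ω (R.map (algebraMap K F)) (pmap (algebraMap K F) b) k := by
  show (rv (R.map (algebraMap K F)))^[k] (pmap (algebraMap E Ω) x) = _
  rw [rv_map_iter, show (rv R)^[k] x = pmap (algebraMap K E) b from hx, pmap_comp, pmap_comp,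
    ← IsScalarTower.algebraMap_eq K E Ω, ← IsScalarTower.algebraMap_eq K F Ω]

end restr

/-- from the local theorem over one completion -/
theorem restrict_local {K : Type u} [Field K] [NumberField K] {E : Type u} [Field E]
    [Algebra K E] [IsAlgClosed E] [Algebra.IsAlgebraic K E] {F Ω : Type u} [Field F] [Field Ω] [Algebra K F]
    [Algebra F Ω] [IsAlgClosed Ω] {ι : Type*} (R : ι → RP K) (b : ι → OnePoint K) (Mv : ι → Prop) (t : ℕ)
    (h : ∃ (A : Ω ≃ₐ[F] Ω) (s : ℕ), ∀ i,
      (∀ k, k ≤ t → ∀ x ∈ NodeR Ω ((R i).map (algebraMap K F)) (pmap (algebraMap K F) (b i)) k,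
        pmap (A : Ω →+* Ω) x = x) ∧
      (∀ k, s ≤ k → ∀ x ∈ NodeR Ω ((R i).map (algebraMap K F)) (pmap (algebraMap K F) (b i)) k,
        pmap (A : Ω →+* Ω) x = x → ∀ m x', (rv ((R i).map (algebraMap K F)))^[m] x' = x →
          pmap (A : Ω →+* Ω) x' = x') ∧
      (Mv i → ∀ k, s ≤ k → ∀ x ∈ NodeR Ω ((R i).map (algebraMap K F)) (pmap (algebraMap K F) (b i)) k,
        pmap (A : Ω →+* Ω) x ≠ x)) :
    ∃ (A : E ≃ₐ[K] E) (s : ℕ), NiceR R b t s A ∧
      ∀ i, Mv i → ∀ k, s ≤ k → ∀ x ∈ NodeR E (R i) (b i) k, pmap (A : E →+* E) x ≠ x := by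
  let algKΩ : Algebra K Ω := ((algebraMap F Ω).comp (algebraMap K F)).toAlgebra
  have t1 : IsScalarTower K F Ω := IsScalarTower.of_algebraMap_eq (fun x => rfl)
  let φ : E →ₐ[K] Ω := IsAlgClosed.lift
  let algEΩ : Algebra E Ω := φ.toRingHom.toAlgebra
  have t2 : IsScalarTower K E Ω := IsScalarTower.of_algebraMap_eq (fun x => (φ.commutes x).symm)
  have hc : IsAlgClosure K E := ⟨inferInstance, inferInstance⟩
  have hn : Normal K E := IsAlgClosure.normal K E
  obtain ⟨A, s, h⟩ := h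
  obtain ⟨B, hB⟩ : ∃ B : E ≃ₐ[K] E, ∀ z : E, algebraMap E Ω (B z) = A (algebraMap E Ω z) :=
    ⟨(A.restrictScalars K).restrictNormal E, fun z => (A.restrictScalars K).restrictNormal_commutes E z⟩
  have hB' : ∀ x : OnePoint E, pmap (algebraMap E Ω) (pmap (B : E →+* E) x) =
      pmap (A : Ω →+* Ω) (pmap (algebraMap E Ω) x) := by
    intro x
    rw [pmap_comp, pmap_comp]
    congr 1
    exact RingHom.ext hB
  have hinj := pmap_injective (algebraMap E Ω)
  refine ⟨B, s, ?_, ?_⟩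
  · intro i
    obtain ⟨h1, h2, -⟩ := h i
    refine ⟨?_, ?_⟩
    · intro k hk x hx
      apply hinj
      rw [hB']
      exact h1 k hk _ (nodeR_map hx)
    · intro k hk x hx hBx m x' hm
      apply hinj
      rw [hB']
      refine h2 k hk _ (nodeR_map hx) ?_ m _ ?_
      · rw [← hB', hBx]
      · rw [rv_map_iter, hm]
  · intro i hi k hk x hx hBx
    refine (h i).2.2 hi k hk _ (nodeR_map hx) ?_
    rw [← hB', hBx]

end Pool.Agent.ORB.NR
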