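import Pool.Agent.ORB.NRExc
import Pool.Agent.ORB.NRProd
import Pool.Agent.ORB.NRes
import Pool.Agent.ORB.RRed
import Pool.Agent.ORB.RBlocks

/-!
ORB, Theorem B for rational functions: residually exceptional points in terms of finite extensions of the number
field.
-/

namespace Pool.Agent.ORB.NR

open Polynomial IntermediateField NumberField IsDedekindDomain Pool.Agent.ORB.NI

universe u

section int
variable {F Ω : Type*} [Field F] [Field Ω] [Algebra F Ω] (D : LocAbs F Ω)

theorem N_natCast (n : ℕ) : D.N (n : Ω) ≤ 1 := by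
  induction n with
  | zero => simp
  | succ n ih =>
    rw [Nat.cast_succ]
    exact (D.nonarch _ _).trans (max_le ih (by rw [map_one]))

theorem N_intCast (n : ℤ) : D.N (n : Ω) ≤ 1 := by
  rcases Int.natAbs_eq n with h | h
  · rw [h, Int.cast_natCast]
    exact N_natCast D _
  · rw [h, Int.cast_neg, Int.cast_natCast, N_neg]
    exact N_natCast D _

theorem N_integral {x : Ω} (hx : IsIntegral ℤ x) : D.N x ≤ 1 := by
  obtain ⟨P, hP, h0⟩ := hx
  by_contra hcon
  rw [not_le] at hcon
  have h1 : eval₂ (algebraMap ℤ Ω) x P = x ^ P.natDegree +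
      ∑ n ∈ Finset.range P.natDegree, (algebraMap ℤ Ω) (P.coeff n) * x ^ n := by
    rw [eval₂_eq_sum_range, Finset.sum_range_succ, hP.coeff_natDegree, map_one, one_mul, add_comm]
  have h2 : D.N (∑ n ∈ Finset.range P.natDegree, (algebraMap ℤ Ω) (P.coeff n) * x ^ n) < D.N (x ^ P.natDegree) := by
    rw [N_pow]
    refine N_sum_lt D _ _ (pow_pos (by linarith) _) fun n hn => ?_
    rw [Finset.mem_range] at hn
    rw [N_mul, N_pow]
    refine (mul_le_of_le_one_left (pow_nonneg (N_nonneg D x) _) ?_).trans_lt (pow_lt_pow_right₀ hcon hn)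
    rw [eq_intCast]
    exact N_intCast D _
  rw [h0] at h1
  have h3 := N_add_eq D h2
  rw [add_comm, ← h1, N_zero, N_pow] at h3
  exact absurd h3.symm (pow_pos (by linarith) _).ne'

end int

section prime
variable {K : Type u} [Field K] [NumberField K] {v : HeightOneSpectrum (𝓞 K)} {F Ω : Type u} [Field F] [Field Ω]
  [Algebra K F] [Algebra F Ω] (D : LocAbs F Ω) (hD : Compat v D)
include hD

/-- the prime of a number field which is defined by an embedding -/
theorem exists_prime (L : Type u) [Field L] [NumberField L] [Algebra K L] (φ : L →+* Ω)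
    (hφ : ∀ x : K, φ (algebraMap K L x) = algebraMap F Ω (algebraMap K F x)) :
    ∃ w : HeightOneSpectrum (𝓞 L), w.asIdeal.LiesOver v.asIdeal ∧
      ∀ x : L, (D.N (φ x) ≤ 1 ↔ w.valuation L x ≤ 1) ∧ (D.N (φ x) < 1 ↔ w.valuation L x < 1) := by
  have hint : ∀ x : 𝓞 L, D.N (φ x) ≤ 1 := by
    intro x
    refine N_integral D ?_
    exact (RingOfIntegers.isIntegral_coe x).map φ.toIntAlgHom
  let I : Ideal (𝓞 L) :=
    { carrier := {x | D.N (φ x) < 1}
      add_mem' := by
        intro x y hx hy
        show D.N (φ ((x + y : 𝓞 L) : L)) < 1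
        rw [RingOfIntegers.coe_eq_algebraMap, map_add, map_add]
        exact (D.nonarch _ _).trans_lt (max_lt hx hy)
      zero_mem' := by
        show D.N (φ ((0 : 𝓞 L) : L)) < 1
        rw [RingOfIntegers.coe_eq_algebraMap, map_zero, map_zero, N_zero]
        exact one_pos
      smul_mem' := by
        intro c x hx
        show D.N (φ ((c * x : 𝓞 L) : L)) < 1
        rw [RingOfIntegers.coe_eq_algebraMap, map_mul, map_mul, N_mul]
        exact (mul_le_of_le_one_left (N_nonneg D _) (hint c)).trans_lt hx }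
  have hmem : ∀ x : 𝓞 L, x ∈ I ↔ D.N (φ x) < 1 := fun x => Iff.rfl
  have hI : I.IsPrime := by
    refine ⟨?_, ?_⟩
    · rw [Ideal.ne_top_iff_one, hmem, RingOfIntegers.coe_eq_algebraMap, map_one, map_one, N_one]
      exact lt_irrefl _
    · intro x y hxy
      rw [hmem, RingOfIntegers.coe_eq_algebraMap, map_mul, map_mul, N_mul] at hxy
      rw [hmem, hmem]
      by_contra hcon
      push Not at hcon
      have h1 : D.N (φ x) = 1 := le_antisymm (hint x) hcon.1
      have h2 : D.N (φ y) = 1 := le_antisymm (hint y) hcon.2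
      rw [← RingOfIntegers.coe_eq_algebraMap, ← RingOfIntegers.coe_eq_algebraMap, h1, h2, mul_one] at hxy
      exact lt_irrefl _ hxy
  have hIb : I ≠ ⊥ := by
    intro h
    have h1 : ((D.p : ℕ) : 𝓞 L) ∈ I := by
      rw [hmem, RingOfIntegers.coe_eq_algebraMap, map_natCast, map_natCast]
      exact D.p_lt
    rw [h, Ideal.mem_bot] at h1
    exact D.hp.ne_zero (by exact_mod_cast h1)
  let w : HeightOneSpectrum (𝓞 L) := ⟨I, hI, hIb⟩
  have hw : ∀ x : 𝓞 L, w.valuation L (x : L) < 1 ↔ D.N (φ x) < 1 := by
    intro x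
    rw [← hmem]
    exact w.valuation_lt_one_iff_mem x
  have hw1 : ∀ x : 𝓞 L, w.valuation L (x : L) ≤ 1 := fun x => w.valuation_le_one x
  have hle : ∀ x : L, w.valuation L x ≤ 1 → D.N (φ x) ≤ 1 ∧ (w.valuation L x < 1 → D.N (φ x) < 1) := by
    intro x hx
    obtain ⟨n, d, hnd⟩ := w.exists_primeCompl_mul_eq_of_integer x hx
    have hd : D.N (φ ((d : 𝓞 L) : L)) = 1 := by
      refine le_antisymm (hint _) (not_lt.1 fun h => ?_)
      exact d.2 ((hmem _).2 h)
    have hd2 : w.valuation L ((d : 𝓞 L) : L) = 1 := by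
      refine le_antisymm (hw1 _) (not_lt.1 fun h => ?_)
      exact d.2 ((w.valuation_lt_one_iff_mem _).1 h)
    have h1 : D.N (φ x) = D.N (φ (n : L)) := by
      have := congrArg (fun y => D.N (φ y)) hnd
      simp only [map_mul] at this
      rw [RingOfIntegers.coe_eq_algebraMap] at hd
      rw [hd, mul_one] at this
      exact this
    have h2 : w.valuation L x = w.valuation L (n : L) := by
      have := congrArg (fun y => w.valuation L y) hnd
      simp only [map_mul] at this
      rw [RingOfIntegers.coe_eq_algebraMap] at hd2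
      rw [hd2, mul_one] at this
      exact this
    rw [h1, h2]
    exact ⟨hint n, fun h => (hw n).1 h⟩
  refine ⟨w, ⟨?_⟩, fun x => ⟨⟨fun h => ?_, fun h => (hle x h).1⟩, ⟨fun h => ?_, fun h => (hle x h.le).2 h⟩⟩⟩
  · ext x
    rw [Ideal.under_def, Ideal.mem_comap]
    show x ∈ v.asIdeal ↔ (algebraMap (𝓞 K) (𝓞 L) x) ∈ I
    rw [hmem, ← v.valuation_lt_one_iff_mem (K := K), ← (hD (x : K)).2, ← hφ]
    rfl
  · by_contra hcon
    rw [not_le] at hcon
    have h0 : x ≠ 0 := by
      rintro rfl
      rw [map_zero] at hcon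
      exact absurd hcon (not_lt.2 zero_le)
    have h1 : w.valuation L x⁻¹ < 1 := by
      rw [map_inv₀]
      exact inv_lt_one_of_one_lt₀ hcon
    have h2 := (hle _ h1.le).2 h1
    rw [map_inv₀, map_inv₀] at h2
    have h3 : 0 < D.N (φ x) := N_pos D ((_root_.map_ne_zero φ).2 h0)
    rw [inv_lt_one₀ h3] at h2
    exact absurd h (not_le.2 h2)
  · by_contra hcon
    rw [not_lt] at hcon
    have h0 : x ≠ 0 := by
      rintro rfl
      rw [map_zero] at hcon
      exact absurd hcon (not_le.2 zero_lt_one)
    have h1 : w.valuation L x⁻¹ ≤ 1 := by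
      rw [map_inv₀]
      exact inv_le_one_of_one_le₀ hcon
    have h2 := (hle _ h1).1
    rw [map_inv₀, map_inv₀] at h2
    have h3 : 0 < D.N (φ x) := N_pos D ((_root_.map_ne_zero φ).2 h0)
    rw [inv_le_one₀ h3] at h2
    exact absurd h (not_lt.2 h2)

omit hD in
/-- residue classes and reductions -/
theorem cl_iff {L : Type u} [Field L] [NumberField L] {w : HeightOneSpectrum (𝓞 L)} (φ : L →+* Ω)
    (hw : ∀ x : L, (D.N (φ x) ≤ 1 ↔ w.valuation L x ≤ 1) ∧ (D.N (φ x) < 1 ↔ w.valuation L x < 1))
    (x y : OnePoint L) : Cl D (pmap φ x) (pmap φ y) ↔ SameRed w x y := by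
  have hbig : ∀ x : OnePoint L, Big D (pmap φ x) ↔ RedInfty w x := by
    intro x
    induction x using OnePoint.rec with
    | infty =>
      rw [pmap_infty]
      exact ⟨fun _ a h => absurd h (OnePoint.infty_ne_coe a), fun _ => big_infty D⟩
    | coe a =>
      rw [pmap_coe, big_coe]
      have h1 : 1 < D.N (φ a) ↔ 1 < w.valuation L a := by
        rw [← not_le, (hw a).1, not_le]
      rw [h1]
      exact ⟨fun h b hb => by rw [← OnePoint.coe_injective hb]; exact h, fun h => h a rfl⟩
  constructor
  · rintro ⟨h1, h2⟩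
    by_cases hx : Big D (pmap φ x)
    · exact Or.inl ⟨(hbig x).1 hx, (hbig y).1 (h1.1 hx)⟩
    · have hy : ¬ Big D (pmap φ y) := fun h => hx (h1.2 h)
      right
      induction x using OnePoint.rec with
      | infty => exact absurd (by rw [pmap_infty]; exact big_infty D) hx
      | coe a =>
        induction y using OnePoint.rec with
        | infty => exact absurd (by rw [pmap_infty]; exact big_infty D) hy
        | coe b =>
          rw [pmap_coe, big_coe, not_lt] at hx hy
          rw [pmap_coe, pmap_coe, co_small D hx, co_small D hy, ← map_sub] at h2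
          exact ⟨a, b, rfl, rfl, (hw a).1.1 hx, (hw b).1.1 hy, (hw _).2.1 h2⟩
  · rintro (⟨h1, h2⟩ | ⟨a, b, rfl, rfl, h1, h2, h3⟩)
    · have hx := (hbig x).2 h1
      have hy := (hbig y).2 h2
      exact ⟨⟨fun _ => hy, fun _ => hx⟩, (N_sub_le D _ _).trans_lt (max_lt (N_co_lt D hx) (N_co_lt D hy))⟩
    · have hx := (hw a).1.2 h1
      have hy := (hw b).1.2 h2
      refine ⟨?_, ?_⟩
      · rw [pmap_coe, pmap_coe, big_coe, big_coe]
        exact ⟨fun h => absurd h (not_lt.2 hx), fun h => absurd h (not_lt.2 hy)⟩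
      · rw [pmap_coe, pmap_coe, co_small D hx, co_small D hy, ← map_sub]
        exact (hw _).2.2 h3

omit [NumberField K] hD in
/-- every residue class contains a point over a number field -/
theorem exists_class [NumberField K] [CharZero F] [IsAlgClosed Ω] [Algebra.IsAlgebraic F Ω] (y : OnePoint Ω) :
    ∃ (L : Type u) (_ : Field L) (_ : NumberField L) (_ : Algebra K L) (φ : L →+* Ω)
      (_ : ∀ x : K, φ (algebraMap K L x) = algebraMap F Ω (algebraMap K F x)) (x : OnePoint L),
      Cl D (pmap φ x) y := by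
  by_cases hy : Big D y
  · refine ⟨K, inferInstance, inferInstance, inferInstance, (algebraMap F Ω).comp (algebraMap K F), fun x => rfl,
      OnePoint.infty, ?_⟩
    rw [pmap_infty]
    exact ⟨⟨fun _ => hy, fun _ => big_infty D⟩,
      (N_sub_le D _ _).trans_lt (max_lt (N_co_lt D (big_infty D)) (N_co_lt D hy))⟩
  · induction y using OnePoint.rec with
    | infty => exact absurd (big_infty D) hy
    | coe z =>
      rw [big_coe, not_lt] at hy
      have key : ∀ ζ : Ω, IsIntegral ℤ ζ → D.N (ζ - z) < 1 → ∃ (L : Type u) (_ : Field L) (_ : NumberField L)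
          (_ : Algebra K L) (φ : L →+* Ω)
          (_ : ∀ x : K, φ (algebraMap K L x) = algebraMap F Ω (algebraMap K F x)) (x : OnePoint L),
          Cl D (pmap φ x) (z : OnePoint Ω) := by
        intro ζ hζ hlt
        let _ : Algebra K Ω := ((algebraMap F Ω).comp (algebraMap K F)).toAlgebra
        have hζK : IsIntegral K ζ := hζ.tower_top
        let L := adjoin K ({ζ} : Set Ω)
        have hfd : FiniteDimensional K L := adjoin.finiteDimensional hζK
        have hch : CharZero L := charZero_of_injective_algebraMap (algebraMap K L).injective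
        have hfq : FiniteDimensional ℚ L := FiniteDimensional.trans ℚ K L
        have hNF : NumberField L := NumberField.mk
        refine ⟨L, inferInstance, hNF, inferInstance, algebraMap L Ω, fun x => rfl,
          ((⟨ζ, mem_adjoin_simple_self K ζ⟩ : L) : OnePoint L), ?_⟩
        rw [pmap_coe]
        show Cl D (ζ : OnePoint Ω) (z : OnePoint Ω)
        have hζ1 : D.N ζ ≤ 1 := N_integral D hζ
        refine ⟨?_, ?_⟩
        · rw [big_coe, big_coe]
          exact ⟨fun h => absurd h (not_lt.2 hζ1), fun h => absurd h (not_lt.2 hy)⟩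
        · rw [co_small D hζ1, co_small D hy]
          exact hlt
      rcases lt_or_eq_of_le hy with h | h
      · exact key 0 isIntegral_zero (by rw [zero_sub, N_neg]; exact h)
      · obtain ⟨ζ, ⟨n, hn, hζn, -⟩, hlt⟩ := exists_mu D z h
        refine key ζ ?_ (by rw [N_symm]; exact hlt)
        refine IsIntegral.of_pow (n := n) (by omega) ?_
        rw [hζn]
        exact isIntegral_one

end prime

/-- modulo `v`, the map `f ∘ f` takes the value `b` only at `b` -/
def ResExc {K : Type u} [Field K] [NumberField K] (v : HeightOneSpectrum (𝓞 K)) (R : RP K) (b : OnePoint K) :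
    Prop :=
  ∀ (L : Type u) [Field L] [NumberField L] [Algebra K L] (w : HeightOneSpectrum (𝓞 L))
    [w.asIdeal.LiesOver v.asIdeal] (x : OnePoint L),
    SameRed w ((R.map (algebraMap K L)).act ((R.map (algebraMap K L)).act x)) (pmap (algebraMap K L) b) →
      SameRed w x (pmap (algebraMap K L) b)

/-- transfer of the condition -/
theorem ResExc.exc {K : Type u} [Field K] [NumberField K] {v : HeightOneSpectrum (𝓞 K)} {R : RP K}
    {b : OnePoint K} (h : ResExc v R b) {F Ω : Type u} [Field F] [Field Ω] [Algebra K F] [Algebra F Ω]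
    [CharZero F] [IsAlgClosed Ω] [Algebra.IsAlgebraic F Ω] (D : LocAbs F Ω) (hD : Compat v D)
    (hR : GoodR D (R.map (algebraMap K F))) :
    Exc D (R.map (algebraMap K F)) (pmap (algebraMap F Ω) (pmap (algebraMap K F) b)) := by
  intro y hy
  obtain ⟨L, _, _, _, φ, hφ, x, hx⟩ := exists_class (K := K) D y
  obtain ⟨w, hw1, hw2⟩ := exists_prime D hD L φ hφ
  have hcomp : φ.comp (algebraMap K L) = (algebraMap F Ω).comp (algebraMap K F) := RingHom.ext hφ
  have hrv : ∀ u : OnePoint L, rv (R.map (algebraMap K F)) (pmap φ u) =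
      pmap φ ((R.map (algebraMap K L)).act u) := by
    intro u
    show ((R.map (algebraMap K F)).map (algebraMap F Ω)).act (pmap φ u) = _
    rw [RP.map_map, ← hcomp, ← RP.map_map, RP.act_map]
  have hb : pmap (algebraMap F Ω) (pmap (algebraMap K F) b) = pmap φ (pmap (algebraMap K L) b) := by
    rw [pmap_comp, pmap_comp, hcomp]
  have h1 : Cl D (rv (R.map (algebraMap K F)) (rv (R.map (algebraMap K F)) (pmap φ x)))
      (pmap (algebraMap F Ω) (pmap (algebraMap K F) b)) :=
    Cl.trans (cl_rv D hR (cl_rv D hR hx)) hy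
  rw [hrv, hrv, hb, cl_iff D φ hw2] at h1
  have h2 := (cl_iff D φ hw2 _ _).2 (h L w x h1)
  rw [hb]
  exact Cl.trans (Cl.symm hx) h2

/-- base change -/
theorem ResExc.map {K F : Type u} [Field K] [NumberField K] [Field F] [NumberField F] [Algebra K F]
    {v : HeightOneSpectrum (𝓞 K)} (w : HeightOneSpectrum (𝓞 F)) [hwv : w.asIdeal.LiesOver v.asIdeal] {R : RP K}
    {b : OnePoint K} (h : ResExc v R b) : ResExc w (R.map (algebraMap K F)) (pmap (algebraMap K F) b) := by
  intro L _ _ _ w' hw' x hx
  let _ : Algebra K L := ((algebraMap F L).comp (algebraMap K F)).toAlgebra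
  have hst : IsScalarTower K F L := IsScalarTower.of_algebraMap_eq fun x => rfl
  have hlo : w'.asIdeal.LiesOver v.asIdeal := Ideal.LiesOver.trans w'.asIdeal w.asIdeal v.asIdeal
  rw [RP.map_map, pmap_comp] at hx
  rw [pmap_comp]
  exact h L w' x hx

end Pool.Agent.ORB.NR
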