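import Pool.Agent.ORB.NRGlobal
import Pool.Agent.ORB.NRTrans

/-!
ORB, Theorem B for rational functions: the local theorem for points which are exceptional modulo a prime.
-/

namespace Pool.Agent.ORB.NR

open Polynomial NumberField IsDedekindDomain Pool.Agent.ORB.NI

universe u

theorem ResExc.excAt {K : Type u} [Field K] [NumberField K] {v : HeightOneSpectrum (𝓞 K)} {R : RP K}
    {b : OnePoint K} (h : ResExc v R b) (hR : GoodRAt v R) : ExcAt v R b := by
  intro F Ω _ _ _ _ _ _ _ D hD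
  exact h.exc D hD (hR F Ω D hD)

theorem local_excE {K : Type u} [Field K] [NumberField K] (v : HeightOneSpectrum (𝓞 K)) {E : Type u} [Field E]
    [Algebra K E] [IsAlgClosed E] [Algebra.IsAlgebraic K E] {ι : Type*} [Finite ι] (R : ι → RP K)
    (b : ι → OnePoint K) (hR : ∀ i, GoodRAt v (R i)) (hb : ∀ i, ∀ n, 1 ≤ n → (R i).act^[n] (b i) ≠ b i)
    (t : ℕ) : ∃ (A : E ≃ₐ[K] E) (s : ℕ), NiceR R b t s A ∧
      ∀ i, ResExc v (R i) (b i) → ∀ k, s ≤ k → ∀ x ∈ NodeR E (R i) (b i) k, pmap (A : E →+* E) x ≠ x := by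
  obtain ⟨A, s, h1, h2⟩ := local_E v (E := E) R b hR hb t
  exact ⟨A, s, h1, fun i hi => h2 i (hi.excAt (hR i))⟩

end Pool.Agent.ORB.NR
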