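import Pool.Agent.ORB.NTop
import Pool.Agent.ORB.NGlob
import Pool.Agent.ORB.NGlobal

/-!
ORB, Theorem B, assembly, second part (row N14): products `A Φ`.
-/

namespace Pool.Agent.ORB.NI

open NumberField IsDedekindDomain Polynomial

universe u

/-- good places of an extension -/
theorem goodAt_ext {K K' : Type u} [Field K] [NumberField K] [Field K'] [NumberField K'] [Algebra K K']
    (v : HeightOneSpectrum (𝓞 K)) (w : HeightOneSpectrum (𝓞 K')) [w.asIdeal.LiesOver v.asIdeal] {f : K[X]}
    (h : GoodAt v f) : GoodAt w (f.map (algebraMap K K')) := by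
  intro F Ω _ _ _ _ _ _ D hD
  let _ : Algebra K F := ((algebraMap K' F).comp (algebraMap K K')).toAlgebra
  have h1 : Compat v D := by
    intro x
    have h2 := hD (algebraMap K K' x)
    rw [val_le_iff v w, val_lt_iff v w] at h2
    exact h2
  have h3 := h F Ω D h1
  rw [Polynomial.map_map]
  exact h3

section node
variable {K F W : Type*} [Field K] [Field F] [Field W] [Algebra K F] [Algebra K W] [Algebra F W]
  [IsScalarTower K F W]

theorem evW_map (f : K[X]) : ev (Ω := W) (f.map (algebraMap K F)) = ev f := by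
  funext z
  unfold ev
  rw [aeval_map_algebraMap]

theorem nodeW_map (f : K[X]) (b : K) (k : ℕ) :
    Node W (f.map (algebraMap K F)) (algebraMap K F b) k = Node W f b k := by
  unfold Node
  rw [evW_map, ← IsScalarTower.algebraMap_apply]

theorem evW_aut (f : F[X]) (s : W ≃ₐ[F] W) (z : W) (n : ℕ) : s ((ev f)^[n] z) = (ev f)^[n] (s z) := by
  induction n generalizing z with
  | zero => rfl
  | succ n ih =>
    rw [Function.iterate_succ_apply, Function.iterate_succ_apply, ih]
    congr 1
    unfold ev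
    exact (Polynomial.aeval_algHom_apply (s : W →ₐ[F] W) z f).symm

theorem nodeW_iff (f : K[X]) (b : K) (j k : ℕ) (z : W) : z ∈ Node W f b (j + k) ↔ (ev f)^[k] z ∈ Node W f b j := by
  unfold Node
  rw [Set.mem_ofPred_eq, Set.mem_ofPred_eq, Function.iterate_add_apply]

theorem nodeW_finite (f : K[X]) (hf : 1 ≤ f.natDegree) (b : K) (k : ℕ) : (Node W f b k).Finite := by
  classical
  induction k with
  | zero =>
    refine (Set.finite_singleton (algebraMap K W b)).subset fun z hz => hz
  | succ k ih =>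
    have h1 : Node W f b (k + 1) ⊆ ⋃ y ∈ Node W f b k, {z : W | ev f z = y} := by
      intro z hz
      rw [nodeW_iff] at hz
      exact Set.mem_iUnion₂.2 ⟨_, hz, rfl⟩
    refine (Set.Finite.biUnion ih fun y _ => ?_).subset h1
    have h2 : (f.map (algebraMap K W) - C y) ≠ 0 := by
      intro h0
      have h3 : (f.map (algebraMap K W)).natDegree = 0 := by
        rw [sub_eq_zero.1 h0, natDegree_C]
      rw [natDegree_map] at h3
      omega
    refine (f.map (algebraMap K W) - C y).roots.toFinset.finite_toSet.subset fun z hz => ?_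
    rw [Finset.mem_coe, Multiset.mem_toFinset, mem_roots h2, IsRoot, eval_sub, eval_C, eval_map_algebraMap,
      sub_eq_zero]
    exact hz

end node

/-- **Row N14**: the products `A Φ` -/
theorem moveJ {K W : Type u} [Field K] [NumberField K] [Field W] [Algebra K W] [IsAlgClosed W]
    [Algebra.IsAlgebraic K W] {I : Type} [Finite I] (p : I → K[X]) (hp : ∀ i, 1 ≤ (p i).natDegree) (b : I → K)
    (hb : ∀ i, ∀ n, 1 ≤ n → (fun x => eval x (p i))^[n] (b i) ≠ b i) (J : Set I)
    (hJ : ∀ i ∈ J, ∃ v : HeightOneSpectrum (𝓞 K), (∀ j, GoodAt v (p j)) ∧ 1 < v.valuation K (b i))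
    (h1 : ∀ (F : Type u) [Field F] [NumberField F] [Algebra K F] [Algebra F W] [IsScalarTower K F W],
      ∃ (N : ℕ) (s : W ≃ₐ[F] W), ∀ i, i ∉ J → ∀ z ∈ Node W (p i) (b i) N, s z ≠ z)
    (F : Type u) [Field F] [NumberField F] [Algebra K F] [Algebra F W] [IsScalarTower K F W] :
    ∃ (N : ℕ) (s : W ≃ₐ[F] W), ∀ i, ∀ z ∈ Node W (p i) (b i) N, s z ≠ z := by
  classical
  cases nonempty_fintype I
  have haFW : Algebra.IsAlgebraic F W := Algebra.IsAlgebraic.tower_top (K := K) F
  -- the places
  have hw : ∀ i : {i // i ∈ J}, ∃ w : HeightOneSpectrum (𝓞 F),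
      (∀ j, GoodAt w ((p j).map (algebraMap K F))) ∧ 1 < w.valuation F (algebraMap K F (b i.1)) := by
    intro i
    obtain ⟨v, hv1, hv2⟩ := hJ i.1 i.2
    obtain ⟨w, hw⟩ := VQ.exists_above (L := F) v
    refine ⟨w, fun j => goodAt_ext v w (hv1 j), ?_⟩
    rw [← not_le, val_le_iff v w, not_le]
    exact hv2
  choose w hw1 hw2 using hw
  obtain ⟨A, s, hnice, hmoveA⟩ := product (E := W) (Finset.univ.image w)
    (fun i => (p i).map (algebraMap K F)) (fun i => algebraMap K F (b i)) (by
      intro v hv j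
      obtain ⟨i, -, rfl⟩ := Finset.mem_image.1 hv
      exact hw1 i j) (by
      intro i n hn h
      apply hb i n hn
      apply (algebraMap K F).injective
      rw [← h]
      clear h hn
      induction n with
      | zero => rfl
      | succ n ih => rw [Function.iterate_succ_apply', Function.iterate_succ_apply', ← ih, eval_map_apply]) 0
  have hnode : ∀ i k, Node W ((p i).map (algebraMap K F)) (algebraMap K F (b i)) k = Node W (p i) (b i) k :=
    fun i k => nodeW_map (p i) (b i) k
  -- the field of the nodes of level `s`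
  obtain ⟨L, _, _, _, _, hstL, -, hTL⟩ := exists_gal (F := F) (⋃ i, Node W (p i) (b i) s)
    (Set.finite_iUnion fun i => nodeW_finite (p i) (hp i) (b i) s)
  let algKL : Algebra K L := ((algebraMap F L).comp (algebraMap K F)).toAlgebra
  have hst1 : IsScalarTower K F L := IsScalarTower.of_algebraMap_eq fun x => rfl
  have hst2 : IsScalarTower K L W := IsScalarTower.of_algebraMap_eq fun x => by
    rw [IsScalarTower.algebraMap_apply K F W, IsScalarTower.algebraMap_apply K F L,
      ← IsScalarTower.algebraMap_apply F L W]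
  obtain ⟨N1, Φ, hΦ⟩ := h1 L
  let Φ' : W ≃ₐ[F] W := Φ.restrictScalars F
  have hΦ' : ∀ z, Φ' z = Φ z := fun z => rfl
  refine ⟨s + N1, Φ'.trans A, fun i z hz hfix => ?_⟩
  replace hfix : A (Φ' z) = z := hfix
  -- the ancestor of level `s`
  have hy : (ev (p i))^[N1] z ∈ Node W (p i) (b i) s := (nodeW_iff (p i) (b i) s N1 z).1 hz
  set y := (ev (p i))^[N1] z with hydef
  have hev : ev (Ω := W) ((p i).map (algebraMap K F)) = ev (p i) := evW_map (p i)
  have hΦy : Φ' y = y := by
    obtain ⟨x, hx⟩ := hTL y (Set.mem_iUnion.2 ⟨i, hy⟩)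
    rw [hΦ', ← hx, Φ.commutes]
  have hy2 : (ev (p i))^[N1] (Φ' z) = y := by
    rw [← hev, ← evW_aut, hev, ← hydef, hΦy]
  have hAy : A y = y := by
    have h2 : A ((ev (p i))^[N1] (Φ' z)) = (ev (p i))^[N1] (A (Φ' z)) := by
      rw [← hev, evW_aut]
    rw [hy2, hfix] at h2
    exact h2
  have hAΦ : A (Φ' z) = Φ' z := by
    refine (hnice i).2 s le_rfl y ?_ hAy N1 (Φ' z) ?_
    · rw [hnode]
      exact hy
    · rw [hev]
      exact hy2
  have hΦz : Φ' z = z := by rw [← hAΦ, hfix]
  by_cases hi : i ∈ J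
  · -- `A` moves `z`
    have h3 : A z = z := by
      rw [hΦz] at hfix
      exact hfix
    refine hmoveA i ⟨w ⟨i, hi⟩, Finset.mem_image_of_mem _ (Finset.mem_univ _), hw2 ⟨i, hi⟩⟩ (s + N1)
      (Nat.le_add_right _ _) z ?_ h3
    rw [hnode]
    exact hz
  · -- `Φ` moves the ancestor of level `N1`
    have h4 : (ev (p i))^[s] z ∈ Node W (p i) (b i) N1 := by
      rw [← nodeW_iff, add_comm]
      exact hz
    refine hΦ i hi _ h4 ?_
    rw [← hΦ', ← hev, evW_aut, hΦz]

section poly
variable {K : Type*} [Field K]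

/-- the rational function of a polynomial -/
noncomputable def polyRP (p : K[X]) : RP K := RP.ofRat (algebraMap K[X] (RatFunc K) p)

theorem polyRP_d (p : K[X]) : (polyRP p).d = p.natDegree := by
  show rdeg (algebraMap K[X] (RatFunc K) p) = _
  unfold rdeg
  rw [RatFunc.num_algebraMap, RatFunc.denom_algebraMap, natDegree_one]
  exact max_eq_left (Nat.zero_le _)

theorem polyRP_act {W : Type*} [Field W] (φ : K →+* W) (p : K[X]) (hp : 1 ≤ p.natDegree) :
    ((polyRP p).map φ).act = pact (p.map φ) := by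
  unfold polyRP
  rw [← ract_fun_eq]
  exact ract_polynomial φ p hp

theorem polyRP_act' (p : K[X]) (hp : 1 ≤ p.natDegree) : (polyRP p).act = pact p := by
  have h := polyRP_act (RingHom.id K) p hp
  rw [RP.map_id, Polynomial.map_id] at h
  exact h

theorem mem_node_iff {W : Type*} [Field W] [Algebra K W] (p : K[X]) (hp : 1 ≤ p.natDegree) (b : K) (k : ℕ)
    (z : W) : z ∈ Node W p b k ↔ ((polyRP p).map (algebraMap K W)).act^[k] (z : OnePoint W) =
      pmap (algebraMap K W) (b : OnePoint K) := by
  rw [polyRP_act _ p hp, pact_iterate_coe, pmap_coe, OnePoint.coe_eq_coe]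
  have h : (fun y => (p.map (algebraMap K W)).eval y) = ev (Ω := W) p := by
    funext y
    rw [eval_map_algebraMap]
    rfl
  rw [h]
  rfl

end poly

/-- `Provides` for a family of polynomials, some of them with non-integral `β i` -/
theorem provides_poly {K : Type u} [Field K] [NumberField K] {I : Type} [Finite I] (p : I → K[X])
    (hp : ∀ i, 2 ≤ (p i).natDegree) (β : I → OnePoint K) (J : Set I)
    (hJ : ∀ i ∈ J, ∃ (b : K) (v : HeightOneSpectrum (𝓞 K)), β i = (b : OnePoint K) ∧ (∀ j, GoodAt v (p j)) ∧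
      1 < v.valuation K b)
    (h1 : Provides (fun i : {i // i ∉ J} => polyRP (p i.1)) (fun i => β i.1)) :
    Provides (fun i => polyRP (p i)) β := by
  classical
  have hp1 : ∀ i, 1 ≤ (p i).natDegree := fun i => le_trans one_le_two (hp i)
  refine provides_of_wander _ (fun i => by rw [polyRP_d]; exact hp i) β ?_
  have hfin : ∀ i : {i // Function.Injective fun n : ℕ => (polyRP (p i)).act^[n] (β i)},
      ∃ b : K, β i.1 = (b : OnePoint K) := by
    rintro ⟨i, hi⟩
    show ∃ b : K, β i = (b : OnePoint K)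
    generalize β i = x at hi
    induction x using OnePoint.rec with
    | infty =>
      exfalso
      have h2 : (fun n : ℕ => (polyRP (p i)).act^[n] (OnePoint.infty : OnePoint K)) 0 =
          (fun n : ℕ => (polyRP (p i)).act^[n] (OnePoint.infty : OnePoint K)) 1 := by
        simp only [polyRP_act' _ (hp1 i), pact_iterate_infty]
      exact absurd (hi h2) (by omega)
    | coe b => exact ⟨b, rfl⟩
  choose b hb using hfin
  have hnp : ∀ i : {i // Function.Injective fun n : ℕ => (polyRP (p i)).act^[n] (β i)}, ∀ n, 1 ≤ n →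
      (fun x => eval x (p i.1))^[n] (b i) ≠ b i := by
    intro i n hn h
    have h2 : (fun n : ℕ => (polyRP (p i.1)).act^[n] (β i.1)) n =
        (fun n : ℕ => (polyRP (p i.1)).act^[n] (β i.1)) 0 := by
      simp only [hb i, polyRP_act' _ (hp1 i.1), pact_iterate_coe, h]
      rfl
    have := i.2 h2
    omega
  refine provides_of_W (W := AlgebraicClosure K) _ _ ?_
  intro F _ _ _ _ _
  obtain ⟨N, s, hs⟩ := moveJ (W := AlgebraicClosure K) (fun i => p i.1) (fun i => hp1 i.1) b hnp
    {i | i.1 ∈ J} (by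
      intro i hi
      obtain ⟨b', v, hb', hv1, hv2⟩ := hJ i.1 hi
      rw [hb i, OnePoint.coe_eq_coe] at hb'
      subst hb'
      exact ⟨v, fun j => hv1 j.1, hv2⟩) (by
      intro F _ _ _ _ _
      have h2 := h1.comp (fun i : {i : {i // Function.Injective fun n : ℕ => (polyRP (p i)).act^[n] (β i)} //
        i.1 ∉ J} => ⟨i.1.1, i.2⟩)
      obtain ⟨N, s, hs⟩ := h2.toW (W := AlgebraicClosure K) (fun i => by
        show 1 ≤ (polyRP (p i.1.1)).d
        rw [polyRP_d]
        exact hp1 i.1.1) F
      refine ⟨N, s, fun i hi z hz hfix => ?_⟩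
      refine hs ⟨i, hi⟩ (z : OnePoint (AlgebraicClosure K)) ?_ (by rw [pmap_coe]; exact congrArg _ hfix)
      rw [mem_node_iff _ (hp1 i.1), ← hb i] at hz
      show IsTgt (polyRP (p i.1)) (β i.1) _ (((polyRP (p i.1)).map _).act^[N] _)
      rw [hz]
      refine ⟨fun m hm hper => ?_, Or.inl rfl⟩
      rw [RP.act_map_iterate] at hper
      have h3 := pmap_injective _ hper
      have h4 := i.2 (show (fun n : ℕ => (polyRP (p i.1)).act^[n] (β i.1)) m =
        (fun n : ℕ => (polyRP (p i.1)).act^[n] (β i.1)) 0 from h3)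
      omega) F
  refine ⟨N, s, fun i x hx hfix => ?_⟩
  obtain ⟨-, hx | ⟨⟨m, hm, hper⟩, -⟩⟩ := hx
  · rw [hb i] at hx
    induction x using OnePoint.rec with
    | infty =>
      rw [polyRP_act _ _ (hp1 i.1), pact_iterate_infty, pmap_coe] at hx
      exact OnePoint.coe_ne_infty _ hx.symm
    | coe z =>
      rw [pmap_coe, OnePoint.coe_eq_coe] at hfix
      exact hs i z ((mem_node_iff _ (hp1 i.1) _ _ _).2 hx) hfix
  · have h4 := i.2 (show (fun n : ℕ => (polyRP (p i.1)).act^[n] (β i.1)) m =
      (fun n : ℕ => (polyRP (p i.1)).act^[n] (β i.1)) 0 from hper)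
    omega

end Pool.Agent.ORB.NI
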