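import Pool.Agent.ORB.NRLocX
import Pool.Agent.ORB.NRGood
import Pool.Agent.ORB.NTopB
import Pool.Agent.ORB.NBlk

/-!
ORB, Theorem B for rational functions, assembly: products over finitely many places, `Provides`.
-/

namespace Pool.Agent.ORB.NR

open NumberField IsDedekindDomain Polynomial Pool.Agent.ORB.NI

universe u

/-- tame: `1, ..., d` are units -/
def Tame {K : Type u} [Field K] [NumberField K] (v : HeightOneSpectrum (𝓞 K)) (d : ℕ) : Prop :=
  ∀ n : ℕ, 1 ≤ n → n ≤ d → v.valuation K (n : K) = 1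

theorem rv_scale {K E : Type*} [Field K] [Field E] [Algebra K E] (R : RP K) (c : K) (hc : c ≠ 0) :
    rv (Ω := E) (R.scale c hc) = rv R := by
  unfold rv
  rw [RP.scale_map, RP.scale_act]

theorem ResExc.scale {K : Type u} [Field K] [NumberField K] {v : HeightOneSpectrum (𝓞 K)} {R : RP K}
    {b : OnePoint K} (h : ResExc v R b) {c : K} (hc : c ≠ 0) : ResExc v (R.scale c hc) b := by
  intro L _ _ _ w _ x hx
  rw [RP.scale_map, RP.scale_act] at hx
  exact h L w x hx

/-- the local theorem at one place -/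
theorem local_place {K : Type u} [Field K] [NumberField K] (v : HeightOneSpectrum (𝓞 K)) {E : Type u} [Field E]
    [Algebra K E] [IsAlgClosed E] [Algebra.IsAlgebraic K E] {ι : Type*} [Finite ι] (R : ι → RP K)
    (b : ι → OnePoint K) (hd : ∀ i, 2 ≤ (R i).d) (hg : ∀ i, RGood v (R i)) (ht : ∀ i, Tame v (R i).d)
    (hb : ∀ i, ∀ n, 1 ≤ n → (R i).act^[n] (b i) ≠ b i) (t : ℕ) :
    ∃ (A : E ≃ₐ[K] E) (s : ℕ), NiceR R b t s A ∧
      ∀ i, ResExc v (R i) (b i) → ∀ k, s ≤ k → ∀ x ∈ NodeR E (R i) (b i) k, pmap (A : E →+* E) x ≠ x := by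
  classical
  choose c hc hgood using hg
  obtain ⟨A, s, hnice, hmove⟩ := local_excE v (E := E) (fun i => (R i).scale (c i) (hc i)) b
    (fun i => goodRAt_of_good (hd i) (hgood i) (ht i)) (fun i n hn h => hb i n hn (by
      rwa [RP.scale_act] at h)) t
  have hnode : ∀ i k, NodeR E ((R i).scale (c i) (hc i)) (b i) k = NodeR E (R i) (b i) k := by
    intro i k
    unfold NodeR
    rw [rv_scale]
  refine ⟨A, s, fun i => ?_, fun i hi k hk x hx => ?_⟩
  · have h := hnice i
    simp only [hnode, rv_scale] at h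
    exact h
  · refine hmove i (hi.scale (hc i)) k hk x ?_
    rw [hnode]
    exact hx

/-- products over finitely many places -/
theorem product_place {K : Type u} [Field K] [NumberField K] (P : Finset (HeightOneSpectrum (𝓞 K))) {E : Type u}
    [Field E] [Algebra K E] [IsAlgClosed E] [Algebra.IsAlgebraic K E] {ι : Type*} [Finite ι] (R : ι → RP K)
    (b : ι → OnePoint K) (hd : ∀ i, 2 ≤ (R i).d) (hg : ∀ v ∈ P, ∀ i, RGood v (R i) ∧ Tame v (R i).d)
    (hb : ∀ i, ∀ n, 1 ≤ n → (R i).act^[n] (b i) ≠ b i) (t : ℕ) :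
    ∃ (A : E ≃ₐ[K] E) (s : ℕ), NiceR R b t s A ∧
      ∀ i, (∃ v ∈ P, ResExc v (R i) (b i)) → ∀ k, s ≤ k → ∀ x ∈ NodeR E (R i) (b i) k,
        pmap (A : E →+* E) x ≠ x :=
  product_of_local R b (fun v i => ResExc v (R i) (b i)) P (fun v hv t => local_place v R b hd
    (fun i => (hg v hv i).1) (fun i => (hg v hv i).2) hb t) t

section node
variable {K F W : Type*} [Field K] [Field F] [Field W] [Algebra K F] [Algebra K W] [Algebra F W]
  [IsScalarTower K F W]

theorem rvW_map (R : RP K) : rv (Ω := W) (R.map (algebraMap K F)) = rv R := by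
  unfold rv
  rw [RP.map_map, ← IsScalarTower.algebraMap_eq]

theorem nodeRW_map (R : RP K) (b : OnePoint K) (k : ℕ) :
    NodeR W (R.map (algebraMap K F)) (pmap (algebraMap K F) b) k = NodeR W R b k := by
  unfold NodeR
  rw [rvW_map, pmap_comp, ← IsScalarTower.algebraMap_eq]

theorem nodeRW_iff (R : RP K) (b : OnePoint K) (j k : ℕ) (x : OnePoint W) :
    x ∈ NodeR W R b (j + k) ↔ (rv R)^[k] x ∈ NodeR W R b j := by
  show (rv R)^[j + k] x = _ ↔ (rv R)^[j] ((rv R)^[k] x) = _
  rw [Function.iterate_add_apply]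

theorem nodeRW_finite (R : RP K) (hR : 1 ≤ R.d) (b : OnePoint K) (k : ℕ) :
    {z : W | (z : OnePoint W) ∈ NodeR W R b k}.Finite := by
  have h2 : 1 ≤ ((R.map (algebraMap K W)).iter k).d := by
    rw [RP.iter_d]
    exact Nat.one_le_pow _ _ hR
  refine (((R.map (algebraMap K W)).iter k).finite_fiber h2 ({pmap (algebraMap K W) b} : Set (OnePoint W))
    (Set.finite_singleton _)).subset fun z hz => ?_
  show ((R.map (algebraMap K W)).iter k).act (z : OnePoint W) ∈ ({pmap (algebraMap K W) b} : Set (OnePoint W))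
  rw [RP.act_iter]
  exact hz

end node

section ext
variable {K F : Type u} [Field K] [NumberField K] [Field F] [NumberField F] [Algebra K F]
  (v : HeightOneSpectrum (𝓞 K)) (w : HeightOneSpectrum (𝓞 F)) [w.asIdeal.LiesOver v.asIdeal]

theorem rgood_ext {R : RP K} (h : RGood v R) : RGood w (R.map (algebraMap K F)) := by
  obtain ⟨c, hc, hg⟩ := h
  have h1 := good_ext v w _ hg
  rw [RP.scale_map] at h1
  exact ⟨_, _, h1⟩

theorem tame_ext {d : ℕ} (h : Tame v d) : Tame w d := by
  intro n h1 h2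
  have h3 := (val_eq_iff v w (n : K)).2 (h n h1 h2)
  rwa [map_natCast] at h3

end ext

/-- **Row N14 for rational functions**: the products `A Φ` -/
theorem moveJ {K W : Type u} [Field K] [NumberField K] [Field W] [Algebra K W] [IsAlgClosed W]
    [Algebra.IsAlgebraic K W] {I : Type} [Finite I] (R : I → RP K) (hR : ∀ i, 2 ≤ (R i).d) (b : I → OnePoint K)
    (hb : ∀ i, ∀ n, 1 ≤ n → (R i).act^[n] (b i) ≠ b i) (J : Set I)
    (hJ : ∀ i ∈ J, ∃ v : HeightOneSpectrum (𝓞 K), ResExc v (R i) (b i) ∧ ∀ j, RGood v (R j) ∧ Tame v (R j).d)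
    (h1 : ∀ (F : Type u) [Field F] [NumberField F] [Algebra K F] [Algebra F W] [IsScalarTower K F W],
      ∃ (N : ℕ) (s : W ≃ₐ[F] W), ∀ i, i ∉ J → ∀ x ∈ NodeR W (R i) (b i) N, pmap (s : W →+* W) x ≠ x)
    (F : Type u) [Field F] [NumberField F] [Algebra K F] [Algebra F W] [IsScalarTower K F W] :
    ∃ (N : ℕ) (s : W ≃ₐ[F] W), ∀ i, ∀ x ∈ NodeR W (R i) (b i) N, pmap (s : W →+* W) x ≠ x := by
  classical
  cases nonempty_fintype I
  have haFW : Algebra.IsAlgebraic F W := Algebra.IsAlgebraic.tower_top (K := K) F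
  -- the places
  have hw : ∀ i : {i // i ∈ J}, ∃ w : HeightOneSpectrum (𝓞 F),
      ResExc w ((R i.1).map (algebraMap K F)) (pmap (algebraMap K F) (b i.1)) ∧
      ∀ j, RGood w ((R j).map (algebraMap K F)) ∧ Tame w (R j).d := by
    intro i
    obtain ⟨v, hv1, hv2⟩ := hJ i.1 i.2
    obtain ⟨w, hw⟩ := VQ.exists_above (L := F) v
    exact ⟨w, ResExc.map w hv1, fun j => ⟨rgood_ext v w (hv2 j).1, tame_ext v w (hv2 j).2⟩⟩
  choose w hw1 hw2 using hw
  obtain ⟨A, s, hnice, hmoveA⟩ := product_place (E := W) (Finset.univ.image w)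
    (fun i => (R i).map (algebraMap K F)) (fun i => pmap (algebraMap K F) (b i)) (fun i => hR i) (by
      intro v hv j
      obtain ⟨i, -, rfl⟩ := Finset.mem_image.1 hv
      exact hw2 i j) (by
      intro i n hn h
      rw [RP.act_map_iterate] at h
      exact hb i n hn (pmap_injective _ h)) 0
  have hnode : ∀ i k, NodeR W ((R i).map (algebraMap K F)) (pmap (algebraMap K F) (b i)) k =
      NodeR W (R i) (b i) k := fun i k => nodeRW_map (R i) (b i) k
  -- the field of the nodes of level `s`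
  obtain ⟨L, _, _, _, _, hstL, -, hTL⟩ := exists_gal (F := F)
    (⋃ i, {z : W | (z : OnePoint W) ∈ NodeR W (R i) (b i) s})
    (Set.finite_iUnion fun i => nodeRW_finite (R i) (le_trans one_le_two (hR i)) (b i) s)
  let algKL : Algebra K L := ((algebraMap F L).comp (algebraMap K F)).toAlgebra
  have hst1 : IsScalarTower K F L := IsScalarTower.of_algebraMap_eq fun x => rfl
  have hst2 : IsScalarTower K L W := IsScalarTower.of_algebraMap_eq fun x => by
    rw [IsScalarTower.algebraMap_apply K F W, IsScalarTower.algebraMap_apply K F L,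
      ← IsScalarTower.algebraMap_apply F L W]
  obtain ⟨N1, Φ, hΦ⟩ := h1 L
  let Φ' : W ≃ₐ[F] W := Φ.restrictScalars F
  have hcomp : ∀ x : OnePoint W, pmap ((Φ'.trans A : W ≃ₐ[F] W) : W →+* W) x =
      pmap (A : W →+* W) (pmap (Φ' : W →+* W) x) := by
    intro x
    rw [pmap_comp]
    congr 1
  refine ⟨s + N1, Φ'.trans A, fun i x hx hfix => ?_⟩
  rw [hcomp] at hfix
  -- the ancestor of level `s`
  have hy : (rv (R i))^[N1] x ∈ NodeR W (R i) (b i) s := (nodeRW_iff (R i) (b i) s N1 x).1 hx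
  set y := (rv (R i))^[N1] x with hydef
  have hev : rv (Ω := W) ((R i).map (algebraMap K F)) = rv (R i) := rvW_map (R i)
  have hcom : ∀ (g : W ≃ₐ[F] W) (n : ℕ) (z : OnePoint W), (rv (R i))^[n] (pmap (g : W →+* W) z) =
      pmap (g : W →+* W) ((rv (R i))^[n] z) := by
    intro g n z
    rw [← hev]
    exact rv_iter_aut g _ n z
  have hΦfix : ∀ y ∈ NodeR W (R i) (b i) s, pmap (Φ' : W →+* W) y = y := by
    intro y hy
    induction y using OnePoint.rec with
    | infty => rfl
    | coe z =>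
      have hz : z ∈ ⋃ i, {z : W | (z : OnePoint W) ∈ NodeR W (R i) (b i) s} := Set.mem_iUnion.2 ⟨i, hy⟩
      obtain ⟨x, hx⟩ := hTL z hz
      rw [pmap_coe]
      congr 1
      show Φ z = z
      rw [← hx]
      exact Φ.commutes x
  have hΦy : pmap (Φ' : W →+* W) y = y := hΦfix y hy
  have hy2 : (rv (R i))^[N1] (pmap (Φ' : W →+* W) x) = y := by
    rw [hcom, ← hydef, hΦy]
  have hAy : pmap (A : W →+* W) y = y := by
    have h2 := hcom A N1 (pmap (Φ' : W →+* W) x)
    rw [hy2, hfix] at h2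
    exact h2.symm
  have hAΦ : pmap (A : W →+* W) (pmap (Φ' : W →+* W) x) = pmap (Φ' : W →+* W) x := by
    refine (hnice i).2 s le_rfl y ?_ hAy N1 (pmap (Φ' : W →+* W) x) ?_
    · rw [hnode]
      exact hy
    · rw [hev]
      exact hy2
  have hΦz : pmap (Φ' : W →+* W) x = x := by rw [← hAΦ, hfix]
  by_cases hi : i ∈ J
  · -- `A` moves `x`
    have h3 : pmap (A : W →+* W) x = x := by
      rw [hΦz] at hfix
      exact hfix
    refine hmoveA i ⟨w ⟨i, hi⟩, Finset.mem_image_of_mem _ (Finset.mem_univ _), hw1 ⟨i, hi⟩⟩ (s + N1)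
      (Nat.le_add_right _ _) x ?_ h3
    rw [hnode]
    exact hx
  · -- `Φ` moves the ancestor of level `N1`
    have h4 : (rv (R i))^[s] x ∈ NodeR W (R i) (b i) N1 := by
      rw [← nodeRW_iff, add_comm]
      exact hx
    refine hΦ i hi _ h4 ?_
    have h5 := hcom Φ' s x
    rw [hΦz] at h5
    exact h5.symm

/-- `Provides` for a family of rational functions, for some of which `β i` is exceptional modulo a prime -/
theorem provides_exc {K : Type u} [Field K] [NumberField K] {I : Type} [Finite I] (R : I → RP K)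
    (hR : ∀ i, 2 ≤ (R i).d) (β : I → OnePoint K) (J : Set I)
    (hJ : ∀ i ∈ J, ∃ v : HeightOneSpectrum (𝓞 K), ResExc v (R i) (β i) ∧ ∀ j, RGood v (R j) ∧ Tame v (R j).d)
    (h1 : Provides (fun i : {i // i ∉ J} => R i.1) (fun i => β i.1)) : Provides R β := by
  classical
  have hR1 : ∀ i, 1 ≤ (R i).d := fun i => le_trans one_le_two (hR i)
  refine provides_of_wander R hR β ?_
  have hnp : ∀ i : {i // Function.Injective fun n : ℕ => (R i).act^[n] (β i)}, ∀ n, 1 ≤ n →
      (R i.1).act^[n] (β i.1) ≠ β i.1 := by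
    intro i n hn h
    have h2 : (fun n : ℕ => (R i).act^[n] (β i)) n = (fun n : ℕ => (R i).act^[n] (β i)) 0 := h
    have := i.2 h2
    omega
  refine provides_of_W (W := AlgebraicClosure K) _ _ ?_
  intro F _ _ _ _ _
  obtain ⟨N, s, hs⟩ := moveJ (W := AlgebraicClosure K)
    (fun i : {i // Function.Injective fun n : ℕ => (R i).act^[n] (β i)} => R i.1) (fun i => hR i.1)
    (fun i => β i.1) hnp {i | i.1 ∈ J} (by
      intro i hi
      obtain ⟨v, hv1, hv2⟩ := hJ i.1 hi
      exact ⟨v, hv1, fun j => hv2 j.1⟩) (by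
      intro F _ _ _ _ _
      have h2 := h1.comp (fun i : {i : {i // Function.Injective fun n : ℕ => (R i).act^[n] (β i)} //
        i.1 ∉ J} => ⟨i.1.1, i.2⟩)
      obtain ⟨N, s, hs⟩ := h2.toW (W := AlgebraicClosure K) (by intro i; exact hR1 _) F
      refine ⟨N, s, fun i hi x hx hfix => ?_⟩
      refine hs ⟨i, hi⟩ x ?_ hfix
      show IsTgt (R i.1) (β i.1) _ (((R i.1).map _).act^[N] _)
      have hx' : ((R i.1).map (algebraMap K (AlgebraicClosure K))).act^[N] x =
        pmap (algebraMap K (AlgebraicClosure K)) (β i.1) := hx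
      rw [hx']
      refine ⟨fun m hm hper => ?_, Or.inl rfl⟩
      rw [RP.act_map_iterate] at hper
      exact hnp i m hm (pmap_injective _ hper)) F
  refine ⟨N, s, fun i x hx hfix => ?_⟩
  obtain ⟨-, hx | ⟨⟨m, hm, hper⟩, -⟩⟩ := hx
  · exact hs i x hx hfix
  · exact hnp i m hm hper

end Pool.Agent.ORB.NR
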