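import Pool.Agent.ORB.NRBasic
import Pool.Agent.ORB.NRChild

/-!
ORB, Theorem B for rational functions, row RB': children of points.
-/

namespace Pool.Agent.ORB.NR

open Polynomial IntermediateField Pool.Agent.ORB.NI

variable {F Ω : Type*} [Field F] [Field Ω] [Algebra F Ω] [CharZero F] [IsAlgClosed Ω] [Algebra.IsAlgebraic F Ω]
  (D : LocAbs F Ω)

theorem child_unit {R : RP F} (hR : GoodR D R) {M : IntermediateField F Ω} (hM : muS D ⊆ M) {x : OnePoint Ω}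
    (h1 : InM M (rv R x)) (h2 : cr D R x = 1) : InM M x := by
  obtain ⟨P, Q, hG, -, -, h⟩ := chart D hR x
  obtain ⟨hQ, hco, hcr⟩ := h x (Cl.refl x)
  rw [inM_iff D] at h1 ⊢
  exact chart_unit D hG hM (N_co_le D x) hQ (hco ▸ h1) (hcr.trans h2)

theorem child_exit {R : RP F} (hR : GoodR D R) {ϖ : Ω} {M : IntermediateField F Ω} (hM : muS D ⊆ M)
    (hϖ0 : ϖ ≠ 0) (hϖ1 : D.N ϖ < 1) (hϖ : ϖ ∈ M) (hv : ∀ x ∈ M, x ≠ 0 → Pw D ϖ x) {x : OnePoint Ω}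
    (h1 : InM M (rv R x)) (hx : ¬ InM M x) :
    ∃ c ∈ M, ∃ e : ℕ, 1 ≤ e ∧ e ≤ R.d ∧ (∃ k : ℤ, D.N (co D x - c) ^ e = D.N ϖ ^ k) ∧
      ¬ Pw D ϖ (co D x - c) ∧ cr D R x < 1 := by
  obtain ⟨P, Q, hG, hP, hQd, h⟩ := chart D hR x
  obtain ⟨hQ, hco, hcr⟩ := h x (Cl.refl x)
  rw [inM_iff D] at h1 hx
  obtain ⟨c, hc, e, he1, he2, hk, hp, hW⟩ := chart_exit D hG hP hQd hR.tame hM hϖ0 hϖ hv (N_co_le D x) hQ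
    (hco ▸ h1) hx
  exact ⟨c, hc, e, he1, he2, hk, hp, hcr ▸ hW⟩

theorem child_up {R : RP F} (hR : GoodR D R) {ϖ ϖ' : Ω} {E : ℕ} (hE : R.d.factorial ∣ E) (hE0 : E ≠ 0)
    {M M' : IntermediateField F Ω} (hMM' : M ≤ M') (hM : muS D ⊆ M) (hϖ0 : ϖ ≠ 0) (hϖ1 : D.N ϖ < 1) (hϖ : ϖ ∈ M)
    (hv : ∀ x ∈ M, x ≠ 0 → Pw D ϖ x) (hϖ' : ϖ' ∈ M') (hEϖ : ϖ' ^ E = ϖ) {x : OnePoint Ω}
    (h1 : InM M (rv R x)) : InM M' x := by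
  obtain ⟨P, Q, hG, hP, hQd, h⟩ := chart D hR x
  obtain ⟨hQ, hco, hcr⟩ := h x (Cl.refl x)
  rw [inM_iff D] at h1 ⊢
  exact chart_up D hG hP hQd hR.tame hE hMM' hM hϖ0 hϖ1 hϖ hv hϖ' hEϖ hQ (hco ▸ h1)

end Pool.Agent.ORB.NR
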