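import Mathlib

/-!
ORB, Theorem V (quadratic tuples): the tree of the preimages of `b` under `x ^ 2 + c`.
-/

namespace Pool.Agent.ORB.VQ

open Finset

/-- the quadratic map -/
def qm {W : Type*} [Field W] (c : W) (z : W) : W := z ^ 2 + c

theorem qm_neg {W : Type*} [Field W] (c z : W) : qm c (-z) = qm c z := by simp [qm]

theorem qm_eq_iff {W : Type*} [Field W] {c z z' : W} : qm c z = qm c z' ↔ z' = z ∨ z' = -z := by
  constructor
  · intro h
    have h1 : z' ^ 2 = z ^ 2 := by
      have : z ^ 2 + c = z' ^ 2 + c := h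
      exact (add_right_cancel this).symm
    exact sq_eq_sq_iff_eq_or_eq_neg.1 h1
  · rintro (h | h)
    · rw [h]
    · rw [h, qm_neg]

theorem map_qm {K W : Type*} [Field K] [Field W] (φ : K →+* W) (c x : K) :
    φ (qm c x) = qm (φ c) (φ x) := by simp [qm]

theorem map_iter {K W : Type*} [Field K] [Field W] (φ : K →+* W) (c x : K) (n : ℕ) :
    φ ((qm c)^[n] x) = (qm (φ c))^[n] (φ x) := by
  induction n generalizing x with
  | zero => rfl
  | succ n ih => rw [Function.iterate_succ_apply, Function.iterate_succ_apply, ih, map_qm]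

section pre
variable {W : Type*} [Field W] [IsAlgClosed W]

/-- a square root of `y - c` -/
noncomputable def rt (c y : W) : W :=
  Classical.choose (IsAlgClosed.exists_pow_nat_eq (y - c) (n := 2) two_pos)

theorem rt_sq (c y : W) : rt c y ^ 2 = y - c :=
  Classical.choose_spec (IsAlgClosed.exists_pow_nat_eq (y - c) (n := 2) two_pos)

theorem qm_rt (c y : W) : qm c (rt c y) = y := by simp [qm, rt_sq]

theorem qm_eq_iff' {c z y : W} : qm c z = y ↔ z = rt c y ∨ z = -rt c y := by
  rw [← qm_rt c y, eq_comm, qm_eq_iff, qm_rt]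

open Classical in
/-- the preimages of `x` under the `e`-th iterate -/
noncomputable def pre (c : W) : ℕ → W → Finset W
  | 0, x => {x}
  | e + 1, x => (pre c e x).biUnion fun y => {rt c y, -rt c y}

theorem mem_pre {c : W} {e : ℕ} {x z : W} : z ∈ pre c e x ↔ (qm c)^[e] z = x := by
  classical
  induction e generalizing z with
  | zero => simp [pre]
  | succ e ih =>
    rw [pre, mem_biUnion, Function.iterate_succ_apply]
    constructor
    · rintro ⟨y, hy, hz⟩
      rw [mem_insert, mem_singleton] at hz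
      rw [qm_eq_iff'.2 hz]
      exact ih.1 hy
    · intro h
      refine ⟨qm c z, ih.2 h, ?_⟩
      rw [mem_insert, mem_singleton]
      exact qm_eq_iff'.1 rfl

theorem rt_ne {c y : W} (h2 : (2 : W) ≠ 0) (hy : y ≠ c) : rt c y ≠ -rt c y := by
  intro h
  have h1 : 2 * rt c y = 0 := by linear_combination h
  rcases mul_eq_zero.1 h1 with h3 | h3
  · exact h2 h3
  · have := rt_sq c y
    rw [h3] at this
    apply hy
    linear_combination -this

/-- products over a level: one step -/
theorem prod_pre {c : W} (h2 : (2 : W) ≠ 0) (e : ℕ) {x : W}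
    (h : ∀ y, (qm c)^[e] y = x → y ≠ c) {M : Type*} [CommMonoid M] (φ : W → M) :
    ∏ z ∈ pre c (e + 1) x, φ z = ∏ y ∈ pre c e x, φ (rt c y) * φ (-rt c y) := by
  classical
  rw [pre, prod_biUnion]
  · refine prod_congr rfl fun y hy => ?_
    rw [prod_insert, prod_singleton]
    rw [mem_singleton]
    exact rt_ne h2 (h y (mem_pre.1 hy))
  · intro y _ y' _ hne
    refine Finset.disjoint_left.2 fun z hz hz' => hne ?_
    rw [mem_insert, mem_singleton] at hz hz'
    rw [← qm_eq_iff'.2 hz, ← qm_eq_iff'.2 hz']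

/-- the value of the iterate as a product over the level -/
theorem prod_sub {c : W} (h2 : (2 : W) ≠ 0) (e : ℕ) {x : W}
    (h : ∀ i < e, ∀ y, (qm c)^[i] y = x → y ≠ c) (t : W) :
    ∏ z ∈ pre c e x, (t - z) = (qm c)^[e] t - x := by
  induction e generalizing t with
  | zero => simp [pre]
  | succ e ih =>
    rw [prod_pre h2 e (h e (Nat.lt_succ_self e)), Function.iterate_succ_apply,
      ← ih (fun i hi => h i (hi.trans (Nat.lt_succ_self e)))]
    refine prod_congr rfl fun y _ => ?_
    have := rt_sq c y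
    simp only [qm]
    linear_combination -this

theorem card_pre {c : W} (h2 : (2 : W) ≠ 0) (e : ℕ) {x : W}
    (h : ∀ i < e, ∀ y, (qm c)^[i] y = x → y ≠ c) : (pre c e x).card = 2 ^ e := by
  induction e with
  | zero => simp [pre]
  | succ e ih =>
    have h1 := prod_pre h2 e (h e (Nat.lt_succ_self e)) (fun _ : W => Multiplicative.ofAdd (1 : ℕ))
    rw [prod_const, prod_const, ← ofAdd_nsmul, ← ofAdd_add, ← ofAdd_nsmul] at h1
    have h3 := Multiplicative.ofAdd.injective h1
    simp only [smul_eq_mul, mul_one] at h3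
    rw [h3, ih (fun i hi => h i (hi.trans (Nat.lt_succ_self e))), pow_succ]

end pre

section tree
variable {K W : Type*} [Field K] [Field W] [Algebra K W]

/-- the level `l` of the tree of the preimages of `b` -/
def Lev (W : Type*) [Field W] [Algebra K W] (c b : K) (l : ℕ) : Set W :=
  {z | (qm (algebraMap K W c))^[l] z = algebraMap K W b}

theorem mem_Lev {c b : K} {l : ℕ} {z : W} :
    z ∈ Lev W c b l ↔ (qm (algebraMap K W c))^[l] z = algebraMap K W b := Iff.rfl

theorem Lev_qm {c b : K} {l : ℕ} {z : W} :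
    z ∈ Lev W c b (l + 1) ↔ qm (algebraMap K W c) z ∈ Lev W c b l := by
  rw [mem_Lev, Function.iterate_succ_apply]
  rfl

theorem Lev_iter {c b : K} {l e : ℕ} {z : W} :
    z ∈ Lev W c b (l + e) ↔ (qm (algebraMap K W c))^[e] z ∈ Lev W c b l := by
  rw [mem_Lev, Function.iterate_add_apply]
  rfl

theorem aut_iter (c : K) (g : W ≃ₐ[K] W) (n : ℕ) (z : W) :
    g ((qm (algebraMap K W c))^[n] z) = (qm (algebraMap K W c))^[n] (g z) := by
  have h := map_iter (g : W ≃ₐ[K] W).toRingEquiv.toRingHom (algebraMap K W c) z n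
  have h2 : (g : W ≃ₐ[K] W).toRingEquiv.toRingHom (algebraMap K W c) = algebraMap K W c :=
    g.commutes c
  rw [h2] at h
  exact h

theorem aut_qm (c : K) (g : W ≃ₐ[K] W) (z : W) :
    g (qm (algebraMap K W c) z) = qm (algebraMap K W c) (g z) := aut_iter c g 1 z

theorem Lev_aut {c b : K} {l : ℕ} {z : W} (g : W ≃ₐ[K] W) (hz : z ∈ Lev W c b l) :
    g z ∈ Lev W c b l := by
  rw [mem_Lev] at hz ⊢
  rw [← aut_iter, hz, g.commutes]

theorem Lev_neg {c b : K} {l : ℕ} {z : W} (hz : z ∈ Lev W c b (l + 1)) :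
    -z ∈ Lev W c b (l + 1) := by
  rw [Lev_qm, qm_neg, ← Lev_qm]
  exact hz

/-- a value below the level: `b` is not in the orbit of `0` -/
theorem ne_of_Lev {c b : K} (hb : ∀ n, 1 ≤ n → (qm c)^[n] 0 ≠ b) {l : ℕ} {y : W}
    (hy : y ∈ Lev W c b l) : y ≠ algebraMap K W c := by
  rintro rfl
  rw [mem_Lev, ← map_iter] at hy
  have h1 := (algebraMap K W).injective hy
  apply hb (l + 1) (Nat.succ_pos l)
  rw [Function.iterate_succ_apply]
  have h2 : qm c 0 = c := by simp [qm]
  rw [h2, h1]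

theorem ne_zero_of_Lev {c b : K} (hb : ∀ n, 1 ≤ n → (qm c)^[n] 0 ≠ b) {l : ℕ} {z : W}
    (hz : z ∈ Lev W c b (l + 1)) : z ≠ 0 := by
  rintro rfl
  refine ne_of_Lev hb (Lev_qm.1 hz) ?_
  simp [qm]

/-- transitivity on the level `l` -/
def Tran (W : Type*) [Field W] [Algebra K W] (c b : K) (l : ℕ) : Prop :=
  ∀ y ∈ Lev W c b l, ∀ y' ∈ Lev W c b l, ∃ g : W ≃ₐ[K] W, g y = y'

/-- there is a flip at level `l` -/
def FlipAt (W : Type*) [Field W] [Algebra K W] (c b : K) (l : ℕ) : Prop :=
  ∃ g : W ≃ₐ[K] W, (∀ y ∈ Lev W c b l, g y = y) ∧ ∀ z ∈ Lev W c b (l + 1), g z = -z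

/-- the extension property -/
def ExtP (W : Type*) [Field W] [Algebra K W] (c b : K) : Prop :=
  ∀ T : Set W, T.Finite → ∀ s₀ : W ≃ₐ[K] W, ∃ (N : ℕ) (s : W ≃ₐ[K] W),
    (∀ t ∈ T, s t = s₀ t) ∧ ∀ z ∈ Lev W c b N, s z ≠ z

end tree

end Pool.Agent.ORB.VQ
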