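import Pool.Agent.ORB.VFreshF
import Pool.Agent.ORB.VBase
import Pool.Agent.ORB.Val

set_option autoImplicit false

/-! ORB, Theorem V: descent to a node at which there are flips on all levels (row R9). -/

namespace Pool.Agent.ORB.VQ

open IsDedekindDomain NumberField WithZero IntermediateField

/-- the tame condition at an odd prime -/
def TameOK {K : Type*} [Field K] [NumberField K] (c b : K) : Prop :=
  ∃ Q : HeightOneSpectrum (𝓞 K), Q.valuation K (2 : K) = 1 ∧ Q.valuation K c ≤ 1 ∧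
    Q.valuation K c < Q.valuation K b ∧ Q.valuation K b ≠ 1

/-- comparison of values for an extension of a valuation -/
theorem ext_isEquiv {K Ω Γ Γ' : Type*} [Field K] [Field Ω] [Algebra K Ω]
    [LinearOrderedCommGroupWithZero Γ] [LinearOrderedCommGroupWithZero Γ'] {v : Valuation K Γ}
    {w : Valuation Ω Γ'} (h : ∀ x : K, w (algebraMap K Ω x) ≤ 1 ↔ v x ≤ 1) :
    (w.comap (algebraMap K Ω)).IsEquiv v :=
  Valuation.isEquiv_of_val_le_one h

theorem ext_le_iff {K Ω Γ Γ' : Type*} [Field K] [Field Ω] [Algebra K Ω]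
    [LinearOrderedCommGroupWithZero Γ] [LinearOrderedCommGroupWithZero Γ'] {v : Valuation K Γ}
    {w : Valuation Ω Γ'} (h : ∀ x : K, w (algebraMap K Ω x) ≤ 1 ↔ v x ≤ 1) (x y : K) :
    w (algebraMap K Ω x) ≤ w (algebraMap K Ω y) ↔ v x ≤ v y := ext_isEquiv h x y

theorem ext_lt_iff {K Ω Γ Γ' : Type*} [Field K] [Field Ω] [Algebra K Ω]
    [LinearOrderedCommGroupWithZero Γ] [LinearOrderedCommGroupWithZero Γ'] {v : Valuation K Γ}
    {w : Valuation Ω Γ'} (h : ∀ x : K, w (algebraMap K Ω x) ≤ 1 ↔ v x ≤ 1) (x y : K) :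
    w (algebraMap K Ω x) < w (algebraMap K Ω y) ↔ v x < v y := by
  rw [← not_le, ← not_le, ext_le_iff h]

theorem ext_eq_iff {K Ω Γ Γ' : Type*} [Field K] [Field Ω] [Algebra K Ω]
    [LinearOrderedCommGroupWithZero Γ] [LinearOrderedCommGroupWithZero Γ'] {v : Valuation K Γ}
    {w : Valuation Ω Γ'} (h : ∀ x : K, w (algebraMap K Ω x) ≤ 1 ↔ v x ≤ 1) (x y : K) :
    w (algebraMap K Ω x) = w (algebraMap K Ω y) ↔ v x = v y := by
  rw [le_antisymm_iff, le_antisymm_iff, ext_le_iff h, ext_le_iff h]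

/-- Values on `K(r)` for a node `r` above `b` when the value of `b` is a `2 ^ a`-th power. -/
theorem desc_core {K Ω Γ : Type*} [Field K] [Field Ω] [Algebra K Ω]
    [LinearOrderedCommGroupWithZero Γ] (w : Valuation Ω Γ) (h2 : w 2 = 1) (c b : K)
    (hc : w (algebraMap K Ω c) ≤ 1) (hcb : w (algebraMap K Ω c) < w (algebraMap K Ω b)) (a : ℕ)
    (γ : K) (hγ : w (algebraMap K Ω γ) ^ 2 ^ a = w (algebraMap K Ω b))
    (hγodd : ∀ x : K, w (algebraMap K Ω x) ^ 2 ≠ w (algebraMap K Ω γ)) (r : Ω)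
    (hr : (qm (algebraMap K Ω c))^[a] r = algebraMap K Ω b) :
    w (algebraMap K Ω c) < w r ∧ ∀ x ∈ K⟮r⟯, w x ^ 2 ≠ w r := by
  set f : Ω → Ω := qm (algebraMap K Ω c) with hf
  set β : Ω := algebraMap K Ω b with hβ
  have hlev : ∀ (l : ℕ) (z : Ω), f^[l] z = β → w (algebraMap K Ω c) < w z ∧ w z ^ 2 ^ l = w β :=
    tame_levels w hc hcb
  have hwr : w r = w (algebraMap K Ω γ) :=
    pow_inj₀' (n := 2 ^ a) (by positivity) (by rw [(hlev a r hr).2, hγ])
  refine ⟨(hlev a r hr).1, fun x hx h => ?_⟩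
  have hγ0 : w (algebraMap K Ω γ) ≠ 0 := by
    rw [← hwr]
    exact (lt_of_le_of_lt zero_le (hlev a r hr).1).ne'
  set L : Subfield Ω := (algebraMap K Ω).fieldRange with hL
  obtain ⟨M, hLM, hMH, hMs⟩ := exists_max_valIn h2 (valIn_valGrp w L)
  have hKM : ∀ x : K, algebraMap K Ω x ∈ M := fun x => hLM ⟨x, rfl⟩
  have hlevM : ∀ i : ℕ, i ≤ a → ∀ z : Ω, f^[i] z = β → z ∈ M := by
    intro i
    induction i with
    | zero =>
      intro _ z hz
      simp only [Function.iterate_zero, id_eq] at hz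
      rw [hz]
      exact hKM b
    | succ i ih =>
      intro hi z hz
      have hy : f z ∈ M := ih (by omega) (f z) (by rw [← Function.iterate_succ_apply]; exact hz)
      refine hMs z ?_ ?_
      · have : z ^ 2 = f z - algebraMap K Ω c := by simp [hf, qm]
        rw [this]
        exact M.sub_mem hy (hKM c)
      · intro _
        refine inH_valGrp.2 ⟨algebraMap K Ω γ ^ 2 ^ (a - (i + 1)), L.pow_mem ⟨γ, rfl⟩ _, ?_, ?_⟩
        · exact pow_ne_zero _ ((Valuation.ne_zero_iff w).1 hγ0)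
        · apply pow_inj₀' (n := 2 ^ (i + 1)) (by positivity)
          rw [(hlev (i + 1) z hz).2, map_pow, ← pow_mul, ← pow_add, Nat.sub_add_cancel hi, hγ]
  have hxM : x ∈ M := by
    have h1 : K⟮r⟯ ≤ M.toIntermediateField hKM := by
      rw [adjoin_simple_le_iff]
      exact hlevM a le_rfl r hr
    exact h1 hx
  have hx0 : x ≠ 0 := by
    rintro rfl
    rw [hwr, map_zero, zero_pow two_ne_zero] at h
    exact hγ0 h.symm
  obtain ⟨y, ⟨y', rfl⟩, -, hy⟩ := inH_valGrp.1 (hMH x hxM hx0)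
  exact hγodd y' (by rw [hy, h, hwr])

/-- **Row R9, first part.** -/
theorem tame_node {K : Type*} [Field K] [NumberField K] {Ω : Type*} [Field Ω] [Algebra K Ω]
    [IsGalois K Ω] {c b : K} (h : TameOK c b) :
    ∃ a : ℕ, ∀ r ∈ Lev Ω c b a, ∀ l, FlipAt Ω (algebraMap K K⟮r⟯ c) (AdjoinSimple.gen K r) l := by
  obtain ⟨Q, q2, qc, qcb, qb⟩ := h
  obtain ⟨A, hA⟩ := exists_ext_val (Ω := Ω) (Q.valuation K)
  set w := A.valuation with hw
  have hb0 : Q.valuation K b ≠ 0 := (lt_of_le_of_lt zero_le qcb).ne'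
  obtain ⟨m, hm⟩ : ∃ m : ℤ, Q.valuation K b = WithZero.exp m :=
    ⟨WithZero.log (Q.valuation K b), (WithZero.exp_log hb0).symm⟩
  have hm0 : m ≠ 0 := by
    rintro rfl
    exact qb (by rw [hm, WithZero.exp_zero])
  obtain ⟨a, n, hn, hmn⟩ := Nat.exists_eq_two_pow_mul_odd (Int.natAbs_ne_zero.2 hm0)
  obtain ⟨m', hm', hodd'⟩ : ∃ m' : ℤ, m = 2 ^ a * m' ∧ Odd m' := by
    rcases Int.natAbs_eq m with h | h
    · refine ⟨n, ?_, by exact_mod_cast hn⟩
      rw [h, hmn]
      push_cast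
      ring
    · refine ⟨-n, ?_, by exact_mod_cast (Odd.neg (α := ℤ) (by exact_mod_cast hn))⟩
      rw [h, hmn]
      push_cast
      ring
  obtain ⟨π, hπ⟩ := Q.valuation_exists_uniformizer K
  set γ : K := π ^ (-m') with hγ
  have hvγ : Q.valuation K γ = WithZero.exp m' := by
    rw [hγ, map_zpow₀, hπ, ← WithZero.exp_zsmul]
    simp
  have hvγa : Q.valuation K (γ ^ 2 ^ a) = Q.valuation K b := by
    rw [map_pow, hvγ, hm, ← WithZero.exp_nsmul, hm']
    simp
  refine ⟨a, fun r hr => ?_⟩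
  have h2w : w (2 : Ω) = 1 := by
    have h1 := (ext_eq_iff hA (2 : K) 1).2 (by rw [q2, map_one])
    rw [map_ofNat, map_one, map_one] at h1
    exact h1
  have hcw : w (algebraMap K Ω c) ≤ 1 := (hA c).2 qc
  have hcbw : w (algebraMap K Ω c) < w (algebraMap K Ω b) := (ext_lt_iff hA c b).2 qcb
  obtain ⟨d1, d2⟩ := desc_core w h2w c b hcw hcbw a γ
    (by rw [← map_pow, ← map_pow]; exact (ext_eq_iff hA _ _).2 hvγa)
    (by
      intro x hx
      rw [← map_pow, ← map_pow, ext_eq_iff hA, map_pow, hvγ] at hx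
      have hx0 : Q.valuation K x ≠ 0 := by
        intro h0
        rw [h0, zero_pow two_ne_zero] at hx
        exact WithZero.exp_ne_zero hx.symm
      rw [← WithZero.exp_log hx0, ← WithZero.exp_nsmul, WithZero.exp_inj] at hx
      obtain ⟨k, hk⟩ := hodd'
      simp only [nsmul_eq_mul, Nat.cast_ofNat] at hx
      omega) r hr
  have : IsGalois K⟮r⟯ Ω := IsGalois.tower_top_intermediateField _
  have e1 : algebraMap K⟮r⟯ Ω (algebraMap K K⟮r⟯ c) = algebraMap K Ω c :=
    (IsScalarTower.algebraMap_apply K K⟮r⟯ Ω c).symm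
  have e2 : algebraMap K⟮r⟯ Ω (AdjoinSimple.gen K r) = r := AdjoinSimple.algebraMap_gen K r
  intro l
  obtain ⟨g, g1, g2⟩ := tame_flip (K := K⟮r⟯) w h2w (algebraMap K K⟮r⟯ c) (AdjoinSimple.gen K r)
    (by rw [e1]; exact hcw) (by rw [e1, e2]; exact d1)
    (by
      intro x
      rw [e2]
      exact d2 x x.2) l
  exact ⟨g, fun y hy => g1 y hy, fun z hz => g2 z hz⟩

/-! ### the second case: `v c < 1` and `v b < 1` -/

theorem orbit_small {K Γ : Type*} [Field K] [LinearOrderedCommGroupWithZero Γ] {v : Valuation K Γ}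
    {c : K} (hc : v c < 1) : ∀ n, v ((qm c)^[n] 0) ≤ v c := by
  intro n
  induction n with
  | zero => simp
  | succ n ih =>
    rw [Function.iterate_succ_apply']
    refine v.map_add_le ?_ le_rfl
    rw [map_pow, pow_two]
    calc v ((qm c)^[n] 0) * v ((qm c)^[n] 0) ≤ v c * 1 := mul_le_mul' ih (ih.trans hc.le)
      _ = v c := mul_one _

theorem orbit_step {K Γ : Type*} [Field K] [LinearOrderedCommGroupWithZero Γ] {v : Valuation K Γ}
    {c : K} (hc : v c < 1) : ∀ n, v ((qm c)^[n + 1] 0 - (qm c)^[n] 0) ≤ v c ^ (n + 1) := by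
  intro n
  induction n with
  | zero => simp [qm]
  | succ n ih =>
    have e1 : (qm c)^[n + 1 + 1] (0 : K) = qm c ((qm c)^[n + 1] 0) :=
      Function.iterate_succ_apply' _ _ _
    have e2 : (qm c)^[n + 1] (0 : K) = qm c ((qm c)^[n] 0) := Function.iterate_succ_apply' _ _ _
    have e : (qm c)^[n + 1 + 1] (0 : K) - (qm c)^[n + 1] 0 =
        ((qm c)^[n + 1] 0 - (qm c)^[n] 0) * ((qm c)^[n + 1] 0 + (qm c)^[n] 0) := by
      rw [e1]
      conv_lhs => rw [e2]
      conv_rhs => rw [e2]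
      simp only [qm]
      ring
    rw [e, map_mul, pow_succ (v c) (n + 1)]
    exact mul_le_mul' ih (v.map_add_le (orbit_small hc _) (orbit_small hc _))

/-- a node with a small value forces `b` to be close to a fixed point -/
theorem node_small {F Γ : Type*} [Field F] [LinearOrderedCommGroupWithZero Γ] {v : Valuation F Γ}
    {c b r : F} (hc : v c < 1) (hr : v r ≤ v c) (k : ℕ) (h : (qm c)^[k] r = b) :
    v (qm c b - b) ≤ v c ^ (k + 1) := by
  have key : ∀ k, v ((qm c)^[k] r) ≤ v c ∧ v ((qm c)^[k] r - (qm c)^[k] 0) ≤ v c ^ (k + 1) := by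
    intro k
    induction k with
    | zero => simpa using hr
    | succ k ih =>
      obtain ⟨i1, i2⟩ := ih
      refine ⟨?_, ?_⟩
      · rw [Function.iterate_succ_apply']
        refine v.map_add_le ?_ le_rfl
        rw [map_pow, pow_two]
        calc _ ≤ v c * 1 := mul_le_mul' i1 (i1.trans hc.le)
          _ = v c := mul_one _
      · rw [Function.iterate_succ_apply', Function.iterate_succ_apply' (qm c) k 0]
        have e : qm c ((qm c)^[k] r) - qm c ((qm c)^[k] 0) =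
            ((qm c)^[k] r - (qm c)^[k] 0) * ((qm c)^[k] r + (qm c)^[k] 0) := by
          simp only [qm]
          ring
        rw [e, map_mul, pow_succ (v c) (k + 1)]
        exact mul_le_mul' i2 (v.map_add_le i1 (orbit_small hc _))
  obtain ⟨i1, i2⟩ := key k
  rw [h] at i1 i2
  have e : qm c b - b = (b - (qm c)^[k] 0) * (b + (qm c)^[k] 0) +
      ((qm c)^[k + 1] 0 - (qm c)^[k] 0) - (b - (qm c)^[k] 0) := by
    rw [Function.iterate_succ_apply']
    simp only [qm]
    ring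
  rw [e]
  refine v.map_sub_le (v.map_add_le ?_ (orbit_step hc k)) i2
  rw [map_mul]
  calc v (b - (qm c)^[k] 0) * v (b + (qm c)^[k] 0) ≤ v c ^ (k + 1) * 1 :=
        mul_le_mul' i2 ((v.map_add_le i1 (orbit_small hc _)).trans hc.le)
    _ = _ := mul_one _

/-- nodes have values `< 1` -/
theorem node_lt_one {F Γ : Type*} [Field F] [LinearOrderedCommGroupWithZero Γ] {v : Valuation F Γ}
    {c b : F} (hc : v c < 1) (hb : v b < 1) : ∀ (k : ℕ) (r : F), (qm c)^[k] r = b → v r < 1 := by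
  intro k
  induction k with
  | zero =>
    intro r hr
    simp only [Function.iterate_zero, id_eq] at hr
    rw [hr]
    exact hb
  | succ k ih =>
    intro r hr
    rw [Function.iterate_succ_apply] at hr
    have h1 := ih _ hr
    have h2 : v r ^ 2 < 1 := by
      rw [← map_pow]
      have : r ^ 2 = qm c r - c := by simp [qm]
      rw [this]
      exact v.map_sub_lt h1 hc
    by_contra h3
    rw [not_lt] at h3
    exact absurd h2 (not_lt.2 (one_le_pow₀ h3))

/-- **Row R9, second part**: after finitely many steps the condition `TameOK` holds at all nodes. -/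
theorem tame_small {K : Type*} [Field K] [NumberField K] {Ω : Type*} [Field Ω] [Algebra K Ω]
    [Algebra.IsAlgebraic K Ω] {c b : K} {Q : HeightOneSpectrum (𝓞 K)}
    (q2 : Q.valuation K (2 : K) = 1) (qc : Q.valuation K c < 1) (qb : Q.valuation K b < 1)
    (hfix : qm c b ≠ b) :
    ∃ k : ℕ, ∀ r ∈ Lev Ω c b k, ∀ [NumberField K⟮r⟯],
      TameOK (algebraMap K K⟮r⟯ c) (AdjoinSimple.gen K r) := by
  obtain ⟨k, hk⟩ : ∃ k : ℕ, Q.valuation K c ^ (k + 1) < Q.valuation K (qm c b - b) := by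
    have h0 : Q.valuation K (qm c b - b) ≠ 0 :=
      (Valuation.ne_zero_iff _).2 (sub_ne_zero.2 hfix)
    by_cases hc0 : Q.valuation K c = 0
    · refine ⟨0, ?_⟩
      rw [hc0, zero_add, pow_one]
      exact zero_lt_iff.2 h0
    obtain ⟨m, hm⟩ : ∃ m : ℤ, Q.valuation K (qm c b - b) = WithZero.exp m :=
      ⟨_, (WithZero.exp_log h0).symm⟩
    obtain ⟨m', hm'⟩ : ∃ m' : ℤ, Q.valuation K c = WithZero.exp m' :=
      ⟨_, (WithZero.exp_log hc0).symm⟩
    have hm'0 : m' < 0 := by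
      rw [hm', ← WithZero.exp_zero, WithZero.exp_lt_exp] at qc
      exact qc
    refine ⟨m.natAbs, ?_⟩
    rw [hm, hm', ← WithZero.exp_nsmul, WithZero.exp_lt_exp]
    have h1 : -(m.natAbs : ℤ) ≤ m := by omega
    have h3 : (m.natAbs + 1 : ℕ) • m' ≤ (m.natAbs + 1 : ℕ) • (-1 : ℤ) :=
      nsmul_le_nsmul_right (by omega) _
    refine lt_of_le_of_lt h3 ?_
    simp only [nsmul_eq_mul, Nat.cast_add, Nat.cast_one]
    omega
  refine ⟨k, fun r hr hNF => ?_⟩
  obtain ⟨⟨P', hP1, hP2⟩⟩ := Q.asIdeal.nonempty_primesOver (S := 𝓞 K⟮r⟯)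
  have hP0 : P' ≠ ⊥ := Ideal.ne_bot_of_mem_primesOver Q.ne_bot ⟨hP1, hP2⟩
  let P : HeightOneSpectrum (𝓞 K⟮r⟯) := ⟨P', hP1, hP0⟩
  have hlo : P.asIdeal.LiesOver Q.asIdeal := hP2
  have hA : ∀ x : K, P.valuation K⟮r⟯ (algebraMap K K⟮r⟯ x) ≤ 1 ↔ Q.valuation K x ≤ 1 :=
    val_le_iff Q P
  set cF := algebraMap K K⟮r⟯ c with hcF
  set rF := AdjoinSimple.gen K r with hrF
  have hrF' : (qm cF)^[k] rF = algebraMap K K⟮r⟯ b := by
    apply (algebraMap K⟮r⟯ Ω).injective
    have e3 : algebraMap K⟮r⟯ Ω cF = algebraMap K Ω c :=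
      (IsScalarTower.algebraMap_apply K K⟮r⟯ Ω c).symm
    have e4 : algebraMap K⟮r⟯ Ω (algebraMap K K⟮r⟯ b) = algebraMap K Ω b :=
      (IsScalarTower.algebraMap_apply K K⟮r⟯ Ω b).symm
    rw [map_iter, e3, e4, hrF, AdjoinSimple.algebraMap_gen]
    exact hr
  have pc : P.valuation K⟮r⟯ cF < 1 := by
    have := (ext_lt_iff hA c 1).2 (by rw [map_one]; exact qc)
    simpa using this
  have pb : P.valuation K⟮r⟯ (algebraMap K K⟮r⟯ b) < 1 := by
    have := (ext_lt_iff hA b 1).2 (by rw [map_one]; exact qb)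
    simpa using this
  refine ⟨P, ?_, pc.le, ?_, (node_lt_one pc pb k rF hrF').ne⟩
  · have h1 := (ext_eq_iff hA (2 : K) 1).2 (by rw [q2, map_one])
    rw [map_ofNat, map_one, map_one] at h1
    exact h1
  · by_contra hle
    rw [not_lt] at hle
    have h1 := node_small pc hle k hrF'
    have h2 : qm cF (algebraMap K K⟮r⟯ b) - algebraMap K K⟮r⟯ b =
        algebraMap K K⟮r⟯ (qm c b - b) := by
      rw [map_sub, map_qm]
    rw [h2, hcF, ← map_pow, ← map_pow] at h1
    have h3 := (ext_le_iff hA _ _).1 h1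
    rw [map_pow] at h3
    exact absurd hk (not_lt.2 h3)

end Pool.Agent.ORB.VQ
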