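import Pool.Agent.ORB.VTree

/-!
ORB, Theorem V, row R10: descent of the extension property, and finitely many pairs together.
-/

namespace Pool.Agent.ORB.VQ

open IntermediateField

variable {K W : Type*} [Field K] [Field W] [Algebra K W]

/-- moving everything on a level passes to higher levels -/
theorem move_up {c : K} {s : W ≃ₐ[K] W} {x : W} {N M : ℕ} (hNM : N ≤ M)
    (h : ∀ z, (qm (algebraMap K W c))^[N] z = x → s z ≠ z) (z : W)
    (hz : (qm (algebraMap K W c))^[M] z = x) : s z ≠ z := by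
  obtain ⟨e, rfl⟩ := Nat.exists_eq_add_of_le hNM
  intro hs
  rw [Function.iterate_add_apply] at hz
  refine h _ hz ?_
  rw [aut_iter, hs]

/-- an automorphism which fixes `r`, over `K(r)` -/
noncomputable def liftAdj (s : W ≃ₐ[K] W) (r : W) (hr : s r = r) : W ≃ₐ[K⟮r⟯] W :=
  AlgEquiv.ofRingEquiv (f := s.toRingEquiv) fun x => by
    obtain ⟨x, hx⟩ := x
    show s x = x
    induction hx using adjoin_induction with
    | mem y hy =>
      rw [Set.mem_singleton_iff.1 hy, hr]
    | algebraMap y => exact s.commutes y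
    | add y z _ _ h1 h2 => rw [map_add, h1, h2]
    | inv y _ h1 => rw [map_inv₀, h1]
    | mul y z _ _ h1 h2 => rw [map_mul, h1, h2]

theorem liftAdj_apply (s : W ≃ₐ[K] W) (r : W) (hr : s r = r) (x : W) :
    liftAdj s r hr x = s x := rfl

theorem preimages_finite [IsAlgClosed W] (c : W) (e : ℕ) (x : W) :
    {z | (qm c)^[e] z = x}.Finite :=
  (pre c e x).finite_toSet.subset fun _ hx => mem_pre.2 hx

/-- one node: an automorphism can be changed above one node -/
theorem one_node {c : K} {r : W}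
    (h : ExtP W (algebraMap K K⟮r⟯ c) (AdjoinSimple.gen K r)) (T : Set W) (hT : T.Finite)
    (s₀ : W ≃ₐ[K] W) : ∃ (N : ℕ) (s : W ≃ₐ[K] W), (∀ t ∈ T, s t = s₀ t) ∧
      ∀ z, (qm (algebraMap K W c))^[N] z = r → s z ≠ z := by
  by_cases hr : s₀ r = r
  · obtain ⟨N, s, h1, h2⟩ := h T hT (liftAdj s₀ r hr)
    exact ⟨N, s.restrictScalars K, h1, h2⟩
  · refine ⟨0, s₀, fun _ _ => rfl, fun z hz => ?_⟩
    have : z = r := hz
    rw [this]
    exact hr

/-- **Descent.** -/
theorem descent [IsAlgClosed W] {c b : K} (k : ℕ)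
    (h : ∀ r ∈ Lev W c b k, ExtP W (algebraMap K K⟮r⟯ c) (AdjoinSimple.gen K r)) :
    ExtP W c b := by
  classical
  intro T hT s₀
  have key : ∀ A : Finset W, (∀ r ∈ A, r ∈ Lev W c b k) → ∃ (N : ℕ) (s : W ≃ₐ[K] W),
      (∀ t ∈ T, s t = s₀ t) ∧ ∀ r ∈ A, ∀ z, (qm (algebraMap K W c))^[N] z = r → s z ≠ z := by
    intro A
    induction A using Finset.induction_on with
    | empty => exact fun _ => ⟨0, s₀, fun _ _ => rfl, fun r hr => absurd hr (by simp)⟩
    | insert r A _ ih =>
      intro hA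
      obtain ⟨N, s, h1, h2⟩ := ih fun x hx => hA x (Finset.mem_insert_of_mem hx)
      obtain ⟨N', s', h3, h4⟩ := one_node (h r (hA r (Finset.mem_insert_self r A)))
        (T ∪ ⋃ x ∈ A, {z | (qm (algebraMap K W c))^[N] z = x})
        (hT.union (A.finite_toSet.biUnion fun x _ => preimages_finite _ N x)) s
      refine ⟨max N N', s', fun t ht => ?_, fun x hx => ?_⟩
      · rw [h3 t (Or.inl ht), h1 t ht]
      rcases Finset.mem_insert.1 hx with rfl | hx
      · exact move_up (le_max_right N N') h4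
      · refine move_up (le_max_left N N') fun z hz => ?_
        rw [h3 z (Or.inr (Set.mem_biUnion hx hz))]
        exact h2 x hx z hz
  obtain ⟨N, s, h1, h2⟩ := key (pre (algebraMap K W c) k (algebraMap K W b)) fun r hr =>
    mem_pre.1 hr
  refine ⟨k + N, s, h1, fun z hz => h2 _ (mem_pre.2 (Lev_iter.1 hz)) z rfl⟩

/-- **Finitely many pairs together.** -/
theorem ExtP_family [IsAlgClosed W] {ι : Type*} [Finite ι] (c b : ι → K)
    (h : ∀ i, ExtP W (c i) (b i)) (T : Set W) (hT : T.Finite) (s₀ : W ≃ₐ[K] W) :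
    ∃ (N : ℕ) (s : W ≃ₐ[K] W), (∀ t ∈ T, s t = s₀ t) ∧
      ∀ i, ∀ z ∈ Lev W (c i) (b i) N, s z ≠ z := by
  classical
  have : Fintype ι := Fintype.ofFinite ι
  have key : ∀ A : Finset ι, ∃ (N : ℕ) (s : W ≃ₐ[K] W), (∀ t ∈ T, s t = s₀ t) ∧
      ∀ i ∈ A, ∀ z ∈ Lev W (c i) (b i) N, s z ≠ z := by
    intro A
    induction A using Finset.induction_on with
    | empty => exact ⟨0, s₀, fun _ _ => rfl, fun i hi => absurd hi (by simp)⟩
    | insert i A _ ih =>
      obtain ⟨N, s, h1, h2⟩ := ih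
      obtain ⟨N', s', h3, h4⟩ := h i (T ∪ ⋃ j ∈ A, Lev W (c j) (b j) N)
        (hT.union (A.finite_toSet.biUnion fun j _ => levFin _ _ N)) s
      refine ⟨max N N', s', fun t ht => ?_, fun j hj => ?_⟩
      · rw [h3 t (Or.inl ht), h1 t ht]
      rcases Finset.mem_insert.1 hj with rfl | hj
      · exact move_up (le_max_right N N') h4
      · refine move_up (le_max_left N N') fun z hz => ?_
        rw [h3 z (Or.inr (Set.mem_biUnion hj hz))]
        exact h2 j hj z hz
  obtain ⟨N, s, h1, h2⟩ := key Finset.univ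
  exact ⟨N, s, h1, fun i => h2 i (Finset.mem_univ i)⟩

end Pool.Agent.ORB.VQ
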