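import Mathlib

/-!
# Theorem V, row R4 (algebraic part): the polynomial identity behind long runs of equal classes
-/

set_option autoImplicit false

open Polynomial

namespace Pool.Agent.ORB.VWin

variable {K : Type*} [Field K]

/-- Chebyshev-like polynomials of `X + sqrt (X^2 - d)` -/
noncomputable def PP (d : K) : ℕ → K[X]
  | 0 => X
  | j + 1 => 2 * PP d j ^ 2 - C (d ^ 2 ^ j)

/-- the cofactor of the square root -/
noncomputable def QQ (d : K) : ℕ → K[X]
  | 0 => 1
  | j + 1 => 2 * PP d j * QQ d j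

/-- iterates of `X^2 + c` -/
noncomputable def FF (c : K) : ℕ → K[X]
  | 0 => X
  | j + 1 => FF c j ^ 2 + C c

theorem PP_QQ (d : K) (j : ℕ) : PP d j ^ 2 - (X ^ 2 - C d) * QQ d j ^ 2 = C (d ^ 2 ^ j) := by
  induction j with
  | zero => simp [PP, QQ]
  | succ j ih =>
    have h1 : (C (d ^ 2 ^ (j + 1)) : K[X]) = C (d ^ 2 ^ j) ^ 2 := by
      rw [← C_pow, ← pow_mul, ← pow_succ]
    rw [h1]
    simp only [PP, QQ]
    linear_combination (4 * PP d j ^ 2 - C (d ^ 2 ^ j) + C (d ^ 2 ^ j)) * ih

theorem FF_eval (c : K) (x : ℕ → K) (hx : ∀ n, x (n + 1) = x n ^ 2 + c) (n k : ℕ) :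
    (FF c k).eval (x n) = x (n + k) := by
  induction k with
  | zero => simp [FF]
  | succ k ih =>
    simp only [FF, eval_add, eval_pow, eval_C, ih]
    rw [← add_assoc, hx]

/-- the coefficient `2 ^ (2 ^ j - 1)` -/
noncomputable def lam (K : Type*) [Field K] (j : ℕ) : K := 2 ^ (2 ^ j - 1)

theorem lam_succ (j : ℕ) : lam K (j + 1) = 2 * lam K j ^ 2 := by
  unfold lam
  rw [← pow_mul, ← pow_succ']
  congr 1
  have h1 : 1 ≤ 2 ^ j := Nat.one_le_two_pow
  have h2 : 2 ^ (j + 1) = 2 * 2 ^ j := pow_succ' 2 j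
  omega

theorem FF_monic (c : K) (j : ℕ) : (FF c j).Monic ∧ (FF c j).natDegree = 2 ^ j := by
  induction j with
  | zero => simp [FF, monic_X]
  | succ j ih =>
    have h1 : (FF c j ^ 2).Monic := ih.1.pow 2
    have h2 : (FF c j ^ 2).natDegree = 2 ^ (j + 1) := by
      rw [natDegree_pow, ih.2, pow_succ']
    have h3 : (C c : K[X]).degree < (FF c j ^ 2).degree := by
      refine lt_of_le_of_lt degree_C_le ?_
      rw [degree_eq_natDegree h1.ne_zero, h2]
      exact_mod_cast Nat.two_pow_pos (j + 1)
    simp only [FF]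
    exact ⟨h1.add_of_left h3, by rw [natDegree_add_eq_left_of_degree_lt h3, h2]⟩

theorem PP_lead [CharZero K] (d : K) (j : ℕ) :
    (PP d j).natDegree = 2 ^ j ∧ (PP d j).leadingCoeff = lam K j := by
  induction j with
  | zero => simp [PP, lam]
  | succ j ih =>
    have hne : PP d j ≠ 0 := by
      intro h
      rw [h, natDegree_zero] at ih
      exact (Nat.two_pow_pos j).ne ih.1
    have h0 : (2 : K[X]) = C 2 := (map_ofNat C 2).symm
    have h1 : (2 * PP d j ^ 2).natDegree = 2 ^ (j + 1) := by
      rw [h0, natDegree_C_mul (two_ne_zero), natDegree_pow, ih.1, pow_succ']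
    have h2 : (2 * PP d j ^ 2).leadingCoeff = lam K (j + 1) := by
      rw [h0, leadingCoeff_mul, leadingCoeff_C, leadingCoeff_pow, ih.2, lam_succ]
    have h3 : (C (d ^ 2 ^ j) : K[X]).degree < (2 * PP d j ^ 2).degree := by
      refine lt_of_le_of_lt degree_C_le ?_
      rw [degree_eq_natDegree, h1]
      · exact_mod_cast Nat.two_pow_pos (j + 1)
      · intro h
        rw [h, natDegree_zero] at h1
        exact (Nat.two_pow_pos (j + 1)).ne h1
    simp only [PP]
    refine ⟨?_, ?_⟩
    · rw [natDegree_sub_eq_left_of_natDegree_lt, h1]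
      rw [natDegree_C, h1]
      exact Nat.two_pow_pos (j + 1)
    · rw [leadingCoeff_sub_of_degree_lt h3, h2]

/-- one step down -/
theorem step_down [CharZero K] (c d : K) (j : ℕ) (h : PP d (j + 1) = C (lam K (j + 1)) * FF c (j + 1)) :
    PP d j = C (lam K j) * FF c j ∧ 2 * lam K j ^ 2 * c + d ^ 2 ^ j = 0 := by
  have hl : lam K j ≠ 0 := pow_ne_zero _ two_ne_zero
  have h1 : 2 * ((PP d j - C (lam K j) * FF c j) * (PP d j + C (lam K j) * FF c j))
      = C (2 * lam K j ^ 2 * c + d ^ 2 ^ j) := by
    have h2 := h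
    simp only [PP, FF] at h2
    rw [lam_succ] at h2
    have h3 : (C (2 * lam K j ^ 2) : K[X]) = 2 * C (lam K j) ^ 2 := by
      rw [map_mul, C_pow, map_ofNat]
    rw [h3] at h2
    have h4 : (C (2 * lam K j ^ 2 * c + d ^ 2 ^ j) : K[X])
        = 2 * C (lam K j) ^ 2 * C c + C (d ^ 2 ^ j) := by
      rw [map_add, map_mul, h3]
    rw [h4]
    linear_combination h2
  -- the second factor is not constant
  have h5 : (PP d j + C (lam K j) * FF c j).natDegree = 2 ^ j := by
    have h6 : (PP d j + C (lam K j) * FF c j).coeff (2 ^ j) = 2 * lam K j := by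
      rw [coeff_add, coeff_C_mul]
      have h7 : (PP d j).coeff (2 ^ j) = lam K j := by
        have := (PP_lead d j)
        rw [← this.2, leadingCoeff, this.1]
      have h8 : (FF c j).coeff (2 ^ j) = 1 := by
        have := (FF_monic c j)
        rw [← this.2]
        exact this.1
      rw [h7, h8]; ring
    apply le_antisymm
    · refine (natDegree_add_le _ _).trans (max_le (PP_lead d j).1.le ?_)
      exact (natDegree_C_mul_le _ _).trans (FF_monic c j).2.le
    · apply le_natDegree_of_ne_zero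
      rw [h6]
      exact mul_ne_zero two_ne_zero hl
  have hne : PP d j + C (lam K j) * FF c j ≠ 0 := by
    intro h
    rw [h, natDegree_zero] at h5
    exact (Nat.two_pow_pos j).ne h5
  have h9 : PP d j - C (lam K j) * FF c j = 0 := by
    by_contra hne2
    have h10 := congrArg natDegree h1
    have h0 : (2 : K[X]) = C 2 := (map_ofNat C 2).symm
    rw [natDegree_C, h0, natDegree_C_mul two_ne_zero, natDegree_mul hne2 hne, h5] at h10
    have := Nat.two_pow_pos j
    omega
  refine ⟨sub_eq_zero.1 h9, ?_⟩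
  rw [h9, zero_mul, mul_zero] at h1
  exact C_eq_zero.1 h1.symm

/-- the polynomial identity forces `c = 0` or `c = -2` -/
theorem identity [CharZero K] (c d τ : K) (hd : d ≠ 0) (k : ℕ) (hk : 1 ≤ k)
    (hE : (2 * FF c k * PP d k - C τ) ^ 2
      = 4 * (FF c k ^ 2 - C d) * (PP d k ^ 2 - C (d ^ 2 ^ k))) :
    c = 0 ∨ c = -2 := by
  obtain ⟨hF1, hF2⟩ := FF_monic c k
  obtain ⟨hP1, hP2⟩ := PP_lead d k
  have hNpos := Nat.two_pow_pos k
  set κ : K := τ ^ 2 - 4 * d ^ (2 ^ k + 1) with hκ
  have hA : (2 * C d * PP d k - C τ * FF c k) ^ 2 = C κ * (FF c k ^ 2 - C d) := by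
    have h1 : (C κ : K[X]) = C τ ^ 2 - 4 * (C (d ^ 2 ^ k) * C d) := by
      rw [hκ, map_sub, C_pow, map_mul, map_ofNat, pow_succ d, map_mul]
    rw [h1]
    linear_combination (C d) * hE
  have hκ0 : κ = 0 := by
    by_contra hne
    -- split over the algebraic closure
    let L := AlgebraicClosure K
    obtain ⟨r, hr⟩ : ∃ r : L, r ^ 2 = algebraMap K L κ := IsAlgClosed.exists_pow_nat_eq _ two_pos
    have hr0 : r ≠ 0 := by
      rintro rfl
      rw [zero_pow two_ne_zero] at hr
      exact hne ((map_eq_zero (algebraMap K L)).1 hr.symm)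
    set A : L[X] := (2 * C d * PP d k - C τ * FF c k).map (algebraMap K L) with hAd
    set F : L[X] := (FF c k).map (algebraMap K L) with hFd
    have h1 : A ^ 2 = C r ^ 2 * (F ^ 2 - C (algebraMap K L d)) := by
      have h2 := congrArg (Polynomial.map (algebraMap K L)) hA
      rw [Polynomial.map_pow, Polynomial.map_mul (p := C κ), Polynomial.map_sub (p := FF c k ^ 2),
        Polynomial.map_pow, map_C, map_C] at h2
      rw [hAd, hFd, h2, ← C_pow, hr]
    have h3 : (A - C r * F) * (A + C r * F) = C (-(r ^ 2 * algebraMap K L d)) := by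
      have h4 : (C (-(r ^ 2 * algebraMap K L d)) : L[X]) = -(C r ^ 2 * C (algebraMap K L d)) := by
        rw [C_neg, C_mul, C_pow]
      rw [h4]
      linear_combination h1
    have hc0 : -(r ^ 2 * algebraMap K L d) ≠ 0 := by
      rw [neg_ne_zero]
      exact mul_ne_zero (pow_ne_zero 2 hr0) ((_root_.map_ne_zero _).2 hd)
    have h5 : A - C r * F ≠ 0 := by
      intro h
      rw [h, zero_mul] at h3
      exact hc0 (C_eq_zero.1 h3.symm)
    have h6 : A + C r * F ≠ 0 := by
      intro h
      rw [h, mul_zero] at h3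
      exact hc0 (C_eq_zero.1 h3.symm)
    have h7 := congrArg natDegree h3
    rw [natDegree_mul h5 h6, natDegree_C] at h7
    have h8 : (C (2 * r) * F).natDegree ≤ 0 := by
      have h9 : C (2 * r) * F = (A + C r * F) - (A - C r * F) := by
        rw [C_mul]
        have : (C 2 : L[X]) = 2 := map_ofNat C 2
        rw [this]
        ring
      rw [h9]
      refine (natDegree_sub_le _ _).trans (max_le ?_ ?_) <;> omega
    have h10 : (2 : L) * r ≠ 0 := by
      have : (2 : L) ≠ 0 := two_ne_zero
      exact mul_ne_zero this hr0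
    rw [natDegree_C_mul h10, hFd, natDegree_map, hF2] at h8
    omega
  rw [hκ0, C_0, zero_mul] at hA
  have hA0 : 2 * C d * PP d k = C τ * FF c k := by
    have := pow_eq_zero_iff (two_ne_zero) |>.1 hA
    exact sub_eq_zero.1 this
  -- leading coefficients
  have hlead : 2 * d * lam K k = τ := by
    have h1 := congrArg (fun q : K[X] => q.coeff (2 ^ k)) hA0
    have h0 : (2 : K[X]) = C 2 := (map_ofNat C 2).symm
    rw [h0, ← C_mul, coeff_C_mul, coeff_C_mul] at h1
    have h7 : (PP d k).coeff (2 ^ k) = lam K k := by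
      rw [← hP2, leadingCoeff, hP1]
    have h8 : (FF c k).coeff (2 ^ k) = 1 := by
      rw [← hF2]
      exact hF1
    rw [h7, h8, mul_one] at h1
    exact h1
  have hPF : PP d k = C (lam K k) * FF c k := by
    have h1 : (C (2 * d) : K[X]) * PP d k = C (2 * d) * (C (lam K k) * FF c k) := by
      have h2 : (C (2 * d) : K[X]) = 2 * C d := by rw [C_mul, map_ofNat]
      rw [← mul_assoc, ← C_mul, hlead, h2]
      exact hA0
    have h3 : (C (2 * d) : K[X]) ≠ 0 := by
      rw [Ne, C_eq_zero]
      exact mul_ne_zero two_ne_zero hd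
    exact mul_left_cancel₀ h3 h1
  have hall : ∀ i j : ℕ, i + j = k → PP d j = C (lam K j) * FF c j := by
    intro i
    induction i with
    | zero =>
      intro j hj
      rw [zero_add] at hj
      subst hj
      exact hPF
    | succ i ih =>
      intro j hj
      exact (step_down c d j (ih (j + 1) (by omega))).1
  have r0 := (step_down c d 0 (hall (k - 1) (0 + 1) (by omega))).2
  simp only [lam, pow_zero, Nat.sub_self, one_pow, mul_one, pow_one] at r0
  -- `2 c + d = 0`
  have hd2 : d = -2 * c := by linear_combination r0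
  have hc0 : c ≠ 0 := by
    rintro rfl
    exact hd (by rw [hd2]; ring)
  right
  rcases Nat.lt_or_ge 1 k with hk2 | hk2
  · have r1 := (step_down c d 1 (hall (k - 2) (1 + 1) (by omega))).2
    simp only [lam, pow_one] at r1
    norm_num at r1
    rw [hd2] at r1
    have h1 : (4 : K) * c * (c + 2) = 0 := by linear_combination r1
    have h2 : (4 : K) * c ≠ 0 := mul_ne_zero (by norm_num) hc0
    have h3 := (mul_eq_zero.1 h1).resolve_left h2
    linear_combination h3
  · have hk1 : k = 1 := by omega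
    subst hk1
    rw [hκ, ← hlead] at hκ0
    simp only [lam, pow_one] at hκ0
    norm_num at hκ0
    rw [hd2] at hκ0
    have h1 : (32 : K) * c ^ 2 * (c + 2) = 0 := by linear_combination hκ0
    have h2 : (32 : K) * c ^ 2 ≠ 0 := mul_ne_zero (by norm_num) (pow_ne_zero 2 hc0)
    have h3 := (mul_eq_zero.1 h1).resolve_left h2
    linear_combination h3

theorem QQ_lead [CharZero K] (d : K) (j : ℕ) :
    (X * QQ d j).natDegree ≤ 2 ^ j ∧ (X * QQ d j).coeff (2 ^ j) = lam K j := by
  induction j with
  | zero => simp [QQ, lam]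
  | succ j ih =>
    have hP := PP_lead d j
    have h0 : (2 : K[X]) = C 2 := (map_ofNat C 2).symm
    have h1 : X * QQ d (j + 1) = C 2 * (PP d j * (X * QQ d j)) := by
      simp only [QQ]
      rw [h0]
      ring
    have h2 : (2 : ℕ) ^ (j + 1) = 2 ^ j + 2 ^ j := by rw [pow_succ]; ring
    rw [h1, h2]
    refine ⟨?_, ?_⟩
    · refine (natDegree_C_mul_le _ _).trans ((natDegree_mul_le).trans ?_)
      exact Nat.add_le_add hP.1.le ih.1
    · rw [coeff_C_mul, coeff_mul_add_eq_of_natDegree_le hP.1.le ih.1, ih.2, lam_succ]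
      have h3 : (PP d j).coeff (2 ^ j) = lam K j := by
        rw [← hP.2, leadingCoeff, hP.1]
      rw [h3]
      ring

end Pool.Agent.ORB.VWin
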