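import Mathlib
import Pool.Agent.ORB.VWinA

/-!
# Theorem V, row R4 (analytic part): bounds at one absolute value
-/

set_option autoImplicit false

open Polynomial Filter

namespace Pool.Agent.ORB.VWin

variable {K : Type*} [Field K]

/-- a polynomial is bounded on bounded sets -/
theorem eval_bounded (A : AbsoluteValue K ℝ) (q : K[X]) (B : ℝ) :
    ∃ C : ℝ, ∀ y : K, A y ≤ B → A (q.eval y) ≤ C := by
  refine ⟨∑ i ∈ Finset.range (q.natDegree + 1), A (q.coeff i) * |B| ^ i, fun y hy => ?_⟩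
  rw [eval_eq_sum_range]
  refine (A.sum_le _ _).trans (Finset.sum_le_sum fun i _ => ?_)
  rw [map_mul, map_pow]
  exact mul_le_mul_of_nonneg_left
    (pow_le_pow_left₀ (A.nonneg _) (hy.trans (le_abs_self B)) i) (A.nonneg _)

/-- behaviour of a polynomial of degree at most `N` at infinity -/
theorem eval_asymp (A : AbsoluteValue K ℝ) (q : K[X]) (N : ℕ) (hq : q.natDegree ≤ N) {ε : ℝ}
    (hε : 0 < ε) : ∃ M : ℝ, 1 ≤ M ∧ ∀ y : K, M ≤ A y →
      ∃ e : K, A e ≤ ε ∧ q.eval y = y ^ N * (q.coeff N + e) := by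
  set S : ℝ := ∑ i ∈ Finset.range N, A (q.coeff i) with hS
  have hS0 : 0 ≤ S := Finset.sum_nonneg fun i _ => A.nonneg _
  refine ⟨max 1 (S / ε), le_max_left _ _, fun y hy => ?_⟩
  have hy1 : 1 ≤ A y := (le_max_left _ _).trans hy
  have hy2 : S / ε ≤ A y := (le_max_right _ _).trans hy
  have hy0 : y ≠ 0 := by
    rintro rfl
    rw [map_zero] at hy1
    linarith
  refine ⟨q.eval y / y ^ N - q.coeff N, ?_, ?_⟩
  · have h1 : q.eval y / y ^ N - q.coeff N = ∑ i ∈ Finset.range N, q.coeff i * (y ^ i / y ^ N) := by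
      rw [eval_eq_sum_range' (Nat.lt_succ_of_le hq), Finset.sum_range_succ, add_div,
        Finset.sum_div, mul_div_assoc, div_self (pow_ne_zero N hy0), mul_one, add_sub_cancel_right]
      refine Finset.sum_congr rfl fun i _ => ?_
      rw [mul_div_assoc]
    rw [h1]
    have h2 : A (∑ i ∈ Finset.range N, q.coeff i * (y ^ i / y ^ N)) ≤ S * (A y)⁻¹ := by
      refine (A.sum_le _ _).trans ?_
      rw [hS, Finset.sum_mul]
      refine Finset.sum_le_sum fun i hi => ?_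
      rw [map_mul]
      refine mul_le_mul_of_nonneg_left ?_ (A.nonneg _)
      rw [Finset.mem_range] at hi
      obtain ⟨j, rfl⟩ : ∃ j, N = i + (j + 1) := ⟨N - i - 1, by omega⟩
      have h3 : y ^ i / y ^ (i + (j + 1)) = (y ^ (j + 1))⁻¹ := by
        rw [pow_add]
        field_simp
      rw [h3, map_inv₀, map_pow]
      refine inv_anti₀ (by linarith) ?_
      calc A y = A y ^ 1 := (pow_one _).symm
        _ ≤ A y ^ (j + 1) := pow_le_pow_right₀ hy1 (by omega)
    refine h2.trans ?_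
    rw [div_le_iff₀ hε] at hy2
    rw [← div_eq_mul_inv, div_le_iff₀ (by linarith)]
    linarith
  · field_simp
    ring

/-- an orbit of `X^2 + c` is bounded or escapes -/
theorem dichotomy (A : AbsoluteValue K ℝ) (c : K) (x : ℕ → K) (hx : ∀ n, x (n + 1) = x n ^ 2 + c) :
    (∃ B : ℝ, ∀ n, A (x n) ≤ B) ∨ Tendsto (fun n => A (x n)) atTop atTop := by
  by_cases h : ∃ n, 2 + A c < A (x n)
  · right
    obtain ⟨n0, hn0⟩ := h
    have hc := A.nonneg c
    have step : ∀ n, 2 + A c < A (x n) → 2 * A (x n) ≤ A (x (n + 1)) := by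
      intro n hn
      have h1 : A (x n) ^ 2 ≤ A (x (n + 1)) + A c := by
        have h2 : x n ^ 2 = x (n + 1) - c := by rw [hx]; ring
        rw [← map_pow, h2]
        exact A.sub_le_add _ _
      nlinarith
    have hall : ∀ j : ℕ, 2 + A c < A (x (n0 + j)) ∧ 2 ^ j ≤ A (x (n0 + j)) := by
      intro j
      induction j with
      | zero => exact ⟨hn0, by rw [pow_zero, add_zero]; linarith⟩
      | succ j ih =>
        have h1 := step _ ih.1
        rw [← add_assoc]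
        refine ⟨by linarith [ih.1], ?_⟩
        rw [pow_succ]
        linarith [ih.2]
    have h2 : Tendsto (fun j : ℕ => A (x (n0 + j))) atTop atTop :=
      tendsto_atTop_mono (fun j => (hall j).2) (tendsto_pow_atTop_atTop_of_one_lt one_lt_two)
    have h3 : Tendsto (fun n : ℕ => A (x (n + n0))) atTop atTop := by
      simpa [add_comm] using h2
    exact (tendsto_add_atTop_iff_nat n0).1 h3
  · left
    push Not at h
    exact ⟨2 + A c, h⟩

/-- the element `τ` -/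
noncomputable def tau (d : K) (x : ℕ → K) (k n : ℕ) (ω : K) : K :=
  2 * (x (n + k) * (PP d k).eval (x n) - ω * (QQ d k).eval (x n))

/-- the conjugate of `τ` -/
noncomputable def tau' (d : K) (x : ℕ → K) (k n : ℕ) (ω : K) : K :=
  2 * (x (n + k) * (PP d k).eval (x n) + ω * (QQ d k).eval (x n))

theorem PP_QQ_eval (d y : K) (k : ℕ) :
    (PP d k).eval y ^ 2 - (y ^ 2 - d) * (QQ d k).eval y ^ 2 = d ^ 2 ^ k := by
  have h := congrArg (fun q : K[X] => q.eval y) (PP_QQ d k)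
  simpa using h

theorem tau_mul (d : K) (x : ℕ → K) (k n : ℕ) (ω : K)
    (hω : ω ^ 2 = (x n ^ 2 - d) * (x (n + k) ^ 2 - d)) :
    tau d x k n ω * tau' d x k n ω
      = 4 * (d ^ 2 ^ k * x (n + k) ^ 2 + d * (PP d k).eval (x n) ^ 2 - d * d ^ 2 ^ k) := by
  have h1 := PP_QQ_eval d (x n) k
  unfold tau tau'
  linear_combination (-4 * (QQ d k).eval (x n) ^ 2) * hω + (4 * (x (n + k) ^ 2 - d)) * h1

theorem tau_eq (d : K) (x : ℕ → K) (k n : ℕ) (ω : K)
    (hω : ω ^ 2 = (x n ^ 2 - d) * (x (n + k) ^ 2 - d)) :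
    (2 * x (n + k) * (PP d k).eval (x n) - tau d x k n ω) ^ 2
      = 4 * (x (n + k) ^ 2 - d) * ((PP d k).eval (x n) ^ 2 - d ^ 2 ^ k) := by
  have h1 := PP_QQ_eval d (x n) k
  unfold tau
  linear_combination (4 * (QQ d k).eval (x n) ^ 2) * hω - (4 * (x (n + k) ^ 2 - d)) * h1

/-- bounded orbits -/
theorem tau_bounded (A : AbsoluteValue K ℝ) (d : K) (x : ℕ → K) {B : ℝ} (hB : ∀ n, A (x n) ≤ B)
    (k : ℕ) : ∃ C : ℝ, ∀ (n : ℕ) (ω : K), ω ^ 2 = (x n ^ 2 - d) * (x (n + k) ^ 2 - d) →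
      A (tau d x k n ω) ≤ C := by
  obtain ⟨C1, h1⟩ := eval_bounded A (PP d k) B
  obtain ⟨C2, h2⟩ := eval_bounded A (QQ d k) B
  have hB0 : 0 ≤ B := (A.nonneg _).trans (hB 0)
  have hC1 : 0 ≤ C1 := (A.nonneg _).trans (h1 (x 0) (hB 0))
  have hC2 : 0 ≤ C2 := (A.nonneg _).trans (h2 (x 0) (hB 0))
  set W : ℝ := B ^ 2 + A d with hW
  have hW0 : 0 ≤ W := by have := A.nonneg d; positivity
  refine ⟨A 2 * (B * C1 + W * C2), fun n ω hω => ?_⟩
  have hy : ∀ m, A (x m ^ 2 - d) ≤ W := by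
    intro m
    refine (A.sub_le_add _ _).trans ?_
    rw [map_pow]
    have := pow_le_pow_left₀ (A.nonneg _) (hB m) 2
    linarith
  have hωW : A ω ≤ W := by
    have h3 : A ω ^ 2 ≤ W ^ 2 := by
      rw [← map_pow, hω, map_mul, pow_two W]
      exact mul_le_mul (hy _) (hy _) (A.nonneg _) hW0
    exact le_of_sq_le_sq₀ h3 hW0
  unfold tau
  rw [map_mul]
  refine mul_le_mul_of_nonneg_left ?_ (A.nonneg _)
  refine (A.sub_le_add _ _).trans ?_
  rw [map_mul, map_mul]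
  exact add_le_add (mul_le_mul (hB _) (h1 _ (hB _)) (A.nonneg _) hB0)
    (mul_le_mul hωW (h2 _ (hB _)) (A.nonneg _) hW0)
where
  le_of_sq_le_sq₀ {a b : ℝ} (h : a ^ 2 ≤ b ^ 2) (hb : 0 ≤ b) : a ≤ b :=
    le_trans (le_abs_self a) (abs_le_of_sq_le_sq h hb)

/-- escaping orbits: if `ω` is close to `x_n x_m` then `τ` is bounded -/
theorem tau_escape [CharZero K] (A : AbsoluteValue K ℝ) (c d : K) (x : ℕ → K)
    (hx : ∀ n, x (n + 1) = x n ^ 2 + c) (k : ℕ) :
    ∃ C ε M : ℝ, 0 < ε ∧ ∀ (n : ℕ) (ω e : K), M ≤ A (x n) →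
      ω ^ 2 = (x n ^ 2 - d) * (x (n + k) ^ 2 - d) → ω = x n * x (n + k) * (1 + e) → A e ≤ ε →
      A (tau d x k n ω) ≤ C := by
  set l : K := lam K k with hl
  have hl0 : l ≠ 0 := pow_ne_zero _ two_ne_zero
  have h2l : 0 < A (2 * l) := A.pos (mul_ne_zero two_ne_zero hl0)
  have hAl : 0 < A l := A.pos hl0
  have hA2 : 0 < A 2 := A.pos two_ne_zero
  set ε : ℝ := min (1 / 2) (min (A (2 * l) / 8) (A (2 * l) / (8 * (A l + 1)))) with hε
  have hε0 : 0 < ε := by
    refine lt_min (by norm_num) (lt_min (by positivity) (by positivity))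
  have hε1 : ε ≤ 1 / 2 := min_le_left _ _
  have hε2 : ε ≤ A (2 * l) / 8 := (min_le_right _ _).trans (min_le_left _ _)
  have hε3 : ε ≤ A (2 * l) / (8 * (A l + 1)) := (min_le_right _ _).trans (min_le_right _ _)
  obtain ⟨M1, hM1, h1⟩ := eval_asymp A (PP d k) (2 ^ k) (PP_lead d k).1.le hε0
  obtain ⟨M2, hM2, h2⟩ := eval_asymp A (X * QQ d k) (2 ^ k) (QQ_lead d k).1 hε0
  obtain ⟨M3, hM3, h3⟩ := eval_asymp A (FF c k) (2 ^ k) (FF_monic c k).2.le hε0
  have cP : (PP d k).coeff (2 ^ k) = l := by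
    have := PP_lead d k
    rw [hl, ← this.2, leadingCoeff, this.1]
  have cQ : (X * QQ d k).coeff (2 ^ k) = l := (QQ_lead d k).2
  have cF : (FF c k).coeff (2 ^ k) = 1 := by
    have := FF_monic c k
    rw [← this.2]
    exact this.1
  set N := 2 ^ k with hN
  -- the constants
  set c0 : ℝ := A 2 * (A (2 * l) / 4) with hc0
  have hc0p : 0 < c0 := by positivity
  set C0 : ℝ := A 4 * (A (d ^ N) * (3 / 2) ^ 2 + A d * (A l + 1) ^ 2 + A d * A (d ^ N)) with hC0
  refine ⟨C0 / c0, ε, max M1 (max M2 M3), hε0, fun n ω e hxn hω hωe he => ?_⟩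
  have hx1 : M1 ≤ A (x n) := (le_max_left _ _).trans hxn
  have hx2 : M2 ≤ A (x n) := ((le_max_left _ _).trans (le_max_right _ _)).trans hxn
  have hx3 : M3 ≤ A (x n) := ((le_max_right _ _).trans (le_max_right _ _)).trans hxn
  have hX1 : 1 ≤ A (x n) := hM1.trans hx1
  obtain ⟨e1, he1, hp⟩ := h1 (x n) hx1
  obtain ⟨e2, he2, hq⟩ := h2 (x n) hx2
  obtain ⟨e3, he3, hf⟩ := h3 (x n) hx3
  rw [cP] at hp
  rw [cQ, eval_mul, eval_X] at hq
  rw [cF, FF_eval c x hx] at hf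
  set Z : ℝ := A (x n) ^ N with hZ
  have hZ1 : 1 ≤ Z := one_le_pow₀ hX1
  -- lower bound of `τ'`
  have htau' : tau' d x k n ω = 2 * x (n + k) * x n ^ N * (2 * l + (e1 + e2 + e * (l + e2))) := by
    unfold tau'
    rw [hωe]
    have h4 : x n * x (n + k) * (1 + e) * (QQ d k).eval (x n)
        = x (n + k) * (1 + e) * (x n * (QQ d k).eval (x n)) := by ring
    rw [h4, hp, hq]
    ring
  have hE : A (e1 + e2 + e * (l + e2)) ≤ A (2 * l) / 2 := by
    have h5 : A (e1 + e2 + e * (l + e2)) ≤ ε + ε + ε * (A l + 1) := by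
      refine (A.add_le _ _).trans (add_le_add ((A.add_le _ _).trans (add_le_add he1 he2)) ?_)
      rw [map_mul]
      refine mul_le_mul he ((A.add_le _ _).trans ?_) (A.nonneg _) hε0.le
      linarith
    have h6 : ε * (A l + 1) ≤ A (2 * l) / 8 := by
      have h7 : 0 < A l + 1 := by linarith
      rw [le_div_iff₀ (by positivity)] at hε3
      linarith
    linarith
  have hlow : A (2 * l) / 2 ≤ A (2 * l + (e1 + e2 + e * (l + e2))) := by
    have h5 : A (2 * l) ≤ A (2 * l + (e1 + e2 + e * (l + e2))) + A (e1 + e2 + e * (l + e2)) := by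
      have h6 : (2 * l : K) = (2 * l + (e1 + e2 + e * (l + e2))) - (e1 + e2 + e * (l + e2)) := by
        ring
      conv_lhs => rw [h6]
      exact A.sub_le_add _ _
    linarith
  have hxm : Z * (1 / 2) ≤ A (x (n + k)) ∧ A (x (n + k)) ≤ Z * (3 / 2) := by
    rw [hf, map_mul, map_pow]
    have h5 : A (1 + e3) ≤ 3 / 2 := by
      refine (A.add_le _ _).trans ?_
      rw [map_one]
      linarith
    have h6 : 1 / 2 ≤ A (1 + e3) := by
      have h7 : (1 : ℝ) ≤ A (1 + e3) + A e3 := by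
        have h8 : (1 : K) = (1 + e3) - e3 := by ring
        calc (1 : ℝ) = A 1 := (map_one A).symm
          _ = A ((1 + e3) - e3) := by rw [← h8]
          _ ≤ _ := A.sub_le_add _ _
      linarith
    exact ⟨mul_le_mul_of_nonneg_left h6 (by positivity),
      mul_le_mul_of_nonneg_left h5 (by positivity)⟩
  have hlow' : c0 * Z ^ 2 ≤ A (tau' d x k n ω) := by
    rw [htau', map_mul, map_mul, map_mul, map_pow]
    calc c0 * Z ^ 2 = A 2 * (Z * (1 / 2)) * Z * (A (2 * l) / 2) := by rw [hc0]; ring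
      _ ≤ A 2 * A (x (n + k)) * A (x n) ^ N * A (2 * l + (e1 + e2 + e * (l + e2))) := by
        refine mul_le_mul (mul_le_mul (mul_le_mul_of_nonneg_left hxm.1 hA2.le) le_rfl
          (by positivity) (mul_nonneg hA2.le (A.nonneg _))) hlow (by positivity) ?_
        exact mul_nonneg (mul_nonneg hA2.le (A.nonneg _)) (by positivity)
  -- upper bound of the product
  have hmul : A (tau d x k n ω) * A (tau' d x k n ω) ≤ C0 * Z ^ 2 := by
    rw [← map_mul, tau_mul d x k n ω hω, map_mul]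
    have h5 : A (d ^ N * x (n + k) ^ 2 + d * (PP d k).eval (x n) ^ 2 - d * d ^ N)
        ≤ A (d ^ N) * (Z * (3 / 2)) ^ 2 + A d * (Z * (A l + 1)) ^ 2 + A d * A (d ^ N) := by
      refine (A.sub_le_add _ _).trans (add_le_add ((A.add_le _ _).trans (add_le_add ?_ ?_)) ?_)
      · rw [map_mul, map_pow A (x (n + k))]
        exact mul_le_mul_of_nonneg_left (pow_le_pow_left₀ (A.nonneg _) hxm.2 2) (A.nonneg _)
      · rw [map_mul, map_pow A ((PP d k).eval (x n))]
        refine mul_le_mul_of_nonneg_left (pow_le_pow_left₀ (A.nonneg _) ?_ 2) (A.nonneg _)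
        rw [hp, map_mul, map_pow]
        refine mul_le_mul_of_nonneg_left ((A.add_le _ _).trans ?_) (by positivity)
        linarith
      · rw [map_mul]
    have h6 : A d * A (d ^ N) ≤ A d * A (d ^ N) * Z ^ 2 := by
      have h7 : (1 : ℝ) ≤ Z ^ 2 := one_le_pow₀ hZ1
      have h8 : 0 ≤ A d * A (d ^ N) := mul_nonneg (A.nonneg _) (A.nonneg _)
      nlinarith
    calc A 4 * A (d ^ N * x (n + k) ^ 2 + d * (PP d k).eval (x n) ^ 2 - d * d ^ N)
        ≤ A 4 * (A (d ^ N) * (Z * (3 / 2)) ^ 2 + A d * (Z * (A l + 1)) ^ 2 +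
          A d * A (d ^ N) * Z ^ 2) :=
          mul_le_mul_of_nonneg_left (by linarith) (A.nonneg _)
      _ = C0 * Z ^ 2 := by rw [hC0]; ring
  have hZ2 : 0 < Z ^ 2 := by positivity
  rw [le_div_iff₀ hc0p]
  have h9 : A (tau d x k n ω) * (c0 * Z ^ 2) ≤ C0 * Z ^ 2 :=
    (mul_le_mul_of_nonneg_left hlow' (A.nonneg _)).trans hmul
  have h10 : A (tau d x k n ω) * c0 * Z ^ 2 ≤ C0 * Z ^ 2 := by linarith
  exact le_of_mul_le_mul_right h10 hZ2

/-- square roots in the same class with the same pattern -/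
theorem pattern_aux (A : AbsoluteValue K ℝ) (d : K) {ε : ℝ} (hε : 0 < ε) :
    ∃ M : ℝ, ∀ D y1 y2 y3 r1 r2 r3 : K, D ≠ 0 → M ≤ A y1 → M ≤ A y2 → M ≤ A y3 →
      r1 ^ 2 = D * (1 - d / y1 ^ 2) → r2 ^ 2 = D * (1 - d / y2 ^ 2) →
      r3 ^ 2 = D * (1 - d / y3 ^ 2) → A (r2 - r1) ≤ A (r2 + r1) → A (r3 - r1) ≤ A (r3 + r1) →
      A (r2 * r3 / D - 1) ≤ ε := by
  have hd := A.nonneg d
  -- `A d / M^2` is small
  set M : ℝ := 1 + (A d + 1) * (8 / ε + 1) ^ 2 with hM
  have hM1 : 1 ≤ M := by rw [hM]; nlinarith [sq_nonneg (8 / ε + 1)]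
  refine ⟨M, fun D y1 y2 y3 r1 r2 r3 hD hy1 hy2 hy3 h1 h2 h3 h4 h5 => ?_⟩
  set a : ℝ := A D with ha
  have ha0 : 0 < a := A.pos hD
  set η : ℝ := A d / M ^ 2 with hη
  have hη0 : 0 ≤ η := by positivity
  -- `4 η ≤ (ε / 4)^2`, `η ≤ ε / 4`, `η ≤ 1`
  have hMM : (A d) * (8 / ε + 1) ^ 2 ≤ M := by rw [hM]; nlinarith [sq_nonneg (8 / ε + 1)]
  have hη1 : η * (8 / ε + 1) ^ 2 ≤ 1 := by
    rw [hη, div_mul_eq_mul_div, div_le_one (by positivity)]
    nlinarith
  have h8 : 0 < 8 / ε := by positivity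
  have hηa : η ≤ 1 := by nlinarith [sq_nonneg (8 / ε)]
  have hηb : η ≤ (ε / 8) ^ 2 := by
    have h9 : η * (8 / ε) ^ 2 ≤ 1 := by nlinarith
    have h10 : (ε / 8) ^ 2 = 1 / (8 / ε) ^ 2 := by field_simp
    rw [h10, le_div_iff₀ (by positivity)]
    exact h9
  have hηc : η * (8 / ε) ≤ 1 := by nlinarith [sq_nonneg (8 / ε)]
  have hηd : η ≤ ε / 8 := by
    have h10 : ε / 8 = 1 / (8 / ε) := by field_simp
    rw [h10, le_div_iff₀ (by positivity)]
    exact hηc
  have hdy : ∀ y : K, M ≤ A y → A (d / y ^ 2) ≤ η := by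
    intro y hy
    rw [map_div₀, map_pow, hη]
    exact div_le_div_of_nonneg_left hd (by positivity) (pow_le_pow_left₀ (by linarith) hy 2)
  have hr : ∀ y r : K, M ≤ A y → r ^ 2 = D * (1 - d / y ^ 2) → A r ^ 2 ≤ 2 * a := by
    intro y r hy h
    rw [← map_pow, h, map_mul]
    have h9 : A (1 - d / y ^ 2) ≤ 2 := by
      refine (A.sub_le_add _ _).trans ?_
      rw [map_one]
      have := hdy y hy
      linarith
    nlinarith
  have hdiff : ∀ y r : K, M ≤ A y → r ^ 2 = D * (1 - d / y ^ 2) → A (r - r1) ≤ A (r + r1) →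
      A (r - r1) ^ 2 ≤ 2 * a * η := by
    intro y r hy h h'
    have h9 : A (r - r1) ^ 2 ≤ A (r - r1) * A (r + r1) := by
      rw [pow_two]
      exact mul_le_mul_of_nonneg_left h' (A.nonneg _)
    have h10 : (r - r1) * (r + r1) = D * (d / y1 ^ 2 - d / y ^ 2) := by
      linear_combination h - h1
    rw [← map_mul, h10, map_mul] at h9
    have h11 : A (d / y1 ^ 2 - d / y ^ 2) ≤ η + η :=
      (A.sub_le_add _ _).trans (add_le_add (hdy _ hy1) (hdy _ hy))
    have h12 : A D * A (d / y1 ^ 2 - d / y ^ 2) ≤ a * (η + η) :=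
      mul_le_mul_of_nonneg_left h11 ha0.le
    linarith
  -- products
  have hprod : ∀ u v : ℝ, 0 ≤ u → 0 ≤ v → u ^ 2 ≤ 2 * a * η → v ^ 2 ≤ 2 * a → u * v ≤ a * (ε / 4) := by
    intro u v hu hv h9 h10
    have h11 : (u * v) ^ 2 ≤ (a * (ε / 4)) ^ 2 := by
      calc (u * v) ^ 2 = u ^ 2 * v ^ 2 := by ring
        _ ≤ (2 * a * η) * (2 * a) := mul_le_mul h9 h10 (sq_nonneg _) (by positivity)
        _ = 4 * a ^ 2 * η := by ring
        _ ≤ 4 * a ^ 2 * (ε / 8) ^ 2 := mul_le_mul_of_nonneg_left hηb (by positivity)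
        _ = (a * (ε / 4)) ^ 2 := by ring
    exact le_trans (le_abs_self _) (abs_le_of_sq_le_sq h11 (by positivity))
  have hmain : A (r2 * r3 - D) ≤ a * ε := by
    have h9 : r2 * r3 - D = (r2 - r1) * r3 + (r3 - r1) * r1 - D * (d / y1 ^ 2) := by
      linear_combination h1
    rw [h9]
    refine (A.sub_le_add _ _).trans ?_
    have h10 : A ((r2 - r1) * r3 + (r3 - r1) * r1) ≤ a * (ε / 4) + a * (ε / 4) := by
      refine (A.add_le _ _).trans (add_le_add ?_ ?_)
      · rw [map_mul]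
        exact hprod _ _ (A.nonneg _) (A.nonneg _) (hdiff y2 r2 hy2 h2 h4) (hr y3 r3 hy3 h3)
      · rw [map_mul]
        exact hprod _ _ (A.nonneg _) (A.nonneg _) (hdiff y3 r3 hy3 h3 h5) (hr y1 r1 hy1 h1)
    have h11 : A (D * (d / y1 ^ 2)) ≤ a * (ε / 8) := by
      rw [map_mul]
      exact mul_le_mul_of_nonneg_left ((hdy _ hy1).trans hηd) ha0.le
    nlinarith
  have h12 : r2 * r3 / D - 1 = (r2 * r3 - D) / D := by field_simp
  rw [h12, map_div₀, div_le_iff₀ ha0]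
  linarith

/-- the combined bound at one absolute value -/
theorem tau_bound [CharZero K] (A : AbsoluteValue K ℝ) (c d : K) (x : ℕ → K)
    (hx : ∀ n, x (n + 1) = x n ^ 2 + c) (k : ℕ) :
    ∃ C : ℝ, ∃ n0 : ℕ, ∀ n1 n : ℕ, n0 ≤ n1 → n0 ≤ n → ∀ D s1 s2 s3 : K, D ≠ 0 →
      s1 ^ 2 = D * (x n1 ^ 2 - d) → s2 ^ 2 = D * (x n ^ 2 - d) →
      s3 ^ 2 = D * (x (n + k) ^ 2 - d) →
      (A (s2 / x n - s1 / x n1) ≤ A (s2 / x n + s1 / x n1) ↔
        A (s3 / x (n + k) - s1 / x n1) ≤ A (s3 / x (n + k) + s1 / x n1)) →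
      A (tau d x k n (s2 * s3 / D)) ≤ C := by
  have hωsq : ∀ D s2 s3 y z : K, D ≠ 0 → s2 ^ 2 = D * y → s3 ^ 2 = D * z →
      (s2 * s3 / D) ^ 2 = y * z := by
    intro D s2 s3 y z hD h2 h3
    rw [div_pow, mul_pow, h2, h3]
    field_simp
  rcases dichotomy A c x hx with ⟨B, hB⟩ | hinf
  · obtain ⟨C, hC⟩ := tau_bounded A d x hB k
    exact ⟨C, 0, fun n1 n _ _ D s1 s2 s3 hD h1 h2 h3 _ => hC n _ (hωsq D s2 s3 _ _ hD h2 h3)⟩
  · obtain ⟨C, ε, M, hε, hC⟩ := tau_escape A c d x hx k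
    obtain ⟨M', hM'⟩ := pattern_aux A d hε
    obtain ⟨n0, hn0⟩ := Filter.eventually_atTop.1
      (hinf.eventually_ge_atTop (max M (max M' 1)))
    refine ⟨C, n0, fun n1 n hn1 hn D s1 s2 s3 hD h1 h2 h3 hpat => ?_⟩
    have g1 := hn0 n1 hn1
    have g2 := hn0 n hn
    have g3 := hn0 (n + k) (by omega)
    have hM1 : ∀ t : ℝ, max M (max M' 1) ≤ t → M ≤ t ∧ M' ≤ t ∧ 1 ≤ t := fun t ht =>
      ⟨(le_max_left _ _).trans ht, ((le_max_left _ _).trans (le_max_right _ _)).trans ht,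
        ((le_max_right _ _).trans (le_max_right _ _)).trans ht⟩
    obtain ⟨-, m1, o1⟩ := hM1 _ g1
    obtain ⟨k2, m2, o2⟩ := hM1 _ g2
    obtain ⟨-, m3, o3⟩ := hM1 _ g3
    have hne : ∀ y : K, 1 ≤ A y → y ≠ 0 := by
      rintro y h rfl
      rw [map_zero] at h
      linarith
    have n1' := hne _ o1
    have n2' := hne _ o2
    have n3' := hne _ o3
    have hrho : ∀ s y : K, y ≠ 0 → s ^ 2 = D * (y ^ 2 - d) → (s / y) ^ 2 = D * (1 - d / y ^ 2) := by
      intro s y hy h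
      rw [div_pow, h]
      field_simp
    set e : K := (s2 / x n) * (s3 / x (n + k)) / D - 1 with he
    have hωe : s2 * s3 / D = x n * x (n + k) * (1 + e) := by
      rw [he]
      field_simp
      ring
    have hee : A e ≤ ε := by
      by_cases h : A (s2 / x n - s1 / x n1) ≤ A (s2 / x n + s1 / x n1)
      · exact hM' D (x n1) (x n) (x (n + k)) _ _ _ hD m1 m2 m3 (hrho _ _ n1' h1)
          (hrho _ _ n2' h2) (hrho _ _ n3' h3) h (hpat.1 h)
      · have h' : ¬ A (s3 / x (n + k) - s1 / x n1) ≤ A (s3 / x (n + k) + s1 / x n1) :=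
          fun h'' => h (hpat.2 h'')
        have h5 := hM' D (x n1) (x n) (x (n + k)) (s1 / x n1) (-(s2 / x n)) (-(s3 / x (n + k)))
          hD m1 m2 m3 (hrho _ _ n1' h1)
          (by rw [neg_sq]; exact hrho _ _ n2' h2) (by rw [neg_sq]; exact hrho _ _ n3' h3) ?_ ?_
        · rw [he]
          have h6 : -(s2 / x n) * -(s3 / x (n + k)) / D - 1
              = (s2 / x n) * (s3 / x (n + k)) / D - 1 := by ring
          rw [h6] at h5
          exact h5
        · have e1 : -(s2 / x n) - s1 / x n1 = -(s2 / x n + s1 / x n1) := by ring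
          have e2 : -(s2 / x n) + s1 / x n1 = -(s2 / x n - s1 / x n1) := by ring
          rw [e1, e2, A.map_neg, A.map_neg]
          exact (not_le.1 h).le
        · have e1 : -(s3 / x (n + k)) - s1 / x n1 = -(s3 / x (n + k) + s1 / x n1) := by ring
          have e2 : -(s3 / x (n + k)) + s1 / x n1 = -(s3 / x (n + k) - s1 / x n1) := by ring
          rw [e1, e2, A.map_neg, A.map_neg]
          exact (not_le.1 h').le
    exact hC n _ e k2 (hωsq D s2 s3 _ _ hD h2 h3) hωe hee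

end Pool.Agent.ORB.VWin
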