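import Pool.Agent.ORB.GoodPrime
import Pool.Agent.ORB.VWinB

/-!
# Theorem V, row R12a: Runge's method along an orbit with one escaping place
-/

set_option autoImplicit false

open Polynomial Filter NumberField IsDedekindDomain

namespace Pool.Agent.ORB

open VWin

namespace VRunge

section algebra

variable {F : Type*} [Field F]

/-- the polynomial part of the square root: one coefficient after the other -/
theorem approx_root (h2 : (2 : F) ≠ 0) {G : F[X]} {m : ℕ} (hG : G.Monic)
    (hd : G.natDegree = 2 * m) (k : ℕ) (hk : k ≤ m) :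
    ∃ P : F[X], P.Monic ∧ P.natDegree = m ∧
      ∀ i, 2 * m - k ≤ i → (G - P ^ 2).coeff i = 0 := by
  induction k with
  | zero =>
    refine ⟨X ^ m, monic_X_pow m, natDegree_X_pow m, fun i hi => ?_⟩
    rw [← pow_mul, coeff_sub, coeff_X_pow]
    rcases eq_or_ne i (m * 2) with rfl | hne
    · rw [if_pos rfl, mul_comm m 2, ← hd, hG.coeff_natDegree, sub_self]
    · rw [if_neg hne, coeff_eq_zero_of_natDegree_lt (by omega), sub_self]
  | succ k ih =>
    obtain ⟨P, hP, hPm, hc⟩ := ih (by omega)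
    obtain ⟨j, hj⟩ : ∃ j, m = j + (k + 1) := ⟨m - (k + 1), by omega⟩
    set a : F := (G - P ^ 2).coeff (m + j) with ha
    have hdeg : (C (a / 2) * X ^ j : F[X]).degree < P.degree := by
      refine (degree_C_mul_X_pow_le j _).trans_lt ?_
      rw [degree_eq_natDegree hP.ne_zero, hPm]
      exact_mod_cast (by omega : j < m)
    have hnat : (P + C (a / 2) * X ^ j).natDegree = m := by
      rw [natDegree_eq_of_degree_eq (degree_add_eq_left_of_degree_lt hdeg), hPm]
    refine ⟨P + C (a / 2) * X ^ j, hP.add_of_left hdeg, hnat, fun i hi => ?_⟩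
    have e : G - (P + C (a / 2) * X ^ j) ^ 2
        = (G - P ^ 2) - C a * (X ^ j * P) - C ((a / 2) ^ 2) * X ^ (2 * j) := by
      have h3 : (C a : F[X]) = 2 * C (a / 2) := by
        rw [show (2 : F[X]) = C 2 from rfl, ← C_mul, mul_div_cancel₀ a h2]
      rw [h3, C_pow]
      ring
    rw [e, coeff_sub, coeff_sub, coeff_C_mul, coeff_C_mul, coeff_X_pow,
      if_neg (by omega : i ≠ 2 * j), mul_zero, sub_zero, coeff_X_pow_mul',
      if_pos (by omega : j ≤ i)]
    rcases eq_or_ne i (m + j) with rfl | hne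
    · rw [Nat.add_sub_cancel, ← ha]
      have h1 : P.coeff m = 1 := by rw [← hPm]; exact hP.coeff_natDegree
      rw [h1, mul_one, sub_self]
    · rw [hc i (by omega), coeff_eq_zero_of_natDegree_lt (by omega : P.natDegree < i - j),
        mul_zero, sub_zero]

/-- at the escaping place one of the two factors tends to zero -/
theorem small (A : AbsoluteValue F ℝ) (h2 : (2 : F) ≠ 0) {G P : F[X]} {m : ℕ} (hP : P.Monic)
    (hPm : P.natDegree = m) (hR : ∀ i, m ≤ i → (G - P ^ 2).coeff i = 0) {ε : ℝ} (hε : 0 < ε) :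
    ∃ M : ℝ, ∀ x y : F, M ≤ A x → y ^ 2 = G.eval x → A (y - P.eval x) ≤ A (y + P.eval x) →
      A (y - P.eval x) ≤ ε := by
  have hA2 : 0 < A 2 := A.pos h2
  obtain ⟨M1, hM1, h1⟩ := eval_asymp A P m hPm.le (by norm_num : (0 : ℝ) < 1 / 2)
  have hRd : (G - P ^ 2).natDegree ≤ m := by
    rw [natDegree_le_iff_coeff_eq_zero]
    exact fun i hi => hR i hi.le
  obtain ⟨M2, hM2, h3⟩ := eval_asymp A (G - P ^ 2) m hRd (by positivity : 0 < ε * A 2 / 4)
  refine ⟨max M1 M2, fun x y hx hy hle => ?_⟩
  obtain ⟨e1, he1, hp⟩ := h1 x ((le_max_left _ _).trans hx)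
  obtain ⟨e2, he2, hr⟩ := h3 x ((le_max_right _ _).trans hx)
  have hx1 : 1 ≤ A x := hM1.trans ((le_max_left _ _).trans hx)
  have hPc : P.coeff m = 1 := by rw [← hPm]; exact hP.coeff_natDegree
  rw [hPc] at hp
  rw [hR m le_rfl, zero_add] at hr
  set Z : ℝ := A x ^ m with hZ
  have hZ1 : 1 ≤ Z := one_le_pow₀ hx1
  -- the product
  have hprod : A (y - P.eval x) * A (y + P.eval x) ≤ Z * (ε * A 2 / 4) := by
    rw [← map_mul]
    have h4 : (y - P.eval x) * (y + P.eval x) = (G - P ^ 2).eval x := by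
      rw [eval_sub, eval_pow, ← hy]
      ring
    rw [h4, hr, map_mul, map_pow]
    exact mul_le_mul_of_nonneg_left he2 (by positivity)
  -- the large factor
  have hlow : Z * (A 2 / 4) ≤ A (y + P.eval x) := by
    have h5 : A (2 * P.eval x) ≤ A (y + P.eval x) + A (y - P.eval x) := by
      have h6 : 2 * P.eval x = (y + P.eval x) - (y - P.eval x) := by ring
      rw [h6]
      exact A.sub_le_add _ _
    have h7 : Z * (1 / 2) ≤ A (P.eval x) := by
      rw [hp, map_mul, map_pow]
      refine mul_le_mul_of_nonneg_left ?_ (by positivity)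
      have h8 : (1 : ℝ) ≤ A (1 + e1) + A e1 := by
        have h9 : (1 : F) = (1 + e1) - e1 := by ring
        calc (1 : ℝ) = A 1 := (map_one A).symm
          _ = A ((1 + e1) - e1) := by rw [← h9]
          _ ≤ _ := A.sub_le_add _ _
      linarith
    rw [map_mul] at h5
    have h10 : A 2 * (Z * (1 / 2)) ≤ A 2 * A (P.eval x) := mul_le_mul_of_nonneg_left h7 hA2.le
    linarith
  have h11 : A (y - P.eval x) * (Z * (A 2 / 4)) ≤ ε * (Z * (A 2 / 4)) := by
    calc A (y - P.eval x) * (Z * (A 2 / 4)) ≤ A (y - P.eval x) * A (y + P.eval x) :=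
          mul_le_mul_of_nonneg_left hlow (A.nonneg _)
      _ ≤ Z * (ε * A 2 / 4) := hprod
      _ = ε * (Z * (A 2 / 4)) := by ring
  exact le_of_mul_le_mul_right h11 (by positivity)

/-- at the other places everything is bounded -/
theorem bounded (A : AbsoluteValue F ℝ) (G P : F[X]) (B : ℝ) :
    ∃ C : ℝ, ∀ x y : F, A x ≤ B → y ^ 2 = G.eval x → A (y - P.eval x) ≤ C := by
  obtain ⟨C1, h1⟩ := eval_bounded A G B
  obtain ⟨C2, h2⟩ := eval_bounded A P B
  refine ⟨max 1 C1 + C2, fun x y hx hy => ?_⟩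
  refine (A.sub_le_add _ _).trans (add_le_add ?_ (h2 x hx))
  have h3 : A y ^ 2 ≤ C1 := by
    rw [← map_pow, hy]
    exact h1 x hx
  by_contra hcon
  push Not at hcon
  have h4 : 1 < A y := (le_max_left _ _).trans_lt hcon
  have h5 : C1 < A y := (le_max_right _ _).trans_lt hcon
  nlinarith

end algebra

end VRunge

open VRunge

variable {K : Type*} [Field K] [NumberField K]

/-- the orbit of `0` under `x ^ 2 + c` is bounded at all places but (at most) one -/
def OneEscape (K : Type*) [Field K] [NumberField K] (c : K) : Prop :=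
  ∃ A : AbsoluteValue K ℝ, ∀ i : HeightOneSpectrum (𝓞 K) ⊕ (K →+* ℂ),
    pabv i = A ∨ ∃ B : ℝ, ∀ n : ℕ, pabv i ((fun z : K => z ^ 2 + c)^[n] 0) ≤ B

/-- **Runge** along the orbit of `0` -/
theorem runge (c : K) (hinj : Function.Injective fun n : ℕ => (fun z : K => z ^ 2 + c)^[n] 0)
    (hone : OneEscape K c) (G : K[X]) (hG : G.Monic) (hev : Even G.natDegree)
    (hsq : ¬ IsSquare G) :
    ∀ᶠ n : ℕ in atTop, ¬ IsSquare (G.eval ((fun z : K => z ^ 2 + c)^[n] 0)) := by
  classical
  set x : ℕ → K := fun n => (fun z : K => z ^ 2 + c)^[n] 0 with hxdef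
  have hx0 : x 0 = 0 := rfl
  have hx : ∀ n, x (n + 1) = x n ^ 2 + c := fun n => Function.iterate_succ_apply' _ _ _
  obtain ⟨A, hA⟩ := hone
  change ∀ᶠ n : ℕ in atTop, ¬ IsSquare (G.eval (x n))
  change ∀ i : HeightOneSpectrum (𝓞 K) ⊕ (K →+* ℂ), pabv i = A ∨ ∃ B : ℝ, ∀ n, pabv i (x n) ≤ B
    at hA
  obtain ⟨m, hm⟩ := hev
  obtain ⟨P, hP, hPm, hR'⟩ := approx_root (two_ne_zero : (2 : K) ≠ 0) hG
    (by omega : G.natDegree = 2 * m) m le_rfl
  have hR : ∀ i, m ≤ i → (G - P ^ 2).coeff i = 0 := fun i hi => hR' i (by omega)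
  -- the primes
  set S : Finset (HeightOneSpectrum (𝓞 K)) :=
    (HeightOneSpectrum.Support.finite (𝓞 K) c).toFinset ∪
    ((Finset.range (P.natDegree + 1)).biUnion fun i =>
      (HeightOneSpectrum.Support.finite (𝓞 K) (P.coeff i)).toFinset) ∪
    ((Finset.range (G.natDegree + 1)).biUnion fun i =>
      (HeightOneSpectrum.Support.finite (𝓞 K) (G.coeff i)).toFinset) with hS
  have hint : ∀ w ∉ S, w.valuation K c ≤ 1 ∧ (∀ i, w.valuation K (P.coeff i) ≤ 1) ∧
      ∀ i, w.valuation K (G.coeff i) ≤ 1 := by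
    intro w hw
    rw [hS, Finset.mem_union, Finset.mem_union, Set.Finite.mem_toFinset, Finset.mem_biUnion,
      Finset.mem_biUnion] at hw
    push Not at hw
    obtain ⟨⟨h1, h2⟩, h3⟩ := hw
    refine ⟨?_, fun i => ?_, fun i => ?_⟩
    · by_contra h
      exact h1 (not_le.1 h)
    · by_cases hi : i < P.natDegree + 1
      · by_contra h
        exact h2 i (Finset.mem_range.2 hi) ((Set.Finite.mem_toFinset _).2 (not_le.1 h))
      · rw [coeff_eq_zero_of_natDegree_lt (by omega), map_zero]
        exact zero_le_one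
    · by_cases hi : i < G.natDegree + 1
      · by_contra h
        exact h3 i (Finset.mem_range.2 hi) ((Set.Finite.mem_toFinset _).2 (not_le.1 h))
      · rw [coeff_eq_zero_of_natDegree_lt (by omega), map_zero]
        exact zero_le_one
  have hxint : ∀ w ∉ S, ∀ n, w.valuation K (x n) ≤ 1 := by
    intro w hw n
    have cI : c ∈ (w.valuation K).integer := (hint w hw).1
    have h : x n ∈ (w.valuation K).integer := by
      induction n with
      | zero => rw [hx0]; exact Subring.zero_mem _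
      | succ n ih => rw [hx]; exact Subring.add_mem _ (Subring.pow_mem _ ih 2) cI
    exact h
  have hevint : ∀ w ∉ S, ∀ (q : K[X]), (∀ i, w.valuation K (q.coeff i) ≤ 1) → ∀ n,
      w.valuation K (q.eval (x n)) ≤ 1 := by
    intro w hw q hq n
    have h : q.eval (x n) ∈ (w.valuation K).integer := by
      rw [eval_eq_sum_range]
      exact Subring.sum_mem _ fun i _ => Subring.mul_mem _ (hq i)
        (Subring.pow_mem _ (hxint w hw n) i)
    exact h
  -- the escaping place
  have hesc : Tendsto (fun n => A (x n)) atTop atTop := by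
    rcases dichotomy A c x hx with ⟨B, hB⟩ | h
    · exfalso
      have hall : ∀ i : HeightOneSpectrum (𝓞 K) ⊕ (K →+* ℂ), ∃ B : ℝ, ∀ n, pabv i (x n) ≤ B := by
        intro i
        rcases hA i with h | h
        · exact ⟨B, by rw [h]; exact hB⟩
        · exact h
      choose Bi hBi using hall
      set C : ℝ := ∑ w ∈ S, |Bi (Sum.inl w)| + ∑ σ : K →+* ℂ, |Bi (Sum.inr σ)| with hC
      have h1 : 0 ≤ ∑ w ∈ S, |Bi (Sum.inl w)| := Finset.sum_nonneg fun _ _ => abs_nonneg _
      have h2 : 0 ≤ ∑ σ : K →+* ℂ, |Bi (Sum.inr σ)| := Finset.sum_nonneg fun _ _ => abs_nonneg _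
      have hfin := finite_bounded (K := K) S C
      refine Set.infinite_range_of_injective hinj (hfin.subset ?_)
      rintro _ ⟨n, rfl⟩
      refine ⟨fun w hw => hxint w hw n, fun w hw => ?_, fun σ => ?_⟩
      · have h3 := Finset.single_le_sum (f := fun w => |Bi (Sum.inl w)|)
          (fun _ _ => abs_nonneg _) hw
        have h4 := (hBi (Sum.inl w) n).trans (le_abs_self _)
        linarith
      · have h3 := Finset.single_le_sum (f := fun σ : K →+* ℂ => |Bi (Sum.inr σ)|)
          (fun _ _ => abs_nonneg _) (Finset.mem_univ σ)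
        have h4 : ‖σ (x n)‖ ≤ _ := (hBi (Sum.inr σ) n).trans (le_abs_self _)
        linarith
    · exact h
  have hsmall : ∀ ε : ℝ, 0 < ε → ∃ n0 : ℕ, ∀ n ≥ n0, ∀ y : K, y ^ 2 = G.eval (x n) →
      A (y - P.eval (x n)) ≤ A (y + P.eval (x n)) → A (y - P.eval (x n)) ≤ ε := by
    intro ε hε
    obtain ⟨M, hM⟩ := small A two_ne_zero hP hPm hR hε
    obtain ⟨n0, hn0⟩ := eventually_atTop.1 (hesc.eventually_ge_atTop M)
    exact ⟨n0, fun n hn y => hM (x n) y (hn0 n hn)⟩
  -- uniform bounds
  obtain ⟨n1, hn1⟩ := hsmall 1 one_pos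
  have hbd : ∀ i : HeightOneSpectrum (𝓞 K) ⊕ (K →+* ℂ), ∃ C : ℝ, ∀ n ≥ n1, ∀ y : K,
      y ^ 2 = G.eval (x n) → A (y - P.eval (x n)) ≤ A (y + P.eval (x n)) →
      pabv i (y - P.eval (x n)) ≤ C := by
    intro i
    rcases hA i with h | ⟨B, hB⟩
    · refine ⟨1, fun n hn y hy hle => ?_⟩
      rw [h]
      exact hn1 n hn y hy hle
    · obtain ⟨C, hC⟩ := bounded (pabv i) G P B
      exact ⟨C, fun n _ y hy _ => hC (x n) y (hB n) hy⟩
  choose Ci hCi using hbd
  set C : ℝ := ∑ w ∈ S, |Ci (Sum.inl w)| + ∑ σ : K →+* ℂ, |Ci (Sum.inr σ)| with hC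
  set Z : Set K := {y : K | (∀ w ∉ S, w.valuation K y ≤ 1) ∧ (∀ w ∈ S, pabv (Sum.inl w) y ≤ C) ∧
      (∀ σ : K →+* ℂ, ‖σ y‖ ≤ C)} with hZ
  have hZfin : Z.Finite := finite_bounded S C
  have hmem : ∀ n ≥ n1, ∀ y : K, y ^ 2 = G.eval (x n) →
      A (y - P.eval (x n)) ≤ A (y + P.eval (x n)) → y - P.eval (x n) ∈ Z := by
    intro n hn y hy hle
    have h1 : 0 ≤ ∑ w ∈ S, |Ci (Sum.inl w)| := Finset.sum_nonneg fun _ _ => abs_nonneg _
    have h2 : 0 ≤ ∑ σ : K →+* ℂ, |Ci (Sum.inr σ)| := Finset.sum_nonneg fun _ _ => abs_nonneg _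
    refine ⟨fun w hw => ?_, fun w hw => ?_, fun σ => ?_⟩
    · obtain ⟨-, hPi, hGi⟩ := hint w hw
      have hyI : y ∈ (w.valuation K).integer := by
        have h3 : w.valuation K y ^ 2 ≤ 1 := by
          rw [← map_pow, hy]
          exact hevint w hw G hGi n
        exact (pow_le_one_iff two_ne_zero).1 h3
      have hPI : P.eval (x n) ∈ (w.valuation K).integer := hevint w hw P hPi n
      exact Subring.sub_mem _ hyI hPI
    · have h3 := Finset.single_le_sum (f := fun w => |Ci (Sum.inl w)|)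
        (fun _ _ => abs_nonneg _) hw
      have h4 := (hCi (Sum.inl w) n hn y hy hle).trans (le_abs_self _)
      linarith
    · have h3 := Finset.single_le_sum (f := fun σ : K →+* ℂ => |Ci (Sum.inr σ)|)
        (fun _ _ => abs_nonneg _) (Finset.mem_univ σ)
      have h4 : ‖σ (y - P.eval (x n))‖ ≤ _ :=
        (hCi (Sum.inr σ) n hn y hy hle).trans (le_abs_self _)
      linarith
  -- a lower bound on the nonzero elements
  obtain ⟨ε, hε0, hε⟩ : ∃ ε : ℝ, 0 < ε ∧ ∀ z ∈ Z, z ≠ 0 → ε < A z := by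
    have h1 : ∀ᶠ ε : ℝ in nhdsWithin 0 (Set.Ioi 0), ∀ z ∈ hZfin.toFinset, z ≠ 0 → ε < A z := by
      rw [eventually_all_finset]
      intro z _
      by_cases hz : z = 0
      · exact Eventually.of_forall fun _ h => absurd hz h
      · have h2 : ∀ᶠ ε : ℝ in nhds 0, ε < A z := eventually_lt_nhds (A.pos hz)
        exact (h2.filter_mono nhdsWithin_le_nhds).mono fun ε h _ => h
    obtain ⟨ε, h2, h3⟩ := (h1.and self_mem_nhdsWithin).exists
    exact ⟨ε, h3, fun z hz => h2 z (hZfin.mem_toFinset.2 hz)⟩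
  obtain ⟨n2, hn2⟩ := hsmall ε hε0
  by_contra hcon
  rw [not_eventually] at hcon
  have hinf : {n : ℕ | (G - P ^ 2).eval (x n) = 0}.Infinite := by
    refine Set.infinite_of_forall_exists_gt fun N0 => ?_
    obtain ⟨n, hn, hnsq⟩ := (frequently_atTop.1 hcon) (max (max n1 n2) (N0 + 1))
    have hn1' : n1 ≤ n := ((le_max_left _ _).trans (le_max_left _ _)).trans hn
    have hn2' : n2 ≤ n := ((le_max_right _ _).trans (le_max_left _ _)).trans hn
    have hn3' : N0 < n := lt_of_lt_of_le (Nat.lt_succ_self _) ((le_max_right _ _).trans hn)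
    rw [not_not] at hnsq
    obtain ⟨y, hy⟩ := hnsq
    rw [← pow_two] at hy
    have fin : ∀ y : K, y ^ 2 = G.eval (x n) → A (y - P.eval (x n)) ≤ A (y + P.eval (x n)) →
        (G - P ^ 2).eval (x n) = 0 := by
      intro y hy hle
      have h1 := hmem n hn1' y hy hle
      have h2 := hn2 n hn2' y hy hle
      have h3 : y - P.eval (x n) = 0 := by
        by_contra h
        exact absurd (hε _ h1 h) (not_lt.2 h2)
      rw [eval_sub, eval_pow, ← hy, sub_eq_zero.1 h3, sub_self]
    refine ⟨n, ?_, hn3'⟩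
    rcases le_total (A (y - P.eval (x n))) (A (y + P.eval (x n))) with h | h
    · exact fin y hy.symm h
    · refine fin (-y) (by rw [neg_sq]; exact hy.symm) ?_
      have e1 : -y - P.eval (x n) = -(y + P.eval (x n)) := by ring
      have e2 : -y + P.eval (x n) = -(y - P.eval (x n)) := by ring
      rw [e1, e2, A.map_neg, A.map_neg]
      exact h
  have hR0 : G - P ^ 2 = 0 := by
    refine Polynomial.eq_of_infinite_eval_eq _ _ ?_
    refine (hinf.image (f := x) (hinj.injOn)).mono ?_
    rintro _ ⟨n, hn, rfl⟩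
    rw [Set.mem_ofPred_eq, eval_zero]
    exact hn
  exact hsq ⟨P, by rw [← pow_two]; exact sub_eq_zero.1 hR0⟩

/-- squarefree polynomials of positive even degree -/
theorem runge_squarefree (c : K)
    (hinj : Function.Injective fun n : ℕ => (fun z : K => z ^ 2 + c)^[n] 0)
    (hone : OneEscape K c) (G : K[X]) (hG : G.Monic) (hev : Even G.natDegree)
    (hpos : G.natDegree ≠ 0) (hsq : Squarefree G) :
    ∀ᶠ n : ℕ in atTop, ¬ IsSquare (G.eval ((fun z : K => z ^ 2 + c)^[n] 0)) := by
  refine runge c hinj hone G hG hev ?_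
  rintro ⟨P, hP⟩
  have h1 : IsUnit P := hsq P ⟨1, by rw [hP, mul_one]⟩
  have h2 : P.natDegree = 0 := natDegree_eq_zero_of_isUnit h1
  apply hpos
  rw [hP]
  have h3 := natDegree_mul_le (p := P) (q := P)
  omega

/-- integral `c`, one archimedean place -/
theorem oneEscape_of_integral (c : K) (hone : ∀ (σ σ' : K →+* ℂ) (y : K), ‖σ y‖ = ‖σ' y‖)
    (hc : ∀ w : HeightOneSpectrum (𝓞 K), w.valuation K c ≤ 1) : OneEscape K c := by
  refine ⟨pabv (Sum.inr (Classical.arbitrary (K →+* ℂ))), ?_⟩
  rintro (w | σ)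
  · right
    refine ⟨1, fun n => ?_⟩
    have cI : c ∈ (w.valuation K).integer := hc w
    have h : (fun z : K => z ^ 2 + c)^[n] 0 ∈ (w.valuation K).integer := by
      induction n with
      | zero => exact Subring.zero_mem _
      | succ n ih =>
        rw [Function.iterate_succ_apply']
        exact Subring.add_mem _ (Subring.pow_mem _ ih 2) cI
    have h2 : w.valuation K ((fun z : K => z ^ 2 + c)^[n] 0) ≤ 1 := h
    have h3 := (WithZeroMulInt.toNNReal_strictMono
      (one_lt_two : (1 : NNReal) < 2)).monotone h2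
    rw [map_one] at h3
    exact_mod_cast h3
  · left
    ext y
    exact hone _ _ y

/-- the rational case -/
theorem oneEscape_rat (c : ℤ) : OneEscape ℚ (c : ℚ) := by
  refine oneEscape_of_integral _ (fun σ σ' y => ?_) (fun w => ?_)
  · rw [Subsingleton.elim σ σ']
  · have h := w.valuation_le_one (K := ℚ) ((c : ℤ) : 𝓞 ℚ)
    have e : (((c : ℤ) : 𝓞 ℚ) : ℚ) = (c : ℚ) := map_intCast (algebraMap (𝓞 ℚ) ℚ) c
    exact (congrArg (w.valuation ℚ) e).symm.le.trans h

section adjoin

variable {W : Type*} [Field W] [Algebra K W]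

omit [NumberField K] in
/-- the norm of `t - r` -/
theorem VRunge.norm_sub (r : W) (hr : IsIntegral K r) (t : K) :
    Algebra.norm K (algebraMap K (IntermediateField.adjoin K {r}) t
      - IntermediateField.AdjoinSimple.gen K r) = (minpoly K r).eval t := by
  classical
  set pb := IntermediateField.adjoin.powerBasis hr with hpb
  have hgen : pb.gen = IntermediateField.AdjoinSimple.gen K r := rfl
  have h1 := charpoly_leftMulMatrix pb
  rw [hgen, IntermediateField.minpoly_gen] at h1
  rw [Algebra.norm_eq_matrix_det pb.basis, map_sub, AlgHom.commutes, ← h1, Matrix.eval_charpoly]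
  rfl

/-- **Runge over `K(r)`**: `x_n - r` is not a square in `K(r)` for large `n` -/
theorem runge_adjoin (c : K)
    (hinj : Function.Injective fun n : ℕ => (fun z : K => z ^ 2 + c)^[n] 0)
    (hone : OneEscape K c) (r : W) (hr : IsIntegral K r) (hrc : r ≠ algebraMap K W c) :
    ∀ᶠ n : ℕ in atTop, ∀ w ∈ IntermediateField.adjoin K {r},
      w ^ 2 ≠ algebraMap K W ((fun z : K => z ^ 2 + c)^[n] 0) - r := by
  classical
  set g : K[X] := minpoly K r with hg
  have hgm : g.Monic := minpoly.monic hr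
  have hgd : 0 < g.natDegree := minpoly.natDegree_pos hr
  have hqd : (X ^ 2 + C c : K[X]).natDegree = 2 := natDegree_X_pow_add_C
  have hqm : (X ^ 2 + C c : K[X]).Monic := monic_X_pow_add_C c two_ne_zero
  set G : K[X] := g.comp (X ^ 2 + C c) with hG
  have hGm : G.Monic := hgm.comp hqm (by rw [hqd]; exact two_ne_zero)
  have hGd : G.natDegree = g.natDegree * 2 := by rw [hG, natDegree_comp, hqd]
  have hGsq : ¬ IsSquare G := by
    rintro ⟨P, hP⟩
    obtain ⟨s, hs⟩ := IsAlgClosed.exists_pow_nat_eq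
      (algebraMap W (AlgebraicClosure W) (r - algebraMap K W c)) (n := 2) two_pos
    have hs0 : s ≠ 0 := by
      rintro rfl
      rw [zero_pow two_ne_zero] at hs
      have h1 := (map_eq_zero_iff _ (algebraMap W (AlgebraicClosure W)).injective).1 hs.symm
      exact hrc (sub_eq_zero.1 h1)
    have hsr : s ^ 2 + algebraMap K (AlgebraicClosure W) c
        = algebraMap W (AlgebraicClosure W) r := by
      rw [hs, map_sub, IsScalarTower.algebraMap_apply K W (AlgebraicClosure W) c]
      ring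
    have hq : aeval s (X ^ 2 + C c : K[X]) = algebraMap W (AlgebraicClosure W) r := by
      rw [map_add, map_pow, aeval_X, aeval_C, hsr]
    have h0 : aeval s G = 0 := by
      rw [hG, aeval_comp, hq, aeval_algebraMap_apply, hg, minpoly.aeval, map_zero]
    have hPs : aeval s P = 0 := by
      rw [hP, map_mul] at h0
      exact mul_self_eq_zero.1 h0
    have h1 : aeval s (derivative G) = 0 := by
      rw [hP, derivative_mul, map_add, map_mul, map_mul, hPs]
      ring
    rw [hG, derivative_comp, map_mul, aeval_comp, hq, aeval_algebraMap_apply] at h1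
    have e2 : algebraMap K (AlgebraicClosure W) 2 = 2 := map_ofNat _ 2
    have h2 : aeval s (derivative (X ^ 2 + C c : K[X])) = 2 * s := by
      rw [derivative_add, derivative_X_pow, derivative_C, add_zero]
      simp [e2]
    rw [h2] at h1
    rcases mul_eq_zero.1 h1 with h3 | h3
    · refine mul_ne_zero ?_ hs0 h3
      rw [← e2, Ne, map_eq_zero_iff _ (algebraMap K (AlgebraicClosure W)).injective]
      exact two_ne_zero
    · have h4 := (map_eq_zero_iff _ (algebraMap W (AlgebraicClosure W)).injective).1 h3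
      have hsep : g.Separable := (minpoly.irreducible hr).separable
      exact hsep.aeval_derivative_ne_zero (minpoly.aeval K r) h4
  have hev : Even G.natDegree := by
    rw [hGd]
    exact ⟨g.natDegree, by ring⟩
  have key := runge c hinj hone G hGm hev hGsq
  rw [eventually_atTop] at key ⊢
  obtain ⟨N, hN⟩ := key
  refine ⟨N + 1, fun n' hn' => ?_⟩
  obtain ⟨n, rfl⟩ : ∃ n, n' = n + 1 := ⟨n' - 1, by omega⟩
  have hn := hN n (by omega)
  intro w hw hww
  apply hn
  -- the norm
  set wL : IntermediateField.adjoin K {r} := ⟨w, hw⟩ with hwL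
  have h1 : wL ^ 2 = algebraMap K (IntermediateField.adjoin K {r})
      ((fun z : K => z ^ 2 + c)^[n + 1] 0) - IntermediateField.AdjoinSimple.gen K r := by
    apply Subtype.ext
    exact hww
  have h2 := congrArg (Algebra.norm K) h1
  rw [map_pow, VRunge.norm_sub r hr] at h2
  refine ⟨Algebra.norm K wL, ?_⟩
  rw [← pow_two, h2, hG, eval_comp, Function.iterate_succ_apply']
  simp only [eval_add, eval_pow, eval_X, eval_C]
  rfl

end adjoin

end Pool.Agent.ORB
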