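import Pool.Agent.ORB.VTower

/-!
ORB, Theorem V, row R3b: trivial levels, and flips from nontrivial levels.
-/

namespace Pool.Agent.ORB.VQ

open Finset

variable {K W : Type*} [Field K] [Field W] [Algebra K W]

theorem two_pow_fix {c b : K} (g : W ≃ₐ[K] W) (l : ℕ) :
    ∀ z ∈ Lev W c b l, (g ^ 2 ^ l) z = z := by
  induction l with
  | zero =>
    intro z hz
    have h1 : z = algebraMap K W b := hz
    rw [h1, AlgEquiv.commutes]
  | succ l ih =>
    intro z hz
    have h1 := ih _ (Lev_qm.1 hz)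
    rw [aut_qm] at h1
    rw [pow_succ, pow_mul, pow_two, AlgEquiv.mul_apply]
    rcases qm_eq_iff.1 h1 with h2 | h2
    · rw [← h2, ← h2]
    · have h3 : (g ^ 2 ^ l) z = -z := by linear_combination h2
      rw [h3, map_neg, h3, neg_neg]

/-- the action of the group on a level -/
def levHom (W : Type*) [Field W] [Algebra K W] (c b : K) (l : ℕ) :
    (W ≃ₐ[K] W) →* Equiv.Perm (Lev W c b l) where
  toFun g :=
    { toFun := fun z => ⟨g z, Lev_aut g z.2⟩
      invFun := fun z => ⟨g⁻¹ z, Lev_aut g⁻¹ z.2⟩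
      left_inv := fun z => Subtype.ext (by
        show g⁻¹ (g z.1) = z.1
        rw [← AlgEquiv.mul_apply, inv_mul_cancel, AlgEquiv.one_apply])
      right_inv := fun z => Subtype.ext (by
        show g (g⁻¹ z.1) = z.1
        rw [← AlgEquiv.mul_apply, mul_inv_cancel, AlgEquiv.one_apply]) }
  map_one' := by
    ext z
    rfl
  map_mul' g h := by
    ext z
    rfl

theorem levHom_apply {c b : K} {l : ℕ} (g : W ≃ₐ[K] W) (z : Lev W c b l) :
    ((levHom W c b l g z : Lev W c b l) : W) = g z := rfl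

theorem finite_Lev [IsAlgClosed W] (c b : K) (l : ℕ) : (Lev W c b l).Finite := by
  refine (pre (algebraMap K W c) l (algebraMap K W b)).finite_toSet.subset ?_
  intro z hz
  exact mem_pre.2 hz

theorem isPGroup_range (c b : K) (l : ℕ) : IsPGroup 2 (levHom W c b l).range := by
  rintro ⟨q, g, rfl⟩
  refine ⟨l, ?_⟩
  apply Subtype.ext
  show levHom W c b l g ^ 2 ^ l = 1
  rw [← map_pow]
  ext z
  exact two_pow_fix g l z.1 z.2

/-- a flip from an automorphism which fixes the level and moves something above it -/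
theorem flip_of_move [IsAlgClosed W] {c b : K} {l : ℕ}
    (hT : Tran W c b l) (u : W ≃ₐ[K] W) (hu : ∀ y ∈ Lev W c b l, u y = y)
    (hmv : ∃ z ∈ Lev W c b (l + 1), u z ≠ z) : FlipAt W c b l := by
  classical
  set φ := levHom W c b (l + 1) with hφ
  have hfin : Finite (Lev W c b (l + 1)) := finite_Lev c b (l + 1)
  have hP : IsPGroup 2 φ.range := isPGroup_range c b (l + 1)
  -- the normal subgroup
  let N : Subgroup φ.range :=
    { carrier := {q | ∀ z, qm (algebraMap K W c) (q.1 z).1 = qm (algebraMap K W c) z.1}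
      one_mem' := fun z => rfl
      mul_mem' := by
        intro q q' hq hq' z
        have h1 := hq (q'.1 z)
        rw [hq' z] at h1
        exact h1
      inv_mem' := by
        intro q hq z
        have h1 := hq (q.1⁻¹ z)
        have h2 : q.1 (q.1⁻¹ z) = z := Equiv.apply_symm_apply _ _
        rw [h2] at h1
        exact h1.symm }
  have hN : N.Normal := by
    constructor
    rintro q hq ⟨p, g, rfl⟩ z
    set w : Lev W c b (l + 1) := (levHom W c b (l + 1) g)⁻¹ z with hw
    have h1 : levHom W c b (l + 1) g w = z := Equiv.apply_symm_apply _ _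
    have h2 := hq w
    show qm (algebraMap K W c) (g (q.1 w).1) = qm (algebraMap K W c) z.1
    rw [← aut_qm, h2, aut_qm, ← h1]
    rfl
  have hNfin : Finite N := inferInstance
  have hcard : 2 ∣ Nat.card N := by
    have hNP : IsPGroup 2 N := hP.to_subgroup N
    rcases hNP.card_eq_or_dvd with h | h
    · exfalso
      have hsub := (Nat.card_eq_one_iff_unique.1 h).1
      obtain ⟨z, hz, hne⟩ := hmv
      have h1 : (⟨⟨φ u, u, rfl⟩, fun w => by
          show qm (algebraMap K W c) (u w.1) = _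
          rw [← aut_qm, hu _ (Lev_qm.1 w.2)]⟩ : N) = 1 := Subsingleton.elim _ _
      have h2 := congrArg (fun n : N => (n.1.1 ⟨z, hz⟩).1) h1
      exact hne h2
    · exact h
  have hfix1 : (1 : N) ∈ MulAction.fixedPoints (ConjAct φ.range) N := by
    intro g
    exact smul_one g
  have hPc : IsPGroup 2 (ConjAct φ.range) := hP
  obtain ⟨n, hn, hn1⟩ := hPc.exists_fixed_point_of_prime_dvd_card_of_fixed_point N hcard hfix1
  obtain ⟨⟨q, g, hg⟩, hq⟩ := n
  subst hg
  have hgl : ∀ z ∈ Lev W c b (l + 1), g (qm (algebraMap K W c) z) = qm (algebraMap K W c) z := by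
    intro z hz
    rw [aut_qm]
    exact hq ⟨z, hz⟩
  have hcen : ∀ k : W ≃ₐ[K] W, ∀ z ∈ Lev W c b (l + 1), k (g z) = g (k z) := by
    intro k z hz
    have h1 := hn (ConjAct.toConjAct ⟨φ k, k, rfl⟩)
    have h2 := congrArg (fun n : N => n.1.1 ⟨k z, Lev_aut k hz⟩) h1
    have h3 := congrArg Subtype.val h2
    change k (g (k⁻¹ (k z))) = g (k z) at h3
    rw [← AlgEquiv.mul_apply k⁻¹ k, inv_mul_cancel, AlgEquiv.one_apply] at h3
    exact h3
  -- `g` moves some node
  obtain ⟨z₀, hz₀, hgz₀⟩ : ∃ z ∈ Lev W c b (l + 1), g z ≠ z := by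
    by_contra hno
    push Not at hno
    apply hn1
    apply Subtype.ext
    apply Subtype.ext
    ext z
    exact (hno z.1 z.2).symm
  have hneg : ∀ z ∈ Lev W c b (l + 1), g z = z ∨ g z = -z := fun z hz =>
    qm_eq_iff.1 ((aut_qm c g z).symm.trans (hgl z hz)).symm
  have h0 : g z₀ = -z₀ := (hneg z₀ hz₀).resolve_left hgz₀
  refine ⟨g, fun y hy => ?_, fun z hz => ?_⟩
  · have h1 : qm (algebraMap K W c) (rt (algebraMap K W c) y) = y := qm_rt _ _
    have h2 : rt (algebraMap K W c) y ∈ Lev W c b (l + 1) := by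
      rw [Lev_qm, h1]
      exact hy
    have h3 := hgl _ h2
    rw [h1] at h3
    exact h3
  · obtain ⟨k, hk⟩ := hT _ (Lev_qm.1 hz₀) _ (Lev_qm.1 hz)
    rw [aut_qm] at hk
    have h1 := hcen k z₀ hz₀
    rw [h0, map_neg] at h1
    rcases qm_eq_iff.1 hk with h2 | h2
    · rw [h2, ← h1]
    · rw [h2, map_neg, ← h1]

/-- a trivial level above a flip gives a square -/
theorem sq_of_triv [IsAlgClosed W] {c b : K} (h2 : (2 : W) ≠ 0)
    (hfix : ∀ x : W, (∀ g : W ≃ₐ[K] W, g x = x) → ∃ a : K, algebraMap K W a = x)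
    (hb : ∀ n, 1 ≤ n → (qm c)^[n] 0 ≠ b) {m : ℕ} (hT : Tran W c b m) (hF : FlipAt W c b m)
    (htr : ∀ g : W ≃ₐ[K] W, (∀ y ∈ Lev W c b (m + 1), g y = y) →
      ∀ z ∈ Lev W c b (m + 2), g z = z) :
    IsSquare ((qm c)^[m + 2] 0 - b) := by
  classical
  set C : W := algebraMap K W c with hC
  obtain ⟨h, hh0, hh1⟩ := hF
  have hLh : ∀ z ∈ Lev W c b (m + 2), qm C z ∈ Lev W c b (m + 1) := fun z hz => Lev_qm.1 hz
  -- `h` is an involution on the level `m + 2`
  have hhh : ∀ z ∈ Lev W c b (m + 2), h (h z) = z := by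
    intro z hz
    have h3 := htr (h * h) (fun y hy => by
      rw [AlgEquiv.mul_apply, hh1 y hy, map_neg, hh1 y hy, neg_neg]) z hz
    exact h3
  -- `h` commutes with everything on the level `m + 2`
  have hcomm : ∀ g : W ≃ₐ[K] W, ∀ z ∈ Lev W c b (m + 2), g (h z) = h (g z) := by
    intro g z hz
    have h3 := htr (h⁻¹ * (g⁻¹ * (h * g))) (fun y hy => by
      rw [AlgEquiv.mul_apply, AlgEquiv.mul_apply, AlgEquiv.mul_apply, hh1 _ (Lev_aut g hy), map_neg,
        ← AlgEquiv.mul_apply g⁻¹ g, inv_mul_cancel, AlgEquiv.one_apply]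
      apply h.injective
      rw [← AlgEquiv.mul_apply h h⁻¹, mul_inv_cancel, AlgEquiv.one_apply, hh1 y hy]) z hz
    rw [AlgEquiv.mul_apply, AlgEquiv.mul_apply, AlgEquiv.mul_apply] at h3
    have h4 := congrArg h h3
    rw [← AlgEquiv.mul_apply h h⁻¹, mul_inv_cancel, AlgEquiv.one_apply] at h4
    rw [← h4, ← AlgEquiv.mul_apply g g⁻¹, mul_inv_cancel, AlgEquiv.one_apply]
  -- a node on the level `m + 2`
  obtain ⟨z, hz⟩ : ∃ z, z ∈ Lev W c b (m + 2) := by
    have h3 : ∀ l, ∃ z, z ∈ Lev W c b l := by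
      intro l
      induction l with
      | zero => exact ⟨algebraMap K W b, rfl⟩
      | succ l ih =>
        obtain ⟨y, hy⟩ := ih
        refine ⟨rt C y, ?_⟩
        rw [Lev_qm, ← hC, qm_rt]
        exact hy
    exact h3 _
  set y : W := qm C z with hy
  set x : W := qm C y with hx
  have hyL : y ∈ Lev W c b (m + 1) := hLh z hz
  have hxL : x ∈ Lev W c b m := Lev_qm.1 hyL
  have hhz : (h z) ^ 2 = -y - C := by
    have h3 : h y = -y := hh1 y hyL
    have h4 : h (z ^ 2) = h (y - C) := by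
      congr 1
      simp only [hy, qm]
      ring
    rw [map_pow, map_sub, h3, h.commutes] at h4
    exact h4
  have hz2 : z ^ 2 = y - C := by
    simp only [hy, qm]
    ring
  set e : W := z * h z with he
  have he2 : e ^ 2 = (qm C)^[2] 0 - x := by
    have h3 : (qm C)^[2] 0 = C ^ 2 + C := by
      simp [qm]
    rw [he, mul_pow, hz2, hhz, h3, hx]
    simp only [qm]
    ring
  have hst : ∀ g : W ≃ₐ[K] W, g x = x → g e = e := by
    intro g hg
    have h3 : g y = y ∨ g y = -y := by
      rw [hx, aut_qm, ← hC, eq_comm, qm_eq_iff] at hg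
      exact hg
    have h4 : ∀ t ∈ Lev W c b (m + 2), qm C (g z) = qm C t → g e = t * h t := by
      intro t ht h5
      rw [he, map_mul, hcomm g z hz]
      rcases qm_eq_iff.1 h5 with h6 | h6
      · rw [h6]
      · have h7 : g z = -t := by rw [h6, neg_neg]
        rw [h7, map_neg, neg_mul_neg]
    rcases h3 with h3 | h3
    · refine h4 z hz ?_
      rw [← hy, ← h3, hy, hC, aut_qm]
    · have h5 := h4 (h z) (Lev_aut h hz) (by
        rw [hC, ← aut_qm, ← aut_qm, ← hC, ← hy, h3, hh1 y hyL])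
      rw [h5, hhh z hz, he, mul_comm]
  obtain ⟨Θ, hΘ1, hΘ2⟩ := orbProd (⊤ : Subgroup (W ≃ₐ[K] W)) (pre C m (algebraMap K W b)) x
    (fun g _ t ht => by
      rw [mem_pre] at ht ⊢
      exact Lev_aut g ht) (fun t ht => by
      rw [mem_pre] at ht
      obtain ⟨g, hg⟩ := hT x hxL t ht
      exact ⟨g, trivial, hg⟩) (mem_pre.2 hxL) (fun t => (qm C)^[2] 0 - t)
    (fun g _ t _ => by
      rw [map_sub, hC, aut_iter, map_zero]) e he2 (fun g _ hg => hst g hg)
  obtain ⟨a, ha⟩ := hfix Θ (fun g => hΘ1 g trivial)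
  refine ⟨a, ?_⟩
  apply (algebraMap K W).injective
  rw [map_mul, ← pow_two, ha, hΘ2, prod_sub h2 m (fun i _ t ht => ?_), map_sub, map_iter,
    ← Function.iterate_add_apply, map_zero]
  refine ne_of_Lev (l := i) hb ?_
  exact ht

/-- if the level `n` determines all the following ones, the levels are bounded -/
theorem exists_move [IsAlgClosed W] {c b : K} (h2 : (2 : W) ≠ 0)
    (hb : ∀ n, 1 ≤ n → (qm c)^[n] 0 ≠ b) (hT : ∀ l, Tran W c b l) (n : ℕ) :
    ∃ l, n ≤ l ∧ ∃ u : W ≃ₐ[K] W, (∀ y ∈ Lev W c b l, u y = y) ∧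
      ∃ z ∈ Lev W c b (l + 1), u z ≠ z := by
  classical
  by_contra hno
  push Not at hno
  have hall : ∀ e, ∀ u : W ≃ₐ[K] W, (∀ y ∈ Lev W c b n, u y = y) →
      ∀ z ∈ Lev W c b (n + e), u z = z := by
    intro e
    induction e with
    | zero => exact fun u hu => hu
    | succ e ih => exact fun u hu => hno (n + e) (Nat.le_add_right n e) u (ih u hu)
  have hfin : Finite (Lev W c b n) := finite_Lev c b n
  have hcard : ∀ e, 2 ^ (n + e) ≤ Nat.card (Lev W c b n → Lev W c b n) := by
    intro e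
    have h3 : ∃ z, z ∈ Lev W c b (n + e) := by
      have h3 : ∀ l, ∃ z, z ∈ Lev W c b l := by
        intro l
        induction l with
        | zero => exact ⟨algebraMap K W b, rfl⟩
        | succ l ih =>
          obtain ⟨y, hy⟩ := ih
          refine ⟨rt (algebraMap K W c) y, ?_⟩
          rw [Lev_qm, qm_rt]
          exact hy
      exact h3 _
    obtain ⟨z₀, hz₀⟩ := h3
    have h4 : ∀ z : Lev W c b (n + e), ∃ g : W ≃ₐ[K] W, g z₀ = z.1 := fun z => hT _ _ hz₀ _ z.2
    choose g hg using h4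
    have h5 : Nat.card (Lev W c b (n + e)) = 2 ^ (n + e) := by
      rw [← card_pre (c := algebraMap K W c) (x := algebraMap K W b) h2 (n + e)
        (fun i _ y hy => ne_of_Lev (l := i) hb hy)]
      have h6 : Lev W c b (n + e) =
          (pre (algebraMap K W c) (n + e) (algebraMap K W b) : Finset W) := by
        ext z
        rw [mem_coe, mem_pre]
        rfl
      rw [h6, Nat.card_coe_set_eq, Set.ncard_coe_finset]
    rw [← h5]
    refine Nat.card_le_card_of_injective (fun z => fun t => levHom W c b n (g z) t) ?_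
    intro z z' hzz
    have h6 := hall e ((g z)⁻¹ * g z') (fun y hy => by
      have h7 := congrArg Subtype.val (congrFun hzz ⟨y, hy⟩)
      change g z y = g z' y at h7
      rw [AlgEquiv.mul_apply, ← h7, ← AlgEquiv.mul_apply, inv_mul_cancel, AlgEquiv.one_apply]) z₀ hz₀
    apply Subtype.ext
    rw [← hg z, ← hg z']
    have h8 := congrArg (g z) h6
    rw [← AlgEquiv.mul_apply, ← mul_assoc, mul_inv_cancel, one_mul] at h8
    exact h8.symm
  obtain ⟨e, he⟩ : ∃ e, Nat.card (Lev W c b n → Lev W c b n) < 2 ^ (n + e) :=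
    ⟨Nat.card (Lev W c b n → Lev W c b n), lt_of_lt_of_le Nat.lt_two_pow_self
      (Nat.pow_le_pow_right two_pos (Nat.le_add_left _ _))⟩
  exact absurd (hcard e) (not_le.2 he)

/-- flips at all large levels, if the numbers `f^[l] 0 - b` are not squares for large `l` -/
theorem flips_of_not_sq [IsAlgClosed W] {c b : K} (h2 : (2 : W) ≠ 0)
    (hfix : ∀ x : W, (∀ g : W ≃ₐ[K] W, g x = x) → ∃ a : K, algebraMap K W a = x)
    (hb : ∀ n, 1 ≤ n → (qm c)^[n] 0 ≠ b) (hT : ∀ l, Tran W c b l) (n : ℕ)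
    (hsq : ∀ l, n ≤ l → ¬ IsSquare ((qm c)^[l] 0 - b)) : ∃ m, ∀ l, m ≤ l → FlipAt W c b l := by
  obtain ⟨m, hm, u, hu, hmv⟩ := exists_move h2 hb hT n
  refine ⟨m, fun l hl => ?_⟩
  induction l, hl using Nat.le_induction with
  | base => exact flip_of_move (hT m) u hu hmv
  | succ l hl ih =>
    by_contra hno
    apply hsq (l + 2) (by omega)
    refine sq_of_triv h2 hfix hb (hT l) ih (fun g hg z hz => ?_)
    by_contra hne
    exact hno (flip_of_move (hT (l + 1)) g hg ⟨z, hz, hne⟩)

end Pool.Agent.ORB.VQ
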