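import Pool.Agent.ORB.EvSt
import Pool.Agent.ORB.VBase

/-!
ORB, Theorem V, the prime 2: the number of orbits on the levels is bounded, so that the Galois group of
`K(r)` is transitive on the tree above `r` for all `r` of a high level.
-/

namespace Pool.Agent.ORB.VQ

open Polynomial IntermediateField NumberField IsDedekindDomain

universe u

section stab

variable {K W : Type*} [Field K] [Field W] [Algebra K W]

/-- the polynomial of the level `n` -/
noncomputable def lp (c b : K) : ℕ → K[X]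
  | 0 => X - C b
  | n + 1 => (lp c b n).comp (X ^ 2 + C c)

theorem lp_natDegree (c b : K) (n : ℕ) : (lp c b n).natDegree = 2 ^ n := by
  induction n with
  | zero => simp [lp]
  | succ n ih =>
    have h : (X ^ 2 + C c : K[X]).natDegree = 2 := natDegree_X_pow_add_C
    rw [lp, natDegree_comp, ih, h, pow_succ]

theorem lp_ne_zero (c b : K) (n : ℕ) : lp c b n ≠ 0 := by
  intro h
  have h1 := lp_natDegree c b n
  rw [h, natDegree_zero] at h1
  exact absurd h1.symm (by positivity)

theorem aeval_lp (c b : K) (n : ℕ) (z : W) :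
    aeval z (lp c b n) = (qm (algebraMap K W c))^[n] z - algebraMap K W b := by
  induction n generalizing z with
  | zero => simp [lp]
  | succ n ih =>
    rw [lp, aeval_comp, ih, Function.iterate_succ_apply]
    simp [qm]

theorem Lev_finite (c b : K) (n : ℕ) : (Lev W c b n).Finite := by
  refine ((lp c b n).rootSet_finite W).subset fun z hz => ?_
  rw [mem_rootSet]
  refine ⟨lp_ne_zero c b n, ?_⟩
  rw [aeval_lp, mem_Lev.1 hz, sub_self]

/-- the minimal polynomials of the points of a level -/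
def mps (W : Type*) [Field W] [Algebra K W] (c b : K) (n : ℕ) : Set K[X] := minpoly K '' Lev W c b n

theorem mps_finite (c b : K) (n : ℕ) : (mps W c b n).Finite := (Lev_finite c b n).image _

/-- the number of orbits is bounded -/
theorem mps_card [Algebra.IsAlgebraic K W] (c b : K) (n A : ℕ)
    (hA : ∀ z ∈ Lev W c b n, 2 ^ n ≤ A * (minpoly K z).natDegree) : (mps W c b n).ncard ≤ A := by
  classical
  have hfin := mps_finite (W := W) c b n
  have hfac : ∀ P ∈ hfin.toFinset, Irreducible P ∧ P.Monic ∧ P ∣ lp c b n ∧ 2 ^ n ≤ A * P.natDegree := by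
    intro P hP
    rw [Set.Finite.mem_toFinset] at hP
    obtain ⟨z, hz, rfl⟩ := hP
    have hint : IsIntegral K z := Algebra.IsIntegral.isIntegral z
    refine ⟨minpoly.irreducible hint, minpoly.monic hint, ?_, hA z hz⟩
    apply minpoly.dvd
    rw [aeval_lp, mem_Lev.1 hz, sub_self]
  have h1 : ∏ P ∈ hfin.toFinset, P ∣ lp c b n := by
    refine Finset.prod_dvd_of_coprime ?_ fun P hP => (hfac P hP).2.2.1
    intro P hP Q hQ hne
    obtain ⟨hP1, hP2, -, -⟩ := hfac P hP
    obtain ⟨hQ1, hQ2, -, -⟩ := hfac Q hQ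
    refine (hP1.coprime_iff_not_dvd).2 fun hd => hne ?_
    exact eq_of_monic_of_associated hP2 hQ2 (hP1.associated_of_dvd hQ1 hd)
  have h2 := natDegree_le_of_dvd h1 (lp_ne_zero c b n)
  rw [lp_natDegree, natDegree_prod_of_monic _ _ fun P hP => (hfac P hP).2.1] at h2
  have h3 : hfin.toFinset.card * 2 ^ n ≤ A * 2 ^ n := by
    calc hfin.toFinset.card * 2 ^ n = ∑ _P ∈ hfin.toFinset, 2 ^ n := by rw [Finset.sum_const, smul_eq_mul]
      _ ≤ ∑ P ∈ hfin.toFinset, A * P.natDegree := Finset.sum_le_sum fun P hP => (hfac P hP).2.2.2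
      _ = A * ∑ P ∈ hfin.toFinset, P.natDegree := by rw [Finset.mul_sum]
      _ ≤ A * 2 ^ n := Nat.mul_le_mul_left _ h2
  rw [Set.ncard_eq_toFinset_card _ hfin]
  exact Nat.le_of_mul_le_mul_right h3 (by positivity)

theorem exists_lift [IsAlgClosed W] (c : W) (l : ℕ) (y : W) : ∃ z : W, (qm c)^[l] z = y :=
  ⟨(rt c)^[l] y, Function.LeftInverse.iterate (fun y => qm_rt c y) l y⟩

/-- if the number of orbits does not grow then points with the same image are conjugate -/
theorem conj_of_card [IsAlgClosed W] [Normal K W] (c b : K) (k l : ℕ)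
    (h : (mps W c b (k + l)).ncard ≤ (mps W c b k).ncard) {z z' : W}
    (hz : z ∈ Lev W c b (k + l))
    (hzz : (qm (algebraMap K W c))^[l] z = (qm (algebraMap K W c))^[l] z') : IsConjRoot K z z' := by
  classical
  have hz' : z' ∈ Lev W c b (k + l) := by
    rw [Lev_iter] at hz ⊢
    rw [← hzz]
    exact hz
  have hex : ∀ P ∈ mps W c b k, ∃ z ∈ Lev W c b (k + l),
      minpoly K ((qm (algebraMap K W c))^[l] z) = P := by
    rintro P ⟨y, hy, rfl⟩
    obtain ⟨z, hz⟩ := exists_lift (algebraMap K W c) l y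
    refine ⟨z, ?_, by rw [hz]⟩
    rw [Lev_iter, hz]
    exact hy
  choose! s hs1 hs2 using hex
  -- conjugate points have conjugate images
  have hconj : ∀ u v : W, minpoly K u = minpoly K v →
      minpoly K ((qm (algebraMap K W c))^[l] u) = minpoly K ((qm (algebraMap K W c))^[l] v) := by
    intro u v huv
    obtain ⟨g, hg⟩ := IsConjRoot.exists_algEquiv (K := K) (L := W) huv
    rw [← hg, ← aut_iter]
    exact minpoly.algEquiv_eq g _
  have hsurj := Set.surj_on_of_inj_on_of_ncard_le (s := mps W c b k) (t := mps W c b (k + l))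
    (fun P _ => minpoly K (s P)) (fun P hP => ⟨s P, hs1 P hP, rfl⟩) (by
      intro P Q hP hQ hPQ
      have := hconj _ _ hPQ
      rw [hs2 P hP, hs2 Q hQ] at this
      exact this) h (mps_finite c b (k + l))
  obtain ⟨P, hP, hPz⟩ := hsurj _ ⟨z, hz, rfl⟩
  obtain ⟨Q, hQ, hQz⟩ := hsurj _ ⟨z', hz', rfl⟩
  have h1 : P = Q := by
    rw [← hs2 P hP, ← hs2 Q hQ, ← hconj _ _ hPz, ← hconj _ _ hQz, hzz]
  rw [isConjRoot_def, hPz, hQz, h1]

theorem mps_mono [IsAlgClosed W] [Normal K W] (c b : K) (k l : ℕ) :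
    (mps W c b k).ncard ≤ (mps W c b (k + l)).ncard := by
  classical
  have hex : ∀ P ∈ mps W c b k, ∃ z ∈ Lev W c b (k + l),
      minpoly K ((qm (algebraMap K W c))^[l] z) = P := by
    rintro P ⟨y, hy, rfl⟩
    obtain ⟨z, hz⟩ := exists_lift (algebraMap K W c) l y
    refine ⟨z, ?_, by rw [hz]⟩
    rw [Lev_iter, hz]
    exact hy
  choose! s hs1 hs2 using hex
  refine Set.ncard_le_ncard_of_injOn (fun P => minpoly K (s P)) (fun P hP => ⟨s P, hs1 P hP, rfl⟩) ?_
    (mps_finite c b (k + l))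
  intro P hP Q hQ hPQ
  obtain ⟨g, hg⟩ := IsConjRoot.exists_algEquiv (K := K) (L := W) hPQ
  rw [← hs2 P hP, ← hs2 Q hQ, ← hg, ← aut_iter]
  exact minpoly.algEquiv_eq g _

/-- bounded number of orbits: the stabilizer of a point of a high level is transitive above it -/
theorem exists_stab [IsAlgClosed W] [Normal K W] (c b : K) (A : ℕ)
    (hA : ∀ n, ∀ z ∈ Lev W c b n, 2 ^ n ≤ A * (minpoly K z).natDegree) :
    ∃ k₀, ∀ k, k₀ ≤ k → ∀ l, ∀ z ∈ Lev W c b (k + l), ∀ z' : W,
      (qm (algebraMap K W c))^[l] z = (qm (algebraMap K W c))^[l] z' → ∃ g : W ≃ₐ[K] W, g z = z' := by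
  have hbd : BddAbove (Set.range fun n => (mps W c b n).ncard) := by
    refine ⟨A, ?_⟩
    rintro _ ⟨n, rfl⟩
    exact mps_card c b n A (hA n)
  obtain ⟨k₀, hk₀⟩ := Nat.sSup_mem (Set.range_nonempty _) hbd
  refine ⟨k₀, fun k hk l z hz z' hzz => ?_⟩
  have h1 : (mps W c b (k + l)).ncard ≤ (mps W c b k).ncard := by
    calc (mps W c b (k + l)).ncard ≤ (mps W c b k₀).ncard := by
          have := le_csSup hbd ⟨k + l, rfl⟩
          rw [← hk₀] at this
          exact this
      _ ≤ (mps W c b k).ncard := by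
          obtain ⟨e, rfl⟩ := Nat.exists_eq_add_of_le hk
          exact mps_mono c b k₀ e
  exact IsConjRoot.exists_algEquiv (conj_of_card c b k l h1 hz hzz).symm

/-- transitivity over `K(r)` from transitivity of the stabilizer -/
theorem tran_adjoin (c b : K) (k : ℕ) {r : W} (hr : r ∈ Lev W c b k) (l : ℕ)
    (h : ∀ z ∈ Lev W c b (k + l), ∀ z' : W,
      (qm (algebraMap K W c))^[l] z = (qm (algebraMap K W c))^[l] z' → ∃ g : W ≃ₐ[K] W, g z = z') :
    Tran W (algebraMap K K⟮r⟯ c) (AdjoinSimple.gen K r) l := by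
  intro y hy y' hy'
  rw [mem_Lev, ← IsScalarTower.algebraMap_apply, AdjoinSimple.algebraMap_gen] at hy hy'
  obtain ⟨g, hg⟩ := h y (by rw [Lev_iter, hy]; exact hr) y' (by rw [hy, hy'])
  have hgr : g r = r := by
    rw [← hy, aut_iter, hg, hy', hy]
  have hmem : g ∈ K⟮r⟯.fixingSubgroup := by
    rw [IntermediateField.mem_fixingSubgroup_iff]
    have h1 : K⟮r⟯ ≤ IntermediateField.fixedField (Subgroup.zpowers g) := by
      rw [adjoin_simple_le_iff, IntermediateField.mem_fixedField_iff]
      intro f hf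
      obtain ⟨m, rfl⟩ := Subgroup.mem_zpowers_iff.1 hf
      exact Subgroup.zpow_mem (MulAction.stabilizer (W ≃ₐ[K] W) r) (x := g) hgr m
    intro x hx
    exact (IntermediateField.mem_fixedField_iff _ x).1 (h1 hx) g (Subgroup.mem_zpowers g)
  exact ⟨IntermediateField.fixingSubgroupEquiv K⟮r⟯ ⟨g, hmem⟩, hg⟩

end stab

theorem uf_two {F : Type*} [Field F] (c : F) : uf 2 c = qm c := rfl

/-- The prime 2: for all `r` of a high level the Galois group of `K(r)` is transitive on all levels of the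
tree above `r`. -/
theorem two_tran {K : Type u} [Field K] [NumberField K] (W : Type u) [Field W] [Algebra K W]
    [Algebra.IsAlgebraic K W] [IsAlgClosed W] (w : HeightOneSpectrum (𝓞 K))
    (hw : w.valuation K (2 : K) < 1) (c b : K) (hc : w.valuation K c ≤ 1)
    (hper : ∀ k, 1 ≤ k → (qm c)^[k] b ≠ b) :
    ∃ k₀, ∀ k, k₀ ≤ k → ∀ r ∈ Lev W c b k, ∀ l,
      Tran W (algebraMap K K⟮r⟯ c) (AdjoinSimple.gen K r) l := by
  have : Normal K W := normal_iff.2 fun x =>
    ⟨Algebra.IsIntegral.isIntegral x, IsAlgClosed.splits _⟩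
  have hw' : w.valuation K ((2 : ℕ) : K) < 1 := by exact_mod_cast hw
  obtain ⟨C, hC0, hC⟩ : ∃ C : ℕ, 0 < C ∧
      ∀ (M : Type u) [Field M] [NumberField M] [Algebra K M] (x : M) (n : ℕ),
        (uf 2 (algebraMap K M c))^[n] x = algebraMap K M b → 2 ^ n ≤ C * Module.finrank ℚ M := by
    rcases le_or_gt (w.valuation K b) 1 with hb | hb
    · exact evst_int Nat.prime_two w hw' c b hc hb hper
    · exact evst_bad le_rfl w c b hc hb
  have hA : ∀ n, ∀ z ∈ Lev W c b n, 2 ^ n ≤ (C * Module.finrank ℚ K) * (minpoly K z).natDegree := by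
    intro n z hz
    have hint : IsIntegral K z := Algebra.IsIntegral.isIntegral z
    have : FiniteDimensional K K⟮z⟯ := adjoin.finiteDimensional hint
    have : FiniteDimensional ℚ K⟮z⟯ := FiniteDimensional.trans ℚ K K⟮z⟯
    have : NumberField K⟮z⟯ := ⟨⟩
    have h1 := hC K⟮z⟯ (AdjoinSimple.gen K z) n (by
      rw [uf_two]
      apply (algebraMap K⟮z⟯ W).injective
      rw [map_iter, ← IsScalarTower.algebraMap_apply, ← IsScalarTower.algebraMap_apply,
        AdjoinSimple.algebraMap_gen]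
      exact hz)
    rw [← Module.finrank_mul_finrank ℚ K K⟮z⟯, adjoin.finrank hint] at h1
    rw [mul_assoc]
    exact h1
  obtain ⟨k₀, hk₀⟩ := exists_stab c b _ hA
  exact ⟨k₀, fun k hk r hr l => tran_adjoin c b k hr l fun z hz z' h => hk₀ k hk l z hz z' h⟩

end Pool.Agent.ORB.VQ
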