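import Pool.Agent.ORB.VEngine
import Pool.Agent.ORB.VDown
import Pool.Agent.ORB.VDesc
import Pool.Agent.ORB.VTwo
import Pool.Agent.ORB.VTriv
import Pool.Agent.ORB.VRunge

/-!
ORB, Theorem V: the extension property for the tame pairs and at the prime 2.
-/

namespace Pool.Agent.ORB.VQ

open IntermediateField IsDedekindDomain NumberField Polynomial

universe u

section
variable {K : Type*} [Field K] [NumberField K] {W : Type u} [Field W] [Algebra K W]
  [IsAlgClosed W] [Algebra.IsAlgebraic K W]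

omit [IsAlgClosed W] in
theorem numberField_adjoin (r : W) : NumberField K⟮r⟯ := by
  have hfin : FiniteDimensional K K⟮r⟯ :=
    adjoin.finiteDimensional (Algebra.IsAlgebraic.isAlgebraic (R := K) r).isIntegral
  have hQ : Module.Finite ℚ K⟮r⟯ := Module.Finite.trans (R := ℚ) K K⟮r⟯
  have hz : CharZero K⟮r⟯ := charZero_of_injective_algebraMap (algebraMap K K⟮r⟯).injective
  exact ⟨⟩

/-- From (T) and (F) at all nodes of one level to the extension property. -/
theorem ExtP_of_nodes {c b : K} (h0 : Function.Injective fun n : ℕ => (qm c)^[n] 0) (k : ℕ)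
    (hr : ∀ r ∈ Lev W c b k, ∀ n, 1 ≤ n → algebraMap K W ((qm c)^[n] 0) ≠ r)
    (hT : ∀ r ∈ Lev W c b k, ∀ l, Tran W (algebraMap K K⟮r⟯ c) (AdjoinSimple.gen K r) l)
    (hF : ∀ r ∈ Lev W c b k, ∃ l₀, ∀ l, l₀ ≤ l →
      FlipAt W (algebraMap K K⟮r⟯ c) (AdjoinSimple.gen K r) l) : ExtP W c b := by
  refine descent k fun r hrk => ?_
  obtain ⟨l₀, hl₀⟩ := hF r hrk
  have hnf : NumberField K⟮r⟯ := numberField_adjoin r
  have halg : Algebra.IsAlgebraic K⟮r⟯ W := Algebra.IsAlgebraic.tower_top (K := K) K⟮r⟯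
  have hz : (algebraMap K K⟮r⟯) 0 = 0 := map_zero _
  refine engine (fun n m hnm => h0 ?_) (fun n hn h => ?_) (hT r hrk) l₀ hl₀
  · show (qm c)^[n] 0 = (qm c)^[m] 0
    have h1 : (qm (algebraMap K K⟮r⟯ c))^[n] 0 = (qm (algebraMap K K⟮r⟯ c))^[m] 0 := hnm
    rw [← hz, ← map_iter, ← map_iter] at h1
    exact (algebraMap K K⟮r⟯).injective h1
  · rw [← hz, ← map_iter] at h
    apply hr r hrk n hn
    have h2 := congrArg (algebraMap K⟮r⟯ W) h
    rw [AdjoinSimple.algebraMap_gen, ← IsScalarTower.algebraMap_apply] at h2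
    exact h2

omit [NumberField K] [IsAlgClosed W] [Algebra.IsAlgebraic K W] in
/-- above a node of a high level there is nothing from the orbit of `0` -/
theorem orbit_avoid {c b : K} (h0 : Function.Injective fun n : ℕ => (qm c)^[n] 0) :
    ∃ k₀ : ℕ, ∀ k, k₀ ≤ k → ∀ r ∈ Lev W c b k, ∀ n, 1 ≤ n →
      algebraMap K W ((qm c)^[n] 0) ≠ r := by
  by_cases hb : ∃ m, (qm c)^[m] 0 = b
  · obtain ⟨m, hm⟩ := hb
    refine ⟨m, fun k hk r hr n hn h => ?_⟩
    rw [← h, mem_Lev, ← map_iter] at hr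
    have h1 := (algebraMap K W).injective hr
    rw [← Function.iterate_add_apply, ← hm] at h1
    have h2 : k + n = m := h0 h1
    omega
  · push Not at hb
    refine ⟨0, fun k _ r hr n _ h => ?_⟩
    rw [← h, mem_Lev, ← map_iter] at hr
    have h1 := (algebraMap K W).injective hr
    rw [← Function.iterate_add_apply] at h1
    exact hb _ h1

omit [NumberField K] [IsAlgClosed W] [Algebra.IsAlgebraic K W] in
/-- a level of a level -/
theorem Lev_adjoin {c b : K} {k m : ℕ} {r z : W} (hr : r ∈ Lev W c b k)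
    (hz : z ∈ Lev W (algebraMap K K⟮r⟯ c) (AdjoinSimple.gen K r) m) : z ∈ Lev W c b (k + m) := by
  rw [Lev_iter]
  have h1 : (qm (algebraMap K W c))^[m] z = r := hz
  rw [h1]
  exact hr

/-- **The tame case.** -/
theorem ExtP_tame {c b : K} (h0 : Function.Injective fun n : ℕ => (qm c)^[n] 0)
    (hb : ∀ n, 1 ≤ n → (qm c)^[n] 0 ≠ b) (h : TameOK c b) : ExtP W c b := by
  have h1 : IsAlgClosure K W := ⟨inferInstance, inferInstance⟩
  have h2 : IsGalois K W := isGalois_iff.2 ⟨inferInstance, inferInstance⟩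
  obtain ⟨a, ha⟩ := tame_node (Ω := W) h
  refine ExtP_of_nodes h0 a (fun r hr n hn h => ?_)
    (fun r hr l z hz z' hz' => trans_of_flips _ _ (ha r hr) l z z' hz hz')
    (fun r hr => ⟨0, fun l _ => ha r hr l⟩)
  rw [← h, mem_Lev, ← map_iter] at hr
  have h3 := (algebraMap K W).injective hr
  rw [← Function.iterate_add_apply] at h3
  exact hb _ (by omega) h3

omit [NumberField K] [IsAlgClosed W] [Algebra.IsAlgebraic K W] in
/-- over the field of a node -/
theorem node_hyps {c : K} (h0 : Function.Injective fun n : ℕ => (qm c)^[n] 0) {r : W}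
    (hr : ∀ n, 1 ≤ n → algebraMap K W ((qm c)^[n] 0) ≠ r) :
    (Function.Injective fun n : ℕ => (qm (algebraMap K K⟮r⟯ c))^[n] 0) ∧
      ∀ n, 1 ≤ n → (qm (algebraMap K K⟮r⟯ c))^[n] 0 ≠ AdjoinSimple.gen K r := by
  have hz : (algebraMap K K⟮r⟯) 0 = 0 := map_zero _
  refine ⟨fun n m hnm => h0 ?_, fun n hn h => ?_⟩
  · show (qm c)^[n] 0 = (qm c)^[m] 0
    have h1 : (qm (algebraMap K K⟮r⟯ c))^[n] 0 = (qm (algebraMap K K⟮r⟯ c))^[m] 0 := hnm
    rw [← hz, ← map_iter, ← map_iter] at h1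
    exact (algebraMap K K⟮r⟯).injective h1
  · rw [← hz, ← map_iter] at h
    apply hr n hn
    have h2 := congrArg (algebraMap K⟮r⟯ W) h
    rw [AdjoinSimple.algebraMap_gen, ← IsScalarTower.algebraMap_apply] at h2
    exact h2

/-- **The second tame case.** -/
theorem ExtP_small {c b : K} (h0 : Function.Injective fun n : ℕ => (qm c)^[n] 0)
    (hb : ∀ n, 1 ≤ n → (qm c)^[n] 0 ≠ b) (Q : HeightOneSpectrum (𝓞 K))
    (q2 : Q.valuation K (2 : K) = 1) (qc : Q.valuation K c < 1) (qb : Q.valuation K b < 1)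
    (hfix : qm c b ≠ b) : ExtP W c b := by
  obtain ⟨k, hk⟩ := tame_small (Ω := W) q2 qc qb hfix
  refine descent k fun r hrk => ?_
  have hnf : NumberField K⟮r⟯ := numberField_adjoin r
  have halg : Algebra.IsAlgebraic K⟮r⟯ W := Algebra.IsAlgebraic.tower_top (K := K) K⟮r⟯
  have hr : ∀ n, 1 ≤ n → algebraMap K W ((qm c)^[n] 0) ≠ r := by
    intro n hn h
    rw [← h, mem_Lev, ← map_iter] at hrk
    have h3 := (algebraMap K W).injective hrk
    rw [← Function.iterate_add_apply] at h3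
    exact hb _ (by omega) h3
  obtain ⟨h1, h2⟩ := node_hyps h0 hr
  exact ExtP_tame h1 h2 (hk r hrk)

end

section two
variable {K : Type u} [Field K] [NumberField K] {W : Type u} [Field W] [Algebra K W]
  [IsAlgClosed W] [Algebra.IsAlgebraic K W]

/-- flips over the field of a node -/
theorem flips_node {c : K} (h0 : Function.Injective fun n : ℕ => (qm c)^[n] 0)
    (hone : OneEscape K c) (r : W) (hr : ∀ n, 1 ≤ n → algebraMap K W ((qm c)^[n] 0) ≠ r)
    (hT : ∀ l, Tran W (algebraMap K K⟮r⟯ c) (AdjoinSimple.gen K r) l) :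
    ∃ m, ∀ l, m ≤ l → FlipAt W (algebraMap K K⟮r⟯ c) (AdjoinSimple.gen K r) l := by
  have hz : CharZero W := charZero_of_injective_algebraMap (algebraMap K W).injective
  have hnf : NumberField K⟮r⟯ := numberField_adjoin r
  have halg : Algebra.IsAlgebraic K⟮r⟯ W := Algebra.IsAlgebraic.tower_top (K := K) K⟮r⟯
  have hrc : r ≠ algebraMap K W c := by
    intro h
    refine hr 1 le_rfl ?_
    rw [h]
    congr 1
    simp [qm]
  have hm0 : (algebraMap K K⟮r⟯) 0 = 0 := map_zero _
  have h1 := runge_adjoin c h0 hone r (Algebra.IsAlgebraic.isAlgebraic (R := K) r).isIntegral hrc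
  obtain ⟨n₀, hn₀⟩ := Filter.eventually_atTop.1 h1
  refine flips_of_not_sq two_ne_zero fixed_of_closure (fun n hn h => ?_) hT n₀ fun l hl h => ?_
  · rw [← hm0, ← map_iter] at h
    apply hr n hn
    have h2 := congrArg (algebraMap K⟮r⟯ W) h
    rw [AdjoinSimple.algebraMap_gen, ← IsScalarTower.algebraMap_apply] at h2
    exact h2
  · obtain ⟨y, hy⟩ := h
    refine hn₀ l hl (y : W) y.2 ?_
    have h2 := congrArg (algebraMap K⟮r⟯ W) hy
    rw [← hm0, ← map_iter, map_sub, AdjoinSimple.algebraMap_gen,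
      ← IsScalarTower.algebraMap_apply, map_mul] at h2
    rw [sq]
    exact h2.symm

/-- **The case of the prime 2** -/
theorem ExtP_two {c b : K} (h0 : Function.Injective fun n : ℕ => (qm c)^[n] 0)
    (hper : ∀ k, 1 ≤ k → (qm c)^[k] b ≠ b) (w : HeightOneSpectrum (𝓞 K))
    (hw : w.valuation K (2 : K) < 1) (hc : w.valuation K c ≤ 1) (hone : OneEscape K c) :
    ExtP W c b := by
  obtain ⟨k₀, hk₀⟩ := two_tran W w hw c b hc hper
  obtain ⟨k₁, hk₁⟩ := orbit_avoid (W := W) (b := b) h0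
  exact ExtP_of_nodes h0 (max k₀ k₁) (hk₁ _ (le_max_right _ _)) (hk₀ _ (le_max_left _ _))
    fun r hr => flips_node h0 hone r (hk₁ _ (le_max_right _ _) r hr)
      (hk₀ _ (le_max_left _ _) r hr)

end two

end Pool.Agent.ORB.VQ
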