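import Pool.Agent.ORB.VMain
import Pool.Agent.ORB.VExt

/-!
ORB, Theorem V: the final local conditions on the pairs `(c, b)`, and the theorem.
-/

namespace Pool.Agent.ORB.VQ

open NumberField IsDedekindDomain Polynomial IntermediateField

universe u

/-- a prime of an extension above a given prime -/
theorem exists_above {K L : Type*} [Field K] [NumberField K] [Field L] [NumberField L] [Algebra K L]
    (v : HeightOneSpectrum (𝓞 K)) : ∃ P : HeightOneSpectrum (𝓞 L), P.asIdeal.LiesOver v.asIdeal := by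
  obtain ⟨⟨Q, hQ1, hQ2⟩⟩ := v.asIdeal.nonempty_primesOver (S := 𝓞 L)
  have hQ0 : Q ≠ ⊥ := Ideal.ne_bot_of_mem_primesOver v.ne_bot ⟨hQ1, hQ2⟩
  exact ⟨⟨Q, hQ1, hQ0⟩, hQ2⟩

theorem val_orbit_le {K Γ₀ : Type*} [Field K] [LinearOrderedCommGroupWithZero Γ₀] (v : Valuation K Γ₀) {c : K}
    (hc : v c ≤ 1) (n : ℕ) : v ((qm c)^[n] 0) ≤ 1 := by
  induction n with
  | zero => rw [Function.iterate_zero_apply, map_zero]; exact zero_le
  | succ n ih =>
    rw [Function.iterate_succ_apply']
    refine v.map_add_le ?_ hc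
    rw [map_pow]
    exact pow_le_one₀ zero_le ih

/-- the preimages of a small point are small -/
theorem val_small_of_iter {K Γ₀ : Type*} [Field K] [LinearOrderedCommGroupWithZero Γ₀] (v : Valuation K Γ₀)
    {c x : K} (hc : v c < 1) {n : ℕ} (h : v ((qm c)^[n] x) < 1) : v x < 1 := by
  induction n with
  | zero => exact h
  | succ n ih =>
    apply ih
    rw [Function.iterate_succ_apply'] at h
    set y := (qm c)^[n] x
    have h4 : v (y ^ 2) < 1 := by
      have e : y ^ 2 = qm c y - c := by simp [qm]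
      rw [e]
      exact lt_of_le_of_lt (v.map_sub _ _) (max_lt h hc)
    rw [map_pow] at h4
    by_contra hcon
    exact absurd h4 (not_lt.2 (one_le_pow₀ (not_lt.1 hcon)))

section
variable {K : Type*} [Field K] [NumberField K] {W : Type u} [Field W] [Algebra K W]
  [IsAlgClosed W] [Algebra.IsAlgebraic K W]

/-- the second tame case, without a condition on the orbit of `0` -/
theorem ExtP_small' {c b : K} (h0 : Function.Injective fun n : ℕ => (qm c)^[n] 0)
    (Q : HeightOneSpectrum (𝓞 K)) (q2 : Q.valuation K (2 : K) = 1) (qc : Q.valuation K c < 1)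
    (qb : Q.valuation K b < 1) (hfix : qm c b ≠ b) : ExtP W c b := by
  obtain ⟨k, hk⟩ := orbit_avoid (W := W) (b := b) h0
  refine descent k fun r hrk => ?_
  have hnf : NumberField K⟮r⟯ := numberField_adjoin r
  have halg : Algebra.IsAlgebraic K⟮r⟯ W := Algebra.IsAlgebraic.tower_top (K := K) K⟮r⟯
  obtain ⟨h1, h2⟩ := node_hyps h0 (hk k le_rfl r hrk)
  obtain ⟨P, hP⟩ := exists_above (L := K⟮r⟯) Q
  -- the node over the field `K(r)`
  have hnode : (qm (algebraMap K K⟮r⟯ c))^[k] (AdjoinSimple.gen K r) = algebraMap K K⟮r⟯ b := by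
    apply (algebraMap K⟮r⟯ W).injective
    rw [map_iter, AdjoinSimple.algebraMap_gen, ← IsScalarTower.algebraMap_apply,
      ← IsScalarTower.algebraMap_apply]
    exact hrk
  refine ExtP_small h1 h2 P ?_ ((val_lt_iff Q P c).2 qc) ?_ ?_
  · have h3 := (val_eq_iff Q P 2).2 q2
    rwa [map_ofNat] at h3
  · refine val_small_of_iter (P.valuation K⟮r⟯) (c := algebraMap K K⟮r⟯ c) ((val_lt_iff Q P c).2 qc) (n := k) ?_
    rw [hnode]
    exact (val_lt_iff Q P b).2 qb
  · intro h3
    apply hfix
    apply (algebraMap K K⟮r⟯).injective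
    have h4 : ∀ n, (qm (algebraMap K K⟮r⟯ c))^[n] (AdjoinSimple.gen K r) = AdjoinSimple.gen K r := by
      intro n
      induction n with
      | zero => rfl
      | succ n ih => rw [Function.iterate_succ_apply', ih, h3]
    rw [h4 k] at hnode
    rw [map_qm, ← hnode, h3]

end

/-- the conditions on the pair `(c, b)`: the critical point `0` of `x ^ 2 + c` has an infinite orbit, and either there
is a prime `v` of odd residue characteristic at which `c` is integral and `b` is not integral or both `c` and `b` are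
divisible by `v`; or there is a prime `w` above `2` at which `c` is integral, and the orbit of `0` is unbounded at
exactly one place -/
def GoodPair (K : Type*) [Field K] [NumberField K] (c b : K) : Prop :=
  (Function.Injective fun n : ℕ => (qm c)^[n] 0) ∧
    ((∃ v : HeightOneSpectrum (𝓞 K), TameAt (v.valuation K) c b) ∨
      ((∃ w : HeightOneSpectrum (𝓞 K), w.valuation K 2 < 1 ∧ w.valuation K c ≤ 1) ∧ OneEscape K c))

theorem GoodPair.tg {K : Type*} [Field K] [NumberField K] {c b b' : K} (h : GoodPair K c b) (hb' : b' ∈ tg c b) :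
    GoodPair K c b' := by
  refine ⟨h.1, ?_⟩
  rcases h.2 with ⟨v, hv⟩ | h2
  · exact Or.inl ⟨v, hv.tg hb'⟩
  · exact Or.inr h2

theorem GoodPair.extP {K : Type u} [Field K] [NumberField K] {W : Type u} [Field W] [Algebra K W]
    [IsAlgClosed W] [Algebra.IsAlgebraic K W] {c b : K} (h : GoodPair K c b)
    (hnp : ∀ m, 1 ≤ m → (qm c)^[m] b ≠ b) : ExtP W c b := by
  obtain ⟨h0, ⟨v, h2, hc, hb | ⟨hc1, hb⟩⟩ | ⟨⟨w, hw, hc⟩, hone⟩⟩ := h
  · refine ExtP_tame h0 (fun n _ hn => ?_) ⟨v, h2, hc, lt_of_le_of_lt hc hb, hb.ne'⟩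
    have := val_orbit_le (v.valuation K) hc n
    rw [hn] at this
    exact absurd hb (not_lt.2 this)
  · exact ExtP_small' h0 v h2 hc1 hb (fun h => hnp 1 le_rfl h)
  · exact ExtP_two h0 hnp w hw hc hone

/-- **Theorem V together with Theorem I**: the maps `f i` with `i ∈ Q` are conjugate over `K` to iterates of quadratic
polynomials `x ^ 2 + c` such that `(c, b)` is a good pair, where `b` corresponds to `β i` (if it is finite); the other
indices are divided into blocks as in Theorem I. -/
theorem thmV_final {K : Type u} [Field K] [NumberField K] {ι J : Type} [Finite ι] [Finite J]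
    (f : ι → RatFunc K) (hf : ∀ i, 2 ≤ rdeg (f i)) (α β : ι → OnePoint K)
    (hαβ : ∀ i n, (ract (RingHom.id K) (f i))^[n] (α i) ≠ β i) (Q : Set ι)
    (hQ : ∀ i ∈ Q, QuadConj (GoodPair K) (f i) (β i)) (blk : ι → J) (E : J → ℕ)
    (hE : ∀ j j', j ≠ j' → Nat.Coprime (E j) (E j')) (hexp : ∀ i, i ∉ Q → RHasExp (E (blk i)) (f i))
    (hblk : ∀ j, OrbitBlock (fun i : {i // i ∉ Q ∧ blk i = j} => f i.1)
        (fun i : {i // i ∉ Q ∧ blk i = j} => β i.1) ∨
      PrimeBlock (fun i : {i // i ∉ Q ∧ blk i = j} => f i.1)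
        (fun i : {i // i ∉ Q ∧ blk i = j} => β i.1) ∨
      ∀ i, i ∉ Q → blk i = j → TorusMap (algebraMap K (AlgebraicClosure K)) (f i)) :
    PosDensity (RAvoidSet f α β) :=
  thmV (fun _ _ h hnp => h.extP hnp) (fun _ _ _ h hb' => h.tg hb') f hf α β hαβ Q hQ blk E hE hexp hblk

end Pool.Agent.ORB.VQ
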