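import Pool.Agent.ORB.UThm
import Pool.Agent.ORB.VLoc

/-!
ORB, Theorem B, assembly, first part: `Provides` in terms of one automorphism of an algebraic closure; `Provides`
for the wandering indices is enough; a core from `Provides`.
-/

namespace Pool.Agent.ORB

open NumberField IsDedekindDomain Polynomial

universe u

section W
variable {K W : Type u} [Field K] [NumberField K] [Field W] [Algebra K W] [IsAlgClosed W]
  [Algebra.IsAlgebraic K W] {I : Type}

omit [NumberField K] in
/-- a target above a point is a target of that point -/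
theorem tgt_lower {f : RP K} {β : OnePoint K} {L : Type*} [Field L] [Algebra K L] {N0 N : ℕ} (h : N0 ≤ N)
    {x : OnePoint L} (hx : IsTgt f β L ((f.map (algebraMap K L)).act^[N] x)) :
    IsTgt f β L ((f.map (algebraMap K L)).act^[N0] ((f.map (algebraMap K L)).act^[N - N0] x)) := by
  rw [← Function.iterate_add_apply]
  have e : N0 + (N - N0) = N := by omega
  rw [e]
  exact hx

omit [NumberField K] [IsAlgClosed W] [Algebra.IsAlgebraic K W] in
theorem tgtlev_finite (f : RP K) (hf : 1 ≤ f.d) (β : OnePoint K) (N : ℕ) :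
    {z : W | IsTgt f β W ((f.map (algebraMap K W)).act^[N] (z : OnePoint W))}.Finite := by
  have h1 := finite_tgt f hf β W
  have h2 : 1 ≤ ((f.map (algebraMap K W)).iter N).d := by
    rw [RP.iter_d]
    exact Nat.one_le_pow _ _ hf
  refine (((f.map (algebraMap K W)).iter N).finite_fiber h2 _ h1).subset fun z hz => ?_
  show ((f.map (algebraMap K W)).iter N).act (z : OnePoint W) ∈ {y | IsTgt f β W y}
  rw [RP.act_iter]
  exact hz

/-- from one automorphism of an algebraic closure to `Provides` -/
theorem provides_of_W (f : I → RP K) (β : I → OnePoint K)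
    (h : ∀ (F : Type u) [Field F] [NumberField F] [Algebra K F] [Algebra F W] [IsScalarTower K F W],
      ∃ (N : ℕ) (s : W ≃ₐ[F] W), ∀ i (x : OnePoint W),
        IsTgt (f i) (β i) W (((f i).map (algebraMap K W)).act^[N] x) → pmap (s : W →+* W) x ≠ x) :
    Provides f β := by
  intro K' _ _ _
  have haK' : Algebra.IsAlgebraic K K' := Algebra.IsAlgebraic.tower_top (K := ℚ) K
  let ψ' : K' →ₐ[K] W := IsAlgClosed.lift
  let _ : Algebra K' W := ψ'.toRingHom.toAlgebra
  have hst' : IsScalarTower K K' W := IsScalarTower.of_algebraMap_eq fun x => (ψ'.commutes x).symm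
  have haW : Algebra.IsAlgebraic K' W := Algebra.IsAlgebraic.tower_top (K := K) K'
  obtain ⟨N0, s, hs⟩ := h K'
  refine ⟨N0, fun N hN L _ _ _ _ _ _ => ?_⟩
  have hgal : IsGalois K' L := IsGalois.tower_top_of_isGalois ℚ K' L
  obtain ⟨ψ, σ, hσ⟩ := restrict_aut (F := K') (L := L) s
  refine ⟨σ, fun i x hx hfix => ?_⟩
  let _ : Algebra L W := ψ.toRingHom.toAlgebra
  have hst : IsScalarTower K L W := by
    refine IsScalarTower.of_algebraMap_eq fun x => ?_
    show _ = ψ (algebraMap K L x)
    rw [IsScalarTower.algebraMap_apply K K' L, ψ.commutes, ← IsScalarTower.algebraMap_apply]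
  set g := (f i).map (algebraMap K L) with hg
  have hσK : ∀ x : K, (σ : L →+* L) (algebraMap K L x) = algebraMap K L x := by
    intro x
    rw [IsScalarTower.algebraMap_apply K K' L]
    exact σ.commutes _
  have hfix' := pmap_fix_iterate (f i) (σ : L →+* L) hσK hfix (N - N0)
  rw [← hg] at hfix'
  have hx' := tgt_lower hN hx
  rw [← hg] at hx'
  set y := g.act^[N - N0] x with hy
  refine hs i (pmap (algebraMap L W) y) ?_ ?_
  · have h1 : (f i).map (algebraMap K W) = g.map (algebraMap L W) := by
      rw [hg, RP.map_map, ← IsScalarTower.algebraMap_eq]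
    rw [h1, RP.act_map_iterate, isTgt_map]
    exact hx'
  · have h2 : pmap (s : W →+* W) (pmap (algebraMap L W) y) = pmap (algebraMap L W) (pmap (σ : L →+* L) y) := by
      rw [pmap_comp, pmap_comp]
      congr 1
      exact RingHom.ext fun z => (hσ z).symm
    rw [h2, hfix']

/-- from `Provides` to one automorphism of an algebraic closure -/
theorem Provides.toW [Finite I] {f : I → RP K} (hf : ∀ i, 1 ≤ (f i).d) {β : I → OnePoint K}
    (h : Provides f β) (F : Type u) [Field F] [NumberField F] [Algebra K F] [Algebra F W] [IsScalarTower K F W] :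
    ∃ (N : ℕ) (s : W ≃ₐ[F] W), ∀ i (x : OnePoint W),
      IsTgt (f i) (β i) W (((f i).map (algebraMap K W)).act^[N] x) → pmap (s : W →+* W) x ≠ x := by
  obtain ⟨N, hN⟩ := h F
  have haFW : Algebra.IsAlgebraic F W := Algebra.IsAlgebraic.tower_top (K := K) F
  obtain ⟨L, _, _, _, _, hstL, hgalL, hTL⟩ := exists_gal (F := F)
    (⋃ i, {z : W | IsTgt (f i) (β i) W (((f i).map (algebraMap K W)).act^[N] (z : OnePoint W))})
    (Set.finite_iUnion fun i => tgtlev_finite (f i) (hf i) (β i) N)
  let algKL : Algebra K L := ((algebraMap F L).comp (algebraMap K F)).toAlgebra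
  have hst1 : IsScalarTower K F L := IsScalarTower.of_algebraMap_eq fun x => rfl
  have hst2 : IsScalarTower K L W := IsScalarTower.of_algebraMap_eq fun x => by
    rw [IsScalarTower.algebraMap_apply K F W, IsScalarTower.algebraMap_apply K F L,
      ← IsScalarTower.algebraMap_apply F L W]
  obtain ⟨σ, hσ⟩ := hN N le_rfl L
  have hcl : IsAlgClosure F W := ⟨inferInstance, inferInstance⟩
  have hn : Normal F W := IsAlgClosure.normal F W
  have hgal : IsGalois F L := IsGalois.tower_top_of_isGalois ℚ F L
  refine ⟨N, σ.liftNormal W, fun i x hx hfix => ?_⟩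
  have hs : ∀ y : L, σ.liftNormal W (algebraMap L W y) = algebraMap L W (σ y) := fun y =>
    σ.liftNormal_commutes W y
  have hx' : ∃ x' : OnePoint L, pmap (algebraMap L W) x' = x := by
    induction x using OnePoint.rec with
    | infty => exact ⟨OnePoint.infty, rfl⟩
    | coe z =>
      obtain ⟨y, hy⟩ := hTL z (Set.mem_iUnion.2 ⟨i, hx⟩)
      exact ⟨(y : OnePoint L), by rw [pmap_coe, hy]⟩
  obtain ⟨x', rfl⟩ := hx'
  refine hσ i x' ?_ ?_
  · have h1 : (f i).map (algebraMap K W) = ((f i).map (algebraMap K L)).map (algebraMap L W) := by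
      rw [RP.map_map, ← IsScalarTower.algebraMap_eq]
    rw [h1, RP.act_map_iterate, isTgt_map] at hx
    exact hx
  · apply pmap_injective (algebraMap L W)
    conv_rhs => rw [← hfix]
    rw [pmap_comp, pmap_comp]
    congr 1
    exact RingHom.ext fun z => (hs z).symm

end W

theorem Provides.comp {K : Type u} [Field K] [NumberField K] {I I' : Type} {f : I → RP K} {β : I → OnePoint K}
    (h : Provides f β) (e : I' → I) : Provides (fun i => f (e i)) (fun i => β (e i)) := by
  intro K' _ _ _
  obtain ⟨N0, hN⟩ := h K'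
  refine ⟨N0, fun N hle L _ _ _ _ _ _ => ?_⟩
  obtain ⟨σ, hσ⟩ := hN N hle L
  exact ⟨σ, fun i => hσ (e i)⟩

/-- places from automorphisms -/
theorem places_of_auto {K : Type u} [Field K] [NumberField K] {I : Type} [Finite I] (f : I → RP K)
    (hf : ∀ i, 2 ≤ (f i).d) (β : I → OnePoint K) (N : ℕ)
    (hN : ∀ (L : Type u) [Field L] [NumberField L] [Algebra K L] [IsGalois ℚ L],
      ∃ σ : L ≃ₐ[ℚ] L, (∀ x : K, σ (algebraMap K L x) = algebraMap K L x) ∧ ∀ i (x : OnePoint L),
        ((f i).map (algebraMap K L)).act^[N] x = pmap (algebraMap K L) (β i) →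
          pmap (σ : L →+* L) x ≠ x) (bad : Finset ℕ) :
    ∃ v : HeightOneSpectrum (𝓞 K), Off v bad ∧ ∀ i, RNonPer v (f i) (β i) := by
  classical
  have hq : ∀ i, ((f i).iter N).q (β i) ≠ 0 := by
    intro i
    refine RP.q_ne_zero _ ?_ _
    rw [RP.iter_d]
    exact Nat.pow_pos (by have := hf i; omega)
  obtain ⟨L, _, _, _, hGal, hsplit⟩ := exists_closure (fun i => ((f i).iter N).q (β i)) hq
  obtain ⟨σ, hσ, hmove⟩ := hN L
  have hr : ∀ i, ∀ r : L, aeval r (((f i).iter N).q (β i)) = 0 → σ r ≠ r := by
    intro i r hr hfix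
    have h1 : ((f i).map (algebraMap K L)).act^[N] (r : OnePoint L) = pmap (algebraMap K L) (β i) := by
      rw [aeval_def, ← eval_map, RP.map_q, RP.map_iter, RP.q_root, RP.act_iter] at hr
      exact hr
    apply hmove i (r : OnePoint L) h1
    rw [pmap_coe]
    exact congrArg _ hfix
  have hinf : ∀ i, (f i).act^[N] OnePoint.infty ≠ β i := by
    intro i hi
    apply hmove i OnePoint.infty
    · rw [← pmap_infty (algebraMap K L), RP.act_map_iterate, hi]
    · rfl
  have hS := (posDensity_of_rootless σ hσ _ hq hsplit hr).infinite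
  have hfin : ({v : HeightOneSpectrum (𝓞 K) | ¬ Off v bad} ∪
      ⋃ i, ({v : HeightOneSpectrum (𝓞 K) | ¬ (f i).Good (v.valuation K)} ∪
        {v : HeightOneSpectrum (𝓞 K) | ¬ PtInt v (β i)} ∪
        {v : HeightOneSpectrum (𝓞 K) | SameRed v ((f i).act^[N] OnePoint.infty) (β i)})).Finite := by
    refine (finite_not_off bad).union (Set.finite_iUnion (fun i => ?_))
    exact ((RP.finite_not_good (f i)).union (finite_not_ptInt (β i))).union (finite_sameRed (hinf i))
  obtain ⟨v, hv1, hv2⟩ := (hS.sdiff hfin).nonempty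
  simp only [Set.mem_union, Set.mem_iUnion, Set.mem_ofPred_eq, not_or, not_not, not_exists] at hv2
  obtain ⟨hoff, hv2⟩ := hv2
  refine ⟨v, hoff, ?_⟩
  intro i m hm hsame
  obtain ⟨⟨hg, hpt⟩, hninf⟩ := hv2 i
  have h1 : SameRed v ((f i).act^[m * (N + 1)] (β i)) (β i) := iterate_mul_sameRed hg hsame (N + 1)
  have e1 : m * (N + 1) = N + (m * (N + 1) - N) := by
    have : N + 1 ≤ m * (N + 1) := Nat.le_mul_of_pos_left _ hm
    omega
  rw [e1, Function.iterate_add_apply] at h1
  generalize (f i).act^[m * (N + 1) - N] (β i) = x at h1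
  induction x using OnePoint.rec with
  | infty => exact hninf h1
  | coe a =>
    by_cases ha : v.valuation K a ≤ 1
    · apply hv1 i
      refine ⟨a, ha, ?_⟩
      have h2 := (hg.iter N).q_lt_iff hpt ha
      rw [RP.act_iter] at h2
      exact h2.2 h1
    · have h2 : SameRed v (a : OnePoint K) OnePoint.infty := by
        refine Or.inl ⟨?_, ?_⟩
        · intro b hb
          rw [OnePoint.coe_eq_coe] at hb
          rw [← hb]
          exact not_le.1 ha
        · intro b hb
          exact absurd hb.symm (OnePoint.coe_ne_infty _)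
      exact hninf (((hg.sameRed_iterate h2 N).symm).trans h1)

/-- `Provides` for the wandering indices is enough (row N15) -/
theorem provides_of_wander {K : Type u} [Field K] [NumberField K] {I : Type} [Finite I] (f : I → RP K)
    (hf : ∀ i, 2 ≤ (f i).d) (β : I → OnePoint K)
    (h : Provides (fun i : {i // Function.Injective fun n : ℕ => (f i).act^[n] (β i)} => f i.1)
      (fun i => β i.1)) : Provides f β := by
  classical
  refine provides_of_places f hf β ?_
  intro bad K' _ _ _
  obtain ⟨N0, hN⟩ := h K'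
  obtain ⟨v, hv1, hv2⟩ := places_of_auto
    (fun i : {i // Function.Injective fun n : ℕ => (f i).act^[n] (β i)} => (f i.1).map (algebraMap K K'))
    (fun i => hf i.1) (fun i => pmap (algebraMap K K') (β i.1)) N0 (fun L _ _ _ _ => by
      let algKL : Algebra K L := ((algebraMap K' L).comp (algebraMap K K')).toAlgebra
      have hst : IsScalarTower K K' L := IsScalarTower.of_algebraMap_eq fun x => rfl
      obtain ⟨σ, hσ⟩ := hN N0 le_rfl L
      refine ⟨σ.restrictScalars ℚ, fun x => σ.commutes x, fun i x hx hfix => ?_⟩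
      rw [RP.map_map, pmap_comp, ← IsScalarTower.algebraMap_eq] at hx
      refine hσ i x ?_ hfix
      show IsTgt (f i.1) (β i.1) L (((f i.1).map (algebraMap K L)).act^[N0] x)
      rw [hx]
      refine ⟨fun m hm hper => ?_, Or.inl rfl⟩
      rw [RP.act_map_iterate] at hper
      have h1 := pmap_injective _ hper
      have h2 := i.2 (show (fun n : ℕ => (f i.1).act^[n] (β i.1)) m = (fun n : ℕ => (f i.1).act^[n] (β i.1)) 0 from h1)
      omega) bad
  refine ⟨K', inferInstance, inferInstance, inferInstance, Algebra.id K', v, inferInstance, hv1, ?_⟩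
  intro i hi
  exact hv2 ⟨i, hi⟩

/-- a family with `Provides` has a core -/
theorem core_of_provides1 {K : Type u} [Field K] [NumberField K] {I : Type} [Finite I] (f : I → RP K)
    (hf : ∀ i, 2 ≤ (f i).d) (β : I → OnePoint K) (h : Provides f β) :
    Core {S : Set (HeightOneSpectrum (𝓞 K)) | ∃ α : I → OnePoint K,
      (∀ i n, (f i).act^[n] (α i) ≠ β i) ∧ S = PAvoidSet f α β} := by
  intro K3 _ _ _
  classical
  let W := AlgebraicClosure K3
  have haK3 : Algebra.IsAlgebraic K K3 := Algebra.IsAlgebraic.tower_top (K := ℚ) K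
  have haW : Algebra.IsAlgebraic K W := Algebra.IsAlgebraic.trans K K3 W
  obtain ⟨N, s, hmove⟩ := h.toW (W := W) (fun i => le_trans one_le_two (hf i)) K3
  choose G hG0 hGroot hGcol using fun i => rtarget (f i) (hf i) (β i) N
  have hinf : ∀ i, ¬ IsTgt (f i) (β i) K ((f i).act^[N] OnePoint.infty) := by
    intro i hi
    rw [← isTgt_map (K := K) (L := K) (M := W), ← RP.act_map_iterate, pmap_infty] at hi
    exact hmove i OnePoint.infty hi rfl
  refine coreAt_of_aut K3 (J := I) G hG0 ?_ W s ?_
  · rintro S ⟨α, hα, rfl⟩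
    have hfin : (⋃ i, {v : HeightOneSpectrum (𝓞 K) | (∃ n, SameRed v ((f i).act^[n] (α i)) (β i)) ∧
        ¬ HasRoot v (G i)}).Finite :=
      Set.finite_iUnion (fun i => hGcol i (hinf i) (α i) (hα i))
    refine hfin.subset ?_
    rintro v ⟨hv1, hv2⟩
    simp only [PAvoidSet, Set.mem_ofPred_eq, not_forall, not_not] at hv1
    obtain ⟨i, n, hin⟩ := hv1
    rw [Set.mem_iUnion]
    exact ⟨i, ⟨n, hin⟩, hv2 i⟩
  · intro L _ _ _ _ _ ψ i r hr hzf
    let _ : Algebra L W := ψ.toRingHom.toAlgebra
    have hst : IsScalarTower K L W := by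
      refine IsScalarTower.of_algebraMap_eq fun x => ?_
      show _ = ψ (algebraMap K L x)
      rw [IsScalarTower.algebraMap_apply K K3 L, ψ.commutes, ← IsScalarTower.algebraMap_apply]
    apply hmove i (pmap (algebraMap L W) (r : OnePoint L))
    · have h1 : (f i).map (algebraMap K W) = ((f i).map (algebraMap K L)).map (algebraMap L W) := by
        rw [RP.map_map, ← IsScalarTower.algebraMap_eq]
      rw [h1, RP.act_map_iterate, isTgt_map]
      exact hGroot i L r hr
    · rw [pmap_coe, pmap_coe]
      exact congrArg _ hzf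

end Pool.Agent.ORB
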