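import Pool.Agent.ORB.Rootless
import Pool.Agent.ORB.FrobEx
import Pool.Agent.ORB.PrimeSums

/-! ORB: if for one large prime `p` the points `β_i` are not values of the `f_i` modulo `p`, then Q1 holds. -/

namespace Pool.Agent.ORB.OneP

open NumberField IsDedekindDomain Polynomial

universe u

section
variable {L : Type*} [Field L] [NumberField L] {p : ℕ} {P : Ideal (𝓞 L)}

theorem int_mem_iff (hp : p.Prime) (hP : P.IsPrime) (hpP : (p : 𝓞 L) ∈ P) (n : ℤ) :
    (n : 𝓞 L) ∈ P ↔ (p : ℤ) ∣ n := by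
  constructor
  · intro h
    by_contra hn
    have h1 : IsCoprime (p : ℤ) n := (Nat.prime_iff_prime_int.mp hp).coprime_iff_not_dvd.mpr hn
    obtain ⟨a, b, hab⟩ := h1
    apply hP.ne_top
    rw [Ideal.eq_top_iff_one]
    have h2 : (1 : 𝓞 L) = (a : 𝓞 L) * (p : 𝓞 L) + (b : 𝓞 L) * (n : 𝓞 L) := by
      exact_mod_cast congrArg (Int.cast : ℤ → 𝓞 L) hab.symm
    rw [h2]
    exact P.add_mem (P.mul_mem_left _ hpP) (P.mul_mem_left _ h)
  · rintro ⟨k, rfl⟩
    push_cast
    exact P.mul_mem_right _ hpP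

end

theorem normal_change {K : Type*} [Field K] (A B : Algebra ℚ K) (h : @Normal ℚ K _ _ A) :
    @Normal ℚ K _ _ B := by
  have h1 : B = A := Subsingleton.elim _ _
  rw [h1]
  exact h

section
variable {K : Type u} [Field K] [NumberField K]

/-- growth of a polynomial with integral coefficients and leading coefficient a unit -/
theorem val_eval {v : HeightOneSpectrum (𝓞 K)} {f : K[X]} (hc : ∀ j, v.valuation K (f.coeff j) ≤ 1)
    (hl : v.valuation K f.leadingCoeff = 1) {y : K} (hy : 1 < v.valuation K y) :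
    v.valuation K (f.eval y) = v.valuation K y ^ f.natDegree := by
  have hy0 : v.valuation K y ≠ 0 := (lt_trans zero_lt_one hy).ne'
  rw [eval_eq_sum_range, Finset.sum_range_succ]
  have h1 : v.valuation K (f.coeff f.natDegree * y ^ f.natDegree) = v.valuation K y ^ f.natDegree := by
    rw [map_mul, map_pow, coeff_natDegree, hl, one_mul]
  have h2 : v.valuation K (∑ x ∈ Finset.range f.natDegree, f.coeff x * y ^ x) <
      v.valuation K (f.coeff f.natDegree * y ^ f.natDegree) := by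
    rw [h1]
    refine Valuation.map_sum_lt _ (pow_ne_zero _ hy0) ?_
    intro i hi
    rw [Finset.mem_range] at hi
    rw [map_mul, map_pow]
    calc v.valuation K (f.coeff i) * v.valuation K y ^ i ≤ 1 * v.valuation K y ^ i :=
          mul_le_mul_left (hc i) _
      _ = v.valuation K y ^ i := one_mul _
      _ < v.valuation K y ^ f.natDegree := pow_lt_pow_right₀ hy hi
  rw [Valuation.map_add_eq_of_lt_right _ h2, h1]

theorem finite_gt (x : K) : {v : HeightOneSpectrum (𝓞 K) | 1 < v.valuation K x}.Finite :=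
  HeightOneSpectrum.Support.finite (𝓞 K) x

theorem finite_lt {x : K} (hx : x ≠ 0) : {v : HeightOneSpectrum (𝓞 K) | v.valuation K x < 1}.Finite := by
  refine (finite_gt x⁻¹).subset ?_
  intro v hv
  have h0 : v.valuation K x ≠ 0 := (Valuation.ne_zero_iff _).mpr hx
  have h1 : v.valuation K x < 1 := hv
  show 1 < v.valuation K x⁻¹
  rw [map_inv₀]
  exact (one_lt_inv₀ (zero_lt_iff.mpr h0)).mpr h1

/-- collisions give roots modulo `v`, for almost all `v` -/
theorem coll_root (f : K[X]) (hf : 2 ≤ f.natDegree) (α : OnePoint K) (b : K) (h0 : α ≠ (b : OnePoint K)) :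
    {v : HeightOneSpectrum (𝓞 K) | (∃ n : ℕ, SameRed v ((act f)^[n] α) (b : OnePoint K)) ∧
      ¬ HasRoot v (f - C b)}.Finite := by
  have hf0 : f ≠ 0 := by rintro rfl; simp at hf
  have hA : {v : HeightOneSpectrum (𝓞 K) | SameRed v α (b : OnePoint K)}.Finite := by
    by_cases hα : α = OnePoint.infty
    · refine (finite_gt b).subset ?_
      rintro v (⟨-, h⟩ | ⟨a, -, h, -⟩)
      · exact h b rfl
      · rw [hα] at h
        exact absurd h.symm (OnePoint.coe_ne_infty a)
    · obtain ⟨a, ha⟩ := OnePoint.ne_infty_iff_exists.mp hα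
      have hab : a - b ≠ 0 := by
        intro h
        apply h0
        rw [← ha, sub_eq_zero.mp h]
      refine ((finite_gt b).union (finite_lt hab)).subset ?_
      rintro v (⟨-, h⟩ | ⟨a', b', h1, h2, -, -, h3⟩)
      · exact Or.inl (h b rfl)
      · right
        rw [← ha, OnePoint.coe_eq_coe] at h1
        rw [OnePoint.coe_eq_coe] at h2
        show v.valuation K (a - b) < 1
        rw [h1, h2]
        exact h3
  have hB : (⋃ j ∈ Finset.range (f.natDegree + 1),
      {v : HeightOneSpectrum (𝓞 K) | 1 < v.valuation K (f.coeff j)}).Finite :=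
    Set.Finite.biUnion (Finset.finite_toSet _) (fun j _ => finite_gt _)
  have hC := finite_lt (leadingCoeff_ne_zero.mpr hf0)
  refine (((hA.union hB).union hC).union (finite_gt b)).subset ?_
  rintro v ⟨⟨n, hn⟩, hroot⟩
  by_contra hv
  simp only [Set.mem_union, not_or] at hv
  obtain ⟨⟨⟨hv1, hv2⟩, hv3⟩, hv4⟩ := hv
  have hvb : v.valuation K b ≤ 1 := not_lt.mp hv4
  have hco : ∀ j, v.valuation K (f.coeff j) ≤ 1 := by
    intro j
    by_cases hj : j < f.natDegree + 1
    · by_contra hcon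
      push Not at hcon
      apply hv2
      rw [Set.mem_iUnion₂]
      exact ⟨j, Finset.mem_range.mpr hj, hcon⟩
    · rw [coeff_eq_zero_of_natDegree_lt (by omega), map_zero]
      exact zero_le_one
  have hle : v.valuation K f.leadingCoeff = 1 := le_antisymm (hco _) (not_lt.mp hv3)
  cases n with
  | zero => exact hv1 hn
  | succ m =>
    rw [Function.iterate_succ_apply'] at hn
    set y := (act f)^[m] α with hy
    rcases hn with ⟨-, h⟩ | ⟨a, b', h1, h2, h3, -, h4⟩
    · exact absurd (h b rfl) (not_lt.mpr hvb)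
    · rw [OnePoint.coe_eq_coe] at h2
      by_cases hyi : y = OnePoint.infty
      · rw [hyi] at h1
        exact absurd h1.symm (OnePoint.coe_ne_infty a)
      · obtain ⟨y0, hy0⟩ := OnePoint.ne_infty_iff_exists.mp hyi
        rw [← hy0] at h1
        have h5 : f.eval y0 = a := by
          rw [act, OnePoint.map_some, OnePoint.coe_eq_coe] at h1
          exact h1
        by_cases hy1 : v.valuation K y0 ≤ 1
        · apply hroot
          refine ⟨y0, hy1, ?_⟩
          rw [eval_sub, eval_C, h5, h2]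
          exact h4
        · push Not at hy1
          have h6 := val_eval hco hle hy1
          rw [h5] at h6
          have h7 : 1 < v.valuation K y0 ^ f.natDegree := one_lt_pow₀ hy1 (by omega)
          rw [← h6] at h7
          exact absurd h7 (not_lt.mpr h3)

end

/-- a prime of `ℚ` over `p` -/
theorem exists_w {p : ℕ} (hp : p.Prime) : ∃ w : HeightOneSpectrum (𝓞 ℚ), (p : 𝓞 ℚ) ∈ w.asIdeal := by
  have h1 : Ideal.span {((p : ℕ) : 𝓞 ℚ)} ≠ ⊤ := by
    intro h
    have h2 := absNorm_span_nat (M := ℚ) p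
    rw [h, Ideal.absNorm_top] at h2
    have h3 : 1 < p ^ deg ℚ := Nat.one_lt_pow (deg_pos (M := ℚ)).ne' hp.one_lt
    omega
  obtain ⟨P, hP, hle⟩ := Ideal.exists_le_maximal _ h1
  have h2 : (p : 𝓞 ℚ) ∈ P := hle (Ideal.mem_span_singleton_self _)
  refine ⟨⟨P, hP.isPrime, ?_⟩, h2⟩
  rintro rfl
  rw [Ideal.mem_bot] at h2
  exact hp.ne_zero (by exact_mod_cast h2)

section
variable {p : ℕ} {w : HeightOneSpectrum (𝓞 ℚ)}

theorem val_int_le (n : ℤ) : w.valuation ℚ (n : ℚ) ≤ 1 := by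
  have h := w.valuation_le_one (K := ℚ) (n : 𝓞 ℚ)
  have h2 : algebraMap (𝓞 ℚ) ℚ (n : 𝓞 ℚ) = (n : ℚ) := map_intCast _ n
  rw [← h2]
  exact h

theorem val_int_lt (hp : p.Prime) (hw : (p : 𝓞 ℚ) ∈ w.asIdeal) (n : ℤ) :
    w.valuation ℚ (n : ℚ) < 1 ↔ (p : ℤ) ∣ n := by
  have h := w.valuation_lt_one_iff_mem (K := ℚ) (n : 𝓞 ℚ)
  have h2 : algebraMap (𝓞 ℚ) ℚ (n : 𝓞 ℚ) = (n : ℚ) := map_intCast _ n
  rw [int_mem_iff hp w.isPrime hw] at h
  rw [← h2]
  exact h

theorem val_int_eq (hp : p.Prime) (hw : (p : 𝓞 ℚ) ∈ w.asIdeal) {n : ℤ} (hn : ¬ (p : ℤ) ∣ n) :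
    w.valuation ℚ (n : ℚ) = 1 := by
  rw [← val_int_lt hp hw n] at hn
  exact le_antisymm (val_int_le n) (not_lt.mp hn)

/-- no root modulo `p` -/
theorem no_root (hp : p.Prime) (hw : (p : 𝓞 ℚ) ∈ w.asIdeal) (f : ℚ[X]) (g : ℤ[X]) (c : ℤ)
    (hg : g.map (Int.castRingHom ℚ) = C (c : ℚ) * f) (a b : ℤ) (hb : ¬ (p : ℤ) ∣ b)
    (hval : ∀ x : ZMod p, (b : ZMod p) * (g.map (Int.castRingHom (ZMod p))).eval x ≠
      (c : ZMod p) * (a : ZMod p)) : ¬ HasRoot w (f - C ((a : ℚ) / (b : ℚ))) := by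
  have : Fact p.Prime := ⟨hp⟩
  rintro ⟨x, hx1, hx2⟩
  have hb0 : (b : ℚ) ≠ 0 := by
    intro h
    apply hb
    have : b = 0 := by exact_mod_cast h
    rw [this]
    exact dvd_zero _
  have hn0 : ((x.den : ℤ) : ℚ) ≠ 0 := by exact_mod_cast x.den_ne_zero
  have hx : ((x.den : ℤ) : ℚ) * x = ((x.num : ℤ) : ℚ) := by
    have := Rat.den_mul_eq_num x
    exact_mod_cast this
  have hn : ¬ (p : ℤ) ∣ (x.den : ℤ) := by
    intro hd
    have h1 : ¬ (p : ℤ) ∣ x.num := by
      intro hd2
      have h2 : p ∣ x.den := Int.natCast_dvd_natCast.mp hd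
      have h3 : p ∣ x.num.natAbs := Int.natCast_dvd.mp hd2
      have h4 := Nat.dvd_gcd h3 h2
      rw [x.reduced.gcd_eq_one] at h4
      exact hp.one_lt.ne' (Nat.dvd_one.mp h4)
    have h2 : w.valuation ℚ ((x.num : ℤ) : ℚ) = 1 := val_int_eq hp hw h1
    have h3 : w.valuation ℚ ((x.den : ℤ) : ℚ) < 1 := (val_int_lt hp hw _).mpr hd
    rw [← hx, map_mul] at h2
    have h4 : w.valuation ℚ ((x.den : ℤ) : ℚ) * w.valuation ℚ x < 1 :=
      lt_of_le_of_lt (mul_le_mul_right hx1 _) (by rwa [mul_one])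
    exact h4.ne h2
  set d := g.natDegree with hd
  have hE1 : (((scaleRoots g (x.den : ℤ)).eval x.num : ℤ) : ℚ) = ((x.den : ℤ) : ℚ) ^ d * (c * f.eval x) := by
    have h1 := scaleRoots_eval₂_mul (p := g) (Int.castRingHom ℚ) x (x.den : ℤ)
    rw [eq_intCast (Int.castRingHom ℚ), hx, eval₂_eq_eval_map, eval₂_eq_eval_map, eval_intCast_map, hg,
      eval_mul, eval_C, eq_intCast (Int.castRingHom ℚ)] at h1
    simpa using h1
  set E : ℤ := b * (scaleRoots g (x.den : ℤ)).eval x.num - c * a * (x.den : ℤ) ^ d with hE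
  have hE2 : (E : ℚ) = ((b * c * (x.den : ℤ) ^ d : ℤ) : ℚ) * (f - C ((a : ℚ) / (b : ℚ))).eval x := by
    rw [hE, eval_sub, eval_C]
    push_cast
    push_cast at hE1
    rw [hE1]
    field_simp
  have hE3 : (p : ℤ) ∣ E := by
    rw [← val_int_lt hp hw, hE2, map_mul]
    refine lt_of_le_of_lt (mul_le_mul_left (val_int_le _) _) ?_
    rwa [one_mul]
  have hnp : ((x.den : ℤ) : ZMod p) ≠ 0 := by rwa [Ne, ZMod.intCast_zmod_eq_zero_iff_dvd]
  rw [← ZMod.intCast_zmod_eq_zero_iff_dvd, hE] at hE3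
  have h2 := scaleRoots_eval₂_mul (p := g) (Int.castRingHom (ZMod p))
    (((x.den : ℤ) : ZMod p)⁻¹ * ((x.num : ℤ) : ZMod p)) (x.den : ℤ)
  rw [eq_intCast (Int.castRingHom (ZMod p)), ← mul_assoc, mul_inv_cancel₀ hnp, one_mul, eval₂_eq_eval_map,
    eval₂_eq_eval_map, eval_intCast_map, eq_intCast (Int.castRingHom (ZMod p)), Int.cast_id] at h2
  push_cast at hE3
  apply hval (((x.den : ℤ) : ZMod p)⁻¹ * ((x.num : ℤ) : ZMod p))
  have h3 : ((x.den : ℤ) : ZMod p) ^ d * ((b : ZMod p) *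
      (g.map (Int.castRingHom (ZMod p))).eval (((x.den : ℤ) : ZMod p)⁻¹ * ((x.num : ℤ) : ZMod p)) -
        (c : ZMod p) * (a : ZMod p)) = 0 := by
    push_cast
    push_cast at h2
    rw [h2] at hE3
    linear_combination hE3
  exact sub_eq_zero.mp ((mul_eq_zero.mp h3).resolve_left (pow_ne_zero _ hnp))

end

end Pool.Agent.ORB.OneP

namespace Pool.Agent.ORB

open NumberField IsDedekindDomain Polynomial OneP

/-- if for one large prime `p` no `c f_i(x) = c β_i` is solvable modulo `p`, Q1 holds for `f`, `β` and all `α`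
(`c f_i ∈ ℤ[x]`, `β_i = a_i / b_i`) -/
theorem of_one_prime {ι : Type} [Finite ι] (f : ι → ℚ[X]) (hf : ∀ i, 2 ≤ (f i).natDegree) :
    ∃ B : ℕ, ∀ p : ℕ, [Fact p.Prime] → B < p → ∀ (g : ι → ℤ[X]) (c : ℤ), c ≠ 0 → ¬ ((p : ℤ) ∣ c) →
      (∀ i, (g i).map (Int.castRingHom ℚ) = C (c : ℚ) * f i) → ∀ a b : ι → ℤ,
      (∀ i, ¬ ((p : ℤ) ∣ b i)) →
      (∀ i, ∀ x : ZMod p, (b i : ZMod p) * ((g i).map (Int.castRingHom (ZMod p))).eval x ≠
        (c : ZMod p) * (a i : ZMod p)) →
      ∀ α : ι → OnePoint ℚ, (∀ i n, (act (f i))^[n] (α i) ≠ (((a i : ℚ) / (b i : ℚ) : ℚ) : OnePoint ℚ)) →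
        PosDensity (AvoidSet f α (fun i => (((a i : ℚ) / (b i : ℚ) : ℚ) : OnePoint ℚ))) := by
  classical
  have := Fintype.ofFinite ι
  refine ⟨∑ i, (f i).leadingCoeff.num.natAbs, ?_⟩
  intro p hpf hpB g c hc0 hpc hg a b hb hval α hα
  have hp : p.Prime := hpf.out
  obtain ⟨w, hw⟩ := exists_w hp
  set F : ι → ℚ[X] := fun i => f i - C ((a i : ℚ) / (b i : ℚ)) with hF
  have hFd : ∀ i, (F i).natDegree = (f i).natDegree := fun i => natDegree_sub_C
  have hF0 : ∀ i, F i ≠ 0 := by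
    intro i h0
    have h1 := hFd i
    rw [h0, natDegree_zero] at h1
    have := hf i
    omega
  have hvc : w.valuation ℚ (c : ℚ) = 1 := val_int_eq hp hw hpc
  have hcf : ∀ i j, w.valuation ℚ ((f i).coeff j) ≤ 1 := by
    intro i j
    have h1 := congrArg (fun q => Polynomial.coeff q j) (hg i)
    simp only [coeff_map, coeff_C_mul, eq_intCast] at h1
    have h2 := congrArg (w.valuation ℚ) h1
    rw [map_mul, hvc, one_mul] at h2
    rw [← h2]
    exact val_int_le _
  have hlf : ∀ i, w.valuation ℚ (f i).leadingCoeff = 1 := by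
    intro i
    set l := (f i).leadingCoeff with hl
    have hl0 : l ≠ 0 := by
      rw [hl, leadingCoeff_ne_zero]
      intro h
      have := hf i
      rw [h, natDegree_zero] at this
      omega
    have h1 : ¬ (p : ℤ) ∣ l.num := by
      intro h
      have h2 : p ∣ l.num.natAbs := Int.natCast_dvd.mp h
      have h3 := Nat.le_of_dvd (Int.natAbs_pos.mpr (Rat.num_ne_zero.mpr hl0)) h2
      have h4 : l.num.natAbs ≤ ∑ i, (f i).leadingCoeff.num.natAbs :=
        Finset.single_le_sum (f := fun i => (f i).leadingCoeff.num.natAbs) (fun _ _ => Nat.zero_le _)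
          (Finset.mem_univ i)
      omega
    refine le_antisymm (hcf i _) ?_
    by_contra hcon
    push Not at hcon
    have h2 : ((l.den : ℤ) : ℚ) * l = ((l.num : ℤ) : ℚ) := by
      have := Rat.den_mul_eq_num l
      exact_mod_cast this
    have h3 : w.valuation ℚ ((l.num : ℤ) : ℚ) < 1 := by
      rw [← h2, map_mul]
      refine lt_of_le_of_lt (mul_le_mul_left (val_int_le _) _) ?_
      rwa [one_mul]
    exact h1 ((val_int_lt hp hw _).mp h3)
  have hvb : ∀ i, w.valuation ℚ ((a i : ℚ) / (b i : ℚ)) ≤ 1 := by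
    intro i
    rw [map_div₀, val_int_eq hp hw (hb i), div_one]
    exact val_int_le _
  have hint : ∀ i j, w.valuation ℚ (algebraMap ℚ ℚ ((F i).coeff j)) ≤ 1 := by
    intro i j
    show w.valuation ℚ ((F i).coeff j) ≤ 1
    rw [hF, coeff_sub]
    refine Valuation.map_sub_le _ (hcf i j) ?_
    rw [coeff_C]
    split_ifs
    · exact hvb i
    · rw [map_zero]; exact zero_le_one
  have hlead : ∀ i, w.valuation ℚ (algebraMap ℚ ℚ (F i).leadingCoeff) = 1 := by
    intro i
    show w.valuation ℚ ((F i).leadingCoeff) = 1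
    have h1 : (F i).leadingCoeff = (f i).leadingCoeff := by
      rw [hF]
      refine leadingCoeff_sub_of_degree_lt ?_
      refine lt_of_le_of_lt degree_C_le ?_
      rw [← natDegree_pos_iff_degree_pos]
      have := hf i
      omega
    rw [h1, hlf]
  have hno : ∀ i, ¬ HasRoot w ((F i).map (algebraMap ℚ ℚ)) := by
    intro i
    have h1 : (F i).map (algebraMap ℚ ℚ) = F i := Polynomial.map_id
    rw [h1]
    exact no_root hp hw (f i) (g i) c (hg i) (a i) (b i) (hb i) (hval i)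
  set Q : ℚ[X] := ∏ i, F i with hQ
  have hQ0 : Q ≠ 0 := by
    rw [hQ, Finset.prod_ne_zero_iff]
    exact fun i _ => hF0 i
  let L := Q.SplittingField
  have hLn : NumberField L := { to_charZero := inferInstance, to_finiteDimensional := inferInstance }
  have hLg : IsGalois ℚ L :=
    { to_isSeparable := inferInstance,
      to_normal := normal_change _ _ (Polynomial.SplittingField.instNormal Q) }
  obtain ⟨σ, hσ, hr⟩ := frob_extract (K := ℚ) (K2 := ℚ) (L := L) w F hint hlead hno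
  have hs : ∀ i, ((F i).map (algebraMap ℚ L)).Splits := by
    intro i
    refine (Polynomial.SplittingField.splits Q).of_dvd
      ((Polynomial.map_ne_zero_iff (algebraMap ℚ L).injective).mpr hQ0) ?_
    exact Polynomial.map_dvd _ (Finset.dvd_prod_of_mem _ (Finset.mem_univ i))
  have hpos := posDensity_of_rootless (K := ℚ) (L := L) σ hσ F hF0 hs hr
  refine posDensity_mono ?_ hpos
  have hfin := Set.finite_iUnion (fun i => coll_root (f i) (hf i) (α i) ((a i : ℚ) / (b i : ℚ)) (hα i 0))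
  refine hfin.subset ?_
  rintro v ⟨hv1, hv2⟩
  simp only [AvoidSet, Set.mem_ofPred_eq, not_forall, not_not] at hv2
  obtain ⟨i, n, hn⟩ := hv2
  rw [Set.mem_iUnion]
  exact ⟨i, ⟨n, hn⟩, hv1 i⟩

end Pool.Agent.ORB
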