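import Pool.Agent.ORB.ResHom
import Pool.Agent.ORB.OnePrime
import Pool.Agent.ORB.Closure

/-! ORB, Theorem IV: from one place without roots to a positive density. -/

namespace Pool.Agent.ORB

open NumberField IsDedekindDomain Polynomial

universe u

/-- one place `w` of `K` modulo which neither the `F_j` nor the `f_i - β_i` have roots -/
theorem posDensity_of_place {K : Type u} [Field K] [NumberField K] (w : HeightOneSpectrum (𝓞 K))
    {J I : Type} [Finite J] [Finite I] (F : J → K[X]) (hF0 : ∀ j, F j ≠ 0)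
    (hFint : ∀ j n, w.valuation K ((F j).coeff n) ≤ 1) (hFlead : ∀ j, w.valuation K (F j).leadingCoeff = 1)
    (hFno : ∀ j, ¬ HasRoot w (F j)) (f : I → K[X]) (hf : ∀ i, 2 ≤ (f i).natDegree) (β : I → K)
    (hfint : ∀ i n, w.valuation K ((f i).coeff n) ≤ 1) (hflead : ∀ i, w.valuation K (f i).leadingCoeff = 1)
    (hβ : ∀ i, w.valuation K (β i) ≤ 1) (hfno : ∀ i, ¬ HasRoot w (f i - C (β i)))
    (A : Set (HeightOneSpectrum (𝓞 K))) (hA : {v | v ∉ A ∧ ∀ j, ¬ HasRoot v (F j)}.Finite)
    (α : I → OnePoint K) (hα : ∀ i, α i ≠ (β i : OnePoint K)) :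
    PosDensity (A ∩ AvoidSet f α (fun i => (β i : OnePoint K))) := by
  classical
  set G : J ⊕ I → K[X] := Sum.elim F (fun i => f i - C (β i)) with hG
  have hfi0 : ∀ i, f i - C (β i) ≠ 0 := by
    intro i h0
    have h1 : (f i - C (β i)).natDegree = (f i).natDegree := natDegree_sub_C
    rw [h0, natDegree_zero] at h1
    have := hf i
    omega
  have hG0 : ∀ k, G k ≠ 0 := by
    rintro (j | i)
    · exact hF0 j
    · exact hfi0 i
  obtain ⟨L, _, _, _, hLg, hLs⟩ := exists_closure G hG0
  have hlc : ∀ i, (f i - C (β i)).leadingCoeff = (f i).leadingCoeff := by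
    intro i
    refine leadingCoeff_sub_of_degree_lt ?_
    refine lt_of_le_of_lt degree_C_le ?_
    rw [← natDegree_pos_iff_degree_pos]
    have := hf i
    omega
  have hint : ∀ k n, w.valuation K (algebraMap K K ((G k).coeff n)) ≤ 1 := by
    rintro (j | i) n
    · exact hFint j n
    · show w.valuation K ((f i - C (β i)).coeff n) ≤ 1
      rw [coeff_sub]
      refine Valuation.map_sub_le _ (hfint i n) ?_
      rw [coeff_C]
      split_ifs
      · exact hβ i
      · rw [map_zero]; exact zero_le_one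
  have hlead : ∀ k, w.valuation K (algebraMap K K (G k).leadingCoeff) = 1 := by
    rintro (j | i)
    · exact hFlead j
    · show w.valuation K (f i - C (β i)).leadingCoeff = 1
      rw [hlc]; exact hflead i
  have hno : ∀ k, ¬ HasRoot w ((G k).map (algebraMap K K)) := by
    intro k
    have h1 : (G k).map (algebraMap K K) = G k := Polynomial.map_id
    rw [h1]
    rcases k with j | i
    · exact hFno j
    · exact hfno i
  obtain ⟨σ, hσ, hr⟩ := frob_extract (K := K) (K2 := K) (L := L) w G hint hlead hno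
  have hpos := posDensity_of_rootless (K := K) (L := L) σ hσ G hG0 hLs hr
  refine posDensity_mono ?_ hpos
  have hfin := Set.finite_iUnion (fun i => OneP.coll_root (f i) (hf i) (α i) (β i) (hα i))
  refine (hA.union hfin).subset ?_
  rintro v ⟨hv1, hv2⟩
  by_cases hvA : v ∈ A
  · right
    have hv3 : v ∉ AvoidSet f α (fun i => (β i : OnePoint K)) := fun h => hv2 ⟨hvA, h⟩
    simp only [AvoidSet, Set.mem_ofPred_eq, not_forall, not_not] at hv3
    obtain ⟨i, n, hn⟩ := hv3
    rw [Set.mem_iUnion]
    exact ⟨i, ⟨n, hn⟩, hv1 (Sum.inr i)⟩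
  · left
    exact ⟨hvA, fun j => hv1 (Sum.inl j)⟩

end Pool.Agent.ORB
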