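import Pool.Agent.ORB.RTarget
import Pool.Agent.ORB.Rootless
import Pool.Agent.ORB.Closure

/-! ORB, rational functions: from automorphisms moving all targets to positive density. -/

namespace Pool.Agent.ORB

open NumberField IsDedekindDomain Polynomial

universe u

/-- the set of the primes `v` such that `f_i^n(α_i)` and `β_i` have different reductions for all `i`, `n` -/
def PAvoidSet {K : Type u} [Field K] [NumberField K] {ι : Type*} (f : ι → RP K) (α β : ι → OnePoint K) :
    Set (HeightOneSpectrum (𝓞 K)) :=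
  {v | ∀ i, ∀ n : ℕ, ¬ SameRed v ((f i).act^[n] (α i)) (β i)}

/-- if every Galois number field `L` over `K` has an automorphism over `K` moving all targets of level
`N i`, the set of the good primes has positive density -/
theorem posDensity_of_auto {K : Type u} [Field K] [NumberField K] {ι : Type} [Finite ι] (f : ι → RP K)
    (hf : ∀ i, 2 ≤ (f i).d) (α β : ι → OnePoint K) (hαβ : ∀ i n, (f i).act^[n] (α i) ≠ β i) (N : ι → ℕ)
    (h : ∀ (L : Type u) [Field L] [NumberField L] [Algebra K L] [IsGalois ℚ L], ∃ σ : L ≃ₐ[ℚ] L,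
      (∀ x : K, σ (algebraMap K L x) = algebraMap K L x) ∧ ∀ i (x : OnePoint L),
        IsTgt (f i) (β i) L (((f i).map (algebraMap K L)).act^[N i] x) → pmap (σ : L →+* L) x ≠ x) :
    PosDensity (PAvoidSet f α β) := by
  classical
  choose F hF0 hFroot hFcol using fun i => rtarget (f i) (hf i) (β i) (N i)
  obtain ⟨L, _, _, _, hgal, hsp⟩ := exists_closure F hF0
  obtain ⟨σ, hσ, hmove⟩ := h L
  have hr : ∀ i, ∀ r : L, aeval r (F i) = 0 → σ r ≠ r := by
    intro i r hr hfix
    apply hmove i (r : OnePoint L) (hFroot i L r hr)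
    rw [pmap_coe]
    exact congrArg _ hfix
  have hinf : ∀ i, ¬ IsTgt (f i) (β i) K ((f i).act^[N i] OnePoint.infty) := by
    intro i hi
    rw [← isTgt_map (K := K) (L := K) (M := L), ← RP.act_map_iterate, pmap_infty] at hi
    exact hmove i OnePoint.infty hi rfl
  refine posDensity_mono ?_ (posDensity_of_rootless σ hσ F hF0 hsp hr)
  have hfin : (⋃ i, {v : HeightOneSpectrum (𝓞 K) | (∃ n, SameRed v ((f i).act^[n] (α i)) (β i)) ∧
      ¬ HasRoot v (F i)}).Finite :=
    Set.finite_iUnion (fun i => hFcol i (hinf i) (α i) (hαβ i))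
  refine hfin.subset ?_
  rintro v ⟨hv1, hv2⟩
  simp only [PAvoidSet, Set.mem_ofPred_eq, not_forall, not_not] at hv1 hv2
  obtain ⟨i, n, hin⟩ := hv2
  rw [Set.mem_iUnion]
  exact ⟨i, ⟨n, hin⟩, hv1 i⟩

end Pool.Agent.ORB
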