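import Pool.Agent.ORB.Rootless
import Pool.Agent.ORB.FrobEx
import Pool.Agent.ORB.GoodPrime
import Pool.Agent.ORB.Target
import Pool.Agent.ORB.Blocks
import Pool.Agent.ORB.Closure

/-! ORB, M7: assembly of Theorem I. -/

namespace Pool.Agent.ORB

open NumberField IsDedekindDomain Polynomial

universe u

/-- an extension with a primitive `m`-th root of unity -/
theorem exists_cyclo (K : Type u) [Field K] [NumberField K] (m : ℕ) (hm : 0 < m) :
    ∃ (K' : Type u) (_ : Field K') (_ : NumberField K') (_ : Algebra K K') (z : K'),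
      IsPrimitiveRoot z m := by
  have : NeZero m := ⟨hm.ne'⟩
  have : NeZero ((m : ℕ) : K) := ⟨by exact_mod_cast hm.ne'⟩
  refine ⟨CyclotomicField m K, inferInstance, ?_, inferInstance, IsCyclotomicExtension.zeta m K (CyclotomicField m K),
    IsCyclotomicExtension.zeta_spec m K _⟩
  exact IsCyclotomicExtension.numberField {m} K (CyclotomicField m K)

theorem wandering_map {K F : Type*} [Field K] [Field F] (φ : K →+* F) {f : K[X]} {b : K}
    (h : Wandering f b) : Wandering (f.map φ) (φ b) := by
  intro m n hmn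
  simp only [iterate_map] at hmn
  exact h (φ.injective hmn)

theorem wandering_iterate {K : Type*} [Field K] {f : K[X]} {b : K}
    (h : Wandering f b) (t : ℕ) : Wandering f ((fun x => f.eval x)^[t] b) := by
  intro m n hmn
  simp only [← Function.iterate_add_apply] at hmn
  have := h hmn
  omega

/-- a place outside of a finite set and not periodic points -/
theorem exists_block_place {K K' : Type u} [Field K] [NumberField K] [Field K'] [NumberField K']
    [Algebra K K'] {ι : Type} [Finite ι] (f : ι → K[X]) (hf : ∀ i, 2 ≤ (f i).natDegree)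
    (β : ι → OnePoint K)
    (hgo : ∀ i i' (b b' : K), β i = (b : OnePoint K) → β i' = (b' : OnePoint K) →
      Wandering (f i) b → Wandering (f i') b' → f i = f i' ∧
        ∃ m n : ℕ, (fun x => (f i).eval x)^[m] b = (fun x => (f i).eval x)^[n] b') (bad : Finset ℕ) :
    ∃ (K2 : Type u) (_ : Field K2) (_ : NumberField K2) (_ : Algebra K' K2)
      (w : HeightOneSpectrum (𝓞 K2)), Off w bad ∧
        ∀ i (b : K), β i = (b : OnePoint K) → Wandering (f i) b →
          NonPer w ((f i).map ((algebraMap K' K2).comp (algebraMap K K')))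
            (((algebraMap K' K2).comp (algebraMap K K')) b) := by
  classical
  by_cases hW : ∃ i0, ∃ b0 : K, β i0 = (b0 : OnePoint K) ∧ Wandering (f i0) b0
  · obtain ⟨i0, b0, hb0, hw0⟩ := hW
    -- a common forward image
    have key : ∃ t : ℕ, ∀ i (b : K), β i = (b : OnePoint K) → Wandering (f i) b →
        f i = f i0 ∧ ∃ s : ℕ, (fun x => (f i0).eval x)^[s] b = (fun x => (f i0).eval x)^[t] b0 := by
      have h1 : ∀ i, ∃ t : ℕ, ∀ (b : K), β i = (b : OnePoint K) → Wandering (f i) b →
          f i = f i0 ∧ ∃ s : ℕ, (fun x => (f i0).eval x)^[s] b = (fun x => (f i0).eval x)^[t] b0 := by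
        intro i
        by_cases hi : ∃ b : K, β i = (b : OnePoint K) ∧ Wandering (f i) b
        · obtain ⟨b, hb, hw⟩ := hi
          obtain ⟨h2, m, n, h3⟩ := hgo i i0 b b0 hb hb0 hw hw0
          refine ⟨n, ?_⟩
          intro b' hb' hw'
          have : b' = b := OnePoint.coe_injective (hb'.symm.trans hb)
          subst this
          refine ⟨h2, m, ?_⟩
          rw [h2] at h3
          exact h3
        · refine ⟨0, ?_⟩
          intro b hb hw
          exact absurd ⟨b, hb, hw⟩ hi
      choose t ht using h1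
      obtain ⟨T, hT⟩ : ∃ T, ∀ i, t i ≤ T := by
        have := Fintype.ofFinite ι
        exact ⟨Finset.univ.sup t, fun i => Finset.le_sup (Finset.mem_univ i)⟩
      refine ⟨T, ?_⟩
      intro i b hb hw
      obtain ⟨h2, s, h3⟩ := ht i b hb hw
      refine ⟨h2, (T - t i) + s, ?_⟩
      rw [Function.iterate_add_apply, h3, ← Function.iterate_add_apply]
      congr 2
      have := hT i
      omega
    obtain ⟨T, hT⟩ := key
    set c : K := (fun x => (f i0).eval x)^[T] b0 with hc
    have hcW : Wandering (f i0) c := wandering_iterate hw0 T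
    -- bad primes
    have hbadc : ∀ x : K', ∃ m : ℕ, m ≠ 0 ∧ ∀ (K2 : Type u) [Field K2] [NumberField K2] [Algebra K' K2]
        (w : HeightOneSpectrum (𝓞 K2)), w.valuation K2 (m : K2) = 1 →
          w.valuation K2 (algebraMap K' K2 x) ≤ 1 := by
      intro x
      by_cases hx : x = 0
      · refine ⟨1, one_ne_zero, ?_⟩
        intro K2 _ _ _ w _
        rw [hx, map_zero, map_zero]
        exact zero_le_one
      · obtain ⟨m, hm, h⟩ := exists_bad x hx
        exact ⟨m, hm, fun K2 _ _ _ w hw => (h K2 w hw).le⟩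
    choose mm hmm0 hmm using hbadc
    have := Fintype.ofFinite ι
    -- the finitely many values
    let vb : ι → K := fun i => if h : ∃ b : K, β i = (b : OnePoint K) then h.choose else 0
    set bad2 : Finset ℕ := bad ∪ (Finset.univ.image (fun i => mm (algebraMap K K' (vb i)))) ∪
      ((Finset.range ((f i0).natDegree + 1)).image (fun j => mm (algebraMap K K' ((f i0).coeff j)))) with hbad2
    obtain ⟨K2, _, _, _, w, hw1, hw2⟩ := exists_good_prime ((f i0).map (algebraMap K K'))
      (by rw [natDegree_map]; exact hf i0) (algebraMap K K' c) (wandering_map _ hcW) bad2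
    refine ⟨K2, inferInstance, inferInstance, inferInstance, w, ?_, ?_⟩
    · intro m hm
      exact hw1 m (by rw [hbad2, Finset.mem_union, Finset.mem_union]; exact Or.inl (Or.inl hm))
    · intro i b hb hw m hm
      by_contra hcon
      rw [not_le] at hcon
      obtain ⟨hfi, s, hs⟩ := hT i b hb hw
      have hvb : vb i = b := by
        have h : ∃ b : K, β i = (b : OnePoint K) := ⟨b, hb⟩
        simp only [vb]
        rw [dif_pos h]
        exact OnePoint.coe_injective (h.choose_spec.symm.trans hb)
      set φ := (algebraMap K' K2).comp (algebraMap K K') with hφ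
      have hbint : w.valuation K2 (φ b) ≤ 1 := by
        refine hmm (algebraMap K K' b) K2 w (hw1 _ ?_ (hmm0 _))
        rw [hbad2, Finset.mem_union, Finset.mem_union, Finset.mem_image]
        refine Or.inl (Or.inr ⟨i, Finset.mem_univ _, ?_⟩)
        rw [hvb]
      have hcoeff : ∀ j, w.valuation K2 (((f i0).map φ).coeff j) ≤ 1 := by
        intro j
        rw [coeff_map]
        by_cases hj : j ≤ (f i0).natDegree
        · refine hmm (algebraMap K K' ((f i0).coeff j)) K2 w (hw1 _ ?_ (hmm0 _))
          rw [hbad2, Finset.mem_union, Finset.mem_image]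
          exact Or.inr ⟨j, Finset.mem_range.2 (by omega), rfl⟩
        · rw [coeff_eq_zero_of_natDegree_lt (by omega), map_zero, map_zero]
          exact zero_le_one
      rw [hfi] at hcon
      -- iterates of `b` are integral
      have hit : Cong (w.valuation K2) ((fun x => ((f i0).map φ).eval x)^[m] (φ b)) (φ b) := by
        refine ⟨?_, hbint, hcon⟩
        exact ((Cong.refl hbint).iterate hcoeff m).1
      have h3 := hit.iterate hcoeff s
      rw [← Function.iterate_add_apply, add_comm s m, Function.iterate_add_apply] at h3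
      rw [iterate_map φ (f i0) s b, hs] at h3
      have h4 := hw2 m hm
      have h5 : ((f i0).map (algebraMap K K')).map (algebraMap K' K2) = (f i0).map φ := by
        rw [Polynomial.map_map]
      rw [h5] at h4
      have h6 : (algebraMap K' K2) ((algebraMap K K') c) = φ c := rfl
      rw [h6] at h4
      exact absurd h3.2.2 (not_lt.2 h4)
  · -- no wandering point: any place
    have hX : Wandering (X ^ 2 : K'[X]) 2 := by
      have h1 : ∀ n : ℕ, (fun x => (X ^ 2 : K'[X]).eval x)^[n] 2 = ((2 ^ 2 ^ n : ℕ) : K') := by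
        intro n
        induction n with
        | zero => simp
        | succ n ih =>
          rw [Function.iterate_succ_apply', ih]
          simp only [eval_pow, eval_X]
          push_cast
          rw [← pow_mul]
          congr 1
      intro a b hab
      simp only [h1] at hab
      have h2 : (2 ^ 2 ^ a : ℕ) = 2 ^ 2 ^ b := by exact_mod_cast hab
      exact Nat.pow_right_injective le_rfl (Nat.pow_right_injective le_rfl h2)
    obtain ⟨K2, _, _, _, w, hw1, -⟩ := exists_good_prime (X ^ 2 : K'[X]) (by rw [natDegree_X_pow]) 2 hX bad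
    refine ⟨K2, inferInstance, inferInstance, inferInstance, w, hw1, ?_⟩
    intro i b hb hw
    exact absurd ⟨i, b, hb, hw⟩ hW


/-- an automorphism fixing the field of roots of unity: a power with exponent `E ^ k` fixes an iterated
preimage of a point of `K` -/
theorem exists_pow_fix {K L : Type u} [Field K] [NumberField K] [Field L] [NumberField L] [Algebra K L]
    (E : ℕ) (f : K[X]) (m : ℕ)
    (hex : ∀ τ : L ≃ₐ[ℚ] L, (∀ x : K, τ (algebraMap K L x) = algebraMap K L x) →
        (∀ z : L, z ^ m = 1 → τ z = z) → ∀ r : L, τ (aeval r f) = aeval r f →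
          ∃ k : ℕ, (τ ^ (E ^ k)) r = r)
    (τ : L ≃ₐ[ℚ] L) (hτ : ∀ x : K, τ (algebraMap K L x) = algebraMap K L x)
    (hz : ∀ z : L, z ^ m = 1 → τ z = z) (t : ℕ) :
    ∀ r : L, (∃ c : K, (fun x => aeval x f)^[t] r = algebraMap K L c) → ∃ k : ℕ, (τ ^ (E ^ k)) r = r := by
  induction t with
  | zero =>
    rintro r ⟨c, hc⟩
    refine ⟨0, ?_⟩
    rw [Function.iterate_zero_apply] at hc
    rw [pow_zero, pow_one, hc]
    exact hτ c
  | succ t ih =>
    rintro r ⟨c, hc⟩
    rw [Function.iterate_succ_apply] at hc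
    obtain ⟨k, hk⟩ := ih _ ⟨c, hc⟩
    have h1 : ∀ x : K, (τ ^ (E ^ k)) (algebraMap K L x) = algebraMap K L x :=
      fun x => pow_fix_field τ hτ _ x
    have h2 : ∀ z : L, z ^ m = 1 → (τ ^ (E ^ k)) z = z := by
      intro z hz1
      exact pow_fix_of_dvd τ (s := 1) (n := E ^ k) (by rw [pow_one]; exact hz z hz1) (one_dvd _)
    obtain ⟨k', hk'⟩ := hex (τ ^ (E ^ k)) h1 h2 r hk
    refine ⟨k + k', ?_⟩
    rw [pow_add, pow_mul]
    exact hk'

theorem thmI_aeval {K L : Type*} [Field K] [Field L] [Algebra K L] (f : K[X]) (r : L) (N : ℕ) :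
    aeval r (iterP f N) = (fun x => aeval x f)^[N] r := by
  induction N generalizing r with
  | zero => simp [iterP]
  | succ N ih =>
    rw [Function.iterate_succ_apply']
    have h : iterP f (N + 1) = f.comp (iterP f N) := by
      simp only [iterP, Function.iterate_succ_apply']
    rw [h, aeval_comp, ih]

/-- the composition with an iterate is nonzero -/
theorem thmI_ne_zero {K : Type*} [Field K] {P f : K[X]} (hP : P ≠ 0) (hf : 1 ≤ f.natDegree)
    (N : ℕ) : P.comp (iterP f N) ≠ 0 := by
  intro h
  rw [comp_eq_zero_iff] at h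
  rcases h with h | ⟨-, h⟩
  · exact hP h
  · have h1 := natDegree_iterP f N
    rw [h, natDegree_C] at h1
    have : 0 < f.natDegree ^ N := Nat.pow_pos (by omega)
    omega

section action

variable {K' L : Type u} [Field K'] [Field L] [Algebra K' L] {ι : Type} (F : ι → K'[X])

/-- roots of the polynomials of a family -/
def Roots (L : Type u) [Field L] [Algebra K' L] : Type u :=
  {p : ι × L // aeval p.2 (F p.1) = 0}

noncomputable instance : MulAction (L ≃ₐ[K'] L) (Roots F L) where
  smul g p := ⟨(p.1.1, g p.1.2), by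
    have h := p.2
    have h1 : aeval (g p.1.2) (F p.1.1) = g (aeval p.1.2 (F p.1.1)) := by
      rw [← AlgEquiv.coe_toAlgHom, ← aeval_algHom_apply]
    show aeval (g p.1.2) (F p.1.1) = 0
    rw [h1, h, map_zero]⟩
  one_smul p := by
    apply Subtype.ext
    rfl
  mul_smul g h p := by
    apply Subtype.ext
    rfl

theorem Roots.smul_val (g : L ≃ₐ[K'] L) (p : Roots F L) : (g • p).1 = (p.1.1, g p.1.2) := rfl

theorem Roots.finite [Finite ι] (hF : ∀ i, F i ≠ 0) : Finite (Roots F L) := by
  have h : ∀ i, Finite {r : L // aeval r (F i) = 0} := by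
    intro i
    have := (F i).rootSet_finite L
    refine Set.Finite.to_subtype (this.subset ?_)
    intro r hr
    exact (mem_rootSet_of_ne (hF i)).2 hr
  have h2 : Finite (Σ i, {r : L // aeval r (F i) = 0}) := inferInstance
  exact Finite.of_injective (fun p : Roots F L => (⟨p.1.1, ⟨p.1.2, p.2⟩⟩ : Σ i, {r : L // aeval r (F i) = 0}))
    (by
      rintro ⟨⟨i, r⟩, h⟩ ⟨⟨i', r'⟩, h'⟩ heq
      simp only [Sigma.mk.injEq] at heq
      obtain ⟨h1, h2⟩ := heq
      subst h1
      simp only [heq_eq_eq, Subtype.mk.injEq] at h2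
      subst h2
      rfl)

end action


/-- Theorem I: blocks of coprime exponents, in each block the wandering `β_i` lie in one grand orbit -/
theorem thmI {K : Type u} [Field K] [NumberField K] {ι J : Type} [Finite ι] [Finite J]
    (f : ι → K[X]) (hf : ∀ i, 2 ≤ (f i).natDegree) (α β : ι → OnePoint K)
    (hαβ : ∀ i n, (act (f i))^[n] (α i) ≠ β i) (blk : ι → J) (E : J → ℕ)
    (hE : ∀ i j, i ≠ j → Nat.Coprime (E i) (E j)) (hexp : ∀ i, HasExp (E (blk i)) (f i))
    (hgo : ∀ i i' (b b' : K), blk i = blk i' → β i = (b : OnePoint K) → β i' = (b' : OnePoint K) →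
      Wandering (f i) b → Wandering (f i') b' → f i = f i' ∧
        ∃ m n : ℕ, (fun x => (f i).eval x)^[m] b = (fun x => (f i).eval x)^[n] b') :
    PosDensity (AvoidSet f α β) := by
  classical
  cases nonempty_fintype ι
  cases nonempty_fintype J
  -- targets
  have htar := fun i => target (f i) (hf i) (β i)
  choose P hP0 hcoll hroot bad hbad using htar
  -- exponents
  have hex := fun i => exps (E (blk i)) (f i) (by have := hf i; omega) (hexp i)
  choose mi hmi0 hmi using hex
  set m : ℕ := ∏ i, mi i with hm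
  have hm0 : 0 < m := Finset.prod_pos (fun i _ => hmi0 i)
  have hmdvd : ∀ i, mi i ∣ m := fun i => Finset.dvd_prod_of_mem mi (Finset.mem_univ i)
  obtain ⟨K', _, _, _, z, hz⟩ := exists_cyclo K m hm0
  -- places for the blocks
  set badall : Finset ℕ := Finset.univ.biUnion bad with hbadall
  have hpl : ∀ j : J, ∃ (K2 : Type u) (_ : Field K2) (_ : NumberField K2) (_ : Algebra K' K2)
      (w : HeightOneSpectrum (𝓞 K2)), Off w badall ∧
        ∀ i (b : K), blk i = j → β i = (b : OnePoint K) → Wandering (f i) b →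
          NonPer w ((f i).map ((algebraMap K' K2).comp (algebraMap K K')))
            (((algebraMap K' K2).comp (algebraMap K K')) b) := by
    intro j
    obtain ⟨K2, h1, h2, h3, w, hw1, hw2⟩ := exists_block_place (K' := K') (fun i : {i // blk i = j} => f i.1)
      (fun i => hf i.1) (fun i => β i.1)
      (fun i i' b b' hb hb' hw hw' => hgo i.1 i'.1 b b' (i.2.trans i'.2.symm) hb hb' hw hw') badall
    exact ⟨K2, h1, h2, h3, w, hw1, fun i b hij hb hw => hw2 ⟨i, hij⟩ b hb hw⟩
  -- level
  have hlev : ∀ j : J, ∃ N0 : ℕ, ∀ N, N0 ≤ N →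
      ∃ (K2 : Type u) (_ : Field K2) (_ : NumberField K2) (_ : Algebra K' K2)
      (w : HeightOneSpectrum (𝓞 K2)), ∀ i, blk i = j →
        (∀ k, w.valuation K2 (algebraMap K' K2
          ((((P i).comp (iterP (f i) N)).map (algebraMap K K')).coeff k)) ≤ 1) ∧
        (w.valuation K2 (algebraMap K' K2
          (((P i).comp (iterP (f i) N)).map (algebraMap K K')).leadingCoeff) = 1) ∧
        ¬ HasRoot w ((((P i).comp (iterP (f i) N)).map (algebraMap K K')).map (algebraMap K' K2)) := by
    intro j
    obtain ⟨K2, h1, h2, h3, w, hw1, hw2⟩ := hpl j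
    let alg : Algebra K K2 := ((algebraMap K' K2).comp (algebraMap K K')).toAlgebra
    have halg : algebraMap K K2 = (algebraMap K' K2).comp (algebraMap K K') := rfl
    have h4 : ∀ i, blk i = j → ∃ N0, ∀ N, N0 ≤ N →
        ¬ HasRoot w (((P i).comp (iterP (f i) N)).map (algebraMap K K2)) := by
      intro i hij
      have hoff : Off w (bad i) := by
        intro n hn
        exact hw1 n (Finset.mem_biUnion.2 ⟨i, Finset.mem_univ _, hn⟩)
      exact (hbad i K2 w hoff).2.2 (fun b hb hw => hw2 i b hij hb hw)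
    have h5 : ∀ i, ∃ N0, blk i = j → ∀ N, N0 ≤ N →
        ¬ HasRoot w (((P i).comp (iterP (f i) N)).map (algebraMap K K2)) := by
      intro i
      by_cases hij : blk i = j
      · obtain ⟨N0, hN0⟩ := h4 i hij
        exact ⟨N0, fun _ => hN0⟩
      · exact ⟨0, fun h => absurd h hij⟩
    choose N0 hN0 using h5
    refine ⟨Finset.univ.sup N0, ?_⟩
    intro N hN
    refine ⟨K2, h1, h2, h3, w, ?_⟩
    intro i hij
    have hoff : Off w (bad i) := by
      intro n hn
      exact hw1 n (Finset.mem_biUnion.2 ⟨i, Finset.mem_univ _, hn⟩)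
    obtain ⟨h6, h7, -⟩ := hbad i K2 w hoff
    refine ⟨?_, ?_, ?_⟩
    · intro k
      rw [coeff_map]
      exact h6 N k
    · rw [leadingCoeff_map]
      exact h7 N
    · rw [Polynomial.map_map]
      exact hN0 i hij N (le_trans (Finset.le_sup (Finset.mem_univ i)) hN)
  choose N0 hN0 using hlev
  set N : ℕ := Finset.univ.sup N0 with hN
  -- the polynomials and the Galois field
  set F : ι → K[X] := fun i => (P i).comp (iterP (f i) N) with hFdef
  have hF0 : ∀ i, F i ≠ 0 := fun i => thmI_ne_zero (hP0 i) (by have := hf i; omega) N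
  have hF0' : ∀ i, (F i).map (algebraMap K K') ≠ 0 := fun i => Polynomial.map_ne_zero (hF0 i)
  obtain ⟨L, _, _, _, hGal, hsplit⟩ := exists_closure (fun i => (F i).map (algebraMap K K')) hF0'
  let algKL : Algebra K L := ((algebraMap K' L).comp (algebraMap K K')).toAlgebra
  have halgKL : algebraMap K L = (algebraMap K' L).comp (algebraMap K K') := rfl
  have : IsScalarTower K K' L := IsScalarTower.of_algebraMap_eq (fun x => rfl)
  -- automorphisms for the blocks
  have hσ : ∀ j : J, ∃ σ : L ≃ₐ[K'] L, ∀ i, blk i = j → ∀ r : L,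
      aeval r ((F i).map (algebraMap K K')) = 0 → σ r ≠ r := by
    intro j
    obtain ⟨K2, _, _, _, w, hw⟩ := hN0 j N (Finset.le_sup (Finset.mem_univ j))
    obtain ⟨σ, hσ1, hσ2⟩ := frob_extract (L := L) w
      (fun i : {i // blk i = j} => (F i.1).map (algebraMap K K'))
      (fun i k => (hw i.1 i.2).1 k) (fun i => (hw i.1 i.2).2.1) (fun i => (hw i.1 i.2).2.2)
    refine ⟨AlgEquiv.ofRingEquiv (f := (σ : L ≃+* L)) hσ1, ?_⟩
    intro i hij r hr
    exact hσ2 ⟨i, hij⟩ r hr
  choose σ hσ' using hσ
  set F' : ι → K'[X] := fun i => (F i).map (algebraMap K K') with hF'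
  have : Finite (Roots F' L) := Roots.finite F' hF0'
  have : Finite (L ≃ₐ[K'] L) := inferInstance
  -- a uniform exponent
  have hpow : ∀ (g : L ≃ₐ[K'] L) (p : Roots F' L), ∃ k : ℕ, g ^ (E (blk p.1.1) ^ k) • p = p := by
    intro g p
    obtain ⟨⟨i, r⟩, hr⟩ := p
    simp only at hr ⊢
    let τ : L ≃ₐ[ℚ] L := g.restrictScalars ℚ
    have hτK : ∀ x : K, τ (algebraMap K L x) = algebraMap K L x := by
      intro x
      show g (algebraMap K' L (algebraMap K K' x)) = _
      rw [g.commutes]
      rfl
    have hτz : ∀ y : L, y ^ mi i = 1 → τ y = y := by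
      intro y hy
      have hy' : y ^ m = 1 := by
        obtain ⟨t, ht⟩ := hmdvd i
        rw [ht, pow_mul, hy, one_pow]
      have : NeZero m := ⟨hm0.ne'⟩
      obtain ⟨t, -, ht⟩ := (hz.map_of_injective (algebraMap K' L).injective).eq_pow_of_pow_eq_one hy'
      show g y = y
      rw [← ht, ← map_pow, g.commutes]
    have hr0 : aeval r (F i) = 0 := by
      have h1 : aeval r ((F i).map (algebraMap K K')) = 0 := hr
      rwa [aeval_map_algebraMap] at h1
    have hr1 : aeval ((fun x => aeval x (f i))^[N] r) (P i) = 0 := by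
      rw [hFdef] at hr0
      simp only at hr0
      rw [aeval_comp, thmI_aeval] at hr0
      exact hr0
    obtain ⟨c, hc⟩ := hroot i L _ hr1
    obtain ⟨k, hk⟩ := exists_pow_fix (E (blk i)) (f i) (mi i) (hmi i L) τ hτK hτz (N + 1) r
      ⟨c, by rw [Function.iterate_succ_apply']; exact hc⟩
    refine ⟨k, ?_⟩
    apply Subtype.ext
    rw [Roots.smul_val]
    have h2 : ∀ (n : ℕ) (x : L), (τ ^ n) x = (g ^ n) x := by
      intro n
      induction n with
      | zero => intro x; rfl
      | succ n ih =>
        intro x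
        rw [pow_succ, pow_succ, AlgEquiv.mul_apply, AlgEquiv.mul_apply, ih]
        rfl
    rw [h2] at hk
    exact Prod.ext rfl hk
  obtain ⟨k, hk⟩ : ∃ k : ℕ, ∀ g ∈ (⊤ : Subgroup (L ≃ₐ[K'] L)), ∀ p : Roots F' L,
      g ^ (E (blk p.1.1) ^ k) • p = p := by
    choose kk hkk using hpow
    cases nonempty_fintype (L ≃ₐ[K'] L)
    cases nonempty_fintype (Roots F' L)
    refine ⟨Finset.univ.sup (fun gp : (L ≃ₐ[K'] L) × Roots F' L => kk gp.1 gp.2), ?_⟩
    intro g _ p
    have hle : kk g p ≤ Finset.univ.sup (fun gp : (L ≃ₐ[K'] L) × Roots F' L => kk gp.1 gp.2) :=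
      Finset.le_sup (f := fun gp : (L ≃ₐ[K'] L) × Roots F' L => kk gp.1 gp.2) (Finset.mem_univ (g, p))
    obtain ⟨t, ht⟩ := Nat.exists_eq_add_of_le hle
    rw [ht, pow_add, pow_mul]
    have h3 := hkk g p
    generalize g ^ E (blk p.1.1) ^ kk g p = h at h3
    have h4 : ∀ n : ℕ, h ^ n • p = p := by
      intro n
      induction n with
      | zero => rw [pow_zero, one_smul]
      | succ n ih => rw [pow_succ, mul_smul, h3, ih]
    exact h4 _
  obtain ⟨τ, -, hτ⟩ := combine (fun p : Roots F' L => blk p.1.1) (fun g p => rfl) E hE k ⊤ hk σ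
    (fun j => Subgroup.mem_top _) (by
      rintro ⟨⟨i, r⟩, hr⟩ heq
      have h1 := congrArg Subtype.val heq
      rw [Roots.smul_val] at h1
      exact hσ' (blk i) i rfl r hr (congrArg Prod.snd h1))
  -- conclusion
  have hτK : ∀ x : K, (τ.restrictScalars ℚ) (algebraMap K L x) = algebraMap K L x := by
    intro x
    show τ (algebraMap K' L (algebraMap K K' x)) = _
    rw [τ.commutes]
    rfl
  have hfinal : PosDensity {v : HeightOneSpectrum (𝓞 K) | ∀ i, ¬ HasRoot v (F i)} := by
    refine posDensity_of_rootless (τ.restrictScalars ℚ) hτK F hF0 ?_ ?_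
    · intro i
      have h1 := hsplit i
      rw [Polynomial.map_map] at h1
      exact h1
    · intro i r hr hfix
      have hr' : aeval r (F' i) = 0 := by
        show aeval r ((F i).map (algebraMap K K')) = 0
        rw [aeval_map_algebraMap]
        exact hr
      refine hτ ⟨(i, r), hr'⟩ ?_
      apply Subtype.ext
      rw [Roots.smul_val]
      exact Prod.ext rfl hfix
  refine posDensity_mono ?_ hfinal
  have hfin : (⋃ i, {v : HeightOneSpectrum (𝓞 K) | (∃ n, SameRed v ((act (f i))^[n] (α i)) (β i)) ∧
      ¬ HasRoot v ((P i).comp (iterP (f i) N))}).Finite :=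
    Set.finite_iUnion (fun i => hcoll i (α i) (fun n => hαβ i n) N)
  refine hfin.subset ?_
  rintro v ⟨hv1, hv2⟩
  simp only [AvoidSet, Set.mem_ofPred_eq, not_forall, not_not] at hv2
  obtain ⟨i, n, hv3⟩ := hv2
  rw [Set.mem_iUnion]
  exact ⟨i, ⟨n, hv3⟩, hv1 i⟩

end Pool.Agent.ORB
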