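import Pool.Agent.ORB.RThmI
import Pool.Agent.ORB.ThmI

/-! ORB, rational functions: blocks of the first kind: up to conjugacy over a finite extension, the maps of the
block with wandering `β_i` are iterates of one rational function `h` and the `β_i` are in one grand orbit of `h`. -/

namespace Pool.Agent.ORB

open NumberField IsDedekindDomain Polynomial

universe u

/-- inverse of a map of degree one -/
theorem exists_inverse {F : Type*} [Field F] (μ : RP F) (h : μ.d = 1) :
    ∃ ν : RP F, ∀ x, ν.act (μ.act x) = x := by
  have hA : μ.A = C (μ.A.coeff 1) * X + C (μ.A.coeff 0) := by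
    have h1 := μ.hA
    rw [h] at h1
    exact eq_X_add_C_of_natDegree_le_one h1
  have hB : μ.B = C (μ.B.coeff 1) * X + C (μ.B.coeff 0) := by
    have h1 := μ.hB
    rw [h] at h1
    exact eq_X_add_C_of_natDegree_le_one h1
  set a1 := μ.A.coeff 1
  set a0 := μ.A.coeff 0
  set b1 := μ.B.coeff 1
  set b0 := μ.B.coeff 0
  have hD : a1 * b0 - a0 * b1 ≠ 0 := by
    intro hD
    rcases μ.hv_ne_zero (x := b0) (y := -b1) (by
      by_contra hcon
      push Not at hcon
      have hb1 : b1 = 0 := neg_eq_zero.1 hcon.2
      rw [hcon.1, hb1, map_zero, zero_mul, zero_add] at hB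
      have htop := μ.htop
      rw [h] at htop
      have hcop := μ.hcop
      rw [hB] at hcop
      have h2 : IsUnit μ.A := isCoprime_zero_right.1 hcop
      have h3 : μ.A.natDegree = 0 := natDegree_eq_zero_of_isUnit h2
      rcases htop with h4 | h4
      · exact h4 (coeff_eq_zero_of_natDegree_lt (by omega))
      · exact h4 hb1) with h1 | h1
    · apply h1
      simp only [hv, h, Finset.sum_range_succ, Finset.sum_range_zero]
      have : a1 * b0 - a0 * b1 = 0 := hD
      simp only [pow_zero, pow_one, Nat.sub_self, Nat.sub_zero, zero_add, mul_one]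
      show a0 * -b1 + a1 * b0 = 0
      linear_combination this
    · apply h1
      simp only [hv, h, Finset.sum_range_succ, Finset.sum_range_zero]
      simp only [pow_zero, pow_one, Nat.sub_self, Nat.sub_zero, zero_add, mul_one]
      show b0 * -b1 + b1 * b0 = 0
      ring
  let ν : RP F :=
    { A := C b0 * X - C a0
      B := C (-b1) * X + C a1
      d := 1
      hA := by
        refine le_trans (natDegree_sub_le _ _) (max_le ?_ ?_)
        · exact le_trans (natDegree_C_mul_le _ _) natDegree_X_le
        · rw [natDegree_C]; omega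
      hB := by
        refine le_trans (natDegree_add_le _ _) (max_le ?_ ?_)
        · exact le_trans (natDegree_C_mul_le _ _) natDegree_X_le
        · rw [natDegree_C]; omega
      hcop := by
        refine ⟨C (b1 / (a1 * b0 - a0 * b1)), C (b0 / (a1 * b0 - a0 * b1)), ?_⟩
        have e1 : C (b1 / (a1 * b0 - a0 * b1)) * (C b0 * X - C a0) +
            C (b0 / (a1 * b0 - a0 * b1)) * (C (-b1) * X + C a1) =
            C ((b1 / (a1 * b0 - a0 * b1)) * b0 + (b0 / (a1 * b0 - a0 * b1)) * (-b1)) * X +
            C (-(b1 / (a1 * b0 - a0 * b1)) * a0 + (b0 / (a1 * b0 - a0 * b1)) * a1) := by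
          simp only [C_add, C_mul, C_neg]
          ring
        rw [e1]
        have e2 : (b1 / (a1 * b0 - a0 * b1)) * b0 + (b0 / (a1 * b0 - a0 * b1)) * (-b1) = 0 := by ring
        have e3 : -(b1 / (a1 * b0 - a0 * b1)) * a0 + (b0 / (a1 * b0 - a0 * b1)) * a1 = 1 := by
          have : -(b1 / (a1 * b0 - a0 * b1)) * a0 + (b0 / (a1 * b0 - a0 * b1)) * a1 =
              (a1 * b0 - a0 * b1) / (a1 * b0 - a0 * b1) := by ring
          rw [this, div_self hD]
        rw [e2, e3, C_0, zero_mul, zero_add, C_1]
      htop := by
        by_contra hcon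
        push Not at hcon
        have h1 := hcon.1
        have h2 := hcon.2
        simp at h1 h2
        apply hD
        rw [h1, h2]
        ring }
  have hνA : ∀ x y, hv ν.A ν.d x y = b0 * x - a0 * y := by
    intro x y
    simp only [hv, ν, Finset.sum_range_succ, Finset.sum_range_zero]
    simp [coeff_X, coeff_C]
    ring
  have hνB : ∀ x y, hv ν.B ν.d x y = - b1 * x + a1 * y := by
    intro x y
    simp only [hv, ν, Finset.sum_range_succ, Finset.sum_range_zero]
    simp [coeff_X, coeff_C]
    ring
  refine ⟨ν, ?_⟩
  have key : ∀ x y : F, (x ≠ 0 ∨ y ≠ 0) → ν.act (μ.act (mk2 x y)) = mk2 x y := by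
    intro x y hxy
    rw [μ.act_mk2 hxy, ν.act_mk2 (μ.hv_ne_zero hxy), hνA, hνB]
    have hμA : hv μ.A μ.d x y = a1 * x + a0 * y := by
      simp only [hv, h, Finset.sum_range_succ, Finset.sum_range_zero]
      simp only [pow_zero, pow_one, Nat.sub_self, Nat.sub_zero, zero_add, mul_one]
      show a0 * y + a1 * x = _
      ring
    have hμB : hv μ.B μ.d x y = b1 * x + b0 * y := by
      simp only [hv, h, Finset.sum_range_succ, Finset.sum_range_zero]
      simp only [pow_zero, pow_one, Nat.sub_self, Nat.sub_zero, zero_add, mul_one]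
      show b0 * y + b1 * x = _
      ring
    rw [hμA, hμB]
    have e1 : b0 * (a1 * x + a0 * y) - a0 * (b1 * x + b0 * y) = (a1 * b0 - a0 * b1) * x := by ring
    have e2 : -b1 * (a1 * x + a0 * y) + a1 * (b1 * x + b0 * y) = (a1 * b0 - a0 * b1) * y := by ring
    rw [e1, e2, mk2_mul hD]
  intro x
  induction x using OnePoint.rec with
  | infty =>
    have := key 1 0 (Or.inl one_ne_zero)
    rwa [mk2_zero] at this
  | coe a =>
    have := key a 1 (Or.inr one_ne_zero)
    rwa [mk2_one] at this


instance {F : Type*} [Field F] : Nonempty (RP F) := ⟨RP.one F⟩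

/-- a place of an extension outside of a finite set -/
theorem exists_place (E : Type u) [Field E] [NumberField E] (bad : Finset ℕ) :
    ∃ (K2 : Type u) (_ : Field K2) (_ : NumberField K2) (_ : Algebra E K2)
      (w : HeightOneSpectrum (𝓞 K2)), Off w bad := by
  have hX : Wandering (X ^ 2 : E[X]) 2 := by
    have h1 : ∀ n : ℕ, (fun x => (X ^ 2 : E[X]).eval x)^[n] 2 = ((2 ^ 2 ^ n : ℕ) : E) := by
      intro n
      induction n with
      | zero => simp
      | succ n ih =>
        rw [Function.iterate_succ_apply', ih]
        simp only [eval_pow, eval_X]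
        push_cast
        rw [← pow_mul]
        congr 1
    intro a b hab
    simp only [h1] at hab
    have h2 : (2 ^ 2 ^ a : ℕ) = 2 ^ 2 ^ b := by exact_mod_cast hab
    exact Nat.pow_right_injective le_rfl (Nat.pow_right_injective le_rfl h2)
  obtain ⟨K2, _, _, _, w, hw1, -⟩ := exists_good_prime (X ^ 2 : E[X]) (by rw [natDegree_X_pow]) 2 hX bad
  exact ⟨K2, inferInstance, inferInstance, inferInstance, w, hw1⟩

/-- compositum of two extensions -/
theorem exists_compositum (K K1 K' : Type u) [Field K] [NumberField K] [Field K1] [NumberField K1]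
    [Algebra K K1] [Field K'] [NumberField K'] [Algebra K K'] :
    ∃ (E : Type u) (_ : Field E) (_ : NumberField E) (_ : Algebra K1 E) (_ : Algebra K' E),
      ∀ x : K, algebraMap K1 E (algebraMap K K1 x) = algebraMap K' E (algebraMap K K' x) := by
  let pb := Field.powerBasisOfFiniteOfSeparable K K1
  have hint : IsIntegral K pb.gen := Algebra.IsIntegral.isIntegral _
  have hne : (minpoly K pb.gen).map (algebraMap K K') ≠ 0 :=
    Polynomial.map_ne_zero (minpoly.ne_zero hint)
  obtain ⟨E, _, _, _, hE⟩ := exists_splitting (K := K') (fun _ : Unit => (minpoly K pb.gen).map (algebraMap K K'))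
    (fun _ => hne)
  let algKE : Algebra K E := ((algebraMap K' E).comp (algebraMap K K')).toAlgebra
  have h1 := hE ()
  rw [Polynomial.map_map] at h1
  have hdeg : ((minpoly K pb.gen).map ((algebraMap K' E).comp (algebraMap K K'))).degree ≠ 0 := by
    rw [degree_map]
    exact (minpoly.degree_pos hint).ne'
  obtain ⟨r, hr⟩ := h1.exists_eval_eq_zero hdeg
  have hr' : aeval r (minpoly K pb.gen) = 0 := by
    rw [aeval_def, ← eval_map]
    exact hr
  let φ : K1 →ₐ[K] E := pb.lift r hr'
  refine ⟨E, inferInstance, inferInstance, φ.toRingHom.toAlgebra, inferInstance, ?_⟩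
  intro x
  exact φ.commutes x

/-- block condition of the first kind -/
def OrbitBlock {K : Type u} [Field K] [NumberField K] {I : Type} (f : I → RatFunc K)
    (β : I → OnePoint K) : Prop :=
  ∃ (K1 : Type u) (_ : Field K1) (_ : NumberField K1) (_ : Algebra K K1) (h : RatFunc K1)
    (c : OnePoint K1), 2 ≤ rdeg h ∧
    ∀ i, Function.Injective (fun n : ℕ => (ract (RingHom.id K) (f i))^[n] (β i)) →
      ∃ (μ : RatFunc K1) (b : OnePoint K1) (k : ℕ), rdeg μ = 1 ∧ 1 ≤ k ∧
        (∀ x : OnePoint K1, ract (algebraMap K K1) (f i) (ract (RingHom.id K1) μ x) =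
          ract (RingHom.id K1) μ ((ract (RingHom.id K1) h)^[k] x)) ∧
        ract (RingHom.id K1) μ b = OnePoint.map (algebraMap K K1) (β i) ∧
        ∃ m n : ℕ, (ract (RingHom.id K1) h)^[m] b = (ract (RingHom.id K1) h)^[n] c

theorem not_injective_iterate {X : Type*} (T : X → X) (x : X) (n : ℕ)
    (h : ¬ Function.Injective (fun k : ℕ => T^[k] x)) :
    ¬ Function.Injective (fun k : ℕ => T^[k] (T^[n] x)) := by
  intro hinj
  apply h
  have key : ∀ a b : ℕ, a < b → T^[a] x ≠ T^[b] x := by
    intro a b hab he
    have h1 : T^[a] (T^[n] x) = T^[b] (T^[n] x) := by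
      rw [← Function.iterate_add_apply, ← Function.iterate_add_apply, add_comm a n, add_comm b n,
        Function.iterate_add_apply, Function.iterate_add_apply, he]
    have := hinj h1
    omega
  intro a b hab
  rcases lt_trichotomy a b with h1 | h1 | h1
  · exact absurd hab (key a b h1)
  · exact h1
  · exact absurd hab.symm (key b a h1)

theorem injective_iterate {X : Type*} (T : X → X) (x : X) (n : ℕ)
    (h : Function.Injective (fun k : ℕ => T^[k] x)) :
    Function.Injective (fun k : ℕ => T^[k] (T^[n] x)) := by
  intro a b hab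
  simp only [← Function.iterate_add_apply] at hab
  have := h hab
  omega

theorem semiconj_iterate {X Y : Type*} (μ : X → Y) (S : X → X) (T : Y → Y) (h : ∀ x, T (μ x) = μ (S x))
    (n : ℕ) (x : X) : T^[n] (μ x) = μ (S^[n] x) := by
  induction n with
  | zero => rfl
  | succ n ih => rw [Function.iterate_succ_apply', Function.iterate_succ_apply', ih, h]

/-- the blocks of the first kind provide automorphisms -/
theorem provides_of_orbit {K : Type u} [Field K] [NumberField K] {I : Type} [Finite I]
    (f : I → RatFunc K) (hf : ∀ i, 2 ≤ rdeg (f i)) (β : I → OnePoint K) (hO : OrbitBlock f β) :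
    Provides (fun i => RP.ofRat (f i)) β := by
  classical
  cases nonempty_fintype I
  refine provides_of_places _ hf β ?_
  intro bad K' _ _ _
  obtain ⟨K1, _, _, _, h0, c, hh, hO⟩ := hO
  set h : RP K1 := RP.ofRat h0 with hh0
  have hact : ract (RingHom.id K1) h0 = h.act := ract_id h0
  obtain ⟨E, _, _, algK1E, algK'E, hcomm⟩ := exists_compositum K K1 K'
  let algKE : Algebra K E := ((algebraMap K1 E).comp (algebraMap K K1)).toAlgebra
  have t1 : IsScalarTower K K1 E := IsScalarTower.of_algebraMap_eq (fun x => rfl)
  have t2 : IsScalarTower K K' E := IsScalarTower.of_algebraMap_eq hcomm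
  by_cases hW : ∃ i0, Function.Injective (fun n : ℕ => (RP.ofRat (f i0)).act^[n] (β i0))
  · obtain ⟨i0, hi0⟩ := hW
    -- data for the wandering indices
    have hO' : ∀ i, Function.Injective (fun n : ℕ => (RP.ofRat (f i)).act^[n] (β i)) →
        ∃ (μ ν : RP K1) (b : OnePoint K1) (k : ℕ), 1 ≤ k ∧
          (∀ x, ν.act (μ.act x) = x) ∧
          (∀ x : OnePoint K1, ((RP.ofRat (f i)).map (algebraMap K K1)).act (μ.act x) =
            μ.act (h.act^[k] x)) ∧ μ.act b = pmap (algebraMap K K1) (β i) ∧
          ∃ m n : ℕ, h.act^[m] b = h.act^[n] c := by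
      intro i hi
      obtain ⟨μ, b, k, hμ, hk, h1, h2, m, n, h3⟩ := hO i (by rw [ract_id]; exact hi)
      obtain ⟨ν, hν⟩ := exists_inverse (RP.ofRat μ) hμ
      refine ⟨RP.ofRat μ, ν, b, k, hk, hν, ?_, ?_, m, n, ?_⟩
      · intro x
        have := h1 x
        rw [ract_id, ract_id, ract_fun_eq] at this
        exact this
      · rw [ract_id] at h2
        exact h2
      · rw [hact] at h3
        exact h3
    -- a common forward image
    have key : ∃ T : ℕ, ∀ i, Function.Injective (fun n : ℕ => (RP.ofRat (f i)).act^[n] (β i)) →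
        ∃ (μ ν : RP K1) (b : OnePoint K1) (k : ℕ), 1 ≤ k ∧
          (∀ x, ν.act (μ.act x) = x) ∧
          (∀ x : OnePoint K1, ((RP.ofRat (f i)).map (algebraMap K K1)).act (μ.act x) =
            μ.act (h.act^[k] x)) ∧ μ.act b = pmap (algebraMap K K1) (β i) ∧
          ∃ s : ℕ, h.act^[s] b = h.act^[T] c := by
      have h1 : ∀ i, ∃ t : ℕ, Function.Injective (fun n : ℕ => (RP.ofRat (f i)).act^[n] (β i)) →
          ∃ (μ ν : RP K1) (b : OnePoint K1) (k : ℕ), 1 ≤ k ∧
          (∀ x, ν.act (μ.act x) = x) ∧
          (∀ x : OnePoint K1, ((RP.ofRat (f i)).map (algebraMap K K1)).act (μ.act x) =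
            μ.act (h.act^[k] x)) ∧ μ.act b = pmap (algebraMap K K1) (β i) ∧
          ∃ s : ℕ, h.act^[s] b = h.act^[t] c := by
        intro i
        by_cases hi : Function.Injective (fun n : ℕ => (RP.ofRat (f i)).act^[n] (β i))
        · obtain ⟨μ, ν, b, k, h1, h2, h3, h4, m, n, h5⟩ := hO' i hi
          exact ⟨n, fun _ => ⟨μ, ν, b, k, h1, h2, h3, h4, m, h5⟩⟩
        · exact ⟨0, fun h => absurd h hi⟩
      choose t ht using h1
      refine ⟨Finset.univ.sup t, ?_⟩
      intro i hi
      obtain ⟨μ, ν, b, k, h1, h2, h3, h4, s, h5⟩ := ht i hi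
      have hle : t i ≤ Finset.univ.sup t := Finset.le_sup (Finset.mem_univ i)
      refine ⟨μ, ν, b, k, h1, h2, h3, h4, (Finset.univ.sup t - t i) + s, ?_⟩
      rw [Function.iterate_add_apply, h5, ← Function.iterate_add_apply]
      congr 2
      omega
    obtain ⟨T, hT⟩ := key
    set c' : OnePoint K1 := h.act^[T] c with hc'
    -- `c'` is wandering
    have hcW : Function.Injective (fun n : ℕ => h.act^[n] c') := by
      obtain ⟨μ, ν, b, k, hk, hν, hconj, hb, s, hs⟩ := hT i0 hi0
      rw [← hs]
      refine injective_iterate _ _ _ ?_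
      by_contra hcon
      -- `b` is preperiodic under `h`, hence under `h^k`, hence `β` is preperiodic
      have hbk : ¬ Function.Injective (fun n : ℕ => (h.act^[k])^[n] b) := by
        intro hinj
        rw [Function.not_injective_iff] at hcon
        obtain ⟨p, q, hpq, hne⟩ := hcon
        have aux : ∀ p q : ℕ, p < q → h.act^[p] b = h.act^[q] b → False := by
          intro p q hlt he
          -- all the iterates lie in a finite set
          obtain ⟨F, hF⟩ := orbit_finite (T := h.act) (b := b) (by
            intro hinj'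
            have := hinj' he
            omega)
          have hfin : (Set.range (fun n : ℕ => (h.act^[k])^[n] b)).Finite := by
            refine F.finite_toSet.subset ?_
            rintro _ ⟨n, rfl⟩
            simp only [← Function.iterate_mul]
            exact hF _
          exact Set.infinite_range_of_injective hinj hfin
        rcases lt_or_gt_of_ne hne with h1 | h1
        · exact aux p q h1 hpq
        · exact aux q p h1 hpq.symm
      apply hbk
      intro p q hpq
      simp only at hpq
      apply hi0
      apply pmap_injective (algebraMap K K1)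
      simp only
      rw [← RP.act_map_iterate, ← RP.act_map_iterate, ← hb, semiconj_iterate _ _ _ hconj,
        semiconj_iterate _ _ _ hconj, hpq]
    -- bad places
    choose! μ ν b k hk hν hconj hb s hs using hT
    choose bad1 hbad1 using fun i => RP.exists_bad ((RP.ofRat (f i)).map (algebraMap K K1))
    choose bad2 hbad2 using fun i => RP.exists_bad (μ i)
    choose bad3 hbad3 using fun i => RP.exists_bad (ν i)
    obtain ⟨bad4, hbad4⟩ := RP.exists_bad h
    set badall : Finset ℕ := bad ∪ (Finset.univ.biUnion (fun i => bad1 i ∪ bad2 i ∪ bad3 i)) ∪ bad4 with hball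
    obtain ⟨K2, _, _, algEK2, w, hw1, hw2⟩ := rexists_good_prime (h.map (algebraMap K1 E)) hh
      (pmap (algebraMap K1 E) c') (by
        intro p q hpq
        simp only [RP.act_map_iterate] at hpq
        exact hcW (pmap_injective _ hpq)) badall
    let algK1K2 : Algebra K1 K2 := ((algebraMap E K2).comp (algebraMap K1 E)).toAlgebra
    let algKK2 : Algebra K K2 := ((algebraMap E K2).comp (algebraMap K E)).toAlgebra
    let algK'K2 : Algebra K' K2 := ((algebraMap E K2).comp (algebraMap K' E)).toAlgebra
    have u1 : IsScalarTower K K' K2 := IsScalarTower.of_algebraMap_eq (fun x => by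
      show algebraMap E K2 (algebraMap K E x) = algebraMap E K2 (algebraMap K' E (algebraMap K K' x))
      rw [← IsScalarTower.algebraMap_apply K K' E])
    have u2 : IsScalarTower K K1 K2 := IsScalarTower.of_algebraMap_eq (fun x => rfl)
    refine ⟨K2, inferInstance, inferInstance, algKK2, algK'K2, w, u1, ?_, ?_⟩
    · intro m hm
      exact hw1 m (by rw [hball]; exact Finset.mem_union_left _ (Finset.mem_union_left _ hm))
    · intro i hi
      have hofi : ∀ t, t ⊆ bad1 i ∪ bad2 i ∪ bad3 i → Off w t := by
        intro t ht m hm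
        refine hw1 m ?_
        rw [hball]
        refine Finset.mem_union_left _ (Finset.mem_union_right _ ?_)
        exact Finset.mem_biUnion.2 ⟨i, Finset.mem_univ _, ht hm⟩
      have g1 := hbad1 i K2 w (hofi _ (by
        intro m hm
        exact Finset.mem_union_left _ (Finset.mem_union_left _ hm)))
      have g2 := hbad2 i K2 w (hofi _ (by
        intro m hm
        exact Finset.mem_union_left _ (Finset.mem_union_right _ hm)))
      have g3 := hbad3 i K2 w (hofi _ (by
        intro m hm
        exact Finset.mem_union_right _ hm))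
      have g4 := hbad4 K2 w (fun m hm => hw1 m (by rw [hball]; exact Finset.mem_union_right _ hm))
      -- `b i` is not periodic under `h`
      have hnb : RNonPer w (h.map (algebraMap K1 K2)) (pmap (algebraMap K1 K2) (b i)) := by
        refine RNonPer.of_iterate g4 (n := s i) ?_
        rw [RP.act_map_iterate, hs i hi]
        have h5 : (h.map (algebraMap K1 E)).map (algebraMap E K2) = h.map (algebraMap K1 K2) := by
          rw [RP.map_map]
          rfl
        rw [h5, pmap_comp] at hw2
        exact hw2
      intro t ht hsame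
      have hβ : pmap (algebraMap K K2) (β i) = pmap (algebraMap K1 K2) ((μ i).act (b i)) := by
        rw [hb i hi, pmap_comp]
        rfl
      have hit : ((RP.ofRat (f i)).map (algebraMap K K2)).act^[t] (pmap (algebraMap K K2) (β i)) =
          pmap (algebraMap K1 K2) ((μ i).act ((h.act^[k i])^[t] (b i))) := by
        have h6 : (RP.ofRat (f i)).map (algebraMap K K2) =
            ((RP.ofRat (f i)).map (algebraMap K K1)).map (algebraMap K1 K2) := by
          rw [RP.map_map]
          rfl
        rw [hβ, h6, RP.act_map_iterate, semiconj_iterate _ _ _ (hconj i hi)]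
      rw [hit, hβ, ← RP.act_map, ← RP.act_map] at hsame
      have h7 := g3.sameRed hsame
      rw [RP.act_map, RP.act_map, RP.act_map, RP.act_map, hν i hi, hν i hi, ← Function.iterate_mul] at h7
      refine hnb (k i * t) ?_ ?_
      · exact Nat.mul_pos (hk i hi) ht
      · rw [RP.act_map_iterate]
        exact h7
  · -- no wandering point: any place of `E`
    obtain ⟨K2, _, _, algEK2, w, hw1⟩ := exists_place E bad
    let algKK2 : Algebra K K2 := ((algebraMap E K2).comp (algebraMap K E)).toAlgebra
    let algK'K2 : Algebra K' K2 := ((algebraMap E K2).comp (algebraMap K' E)).toAlgebra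
    have u1 : IsScalarTower K K' K2 := IsScalarTower.of_algebraMap_eq (fun x => by
      show algebraMap E K2 (algebraMap K E x) = algebraMap E K2 (algebraMap K' E (algebraMap K K' x))
      rw [← IsScalarTower.algebraMap_apply K K' E])
    refine ⟨K2, inferInstance, inferInstance, algKK2, algK'K2, w, u1, hw1, ?_⟩
    intro i hi
    exact absurd ⟨i, hi⟩ hW

end Pool.Agent.ORB
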