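import Pool.Agent.ORB.RPair
import Pool.Agent.ORB.Exps

/-! ORB, rational functions, R6b: the Galois action on the fibres of Chebyshev maps. -/

namespace Pool.Agent.ORB

open Polynomial

theorem cheb_pair {F : Type*} [Field F] (w v w1 v1 : F) (d : ℕ) (hwv : w * v = 1)
    (h1 : w1 * v1 = 1) (h : w ^ d + v ^ d = w1 ^ d + v1 ^ d) : w1 ^ d = w ^ d ∨ v1 ^ d = w ^ d := by
  have e1 : w ^ d * v ^ d = 1 := by rw [← mul_pow, hwv, one_pow]
  have e2 : w1 ^ d * v1 ^ d = 1 := by rw [← mul_pow, h1, one_pow]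
  have h3 : (w1 ^ d - w ^ d) * (v1 ^ d - w ^ d) = 0 := by
    linear_combination e2 - w ^ d * (- h) - e1
  rcases mul_eq_zero.1 h3 with h4 | h4
  · exact Or.inl (sub_eq_zero.1 h4)
  · exact Or.inr (sub_eq_zero.1 h4)

theorem cheb_dickson_comm {L : Type*} [Field L] [NumberField L] (τ : L ≃ₐ[ℚ] L) (d : ℕ) (r : L) :
    τ ((dickson 1 (1 : L) d).eval r) = (dickson 1 (1 : L) d).eval (τ r) := by
  have h := map_dickson (k := 1) (a := (1 : L)) ((τ : L ≃+* L) : L →+* L) d
  rw [map_one] at h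
  conv_rhs => rw [← h]
  rw [show (τ r) = ((τ : L ≃+* L) : L →+* L) r from rfl, eval_map_apply]
  rfl

theorem cheb_fix {L : Type*} [Field L] [NumberField L] (τ : L ≃ₐ[ℚ] L) (d : ℕ) (hd : d ≠ 0)
    (hζ : ∃ ζ : L, IsPrimitiveRoot ζ d) (hfix : ∀ z : L, z ^ d = 1 → τ z = z) (r : L)
    (hr : τ ((dickson 1 (1 : L) d).eval r) = (dickson 1 (1 : L) d).eval r) :
    (τ ^ (2 * d)) r = r := by
  obtain ⟨ζ, hζ⟩ := hζ
  rw [cheb_dickson_comm] at hr
  have two : ∀ x : L, τ (τ x) = x → (τ ^ (2 * d)) x = x := by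
    intro x hx
    apply pow_fix_of_dvd τ (s := 2) _ (dvd_mul_right 2 d)
    rw [pow_two, AlgEquiv.mul_apply, hx]
  set Ω := AlgebraicClosure L with hΩ
  have hroot : ∀ x : L, ∃ w v : Ω, w * v = 1 ∧ w + v = algebraMap L Ω x := by
    intro x
    obtain ⟨s, hs⟩ := IsAlgClosed.exists_pow_nat_eq ((algebraMap L Ω x) ^ 2 - 4) (n := 2) (by omega)
    refine ⟨(algebraMap L Ω x + s) / 2, (algebraMap L Ω x - s) / 2, ?_, ?_⟩
    · have : (algebraMap L Ω x + s) / 2 * ((algebraMap L Ω x - s) / 2) =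
          ((algebraMap L Ω x) ^ 2 - s ^ 2) / 4 := by ring
      rw [this, hs]
      ring
    · ring
  obtain ⟨w, v, hwv, hwr⟩ := hroot r
  have hd1 : ∀ (x : L) (a b : Ω), a * b = 1 → a + b = algebraMap L Ω x →
      algebraMap L Ω ((dickson 1 (1 : L) d).eval x) = a ^ d + b ^ d := by
    intro x a b hab hx
    rw [← dickson_one_one_eval_add_inv a b hab d, hx]
    have h := map_dickson (k := 1) (a := (1 : L)) (algebraMap L Ω) d
    rw [map_one] at h
    rw [← h, eval_map_apply]
  by_cases hw : ∃ w0 : L, algebraMap L Ω w0 = w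
  · obtain ⟨w0, hw0⟩ := hw
    set v0 : L := r - w0 with hv0
    have hv : algebraMap L Ω v0 = v := by
      rw [hv0, map_sub, hw0, ← hwr]; ring
    have h0 : w0 * v0 = 1 := by
      apply (algebraMap L Ω).injective
      rw [map_mul, hw0, hv, hwv, map_one]
    have hr0 : r = w0 + v0 := by rw [hv0]; ring
    have hab : τ w0 * τ v0 = 1 := by rw [← map_mul, h0, map_one]
    have hs : w0 ^ d + v0 ^ d = (τ w0) ^ d + (τ v0) ^ d := by
      rw [← dickson_one_one_eval_add_inv w0 v0 h0 d, ← dickson_one_one_eval_add_inv _ _ hab d,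
        ← map_add, ← hr0, hr]
    rcases cheb_pair w0 v0 (τ w0) (τ v0) d h0 hab hs with h | h
    · set z := τ w0 * v0 with hz
      have hzd : z ^ d = 1 := by
        rw [hz, mul_pow, h, ← mul_pow, h0, one_pow]
      have hzf := hfix z hzd
      have ha : τ w0 = z * w0 := by
        rw [hz, mul_assoc, mul_comm v0, h0, mul_one]
      have hj : ∀ j : ℕ, (τ ^ j) w0 = z ^ j * w0 := by
        intro j
        induction j with
        | zero => simp
        | succ j ih =>
          rw [pow_succ', AlgEquiv.mul_apply, ih, map_mul, map_pow, hzf, ha]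
          ring
      have hw1 : (τ ^ d) w0 = w0 := by rw [hj, hzd, one_mul]
      have hv1 : (τ ^ d) v0 = v0 := by
        have h5 : w0 * (τ ^ d) v0 = 1 := by
          calc w0 * (τ ^ d) v0 = (τ ^ d) w0 * (τ ^ d) v0 := by rw [hw1]
            _ = (τ ^ d) (w0 * v0) := by rw [map_mul]
            _ = 1 := by rw [h0, map_one]
        have h6 : w0 ≠ 0 := left_ne_zero_of_mul_eq_one h0
        exact mul_left_cancel₀ h6 (h5.trans h0.symm)
      have hr1 : (τ ^ d) r = r := by rw [hr0, map_add, hw1, hv1]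
      exact pow_fix_of_dvd τ hr1 (dvd_mul_left d 2)
    · -- `τ v0 = z w0`
      set z := τ v0 * v0 with hz
      have hzd : z ^ d = 1 := by
        rw [hz, mul_pow, h, ← mul_pow, h0, one_pow]
      have hzf := hfix z hzd
      have ha : τ v0 = z * w0 := by
        rw [hz, mul_assoc, mul_comm v0, h0, mul_one]
      have hb : z * τ w0 = v0 := by
        have hv00 : v0 ≠ 0 := right_ne_zero_of_mul_eq_one h0
        rw [hz, mul_comm (τ v0), mul_assoc, mul_comm (τ v0), hab, mul_one]
      have hz0 : z ≠ 0 := by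
        intro h00
        rw [h00, zero_pow hd] at hzd
        exact zero_ne_one hzd
      have hv2 : τ (τ v0) = v0 := by rw [ha, map_mul, hzf, hb]
      have hw2 : τ (τ w0) = w0 := by
        have h5 : τ (τ w0) * v0 = 1 := by
          calc τ (τ w0) * v0 = τ (τ w0) * τ (τ v0) := by rw [hv2]
            _ = τ (τ (w0 * v0)) := by rw [map_mul, map_mul]
            _ = 1 := by rw [h0, map_one, map_one]
        exact mul_right_cancel₀ (right_ne_zero_of_mul_eq_one h0) (h5.trans h0.symm)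
      apply two
      rw [hr0, map_add, map_add, hv2, hw2]
  · apply two
    obtain ⟨w1, v1, hwv1, hwr1⟩ := hroot (τ r)
    have hs : w ^ d + v ^ d = w1 ^ d + v1 ^ d := by
      rw [← hd1 r w v hwv hwr, ← hd1 (τ r) w1 v1 hwv1 hwr1, hr]
    -- choose the sign
    have key : ∃ a b : Ω, a * b = 1 ∧ a + b = algebraMap L Ω (τ r) ∧ a ^ d = w ^ d := by
      rcases cheb_pair w v w1 v1 d hwv hwv1 hs with h | h
      · exact ⟨w1, v1, hwv1, hwr1, h⟩
      · exact ⟨v1, w1, by rw [mul_comm]; exact hwv1, by rw [add_comm]; exact hwr1, h⟩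
    obtain ⟨a, b, hab, hr1, had⟩ := key
    have hz : (a * v) ^ d = 1 := by rw [mul_pow, had, ← mul_pow, hwv, one_pow]
    have hζ' : IsPrimitiveRoot (algebraMap L Ω ζ) d := hζ.map_of_injective (algebraMap L Ω).injective
    have : NeZero d := ⟨hd⟩
    obtain ⟨i, -, hi⟩ := hζ'.eq_pow_of_pow_eq_one hz
    set z : L := ζ ^ i with hzdef
    have hz1 : algebraMap L Ω z = a * v := by rw [hzdef, map_pow, hi]
    have hzd : z ^ d = 1 := by
      rw [hzdef, ← pow_mul, mul_comm, pow_mul, hζ.pow_eq_one, one_pow]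
    have hz0 : z ≠ 0 := by
      intro h00
      rw [h00, zero_pow hd] at hzd
      exact zero_ne_one hzd
    have ha : a = algebraMap L Ω z * w := by
      rw [hz1, mul_assoc, mul_comm v, hwv, mul_one]
    have hb : b = algebraMap L Ω z⁻¹ * v := by
      have h5 : algebraMap L Ω z * b = v := by
        rw [hz1, mul_comm a, mul_assoc, hab, mul_one]
      rw [← h5, ← mul_assoc, ← map_mul, inv_mul_cancel₀ hz0, map_one, one_mul]
    have hlin : algebraMap L Ω (z - z⁻¹) * w = algebraMap L Ω (τ r - z⁻¹ * r) := by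
      rw [map_sub, map_sub, map_mul, ← hr1, ← hwr, ha, hb]
      ring
    have hzz : z = z⁻¹ := by
      by_contra hne
      apply hw
      have hne' : z - z⁻¹ ≠ 0 := sub_ne_zero.2 hne
      refine ⟨(τ r - z⁻¹ * r) / (z - z⁻¹), ?_⟩
      rw [map_div₀, ← hlin, mul_div_cancel_left₀]
      rw [Ne, map_eq_zero]
      exact hne'
    have hτr : τ r = z * r := by
      have h6 : algebraMap L Ω (τ r - z⁻¹ * r) = 0 := by
        rw [← hlin, ← hzz, sub_self, map_zero, zero_mul]
      have h7 : τ r - z⁻¹ * r = 0 := by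
        rwa [map_eq_zero] at h6
      rw [← hzz] at h7
      exact sub_eq_zero.1 h7
    have hz2 : z * z = 1 := by
      conv_lhs => rw [hzz]
      rw [← hzz]
      nth_rewrite 2 [hzz]
      exact mul_inv_cancel₀ hz0
    rw [hτr, map_mul, hfix z hzd, hτr, ← mul_assoc, hz2, one_mul]

end Pool.Agent.ORB
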