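import Pool.Agent.ORB.RPair

/-! ORB, rational functions: public definitions. -/

namespace Pool.Agent.ORB

open NumberField IsDedekindDomain Polynomial

universe u

open Classical in
/-- action of a rational function `f ∈ K(x)` on `P^1(L) = L ∪ {∞}`, through `φ : K → L`: a point `a ∈ L` goes to
`num(a) / denom(a)`, or to `∞` if `denom(a) = 0`; and `∞` goes to the quotient of the coefficients of `x^(deg f)`
in numerator and denominator, or to `∞` if the second one is zero -/
noncomputable def ract {K L : Type*} [Field K] [Field L] (φ : K →+* L) (f : RatFunc K) (x : OnePoint L) :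
    OnePoint L :=
  OnePoint.elim x
    (if φ (f.denom.coeff (rdeg f)) = 0 then OnePoint.infty
      else ((φ (f.num.coeff (rdeg f)) / φ (f.denom.coeff (rdeg f)) : L) : OnePoint L))
    (fun a => if f.denom.eval₂ φ a = 0 then OnePoint.infty
      else ((f.num.eval₂ φ a / f.denom.eval₂ φ a : L) : OnePoint L))

theorem ract_eq {K L : Type*} [Field K] [Field L] (φ : K →+* L) (f : RatFunc K) (x : OnePoint L) :
    ract φ f x = ((RP.ofRat f).map φ).act x := by
  induction x using OnePoint.rec with
  | infty =>
    rw [RP.act_infty]
    simp only [RP.map, RP.ofRat, coeff_map]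
    rfl
  | coe a =>
    rw [RP.act_coe]
    simp only [RP.map, RP.ofRat, eval_map]
    rfl

theorem ract_fun_eq {K L : Type*} [Field K] [Field L] (φ : K →+* L) (f : RatFunc K) :
    ract φ f = ((RP.ofRat f).map φ).act := funext (ract_eq φ f)

theorem RP.map_id {K : Type*} [Field K] (f : RP K) : f.map (RingHom.id K) = f := by
  simp only [RP.map, Polynomial.map_id]

theorem ract_id {K : Type*} [Field K] (f : RatFunc K) :
    ract (RingHom.id K) f = (RP.ofRat f).act := by
  rw [ract_fun_eq, RP.map_id]

/-- the set of the primes `v` such that `f_i^n(α_i)` and `β_i` have different reductions for all `i`, `n` -/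
def RAvoidSet {K : Type u} [Field K] [NumberField K] {ι : Type*} (f : ι → RatFunc K)
    (α β : ι → OnePoint K) : Set (HeightOneSpectrum (𝓞 K)) :=
  {v | ∀ i, ∀ n : ℕ, ¬ SameRed v ((ract (RingHom.id K) (f i))^[n] (α i)) (β i)}

end Pool.Agent.ORB
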