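import Pool.Agent.ORB.RPair
import Pool.Agent.ORB.Exps
import Pool.Agent.ORB.RCheb

/-! ORB, rational functions, R6: exponents. -/

namespace Pool.Agent.ORB

open NumberField IsDedekindDomain Polynomial

universe u

section assoc

variable {F : Type*} [Field F]

theorem RP.d_eq (f : RP F) : f.d = max f.A.natDegree f.B.natDegree := by
  apply le_antisymm
  · rcases f.htop with h | h
    · exact le_trans (le_natDegree_of_ne_zero h) (le_max_left _ _)
    · exact le_trans (le_natDegree_of_ne_zero h) (le_max_right _ _)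
  · exact max_le f.hA f.hB

/-- two pairs defining the same rational function are proportional -/
theorem RP.proportional (f g : RP F) (h : f.A * g.B = g.A * f.B) :
    ∃ c : F, c ≠ 0 ∧ g.A = C c * f.A ∧ g.B = C c * f.B ∧ f.d = g.d := by
  obtain ⟨U, V, hUV⟩ := f.hcop
  obtain ⟨U', V', hUV'⟩ := g.hcop
  have h1 : (U * g.A + V * g.B) * f.A = g.A := by
    calc (U * g.A + V * g.B) * f.A = U * f.A * g.A + V * (f.A * g.B) := by ring
      _ = g.A * (U * f.A + V * f.B) := by rw [h]; ring
      _ = g.A := by rw [hUV, mul_one]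
  have h2 : (U * g.A + V * g.B) * f.B = g.B := by
    calc (U * g.A + V * g.B) * f.B = U * (g.A * f.B) + V * f.B * g.B := by ring
      _ = g.B * (U * f.A + V * f.B) := by rw [← h]; ring
      _ = g.B := by rw [hUV, mul_one]
  have h3 : (U' * f.A + V' * f.B) * (U * g.A + V * g.B) = 1 := by
    calc (U' * f.A + V' * f.B) * (U * g.A + V * g.B)
        = U' * ((U * g.A + V * g.B) * f.A) + V' * ((U * g.A + V * g.B) * f.B) := by ring
      _ = 1 := by rw [h1, h2, hUV']
  have hu : IsUnit (U * g.A + V * g.B) := IsUnit.of_mul_eq_one _ (by rw [mul_comm]; exact h3)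
  obtain ⟨c, hc, hceq⟩ := Polynomial.isUnit_iff.1 hu
  have hc0 : c ≠ 0 := hc.ne_zero
  rw [← hceq] at h1 h2
  refine ⟨c, hc0, h1.symm, h2.symm, ?_⟩
  rw [f.d_eq, g.d_eq, ← h1, ← h2, natDegree_C_mul hc0, natDegree_C_mul hc0]

theorem RP.act_of_proportional {F' : Type*} [Field F'] (φ : F →+* F') (f g : RP F)
    (h : f.A * g.B = g.A * f.B) (x : OnePoint F') : (f.map φ).act x = (g.map φ).act x := by
  obtain ⟨c, hc, hA, hB, hd⟩ := f.proportional g h
  have hc' : φ c ≠ 0 := (map_ne_zero φ).2 hc
  induction x using OnePoint.rec with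
  | infty =>
    rw [RP.act_infty, RP.act_infty]
    simp only [RP.map, coeff_map, hA, hB, coeff_C_mul, map_mul, ← hd]
    rw [mk2_mul hc']
  | coe a =>
    rw [RP.act_coe, RP.act_coe]
    simp only [RP.map, hA, hB, Polynomial.map_mul, map_C, eval_mul, eval_C]
    rw [mk2_mul hc']

end assoc

/-- composition of rational functions -/
noncomputable def rcomp {K : Type*} [Field K] (g h : RatFunc K) : RatFunc K :=
  aeval h g.num / aeval h g.denom

/-- `RHasExp E f`: `f` is a composition of rational functions `g` such that all primes `≤ deg g` divide `E`,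
of power maps `x^d` such that all primes dividing `d` divide `E`, and of Chebyshev maps `T_d`
(`T_d(x + 1/x) = x^d + 1/x^d`) such that all primes dividing `2 d` divide `E` -/
inductive RHasExp {K : Type*} [Field K] (E : ℕ) : RatFunc K → Prop
  | small (g : RatFunc K) (h : ∀ p : ℕ, p.Prime → p ≤ rdeg g → p ∣ E) : RHasExp E g
  | power (d : ℕ) (h : ∀ p : ℕ, p.Prime → p ∣ d → p ∣ E) : RHasExp E (RatFunc.X ^ d)
  | cheb (d : ℕ) (h2 : 2 ∣ E) (h : ∀ p : ℕ, p.Prime → p ∣ d → p ∣ E) :
      RHasExp E (algebraMap K[X] (RatFunc K) (dickson 1 (1 : K) d))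
  | comp (g h : RatFunc K) (hg : RHasExp E g) (hh : RHasExp E h) : RHasExp E (rcomp g h)

theorem aeval_hc {K : Type*} [Field K] (P : K[X]) {e : ℕ} (he : P.natDegree ≤ e) (h : RatFunc K) :
    aeval h P * (algebraMap K[X] (RatFunc K) h.denom) ^ e =
      algebraMap K[X] (RatFunc K) (hc P e h.num h.denom) := by
  have hd : algebraMap K[X] (RatFunc K) h.denom ≠ 0 := by
    exact RatFunc.algebraMap_ne_zero h.denom_ne_zero
  have hn : h * algebraMap K[X] (RatFunc K) h.denom = algebraMap K[X] (RatFunc K) h.num := by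
    have h4 := RatFunc.num_div_denom h
    rw [div_eq_iff hd] at h4
    exact h4.symm
  unfold hc
  rw [aeval_eq_sum_range' (Nat.lt_succ_of_le he), Finset.sum_mul, map_sum]
  refine Finset.sum_congr rfl (fun i hi => ?_)
  have hi' : i ≤ e := Nat.lt_succ_iff.1 (Finset.mem_range.1 hi)
  obtain ⟨k, rfl⟩ := Nat.exists_eq_add_of_le hi'
  rw [Nat.add_sub_cancel_left, map_mul, map_mul, map_pow, map_pow, ← hn, Algebra.smul_def, mul_pow, pow_add]
  have : algebraMap K[X] (RatFunc K) (C (P.coeff i)) = algebraMap K (RatFunc K) (P.coeff i) := by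
    rw [← Polynomial.algebraMap_eq, ← IsScalarTower.algebraMap_apply]
  rw [this]
  ring

theorem rcomp_act {K L : Type*} [Field K] [Field L] [Algebra K L] (g h : RatFunc K)
    (hgh : 1 ≤ rdeg (rcomp g h)) : 1 ≤ rdeg g ∧ 1 ≤ rdeg h ∧ ∀ x : OnePoint L,
      ((RP.ofRat (rcomp g h)).map (algebraMap K L)).act x =
        ((RP.ofRat g).map (algebraMap K L)).act (((RP.ofRat h).map (algebraMap K L)).act x) := by
  set e := rdeg g with he
  have hd : algebraMap K[X] (RatFunc K) h.denom ≠ 0 := by
    exact RatFunc.algebraMap_ne_zero h.denom_ne_zero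
  have hPe : g.num.natDegree ≤ e := le_max_left _ _
  have hQe : g.denom.natDegree ≤ e := le_max_right _ _
  have hP := aeval_hc g.num hPe h
  have hQ := aeval_hc g.denom hQe h
  have hQ0 : aeval h g.denom ≠ 0 := by
    intro h0
    have h1 : rcomp g h = 0 := by rw [rcomp, h0, div_zero]
    rw [h1] at hgh
    have h2 : rdeg (0 : RatFunc K) = 0 := by
      rw [rdeg, RatFunc.num_zero, RatFunc.denom_zero]; simp
    rw [h2] at hgh
    omega
  have hrel : (RP.ofRat (rcomp g h)).A * ((RP.ofRat g).comp (RP.ofRat h)).B =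
      ((RP.ofRat g).comp (RP.ofRat h)).A * (RP.ofRat (rcomp g h)).B := by
    show (rcomp g h).num * hc g.denom e h.num h.denom = hc g.num e h.num h.denom * (rcomp g h).denom
    apply RatFunc.algebraMap_injective K
    rw [map_mul, map_mul, ← hP, ← hQ]
    have hd2 : algebraMap K[X] (RatFunc K) (rcomp g h).denom ≠ 0 := by
      exact RatFunc.algebraMap_ne_zero (rcomp g h).denom_ne_zero
    have h3 : algebraMap K[X] (RatFunc K) (rcomp g h).num =
        (aeval h g.num / aeval h g.denom) * algebraMap K[X] (RatFunc K) (rcomp g h).denom := by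
      have h4 := RatFunc.num_div_denom (rcomp g h)
      rw [div_eq_iff hd2] at h4
      rw [h4]
      rfl
    rw [h3]
    field_simp
  obtain ⟨c, hc, -, -, hdeg⟩ := RP.proportional _ _ hrel
  have hmul : rdeg (rcomp g h) = rdeg g * rdeg h := hdeg
  rw [hmul] at hgh
  refine ⟨Nat.pos_of_mul_pos_right hgh, Nat.pos_of_mul_pos_left hgh, fun x => ?_⟩
  rw [RP.act_of_proportional (algebraMap K L) _ _ hrel, RP.map_comp, RP.act_comp]

/-- a pair representing the rational function `r` has the same action, after every base change -/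
theorem RP.act_ofRat {K : Type*} [Field K] (f : RP K) (r : RatFunc K)
    (h : algebraMap K[X] (RatFunc K) f.A = r * algebraMap K[X] (RatFunc K) f.B) :
    f.d = rdeg r ∧ ∀ (L : Type*) [Field L] [Algebra K L] (x : OnePoint L),
      (f.map (algebraMap K L)).act x = ((RP.ofRat r).map (algebraMap K L)).act x := by
  have hd : algebraMap K[X] (RatFunc K) r.denom ≠ 0 := RatFunc.algebraMap_ne_zero r.denom_ne_zero
  have h4 := RatFunc.num_div_denom r
  rw [div_eq_iff hd] at h4
  have hrel : f.A * (RP.ofRat r).B = (RP.ofRat r).A * f.B := by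
    show f.A * r.denom = r.num * f.B
    apply RatFunc.algebraMap_injective K
    rw [map_mul, map_mul, h, h4]
    ring
  obtain ⟨-, -, -, -, hdeg⟩ := RP.proportional _ _ hrel
  exact ⟨hdeg, fun L _ _ x => RP.act_of_proportional (algebraMap K L) _ _ hrel x⟩

theorem pmap_iter {L : Type*} [Field L] [NumberField L] (τ : L ≃ₐ[ℚ] L) (n : ℕ) (x : OnePoint L) :
    pmap ((τ ^ n : L ≃ₐ[ℚ] L) : L →+* L) x = (pmap (τ : L →+* L))^[n] x := by
  induction n generalizing x with
  | zero =>
    rw [pow_zero, Function.iterate_zero, id]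
    induction x using OnePoint.rec with
    | infty => rfl
    | coe x => rfl
  | succ n ih =>
    rw [Function.iterate_succ_apply, ← ih, pmap_comp]
    congr 1

theorem pmap_fix_of_dvd {L : Type*} [Field L] [NumberField L] (τ : L ≃ₐ[ℚ] L) {s n : ℕ} {x : OnePoint L}
    (h : pmap ((τ ^ s : L ≃ₐ[ℚ] L) : L →+* L) x = x) (hd : s ∣ n) :
    pmap ((τ ^ n : L ≃ₐ[ℚ] L) : L →+* L) x = x := by
  obtain ⟨t, rfl⟩ := hd
  rw [pmap_iter, Function.iterate_mul]
  rw [pmap_iter] at h
  have h1 : Function.IsFixedPt ((pmap (τ : L →+* L))^[s]) x := h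
  exact h1.iterate t

/-- an automorphism over `K` commutes with the action -/
theorem pmap_act {K L : Type*} [Field K] [Field L] [NumberField L] [Algebra K L] (τ : L ≃ₐ[ℚ] L)
    (hK : ∀ x : K, τ (algebraMap K L x) = algebraMap K L x) (f : RP K) (x : OnePoint L) :
    pmap (τ : L →+* L) ((f.map (algebraMap K L)).act x) =
      (f.map (algebraMap K L)).act (pmap (τ : L →+* L) x) := by
  rw [← RP.act_map, RP.map_map]
  congr 2
  ext x
  exact hK x

open Classical in
/-- a fibre has at most `d` points -/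
theorem card_fibre {F : Type*} [Field F] (f : RP F) (hf : 1 ≤ f.d) (y : OnePoint F) :
    ∃ S : Finset (OnePoint F), (∀ x, f.act x = y → x ∈ S) ∧ S.card ≤ f.d := by
  have hq := f.q_ne_zero hf y
  by_cases hinf : f.act OnePoint.infty = y
  · refine ⟨insert OnePoint.infty ((f.q y).roots.toFinset.image (fun a : F => (a : OnePoint F))), ?_, ?_⟩
    · intro x hx
      induction x using OnePoint.rec with
      | infty => exact Finset.mem_insert_self _ _
      | coe a =>
        apply Finset.mem_insert_of_mem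
        rw [Finset.mem_image]
        refine ⟨a, ?_, rfl⟩
        rw [Multiset.mem_toFinset, mem_roots hq]
        exact (f.q_root y a).2 hx
    · have h0 : (f.q y).coeff f.d = 0 := (f.q_top y).2 hinf
      have h1 : (f.q y).natDegree < f.d := by
        rcases Nat.lt_or_ge (f.q y).natDegree f.d with h | h
        · exact h
        · exfalso
          have h2 : (f.q y).natDegree = f.d := le_antisymm (f.q_natDegree y) h
          rw [← h2] at h0
          exact hq (leadingCoeff_eq_zero.1 h0)
      calc (insert OnePoint.infty ((f.q y).roots.toFinset.image (fun a : F => (a : OnePoint F)))).card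
          ≤ ((f.q y).roots.toFinset.image (fun a : F => (a : OnePoint F))).card + 1 :=
            Finset.card_insert_le _ _
        _ ≤ (f.q y).roots.toFinset.card + 1 := by gcongr; exact Finset.card_image_le
        _ ≤ (f.q y).roots.card + 1 := by gcongr; exact Multiset.toFinset_card_le _
        _ ≤ (f.q y).natDegree + 1 := by gcongr; exact card_roots' _
        _ ≤ f.d := h1
  · refine ⟨(f.q y).roots.toFinset.image (fun a : F => (a : OnePoint F)), ?_, ?_⟩
    · intro x hx
      induction x using OnePoint.rec with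
      | infty => exact absurd hx hinf
      | coe a =>
        rw [Finset.mem_image]
        refine ⟨a, ?_, rfl⟩
        rw [Multiset.mem_toFinset, mem_roots hq]
        exact (f.q_root y a).2 hx
    · calc ((f.q y).roots.toFinset.image (fun a : F => (a : OnePoint F))).card
          ≤ (f.q y).roots.toFinset.card := Finset.card_image_le
        _ ≤ (f.q y).roots.card := Multiset.toFinset_card_le _
        _ ≤ (f.q y).natDegree := card_roots' _
        _ ≤ f.d := f.q_natDegree y

theorem rexps_small {K : Type*} [Field K] (E : ℕ) (g : RP K) (hg : 1 ≤ g.d)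
    (h : ∀ p : ℕ, p.Prime → p ≤ g.d → p ∣ E)
    {L : Type*} [Field L] [NumberField L] [Algebra K L] (τ : L ≃ₐ[ℚ] L)
    (hK : ∀ x : K, τ (algebraMap K L x) = algebraMap K L x) (x : OnePoint L)
    (hx : pmap (τ : L →+* L) ((g.map (algebraMap K L)).act x) = (g.map (algebraMap K L)).act x) :
    ∃ k : ℕ, pmap ((τ ^ (E ^ k) : L ≃ₐ[ℚ] L) : L →+* L) x = x := by
  classical
  set T : OnePoint L → OnePoint L := pmap (τ : L →+* L) with hT
  set s := Function.minimalPeriod T x with hs
  have hper : T^[s] x = x := Function.iterate_minimalPeriod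
  have hs0 : 0 < s := by
    apply Function.IsPeriodicPt.minimalPeriod_pos (n := orderOf τ)
    · exact orderOf_pos τ
    · unfold Function.IsPeriodicPt Function.IsFixedPt
      rw [hT, ← pmap_iter, pow_orderOf_eq_one]
      induction x using OnePoint.rec with
      | infty => rfl
      | coe x => rfl
  have hfix : ∀ i : ℕ, (g.map (algebraMap K L)).act (T^[i] x) = (g.map (algebraMap K L)).act x := by
    intro i
    induction i with
    | zero => rfl
    | succ i ih =>
      rw [Function.iterate_succ_apply', hT, ← pmap_act τ hK, ← hT, ih]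
      exact hx
  obtain ⟨S, hS, hScard⟩ := card_fibre (g.map (algebraMap K L)) hg ((g.map (algebraMap K L)).act x)
  have hcard : s ≤ g.d := by
    have h1 : (Finset.range s).card ≤ S.card := by
      refine Finset.card_le_card_of_injOn (fun i => T^[i] x) (fun i _ => hS _ (hfix i)) ?_
      intro a ha b hb hab
      have ha' : a < s := by simpa using ha
      have hb' : b < s := by simpa using hb
      exact Function.iterate_injOn_Iio_minimalPeriod ha' hb' hab
    rw [Finset.card_range] at h1
    exact h1.trans hScard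
  obtain ⟨k, hk⟩ := dvd_pow_of_primes (s := s) (E := E) hs0.ne' (fun p hp hps =>
    h p hp ((Nat.le_of_dvd hs0 hps).trans hcard))
  refine ⟨k, pmap_fix_of_dvd τ (s := s) ?_ hk⟩
  rw [pmap_iter]
  exact hper

theorem act_X_pow {K : Type*} [Field K] {d : ℕ} {L : Type*} [Field L] [Algebra K L] (r : L) :
    ((RP.ofRat (RatFunc.X ^ d : RatFunc K)).map (algebraMap K L)).act (r : OnePoint L) =
      ((r ^ d : L) : OnePoint L) := by
  have h1 : (RatFunc.X ^ d : RatFunc K) = algebraMap K[X] (RatFunc K) (X ^ d) := by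
    rw [map_pow, RatFunc.algebraMap_X]
  rw [RP.act_coe]
  simp only [RP.map, RP.ofRat, h1, RatFunc.num_algebraMap, RatFunc.denom_algebraMap, Polynomial.map_pow,
    map_X, Polynomial.map_one, eval_pow, eval_X, eval_one, mk2_one]

theorem act_dickson {K : Type*} [Field K] {d : ℕ} {L : Type*} [Field L] [Algebra K L] (r : L) :
    ((RP.ofRat (algebraMap K[X] (RatFunc K) (dickson 1 (1 : K) d))).map (algebraMap K L)).act
      (r : OnePoint L) = (((dickson 1 (1 : L) d).eval r : L) : OnePoint L) := by
  have h := map_dickson (k := 1) (a := (1 : K)) (algebraMap K L) d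
  rw [map_one] at h
  rw [RP.act_coe]
  simp only [RP.map, RP.ofRat, RatFunc.num_algebraMap, RatFunc.denom_algebraMap, h,
    Polynomial.map_one, eval_one, mk2_one]

/-- if `τ` fixes `K`, the `m`-th roots of unity and `f(x)`, then some `τ^(E^k)` fixes `x` -/
theorem rexps {K : Type u} [Field K] [NumberField K] (E : ℕ) (f : RatFunc K) (hf : 1 ≤ rdeg f)
    (h : RHasExp E f) : ∃ m : ℕ, 0 < m ∧
      ∀ (L : Type u) [Field L] [NumberField L] [Algebra K L] (τ : L ≃ₐ[ℚ] L),
        (∀ x : K, τ (algebraMap K L x) = algebraMap K L x) →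
        (∃ ζ : L, IsPrimitiveRoot ζ m) →
        (∀ z : L, z ^ m = 1 → τ z = z) → ∀ x : OnePoint L,
          pmap (τ : L →+* L) (((RP.ofRat f).map (algebraMap K L)).act x) =
            ((RP.ofRat f).map (algebraMap K L)).act x →
          ∃ k : ℕ, pmap ((τ ^ (E ^ k) : L ≃ₐ[ℚ] L) : L →+* L) x = x := by
  induction h with
  | small g h =>
    refine ⟨1, one_pos, ?_⟩
    intro L _ _ _ τ hK _ _ x hx
    exact rexps_small E (RP.ofRat g) hf h τ hK x hx
  | power d h =>
    have hd : d ≠ 0 := by
      rintro rfl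
      rw [pow_zero, rdeg, RatFunc.num_one, RatFunc.denom_one] at hf
      simp at hf
    refine ⟨d, Nat.pos_of_ne_zero hd, ?_⟩
    intro L _ _ _ τ hK _ hm x hx
    induction x using OnePoint.rec with
    | infty => exact ⟨0, rfl⟩
    | coe r =>
      rw [act_X_pow, pmap_coe] at hx
      have hr : τ (r ^ d) = r ^ d := OnePoint.coe_injective hx
      have h1 : ∃ k : ℕ, (τ ^ (E ^ k)) r = r := by
        refine exps_power E (1 : K) 0 0 d one_ne_zero hd h τ hK hm r ?_
        simpa using hr
      obtain ⟨k, hk⟩ := h1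
      refine ⟨k, ?_⟩
      rw [pmap_coe]
      exact congrArg _ hk
  | cheb d h2 h =>
    have hd : d ≠ 0 := by
      rintro rfl
      have h0 : (dickson 1 (1 : K) 0) = C (2 : K) := by
        rw [dickson_zero, map_ofNat]
        norm_num
      rw [h0, rdeg, RatFunc.num_algebraMap, RatFunc.denom_algebraMap] at hf
      simp at hf
    refine ⟨d, Nat.pos_of_ne_zero hd, ?_⟩
    intro L _ _ _ τ hK hz hm x hx
    induction x using OnePoint.rec with
    | infty => exact ⟨0, rfl⟩
    | coe r =>
      rw [act_dickson, pmap_coe] at hx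
      have hr : τ ((dickson 1 (1 : L) d).eval r) = (dickson 1 (1 : L) d).eval r :=
        OnePoint.coe_injective hx
      have h1 := cheb_fix τ d hd hz hm r hr
      obtain ⟨k, hk⟩ := dvd_pow_of_primes (s := 2 * d) (E := E) (by omega) (fun p hp hpd => by
        rcases (Nat.Prime.dvd_mul hp).1 hpd with h3 | h3
        · rw [(Nat.prime_dvd_prime_iff_eq hp Nat.prime_two).1 h3]; exact h2
        · exact h p hp h3)
      refine ⟨k, ?_⟩
      rw [pmap_coe]
      exact congrArg _ (pow_fix_of_dvd τ h1 hk)
  | comp g h hg hh ihg ihh =>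
    obtain ⟨hg1, hh1, -⟩ := rcomp_act (L := K) g h hf
    obtain ⟨m1, hm1, h1⟩ := ihg hg1
    obtain ⟨m2, hm2, h2⟩ := ihh hh1
    refine ⟨m1 * m2, Nat.mul_pos hm1 hm2, ?_⟩
    intro L _ _ _ τ hK hz hm x hx
    obtain ⟨ζ, hζ⟩ := hz
    have hz1 : ∃ ζ : L, IsPrimitiveRoot ζ m1 :=
      ⟨ζ ^ m2, hζ.pow (Nat.mul_pos hm1 hm2) (mul_comm m1 m2)⟩
    have hz2 : ∃ ζ : L, IsPrimitiveRoot ζ m2 := ⟨ζ ^ m1, hζ.pow (Nat.mul_pos hm1 hm2) rfl⟩
    obtain ⟨-, -, hact⟩ := rcomp_act (L := L) g h hf
    rw [hact] at hx
    obtain ⟨k1, hk1⟩ := h1 L τ hK hz1 (fun z hz => hm z (by rw [pow_mul, hz, one_pow])) _ hx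
    obtain ⟨k2, hk2⟩ := h2 L (τ ^ (E ^ k1)) (fun x => pow_fix_field τ hK _ x) hz2
      (fun z hz => pow_fix_of_dvd τ (s := 1)
        (by rw [pow_one]; exact hm z (by rw [mul_comm, pow_mul, hz, one_pow])) (one_dvd _)) x hk1
    refine ⟨k1 + k2, ?_⟩
    rw [pow_add, pow_mul]
    exact hk2

end Pool.Agent.ORB
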