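import Pool.Agent.ORB.RPair
import Pool.Agent.ORB.GoodPrime

/-! ORB, rational functions, R3: a wandering orbit hits a nonperiodic point modulo some prime outside of a
finite set (finitely many elements of bounded height, pigeonhole on the places of the finite set). -/

namespace Pool.Agent.ORB

open NumberField IsDedekindDomain Polynomial

universe u

/-- points near a nonperiodic point `g` do not return to `g` quickly -/
theorem repel {K : Type*} [Field K] (A : AbsoluteValue K ℝ) (f : RP K) (g : K) (k : ℕ)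
    (h : f.act^[k] (g : OnePoint K) ≠ (g : OnePoint K)) :
    ∃ δ : ℝ, 0 < δ ∧ ∀ x x' : K, A (x - g) < δ → f.act^[k] (x : OnePoint K) = (x' : OnePoint K) →
      δ ≤ A (x' - g) := by
  set P := (f.iter k).A with hP
  set B := (f.iter k).B with hB
  set Q := (f.iter k).q (g : OnePoint K) with hQ
  have hQB : Q = P - C g * B := RP.q_coe _ _
  have hQg : Q.eval g ≠ 0 := by
    intro h0
    apply h
    rw [← RP.act_iter]
    exact ((f.iter k).q_root (g : OnePoint K) g).1 h0
  let _ := A.toNormedField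
  have hcQ : Continuous (fun x : K => Q.eval x) := Q.continuous
  have hcB : Continuous (fun x : K => B.eval x) := B.continuous
  have hq0 : 0 < A (Q.eval g) := A.pos hQg
  have hb0 : 0 ≤ A (B.eval g) := A.nonneg _
  obtain ⟨δ1, hδ1, h1⟩ := Metric.continuous_iff.1 hcQ g (A (Q.eval g) / 2) (by positivity)
  obtain ⟨δ2, hδ2, h2⟩ := Metric.continuous_iff.1 hcB g 1 one_pos
  have hc0 : 0 < (A (Q.eval g) / 2) / (A (B.eval g) + 1) := by positivity
  refine ⟨min δ1 (min δ2 ((A (Q.eval g) / 2) / (A (B.eval g) + 1))),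
    lt_min hδ1 (lt_min hδ2 hc0), fun x x' hx hxx => ?_⟩
  have hx1 : A (x - g) < δ1 := lt_of_lt_of_le hx (min_le_left _ _)
  have hx2 : A (x - g) < δ2 := lt_of_lt_of_le hx (le_trans (min_le_right _ _) (min_le_left _ _))
  have e1 : A (Q.eval x - Q.eval g) < A (Q.eval g) / 2 := by
    have := h1 x (by rw [dist_eq_norm]; exact hx1)
    rw [dist_eq_norm] at this
    exact this
  have e2 : A (B.eval x - B.eval g) < 1 := by
    have := h2 x (by rw [dist_eq_norm]; exact hx2)
    rw [dist_eq_norm] at this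
    exact this
  have e3 : A (Q.eval g) / 2 ≤ A (Q.eval x) := by
    have h3 : A (Q.eval g) ≤ A (Q.eval x) + A (Q.eval x - Q.eval g) := by
      have h4 : Q.eval g = Q.eval x - (Q.eval x - Q.eval g) := by ring
      calc A (Q.eval g) = A (Q.eval x - (Q.eval x - Q.eval g)) := by rw [← h4]
        _ ≤ _ := A.sub_le_add _ _
    linarith
  have e4 : A (B.eval x) ≤ A (B.eval g) + 1 := by
    have h3 : A (B.eval x) ≤ A (B.eval g) + A (B.eval x - B.eval g) := by
      have h4 : B.eval x = B.eval g + (B.eval x - B.eval g) := by ring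
      calc A (B.eval x) = A (B.eval g + (B.eval x - B.eval g)) := by rw [← h4]
        _ ≤ _ := A.add_le _ _
    linarith
  -- the image
  rw [← RP.act_iter, RP.act_coe] at hxx
  have hB0 : B.eval x ≠ 0 := by
    intro h0
    change mk2 (P.eval x) (B.eval x) = _ at hxx
    rw [h0, mk2_zero] at hxx
    exact (OnePoint.coe_ne_infty x') hxx.symm
  have hx' : x' * B.eval x = P.eval x := by
    change mk2 (P.eval x) (B.eval x) = _ at hxx
    rw [mk2_ne hB0, OnePoint.coe_eq_coe] at hxx
    rw [← hxx, div_mul_cancel₀ _ hB0]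
  have hmul : (x' - g) * B.eval x = Q.eval x := by
    rw [hQB, eval_sub, eval_mul, eval_C, ← hx']
    ring
  have hA : A (x' - g) * A (B.eval x) = A (Q.eval x) := by rw [← map_mul, hmul]
  refine le_trans (min_le_right _ _) (le_trans (min_le_right _ _) ?_)
  rw [div_le_iff₀ (by linarith)]
  calc A (Q.eval g) / 2 ≤ A (Q.eval x) := e3
    _ = A (x' - g) * A (B.eval x) := hA.symm
    _ ≤ A (x' - g) * (A (B.eval g) + 1) := mul_le_mul_of_nonneg_left e4 (A.nonneg _)

/-- a wandering orbit hits a finite nonperiodic point modulo some prime outside of a finite set -/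
theorem exists_hit {K : Type u} [Field K] [NumberField K] (f : RP K)
    (b : OnePoint K) (hb : Function.Injective (fun n : ℕ => f.act^[n] b)) (g : K)
    (hg : ∀ k, 1 ≤ k → f.act^[k] (g : OnePoint K) ≠ (g : OnePoint K)) (bad : Finset ℕ) :
    ∃ (n : ℕ) (w : HeightOneSpectrum (𝓞 K)), Off w bad ∧ SameRed w (f.act^[n] b) (g : OnePoint K) := by
  classical
  by_contra hcon
  push Not at hcon
  -- late points are finite and different from `g`
  obtain ⟨n1, hn1⟩ : ∃ n1 : ℕ, ∀ n, n1 ≤ n → f.act^[n] b ≠ (g : OnePoint K) ∧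
      f.act^[n] b ≠ OnePoint.infty := by
    have h1 := ((Set.finite_singleton (g : OnePoint K)).union
      (Set.finite_singleton (OnePoint.infty : OnePoint K))).preimage
        (hb.injOn (s := (fun n : ℕ => f.act^[n] b) ⁻¹' _))
    obtain ⟨n0, hn0⟩ := h1.bddAbove
    refine ⟨n0 + 1, fun n hn => ⟨fun h => ?_, fun h => ?_⟩⟩
    · have := hn0 (show n ∈ _ from Or.inl h)
      omega
    · have := hn0 (show n ∈ _ from Or.inr h)
      omega
  have hx : ∀ n : ℕ, ∃ x : K, f.act^[n1 + n] b = (x : OnePoint K) := by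
    intro n
    obtain ⟨x, hx⟩ := OnePoint.ne_infty_iff_exists.1 (hn1 (n1 + n) (by omega)).2
    exact ⟨x, hx.symm⟩
  choose x hx using hx
  have hxinj : Function.Injective x := by
    intro n n' h
    have h1 : f.act^[n1 + n] b = f.act^[n1 + n'] b := by rw [hx, hx, h]
    have := hb h1
    omega
  have hstep : ∀ n k : ℕ, f.act^[k] (x n : OnePoint K) = (x (n + k) : OnePoint K) := by
    intro n k
    rw [← hx, ← hx, ← Function.iterate_add_apply]
    congr 1
    omega
  have hxg : ∀ n, x n - g ≠ 0 := by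
    intro n h0
    rw [sub_eq_zero] at h0
    apply (hn1 (n1 + n) (by omega)).1
    rw [hx, h0]
  -- the finite set of primes
  have hfin : ∀ a : K, (HeightOneSpectrum.Support (𝓞 K) a).Finite := fun a =>
    HeightOneSpectrum.Support.finite (𝓞 K) a
  set S : Finset (HeightOneSpectrum (𝓞 K)) :=
    (bad.biUnion fun m => (hfin ((m : K)⁻¹)).toFinset) ∪ (hfin g).toFinset with hS
  have hint : ∀ w ∉ S, Off w bad ∧ w.valuation K g ≤ 1 := by
    intro w hw
    simp only [hS, Finset.mem_union, Finset.mem_biUnion, Set.Finite.mem_toFinset, not_or,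
      not_exists, not_and] at hw
    obtain ⟨hw1, hw2⟩ := hw
    refine ⟨?_, not_lt.1 hw2⟩
    intro m hm hm0
    have h1 : w.valuation K ((m : K)⁻¹) ≤ 1 := not_lt.1 (hw1 m hm)
    have h2 : w.valuation K (m : K) ≤ 1 := by
      have h6 := w.valuation_le_one (K := K) ((m : ℕ) : 𝓞 K)
      simpa using h6
    refine le_antisymm h2 ?_
    rw [map_inv₀] at h1
    have h5 : 0 < w.valuation K (m : K) := by
      rw [Valuation.pos_iff]
      exact_mod_cast hm0
    exact (inv_le_one₀ h5).1 h1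
  have hval : ∀ w ∉ S, ∀ n, 1 ≤ w.valuation K (x n - g) := by
    intro w hw n
    obtain ⟨hoff, hwg⟩ := hint w hw
    have h1 := hcon (n1 + n) w hoff
    rw [hx] at h1
    by_contra hlt
    rw [not_le] at hlt
    apply h1
    refine Or.inr ⟨x n, g, rfl, rfl, ?_, hwg, hlt⟩
    have h2 : x n = (x n - g) + g := by ring
    rw [h2]
    exact (w.valuation K).map_add_le hlt.le hwg
  set y : ℕ → K := fun n => (x n - g)⁻¹ with hy
  have hyinj : Function.Injective y := by
    intro n n' h
    have h1 : x n - g = x n' - g := inv_injective h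
    exact hxinj (sub_left_injective h1)
  -- close to `g` at some place
  have hclose : ∀ δ : ℝ, 0 < δ → ∃ n0 : ℕ, ∀ n, n0 ≤ n →
      ∃ i : {w // w ∈ S} ⊕ (K →+* ℂ), pabv (i.map (fun w => w.1) id) (x n - g) < δ := by
    intro δ hδ
    have h1 := (finite_bounded (K := K) S δ⁻¹).preimage (hyinj.injOn (s := y ⁻¹' _))
    obtain ⟨n0, hn0⟩ := h1.bddAbove
    refine ⟨n0 + 1, fun n hn => ?_⟩
    by_contra hno
    push Not at hno
    have h2 : n ∈ y ⁻¹' {y : K | (∀ w ∉ S, w.valuation K y ≤ 1) ∧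
        (∀ w ∈ S, pabv (Sum.inl w) y ≤ δ⁻¹) ∧ (∀ σ : K →+* ℂ, ‖σ y‖ ≤ δ⁻¹)} := by
      refine ⟨fun w hw => ?_, fun w hw => ?_, fun σ => ?_⟩
      · change w.valuation K ((x n - g)⁻¹) ≤ 1
        rw [map_inv₀]
        exact inv_le_one_of_one_le₀ (hval w hw n)
      · have h3 := hno (Sum.inl ⟨w, hw⟩)
        change δ ≤ pabv (Sum.inl w) (x n - g) at h3
        change pabv (Sum.inl w) ((x n - g)⁻¹) ≤ δ⁻¹
        rw [map_inv₀]
        exact inv_anti₀ hδ h3
      · have h3 := hno (Sum.inr σ)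
        change δ ≤ ‖σ (x n - g)‖ at h3
        change ‖σ ((x n - g)⁻¹)‖ ≤ δ⁻¹
        rw [map_inv₀, norm_inv]
        exact inv_anti₀ hδ h3
    have h3 := hn0 h2
    omega
  -- the constants
  set m := Fintype.card ({w // w ∈ S} ⊕ (K →+* ℂ)) with hm
  have hdel : ∀ q : ({w // w ∈ S} ⊕ (K →+* ℂ)) × Fin (m + 1), ∃ δ : ℝ, 0 < δ ∧ ∀ z z' : K,
      pabv (q.1.map (fun w => w.1) id) (z - g) < δ →
      f.act^[q.2.1 + 1] (z : OnePoint K) = (z' : OnePoint K) →
      δ ≤ pabv (q.1.map (fun w => w.1) id) (z' - g) := fun q =>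
    repel _ f g (q.2.1 + 1) (hg _ (by omega))
  choose del hdel0 hdel1 using hdel
  obtain ⟨δ, hδ0, hδ1⟩ : ∃ δ : ℝ, 0 < δ ∧ ∀ q, δ < del q := by
    have h1 : ∀ᶠ δ : ℝ in nhdsWithin 0 (Set.Ioi 0), ∀ q, δ < del q := by
      rw [Filter.eventually_all]
      intro q
      exact (eventually_lt_nhds (hdel0 q)).filter_mono nhdsWithin_le_nhds
    obtain ⟨δ, h2, h3⟩ := (h1.and self_mem_nhdsWithin).exists
    exact ⟨δ, h3, h2⟩
  obtain ⟨n0, hn0⟩ := hclose δ hδ0
  choose idx hidx using fun j : Fin (m + 1) => hn0 (n0 + j.1) (Nat.le_add_right _ _)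
  obtain ⟨j1, j2, hj, hjj⟩ := Fintype.exists_ne_map_eq_of_card_lt idx (by
    rw [Fintype.card_fin, ← hm]
    omega)
  -- order the two indices
  have main : ∀ j1 j2 : Fin (m + 1), j1 < j2 → idx j1 = idx j2 → False := by
    intro j1 j2 hlt he
    have hlt' : j1.1 < j2.1 := hlt
    obtain ⟨k, hk⟩ : ∃ k : ℕ, j2.1 = j1.1 + (k + 1) := ⟨j2.1 - j1.1 - 1, by omega⟩
    have hkm : k < m + 1 := by
      have := j2.2
      omega
    have h1 : pabv ((idx j1).map (fun w => w.1) id) (x (n0 + j1.1) - g) < δ := hidx j1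
    have h2 : pabv ((idx j1).map (fun w => w.1) id) (x (n0 + j2.1) - g) < δ := by
      have := hidx j2
      rw [← he] at this
      exact this
    have h3 := hdel1 (idx j1, ⟨k, hkm⟩) (x (n0 + j1.1)) (x (n0 + j2.1)) (lt_trans h1 (hδ1 _)) (by
      change f.act^[k + 1] _ = _
      rw [hstep]
      congr 2
      omega)
    exact absurd (lt_trans h2 (hδ1 (idx j1, ⟨k, hkm⟩))) (not_lt.2 h3)
  rcases lt_or_gt_of_ne hj with h | h
  · exact main j1 j2 h hjj
  · exact main j2 j1 h hjj.symm

end Pool.Agent.ORB
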