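import Pool.Agent.ORB.RPair
import Pool.Agent.ORB.GoodPrime

/-! ORB, rational functions, R3: a strictly preperiodic point. -/

namespace Pool.Agent.ORB

open NumberField IsDedekindDomain Polynomial

universe u

/-- three powers `(X - a)^d` with different `a` are linearly independent -/
theorem three_powers {F : Type*} [Field F] [CharZero F] {d : ℕ} (hd : 2 ≤ d) {a b c e1 e2 e3 : F}
    (hab : a ≠ b) (hac : a ≠ c)
    (h : C e1 * (X - C a) ^ d + C e2 * (X - C b) ^ d + C e3 * (X - C c) ^ d = 0) : e1 = 0 := by
  obtain ⟨m, rfl⟩ : ∃ m, d = m + 2 := ⟨d - 2, by omega⟩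
  have k0 := congrArg (fun p => p.coeff (m + 2)) h
  have k1 := congrArg (fun p => p.coeff (m + 1)) h
  have k2 := congrArg (fun p => p.coeff m) h
  have hsub : ∀ r : F, (X - C r : F[X]) = X + C (-r) := fun r => by rw [C_neg, sub_eq_add_neg]
  simp only [hsub, coeff_add, coeff_C_mul, coeff_X_add_C_pow, coeff_zero] at k0 k1 k2
  have s0 : m + 2 - (m + 2) = 0 := by omega
  have s1 : m + 2 - (m + 1) = 1 := by omega
  have s2 : m + 2 - m = 2 := by omega
  rw [s0] at k0
  rw [s1] at k1
  rw [s2] at k2
  have c0 : (m + 2).choose (m + 2) = 1 := Nat.choose_self _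
  have c1 : (((m + 2).choose (m + 1) : ℕ) : F) ≠ 0 := by
    exact_mod_cast (Nat.choose_pos (by omega)).ne'
  have c2 : (((m + 2).choose m : ℕ) : F) ≠ 0 := by
    exact_mod_cast (Nat.choose_pos (by omega)).ne'
  rw [c0] at k0
  have r0 : e1 + e2 + e3 = 0 := by
    simpa using k0
  have r1 : e1 * a + e2 * b + e3 * c = 0 := by
    have : (((m + 2).choose (m + 1) : ℕ) : F) * (e1 * a + e2 * b + e3 * c) = 0 := by
      linear_combination -k1
    exact (mul_eq_zero.1 this).resolve_left c1
  have r2 : e1 * a ^ 2 + e2 * b ^ 2 + e3 * c ^ 2 = 0 := by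
    have : (((m + 2).choose m : ℕ) : F) * (e1 * a ^ 2 + e2 * b ^ 2 + e3 * c ^ 2) = 0 := by
      linear_combination k2
    exact (mul_eq_zero.1 this).resolve_left c2
  have r3 : e1 * ((a - b) * (a - c)) = 0 := by
    linear_combination r2 - (b + c) * r1 + b * c * r0
  rcases mul_eq_zero.1 r3 with h1 | h1
  · exact h1
  · rcases mul_eq_zero.1 h1 with h2 | h2
    · exact absurd (sub_eq_zero.1 h2) hab
    · exact absurd (sub_eq_zero.1 h2) hac

/-- a polynomial of degree `d` with only one root -/
theorem eq_pow_of_one_root {F : Type*} [Field F] [IsAlgClosed F] {P : F[X]} {d : ℕ}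
    (hd : P.natDegree = d) {a : F} (h : ∀ x, P.eval x = 0 → x = a) :
    P = C P.leadingCoeff * (X - C a) ^ d := by
  have hs : P.Splits := IsAlgClosed.splits P
  have h1 : P.roots = Multiset.replicate d a := by
    rw [Multiset.eq_replicate]
    refine ⟨?_, fun b hb => h b (isRoot_of_mem_roots hb)⟩
    rw [← hd]
    exact hs.natDegree_eq_card_roots.symm
  have h2 := hs.eq_prod_roots
  rw [h1] at h2
  simpa using h2

/-- over an algebraically closed field of characteristic zero: a finite strictly preperiodic point.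
(Some fixed point is not totally ramified: otherwise there are at least three totally ramified fixed points.) -/
theorem exists_strict_closed {F : Type*} [Field F] [IsAlgClosed F] [CharZero F] (f : RP F)
    (hf : 2 ≤ f.d) : ∃ g : F, (∀ k, 1 ≤ k → f.act^[k] (g : OnePoint F) ≠ (g : OnePoint F)) ∧
      ∃ i j : ℕ, i < j ∧ f.act^[i] (g : OnePoint F) = f.act^[j] (g : OnePoint F) := by
  classical
  -- a finite point `g` with `f g = y`, `f y = y`, `g ≠ y`
  have key1 : ∀ (g : F) (y : OnePoint F), f.act (g : OnePoint F) = y → f.act y = y → (g : OnePoint F) ≠ y →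
      ∃ g : F, (∀ k, 1 ≤ k → f.act^[k] (g : OnePoint F) ≠ (g : OnePoint F)) ∧
      ∃ i j : ℕ, i < j ∧ f.act^[i] (g : OnePoint F) = f.act^[j] (g : OnePoint F) := by
    intro g y h1 h2 h3
    have h4 : ∀ k, f.act^[k + 1] (g : OnePoint F) = y := by
      intro k
      induction k with
      | zero => exact h1
      | succ k ih => rw [Function.iterate_succ_apply', ih, h2]
    refine ⟨g, fun k hk => ?_, 1, 2, by omega, by rw [h4 0, h4 1]⟩
    obtain ⟨k', rfl⟩ : ∃ k', k = k' + 1 := ⟨k - 1, by omega⟩
    rw [h4 k']
    exact h3.symm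
  by_cases hB : f.B.coeff f.d = 0
  · -- infinity is fixed
    have hinf : f.act OnePoint.infty = OnePoint.infty := by
      rw [RP.act_infty, hB, mk2_zero]
    by_cases hBc : f.B.natDegree = 0
    · -- polynomial case
      have hA : f.A.coeff f.d ≠ 0 := by
        rcases f.htop with h | h
        · exact h
        · exact absurd hB h
      have hB1 : f.B = C (f.B.coeff 0) := eq_C_of_natDegree_eq_zero hBc
      have hb : f.B.coeff 0 ≠ 0 := by
        intro h0
        have h1 : f.B = 0 := by rw [hB1, h0, C_0]
        have h2 : IsUnit f.A := by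
          have := f.hcop
          rw [h1] at this
          exact isCoprime_zero_right.1 this
        have h3 : f.A.natDegree = 0 := natDegree_eq_zero_of_isUnit h2
        exact hA (coeff_eq_zero_of_natDegree_lt (by omega))
      have hAd : f.A.natDegree = f.d := le_antisymm f.hA (le_natDegree_of_ne_zero hA)
      set p : F[X] := C (f.B.coeff 0)⁻¹ * f.A with hp
      have hpd : p.natDegree = f.d := by
        rw [hp, natDegree_C_mul (inv_ne_zero hb), hAd]
      have hact : ∀ x : F, f.act (x : OnePoint F) = ((p.eval x : F) : OnePoint F) := by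
        intro x
        have h5 : f.B.eval x = f.B.coeff 0 := by rw [hB1]; simp
        rw [RP.act_coe, h5, mk2_ne hb, hp, eval_mul, eval_C]
        congr 1
        field_simp
      obtain ⟨γ, γ', hne, h1, h2⟩ := fixed_pair_closed p (by rw [hpd]; exact hf)
      refine key1 γ' (γ : OnePoint F) ?_ ?_ ?_
      · rw [hact, h2]
      · rw [hact, h1]
      · intro h; exact hne (OnePoint.coe_injective h)
    · -- a finite pole
      obtain ⟨a, ha⟩ := IsAlgClosed.exists_root f.B (by
        intro h
        exact hBc (natDegree_eq_of_degree_eq_some h))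
      refine key1 a OnePoint.infty ?_ hinf (OnePoint.coe_ne_infty a)
      have ha' : f.B.eval a = 0 := ha
      rw [RP.act_coe, ha', mk2_zero]
  · -- infinity is not fixed
    have hBd : f.B.natDegree = f.d := le_antisymm f.hB (le_natDegree_of_ne_zero hB)
    obtain ⟨a, ha⟩ := IsAlgClosed.exists_root f.B (by
        intro h
        have h0 : f.B.natDegree = 0 := natDegree_eq_of_degree_eq_some h
        omega)
    have ha' : f.act (a : OnePoint F) = OnePoint.infty := by
      have : f.B.eval a = 0 := ha
      rw [RP.act_coe, this, mk2_zero]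
    set Φ : F[X] := f.A - X * f.B with hΦ
    have hfix : ∀ γ : F, Φ.eval γ = 0 ↔ f.act (γ : OnePoint F) = (γ : OnePoint F) := by
      intro γ
      rw [← f.q_root (γ : OnePoint F) γ, RP.q_coe, hΦ, eval_sub, eval_sub, eval_mul, eval_mul, eval_X,
        eval_C]
    have hBne : ∀ γ : F, Φ.eval γ = 0 → f.B.eval γ ≠ 0 := by
      intro γ h0 hb0
      have h1 := (hfix γ).1 h0
      rw [RP.act_coe, hb0, mk2_zero] at h1
      exact OnePoint.infty_ne_coe γ h1
    by_contra hcon
    -- all fixed points are totally ramified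
    have htr : ∀ γ : F, Φ.eval γ = 0 → ∃ c : F, c ≠ 0 ∧ f.A - C γ * f.B = C c * (X - C γ) ^ f.d := by
      intro γ hγ
      have h1 := (hfix γ).1 hγ
      have hroots : ∀ x, (f.q (γ : OnePoint F)).eval x = 0 → x = γ := by
        intro x hx
        by_contra hne
        have h2 := (f.q_root (γ : OnePoint F) x).1 hx
        exact hcon (key1 x (γ : OnePoint F) h2 h1 (fun h => hne (OnePoint.coe_injective h)))
      have htop : (f.q (γ : OnePoint F)).coeff f.d ≠ 0 := by
        intro h0
        have h2 := (f.q_top (γ : OnePoint F)).1 h0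
        apply hcon
        have h4 : ∀ k, f.act^[k + 2] (a : OnePoint F) = (γ : OnePoint F) := by
          intro k
          induction k with
          | zero =>
            show f.act (f.act (a : OnePoint F)) = _
            rw [ha', h2]
          | succ k ih => rw [Function.iterate_succ_apply', ih, h1]
        refine ⟨a, fun k hk => ?_, 2, 3, by omega, by rw [h4 0, h4 1]⟩
        rcases Nat.lt_or_ge k 2 with h5 | h5
        · have : k = 1 := by omega
          rw [this]
          show f.act (a : OnePoint F) ≠ _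
          rw [ha']
          exact OnePoint.infty_ne_coe a
        · obtain ⟨k', rfl⟩ : ∃ k', k = k' + 2 := ⟨k - 2, by omega⟩
          rw [h4 k']
          intro h6
          have h7 : γ = a := OnePoint.coe_injective h6
          rw [← h7, h1] at ha'
          exact OnePoint.coe_ne_infty γ ha'
      have hnd : (f.q (γ : OnePoint F)).natDegree = f.d :=
        le_antisymm (f.q_natDegree _) (le_natDegree_of_ne_zero htop)
      have h3 := eq_pow_of_one_root hnd hroots
      refine ⟨(f.q (γ : OnePoint F)).leadingCoeff, ?_, h3⟩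
      rw [leadingCoeff, hnd]
      exact htop
    have hΦd : Φ.natDegree = f.d + 1 := by
      have h1 : (X * f.B).natDegree = f.d + 1 := by
        rw [natDegree_X_mul, hBd]
        intro h0; rw [h0] at hB; simp at hB
      rw [hΦ, natDegree_sub_eq_right_of_natDegree_lt (by rw [h1]; exact Nat.lt_succ_of_le f.hA), h1]
    have hΦ0 : Φ ≠ 0 := by
      intro h0; rw [h0, natDegree_zero] at hΦd; omega
    have hnodup : Φ.roots.Nodup := by
      rw [Multiset.nodup_iff_count_le_one]
      intro γ
      rw [count_roots]
      by_contra hlt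
      push Not at hlt
      rw [one_lt_rootMultiplicity_iff_isRoot hΦ0] at hlt
      obtain ⟨h1, h2⟩ := hlt
      have h1' : Φ.eval γ = 0 := h1
      obtain ⟨c, hc, heq⟩ := htr γ h1'
      have h3 : Φ = C c * (X - C γ) ^ f.d - (X - C γ) * f.B := by
        rw [← heq, hΦ]; ring
      have h4 : (derivative Φ).eval γ = - f.B.eval γ := by
        obtain ⟨m, hm⟩ : ∃ m, f.d = m + 2 := ⟨f.d - 2, by omega⟩
        rw [h3, hm]
        simp [derivative_pow]
      have h5 : (derivative Φ).eval γ = 0 := h2
      rw [h4, neg_eq_zero] at h5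
      exact hBne γ h1' h5
    have hcard : 2 < Φ.roots.toFinset.card := by
      rw [Multiset.toFinset_card_of_nodup hnodup, ← (IsAlgClosed.splits Φ).natDegree_eq_card_roots, hΦd]
      omega
    obtain ⟨x, hx, y, hy, z, hz, hxy, hxz, hyz⟩ := Finset.two_lt_card.1 hcard
    rw [Multiset.mem_toFinset] at hx hy hz
    obtain ⟨c1, hc1, e1⟩ := htr x (isRoot_of_mem_roots hx)
    obtain ⟨c2, hc2, e2⟩ := htr y (isRoot_of_mem_roots hy)
    obtain ⟨c3, hc3, e3⟩ := htr z (isRoot_of_mem_roots hz)
    have hrel : C ((y - z) * c1) * (X - C x) ^ f.d + C ((z - x) * c2) * (X - C y) ^ f.d +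
        C ((x - y) * c3) * (X - C z) ^ f.d = 0 := by
      have t1 : C ((y - z) * c1) * (X - C x) ^ f.d = C (y - z) * (f.A - C x * f.B) := by
        rw [e1, C_mul, mul_assoc]
      have t2 : C ((z - x) * c2) * (X - C y) ^ f.d = C (z - x) * (f.A - C y * f.B) := by
        rw [e2, C_mul, mul_assoc]
      have t3 : C ((x - y) * c3) * (X - C z) ^ f.d = C (x - y) * (f.A - C z * f.B) := by
        rw [e3, C_mul, mul_assoc]
      rw [t1, t2, t3]
      simp only [C_sub]
      ring
    have h6 := three_powers hf hxy hxz hrel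
    rcases mul_eq_zero.1 h6 with h7 | h7
    · exact hyz (sub_eq_zero.1 h7)
    · exact hc1 h7

/-- the same over a number field, in an extension -/
theorem exists_strict {K : Type u} [Field K] [NumberField K] (f : RP K) (hf : 2 ≤ f.d) :
    ∃ (K1 : Type u) (_ : Field K1) (_ : NumberField K1) (_ : Algebra K K1) (g : K1),
      (∀ k, 1 ≤ k → (f.map (algebraMap K K1)).act^[k] (g : OnePoint K1) ≠ (g : OnePoint K1)) ∧
      ∃ i j : ℕ, i < j ∧ (f.map (algebraMap K K1)).act^[i] (g : OnePoint K1) =
        (f.map (algebraMap K K1)).act^[j] (g : OnePoint K1) := by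
  let Ω := AlgebraicClosure K
  obtain ⟨g, hg, i, j, hij, hpre⟩ := exists_strict_closed (f.map (algebraMap K Ω)) hf
  let K1 := IntermediateField.adjoin K ({g} : Set Ω)
  have hfd : FiniteDimensional K K1 :=
    IntermediateField.adjoin.finiteDimensional (Algebra.IsIntegral.isIntegral g)
  have hfdQ : FiniteDimensional ℚ K1 := FiniteDimensional.trans ℚ K K1
  have hcz : CharZero K1 := charZero_of_injective_algebraMap (algebraMap K K1).injective
  have hnf : NumberField K1 := ⟨⟩
  let g1 : K1 := ⟨g, IntermediateField.mem_adjoin_simple_self K g⟩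
  have hg1 : algebraMap K1 Ω g1 = g := rfl
  have hmm : (f.map (algebraMap K K1)).map (algebraMap K1 Ω) = f.map (algebraMap K Ω) := by
    rw [RP.map_map, ← IsScalarTower.algebraMap_eq]
  have hit : ∀ k, pmap (algebraMap K1 Ω) ((f.map (algebraMap K K1)).act^[k] (g1 : OnePoint K1)) =
      (f.map (algebraMap K Ω)).act^[k] (g : OnePoint Ω) := by
    intro k
    rw [← RP.act_map_iterate, hmm]
    rfl
  refine ⟨K1, inferInstance, hnf, inferInstance, g1, fun k hk h => ?_, i, j, hij, ?_⟩
  · apply hg k hk
    rw [← hit, h]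
    rfl
  · apply pmap_injective (algebraMap K1 Ω)
    rw [hit, hit, hpre]

end Pool.Agent.ORB
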