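import Pool.Agent.ORB.RRed
import Pool.Agent.ORB.RHit
import Pool.Agent.ORB.RStrict

/-! ORB, rational functions, R3: a prime modulo which a wandering point is not periodic. -/

namespace Pool.Agent.ORB

open NumberField IsDedekindDomain Polynomial

universe u

theorem RP.map_id' {F : Type*} [Field F] (f : RP F) : f.map (RingHom.id F) = f := by
  simp only [RP.map, Polynomial.map_id]

theorem pmap_id' {F : Type*} [Field F] (x : OnePoint F) : pmap (RingHom.id F) x = x := by
  induction x using OnePoint.rec with
  | infty => rfl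
  | coe x => rfl

theorem rexists_good_prime {K : Type u} [Field K] [NumberField K] (f : RP K) (hf : 2 ≤ f.d)
    (b : OnePoint K) (hb : Function.Injective (fun n : ℕ => f.act^[n] b)) (bad : Finset ℕ) :
    ∃ (K2 : Type u) (_ : Field K2) (_ : NumberField K2) (_ : Algebra K K2)
      (w : HeightOneSpectrum (𝓞 K2)), Off w bad ∧
        RNonPer w (f.map (algebraMap K K2)) (pmap (algebraMap K K2) b) := by
  classical
  obtain ⟨K1, i1, i2, i3, g, hg, hpre⟩ := exists_strict f hf
  set f1 : RP K1 := f.map (algebraMap K K1) with hf1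
  set b1 : OnePoint K1 := pmap (algebraMap K K1) b with hb1
  have hb1inj : Function.Injective (fun n : ℕ => f1.act^[n] b1) := by
    intro n n' h
    apply hb
    apply pmap_injective (algebraMap K K1)
    have h2 : f1.act^[n] b1 = f1.act^[n'] b1 := h
    rw [hf1, hb1, RP.act_map_iterate, RP.act_map_iterate] at h2
    exact h2
  obtain ⟨bad1, h1⟩ := strict_nonper f1 (g : OnePoint K1) hg hpre
  obtain ⟨bad2, h2⟩ := RP.exists_bad f1
  obtain ⟨n, w, hoff, hsame⟩ := exists_hit f1 b1 hb1inj g hg (bad ∪ bad1 ∪ bad2)
  have hoffs : ∀ s : Finset ℕ, s ⊆ bad ∪ bad1 ∪ bad2 → Off w s := fun s hs m hm => hoff m (hs hm)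
  have hgood : f1.Good (w.valuation K1) := by
    have := h2 K1 w (hoffs _ Finset.subset_union_right)
    rw [Algebra.algebraMap_self, RP.map_id'] at this
    exact this
  have hgn : RNonPer w f1 (g : OnePoint K1) := by
    have := h1 K1 w (hoffs _ (Finset.subset_union_right.trans Finset.subset_union_left))
    rw [Algebra.algebraMap_self, RP.map_id', pmap_id'] at this
    exact this
  refine ⟨K1, i1, i2, i3, w, hoffs _ (Finset.subset_union_left.trans Finset.subset_union_left), ?_⟩
  exact (hgn.congr hgood hsame.symm).of_iterate hgood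

end Pool.Agent.ORB
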