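import Pool.Agent.ORB.RBlockA
import Pool.Agent.ORB.RAuto

/-! ORB, rational functions: blocks with one place modulo which the wandering `β_i` are not periodic. -/

namespace Pool.Agent.ORB

open NumberField IsDedekindDomain Polynomial

universe u

section scale

variable {F : Type*} [Field F]

/-- multiplication of both polynomials by a constant -/
noncomputable def RP.scale (c : F) (hc : c ≠ 0) (f : RP F) : RP F where
  A := C c * f.A
  B := C c * f.B
  d := f.d
  hA := le_trans (natDegree_C_mul_le _ _) f.hA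
  hB := le_trans (natDegree_C_mul_le _ _) f.hB
  hcop := by
    have hu : IsUnit (C c : F[X]) := isUnit_C.2 hc.isUnit
    exact (isCoprime_mul_unit_left hu f.A f.B).2 f.hcop
  htop := by
    rw [coeff_C_mul, coeff_C_mul]
    rcases f.htop with h | h
    · exact Or.inl (mul_ne_zero hc h)
    · exact Or.inr (mul_ne_zero hc h)

theorem RP.scale_act (c : F) (hc : c ≠ 0) (f : RP F) : (f.scale c hc).act = f.act := by
  funext x
  induction x using OnePoint.rec with
  | infty =>
    rw [RP.act_infty, RP.act_infty]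
    simp only [RP.scale, coeff_C_mul, mk2_mul hc]
  | coe a =>
    rw [RP.act_coe, RP.act_coe]
    simp only [RP.scale, eval_mul, eval_C, mk2_mul hc]

theorem RP.scale_map {F' : Type*} [Field F'] (φ : F →+* F') (c : F) (hc : c ≠ 0) (f : RP F) :
    (f.scale c hc).map φ = (f.map φ).scale (φ c) ((map_ne_zero φ).2 hc) := by
  simp only [RP.scale, RP.map, Polynomial.map_mul, map_C]

end scale

/-- good reduction at a place, after multiplication of numerator and denominator by a constant -/
def RGood {K : Type u} [Field K] [NumberField K] (w : HeightOneSpectrum (𝓞 K)) (f : RP K) : Prop :=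
  ∃ (c : K) (hc : c ≠ 0), (f.scale c hc).Good (w.valuation K)

theorem RGood.sameRed {K : Type u} [Field K] [NumberField K] {w : HeightOneSpectrum (𝓞 K)} {f : RP K}
    (hf : RGood w f) {x y : OnePoint K} (h : SameRed w x y) (n : ℕ) :
    SameRed w (f.act^[n] x) (f.act^[n] y) := by
  obtain ⟨c, hc, hg⟩ := hf
  have := hg.sameRed_iterate h n
  rwa [RP.scale_act] at this

/-- automorphisms from one place -/
theorem auto_of_place {K : Type u} [Field K] [NumberField K] {I : Type} [Finite I] (f : I → RP K)
    (β : I → OnePoint K) (K2 : Type u) [Field K2] [NumberField K2] [Algebra K K2]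
    (w : HeightOneSpectrum (𝓞 K2)) (hgood : ∀ i, RGood w ((f i).map (algebraMap K K2)))
    (hnp : ∀ i, RNonPer w ((f i).map (algebraMap K K2)) (pmap (algebraMap K K2) (β i))) :
    ∃ N0 : ℕ, ∀ N, N0 ≤ N → ∀ (L : Type u) [Field L] [NumberField L] [Algebra K L] [IsGalois ℚ L],
      ∃ σ : L ≃ₐ[ℚ] L, (∀ x : K, σ (algebraMap K L x) = algebraMap K L x) ∧ ∀ i (x : OnePoint L),
        ((f i).map (algebraMap K L)).act^[N] x = pmap (algebraMap K L) (β i) →
          pmap (σ : L →+* L) x ≠ x := by
  classical
  obtain ⟨N0, hN0⟩ := exists_sameRed w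
  refine ⟨N0, ?_⟩
  intro N hN L _ _ _ _
  obtain ⟨M, _, _, _, _, P, σ, hlo, h2, h3, h4⟩ := frob_ext (K := K) (K2 := K2) (L := L) w
  refine ⟨σ, h3, ?_⟩
  intro i x hx hfix
  let algKM : Algebra K M := ((algebraMap K2 M).comp (algebraMap K K2)).toAlgebra
  have t1 : IsScalarTower K K2 M := IsScalarTower.of_algebraMap_eq (fun x => rfl)
  have t2 : IsScalarTower K L M := by
    refine IsScalarTower.of_algebraMap_eq (fun y => ?_)
    rw [h2]
    rfl
  have hmapM : (f i).map (algebraMap K M) = ((f i).map (algebraMap K K2)).map (algebraMap K2 M) := by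
    rw [RP.map_map]
    rfl
  have hmapL : (f i).map (algebraMap K M) = ((f i).map (algebraMap K L)).map (algebraMap L M) := by
    rw [RP.map_map, IsScalarTower.algebraMap_eq K L M]
  have hgoodM : RGood P ((f i).map (algebraMap K M)) := by
    obtain ⟨c, hc, hg⟩ := hgood i
    refine ⟨algebraMap K2 M c, (_root_.map_ne_zero (algebraMap K2 M)).2 hc, ?_⟩
    have h5 := good_ext w P _ hg
    rw [RP.scale_map, ← hmapM] at h5
    exact h5
  have hnpM : RNonPer P ((f i).map (algebraMap K M)) (pmap (algebraMap K M) (β i)) := by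
    have h5 := (rnonPer_ext w P ((f i).map (algebraMap K K2)) (pmap (algebraMap K K2) (β i))).2 (hnp i)
    rw [pmap_comp, ← hmapM] at h5
    exact h5
  have hnon : RNonPer P ((f i).map (algebraMap K M))
      (pmap (algebraMap L M) (((f i).map (algebraMap K L)).act^[N] x)) := by
    rw [hx, pmap_comp, ← IsScalarTower.algebraMap_eq K L M]
    exact hnpM
  -- the iterates
  set g := (f i).map (algebraMap K M) with hg
  set X : ℕ → OnePoint M := fun n => g.act^[n] (pmap (algebraMap L M) x) with hX
  have hXn : ∀ n, X n = pmap (algebraMap L M) (((f i).map (algebraMap K L)).act^[n] x) := by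
    intro n
    rw [hX]
    simp only
    rw [hmapL, RP.act_map_iterate]
  rw [← hXn] at hnon
  have hred : ∀ n, ∃ y : OnePoint K2, SameRed P (X n) (pmap (algebraMap K2 M) y) := by
    intro n
    rw [hXn]
    have h5 := pmap_fix_iterate (f i) (σ : L →+* L) h3 hfix n
    generalize ((f i).map (algebraMap K L)).act^[n] x = z at h5
    induction z using OnePoint.rec with
    | infty =>
      refine ⟨OnePoint.infty, ?_⟩
      rw [pmap_infty, pmap_infty]
      exact SameRed.refl P _
    | coe a =>
      rw [pmap_coe, OnePoint.coe_eq_coe] at h5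
      by_cases ha : P.valuation M (algebraMap L M a) ≤ 1
      · obtain ⟨y, hy⟩ := h4 a h5 ha
        refine ⟨((algebraMap (𝓞 K2) K2 y : K2) : OnePoint K2), ?_⟩
        rw [pmap_coe, pmap_coe]
        refine Or.inr ⟨_, _, rfl, rfl, ha, ?_, hy⟩
        rw [← IsScalarTower.algebraMap_apply (𝓞 K2) K2 M, IsScalarTower.algebraMap_apply (𝓞 K2) (𝓞 M) M]
        exact HeightOneSpectrum.valuation_le_one P _
      · refine ⟨OnePoint.infty, ?_⟩
        rw [pmap_infty, pmap_coe]
        refine Or.inl ⟨?_, ?_⟩
        · intro b hb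
          rw [OnePoint.coe_eq_coe] at hb
          rw [← hb]
          exact not_le.1 ha
        · intro b hb
          exact absurd hb.symm (OnePoint.coe_ne_infty _)
  choose Y hY using hred
  obtain ⟨i1, j1, hij, hjN, hsame⟩ := hN0 Y
  have hsameM : SameRed P (X i1) (X j1) := by
    have h5 := (sameRed_ext w P (Y i1) (Y j1)).2 hsame
    exact ((hY i1).trans h5).trans (hY j1).symm
  have h6 := hgoodM.sameRed hsameM (N - i1)
  rw [hX] at h6
  simp only at h6
  rw [← Function.iterate_add_apply, ← Function.iterate_add_apply] at h6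
  have e1 : N - i1 + i1 = N := by omega
  have e2 : N - i1 + j1 = (j1 - i1) + N := by omega
  rw [e1, e2, Function.iterate_add_apply] at h6
  exact hnon (j1 - i1) (by omega) h6.symm

/-- a set of positive density is infinite -/
theorem PosDensity.infinite {K : Type u} [Field K] [NumberField K] {S : Set (HeightOneSpectrum (𝓞 K))}
    (h : PosDensity S) : S.Infinite := by
  intro hfin
  have h1 : PosDensity (∅ : Set (HeightOneSpectrum (𝓞 K))) :=
    posDensity_mono (by rw [Set.sdiff_empty]; exact hfin) h
  obtain ⟨c, hc, x0, hx0⟩ := h1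
  obtain ⟨x1, hx1⟩ := count_unbounded K 1
  have h2 := hx0 (max x0 x1) (le_max_left _ _)
  have h3 := hx1 (max x0 x1) (le_max_right _ _)
  have h4 : {v : HeightOneSpectrum (𝓞 K) | v ∈ (∅ : Set (HeightOneSpectrum (𝓞 K))) ∧
      Ideal.absNorm v.asIdeal ≤ max x0 x1} = ∅ := by
    ext v
    simp
  rw [h4, Set.ncard_empty, Nat.cast_zero] at h2
  have h5 : (1 : ℝ) ≤ ({v : HeightOneSpectrum (𝓞 K) | Ideal.absNorm v.asIdeal ≤ max x0 x1}.ncard : ℝ) := by
    exact_mod_cast h3
  have h6 : 0 < c * ({v : HeightOneSpectrum (𝓞 K) | Ideal.absNorm v.asIdeal ≤ max x0 x1}.ncard : ℝ) :=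
    mul_pos hc (by linarith)
  linarith

/-- from one place to infinitely many places of the base field -/
theorem places_of_place {K : Type u} [Field K] [NumberField K] {I : Type} [Finite I] (f : I → RP K)
    (hf : ∀ i, 2 ≤ (f i).d) (β : I → OnePoint K) (K2 : Type u) [Field K2] [NumberField K2] [Algebra K K2]
    (w : HeightOneSpectrum (𝓞 K2)) (hgood : ∀ i, RGood w ((f i).map (algebraMap K K2)))
    (hnp : ∀ i, RNonPer w ((f i).map (algebraMap K K2)) (pmap (algebraMap K K2) (β i)))
    (bad : Finset ℕ) : ∃ v : HeightOneSpectrum (𝓞 K), Off v bad ∧ ∀ i, RNonPer v (f i) (β i) := by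
  classical
  obtain ⟨N, hN⟩ := auto_of_place f β K2 w hgood hnp
  have hq : ∀ i, ((f i).iter N).q (β i) ≠ 0 := by
    intro i
    refine RP.q_ne_zero _ ?_ _
    rw [RP.iter_d]
    exact Nat.pow_pos (by have := hf i; omega)
  obtain ⟨L, _, _, _, hGal, hsplit⟩ := exists_closure (fun i => ((f i).iter N).q (β i)) hq
  obtain ⟨σ, hσ, hmove⟩ := hN N le_rfl L
  have hr : ∀ i, ∀ r : L, aeval r (((f i).iter N).q (β i)) = 0 → σ r ≠ r := by
    intro i r hr hfix
    have h1 : ((f i).map (algebraMap K L)).act^[N] (r : OnePoint L) = pmap (algebraMap K L) (β i) := by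
      rw [aeval_def, ← eval_map, RP.map_q, RP.map_iter, RP.q_root, RP.act_iter] at hr
      exact hr
    apply hmove i (r : OnePoint L) h1
    rw [pmap_coe]
    exact congrArg _ hfix
  have hinf : ∀ i, (f i).act^[N] OnePoint.infty ≠ β i := by
    intro i hi
    apply hmove i OnePoint.infty
    · rw [← pmap_infty (algebraMap K L), RP.act_map_iterate, hi]
    · rfl
  have hS := (posDensity_of_rootless σ hσ _ hq hsplit hr).infinite
  have hfin : ({v : HeightOneSpectrum (𝓞 K) | ¬ Off v bad} ∪
      ⋃ i, ({v : HeightOneSpectrum (𝓞 K) | ¬ (f i).Good (v.valuation K)} ∪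
        {v : HeightOneSpectrum (𝓞 K) | ¬ PtInt v (β i)} ∪
        {v : HeightOneSpectrum (𝓞 K) | SameRed v ((f i).act^[N] OnePoint.infty) (β i)})).Finite := by
    refine (finite_not_off bad).union (Set.finite_iUnion (fun i => ?_))
    exact ((RP.finite_not_good (f i)).union (finite_not_ptInt (β i))).union (finite_sameRed (hinf i))
  obtain ⟨v, hv1, hv2⟩ := (hS.sdiff hfin).nonempty
  simp only [Set.mem_union, Set.mem_iUnion, Set.mem_ofPred_eq, not_or, not_not, not_exists] at hv2
  obtain ⟨hoff, hv2⟩ := hv2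
  refine ⟨v, hoff, ?_⟩
  intro i m hm hsame
  obtain ⟨⟨hg, hpt⟩, hninf⟩ := hv2 i
  have h1 : SameRed v ((f i).act^[m * (N + 1)] (β i)) (β i) := iterate_mul_sameRed hg hsame (N + 1)
  have e1 : m * (N + 1) = N + (m * (N + 1) - N) := by
    have : N + 1 ≤ m * (N + 1) := Nat.le_mul_of_pos_left _ hm
    omega
  rw [e1, Function.iterate_add_apply] at h1
  generalize (f i).act^[m * (N + 1) - N] (β i) = x at h1
  induction x using OnePoint.rec with
  | infty => exact hninf h1
  | coe a =>
    by_cases ha : v.valuation K a ≤ 1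
    · apply hv1 i
      refine ⟨a, ha, ?_⟩
      have h2 := (hg.iter N).q_lt_iff hpt ha
      rw [RP.act_iter] at h2
      exact h2.2 h1
    · have h2 : SameRed v (a : OnePoint K) OnePoint.infty := by
        refine Or.inl ⟨?_, ?_⟩
        · intro b hb
          rw [OnePoint.coe_eq_coe] at hb
          rw [← hb]
          exact not_le.1 ha
        · intro b hb
          exact absurd hb.symm (OnePoint.coe_ne_infty _)
      exact hninf (((hg.sameRed_iterate h2 N).symm).trans h1)

/-- block condition of the second kind: one place of an extension with good reduction modulo which no wandering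
`β_i` is periodic -/
def PlaceBlock {K : Type u} [Field K] [NumberField K] {I : Type} (f : I → RP K)
    (β : I → OnePoint K) : Prop :=
  ∃ (K2 : Type u) (_ : Field K2) (_ : NumberField K2) (_ : Algebra K K2) (w : HeightOneSpectrum (𝓞 K2)),
    ∀ i, Function.Injective (fun n : ℕ => (f i).act^[n] (β i)) →
      RGood w ((f i).map (algebraMap K K2)) ∧
        RNonPer w ((f i).map (algebraMap K K2)) (pmap (algebraMap K K2) (β i))

theorem provides_of_place {K : Type u} [Field K] [NumberField K] {I : Type} [Finite I] (f : I → RP K)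
    (hf : ∀ i, 2 ≤ (f i).d) (β : I → OnePoint K) (h : PlaceBlock f β) : Provides f β := by
  classical
  obtain ⟨K2, _, _, _, w, hw⟩ := h
  refine provides_of_places f hf β ?_
  intro bad K' _ _ _
  obtain ⟨v, hv1, hv2⟩ := places_of_place
    (fun i : {i // Function.Injective (fun n : ℕ => (f i).act^[n] (β i))} => f i.1)
    (fun i => hf i.1) (fun i => β i.1) K2 w (fun i => (hw i.1 i.2).1) (fun i => (hw i.1 i.2).2) bad
  obtain ⟨⟨Q, hQ1, hQ2⟩⟩ := v.asIdeal.nonempty_primesOver (S := 𝓞 K')
  have hQ0 : Q ≠ ⊥ := Ideal.ne_bot_of_mem_primesOver v.ne_bot ⟨hQ1, hQ2⟩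
  let P : HeightOneSpectrum (𝓞 K') := ⟨Q, hQ1, hQ0⟩
  have hlo : P.asIdeal.LiesOver v.asIdeal := hQ2
  refine ⟨K', inferInstance, inferInstance, inferInstance, Algebra.id K', P, inferInstance, off_ext v P hv1, ?_⟩
  intro i hi
  exact (rnonPer_ext v P (f i) (β i)).2 (hv2 ⟨i, hi⟩)

end Pool.Agent.ORB
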