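import Pool.Agent.ORB.RRed

/-! ORB, rational functions, R4: targets. A target of level `N` is a point `x` such that `y = f^N(x)` is not
periodic and either `y = β`, or `β` is periodic and `f y` lies in the cycle of `β`. -/

namespace Pool.Agent.ORB

open NumberField IsDedekindDomain Polynomial

universe u

/-- `y` is not periodic and is either `β` or a preimage of a point of the cycle of `β` -/
def IsTgt {K : Type*} [Field K] (f : RP K) (β : OnePoint K) (L : Type*) [Field L] [Algebra K L]
    (y : OnePoint L) : Prop :=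
  (∀ m, 1 ≤ m → (f.map (algebraMap K L)).act^[m] y ≠ y) ∧
    (y = pmap (algebraMap K L) β ∨ ((∃ m, 1 ≤ m ∧ f.act^[m] β = β) ∧
      ∃ j, (f.map (algebraMap K L)).act y = pmap (algebraMap K L) (f.act^[j] β)))

/-- base change, both directions -/
theorem isTgt_map {K L M : Type*} [Field K] [Field L] [Field M] [Algebra K L] [Algebra K M] [Algebra L M]
    [IsScalarTower K L M] (f : RP K) (β : OnePoint K) (y : OnePoint L) :
    IsTgt f β M (pmap (algebraMap L M) y) ↔ IsTgt f β L y := by
  have hmap : f.map (algebraMap K M) = (f.map (algebraMap K L)).map (algebraMap L M) := by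
    rw [RP.map_map, ← IsScalarTower.algebraMap_eq]
  have hp : ∀ x : OnePoint K, pmap (algebraMap K M) x = pmap (algebraMap L M) (pmap (algebraMap K L) x) := by
    intro x
    rw [pmap_comp, ← IsScalarTower.algebraMap_eq]
  unfold IsTgt
  simp only [hmap, hp, RP.act_map_iterate, RP.act_map, (pmap_injective _).eq_iff, ne_eq]

/-- the image of a target is defined over the base field -/
theorem IsTgt.act_mem {K L : Type*} [Field K] [Field L] [Algebra K L] {f : RP K} {β : OnePoint K}
    {y : OnePoint L} (h : IsTgt f β L y) :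
    ∃ c : OnePoint K, (f.map (algebraMap K L)).act y = pmap (algebraMap K L) c := by
  rcases h.2 with h1 | ⟨-, j, hj⟩
  · exact ⟨f.act β, by rw [h1, RP.act_map]⟩
  · exact ⟨_, hj⟩

/-- moving backwards in a cycle -/
theorem tg_back {α : Type*} (T : α → α) {b : α} {m : ℕ} (hm : 1 ≤ m) (h : T^[m] b = b) (j : ℕ) :
    ∃ k, T^[k] (T^[j] b) = b := by
  refine ⟨j * m - j, ?_⟩
  rw [← Function.iterate_add_apply]
  have h1 : j * m - j + j = j * m := by
    have : j ≤ j * m := Nat.le_mul_of_pos_right j hm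
    omega
  rw [h1]
  have h2 : Function.IsPeriodicPt T (j * m) b := Function.IsPeriodicPt.const_mul h j
  exact h2

/-- the forward orbit of a target contains `β` -/
theorem IsTgt.iterate_eq {K L : Type*} [Field K] [Field L] [Algebra K L] {f : RP K} {β : OnePoint K}
    {y : OnePoint L} (h : IsTgt f β L y) :
    ∃ m : ℕ, (f.map (algebraMap K L)).act^[m] y = pmap (algebraMap K L) β := by
  rcases h.2 with h1 | ⟨⟨m, hm1, hm⟩, j, hj⟩
  · exact ⟨0, h1⟩
  · obtain ⟨k, hk⟩ := tg_back f.act hm1 hm j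
    refine ⟨k + 1, ?_⟩
    rw [Function.iterate_succ_apply, hj, RP.act_map_iterate, hk]

/-- decomposition of a polynomial relative to another one -/
theorem tg_split {F : Type*} [Field F] (Q : F[X]) : ∀ (n : ℕ) (P : F[X]), P.natDegree ≤ n → P ≠ 0 →
    ∃ R S : F[X], ∃ M : ℕ, P = R * S ∧ IsCoprime S Q ∧ R ∣ Q ^ M := by
  classical
  intro n
  induction n with
  | zero =>
    intro P hP h0
    refine ⟨1, P, 0, (one_mul P).symm, ?_, by rw [pow_zero]⟩
    have h1 : IsUnit P := by
      rw [isUnit_iff_degree_eq_zero, degree_eq_natDegree h0, Nat.le_zero.mp hP]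
      rfl
    obtain ⟨u, hu⟩ := h1
    exact ⟨((u⁻¹ : F[X]ˣ) : F[X]), 0, by rw [← hu, Units.inv_mul, zero_mul, add_zero]⟩
  | succ n ih =>
    intro P hP h0
    by_cases hc : IsCoprime P Q
    · exact ⟨1, P, 0, (one_mul P).symm, hc, by rw [pow_zero]⟩
    · rw [← EuclideanDomain.gcd_isUnit_iff] at hc
      set G := EuclideanDomain.gcd P Q with hG
      obtain ⟨P', hP'⟩ := EuclideanDomain.gcd_dvd_left P Q
      rw [← hG] at hP'
      have hG0 : G ≠ 0 := by
        intro h
        rw [h, zero_mul] at hP'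
        exact h0 hP'
      have hP'0 : P' ≠ 0 := by
        intro h
        rw [h, mul_zero] at hP'
        exact h0 hP'
      have hdG : 1 ≤ G.natDegree := by
        by_contra hcon
        apply hc
        rw [isUnit_iff_degree_eq_zero, degree_eq_natDegree hG0]
        have : G.natDegree = 0 := by omega
        rw [this]
        rfl
      have hd : P.natDegree = G.natDegree + P'.natDegree := by
        rw [hP', natDegree_mul hG0 hP'0]
      obtain ⟨R, S, M, h1, h2, h3⟩ := ih P' (by omega) hP'0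
      refine ⟨G * R, S, M + 1, by rw [mul_assoc, ← h1]; exact hP', h2, ?_⟩
      rw [pow_succ']
      exact mul_dvd_mul (EuclideanDomain.gcd_dvd_right P Q) h3

section
variable {K : Type u} [Field K] [NumberField K]

theorem tg_eval_le {v : HeightOneSpectrum (𝓞 K)} {p : K[X]} (hp : IntC (v.valuation K) p) {a : K}
    (ha : v.valuation K a ≤ 1) : v.valuation K (p.eval a) ≤ 1 := by
  have h := aeval_le v p (x := a) (by intro j; exact hp j) ha
  rwa [coe_aeval_eq_eval] at h

omit [NumberField K] in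
theorem tg_pmap_self (x : OnePoint K) : pmap (algebraMap K K) x = x := by
  induction x using OnePoint.rec with
  | infty => rfl
  | coe x => rfl

omit [NumberField K] in
theorem tg_map_self (f : RP K) : f.map (algebraMap K K) = f := by
  have h : (algebraMap K K) = RingHom.id K := rfl
  simp only [RP.map, h, Polynomial.map_id]

/-- a point which is not integral reduces to infinity -/
theorem tg_infty {v : HeightOneSpectrum (𝓞 K)} {x : OnePoint K}
    (h : ∀ a : K, x = (a : OnePoint K) → ¬ v.valuation K a ≤ 1) : SameRed v x OnePoint.infty := by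
  left
  refine ⟨fun a ha => not_le.mp (h a ha), fun a ha => ?_⟩
  exact absurd ha (OnePoint.infty_ne_coe a)

/-- case of a nonperiodic `β` -/
theorem rtarget_nonper (f : RP K) (hf : 2 ≤ f.d) (β : OnePoint K) (N : ℕ)
    (hper : ∀ m, 1 ≤ m → f.act^[m] β ≠ β) :
    ∃ F : K[X], F ≠ 0 ∧
      (∀ (L : Type u) [Field L] [NumberField L] [Algebra K L] (r : L), aeval r F = 0 →
        IsTgt f β L ((f.map (algebraMap K L)).act^[N] (r : OnePoint L))) ∧
      (¬ IsTgt f β K (f.act^[N] OnePoint.infty) → ∀ α : OnePoint K, (∀ n, f.act^[n] α ≠ β) →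
        {v : HeightOneSpectrum (𝓞 K) | (∃ n, SameRed v (f.act^[n] α) β) ∧ ¬ HasRoot v F}.Finite) := by
  have hd : 1 ≤ (f.iter N).d := by
    rw [RP.iter_d]
    exact Nat.one_le_pow _ _ (by omega)
  refine ⟨(f.iter N).q β, RP.q_ne_zero _ hd β, ?_, ?_⟩
  · intro L _ _ _ r hr
    rw [aeval_def, eval₂_eq_eval_map, RP.map_q, RP.q_root, RP.map_iter, RP.act_iter] at hr
    rw [hr]
    refine ⟨fun m hm h => ?_, Or.inl rfl⟩
    rw [RP.act_map_iterate] at h
    exact hper m hm (pmap_injective _ h)
  · intro hinf α hα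
    have hne : f.act^[N] OnePoint.infty ≠ β := by
      intro h
      apply hinf
      rw [h]
      refine ⟨?_, Or.inl (tg_pmap_self β).symm⟩
      intro m hm h2
      rw [tg_map_self] at h2
      exact hper m hm h2
    have hA : (⋃ n ∈ Finset.range N, {v : HeightOneSpectrum (𝓞 K) | SameRed v (f.act^[n] α) β}).Finite :=
      Set.Finite.biUnion (Finset.finite_toSet _) (fun n _ => finite_sameRed (hα n))
    refine (((f.finite_not_good.union (finite_not_ptInt β)).union (finite_sameRed hne)).union hA).subset ?_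
    rintro v ⟨⟨n, hn⟩, hroot⟩
    by_contra hv
    simp only [Set.mem_union, not_or, Set.mem_ofPred_eq, not_not, Set.mem_iUnion, not_exists] at hv
    obtain ⟨⟨⟨hgood, hint⟩, hinfv⟩, hAv⟩ := hv
    have hNn : N ≤ n := by
      by_contra hcon
      exact hAv n (Finset.mem_range.mpr (by omega)) hn
    obtain ⟨k, rfl⟩ := Nat.exists_eq_add_of_le hNn
    rw [Function.iterate_add_apply] at hn
    set x := f.act^[k] α with hx
    by_cases hxa : ∃ a : K, x = (a : OnePoint K) ∧ v.valuation K a ≤ 1
    · obtain ⟨a, ha, ha1⟩ := hxa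
      apply hroot
      refine ⟨a, ha1, ?_⟩
      rw [(hgood.iter N).q_lt_iff hint ha1, RP.act_iter, ← ha]
      exact hn
    · push Not at hxa
      have h1 : SameRed v x OnePoint.infty := tg_infty (fun a ha => not_le.mpr (hxa a ha))
      exact hinfv (((hgood.sameRed_iterate h1 N).symm).trans hn)

theorem tg_refl (v : HeightOneSpectrum (𝓞 K)) (x : OnePoint K) : SameRed v x x := by
  first
    | exact SameRed.refl v x
    | exact SameRed.refl x

/-- the cycle -/
noncomputable def tgZ (f : RP K) (β : OnePoint K) (m : ℕ) : Finset (OnePoint K) := by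
  classical
  exact (Finset.range m).image (fun j => f.act^[j] β)

/-- the polynomial with roots the points whose `N`-th image is in the cycle -/
noncomputable def tgQ (f : RP K) (Z : Finset (OnePoint K)) (N : ℕ) : K[X] := ∏ c ∈ Z, (f.iter N).q c

omit [NumberField K] in
theorem tg_mem_Z {f : RP K} {β : OnePoint K} {m : ℕ} (hm : 1 ≤ m) (h : f.act^[m] β = β) {c : OnePoint K} :
    c ∈ tgZ f β m ↔ ∃ j, c = f.act^[j] β := by
  classical
  unfold tgZ
  rw [Finset.mem_image]
  constructor
  · rintro ⟨j, -, hj⟩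
    exact ⟨j, hj.symm⟩
  · rintro ⟨j, hj⟩
    refine ⟨j % m, Finset.mem_range.mpr (Nat.mod_lt _ hm), ?_⟩
    rw [hj]
    have h2 : Function.IsPeriodicPt f.act m β := h
    exact h2.iterate_mod_apply j

omit [NumberField K] in
theorem tg_Q_ne (f : RP K) (hf : 2 ≤ f.d) (Z : Finset (OnePoint K)) (N : ℕ) : tgQ f Z N ≠ 0 := by
  unfold tgQ
  rw [Finset.prod_ne_zero_iff]
  intro c _
  refine RP.q_ne_zero _ ?_ c
  rw [RP.iter_d]
  exact Nat.one_le_pow _ _ (by omega)

omit [NumberField K] in
theorem tg_Q_root (f : RP K) (Z : Finset (OnePoint K)) (N : ℕ) (L : Type*) [Field L] [Algebra K L] (r : L) :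
    aeval r (tgQ f Z N) = 0 ↔
      ∃ c ∈ Z, (f.map (algebraMap K L)).act^[N] (r : OnePoint L) = pmap (algebraMap K L) c := by
  unfold tgQ
  rw [map_prod, Finset.prod_eq_zero_iff]
  constructor
  · rintro ⟨c, hc, h⟩
    rw [aeval_def, eval₂_eq_eval_map, RP.map_q, RP.q_root, RP.map_iter, RP.act_iter] at h
    exact ⟨c, hc, h⟩
  · rintro ⟨c, hc, h⟩
    refine ⟨c, hc, ?_⟩
    rw [aeval_def, eval₂_eq_eval_map, RP.map_q, RP.q_root, RP.map_iter, RP.act_iter]
    exact h

omit [NumberField K] in
/-- a point whose image is in the cycle, and which is not in the cycle, is a target -/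
theorem tg_isTgt {f : RP K} {β : OnePoint K} {m : ℕ} (hm : 1 ≤ m) (h : f.act^[m] β = β) (L : Type*) [Field L]
    [Algebra K L] {y : OnePoint L} {c : OnePoint K} (hc : c ∈ tgZ f β m)
    (h1 : (f.map (algebraMap K L)).act y = pmap (algebraMap K L) c)
    (h2 : ∀ c ∈ tgZ f β m, y ≠ pmap (algebraMap K L) c) : IsTgt f β L y := by
  obtain ⟨j, hj⟩ := (tg_mem_Z hm h).mp hc
  refine ⟨?_, Or.inr ⟨⟨m, hm, h⟩, j, by rw [h1, hj]⟩⟩
  intro k hk hy
  obtain ⟨i, rfl⟩ := Nat.exists_eq_add_of_le hk
  have h3 : (f.map (algebraMap K L)).act^[1 + i] y = pmap (algebraMap K L) (f.act^[i + j] β) := by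
    rw [Nat.add_comm, Function.iterate_succ_apply, h1, hj, RP.act_map_iterate, ← Function.iterate_add_apply]
  rw [hy] at h3
  exact h2 _ ((tg_mem_Z hm h).mpr ⟨i + j, rfl⟩) h3

/-- case of a periodic `β` -/
theorem rtarget_per (f : RP K) (hf : 2 ≤ f.d) (β : OnePoint K) (N : ℕ) (m : ℕ) (hm : 1 ≤ m)
    (hper : f.act^[m] β = β) :
    ∃ F : K[X], F ≠ 0 ∧
      (∀ (L : Type u) [Field L] [NumberField L] [Algebra K L] (r : L), aeval r F = 0 →
        IsTgt f β L ((f.map (algebraMap K L)).act^[N] (r : OnePoint L))) ∧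
      (¬ IsTgt f β K (f.act^[N] OnePoint.infty) → ∀ α : OnePoint K, (∀ n, f.act^[n] α ≠ β) →
        {v : HeightOneSpectrum (𝓞 K) | (∃ n, SameRed v (f.act^[n] α) β) ∧ ¬ HasRoot v F}.Finite) := by
  classical
  set Z := tgZ f β m with hZ
  obtain ⟨R, S, M, hRS, hcop, T, hT⟩ := tg_split (tgQ f Z N) _ (tgQ f Z (N + 1)) le_rfl (tg_Q_ne f hf Z _)
  have hS0 : S ≠ 0 := by
    rintro rfl
    rw [mul_zero] at hRS
    exact tg_Q_ne f hf Z _ hRS
  refine ⟨S, hS0, ?_, ?_⟩
  · intro L _ _ _ r hr
    have h1 : aeval r (tgQ f Z (N + 1)) = 0 := by rw [hRS, map_mul, hr, mul_zero]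
    have h2 : aeval r (tgQ f Z N) ≠ 0 := by
      intro h2
      obtain ⟨U, V, hUV⟩ := hcop
      have h3 := congrArg (aeval r) hUV
      rw [map_add, map_mul, map_mul, hr, h2, mul_zero, mul_zero, add_zero, map_one] at h3
      exact zero_ne_one h3
    rw [tg_Q_root] at h1
    rw [Ne, tg_Q_root] at h2
    push Not at h2
    obtain ⟨c, hc, h1⟩ := h1
    rw [Function.iterate_succ_apply'] at h1
    exact tg_isTgt hm hper L hc h1 h2
  · intro hinf α hα
    have hαZ : ∀ n, ∀ c ∈ Z, f.act^[n] α ≠ c := by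
      intro n c hc h
      obtain ⟨j, rfl⟩ := (tg_mem_Z hm hper).mp hc
      obtain ⟨k, hk⟩ := tg_back f.act hm hper j
      apply hα (k + n)
      rw [Function.iterate_add_apply, h, hk]
    have hA : (⋃ n ∈ Finset.range (N + 1), ⋃ c ∈ Z,
        {v : HeightOneSpectrum (𝓞 K) | SameRed v (f.act^[n] α) c}).Finite :=
      Set.Finite.biUnion (Finset.finite_toSet _) (fun n _ =>
        Set.Finite.biUnion (Finset.finite_toSet _) (fun c hc => finite_sameRed (hαZ n c hc)))
    have hB : (⋃ c ∈ Z, {v : HeightOneSpectrum (𝓞 K) | ¬ PtInt v c}).Finite :=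
      Set.Finite.biUnion (Finset.finite_toSet _) (fun c _ => finite_not_ptInt c)
    have hC : (⋃ c ∈ Z.filter (fun c => f.act^[N + 1] OnePoint.infty ≠ c),
        {v : HeightOneSpectrum (𝓞 K) | SameRed v (f.act^[N + 1] OnePoint.infty) c}).Finite := by
      refine Set.Finite.biUnion (Finset.finite_toSet _) (fun c hc => finite_sameRed ?_)
      exact (Finset.mem_filter.mp (Finset.mem_coe.mp hc)).2
    refine (((((f.finite_not_good.union hA).union hB).union hC).union (finite_not_intC R)).union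
      (finite_not_intC T)).subset ?_
    rintro v ⟨⟨n, hn⟩, hroot⟩
    by_contra hv
    simp only [Set.mem_union, not_or, Set.mem_ofPred_eq, not_not, Set.mem_iUnion, not_exists] at hv
    obtain ⟨⟨⟨⟨⟨hgood, hAv⟩, hBv⟩, hCv⟩, hR⟩, hTi⟩ := hv
    have hex : ∃ n, ∃ c ∈ Z, SameRed v (f.act^[n] α) c := ⟨n, β, (tg_mem_Z hm hper).mpr ⟨0, rfl⟩, hn⟩
    have hfind := Nat.find_spec hex
    set n0 := Nat.find hex with hn0
    have hmin : ∀ k < n0, ∀ c ∈ Z, ¬ SameRed v (f.act^[k] α) c := by
      intro k hk c hc h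
      exact Nat.find_min hex hk ⟨c, hc, h⟩
    obtain ⟨c, hc, hcn⟩ := hfind
    have hNn : N + 1 ≤ n0 := by
      by_contra hcon
      exact hAv n0 (Finset.mem_range.mpr (by omega)) c hc hcn
    obtain ⟨k, hk⟩ := Nat.exists_eq_add_of_le hNn
    rw [hk, Function.iterate_add_apply] at hcn
    set x := f.act^[k] α with hx
    have hN : ∀ c ∈ Z, ¬ SameRed v (f.act^[N] x) c := by
      intro c' hc' h
      rw [hx, ← Function.iterate_add_apply] at h
      exact hmin (N + k) (by omega) c' hc' h
    by_cases hxa : ∃ a : K, x = (a : OnePoint K) ∧ v.valuation K a ≤ 1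
    · obtain ⟨a, ha, ha1⟩ := hxa
      apply hroot
      refine ⟨a, ha1, ?_⟩
      have hle : ∀ (M' : ℕ), ∀ c ∈ Z, v.valuation K (((f.iter M').q c).eval a) ≤ 1 := by
        intro M' c hc
        exact tg_eval_le ((hgood.iter M').q_le (hBv c hc)) ha1
      have h1 : v.valuation K ((tgQ f Z (N + 1)).eval a) < 1 := by
        unfold tgQ
        rw [eval_prod]
        refine val_prod_lt _ _ _ (fun c hc => hle (N + 1) c hc) hc ?_
        rw [(hgood.iter (N + 1)).q_lt_iff (hBv c hc) ha1, RP.act_iter, ← ha]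
        exact hcn
      have h2 : v.valuation K ((tgQ f Z N).eval a) = 1 := by
        unfold tgQ
        rw [eval_prod, map_prod]
        refine Finset.prod_eq_one (fun c hc => le_antisymm (hle N c hc) (not_lt.mp ?_))
        rw [(hgood.iter N).q_lt_iff (hBv c hc) ha1, RP.act_iter, ← ha]
        exact hN c hc
      have h3 : v.valuation K (R.eval a) * v.valuation K (T.eval a) = 1 := by
        rw [← map_mul, ← eval_mul, ← hT, eval_pow, map_pow, h2, one_pow]
      have h4 : v.valuation K (R.eval a) = 1 := by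
        refine le_antisymm (tg_eval_le hR ha1) ?_
        by_contra hcon
        push Not at hcon
        have h5 : v.valuation K (R.eval a) * v.valuation K (T.eval a) < 1 :=
          mul_lt_one_of_nonneg_of_lt_one_left zero_le hcon (tg_eval_le hTi ha1)
        exact h5.ne h3
      rw [hRS, eval_mul, map_mul, h4, one_mul] at h1
      exact h1
    · push Not at hxa
      have h1 : SameRed v x OnePoint.infty := tg_infty (fun a ha => not_le.mpr (hxa a ha))
      have h2 : SameRed v (f.act^[N + 1] OnePoint.infty) c := ((hgood.sameRed_iterate h1 (N + 1)).symm).trans hcn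
      have h3 : f.act^[N + 1] OnePoint.infty = c := by
        by_contra hne
        exact hCv c (Finset.mem_filter.mpr ⟨hc, hne⟩) h2
      apply hinf
      refine tg_isTgt hm hper K hc ?_ ?_
      · rw [tg_map_self, tg_pmap_self]
        exact (Function.iterate_succ_apply' f.act N OnePoint.infty).symm.trans h3
      · intro c' hc' h4
        rw [tg_pmap_self] at h4
        apply hN c' hc'
        rw [← h4]
        exact hgood.sameRed_iterate h1 N

end

/-- polynomial with roots the finite targets of level `N`; collisions modulo almost all `v` give a root -/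
theorem rtarget {K : Type u} [Field K] [NumberField K] (f : RP K) (hf : 2 ≤ f.d) (β : OnePoint K) (N : ℕ) :
    ∃ F : K[X], F ≠ 0 ∧
      (∀ (L : Type u) [Field L] [NumberField L] [Algebra K L] (r : L), aeval r F = 0 →
        IsTgt f β L ((f.map (algebraMap K L)).act^[N] (r : OnePoint L))) ∧
      (¬ IsTgt f β K (f.act^[N] OnePoint.infty) → ∀ α : OnePoint K, (∀ n, f.act^[n] α ≠ β) →
        {v : HeightOneSpectrum (𝓞 K) | (∃ n, SameRed v (f.act^[n] α) β) ∧ ¬ HasRoot v F}.Finite) := by
  by_cases h : ∀ m, 1 ≤ m → f.act^[m] β ≠ β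
  · exact rtarget_nonper f hf β N h
  · push Not at h
    obtain ⟨m, hm, hper⟩ := h
    exact rtarget_per f hf β N m hm hper

/-- periodic case of `tgt_nonper` -/
theorem tgt_nonper_per {K : Type u} [Field K] [NumberField K] (f : RP K) (hf : 2 ≤ f.d) (β : OnePoint K)
    (m : ℕ) (hm : 1 ≤ m) (hper : f.act^[m] β = β) :
    ∃ bad : Finset ℕ, ∀ (K2 : Type u) [Field K2] [NumberField K2] [Algebra K K2]
      (w : HeightOneSpectrum (𝓞 K2)), Off w bad →
        ∀ y : OnePoint K2, IsTgt f β K2 y → RNonPer w (f.map (algebraMap K K2)) y := by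
  classical
  set Z := tgZ f β m with hZ
  obtain ⟨R, S, M, hRS, ⟨U, V, hUV⟩, hRQ⟩ := tg_split (tgQ f Z 0) _ (tgQ f Z 1) le_rfl (tg_Q_ne f hf Z _)
  have hS0 : S ≠ 0 := by
    rintro rfl
    rw [mul_zero] at hRS
    exact tg_Q_ne f hf Z _ hRS
  obtain ⟨bad1, hbad1⟩ := f.exists_bad
  choose badc hbadc using fun c : OnePoint K => ptInt_bad c
  obtain ⟨bad2, hbad2⟩ := bad_list (cf S ∪ cf V)
  refine ⟨bad1 ∪ Z.biUnion badc ∪ bad2, ?_⟩
  intro K2 _ _ _ w hoff y hy
  have hoff1 : Off w bad1 := fun k hk => hoff k (Finset.mem_union_left _ (Finset.mem_union_left _ hk))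
  have hoffc : ∀ c ∈ Z, Off w (badc c) := fun c hc k hk =>
    hoff k (Finset.mem_union_left _ (Finset.mem_union_right _ (Finset.mem_biUnion.mpr ⟨c, hc, hk⟩)))
  have hoff2 : Off w bad2 := fun k hk => hoff k (Finset.mem_union_right _ hk)
  set φ := algebraMap K K2 with hφ
  have hgood : (f.map φ).Good (w.valuation K2) := hbad1 K2 w hoff1
  have hint : ∀ c ∈ Z, PtInt w (pmap φ c) := fun c hc => hbadc c K2 w (hoffc c hc)
  have hcf := hbad2 K2 w hoff2
  have hSc : ∀ j, w.valuation K2 (φ (S.coeff j)) ≤ 1 :=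
    intC_of_cf ((w.valuation K2).comap φ) S (fun c hc h0 => hcf c (Finset.mem_union_left _ hc) h0)
  have hVc : ∀ j, w.valuation K2 (φ (V.coeff j)) ≤ 1 :=
    intC_of_cf ((w.valuation K2).comap φ) V (fun c hc h0 => hcf c (Finset.mem_union_right _ hc) h0)
  have hSl : w.valuation K2 (φ S.leadingCoeff) = 1 :=
    lead_of_cf ((w.valuation K2).comap φ) S hS0 (fun c hc h0 => hcf c (Finset.mem_union_left _ hc) h0)
  by_contra hnon
  have hcyc : ∀ c ∈ Z, f.act^[m] c = c := by
    intro c hc
    obtain ⟨i, rfl⟩ := (tg_mem_Z hm hper).mp hc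
    rw [← Function.iterate_add_apply, Nat.add_comm, Function.iterate_add_apply, hper]
  have hne : ∀ c ∈ Z, y ≠ pmap φ c := by
    intro c hc h
    apply hy.1 m hm
    rw [h, RP.act_map_iterate, hcyc c hc]
  obtain ⟨j, hj⟩ : ∃ j, (f.map φ).act y = pmap φ (f.act^[j] β) := by
    rcases hy.2 with h1 | ⟨-, j, hj⟩
    · exact absurd h1 (hne β ((tg_mem_Z hm hper).mpr ⟨0, rfl⟩))
    · exact ⟨j, hj⟩
  set c' := f.act^[j + (m - 1)] β with hc'
  have hc'Z : c' ∈ Z := (tg_mem_Z hm hper).mpr ⟨_, hc'⟩
  have hfc' : f.act c' = f.act^[j] β := by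
    rw [hc', ← Function.iterate_succ_apply' f.act]
    have h1 : (j + (m - 1)).succ = j + m := by omega
    rw [h1, Function.iterate_add_apply, hper]
  have hper' : ¬ RNonPer w (f.map φ) (pmap φ c') := by
    intro h
    apply h m hm
    rw [RP.act_map_iterate, hcyc c' hc'Z]
    exact tg_refl _ _
  have key : SameRed w y (pmap φ c') := by
    refine per_inj hgood hnon hper' ?_
    rw [hj, RP.act_map, hfc']
    exact tg_refl _ _
  induction y using OnePoint.rec with
  | infty =>
    have h1 : ∃ b : K2, pmap φ c' = (b : OnePoint K2) := by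
      have h2 := hne c' hc'Z
      obtain ⟨b, hb⟩ := OnePoint.ne_infty_iff_exists.mp (Ne.symm h2)
      exact ⟨b, hb.symm⟩
    obtain ⟨b, hb⟩ := h1
    rw [hb] at key
    exact not_sameRed_infty (hint c' hc'Z b hb) key
  | coe a =>
    have h1 : aeval a (tgQ f Z 1) = 0 := by
      rw [tg_Q_root]
      exact ⟨f.act^[j] β, (tg_mem_Z hm hper).mpr ⟨j, rfl⟩, hj⟩
    have h2 : aeval a (tgQ f Z 0) ≠ 0 := by
      rw [Ne, tg_Q_root]
      push Not
      exact hne
    have h3 : aeval a R ≠ 0 := by
      obtain ⟨T, hT⟩ := hRQ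
      intro h3
      have h4 := congrArg (aeval a) hT
      rw [map_mul, h3, zero_mul, map_pow] at h4
      exact pow_ne_zero _ h2 h4
    have h4 : aeval a S = 0 := by
      rw [hRS, map_mul] at h1
      exact (mul_eq_zero.mp h1).resolve_left h3
    have ha : w.valuation K2 a ≤ 1 := root_int w S hSc hSl h4
    have hV : w.valuation K2 (aeval a V) ≤ 1 := aeval_le w V hVc ha
    have h5 : aeval a V * aeval a (tgQ f Z 0) = 1 := by
      have h6 := congrArg (aeval a) hUV
      rwa [map_add, map_mul, map_mul, h4, mul_zero, zero_add, map_one] at h6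
    have h6 : w.valuation K2 (aeval a (tgQ f Z 0)) < 1 := by
      have h7 : aeval a (tgQ f Z 0) = ∏ c ∈ Z, (((f.map φ).iter 0).q (pmap φ c)).eval a := by
        unfold tgQ
        rw [map_prod]
        refine Finset.prod_congr rfl (fun c _ => ?_)
        rw [aeval_def, eval₂_eq_eval_map, RP.map_q, RP.map_iter]
      rw [h7]
      refine val_prod_lt _ _ _ (fun c hc => tg_eval_le ((hgood.iter 0).q_le (hint c hc)) ha) hc'Z ?_
      rw [(hgood.iter 0).q_lt_iff (hint c' hc'Z) ha, RP.act_iter]
      exact key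
    have h8 : w.valuation K2 (aeval a V * aeval a (tgQ f Z 0)) < 1 := by
      rw [map_mul]
      exact mul_lt_one_of_nonneg_of_lt_one_right hV zero_le h6
    rw [h5, map_one] at h8
    exact lt_irrefl _ h8

/-- targets are not periodic modulo almost all places, in all extensions; if `β` is wandering this is
the hypothesis for `β` -/
theorem tgt_nonper {K : Type u} [Field K] [NumberField K] (f : RP K) (hf : 2 ≤ f.d) (β : OnePoint K) :
    ∃ bad : Finset ℕ, ∀ (K2 : Type u) [Field K2] [NumberField K2] [Algebra K K2]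
      (w : HeightOneSpectrum (𝓞 K2)), Off w bad →
        (Function.Injective (fun n : ℕ => f.act^[n] β) →
          RNonPer w (f.map (algebraMap K K2)) (pmap (algebraMap K K2) β)) →
        ∀ y : OnePoint K2, IsTgt f β K2 y → RNonPer w (f.map (algebraMap K K2)) y := by
  by_cases hp : ∃ m, 1 ≤ m ∧ f.act^[m] β = β
  · obtain ⟨m, hm, hper⟩ := hp
    obtain ⟨bad, h⟩ := tgt_nonper_per f hf β m hm hper
    exact ⟨bad, fun K2 _ _ _ w hoff _ y hy => h K2 w hoff y hy⟩
  · by_cases hw : Function.Injective (fun n : ℕ => f.act^[n] β)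
    · refine ⟨∅, fun K2 _ _ _ w _ h y hy => ?_⟩
      rcases hy.2 with h1 | ⟨h1, -⟩
      · rw [h1]
        exact h hw
      · exact absurd h1 hp
    · rw [Function.not_injective_iff] at hw
      obtain ⟨i, j, hij, hne⟩ := hw
      have hpre : ∃ i j : ℕ, i < j ∧ f.act^[i] β = f.act^[j] β := by
        rcases lt_or_gt_of_ne hne with h | h
        · exact ⟨i, j, h, hij⟩
        · exact ⟨j, i, h, hij.symm⟩
      push Not at hp
      obtain ⟨bad, h⟩ := strict_nonper f β hp hpre
      refine ⟨bad, fun K2 _ _ _ w hoff _ y hy => ?_⟩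
      rcases hy.2 with h1 | ⟨⟨m, hm, h1⟩, -⟩
      · rw [h1]
        exact h K2 w hoff
      · exact absurd h1 (hp m hm)

end Pool.Agent.ORB
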