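import Pool.Agent.ORB.RDefs
import Pool.Agent.ORB.RFrob
import Pool.Agent.ORB.RExps
import Pool.Agent.ORB.RGoodPrime
import Pool.Agent.ORB.ThmI

/-! ORB, rational functions, R7: assembly of Theorem I for rational functions. -/

namespace Pool.Agent.ORB

open NumberField IsDedekindDomain Polynomial

universe u

theorem pmap_pow {L : Type*} [Field L] [NumberField L] (τ : L ≃ₐ[ℚ] L) (x : OnePoint L) {s n : ℕ}
    (h : pmap ((τ ^ s : L ≃ₐ[ℚ] L) : L →+* L) x = x) (hd : s ∣ n) :
    pmap ((τ ^ n : L ≃ₐ[ℚ] L) : L →+* L) x = x := by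
  induction x using OnePoint.rec with
  | infty => rfl
  | coe a =>
    rw [pmap_coe, OnePoint.coe_eq_coe] at h ⊢
    exact pow_fix_of_dvd τ h hd

/-- an automorphism fixing the field of roots of unity: a power with exponent `E ^ k` fixes an iterated
preimage of a point of `P^1(K)` -/
theorem rexists_pow_fix {K L : Type u} [Field K] [NumberField K] [Field L] [NumberField L] [Algebra K L]
    (E : ℕ) (g : RP L) (m : ℕ)
    (hex : ∀ τ : L ≃ₐ[ℚ] L, (∀ x : K, τ (algebraMap K L x) = algebraMap K L x) →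
        (∀ z : L, z ^ m = 1 → τ z = z) → ∀ x : OnePoint L, pmap (τ : L →+* L) (g.act x) = g.act x →
          ∃ k : ℕ, pmap ((τ ^ (E ^ k) : L ≃ₐ[ℚ] L) : L →+* L) x = x)
    (τ : L ≃ₐ[ℚ] L) (hτ : ∀ x : K, τ (algebraMap K L x) = algebraMap K L x)
    (hz : ∀ z : L, z ^ m = 1 → τ z = z) (t : ℕ) :
    ∀ x : OnePoint L, (∃ c : OnePoint K, g.act^[t] x = pmap (algebraMap K L) c) →
      ∃ k : ℕ, pmap ((τ ^ (E ^ k) : L ≃ₐ[ℚ] L) : L →+* L) x = x := by
  induction t with
  | zero =>
    rintro x ⟨c, hc⟩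
    refine ⟨0, ?_⟩
    rw [Function.iterate_zero_apply] at hc
    rw [pow_zero, pow_one, hc]
    induction c using OnePoint.rec with
    | infty => rfl
    | coe a =>
      rw [pmap_coe, pmap_coe, OnePoint.coe_eq_coe]
      exact hτ a
  | succ t ih =>
    rintro x ⟨c, hc⟩
    rw [Function.iterate_succ_apply] at hc
    obtain ⟨k, hk⟩ := ih _ ⟨c, hc⟩
    have h1 : ∀ x : K, (τ ^ (E ^ k)) (algebraMap K L x) = algebraMap K L x :=
      fun x => pow_fix_field τ hτ _ x
    have h2 : ∀ z : L, z ^ m = 1 → (τ ^ (E ^ k)) z = z := by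
      intro z hz1
      exact pow_fix_of_dvd τ (s := 1) (n := E ^ k) (by rw [pow_one]; exact hz z hz1) (one_dvd _)
    obtain ⟨k', hk'⟩ := hex (τ ^ (E ^ k)) h1 h2 x hk
    refine ⟨k + k', ?_⟩
    rw [pow_add, pow_mul]
    exact hk'

/-- the common core of Theorem I and its variants -/
theorem rthm_core {K : Type u} [Field K] [NumberField K] {ι J : Type} [Finite ι] [Finite J]
    (f : ι → RatFunc K) (hf : ∀ i, 2 ≤ rdeg (f i)) (β : ι → OnePoint K) (blk : ι → J) (E : J → ℕ)
    (hE : ∀ i j, i ≠ j → Nat.Coprime (E i) (E j)) (hexp : ∀ i, RHasExp (E (blk i)) (f i))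
    (hprov : ∀ j, Provides (fun i : {i // blk i = j} => RP.ofRat (f i.1)) (fun i => β i.1))
    (K3 : Type u) [Field K3] [NumberField K3] [Algebra K K3] :
    ∃ (F : ι → K[X]) (L : Type u) (_ : Field L) (_ : NumberField L) (_ : Algebra K L) (_ : Algebra K3 L)
      (σ : L ≃ₐ[ℚ] L), IsScalarTower K K3 L ∧ IsGalois ℚ L ∧ (∀ i, F i ≠ 0) ∧
      (∀ i, ((F i).map (algebraMap K L)).Splits) ∧
      (∀ x : K3, σ (algebraMap K3 L x) = algebraMap K3 L x) ∧
      (∀ x : K, σ (algebraMap K L x) = algebraMap K L x) ∧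
      (∀ i, ∀ r : L, aeval r (F i) = 0 → σ r ≠ r) ∧
      (∀ i (α : OnePoint K), (∀ n, (RP.ofRat (f i)).act^[n] α ≠ β i) →
        {v : HeightOneSpectrum (𝓞 K) | (∃ n, SameRed v ((RP.ofRat (f i)).act^[n] α) (β i)) ∧
          ¬ HasRoot v (F i)}.Finite) := by
  classical
  cases nonempty_fintype ι
  cases nonempty_fintype J
  -- exponents
  have hex := fun i => rexps (E (blk i)) (f i) (by have := hf i; omega) (hexp i)
  choose mi hmi0 hmi using hex
  set m : ℕ := ∏ i, mi i with hm
  have hm0 : 0 < m := Finset.prod_pos (fun i _ => hmi0 i)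
  have hmdvd : ∀ i, mi i ∣ m := fun i => Finset.dvd_prod_of_mem mi (Finset.mem_univ i)
  obtain ⟨K', _, _, _, z, hz⟩ := exists_cyclo K3 m hm0
  let algKK' : Algebra K K' := ((algebraMap K3 K').comp (algebraMap K K3)).toAlgebra
  have : IsScalarTower K K3 K' := IsScalarTower.of_algebraMap_eq (fun x => rfl)
  -- level
  choose N0 hN0 using fun j => hprov j K'
  set N : ℕ := Finset.univ.sup N0 with hN
  have htar := fun i => rtarget (RP.ofRat (f i)) (hf i) (β i) N
  choose F hF0 hroot hcoll using htar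
  have hF0' : ∀ i, (F i).map (algebraMap K K') ≠ 0 := fun i => Polynomial.map_ne_zero (hF0 i)
  obtain ⟨L, _, _, _, hGal, hsplit⟩ := exists_closure (fun i => (F i).map (algebraMap K K')) hF0'
  let algKL : Algebra K L := ((algebraMap K' L).comp (algebraMap K K')).toAlgebra
  have : IsScalarTower K K' L := IsScalarTower.of_algebraMap_eq (fun x => rfl)
  let algK3L : Algebra K3 L := ((algebraMap K' L).comp (algebraMap K3 K')).toAlgebra
  have : IsScalarTower K3 K' L := IsScalarTower.of_algebraMap_eq (fun x => rfl)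
  have : IsScalarTower K K3 L := IsScalarTower.of_algebraMap_eq (fun x => rfl)
  -- automorphisms for the blocks
  have hσ : ∀ j : J, ∃ σ : L ≃ₐ[K'] L, ∀ i, blk i = j → ∀ x : OnePoint L,
      IsTgt (RP.ofRat (f i)) (β i) L (((RP.ofRat (f i)).map (algebraMap K L)).act^[N] x) →
        pmap (σ : L →+* L) x ≠ x := by
    intro j
    obtain ⟨σ, hσ⟩ := hN0 j N (Finset.le_sup (Finset.mem_univ j)) L
    exact ⟨σ, fun i hij x hx => hσ ⟨i, hij⟩ x hx⟩
  choose σ hσ' using hσ
  have hinf : ∀ i, ¬ IsTgt (RP.ofRat (f i)) (β i) K ((RP.ofRat (f i)).act^[N] OnePoint.infty) := by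
    intro i hi
    have h1 := (isTgt_map (M := L) (RP.ofRat (f i)) (β i) _).2 hi
    rw [← RP.act_map_iterate, pmap_infty] at h1
    exact hσ' (blk i) i rfl OnePoint.infty h1 rfl
  set F' : ι → K'[X] := fun i => (F i).map (algebraMap K K') with hF'
  have : Finite (Roots F' L) := Roots.finite F' hF0'
  have : Finite (L ≃ₐ[K'] L) := inferInstance
  -- a uniform exponent
  have hpow : ∀ (g : L ≃ₐ[K'] L) (p : Roots F' L), ∃ k : ℕ, g ^ (E (blk p.1.1) ^ k) • p = p := by
    intro g p
    obtain ⟨⟨i, r⟩, hr⟩ := p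
    simp only at hr ⊢
    let τ : L ≃ₐ[ℚ] L := g.restrictScalars ℚ
    have hτK : ∀ x : K, τ (algebraMap K L x) = algebraMap K L x := by
      intro x
      show g (algebraMap K' L (algebraMap K K' x)) = _
      rw [g.commutes]
      rfl
    have hτz : ∀ y : L, y ^ mi i = 1 → τ y = y := by
      intro y hy
      have hy' : y ^ m = 1 := by
        obtain ⟨t, ht⟩ := hmdvd i
        rw [ht, pow_mul, hy, one_pow]
      have : NeZero m := ⟨hm0.ne'⟩
      obtain ⟨t, -, ht⟩ := (hz.map_of_injective (algebraMap K' L).injective).eq_pow_of_pow_eq_one hy'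
      show g y = y
      rw [← ht, ← map_pow, g.commutes]
    have hr0 : aeval r (F i) = 0 := by
      have h1 : aeval r ((F i).map (algebraMap K K')) = 0 := hr
      rwa [aeval_map_algebraMap] at h1
    obtain ⟨c, hc⟩ := (hroot i L r hr0).act_mem
    have hprim : ∃ z' : L, IsPrimitiveRoot z' (mi i) := by
      obtain ⟨t, ht⟩ := hmdvd i
      exact ⟨_, (hz.map_of_injective (algebraMap K' L).injective).pow hm0 (by rw [ht, mul_comm])⟩
    obtain ⟨k, hk⟩ := rexists_pow_fix (E (blk i)) ((RP.ofRat (f i)).map (algebraMap K L)) (mi i)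
      (fun τ h1 h2 => hmi i L τ h1 hprim h2) τ hτK hτz (N + 1) (r : OnePoint L)
      ⟨c, by rw [Function.iterate_succ_apply']; exact hc⟩
    refine ⟨k, ?_⟩
    apply Subtype.ext
    rw [Roots.smul_val]
    have h2 : ∀ (n : ℕ) (x : L), (τ ^ n) x = (g ^ n) x := by
      intro n
      induction n with
      | zero => intro x; rfl
      | succ n ih =>
        intro x
        rw [pow_succ, pow_succ, AlgEquiv.mul_apply, AlgEquiv.mul_apply, ih]
        rfl
    rw [pmap_coe, OnePoint.coe_eq_coe] at hk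
    have h3 : (τ ^ (E (blk i) ^ k)) r = r := hk
    rw [h2] at h3
    exact Prod.ext rfl h3
  obtain ⟨k, hk⟩ : ∃ k : ℕ, ∀ g ∈ (⊤ : Subgroup (L ≃ₐ[K'] L)), ∀ p : Roots F' L,
      g ^ (E (blk p.1.1) ^ k) • p = p := by
    choose kk hkk using hpow
    cases nonempty_fintype (L ≃ₐ[K'] L)
    cases nonempty_fintype (Roots F' L)
    refine ⟨Finset.univ.sup (fun gp : (L ≃ₐ[K'] L) × Roots F' L => kk gp.1 gp.2), ?_⟩
    intro g _ p
    have hle : kk g p ≤ Finset.univ.sup (fun gp : (L ≃ₐ[K'] L) × Roots F' L => kk gp.1 gp.2) :=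
      Finset.le_sup (f := fun gp : (L ≃ₐ[K'] L) × Roots F' L => kk gp.1 gp.2) (Finset.mem_univ (g, p))
    obtain ⟨t, ht⟩ := Nat.exists_eq_add_of_le hle
    rw [ht, pow_add, pow_mul]
    have h3 := hkk g p
    generalize g ^ E (blk p.1.1) ^ kk g p = h at h3
    have h4 : ∀ n : ℕ, h ^ n • p = p := by
      intro n
      induction n with
      | zero => rw [pow_zero, one_smul]
      | succ n ih => rw [pow_succ, mul_smul, h3, ih]
    exact h4 _
  obtain ⟨τ, -, hτ⟩ := combine (fun p : Roots F' L => blk p.1.1) (fun g p => rfl) E hE k ⊤ hk σ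
    (fun j => Subgroup.mem_top _) (by
      rintro ⟨⟨i, r⟩, hr⟩ heq
      have h1 := congrArg Subtype.val heq
      rw [Roots.smul_val] at h1
      have h2 : (σ (blk i)) r = r := congrArg Prod.snd h1
      have hr0 : aeval r (F i) = 0 := by
        have h1 : aeval r ((F i).map (algebraMap K K')) = 0 := hr
        rwa [aeval_map_algebraMap] at h1
      refine hσ' (blk i) i rfl (r : OnePoint L) (hroot i L r hr0) ?_
      rw [pmap_coe, OnePoint.coe_eq_coe]
      exact h2)
  refine ⟨F, L, inferInstance, inferInstance, inferInstance, inferInstance, τ.restrictScalars ℚ,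
    inferInstance, hGal, hF0, ?_, ?_, ?_, ?_, ?_⟩
  · intro i
    have h1 := hsplit i
    rw [Polynomial.map_map] at h1
    exact h1
  · intro x
    show τ (algebraMap K' L (algebraMap K3 K' x)) = _
    rw [τ.commutes]
    rfl
  · intro x
    show τ (algebraMap K' L (algebraMap K K' x)) = _
    rw [τ.commutes]
    rfl
  · intro i r hr hfix
    have hr' : aeval r (F' i) = 0 := by
      show aeval r ((F i).map (algebraMap K K')) = 0
      rw [aeval_map_algebraMap]
      exact hr
    refine hτ ⟨(i, r), hr'⟩ ?_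
    apply Subtype.ext
    rw [Roots.smul_val]
    exact Prod.ext rfl hfix
  · intro i α hα
    exact hcoll i (hinf i) α hα

/-- positive density from the providers -/
theorem rthm_of_provides {K : Type u} [Field K] [NumberField K] {ι J : Type} [Finite ι] [Finite J]
    (f : ι → RatFunc K) (hf : ∀ i, 2 ≤ rdeg (f i)) (α β : ι → OnePoint K)
    (hαβ : ∀ i n, (ract (RingHom.id K) (f i))^[n] (α i) ≠ β i) (blk : ι → J) (E : J → ℕ)
    (hE : ∀ i j, i ≠ j → Nat.Coprime (E i) (E j)) (hexp : ∀ i, RHasExp (E (blk i)) (f i))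
    (hprov : ∀ j, Provides (fun i : {i // blk i = j} => RP.ofRat (f i.1)) (fun i => β i.1)) :
    PosDensity (RAvoidSet f α β) := by
  obtain ⟨F, L, _, _, algKL, algKL', σ, -, hGal, hF0, hsplit, -, hσK', hσ, hcoll⟩ :=
    rthm_core f hf β blk E hE hexp hprov K
  clear algKL'
  have hfinal : PosDensity {v : HeightOneSpectrum (𝓞 K) | ∀ i, ¬ HasRoot v (F i)} :=
    posDensity_of_rootless σ hσK' F hF0 hsplit hσ
  refine posDensity_mono ?_ hfinal
  have hfin : (⋃ i, {v : HeightOneSpectrum (𝓞 K) |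
      (∃ n, SameRed v ((RP.ofRat (f i)).act^[n] (α i)) (β i)) ∧ ¬ HasRoot v (F i)}).Finite :=
    Set.finite_iUnion (fun i => hcoll i (α i) (fun n => by
      have := hαβ i n
      rwa [ract_id] at this))
  refine hfin.subset ?_
  rintro v ⟨hv1, hv2⟩
  simp only [RAvoidSet, ract_id, Set.mem_ofPred_eq, not_forall, not_not] at hv2
  obtain ⟨i, n, hv3⟩ := hv2
  rw [Set.mem_iUnion]
  exact ⟨i, ⟨n, hv3⟩, hv1 i⟩

end Pool.Agent.ORB
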