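import Pool.Agent.ORB.Noninj
import Pool.Agent.ORB.Val

/-! ORB, Theorem IV: residue homomorphisms to prime fields and collisions of polynomials. -/

namespace Pool.Agent.ORB

open NumberField IsDedekindDomain Polynomial

theorem exists_resHom {M : Type*} [Field M] [NumberField M] {p : ℕ} (hp : p.Prime)
    (v : HeightOneSpectrum (𝓞 M)) (h : Ideal.absNorm v.asIdeal = p) :
    ∃ φ : 𝓞 M →+* ZMod p, RingHom.ker φ = v.asIdeal := by
  have hmax : v.asIdeal.IsMaximal := v.isMaximal
  have hfin : Finite (𝓞 M ⧸ v.asIdeal) := inferInstance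
  have := Fintype.ofFinite (𝓞 M ⧸ v.asIdeal)
  have hcard : Fintype.card (𝓞 M ⧸ v.asIdeal) = p := by
    rw [← Nat.card_eq_fintype_card, ← h]
    exact (Ideal.absNorm_apply _).symm
  let e : ZMod p ≃+* (𝓞 M ⧸ v.asIdeal) := ZMod.ringEquivOfPrime _ hp hcard
  refine ⟨e.symm.toRingHom.comp (Ideal.Quotient.mk v.asIdeal), ?_⟩
  ext x
  rw [RingHom.mem_ker]
  show e.symm (Ideal.Quotient.mk v.asIdeal x) = 0 ↔ _
  rw [map_eq_zero_iff _ e.symm.injective, Ideal.Quotient.eq_zero_iff_mem]

theorem root_hom {R F Fr : Type*} [CommRing R] [IsDomain R] [IsIntegrallyClosed R] [Field Fr] [Algebra R Fr]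
    [IsFractionRing R Fr] [Field F] (φ : R →+* F) (H : R[X]) (hH : 1 ≤ H.natDegree)
    (hl : φ H.leadingCoeff ≠ 0) {θ : Fr} (hθ : aeval θ H = 0) : ∃ u : F, (H.map φ).eval u = 0 := by
  have hinj : Function.Injective (algebraMap R Fr) := IsFractionRing.injective R Fr
  have h1 : aeval (algebraMap R Fr H.leadingCoeff * θ) (integralNormalization H) = 0 :=
    integralNormalization_aeval_eq_zero hθ (fun x hx => by
      rw [map_eq_zero_iff _ hinj] at hx
      exact hx)
  have hH0 : H ≠ 0 := by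
    intro h0; rw [h0] at hH; simp at hH
  have hint : IsIntegral R (algebraMap R Fr H.leadingCoeff * θ) :=
    ⟨integralNormalization H, monic_integralNormalization hH0, by rw [← aeval_def]; exact h1⟩
  obtain ⟨η, hη⟩ := IsIntegrallyClosed.isIntegral_iff.1 hint
  have h2 : (integralNormalization H).eval η = 0 := by
    apply hinj
    rw [map_zero, ← h1, ← hη, aeval_algebraMap_apply_eq_algebraMap_eval]
  refine ⟨φ η / φ H.leadingCoeff, ?_⟩
  have h8 := integralNormalization_eval₂_leadingCoeff_mul (p := H) hH φ (φ η / φ H.leadingCoeff)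
  rw [mul_div_cancel₀ _ hl, eval₂_at_apply, h2, map_zero] at h8
  rw [eval_map]
  exact (mul_eq_zero.1 h8.symm).resolve_left (pow_ne_zero _ hl)

theorem exists_quotR {R : Type*} [CommRing R] [IsDomain R] [CharZero R] (g : R[X]) (hg : 2 ≤ g.natDegree) :
    ∃ (x0 : R) (H : R[X]),
    g = C (g.eval x0) + (X - C x0) * H ∧ 1 ≤ H.natDegree ∧ H.eval x0 ≠ 0 := by
  have hinf : Infinite R := CharZero.infinite R
  have hd : derivative g ≠ 0 := by
    intro h
    rw [derivative_eq_zero] at h
    omega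
  obtain ⟨x0, hx0⟩ : ∃ x : R, (derivative g).eval x ≠ 0 := by
    by_contra hcon
    push Not at hcon
    exact hd (Polynomial.funext (fun x => by rw [hcon x, eval_zero]))
  have h1 : (X - C x0) ∣ g - C (g.eval x0) := by
    rw [dvd_iff_isRoot]; simp
  obtain ⟨H, hH⟩ := h1
  have hg' : g = C (g.eval x0) + (X - C x0) * H := by rw [← hH]; ring
  refine ⟨x0, H, hg', ?_, ?_⟩
  · have h2 : (g - C (g.eval x0)).natDegree = g.natDegree := natDegree_sub_C
    have hH0 : H ≠ 0 := by
      intro h0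
      rw [h0, mul_zero] at hH
      rw [hH] at h2
      simp at h2
      omega
    rw [hH, natDegree_mul (X_sub_C_ne_zero x0) hH0, natDegree_X_sub_C] at h2
    omega
  · have h3 : derivative g = H + (X - C x0) * derivative H := by
      conv_lhs => rw [hg']
      simp only [derivative_add, derivative_C, derivative_mul, derivative_sub, derivative_X, sub_zero,
        zero_add, one_mul]
    rw [h3] at hx0
    simpa using hx0

/-- a root `u` of `H` modulo a prime gives a collision `g(u) = g(x0)` -/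
theorem noninj_of_root {R F : Type*} [CommRing R] [Field F] (φ : R →+* F) {g H : R[X]} {x0 : R}
    (hg : g = C (g.eval x0) + (X - C x0) * H) (hx : φ (H.eval x0) ≠ 0) {u : F} (hu : (H.map φ).eval u = 0) :
    ¬ Function.Injective (fun x : F => (g.map φ).eval x) := by
  intro hinj
  have h1 : (g.map φ).eval u = (g.map φ).eval (φ x0) := by
    rw [hg]
    simp [hu]
  have h2 := hinj h1
  rw [h2] at hu
  apply hx
  rw [← hu, eval_map, eval₂_at_apply]

/-- for a prime of degree one: no root modulo `w` -/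
theorem no_rootK {K : Type*} [Field K] [NumberField K] (w : HeightOneSpectrum (𝓞 K)) {p : ℕ} [Fact p.Prime]
    (φ : 𝓞 K →+* ZMod p) (hφ : RingHom.ker φ = w.asIdeal) (f : K[X]) (g : (𝓞 K)[X]) (c : 𝓞 K)
    (hg : g.map (algebraMap (𝓞 K) K) = C (algebraMap (𝓞 K) K c) * f) (a b : 𝓞 K) (hb : φ b ≠ 0)
    (hval : ∀ x : ZMod p, φ b * (g.map φ).eval x ≠ φ c * φ a) :
    ¬ HasRoot w (f - C (algebraMap (𝓞 K) K a / algebraMap (𝓞 K) K b)) := by
  rintro ⟨x, hx1, hx2⟩
  have hb0 : algebraMap (𝓞 K) K b ≠ 0 := by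
    intro h
    apply hb
    rw [map_eq_zero_iff _ (FaithfulSMul.algebraMap_injective (𝓞 K) K)] at h
    rw [h, map_zero]
  obtain ⟨a', ⟨s, hs⟩, e⟩ := w.exists_primeCompl_mul_eq_of_integer x hx1
  have hs1 : w.valuation K (algebraMap (𝓞 K) K s) = 1 :=
    (HeightOneSpectrum.valuation_eq_one_iff_notMem w).2 hs
  have hφs : φ s ≠ 0 := by
    intro h
    apply hs
    have : s ∈ RingHom.ker φ := h
    rwa [hφ] at this
  obtain ⟨y, hy⟩ : ∃ y : 𝓞 K, φ y = φ a' / φ s := by
    obtain ⟨n, hn⟩ := ZMod.intCast_surjective (φ a' / φ s)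
    exact ⟨n, by rw [map_intCast]; exact hn⟩
  have hxy : w.valuation K (x - algebraMap (𝓞 K) K y) < 1 := by
    have h1 : algebraMap (𝓞 K) K s * (x - algebraMap (𝓞 K) K y) = algebraMap (𝓞 K) K (a' - s * y) := by
      rw [mul_sub, map_sub, map_mul]
      have e' : algebraMap (𝓞 K) K s * x = algebraMap (𝓞 K) K a' := (mul_comm _ _).trans e
      rw [e']
    have h2 : a' - s * y ∈ w.asIdeal := by
      rw [← hφ, RingHom.mem_ker, map_sub, map_mul, hy, mul_div_cancel₀ _ hφs, sub_self]
    have h3 : w.valuation K (algebraMap (𝓞 K) K (a' - s * y)) < 1 :=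
      (HeightOneSpectrum.valuation_lt_one_iff_mem (K := K) w (a' - s * y)).2 h2
    rw [← h1, map_mul, hs1, one_mul] at h3
    exact h3
  have hy1 : w.valuation K (algebraMap (𝓞 K) K y) ≤ 1 := w.valuation_le_one y
  have h4 : w.valuation K (aeval x g - aeval (algebraMap (𝓞 K) K y) g) < 1 :=
    aeval_congr w g (fun j => w.valuation_le_one _) hx1 hy1 hxy
  have h5 : aeval x g = algebraMap (𝓞 K) K c * f.eval x := by
    rw [aeval_def, ← eval_map, hg, eval_mul, eval_C]
  have h6 : w.valuation K (algebraMap (𝓞 K) K b * aeval x g - algebraMap (𝓞 K) K (c * a)) < 1 := by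
    have h7 : algebraMap (𝓞 K) K b * aeval x g - algebraMap (𝓞 K) K (c * a) =
        algebraMap (𝓞 K) K (c * b) * (f - C (algebraMap (𝓞 K) K a / algebraMap (𝓞 K) K b)).eval x := by
      rw [h5, eval_sub, eval_C, map_mul, map_mul]
      field_simp
    rw [h7, map_mul]
    refine lt_of_le_of_lt (mul_le_mul_left (w.valuation_le_one _) _) ?_
    rwa [one_mul]
  have h8 : w.valuation K (algebraMap (𝓞 K) K b * (aeval x g - aeval (algebraMap (𝓞 K) K y) g)) < 1 := by
    rw [map_mul]
    exact lt_of_le_of_lt (mul_le_mul_left (w.valuation_le_one _) _) (by rwa [one_mul])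
  have h9 : w.valuation K (algebraMap (𝓞 K) K (b * g.eval y - c * a)) < 1 := by
    have h10 : algebraMap (𝓞 K) K (b * g.eval y - c * a) =
        (algebraMap (𝓞 K) K b * aeval x g - algebraMap (𝓞 K) K (c * a)) -
          algebraMap (𝓞 K) K b * (aeval x g - aeval (algebraMap (𝓞 K) K y) g) := by
      rw [aeval_algebraMap_apply_eq_algebraMap_eval, map_sub, map_mul]
      ring
    rw [h10]
    exact Valuation.map_sub_lt _ h6 h8
  have h11 : b * g.eval y - c * a ∈ w.asIdeal := (HeightOneSpectrum.valuation_lt_one_iff_mem (K := K) w _).1 h9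
  rw [← hφ, RingHom.mem_ker, map_sub, map_mul, map_mul, sub_eq_zero] at h11
  apply hval (φ y)
  rw [eval_map, eval₂_at_apply]
  exact h11

end Pool.Agent.ORB
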