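import Mathlib

/-!
MP_7b3af4_nt (primes avoiding orbit collisions): all definitions used in the statements of the hand-ins.
A point of `ℙ¹(L)` is an element of `OnePoint L = L ∪ {∞}`.
-/

namespace Pool.Agent.ORB.Spec

open NumberField IsDedekindDomain Polynomial

universe u

/-! ### the problem -/

/-- the degree of a rational function -/
noncomputable def rdeg {F : Type*} [Field F] (f : RatFunc F) : ℕ := max f.num.natDegree f.denom.natDegree

open Classical in
/-- action of a rational function `f ∈ K(x)` on `ℙ¹(L) = L ∪ {∞}`, through `φ : K → L`: a point `a ∈ L` goes to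
`num(a) / denom(a)`, or to `∞` if `denom(a) = 0`; and `∞` goes to the quotient of the coefficients of `x^(deg f)`
in numerator and denominator, or to `∞` if the second one is zero -/
noncomputable def ract {K L : Type*} [Field K] [Field L] (φ : K →+* L) (f : RatFunc K) (x : OnePoint L) :
    OnePoint L :=
  OnePoint.elim x
    (if φ (f.denom.coeff (rdeg f)) = 0 then OnePoint.infty
      else ((φ (f.num.coeff (rdeg f)) / φ (f.denom.coeff (rdeg f)) : L) : OnePoint L))
    (fun a => if f.denom.eval₂ φ a = 0 then OnePoint.infty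
      else ((f.num.eval₂ φ a / f.denom.eval₂ φ a : L) : OnePoint L))

/-- the point `x` of `ℙ¹(K)` reduces to `∞` modulo `v` -/
def RedInfty {K : Type*} [Field K] [NumberField K] (v : HeightOneSpectrum (𝓞 K)) (x : OnePoint K) : Prop :=
  ∀ a : K, x = (a : OnePoint K) → 1 < v.valuation K a

/-- `x` and `y` have the same reduction modulo `v` -/
def SameRed {K : Type*} [Field K] [NumberField K] (v : HeightOneSpectrum (𝓞 K)) (x y : OnePoint K) : Prop :=
  (RedInfty v x ∧ RedInfty v y) ∨
    ∃ a b : K, x = (a : OnePoint K) ∧ y = (b : OnePoint K) ∧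
      v.valuation K a ≤ 1 ∧ v.valuation K b ≤ 1 ∧ v.valuation K (a - b) < 1

/-- the set of the primes `v` such that `f_i^n(α_i)` and `β_i` have different reductions for all `i`, `n` -/
def AvoidSet {K : Type*} [Field K] [NumberField K] {ι : Type*} (f : ι → RatFunc K) (α β : ι → OnePoint K) :
    Set (HeightOneSpectrum (𝓞 K)) :=
  {v | ∀ i, ∀ n : ℕ, ¬ SameRed v ((ract (RingHom.id K) (f i))^[n] (α i)) (β i)}

/-- positive lower natural density -/
def PosDensity {K : Type*} [Field K] [NumberField K] (S : Set (HeightOneSpectrum (𝓞 K))) : Prop :=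
  ∃ c : ℝ, 0 < c ∧ ∃ x0 : ℕ, ∀ x : ℕ, x0 ≤ x →
    c * ({v : HeightOneSpectrum (𝓞 K) | Ideal.absNorm v.asIdeal ≤ x}.ncard : ℝ) ≤
      ({v : HeightOneSpectrum (𝓞 K) | v ∈ S ∧ Ideal.absNorm v.asIdeal ≤ x}.ncard : ℝ)

/-- the forward orbit of `x` under `f` is finite -/
def Preper {K : Type*} [Field K] (f : RatFunc K) (x : OnePoint K) : Prop :=
  ¬ Function.Injective fun n : ℕ => (ract (RingHom.id K) f)^[n] x

/-! ### kind (Q): unicritical maps -/

/-- the map `x ↦ x ^ d + c` -/
def uni {F : Type*} [Field F] (d : ℕ) (c : F) (x : F) : F := x ^ d + c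

/-- a prime `v` with: `v ∣ d` and `c` is integral at `v`; or `c` is integral at `v` and `b` is not; or `v` divides
`c` and `b` -/
def LocCond (L : Type*) [Field L] [NumberField L] (d : ℕ) (c b : L) : Prop :=
  ∃ v : HeightOneSpectrum (𝓞 L), (v.valuation L (d : L) < 1 ∧ v.valuation L c ≤ 1) ∨
    (v.valuation L c ≤ 1 ∧ 1 < v.valuation L b) ∨ (v.valuation L c < 1 ∧ v.valuation L b < 1)

/-- the last two cases, with a prime `v` which does not divide `d` -/
def TameCond (L : Type*) [Field L] [NumberField L] (d : ℕ) (c b : L) : Prop :=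
  ∃ v : HeightOneSpectrum (𝓞 L), v.valuation L (d : L) = 1 ∧
    ((v.valuation L c ≤ 1 ∧ 1 < v.valuation L b) ∨ (v.valuation L c < 1 ∧ v.valuation L b < 1))

/-- the condition on `x ^ d + c` and the target `b`: `c ≠ 0`, `(d, c) ≠ (2, -2)`, and `d` is prime and `LocCond`, or
`TameCond`; or `d` is a prime power, the orbit of `0` is infinite, and `LocCond` -/
def UniCond (L : Type*) [Field L] [NumberField L] (d : ℕ) (c b : L) : Prop :=
  (c ≠ 0 ∧ (d = 2 → c ≠ -2) ∧ ((d.Prime ∧ LocCond L d c b) ∨ (2 ≤ d ∧ TameCond L d c b))) ∨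
    (IsPrimePow d ∧ (Function.Injective fun n : ℕ => (uni d c)^[n] 0) ∧ LocCond L d c b)

/-- over a finite extension `K1` of `K` the map `f` is conjugate by a linear fractional map `μ` to an iterate of
`x ^ d + c`, and the pair `(c, b)` satisfies `UniCond`, where `b` is the point which corresponds to `β` -/
def Unicritical {K : Type u} [Field K] [NumberField K] (f : RatFunc K) (β : OnePoint K) : Prop :=
  ∃ (K1 : Type u) (_ : Field K1) (_ : NumberField K1) (_ : Algebra K K1) (d : ℕ) (c : K1) (k : ℕ)
    (μ : RatFunc K1) (b : K1), 1 ≤ d ∧ 1 ≤ k ∧ rdeg μ = 1 ∧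
    (∀ x : OnePoint K1, ract (algebraMap K K1) f (ract (RingHom.id K1) μ x) =
      ract (RingHom.id K1) μ ((ract (RingHom.id K1) (RatFunc.X ^ d + RatFunc.C c))^[k] x)) ∧
    ract (RingHom.id K1) μ (b : OnePoint K1) = OnePoint.map (algebraMap K K1) β ∧ UniCond K1 d c b

/-! ### kind (A): targets which are exceptional modulo a prime -/

/-- `f` has good reduction at `w`: for some constant `c` the polynomials `c * num` and `c * denom` have
`w`-integral coefficients and no common zero on the projective line over the residue field -/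
def GoodRed {K K2 : Type*} [Field K] [Field K2] [NumberField K2] (φ : K →+* K2)
    (w : HeightOneSpectrum (𝓞 K2)) (f : RatFunc K) : Prop :=
  ∃ c : K2, c ≠ 0 ∧ (∀ j, w.valuation K2 (c * φ (f.num.coeff j)) ≤ 1) ∧
    (∀ j, w.valuation K2 (c * φ (f.denom.coeff j)) ≤ 1) ∧
    (∃ U V : K2[X], (∀ j, w.valuation K2 (U.coeff j) ≤ 1) ∧ (∀ j, w.valuation K2 (V.coeff j) ≤ 1) ∧
      U * (C c * f.num.map φ) + V * (C c * f.denom.map φ) = 1) ∧
    (w.valuation K2 (c * φ (f.num.coeff (rdeg f))) = 1 ∨
      w.valuation K2 (c * φ (f.denom.coeff (rdeg f))) = 1)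

/-- `f` has good reduction at `v`, and `1, ..., deg f` are units at `v` -/
def GoodTame {K : Type*} [Field K] [NumberField K] (v : HeightOneSpectrum (𝓞 K)) (f : RatFunc K) : Prop :=
  GoodRed (RingHom.id K) v f ∧ ∀ n : ℕ, 1 ≤ n → n ≤ rdeg f → v.valuation K (n : K) = 1

/-- `β` is exceptional for `f` modulo `v`: modulo `v`, the map `f ∘ f` takes the value `β` only at `β`. This is
expressed with points over the finite extensions `L` of `K` and the primes `w` of `L` above `v`. -/
def ExcMod {K : Type u} [Field K] [NumberField K] (v : HeightOneSpectrum (𝓞 K)) (f : RatFunc K) (β : OnePoint K) :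
    Prop :=
  ∀ (L : Type u) [Field L] [NumberField L] [Algebra K L] (w : HeightOneSpectrum (𝓞 L))
    [w.asIdeal.LiesOver v.asIdeal] (x : OnePoint L),
    SameRed w (ract (algebraMap K L) f (ract (algebraMap K L) f x)) (OnePoint.map (algebraMap K L) β) →
      SameRed w x (OnePoint.map (algebraMap K L) β)

/-! ### kind (B): blocks with coprime exponents -/

/-- composition of rational functions -/
noncomputable def rcomp {K : Type*} [Field K] (g h : RatFunc K) : RatFunc K :=
  aeval h g.num / aeval h g.denom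

/-- `HasExp E f`: `f` is a composition of rational functions `g` such that all primes `≤ deg g` divide `E`,
of power maps `x^d` such that all primes dividing `d` divide `E`, and of Chebyshev maps `T_d`
(`T_d(x + 1/x) = x^d + 1/x^d`) such that all primes dividing `2 d` divide `E` -/
inductive HasExp {K : Type*} [Field K] (E : ℕ) : RatFunc K → Prop
  | small (g : RatFunc K) (h : ∀ p : ℕ, p.Prime → p ≤ rdeg g → p ∣ E) : HasExp E g
  | power (d : ℕ) (h : ∀ p : ℕ, p.Prime → p ∣ d → p ∣ E) : HasExp E (RatFunc.X ^ d)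
  | cheb (d : ℕ) (h2 : 2 ∣ E) (h : ∀ p : ℕ, p.Prime → p ∣ d → p ∣ E) :
      HasExp E (algebraMap K[X] (RatFunc K) (dickson 1 (1 : K) d))
  | comp (g h : RatFunc K) (hg : HasExp E g) (hh : HasExp E h) : HasExp E (rcomp g h)

/-- over one number field `K1` the maps `f i` with wandering `β i` are conjugate to iterates of one map `h`, and
these `β i` correspond to points in one grand orbit of `h` -/
def OrbitBlock {K : Type u} [Field K] [NumberField K] {I : Type} (f : I → RatFunc K)
    (β : I → OnePoint K) : Prop :=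
  ∃ (K1 : Type u) (_ : Field K1) (_ : NumberField K1) (_ : Algebra K K1) (h : RatFunc K1)
    (c : OnePoint K1), 2 ≤ rdeg h ∧
    ∀ i, Function.Injective (fun n : ℕ => (ract (RingHom.id K) (f i))^[n] (β i)) →
      ∃ (μ : RatFunc K1) (b : OnePoint K1) (k : ℕ), rdeg μ = 1 ∧ 1 ≤ k ∧
        (∀ x : OnePoint K1, ract (algebraMap K K1) (f i) (ract (RingHom.id K1) μ x) =
          ract (RingHom.id K1) μ ((ract (RingHom.id K1) h)^[k] x)) ∧
        ract (RingHom.id K1) μ b = OnePoint.map (algebraMap K K1) (β i) ∧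
        ∃ m n : ℕ, (ract (RingHom.id K1) h)^[m] b = (ract (RingHom.id K1) h)^[n] c

/-- there is a prime `w` of some finite extension of `K` such that the maps `f i` with wandering `β i` have good
reduction at `w` and these `β i` are not periodic modulo `w` -/
def PrimeBlock {K : Type u} [Field K] [NumberField K] {I : Type} (f : I → RatFunc K)
    (β : I → OnePoint K) : Prop :=
  ∃ (K2 : Type u) (_ : Field K2) (_ : NumberField K2) (_ : Algebra K K2) (w : HeightOneSpectrum (𝓞 K2)),
    ∀ i, Function.Injective (fun n : ℕ => (ract (RingHom.id K) (f i))^[n] (β i)) →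
      GoodRed (algebraMap K K2) w (f i) ∧
        ∀ m, 1 ≤ m → ¬ SameRed w
          ((ract (algebraMap K K2) (f i))^[m] (OnePoint.map (algebraMap K K2) (β i)))
          (OnePoint.map (algebraMap K K2) (β i))

/-- `f` is conjugate over `Ka` to `x ^ d`, `x ^ (-d)`, `T_d` or `-T_d` for some `d ≥ 2`, where `T_d` is the
polynomial with `T_d (x + 1 / x) = x ^ d + 1 / x ^ d` -/
def TorusMap {K Ka : Type*} [Field K] [Field Ka] (φ : K →+* Ka) (f : RatFunc K) : Prop :=
  ∃ (d : ℕ) (μ t : RatFunc Ka), 2 ≤ d ∧ rdeg μ = 1 ∧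
    (t = RatFunc.X ^ d ∨ t = (RatFunc.X ^ d)⁻¹ ∨ t = algebraMap Ka[X] (RatFunc Ka) (dickson 1 1 d) ∨
      t = algebraMap Ka[X] (RatFunc Ka) (-dickson 1 1 d)) ∧
    ∀ x : OnePoint Ka, ract φ f (ract (RingHom.id Ka) μ x) =
      ract (RingHom.id Ka) μ (ract (RingHom.id Ka) t x)

end Pool.Agent.ORB.Spec
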