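import Pool.Agent.ORB.Spec

/-!
MP_7b3af4_nt: definitions for the theorems on almost all targets.
-/

namespace Pool.Agent.ORB.Spec

open NumberField IsDedekindDomain Polynomial

universe u

/-- for the maps `f i` and the targets `β i` the answer to the question is yes, for all starting points -/
def GoodTargets {K : Type u} [Field K] [NumberField K] {ι : Type*} (f : ι → RatFunc K) (β : ι → OnePoint K) :
    Prop :=
  ∀ α : ι → OnePoint K, (∀ i n, (ract (RingHom.id K) (f i))^[n] (α i) ≠ β i) → PosDensity (AvoidSet f α β)

/-- for the indices `i` such that `β i` is not preperiodic, the answer to the question is yes with the starting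
points `f i (β i)` -/
def Solved {K : Type u} [Field K] [NumberField K] {ι : Type*} (f : ι → RatFunc K) (β : ι → OnePoint K) : Prop :=
  PosDensity (AvoidSet (fun i : {i // ¬ Preper (f i) (β i)} => f i.1)
    (fun i => ract (RingHom.id K) (f i.1) (β i.1)) (fun i => β i.1))

/-- the tuples of elements of `K` with multiplicative height at most `X` -/
def HeightBox (κ : Type) (K : Type u) [Field K] [NumberField K] (X : ℝ) : Set (κ → K) :=
  {c | ∀ k, Height.mulHeight₁ (c k) ≤ X}

/-- the tuples of integers of `K` all of whose conjugates have absolute value at most `X` -/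
def ConjBox (κ : Type) (K : Type u) [Field K] [NumberField K] (X : ℝ) : Set (κ → 𝓞 K) :=
  {b | ∀ k, ∀ σ : K →+* ℂ, ‖σ (b k : K)‖ ≤ X}

end Pool.Agent.ORB.Spec
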