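import Pool.Agent.ORB.SpecGBridge

/-!
ORB: the indices of kinds (Q) and (A) are free. If the answer is yes for the other indices, with starting points
`f_i (β_i)`, it is yes for the whole tuple, for all starting points.
-/

namespace Pool.Agent.ORB.Spec

open NumberField IsDedekindDomain Polynomial Pool.Agent.ORB.GP

universe u

theorem goodRed_of_good {K : Type u} [Field K] [NumberField K] {v : HeightOneSpectrum (𝓞 K)} {f : RatFunc K}
    (h : (RP.ofRat f).Good (v.valuation K)) : GoodRed (algebraMap K K) v f := by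
  obtain ⟨h1, h2, ⟨U, V, hU, hV, hUV⟩, h3⟩ := h
  have hid : ∀ p : K[X], p.map (algebraMap K K) = p := fun p => Polynomial.map_id
  refine ⟨1, one_ne_zero, fun j => ?_, fun j => ?_, ⟨U, V, hU, hV, ?_⟩, ?_⟩
  · rw [one_mul]
    exact h1 j
  · rw [one_mul]
    exact h2 j
  · rw [hid, hid, C_1, one_mul, one_mul]
    exact hUV
  · rw [one_mul, one_mul]
    exact h3

theorem primeBlock_of_pos {K : Type u} [Field K] [NumberField K] {I : Type} [Finite I] (f : I → RatFunc K)
    (β : I → OnePoint K) (h : PosDensity (AvoidSet f (fun i => ract (RingHom.id K) (f i) (β i)) β)) :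
    PrimeBlock f β := by
  have hinf : (AvoidSet f (fun i => ract (RingHom.id K) (f i) (β i)) β).Infinite :=
    Pool.Agent.ORB.PosDensity.infinite h
  have hfin : (⋃ i, {v : HeightOneSpectrum (𝓞 K) | ¬ (RP.ofRat (f i)).Good (v.valuation K)}).Finite :=
    Set.finite_iUnion (fun i => RP.finite_not_good _)
  obtain ⟨v, hv1, hv2⟩ := (hinf.sdiff hfin).nonempty
  refine ⟨K, inferInstance, inferInstance, inferInstance, v, fun i _ => ⟨goodRed_of_good ?_, fun m hm => ?_⟩⟩
  · by_contra hcon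
    exact hv2 (Set.mem_iUnion.2 ⟨i, hcon⟩)
  · have hid : ∀ x : OnePoint K, OnePoint.map (algebraMap K K) x = x := fun x => by
      induction x using OnePoint.rec with
      | infty => rfl
      | coe a => rfl
    rw [hid]
    obtain ⟨n, rfl⟩ : ∃ n, m = n + 1 := ⟨m - 1, by omega⟩
    rw [Function.iterate_succ_apply]
    exact hv1 i n

theorem reduction_of {K : Type u} [Field K] [NumberField K] (R : Rows K)
    {ι : Type} [Finite ι] (f : ι → RatFunc K) (hf : ∀ i, 2 ≤ rdeg (f i)) (α β : ι → OnePoint K)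
    (hαβ : ∀ i n, (ract (RingHom.id K) (f i))^[n] (α i) ≠ β i) (Q A : Set ι)
    (hQ : ∀ i ∈ Q, Preper (f i) (α i) ∨ Preper (f i) (β i) ∨ Unicritical (f i) (β i) ∨ StableConj (f i) (β i))
    (hA : ∀ i ∈ A, ∃ v : HeightOneSpectrum (𝓞 K), ExcMod v (f i) (β i) ∧ ∀ j, j ∉ Q → GoodTame v (f j))
    (hB : PosDensity (AvoidSet (fun i : {i // i ∉ Q ∧ i ∉ A} => f i.1)
      (fun i => ract (RingHom.id K) (f i.1) (β i.1)) (fun i => β i.1))) :
    PosDensity (AvoidSet f α β) :=
  free_indices_gen_of R f hf α β hαβ Q A hQ hA (J := PUnit) (fun _ => PUnit.unit) (fun _ => 0)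
    (fun j j' hj => absurd (Subsingleton.elim j j') hj)
    (fun i _ _ => HasExp.small _ (fun p _ _ => dvd_zero p))
    (fun j => Or.inr (Or.inl (Pool.Agent.ORB.PrimeBlock.comp (primeBlock_of_pos _ _ hB)
      (fun i : {i // (i ∉ Q ∧ i ∉ A) ∧ PUnit.unit = j} => (⟨i.1, i.2.1⟩ : {i // i ∉ Q ∧ i ∉ A})))))

end Pool.Agent.ORB.Spec
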