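import Pool.Agent.ORB.SpecAA
import Pool.Agent.ORB.SpecReduct
import Pool.Agent.ORB.AAFinal

/-!
ORB: the theorems on almost all targets in terms of the definitions of `Spec.lean` and `SpecAA.lean`.
-/

namespace Pool.Agent.ORB.Spec

open NumberField IsDedekindDomain Polynomial Pool.Agent.ORB.GP

universe u

theorem primeBlock_of_solved {K : Type u} [Field K] [NumberField K] {I : Type} [Finite I] {f : I → RatFunc K}
    {β : I → OnePoint K} (h : Solved f β) : PrimeBlock f β := by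
  obtain ⟨K2, i1, i2, i3, w, hw⟩ := primeBlock_of_pos (fun i : {i // ¬ Preper (f i) (β i)} => f i.1)
    (fun i => β i.1) h
  exact ⟨K2, i1, i2, i3, w, fun i hi => hw ⟨i, fun hp => hp hi⟩ hi⟩

section

variable {K : Type u} [Field K] [NumberField K]
    {ι : Type} [Finite ι] (f : ι → RatFunc K) (hf : ∀ i, 2 ≤ rdeg (f i)) (β : ι → OnePoint K)
    (hs : Solved f β) {κ : Type} [Fintype κ] (R : κ → RatFunc K) (hR : ∀ k, 2 ≤ rdeg (R k))

include hf hs hR

theorem almost_all_height :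
    (∀ X : ℝ, (HeightBox κ K X).Finite) ∧
    Filter.Tendsto (fun X : ℝ => ({c | c ∈ HeightBox κ K X ∧
        ¬ GoodTargets (Sum.elim f R) (Sum.elim β (fun k => (c k : OnePoint K)))}.ncard : ℝ) /
      ((HeightBox κ K X).ncard : ℝ)) Filter.atTop (nhds 0) := by
  refine ⟨fun X => Pool.Agent.ORB.finite_htBox κ X, ?_⟩
  exact Pool.Agent.ORB.AA.joint_height f hf β ∅ ∅ (fun i hi => absurd hi (Set.notMem_empty i))
    (fun i hi => absurd hi (Set.notMem_empty i)) (J := PUnit)
    (fun _ => PUnit.unit) (fun _ => 0) (fun j j' hj => absurd (Subsingleton.elim j j') hj)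
    (fun i _ _ => Pool.Agent.ORB.RHasExp.small _ (fun p _ _ => dvd_zero p))
    (fun j => Or.inr (Or.inl (Pool.Agent.ORB.PrimeBlock.comp (primeBlock_of_solved hs)
      (fun i : {i : ι // (i ∉ (∅ : Set ι) ∧ i ∉ (∅ : Set ι)) ∧ PUnit.unit = j} => i.1)))) R hR

theorem almost_all_conj (s : 𝓞 K) (hs0 : s ≠ 0) :
    (∀ X : ℝ, (ConjBox κ K X).Finite) ∧
    Filter.Tendsto (fun X : ℝ => ({b | b ∈ ConjBox κ K X ∧ ¬ GoodTargets (Sum.elim f R)
        (Sum.elim β (fun k => (((b k : K) / (s : K) : K) : OnePoint K)))}.ncard : ℝ) /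
      ((ConjBox κ K X).ncard : ℝ)) Filter.atTop (nhds 0) := by
  exact Pool.Agent.ORB.AA.joint_conj f hf β ∅ ∅ (fun i hi => absurd hi (Set.notMem_empty i))
    (fun i hi => absurd hi (Set.notMem_empty i)) (J := PUnit)
    (fun _ => PUnit.unit) (fun _ => 0) (fun j j' hj => absurd (Subsingleton.elim j j') hj)
    (fun i _ _ => Pool.Agent.ORB.RHasExp.small _ (fun p _ _ => dvd_zero p))
    (fun j => Or.inr (Or.inl (Pool.Agent.ORB.PrimeBlock.comp (primeBlock_of_solved hs)
      (fun i : {i : ι // (i ∉ (∅ : Set ι) ∧ i ∉ (∅ : Set ι)) ∧ PUnit.unit = j} => i.1)))) R hR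
    s hs0

end

end Pool.Agent.ORB.Spec
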