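import Pool.Agent.ORB.Spec
import Pool.Agent.ORB.NRFinalY

/-!
ORB: the main theorem in terms of the definitions of `Spec.lean`.
-/

namespace Pool.Agent.ORB.Spec

open NumberField IsDedekindDomain Polynomial

universe u

theorem HasExp.old {K : Type*} [Field K] {E : ℕ} {f : RatFunc K} (h : HasExp E f) : Pool.Agent.ORB.RHasExp E f := by
  induction h with
  | small g h => exact .small g h
  | power d h => exact .power d h
  | cheb d h2 h => exact .cheb d h2 h
  | comp g h _ _ hg hh => exact .comp g h hg hh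

theorem unicritical_old {K : Type u} [Field K] [NumberField K] {f : RatFunc K} {β : OnePoint K}
    (h : Unicritical f β) : Pool.Agent.ORB.UniConj (fun L _ _ d c b => Pool.Agent.ORB.UniCondY L d c b) f β := h

theorem free_indices {K : Type u} [Field K] [NumberField K] {ι J : Type} [Finite ι] [Finite J]
    (f : ι → RatFunc K) (hf : ∀ i, 2 ≤ rdeg (f i)) (α β : ι → OnePoint K)
    (hαβ : ∀ i n, (ract (RingHom.id K) (f i))^[n] (α i) ≠ β i) (Q A : Set ι)
    (hQ : ∀ i ∈ Q, Preper (f i) (α i) ∨ Preper (f i) (β i) ∨ Unicritical (f i) (β i))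
    (hA : ∀ i ∈ A, ∃ v : HeightOneSpectrum (𝓞 K), ExcMod v (f i) (β i) ∧ ∀ j, j ∉ Q → GoodTame v (f j))
    (blk : ι → J) (E : J → ℕ) (hE : ∀ j j', j ≠ j' → Nat.Coprime (E j) (E j'))
    (hexp : ∀ i, i ∉ Q → i ∉ A → HasExp (E (blk i)) (f i))
    (hblk : ∀ j, OrbitBlock (fun i : {i // (i ∉ Q ∧ i ∉ A) ∧ blk i = j} => f i.1)
        (fun i : {i // (i ∉ Q ∧ i ∉ A) ∧ blk i = j} => β i.1) ∨
      PrimeBlock (fun i : {i // (i ∉ Q ∧ i ∉ A) ∧ blk i = j} => f i.1)
        (fun i : {i // (i ∉ Q ∧ i ∉ A) ∧ blk i = j} => β i.1) ∨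
      ∀ i, i ∉ Q → i ∉ A → blk i = j → TorusMap (algebraMap K (AlgebraicClosure K)) (f i)) :
    PosDensity (AvoidSet f α β) :=
  Pool.Agent.ORB.thmBE_final f hf α β hαβ Q A hQ hA blk E hE (fun i h1 h2 => (hexp i h1 h2).old) hblk

/-- a target of a polynomial which is not integral at a prime of good reduction is exceptional modulo this prime -/
theorem exc_of_not_integral {K : Type u} [Field K] [NumberField K] {v : HeightOneSpectrum (𝓞 K)} (p : K[X])
    (hp : 1 ≤ p.natDegree) (hg : GoodRed (RingHom.id K) v (algebraMap K[X] (RatFunc K) p)) {b : K}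
    (hb : 1 < v.valuation K b) : ExcMod v (algebraMap K[X] (RatFunc K) p) (b : OnePoint K) := by
  have hd : Pool.Agent.ORB.rdeg (algebraMap K[X] (RatFunc K) p) = p.natDegree := by
    unfold Pool.Agent.ORB.rdeg
    rw [RatFunc.num_algebraMap, RatFunc.denom_algebraMap, natDegree_one]
    exact max_eq_left (Nat.zero_le _)
  refine Pool.Agent.ORB.ExcMod.of_totInv (e := OnePoint.infty) (by rw [hd]; exact hp) hg ?_ ?_
  · intro x
    have h0 : OnePoint.map (algebraMap K (AlgebraicClosure K)) OnePoint.infty = OnePoint.infty := rfl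
    rw [h0]
    induction x using OnePoint.rec with
    | infty =>
      refine iff_of_true ?_ rfl
      unfold Pool.Agent.ORB.ract
      rw [OnePoint.elim_infty, if_pos]
      rw [RatFunc.denom_algebraMap, hd, coeff_one, if_neg (by omega), map_zero]
    | coe a =>
      refine iff_of_false ?_ (OnePoint.coe_ne_infty a)
      unfold Pool.Agent.ORB.ract
      rw [OnePoint.elim_some, if_neg]
      · exact OnePoint.coe_ne_infty _
      · rw [RatFunc.denom_algebraMap, eval₂_one]
        exact one_ne_zero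
  · left
    refine ⟨?_, ?_⟩
    · intro a ha
      rw [OnePoint.coe_eq_coe.1 ha] at hb
      exact hb
    · intro a ha
      exact absurd ha.symm (OnePoint.coe_ne_infty a)

end Pool.Agent.ORB.Spec
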