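import Pool.Agent.ORB.Spec

/-!
MP_7b3af4_nt: definitions for the second class of maps in kind (Q), polynomials whose critical points are in general
position.
-/

namespace Pool.Agent.ORB.Spec

open NumberField IsDedekindDomain Polynomial

universe u

/-- the orbit of `z` under the polynomial `h` is infinite -/
def Wandering {L Ω : Type*} [Field L] [Field Ω] [Algebra L Ω] (h : L[X]) (z : Ω) : Prop :=
  Function.Injective fun n : ℕ => (fun x : Ω => aeval x h)^[n] z

/-- `c` is a simple zero of the derivative of `h` -/
def SimpleCrit {L Ω : Type*} [Field L] [Field Ω] [Algebra L Ω] (h : L[X]) (c : Ω) : Prop :=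
  aeval c (derivative h) = 0 ∧ aeval c (derivative (derivative h)) ≠ 0

/-- the condition on the critical points of `h` in `Ω` with infinite orbit: each of them is a simple zero of `h'` or a
zero of `h'` of even multiplicity, at least one of them is a simple zero, and different simple ones have different
images under `h` -/
def CritGeneral {L : Type*} [Field L] (h : L[X]) (Ω : Type*) [Field Ω] [Algebra L Ω] : Prop :=
  (∀ c : Ω, aeval c (derivative h) = 0 → Wandering h c →
    SimpleCrit h c ∨ Even (rootMultiplicity c ((derivative h).map (algebraMap L Ω)))) ∧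
  (∃ c : Ω, SimpleCrit h c ∧ Wandering h c) ∧
  ∀ c c' : Ω, SimpleCrit h c → SimpleCrit h c' → Wandering h c → Wandering h c' →
    aeval c h = aeval c' h → c = c'

/-- a stronger condition on the critical points of `h` in `Ω` with infinite orbit: each of them is a simple zero of `h'`
or a zero of `h'` of even multiplicity, at least one of them is a simple zero, different simple ones have different
second images `h (h c)`, and the image `h c` of a simple one is not a zero of `h'` -/
def CritGeneral2 {L : Type*} [Field L] (h : L[X]) (Ω : Type*) [Field Ω] [Algebra L Ω] : Prop :=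
  (∀ c : Ω, aeval c (derivative h) = 0 → Wandering h c →
    SimpleCrit h c ∨ Even (rootMultiplicity c ((derivative h).map (algebraMap L Ω)))) ∧
  (∃ c : Ω, SimpleCrit h c ∧ Wandering h c) ∧
  (∀ c c' : Ω, SimpleCrit h c → SimpleCrit h c' → Wandering h c → Wandering h c' →
    aeval (aeval c h) h = aeval (aeval c' h) h → c = c') ∧
  ∀ c : Ω, SimpleCrit h c → Wandering h c → aeval (aeval c h) (derivative h) ≠ 0

/-- the pair `(h, b)` is eventually stable: the number of the different monic irreducible factors of `h^n(x) - b` is
bounded -/
def EventuallyStable {L : Type*} [Field L] (h : L[X]) (b : L) : Prop :=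
  ∃ N : ℕ, ∀ (n : ℕ) (s : Finset L[X]), (∀ P ∈ s, P.Monic ∧ Irreducible P ∧ P ∣ h.comp^[n] X - C b) →
    s.card ≤ N

/-- a local condition at the prime `v`: `h` has `v`-integral coefficients and a unit as leading coefficient, and `b` is
not `v`-integral, or `b` is periodic modulo `v` and `h` is totally ramified modulo `v` at all points of the orbit of
`b` -/
def LocalAt {L : Type*} [Field L] [NumberField L] (v : HeightOneSpectrum (𝓞 L)) (h : L[X]) (b : L) : Prop :=
  (∀ i, v.valuation L (h.coeff i) ≤ 1) ∧ v.valuation L h.leadingCoeff = 1 ∧
    (1 < v.valuation L b ∨ ((∃ m, 1 ≤ m ∧ v.valuation L ((fun x => eval x h)^[m] b - b) < 1) ∧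
      ∀ n i, 0 < i → i < h.natDegree → v.valuation L ((taylor ((fun x => eval x h)^[n] b) h).coeff i) < 1))

/-- the local condition holds at some prime -/
def LocalStable {L : Type*} [Field L] [NumberField L] (h : L[X]) (b : L) : Prop :=
  ∃ v : HeightOneSpectrum (𝓞 L), LocalAt v h b

/-- `h` is of degree prime to 6 with critical points in general position, or `h = x ^ d + c` with a prime power `d`
and an infinite orbit of `0` -/
def GoodPoly {L : Type*} [Field L] (h : L[X]) (Ω : Type*) [Field Ω] [Algebra L Ω] : Prop :=
  (2 ≤ h.natDegree ∧ Nat.Coprime h.natDegree 6 ∧ CritGeneral h Ω) ∨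
    ∃ (d : ℕ) (c : L), h = X ^ d + C c ∧ IsPrimePow d ∧ Function.Injective fun n : ℕ => (uni d c)^[n] 0

/-- the degree of `h` is an odd prime `p`, and at a prime `v` above `p` the polynomial `h` is integral and congruent to
`a x ^ p + c`, with a unit `a` -/
def WildPoly {L : Type*} [Field L] [NumberField L] (h : L[X]) : Prop :=
  h.natDegree.Prime ∧ Odd h.natDegree ∧ ∃ v : HeightOneSpectrum (𝓞 L), v.valuation L (h.natDegree : L) < 1 ∧
    (∀ i, v.valuation L (h.coeff i) ≤ 1) ∧ v.valuation L h.leadingCoeff = 1 ∧
    ∀ i, 0 < i → i < h.natDegree → v.valuation L (h.coeff i) < 1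

/-- the conditions on the pair `(h, b)`: `GoodPoly`, and the pair is eventually stable or satisfies the local
condition at some prime; or the local condition holds at some prime at which the degree of `h` is a unit, and the
degree is odd and the critical points are in general position, or the stronger condition `CritGeneral2` on the critical
points holds; or `WildPoly`, and the critical points are in general position -/
def GoodPair {L : Type*} [Field L] [NumberField L] (h : L[X]) (b : L) : Prop :=
  (GoodPoly h (AlgebraicClosure L) ∧ (EventuallyStable h b ∨ LocalStable h b)) ∨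
  (2 ≤ h.natDegree ∧
    ((Odd h.natDegree ∧ CritGeneral h (AlgebraicClosure L)) ∨ CritGeneral2 h (AlgebraicClosure L)) ∧
    ∃ v : HeightOneSpectrum (𝓞 L), v.valuation L (h.natDegree : L) = 1 ∧ LocalAt v h b) ∨
  (WildPoly h ∧ CritGeneral h (AlgebraicClosure L))

/-- over a finite extension `K1` of `K` the map `f` is conjugate by a linear fractional map `μ` to an iterate of a
polynomial `h`, and `(h, b)` satisfies `GoodPair`, where `b` is the point which corresponds to `β` -/
def StableConj {K : Type u} [Field K] [NumberField K] (f : RatFunc K) (β : OnePoint K) : Prop :=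
  ∃ (K1 : Type u) (_ : Field K1) (_ : NumberField K1) (_ : Algebra K K1) (h : K1[X]) (k : ℕ)
    (μ : RatFunc K1) (b : K1), GoodPair h b ∧ 1 ≤ k ∧ rdeg μ = 1 ∧
    (∀ x : OnePoint K1, ract (algebraMap K K1) f (ract (RingHom.id K1) μ x) =
      ract (RingHom.id K1) μ ((ract (RingHom.id K1) (algebraMap K1[X] (RatFunc K1) h))^[k] x)) ∧
    ract (RingHom.id K1) μ (b : OnePoint K1) = OnePoint.map (algebraMap K K1) β

/-! ### kind (B): solved blocks -/

/-- the answer is yes for the `i` of the block with wandering `β i`, with the starting points `f_i (β_i)` -/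
def SolvedBlock {K : Type u} [Field K] [NumberField K] {I : Type} (f : I → RatFunc K)
    (β : I → OnePoint K) : Prop :=
  PosDensity (AvoidSet (fun i : {i // ¬ Preper (f i) (β i)} => f i.1)
    (fun i => ract (RingHom.id K) (f i.1) (β i.1)) (fun i => β i.1))

end Pool.Agent.ORB.Spec
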