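import Pool.Agent.ORB.UFinalY
import Pool.Agent.ORB.GOrb
import Pool.Agent.ORB.GLoc
import Pool.Agent.ORB.GHas

/-!
ORB, Theorem V for unicritical maps of prime power degree: the extension property from eventual stability.
-/

set_option autoImplicit false

namespace Pool.Agent.ORB

open NumberField IsDedekindDomain Polynomial NI GP

universe u

theorem ev_uni {K W : Type*} [Field K] [Field W] [Algebra K W] (d : ℕ) (c : K) :
    ev (Ω := W) (X ^ d + C c : K[X]) = uf d (algebraMap K W c) := by
  funext z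
  unfold ev uf
  rw [map_add, map_pow, aeval_X, aeval_C]

/-- the extension property from eventual stability, for prime power degree and infinite critical orbit -/
theorem extP_evst {K W : Type u} [Field K] [NumberField K] [Field W] [Algebra K W]
    [IsAlgClosed W] [Algebra.IsAlgebraic K W] {p r : ℕ} (hp : p.Prime) (hr : 0 < r) {ζ c b : K}
    (hζ : IsPrimitiveRoot ζ (p ^ r)) (h0 : Function.Injective fun n : ℕ => (uf (p ^ r) c)^[n] 0)
    (hw : Function.Injective fun n : ℕ => (uf (p ^ r) c)^[n] b)
    (hst : EvStable (X ^ (p ^ r) + C c : K[X]) b) : UQ.ExtP (p ^ r) W c b := by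
  have hpr : p ^ r ≠ 0 := pow_ne_zero _ hp.ne_zero
  obtain ⟨k₀, hk₀⟩ := exists_tran (W := W) (X ^ (p ^ r) + C c : K[X])
    (by rw [natDegree_X_pow_add_C]; exact Nat.one_le_iff_ne_zero.2 hpr) b hst
  refine UQ.ExtP_of_engine hpr hζ
      (fun _ _ _ _ _ _ _ _ hζ' h0' hw' hb' hT' => UE.engine hp hr hζ' h0' hw' hb' hT') h0 hw (k₀ := k₀) ?_
  intro l y hy y' _ hyy
  refine hk₀ l y ?_ y' ?_
  · show (ev _)^[k₀ + l] y = _
    rw [ev_uni]
    exact hy
  · rw [ev_uni]
    exact hyy

/-- prime power degree, infinite orbit of `0`, eventually stable -/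
def UniCondZ (L : Type u) [Field L] [NumberField L] (d : ℕ) (c b : L) : Prop :=
  IsPrimePow d ∧ CritWand d c ∧ EvStable (X ^ d + C c : L[X]) b

theorem uniCondZ_good
    (HX : ∀ (L L' : Type u) [Field L] [CharZero L] [Field L'] [Algebra L L'] [FiniteDimensional L L']
      (h : L[X]) (_ : 1 ≤ h.natDegree) (b : L) (_ : EvStable h b),
      EvStable (h.map (algebraMap L L')) (algebraMap L L' b)) :
    GoodCond.{u} (fun L _ _ d c b => UniCondZ L d c b) := by
  refine ⟨?_, ?_⟩
  · intro L L' _ _ _ _ _ d c b ⟨h1, h2, h3⟩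
    refine ⟨h1, critWand_ext _ h2, ?_⟩
    have hfd : FiniteDimensional L L' := Module.Finite.of_restrictScalars_finite ℚ L L'
    have h4 := HX L L' (X ^ d + C c) (by
      rw [natDegree_X_pow_add_C]
      exact h1.one_lt.le) b h3
    rwa [Polynomial.map_add, Polynomial.map_pow, map_X, map_C] at h4
  · intro L W _ _ _ _ _ _ d ζ c b hd1 hζ hw h
    obtain ⟨hd, h0, hst⟩ := h
    obtain ⟨p, r, hp, hr, rfl⟩ := hd
    exact extP_evst hp.nat_prime hr hζ h0 hw hst

/-- the point which corresponds to a wandering point is wandering -/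
theorem wand_of_conj {K K1 : Type*} [Field K] [Field K1] [Algebra K K1] {f : RatFunc K} {β : OnePoint K}
    (hβ : Function.Injective fun n : ℕ => (ract (RingHom.id K) f)^[n] β) {g : RatFunc K1} {k : ℕ} (hk : 1 ≤ k)
    {μ : RatFunc K1} {b : OnePoint K1}
    (hconj : ∀ x : OnePoint K1, ract (algebraMap K K1) f (ract (RingHom.id K1) μ x) =
      ract (RingHom.id K1) μ ((ract (RingHom.id K1) g)^[k] x))
    (hb : ract (RingHom.id K1) μ b = OnePoint.map (algebraMap K K1) β) :
    Function.Injective fun n : ℕ => (ract (RingHom.id K1) g)^[n] b := by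
  have hc1 : ∀ x : OnePoint K1, ((RP.ofRat f).map (algebraMap K K1)).act ((RP.ofRat μ).act x) =
      (RP.ofRat μ).act ((ract (RingHom.id K1) g)^[k] x) := by
    intro x
    have h1 := hconj x
    rw [ract_fun_eq, ract_id μ] at h1
    exact h1
  have hb1 : (RP.ofRat μ).act b = pmap (algebraMap K K1) β := by
    rw [← ract_id]
    exact hb
  by_contra hno
  have h1 := iter_pre _ _ hk hno
  apply h1
  intro m n hmn
  apply hβ
  rw [ract_id]
  apply pmap_injective (algebraMap K K1)
  simp only at hmn ⊢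
  rw [← RP.act_map_iterate, ← RP.act_map_iterate, ← hb1, semiconj_iterate _ _ _ hc1,
    semiconj_iterate _ _ _ hc1, hmn]

end Pool.Agent.ORB
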