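import Pool.Agent.ORB.YDefs
import Pool.Agent.ORB.NVal
import Pool.Agent.ORB.NRes
import Pool.Agent.ORB.NLevel

/-!
ORB, Theorem W / V5, row X2: the maximal unramified extension.
-/

set_option autoImplicit false

namespace Pool.Agent.ORB.WP

open Polynomial NI GP IntermediateField

variable {F Ω : Type*} [Field F] [Field Ω] [Algebra F Ω] [CharZero F] [IsAlgClosed Ω] [Algebra.IsAlgebraic F Ω]

/-- **X2** (the maximal unramified extension) -/
theorem exists_sloc (D : LocAbs F Ω) :
    ∃ S : SLoc (adjoin F (muS D) : IntermediateField F Ω) Ω, S.N = D.N := by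
  have hsub : muS D ⊆ (adjoin F (muS D) : IntermediateField F Ω) := subset_adjoin F _
  have hle : (adjoin F (muS D) : IntermediateField F Ω) ≤ MF D (algebraMap F Ω D.π) :=
    adjoin.mono F _ _ (Set.subset_insert _ _)
  refine ⟨{  N := D.N
             nonarch := D.nonarch
             inv := fun g x => D.inv (g.restrictScalars F) x
             π := algebraMap F _ D.π
             π_ne := (_root_.map_ne_zero _).2 D.π_ne
             π_lt := D.π_lt
             disc := fun x hx => ?_
             res := fun x hx => ?_ }, rfl⟩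
  · exact value_MF D le_rfl (pow_one _) (hle x.2) (fun h => hx (Subtype.ext h))
  · obtain ⟨ζ, hζ, h⟩ := exists_mu D x hx
    exact ⟨⟨ζ, hsub hζ⟩, h⟩

end Pool.Agent.ORB.WP
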