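import Pool.Agent.ORB.YUnif

/-!
ORB, Theorem W, row Y11: the base field.
-/

set_option autoImplicit false

namespace Pool.Agent.ORB.WP

open Polynomial NI GP NumberField IsDedekindDomain IntermediateField

/-- **Y11** (the base field), with X2 for `D` as hypothesis -/
theorem exists_base_of {F Ω : Type*} [Field F] [Field Ω] [Algebra F Ω] [CharZero F] [IsAlgClosed Ω]
    [Algebra.IsAlgebraic F Ω] (D : LocAbs F Ω)
    (HX : ∃ S : SLoc (adjoin F (muS D) : IntermediateField F Ω) Ω, S.N = D.N) (T : Set Ω) (hT : T.Finite) :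
    ∃ (U : IntermediateField F Ω) (S : SLoc U Ω), T ⊆ U ∧ S.N = D.N := by
  generalize adjoin F (muS D) = U₀ at HX
  obtain ⟨S₀, hS₀⟩ := HX
  have i1 : CharZero U₀ := charZero_of_injective_algebraMap (algebraMap F U₀).injective
  have i2 : Algebra.IsAlgebraic U₀ Ω := Algebra.IsAlgebraic.tower_top (K := F) U₀
  set E : IntermediateField U₀ Ω := adjoin U₀ T with hE
  have i3 : FiniteDimensional U₀ E := by
    have := hT.to_subtype
    exact finiteDimensional_adjoin fun x _ => Algebra.IsIntegral.isIntegral x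
  obtain ⟨ϖ, hϖ⟩ := exists_unif S₀ E
  set U : IntermediateField F Ω := E.restrictScalars F with hU
  have hUmem : ∀ x : Ω, x ∈ U ↔ x ∈ E := fun x => Iff.rfl
  refine ⟨U, ⟨S₀.N, S₀.nonarch, fun g x => ?_, ⟨ϖ, (hUmem ϖ).2 hϖ.mem⟩, fun h => ?_, hϖ.lt, fun x hx => ?_,
    fun x hx => ?_⟩, ?_, hS₀⟩
  · rw [hS₀]
    exact D.inv (g.restrictScalars F) x
  · exact hϖ.ne (congrArg Subtype.val h)
  · exact hϖ.gen x.1 x.2 fun h => hx (Subtype.ext h)
  · obtain ⟨u, hu⟩ := S₀.res x hx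
    exact ⟨⟨algebraMap U₀ Ω u, E.algebraMap_mem u⟩, hu⟩
  · intro t ht
    exact (hUmem t).2 (subset_adjoin U₀ T ht)

end Pool.Agent.ORB.WP
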