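import Mathlib

/-!
ORB, Theorem V3, rows T1a and T1b: numbers of fixed points in cosets of finite permutation groups.
-/

set_option autoImplicit false

namespace Pool.Agent.ORB.GP

open Finset

section fin
variable {G Y : Type*} [Group G] [MulAction G Y] [Fintype G] [Fintype Y]

open scoped Classical in
/-- the elements of the subgroup -/
noncomputable def elts (H : Subgroup G) : Finset G := univ.filter fun u => u ∈ H

open scoped Classical in
/-- the number of `u` in `H` with `u z = s⁻¹ z` -/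
noncomputable def NN (H : Subgroup G) (s : G) (z : Y) : ℕ := #((elts H).filter fun u => u • z = s⁻¹ • z)

open scoped Classical in
/-- the number of fixed points -/
noncomputable def fx (Y : Type*) [MulAction G Y] [Fintype Y] (g : G) : ℕ :=
  #((univ : Finset Y).filter fun z => g • z = z)

omit [MulAction G Y] [Fintype Y] in
theorem mem_elts {H : Subgroup G} {u : G} : u ∈ elts H ↔ u ∈ H := by
  classical
  unfold elts; simp

theorem elts_pos (H : Subgroup G) : 0 < #(elts H) :=
  Finset.card_pos.2 ⟨1, mem_elts.2 H.one_mem⟩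

theorem sum_fx (H : Subgroup G) (s : G) : ∑ u ∈ elts H, fx Y (s * u) = ∑ z : Y, NN H s z := by
  classical
  unfold fx NN
  simp_rw [Finset.card_filter]
  rw [Finset.sum_comm]
  refine Finset.sum_congr rfl fun z _ => Finset.sum_congr rfl fun u _ => ?_
  have : ((s * u) • z = z) ↔ (u • z = s⁻¹ • z) := by
    rw [mul_smul]
    constructor
    · intro h; rw [eq_inv_smul_iff]; exact h
    · intro h; rw [eq_inv_smul_iff] at h; exact h
  simp only [this]

omit [Fintype Y] in
/-- **the counting lemma**: `H` transitive on `O` -/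
theorem sum_NN (H : Subgroup G) (s : G) (O : Finset Y) (z₀ : Y) (hz₀ : z₀ ∈ O)
    (hO : ∀ u ∈ H, ∀ z ∈ O, u • z ∈ O) (ht : ∀ z ∈ O, ∃ u ∈ H, u • z = z₀)
    (hs : ∀ z ∈ O, s⁻¹ • z ∈ O) : ∑ z ∈ O, NN H s z = #(elts H) := by
  classical
  have h1 : ∀ z ∈ O, NN H s z = #((elts H).filter fun u => u • z = z₀) := by
    intro z hz
    obtain ⟨w, hw, hwz⟩ := ht _ (hs z hz)
    unfold NN
    refine Finset.card_bij (fun u _ => w * u) ?_ ?_ ?_
    · intro u hu
      rw [Finset.mem_filter, mem_elts] at hu ⊢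
      exact ⟨H.mul_mem hw hu.1, by rw [mul_smul, hu.2, hwz]⟩
    · intro u _ u' _ h
      exact mul_left_cancel h
    · intro u hu
      rw [Finset.mem_filter, mem_elts] at hu
      refine ⟨w⁻¹ * u, ?_, by rw [mul_inv_cancel_left]⟩
      rw [Finset.mem_filter, mem_elts]
      exact ⟨H.mul_mem (H.inv_mem hw) hu.1, by rw [mul_smul, hu.2, ← hwz, inv_smul_smul]⟩
  rw [Finset.sum_congr rfl h1]
  simp_rw [Finset.card_filter]
  rw [Finset.sum_comm]
  have h2 : ∀ u ∈ elts H, ∑ z ∈ O, (if u • z = z₀ then 1 else 0) = 1 := by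
    intro u hu
    have hu' := mem_elts.1 hu
    have h3 : ∀ z ∈ O, (if u • z = z₀ then 1 else 0) = if z = u⁻¹ • z₀ then 1 else 0 := by
      intro z _
      have : (u • z = z₀) ↔ (z = u⁻¹ • z₀) := by rw [eq_inv_smul_iff]
      simp only [this]
    rw [Finset.sum_congr rfl h3, Finset.sum_ite_eq' O (u⁻¹ • z₀),
      if_pos (hO _ (H.inv_mem hu') _ hz₀)]
  rw [Finset.sum_congr rfl h2]; simp

omit [Fintype Y] in
theorem NN_eq_card (H : Subgroup G) (s : G) (z : Y) (hz : ∀ u ∈ H, u • z = z) (hs : s • z = z) :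
    NN H s z = #(elts H) := by
  classical
  unfold NN
  congr 1
  rw [Finset.filter_eq_self]
  intro u hu
  rw [hz u (mem_elts.1 hu), eq_inv_smul_iff, hs]

/-- the average -/
theorem sum_fx_eq {Y' : Type*} [MulAction G Y'] [Fintype Y'] (π : Y → Y')
    (hπ : ∀ (g : G) (z : Y), π (g • z) = g • π z) (hsurj : Function.Surjective π) (K : Subgroup G)
    (hK : ∀ u ∈ K, ∀ y : Y', u • y = y) (hKt : ∀ z z' : Y, π z = π z' → ∃ u ∈ K, u • z = z') (s : G) :
    ∑ u ∈ elts K, fx Y (s * u) = #(elts K) * fx Y' s := by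
  classical
  rw [sum_fx, ← Finset.sum_fiberwise univ π]
  have h1 : ∀ y : Y', ∑ z ∈ univ.filter (fun z => π z = y), NN K s z =
      if s • y = y then #(elts K) else 0 := by
    intro y
    split_ifs with hy
    · obtain ⟨z₀, hz₀⟩ := hsurj y
      apply sum_NN K s _ z₀ (by rw [Finset.mem_filter]; exact ⟨Finset.mem_univ _, hz₀⟩)
      · intro u hu z hz
        rw [Finset.mem_filter] at hz ⊢
        exact ⟨Finset.mem_univ _, by rw [hπ, hz.2, hK u hu]⟩
      · intro z hz
        rw [Finset.mem_filter] at hz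
        exact hKt z z₀ (hz.2.trans hz₀.symm)
      · intro z hz
        rw [Finset.mem_filter] at hz ⊢
        refine ⟨Finset.mem_univ _, ?_⟩
        rw [hπ, hz.2, inv_smul_eq_iff, hy]
    · apply Finset.sum_eq_zero
      intro z hz
      rw [Finset.mem_filter] at hz
      unfold NN
      rw [Finset.card_eq_zero, Finset.filter_eq_empty_iff]
      intro u hu h
      apply hy
      have h2 := congrArg π h
      rw [hπ, hπ, hz.2, hK u (mem_elts.1 hu), eq_inv_smul_iff] at h2
      exact h2
  rw [Finset.sum_congr rfl fun y _ => h1 y, ← Finset.sum_filter, Finset.sum_const, smul_eq_mul, mul_comm]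
  rfl

theorem exists_le_fin {Y' : Type*} [MulAction G Y'] [Fintype Y'] (π : Y → Y')
    (hπ : ∀ (g : G) (z : Y), π (g • z) = g • π z) (hsurj : Function.Surjective π) (K : Subgroup G)
    (hK : ∀ u ∈ K, ∀ y : Y', u • y = y) (hKt : ∀ z z' : Y, π z = π z' → ∃ u ∈ K, u • z = z') (s : G) :
    ∃ u ∈ K, fx Y (s * u) ≤ fx Y' s := by
  by_contra hno
  push Not at hno
  have h1 := sum_fx_eq π hπ hsurj K hK hKt s
  have h2 : ∑ u ∈ elts K, fx Y' s < ∑ u ∈ elts K, fx Y (s * u) :=
    Finset.sum_lt_sum_of_nonempty (Finset.card_pos.1 (elts_pos K)) fun u hu => hno u (mem_elts.1 hu)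
  rw [Finset.sum_const, smul_eq_mul, h1] at h2
  exact lt_irrefl _ h2

end fin

/-! ### classes of three points -/

/-- the hypotheses of T1b -/
structure Cfg3 {G Y : Type*} [Group G] [MulAction G Y] (S : Set G) (R : Y → Y → Prop) : Prop where
  conj : ∀ g : G, ∀ u ∈ S, g * u * g⁻¹ ∈ S
  eqv : Equivalence R
  inv : ∀ (g : G) (z z' : Y), R z z' → R (g • z) (g • z')
  pres : ∀ u ∈ S, ∀ z : Y, R z (u • z)
  two : ∀ u ∈ S, ∀ z z' : Y, R z z' → u • z ≠ z → u • z' ≠ z' → z' = z ∨ z' = u • z
  ex : ∀ z z' : Y, R z z' → z ≠ z' → ∃ u ∈ S, u • z = z'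
  three : ∀ z : Y, {z' : Y | R z z'}.ncard = 3

section three
variable {G Y : Type*} [Group G] [MulAction G Y] {S : Set G} {R : Y → Y → Prop}

theorem Cfg3.back (h : Cfg3 S R) {u : G} (hu : u ∈ S) {z : Y} (hz : u • z ≠ z) : u • (u • z) = z := by
  have h1 : R z (u • (u • z)) := h.eqv.trans (h.pres u hu z) (h.pres u hu _)
  have h2 : u • (u • (u • z)) ≠ u • (u • z) := by
    intro h3
    exact hz (MulAction.injective u (MulAction.injective u h3))
  rcases h.two u hu z (u • (u • z)) h1 hz h2 with h3 | h3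
  · exact h3
  · exact absurd (MulAction.injective u h3) hz

theorem Cfg3.cl_pres (h : Cfg3 S R) {c : G} (hc : c ∈ Subgroup.closure S) (z : Y) : R z (c • z) := by
  induction hc using Subgroup.closure_induction generalizing z with
  | mem x hx => exact h.pres x hx z
  | one => rw [one_smul]; exact h.eqv.refl z
  | mul x y _ _ hx hy =>
    rw [mul_smul]
    exact h.eqv.trans (hy z) (hx _)
  | inv x _ hx =>
    have h1 := hx (x⁻¹ • z)
    rw [smul_inv_smul] at h1
    exact h.eqv.symm h1

/-- the two other points of a class -/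
theorem Cfg3.points (h : Cfg3 S R) (z : Y) : ∃ a b : Y, a ≠ z ∧ b ≠ z ∧ a ≠ b ∧ R z a ∧ R z b ∧
    ∀ y, R z y → y = z ∨ y = a ∨ y = b := by
  obtain ⟨x1, x2, x3, h12, h13, h23, he⟩ := Set.ncard_eq_three.1 (h.three z)
  have hmem : ∀ y, R z y ↔ y = x1 ∨ y = x2 ∨ y = x3 := by
    intro y
    have : y ∈ {z' : Y | R z z'} ↔ y ∈ ({x1, x2, x3} : Set Y) := by rw [he]
    simpa using this
  have hz := (hmem z).1 (h.eqv.refl z)
  have r1 := (hmem x1).2 (Or.inl rfl)
  have r2 := (hmem x2).2 (Or.inr (Or.inl rfl))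
  have r3 := (hmem x3).2 (Or.inr (Or.inr rfl))
  rcases hz with rfl | rfl | rfl
  · exact ⟨x2, x3, h12.symm, h13.symm, h23, r2, r3, fun y hy => (hmem y).1 hy⟩
  · refine ⟨x1, x3, h12, h23.symm, h13, r1, r3, fun y hy => ?_⟩
    rcases (hmem y).1 hy with h1 | h1 | h1
    · exact Or.inr (Or.inl h1)
    · exact Or.inl h1
    · exact Or.inr (Or.inr h1)
  · refine ⟨x1, x2, h13, h23, h12, r1, r2, fun y hy => ?_⟩
    rcases (hmem y).1 hy with h1 | h1 | h1
    · exact Or.inr (Or.inl h1)
    · exact Or.inr (Or.inr h1)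
    · exact Or.inl h1

/-- an element of `S` which moves `a` to `b` fixes the third point -/
theorem Cfg3.fix_third (h : Cfg3 S R) {u : G} (hu : u ∈ S) {a b c : Y} (hab : u • a = b) (hne : a ≠ b)
    (hac : R a c) (hca : c ≠ a) (hcb : c ≠ b) : u • c = c := by
  by_contra hc
  rcases h.two u hu a c hac (by rw [hab]; exact hne.symm) hc with h1 | h1
  · exact hca h1
  · exact hcb (h1.trans hab)

/-- elements of the stabilizer of `z` in `C` which fix the class of `z` -/
def Fz (S : Set G) (R : Y → Y → Prop) (z : Y) (u : G) : Prop :=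
  u ∈ Subgroup.closure S ∧ ∀ y, R z y → u • y = y

/-- **Case B**: if the elements of `C` which are trivial on the class of `z` are trivial on the class of `x`, then an
element of `S` which swaps the two other points `a, b` of the class of `z` is not trivial on the class of `x` -/
theorem Cfg3.not_triv (h : Cfg3 S R) {z x a b : Y} (haz : a ≠ z) (hbz : b ≠ z) (hab : a ≠ b)
    (hra : R z a) (hrb : R z b) (hpt : ∀ y, R z y → y = z ∨ y = a ∨ y = b)
    (hB : ∀ u, Fz S R z u → ∀ p, R x p → u • p = p) {t : G} (ht : t ∈ S) (hta : t • a = b) :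
    ∃ p, R x p ∧ t • p ≠ p := by
  by_contra hno
  push Not at hno
  have htb : t • b = a := by
    have := h.back ht (z := a) (by rw [hta]; exact hab.symm)
    rwa [hta] at this
  have htz : t • z = z := h.fix_third ht hta hab (h.eqv.symm hra) haz.symm hbz.symm
  obtain ⟨q, _, hqx, _, _, hrq, _, _⟩ := h.points x
  obtain ⟨w, hw, hwx⟩ := h.ex x q hrq hqx.symm
  have hwC := Subgroup.subset_closure (k := S) hw
  have htC := Subgroup.subset_closure (k := S) ht
  have key : ∀ c1 c2 : Y, w • z = c1 → c1 ≠ z → c2 ≠ z → c1 ≠ c2 → R z c1 → R z c2 → t • c1 = c2 → t • c2 = c1 →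
      (∀ y, R z y → y = z ∨ y = c1 ∨ y = c2) → False := by
    intro c1 c2 hwz h1z h2z h12 hr1 hr2 ht1 ht2 hp
    have hw1 : w • c1 = z := by
      have := h.back hw (z := z) (by rw [hwz]; exact h1z)
      rwa [hwz] at this
    have hw2 : w • c2 = c2 := h.fix_third hw hwz h1z.symm hr2 h2z h12.symm
    have hF : Fz S R z ((t * w * t)⁻¹ * (w * t * w)) := by
      refine ⟨Subgroup.mul_mem _ (Subgroup.inv_mem _ (Subgroup.mul_mem _ (Subgroup.mul_mem _ htC hwC) htC))
        (Subgroup.mul_mem _ (Subgroup.mul_mem _ hwC htC) hwC), fun y hy => ?_⟩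
      rw [mul_smul, inv_smul_eq_iff]
      simp only [mul_smul]
      rcases hp y hy with rfl | rfl | rfl
      · rw [hwz, ht1, hw2, htz, hwz, ht1]
      · rw [hw1, htz, hwz, ht1, hw2, ht2]
      · rw [hw2, ht2, hw1, htz]
    have h1 := hB _ hF x (h.eqv.refl x)
    rw [mul_smul, inv_smul_eq_iff] at h1
    simp only [mul_smul] at h1
    rw [hwx, hno q hrq, hno x (h.eqv.refl x), hwx, hno q hrq] at h1
    -- `w q = q`
    have h2 : w • q = w • x := by rw [h1, hwx]
    exact hqx (MulAction.injective w h2)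
  by_cases hwz : w • z = z
  · by_cases hwa : w • a = a
    · have hwb : w • b = b := by
        rcases hpt (w • b) (h.eqv.trans hrb (h.pres w hw b)) with h1 | h1 | h1
        · exact absurd (MulAction.injective w (h1.trans hwz.symm)) hbz
        · exact absurd (MulAction.injective w (h1.trans hwa.symm)) hab.symm
        · exact h1
      have h1 := hB w ⟨hwC, fun y hy => by
        rcases hpt y hy with rfl | rfl | rfl
        · exact hwz
        · exact hwa
        · exact hwb⟩ x (h.eqv.refl x)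
      exact hqx (by rw [← hwx, h1])
    · have hwa' : w • a = b := by
        rcases hpt (w • a) (h.eqv.trans hra (h.pres w hw a)) with h1 | h1 | h1
        · exact absurd (MulAction.injective w (h1.trans hwz.symm)) haz
        · exact absurd h1 hwa
        · exact h1
      have hwb : w • b = a := by
        have := h.back hw hwa
        rwa [hwa'] at this
      have h1 := hB (t⁻¹ * w) ⟨Subgroup.mul_mem _ (Subgroup.inv_mem _ htC) hwC, fun y hy => by
        rw [mul_smul, inv_smul_eq_iff]
        rcases hpt y hy with rfl | rfl | rfl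
        · rw [hwz, htz]
        · rw [hwa', hta]
        · rw [hwb, htb]⟩ x (h.eqv.refl x)
      rw [mul_smul, inv_smul_eq_iff, hwx, hno x (h.eqv.refl x)] at h1
      exact hqx h1
  · rcases hpt (w • z) (h.pres w hw z) with h1 | h1 | h1
    · exact hwz h1
    · exact key a b h1 haz hbz hab hra hrb hta htb hpt
    · exact key b a h1 hbz haz hab.symm hrb hra htb hta fun y hy => by
        rcases hpt y hy with h2 | h2 | h2
        · exact Or.inl h2
        · exact Or.inr (Or.inr h2)
        · exact Or.inr (Or.inl h2)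

variable [Fintype G] [Fintype Y]

open scoped Classical in
/-- the class as a finite set -/
noncomputable def blk (R : Y → Y → Prop) (x : Y) : Finset Y := univ.filter fun y => R x y

omit [Group G] [MulAction G Y] [Fintype G] in
theorem mem_blk {R : Y → Y → Prop} {x y : Y} : y ∈ blk R x ↔ R x y := by
  classical
  unfold blk; simp

omit [Fintype G] in
theorem Cfg3.card_blk (h : Cfg3 S R) (x : Y) : #(blk R x) = 3 := by
  classical
  rw [← h.three x, ← Set.ncard_coe_finset]
  congr 1
  ext y
  rw [Finset.mem_coe, mem_blk]; rfl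

omit [Fintype G] in
theorem Cfg3.three_mul (h : Cfg3 S R) (f : Y → ℕ) : 3 * ∑ y, f y = ∑ x : Y, ∑ y ∈ blk R x, f y := by
  classical
  have h1 : ∀ x : Y, ∑ y ∈ blk R x, f y = ∑ y : Y, if R x y then f y else 0 := by
    intro x
    unfold blk
    rw [Finset.sum_filter]
  rw [Finset.sum_congr rfl fun x _ => h1 x, Finset.sum_comm, Finset.mul_sum]
  refine Finset.sum_congr rfl fun y _ => ?_
  rw [← h.card_blk y, Finset.card_eq_sum_ones, Finset.sum_mul]
  unfold blk
  rw [Finset.sum_filter]
  refine Finset.sum_congr rfl fun x _ => ?_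
  have : R x y ↔ R y x := ⟨h.eqv.symm, h.eqv.symm⟩
  simp only [this, one_mul]

/-- the stabilizer of `z` in the closure of `S` -/
def stC (S : Set G) (z : Y) : Subgroup G := Subgroup.closure S ⊓ MulAction.stabilizer G z

omit [Fintype G] [Fintype Y] in
theorem mem_stC {z : Y} {u : G} : u ∈ stC S z ↔ u ∈ Subgroup.closure S ∧ u • z = z := by
  unfold stC
  rw [Subgroup.mem_inf, MulAction.mem_stabilizer_iff]

/-- the block of a point `z` with `s z = z` -/
theorem Cfg3.sum_blk_self (h : Cfg3 S R) {s : G} {z : Y} (hs : s • z = z) {x : Y} (hx : R z x) :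
    ∑ y ∈ blk R x, NN (stC S z) s y = 2 * #(elts (stC S z)) := by
  classical
  obtain ⟨a, b, haz, hbz, hab, hra, hrb, hpt⟩ := h.points z
  have hbk : blk R x = blk R z := by
    ext y
    rw [mem_blk, mem_blk]
    exact ⟨fun h1 => h.eqv.trans hx h1, fun h1 => h.eqv.trans (h.eqv.symm hx) h1⟩
  have hz : z ∈ blk R z := mem_blk.2 (h.eqv.refl z)
  have hsi : s⁻¹ • z = z := by rw [inv_smul_eq_iff, hs]
  rw [hbk, ← Finset.add_sum_erase _ _ hz, NN_eq_card (stC S z) s z (fun u hu => (mem_stC.1 hu).2) hs,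
    sum_NN (stC S z) s ((blk R z).erase z) a (Finset.mem_erase.2 ⟨haz, mem_blk.2 hra⟩)]
  · ring
  · intro u hu y hy
    rw [Finset.mem_erase, mem_blk] at hy ⊢
    rw [mem_stC] at hu
    refine ⟨fun h1 => hy.1 (MulAction.injective u (h1.trans hu.2.symm)), ?_⟩
    exact h.eqv.trans hy.2 (h.cl_pres hu.1 y)
  · intro y hy
    rw [Finset.mem_erase, mem_blk] at hy
    by_cases hya : y = a
    · exact ⟨1, Subgroup.one_mem _, by rw [one_smul, hya]⟩
    · obtain ⟨t, ht, hty⟩ := h.ex y a (h.eqv.trans (h.eqv.symm hy.2) hra) hya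
      refine ⟨t, mem_stC.2 ⟨Subgroup.subset_closure ht, ?_⟩, hty⟩
      exact h.fix_third ht hty hya (h.eqv.symm hy.2) (Ne.symm hy.1) haz.symm
  · intro y hy
    rw [Finset.mem_erase, mem_blk] at hy ⊢
    refine ⟨fun h1 => hy.1 (MulAction.injective s⁻¹ (h1.trans hsi.symm)), ?_⟩
    have := h.inv s⁻¹ _ _ hy.2
    rwa [hsi] at this

/-- the other stable blocks -/
theorem Cfg3.le_sum_blk (h : Cfg3 S R) {s : G} {z : Y} (hs : s • z = z) {x : Y} (hx : R x (s • x)) :
    #(elts (stC S z)) ≤ ∑ y ∈ blk R x, NN (stC S z) s y := by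
  classical
  have hst : ∀ y, R x y → R x (s⁻¹ • y) := by
    intro y hy
    have h1 : R (s⁻¹ • x) x := by
      have := h.inv s⁻¹ _ _ hx
      rwa [inv_smul_smul] at this
    exact h.eqv.trans (h.eqv.symm h1) (h.inv s⁻¹ _ _ hy)
  by_cases hA : ∃ u, Fz S R z u ∧ ∃ p, R x p ∧ u • p ≠ p
  · obtain ⟨k, ⟨hkC, hkz⟩, p, hxp, hkp⟩ := hA
    rw [sum_NN (stC S z) s (blk R x) p (mem_blk.2 hxp)]
    · intro u hu y hy
      rw [mem_blk] at hy ⊢
      exact h.eqv.trans hy (h.cl_pres (mem_stC.1 hu).1 y)
    · have key : ∀ y, R x y → ∃ u ∈ stC S z, u • p = y := by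
        intro y hy
        by_cases hyp : y = p
        · exact ⟨1, Subgroup.one_mem _, by rw [one_smul, hyp]⟩
        · by_cases hyk : y = k • p
          · exact ⟨k, mem_stC.2 ⟨hkC, hkz z (h.eqv.refl z)⟩, hyk.symm⟩
          · have hpk : R p (k • p) := h.cl_pres hkC p
            have hky : R (k • p) y := h.eqv.trans (h.eqv.symm hpk) (h.eqv.trans (h.eqv.symm hxp) hy)
            obtain ⟨t, ht, hty⟩ := h.ex (k • p) y hky (Ne.symm hyk)
            have htC := Subgroup.subset_closure (k := S) ht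
            have htp : t • p = p := h.fix_third ht hty (Ne.symm hyk) (h.eqv.symm hpk) (Ne.symm hkp)
              (Ne.symm hyp)
            refine ⟨t * k * t⁻¹, mem_stC.2 ⟨Subgroup.mul_mem _ (Subgroup.mul_mem _ htC hkC)
              (Subgroup.inv_mem _ htC), ?_⟩, ?_⟩
            · rw [mul_smul, mul_smul, hkz (t⁻¹ • z) (h.cl_pres (Subgroup.inv_mem _ htC) z), smul_inv_smul]
            · have h1 : t⁻¹ • p = p := by rw [inv_smul_eq_iff, htp]
              rw [mul_smul, mul_smul, h1, hty]
      intro y hy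
      obtain ⟨u, hu, huy⟩ := key y (mem_blk.1 hy)
      exact ⟨u⁻¹, Subgroup.inv_mem _ hu, by rw [← huy, inv_smul_smul]⟩
    · intro y hy
      rw [mem_blk] at hy ⊢
      exact hst y hy
  · have hB : ∀ u, Fz S R z u → ∀ p, R x p → u • p = p := by
      intro u hu p hp
      by_contra hne
      exact hA ⟨u, hu, p, hp, hne⟩
    obtain ⟨a, b, haz, hbz, hab, hra, hrb, hpt⟩ := h.points z
    obtain ⟨t, ht, hta⟩ := h.ex a b (h.eqv.trans (h.eqv.symm hra) hrb) hab
    have htC := Subgroup.subset_closure (k := S) ht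
    have htb : t • b = a := by
      have := h.back ht (z := a) (by rw [hta]; exact hab.symm)
      rwa [hta] at this
    have htz : t • z = z := h.fix_third ht hta hab (h.eqv.symm hra) haz.symm hbz.symm
    obtain ⟨p, hxp, htp⟩ := h.not_triv haz hbz hab hra hrb hpt hB ht hta
    have hpq : R p (t • p) := h.pres t ht p
    -- the third point of the class of `x`
    obtain ⟨c, d, hcp, hdp, hcd, hrc, hrd, hpt'⟩ := h.points p
    have hex : ∃ z', R p z' ∧ z' ≠ p ∧ z' ≠ t • p ∧ ∀ y, R p y → y = p ∨ y = t • p ∨ y = z' := by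
      rcases hpt' _ hpq with h1 | h1 | h1
      · exact absurd h1 htp
      · refine ⟨d, hrd, hdp, fun h2 => hcd (h1.symm.trans h2.symm), fun y hy => ?_⟩
        rw [h1]; exact hpt' y hy
      · refine ⟨c, hrc, hcp, fun h2 => hcd (h2.trans h1), fun y hy => ?_⟩
        rw [h1]
        rcases hpt' y hy with h2 | h2 | h2
        · exact Or.inl h2
        · exact Or.inr (Or.inr h2)
        · exact Or.inr (Or.inl h2)
    obtain ⟨z', hrz', hz'p, hz't, hpt''⟩ := hex
    have htz' : t • z' = z' := h.fix_third ht rfl (Ne.symm htp) hrz' hz'p hz't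
    have hxz' : R x z' := h.eqv.trans hxp hrz'
    have htt : t • (t • p) = p := h.back ht htp
    -- `P` fixes `z'`
    have hPz' : ∀ u ∈ stC S z, u • z' = z' := by
      intro u hu
      obtain ⟨huC, huz⟩ := mem_stC.1 hu
      by_cases hua : u • a = a
      · have hub : u • b = b := by
          rcases hpt (u • b) (h.eqv.trans hrb (h.cl_pres huC b)) with h1 | h1 | h1
          · exact absurd (MulAction.injective u (h1.trans huz.symm)) hbz
          · exact absurd (MulAction.injective u (h1.trans hua.symm)) hab.symm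
          · exact h1
        refine hB u ⟨huC, fun y hy => ?_⟩ z' hxz'
        rcases hpt y hy with rfl | rfl | rfl
        · exact huz
        · exact hua
        · exact hub
      · have hua' : u • a = b := by
          rcases hpt (u • a) (h.eqv.trans hra (h.cl_pres huC a)) with h1 | h1 | h1
          · exact absurd (MulAction.injective u (h1.trans huz.symm)) haz
          · exact absurd h1 hua
          · exact h1
        have hub : u • b = a := by
          rcases hpt (u • b) (h.eqv.trans hrb (h.cl_pres huC b)) with h1 | h1 | h1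
          · exact absurd (MulAction.injective u (h1.trans huz.symm)) hbz
          · exact h1
          · exact absurd (MulAction.injective u (h1.trans hua'.symm)) hab.symm
        have h1 := hB (t⁻¹ * u) ⟨Subgroup.mul_mem _ (Subgroup.inv_mem _ htC) huC, fun y hy => by
          rw [mul_smul, inv_smul_eq_iff]
          rcases hpt y hy with rfl | rfl | rfl
          · rw [huz, htz]
          · rw [hua', hta]
          · rw [hub, htb]⟩ z' hxz'
        rw [mul_smul, inv_smul_eq_iff, htz'] at h1
        exact h1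
    -- `s z' = z'`
    have hsz' : s • z' = z' := by
      have h1 : s⁻¹ * t * s ∈ stC S z := by
        refine mem_stC.2 ⟨Subgroup.subset_closure ?_, ?_⟩
        · have := h.conj s⁻¹ t ht
          rwa [inv_inv] at this
        · rw [mul_smul, mul_smul, hs, htz, inv_smul_eq_iff, hs]
      have h2 := hPz' _ h1
      rw [mul_smul, mul_smul, inv_smul_eq_iff] at h2
      -- `t (s z') = s z'`
      have h3 : R p (s • z') := by
        have h4 : R (s • x) (s • z') := h.inv s _ _ hxz'
        exact h.eqv.trans (h.eqv.symm hxp) (h.eqv.trans hx h4)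
      rcases hpt'' _ h3 with h4 | h4 | h4
      · rw [h4] at h2; exact absurd h2 htp
      · rw [h4, htt] at h2; exact absurd h2.symm htp
      · exact h4
    calc #(elts (stC S z)) = NN (stC S z) s z' := (NN_eq_card _ _ _ hPz' hsz').symm
      _ ≤ ∑ y ∈ blk R x, NN (stC S z) s y :=
        Finset.single_le_sum (f := fun y => NN (stC S z) s y) (fun y _ => Nat.zero_le _)
          (mem_blk.2 hxz')

theorem exists_lt_fin {Y' : Type*} [MulAction G Y'] [Fintype Y'] (π : Y → Y')
    (hπ : ∀ (g : G) (z : Y), π (g • z) = g • π z) (hsurj : Function.Surjective π) (K : Subgroup G)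
    (hK : ∀ u ∈ K, ∀ y : Y', u • y = y) (hKt : ∀ z z' : Y, π z = π z' → ∃ u ∈ K, u • z = z')
    (hSK : ∀ u ∈ S, u ∈ K) (h : Cfg3 S R) (s : G) (hs : 0 < fx Y' s) :
    ∃ u ∈ K, fx Y (s * u) < fx Y' s := by
  classical
  by_contra hno
  push Not at hno
  have hsum := sum_fx_eq π hπ hsurj K hK hKt s
  have hall : ∀ u ∈ K, fx Y (s * u) = fx Y' s := by
    intro u hu
    have h1 : ∑ u ∈ elts K, fx Y' s = ∑ u ∈ elts K, fx Y (s * u) := by
      rw [hsum, Finset.sum_const, smul_eq_mul]
    exact ((Finset.sum_eq_sum_iff_of_le fun u hu => hno u (mem_elts.1 hu)).1 h1 u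
      (mem_elts.2 hu)).symm
  have hCK : Subgroup.closure S ≤ K := (Subgroup.closure_le K).2 hSK
  -- a fixed point
  have h1 : 0 < fx Y (s * 1) := by rw [hall 1 K.one_mem]; exact hs
  unfold fx at h1
  obtain ⟨z, hz⟩ := Finset.card_pos.1 h1
  rw [Finset.mem_filter, mul_one] at hz
  have hsz := hz.2
  set k := fx Y' s with hk
  -- `H = C`
  have hC : 3 * (#(elts (Subgroup.closure S)) * k) =
      #(elts (Subgroup.closure S)) * #((univ : Finset Y).filter fun x => R x (s • x)) := by
    have e1 : ∑ x : Y, NN (Subgroup.closure S) s x = #(elts (Subgroup.closure S)) * k := by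
      rw [← sum_fx, Finset.sum_congr rfl fun u hu => hall u (hCK (mem_elts.1 hu)), Finset.sum_const,
        smul_eq_mul]
    rw [← e1, h.three_mul]
    have e2 : ∀ x : Y, ∑ y ∈ blk R x, NN (Subgroup.closure S) s y =
        if R x (s • x) then #(elts (Subgroup.closure S)) else 0 := by
      intro x
      split_ifs with hx
      · apply sum_NN _ s (blk R x) x (mem_blk.2 (h.eqv.refl x))
        · intro u hu y hy
          rw [mem_blk] at hy ⊢
          exact h.eqv.trans hy (h.cl_pres hu y)
        · intro y hy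
          rw [mem_blk] at hy
          by_cases hyx : y = x
          · exact ⟨1, Subgroup.one_mem _, by rw [one_smul, hyx]⟩
          · obtain ⟨u, hu, huy⟩ := h.ex y x (h.eqv.symm hy) hyx
            exact ⟨u, Subgroup.subset_closure hu, huy⟩
        · intro y hy
          rw [mem_blk] at hy ⊢
          have h1 : R (s⁻¹ • x) x := by
            have := h.inv s⁻¹ _ _ hx
            rwa [inv_smul_smul] at this
          exact h.eqv.trans (h.eqv.symm h1) (h.inv s⁻¹ _ _ hy)
      · apply Finset.sum_eq_zero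
        intro y hy
        rw [mem_blk] at hy
        unfold NN
        rw [Finset.card_eq_zero, Finset.filter_eq_empty_iff]
        intro u hu huy
        apply hx
        have h2 : R y (s⁻¹ • y) := by rw [← huy]; exact h.cl_pres (mem_elts.1 hu) y
        have h3 : R (s • y) y := by
          have := h.inv s _ _ h2
          rwa [smul_inv_smul] at this
        exact h.eqv.trans hy (h.eqv.trans (h.eqv.symm h3) (h.inv s _ _ (h.eqv.symm hy)))
    rw [Finset.sum_congr rfl fun x _ => e2 x, ← Finset.sum_filter, Finset.sum_const, smul_eq_mul, mul_comm]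
  have hstab : #((univ : Finset Y).filter fun x => R x (s • x)) = 3 * k := by
    have := elts_pos (Subgroup.closure S)
    have h2 : #(elts (Subgroup.closure S)) * (3 * k) = #(elts (Subgroup.closure S)) *
      #((univ : Finset Y).filter fun x => R x (s • x)) := by rw [← hC]; ring
    exact (Nat.eq_of_mul_eq_mul_left this h2).symm
  -- `H = P`
  have hP : 3 * (#(elts (stC S z)) * k) = ∑ x : Y, ∑ y ∈ blk R x, NN (stC S z) s y := by
    have e1 : ∑ x : Y, NN (stC S z) s x = #(elts (stC S z)) * k := by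
      rw [← sum_fx, Finset.sum_congr rfl fun u hu => hall u (hCK (mem_stC.1 (mem_elts.1 hu)).1),
        Finset.sum_const, smul_eq_mul]
    rw [← e1, h.three_mul]
  have hge : ∑ x : Y, ((if R x (s • x) then #(elts (stC S z)) else 0) +
      (if R z x then #(elts (stC S z)) else 0)) ≤ ∑ x : Y, ∑ y ∈ blk R x, NN (stC S z) s y := by
    apply Finset.sum_le_sum
    intro x _
    by_cases hx : R z x
    · rw [h.sum_blk_self hsz hx, if_pos hx]
      split_ifs <;> omega
    · rw [if_neg hx]
      split_ifs with h2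
      · exact h.le_sum_blk hsz h2
      · exact Nat.zero_le _
  rw [← hP, Finset.sum_add_distrib, ← Finset.sum_filter, ← Finset.sum_filter, Finset.sum_const,
    Finset.sum_const, hstab, smul_eq_mul, smul_eq_mul] at hge
  have h3 : #((univ : Finset Y).filter fun x => R z x) = 3 := h.card_blk z
  rw [h3] at hge
  have h4 := elts_pos (stC S z)
  have h5 : 3 * k * #(elts (stC S z)) = 3 * (#(elts (stC S z)) * k) := by ring
  omega

end three

theorem fx_eq_ncard (Y : Type*) {G : Type*} [Group G] [MulAction G Y] [Fintype Y] (g : G) :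
    fx Y g = {z : Y | g • z = z}.ncard := by
  classical
  unfold fx
  rw [← Set.ncard_coe_finset]
  congr 1
  ext z
  simp

/-- **T1a** (finite permutation groups; the average number of fixed points) -/
theorem exists_le {G Y Y' : Type*} [Group G] [MulAction G Y] [MulAction G Y'] [Finite Y] [Finite Y'] (π : Y → Y')
    (hπ : ∀ (g : G) (z : Y), π (g • z) = g • π z) (hsurj : Function.Surjective π) (K : Subgroup G)
    (hK : ∀ u ∈ K, ∀ y : Y', u • y = y) (hKt : ∀ z z' : Y, π z = π z' → ∃ u ∈ K, u • z = z') (s : G) :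
    ∃ u ∈ K, {z : Y | (s * u) • z = z}.ncard ≤ {y : Y' | s • y = y}.ncard := by
  classical
  cases nonempty_fintype Y
  cases nonempty_fintype Y'
  let φ : G →* Equiv.Perm Y × Equiv.Perm Y' := (MulAction.toPermHom G Y).prod (MulAction.toPermHom G Y')
  let _ : Fintype φ.range := Fintype.ofFinite _
  let a1 : MulAction φ.range Y := MulAction.compHom Y ((MonoidHom.fst _ _).comp φ.range.subtype)
  let a2 : MulAction φ.range Y' := MulAction.compHom Y' ((MonoidHom.snd _ _).comp φ.range.subtype)
  have e1 : ∀ (g : G) (z : Y), φ.rangeRestrict g • z = g • z := fun g z => rfl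
  have e2 : ∀ (g : G) (z : Y'), φ.rangeRestrict g • z = g • z := fun g z => rfl
  have hsur : Function.Surjective φ.rangeRestrict := φ.rangeRestrict_surjective
  obtain ⟨u, hu, h⟩ := exists_le_fin (G := φ.range) π
    (fun g z => by obtain ⟨g, rfl⟩ := hsur g; rw [e1, e2]; exact hπ g z) hsurj
    (K.map φ.rangeRestrict)
    (fun u hu y => by
      obtain ⟨v, hv, rfl⟩ := Subgroup.mem_map.1 hu
      rw [e2]; exact hK v hv y)
    (fun z z' hz => by
      obtain ⟨u, hu, huz⟩ := hKt z z' hz
      exact ⟨φ.rangeRestrict u, Subgroup.mem_map_of_mem _ hu, by rw [e1]; exact huz⟩)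
    (φ.rangeRestrict s)
  obtain ⟨v, hv, rfl⟩ := Subgroup.mem_map.1 hu
  refine ⟨v, hv, ?_⟩
  rw [fx_eq_ncard, fx_eq_ncard, ← map_mul] at h
  exact h

/-- **T1b** (classes of three points: the number of fixed points can be decreased) -/
theorem exists_lt {G Y Y' : Type*} [Group G] [MulAction G Y] [MulAction G Y'] [Finite Y] [Finite Y'] (π : Y → Y')
    (hπ : ∀ (g : G) (z : Y), π (g • z) = g • π z) (hsurj : Function.Surjective π) (K : Subgroup G)
    (hK : ∀ u ∈ K, ∀ y : Y', u • y = y) (hKt : ∀ z z' : Y, π z = π z' → ∃ u ∈ K, u • z = z') (S : Set G)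
    (hSK : ∀ u ∈ S, u ∈ K) (hS : ∀ g : G, ∀ u ∈ S, g * u * g⁻¹ ∈ S) (R : Y → Y → Prop) (hR : Equivalence R)
    (hRG : ∀ (g : G) (z z' : Y), R z z' → R (g • z) (g • z')) (h1 : ∀ u ∈ S, ∀ z : Y, R z (u • z))
    (h2 : ∀ u ∈ S, ∀ z z' : Y, R z z' → u • z ≠ z → u • z' ≠ z' → z' = z ∨ z' = u • z)
    (h3 : ∀ z z' : Y, R z z' → z ≠ z' → ∃ u ∈ S, u • z = z') (h4 : ∀ z : Y, {z' : Y | R z z'}.ncard = 3) (s : G)
    (hs : ∃ y : Y', s • y = y) : ∃ u ∈ K, {z : Y | (s * u) • z = z}.ncard < {y : Y' | s • y = y}.ncard := by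
  classical
  cases nonempty_fintype Y
  cases nonempty_fintype Y'
  let φ : G →* Equiv.Perm Y × Equiv.Perm Y' := (MulAction.toPermHom G Y).prod (MulAction.toPermHom G Y')
  let _ : Fintype φ.range := Fintype.ofFinite _
  let a1 : MulAction φ.range Y := MulAction.compHom Y ((MonoidHom.fst _ _).comp φ.range.subtype)
  let a2 : MulAction φ.range Y' := MulAction.compHom Y' ((MonoidHom.snd _ _).comp φ.range.subtype)
  have e1 : ∀ (g : G) (z : Y), φ.rangeRestrict g • z = g • z := fun g z => rfl
  have e2 : ∀ (g : G) (z : Y'), φ.rangeRestrict g • z = g • z := fun g z => rfl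
  have hsur : Function.Surjective φ.rangeRestrict := φ.rangeRestrict_surjective
  have hcfg : Cfg3 (φ.rangeRestrict '' S) R := by
    refine ⟨?_, hR, ?_, ?_, ?_, ?_, h4⟩
    · rintro g _ ⟨u, hu, rfl⟩
      obtain ⟨g, rfl⟩ := hsur g
      exact ⟨g * u * g⁻¹, hS g u hu, by rw [map_mul, map_mul, map_inv]⟩
    · intro g z z' hz
      obtain ⟨g, rfl⟩ := hsur g
      rw [e1, e1]; exact hRG g z z' hz
    · rintro _ ⟨u, hu, rfl⟩ z
      rw [e1]; exact h1 u hu z
    · rintro _ ⟨u, hu, rfl⟩ z z' hz hz1 hz2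
      rw [e1] at hz1 hz2 ⊢
      exact h2 u hu z z' hz hz1 hz2
    · intro z z' hz hne
      obtain ⟨u, hu, huz⟩ := h3 z z' hz hne
      exact ⟨φ.rangeRestrict u, ⟨u, hu, rfl⟩, by rw [e1]; exact huz⟩
  have hpos : 0 < fx Y' (φ.rangeRestrict s) := by
    obtain ⟨y, hy⟩ := hs
    unfold fx
    refine Finset.card_pos.2 ⟨y, ?_⟩
    rw [Finset.mem_filter, e2]
    exact ⟨Finset.mem_univ _, hy⟩
  obtain ⟨u, hu, h⟩ := exists_lt_fin (G := φ.range) π
    (fun g z => by obtain ⟨g, rfl⟩ := hsur g; rw [e1, e2]; exact hπ g z) hsurj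
    (K.map φ.rangeRestrict)
    (fun u hu y => by
      obtain ⟨v, hv, rfl⟩ := Subgroup.mem_map.1 hu
      rw [e2]; exact hK v hv y)
    (fun z z' hz => by
      obtain ⟨u, hu, huz⟩ := hKt z z' hz
      exact ⟨φ.rangeRestrict u, Subgroup.mem_map_of_mem _ hu, by rw [e1]; exact huz⟩)
    (fun u hu => by
      obtain ⟨u, hu, rfl⟩ := hu
      exact Subgroup.mem_map_of_mem _ (hSK u hu))
    hcfg (φ.rangeRestrict s) hpos
  obtain ⟨v, hv, rfl⟩ := Subgroup.mem_map.1 hu
  refine ⟨v, hv, ?_⟩
  rw [fx_eq_ncard, fx_eq_ncard, ← map_mul] at h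
  exact h

end Pool.Agent.ORB.GP
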