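import Pool.Agent.ORB.TExt
import Pool.Agent.ORB.TDatum
import Pool.Agent.ORB.TPerm
import Pool.Agent.ORB.TEngine
import Pool.Agent.ORB.TOmega

/-!
ORB, Theorem V3 (odd degrees), rows T2, T4, T5, closed.
-/

set_option autoImplicit false

namespace Pool.Agent.ORB.GP

open Polynomial NI NumberField IsDedekindDomain

universe u

/-- **T2** (engine for odd degrees) -/
theorem engine_odd {F W : Type u} [Field F] [NumberField F] [Field W] [Algebra F W] [IsAlgClosed W]
    [Algebra.IsAlgebraic F W] (h : F[X]) (hd : 2 ≤ h.natDegree) (hodd : Odd h.natDegree) (hc : CritCond h W) (r : W)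
    (hr : ∀ n, 1 ≤ n → (ev h)^[n] r ≠ r) (hav : ∀ c : W, Crit h c → ∀ n, (ev h)^[n] c ≠ r)
    (htr : ∀ (l : ℕ) (y y' : W), (ev h)^[l] y = r → (ev h)^[l] y' = r → ∃ g : W ≃ₐ[F] W, g r = r ∧ g y = y')
    (hFT : FT h r) (T : Set W) (hT : T.Finite) (s₀ : W ≃ₐ[F] W) (hs₀ : s₀ r = r) :
    ∃ (N : ℕ) (s : W ≃ₐ[F] W), (∀ t ∈ T, s t = s₀ t) ∧ ∀ z : W, (ev h)^[N] z = r → s z ≠ z :=
  engine_odd_of exists_le exists_lt h hd hodd hc r hr hav htr hFT T hT s₀ hs₀

/-- **T4** -/
theorem extR_odd {F W : Type u} [Field F] [NumberField F] [Field W] [Algebra F W] [IsAlgClosed W]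
    [Algebra.IsAlgebraic F W] (h : F[X]) (hd : 2 ≤ h.natDegree) (hodd : Odd h.natDegree)
    (hc : CritCond h W) (b : F) (hb : Function.Injective fun n : ℕ => (fun x => eval x h)^[n] b)
    (ht : TamT h b) : ExtR W (polyRP h) (b : OnePoint F) :=
  extR_odd_of h hd (fun r hr hav htr hFT T hT s₀ hs₀ => engine_odd h hd hodd hc r hr hav htr hFT T hT s₀ hs₀) b hb
    (fun hper => ft_of_tamT h hd b hper ht) ht

/-- **T5** -/
theorem hasDatum_odd {K : Type u} [Field K] [NumberField K] (f : RatFunc K) (β : OnePoint K)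
    (hβ : Function.Injective fun n : ℕ => (ract (RingHom.id K) f)^[n] β) (h : OddConj f β) : HasDatum f β :=
  hasDatum_odd_of (fun _ _ _ _ _ _ _ _ h hd hodd hc b hb ht => extR_odd h hd hodd hc b hb ht) f β hβ h

end Pool.Agent.ORB.GP
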