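import Pool.Agent.ORB.YDefs
import Pool.Agent.ORB.TClose

/-!
ORB, Theorem W (wild place), row Y16: the extension property. The rows Y14b, Y15a, Y15b are hypotheses here.
-/

set_option autoImplicit false

namespace Pool.Agent.ORB.WP

open Polynomial NI GP NumberField IsDedekindDomain IntermediateField

universe u

/-- **Y16**, with the local condition Y14b, the moving automorphisms Y15a and their consequence Y15b as hypotheses -/
theorem extR_wild_of {F W : Type u} [Field F] [NumberField F] [Field W] [Algebra F W] [IsAlgClosed W]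
    [Algebra.IsAlgebraic F W] (h : F[X]) (hc : CritCond h W) (b : F)
    (hb : Function.Injective fun n : ℕ => (fun x => eval x h)^[n] b) (hw : WildT h) (hloc : LocT h b)
    (hmove : (∀ n, 1 ≤ n → (fun x => eval x h)^[n] b ≠ b) →
      ∃ k₂ : ℕ, ∀ k, k₂ ≤ k → ∀ r ∈ Node W h b k, ∀ T : Set W, T.Finite → ∃ m₀ : ℕ, ∀ m, m₀ ≤ m →
        ∃ A : W ≃ₐ[F] W, (∀ t ∈ T, A t = t) ∧ A r = r ∧ (∀ k, k ≤ m → ∀ x : W, (ev h)^[k] x = r → A x = x) ∧
          ∃ z : W, (ev h)^[m + 1] z = r ∧ A z ≠ z)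
    (hft : ∀ r : W, (∀ c : W, Crit h c → ∀ n, (ev h)^[n] c ≠ r) →
      (∀ (l : ℕ) (y y' : W), (ev h)^[l] y = r → (ev h)^[l] y' = r → ∃ g : W ≃ₐ[F] W, g r = r ∧ g y = y') →
      (∀ T : Set W, T.Finite → ∃ m₀ : ℕ, ∀ m, m₀ ≤ m → ∃ A : W ≃ₐ[F] W, (∀ t ∈ T, A t = t) ∧ A r = r ∧
        (∀ k, k ≤ m → ∀ x : W, (ev h)^[k] x = r → A x = x) ∧ ∃ z : W, (ev h)^[m + 1] z = r ∧ A z ≠ z) →
      FT h r) : ExtR W (polyRP h) (b : OnePoint F) := by
  have hd : 2 ≤ h.natDegree := hw.1.two_le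
  have hper := wand_iter_ne hb
  obtain ⟨k₂, hk₂⟩ := hmove hper
  exact extR_deep_of h hd b hb (exists_tran h (by omega) b (EvStable.of_loc hd hper hloc)) k₂
    fun k hk r hr h1 h2 h3 T hT s₀ hs₀ =>
      engine_odd h hd hw.2.1 hc r h1 h2 h3 (hft r h2 h3 (hk₂ k hk r hr)) T hT s₀ hs₀

end Pool.Agent.ORB.WP
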