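import Pool.Agent.ORB.YNode

/-!
ORB, Theorem W, row Y9: the distances of the points of the tree.
-/

set_option autoImplicit false

namespace Pool.Agent.ORB.WP

open Polynomial NI GP NumberField IsDedekindDomain IntermediateField

universe u

section

variable {U Ω : Type*} [Field U] [Field Ω] [Algebra U Ω]

/-- the value of a term of the Taylor expansion in terms of `d` and `w` -/
theorem Step.term {N : AbsoluteValue Ω ℝ} {h : U[X]} {p : ℕ} (hp : 3 ≤ p) {δ Δ : ℝ} {x : Ω}
    (hx : Step N h p δ Δ x) {X : Ω} (hX : X ≠ 0) :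
    ((taylor x (h.map (algebraMap U Ω))).coeff (0 + 1) * X ^ (0 + 1) ≠ 0 ∧
      vv N ((taylor x (h.map (algebraMap U Ω))).coeff (0 + 1) * X ^ (0 + 1)) =
        vv N (aeval x (derivative h)) + vv N X) ∧
    ((taylor x (h.map (algebraMap U Ω))).coeff (p - 1 + 1) * X ^ (p - 1 + 1) ≠ 0 ∧
      vv N ((taylor x (h.map (algebraMap U Ω))).coeff (p - 1 + 1) * X ^ (p - 1 + 1)) = p * vv N X) ∧
    ∀ i ∈ Finset.range p, i ≠ 0 → i ≠ p - 1 → ((taylor x (h.map (algebraMap U Ω))).coeff (i + 1) * X ^ (i + 1) = 0 ∨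
      ((p : ℝ) - (i + 1)) * Δ + (i + 1) * vv N X < vv N ((taylor x (h.map (algebraMap U Ω))).coeff (i + 1) *
        X ^ (i + 1))) := by
  have h1 : (taylor x (h.map (algebraMap U Ω))).coeff 1 = aeval x (derivative h) := by
    rw [taylor_coeff_one, dv_eq]
  have hpp : p - 1 + 1 = p := by omega
  refine ⟨?_, ?_, fun i hi hi0 hi1 => ?_⟩
  · rw [zero_add, h1, pow_one]
    exact ⟨mul_ne_zero hx.der hX, nw_mul N hx.der hX⟩
  · rw [hpp]
    have h2 : (taylor x (h.map (algebraMap U Ω))).coeff p ≠ 0 := by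
      intro h3
      have h4 := hx.top
      rw [h3, map_zero] at h4
      exact zero_ne_one h4
    have h5 : vv N ((taylor x (h.map (algebraMap U Ω))).coeff p) = 0 := by
      unfold vv
      rw [hx.top, Real.log_one, neg_zero]
    exact ⟨mul_ne_zero h2 (pow_ne_zero _ hX), by rw [nw_mul N h2 (pow_ne_zero _ hX), h5, nw_pow, zero_add]⟩
  · rw [Finset.mem_range] at hi
    rcases hx.mid (i + 1) (by omega) (by omega) with h2 | h2
    · left
      rw [h2, zero_mul]
    · by_cases h3 : (taylor x (h.map (algebraMap U Ω))).coeff (i + 1) = 0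
      · left
        rw [h3, zero_mul]
      · right
        rw [nw_mul N h3 (pow_ne_zero _ hX), nw_pow]
        push_cast at h2 ⊢
        linarith

end

section sloc

variable {U Ω : Type*} [Field U] [Field Ω] [Algebra U Ω] [CharZero U] [IsAlgClosed Ω] [Algebra.IsAlgebraic U Ω]

/-- **Y9a** (siblings) -/
theorem Step.sib {N : AbsoluteValue Ω ℝ} (hN : ∀ x y : Ω, N (x + y) ≤ max (N x) (N y)) {h : U[X]} {p : ℕ}
    (hp : 3 ≤ p) (hd : h.natDegree = p) {δ Δ : ℝ} (hδ : 0 < δ) {x x' : Ω} (hx : Step N h p δ Δ x) (hne : x ≠ x')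
    (he : ev h x = ev h x') : δ ≤ vv N (x - x') ∧ vv N (x - x') ≤ Δ := by
  have hX : x' - x ≠ 0 := sub_ne_zero.2 hne.symm
  have hs := nw_taylor hd x x'
  rw [he, sub_self] at hs
  obtain ⟨⟨t1, v1⟩, ⟨tp, vp⟩, tm⟩ := hx.term hp hX
  rw [nw_symm N x x']
  set w := vv N (x' - x) with hw
  set a := vv N (aeval x (derivative h)) with ha
  have hp3 : (3 : ℝ) ≤ p := by exact_mod_cast hp
  have hge := hx.der_ge
  have hle := hx.der_le
  rw [← ha] at hge hle
  have hp1 : (0 : ℝ) < (p : ℝ) - 1 := by linarith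
  -- the value of the first term and of the last term are equal
  have key : a = ((p : ℝ) - 1) * w := by
    rcases lt_trichotomy a (((p : ℝ) - 1) * w) with h1 | h1 | h1
    · -- the first term dominates
      exfalso
      have h2 := (nw_dom hN (s := Finset.range p)
        (f := fun i => (taylor x (h.map (algebraMap U Ω))).coeff (i + 1) * (x' - x) ^ (i + 1)) (k := 0)
        (Finset.mem_range.2 (by omega)) t1 (fun j hj hj0 => ?_)).1
      · exact h2 hs.symm
      · rw [v1]
        by_cases hjp : j = p - 1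
        · right
          simp only [hjp]
          rw [vp]
          nlinarith
        · rcases tm j hj hj0 hjp with h3 | h3
          · exact Or.inl h3
          · right
            refine lt_of_le_of_lt ?_ h3
            have hj1 : (1 : ℝ) ≤ j := by exact_mod_cast Nat.one_le_iff_ne_zero.2 hj0
            have hj2 : (j : ℝ) + 1 ≤ p := by exact_mod_cast Nat.succ_le_of_lt (Finset.mem_range.1 hj)
            -- a + w ≤ (p - (j+1)) Δ + (j+1) w
            have e1 : a ≤ ((p : ℝ) - 1) * Δ := hle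
            -- (p-1) * [ (p-(j+1)) Δ + j w ] ≥ (p-(j+1)) a + j a = (p-1) a
            have e2 : ((p : ℝ) - (j + 1)) * a ≤ ((p : ℝ) - (j + 1)) * (((p : ℝ) - 1) * Δ) :=
              mul_le_mul_of_nonneg_left e1 (by linarith)
            have e3 : (j : ℝ) * a ≤ (j : ℝ) * (((p : ℝ) - 1) * w) :=
              mul_le_mul_of_nonneg_left h1.le (by linarith)
            have e4 : ((p : ℝ) - 1) * a ≤ ((p : ℝ) - 1) * (((p : ℝ) - (j + 1)) * Δ + j * w) := by
              linarith
            have e5 := le_of_mul_le_mul_left e4 hp1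
            linarith
    · exact h1
    · exfalso
      have h2 := (nw_dom hN (s := Finset.range p)
        (f := fun i => (taylor x (h.map (algebraMap U Ω))).coeff (i + 1) * (x' - x) ^ (i + 1)) (k := p - 1)
        (Finset.mem_range.2 (by omega)) tp (fun j hj hj0 => ?_)).1
      · exact h2 hs.symm
      · rw [vp]
        by_cases hj1 : j = 0
        · right
          simp only [hj1]
          rw [v1]
          linarith
        · rcases tm j hj hj1 hj0 with h3 | h3
          · exact Or.inl h3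
          · right
            refine lt_of_le_of_lt ?_ h3
            have hj2 : (j : ℝ) + 1 ≤ p := by exact_mod_cast Nat.succ_le_of_lt (Finset.mem_range.1 hj)
            have e1 : w ≤ Δ := by
              have : ((p : ℝ) - 1) * w ≤ ((p : ℝ) - 1) * Δ := by linarith
              exact le_of_mul_le_mul_left this hp1
            nlinarith
  rw [key] at hge hle
  exact ⟨le_of_mul_le_mul_left hge hp1, le_of_mul_le_mul_left hle hp1⟩

/-- **Y9b** (the distance of points with different images) -/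
theorem Step.ascend {N : AbsoluteValue Ω ℝ} (hN : ∀ x y : Ω, N (x + y) ≤ max (N x) (N y)) {h : U[X]} {p : ℕ}
    (hp : 3 ≤ p) (hd : h.natDegree = p) {δ Δ : ℝ} (hδ : 0 < δ) {x x' : Ω} (hx : Step N h p δ Δ x)
    (hne : ev h x ≠ ev h x') (h0 : 0 < vv N (ev h x - ev h x')) (h1 : vv N (ev h x - ev h x') ≤ p * δ) :
    vv N (x - x') = vv N (ev h x - ev h x') / p := by
  have hX : x' - x ≠ 0 := by
    intro h2
    rw [sub_eq_zero] at h2
    exact hne (by rw [h2])
  have hs := nw_taylor hd x x'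
  obtain ⟨⟨t1, v1⟩, ⟨tp, vp⟩, tm⟩ := hx.term hp hX
  rw [nw_symm N x x']
  rw [nw_symm N (ev h x) (ev h x')] at h0 h1 ⊢
  set w := vv N (x' - x) with hw
  set a := vv N (aeval x (derivative h)) with ha
  set g := vv N (ev h x' - ev h x) with hg
  have hp3 : (3 : ℝ) ≤ p := by exact_mod_cast hp
  have hge := hx.der_ge
  have hle := hx.der_le
  rw [← ha] at hge hle
  have hp1 : (0 : ℝ) < (p : ℝ) - 1 := by linarith
  have hp0 : (0 : ℝ) < p := by linarith
  have hδΔ : δ ≤ Δ := le_of_mul_le_mul_left (hge.trans hle) hp1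
  rw [eq_div_iff hp0.ne', mul_comm]
  rcases lt_trichotomy ((p : ℝ) * w) g with h2 | h2 | h2
  · -- the last term dominates
    exfalso
    have h3 := (nw_dom hN (s := Finset.range p)
      (f := fun i => (taylor x (h.map (algebraMap U Ω))).coeff (i + 1) * (x' - x) ^ (i + 1)) (k := p - 1)
      (Finset.mem_range.2 (by omega)) tp (fun j hj hj0 => ?_)).2
    · rw [← hs, vp, ← hg] at h3
      linarith
    · have hwδ : w < δ := by
        have : (p : ℝ) * w < p * δ := by linarith
        exact lt_of_mul_lt_mul_left this hp0.le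
      rw [vp]
      by_cases hj1 : j = 0
      · right
        simp only [hj1]
        rw [v1]
        nlinarith
      · rcases tm j hj hj1 hj0 with h3 | h3
        · exact Or.inl h3
        · right
          refine lt_of_le_of_lt ?_ h3
          have hj2 : (j : ℝ) + 1 ≤ p := by exact_mod_cast Nat.succ_le_of_lt (Finset.mem_range.1 hj)
          nlinarith
  · exact h2
  · -- all terms are smaller than the sum
    exfalso
    have hgw : g / p < w := by rwa [div_lt_iff₀ hp0, mul_comm]
    have hgδ : g / p ≤ δ := by rwa [div_le_iff₀ hp0, mul_comm]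
    have h3 := nw_sum_lt hN (s := Finset.range p)
      (f := fun i => (taylor x (h.map (algebraMap U Ω))).coeff (i + 1) * (x' - x) ^ (i + 1)) (g := g)
      (fun j hj => ?_)
    · rw [← hs, ← hg] at h3
      rcases h3 with h3 | h3
      · exact hne (sub_eq_zero.1 h3).symm
      · exact lt_irrefl _ h3
    · have hgp : g = p * (g / p) := by field_simp
      by_cases hj1 : j = 0
      · right
        simp only [hj1]
        rw [v1]
        nlinarith
      · by_cases hj0 : j = p - 1
        · right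
          simp only [hj0]
          rw [vp]
          exact h2
        · rcases tm j hj hj1 hj0 with h3 | h3
          · exact Or.inl h3
          · right
            refine lt_of_le_of_lt ?_ h3
            have hj2 : (j : ℝ) + 1 ≤ p := by exact_mod_cast Nat.succ_le_of_lt (Finset.mem_range.1 hj)
            have e1 : ((p : ℝ) - (j + 1)) * (g / p) ≤ ((p : ℝ) - (j + 1)) * Δ :=
              mul_le_mul_of_nonneg_left (by linarith) (by linarith)
            have e2 : ((j : ℝ) + 1) * (g / p) ≤ ((j : ℝ) + 1) * w :=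
              mul_le_mul_of_nonneg_left hgw.le (by positivity)
            linarith

/-- the distances of two points of one level -/
theorem RefU.level {S : SLoc U Ω} {h : U[X]} {p : ℕ} (hp : 3 ≤ p) (hd : h.natDegree = p) {b : U} {δ Δ : ℝ}
    (hδ : 0 < δ) (hΔ : Δ ≤ p * δ) (hst : ∀ n, ∀ x ∈ Node Ω h b n, Step S.N h p δ Δ x) (n : ℕ) :
    ∀ x ∈ Node Ω h b n, ∀ x' ∈ Node Ω h b n, x ≠ x' → 0 < vv S.N (x - x') ∧ vv S.N (x - x') ≤ Δ := by
  have hp3 : (3 : ℝ) ≤ p := by exact_mod_cast hp
  have hp0 : (0 : ℝ) < p := by linarith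
  induction n with
  | zero =>
    intro x hx x' hx' hne
    have h1 : x = algebraMap U Ω b := hx
    have h2 : x' = algebraMap U Ω b := hx'
    exact absurd (h1.trans h2.symm) hne
  | succ n ih =>
    intro x hx x' hx' hne
    by_cases he : ev h x = ev h x'
    · obtain ⟨h1, h2⟩ := (hst _ x hx).sib S.nonarch hp hd hδ hne he
      exact ⟨hδ.trans_le h1, h2⟩
    · obtain ⟨h1, h2⟩ := ih _ (Node_succ.1 hx) _ (Node_succ.1 hx') he
      have h3 := (hst _ x hx).ascend S.nonarch hp hd hδ he h1 (h2.trans hΔ)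
      rw [h3]
      exact ⟨by positivity, (div_le_self h1.le (by linarith)).trans h2⟩

/-- the distances of two points of one level with different images under an iterate -/
theorem RefU.iter {S : SLoc U Ω} {h : U[X]} {p : ℕ} (hp : 3 ≤ p) (hd : h.natDegree = p) {b : U} {δ Δ : ℝ}
    (hδ : 0 < δ) (hΔ : Δ ≤ p * δ) (hst : ∀ n, ∀ x ∈ Node Ω h b n, Step S.N h p δ Δ x) (n k : ℕ) :
    ∀ x ∈ Node Ω h b (n + k), ∀ x' ∈ Node Ω h b (n + k), (ev h)^[k] x ≠ (ev h)^[k] x' →
      vv S.N (x - x') = vv S.N ((ev h)^[k] x - (ev h)^[k] x') / p ^ k := by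
  induction k with
  | zero =>
    intro x hx x' hx' _
    rw [Function.iterate_zero, id, id, pow_zero, div_one]
  | succ k ih =>
    intro x hx x' hx' hne
    have he : ev h x ≠ ev h x' := by
      intro h1
      exact hne (by rw [Function.iterate_succ_apply, Function.iterate_succ_apply, h1])
    have hy : ev h x ∈ Node Ω h b (n + k) := Node_succ.1 hx
    have hy' : ev h x' ∈ Node Ω h b (n + k) := Node_succ.1 hx'
    have h1 := ih _ hy _ hy' (by rwa [← Function.iterate_succ_apply, ← Function.iterate_succ_apply])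
    obtain ⟨h2, h3⟩ := RefU.level hp hd hδ hΔ hst (n + k) _ hy _ hy' he
    rw [(hst _ x hx).ascend S.nonarch hp hd hδ he h2 (h3.trans hΔ), h1, pow_succ, ← Function.iterate_succ_apply,
      ← Function.iterate_succ_apply, div_div]

/-- **Y9c** (all distances) -/
theorem RefU.dist {S : SLoc U Ω} {h : U[X]} {p : ℕ} {P : ℝ} {b : U} {e : ℕ → U} (hr : RefU S h p P b e) {D₀ : ℝ}
    (hD : P ≤ ((p : ℝ) - 1) * D₀)
    (hst : ∀ n, ∀ x ∈ Node Ω h b n, Step S.N h p (D₀ - P / (9 * (p : ℝ) ^ 2)) (D₀ + P / (9 * (p : ℝ) ^ 2)) x)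
    {ψ : Ω → Ω} (hψ : ψ = id ∨ (ψ = fun x => x⁻¹) ∧ (∀ n, e n = 0) ∧ vv S.N (algebraMap U Ω b) < 0) :
    (∀ n k, ∀ x ∈ Node Ω h b (n + k), ∀ x' ∈ Node Ω h b (n + k), (ev h)^[k] x ≠ (ev h)^[k] x' →
      vv S.N (ψ x - ψ x') ≤ (D₀ + 3 * (P / (9 * (p : ℝ) ^ 2))) / p ^ k) ∧
    ∀ n k, ∀ x ∈ Node Ω h b (n + 1 + k), ∀ x' ∈ Node Ω h b (n + 1 + k),
      (ev h)^[k + 1] x = (ev h)^[k + 1] x' → (ev h)^[k] x ≠ (ev h)^[k] x' →
      (D₀ - P / (9 * (p : ℝ) ^ 2)) / p ^ k ≤ vv S.N (ψ x - ψ x') := by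
  have hp := hr.p3
  have hd := hr.deg
  have hP := hr.P_pos
  have hp3 : (3 : ℝ) ≤ p := by exact_mod_cast hp
  have hp0 : (0 : ℝ) < p := by linarith
  have hp1 : (0 : ℝ) < (p : ℝ) - 1 := by linarith
  set η := P / (9 * (p : ℝ) ^ 2) with hη
  have hη0 : 0 < η := by positivity
  have hPη : P = 9 * (p : ℝ) ^ 2 * η := by
    rw [hη]
    field_simp
  have hD0 : 9 * (p : ℝ) * η < D₀ := by
    have h1 : ((p : ℝ) - 1) * (9 * (p : ℝ) * η) < ((p : ℝ) - 1) * D₀ := by
      refine lt_of_lt_of_le ?_ hD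
      rw [hPη]
      nlinarith [mul_pos hp0 hη0]
    exact lt_of_mul_lt_mul_left h1 hp1.le
  have hpη : 3 * η ≤ (p : ℝ) * η := mul_le_mul_of_nonneg_right hp3 hη0.le
  have hδ : 0 < D₀ - η := by linarith
  have hΔ : D₀ + η ≤ p * (D₀ - η) := by nlinarith
  -- the value of a product of two points of one level
  have hs : (ψ = id ∨ (ψ = fun x => x⁻¹) ∧ (∀ n, e n = 0) ∧ vv S.N (algebraMap U Ω b) < 0) →
      ∀ n, ∀ x ∈ Node Ω h b n, ∀ x' ∈ Node Ω h b n, x ≠ x' →
        vv S.N (x - x') ≤ vv S.N (ψ x - ψ x') ∧ vv S.N (ψ x - ψ x') ≤ vv S.N (x - x') + 2 * (η / p ^ n) := by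
    rintro (h1 | ⟨h1, h2, h3⟩) n x hx x' hx' hne
    · rw [h1, id, id]
      exact ⟨le_refl _, le_add_of_nonneg_right (by positivity)⟩
    · obtain ⟨hx0, hxv⟩ := hr.val n x hx
      obtain ⟨hx0', hxv'⟩ := hr.val n x' hx'
      rw [h2 n, map_zero] at hx0 hx0'
      rw [h2 n, h2 0, map_zero, sub_zero, sub_zero] at hxv hxv'
      have h4 : x⁻¹ - x'⁻¹ = (x' - x) * (x⁻¹ * x'⁻¹) := by
        field_simp
      have h5 : vv S.N (x⁻¹ - x'⁻¹) = vv S.N (x - x') + (- vv S.N x - vv S.N x') := by
        rw [h4, nw_mul S.N (sub_ne_zero.2 hne.symm) (mul_ne_zero (inv_ne_zero hx0) (inv_ne_zero hx0')),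
          nw_mul S.N (inv_ne_zero hx0) (inv_ne_zero hx0'), nw_inv, nw_inv, nw_symm]
        ring
      have h6 : -η ≤ vv S.N (algebraMap U Ω b) := by
        have h7 := hr.small
        rw [h2 0, sub_zero, abs_of_neg h3, hPη] at h7
        have h8 : (0 : ℝ) < 9 * (p : ℝ) ^ 2 := by positivity
        have := le_of_mul_le_mul_left h7 h8
        linarith
      rw [h1]
      simp only
      rw [h5, hxv, hxv']
      have h7 : vv S.N (algebraMap U Ω b) / (p : ℝ) ^ n < 0 := div_neg_of_neg_of_pos h3 (by positivity)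
      have h8 : -η / (p : ℝ) ^ n ≤ vv S.N (algebraMap U Ω b) / (p : ℝ) ^ n :=
        div_le_div_of_nonneg_right h6 (by positivity)
      rw [neg_div] at h8
      constructor <;> linarith
  have hne' : ∀ (k : ℕ) (x x' : Ω), (ev h)^[k] x ≠ (ev h)^[k] x' → x ≠ x' := by
    rintro k x x' h1 rfl
    exact h1 rfl
  refine ⟨fun n k x hx x' hx' hne => ?_, fun n k x hx x' hx' he hne => ?_⟩
  · have h1 := (hs hψ _ x hx x' hx' (hne' k x x' hne)).2
    rw [RefU.iter hp hd hδ hΔ hst n k x hx x' hx' hne] at h1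
    have h2 := (RefU.level hp hd hδ hΔ hst n _ (Node_iter hx) _ (Node_iter hx') hne).2
    have h3 : vv S.N ((ev h)^[k] x - (ev h)^[k] x') / (p : ℝ) ^ k ≤ (D₀ + η) / (p : ℝ) ^ k :=
      div_le_div_of_nonneg_right h2 (by positivity)
    have h4 : η / (p : ℝ) ^ (n + k) ≤ η / (p : ℝ) ^ k :=
      div_le_div_of_nonneg_left hη0.le (by positivity) (pow_le_pow_right₀ (by linarith) (by omega))
    have h5 : (D₀ + 3 * η) / (p : ℝ) ^ k = (D₀ + η) / (p : ℝ) ^ k + 2 * (η / (p : ℝ) ^ k) := by ring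
    rw [h5]
    linarith
  · have h1 := (hs hψ _ x hx x' hx' (hne' k x x' hne)).1
    rw [RefU.iter hp hd hδ hΔ hst (n + 1) k x hx x' hx' hne] at h1
    have hy : (ev h)^[k] x ∈ Node Ω h b (n + 1) := Node_iter hx
    have he' : ev h ((ev h)^[k] x) = ev h ((ev h)^[k] x') := by
      rw [← Function.iterate_succ_apply' (ev h) k x, ← Function.iterate_succ_apply' (ev h) k x']
      exact he
    have h2 := ((hst _ _ hy).sib S.nonarch hp hd hδ hne he').1
    exact (div_le_div_of_nonneg_right h2 (by positivity)).trans h1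

end sloc

end Pool.Agent.ORB.WP
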