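import Pool.Agent.ORB.YDefs

/-!
ORB, Theorem W, row Y1: uniformizers of finite extensions.
-/

set_option autoImplicit false

namespace Pool.Agent.ORB.WP

open Polynomial NI GP NumberField IsDedekindDomain IntermediateField

section na

variable {Ω : Type*} [Field Ω] {N : AbsoluteValue Ω ℝ}

theorem na_add_eq (hN : ∀ x y : Ω, N (x + y) ≤ max (N x) (N y)) {x y : Ω} (h : N x < N y) :
    N (x + y) = N y := by
  refine le_antisymm ?_ ?_
  · have := hN x y
    rwa [max_eq_right h.le] at this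
  · have h1 := hN (x + y) (-x)
    rw [add_neg_cancel_comm, N.map_neg] at h1
    rcases le_max_iff.1 h1 with h2 | h2
    · exact h2
    · exact absurd h2 (not_le.2 h)

theorem na_sub_le (hN : ∀ x y : Ω, N (x + y) ≤ max (N x) (N y)) (x y : Ω) :
    N (x - y) ≤ max (N x) (N y) := by
  have h := hN x (-y)
  rwa [N.map_neg, ← sub_eq_add_neg] at h

theorem na_sum_le (hN : ∀ x y : Ω, N (x + y) ≤ max (N x) (N y)) {ι : Type*} (s : Finset ι) (t : ι → Ω)
    {B : ℝ} (hB : 0 ≤ B) (h : ∀ i ∈ s, N (t i) ≤ B) : N (∑ i ∈ s, t i) ≤ B := by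
  classical
  induction s using Finset.induction_on with
  | empty => rw [Finset.sum_empty, map_zero]; exact hB
  | insert a s ha ih =>
    rw [Finset.sum_insert ha]
    exact (hN _ _).trans (max_le (h a (Finset.mem_insert_self a s))
      (ih fun i hi => h i (Finset.mem_insert_of_mem hi)))

theorem na_sum_lt (hN : ∀ x y : Ω, N (x + y) ≤ max (N x) (N y)) {ι : Type*} (s : Finset ι) (t : ι → Ω)
    {B : ℝ} (hB : 0 < B) (h : ∀ i ∈ s, N (t i) < B) : N (∑ i ∈ s, t i) < B := by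
  classical
  induction s using Finset.induction_on with
  | empty => rw [Finset.sum_empty, map_zero]; exact hB
  | insert a s ha ih =>
    rw [Finset.sum_insert ha]
    exact (hN _ _).trans_lt (max_lt (h a (Finset.mem_insert_self a s))
      (ih fun i hi => h i (Finset.mem_insert_of_mem hi)))

/-- a term of a sum with different values is at most as big as the sum -/
theorem na_le_sum (hN : ∀ x y : Ω, N (x + y) ≤ max (N x) (N y)) {ι : Type*} (s : Finset ι) (t : ι → Ω)
    (hd : ∀ i ∈ s, ∀ j ∈ s, i ≠ j → N (t i) ≠ N (t j)) {i : ι} (hi : i ∈ s) :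
    N (t i) ≤ N (∑ i ∈ s, t i) := by
  classical
  obtain ⟨j, hj, hmax⟩ := s.exists_max_image (fun i => N (t i)) ⟨i, hi⟩
  refine (hmax i hi).trans ?_
  rw [← Finset.sum_erase_add _ _ hj]
  by_cases h0 : N (t j) = 0
  · rw [h0]
    exact N.nonneg _
  · have h1 : 0 < N (t j) := lt_of_le_of_ne (N.nonneg _) (Ne.symm h0)
    rw [na_add_eq hN]
    refine na_sum_lt hN _ _ h1 fun k hk => ?_
    obtain ⟨hk1, hk2⟩ := Finset.mem_erase.1 hk
    exact lt_of_le_of_ne (hmax k hk2) (hd k hk2 j hj hk1)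

theorem na_nat_le (hN : ∀ x y : Ω, N (x + y) ≤ max (N x) (N y)) (n : ℕ) : N (n : Ω) ≤ 1 := by
  induction n with
  | zero => simp
  | succ n ih =>
    rw [Nat.cast_succ]
    exact (hN _ _).trans (max_le ih (by rw [map_one]))

end na

section sloc

variable {U Ω : Type*} [Field U] [Field Ω] [Algebra U Ω] [CharZero U] [IsAlgClosed Ω] [Algebra.IsAlgebraic U Ω]

omit [CharZero U] in
/-- the embeddings of `E` do not change the absolute value -/
theorem SLoc.emb (S : SLoc U Ω) (E : IntermediateField U Ω) (σ : E →ₐ[U] Ω) (y : E) :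
    S.N (σ y) = S.N (y : Ω) := by
  have hcl : IsAlgClosure U Ω := ⟨inferInstance, inferInstance⟩
  have hnor : Normal U Ω := IsAlgClosure.normal U Ω
  have halg : IsAlgebraic U (y : Ω) := Algebra.IsAlgebraic.isAlgebraic _
  have h1 : minpoly U (y : Ω) = minpoly U y :=
    minpoly.algebraMap_eq (algebraMap E Ω).injective y
  obtain ⟨g, hg⟩ := minpoly.exists_algEquiv_of_root' (K := U) (L := Ω) (x := σ y) (y := (y : Ω)) halg (by
    rw [h1, aeval_algHom_apply, minpoly.aeval, map_zero])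
  rw [← hg, S.inv]

/-- the norm -/
theorem SLoc.norm (S : SLoc U Ω) (E : IntermediateField U Ω) [FiniteDimensional U E] (y : E) :
    S.N (algebraMap U Ω (Algebra.norm U y)) = S.N (y : Ω) ^ Module.finrank U E := by
  rw [Algebra.norm_eq_prod_embeddings U Ω y, map_prod, Finset.prod_congr rfl fun σ _ => S.emb E σ y,
    Finset.prod_const, Finset.card_univ, AlgHom.card]

/-- the trace -/
theorem SLoc.trace_le (S : SLoc U Ω) (E : IntermediateField U Ω) [FiniteDimensional U E] (y : E) :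
    S.N (algebraMap U Ω (Algebra.trace U E y)) ≤ S.N (y : Ω) := by
  rw [trace_eq_sum_embeddings Ω]
  exact na_sum_le S.nonarch _ _ (S.N.nonneg _) fun σ _ => (S.emb E σ y).le

omit [CharZero U] [IsAlgClosed Ω] [Algebra.IsAlgebraic U Ω] in
theorem SLoc.π_pos (S : SLoc U Ω) : 0 < S.N (algebraMap U Ω S.π) :=
  S.N.pos fun h => S.π_ne ((map_eq_zero _).1 h)

/-- the values of the elements of `E` -/
theorem SLoc.value (S : SLoc U Ω) (E : IntermediateField U Ω) [FiniteDimensional U E] {x : Ω} (hx : x ∈ E)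
    (h0 : x ≠ 0) : ∃ k : ℤ, S.N x ^ Module.finrank U E = S.N (algebraMap U Ω S.π) ^ k := by
  obtain ⟨k, hk⟩ := S.disc (Algebra.norm U (⟨x, hx⟩ : E)) (by
    rw [Algebra.norm_ne_zero_iff]
    intro h
    exact h0 (congrArg (fun y : E => (y : Ω)) h))
  exact ⟨k, by rw [← hk, S.norm E]⟩

/-- **Y1a** -/
theorem exists_unif (S : SLoc U Ω) (E : IntermediateField U Ω) [FiniteDimensional U E] : ∃ ϖ : Ω, Unif S E ϖ := by
  classical
  set n := Module.finrank U E with hn
  have hn0 : 0 < n := Module.finrank_pos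
  set q : ℝ := S.N (algebraMap U Ω S.π) with hq
  have hq0 : 0 < q := S.π_pos
  have hq1 : q < 1 := S.π_lt
  have hex : ∃ m : ℕ, 1 ≤ m ∧ ∃ x ∈ E, x ≠ 0 ∧ S.N x ^ n = q ^ m :=
    ⟨n, hn0, algebraMap U Ω S.π, E.algebraMap_mem _, fun h => S.π_ne ((map_eq_zero _).1 h), rfl⟩
  obtain ⟨hm1, ϖ, hϖE, hϖ0, hϖ⟩ := Nat.find_spec hex
  set m := Nat.find hex with hm
  have hmin : ∀ m' : ℕ, 1 ≤ m' → (∃ x ∈ E, x ≠ 0 ∧ S.N x ^ n = q ^ m') → m ≤ m' :=
    fun m' h1 h2 => Nat.find_min' hex ⟨h1, h2⟩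
  have hϖp : 0 < S.N ϖ := S.N.pos hϖ0
  have hlt : S.N ϖ < 1 := by
    by_contra h
    push Not at h
    have h1 := one_le_pow₀ (n := n) h
    rw [hϖ] at h1
    exact absurd (pow_lt_one₀ hq0.le hq1 (by omega : m ≠ 0)) (not_lt.2 h1)
  refine ⟨ϖ, hϖE, hϖ0, hlt, fun x hx h0 => ?_⟩
  obtain ⟨k, hk⟩ := S.value E hx h0
  set j : ℤ := k / m with hj
  have hkj : k = m * j + k % m := (Int.mul_ediv_add_emod k m).symm
  have hr0 : 0 ≤ k % (m : ℤ) := Int.emod_nonneg _ (by omega)
  have hr1 : k % (m : ℤ) < m := Int.emod_lt_of_pos _ (by omega)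
  obtain ⟨r, hr⟩ := Int.eq_ofNat_of_zero_le hr0
  have hy : S.N (x / ϖ ^ j) ^ n = q ^ r := by
    rw [map_div₀, map_zpow₀, div_pow, hk]
    have h1 : (S.N ϖ ^ j) ^ n = (q ^ m) ^ j := by
      rw [← zpow_natCast (S.N ϖ ^ j), ← zpow_mul, mul_comm, zpow_mul, zpow_natCast, hϖ]
    rw [h1, ← zpow_natCast q m, ← zpow_mul, ← zpow_sub₀ hq0.ne', ← zpow_natCast q r]
    congr 1
    omega
  refine ⟨j, ?_⟩
  have hy0 : x / ϖ ^ j ≠ 0 := div_ne_zero h0 (zpow_ne_zero _ hϖ0)
  have hyE : x / ϖ ^ j ∈ E := div_mem hx (zpow_mem hϖE j)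
  have hrz : r = 0 := by
    by_contra hr0'
    have h1 := hmin r (by omega) ⟨_, hyE, hy0, hy⟩
    omega
  rw [hrz, pow_zero] at hy
  have h1 : S.N (x / ϖ ^ j) = 1 := (pow_eq_one_iff_of_nonneg (S.N.nonneg _) hn0.ne').1 hy
  rw [map_div₀, map_zpow₀, div_eq_one_iff_eq (zpow_ne_zero _ hϖp.ne')] at h1
  exact h1

omit [CharZero U] [IsAlgClosed Ω] [Algebra.IsAlgebraic U Ω] in
theorem Unif.pos {S : SLoc U Ω} {E : IntermediateField U Ω} {ϖ : Ω} (h : Unif S E ϖ) : 0 < S.N ϖ :=
  S.N.pos h.ne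

omit [CharZero U] [IsAlgClosed Ω] [Algebra.IsAlgebraic U Ω] in
/-- the values below one -/
theorem Unif.le_of_lt {S : SLoc U Ω} {E : IntermediateField U Ω} {ϖ : Ω} (h : Unif S E ϖ) {x : Ω}
    (hx : x ∈ E) (h1 : S.N x < 1) : S.N x ≤ S.N ϖ := by
  by_cases h0 : x = 0
  · rw [h0, map_zero]
    exact S.N.nonneg _
  · obtain ⟨k, hk⟩ := h.gen x hx h0
    have hk1 : 1 ≤ k := by
      by_contra hcon
      push Not at hcon
      rw [hk] at h1
      have h2 : (1 : ℝ) ≤ S.N ϖ ^ k := one_le_zpow_of_nonpos₀ h.pos h.lt.le (by omega)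
      linarith
    rw [hk]
    calc S.N ϖ ^ k ≤ S.N ϖ ^ (1 : ℤ) := zpow_le_zpow_right_of_le_one₀ h.pos h.lt.le hk1
      _ = S.N ϖ := zpow_one _

/-- the elements of `E` are polynomials of small degree in the uniformizer -/
theorem Unif.basis {S : SLoc U Ω} {E : IntermediateField U Ω} [FiniteDimensional U E] {ϖ : Ω} (h : Unif S E ϖ) :
    S.N ϖ ^ Module.finrank U E = S.N (algebraMap U Ω S.π) ∧
    ∀ x ∈ E, ∃ q : U[X], q.degree < Module.finrank U E ∧ aeval ϖ q = x := by
  classical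
  set n := Module.finrank U E with hn
  have hn0 : 0 < n := Module.finrank_pos
  have hϖp := h.pos
  have hπE : algebraMap U Ω S.π ∈ E := E.algebraMap_mem _
  have hπ0 : algebraMap U Ω S.π ≠ 0 := fun h => S.π_ne ((map_eq_zero _).1 h)
  obtain ⟨e', he'⟩ := h.gen _ hπE hπ0
  have he'1 : 1 ≤ e' := by
    by_contra hcon
    push Not at hcon
    have h1 := S.π_lt
    rw [he'] at h1
    have h2 : (1 : ℝ) ≤ S.N ϖ ^ e' := one_le_zpow_of_nonpos₀ h.pos h.lt.le (by omega)
    linarith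
  obtain ⟨e, rfl⟩ := Int.eq_ofNat_of_zero_le (by omega : 0 ≤ e')
  have he : S.N (algebraMap U Ω S.π) = S.N ϖ ^ e := by rw [he']; exact zpow_natCast _ _
  have he1 : 1 ≤ e := by exact_mod_cast he'1
  -- the span of the powers of `ϖ`
  set y : E := ⟨ϖ, h.mem⟩ with hy
  set V : Submodule U E := (degreeLT U e).map (aeval y : U[X] →ₐ[U] E).toLinearMap with hV
  have hVmem : ∀ q : U[X], q.degree < e → aeval y q ∈ V := fun q hq =>
    Submodule.mem_map_of_mem (mem_degreeLT.2 hq)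
  -- one step of the approximation
  have hstep : ∀ x : E, ∃ v ∈ V, S.N ((x - v : E) : Ω) ≤ S.N ϖ * S.N (x : Ω) := by
    intro x
    by_cases hx0 : x = 0
    · refine ⟨0, V.zero_mem, ?_⟩
      rw [hx0]
      simp
    · have hx0' : (x : Ω) ≠ 0 := fun h1 => hx0 (Subtype.ext h1)
      obtain ⟨j, hj⟩ := h.gen _ x.2 hx0'
      set k : ℤ := j / e with hk
      have hkj : j = e * k + j % e := (Int.mul_ediv_add_emod j e).symm
      have hr0 : 0 ≤ j % (e : ℤ) := Int.emod_nonneg _ (by omega)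
      have hr1 : j % (e : ℤ) < e := Int.emod_lt_of_pos _ (by omega)
      obtain ⟨i, hi⟩ := Int.eq_ofNat_of_zero_le hr0
      set t : Ω := ϖ ^ i * algebraMap U Ω S.π ^ k with ht
      have htN : S.N t = S.N (x : Ω) := by
        rw [ht, map_mul, map_pow, map_zpow₀, he, hj, ← zpow_natCast (S.N ϖ) i, ← zpow_natCast (S.N ϖ) e,
          ← zpow_mul, ← zpow_add₀ hϖp.ne']
        congr 1
        omega
      have ht0 : t ≠ 0 := mul_ne_zero (pow_ne_zero _ h.ne) (zpow_ne_zero _ hπ0)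
      have hxt : S.N ((x : Ω) / t) = 1 := by
        rw [map_div₀, htN, div_self (S.N.pos hx0').ne']
      obtain ⟨u, hu⟩ := S.res _ hxt
      have htE : t ∈ E := mul_mem (pow_mem h.mem i) (zpow_mem hπE k)
      have h2 := h.le_of_lt (sub_mem (div_mem x.2 htE) (E.algebraMap_mem u)) hu
      refine ⟨aeval y (C (u * S.π ^ k) * X ^ i), hVmem _ ((degree_C_mul_X_pow_le _ _).trans_lt (by
        have : i < e := by omega
        exact_mod_cast this)), ?_⟩
      have h3 : ((x - aeval y (C (u * S.π ^ k) * X ^ i) : E) : Ω) = ((x : Ω) / t - algebraMap U Ω u) * t := by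
        have h4 : ((x - aeval y (C (u * S.π ^ k) * X ^ i) : E) : Ω) =
          (x : Ω) - ((aeval y (C (u * S.π ^ k) * X ^ i) : E) : Ω) := rfl
        rw [h4, sub_mul, div_mul_cancel₀ _ ht0, ← IntermediateField.aeval_coe, map_mul,
          aeval_C, map_pow, aeval_X, ht, map_mul, map_zpow₀]
        ring
      rw [h3, map_mul, htN]
      exact mul_le_mul_of_nonneg_right h2 (S.N.nonneg _)
  have hstep' : ∀ (x : E) (m : ℕ), ∃ v ∈ V, S.N ((x - v : E) : Ω) ≤ S.N ϖ ^ m * S.N (x : Ω) := by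
    intro x m
    induction m with
    | zero => exact ⟨0, V.zero_mem, by simp⟩
    | succ m ih =>
      obtain ⟨v, hv, h1⟩ := ih
      obtain ⟨v', hv', h2⟩ := hstep (x - v)
      refine ⟨v + v', V.add_mem hv hv', ?_⟩
      rw [← sub_sub, pow_succ', mul_assoc]
      exact h2.trans (mul_le_mul_of_nonneg_left h1 hϖp.le)
  -- `V` is everything
  have hVtop : V = ⊤ := by
    by_contra hne
    obtain ⟨f, hf0, hf⟩ := Submodule.exists_le_ker_of_lt_top V (lt_top_iff_ne_top.2 hne)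
    have hnd := traceForm_nondegenerate U E
    set c : E := (LinearMap.BilinForm.toDual (Algebra.traceForm U E) hnd).symm f with hc
    have hcf : ∀ x, Algebra.trace U E (c * x) = f x := by
      intro x
      have h1 := LinearMap.BilinForm.apply_toDual_symm_apply (hB := hnd) f x
      rw [Algebra.traceForm_apply] at h1
      exact h1
    obtain ⟨x, hx⟩ : ∃ x, f x ≠ 0 := by
      by_contra hcon
      push Not at hcon
      exact hf0 (LinearMap.ext hcon)
    have hpos : 0 < S.N (algebraMap U Ω (f x)) := S.N.pos fun h1 => hx ((map_eq_zero _).1 h1)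
    have hbd : ∀ m : ℕ, S.N (algebraMap U Ω (f x)) ≤ S.N ϖ ^ m * (S.N (c : Ω) * S.N (x : Ω)) := by
      intro m
      obtain ⟨v, hv, h1⟩ := hstep' x m
      have h2 : f x = Algebra.trace U E (c * (x - v)) := by
        rw [hcf, map_sub, LinearMap.mem_ker.1 (hf hv), sub_zero]
      rw [h2]
      refine (S.trace_le E _).trans ?_
      rw [IntermediateField.coe_mul, map_mul]
      calc S.N (c : Ω) * S.N ((x - v : E) : Ω) ≤ S.N (c : Ω) * (S.N ϖ ^ m * S.N (x : Ω)) :=
            mul_le_mul_of_nonneg_left h1 (S.N.nonneg _)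
        _ = _ := by ring
    have hlim : Filter.Tendsto (fun m : ℕ => S.N ϖ ^ m * (S.N (c : Ω) * S.N (x : Ω))) Filter.atTop
        (nhds (0 * (S.N (c : Ω) * S.N (x : Ω)))) :=
      (tendsto_pow_atTop_nhds_zero_of_lt_one hϖp.le h.lt).mul_const _
    rw [zero_mul] at hlim
    exact absurd (ge_of_tendsto' hlim hbd) (not_le.2 hpos)
  -- the degrees
  have hle : n ≤ e := by
    have h1 : Module.finrank U V ≤ Module.finrank U (degreeLT U e) := Submodule.finrank_map_le _ _
    rw [hVtop, finrank_top, LinearEquiv.finrank_eq (degreeLTEquiv U e), Module.finrank_fintype_fun_eq_card,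
      Fintype.card_fin] at h1
    exact h1
  obtain ⟨k, hk⟩ := S.value E h.mem h.ne
  have hnk : (n : ℤ) = e * k := by
    rw [he, ← zpow_natCast (S.N ϖ) e, ← zpow_mul, ← zpow_natCast (S.N ϖ)] at hk
    exact zpow_right_injective₀ hϖp h.lt.ne hk
  have hne : n = e := by
    have hk1 : 1 ≤ k := by
      by_contra hcon
      push Not at hcon
      have h1 : (e : ℤ) * k ≤ 0 := mul_nonpos_of_nonneg_of_nonpos (by omega) (by omega)
      omega
    have h2 : (e : ℤ) ≤ e * k := le_mul_of_one_le_right (by omega) hk1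
    omega
  refine ⟨by rw [he, hne], fun x hx => ?_⟩
  have h1 : (⟨x, hx⟩ : E) ∈ V := by rw [hVtop]; exact Submodule.mem_top
  obtain ⟨q, hq, hqx⟩ := Submodule.mem_map.1 h1
  refine ⟨q, by rw [hne]; exact mem_degreeLT.1 hq, ?_⟩
  have h2 : aeval y q = (⟨x, hx⟩ : E) := hqx
  have h3 := IntermediateField.aeval_coe E y q
  rw [h2] at h3
  exact h3

/-- **Y1b** (total ramification) -/
theorem Unif.pow {S : SLoc U Ω} {E : IntermediateField U Ω} [FiniteDimensional U E] {ϖ : Ω} (h : Unif S E ϖ) :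
    S.N ϖ ^ Module.finrank U E = S.N (algebraMap U Ω S.π) := h.basis.1

/-- **Y1c** (integral elements are polynomials in the uniformizer) -/
theorem Unif.exists_poly {S : SLoc U Ω} {E : IntermediateField U Ω} [FiniteDimensional U E] {ϖ : Ω} (h : Unif S E ϖ)
    {x : Ω} (hx : x ∈ E) (hx1 : S.N x ≤ 1) :
    ∃ q : U[X], (∀ i, S.N (algebraMap U Ω (q.coeff i)) ≤ 1) ∧ aeval ϖ q = x := by
  classical
  obtain ⟨q, hq, hqx⟩ := h.basis.2 x hx
  set n := Module.finrank U E with hn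
  have hn0 : 0 < n := Module.finrank_pos
  have hϖp := h.pos
  refine ⟨q, fun i => ?_, hqx⟩
  by_cases hi : q.coeff i = 0
  · rw [hi, map_zero, map_zero]
    exact zero_le_one
  have hlt : ∀ i ∈ q.support, i < n := by
    intro i hi
    have h1 := (le_degree_of_mem_supp i hi).trans_lt hq
    exact_mod_cast h1
  have hval : ∀ i ∈ q.support, ∃ k : ℤ, S.N (algebraMap U Ω (q.coeff i)) = S.N ϖ ^ ((n : ℤ) * k) := by
    intro i hi
    obtain ⟨k, hk⟩ := S.disc _ (mem_support_iff.1 hi)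
    refine ⟨k, ?_⟩
    rw [hk, ← h.pow, ← zpow_natCast (S.N ϖ), ← zpow_mul]
  have hterm : ∀ i, ∀ k : ℤ, S.N (algebraMap U Ω (q.coeff i)) = S.N ϖ ^ ((n : ℤ) * k) →
      S.N (algebraMap U Ω (q.coeff i) * ϖ ^ i) = S.N ϖ ^ ((n : ℤ) * k + i) := by
    intro i k hk
    rw [map_mul, map_pow, hk, zpow_add₀ hϖp.ne', zpow_natCast]
  have hsum : x = ∑ i ∈ q.support, algebraMap U Ω (q.coeff i) * ϖ ^ i := by
    rw [← hqx, aeval_def, eval₂_eq_sum, Polynomial.sum]
  have hi' : i ∈ q.support := mem_support_iff.2 hi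
  have hle := na_le_sum S.nonarch q.support (fun i => algebraMap U Ω (q.coeff i) * ϖ ^ i) (by
    intro i hi j hj hij h1
    obtain ⟨k, hk⟩ := hval i hi
    obtain ⟨l, hl⟩ := hval j hj
    rw [hterm i k hk, hterm j l hl] at h1
    have h2 := zpow_right_injective₀ hϖp h.lt.ne h1
    have h3 : ((n : ℤ) * k + i) % n = ((n : ℤ) * l + j) % n := by
      have h4 : (n : ℤ) * k + i = (n : ℤ) * l + j := h2
      rw [h4]
    have := hlt i hi
    have := hlt j hj
    rw [Int.mul_add_emod_self_left, Int.mul_add_emod_self_left,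
      Int.emod_eq_of_lt (by omega) (by omega), Int.emod_eq_of_lt (by omega) (by omega)] at h3
    exact hij (by exact_mod_cast h3)) hi'
  rw [← hsum] at hle
  obtain ⟨k, hk⟩ := hval i hi'
  rw [hterm i k hk] at hle
  have h5 : S.N ϖ ^ ((n : ℤ) * k + i) ≤ 1 := hle.trans hx1
  have h6 : 0 ≤ (n : ℤ) * k + i := by
    by_contra hcon
    push Not at hcon
    have h7 : 1 < S.N ϖ ^ ((n : ℤ) * k + i) := one_lt_zpow_of_neg₀ hϖp h.lt hcon
    linarith
  have h7 : 0 ≤ k := by
    by_contra hcon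
    push Not at hcon
    have h8 := hlt i hi'
    have h9 : (n : ℤ) * k ≤ (n : ℤ) * (-1) := mul_le_mul_of_nonneg_left (by omega) (by omega)
    omega
  rw [hk]
  exact zpow_le_one₀ hϖp h.lt.le (mul_nonneg (by omega) h7)

end sloc

end Pool.Agent.ORB.WP
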