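import Pool.Agent.ORB.YNewt
import Pool.Agent.ORB.YUnif

/-!
ORB, Theorem W, row Y8: the values of the points of the tree.
-/

set_option autoImplicit false

namespace Pool.Agent.ORB.WP

open Polynomial NI GP NumberField IsDedekindDomain IntermediateField

universe u

section sloc

variable {U Ω : Type*} [Field U] [Field Ω] [Algebra U Ω] [CharZero U] [IsAlgClosed Ω] [Algebra.IsAlgebraic U Ω]

/-- the first type: one step of the Newton polygon at `e` -/
theorem RefU.step1 {S : SLoc U Ω} {h : U[X]} {p : ℕ} {P : ℝ} {b : U} {e : ℕ → U} (hr : RefU S h p P b e)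
    (n : ℕ) (he : eval (e (n + 1)) h = e n) {x : Ω} (hne : ev h x ≠ algebraMap U Ω (e n))
    (h0 : 0 < vv S.N (ev h x - algebraMap U Ω (e n)))
    (h1 : vv S.N (ev h x - algebraMap U Ω (e n)) ≤ P) :
    x ≠ algebraMap U Ω (e (n + 1)) ∧
      vv S.N (x - algebraMap U Ω (e (n + 1))) = vv S.N (ev h x - algebraMap U Ω (e n)) / p := by
  have hev : ev h (algebraMap U Ω (e (n + 1))) = algebraMap U Ω (e n) := by
    rw [ev, aeval_algebraMap_apply, coe_aeval_eq_eval, he]
  have hx : x ≠ algebraMap U Ω (e (n + 1)) := by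
    intro h2
    exact hne (by rw [h2, hev])
  refine ⟨hx, ?_⟩
  have hX : x - algebraMap U Ω (e (n + 1)) ≠ 0 := sub_ne_zero.2 hx
  have hs := nw_taylor hr.deg (algebraMap U Ω (e (n + 1))) x
  rw [hev] at hs
  have hp3 : (3 : ℝ) ≤ p := by exact_mod_cast hr.p3
  have hp0 : (0 : ℝ) < p := by linarith
  have hp3' := hr.p3
  have hP := hr.P_pos
  have hc : ∀ i, (taylor (algebraMap U Ω (e (n + 1))) (h.map (algebraMap U Ω))).coeff i =
      algebraMap U Ω ((taylor (e (n + 1)) h).coeff i) := by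
    intro i
    rw [← map_taylor, coeff_map]
  have htop : S.N ((taylor (algebraMap U Ω (e (n + 1))) (h.map (algebraMap U Ω))).coeff (p - 1 + 1)) = 1 := by
    rw [hc, show p - 1 + 1 = (taylor (e (n + 1)) h).natDegree by rw [natDegree_taylor, hr.deg]; omega,
      coeff_natDegree, leadingCoeff_taylor]
    exact hr.lead
  set A := fun i => (taylor (algebraMap U Ω (e (n + 1))) (h.map (algebraMap U Ω))).coeff i with hA
  set X := x - algebraMap U Ω (e (n + 1)) with hXd
  set w := vv S.N X with hw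
  set g := vv S.N (ev h x - algebraMap U Ω (e n)) with hg
  have tp : A (p - 1 + 1) * X ^ (p - 1 + 1) ≠ 0 := by
    refine mul_ne_zero (fun h2 => ?_) (pow_ne_zero _ hX)
    have h3 : S.N (A (p - 1 + 1)) = 1 := htop
    rw [h2, map_zero] at h3
    exact zero_ne_one h3
  have vp : vv S.N (A (p - 1 + 1) * X ^ (p - 1 + 1)) = p * w := by
    have h2 : vv S.N (A (p - 1 + 1)) = 0 := by
      have h3 : S.N (A (p - 1 + 1)) = 1 := htop
      unfold vv
      rw [h3, Real.log_one, neg_zero]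
    rw [nw_mul S.N (left_ne_zero_of_mul tp) (pow_ne_zero _ hX), h2, nw_pow, zero_add,
      show p - 1 + 1 = p by omega]
  have tm : ∀ i ∈ Finset.range p, i ≠ p - 1 → A (i + 1) * X ^ (i + 1) = 0 ∨
      P + (i + 1) * w ≤ vv S.N (A (i + 1) * X ^ (i + 1)) := by
    intro i hi hi1
    rw [Finset.mem_range] at hi
    have h2 : A (i + 1) = algebraMap U Ω ((taylor (e (n + 1)) h).coeff (i + 1)) := hc (i + 1)
    by_cases h4 : A (i + 1) = 0
    · left
      rw [h4, zero_mul]
    · right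
      rcases hr.mid (n + 1) (i + 1) (by omega) (by omega) with h3 | h3
      · exact absurd (by rw [h2, h3, map_zero]) h4
      · rw [nw_mul S.N h4 (pow_ne_zero _ hX), nw_pow, h2]
        push_cast
        linarith
  rw [eq_div_iff hp0.ne', mul_comm]
  rcases lt_trichotomy ((p : ℝ) * w) g with h2 | h2 | h2
  · exfalso
    have h3 := (nw_dom S.nonarch (s := Finset.range p) (f := fun i => A (i + 1) * X ^ (i + 1)) (k := p - 1)
      (Finset.mem_range.2 (by omega)) tp (fun j hj hj0 => ?_)).2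
    · simp only [hA, hXd] at h3
      rw [← hs] at h3
      rw [← hg] at h3
      have h4 : g = p * w := h3.trans vp
      linarith
    · rcases tm j hj hj0 with h3 | h3
      · exact Or.inl h3
      · right
        refine lt_of_lt_of_le ?_ h3
        rw [vp]
        have hj2 : (j : ℝ) + 1 ≤ p := by exact_mod_cast Nat.succ_le_of_lt (Finset.mem_range.1 hj)
        have hj3 : (0 : ℝ) ≤ j := Nat.cast_nonneg j
        rcases le_or_gt w 0 with h5 | h5
        · nlinarith
        · nlinarith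
  · exact h2
  · exfalso
    have hw0 : 0 < w := by
      by_contra h5
      push Not at h5
      nlinarith
    have h3 := nw_sum_lt S.nonarch (s := Finset.range p) (f := fun i => A (i + 1) * X ^ (i + 1)) (g := g)
      (fun j hj => ?_)
    · simp only [hA, hXd] at h3
      rw [← hs] at h3
      rcases h3 with h3 | h3
      · exact hne (sub_eq_zero.1 h3)
      · exact lt_irrefl _ h3
    · by_cases hj0 : j = p - 1
      · right
        simp only [hj0]
        rw [vp]
        exact h2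
      · rcases tm j hj hj0 with h3 | h3
        · exact Or.inl h3
        · right
          refine lt_of_lt_of_le ?_ h3
          have hj3 : (0 : ℝ) ≤ j := Nat.cast_nonneg j
          nlinarith

/-- the second type: one step for points which are not integral -/
theorem RefU.step2 {S : SLoc U Ω} {h : U[X]} {p : ℕ} {P : ℝ} {b : U} {e : ℕ → U} (hr : RefU S h p P b e)
    {x : Ω} (h0 : vv S.N (ev h x) < 0) : x ≠ 0 ∧ vv S.N x = vv S.N (ev h x) / p := by
  have hp3 : (3 : ℝ) ≤ p := by exact_mod_cast hr.p3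
  have hp0 : (0 : ℝ) < p := by linarith
  have hp3' := hr.p3
  have hs : ev h x = ∑ i ∈ Finset.range (p + 1), algebraMap U Ω (h.coeff i) * x ^ i := by
    rw [ev, aeval_eq_sum_range, hr.deg]
    exact Finset.sum_congr rfl fun i _ => by rw [Algebra.smul_def]
  have hne : ev h x ≠ 0 := by
    intro h2
    rw [h2] at h0
    unfold vv at h0
    rw [map_zero, Real.log_zero, neg_zero] at h0
    exact lt_irrefl _ h0
  have hx1 : 1 < S.N x := by
    by_contra h2
    push Not at h2
    have h3 : S.N (ev h x) ≤ 1 := by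
      rw [hs]
      obtain ⟨j, -, hj1⟩ := IsNonarchimedean.finset_image_add_of_nonempty (f := fun x => S.N x) S.nonarch
        (fun i => algebraMap U Ω (h.coeff i) * x ^ i) (t := Finset.range (p + 1)) ⟨0, Finset.mem_range.2 (by omega)⟩
      refine hj1.trans ?_
      rw [map_mul, map_pow]
      exact mul_le_one₀ (hr.coef j) (by positivity) (pow_le_one₀ (S.N.nonneg _) h2)
    have h4 : 0 ≤ vv S.N (ev h x) := by
      rw [nw_le_iff S.N hne, neg_zero, Real.exp_zero]
      exact h3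
    linarith
  have hx : x ≠ 0 := by
    intro h2
    rw [h2, map_zero] at hx1
    linarith
  refine ⟨hx, ?_⟩
  have hw : vv S.N x < 0 := by
    unfold vv
    have := Real.log_pos hx1
    linarith
  have hc : S.N (algebraMap U Ω (h.coeff p)) = 1 := by
    have := hr.lead
    rwa [← coeff_natDegree, hr.deg] at this
  have hc0 : algebraMap U Ω (h.coeff p) ≠ 0 := by
    intro h2
    rw [h2, map_zero] at hc
    exact zero_ne_one hc
  have vp : vv S.N (algebraMap U Ω (h.coeff p) * x ^ p) = p * vv S.N x := by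
    have h2 : vv S.N (algebraMap U Ω (h.coeff p)) = 0 := by
      unfold vv
      rw [hc, Real.log_one, neg_zero]
    rw [nw_mul S.N hc0 (pow_ne_zero _ hx), h2, nw_pow, zero_add]
  have h3 := (nw_dom S.nonarch (s := Finset.range (p + 1)) (f := fun i => algebraMap U Ω (h.coeff i) * x ^ i)
    (k := p) (Finset.mem_range.2 (by omega)) (mul_ne_zero hc0 (pow_ne_zero _ hx)) (fun j hj hj0 => ?_)).2
  · rw [← hs, vp] at h3
    rw [h3]
    field_simp
  · by_cases h4 : algebraMap U Ω (h.coeff j) = 0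
    · left
      rw [h4, zero_mul]
    · right
      rw [vp, nw_mul S.N h4 (pow_ne_zero _ hx), nw_pow]
      have h5 : 0 ≤ vv S.N (algebraMap U Ω (h.coeff j)) := by
        rw [nw_le_iff S.N h4, neg_zero, Real.exp_zero]
        exact hr.coef j
      have hj1 : j < p := by
        have := Finset.mem_range.1 hj
        omega
      have hj2 : (j : ℝ) + 1 ≤ p := by exact_mod_cast hj1
      nlinarith

/-- **Y8a** (the values of the points of the tree) -/
theorem RefU.val {S : SLoc U Ω} {h : U[X]} {p : ℕ} {P : ℝ} {b : U} {e : ℕ → U} (hr : RefU S h p P b e) (n : ℕ) :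
    ∀ x ∈ Node Ω h b n, x ≠ algebraMap U Ω (e n) ∧
      vv S.N (x - algebraMap U Ω (e n)) = vv S.N (algebraMap U Ω (b - e 0)) / p ^ n := by
  have hp3 : (3 : ℝ) ≤ p := by exact_mod_cast hr.p3
  have hp0 : (0 : ℝ) < p := by linarith
  induction n with
  | zero =>
    intro x hx
    have hx' : x = algebraMap U Ω b := hx
    rw [hx', pow_zero, div_one, map_sub]
    exact ⟨fun h1 => hr.ne ((algebraMap U Ω).injective h1), rfl⟩
  | succ n ih =>
    intro x hx
    obtain ⟨h1, h2⟩ := ih _ (Node_succ.1 hx)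
    rw [pow_succ, ← div_div]
    rcases hr.typ with ⟨h3, h4⟩ | ⟨h3, h4⟩
    · have h5 : 0 < vv S.N (algebraMap U Ω (b - e 0)) / p ^ n := by positivity
      have h6 : vv S.N (algebraMap U Ω (b - e 0)) / p ^ n ≤ P := by
        have h7 : vv S.N (algebraMap U Ω (b - e 0)) / p ^ n ≤ vv S.N (algebraMap U Ω (b - e 0)) :=
          div_le_self h4.le (one_le_pow₀ (by linarith))
        have h8 := hr.small
        rw [abs_of_pos h4] at h8
        have h10 : (1 : ℝ) ≤ 9 * (p : ℝ) ^ 2 := by nlinarith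
        have h9 : vv S.N (algebraMap U Ω (b - e 0)) ≤ 9 * (p : ℝ) ^ 2 * vv S.N (algebraMap U Ω (b - e 0)) :=
          le_mul_of_one_le_left h4.le h10
        linarith
      rw [← h2] at h5 h6 ⊢
      exact hr.step1 n (h3 n) h1 h5 h6
    · have h5 : vv S.N (algebraMap U Ω (b - e 0)) < 0 := by
        rw [h3 0, sub_zero]
        exact h4
      rw [h3 n, map_zero, sub_zero] at h2
      rw [h3 (n + 1), map_zero, sub_zero, ← h2]
      exact hr.step2 (by rw [h2]; exact div_neg_of_neg_of_pos h5 (by positivity))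

/-- **Y8b**, with the uniformizers as a hypothesis (row Y1a) -/
theorem RefU.fin_of (hY1 : ∀ (S : SLoc U Ω) (E : IntermediateField U Ω) [FiniteDimensional U E], ∃ ϖ : Ω, Unif S E ϖ)
    {S : SLoc U Ω} {h : U[X]} {p : ℕ} {P : ℝ} {b : U} {e : ℕ → U} (hr : RefU S h p P b e) (Δ : ℝ)
    (hΔ : |vv S.N (algebraMap U Ω (b - e 0))| ≤ Δ) :
    ∃ ψ : Ω → Ω, (ψ = id ∨ (ψ = fun x => x⁻¹) ∧ (∀ n, e n = 0) ∧ vv S.N (algebraMap U Ω b) < 0) ∧
      (∀ n, ∀ x ∈ Node Ω h b n, S.N (ψ x) ≤ 1) ∧
      ∀ k₀, ∀ y ∈ Node Ω h b k₀, ∃ k, ∀ z : Ω, (ev h)^[k] z = y → ∀ x ∈ U⟮y⟯,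
        ψ z ≠ x ∧ vv S.N (ψ z - x) ≤ Δ / p ^ k := by
  have hp3 : (3 : ℝ) ≤ p := by exact_mod_cast hr.p3
  have hp0 : (0 : ℝ) < p := by linarith
  have hp1 : (1 : ℝ) < p := by linarith
  -- small positive values are not taken in `U(y)`
  have gap : ∀ y : Ω, ∃ c : ℝ, 0 < c ∧ ∀ u ∈ U⟮y⟯, u ≠ 0 → 0 < vv S.N u → c ≤ vv S.N u := by
    intro y
    haveI : FiniteDimensional U U⟮y⟯ :=
      IntermediateField.adjoin.finiteDimensional (Algebra.IsIntegral.isIntegral y)
    obtain ⟨ϖ, hϖ⟩ := hY1 S U⟮y⟯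
    have h1 : 0 < vv S.N ϖ := by
      rw [nw_lt_iff S.N hϖ.ne, neg_zero, Real.exp_zero]
      exact hϖ.lt
    refine ⟨vv S.N ϖ, h1, fun u hu hu0 hu1 => ?_⟩
    obtain ⟨k, hk⟩ := hϖ.gen u hu hu0
    have h2 : vv S.N u = k * vv S.N ϖ := by
      unfold vv
      rw [hk, Real.log_zpow]
      ring
    rw [h2] at hu1 ⊢
    have h3 : 0 < k := by
      by_contra h4
      push Not at h4
      have : (k : ℝ) ≤ 0 := by exact_mod_cast h4
      nlinarith
    have h4 : (1 : ℝ) ≤ k := by exact_mod_cast h3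
    nlinarith
  -- the main argument
  have main : ∀ (k₀ : ℕ) (y : Ω) (s : ℝ), 0 < s → s ≤ Δ → ∃ k : ℕ, ∀ t : Ω, t ≠ 0 →
      vv S.N t = s / p ^ (k₀ + k) → ∀ u ∈ U⟮y⟯, t ≠ u ∧ vv S.N (t - u) ≤ Δ / p ^ k := by
    intro k₀ y s hs hsΔ
    obtain ⟨c, hc, hc1⟩ := gap y
    obtain ⟨k, hk⟩ := exists_pow_lt_of_lt_one (div_pos hc hs) (inv_lt_one_of_one_lt₀ hp1)
    refine ⟨k, fun t ht htv u hu => ?_⟩
    have h1 : s / p ^ (k₀ + k) ≤ s / p ^ k :=
      div_le_div_of_nonneg_left hs.le (by positivity) (pow_le_pow_right₀ hp1.le (by omega))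
    have h2 : s / p ^ k < c := by
      rw [inv_pow, lt_div_iff₀ hs] at hk
      rw [div_eq_mul_inv, mul_comm]
      exact hk
    have h3 : s / p ^ k ≤ Δ / p ^ k := div_le_div_of_nonneg_right hsΔ (by positivity)
    have h0 : 0 < s / (p : ℝ) ^ (k₀ + k) := by positivity
    have h4 : ¬ (u ≠ 0 ∧ vv S.N u = s / p ^ (k₀ + k)) := by
      rintro ⟨h5, h6⟩
      have := hc1 u hu h5 (by rw [h6]; exact h0)
      rw [h6] at this
      linarith
    have h5 : t ≠ u := by
      rintro rfl
      exact h4 ⟨ht, htv⟩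
    refine ⟨h5, ?_⟩
    by_contra h6
    push Not at h6
    have h7 : t - u ≠ 0 := sub_ne_zero.2 h5
    have h8 : vv S.N t < vv S.N (t - u) := by
      rw [htv]
      linarith
    rw [nw_lt S.N ht h7] at h8
    have h9 : S.N u = S.N t := by
      have h10 := IsNonarchimedean.add_eq_max_of_ne' (fun x => S.N x) S.nonarch
        (fun a => (S.N.map_neg a).symm) (a := t) (b := -(t - u)) (by
          simp only [S.N.map_neg]
          exact h8.ne')
      simp only [S.N.map_neg] at h10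
      rw [max_eq_left h8.le] at h10
      rw [← h10]
      congr 1
      ring
    refine h4 ⟨?_, ?_⟩
    · intro h10
      rw [h10, map_zero] at h9
      exact S.N.ne_zero ht h9.symm
    · unfold vv at htv ⊢
      rw [h9]
      exact htv
  rcases hr.typ with ⟨h3, h4⟩ | ⟨h3, h4⟩
  · refine ⟨id, Or.inl rfl, fun n x hx => ?_, fun k₀ y hy => ?_⟩
    · obtain ⟨h5, h6⟩ := hr.val n x hx
      have h7 : S.N (x - algebraMap U Ω (e n)) ≤ 1 := by
        have h8 := (nw_le_iff S.N (sub_ne_zero.2 h5) 0).1 (by rw [h6]; positivity)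
        rwa [neg_zero, Real.exp_zero] at h8
      have h8 := S.nonarch (x - algebraMap U Ω (e n)) (algebraMap U Ω (e n))
      rw [sub_add_cancel] at h8
      exact h8.trans (max_le h7 (hr.int n))
    · rw [abs_of_pos h4] at hΔ
      obtain ⟨k, hk⟩ := main k₀ y _ h4 hΔ
      refine ⟨k, fun z hz x hx => ?_⟩
      have hz' : z ∈ Node Ω h b (k₀ + k) := by
        have : (ev h)^[k₀ + k] z = algebraMap U Ω b := by
          rw [Function.iterate_add_apply, hz]
          exact hy
        exact this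
      obtain ⟨h5, h6⟩ := hr.val _ z hz'
      obtain ⟨h7, h8⟩ := hk _ (sub_ne_zero.2 h5) h6 (x - algebraMap U Ω (e (k₀ + k)))
        (sub_mem hx (IntermediateField.algebraMap_mem _ _))
      rw [sub_sub_sub_cancel_right] at h8
      exact ⟨fun h9 => h7 (by rw [← h9]; rfl), h8⟩
  · have hs : vv S.N (algebraMap U Ω (b - e 0)) = vv S.N (algebraMap U Ω b) := by
      rw [h3 0, sub_zero]
    refine ⟨fun x => x⁻¹, Or.inr ⟨rfl, h3, h4⟩, fun n x hx => ?_, fun k₀ y hy => ?_⟩
    · obtain ⟨h5, h6⟩ := hr.val n x hx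
      rw [h3 n, map_zero] at h5
      rw [h3 n, map_zero, sub_zero, hs] at h6
      have h7 : 0 ≤ vv S.N x⁻¹ := by
        rw [nw_inv, h6, le_neg, neg_zero]
        exact (div_neg_of_neg_of_pos h4 (by positivity)).le
      have h8 := (nw_le_iff S.N (inv_ne_zero h5) 0).1 h7
      rwa [neg_zero, Real.exp_zero] at h8
    · rw [hs, abs_of_neg h4] at hΔ
      obtain ⟨k, hk⟩ := main k₀ y _ (neg_pos.2 h4) hΔ
      refine ⟨k, fun z hz x hx => ?_⟩
      have hz' : z ∈ Node Ω h b (k₀ + k) := by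
        have : (ev h)^[k₀ + k] z = algebraMap U Ω b := by
          rw [Function.iterate_add_apply, hz]
          exact hy
        exact this
      obtain ⟨h5, h6⟩ := hr.val _ z hz'
      rw [h3, map_zero] at h5
      rw [h3 (k₀ + k), map_zero, sub_zero, hs] at h6
      exact hk z⁻¹ (inv_ne_zero h5) (by rw [nw_inv, h6, neg_div]) x hx

/-- **Y8b** -/
theorem RefU.fin {S : SLoc U Ω} {h : U[X]} {p : ℕ} {P : ℝ} {b : U} {e : ℕ → U} (hr : RefU S h p P b e) (Δ : ℝ)
    (hΔ : |vv S.N (algebraMap U Ω (b - e 0))| ≤ Δ) :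
    ∃ ψ : Ω → Ω, (ψ = id ∨ (ψ = fun x => x⁻¹) ∧ (∀ n, e n = 0) ∧ vv S.N (algebraMap U Ω b) < 0) ∧
      (∀ n, ∀ x ∈ Node Ω h b n, S.N (ψ x) ≤ 1) ∧
      ∀ k₀, ∀ y ∈ Node Ω h b k₀, ∃ k, ∀ z : Ω, (ev h)^[k] z = y → ∀ x ∈ U⟮y⟯,
        ψ z ≠ x ∧ vv S.N (ψ z - x) ≤ Δ / p ^ k :=
  RefU.fin_of (fun S E _ => exists_unif S E) hr Δ hΔ

end sloc

end Pool.Agent.ORB.WP
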