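import Pool.Agent.ORB.YUnif
import Pool.Agent.ORB.YNode
import Pool.Agent.ORB.YDist
import Pool.Agent.ORB.YStab
import Pool.Agent.ORB.YRef
import Pool.Agent.ORB.GOrb

/-!
ORB, Theorem W (wild place), row Y13: the local theorem.
-/

set_option autoImplicit false

namespace Pool.Agent.ORB.WP

open Polynomial NI GP NumberField IsDedekindDomain IntermediateField

section base

variable {F Ω : Type*} [Field F] [Field Ω] [Algebra F Ω]

theorem ev_mapU (U : IntermediateField F Ω) (h : F[X]) : (ev (h.map (algebraMap F U)) : Ω → Ω) = ev h := by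
  funext z
  exact aeval_map_algebraMap U z h

theorem node_mapU (U : IntermediateField F Ω) (h : F[X]) (r : U) (n : ℕ) (z : Ω) :
    z ∈ Node Ω (h.map (algebraMap F U)) r n ↔ (ev h)^[n] z = (r : Ω) := by
  unfold Node
  rw [ev_mapU]
  exact Iff.rfl

theorem step_mapU {U : IntermediateField F Ω} {N : AbsoluteValue Ω ℝ} {h : F[X]} {p : ℕ} {δ Δ : ℝ} {x : Ω}
    (hs : Step N h p δ Δ x) : Step N (h.map (algebraMap F U)) p δ Δ x := by
  have h1 : (h.map (algebraMap F U)).map (algebraMap U Ω) = h.map (algebraMap F Ω) := by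
    rw [Polynomial.map_map, ← IsScalarTower.algebraMap_eq]
  have h2 : aeval x (derivative (h.map (algebraMap F U))) = aeval x (derivative h) := by
    rw [derivative_map]
    exact aeval_map_algebraMap U x _
  refine ⟨?_, ?_, ?_, ?_, ?_⟩
  · rw [h1]
    exact hs.top
  · rw [h2]
    exact hs.der
  · rw [h2]
    exact hs.der_ge
  · rw [h2]
    exact hs.der_le
  · rw [h1]
    exact hs.mid

end base

section loc

variable {F Ω : Type*} [Field F] [Field Ω] [Algebra F Ω]

theorem vv_pos_iff (N : AbsoluteValue Ω ℝ) {x : Ω} (hx : x ≠ 0) : 0 < vv N x ↔ N x < 1 := by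
  unfold vv
  have h0 := N.pos hx
  constructor
  · intro h
    by_contra h1
    have := Real.log_nonneg (not_lt.1 h1)
    linarith
  · intro h
    have := Real.log_neg h0 h
    linarith

theorem vv_neg_iff (N : AbsoluteValue Ω ℝ) {x : Ω} (hx : x ≠ 0) : vv N x < 0 ↔ 1 < N x := by
  unfold vv
  have h0 := N.pos hx
  constructor
  · intro h
    by_contra h1
    have := Real.log_nonpos h0.le (not_lt.1 h1)
    linarith
  · intro h
    have := Real.log_pos h
    linarith

/-- the value of a small element of `F` -/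
theorem vv_ge_pi (D : LocAbs F Ω) {x : F} (hx : x ≠ 0) (h1 : D.N (algebraMap F Ω x) < 1) :
    vv D.N (algebraMap F Ω D.π) ≤ vv D.N (algebraMap F Ω x) := by
  have hle := le_pi (D := D) h1
  have h0 : algebraMap F Ω x ≠ 0 := (_root_.map_ne_zero _).2 hx
  unfold vv
  have := Real.log_le_log (D.N.pos h0) hle
  linarith

/-- the local data over a larger base field -/
theorem refU_of [CharZero F] {D : LocAbs F Ω} {h : F[X]} (hw : WildL D h) {b : F} {e : ℕ → F} (he : Ref D h b e)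
    {k : ℕ} (U : IntermediateField F Ω) (S : SLoc U Ω) (hS : S.N = D.N) (r : U) (hr : (r : Ω) ∈ Node Ω h b k)
    (hk : 9 * (h.natDegree : ℝ) ^ 2 * |vv D.N ((r : Ω) - algebraMap F Ω (e k))| ≤ vv D.N (algebraMap F Ω D.π)) :
    RefU S (h.map (algebraMap F U)) h.natDegree (vv D.N (algebraMap F Ω D.π)) r
      (fun n => algebraMap F U (e (k + n))) := by
  have hπ0 : algebraMap F Ω D.π ≠ 0 := (_root_.map_ne_zero _).2 D.π_ne
  have hFU : ∀ x : F, algebraMap U Ω (algebraMap F U x) = algebraMap F Ω x := fun x =>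
    (IsScalarTower.algebraMap_apply F U Ω x).symm
  have hc : ∀ i, algebraMap U Ω ((h.map (algebraMap F U)).coeff i) = algebraMap F Ω (h.coeff i) := by
    intro i
    rw [coeff_map, hFU]
  have htay : ∀ n i, algebraMap U Ω ((taylor (algebraMap F U (e n)) (h.map (algebraMap F U))).coeff i) =
      algebraMap F Ω ((taylor (e n) h).coeff i) := by
    intro n i
    rw [← map_taylor, coeff_map, hFU]
  have hb : algebraMap U Ω (r - algebraMap F U (e (k + 0))) = (r : Ω) - algebraMap F Ω (e k) := by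
    rw [map_sub, hFU]
    rfl
  -- the coefficients in the middle are small
  have hsm : ∀ n i, 0 < i → i < h.natDegree → D.N (algebraMap F Ω ((taylor (e n) h).coeff i)) < 1 := by
    intro n i hi hip
    rcases he.typ with h1 | h1
    · exact (h1 n).2.1 i hi hip
    · rw [(h1 n).1, taylor_zero]
      exact hw.mid i hi hip
  refine ⟨(vv_pos_iff D.N hπ0).2 D.π_lt, natDegree_map _, hw.prime, ?_, ?_, ?_, ?_, ?_, ?_, ?_, ?_, ?_⟩
  · have h1 := hw.odd
    have h2 := hw.prime.two_le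
    rcases h1 with ⟨m, hm⟩
    omega
  · rw [hS]
    exact hw.pN
  · intro i
    rw [hS, hc]
    exact hw.coef i
  · rw [hS, leadingCoeff_map, hFU]
    exact hw.lead
  · intro n
    show S.N (algebraMap U Ω (algebraMap F U (e (k + n)))) ≤ 1
    rw [hS, hFU]
    exact he.int (k + n)
  · intro n i hi hip
    show (taylor (algebraMap F U (e (k + n))) (h.map (algebraMap F U))).coeff i = 0 ∨ vv D.N (algebraMap F Ω D.π) ≤
      vv S.N (algebraMap U Ω ((taylor (algebraMap F U (e (k + n))) (h.map (algebraMap F U))).coeff i))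
    by_cases h0 : (taylor (e (k + n)) h).coeff i = 0
    · left
      have h1 := htay (k + n) i
      rw [h0, map_zero] at h1
      exact (map_eq_zero _).1 h1
    · right
      rw [hS, htay]
      exact vv_ge_pi D h0 (hsm (k + n) i hi hip)
  · show r ≠ algebraMap F U (e (k + 0))
    intro h0
    have h1 : (r : Ω) = algebraMap F Ω (e k) := by
      rw [h0]
      exact hFU (e k)
    rcases he.typ with h2 | h2
    · exact ((h2 k).2.2 _ hr).1 h1
    · have h3 := (h2 k).2 _ hr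
      rw [h1, (h2 k).1, map_zero, map_zero] at h3
      linarith
  · show 9 * (h.natDegree : ℝ) ^ 2 * |vv S.N (algebraMap U Ω (r - algebraMap F U (e (k + 0))))| ≤ _
    rw [hS, hb]
    exact hk
  · rcases he.typ with h1 | h1
    · left
      refine ⟨fun n => ?_, ?_⟩
      · show eval (algebraMap F U (e (k + (n + 1)))) (h.map (algebraMap F U)) = algebraMap F U (e (k + n))
        rw [eval_map_algebraMap, aeval_algebraMap_apply, coe_aeval_eq_eval]
        exact congrArg _ (h1 (k + n)).1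
      · show 0 < vv S.N (algebraMap U Ω (r - algebraMap F U (e (k + 0))))
        rw [hS, hb]
        have h2 := (h1 k).2.2 _ hr
        exact (vv_pos_iff D.N (sub_ne_zero.2 h2.1)).2 h2.2
    · right
      refine ⟨fun n => ?_, ?_⟩
      · show algebraMap F U (e (k + n)) = 0
        rw [(h1 (k + n)).1, map_zero]
      · rw [hS]
        have h2 := (h1 k).2 _ hr
        have h3 : (r : Ω) ≠ 0 := by
          intro h0
          rw [h0, map_zero] at h2
          linarith
        exact (vv_neg_iff D.N h3).2 h2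

end loc

section tree

variable {U Ω : Type*} [Field U] [Field Ω] [Algebra U Ω] [CharZero U] [IsAlgClosed Ω] [Algebra.IsAlgebraic U Ω]

/-- the tree of the local data -/
theorem tree_of {S : SLoc U Ω} {h : U[X]} {p : ℕ} {P : ℝ} {b : U} {e : ℕ → U} (hr : RefU S h p P b e) {D₀ : ℝ}
    (hD : P ≤ ((p : ℝ) - 1) * D₀)
    (hst : ∀ n, ∀ x ∈ Node Ω h b n, Step S.N h p (D₀ - P / (9 * (p : ℝ) ^ 2)) (D₀ + P / (9 * (p : ℝ) ^ 2)) x) :
    ∃ (ψ : Ω → Ω) (δ Δ : ℝ), Tree S h b p ψ δ Δ := by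
  obtain ⟨η, hη⟩ : ∃ η : ℝ, η = P / (9 * (p : ℝ) ^ 2) := ⟨_, rfl⟩
  have hp3 : (3 : ℝ) ≤ p := by exact_mod_cast hr.p3
  have hP := hr.P_pos
  have hp0 : (0 : ℝ) < 9 * (p : ℝ) ^ 2 := by positivity
  have hη0 : 0 < η := by
    rw [hη]
    exact div_pos hP hp0
  have hPη : P = 9 * (p : ℝ) ^ 2 * η := by
    rw [hη]
    field_simp
  -- `D₀` is large
  have hD1 : 9 * (p : ℝ) * η ≤ D₀ := by
    by_contra h1
    have h1' := not_le.1 h1
    have h2 : ((p : ℝ) - 1) * D₀ < ((p : ℝ) - 1) * (9 * (p : ℝ) * η) :=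
      mul_lt_mul_of_pos_left h1' (by linarith)
    have h3 : ((p : ℝ) - 1) * (9 * (p : ℝ) * η) ≤ 9 * (p : ℝ) ^ 2 * η := by nlinarith
    linarith
  have hpη : 3 * η ≤ (p : ℝ) * η := mul_le_mul_of_nonneg_right hp3 hη0.le
  have hs : |vv S.N (algebraMap U Ω (b - e 0))| ≤ η := by
    rw [hη, le_div_iff₀ hp0]
    have := hr.small
    linarith
  have h27 : 9 * (p : ℝ) * η = 9 * ((p : ℝ) * η) := by ring
  obtain ⟨ψ, hψ, hint, hfin⟩ := RefU.fin_of (fun S E _ => exists_unif S E) hr (D₀ + 3 * η) (by linarith)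
  obtain ⟨hup, hlow⟩ := RefU.dist hr hD hst hψ
  rw [← hη] at hup hlow
  -- eventual stability
  have hp0' : (0 : ℝ) < p := by linarith
  have hev : EvStable h b := by
    have hdeg : h.natDegree = p := hr.deg
    refine evst_of_val S h (by rw [hdeg]; exact hr.prime.two_le) b e
      |vv S.N (algebraMap U Ω (b - e 0))| 0 ?_ ?_
    · rcases hr.typ with h1 | h1
      · left
        intro n _ z hz
        obtain ⟨h2, h3⟩ := hr.val n z hz
        refine ⟨h2, ?_⟩
        rw [h3]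
        exact div_pos h1.2 (pow_pos hp0' n)
      · right
        intro n _ z hz
        obtain ⟨h2, h3⟩ := hr.val n z hz
        refine ⟨h2, ?_⟩
        rw [h3, h1.1 0, sub_zero]
        exact div_neg_of_neg_of_pos h1.2 (pow_pos hp0' n)
    · intro n _ z hz
      obtain ⟨h2, h3⟩ := hr.val n z hz
      rw [h3, abs_div, abs_of_pos (pow_pos hp0' n), hdeg, div_mul_cancel₀ _ (pow_pos hp0' n).ne']
  refine ⟨ψ, D₀ - η, D₀ + 3 * η, hr.prime, hr.pN, hr.deg, ?_, by linarith, by linarith, ?_, ?_, hint, hup, hlow,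
    ?_, hfin⟩
  · rcases hψ with h1 | h1
    · exact Or.inl h1
    · exact Or.inr h1.1
  · have h1 : 3 * (D₀ - η) ≤ (p : ℝ) * (D₀ - η) := mul_le_mul_of_nonneg_right hp3 (by linarith)
    linarith
  · intro n x hx
    exact (hst (n + 1) x hx).der
  · exact exists_tran h (by rw [hr.deg]; exact hr.prime.one_le) b hev

end tree

section loc

variable {F Ω : Type*} [Field F] [Field Ω] [Algebra F Ω] [CharZero F] [IsAlgClosed Ω] [Algebra.IsAlgebraic F Ω]

/-- **Y13** with Y7, Y10, Y11 as hypotheses -/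
theorem local_wild_of (D : LocAbs F Ω) (h : F[X]) (hw : WildL D h) (b : F) (e : ℕ → F) (he : Ref D h b e)
    (HT : ∀ (U : IntermediateField F Ω) (S : SLoc U Ω) (h : U[X]) (b : U) (p : ℕ) (ψ : Ω → Ω) (δ Δ : ℝ),
      Tree S h b p ψ δ Δ →
      ∃ m₀ : ℕ, ∀ m, m₀ ≤ m → ∃ A : Ω ≃ₐ[U] Ω, (∀ k, k ≤ m → ∀ x ∈ Node Ω h b k, A x = x) ∧
        ∃ z ∈ Node Ω h b (m + 1), A z ≠ z)
    (HB : ∀ T : Set Ω, T.Finite → ∃ (U : IntermediateField F Ω) (S : SLoc U Ω), T ⊆ U ∧ S.N = D.N)
    (HS : ∃ D₀ : ℝ,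
      vv D.N (algebraMap F Ω D.π) ≤ ((h.natDegree : ℝ) - 1) * D₀ ∧
      ∀ (e : F) (x : Ω), D.N (algebraMap F Ω e) ≤ 1 → x ≠ algebraMap F Ω e → vv D.N (x - algebraMap F Ω e) ≠ 0 →
        9 * (h.natDegree : ℝ) ^ 2 * |vv D.N (x - algebraMap F Ω e)| ≤ vv D.N (algebraMap F Ω D.π) →
        Step D.N h h.natDegree (D₀ - vv D.N (algebraMap F Ω D.π) / (9 * (h.natDegree : ℝ) ^ 2))
          (D₀ + vv D.N (algebraMap F Ω D.π) / (9 * (h.natDegree : ℝ) ^ 2)) x) :
    ∃ k₂ : ℕ, ∀ k, k₂ ≤ k → ∀ r ∈ Node Ω h b k, ∀ T : Set Ω, T.Finite → ∃ m₀ : ℕ, ∀ m, m₀ ≤ m →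
      ∃ A : Ω ≃ₐ[F] Ω, (∀ t ∈ T, A t = t) ∧ A r = r ∧ (∀ k, k ≤ m → ∀ x : Ω, (ev h)^[k] x = r → A x = x) ∧
        ∃ z : Ω, (ev h)^[m + 1] z = r ∧ A z ≠ z := by
  have hp2 := hw.prime.two_le
  have hp0 : (0 : ℝ) < h.natDegree := by
    have : 0 < h.natDegree := by omega
    exact_mod_cast this
  have hπ0 : algebraMap F Ω D.π ≠ 0 := (_root_.map_ne_zero _).2 D.π_ne
  have hP : 0 < vv D.N (algebraMap F Ω D.π) := (vv_pos_iff D.N hπ0).2 D.π_lt
  have h9 : (0 : ℝ) < 9 * (h.natDegree : ℝ) ^ 2 := by positivity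
  obtain ⟨k₂, hk₂⟩ := he.lim (vv D.N (algebraMap F Ω D.π) / (9 * (h.natDegree : ℝ) ^ 2)) (div_pos hP h9)
  obtain ⟨D₀, hD, hstep⟩ := HS
  refine ⟨k₂, fun k hk r hr T hT => ?_⟩
  obtain ⟨U, S, hTU, hS⟩ := HB (insert r T) (hT.insert r)
  have hrU : r ∈ U := hTU (Set.mem_insert r T)
  have hrk : 9 * (h.natDegree : ℝ) ^ 2 * |vv D.N (r - algebraMap F Ω (e k))| ≤ vv D.N (algebraMap F Ω D.π) := by
    have := hk₂ k hk r hr
    rw [le_div_iff₀ h9] at this
    linarith
  have hR := refU_of hw he U S hS ⟨r, hrU⟩ hr hrk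
  have hFU : ∀ x : F, algebraMap U Ω (algebraMap F U x) = algebraMap F Ω x := fun x =>
    (IsScalarTower.algebraMap_apply F U Ω x).symm
  have hb0 : algebraMap U Ω ((⟨r, hrU⟩ : U) - algebraMap F U (e (k + 0))) = r - algebraMap F Ω (e k) := by
    rw [map_sub, hFU]
    rfl
  have : CharZero U := charZero_of_injective_algebraMap (algebraMap F U).injective
  have : Algebra.IsAlgebraic U Ω := Algebra.IsAlgebraic.tower_top (K := F) U
  have hst : ∀ n, ∀ x ∈ Node Ω (h.map (algebraMap F U)) (⟨r, hrU⟩ : U) n, Step S.N (h.map (algebraMap F U))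
      h.natDegree (D₀ - vv D.N (algebraMap F Ω D.π) / (9 * (h.natDegree : ℝ) ^ 2))
      (D₀ + vv D.N (algebraMap F Ω D.π) / (9 * (h.natDegree : ℝ) ^ 2)) x := by
    intro n x hx
    obtain ⟨h1, h2⟩ := hR.val n x hx
    have h1' : x ≠ algebraMap F Ω (e (k + n)) := by
      intro h0
      apply h1
      rw [h0]
      exact (hFU (e (k + n))).symm
    have h2' : vv D.N (x - algebraMap F Ω (e (k + n))) =
        vv D.N (r - algebraMap F Ω (e k)) / (h.natDegree : ℝ) ^ n := by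
      have h3 : vv S.N (x - algebraMap U Ω (algebraMap F U (e (k + n)))) =
          vv S.N (algebraMap U Ω ((⟨r, hrU⟩ : U) - algebraMap F U (e (k + 0)))) / (h.natDegree : ℝ) ^ n := h2
      rw [hb0, hFU, hS] at h3
      exact h3
    have hpn : (1 : ℝ) ≤ (h.natDegree : ℝ) ^ n := by
      have h4 : (1 : ℝ) ≤ h.natDegree := by
        have : 1 ≤ h.natDegree := by omega
        exact_mod_cast this
      exact one_le_pow₀ h4
    have hne0 : vv D.N (r - algebraMap F Ω (e k)) ≠ 0 := by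
      rcases hR.typ with h4 | h4
      · have h5 : 0 < vv S.N (algebraMap U Ω ((⟨r, hrU⟩ : U) - algebraMap F U (e (k + 0)))) := h4.2
        rw [hb0, hS] at h5
        exact h5.ne'
      · have h5 : algebraMap F U (e (k + 0)) = 0 := h4.1 0
        have h6 : e k = 0 := (map_eq_zero _).1 h5
        have h7 := h4.2
        rw [hS] at h7
        have h8 : vv D.N r < 0 := h7
        rw [h6, map_zero, sub_zero]
        exact h8.ne
    rw [hS]
    refine step_mapU (hstep (e (k + n)) x (he.int (k + n)) h1' ?_ ?_)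
    · rw [h2']
      exact div_ne_zero hne0 (by positivity)
    · rw [h2', abs_div, abs_of_pos (lt_of_lt_of_le one_pos hpn)]
      refine le_trans (mul_le_mul_of_nonneg_left (div_le_self (abs_nonneg _) hpn) h9.le) hrk
  obtain ⟨ψ, δ, Δ, hTree⟩ := tree_of hR hD hst
  obtain ⟨m₀, hm₀⟩ := HT U S _ _ _ ψ δ Δ hTree
  refine ⟨m₀, fun m hm => ?_⟩
  obtain ⟨A, hA, z, hz, hzA⟩ := hm₀ m hm
  refine ⟨A.restrictScalars F, ?_, ?_, ?_, z, ?_, hzA⟩
  · intro t ht
    exact A.commutes ⟨t, hTU (Set.mem_insert_of_mem r ht)⟩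
  · exact A.commutes ⟨r, hrU⟩
  · intro j hj x hx
    exact hA j hj x ((node_mapU U h ⟨r, hrU⟩ j x).2 hx)
  · exact (node_mapU U h ⟨r, hrU⟩ (m + 1) z).1 hz

end loc

end Pool.Agent.ORB.WP
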