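import Pool.Agent.ORB.YWild

/-!
ORB, Theorem W, row Y10: the values of the Taylor coefficients in the regime.
-/

set_option autoImplicit false

namespace Pool.Agent.ORB.WP

open Polynomial NI GP NumberField IsDedekindDomain IntermediateField

section na

variable {Ω : Type*} [Field Ω] {N : AbsoluteValue Ω ℝ}

/-- a sum with a dominant term -/
theorem na_dom (hN : ∀ x y : Ω, N (x + y) ≤ max (N x) (N y)) {ι : Type*} (s : Finset ι) (t : ι → Ω)
    {j : ι} (hj : j ∈ s) (h0 : 0 < N (t j)) (h : ∀ i ∈ s, i ≠ j → N (t i) < N (t j)) :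
    N (∑ i ∈ s, t i) = N (t j) := by
  classical
  rw [← Finset.sum_erase_add _ _ hj]
  refine na_add_eq hN (na_sum_lt hN _ _ h0 fun k hk => ?_)
  obtain ⟨hk1, hk2⟩ := Finset.mem_erase.1 hk
  exact h k hk2 hk1

end na

section loc

variable {F Ω : Type*} [Field F] [Field Ω] [Algebra F Ω]

/-- the Taylor coefficients at an integral point -/
theorem taylor_le (D : LocAbs F Ω) {g : F[X]} {B : ℝ} (hB : 0 ≤ B)
    (hg : ∀ i, D.N (algebraMap F Ω (g.coeff i)) ≤ B) {e : F} (he : D.N (algebraMap F Ω e) ≤ 1) (j : ℕ) :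
    D.N (algebraMap F Ω ((taylor e g).coeff j)) ≤ B := by
  rw [taylor_coeff]
  have h1 : algebraMap F Ω ((hasseDeriv j g).eval e) =
      ((hasseDeriv j g).map (algebraMap F Ω)).eval (algebraMap F Ω e) := by
    rw [eval_map, eval₂_at_apply]
  rw [h1]
  refine na_eval_le D.nonarch hB (fun i => ?_) he
  rw [coeff_map, hasseDeriv_coeff, map_mul, map_mul, map_natCast]
  exact (mul_le_of_le_one_left (D.N.nonneg _) (na_nat_le D.nonarch _)).trans (hg _)

/-- values of `F` which are smaller than another value -/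
theorem value_gap (D : LocAbs F Ω) {c m : F} (hm : m ≠ 0)
    (h : D.N (algebraMap F Ω c) < D.N (algebraMap F Ω m)) :
    D.N (algebraMap F Ω c) ≤ D.N (algebraMap F Ω m) * D.N (algebraMap F Ω D.π) := by
  have hπ : 0 < D.N (algebraMap F Ω D.π) := D.N.pos fun h => D.π_ne ((map_eq_zero _).1 h)
  by_cases hc : c = 0
  · rw [hc, map_zero, map_zero]
    exact mul_nonneg (D.N.nonneg _) (D.N.nonneg _)
  · obtain ⟨a, ha⟩ := D.disc c hc
    obtain ⟨b, hb⟩ := D.disc m hm
    rw [ha, hb] at h
    have hab : b < a := by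
      by_contra hcon
      push Not at hcon
      have := zpow_le_zpow_right_of_le_one₀ hπ D.π_lt.le hcon
      linarith
    rw [ha, hb, ← zpow_add_one₀ hπ.ne']
    exact zpow_le_zpow_right_of_le_one₀ hπ D.π_lt.le (by omega)

variable [CharZero F]

/-- **Y10** (the values of the Taylor coefficients in the regime) -/
theorem exists_step (D : LocAbs F Ω) (h : F[X]) (hw : WildL D h) : ∃ D₀ : ℝ,
    vv D.N (algebraMap F Ω D.π) ≤ ((h.natDegree : ℝ) - 1) * D₀ ∧
    ∀ (e : F) (x : Ω), D.N (algebraMap F Ω e) ≤ 1 → x ≠ algebraMap F Ω e → vv D.N (x - algebraMap F Ω e) ≠ 0 →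
      9 * (h.natDegree : ℝ) ^ 2 * |vv D.N (x - algebraMap F Ω e)| ≤ vv D.N (algebraMap F Ω D.π) →
      Step D.N h h.natDegree (D₀ - vv D.N (algebraMap F Ω D.π) / (9 * (h.natDegree : ℝ) ^ 2))
        (D₀ + vv D.N (algebraMap F Ω D.π) / (9 * (h.natDegree : ℝ) ^ 2)) x := by
  classical
  have hcz : CharZero Ω := charZero_of_injective_algebraMap (algebraMap F Ω).injective
  set p : ℕ := h.natDegree with hp
  have hp2 : 2 ≤ p := hw.prime.two_le
  have hp2R : (2 : ℝ) ≤ p := by exact_mod_cast hp2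
  have hN := D.nonarch
  set q : ℝ := D.N (algebraMap F Ω D.π) with hq
  have hq0 : 0 < q := D.N.pos fun h => D.π_ne ((map_eq_zero _).1 h)
  have hq1 : q < 1 := D.π_lt
  set P : ℝ := vv D.N (algebraMap F Ω D.π) with hP
  have hPq : P = -Real.log q := rfl
  have hP0 : 0 < P := by
    rw [hPq]
    have := Real.log_neg hq0 hq1
    linarith
  set g : F[X] := derivative h with hg
  have hgc : ∀ j, g.coeff j = h.coeff (j + 1) * ((j : F) + 1) := fun j => coeff_derivative h j
  have hgdeg : g.natDegree < p := natDegree_derivative_lt (by omega)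
  -- the Gauss norm of the derivative
  obtain ⟨j₁, hj₁, hmax⟩ := (Finset.range p).exists_max_image (fun j => D.N (algebraMap F Ω (g.coeff j)))
    ⟨0, Finset.mem_range.2 (by omega)⟩
  set m : F := g.coeff j₁ with hm
  set μ : ℝ := D.N (algebraMap F Ω m) with hμ
  have hgle : ∀ j, D.N (algebraMap F Ω (g.coeff j)) ≤ μ := by
    intro j
    by_cases hj : j < p
    · exact hmax j (Finset.mem_range.2 hj)
    · rw [coeff_eq_zero_of_natDegree_lt (by omega), map_zero, map_zero]
      exact D.N.nonneg _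
  have htop : D.N (algebraMap F Ω (g.coeff (p - 1))) = D.N ((p : ℕ) : Ω) := by
    rw [hgc]
    have h1 : p - 1 + 1 = p := by omega
    have h2 : ((p - 1 : ℕ) : F) + 1 = (p : F) := by
      rw [← Nat.cast_add_one, h1]
    have h3 : h.coeff p = h.leadingCoeff := rfl
    rw [h1, h2, map_mul, map_mul, map_natCast, h3, hw.lead, one_mul]
  have hμ0 : 0 < μ := by
    refine lt_of_lt_of_le ?_ (hgle (p - 1))
    rw [htop]
    exact D.N.pos (by exact_mod_cast (by omega : p ≠ 0))
  have hm0 : m ≠ 0 := by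
    intro h0
    rw [hμ, h0, map_zero, map_zero] at hμ0
    exact lt_irrefl _ hμ0
  have hμ1 : μ < 1 := by
    have hj₁p : j₁ < p := Finset.mem_range.1 hj₁
    rw [hμ, hm, hgc, map_mul, map_mul]
    have hcast : (algebraMap F Ω ((j₁ : F) + 1)) = ((j₁ + 1 : ℕ) : Ω) := by
      rw [map_add, map_natCast, map_one, Nat.cast_add_one]
    rw [hcast]
    by_cases hj : j₁ + 1 = p
    · rw [hj]
      exact (mul_le_of_le_one_left (D.N.nonneg _) (hw.coef p)).trans_lt hw.pN
    · exact (mul_le_of_le_one_right (D.N.nonneg _) (na_nat_le hN _)).trans_lt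
        (hw.mid (j₁ + 1) (by omega) (by omega))
  have hμq : μ ≤ q := by
    have h1 := value_gap D (c := m) (m := 1) one_ne_zero (by rw [map_one, map_one]; exact hμ1)
    rw [map_one, map_one, one_mul] at h1
    exact h1
  have hp1 : (0 : ℝ) < (p : ℝ) - 1 := by linarith
  set D₀ : ℝ := -Real.log μ / ((p : ℝ) - 1) with hD₀
  have hD₀μ : ((p : ℝ) - 1) * D₀ = -Real.log μ := mul_div_cancel₀ _ hp1.ne'
  have hPD : P ≤ ((p : ℝ) - 1) * D₀ := by
    rw [hD₀μ, hPq]
    have := Real.log_le_log hμ0 hμq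
    linarith
  refine ⟨D₀, hPD, fun e x he hxe hv0 hv => ?_⟩
  set t : Ω := x - algebraMap F Ω e with ht
  have ht0 : t ≠ 0 := sub_ne_zero.2 hxe
  set T : ℝ := D.N t with hT
  have hT0 : 0 < T := D.N.pos ht0
  set η : ℝ := P / (9 * (p : ℝ) ^ 2) with hη
  have hp9 : (0 : ℝ) < 9 * (p : ℝ) ^ 2 := by positivity
  have hη0 : 0 < η := div_pos hP0 hp9
  have hvv : vv D.N t = -Real.log T := rfl
  have hTη : |Real.log T| ≤ η := by
    rw [hη, le_div_iff₀ hp9, mul_comm]
    rw [hvv, abs_neg] at hv
    exact hv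
  have hlog0 : Real.log T ≠ 0 := by
    rw [hvv] at hv0
    exact fun h => hv0 (by rw [h, neg_zero])
  have hT1 : T ≠ 1 := fun h => hlog0 (by rw [h, Real.log_one])
  have hηP : (p : ℝ) * η < P := by
    have h1 : (p : ℝ) * η = P / (9 * (p : ℝ)) := by
      rw [hη]
      field_simp
    rw [h1, div_lt_iff₀ (by positivity)]
    nlinarith
  -- the Taylor coefficients of the derivative at `e`
  set c : ℕ → F := fun j => (taylor e g).coeff j with hc
  have hcle : ∀ j, D.N (algebraMap F Ω (c j)) ≤ μ := fun j => taylor_le D hμ0.le hgle he j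
  have hcdeg : (taylor e g).natDegree < p := by
    rw [natDegree_taylor]
    exact hgdeg
  have hex : ∃ j, j < p ∧ D.N (algebraMap F Ω (c j)) = μ := by
    by_contra hcon
    push Not at hcon
    have h1 : ∀ j, D.N (algebraMap F Ω ((taylor e g).coeff j)) ≤ μ * q := by
      intro j
      by_cases hj : j < p
      · exact value_gap D hm0 (lt_of_le_of_ne (hcle j) (hcon j hj))
      · rw [coeff_eq_zero_of_natDegree_lt (by omega), map_zero, map_zero]
        positivity
    have h2 := taylor_le D (by positivity) h1 (e := -e) (by rw [map_neg, D.N.map_neg]; exact he) j₁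
    rw [taylor_taylor, neg_add_cancel, taylor_zero] at h2
    have h3 : μ * q < μ := mul_lt_of_lt_one_right hμ0 hq1
    exact absurd h2 (not_le.2 h3)
  -- the derivative at `x`
  have hsum : aeval x g = ∑ j ∈ Finset.range p, algebraMap F Ω (c j) * t ^ j := by
    have h1 : aeval x g = ((taylor e g).map (algebraMap F Ω)).eval t := by
      rw [map_taylor, taylor_eval, ht, sub_add_cancel, eval_map, aeval_def]
    rw [h1, eval_eq_sum_range' (n := p) (by rw [natDegree_map]; exact hcdeg)]
    exact Finset.sum_congr rfl fun j _ => by rw [coeff_map]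
  have hterm : ∀ j, D.N (algebraMap F Ω (c j) * t ^ j) = D.N (algebraMap F Ω (c j)) * T ^ j := by
    intro j
    rw [map_mul, map_pow]
  have hsmallq : ∀ j, j < p → D.N (algebraMap F Ω (c j)) ≠ μ → D.N (algebraMap F Ω (c j)) ≤ μ * q :=
    fun j _ hne => value_gap D hm0 (lt_of_le_of_ne (hcle j) hne)
  -- `q < T ^ j` and `q T ^ j < 1`
  have hlogpow : ∀ j : ℕ, j ≤ p → |Real.log (T ^ j)| < P := by
    intro j hj
    rw [Real.log_pow, abs_mul, Nat.abs_cast]
    calc (j : ℝ) * |Real.log T| ≤ p * η := by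
          refine mul_le_mul (by exact_mod_cast hj) hTη (abs_nonneg _) (by positivity)
      _ < P := hηP
  have hqlt : ∀ j : ℕ, j ≤ p → q < T ^ j := by
    intro j hj
    have h1 := (abs_lt.1 (hlogpow j hj)).1
    rw [hPq] at h1
    rw [← Real.log_lt_log_iff hq0 (pow_pos hT0 j)]
    linarith
  have hqlt' : ∀ j : ℕ, j ≤ p → q * T ^ j < 1 := by
    intro j hj
    have h1 := (abs_lt.1 (hlogpow j hj)).2
    rw [hPq] at h1
    have h2 : Real.log (q * T ^ j) < Real.log 1 := by
      rw [Real.log_mul hq0.ne' (pow_pos hT0 j).ne', Real.log_one]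
      linarith
    exact (Real.log_lt_log_iff (mul_pos hq0 (pow_pos hT0 j)) one_pos).1 h2
  have hval : ∃ j, j < p ∧ D.N (aeval x g) = μ * T ^ j := by
    rcases lt_or_gt_of_ne hT1 with hlt | hgt
    · -- the least index
      set j₀ := Nat.find hex with hj₀
      obtain ⟨hj₀p, hj₀v⟩ : j₀ < p ∧ D.N (algebraMap F Ω (c j₀)) = μ := Nat.find_spec hex
      have hmin : ∀ j, j < j₀ → D.N (algebraMap F Ω (c j)) ≠ μ := fun j hj h1 =>
        Nat.find_min hex hj ⟨by omega, h1⟩
      refine ⟨j₀, hj₀p, ?_⟩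
      rw [hsum, na_dom hN (Finset.range p) (fun j => algebraMap F Ω (c j) * t ^ j)
        (Finset.mem_range.2 hj₀p) (by rw [hterm, hj₀v]; positivity), hterm, hj₀v]
      intro j hj hne
      rw [hterm, hterm, hj₀v]
      rw [Finset.mem_range] at hj
      rcases lt_or_gt_of_ne hne with h1 | h1
      · calc D.N (algebraMap F Ω (c j)) * T ^ j ≤ μ * q * 1 :=
              mul_le_mul (hsmallq j hj (hmin j h1)) (pow_le_one₀ hT0.le hlt.le) (by positivity)
                (by positivity)
          _ = μ * q := mul_one _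
          _ < μ * T ^ j₀ := mul_lt_mul_of_pos_left (hqlt j₀ hj₀p.le) hμ0
      · calc D.N (algebraMap F Ω (c j)) * T ^ j ≤ μ * T ^ j :=
              mul_le_mul_of_nonneg_right (hcle j) (by positivity)
          _ < μ * T ^ j₀ := mul_lt_mul_of_pos_left (pow_lt_pow_right_of_lt_one₀ hT0 hlt h1) hμ0
    · -- the largest index
      have hex' : ∃ j ∈ (Finset.range p).filter (fun j => D.N (algebraMap F Ω (c j)) = μ),
          ∀ i ∈ (Finset.range p).filter (fun j => D.N (algebraMap F Ω (c j)) = μ), i ≤ j := by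
        obtain ⟨j, hj, hjv⟩ := hex
        exact Finset.exists_max_image _ id ⟨j, Finset.mem_filter.2 ⟨Finset.mem_range.2 hj, hjv⟩⟩
      obtain ⟨j₀, hj₀, hmax'⟩ := hex'
      obtain ⟨hj₀p', hj₀v⟩ := Finset.mem_filter.1 hj₀
      have hj₀p : j₀ < p := Finset.mem_range.1 hj₀p'
      refine ⟨j₀, hj₀p, ?_⟩
      rw [hsum, na_dom hN (Finset.range p) (fun j => algebraMap F Ω (c j) * t ^ j)
        hj₀p' (by rw [hterm, hj₀v]; positivity), hterm, hj₀v]
      intro j hj hne
      rw [hterm, hterm, hj₀v]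
      have hj' := Finset.mem_range.1 hj
      rcases lt_or_gt_of_ne hne with h1 | h1
      · calc D.N (algebraMap F Ω (c j)) * T ^ j ≤ μ * T ^ j :=
              mul_le_mul_of_nonneg_right (hcle j) (by positivity)
          _ < μ * T ^ j₀ := mul_lt_mul_of_pos_left (pow_lt_pow_right₀ hgt h1) hμ0
      · have hne' : D.N (algebraMap F Ω (c j)) ≠ μ := fun h2 => by
          have := hmax' j (Finset.mem_filter.2 ⟨hj, h2⟩)
          omega
        calc D.N (algebraMap F Ω (c j)) * T ^ j ≤ μ * q * T ^ j :=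
              mul_le_mul_of_nonneg_right (hsmallq j hj' hne') (by positivity)
          _ = μ * (q * T ^ j) := by ring
          _ < μ * 1 := mul_lt_mul_of_pos_left (hqlt' j hj'.le) hμ0
          _ ≤ μ * T ^ j₀ := mul_le_mul_of_nonneg_left (one_le_pow₀ hgt.le) hμ0.le
  obtain ⟨j₀, hj₀, hval⟩ := hval
  have hder : aeval x g ≠ 0 := by
    intro h0
    rw [h0, map_zero] at hval
    have : 0 < μ * T ^ j₀ := by positivity
    linarith
  have hvder : vv D.N (aeval x g) = ((p : ℝ) - 1) * D₀ - j₀ * Real.log T := by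
    rw [vv, hval, Real.log_mul hμ0.ne' (pow_pos hT0 _).ne', Real.log_pow, hD₀μ]
    ring
  have hj₀R : (j₀ : ℝ) ≤ (p : ℝ) - 1 := by
    have : j₀ + 1 ≤ p := hj₀
    have h1 : ((j₀ + 1 : ℕ) : ℝ) ≤ p := by exact_mod_cast this
    push_cast at h1
    linarith
  have hbd : |(j₀ : ℝ) * Real.log T| ≤ ((p : ℝ) - 1) * η := by
    rw [abs_mul, Nat.abs_cast]
    exact mul_le_mul hj₀R hTη (abs_nonneg _) hp1.le
  obtain ⟨hb1, hb2⟩ := abs_le.1 hbd
  refine ⟨?_, hder, ?_, ?_, ?_⟩
  · -- the top coefficient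
    have h1 : (h.map (algebraMap F Ω)).natDegree = p := natDegree_map _
    have h2 : (taylor x (h.map (algebraMap F Ω))).coeff p = algebraMap F Ω h.leadingCoeff := by
      conv_lhs => rw [← h1]
      rw [coeff_taylor_natDegree, leadingCoeff_map]
    rw [h2]
    exact hw.lead
  · rw [hvder]
    nlinarith
  · rw [hvder]
    nlinarith
  · -- the middle coefficients
    intro i hi1 hip
    by_cases h0 : (taylor x (h.map (algebraMap F Ω))).coeff i = 0
    · exact Or.inl h0
    right
    set X1 : ℝ := max 1 T with hX1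
    have hX11 : 1 ≤ X1 := le_max_left _ _
    have hxX : D.N x ≤ X1 := by
      have h1 : x = t + algebraMap F Ω e := by rw [ht]; ring
      rw [h1]
      refine (hN _ _).trans (max_le (le_max_right _ _) (he.trans hX11))
    have hXlog : Real.log X1 ≤ η := by
      rcases le_total 1 T with h1 | h1
      · rw [hX1, max_eq_right h1]
        exact (le_abs_self _).trans hTη
      · rw [hX1, max_eq_left h1, Real.log_one]
        exact hη0.le
    have hiN : D.N ((i : ℕ) : Ω) = 1 := by
      have h1 := na_int_unit hN hw.prime hw.pN (k := (i : ℤ)) (by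
        rw [Int.natCast_dvd_natCast]
        intro hdvd
        have := Nat.le_of_dvd (by omega) hdvd
        omega)
      rwa [Int.cast_natCast] at h1
    have hcoef : ∀ k, D.N (((hasseDeriv i h).map (algebraMap F Ω)).coeff k) ≤ μ := by
      intro k
      rw [coeff_map, hasseDeriv_coeff, map_mul, map_natCast, map_mul]
      -- `i * binom(k + i, i) = (k + i) * binom(k + i - 1, i - 1)`
      obtain ⟨i', rfl⟩ : ∃ i', i = i' + 1 := ⟨i - 1, by omega⟩
      have h1 : (k + (i' + 1)) * (k + i').choose i' = (k + (i' + 1)).choose (i' + 1) * (i' + 1) := by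
        have := Nat.add_one_mul_choose_eq (k + i') i'
        rw [show k + (i' + 1) = k + i' + 1 by ring]
        exact this
      have h2 : D.N (((k + (i' + 1)).choose (i' + 1) : ℕ) : Ω) * 1 =
          D.N ((k + (i' + 1) : ℕ) : Ω) * D.N (((k + i').choose i' : ℕ) : Ω) := by
        rw [← hiN, ← map_mul, ← map_mul, ← Nat.cast_mul, ← Nat.cast_mul, h1]
      rw [mul_one] at h2
      have h3 := hgle (k + i')
      rw [hgc, map_mul, map_mul] at h3
      have h4 : algebraMap F Ω (((k + i' : ℕ) : F) + 1) = ((k + (i' + 1) : ℕ) : Ω) := by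
        rw [map_add, map_natCast, map_one]
        push_cast
        ring
      rw [h4] at h3
      have h5 : k + i' + 1 = k + (i' + 1) := by ring
      rw [h5] at h3
      rw [h2]
      calc D.N ((k + (i' + 1) : ℕ) : Ω) * D.N (((k + i').choose i' : ℕ) : Ω) *
            D.N (algebraMap F Ω (h.coeff (k + (i' + 1))))
          = D.N (((k + i').choose i' : ℕ) : Ω) * (D.N (algebraMap F Ω (h.coeff (k + (i' + 1)))) *
            D.N ((k + (i' + 1) : ℕ) : Ω)) := by ring
        _ ≤ 1 * μ := mul_le_mul (na_nat_le hN _) h3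
            (mul_nonneg (D.N.nonneg _) (D.N.nonneg _)) zero_le_one
        _ = μ := one_mul _
    have hle : D.N ((taylor x (h.map (algebraMap F Ω))).coeff i) ≤ μ * X1 ^ (p - i) := by
      have h1 : hasseDeriv i (h.map (algebraMap F Ω)) = (hasseDeriv i h).map (algebraMap F Ω) := by
        ext k
        rw [hasseDeriv_coeff, coeff_map, coeff_map, hasseDeriv_coeff, map_mul, map_natCast]
      rw [taylor_coeff, h1, eval_eq_sum_range]
      refine na_sum_le hN _ _ (by positivity) fun k hk => ?_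
      rw [map_mul, map_pow]
      have hdeg : ((hasseDeriv i h).map (algebraMap F Ω)).natDegree ≤ p - i := by
        rw [natDegree_map]
        exact natDegree_hasseDeriv_le h i
      have hk' : k ≤ p - i := by
        rw [Finset.mem_range] at hk
        omega
      refine mul_le_mul (hcoef k) ?_ (by positivity) hμ0.le
      calc D.N x ^ k ≤ X1 ^ k := pow_le_pow_left₀ (D.N.nonneg _) hxX k
        _ ≤ X1 ^ (p - i) := pow_le_pow_right₀ hX11 hk'
    have hcp : 0 < D.N ((taylor x (h.map (algebraMap F Ω))).coeff i) := D.N.pos h0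
    have hlog := Real.log_le_log hcp hle
    rw [Real.log_mul hμ0.ne' (by positivity), Real.log_pow, Nat.cast_sub hip.le] at hlog
    have hvi : ((p : ℝ) - 1) * D₀ - ((p : ℝ) - i) * η ≤
        vv D.N ((taylor x (h.map (algebraMap F Ω))).coeff i) := by
      rw [vv, hD₀μ]
      have hpi : (0 : ℝ) ≤ (p : ℝ) - i := by
        have : (i : ℝ) ≤ p := by exact_mod_cast hip.le
        linarith
      have := mul_le_mul_of_nonneg_left hXlog hpi
      linarith
    refine lt_of_lt_of_le ?_ hvi
    have hi2 : (2 : ℝ) ≤ i := by exact_mod_cast hi1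
    have hD0 : P / ((p : ℝ) - 1) ≤ D₀ := by
      rw [div_le_iff₀ hp1, mul_comm]
      exact hPD
    have hD00 : 0 ≤ D₀ := (div_nonneg hP0.le hp1.le).trans hD0
    have h2η : 2 * ((p : ℝ) - i) * η < D₀ := by
      refine lt_of_lt_of_le ?_ hD0
      rw [hη, lt_div_iff₀ hp1, ← mul_div_assoc, div_mul_eq_mul_div, div_lt_iff₀ hp9]
      have h1 : 2 * ((p : ℝ) - i) * P * ((p : ℝ) - 1) ≤ 2 * (p : ℝ) * P * p := by
        have h3 : (p : ℝ) - i ≤ p := by linarith
        have h4 : (p : ℝ) - 1 ≤ p := by linarith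
        have h5 : 2 * ((p : ℝ) - i) * P ≤ 2 * (p : ℝ) * P := by nlinarith
        have h6 : 0 ≤ 2 * (p : ℝ) * P := by positivity
        nlinarith
      nlinarith
    nlinarith

end loc

end Pool.Agent.ORB.WP
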