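import Pool.Agent.ORB.YTreeC
import Pool.Agent.ORB.YLocal
import Pool.Agent.ORB.YStep
import Pool.Agent.ORB.YBase
import Pool.Agent.ORB.YBase2
import Pool.Agent.ORB.YGlob
import Pool.Agent.ORB.YExt
import Pool.Agent.ORB.TDatum

/-!
ORB, Theorem W: the closed statements.
-/

set_option autoImplicit false

namespace Pool.Agent.ORB.WP

open Polynomial NI GP NumberField IsDedekindDomain IntermediateField

universe u

/-- **Y11** (the base field) -/
theorem exists_base {F Ω : Type*} [Field F] [Field Ω] [Algebra F Ω] [CharZero F] [IsAlgClosed Ω]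
    [Algebra.IsAlgebraic F Ω] (D : LocAbs F Ω) (T : Set Ω) (hT : T.Finite) :
    ∃ (U : IntermediateField F Ω) (S : SLoc U Ω), T ⊆ U ∧ S.N = D.N :=
  exists_base_of D (exists_sloc D) T hT

/-- **Y13** (local theorem) -/
theorem local_wild {F Ω : Type*} [Field F] [Field Ω] [Algebra F Ω] [CharZero F] [IsAlgClosed Ω]
    [Algebra.IsAlgebraic F Ω] (D : LocAbs F Ω) (h : F[X]) (hw : WildL D h) (b : F) (e : ℕ → F) (he : Ref D h b e) :
    ∃ k₂ : ℕ, ∀ k, k₂ ≤ k → ∀ r ∈ Node Ω h b k, ∀ T : Set Ω, T.Finite → ∃ m₀ : ℕ, ∀ m, m₀ ≤ m →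
      ∃ A : Ω ≃ₐ[F] Ω, (∀ t ∈ T, A t = t) ∧ A r = r ∧ (∀ k, k ≤ m → ∀ x : Ω, (ev h)^[k] x = r → A x = x) ∧
        ∃ z : Ω, (ev h)^[m + 1] z = r ∧ A z ≠ z := by
  refine local_wild_of D h hw b e he ?_ (exists_base D) (exists_step D h hw)
  intro U S g c p ψ δ Δ hT
  have i1 : CharZero U := charZero_of_injective_algebraMap (algebraMap F U).injective
  have i2 : Algebra.IsAlgebraic U Ω := Algebra.IsAlgebraic.tower_top (K := F) U
  exact hT.last

/-- **Y15a** -/
theorem wild_move {F W : Type u} [Field F] [NumberField F] [Field W] [Algebra F W] [IsAlgClosed W]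
    [Algebra.IsAlgebraic F W] (h : F[X]) (hw : WildT h) (b : F)
    (hb : ∀ n, 1 ≤ n → (fun x => eval x h)^[n] b ≠ b) :
    ∃ k₂ : ℕ, ∀ k, k₂ ≤ k → ∀ r ∈ Node W h b k, ∀ T : Set W, T.Finite → ∃ m₀ : ℕ, ∀ m, m₀ ≤ m →
      ∃ A : W ≃ₐ[F] W, (∀ t ∈ T, A t = t) ∧ A r = r ∧ (∀ k, k ≤ m → ∀ x : W, (ev h)^[k] x = r → A x = x) ∧
        ∃ z : W, (ev h)^[m + 1] z = r ∧ A z ≠ z :=
  wild_move_of (fun _ _ _ _ _ _ _ _ D h hw b e he => local_wild D h hw b e he) h hw b hb

/-- **Y16** -/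
theorem extR_wild {F W : Type u} [Field F] [NumberField F] [Field W] [Algebra F W] [IsAlgClosed W]
    [Algebra.IsAlgebraic F W] (h : F[X]) (hc : CritCond h W) (b : F)
    (hb : Function.Injective fun n : ℕ => (fun x => eval x h)^[n] b) (hw : WildT h) :
    ExtR W (polyRP h) (b : OnePoint F) :=
  extR_wild_of h hc b hb hw (hw.locT b) (fun hper => wild_move h hw b hper)
    (fun r hav htr hm => ft_of_move h hw.1 r hav htr hm)

/-- over a finite extension `K1` of `K` the map `f` is conjugate by a linear fractional map `μ` to an iterate of a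
polynomial `h` whose critical points are in general position, and `h` satisfies `WildT`; `b` is the point which
corresponds to `β` -/
def WildConj {K : Type u} [Field K] [NumberField K] (f : RatFunc K) (β : OnePoint K) : Prop :=
  ∃ (K1 : Type u) (_ : Field K1) (_ : NumberField K1) (_ : Algebra K K1) (h : K1[X]) (k : ℕ)
    (μ : RatFunc K1) (b : K1), 1 ≤ k ∧ rdeg μ = 1 ∧
    (∀ x : OnePoint K1, ract (algebraMap K K1) f (ract (RingHom.id K1) μ x) =
      ract (RingHom.id K1) μ ((ract (RingHom.id K1) (algebraMap K1[X] (RatFunc K1) h))^[k] x)) ∧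
    ract (RingHom.id K1) μ (b : OnePoint K1) = OnePoint.map (algebraMap K K1) β ∧
    CritCond h (AlgebraicClosure K1) ∧ WildT h

/-- the datum -/
theorem hasDatum_wild {K : Type u} [Field K] [NumberField K] (f : RatFunc K) (β : OnePoint K)
    (hβ : Function.Injective fun n : ℕ => (ract (RingHom.id K) f)^[n] β) (h : WildConj f β) :
    HasDatum f β := by
  refine hasDatum_cnd_of (fun L _ _ h _ => WildT h) (fun L L' _ _ _ _ _ h b hc => hc.ext)
    (fun F W _ _ _ _ _ _ h hd hcr b hb hc => extR_wild h hcr b hb hc) f β hβ ?_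
  obtain ⟨K1, i1, i2, i3, g, k, μ, b, hk, hμ, hconj, hb, hcrit, ht⟩ := h
  exact ⟨K1, i1, i2, i3, g, k, μ, b, ht.1.two_le, hk, hμ, hconj, hb, hcrit, ht⟩

end Pool.Agent.ORB.WP
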