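import Pool.Agent.ORB.SpecG
import Pool.Agent.ORB.SpecBridge
import Pool.Agent.ORB.GFinal
import Pool.Agent.ORB.UFinalZ
import Pool.Agent.ORB.EClose
import Pool.Agent.ORB.YClose

/-!
ORB: the main theorem with the polynomials with critical points in general position, in terms of the definitions of
`Spec.lean` and `SpecG.lean`.
-/

namespace Pool.Agent.ORB.Spec

open NumberField IsDedekindDomain Polynomial Pool.Agent.ORB.GP

universe u

theorem CritGeneral.old {K : Type*} [Field K] {h : K[X]} {Ω : Type*} [Field Ω] [Algebra K Ω]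
    (hc : CritGeneral h Ω) : CritCond h Ω :=
  ⟨hc.1, hc.2.1, hc.2.2⟩

theorem CritGeneral2.old {K : Type*} [Field K] {h : K[X]} {Ω : Type*} [Field Ω] [Algebra K Ω]
    (hc : CritGeneral2 h Ω) : CritCond2 h Ω :=
  ⟨hc.1, hc.2.1, hc.2.2.1, hc.2.2.2⟩

/-- the hypotheses: rows G9, G6b and T5 -/
structure Rows (K : Type u) [Field K] [NumberField K] : Prop where
  gen : ∀ (f : RatFunc K) (β : OnePoint K),
      (Function.Injective fun n : ℕ => (Pool.Agent.ORB.ract (RingHom.id K) f)^[n] β) → GenConj f β → HasDatum f β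
  ext : ∀ (L L' : Type u) [Field L] [CharZero L] [Field L'] [Algebra L L'] [FiniteDimensional L L']
      (h : L[X]) (_ : 1 ≤ h.natDegree) (b : L) (_ : EvStable h b),
      EvStable (h.map (algebraMap L L')) (algebraMap L L' b)
  odd : ∀ (f : RatFunc K) (β : OnePoint K),
      (Function.Injective fun n : ℕ => (Pool.Agent.ORB.ract (RingHom.id K) f)^[n] β) → OddConj f β → HasDatum f β

theorem LocalStable.old {K : Type*} [Field K] [NumberField K] {h : K[X]} {b : K} (hl : LocalStable h b) :
    LocT h b := hl

theorem StableConj.datum {K : Type u} [Field K] [NumberField K] (R : Rows K) {f : RatFunc K} {β : OnePoint K}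
    (hβ : Function.Injective fun n : ℕ => (Pool.Agent.ORB.ract (RingHom.id K) f)^[n] β) (h : StableConj f β) :
    HasDatum f β := by
  obtain ⟨K1, i1, i2, i3, g, k, μ, b, ⟨⟨h1, h2, h3⟩ | ⟨d, c, rfl, hd, h0⟩, h8⟩ |
    ⟨h1, ⟨h2, h3⟩ | h3, v, hv, hl⟩ | ⟨hw, hc⟩, h4, h5, h6, h7⟩ := h
  · exact R.gen f β hβ ⟨K1, i1, i2, i3, g, k, μ, b, h1, h2, h4, h5, h6, h7, h3.old,
      h8.imp id LocalStable.old⟩
  · have hw := Pool.Agent.ORB.wand_of_conj hβ h4 h6 h7
    have hw' : Function.Injective fun n : ℕ => (fun x => eval x (X ^ d + C c : K1[X]))^[n] b := by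
      have hp : 1 ≤ (X ^ d + C c : K1[X]).natDegree := by
        rw [natDegree_X_pow_add_C]
        exact hd.one_lt.le
      have h9 : Pool.Agent.ORB.ract (RingHom.id K1) (algebraMap K1[X] (RatFunc K1) (X ^ d + C c)) =
          Pool.Agent.ORB.pact ((X ^ d + C c : K1[X]).map (RingHom.id K1)) :=
        Pool.Agent.ORB.ract_polynomial (RingHom.id K1) _ hp
      intro m n hmn
      apply hw
      simp only at hmn ⊢
      rw [h9, Polynomial.map_id, Pool.Agent.ORB.pact_iterate_coe, Pool.Agent.ORB.pact_iterate_coe, hmn]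
    have hst : EvStable (X ^ d + C c : K1[X]) b := by
      rcases h8 with h8 | h8
      · exact h8
      · refine EvStable.of_loc ?_ (fun n hn he => ?_) h8.old
        · rw [natDegree_X_pow_add_C]
          exact hd.two_le
        · have h10 : (fun n : ℕ => (fun x => eval x (X ^ d + C c : K1[X]))^[n] b) n =
            (fun n : ℕ => (fun x => eval x (X ^ d + C c : K1[X]))^[n] b) 0 := he
          have := hw' h10
          omega
    refine hasDatum_uni (Pool.Agent.ORB.uniCondZ_good R.ext) f β hβ
      ⟨K1, i1, i2, i3, d, c, k, μ, b, hd.one_lt.le, h4, h5, fun x => ?_, h7, hd, h0, hst⟩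
    rw [Pool.Agent.ORB.uni_poly]
    exact h6 x
  · exact R.odd f β hβ ⟨K1, i1, i2, i3, g, k, μ, b, h1, h2, h4, h5, h6, h7, h3.old, v, hl.1, hl.2.1, hv, hl.2.2⟩
  · exact hasDatum_all f β hβ ⟨K1, i1, i2, i3, g, k, μ, b, h1, h4, h5, h6, h7, h3.old, v, hl.1, hl.2.1, hv, hl.2.2⟩
  · exact Pool.Agent.ORB.WP.hasDatum_wild f β hβ ⟨K1, i1, i2, i3, g, k, μ, b, h4, h5, h6, h7, hc.old, hw⟩

theorem free_indices_gen_of {K : Type u} [Field K] [NumberField K] (R : Rows K)
    {ι J : Type} [Finite ι] [Finite J]
    (f : ι → RatFunc K) (hf : ∀ i, 2 ≤ rdeg (f i)) (α β : ι → OnePoint K)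
    (hαβ : ∀ i n, (ract (RingHom.id K) (f i))^[n] (α i) ≠ β i) (Q A : Set ι)
    (hQ : ∀ i ∈ Q, Preper (f i) (α i) ∨ Preper (f i) (β i) ∨ Unicritical (f i) (β i) ∨ StableConj (f i) (β i))
    (hA : ∀ i ∈ A, ∃ v : HeightOneSpectrum (𝓞 K), ExcMod v (f i) (β i) ∧ ∀ j, j ∉ Q → GoodTame v (f j))
    (blk : ι → J) (E : J → ℕ) (hE : ∀ j j', j ≠ j' → Nat.Coprime (E j) (E j'))
    (hexp : ∀ i, i ∉ Q → i ∉ A → HasExp (E (blk i)) (f i))
    (hblk : ∀ j, OrbitBlock (fun i : {i // (i ∉ Q ∧ i ∉ A) ∧ blk i = j} => f i.1)
        (fun i : {i // (i ∉ Q ∧ i ∉ A) ∧ blk i = j} => β i.1) ∨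
      PrimeBlock (fun i : {i // (i ∉ Q ∧ i ∉ A) ∧ blk i = j} => f i.1)
        (fun i : {i // (i ∉ Q ∧ i ∉ A) ∧ blk i = j} => β i.1) ∨
      ∀ i, i ∉ Q → i ∉ A → blk i = j → TorusMap (algebraMap K (AlgebraicClosure K)) (f i)) :
    PosDensity (AvoidSet f α β) :=
  thmBED f hf α β hαβ Q A (fun i hi => by
    rcases hQ i hi with h | h
    · exact Or.inl h
    · right
      by_cases hβ : Function.Injective fun n : ℕ => (Pool.Agent.ORB.ract (RingHom.id K) (f i))^[n] (β i)
      · rcases h with h | h | h
        · exact absurd hβ h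
        · exact Or.inr (hasDatum_uni Pool.Agent.ORB.uniCondY_good _ _ hβ (unicritical_old h))
        · exact Or.inr (h.datum R hβ)
      · exact Or.inl hβ) hA blk E hE (fun i h1 h2 => (hexp i h1 h2).old) hblk

/-- if the degree of `h` is a power of `p`, and `h` is congruent to `a x ^ (p ^ k) + c` modulo a prime above `p`, then
all pairs `(h, b)` satisfy the local condition -/
theorem localStable_of_pow {L : Type u} [Field L] [NumberField L] {h : L[X]} (hd : 2 ≤ h.natDegree) {p k : ℕ}
    (hp : p.Prime) (hk : h.natDegree = p ^ k) (v : HeightOneSpectrum (𝓞 L)) (hv : v.valuation L (p : L) < 1)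
    (h1 : v.valuation L h.leadingCoeff = 1) (h2 : ∀ i, 0 < i → i < h.natDegree → v.valuation L (h.coeff i) < 1)
    (h3 : v.valuation L (h.coeff 0) ≤ 1) (b : L) : LocalStable h b :=
  LocT.of_pow hd hp hk v hv h1 h2 h3 b

theorem rdeg_X' (L : Type*) [Field L] : rdeg (RatFunc.X : RatFunc L) = 1 := by
  unfold rdeg
  rw [RatFunc.num_X, RatFunc.denom_X, natDegree_X, natDegree_one]
  rfl

theorem ract_X' {L : Type*} [Field L] (x : OnePoint L) : ract (RingHom.id L) (RatFunc.X : RatFunc L) x = x := by
  have h1 : Pool.Agent.ORB.ract (RingHom.id L) (RatFunc.X : RatFunc L) = Pool.Agent.ORB.pact ((X : L[X]).map (RingHom.id L)) := by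
    rw [← RatFunc.algebraMap_X]
    exact Pool.Agent.ORB.ract_polynomial (RingHom.id L) X (by rw [natDegree_X])
  have h2 : ract (RingHom.id L) (RatFunc.X : RatFunc L) x = Pool.Agent.ORB.ract (RingHom.id L) (RatFunc.X : RatFunc L) x := rfl
  rw [h2, h1]
  induction x using OnePoint.rec with
  | infty => rfl
  | coe a =>
    rw [Pool.Agent.ORB.pact_coe, Polynomial.map_id, eval_X]

/-- the trinomials `x ^ p + p a x + c` -/
noncomputable def tri {L : Type*} [Field L] (p : ℕ) (a c : L) : L[X] := X ^ p + C ((p : L) * a) * X + C c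

theorem tri_natDegree {L : Type*} [Field L] {p : ℕ} (hp : 2 ≤ p) (a c : L) : (tri p a c).natDegree = p := by
  unfold tri
  have h1 : (C ((p : L) * a) * X + C c : L[X]).natDegree ≤ 1 := by
    refine (natDegree_add_le _ _).trans (max_le ?_ ?_)
    · exact (natDegree_C_mul_le _ _).trans natDegree_X_le
    · rw [natDegree_C]
      exact zero_le_one
  rw [add_assoc, natDegree_add_eq_left_of_natDegree_lt, natDegree_X_pow]
  rw [natDegree_X_pow]
  omega

theorem tri_coeff {L : Type*} [Field L] {p : ℕ} (a c : L) (i : ℕ) :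
    (tri p a c).coeff i = (if i = p then 1 else 0) + (if i = 1 then (p : L) * a else 0) + (if i = 0 then c else 0) := by
  unfold tri
  rw [coeff_add, coeff_add, coeff_X_pow, coeff_C_mul, coeff_X, coeff_C]
  congr 2
  by_cases h : i = 1
  · rw [if_pos h, if_pos h.symm, mul_one]
  · rw [if_neg h, if_neg (Ne.symm h), mul_zero]

theorem tri_der {L : Type*} [Field L] (p : ℕ) (a c : L) :
    derivative (tri p a c) = C (p : L) * X ^ (p - 1) + C ((p : L) * a) := by
  unfold tri
  rw [derivative_add, derivative_add, derivative_X_pow, derivative_C_mul_X, derivative_C, add_zero]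

theorem tri_der2 {L : Type*} [Field L] (p : ℕ) (a c : L) :
    derivative (derivative (tri p a c)) = C (p : L) * (C ((p - 1 : ℕ) : L) * X ^ (p - 1 - 1)) := by
  rw [tri_der, derivative_add, derivative_C_mul, derivative_X_pow, derivative_C, add_zero]

/-- the critical points of the trinomials `x ^ p + p a x + c` with `a ≠ 0` are in general position, if one of them has
an infinite orbit -/
theorem tri_crit {K : Type u} [Field K] [CharZero K] {p : ℕ} (hp : 3 ≤ p) {a c : K} (ha : a ≠ 0)
    (hw : ∃ z : AlgebraicClosure K, aeval z (derivative (tri p a c)) = 0 ∧ Wandering (tri p a c) z) :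
    CritGeneral (tri p a c) (AlgebraicClosure K) := by
  have hder : ∀ z : AlgebraicClosure K, aeval z (derivative (tri p a c)) =
      (p : AlgebraicClosure K) * (z ^ (p - 1) + algebraMap K _ a) := by
    intro z
    rw [tri_der, map_add, map_mul, aeval_C, aeval_C, map_natCast, map_pow, aeval_X, map_mul, map_natCast]
    ring
  have hder2 : ∀ z : AlgebraicClosure K, aeval z (derivative (derivative (tri p a c))) =
      (p : AlgebraicClosure K) * (((p - 1 : ℕ) : AlgebraicClosure K) * z ^ (p - 1 - 1)) := by
    intro z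
    rw [tri_der2, map_mul, map_mul, aeval_C, aeval_C, map_natCast, map_natCast, map_pow, aeval_X]
  have hp0 : (p : AlgebraicClosure K) ≠ 0 := by
    exact_mod_cast (by omega : p ≠ 0)
  have hp1 : ((p - 1 : ℕ) : AlgebraicClosure K) ≠ 0 := by
    exact_mod_cast (by omega : p - 1 ≠ 0)
  have ha0 : algebraMap K (AlgebraicClosure K) a ≠ 0 := by
    rwa [Ne, map_eq_zero]
  have hcr : ∀ z : AlgebraicClosure K, aeval z (derivative (tri p a c)) = 0 →
      z ^ (p - 1) = - algebraMap K _ a := by
    intro z hz
    rw [hder] at hz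
    exact eq_neg_of_add_eq_zero_left ((mul_eq_zero.1 hz).resolve_left hp0)
  have hsimple : ∀ z : AlgebraicClosure K, aeval z (derivative (tri p a c)) = 0 → SimpleCrit (tri p a c) z := by
    intro z hz
    refine ⟨hz, ?_⟩
    rw [hder2]
    refine mul_ne_zero hp0 (mul_ne_zero hp1 (pow_ne_zero _ ?_))
    rintro rfl
    have h1 := hcr 0 hz
    rw [zero_pow (by omega)] at h1
    exact ha0 (neg_eq_zero.1 h1.symm)
  have hval : ∀ z : AlgebraicClosure K, aeval z (derivative (tri p a c)) = 0 → aeval z (tri p a c) =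
      ((p - 1 : ℕ) : AlgebraicClosure K) * algebraMap K _ a * z + algebraMap K _ c := by
    intro z hz
    have h1 := hcr z hz
    have h2 : z ^ p = z ^ (p - 1) * z := by
      rw [← pow_succ]
      congr 1
      omega
    unfold tri
    simp only [map_add, map_mul, map_natCast, map_pow, aeval_X, aeval_C]
    rw [h2, h1, Nat.cast_sub (by omega : 1 ≤ p)]
    push_cast
    ring
  refine ⟨fun z hz _ => Or.inl (hsimple z hz), ?_, fun z z' hz hz' _ _ he => ?_⟩
  · obtain ⟨z, hz, hzw⟩ := hw
    exact ⟨z, hsimple z hz, hzw⟩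
  · rw [hval z hz.1, hval z' hz'.1] at he
    exact mul_left_cancel₀ (mul_ne_zero hp1 ha0) (add_right_cancel he)

/-- a pair which satisfies `GoodPair`, as a map and a target -/
theorem GoodPair.conj {K : Type u} [Field K] [NumberField K] {h : K[X]} {b : K} (hg : GoodPair h b) :
    StableConj (algebraMap K[X] (RatFunc K) h) (b : OnePoint K) := by
  refine ⟨K, inferInstance, inferInstance, inferInstance, h, 1, RatFunc.X, b, hg, le_rfl, rdeg_X' K, fun x => ?_, ?_⟩
  · rw [ract_X', ract_X', Function.iterate_one]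
    rfl
  · rw [ract_X']
    rfl

/-- the local condition for trinomials, at a prime at which the degree is a unit -/
theorem tri_local {K : Type u} [Field K] [NumberField K] {d : ℕ} (h3 : 2 ≤ d) {a c : K}
    (v : HeightOneSpectrum (𝓞 K)) (hv : v.valuation K (d : K) = 1) {b : K}
    (hb : (v.valuation K a ≤ 1 ∧ v.valuation K c ≤ 1 ∧ 1 < v.valuation K b) ∨
      (v.valuation K a < 1 ∧ v.valuation K c < 1 ∧ v.valuation K b < 1)) : LocalAt v (tri d a c) b := by
  have hd := tri_natDegree h3 a c
  have hva : v.valuation K a ≤ 1 := by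
    rcases hb with h | h
    · exact h.1
    · exact h.1.le
  have hvc : v.valuation K c ≤ 1 := by
    rcases hb with h | h
    · exact h.2.1
    · exact h.2.1.le
  refine ⟨?_, ?_, ?_⟩
  · intro i
    rw [tri_coeff]
    refine (Valuation.map_add_le _ (Valuation.map_add_le _ ?_ ?_) ?_)
    · split_ifs
      · rw [map_one]
      · rw [map_zero]; exact zero_le
    · split_ifs
      · rw [map_mul, hv, one_mul]; exact hva
      · rw [map_zero]; exact zero_le
    · split_ifs
      · exact hvc
      · rw [map_zero]; exact zero_le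
  · rw [leadingCoeff, hd, tri_coeff, if_pos rfl, if_neg (by omega), if_neg (by omega), add_zero, add_zero, map_one]
  · rcases hb with ⟨-, -, hb⟩ | ⟨h1, h2, h4⟩
    · exact Or.inl hb
    · have hev : ∀ x : K, eval x (tri d a c) = x ^ d + (d : K) * a * x + c := by
        intro x
        unfold tri
        simp only [eval_add, eval_mul, eval_pow, eval_X, eval_C]
      have hstep : ∀ x : K, v.valuation K x < 1 → v.valuation K (eval x (tri d a c)) < 1 := by
        intro x hx
        rw [hev]
        refine Valuation.map_add_lt _ (Valuation.map_add_lt _ ?_ ?_) h2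
        · rw [map_pow]
          exact pow_lt_one₀ zero_le hx (by omega)
        · rw [map_mul, map_mul, hv, one_mul]
          exact mul_lt_one_of_lt_of_le h1 hx.le
      have hit : ∀ n : ℕ, v.valuation K ((fun x => eval x (tri d a c))^[n] b) < 1 := by
        intro n
        induction n with
        | zero => exact h4
        | succ n ih =>
          rw [Function.iterate_succ_apply']
          exact hstep _ ih
      refine Or.inr ⟨⟨1, le_rfl, ?_⟩, fun n i hi hid => ?_⟩
      · exact Valuation.map_sub_lt _ (hit 1) h4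
      · rw [hd] at hid
        set r := (fun x => eval x (tri d a c))^[n] b with hr
        have hvr := hit n
        rw [← hr] at hvr
        have htay : (taylor r (tri d a c)).coeff i =
            (d.choose i : K) * r ^ (d - i) + (if i = 1 then (d : K) * a else 0) := by
          have hm : tri d a c = monomial d 1 + monomial 1 ((d : K) * a) + monomial 0 c := by
            unfold tri
            rw [← C_mul_X_pow_eq_monomial, ← C_mul_X_pow_eq_monomial, monomial_zero_left, C_1, one_mul, pow_one]
          rw [taylor_coeff, hm, map_add, map_add, hasseDeriv_monomial, hasseDeriv_monomial, hasseDeriv_monomial,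
            eval_add, eval_add, eval_monomial, eval_monomial, eval_monomial, Nat.choose_eq_zero_of_lt hi,
            Nat.cast_zero, zero_mul, zero_mul, add_zero, mul_one]
          congr 1
          by_cases h1 : i = 1
          · rw [if_pos h1, h1, Nat.choose_self, Nat.cast_one, one_mul, Nat.sub_self, pow_zero, mul_one]
          · rw [if_neg h1, Nat.choose_eq_zero_of_lt (by omega), Nat.cast_zero, zero_mul, zero_mul]
        rw [htay]
        refine Valuation.map_add_lt _ ?_ ?_
        · rw [map_mul, map_pow]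
          have hch : v.valuation K ((d.choose i : ℕ) : K) ≤ 1 := by
            have := v.valuation_le_one (K := K) ((d.choose i : ℕ) : 𝓞 K)
            simpa using this
          exact lt_of_le_of_lt (mul_le_of_le_one_left' hch) (pow_lt_one₀ zero_le hvr (by omega))
        · split_ifs
          · rw [map_mul, hv, one_mul]
            exact h1
          · rw [map_zero]
            exact zero_lt_one

/-- the trinomials `x ^ d + d a x + c` of odd degree `d ≥ 3` with `a ≠ 0`, of which some critical point has an infinite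
orbit, with a prime `v` not above a divisor of `d` such that `a`, `c` are integral at `v` and `b` is not, or `a`, `c`
and `b` are divisible by `v` -/
theorem generic_odd {K : Type u} [Field K] [NumberField K] {d : ℕ} (hodd : Odd d) (h3 : 3 ≤ d) {a c : K} (ha : a ≠ 0)
    (v : HeightOneSpectrum (𝓞 K)) (hv : v.valuation K (d : K) = 1) {b : K}
    (hb : (v.valuation K a ≤ 1 ∧ v.valuation K c ≤ 1 ∧ 1 < v.valuation K b) ∨
      (v.valuation K a < 1 ∧ v.valuation K c < 1 ∧ v.valuation K b < 1))
    (hw : ∃ z : AlgebraicClosure K, aeval z (derivative (tri d a c)) = 0 ∧ Wandering (tri d a c) z) :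
    StableConj (algebraMap K[X] (RatFunc K) (tri d a c)) (b : OnePoint K) := by
  have hd := tri_natDegree (by omega : 2 ≤ d) a c
  exact GoodPair.conj (Or.inr (Or.inl ⟨by omega, Or.inl ⟨by rw [hd]; exact hodd, tri_crit h3 ha hw⟩, v,
    by rw [hd]; exact hv, tri_local (by omega) v hv hb⟩))

theorem preper_infty {L : Type*} [Field L] {q : L[X]} (hq : 1 ≤ q.natDegree) :
    Preper (algebraMap L[X] (RatFunc L) q) (OnePoint.infty : OnePoint L) := by
  intro hinj
  have h1 : Pool.Agent.ORB.ract (RingHom.id L) (algebraMap L[X] (RatFunc L) q) =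
      Pool.Agent.ORB.pact (q.map (RingHom.id L)) := Pool.Agent.ORB.ract_polynomial (RingHom.id L) q hq
  have h2 : (fun n : ℕ => (ract (RingHom.id L) (algebraMap L[X] (RatFunc L) q))^[n]
      (OnePoint.infty : OnePoint L)) 0 = (fun n : ℕ => (ract (RingHom.id L) (algebraMap L[X] (RatFunc L) q))^[n]
      (OnePoint.infty : OnePoint L)) 1 := by
    show (OnePoint.infty : OnePoint L) =
      (Pool.Agent.ORB.ract (RingHom.id L) (algebraMap L[X] (RatFunc L) q)) (OnePoint.infty : OnePoint L)
    rw [h1]
    rfl
  have := hinj h2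
  omega

end Pool.Agent.ORB.Spec
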