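import Pool.Agent.ORB.SpecGBridge

/-!
ORB, row E9: trinomials of all prime degrees (Theorem W and the earlier theorems together), and trinomials of all
degrees with a local condition on the target (Theorem V5).
-/

namespace Pool.Agent.ORB.Spec

open NumberField IsDedekindDomain Polynomial Pool.Agent.ORB.GP

universe u

/-- a conjugacy of polynomial maps -/
theorem conj_poly {K : Type*} [Field K] {f g q : K[X]} (hf : 1 ≤ f.natDegree) (hg : 1 ≤ g.natDegree)
    (hq : 1 ≤ q.natDegree) (he : ∀ x, eval (eval x q) f = eval (eval x g) q) (x : OnePoint K) :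
    ract (RingHom.id K) (algebraMap K[X] (RatFunc K) f)
      (ract (RingHom.id K) (algebraMap K[X] (RatFunc K) q) x) =
    ract (RingHom.id K) (algebraMap K[X] (RatFunc K) q)
      (ract (RingHom.id K) (algebraMap K[X] (RatFunc K) g) x) := by
  have h1 : ∀ p : K[X], 1 ≤ p.natDegree → ract (RingHom.id K) (algebraMap K[X] (RatFunc K) p) =
      Pool.Agent.ORB.pact p := fun p hp => by
    have h2 : ract (RingHom.id K) (algebraMap K[X] (RatFunc K) p) =
      Pool.Agent.ORB.ract (RingHom.id K) (algebraMap K[X] (RatFunc K) p) := rfl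
    rw [h2, Pool.Agent.ORB.ract_polynomial (RingHom.id K) p hp, Polynomial.map_id]
  rw [h1 f hf, h1 g hg, h1 q hq]
  induction x using OnePoint.rec with
  | infty => rfl
  | coe a =>
    rw [Pool.Agent.ORB.pact_coe, Pool.Agent.ORB.pact_coe, Pool.Agent.ORB.pact_coe, Pool.Agent.ORB.pact_coe, he]

theorem tri_eval {L Ω : Type*} [Field L] [Field Ω] [Algebra L Ω] (p : ℕ) (a c : L) (x : Ω) :
    aeval x (tri p a c) = x ^ p + (p : Ω) * algebraMap L Ω a * x + algebraMap L Ω c := by
  unfold tri
  simp only [map_add, map_mul, map_natCast, map_pow, aeval_X, aeval_C]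

theorem tri_eval_der {L Ω : Type*} [Field L] [Field Ω] [Algebra L Ω] (p : ℕ) (a c : L) (x : Ω) :
    aeval x (derivative (tri p a c)) = (p : Ω) * (x ^ (p - 1) + algebraMap L Ω a) := by
  rw [tri_der, map_add, map_mul, aeval_C, aeval_C, map_natCast, map_pow, aeval_X, map_mul, map_natCast]
  ring

/-- the local condition at a prime above the degree `p` -/
theorem tri_localStable {K : Type u} [Field K] [NumberField K] {p : ℕ} (hp : p.Prime) {a c : K}
    (v : HeightOneSpectrum (𝓞 K)) (hv : v.valuation K (p : K) < 1) (hva : v.valuation K a ≤ 1)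
    (hvc : v.valuation K c ≤ 1) (b : K) : LocalStable (tri p a c) b := by
  have h2 := hp.two_le
  have hd := tri_natDegree h2 a c
  refine localStable_of_pow (p := p) (k := 1) (by omega) hp (by rw [hd, pow_one]) v hv ?_ ?_ ?_ b
  · rw [leadingCoeff, hd, tri_coeff, if_pos rfl, if_neg (by omega), if_neg (by omega), add_zero, add_zero, map_one]
  · intro i hi0 hi
    rw [hd] at hi
    rw [tri_coeff, if_neg (by omega), if_neg (by omega : i ≠ 0), zero_add, add_zero]
    by_cases h1 : i = 1
    · rw [if_pos h1, map_mul]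
      exact mul_lt_one_of_lt_of_le hv hva
    · rw [if_neg h1, map_zero]
      exact zero_lt_one
  · rw [tri_coeff, if_neg (by omega), if_neg (by omega), if_pos rfl, zero_add, zero_add]
    exact hvc

theorem tri_wildPoly {K : Type u} [Field K] [NumberField K] {p : ℕ} (hp : p.Prime) (hodd : Odd p) {a c : K}
    (v : HeightOneSpectrum (𝓞 K)) (hv : v.valuation K (p : K) < 1) (hva : v.valuation K a ≤ 1)
    (hvc : v.valuation K c ≤ 1) : WildPoly (tri p a c) := by
  have h2 := hp.two_le
  have hd := tri_natDegree h2 a c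
  have hlt : ∀ i, 0 < i → i < p → v.valuation K ((tri p a c).coeff i) < 1 := by
    intro i hi0 hi
    rw [tri_coeff, if_neg (by omega), if_neg (by omega : i ≠ 0), zero_add, add_zero]
    by_cases h1 : i = 1
    · rw [if_pos h1, map_mul]
      exact mul_lt_one_of_lt_of_le hv hva
    · rw [if_neg h1, map_zero]
      exact zero_lt_one
  have hlead : v.valuation K (tri p a c).leadingCoeff = 1 := by
    rw [leadingCoeff, hd, tri_coeff, if_pos rfl, if_neg (by omega), if_neg (by omega), add_zero, add_zero, map_one]
  refine ⟨by rw [hd]; exact hp, by rw [hd]; exact hodd, v, by rw [hd]; exact hv, fun i => ?_, hlead,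
    by rw [hd]; exact hlt⟩
  rcases lt_trichotomy i p with h | h | h
  · rcases Nat.eq_zero_or_pos i with h0 | h0
    · rw [h0, tri_coeff, if_neg (by omega), if_neg (by omega), if_pos rfl, zero_add, zero_add]
      exact hvc
    · exact (hlt i h0 h).le
  · have := hlead
    rw [leadingCoeff, hd] at this
    rw [h]
    exact this.le
  · rw [coeff_eq_zero_of_natDegree_lt (by rw [hd]; exact h), map_zero]
    exact zero_le

/-- the polynomials `x ^ p + c` with `c` integral at a prime above `p` and an infinite orbit of `0` -/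
theorem generic_pow {K : Type u} [Field K] [NumberField K] {p : ℕ} (hp : p.Prime) {c : K}
    (v : HeightOneSpectrum (𝓞 K)) (hv : v.valuation K (p : K) < 1) (hvc : v.valuation K c ≤ 1)
    (hw : Function.Injective fun n : ℕ => (uni p c)^[n] 0) (b : K) : GoodPair (X ^ p + C c : K[X]) b := by
  refine Or.inl ⟨Or.inr ⟨p, c, rfl, hp.isPrimePow, hw⟩, Or.inr ?_⟩
  have h := tri_localStable hp (a := 0) v hv (by rw [map_zero]; exact zero_le) hvc b
  unfold tri at h
  rw [mul_zero, C_0, zero_mul, add_zero] at h
  exact h

/-- the trinomials `x ^ p + p a x + c` with `p` prime, `a` and `c` integral at a prime above `p`, of which some critical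
point has an infinite orbit: all targets are allowed -/
theorem generic_prime {K : Type u} [Field K] [NumberField K] {p : ℕ} (hp : p.Prime) {a c : K}
    (v : HeightOneSpectrum (𝓞 K)) (hv : v.valuation K (p : K) < 1) (hva : v.valuation K a ≤ 1)
    (hvc : v.valuation K c ≤ 1)
    (hw : ∃ z : AlgebraicClosure K, aeval z (derivative (tri p a c)) = 0 ∧ Wandering (tri p a c) z) (b : K) :
    StableConj (algebraMap K[X] (RatFunc K) (tri p a c)) (b : OnePoint K) := by
  have hp0 : (p : AlgebraicClosure K) ≠ 0 := by
    exact_mod_cast hp.ne_zero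
  have hinj : Function.Injective (algebraMap K (AlgebraicClosure K)) := (algebraMap K (AlgebraicClosure K)).injective
  obtain ⟨z, hz, hzw⟩ := hw
  have hz' := hz
  rw [tri_eval_der] at hz'
  have hz1 : z ^ (p - 1) = - algebraMap K _ a :=
    eq_neg_of_add_eq_zero_left ((mul_eq_zero.1 hz').resolve_left hp0)
  by_cases ha : a = 0
  · -- `x ^ p + c`
    have hz0 : z = 0 := by
      rw [ha, map_zero, neg_zero] at hz1
      exact pow_eq_zero_iff (by have := hp.two_le; omega) |>.1 hz1
    have htri : tri p a c = X ^ p + C c := by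
      unfold tri
      rw [ha, mul_zero, C_0, zero_mul, add_zero]
    rw [htri]
    refine GoodPair.conj (generic_pow hp v hv hvc ?_ b)
    have key : ∀ n : ℕ, algebraMap K (AlgebraicClosure K) ((uni p c)^[n] 0) =
        (fun x : AlgebraicClosure K => aeval x (tri p a c))^[n] z := by
      intro n
      induction n with
      | zero => rw [Function.iterate_zero, Function.iterate_zero, id, id, hz0, map_zero]
      | succ n ih =>
        rw [Function.iterate_succ_apply', Function.iterate_succ_apply', ← ih, tri_eval, ha, map_zero, mul_zero,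
          zero_mul, add_zero]
        unfold uni
        rw [map_add, map_pow]
    intro m n hmn
    apply hzw
    show (fun x : AlgebraicClosure K => aeval x (tri p a c))^[m] z = (fun x : AlgebraicClosure K => aeval x (tri p a c))^[n] z
    rw [← key, ← key]
    exact congrArg _ hmn
  · rcases hp.eq_two_or_odd' with h2 | hodd
    · -- quadratic polynomials
      subst h2
      have hz0 : z = - algebraMap K _ a := by simpa using hz1
      set c' : K := c + a - a ^ 2 with hc'
      have hvc' : v.valuation K c' ≤ 1 := by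
        rw [hc']
        refine Valuation.map_sub_le _ (Valuation.map_add_le _ hvc hva) ?_
        rw [map_pow]
        exact pow_le_one₀ zero_le hva
      have hev : ∀ x : K, eval x (tri 2 a c) = x ^ 2 + (2 : K) * a * x + c := by
        intro x
        unfold tri
        simp only [eval_add, eval_mul, eval_pow, eval_X, eval_C]
        norm_num
      have hdq : (X - C a : K[X]).natDegree = 1 := natDegree_X_sub_C a
      have hd1 := tri_natDegree (le_refl 2) a c
      have hd2 : (X ^ 2 + C c' : K[X]).natDegree = 2 := natDegree_X_pow_add_C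
      refine ⟨K, inferInstance, inferInstance, inferInstance, X ^ 2 + C c', 1,
        algebraMap K[X] (RatFunc K) (X - C a), b + a, generic_pow hp v hv hvc' ?_ (b + a), le_rfl, ?_, fun x => ?_, ?_⟩
      · have key : ∀ n : ℕ, algebraMap K (AlgebraicClosure K) ((uni 2 c')^[n] 0) =
            (fun x : AlgebraicClosure K => aeval x (tri 2 a c))^[n] z + algebraMap K _ a := by
          intro n
          induction n with
          | zero =>
            rw [Function.iterate_zero, Function.iterate_zero, id, id, hz0, map_zero]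
            ring
          | succ n ih =>
            rw [Function.iterate_succ_apply', Function.iterate_succ_apply', tri_eval]
            unfold uni at ih ⊢
            rw [map_add, map_pow, ih, hc', map_sub, map_add, map_pow]
            push_cast
            ring
        intro m n hmn
        apply hzw
        show (fun x : AlgebraicClosure K => aeval x (tri 2 a c))^[m] z =
          (fun x : AlgebraicClosure K => aeval x (tri 2 a c))^[n] z
        have h1 := key m
        have h2 := key n
        have h3 : (uni 2 c')^[m] 0 = (uni 2 c')^[n] 0 := hmn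
        rw [h3] at h1
        exact add_right_cancel (h1.symm.trans h2)
      · unfold rdeg
        rw [RatFunc.num_algebraMap, RatFunc.denom_algebraMap, natDegree_one, hdq]
        rfl
      · rw [Function.iterate_one]
        refine conj_poly (by rw [hd1]; omega) (by rw [hd2]; omega) hdq.ge (fun y => ?_) x
        rw [hev, eval_sub, eval_sub, eval_X, eval_X, eval_C, eval_C, eval_add, eval_pow, eval_X, eval_C, hc']
        ring
      · have h1 : ract (RingHom.id K) (algebraMap K[X] (RatFunc K) (X - C a)) =
            Pool.Agent.ORB.pact (X - C a) := by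
          have h2 : ract (RingHom.id K) (algebraMap K[X] (RatFunc K) (X - C a)) =
            Pool.Agent.ORB.ract (RingHom.id K) (algebraMap K[X] (RatFunc K) (X - C a)) := rfl
          rw [h2, Pool.Agent.ORB.ract_polynomial (RingHom.id K) _ hdq.ge, Polynomial.map_id]
        rw [h1, Pool.Agent.ORB.pact_coe, eval_sub, eval_X, eval_C, add_sub_cancel_right]
        rfl
    · have h3 : 3 ≤ p := by
        have := hp.two_le
        rcases hodd with ⟨k, hk⟩
        omega
      exact GoodPair.conj (Or.inr (Or.inr ⟨tri_wildPoly hp hodd v hv hva hvc, tri_crit h3 ha ⟨z, hz, hzw⟩⟩))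

/-- a sum of powers of elements near `c` -/
theorem na_geom {Ω : Type*} [Field Ω] (N : AbsoluteValue Ω ℝ) (hN : ∀ x y : Ω, N (x + y) ≤ max (N x) (N y))
    {x y c : Ω} (hx : N (x - c) < N c) (hy : N (y - c) < N c) (hc : c ≠ 0) (d : ℕ) :
    N ((∑ i ∈ Finset.range d, x ^ i * y ^ (d - 1 - i)) - (d : Ω) * c ^ (d - 1)) < N c ^ (d - 1) := by
  have hc0 : 0 < N c := N.pos hc
  -- reduction to `c = 1`
  have hx1 : N (x / c - 1) < 1 := by
    have h1 : x / c - 1 = (x - c) / c := by rw [sub_div, div_self hc]
    rw [h1, map_div₀, div_lt_one hc0]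
    exact hx
  have hy1 : N (y / c - 1) < 1 := by
    have h1 : y / c - 1 = (y - c) / c := by rw [sub_div, div_self hc]
    rw [h1, map_div₀, div_lt_one hc0]
    exact hy
  have hle : ∀ z : Ω, N (z - 1) < 1 → N z ≤ 1 := by
    intro z hz
    have h1 : z = (z - 1) + 1 := by ring
    rw [h1]
    exact (hN _ _).trans (max_le hz.le N.map_one.le)
  have hpow : ∀ z : Ω, N (z - 1) < 1 → ∀ n : ℕ, N (z ^ n - 1) < 1 := by
    intro z hz n
    have h1 := Pool.Agent.ORB.NI.na_pow_sub N hN (hle z hz) N.map_one.le hz n
    rwa [one_pow] at h1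
  have hterm : ∀ i j : ℕ, N ((x / c) ^ i * (y / c) ^ j - 1) < 1 := by
    intro i j
    have h1 : (x / c) ^ i * (y / c) ^ j - 1 = ((x / c) ^ i - 1) * (y / c) ^ j + ((y / c) ^ j - 1) := by ring
    rw [h1]
    refine (hN _ _).trans_lt (max_lt ?_ (hpow _ hy1 j))
    rw [map_mul]
    exact mul_lt_one_of_nonneg_of_lt_one_left (N.nonneg _) (hpow _ hx1 i)
      (by rw [map_pow]; exact pow_le_one₀ (N.nonneg _) (hle _ hy1))
  have hsum : ∀ s : Finset ℕ, N (∑ i ∈ s, ((x / c) ^ i * (y / c) ^ (d - 1 - i) - 1)) < 1 := by
    intro s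
    induction s using Finset.induction_on with
    | empty => rw [Finset.sum_empty, map_zero]; exact one_pos
    | insert i s hi ih =>
      rw [Finset.sum_insert hi]
      exact (hN _ _).trans_lt (max_lt (hterm _ _) ih)
  have h1 := hsum (Finset.range d)
  have h2 : (∑ i ∈ Finset.range d, x ^ i * y ^ (d - 1 - i)) - (d : Ω) * c ^ (d - 1) =
      c ^ (d - 1) * ∑ i ∈ Finset.range d, ((x / c) ^ i * (y / c) ^ (d - 1 - i) - 1) := by
    rw [Finset.sum_sub_distrib, Finset.sum_const, Finset.card_range, nsmul_eq_mul, mul_one, mul_sub, Finset.mul_sum,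
      mul_comm (c ^ (d - 1)) (d : Ω)]
    congr 1
    refine Finset.sum_congr rfl fun i hi => ?_
    have h3 : i + (d - 1 - i) = d - 1 := by
      have := Finset.mem_range.1 hi
      omega
    rw [div_pow, div_pow, div_mul_div_comm, ← pow_add, h3, mul_div_cancel₀ _ (pow_ne_zero _ hc)]
  rw [h2, map_mul, map_pow]
  exact mul_lt_of_lt_one_right (pow_pos hc0 _) h1

/-- the critical points of the trinomials `x ^ d + d a x + c` satisfy the stronger condition if there is a prime `w`
not above a divisor of `d` at which `a` is integral and smaller than `c ^ (d - 1)`, and one of the critical points has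
an infinite orbit -/
theorem tri_crit2 {K : Type u} [Field K] [NumberField K] {d : ℕ} (hd : 2 ≤ d) {a c : K} (ha : a ≠ 0 ∨ d = 2)
    (w : HeightOneSpectrum (𝓞 K)) (hwd : w.valuation K (d : K) = 1) (hwa : w.valuation K a ≤ 1)
    (hwc : w.valuation K a < w.valuation K c ^ (d - 1))
    (hw : ∃ z : AlgebraicClosure K, aeval z (derivative (tri d a c)) = 0 ∧ Wandering (tri d a c) z) :
    CritGeneral2 (tri d a c) (AlgebraicClosure K) := by
  have hd0 : (d : AlgebraicClosure K) ≠ 0 := by
    exact_mod_cast (by omega : d ≠ 0)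
  have hd1 : ((d - 1 : ℕ) : AlgebraicClosure K) ≠ 0 := by
    exact_mod_cast (by omega : d - 1 ≠ 0)
  have hcr : ∀ z : AlgebraicClosure K, aeval z (derivative (tri d a c)) = 0 →
      z ^ (d - 1) = - algebraMap K _ a := by
    intro z hz
    rw [tri_eval_der] at hz
    exact eq_neg_of_add_eq_zero_left ((mul_eq_zero.1 hz).resolve_left hd0)
  have hsimple : ∀ z : AlgebraicClosure K, aeval z (derivative (tri d a c)) = 0 → SimpleCrit (tri d a c) z := by
    intro z hz
    refine ⟨hz, ?_⟩
    rw [tri_der2, map_mul, map_mul, aeval_C, aeval_C, map_natCast, map_natCast, map_pow, aeval_X]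
    refine mul_ne_zero hd0 (mul_ne_zero hd1 ?_)
    rcases ha with ha | rfl
    · refine pow_ne_zero _ ?_
      rintro rfl
      have h1 := hcr 0 hz
      rw [zero_pow (by omega)] at h1
      exact ha ((_root_.map_eq_zero _).1 (neg_eq_zero.1 h1.symm))
    · show z ^ 0 ≠ 0
      rw [pow_zero]
      exact one_ne_zero
  have hval : ∀ z : AlgebraicClosure K, aeval z (derivative (tri d a c)) = 0 → aeval z (tri d a c) =
      ((d - 1 : ℕ) : AlgebraicClosure K) * algebraMap K _ a * z + algebraMap K _ c := by
    intro z hz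
    have h1 := hcr z hz
    have h2 : z ^ d = z ^ (d - 1) * z := by
      rw [← pow_succ]
      congr 1
      omega
    rw [tri_eval, h2, h1, Nat.cast_sub (by omega : 1 ≤ d)]
    push_cast
    ring
  -- the absolute value
  obtain ⟨F, Ω, i1, i2, i3, i4, i5, i6, i7, D, hD⟩ := Pool.Agent.ORB.NI.exists_locAbs w
  let _ : Algebra K Ω := ((algebraMap F Ω).comp (algebraMap K F)).toAlgebra
  let φ : AlgebraicClosure K →ₐ[K] Ω := IsAlgClosed.lift
  let N : AbsoluteValue (AlgebraicClosure K) ℝ := D.N.comp (f := φ.toRingHom) φ.toRingHom.injective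
  have hNφ : ∀ x : K, N (algebraMap K (AlgebraicClosure K) x) = D.N (algebraMap F Ω (algebraMap K F x)) := by
    intro x
    show D.N (φ (algebraMap K (AlgebraicClosure K) x)) = _
    rw [φ.commutes]
    rfl
  have hN : ∀ x y : AlgebraicClosure K, N (x + y) ≤ max (N x) (N y) := by
    intro x y
    show D.N (φ (x + y)) ≤ max (D.N (φ x)) (D.N (φ y))
    rw [map_add]
    exact D.nonarch _ _
  have hc0 : c ≠ 0 := by
    rintro rfl
    rw [map_zero, zero_pow (by omega)] at hwc
    exact absurd hwc not_lt_zero
  have hc0' : algebraMap K (AlgebraicClosure K) c ≠ 0 := by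
    rwa [Ne, _root_.map_eq_zero]
  have hNc : 0 < N (algebraMap K _ c) := N.pos hc0'
  have hNa1 : N (algebraMap K _ a) ≤ 1 := by
    rw [hNφ]
    exact ((hD a).1).2 hwa
  have hNd : N ((d : ℕ) : AlgebraicClosure K) = 1 := by
    have h1 : ((d : ℕ) : AlgebraicClosure K) = algebraMap K _ (d : K) := (map_natCast _ d).symm
    rw [h1, hNφ]
    refine le_antisymm (((hD _).1).2 hwd.le) ?_
    by_contra hcon
    push Not at hcon
    have := ((hD _).2).1 hcon
    rw [hwd] at this
    exact lt_irrefl _ this
  have hNnat : ∀ n : ℕ, N (n : AlgebraicClosure K) ≤ 1 := by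
    intro n
    induction n with
    | zero => rw [Nat.cast_zero, map_zero]; exact zero_le_one
    | succ n ih =>
      rw [Nat.cast_succ]
      exact (hN _ _).trans (max_le ih N.map_one.le)
  have hNac : N (algebraMap K _ a) < N (algebraMap K _ c) ^ (d - 1) := by
    have h1 : w.valuation K (a / c ^ (d - 1)) < 1 := by
      rw [map_div₀, map_pow]
      have h2 : 0 < w.valuation K c ^ (d - 1) := lt_of_le_of_lt zero_le hwc
      exact (div_lt_one₀ h2).2 hwc
    have h2 := ((hD _).2).2 h1
    rw [← hNφ, map_div₀, map_pow, map_div₀, map_pow, div_lt_one (pow_pos hNc _)] at h2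
    exact h2
  have hNz : ∀ z : AlgebraicClosure K, z ^ (d - 1) = - algebraMap K _ a → N z < N (algebraMap K _ c) ∧ N z ≤ 1 := by
    intro z hz
    have h1 : N z ^ (d - 1) = N (algebraMap K _ a) := by
      rw [← map_pow, hz, N.map_neg]
    constructor
    · refine lt_of_pow_lt_pow_left₀ (d - 1) hNc.le ?_
      rw [h1]
      exact hNac
    · by_contra hcon
      push Not at hcon
      have h2 := one_lt_pow₀ hcon (by omega : d - 1 ≠ 0)
      rw [h1] at h2
      linarith
  have hNw : ∀ z : AlgebraicClosure K, aeval z (derivative (tri d a c)) = 0 →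
      N (aeval z (tri d a c) - algebraMap K _ c) < N (algebraMap K _ c) := by
    intro z hz
    obtain ⟨h1, h2⟩ := hNz z (hcr z hz)
    rw [hval z hz, add_sub_cancel_right, map_mul, map_mul]
    have h3 : N (((d - 1 : ℕ) : AlgebraicClosure K)) * N (algebraMap K _ a) ≤ 1 :=
      mul_le_one₀ (hNnat _) (N.nonneg _) hNa1
    calc N (((d - 1 : ℕ) : AlgebraicClosure K)) * N (algebraMap K _ a) * N z ≤ 1 * N z :=
          mul_le_mul_of_nonneg_right h3 (N.nonneg _)
      _ < N (algebraMap K _ c) := by rw [one_mul]; exact h1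
  have hsub : ∀ x y : AlgebraicClosure K, N (x - y) ≤ max (N x) (N y) := by
    intro x y
    rw [sub_eq_add_neg]
    refine (hN _ _).trans ?_
    rw [N.map_neg]
  have hcd : 0 < N (algebraMap K _ c) ^ (d - 1) := pow_pos hNc _
  refine ⟨fun z hz _ => Or.inl (hsimple z hz), ?_, fun z z' hz hz' _ _ he => ?_, fun z hz _ he => ?_⟩
  · obtain ⟨z, hz, hzw⟩ := hw
    exact ⟨z, hsimple z hz, hzw⟩
  · -- second images
    set x := aeval z (tri d a c) with hx
    set y := aeval z' (tri d a c) with hy
    have h1 : x ^ d - y ^ d + (d : AlgebraicClosure K) * algebraMap K _ a * (x - y) = 0 := by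
      rw [tri_eval, tri_eval] at he
      linear_combination he
    have h2 : (∑ i ∈ Finset.range d, x ^ i * y ^ (d - 1 - i)) * (x - y) = x ^ d - y ^ d :=
      Commute.geom_sum₂_mul (Commute.all x y) d
    have h3 : ((∑ i ∈ Finset.range d, x ^ i * y ^ (d - 1 - i)) + (d : AlgebraicClosure K) * algebraMap K _ a) *
        (x - y) = 0 := by
      linear_combination h2 + h1
    rcases mul_eq_zero.1 h3 with h4 | h4
    · exfalso
      have h5 := na_geom N hN (hNw z hz.1) (hNw z' hz'.1) hc0' d
      rw [← hx, ← hy] at h5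
      have h6 : (d : AlgebraicClosure K) * algebraMap K _ c ^ (d - 1) =
          - ((∑ i ∈ Finset.range d, x ^ i * y ^ (d - 1 - i)) - (d : AlgebraicClosure K) * algebraMap K _ c ^ (d - 1)) -
            (d : AlgebraicClosure K) * algebraMap K _ a := by
        linear_combination h4
      have h7 : N ((d : AlgebraicClosure K) * algebraMap K _ c ^ (d - 1)) < N (algebraMap K _ c) ^ (d - 1) := by
        rw [h6]
        refine (hsub _ _).trans_lt (max_lt ?_ ?_)
        · rw [N.map_neg]
          exact h5
        · rw [map_mul, hNd, one_mul]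
          exact hNac
      rw [map_mul, hNd, one_mul, map_pow] at h7
      exact lt_irrefl _ h7
    · have h5 : x = y := sub_eq_zero.1 h4
      rw [hx, hy, hval z hz.1, hval z' hz'.1] at h5
      rcases ha with ha | rfl
      · have ha0 : algebraMap K (AlgebraicClosure K) a ≠ 0 := by rwa [Ne, _root_.map_eq_zero]
        exact mul_left_cancel₀ (mul_ne_zero hd1 ha0) (add_right_cancel h5)
      · have h6 := hcr z hz.1
        have h7 := hcr z' hz'.1
        have e1 : (2 : ℕ) - 1 = 1 := rfl
        rw [e1, pow_one] at h6 h7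
        rw [h6, h7]
  · -- the image is not critical
    have h1 := hcr _ he
    have h2 := hNw z hz.1
    have h3 := (hNz _ h1).1
    have h4 : algebraMap K (AlgebraicClosure K) c = aeval z (tri d a c) - (aeval z (tri d a c) - algebraMap K _ c) := by
      ring
    have h5 : N (algebraMap K (AlgebraicClosure K) c) < N (algebraMap K (AlgebraicClosure K) c) := by
      conv_lhs => rw [h4]
      exact (hsub _ _).trans_lt (max_lt h3 h2)
    exact lt_irrefl _ h5

/-- the trinomials `x ^ d + d a x + c` of arbitrary degree `d ≥ 2` -/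
theorem generic_all {K : Type u} [Field K] [NumberField K] {d : ℕ} (hd : 2 ≤ d) {a c : K} (ha : a ≠ 0 ∨ d = 2)
    (hs : ∃ w : HeightOneSpectrum (𝓞 K), w.valuation K (d : K) = 1 ∧ w.valuation K a ≤ 1 ∧
      w.valuation K a < w.valuation K c ^ (d - 1))
    (v : HeightOneSpectrum (𝓞 K)) (hv : v.valuation K (d : K) = 1) {b : K}
    (hb : (v.valuation K a ≤ 1 ∧ v.valuation K c ≤ 1 ∧ 1 < v.valuation K b) ∨
      (v.valuation K a < 1 ∧ v.valuation K c < 1 ∧ v.valuation K b < 1))
    (hw : ∃ z : AlgebraicClosure K, aeval z (derivative (tri d a c)) = 0 ∧ Wandering (tri d a c) z) :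
    StableConj (algebraMap K[X] (RatFunc K) (tri d a c)) (b : OnePoint K) := by
  have hnd := tri_natDegree hd a c
  obtain ⟨w, h1, h2, h3⟩ := hs
  exact GoodPair.conj (Or.inr (Or.inl ⟨by omega, Or.inr (tri_crit2 hd ha w h1 h2 h3 hw), v,
    by rw [hnd]; exact hv, tri_local hd v hv hb⟩))

/-- any number of trinomials of prime degrees -/
theorem free_prime_of {K : Type u} [Field K] [NumberField K] (R : Rows K)
    {ι : Type} [Finite ι] (p : ι → ℕ) (a c : ι → K) (hp : ∀ i, (p i).Prime)
    (hv : ∀ i, ∃ v : HeightOneSpectrum (𝓞 K), v.valuation K (p i : K) < 1 ∧ v.valuation K (a i) ≤ 1 ∧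
      v.valuation K (c i) ≤ 1)
    (hw : ∀ i, ∃ z : AlgebraicClosure K, aeval z (derivative (tri (p i) (a i) (c i))) = 0 ∧
      Wandering (tri (p i) (a i) (c i)) z)
    (α β : ι → OnePoint K)
    (hαβ : ∀ i n, (ract (RingHom.id K) (algebraMap K[X] (RatFunc K) (tri (p i) (a i) (c i))))^[n] (α i) ≠ β i) :
    PosDensity (AvoidSet (fun i => algebraMap K[X] (RatFunc K) (tri (p i) (a i) (c i))) α β) := by
  have hnd : ∀ i, (tri (p i) (a i) (c i)).natDegree = p i := fun i => tri_natDegree (hp i).two_le (a i) (c i)
  refine free_indices_gen_of R (J := PUnit) _ (fun i => ?_) α β hαβ Set.univ ∅ (fun i _ => ?_)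
    (fun i hi => absurd hi (Set.notMem_empty i)) (fun _ => PUnit.unit) (fun _ => 0)
    (fun j j' hj => absurd (Subsingleton.elim j j') hj) (fun i hi => absurd (Set.mem_univ i) hi)
    (fun j => Or.inr (Or.inr fun i hi => absurd (Set.mem_univ i) hi))
  · unfold rdeg
    rw [RatFunc.num_algebraMap, RatFunc.denom_algebraMap, natDegree_one, hnd]
    exact le_max_of_le_left (hp i).two_le
  · right
    obtain ⟨v, hv1, hv2, hv3⟩ := hv i
    generalize β i = x
    induction x using OnePoint.rec with
    | infty =>
      left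
      refine preper_infty ?_
      rw [hnd]
      exact (hp i).one_le
    | coe b => exact Or.inr (Or.inr (generic_prime (hp i) v hv1 hv2 hv3 (hw i) b))

/-- any number of trinomials of arbitrary degrees with targets which satisfy a local condition -/
theorem free_all_of {K : Type u} [Field K] [NumberField K] (R : Rows K)
    {ι : Type} [Finite ι] (d : ι → ℕ) (a c b : ι → K) (hd : ∀ i, 2 ≤ d i) (ha : ∀ i, a i ≠ 0)
    (hs : ∀ i, Odd (d i) ∨ ∃ w : HeightOneSpectrum (𝓞 K), w.valuation K (d i : K) = 1 ∧ w.valuation K (a i) ≤ 1 ∧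
      w.valuation K (a i) < w.valuation K (c i) ^ (d i - 1))
    (hv : ∀ i, ∃ v : HeightOneSpectrum (𝓞 K), v.valuation K (d i : K) = 1 ∧
      ((v.valuation K (a i) ≤ 1 ∧ v.valuation K (c i) ≤ 1 ∧ 1 < v.valuation K (b i)) ∨
      (v.valuation K (a i) < 1 ∧ v.valuation K (c i) < 1 ∧ v.valuation K (b i) < 1)))
    (hw : ∀ i, ∃ z : AlgebraicClosure K, aeval z (derivative (tri (d i) (a i) (c i))) = 0 ∧
      Wandering (tri (d i) (a i) (c i)) z)
    (α : ι → OnePoint K)
    (hαβ : ∀ i n, (ract (RingHom.id K) (algebraMap K[X] (RatFunc K) (tri (d i) (a i) (c i))))^[n] (α i) ≠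
      (b i : OnePoint K)) :
    PosDensity (AvoidSet (fun i => algebraMap K[X] (RatFunc K) (tri (d i) (a i) (c i))) α
      (fun i => (b i : OnePoint K))) := by
  have hnd : ∀ i, (tri (d i) (a i) (c i)).natDegree = d i := fun i => tri_natDegree (hd i) (a i) (c i)
  refine free_indices_gen_of R (J := PUnit) _ (fun i => ?_) α _ hαβ Set.univ ∅ (fun i _ => ?_)
    (fun i hi => absurd hi (Set.notMem_empty i)) (fun _ => PUnit.unit) (fun _ => 0)
    (fun j j' hj => absurd (Subsingleton.elim j j') hj) (fun i hi => absurd (Set.mem_univ i) hi)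
    (fun j => Or.inr (Or.inr fun i hi => absurd (Set.mem_univ i) hi))
  · unfold rdeg
    rw [RatFunc.num_algebraMap, RatFunc.denom_algebraMap, natDegree_one, hnd]
    exact le_max_of_le_left (hd i)
  · obtain ⟨v, hv1, hv2⟩ := hv i
    refine Or.inr (Or.inr (Or.inr ?_))
    rcases hs i with h | h
    · have h3 : 3 ≤ d i := by
        have h2 := hd i
        rcases h with ⟨k, hk⟩
        omega
      exact generic_odd h h3 (ha i) v hv1 hv2 (hw i)
    · exact generic_all (hd i) (Or.inl (ha i)) h v hv1 hv2 (hw i)

end Pool.Agent.ORB.Spec
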