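import Pool.Agent.ORB.SpecReduct
import Pool.Agent.ORB.SpecW
import Pool.Agent.ORB.GClose
import Pool.Agent.ORB.TEngine
import Pool.Agent.ORB.TOmega
import Pool.Agent.ORB.TPerm
import Pool.Agent.ORB.TExt

/-!
ORB: the main theorem with the polynomials with critical points in general position, final form.
-/

namespace Pool.Agent.ORB.Spec

open NumberField IsDedekindDomain Polynomial Pool.Agent.ORB.GP

universe u

theorem rows (K : Type u) [Field K] [NumberField K] : Rows K where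
  gen f β hβ h := hasDatum_gen f β hβ h
  ext _ _ _ _ _ _ _ _ hd _ hst := EvStable.ext hd hst
  odd f β hβ h := hasDatum_odd_of (fun F W _ _ _ _ _ _ h hd hodd hc b hb ht =>
    extR_odd_of h hd (engine_odd_of exists_le exists_lt h hd hodd hc) b hb (fun hb' => ft_of_tamT h hd b hb' ht) ht)
    f β hβ h

/-- a solved block is a `PrimeBlock` -/
theorem SolvedBlock.prime {K : Type u} [Field K] [NumberField K] {I : Type} [Finite I] {f : I → RatFunc K}
    {β : I → OnePoint K} (h : SolvedBlock f β) : PrimeBlock f β := by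
  obtain ⟨K2, i1, i2, i3, w, hw⟩ := primeBlock_of_pos (fun i : {i // ¬ Preper (f i) (β i)} => f i.1)
    (fun i => β i.1) h
  exact ⟨K2, i1, i2, i3, w, fun i hi => hw ⟨i, not_not.2 hi⟩ hi⟩

theorem free_indices_gen {K : Type u} [Field K] [NumberField K] {ι J : Type} [Finite ι] [Finite J]
    (f : ι → RatFunc K) (hf : ∀ i, 2 ≤ rdeg (f i)) (α β : ι → OnePoint K)
    (hαβ : ∀ i n, (ract (RingHom.id K) (f i))^[n] (α i) ≠ β i) (Q A : Set ι)
    (hQ : ∀ i ∈ Q, Preper (f i) (α i) ∨ Preper (f i) (β i) ∨ Unicritical (f i) (β i) ∨ StableConj (f i) (β i))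
    (hA : ∀ i ∈ A, ∃ v : HeightOneSpectrum (𝓞 K), ExcMod v (f i) (β i) ∧ ∀ j, j ∉ Q → GoodTame v (f j))
    (blk : ι → J) (E : J → ℕ) (hE : ∀ j j', j ≠ j' → Nat.Coprime (E j) (E j'))
    (hexp : ∀ i, i ∉ Q → i ∉ A → HasExp (E (blk i)) (f i))
    (hblk : ∀ j, OrbitBlock (fun i : {i // (i ∉ Q ∧ i ∉ A) ∧ blk i = j} => f i.1)
        (fun i : {i // (i ∉ Q ∧ i ∉ A) ∧ blk i = j} => β i.1) ∨
      PrimeBlock (fun i : {i // (i ∉ Q ∧ i ∉ A) ∧ blk i = j} => f i.1)
        (fun i : {i // (i ∉ Q ∧ i ∉ A) ∧ blk i = j} => β i.1) ∨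
      SolvedBlock (fun i : {i // (i ∉ Q ∧ i ∉ A) ∧ blk i = j} => f i.1)
        (fun i : {i // (i ∉ Q ∧ i ∉ A) ∧ blk i = j} => β i.1) ∨
      ∀ i, i ∉ Q → i ∉ A → blk i = j → TorusMap (algebraMap K (AlgebraicClosure K)) (f i)) :
    PosDensity (AvoidSet f α β) := by
  refine free_indices_gen_of (rows K) f hf α β hαβ Q A hQ hA blk E hE hexp fun j => ?_
  rcases hblk j with h | h | h | h
  · exact Or.inl h
  · exact Or.inr (Or.inl h)
  · exact Or.inr (Or.inl h.prime)
  · exact Or.inr (Or.inr h)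

/-- the indices of kinds (Q) and (A) are free -/
theorem free_reduction {K : Type u} [Field K] [NumberField K]
    {ι : Type} [Finite ι] (f : ι → RatFunc K) (hf : ∀ i, 2 ≤ rdeg (f i)) (α β : ι → OnePoint K)
    (hαβ : ∀ i n, (ract (RingHom.id K) (f i))^[n] (α i) ≠ β i) (Q A : Set ι)
    (hQ : ∀ i ∈ Q, Preper (f i) (α i) ∨ Preper (f i) (β i) ∨ Unicritical (f i) (β i) ∨ StableConj (f i) (β i))
    (hA : ∀ i ∈ A, ∃ v : HeightOneSpectrum (𝓞 K), ExcMod v (f i) (β i) ∧ ∀ j, j ∉ Q → GoodTame v (f j))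
    (hB : PosDensity (AvoidSet (fun i : {i // i ∉ Q ∧ i ∉ A} => f i.1)
      (fun i => ract (RingHom.id K) (f i.1) (β i.1)) (fun i => β i.1))) :
    PosDensity (AvoidSet f α β) :=
  reduction_of (rows K) f hf α β hαβ Q A hQ hA hB

/-- any number of trinomials of prime degrees -/
theorem free_prime {K : Type u} [Field K] [NumberField K] {ι : Type} [Finite ι] (p : ι → ℕ) (a c : ι → K)
    (hp : ∀ i, (p i).Prime)
    (hv : ∀ i, ∃ v : HeightOneSpectrum (𝓞 K), v.valuation K (p i : K) < 1 ∧ v.valuation K (a i) ≤ 1 ∧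
      v.valuation K (c i) ≤ 1)
    (hw : ∀ i, ∃ z : AlgebraicClosure K,
      aeval z (derivative (X ^ p i + C ((p i : K) * a i) * X + C (c i))) = 0 ∧
      Wandering (X ^ p i + C ((p i : K) * a i) * X + C (c i)) z)
    (α β : ι → OnePoint K)
    (hαβ : ∀ i n, (ract (RingHom.id K) (algebraMap K[X] (RatFunc K) (X ^ p i + C ((p i : K) * a i) * X +
      C (c i))))^[n] (α i) ≠ β i) :
    PosDensity (AvoidSet (fun i => algebraMap K[X] (RatFunc K) (X ^ p i + C ((p i : K) * a i) * X + C (c i)))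
      α β) :=
  free_prime_of (rows K) p a c hp hv hw α β hαβ

/-- any number of trinomials of arbitrary degrees with targets which satisfy a local condition -/
theorem free_all {K : Type u} [Field K] [NumberField K] {ι : Type} [Finite ι] (d : ι → ℕ) (a c b : ι → K)
    (hd : ∀ i, 2 ≤ d i) (ha : ∀ i, a i ≠ 0)
    (hs : ∀ i, Odd (d i) ∨ ∃ w : HeightOneSpectrum (𝓞 K), w.valuation K (d i : K) = 1 ∧ w.valuation K (a i) ≤ 1 ∧
      w.valuation K (a i) < w.valuation K (c i) ^ (d i - 1))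
    (hv : ∀ i, ∃ v : HeightOneSpectrum (𝓞 K), v.valuation K (d i : K) = 1 ∧
      ((v.valuation K (a i) ≤ 1 ∧ v.valuation K (c i) ≤ 1 ∧ 1 < v.valuation K (b i)) ∨
      (v.valuation K (a i) < 1 ∧ v.valuation K (c i) < 1 ∧ v.valuation K (b i) < 1)))
    (hw : ∀ i, ∃ z : AlgebraicClosure K,
      aeval z (derivative (X ^ d i + C ((d i : K) * a i) * X + C (c i))) = 0 ∧
      Wandering (X ^ d i + C ((d i : K) * a i) * X + C (c i)) z)
    (α : ι → OnePoint K)
    (hαβ : ∀ i n, (ract (RingHom.id K) (algebraMap K[X] (RatFunc K) (X ^ d i + C ((d i : K) * a i) * X +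
      C (c i))))^[n] (α i) ≠ (b i : OnePoint K)) :
    PosDensity (AvoidSet (fun i => algebraMap K[X] (RatFunc K) (X ^ d i + C ((d i : K) * a i) * X + C (c i)))
      α (fun i => (b i : OnePoint K))) :=
  free_all_of (rows K) d a c b hd ha hs hv hw α hαβ

end Pool.Agent.ORB.Spec
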