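import Pool.Agent.ORB.GDefs

/-!
ORB, Theorem V3 (odd degrees): definitions.
-/

set_option autoImplicit false

namespace Pool.Agent.ORB.GP

open Polynomial NI NumberField IsDedekindDomain

universe u

/-- the local conditions of `LocT` at a prime at which the degree is a unit -/
def TamT {L : Type*} [Field L] [NumberField L] (h : L[X]) (b : L) : Prop :=
  ∃ v : HeightOneSpectrum (𝓞 L), (∀ i, v.valuation L (h.coeff i) ≤ 1) ∧ v.valuation L h.leadingCoeff = 1 ∧
    v.valuation L (h.natDegree : L) = 1 ∧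
    (1 < v.valuation L b ∨ ((∃ m, 1 ≤ m ∧ v.valuation L ((fun x => eval x h)^[m] b - b) < 1) ∧
      ∀ n i, 0 < i → i < h.natDegree → v.valuation L ((taylor ((fun x => eval x h)^[n] b) h).coeff i) < 1))

theorem TamT.locT {L : Type*} [Field L] [NumberField L] {h : L[X]} {b : L} (ht : TamT h b) : LocT h b := by
  obtain ⟨v, h1, h2, -, h3⟩ := ht
  exact ⟨v, h1, h2, h3⟩

/-- the fibres stay irreducible: for every finite set `T` the automorphisms which fix `T` and the levels `≤ m` above
`r` are transitive on every fibre of `h` in the level `m + 1`, for all large `m` -/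
def FT {F W : Type*} [Field F] [Field W] [Algebra F W] (h : F[X]) (r : W) : Prop :=
  ∀ T : Set W, T.Finite → ∃ m₀ : ℕ, ∀ m, m₀ ≤ m → ∀ z z' : W, (ev h)^[m + 1] z = r → ev h z = ev h z' →
    ∃ g : W ≃ₐ[F] W, (∀ t ∈ T, g t = t) ∧ g r = r ∧ (∀ k, k ≤ m → ∀ x : W, (ev h)^[k] x = r → g x = x) ∧ g z = z'

end Pool.Agent.ORB.GP
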