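import Pool.Agent.ORB.Noninj
import Pool.Agent.ORB.OnePrime
import Pool.Agent.ORB.Count3

/-! ORB, M10: Theorem III, almost all `β` for every tuple of polynomials over `ℚ`. -/

namespace Pool.Agent.ORB

open NumberField IsDedekindDomain Polynomial

/-- a common denominator -/
theorem exists_common {ι : Type} [Fintype ι] (f : ι → ℚ[X]) : ∃ (c : ℤ) (g : ι → ℤ[X]), c ≠ 0 ∧
    ∀ i, (g i).map (Int.castRingHom ℚ) = C (c : ℚ) * f i := by
  classical
  have h1 : ∀ i, ∃ (b : ℤ) (h : ℤ[X]), b ≠ 0 ∧ h.map (Int.castRingHom ℚ) = C (b : ℚ) * f i := by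
    intro i
    obtain ⟨b, hbm, hb⟩ := IsLocalization.integerNormalization_spec (nonZeroDivisors ℤ) (f i)
    refine ⟨b, IsLocalization.integerNormalization (nonZeroDivisors ℤ) (f i),
      nonZeroDivisors.ne_zero hbm, ?_⟩
    have h2 : (Int.castRingHom ℚ) = algebraMap ℤ ℚ := rfl
    rw [h2, hb]
    ext n
    rw [coeff_smul, coeff_C_mul, zsmul_eq_mul]
  choose b h hb hh using h1
  refine ⟨∏ i, b i, fun i => C (∏ j ∈ Finset.univ.erase i, b j) * h i,
    Finset.prod_ne_zero_iff.2 (fun i _ => hb i), fun i => ?_⟩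
  rw [Polynomial.map_mul, map_C, hh i, ← mul_assoc, ← C_mul, eq_intCast,
    ← Finset.mul_prod_erase Finset.univ b (Finset.mem_univ i)]
  push_cast
  rw [mul_comm (b i : ℚ)]

open Classical in
/-- Theorem III -/
theorem thmIII {ι : Type} [Fintype ι] (f : ι → ℚ[X]) (hf : ∀ i, 2 ≤ (f i).natDegree) :
    ∀ ε : ℝ, 0 < ε → ∃ H0 : ℕ, ∀ H : ℕ, H0 ≤ H →
      (((qbox ι H).filter (fun q => ¬ ∀ α : ι → OnePoint ℚ,
        (∀ i n, (act (f i))^[n] (α i) ≠ ((((q i).1 : ℚ) / ((q i).2 : ℚ) : ℚ) : OnePoint ℚ)) →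
        PosDensity (AvoidSet f α (fun i => ((((q i).1 : ℚ) / ((q i).2 : ℚ) : ℚ) : OnePoint ℚ))))).card
          : ℝ) ≤ ε * (qbox ι H).card := by
  intro ε hε
  obtain ⟨B, hB⟩ := of_one_prime f hf
  obtain ⟨c, g, hc, hg⟩ := exists_common f
  have hdeg : ∀ i, (g i).natDegree = (f i).natDegree := by
    intro i
    have h1 : ((g i).map (Int.castRingHom ℚ)).natDegree = (g i).natDegree :=
      natDegree_map_eq_of_injective (Int.castRingHom ℚ).injective_int _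
    rw [← h1, hg i, natDegree_C_mul (by exact_mod_cast hc)]
  have hg2 : ∀ i, 2 ≤ (g i).natDegree := fun i => (hdeg i).symm ▸ hf i
  have hg1 : ∀ i, 1 ≤ (g i).natDegree := fun i => le_trans one_le_two (hg2 i)
  set N := Fintype.card ι with hN
  set δ := dlt g with hδ
  have hδ0 : 0 < δ := dlt_pos g hg1
  have hδ1 : δ ≤ 1 := dlt_le_one g hg1
  obtain ⟨r, hr⟩ := exists_pow_lt_of_lt_one (y := 1 - δ) (x := ε / 4 ^ N) (by positivity) (by linarith)
  set S : Set ℕ := {p | p.Prime ∧ B < p ∧ ¬ ((p : ℤ) ∣ c) ∧ ∀ i, ¬ Function.Injective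
      (fun x : ZMod p => ((g i).map (Int.castRingHom (ZMod p))).eval x)} with hS
  have hSinf : S.Infinite := by
    apply Set.infinite_of_forall_exists_gt
    intro a
    obtain ⟨p, hp, hlt, hinj⟩ := exists_noninj g hg2 (a + B + c.natAbs)
    refine ⟨p, ⟨hp, by omega, ?_, hinj⟩, by omega⟩
    intro hdvd
    have := Int.natAbs_dvd_natAbs.2 hdvd
    rw [Int.natAbs_natCast] at this
    have := Nat.le_of_dvd (Int.natAbs_pos.2 hc) this
    omega
  obtain ⟨s, hsS, hsr⟩ := hSinf.exists_subset_card_eq r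
  have hs : ∀ p ∈ s, p.Prime := fun p hp => (hsS hp).1
  set m := ∏ p ∈ s, p with hm
  have hm0 : 0 < m := Finset.prod_pos (fun p hp => (hs p hp).pos)
  let Bad : ∀ p : ℕ, Finset (ι → ZMod p × ZMod p) := fun p =>
    if h : p.Prime then haveI := Fact.mk h; Finset.univ.filter (fun q => IsBad g c p q) else ∅
  refine ⟨m, fun H hH => ?_⟩
  have hmH : (1 : ℝ) ≤ m := by exact_mod_cast hm0
  have hHR : (m : ℝ) ≤ H := by exact_mod_cast hH
  -- bad tuples are bad modulo all `p ∈ s`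
  have hsub : ((qbox ι H).filter (fun q => ¬ ∀ α : ι → OnePoint ℚ,
        (∀ i n, (act (f i))^[n] (α i) ≠ ((((q i).1 : ℚ) / ((q i).2 : ℚ) : ℚ) : OnePoint ℚ)) →
        PosDensity (AvoidSet f α (fun i => ((((q i).1 : ℚ) / ((q i).2 : ℚ) : ℚ) : OnePoint ℚ))))) ⊆
      (qbox ι H).filter (fun q => ∀ p ∈ s, res p q ∈ Bad p) := by
    intro q hq
    rw [Finset.mem_filter] at hq ⊢
    refine ⟨hq.1, fun p hp => ?_⟩
    have hpp := hs p hp
    have hF := Fact.mk hpp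
    by_contra hnot
    apply hq.2
    have h1 : ∀ i, (res p q i).2 ≠ 0 ∧ ∀ x, (res p q i).2 * ((g i).map (Int.castRingHom (ZMod p))).eval x ≠
        (c : ZMod p) * (res p q i).1 := by
      by_contra hcon
      apply hnot
      show res p q ∈ (if h : p.Prime then haveI := Fact.mk h; Finset.univ.filter (fun q => IsBad g c p q)
        else ∅)
      rw [dif_pos hpp, Finset.mem_filter]
      exact ⟨Finset.mem_univ _, hcon⟩
    refine hB p (hsS hp).2.1 g c hc (hsS hp).2.2.1 hg (fun i => (q i).1) (fun i => (q i).2) ?_ ?_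
    · intro i hdvd
      apply (h1 i).1
      show (((q i).2 : ℤ) : ZMod p) = 0
      rw [ZMod.intCast_zmod_eq_zero_iff_dvd]
      exact hdvd
    · intro i x
      exact (h1 i).2 x
  have h2 := (Finset.card_le_card hsub).trans (card_all_bad_le s hs Bad H)
  have h3 : ∀ p ∈ s, ((Bad p).card : ℝ) ≤ (1 - δ) * ((p : ℝ) ^ 2) ^ N := by
    intro p hp
    have hpp := hs p hp
    have hF := Fact.mk hpp
    have h4 := card_bad_le g hg1 c (p := p) (hsS hp).2.2.1 (hsS hp).2.2.2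
    have h5 : Bad p = Finset.univ.filter (fun q => IsBad g c p q) := by
      show (if h : p.Prime then haveI := Fact.mk h; Finset.univ.filter (fun q => IsBad g c p q)
        else ∅) = _
      rw [dif_pos hpp]
    rw [h5]
    exact h4
  have h4 : ((∏ p ∈ s, (Bad p).card : ℕ) : ℝ) ≤ (1 - δ) ^ r * ((m : ℝ) ^ 2) ^ N := by
    rw [Nat.cast_prod]
    calc ∏ p ∈ s, ((Bad p).card : ℝ) ≤ ∏ p ∈ s, ((1 - δ) * ((p : ℝ) ^ 2) ^ N) :=
          Finset.prod_le_prod (fun _ _ => Nat.cast_nonneg _) h3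
      _ = (1 - δ) ^ r * ((m : ℝ) ^ 2) ^ N := by
          rw [Finset.prod_mul_distrib, Finset.prod_const, hsr, hm, Finset.prod_pow, Finset.prod_pow,
            Nat.cast_prod]
  have h5 : (((2 * H + 1) / m + 1 : ℕ) : ℝ) * m ≤ 2 * (2 * H + 1) := by
    have h6 : (((2 * H + 1) / m : ℕ) : ℝ) * m ≤ 2 * H + 1 := by exact_mod_cast Nat.div_mul_le_self _ _
    push_cast at h6 ⊢
    nlinarith
  have h6 : ((H / m + 1 : ℕ) : ℝ) * m ≤ 2 * H := by
    have h7 : ((H / m : ℕ) : ℝ) * m ≤ H := by exact_mod_cast Nat.div_mul_le_self _ _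
    push_cast at h7 ⊢
    nlinarith
  have h7 : (((2 * H + 1) / m + 1 : ℕ) : ℝ) * ((H / m + 1 : ℕ) : ℝ) * (m : ℝ) ^ 2 ≤
      4 * ((2 * H + 1) * H) := by
    calc (((2 * H + 1) / m + 1 : ℕ) : ℝ) * ((H / m + 1 : ℕ) : ℝ) * (m : ℝ) ^ 2
        = ((((2 * H + 1) / m + 1 : ℕ) : ℝ) * m) * (((H / m + 1 : ℕ) : ℝ) * m) := by ring
      _ ≤ (2 * (2 * H + 1)) * (2 * H) := mul_le_mul h5 h6 (by positivity) (by positivity)
      _ = 4 * ((2 * H + 1) * H) := by ring
  have h8 : (((qbox ι H).filter (fun q => ¬ ∀ α : ι → OnePoint ℚ,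
        (∀ i n, (act (f i))^[n] (α i) ≠ ((((q i).1 : ℚ) / ((q i).2 : ℚ) : ℚ) : OnePoint ℚ)) →
        PosDensity (AvoidSet f α (fun i => ((((q i).1 : ℚ) / ((q i).2 : ℚ) : ℚ) : OnePoint ℚ))))).card
          : ℝ) ≤ ((((2 * H + 1) / m + 1 : ℕ) : ℝ) * ((H / m + 1 : ℕ) : ℝ)) ^ N *
            ((∏ p ∈ s, (Bad p).card : ℕ) : ℝ) := by
    exact_mod_cast h2
  refine h8.trans ?_
  calc ((((2 * H + 1) / m + 1 : ℕ) : ℝ) * ((H / m + 1 : ℕ) : ℝ)) ^ N *
            ((∏ p ∈ s, (Bad p).card : ℕ) : ℝ)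
      ≤ ((((2 * H + 1) / m + 1 : ℕ) : ℝ) * ((H / m + 1 : ℕ) : ℝ)) ^ N *
          ((1 - δ) ^ r * ((m : ℝ) ^ 2) ^ N) := mul_le_mul_of_nonneg_left h4 (by positivity)
    _ = (1 - δ) ^ r * ((((2 * H + 1) / m + 1 : ℕ) : ℝ) * ((H / m + 1 : ℕ) : ℝ) * (m : ℝ) ^ 2) ^ N := by
        rw [mul_pow _ ((m : ℝ) ^ 2) N]; ring
    _ ≤ (1 - δ) ^ r * (4 * ((2 * H + 1) * H)) ^ N := by
        apply mul_le_mul_of_nonneg_left
        · exact pow_le_pow_left₀ (by positivity) h7 N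
        · exact pow_nonneg (by linarith) _
    _ ≤ (ε / 4 ^ N) * (4 * ((2 * H + 1) * H)) ^ N :=
        mul_le_mul_of_nonneg_right hr.le (by positivity)
    _ = ε * ((qbox ι H).card : ℝ) := by
        rw [card_qbox, ← hN, mul_pow]
        push_cast
        field_simp

end Pool.Agent.ORB
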