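import Pool.Agent.ORB.ThmII

/-! ORB, M8b: Theorem II for all `β_i`, the periodic ones included. -/

namespace Pool.Agent.ORB

open NumberField IsDedekindDomain Polynomial

universe u

/-- Theorem II: `K` has a real embedding `φ`, and for every finite `β_i` some iterated image
`f_i^N(ℝ)` contains no nonperiodic point of the backward orbit of `φ(β_i)` -/
theorem thmIIb {K : Type u} [Field K] [NumberField K] (φ : K →+* ℝ) {ι : Type} [Finite ι]
    (f : ι → K[X]) (hf : ∀ i, 2 ≤ (f i).natDegree) (α β : ι → OnePoint K)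
    (hαβ : ∀ i n, (act (f i))^[n] (α i) ≠ β i)
    (hβ : ∀ i (b : K), β i = (b : OnePoint K) → ∃ N : ℕ, ∀ x m,
      (fun y => ((f i).map φ).eval y)^[m] ((fun y => ((f i).map φ).eval y)^[N] x) = φ b →
      ∃ n : ℕ, 1 ≤ n ∧ (fun y => ((f i).map φ).eval y)^[n]
        ((fun y => ((f i).map φ).eval y)^[N] x) = (fun y => ((f i).map φ).eval y)^[N] x) :
    PosDensity (AvoidSet f α β) := by
  classical
  choose P hP hcol _ hroot hnp _ using fun i => exists_isTarget (f i) (hf i) (β i)
  have hN : ∀ i, ∃ N : ℕ, ∀ b : K, β i = (b : OnePoint K) → ∀ x m,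
      (fun y => ((f i).map φ).eval y)^[m] ((fun y => ((f i).map φ).eval y)^[N] x) = φ b →
      ∃ n : ℕ, 1 ≤ n ∧ (fun y => ((f i).map φ).eval y)^[n]
        ((fun y => ((f i).map φ).eval y)^[N] x) = (fun y => ((f i).map φ).eval y)^[N] x := by
    intro i
    by_cases h : ∃ b : K, β i = (b : OnePoint K)
    · obtain ⟨b, hb⟩ := h
      obtain ⟨N, hN⟩ := hβ i b hb
      refine ⟨N, fun b' hb' => ?_⟩
      have : b' = b := by
        rw [hb] at hb'
        exact (OnePoint.coe_injective hb').symm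
      rw [this]; exact hN
    · exact ⟨0, fun b hb => absurd ⟨b, hb⟩ h⟩
  choose N hN using hN
  set F : ι → K[X] := fun i => (P i).comp (iterP (f i) (N i)) with hF
  have hF0 : ∀ i, F i ≠ 0 := fun i => comp_iterP_ne_zero (hP i) (hf i) (N i)
  obtain ⟨L, _, _, _, hgal, hsp⟩ := exists_closure F hF0
  let _ : Algebra K ℂ := (Complex.ofRealHom.comp φ).toAlgebra
  have hKC : ∀ x : K, algebraMap K ℂ x = ((φ x : ℝ) : ℂ) := fun x => rfl
  have : Algebra.IsAlgebraic K L := by
    have : Algebra.IsAlgebraic ℚ L := inferInstance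
    exact Algebra.IsAlgebraic.tower_top (K := ℚ) K
  let ψ : L →ₐ[K] ℂ := IsAlgClosed.lift
  obtain ⟨σ, hσ⟩ := exists_conj (ψ : L →+* ℂ)
  have hψi : Function.Injective ψ := ψ.toRingHom.injective
  have hσK : ∀ x : K, σ (algebraMap K L x) = algebraMap K L x := by
    intro x
    apply hψi
    have h1 := hσ (algebraMap K L x)
    have h2 : ψ (algebraMap K L x) = ((φ x : ℝ) : ℂ) := by rw [ψ.commutes, hKC]
    change ψ (σ (algebraMap K L x)) = starRingEnd ℂ (ψ (algebraMap K L x)) at h1
    rw [h1, h2, Complex.conj_ofReal]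
  have hr : ∀ i, ∀ r : L, aeval r (F i) = 0 → σ r ≠ r := by
    intro i r hr hfix
    have h1 := hσ r
    rw [hfix] at h1
    have h1 : ψ r = starRingEnd ℂ (ψ r) := h1
    obtain ⟨x, hx⟩ := Complex.conj_eq_iff_real.mp h1.symm
    rw [hF] at hr
    simp only at hr
    rw [aeval_comp, aeval_iterP] at hr
    obtain ⟨b, hb, m, hm⟩ := hroot i L _ hr
    have h3 : ∀ (n : ℕ), ψ ((fun x => aeval x (f i))^[n] r) =
        (((fun y => ((f i).map φ).eval y)^[n] x : ℝ) : ℂ) := by
      intro n
      induction n with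
      | zero => exact hx
      | succ n ih =>
        rw [Function.iterate_succ_apply', Function.iterate_succ_apply', ← Polynomial.aeval_algHom_apply,
          ih]
        rw [aeval_def, eval_map, ← Complex.ofRealHom_eq_coe, ← Complex.ofRealHom_eq_coe, hom_eval₂]
        rfl
    have h4 := h3 (m + N i)
    rw [Function.iterate_add_apply, hm, ψ.commutes, hKC] at h4
    have h5 : φ b = (fun y => ((f i).map φ).eval y)^[m + N i] x := by exact_mod_cast h4
    rw [Function.iterate_add_apply] at h5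
    obtain ⟨n, hn, hper⟩ := hN i b hb x m h5.symm
    apply hnp i L _ hr n hn
    apply hψi
    rw [← Function.iterate_add_apply] at hper ⊢
    rw [h3, h3, hper]
  have hpos := posDensity_of_rootless σ hσK F hF0 hsp hr
  refine posDensity_mono ?_ hpos
  have hfin : (⋃ i, {v : HeightOneSpectrum (𝓞 K) | (∃ n, SameRed v ((act (f i))^[n] (α i)) (β i)) ∧
      ¬ HasRoot v (F i)}).Finite :=
    Set.finite_iUnion (fun i => hcol i (α i) (hαβ i) (N i))
  refine hfin.subset ?_
  rintro v ⟨hv1, hv2⟩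
  simp only [AvoidSet, Set.mem_ofPred_eq, not_forall, not_not] at hv1 hv2
  obtain ⟨i, n, hin⟩ := hv2
  rw [Set.mem_iUnion]
  exact ⟨i, ⟨n, hin⟩, hv1 i⟩

end Pool.Agent.ORB
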