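import Pool.Agent.ORB.EvSt

/-!
ORB, unicritical maps: the tree of the preimages of `b` under `x ^ p + c` (`uf p c`), general `p`.
-/

set_option autoImplicit false

namespace Pool.Agent.ORB.UQ

open Finset Polynomial

section poly

variable {K : Type*} [Field K]

/-- the polynomial of the level `n` -/
noncomputable def lp (p : ℕ) (c b : K) : ℕ → K[X]
  | 0 => X - C b
  | n + 1 => (lp p c b n).comp (X ^ p + C c)

theorem lp_natDegree {p : ℕ} (c b : K) (n : ℕ) : (lp p c b n).natDegree = p ^ n := by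
  induction n with
  | zero => simp [lp]
  | succ n ih =>
    have h : (X ^ p + C c : K[X]).natDegree = p := natDegree_X_pow_add_C
    rw [lp, natDegree_comp, ih, h, pow_succ]

theorem lp_monic {p : ℕ} (hp : p ≠ 0) (c b : K) (n : ℕ) : (lp p c b n).Monic := by
  induction n with
  | zero => exact monic_X_sub_C b
  | succ n ih =>
    rw [lp]
    exact ih.comp (monic_X_pow_add_C c hp) (by rw [natDegree_X_pow_add_C]; exact hp)

theorem aeval_lp {W : Type*} [Field W] [Algebra K W] {p : ℕ} (c b : K) (n : ℕ) (z : W) :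
    aeval z (lp p c b n) = (uf p (algebraMap K W c))^[n] z - algebraMap K W b := by
  induction n generalizing z with
  | zero => simp [lp]
  | succ n ih =>
    rw [lp, aeval_comp, ih, Function.iterate_succ_apply]
    simp [uf]

theorem eval_lp {p : ℕ} (c b : K) (n : ℕ) (z : K) :
    (lp p c b n).eval z = (uf p c)^[n] z - b := aeval_lp (W := K) c b n z

end poly

section pre

variable {W : Type*} [Field W]

open Classical in
/-- the preimages of `x` under the `e`-th iterate -/
noncomputable def pre (p : ℕ) (c : W) (e : ℕ) (x : W) : Finset W := (lp p c x e).roots.toFinset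

theorem mem_pre {p : ℕ} (hp : p ≠ 0) {c : W} {e : ℕ} {x z : W} :
    z ∈ pre p c e x ↔ (uf p c)^[e] z = x := by
  classical
  rw [pre, Multiset.mem_toFinset, mem_roots (lp_monic hp c x e).ne_zero, IsRoot, eval_lp, sub_eq_zero]

theorem pre_zero {p : ℕ} (hp : p ≠ 0) (c x : W) : pre p c 0 x = {x} := by
  ext z
  rw [mem_pre hp, mem_singleton]
  rfl

/-- the derivative of the polynomial of a level does not vanish at the points of the level -/
theorem deriv_lp [CharZero W] {p : ℕ} (hp : p ≠ 0) {c x : W} (e : ℕ)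
    (h : ∀ i < e, ∀ y, (uf p c)^[i] y = x → y ≠ c) {z : W} (hz : (uf p c)^[e] z = x) :
    (derivative (lp p c x e)).eval z ≠ 0 := by
  induction e generalizing z with
  | zero => simp [lp]
  | succ e ih =>
    rw [Function.iterate_succ_apply] at hz
    have h1 := ih (fun i hi => h i (hi.trans (Nat.lt_succ_self e))) hz
    have h2 : uf p c z ≠ c := h e (Nat.lt_succ_self e) _ hz
    have hz0 : z ≠ 0 := by
      rintro rfl
      apply h2
      simp [uf, hp]
    rw [lp, derivative_comp, eval_mul, eval_comp]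
    refine mul_ne_zero ?_ ?_
    · simp only [derivative_add, derivative_X_pow, derivative_C, add_zero, eval_mul, eval_pow, eval_X,
        eval_natCast, map_natCast]
      exact mul_ne_zero (by exact_mod_cast hp) (pow_ne_zero _ hz0)
    · have h3 : (X ^ p + C c : W[X]).eval z = uf p c z := by simp [uf]
      rw [h3]
      exact h1

theorem lp_nodup [CharZero W] {p : ℕ} (hp : p ≠ 0) {c x : W} (e : ℕ)
    (h : ∀ i < e, ∀ y, (uf p c)^[i] y = x → y ≠ c) : (lp p c x e).roots.Nodup := by
  classical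
  rw [Multiset.nodup_iff_count_le_one]
  intro z
  rw [count_roots]
  by_contra hcon
  rw [not_le] at hcon
  obtain ⟨h1, h2⟩ := (one_lt_rootMultiplicity_iff_isRoot (lp_monic hp c x e).ne_zero).1 hcon
  refine deriv_lp hp e h ?_ h2
  rw [IsRoot, eval_lp, sub_eq_zero] at h1
  exact h1

/-- the value of the iterate as a product over the level -/
theorem prod_sub [IsAlgClosed W] [CharZero W] {p : ℕ} (hp : p ≠ 0) {c : W} (e : ℕ) {x : W}
    (h : ∀ i < e, ∀ y, (uf p c)^[i] y = x → y ≠ c) (t : W) :
    ∏ z ∈ pre p c e x, (t - z) = (uf p c)^[e] t - x := by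
  classical
  have h1 := (IsAlgClosed.splits (lp p c x e)).eq_prod_roots_of_monic (lp_monic hp c x e)
  have h2 : (lp p c x e).roots.toFinset.val = (lp p c x e).roots := by
    rw [Multiset.toFinset_val]
    exact Multiset.dedup_eq_self.2 (lp_nodup hp e h)
  have h3 : (uf p c)^[e] t - x = (Multiset.map (fun z => t - z) (lp p c x e).roots).prod := by
    rw [← eval_lp]
    conv_lhs => rw [h1]
    rw [eval_multiset_prod, Multiset.map_map]
    congr 1
    refine Multiset.map_congr rfl fun z _ => ?_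
    simp
  rw [h3, pre, Finset.prod, h2]

theorem card_pre [IsAlgClosed W] [CharZero W] {p : ℕ} (hp : p ≠ 0) {c : W} (e : ℕ) {x : W}
    (h : ∀ i < e, ∀ y, (uf p c)^[i] y = x → y ≠ c) : (pre p c e x).card = p ^ e := by
  classical
  rw [pre, Multiset.toFinset_card_of_nodup (lp_nodup hp e h),
    ← (IsAlgClosed.splits (lp p c x e)).natDegree_eq_card_roots, lp_natDegree]

/-- products over a level, fibre by fibre -/
theorem prod_pre_add {p : ℕ} (hp : p ≠ 0) (c x : W) (e e' : ℕ) {M : Type*} [CommMonoid M] (φ : W → M) :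
    ∏ z ∈ pre p c (e + e') x, φ z = ∏ s ∈ pre p c e x, ∏ z ∈ pre p c e' s, φ z := by
  classical
  rw [← Finset.prod_fiberwise_of_maps_to (s := pre p c (e + e') x) (t := pre p c e x)
    (g := fun z => (uf p c)^[e'] z)]
  · refine Finset.prod_congr rfl fun s hs => Finset.prod_congr ?_ fun _ _ => rfl
    ext z
    rw [Finset.mem_filter, mem_pre hp, mem_pre hp, Function.iterate_add_apply]
    constructor
    · rintro ⟨-, h⟩
      exact h
    · intro h
      refine ⟨?_, h⟩
      rw [h]
      exact (mem_pre hp).1 hs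
  · intro z hz
    rw [mem_pre hp] at hz ⊢
    rw [← Function.iterate_add_apply]
    exact hz

/-- siblings -/
theorem pre_mul {p : ℕ} (hp : p ≠ 0) {c x z ξ : W} {e : ℕ} (hξ : ξ ^ p = 1)
    (hz : z ∈ pre p c (e + 1) x) : ξ * z ∈ pre p c (e + 1) x := by
  rw [mem_pre hp, Function.iterate_succ_apply] at hz ⊢
  have h : uf p c (ξ * z) = uf p c z := by
    rw [uf, uf, mul_pow, hξ, one_mul]
  rw [h]
  exact hz

end pre

section tree

variable {K W : Type*} [Field K] [Field W] [Algebra K W]

/-- the level `l` of the tree of the preimages of `b` -/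
def Lev (p : ℕ) (W : Type*) [Field W] [Algebra K W] (c b : K) (l : ℕ) : Set W :=
  {z | (uf p (algebraMap K W c))^[l] z = algebraMap K W b}

theorem mem_Lev {p : ℕ} {c b : K} {l : ℕ} {z : W} :
    z ∈ Lev p W c b l ↔ (uf p (algebraMap K W c))^[l] z = algebraMap K W b := Iff.rfl

theorem Lev_succ {p : ℕ} {c b : K} {l : ℕ} {z : W} :
    z ∈ Lev p W c b (l + 1) ↔ uf p (algebraMap K W c) z ∈ Lev p W c b l := by
  rw [mem_Lev, Function.iterate_succ_apply]
  rfl

theorem Lev_iter {p : ℕ} {c b : K} {l e : ℕ} {z : W} :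
    z ∈ Lev p W c b (l + e) ↔ (uf p (algebraMap K W c))^[e] z ∈ Lev p W c b l := by
  rw [mem_Lev, Function.iterate_add_apply]
  rfl

theorem aut_iter (p : ℕ) (c : K) (g : W ≃ₐ[K] W) (n : ℕ) (z : W) :
    g ((uf p (algebraMap K W c))^[n] z) = (uf p (algebraMap K W c))^[n] (g z) := by
  have h := uf_map (g : W ≃ₐ[K] W).toRingEquiv.toRingHom p (algebraMap K W c) z n
  have h2 : (g : W ≃ₐ[K] W).toRingEquiv.toRingHom (algebraMap K W c) = algebraMap K W c :=
    g.commutes c
  rw [h2] at h
  exact h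

theorem Lev_aut {p : ℕ} {c b : K} {l : ℕ} {z : W} (g : W ≃ₐ[K] W) (hz : z ∈ Lev p W c b l) :
    g z ∈ Lev p W c b l := by
  rw [mem_Lev] at hz ⊢
  rw [← aut_iter, hz, g.commutes]

theorem Lev_finite {p : ℕ} (hp : p ≠ 0) (c b : K) (n : ℕ) : (Lev p W c b n).Finite := by
  refine ((lp p c b n).rootSet_finite W).subset fun z hz => ?_
  rw [mem_rootSet]
  refine ⟨(lp_monic hp c b n).ne_zero, ?_⟩
  rw [aeval_lp, mem_Lev.1 hz, sub_self]

/-- a value below the level: `b` is not in the orbit of `0` -/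
theorem ne_of_Lev {p : ℕ} (hp : p ≠ 0) {c b : K} (hb : ∀ n, 1 ≤ n → (uf p c)^[n] 0 ≠ b) {l : ℕ} {y : W}
    (hy : y ∈ Lev p W c b l) : y ≠ algebraMap K W c := by
  rintro rfl
  rw [mem_Lev, ← uf_map] at hy
  have h1 := (algebraMap K W).injective hy
  apply hb (l + 1) (Nat.succ_pos l)
  rw [Function.iterate_succ_apply]
  have h2 : uf p c 0 = c := by simp [uf, hp]
  rw [h2, h1]

/-- transitivity on the level `l` -/
def Tran (p : ℕ) (W : Type*) [Field W] [Algebra K W] (c b : K) (l : ℕ) : Prop :=
  ∀ y ∈ Lev p W c b l, ∀ y' ∈ Lev p W c b l, ∃ g : W ≃ₐ[K] W, g y = y'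

end tree

end Pool.Agent.ORB.UQ
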