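import Pool.Agent.ORB.UBranch
import Pool.Agent.ORB.UWindow

/-!
ORB, Theorem V for unicritical polynomials `x ^ d + c`, row U3, final form (every degree `d`).
-/

set_option autoImplicit false

namespace Pool.Agent.ORB.UQ

universe u

/-- ROW U3, every degree `d`: an automorphism, given on a finite set, with at least `m + 1` fixed
points on the level `m` of the tree of a far point `f ^ k (b)` of the orbit of `b`. -/
theorem branchesD {K W : Type u} [Field K] [NumberField K] [Field W] [Algebra K W]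
    [IsAlgClosed W] [Algebra.IsAlgebraic K W] {d : ℕ} (hd : 2 ≤ d) {ζ c b : K}
    (hζ : IsPrimitiveRoot ζ d)
    (h0 : Function.Injective fun n : ℕ => (uf d c)^[n] 0)
    (hw : Function.Injective fun n : ℕ => (uf d c)^[n] b)
    {T : Set W} (hT : T.Finite) (s₁ : W ≃ₐ[K] W) (m N0 : ℕ) :
    ∃ k, N0 ≤ k ∧ ∃ s : W ≃ₐ[K] W, (∀ t ∈ T, s t = s₁ t) ∧
      m + 1 ≤ (Fix d W c ((uf d c)^[k] b) m s).ncard := by
  refine branches_of_windowD hd hζ h0 hw hT s₁ m N0 ?_
  intro L _ _ ζ c x0 hζ h0 hw F hF m N0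
  refine windowAll' (by omega) hζ c x0 hw F hF ?_ m N0
  rintro rfl
  constructor
  · rintro rfl
    have h1 : (uf 2 (0 : L))^[1] 0 = (uf 2 (0 : L))^[0] 0 := by simp [uf]
    exact absurd (h0 h1) one_ne_zero
  · rintro rfl
    have h1 : (uf 2 (-2 : L))^[3] 0 = (uf 2 (-2 : L))^[2] 0 := by
      simp only [Function.iterate_succ_apply, Function.iterate_zero_apply, uf]
      norm_num
    have h2 : 3 = 2 := h0 h1
    omega

/-- ROW U3 for a prime degree -/
theorem branches {K W : Type u} [Field K] [NumberField K] [Field W] [Algebra K W] [IsAlgClosed W]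
    [Algebra.IsAlgebraic K W] {p : ℕ} (hp : p.Prime) {ζ c b : K} (hζ : IsPrimitiveRoot ζ p)
    (h0 : Function.Injective fun n : ℕ => (uf p c)^[n] 0)
    (hw : Function.Injective fun n : ℕ => (uf p c)^[n] b)
    {T : Set W} (hT : T.Finite) (s₁ : W ≃ₐ[K] W) (m N0 : ℕ) :
    ∃ k, N0 ≤ k ∧ ∃ s : W ≃ₐ[K] W, (∀ t ∈ T, s t = s₁ t) ∧
      m + 1 ≤ (Fix p W c ((uf p c)^[k] b) m s).ncard :=
  branchesD hp.two_le hζ h0 hw hT s₁ m N0

end Pool.Agent.ORB.UQ
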