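import Pool.Agent.ORB.UEng

/-!
ORB, Theorem V for unicritical polynomials `x ^ d + c`: branches and engine without the hypothesis that
`0` is wandering.
-/

set_option autoImplicit false

namespace Pool.Agent.ORB.UQ

open Finset Polynomial

section tran

variable {K W : Type*} [Field K] [CharZero K] [Field W] [Algebra K W] [IsAlgClosed W]
  [Algebra.IsAlgebraic K W]

omit [CharZero K] in
/-- many fixed points, from the transitivity on the branches -/
theorem branches_of_tran {d : ℕ} (hd : 2 ≤ d) {ζ c b : K} (hζd1 : ζ ^ d = 1) (hζ1 : ζ ≠ 1)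
    (hw : Function.Injective fun n : ℕ => (uf d c)^[n] b)
    {T : Set W} (hT : T.Finite) (s₁ : W ≃ₐ[K] W) (m N0 : ℕ)
    (htr : ∀ E : IntermediateField K W, FiniteDimensional K E → ∀ N : ℕ, ∃ k, N ≤ k ∧ ∀ l < m,
      ∀ y ∈ Lev d W c (ζ * (uf d c)^[k + l] b) l, ∀ y' ∈ Lev d W c (ζ * (uf d c)^[k + l] b) l,
        ∃ g ∈ E.fixingSubgroup, g y = y') :
    ∃ k, N0 ≤ k ∧ ∃ s : W ≃ₐ[K] W, (∀ t ∈ T, s t = s₁ t) ∧
      m + 1 ≤ (Fix d W c ((uf d c)^[k] b) m s).ncard := by
  classical
  have hd0 : d ≠ 0 := by omega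
  have hζd : ∀ x : K, uf d c (ζ * x) = uf d c x := by
    intro x
    rw [uf, uf, mul_pow, hζd1, one_mul]
  set E : IntermediateField K W := IntermediateField.adjoin K T with hE
  have hTE : ∀ t ∈ T, t ∈ E := fun t ht => IntermediateField.subset_adjoin K _ ht
  have hfin : FiniteDimensional K E := by
    have h1 : Finite T := hT
    exact IntermediateField.finiteDimensional_adjoin
      fun x _ => (Algebra.IsAlgebraic.isAlgebraic x).isIntegral
  -- the window
  obtain ⟨M, hM⟩ : ∃ M, ∀ n, M ≤ n → (uf d c)^[n] b ≠ 0 := by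
    by_cases h : ∃ n, (uf d c)^[n] b = 0
    · obtain ⟨n, hn⟩ := h
      refine ⟨n + 1, fun n' hn' h' => ?_⟩
      have : n' = n := hw (h'.trans hn.symm)
      omega
    · push Not at h
      exact ⟨0, fun n _ => h n⟩
  obtain ⟨k, hk, htran⟩ := htr E hfin (max N0 M)
  set β : ℕ → K := fun l => ζ * (uf d c)^[k + l] b with hβ
  -- the points of the branches are on the level `m`
  have hstep : ∀ l, ∀ x ∈ Lev d W c (β l) l,
      (uf d (algebraMap K W c))^[l + 1] x = algebraMap K W ((uf d c)^[k + l + 1] b) := by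
    intro l x hx
    rw [Function.iterate_succ_apply', mem_Lev.1 hx, Function.iterate_succ_apply', ← hζd]
    exact (uf_map (algebraMap K W) d c _ 1).symm
  have hlev : ∀ l, l < m → ∀ x ∈ Lev d W c (β l) l, x ∈ Lev d W c ((uf d c)^[k + m] b) m := by
    intro l hl x hx
    rw [mem_Lev, show m = (m - (l + 1)) + (l + 1) by omega, Function.iterate_add_apply,
      hstep l x hx, ← uf_map, ← Function.iterate_add_apply]
    congr 2
    omega
  have hmem : ∀ (l : ℕ) (b' : K) (w : W),
      w ∈ pre d (algebraMap K W c) l (algebraMap K W b') ↔ w ∈ Lev d W c b' l :=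
    fun l b' w => mem_pre hd0
  let S : Option (Fin m) → Finset W := fun o => match o with
    | none => {algebraMap K W ((uf d c)^[k] b)}
    | some l => pre d (algebraMap K W c) l (algebraMap K W (β l))
  have hSn : ∀ x, x ∈ S none ↔ x = algebraMap K W ((uf d c)^[k] b) := fun x => Finset.mem_singleton
  have hSs : ∀ (l : Fin m) (x : W), x ∈ S (some l) ↔ x ∈ Lev d W c (β l) l :=
    fun l x => hmem _ _ _
  -- a point of a branch does not satisfy the equation of a later one
  have hneβ : ∀ l, (uf d c)^[k + l] b ≠ β l := by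
    intro l h
    have h1 : (uf d c)^[k + l] b ≠ 0 := hM _ ((le_max_right _ _).trans (hk.trans (by omega)))
    have h2 : (ζ - 1) * (uf d c)^[k + l] b = 0 := by
      rw [hβ] at h
      linear_combination -h
    rcases mul_eq_zero.1 h2 with h6 | h6
    · exact hζ1 (sub_eq_zero.1 h6)
    · exact h1 h6
  have hdis1 : ∀ l : Fin m, algebraMap K W ((uf d c)^[k] b) ∉ Lev d W c (β l) l := by
    intro l h
    rw [mem_Lev, ← uf_map, ← Function.iterate_add_apply] at h
    have h2 := (algebraMap K W).injective h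
    rw [show (l : ℕ) + k = k + l by omega] at h2
    exact hneβ l h2
  have hdis2 : ∀ l l' : Fin m, l < l' → ∀ x ∈ Lev d W c (β l) l, x ∉ Lev d W c (β l') l' := by
    intro l l' hll' x hx hx'
    have hlt : (l : ℕ) < l' := hll'
    rw [mem_Lev, show (l' : ℕ) = (l' - (l + 1)) + (l + 1) by omega, Function.iterate_add_apply,
      hstep l x hx, ← uf_map, ← Function.iterate_add_apply] at hx'
    have h2 := (algebraMap K W).injective hx'
    rw [show (l' : ℕ) - (l + 1) + (k + l + 1) = k + ((l' : ℕ) - (l + 1) + (l + 1)) by omega] at h2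
    exact hneβ _ h2
  have hStab : ∀ (g : W ≃ₐ[K] W) (o : Option (Fin m)), ∀ x ∈ S o, g x ∈ S o := by
    intro g o x hx
    cases o with
    | none =>
      rw [hSn] at hx ⊢
      rw [hx, g.commutes]
    | some l =>
      rw [hSs] at hx ⊢
      exact Lev_aut g hx
  obtain ⟨n, hn, hcard⟩ := WAvg.exists_fix_ge (G := W ≃ₐ[K] W) (X := W) E.fixingSubgroup s₁
    (pre d (algebraMap K W c) m (algebraMap K W ((uf d c)^[k + m] b)))
    (by
      intro g x hx
      rw [hmem] at hx ⊢
      exact Lev_aut g hx)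
    S
    (by
      intro o x hx
      rw [hmem]
      cases o with
      | none =>
        rw [hSn] at hx
        rw [hx, mem_Lev, ← uf_map, ← Function.iterate_add_apply, add_comm m k]
      | some l => exact hlev l l.2 x ((hSs l x).1 hx))
    (by
      intro o
      cases o with
      | none => exact ⟨_, (hSn _).2 rfl⟩
      | some l =>
        obtain ⟨z, hz⟩ := Lev_nonempty (W := W) hd0 c (β l) l
        exact ⟨z, (hSs l z).2 hz⟩)
    (by
      intro o o' hoo'
      rw [Finset.disjoint_left]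
      intro x hx hx'
      cases o with
      | none =>
        cases o' with
        | none => exact hoo' rfl
        | some l' =>
          rw [hSn] at hx
          rw [hSs, hx] at hx'
          exact hdis1 l' hx'
      | some l =>
        cases o' with
        | none =>
          rw [hSn] at hx'
          rw [hSs, hx'] at hx
          exact hdis1 l hx
        | some l' =>
          rw [hSs] at hx hx'
          rcases lt_trichotomy l l' with h | h | h
          · exact hdis2 l l' h x hx hx'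
          · exact hoo' (by rw [h])
          · exact hdis2 l' l h x hx' hx)
    (fun o x hx g _ => hStab g o x hx)
    (by
      intro o x hx y hy
      cases o with
      | none =>
        rw [hSn] at hx hy
        exact ⟨1, E.fixingSubgroup.one_mem, by rw [hx, hy, one_smul]⟩
      | some l =>
        rw [hSs] at hx hy
        exact htran l l.2 x hx y hy)
    (fun o x hx => hStab s₁ o x hx)
  refine ⟨k + m, ((le_max_left _ _).trans hk).trans (by omega), s₁ * n, ?_, ?_⟩
  · intro t ht
    rw [AlgEquiv.mul_apply]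
    congr 1
    exact ((IntermediateField.mem_fixingSubgroup_iff _ _).1 hn) t (hTE t ht)
  · rw [Fintype.card_option, Fintype.card_fin] at hcard
    refine hcard.trans (Set.ncard_le_ncard ?_ (Fix_finite hd0 _ _ _ _))
    rintro x ⟨hx, hx'⟩
    exact ⟨(hmem _ _ _).1 (Finset.mem_coe.1 hx), hx'⟩

/-- transitivity on the branch of `-γ`, `γ = γ' ^ 2 + c`, over `E` (degree 2, any `c`) -/
theorem tran_two (E : IntermediateField K W) {η ρ : W} (hη : η ∈ E) (hη1 : η ^ 2 = -1)
    (hρ : ρ ∈ E) (hρ1 : ρ ^ 2 = 2) {c γ γ' : K} (hc0 : c ≠ 0) (hγ : γ = γ' ^ 2 + c) (hγc : γ ≠ c)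
    (l : ℕ)
    (h1 : ∀ j < l, (uf 2 c)^[j + 1] 0 ≠ -c → ∀ y ∈ E,
      y ^ 2 ≠ algebraMap K W (γ + (uf 2 c)^[j + 1] 0))
    (h2 : ∀ j < l, (uf 2 c)^[j + 1] 0 = -c → ∀ y ∈ E,
      y ^ 2 ≠ algebraMap K W (γ' + (uf 2 c)^[j] 0) ∧ y ^ 2 ≠ algebraMap K W (γ' - (uf 2 c)^[j] 0)) :
    ∀ y ∈ Lev 2 W c (-γ) l, ∀ y' ∈ Lev 2 W c (-γ) l, ∃ g ∈ E.fixingSubgroup, g y = y' := by
  classical
  have hW : CharZero W := charZero_of_injective_algebraMap (algebraMap K W).injective
  have hζ : IsPrimitiveRoot (-1 : K) 2 := IsPrimitiveRoot.neg_one 0 (by norm_num)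
  have huc : uf 2 c 0 = c := by simp [uf]
  have hne : ∀ j < l, (uf 2 c)^[j] c ≠ -γ := by
    intro j hj h
    have e1 : (uf 2 c)^[j + 1] 0 = (uf 2 c)^[j] c := by rw [Function.iterate_succ_apply, huc]
    by_cases h3 : (uf 2 c)^[j + 1] 0 = -c
    · rw [e1, h] at h3
      exact hγc (neg_injective h3)
    · refine h1 j hj h3 0 E.zero_mem ?_
      rw [e1, h, add_neg_cancel, map_zero]
      norm_num
  have hneW : ∀ j < l, ∀ y, (uf 2 (algebraMap K W c))^[j] y = algebraMap K W (-γ) →
      y ≠ algebraMap K W c := by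
    rintro j hj y hy rfl
    rw [← uf_map] at hy
    exact hne j hj ((algebraMap K W).injective hy)
  clear hne
  induction l with
  | zero =>
    intro y hy y' hy'
    refine ⟨1, E.fixingSubgroup.one_mem, ?_⟩
    rw [mem_Lev, Function.iterate_zero_apply] at hy hy'
    rw [hy, hy', AlgEquiv.one_apply]
  | succ l ih =>
    have ih' := ih (fun j hj => h1 j (hj.trans (Nat.lt_succ_self l)))
      (fun j hj => h2 j (hj.trans (Nat.lt_succ_self l)))
      (fun j hj => hneW j (hj.trans (Nat.lt_succ_self l)))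
    intro y hy y' hy'
    obtain ⟨g, hg, hgy⟩ := ih' _ (Lev_succ.1 hy) _ (Lev_succ.1 hy')
    have h3 : uf 2 (algebraMap K W c) (g y) = uf 2 (algebraMap K W c) y' := by
      rw [← hgy]
      exact (aut_iter 2 c g 1 y).symm
    obtain ⟨i, -, hi⟩ := (uf_eq_iff two_ne_zero hζ).1 h3
    have hz : g y ∈ Lev 2 W c (-γ) (l + 1) := Lev_aut g hy
    set z := g y with hzdef
    set x := uf 2 (algebraMap K W c) z with hx
    have hxL : x ∈ Lev 2 W c (-γ) l := Lev_succ.1 hz
    have hxc : x ≠ algebraMap K W c := hneW l (Nat.lt_succ_self l) x hxL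
    have hzd : z ^ 2 = x - algebraMap K W c := by rw [hx, uf, add_sub_cancel_right]
    have hz0 : z ≠ 0 := by
      rintro h
      rw [h, zero_pow two_ne_zero] at hzd
      exact hxc (sub_eq_zero.1 hzd.symm)
    let Hx : Subgroup (W ≃ₐ[K] W) := E.fixingSubgroup ⊓ MulAction.stabilizer (W ≃ₐ[K] W) x
    have hHx : ∀ h, h ∈ Hx ↔ h ∈ E.fixingSubgroup ∧ h x = x := fun h => by
      rw [Subgroup.mem_inf, MulAction.mem_stabilizer_iff, AlgEquiv.smul_def]
    rcases kummer_step two_ne_zero hζ Hx hz0 (fun h hh => by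
      rw [hzd, map_sub, ((hHx h).1 hh).2, h.commutes]) with hall | ⟨q, hq, hqd, hfix⟩
    · obtain ⟨h, hh, he⟩ := hall i
      refine ⟨h * g, E.fixingSubgroup.mul_mem ((hHx h).1 hh).1 hg, ?_⟩
      rw [AlgEquiv.mul_apply, ← hzdef, he, hi]
    · exfalso
      obtain rfl : q = 2 := (Nat.prime_dvd_prime_iff_eq hq Nat.prime_two).1 hqd
      have hfix' : ∀ h ∈ E.fixingSubgroup, h x = x → h z = z := by
        intro h hh hhx
        have := hfix h ((hHx h).2 ⟨hh, hhx⟩)
        rwa [Nat.div_self (by norm_num), pow_one] at this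
      have hηf : ∀ h ∈ E.fixingSubgroup, ∀ n : ℕ, h (η ^ n) = η ^ n := fun h hh n => by
        rw [map_pow, ((IntermediateField.mem_fixingSubgroup_iff _ _).1 hh) η hη]
      by_cases hcase : (uf 2 c)^[l + 1] 0 = -c
      · -- the special case
        obtain ⟨e, rfl⟩ : ∃ e, l = e + 1 := by
          rcases l with _ | e
          · exfalso
            rw [zero_add, Function.iterate_one, huc] at hcase
            have h5 : (2 : K) * c = 0 := by linear_combination hcase
            rcases mul_eq_zero.1 h5 with h6 | h6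
            · exact two_ne_zero h6
            · exact hc0 h6
          · exact ⟨e, rfl⟩
        set C : W := algebraMap K W c with hC
        set y1 : W := (uf 2 C)^[e] x with hy1
        have hy1L : y1 ∈ Lev 2 W c (-γ) 1 := by
          rw [add_comm e 1, Lev_iter] at hxL
          exact hxL
        have hy1sq : y1 ^ 2 = algebraMap K W (-γ) - C := by
          rw [mem_Lev, Function.iterate_one] at hy1L
          rw [← hy1L, uf, add_sub_cancel_right]
        let H : Subgroup (W ≃ₐ[K] W) := E.fixingSubgroup ⊓ MulAction.stabilizer (W ≃ₐ[K] W) y1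
        have hH : ∀ h, h ∈ H ↔ h ∈ E.fixingSubgroup ∧ h y1 = y1 := fun h => by
          rw [Subgroup.mem_inf, MulAction.mem_stabilizer_iff, AlgEquiv.smul_def]
        have hmem : ∀ w, w ∈ pre 2 C e y1 ↔ (uf 2 C)^[e] w = y1 := fun w => mem_pre two_ne_zero
        have hup : ∀ w, (uf 2 C)^[e] w = y1 → w ∈ Lev 2 W c (-γ) (e + 1) := by
          intro w hw
          rw [add_comm e 1, Lev_iter, ← hC, hw]
          exact hy1L
        obtain ⟨Θ, hΘ1, hΘ2⟩ := orbProdPow H (pre 2 C e y1) x
          (fun h hh w hw => by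
            rw [hmem] at hw ⊢
            rw [hC, ← aut_iter, ← hC, hw, ((hH h).1 hh).2])
          (fun w hw => by
            rw [hmem] at hw
            obtain ⟨h, hh, hhx⟩ := ih' x hxL w (hup w hw)
            refine ⟨h, (hH h).2 ⟨hh, ?_⟩, hhx⟩
            rw [hy1, hC, aut_iter, ← hC, hhx, hw])
          (fun w => w - C) (fun h _ w _ => by rw [map_sub, hC, h.commutes])
          ((hmem x).2 rfl) z 2 hzd
          (fun h hh hhx => hfix' h ((hH h).1 hh).1 hhx)
        have hprod := prod_sub (W := W) two_ne_zero (c := C) e (x := y1)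
          (fun i hi w hw => by
            refine hneW (i + 1) (by omega) w ?_
            rw [Function.iterate_succ_apply', hw]
            exact hy1L) C
        have huCe : (uf 2 C)^[e] C = algebraMap K W ((uf 2 c)^[e + 1] 0) := by
          rw [Function.iterate_succ_apply, huc, uf_map]
        set N := (pre 2 C e y1).card with hN
        have hneg : ∏ w ∈ pre 2 C e y1, (w - C)
            = (-1) ^ N * (algebraMap K W ((uf 2 c)^[e + 1] 0) - y1) := by
          rw [← huCe, ← hprod, hN, ← Finset.prod_const, ← Finset.prod_mul_distrib]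
          refine Finset.prod_congr rfl fun w _ => by ring
        set X : W := algebraMap K W ((uf 2 c)^[e + 1] 0) with hX
        set Θ₀ : W := η ^ N * Θ with hΘ₀
        have hΘ₀2 : Θ₀ ^ 2 = X - y1 := by
          rw [hΘ₀, mul_pow, hΘ2, hneg, ← mul_assoc, ← pow_mul, mul_comm N 2, pow_mul, hη1,
            ← mul_pow, neg_one_mul, neg_neg, one_pow, one_mul]
        have hΘ₀f : ∀ h ∈ E.fixingSubgroup, h y1 = y1 → h Θ₀ = Θ₀ := by
          intro h hh hhy
          rw [hΘ₀, map_mul, hηf h hh, hΘ1 h ((hH h).2 ⟨hh, hhy⟩)]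
        -- the conjugate
        obtain ⟨w, hw⟩ := exists_pre two_ne_zero C e (-y1)
        have hwL : w ∈ Lev 2 W c (-γ) (e + 1) := by
          rw [add_comm e 1, Lev_iter, ← hC, hw, mem_Lev, Function.iterate_one, ← hC, uf, neg_sq,
            hy1sq]
          ring
        obtain ⟨σ, hσ, hσx⟩ := ih' x hxL w hwL
        have hσy : σ y1 = -y1 := by rw [hy1, hC, aut_iter, ← hC, hσx, hw, hy1]
        have hσi : ∀ {a b : W}, σ a = b → (σ⁻¹ : W ≃ₐ[K] W) b = a := by
          rintro a b rfl
          rw [← AlgEquiv.mul_apply, inv_mul_cancel, AlgEquiv.one_apply]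
        have hσΘ2 : (σ Θ₀) ^ 2 = X + y1 := by
          rw [← map_pow, hΘ₀2, map_sub, hσy, hX, σ.commutes]
          ring
        have hXsq : X ^ 2 = -C - C := by
          have h5 : ((uf 2 c)^[e + 1] 0) ^ 2 + c = -c := by
            rw [← hcase, Function.iterate_succ_apply' _ (e + 1), uf]
          have h6 := congrArg (algebraMap K W) h5
          rw [map_add, map_pow, map_neg, ← hX, ← hC] at h6
          linear_combination h6
        have hprodΘ : (Θ₀ * σ Θ₀) ^ 2 = (algebraMap K W γ') ^ 2 := by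
          rw [mul_pow, hΘ₀2, hσΘ2]
          have h5 := congrArg (algebraMap K W) hγ
          rw [map_add, map_pow, ← hC] at h5
          rw [map_neg] at hy1sq
          linear_combination hXsq - hy1sq + h5
        set τ : W := Θ₀ + σ Θ₀ with hτ
        have hτf : ∀ h ∈ E.fixingSubgroup, h τ = τ := by
          intro h hh
          have h5 : (h y1) ^ 2 = y1 ^ 2 := by
            rw [← map_pow, hy1sq, map_sub, h.commutes, hC, h.commutes]
          rcases sq_eq_sq_iff_eq_or_eq_neg.1 h5 with h6 | h6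
          · have h7 := hΘ₀f h hh h6
            have h8 := hΘ₀f (σ⁻¹ * (h * σ)) (E.fixingSubgroup.mul_mem (E.fixingSubgroup.inv_mem hσ)
              (E.fixingSubgroup.mul_mem hh hσ)) (by
                rw [AlgEquiv.mul_apply, AlgEquiv.mul_apply, hσy, map_neg, h6]
                exact hσi hσy)
            have h9 := congrArg σ h8
            rw [← AlgEquiv.mul_apply, ← mul_assoc, mul_inv_cancel, one_mul, AlgEquiv.mul_apply] at h9
            rw [hτ, map_add, h7, h9]
          · have h8 := hΘ₀f (σ⁻¹ * h) (E.fixingSubgroup.mul_mem (E.fixingSubgroup.inv_mem hσ) hh) (by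
                rw [AlgEquiv.mul_apply, h6]
                exact hσi hσy)
            have h9 := congrArg σ h8
            rw [← AlgEquiv.mul_apply, ← mul_assoc, mul_inv_cancel, one_mul] at h9
            have h10 := hΘ₀f (h * σ) (E.fixingSubgroup.mul_mem hh hσ) (by
                rw [AlgEquiv.mul_apply, hσy, map_neg, h6, neg_neg])
            rw [AlgEquiv.mul_apply] at h10
            rw [hτ, map_add, h9, h10, add_comm]
        have hτE : τ ∈ E := mem_of_fixed E hτf
        have hρ0 : ρ ≠ 0 := by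
          rintro rfl
          norm_num at hρ1
        have h11 := h2 (e + 1) (Nat.lt_succ_self _) hcase
        have hτ2 : τ ^ 2 = 2 * X + 2 * (Θ₀ * σ Θ₀) := by
          rw [hτ]
          linear_combination hΘ₀2 + hσΘ2
        rcases sq_eq_sq_iff_eq_or_eq_neg.1 hprodΘ with h12 | h12
        · refine (h11 (τ / ρ) (E.div_mem hτE hρ)).1 ?_
          rw [div_pow, hτ2, hρ1, h12, map_add, ← hX]
          field_simp
          ring
        · refine (h11 (η * (τ / ρ)) (E.mul_mem hη (E.div_mem hτE hρ))).2 ?_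
          rw [mul_pow, div_pow, hτ2, hρ1, h12, hη1, map_sub, ← hX]
          field_simp
          ring
      · have hmem : ∀ w, w ∈ pre 2 (algebraMap K W c) l (algebraMap K W (-γ)) ↔
            w ∈ Lev 2 W c (-γ) l := fun w => mem_pre two_ne_zero
        obtain ⟨Θ, hΘ1, hΘ2⟩ := orbProdPow E.fixingSubgroup
          (pre 2 (algebraMap K W c) l (algebraMap K W (-γ))) x
          (fun h _ w hw => (hmem _).2 (Lev_aut h ((hmem w).1 hw)))
          (fun w hw => ih' x hxL w ((hmem w).1 hw)) (fun w => w - algebraMap K W c)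
          (fun h _ w _ => by rw [map_sub, h.commutes]) ((hmem x).2 hxL) z 2 hzd hfix'
        have hΘE : Θ ∈ E := mem_of_fixed E hΘ1
        have hprod := prod_sub (W := W) two_ne_zero (c := algebraMap K W c) l
          (x := algebraMap K W (-γ))
          (fun i hi => hneW i (hi.trans (Nat.lt_succ_self l))) (algebraMap K W c)
        set N := (pre 2 (algebraMap K W c) l (algebraMap K W (-γ))).card with hN
        have hneg : ∏ w ∈ pre 2 (algebraMap K W c) l (algebraMap K W (-γ)), (w - algebraMap K W c)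
            = (-1) ^ N * algebraMap K W ((uf 2 c)^[l] c - -γ) := by
          rw [map_sub, uf_map, ← hprod, hN, ← Finset.prod_const, ← Finset.prod_mul_distrib]
          refine Finset.prod_congr rfl fun w _ => by ring
        refine h1 l (Nat.lt_succ_self l) hcase (η ^ N * Θ) (E.mul_mem (pow_mem hη _) hΘE) ?_
        rw [mul_pow, hΘ2, hneg, Function.iterate_succ_apply, huc, ← pow_mul, mul_comm N 2, pow_mul,
          hη1, ← mul_assoc, ← mul_pow, neg_one_mul, neg_neg, one_pow, one_mul]
        congr 1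
        ring


end tran

universe u

/-- branches for `x ^ 2 + c`, every `c` different from `0` and `-2` -/
theorem branches_two {K W : Type u} [Field K] [NumberField K] [Field W] [Algebra K W]
    [IsAlgClosed W] [Algebra.IsAlgebraic K W] {c b : K} (hc0 : c ≠ 0) (hc2 : c ≠ -2)
    (hw : Function.Injective fun n : ℕ => (uf 2 c)^[n] b)
    {T : Set W} (hT : T.Finite) (s₁ : W ≃ₐ[K] W) (m N0 : ℕ) :
    ∃ k, N0 ≤ k ∧ ∃ s : W ≃ₐ[K] W, (∀ t ∈ T, s t = s₁ t) ∧
      m + 1 ≤ (Fix 2 W c ((uf 2 c)^[k] b) m s).ncard := by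
  classical
  have hW : CharZero W := charZero_of_injective_algebraMap (algebraMap K W).injective
  refine branches_of_tran le_rfl (ζ := -1) (by norm_num) (by norm_num) hw hT s₁ m N0 ?_
  intro E hE N
  obtain ⟨η, hη1⟩ := IsAlgClosed.exists_pow_nat_eq (-1 : W) (n := 2) (by norm_num)
  obtain ⟨ρ, hρ1⟩ := IsAlgClosed.exists_pow_nat_eq (2 : W) (n := 2) (by norm_num)
  set E1 : IntermediateField K W := IntermediateField.adjoin K {η, ρ} with hE1
  have hfin1 : FiniteDimensional K E1 := by
    have h1 : Finite ({η, ρ} : Set W) := Set.toFinite _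
    exact IntermediateField.finiteDimensional_adjoin
      fun x _ => (Algebra.IsAlgebraic.isAlgebraic x).isIntegral
  set E' : IntermediateField K W := E ⊔ E1 with hE'
  have hfin : FiniteDimensional K E' := IntermediateField.finiteDimensional_sup E E1
  have hNF : NumberField E' := NumberField.of_module_finite K E'
  have hηE : η ∈ E' := (le_sup_right : E1 ≤ E') (IntermediateField.subset_adjoin K _ (Or.inl rfl))
  have hρE : ρ ∈ E' := (le_sup_right : E1 ≤ E') (IntermediateField.subset_adjoin K _ (Or.inr rfl))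
  -- the finite set of the targets of the window
  set F : Finset K := (((range m).filter fun j => (uf 2 c)^[j + 1] 0 ≠ -c).image
      fun j => -(uf 2 c)^[j + 1] 0) ∪
    ((((range m).filter fun j => (uf 2 c)^[j + 1] 0 = -c).image fun j => (uf 2 c)^[j] 0) ∪
    (((range m).filter fun j => (uf 2 c)^[j + 1] 0 = -c).image fun j => -(uf 2 c)^[j] 0)) with hF
  have hFc : ∀ t ∈ F, t ≠ c := by
    have hsp : ∀ j, (uf 2 c)^[j + 1] 0 = -c → ((uf 2 c)^[j] 0) ^ 2 ≠ c ^ 2 := by
      intro j hj h
      rw [Function.iterate_succ_apply', uf, h] at hj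
      have h1 : c * (c + 2) = 0 := by linear_combination hj
      rcases mul_eq_zero.1 h1 with h2 | h2
      · exact hc0 h2
      · exact hc2 (eq_neg_of_add_eq_zero_left h2)
    intro t ht
    rw [hF, mem_union, mem_union] at ht
    rcases ht with ht | ht | ht
    · obtain ⟨j, hj, rfl⟩ := mem_image.1 ht
      intro h
      exact (mem_filter.1 hj).2 (neg_eq_iff_eq_neg.1 h)
    · obtain ⟨j, hj, rfl⟩ := mem_image.1 ht
      intro h
      exact hsp j (mem_filter.1 hj).2 (by rw [h])
    · obtain ⟨j, hj, rfl⟩ := mem_image.1 ht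
      intro h
      exact hsp j (mem_filter.1 hj).2 (by rw [neg_eq_iff_eq_neg.1 h, neg_sq])
  -- far in the orbit
  obtain ⟨M, hM⟩ : ∃ M, ∀ n, M ≤ n → (uf 2 c)^[n] b ≠ c := by
    by_cases h : ∃ n, (uf 2 c)^[n] b = c
    · obtain ⟨n, hn⟩ := h
      refine ⟨n + 1, fun n' hn' h' => ?_⟩
      have : n' = n := hw (h'.trans hn.symm)
      omega
    · push Not at h
      exact ⟨0, fun n _ => h n⟩
  have hw' : Function.Injective fun n : ℕ =>
      (uf 2 (algebraMap K E' c))^[n] (algebraMap K E' b) := by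
    intro n n' h
    simp only [← uf_map] at h
    exact hw ((algebraMap K E').injective h)
  obtain ⟨k, hk, hwin⟩ := windowAll' (L := E') two_ne_zero (ζ := (-1 : E'))
    (IsPrimitiveRoot.neg_one 0 (by norm_num)) (algebraMap K E' c) (algebraMap K E' b) hw'
    (F.image (algebraMap K E')) (by
      intro t ht
      obtain ⟨t', ht', rfl⟩ := Finset.mem_image.1 ht
      exact fun h => hFc t' ht' ((algebraMap K E').injective h))
    (fun _ => by
      constructor
      · exact fun h => hc0 ((map_eq_zero _).1 h)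
      · intro h
        apply hc2
        apply (algebraMap K E').injective
        rw [h, map_neg, map_ofNat]) m (max (max N 1) M)
  have hwin' : ∀ i, k ≤ i → i < k + m → ∀ t ∈ F, ∀ y ∈ E',
      y ^ 2 ≠ algebraMap K W ((uf 2 c)^[i] b - t) := by
    intro i hi hik t ht y hy hyq
    refine hwin i hi hik 2 Nat.prime_two dvd_rfl _ (Finset.mem_image_of_mem _ ht) ⟨y, hy⟩ ?_
    apply (algebraMap E' W).injective
    rw [map_pow, map_sub, ← uf_map, ← IsScalarTower.algebraMap_apply,
      ← IsScalarTower.algebraMap_apply, ← map_sub]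
    exact hyq
  have hkN : max N 1 ≤ k := (le_max_left _ _).trans hk
  have hkM : M ≤ k := (le_max_right _ _).trans hk
  have hk1 : 1 ≤ k := (le_max_right _ _).trans hkN
  refine ⟨k, (le_max_left _ _).trans hkN, fun l hl => ?_⟩
  rw [neg_one_mul]
  have htr := tran_two E' hηE hη1 hρE hρ1 hc0 (γ := (uf 2 c)^[k + l] b)
    (γ' := (uf 2 c)^[k + l - 1] b)
    (by
      obtain ⟨i, hi⟩ : ∃ i, k + l = i + 1 := ⟨k + l - 1, by omega⟩
      rw [hi, Nat.add_sub_cancel, Function.iterate_succ_apply']
      rfl) (hM _ (by omega)) l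
    (by
      intro j hj hjc y hy h
      refine hwin' (k + l) (by omega) (by omega) (-(uf 2 c)^[j + 1] 0) ?_ y hy (by
        rw [h]
        congr 1
        ring)
      rw [hF]
      exact mem_union_left _ (mem_image.2 ⟨j, mem_filter.2 ⟨mem_range.2 (by omega), hjc⟩, rfl⟩))
    (by
      intro j hj hjc y hy
      have hj1 : 1 ≤ j := by
        rcases Nat.eq_zero_or_pos j with rfl | h
        · exfalso
          have huc : uf 2 c 0 = c := by simp [uf]
          rw [zero_add, Function.iterate_one, huc] at hjc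
          have h5 : (2 : K) * c = 0 := by linear_combination hjc
          rcases mul_eq_zero.1 h5 with h6 | h6
          · exact two_ne_zero h6
          · exact hc0 h6
        · exact h
      constructor
      · intro h
        refine hwin' (k + l - 1) (by omega) (by omega) (-(uf 2 c)^[j] 0) ?_ y hy (by
          rw [h]
          congr 1
          ring)
        rw [hF]
        exact mem_union_right _ (mem_union_right _
          (mem_image.2 ⟨j, mem_filter.2 ⟨mem_range.2 (by omega), hjc⟩, rfl⟩))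
      · intro h
        refine hwin' (k + l - 1) (by omega) (by omega) ((uf 2 c)^[j] 0) ?_ y hy h
        rw [hF]
        exact mem_union_right _ (mem_union_left _
          (mem_image.2 ⟨j, mem_filter.2 ⟨mem_range.2 (by omega), hjc⟩, rfl⟩)))
  intro y hy y' hy'
  obtain ⟨g, hg, hgy⟩ := htr y hy y' hy'
  exact ⟨g, IntermediateField.fixingSubgroup_antitone (le_sup_left : E ≤ E') hg, hgy⟩


/-- the preimages of `f ^ 2 (0)` in the orbit of `c` -/
theorem second_unique {K : Type*} [Field K] {d : ℕ} {c : K} {j : ℕ} (hj : 2 ≤ j)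
    (hj1 : (uf d c)^[j + 1] 0 = (uf d c)^[2] 0)
    (hmin : ∀ i, 2 ≤ i → (uf d c)^[i + 1] 0 = (uf d c)^[2] 0 → j ≤ i) (i : ℕ) (hi : 2 ≤ i)
    (hi1 : (uf d c)^[i + 1] 0 = (uf d c)^[2] 0) : (uf d c)^[i] 0 = (uf d c)^[j] 0 := by
  induction i using Nat.strong_induction_on with
  | _ i ih =>
    have hper : ∀ n, 2 ≤ n → (uf d c)^[n + (j - 1)] 0 = (uf d c)^[n] 0 := by
      intro n hn
      have e1 : n + (j - 1) = (n - 2) + (j + 1) := by omega
      have e2 : n = (n - 2) + 2 := by omega
      rw [e1, Function.iterate_add_apply, hj1, ← Function.iterate_add_apply, ← e2]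
    rcases Nat.lt_or_ge j i with h | h
    · have e3 : i = (i - (j - 1)) + (j - 1) := by omega
      have e4 := hper (i - (j - 1)) (by omega)
      rw [← e3] at e4
      rw [e4]
      refine ih _ (by omega) (by omega) ?_
      rw [← hi1, show i + 1 = (i - (j - 1) + 1) + (j - 1) by omega]
      exact (hper _ (by omega)).symm
    · have := hmin i hi hi1
      rw [show i = j by omega]

/-- a primitive root of unity `ζ'` such that `ζ' * c` is not in the orbit of `0` -/
theorem exists_good_root {K : Type*} [Field K] {d : ℕ} (hd : 3 ≤ d) {ζ c : K}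
    (hζ : IsPrimitiveRoot ζ d) (hc : c ≠ 0) :
    ∃ ζ' : K, IsPrimitiveRoot ζ' d ∧ ∀ l, (uf d c)^[l + 1] 0 ≠ ζ' * c := by
  have hd0 : d ≠ 0 := by omega
  have hζ0 : ζ ≠ 0 := hζ.ne_zero hd0
  have huc : uf d c 0 = c := by simp [uf, hd0]
  have hroot : ∀ ξ : K, IsPrimitiveRoot ξ d → ∀ l, (uf d c)^[l + 1] 0 = ξ * c →
      2 ≤ l + 1 ∧ (uf d c)^[(l + 1) + 1] 0 = (uf d c)^[2] 0 := by
    intro ξ hξ l hl
    constructor
    · by_contra h
      obtain rfl : l = 0 := by omega
      rw [zero_add, Function.iterate_one, huc] at hl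
      have h1 : (ξ - 1) * c = 0 := by linear_combination -hl
      rcases mul_eq_zero.1 h1 with h2 | h2
      · exact hξ.ne_one (by omega) (sub_eq_zero.1 h2)
      · exact hc h2
    · rw [Function.iterate_succ_apply', hl, uf, mul_pow, hξ.pow_eq_one, one_mul]
      show _ = uf d c (uf d c 0)
      rw [huc, uf]
  by_cases h : ∀ l, (uf d c)^[l + 1] 0 ≠ ζ * c
  · exact ⟨ζ, hζ, h⟩
  · push Not at h
    obtain ⟨l, hl⟩ := h
    refine ⟨ζ⁻¹, hζ.inv, fun l' hl' => ?_⟩
    obtain ⟨h1, h2⟩ := hroot ζ hζ l hl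
    obtain ⟨h3, h4⟩ := hroot ζ⁻¹ hζ.inv l' hl'
    classical
    have hex : ∃ j, 2 ≤ j ∧ (uf d c)^[j + 1] 0 = (uf d c)^[2] 0 := ⟨l + 1, h1, h2⟩
    obtain ⟨hj, hj1⟩ := Nat.find_spec hex
    have hmin : ∀ i, 2 ≤ i → (uf d c)^[i + 1] 0 = (uf d c)^[2] 0 → Nat.find hex ≤ i :=
      fun i hi hi1 => Nat.find_min' hex ⟨hi, hi1⟩
    have h5 := second_unique hj hj1 hmin (l + 1) h1 h2
    have h6 := second_unique hj hj1 hmin (l' + 1) h3 h4
    have h7 : ζ * c = ζ⁻¹ * c := by rw [← hl, ← hl', h5, h6]
    have h8 : ζ = ζ⁻¹ := mul_right_cancel₀ hc h7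
    have h9 : ζ ^ 2 = 1 := by
      rw [pow_two]
      nth_rewrite 1 [h8]
      exact inv_mul_cancel₀ hζ0
    exact hζ.pow_ne_one_of_pos_of_lt two_ne_zero (by omega) h9

/-- branches when `ζ * c` is not in the orbit of `0` -/
theorem branches_hx {K W : Type u} [Field K] [NumberField K] [Field W] [Algebra K W]
    [IsAlgClosed W] [Algebra.IsAlgebraic K W] {d : ℕ} (hd : 3 ≤ d) {ζ c b : K}
    (hζ : IsPrimitiveRoot ζ d) (hx : ∀ l, (uf d c)^[l + 1] 0 ≠ ζ * c)
    (hw : Function.Injective fun n : ℕ => (uf d c)^[n] b)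
    {T : Set W} (hT : T.Finite) (s₁ : W ≃ₐ[K] W) (m N0 : ℕ) :
    ∃ k, N0 ≤ k ∧ ∃ s : W ≃ₐ[K] W, (∀ t ∈ T, s t = s₁ t) ∧
      m + 1 ≤ (Fix d W c ((uf d c)^[k] b) m s).ncard := by
  classical
  have hd0 : d ≠ 0 := by omega
  have hζ0 : ζ ≠ 0 := hζ.ne_zero hd0
  refine branches_of_tran (by omega) hζ.pow_eq_one (hζ.ne_one (by omega)) hw hT s₁ m N0 ?_
  intro E hE N
  obtain ⟨ξ, hξ⟩ := IsAlgClosed.exists_pow_nat_eq (algebraMap K W ζ) (Nat.pos_of_ne_zero hd0)
  obtain ⟨η, hη⟩ := IsAlgClosed.exists_pow_nat_eq (-1 : W) (Nat.pos_of_ne_zero hd0)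
  have hξ0 : ξ ≠ 0 := by
    rintro rfl
    rw [zero_pow hd0] at hξ
    exact hζ0 ((map_eq_zero _).1 hξ.symm)
  set E1 : IntermediateField K W := IntermediateField.adjoin K {ξ, η} with hE1
  have hfin1 : FiniteDimensional K E1 := by
    have h1 : Finite ({ξ, η} : Set W) := Set.toFinite _
    exact IntermediateField.finiteDimensional_adjoin
      fun x _ => (Algebra.IsAlgebraic.isAlgebraic x).isIntegral
  set E' : IntermediateField K W := E ⊔ E1 with hE'
  have hfin : FiniteDimensional K E' := IntermediateField.finiteDimensional_sup E E1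
  have hNF : NumberField E' := NumberField.of_module_finite K E'
  have hξE : ξ ∈ E' := (le_sup_right : E1 ≤ E') (IntermediateField.subset_adjoin K _ (Or.inl rfl))
  have hηE : η ∈ E' := (le_sup_right : E1 ≤ E') (IntermediateField.subset_adjoin K _ (Or.inr rfl))
  set F : Finset K := (range m).image fun j => ζ⁻¹ * (uf d c)^[j + 1] 0 with hF
  have hFc : ∀ t ∈ F, t ≠ c := by
    intro t ht
    rw [hF] at ht
    obtain ⟨j, hj, rfl⟩ := mem_image.1 ht
    intro h
    rw [inv_mul_eq_iff_eq_mul₀ hζ0] at h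
    exact hx j h
  have hw' : Function.Injective fun n : ℕ =>
      (uf d (algebraMap K E' c))^[n] (algebraMap K E' b) := by
    intro n n' h
    simp only [← uf_map] at h
    exact hw ((algebraMap K E').injective h)
  obtain ⟨k, hk, hwin⟩ := windowAll' (L := E') hd0 (ζ := algebraMap K E' ζ)
    (hζ.map_of_injective (algebraMap K E').injective) (algebraMap K E' c) (algebraMap K E' b) hw'
    (F.image (algebraMap K E')) (by
      intro t ht
      obtain ⟨t', ht', rfl⟩ := Finset.mem_image.1 ht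
      exact fun h => hFc t' ht' ((algebraMap K E').injective h))
    (fun h => absurd h (by omega)) m N
  have hwin' : ∀ i, k ≤ i → i < k + m → ∀ q : ℕ, q.Prime → q ∣ d → ∀ t ∈ F, ∀ y ∈ E',
      y ^ q ≠ algebraMap K W ((uf d c)^[i] b - t) := by
    intro i hi hik q hq hqd t ht y hy hyq
    refine hwin i hi hik q hq hqd _ (Finset.mem_image_of_mem _ ht) ⟨y, hy⟩ ?_
    apply (algebraMap E' W).injective
    rw [map_pow, map_sub, ← uf_map, ← IsScalarTower.algebraMap_apply,
      ← IsScalarTower.algebraMap_apply, ← map_sub]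
    exact hyq
  refine ⟨k, hk, fun l hl => ?_⟩
  have htr := tran_over (W := W) (b' := ζ * (uf d c)^[k + l] b) (by omega) hζ E' hηE hη l (by
    intro j hj q hq hqd y hy h
    refine hwin' (k + l) (by omega) (by omega) q hq hqd _
      (Finset.mem_image.2 ⟨j, Finset.mem_range.2 (by omega), rfl⟩) (y * (ξ ^ (d / q))⁻¹)
      (E'.mul_mem hy (E'.inv_mem (pow_mem hξE _))) ?_
    rw [mul_pow, h, inv_pow, ← pow_mul, Nat.div_mul_cancel hqd, hξ, ← map_inv₀, ← map_mul]
    congr 1
    field_simp)
  intro y hy y' hy'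
  obtain ⟨g, hg, hgy⟩ := htr y hy y' hy'
  exact ⟨g, IntermediateField.fixingSubgroup_antitone (le_sup_left : E ≤ E') hg, hgy⟩

/-- **Branches for every degree `d` and every `c`** different from `0` (and from `-2` if `d = 2`) -/
theorem branchesX {K W : Type u} [Field K] [NumberField K] [Field W] [Algebra K W]
    [IsAlgClosed W] [Algebra.IsAlgebraic K W] {d : ℕ} (hd : 2 ≤ d) {ζ c b : K}
    (hζ : IsPrimitiveRoot ζ d) (hc0 : c ≠ 0) (hc2 : d = 2 → c ≠ -2)
    (hw : Function.Injective fun n : ℕ => (uf d c)^[n] b)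
    {T : Set W} (hT : T.Finite) (s₁ : W ≃ₐ[K] W) (m N0 : ℕ) :
    ∃ k, N0 ≤ k ∧ ∃ s : W ≃ₐ[K] W, (∀ t ∈ T, s t = s₁ t) ∧
      m + 1 ≤ (Fix d W c ((uf d c)^[k] b) m s).ncard := by
  rcases Nat.lt_or_ge d 3 with h | h
  · obtain rfl : d = 2 := by omega
    exact branches_two hc0 (hc2 rfl) hw hT s₁ m N0
  · obtain ⟨ζ', hζ', hx⟩ := exists_good_root h hζ hc0
    exact branches_hx h hζ' hx hw hT s₁ m N0

/-- **The engine for every degree**, without the hypothesis that `0` is wandering -/
theorem engineX {K W : Type u} [Field K] [NumberField K] [Field W] [Algebra K W]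
    [IsAlgClosed W] [Algebra.IsAlgebraic K W] {d : ℕ} (hd : 2 ≤ d) {ζ c b : K}
    (hζ : IsPrimitiveRoot ζ d) (hc0 : c ≠ 0) (hc2 : d = 2 → c ≠ -2)
    (hw : Function.Injective fun n : ℕ => (uf d c)^[n] b)
    (hb : ∀ n, 1 ≤ n → (uf d c)^[n] 0 ≠ b)
    (hF : ∃ l0, ∀ l, l0 ≤ l → FlipAt d ζ W c b l) : ExtP d W c b := by
  by_contra hno
  obtain ⟨T, s₁, m, l1, hTf, h1⟩ := minCoset hd hζ hb hF hno
  obtain ⟨N0, hN0⟩ : ∃ N0, ∀ k, N0 ≤ k → ∀ i, 1 ≤ i → i ≤ m → (uf d c)^[i] 0 ≠ (uf d c)^[k] b := by
    have hfin : {k : ℕ | ∃ i ∈ Finset.Icc 1 m, (uf d c)^[i] 0 = (uf d c)^[k] b}.Finite := by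
      have h2 : {k : ℕ | ∃ i ∈ Finset.Icc 1 m, (uf d c)^[i] 0 = (uf d c)^[k] b} ⊆
          (fun n : ℕ => (uf d c)^[n] b) ⁻¹' ((fun i : ℕ => (uf d c)^[i] 0) '' (Finset.Icc 1 m : Set ℕ)) := by
        rintro k ⟨i, hi, h⟩
        exact ⟨i, Finset.mem_coe.2 hi, h⟩
      exact Set.Finite.subset (Set.Finite.preimage hw.injOn
        ((Finset.finite_toSet _).image _)) h2
    obtain ⟨M, hM⟩ := hfin.bddAbove
    refine ⟨M + 1, fun k hk i hi1 hi2 h => ?_⟩
    have := hM ⟨i, Finset.mem_Icc.2 ⟨hi1, hi2⟩, h⟩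
    omega
  obtain ⟨k, hk, s, hs, hcard⟩ := branchesX hd hζ hc0 hc2 hw hTf s₁ m N0
  have h3 := transfer (by omega : d ≠ 0) hTf
    (fun s hs => ⟨(h1 s hs).1, fun l hl => ((h1 s hs).2 l hl).le⟩) m k (hN0 k hk) s hs
  omega

/-- the nodes of the high levels are not in the orbit of `0` -/
theorem nodes_avoid {K W : Type*} [Field K] [Field W] [Algebra K W] {d : ℕ} {c b : K}
    (hw : Function.Injective fun n : ℕ => (uf d c)^[n] b) :
    ∃ k₁ : ℕ, ∀ k, k₁ ≤ k → ∀ r ∈ Lev d W c b k, ∀ n, 1 ≤ n →
      algebraMap K W ((uf d c)^[n] 0) ≠ r := by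
  by_cases h : ∃ n, (uf d c)^[n] 0 = b
  · obtain ⟨n₁, hn₁⟩ := h
    refine ⟨n₁ + 1, fun k hk r hr n hn h2 => ?_⟩
    rw [mem_Lev, ← h2, ← uf_map] at hr
    have h3 := (algebraMap K W).injective hr
    rw [← Function.iterate_add_apply, show k + n = (k + n - n₁) + n₁ by omega,
      Function.iterate_add_apply, hn₁] at h3
    have h4 : k + n - n₁ = 0 := hw h3
    omega
  · push Not at h
    refine ⟨0, fun k _ r hr n hn h2 => ?_⟩
    rw [mem_Lev, ← h2, ← uf_map] at hr
    have h3 := (algebraMap K W).injective hr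
    rw [← Function.iterate_add_apply] at h3
    exact h _ h3

/-- from flips over the fields of the nodes of one high level to the extension property -/
theorem ExtP_of_flipsX {K W : Type u} [Field K] [NumberField K] [Field W] [Algebra K W]
    [IsAlgClosed W] [Algebra.IsAlgebraic K W] {d : ℕ} (hd : 2 ≤ d) {ζ c b : K}
    (hζ : IsPrimitiveRoot ζ d) (hc0 : c ≠ 0) (hc2 : d = 2 → c ≠ -2)
    (hw : Function.Injective fun n : ℕ => (uf d c)^[n] b) (k : ℕ)
    (hr : ∀ r ∈ Lev d W c b k, ∀ n, 1 ≤ n → algebraMap K W ((uf d c)^[n] 0) ≠ r)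
    (hF : ∀ r ∈ Lev d W c b k, ∃ l0, ∀ l, l0 ≤ l →
      FlipAt d (algebraMap K (IntermediateField.adjoin K {r}) ζ) W
        (algebraMap K (IntermediateField.adjoin K {r}) c)
        (IntermediateField.AdjoinSimple.gen K r) l) : ExtP d W c b := by
  refine descent (by omega) k fun r hrk => ?_
  have hnf : NumberField (IntermediateField.adjoin K {r}) := numberField_adjoin r
  have halg : Algebra.IsAlgebraic (IntermediateField.adjoin K {r}) W :=
    Algebra.IsAlgebraic.tower_top (K := K) (IntermediateField.adjoin K {r})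
  refine engineX hd (hζ.map_of_injective (algebraMap K (IntermediateField.adjoin K {r})).injective)
    (fun h => hc0 ((map_eq_zero _).1 h)) (fun h2 h => ?_) (node_wander hw hrk) ?_ (hF r hrk)
  · apply hc2 h2
    apply (algebraMap K (IntermediateField.adjoin K {r})).injective
    rw [h, map_neg, map_ofNat]
  · intro n hn h
    apply hr r hrk n hn
    have h3 := congrArg (algebraMap (IntermediateField.adjoin K {r}) W) h
    have h4 := uf_map (algebraMap K (IntermediateField.adjoin K {r})) d c 0 n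
    rw [map_zero] at h4
    rw [← h4, ← IsScalarTower.algebraMap_apply] at h3
    rw [h3]
    exact IntermediateField.AdjoinSimple.algebraMap_gen K r


end Pool.Agent.ORB.UQ
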