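import Pool.Agent.ORB.UThm
import Pool.Agent.ORB.VLoc

/-!
ORB, Theorem V for unicritical maps: the local conditions are stable under extension of the number field.
-/

namespace Pool.Agent.ORB

open NumberField IsDedekindDomain Polynomial

universe u

/-- the orbit of `0` under `x ^ d + c` is infinite -/
def CritWand {L : Type*} [Field L] (d : ℕ) (c : L) : Prop := Function.Injective fun n : ℕ => (uf d c)^[n] 0

/-- the local condition: `c` is integral at a prime over the degree `d`; or there is a prime (of any residue
characteristic) at which `c` is integral and `b` is not; or there is a prime which divides both `c` and `b` -/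
def LocCond (L : Type*) [Field L] [NumberField L] (d : ℕ) (c b : L) : Prop :=
  ∃ v : HeightOneSpectrum (𝓞 L), (v.valuation L (d : L) < 1 ∧ v.valuation L c ≤ 1) ∨
    (v.valuation L c ≤ 1 ∧ 1 < v.valuation L b) ∨ (v.valuation L c < 1 ∧ v.valuation L b < 1)

/-- the same with a prime which does not divide the degree, in the last two cases -/
def TameCond (L : Type*) [Field L] [NumberField L] (d : ℕ) (c b : L) : Prop :=
  ∃ v : HeightOneSpectrum (𝓞 L), v.valuation L (d : L) = 1 ∧
    ((v.valuation L c ≤ 1 ∧ 1 < v.valuation L b) ∨ (v.valuation L c < 1 ∧ v.valuation L b < 1))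

theorem critWand_ext {L L' : Type*} [Field L] [Field L'] (φ : L →+* L') {d : ℕ} {c : L} (h : CritWand d c) :
    CritWand d (φ c) := by
  intro m n hmn
  apply h
  apply φ.injective
  simp only at hmn ⊢
  rw [uf_map, uf_map, map_zero, hmn]

theorem locCond_ext {L L' : Type*} [Field L] [NumberField L] [Field L'] [NumberField L'] [Algebra L L'] {d : ℕ}
    {c b : L} (h : LocCond L d c b) : LocCond L' d (algebraMap L L' c) (algebraMap L L' b) := by
  obtain ⟨v, hv⟩ := h
  obtain ⟨w, hw⟩ := VQ.exists_above (L := L') v
  refine ⟨w, ?_⟩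
  have hd : w.valuation L' (d : L') < 1 ↔ v.valuation L (d : L) < 1 := by
    have := val_lt_iff v w (d : L)
    rwa [map_natCast] at this
  have h1 : 1 < w.valuation L' (algebraMap L L' b) ↔ 1 < v.valuation L b := by
    rw [← not_le, ← not_le, val_le_iff v w]
  rw [hd, val_le_iff v w, h1, val_lt_iff v w, val_lt_iff v w]
  exact hv

theorem tameCond_ext {L L' : Type*} [Field L] [NumberField L] [Field L'] [NumberField L'] [Algebra L L'] {d : ℕ}
    {c b : L} (h : TameCond L d c b) : TameCond L' d (algebraMap L L' c) (algebraMap L L' b) := by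
  obtain ⟨v, hd, hv⟩ := h
  obtain ⟨w, hw⟩ := VQ.exists_above (L := L') v
  refine ⟨w, ?_, ?_⟩
  · have := (val_eq_iff v w (d : L)).2 hd
    rwa [map_natCast] at this
  have h1 : 1 < w.valuation L' (algebraMap L L' b) ↔ 1 < v.valuation L b := by
    rw [← not_le, ← not_le, val_le_iff v w]
  rw [val_le_iff v w, h1, val_lt_iff v w, val_lt_iff v w]
  exact hv

end Pool.Agent.ORB
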