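import Pool.Agent.ORB.UMin
import Pool.Agent.ORB.VDown

/-!
ORB, Theorem V for `x ^ d + c`, row U9: descent of the extension property, and finitely many pairs
together.
-/

set_option autoImplicit false

namespace Pool.Agent.ORB.UQ

open IntermediateField Polynomial

variable {K W : Type*} [Field K] [Field W] [Algebra K W]

/-- moving everything on a level passes to higher levels -/
theorem move_up {d : ℕ} {c : K} {s : W ≃ₐ[K] W} {x : W} {N M : ℕ} (hNM : N ≤ M)
    (h : ∀ z, (uf d (algebraMap K W c))^[N] z = x → s z ≠ z) (z : W)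
    (hz : (uf d (algebraMap K W c))^[M] z = x) : s z ≠ z := by
  obtain ⟨e, rfl⟩ := Nat.exists_eq_add_of_le hNM
  intro hs
  rw [Function.iterate_add_apply] at hz
  refine h _ hz ?_
  rw [aut_iter, hs]

theorem preimages_finite {d : ℕ} (hd : d ≠ 0) (c : W) (e : ℕ) (x : W) :
    {z | (uf d c)^[e] z = x}.Finite := by
  refine (pre d c e x).finite_toSet.subset fun z hz => ?_
  rw [Finset.mem_coe, mem_pre hd]
  exact hz

/-- one node: an automorphism can be changed above one node -/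
theorem one_node {d : ℕ} {c : K} {r : W}
    (h : ExtP d W (algebraMap K K⟮r⟯ c) (AdjoinSimple.gen K r)) (T : Set W) (hT : T.Finite)
    (s₀ : W ≃ₐ[K] W) : ∃ (N : ℕ) (s : W ≃ₐ[K] W), (∀ t ∈ T, s t = s₀ t) ∧
      ∀ z, (uf d (algebraMap K W c))^[N] z = r → s z ≠ z := by
  by_cases hr : s₀ r = r
  · obtain ⟨N, s, h1, h2⟩ := h T hT (VQ.liftAdj s₀ r hr)
    exact ⟨N, s.restrictScalars K, h1, h2⟩
  · refine ⟨0, s₀, fun _ _ => rfl, fun z hz => ?_⟩
    have : z = r := hz
    rw [this]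
    exact hr

/-- **Descent.** -/
theorem descent {d : ℕ} (hd : d ≠ 0) {c b : K} (k : ℕ)
    (h : ∀ r ∈ Lev d W c b k, ExtP d W (algebraMap K K⟮r⟯ c) (AdjoinSimple.gen K r)) :
    ExtP d W c b := by
  classical
  intro T hT s₀
  have key : ∀ A : Finset W, (∀ r ∈ A, r ∈ Lev d W c b k) → ∃ (N : ℕ) (s : W ≃ₐ[K] W),
      (∀ t ∈ T, s t = s₀ t) ∧ ∀ r ∈ A, ∀ z, (uf d (algebraMap K W c))^[N] z = r → s z ≠ z := by
    intro A
    induction A using Finset.induction_on with
    | empty => exact fun _ => ⟨0, s₀, fun _ _ => rfl, fun r hr => absurd hr (by simp)⟩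
    | insert r A _ ih =>
      intro hA
      obtain ⟨N, s, h1, h2⟩ := ih fun x hx => hA x (Finset.mem_insert_of_mem hx)
      obtain ⟨N', s', h3, h4⟩ := one_node (h r (hA r (Finset.mem_insert_self r A)))
        (T ∪ ⋃ x ∈ A, {z | (uf d (algebraMap K W c))^[N] z = x})
        (hT.union (A.finite_toSet.biUnion fun x _ => preimages_finite hd _ N x)) s
      refine ⟨max N N', s', fun t ht => ?_, fun x hx => ?_⟩
      · rw [h3 t (Or.inl ht), h1 t ht]
      rcases Finset.mem_insert.1 hx with rfl | hx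
      · exact move_up (le_max_right N N') h4
      · refine move_up (le_max_left N N') fun z hz => ?_
        rw [h3 z (Or.inr (Set.mem_biUnion hx hz))]
        exact h2 x hx z hz
  obtain ⟨N, s, h1, h2⟩ := key (Lev_finite hd c b k).toFinset fun r hr =>
    (Set.Finite.mem_toFinset _).1 hr
  refine ⟨k + N, s, h1, fun z hz => h2 _ ((Set.Finite.mem_toFinset _).2 (Lev_iter.1 hz)) z rfl⟩

/-- **Finitely many pairs together**, of different degrees. -/
theorem ExtP_family {ι : Type*} [Finite ι] (d : ι → ℕ) (hd : ∀ i, d i ≠ 0) (c b : ι → K)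
    (h : ∀ i, ExtP (d i) W (c i) (b i)) (T : Set W) (hT : T.Finite) (s₀ : W ≃ₐ[K] W) :
    ∃ (N : ℕ) (s : W ≃ₐ[K] W), (∀ t ∈ T, s t = s₀ t) ∧
      ∀ i, ∀ z ∈ Lev (d i) W (c i) (b i) N, s z ≠ z := by
  classical
  have : Fintype ι := Fintype.ofFinite ι
  have key : ∀ A : Finset ι, ∃ (N : ℕ) (s : W ≃ₐ[K] W), (∀ t ∈ T, s t = s₀ t) ∧
      ∀ i ∈ A, ∀ z ∈ Lev (d i) W (c i) (b i) N, s z ≠ z := by
    intro A
    induction A using Finset.induction_on with
    | empty => exact ⟨0, s₀, fun _ _ => rfl, fun i hi => absurd hi (by simp)⟩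
    | insert i A _ ih =>
      obtain ⟨N, s, h1, h2⟩ := ih
      obtain ⟨N', s', h3, h4⟩ := h i (T ∪ ⋃ j ∈ A, Lev (d j) W (c j) (b j) N)
        (hT.union (A.finite_toSet.biUnion fun j _ => Lev_finite (hd j) _ _ N)) s
      refine ⟨max N N', s', fun t ht => ?_, fun j hj => ?_⟩
      · rw [h3 t (Or.inl ht), h1 t ht]
      rcases Finset.mem_insert.1 hj with rfl | hj
      · exact move_up (le_max_right N N') h4
      · refine move_up (le_max_left N N') fun z hz => ?_
        rw [h3 z (Or.inr (Set.mem_biUnion hj hz))]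
        exact h2 j hj z hz
  obtain ⟨N, s, h1, h2⟩ := key Finset.univ
  exact ⟨N, s, h1, fun i => h2 i (Finset.mem_univ i)⟩

end Pool.Agent.ORB.UQ
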