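import Pool.Agent.ORB.URunge

/-!
ORB, unicritical maps of degree `d = p e`, radicals of exponent `p`: radicals over a rational function field.
-/

set_option autoImplicit false

namespace Pool.Agent.ORB.UE

open Finset Polynomial Pool.Agent.ORB.UQ

section ps

variable {W : Type*} [Field W] [CharZero W]

/-- `(θ + T)^d - θ^d` is not a `p`-th power -/
theorem not_pow_ps {p d : ℕ} (hp : 2 ≤ p) (hd : d ≠ 0) {θ : W} (hθ : θ ≠ 0) (g : PowerSeries W) :
    g ^ p ≠ (PowerSeries.C θ + PowerSeries.X) ^ d - PowerSeries.C (θ ^ d) := by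
  intro h
  have h0 : PowerSeries.constantCoeff g = 0 := by
    have h1 := congrArg PowerSeries.constantCoeff h
    rw [map_pow, map_sub, map_pow, map_add, PowerSeries.constantCoeff_C, PowerSeries.constantCoeff_X,
      PowerSeries.constantCoeff_C, add_zero, sub_self] at h1
    exact pow_eq_zero_iff (by omega) |>.1 h1
  obtain ⟨g', rfl⟩ := PowerSeries.X_dvd_iff.2 h0
  have h1 : PowerSeries.X ^ 2 ∣ (PowerSeries.C θ + PowerSeries.X) ^ d - PowerSeries.C (θ ^ d) := by
    rw [← h, mul_pow]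
    exact (pow_dvd_pow _ hp).mul_right _
  rw [PowerSeries.X_pow_dvd_iff] at h1
  have h2 := h1 1 (by norm_num)
  have h3 : (PowerSeries.C θ + PowerSeries.X : PowerSeries W) ^ d - PowerSeries.C (θ ^ d)
      = (((Polynomial.C θ + Polynomial.X) ^ d - Polynomial.C (θ ^ d) : W[X]) : PowerSeries W) := by
    simp
  rw [h3, Polynomial.coeff_coe] at h2
  have h4 : ((Polynomial.C θ + Polynomial.X) ^ d - Polynomial.C (θ ^ d) : W[X]).coeff 1
      = d * θ ^ (d - 1) := by
    have h5 : derivative ((Polynomial.C θ + Polynomial.X) ^ d - Polynomial.C (θ ^ d) : W[X])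
        = Polynomial.C (d : W) * (Polynomial.C θ + Polynomial.X) ^ (d - 1) := by
      simp [derivative_pow]
    have h6 := congrArg (fun q : W[X] => q.coeff 0) h5
    simp only [coeff_derivative] at h6
    rw [coeff_zero_eq_eval_zero (Polynomial.C (d : W) * _)] at h6
    simpa using h6
  rw [h4] at h2
  exact mul_ne_zero (by exact_mod_cast hd) (pow_ne_zero _ hθ) h2

end ps

section sep

variable {W : Type*} [Field W] [CharZero W] [IsAlgClosed W]
variable {Ω : Type*} [Field Ω] [Algebra (RatFunc W) Ω]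

/-- A radical which ramifies at `θ` does not lie in the field generated by radicals which do not. -/
theorem radical_sep {p d : ℕ} (hp : 2 ≤ p) (hd0 : d ≠ 0) (S : Set Ω) {θ : W} (hθ : θ ≠ 0)
    (hS : ∀ y ∈ S, ∃ a : W, θ ^ d + a ≠ 0 ∧ y ^ p = kz W Ω ^ d + kc W Ω a) {y₀ : Ω}
    (hy₀ : y₀ ^ p = kz W Ω ^ d - kc W Ω (θ ^ d)) :
    y₀ ∉ IntermediateField.adjoin (RatFunc W) S := by
  classical
  intro hmem
  have hp0 : p ≠ 0 := by omega
  obtain ⟨ρ, hρ⟩ := exists_shift (W := W) θ
  let E := FractionRing (PowerSeries W)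
  let _ : Algebra (RatFunc W) E := ρ.toAlgebra
  have hρa : algebraMap (RatFunc W) E = ρ := rfl
  obtain ⟨ζ, hζ⟩ : ∃ ζ : W, IsPrimitiveRoot ζ p := by
    have : NeZero (p : W) := ⟨by exact_mod_cast hp0⟩
    exact HasEnoughRootsOfUnity.exists_primitiveRoot W p
  have hζE : IsPrimitiveRoot (algebraMap (PowerSeries W) E (PowerSeries.C ζ)) p := by
    refine hζ.map_of_injective (f := (algebraMap (PowerSeries W) E).comp PowerSeries.C) ?_
    exact ((algebraMap (PowerSeries W) E).comp PowerSeries.C).injective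
  -- the element `X^d + a` of the rational function field
  let el : W → RatFunc W := fun a => algebraMap W[X] (RatFunc W) (Polynomial.X ^ d + Polynomial.C a)
  have hel : ∀ a, algebraMap (RatFunc W) Ω (el a) = kz W Ω ^ d + kc W Ω a := by
    intro a
    simp only [el, map_add, map_pow, RatFunc.algebraMap_X, RatFunc.algebraMap_C, kz, kc,
      RingHom.comp_apply]
  have helρ : ∀ a, ρ (el a) = algebraMap (PowerSeries W) E
      ((PowerSeries.C θ + PowerSeries.X) ^ d + PowerSeries.C a) := by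
    intro a
    simp only [el]
    rw [hρ]
    congr 1
    simp
  have hspl : ∀ s ∈ S, IsIntegral (RatFunc W) s ∧
      ((minpoly (RatFunc W) s).map (algebraMap (RatFunc W) E)).Splits := by
    intro s hs
    obtain ⟨a, ha, h⟩ := hS s hs
    have hroot : aeval s (X ^ p - C (el a) : (RatFunc W)[X]) = 0 := by
      rw [map_sub, map_pow, aeval_X, aeval_C, hel, h, sub_self]
    have hmon : (X ^ p - C (el a) : (RatFunc W)[X]).Monic := monic_X_pow_sub_C _ hp0
    refine ⟨⟨_, hmon, by rw [← aeval_def]; exact hroot⟩, ?_⟩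
    have hdvd := minpoly.dvd (RatFunc W) s hroot
    have hsp : ((X ^ p - C (el a) : (RatFunc W)[X]).map (algebraMap (RatFunc W) E)).Splits := by
      obtain ⟨g, hg⟩ := root_ps hp0 ((PowerSeries.C θ + PowerSeries.X) ^ d + PowerSeries.C a) (by
        rw [map_add, map_pow, map_add, PowerSeries.constantCoeff_C, PowerSeries.constantCoeff_X,
          PowerSeries.constantCoeff_C, add_zero]
        exact ha)
      rw [Polynomial.map_sub, Polynomial.map_pow, map_X, map_C, hρa, helρ]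
      refine X_pow_sub_C_splits_of_isPrimitiveRoot hζE (α := algebraMap (PowerSeries W) E g) ?_
      rw [← map_pow, hg]
    refine hsp.of_dvd ?_ (Polynomial.map_dvd _ hdvd)
    rw [Polynomial.map_ne_zero_iff (algebraMap (RatFunc W) E).injective]
    exact hmon.ne_zero
  obtain ⟨ψ⟩ := IntermediateField.nonempty_algHom_adjoin_of_splits hspl
  set v : E := ψ ⟨y₀, hmem⟩ with hv
  have hvp : v ^ p = algebraMap (PowerSeries W) E
      ((PowerSeries.C θ + PowerSeries.X) ^ d - PowerSeries.C (θ ^ d)) := by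
    have h1 : (⟨y₀, hmem⟩ : IntermediateField.adjoin (RatFunc W) S) ^ p =
        algebraMap (RatFunc W) _ (el (-θ ^ d)) := by
      apply Subtype.ext
      change y₀ ^ p = algebraMap (RatFunc W) Ω (el (-θ ^ d))
      rw [hel, hy₀, map_neg, sub_eq_add_neg]
    rw [hv, ← map_pow, h1, AlgHom.commutes, hρa, helρ, map_neg, sub_eq_add_neg]
  -- the power series ring is integrally closed
  have hint : IsIntegral (PowerSeries W) v := by
    refine ⟨X ^ p - C ((PowerSeries.C θ + PowerSeries.X) ^ d - PowerSeries.C (θ ^ d)),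
      monic_X_pow_sub_C _ hp0, ?_⟩
    rw [eval₂_sub, eval₂_pow, eval₂_X, eval₂_C, hvp, sub_self]
  obtain ⟨g, hg⟩ := IsIntegrallyClosed.isIntegral_iff.1 hint
  rw [← hg, ← map_pow] at hvp
  exact not_pow_ps hp hd0 hθ g ((IsFractionRing.injective (PowerSeries W) E) hvp)

/-- An automorphism which multiplies exactly one radical by a given root of unity. -/
theorem exists_flip_one [IsAlgClosed Ω] [Algebra.IsAlgebraic (RatFunc W) Ω] {p d : ℕ} (hp : p.Prime)
    (hd0 : d ≠ 0) {ζ : W} (hζ : IsPrimitiveRoot ζ p) (S : Set Ω) {θ : W} (hθ : θ ≠ 0)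
    (hS : ∀ y ∈ S, ∃ a : W, θ ^ d + a ≠ 0 ∧ y ^ p = kz W Ω ^ d + kc W Ω a) {y₀ : Ω}
    (hy₀ : y₀ ^ p = kz W Ω ^ d - kc W Ω (θ ^ d)) (e : ℕ) :
    ∃ g : Ω ≃ₐ[RatFunc W] Ω, (∀ y ∈ S, g y = y) ∧ g y₀ = kc W Ω ζ ^ e * y₀ := by
  have hsep := radical_sep hp.two_le hd0 S hθ hS hy₀
  have hcz : CharZero (RatFunc W) := charZero_of_injective_algebraMap (algebraMap W (RatFunc W)).injective
  have hN : Normal (RatFunc W) Ω := normal_iff.2 fun x =>
    ⟨Algebra.IsIntegral.isIntegral x, IsAlgClosed.splits _⟩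
  have hG : IsGalois (RatFunc W) Ω := IsGalois.mk
  obtain ⟨g, hg, hgy⟩ := exists_moving (IntermediateField.adjoin (RatFunc W) S).toSubfield
    (fun x => (IntermediateField.adjoin (RatFunc W) S).algebraMap_mem x) hsep
  have hgS : ∀ y ∈ S, g y = y := fun y hy => hg y (IntermediateField.subset_adjoin _ _ hy)
  have hkz : g (kz W Ω) = kz W Ω := g.commutes _
  have hkc : ∀ a, g (kc W Ω a) = kc W Ω a := fun a => g.commutes _
  have hy₀0 : y₀ ≠ 0 := by
    rintro rfl
    exact hgy (map_zero g)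
  have hζΩ : IsPrimitiveRoot (kc W Ω ζ) p := hζ.map_of_injective (kc W Ω).injective
  have h1 : (g y₀ / y₀) ^ p = 1 := by
    rw [div_pow, ← map_pow, hy₀, map_sub, map_pow, hkz, hkc, ← hy₀]
    exact div_self (pow_ne_zero _ hy₀0)
  have : NeZero p := ⟨hp.ne_zero⟩
  obtain ⟨i, hi, h2⟩ := hζΩ.eq_pow_of_pow_eq_one h1
  have hgi : g y₀ = kc W Ω ζ ^ i * y₀ := by
    rw [h2, div_mul_cancel₀ _ hy₀0]
  have hi0 : i ≠ 0 := by
    rintro rfl
    rw [pow_zero, one_mul] at hgi
    exact hgy hgi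
  -- a power of `g`
  have hpow : ∀ m : ℕ, (g ^ m) y₀ = kc W Ω ζ ^ (i * m) * y₀ := by
    intro m
    induction m with
    | zero => simp
    | succ m ih =>
      rw [pow_succ', AlgEquiv.mul_apply, ih, map_mul, map_pow, hkc, hgi, ← mul_assoc, ← pow_add]
      congr 2
  have hpowS : ∀ m : ℕ, ∀ y ∈ S, (g ^ m) y = y := by
    intro m y hy
    induction m with
    | zero => rfl
    | succ m ih => rw [pow_succ', AlgEquiv.mul_apply, ih, hgS y hy]
  have hco : Nat.Coprime i p := by
    rw [Nat.coprime_comm, hp.coprime_iff_not_dvd]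
    intro hd
    have := Nat.le_of_dvd (Nat.pos_of_ne_zero hi0) hd
    omega
  obtain ⟨m, hm⟩ : ∃ m : ℕ, i * m ≡ e [MOD p] := by
    obtain ⟨m, -, hm⟩ := Nat.exists_mul_mod_eq_one_of_coprime hco hp.one_lt
    refine ⟨m * e, ?_⟩
    have h3 : i * m ≡ 1 [MOD p] := by
      rw [Nat.ModEq, hm, Nat.mod_eq_of_lt hp.one_lt]
    have h4 := h3.mul_right e
    rw [one_mul, mul_assoc] at h4
    exact h4
  refine ⟨g ^ m, hpowS m, ?_⟩
  have h5 : ∀ n : ℕ, kc W Ω ζ ^ n = kc W Ω ζ ^ (n % p) := by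
    intro n
    conv_rhs => rw [hζΩ.eq_orderOf]
    exact (pow_mod_orderOf _ _).symm
  rw [hpow, h5 (i * m), h5 e, hm]

end sep

section Phi

variable {W : Type*} [Field W]

/-- the unit of the level `j` -/
noncomputable def lu (d e : ℕ) (c b : W) (J : ℕ) {E : Type*} [Field E] (cE Z : E) (Y : W → E) (j : ℕ) : E :=
  ∏ s ∈ pre d c j b, (((uf d cE)^[J - j] Z) ^ e - ∏ z ∈ pre d c (J - j) s, Y z)

/-- a product of powers of the level units -/
noncomputable def Phi (d e : ℕ) (c b : W) (J : ℕ) (a : ℕ → ℤ) {E : Type*} [Field E] (cE Z : E)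
    (Y : W → E) : E :=
  ∏ j ∈ range (J + 1), lu d e c b J cE Z Y j ^ a j

theorem map_lu (d e : ℕ) (c b : W) (J : ℕ) {E E' : Type*} [Field E] [Field E'] (h : E →+* E') (cE Z : E)
    (Y : W → E) (j : ℕ) : h (lu d e c b J cE Z Y j) = lu d e c b J (h cE) (h Z) (fun z => h (Y z)) j := by
  simp only [lu, map_prod, map_sub, map_pow, uf_map]

theorem map_Phi (d e : ℕ) (c b : W) (J : ℕ) (a : ℕ → ℤ) {E E' : Type*} [Field E] [Field E'] (h : E →+* E')
    (cE Z : E) (Y : W → E) :
    h (Phi d e c b J a cE Z Y) = Phi d e c b J a (h cE) (h Z) (fun z => h (Y z)) := by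
  simp only [Phi, map_prod, map_zpow₀, map_lu]

theorem lu_congr {d e : ℕ} (hd : d ≠ 0) (c b : W) (J : ℕ) {E : Type*} [Field E] (cE Z : E) {Y Y' : W → E}
    (h : ∀ z ∈ pre d c J b, Y z = Y' z) {j : ℕ} (hj : j ≤ J) :
    lu d e c b J cE Z Y j = lu d e c b J cE Z Y' j := by
  unfold lu
  refine prod_congr rfl fun s hs => ?_
  congr 1
  refine prod_congr rfl fun z hz => h z ?_
  rw [mem_pre hd] at hs hz ⊢
  have h1 := Function.iterate_add_apply (uf d c) j (J - j) z
  rw [Nat.add_sub_cancel' hj] at h1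
  rw [h1, hz, hs]

theorem Phi_congr {d e : ℕ} (hd : d ≠ 0) (c b : W) (J : ℕ) (a : ℕ → ℤ) {E : Type*} [Field E] (cE Z : E)
    {Y Y' : W → E} (h : ∀ z ∈ pre d c J b, Y z = Y' z) :
    Phi d e c b J a cE Z Y = Phi d e c b J a cE Z Y' := by
  unfold Phi
  refine prod_congr rfl fun j hj => ?_
  rw [lu_congr hd c b J cE Z h (by rw [mem_range] at hj; omega)]

end Phi

end Pool.Agent.ORB.UE
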