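import Pool.Agent.ORB.UERungeC

/-!
ORB, unicritical maps of degree `d = p e`, radicals of exponent `p`: products of powers of the level units are
not constant along a sequence.
-/

set_option autoImplicit false

namespace Pool.Agent.ORB.UE

open Finset Polynomial Filter Pool.Agent.ORB.UQ

section

variable {W : Type*} [Field W]

theorem germ_lu (d e : ℕ) (c b : W) (J : ℕ) (x : ℕ → W) (Y : ℕ → W → W) (j : ℕ) :
    ((fun i => lu d e c b J c (x i) (Y i) j : ℕ → W) : (hyperfilter ℕ : Filter ℕ).Germ W)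
      = lu d e c b J (gcon W c) ((x : ℕ → W) : (hyperfilter ℕ : Filter ℕ).Germ W)
        (fun z => ((fun i => Y i z : ℕ → W) : (hyperfilter ℕ : Filter ℕ).Germ W)) j := by
  unfold lu
  rw [germ_prod]
  refine prod_congr rfl fun s _ => ?_
  rw [← germ_uf, ← germ_prod]
  rfl

theorem germ_Phi (d e : ℕ) (c b : W) (J : ℕ) (a : ℕ → ℤ) (x : ℕ → W) (Y : ℕ → W → W) :
    ((fun i => Phi d e c b J a c (x i) (Y i) : ℕ → W) : (hyperfilter ℕ : Filter ℕ).Germ W)
      = Phi d e c b J a (gcon W c) ((x : ℕ → W) : (hyperfilter ℕ : Filter ℕ).Germ W)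
        (fun z => ((fun i => Y i z : ℕ → W) : (hyperfilter ℕ : Filter ℕ).Germ W)) := by
  unfold Phi
  rw [germ_prod]
  refine prod_congr rfl fun j _ => ?_
  rw [← germ_lu, germ_zpow]

end

section seq

variable {W : Type*} [Field W] [CharZero W] [IsAlgClosed W]

/-- **Non-constancy** along a sequence. -/
theorem core_seq {p e d : ℕ} (hp : p.Prime) (hd : d ≠ 0) (hde : d = e * p) {c b : W}
    (hb : ∀ i y, (uf d c)^[i] y = b → y ≠ c) (J : ℕ)
    (a : ℕ → ℤ) (haJ : a J ≠ 0) {x : ℕ → W} (hx : Function.Injective x) {Y : ℕ → W → W}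
    (hY : ∀ i, ∀ z ∈ pre d c J b, Y i z ^ p = x i ^ d + (c - z)) {t : W}
    (ht : ∀ i, Phi d e c b J a c (x i) (Y i) = t) : False := by
  classical
  obtain ⟨ζ, hζ⟩ : ∃ ζ : W, IsPrimitiveRoot ζ p := by
    have : NeZero (p : W) := ⟨by exact_mod_cast hp.ne_zero⟩
    exact HasEnoughRootsOfUnity.exists_primitiveRoot W p
  let E := (hyperfilter ℕ : Filter ℕ).Germ W
  let φ : W[X] →+* E := gev x
  have hφ : Function.Injective φ := gev_inj hx
  have hφ' := nonZeroDivisors_le_comap_nonZeroDivisors_of_injective φ hφ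
  let ρ : RatFunc W →+* E := RatFunc.liftRingHom φ hφ'
  have hρ : ∀ q : W[X], ρ (algebraMap W[X] (RatFunc W) q) = φ q := fun q =>
    RatFunc.liftRingHom_algebraMap φ hφ' q
  let _ : Algebra (RatFunc W) E := ρ.toAlgebra
  have hρa : algebraMap (RatFunc W) E = ρ := rfl
  have hkc : ∀ a, algebraMap (RatFunc W) E (RatFunc.C a) = gcon W a := by
    intro a
    rw [hρa, ← RatFunc.algebraMap_C, hρ]
    exact gev_C x a
  have hkz : algebraMap (RatFunc W) E RatFunc.X = ((x : ℕ → W) : E) := by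
    rw [hρa, ← RatFunc.algebraMap_X, hρ]
    exact gev_X x
  let yh : W → E := fun z => ((fun i => Y i z : ℕ → W) : E)
  have hyh : ∀ z ∈ pre d c J b, yh z ^ p = ((x : ℕ → W) : E) ^ d + gcon W (c - z) := by
    intro z hz
    have h1 : yh z ^ p = ((fun i => Y i z ^ p : ℕ → W) : E) := rfl
    have h2 : ((x : ℕ → W) : E) ^ d + gcon W (c - z) = ((fun i => x i ^ d + (c - z) : ℕ → W) : E) := rfl
    rw [h1, h2]
    congr 1
    funext i
    exact hY i z hz
  -- the relative algebraic closure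
  let A := algebraicClosure (RatFunc W) E
  let κA : W →+* A := (algebraMap (RatFunc W) A).comp RatFunc.C
  let zA : A := algebraMap (RatFunc W) A RatFunc.X
  have halg : ∀ z ∈ pre d c J b, yh z ∈ A := by
    intro z hz
    have h1 : IsIntegral (RatFunc W) (yh z ^ p) := by
      rw [hyh z hz, ← hkc, ← hkz, ← map_pow, ← map_add]
      exact isIntegral_algebraMap
    exact IsIntegral.of_pow hp.pos h1
  let YA : W → A := fun z => if h : yh z ∈ A then ⟨yh z, h⟩ else 0
  have hYA : ∀ z ∈ pre d c J b, ((YA z : A) : E) = yh z := by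
    intro z hz
    simp only [YA, dif_pos (halg z hz)]
  have hκA : ∀ a, ((κA a : A) : E) = gcon W a := fun a => hkc a
  have hzA : ((zA : A) : E) = ((x : ℕ → W) : E) := hkz
  have hYAp : ∀ z ∈ pre d c J b, YA z ^ p = zA ^ d + κA (c - z) := by
    intro z hz
    apply Subtype.ext
    change ((YA z : A) : E) ^ p = ((zA : A) : E) ^ d + ((κA (c - z) : A) : E)
    rw [hYA z hz, hzA, hκA]
    exact hyh z hz
  have hPhiA : Phi d e c b J a (κA c) zA YA = κA t := by
    apply Subtype.ext
    have h1 := map_Phi d e c b J a (algebraMap A E) (κA c) zA YA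
    change algebraMap A E (Phi d e c b J a (κA c) zA YA) = algebraMap A E (κA t)
    rw [h1]
    have h2 : algebraMap A E (κA c) = gcon W c := hκA c
    have h3 : algebraMap A E zA = ((x : ℕ → W) : E) := hzA
    have h4 : algebraMap A E (κA t) = gcon W t := hκA t
    rw [h2, h3, h4]
    refine (Phi_congr hd c b J a (gcon W c) ((x : ℕ → W) : E) (Y' := yh)
      fun z hz => hYA z hz).trans ?_
    have h5 := germ_Phi d e c b J a x Y
    have h6 : (fun i => Phi d e c b J a c (x i) (Y i)) = fun _ => t := funext ht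
    rw [h6] at h5
    exact h5.symm
  -- transfer to an algebraic closure
  let Ω := AlgebraicClosure (RatFunc W)
  let ψ : A →ₐ[RatFunc W] Ω := IsAlgClosed.lift
  have hψκ : ∀ a, ψ (κA a) = kc W Ω a := fun a => ψ.commutes _
  have hψz : ψ zA = kz W Ω := ψ.commutes _
  refine core_ff (Ω := Ω) hp hd hde hζ hb J a haJ (Y := fun z => ψ (YA z)) ?_ (t := t) ?_
  · intro z hz
    rw [← map_pow, hYAp z hz, map_add, map_pow, hψz, hψκ]
  · have h1 := map_Phi d e c b J a (ψ : A →+* Ω) (κA c) zA YA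
    rw [hPhiA] at h1
    have h2 : (ψ : A →+* Ω) (κA c) = kc W Ω c := hψκ c
    have h3 : (ψ : A →+* Ω) zA = kz W Ω := hψz
    have h4 : (ψ : A →+* Ω) (κA t) = kc W Ω t := hψκ t
    rw [h2, h3, h4] at h1
    exact h1.symm

end seq

end Pool.Agent.ORB.UE
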