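import Pool.Agent.ORB.UERungeD

/-!
ORB, unicritical maps of degree `d = p e`, radicals of exponent `p`: the level units of an equivariant family of
radicals over a number field.
-/

set_option autoImplicit false
set_option linter.unusedSectionVars false

namespace Pool.Agent.ORB.UE

open Finset Polynomial NumberField IsDedekindDomain Filter Pool.Agent.ORB.UQ

universe u

section order

variable {F : Type*} [Field F]

/-- the order of one factor -/
theorem order_factor [CharZero F] (A : AbsoluteValue F ℝ) {p e d : ℕ} (hp : 2 ≤ p) (he : 1 ≤ e)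
    (hde : d = e * p) (c : F) (x : ℕ → F)
    (hx : ∀ n, x (n + 1) = x n ^ d + c) {a : F} (ha : a ≠ 0) (i : ℕ) :
    ∃ C : ℝ, ∃ n0 : ℕ, ∀ n, n0 ≤ n → ∀ y : F, y ^ p = x (n + i) ^ d + a →
      ∃ o : ℤ, |o| ≤ d ∧ |Real.log (A (x (n + i) ^ e - y)) - o * (d ^ i * Real.log (A (x n)))| ≤ C := by
  have hp1 : 1 ≤ p := by omega
  have hd2 : 2 ≤ d := by
    rw [hde]
    calc 2 = 1 * 2 := by norm_num
      _ ≤ e * p := Nat.mul_le_mul he hp
  have hy' : ∀ m : ℕ, ∀ y : F, y ^ p = x m ^ d + a → y ^ p = (x m ^ e) ^ p + a := by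
    intro m y h
    rw [h, ← pow_mul, ← hde]
  rcases dichotomy_p A hd2 c x hx with ⟨B, hB⟩ | hinf
  · obtain ⟨C, hC⟩ := log_bounded A hp1 ha (B ^ e)
    refine ⟨C, 0, fun n _ y hy => ⟨0, by simp, ?_⟩⟩
    rw [Int.cast_zero, zero_mul, sub_zero]
    refine hC _ _ ?_ (hy' _ _ hy)
    rw [map_pow]
    exact pow_le_pow_left₀ (A.nonneg _) (hB _) _
  · obtain ⟨C, M, hC⟩ := log_escape A hp1 ha
    obtain ⟨C', n0, hC'⟩ := log_orbit A (by omega : 1 ≤ d) c x hx hinf i
    obtain ⟨n1, hn1⟩ := Filter.eventually_atTop.1 (hinf.eventually_ge_atTop (max M 1))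
    refine ⟨C + d * C', max n0 n1, fun n hn y hy => ?_⟩
    have h0 := hn1 _ (((le_max_right n0 n1).trans hn).trans (Nat.le_add_right _ i))
    have h0' : 1 ≤ A (x (n + i)) := (le_max_right _ _).trans h0
    obtain ⟨o, ho, h1⟩ := hC (x (n + i) ^ e) y (by
      rw [map_pow]
      exact ((le_max_left _ _).trans h0).trans (le_self_pow₀ h0' (by omega))) (hy' _ _ hy)
    have h2 := hC' n ((le_max_left _ _).trans hn)
    have hop : |o| ≤ p := by
      rcases ho with rfl | rfl
      · rw [abs_one]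
        exact_mod_cast hp1
      · rw [abs_le]
        constructor <;> omega
    have hop' : |o * (e : ℤ)| ≤ d := by
      rw [abs_mul, Nat.abs_cast, hde]
      push_cast
      rw [mul_comm]
      exact mul_le_mul_of_nonneg_left hop (by positivity)
    refine ⟨o * e, hop', ?_⟩
    rw [map_pow, Real.log_pow] at h1
    have e1 : Real.log (A (x (n + i) ^ e - y)) - ((o * (e : ℤ) : ℤ) : ℝ) * (d ^ i * Real.log (A (x n)))
        = (Real.log (A (x (n + i) ^ e - y)) - o * (e * Real.log (A (x (n + i)))))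
          + ((o * (e : ℤ) : ℤ) : ℝ) * (Real.log (A (x (n + i))) - d ^ i * Real.log (A (x n))) := by
      push_cast
      ring
    rw [e1]
    refine (abs_add_le _ _).trans (add_le_add h1 ?_)
    rw [abs_mul]
    have h3 : |((o * (e : ℤ) : ℤ) : ℝ)| ≤ d := by exact_mod_cast hop'
    exact mul_le_mul h3 h2 (abs_nonneg _) (by positivity)

theorem factor_ne {p e d : ℕ} (hde : d = e * p) {a x y : F} (ha : a ≠ 0) (h : y ^ p = x ^ d + a) :
    x ^ e - y ≠ 0 := by
  refine (geom_ne (p := p) (d := a) ha ?_).2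
  rw [h, ← pow_mul, ← hde]

/-- the order of a product over a finite set -/
theorem order_prod [CharZero F] (A : AbsoluteValue F ℝ) {p e d : ℕ} (hp : 2 ≤ p) (he : 1 ≤ e)
    (hde : d = e * p) (c : F) (x : ℕ → F)
    (hx : ∀ n, x (n + 1) = x n ^ d + c) (S : Finset F) (hS : ∀ s ∈ S, s ≠ c) (i : ℕ) :
    ∃ C : ℝ, ∃ n0 : ℕ, ∀ n, n0 ≤ n → ∀ y : F → F, (∀ s ∈ S, y s ^ p = x (n + i) ^ d + (c - s)) →
      ∃ t : ℤ, |t| ≤ S.card * d ∧
        |Real.log (A (∏ s ∈ S, (x (n + i) ^ e - y s))) - t * (d ^ i * Real.log (A (x n)))| ≤ C := by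
  classical
  induction S using Finset.induction_on with
  | empty => exact ⟨0, 0, fun n _ y _ => ⟨0, by simp, by simp⟩⟩
  | insert s S hsS ih =>
    obtain ⟨C, n0, h⟩ := ih fun s' hs' => hS s' (mem_insert_of_mem hs')
    have hd : c - s ≠ 0 := sub_ne_zero.2 (hS s (mem_insert_self _ _)).symm
    obtain ⟨C', n1, h'⟩ := order_factor A hp he hde c x hx hd i
    refine ⟨C' + C, max n0 n1, fun n hn y hy => ?_⟩
    obtain ⟨t, ht, h1⟩ := h n ((le_max_left _ _).trans hn) y fun s' hs' => hy s' (mem_insert_of_mem hs')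
    obtain ⟨o, ho, h2⟩ := h' n ((le_max_right _ _).trans hn) (y s) (hy s (mem_insert_self _ _))
    refine ⟨o + t, ?_, ?_⟩
    · rw [card_insert_of_notMem hsS]
      refine (abs_add_le _ _).trans ?_
      push_cast
      linarith
    · rw [prod_insert hsS, map_mul, Real.log_mul]
      · have e : Real.log (A (x (n + i) ^ e - y s)) + Real.log (A (∏ s ∈ S, (x (n + i) ^ e - y s)))
            - ((o + t : ℤ) : ℝ) * (d ^ i * Real.log (A (x n)))
            = (Real.log (A (x (n + i) ^ e - y s)) - o * (d ^ i * Real.log (A (x n))))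
              + (Real.log (A (∏ s ∈ S, (x (n + i) ^ e - y s))) - t * (d ^ i * Real.log (A (x n)))) := by
          push_cast
          ring
        rw [e]
        exact (abs_add_le _ _).trans (add_le_add h2 h1)
      · rw [Ne, AbsoluteValue.eq_zero]
        exact factor_ne hde hd (hy s (mem_insert_self _ _))
      · rw [Ne, AbsoluteValue.eq_zero, prod_eq_zero_iff]
        push Not
        intro s' hs'
        exact factor_ne hde (sub_ne_zero.2 (hS s' (mem_insert_of_mem hs')).symm)
          (hy s' (mem_insert_of_mem hs'))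

/-- bounded orbits: products over a finite set -/
theorem prod_bounded (A : AbsoluteValue F ℝ) {p e d : ℕ} (hp : 1 ≤ p) (hde : d = e * p) (c : F) {B : ℝ}
    (S : Finset F) (hS : ∀ s ∈ S, s ≠ c) : ∃ C : ℝ, ∀ x : F, A x ≤ B → ∀ y : F → F,
      (∀ s ∈ S, y s ^ p = x ^ d + (c - s)) → |Real.log (A (∏ s ∈ S, (x ^ e - y s)))| ≤ C := by
  classical
  induction S using Finset.induction_on with
  | empty => exact ⟨0, fun x _ y _ => by simp⟩
  | insert s S hsS ih =>
    obtain ⟨C, h⟩ := ih fun s' hs' => hS s' (mem_insert_of_mem hs')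
    have hd : c - s ≠ 0 := sub_ne_zero.2 (hS s (mem_insert_self _ _)).symm
    obtain ⟨C', h'⟩ := log_bounded A hp hd (B ^ e)
    refine ⟨C' + C, fun x hx y hy => ?_⟩
    have h1 := h x hx y fun s' hs' => hy s' (mem_insert_of_mem hs')
    have h2 := h' (x ^ e) (y s) (by
      rw [map_pow]
      exact pow_le_pow_left₀ (A.nonneg _) hx _) (by
      rw [hy s (mem_insert_self _ _), ← pow_mul, ← hde])
    rw [prod_insert hsS, map_mul, Real.log_mul]
    · exact (abs_add_le _ _).trans (add_le_add h2 h1)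
    · rw [Ne, AbsoluteValue.eq_zero]
      exact factor_ne hde hd (hy s (mem_insert_self _ _))
    · rw [Ne, AbsoluteValue.eq_zero, prod_eq_zero_iff]
      push Not
      intro s' hs'
      exact factor_ne hde (sub_ne_zero.2 (hS s' (mem_insert_of_mem hs')).symm)
        (hy s' (mem_insert_of_mem hs'))

end order

section data

variable {K W : Type u} [Field K] [NumberField K] [Field W] [Algebra K W] [IsAlgClosed W]
  [Algebra.IsAlgebraic K W]

/-- an equivariant family of radicals of exponent `p` on the level `k` -/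
def EqRad (p d : ℕ) (W : Type*) [Field W] [Algebra K W] (c b : K) (k : ℕ) (x : K) (Y : W → W) : Prop :=
  ∀ z ∈ Lev d W c b k, Y z ^ p = algebraMap K W x ^ d + (algebraMap K W c - z) ∧
    ∀ g : W ≃ₐ[K] W, g (Y z) = Y (g z)

/-- the level units are rational -/
theorem lu_rational {p e d : ℕ} (hd : d ≠ 0) {c b : K} {k : ℕ} {x : K} {Y : W → W}
    (h : EqRad p d W c b k x Y) {j : ℕ} (hj : j ≤ k) :
    ∃ v : K, algebraMap K W v =
      lu d e (algebraMap K W c) (algebraMap K W b) k (algebraMap K W c) (algebraMap K W x) Y j := by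
  have hG := galois_W K W
  have h1 := (InfiniteGalois.mem_range_algebraMap_iff_fixed (k := K) (K := W)
    (lu d e (algebraMap K W c) (algebraMap K W b) k (algebraMap K W c) (algebraMap K W x) Y j)).2 ?_
  · exact h1
  intro g
  unfold lu
  rw [map_prod]
  have h2 : ∀ s ∈ pre d (algebraMap K W c) j (algebraMap K W b),
      g (((uf d (algebraMap K W c))^[k - j] (algebraMap K W x)) ^ e -
        ∏ z ∈ pre d (algebraMap K W c) (k - j) s, Y z) =
      (fun s => ((uf d (algebraMap K W c))^[k - j] (algebraMap K W x)) ^ e -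
        ∏ z ∈ pre d (algebraMap K W c) (k - j) s, Y z) (g s) := by
    intro s hs
    simp only []
    rw [map_sub, map_pow, aut_iter, g.commutes, map_prod, ← aut_pre hd g]
    congr 1
    refine prod_congr rfl fun z hz => (h z ?_).2 g
    rw [mem_pre hd] at hs hz
    rw [mem_Lev]
    have h3 := Function.iterate_add_apply (uf d (algebraMap K W c)) j (k - j) z
    rw [Nat.add_sub_cancel' hj] at h3
    rw [h3, hz, hs]
  have h3 := aut_pre hd (c := c) (e := j) (s := algebraMap K W b) g
    (fun s => ((uf d (algebraMap K W c))^[k - j] (algebraMap K W x)) ^ e -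
        ∏ z ∈ pre d (algebraMap K W c) (k - j) s, Y z)
  rw [g.commutes] at h3
  exact (prod_congr rfl h2).trans h3

theorem EqRad.mem_LF {p d : ℕ} {c b : K} {k : ℕ} {x : K} {Y : W → W}
    (h : EqRad p d W c b k x Y) {z : W} (hz : z ∈ Lev d W c b k) : Y z ∈ LF d W c b k := by
  have hG := galois_W K W
  rw [← InfiniteGalois.fixedField_fixingSubgroup (LF d W c b k), IntermediateField.mem_fixedField_iff]
  intro g hg
  have h1 : g z = z := (IntermediateField.mem_fixingSubgroup_iff _ _).1 hg z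
    (IntermediateField.subset_adjoin _ _ hz)
  rw [(h z hz).2 g, h1]

theorem YF_coe {p d : ℕ} (hd : d ≠ 0) {c b : K} {k : ℕ} {x : K} {Y : W → W}
    (h : EqRad p d W c b k x Y) {j : ℕ} (hj : j ≤ k) {s : LF d W c b k} (hs : s ∈ SF d W c b k j) :
    ((YF d W c b k j Y s : LF d W c b k) : W) = ∏ z ∈ pre d (algebraMap K W c) (k - j) (s : W), Y z := by
  rw [mem_SF, mem_pre hd] at hs
  have hm : (∏ z ∈ pre d (algebraMap K W c) (k - j) (s : W), Y z) ∈ LF d W c b k := by
    refine prod_mem fun z hz => h.mem_LF ?_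
    rw [mem_pre hd] at hz
    rw [mem_Lev]
    have h3 := Function.iterate_add_apply (uf d (algebraMap K W c)) j (k - j) z
    rw [Nat.add_sub_cancel' hj] at h3
    rw [h3, hz, hs]
  rw [YF, dif_pos hm]

theorem YF_pow [CharZero W] {p d : ℕ} (hd : d ≠ 0) {c b : K}
    (hb : ∀ i y, (uf d (algebraMap K W c))^[i] y = algebraMap K W b → y ≠ algebraMap K W c)
    {k : ℕ} {x : K} {Y : W → W} (h : EqRad p d W c b k x Y) {j : ℕ} (hj : j ≤ k) {s : LF d W c b k}
    (hs : s ∈ SF d W c b k j) :
    YF d W c b k j Y s ^ p = algebraMap K (LF d W c b k) ((uf d c)^[k - j] x) ^ d +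
      (algebraMap K (LF d W c b k) c - s) := by
  apply Subtype.ext
  change ((YF d W c b k j Y s : LF d W c b k) : W) ^ p =
    algebraMap K W ((uf d c)^[k - j] x) ^ d + (algebraMap K W c - (s : W))
  rw [YF_coe hd h hj hs, uf_map]
  have h1 := radical_pow (RingHom.id W) hd hb hj (Z := algebraMap K W x) (Y := Y) (fun z hz => by
    rw [mem_pre_Lev hd] at hz
    exact (h z hz).1) (mem_SF.1 hs)
  exact h1

/-- the level unit in the field of the level `k` -/
theorem lu_F [CharZero W] {p e d : ℕ} (hd : d ≠ 0) {c b : K}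
    (hb : ∀ i y, (uf d (algebraMap K W c))^[i] y = algebraMap K W b → y ≠ algebraMap K W c)
    {k : ℕ} {x : K} {Y : W → W} (h : EqRad p d W c b k x Y) {j : ℕ} (hj : j ≤ k) {v : K}
    (hv : algebraMap K W v =
      lu d e (algebraMap K W c) (algebraMap K W b) k (algebraMap K W c) (algebraMap K W x) Y j) :
    algebraMap K (LF d W c b k) v = ∏ s ∈ SF d W c b k j,
      (algebraMap K (LF d W c b k) ((uf d c)^[k - j] x) ^ e - YF d W c b k j Y s) := by
  classical
  apply (algebraMap (LF d W c b k) W).injective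
  rw [← IsScalarTower.algebraMap_apply, hv, map_prod, lu]
  have h1 : ∀ s ∈ SF d W c b k j, algebraMap (LF d W c b k) W
      (algebraMap K (LF d W c b k) ((uf d c)^[k - j] x) ^ e - YF d W c b k j Y s) =
      (fun s : W => ((uf d (algebraMap K W c))^[k - j] (algebraMap K W x)) ^ e -
        ∏ z ∈ pre d (algebraMap K W c) (k - j) s, Y z) (algebraMap (LF d W c b k) W s) := by
    intro s hs
    rw [map_sub, map_pow, ← IsScalarTower.algebraMap_apply, uf_map]
    congr 1
    exact YF_coe hd h hj hs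
  rw [prod_congr rfl h1, SF, Finset.prod_preimage (algebraMap (LF d W c b k) W)
    (pre d (algebraMap K W c) j (algebraMap K W b)) (algebraMap (LF d W c b k) W).injective.injOn
    (fun s : W => ((uf d (algebraMap K W c))^[k - j] (algebraMap K W x)) ^ e -
        ∏ z ∈ pre d (algebraMap K W c) (k - j) s, Y z)]
  intro s hs hns
  exact absurd ⟨⟨s, node_mem_LF hd hb hj hs⟩, rfl⟩ hns

end data

section comb

variable {W : Type*} [Field W]

theorem lu_sub {d e : ℕ} (hd : d ≠ 0) (c b : W) {E : Type*} [Field E] (cE Z : E) (Y : W → E) {j J k : ℕ}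
    (hj : j ≤ J) (hJ : J ≤ k) :
    lu d e c b J cE ((uf d cE)^[k - J] Z) (fun s => ∏ z ∈ pre d c (k - J) s, Y z) j =
      lu d e c b k cE Z Y j := by
  unfold lu
  refine prod_congr rfl fun s _ => ?_
  rw [← Function.iterate_add_apply, ← prod_pre_add hd]
  have : J - j + (k - J) = k - j := by omega
  rw [this]

theorem Phi_sub {d e : ℕ} (hd : d ≠ 0) (c b : W) {E : Type*} [Field E] (cE Z : E) (Y : W → E) {J k : ℕ}
    (hJ : J ≤ k) {a : ℕ → ℤ} (ha : ∀ j, J < j → j ≤ k → a j = 0) :
    Phi d e c b J a cE ((uf d cE)^[k - J] Z) (fun s => ∏ z ∈ pre d c (k - J) s, Y z) =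
      Phi d e c b k a cE Z Y := by
  unfold Phi
  have h1 : ∀ j ∈ range (k + 1), j ∉ range (J + 1) → lu d e c b k cE Z Y j ^ a j = 1 := by
    intro j hj hj'
    rw [mem_range] at hj hj'
    rw [ha j (by omega) (by omega), zpow_zero]
  rw [← prod_subset (range_mono (by omega : J + 1 ≤ k + 1)) h1]
  refine prod_congr rfl fun j hj => ?_
  rw [lu_sub hd c b cE Z Y (by rw [mem_range] at hj; omega) hJ]

end comb

section data2

variable {K W : Type u} [Field K] [NumberField K] [Field W] [Algebra K W] [IsAlgClosed W]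
  [Algebra.IsAlgebraic K W]

/-- the order of a level unit at a place -/
theorem unit_order [CharZero W] {p e d : ℕ} (hp : 2 ≤ p) (he : 1 ≤ e) (hde : d = e * p) {c b : K}
    (hb : ∀ i y, (uf d (algebraMap K W c))^[i] y = algebraMap K W b → y ≠ algebraMap K W c)
    {x : ℕ → K} (hx : ∀ n, x (n + 1) = x n ^ d + c) {k j : ℕ} (hj : j ≤ k)
    (i : HeightOneSpectrum (𝓞 K) ⊕ (K →+* ℂ)) :
    ∃ (M : ℕ) (C : ℝ) (n0 : ℕ), ∀ n, n0 ≤ n → ∀ Y : W → W, EqRad p d W c b k (x n) Y → ∀ v : K,
      algebraMap K W v =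
        lu d e (algebraMap K W c) (algebraMap K W b) k (algebraMap K W c) (algebraMap K W (x n)) Y j →
      ∃ t : ℤ, |t| ≤ M ∧
        |Real.log (pabv i v) - t * (d ^ (k - j) * Real.log (pabv i (x n)))| ≤ C := by
  have hd0 : d ≠ 0 := by rw [hde]; exact mul_ne_zero (by omega) (by omega)
  have := LF_nf (W := W) hd0 c b k
  obtain ⟨A, r, hr, hA⟩ := exists_above (F := LF d W c b k) i
  obtain ⟨C, n0, h⟩ := order_prod A hp he hde (algebraMap K (LF d W c b k) c)
    (fun n => algebraMap K (LF d W c b k) (x n)) (fun n => by rw [hx, map_add, map_pow])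
    (SF d W c b k j) (fun s hs => SF_ne hd0 hb hs) (k - j)
  refine ⟨(SF d W c b k j).card * d, C / r, n0, fun n hn Y hY v hv => ?_⟩
  obtain ⟨t, ht, h1⟩ := h n hn (YF d W c b k j Y) fun s hs => by
    rw [YF_pow hd0 hb hY hj hs, orbit_add hx]
  refine ⟨t, by exact_mod_cast ht, ?_⟩
  have h2 := lu_F (e := e) hd0 hb hY hj hv
  rw [orbit_add hx] at h2
  rw [← h2, hA, hA, Real.log_pow, Real.log_pow] at h1
  have hr' : (0 : ℝ) < r := by exact_mod_cast Nat.pos_of_ne_zero hr
  rw [le_div_iff₀ hr']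
  have e1 : (r : ℝ) * Real.log (pabv i v) - t * (d ^ (k - j) * (r * Real.log (pabv i (x n)))) =
    (Real.log (pabv i v) - t * (d ^ (k - j) * Real.log (pabv i (x n)))) * r := by ring
  rw [e1, abs_mul, abs_of_pos hr'] at h1
  exact h1

/-- the level units are bounded at a place where the orbit is bounded -/
theorem unit_bdd [CharZero W] {p e d : ℕ} (hp : 2 ≤ p) (he : 1 ≤ e) (hde : d = e * p) {c b : K}
    (hb : ∀ i y, (uf d (algebraMap K W c))^[i] y = algebraMap K W b → y ≠ algebraMap K W c)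
    {x : ℕ → K} (hx : ∀ n, x (n + 1) = x n ^ d + c) {k j : ℕ} (hj : j ≤ k)
    (i : HeightOneSpectrum (𝓞 K) ⊕ (K →+* ℂ)) {B : ℝ} (hB : ∀ n, pabv i (x n) ≤ B) :
    ∃ C : ℝ, ∀ n, ∀ Y : W → W, EqRad p d W c b k (x n) Y → ∀ v : K,
      algebraMap K W v =
        lu d e (algebraMap K W c) (algebraMap K W b) k (algebraMap K W c) (algebraMap K W (x n)) Y j →
      |Real.log (pabv i v)| ≤ C := by
  have hd0 : d ≠ 0 := by rw [hde]; exact mul_ne_zero (by omega) (by omega)
  have := LF_nf (W := W) hd0 c b k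
  obtain ⟨A, r, hr, hA⟩ := exists_above (F := LF d W c b k) i
  obtain ⟨C, h⟩ := prod_bounded A (by omega : 1 ≤ p) hde (algebraMap K (LF d W c b k) c) (B := B ^ r)
    (SF d W c b k j) (fun s hs => SF_ne hd0 hb hs)
  refine ⟨C / r, fun n Y hY v hv => ?_⟩
  have h1 := h (algebraMap K (LF d W c b k) (x (n + (k - j)))) (by
    rw [hA]
    exact pow_le_pow_left₀ ((pabv i).nonneg _) (hB _) r) (YF d W c b k j Y) fun s hs => by
      rw [YF_pow hd0 hb hY hj hs, orbit_add hx]
  have h2 := lu_F (e := e) hd0 hb hY hj hv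
  rw [orbit_add hx] at h2
  rw [← h2, hA, Real.log_pow] at h1
  have hr' : (0 : ℝ) < r := by exact_mod_cast Nat.pos_of_ne_zero hr
  rw [le_div_iff₀ hr']
  rw [mul_comm, abs_mul, abs_of_pos hr'] at h1
  exact h1

/-- the level units are units outside a finite set of places -/
theorem unit_unit [CharZero W] {p e d : ℕ} (hp : 2 ≤ p) (he : 1 ≤ e) (hde : d = e * p) {c b : K}
    (hb : ∀ i y, (uf d (algebraMap K W c))^[i] y = algebraMap K W b → y ≠ algebraMap K W c)
    {x : ℕ → K} (hx : ∀ n, x (n + 1) = x n ^ d + c) {k j : ℕ} (hj : j ≤ k)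
    (w : HeightOneSpectrum (𝓞 K)) (hc : w.valuation K c ≤ 1) (hbw : w.valuation K b ≤ 1)
    (h0 : w.valuation K (x 0) ≤ 1) (hjw : w.valuation K ((uf d c)^[j] c - b) = 1)
    (n : ℕ) {Y : W → W} (hY : EqRad p d W c b k (x n) Y) {v : K}
    (hv : algebraMap K W v =
        lu d e (algebraMap K W c) (algebraMap K W b) k (algebraMap K W c) (algebraMap K W (x n)) Y j) :
    w.valuation K v = 1 := by
  have hp0 : p ≠ 0 := by omega
  have hd0 : d ≠ 0 := by rw [hde]; exact mul_ne_zero (by omega) (by omega)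
  have := LF_nf (W := W) hd0 c b k
  obtain ⟨⟨Q, hQ1, hQ2⟩⟩ := w.asIdeal.nonempty_primesOver (S := 𝓞 (LF d W c b k))
  have hQ0 : Q ≠ ⊥ := Ideal.ne_bot_of_mem_primesOver w.ne_bot ⟨hQ1, hQ2⟩
  let P : HeightOneSpectrum (𝓞 (LF d W c b k)) := ⟨Q, hQ1, hQ0⟩
  have hlo : P.asIdeal.LiesOver w.asIdeal := hQ2
  set u := P.valuation (LF d W c b k) with hu
  have hc' : u (algebraMap K (LF d W c b k) c) ≤ 1 := (val_le_iff w P c).2 hc
  have hb' : u (algebraMap K (LF d W c b k) b) ≤ 1 := (val_le_iff w P b).2 hbw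
  have hxn : ∀ n, w.valuation K (x n) ≤ 1 := by
    intro n
    induction n with
    | zero => exact h0
    | succ n ih =>
      rw [hx]
      refine ((w.valuation K).map_add _ _).trans (max_le ?_ hc)
      rw [map_pow]
      exact pow_le_one₀ zero_le ih
  have hx' : u (algebraMap K (LF d W c b k) (x (n + (k - j)))) ≤ 1 := (val_le_iff w P _).2 (hxn _)
  have hs : ∀ s ∈ SF d W c b k j, u s ≤ 1 := by
    intro s hs
    refine iter_int' u hd0 hc' hb' j ?_
    rw [mem_SF, mem_pre hd0] at hs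
    apply (algebraMap (LF d W c b k) W).injective
    rw [uf_map]
    exact hs
  have hcs : ∀ s ∈ SF d W c b k j, u (algebraMap K (LF d W c b k) c - s) ≤ 1 := fun s hs' =>
    (u.map_sub _ _).trans (max_le hc' (hs s hs'))
  set X := algebraMap K (LF d W c b k) (x (n + (k - j))) ^ e with hX
  have hX' : u X ≤ 1 := by
    rw [hX, map_pow]
    exact pow_le_one₀ zero_le hx'
  have hpow : ∀ s ∈ SF d W c b k j, YF d W c b k j Y s ^ p =
      X ^ p + (algebraMap K (LF d W c b k) c - s) := by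
    intro s hs
    rw [YF_pow hd0 hb hY hj hs, orbit_add hx, hX, ← pow_mul, ← hde]
  have hys : ∀ s ∈ SF d W c b k j, u (YF d W c b k j Y s) ≤ 1 := fun s hs' =>
    root_int' u hp0 hX' (hcs s hs') (hpow s hs')
  have h2 := lu_F (e := e) hd0 hb hY hj hv
  rw [orbit_add hx, ← hX] at h2
  rw [← val_eq_iff w P, h2, map_prod]
  have h3 : ∏ s ∈ SF d W c b k j, u (algebraMap K (LF d W c b k) c - s) = 1 := by
    rw [← map_prod, prod_SF hd0 hb hj]
    exact (val_eq_iff w P _).2 hjw
  have h4 : ∀ s ∈ SF d W c b k j, u (algebraMap K (LF d W c b k) c - s) = 1 := by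
    intro s hs'
    refine le_antisymm (hcs s hs') ?_
    rw [← h3]
    classical
    rw [← mul_prod_erase _ _ hs']
    exact mul_le_of_le_one_right' (prod_le_one' fun s'' hs'' => hcs s'' (mem_of_mem_erase hs''))
  refine prod_eq_one fun s hs' => ?_
  set y := YF d W c b k j Y s
  have h5 : u (X - y) ≤ 1 := (u.map_sub _ _).trans (max_le hX' (hys s hs'))
  have h6 : u (∑ i ∈ range p, X ^ i * y ^ (p - 1 - i)) ≤ 1 := by
    refine u.map_sum_le fun i _ => ?_
    rw [map_mul, map_pow u X i, map_pow u y]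
    exact mul_le_one' (pow_le_one₀ zero_le hX') (pow_le_one₀ zero_le (hys s hs'))
  have h7 : u (X - y) * u (∑ i ∈ range p, X ^ i * y ^ (p - 1 - i)) = 1 := by
    rw [← map_mul, mul_comm, Commute.geom_sum₂_mul (Commute.all X y)]
    have : X ^ p - y ^ p = -(algebraMap K (LF d W c b k) c - s) := by
      rw [hpow s hs']
      ring
    rw [this, Valuation.map_neg]
    exact h4 s hs'
  refine le_antisymm h5 ?_
  rw [← h7]
  exact mul_le_of_le_one_right' h6

end data2

end Pool.Agent.ORB.UE
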