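import Pool.Agent.ORB.UERunge
import Pool.Agent.ORB.UNontriv

/-!
ORB, unicritical maps of prime power degree: full levels.
-/

set_option autoImplicit false

namespace Pool.Agent.ORB.UE

open Finset Polynomial NumberField IsDedekindDomain Pool.Agent.ORB.UQ

universe u

variable {K : Type*} [Field K]

/-- the level `l` is full: an automorphism which fixes the level `l` moves the power `z ^ e` of a point `z` of the
next level -/
def Full (d e : ℕ) (W : Type*) [Field W] [Algebra K W] (c b : K) (l : ℕ) : Prop :=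
  ∃ g : W ≃ₐ[K] W, (∀ y ∈ Lev d W c b l, g y = y) ∧ ∃ z ∈ Lev d W c b (l + 1), g (z ^ e) ≠ z ^ e

theorem Full.nontriv {d e : ℕ} {W : Type*} [Field W] [Algebra K W] {c b : K} {l : ℕ}
    (h : Full d e W c b l) : Nontriv d W c b l := by
  obtain ⟨g, hg, z, hz, hne⟩ := h
  refine ⟨g, hg, z, hz, fun h1 => hne ?_⟩
  rw [map_pow, h1]

theorem isPGroup_range {W : Type*} [Field W] [Algebra K W] {p r : ℕ} (hp : p.Prime) {ζ c b : K}
    (hζ : IsPrimitiveRoot ζ (p ^ r)) (l : ℕ) : IsPGroup p (levHom (p ^ r) W c b l).range := by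
  intro g
  obtain ⟨k, hk⟩ := UQ.isPGroup_range (W := W) (pow_ne_zero r hp.ne_zero) (c := c) (b := b) hζ l g
  exact ⟨r * k, by rw [pow_mul]; exact hk⟩

theorem exists_mul_modEq {p r i : ℕ} (hp : p.Prime) (hr : 0 < r) (hi : ¬ p ^ r ∣ i) :
    ∃ m : ℕ, i * m ≡ p ^ (r - 1) [MOD p ^ r] := by
  have hpos : 0 < p ^ r := Nat.pow_pos hp.pos
  obtain ⟨a, ha, hga⟩ := (Nat.dvd_prime_pow hp).1 (Nat.gcd_dvd_right i (p ^ r))
  have har : a < r := by
    rcases Nat.lt_or_ge a r with h | h
    · exact h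
    · exfalso
      apply hi
      have : a = r := le_antisymm ha h
      rw [this] at hga
      rw [← hga]
      exact Nat.gcd_dvd_left _ _
  have hlt : Nat.gcd i (p ^ r) < p ^ r := by
    rw [hga]
    exact Nat.pow_lt_pow_right hp.one_lt har
  obtain ⟨m, -, hm⟩ := Nat.exists_mul_mod_eq_gcd hlt
  refine ⟨m * p ^ (r - 1 - a), ?_⟩
  have h1 : i * m ≡ p ^ a [MOD p ^ r] := by
    rw [Nat.ModEq, hm, hga, Nat.mod_eq_of_lt (Nat.pow_lt_pow_right hp.one_lt har)]
  have h2 := h1.mul_right (p ^ (r - 1 - a))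
  rw [← pow_add, mul_assoc] at h2
  have h3 : a + (r - 1 - a) = r - 1 := by omega
  rwa [h3] at h2

/-- a uniform flip of order `p` from an automorphism which fixes the level and moves something above it -/
theorem flip_of_move {W : Type*} [Field W] [Algebra K W] [IsAlgClosed W]
    {p r : ℕ} (hp : p.Prime) (hr : 0 < r) {ζ c b : K} (hζ : IsPrimitiveRoot ζ (p ^ r)) {l : ℕ}
    (hT : Tran (p ^ r) W c b l) (h : Nontriv (p ^ r) W c b l) :
    ∃ g : W ≃ₐ[K] W, (∀ y ∈ Lev (p ^ r) W c b l, g y = y) ∧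
      ∀ z ∈ Lev (p ^ r) W c b (l + 1), g z = algebraMap K W (ζ ^ p ^ (r - 1)) * z := by
  classical
  set d := p ^ r with hd
  have hp0 : d ≠ 0 := pow_ne_zero _ hp.ne_zero
  have : Fact p.Prime := ⟨hp⟩
  obtain ⟨u, hu, hmv⟩ := h
  have hζ' : IsPrimitiveRoot (algebraMap K W ζ) d := hζ.map_of_injective (algebraMap K W).injective
  set C := algebraMap K W c with hC
  set φ := levHom d W c b (l + 1) with hφ
  have hfin : Finite (Lev d W c b (l + 1)) := Lev_finite hp0 c b (l + 1)
  have hP : IsPGroup p φ.range := isPGroup_range hp hζ (l + 1)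
  -- the normal subgroup
  let N : Subgroup φ.range :=
    { carrier := {q | ∀ z, uf d C (q.1 z).1 = uf d C z.1}
      one_mem' := fun z => rfl
      mul_mem' := by
        intro q q' hq hq' z
        have h1 := hq (q'.1 z)
        rw [hq' z] at h1
        exact h1
      inv_mem' := by
        intro q hq z
        have h1 := hq (q.1⁻¹ z)
        have h2 : q.1 (q.1⁻¹ z) = z := Equiv.apply_symm_apply _ _
        rw [h2] at h1
        exact h1.symm }
  have hN : N.Normal := by
    constructor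
    rintro q hq ⟨r, g, rfl⟩ z
    set w : Lev d W c b (l + 1) := (levHom d W c b (l + 1) g)⁻¹ z with hw
    have h1 : levHom d W c b (l + 1) g w = z := Equiv.apply_symm_apply _ _
    have h2 := hq w
    show uf d C (g (q.1 w).1) = uf d C z.1
    rw [hC, ← aut_uf, ← hC, h2, hC, aut_uf, ← hC, ← h1]
    rfl
  have hNfin : Finite N := inferInstance
  have hcard : p ∣ Nat.card N := by
    have hNP : IsPGroup p N := hP.to_subgroup N
    rcases hNP.card_eq_or_dvd with h | h
    · exfalso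
      have hsub := (Nat.card_eq_one_iff_unique.1 h).1
      obtain ⟨z, hz, hne⟩ := hmv
      have h1 : (⟨⟨φ u, u, rfl⟩, fun w => by
          show uf d C (u w.1) = _
          rw [hC, ← aut_uf, hu _ (Lev_succ.1 w.2)]⟩ : N) = 1 := Subsingleton.elim _ _
      have h2 := congrArg (fun n : N => (n.1.1 ⟨z, hz⟩).1) h1
      exact hne h2
    · exact h
  have hfix1 : (1 : N) ∈ MulAction.fixedPoints (ConjAct φ.range) N := by
    intro g
    exact smul_one g
  have hPc : IsPGroup p (ConjAct φ.range) := hP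
  obtain ⟨n, hn, hn1⟩ := hPc.exists_fixed_point_of_prime_dvd_card_of_fixed_point N hcard hfix1
  obtain ⟨⟨q, g, hg⟩, hq⟩ := n
  subst hg
  have hgl : ∀ z ∈ Lev d W c b (l + 1), g (uf d C z) = uf d C z := by
    intro z hz
    rw [hC, aut_uf]
    exact hq ⟨z, hz⟩
  have hcen : ∀ k : W ≃ₐ[K] W, ∀ z ∈ Lev d W c b (l + 1), k (g z) = g (k z) := by
    intro k z hz
    have h1 := hn (ConjAct.toConjAct ⟨φ k, k, rfl⟩)
    have h2 := congrArg (fun n : N => n.1.1 ⟨k z, Lev_aut k hz⟩) h1
    have h3 := congrArg Subtype.val h2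
    change k (g (k⁻¹ (k z))) = g (k z) at h3
    rw [← AlgEquiv.mul_apply k⁻¹ k, inv_mul_cancel, AlgEquiv.one_apply] at h3
    exact h3
  -- `g` moves some node
  obtain ⟨z₀, hz₀, hgz₀⟩ : ∃ z ∈ Lev d W c b (l + 1), g z ≠ z := by
    by_contra hno
    push Not at hno
    apply hn1
    apply Subtype.ext
    apply Subtype.ext
    ext z
    exact (hno z.1 z.2).symm
  obtain ⟨i, hi, h0⟩ := (uf_eq_iff hp0 hζ).1 ((hgl z₀ hz₀).symm.trans (aut_uf d c g z₀))
  have hi0 : i ≠ 0 := by
    rintro rfl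
    apply hgz₀
    rw [h0, pow_zero, one_mul]
  have hgz : ∀ z ∈ Lev d W c b (l + 1), g z = algebraMap K W ζ ^ i * z := by
    intro z hz
    obtain ⟨k, hk⟩ := hT _ (Lev_succ.1 hz₀) _ (Lev_succ.1 hz)
    rw [aut_uf, eq_comm] at hk
    obtain ⟨j, hj, h2⟩ := (uf_eq_iff hp0 hζ).1 hk
    have h1 := hcen k z₀ hz₀
    rw [h0, h2, map_mul, map_mul, ← map_pow, ← map_pow, AlgEquiv.commutes, AlgEquiv.commutes, h2,
      map_pow, map_pow] at h1
    have h3 : (algebraMap K W ζ ^ j) ≠ 0 := pow_ne_zero _ (hζ'.ne_zero hp0)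
    have h4 : algebraMap K W ζ ^ j * (algebraMap K W ζ ^ i * z) = algebraMap K W ζ ^ j * g z := by
      rw [← h1]
      ring
    exact (mul_left_cancel₀ h3 h4).symm
  -- a suitable power
  obtain ⟨m, hm⟩ := exists_mul_modEq hp hr (i := i) (by
    intro h
    exact absurd (Nat.le_of_dvd (Nat.pos_of_ne_zero hi0) h) (by omega))
  have hpow : ∀ n, ∀ z ∈ Lev d W c b (l + 1), (g ^ n) z = algebraMap K W ζ ^ (i * n) * z := by
    intro n z hz
    induction n with
    | zero => simp
    | succ n ihn =>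
      rw [pow_succ, AlgEquiv.mul_apply, hgz z hz, map_mul, ihn, ← map_pow, AlgEquiv.commutes,
        map_pow, mul_add, mul_one, pow_add]
      ring
  refine ⟨g ^ m, fun y hy => ?_, fun z hz => ?_⟩
  · obtain ⟨z, hz⟩ := exists_pre hp0 C 1 y
    rw [Function.iterate_one] at hz
    have h2 : z ∈ Lev d W c b (l + 1) := by
      rw [Lev_succ, ← hC, hz]
      exact hy
    have h3 := hgl _ h2
    rw [hz] at h3
    exact fix_pow h3 m
  · rw [hpow m z hz, map_pow]
    congr 1
    have h5 : ∀ n : ℕ, algebraMap K W ζ ^ n = algebraMap K W ζ ^ (n % d) := by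
      intro n
      conv_rhs => rw [hζ'.eq_orderOf]
      exact (pow_mod_orderOf _ _).symm
    rw [h5 (i * m), h5 (p ^ (r - 1)), hm]

/-- **levels which are not full** above a flip of order `p` -/
theorem equiv_root {K W : Type u} [Field K] [Field W] [CharZero W] [Algebra K W] [IsAlgClosed W]
    {p e d : ℕ} (hp : p.Prime) (he : 0 < e) (hde : d = e * p) {ζ c b : K}
    (hζ : IsPrimitiveRoot ζ d) {l : ℕ} {h : W ≃ₐ[K] W}
    (hh1 : ∀ z ∈ Lev d W c b (l + 1), h z = algebraMap K W (ζ ^ e) * z)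
    (hfull : ¬ Full d e W c b (l + 1)) :
    ∃ E : W → W, ∀ x ∈ Lev d W c b l, E x ^ p = algebraMap K W ((uf d c)^[2] 0) - x ∧
      ∀ g : W ≃ₐ[K] W, g (E x) = E (g x) := by
  classical
  have hp0 := hp.ne_zero
  have hd0 : d ≠ 0 := by rw [hde]; exact mul_ne_zero (by omega) hp0
  have hdpos := Nat.pos_of_ne_zero hd0
  set C : W := algebraMap K W c with hC
  set ω : K := ζ ^ e with hω
  have hωp : IsPrimitiveRoot ω p := hζ.pow hdpos hde
  have hω' : IsPrimitiveRoot (algebraMap K W ω) p := hωp.map_of_injective (algebraMap K W).injective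
  have hζ' : IsPrimitiveRoot (algebraMap K W ζ) d := hζ.map_of_injective (algebraMap K W).injective
  have hζe : IsPrimitiveRoot (algebraMap K W ζ ^ p) e := hζ'.pow hdpos (by rw [hde, mul_comm])
  have htr : ∀ g : W ≃ₐ[K] W, (∀ y ∈ Lev d W c b (l + 1), g y = y) →
      ∀ z ∈ Lev d W c b (l + 2), g (z ^ e) = z ^ e := by
    intro g hg z hz
    by_contra hne
    exact hfull ⟨g, hg, z, hz, hne⟩
  -- the power `p` of `h`
  have hhp : ∀ z ∈ Lev d W c b (l + 2), (h ^ p) (z ^ e) = z ^ e := by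
    refine htr _ fun y hy => ?_
    rw [flip_pow hh1 p y hy, ← map_pow, hωp.pow_eq_one, map_one, one_mul]
  -- `h` commutes with everything on the powers
  have hcomm : ∀ g : W ≃ₐ[K] W, ∀ z ∈ Lev d W c b (l + 2), g (h (z ^ e)) = h (g (z ^ e)) := by
    intro g z hz
    have h3 := htr (h⁻¹ * (g⁻¹ * (h * g))) (fun y hy => by
      rw [AlgEquiv.mul_apply, AlgEquiv.mul_apply, AlgEquiv.mul_apply, hh1 _ (Lev_aut g hy), map_mul,
        AlgEquiv.commutes, ← AlgEquiv.mul_apply g⁻¹ g, inv_mul_cancel, AlgEquiv.one_apply]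
      exact inv_eq.2 (hh1 y hy).symm) z hz
    rw [AlgEquiv.mul_apply, AlgEquiv.mul_apply, AlgEquiv.mul_apply] at h3
    have h4 := inv_eq.1 h3
    exact (inv_eq.1 h4).symm
  have hcommp : ∀ g : W ≃ₐ[K] W, ∀ m : ℕ, ∀ z ∈ Lev d W c b (l + 2),
      g ((h ^ m) (z ^ e)) = (h ^ m) (g (z ^ e)) := by
    intro g m
    induction m with
    | zero => exact fun z _ => rfl
    | succ m ih =>
      intro z hz
      have h3 := ih _ (Lev_aut h hz)
      rw [map_pow g (h z) e, ← map_pow g, ← map_pow h z e] at h3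
      rw [pow_succ, AlgEquiv.mul_apply, AlgEquiv.mul_apply, h3, hcomm g z hz]
  -- the product over the powers of `h`
  set F : W → W := fun z => ∏ m ∈ range p, (h ^ m) (z ^ e) with hF
  have hFh : ∀ z ∈ Lev d W c b (l + 2), F (h z) = F z := by
    intro z hz
    have h3 : ∀ m, (h ^ m) (h z ^ e) = (h ^ (m + 1)) (z ^ e) := fun m => by
      rw [pow_succ h m, AlgEquiv.mul_apply, map_pow h z e]
    have h4 : F (h z) = ∏ m ∈ range p, (h ^ (m + 1)) (z ^ e) := prod_congr rfl fun m _ => h3 m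
    obtain ⟨q, rfl⟩ := Nat.exists_eq_succ_of_ne_zero hp0
    rw [h4]
    simp only [hF]
    rw [prod_range_succ, hhp z hz, prod_range_succ' (fun m => (h ^ m) (z ^ e)) q, pow_zero,
      AlgEquiv.one_apply]
  have hFha : ∀ a : ℕ, ∀ z ∈ Lev d W c b (l + 2), F ((h ^ a) z) = F z := by
    intro a
    induction a with
    | zero => exact fun z _ => rfl
    | succ a ih =>
      intro z hz
      rw [pow_succ, AlgEquiv.mul_apply, ih _ (Lev_aut h hz), hFh z hz]
  have hFζ : ∀ i : ℕ, ∀ z : W, F (algebraMap K W ζ ^ i * z) = F z := by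
    intro i z
    have h3 : ∀ m ∈ range p, (h ^ m) ((algebraMap K W ζ ^ i * z) ^ e) =
        (algebraMap K W ζ ^ i) ^ e * (h ^ m) (z ^ e) := fun m _ => by
      rw [mul_pow, map_mul, ← map_pow, ← map_pow (algebraMap K W), AlgEquiv.commutes]
    simp only [hF]
    rw [prod_congr rfl h3, prod_mul_distrib, prod_const, card_range, ← pow_mul, ← pow_mul, ← hde,
      mul_comm i d, pow_mul, hζ'.pow_eq_one, one_pow, one_mul]
  have hFg : ∀ g : W ≃ₐ[K] W, ∀ z ∈ Lev d W c b (l + 2), g (F z) = F (g z) := by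
    intro g z hz
    simp only [hF]
    rw [map_prod]
    refine prod_congr rfl fun m _ => ?_
    rw [hcommp g m z hz, map_pow g z e]
  -- a choice of preimages
  have hpre : ∀ x : W, ∃ z, uf d C z = x := fun x => by
    obtain ⟨z, hz⟩ := exists_pre hd0 C 1 x
    exact ⟨z, hz⟩
  choose s hs using hpre
  have hsL : ∀ n, ∀ x ∈ Lev d W c b n, s x ∈ Lev d W c b (n + 1) := fun n x hx =>
    Lev_succ.2 (by rw [← hC, hs x]; exact hx)
  set H : W → W := fun y => -F (s y) with hH
  have hFeq : ∀ z ∈ Lev d W c b (l + 2), ∀ z' ∈ Lev d W c b (l + 2), ∀ a : ℕ,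
      uf d C z' = algebraMap K W ω ^ a * uf d C z → F z' = F z := by
    intro z hz z' hz' a h3
    have hyL : uf d C z ∈ Lev d W c b (l + 1) := Lev_succ.1 hz
    rw [← flip_pow hh1 a _ hyL, hC, aut_uf, ← hC] at h3
    obtain ⟨i, hi, h6⟩ := (uf_eq_iff hd0 hζ).1 h3.symm
    rw [h6, hFζ, hFha a z hz]
  have hHω : ∀ y ∈ Lev d W c b (l + 1), ∀ a : ℕ, H (algebraMap K W ω ^ a * y) = H y := by
    intro y hy a
    have hay : algebraMap K W ω ^ a * y ∈ Lev d W c b (l + 1) := by
      rw [← flip_pow hh1 a y hy]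
      exact Lev_aut _ hy
    simp only [hH]
    rw [hFeq (s y) (hsL _ _ hy) (s (algebraMap K W ω ^ a * y)) (hsL _ _ hay) a (by rw [hs, hs])]
  have hHg : ∀ g : W ≃ₐ[K] W, ∀ y ∈ Lev d W c b (l + 1), g (H y) = H (g y) := by
    intro g y hy
    simp only [hH]
    rw [map_neg, hFg g _ (hsL _ _ hy)]
    rw [hFeq (s (g y)) (hsL _ _ (Lev_aut g hy)) (g (s y)) (Lev_aut g (hsL _ _ hy)) 0 (by
      rw [hs, pow_zero, one_mul, hC, ← aut_uf, ← hC, hs])]
  have hHp : ∀ y ∈ Lev d W c b (l + 1), H y ^ p = C ^ p - y ^ p := by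
    intro y hy
    set z := s y with hz
    have hz2 : (z ^ e) ^ p = y - C := by
      rw [← pow_mul, ← hde]
      have := hs y
      rw [uf] at this
      rw [← this]
      ring
    have h3 : ∀ m ∈ range p, ((h ^ m) (z ^ e)) ^ p = algebraMap K W ω ^ m * y - C := by
      intro m _
      rw [← map_pow, hz2, map_sub, flip_pow hh1 m y hy, hC, AlgEquiv.commutes]
    have h4 : (F z) ^ p = ∏ m ∈ range p, (algebraMap K W ω ^ m * y - C) := by
      simp only [hF]
      rw [← prod_pow]
      exact prod_congr rfl h3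
    have h5 := prod_zeta hp.pos hω' C y
    have h6 : ∏ m ∈ range p, (algebraMap K W ω ^ m * y - C) =
        (-1) ^ p * ∏ m ∈ range p, (C - algebraMap K W ω ^ m * y) := by
      have h7 : ∏ m ∈ range p, (algebraMap K W ω ^ m * y - C) =
          ∏ m ∈ range p, ((-1) * (C - algebraMap K W ω ^ m * y)) :=
        prod_congr rfl fun m _ => by ring
      rw [h7, prod_mul_distrib, prod_const, card_range]
    have h8 : ((-1 : W) ^ p) * (-1) ^ p = 1 := by
      rw [← mul_pow]
      simp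
    show (-F z) ^ p = _
    rw [neg_pow, h4, h6, ← mul_assoc, h8, one_mul, h5]
  -- the product over a period
  have hper : ∀ y ∈ Lev d W c b (l + 1), ∀ j : ℕ,
      ∏ i ∈ range e, H (algebraMap K W ζ ^ i * (algebraMap K W ζ ^ j * y)) =
        ∏ i ∈ range e, H (algebraMap K W ζ ^ i * y) := by
    intro y hy j
    induction j with
    | zero => rw [pow_zero, one_mul]
    | succ j ih =>
      rw [← ih]
      have h1 : ∀ i, H (algebraMap K W ζ ^ i * (algebraMap K W ζ ^ (j + 1) * y)) =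
          H (algebraMap K W ζ ^ (i + 1) * (algebraMap K W ζ ^ j * y)) := fun i => by
        congr 1
        rw [pow_succ, pow_succ]
        ring
      have hyj : ∀ j : ℕ, algebraMap K W ζ ^ j * y ∈ Lev d W c b (l + 1) := by
        intro j
        rw [← map_pow]
        refine Lev_zeta ?_ hy
        rw [← pow_mul, mul_comm, pow_mul, hζ.pow_eq_one, one_pow]
      obtain ⟨q, rfl⟩ := Nat.exists_eq_succ_of_ne_zero he.ne'
      rw [prod_congr rfl fun i _ => h1 i, prod_range_succ,
        prod_range_succ' (fun i => H (algebraMap K W ζ ^ i * (algebraMap K W ζ ^ j * y))) q, pow_zero,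
        one_mul]
      congr 1
      have h2 := hHω (algebraMap K W ζ ^ j * y) (hyj j) 1
      rw [pow_one, hω, map_pow] at h2
      exact h2
  -- the radical
  refine ⟨fun x => ∏ i ∈ range e, H (algebraMap K W ζ ^ i * s x), fun x hx => ⟨?_, fun g => ?_⟩⟩
  · show (∏ i ∈ range e, H (algebraMap K W ζ ^ i * s x)) ^ p = _
    have hyj : ∀ j : ℕ, algebraMap K W ζ ^ j * s x ∈ Lev d W c b (l + 1) := by
      intro j
      rw [← map_pow]
      refine Lev_zeta ?_ (hsL _ _ hx)
      rw [← pow_mul, mul_comm, pow_mul, hζ.pow_eq_one, one_pow]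
    rw [← prod_pow, prod_congr rfl fun i _ => hHp _ (hyj i)]
    have h1 : ∀ i ∈ range e, C ^ p - (algebraMap K W ζ ^ i * s x) ^ p =
        C ^ p - (algebraMap K W ζ ^ p) ^ i * (s x) ^ p := by
      intro i _
      rw [mul_pow, ← pow_mul, ← pow_mul, mul_comm i p]
    rw [prod_congr rfl h1, prod_zeta he hζe, ← pow_mul, ← pow_mul, mul_comm p e, ← hde]
    have h2 := hs x
    rw [uf] at h2
    have h3 : algebraMap K W ((uf d c)^[2] 0) = C ^ d + C := by
      show algebraMap K W (uf d c (uf d c 0)) = _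
      simp only [uf, map_add, map_pow, zero_pow hd0, zero_add, hC]
    rw [h3]
    linear_combination -h2
  · show g (∏ i ∈ range e, H (algebraMap K W ζ ^ i * s x)) = ∏ i ∈ range e, H (algebraMap K W ζ ^ i * s (g x))
    have hyj : ∀ j : ℕ, algebraMap K W ζ ^ j * s x ∈ Lev d W c b (l + 1) := by
      intro j
      rw [← map_pow]
      refine Lev_zeta ?_ (hsL _ _ hx)
      rw [← pow_mul, mul_comm, pow_mul, hζ.pow_eq_one, one_pow]
    rw [map_prod]
    have h1 : ∀ i ∈ range e, g (H (algebraMap K W ζ ^ i * s x)) = H (algebraMap K W ζ ^ i * g (s x)) := by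
      intro i _
      rw [hHg g _ (hyj i), map_mul, ← map_pow, AlgEquiv.commutes]
    rw [prod_congr rfl h1]
    -- `g (s x)` and `s (g x)` are siblings
    have h2 : uf d C (s (g x)) = uf d C (g (s x)) := by
      rw [hs, hC, ← aut_uf, ← hC, hs]
    obtain ⟨j, hj, h3⟩ := (uf_eq_iff hd0 hζ).1 h2
    rw [h3]
    exact hper _ (hsL _ _ (Lev_aut g hx)) j

/-- **all the high levels are full** -/
theorem full_eventually {K W : Type u} [Field K] [NumberField K] [Field W] [Algebra K W]
    [IsAlgClosed W] [Algebra.IsAlgebraic K W] {p r : ℕ} (hp : p.Prime) (hr : 0 < r) {ζ c b : K}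
    (hζ : IsPrimitiveRoot ζ (p ^ r)) (h0 : Function.Injective fun n : ℕ => (uf (p ^ r) c)^[n] 0)
    (hb : ∀ n, 1 ≤ n → (uf (p ^ r) c)^[n] 0 ≠ b) (hT : ∀ l, Tran (p ^ r) W c b l) :
    ∃ l0, ∀ l, l0 ≤ l → Full (p ^ r) (p ^ (r - 1)) W c b l := by
  classical
  have hcz : CharZero W := charZero_of_injective_algebraMap (algebraMap K W).injective
  set d := p ^ r with hd
  set e := p ^ (r - 1) with he
  have hde : d = e * p := by rw [hd, he, ← pow_succ]; congr 1; omega
  have he0 : 0 < e := Nat.pow_pos hp.pos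
  have hp0 : d ≠ 0 := pow_ne_zero _ hp.ne_zero
  have hd2 : 2 ≤ d := le_trans hp.two_le (Nat.le_self_pow hr.ne' p)
  have hb' : ∀ i y, (uf d (algebraMap K W c))^[i] y = algebraMap K W b → y ≠ algebraMap K W c :=
    fun i y hy => ne_of_Lev hp0 hb hy
  obtain ⟨k, hk⟩ := finite_eqrad (W := W) hp he0 hde h0 hb
  obtain ⟨B, hB⟩ := hk.bddAbove
  have hstep : ∀ l, k + B ≤ l → Nontriv d W c b l → Full d e W c b (l + 1) := by
    intro l hl hn
    by_contra hfull
    obtain ⟨h, -, hh1⟩ := flip_of_move hp hr hζ (hT l) hn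
    obtain ⟨E, hE⟩ := equiv_root hp he0 hde hζ hh1 hfull
    have h1 : EqRad p d W c b k ((uf d c)^[l - k + 1] 0)
        (fun z => ∏ x ∈ pre d (algebraMap K W c) (l - k) z, E x) := by
      intro z hz
      have hLev : ∀ x ∈ pre d (algebraMap K W c) (l - k) z, x ∈ Lev d W c b l := by
        intro x hx
        rw [mem_pre hp0] at hx
        have h3 := Function.iterate_add_apply (uf d (algebraMap K W c)) k (l - k) x
        rw [Nat.add_sub_cancel' (by omega : k ≤ l)] at h3
        rw [mem_Lev, h3, hx, hz]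
      constructor
      · simp only []
        rw [← prod_pow, prod_congr rfl fun x hx => (hE x (hLev x hx)).1,
          prod_sub hp0 (l - k) (fun i _ y hy => hb' (k + i) y (by
            rw [Function.iterate_add_apply, hy, hz])), uf_map, uf_map, ← Function.iterate_add_apply,
          map_zero]
        have h4 : l - k + 2 = (l - k + 1) + 1 := rfl
        rw [h4, Function.iterate_succ_apply']
        simp only [uf]
        ring
      · intro g
        simp only []
        rw [map_prod, ← aut_pre hp0 g]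
        exact prod_congr rfl fun x hx => (hE x (hLev x hx)).2 g
    have h2 := hB (⟨_, h1⟩ : l - k + 1 ∈ {n : ℕ | ∃ Y : W → W, EqRad p d W c b k ((uf d c)^[n] 0) Y})
    omega
  obtain ⟨l2, hl2, hn2⟩ := exists_nontriv (W := W) hd2 hb hT (k + B)
  refine ⟨l2 + 1, fun l hl => ?_⟩
  induction l, hl using Nat.le_induction with
  | base => exact hstep l2 hl2 hn2
  | succ l hl ih => exact hstep l (by omega) ih.nontriv

/-- a full level: transitivity on the children -/
theorem trans_of_full {W : Type*} [Field W] [Algebra K W] {p r : ℕ} (hp : p.Prime) (hr : 0 < r) {ζ c b : K}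
    (hζ : IsPrimitiveRoot ζ (p ^ r)) {l : ℕ} (hT : Tran (p ^ r) W c b l)
    (h : Full (p ^ r) (p ^ (r - 1)) W c b l) :
    ∀ z ∈ Lev (p ^ r) W c b (l + 1), ∃ g : W ≃ₐ[K] W, (∀ y ∈ Lev (p ^ r) W c b l, g y = y) ∧
      g z = algebraMap K W ζ * z := by
  set d := p ^ r with hd
  have hd0 : d ≠ 0 := pow_ne_zero _ hp.ne_zero
  obtain ⟨g, hg, z₀, hz₀, hne⟩ := h
  have hζ' : IsPrimitiveRoot (algebraMap K W ζ) d := hζ.map_of_injective (algebraMap K W).injective
  have h1 : uf d (algebraMap K W c) z₀ = uf d (algebraMap K W c) (g z₀) := by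
    rw [← aut_uf, hg _ (Lev_succ.1 hz₀)]
  obtain ⟨i, hi, h2⟩ := (uf_eq_iff hd0 hζ).1 h1
  -- `i` is prime to `p`
  have hcop : Nat.Coprime i d := by
    rw [hd]
    refine Nat.Coprime.pow_right _ ?_
    rw [Nat.coprime_comm, hp.coprime_iff_not_dvd]
    rintro ⟨j, rfl⟩
    apply hne
    rw [map_pow, h2, mul_pow, ← pow_mul]
    have h3 : p * j * p ^ (r - 1) = d * j := by
      have : d = p * p ^ (r - 1) := by rw [hd, ← pow_succ']; congr 1; omega
      rw [this]
      ring
    rw [h3, pow_mul, hζ'.pow_eq_one, one_pow, one_mul]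
  intro z hz
  obtain ⟨k, hk⟩ := hT _ (Lev_succ.1 hz₀) _ (Lev_succ.1 hz)
  rw [aut_uf, eq_comm] at hk
  obtain ⟨j, hj, h4⟩ := (uf_eq_iff hd0 hζ).1 hk
  -- the conjugate of `g`
  have hζj : (algebraMap K W ζ ^ j) ≠ 0 := pow_ne_zero _ (hζ'.ne_zero hd0)
  have hkz : (k * g * k⁻¹) z = algebraMap K W ζ ^ i * z := by
    have h5 : z = algebraMap K W (ζ ^ j)⁻¹ * k z₀ := by
      rw [h4, map_inv₀, map_pow, inv_mul_cancel_left₀ hζj]
    have h6 : k⁻¹ z = algebraMap K W (ζ ^ j)⁻¹ * z₀ := by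
      refine inv_eq.2 ?_
      rw [map_mul, AlgEquiv.commutes]
      exact h5
    rw [AlgEquiv.mul_apply, AlgEquiv.mul_apply, h6, map_mul, AlgEquiv.commutes, h2, map_mul, map_mul,
      AlgEquiv.commutes, ← map_pow, AlgEquiv.commutes]
    conv_rhs => rw [h5]
    ring
  have hkl : ∀ y ∈ Lev d W c b l, (k * g * k⁻¹) y = y := by
    intro y hy
    rw [AlgEquiv.mul_apply, AlgEquiv.mul_apply, hg _ (Lev_aut k⁻¹ hy), ← AlgEquiv.mul_apply, mul_inv_cancel,
      AlgEquiv.one_apply]
  have hpow : ∀ n : ℕ, ((k * g * k⁻¹) ^ n) z = algebraMap K W ζ ^ (i * n) * z := by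
    intro n
    induction n with
    | zero => simp
    | succ n ihn =>
      rw [pow_succ, AlgEquiv.mul_apply, hkz, map_mul, ihn, ← map_pow, AlgEquiv.commutes,
        map_pow, mul_add, mul_one, pow_add]
      ring
  have hd1 : 1 < d := lt_of_lt_of_le hp.one_lt (Nat.le_self_pow hr.ne' p)
  obtain ⟨m, -, hm⟩ := Nat.exists_mul_mod_eq_one_of_coprime hcop hd1
  refine ⟨(k * g * k⁻¹) ^ m, fun y hy => fix_pow (hkl y hy) m, ?_⟩
  rw [hpow]
  congr 1
  have h5 : algebraMap K W ζ ^ (i * m % d) = algebraMap K W ζ ^ (i * m) := by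
    conv_lhs => rw [hζ'.eq_orderOf]
    exact pow_mod_orderOf _ _
  rw [← h5, hm, pow_one]

end Pool.Agent.ORB.UE
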