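import Pool.Agent.ORB.UOddC
import Pool.Agent.ORB.UPlace

/-!
ORB, Theorem V for `x ^ p + c`: the extension property at a prime over `p` where `c` is integral,
without any condition on the orbit of `0`.
-/

set_option autoImplicit false

namespace Pool.Agent.ORB.UOdd

open UQ NumberField IsDedekindDomain IntermediateField

universe u

/-- **flips at a prime over `p`**, `p` odd -/
theorem flips_odd {K W : Type u} [Field K] [NumberField K] [Field W] [Algebra K W] [IsAlgClosed W]
    [Algebra.IsAlgebraic K W] {p : ℕ} (hp : p.Prime) (hp2 : p ≠ 2) {ζ c b : K}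
    (hζ : IsPrimitiveRoot ζ p) (hb : ∀ n, 1 ≤ n → (uf p c)^[n] 0 ≠ b) (hT : ∀ l, Tran p W c b l)
    (Q : HeightOneSpectrum (𝓞 K)) (qp : Q.valuation K (p : K) < 1) (qc : Q.valuation K c ≤ 1)
    (qb : Q.valuation K (p : K) ^ p * max 1 (Q.valuation K b) ^ (p - 1)
      < Q.valuation K (b - c) ^ (p - 1)) :
    ∃ m, ∀ l, m ≤ l → FlipAt p ζ W c b l := by
  have hz : CharZero W := charZero_of_injective_algebraMap (algebraMap K W).injective
  have hp0 := hp.ne_zero
  have hp1 := hp.two_le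
  obtain ⟨A, hA⟩ := exists_ext_val (Ω := W) (Q.valuation K)
  set w := A.valuation with hw
  have wc : w (algebraMap K W c) ≤ 1 := (hA c).2 qc
  have wp : w (p : W) < 1 := by
    have h1 := (VQ.ext_lt_iff hA (p : K) 1).2 (by rw [map_one]; exact qp)
    rwa [map_one, map_one, map_natCast] at h1
  have wb : w (p : W) ^ p * max 1 (w (algebraMap K W b)) ^ (p - 1)
      < w (algebraMap K W b - algebraMap K W c) ^ (p - 1) := by
    rcases le_or_gt (Q.valuation K b) 1 with h | h
    · rw [max_eq_left h, one_pow, mul_one, ← map_pow, ← map_pow] at qb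
      rw [max_eq_left ((hA b).2 h), one_pow, mul_one, ← map_natCast (algebraMap K W), ← map_pow,
        ← map_pow, ← map_pow, ← map_sub, ← map_pow]
      exact (VQ.ext_lt_iff hA _ _).2 qb
    · rw [max_eq_right h.le, ← map_pow, ← map_pow, ← map_mul, ← map_pow] at qb
      have h1 : 1 < w (algebraMap K W b) := by
        by_contra h2
        exact absurd h (not_lt.2 ((hA b).1 (not_lt.1 h2)))
      rw [max_eq_right h1.le, ← map_natCast (algebraMap K W), ← map_sub, ← map_pow w, ← map_pow w,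
        ← map_pow w, ← map_mul w, ← map_pow, ← map_pow, ← map_mul, ← map_pow]
      exact (VQ.ext_lt_iff hA _ _).2 qb
  have hpp0 : Q.valuation K ((p : K) ^ p) ≠ 0 := by
    rw [Valuation.ne_zero_iff]
    exact pow_ne_zero _ (by exact_mod_cast hp0)
  -- the exponent
  set U : K := (b - c) ^ (p - 1) / (p : K) ^ p with hU
  have hv : 1 < Q.valuation K U := by
    rw [hU, map_div₀, one_lt_div₀ (zero_lt_iff.2 hpp0), map_pow, map_pow]
    refine lt_of_le_of_lt ?_ qb
    exact le_mul_of_one_le_right' (one_le_pow_of_one_le' (le_max_left _ _) _)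
  have hv0 : Q.valuation K U ≠ 0 := ne_of_gt (lt_trans zero_lt_one hv)
  set N : ℤ := WithZero.log (Q.valuation K U) with hN
  have hNv : Q.valuation K U = WithZero.exp N := (WithZero.exp_log hv0).symm
  have hN0 : 0 < N := by
    rw [hNv, ← WithZero.exp_zero, WithZero.exp_lt_exp] at hv
    exact hv
  obtain ⟨m, hm, hmn⟩ := exists_nontriv (W := W) hp1 hb hT (N.toNat + 1)
  refine ⟨m, fun l hl => ?_⟩
  induction l, hl using Nat.le_induction with
  | base => exact flip_of_nontriv hp hζ hb hT hmn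
  | succ l hl ih =>
    by_contra hno
    obtain ⟨l', rfl⟩ : ∃ l', l = l' + 1 := ⟨l - 1, by omega⟩
    obtain ⟨a, ha⟩ := trace_core hp hp2 w wp hζ VQ.fixed_of_closure hb wc wb hT ih
      (fun h => hno (flip_of_nontriv hp hζ hb hT h))
    have h1 : w (algebraMap K W ((a ^ (p - 1) / p) ^ p ^ (l' + 2))) = w (algebraMap K W U) := by
      rw [hU, map_pow, map_div₀ (algebraMap K W), map_div₀ (algebraMap K W), map_pow (algebraMap K W),
        map_pow (algebraMap K W), map_pow (algebraMap K W), map_sub, map_natCast, map_pow w]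
      exact ha
    rw [VQ.ext_eq_iff hA, map_pow, hNv] at h1
    have ha0 : Q.valuation K (a ^ (p - 1) / p) ≠ 0 := by
      intro h0
      rw [h0, zero_pow (pow_ne_zero _ hp0)] at h1
      exact WithZero.exp_ne_zero h1.symm
    rw [← WithZero.exp_log ha0, ← WithZero.exp_nsmul, WithZero.exp_inj] at h1
    set B : ℤ := WithZero.log (Q.valuation K (a ^ (p - 1) / p)) with hB
    rw [nsmul_eq_mul] at h1
    have h2 : (0 : ℤ) < ((p ^ (l' + 2) : ℕ) : ℤ) := by
      exact_mod_cast Nat.pow_pos hp.pos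
    have h3 : 0 < B := by
      by_contra h4
      rw [not_lt] at h4
      nlinarith
    have h4 : ((p ^ (l' + 2) : ℕ) : ℤ) ≤ N := by nlinarith
    have h5 : l' + 2 < p ^ (l' + 2) := Nat.lt_pow_self hp1
    have h6 : N.toNat < p ^ (l' + 2) := by omega
    omega

section dyn

variable {F Γ : Type*} [Field F] [LinearOrderedCommGroupWithZero Γ] {v : Valuation F Γ} {c : F}

theorem iter_le_one {p : ℕ} (hc : v c ≤ 1) {a : F} (ha : v a ≤ 1) (n : ℕ) :
    v ((uf p c)^[n] a) ≤ 1 := by
  induction n with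
  | zero => exact ha
  | succ n ih =>
    rw [Function.iterate_succ_apply']
    refine (v.map_add _ _).trans (max_le ?_ hc)
    rw [map_pow]
    exact pow_le_one' ih p

/-- contraction -/
theorem contract {p : ℕ} (hp : p.Prime) (hvp : v (p : F) ≤ 1) (hc : v c ≤ 1) {a a' : F}
    (ha' : v a' ≤ 1) (h : v (a - a') ≤ v (p : F)) (n : ℕ) :
    v ((uf p c)^[n] a - (uf p c)^[n] a') ≤ v (a - a') * v (p : F) ^ n := by
  induction n with
  | zero =>
    rw [pow_zero, mul_one]
    exact le_rfl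
  | succ n ih =>
    rw [Function.iterate_succ_apply', Function.iterate_succ_apply', pow_succ, ← mul_assoc]
    set y := (uf p c)^[n] a with hy
    set y' := (uf p c)^[n] a' with hy'
    have hy1 : v y' ≤ 1 := iter_le_one hc ha' n
    have hδ1 : v (y - y') ≤ v (p : F) :=
      (ih.trans (mul_le_of_le_one_right' (pow_le_one' hvp n))).trans h
    have h1 := UOdd.v_add_pow v hp hy1 (hδ1.trans hvp)
    have h2 : y' + (y - y') = y := by ring
    rw [h2] at h1
    have h3 : uf p c y - uf p c y' = (y - y') ^ p + (y ^ p - (y' ^ p + (y - y') ^ p)) := by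
      simp only [uf]
      ring
    rw [h3]
    refine (v.map_add _ _).trans (max_le ?_ ?_)
    · rw [map_pow]
      have h4 : v (y - y') ^ p = v (y - y') * v (y - y') ^ (p - 1) := by
        rw [← pow_succ']
        congr 1
        have := hp.pos
        omega
      rw [h4]
      refine mul_le_mul' ih ?_
      obtain ⟨q, hq⟩ : ∃ q, p - 1 = q + 1 := ⟨p - 2, by have := hp.two_le; omega⟩
      rw [hq, pow_succ]
      exact (mul_le_of_le_one_left' (pow_le_one' (hδ1.trans hvp) q)).trans hδ1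
    · refine h1.trans ?_
      rw [mul_comm]
      refine mul_le_mul' ?_ le_rfl
      rw [one_pow, mul_one]
      exact (mul_le_of_le_one_left' hy1).trans ih

end dyn

section far

variable {K : Type*} [Field K] [NumberField K]

/-- a point outside of a finite orbit is not too close to it -/
theorem far {p : ℕ} {c b : K} (Q : HeightOneSpectrum (𝓞 K))
    (qp : Q.valuation K (p : K) < 1) (h0 : ¬ Function.Injective fun n : ℕ => (uf p c)^[n] 0)
    (hw : Function.Injective fun n : ℕ => (uf p c)^[n] b) :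
    ∃ k₁ : ℕ, ∀ n, k₁ ≤ n →
      Q.valuation K (p : K) ^ n < Q.valuation K (b - (uf p c)^[n] 0) := by
  classical
  have hfin := UQ.orbit_finite (uf p c) h0
  have hne : ∀ x ∈ {x | ∃ n : ℕ, (uf p c)^[n] 0 = x}, b - x ≠ 0 := by
    rintro x ⟨n, rfl⟩ h
    have h1 : b = (uf p c)^[n] 0 := sub_eq_zero.1 h
    apply h0
    intro i j hij
    have h2 : (uf p c)^[i] ((uf p c)^[n] 0) = (uf p c)^[j] ((uf p c)^[n] 0) := by
      rw [← Function.iterate_add_apply, ← Function.iterate_add_apply, add_comm i n, add_comm j n,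
        Function.iterate_add_apply, Function.iterate_add_apply]
      exact congrArg _ hij
    rw [← h1] at h2
    exact hw h2
  have hex : ∀ x ∈ {x | ∃ n : ℕ, (uf p c)^[n] 0 = x}, ∃ N : ℕ, ∀ n, N ≤ n →
      Q.valuation K (p : K) ^ n < Q.valuation K (b - x) := by
    intro x hx
    have h1 : Q.valuation K (b - x) ≠ 0 := (Valuation.ne_zero_iff _).2 (hne x hx)
    obtain ⟨N, hN⟩ := exists_pow_lt₀ qp (Units.mk0 _ h1)
    refine ⟨N, fun n hn => lt_of_le_of_lt ?_ hN⟩
    exact pow_le_pow_right_of_le_one' qp.le hn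
  choose! N hN using hex
  refine ⟨hfin.toFinset.sup N, fun n hn => ?_⟩
  refine hN _ ⟨n, rfl⟩ n (le_trans ?_ hn)
  exact Finset.le_sup (f := N) (hfin.mem_toFinset.2 ⟨n, rfl⟩)

end far

section node

variable {K : Type*} [Field K] [NumberField K] {W : Type u} [Field W] [Algebra K W]
  [Algebra.IsAlgebraic K W]

omit [Algebra.IsAlgebraic K W] in
/-- the local condition of `flips_odd` holds at all nodes of the high levels -/
theorem node_odd {p : ℕ} (hp : p.Prime) {c b : K} (Q : HeightOneSpectrum (𝓞 K))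
    (qp : Q.valuation K (p : K) < 1) (qc : Q.valuation K c ≤ 1)
    (h0 : ¬ Function.Injective fun n : ℕ => (uf p c)^[n] 0)
    (hw : Function.Injective fun n : ℕ => (uf p c)^[n] b) :
    ∃ k₁ : ℕ, ∀ k, k₁ ≤ k → ∀ r ∈ Lev p W c b k, ∀ [NumberField K⟮r⟯],
      ∃ P : HeightOneSpectrum (𝓞 K⟮r⟯),
        P.valuation K⟮r⟯ (p : K⟮r⟯) < 1 ∧
        P.valuation K⟮r⟯ (algebraMap K K⟮r⟯ c) ≤ 1 ∧
        P.valuation K⟮r⟯ (p : K⟮r⟯) ^ p * max 1 (P.valuation K⟮r⟯ (AdjoinSimple.gen K r)) ^ (p - 1)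
          < P.valuation K⟮r⟯ (AdjoinSimple.gen K r - algebraMap K K⟮r⟯ c) ^ (p - 1) := by
  have hp0 := hp.ne_zero
  have hp1 := hp.two_le
  obtain ⟨k₁, hk₁⟩ := far Q qp h0 hw
  refine ⟨k₁, fun k hk r hr hNF => ?_⟩
  obtain ⟨⟨P', hP1, hP2⟩⟩ := Q.asIdeal.nonempty_primesOver (S := 𝓞 K⟮r⟯)
  have hP0 : P' ≠ ⊥ := Ideal.ne_bot_of_mem_primesOver Q.ne_bot ⟨hP1, hP2⟩
  let P : HeightOneSpectrum (𝓞 K⟮r⟯) := ⟨P', hP1, hP0⟩
  have hlo : P.asIdeal.LiesOver Q.asIdeal := hP2
  have hA : ∀ x : K, P.valuation K⟮r⟯ (algebraMap K K⟮r⟯ x) ≤ 1 ↔ Q.valuation K x ≤ 1 :=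
    val_le_iff Q P
  set cF := algebraMap K K⟮r⟯ c with hcF
  set rF := AdjoinSimple.gen K r with hrF
  have hrF' : (uf p cF)^[k] rF = algebraMap K K⟮r⟯ b := by
    apply (algebraMap K⟮r⟯ W).injective
    have e3 : algebraMap K⟮r⟯ W cF = algebraMap K W c :=
      (IsScalarTower.algebraMap_apply K K⟮r⟯ W c).symm
    have e4 : algebraMap K⟮r⟯ W (algebraMap K K⟮r⟯ b) = algebraMap K W b :=
      (IsScalarTower.algebraMap_apply K K⟮r⟯ W b).symm
    rw [uf_map, e3, e4, hrF, AdjoinSimple.algebraMap_gen]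
    exact hr
  have pc : P.valuation K⟮r⟯ cF ≤ 1 := (hA c).2 qc
  have pp : P.valuation K⟮r⟯ (p : K⟮r⟯) < 1 := by
    have h1 := (VQ.ext_lt_iff hA (p : K) 1).2 (by rw [map_one]; exact qp)
    rwa [map_natCast (algebraMap K K⟮r⟯), map_one, map_one] at h1
  refine ⟨P, pp, pc, ?_⟩
  have hpp : P.valuation K⟮r⟯ (p : K⟮r⟯) ^ p < 1 := pow_lt_one₀ zero_le pp hp0
  rcases le_or_gt (P.valuation K⟮r⟯ rF) 1 with h | h
  · rw [max_eq_left h, one_pow, mul_one]
    by_contra hle
    rw [not_lt] at hle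
    have hle2 : P.valuation K⟮r⟯ (rF - cF) ≤ P.valuation K⟮r⟯ (p : K⟮r⟯) := by
      apply le_of_pow_le' (p := p - 1) (by omega)
      refine hle.trans ?_
      exact pow_le_pow_right_of_le_one' pp.le (by omega)
    have h1 := contract hp pp.le pc pc hle2 k
    have h2 : (uf p cF)^[k] rF - (uf p cF)^[k] cF
        = algebraMap K K⟮r⟯ (b - (uf p c)^[k + 1] 0) := by
      rw [hrF', map_sub, uf_map, map_zero, Function.iterate_succ_apply]
      congr 2
      simp [uf, hcF, hp0]
    rw [h2] at h1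
    have h3 := h1.trans (mul_le_mul' hle2 le_rfl)
    rw [← pow_succ', ← map_pow, ← map_natCast (algebraMap K K⟮r⟯), ← map_pow] at h3
    have h4 := (VQ.ext_le_iff hA _ _).1 h3
    have h5 := hk₁ (k + 1) (by omega)
    rw [map_pow] at h4
    exact absurd h5 (not_lt.2 h4)
  · rw [max_eq_right h.le, Valuation.map_sub_eq_of_lt_left _ (lt_of_le_of_lt pc h)]
    have h1 : 0 < P.valuation K⟮r⟯ rF ^ (p - 1) :=
      pow_pos (lt_trans zero_lt_one h) _
    exact mul_lt_of_lt_one_left h1 hpp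

end node

section main

/-- **The extension property at a prime over `p`**, `p` odd: every number field which contains the
`p`-th roots of unity, `c` different from `0` and integral at one prime over `p`, `b` not periodic;
no condition on the orbit of `0`. -/
theorem extP_wildX {K W : Type u} [Field K] [NumberField K] [Field W] [Algebra K W]
    [IsAlgClosed W] [Algebra.IsAlgebraic K W] {p : ℕ} (hp : p.Prime) (hp2 : p ≠ 2) {ζ c b : K}
    (hζ : IsPrimitiveRoot ζ p) (hc0 : c ≠ 0) (hper : b ∉ Function.periodicPts (uf p c))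
    (v : HeightOneSpectrum (𝓞 K)) (hvp : v.valuation K (p : K) < 1) (hvc : v.valuation K c ≤ 1) :
    ExtP p W c b := by
  by_cases h0 : Function.Injective fun n : ℕ => (uf p c)^[n] 0
  · exact extP_place hp hζ h0 hper v (Or.inl ⟨hvp, hvc⟩)
  by_cases hw : Function.Injective fun n : ℕ => (uf p c)^[n] b
  swap
  · exact extP_preper hp.ne_zero hw hper
  obtain ⟨k₀, hk₀⟩ := orbits_place (W := W) hp v (Or.inl ⟨hvp, hvc⟩) hw
  obtain ⟨k₁, hk₁⟩ := nodes_avoid (W := W) hw
  obtain ⟨k₂, hk₂⟩ := node_odd (W := W) hp v hvp hvc h0 hw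
  have e0 : k₀ ≤ max k₀ (max k₁ k₂) := le_max_left _ _
  have e1 : k₁ ≤ max k₀ (max k₁ k₂) := (le_max_left _ _).trans (le_max_right _ _)
  have e2 : k₂ ≤ max k₀ (max k₁ k₂) := (le_max_right _ _).trans (le_max_right _ _)
  refine ExtP_of_flipsX hp.two_le hζ hc0 (fun h => absurd h hp2) hw (max k₀ (max k₁ k₂))
    (hk₁ _ e1) fun r hr => ?_
  have hnf : NumberField K⟮r⟯ := numberField_adjoin r
  have halg : Algebra.IsAlgebraic K⟮r⟯ W := Algebra.IsAlgebraic.tower_top (K := K) K⟮r⟯
  obtain ⟨P, hP0, hP1, hP2⟩ := hk₂ _ e2 r hr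
  exact flips_odd hp hp2 (hζ.map_of_injective (algebraMap K K⟮r⟯).injective)
    (node_avoid (hk₁ _ e1 r hr)) (node_tran hk₀ e0 hr) P hP0 hP1 hP2

/-- **Theorem V, local form, prime degree**, no condition on the orbit of `0`. -/
theorem extP_placeX {K W : Type u} [Field K] [NumberField K] [Field W] [Algebra K W]
    [IsAlgClosed W] [Algebra.IsAlgebraic K W] {p : ℕ} (hp : p.Prime) {ζ c b : K}
    (hζ : IsPrimitiveRoot ζ p) (hc0 : c ≠ 0) (hc2 : p = 2 → c ≠ -2)
    (hper : b ∉ Function.periodicPts (uf p c)) (v : HeightOneSpectrum (𝓞 K))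
    (hv : (v.valuation K (p : K) < 1 ∧ v.valuation K c ≤ 1) ∨
      (v.valuation K c ≤ 1 ∧ 1 < v.valuation K b) ∨
      (v.valuation K c < 1 ∧ v.valuation K b < 1)) : ExtP p W c b := by
  have hp1 : v.valuation K (p : K) ≤ 1 := v_nat_le _ p
  have hwild : v.valuation K (p : K) < 1 → v.valuation K c ≤ 1 → ExtP p W c b := by
    intro h1 h2
    by_cases hp2 : p = 2
    · subst hp2
      exact extP_two hc0 (hc2 rfl) hper v (by exact_mod_cast h1) h2
    · exact extP_wildX hp hp2 hζ hc0 hper v h1 h2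
  rcases hv with ⟨h1, h2⟩ | hv
  · exact hwild h1 h2
  · rcases hp1.lt_or_eq with h1 | h1
    · refine hwild h1 ?_
      rcases hv with h2 | h2
      · exact h2.1
      · exact h2.1.le
    · exact extP_tameX hp.two_le hζ hc0 hc2 hper v h1 hv

end main

end Pool.Agent.ORB.UOdd
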