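import Pool.Agent.ORB.NFinalU
import Pool.Agent.ORB.UOdd

/-!
ORB, Theorem V for unicritical maps, final form: no condition on the orbit of `0`, only the powers and the
Chebyshev polynomials are excluded.
-/

set_option autoImplicit false

namespace Pool.Agent.ORB

open NumberField IsDedekindDomain Polynomial

universe u

/-- the condition on `x ^ d + c` and the target `b`: the map is not a power and not the Chebyshev polynomial
`x ^ 2 - 2`; and `d` is a prime and there is a prime of the field which lies over `d` and at which `c` is integral,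
or at which `c` is integral and `b` is not, or which divides `c` and `b`; or `d` is arbitrary and there is a prime
not dividing `d` with one of the last two properties -/
def UniCondX (L : Type u) [Field L] [NumberField L] (d : ℕ) (c b : L) : Prop :=
  c ≠ 0 ∧ (d = 2 → c ≠ -2) ∧ ((d.Prime ∧ LocCond L d c b) ∨ (2 ≤ d ∧ TameCond L d c b))

theorem uniCondX_good : GoodCond.{u} (fun L _ _ d c b => UniCondX L d c b) := by
  refine ⟨?_, ?_⟩
  · intro L L' _ _ _ _ _ d c b h
    obtain ⟨hc0, hc2, h⟩ := h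
    refine ⟨fun h0 => hc0 ((map_eq_zero _).1 h0), fun hd h0 => hc2 hd ?_, ?_⟩
    · apply (algebraMap L L').injective
      rw [h0, map_neg, map_ofNat]
    · obtain ⟨hd, h⟩ | ⟨hd, h⟩ := h
      · exact Or.inl ⟨hd, locCond_ext h⟩
      · exact Or.inr ⟨hd, tameCond_ext h⟩
  · intro L W _ _ _ _ _ _ d ζ c b _ hζ hw h
    have hper : b ∉ Function.periodicPts (uf d c) := by
      rintro ⟨m, hm, h1⟩
      have h2 : (fun n : ℕ => (uf d c)^[n] b) m = (fun n : ℕ => (uf d c)^[n] b) 0 := h1
      have := hw h2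
      omega
    obtain ⟨hc0, hc2, ⟨hd, v, hv⟩ | ⟨hd, v, hvd, hv⟩⟩ := h
    · exact UOdd.extP_placeX hd hζ hc0 hc2 hper v hv
    · exact UQ.extP_tameX hd hζ hc0 hc2 hper v hvd hv

/-- **Main theorem**, without any condition on the orbits of the critical points of the unicritical maps. -/
theorem thmBUX_final {K : Type u} [Field K] [NumberField K] {ι : Type} [Finite ι] (f : ι → RatFunc K)
    (hf : ∀ i, 2 ≤ rdeg (f i)) :
    ∃ S : Set (HeightOneSpectrum (𝓞 K)), S.Finite ∧ ∀ (α β : ι → OnePoint K)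
      (_ : ∀ i n, (ract (RingHom.id K) (f i))^[n] (α i) ≠ β i) (Q A : Set ι)
      (_ : ∀ i ∈ Q, (¬ Function.Injective fun n : ℕ => (ract (RingHom.id K) (f i))^[n] (α i)) ∨
        (¬ Function.Injective fun n : ℕ => (ract (RingHom.id K) (f i))^[n] (β i)) ∨
        UniConj (fun L _ _ d c b => UniCondX L d c b) (f i) (β i))
      (_ : ∀ i ∈ A, ∃ (b : K) (v : HeightOneSpectrum (𝓞 K)), v ∉ S ∧ β i = (b : OnePoint K) ∧
        1 < v.valuation K b)
      (_ : A.Nonempty → ∀ i ∉ Q, ∃ p : K[X], f i = algebraMap K[X] (RatFunc K) p)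
      (J : Type) (_ : Finite J) (blk : ι → J) (E : J → ℕ)
      (_ : ∀ j j', j ≠ j' → Nat.Coprime (E j) (E j'))
      (_ : ∀ i, i ∉ Q → i ∉ A → RHasExp (E (blk i)) (f i))
      (_ : ∀ j, OrbitBlock (fun i : {i // (i ∉ Q ∧ i ∉ A) ∧ blk i = j} => f i.1)
          (fun i : {i // (i ∉ Q ∧ i ∉ A) ∧ blk i = j} => β i.1) ∨
        PrimeBlock (fun i : {i // (i ∉ Q ∧ i ∉ A) ∧ blk i = j} => f i.1)
          (fun i : {i // (i ∉ Q ∧ i ∉ A) ∧ blk i = j} => β i.1) ∨
        ∀ i, i ∉ Q → i ∉ A → blk i = j → TorusMap (algebraMap K (AlgebraicClosure K)) (f i)),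
      PosDensity (RAvoidSet f α β) :=
  thmBUT uniCondX_good f hf

end Pool.Agent.ORB
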