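import Pool.Agent.ORB.UMin

/-!
ORB, Theorem V for `x ^ p + c`, row U6a: flips from nontrivial levels.
-/

set_option autoImplicit false

namespace Pool.Agent.ORB.UQ

open Finset

section hom
variable {K W : Type*} [Field K] [Field W] [Algebra K W]

/-- `g` to the power `d ^ l` is trivial on the level `l` -/
theorem pow_fix {d : ℕ} (hd : d ≠ 0) {ζ c b : K} (hζ : IsPrimitiveRoot ζ d) (g : W ≃ₐ[K] W)
    (l : ℕ) : ∀ z ∈ Lev d W c b l, (g ^ d ^ l) z = z := by
  induction l with
  | zero =>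
    intro z hz
    rw [mem_Lev_zero.1 hz, AlgEquiv.commutes]
  | succ l ih =>
    intro z hz
    have h1 := ih _ (Lev_succ.1 hz)
    rw [aut_uf, eq_comm] at h1
    obtain ⟨i, hi, h2⟩ := (uf_eq_iff hd hζ).1 h1
    have h3 : ∀ n, ((g ^ d ^ l) ^ n) z = algebraMap K W ζ ^ (i * n) * z := by
      intro n
      induction n with
      | zero => simp
      | succ n ihn =>
        rw [pow_succ, AlgEquiv.mul_apply, h2, map_mul, ihn, ← map_pow, AlgEquiv.commutes,
          map_pow, mul_add, mul_one, pow_add]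
        ring
    rw [pow_succ, pow_mul, h3, mul_comm i d, pow_mul, ← map_pow, hζ.pow_eq_one, map_one, one_pow,
      one_mul]

/-- the action of the group on a level -/
def levHom (d : ℕ) (W : Type*) [Field W] [Algebra K W] (c b : K) (l : ℕ) :
    (W ≃ₐ[K] W) →* Equiv.Perm (Lev d W c b l) where
  toFun g :=
    { toFun := fun z => ⟨g z, Lev_aut g z.2⟩
      invFun := fun z => ⟨g⁻¹ z, Lev_aut g⁻¹ z.2⟩
      left_inv := fun z => Subtype.ext (by
        show g⁻¹ (g z.1) = z.1
        rw [← AlgEquiv.mul_apply, inv_mul_cancel, AlgEquiv.one_apply])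
      right_inv := fun z => Subtype.ext (by
        show g (g⁻¹ z.1) = z.1
        rw [← AlgEquiv.mul_apply, mul_inv_cancel, AlgEquiv.one_apply]) }
  map_one' := by
    ext z
    rfl
  map_mul' g h := by
    ext z
    rfl

theorem levHom_apply {d : ℕ} {c b : K} {l : ℕ} (g : W ≃ₐ[K] W) (z : Lev d W c b l) :
    ((levHom d W c b l g z : Lev d W c b l) : W) = g z := rfl

theorem isPGroup_range {p : ℕ} (hp : p ≠ 0) {ζ c b : K} (hζ : IsPrimitiveRoot ζ p) (l : ℕ) :
    IsPGroup p (levHom p W c b l).range := by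
  rintro ⟨q, g, rfl⟩
  refine ⟨l, ?_⟩
  apply Subtype.ext
  show levHom p W c b l g ^ p ^ l = 1
  rw [← map_pow]
  ext z
  exact pow_fix hp hζ g l z.1 z.2

end hom

/-- **U6a**: a flip from an automorphism which fixes the level and moves something above it -/
theorem flip_of_move {K W : Type*} [Field K] [Field W] [Algebra K W] [IsAlgClosed W]
    {p : ℕ} (hp : p.Prime) {ζ c b : K} (hζ : IsPrimitiveRoot ζ p) {l : ℕ}
    (hT : Tran p W c b l) (h : Nontriv p W c b l) : FlipAt p ζ W c b l := by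
  classical
  have hp0 := hp.ne_zero
  have : Fact p.Prime := ⟨hp⟩
  obtain ⟨u, hu, hmv⟩ := h
  have hζ' : IsPrimitiveRoot (algebraMap K W ζ) p := hζ.map_of_injective (algebraMap K W).injective
  set C := algebraMap K W c with hC
  set φ := levHom p W c b (l + 1) with hφ
  have hfin : Finite (Lev p W c b (l + 1)) := Lev_finite hp0 c b (l + 1)
  have hP : IsPGroup p φ.range := isPGroup_range hp0 hζ (l + 1)
  -- the normal subgroup
  let N : Subgroup φ.range :=
    { carrier := {q | ∀ z, uf p C (q.1 z).1 = uf p C z.1}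
      one_mem' := fun z => rfl
      mul_mem' := by
        intro q q' hq hq' z
        have h1 := hq (q'.1 z)
        rw [hq' z] at h1
        exact h1
      inv_mem' := by
        intro q hq z
        have h1 := hq (q.1⁻¹ z)
        have h2 : q.1 (q.1⁻¹ z) = z := Equiv.apply_symm_apply _ _
        rw [h2] at h1
        exact h1.symm }
  have hN : N.Normal := by
    constructor
    rintro q hq ⟨r, g, rfl⟩ z
    set w : Lev p W c b (l + 1) := (levHom p W c b (l + 1) g)⁻¹ z with hw
    have h1 : levHom p W c b (l + 1) g w = z := Equiv.apply_symm_apply _ _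
    have h2 := hq w
    show uf p C (g (q.1 w).1) = uf p C z.1
    rw [hC, ← aut_uf, ← hC, h2, hC, aut_uf, ← hC, ← h1]
    rfl
  have hNfin : Finite N := inferInstance
  have hcard : p ∣ Nat.card N := by
    have hNP : IsPGroup p N := hP.to_subgroup N
    rcases hNP.card_eq_or_dvd with h | h
    · exfalso
      have hsub := (Nat.card_eq_one_iff_unique.1 h).1
      obtain ⟨z, hz, hne⟩ := hmv
      have h1 : (⟨⟨φ u, u, rfl⟩, fun w => by
          show uf p C (u w.1) = _
          rw [hC, ← aut_uf, hu _ (Lev_succ.1 w.2)]⟩ : N) = 1 := Subsingleton.elim _ _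
      have h2 := congrArg (fun n : N => (n.1.1 ⟨z, hz⟩).1) h1
      exact hne h2
    · exact h
  have hfix1 : (1 : N) ∈ MulAction.fixedPoints (ConjAct φ.range) N := by
    intro g
    exact smul_one g
  have hPc : IsPGroup p (ConjAct φ.range) := hP
  obtain ⟨n, hn, hn1⟩ := hPc.exists_fixed_point_of_prime_dvd_card_of_fixed_point N hcard hfix1
  obtain ⟨⟨q, g, hg⟩, hq⟩ := n
  subst hg
  have hgl : ∀ z ∈ Lev p W c b (l + 1), g (uf p C z) = uf p C z := by
    intro z hz
    rw [hC, aut_uf]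
    exact hq ⟨z, hz⟩
  have hcen : ∀ k : W ≃ₐ[K] W, ∀ z ∈ Lev p W c b (l + 1), k (g z) = g (k z) := by
    intro k z hz
    have h1 := hn (ConjAct.toConjAct ⟨φ k, k, rfl⟩)
    have h2 := congrArg (fun n : N => n.1.1 ⟨k z, Lev_aut k hz⟩) h1
    have h3 := congrArg Subtype.val h2
    change k (g (k⁻¹ (k z))) = g (k z) at h3
    rw [← AlgEquiv.mul_apply k⁻¹ k, inv_mul_cancel, AlgEquiv.one_apply] at h3
    exact h3
  -- `g` moves some node
  obtain ⟨z₀, hz₀, hgz₀⟩ : ∃ z ∈ Lev p W c b (l + 1), g z ≠ z := by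
    by_contra hno
    push Not at hno
    apply hn1
    apply Subtype.ext
    apply Subtype.ext
    ext z
    exact (hno z.1 z.2).symm
  obtain ⟨i, hi, h0⟩ := (uf_eq_iff hp0 hζ).1 ((hgl z₀ hz₀).symm.trans (aut_uf p c g z₀))
  have hi0 : i ≠ 0 := by
    rintro rfl
    apply hgz₀
    rw [h0, pow_zero, one_mul]
  have hgz : ∀ z ∈ Lev p W c b (l + 1), g z = algebraMap K W ζ ^ i * z := by
    intro z hz
    obtain ⟨k, hk⟩ := hT _ (Lev_succ.1 hz₀) _ (Lev_succ.1 hz)
    rw [aut_uf, eq_comm] at hk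
    obtain ⟨j, hj, h2⟩ := (uf_eq_iff hp0 hζ).1 hk
    have h1 := hcen k z₀ hz₀
    rw [h0, h2, map_mul, map_mul, ← map_pow, ← map_pow, AlgEquiv.commutes, AlgEquiv.commutes, h2,
      map_pow, map_pow] at h1
    have h3 : (algebraMap K W ζ ^ j) ≠ 0 := pow_ne_zero _ (hζ'.ne_zero hp0)
    have h4 : algebraMap K W ζ ^ j * (algebraMap K W ζ ^ i * z) = algebraMap K W ζ ^ j * g z := by
      rw [← h1]
      ring
    exact (mul_left_cancel₀ h3 h4).symm
  -- a suitable power
  have hcop : Nat.Coprime i p := by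
    rw [Nat.coprime_comm, hp.coprime_iff_not_dvd]
    intro h
    exact absurd (Nat.le_of_dvd (Nat.pos_of_ne_zero hi0) h) (by omega)
  obtain ⟨m, hm⟩ : ∃ m : ℕ, i * m ≡ 1 [MOD p] := by
    obtain ⟨m, hm⟩ := Nat.exists_mul_mod_eq_one_of_coprime hcop hp.one_lt
    exact ⟨m, by rw [Nat.ModEq, hm.2, Nat.mod_eq_of_lt hp.one_lt]⟩
  have hpow : ∀ n, ∀ z ∈ Lev p W c b (l + 1), (g ^ n) z = algebraMap K W ζ ^ (i * n) * z := by
    intro n z hz
    induction n with
    | zero => simp
    | succ n ihn =>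
      rw [pow_succ, AlgEquiv.mul_apply, hgz z hz, map_mul, ihn, ← map_pow, AlgEquiv.commutes,
        map_pow, mul_add, mul_one, pow_add]
      ring
  refine ⟨g ^ m, fun y hy => ?_, fun z hz => ?_⟩
  · obtain ⟨z, hz⟩ := exists_pre hp0 C 1 y
    rw [Function.iterate_one] at hz
    have h2 : z ∈ Lev p W c b (l + 1) := by
      rw [Lev_succ, ← hC, hz]
      exact hy
    have h3 := hgl _ h2
    rw [hz] at h3
    exact fix_pow h3 m
  · rw [hpow m z hz]
    congr 1
    have h5 : algebraMap K W ζ ^ (i * m % p) = algebraMap K W ζ ^ (i * m) := by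
      conv_lhs => rw [hζ'.eq_orderOf]
      exact pow_mod_orderOf _ _
    rw [← h5, hm, Nat.mod_eq_of_lt hp.one_lt, pow_one]

/-- **U6a**, statement of the skeleton -/
theorem flip_of_nontriv {K W : Type*} [Field K] [Field W] [CharZero W] [Algebra K W] [IsAlgClosed W]
    [Algebra.IsAlgebraic K W] {p : ℕ} (hp : p.Prime) {ζ c b : K} (hζ : IsPrimitiveRoot ζ p)
    (_hb : ∀ n, 1 ≤ n → (uf p c)^[n] 0 ≠ b) (hT : ∀ l, Tran p W c b l) {l : ℕ}
    (h : Nontriv p W c b l) : FlipAt p ζ W c b l := flip_of_move hp hζ (hT l) h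

end Pool.Agent.ORB.UQ
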