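import Pool.Agent.ORB.FrobEx
import Pool.Agent.ORB.Noninj
import Pool.Agent.ORB.Rootless
import Pool.Agent.ORB.VDesc
import Pool.Agent.ORB.UDefs

/-!
ORB, Theorem V+ (U2): Frobenius automorphisms of an algebraically closed field `W`.
-/

set_option autoImplicit false

namespace Pool.Agent.ORB.UQ

open NumberField IsDedekindDomain Polynomial

universe u

/-- a finite set lies in a finite Galois extension of `ℚ` -/
theorem exists_M {W : Type*} [Field W] [CharZero W] [Algebra.IsAlgebraic ℚ W] [IsAlgClosed W]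
    {S : Set W} (hS : S.Finite) :
    ∃ M : IntermediateField ℚ W, FiniteDimensional ℚ M ∧ IsGalois ℚ M ∧ S ⊆ M := by
  have hcl : IsAlgClosure ℚ W := ⟨inferInstance, inferInstance⟩
  have hn : Normal ℚ W := IsAlgClosure.normal ℚ W
  have hfin : Finite S := hS
  have h1 : FiniteDimensional ℚ (IntermediateField.adjoin ℚ S) :=
    IntermediateField.finiteDimensional_adjoin fun x _ => Algebra.IsIntegral.isIntegral x
  have h2 : FiniteDimensional ℚ (IntermediateField.normalClosure ℚ (IntermediateField.adjoin ℚ S) W) :=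
    normalClosure.is_finiteDimensional ℚ (IntermediateField.adjoin ℚ S) W
  have h3 : Normal ℚ (IntermediateField.normalClosure ℚ (IntermediateField.adjoin ℚ S) W) :=
    normalClosure.normal ℚ (IntermediateField.adjoin ℚ S) W
  refine ⟨IntermediateField.normalClosure ℚ (IntermediateField.adjoin ℚ S) W, h2, ?_, ?_⟩
  · exact { to_isSeparable := inferInstance, to_normal := h3 }
  · exact (IntermediateField.subset_adjoin ℚ S).trans
      (IntermediateField.le_normalClosure (IntermediateField.adjoin ℚ S))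

/-- lifting of a generator of a cyclic group -/
theorem zpowers_lift {G H : Type*} [Group G] [Finite G] [Group H] (f : G →* H) (τ' : G) (σ : H)
    (h : Subgroup.zpowers (f τ') = Subgroup.zpowers σ) :
    ∃ σ' : G, f σ' = σ ∧ Subgroup.zpowers σ' = Subgroup.zpowers τ' := by
  have hfo : IsOfFinOrder τ' := isOfFinOrder_of_finite τ'
  have hfo' : IsOfFinOrder (f τ') := f.isOfFinOrder hfo
  have hN' : 0 < orderOf τ' := hfo.orderOf_pos
  have hN : 0 < orderOf (f τ') := hfo'.orderOf_pos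
  have hdvd : orderOf (f τ') ∣ orderOf τ' := orderOf_map_dvd f τ'
  have hmem : σ ∈ Subgroup.zpowers (f τ') := by rw [h]; exact Subgroup.mem_zpowers σ
  rw [← hfo'.mem_powers_iff_mem_zpowers] at hmem
  obtain ⟨a, ha⟩ := hmem
  have ha' : f τ' ^ a = σ := ha
  have hord : orderOf σ = orderOf (f τ') := by
    rw [← Nat.card_zpowers, ← Nat.card_zpowers, h]
  have hcop : Nat.Coprime (orderOf (f τ')) a := by
    have h1 := orderOf_pow' (f τ') (n := a)
    by_cases ha0 : a = 0
    · subst ha0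
      rw [pow_zero] at ha'
      rw [← ha', orderOf_one] at hord
      rw [← hord]
      exact Nat.coprime_one_left 0
    · have h2 := h1 ha0
      rw [ha', hord] at h2
      have h3 : 0 < Nat.gcd (orderOf (f τ')) a := Nat.gcd_pos_of_pos_left a hN
      have h4 := Nat.div_mul_cancel (Nat.gcd_dvd_left (orderOf (f τ')) a)
      rw [← h2] at h4
      have h5 : orderOf (f τ') * Nat.gcd (orderOf (f τ')) a = orderOf (f τ') * 1 := by
        rw [mul_one]; exact h4
      exact Nat.eq_of_mul_eq_mul_left hN h5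
  have : NeZero (orderOf τ') := ⟨hN'.ne'⟩
  obtain ⟨u, hu⟩ := ZMod.unitsMap_surjective hdvd (ZMod.unitOfCoprime a hcop.symm)
  have hu1 : ((u : ZMod (orderOf τ')).val : ZMod (orderOf (f τ'))) = (a : ZMod (orderOf (f τ'))) := by
    have h1 := congrArg (fun x : (ZMod (orderOf (f τ')))ˣ => (x : ZMod (orderOf (f τ')))) hu
    simp only [ZMod.unitsMap_def, Units.coe_map, ZMod.coe_unitOfCoprime] at h1
    rw [← h1]
    show _ = ZMod.castHom hdvd (ZMod (orderOf (f τ'))) (u : ZMod (orderOf τ'))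
    rw [ZMod.castHom_apply, ZMod.natCast_val]
  have hcop' : Nat.Coprime (orderOf τ') (u : ZMod (orderOf τ')).val :=
    (ZMod.val_coe_unit_coprime u).symm
  refine ⟨τ' ^ (u : ZMod (orderOf τ')).val, ?_, ?_⟩
  · rw [map_pow, ← ha']
    rw [pow_eq_pow_iff_modEq]
    exact (ZMod.natCast_eq_natCast_iff _ _ _).1 hu1
  · apply Subgroup.eq_of_le_of_card_ge
    · rw [Subgroup.zpowers_le]
      exact Subgroup.npow_mem_zpowers τ' _
    · rw [Nat.card_zpowers, Nat.card_zpowers, hcop'.orderOf_pow]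

/-- at the large primes the given elements are units -/
theorem big_units {M : Type*} [Field M] [NumberField M] {U : Set M} (hU : U.Finite)
    (h0 : ∀ u ∈ U, u ≠ 0) :
    ∃ B : ℕ, ∀ p : ℕ, p.Prime → B < p → ∀ v : HeightOneSpectrum (𝓞 M), (p : 𝓞 M) ∈ v.asIdeal →
      ∀ u ∈ U, v.valuation M u = 1 := by
  have h1 : (⋃ u ∈ U, {v : HeightOneSpectrum (𝓞 M) | v.valuation M u ≠ 1}).Finite :=
    hU.biUnion fun u hu => finite_not_one (h0 u hu)
  have h2 : (⋃ v ∈ (⋃ u ∈ U, {v : HeightOneSpectrum (𝓞 M) | v.valuation M u ≠ 1}),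
      {p : ℕ | p.Prime ∧ (p : 𝓞 M) ∈ v.asIdeal}).Finite := by
    refine h1.biUnion fun v _ => ?_
    refine Set.Subsingleton.finite ?_
    rintro p ⟨hp, hpv⟩ q ⟨hq, hqv⟩
    exact prime_unique M hp hq hpv hqv
  obtain ⟨B, hB⟩ := h2.bddAbove
  refine ⟨B, fun p hp hBp v hv u hu => ?_⟩
  by_contra hcon
  have h3 : p ∈ ⋃ v ∈ (⋃ u ∈ U, {v : HeightOneSpectrum (𝓞 M) | v.valuation M u ≠ 1}),
      {p : ℕ | p.Prime ∧ (p : 𝓞 M) ∈ v.asIdeal} :=
    Set.mem_iUnion₂.2 ⟨v, Set.mem_iUnion₂.2 ⟨u, hu, hcon⟩, hp, hv⟩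
  have := hB h3
  omega

theorem frob_unique (M : Type*) [Field M] [NumberField M] [IsGalois ℚ M] :
    ∃ B : ℕ, ∀ p : ℕ, p.Prime → B < p → ∀ P : Ideal (𝓞 M), P.IsPrime → (p : 𝓞 M) ∈ P →
      ∀ τ τ' : M ≃ₐ[ℚ] M, IsFrob p P τ → IsFrob p P τ' → τ = τ' := by
  obtain ⟨B, hB⟩ := fr_sep (L := M) ⊥
  refine ⟨B, fun p hp hBp P hP hpP τ τ' h h' => ?_⟩
  have h1 := hB p hp hBp P hP hpP τ τ' (fun x => by
    have h2 := P.sub_mem (h (algebraMap _ (𝓞 M) x)) (h' (algebraMap _ (𝓞 M) x))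
    rwa [sub_sub_sub_cancel_right] at h2)
  rw [Subgroup.mem_bot] at h1
  exact inv_mul_eq_one.1 h1

theorem exists_frob_at {M : Type*} [Field M] [NumberField M] [IsGalois ℚ M] {p : ℕ} (hp : p.Prime)
    {P : Ideal (𝓞 M)} (hP : P.IsPrime) (hm : (p : 𝓞 M) ∈ P) : ∃ τ : M ≃ₐ[ℚ] M, IsFrob p P τ := by
  have hinv := fr_inv M
  have hP0 : P ≠ ⊥ := by
    intro h
    rw [h, Ideal.mem_bot] at hm
    exact hp.ne_zero (by exact_mod_cast hm)
  have hfin : Finite (𝓞 M ⧸ P) := Ideal.finiteQuotientOfFreeOfNeBot P hP0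
  obtain ⟨τ, hτ⟩ := IsArithFrobAt.exists_of_isInvariant ℤ (M ≃ₐ[ℚ] M) P
  refine ⟨τ, fun y => ?_⟩
  have h1 := hτ y
  have h2 : Nat.card (ℤ ⧸ P.under ℤ) = p := by
    rw [fr_under hp hP hm, ← Submodule.cardQuot_apply, ← Ideal.absNorm_apply,
      Ideal.absNorm_span_singleton]
    simp
  rw [h2] at h1
  exact h1

/-- a `ℚ`-automorphism of `W` which fixes the image of `K` -/
noncomputable def toK {K W : Type*} [Field K] [Field W] [Algebra K W] [CharZero W] (t : W ≃ₐ[ℚ] W)
    (h : ∀ x : K, t (algebraMap K W x) = algebraMap K W x) : W ≃ₐ[K] W :=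
  AlgEquiv.ofRingEquiv (f := t.toRingEquiv) h

/-- **Frobenius automorphisms of `W`.** Let `S`, `U` be finite sets and `s` an automorphism over `K`. There are
arbitrarily large primes `p` such that for every finite set `S2` there are a valuation ring `A` of `W` at which
the elements of `U` are units, an automorphism `t` with `t x ≡ x ^ p` modulo the maximal ideal for all integral
`x ∈ S2`, and an automorphism `s'` which agrees with `s` on `S` and fixes the same elements of `S2` as `t`. -/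
theorem frob_W {K W : Type*} [Field K] [NumberField K] [Field W] [Algebra K W] [IsAlgClosed W]
    [Algebra.IsAlgebraic K W] (s : W ≃ₐ[K] W) {S : Set W} (hS : S.Finite) {U : Set W} (hU : U.Finite)
    (hU0 : ∀ u ∈ U, u ≠ 0) (B : ℕ) :
    ∃ p : ℕ, p.Prime ∧ B < p ∧ ∀ S2 : Set W, S2.Finite →
      ∃ (A : ValuationSubring W) (t s' : W ≃ₐ[K] W),
        (∀ x ∈ S, s' x = s x) ∧ (∀ x ∈ S2, t x = x ↔ s' x = x) ∧
        (∀ u ∈ U, A.valuation u = 1) ∧
        (∀ x ∈ S2, A.valuation x ≤ 1 → A.valuation (t x - x ^ p) < 1) := by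
  classical
  have hCZ : CharZero W := charZero_of_injective_algebraMap (algebraMap K W).injective
  have hQW : Algebra.IsAlgebraic ℚ W := Algebra.IsAlgebraic.trans ℚ K W
  have hcl : IsAlgClosure ℚ W := ⟨inferInstance, inferInstance⟩
  have hn : Normal ℚ W := IsAlgClosure.normal ℚ W
  let κ : Set W := Set.range fun i => algebraMap K W (Module.finBasis ℚ K i)
  have hκ : κ.Finite := Set.finite_range _
  obtain ⟨M, hMf, hMG, hMS⟩ := exists_M ((hS.union hU).union hκ)
  have hNF : NumberField M := { to_charZero := inferInstance, to_finiteDimensional := hMf }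
  have hKM : ∀ x : K, algebraMap K W x ∈ M := by
    intro x
    rw [← (Module.finBasis ℚ K).sum_repr x, map_sum]
    refine sum_mem fun i _ => ?_
    rw [Algebra.smul_def, map_mul]
    refine mul_mem ?_ (hMS (Or.inr ⟨i, rfl⟩))
    rw [← IsScalarTower.algebraMap_apply ℚ K W]
    exact M.algebraMap_mem _
  have hSM : ∀ x ∈ S, x ∈ M := fun x hx => hMS (Or.inl (Or.inl hx))
  have hUM : ∀ x ∈ U, x ∈ M := fun x hx => hMS (Or.inl (Or.inr hx))
  let sQ : W ≃ₐ[ℚ] W := s.restrictScalars ℚ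
  let σM : M ≃ₐ[ℚ] M := sQ.restrictNormal M
  have hσM : ∀ x : M, ((σM x : M) : W) = s (x : W) := fun x => sQ.restrictNormal_commutes M x
  let UM : Set M := {u | (u : W) ∈ U}
  have hUMf : UM.Finite := hU.preimage Subtype.val_injective.injOn
  obtain ⟨B1, hB1⟩ := big_units hUMf (fun u hu h0 => hU0 _ hu (by rw [h0]; rfl))
  obtain ⟨B2, hB2⟩ := frob_unique M
  obtain ⟨p, hpF, hpB⟩ := (frob_density σM).exists_gt (max B (max B1 B2))
  obtain ⟨hp, P, hP, hpP, τ, hτ, hfr⟩ := hpF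
  have hBp : B < p := (le_max_left _ _).trans_lt hpB
  have hB1p : B1 < p := ((le_max_left _ _).trans (le_max_right _ _)).trans_lt hpB
  have hB2p : B2 < p := ((le_max_right _ _).trans (le_max_right _ _)).trans_lt hpB
  refine ⟨p, hp, hBp, fun S2 hS2 => ?_⟩
  let GM : Set W := Set.range fun i => ((Module.finBasis ℚ M i : M) : W)
  have hGM : GM.Finite := Set.finite_range _
  obtain ⟨M', hMf', hMG', hMS'⟩ := exists_M (hS2.union hGM)
  have hNF' : NumberField M' := { to_charZero := inferInstance, to_finiteDimensional := hMf' }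
  have hle : M ≤ M' := by
    intro x hx
    have h1 := (Module.finBasis ℚ M).sum_repr ⟨x, hx⟩
    have h2 := congrArg (fun y : M => (y : W)) h1
    simp only at h2
    rw [← h2]
    push_cast
    refine sum_mem fun i _ => ?_
    exact M'.smul_mem (hMS' (Or.inr ⟨i, rfl⟩))
  let _ : Algebra M M' := (IntermediateField.inclusion hle).toRingHom.toAlgebra
  have hst : IsScalarTower ℚ M M' := IsScalarTower.of_algebraMap_eq fun x => rfl
  have halg : ∀ x : M, ((algebraMap M M' x : M') : W) = (x : W) := fun x => rfl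
  obtain ⟨⟨P', hP', hlo⟩⟩ := P.nonempty_primesOver (S := 𝓞 M')
  have hpP' : (p : 𝓞 M') ∈ P' := by
    have h1 : (p : 𝓞 M) ∈ P'.under (𝓞 M) := by rw [← hlo.over]; exact hpP
    have h2 : algebraMap (𝓞 M) (𝓞 M') (p : 𝓞 M) ∈ P' := h1
    rwa [map_natCast] at h2
  obtain ⟨τ', hτ'⟩ := exists_frob_at hp hP' hpP'
  have hres : ∀ (g : M' ≃ₐ[ℚ] M') (x : M), algebraMap M M' (g.restrictNormal M x) =
      g (algebraMap M M' x) := fun g x => g.restrictNormal_commutes M x
  have hfr' : IsFrob p P (τ'.restrictNormal M) := by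
    intro y
    have h1 : algebraMap (𝓞 M) (𝓞 M') (τ'.restrictNormal M • y - y ^ p) =
        τ' • (algebraMap (𝓞 M) (𝓞 M') y) - (algebraMap (𝓞 M) (𝓞 M') y) ^ p := by
      rw [map_sub, map_pow]
      congr 1
      apply RingOfIntegers.ext
      exact hres τ' (y : M)
    have h2 : τ'.restrictNormal M • y - y ^ p ∈ P'.under (𝓞 M) := by
      show algebraMap (𝓞 M) (𝓞 M') (τ'.restrictNormal M • y - y ^ p) ∈ P'
      rw [h1]
      exact hτ' _
    rwa [← hlo.over] at h2
  have hτeq : τ'.restrictNormal M = τ :=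
    hB2 p hp hB2p P hP hpP _ _ hfr' hfr
  obtain ⟨σ', hσ'1, hσ'2⟩ := zpowers_lift (AlgEquiv.restrictNormalHom (F := ℚ) (K₁ := M') M) τ' σM (by
    show Subgroup.zpowers (τ'.restrictNormal M) = _
    rw [hτeq, hτ])
  have hσ'1' : σ'.restrictNormal M = σM := hσ'1
  let t0 : W ≃ₐ[ℚ] W := τ'.liftNormal W
  let s0 : W ≃ₐ[ℚ] W := σ'.liftNormal W
  have ht0 : ∀ x : M', t0 (x : W) = ((τ' x : M') : W) := fun x => τ'.liftNormal_commutes W x
  have hs0 : ∀ x : M', s0 (x : W) = ((σ' x : M') : W) := fun x => σ'.liftNormal_commutes W x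
  have hs0M : ∀ x : M, s0 (x : W) = s (x : W) := by
    intro x
    rw [← halg x, hs0, ← hres, hσ'1', halg, hσM, halg]
  have hs0K : ∀ x : K, s0 (algebraMap K W x) = algebraMap K W x := by
    intro x
    rw [hs0M ⟨_, hKM x⟩, s.commutes]
  have hfixiff : ∀ x : M', t0 (x : W) = (x : W) ↔ s0 (x : W) = (x : W) := by
    intro x
    rw [ht0, hs0, Subtype.coe_inj, Subtype.coe_inj]
    constructor
    · intro h
      exact zpowers_fix h (by rw [← hσ'2]; exact Subgroup.mem_zpowers σ')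
    · intro h
      exact zpowers_fix h (by rw [hσ'2]; exact Subgroup.mem_zpowers τ')
  have ht0K : ∀ x : K, t0 (algebraMap K W x) = algebraMap K W x := by
    intro x
    exact (hfixiff ⟨_, hle (hKM x)⟩).2 (hs0K x)
  have hP0 : P ≠ ⊥ := by
    intro h
    rw [h, Ideal.mem_bot] at hpP
    exact hp.ne_zero (by exact_mod_cast hpP)
  have hP0' : P' ≠ ⊥ := by
    intro h
    rw [h, Ideal.mem_bot] at hpP'
    exact hp.ne_zero (by exact_mod_cast hpP')
  let v : HeightOneSpectrum (𝓞 M) := ⟨P, hP, hP0⟩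
  let v' : HeightOneSpectrum (𝓞 M') := ⟨P', hP', hP0'⟩
  have hlo' : v'.asIdeal.LiesOver v.asIdeal := hlo
  obtain ⟨A, hA⟩ := exists_ext_val (Ω := W) (v'.valuation M')
  have hA1 : ∀ x : M', A.valuation (x : W) = 1 ↔ v'.valuation M' x = 1 := by
    intro x
    have := VQ.ext_eq_iff hA x 1
    rwa [map_one, map_one, map_one] at this
  have hAlt : ∀ x : M', A.valuation (x : W) < 1 ↔ v'.valuation M' x < 1 := by
    intro x
    have := VQ.ext_lt_iff hA x 1
    rwa [map_one, map_one, map_one] at this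
  refine ⟨A, toK t0 ht0K, toK s0 hs0K, ?_, ?_, ?_, ?_⟩
  · intro x hx
    exact hs0M ⟨x, hSM x hx⟩
  · intro x hx
    exact hfixiff ⟨x, hMS' (Or.inl hx)⟩
  · intro u hu
    have h1 := hB1 p hp hB1p v hpP ⟨u, hUM u hu⟩ hu
    have h2 := (val_eq_iff v v' (⟨u, hUM u hu⟩ : M)).2 h1
    exact (hA1 _).2 h2
  · intro x hx hx1
    have hxM : x ∈ M' := hMS' (Or.inl hx)
    have h1 : v'.valuation M' ⟨x, hxM⟩ ≤ 1 := (hA ⟨x, hxM⟩).1 hx1
    have h2 := frob_val v' (τ' : M' ≃+* M') (q := p) (fun y => by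
      have h3 := hτ' y
      have h4 : v'.valuation M' (algebraMap (𝓞 M') M' (τ' • y - y ^ p)) < 1 :=
        (HeightOneSpectrum.valuation_lt_one_iff_mem (K := M') v' _).2 h3
      have h5 : algebraMap (𝓞 M') M' (τ' • y - y ^ p) =
          (τ' : M' ≃+* M') (algebraMap (𝓞 M') M' y) - (algebraMap (𝓞 M') M' y) ^ p := by
        rw [map_sub, map_pow]; rfl
      rwa [h5] at h4) h1
    have h3 := (hAlt _).2 h2
    have h4 : ((((τ' : M' ≃+* M') ⟨x, hxM⟩ - (⟨x, hxM⟩ : M') ^ p : M')) : W) = t0 x - x ^ p := by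
      have h6 := ht0 ⟨x, hxM⟩
      push_cast
      rw [h6]
      rfl
    rw [h4] at h3
    exact h3

end Pool.Agent.ORB.UQ
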