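import Pool.Agent.ORB.VCore

/-!
ORB, Theorem V for unicritical maps, assembly (row U11), first part: the extension property of finitely many
pairs `(h, b')` of rational functions and points over a number field `F` gives the extension property for tuples of
maps over `K` which over `F` are conjugate to iterates of the `h`.
-/

namespace Pool.Agent.ORB

open NumberField IsDedekindDomain Polynomial

universe u

/-- the extension property of the backward orbit of one point of `P^1(F)` under a rational function over `F` -/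
def ExtR {F : Type*} (W : Type*) [Field F] [Field W] [Algebra F W] (h : RP F) (b : OnePoint F) : Prop :=
  ∀ T : Set W, T.Finite → ∀ s₀ : W ≃ₐ[F] W, ∃ (N : ℕ) (s : W ≃ₐ[F] W), (∀ t ∈ T, s t = s₀ t) ∧
    ∀ x : OnePoint W, (h.map (algebraMap F W)).act^[N] x = pmap (algebraMap F W) b → pmap (s : W →+* W) x ≠ x

section
variable {F W : Type*} [Field F] [Field W] [Algebra F W]

theorem map_aut (h : RP F) (s : W ≃ₐ[F] W) :
    (h.map (algebraMap F W)).map (s : W →+* W) = h.map (algebraMap F W) := by
  rw [RP.map_map]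
  congr 1
  exact RingHom.ext fun x => s.commutes x

theorem pmap_aut_iter (h : RP F) (s : W ≃ₐ[F] W) (n : ℕ) (x : OnePoint W) :
    pmap (s : W →+* W) ((h.map (algebraMap F W)).act^[n] x) =
      (h.map (algebraMap F W)).act^[n] (pmap (s : W →+* W) x) := by
  rw [← RP.act_map_iterate, map_aut]

theorem extR_up {h : RP F} {b : OnePoint F} {s : W ≃ₐ[F] W} {N n : ℕ} (hNn : N ≤ n)
    (hm : ∀ x : OnePoint W, (h.map (algebraMap F W)).act^[N] x = pmap (algebraMap F W) b →
      pmap (s : W →+* W) x ≠ x) (x : OnePoint W)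
    (hx : (h.map (algebraMap F W)).act^[n] x = pmap (algebraMap F W) b) : pmap (s : W →+* W) x ≠ x := by
  obtain ⟨e, rfl⟩ := Nat.exists_eq_add_of_le hNn
  intro hfix
  rw [Function.iterate_add_apply] at hx
  apply hm _ hx
  rw [pmap_aut_iter, hfix]

theorem fibre_finite (h : RP F) (hd : 1 ≤ h.d) (b : OnePoint W) (n : ℕ) :
    {z : W | (h.map (algebraMap F W)).act^[n] (z : OnePoint W) = b}.Finite := by
  have h1 : 1 ≤ ((h.map (algebraMap F W)).iter n).d := by
    rw [RP.iter_d]
    exact Nat.one_le_pow _ _ hd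
  have h2 := ((h.map (algebraMap F W)).iter n).finite_fiber h1 {b} (Set.finite_singleton _)
  refine h2.subset fun z hz => ?_
  show ((h.map (algebraMap F W)).iter n).act (z : OnePoint W) ∈ ({b} : Set (OnePoint W))
  rw [RP.act_iter]
  exact hz

/-- finitely many pairs at the same time -/
theorem extR_many {ι : Type*} (h : ι → RP F) (b : ι → OnePoint F) (S : Finset ι)
    (hd : ∀ i ∈ S, 1 ≤ (h i).d) (hE : ∀ i ∈ S, ExtR W (h i) (b i)) (T : Set W) (hT : T.Finite)
    (s₀ : W ≃ₐ[F] W) :
    ∃ (N : ℕ) (s : W ≃ₐ[F] W), (∀ t ∈ T, s t = s₀ t) ∧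
      ∀ i ∈ S, ∀ n, N ≤ n → ∀ x : OnePoint W,
        ((h i).map (algebraMap F W)).act^[n] x = pmap (algebraMap F W) (b i) → pmap (s : W →+* W) x ≠ x := by
  classical
  induction S using Finset.induction_on generalizing T s₀ with
  | empty => exact ⟨0, s₀, fun t _ => rfl, fun i hi => absurd hi (Finset.notMem_empty i)⟩
  | insert a S ha ih =>
    obtain ⟨N1, s1, h1, h2⟩ := ih (fun i hi => hd i (Finset.mem_insert_of_mem hi))
      (fun i hi => hE i (Finset.mem_insert_of_mem hi)) T hT s₀
    obtain ⟨N2, s2, h3, h4⟩ := hE a (Finset.mem_insert_self a S)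
      (T ∪ ⋃ i ∈ S, {z : W | ((h i).map (algebraMap F W)).act^[N1] (z : OnePoint W) =
        pmap (algebraMap F W) (b i)})
      (hT.union (Set.Finite.biUnion (Finset.finite_toSet _) fun i hi =>
        fibre_finite _ (hd i (Finset.mem_insert_of_mem hi)) _ _)) s1
    refine ⟨max N1 N2, s2, fun t ht => by rw [h3 t (Or.inl ht), h1 t ht], ?_⟩
    intro i hi n hn
    rcases Finset.mem_insert.1 hi with rfl | hi'
    · exact extR_up ((le_max_right _ _).trans hn) h4
    · refine extR_up ((le_max_left _ _).trans hn) fun x hx => ?_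
      have h5 := h2 i hi' N1 le_rfl x hx
      induction x using OnePoint.rec with
      | infty => exact absurd (pmap_infty _) h5
      | coe z =>
        rw [pmap_coe] at h5 ⊢
        have h6 : s2 z = s1 z := h3 z (Or.inr (Set.mem_iUnion₂.2 ⟨i, hi', hx⟩))
        intro h7
        apply h5
        rw [← h7]
        exact congrArg _ h6.symm

end

/-- **Assembly**: over `F`, the map `f i` is conjugate to the `k i`-th iterate of `h i`, the point `b i` corresponds
to `β i`, all targets of `(h i, b i)` are rational over `F` and have the extension property -/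
theorem extTF_of_extR {K F W : Type*} [Field K] [Field F] [Field W] [Algebra K F] [Algebra K W] [Algebra F W]
    [IsScalarTower K F W] [IsAlgClosed W] {ι : Type*} [Finite ι] (f : ι → RP K) (β : ι → OnePoint K)
    (h : ι → RP F) (hd : ∀ i, 1 ≤ (h i).d) (k : ι → ℕ) (hk : ∀ i, 1 ≤ k i) (μ : ι → RP F)
    (hμ : ∀ i, (μ i).d = 1) (b : ι → OnePoint F) (hb : ∀ i, (μ i).act (b i) = pmap (algebraMap K F) (β i))
    (hconj : ∀ i (x : OnePoint W), ((f i).map (algebraMap K W)).act (((μ i).map (algebraMap F W)).act x) =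
      ((μ i).map (algebraMap F W)).act (((h i).map (algebraMap F W)).act^[k i] x))
    (hE : ∀ i (y : OnePoint W), IsTgt (h i) (b i) W y → ∃ b' : OnePoint F,
      y = pmap (algebraMap F W) b' ∧ ExtR W (h i) b') : ExtTF F W f β := by
  classical
  cases nonempty_fintype ι
  -- the finite set of the targets
  have hfin : (⋃ i, {p : ι × OnePoint F | p.1 = i ∧ IsTgt (h i) (b i) W (pmap (algebraMap F W) p.2)}).Finite := by
    refine Set.finite_iUnion fun i => ?_
    have h1 := finite_tgt (h i) (hd i) (b i) W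
    have h2 : {b' : OnePoint F | IsTgt (h i) (b i) W (pmap (algebraMap F W) b')}.Finite :=
      Set.Finite.preimage ((pmap_injective (algebraMap F W)).injOn) h1
    refine (h2.image (fun x => (i, x))).subset ?_
    rintro ⟨j, x⟩ ⟨hj, hx⟩
    simp only at hj hx
    subst hj
    exact ⟨x, hx, rfl⟩
  intro T hT s₀
  obtain ⟨N, s, h1, h2⟩ := extR_many (fun p : ι × OnePoint F => h p.1) (fun p => p.2) hfin.toFinset
    (fun p _ => hd p.1) (fun p hp => by
      rw [Set.Finite.mem_toFinset] at hp
      obtain ⟨i, hi, hx⟩ := Set.mem_iUnion.1 hp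
      rw [hi]
      obtain ⟨b', hb', hext⟩ := hE i _ hx
      rw [pmap_injective (algebraMap F W) hb']
      exact hext) T hT s₀
  refine ⟨N, s, h1, fun i x htgt hfix => ?_⟩
  set M := (μ i).map (algebraMap F W) with hM
  have hMd : M.d = 1 := hμ i
  have hMinj : Function.Injective M.act := by
    obtain ⟨ν, hν⟩ := exists_inverse M hMd
    exact Function.LeftInverse.injective hν
  have hMb : M.act (pmap (algebraMap F W) (b i)) = pmap (algebraMap K W) (β i) := by
    rw [hM, RP.act_map, hb, pmap_comp, ← IsScalarTower.algebraMap_eq]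
  obtain ⟨x', rfl⟩ := M.surj (by omega) x
  set T' := ((h i).map (algebraMap F W)).act with hT'
  have hsc := semiconj_iterate M.act (T'^[k i]) ((f i).map (algebraMap K W)).act (hconj i)
  rw [hsc N x'] at htgt
  obtain ⟨hn, ht⟩ := htgt
  set y' := (T'^[k i])^[N] x' with hy'
  -- the conditions for the iterate
  have hn' : ∀ m, 1 ≤ m → (T'^[k i])^[m] y' ≠ y' := by
    intro m hm he
    apply hn m hm
    rw [hsc m y', he]
  have ht' : y' = pmap (algebraMap F W) (b i) ∨ ((∃ m, 1 ≤ m ∧ (T'^[k i])^[m] (pmap (algebraMap F W) (b i)) =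
      pmap (algebraMap F W) (b i)) ∧ ∃ j, T'^[k i] y' = (T'^[k i])^[j] (pmap (algebraMap F W) (b i))) := by
    rcases ht with ht | ⟨⟨m, hm, hβ⟩, j, hj⟩
    · left
      apply hMinj
      rw [ht, hMb]
    · right
      refine ⟨⟨m, hm, ?_⟩, j, ?_⟩
      · apply hMinj
        rw [← hsc, hMb, RP.act_map_iterate, hβ]
      · apply hMinj
        rw [← hsc, hMb, RP.act_map_iterate, ← hj, hconj]
  obtain ⟨e, he1, he2⟩ := tgt_iterate T' (hk i) hn' ht'
  have htg : IsTgt (h i) (b i) W (T'^[e] y') := by
    refine ⟨he1, ?_⟩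
    rcases he2 with he2 | ⟨⟨m, hm, hper⟩, j, hj⟩
    · exact Or.inl he2
    · refine Or.inr ⟨⟨m, hm, ?_⟩, j, ?_⟩
      · apply pmap_injective (algebraMap F W)
        rw [← RP.act_map_iterate]
        exact hper
      · rw [← RP.act_map_iterate]
        exact hj
  obtain ⟨b', hyb, -⟩ := hE i _ htg
  -- the automorphism fixes `x'`
  have hfix' : pmap (s : W →+* W) x' = x' := by
    apply hMinj
    have h3 := RP.act_map (s : W →+* W) M x'
    rw [hM, map_aut, ← hM, hfix] at h3
    exact h3
  refine h2 (i, b') ?_ (e + k i * N) ?_ x' ?_ hfix'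
  · rw [Set.Finite.mem_toFinset]
    refine Set.mem_iUnion.2 ⟨i, rfl, ?_⟩
    show IsTgt (h i) (b i) W (pmap (algebraMap F W) b')
    rw [← hyb]
    exact htg
  · have := Nat.le_mul_of_pos_left N (hk i)
    omega
  · show T'^[e + k i * N] x' = pmap (algebraMap F W) b'
    rw [Function.iterate_add_apply, Function.iterate_mul, ← hy']
    exact hyb

end Pool.Agent.ORB
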