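import Mathlib

/-!
ORB, Theorem V for `x ^ p + c`, `p` odd: valuations of sums of `p`-th powers, elementary symmetric
functions and a Newton identity.
-/

set_option autoImplicit false

namespace Pool.Agent.ORB.UOdd

open Finset Polynomial

section val

variable {W : Type*} [Field W] {Γ : Type*} [LinearOrderedCommGroupWithZero Γ]

theorem v_nat_le (v : Valuation W Γ) (n : ℕ) : v (n : W) ≤ 1 := by
  induction n with
  | zero => simp
  | succ n ih =>
    push_cast
    exact (v.map_add _ _).trans (max_le ih (by rw [map_one]))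

theorem v_nat_eq (v : Valuation W Γ) {p : ℕ} (hp : p.Prime) (hvp : v (p : W) < 1) {n : ℕ}
    (hn : ¬ p ∣ n) : v (n : W) = 1 := by
  refine le_antisymm (v_nat_le v n) ?_
  by_contra h
  rw [not_le] at h
  have hcop : IsCoprime (n : ℤ) (p : ℤ) := by
    rw [Nat.isCoprime_iff_coprime, Nat.coprime_comm]
    exact (hp.coprime_iff_not_dvd).2 hn
  obtain ⟨a, b, hab⟩ := hcop
  have h1 : ((a : ℤ) : W) * (n : W) + ((b : ℤ) : W) * (p : W) = 1 := by exact_mod_cast congrArg (Int.cast : ℤ → W) hab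
  have hint : ∀ z : ℤ, v (z : W) ≤ 1 := by
    intro z
    obtain ⟨n, rfl | rfl⟩ := z.eq_nat_or_neg
    · rw [Int.cast_natCast]
      exact v_nat_le v n
    · rw [Int.cast_neg, Valuation.map_neg, Int.cast_natCast]
      exact v_nat_le v n
  have h2 : v (((a : ℤ) : W) * (n : W) + ((b : ℤ) : W) * (p : W)) < 1 := by
    refine lt_of_le_of_lt (v.map_add _ _) (max_lt ?_ ?_)
    · rw [map_mul]
      exact lt_of_le_of_lt (mul_le_of_le_one_left' (hint a)) h
    · rw [map_mul]
      exact lt_of_le_of_lt (mul_le_of_le_one_left' (hint b)) hvp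
  rw [h1, map_one] at h2
  exact absurd h2 (lt_irrefl _)

/-- the binomial formula for a prime exponent -/
theorem v_add_pow (v : Valuation W Γ) {p : ℕ} (hp : p.Prime) {x y : W} {B : Γ} (hx : v x ≤ B)
    (hy : v y ≤ B) : v ((x + y) ^ p - (x ^ p + y ^ p)) ≤ v (p : W) * (v x * v y * B ^ (p - 2)) := by
  rw [add_pow_prime_eq hp, add_sub_cancel_left, map_mul, map_mul, map_mul, mul_assoc, mul_assoc]
  refine mul_le_mul' le_rfl ?_
  rw [mul_assoc]
  refine mul_le_mul' le_rfl (mul_le_mul' le_rfl ?_)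
  refine v.map_sum_le fun k hk => ?_
  rw [mem_Ioo] at hk
  rw [map_mul, map_mul, map_pow, map_pow]
  have h1 : v x ^ (k - 1) * v y ^ (p - k - 1) ≤ B ^ (k - 1) * B ^ (p - k - 1) :=
    mul_le_mul' (pow_le_pow_left' hx _) (pow_le_pow_left' hy _)
  rw [← pow_add, show k - 1 + (p - k - 1) = p - 2 by omega] at h1
  exact (mul_le_of_le_one_right' (v_nat_le v _)).trans h1

/-- **Lemma A** -/
theorem v_sum_pow (v : Valuation W Γ) {p : ℕ} (hp : p.Prime) {ι : Type*} (s : Finset ι) (t : ι → W)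
    {B : Γ} (ht : ∀ i ∈ s, v (t i) ≤ B) :
    v ((∑ i ∈ s, t i) ^ p - ∑ i ∈ s, t i ^ p) ≤ v (p : W) * B ^ p := by
  classical
  induction s using Finset.induction_on with
  | empty => simp [hp.ne_zero]
  | insert a s ha ih =>
    have h1 := ih fun i hi => ht i (mem_insert_of_mem hi)
    have h2 : v (t a) ≤ B := ht a (mem_insert_self a s)
    have h3 : v (∑ i ∈ s, t i) ≤ B := v.map_sum_le fun i hi => ht i (mem_insert_of_mem hi)
    have h4 := v_add_pow v hp h2 h3
    rw [sum_insert ha, sum_insert ha]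
    have h5 : (t a + ∑ i ∈ s, t i) ^ p - (t a ^ p + ∑ i ∈ s, t i ^ p)
        = ((t a + ∑ i ∈ s, t i) ^ p - (t a ^ p + (∑ i ∈ s, t i) ^ p))
          + ((∑ i ∈ s, t i) ^ p - ∑ i ∈ s, t i ^ p) := by ring
    rw [h5]
    refine (v.map_add _ _).trans (max_le (h4.trans (mul_le_mul' le_rfl ?_)) h1)
    have h6 : B ^ p = B * B * B ^ (p - 2) := by
      rw [← pow_two, ← pow_add]
      congr 1
      have := hp.two_le
      omega
    rw [h6]
    exact mul_le_mul' (mul_le_mul' h2 h3) le_rfl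

end val

section newton

variable {W : Type*} [Field W]

/-- the reversed polynomial -/
noncomputable def PP {ι : Type*} (s : Finset ι) (t : ι → W) : W[X] := ∏ i ∈ s, (1 - C (t i) * X)

/-- the coefficients -/
theorem coeff_PP {ι : Type*} (s : Finset ι) (t : ι → W) (n : ℕ) :
    (PP s t).coeff n = (-1) ^ n * ∑ A ∈ s.powersetCard n, ∏ i ∈ A, t i := by
  classical
  have h1 : PP s t = ∑ A ∈ s.powerset, C ((-1) ^ A.card * ∏ i ∈ A, t i) * X ^ A.card := by
    rw [PP]
    have h2 : ∏ i ∈ s, (1 - C (t i) * X) = ∏ i ∈ s, (1 + (-C (t i) * X)) :=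
      prod_congr rfl fun i _ => by ring
    rw [h2, prod_one_add]
    refine sum_congr rfl fun A _ => ?_
    rw [prod_mul_distrib, prod_const, prod_neg, ← map_prod C, C.map_mul, C.map_pow, map_neg, map_one]
  rw [h1, finsetSum_coeff]
  simp only [coeff_C_mul_X_pow]
  rw [← sum_filter, mul_sum]
  refine sum_congr ?_ fun A hA => ?_
  · ext A
    rw [mem_filter, mem_powersetCard, mem_powerset, eq_comm (a := n)]
  · rw [(mem_powersetCard.1 hA).2]

/-- **Newton identities** through the logarithmic derivative -/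
theorem newton {ι : Type*} (s : Finset ι) (t : ι → W) (N : ℕ) :
    ∑ i ∈ s, t i ^ N * (if N = 0 then 0 else 1) =
      ∑ l ∈ range N, (X * derivative (1 - PP s t) * (1 - PP s t) ^ l).coeff N := by
  classical
  set P := PP s t with hP
  set U := 1 - P with hU
  set L : W[X] := ∑ i ∈ s, ∑ k ∈ range N, (C (t i) * X) ^ (k + 1) with hL
  set Q : ι → W[X] := fun i => ∏ j ∈ s.erase i, (1 - C (t j) * X) with hQ
  have hQi : ∀ i ∈ s, Q i * (1 - C (t i) * X) = P := fun i hi => by
    rw [hP, PP, ← mul_prod_erase s _ hi, mul_comm]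
  have hdP : derivative P = ∑ i ∈ s, Q i * (-C (t i)) := by
    rw [hP, PP, derivative_prod_finset]
    refine sum_congr rfl fun i _ => ?_
    rw [derivative_sub, derivative_one, derivative_C_mul, derivative_X, mul_one, zero_sub]
  have hU' : X * derivative U = ∑ i ∈ s, Q i * (C (t i) * X) := by
    rw [hU, derivative_sub, derivative_one, zero_sub, hdP, ← sum_neg_distrib, mul_sum]
    refine sum_congr rfl fun i _ => by ring
  have hPL : P * L = X * derivative U - X ^ (N + 1) * ∑ i ∈ s, Q i * C (t i ^ (N + 1)) := by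
    rw [hL, hU', mul_sum, mul_sum, ← sum_sub_distrib]
    refine sum_congr rfl fun i hi => ?_
    have h1 : ∑ k ∈ range N, (C (t i) * X) ^ (k + 1)
        = (C (t i) * X) * ∑ k ∈ range N, (C (t i) * X) ^ k := by
      rw [mul_sum]
      exact sum_congr rfl fun k _ => by rw [pow_succ, mul_comm]
    have h2 : (1 - C (t i) * X) * ∑ k ∈ range N, (C (t i) * X) ^ k = 1 - (C (t i) * X) ^ N := by
      exact mul_neg_geom_sum _ _
    rw [h1, ← hQi i hi]
    calc Q i * (1 - C (t i) * X) * (C (t i) * X * ∑ k ∈ range N, (C (t i) * X) ^ k)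
        = Q i * (C (t i) * X) * ((1 - C (t i) * X) * ∑ k ∈ range N, (C (t i) * X) ^ k) := by ring
      _ = Q i * (C (t i) * X) * (1 - (C (t i) * X) ^ N) := by rw [h2]
      _ = Q i * (C (t i) * X) - X ^ (N + 1) * (Q i * C (t i ^ (N + 1))) := by
        rw [C.map_pow]
        ring
  set G : W[X] := ∑ l ∈ range N, U ^ l with hG
  have hPG : P * G = 1 - U ^ N := by
    have h1 : P = 1 - U := by rw [hU]; ring
    rw [h1, hG]
    exact mul_neg_geom_sum _ _
  have hkey : L - U ^ N * L = X * derivative U * G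
      - X ^ (N + 1) * ((∑ i ∈ s, Q i * C (t i ^ (N + 1))) * G) := by
    have h1 : L - U ^ N * L = (P * L) * G := by
      rw [mul_right_comm, hPG]
      ring
    rw [h1, hPL]
    ring
  obtain ⟨U1, hU1⟩ : X ∣ U := by
    rw [X_dvd_iff, hU, coeff_sub, coeff_one_zero, hP, coeff_PP]
    simp
  obtain ⟨L1, hL1⟩ : X ∣ L := by
    rw [hL]
    refine dvd_sum fun i _ => dvd_sum fun k _ => ?_
    exact (dvd_mul_left _ _).trans (dvd_pow_self _ (Nat.succ_ne_zero k))
  have hcL : L.coeff N = ∑ i ∈ s, t i ^ N * (if N = 0 then 0 else 1) := by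
    rw [hL, finsetSum_coeff]
    refine sum_congr rfl fun i _ => ?_
    rw [finsetSum_coeff]
    simp only [mul_pow, ← C.map_pow, coeff_C_mul, coeff_X_pow]
    rcases Nat.eq_zero_or_pos N with rfl | hN
    · simp
    · rw [sum_eq_single (N - 1)]
      · rw [Nat.sub_add_cancel hN, if_pos rfl, if_neg (by omega)]
      · intro k _ hk
        rw [if_neg (by omega), mul_zero]
      · intro h
        exact absurd (mem_range.2 (by omega)) h
  have hz1 : (U ^ N * L).coeff N = 0 := by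
    rw [hL1, hU1, mul_pow, show X ^ N * U1 ^ N * (X * L1) = X ^ (N + 1) * (U1 ^ N * L1) by ring,
      coeff_X_pow_mul', if_neg (by omega)]
  have hz2 : (X ^ (N + 1) * ((∑ i ∈ s, Q i * C (t i ^ (N + 1))) * G)).coeff N = 0 := by
    rw [coeff_X_pow_mul', if_neg (by omega)]
  have h3 := congrArg (fun q : W[X] => q.coeff N) hkey
  simp only [coeff_sub] at h3
  rw [hz1, hz2, sub_zero, sub_zero, hcL] at h3
  rw [h3, hG, mul_sum, finsetSum_coeff]

theorem coeff_logder (U : W[X]) (l N : ℕ) :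
    ((l : W) + 1) * (X * derivative U * U ^ l).coeff N = (N : W) * (U ^ (l + 1)).coeff N := by
  have h1 : C ((l : W) + 1) * (X * derivative U * U ^ l) = X * derivative (U ^ (l + 1)) := by
    rw [derivative_pow_succ]
    ring
  rw [← coeff_C_mul, h1]
  rcases Nat.eq_zero_or_pos N with rfl | hN
  · simp
  · obtain ⟨M, rfl⟩ := Nat.exists_eq_succ_of_ne_zero hN.ne'
    rw [Nat.succ_eq_add_one, coeff_X_mul, coeff_derivative]
    push_cast
    ring

end newton

section vnewton

variable {W : Type*} [Field W] {Γ : Type*} [LinearOrderedCommGroupWithZero Γ]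

theorem mul_bound (v : Valuation W Γ) {U V : W[X]} {p : ℕ} {ε B : Γ} (hU0 : U.coeff 0 = 0)
    (hV0 : V.coeff 0 = 0) (hU : ∀ n < p, v (U.coeff n) ≤ ε * B ^ n)
    (hV : ∀ n < p, v (V.coeff n) ≤ ε * B ^ n) (n : ℕ) (hn : n ≤ p) :
    v ((U * V).coeff n) ≤ ε ^ 2 * B ^ n := by
  rw [coeff_mul]
  refine v.map_sum_le fun x hx => ?_
  rw [HasAntidiagonal.mem_antidiagonal] at hx
  rcases Nat.eq_zero_or_pos x.1 with h | h
  · rw [h, hU0, zero_mul, map_zero]
    exact zero_le
  rcases Nat.eq_zero_or_pos x.2 with h' | h'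
  · rw [h', hV0, mul_zero, map_zero]
    exact zero_le
  rw [map_mul, ← hx, pow_add, pow_two, mul_mul_mul_comm]
  exact mul_le_mul' (hU _ (by omega)) (hV _ (by omega))

theorem pow_bound (v : Valuation W Γ) {U : W[X]} {p : ℕ} {ε B : Γ} (hε : ε ≤ 1)
    (hU0 : U.coeff 0 = 0) (hU : ∀ n < p, v (U.coeff n) ≤ ε * B ^ n) (l : ℕ) :
    (U ^ (l + 1)).coeff 0 = 0 ∧ ∀ n < p, v ((U ^ (l + 1)).coeff n) ≤ ε * B ^ n := by
  induction l with
  | zero => simpa using ⟨hU0, hU⟩
  | succ l ih =>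
    have h1 : U ^ (l + 1 + 1) = U * U ^ (l + 1) := by rw [pow_succ, mul_comm]
    constructor
    · rw [h1, mul_coeff_zero, hU0, zero_mul]
    · intro n hn
      rw [h1]
      refine (mul_bound v hU0 ih.1 hU ih.2 n hn.le).trans ?_
      refine mul_le_mul' ?_ le_rfl
      rw [pow_two]
      exact mul_le_of_le_one_left' hε

/-- **Lemma N** -/
theorem v_newton (v : Valuation W Γ) [CharZero W] {p : ℕ} (hp : p.Prime) (hp2 : p ≠ 2)
    (hvp : v (p : W) < 1) {ι : Type*} (s : Finset ι) (hs : s.card = p) (t : ι → W) {ε B : Γ}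
    (hε : ε ≤ 1)
    (he : ∀ n, 1 ≤ n → n < p → v (∑ A ∈ s.powersetCard n, ∏ i ∈ A, t i) ≤ ε * B ^ n) :
    v ((∑ i ∈ s, t i) ^ p + p * ∏ i ∈ s, t i - ∑ i ∈ s, t i ^ p) ≤ v (p : W) * (ε ^ 2 * B ^ p) := by
  classical
  have hodd : Odd p := hp.odd_of_ne_two hp2
  have hp3 : 3 ≤ p := by
    have := hp.two_le
    omega
  set U := 1 - PP s t with hU
  have hcU : ∀ n, 1 ≤ n → U.coeff n = -((-1) ^ n * ∑ A ∈ s.powersetCard n, ∏ i ∈ A, t i) := by
    intro n hn
    rw [hU, coeff_sub, coeff_PP, coeff_one, if_neg (by omega), zero_sub]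
  have hU0 : U.coeff 0 = 0 := by
    rw [hU, coeff_sub, coeff_PP]
    simp
  have hUn : ∀ n < p, v (U.coeff n) ≤ ε * B ^ n := by
    intro n hn
    rcases Nat.eq_zero_or_pos n with rfl | hn0
    · rw [hU0, map_zero]
      exact zero_le
    · rw [hcU n hn0, Valuation.map_neg, map_mul, map_pow, Valuation.map_neg, map_one, one_pow, one_mul]
      exact he n hn0 hn
  have hU1 : U.coeff 1 = ∑ i ∈ s, t i := by
    rw [hcU 1 le_rfl, pow_one, neg_one_mul, neg_neg, powersetCard_one, sum_map]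
    simp
  have hUp : U.coeff p = ∏ i ∈ s, t i := by
    rw [hcU p (by omega), hodd.neg_one_pow, neg_one_mul, neg_neg]
    conv_lhs => rw [← hs]
    rw [powersetCard_self, sum_singleton]
  set c : ℕ → W := fun l => (X * derivative U * U ^ l).coeff p with hc
  have hn := newton s t p
  simp only [if_neg hp.ne_zero, mul_one] at hn
  rw [← hU] at hn
  have hlog : ∀ l : ℕ, ((l : W) + 1) * c l = (p : W) * (U ^ (l + 1)).coeff p :=
    fun l => coeff_logder U l p
  have hc0 : c 0 = p * ∏ i ∈ s, t i := by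
    have h1 := hlog 0
    rw [Nat.cast_zero, zero_add, one_mul, zero_add, pow_one, hUp] at h1
    exact h1
  have hcp : c (p - 1) = (∑ i ∈ s, t i) ^ p := by
    have h1 := hlog (p - 1)
    have h2 : ((p - 1 : ℕ) : W) + 1 = (p : W) := by
      have : p - 1 + 1 = p := by omega
      exact_mod_cast congrArg (Nat.cast : ℕ → W) this
    rw [h2, show p - 1 + 1 = p by omega] at h1
    have h3 := mul_left_cancel₀ (Nat.cast_ne_zero.2 hp.ne_zero) h1
    obtain ⟨V, hV⟩ : X ∣ U := X_dvd_iff.2 hU0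
    rw [h3, ← hU1, hV, mul_pow, coeff_X_pow_mul', if_pos le_rfl, Nat.sub_self, ← pow_one X,
      coeff_X_pow_mul', if_pos le_rfl, Nat.sub_self, coeff_zero_eq_eval_zero, eval_pow,
      ← coeff_zero_eq_eval_zero]
  have hmid : ∀ l ∈ ((range p).erase 0).erase (p - 1), v (c l) ≤ v (p : W) * (ε ^ 2 * B ^ p) := by
    intro l hl
    rw [mem_erase, mem_erase, mem_range] at hl
    have h1 := congrArg v (hlog l)
    rw [map_mul, map_mul] at h1
    have h2 : v ((l : W) + 1) = 1 := by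
      have h3 : v ((l + 1 : ℕ) : W) = 1 := v_nat_eq v hp hvp fun h => by
        have := Nat.le_of_dvd (by omega) h
        omega
      rwa [Nat.cast_add, Nat.cast_one] at h3
    rw [h2, one_mul] at h1
    rw [h1]
    refine mul_le_mul' le_rfl ?_
    obtain ⟨k, rfl⟩ : ∃ k, l = k + 1 := ⟨l - 1, by omega⟩
    have h3 := pow_bound v hε hU0 hUn k
    have h4 : U ^ (k + 1 + 1) = U * U ^ (k + 1) := by rw [pow_succ, mul_comm]
    rw [h4]
    exact mul_bound v hU0 h3.1 hUn h3.2 p le_rfl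
  have hsum : ∑ l ∈ ((range p).erase 0).erase (p - 1), c l = ∑ l ∈ range p, c l - c 0 - c (p - 1) := by
    rw [sum_erase_eq_sub (mem_erase.2 ⟨by omega, mem_range.2 (by omega)⟩),
      sum_erase_eq_sub (mem_range.2 (by omega))]
  have h5 : (∑ i ∈ s, t i) ^ p + p * ∏ i ∈ s, t i - ∑ i ∈ s, t i ^ p
      = -∑ l ∈ ((range p).erase 0).erase (p - 1), c l := by
    rw [hsum, hc0, hcp, hn]
    ring
  rw [h5, Valuation.map_neg]
  exact v.map_sum_le hmid

/-- **Lemma E** -/
theorem v_esymm (v : Valuation W Γ) {p : ℕ} (hp : p.Prime) (s : Finset W) (hs : s.card = p)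
    (t : W → W) (a w : W) (hsw : ∏ z ∈ s, (X - C z) = X ^ p - C w)
    (ht : ∀ z ∈ s, t z ^ p = a - z) (ha : v a ≤ 1) {ε B : Γ} (hε : ε ^ p = v (p : W)) (hB1 : 1 ≤ B)
    (hB : ∀ z ∈ s, v (t z) ≤ B) (n : ℕ) (hn1 : 1 ≤ n) (hnp : n < p) :
    v (∑ A ∈ s.powersetCard n, ∏ i ∈ A, t i) ≤ ε * B ^ n := by
  classical
  -- the symmetric functions of `a - z`
  have h1 : ∏ z ∈ s, (X + C (a - z)) = (X + C a) ^ p - C w := by
    have h2 := congrArg (fun q : W[X] => q.comp (X + C a)) hsw
    simp only [sub_comp, pow_comp, X_comp, C_comp] at h2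
    rw [Polynomial.prod_comp] at h2
    rw [← h2]
    refine prod_congr rfl fun z _ => ?_
    rw [sub_comp, X_comp, C_comp, C_sub]
    ring
  have h2 : ∑ A ∈ s.powersetCard n, ∏ z ∈ A, (a - z) = a ^ n * (p.choose (p - n) : W) := by
    have h3 := Finset.prod_X_add_C_coeff s (fun z => a - z) (k := p - n) (by rw [hs]; omega)
    rw [h1, coeff_sub, coeff_X_add_C_pow, coeff_C, if_neg (by omega), sub_zero, hs,
      show p - (p - n) = n by omega] at h3
    exact h3.symm
  have h3 : v (∑ A ∈ s.powersetCard n, ∏ z ∈ A, (a - z)) ≤ v (p : W) := by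
    rw [h2, map_mul, map_pow]
    refine (mul_le_of_le_one_left' (pow_le_one' ha n)).trans ?_
    obtain ⟨k, hk⟩ := hp.dvd_choose_self (k := p - n) (by omega) (by omega)
    rw [hk, Nat.cast_mul, map_mul]
    exact mul_le_of_le_one_right' (v_nat_le v k)
  have h4 := v_sum_pow v hp (s.powersetCard n) (fun A => ∏ i ∈ A, t i) (B := B ^ n) (by
    intro A hA
    rw [map_prod]
    refine (prod_le_prod' fun i hi => hB i ((mem_powersetCard.1 hA).1 hi)).trans_eq ?_
    rw [prod_const, (mem_powersetCard.1 hA).2])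
  have h5 : ∑ A ∈ s.powersetCard n, (∏ i ∈ A, t i) ^ p = ∑ A ∈ s.powersetCard n, ∏ z ∈ A, (a - z) := by
    refine sum_congr rfl fun A hA => ?_
    rw [← prod_pow]
    exact prod_congr rfl fun z hz => ht z ((mem_powersetCard.1 hA).1 hz)
  rw [h5] at h4
  refine (pow_le_pow_iff_left₀ zero_le zero_le hp.ne_zero).1 ?_
  rw [mul_pow, hε, ← map_pow]
  set S := ∑ A ∈ s.powersetCard n, ∏ i ∈ A, t i with hS
  have h6 : S ^ p = (S ^ p - ∑ A ∈ s.powersetCard n, ∏ z ∈ A, (a - z))
      + ∑ A ∈ s.powersetCard n, ∏ z ∈ A, (a - z) := by ring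
  rw [h6]
  refine (v.map_add _ _).trans (max_le h4 (h3.trans ?_))
  exact le_mul_of_one_le_right' (one_le_pow₀ (one_le_pow₀ hB1))

end vnewton

end Pool.Agent.ORB.UOdd
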