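import Pool.Agent.ORB.VTrace
import Pool.Agent.ORB.VExt

/-!
ORB, Theorem V: the extension property for every number field, when `c` is integral at one prime
over 2 and `b` is not periodic.
-/

set_option autoImplicit false

namespace Pool.Agent.ORB.VQ

open IntermediateField IsDedekindDomain NumberField Polynomial

universe u

section dyn

variable {F Γ : Type*} [Field F] [LinearOrderedCommGroupWithZero Γ] {v : Valuation F Γ} {c : F}

theorem iter_int (hc : v c ≤ 1) {a : F} (ha : v a ≤ 1) (n : ℕ) : v ((qm c)^[n] a) ≤ 1 := by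
  induction n with
  | zero => exact ha
  | succ n ih =>
    rw [Function.iterate_succ_apply']
    refine (v.map_add _ _).trans (max_le ?_ hc)
    rw [map_pow]
    exact pow_le_one' ih 2

theorem iter_big (hc : v c ≤ 1) {a : F} (ha : 1 < v a) (n : ℕ) : 1 < v ((qm c)^[n] a) := by
  induction n with
  | zero => exact ha
  | succ n ih =>
    rw [Function.iterate_succ_apply']
    have h1 : 1 < v ((qm c)^[n] a) ^ 2 := one_lt_pow₀ ih two_ne_zero
    have h2 : v (((qm c)^[n] a) ^ 2 + c) = v ((qm c)^[n] a) ^ 2 := by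
      rw [← map_pow]
      rw [← map_pow] at h1
      exact Valuation.map_add_eq_of_lt_left _ (lt_of_le_of_lt hc h1)
    show 1 < v (((qm c)^[n] a) ^ 2 + c)
    rw [h2]
    exact h1

theorem qm_sub (a a' : F) : qm c a - qm c a' = (a - a') * ((a - a') + 2 * a') := by
  simp only [qm]
  ring

theorem contract_one (hc : v c ≤ 1) {a a' : F} (ha : v a ≤ 1) (ha' : v a' ≤ 1) (n : ℕ) :
    v ((qm c)^[n] a - (qm c)^[n] a') ≤ v (a - a') := by
  induction n with
  | zero => exact le_rfl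
  | succ n ih =>
    rw [Function.iterate_succ_apply', Function.iterate_succ_apply', qm_sub, map_mul]
    refine (mul_le_mul' ih ?_).trans_eq (mul_one _)
    have h1 := iter_int hc ha n
    have h2 := iter_int hc ha' n
    refine (v.map_add _ _).trans (max_le ((v.map_sub _ _).trans (max_le h1 h2)) ?_)
    rw [map_mul]
    exact mul_le_one' (v_two_le v) h2

theorem contract_two (hc : v c ≤ 1) {a a' : F} (ha : v a ≤ 1) (ha' : v a' ≤ 1)
    (h : v (a - a') ≤ v 2) (n : ℕ) :
    v ((qm c)^[n] a - (qm c)^[n] a') ≤ v (a - a') * v 2 ^ n := by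
  induction n with
  | zero =>
    rw [pow_zero, mul_one]
    exact le_rfl
  | succ n ih =>
    rw [Function.iterate_succ_apply', Function.iterate_succ_apply', qm_sub, map_mul, pow_succ,
      ← mul_assoc]
    refine mul_le_mul' ih ?_
    refine (v.map_add _ _).trans (max_le ((contract_one hc ha ha' n).trans h) ?_)
    rw [map_mul]
    exact (mul_le_mul' le_rfl (iter_int hc ha' n)).trans_eq (mul_one _)

end dyn

section far

variable {K : Type*} [Field K] [NumberField K]

/-- a nonperiodic integral point is not too close to the orbit of `0` -/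
theorem far {c b : K} (Q : HeightOneSpectrum (𝓞 K)) (q2 : Q.valuation K (2 : K) < 1)
    (qc : Q.valuation K c ≤ 1) (qb : Q.valuation K b ≤ 1)
    (hper : ∀ k, 1 ≤ k → (qm c)^[k] b ≠ b) :
    ∃ k₁ : ℕ, ∀ n, k₁ ≤ n →
      Q.valuation K (2 : K) ^ (n + 1) < Q.valuation K (b - (qm c)^[n] 0) := by
  set v := Q.valuation K with hv
  have x0 : v (0 : K) ≤ 1 := by rw [map_zero]; exact zero_le
  have v20 : v (2 : K) ≠ 0 := by
    rw [Valuation.ne_zero_iff]
    norm_num
  by_contra hcon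
  push Not at hcon
  obtain ⟨n₁, hn₁, h1⟩ := hcon 1
  -- returns
  have ret : ∀ d, v (b - (qm c)^[n₁ + d] 0) ≤ v (2 : K) ^ (n₁ + d + 1) →
      v ((qm c)^[d] b - b) ≤ v (2 : K) ^ (n₁ + d + 1) := by
    intro d hd
    have h2 : v (b - (qm c)^[n₁] 0) ≤ v 2 := by
      refine h1.trans ?_
      rw [pow_succ]
      exact mul_le_of_le_one_left' (pow_le_one' q2.le _)
    have h3 := contract_two qc qb (iter_int qc x0 n₁) h2 d
    rw [← Function.iterate_add_apply, add_comm d n₁] at h3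
    have h4 : v ((qm c)^[d] b - (qm c)^[n₁ + d] 0) ≤ v (2 : K) ^ (n₁ + d + 1) := by
      refine h3.trans ((mul_le_mul' h1 le_rfl).trans_eq ?_)
      rw [← pow_add]
      congr 1
      omega
    have h5 : (qm c)^[d] b - b = ((qm c)^[d] b - (qm c)^[n₁ + d] 0)
        - (b - (qm c)^[n₁ + d] 0) := by ring
    rw [h5]
    exact (v.map_sub _ _).trans (max_le h4 hd)
  obtain ⟨n₂, hn₂, h2⟩ := hcon (n₁ + 1)
  obtain ⟨d, rfl⟩ : ∃ d, n₂ = n₁ + d := ⟨n₂ - n₁, by omega⟩
  have hd1 : 1 ≤ d := by omega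
  have hε := ret d h2
  have hε0 : v ((qm c)^[d] b - b) ≠ 0 := by
    rw [Valuation.ne_zero_iff]
    exact sub_ne_zero.2 (hper d hd1)
  set ε := v ((qm c)^[d] b - b) with hεdef
  have hε2 : ε ≤ v 2 := by
    refine hε.trans ?_
    rw [pow_succ]
    exact mul_le_of_le_one_left' (pow_le_one' q2.le _)
  have key : ∀ j : ℕ, v ((qm c)^[d * (j + 1)] b - b) = ε := by
    intro j
    induction j with
    | zero => rw [zero_add, mul_one]
    | succ j ih =>
      have h3 := contract_two qc (iter_int qc qb d) qb hε2 (d * (j + 1))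
      rw [← Function.iterate_add_apply] at h3
      have h4 : v ((qm c)^[d * (j + 1) + d] b - (qm c)^[d * (j + 1)] b) < ε := by
        refine lt_of_le_of_lt h3 ?_
        refine mul_lt_of_lt_one_right (zero_lt_iff.2 hε0) ?_
        exact pow_lt_one₀ zero_le q2 (Nat.mul_ne_zero (by omega) (by omega))
      have h5 : (qm c)^[d * (j + 1 + 1)] b - b
          = ((qm c)^[d * (j + 1) + d] b - (qm c)^[d * (j + 1)] b)
            + ((qm c)^[d * (j + 1)] b - b) := by
        rw [show d * (j + 1 + 1) = d * (j + 1) + d by ring]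
        ring
      rw [h5, Valuation.map_add_eq_of_lt_right _ (by rw [ih]; exact h4), ih]
  -- a very close return
  obtain ⟨N, hN⟩ : ∃ N : ℕ, v (2 : K) ^ N < ε := by
    obtain ⟨N, hN⟩ := exists_pow_lt₀ q2 (Units.mk0 ε hε0)
    exact ⟨N, hN⟩
  obtain ⟨n, hn, h3⟩ := hcon (max N (n₁ + 1))
  have hnN : N ≤ n := (le_max_left _ _).trans hn
  have hnn : n₁ + 1 ≤ n := (le_max_right _ _).trans hn
  obtain ⟨d', rfl⟩ : ∃ d', n = n₁ + (d' + 1) := ⟨n - n₁ - 1, by omega⟩
  have h4 := ret (d' + 1) h3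
  set η := v (2 : K) ^ (n₁ + (d' + 1) + 1) with hη
  have key2 : ∀ j : ℕ, v ((qm c)^[(d' + 1) * j] b - b) ≤ η := by
    intro j
    induction j with
    | zero =>
      rw [mul_zero, Function.iterate_zero, id_eq, sub_self, map_zero]
      exact zero_le
    | succ j ih =>
      have h5 := contract_one qc (iter_int qc qb (d' + 1)) qb ((d' + 1) * j)
      rw [← Function.iterate_add_apply] at h5
      have h6 : (qm c)^[(d' + 1) * (j + 1)] b - b
          = ((qm c)^[(d' + 1) * j + (d' + 1)] b - (qm c)^[(d' + 1) * j] b)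
            + ((qm c)^[(d' + 1) * j] b - b) := by
        rw [show (d' + 1) * (j + 1) = (d' + 1) * j + (d' + 1) by ring]
        ring
      rw [h6]
      exact (v.map_add _ _).trans (max_le (h5.trans h4) ih)
  have h5 := key d'
  have h6 := key2 d
  rw [mul_comm, h5] at h6
  have h7 : η ≤ v (2 : K) ^ N := by
    rw [hη]
    exact pow_le_pow_right_of_le_one' q2.le (by omega)
  exact absurd (lt_of_le_of_lt (h6.trans h7) hN) (lt_irrefl _)

end far

section node

variable {K : Type*} [Field K] [NumberField K] {W : Type u} [Field W] [Algebra K W]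
  [Algebra.IsAlgebraic K W]

omit [Algebra.IsAlgebraic K W] in
/-- the local condition of `flips_two` holds at all nodes of the high levels -/
theorem node_two {c b : K} (Q : HeightOneSpectrum (𝓞 K)) (q2 : Q.valuation K (2 : K) < 1)
    (qc : Q.valuation K c ≤ 1) (hper : ∀ k, 1 ≤ k → (qm c)^[k] b ≠ b) :
    ∃ k₁ : ℕ, ∀ k, k₁ ≤ k → ∀ r ∈ Lev W c b k, ∀ [NumberField K⟮r⟯],
      ∃ P : HeightOneSpectrum (𝓞 K⟮r⟯),
        P.valuation K⟮r⟯ (algebraMap K K⟮r⟯ c) ≤ 1 ∧
        P.valuation K⟮r⟯ (4 : K⟮r⟯) * max 1 (P.valuation K⟮r⟯ (AdjoinSimple.gen K r))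
          < P.valuation K⟮r⟯ (AdjoinSimple.gen K r - algebraMap K K⟮r⟯ c) := by
  obtain ⟨k₁, hk₁⟩ : ∃ k₁ : ℕ, Q.valuation K b ≤ 1 → ∀ n, k₁ ≤ n →
      Q.valuation K (2 : K) ^ (n + 1) < Q.valuation K (b - (qm c)^[n] 0) := by
    by_cases qb : Q.valuation K b ≤ 1
    · obtain ⟨k₁, hk₁⟩ := far Q q2 qc qb hper
      exact ⟨k₁, fun _ => hk₁⟩
    · exact ⟨0, fun h => absurd h qb⟩
  refine ⟨k₁, fun k hk r hr hNF => ?_⟩
  obtain ⟨⟨P', hP1, hP2⟩⟩ := Q.asIdeal.nonempty_primesOver (S := 𝓞 K⟮r⟯)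
  have hP0 : P' ≠ ⊥ := Ideal.ne_bot_of_mem_primesOver Q.ne_bot ⟨hP1, hP2⟩
  let P : HeightOneSpectrum (𝓞 K⟮r⟯) := ⟨P', hP1, hP0⟩
  have hlo : P.asIdeal.LiesOver Q.asIdeal := hP2
  have hA : ∀ x : K, P.valuation K⟮r⟯ (algebraMap K K⟮r⟯ x) ≤ 1 ↔ Q.valuation K x ≤ 1 :=
    val_le_iff Q P
  set cF := algebraMap K K⟮r⟯ c with hcF
  set rF := AdjoinSimple.gen K r with hrF
  have hrF' : (qm cF)^[k] rF = algebraMap K K⟮r⟯ b := by
    apply (algebraMap K⟮r⟯ W).injective
    have e3 : algebraMap K⟮r⟯ W cF = algebraMap K W c :=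
      (IsScalarTower.algebraMap_apply K K⟮r⟯ W c).symm
    have e4 : algebraMap K⟮r⟯ W (algebraMap K K⟮r⟯ b) = algebraMap K W b :=
      (IsScalarTower.algebraMap_apply K K⟮r⟯ W b).symm
    rw [map_iter, e3, e4, hrF, AdjoinSimple.algebraMap_gen]
    exact hr
  have pc : P.valuation K⟮r⟯ cF ≤ 1 := (hA c).2 qc
  have p2 : P.valuation K⟮r⟯ (2 : K⟮r⟯) < 1 := by
    have := (ext_lt_iff hA (2 : K) 1).2 (by rw [map_one]; exact q2)
    rwa [map_ofNat (algebraMap K K⟮r⟯) 2, map_one, map_one] at this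
  have p4 : P.valuation K⟮r⟯ (4 : K⟮r⟯) = P.valuation K⟮r⟯ (2 : K⟮r⟯) ^ 2 := by
    rw [← map_pow]
    congr 1
    norm_num
  refine ⟨P, pc, ?_⟩
  rcases le_or_gt (P.valuation K⟮r⟯ rF) 1 with h | h
  · -- the integral case
    have pb : P.valuation K⟮r⟯ (algebraMap K K⟮r⟯ b) ≤ 1 := by
      rw [← hrF']
      exact iter_int pc h k
    have qb : Q.valuation K b ≤ 1 := (hA b).1 pb
    rw [max_eq_left h, mul_one]
    by_contra hle
    rw [not_lt, p4] at hle
    have hle2 : P.valuation K⟮r⟯ (rF - cF) ≤ P.valuation K⟮r⟯ (2 : K⟮r⟯) := by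
      refine hle.trans ?_
      rw [pow_two]
      exact mul_le_of_le_one_left' p2.le
    have h1 := contract_two pc h pc hle2 k
    have h2 : (qm cF)^[k] rF - (qm cF)^[k] cF
        = algebraMap K K⟮r⟯ (b - (qm c)^[k + 1] 0) := by
      rw [hrF', map_sub, map_iter, map_zero, Function.iterate_succ_apply]
      congr 2
      simp [qm, hcF]
    rw [h2] at h1
    have h3 := h1.trans (mul_le_mul' hle le_rfl)
    rw [← pow_add, ← map_pow, ← map_ofNat (algebraMap K K⟮r⟯) 2, ← map_pow] at h3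
    have h4 := (ext_le_iff hA _ _).1 h3
    have h5 := hk₁ qb (k + 1) (by omega)
    rw [map_pow, show 2 + k = k + 1 + 1 by omega] at h4
    exact absurd h5 (not_lt.2 h4)
  · rw [max_eq_right h.le, Valuation.map_sub_eq_of_lt_left _ (lt_of_le_of_lt pc h), p4]
    have h1 : P.valuation K⟮r⟯ (2 : K⟮r⟯) ^ 2 < 1 := pow_lt_one₀ zero_le p2 two_ne_zero
    exact mul_lt_of_lt_one_left (lt_trans zero_lt_one h) h1

end node

section main

variable {K : Type u} [Field K] [NumberField K] {W : Type u} [Field W] [Algebra K W]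
  [IsAlgClosed W] [Algebra.IsAlgebraic K W]

/-- **The extension property at a prime over 2**, every number field -/
theorem ExtP_int2 {c b : K} (h0 : Function.Injective fun n : ℕ => (qm c)^[n] 0)
    (hper : ∀ k, 1 ≤ k → (qm c)^[k] b ≠ b) (w : HeightOneSpectrum (𝓞 K))
    (hw : w.valuation K (2 : K) < 1) (hc : w.valuation K c ≤ 1) : ExtP W c b := by
  obtain ⟨k₀, hk₀⟩ := two_tran W w hw c b hc hper
  obtain ⟨k₁, hk₁⟩ := orbit_avoid (W := W) (b := b) h0
  obtain ⟨k₂, hk₂⟩ := node_two (W := W) w hw hc hper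
  have e0 : k₀ ≤ max k₀ (max k₁ k₂) := le_max_left _ _
  have e1 : k₁ ≤ max k₀ (max k₁ k₂) := (le_max_left _ _).trans (le_max_right _ _)
  have e2 : k₂ ≤ max k₀ (max k₁ k₂) := (le_max_right _ _).trans (le_max_right _ _)
  refine ExtP_of_nodes h0 (max k₀ (max k₁ k₂)) (hk₁ _ e1) (hk₀ _ e0) fun r hr => ?_
  have hnf : NumberField K⟮r⟯ := numberField_adjoin r
  have halg : Algebra.IsAlgebraic K⟮r⟯ W := Algebra.IsAlgebraic.tower_top (K := K) K⟮r⟯
  obtain ⟨P, hP1, hP2⟩ := hk₂ _ e2 r hr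
  exact flips_two fixed_of_closure (node_hyps h0 (hk₁ _ e1 r hr)).2 (hk₀ _ e0 r hr) P hP1 hP2

end main

end Pool.Agent.ORB.VQ
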