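import Pool.Agent.ORB.UPlaceD
import Pool.Agent.ORB.UBranchX
import Pool.Agent.ORB.VExtTwo

/-!
ORB, Theorem V for unicritical maps: the extension property at a place, without any condition on the orbit
of `0`.
-/

set_option autoImplicit false

namespace Pool.Agent.ORB.UQ

open NumberField IsDedekindDomain IntermediateField

universe u

/-- **The extension property at a tame place**, every degree, every `c` different from `0` and `-2`. -/
theorem extP_tameX {K W : Type u} [Field K] [NumberField K] [Field W] [Algebra K W]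
    [IsAlgClosed W] [Algebra.IsAlgebraic K W] {d : ℕ} (hd : 2 ≤ d) {ζ c b : K}
    (hζ : IsPrimitiveRoot ζ d) (hc0 : c ≠ 0) (hc2 : d = 2 → c ≠ -2)
    (hper : b ∉ Function.periodicPts (uf d c)) (v : HeightOneSpectrum (𝓞 K))
    (hvd : v.valuation K (d : K) = 1)
    (hv : (v.valuation K c ≤ 1 ∧ 1 < v.valuation K b) ∨
      (v.valuation K c < 1 ∧ v.valuation K b < 1)) : ExtP d W c b := by
  have hd0 : d ≠ 0 := by omega
  by_cases hw : Function.Injective fun n : ℕ => (uf d c)^[n] b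
  swap
  · exact extP_preper hd0 hw hper
  rcases hv with ⟨hc, hb⟩ | ⟨hc, hb⟩
  · refine engineX hd hζ hc0 hc2 hw (fun n _ h => ?_)
      (flips_tame hd hζ.pow_eq_one v hvd hc (lt_of_le_of_lt hc hb) hb.ne')
    have h1 := uf_int v (p := d) hc (x := 0) (by rw [map_zero]; exact zero_le) n
    rw [h] at h1
    exact absurd hb (not_lt.2 h1)
  · have hper' : ∀ k, 1 ≤ k → (uf d c)^[k] b ≠ b := fun k hk h => hper ⟨k, hk, h⟩
    obtain ⟨B, hB⟩ := flips_node (W := W) hd hζ.pow_eq_one v hvd hc hb hper'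
    obtain ⟨k₀, hk₀⟩ := nodes_avoid (W := W) hw
    exact ExtP_of_flipsX hd hζ hc0 hc2 hw (max B k₀) (hk₀ _ (le_max_right _ _))
      (hB _ (le_max_left _ _))

/-- over the field of a node: the node is not in the orbit of `0` -/
theorem node_avoid {K W : Type*} [Field K] [Field W] [Algebra K W] {d : ℕ} {c : K} {r : W}
    (hr : ∀ n, 1 ≤ n → algebraMap K W ((uf d c)^[n] 0) ≠ r) (n : ℕ) (hn : 1 ≤ n) :
    (uf d (algebraMap K K⟮r⟯ c))^[n] 0 ≠ AdjoinSimple.gen K r := by
  intro h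
  apply hr n hn
  have h3 := congrArg (algebraMap K⟮r⟯ W) h
  have h4 := uf_map (algebraMap K K⟮r⟯) d c 0 n
  rw [map_zero] at h4
  rw [← h4, ← IsScalarTower.algebraMap_apply] at h3
  rw [h3]
  exact AdjoinSimple.algebraMap_gen K r

/-- **The extension property for `x ^ 2 + c`**: every number field, `c` integral at one prime over 2,
`c` different from `0` and `-2`, `b` not periodic. -/
theorem extP_two {K W : Type u} [Field K] [NumberField K] [Field W] [Algebra K W]
    [IsAlgClosed W] [Algebra.IsAlgebraic K W] {c b : K} (hc0 : c ≠ 0) (hc2 : c ≠ -2)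
    (hper : b ∉ Function.periodicPts (uf 2 c)) (v : HeightOneSpectrum (𝓞 K))
    (hv2 : v.valuation K (2 : K) < 1) (hc : v.valuation K c ≤ 1) : ExtP 2 W c b := by
  have hW : CharZero W := charZero_of_injective_algebraMap (algebraMap K W).injective
  by_cases hw : Function.Injective fun n : ℕ => (uf 2 c)^[n] b
  swap
  · exact extP_preper two_ne_zero hw hper
  have hper' : ∀ k, 1 ≤ k → (VQ.qm c)^[k] b ≠ b := fun k hk h => hper ⟨k, hk, h⟩
  obtain ⟨k₀, hk₀⟩ := VQ.two_tran W v hv2 c b hc hper'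
  obtain ⟨k₁, hk₁⟩ := nodes_avoid (W := W) hw
  obtain ⟨k₂, hk₂⟩ := VQ.node_two (W := W) v hv2 hc hper'
  have e0 : k₀ ≤ max k₀ (max k₁ k₂) := le_max_left _ _
  have e1 : k₁ ≤ max k₀ (max k₁ k₂) := (le_max_left _ _).trans (le_max_right _ _)
  have e2 : k₂ ≤ max k₀ (max k₁ k₂) := (le_max_right _ _).trans (le_max_right _ _)
  refine ExtP_of_flipsX le_rfl (ζ := (-1 : K)) (IsPrimitiveRoot.neg_one 0 (by norm_num)) hc0
    (fun _ => hc2) hw (max k₀ (max k₁ k₂)) (hk₁ _ e1) fun r hr => ?_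
  have hnf : NumberField K⟮r⟯ := numberField_adjoin r
  have halg : Algebra.IsAlgebraic K⟮r⟯ W := Algebra.IsAlgebraic.tower_top (K := K) K⟮r⟯
  obtain ⟨P, hP1, hP2⟩ := hk₂ _ e2 r hr
  obtain ⟨m, hm⟩ := VQ.flips_two VQ.fixed_of_closure (node_avoid (hk₁ _ e1 r hr)) (hk₀ _ e0 r hr)
    P hP1 hP2
  refine ⟨m, fun l hl => ?_⟩
  obtain ⟨g, hg1, hg2⟩ := hm l hl
  refine ⟨g, hg1, fun z hz => ?_⟩
  rw [hg2 z hz, map_neg, map_one, map_neg, map_one, neg_one_mul]

end Pool.Agent.ORB.UQ
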