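import Pool.Agent.ORB.UOddA
import Pool.Agent.ORB.UTriv
import Pool.Agent.ORB.UPlaceX

/-!
ORB, Theorem V for `x ^ p + c`, `p` odd: iterated traces of equivariant `p`-th roots.
-/

set_option autoImplicit false

namespace Pool.Agent.ORB.UOdd

open Finset Polynomial UQ

section defs

variable {W : Type*} [Field W]

/-- products of the roots above a node -/
noncomputable def SS (p : ℕ) (C : W) (E : W → W) (i : ℕ) (r : W) : W := ∏ z ∈ pre p C i r, E z

/-- iterated traces -/
noncomputable def TT (p : ℕ) (C : W) (E : W → W) (k i : ℕ) (r : W) : W :=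
  ∑ z ∈ pre p C k r, SS p C E i z

theorem SS_zero {p : ℕ} (hp : p ≠ 0) (C : W) (E : W → W) (r : W) : SS p C E 0 r = E r := by
  rw [SS, pre_zero hp, prod_singleton]

theorem SS_succ {p : ℕ} (hp : p ≠ 0) (C : W) (E : W → W) (i : ℕ) (r : W) :
    SS p C E (i + 1) r = ∏ z ∈ pre p C 1 r, SS p C E i z := by
  rw [SS, add_comm i 1, prod_pre_add hp C r 1 i E]
  rfl

theorem TT_zero {p : ℕ} (hp : p ≠ 0) (C : W) (E : W → W) (i : ℕ) (r : W) :
    TT p C E 0 i r = SS p C E i r := by
  rw [TT, pre_zero hp, sum_singleton]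

theorem TT_succ {p : ℕ} (hp : p ≠ 0) (C : W) (E : W → W) (k i : ℕ) (r : W) :
    TT p C E (k + 1) i r = ∑ z ∈ pre p C 1 r, TT p C E k i z := by
  classical
  rw [TT, ← Finset.sum_fiberwise_of_maps_to (s := pre p C (k + 1) r) (t := pre p C 1 r)
    (g := fun z => (uf p C)^[k] z)]
  · refine Finset.sum_congr rfl fun s hs => Finset.sum_congr ?_ fun _ _ => rfl
    ext z
    rw [Finset.mem_filter, mem_pre hp, mem_pre hp, add_comm k 1, Function.iterate_add_apply]
    constructor
    · rintro ⟨-, h⟩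
      exact h
    · intro h
      refine ⟨?_, h⟩
      rw [h]
      exact (mem_pre hp).1 hs
  · intro z hz
    rw [mem_pre hp] at hz ⊢
    rw [← Function.iterate_add_apply, add_comm 1 k]
    exact hz

end defs

section tree

variable {K W : Type*} [Field K] [Field W] [Algebra K W]

theorem mem_pre_Lev {p : ℕ} (hp : p ≠ 0) {c b : K} {j i : ℕ} {r : W} (hr : r ∈ Lev p W c b j) {z : W}
    (hz : z ∈ pre p (algebraMap K W c) i r) : z ∈ Lev p W c b (j + i) := by
  rw [Lev_iter, (mem_pre hp).1 hz]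
  exact hr

theorem ne_pre {p : ℕ} (hp : p ≠ 0) {c b : K} (hb : ∀ n, 1 ≤ n → (uf p c)^[n] 0 ≠ b) {j : ℕ} {r : W}
    (hr : r ∈ Lev p W c b j) (i : ℕ) :
    ∀ i' < i, ∀ y, (uf p (algebraMap K W c))^[i'] y = r → y ≠ algebraMap K W c := by
  intro i' _ y hy
  exact ne_of_Lev hp hb (l := j + i') (Lev_iter.2 (by rw [hy]; exact hr))

theorem pre_aut {p : ℕ} (hp : p ≠ 0) {c : K} (g : W ≃ₐ[K] W) {i : ℕ} {r z : W} :
    g z ∈ pre p (algebraMap K W c) i (g r) ↔ z ∈ pre p (algebraMap K W c) i r := by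
  rw [mem_pre hp, mem_pre hp, ← aut_iter]
  exact g.injective.eq_iff

theorem SS_equiv {p : ℕ} (hp : p ≠ 0) {c b : K} {m : ℕ} {E : W → W}
    (hE : ∀ g : W ≃ₐ[K] W, ∀ y ∈ Lev p W c b m, g (E y) = E (g y)) {i j : ℕ} (hj : j + i = m) {r : W}
    (hr : r ∈ Lev p W c b j) (g : W ≃ₐ[K] W) :
    g (SS p (algebraMap K W c) E i r) = SS p (algebraMap K W c) E i (g r) := by
  rw [SS, SS, map_prod]
  refine prod_nbij' (fun z => g z) (fun z => g⁻¹ z) ?_ ?_ ?_ ?_ ?_
  · exact fun z hz => (pre_aut hp g).2 hz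
  · intro z hz
    have h1 : g (g⁻¹ z) = z := by rw [← AlgEquiv.mul_apply, mul_inv_cancel, AlgEquiv.one_apply]
    exact (pre_aut hp g).1 (by rw [h1]; exact hz)
  · exact fun z _ => by rw [← AlgEquiv.mul_apply, inv_mul_cancel, AlgEquiv.one_apply]
  · exact fun z _ => by rw [← AlgEquiv.mul_apply, mul_inv_cancel, AlgEquiv.one_apply]
  · intro z hz
    exact hE g z (hj ▸ mem_pre_Lev hp hr hz)

theorem TT_equiv {p : ℕ} (hp : p ≠ 0) {c b : K} {m : ℕ} {E : W → W}
    (hE : ∀ g : W ≃ₐ[K] W, ∀ y ∈ Lev p W c b m, g (E y) = E (g y)) {k i j : ℕ} (hj : j + k + i = m)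
    {r : W} (hr : r ∈ Lev p W c b j) (g : W ≃ₐ[K] W) :
    g (TT p (algebraMap K W c) E k i r) = TT p (algebraMap K W c) E k i (g r) := by
  rw [TT, TT, map_sum]
  refine sum_nbij' (fun z => g z) (fun z => g⁻¹ z) ?_ ?_ ?_ ?_ ?_
  · exact fun z hz => (pre_aut hp g).2 hz
  · intro z hz
    have h1 : g (g⁻¹ z) = z := by rw [← AlgEquiv.mul_apply, mul_inv_cancel, AlgEquiv.one_apply]
    exact (pre_aut hp g).1 (by rw [h1]; exact hz)
  · exact fun z _ => by rw [← AlgEquiv.mul_apply, inv_mul_cancel, AlgEquiv.one_apply]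
  · exact fun z _ => by rw [← AlgEquiv.mul_apply, mul_inv_cancel, AlgEquiv.one_apply]
  · intro z hz
    exact SS_equiv hp hE hj (mem_pre_Lev hp hr hz) g

variable [IsAlgClosed W] [CharZero W]

theorem SS_pow {p : ℕ} (hp : p ≠ 0) {c b : K} (hb : ∀ n, 1 ≤ n → (uf p c)^[n] 0 ≠ b) {m : ℕ}
    {E : W → W} (hE : ∀ y ∈ Lev p W c b m, E y ^ p = (uf p (algebraMap K W c))^[2] 0 - y)
    {i j : ℕ} (hj : j + i = m) {r : W} (hr : r ∈ Lev p W c b j) :
    SS p (algebraMap K W c) E i r ^ p = (uf p (algebraMap K W c))^[i + 2] 0 - r := by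
  rw [SS, ← prod_pow, Function.iterate_add_apply, ← prod_sub hp i (ne_pre hp hb hr i)]
  exact prod_congr rfl fun z hz => hE z (hj ▸ mem_pre_Lev hp hr hz)

theorem prod_pre_one {p : ℕ} (hp : p ≠ 0) {C r : W} (hr : r ≠ C) :
    ∏ z ∈ pre p C 1 r, (X - Polynomial.C z) = X ^ p - Polynomial.C (r - C) := by
  refine Polynomial.funext fun t => ?_
  rw [eval_prod]
  have h1 := prod_sub hp (c := C) 1 (x := r) (by
    intro i hi y hy
    obtain rfl : i = 0 := by omega
    rw [Function.iterate_zero_apply] at hy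
    rw [hy]
    exact hr) t
  simp only [eval_sub, eval_X, eval_C, eval_pow]
  rw [h1, Function.iterate_one, uf]
  ring

theorem card_pre_one {p : ℕ} (hp : p ≠ 0) {C r : W} (hr : r ≠ C) : (pre p C 1 r).card = p := by
  have h1 := card_pre hp (c := C) 1 (x := r) (by
    intro i hi y hy
    obtain rfl : i = 0 := by omega
    rw [Function.iterate_zero_apply] at hy
    rw [hy]
    exact hr)
  rw [h1, pow_one]

theorem sum_pre_one {p : ℕ} (hp : 2 ≤ p) {C r : W} (hr : r ≠ C) : ∑ z ∈ pre p C 1 r, z = 0 := by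
  have hp0 : p ≠ 0 := by omega
  have h1 := prod_X_sub_C_nextCoeff (s := pre p C 1 r) (fun z : W => z)
  rw [prod_pre_one hp0 hr, nextCoeff_of_natDegree_pos (by rw [natDegree_X_pow_sub_C]; omega),
    natDegree_X_pow_sub_C, coeff_sub, coeff_X_pow, if_neg (by omega), coeff_C, if_neg (by omega)] at h1
  rw [sub_zero, eq_comm, neg_eq_zero] at h1
  exact h1

end tree

section val

variable {K W : Type*} [Field K] [Field W] [Algebra K W] [IsAlgClosed W] [CharZero W]
  {Γ : Type*} [LinearOrderedCommGroupWithZero Γ]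

theorem le_of_pow_le' {p : ℕ} (hp : p ≠ 0) {a b : Γ} (h : a ^ p ≤ b ^ p) : a ≤ b :=
  (pow_le_pow_iff_left₀ zero_le zero_le hp).1 h

theorem lt_of_pow_lt' {p : ℕ} (hp : p ≠ 0) {a b : Γ} (h : a ^ p < b ^ p) : a < b :=
  (pow_lt_pow_iff_left₀ zero_le zero_le hp).1 h

omit [CharZero W] in
/-- a bound for the values on the levels -/
theorem exists_bound {p : ℕ} (hp : p ≠ 0) (v : Valuation W Γ) {C : W} (hC : v C ≤ 1) (β : W) :
    ∃ M : ℕ → Γ, (∀ j, 1 ≤ M j) ∧ (∀ j, M (j + 1) ^ p = M j) ∧ M 0 = max 1 (v β) ∧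
      ∀ j, ∀ x, (uf p C)^[j] x = β → v x ≤ M j := by
  have hrt : ∀ x : W, ∃ y, y ^ p = x - C :=
    fun x => IsAlgClosed.exists_pow_nat_eq _ (Nat.pos_of_ne_zero hp)
  choose rt hrt using hrt
  set z : ℕ → W := fun j => rt^[j] β with hz
  have hz1 : ∀ j, z (j + 1) ^ p = z j - C := by
    intro j
    show (rt^[j + 1] β) ^ p = _
    rw [Function.iterate_succ_apply', hrt]
  have hsq : ∀ j, (max 1 (v (z (j + 1)))) ^ p = max 1 (v (z j)) := by
    intro j
    have h1 : v (z (j + 1)) ^ p = v (z j - C) := by rw [← map_pow, hz1]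
    rcases le_or_gt (v (z j)) 1 with h | h
    · have h2 : v (z (j + 1)) ^ p ≤ 1 := by
        rw [h1]
        exact (v.map_sub _ _).trans (max_le h hC)
      have h3 : v (z (j + 1)) ≤ 1 := (pow_le_one_iff hp).1 h2
      rw [max_eq_left h3, max_eq_left h, one_pow]
    · have h2 : v (z j - C) = v (z j) := Valuation.map_sub_eq_of_lt_left _ (lt_of_le_of_lt hC h)
      have h3 : 1 < v (z (j + 1)) := by
        by_contra h4
        rw [not_lt] at h4
        have h5 : v (z (j + 1)) ^ p ≤ 1 := pow_le_one' h4 p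
        rw [h1, h2] at h5
        exact absurd h (not_lt.2 h5)
      rw [max_eq_right h3.le, max_eq_right h.le, h1, h2]
  refine ⟨fun j => max 1 (v (z j)), fun j => le_max_left _ _, hsq, rfl, ?_⟩
  intro j
  induction j with
  | zero =>
    intro x hx
    have h1 : x = β := hx
    rw [h1]
    exact le_max_right _ _
  | succ j ih =>
    intro x hx
    rw [Function.iterate_succ_apply] at hx
    have h1 := ih _ hx
    apply le_of_pow_le' hp
    rw [hsq j, ← map_pow]
    have h2 : x ^ p = uf p C x - C := by simp [uf]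
    rw [h2]
    exact (v.map_sub _ _).trans (max_le h1 (hC.trans (le_max_left _ _)))

omit [IsAlgClosed W] [CharZero W] in
theorem orbit_le_one {p : ℕ} (v : Valuation W Γ) {C : W} (hC : v C ≤ 1) (n : ℕ) :
    v ((uf p C)^[n] 0) ≤ 1 := by
  induction n with
  | zero => simp
  | succ n ih =>
    rw [Function.iterate_succ_apply']
    refine (v.map_add _ _).trans (max_le ?_ hC)
    rw [map_pow]
    exact pow_le_one' ih p

/-- the recurrences and the bounds -/
theorem TT_bound {p : ℕ} (hp : p.Prime) (hp2 : p ≠ 2) (v : Valuation W Γ) (hvp : v (p : W) < 1)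
    {c b : K} (hb : ∀ n, 1 ≤ n → (uf p c)^[n] 0 ≠ b) (hC : v (algebraMap K W c) ≤ 1) {m : ℕ}
    {E : W → W} (hE : ∀ y ∈ Lev p W c b m, E y ^ p = (uf p (algebraMap K W c))^[2] 0 - y)
    {M : ℕ → Γ} (hM1 : ∀ j, 1 ≤ M j) (hM2 : ∀ j, M (j + 1) ^ p = M j)
    (hM : ∀ j, ∀ x ∈ Lev p W c b j, v x ≤ M j) {ε : Γ} (hε1 : ε ≤ 1) (hε : ε ^ p = v (p : W)) (k : ℕ) :
    (∀ i j, j + k + i = m → ∀ r ∈ Lev p W c b j,
      v (TT p (algebraMap K W c) E k i r) ≤ M (j + k + 1)) ∧
    (∀ i j, j + (k + 1) + i = m → ∀ r ∈ Lev p W c b j,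
      v (TT p (algebraMap K W c) E (k + 1) i r ^ p + p * TT p (algebraMap K W c) E k (i + 1) r
        - p ^ (k + 1) * (uf p (algebraMap K W c))^[i + 2] 0) ≤ v (p : W) * (ε ^ 2 * M (j + k + 1))) ∧
    (∀ i j, j + (k + 1) + i = m → ∀ r ∈ Lev p W c b j,
      v (TT p (algebraMap K W c) E (k + 1) i r) ^ p ≤ v (p : W) * M (j + k + 1)) := by
  have hp0 := hp.ne_zero
  have hq := orbit_le_one (p := p) v hC
  have hε2 : v (p : W) ≤ ε ^ 2 := by
    rw [← hε]
    exact pow_le_pow_right_of_le_one' hε1 hp.two_le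
  have hvp1 : v (p : W) ≤ 1 := hvp.le
  -- (B) from (N) and (D)
  have hBD : ∀ k, (∀ i j, j + k + i = m → ∀ r ∈ Lev p W c b j,
      v (TT p (algebraMap K W c) E k i r) ≤ M (j + k + 1)) →
    (∀ i j, j + (k + 1) + i = m → ∀ r ∈ Lev p W c b j,
      v (TT p (algebraMap K W c) E (k + 1) i r ^ p + p * TT p (algebraMap K W c) E k (i + 1) r
        - p ^ (k + 1) * (uf p (algebraMap K W c))^[i + 2] 0) ≤ v (p : W) * (ε ^ 2 * M (j + k + 1))) →
    (∀ i j, j + (k + 1) + i = m → ∀ r ∈ Lev p W c b j,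
      v (TT p (algebraMap K W c) E (k + 1) i r) ^ p ≤ v (p : W) * M (j + k + 1)) := by
    intro k hN hD i j hj r hr
    have h1 := hD i j hj r hr
    have h2 := hN (i + 1) j (by omega) r hr
    rw [← map_pow]
    have h3 : TT p (algebraMap K W c) E (k + 1) i r ^ p
        = (TT p (algebraMap K W c) E (k + 1) i r ^ p + p * TT p (algebraMap K W c) E k (i + 1) r
          - p ^ (k + 1) * (uf p (algebraMap K W c))^[i + 2] 0)
        - (p * TT p (algebraMap K W c) E k (i + 1) r
          - p ^ (k + 1) * (uf p (algebraMap K W c))^[i + 2] 0) := by ring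
    rw [h3]
    refine (v.map_sub _ _).trans (max_le (h1.trans ?_) ((v.map_sub _ _).trans (max_le ?_ ?_)))
    · exact mul_le_mul' le_rfl (mul_le_of_le_one_left' (pow_le_one' hε1 2))
    · rw [map_mul]
      exact mul_le_mul' le_rfl h2
    · rw [map_mul, map_pow, pow_succ, mul_comm (v (p : W) ^ k), mul_assoc]
      refine mul_le_mul' le_rfl ?_
      exact (mul_le_one' (pow_le_one' hvp1 k) (hq _)).trans (hM1 _)
  induction k with
  | zero =>
    have hN : ∀ i j, j + 0 + i = m → ∀ r ∈ Lev p W c b j,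
        v (TT p (algebraMap K W c) E 0 i r) ≤ M (j + 0 + 1) := by
      intro i j hj r hr
      rw [TT_zero hp0]
      apply le_of_pow_le' hp0
      rw [add_zero, hM2, ← map_pow, SS_pow hp0 hb hE (by omega) hr]
      exact (v.map_sub _ _).trans (max_le ((hq _).trans (hM1 _)) (hM j r hr))
    have hD : ∀ i j, j + (0 + 1) + i = m → ∀ r ∈ Lev p W c b j,
        v (TT p (algebraMap K W c) E (0 + 1) i r ^ p + p * TT p (algebraMap K W c) E 0 (i + 1) r
          - p ^ (0 + 1) * (uf p (algebraMap K W c))^[i + 2] 0) ≤ v (p : W) * (ε ^ 2 * M (j + 0 + 1)) := by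
      intro i j hj r hr
      have hrC : r ≠ algebraMap K W c := ne_of_Lev hp0 hb hr
      set S := pre p (algebraMap K W c) 1 r with hS
      set a := (uf p (algebraMap K W c))^[i + 2] 0 with ha
      have hSL : ∀ z ∈ S, z ∈ Lev p W c b (j + 1) := fun z hz => mem_pre_Lev hp0 hr hz
      have ht : ∀ z ∈ S, SS p (algebraMap K W c) E i z ^ p = a - z := fun z hz =>
        SS_pow hp0 hb hE (by omega) (hSL z hz)
      have hcard : S.card = p := card_pre_one hp0 hrC
      have hBz : ∀ z ∈ S, v (SS p (algebraMap K W c) E i z) ≤ M (j + 2) := by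
        intro z hz
        apply le_of_pow_le' hp0
        rw [show j + 2 = (j + 1) + 1 from rfl, hM2, ← map_pow, ht z hz]
        exact (v.map_sub _ _).trans (max_le ((hq _).trans (hM1 _)) (hM _ z (hSL z hz)))
      have h1 := v_newton v hp hp2 hvp S hcard (SS p (algebraMap K W c) E i) (ε := ε) (B := M (j + 2))
        hε1 (fun n hn1 hnp => v_esymm v hp S hcard _ a (r - algebraMap K W c)
          (prod_pre_one hp0 hrC) ht (hq _) hε (hM1 _) hBz n hn1 hnp)
      rw [show j + 2 = (j + 1) + 1 from rfl, hM2] at h1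
      have h2 : ∑ z ∈ S, SS p (algebraMap K W c) E i z ^ p = p * a := by
        rw [sum_congr rfl ht, sum_sub_distrib, sum_pre_one hp.two_le hrC, sub_zero, sum_const, hcard,
          nsmul_eq_mul]
      rw [h2, ← SS_succ hp0] at h1
      rw [zero_add, pow_one, add_zero, TT_succ hp0, TT_zero hp0]
      simp only [TT_zero hp0]
      exact h1
    exact ⟨hN, hD, hBD 0 hN hD⟩
  | succ k ih =>
    obtain ⟨ihN, ihD, ihB⟩ := ih
    have hN : ∀ i j, j + (k + 1) + i = m → ∀ r ∈ Lev p W c b j,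
        v (TT p (algebraMap K W c) E (k + 1) i r) ≤ M (j + (k + 1) + 1) := by
      intro i j hj r hr
      apply le_of_pow_le' hp0
      rw [hM2, ← add_assoc]
      exact (ihB i j hj r hr).trans (mul_le_of_le_one_left' hvp1)
    have hD : ∀ i j, j + (k + 1 + 1) + i = m → ∀ r ∈ Lev p W c b j,
        v (TT p (algebraMap K W c) E (k + 1 + 1) i r ^ p + p * TT p (algebraMap K W c) E (k + 1) (i + 1) r
          - p ^ (k + 1 + 1) * (uf p (algebraMap K W c))^[i + 2] 0)
            ≤ v (p : W) * (ε ^ 2 * M (j + (k + 1) + 1)) := by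
      intro i j hj r hr
      have hrC : r ≠ algebraMap K W c := ne_of_Lev hp0 hb hr
      set S := pre p (algebraMap K W c) 1 r with hS
      set a := (uf p (algebraMap K W c))^[i + 2] 0 with ha
      have hSL : ∀ z ∈ S, z ∈ Lev p W c b (j + 1) := fun z hz => mem_pre_Lev hp0 hr hz
      have hcard : S.card = p := card_pre_one hp0 hrC
      have hBz : ∀ z ∈ S, v (TT p (algebraMap K W c) E (k + 1) i z) ≤ ε * M (j + (k + 1) + 2) := by
        intro z hz
        apply le_of_pow_le' hp0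
        have h1 := ihB i (j + 1) (by omega) z (hSL z hz)
        rw [mul_pow, hε, show j + (k + 1) + 2 = (j + 1 + k + 1) + 1 by omega, hM2]
        exact h1
      have h1 := v_sum_pow v hp S (TT p (algebraMap K W c) E (k + 1) i) hBz
      rw [← TT_succ hp0, mul_pow, hε, show j + (k + 1) + 2 = (j + (k + 1) + 1) + 1 from rfl, hM2] at h1
      have h2 : ∑ z ∈ S, TT p (algebraMap K W c) E (k + 1) i z ^ p
          = (∑ z ∈ S, (TT p (algebraMap K W c) E (k + 1) i z ^ p
              + p * TT p (algebraMap K W c) E k (i + 1) z - p ^ (k + 1) * a))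
            - p * TT p (algebraMap K W c) E (k + 1) (i + 1) r + p ^ (k + 1 + 1) * a := by
        rw [TT_succ hp0 _ _ k (i + 1) r, sum_sub_distrib, sum_add_distrib, ← mul_sum, sum_const, hcard,
          nsmul_eq_mul]
        ring
      have h3 : v (∑ z ∈ S, (TT p (algebraMap K W c) E (k + 1) i z ^ p
              + p * TT p (algebraMap K W c) E k (i + 1) z - p ^ (k + 1) * a))
            ≤ v (p : W) * (ε ^ 2 * M (j + (k + 1) + 1)) := by
        refine v.map_sum_le fun z hz => ?_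
        have h4 := ihD i (j + 1) (by omega) z (hSL z hz)
        rw [show j + 1 + k + 1 = j + (k + 1) + 1 by omega] at h4
        exact h4
      have h5 : TT p (algebraMap K W c) E (k + 1 + 1) i r ^ p
          + p * TT p (algebraMap K W c) E (k + 1) (i + 1) r - p ^ (k + 1 + 1) * a
          = (TT p (algebraMap K W c) E (k + 1 + 1) i r ^ p
              - ∑ z ∈ S, TT p (algebraMap K W c) E (k + 1) i z ^ p)
            + ∑ z ∈ S, (TT p (algebraMap K W c) E (k + 1) i z ^ p
              + p * TT p (algebraMap K W c) E k (i + 1) z - p ^ (k + 1) * a) := by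
        rw [h2]
        ring
      rw [h5]
      refine (v.map_add _ _).trans (max_le (h1.trans (mul_le_mul' le_rfl ?_)) h3)
      exact mul_le_mul' hε2 le_rfl
    exact ⟨hN, hD, hBD (k + 1) hN hD⟩

end val

end Pool.Agent.ORB.UOdd
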