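import Pool.Agent.ORB.UOddB

/-!
ORB, Theorem V for `x ^ p + c`, `p` odd: the exact values of the traces at the bottom.
-/

set_option autoImplicit false

namespace Pool.Agent.ORB.UOdd

open Finset Polynomial UQ

universe u

section val

variable {K W : Type*} [Field K] [Field W] [Algebra K W] [IsAlgClosed W] [CharZero W]
  {Γ : Type*} [LinearOrderedCommGroupWithZero Γ]

omit [IsAlgClosed W] [CharZero W] in
/-- the value of a difference from the difference of the `p`-th powers -/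
theorem diff_val {p : ℕ} (hp : p.Prime) (v : Valuation W Γ) {a s z : W} (h : s ^ p = a ^ p - z ^ p)
    {B lam : Γ} (ha : v a ≤ B) (hs : v s ≤ B) (hlam : lam ^ (p - 1) = v (p : W))
    (hz : lam * B < v z) : v (a - s) = v z := by
  have hp0 := hp.ne_zero
  have hp2 := hp.two_le
  set δ := a - s with hδ
  have hδB : v δ ≤ B := (v.map_sub _ _).trans (max_le ha hs)
  have h1 := v_add_pow v hp hs hδB
  have h2 : s + δ = a := by rw [hδ]; ring
  rw [h2] at h1
  have h3 : z ^ p = δ ^ p + (a ^ p - (s ^ p + δ ^ p)) := by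
    rw [h]
    ring
  have hR : v (a ^ p - (s ^ p + δ ^ p)) ≤ (lam * B) ^ (p - 1) * v δ := by
    refine h1.trans ?_
    rw [mul_pow, hlam, mul_assoc (v (p : W))]
    refine mul_le_mul' le_rfl ?_
    have h4 : B ^ (p - 1) = B * B ^ (p - 2) := by
      rw [← pow_succ']
      congr 1
      omega
    rw [h4, mul_assoc, mul_comm (v δ), ← mul_assoc]
    exact mul_le_mul' (mul_le_mul' hs le_rfl) le_rfl
  have hpow : ∀ x : Γ, x ^ p = x ^ (p - 1) * x := by
    intro x
    rw [← pow_succ]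
    congr 1
    omega
  rcases le_or_gt (v δ) (lam * B) with hle | hgt
  · exfalso
    have h4 : v (z ^ p) ≤ (lam * B) ^ (p - 1) * v δ := by
      rw [h3]
      refine (v.map_add _ _).trans (max_le ?_ hR)
      rw [map_pow, hpow]
      exact mul_le_mul' (pow_le_pow_left' hle _) le_rfl
    have h5 : (lam * B) ^ p < v z ^ p := pow_lt_pow_left₀ hz zero_le hp0
    rw [← map_pow] at h5
    refine absurd (lt_of_lt_of_le h5 h4) (not_lt.2 ?_)
    rw [hpow (lam * B)]
    exact mul_le_mul' le_rfl hle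
  · have hδ0 : 0 < v δ := lt_of_le_of_lt zero_le hgt
    have h4 : v (a ^ p - (s ^ p + δ ^ p)) < v (δ ^ p) := by
      refine lt_of_le_of_lt hR ?_
      rw [map_pow, hpow (v δ)]
      exact mul_lt_mul_of_pos_right (pow_lt_pow_left₀ hgt zero_le (by omega)) hδ0
    have h5 : v z ^ p = v δ ^ p := by
      rw [← map_pow, h3, Valuation.map_add_eq_of_lt_left _ h4, map_pow]
    exact le_antisymm (le_of_pow_le' hp0 h5.ge) (le_of_pow_le' hp0 h5.le)

/-- **the exact values of the traces at the bottom** -/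
theorem TT_exact {p : ℕ} (hp : p.Prime) (hp2 : p ≠ 2) (v : Valuation W Γ) (hvp : v (p : W) < 1)
    {c b : K} (hb : ∀ n, 1 ≤ n → (uf p c)^[n] 0 ≠ b) (hC : v (algebraMap K W c) ≤ 1) {m : ℕ}
    {E : W → W} (hE : ∀ y ∈ Lev p W c b m, E y ^ p = (uf p (algebraMap K W c))^[2] 0 - y)
    {M : ℕ → Γ} (hM1 : ∀ j, 1 ≤ M j) (hM2 : ∀ j, M (j + 1) ^ p = M j)
    (hM : ∀ j, ∀ x ∈ Lev p W c b j, v x ≤ M j) {ε lam : Γ} (hε1 : ε ≤ 1) (hε : ε ^ p = v (p : W))
    (hlam : lam ^ (p - 1) = v (p : W)) (hεl : ε ^ 2 ≤ lam) {z : W}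
    (hz : z ^ p = algebraMap K W b - algebraMap K W c) (hzl : lam * M 1 < v z) (k : ℕ) :
    ∀ i, k + 1 + i = m →
      lam * M (k + 2) < v (TT p (algebraMap K W c) E (k + 1) i (algebraMap K W b)) ∧
      (v (TT p (algebraMap K W c) E (k + 1) i (algebraMap K W b)) / lam) ^ p ^ (k + 1)
        = v z / lam := by
  have hp0 := hp.ne_zero
  have hp1 := hp.two_le
  set C : W := algebraMap K W c with hCdef
  set β : W := algebraMap K W b with hβdef
  have hβL : β ∈ Lev p W c b 0 := rfl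
  have vp0 : v (p : W) ≠ 0 := by
    rw [Valuation.ne_zero_iff]
    exact_mod_cast hp0
  have vppos : 0 < v (p : W) := zero_lt_iff.2 vp0
  have hlam0 : lam ≠ 0 := by
    intro h
    rw [h, zero_pow (by omega)] at hlam
    exact vp0 hlam.symm
  have hlp : lam ^ p = v (p : W) * lam := by
    rw [← hlam, ← pow_succ]
    congr 1
    omega
  -- the common step
  have hstep : ∀ k i : ℕ, ∀ y : Γ, lam * M (k + 1) < y →
      v (TT p C E (k + 1) i β) ^ p = v (p : W) * y →
      lam * M (k + 2) < v (TT p C E (k + 1) i β) ∧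
        (v (TT p C E (k + 1) i β) / lam) ^ p = y / lam := by
    intro k i y hy h
    constructor
    · apply lt_of_pow_lt' hp0
      rw [h, mul_pow, show k + 2 = (k + 1) + 1 from rfl, hM2, hlp, mul_assoc]
      exact mul_lt_mul_of_pos_left hy vppos
    · rw [div_pow, h, hlp, mul_div_mul_left _ _ vp0]
  induction k with
  | zero =>
    intro i hi
    have h2 := SS_pow hp0 hb hE (i := i + 1) (j := 0) (by omega) hβL
    have h1 := (TT_bound hp hp2 v hvp hb hC hE hM1 hM2 hM hε1 hε 0).2.1 i 0 (by omega) β hβL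
    rw [TT_zero hp0, zero_add, pow_one, ← hCdef] at h1
    set a : W := (uf p C)^[i + 2] 0 with ha
    set S : W := SS p C E (i + 1) β with hS
    have h3 : S ^ p = a ^ p - z ^ p := by
      rw [hz, h2, show i + 1 + 2 = (i + 2) + 1 from rfl, Function.iterate_succ_apply', ← hCdef, ← ha,
        uf]
      ring
    have hvS : v S ≤ M 1 := by
      apply le_of_pow_le' hp0
      rw [← map_pow, h2, show (1 : ℕ) = 0 + 1 from rfl, hM2]
      exact (v.map_sub _ _).trans (max_le ((orbit_le_one v hC _).trans (hM1 _)) (hM 0 β hβL))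
    have h4 := diff_val hp v h3 ((orbit_le_one v hC _).trans (hM1 1)) hvS hlam hzl
    have h5 : v (TT p C E (0 + 1) i β) ^ p = v (p : W) * v z := by
      have h6 : TT p C E 1 i β ^ p = (TT p C E 1 i β ^ p + p * S - p * a) + p * (a - S) := by ring
      rw [zero_add, ← map_pow, h6, Valuation.map_add_eq_of_lt_right, map_mul, h4]
      rw [map_mul, h4]
      refine lt_of_le_of_lt h1 (mul_lt_mul_of_pos_left (lt_of_le_of_lt ?_ hzl) vppos)
      exact mul_le_mul' hεl le_rfl
    obtain ⟨h6, h7⟩ := hstep 0 i (v z) (by rw [zero_add]; exact hzl) h5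
    refine ⟨h6, ?_⟩
    rw [zero_add, pow_one]
    rw [zero_add] at h7
    exact h7
  | succ k ih =>
    intro i hi
    obtain ⟨ih1, ih2⟩ := ih (i + 1) (by omega)
    have h1 := (TT_bound hp hp2 v hvp hb hC hE hM1 hM2 hM hε1 hε (k + 1)).2.1 i 0 (by omega) β hβL
    rw [zero_add, ← hCdef] at h1
    set T : W := TT p C E (k + 1) (i + 1) β with hT
    set a : W := (uf p C)^[i + 2] 0 with ha
    have h5 : v (TT p C E (k + 1 + 1) i β) ^ p = v (p : W) * v T := by
      have h6 : TT p C E (k + 1 + 1) i β ^ p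
          = ((TT p C E (k + 1 + 1) i β ^ p + p * T - p ^ (k + 1 + 1) * a) + p ^ (k + 1 + 1) * a)
            - p * T := by ring
      have h7 : v (p * T) = v (p : W) * v T := map_mul _ _ _
      rw [← map_pow, h6, Valuation.map_sub_eq_of_lt_right, h7]
      rw [h7]
      refine lt_of_le_of_lt (v.map_add _ _) (max_lt ?_ ?_)
      · refine lt_of_le_of_lt h1 (mul_lt_mul_of_pos_left (lt_of_le_of_lt ?_ ih1) vppos)
        rw [show k + 1 + 1 = k + 2 from rfl]
        exact mul_le_mul' hεl le_rfl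
      · rw [map_mul, map_pow, pow_succ', mul_assoc]
        refine mul_lt_mul_of_pos_left (lt_of_le_of_lt ?_ ih1) vppos
        have h8 : v (p : W) ≤ lam := by
          refine le_trans ?_ hεl
          rw [← hε]
          exact pow_le_pow_right_of_le_one' hε1 hp1
        have h9 : v (p : W) ^ (k + 1) ≤ lam := by
          rw [pow_succ]
          exact (mul_le_of_le_one_left' (pow_le_one' hvp.le _)).trans h8
        exact mul_le_mul' h9 ((orbit_le_one v hC _).trans (hM1 _))
    obtain ⟨h6, h7⟩ := hstep (k + 1) i (v T) ih1 h5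
    refine ⟨h6, ?_⟩
    rw [pow_succ p (k + 1), mul_comm (p ^ (k + 1)) p, pow_mul, h7]
    exact ih2

/-- **the core**: a trivial level above a flip makes a value highly divisible -/
theorem trace_core {K W : Type u} [Field K] [Field W] [Algebra K W] [IsAlgClosed W] [CharZero W]
    [Algebra.IsAlgebraic K W] {Γ : Type*} [LinearOrderedCommGroupWithZero Γ]
    {p : ℕ} (hp : p.Prime) (hp2 : p ≠ 2) (v : Valuation W Γ) (hvp : v (p : W) < 1)
    {ζ c b : K} (hζ : IsPrimitiveRoot ζ p)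
    (hfix : ∀ x : W, (∀ g : W ≃ₐ[K] W, g x = x) → ∃ a : K, algebraMap K W a = x)
    (hb : ∀ n, 1 ≤ n → (uf p c)^[n] 0 ≠ b) (hC : v (algebraMap K W c) ≤ 1)
    (hvb : v (p : W) ^ p * max 1 (v (algebraMap K W b)) ^ (p - 1)
      < v (algebraMap K W b - algebraMap K W c) ^ (p - 1))
    {m : ℕ} (hT : ∀ l, Tran p W c b l) (hF : FlipAt p ζ W c b (m + 1))
    (htr : ¬ Nontriv p W c b (m + 2)) :
    ∃ a : K, v (algebraMap K W a ^ (p - 1) / p) ^ p ^ (m + 2)
      = v ((algebraMap K W b - algebraMap K W c) ^ (p - 1) / p ^ p) := by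
  have hp0 := hp.ne_zero
  have hp1 := hp.two_le
  obtain ⟨E, hE⟩ := equiv_root hp hζ hb hT hF htr
  have hE1 : ∀ y ∈ Lev p W c b (m + 1), E y ^ p = (uf p (algebraMap K W c))^[2] 0 - y := by
    intro y hy
    rw [(hE y hy).1, uf_map, map_zero]
  have hE2 : ∀ g : W ≃ₐ[K] W, ∀ y ∈ Lev p W c b (m + 1), g (E y) = E (g y) :=
    fun g y hy => (hE y hy).2 g
  obtain ⟨M, hM1, hM2, hM0, hM⟩ := exists_bound hp0 v hC (algebraMap K W b)
  obtain ⟨ϖ, hϖ⟩ : ∃ ϖ : W, ϖ ^ (p * (p - 1)) = (p : W) :=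
    IsAlgClosed.exists_pow_nat_eq _ (Nat.mul_pos hp.pos (by omega))
  obtain ⟨z, hz⟩ : ∃ z : W, z ^ p = algebraMap K W b - algebraMap K W c :=
    IsAlgClosed.exists_pow_nat_eq _ hp.pos
  have vp0 : v (p : W) ≠ 0 := by
    rw [Valuation.ne_zero_iff]
    exact_mod_cast hp0
  have hvϖ : v ϖ ^ (p * (p - 1)) = v (p : W) := by rw [← map_pow, hϖ]
  have hϖ1 : v ϖ ≤ 1 := by
    by_contra h
    rw [not_le] at h
    have h1 : 1 < v ϖ ^ (p * (p - 1)) := one_lt_pow₀ h (Nat.mul_ne_zero hp0 (by omega))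
    rw [hvϖ] at h1
    exact absurd h1 (not_lt.2 hvp.le)
  set lam := v ϖ ^ p with hlamdef
  set ε := v ϖ ^ (p - 1) with hεdef
  have hlam : lam ^ (p - 1) = v (p : W) := by rw [hlamdef, ← pow_mul, hvϖ]
  have hε : ε ^ p = v (p : W) := by rw [hεdef, ← pow_mul, mul_comm, hvϖ]
  have hε1 : ε ≤ 1 := pow_le_one' hϖ1 _
  have hεl : ε ^ 2 ≤ lam := by
    rw [hεdef, hlamdef, ← pow_mul]
    exact pow_le_pow_right_of_le_one' hϖ1 (by omega)
  have hlam0 : lam ≠ 0 := by
    intro h
    rw [h, zero_pow (by omega)] at hlam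
    exact vp0 hlam.symm
  have hlp : lam ^ p = v (p : W) * lam := by
    rw [← hlam, ← pow_succ]
    congr 1
    omega
  have hzl : lam * M 1 < v z := by
    apply lt_of_pow_lt' (p := p * (p - 1)) (Nat.mul_ne_zero hp0 (by omega))
    rw [pow_mul, pow_mul, ← map_pow v z, hz, mul_pow, show (1 : ℕ) = 0 + 1 from rfl, hM2, hM0, hlp,
      zero_add, mul_pow, mul_pow, hlam, ← pow_succ, show p - 1 + 1 = p by omega]
    exact hvb
  obtain ⟨-, h5⟩ := TT_exact hp hp2 v hvp hb hC hE1 hM1 hM2 (fun j x hx => hM j x hx) hε1 hε hlam hεl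
    hz hzl m 0 (by omega)
  obtain ⟨a, ha⟩ := hfix (TT p (algebraMap K W c) E (m + 1) 0 (algebraMap K W b)) (fun g => by
    rw [TT_equiv hp0 hE2 (j := 0) (by omega) rfl g, g.commutes])
  refine ⟨a, ?_⟩
  rw [ha]
  set T := TT p (algebraMap K W c) E (m + 1) 0 (algebraMap K W b) with hTdef
  have h6 : v (T ^ (p - 1) / p) = (v T / lam) ^ (p - 1) := by
    rw [map_div₀, map_pow, div_pow, hlam]
  have h7 : v ((algebraMap K W b - algebraMap K W c) ^ (p - 1) / p ^ p)
      = ((v z / lam) ^ p) ^ (p - 1) := by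
    rw [map_div₀, map_pow, map_pow, div_pow, div_pow, ← map_pow v z, hz, hlp, mul_pow, hlam, ← pow_succ,
      show p - 1 + 1 = p by omega]
  rw [h6, h7, ← h5, ← pow_mul, ← pow_mul, ← pow_mul, show m + 2 = (m + 1) + 1 from rfl,
    pow_succ p (m + 1)]
  congr 1
  ring

end val

end Pool.Agent.ORB.UOdd
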