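import Mathlib

/-!
ORB, unicritical maps: the size of `x - y`, `y ^ p = x ^ p + d`, at one absolute value.
-/

set_option autoImplicit false

namespace Pool.Agent.ORB.UQ

open Filter Finset

variable {F : Type*} [Field F]

theorem geom_ne {p : ℕ} {d x y : F} (hd : d ≠ 0) (h : y ^ p = x ^ p + d) :
    (∑ i ∈ range p, x ^ i * y ^ (p - 1 - i)) * (x - y) = -d ∧ x - y ≠ 0 := by
  have h1 : (∑ i ∈ range p, x ^ i * y ^ (p - 1 - i)) * (x - y) = -d := by
    rw [geom_sum₂_mul, h]
    ring
  refine ⟨h1, ?_⟩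
  intro h0
  rw [h0, mul_zero] at h1
  exact hd (neg_eq_zero.1 h1.symm)

/-- bounded arguments -/
theorem log_bounded (A : AbsoluteValue F ℝ) {p : ℕ} (hp : 1 ≤ p) {d : F} (hd : d ≠ 0) (B : ℝ) :
    ∃ C : ℝ, ∀ x y : F, A x ≤ B → y ^ p = x ^ p + d → |Real.log (A (x - y))| ≤ C := by
  have hd0 : 0 < A d := A.pos hd
  set B' : ℝ := |B| + A d + 1 with hB'
  have hBn := abs_nonneg B
  have hB1 : 1 ≤ B' := by linarith
  set CG : ℝ := p * B' ^ (p - 1) with hCG
  have hp0 : (0 : ℝ) < p := by exact_mod_cast hp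
  have hCG0 : 0 < CG := by positivity
  refine ⟨|Real.log (A d / CG)| + |Real.log (2 * B')|, fun x y hx h => ?_⟩
  obtain ⟨hG, hne⟩ := geom_ne hd h
  have hxB : A x ≤ B' := by have := le_abs_self B; linarith
  have hyB : A y ≤ B' := by
    by_contra hcon
    rw [not_le] at hcon
    have hy1 : 1 ≤ A y := by linarith
    have hyp : 1 ≤ A y ^ (p - 1) := one_le_pow₀ hy1
    have h1 : A y ^ p = A y ^ (p - 1) * A y := by
      rw [← pow_succ, Nat.sub_add_cancel hp]
    have h2 : A y ^ p ≤ |B| ^ p + A d := by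
      rw [← map_pow, h]
      refine (A.add_le _ _).trans ?_
      rw [map_pow]
      have := pow_le_pow_left₀ (A.nonneg x) (hx.trans (le_abs_self B)) p
      linarith
    have h3 : |B| ^ p ≤ A y ^ (p - 1) * |B| := by
      have h4 : |B| ^ p = |B| ^ (p - 1) * |B| := by rw [← pow_succ, Nat.sub_add_cancel hp]
      rw [h4]
      exact mul_le_mul_of_nonneg_right (pow_le_pow_left₀ hBn (by linarith) _) hBn
    have h5 : A d ≤ A y ^ (p - 1) * A d := by nlinarith
    have h6 : A y ^ (p - 1) * (|B| + A d) < A y ^ (p - 1) * A y := by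
      refine mul_lt_mul_of_pos_left ?_ (by linarith)
      linarith
    rw [h1] at h2
    linarith [h6, h3, h5]
  have hAG : A (∑ i ∈ range p, x ^ i * y ^ (p - 1 - i)) ≤ CG := by
    refine (A.sum_le _ _).trans ?_
    rw [hCG, ← nsmul_eq_mul]
    have h1 : ∀ i ∈ range p, A (x ^ i * y ^ (p - 1 - i)) ≤ B' ^ (p - 1) := by
      intro i hi
      rw [mem_range] at hi
      rw [map_mul, map_pow, map_pow]
      calc A x ^ i * A y ^ (p - 1 - i) ≤ B' ^ i * B' ^ (p - 1 - i) :=
            mul_le_mul (pow_le_pow_left₀ (A.nonneg _) hxB _) (pow_le_pow_left₀ (A.nonneg _) hyB _)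
              (pow_nonneg (A.nonneg _) _) (by positivity)
        _ = B' ^ (p - 1) := by rw [← pow_add]; congr 1; omega
    have h2 := Finset.sum_le_card_nsmul _ _ _ h1
    rw [card_range] at h2
    exact h2
  have hprod : A (∑ i ∈ range p, x ^ i * y ^ (p - 1 - i)) * A (x - y) = A d := by
    rw [← map_mul, hG, A.map_neg]
  have hpos : 0 < A (x - y) := A.pos hne
  have hlow : A d / CG ≤ A (x - y) := by
    rw [div_le_iff₀ hCG0, ← hprod, mul_comm]
    exact mul_le_mul_of_nonneg_left hAG hpos.le
  have hup : A (x - y) ≤ 2 * B' := by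
    have := A.sub_le_add x y
    linarith
  have hl := Real.log_le_log (by positivity) hlow
  have hu := Real.log_le_log hpos hup
  rw [abs_le]
  have e1 := neg_abs_le (Real.log (A d / CG))
  have e2 := le_abs_self (Real.log (2 * B'))
  have e3 := abs_nonneg (Real.log (A d / CG))
  have e4 := abs_nonneg (Real.log (2 * B'))
  constructor <;> linarith

/-- large arguments: the order is `1` or `1 - p` -/
theorem log_escape [CharZero F] (A : AbsoluteValue F ℝ) {p : ℕ} (hp : 1 ≤ p) {d : F} (hd : d ≠ 0) :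
    ∃ C M : ℝ, ∀ x y : F, M ≤ A x → y ^ p = x ^ p + d →
      ∃ o : ℤ, (o = 1 ∨ o = 1 - p) ∧ |Real.log (A (x - y)) - o * Real.log (A x)| ≤ C := by
  have hd0 : 0 < A d := A.pos hd
  have hp0 : (0 : ℝ) < p := by exact_mod_cast hp
  have hpF : (p : F) ≠ 0 := by exact_mod_cast (by omega : p ≠ 0)
  have hAp : 0 < A p := A.pos hpF
  set Q : ℝ := p * (p * 2 ^ p) with hQ
  have hQ0 : 0 < Q := by positivity
  set κ : ℝ := min 1 (A p / (2 * Q)) with hκ
  have hκ0 : 0 < κ := lt_min one_pos (by positivity)
  have hκ1 : κ ≤ 1 := min_le_left _ _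
  have hκ2 : κ * Q ≤ A p / 2 := by
    have h1 : κ ≤ A p / (2 * Q) := min_le_right _ _
    calc κ * Q ≤ A p / (2 * Q) * Q := mul_le_mul_of_nonneg_right h1 hQ0.le
      _ = A p / 2 := by field_simp
  set C1 : ℝ := |Real.log κ| + |Real.log 3| with hC1
  set C2 : ℝ := |Real.log (A d)| + |Real.log (A p / 2)| + |Real.log (A p + A p / 2)| with hC2
  refine ⟨C1 + C2, 1 + A d, fun x y hx h => ?_⟩
  obtain ⟨hG, hne⟩ := geom_ne hd h
  have hx1 : 1 ≤ A x := by linarith
  have hx0 : 0 < A x := by linarith
  have hxne : x ≠ 0 := by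
    rintro rfl
    rw [map_zero] at hx1
    linarith
  have hpos : 0 < A (x - y) := A.pos hne
  have hC1' : 0 ≤ C1 := by positivity
  have hC2' : 0 ≤ C2 := by positivity
  rcases le_or_gt (A (x - y)) (κ * A x) with hs | hs
  · refine ⟨1 - p, Or.inr rfl, ?_⟩
    set e : F := (x - y) / x with he
    have hAe : A e ≤ κ := by
      rw [he, map_div₀, div_le_iff₀ hx0]
      exact hs
    have hy : y = x * (1 - e) := by
      rw [he]
      field_simp
      ring
    set S : F := ∑ i ∈ range p, (1 - e) ^ (p - 1 - i) with hS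
    have hGS : ∑ i ∈ range p, x ^ i * y ^ (p - 1 - i) = x ^ (p - 1) * S := by
      rw [hS, mul_sum]
      refine sum_congr rfl fun i hi => ?_
      rw [mem_range] at hi
      rw [hy, mul_pow, ← mul_assoc, ← pow_add]
      congr 2
      omega
    have hpow : ∀ i ≤ p, A ((1 - e) ^ i - 1) ≤ κ * (p * 2 ^ p) := by
      intro i hi
      have h1 : (1 - e) ^ i - 1 = (∑ m ∈ range i, (1 - e) ^ m) * (-e) := by
        have := geom_sum_mul (1 - e) i
        rw [← this]
        ring
      have h1e : A (1 - e) ≤ 2 := by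
        refine (A.sub_le_add _ _).trans ?_
        rw [map_one]
        linarith
      have h2 : A (∑ m ∈ range i, (1 - e) ^ m) ≤ p * 2 ^ p := by
        refine (A.sum_le _ _).trans ?_
        have h3 : ∀ m ∈ range i, A ((1 - e) ^ m) ≤ 2 ^ p := by
          intro m hm
          rw [mem_range] at hm
          rw [map_pow]
          calc A (1 - e) ^ m ≤ 2 ^ m := pow_le_pow_left₀ (A.nonneg _) h1e m
            _ ≤ 2 ^ p := pow_le_pow_right₀ (by norm_num) (by omega)
        have h4 := Finset.sum_le_card_nsmul _ _ _ h3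
        rw [card_range, nsmul_eq_mul] at h4
        refine h4.trans ?_
        refine mul_le_mul_of_nonneg_right ?_ (by positivity)
        exact_mod_cast hi
      rw [h1, map_mul, A.map_neg, mul_comm]
      exact mul_le_mul hAe h2 (A.nonneg _) hκ0.le
    have hSp : A (S - p) ≤ A p / 2 := by
      have h1 : S - p = ∑ i ∈ range p, ((1 - e) ^ (p - 1 - i) - 1) := by
        rw [sum_sub_distrib, sum_const, card_range, nsmul_eq_mul, mul_one]
      rw [h1]
      refine (A.sum_le _ _).trans ?_
      have h2 : ∀ i ∈ range p, A ((1 - e) ^ (p - 1 - i) - 1) ≤ κ * (p * 2 ^ p) :=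
        fun i _ => hpow _ (by omega)
      have h3 := Finset.sum_le_card_nsmul _ _ _ h2
      rw [card_range, nsmul_eq_mul] at h3
      refine h3.trans (le_trans (le_of_eq ?_) hκ2)
      rw [hQ]
      ring
    have hSlow : A p / 2 ≤ A S := by
      have h1 : A p ≤ A S + A (S - p) := by
        have h2 : (p : F) = S - (S - p) := by ring
        conv_lhs => rw [h2]
        exact A.sub_le_add _ _
      linarith
    have hSup : A S ≤ A p + A p / 2 := by
      have h2 : S = p + (S - p) := by ring
      rw [h2]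
      refine (A.add_le _ _).trans ?_
      linarith
    have hS0 : 0 < A S := by linarith
    have hprod : A x ^ (p - 1) * A S * A (x - y) = A d := by
      rw [← map_pow, ← map_mul, ← hGS, ← map_mul, hG, A.map_neg]
    have hlog : Real.log (A (x - y)) = Real.log (A d) - (p - 1) * Real.log (A x) - Real.log (A S) := by
      have h1 := congrArg Real.log hprod
      rw [Real.log_mul (by positivity) hpos.ne', Real.log_mul (by positivity) hS0.ne', Real.log_pow,
        Nat.cast_sub hp, Nat.cast_one] at h1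
      linarith
    have hl := Real.log_le_log (by positivity) hSlow
    have hu := Real.log_le_log hS0 hSup
    rw [hlog]
    push_cast
    have e0 := abs_le.1 (le_refl |Real.log (A d)|)
    have e1 := neg_abs_le (Real.log (A p / 2))
    have e2 := le_abs_self (Real.log (A p + A p / 2))
    have e3 := abs_nonneg (Real.log (A p / 2))
    have e4 := abs_nonneg (Real.log (A p + A p / 2))
    rw [abs_le]
    constructor
    · linarith [e0.1]
    · linarith [e0.2]
  · refine ⟨1, Or.inl rfl, ?_⟩
    have hyle : A y ≤ 2 * A x := by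
      have h1 : A y ^ p ≤ (2 * A x) ^ p := by
        rw [← map_pow, h]
        refine (A.add_le _ _).trans ?_
        rw [map_pow, mul_pow]
        have h2 : A x ≤ A x ^ p := by
          calc A x = A x ^ 1 := (pow_one _).symm
            _ ≤ A x ^ p := pow_le_pow_right₀ hx1 hp
        have h3 : (2 : ℝ) ≤ 2 ^ p := by
          calc (2 : ℝ) = 2 ^ 1 := (pow_one _).symm
            _ ≤ 2 ^ p := pow_le_pow_right₀ (by norm_num) hp
        nlinarith
      exact le_of_pow_le_pow_left₀ (by omega) (by positivity) h1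
    have hup : A (x - y) ≤ 3 * A x := by
      have := A.sub_le_add x y
      linarith
    have hl := Real.log_le_log (by positivity) hs.le
    have hu := Real.log_le_log hpos hup
    rw [Real.log_mul hκ0.ne' hx0.ne'] at hl
    rw [Real.log_mul (by norm_num) hx0.ne'] at hu
    push_cast
    rw [one_mul]
    have e1 := neg_abs_le (Real.log κ)
    have e2 := le_abs_self (Real.log 3)
    have e3 := abs_nonneg (Real.log κ)
    have e4 := abs_nonneg (Real.log 3)
    rw [abs_le]
    constructor <;> linarith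

/-- an orbit of `X^p + c` is bounded or escapes -/
theorem dichotomy_p (A : AbsoluteValue F ℝ) {p : ℕ} (hp : 2 ≤ p) (c : F) (x : ℕ → F)
    (hx : ∀ n, x (n + 1) = x n ^ p + c) :
    (∃ B : ℝ, ∀ n, A (x n) ≤ B) ∨ Tendsto (fun n => A (x n)) atTop atTop := by
  by_cases h : ∃ n, 2 + A c < A (x n)
  · right
    obtain ⟨n0, hn0⟩ := h
    have hc := A.nonneg c
    have step : ∀ n, 2 + A c < A (x n) → 2 * A (x n) ≤ A (x (n + 1)) := by
      intro n hn
      have h1 : A (x n) ^ p ≤ A (x (n + 1)) + A c := by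
        have h2 : x n ^ p = x (n + 1) - c := by rw [hx]; ring
        rw [← map_pow, h2]
        exact A.sub_le_add _ _
      have h3 : A (x n) ^ 2 ≤ A (x n) ^ p := pow_le_pow_right₀ (by linarith) hp
      nlinarith
    have hall : ∀ j : ℕ, 2 + A c < A (x (n0 + j)) ∧ 2 ^ j ≤ A (x (n0 + j)) := by
      intro j
      induction j with
      | zero => exact ⟨hn0, by rw [pow_zero, add_zero]; linarith⟩
      | succ j ih =>
        have h1 := step _ ih.1
        rw [← add_assoc]
        refine ⟨by linarith [ih.1], ?_⟩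
        rw [pow_succ]
        linarith [ih.2]
    have h2 : Tendsto (fun j : ℕ => A (x (n0 + j))) atTop atTop :=
      tendsto_atTop_mono (fun j => (hall j).2) (tendsto_pow_atTop_atTop_of_one_lt one_lt_two)
    have h3 : Tendsto (fun n : ℕ => A (x (n + n0))) atTop atTop := by
      simpa [add_comm] using h2
    exact (tendsto_add_atTop_iff_nat n0).1 h3
  · left
    push Not at h
    exact ⟨2 + A c, h⟩

/-- growth along an escaping orbit -/
theorem log_orbit (A : AbsoluteValue F ℝ) {p : ℕ} (hp : 1 ≤ p) (c : F) (x : ℕ → F)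
    (hx : ∀ n, x (n + 1) = x n ^ p + c) (hinf : Tendsto (fun n => A (x n)) atTop atTop) (i : ℕ) :
    ∃ C : ℝ, ∃ n0 : ℕ, ∀ n, n0 ≤ n →
      |Real.log (A (x (n + i))) - p ^ i * Real.log (A (x n))| ≤ C := by
  have hc := A.nonneg c
  have hp0 : (0 : ℝ) < p := by exact_mod_cast hp
  obtain ⟨n0, hn0⟩ := Filter.eventually_atTop.1 (hinf.eventually_ge_atTop (1 + 2 * A c))
  have step : ∀ n, n0 ≤ n → |Real.log (A (x (n + 1))) - p * Real.log (A (x n))| ≤ Real.log 2 := by
    intro n hn
    have h1 := hn0 n hn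
    have h1' : 1 ≤ A (x n) := by linarith
    have h2 : A (x n) ≤ A (x n) ^ p := by
      calc A (x n) = A (x n) ^ 1 := (pow_one _).symm
        _ ≤ A (x n) ^ p := pow_le_pow_right₀ h1' hp
    have hlow : A (x n) ^ p / 2 ≤ A (x (n + 1)) := by
      have h3 : A (x n) ^ p ≤ A (x (n + 1)) + A c := by
        have h4 : x n ^ p = x (n + 1) - c := by rw [hx]; ring
        rw [← map_pow, h4]
        exact A.sub_le_add _ _
      linarith
    have hup : A (x (n + 1)) ≤ A (x n) ^ p * 2 := by
      rw [hx]
      refine (A.add_le _ _).trans ?_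
      rw [map_pow]
      linarith
    have hP : 0 < A (x n) ^ p := by linarith
    have hpos : 0 < A (x (n + 1)) := by linarith
    have hl := Real.log_le_log (by positivity) hlow
    have hu := Real.log_le_log hpos hup
    rw [Real.log_div hP.ne' (by norm_num), Real.log_pow] at hl
    rw [Real.log_mul hP.ne' (by norm_num), Real.log_pow] at hu
    rw [abs_le]
    constructor <;> linarith
  induction i with
  | zero => exact ⟨0, 0, fun n _ => by simp⟩
  | succ i ih =>
    obtain ⟨C, n1, h⟩ := ih
    refine ⟨Real.log 2 + p * C, max n0 n1, fun n hn => ?_⟩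
    have h1 := step (n + i) (((le_max_left _ _).trans hn).trans (Nat.le_add_right _ _))
    have h2 := h n ((le_max_right _ _).trans hn)
    have e : Real.log (A (x (n + (i + 1)))) - p ^ (i + 1) * Real.log (A (x n))
        = (Real.log (A (x (n + i + 1))) - p * Real.log (A (x (n + i))))
          + p * (Real.log (A (x (n + i))) - p ^ i * Real.log (A (x n))) := by
      rw [← add_assoc]
      ring
    rw [e]
    refine (abs_add_le _ _).trans (add_le_add h1 ?_)
    rw [abs_mul, abs_of_pos hp0]
    exact mul_le_mul_of_nonneg_left h2 hp0.le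

/-- the order of one factor -/
theorem order_factor [CharZero F] (A : AbsoluteValue F ℝ) {p : ℕ} (hp : 2 ≤ p) (c : F) (x : ℕ → F)
    (hx : ∀ n, x (n + 1) = x n ^ p + c) {d : F} (hd : d ≠ 0) (i : ℕ) :
    ∃ C : ℝ, ∃ n0 : ℕ, ∀ n, n0 ≤ n → ∀ y : F, y ^ p = x (n + i) ^ p + d →
      ∃ o : ℤ, |o| ≤ p ∧ |Real.log (A (x (n + i) - y)) - o * (p ^ i * Real.log (A (x n)))| ≤ C := by
  have hp1 : 1 ≤ p := by omega
  rcases dichotomy_p A hp c x hx with ⟨B, hB⟩ | hinf
  · obtain ⟨C, hC⟩ := log_bounded A hp1 hd B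
    refine ⟨C, 0, fun n _ y hy => ⟨0, by simp, ?_⟩⟩
    rw [Int.cast_zero, zero_mul, sub_zero]
    exact hC _ _ (hB _) hy
  · obtain ⟨C, M, hC⟩ := log_escape A hp1 hd
    obtain ⟨C', n0, hC'⟩ := log_orbit A hp1 c x hx hinf i
    obtain ⟨n1, hn1⟩ := Filter.eventually_atTop.1 (hinf.eventually_ge_atTop M)
    refine ⟨C + p * C', max n0 n1, fun n hn y hy => ?_⟩
    obtain ⟨o, ho, h1⟩ := hC (x (n + i)) y
      (hn1 _ (((le_max_right _ _).trans hn).trans (Nat.le_add_right _ _))) hy
    have h2 := hC' n ((le_max_left _ _).trans hn)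
    have hop : |o| ≤ p := by
      rcases ho with rfl | rfl
      · rw [abs_one]
        exact_mod_cast hp1
      · rw [abs_le]
        constructor <;> omega
    refine ⟨o, hop, ?_⟩
    have e : Real.log (A (x (n + i) - y)) - o * (p ^ i * Real.log (A (x n)))
        = (Real.log (A (x (n + i) - y)) - o * Real.log (A (x (n + i))))
          + o * (Real.log (A (x (n + i))) - p ^ i * Real.log (A (x n))) := by ring
    rw [e]
    refine (abs_add_le _ _).trans (add_le_add h1 ?_)
    rw [abs_mul]
    have h3 : |(o : ℝ)| ≤ p := by exact_mod_cast hop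
    exact mul_le_mul h3 h2 (abs_nonneg _) (by positivity)

/-- the order of a product over a finite set -/
theorem order_prod [CharZero F] (A : AbsoluteValue F ℝ) {p : ℕ} (hp : 2 ≤ p) (c : F) (x : ℕ → F)
    (hx : ∀ n, x (n + 1) = x n ^ p + c) (S : Finset F) (hS : ∀ s ∈ S, s ≠ c) (i : ℕ) :
    ∃ C : ℝ, ∃ n0 : ℕ, ∀ n, n0 ≤ n → ∀ y : F → F, (∀ s ∈ S, y s ^ p = x (n + i) ^ p + (c - s)) →
      ∃ t : ℤ, |t| ≤ S.card * p ∧
        |Real.log (A (∏ s ∈ S, (x (n + i) - y s))) - t * (p ^ i * Real.log (A (x n)))| ≤ C := by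
  classical
  induction S using Finset.induction_on with
  | empty => exact ⟨0, 0, fun n _ y _ => ⟨0, by simp, by simp⟩⟩
  | insert s S hsS ih =>
    obtain ⟨C, n0, h⟩ := ih fun s' hs' => hS s' (mem_insert_of_mem hs')
    have hd : c - s ≠ 0 := sub_ne_zero.2 (hS s (mem_insert_self _ _)).symm
    obtain ⟨C', n1, h'⟩ := order_factor A hp c x hx hd i
    refine ⟨C' + C, max n0 n1, fun n hn y hy => ?_⟩
    obtain ⟨t, ht, h1⟩ := h n ((le_max_left _ _).trans hn) y fun s' hs' => hy s' (mem_insert_of_mem hs')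
    obtain ⟨o, ho, h2⟩ := h' n ((le_max_right _ _).trans hn) (y s) (hy s (mem_insert_self _ _))
    refine ⟨o + t, ?_, ?_⟩
    · rw [card_insert_of_notMem hsS]
      refine (abs_add_le _ _).trans ?_
      push_cast
      linarith
    · rw [prod_insert hsS, map_mul, Real.log_mul]
      · have e : Real.log (A (x (n + i) - y s)) + Real.log (A (∏ s ∈ S, (x (n + i) - y s)))
            - ((o + t : ℤ) : ℝ) * (p ^ i * Real.log (A (x n)))
            = (Real.log (A (x (n + i) - y s)) - o * (p ^ i * Real.log (A (x n))))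
              + (Real.log (A (∏ s ∈ S, (x (n + i) - y s))) - t * (p ^ i * Real.log (A (x n)))) := by
          push_cast
          ring
        rw [e]
        exact (abs_add_le _ _).trans (add_le_add h2 h1)
      · rw [Ne, AbsoluteValue.eq_zero]
        exact (geom_ne hd (hy s (mem_insert_self _ _))).2
      · rw [Ne, AbsoluteValue.eq_zero, prod_eq_zero_iff]
        push Not
        intro s' hs'
        exact (geom_ne (sub_ne_zero.2 (hS s' (mem_insert_of_mem hs')).symm)
          (hy s' (mem_insert_of_mem hs'))).2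

end Pool.Agent.ORB.UQ
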