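import Pool.Agent.ORB.GoodPrime
import Pool.Agent.ORB.VWinB
import Pool.Agent.ORB.URungeB

/-!
# ORB V+, row U4 (part 1): Runge's method for `W ^ q = H(x_n)` with `W` close to `x_n ^ D` at every
escaping place
-/

set_option autoImplicit false

open Polynomial Filter NumberField IsDedekindDomain

namespace Pool.Agent.ORB.URoot

open VWin

section algebra

variable {F : Type*} [Field F]

/-- the second order error of a power -/
theorem expand_deg (S T : F[X]) {D j : ℕ} (hS : S.natDegree ≤ D) (hT : T.natDegree ≤ j)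
    (hj : j ≤ D) (m : ℕ) :
    ((S + T) ^ (m + 2) - S ^ (m + 2) - ((m + 2 : ℕ) : F[X]) * S ^ (m + 1) * T).natDegree
      ≤ m * D + 2 * j := by
  induction m with
  | zero =>
    have e : (S + T) ^ (0 + 2) - S ^ (0 + 2) - ((0 + 2 : ℕ) : F[X]) * S ^ (0 + 1) * T = T ^ 2 := by
      push_cast
      ring
    rw [e]
    refine (natDegree_pow_le).trans ?_
    omega
  | succ m ih =>
    have e : (S + T) ^ (m + 1 + 2) - S ^ (m + 1 + 2) - ((m + 1 + 2 : ℕ) : F[X]) * S ^ (m + 1 + 1) * T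
        = (S + T) * ((S + T) ^ (m + 2) - S ^ (m + 2) - ((m + 2 : ℕ) : F[X]) * S ^ (m + 1) * T)
          + ((m + 2 : ℕ) : F[X]) * S ^ (m + 1) * T ^ 2 := by
      push_cast
      ring
    rw [e]
    refine (natDegree_add_le _ _).trans (max_le ?_ ?_)
    · refine natDegree_mul_le.trans ?_
      have h1 : (S + T).natDegree ≤ D := (natDegree_add_le _ _).trans (max_le hS (hT.trans hj))
      have h2 : (m + 1) * D = m * D + D := by ring
      omega
    · refine natDegree_mul_le.trans ?_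
      have h1 : (((m + 2 : ℕ) : F[X]) * S ^ (m + 1)).natDegree ≤ (m + 1) * D := by
        refine natDegree_mul_le.trans ?_
        rw [natDegree_natCast, zero_add]
        exact natDegree_pow_le.trans (Nat.mul_le_mul_left _ hS)
      have h2 : (T ^ 2).natDegree ≤ 2 * j := natDegree_pow_le.trans (Nat.mul_le_mul_left _ hT)
      omega

/-- the polynomial part of the `q`-th root: one coefficient after the other -/
theorem approx_root {q : ℕ} (hq2 : 2 ≤ q) (hqF : (q : F) ≠ 0) {H : F[X]} {D : ℕ} (hH : H.Monic)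
    (hd : H.natDegree = q * D) (k : ℕ) (hk : k ≤ D) :
    ∃ S : F[X], S.Monic ∧ S.natDegree = D ∧ ∀ i, q * D - k ≤ i → (H - S ^ q).coeff i = 0 := by
  obtain ⟨m, rfl⟩ : ∃ m, q = m + 2 := ⟨q - 2, by omega⟩
  induction k with
  | zero =>
    refine ⟨X ^ D, monic_X_pow D, natDegree_X_pow D, fun i hi => ?_⟩
    rw [← pow_mul, coeff_sub, coeff_X_pow]
    rcases eq_or_ne i (D * (m + 2)) with rfl | hne
    · rw [if_pos rfl, mul_comm D, ← hd, hH.coeff_natDegree, sub_self]
    · rw [mul_comm D] at hne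
      rw [mul_comm D, if_neg hne, coeff_eq_zero_of_natDegree_lt (by omega), sub_self]
  | succ k ih =>
    obtain ⟨S, hS, hSD, hc⟩ := ih (by omega)
    obtain ⟨j, hj⟩ : ∃ j, D = j + (k + 1) := ⟨D - (k + 1), by omega⟩
    have hjD : j < D := by omega
    have hmul : (m + 2) * D = (m + 1) * D + D := by ring
    have hmul' : (m + 1) * D = m * D + D := by ring
    set a : F := (H - S ^ (m + 2)).coeff ((m + 1) * D + j) with ha
    set T : F[X] := C (a / ((m + 2 : ℕ) : F)) * X ^ j with hT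
    have hdeg : T.degree < S.degree := by
      refine (degree_C_mul_X_pow_le j _).trans_lt ?_
      rw [degree_eq_natDegree hS.ne_zero, hSD]
      exact_mod_cast hjD
    have hnat : (S + T).natDegree = D := by
      rw [natDegree_eq_of_degree_eq (degree_add_eq_left_of_degree_lt hdeg), hSD]
    have hTj : T.natDegree ≤ j := natDegree_C_mul_X_pow_le _ _
    refine ⟨S + T, hS.add_of_left hdeg, hnat, fun i hi => ?_⟩
    have hE := expand_deg S T hSD.le hTj hjD.le m
    set E : F[X] := (S + T) ^ (m + 2) - S ^ (m + 2) - ((m + 2 : ℕ) : F[X]) * S ^ (m + 1) * T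
      with hEdef
    have e : H - (S + T) ^ (m + 2)
        = (H - S ^ (m + 2)) - C a * (X ^ j * S ^ (m + 1)) - E := by
      have h3 : (C a : F[X]) = ((m + 2 : ℕ) : F[X]) * C (a / ((m + 2 : ℕ) : F)) := by
        rw [← C_eq_natCast, ← C_mul, mul_div_cancel₀ a hqF]
      rw [hEdef, h3, hT]
      ring
    have hSm : (S ^ (m + 1)).Monic := hS.pow _
    have hSmd : (S ^ (m + 1)).natDegree = (m + 1) * D := by rw [hS.natDegree_pow, hSD]
    rw [e, coeff_sub, coeff_sub, coeff_C_mul, coeff_X_pow_mul', if_pos (by omega : j ≤ i),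
      coeff_eq_zero_of_natDegree_lt (by omega : E.natDegree < i), sub_zero]
    rcases eq_or_ne i ((m + 1) * D + j) with rfl | hne
    · rw [Nat.add_sub_cancel, ← ha]
      have h1 : (S ^ (m + 1)).coeff ((m + 1) * D) = 1 := by rw [← hSmd]; exact hSm.coeff_natDegree
      rw [h1, mul_one, sub_self]
    · rw [hc i (by omega), coeff_eq_zero_of_natDegree_lt (by omega : (S ^ (m + 1)).natDegree < i - j),
        mul_zero, sub_zero]

/-- powers of elements close to `1` -/
theorem near_pow (A : AbsoluteValue F ℝ) {δ : ℝ} (hδ0 : 0 ≤ δ) (hδ : δ ≤ 1) {u : F}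
    (hu : A (u - 1) ≤ δ) (i : ℕ) : A (u ^ i - 1) ≤ (2 ^ i - 1) * δ ∧ A (u ^ i) ≤ 2 ^ i := by
  have hu2 : A u ≤ 2 := by
    have h1 : A u ≤ A (u - 1) + A 1 := by
      have h2 : u = (u - 1) + 1 := by ring
      conv_lhs => rw [h2]
      exact A.add_le _ _
    rw [map_one] at h1
    linarith
  have hpow : ∀ i : ℕ, A (u ^ i) ≤ 2 ^ i := by
    intro i
    rw [map_pow]
    exact pow_le_pow_left₀ (A.nonneg _) hu2 i
  refine ⟨?_, hpow i⟩
  induction i with
  | zero => simp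
  | succ i ih =>
    have e : u ^ (i + 1) - 1 = (u ^ i - 1) * u + (u - 1) := by ring
    have h0 : (0 : ℝ) ≤ 2 ^ i - 1 := by
      have : (1 : ℝ) ≤ 2 ^ i := one_le_pow₀ (by norm_num)
      linarith
    rw [e]
    refine (A.add_le _ _).trans ?_
    rw [map_mul]
    have h1 : A (u ^ i - 1) * A u ≤ ((2 ^ i - 1) * δ) * 2 :=
      mul_le_mul ih hu2 (A.nonneg _) (mul_nonneg h0 hδ0)
    rw [pow_succ]
    nlinarith

/-- the geometric sum of elements close to `1` is close to `q` -/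
theorem near_geom (A : AbsoluteValue F ℝ) {q : ℕ} (hqF : (q : F) ≠ 0) :
    ∃ δ : ℝ, 0 < δ ∧ δ ≤ 1 ∧ ∀ u s : F, A (u - 1) ≤ δ → A (s - 1) ≤ δ →
      A q / 2 ≤ A (∑ i ∈ Finset.range q, u ^ i * s ^ (q - 1 - i)) := by
  have hAq : 0 < A q := A.pos hqF
  have hq0 : q ≠ 0 := by
    rintro rfl
    simp at hqF
  have hqR : (0 : ℝ) < q := by exact_mod_cast Nat.pos_of_ne_zero hq0
  set δ : ℝ := min 1 (A q / (2 * (q * 4 ^ q))) with hδ
  have hδ0 : 0 < δ := lt_min one_pos (by positivity)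
  have hδ1 : δ ≤ 1 := min_le_left _ _
  have hδ2 : q * 4 ^ q * δ ≤ A q / 2 := by
    have h1 : δ ≤ A q / (2 * (q * 4 ^ q)) := min_le_right _ _
    calc q * 4 ^ q * δ ≤ q * 4 ^ q * (A q / (2 * (q * 4 ^ q))) :=
          mul_le_mul_of_nonneg_left h1 (by positivity)
      _ = A q / 2 := by field_simp
  refine ⟨δ, hδ0, hδ1, fun u s hu hs => ?_⟩
  have hterm : ∀ i ∈ Finset.range q, A (u ^ i * s ^ (q - 1 - i) - 1) ≤ 4 ^ q * δ := by
    intro i hi
    rw [Finset.mem_range] at hi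
    obtain ⟨h1, h2⟩ := near_pow A hδ0.le hδ1 hu i
    obtain ⟨h3, h4⟩ := near_pow A hδ0.le hδ1 hs (q - 1 - i)
    have e : u ^ i * s ^ (q - 1 - i) - 1 = u ^ i * (s ^ (q - 1 - i) - 1) + (u ^ i - 1) := by ring
    rw [e]
    refine (A.add_le _ _).trans ?_
    rw [map_mul]
    have hb1 : (2 : ℝ) ^ i ≤ 2 ^ q := pow_le_pow_right₀ (by norm_num) hi.le
    have hb2 : (2 : ℝ) ^ (q - 1 - i) ≤ 2 ^ q := pow_le_pow_right₀ (by norm_num) (by omega)
    have hb3 : (1 : ℝ) ≤ 2 ^ (q - 1 - i) := one_le_pow₀ (by norm_num)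
    have hb4 : (1 : ℝ) ≤ 2 ^ i := one_le_pow₀ (by norm_num)
    have h5 : A (u ^ i) * A (s ^ (q - 1 - i) - 1) ≤ 2 ^ i * ((2 ^ (q - 1 - i) - 1) * δ) :=
      mul_le_mul h2 h3 (A.nonneg _) (by positivity)
    have h6 : (4 : ℝ) ^ q = 2 ^ q * 2 ^ q := by rw [← mul_pow]; norm_num
    have h7 : (2 : ℝ) ^ i * 2 ^ (q - 1 - i) ≤ 2 ^ q * 2 ^ q :=
      mul_le_mul hb1 hb2 (by positivity) (by positivity)
    have h8 : A (u ^ i) * A (s ^ (q - 1 - i) - 1) + A (u ^ i - 1)
        ≤ (2 ^ i * 2 ^ (q - 1 - i) - 1) * δ := by nlinarith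
    refine h8.trans ?_
    rw [h6]
    nlinarith
  have hsum : A ((∑ i ∈ Finset.range q, u ^ i * s ^ (q - 1 - i)) - q) ≤ A q / 2 := by
    have h1 : (∑ i ∈ Finset.range q, u ^ i * s ^ (q - 1 - i)) - (q : F)
        = ∑ i ∈ Finset.range q, (u ^ i * s ^ (q - 1 - i) - 1) := by
      rw [Finset.sum_sub_distrib, Finset.sum_const, Finset.card_range, nsmul_eq_mul, mul_one]
    rw [h1]
    refine (A.sum_le _ _).trans ?_
    have h3 := Finset.sum_le_card_nsmul _ _ _ hterm
    rw [Finset.card_range, nsmul_eq_mul, ← mul_assoc] at h3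
    exact h3.trans hδ2
  have h2 : A q ≤ A (∑ i ∈ Finset.range q, u ^ i * s ^ (q - 1 - i))
      + A ((∑ i ∈ Finset.range q, u ^ i * s ^ (q - 1 - i)) - q) := by
    have h3 : (q : F) = (∑ i ∈ Finset.range q, u ^ i * s ^ (q - 1 - i))
        - ((∑ i ∈ Finset.range q, u ^ i * s ^ (q - 1 - i)) - q) := by ring
    conv_lhs => rw [h3]
    exact A.sub_le_add _ _
  linarith

/-- at an escaping place `W - S(x)` tends to zero if `W` is close to `x ^ D` -/
theorem small (A : AbsoluteValue F ℝ) {q : ℕ} (hqF : (q : F) ≠ 0) {H S : F[X]} {D : ℕ}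
    (hS : S.Monic) (hSD : S.natDegree = D)
    (hR : ∀ i, (q - 1) * D ≤ i → (H - S ^ q).coeff i = 0) {ε : ℝ} (hε : 0 < ε) :
    ∃ M δ : ℝ, 0 < δ ∧ ∀ x W : F, M ≤ A x → W ^ q = H.eval x → A (W - x ^ D) ≤ δ * A x ^ D →
      A (W - S.eval x) ≤ ε := by
  have hAq : 0 < A q := A.pos hqF
  have hq0 : q ≠ 0 := by
    rintro rfl
    simp at hqF
  obtain ⟨δ, hδ0, hδ1, hgeom⟩ := near_geom A hqF
  obtain ⟨M1, hM1, h1⟩ := eval_asymp A S D hSD.le hδ0
  have hRd : (H - S ^ q).natDegree ≤ (q - 1) * D := by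
    rw [natDegree_le_iff_coeff_eq_zero]
    exact fun i hi => hR i (le_of_lt hi)
  obtain ⟨M2, hM2, h3⟩ := eval_asymp A (H - S ^ q) ((q - 1) * D) hRd
    (by positivity : 0 < ε * (A q / 2))
  refine ⟨max M1 M2, δ, hδ0, fun x W hx hW hle => ?_⟩
  obtain ⟨e1, he1, hp⟩ := h1 x ((le_max_left _ _).trans hx)
  obtain ⟨e2, he2, hr⟩ := h3 x ((le_max_right _ _).trans hx)
  have hx1 : 1 ≤ A x := hM1.trans ((le_max_left _ _).trans hx)
  have hx0 : x ≠ 0 := by
    rintro rfl
    rw [map_zero] at hx1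
    linarith
  have hPc : S.coeff D = 1 := by rw [← hSD]; exact hS.coeff_natDegree
  rw [hPc] at hp
  rw [hR _ le_rfl, zero_add] at hr
  set Z : ℝ := A x ^ D with hZ
  have hZ1 : 1 ≤ Z := one_le_pow₀ hx1
  have hZ0 : 0 < Z := by linarith
  have hxD : x ^ D ≠ 0 := pow_ne_zero _ hx0
  -- normalised quantities
  set u : F := W / x ^ D with hu
  set s : F := 1 + e1 with hs
  have hW' : W = x ^ D * u := by rw [hu]; field_simp
  have hS' : S.eval x = x ^ D * s := hp
  have hu1 : A (u - 1) ≤ δ := by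
    have h4 : u - 1 = (W - x ^ D) / x ^ D := by rw [hu]; field_simp
    rw [h4, map_div₀, map_pow, div_le_iff₀ (by positivity)]
    exact hle
  have hs1 : A (s - 1) ≤ δ := by
    have h4 : s - 1 = e1 := by rw [hs]; ring
    rw [h4]
    exact he1
  have hlow := hgeom u s hu1 hs1
  set G : F := ∑ i ∈ Finset.range q, u ^ i * s ^ (q - 1 - i) with hG
  have hfac : G * (u - s) = u ^ q - s ^ q := by
    rw [hG]
    exact (Commute.all u s).geom_sum₂_mul q
  have hE : (x ^ D) ^ q * (u ^ q - s ^ q) = x ^ ((q - 1) * D) * e2 := by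
    rw [← hr, eval_sub, eval_pow, ← hW, hW', hS', mul_pow, mul_pow]
    ring
  have hE2 : x ^ D * (G * (u - s)) = e2 := by
    have h5 : (x ^ D) ^ q = x ^ ((q - 1) * D) * x ^ D := by
      rw [← pow_mul, ← pow_add]
      congr 1
      obtain ⟨r, rfl⟩ : ∃ r, q = r + 1 := ⟨q - 1, by omega⟩
      rw [Nat.add_sub_cancel]
      ring
    rw [hfac]
    rw [h5, mul_assoc] at hE
    exact mul_left_cancel₀ (pow_ne_zero _ hx0) hE
  have hdiff : W - S.eval x = x ^ D * (u - s) := by rw [hW', hS']; ring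
  have hmul : A (W - S.eval x) * A G ≤ ε * (A q / 2) := by
    rw [hdiff, ← map_mul]
    have h6 : x ^ D * (u - s) * G = e2 := by rw [← hE2]; ring
    rw [h6]
    exact he2
  have h7 : A (W - S.eval x) * (A q / 2) ≤ ε * (A q / 2) :=
    (mul_le_mul_of_nonneg_left hlow (A.nonneg _)).trans hmul
  exact le_of_mul_le_mul_right h7 (by positivity)

/-- at the other places everything is bounded -/
theorem bounded (A : AbsoluteValue F ℝ) {q : ℕ} (hq : q ≠ 0) (H S : F[X]) (B : ℝ) :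
    ∃ C : ℝ, ∀ x W : F, A x ≤ B → W ^ q = H.eval x → A (W - S.eval x) ≤ C := by
  obtain ⟨C1, h1⟩ := eval_bounded A H B
  obtain ⟨C2, h2⟩ := eval_bounded A S B
  refine ⟨max 1 C1 + C2, fun x W hx hW => ?_⟩
  refine (A.sub_le_add _ _).trans (add_le_add ?_ (h2 x hx))
  have h3 : A W ^ q ≤ C1 := by
    rw [← map_pow, hW]
    exact h1 x hx
  by_contra hcon
  push Not at hcon
  have h4 : 1 < A W := (le_max_left _ _).trans_lt hcon
  have h5 : C1 < A W := (le_max_right _ _).trans_lt hcon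
  have h6 : A W ≤ A W ^ q := le_self_pow₀ h4.le hq
  linarith

end algebra

end Pool.Agent.ORB.URoot
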