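import Pool.Agent.ORB.URungeF

/-!
ORB, unicritical maps: equivariant radicals exist only for finitely many terms of a wandering orbit.
-/

set_option autoImplicit false

namespace Pool.Agent.ORB.UQ

open Finset Polynomial NumberField IsDedekindDomain Filter

universe u

theorem inf_fiber {β : Type*} {N : Set ℕ} (hN : N.Infinite) (f : ℕ → β) {S : Set β} (hS : S.Finite)
    (hf : ∀ n ∈ N, f n ∈ S) : ∃ y, {n | n ∈ N ∧ f n = y}.Infinite := by
  by_contra h
  push Not at h
  apply hN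
  refine (hS.biUnion fun y _ => h y).subset ?_
  intro n hn
  exact Set.mem_biUnion (hf n hn) ⟨hn, rfl⟩

theorem finite_ne_one {K : Type*} [Field K] [NumberField K] {x : K} (hx : x ≠ 0) :
    {w : HeightOneSpectrum (𝓞 K) | w.valuation K x ≠ 1}.Finite := by
  refine ((HeightOneSpectrum.Support.finite (𝓞 K) x).union
    (HeightOneSpectrum.Support.finite (𝓞 K) x⁻¹)).subset fun w hw => ?_
  rcases lt_or_gt_of_ne hw with h | h
  · right
    change 1 < w.valuation K x⁻¹
    rw [map_inv₀]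
    exact (one_lt_inv₀ (zero_lt_iff.2 ((w.valuation K).ne_zero_iff.2 hx))).2 h
  · exact Or.inl h

variable {K W : Type u} [Field K] [NumberField K] [Field W] [Algebra K W] [IsAlgClosed W]
  [Algebra.IsAlgebraic K W]

/-- **Level units**: equivariant radicals of the level `k` exist only for finitely many terms. -/
theorem finite_eqrad {p : ℕ} (hp : p.Prime) {c b : K}
    (h0 : Function.Injective fun n : ℕ => (uf p c)^[n] 0)
    (hb : ∀ n, 1 ≤ n → (uf p c)^[n] 0 ≠ b) :
    ∃ k, {n : ℕ | ∃ Y : W → W, EqRad p W c b k ((uf p c)^[n] 0) Y}.Finite := by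
  classical
  have : CharZero W := charZero_of_injective_algebraMap (algebraMap K W).injective
  have hp0 := hp.ne_zero
  have hp2 := hp.two_le
  have hb' : ∀ i y, (uf p (algebraMap K W c))^[i] y = algebraMap K W b → y ≠ algebraMap K W c :=
    fun i y hy => ne_of_Lev hp0 hb hy
  set x : ℕ → K := fun n => (uf p c)^[n] 0 with hxdef
  have hx : ∀ n, x (n + 1) = x n ^ p + c := fun n => Function.iterate_succ_apply' _ _ _
  have hx0 : x 0 = 0 := rfl
  let P := {w : HeightOneSpectrum (𝓞 K) // 1 < w.valuation K c} ⊕ (K →+* ℂ)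
  have hfin0 : {w : HeightOneSpectrum (𝓞 K) | 1 < w.valuation K c}.Finite :=
    HeightOneSpectrum.Support.finite (𝓞 K) c
  have : Fintype {w : HeightOneSpectrum (𝓞 K) // 1 < w.valuation K c} := hfin0.fintype
  let ι : P → HeightOneSpectrum (𝓞 K) ⊕ (K →+* ℂ) := Sum.map Subtype.val id
  set k := Fintype.card P with hk
  have hkpos : 0 < k := Fintype.card_pos
  refine ⟨k, ?_⟩
  by_contra hinf
  set N : Set ℕ := {n : ℕ | ∃ Y : W → W, EqRad p W c b k (x n) Y} with hN
  have hNinf : N.Infinite := hinf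
  choose! Y hY using fun (n : ℕ) (hn : n ∈ N) => (hn : ∃ Y : W → W, EqRad p W c b k (x n) Y)
  have hv0 : ∀ n ∈ N, ∀ j : Fin (k + 1), ∃ v : K, algebraMap K W v =
      lu p (algebraMap K W c) (algebraMap K W b) k (algebraMap K W c) (algebraMap K W (x n)) (Y n) j :=
    fun n hn j => lu_rational hp0 (hY n hn) (Nat.lt_succ_iff.1 j.2)
  choose! v hv using hv0
  have hvne : ∀ n ∈ N, ∀ j : Fin (k + 1), v n j ≠ 0 := by
    intro n hn j hcon
    have h1 := hv n hn j
    rw [hcon, map_zero] at h1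
    have h2 := lu_ne (RingHom.id W) hp0 hb' (Nat.lt_succ_iff.1 j.2) (Z := algebraMap K W (x n))
      (Y := Y n) (fun z hz => by
        rw [mem_pre_Lev hp0] at hz
        exact (hY n hn z hz).1)
    exact h2 h1.symm
  -- the orders at the places of `P`
  choose M C n0 hord using fun (i : P) (j : Fin (k + 1)) =>
    unit_order (W := W) hp2 hb' hx (Nat.lt_succ_iff.1 j.2 : (j : ℕ) ≤ k) (ι i)
  set n1 : ℕ := ∑ i, ∑ j, n0 i j with hn1
  have hn1' : ∀ i j, n0 i j ≤ n1 := fun i j =>
    (single_le_sum (f := fun j => n0 i j) (fun _ _ => Nat.zero_le _) (mem_univ j)).trans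
      (single_le_sum (f := fun i => ∑ j, n0 i j) (fun _ _ => Nat.zero_le _) (mem_univ i))
  set N1 : Set ℕ := N \ {n | n < n1} with hN1
  have hN1inf : N1.Infinite := hNinf.sdiff (Set.finite_lt_nat n1)
  have ht0 : ∀ n ∈ N1, ∀ i j, ∃ t : ℤ, |t| ≤ M i j ∧
      |Real.log (pabv (ι i) (v n j)) - t * (p ^ (k - (j : ℕ)) * Real.log (pabv (ι i) (x n)))| ≤ C i j := by
    intro n hn i j
    exact hord i j n ((hn1' i j).trans (not_lt.1 hn.2)) (Y n) (hY n hn.1) (v n j) (hv n hn.1 j)
  choose! t ht1 ht2 using ht0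
  obtain ⟨τ, hτ⟩ := inf_fiber hN1inf t
    (S := {g : P → Fin (k + 1) → ℤ | ∀ i, g i ∈ {h : Fin (k + 1) → ℤ | ∀ j, h j ∈ Set.Icc (-(M i j : ℤ)) (M i j)}})
    (Set.Finite.pi' fun i => Set.Finite.pi' fun j => Set.finite_Icc _ _)
    (fun n hn i j => abs_le.1 (ht1 n hn i j))
  set N2 : Set ℕ := {n | n ∈ N1 ∧ t n = τ} with hN2
  -- the kernel vector
  obtain ⟨a, ha, haker, -⟩ := Int.Matrix.exists_ne_zero_int_vec_norm_le
    (Matrix.of fun (i : P) (j : Fin (k + 1)) => τ i j * (p : ℤ) ^ (k - (j : ℕ)))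
    (by rw [Fintype.card_fin, ← hk]; exact Nat.lt_succ_self k) (by rw [← hk]; exact hkpos)
  have hker : ∀ i, ∑ j : Fin (k + 1), τ i j * (p : ℤ) ^ (k - (j : ℕ)) * a j = 0 := fun i =>
    congrFun haker i
  set φ : ℕ → K := fun n => ∏ j : Fin (k + 1), v n j ^ a j with hφ
  have hlog : ∀ n ∈ N, ∀ A : AbsoluteValue K ℝ,
      Real.log (A (φ n)) = ∑ j : Fin (k + 1), a j * Real.log (A (v n j)) := by
    intro n hn A
    rw [hφ]
    simp only []
    rw [map_prod, Real.log_prod]
    · refine sum_congr rfl fun j _ => ?_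
      rw [map_zpow₀, Real.log_zpow]
    · intro j _
      rw [map_zpow₀]
      exact zpow_ne_zero _ (A.ne_zero_iff.2 (hvne n hn j))
  have hφne : ∀ n ∈ N, φ n ≠ 0 := fun n hn => prod_ne_zero_iff.2 fun j _ => zpow_ne_zero _ (hvne n hn j)
  -- bounds at all places
  have hexp : ∀ (A : AbsoluteValue K ℝ) (D : ℝ), ∀ n ∈ N, |Real.log (A (φ n))| ≤ D →
      A (φ n) ≤ Real.exp D := by
    intro A D n hn h
    rw [← Real.log_le_iff_le_exp (A.pos (hφne n hn))]
    exact (le_abs_self _).trans h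
  have hP : ∀ i : P, ∃ D : ℝ, ∀ n ∈ N2, pabv (ι i) (φ n) ≤ D := by
    intro i
    refine ⟨Real.exp (∑ j, |(a j : ℝ)| * C i j), fun n hn => hexp _ _ n hn.1.1 ?_⟩
    rw [hlog n hn.1.1]
    have h1 : ∑ j : Fin (k + 1), (a j : ℝ) * Real.log (pabv (ι i) (v n j)) =
        ∑ j : Fin (k + 1), (a j : ℝ) * (Real.log (pabv (ι i) (v n j)) -
          τ i j * (p ^ (k - (j : ℕ)) * Real.log (pabv (ι i) (x n)))) := by
      have h2 : ∑ j : Fin (k + 1), (a j : ℝ) * (τ i j * (p ^ (k - (j : ℕ)) *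
          Real.log (pabv (ι i) (x n)))) = 0 := by
        have h3 := congrArg (fun z : ℤ => (z : ℝ) * Real.log (pabv (ι i) (x n))) (hker i)
        simp only [Int.cast_zero, zero_mul] at h3
        rw [← h3]
        push_cast
        rw [sum_mul]
        exact sum_congr rfl fun j _ => by ring
      rw [← sub_eq_zero, ← sum_sub_distrib]
      rw [← h2]
      exact sum_congr rfl fun j _ => by ring
    rw [h1]
    refine (abs_sum_le_sum_abs _ _).trans (sum_le_sum fun j _ => ?_)
    rw [abs_mul]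
    refine mul_le_mul_of_nonneg_left ?_ (abs_nonneg _)
    have h4 := ht2 n hn.1 i j
    rw [hn.2] at h4
    exact h4
  have hxint : ∀ w : HeightOneSpectrum (𝓞 K), w.valuation K c ≤ 1 → ∀ n, w.valuation K (x n) ≤ 1 := by
    intro w hc n
    induction n with
    | zero => rw [hx0, map_zero]; exact zero_le
    | succ n ih =>
      rw [hx]
      refine ((w.valuation K).map_add _ _).trans (max_le ?_ hc)
      rw [map_pow]
      exact pow_le_one₀ zero_le ih
  have hall : ∀ i : HeightOneSpectrum (𝓞 K) ⊕ (K →+* ℂ), ∃ D : ℝ, ∀ n ∈ N2, pabv i (φ n) ≤ D := by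
    intro i
    rcases i with w | σ
    · by_cases hwc : 1 < w.valuation K c
      · exact hP (Sum.inl ⟨w, hwc⟩)
      · rw [not_lt] at hwc
        choose D hD using fun j : Fin (k + 1) =>
          unit_bdd (W := W) hp2 hb' hx (Nat.lt_succ_iff.1 j.2 : (j : ℕ) ≤ k) (Sum.inl w) (B := 1)
            (fun n => by
              have h1 := (WithZeroMulInt.toNNReal_strictMono
                  (one_lt_two : (1 : NNReal) < 2)).monotone (hxint w hwc n)
              rw [map_one] at h1
              exact_mod_cast h1)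
        refine ⟨Real.exp (∑ j, |(a j : ℝ)| * D j), fun n hn => hexp _ _ n hn.1.1 ?_⟩
        rw [hlog n hn.1.1]
        refine (abs_sum_le_sum_abs _ _).trans (sum_le_sum fun j _ => ?_)
        rw [abs_mul]
        exact mul_le_mul_of_nonneg_left (hD j n (Y n) (hY n hn.1.1) (v n j) (hv n hn.1.1 j))
          (abs_nonneg _)
    · exact hP (Sum.inr σ)
  choose D hD using hall
  -- units outside a finite set
  have hfin1 : {w : HeightOneSpectrum (𝓞 K) | 1 < w.valuation K b}.Finite :=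
    HeightOneSpectrum.Support.finite (𝓞 K) b
  have hjne : ∀ j : Fin (k + 1), (uf p c)^[(j : ℕ)] c - b ≠ 0 := by
    intro j
    rw [sub_ne_zero]
    have h1 := hb (j + 1) (Nat.succ_pos _)
    rw [Function.iterate_succ_apply] at h1
    have h2 : uf p c 0 = c := by simp [uf, hp0]
    rwa [h2] at h1
  have hfin2 : (⋃ j : Fin (k + 1), {w : HeightOneSpectrum (𝓞 K) |
      w.valuation K ((uf p c)^[(j : ℕ)] c - b) ≠ 1}).Finite :=
    Set.finite_iUnion fun j => finite_ne_one (hjne j)
  set S : Finset (HeightOneSpectrum (𝓞 K)) := ((hfin0.union hfin1).union hfin2).toFinset with hS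
  have hSout : ∀ w ∉ S, ∀ n ∈ N2, (w.valuation K) (φ n) ≤ 1 := by
    intro w hw n hn
    rw [hS, Set.Finite.mem_toFinset, Set.mem_union, Set.mem_union, not_or, not_or] at hw
    obtain ⟨⟨h1, h2⟩, h3⟩ := hw
    have h1' : w.valuation K c ≤ 1 := not_lt.1 h1
    have h2' : w.valuation K b ≤ 1 := not_lt.1 h2
    have h3' : ∀ j : Fin (k + 1), w.valuation K ((uf p c)^[(j : ℕ)] c - b) = 1 := by
      intro j
      by_contra h4
      exact h3 (Set.mem_iUnion.2 ⟨j, h4⟩)
    rw [hφ]
    simp only []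
    rw [map_prod]
    refine (prod_eq_one fun j _ => ?_).le
    rw [map_zpow₀, unit_unit (W := W) hp2 hb' hx (Nat.lt_succ_iff.1 j.2) w h1' h2'
      (by rw [hx0, map_zero]; exact zero_le) (h3' j) n (hY n hn.1.1) (hv n hn.1.1 j), one_zpow]
  have hfinφ := finite_bounded (K := K) S
    (∑ w ∈ S, |D (Sum.inl w)| + ∑ σ : K →+* ℂ, |D (Sum.inr σ)|)
  obtain ⟨κ, hκ⟩ := inf_fiber hτ φ hfinφ (fun n hn => by
    refine ⟨fun w hw => hSout w hw n hn, fun w hw => ?_, fun σ => ?_⟩
    · refine (hD (Sum.inl w) n hn).trans ((le_abs_self _).trans ?_)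
      have h1 := single_le_sum (f := fun w => |D (Sum.inl w)|) (fun _ _ => abs_nonneg _) hw
      have h2 : 0 ≤ ∑ σ : K →+* ℂ, |D (Sum.inr σ)| := sum_nonneg fun _ _ => abs_nonneg _
      linarith
    · refine (hD (Sum.inr σ) n hn).trans ((le_abs_self _).trans ?_)
      have h1 := single_le_sum (f := fun σ : K →+* ℂ => |D (Sum.inr σ)|) (fun _ _ => abs_nonneg _)
        (mem_univ σ)
      have h2 : 0 ≤ ∑ w ∈ S, |D (Sum.inl w)| := sum_nonneg fun _ _ => abs_nonneg _
      linarith)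
  set N3 : Set ℕ := {n | n ∈ N2 ∧ φ n = κ} with hN3
  -- the sequence
  let ν : ℕ ↪ N3 := Set.Infinite.natEmbedding N3 hκ
  obtain ⟨j0, hj0⟩ : ∃ j : Fin (k + 1), a j ≠ 0 := Function.ne_iff.1 ha
  have hne : (univ.filter fun j : Fin (k + 1) => a j ≠ 0).Nonempty :=
    ⟨j0, mem_filter.2 ⟨mem_univ _, hj0⟩⟩
  set J : Fin (k + 1) := (univ.filter fun j : Fin (k + 1) => a j ≠ 0).max' hne with hJ
  have hJk : (J : ℕ) ≤ k := Nat.lt_succ_iff.1 J.2
  have haJ : a J ≠ 0 := (mem_filter.1 (max'_mem _ hne)).2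
  have hJmax : ∀ j : Fin (k + 1), J < j → a j = 0 := by
    intro j hj
    by_contra hcon
    exact absurd (le_max' _ j (mem_filter.2 ⟨mem_univ _, hcon⟩)) (not_le.2 hj)
  let a' : ℕ → ℤ := fun j => if h : j < k + 1 then a ⟨j, h⟩ else 0
  have ha' : ∀ j : Fin (k + 1), a' j = a j := fun j => dif_pos j.2
  refine core_seq hp hb' J a' (by rw [ha']; exact haJ)
    (x := fun i => (uf p (algebraMap K W c))^[k - (J : ℕ)] (algebraMap K W (x (ν i))))
    ?_ (Y := fun i s => ∏ z ∈ pre p (algebraMap K W c) (k - (J : ℕ)) s, Y (ν i) z) ?_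
    (t := algebraMap K W κ) ?_
  · intro i i' h
    simp only [← uf_map, orbit_add hx] at h
    have h1 := h0 ((algebraMap K W).injective h)
    have h2 : ((ν i : N3) : ℕ) = (ν i' : N3) := by
      omega
    exact ν.injective (Subtype.ext h2)
  · intro i z hz
    have h1 := radical_pow (RingHom.id W) hp0 hb' hJk (Z := algebraMap K W (x (ν i)))
      (Y := Y (ν i)) (fun z hz => by
        rw [mem_pre_Lev hp0] at hz
        exact (hY (ν i) (ν i).2.1.1.1 z hz).1) hz
    exact h1
  · intro i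
    have h1 := Phi_sub hp0 (algebraMap K W c) (algebraMap K W b) (algebraMap K W c)
      (algebraMap K W (x (ν i))) (Y (ν i)) hJk (a := a') (fun j hj hjk => by
        have := ha' ⟨j, Nat.lt_succ_iff.2 hjk⟩
        rw [this]
        exact hJmax _ hj)
    rw [h1, Phi, prod_range]
    have h2 : φ (ν i) = κ := (ν i).2.2
    rw [← h2, hφ]
    simp only []
    rw [map_prod]
    refine prod_congr rfl fun j _ => ?_
    rw [ha', map_zpow₀, hv (ν i) (ν i).2.1.1.1 j]

end Pool.Agent.ORB.UQ
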