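import Mathlib

set_option autoImplicit false

/-! ORB, Theorem V: valuations on an algebraic closure, adjunction of square roots inside a value
group, and automorphisms which move a given element. -/

namespace Pool.Agent.ORB

open IsDedekindDomain NumberField

/-! ### Extension of a valuation -/

/-- Every valuation ring of `K` is induced by a valuation ring of a bigger field. -/
theorem exists_ext_val {K Ω Γ : Type*} [Field K] [Field Ω] [Algebra K Ω]
    [LinearOrderedCommGroupWithZero Γ] (v : Valuation K Γ) :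
    ∃ A : ValuationSubring Ω, ∀ x : K, A.valuation (algebraMap K Ω x) ≤ 1 ↔ v x ≤ 1 := by
  obtain ⟨A, hA, hloc⟩ := IsLocalRing.exists_factor_valuationRing
    (R := v.valuationSubring) (K := Ω) ((algebraMap K Ω).comp v.valuationSubring.subtype)
  refine ⟨A, fun x => ?_⟩
  rw [ValuationSubring.valuation_le_one_iff]
  constructor
  · intro hx
    by_contra hvx
    rw [not_le] at hvx
    have hx0 : x ≠ 0 := by
      rintro rfl
      rw [map_zero] at hvx
      exact absurd hvx (not_lt.2 zero_le)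
    have hinv : v x⁻¹ < 1 := by
      rw [map_inv₀]
      exact inv_lt_one_of_one_lt₀ hvx
    have hmem : x⁻¹ ∈ v.valuationSubring := hinv.le
    have hun : IsUnit (⟨x⁻¹, hmem⟩ : v.valuationSubring) := by
      apply hloc.map_nonunit
      rw [isUnit_iff_exists_inv]
      refine ⟨⟨algebraMap K Ω x, hx⟩, Subtype.ext ?_⟩
      change algebraMap K Ω x⁻¹ * algebraMap K Ω x = 1
      rw [← map_mul, inv_mul_cancel₀ hx0, map_one]
    obtain ⟨⟨y, hy⟩, e⟩ := isUnit_iff_exists_inv.1 hun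
    have e1 : x⁻¹ * y = 1 := congrArg Subtype.val e
    have hy' : v y ≤ 1 := hy
    have e2 : y = x := by
      field_simp at e1
      exact e1
    rw [e2] at hy'
    exact absurd hvx (not_lt.2 hy')
  · intro hx
    exact hA ⟨x, hx⟩

/-! ### Values in a subgroup -/

section

variable {Ω Γ : Type*} [Field Ω] [LinearOrderedCommGroupWithZero Γ]

/-- `g` is a (non-zero) value in the subgroup `H`. -/
def InH (H : Subgroup Γˣ) (g : Γ) : Prop := ∃ h ∈ H, g = ((h : Γˣ) : Γ)

theorem InH.one (H : Subgroup Γˣ) : InH H (1 : Γ) := ⟨1, H.one_mem, rfl⟩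

theorem InH.mul {H : Subgroup Γˣ} {g g' : Γ} (h : InH H g) (h' : InH H g') : InH H (g * g') := by
  obtain ⟨a, ha, rfl⟩ := h
  obtain ⟨b, hb, rfl⟩ := h'
  exact ⟨a * b, H.mul_mem ha hb, by simp⟩

theorem InH.inv {H : Subgroup Γˣ} {g : Γ} (h : InH H g) : InH H g⁻¹ := by
  obtain ⟨a, ha, rfl⟩ := h
  exact ⟨a⁻¹, H.inv_mem ha, by simp⟩

theorem InH.div {H : Subgroup Γˣ} {g g' : Γ} (h : InH H g) (h' : InH H g') : InH H (g / g') := by
  rw [div_eq_mul_inv]
  exact h.mul h'.inv

theorem InH.pow {H : Subgroup Γˣ} {g : Γ} (h : InH H g) (n : ℕ) : InH H (g ^ n) := by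
  obtain ⟨a, ha, rfl⟩ := h
  exact ⟨a ^ n, H.pow_mem ha n, by simp⟩

theorem InH.ne_zero {H : Subgroup Γˣ} {g : Γ} (h : InH H g) : g ≠ 0 := by
  obtain ⟨a, ha, rfl⟩ := h
  exact a.ne_zero

theorem InH.mono {H H' : Subgroup Γˣ} (hH : H ≤ H') {g : Γ} (h : InH H g) : InH H' g := by
  obtain ⟨a, ha, rfl⟩ := h
  exact ⟨a, hH ha, rfl⟩

/-- All non-zero elements of `M` have their values in `H`. -/
def ValIn (w : Valuation Ω Γ) (H : Subgroup Γˣ) (M : Subfield Ω) : Prop :=
  ∀ x ∈ M, x ≠ 0 → InH H (w x)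

/-- The field generated by `M` and a square root `u` of an element of `M`. -/
def adj (M : Subfield Ω) (u : Ω) (hu : u ^ 2 ∈ M) : Subfield Ω where
  carrier := {x | ∃ p ∈ M, ∃ q ∈ M, x = p + q * u}
  mul_mem' := by
    rintro _ _ ⟨p, hp, q, hq, rfl⟩ ⟨p', hp', q', hq', rfl⟩
    refine ⟨p * p' + q * q' * u ^ 2, M.add_mem (M.mul_mem hp hp') (M.mul_mem (M.mul_mem hq hq') hu),
      p * q' + p' * q, M.add_mem (M.mul_mem hp hq') (M.mul_mem hp' hq), by ring⟩
  one_mem' := ⟨1, M.one_mem, 0, M.zero_mem, by ring⟩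
  add_mem' := by
    rintro _ _ ⟨p, hp, q, hq, rfl⟩ ⟨p', hp', q', hq', rfl⟩
    exact ⟨p + p', M.add_mem hp hp', q + q', M.add_mem hq hq', by ring⟩
  zero_mem' := ⟨0, M.zero_mem, 0, M.zero_mem, by ring⟩
  neg_mem' := by
    rintro _ ⟨p, hp, q, hq, rfl⟩
    exact ⟨-p, M.neg_mem hp, -q, M.neg_mem hq, by ring⟩
  inv_mem' := by
    rintro _ ⟨p, hp, q, hq, rfl⟩
    by_cases h1 : p + q * u = 0
    · exact ⟨0, M.zero_mem, 0, M.zero_mem, by rw [h1]; simp⟩
    by_cases h2 : p - q * u = 0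
    · have h3 : q * u = p := (sub_eq_zero.1 h2).symm
      refine ⟨(p + p)⁻¹, M.inv_mem (M.add_mem hp hp), 0, M.zero_mem, ?_⟩
      rw [h3]
      ring
    · have h3 : p ^ 2 - q ^ 2 * u ^ 2 ≠ 0 := by
        have : p ^ 2 - q ^ 2 * u ^ 2 = (p + q * u) * (p - q * u) := by ring
        rw [this]
        exact mul_ne_zero h1 h2
      have hN : p ^ 2 - q ^ 2 * u ^ 2 ∈ M :=
        M.sub_mem (M.pow_mem hp 2) (M.mul_mem (M.pow_mem hq 2) hu)
      refine ⟨p * (p ^ 2 - q ^ 2 * u ^ 2)⁻¹, M.mul_mem hp (M.inv_mem hN),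
        -q * (p ^ 2 - q ^ 2 * u ^ 2)⁻¹, M.mul_mem (M.neg_mem hq) (M.inv_mem hN), ?_⟩
      rw [inv_eq_iff_eq_inv, eq_comm, inv_eq_iff_eq_inv, eq_comm]
      have h4 : p * (p ^ 2 - q ^ 2 * u ^ 2)⁻¹ + -q * (p ^ 2 - q ^ 2 * u ^ 2)⁻¹ * u =
          (p - q * u) * (p ^ 2 - q ^ 2 * u ^ 2)⁻¹ := by ring
      rw [h4]
      have h5 : (p + q * u) * (p - q * u) = p ^ 2 - q ^ 2 * u ^ 2 := by ring
      rw [← h5, mul_inv]
      field_simp

theorem le_adj (M : Subfield Ω) (u : Ω) (hu : u ^ 2 ∈ M) : M ≤ adj M u hu :=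
  fun x hx => ⟨x, hx, 0, M.zero_mem, by ring⟩

theorem mem_adj (M : Subfield Ω) (u : Ω) (hu : u ^ 2 ∈ M) : u ∈ adj M u hu :=
  ⟨0, M.zero_mem, 1, M.one_mem, by ring⟩

theorem valIn_adj {w : Valuation Ω Γ} (h2 : w 2 = 1) {H : Subgroup Γˣ} {M : Subfield Ω}
    (hM : ValIn w H M) {u : Ω} (hu : u ^ 2 ∈ M) (hwu : InH H (w u)) : ValIn w H (adj M u hu) := by
  rintro _ ⟨p, hp, q, hq, rfl⟩ hx
  by_cases hp0 : p = 0
  · subst hp0
    rw [zero_add] at hx ⊢
    rw [map_mul]
    exact (hM q hq (left_ne_zero_of_mul hx)).mul hwu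
  by_cases hq0 : q = 0
  · subst hq0
    rw [zero_mul, add_zero] at hx ⊢
    exact hM p hp hx
  have hwp : InH H (w p) := hM p hp hp0
  have hwq : InH H (w (q * u)) := by
    rw [map_mul]
    exact (hM q hq hq0).mul hwu
  rcases lt_trichotomy (w p) (w (q * u)) with h | h | h
  · rw [Valuation.map_add_eq_of_lt_right _ h]
    exact hwq
  · by_cases h0 : p - q * u = 0
    · have h3 : q * u = p := (sub_eq_zero.1 h0).symm
      rw [h3]
      have h4 : w (p + p) = w p := by
        have : p + p = 2 * p := by ring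
        rw [this, map_mul, h2, one_mul]
      rw [h4]
      exact hwp
    · have hN : InH H (w (p ^ 2 - q ^ 2 * u ^ 2)) := by
        refine hM _ (M.sub_mem (M.pow_mem hp 2) (M.mul_mem (M.pow_mem hq 2) hu)) ?_
        have : p ^ 2 - q ^ 2 * u ^ 2 = (p + q * u) * (p - q * u) := by ring
        rw [this]
        exact mul_ne_zero hx h0
      have hprod : w (p + q * u) * w (p - q * u) = w (p ^ 2 - q ^ 2 * u ^ 2) := by
        rw [← map_mul]
        congr 1
        ring
      have hle1 : w (p + q * u) ≤ w p := by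
        refine (w.map_add _ _).trans ?_
        rw [← h, max_self]
      have hle2 : w (p - q * u) ≤ w p := by
        refine (w.map_sub _ _).trans ?_
        rw [← h, max_self]
      have hsum : w p ≤ max (w (p + q * u)) (w (p - q * u)) := by
        have h5 : w ((p + q * u) + (p - q * u)) = w p := by
          have : (p + q * u) + (p - q * u) = 2 * p := by ring
          rw [this, map_mul, h2, one_mul]
        rw [← h5]
        exact w.map_add _ _
      rcases le_max_iff.1 hsum with h6 | h6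
      · rw [le_antisymm hle1 h6]
        exact hwp
      · have h7 : w (p - q * u) = w p := le_antisymm hle2 h6
        rw [h7] at hprod
        have h8 : w (p + q * u) = w (p ^ 2 - q ^ 2 * u ^ 2) / w p := by
          rw [← hprod, mul_div_assoc, div_self hwp.ne_zero, mul_one]
        rw [h8]
        exact hN.div hwp
  · rw [Valuation.map_add_eq_of_lt_left _ h]
    exact hwp

/-- Zorn: a maximal field over `L` with all values in `H`. -/
theorem exists_max_valIn {w : Valuation Ω Γ} (h2 : w 2 = 1) {H : Subgroup Γˣ} {L : Subfield Ω}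
    (hL : ValIn w H L) : ∃ M : Subfield Ω, L ≤ M ∧ ValIn w H M ∧
      ∀ u : Ω, u ^ 2 ∈ M → (u ≠ 0 → InH H (w u)) → u ∈ M := by
  obtain ⟨M, hLM, hMax⟩ := zorn_le_nonempty₀ {M : Subfield Ω | ValIn w H M} (by
    intro c hc hchain y hy
    refine ⟨sSup c, ?_, fun z hz => le_sSup hz⟩
    intro x hx hx0
    rw [Subfield.mem_sSup_of_directedOn ⟨y, hy⟩ hchain.directedOn] at hx
    obtain ⟨M, hMc, hxM⟩ := hx
    exact hc hMc x hxM hx0) L hL
  refine ⟨M, hLM, hMax.prop, fun u hu hwu => ?_⟩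
  by_cases hu0 : u = 0
  · rw [hu0]
    exact M.zero_mem
  have h1 : ValIn w H (adj M u hu) := valIn_adj h2 hMax.prop hu (hwu hu0)
  exact hMax.le_of_ge h1 (le_adj M u hu) (mem_adj M u hu)

end

/-! ### Automorphisms -/

/-- An element outside a subfield is moved by an automorphism over this subfield. -/
theorem exists_moving {K Ω : Type*} [Field K] [Field Ω] [Algebra K Ω] [IsGalois K Ω]
    (M : Subfield Ω) (hM : ∀ x : K, algebraMap K Ω x ∈ M) {z : Ω} (hz : z ∉ M) :
    ∃ g : Ω ≃ₐ[K] Ω, (∀ x ∈ M, g x = x) ∧ g z ≠ z := by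
  set M' : IntermediateField K Ω := M.toIntermediateField hM with hM'
  have hG : IsGalois M' Ω := IsGalois.tower_top_intermediateField M'
  by_contra hcon
  push Not at hcon
  apply hz
  have h1 : z ∈ Set.range (algebraMap M' Ω) := by
    rw [InfiniteGalois.mem_range_algebraMap_iff_fixed]
    intro f
    have := hcon (f.restrictScalars K) (fun x hx => f.commutes (⟨x, hx⟩ : M'))
    exact this
  obtain ⟨y, rfl⟩ := h1
  exact y.2

end Pool.Agent.ORB
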