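import Pool.Agent.ORB.URungeA
import Pool.Agent.ORB.URungeB

/-!
ORB, unicritical maps: products of powers of the level units are not constant.
-/

set_option autoImplicit false

namespace Pool.Agent.ORB.UQ

open Finset Polynomial

section aux

variable {W : Type*} [Field W] [CharZero W] [IsAlgClosed W]

theorem lp_eq_prod {p : ℕ} (hp : p ≠ 0) {c x : W} (e : ℕ)
    (h : ∀ i < e, ∀ y, (uf p c)^[i] y = x → y ≠ c) :
    lp p c x e = ∏ z ∈ pre p c e x, (X - C z) := by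
  classical
  have h1 := (IsAlgClosed.splits (lp p c x e)).eq_prod_roots_of_monic (lp_monic hp c x e)
  have h2 : (lp p c x e).roots.toFinset.val = (lp p c x e).roots := by
    rw [Multiset.toFinset_val]
    exact Multiset.dedup_eq_self.2 (lp_nodup hp e h)
  rw [pre, Finset.prod, h2]
  exact h1

omit [CharZero W] [IsAlgClosed W] in
theorem eval₂_lp {E : Type*} [Field E] (κ : W →+* E) {p : ℕ} (c b : W) (n : ℕ) (z : E) :
    eval₂ κ z (lp p c b n) = (uf p (κ c))^[n] z - κ b := by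
  let _ : Algebra W E := κ.toAlgebra
  exact aeval_lp (W := E) c b n z

/-- the value of the iterate at a point of a bigger field -/
theorem prod_sub_map {E : Type*} [Field E] (κ : W →+* E) {p : ℕ} (hp : p ≠ 0) {c : W} (e : ℕ) {x : W}
    (h : ∀ i < e, ∀ y, (uf p c)^[i] y = x → y ≠ c) (t : E) :
    ∏ z ∈ pre p c e x, (t - κ z) = (uf p (κ c))^[e] t - κ x := by
  rw [← eval₂_lp κ, lp_eq_prod hp e h, eval₂_finsetProd]
  refine prod_congr rfl fun z _ => ?_
  rw [eval₂_sub, eval₂_X, eval₂_C]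

/-- the `p`-th power of the product of the radicals above a node -/
theorem radical_pow {E : Type*} [Field E] (κ : W →+* E) {p : ℕ} (hp : p ≠ 0) {c b : W}
    (hb : ∀ i y, (uf p c)^[i] y = b → y ≠ c) {J j : ℕ} (hj : j ≤ J) {Z : E} {Y : W → E}
    (hY : ∀ z ∈ pre p c J b, Y z ^ p = Z ^ p + κ (c - z)) {s : W} (hs : s ∈ pre p c j b) :
    (∏ z ∈ pre p c (J - j) s, Y z) ^ p = ((uf p (κ c))^[J - j] Z) ^ p + κ (c - s) := by
  have hs' := (mem_pre hp).1 hs
  have h1 : ∀ z ∈ pre p c (J - j) s, Y z ^ p = uf p (κ c) Z - κ z := by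
    intro z hz
    rw [hY z, uf, map_sub]
    · ring
    · rw [mem_pre hp] at hz ⊢
      have h2 := Function.iterate_add_apply (uf p c) j (J - j) z
      rw [Nat.add_sub_cancel' hj] at h2
      rw [h2, hz, hs']
  rw [← prod_pow, prod_congr rfl h1, prod_sub_map κ hp (J - j) (fun i _ y hy => hb (j + i) y (by
    rw [Function.iterate_add_apply, hy, hs'])), ← Function.iterate_succ_apply,
    Function.iterate_succ_apply']
  rw [map_sub]
  simp only [uf]
  ring

/-- the level units do not vanish -/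
theorem lu_ne {E : Type*} [Field E] (κ : W →+* E) {p : ℕ} (hp : p ≠ 0) {c b : W}
    (hb : ∀ i y, (uf p c)^[i] y = b → y ≠ c) {J j : ℕ} (hj : j ≤ J) {Z : E} {Y : W → E}
    (hY : ∀ z ∈ pre p c J b, Y z ^ p = Z ^ p + κ (c - z)) : lu p c b J (κ c) Z Y j ≠ 0 := by
  rw [lu, prod_ne_zero_iff]
  intro s hs
  refine (geom_ne (p := p) ?_ (radical_pow κ hp hb hj hY hs)).2
  rw [map_ne_zero_iff κ κ.injective, sub_ne_zero]
  exact (hb j s ((mem_pre hp).1 hs)).symm

end aux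

section core

variable {W : Type*} [Field W] [CharZero W] [IsAlgClosed W]
variable {Ω : Type*} [Field Ω] [Algebra (RatFunc W) Ω] [IsAlgClosed Ω] [Algebra.IsAlgebraic (RatFunc W) Ω]

/-- multiplying one radical by a root of unity does not change a constant product of level units -/
theorem flip_inv {p : ℕ} (hp : p.Prime) {ζ : W} (hζ : IsPrimitiveRoot ζ p) {c b : W}
    (hb : ∀ i y, (uf p c)^[i] y = b → y ≠ c) (J : ℕ) (a : ℕ → ℤ) {Y : W → Ω}
    (hY : ∀ z ∈ pre p c J b, Y z ^ p = kz W Ω ^ p + kc W Ω (c - z)) {t : W}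
    (ht : Phi p c b J a (kc W Ω c) (kz W Ω) Y = kc W Ω t) {z₀ : W} (hz₀ : z₀ ∈ pre p c J b) (e : ℕ)
    {Y' : W → Ω} (h₀ : Y' z₀ = kc W Ω ζ ^ e * Y z₀) (h₁ : ∀ z ∈ pre p c J b, z ≠ z₀ → Y' z = Y z) :
    (∀ z ∈ pre p c J b, Y' z ^ p = kz W Ω ^ p + kc W Ω (c - z)) ∧
      Phi p c b J a (kc W Ω c) (kz W Ω) Y' = kc W Ω t := by
  classical
  have hz₀c : z₀ ≠ c := hb J z₀ ((mem_pre hp.ne_zero).1 hz₀)
  obtain ⟨θ, hθ⟩ := IsAlgClosed.exists_pow_nat_eq (z₀ - c) hp.pos
  have hθ0 : θ ≠ 0 := by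
    rintro rfl
    rw [zero_pow hp.ne_zero] at hθ
    exact hz₀c (sub_eq_zero.1 hθ.symm)
  obtain ⟨g, hg, hg₀⟩ := exists_flip_one hp hζ (Y '' {z | z ∈ pre p c J b ∧ z ≠ z₀}) hθ0 (by
    rintro _ ⟨z, ⟨hz, hne⟩, rfl⟩
    refine ⟨c - z, ?_, hY z hz⟩
    rw [hθ]
    have : z₀ - c + (c - z) = z₀ - z := by ring
    rw [this, sub_ne_zero]
    exact hne.symm) (y₀ := Y z₀) (by
    rw [hY z₀ hz₀, hθ, ← sub_eq_zero]
    have : c - z₀ = -(z₀ - c) := by ring
    rw [this, map_neg]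
    ring) e
  have hgY : ∀ z ∈ pre p c J b, g (Y z) = Y' z := by
    intro z hz
    by_cases h : z = z₀
    · rw [h, hg₀, h₀]
    · rw [h₁ z hz h]
      exact hg _ ⟨z, ⟨hz, h⟩, rfl⟩
  have hkz : g (kz W Ω) = kz W Ω := g.commutes _
  have hkc : ∀ a, g (kc W Ω a) = kc W Ω a := fun a => g.commutes _
  constructor
  · intro z hz
    rw [← hgY z hz, ← map_pow, hY z hz, map_add, map_pow, hkz, hkc]
  · have h1 := map_Phi p c b J a (g : Ω ≃ₐ[RatFunc W] Ω).toRingEquiv.toRingHom (kc W Ω c) (kz W Ω) Y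
    rw [ht] at h1
    have h2 : Phi p c b J a (kc W Ω c) (kz W Ω) (fun z => g (Y z)) = kc W Ω t := by
      have h3 : (g : Ω ≃ₐ[RatFunc W] Ω).toRingEquiv.toRingHom (kc W Ω t) = kc W Ω t := hkc t
      have h4 : (g : Ω ≃ₐ[RatFunc W] Ω).toRingEquiv.toRingHom (kc W Ω c) = kc W Ω c := hkc c
      have h5 : (g : Ω ≃ₐ[RatFunc W] Ω).toRingEquiv.toRingHom (kz W Ω) = kz W Ω := hkz
      rw [h3, h4, h5] at h1
      exact h1.symm
    rw [← h2]
    exact (Phi_congr hp.ne_zero c b J a _ _ hgY).symm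

omit [Algebra.IsAlgebraic (RatFunc W) Ω] [CharZero W] [IsAlgClosed Ω] in
/-- two linear forms in `Z` and a radical with equal powers -/
theorem final_contra {p : ℕ} (hp : p.Prime) {ζ : W} (hζ : IsPrimitiveRoot ζ p) {d : W} (hd : d ≠ 0) {y : Ω}
    (hy : y ^ p = kz W Ω ^ p + kc W Ω d) {N : ℕ} (hN : N ≠ 0)
    (h : (kz W Ω - y) ^ N = (kz W Ω - kc W Ω ζ * y) ^ N) : False := by
  classical
  have hζ1 : ζ ≠ 1 := hζ.ne_one hp.one_lt
  have hdΩ : kc W Ω d ≠ 0 := (map_ne_zero_iff _ (kc W Ω).injective).2 hd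
  have h2 : kz W Ω - kc W Ω ζ * y ≠ 0 := by
    refine (geom_ne (p := p) hdΩ ?_).2
    rw [mul_pow, ← map_pow, hζ.pow_eq_one, map_one, one_mul, hy]
  set r : Ω := (kz W Ω - y) / (kz W Ω - kc W Ω ζ * y) with hr
  have hrN : r ^ N = 1 := by
    rw [hr, div_pow, h, div_self (pow_ne_zero _ h2)]
  -- `r` is a constant
  obtain ⟨r', hr'⟩ : ∃ r' : W, kc W Ω r' = r := by
    have h3 : ((X ^ N - 1 : W[X]).map (kc W Ω)).IsRoot r := by
      rw [Polynomial.map_sub, Polynomial.map_pow, map_X, Polynomial.map_one, IsRoot, eval_sub, eval_pow,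
        eval_X, eval_one, hrN, sub_self]
    have h4 : (X ^ N - 1 : W[X]).Splits := IsAlgClosed.splits _
    have h5 : (X ^ N - 1 : W[X]) ≠ 0 := by
      have := (monic_X_pow_sub_C (1 : W) hN).ne_zero
      rwa [C_1] at this
    have h6 := h4.roots_map (kc W Ω)
    have h7 : r ∈ ((X ^ N - 1 : W[X]).map (kc W Ω)).roots := by
      rw [mem_roots]
      · exact h3
      · rw [Polynomial.map_ne_zero_iff (kc W Ω).injective]
        exact h5
    rw [h6, Multiset.mem_map] at h7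
    obtain ⟨r', -, h8⟩ := h7
    exact ⟨r', h8⟩
  have h3 : kz W Ω - y = kc W Ω r' * (kz W Ω - kc W Ω ζ * y) := by
    rw [hr', hr, div_mul_cancel₀ _ h2]
  have h4 : kc W Ω (r' * ζ - 1) * y = kc W Ω (r' - 1) * kz W Ω := by
    rw [map_sub, map_mul, map_one, map_sub, map_one]
    linear_combination h3
  have h5 : kc W Ω ((r' * ζ - 1) ^ p) * (kz W Ω ^ p + kc W Ω d) = kc W Ω ((r' - 1) ^ p) * kz W Ω ^ p := by
    rw [← hy, map_pow, map_pow, ← mul_pow, ← mul_pow, h4]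
  -- compare the polynomials
  have h6 : (C ((r' * ζ - 1) ^ p) * (X ^ p + C d) : W[X]) = C ((r' - 1) ^ p) * X ^ p := by
    have hinj : Function.Injective (algebraMap W[X] (RatFunc W)) := RatFunc.algebraMap_injective W
    apply hinj
    apply (algebraMap (RatFunc W) Ω).injective
    simp only [map_add, map_mul, map_pow (algebraMap W[X] (RatFunc W)), RatFunc.algebraMap_X,
      RatFunc.algebraMap_C, map_pow (algebraMap (RatFunc W) Ω)]
    simp only [kc, kz, RingHom.comp_apply] at h5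
    exact h5
  have h7 := congrArg (fun q : W[X] => q.coeff 0) h6
  have h8 := congrArg (fun q : W[X] => q.coeff p) h6
  simp only [coeff_C_mul, coeff_add, coeff_X_pow, coeff_C] at h7 h8
  rw [if_neg hp.ne_zero.symm, if_true, zero_add, mul_zero] at h7
  rw [if_true, if_neg hp.ne_zero, add_zero, mul_one, mul_one] at h8
  have h9 : (r' * ζ - 1) ^ p = 0 := (mul_eq_zero.1 h7).resolve_right hd
  have h10 : r' * ζ = 1 := sub_eq_zero.1 (pow_eq_zero_iff hp.ne_zero |>.1 h9)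
  have h11 : r' = 1 := by
    rw [h9] at h8
    exact sub_eq_zero.1 (pow_eq_zero_iff hp.ne_zero |>.1 h8.symm)
  rw [h11, one_mul] at h10
  exact hζ1 h10

theorem prod_zeta {E : Type*} [Field E] {p : ℕ} (hp : 0 < p) {ζ : E} (hζ : IsPrimitiveRoot ζ p) (x y : E) :
    ∏ i ∈ range p, (x - ζ ^ i * y) = x ^ p - y ^ p := by
  have h := X_pow_sub_C_eq_prod hζ hp (rfl : y ^ p = y ^ p)
  have h1 := congrArg (Polynomial.eval x) h
  rw [eval_sub, eval_pow, eval_X, eval_C, eval_prod] at h1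
  rw [h1]
  refine prod_congr rfl fun i _ => ?_
  rw [eval_sub, eval_X, eval_C]

/-- **Non-constancy** over the function field. -/
theorem core_ff {p : ℕ} (hp : p.Prime) {ζ : W} (hζ : IsPrimitiveRoot ζ p) {c b : W}
    (hb : ∀ i y, (uf p c)^[i] y = b → y ≠ c) (J : ℕ) (a : ℕ → ℤ) (haJ : a J ≠ 0) {Y : W → Ω}
    (hY : ∀ z ∈ pre p c J b, Y z ^ p = kz W Ω ^ p + kc W Ω (c - z)) {t : W}
    (ht : Phi p c b J a (kc W Ω c) (kz W Ω) Y = kc W Ω t) : False := by
  classical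
  have hp0 := hp.ne_zero
  set κ := kc W Ω with hκ
  set Z := kz W Ω with hZ
  have hζΩ : IsPrimitiveRoot (κ ζ) p := hζ.map_of_injective κ.injective
  -- a point of the top level
  obtain ⟨z₀, hz₀⟩ : ∃ z₀, z₀ ∈ pre p c J b := by
    have : 0 < (pre p c J b).card := by
      rw [card_pre hp0 J fun i _ y hy => hb i y hy]
      exact Nat.pow_pos hp.pos
    exact Finset.card_pos.1 this
  have hd₀ : c - z₀ ≠ 0 := sub_ne_zero.2 (hb J z₀ ((mem_pre hp0).1 hz₀)).symm
  -- it is enough to compare the powers of two linear forms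
  suffices hsuff : ∃ N : ℕ, N ≠ 0 ∧ (Z - Y z₀) ^ N = (Z - κ ζ * Y z₀) ^ N by
    obtain ⟨N, hN, h⟩ := hsuff
    exact final_contra hp hζ hd₀ (hY z₀ hz₀) hN h
  have hzpow : ∀ {x y : Ω} {k : ℤ}, k ≠ 0 → x ^ k = y ^ k → x ^ k.natAbs = y ^ k.natAbs := by
    intro x y k hk h
    rcases Int.natAbs_eq k with h1 | h1
    · rw [h1, zpow_natCast, zpow_natCast] at h
      exact h
    · rw [h1, zpow_neg, zpow_neg, zpow_natCast, zpow_natCast, inv_inj] at h
      exact h
  rcases Nat.eq_zero_or_pos J with hJ | hJ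
  · -- a single factor
    subst hJ
    have hz₀b : z₀ = b := (mem_pre hp0).1 hz₀
    have hPhi : ∀ Y' : W → Ω, Phi p c b 0 a (κ c) Z Y' = (Z - Y' b) ^ a 0 := by
      intro Y'
      simp [Phi, lu, pre_zero hp0]
    obtain ⟨-, h1⟩ := flip_inv hp hζ hb 0 a hY ht hz₀ 1
      (Y' := fun z => if z = z₀ then κ ζ ^ 1 * Y z else Y z) (by simp only [if_true]; rfl)
      (by intro z _ hne; simp [hne])
    rw [hPhi] at ht h1
    simp only [hz₀b, if_true, pow_one] at h1
    rw [← ht] at h1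
    refine ⟨(a 0).natAbs, Int.natAbs_ne_zero.2 haJ, ?_⟩
    rw [hz₀b]
    exact hzpow haJ h1.symm
  · obtain ⟨J', rfl⟩ : ∃ J', J = J' + 1 := ⟨J - 1, by omega⟩
    set z₁ : W := ζ * z₀ with hz₁def
    have hz₁ : z₁ ∈ pre p c (J' + 1) b := pre_mul hp0 hζ.pow_eq_one hz₀
    have hz₀0 : z₀ ≠ 0 := by
      rintro rfl
      have h1 := (mem_pre hp0).1 hz₀
      rw [Function.iterate_succ_apply] at h1
      refine hb J' _ h1 ?_
      simp [uf, hp0]
    have hne : z₁ ≠ z₀ := by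
      intro h
      have h1 : (ζ - 1) * z₀ = 0 := by rw [sub_mul, one_mul, ← hz₁def, h, sub_self]
      rcases mul_eq_zero.1 h1 with h2 | h2
      · exact hζ.ne_one hp.one_lt (sub_eq_zero.1 h2)
      · exact hz₀0 h2
    -- the twisted families
    let m : ℕ → ℕ → W → Ω := fun e₀ e₁ z =>
      (if z = z₀ then κ ζ ^ e₀ else 1) * (if z = z₁ then κ ζ ^ e₁ else 1)
    let Yt : ℕ → ℕ → W → Ω := fun e₀ e₁ z => m e₀ e₁ z * Y z
    have hYt : ∀ e₀ e₁, (∀ z ∈ pre p c (J' + 1) b, Yt e₀ e₁ z ^ p = Z ^ p + κ (c - z)) ∧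
        Phi p c b (J' + 1) a (κ c) Z (Yt e₀ e₁) = κ t := by
      intro e₀ e₁
      obtain ⟨h1, h2⟩ := flip_inv hp hζ hb (J' + 1) a hY ht hz₀ e₀ (Y' := Yt e₀ 0)
        (by
          simp only [Yt, m, if_true, pow_zero, ite_self, mul_one]
          rfl) (by
          intro z _ hz
          simp [Yt, m, hz])
      refine flip_inv hp hζ hb (J' + 1) a h1 h2 hz₁ e₁ (Y' := Yt e₀ e₁) ?_ ?_
      · simp only [Yt, m, if_neg hne, if_true, pow_zero, ite_self, one_mul]
        rfl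
      · intro z _ hz
        simp [Yt, m, hz]
    have hprodm : ∀ (e₀ e₁ : ℕ) (S : Finset W), ∏ z ∈ S, Yt e₀ e₁ z =
        ((if z₀ ∈ S then κ ζ ^ e₀ else 1) * (if z₁ ∈ S then κ ζ ^ e₁ else 1)) * ∏ z ∈ S, Y z := by
      intro e₀ e₁ S
      simp only [Yt, m, prod_mul_distrib, prod_ite_eq']
    have hlune : ∀ e₀ e₁ j, j ≤ J' + 1 → lu p c b (J' + 1) (κ c) Z (Yt e₀ e₁) j ≠ 0 :=
      fun e₀ e₁ j hj => lu_ne κ hp0 hb hj (hYt e₀ e₁).1
    -- lower levels: the product over the twists at the sibling does not depend on the other twist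
    have hlow : ∀ j < J' + 1, ∀ e₀ : ℕ, ∏ e₁ ∈ range p, lu p c b (J' + 1) (κ c) Z (Yt e₀ e₁) j =
        ∏ e₁ ∈ range p, lu p c b (J' + 1) (κ c) Z (Yt 0 e₁) j := by
      intro j hj e₀
      obtain ⟨i, hi⟩ : ∃ i, J' + 1 - j = i + 1 := ⟨J' - j, by omega⟩
      set s₀ : W := (uf p c)^[i + 1] z₀ with hs₀
      have hs₀' : s₀ ∈ pre p c j b := by
        rw [mem_pre hp0, hs₀, ← Function.iterate_add_apply, ← hi, Nat.add_sub_cancel' hj.le]
        exact (mem_pre hp0).1 hz₀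
      have hz₀s : ∀ s, z₀ ∈ pre p c (i + 1) s ↔ s = s₀ := by
        intro s
        rw [mem_pre hp0, hs₀, eq_comm]
      have hz₁s : ∀ s, z₁ ∈ pre p c (i + 1) s ↔ s = s₀ := by
        intro s
        have h1 : (uf p c)^[i + 1] z₁ = s₀ := by
          rw [hs₀, Function.iterate_succ_apply, Function.iterate_succ_apply]
          congr 1
          rw [uf, uf, hz₁def, mul_pow, hζ.pow_eq_one, one_mul]
        rw [mem_pre hp0, h1, eq_comm]
      set P : Ω := ∏ z ∈ pre p c (i + 1) s₀, Y z with hP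
      set Zj : Ω := (uf p (κ c))^[i + 1] Z with hZj
      set R : Ω := ∏ s ∈ (pre p c j b).erase s₀, (Zj - ∏ z ∈ pre p c (i + 1) s, Y z) with hR
      have hlu : ∀ e₀ e₁, lu p c b (J' + 1) (κ c) Z (Yt e₀ e₁) j =
          (Zj - κ ζ ^ e₁ * (κ ζ ^ e₀ * P)) * R := by
        intro e₀ e₁
        rw [lu, hi, ← mul_prod_erase _ _ hs₀', hprodm, if_pos ((hz₀s s₀).2 rfl),
          if_pos ((hz₁s s₀).2 rfl), hR]
        congr 1
        · rw [← hP, ← hZj]
          ring
        · refine prod_congr rfl fun s hs => ?_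
          have hs' : s ≠ s₀ := (mem_erase.1 hs).1
          rw [hprodm, if_neg (fun h => hs' ((hz₀s s).1 h)), if_neg (fun h => hs' ((hz₁s s).1 h)),
            one_mul, one_mul]
      simp only [hlu, prod_mul_distrib, prod_const, card_range]
      rw [prod_zeta hp.pos hζΩ, prod_zeta hp.pos hζΩ, mul_pow, ← pow_mul, mul_comm e₀ p, pow_mul,
        hζΩ.pow_eq_one, one_pow, pow_zero, one_mul, one_mul]
    -- the top level
    set Q : Ω := ∏ e₁ ∈ range p, ∏ s ∈ (pre p c (J' + 1) b).erase z₀, (Z - Yt 0 e₁ s) with hQ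
    have htop : ∀ e₀ : ℕ, ∏ e₁ ∈ range p, lu p c b (J' + 1) (κ c) Z (Yt e₀ e₁) (J' + 1) =
        (Z - κ ζ ^ e₀ * Y z₀) ^ p * Q := by
      intro e₀
      have hlu : ∀ e₁, lu p c b (J' + 1) (κ c) Z (Yt e₀ e₁) (J' + 1) =
          (Z - κ ζ ^ e₀ * Y z₀) * ∏ s ∈ (pre p c (J' + 1) b).erase z₀, (Z - Yt 0 e₁ s) := by
        intro e₁
        have h1 : lu p c b (J' + 1) (κ c) Z (Yt e₀ e₁) (J' + 1) =
            ∏ s ∈ pre p c (J' + 1) b, (Z - Yt e₀ e₁ s) := by
          rw [lu, Nat.sub_self]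
          refine prod_congr rfl fun s _ => ?_
          rw [pre_zero hp0, prod_singleton]
          rfl
        rw [h1, ← mul_prod_erase _ _ hz₀]
        congr 1
        · simp [Yt, m, hne.symm]
        · refine prod_congr rfl fun s hs => ?_
          have hs' : s ≠ z₀ := (mem_erase.1 hs).1
          simp [Yt, m, hs']
      simp only [hlu, prod_mul_distrib, prod_const, card_range, hQ]
    have hQ0 : Q ≠ 0 := by
      have h1 := htop 0
      intro h
      rw [h, mul_zero, prod_eq_zero_iff] at h1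
      obtain ⟨e₁, -, h2⟩ := h1
      exact hlune 0 e₁ (J' + 1) le_rfl h2
    -- multiply the identities
    have hmul : ∀ e₀ : ℕ, (∏ j ∈ range (J' + 1),
        (∏ e₁ ∈ range p, lu p c b (J' + 1) (κ c) Z (Yt 0 e₁) j) ^ a j) *
          ((Z - κ ζ ^ e₀ * Y z₀) ^ p * Q) ^ a (J' + 1) = κ t ^ p := by
      intro e₀
      have h1 : ∏ e₁ ∈ range p, Phi p c b (J' + 1) a (κ c) Z (Yt e₀ e₁) = κ t ^ p := by
        rw [prod_congr rfl fun e₁ _ => (hYt e₀ e₁).2, prod_const, card_range]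
      rw [← h1]
      simp only [Phi]
      rw [prod_comm, prod_range_succ _ (J' + 1)]
      congr 1
      · refine prod_congr rfl fun j hj => ?_
        rw [prod_zpow, hlow j (mem_range.1 hj) e₀]
      · rw [prod_zpow, htop]
    have hA0 : (∏ j ∈ range (J' + 1),
        (∏ e₁ ∈ range p, lu p c b (J' + 1) (κ c) Z (Yt 0 e₁) j) ^ a j) ≠ 0 := by
      rw [prod_ne_zero_iff]
      intro j hj
      refine zpow_ne_zero _ ?_
      rw [prod_ne_zero_iff]
      intro e₁ _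
      exact hlune 0 e₁ j (mem_range.1 hj).le
    have h2 := (hmul 0).trans (hmul 1).symm
    have h3 := mul_left_cancel₀ hA0 h2
    rw [mul_zpow, mul_zpow] at h3
    have h4 := mul_right_cancel₀ (zpow_ne_zero _ hQ0) h3
    rw [pow_zero, one_mul, pow_one] at h4
    have h5 := hzpow haJ h4
    rw [← pow_mul, ← pow_mul] at h5
    exact ⟨p * (a (J' + 1)).natAbs, mul_ne_zero hp0 (Int.natAbs_ne_zero.2 haJ), h5⟩

end core

end Pool.Agent.ORB.UQ
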