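import Pool.Agent.ORB.URungeC

/-!
ORB, unicritical maps: products of powers of the level units are not constant along a sequence.
-/

set_option autoImplicit false

namespace Pool.Agent.ORB.UQ

open Finset Polynomial Filter

section

variable {W : Type*} [Field W]

/-- evaluation of polynomials along a sequence, in the ultrapower -/
noncomputable def gev (x : ℕ → W) : W[X] →+* (hyperfilter ℕ : Filter ℕ).Germ W :=
  (Germ.coeRingHom (hyperfilter ℕ : Filter ℕ)).comp (RingHom.pi fun i => evalRingHom (x i))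

theorem gev_inj {x : ℕ → W} (hx : Function.Injective x) : Function.Injective (gev x) := by
  rw [injective_iff_map_eq_zero]
  intro q hq
  by_contra hne
  have h1 : ∀ᶠ i in (hyperfilter ℕ : Filter ℕ), q.eval (x i) = 0 := by
    have h2 : ((fun i => q.eval (x i) : ℕ → W) : (hyperfilter ℕ : Filter ℕ).Germ W)
        = ((fun _ => 0 : ℕ → W) : (hyperfilter ℕ : Filter ℕ).Germ W) := hq
    exact Germ.coe_eq.1 h2
  have h3 : {i : ℕ | q.eval (x i) = 0}.Finite := by
    have h4 : {i : ℕ | q.eval (x i) = 0} = x ⁻¹' {y | q.IsRoot y} := rfl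
    rw [h4]
    exact (Polynomial.finite_setOfPred_isRoot hne).preimage hx.injOn
  exact h3.notMem_hyperfilter h1

/-- the constants in the ultrapower -/
noncomputable def gcon (W : Type*) [Field W] : W →+* (hyperfilter ℕ : Filter ℕ).Germ W :=
  (Germ.coeRingHom (hyperfilter ℕ : Filter ℕ)).comp (RingHom.pi fun _ => RingHom.id W)

theorem gev_C (x : ℕ → W) (a : W) : gev x (C a) = gcon W a := by
  have : (fun i : ℕ => (C a).eval (x i)) = fun _ => a := by
    funext i
    rw [eval_C]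
  change ((fun i : ℕ => (C a).eval (x i) : ℕ → W) : (hyperfilter ℕ : Filter ℕ).Germ W) = _
  rw [this]
  rfl

theorem gev_X (x : ℕ → W) : gev x X = ((x : ℕ → W) : (hyperfilter ℕ : Filter ℕ).Germ W) := by
  have : (fun i : ℕ => (X : W[X]).eval (x i)) = x := by
    funext i
    rw [eval_X]
  change ((fun i : ℕ => (X : W[X]).eval (x i) : ℕ → W) : (hyperfilter ℕ : Filter ℕ).Germ W) = _
  rw [this]

theorem germ_uf (p : ℕ) (c : W) (x : ℕ → W) (n : ℕ) :
    ((fun i => (uf p c)^[n] (x i) : ℕ → W) : (hyperfilter ℕ : Filter ℕ).Germ W)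
      = (uf p (gcon W c))^[n] ((x : ℕ → W) : (hyperfilter ℕ : Filter ℕ).Germ W) := by
  induction n generalizing x with
  | zero => rfl
  | succ n ih =>
    rw [Function.iterate_succ_apply]
    have h1 : uf p (gcon W c) ((x : ℕ → W) : (hyperfilter ℕ : Filter ℕ).Germ W)
        = ((fun i => uf p c (x i) : ℕ → W) : (hyperfilter ℕ : Filter ℕ).Germ W) := rfl
    rw [h1, ← ih]
    rfl

theorem germ_prod {ι : Type*} (s : Finset ι) (f : ι → ℕ → W) :
    ((fun i => ∏ k ∈ s, f k i : ℕ → W) : (hyperfilter ℕ : Filter ℕ).Germ W)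
      = ∏ k ∈ s, ((f k : ℕ → W) : (hyperfilter ℕ : Filter ℕ).Germ W) := by
  have h1 := map_prod (Germ.coeRingHom (R := W) (hyperfilter ℕ : Filter ℕ)) f s
  have h2 : (fun i => ∏ k ∈ s, f k i) = ∏ k ∈ s, f k := by
    funext i
    rw [Finset.prod_apply]
  rw [h2]
  exact h1

theorem germ_lu (p : ℕ) (c b : W) (J : ℕ) (x : ℕ → W) (Y : ℕ → W → W) (j : ℕ) :
    ((fun i => lu p c b J c (x i) (Y i) j : ℕ → W) : (hyperfilter ℕ : Filter ℕ).Germ W)
      = lu p c b J (gcon W c) ((x : ℕ → W) : (hyperfilter ℕ : Filter ℕ).Germ W)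
        (fun z => ((fun i => Y i z : ℕ → W) : (hyperfilter ℕ : Filter ℕ).Germ W)) j := by
  unfold lu
  rw [germ_prod]
  refine prod_congr rfl fun s _ => ?_
  rw [← germ_uf, ← germ_prod]
  rfl

theorem germ_zpow (f : ℕ → W) (k : ℤ) :
    ((fun i => f i ^ k : ℕ → W) : (hyperfilter ℕ : Filter ℕ).Germ W)
      = ((f : ℕ → W) : (hyperfilter ℕ : Filter ℕ).Germ W) ^ k := by
  cases k with
  | ofNat n =>
    rw [Int.ofNat_eq_natCast, zpow_natCast, ← Germ.coe_pow]
    congr 1
    funext i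
    rw [zpow_natCast]
    rfl
  | negSucc n =>
    rw [zpow_negSucc, ← Germ.coe_pow, ← Germ.coe_inv]
    congr 1
    funext i
    rw [zpow_negSucc]
    rfl

theorem germ_Phi (p : ℕ) (c b : W) (J : ℕ) (a : ℕ → ℤ) (x : ℕ → W) (Y : ℕ → W → W) :
    ((fun i => Phi p c b J a c (x i) (Y i) : ℕ → W) : (hyperfilter ℕ : Filter ℕ).Germ W)
      = Phi p c b J a (gcon W c) ((x : ℕ → W) : (hyperfilter ℕ : Filter ℕ).Germ W)
        (fun z => ((fun i => Y i z : ℕ → W) : (hyperfilter ℕ : Filter ℕ).Germ W)) := by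
  unfold Phi
  rw [germ_prod]
  refine prod_congr rfl fun j _ => ?_
  rw [← germ_lu, germ_zpow]

end

section seq

variable {W : Type*} [Field W] [CharZero W] [IsAlgClosed W]

/-- **Non-constancy** along a sequence. -/
theorem core_seq {p : ℕ} (hp : p.Prime) {c b : W} (hb : ∀ i y, (uf p c)^[i] y = b → y ≠ c) (J : ℕ)
    (a : ℕ → ℤ) (haJ : a J ≠ 0) {x : ℕ → W} (hx : Function.Injective x) {Y : ℕ → W → W}
    (hY : ∀ i, ∀ z ∈ pre p c J b, Y i z ^ p = x i ^ p + (c - z)) {t : W}
    (ht : ∀ i, Phi p c b J a c (x i) (Y i) = t) : False := by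
  classical
  obtain ⟨ζ, hζ⟩ : ∃ ζ : W, IsPrimitiveRoot ζ p := by
    have : NeZero (p : W) := ⟨by exact_mod_cast hp.ne_zero⟩
    exact HasEnoughRootsOfUnity.exists_primitiveRoot W p
  let E := (hyperfilter ℕ : Filter ℕ).Germ W
  let φ : W[X] →+* E := gev x
  have hφ : Function.Injective φ := gev_inj hx
  have hφ' := nonZeroDivisors_le_comap_nonZeroDivisors_of_injective φ hφ
  let ρ : RatFunc W →+* E := RatFunc.liftRingHom φ hφ'
  have hρ : ∀ q : W[X], ρ (algebraMap W[X] (RatFunc W) q) = φ q := fun q =>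
    RatFunc.liftRingHom_algebraMap φ hφ' q
  let _ : Algebra (RatFunc W) E := ρ.toAlgebra
  have hρa : algebraMap (RatFunc W) E = ρ := rfl
  have hkc : ∀ a, algebraMap (RatFunc W) E (RatFunc.C a) = gcon W a := by
    intro a
    rw [hρa, ← RatFunc.algebraMap_C, hρ]
    exact gev_C x a
  have hkz : algebraMap (RatFunc W) E RatFunc.X = ((x : ℕ → W) : E) := by
    rw [hρa, ← RatFunc.algebraMap_X, hρ]
    exact gev_X x
  let yh : W → E := fun z => ((fun i => Y i z : ℕ → W) : E)
  have hyh : ∀ z ∈ pre p c J b, yh z ^ p = ((x : ℕ → W) : E) ^ p + gcon W (c - z) := by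
    intro z hz
    have h1 : yh z ^ p = ((fun i => Y i z ^ p : ℕ → W) : E) := rfl
    have h2 : ((x : ℕ → W) : E) ^ p + gcon W (c - z) = ((fun i => x i ^ p + (c - z) : ℕ → W) : E) := rfl
    rw [h1, h2]
    congr 1
    funext i
    exact hY i z hz
  -- the relative algebraic closure
  let A := algebraicClosure (RatFunc W) E
  let κA : W →+* A := (algebraMap (RatFunc W) A).comp RatFunc.C
  let zA : A := algebraMap (RatFunc W) A RatFunc.X
  have halg : ∀ z ∈ pre p c J b, yh z ∈ A := by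
    intro z hz
    have h1 : IsIntegral (RatFunc W) (yh z ^ p) := by
      rw [hyh z hz, ← hkc, ← hkz, ← map_pow, ← map_add]
      exact isIntegral_algebraMap
    exact IsIntegral.of_pow hp.pos h1
  let YA : W → A := fun z => if h : yh z ∈ A then ⟨yh z, h⟩ else 0
  have hYA : ∀ z ∈ pre p c J b, ((YA z : A) : E) = yh z := by
    intro z hz
    simp only [YA, dif_pos (halg z hz)]
  have hκA : ∀ a, ((κA a : A) : E) = gcon W a := fun a => hkc a
  have hzA : ((zA : A) : E) = ((x : ℕ → W) : E) := hkz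
  have hYAp : ∀ z ∈ pre p c J b, YA z ^ p = zA ^ p + κA (c - z) := by
    intro z hz
    apply Subtype.ext
    change ((YA z : A) : E) ^ p = ((zA : A) : E) ^ p + ((κA (c - z) : A) : E)
    rw [hYA z hz, hzA, hκA]
    exact hyh z hz
  have hPhiA : Phi p c b J a (κA c) zA YA = κA t := by
    apply Subtype.ext
    have h1 := map_Phi p c b J a (algebraMap A E) (κA c) zA YA
    change algebraMap A E (Phi p c b J a (κA c) zA YA) = algebraMap A E (κA t)
    rw [h1]
    have h2 : algebraMap A E (κA c) = gcon W c := hκA c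
    have h3 : algebraMap A E zA = ((x : ℕ → W) : E) := hzA
    have h4 : algebraMap A E (κA t) = gcon W t := hκA t
    rw [h2, h3, h4]
    refine (Phi_congr hp.ne_zero c b J a (gcon W c) ((x : ℕ → W) : E) (Y' := yh)
      fun z hz => hYA z hz).trans ?_
    have h5 := germ_Phi p c b J a x Y
    have h6 : (fun i => Phi p c b J a c (x i) (Y i)) = fun _ => t := funext ht
    rw [h6] at h5
    exact h5.symm
  -- transfer to an algebraic closure
  let Ω := AlgebraicClosure (RatFunc W)
  let ψ : A →ₐ[RatFunc W] Ω := IsAlgClosed.lift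
  have hψκ : ∀ a, ψ (κA a) = kc W Ω a := fun a => ψ.commutes _
  have hψz : ψ zA = kz W Ω := ψ.commutes _
  refine core_ff (Ω := Ω) hp hζ hb J a haJ (Y := fun z => ψ (YA z)) ?_ (t := t) ?_
  · intro z hz
    rw [← map_pow, hYAp z hz, map_add, map_pow, hψz, hψκ]
  · have h1 := map_Phi p c b J a (ψ : A →+* Ω) (κA c) zA YA
    rw [hPhiA] at h1
    have h2 : (ψ : A →+* Ω) (κA c) = kc W Ω c := hψκ c
    have h3 : (ψ : A →+* Ω) zA = kz W Ω := hψz
    have h4 : (ψ : A →+* Ω) (κA t) = kc W Ω t := hψκ t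
    rw [h2, h3, h4] at h1
    exact h1.symm

end seq

end Pool.Agent.ORB.UQ
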