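import Pool.Agent.ORB.URungeD
import Pool.Agent.ORB.GoodPrime
import Pool.Agent.ORB.Val

/-!
ORB, unicritical maps: the level units of an equivariant family of radicals over a number field.
-/

set_option autoImplicit false
set_option linter.unusedSectionVars false

namespace Pool.Agent.ORB.UQ

open Finset Polynomial NumberField IsDedekindDomain Filter

universe u

section bdd

variable {F : Type*} [Field F]

/-- bounded orbits: products over a finite set -/
theorem prod_bounded (A : AbsoluteValue F ℝ) {p : ℕ} (hp : 1 ≤ p) (c : F) {B : ℝ} (S : Finset F)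
    (hS : ∀ s ∈ S, s ≠ c) : ∃ C : ℝ, ∀ x : F, A x ≤ B → ∀ y : F → F,
      (∀ s ∈ S, y s ^ p = x ^ p + (c - s)) → |Real.log (A (∏ s ∈ S, (x - y s)))| ≤ C := by
  classical
  induction S using Finset.induction_on with
  | empty => exact ⟨0, fun x _ y _ => by simp⟩
  | insert s S hsS ih =>
    obtain ⟨C, h⟩ := ih fun s' hs' => hS s' (mem_insert_of_mem hs')
    have hd : c - s ≠ 0 := sub_ne_zero.2 (hS s (mem_insert_self _ _)).symm
    obtain ⟨C', h'⟩ := log_bounded A hp hd B
    refine ⟨C' + C, fun x hx y hy => ?_⟩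
    have h1 := h x hx y fun s' hs' => hy s' (mem_insert_of_mem hs')
    have h2 := h' x (y s) hx (hy s (mem_insert_self _ _))
    rw [prod_insert hsS, map_mul, Real.log_mul]
    · exact (abs_add_le _ _).trans (add_le_add h2 h1)
    · rw [Ne, AbsoluteValue.eq_zero]
      exact (geom_ne hd (hy s (mem_insert_self _ _))).2
    · rw [Ne, AbsoluteValue.eq_zero, prod_eq_zero_iff]
      push Not
      intro s' hs'
      exact (geom_ne (sub_ne_zero.2 (hS s' (mem_insert_of_mem hs')).symm)
        (hy s' (mem_insert_of_mem hs'))).2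

end bdd

section place

variable {K F : Type*} [Field K] [NumberField K] [Field F] [NumberField F] [Algebra K F]

/-- an absolute value of `F` above a given one of `K` -/
theorem exists_above (i : HeightOneSpectrum (𝓞 K) ⊕ (K →+* ℂ)) :
    ∃ (A : AbsoluteValue F ℝ) (e : ℕ), e ≠ 0 ∧ ∀ y : K, A (algebraMap K F y) = pabv i y ^ e := by
  rcases i with w | σ
  · obtain ⟨⟨Q, hQ1, hQ2⟩⟩ := w.asIdeal.nonempty_primesOver (S := 𝓞 F)
    have hQ0 : Q ≠ ⊥ := Ideal.ne_bot_of_mem_primesOver w.ne_bot ⟨hQ1, hQ2⟩
    let P : HeightOneSpectrum (𝓞 F) := ⟨Q, hQ1, hQ0⟩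
    have hlo : P.asIdeal.LiesOver w.asIdeal := hQ2
    refine ⟨pabv (Sum.inl P), _, ram_ne_zero w P, fun y => ?_⟩
    have h1 := HeightOneSpectrum.valuation_liesOver F w P y
    have h2 : (WithZeroMulInt.toNNReal (ne_zero_of_lt (one_lt_two : (1 : NNReal) < 2))
        (P.valuation F (algebraMap K F y)) : NNReal) =
        (WithZeroMulInt.toNNReal (ne_zero_of_lt (one_lt_two : (1 : NNReal) < 2))
        (w.valuation K y)) ^ (w.asIdeal.ramificationIdx' P.asIdeal) := by
      rw [← h1, map_pow]
    have h3 := congrArg (fun r : NNReal => (r : ℝ)) h2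
    rw [NNReal.coe_pow] at h3
    exact h3
  · let _ : Algebra K ℂ := σ.toAlgebra
    have : Algebra.IsAlgebraic K F := by
      have : FiniteDimensional ℚ F := inferInstance
      have : FiniteDimensional K F := FiniteDimensional.right ℚ K F
      infer_instance
    let τ : F →ₐ[K] ℂ := IsAlgClosed.lift
    refine ⟨pabv (Sum.inr (τ : F →+* ℂ)), 1, one_ne_zero, fun y => ?_⟩
    rw [pow_one, pabv_inr, pabv_inr]
    have : τ (algebraMap K F y) = σ y := τ.commutes y
    exact congrArg norm this

end place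

section data

variable {K W : Type u} [Field K] [NumberField K] [Field W] [Algebra K W] [IsAlgClosed W]
  [Algebra.IsAlgebraic K W]

/-- an equivariant family of radicals on the level `k` -/
def EqRad (p : ℕ) (W : Type*) [Field W] [Algebra K W] (c b : K) (k : ℕ) (x : K) (Y : W → W) : Prop :=
  ∀ z ∈ Lev p W c b k, Y z ^ p = algebraMap K W x ^ p + (algebraMap K W c - z) ∧
    ∀ g : W ≃ₐ[K] W, g (Y z) = Y (g z)

theorem mem_pre_Lev {p : ℕ} (hp : p ≠ 0) {c b : K} {k : ℕ} {z : W} :
    z ∈ pre p (algebraMap K W c) k (algebraMap K W b) ↔ z ∈ Lev p W c b k := by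
  rw [mem_pre hp, mem_Lev]

theorem aut_pre {p : ℕ} (hp : p ≠ 0) {c : K} {e : ℕ} {s : W} (g : W ≃ₐ[K] W) {M : Type*} [CommMonoid M]
    (φ : W → M) :
    ∏ z ∈ pre p (algebraMap K W c) e s, φ (g z) = ∏ z ∈ pre p (algebraMap K W c) e (g s), φ z := by
  classical
  refine prod_bij (fun z _ => g z) ?_ ?_ ?_ ?_
  · intro z hz
    rw [mem_pre hp] at hz ⊢
    rw [← aut_iter, hz]
  · intro z _ z' _ h
    exact g.injective h
  · intro z hz
    refine ⟨g.symm z, ?_, g.apply_symm_apply z⟩
    rw [mem_pre hp] at hz ⊢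
    apply g.injective
    rw [aut_iter, g.apply_symm_apply, hz]
  · intro z _
    rfl

theorem galois_W (K W : Type u) [Field K] [NumberField K] [Field W] [Algebra K W] [IsAlgClosed W]
    [Algebra.IsAlgebraic K W] : IsGalois K W := by
  have hN : Normal K W := normal_iff.2 fun x =>
    ⟨Algebra.IsIntegral.isIntegral x, IsAlgClosed.splits _⟩
  exact IsGalois.mk

/-- the level units are rational -/
theorem lu_rational {p : ℕ} (hp : p ≠ 0) {c b : K} {k : ℕ} {x : K} {Y : W → W}
    (h : EqRad p W c b k x Y) {j : ℕ} (hj : j ≤ k) :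
    ∃ v : K, algebraMap K W v =
      lu p (algebraMap K W c) (algebraMap K W b) k (algebraMap K W c) (algebraMap K W x) Y j := by
  have hG := galois_W K W
  have h1 := (InfiniteGalois.mem_range_algebraMap_iff_fixed (k := K) (K := W)
    (lu p (algebraMap K W c) (algebraMap K W b) k (algebraMap K W c) (algebraMap K W x) Y j)).2 ?_
  · exact h1
  intro g
  unfold lu
  rw [map_prod]
  have h2 : ∀ s ∈ pre p (algebraMap K W c) j (algebraMap K W b),
      g ((uf p (algebraMap K W c))^[k - j] (algebraMap K W x) -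
        ∏ z ∈ pre p (algebraMap K W c) (k - j) s, Y z) =
      (fun s => (uf p (algebraMap K W c))^[k - j] (algebraMap K W x) -
        ∏ z ∈ pre p (algebraMap K W c) (k - j) s, Y z) (g s) := by
    intro s hs
    simp only []
    rw [map_sub, aut_iter, g.commutes, map_prod, ← aut_pre hp g]
    congr 1
    refine prod_congr rfl fun z hz => (h z ?_).2 g
    rw [mem_pre hp] at hs hz
    rw [mem_Lev]
    have h3 := Function.iterate_add_apply (uf p (algebraMap K W c)) j (k - j) z
    rw [Nat.add_sub_cancel' hj] at h3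
    rw [h3, hz, hs]
  have h3 := aut_pre hp (c := c) (e := j) (s := algebraMap K W b) g
    (fun s => (uf p (algebraMap K W c))^[k - j] (algebraMap K W x) -
        ∏ z ∈ pre p (algebraMap K W c) (k - j) s, Y z)
  rw [g.commutes] at h3
  exact (prod_congr rfl h2).trans h3

/-- the field of the level `k` -/
noncomputable def LF (p : ℕ) (W : Type*) [Field W] [Algebra K W] (c b : K) (k : ℕ) : IntermediateField K W :=
  IntermediateField.adjoin K (Lev p W c b k)

theorem LF_finite {p : ℕ} (hp : p ≠ 0) (c b : K) (k : ℕ) : FiniteDimensional K (LF p W c b k) := by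
  have := (Lev_finite (W := W) hp c b k).to_subtype
  exact IntermediateField.finiteDimensional_adjoin fun x _ => Algebra.IsIntegral.isIntegral x

theorem LF_nf {p : ℕ} (hp : p ≠ 0) (c b : K) (k : ℕ) : NumberField (LF p W c b k) := by
  have h1 := LF_finite (W := W) hp c b k
  have : FiniteDimensional ℚ (LF p W c b k) := FiniteDimensional.trans ℚ K _
  have : CharZero (LF p W c b k) :=
    charZero_of_injective_algebraMap (algebraMap K (LF p W c b k)).injective
  exact ⟨⟩

theorem EqRad.mem_LF {p : ℕ} {c b : K} {k : ℕ} {x : K} {Y : W → W}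
    (h : EqRad p W c b k x Y) {z : W} (hz : z ∈ Lev p W c b k) : Y z ∈ LF p W c b k := by
  have hG := galois_W K W
  rw [← InfiniteGalois.fixedField_fixingSubgroup (LF p W c b k), IntermediateField.mem_fixedField_iff]
  intro g hg
  have h1 : g z = z := (IntermediateField.mem_fixingSubgroup_iff _ _).1 hg z
    (IntermediateField.subset_adjoin _ _ hz)
  rw [(h z hz).2 g, h1]

/-- lower levels lie in the field of the level `k` -/
theorem node_mem_LF [CharZero W] {p : ℕ} (hp : p ≠ 0) {c b : K}
    (hb : ∀ i y, (uf p (algebraMap K W c))^[i] y = algebraMap K W b → y ≠ algebraMap K W c)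
    {k j : ℕ} (hj : j ≤ k) {s : W} (hs : s ∈ pre p (algebraMap K W c) j (algebraMap K W b)) :
    s ∈ LF p W c b k := by
  classical
  have hs' := (mem_pre hp).1 hs
  obtain ⟨z, hz⟩ : ∃ z, z ∈ pre p (algebraMap K W c) (k - j) s := by
    have : 0 < (pre p (algebraMap K W c) (k - j) s).card := by
      rw [card_pre hp (k - j) fun i _ y hy => hb (j + i) y (by
        rw [Function.iterate_add_apply, hy, hs'])]
      exact Nat.pow_pos (Nat.pos_of_ne_zero hp)
    exact Finset.card_pos.1 this
  have hz' := (mem_pre hp).1 hz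
  have hzL : z ∈ Lev p W c b k := by
    rw [mem_Lev]
    have h3 := Function.iterate_add_apply (uf p (algebraMap K W c)) j (k - j) z
    rw [Nat.add_sub_cancel' hj] at h3
    rw [h3, hz', hs']
  have hzF : z ∈ LF p W c b k := IntermediateField.subset_adjoin _ _ hzL
  have h4 := uf_map (algebraMap (LF p W c b k) W) p (algebraMap K (LF p W c b k) c) ⟨z, hzF⟩ (k - j)
  have h5 : algebraMap (LF p W c b k) W (algebraMap K (LF p W c b k) c) = algebraMap K W c := rfl
  have h6 : algebraMap (LF p W c b k) W ⟨z, hzF⟩ = z := rfl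
  rw [h5, h6, hz'] at h4
  rw [← h4]
  exact ((uf p (algebraMap K (LF p W c b k) c))^[k - j] ⟨z, hzF⟩).2

open Classical in
/-- the nodes of the level `j` as elements of the field of the level `k` -/
noncomputable def SF (p : ℕ) (W : Type*) [Field W] [Algebra K W] (c b : K) (k j : ℕ) :
    Finset (LF p W c b k) :=
  (pre p (algebraMap K W c) j (algebraMap K W b)).preimage (algebraMap (LF p W c b k) W)
    (algebraMap (LF p W c b k) W).injective.injOn

theorem mem_SF {p : ℕ} {c b : K} {k j : ℕ} {s : LF p W c b k} :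
    s ∈ SF p W c b k j ↔ (s : W) ∈ pre p (algebraMap K W c) j (algebraMap K W b) := by
  classical
  rw [SF, Finset.mem_preimage]
  rfl

open Classical in
/-- the radicals of the level `j` -/
noncomputable def YF (p : ℕ) (W : Type*) [Field W] [Algebra K W] (c b : K) (k j : ℕ) (Y : W → W)
    (s : LF p W c b k) : LF p W c b k :=
  if h : (∏ z ∈ pre p (algebraMap K W c) (k - j) (s : W), Y z) ∈ LF p W c b k then ⟨_, h⟩ else 0

theorem YF_coe {p : ℕ} (hp : p ≠ 0) {c b : K} {k : ℕ} {x : K} {Y : W → W}
    (h : EqRad p W c b k x Y) {j : ℕ} (hj : j ≤ k) {s : LF p W c b k} (hs : s ∈ SF p W c b k j) :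
    ((YF p W c b k j Y s : LF p W c b k) : W) = ∏ z ∈ pre p (algebraMap K W c) (k - j) (s : W), Y z := by
  rw [mem_SF, mem_pre hp] at hs
  have hm : (∏ z ∈ pre p (algebraMap K W c) (k - j) (s : W), Y z) ∈ LF p W c b k := by
    refine prod_mem fun z hz => h.mem_LF ?_
    rw [mem_pre hp] at hz
    rw [mem_Lev]
    have h3 := Function.iterate_add_apply (uf p (algebraMap K W c)) j (k - j) z
    rw [Nat.add_sub_cancel' hj] at h3
    rw [h3, hz, hs]
  rw [YF, dif_pos hm]

theorem YF_pow [CharZero W] {p : ℕ} (hp : p ≠ 0) {c b : K}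
    (hb : ∀ i y, (uf p (algebraMap K W c))^[i] y = algebraMap K W b → y ≠ algebraMap K W c)
    {k : ℕ} {x : K} {Y : W → W} (h : EqRad p W c b k x Y) {j : ℕ} (hj : j ≤ k) {s : LF p W c b k}
    (hs : s ∈ SF p W c b k j) :
    YF p W c b k j Y s ^ p = algebraMap K (LF p W c b k) ((uf p c)^[k - j] x) ^ p +
      (algebraMap K (LF p W c b k) c - s) := by
  apply Subtype.ext
  change ((YF p W c b k j Y s : LF p W c b k) : W) ^ p =
    algebraMap K W ((uf p c)^[k - j] x) ^ p + (algebraMap K W c - (s : W))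
  rw [YF_coe hp h hj hs, uf_map]
  have h1 := radical_pow (RingHom.id W) hp hb hj (Z := algebraMap K W x) (Y := Y) (fun z hz => by
    rw [mem_pre_Lev hp] at hz
    exact (h z hz).1) (mem_SF.1 hs)
  exact h1

/-- the level unit in the field of the level `k` -/
theorem lu_F [CharZero W] {p : ℕ} (hp : p ≠ 0) {c b : K}
    (hb : ∀ i y, (uf p (algebraMap K W c))^[i] y = algebraMap K W b → y ≠ algebraMap K W c)
    {k : ℕ} {x : K} {Y : W → W} (h : EqRad p W c b k x Y) {j : ℕ} (hj : j ≤ k) {v : K}
    (hv : algebraMap K W v =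
      lu p (algebraMap K W c) (algebraMap K W b) k (algebraMap K W c) (algebraMap K W x) Y j) :
    algebraMap K (LF p W c b k) v = ∏ s ∈ SF p W c b k j,
      (algebraMap K (LF p W c b k) ((uf p c)^[k - j] x) - YF p W c b k j Y s) := by
  classical
  apply (algebraMap (LF p W c b k) W).injective
  rw [← IsScalarTower.algebraMap_apply, hv, map_prod, lu]
  have h1 : ∀ s ∈ SF p W c b k j, algebraMap (LF p W c b k) W
      (algebraMap K (LF p W c b k) ((uf p c)^[k - j] x) - YF p W c b k j Y s) =
      (fun s : W => (uf p (algebraMap K W c))^[k - j] (algebraMap K W x) -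
        ∏ z ∈ pre p (algebraMap K W c) (k - j) s, Y z) (algebraMap (LF p W c b k) W s) := by
    intro s hs
    rw [map_sub, ← IsScalarTower.algebraMap_apply, uf_map]
    congr 1
    exact YF_coe hp h hj hs
  rw [prod_congr rfl h1, SF, Finset.prod_preimage (algebraMap (LF p W c b k) W)
    (pre p (algebraMap K W c) j (algebraMap K W b)) (algebraMap (LF p W c b k) W).injective.injOn
    (fun s : W => (uf p (algebraMap K W c))^[k - j] (algebraMap K W x) -
        ∏ z ∈ pre p (algebraMap K W c) (k - j) s, Y z)]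
  intro s hs hns
  exact absurd ⟨⟨s, node_mem_LF hp hb hj hs⟩, rfl⟩ hns

theorem SF_ne {p : ℕ} (hp : p ≠ 0) {c b : K}
    (hb : ∀ i y, (uf p (algebraMap K W c))^[i] y = algebraMap K W b → y ≠ algebraMap K W c)
    {k j : ℕ} {s : LF p W c b k} (hs : s ∈ SF p W c b k j) : s ≠ algebraMap K (LF p W c b k) c := by
  rintro rfl
  rw [mem_SF, mem_pre hp] at hs
  exact hb j _ hs rfl

end data

end Pool.Agent.ORB.UQ
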