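import Pool.Agent.ORB.URungeE

/-!
ORB, unicritical maps: equivariant radicals exist only for finitely many terms of a wandering orbit.
-/

set_option autoImplicit false
set_option linter.unusedSectionVars false

namespace Pool.Agent.ORB.UQ

open Finset Polynomial NumberField IsDedekindDomain Filter

universe u

section comb

variable {W : Type*} [Field W]

theorem lu_sub {p : ℕ} (hp : p ≠ 0) (c b : W) {E : Type*} [Field E] (cE Z : E) (Y : W → E) {j J k : ℕ}
    (hj : j ≤ J) (hJ : J ≤ k) :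
    lu p c b J cE ((uf p cE)^[k - J] Z) (fun s => ∏ z ∈ pre p c (k - J) s, Y z) j =
      lu p c b k cE Z Y j := by
  unfold lu
  refine prod_congr rfl fun s _ => ?_
  rw [← Function.iterate_add_apply, ← prod_pre_add hp]
  have : J - j + (k - J) = k - j := by omega
  rw [this]

theorem Phi_sub {p : ℕ} (hp : p ≠ 0) (c b : W) {E : Type*} [Field E] (cE Z : E) (Y : W → E) {J k : ℕ}
    (hJ : J ≤ k) {a : ℕ → ℤ} (ha : ∀ j, J < j → j ≤ k → a j = 0) :
    Phi p c b J a cE ((uf p cE)^[k - J] Z) (fun s => ∏ z ∈ pre p c (k - J) s, Y z) =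
      Phi p c b k a cE Z Y := by
  unfold Phi
  have h1 : ∀ j ∈ range (k + 1), j ∉ range (J + 1) → lu p c b k cE Z Y j ^ a j = 1 := by
    intro j hj hj'
    rw [mem_range] at hj hj'
    rw [ha j (by omega) (by omega), zpow_zero]
  rw [← prod_subset (range_mono (by omega : J + 1 ≤ k + 1)) h1]
  refine prod_congr rfl fun j hj => ?_
  rw [lu_sub hp c b cE Z Y (by rw [mem_range] at hj; omega) hJ]

end comb

section val

variable {F : Type*} [Field F] {Γ₀ : Type*} [LinearOrderedCommGroupWithZero Γ₀]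

theorem root_int' (v : Valuation F Γ₀) {p : ℕ} (hp : p ≠ 0) {x y d : F} (hx : v x ≤ 1) (hd : v d ≤ 1)
    (h : y ^ p = x ^ p + d) : v y ≤ 1 := by
  have h1 : v (y ^ p) ≤ 1 := by
    rw [h]
    exact (v.map_add _ _).trans (max_le (by rw [map_pow]; exact pow_le_one₀ zero_le hx) hd)
  rw [map_pow] at h1
  exact (pow_le_one_iff hp).1 h1

theorem iter_int' (v : Valuation F Γ₀) {p : ℕ} (hp : p ≠ 0) {c b : F} (hc : v c ≤ 1) (hb : v b ≤ 1)
    (j : ℕ) {z : F} (h : (uf p c)^[j] z = b) : v z ≤ 1 := by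
  induction j generalizing z with
  | zero =>
    have h' : z = b := h
    rw [h']
    exact hb
  | succ j ih =>
    rw [Function.iterate_succ_apply] at h
    have h1 := ih h
    refine root_int' v hp (x := 0) (d := uf p c z - c) (by simp) ?_ (by simp [uf, hp])
    exact (v.map_sub _ _).trans (max_le h1 hc)

end val

section data

variable {K W : Type u} [Field K] [NumberField K] [Field W] [Algebra K W] [IsAlgClosed W]
  [Algebra.IsAlgebraic K W]

theorem orbit_add {p : ℕ} {c : K} {x : ℕ → K} (hx : ∀ n, x (n + 1) = x n ^ p + c) (n m : ℕ) :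
    (uf p c)^[m] (x n) = x (n + m) := by
  induction m with
  | zero => rfl
  | succ m ih =>
    rw [Function.iterate_succ_apply', ih, ← add_assoc, hx]
    rfl

/-- the order of a level unit at a place -/
theorem unit_order [CharZero W] {p : ℕ} (hp : 2 ≤ p) {c b : K}
    (hb : ∀ i y, (uf p (algebraMap K W c))^[i] y = algebraMap K W b → y ≠ algebraMap K W c)
    {x : ℕ → K} (hx : ∀ n, x (n + 1) = x n ^ p + c) {k j : ℕ} (hj : j ≤ k)
    (i : HeightOneSpectrum (𝓞 K) ⊕ (K →+* ℂ)) :
    ∃ (M : ℕ) (C : ℝ) (n0 : ℕ), ∀ n, n0 ≤ n → ∀ Y : W → W, EqRad p W c b k (x n) Y → ∀ v : K,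
      algebraMap K W v =
        lu p (algebraMap K W c) (algebraMap K W b) k (algebraMap K W c) (algebraMap K W (x n)) Y j →
      ∃ t : ℤ, |t| ≤ M ∧
        |Real.log (pabv i v) - t * (p ^ (k - j) * Real.log (pabv i (x n)))| ≤ C := by
  have hp0 : p ≠ 0 := by omega
  have := LF_nf (W := W) hp0 c b k
  obtain ⟨A, e, he, hA⟩ := exists_above (F := LF p W c b k) i
  obtain ⟨C, n0, h⟩ := order_prod A hp (algebraMap K (LF p W c b k) c)
    (fun n => algebraMap K (LF p W c b k) (x n)) (fun n => by rw [hx, map_add, map_pow])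
    (SF p W c b k j) (fun s hs => SF_ne hp0 hb hs) (k - j)
  refine ⟨(SF p W c b k j).card * p, C / e, n0, fun n hn Y hY v hv => ?_⟩
  obtain ⟨t, ht, h1⟩ := h n hn (YF p W c b k j Y) fun s hs => by
    rw [YF_pow hp0 hb hY hj hs, orbit_add hx]
  refine ⟨t, by exact_mod_cast ht, ?_⟩
  have h2 := lu_F hp0 hb hY hj hv
  rw [orbit_add hx] at h2
  rw [← h2, hA, hA, Real.log_pow, Real.log_pow] at h1
  have he' : (0 : ℝ) < e := by exact_mod_cast Nat.pos_of_ne_zero he
  rw [le_div_iff₀ he']
  have e1 : (e : ℝ) * Real.log (pabv i v) - t * (p ^ (k - j) * (e * Real.log (pabv i (x n)))) =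
    (Real.log (pabv i v) - t * (p ^ (k - j) * Real.log (pabv i (x n)))) * e := by ring
  rw [e1, abs_mul, abs_of_pos he'] at h1
  exact h1

/-- the level units are bounded at a place where the orbit is bounded -/
theorem unit_bdd [CharZero W] {p : ℕ} (hp : 2 ≤ p) {c b : K}
    (hb : ∀ i y, (uf p (algebraMap K W c))^[i] y = algebraMap K W b → y ≠ algebraMap K W c)
    {x : ℕ → K} (hx : ∀ n, x (n + 1) = x n ^ p + c) {k j : ℕ} (hj : j ≤ k)
    (i : HeightOneSpectrum (𝓞 K) ⊕ (K →+* ℂ)) {B : ℝ} (hB : ∀ n, pabv i (x n) ≤ B) :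
    ∃ C : ℝ, ∀ n, ∀ Y : W → W, EqRad p W c b k (x n) Y → ∀ v : K,
      algebraMap K W v =
        lu p (algebraMap K W c) (algebraMap K W b) k (algebraMap K W c) (algebraMap K W (x n)) Y j →
      |Real.log (pabv i v)| ≤ C := by
  have hp0 : p ≠ 0 := by omega
  have := LF_nf (W := W) hp0 c b k
  obtain ⟨A, e, he, hA⟩ := exists_above (F := LF p W c b k) i
  obtain ⟨C, h⟩ := prod_bounded A (by omega : 1 ≤ p) (algebraMap K (LF p W c b k) c) (B := B ^ e)
    (SF p W c b k j) (fun s hs => SF_ne hp0 hb hs)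
  refine ⟨C / e, fun n Y hY v hv => ?_⟩
  have h1 := h (algebraMap K (LF p W c b k) (x (n + (k - j)))) (by
    rw [hA]
    exact pow_le_pow_left₀ ((pabv i).nonneg _) (hB _) e) (YF p W c b k j Y) fun s hs => by
      rw [YF_pow hp0 hb hY hj hs, orbit_add hx]
  have h2 := lu_F hp0 hb hY hj hv
  rw [orbit_add hx] at h2
  rw [← h2, hA, Real.log_pow] at h1
  have he' : (0 : ℝ) < e := by exact_mod_cast Nat.pos_of_ne_zero he
  rw [le_div_iff₀ he']
  rw [mul_comm, abs_mul, abs_of_pos he'] at h1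
  exact h1

/-- the product of the differences `c - s` over a level -/
theorem prod_SF [CharZero W] {p : ℕ} (hp : p ≠ 0) {c b : K}
    (hb : ∀ i y, (uf p (algebraMap K W c))^[i] y = algebraMap K W b → y ≠ algebraMap K W c)
    {k j : ℕ} (hj : j ≤ k) :
    ∏ s ∈ SF p W c b k j, (algebraMap K (LF p W c b k) c - s) =
      algebraMap K (LF p W c b k) ((uf p c)^[j] c - b) := by
  classical
  apply (algebraMap (LF p W c b k) W).injective
  rw [← IsScalarTower.algebraMap_apply, map_prod, map_sub, uf_map,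
    ← prod_sub hp j fun i _ y hy => hb i y hy]
  have h1 : ∀ s ∈ SF p W c b k j, algebraMap (LF p W c b k) W (algebraMap K (LF p W c b k) c - s) =
      (fun s : W => algebraMap K W c - s) (algebraMap (LF p W c b k) W s) := by
    intro s hs
    rw [map_sub, ← IsScalarTower.algebraMap_apply]
  rw [prod_congr rfl h1, SF, Finset.prod_preimage (algebraMap (LF p W c b k) W)
    (pre p (algebraMap K W c) j (algebraMap K W b)) (algebraMap (LF p W c b k) W).injective.injOn
    (fun s : W => algebraMap K W c - s)]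
  intro s hs hns
  exact absurd ⟨⟨s, node_mem_LF hp hb hj hs⟩, rfl⟩ hns

/-- the level units are units outside a finite set of places -/
theorem unit_unit [CharZero W] {p : ℕ} (hp : 2 ≤ p) {c b : K}
    (hb : ∀ i y, (uf p (algebraMap K W c))^[i] y = algebraMap K W b → y ≠ algebraMap K W c)
    {x : ℕ → K} (hx : ∀ n, x (n + 1) = x n ^ p + c) {k j : ℕ} (hj : j ≤ k)
    (w : HeightOneSpectrum (𝓞 K)) (hc : w.valuation K c ≤ 1) (hbw : w.valuation K b ≤ 1)
    (h0 : w.valuation K (x 0) ≤ 1) (hjw : w.valuation K ((uf p c)^[j] c - b) = 1)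
    (n : ℕ) {Y : W → W} (hY : EqRad p W c b k (x n) Y) {v : K}
    (hv : algebraMap K W v =
        lu p (algebraMap K W c) (algebraMap K W b) k (algebraMap K W c) (algebraMap K W (x n)) Y j) :
    w.valuation K v = 1 := by
  have hp0 : p ≠ 0 := by omega
  have := LF_nf (W := W) hp0 c b k
  obtain ⟨⟨Q, hQ1, hQ2⟩⟩ := w.asIdeal.nonempty_primesOver (S := 𝓞 (LF p W c b k))
  have hQ0 : Q ≠ ⊥ := Ideal.ne_bot_of_mem_primesOver w.ne_bot ⟨hQ1, hQ2⟩
  let P : HeightOneSpectrum (𝓞 (LF p W c b k)) := ⟨Q, hQ1, hQ0⟩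
  have hlo : P.asIdeal.LiesOver w.asIdeal := hQ2
  set u := P.valuation (LF p W c b k) with hu
  have hc' : u (algebraMap K (LF p W c b k) c) ≤ 1 := (val_le_iff w P c).2 hc
  have hb' : u (algebraMap K (LF p W c b k) b) ≤ 1 := (val_le_iff w P b).2 hbw
  have hxn : ∀ n, w.valuation K (x n) ≤ 1 := by
    intro n
    induction n with
    | zero => exact h0
    | succ n ih =>
      rw [hx]
      refine ((w.valuation K).map_add _ _).trans (max_le ?_ hc)
      rw [map_pow]
      exact pow_le_one₀ zero_le ih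
  have hx' : u (algebraMap K (LF p W c b k) (x (n + (k - j)))) ≤ 1 := (val_le_iff w P _).2 (hxn _)
  have hs : ∀ s ∈ SF p W c b k j, u s ≤ 1 := by
    intro s hs
    refine iter_int' u hp0 hc' hb' j ?_
    rw [mem_SF, mem_pre hp0] at hs
    apply (algebraMap (LF p W c b k) W).injective
    rw [uf_map]
    exact hs
  have hcs : ∀ s ∈ SF p W c b k j, u (algebraMap K (LF p W c b k) c - s) ≤ 1 := fun s hs' =>
    (u.map_sub _ _).trans (max_le hc' (hs s hs'))
  have hpow : ∀ s ∈ SF p W c b k j, YF p W c b k j Y s ^ p =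
      algebraMap K (LF p W c b k) (x (n + (k - j))) ^ p + (algebraMap K (LF p W c b k) c - s) := by
    intro s hs
    rw [YF_pow hp0 hb hY hj hs, orbit_add hx]
  have hys : ∀ s ∈ SF p W c b k j, u (YF p W c b k j Y s) ≤ 1 := fun s hs' =>
    root_int' u hp0 hx' (hcs s hs') (hpow s hs')
  have h2 := lu_F hp0 hb hY hj hv
  rw [orbit_add hx] at h2
  rw [← val_eq_iff w P, h2, map_prod]
  have h3 : ∏ s ∈ SF p W c b k j, u (algebraMap K (LF p W c b k) c - s) = 1 := by
    rw [← map_prod, prod_SF hp0 hb hj]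
    exact (val_eq_iff w P _).2 hjw
  have h4 : ∀ s ∈ SF p W c b k j, u (algebraMap K (LF p W c b k) c - s) = 1 := by
    intro s hs'
    refine le_antisymm (hcs s hs') ?_
    rw [← h3]
    classical
    rw [← mul_prod_erase _ _ hs']
    exact mul_le_of_le_one_right' (prod_le_one' fun s'' hs'' => hcs s'' (mem_of_mem_erase hs''))
  refine prod_eq_one fun s hs' => ?_
  set X := algebraMap K (LF p W c b k) (x (n + (k - j)))
  set y := YF p W c b k j Y s
  have h5 : u (X - y) ≤ 1 := (u.map_sub _ _).trans (max_le hx' (hys s hs'))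
  have h6 : u (∑ i ∈ range p, X ^ i * y ^ (p - 1 - i)) ≤ 1 := by
    refine u.map_sum_le fun i _ => ?_
    rw [map_mul, map_pow, map_pow]
    exact mul_le_one' (pow_le_one₀ zero_le hx') (pow_le_one₀ zero_le (hys s hs'))
  have h7 : u (X - y) * u (∑ i ∈ range p, X ^ i * y ^ (p - 1 - i)) = 1 := by
    rw [← map_mul, mul_comm, Commute.geom_sum₂_mul (Commute.all X y)]
    have : X ^ p - y ^ p = -(algebraMap K (LF p W c b k) c - s) := by
      rw [hpow s hs']
      ring
    rw [this, Valuation.map_neg]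
    exact h4 s hs'
  refine le_antisymm h5 ?_
  rw [← h7]
  exact mul_le_of_le_one_right' h6

end data

end Pool.Agent.ORB.UQ
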