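import Pool.Agent.ORB.UTameA
import Pool.Agent.ORB.UDefs

/-!
ORB, Theorem V for unicritical maps of any degree `d`: uniform flips at tame places.

If `v` is a place with `v d = 1`, `v c ≤ 1`, `v c < v b`, `v b ≠ 1`, then there are uniform flips at
all high levels.  The inertia group of a prime over `v` in `K(Lev (l + 1))` is mapped injectively
to the units of the residue field by `σ ↦ σ z / z`, `z` any point of the level `l + 1`, and its
order is the ramification index, which is divisible by `d`.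
-/

set_option autoImplicit false

namespace Pool.Agent.ORB.UQ

open NumberField IsDedekindDomain WithZero

universe u

section val

variable {M Γ : Type*} [Field M] [LinearOrderedCommGroupWithZero Γ] (w : Valuation M Γ)

theorem near_mul {x y x' y' : M} (hx : w x ≤ 1) (hy' : w y' ≤ 1) (h : w (x - y) < 1)
    (h' : w (x' - y') < 1) : w (x * x' - y * y') < 1 := by
  have e : x * x' - y * y' = x * (x' - y') + (x - y) * y' := by ring
  rw [e]
  refine lt_of_le_of_lt (Valuation.map_add _ _ _) (max_lt ?_ ?_)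
  · rw [map_mul]
    exact lt_of_le_of_lt (mul_le_of_le_one_left' hx) h'
  · rw [map_mul]
    exact lt_of_le_of_lt (mul_le_of_le_one_right' hy') h

theorem near_trans {x y z : M} (h : w (x - y) < 1) (h' : w (y - z) < 1) : w (x - z) < 1 := by
  have e : x - z = (x - y) + (y - z) := by ring
  rw [e]
  exact lt_of_le_of_lt (Valuation.map_add _ _ _) (max_lt h h')

theorem near_symm {x y : M} (h : w (x - y) < 1) : w (y - x) < 1 := by
  rwa [← Valuation.map_neg, neg_sub]

theorem near_pow {x y : M} (hx : w x ≤ 1) (hy : w y ≤ 1) (h : w (x - y) < 1) (n : ℕ) :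
    w (x ^ n - y ^ n) < 1 := by
  induction n with
  | zero => simp
  | succ n ih =>
    rw [pow_succ, pow_succ]
    exact near_mul w (by rw [map_pow]; exact pow_le_one₀ zero_le hx) hy ih h

/-- roots of unity of order prime to the residue characteristic are distinct modulo the maximal
ideal -/
theorem root_sep {d : ℕ} (hw : w (d : M) = 1) {ξ ξ' : M} (h : ξ ^ d = 1) (h' : ξ' ^ d = 1)
    (hlt : w (ξ - ξ') < 1) : ξ = ξ' := by
  have hd : d ≠ 0 := by
    rintro rfl
    simp at hw
  have h1 : ∀ x : M, x ^ d = 1 → w x = 1 := by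
    intro x hx
    have h2 : w x ^ d = 1 := by rw [← map_pow, hx, map_one]
    exact (pow_eq_one_iff_of_nonneg zero_le hd).1 h2
  by_contra hne
  have hne' : ξ - ξ' ≠ 0 := sub_ne_zero.2 hne
  have h3 : ∑ i ∈ Finset.range d, ξ ^ i * ξ' ^ (d - 1 - i) = 0 := by
    have h4 := (Commute.all ξ ξ').geom_sum₂_mul d
    rw [h, h', sub_self] at h4
    exact (mul_eq_zero.1 h4).resolve_right hne'
  have h5 : ∑ i ∈ Finset.range d, ξ ^ i * ξ' ^ (d - 1 - i) - d * ξ' ^ (d - 1) =
      ∑ i ∈ Finset.range d, (ξ ^ i - ξ' ^ i) * ξ' ^ (d - 1 - i) := by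
    rw [show (d : M) * ξ' ^ (d - 1) = ∑ _i ∈ Finset.range d, ξ' ^ (d - 1) by simp,
      ← Finset.sum_sub_distrib]
    refine Finset.sum_congr rfl fun i hi => ?_
    rw [Finset.mem_range] at hi
    have e : ξ' ^ (d - 1) = ξ' ^ i * ξ' ^ (d - 1 - i) := by
      rw [← pow_add]; congr 1; omega
    rw [e]
    ring
  have h6 : w (∑ i ∈ Finset.range d, (ξ ^ i - ξ' ^ i) * ξ' ^ (d - 1 - i)) < 1 := by
    refine Valuation.map_sum_lt _ one_ne_zero fun i _ => ?_
    rw [map_mul, map_pow, h1 ξ' h', one_pow, mul_one]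
    exact near_pow w (h1 ξ h).le (h1 ξ' h').le hlt i
  rw [← h5, h3, zero_sub, Valuation.map_neg, map_mul, hw, map_pow, h1 ξ' h', one_pow, one_mul] at h6
  exact absurd h6 (lt_irrefl _)

end val

section key

variable {K M Γ : Type*} [Field K] [Field M] [Algebra K M] [LinearOrderedCommGroupWithZero Γ]
  (w : Valuation M Γ) {d : ℕ} {c b : K}

theorem lev_val (hd : d ≠ 0) (hc : w (algebraMap K M c) ≤ 1)
    (hcb : w (algebraMap K M c) < w (algebraMap K M b)) {j : ℕ} {z : M}
    (hz : z ∈ Lev d M c b j) :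
    w (algebraMap K M c) < w z ∧ w (algebraMap K M b) = w z ^ (d ^ j) := by
  have h1 := val_lev w hd hc j (x := z) (by rw [mem_Lev.1 hz]; exact hcb)
  rw [mem_Lev.1 hz] at h1
  exact h1

theorem lev_ne (hd : d ≠ 0) (hc : w (algebraMap K M c) ≤ 1)
    (hcb : w (algebraMap K M c) < w (algebraMap K M b)) {j : ℕ} {z : M}
    (hz : z ∈ Lev d M c b j) : w z ≠ 0 :=
  (lt_of_le_of_lt zero_le (lev_val w hd hc hcb hz).1).ne'

theorem lev_eq (hd : d ≠ 0) (hc : w (algebraMap K M c) ≤ 1)
    (hcb : w (algebraMap K M c) < w (algebraMap K M b)) {j : ℕ} {z z' : M}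
    (hz : z ∈ Lev d M c b j) (hz' : z' ∈ Lev d M c b j) : w z = w z' := by
  have h1 := (lev_val w hd hc hcb hz).2
  rw [(lev_val w hd hc hcb hz').2] at h1
  exact (pow_left_inj₀ zero_le zero_le (pow_ne_zero j hd)).1 h1.symm

variable {σ : M ≃ₐ[K] M} (hσ : ∀ u : M, w u ≤ 1 → w (σ u - u) < 1)

include hσ in
/-- `σ z / z` modulo the maximal ideal does not depend on the point of the level -/
theorem ratio_indep (hd : d ≠ 0) (hc : w (algebraMap K M c) ≤ 1)
    (hcb : w (algebraMap K M c) < w (algebraMap K M b)) {j : ℕ} {z z' : M}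
    (hz : z ∈ Lev d M c b j) (hz' : z' ∈ Lev d M c b j) : w (σ z / z - σ z' / z') < 1 := by
  have h0 := lev_ne w hd hc hcb hz
  have h0' := lev_ne w hd hc hcb hz'
  have hz0 : z ≠ 0 := (Valuation.ne_zero_iff w).1 h0
  have hz0' : z' ≠ 0 := (Valuation.ne_zero_iff w).1 h0'
  have hs0' : σ z' ≠ 0 := fun h => hz0' (by simpa using h)
  have hu : w (z / z') = 1 := by rw [map_div₀, lev_eq w hd hc hcb hz hz', div_self h0']
  have h1 := hσ (z / z') hu.le
  have h2 : w (σ z' / z') = 1 := by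
    rw [map_div₀, lev_eq w hd hc hcb (Lev_aut σ hz') hz', div_self h0']
  have e : σ z / z - σ z' / z' = (σ (z / z') - z / z') / (z / z') * (σ z' / z') := by
    rw [map_div₀]
    field_simp
  rw [e, map_mul, map_div₀, hu, h2, div_one, mul_one]
  exact h1

/-- the value of `σ z` -/
theorem val_aut (hd : d ≠ 0) (hc : w (algebraMap K M c) ≤ 1)
    (hcb : w (algebraMap K M c) < w (algebraMap K M b)) {j : ℕ} {z : M}
    (hz : z ∈ Lev d M c b j) : w (σ z / z) = 1 := by
  rw [map_div₀, lev_eq w hd hc hcb (Lev_aut σ hz) hz, div_self (lev_ne w hd hc hcb hz)]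

/-- the `d`-th power of `σ z / z` -/
theorem ratio_step (hd : d ≠ 0) (hc : w (algebraMap K M c) ≤ 1)
    (hcb : w (algebraMap K M c) < w (algebraMap K M b)) {j : ℕ} {z : M}
    (hz : z ∈ Lev d M c b (j + 1)) :
    w ((σ z / z) ^ d - σ (uf d (algebraMap K M c) z) / uf d (algebraMap K M c) z) < 1 := by
  set y := uf d (algebraMap K M c) z with hy
  have hyl : y ∈ Lev d M c b j := Lev_succ.1 hz
  have hzc := (lev_val w hd hc hcb hz).1
  have hyc := (lev_val w hd hc hcb hyl).1
  have hy0 := lev_ne w hd hc hcb hyl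
  have hz0 := lev_ne w hd hc hcb hz
  have hy0' : y ≠ 0 := (Valuation.ne_zero_iff w).1 hy0
  have hz0' : z ≠ 0 := (Valuation.ne_zero_iff w).1 hz0
  have e1 : z ^ d = y - algebraMap K M c := by rw [hy, uf]; ring
  have hwz : w (z ^ d) = w y := by
    rw [e1]
    exact Valuation.map_sub_eq_of_lt_left _ hyc
  have e2 : (σ z) ^ d = σ y - algebraMap K M c := by
    rw [← map_pow, e1, map_sub, AlgEquiv.commutes]
  have hu : w (σ y / y) = 1 := val_aut w hd hc hcb hyl
  have h1 : w (σ y - y) ≤ w y := by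
    refine le_trans (Valuation.map_sub _ _ _) (max_le ?_ le_rfl)
    rw [lev_eq w hd hc hcb (Lev_aut σ hyl) hyl]
  have e3 : (σ z / z) ^ d - σ y / y = algebraMap K M c * (σ y - y) / (z ^ d * y) := by
    rw [div_pow, e2]
    have hzd : z ^ d ≠ 0 := pow_ne_zero _ hz0'
    rw [div_sub_div _ _ hzd hy0']
    congr 1
    rw [e1]
    ring
  rw [e3, map_div₀, map_mul, map_mul, hwz]
  have h2 : w (algebraMap K M c) * w (σ y - y) < w y * w y := by
    calc w (algebraMap K M c) * w (σ y - y) ≤ w (algebraMap K M c) * w y := mul_le_mul' le_rfl h1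
      _ < w y * w y := mul_lt_mul_of_pos_right hyc (zero_lt_iff.2 hy0)
  rw [div_lt_one₀ (zero_lt_iff.2 (mul_ne_zero hy0 hy0))]
  exact h2

/-- The key lemma: an automorphism of the inertia group which is near a root of unity `ξ` on a level
fixes the lower levels and multiplies the level by `ξ`. -/
theorem key (hd : d ≠ 0) (hwd : w (d : M) = 1) (hc : w (algebraMap K M c) ≤ 1)
    (hcb : w (algebraMap K M c) < w (algebraMap K M b)) {N : ℕ}
    (hsurj : ∀ j < N, ∀ y ∈ Lev d M c b j, ∃ z : M, uf d (algebraMap K M c) z = y) :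
    ∀ j ≤ N, ∀ ξ : M, ξ ^ d = 1 → (∀ z ∈ Lev d M c b j, w (σ z / z - ξ) < 1) →
      (∀ z ∈ Lev d M c b j, σ z = ξ * z) ∧ ∀ i < j, ∀ y ∈ Lev d M c b i, σ y = y := by
  intro j
  induction j with
  | zero =>
    intro _ ξ hξ h
    refine ⟨fun z hz => ?_, fun i hi => absurd hi (Nat.not_lt_zero i)⟩
    have hzb : z = algebraMap K M b := hz
    have hz0 : z ≠ 0 := (Valuation.ne_zero_iff w).1 (lev_ne w hd hc hcb hz)
    have h1 := h z hz
    have h2 : σ z = z := by rw [hzb, AlgEquiv.commutes]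
    rw [h2, div_self hz0] at h1
    have h3 : (1 : M) = ξ := root_sep w hwd (one_pow d) hξ h1
    rw [h2, ← h3, one_mul]
  | succ j ih =>
    intro hj ξ hξ h
    have hξ1 : w ξ = 1 := by
      have h2 : w ξ ^ d = 1 := by rw [← map_pow, hξ, map_one]
      exact (pow_eq_one_iff_of_nonneg zero_le hd).1 h2
    have h1 : ∀ y ∈ Lev d M c b j, w (σ y / y - 1) < 1 := by
      intro y hy
      obtain ⟨z, hz⟩ := hsurj j (by omega) y hy
      have hzl : z ∈ Lev d M c b (j + 1) := Lev_succ.2 (by rw [hz]; exact hy)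
      have h2 := ratio_step (σ := σ) w hd hc hcb hzl
      rw [hz] at h2
      have h3 := near_pow w (val_aut w hd hc hcb hzl).le hξ1.le (h z hzl) d
      rw [hξ] at h3
      exact near_trans w (near_symm w h2) h3
    obtain ⟨h4, h5⟩ := ih (by omega) 1 (one_pow d) h1
    have h6 : ∀ y ∈ Lev d M c b j, σ y = y := fun y hy => by rw [h4 y hy, one_mul]
    refine ⟨fun z hz => ?_, fun i hi y hy => ?_⟩
    · have hz0 : z ≠ 0 := (Valuation.ne_zero_iff w).1 (lev_ne w hd hc hcb hz)
      have hyl : uf d (algebraMap K M c) z ∈ Lev d M c b j := Lev_succ.1 hz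
      have e1 : z ^ d = uf d (algebraMap K M c) z - algebraMap K M c := by rw [uf]; ring
      have e2 : (σ z) ^ d = z ^ d := by
        rw [← map_pow, e1, map_sub, AlgEquiv.commutes, h6 _ hyl]
      have e3 : (σ z / z) ^ d = 1 := by
        rw [div_pow, e2, div_self (pow_ne_zero _ hz0)]
      have e4 := root_sep w hwd e3 hξ (h z hz)
      rw [← e4, div_mul_cancel₀ _ hz0]
    · rcases Nat.lt_succ_iff_lt_or_eq.1 hi with h7 | rfl
      · exact h5 i h7 y hy
      · exact h6 y hy

end key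

section hom

variable {M Γ : Type*} [Field M] [LinearOrderedCommGroupWithZero Γ] (w : Valuation M Γ)

open Classical in
/-- the class of an integral element in the residue field -/
noncomputable def red (u : M) : IsLocalRing.ResidueField w.valuationSubring :=
  if h : w u ≤ 1 then IsLocalRing.residue w.valuationSubring ⟨u, h⟩ else 0

theorem red_of {u : M} (h : w u ≤ 1) :
    red w u = IsLocalRing.residue w.valuationSubring ⟨u, h⟩ := by
  rw [red, dif_pos h]

theorem red_one : red w 1 = 1 := by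
  rw [red_of w (by rw [map_one])]
  exact map_one _

theorem red_mul {u u' : M} (h : w u ≤ 1) (h' : w u' ≤ 1) :
    red w (u * u') = red w u * red w u' := by
  have h1 : w (u * u') ≤ 1 := by
    rw [map_mul]
    exact mul_le_one₀ h zero_le h'
  rw [red_of w h, red_of w h', red_of w h1, ← map_mul]
  rfl

theorem red_eq_iff {u u' : M} (h : w u ≤ 1) (h' : w u' ≤ 1) :
    red w u = red w u' ↔ w (u - u') < 1 := by
  have h1 : w (u - u') ≤ 1 := le_trans (Valuation.map_sub _ _ _) (max_le h h')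
  rw [red_of w h, red_of w h', ← sub_eq_zero, ← map_sub, IsLocalRing.residue_eq_zero_iff,
    IsLocalRing.mem_maximalIdeal, mem_nonunits_iff]
  have e : (⟨u, h⟩ : w.valuationSubring) - ⟨u', h'⟩ = ⟨u - u', h1⟩ := rfl
  rw [e]
  constructor
  · intro h2
    by_contra h3
    rw [not_lt] at h3
    have h4 : w (u - u') = 1 := le_antisymm h1 h3
    apply h2
    have h5 : u - u' ≠ 0 := by
      intro h0
      rw [h0, map_zero] at h4
      exact zero_ne_one h4
    have h6 : w (u - u')⁻¹ ≤ 1 := by rw [map_inv₀, h4, inv_one]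
    rw [isUnit_iff_exists_inv]
    exact ⟨⟨(u - u')⁻¹, h6⟩, Subtype.ext (mul_inv_cancel₀ h5)⟩
  · intro h2 h3
    obtain ⟨⟨y, hy⟩, h4⟩ := isUnit_iff_exists_inv.1 h3
    have h5 : (u - u') * y = 1 := congrArg Subtype.val h4
    have h6 : w (u - u') * w y = 1 := by rw [← map_mul, h5, map_one]
    have h7 : w (u - u') * w y < 1 := by
      have hy' : w y ≤ 1 := hy
      exact lt_of_le_of_lt (mul_le_of_le_one_right' hy') h2
    exact absurd h6 h7.ne

variable {K : Type*} [Field K] [Algebra K M] (I : Subgroup (M ≃ₐ[K] M))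
  (hI : ∀ σ ∈ I, ∀ u : M, w u ≤ 1 → w (σ u - u) < 1) {z : M} (hz0 : z ≠ 0)
  (hz : ∀ σ ∈ I, w (σ z / z) = 1)

/-- the character of the inertia group -/
noncomputable def chi : I →* IsLocalRing.ResidueField w.valuationSubring where
  toFun σ := red w ((σ : M ≃ₐ[K] M) z / z)
  map_one' := by
    have e : ((1 : I) : M ≃ₐ[K] M) z / z = 1 := div_self hz0
    rw [e, red_one]
  map_mul' σ τ := by
    have hσ := hz σ σ.2
    have hτ := hz τ τ.2
    have hτz : (τ : M ≃ₐ[K] M) z ≠ 0 := fun h => hz0 (by simpa using h)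
    have hσz : (σ : M ≃ₐ[K] M) z ≠ 0 := fun h => hz0 (by simpa using h)
    have e : ((σ * τ : I) : M ≃ₐ[K] M) z / z =
        (σ : M ≃ₐ[K] M) ((τ : M ≃ₐ[K] M) z / z) * ((σ : M ≃ₐ[K] M) z / z) := by
      have e1 : ((σ * τ : I) : M ≃ₐ[K] M) z = (σ : M ≃ₐ[K] M) ((τ : M ≃ₐ[K] M) z) := rfl
      rw [e1, map_div₀]
      field_simp
    have h1 := hI σ σ.2 _ hτ.le
    have h2 : w ((σ : M ≃ₐ[K] M) ((τ : M ≃ₐ[K] M) z / z)) ≤ 1 := by
      have e2 : (σ : M ≃ₐ[K] M) ((τ : M ≃ₐ[K] M) z / z) =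
          ((σ : M ≃ₐ[K] M) ((τ : M ≃ₐ[K] M) z / z) - (τ : M ≃ₐ[K] M) z / z) +
            (τ : M ≃ₐ[K] M) z / z := by ring
      rw [e2]
      exact le_trans (Valuation.map_add _ _ _) (max_le h1.le hτ.le)
    rw [e, red_mul w h2 hσ.le, (red_eq_iff w h2 hτ.le).2 h1, mul_comm]

include hI hz0 hz in
/-- If the character is injective and `d` divides the order of the group, then all `d`-th roots of
unity are values of the character. -/
theorem exists_root_val [Finite I] {d : ℕ} (hd : d ≠ 0) (hcard : d ∣ Nat.card I)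
    (hinj : ∀ σ ∈ I, w (σ z / z - 1) < 1 → σ = 1) {ξ : M} (hξ : ξ ^ d = 1) :
    ∃ σ ∈ I, w (σ z / z - ξ) < 1 := by
  have hwξ : w ξ = 1 := by
    have h2 : w ξ ^ d = 1 := by rw [← map_pow, hξ, map_one]
    exact (pow_eq_one_iff_of_nonneg zero_le hd).1 h2
  set χ := chi w I hI hz0 hz with hχ
  have hχa : ∀ σ : I, χ σ = red w ((σ : M ≃ₐ[K] M) z / z) := fun σ => rfl
  have hχi : Function.Injective χ := by
    rw [injective_iff_map_eq_one]
    intro σ h
    rw [hχa, ← red_one, red_eq_iff w (hz σ σ.2).le (by rw [map_one])] at h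
    exact Subtype.ext (hinj σ σ.2 h)
  have hcyc : IsCyclic I := isCyclic_of_injective_ringHom χ hχi
  obtain ⟨g, hg⟩ := IsCyclic.exists_ofOrder_eq_natCard (α := I)
  obtain ⟨e, he⟩ := hcard
  have hNpos : 0 < Nat.card I := Nat.card_pos
  have he0 : e ≠ 0 := by
    rintro rfl
    rw [mul_zero] at he
    omega
  have hord : orderOf (g ^ e) = d := by
    rw [orderOf_pow_of_dvd he0 (by rw [hg, he]; exact Dvd.intro_left d rfl), hg, he]
    exact Nat.mul_div_cancel _ (Nat.pos_of_ne_zero he0)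
  have hprim : IsPrimitiveRoot (χ (g ^ e)) d := by
    rw [IsPrimitiveRoot.iff_orderOf, orderOf_injective χ hχi, hord]
  have hredξ : red w ξ ^ d = 1 := by
    have h1 : ∀ n : ℕ, red w (ξ ^ n) = red w ξ ^ n := by
      intro n
      induction n with
      | zero => rw [pow_zero, pow_zero, red_one]
      | succ n ih =>
        rw [pow_succ, pow_succ, red_mul w (by rw [map_pow, hwξ, one_pow]) hwξ.le, ih]
    rw [← h1, hξ, red_one]
  have : NeZero d := ⟨hd⟩
  obtain ⟨i, -, hi⟩ := hprim.eq_pow_of_pow_eq_one hredξ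
  refine ⟨((g ^ e) ^ i : I), ((g ^ e) ^ i : I).2, ?_⟩
  rw [← red_eq_iff w (hz _ ((g ^ e) ^ i : I).2).le hwξ.le, ← hχa, map_pow, hi]

end hom

section arith

/-- for large `l` the factor `d` is not used up by `e` -/
theorem dvd_of_pow {d e : ℕ} (hd : d ≠ 0) (he : e ≠ 0) {l r : ℕ} (hl : e ≤ l)
    (h : d ^ (l + 1) ∣ r * e) : d ∣ r := by
  have h1 : Nat.gcd e (d ^ (l + 1)) ∣ d ^ l := by
    rw [Nat.dvd_iff_prime_pow_dvd_dvd]
    intro q k hq hk
    rcases Nat.eq_zero_or_pos k with rfl | hk0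
    · simp
    have h2 : q ^ k ∣ e := hk.trans (Nat.gcd_dvd_left _ _)
    have h3 : q ^ k ∣ d ^ (l + 1) := hk.trans (Nat.gcd_dvd_right _ _)
    have h4 : q ∣ d := hq.dvd_of_dvd_pow ((dvd_pow_self q hk0.ne').trans h3)
    have h5 : k < q ^ k := Nat.lt_pow_self hq.one_lt
    have h6 : q ^ k ≤ e := Nat.le_of_dvd (Nat.pos_of_ne_zero he) h2
    exact (pow_dvd_pow q (by omega : k ≤ l)).trans (pow_dvd_pow_of_dvd h4 l)
  have h2 : d ^ (l + 1) ∣ r * Nat.gcd e (d ^ (l + 1)) := by
    rw [← Nat.gcd_mul_left]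
    exact Nat.dvd_gcd h (Dvd.intro_left r rfl)
  have h3 : d ^ (l + 1) ∣ r * d ^ l := h2.trans (Nat.mul_dvd_mul_left r h1)
  rw [pow_succ, mul_comm] at h3
  exact Nat.dvd_of_mul_dvd_mul_right (Nat.pow_pos (Nat.pos_of_ne_zero hd)) h3

end arith

section final

variable {K W : Type u} [Field K] [NumberField K] [Field W] [Algebra K W] [IsAlgClosed W]
  [Algebra.IsAlgebraic K W]

/-- **Uniform flips at a tame place**, for every degree `d`. -/
theorem flips_tame {d : ℕ} (hd : 2 ≤ d) {ζ c b : K} (hζ : ζ ^ d = 1) (v : HeightOneSpectrum (𝓞 K))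
    (hv : v.valuation K (d : K) = 1) (hc : v.valuation K c ≤ 1)
    (hcb : v.valuation K c < v.valuation K b) (hb1 : v.valuation K b ≠ 1) :
    ∃ l0, ∀ l, l0 ≤ l → FlipAt d ζ W c b l := by
  have hd0 : d ≠ 0 := by omega
  have hCZ : CharZero W := charZero_of_injective_algebraMap (algebraMap K W).injective
  have hcl : IsAlgClosure K W := ⟨inferInstance, inferInstance⟩
  have hn : Normal K W := IsAlgClosure.normal K W
  have hb0 : b ≠ 0 := by
    rintro rfl
    rw [map_zero] at hcb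
    exact absurd hcb (not_lt.2 zero_le)
  have hvb : v.valuation K b ≠ 0 := (Valuation.ne_zero_iff _).2 hb0
  have he0 : (ordp v b).natAbs ≠ 0 := by
    intro h
    have h1 : ordp v b = 0 := Int.natAbs_eq_zero.1 h
    apply hb1
    unfold ordp at h1
    rw [neg_eq_zero] at h1
    rw [← exp_log hvb, h1, exp_zero]
  refine ⟨(ordp v b).natAbs, fun l hl => ?_⟩
  -- the field generated by the levels up to `l + 1`
  let S : Set W := ⋃ j ∈ Finset.range (l + 2), Lev d W c b j
  have hSfin : S.Finite := Set.Finite.biUnion (Finset.finite_toSet _) fun j _ => Lev_finite hd0 c b j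
  have hSmem : ∀ j ≤ l + 1, ∀ y ∈ Lev d W c b j, y ∈ S := fun j hj y hy =>
    Set.mem_biUnion (Finset.mem_coe.2 (Finset.mem_range.2 (by omega))) hy
  let M : IntermediateField K W := IntermediateField.adjoin K S
  have hfin' : Finite S := hSfin
  have hMfd : FiniteDimensional K M :=
    IntermediateField.finiteDimensional_adjoin fun x _ => Algebra.IsIntegral.isIntegral x
  have hMnf : NumberField M := by
    have : FiniteDimensional ℚ M := FiniteDimensional.trans ℚ K M
    exact { to_charZero := inferInstance, to_finiteDimensional := this }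
  have hSM : ∀ y ∈ S, y ∈ M := fun y hy => IntermediateField.subset_adjoin K S hy
  have hnorm : Normal K M := by
    refine IntermediateField.normal_iff_forall_map_le'.2 fun σ => ?_
    rw [IntermediateField.adjoin_map, IntermediateField.adjoin_le_iff]
    rintro _ ⟨y, hy, rfl⟩
    obtain ⟨j, hj, hy⟩ := Set.mem_iUnion₂.1 hy
    refine hSM _ (Set.mem_biUnion hj ?_)
    exact Lev_aut σ hy
  have hgal : IsGalois K M := { to_isSeparable := inferInstance, to_normal := hnorm }
  -- the levels inside `M`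
  have hLev : ∀ (j : ℕ) (z : M), z ∈ Lev d M c b j ↔ (z : W) ∈ Lev d W c b j := by
    intro j z
    rw [mem_Lev, mem_Lev]
    have h1 := uf_map (algebraMap M W) d (algebraMap K M c) z j
    have h2 : algebraMap M W (algebraMap K M c) = algebraMap K W c := rfl
    have h3 : algebraMap M W (algebraMap K M b) = algebraMap K W b := rfl
    have h4 : algebraMap M W z = (z : W) := rfl
    rw [h2, h4] at h1
    rw [← h1, ← h3]
    exact (algebraMap M W).injective.eq_iff.symm
  -- the place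
  obtain ⟨⟨Q, hQ1, hQ2⟩⟩ := v.asIdeal.nonempty_primesOver (S := 𝓞 M)
  have hQ0 : Q ≠ ⊥ := Ideal.ne_bot_of_mem_primesOver v.ne_bot ⟨hQ1, hQ2⟩
  let P : HeightOneSpectrum (𝓞 M) := ⟨Q, hQ1, hQ0⟩
  have hlo : P.asIdeal.LiesOver v.asIdeal := hQ2
  set w := P.valuation M with hw
  have hwd : w (d : M) = 1 := by
    have := (val_eq_iff v P (d : K)).2 hv
    rwa [map_natCast] at this
  have hwc : w (algebraMap K M c) ≤ 1 := (val_le_iff v P c).2 hc
  have hram : v.asIdeal.ramificationIdx' P.asIdeal ≠ 0 := ram_ne_zero v P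
  have hwcb : w (algebraMap K M c) < w (algebraMap K M b) := by
    rw [hw, ← HeightOneSpectrum.valuation_liesOver M v P, ← HeightOneSpectrum.valuation_liesOver M v P]
    exact pow_lt_pow_left₀ hcb zero_le hram
  have hsurj : ∀ j < l + 1, ∀ y ∈ Lev d M c b j, ∃ z : M, uf d (algebraMap K M c) z = y := by
    intro j hj y hy
    obtain ⟨z, hz⟩ := IsAlgClosed.exists_pow_nat_eq ((y : W) - algebraMap K W c) (Nat.pos_of_ne_zero hd0)
    have h1 : uf d (algebraMap K W c) z = (y : W) := by rw [uf, hz]; ring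
    have h2 : z ∈ Lev d W c b (j + 1) := Lev_succ.2 (by rw [h1]; exact (hLev j y).1 hy)
    have h3 : z ∈ M := hSM z (hSmem (j + 1) (by omega) z h2)
    refine ⟨⟨z, h3⟩, Subtype.ext ?_⟩
    rw [← h1]
    rfl
  -- the inertia group
  let I : Subgroup (M ≃ₐ[K] M) := P.asIdeal.inertia (M ≃ₐ[K] M)
  have hI : ∀ σ ∈ I, ∀ u : M, w u ≤ 1 → w (σ u - u) < 1 := by
    intro σ hσ u hu
    obtain ⟨a, ⟨s, hs⟩, e⟩ := P.exists_primeCompl_mul_eq_of_integer u hu
    have h1 : ∀ x : 𝓞 M, w (σ (algebraMap (𝓞 M) M x) - algebraMap (𝓞 M) M x) < 1 := by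
      intro x
      have h2 : σ • x - x ∈ P.asIdeal := hσ x
      exact (HeightOneSpectrum.valuation_lt_one_iff_mem (K := M) P _).2 h2
    have hs1 : w (algebraMap (𝓞 M) M s) = 1 := by
      rw [hw, HeightOneSpectrum.valuation_of_algebraMap]
      exact (P.intValuation_eq_one_iff_mem_primeCompl s).2 hs
    have hs0 : algebraMap (𝓞 M) M s ≠ 0 := by
      intro h0
      rw [h0, map_zero] at hs1
      exact zero_ne_one hs1
    have ha : algebraMap (𝓞 M) M a = u * algebraMap (𝓞 M) M s := e.symm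
    have hσs1 : w (σ (algebraMap (𝓞 M) M s)) = 1 := by
      have h2 : σ (algebraMap (𝓞 M) M s) =
          (σ (algebraMap (𝓞 M) M s) - algebraMap (𝓞 M) M s) + algebraMap (𝓞 M) M s := by ring
      rw [h2, Valuation.map_add_eq_of_lt_right _ (by rw [hs1]; exact h1 s), hs1]
    have h3 : (σ u - u) * σ (algebraMap (𝓞 M) M s) =
        (σ (algebraMap (𝓞 M) M a) - algebraMap (𝓞 M) M a) -
          u * (σ (algebraMap (𝓞 M) M s) - algebraMap (𝓞 M) M s) := by
      rw [ha, map_mul]
      ring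
    have h4 : w ((σ u - u) * σ (algebraMap (𝓞 M) M s)) < 1 := by
      rw [h3]
      refine lt_of_le_of_lt (Valuation.map_sub _ _ _) (max_lt (h1 a) ?_)
      rw [map_mul]
      exact lt_of_le_of_lt (mul_le_of_le_one_left' hu) (h1 s)
    rw [map_mul, hσs1, mul_one] at h4
    exact h4
  have hcard : Nat.card I = v.asIdeal.ramificationIdx' P.asIdeal := by
    have hvp : v.asIdeal.IsPrime := v.isPrime
    have hPp : P.asIdeal.IsPrime := P.isPrime
    have h1 := Ideal.card_inertia_eq_ramificationIdxIn (G := M ≃ₐ[K] M) v.asIdeal P.asIdeal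
    rw [Ideal.ramificationIdxIn_eq_ramificationIdx v.asIdeal P.asIdeal (M ≃ₐ[K] M)] at h1
    rw [Ideal.ramificationIdx'_eq_ramificationIdx v.asIdeal P.asIdeal v.ne_bot]
    exact h1
  -- a point of the level
  have hne : ∀ j ≤ l + 1, ∃ z : M, z ∈ Lev d M c b j := by
    intro j
    induction j with
    | zero => intro _; exact ⟨algebraMap K M b, rfl⟩
    | succ j ih =>
      intro hj
      obtain ⟨y, hy⟩ := ih (by omega)
      obtain ⟨z, hz⟩ := hsurj j (by omega) y hy
      exact ⟨z, Lev_succ.2 (by rw [hz]; exact hy)⟩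
  obtain ⟨z0, hz0⟩ := hne (l + 1) le_rfl
  have hz00 : z0 ≠ 0 := (Valuation.ne_zero_iff w).1 (lev_ne w hd0 hwc hwcb hz0)
  -- `d` divides the order of the inertia group
  have hdvd : d ∣ Nat.card I := by
    rw [hcard]
    have h1 := (lev_val w hd0 hwc hwcb hz0).2
    have h2 : ordp P (algebraMap K M b) = ordp P (z0 ^ (d ^ (l + 1))) := by
      unfold ordp
      rw [← hw, h1, map_pow]
    have h3 : ordp P (algebraMap K M b) =
        (v.asIdeal.ramificationIdx' P.asIdeal : ℤ) * ordp v b := by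
      unfold ordp
      rw [← HeightOneSpectrum.valuation_liesOver M v P, log_pow, nsmul_eq_mul]
      ring
    rw [h3, ordp_pow] at h2
    have h4 : v.asIdeal.ramificationIdx' P.asIdeal * (ordp v b).natAbs =
        d ^ (l + 1) * (ordp P z0).natAbs := by
      have := congrArg Int.natAbs h2
      rw [Int.natAbs_mul, Int.natAbs_mul, Int.natAbs_natCast, Int.natAbs_natCast] at this
      exact this
    exact dvd_of_pow hd0 he0 hl (Dvd.intro _ h4.symm)
  have hξ : (algebraMap K M ζ) ^ d = 1 := by rw [← map_pow, hζ, map_one]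
  have hIz : ∀ σ ∈ I, w (σ z0 / z0) = 1 := fun σ _ => val_aut w hd0 hwc hwcb hz0
  have hinj : ∀ σ ∈ I, w (σ z0 / z0 - 1) < 1 → σ = 1 := by
    intro σ hσ h
    have h1 : ∀ z ∈ Lev d M c b (l + 1), w (σ z / z - 1) < 1 := fun z hz =>
      near_trans w (ratio_indep w (hI σ hσ) hd0 hwc hwcb hz hz0) h
    obtain ⟨h2, h3⟩ := key (σ := σ) w hd0 hwd hwc hwcb hsurj (l + 1) le_rfl 1 (one_pow d) h1
    ext x
    rw [AlgEquiv.one_apply]
    congr 1
    obtain ⟨x, hx⟩ := x
    refine IntermediateField.adjoin_induction (p := fun x hx => σ (⟨x, hx⟩ : M) = ⟨x, hx⟩)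
      K ?_ ?_ ?_ ?_ ?_ hx
    · intro y hy
      obtain ⟨j, hj, hy'⟩ := Set.mem_iUnion₂.1 hy
      have hj' : j < l + 2 := Finset.mem_range.1 (Finset.mem_coe.1 hj)
      have hyl : (⟨y, hSM y hy⟩ : M) ∈ Lev d M c b j := (hLev j _).2 hy'
      rcases Nat.lt_succ_iff_lt_or_eq.1 hj' with h4 | rfl
      · exact h3 j h4 _ hyl
      · have := h2 _ hyl
        rwa [one_mul] at this
    · intro y
      exact σ.commutes y
    · intro y z hy hz hy' hz'
      have : (⟨y + z, add_mem hy hz⟩ : M) = ⟨y, hy⟩ + ⟨z, hz⟩ := rfl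
      rw [this, map_add, hy', hz']
    · intro y hy hy'
      have : (⟨y⁻¹, inv_mem hy⟩ : M) = (⟨y, hy⟩)⁻¹ := rfl
      rw [this, map_inv₀, hy']
    · intro y z hy hz hy' hz'
      have : (⟨y * z, mul_mem hy hz⟩ : M) = ⟨y, hy⟩ * ⟨z, hz⟩ := rfl
      rw [this, map_mul, hy', hz']
  obtain ⟨h, hh, hh1⟩ := exists_root_val w I hI hz00 hIz hd0 hdvd hinj hξ
  have h1 : ∀ z ∈ Lev d M c b (l + 1), w (h z / z - algebraMap K M ζ) < 1 := fun z hz =>
    near_trans w (ratio_indep w (hI h hh) hd0 hwc hwcb hz hz0) hh1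
  obtain ⟨h2, h3⟩ := key (σ := h) w hd0 hwd hwc hwcb hsurj (l + 1) le_rfl _ hξ h1
  refine ⟨h.liftNormal W, fun y hy => ?_, fun z hz => ?_⟩
  · have hyM : y ∈ M := hSM y (hSmem l (by omega) y hy)
    have h4 := h.liftNormal_commutes W ⟨y, hyM⟩
    have h5 := h3 l (Nat.lt_succ_self l) ⟨y, hyM⟩ ((hLev l _).2 hy)
    rw [h5] at h4
    exact h4
  · have hzM : z ∈ M := hSM z (hSmem (l + 1) le_rfl z hz)
    have h4 := h.liftNormal_commutes W ⟨z, hzM⟩
    have h5 := h2 ⟨z, hzM⟩ ((hLev (l + 1) _).2 hz)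
    rw [h5] at h4
    exact h4

end final

end Pool.Agent.ORB.UQ
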