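import Pool.Agent.ORB.EvSt

/-!
ORB, Theorem V for unicritical maps: places at which `c` and `b` are small.
`evst_small`: the points of the backward orbit have large degree.
`val_lev`: values on the levels when the value of `c` is smaller than the value of `b`.
-/

set_option autoImplicit false

namespace Pool.Agent.ORB

open NumberField IsDedekindDomain WithZero

universe u

/-- values on the levels of the tree: one step -/
theorem val_up {M Γ : Type*} [Field M] [LinearOrderedCommGroupWithZero Γ] (P : Valuation M Γ)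
    {d : ℕ} (hd : d ≠ 0) {c x : M} (hc : P c ≤ 1) (h : P c < P (uf d c x)) :
    P c < P x ∧ P (uf d c x) = P x ^ d := by
  have h3 : P x ^ d = P (uf d c x) := by
    rw [← map_pow]
    have h4 : x ^ d = uf d c x - c := by rw [uf]; ring
    conv_lhs => rw [h4]
    exact Valuation.map_sub_eq_of_lt_left _ h
  refine ⟨?_, h3.symm⟩
  by_contra h4
  rw [not_lt] at h4
  have h5 : P x ^ d ≤ P c := by
    obtain ⟨e, rfl⟩ := Nat.exists_eq_succ_of_ne_zero hd
    rw [Nat.succ_eq_add_one, pow_succ]
    calc P x ^ e * P x ≤ 1 * P c := mul_le_mul' (pow_le_one₀ zero_le (h4.trans hc)) h4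
      _ = P c := one_mul _
  rw [h3] at h5
  exact absurd h (not_lt.2 h5)

/-- values on the levels of the tree -/
theorem val_lev {M Γ : Type*} [Field M] [LinearOrderedCommGroupWithZero Γ] (P : Valuation M Γ)
    {d : ℕ} (hd : d ≠ 0) {c : M} (hc : P c ≤ 1) (n : ℕ) : ∀ {x : M}, P c < P ((uf d c)^[n] x) →
      P c < P x ∧ P ((uf d c)^[n] x) = P x ^ (d ^ n) := by
  induction n with
  | zero => intro x h; exact ⟨h, by simp⟩
  | succ n ih =>
    intro x h
    rw [Function.iterate_succ_apply] at h ⊢
    obtain ⟨h1, h2⟩ := ih h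
    obtain ⟨h3, h4⟩ := val_up P hd hc h1
    refine ⟨h3, ?_⟩
    rw [h2, h4, ← pow_mul]
    congr 1
    rw [pow_succ]
    ring

/-- one step near the attracting fixed point: either the distance to the image is multiplied, or the
order grows by the order of `c` -/
theorem small_step {M : Type*} [Field M] [NumberField M] (P : HeightOneSpectrum (𝓞 M)) {d : ℕ}
    (hd : 2 ≤ d) {c t : M} (hc : P.valuation M c < 1) (ht : P.valuation M t ≤ P.valuation M c)
    (hne : uf d c t - uf d c (uf d c t) ≠ 0) (hne' : t - uf d c t ≠ 0) (hc0 : c ≠ 0) :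
    ordp P (t - uf d c t) + ordp P c ≤ ordp P (uf d c t - uf d c (uf d c t)) := by
  set s := uf d c t with hs
  have h1 : P.valuation M s ≤ P.valuation M c := by
    rw [hs, uf]
    refine le_trans (Valuation.map_add _ _ _) (max_le ?_ le_rfl)
    rw [map_pow]
    obtain ⟨e, rfl⟩ : ∃ e, d = e + 1 := ⟨d - 1, by omega⟩
    rw [pow_succ]
    calc P.valuation M t ^ e * P.valuation M t ≤ 1 * P.valuation M c :=
          mul_le_mul' (pow_le_one₀ zero_le (ht.trans hc.le)) ht
      _ = P.valuation M c := one_mul _
  have h2 : s - uf d c s = (t - s) * ∑ i ∈ Finset.range d, t ^ i * s ^ (d - 1 - i) := by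
    have h3 : s - uf d c s = t ^ d - s ^ d := by
      have e1 : s = t ^ d + c := rfl
      have e2 : uf d c s = s ^ d + c := rfl
      rw [e2]
      linear_combination e1
    rw [h3, mul_comm, (Commute.all t s).geom_sum₂_mul]
  have h4 : P.valuation M (∑ i ∈ Finset.range d, t ^ i * s ^ (d - 1 - i)) ≤ P.valuation M c := by
    refine Valuation.map_sum_le _ fun i hi => ?_
    rw [Finset.mem_range] at hi
    rw [map_mul, map_pow, map_pow]
    have h5 : P.valuation M t ^ i ≤ P.valuation M c ^ i := pow_le_pow_left₀ zero_le ht i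
    have h6 : P.valuation M s ^ (d - 1 - i) ≤ P.valuation M c ^ (d - 1 - i) :=
      pow_le_pow_left₀ zero_le h1 _
    calc P.valuation M t ^ i * P.valuation M s ^ (d - 1 - i)
        ≤ P.valuation M c ^ i * P.valuation M c ^ (d - 1 - i) := mul_le_mul' h5 h6
      _ = P.valuation M c ^ (d - 1) := by rw [← pow_add]; congr 1; omega
      _ ≤ P.valuation M c ^ 1 := pow_le_pow_right_of_le_one' hc.le (by omega)
      _ = P.valuation M c := pow_one _
  have hS0 : (∑ i ∈ Finset.range d, t ^ i * s ^ (d - 1 - i)) ≠ 0 := by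
    intro h0
    apply hne
    rw [h2, h0, mul_zero]
  rw [h2, ordp_mul P hne' hS0]
  have := (ordp_le P hc0 hS0).2 h4
  linarith

/-- the order of an element of `K` at a prime of a bigger field is bounded by the degree -/
theorem ordp_le_finrank {K : Type u} [Field K] [NumberField K] {a : K} (ha : a ≠ 0) : ∃ m : ℕ, 0 < m ∧
    ∀ (M : Type u) [Field M] [NumberField M] [Algebra K M] (P : HeightOneSpectrum (𝓞 M)),
      ordp P (algebraMap K M a) ≤ m * Module.finrank ℚ M := by
  obtain ⟨m, hm0, hm⟩ := exists_nat_mul_integral a⁻¹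
  refine ⟨2 * m, by omega, ?_⟩
  intro M _ _ _ P
  have ha' : algebraMap K M a ≠ 0 := (map_ne_zero _).2 ha
  have h5 : ((2 * m : ℕ) : M) ≠ 0 := by
    have : (2 * m : ℕ) ≠ 0 := by omega
    exact_mod_cast this
  have hq : ((2 * m : ℕ) : M) * algebraMap K M a⁻¹ ≠ 0 :=
    mul_ne_zero h5 ((map_ne_zero _).2 (inv_ne_zero ha))
  have h6 : 0 ≤ ordp P (((2 * m : ℕ) : M) * algebraMap K M a⁻¹) := by
    rw [ordp_nonneg P hq]
    have h7 : IsIntegral ℤ ((m : K) * a⁻¹) := hm
    have h8 : IsIntegral ℤ (algebraMap K M ((m : K) * a⁻¹)) := h7.map (algebraMap K M).toIntAlgHom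
    let y : 𝓞 M := ⟨algebraMap K M ((m : K) * a⁻¹), h8⟩
    have h9 : P.valuation M (algebraMap (𝓞 M) M (2 * y)) ≤ 1 := P.valuation_le_one (K := M) (2 * y)
    have h10 : algebraMap (𝓞 M) M y = (m : M) * algebraMap K M a⁻¹ := by
      show algebraMap K M ((m : K) * a⁻¹) = _
      rw [map_mul, map_natCast]
    have h11 : algebraMap (𝓞 M) M (2 * y) = ((2 * m : ℕ) : M) * algebraMap K M a⁻¹ := by
      rw [map_mul, map_ofNat, h10]
      push_cast
      rw [mul_assoc]
    rwa [h11] at h9
  have h7 := ordp_nat_le P (p := 2 * m) (by omega)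
  have h8 : ordp P ((2 * m : ℕ) : M) = ordp P (((2 * m : ℕ) : M) * algebraMap K M a⁻¹) +
      ordp P (algebraMap K M a) := by
    rw [← ordp_mul P hq ha', map_inv₀, mul_assoc, inv_mul_cancel₀ ha', mul_one]
  linarith

/-- Everything that is used about a small target: after finitely many steps up the tree the value of the
point is bigger than the value of `c`. -/
theorem small_level {K : Type u} [Field K] [NumberField K] {d : ℕ} (hd : 2 ≤ d)
    (w : HeightOneSpectrum (𝓞 K)) (c b : K) (hc : w.valuation K c < 1) (hb : w.valuation K b < 1)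
    (hper : ∀ k, 1 ≤ k → (uf d c)^[k] b ≠ b) : ∃ B : ℕ,
      ∀ (M : Type u) [Field M] [NumberField M] [Algebra K M] (P : HeightOneSpectrum (𝓞 M))
        (_ : P.asIdeal.LiesOver w.asIdeal) (x : M) (n : ℕ), B ≤ n →
        (uf d (algebraMap K M c))^[n] x = algebraMap K M b →
        P.valuation M (algebraMap K M c) < P.valuation M x ∧ P.valuation M x < 1 := by
  have hd0 : d ≠ 0 := by omega
  -- all points of the tree have value less than one
  have hsm : ∀ (M : Type u) [Field M] [NumberField M] [Algebra K M] (P : HeightOneSpectrum (𝓞 M))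
      (_ : P.asIdeal.LiesOver w.asIdeal) (n : ℕ) (x : M),
      (uf d (algebraMap K M c))^[n] x = algebraMap K M b → P.valuation M x < 1 := by
    intro M _ _ _ P _ n
    have hcP : P.valuation M (algebraMap K M c) < 1 := (val_lt_iff w P c).2 hc
    have hbP : P.valuation M (algebraMap K M b) < 1 := (val_lt_iff w P b).2 hb
    have key : ∀ (n : ℕ) (x : M), P.valuation M ((uf d (algebraMap K M c))^[n] x) < 1 →
        P.valuation M x < 1 := by
      intro n
      induction n with
      | zero => intro x h; exact h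
      | succ n ih =>
        intro x h
        rw [Function.iterate_succ_apply] at h
        have h1 := ih _ h
        have h2 : P.valuation M (x ^ d) < 1 := by
          have : x ^ d = uf d (algebraMap K M c) x - algebraMap K M c := by rw [uf]; ring
          rw [this]
          exact lt_of_le_of_lt (Valuation.map_sub _ _ _) (max_lt h1 hcP)
        rw [map_pow] at h2
        exact (pow_lt_one_iff hd0).1 h2
    intro x hx
    exact key n x (by rw [hx]; exact hbP)
  by_cases hc0 : c = 0
  · refine ⟨0, fun M _ _ _ P hlo x n _ hx => ⟨?_, hsm M P hlo n x hx⟩⟩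
    subst hc0
    rw [map_zero, map_zero, zero_lt_iff, Valuation.ne_zero_iff]
    rintro rfl
    rw [map_zero] at hx
    have h1 : ∀ n, (uf d (0 : M))^[n] 0 = 0 := by
      intro n
      induction n with
      | zero => rfl
      | succ n ih => rw [Function.iterate_succ_apply', ih]; simp [uf, hd0]
    rw [h1] at hx
    have h2 : b = 0 := ((map_eq_zero _).1 hx.symm)
    apply hper 1 le_rfl
    rw [h2]
    simp [uf, hd0]
  set D : K := b - uf d c b with hD
  have hD0 : D ≠ 0 := sub_ne_zero.2 (Ne.symm (hper 1 le_rfl))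
  have hDlt : w.valuation K D < 1 := by
    refine lt_of_le_of_lt (Valuation.map_sub _ _ _) (max_lt hb ?_)
    rw [uf]
    refine lt_of_le_of_lt (Valuation.map_add _ _ _) (max_lt ?_ hc)
    rw [map_pow]
    exact (pow_lt_one_iff hd0).2 hb
  obtain ⟨B, hB⟩ := Int.eq_ofNat_of_zero_le ((ordp_pos w hD0).2 hDlt).le
  have hTK : 0 < ordp w c := (ordp_pos w hc0).2 hc
  have hBw : w.valuation K (c ^ B / D) ≤ 1 := by
    have h1 : w.valuation K (c ^ B) ≤ w.valuation K D := by
      rw [← ordp_le w hD0 (pow_ne_zero _ hc0), ordp_pow, hB]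
      have h2 : (0 : ℤ) ≤ B := Int.natCast_nonneg B
      nlinarith
    rw [map_div₀]
    exact div_le_one_of_le₀ h1 zero_le
  refine ⟨B + 1, fun M _ _ _ P hlo x n hn hx => ⟨?_, hsm M P hlo n x hx⟩⟩
  set cM : M := algebraMap K M c with hcM
  have hcP : P.valuation M cM < 1 := (val_lt_iff w P c).2 hc
  have hcM0 : cM ≠ 0 := (map_ne_zero _).2 hc0
  by_contra hcon
  -- then all points below have small values
  have hlow : ∀ j ≤ n, P.valuation M ((uf d cM)^[j] x) ≤ P.valuation M cM := by
    intro j hj
    by_contra h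
    rw [not_le] at h
    exact hcon (val_lev (P.valuation M) hd0 hcP.le j h).1
  have hDM : algebraMap K M D = (uf d cM)^[n] x - (uf d cM)^[n + 1] x := by
    rw [hD, map_sub, Function.iterate_succ_apply', hx]
    congr 1
    simp [uf, hcM]
  have hDM0 : algebraMap K M D ≠ 0 := (map_ne_zero _).2 hD0
  have hne : ∀ j ≤ n, (uf d cM)^[j] x - (uf d cM)^[j + 1] x ≠ 0 := by
    intro j hj h0
    apply hDM0
    rw [hDM, sub_eq_zero]
    have h1 := congrArg ((uf d cM)^[n - j]) (sub_eq_zero.1 h0)
    rw [← Function.iterate_add_apply, ← Function.iterate_add_apply] at h1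
    rw [show n - j + j = n by omega, show n - j + (j + 1) = n + 1 by omega] at h1
    exact h1
  have hT : 0 < ordp P cM := (ordp_pos P hcM0).2 hcP
  have hgrow : ∀ j ≤ n, (j + 1) * ordp P cM ≤ ordp P ((uf d cM)^[j] x - (uf d cM)^[j + 1] x) := by
    intro j
    induction j with
    | zero =>
      intro _
      have h0 := hne 0 (Nat.zero_le _)
      have h1 : P.valuation M ((uf d cM)^[0] x - (uf d cM)^[0 + 1] x) ≤ P.valuation M cM := by
        refine le_trans (Valuation.map_sub _ _ _) (max_le (hlow 0 (Nat.zero_le _)) ?_)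
        rw [Function.iterate_succ_apply', uf]
        refine le_trans (Valuation.map_add _ _ _) (max_le ?_ le_rfl)
        rw [map_pow]
        have h2 := hlow 0 (Nat.zero_le _)
        obtain ⟨e, rfl⟩ : ∃ e, d = e + 1 := ⟨d - 1, by omega⟩
        rw [pow_succ]
        calc P.valuation M ((uf (e + 1) cM)^[0] x) ^ e * P.valuation M ((uf (e + 1) cM)^[0] x)
            ≤ 1 * P.valuation M cM := mul_le_mul' (pow_le_one₀ zero_le (h2.trans hcP.le)) h2
          _ = P.valuation M cM := one_mul _
      have := (ordp_le P hcM0 h0).2 h1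
      push_cast
      linarith
    | succ j ih =>
      intro hj
      have h1 := ih (by omega)
      have h2 := small_step P hd hcP (hlow j (by omega)) (t := (uf d cM)^[j] x)
        (by
          have := hne (j + 1) hj
          rw [Function.iterate_succ_apply' (uf d cM) (j + 1) x, Function.iterate_succ_apply'] at this
          exact this)
        (by
          have := hne j (by omega)
          rw [Function.iterate_succ_apply'] at this
          exact this) hcM0
      rw [Function.iterate_succ_apply'] at h1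
      rw [Function.iterate_succ_apply' (uf d cM) (j + 1) x, Function.iterate_succ_apply']
      push_cast
      linarith
  have h1 := hgrow n le_rfl
  rw [← hDM] at h1
  have h2 : P.valuation M (algebraMap K M (c ^ B / D)) ≤ 1 := (val_le_iff w P _).2 hBw
  rw [map_div₀, map_pow] at h2
  have h3 : P.valuation M (cM ^ B) ≤ P.valuation M (algebraMap K M D) := by
    rw [map_div₀, div_le_one₀ (zero_lt_iff.2 (val_ne P hDM0))] at h2
    exact h2
  rw [← ordp_le P hDM0 (pow_ne_zero _ hcM0), ordp_pow] at h3
  have h4 : ((B : ℤ) + 1) ≤ n := by exact_mod_cast hn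
  nlinarith

/-- eventual stability at a place at which `c` and `b` are small -/
theorem evst_small {K : Type u} [Field K] [NumberField K] {p : ℕ} (hp : 2 ≤ p)
    (w : HeightOneSpectrum (𝓞 K)) (c b : K) (hc : w.valuation K c < 1) (hb : w.valuation K b < 1)
    (hper : ∀ k, 1 ≤ k → (uf p c)^[k] b ≠ b) : ∃ C : ℕ, 0 < C ∧
      ∀ (M : Type u) [Field M] [NumberField M] [Algebra K M] (x : M) (n : ℕ),
        (uf p (algebraMap K M c))^[n] x = algebraMap K M b → p ^ n ≤ C * Module.finrank ℚ M := by
  have hp0 : p ≠ 0 := by omega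
  obtain ⟨B, hB⟩ := small_level hp w c b hc hb hper
  -- the bound from a bound for the order of the point at the level `B`
  have key : ∀ (M : Type u) [Field M] [NumberField M] [Algebra K M] (P : HeightOneSpectrum (𝓞 M))
      (_ : P.asIdeal.LiesOver w.asIdeal) (x : M) (n : ℕ), B ≤ n →
      (uf p (algebraMap K M c))^[n] x = algebraMap K M b →
      (p : ℤ) ^ (n - B) ≤ ordp P ((uf p (algebraMap K M c))^[n - B] x) := by
    intro M _ _ _ P hlo x n hn hx
    have h1 := hB M P hlo ((uf p (algebraMap K M c))^[n - B] x) B le_rfl (by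
      rw [← Function.iterate_add_apply, show B + (n - B) = n by omega]
      exact hx)
    have h2 := hB M P hlo x n hn hx
    have hx0 : x ≠ 0 := by
      rintro rfl
      have := h2.1
      rw [map_zero] at this
      exact absurd this (not_lt.2 zero_le)
    have hcP : P.valuation M (algebraMap K M c) < 1 := (val_lt_iff w P c).2 hc
    have h3 := (val_lev (P.valuation M) hp0 hcP.le (n - B) h1.1).2
    have h4 : ordp P ((uf p (algebraMap K M c))^[n - B] x) = ordp P (x ^ (p ^ (n - B))) := by
      unfold ordp
      rw [h3, map_pow]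
    rw [h4, ordp_pow]
    have h5 : 0 < ordp P x := (ordp_pos P hx0).2 h2.2
    have h6 : (0 : ℤ) < (p : ℤ) ^ (n - B) := by positivity
    push_cast
    nlinarith
  have hfin : ∀ (M : Type u) [Field M] [NumberField M], 1 ≤ Module.finrank ℚ M := fun M _ _ =>
    Module.finrank_pos
  have hplace : ∀ (M : Type u) [Field M] [NumberField M] [Algebra K M],
      ∃ P : HeightOneSpectrum (𝓞 M), P.asIdeal.LiesOver w.asIdeal := by
    intro M _ _ _
    obtain ⟨⟨Q, hQ1, hQ2⟩⟩ := w.asIdeal.nonempty_primesOver (S := 𝓞 M)
    have hQ0 : Q ≠ ⊥ := Ideal.ne_bot_of_mem_primesOver w.ne_bot ⟨hQ1, hQ2⟩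
    exact ⟨⟨Q, hQ1, hQ0⟩, hQ2⟩
  have main : ∃ m : ℕ, 0 < m ∧ ∀ (M : Type u) [Field M] [NumberField M] [Algebra K M] (x : M) (n : ℕ),
      B ≤ n → (uf p (algebraMap K M c))^[n] x = algebraMap K M b →
        (p : ℤ) ^ (n - B) ≤ m * Module.finrank ℚ M := by
    by_cases hc0 : c = 0
    · have hb0 : b ≠ 0 := by
        rintro rfl
        apply hper 1 le_rfl
        rw [hc0]
        simp [uf, hp0]
      obtain ⟨m, hm, h⟩ := ordp_le_finrank hb0
      refine ⟨m, hm, fun M _ _ _ x n hn hx => ?_⟩
      obtain ⟨P, hlo⟩ := hplace M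
      refine (key M P hlo x n hn hx).trans (le_trans ?_ (h M P))
      have h1 := hB M P hlo ((uf p (algebraMap K M c))^[n - B] x) B le_rfl (by
        rw [← Function.iterate_add_apply, show B + (n - B) = n by omega]
        exact hx)
      set y := (uf p (algebraMap K M c))^[n - B] x with hy
      have hy0 : y ≠ 0 := by
        intro h0
        have := h1.1
        rw [h0, map_zero] at this
        exact absurd this (not_lt.2 zero_le)
      have hyb : (uf p (algebraMap K M c))^[B] y = algebraMap K M b := by
        rw [hy, ← Function.iterate_add_apply, show B + (n - B) = n by omega]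
        exact hx
      have hcP : P.valuation M (algebraMap K M c) < 1 := (val_lt_iff w P c).2 hc
      have hbM : algebraMap K M b ≠ 0 := (map_ne_zero _).2 hb0
      have h2 := (val_lev (P.valuation M) hp0 hcP.le B (x := y) (by
        rw [hyb, hc0, map_zero, map_zero, zero_lt_iff, Valuation.ne_zero_iff]
        exact hbM)).2
      rw [hyb] at h2
      have h3 : ordp P (algebraMap K M b) = ordp P (y ^ (p ^ B)) := by
        unfold ordp
        rw [h2, map_pow]
      rw [h3, ordp_pow]
      have h5 : 0 < ordp P y := (ordp_pos P hy0).2 h1.2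
      have h6 : (1 : ℤ) ≤ (p : ℤ) ^ B := one_le_pow₀ (by exact_mod_cast (by omega : 1 ≤ p))
      push_cast
      nlinarith
    · obtain ⟨m, hm, h⟩ := ordp_le_finrank hc0
      refine ⟨m, hm, fun M _ _ _ x n hn hx => ?_⟩
      obtain ⟨P, hlo⟩ := hplace M
      refine (key M P hlo x n hn hx).trans (le_trans ?_ (h M P))
      have h1 := hB M P hlo ((uf p (algebraMap K M c))^[n - B] x) B le_rfl (by
        rw [← Function.iterate_add_apply, show B + (n - B) = n by omega]
        exact hx)
      have hcM0 : algebraMap K M c ≠ 0 := (map_ne_zero _).2 hc0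
      refine (ordp_le P ?_ hcM0).2 h1.1.le
      intro h0
      have := h1.1
      rw [h0, map_zero] at this
      exact absurd this (not_lt.2 zero_le)
  obtain ⟨m, hm, hmain⟩ := main
  refine ⟨p ^ B * m, by have : 0 < p := by omega
                        positivity, ?_⟩
  intro M _ _ _ x n hx
  rcases Nat.lt_or_ge n B with hn | hn
  · calc p ^ n ≤ p ^ B := Nat.pow_le_pow_right (by omega) hn.le
      _ = p ^ B * 1 * 1 := by ring
      _ ≤ p ^ B * m * Module.finrank ℚ M := Nat.mul_le_mul (Nat.mul_le_mul_left _ hm) (hfin M)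
  · have h1 := hmain M x n hn hx
    have h2 : p ^ (n - B) ≤ m * Module.finrank ℚ M := by exact_mod_cast h1
    calc p ^ n = p ^ B * p ^ (n - B) := by rw [← pow_add]; congr 1; omega
      _ ≤ p ^ B * (m * Module.finrank ℚ M) := Nat.mul_le_mul_left _ h2
      _ = p ^ B * m * Module.finrank ℚ M := by ring

end Pool.Agent.ORB
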