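import Pool.Agent.ORB.UFrob
import Pool.Agent.ORB.RRed

/-!
ORB, Theorem V+ (U2): transfer of the bound for the number of fixed points to the trees of the
iterates of `b`.
-/

set_option autoImplicit false

namespace Pool.Agent.ORB.UQ

open NumberField IsDedekindDomain Polynomial

universe u

/-- fixed integral points of a Frobenius automorphism lie in at most `p` residue classes -/
theorem pigeon {W : Type*} [Field W] (A : ValuationSubring W) {p : ℕ} (hp : p.Prime) (x : ℕ → W)
    (hx : ∀ i ≤ p, A.valuation (x i) ≤ 1) (hx2 : ∀ i ≤ p, A.valuation (x i - x i ^ p) < 1) :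
    ∃ i j, i < j ∧ j ≤ p ∧ A.valuation (x i - x j) < 1 := by
  classical
  have hmem : ∀ i : Fin (p + 1), x i ∈ A := fun i =>
    (A.valuation_le_one_iff _).1 (hx i (Nat.lt_succ_iff.1 i.2))
  let f : Fin (p + 1) → IsLocalRing.ResidueField A := fun i => IsLocalRing.residue A ⟨x i, hmem i⟩
  have hroot : ∀ i, f i ∈ (X ^ p - X : (IsLocalRing.ResidueField A)[X]).roots.toFinset := by
    intro i
    rw [Multiset.mem_toFinset, mem_roots (FiniteField.X_pow_card_sub_X_ne_zero _ hp.one_lt), IsRoot,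
      eval_sub, eval_pow, eval_X, sub_eq_zero]
    show IsLocalRing.residue A ⟨x i, hmem i⟩ ^ p = IsLocalRing.residue A ⟨x i, hmem i⟩
    rw [← map_pow, eq_comm, ← sub_eq_zero, ← map_sub, IsLocalRing.residue_eq_zero_iff]
    exact (A.valuation_lt_one_iff _).2 (hx2 i (Nat.lt_succ_iff.1 i.2))
  have hcard : (X ^ p - X : (IsLocalRing.ResidueField A)[X]).roots.toFinset.card < Fintype.card (Fin (p + 1)) := by
    rw [Fintype.card_fin, Nat.lt_succ_iff]
    calc _ ≤ _ := Multiset.toFinset_card_le _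
      _ ≤ _ := card_roots' _
      _ = p := FiniteField.X_pow_card_sub_X_natDegree_eq _ hp.one_lt
  obtain ⟨i, -, j, -, hij, he⟩ := Finset.exists_ne_map_eq_of_card_lt_of_maps_to
    (s := Finset.univ) hcard (fun i _ => hroot i)
  have hval : ∀ i j : Fin (p + 1), f i = f j → A.valuation (x i - x j) < 1 := by
    intro i j he
    have h1 : IsLocalRing.residue A (⟨x i, hmem i⟩ - ⟨x j, hmem j⟩) = 0 := by
      rw [map_sub, sub_eq_zero]; exact he
    rw [IsLocalRing.residue_eq_zero_iff] at h1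
    exact (A.valuation_lt_one_iff _).1 h1
  rcases lt_or_gt_of_ne hij with h | h
  · exact ⟨i, j, h, Nat.lt_succ_iff.1 j.2, hval i j he⟩
  · exact ⟨j, i, h, Nat.lt_succ_iff.1 i.2, hval j i he.symm⟩

section val

variable {W Γ₀ : Type*} [Field W] [LinearOrderedCommGroupWithZero Γ₀] {v : Valuation W Γ₀}

theorem cong_uf {d : ℕ} {C x y : W} (hC : v C ≤ 1) (h : Cong v x y) : Cong v (uf d C x) (uf d C y) :=
  (h.pow d).add (Cong.refl hC)

theorem cong_iter {d : ℕ} {C x y : W} (hC : v C ≤ 1) (h : Cong v x y) (n : ℕ) :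
    Cong v ((uf d C)^[n] x) ((uf d C)^[n] y) := by
  induction n generalizing x y with
  | zero => exact h
  | succ n ih => rw [Function.iterate_succ_apply, Function.iterate_succ_apply]; exact ih (cong_uf hC h)

theorem int_back {d : ℕ} (hd : d ≠ 0) {C x : W} (hC : v C ≤ 1) (h : v (uf d C x) ≤ 1) : v x ≤ 1 := by
  have h1 : x ^ d = uf d C x - C := by simp [uf]
  have h2 : v (x ^ d) ≤ 1 := by
    rw [h1]
    exact (Valuation.map_sub _ _ _).trans (max_le h hC)
  rw [map_pow] at h2
  exact (pow_le_one_iff hd).1 h2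

theorem int_back_iter {d : ℕ} (hd : d ≠ 0) {C x : W} (hC : v C ≤ 1) (n : ℕ)
    (h : v ((uf d C)^[n] x) ≤ 1) : v x ≤ 1 := by
  induction n generalizing x with
  | zero => exact h
  | succ n ih =>
    rw [Function.iterate_succ_apply] at h
    exact int_back hd hC (ih h)

/-- a root near `z` -/
theorem exists_close_root [IsAlgClosed W] {g : W[X]} (hg : g.Monic) {z : W} (h : v (g.eval z) < 1) :
    ∃ r, g.eval r = 0 ∧ v (z - r) < 1 := by
  by_contra hcon
  push Not at hcon
  have h1 : g.eval z = (g.roots.map fun r => z - r).prod := by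
    have h2 := (IsAlgClosed.splits g).eq_prod_roots
    rw [hg.leadingCoeff, C_1, one_mul] at h2
    conv_lhs => rw [h2]
    rw [eval_multiset_prod, Multiset.map_map]
    congr 1
    refine Multiset.map_congr rfl fun r _ => ?_
    simp
  have h3 : ∀ s : Multiset W, (∀ r ∈ s, 1 ≤ v (z - r)) → 1 ≤ v (s.map fun r => z - r).prod := by
    intro s
    induction s using Multiset.induction_on with
    | empty => intro _; simp
    | cons a s ih =>
      intro hs
      rw [Multiset.map_cons, Multiset.prod_cons, map_mul]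
      exact one_le_mul (hs a (Multiset.mem_cons_self a s)) (ih fun r hr => hs r (Multiset.mem_cons_of_mem hr))
  have h4 := h3 g.roots (fun r hr => hcon r (by
    have := (mem_roots hg.ne_zero).1 hr
    exact this))
  rw [← h1] at h4
  exact absurd h (not_lt.2 h4)

/-- roots near a point where the derivative is a unit are unique -/
theorem sep_iter {d : ℕ} (hd1 : v (d : W) = 1) {C : W} (hC : v C ≤ 1) (j : ℕ) {z z1 z2 : W}
    (h1 : Cong v z1 z) (h2 : Cong v z2 z) (he : (uf d C)^[j] z1 = (uf d C)^[j] z2)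
    (hu : ∀ i < j, v ((uf d C)^[i] z) = 1) : z1 = z2 := by
  have hd : d ≠ 0 := by
    rintro rfl
    rw [Nat.cast_zero, map_zero] at hd1
    exact zero_ne_one hd1
  induction j generalizing z z1 z2 with
  | zero => exact he
  | succ j ih =>
    rw [Function.iterate_succ_apply, Function.iterate_succ_apply] at he
    have h3 : uf d C z1 = uf d C z2 := by
      refine ih (cong_uf hC h1) (cong_uf hC h2) he (fun i hi => ?_)
      have := hu (i + 1) (by omega)
      rwa [Function.iterate_succ_apply] at this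
    have h4 : z1 ^ d - z2 ^ d = 0 := by
      have : z1 ^ d + C = z2 ^ d + C := h3
      rw [add_right_cancel this, sub_self]
    rw [← geom_sum₂_mul] at h4
    rcases mul_eq_zero.1 h4 with h5 | h5
    · exfalso
      have h6 : Cong v (∑ i ∈ Finset.range d, z1 ^ i * z2 ^ (d - 1 - i))
          (∑ i ∈ Finset.range d, z ^ i * z ^ (d - 1 - i)) :=
        Cong.sum _ _ _ fun i _ => (h1.pow i).mul (h2.pow _)
      have h7 : (∑ i ∈ Finset.range d, z ^ i * z ^ (d - 1 - i)) = d * z ^ (d - 1) := by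
        rw [Finset.sum_congr rfl (g := fun _ => z ^ (d - 1)) (fun i hi => by
          rw [← pow_add]
          congr 1
          have := Finset.mem_range.1 hi
          omega), Finset.sum_const, Finset.card_range, nsmul_eq_mul]
      have h8 : v (d * z ^ (d - 1)) = 1 := by
        rw [map_mul, hd1, one_mul, map_pow]
        have := hu 0 (Nat.succ_pos j)
        rw [Function.iterate_zero_apply] at this
        rw [this, one_pow]
      rw [h5, h7] at h6
      have h9 := h6.symm.val_one
      have h10 := h6.2.2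
      rw [zero_sub, Valuation.map_neg, h8] at h10
      exact lt_irrefl _ h10
    · exact sub_eq_zero.1 h5

end val

/-- **Transfer.** If every automorphism which agrees with `s₁` on `T` has fixed points on all levels of the
tree of `b`, and at most `m` on the high ones, then it has at most `m` fixed points on the level `j` of the
tree of `f ^ k (b)`. -/
theorem transfer {K W : Type*} [Field K] [NumberField K] [Field W] [Algebra K W] [IsAlgClosed W]
    [Algebra.IsAlgebraic K W] {d : ℕ} (hd : d ≠ 0) {c b : K}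
    {T : Set W} (hT : T.Finite) {s₁ : W ≃ₐ[K] W} {m l1 : ℕ}
    (h1 : ∀ s : W ≃ₐ[K] W, (∀ t ∈ T, s t = s₁ t) →
        (∀ N, (Fix d W c b N s).Nonempty) ∧ ∀ l, l1 ≤ l → (Fix d W c b l s).ncard ≤ m)
    (j k : ℕ) (hjk : ∀ i, 1 ≤ i → i ≤ j → (uf d c)^[i] 0 ≠ (uf d c)^[k] b)
    (s : W ≃ₐ[K] W) (hs : ∀ t ∈ T, s t = s₁ t) :
    (Fix d W c ((uf d c)^[k] b) j s).ncard ≤ m := by
  classical
  have hCZ : CharZero W := charZero_of_injective_algebraMap (algebraMap K W).injective
  set C : W := algebraMap K W c with hCdef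
  set b' : W := algebraMap K W b with hb'def
  set γ : W := algebraMap K W ((uf d c)^[k] b) with hγdef
  have hγb : γ = (uf d C)^[k] b' := uf_map (algebraMap K W) d c b k
  set Z : Set W := Lev d W c ((uf d c)^[k] b) j with hZdef
  have hZ : Z.Finite := Lev_finite hd c _ j
  set U : Set W := {u | u ∈ ({C, b', (d : W)} : Set W) ∧ u ≠ 0} ∪
    ⋃ i ∈ Finset.range j, (fun z => (uf d C)^[i] z) '' Z with hUdef
  have hUf : U.Finite := by
    refine Set.Finite.union ?_ (Set.Finite.biUnion (Finset.finite_toSet _) fun i _ => hZ.image _)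
    exact (Set.toFinite ({C, b', (d : W)} : Set W)).subset fun u hu => hu.1
  have hU0 : ∀ u ∈ U, u ≠ 0 := by
    rintro u (hu | hu)
    · exact hu.2
    · obtain ⟨i, hi, z, hz, rfl⟩ := Set.mem_iUnion₂.1 hu
      have hi' : i < j := Finset.mem_range.1 hi
      intro h0
      have h0' : (uf d C)^[i] z = 0 := h0
      have h2 : (uf d C)^[j] z = γ := hz
      have h3 : (uf d C)^[j - i] 0 = γ := by
        rw [← h0', ← Function.iterate_add_apply, Nat.sub_add_cancel hi'.le, h2]
      have h4 : algebraMap K W ((uf d c)^[j - i] 0) = γ := by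
        rw [uf_map, map_zero]; exact h3
      exact hjk (j - i) (by omega) (by omega) ((algebraMap K W).injective h4)
  obtain ⟨p, hp, -, H⟩ := frob_W s (hT.union hZ) hUf hU0 0
  set n' : ℕ := l1 + 2 * p + j with hn'
  set L : Set W := ⋃ i ∈ Finset.range (n' + 1), Lev d W c b i with hLdef
  have hL : L.Finite := Set.Finite.biUnion (Finset.finite_toSet _) fun i _ => Lev_finite hd c b i
  have hLmem : ∀ i, i ≤ n' → ∀ z ∈ Lev d W c b i, z ∈ L := fun i hi z hz =>
    Set.mem_iUnion₂.2 ⟨i, Finset.mem_range.2 (Nat.lt_succ_of_le hi), hz⟩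
  obtain ⟨A, t, s', g1, g2, g3, g4⟩ := H ((T ∪ Z) ∪ L) ((hT.union hZ).union hL)
  set v := A.valuation with hv
  have hint : ∀ u ∈ ({C, b', (d : W)} : Set W), v u ≤ 1 := by
    intro u hu
    by_cases h0 : u = 0
    · rw [h0, map_zero]; exact zero_le
    · exact (g3 u (Or.inl ⟨hu, h0⟩)).le
  have hvC : v C ≤ 1 := hint C (by simp)
  have hvb : v b' ≤ 1 := hint b' (by simp)
  have hvd : v (d : W) = 1 := g3 _ (Or.inl ⟨by simp, Nat.cast_ne_zero.2 hd⟩)
  have hs' : ∀ x ∈ T, s' x = s₁ x := fun x hx => by rw [g1 x (Or.inl hx), hs x hx]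
  obtain ⟨⟨x, hxL, hsx⟩, -⟩ : (Fix d W c b n' s').Nonempty ∧ True := ⟨(h1 s' hs').1 n', trivial⟩
  have hbound := (h1 s' hs').2
  have hxL' : (uf d C)^[n'] x = b' := hxL
  have hsxi : ∀ i, s' ((uf d C)^[i] x) = (uf d C)^[i] x := by
    intro i
    rw [aut_iter d c s' i x, hsx]
  have hxi : ∀ i, i ≤ n' → (uf d C)^[i] x ∈ Lev d W c b (n' - i) := by
    intro i hi
    rw [← Lev_iter, Nat.sub_add_cancel hi]
    exact hxL
  have htxi : ∀ i, i ≤ n' → t ((uf d C)^[i] x) = (uf d C)^[i] x := fun i hi =>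
    (g2 _ (Or.inr (hLmem _ (Nat.sub_le _ _) _ (hxi i hi)))).2 (hsxi i)
  have hvx : v x ≤ 1 := int_back_iter hd hvC n' (by rw [hxL']; exact hvb)
  have hvxi : ∀ i, v ((uf d C)^[i] x) ≤ 1 := fun i => (cong_iter hvC (Cong.refl hvx) i).1
  obtain ⟨i1, i2, hi12, hi2, hcong0⟩ := pigeon A hp (fun i => (uf d C)^[i] x) (fun i _ => hvxi i)
    (fun i hi => by
      have h2 : i ≤ n' := by omega
      have h3 := g4 _ (Or.inr (hLmem _ (Nat.sub_le _ _) _ (hxi i h2))) (hvxi i)
      rw [htxi i h2] at h3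
      exact h3)
  obtain ⟨N, hN⟩ : ∃ N, i2 = i1 + N := ⟨i2 - i1, by omega⟩
  have hN1 : 1 ≤ N := by omega
  have hstep : ∀ i, i1 ≤ i → Cong v ((uf d C)^[i] x) ((uf d C)^[i + N] x) := by
    intro i hi
    have h2 : Cong v ((uf d C)^[i1] x) ((uf d C)^[i2] x) := ⟨hvxi _, hvxi _, hcong0⟩
    have h3 := cong_iter (d := d) hvC h2 (i - i1)
    rw [← Function.iterate_add_apply, ← Function.iterate_add_apply] at h3
    have e1 : i - i1 + i1 = i := by omega
    have e2 : i - i1 + i2 = i + N := by omega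
    rwa [e1, e2] at h3
  have hmul : ∀ a i, i1 ≤ i → Cong v ((uf d C)^[i] x) ((uf d C)^[i + a * N] x) := by
    intro a
    induction a with
    | zero => intro i _; rw [zero_mul, add_zero]; exact Cong.refl (hvxi i)
    | succ a ih =>
      intro i hi
      have h2 := (ih i hi).trans (hstep (i + a * N) (by omega))
      have e : i + a * N + N = i + (a + 1) * N := by ring
      rwa [e] at h2
  -- the level `n`
  set r := N - (l1 + k) % N with hr
  have hmod : (l1 + k) % N < N := Nat.mod_lt _ hN1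
  set n := l1 + r with hn
  obtain ⟨a, ha⟩ : ∃ a, n + k = a * N := by
    refine ⟨(l1 + k) / N + 1, ?_⟩
    have h2 := Nat.div_add_mod (l1 + k) N
    rw [add_mul, one_mul, mul_comm]
    omega
  have hnp : n ≤ l1 + p := by omega
  set i0 := n' - n with hi0
  have hi0n : i0 + n = n' := by omega
  set w := (uf d C)^[i0] x with hw
  have hwL : w ∈ Lev d W c b n := by
    have h2 := hxi i0 (by omega)
    have e : n' - i0 = n := by omega
    rwa [e] at h2
  have hwγ : Cong v w γ := by
    have h2 := hmul a i0 (by omega)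
    rw [← ha] at h2
    have e : (uf d C)^[i0 + (n + k)] x = γ := by
      rw [hγb, ← hxL', ← Function.iterate_add_apply]
      congr 1
      omega
    rwa [e] at h2
  have htw : t w = w := htxi i0 (by omega)
  have hvγ : v γ ≤ 1 := hwγ.2.1
  -- the map
  have hclose : ∀ z ∈ Fix d W c ((uf d c)^[k] b) j s, ∃ z', (uf d C)^[j] z' = w ∧ v (z - z') < 1 := by
    rintro z ⟨hz, -⟩
    have hz' : (uf d C)^[j] z = γ := hz
    obtain ⟨r, hr1, hr2⟩ := exists_close_root (lp_monic hd C w j) (z := z) (by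
      rw [eval_lp, hz']
      exact hwγ.symm.2.2)
    refine ⟨r, ?_, hr2⟩
    rw [eval_lp, sub_eq_zero] at hr1
    exact hr1
  have hch : ∀ z, ∃ z', z ∈ Fix d W c ((uf d c)^[k] b) j s → (uf d C)^[j] z' = w ∧ v (z - z') < 1 := by
    intro z
    by_cases hz : z ∈ Fix d W c ((uf d c)^[k] b) j s
    · obtain ⟨z', hz'⟩ := hclose z hz
      exact ⟨z', fun _ => hz'⟩
    · exact ⟨0, fun h => absurd h hz⟩
  choose F hF using hch
  have hZint : ∀ z ∈ Fix d W c ((uf d c)^[k] b) j s, v z ≤ 1 := by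
    rintro z ⟨hz, -⟩
    have hz' : (uf d C)^[j] z = γ := hz
    exact int_back_iter hd hvC j (by rw [hz']; exact hvγ)
  have hFint : ∀ z ∈ Fix d W c ((uf d c)^[k] b) j s, v (F z) ≤ 1 := by
    intro z hz
    exact int_back_iter hd hvC j (by rw [(hF z hz).1]; exact hwγ.1)
  have hFc : ∀ z ∈ Fix d W c ((uf d c)^[k] b) j s, Cong v (F z) z := fun z hz =>
    Cong.symm ⟨hZint z hz, hFint z hz, (hF z hz).2⟩
  have hunit : ∀ z ∈ Fix d W c ((uf d c)^[k] b) j s, ∀ i < j, v ((uf d C)^[i] z) = 1 := by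
    intro z hz i hi
    exact g3 _ (Or.inr (Set.mem_iUnion₂.2 ⟨i, Finset.mem_range.2 hi, z, hz.1, rfl⟩))
  have hmaps : ∀ z ∈ Fix d W c ((uf d c)^[k] b) j s, F z ∈ Fix d W c b (n + j) s' := by
    intro z hz
    have hFL : F z ∈ Lev d W c b (n + j) := by
      rw [Lev_iter]
      show (uf d C)^[j] (F z) ∈ _
      rw [(hF z hz).1]
      exact hwL
    have hFL2 : F z ∈ L := hLmem (n + j) (by omega) _ hFL
    refine ⟨hFL, (g2 _ (Or.inr hFL2)).1 ?_⟩
    have htz : t z = z := by
      rw [g2 z (Or.inl (Or.inr hz.1)), g1 z (Or.inr hz.1)]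
      exact hz.2
    have q1 : v (t (F z) - F z ^ p) < 1 := g4 _ (Or.inr hFL2) (hFint z hz)
    have q2 : v (F z ^ p - z ^ p) < 1 := ((hFc z hz).pow p).2.2
    have q3 : v (z ^ p - z) < 1 := by
      have h2 := g4 z (Or.inl (Or.inr hz.1)) (hZint z hz)
      rw [htz, Valuation.map_sub_swap] at h2
      exact h2
    have q4 : v (t (F z) - z) < 1 := by
      have e : t (F z) - z = (t (F z) - F z ^ p) + ((F z ^ p - z ^ p) + (z ^ p - z)) := by ring
      rw [e]
      exact Valuation.map_add_lt _ q1 (Valuation.map_add_lt _ q2 q3)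
    have htF : (uf d C)^[j] (t (F z)) = w := by
      rw [← aut_iter d c t j (F z), (hF z hz).1, htw]
    have q5 : v (t (F z)) ≤ 1 := int_back_iter hd hvC j (by rw [htF]; exact hwγ.1)
    exact sep_iter hvd hvC j ⟨q5, hZint z hz, q4⟩ (hFc z hz) (by rw [htF, (hF z hz).1]) (hunit z hz)
  have hinj : Set.InjOn F (Fix d W c ((uf d c)^[k] b) j s) := by
    intro z1 hz1 z2 hz2 he
    have c1 := hFc z1 hz1
    have c2 := hFc z2 hz2
    rw [← he] at c2
    have e1 : (uf d C)^[j] z1 = γ := hz1.1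
    have e2 : (uf d C)^[j] z2 = γ := hz2.1
    exact sep_iter hvd hvC j (Cong.refl (hZint z1 hz1)) (c2.symm.trans c1) (by rw [e1, e2]) (hunit z1 hz1)
  calc (Fix d W c ((uf d c)^[k] b) j s).ncard ≤ (Fix d W c b (n + j) s').ncard :=
        Set.ncard_le_ncard_of_injOn F hmaps hinj (Fix_finite hd c b (n + j) s')
    _ ≤ m := hbound (n + j) (by omega)

end Pool.Agent.ORB.UQ
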