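import Pool.Agent.ORB.GoodPrime
import Pool.Agent.ORB.VWinB

/-!
# Theorem V, row R4: windows of `f^n(0) - b` leave every given set of square classes
-/

set_option autoImplicit false

open Polynomial Filter NumberField IsDedekindDomain

namespace Pool.Agent.ORB

open VWin

variable {K : Type*} [Field K] [NumberField K]

namespace VWin

omit [NumberField K] in
/-- integrality of `τ` -/
theorem tau_integral (v : Valuation K (WithZero (Multiplicative ℤ))) {c b : K} (hc : v c ≤ 1)
    (hb : v b ≤ 1) (x : ℕ → K) (hx0 : x 0 = 0) (hx : ∀ n, x (n + 1) = x n ^ 2 + c) (k n : ℕ) (ω : K)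
    (hω : ω ^ 2 = (x n ^ 2 - (b - c)) * (x (n + k) ^ 2 - (b - c))) :
    v (tau (b - c) x k n ω) ≤ 1 := by
  have cI : c ∈ v.integer := hc
  have bI : b ∈ v.integer := hb
  have dI : b - c ∈ v.integer := Subring.sub_mem _ bI cI
  have xI : ∀ m, x m ∈ v.integer := by
    intro m
    induction m with
    | zero => rw [hx0]; exact Subring.zero_mem _
    | succ m ih => rw [hx]; exact Subring.add_mem _ (Subring.pow_mem _ ih 2) cI
  have two : (2 : K) ∈ v.integer := by
    have := Subring.add_mem _ (Subring.one_mem v.integer) (Subring.one_mem v.integer)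
    rwa [one_add_one_eq_two] at this
  have pI : ∀ j, (PP (b - c) j).eval (x n) ∈ v.integer := by
    intro j
    induction j with
    | zero => simp only [PP, eval_X]; exact xI n
    | succ j ih =>
      simp only [PP, eval_sub, eval_mul, eval_pow, eval_C, eval_ofNat]
      exact Subring.sub_mem _ (Subring.mul_mem _ two (Subring.pow_mem _ ih 2))
        (Subring.pow_mem _ dI _)
  have qI : ∀ j, (QQ (b - c) j).eval (x n) ∈ v.integer := by
    intro j
    induction j with
    | zero => simp only [QQ, eval_one]; exact Subring.one_mem _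
    | succ j ih =>
      simp only [QQ, eval_mul, eval_ofNat]
      exact Subring.mul_mem _ (Subring.mul_mem _ two (pI j)) ih
  have ωI : ω ∈ v.integer := by
    have h1 : ω ^ 2 ∈ v.integer := by
      rw [hω]
      exact Subring.mul_mem _ (Subring.sub_mem _ (Subring.pow_mem _ (xI n) 2) dI)
        (Subring.sub_mem _ (Subring.pow_mem _ (xI _) 2) dI)
    have h2 : v ω ^ 2 ≤ 1 := by rw [← map_pow]; exact h1
    exact (pow_le_one_iff two_ne_zero).1 h2
  exact Subring.mul_mem _ two (Subring.sub_mem _ (Subring.mul_mem _ (xI _) (pI k))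
    (Subring.mul_mem _ ωI (qI k)))

end VWin

/-- **Lemma R** -/
theorem window (c b : K) (hbc : b ≠ c)
    (hinj : Function.Injective fun n : ℕ => (fun z : K => z ^ 2 + c)^[n] 0) (R : ℕ) :
    ∃ H n0 : ℕ, ∀ n : ℕ, n0 ≤ n → ∀ D : Fin R → K, (∀ i, D i ≠ 0) →
      ∃ t : ℕ, 1 ≤ t ∧ t ≤ H ∧
        ∀ i, ¬ IsSquare (((fun z : K => z ^ 2 + c)^[n + t] 0 - b) * D i) := by
  classical
  set x : ℕ → K := fun n => (fun z : K => z ^ 2 + c)^[n] 0 with hxdef
  have hx0 : x 0 = 0 := rfl
  have hx : ∀ n, x (n + 1) = x n ^ 2 + c := fun n => Function.iterate_succ_apply' _ _ _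
  set d : K := b - c with hd
  have hd0 : d ≠ 0 := sub_ne_zero.2 hbc
  have hxa : ∀ n, x (n + 1) - b = x n ^ 2 - d := by
    intro n
    rw [hx, hd]
    ring
  -- the primes
  set S : Finset (HeightOneSpectrum (𝓞 K)) :=
    (HeightOneSpectrum.Support.finite (𝓞 K) c).toFinset ∪
    (HeightOneSpectrum.Support.finite (𝓞 K) b).toFinset with hS
  have hint : ∀ w ∉ S, w.valuation K c ≤ 1 ∧ w.valuation K b ≤ 1 := by
    intro w hw
    rw [hS, Finset.mem_union, Set.Finite.mem_toFinset, Set.Finite.mem_toFinset] at hw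
    push Not at hw
    refine ⟨?_, ?_⟩
    · by_contra h
      exact hw.1 (not_le.1 h)
    · by_contra h
      exact hw.2 (not_le.1 h)
  let P := {w // w ∈ S} ⊕ (K →+* ℂ)
  let Av : P → AbsoluteValue K ℝ := fun i => pabv (i.map (fun w => w.1) id)
  set H : ℕ := R * 2 ^ Fintype.card P + 1 with hH
  -- the bounds
  have hbd : ∀ q : P × Fin (H + 1), ∃ C : ℝ, ∃ n0 : ℕ, ∀ n1 n : ℕ, n0 ≤ n1 → n0 ≤ n →
      ∀ D s1 s2 s3 : K, D ≠ 0 → s1 ^ 2 = D * (x n1 ^ 2 - d) → s2 ^ 2 = D * (x n ^ 2 - d) →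
      s3 ^ 2 = D * (x (n + q.2) ^ 2 - d) →
      (Av q.1 (s2 / x n - s1 / x n1) ≤ Av q.1 (s2 / x n + s1 / x n1) ↔
        Av q.1 (s3 / x (n + q.2) - s1 / x n1) ≤ Av q.1 (s3 / x (n + q.2) + s1 / x n1)) →
      Av q.1 (tau d x q.2 n (s2 * s3 / D)) ≤ C := fun q => tau_bound (Av q.1) c d x hx q.2
  choose Cq nq hq using hbd
  set C : ℝ := ∑ q, |Cq q| with hC
  have hCq : ∀ q, Cq q ≤ C := fun q => (le_abs_self _).trans
    (Finset.single_le_sum (f := fun q => |Cq q|) (fun _ _ => abs_nonneg _) (Finset.mem_univ q))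
  set n0 : ℕ := ∑ q, nq q with hn0
  have hnq : ∀ q, nq q ≤ n0 := fun q =>
    Finset.single_le_sum (f := nq) (fun _ _ => Nat.zero_le _) (Finset.mem_univ q)
  set Z : Set K := {y : K | (∀ w ∉ S, w.valuation K y ≤ 1) ∧ (∀ w ∈ S, pabv (Sum.inl w) y ≤ C) ∧
      (∀ σ : K →+* ℂ, ‖σ y‖ ≤ C)} with hZ
  have hZfin : Z.Finite := finite_bounded S C
  by_contra hcon
  push Not at hcon
  -- many coincidences
  have key : ∀ N0 : ℕ, ∃ n, N0 ≤ n ∧ ∃ k ∈ Finset.Icc 1 H, ∃ τ ∈ Z,
      (2 * x (n + k) * (PP d k).eval (x n) - τ) ^ 2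
        = 4 * (x (n + k) ^ 2 - d) * ((PP d k).eval (x n) ^ 2 - d ^ 2 ^ k) := by
    intro N0
    obtain ⟨n, hn, D, hD, hall⟩ := hcon H (max n0 N0)
    have hn0n : n0 ≤ n := (le_max_left _ _).trans hn
    have hN0n : N0 ≤ n := (le_max_right _ _).trans hn
    have hcls : ∀ t : Fin H, ∃ i : Fin R, ∃ s : K, s ^ 2 = D i * (x (n + t) ^ 2 - d) := by
      intro t
      obtain ⟨i, hi⟩ := hall (t + 1) (by omega) (by omega)
      obtain ⟨s, hs⟩ := hi
      refine ⟨i, s, ?_⟩
      have h1 : (fun z : K => z ^ 2 + c)^[n + (t + 1)] 0 = x (n + t + 1) := rfl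
      rw [h1, hxa] at hs
      rw [pow_two, ← hs]
      ring
    choose cl s hs using hcls
    -- reference element of every class
    let ref : Fin H → Fin H := fun t => if h : ∃ u, cl u = cl t then h.choose else t
    have href : ∀ t, cl (ref t) = cl t := by
      intro t
      have h : ∃ u, cl u = cl t := ⟨t, rfl⟩
      simp only [ref, dif_pos h]
      exact h.choose_spec
    have href' : ∀ t t', cl t = cl t' → ref t = ref t' := by
      intro t t' h
      have h1 : ∃ u, cl u = cl t := ⟨t, rfl⟩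
      have h2 : ∃ u, cl u = cl t' := ⟨t', rfl⟩
      simp only [ref, dif_pos h1, dif_pos h2]
      congr 1
      funext u
      rw [h]
    let pat : Fin H → P → Bool := fun t v => decide
      (Av v (s t / x (n + t) - s (ref t) / x (n + ref t)) ≤
        Av v (s t / x (n + t) + s (ref t) / x (n + ref t)))
    obtain ⟨t, t', htt, heq⟩ := Fintype.exists_ne_map_eq_of_card_lt
      (fun t : Fin H => (cl t, pat t)) (by
        rw [Fintype.card_prod, Fintype.card_fin, Fintype.card_fun, Fintype.card_bool,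
          Fintype.card_fin, hH]
        exact Nat.lt_succ_self _)
    -- order them
    have main : ∀ t t' : Fin H, t < t' → (cl t, pat t) = (cl t', pat t') →
        ∃ n', N0 ≤ n' ∧ ∃ k ∈ Finset.Icc 1 H, ∃ τ ∈ Z,
      (2 * x (n' + k) * (PP d k).eval (x n') - τ) ^ 2
        = 4 * (x (n' + k) ^ 2 - d) * ((PP d k).eval (x n') ^ 2 - d ^ 2 ^ k) := by
      intro t t' hlt heq
      have hcl : cl t = cl t' := (Prod.ext_iff.1 heq).1
      have hpat : pat t = pat t' := (Prod.ext_iff.1 heq).2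
      have hlt' : t.1 < t'.1 := hlt
      obtain ⟨k, hk⟩ : ∃ k : ℕ, t'.1 = t.1 + k := ⟨t'.1 - t.1, by omega⟩
      have hk1 : 1 ≤ k := by omega
      have hkH : k < H + 1 := by
        have := t'.2
        omega
      have hm : n + t'.1 = n + t.1 + k := by omega
      have e1 : s (ref t) ^ 2 = D (cl t) * (x (n + ref t) ^ 2 - d) := by
        rw [← href t]
        exact hs _
      have e2 := hs t
      have e3 : s t' ^ 2 = D (cl t) * (x (n + t.1 + k) ^ 2 - d) := by
        rw [hcl, ← hm]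
        exact hs t'
      have hω : (s t * s t' / D (cl t)) ^ 2
          = (x (n + t.1) ^ 2 - d) * (x (n + t.1 + k) ^ 2 - d) := by
        rw [div_pow, mul_pow, e2, e3]
        have := hD (cl t)
        field_simp
      have hbound : ∀ v : P, Av v (tau d x k (n + t.1) (s t * s t' / D (cl t))) ≤ C := by
        intro v
        refine le_trans ?_ (hCq (v, ⟨k, hkH⟩))
        refine hq (v, ⟨k, hkH⟩) (n + (ref t).1) (n + t.1)
          (((hnq _).trans hn0n).trans (Nat.le_add_right _ _))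
          (((hnq _).trans hn0n).trans (Nat.le_add_right _ _)) (D (cl t)) (s (ref t)) (s t) (s t')
          (hD _) e1 e2 e3 ?_
        have h1 := congrFun hpat v
        simp only [pat, decide_eq_decide] at h1
        rw [← href' t t' hcl, hm] at h1
        exact h1
      refine ⟨n + t.1, hN0n.trans (Nat.le_add_right _ _), k, Finset.mem_Icc.2 ⟨hk1, by omega⟩,
        tau d x k (n + t.1) (s t * s t' / D (cl t)), ?_, tau_eq d x k (n + t.1) _ hω⟩
      rw [hZ]
      refine ⟨fun w hw => ?_, fun w hw => ?_, fun σ => ?_⟩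
      · obtain ⟨h1, h2⟩ := hint w hw
        exact tau_integral (w.valuation K) h1 h2 x hx0 hx k (n + t.1) _ hω
      · exact hbound (Sum.inl ⟨w, hw⟩)
      · exact hbound (Sum.inr σ)
    rcases lt_or_gt_of_ne htt with h | h
    · exact main t t' h heq
    · exact main t' t h heq.symm
  -- one pair `(k, τ)` occurs infinitely often
  set E : ℕ → K → Set ℕ := fun k τ => {n | (2 * x (n + k) * (PP d k).eval (x n) - τ) ^ 2
        = 4 * (x (n + k) ^ 2 - d) * ((PP d k).eval (x n) ^ 2 - d ^ 2 ^ k)} with hE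
  have hinfU : (⋃ k ∈ Finset.Icc 1 H, ⋃ τ ∈ Z, E k τ).Infinite := by
    refine Set.infinite_of_forall_exists_gt fun N0 => ?_
    obtain ⟨n, hn, k, hk, τ, hτ, h⟩ := key (N0 + 1)
    exact ⟨n, Set.mem_iUnion₂.2 ⟨k, hk, Set.mem_iUnion₂.2 ⟨τ, hτ, h⟩⟩, hn⟩
  obtain ⟨k, hk, τ, -, hinfE⟩ : ∃ k ∈ Finset.Icc 1 H, ∃ τ ∈ Z, (E k τ).Infinite := by
    by_contra hno
    push Not at hno
    apply hinfU
    refine Set.Finite.biUnion (Finset.finite_toSet _) fun k hk => ?_
    exact hZfin.biUnion fun τ hτ => hno k hk τ hτ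
  have hk1 : 1 ≤ k := (Finset.mem_Icc.1 hk).1
  -- the polynomial identity
  have hpoly : (2 * FF c k * PP d k - Polynomial.C τ) ^ 2
      = 4 * (FF c k ^ 2 - Polynomial.C d) * (PP d k ^ 2 - Polynomial.C (d ^ 2 ^ k)) := by
    refine Polynomial.eq_of_infinite_eval_eq _ _ ?_
    refine (hinfE.image (f := x) (hinj.injOn)).mono ?_
    rintro _ ⟨n, hn, rfl⟩
    simp only [Set.mem_ofPred_eq, eval_pow, eval_sub, eval_mul, eval_C, eval_ofNat,
      FF_eval c x hx]
    exact hn
  rcases identity c d τ hd0 k hk1 hpoly with h | h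
  · have h1 : x 1 = x 0 := by
      rw [hx 0, hx0, h]
      ring
    have := hinj h1
    omega
  · have h1 : x 3 = x 2 := by
      have h2 : x 1 = -2 := by rw [hx 0, hx0, h]; ring
      have h3 : x 2 = 2 := by rw [hx 1, h2, h]; ring
      have h4 : x 3 = 2 := by rw [hx 2, h3, h]; ring
      rw [h4, h3]
    have := hinj h1
    omega

end Pool.Agent.ORB
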