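import Pool.Agent.ORB.VFresh
import Pool.Agent.ORB.VWin

set_option autoImplicit false

/-! ORB, Theorem V: the fresh node over a number field (row R2). -/

namespace Pool.Agent.ORB

open IsDedekindDomain NumberField WithZero

universe u

/-- the finiteness of the classes modulo squares with even valuations outside `S` -/
def SelFin : Prop := ∀ (F : Type u) [Field F] [NumberField F] (S : Set (HeightOneSpectrum (𝓞 F))),
  S.Finite → ∃ D : Finset F, (∀ d ∈ D, d ≠ 0) ∧ ∀ a : F, a ≠ 0 →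
    (∀ Q ∉ S, ∃ m : ℤ, Q.valuation F a = WithZero.exp (2 * m)) → ∃ d ∈ D, IsSquare (a * d)

theorem finite_val_ne_one {F : Type*} [Field F] [NumberField F] {x : F} (hx : x ≠ 0) :
    {Q : HeightOneSpectrum (𝓞 F) | Q.valuation F x ≠ 1}.Finite := by
  have h1 := HeightOneSpectrum.Support.finite (R := 𝓞 F) x
  have h2 := HeightOneSpectrum.Support.finite (R := 𝓞 F) x⁻¹
  refine (h1.union h2).subset ?_
  intro Q hQ
  rcases lt_or_gt_of_ne hQ with h | h
  · right
    change 1 < Q.valuation F x⁻¹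
    rw [map_inv₀]
    exact (one_lt_inv₀ (zero_lt_iff.2 ((Valuation.ne_zero_iff _).2 hx))).2 h
  · left
    exact h

theorem val_one_iff {F Γ : Type*} [Field F] [LinearOrderedCommGroupWithZero Γ] (w : Valuation F Γ)
    {x : F} (hx : x ≠ 0) : w x = 1 ↔ w x ≤ 1 ∧ w x⁻¹ ≤ 1 := by
  have hwx : w x ≠ 0 := (Valuation.ne_zero_iff w).2 hx
  rw [map_inv₀, inv_le_one₀ (zero_lt_iff.2 hwx)]
  constructor
  · intro h
    exact ⟨h.le, h.ge⟩
  · rintro ⟨h1, h2⟩
    exact le_antisymm h1 h2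

/-- **Fresh node (R2).** -/
theorem fresh (hsel : SelFin.{u}) {K : Type*} [Field K] [NumberField K] {Ω : Type u} [Field Ω]
    [Algebra K Ω] [IsGalois K Ω] [IsAlgClosed Ω] (c b : K)
    (hinj : Function.Injective fun n : ℕ => (fun z : K => z ^ 2 + c)^[n] 0)
    (hb : ∀ n, 1 ≤ n → (fun z : K => z ^ 2 + c)^[n] 0 ≠ b)
    (L : IntermediateField K Ω) [FiniteDimensional K L] (l1 : ℕ)
    (hl1 : ∀ z, (fun x : Ω => x ^ 2 + algebraMap K Ω c)^[l1] z = algebraMap K Ω b → z ∈ L)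
    (D0 b0 : ℕ) :
    ∃ l, l1 ≤ l ∧ ∃ g : Ω ≃ₐ[K] Ω, (∀ x ∈ L, g x = x) ∧
      (∀ z, (fun x : Ω => x ^ 2 + algebraMap K Ω c)^[l] z = algebraMap K Ω b → g z = z) ∧
      (∃ z, (fun x : Ω => x ^ 2 + algebraMap K Ω c)^[l + 1] z = algebraMap K Ω b ∧ g z ≠ z) ∧
      ∀ y y' z z' : Ω, (fun x : Ω => x ^ 2 + algebraMap K Ω c)^[l] y = algebraMap K Ω b →
        (fun x : Ω => x ^ 2 + algebraMap K Ω c)^[l] y' = algebraMap K Ω b →
        z ^ 2 + algebraMap K Ω c = y → z' ^ 2 + algebraMap K Ω c = y' → g z ≠ z → g z' ≠ z' →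
        ∀ j, 1 ≤ j → (fun x : Ω => x ^ 2 + algebraMap K Ω c)^[j] y =
          (fun x : Ω => x ^ 2 + algebraMap K Ω c)^[j] y' →
        (fun x : Ω => x ^ 2 + algebraMap K Ω c)^[j - 1] y ≠
          (fun x : Ω => x ^ 2 + algebraMap K Ω c)^[j - 1] y' → D0 < j ∧ j ≤ l ∧ b0 ≤ l - j := by
  classical
  have : NumberField L := NumberField.of_module_finite K L
  set cF : L := algebraMap K L c with hcF
  set bF : L := algebraMap K L b with hbF
  have hψc : algebraMap L Ω cF = algebraMap K Ω c := (IsScalarTower.algebraMap_apply K L Ω c).symm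
  have hψb : algebraMap L Ω bF = algebraMap K Ω b := (IsScalarTower.algebraMap_apply K L Ω b).symm
  have hitF : ∀ n, (fun z : L => z ^ 2 + cF)^[n] 0 =
      algebraMap K L ((fun z : K => z ^ 2 + c)^[n] 0) := by
    intro n
    induction n with
    | zero => simp
    | succ n ih =>
      rw [Function.iterate_succ_apply', Function.iterate_succ_apply', ih, map_add, map_pow]
  have hitΩ : ∀ n, (fun z : Ω => z ^ 2 + algebraMap K Ω c)^[n] 0 =
      algebraMap L Ω ((fun z : L => z ^ 2 + cF)^[n] 0) := by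
    intro n
    induction n with
    | zero => simp
    | succ n ih =>
      rw [Function.iterate_succ_apply', Function.iterate_succ_apply', ih, map_add, map_pow, hψc]
  have hinjK : Function.Injective (algebraMap K L) := (algebraMap K L).injective
  have hinjF : Function.Injective fun n : ℕ => (fun z : L => z ^ 2 + cF)^[n] 0 := by
    intro m n h
    simp only [hitF] at h
    exact hinj (hinjK h)
  have hbF' : ∀ n, 1 ≤ n → (fun z : L => z ^ 2 + cF)^[n] 0 ≠ bF := by
    intro n hn h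
    rw [hitF] at h
    exact hb n hn (hinjK h)
  have hbcF : bF ≠ cF := by
    intro h
    apply hbF' 1 le_rfl
    rw [Function.iterate_one, h]
    ring
  have hx0 : ∀ n, 1 ≤ n → (fun z : L => z ^ 2 + cF)^[n] 0 ≠ 0 := by
    intro n hn h
    have := hinjF (a₁ := n) (a₂ := 0) (by simpa using h)
    omega
  -- the exceptional primes
  set S : Set (HeightOneSpectrum (𝓞 L)) :=
    {Q | Q.valuation L (2 : L) ≠ 1} ∪ {Q | 1 < Q.valuation L cF} ∪ {Q | 1 < Q.valuation L bF} ∪
    (⋃ i ∈ Finset.Icc 1 D0, {Q | Q.valuation L ((fun z : L => z ^ 2 + cF)^[i] 0) ≠ 1}) ∪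
    (⋃ i ∈ Finset.Icc 1 b0, {Q | Q.valuation L ((fun z : L => z ^ 2 + cF)^[i] 0 - bF) ≠ 1})
    with hS
  have hSfin : S.Finite := by
    refine ((((finite_val_ne_one two_ne_zero).union
      (HeightOneSpectrum.Support.finite (R := 𝓞 L) cF)).union
      (HeightOneSpectrum.Support.finite (R := 𝓞 L) bF)).union ?_).union ?_
    · refine Set.Finite.biUnion (Finset.finite_toSet _) fun i hi => ?_
      exact finite_val_ne_one (hx0 i (Finset.mem_Icc.1 hi).1)
    · refine Set.Finite.biUnion (Finset.finite_toSet _) fun i hi => ?_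
      exact finite_val_ne_one (sub_ne_zero.2 (hbF' i (Finset.mem_Icc.1 hi).1))
  obtain ⟨D, hD0, hD⟩ := hsel L S hSfin
  obtain ⟨H, n0, hw⟩ := window cF bF hbcF hinjF D.card
  obtain ⟨t, ht1, -, ht⟩ := hw n0 le_rfl (fun i => ((D.equivFin.symm i : D) : L))
    (fun i => hD0 _ (D.equivFin.symm i).2)
  set n := n0 + t with hn
  have han : (fun z : L => z ^ 2 + cF)^[n] 0 - bF ≠ 0 := sub_ne_zero.2 (hbF' n (by omega))
  obtain ⟨Q, hQS, hQ⟩ : ∃ Q ∉ S, ¬ ∃ m : ℤ,
      Q.valuation L ((fun z : L => z ^ 2 + cF)^[n] 0 - bF) = WithZero.exp (2 * m) := by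
    by_contra hcon
    push Not at hcon
    obtain ⟨d, hd, hsq⟩ := hD _ han (fun Q hQ => hcon Q hQ)
    refine ht (D.equivFin ⟨d, hd⟩) ?_
    simpa using hsq
  have hQS' : Q.valuation L (2 : L) = 1 ∧ Q.valuation L cF ≤ 1 ∧ Q.valuation L bF ≤ 1 ∧
      (∀ i, 1 ≤ i → i ≤ D0 → Q.valuation L ((fun z : L => z ^ 2 + cF)^[i] 0) = 1) ∧
      ∀ i, 1 ≤ i → i ≤ b0 → Q.valuation L ((fun z : L => z ^ 2 + cF)^[i] 0 - bF) = 1 := by
    rw [hS] at hQS
    simp only [Set.mem_union, not_or, Set.mem_iUnion, not_exists, Finset.mem_Icc] at hQS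
    obtain ⟨⟨⟨⟨q1, q2⟩, q3⟩, q4⟩, q5⟩ := hQS
    refine ⟨not_not.1 q1, not_lt.1 q2, not_lt.1 q3, fun i h1 h2 => ?_, fun i h1 h2 => ?_⟩
    · exact not_not.1 (q4 i ⟨h1, h2⟩)
    · exact not_not.1 (q5 i ⟨h1, h2⟩)
  obtain ⟨q1, q2, q3, q4, q5⟩ := hQS'
  obtain ⟨A, hA⟩ := exists_ext_val (Ω := Ω) (Q.valuation L)
  have hA1 : ∀ x : L, A.valuation (algebraMap L Ω x) = 1 ↔ Q.valuation L x = 1 := by
    intro x
    by_cases hx : x = 0
    · rw [hx, map_zero, map_zero, map_zero]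
      simp
    rw [val_one_iff _ hx, ← hA, ← hA, map_inv₀]
    have h3 := val_one_iff A.valuation ((map_ne_zero (algebraMap L Ω)).2 hx)
    rw [h3]
  have hA2 : ∀ x : K, algebraMap K Ω x = algebraMap L Ω (algebraMap K L x) :=
    fun x => IsScalarTower.algebraMap_apply K L Ω x
  refine fresh_core A.valuation ?_ c b L.toSubfield (fun x => L.algebraMap_mem x) ?_ ?_ D0 b0 ?_ ?_
    l1 hl1 n (by omega) ?_ ?_
  · have : (2 : Ω) = algebraMap L Ω 2 := (map_ofNat _ 2).symm
    rw [this, hA1]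
    exact q1
  · rw [← hψc, hA]
    exact q2
  · rw [← hψb, hA]
    exact q3
  · intro i h1 h2
    rw [hitΩ, hA1]
    exact q4 i h1 h2
  · intro i h1 h2
    rw [hitΩ, ← hψb, ← map_sub, hA1]
    exact q5 i h1 h2
  · rintro z hz rfl
    rw [hitΩ, ← hψb] at hz
    exact hbF' n (by omega) ((algebraMap L Ω).injective hz)
  · intro x hx h
    rw [hitΩ, ← hψb, ← map_sub] at h
    set a := (fun z : L => z ^ 2 + cF)^[n] 0 - bF with ha
    set x' : L := ⟨x, hx⟩ with hx'
    have e0 : x = algebraMap L Ω x' := rfl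
    have ha0 : A.valuation (algebraMap L Ω a) ≠ 0 :=
      (Valuation.ne_zero_iff _).2 ((map_ne_zero _).2 han)
    have hx0 : x' ≠ 0 := by
      rintro h0
      rw [e0, h0, map_zero, map_zero] at h
      exact ha0 (by rw [← h]; simp)
    have e1 : A.valuation (algebraMap L Ω (x' ^ 2 / a)) = 1 := by
      rw [map_div₀, map_div₀, map_pow, map_pow, ← e0, h, div_self ha0]
    rw [hA1, map_div₀, map_pow] at e1
    have e2 : Q.valuation L a = Q.valuation L x' ^ 2 := by
      have hva : Q.valuation L a ≠ 0 := (Valuation.ne_zero_iff _).2 han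
      rw [div_eq_one_iff_eq hva] at e1
      exact e1.symm
    apply hQ
    refine ⟨WithZero.log (Q.valuation L x'), ?_⟩
    rw [e2]
    have hvx : Q.valuation L x' ≠ 0 := (Valuation.ne_zero_iff _).2 hx0
    conv_lhs => rw [← WithZero.exp_log hvx]
    rw [pow_two, ← WithZero.exp_add]
    congr 1
    ring

end Pool.Agent.ORB
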