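import Pool.Agent.ORB.VBase

/-!
ORB, Theorem V, row R3: tower and norms.
-/

namespace Pool.Agent.ORB.VQ

open Finset

section orb
variable {K W : Type*} [Field K] [Field W] [Algebra K W]

/-- orbit products of square roots -/
theorem orbProd (H : Subgroup (W ≃ₐ[K] W)) (S : Finset W) (x₀ : W)
    (hS : ∀ h ∈ H, ∀ x ∈ S, h x ∈ S) (htr : ∀ x ∈ S, ∃ h ∈ H, h x₀ = x) (hx₀ : x₀ ∈ S)
    (φ : W → W) (hφ : ∀ h ∈ H, ∀ x ∈ S, h (φ x) = φ (h x)) (θ : W) (hθ : θ ^ 2 = φ x₀)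
    (hθ' : ∀ h ∈ H, h x₀ = x₀ → h θ = θ) :
    ∃ Θ : W, (∀ h ∈ H, h Θ = Θ) ∧ Θ ^ 2 = ∏ x ∈ S, φ x := by
  classical
  have htr' : ∀ x, ∃ h : W ≃ₐ[K] W, x ∈ S → h ∈ H ∧ h x₀ = x := by
    intro x
    by_cases hx : x ∈ S
    · obtain ⟨h, h1, h2⟩ := htr x hx
      exact ⟨h, fun _ => ⟨h1, h2⟩⟩
    · exact ⟨1, fun h => absurd h hx⟩
  choose k hk using htr'
  have hkey : ∀ x ∈ S, ∀ h ∈ H, h (k x θ) = k (h x) θ := by
    intro x hx h hh
    obtain ⟨h1, h2⟩ := hk x hx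
    obtain ⟨h3, h4⟩ := hk (h x) (hS h hh x hx)
    have h5 : ((k (h x))⁻¹ * (h * k x)) x₀ = x₀ := by
      rw [AlgEquiv.mul_apply, AlgEquiv.mul_apply, h2]
      apply (k (h x)).injective
      rw [← AlgEquiv.mul_apply, mul_inv_cancel, AlgEquiv.one_apply, h4]
    have h6 := hθ' _ (H.mul_mem (H.inv_mem h3) (H.mul_mem hh h1)) h5
    rw [AlgEquiv.mul_apply, AlgEquiv.mul_apply] at h6
    have h7 := congrArg (k (h x)) h6
    rw [← AlgEquiv.mul_apply, mul_inv_cancel, AlgEquiv.one_apply] at h7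
    exact h7
  refine ⟨∏ x ∈ S, k x θ, fun h hh => ?_, ?_⟩
  · rw [map_prod]
    refine prod_bij' (fun x _ => h x) (fun x _ => h⁻¹ x) (fun x hx => hS h hh x hx)
      (fun x hx => hS _ (H.inv_mem hh) x hx) (fun x _ => ?_) (fun x _ => ?_)
      (fun x hx => hkey x hx h hh)
    · rw [← AlgEquiv.mul_apply, inv_mul_cancel, AlgEquiv.one_apply]
    · rw [← AlgEquiv.mul_apply, mul_inv_cancel, AlgEquiv.one_apply]
  · rw [← prod_pow]
    refine prod_congr rfl fun x hx => ?_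
    obtain ⟨h1, h2⟩ := hk x hx
    rw [← map_pow, hθ, hφ _ h1 x₀ hx₀, h2]

/-- the version with two orbits having the same stabilisers -/
theorem orbProd2 (H : Subgroup (W ≃ₐ[K] W)) (S S' : Finset W) (x₀ x₀' : W)
    (hS : ∀ h ∈ H, ∀ x ∈ S, h x ∈ S) (htr : ∀ x ∈ S, ∃ h ∈ H, h x₀ = x) (hx₀ : x₀ ∈ S)
    (hS' : ∀ h ∈ H, ∀ x ∈ S', h x ∈ S') (htr' : ∀ x ∈ S', ∃ h ∈ H, h x₀' = x) (hx₀' : x₀' ∈ S')
    (hst : ∀ h ∈ H, h x₀ = x₀ ↔ h x₀' = x₀') (c : W) (hc : ∀ h ∈ H, h c = c) (θ : W)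
    (hθ : θ ^ 2 = (x₀ - c) * (x₀' - c)) (hθ' : ∀ h ∈ H, h x₀ = x₀ → h θ = θ) :
    ∃ Θ : W, (∀ h ∈ H, h Θ = Θ) ∧
      Θ ^ 2 = (∏ x ∈ S, (x - c)) * ∏ x ∈ S', (x - c) := by
  classical
  have htr1 : ∀ x, ∃ h : W ≃ₐ[K] W, x ∈ S → h ∈ H ∧ h x₀ = x := by
    intro x
    by_cases hx : x ∈ S
    · obtain ⟨h, h1, h2⟩ := htr x hx
      exact ⟨h, fun _ => ⟨h1, h2⟩⟩
    · exact ⟨1, fun h => absurd h hx⟩
  choose k hk using htr1
  have hcmp : ∀ g ∈ H, ∀ h ∈ H, (g x₀ = h x₀ ↔ g x₀' = h x₀') := by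
    intro g hg h hh
    have h1 := hst _ (H.mul_mem (H.inv_mem hh) hg)
    rw [AlgEquiv.mul_apply, AlgEquiv.mul_apply] at h1
    have h2 : ∀ z w : W, h⁻¹ z = w ↔ z = h w := fun z w => by
      constructor
      · intro h3
        rw [← h3, ← AlgEquiv.mul_apply, mul_inv_cancel, AlgEquiv.one_apply]
      · intro h3
        rw [h3, ← AlgEquiv.mul_apply, inv_mul_cancel, AlgEquiv.one_apply]
    rw [h2, h2] at h1
    exact h1
  have hk0 : k x₀ x₀' = x₀' := by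
    obtain ⟨h1, h2⟩ := hk x₀ hx₀
    exact (hst _ h1).1 h2
  obtain ⟨Θ, h1, h2⟩ := orbProd H S x₀ hS htr hx₀ (fun x => (x - c) * (k x x₀' - c))
    (fun h hh x hx => by
      obtain ⟨h3, h4⟩ := hk x hx
      obtain ⟨h5, h6⟩ := hk (h x) (hS h hh x hx)
      have h7 : h (k x x₀') = k (h x) x₀' := by
        have h8 := hcmp _ (H.mul_mem hh h3) _ h5
        rw [AlgEquiv.mul_apply, AlgEquiv.mul_apply, h4, h6] at h8
        exact h8.1 rfl
      show h ((x - c) * (k x x₀' - c)) = _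
      rw [map_mul, map_sub, map_sub, hc h hh, h7]) θ (by
      show θ ^ 2 = (x₀ - c) * (k x₀ x₀' - c)
      rw [hθ, hk0]) hθ'
  refine ⟨Θ, h1, ?_⟩
  rw [h2, prod_mul_distrib]
  congr 1
  refine prod_bij (fun x _ => k x x₀') (fun x hx => hS' _ (hk x hx).1 _ hx₀')
    (fun x hx y hy hxy => ?_) (fun x hx => ?_) (fun _ _ => rfl)
  · have h8 := (hcmp _ (hk x hx).1 _ (hk y hy).1).2 hxy
    rw [(hk x hx).2, (hk y hy).2] at h8
    exact h8
  · obtain ⟨h, hh, hx'⟩ := htr' x hx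
    refine ⟨h x₀, hS h hh _ hx₀, ?_⟩
    have h8 := hcmp _ (hk (h x₀) (hS h hh _ hx₀)).1 _ hh
    rw [(hk (h x₀) (hS h hh _ hx₀)).2] at h8
    exact (h8.1 rfl).trans hx'

end orb

section tower
variable {K W : Type*} [Field K] [Field W] [Algebra K W]

/-- an automorphism which fixes `qm z` acts in the same way on `z` and `z'` -/
theorem same_sign {c b : K} {i : ℕ} (hF : FlipAt W c b i) {z z' : W} (hz : z ∈ Lev W c b (i + 1))
    (hz' : z' ∈ Lev W c b (i + 1)) (hst : ∀ g : W ≃ₐ[K] W, g z = z ↔ g z' = z')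
    (g : W ≃ₐ[K] W)
    (hg : g (qm (algebraMap K W c) z) = qm (algebraMap K W c) z) :
    (g z = z ∧ g z' = z') ∨ (g z = -z ∧ g z' = -z') := by
  obtain ⟨g₀, -, h0⟩ := hF
  rw [aut_qm, eq_comm, qm_eq_iff] at hg
  rcases hg with h | h
  · exact Or.inl ⟨h, (hst g).1 h⟩
  · refine Or.inr ⟨h, ?_⟩
    have h1 : (g₀ * g) z = z := by
      rw [AlgEquiv.mul_apply, h, map_neg, h0 z hz, neg_neg]
    have h3 := (hst _).1 h1
    rw [AlgEquiv.mul_apply] at h3
    apply g₀.injective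
    rw [h3, map_neg, h0 z' hz', neg_neg]

theorem stab_step {c b : K} {i : ℕ} (hF : FlipAt W c b i) {z z' : W} (hz : z ∈ Lev W c b (i + 1))
    (hz' : z' ∈ Lev W c b (i + 1)) (hst : ∀ g : W ≃ₐ[K] W, g z = z ↔ g z' = z')
    (g : W ≃ₐ[K] W) :
    g (qm (algebraMap K W c) z) = qm (algebraMap K W c) z ↔
      g (qm (algebraMap K W c) z') = qm (algebraMap K W c) z' := by
  constructor
  · intro h
    rcases same_sign hF hz hz' hst g h with h1 | h1
    · rw [aut_qm, h1.2]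
    · rw [aut_qm, h1.2, qm_neg]
  · intro h
    rcases same_sign hF hz' hz (fun g => (hst g).symm) g h with h1 | h1
    · rw [aut_qm, h1.2]
    · rw [aut_qm, h1.2, qm_neg]

theorem stab_iter {c b : K} {B j : ℕ} {y y' : W} (hy : y ∈ Lev W c b (B + j))
    (hy' : y' ∈ Lev W c b (B + j)) (hst : ∀ g : W ≃ₐ[K] W, g y = y ↔ g y' = y')
    (hflip : ∀ i, B ≤ i → i < B + j → FlipAt W c b i) (d e : ℕ) (hde : d + e = j)
    (g : W ≃ₐ[K] W) :
    g ((qm (algebraMap K W c))^[d] y) = (qm (algebraMap K W c))^[d] y ↔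
      g ((qm (algebraMap K W c))^[d] y') = (qm (algebraMap K W c))^[d] y' := by
  induction d generalizing e g with
  | zero => exact hst g
  | succ d ih =>
    rw [Function.iterate_succ_apply', Function.iterate_succ_apply']
    have hl : B + j = B + e + 1 + d := by omega
    rw [hl] at hy hy'
    exact stab_step (hflip (B + e) (by omega) (by omega)) (Lev_iter.1 hy) (Lev_iter.1 hy')
      (fun g => ih (e + 1) (by omega) g) g

end tower

section norm
variable {K W : Type*} [Field K] [Field W] [Algebra K W] [IsAlgClosed W]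

/-- **R3**: the norms -/
theorem tower {c b : K} (h2 : (2 : W) ≠ 0)
    (hfix : ∀ x : W, (∀ g : W ≃ₐ[K] W, g x = x) → ∃ a : K, algebraMap K W a = x)
    (hb : ∀ n, 1 ≤ n → (qm c)^[n] 0 ≠ b) (hT : ∀ l, Tran W c b l) {B j : ℕ} (hB : 1 ≤ B)
    (hj : 1 ≤ j) {y y' : W} (hy : y ∈ Lev W c b (B + j)) (hy' : y' ∈ Lev W c b (B + j))
    (hst : ∀ g : W ≃ₐ[K] W, g y = y ↔ g y' = y')
    (heq : (qm (algebraMap K W c))^[j] y = (qm (algebraMap K W c))^[j] y')
    (hne : (qm (algebraMap K W c))^[j - 1] y ≠ (qm (algebraMap K W c))^[j - 1] y')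
    (hflip : ∀ i, B ≤ i → i < B + j → FlipAt W c b i) (i : ℕ) (hi1 : B + 1 ≤ i)
    (hi2 : i < B + j) :
    IsSquare ((qm c)^[i + 1] 0 - b) ∨
      IsSquare (((qm c)^[i + 1] 0 - b) * ((qm c)^[B + 1] 0 - b)) := by
  classical
  set C : W := algebraMap K W c with hC
  obtain ⟨e, rfl⟩ : ∃ e, i = B + (e + 1) := ⟨i - B - 1, by omega⟩
  obtain ⟨d, rfl⟩ : ∃ d, j = e + 2 + d := ⟨j - e - 2, by omega⟩
  have hj1 : e + 2 + d - 1 = e + (d + 1) := by omega
  rw [hj1] at hne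
  set ζ : W := (qm C)^[e + (d + 1)] y with hζ
  set ζ' : W := (qm C)^[e + (d + 1)] y' with hζ'
  -- `z`, `z'` are one level above `y_i`, `y'_i`
  set z : W := (qm C)^[d] y with hz
  set z' : W := (qm C)^[d] y' with hz'
  have hzL : z ∈ Lev W c b (B + (e + 1) + 1) := by
    have : B + (e + 2 + d) = B + (e + 1) + 1 + d := by ring
    rw [this] at hy
    exact Lev_iter.1 hy
  have hzL' : z' ∈ Lev W c b (B + (e + 1) + 1) := by
    have : B + (e + 2 + d) = B + (e + 1) + 1 + d := by ring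
    rw [this] at hy'
    exact Lev_iter.1 hy'
  have hst1 : ∀ g : W ≃ₐ[K] W, g z = z ↔ g z' = z' := fun g =>
    stab_iter hy hy' hst hflip d (e + 2) (by omega) g
  have hF1 : FlipAt W c b (B + (e + 1)) := hflip _ (by omega) (by omega)
  have hst2 : ∀ g : W ≃ₐ[K] W, g (qm C z) = qm C z ↔ g (qm C z') = qm C z' := fun g =>
    stab_step hF1 hzL hzL' hst1 g
  have hζz : (qm C)^[e] (qm C z) = ζ := by
    rw [hζ, hz, ← Function.iterate_succ_apply' (qm C) d y, ← Function.iterate_add_apply]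
  have hζz' : (qm C)^[e] (qm C z') = ζ' := by
    rw [hζ', hz', ← Function.iterate_succ_apply' (qm C) d y', ← Function.iterate_add_apply]
  have hζL : ζ ∈ Lev W c b (B + 1) := by
    have : B + (e + 2 + d) = B + 1 + (e + (d + 1)) := by ring
    rw [this] at hy
    exact Lev_iter.1 hy
  have hζL' : ζ' ∈ Lev W c b (B + 1) := by
    have : B + (e + 2 + d) = B + 1 + (e + (d + 1)) := by ring
    rw [this] at hy'
    exact Lev_iter.1 hy'
  have hneg : ζ' = -ζ := by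
    have h1 : qm C ζ = qm C ζ' := by
      rw [hζ, hζ', ← Function.iterate_succ_apply' (qm C), ← Function.iterate_succ_apply' (qm C)]
      have : (e + (d + 1)).succ = e + 2 + d := by omega
      rw [this]
      exact heq
    rcases qm_eq_iff.1 h1 with h3 | h3
    · exact absurd h3.symm hne
    · exact h3
  -- the square root over `y_i`
  have hξ : ∀ g : W ≃ₐ[K] W, g (qm C z) = qm C z → g (z * z') = z * z' := by
    intro g hg
    rcases same_sign hF1 hzL hzL' hst1 g hg with h1 | h1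
    · rw [map_mul, h1.1, h1.2]
    · rw [map_mul, h1.1, h1.2, neg_mul_neg]
  have hξ2 : (z * z') ^ 2 = (qm C z - C) * (qm C z' - C) := by
    simp only [qm]
    ring
  have hgC : ∀ g : W ≃ₐ[K] W, g C = C := fun g => g.commutes c
  have hgneg : ∀ (g : W ≃ₐ[K] W), g ζ = ζ → g ζ' = ζ' := fun g h => by
    rw [hneg, map_neg, h]
  -- transitivity below a node
  have htr : ∀ (L E : ℕ) (x₀ x : W), x₀ ∈ Lev W c b (L + E) → (qm C)^[E] x = (qm C)^[E] x₀ →
      ∃ g : W ≃ₐ[K] W, g ((qm C)^[E] x₀) = (qm C)^[E] x₀ ∧ g x₀ = x := by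
    intro L E x₀ x hx₀ hx
    have h1 : x ∈ Lev W c b (L + E) := by
      rw [Lev_iter]
      rw [← hC, hx]
      exact Lev_iter.1 hx₀
    obtain ⟨g, hg⟩ := hT _ _ hx₀ _ h1
    refine ⟨g, ?_, hg⟩
    rw [aut_iter, hg, ← hC, hx]
  -- step (i)
  obtain ⟨Ξ, hΞ1, hΞ2⟩ := orbProd2 (MulAction.stabilizer (W ≃ₐ[K] W) ζ) (pre C e ζ) (pre C e ζ')
    (qm C z) (qm C z') (fun h hh x hx => by
      rw [mem_pre] at hx ⊢
      rw [hC, ← aut_iter, ← hC, hx]
      exact hh) (fun x hx => by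
      rw [mem_pre] at hx
      obtain ⟨g, hg1, hg2⟩ := htr (B + 1) e (qm C z) x (by
        have : B + 1 + e = B + (e + 1) := by ring
        rw [this]
        exact Lev_qm.1 hzL) (by rw [hx, hζz])
      rw [hζz] at hg1
      exact ⟨g, hg1, hg2⟩) (mem_pre.2 hζz) (fun h hh x hx => by
      rw [mem_pre] at hx ⊢
      rw [hC, ← aut_iter, ← hC, hx]
      exact hgneg h hh) (fun x hx => by
      rw [mem_pre] at hx
      obtain ⟨g, hg1, hg2⟩ := htr (B + 1) e (qm C z') x (by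
        have : B + 1 + e = B + (e + 1) := by ring
        rw [this]
        exact Lev_qm.1 hzL') (by rw [hx, hζz'])
      rw [hζz'] at hg1
      refine ⟨g, ?_, hg2⟩
      show g ζ = ζ
      rw [hneg, map_neg, neg_inj] at hg1
      exact hg1) (mem_pre.2 hζz') (fun h _ => hst2 h) C (fun h _ => hgC h) (z * z') hξ2
      (fun h _ => hξ h)
  -- the value of the square
  have hnC : ∀ i : ℕ, ∀ x y : W, x ∈ Lev W c b i → ∀ k, (qm C)^[k] y = x → y ≠ C := by
    intro i x y hx k hk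
    refine ne_of_Lev (l := i + k) hb ?_
    rw [Lev_iter, ← hC, hk]
    exact hx
  have hval : Ξ ^ 2 = (qm C)^[e + 1] C - qm C ζ := by
    have h3 : ∀ x, (∀ i < e, ∀ y, (qm C)^[i] y = x → y ≠ C) →
        ∏ y ∈ pre C e x, (y - C) = (-1) ^ (2 ^ e) * ((qm C)^[e] C - x) := by
      intro x hx
      rw [← prod_sub h2 e hx, ← card_pre h2 e hx, ← prod_const, ← prod_mul_distrib]
      exact prod_congr rfl fun y _ => by ring
    rw [hΞ2, h3 ζ fun i _ y hy => hnC _ _ _ hζL i hy, h3 ζ' fun i _ y hy => hnC _ _ _ hζL' i hy,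
      hneg]
    have h4 : ((-1 : W) ^ (2 ^ e)) * (-1) ^ (2 ^ e) = 1 := by
      rw [← mul_pow, neg_mul_neg, one_mul, one_pow]
    rw [Function.iterate_succ_apply']
    generalize (qm C)^[e] C = t
    show _ = (t ^ 2 + C) - (ζ ^ 2 + C)
    linear_combination (t ^ 2 - ζ ^ 2) * h4
  -- step (ii)
  obtain ⟨g₀, hg0, hg1⟩ := hflip B le_rfl (by omega)
  have hrL : qm C ζ ∈ Lev W c b B := Lev_qm.1 hζL
  have hg0r : g₀ (qm C ζ) = qm C ζ := hg0 _ hrL
  have hg0ζ : g₀ ζ = -ζ := hg1 _ hζL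
  have hgr : ∀ g : W ≃ₐ[K] W, g (qm C ζ) = qm C ζ → g ζ = ζ ∨ g ζ = -ζ := by
    intro g hg
    rw [hC, aut_qm, ← hC, eq_comm, qm_eq_iff] at hg
    exact hg
  have hΞg : ∀ g : W ≃ₐ[K] W, g (qm C ζ) = qm C ζ → g Ξ = Ξ ∨ g Ξ = -Ξ := by
    intro g hg
    have h5 : (g Ξ) ^ 2 = Ξ ^ 2 := by
      rw [← map_pow, hval, map_sub, hg]
      congr 1
      rw [hC, aut_iter, g.commutes]
    exact sq_eq_sq_iff_eq_or_eq_neg.1 h5
  have hΘr : ∃ θ : W, (θ ^ 2 = (qm C)^[e + 1] C - qm C ζ ∨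
      θ ^ 2 = ((qm C)^[e + 1] C - qm C ζ) * (qm C ζ - C)) ∧
      ∀ g : W ≃ₐ[K] W, g (qm C ζ) = qm C ζ → g θ = θ := by
    have hcomp : ∀ g : W ≃ₐ[K] W, g ζ = -ζ → g₀ (g Ξ) = Ξ := by
      intro g hg
      have h5 : (g₀ * g) ζ = ζ := by
        rw [AlgEquiv.mul_apply, hg, map_neg, hg0ζ, neg_neg]
      exact hΞ1 _ h5
    rcases hΞg g₀ hg0r with h5 | h5
    · refine ⟨Ξ, Or.inl hval, fun g hg => ?_⟩
      rcases hgr g hg with h6 | h6
      · exact hΞ1 g h6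
      · apply g₀.injective
        rw [hcomp g h6, h5]
    · refine ⟨Ξ * ζ, Or.inr ?_, fun g hg => ?_⟩
      · rw [mul_pow, hval]
        simp only [qm]
        ring
      · rcases hgr g hg with h6 | h6
        · rw [map_mul, h6, hΞ1 g h6]
        · have h7 : g Ξ = -Ξ := by
            apply g₀.injective
            rw [hcomp g h6, map_neg, h5, neg_neg]
          rw [map_mul, h6, h7, neg_mul_neg]
  -- the orbit product over the level `B`
  have hiter : ∀ n : ℕ, (qm C)^[n] C = algebraMap K W ((qm c)^[n + 1] 0) := by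
    intro n
    rw [Function.iterate_succ_apply, map_iter]
    congr 1
    simp [qm, hC]
  have hfinal : ∀ (φ : W → W) (θ : W), (∀ (g : W ≃ₐ[K] W) x, g (φ x) = φ (g x)) →
      θ ^ 2 = φ (qm C ζ) → (∀ g : W ≃ₐ[K] W, g (qm C ζ) = qm C ζ → g θ = θ) →
      ∃ a : K, (algebraMap K W a) ^ 2 = ∏ x ∈ pre C B (algebraMap K W b), φ x := by
    intro φ θ hφ hθ hθ'
    obtain ⟨Θ, h5, h6⟩ := orbProd (⊤ : Subgroup (W ≃ₐ[K] W)) (pre C B (algebraMap K W b))
      (qm C ζ) (fun h _ x hx => by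
        rw [mem_pre] at hx ⊢
        rw [hC, ← aut_iter, ← hC, hx, h.commutes]) (fun x hx => by
        obtain ⟨g, hg⟩ := hT B _ hrL x (mem_pre.1 hx)
        exact ⟨g, trivial, hg⟩) (mem_pre.2 hrL) φ (fun h _ x _ => hφ h x) θ hθ
        (fun h _ => hθ' h)
    obtain ⟨a, ha⟩ := hfix Θ fun g => h5 g trivial
    exact ⟨a, by rw [ha, h6]⟩
  have hbL : ∀ i < B, ∀ y, (qm C)^[i] y = algebraMap K W b → y ≠ C := fun i _ y hy =>
    ne_of_Lev (l := i) hb hy
  have hP1 : ∏ x ∈ pre C B (algebraMap K W b), ((qm C)^[e + 1] C - x) =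
      algebraMap K W ((qm c)^[B + (e + 1) + 1] 0 - b) := by
    rw [prod_sub h2 B hbL, ← Function.iterate_add_apply, hiter, map_sub, ← add_assoc]
  have hP2 : ∏ x ∈ pre C B (algebraMap K W b), (x - C) =
      algebraMap K W ((qm c)^[B + 1] 0 - b) := by
    have h7 : ∏ x ∈ pre C B (algebraMap K W b), (x - C) =
        (-1) ^ (2 ^ B) * ((qm C)^[B] C - algebraMap K W b) := by
      rw [← prod_sub h2 B hbL, ← card_pre h2 B hbL, ← prod_const, ← prod_mul_distrib]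
      exact prod_congr rfl fun y _ => by ring
    have h8 : Even (2 ^ B) := (Nat.even_pow.2 ⟨even_two, by omega⟩)
    rw [h7, h8.neg_one_pow, one_mul, hiter, map_sub]
  obtain ⟨θ, hθ | hθ, hθ'⟩ := hΘr
  · left
    obtain ⟨a, ha⟩ := hfinal (fun x => (qm C)^[e + 1] C - x) θ (fun g x => by
      rw [map_sub]
      congr 1
      rw [hC, aut_iter, g.commutes]) hθ hθ'
    rw [hP1, ← map_pow] at ha
    exact ⟨a, by rw [← (algebraMap K W).injective ha, sq]⟩
  · right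
    obtain ⟨a, ha⟩ := hfinal (fun x => ((qm C)^[e + 1] C - x) * (x - C)) θ (fun g x => by
      rw [map_mul, map_sub, map_sub, hgC]
      congr 2
      rw [hC, aut_iter, g.commutes]) hθ hθ'
    rw [prod_mul_distrib, hP1, hP2, ← map_pow, ← map_mul] at ha
    exact ⟨a, by rw [← (algebraMap K W).injective ha, sq]⟩

end norm

end Pool.Agent.ORB.VQ
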