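import Pool.Agent.ORB.VTree
import Pool.Agent.ORB.VTower
import Pool.Agent.ORB.VWin
import Pool.Agent.ORB.VFreshF
import Pool.Agent.ORB.VSel

/-!
ORB, Theorem V: the end of the engine, and the descent.
-/

namespace Pool.Agent.ORB.VQ

open Finset

/-- the fresh node property -/
def FreshP (W : Type*) {K : Type*} [Field K] [Field W] [Algebra K W] (c b : K) : Prop :=
  ∀ (T : Set W) (l₁ D₀ b₀ : ℕ), T.Finite → (∀ (g : W ≃ₐ[K] W), ∀ t ∈ T, g t ∈ T) →
    Lev W c b l₁ ⊆ T → ∃ l, l₁ ≤ l ∧ ∃ u ∈ Ufix T c b l, (∃ z ∈ Lev W c b (l + 1), u z ≠ z) ∧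
      ∀ z ∈ Lev W c b (l + 1), ∀ z' ∈ Lev W c b (l + 1), u z ≠ z → u z' ≠ z' →
        ∀ j, 1 ≤ j → j ≤ l →
          (qm (algebraMap K W c))^[j] (qm (algebraMap K W c) z) =
            (qm (algebraMap K W c))^[j] (qm (algebraMap K W c) z') →
          (qm (algebraMap K W c))^[j - 1] (qm (algebraMap K W c) z) ≠
            (qm (algebraMap K W c))^[j - 1] (qm (algebraMap K W c) z') →
          D₀ < j ∧ b₀ ≤ l - j

theorem fixed_of_closure {K W : Type*} [Field K] [CharZero K] [Field W] [Algebra K W]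
    [IsAlgClosed W] [Algebra.IsAlgebraic K W] (x : W) (hx : ∀ g : W ≃ₐ[K] W, g x = x) :
    ∃ a : K, algebraMap K W a = x := by
  have h1 : IsAlgClosure K W := ⟨inferInstance, inferInstance⟩
  have h2 : IsGalois K W := isGalois_iff.2 ⟨inferInstance, inferInstance⟩
  exact (InfiniteGalois.mem_range_algebraMap_iff_fixed x).2 hx

universe u

open IntermediateField in
theorem freshOf {K : Type*} [Field K] [NumberField K] {W : Type u} [Field W] [Algebra K W]
    [IsAlgClosed W] [Algebra.IsAlgebraic K W] {c b : K}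
    (h0 : Function.Injective fun n : ℕ => (qm c)^[n] 0)
    (hb : ∀ n, 1 ≤ n → (qm c)^[n] 0 ≠ b) : FreshP W c b := by
  have h1 : IsAlgClosure K W := ⟨inferInstance, inferInstance⟩
  have h2 : IsGalois K W := isGalois_iff.2 ⟨inferInstance, inferInstance⟩
  intro T l₁ D₀ b₀ hT _ hLT
  have hfin : FiniteDimensional K (adjoin K T) := by
    have : Finite T := hT
    exact finiteDimensional_adjoin fun x _ =>
      (Algebra.IsAlgebraic.isAlgebraic (R := K) x).isIntegral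
  obtain ⟨l, hl, g, hg1, hg2, ⟨z, hz1, hz2⟩, hg3⟩ := fresh (fun F _ _ S hS => VSel.selmer hS) c b
    h0 hb (adjoin K T) l₁ (fun z hz => subset_adjoin K T (hLT hz)) D₀ b₀
  refine ⟨l, hl, g, ⟨fun t ht => hg1 t (subset_adjoin K T ht), fun x hx => hg2 x hx⟩,
    ⟨z, hz1, hz2⟩, fun z hz z' hz' hgz hgz' j hj _ h3 h4 => ?_⟩
  obtain ⟨h5, -, h6⟩ := hg3 _ _ z z' (Lev_qm.1 hz) (Lev_qm.1 hz') rfl rfl hgz hgz' j hj h3 h4
  exact ⟨h5, h6⟩

/-- **The end of the engine.** -/
theorem engine' {K W : Type*} [Field K] [NumberField K] [Field W] [Algebra K W] [IsAlgClosed W]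
    [Algebra.IsAlgebraic K W] {c b : K} (h0 : Function.Injective fun n : ℕ => (qm c)^[n] 0)
    (hb : ∀ n, 1 ≤ n → (qm c)^[n] 0 ≠ b) (hT : ∀ l, Tran W c b l) (l₀ : ℕ)
    (hF : ∀ l, l₀ ≤ l → FlipAt W c b l) (hR : FreshP W c b) : ExtP W c b := by
  classical
  have : CharZero W := charZero_of_injective_algebraMap (algebraMap K W).injective
  have h2 : (2 : W) ≠ 0 := two_ne_zero
  by_contra hE
  obtain ⟨T, l₁, hTf, hst, hLT, hpair⟩ := pairs h2 hb hT l₀ hF hE
  have hbc : b ≠ c := by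
    intro h
    apply hb 1 le_rfl
    show (0 : K) ^ 2 + c = b
    rw [h]
    ring
  obtain ⟨H, n₀, hwin⟩ := window c b hbc h0 2
  obtain ⟨l, hl, u, hu, ⟨z, hz, huz⟩, hfr⟩ :=
    hR T l₁ (H + 1) (max (max n₀ l₀) 1) hTf hst hLT
  set C : W := algebraMap K W c with hC
  have hy : qm C z ∈ Lev W c b l := Lev_qm.1 hz
  obtain ⟨y', hy', hne, hstab, hmov⟩ := hpair l hl _ hy
  have hz' : rt C y' ∈ Lev W c b (l + 1) := Lev_qm.2 (by rw [← hC, qm_rt]; exact hy')
  have huz' : u (rt C y') ≠ rt C y' := fun h =>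
    huz ((hmov u hu z (rt C y') rfl (qm_rt C y')).2 h)
  -- the branching
  have hex : ∃ j, (qm C)^[j] (qm C z) = (qm C)^[j] y' := ⟨l, by
    rw [show (qm C)^[l] (qm C z) = algebraMap K W b from hy,
      show (qm C)^[l] y' = algebraMap K W b from hy']⟩
  set j := Nat.find hex with hj
  have hj1 : (qm C)^[j] (qm C z) = (qm C)^[j] y' := Nat.find_spec hex
  have hjl : j ≤ l := Nat.find_le (by
    rw [show (qm C)^[l] (qm C z) = algebraMap K W b from hy,
      show (qm C)^[l] y' = algebraMap K W b from hy'])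
  have hjpos : 1 ≤ j := by
    rcases Nat.eq_zero_or_pos j with h | h
    · exfalso
      rw [h] at hj1
      exact hne hj1.symm
    · exact h
  have hj2 : (qm C)^[j - 1] (qm C z) ≠ (qm C)^[j - 1] y' :=
    Nat.find_min hex (by omega)
  obtain ⟨hD, hB⟩ := hfr z hz (rt C y') hz' huz huz' j hjpos hjl (by rw [qm_rt]; exact hj1)
    (by rw [qm_rt]; exact hj2)
  obtain ⟨B, hBl⟩ : ∃ B, l = B + j := ⟨l - j, by omega⟩
  have hB' : max (max n₀ l₀) 1 ≤ B := by omega
  have hB1 : 1 ≤ B := (le_max_right _ _).trans hB'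
  have hBn : n₀ ≤ B := ((le_max_left _ _).trans (le_max_left _ _)).trans hB'
  have hBl₀ : l₀ ≤ B := ((le_max_right _ _).trans (le_max_left _ _)).trans hB'
  rw [hBl] at hy hy'
  have hsq := tower h2 fixed_of_closure hb hT hB1 hjpos hy hy' hstab hj1 hj2
    fun i hi _ => hF i (hBl₀.trans hi)
  obtain ⟨t, ht1, htH, ht⟩ := hwin (B + 1) (by omega) ![1, (qm c)^[B + 1] 0 - b] (by
    intro i
    fin_cases i
    · exact one_ne_zero
    · exact sub_ne_zero.2 (hb (B + 1) (by omega)))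
  have h3 := ht 0
  have h4 := ht 1
  have hidx : B + 1 + t = B + t + 1 := by ring
  rw [hidx] at h3 h4
  rcases hsq (B + t) (by omega) (by omega) with h5 | h5
  · apply h3
    show IsSquare (((qm c)^[B + t + 1] 0 - b) * 1)
    rw [mul_one]
    exact h5
  · exact h4 h5

theorem engine {K : Type*} [Field K] [NumberField K] {W : Type u} [Field W] [Algebra K W]
    [IsAlgClosed W] [Algebra.IsAlgebraic K W] {c b : K}
    (h0 : Function.Injective fun n : ℕ => (qm c)^[n] 0)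
    (hb : ∀ n, 1 ≤ n → (qm c)^[n] 0 ≠ b) (hT : ∀ l, Tran W c b l) (l₀ : ℕ)
    (hF : ∀ l, l₀ ≤ l → FlipAt W c b l) : ExtP W c b :=
  engine' h0 hb hT l₀ hF (freshOf h0 hb)

end Pool.Agent.ORB.VQ
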