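import Pool.Agent.ORB.VTame

set_option autoImplicit false

/-! ORB, Theorem V: the fresh node (an automorphism which fixes the levels `≤ l`, moves a point of
the level `l + 1`, and moves points over two different nodes only if these branch far away). -/

namespace Pool.Agent.ORB

open Polynomial

section

variable {Ω Γ : Type*} [Field Ω] [LinearOrderedCommGroupWithZero Γ]

theorem quad_int {w : Valuation Ω Γ} {c x : Ω} (hc : w c ≤ 1) (hx : w x ≤ 1) : w (x ^ 2 + c) ≤ 1 :=
  w.map_add_le (by rw [map_pow]; exact pow_le_one₀ zero_le hx) hc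

theorem quad_iter_int {w : Valuation Ω Γ} {c : Ω} (hc : w c ≤ 1) (n : ℕ) {x : Ω} (hx : w x ≤ 1) :
    w ((fun x : Ω => x ^ 2 + c)^[n] x) ≤ 1 := by
  induction n with
  | zero => simpa using hx
  | succ n ih =>
    rw [Function.iterate_succ_apply']
    exact quad_int hc ih

theorem quad_root_int {w : Valuation Ω Γ} {c b : Ω} (hc : w c ≤ 1) (hb : w b ≤ 1) :
    ∀ (n : ℕ) (z : Ω), (fun x : Ω => x ^ 2 + c)^[n] z = b → w z ≤ 1 := by
  intro n
  induction n with
  | zero =>
    intro z hz
    simp only [Function.iterate_zero, id_eq] at hz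
    rw [hz]
    exact hb
  | succ n ih =>
    intro z hz
    rw [Function.iterate_succ_apply] at hz
    have h1 := ih _ hz
    have h2 : w z ^ 2 ≤ 1 := by
      rw [← map_pow]
      have : z ^ 2 = (z ^ 2 + c) - c := by ring
      rw [this]
      exact w.map_sub_le h1 hc
    by_contra h3
    rw [not_le] at h3
    exact absurd h2 (not_le.2 (one_lt_pow₀ h3 two_ne_zero))

theorem quad_congr {w : Valuation Ω Γ} {c x y : Ω} (hx : w x ≤ 1) (hy : w y ≤ 1)
    (h : w (x - y) < 1) : w ((x ^ 2 + c) - (y ^ 2 + c)) < 1 := by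
  have : (x ^ 2 + c) - (y ^ 2 + c) = (x - y) * (x + y) := by ring
  rw [this, map_mul]
  exact mul_lt_one_of_nonneg_of_lt_one_left zero_le h (w.map_add_le hx hy)

theorem quad_iter_congr {w : Valuation Ω Γ} {c : Ω} (hc : w c ≤ 1) (n : ℕ) {x y : Ω}
    (hx : w x ≤ 1) (hy : w y ≤ 1) (h : w (x - y) < 1) :
    w ((fun x : Ω => x ^ 2 + c)^[n] x - (fun x : Ω => x ^ 2 + c)^[n] y) < 1 := by
  induction n with
  | zero => simpa using h
  | succ n ih =>
    rw [Function.iterate_succ_apply', Function.iterate_succ_apply']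
    exact quad_congr (quad_iter_int hc n hx) (quad_iter_int hc n hy) ih

/-- the polynomial of the level `n` -/
noncomputable def levPoly (c b : Ω) (n : ℕ) : Polynomial Ω := (fun P : Polynomial Ω => P ^ 2 + C c)^[n] X - C b

theorem eval_iter (c x : Ω) (n : ℕ) :
    ((fun P : Polynomial Ω => P ^ 2 + C c)^[n] X).eval x = (fun x : Ω => x ^ 2 + c)^[n] x := by
  induction n with
  | zero => simp
  | succ n ih =>
    rw [Function.iterate_succ_apply', Function.iterate_succ_apply', eval_add, eval_pow, eval_C, ih]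

theorem monic_iter (c : Ω) (n : ℕ) : ((fun P : Polynomial Ω => P ^ 2 + C c)^[n] X).Monic ∧
    0 < ((fun P : Polynomial Ω => P ^ 2 + C c)^[n] X).natDegree := by
  induction n with
  | zero => simp [monic_X]
  | succ n ih =>
    rw [Function.iterate_succ_apply']
    set P := (fun P : Polynomial Ω => P ^ 2 + C c)^[n] X
    obtain ⟨hm, hd⟩ := ih
    have h1 : (P ^ 2).Monic := hm.pow 2
    have h2 : (P ^ 2).natDegree = 2 * P.natDegree := hm.natDegree_pow 2
    have h3 : (C c : Polynomial Ω).degree < (P ^ 2).degree := by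
      rw [degree_eq_natDegree h1.ne_zero, h2]
      refine lt_of_le_of_lt degree_C_le ?_
      exact_mod_cast (by omega : 0 < 2 * P.natDegree)
    refine ⟨h1.add_of_left h3, ?_⟩
    rw [natDegree_add_eq_left_of_degree_lt h3, h2]
    omega

theorem monic_levPoly (c b : Ω) (n : ℕ) : (levPoly c b n).Monic := by
  obtain ⟨hm, hd⟩ := monic_iter c n
  rw [levPoly, sub_eq_add_neg, ← C_neg]
  refine hm.add_of_left ?_
  rw [degree_eq_natDegree hm.ne_zero]
  refine lt_of_le_of_lt degree_C_le ?_
  exact_mod_cast hd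

theorem eval_levPoly (c b x : Ω) (n : ℕ) :
    (levPoly c b n).eval x = (fun x : Ω => x ^ 2 + c)^[n] x - b := by
  rw [levPoly, eval_sub, eval_iter, eval_C]

/-- The value of `f^n(0) - b` is the product of the values of the level `n`, hence a square if these
values are in `H`. -/
theorem square_of_all [IsAlgClosed Ω] {w : Valuation Ω Γ} {H : Subgroup Γˣ} {c b : Ω} {n : ℕ}
    (h : ∀ z : Ω, (fun x : Ω => x ^ 2 + c)^[n + 1] z = b → InH H (w z)) :
    ∃ g : Γ, InH H g ∧ w ((fun x : Ω => x ^ 2 + c)^[n + 1] 0 - b) = g ^ 2 := by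
  have e1 : (fun x : Ω => x ^ 2 + c)^[n + 1] 0 - b = (levPoly c b n).eval c := by
    rw [eval_levPoly, Function.iterate_succ_apply]
    congr 2
    ring
  have hsp : (levPoly c b n) = ((levPoly c b n).roots.map fun a => X - C a).prod := by
    have := (IsAlgClosed.splits (levPoly c b n)).eq_prod_roots_of_monic (monic_levPoly c b n)
    exact this
  rw [e1, hsp, eval_multiset_prod, Multiset.map_map]
  have key : ∀ S : Multiset Ω, (∀ y ∈ S, (fun x : Ω => x ^ 2 + c)^[n] y = b) →
      ∃ g : Γ, InH H g ∧ w ((S.map ((eval c) ∘ fun a => X - C a)).prod) = g ^ 2 := by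
    intro S
    induction S using Multiset.induction with
    | empty =>
      intro _
      exact ⟨1, InH.one H, by simp⟩
    | cons y S ih =>
      intro hS
      obtain ⟨g, hg, e⟩ := ih fun y hy => hS y (Multiset.mem_cons_of_mem hy)
      obtain ⟨z, hz⟩ := IsAlgClosed.exists_pow_nat_eq (y - c) (by norm_num : 0 < 2)
      have hz1 : InH H (w z) := by
        apply h
        rw [Function.iterate_succ_apply]
        have : z ^ 2 + c = y := by rw [hz]; ring
        rw [this]
        exact hS y (Multiset.mem_cons_self y S)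
      refine ⟨w z * g, hz1.mul hg, ?_⟩
      rw [Multiset.map_cons, Multiset.prod_cons, map_mul, e, mul_pow]
      congr 1
      simp only [Function.comp_apply, eval_sub, eval_X, eval_C]
      rw [← map_pow, hz, Valuation.map_sub_swap]
  apply key
  intro y hy
  have h1 : (levPoly c b n).eval y = 0 := (mem_roots'.1 hy).2
  rw [eval_levPoly] at h1
  exact sub_eq_zero.1 h1

end

/-- **Fresh node, local form.** -/
theorem fresh_core {K Ω Γ : Type*} [Field K] [Field Ω] [Algebra K Ω] [IsGalois K Ω]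
    [IsAlgClosed Ω] [LinearOrderedCommGroupWithZero Γ] (w : Valuation Ω Γ) (h2 : w 2 = 1) (c b : K)
    (L : Subfield Ω) (hKL : ∀ x : K, algebraMap K Ω x ∈ L)
    (hc : w (algebraMap K Ω c) ≤ 1) (hb : w (algebraMap K Ω b) ≤ 1) (D0 b0 : ℕ)
    (hx : ∀ i, 1 ≤ i → i ≤ D0 → w ((fun x : Ω => x ^ 2 + algebraMap K Ω c)^[i] 0) = 1)
    (ha : ∀ i, 1 ≤ i → i ≤ b0 →
      w ((fun x : Ω => x ^ 2 + algebraMap K Ω c)^[i] 0 - algebraMap K Ω b) = 1)
    (l1 : ℕ) (hl1 : ∀ z, (fun x : Ω => x ^ 2 + algebraMap K Ω c)^[l1] z = algebraMap K Ω b → z ∈ L)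
    (n : ℕ) (hn : 1 ≤ n)
    (hne : ∀ z, (fun x : Ω => x ^ 2 + algebraMap K Ω c)^[n] z = algebraMap K Ω b → z ≠ 0)
    (hodd : ∀ x ∈ L, w x ^ 2 ≠
      w ((fun x : Ω => x ^ 2 + algebraMap K Ω c)^[n] 0 - algebraMap K Ω b)) :
    ∃ l, l1 ≤ l ∧ ∃ g : Ω ≃ₐ[K] Ω, (∀ x ∈ L, g x = x) ∧
      (∀ z, (fun x : Ω => x ^ 2 + algebraMap K Ω c)^[l] z = algebraMap K Ω b → g z = z) ∧
      (∃ z, (fun x : Ω => x ^ 2 + algebraMap K Ω c)^[l + 1] z = algebraMap K Ω b ∧ g z ≠ z) ∧
      ∀ y y' z z' : Ω, (fun x : Ω => x ^ 2 + algebraMap K Ω c)^[l] y = algebraMap K Ω b →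
        (fun x : Ω => x ^ 2 + algebraMap K Ω c)^[l] y' = algebraMap K Ω b →
        z ^ 2 + algebraMap K Ω c = y → z' ^ 2 + algebraMap K Ω c = y' → g z ≠ z → g z' ≠ z' →
        ∀ j, 1 ≤ j → (fun x : Ω => x ^ 2 + algebraMap K Ω c)^[j] y =
          (fun x : Ω => x ^ 2 + algebraMap K Ω c)^[j] y' →
        (fun x : Ω => x ^ 2 + algebraMap K Ω c)^[j - 1] y ≠
          (fun x : Ω => x ^ 2 + algebraMap K Ω c)^[j - 1] y' → D0 < j ∧ j ≤ l ∧ b0 ≤ l - j := by
  classical
  set c' : Ω := algebraMap K Ω c with hc'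
  set β : Ω := algebraMap K Ω b with hβ
  set f : Ω → Ω := fun x => x ^ 2 + c' with hf
  have hcL : c' ∈ L := hKL c
  have hsurj : Function.Surjective f := by
    intro y
    obtain ⟨z, hz⟩ := IsAlgClosed.exists_pow_nat_eq (y - c') (by norm_num : 0 < 2)
    exact ⟨z, by rw [hf]; simp only; rw [hz]; ring⟩
  have hfL : ∀ (m : ℕ) (x : Ω), x ∈ L → f^[m] x ∈ L := by
    intro m
    induction m with
    | zero => intro x hx; simpa using hx
    | succ m ih =>
      intro x hx
      rw [Function.iterate_succ_apply]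
      exact ih _ (L.add_mem (L.pow_mem hx 2) hcL)
  set H : Subgroup Γˣ := valGrp w L with hH
  -- a bad level
  have hbad : ∃ m, ∃ z, f^[m] z = β ∧ z ≠ 0 ∧ ¬ InH H (w z) := by
    by_contra hcon
    push Not at hcon
    obtain ⟨m, rfl⟩ : ∃ m, n = m + 1 := ⟨n - 1, by omega⟩
    obtain ⟨g, hg, e⟩ := square_of_all (w := w) (H := H) (c := c') (b := β) (n := m)
      (fun z hz => hcon (m + 1) z hz (hne z hz))
    obtain ⟨x, hxL, -, hxw⟩ := inH_valGrp.1 hg
    exact hodd x hxL (by rw [hxw]; exact e.symm)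
  set m := Nat.find hbad with hm
  obtain ⟨z0, hz0, hz00, hz0H⟩ := Nat.find_spec hbad
  have hmin : ∀ k < m, ∀ z, f^[k] z = β → z ≠ 0 → InH H (w z) := by
    intro k hk z hz hz0
    by_contra h
    exact Nat.find_min hbad hk ⟨z, hz, hz0, h⟩
  have hml : l1 < m := by
    by_contra hle
    rw [not_lt] at hle
    apply hz0H
    obtain ⟨z1, hz1⟩ := (hsurj.iterate (l1 - m)) z0
    have h3 : f^[l1] z1 = β := by
      have : l1 = m + (l1 - m) := by omega
      rw [this, Function.iterate_add_apply, hz1]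
      exact hz0
    have h4 : z0 ∈ L := by
      rw [← hz1]
      exact hfL _ _ (hl1 z1 h3)
    exact inH_valGrp.2 ⟨z0, h4, hz00, rfl⟩
  obtain ⟨l, hl⟩ : ∃ l, m = l + 1 := ⟨m - 1, by omega⟩
  rw [← hm, hl] at hz0
  obtain ⟨M, hLM, hMH, hMs⟩ := exists_max_valIn h2 (valIn_valGrp w L)
  have hKM : ∀ x : K, algebraMap K Ω x ∈ M := fun x => hLM (hKL x)
  have hlevM : ∀ i : ℕ, i ≤ l → ∀ z : Ω, f^[i] z = β → z ∈ M := by
    intro i
    induction i with
    | zero =>
      intro _ z hz
      simp only [Function.iterate_zero, id_eq] at hz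
      rw [hz]
      exact hKM b
    | succ i ih =>
      intro hi z hz
      have hy : f z ∈ M := ih (by omega) (f z) (by rw [← Function.iterate_succ_apply]; exact hz)
      refine hMs z ?_ (hmin (i + 1) (by omega) z hz)
      have : z ^ 2 = f z - c' := by rw [hf]; ring
      rw [this]
      exact M.sub_mem hy (hKM c)
  have hz0M : z0 ∉ M := fun hmem => hz0H (hMH z0 hmem hz00)
  obtain ⟨g, hgM, hgz⟩ := exists_moving M hKM hz0M
  refine ⟨l, by omega, g, fun x hx => hgM x (hLM hx), fun z hz => hgM z (hlevM l le_rfl z hz),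
    ⟨z0, hz0, hgz⟩, ?_⟩
  -- moved points have small values
  have hsmall : ∀ y z : Ω, f^[l] y = β → z ^ 2 + c' = y → g z ≠ z → w (y - c') < 1 := by
    intro y z hy hz hgz
    have hzl : f^[l + 1] z = β := by
      rw [Function.iterate_succ_apply]
      have : f z = y := hz
      rw [this]
      exact hy
    have h3 : w z ≤ 1 := quad_root_int hc hb (l + 1) z hzl
    have h4 : w z ≠ 1 := by
      intro h5
      apply hgz
      apply hgM
      refine hMs z ?_ (fun _ => by rw [h5]; exact InH.one H)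
      have : z ^ 2 = y - c' := by rw [← hz]; ring
      rw [this]
      exact M.sub_mem (hlevM l le_rfl y hy) (hKM c)
    have h5 : w z < 1 := lt_of_le_of_ne h3 h4
    have h6 : y - c' = z ^ 2 := by rw [← hz]; ring
    rw [h6, map_pow]
    exact pow_lt_one₀ zero_le h5 two_ne_zero
  intro y y' z z' hy hy' hz hz' hgz hgz' j hj hjeq hjne
  have hyi : w y ≤ 1 := quad_root_int hc hb l y hy
  have hyi' : w y' ≤ 1 := quad_root_int hc hb l y' hy'
  have s1 := hsmall y z hy hz hgz
  have s2 := hsmall y' z' hy' hz' hgz'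
  set ζ := f^[j - 1] y with hζ
  set ζ' := f^[j - 1] y' with hζ'
  have hxj : f^[j - 1] c' = f^[j] 0 := by
    have e0 : f 0 = c' := by rw [hf]; ring
    conv_rhs => rw [← Nat.sub_add_cancel hj, Function.iterate_succ_apply, e0]
  have t1 : w (ζ - f^[j] 0) < 1 := by
    rw [← hxj]
    exact quad_iter_congr hc (j - 1) hyi hc s1
  have t2 : w (ζ' - f^[j] 0) < 1 := by
    rw [← hxj]
    exact quad_iter_congr hc (j - 1) hyi' hc s2
  have hff : f ζ = f ζ' := by
    have e1 : f^[j] y = f ζ := by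
      rw [hζ, ← Function.iterate_succ_apply' f (j - 1) y, Nat.succ_eq_add_one,
        Nat.sub_add_cancel hj]
    have e2 : f^[j] y' = f ζ' := by
      rw [hζ', ← Function.iterate_succ_apply' f (j - 1) y', Nat.succ_eq_add_one,
        Nat.sub_add_cancel hj]
    rw [← e1, ← e2]
    exact hjeq
  have hneg : ζ' = -ζ := by
    have h3 : ζ' ^ 2 = ζ ^ 2 := by
      have : ζ ^ 2 + c' = ζ' ^ 2 + c' := hff
      exact (add_right_cancel this).symm
    rcases sq_eq_sq_iff_eq_or_eq_neg.1 h3 with h | h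
    · exact absurd h.symm hjne
    · exact h
  have t3 : w (f^[j] 0) < 1 := by
    have h3 : w (2 * f^[j] 0) < 1 := by
      have : 2 * f^[j] 0 = -((ζ - f^[j] 0) + (ζ' - f^[j] 0)) := by rw [hneg]; ring
      rw [this, Valuation.map_neg]
      exact w.map_add_lt t1 t2
    rwa [map_mul, h2, one_mul] at h3
  have t4 : w ζ < 1 := by
    have : ζ = (ζ - f^[j] 0) + f^[j] 0 := by ring
    rw [this]
    exact w.map_add_lt t1 t3
  have hjl : j ≤ l := by
    by_contra h3
    rw [not_le] at h3
    apply hjne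
    have e : j - 1 = (j - 1 - l) + l := by omega
    rw [hζ, hζ', e, Function.iterate_add_apply, Function.iterate_add_apply, hy, hy']
  refine ⟨?_, hjl, ?_⟩
  · by_contra h3
    rw [not_lt] at h3
    exact absurd (hx j hj h3) t3.ne
  · by_contra h3
    rw [not_le] at h3
    have e1 : f^[l - j] (f ζ) = β := by
      have h4 : f ζ = f^[j] y := by
        rw [hζ, ← Function.iterate_succ_apply' f (j - 1) y, Nat.succ_eq_add_one,
          Nat.sub_add_cancel hj]
      rw [h4, ← Function.iterate_add_apply, Nat.sub_add_cancel hjl]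
      exact hy
    have e2 : f^[l - j] c' = f^[l - j + 1] 0 := by
      have e0 : f 0 = c' := by rw [hf]; ring
      rw [Function.iterate_succ_apply, e0]
    have t5 : w (f ζ - c') < 1 := by
      have : f ζ - c' = ζ ^ 2 := by rw [hf]; ring
      rw [this, map_pow]
      exact pow_lt_one₀ zero_le t4 two_ne_zero
    have t6 : w (f^[l - j] (f ζ) - f^[l - j] c') < 1 :=
      quad_iter_congr hc (l - j) (quad_int hc t4.le) hc t5
    rw [e1, e2, Valuation.map_sub_swap] at t6
    exact absurd (ha (l - j + 1) (by omega) (by omega)) t6.ne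

end Pool.Agent.ORB
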