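import Pool.Agent.ORB.VFreshF
import Pool.Agent.ORB.VSel
import Pool.Agent.ORB.VTree

set_option autoImplicit false

/-! ORB, Theorem V: the fresh node in the form used by the engine (row R2). -/

namespace Pool.Agent.ORB.VQ

open IsDedekindDomain NumberField

universe u

theorem selFin : SelFin.{u} := fun _ _ _ _ hS => VSel.selmer hS

/-- **Row R2.** -/
theorem freshP {K : Type*} [Field K] [NumberField K] (W : Type u) [Field W] [Algebra K W]
    [Algebra.IsAlgebraic K W] [IsAlgClosed W] (c b : K)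
    (hinj : Function.Injective fun n : ℕ => (qm c)^[n] 0)
    (hb : ∀ n, 1 ≤ n → (qm c)^[n] 0 ≠ b) :
    ∀ (T : Set W) (l1 D0 b0 : ℕ), T.Finite → (∀ (g : W ≃ₐ[K] W), ∀ t ∈ T, g t ∈ T) →
      Lev W c b l1 ⊆ T → ∃ l, l1 ≤ l ∧ ∃ u ∈ Ufix T c b l, (∃ z ∈ Lev W c b (l + 1), u z ≠ z) ∧
        ∀ z ∈ Lev W c b (l + 1), ∀ z' ∈ Lev W c b (l + 1), u z ≠ z → u z' ≠ z' →
          ∀ j, 1 ≤ j → j ≤ l →
            (qm (algebraMap K W c))^[j] (qm (algebraMap K W c) z) =
              (qm (algebraMap K W c))^[j] (qm (algebraMap K W c) z') →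
            (qm (algebraMap K W c))^[j - 1] (qm (algebraMap K W c) z) ≠
              (qm (algebraMap K W c))^[j - 1] (qm (algebraMap K W c) z') →
            D0 < j ∧ b0 ≤ l - j := by
  intro T l1 D0 b0 hT _ hl1
  have hclosure : IsAlgClosure K W := ⟨inferInstance, inferInstance⟩
  have hgal : IsGalois K W := IsAlgClosure.isGalois K W
  set L : IntermediateField K W := IntermediateField.adjoin K T with hL
  have hfin : Finite T := hT
  have hfd : FiniteDimensional K L :=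
    IntermediateField.finiteDimensional_adjoin fun x _ => Algebra.IsIntegral.isIntegral x
  obtain ⟨l, h1, g, g1, g2, ⟨z0, hz0, gz0⟩, g4⟩ := fresh (selFin.{u}) (Ω := W) c b hinj hb L l1
    (fun z hz => IntermediateField.subset_adjoin K T (hl1 hz)) D0 b0
  refine ⟨l, h1, g, ⟨fun t ht => g1 t (IntermediateField.subset_adjoin K T ht), fun x hx => g2 x hx⟩,
    ⟨z0, hz0, gz0⟩, ?_⟩
  intro z hz z' hz' hgz hgz' j hj1 hjl hj2 hj3
  obtain ⟨r1, -, r3⟩ := g4 (qm (algebraMap K W c) z) (qm (algebraMap K W c) z') z z'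
    (Lev_qm.1 hz) (Lev_qm.1 hz') rfl rfl hgz hgz' j hj1 hj2 hj3
  exact ⟨r1, r3⟩

end Pool.Agent.ORB.VQ
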