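import Pool.Agent.ORB.VCore
import Pool.Agent.ORB.VBase
import Pool.Agent.ORB.RReal

/-!
ORB, Theorem V, assembly, second part: from the extension property of the pairs `(c, b')` (`ExtP`) to the
extension property for tuples of maps which are conjugate to iterates of quadratic polynomials.
-/

namespace Pool.Agent.ORB.VQ

open NumberField IsDedekindDomain Polynomial

universe u

/-- the targets of `b`: the points `b'` of `K` which are not periodic and which are equal to `b` or, if `b` is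
periodic, are mapped into the cycle of `b` -/
def tg {K : Type*} [Field K] (c b : K) : Set K :=
  {b' | (∀ m, 1 ≤ m → (qm c)^[m] b' ≠ b') ∧
    (b' = b ∨ ((∃ m, 1 ≤ m ∧ (qm c)^[m] b = b) ∧ ∃ j, qm c b' = (qm c)^[j] b))}

theorem iter_periodic {X : Type*} (T : X → X) {b : X} {m : ℕ} (h : T^[m] b = b) (j n : ℕ) :
    T^[n + m * j] b = T^[n] b := by
  rw [Function.iterate_add_apply]
  congr 1
  exact Function.IsPeriodicPt.mul_const h j

theorem tg_finite {K : Type*} [Field K] (c b : K) : (tg c b).Finite := by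
  by_cases hper : ∃ m, 1 ≤ m ∧ (qm c)^[m] b = b
  · obtain ⟨m, hm, hb⟩ := hper
    have h1 : tg c b ⊆ {b} ∪ ⋃ j ∈ Finset.range m, {b' : K | qm c b' = (qm c)^[j] b} := by
      rintro b' ⟨-, h | ⟨-, j, hj⟩⟩
      · exact Or.inl h
      · right
        refine Set.mem_iUnion₂.2 ⟨j % m, Finset.mem_range.2 (Nat.mod_lt _ hm), ?_⟩
        show qm c b' = _
        rw [hj]
        conv_lhs => rw [← Nat.mod_add_div j m]
        exact iter_periodic _ hb _ _
    refine ((Set.finite_singleton _).union (Set.Finite.biUnion (Finset.finite_toSet _) fun j _ => ?_)).subset h1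
    by_cases hne : ∃ b0, qm c b0 = (qm c)^[j] b
    · obtain ⟨b0, hb0⟩ := hne
      refine ((Set.finite_singleton (-b0)).insert b0).subset fun b' hb' => ?_
      have h2 : qm c b0 = qm c b' := by rw [hb0]; exact hb'.symm
      rcases qm_eq_iff.1 h2 with h3 | h3
      · exact Or.inl h3
      · exact Or.inr h3
    · refine Set.finite_empty.subset fun b' hb' => hne ⟨b', hb'⟩
  · refine (Set.finite_singleton b).subset ?_
    rintro b' ⟨-, h | ⟨h, -⟩⟩
    · exact h
    · exact absurd h hper

section lev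
variable {K W : Type*} [Field K] [Field W] [Algebra K W]

theorem mainLev_finite [IsAlgClosed W] (c b : K) (l : ℕ) : (Lev W c b l).Finite :=
  (pre (algebraMap K W c) l (algebraMap K W b)).finite_toSet.subset fun _ hz => mem_pre.2 hz

theorem moved_up {c b : K} {s : W ≃ₐ[K] W} {N n : ℕ} (hNn : N ≤ n) (h : ∀ z ∈ Lev W c b N, s z ≠ z) :
    ∀ z ∈ Lev W c b n, s z ≠ z := by
  obtain ⟨e, rfl⟩ := Nat.exists_eq_add_of_le hNn
  intro z hz hfix
  rw [Lev_iter] at hz
  apply h _ hz
  rw [aut_iter, hfix]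

/-- finitely many pairs at the same time -/
theorem ext_many [IsAlgClosed W] {ι : Type*} (c b : ι → K) (S : Finset ι)
    (h : ∀ i ∈ S, ExtP W (c i) (b i)) (T : Set W) (hT : T.Finite) (s₀ : W ≃ₐ[K] W) :
    ∃ (N : ℕ) (s : W ≃ₐ[K] W), (∀ t ∈ T, s t = s₀ t) ∧
      ∀ i ∈ S, ∀ n, N ≤ n → ∀ z ∈ Lev W (c i) (b i) n, s z ≠ z := by
  classical
  induction S using Finset.induction_on generalizing T s₀ with
  | empty => exact ⟨0, s₀, fun t _ => rfl, fun i hi => absurd hi (Finset.notMem_empty i)⟩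
  | insert a S ha ih =>
    obtain ⟨N1, s1, h1, h2⟩ := ih (fun i hi => h i (Finset.mem_insert_of_mem hi)) T hT s₀
    obtain ⟨N2, s2, h3, h4⟩ := h a (Finset.mem_insert_self a S)
      (T ∪ ⋃ i ∈ S, Lev W (c i) (b i) N1)
      (hT.union (Set.Finite.biUnion (Finset.finite_toSet _) fun i _ => mainLev_finite _ _ _)) s1
    refine ⟨max N1 N2, s2, fun t ht => by rw [h3 t (Or.inl ht), h1 t ht], ?_⟩
    intro i hi n hn
    rcases Finset.mem_insert.1 hi with rfl | hi'
    · exact moved_up ((le_max_right _ _).trans hn) h4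
    · refine moved_up ((le_max_left _ _).trans hn) fun z hz => ?_
      rw [h3 z (Or.inr (Set.mem_iUnion₂.2 ⟨i, hi', hz⟩))]
      exact h2 i hi' N1 le_rfl z hz

end lev

/-- the extension property for all targets of a finite family -/
theorem ext_tg {K W : Type*} [Field K] [Field W] [Algebra K W] [IsAlgClosed W] {ι : Type*} [Finite ι]
    (c : ι → K) (b : ι → OnePoint K)
    (h : ∀ i (b0 : K), b i = (b0 : OnePoint K) → ∀ b' ∈ tg (c i) b0, ExtP W (c i) b')
    (T : Set W) (hT : T.Finite) (s₀ : W ≃ₐ[K] W) :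
    ∃ (N : ℕ) (s : W ≃ₐ[K] W), (∀ t ∈ T, s t = s₀ t) ∧
      ∀ i (b0 : K), b i = (b0 : OnePoint K) → ∀ b' ∈ tg (c i) b0, ∀ n, N ≤ n →
        ∀ z ∈ Lev W (c i) b' n, s z ≠ z := by
  classical
  cases nonempty_fintype ι
  have hfin : (⋃ i, {p : ι × K | p.1 = i ∧ ∃ b0 : K, b i = (b0 : OnePoint K) ∧ p.2 ∈ tg (c i) b0}).Finite := by
    refine Set.finite_iUnion fun i => ?_
    by_cases hb : ∃ b0 : K, b i = (b0 : OnePoint K)
    · obtain ⟨b0, hb0⟩ := hb
      refine ((tg_finite (c i) b0).image (fun x => (i, x))).subset ?_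
      rintro ⟨j, x⟩ ⟨hj, b1, hb1, hx⟩
      simp only at hj hx
      subst hj
      rw [hb0, OnePoint.coe_eq_coe] at hb1
      subst hb1
      exact ⟨x, hx, rfl⟩
    · refine Set.finite_empty.subset ?_
      rintro p ⟨-, b0, hb0, -⟩
      exact hb ⟨b0, hb0⟩
  obtain ⟨N, s, h1, h2⟩ := ext_many (fun p : ι × K => c p.1) (fun p => p.2) hfin.toFinset (by
    intro p hp
    rw [Set.Finite.mem_toFinset] at hp
    obtain ⟨i, hi, b0, hb0, hb'⟩ := Set.mem_iUnion.1 hp
    rw [hi]
    exact h i b0 hb0 _ hb') T hT s₀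
  refine ⟨N, s, h1, fun i b0 hb0 b' hb' => h2 (i, b') ?_⟩
  rw [Set.Finite.mem_toFinset]
  exact Set.mem_iUnion.2 ⟨i, rfl, b0, hb0, hb'⟩

/-- the quadratic map on the projective line -/
def qp {W : Type*} [Field W] (c : W) : OnePoint W → OnePoint W := OnePoint.map (qm c)

theorem qp_coe {W : Type*} [Field W] (c z : W) : qp c (z : OnePoint W) = ((qm c z : W) : OnePoint W) := rfl

theorem qp_infty {W : Type*} [Field W] (c : W) : qp c (OnePoint.infty : OnePoint W) = OnePoint.infty := rfl

theorem qp_iter_coe {W : Type*} [Field W] (c z : W) (n : ℕ) :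
    (qp c)^[n] (z : OnePoint W) = (((qm c)^[n] z : W) : OnePoint W) := by
  induction n with
  | zero => rfl
  | succ n ih => rw [Function.iterate_succ_apply', ih, qp_coe, Function.iterate_succ_apply']

theorem qp_iter_infty {W : Type*} [Field W] (c : W) (n : ℕ) :
    (qp c)^[n] (OnePoint.infty : OnePoint W) = OnePoint.infty := by
  induction n with
  | zero => rfl
  | succ n ih => rw [Function.iterate_succ_apply', ih, qp_infty]

/-- a target over `W` comes from a target in `K` -/
theorem tgt_mem {K W : Type*} [Field K] [Field W] [Algebra K W] {c : K} {b : OnePoint K} {y : OnePoint W}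
    (h1 : ∀ m, 1 ≤ m → (qp (algebraMap K W c))^[m] y ≠ y)
    (h2 : y = pmap (algebraMap K W) b ∨ ((∃ m, 1 ≤ m ∧ (qp (algebraMap K W c))^[m]
      (pmap (algebraMap K W) b) = pmap (algebraMap K W) b) ∧
      ∃ j, qp (algebraMap K W c) y = (qp (algebraMap K W c))^[j] (pmap (algebraMap K W) b))) :
    ∃ b0 : K, b = (b0 : OnePoint K) ∧ ∃ b' ∈ tg c b0, y = ((algebraMap K W b' : W) : OnePoint W) := by
  have hinj := (algebraMap K W).injective
  induction y using OnePoint.rec with
  | infty => exact absurd (qp_iter_infty _ 1) (h1 1 le_rfl)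
  | coe w =>
    have hw : ∀ m, 1 ≤ m → (qm (algebraMap K W c))^[m] w ≠ w := by
      intro m hm h
      apply h1 m hm
      rw [qp_iter_coe, h]
    have hnp : ∀ b' : K, algebraMap K W b' = w → ∀ m, 1 ≤ m → (qm c)^[m] b' ≠ b' := by
      rintro b' rfl m hm h
      apply hw m hm
      rw [← map_iter, h]
    induction b using OnePoint.rec with
    | infty =>
      exfalso
      rw [pmap_infty] at h2
      rcases h2 with h2 | ⟨-, j, hj⟩
      · exact OnePoint.coe_ne_infty _ h2
      · rw [qp_iter_infty, qp_coe] at hj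
        exact OnePoint.coe_ne_infty _ hj
    | coe b0 =>
      refine ⟨b0, rfl, ?_⟩
      rw [pmap_coe] at h2
      rcases h2 with h2 | ⟨⟨m, hm, hb⟩, j, hj⟩
      · rw [OnePoint.coe_eq_coe] at h2
        exact ⟨b0, ⟨hnp b0 h2.symm, Or.inl rfl⟩, by rw [h2]⟩
      · rw [qp_iter_coe, OnePoint.coe_eq_coe, ← map_iter, hinj.eq_iff] at hb
        rw [qp_iter_coe, qp_coe, OnePoint.coe_eq_coe, ← map_iter] at hj
        -- the periodic preimage
        set p := (qm c)^[j + m - 1] b0 with hp
        have hp1 : qm c p = (qm c)^[j] b0 := by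
          rw [hp, ← Function.iterate_succ_apply' (qm c)]
          have e1 : (j + m - 1).succ = j + m * 1 := by omega
          rw [e1]
          exact iter_periodic _ hb 1 j
        have hp2 : (qm c)^[m] p = p := by
          rw [hp, ← Function.iterate_add_apply, add_comm]
          have e1 : j + m - 1 + m = j + m - 1 + m * 1 := by omega
          rw [e1]
          exact iter_periodic _ hb 1 _
        have h3 : qm (algebraMap K W c) (algebraMap K W p) = qm (algebraMap K W c) w := by
          rw [← map_qm, hp1, hj]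
        rcases qm_eq_iff.1 h3 with h4 | h4
        · exfalso
          apply hw m hm
          rw [h4, ← map_iter, hp2]
        · have h5 : algebraMap K W (-p) = w := by rw [map_neg, h4]
          refine ⟨-p, ⟨hnp (-p) h5, Or.inr ⟨⟨m, hm, hb⟩, j, ?_⟩⟩, by rw [h5]⟩
          rw [qm_neg, hp1]

/-- **Assembly**: maps `f i` which are conjugate over `K` to iterates of quadratic polynomials `x ^ 2 + c i`; the
point `b i` corresponds to `β i` -/
theorem extT_of_extP {K W : Type*} [Field K] [Field W] [Algebra K W] [IsAlgClosed W] {ι : Type*} [Finite ι]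
    (f : ι → RP K) (β : ι → OnePoint K) (c : ι → K) (k : ι → ℕ) (hk : ∀ i, 1 ≤ k i) (μ : ι → RP K)
    (hμ : ∀ i, (μ i).d = 1) (b : ι → OnePoint K) (hb : ∀ i, (μ i).act (b i) = β i)
    (hconj : ∀ i (x : OnePoint W), ((f i).map (algebraMap K W)).act (((μ i).map (algebraMap K W)).act x) =
      ((μ i).map (algebraMap K W)).act ((qp (algebraMap K W (c i)))^[k i] x))
    (h : ∀ i (b0 : K), b i = (b0 : OnePoint K) → ∀ b' ∈ tg (c i) b0, ExtP W (c i) b') : ExtT W f β := by
  intro T hT s₀
  obtain ⟨N, s, h1, h2⟩ := ext_tg c b h T hT s₀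
  refine ⟨N, s, h1, fun i x htgt hfix => ?_⟩
  set M := (μ i).map (algebraMap K W) with hM
  have hMd : M.d = 1 := hμ i
  have hMinj : Function.Injective M.act := by
    obtain ⟨ν, hν⟩ := exists_inverse M hMd
    exact Function.LeftInverse.injective hν
  have hMb : M.act (pmap (algebraMap K W) (b i)) = pmap (algebraMap K W) (β i) := by
    rw [hM, RP.act_map, hb]
  obtain ⟨x', rfl⟩ := M.surj (by omega) x
  set T' := qp (algebraMap K W (c i)) with hT'
  have hsc := semiconj_iterate M.act (T'^[k i]) ((f i).map (algebraMap K W)).act (hconj i)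
  rw [hsc N x'] at htgt
  obtain ⟨hn, ht⟩ := htgt
  set y' := (T'^[k i])^[N] x' with hy'
  -- the conditions for the iterate of the quadratic map
  have hn' : ∀ m, 1 ≤ m → (T'^[k i])^[m] y' ≠ y' := by
    intro m hm he
    apply hn m hm
    rw [hsc m y', he]
  have ht' : y' = pmap (algebraMap K W) (b i) ∨ ((∃ m, 1 ≤ m ∧ (T'^[k i])^[m] (pmap (algebraMap K W) (b i)) =
      pmap (algebraMap K W) (b i)) ∧ ∃ j, T'^[k i] y' = (T'^[k i])^[j] (pmap (algebraMap K W) (b i))) := by
    rcases ht with ht | ⟨⟨m, hm, hβ⟩, j, hj⟩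
    · left
      apply hMinj
      rw [ht, hMb]
    · right
      refine ⟨⟨m, hm, ?_⟩, j, ?_⟩
      · apply hMinj
        rw [← hsc, hMb, RP.act_map_iterate, hβ]
      · apply hMinj
        rw [← hsc, hMb, RP.act_map_iterate, ← hj, hconj]
  obtain ⟨e, he1, he2⟩ := tgt_iterate T' (hk i) hn' ht'
  obtain ⟨b0, hb0, b', hb', hyb⟩ := tgt_mem he1 he2
  -- the automorphism fixes `x'`
  have hs : M.map (s : W →+* W) = M := by
    rw [hM, RP.map_map]
    congr 1
    exact RingHom.ext fun x => s.commutes x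
  have hfix' : pmap (s : W →+* W) x' = x' := by
    apply hMinj
    have h3 := RP.act_map (s : W →+* W) M x'
    rw [hs, hfix] at h3
    exact h3
  induction x' using OnePoint.rec with
  | infty =>
    rw [hy', ← Function.iterate_mul, hT', qp_iter_infty, qp_iter_infty] at hyb
    exact OnePoint.coe_ne_infty _ hyb.symm
  | coe z =>
    rw [pmap_coe, OnePoint.coe_eq_coe] at hfix'
    refine h2 i b0 hb0 b' hb' (e + k i * N) ?_ z ?_ hfix'
    · have := Nat.le_mul_of_pos_left N (hk i)
      omega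
    · rw [hy', ← Function.iterate_mul, ← Function.iterate_add_apply, hT', qp_iter_coe,
        OnePoint.coe_eq_coe] at hyb
      exact hyb

/-! ### Local conditions pass to the targets -/

theorem val_qm_gt {K Γ₀ : Type*} [Field K] [LinearOrderedCommGroupWithZero Γ₀] (v : Valuation K Γ₀) {c x : K}
    (hc : v c ≤ 1) (hx : 1 < v x) : v (qm c x) = v x ^ 2 := by
  have h1 : v c < v (x ^ 2) := by
    rw [map_pow]
    exact lt_of_le_of_lt hc (one_lt_pow₀ hx two_ne_zero)
  rw [qm, Valuation.map_add_eq_of_lt_left v h1, map_pow]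

theorem val_iter_gt {K Γ₀ : Type*} [Field K] [LinearOrderedCommGroupWithZero Γ₀] (v : Valuation K Γ₀) {c x : K}
    (hc : v c ≤ 1) (hx : 1 < v x) {m : ℕ} (hm : 1 ≤ m) : v x < v ((qm c)^[m] x) := by
  have hsq : ∀ y : Γ₀, 1 < y → y < y ^ 2 := by
    intro y hy
    have := (pow_lt_pow_iff_right₀ hy).2 (one_lt_two)
    rwa [pow_one] at this
  obtain ⟨n, rfl⟩ : ∃ n, m = n + 1 := ⟨m - 1, by omega⟩
  clear hm
  induction n with
  | zero =>
    rw [Function.iterate_one, val_qm_gt v hc hx]
    exact hsq _ hx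
  | succ n ih =>
    rw [Function.iterate_succ_apply', val_qm_gt v hc (hx.trans ih)]
    exact ih.trans (hsq _ (hx.trans ih))

theorem val_iter_lt {K Γ₀ : Type*} [Field K] [LinearOrderedCommGroupWithZero Γ₀] (v : Valuation K Γ₀) {c x : K}
    (hc : v c < 1) (hx : v x < 1) (n : ℕ) : v ((qm c)^[n] x) < 1 := by
  induction n with
  | zero => exact hx
  | succ n ih =>
    rw [Function.iterate_succ_apply']
    refine v.map_add_lt ?_ hc
    rw [map_pow]
    exact pow_lt_one₀ zero_le ih two_ne_zero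

/-- the local condition of the tame case -/
def TameAt {K Γ₀ : Type*} [Field K] [LinearOrderedCommGroupWithZero Γ₀] (v : Valuation K Γ₀) (c b : K) : Prop :=
  v 2 = 1 ∧ v c ≤ 1 ∧ (1 < v b ∨ (v c < 1 ∧ v b < 1))

theorem TameAt.tg {K Γ₀ : Type*} [Field K] [LinearOrderedCommGroupWithZero Γ₀] {v : Valuation K Γ₀} {c b b' : K}
    (h : TameAt v c b) (hb' : b' ∈ tg c b) : TameAt v c b' := by
  obtain ⟨h2, hc, hb⟩ := h
  rcases hb'.2 with rfl | ⟨⟨m, hm, hper⟩, j, hj⟩
  · exact ⟨h2, hc, hb⟩
  · refine ⟨h2, hc, ?_⟩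
    rcases hb with hb | ⟨hc1, hb⟩
    · have := val_iter_gt v hc hb hm
      rw [hper] at this
      exact absurd this (lt_irrefl _)
    · refine Or.inr ⟨hc1, ?_⟩
      have h3 : v (qm c b') < 1 := by
        rw [hj]
        exact val_iter_lt v hc1 hb j
      have h4 : v (b' ^ 2) < 1 := by
        have e : b' ^ 2 = qm c b' - c := by simp [qm]
        rw [e]
        exact lt_of_le_of_lt (v.map_sub _ _) (max_lt h3 hc1)
      rw [map_pow] at h4
      by_contra hcon
      exact absurd h4 (not_lt.2 (one_le_pow₀ (not_lt.1 hcon)))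

/-! ### The final form -/

/-- `f` is conjugate over `K` to an iterate of a quadratic polynomial `x ^ 2 + c`, and if the point `b` which
corresponds to `β` is finite, then `P c b` holds -/
def QuadConj {K : Type*} [Field K] (P : K → K → Prop) (f : RatFunc K) (β : OnePoint K) : Prop :=
  ∃ (c : K) (k : ℕ) (μ : RatFunc K) (b : OnePoint K), 1 ≤ k ∧ rdeg μ = 1 ∧
    (∀ x : OnePoint (AlgebraicClosure K),
      ract (algebraMap K (AlgebraicClosure K)) f (ract (algebraMap K (AlgebraicClosure K)) μ x) =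
        ract (algebraMap K (AlgebraicClosure K)) μ
          ((ract (algebraMap K (AlgebraicClosure K)) (RatFunc.X ^ 2 + RatFunc.C c))^[k] x)) ∧
    ract (RingHom.id K) μ b = β ∧ ∀ b0 : K, b = (b0 : OnePoint K) → P c b0

theorem ract_quad {K W : Type*} [Field K] [Field W] [Algebra K W] (c : K) :
    ract (algebraMap K W) (RatFunc.X ^ 2 + RatFunc.C c) = qp (algebraMap K W c) := by
  have h1 : (RatFunc.X ^ 2 + RatFunc.C c : RatFunc K) = algebraMap K[X] (RatFunc K) (X ^ 2 + C c) := by
    rw [map_add, map_pow, RatFunc.algebraMap_X, RatFunc.algebraMap_C]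
  have h2 : (X ^ 2 + C c : K[X]).natDegree = 2 := natDegree_X_pow_add_C
  rw [h1, ract_polynomial _ _ (by omega)]
  funext x
  induction x using OnePoint.rec with
  | infty => rfl
  | coe a =>
    rw [pact_coe, qp_coe]
    simp [qm]

/-- the extension property for tuples of such maps -/
theorem extT_of_quadConj {K : Type*} [Field K] {P : K → K → Prop}
    (hP : ∀ c b, P c b → (∀ m, 1 ≤ m → (qm c)^[m] b ≠ b) → ExtP (AlgebraicClosure K) c b)
    (hcl : ∀ c b b', P c b → b' ∈ tg c b → P c b') {ι : Type*} [Finite ι] (f : ι → RatFunc K)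
    (β : ι → OnePoint K) (h : ∀ i, QuadConj P (f i) (β i)) :
    ExtT (AlgebraicClosure K) (fun i => RP.ofRat (f i)) β := by
  choose c k μ b hk hμ hconj hb hPb using h
  refine extT_of_extP (fun i => RP.ofRat (f i)) β c k hk (fun i => RP.ofRat (μ i)) hμ b ?_ ?_ ?_
  · intro i
    have := hb i
    rwa [ract_id] at this
  · intro i x
    have := hconj i x
    rw [ract_quad, ract_fun_eq, ract_fun_eq] at this
    exact this
  · intro i b0 hb0 b' hb'
    exact hP (c i) b' (hcl (c i) b0 b' (hPb i b0 hb0) hb') hb'.1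

/-- **Theorem V together with Theorem I**: the indices in `Q` are quadratic, the other ones are in blocks -/
theorem thmV {K : Type u} [Field K] [NumberField K] {P : K → K → Prop}
    (hP : ∀ c b, P c b → (∀ m, 1 ≤ m → (qm c)^[m] b ≠ b) → ExtP (AlgebraicClosure K) c b)
    (hcl : ∀ c b b', P c b → b' ∈ tg c b → P c b') {ι J : Type} [Finite ι] [Finite J]
    (f : ι → RatFunc K) (hf : ∀ i, 2 ≤ rdeg (f i)) (α β : ι → OnePoint K)
    (hαβ : ∀ i n, (ract (RingHom.id K) (f i))^[n] (α i) ≠ β i) (Q : Set ι)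
    (hQ : ∀ i ∈ Q, QuadConj P (f i) (β i)) (blk : ι → J) (E : J → ℕ)
    (hE : ∀ j j', j ≠ j' → Nat.Coprime (E j) (E j')) (hexp : ∀ i, i ∉ Q → RHasExp (E (blk i)) (f i))
    (hblk : ∀ j, OrbitBlock (fun i : {i // i ∉ Q ∧ blk i = j} => f i.1)
        (fun i : {i // i ∉ Q ∧ blk i = j} => β i.1) ∨
      PrimeBlock (fun i : {i // i ∉ Q ∧ blk i = j} => f i.1)
        (fun i : {i // i ∉ Q ∧ blk i = j} => β i.1) ∨
      ∀ i, i ∉ Q → blk i = j → TorusMap (algebraMap K (AlgebraicClosure K)) (f i)) :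
    PosDensity (RAvoidSet f α β) := by
  classical
  have h1 := posDensity_blocks_extT (AlgebraicClosure K) (fun i : {i // i ∉ Q} => f i.1) (fun i => hf i.1)
    (fun i => α i.1) (fun i => β i.1) (fun i => hαβ i.1) (fun i => blk i.1) E
    ⟨hE, fun i => hexp i.1 i.2, fun j => by
      rcases hblk j with h | h | h
      · exact Or.inl (h.comp (fun i : {i : {i // i ∉ Q} // blk i.1 = j} => ⟨i.1.1, i.1.2, i.2⟩))
      · exact Or.inr (Or.inl (h.comp (fun i : {i : {i // i ∉ Q} // blk i.1 = j} => ⟨i.1.1, i.1.2, i.2⟩)))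
      · exact Or.inr (Or.inr fun i hi => h i.1 i.2 hi)⟩
    (κ := {i // i ∈ Q}) (fun i => f i.1) (fun i => hf i.1) (fun i => α i.1) (fun i => β i.1)
    (fun i => hαβ i.1) (extT_of_quadConj hP hcl _ _ fun i => hQ i.1 i.2)
  have h2 : RAvoidSet (fun i : {i // i ∉ Q} => f i.1) (fun i => α i.1) (fun i => β i.1) ∩
      RAvoidSet (fun i : {i // i ∈ Q} => f i.1) (fun i => α i.1) (fun i => β i.1) = RAvoidSet f α β := by
    ext v
    constructor
    · rintro ⟨h3, h4⟩ i n
      by_cases hi : i ∈ Q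
      · exact h4 ⟨i, hi⟩ n
      · exact h3 ⟨i, hi⟩ n
    · intro h3
      exact ⟨fun i n => h3 i.1 n, fun i n => h3 i.1 n⟩
  rwa [h2] at h1

end Pool.Agent.ORB.VQ
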