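import Pool.Agent.ORB.VAdj

set_option autoImplicit false

/-! ORB, Theorem V: flips and transitivity at tame primes. -/

namespace Pool.Agent.ORB

section

variable {Ω Γ : Type*} [Field Ω] [LinearOrderedCommGroupWithZero Γ]

/-- The group of values of a subfield. -/
def valGrp (w : Valuation Ω Γ) (L : Subfield Ω) : Subgroup Γˣ where
  carrier := {h | ∃ x ∈ L, w x = ((h : Γˣ) : Γ)}
  mul_mem' := by
    rintro a b ⟨x, hx, h⟩ ⟨y, hy, h'⟩
    exact ⟨x * y, L.mul_mem hx hy, by rw [map_mul, h, h', Units.val_mul]⟩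
  one_mem' := ⟨1, L.one_mem, by simp⟩
  inv_mem' := by
    rintro a ⟨x, hx, h⟩
    exact ⟨x⁻¹, L.inv_mem hx, by rw [map_inv₀, h, Units.val_inv_eq_inv_val]⟩

theorem valIn_valGrp (w : Valuation Ω Γ) (L : Subfield Ω) : ValIn w (valGrp w L) L := by
  intro x hx hx0
  exact ⟨Units.mk0 (w x) ((Valuation.ne_zero_iff w).2 hx0), ⟨x, hx, rfl⟩, rfl⟩

theorem inH_valGrp {w : Valuation Ω Γ} {L : Subfield Ω} {g : Γ} :
    InH (valGrp w L) g ↔ ∃ x ∈ L, x ≠ 0 ∧ w x = g := by
  constructor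
  · rintro ⟨h, ⟨x, hx, e⟩, rfl⟩
    refine ⟨x, hx, ?_, e⟩
    rintro rfl
    rw [map_zero] at e
    exact h.ne_zero e.symm
  · rintro ⟨x, hx, hx0, rfl⟩
    exact valIn_valGrp w L x hx hx0

/-- values on the levels of the tree -/
theorem tame_levels (w : Valuation Ω Γ) {c b : Ω} (hc : w c ≤ 1) (hcb : w c < w b) :
    ∀ (l : ℕ) (z : Ω), (fun x : Ω => x ^ 2 + c)^[l] z = b → w c < w z ∧ w z ^ 2 ^ l = w b := by
  intro l
  induction l with
  | zero =>
    intro z hz
    simp only [Function.iterate_zero, id_eq] at hz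
    subst hz
    exact ⟨hcb, by simp⟩
  | succ l ih =>
    intro z hz
    rw [Function.iterate_succ_apply] at hz
    obtain ⟨h1, h2⟩ := ih _ hz
    have h3 : w z ^ 2 = w (z ^ 2 + c) := by
      rw [← map_pow]
      have h4 : z ^ 2 = (z ^ 2 + c) - c := by ring
      conv_lhs => rw [h4]
      exact Valuation.map_sub_eq_of_lt_left _ h1
    refine ⟨?_, ?_⟩
    · by_contra h4
      rw [not_lt] at h4
      have h5 : w z ^ 2 ≤ w c := by
        rw [pow_two]
        calc w z * w z ≤ 1 * w c := mul_le_mul' (h4.trans hc) h4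
          _ = w c := one_mul _
      rw [h3] at h5
      exact absurd h1 (not_lt.2 h5)
    · rw [pow_succ, mul_comm, pow_mul, h3]
      exact h2

theorem pow_inj₀' {a b : Γ} {n : ℕ} (hn : n ≠ 0) (h : a ^ n = b ^ n) : a = b :=
  (pow_left_inj₀ zero_le zero_le hn).1 h

end

/-- Flips at tame primes: an automorphism which fixes the level `l` and acts by `-1` on the level
`l + 1`. -/
theorem tame_flip {K Ω Γ : Type*} [Field K] [Field Ω] [Algebra K Ω] [IsGalois K Ω]
    [LinearOrderedCommGroupWithZero Γ] (w : Valuation Ω Γ) (h2 : w 2 = 1) (c b : K)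
    (hc : w (algebraMap K Ω c) ≤ 1) (hcb : w (algebraMap K Ω c) < w (algebraMap K Ω b))
    (hodd : ∀ x : K, w (algebraMap K Ω x) ^ 2 ≠ w (algebraMap K Ω b)) (l : ℕ) :
    ∃ g : Ω ≃ₐ[K] Ω,
      (∀ z : Ω, (fun x : Ω => x ^ 2 + algebraMap K Ω c)^[l] z = algebraMap K Ω b → g z = z) ∧
      ∀ z : Ω, (fun x : Ω => x ^ 2 + algebraMap K Ω c)^[l + 1] z = algebraMap K Ω b → g z = -z := by
  set f : Ω → Ω := fun x => x ^ 2 + algebraMap K Ω c with hf
  set β : Ω := algebraMap K Ω b with hβ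
  have hlev := tame_levels w hc hcb
  by_cases hne : ∃ z0, f^[l + 1] z0 = β
  swap
  · by_cases hne' : ∃ z0, f^[l + 1] z0 = β
    · exact absurd hne' hne
    · exact ⟨AlgEquiv.refl, fun z _ => rfl, fun z hz => absurd ⟨z, hz⟩ hne'⟩
  obtain ⟨z0, hz0⟩ := hne
  have hω0 : w z0 ≠ 0 := by
    have := (hlev (l + 1) z0 hz0).1
    exact (lt_of_le_of_lt zero_le this).ne'
  set ω : Γˣ := Units.mk0 (w z0) hω0 with hω
  have hωv : ((ω : Γˣ) : Γ) = w z0 := rfl
  set L : Subfield Ω := (algebraMap K Ω).fieldRange with hL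
  set H : Subgroup Γˣ := valGrp w L ⊔ Subgroup.zpowers (ω ^ 2) with hH
  have hAH : valGrp w L ≤ H := le_sup_left
  have hωH : ω ^ 2 ∈ H := (le_sup_right : Subgroup.zpowers (ω ^ 2) ≤ H) (Subgroup.mem_zpowers _)
  have hLH : ValIn w H L := fun x hx hx0 => (valIn_valGrp w L x hx hx0).mono hAH
  obtain ⟨M, hLM, hMH, hMs⟩ := exists_max_valIn h2 hLH
  have hKM : ∀ x : K, algebraMap K Ω x ∈ M := fun x => hLM ⟨x, rfl⟩
  -- the levels up to l lie in M
  have hlevM : ∀ i : ℕ, i ≤ l → ∀ z : Ω, f^[i] z = β → z ∈ M := by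
    intro i
    induction i with
    | zero =>
      intro _ z hz
      simp only [Function.iterate_zero, id_eq] at hz
      rw [hz]
      exact hKM b
    | succ i ih =>
      intro hi z hz
      have hy : f z ∈ M := ih (by omega) (f z) (by rw [← Function.iterate_succ_apply]; exact hz)
      refine hMs z ?_ ?_
      · have : z ^ 2 = f z - algebraMap K Ω c := by rw [hf]; ring
        rw [this]
        exact M.sub_mem hy (hKM c)
      · intro _
        refine ⟨(ω ^ 2) ^ 2 ^ (l - (i + 1)), H.pow_mem hωH _, ?_⟩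
        apply pow_inj₀' (n := 2 ^ (i + 1)) (by positivity)
        rw [(hlev (i + 1) z hz).2, Units.val_pow_eq_pow_val, Units.val_pow_eq_pow_val, hωv,
          ← pow_mul (w z0 ^ 2), ← pow_add, Nat.sub_add_cancel hi, ← pow_mul, mul_comm, ← pow_succ]
        exact (hlev (l + 1) z0 hz0).2.symm
  have hz0M : z0 ∉ M := by
    intro hmem
    have hz00 : z0 ≠ 0 := by
      rintro rfl
      exact hω0 (map_zero w)
    obtain ⟨h, hh, e⟩ := hMH z0 hmem hz00
    have e1 : ω = h := Units.ext e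
    rw [← e1] at hh
    rw [hH, Subgroup.mem_sup] at hh
    obtain ⟨a, ha, y, hy, hay⟩ := hh
    obtain ⟨k, rfl⟩ := Subgroup.mem_zpowers_iff.1 hy
    obtain ⟨x, ⟨x', rfl⟩, hx⟩ := ha
    -- ω = a * (ω^2)^k
    obtain ⟨β', hβ'⟩ : ∃ β' : Γˣ, ((β' : Γˣ) : Γ) = w β := by
      refine ⟨ω ^ 2 ^ (l + 1), ?_⟩
      rw [Units.val_pow_eq_pow_val, hωv]
      exact (hlev (l + 1) z0 hz0).2
    have hβω : β' = ω ^ 2 ^ (l + 1) := by
      apply Units.ext
      rw [hβ', Units.val_pow_eq_pow_val, hωv]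
      exact (hlev (l + 1) z0 hz0).2.symm
    have e2 : β' = (β' ^ k * a ^ 2 ^ l) ^ 2 := by
      have e3 : ω ^ (2 ^ (l + 1)) = (a * (ω ^ 2) ^ k) ^ (2 ^ (l + 1)) := by rw [hay]
      have e4 : (β' ^ k * a ^ 2 ^ l) ^ 2 = (a * (ω ^ 2) ^ k) ^ (2 ^ (l + 1)) := by
        rw [hβω, mul_pow, mul_pow, mul_comm]
        congr 1
        · rw [← pow_mul, ← pow_succ]
        · have e5 : ∀ (x : Γˣ) (m n : ℕ) (k : ℤ), ((x ^ m) ^ k) ^ n = ((x ^ n) ^ k) ^ m := by
            intro x m n k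
            rw [← zpow_natCast, ← zpow_natCast, ← zpow_natCast, ← zpow_natCast, ← zpow_mul,
              ← zpow_mul, ← zpow_mul, ← zpow_mul]
            congr 1
            ring
          exact e5 _ _ _ _
      rw [e4, ← e3, hβω]
    -- a square of a value of K
    have hβpow : ∀ m : ℤ, ∃ x : K, w (algebraMap K Ω x) = ((β' ^ m : Γˣ) : Γ) := by
      intro m
      refine ⟨b ^ m, ?_⟩
      rw [map_zpow₀, map_zpow₀, Units.val_zpow_eq_zpow_val, hβ']
    obtain ⟨x1, hx1⟩ := hβpow k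
    refine hodd (x1 * x' ^ 2 ^ l) ?_
    rw [map_mul, map_mul, map_pow, map_pow, hx1, hx]
    have e6 := congrArg (fun u : Γˣ => (u : Γ)) e2
    simp only [Units.val_pow_eq_pow_val, Units.val_mul] at e6
    rw [← hβ']
    exact e6.symm
  obtain ⟨g, hgM, hgz⟩ := exists_moving M hKM hz0M
  have hgz0 : g z0 = -z0 := by
    have h3 : (g z0) ^ 2 = z0 ^ 2 := by
      rw [← map_pow]
      apply hgM
      have : z0 ^ 2 = f z0 - algebraMap K Ω c := by rw [hf]; ring
      rw [this]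
      exact M.sub_mem (hlevM l le_rfl (f z0) (by rw [← Function.iterate_succ_apply]; exact hz0))
        (hKM c)
    rcases sq_eq_sq_iff_eq_or_eq_neg.1 h3 with h | h
    · exact absurd h hgz
    · exact h
  have hz00 : z0 ≠ 0 := by
    rintro rfl
    exact hω0 (map_zero w)
  refine ⟨g, fun z hz => hgM z (hlevM l le_rfl z hz), fun z hz => ?_⟩
  have hq : z / z0 ∈ M := by
    refine hMs _ ?_ ?_
    · rw [div_pow]
      have e1 : z ^ 2 = f z - algebraMap K Ω c := by rw [hf]; ring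
      have e2 : z0 ^ 2 = f z0 - algebraMap K Ω c := by rw [hf]; ring
      rw [e1, e2]
      exact M.div_mem
        (M.sub_mem (hlevM l le_rfl (f z) (by rw [← Function.iterate_succ_apply]; exact hz)) (hKM c))
        (M.sub_mem (hlevM l le_rfl (f z0) (by rw [← Function.iterate_succ_apply]; exact hz0))
          (hKM c))
    · intro _
      have : w z = w z0 := by
        apply pow_inj₀' (n := 2 ^ (l + 1)) (by positivity)
        rw [(hlev (l + 1) z hz).2, (hlev (l + 1) z0 hz0).2]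
      rw [map_div₀, this, div_self hω0]
      exact InH.one H
  have h4 : z = z / z0 * z0 := by field_simp
  calc g z = g (z / z0 * z0) := by rw [← h4]
    _ = g (z / z0) * g z0 := map_mul _ _ _
    _ = z / z0 * -z0 := by rw [hgM _ hq, hgz0]
    _ = -z := by rw [mul_neg, ← h4]

/-- If there are flips on all levels then the Galois group is transitive on all levels. -/
theorem trans_of_flips {K Ω : Type*} [Field K] [Field Ω] [Algebra K Ω] (c b : K)
    (hflip : ∀ l : ℕ, ∃ g : Ω ≃ₐ[K] Ω,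
      (∀ z : Ω, (fun x : Ω => x ^ 2 + algebraMap K Ω c)^[l] z = algebraMap K Ω b → g z = z) ∧
      ∀ z : Ω, (fun x : Ω => x ^ 2 + algebraMap K Ω c)^[l + 1] z = algebraMap K Ω b → g z = -z) :
    ∀ (l : ℕ) (z z' : Ω), (fun x : Ω => x ^ 2 + algebraMap K Ω c)^[l] z = algebraMap K Ω b →
      (fun x : Ω => x ^ 2 + algebraMap K Ω c)^[l] z' = algebraMap K Ω b →
      ∃ g : Ω ≃ₐ[K] Ω, g z = z' := by
  intro l
  induction l with
  | zero =>
    intro z z' hz hz'
    simp only [Function.iterate_zero, id_eq] at hz hz'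
    exact ⟨AlgEquiv.refl, by rw [hz, hz']; rfl⟩
  | succ l ih =>
    intro z z' hz hz'
    rw [Function.iterate_succ_apply] at hz hz'
    obtain ⟨g, hg⟩ := ih _ _ hz hz'
    have h1 : (g z) ^ 2 = z' ^ 2 := by
      have h2 : g (z ^ 2 + algebraMap K Ω c) = z' ^ 2 + algebraMap K Ω c := hg
      rw [map_add, map_pow, AlgEquiv.commutes] at h2
      exact add_right_cancel h2
    rcases sq_eq_sq_iff_eq_or_eq_neg.1 h1 with h | h
    · exact ⟨g, h⟩
    · obtain ⟨t, -, ht⟩ := hflip l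
      refine ⟨g.trans t, ?_⟩
      rw [AlgEquiv.trans_apply, h, map_neg, ht z' (by rw [Function.iterate_succ_apply]; exact hz'),
        neg_neg]

end Pool.Agent.ORB
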