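import Pool.Agent.ORB.VTriv
import Pool.Agent.ORB.VDesc

/-!
ORB, Theorem V: flips at all large levels at a prime over 2 where `c` is integral, by iterated
traces.
-/

set_option autoImplicit false

namespace Pool.Agent.ORB.VQ

open Finset

section tree

variable {K W : Type*} [Field K] [Field W] [Algebra K W]

/-- a trivial level above a flip: a square root over the field of a node -/
theorem stab_of_triv [IsAlgClosed W] {c b : K} {m : ℕ} (hF : FlipAt W c b m)
    (htr : ∀ g : W ≃ₐ[K] W, (∀ y ∈ Lev W c b (m + 1), g y = y) →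
      ∀ z ∈ Lev W c b (m + 2), g z = z) :
    ∃ x ∈ Lev W c b m, ∃ e : W, e ^ 2 = (qm (algebraMap K W c))^[2] 0 - x ∧
      ∀ g : W ≃ₐ[K] W, g x = x → g e = e := by
  classical
  set C : W := algebraMap K W c with hC
  obtain ⟨h, hh0, hh1⟩ := hF
  have hLh : ∀ z ∈ Lev W c b (m + 2), qm C z ∈ Lev W c b (m + 1) := fun z hz => Lev_qm.1 hz
  -- `h` is an involution on the level `m + 2`
  have hhh : ∀ z ∈ Lev W c b (m + 2), h (h z) = z := by
    intro z hz
    have h3 := htr (h * h) (fun y hy => by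
      rw [AlgEquiv.mul_apply, hh1 y hy, map_neg, hh1 y hy, neg_neg]) z hz
    exact h3
  -- `h` commutes with everything on the level `m + 2`
  have hcomm : ∀ g : W ≃ₐ[K] W, ∀ z ∈ Lev W c b (m + 2), g (h z) = h (g z) := by
    intro g z hz
    have h3 := htr (h⁻¹ * (g⁻¹ * (h * g))) (fun y hy => by
      rw [AlgEquiv.mul_apply, AlgEquiv.mul_apply, AlgEquiv.mul_apply, hh1 _ (Lev_aut g hy), map_neg,
        ← AlgEquiv.mul_apply g⁻¹ g, inv_mul_cancel, AlgEquiv.one_apply]
      apply h.injective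
      rw [← AlgEquiv.mul_apply h h⁻¹, mul_inv_cancel, AlgEquiv.one_apply, hh1 y hy]) z hz
    rw [AlgEquiv.mul_apply, AlgEquiv.mul_apply, AlgEquiv.mul_apply] at h3
    have h4 := congrArg h h3
    rw [← AlgEquiv.mul_apply h h⁻¹, mul_inv_cancel, AlgEquiv.one_apply] at h4
    rw [← h4, ← AlgEquiv.mul_apply g g⁻¹, mul_inv_cancel, AlgEquiv.one_apply]
  -- a node on the level `m + 2`
  obtain ⟨z, hz⟩ : ∃ z, z ∈ Lev W c b (m + 2) := by
    have h3 : ∀ l, ∃ z, z ∈ Lev W c b l := by
      intro l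
      induction l with
      | zero => exact ⟨algebraMap K W b, rfl⟩
      | succ l ih =>
        obtain ⟨y, hy⟩ := ih
        refine ⟨rt C y, ?_⟩
        rw [Lev_qm, ← hC, qm_rt]
        exact hy
    exact h3 _
  set y : W := qm C z with hy
  set x : W := qm C y with hx
  have hyL : y ∈ Lev W c b (m + 1) := hLh z hz
  have hxL : x ∈ Lev W c b m := Lev_qm.1 hyL
  have hhz : (h z) ^ 2 = -y - C := by
    have h3 : h y = -y := hh1 y hyL
    have h4 : h (z ^ 2) = h (y - C) := by
      congr 1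
      simp only [hy, qm]
      ring
    rw [map_pow, map_sub, h3, h.commutes] at h4
    exact h4
  have hz2 : z ^ 2 = y - C := by
    simp only [hy, qm]
    ring
  set e : W := z * h z with he
  have he2 : e ^ 2 = (qm C)^[2] 0 - x := by
    have h3 : (qm C)^[2] 0 = C ^ 2 + C := by
      simp [qm]
    rw [he, mul_pow, hz2, hhz, h3, hx]
    simp only [qm]
    ring
  have hst : ∀ g : W ≃ₐ[K] W, g x = x → g e = e := by
    intro g hg
    have h3 : g y = y ∨ g y = -y := by
      rw [hx, aut_qm, ← hC, eq_comm, qm_eq_iff] at hg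
      exact hg
    have h4 : ∀ t ∈ Lev W c b (m + 2), qm C (g z) = qm C t → g e = t * h t := by
      intro t ht h5
      rw [he, map_mul, hcomm g z hz]
      rcases qm_eq_iff.1 h5 with h6 | h6
      · rw [h6]
      · have h7 : g z = -t := by rw [h6, neg_neg]
        rw [h7, map_neg, neg_mul_neg]
    rcases h3 with h3 | h3
    · refine h4 z hz ?_
      rw [← hy, ← h3, hy, hC, aut_qm]
    · have h5 := h4 (h z) (Lev_aut h hz) (by
        rw [hC, ← aut_qm, ← aut_qm, ← hC, ← hy, h3, hh1 y hyL])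
      rw [h5, hhh z hz, he, mul_comm]
  exact ⟨x, hxL, e, he2, hst⟩

/-- an equivariant choice of square roots -/
theorem equiv_root {c b : K} {m : ℕ} (hT : Tran W c b m) {x : W} (hx : x ∈ Lev W c b m) {e : W}
    (he : e ^ 2 = (qm (algebraMap K W c))^[2] 0 - x)
    (hst : ∀ g : W ≃ₐ[K] W, g x = x → g e = e) :
    ∃ E : W → W, (∀ y ∈ Lev W c b m, E y ^ 2 = (qm (algebraMap K W c))^[2] 0 - y) ∧
      ∀ g : W ≃ₐ[K] W, ∀ y ∈ Lev W c b m, g (E y) = E (g y) := by
  classical
  have h1 : ∀ y : W, ∃ g : W ≃ₐ[K] W, y ∈ Lev W c b m → g x = y := by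
    intro y
    by_cases hy : y ∈ Lev W c b m
    · obtain ⟨g, hg⟩ := hT x hx y hy
      exact ⟨g, fun _ => hg⟩
    · exact ⟨1, fun h => absurd h hy⟩
  choose G hG using h1
  refine ⟨fun y => G y e, fun y hy => ?_, fun g y hy => ?_⟩
  · rw [← map_pow, he, map_sub, aut_iter, map_zero, hG y hy]
  · have h2 := hG y hy
    have h3 := hG (g y) (Lev_aut g hy)
    have h6 : ((G (g y))⁻¹ : W ≃ₐ[K] W) (G (g y) x) = ((G (g y))⁻¹ : W ≃ₐ[K] W) (g y) := by
      rw [h3]
    rw [← AlgEquiv.mul_apply, inv_mul_cancel, AlgEquiv.one_apply] at h6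
    have h4 := hst ((G (g y))⁻¹ * (g * G y)) (by
      rw [AlgEquiv.mul_apply, AlgEquiv.mul_apply, h2]
      exact h6.symm)
    have h5 := congrArg (G (g y)) h4
    rw [← AlgEquiv.mul_apply, ← mul_assoc, mul_inv_cancel, one_mul, AlgEquiv.mul_apply] at h5
    exact h5

end tree

section rec

variable {W : Type*} [Field W] [IsAlgClosed W]

/-- products of the square roots above a node -/
noncomputable def SS (C : W) (E : W → W) : ℕ → W → W
  | 0, r => E r
  | i + 1, r => SS C E i (rt C r) * SS C E i (-rt C r)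

/-- iterated traces -/
noncomputable def AA (C : W) (E : W → W) : ℕ → ℕ → W → W
  | 0, i, r => SS C E i r
  | k + 1, i, r => AA C E k i (rt C r) + AA C E k i (-rt C r)

theorem SS_succ (C : W) (E : W → W) (i : ℕ) (r : W) :
    SS C E (i + 1) r = SS C E i (rt C r) * SS C E i (-rt C r) := rfl

theorem AA_zero (C : W) (E : W → W) (i : ℕ) (r : W) : AA C E 0 i r = SS C E i r := rfl

theorem AA_one (C : W) (E : W → W) (i : ℕ) (r : W) :
    AA C E 1 i r = SS C E i (rt C r) + SS C E i (-rt C r) := rfl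

theorem AA_two (C : W) (E : W → W) (i : ℕ) (r : W) :
    AA C E 2 i r = AA C E 1 i (rt C r) + AA C E 1 i (-rt C r) := rfl

theorem AA_succ (C : W) (E : W → W) (k i : ℕ) (r : W) :
    AA C E (k + 1) i r = AA C E k i (rt C r) + AA C E k i (-rt C r) := rfl

end rec

section tree2

variable {K W : Type*} [Field K] [Field W] [Algebra K W] [IsAlgClosed W]

theorem rt_mem {c b : K} {j : ℕ} {r : W} (hr : r ∈ Lev W c b j) :
    rt (algebraMap K W c) r ∈ Lev W c b (j + 1) := by
  rw [Lev_qm, qm_rt]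
  exact hr

theorem SS_equiv {c b : K} {L : ℕ} {E : W → W}
    (hE : ∀ g : W ≃ₐ[K] W, ∀ y ∈ Lev W c b L, g (E y) = E (g y)) (i : ℕ) :
    ∀ j, j + i = L → ∀ r ∈ Lev W c b j, ∀ g : W ≃ₐ[K] W,
      g (SS (algebraMap K W c) E i r) = SS (algebraMap K W c) E i (g r) := by
  induction i with
  | zero =>
    intro j hj r hr g
    rw [add_zero] at hj
    subst hj
    exact hE g r hr
  | succ i ih =>
    intro j hj r hr g
    have h1 := rt_mem hr
    have h2 : qm (algebraMap K W c) (g (rt (algebraMap K W c) r)) = g r := by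
      rw [← aut_qm, qm_rt]
    rw [SS_succ, SS_succ, map_mul, ih (j + 1) (by omega) _ h1, ih (j + 1) (by omega) _ (Lev_neg h1),
      map_neg]
    rcases qm_eq_iff'.1 h2 with h3 | h3
    · rw [h3]
    · rw [h3, neg_neg, mul_comm]

theorem AA_equiv {c b : K} {L : ℕ} {E : W → W}
    (hE : ∀ g : W ≃ₐ[K] W, ∀ y ∈ Lev W c b L, g (E y) = E (g y)) (k : ℕ) :
    ∀ i j, j + k + i = L → ∀ r ∈ Lev W c b j, ∀ g : W ≃ₐ[K] W,
      g (AA (algebraMap K W c) E k i r) = AA (algebraMap K W c) E k i (g r) := by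
  induction k with
  | zero => exact fun i j hj r hr g => SS_equiv hE i j (by omega) r hr g
  | succ k ih =>
    intro i j hj r hr g
    have h1 := rt_mem hr
    have h2 : qm (algebraMap K W c) (g (rt (algebraMap K W c) r)) = g r := by
      rw [← aut_qm, qm_rt]
    rw [AA_succ, AA_succ, map_add, ih i (j + 1) (by omega) _ h1, ih i (j + 1) (by omega) _
      (Lev_neg h1), map_neg]
    rcases qm_eq_iff'.1 h2 with h3 | h3
    · rw [h3]
    · rw [h3, neg_neg, add_comm]

theorem SS_sq {c b : K} {L : ℕ} {E : W → W}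
    (hE : ∀ y ∈ Lev W c b L, E y ^ 2 = (qm (algebraMap K W c))^[2] 0 - y) (i : ℕ) :
    ∀ j, j + i = L → ∀ r ∈ Lev W c b j,
      SS (algebraMap K W c) E i r ^ 2 = (qm (algebraMap K W c))^[i + 2] 0 - r := by
  induction i with
  | zero =>
    intro j hj r hr
    rw [add_zero] at hj
    subst hj
    rw [zero_add]
    exact hE r hr
  | succ i ih =>
    intro j hj r hr
    have h1 := rt_mem hr
    rw [SS_succ, mul_pow, ih (j + 1) (by omega) _ h1, ih (j + 1) (by omega) _ (Lev_neg h1),
      show i + 1 + 2 = (i + 2) + 1 from rfl, Function.iterate_succ_apply' _ (i + 2)]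
    have h2 := rt_sq (algebraMap K W c) r
    simp only [qm]
    linear_combination -h2

theorem AA_one_sq {c b : K} {L : ℕ} {E : W → W}
    (hE : ∀ y ∈ Lev W c b L, E y ^ 2 = (qm (algebraMap K W c))^[2] 0 - y) (i j : ℕ)
    (hj : j + 1 + i = L) (r : W) (hr : r ∈ Lev W c b j) :
    AA (algebraMap K W c) E 1 i r ^ 2
      = 2 * ((qm (algebraMap K W c))^[i + 2] 0 + SS (algebraMap K W c) E (i + 1) r) := by
  have h1 := rt_mem hr
  rw [AA_one, add_sq, SS_sq hE i (j + 1) (by omega) _ h1,
    SS_sq hE i (j + 1) (by omega) _ (Lev_neg h1), SS_succ]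
  ring

end tree2

section val

variable {K W : Type*} [Field K] [Field W] [Algebra K W] [IsAlgClosed W]
  {Γ : Type*} [LinearOrderedCommGroupWithZero Γ]

theorem le_of_sq_le' {a b : Γ} (h : a ^ 2 ≤ b ^ 2) : a ≤ b :=
  (pow_le_pow_iff_left₀ zero_le zero_le two_ne_zero).1 h

theorem lt_of_sq_lt' {a b : Γ} (h : a ^ 2 < b ^ 2) : a < b :=
  (pow_lt_pow_iff_left₀ zero_le zero_le two_ne_zero).1 h

theorem mul_le_of_sq {a b d : Γ} (ha : a ^ 2 ≤ d) (hb : b ^ 2 ≤ d) : a * b ≤ d := by
  apply le_of_sq_le'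
  rw [mul_pow, pow_two d]
  exact mul_le_mul' ha hb

/-- a bound for the values on the levels -/
theorem exists_bound (v : Valuation W Γ) {C : W} (hC : v C ≤ 1) (β : W) :
    ∃ M : ℕ → Γ, (∀ j, 1 ≤ M j) ∧ (∀ j, M (j + 1) ^ 2 = M j) ∧ M 0 = max 1 (v β) ∧
      ∀ j, ∀ x, (qm C)^[j] x = β → v x ≤ M j := by
  set z : ℕ → W := fun j => (rt C)^[j] β with hz
  have hz1 : ∀ j, z (j + 1) ^ 2 = z j - C := by
    intro j
    show ((rt C)^[j + 1] β) ^ 2 = _
    rw [Function.iterate_succ_apply', rt_sq]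
  have hsq : ∀ j, (max 1 (v (z (j + 1)))) ^ 2 = max 1 (v (z j)) := by
    intro j
    have h1 : v (z (j + 1)) ^ 2 = v (z j - C) := by rw [← map_pow, hz1]
    rcases le_or_gt (v (z j)) 1 with h | h
    · have h2 : v (z (j + 1)) ^ 2 ≤ 1 := by
        rw [h1]
        exact (v.map_sub _ _).trans (max_le h hC)
      have h3 : v (z (j + 1)) ≤ 1 := (pow_le_one_iff two_ne_zero).1 h2
      rw [max_eq_left h3, max_eq_left h, one_pow]
    · have h2 : v (z j - C) = v (z j) := Valuation.map_sub_eq_of_lt_left _ (lt_of_le_of_lt hC h)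
      have h3 : 1 < v (z (j + 1)) := by
        by_contra h4
        rw [not_lt] at h4
        have h5 : v (z (j + 1)) ^ 2 ≤ 1 := pow_le_one' h4 2
        rw [h1, h2] at h5
        exact absurd h (not_lt.2 h5)
      rw [max_eq_right h3.le, max_eq_right h.le, h1, h2]
  refine ⟨fun j => max 1 (v (z j)), fun j => le_max_left _ _, hsq, rfl, ?_⟩
  intro j
  induction j with
  | zero =>
    intro x hx
    have h1 : x = β := hx
    rw [h1]
    exact le_max_right _ _
  | succ j ih =>
    intro x hx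
    rw [Function.iterate_succ_apply] at hx
    have h1 := ih _ hx
    apply le_of_sq_le'
    rw [hsq j, ← map_pow]
    have h2 : x ^ 2 = qm C x - C := by simp [qm]
    rw [h2]
    exact (v.map_sub _ _).trans (max_le h1 (hC.trans (le_max_left _ _)))

omit [IsAlgClosed W] in
theorem orbit_le_one (v : Valuation W Γ) {C : W} (hC : v C ≤ 1) (n : ℕ) :
    v ((qm C)^[n] 0) ≤ 1 := by
  induction n with
  | zero => simp
  | succ n ih =>
    rw [Function.iterate_succ_apply']
    refine (v.map_add _ _).trans (max_le ?_ hC)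
    rw [map_pow]
    exact pow_le_one' ih 2

omit [IsAlgClosed W] in
theorem v_two_le (v : Valuation W Γ) : v 2 ≤ 1 := by
  rw [← one_add_one_eq_two]
  exact (v.map_add _ _).trans (by rw [map_one, max_self])

/-- the bounds -/
theorem AA_bound (v : Valuation W Γ) {c b : K} (hC : v (algebraMap K W c) ≤ 1) {L : ℕ}
    {E : W → W} (hE : ∀ y ∈ Lev W c b L, E y ^ 2 = (qm (algebraMap K W c))^[2] 0 - y)
    {M : ℕ → Γ} (hM1 : ∀ j, 1 ≤ M j) (hM2 : ∀ j, M (j + 1) ^ 2 = M j)
    (hM : ∀ j, ∀ x ∈ Lev W c b j, v x ≤ M j) (k : ℕ) :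
    (∀ i j, j + (k + 1) + i = L → ∀ r ∈ Lev W c b j,
      v (AA (algebraMap K W c) E (k + 1) i r) ^ 2 ≤ v 2 * M (j + (k + 1))) ∧
    (∀ i j, j + (k + 2) + i = L → ∀ r ∈ Lev W c b j,
      v (AA (algebraMap K W c) E (k + 2) i r ^ 2 - 2 * AA (algebraMap K W c) E (k + 1) (i + 1) r)
        ≤ v 2 * v 2 * M (j + (k + 2))) := by
  have h2 := v_two_le v
  have hq := orbit_le_one v hC
  induction k with
  | zero =>
    have hB : ∀ i j, j + (0 + 1) + i = L → ∀ r ∈ Lev W c b j,
        v (AA (algebraMap K W c) E (0 + 1) i r) ^ 2 ≤ v 2 * M (j + (0 + 1)) := by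
      intro i j hj r hr
      rw [zero_add, ← map_pow, AA_one_sq hE i j (by omega) r hr, map_mul]
      refine mul_le_mul_right ((v.map_add _ _).trans (max_le ((hq _).trans (hM1 _)) ?_)) _
      apply le_of_sq_le'
      rw [hM2, ← map_pow, SS_sq hE (i + 1) j (by omega) r hr]
      exact (v.map_sub _ _).trans (max_le ((hq _).trans (hM1 _)) (hM j r hr))
    refine ⟨hB, ?_⟩
    intro i j hj r hr
    have h3 := rt_mem hr
    have h4 := AA_one_sq hE i (j + 1) (by omega) _ h3
    have h5 := AA_one_sq hE i (j + 1) (by omega) _ (Lev_neg h3)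
    have h6 : AA (algebraMap K W c) E (0 + 2) i r ^ 2
        - 2 * AA (algebraMap K W c) E (0 + 1) (i + 1) r
        = 2 * 2 * (qm (algebraMap K W c))^[i + 2] 0
          + 2 * (AA (algebraMap K W c) E 1 i (rt (algebraMap K W c) r)
            * AA (algebraMap K W c) E 1 i (-rt (algebraMap K W c) r)) := by
      rw [zero_add, zero_add, AA_two, AA_one _ _ (i + 1) r, add_sq, h4, h5]
      ring
    rw [h6]
    refine (v.map_add _ _).trans (max_le ?_ ?_)
    · rw [map_mul, map_mul]
      exact mul_le_mul_right ((hq _).trans (hM1 _)) _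
    · rw [map_mul, map_mul, mul_assoc]
      refine mul_le_mul_right (mul_le_of_sq ?_ ?_) _
      · have h7 := hB i (j + 1) (by omega) _ h3
        rw [show j + 1 + (0 + 1) = j + (0 + 2) from rfl] at h7
        exact h7
      · have h7 := hB i (j + 1) (by omega) _ (Lev_neg h3)
        rw [show j + 1 + (0 + 1) = j + (0 + 2) from rfl] at h7
        exact h7
  | succ k ih =>
    obtain ⟨ihB, ihC⟩ := ih
    have hB : ∀ i j, j + (k + 1 + 1) + i = L → ∀ r ∈ Lev W c b j,
        v (AA (algebraMap K W c) E (k + 1 + 1) i r) ^ 2 ≤ v 2 * M (j + (k + 1 + 1)) := by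
      intro i j hj r hr
      have h3 := ihC i j (by omega) r hr
      have h4 := ihB (i + 1) j (by omega) r hr
      have h5 : AA (algebraMap K W c) E (k + 1 + 1) i r ^ 2
          = (AA (algebraMap K W c) E (k + 2) i r ^ 2
            - 2 * AA (algebraMap K W c) E (k + 1) (i + 1) r)
            + 2 * AA (algebraMap K W c) E (k + 1) (i + 1) r := by
        rw [show k + 1 + 1 = k + 2 from rfl]
        ring
      rw [← map_pow, h5]
      refine (v.map_add _ _).trans (max_le (h3.trans ?_) ?_)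
      · rw [mul_assoc]
        refine mul_le_mul_right ?_ _
        rw [show j + (k + 2) = j + (k + 1 + 1) from rfl]
        exact mul_le_of_le_one_left' h2
      · rw [map_mul]
        refine mul_le_mul_right ?_ _
        apply le_of_sq_le'
        rw [show j + (k + 1 + 1) = (j + (k + 1)) + 1 from rfl, hM2]
        exact h4.trans (mul_le_of_le_one_left' h2)
    refine ⟨hB, ?_⟩
    intro i j hj r hr
    have h3 := rt_mem hr
    have h6 : AA (algebraMap K W c) E (k + 1 + 2) i r ^ 2
        - 2 * AA (algebraMap K W c) E (k + 1 + 1) (i + 1) r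
        = ((AA (algebraMap K W c) E (k + 2) i (rt (algebraMap K W c) r) ^ 2
            - 2 * AA (algebraMap K W c) E (k + 1) (i + 1) (rt (algebraMap K W c) r))
          + (AA (algebraMap K W c) E (k + 2) i (-rt (algebraMap K W c) r) ^ 2
            - 2 * AA (algebraMap K W c) E (k + 1) (i + 1) (-rt (algebraMap K W c) r)))
          + 2 * (AA (algebraMap K W c) E (k + 2) i (rt (algebraMap K W c) r)
            * AA (algebraMap K W c) E (k + 2) i (-rt (algebraMap K W c) r)) := by
      rw [show k + 1 + 2 = (k + 2) + 1 from rfl, AA_succ _ _ (k + 2) i r,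
        AA_succ _ _ (k + 1) (i + 1) r]
      ring
    rw [h6]
    have h7 := ihC i (j + 1) (by omega) _ h3
    have h8 := ihC i (j + 1) (by omega) _ (Lev_neg h3)
    have e1 : j + 1 + (k + 2) = j + (k + 1 + 2) := by omega
    rw [e1] at h7 h8
    refine (v.map_add _ _).trans (max_le ((v.map_add _ _).trans (max_le h7 h8)) ?_)
    rw [map_mul, map_mul, mul_assoc]
    refine mul_le_mul_right (mul_le_of_sq ?_ ?_) _
    · have h9 := hB i (j + 1) (by omega) _ h3
      rw [show j + 1 + (k + 1 + 1) = j + (k + 1 + 2) by omega] at h9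
      exact h9
    · have h9 := hB i (j + 1) (by omega) _ (Lev_neg h3)
      rw [show j + 1 + (k + 1 + 1) = j + (k + 1 + 2) by omega] at h9
      exact h9

/-- the exact values of the traces at the bottom -/
theorem AA_exact (v : Valuation W Γ) (h20 : v 2 ≠ 0) {c b : K}
    (hC : v (algebraMap K W c) ≤ 1) {L : ℕ}
    {E : W → W} (hE : ∀ y ∈ Lev W c b L, E y ^ 2 = (qm (algebraMap K W c))^[2] 0 - y)
    {M : ℕ → Γ} (hM1 : ∀ j, 1 ≤ M j) (hM2 : ∀ j, M (j + 1) ^ 2 = M j)
    (hM : ∀ j, ∀ x ∈ Lev W c b j, v x ≤ M j)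
    (hβ : v 2 * M 1 < v (rt (algebraMap K W c) (algebraMap K W b))) (k : ℕ) :
    ∀ i, k + 1 + i = L →
      v 2 * M (k + 2) < v (AA (algebraMap K W c) E (k + 1) i (algebraMap K W b)) ∧
      (v (AA (algebraMap K W c) E (k + 1) i (algebraMap K W b)) / v 2) ^ 2 ^ (k + 1)
        = v (rt (algebraMap K W c) (algebraMap K W b)) / v 2 := by
  set C : W := algebraMap K W c with hCdef
  set β : W := algebraMap K W b with hβdef
  set ζ : W := rt C β with hζ
  have hβL : β ∈ Lev W c b 0 := rfl
  have v2pos : 0 < v 2 := zero_lt_iff.2 h20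
  induction k with
  | zero =>
    intro i hi
    have h1 := AA_one_sq hE i 0 (by omega) β hβL
    have h2 := SS_sq hE (i + 1) 0 (by omega) β hβL
    set q : W := (qm C)^[i + 2] 0 with hq
    set S : W := SS C E (i + 1) β with hS
    have h3 : (q + S) * (q - S) = ζ ^ 2 := by
      have h4 : (qm C)^[i + 1 + 2] 0 = q ^ 2 + C := by
        rw [show i + 1 + 2 = (i + 2) + 1 from rfl, Function.iterate_succ_apply']
        rfl
      rw [h4] at h2
      rw [hζ, rt_sq]
      linear_combination -h2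
    have h4 : v (2 * S) ≤ v 2 * M 1 := by
      rw [map_mul]
      refine mul_le_mul_right ?_ _
      apply le_of_sq_le'
      rw [hM2, ← map_pow, h2]
      exact (v.map_sub _ _).trans (max_le ((orbit_le_one v hC _).trans (hM1 _)) (hM 0 β hβL))
    have h5 : v (q + S) * v (q - S) = v ζ ^ 2 := by
      rw [← map_mul, h3, map_pow]
    have h6 : v (q + S) = v (q - S) := by
      by_contra hne
      have h7 : 2 * S = (q + S) - (q - S) := by ring
      have h8 : v (2 * S) = max (v (q + S)) (v (q - S)) := by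
        rw [h7]
        rcases lt_or_gt_of_ne hne with h | h
        · rw [max_eq_right h.le]
          exact Valuation.map_sub_eq_of_lt_right _ h
        · rw [max_eq_left h.le]
          exact Valuation.map_sub_eq_of_lt_left _ h
      have h9 : v ζ ≤ max (v (q + S)) (v (q - S)) := by
        apply le_of_sq_le'
        rw [← h5, pow_two]
        exact mul_le_mul' (le_max_left _ _) (le_max_right _ _)
      rw [← h8] at h9
      exact absurd (lt_of_lt_of_le hβ h9) (not_lt.2 h4)
    have h7 : v (q + S) = v ζ := by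
      rw [← h6, ← pow_two] at h5
      exact le_antisymm (le_of_sq_le' h5.le) (le_of_sq_le' h5.ge)
    have h8 : v (AA C E (0 + 1) i β) ^ 2 = v 2 * v ζ := by
      rw [zero_add, ← map_pow, h1, map_mul, h7]
    refine ⟨?_, ?_⟩
    · apply lt_of_sq_lt'
      rw [h8, mul_pow, hM2, pow_two, mul_assoc]
      exact mul_lt_mul_of_pos_left hβ v2pos
    · rw [zero_add, pow_one, div_pow]
      rw [zero_add] at h8
      rw [h8, pow_two, mul_div_mul_left _ _ h20]
  | succ k ih =>
    intro i hi
    obtain ⟨ih1, ih2⟩ := ih (i + 1) (by omega)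
    have h1 := (AA_bound v hC hE hM1 hM2 hM k).2 i 0 (by omega) β hβL
    rw [zero_add] at h1
    have h2 : v (2 * AA C E (k + 1) (i + 1) β)
        = v 2 * v (AA C E (k + 1) (i + 1) β) := map_mul _ _ _
    have h3 : v (AA C E (k + 2) i β ^ 2 - 2 * AA C E (k + 1) (i + 1) β)
        < v (2 * AA C E (k + 1) (i + 1) β) := by
      refine lt_of_le_of_lt h1 ?_
      rw [h2, mul_assoc]
      exact mul_lt_mul_of_pos_left ih1 v2pos
    have h4 : v (AA C E (k + 1 + 1) i β) ^ 2 = v 2 * v (AA C E (k + 1) (i + 1) β) := by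
      have h5 : AA C E (k + 1 + 1) i β ^ 2 = (AA C E (k + 2) i β ^ 2
          - 2 * AA C E (k + 1) (i + 1) β) + 2 * AA C E (k + 1) (i + 1) β := by
        rw [show k + 1 + 1 = k + 2 from rfl]
        ring
      rw [← map_pow, h5, Valuation.map_add_eq_of_lt_right _ h3, h2]
    refine ⟨?_, ?_⟩
    · apply lt_of_sq_lt'
      rw [h4, mul_pow, show k + 1 + 2 = (k + 2) + 1 from rfl, hM2, pow_two, mul_assoc]
      exact mul_lt_mul_of_pos_left ih1 v2pos
    · rw [pow_succ 2 (k + 1), mul_comm (2 ^ (k + 1)) 2, pow_mul, div_pow, h4, pow_two (v 2),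
        mul_div_mul_left _ _ h20]
      exact ih2

/-- **the core**: a trivial level above a flip makes the value of `(b - c) / 4` highly divisible -/
theorem trace_core (v : Valuation W Γ) (h20 : v 2 ≠ 0) {c b : K}
    (hfix : ∀ x : W, (∀ g : W ≃ₐ[K] W, g x = x) → ∃ a : K, algebraMap K W a = x)
    (hC : v (algebraMap K W c) ≤ 1)
    (hb : v 4 * max 1 (v (algebraMap K W b)) < v (algebraMap K W b - algebraMap K W c))
    {m : ℕ} (hT : Tran W c b (m + 1)) (hF : FlipAt W c b (m + 1))
    (htr : ∀ g : W ≃ₐ[K] W, (∀ y ∈ Lev W c b (m + 2), g y = y) →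
      ∀ z ∈ Lev W c b (m + 3), g z = z) :
    ∃ a : K, v (algebraMap K W a / 2) ^ 2 ^ (m + 2)
      = v ((algebraMap K W b - algebraMap K W c) / 4) := by
  obtain ⟨x, hx, e, he, hst⟩ := stab_of_triv hF htr
  obtain ⟨E, hE1, hE2⟩ := equiv_root hT hx he hst
  obtain ⟨M, hM1, hM2, hM0, hM⟩ := exists_bound v hC (algebraMap K W b)
  have h4 : v 4 = v 2 * v 2 := by
    rw [← map_mul]
    congr 1
    norm_num
  have hz2 : v (rt (algebraMap K W c) (algebraMap K W b)) ^ 2
      = v (algebraMap K W b - algebraMap K W c) := by rw [← map_pow, rt_sq]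
  have hβ : v 2 * M 1 < v (rt (algebraMap K W c) (algebraMap K W b)) := by
    apply lt_of_sq_lt'
    rw [hz2, mul_pow, hM2, hM0, pow_two, ← h4]
    exact hb
  obtain ⟨-, h5⟩ := AA_exact v h20 hC hE1 hM1 hM2 (fun j x hx => hM j x hx) hβ m 0 (by omega)
  obtain ⟨a, ha⟩ := hfix (AA (algebraMap K W c) E (m + 1) 0 (algebraMap K W b)) (fun g => by
    rw [AA_equiv hE2 (m + 1) 0 0 (by omega) _ rfl g, g.commutes])
  refine ⟨a, ?_⟩
  rw [ha, map_div₀, show m + 2 = (m + 1) + 1 from rfl, pow_succ 2 (m + 1), pow_mul, h5, div_pow,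
    hz2, map_div₀]
  congr 1
  rw [pow_two, ← h4]

end val

section nf

open IsDedekindDomain NumberField

variable {K W : Type*} [Field K] [NumberField K] [Field W] [Algebra K W] [IsAlgClosed W]

/-- **flips at a prime over 2** -/
theorem flips_two {c b : K}
    (hfix : ∀ x : W, (∀ g : W ≃ₐ[K] W, g x = x) → ∃ a : K, algebraMap K W a = x)
    (hb : ∀ n, 1 ≤ n → (qm c)^[n] 0 ≠ b) (hT : ∀ l, Tran W c b l)
    (Q : HeightOneSpectrum (𝓞 K)) (qc : Q.valuation K c ≤ 1)
    (qb : Q.valuation K (4 : K) * max 1 (Q.valuation K b) < Q.valuation K (b - c)) :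
    ∃ m, ∀ l, m ≤ l → FlipAt W c b l := by
  have hz : CharZero W := charZero_of_injective_algebraMap (algebraMap K W).injective
  obtain ⟨A, hA⟩ := exists_ext_val (Ω := W) (Q.valuation K)
  set w := A.valuation with hw
  have w4 : w 4 = w (algebraMap K W 4) := by rw [map_ofNat (algebraMap K W) 4]
  have wc : w (algebraMap K W c) ≤ 1 := (hA c).2 qc
  have wb : w 4 * max 1 (w (algebraMap K W b)) < w (algebraMap K W b - algebraMap K W c) := by
    rw [w4, ← map_sub (algebraMap K W)]
    rcases le_or_gt (Q.valuation K b) 1 with h | h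
    · rw [max_eq_left h, mul_one] at qb
      rw [max_eq_left ((hA b).2 h), mul_one]
      exact (ext_lt_iff hA _ _).2 qb
    · rw [max_eq_right h.le, ← map_mul] at qb
      have h1 : 1 < w (algebraMap K W b) := by
        by_contra h2
        exact absurd h (not_lt.2 ((hA b).1 (not_lt.1 h2)))
      rw [max_eq_right h1.le, ← map_mul, ← map_mul]
      exact (ext_lt_iff hA _ _).2 qb
  have h40 : Q.valuation K (4 : K) ≠ 0 := by
    rw [Valuation.ne_zero_iff]
    norm_num
  -- the exponent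
  have hv : 1 < Q.valuation K ((b - c) / 4) := by
    rw [map_div₀, one_lt_div₀ (zero_lt_iff.2 h40)]
    refine lt_of_le_of_lt ?_ qb
    exact le_mul_of_one_le_right' (le_max_left _ _)
  have hv0 : Q.valuation K ((b - c) / 4) ≠ 0 := ne_of_gt (lt_trans zero_lt_one hv)
  set N : ℤ := WithZero.log (Q.valuation K ((b - c) / 4)) with hN
  have hNv : Q.valuation K ((b - c) / 4) = WithZero.exp N := (WithZero.exp_log hv0).symm
  have hN0 : 0 < N := by
    rw [hNv, ← WithZero.exp_zero, WithZero.exp_lt_exp] at hv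
    exact hv
  obtain ⟨m, hm, u, hu, hmv⟩ := exists_move two_ne_zero hb hT (N.toNat + 1)
  refine ⟨m, fun l hl => ?_⟩
  induction l, hl using Nat.le_induction with
  | base => exact flip_of_move (hT m) u hu hmv
  | succ l hl ih =>
    by_contra hno
    obtain ⟨l', rfl⟩ : ∃ l', l = l' + 1 := ⟨l - 1, by omega⟩
    obtain ⟨a, ha⟩ := trace_core w (by
      rw [Valuation.ne_zero_iff]
      exact two_ne_zero) hfix wc wb (hT (l' + 1)) ih (fun g hg z hz => by
      by_contra hne
      exact hno (flip_of_move (hT (l' + 2)) g hg ⟨z, hz, hne⟩))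
    have h1 : w (algebraMap K W ((a / 2) ^ 2 ^ (l' + 2))) = w (algebraMap K W ((b - c) / 4)) := by
      rw [map_pow, map_div₀, map_div₀, map_sub, map_ofNat, map_ofNat, map_pow]
      exact ha
    rw [ext_eq_iff hA, map_pow, hNv] at h1
    have ha0 : Q.valuation K (a / 2) ≠ 0 := by
      intro h0
      rw [h0, zero_pow (by positivity)] at h1
      exact WithZero.exp_ne_zero h1.symm
    rw [← WithZero.exp_log ha0, ← WithZero.exp_nsmul, WithZero.exp_inj] at h1
    set B : ℤ := WithZero.log (Q.valuation K (a / 2)) with hB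
    rw [nsmul_eq_mul] at h1
    have h2 : (0 : ℤ) < ((2 ^ (l' + 2) : ℕ) : ℤ) := by positivity
    have h3 : 0 < B := by
      by_contra h4
      rw [not_lt] at h4
      nlinarith
    have h4 : ((2 ^ (l' + 2) : ℕ) : ℤ) ≤ N := by nlinarith
    have h5 : l' + 2 < 2 ^ (l' + 2) := Nat.lt_two_pow_self
    have h6 : N.toNat < 2 ^ (l' + 2) := by omega
    omega

end nf

end Pool.Agent.ORB.VQ
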