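import Mathlib

/-! ORB, M9: value sets of polynomials over prime fields (Wan, Turnwald). -/

namespace Pool.Agent.ORB

open Polynomial

lemma sum_eval_zero {p : ℕ} [Fact p.Prime] (g : (ZMod p)[X]) (hg : g.natDegree < p - 1) :
    ∑ x : ZMod p, g.eval x = 0 := by
  simp only [eval_eq_sum_range]
  rw [Finset.sum_comm]
  refine Finset.sum_eq_zero fun i hi => ?_
  rw [← Finset.mul_sum, FiniteField.sum_pow_lt_card_sub_one, mul_zero]
  rw [ZMod.card]
  have := Finset.mem_range.1 hi
  omega

lemma value_esymm {p : ℕ} [Fact p.Prime] (f : (ZMod p)[X]) (hd : 1 ≤ f.natDegree) (k : ℕ)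
    (hk : 1 ≤ k) (hkd : k * f.natDegree < p - 1) :
    (Finset.univ.val.map fun x : ZMod p => f.eval x).esymm k = 0 := by
  have hps : ∀ b, b * f.natDegree < p - 1 → ∑ x : ZMod p, f.eval x ^ b = 0 := by
    intro b hb
    have h1 := sum_eval_zero (f ^ b) (lt_of_le_of_lt natDegree_pow_le hb)
    simpa only [eval_pow] using h1
  have h1 := congrArg (MvPolynomial.aeval (fun x : ZMod p => f.eval x))
    (MvPolynomial.mul_esymm_eq_sum (ZMod p) (ZMod p) k)
  rw [map_mul, map_mul, map_sum, map_natCast, MvPolynomial.aeval_esymm_eq_multiset_esymm] at h1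
  rw [Finset.sum_eq_zero, mul_zero] at h1
  · have h2 : ((k : ℕ) : ZMod p) ≠ 0 := by
      intro h3
      rw [ZMod.natCast_eq_zero_iff] at h3
      have h4 := Nat.le_of_dvd hk h3
      have h5 : k ≤ k * f.natDegree := Nat.le_mul_of_pos_right k hd
      omega
    exact (mul_eq_zero.1 h1).resolve_left h2
  · intro ab hab
    rw [Finset.mem_filter, Finset.HasAntidiagonal.mem_antidiagonal] at hab
    obtain ⟨hab1, hab2⟩ := hab
    have h3 : MvPolynomial.aeval (fun x : ZMod p => f.eval x)
        (MvPolynomial.psum (ZMod p) (ZMod p) ab.2) = 0 := by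
      rw [MvPolynomial.psum, map_sum]
      simp only [map_pow, MvPolynomial.aeval_X]
      apply hps
      have h5 : ab.2 * f.natDegree ≤ k * f.natDegree := Nat.mul_le_mul_right _ (by omega)
      omega
    rw [map_mul, h3, mul_zero]

/-- if `f : F_p → F_p` of degree `d` is not injective, then it omits at least `(p-1)/d` values -/
theorem value_set {p : ℕ} [Fact p.Prime] (f : (ZMod p)[X])
    (hf : ¬ Function.Injective (fun x : ZMod p => f.eval x)) :
    p - 1 ≤ f.natDegree * (p - (Finset.univ.image (fun x : ZMod p => f.eval x)).card) ∨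
      f.natDegree = 0 := by
  classical
  by_cases hd0 : f.natDegree = 0
  · exact Or.inr hd0
  left
  have hd : 1 ≤ f.natDegree := by omega
  have hp : 1 < p := (Fact.out : p.Prime).one_lt
  -- the least `j` with `p - 1 ≤ j d`
  have hex : ∃ j, p - 1 ≤ j * f.natDegree := ⟨p - 1, Nat.le_mul_of_pos_right _ hd⟩
  set j0 := Nat.find hex with hj0
  have hj1 : p - 1 ≤ j0 * f.natDegree := Nat.find_spec hex
  have hj2 : ∀ j < j0, j * f.natDegree < p - 1 := fun j hj => by
    have := Nat.find_min hex hj
    omega
  have hj3 : j0 ≤ p - 1 := Nat.find_min' hex (Nat.le_mul_of_pos_right _ hd)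
  have hj4 : 1 ≤ j0 := by
    by_contra h
    have : j0 = 0 := by omega
    rw [this, zero_mul] at hj1
    omega
  set s : Multiset (ZMod p) := Finset.univ.val.map fun x : ZMod p => f.eval x with hs
  have hcard : Multiset.card s = p := by
    rw [hs, Multiset.card_map, Finset.card_val, Finset.card_univ, ZMod.card]
  set F : (ZMod p)[X] := (s.map fun t => X - C t).prod with hF
  set G : (ZMod p)[X] := F - (X ^ p - X) with hG
  -- `G` is not zero
  have hG0 : G ≠ 0 := by
    intro h
    apply hf
    have h1 : F = X ^ p - X := sub_eq_zero.1 h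
    have h2 := FiniteField.roots_X_pow_card_sub_X (ZMod p)
    rw [ZMod.card, ← h1, hF, roots_multiset_prod_X_sub_C] at h2
    have h3 : s.Nodup := by
      rw [h2]
      exact Finset.univ.nodup
    rw [hs] at h3
    intro x y hxy
    exact Multiset.inj_on_of_nodup_map h3 x (Finset.mem_univ x) y (Finset.mem_univ y) hxy
  -- the degree of `G`
  have hGd : G.natDegree ≤ p - j0 := by
    have h1 : G = ∑ j ∈ Finset.Ico 1 (p + 1), (-1) ^ j * (C (s.esymm j) * X ^ (p - j)) + X := by
      rw [hG, hF, Multiset.prod_X_sub_X_eq_sum_esymm, hcard, Finset.range_eq_Ico,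
        Finset.sum_eq_sum_Ico_succ_bot (Nat.succ_pos p)]
      have h0 : s.esymm 0 = 1 := by simp [Multiset.esymm]
      rw [h0, pow_zero, Nat.sub_zero, one_mul, map_one, one_mul, Nat.succ_eq_add_one, zero_add]
      ring
    rw [h1]
    refine (natDegree_add_le _ _).trans (max_le ?_ ?_)
    · refine natDegree_sum_le_of_forall_le _ _ fun j hj => ?_
      by_cases hjj : j < j0
      · rw [hs, value_esymm f hd j (Finset.mem_Ico.1 hj).1 (hj2 j hjj), C_0, zero_mul, mul_zero,
          natDegree_zero]
        exact Nat.zero_le _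
      · have h2 : ((-1 : (ZMod p)[X]) ^ j * (C (s.esymm j) * X ^ (p - j))).natDegree
            ≤ 0 + (0 + (p - j)) := by
          refine natDegree_mul_le_of_le ?_ (natDegree_mul_le_of_le ?_ ?_)
          · have h3 : (-1 : (ZMod p)[X]) ^ j = C ((-1) ^ j) := by simp
            rw [h3, natDegree_C]
          · rw [natDegree_C]
          · exact natDegree_X_pow_le _
        omega
    · rw [natDegree_X]
      omega
  -- the image consists of roots
  have hroots : (Finset.univ.image fun x : ZMod p => f.eval x) ⊆ G.roots.toFinset := by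
    intro v hv
    obtain ⟨x, -, rfl⟩ := Finset.mem_image.1 hv
    rw [Multiset.mem_toFinset, mem_roots hG0, IsRoot.def, hG, eval_sub, eval_sub, eval_pow, eval_X]
    have h1 : F.eval (f.eval x) = 0 := by
      rw [hF, eval_multiset_prod]
      apply Multiset.prod_eq_zero
      rw [Multiset.mem_map]
      refine ⟨X - C (f.eval x), Multiset.mem_map_of_mem _ ?_, by simp⟩
      rw [hs]
      exact Multiset.mem_map_of_mem _ (Finset.mem_univ x)
    rw [h1, ZMod.pow_card, sub_self, sub_zero]
  have h1 : (Finset.univ.image fun x : ZMod p => f.eval x).card ≤ p - j0 :=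
    (Finset.card_le_card hroots).trans ((Multiset.toFinset_card_le _).trans
      ((card_roots' G).trans hGd))
  calc p - 1 ≤ j0 * f.natDegree := hj1
    _ = f.natDegree * j0 := mul_comm _ _
    _ ≤ f.natDegree * (p - (Finset.univ.image fun x : ZMod p => f.eval x).card) :=
      Nat.mul_le_mul_left _ (by omega)

end Pool.Agent.ORB
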