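import Pool.Agent.ORB.YUnif

/-!
ORB, Theorem W, row Y2: the formula of Herbrand.
-/

set_option autoImplicit false

namespace Pool.Agent.ORB.WP

open Polynomial NI GP NumberField IsDedekindDomain IntermediateField

section na

variable {Ω : Type*} [Field Ω] {N : AbsoluteValue Ω ℝ}

theorem na_eval_le (hN : ∀ x y : Ω, N (x + y) ≤ max (N x) (N y)) {q : Polynomial Ω} {B : ℝ} (hB : 0 ≤ B)
    (hq : ∀ i, N (q.coeff i) ≤ B) {a : Ω} (ha : N a ≤ 1) : N (q.eval a) ≤ B := by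
  rw [eval_eq_sum_range]
  refine na_sum_le hN _ _ hB fun i _ => ?_
  rw [map_mul, map_pow]
  calc N (q.coeff i) * N a ^ i ≤ B * 1 :=
        mul_le_mul (hq i) (pow_le_one₀ (N.nonneg _) ha) (pow_nonneg (N.nonneg _) _) hB
    _ = B := mul_one _

theorem na_pow_diff (hN : ∀ x y : Ω, N (x + y) ≤ max (N x) (N y)) {a b : Ω} (ha : N a ≤ 1) (hb : N b ≤ 1)
    (i : ℕ) : N (a ^ i - b ^ i) ≤ N (a - b) := by
  induction i with
  | zero =>
    rw [pow_zero, pow_zero, sub_self, map_zero]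
    exact N.nonneg _
  | succ i ih =>
    have h1 : a ^ (i + 1) - b ^ (i + 1) = a ^ i * (a - b) + (a ^ i - b ^ i) * b := by ring
    rw [h1]
    refine (hN _ _).trans (max_le ?_ ?_)
    · rw [map_mul, map_pow]
      exact mul_le_of_le_one_left (N.nonneg _) (pow_le_one₀ (N.nonneg _) ha)
    · rw [map_mul]
      exact (mul_le_of_le_one_right (N.nonneg _) hb).trans ih

theorem na_eval_diff (hN : ∀ x y : Ω, N (x + y) ≤ max (N x) (N y)) {q : Polynomial Ω}
    (hq : ∀ i, N (q.coeff i) ≤ 1) {a b : Ω} (ha : N a ≤ 1) (hb : N b ≤ 1) :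
    N (q.eval a - q.eval b) ≤ N (a - b) := by
  rw [eval_eq_sum_range, eval_eq_sum_range, ← Finset.sum_sub_distrib]
  refine na_sum_le hN _ _ (N.nonneg _) fun i _ => ?_
  rw [← mul_sub, map_mul]
  exact (mul_le_of_le_one_left (N.nonneg _) (hq i)).trans (na_pow_diff hN ha hb i)

/-- the ring of integers of an absolute value -/
def na_int (N : AbsoluteValue Ω ℝ) (hN : ∀ x y : Ω, N (x + y) ≤ max (N x) (N y)) : Subring Ω where
  carrier := {x | N x ≤ 1}
  mul_mem' {a b} ha hb := by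
    show N (a * b) ≤ 1
    rw [map_mul]
    exact mul_le_one₀ ha (N.nonneg _) hb
  one_mem' := by
    show N 1 ≤ 1
    rw [map_one]
  add_mem' {a b} ha hb := (hN a b).trans (max_le ha hb)
  zero_mem' := by
    show N 0 ≤ 1
    rw [map_zero]
    exact zero_le_one
  neg_mem' {a} ha := by
    show N (-a) ≤ 1
    rw [N.map_neg]
    exact ha

theorem na_prod_coeff (hN : ∀ x y : Ω, N (x + y) ≤ max (N x) (N y)) (R : Finset Ω) (hR : ∀ θ ∈ R, N θ ≤ 1)
    (i : ℕ) : N ((∏ θ ∈ R, (X - C θ)).coeff i) ≤ 1 := by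
  have h1 : ∏ θ ∈ R, (X - C θ) = ((∏ θ : {θ // θ ∈ R}, (X - C (⟨θ.1, hR θ.1 θ.2⟩ : na_int N hN))).map
      (na_int N hN).subtype) := by
    rw [Polynomial.map_prod, ← Finset.prod_coe_sort]
    refine Finset.prod_congr rfl fun θ _ => ?_
    rw [Polynomial.map_sub, map_X, map_C]
    rfl
  rw [h1, coeff_map]
  exact (((∏ θ : {θ // θ ∈ R}, (X - C (⟨θ.1, hR θ.1 θ.2⟩ : na_int N hN))).coeff i)).2

/-- division by a product of integral linear factors -/
theorem na_div (hN : ∀ x y : Ω, N (x + y) ≤ max (N x) (N y)) (R : Finset Ω) (hR : ∀ θ ∈ R, N θ ≤ 1)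
    {P : Polynomial Ω} (hP : ∀ i, N (P.coeff i) ≤ 1) (hroot : ∀ θ ∈ R, P.eval θ = 0) :
    ∃ Q : Polynomial Ω, (∀ i, N (Q.coeff i) ≤ 1) ∧ P = (∏ θ ∈ R, (X - C θ)) * Q := by
  classical
  have hmem : (P.coeffs : Set Ω) ⊆ na_int N hN := by
    intro c hc
    obtain ⟨i, -, rfl⟩ := mem_coeffs_iff.1 (Finset.mem_coe.1 hc)
    exact hP i
  have hf : ∀ i, (∏ θ ∈ R, (X - C θ)).coeff i ∈ na_int N hN := na_prod_coeff hN R hR
  have hfmem : ((∏ θ ∈ R, (X - C θ)).coeffs : Set Ω) ⊆ na_int N hN := by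
    intro c hc
    obtain ⟨i, -, rfl⟩ := mem_coeffs_iff.1 (Finset.mem_coe.1 hc)
    exact hf i
  have hmon : (∏ θ ∈ R, (X - C θ)).Monic := monic_prod_of_monic _ _ fun θ _ => monic_X_sub_C θ
  set P1 := P.toSubring (na_int N hN) hmem with hP1
  set f1 := (∏ θ ∈ R, (X - C θ)).toSubring (na_int N hN) hfmem with hf1
  have hf1m : f1.Monic := (monic_toSubring _ _ hfmem).2 hmon
  have hPmap : P1.map (na_int N hN).subtype = P := map_toSubring _ _ hmem
  have hfmap : f1.map (na_int N hN).subtype = ∏ θ ∈ R, (X - C θ) := map_toSubring _ _ hfmem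
  have hdvd : (∏ θ ∈ R, (X - C θ)) ∣ P := by
    refine Finset.prod_dvd_of_coprime ?_ fun θ hθ => dvd_iff_isRoot.2 (hroot θ hθ)
    intro θ _ θ' _ hne
    exact isCoprime_X_sub_C_of_isUnit_sub (isUnit_iff_ne_zero.2 (sub_ne_zero.2 hne))
  have hmod : P1 %ₘ f1 = 0 := by
    refine map_injective (na_int N hN).subtype (Subring.subtype_injective _) ?_
    rw [map_modByMonic _ hf1m, hPmap, hfmap, Polynomial.map_zero]
    exact (modByMonic_eq_zero_iff_dvd hmon).2 hdvd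
  refine ⟨(P1 /ₘ f1).map (na_int N hN).subtype, fun i => ?_, ?_⟩
  · rw [coeff_map]
    exact ((P1 /ₘ f1).coeff i).2
  · have h1 := modByMonic_add_div P1 f1
    rw [hmod, zero_add] at h1
    have h2 := congrArg (Polynomial.map (na_int N hN).subtype) h1
    rw [Polynomial.map_mul, hfmap, hPmap] at h2
    exact h2.symm

end na

section sloc

variable {U Ω : Type*} [Field U] [Field Ω] [Algebra U Ω] [CharZero U] [IsAlgClosed Ω] [Algebra.IsAlgebraic U Ω]

omit [CharZero U] [IsAlgClosed Ω] [Algebra.IsAlgebraic U Ω] in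
theorem Unif.aut_le {S : SLoc U Ω} {E : IntermediateField U Ω} {ϖ : Ω} (h : Unif S E ϖ) (g : Ω ≃ₐ[U] Ω) :
    S.N (g ϖ) ≤ 1 := by
  rw [S.inv]
  exact h.lt.le

/-- **Y2a** -/
theorem Unif.sub_le {S : SLoc U Ω} {E : IntermediateField U Ω} [FiniteDimensional U E] {ϖ : Ω} (h : Unif S E ϖ)
    {x : Ω} (hx : x ∈ E) (hx1 : S.N x ≤ 1) (g : Ω ≃ₐ[U] Ω) : S.N (g x - x) ≤ S.N (g ϖ - ϖ) := by
  obtain ⟨q, hq, rfl⟩ := h.exists_poly hx hx1
  have h1 : g (aeval ϖ q) = aeval (g ϖ) q := (aeval_algHom_apply g.toAlgHom ϖ q).symm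
  rw [h1, aeval_def, aeval_def, ← eval_map, ← eval_map]
  refine na_eval_diff S.nonarch (fun i => ?_) (h.aut_le g) h.lt.le
  rw [coeff_map]
  exact hq i

/-- **Y2b** (Herbrand; `R` is the orbit of `ϖ'` under the automorphisms which fix `E`) -/
theorem herb_le {S : SLoc U Ω} {E E' : IntermediateField U Ω} [FiniteDimensional U E] [FiniteDimensional U E']
    (hE : E ≤ E') {ϖ ϖ' : Ω} (h : Unif S E ϖ) (h' : Unif S E' ϖ') (g : Ω ≃ₐ[U] Ω) (R : Finset Ω)
    (hR : ∀ θ, θ ∈ R ↔ ∃ u : Ω ≃ₐ[U] Ω, (∀ x ∈ E, u x = x) ∧ u ϖ' = θ) :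
    S.N (g ϖ - ϖ) ≤ ∏ θ ∈ R, S.N (g θ - ϖ') := by
  classical
  have hR1 : ∀ θ ∈ R, S.N θ ≤ 1 := by
    intro θ hθ
    obtain ⟨u, -, rfl⟩ := (hR θ).1 hθ
    exact h'.aut_le u
  obtain ⟨q, hq, hqϖ⟩ := h'.exists_poly (hE h.mem) h.lt.le
  have hev : ∀ a : Ω, (q.map (algebraMap U Ω)).eval a = aeval a q := fun a => by
    rw [eval_map, aeval_def]
  obtain ⟨Q, hQ, hPQ⟩ := na_div S.nonarch R hR1 (P := q.map (algebraMap U Ω) - C ϖ) (fun i => by
      rw [coeff_sub, coeff_map]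
      refine (na_sub_le S.nonarch _ _).trans (max_le (hq i) ?_)
      rw [coeff_C]
      split_ifs
      · exact h.lt.le
      · rw [map_zero]
        exact zero_le_one) (fun θ hθ => by
      obtain ⟨u, hu, rfl⟩ := (hR θ).1 hθ
      have h1 : aeval (u ϖ') q = u (aeval ϖ' q) := aeval_algHom_apply u.toAlgHom ϖ' q
      rw [eval_sub, eval_C, hev, h1, hqϖ, hu ϖ h.mem, sub_self])
  have h2 := congrArg (fun P => (Polynomial.map (g : Ω →+* Ω) P).eval ϖ') hPQ
  beta_reduce at h2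
  have h3 : (q.map (algebraMap U Ω)).map (g : Ω →+* Ω) = q.map (algebraMap U Ω) := by
    rw [Polynomial.map_map]
    congr 1
    ext x
    exact g.commutes x
  rw [Polynomial.map_sub, h3, map_C, eval_sub, eval_C, hev, hqϖ, Polynomial.map_mul, eval_mul,
    Polynomial.map_prod, eval_prod] at h2
  have h4 : ∀ θ ∈ R, ((X - C θ).map (g : Ω →+* Ω)).eval ϖ' = ϖ' - g θ := by
    intro θ _
    rw [Polynomial.map_sub, map_X, map_C, eval_sub, eval_X, eval_C]
    rfl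
  rw [Finset.prod_congr rfl h4] at h2
  have h5 : S.N (g ϖ - ϖ) = (∏ θ ∈ R, S.N (g θ - ϖ')) * S.N ((Q.map (g : Ω →+* Ω)).eval ϖ') := by
    have h6 : S.N (g ϖ - ϖ) = S.N (ϖ - g ϖ) := S.N.map_sub _ _
    rw [h6]
    have h7 : ϖ - g ϖ = (∏ θ ∈ R, (ϖ' - g θ)) * (Q.map (g : Ω →+* Ω)).eval ϖ' := h2
    rw [h7, map_mul, map_prod]
    congr 1
    exact Finset.prod_congr rfl fun θ _ => S.N.map_sub _ _
  rw [h5]
  refine mul_le_of_le_one_right (Finset.prod_nonneg fun θ _ => S.N.nonneg _) ?_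
  refine na_eval_le S.nonarch zero_le_one (fun i => ?_) h'.lt.le
  rw [coeff_map]
  have h8 := S.inv g (Q.coeff i)
  calc S.N ((g : Ω →+* Ω) (Q.coeff i)) = S.N (Q.coeff i) := h8
    _ ≤ 1 := hQ i

/-- **Y2c** (Herbrand) -/
theorem herb_ge {S : SLoc U Ω} {E E' : IntermediateField U Ω} [FiniteDimensional U E] [FiniteDimensional U E']
    (hE : E ≤ E') {ϖ ϖ' : Ω} (h : Unif S E ϖ) (h' : Unif S E' ϖ') (g : Ω ≃ₐ[U] Ω) (R : Finset Ω)
    (hR : ∀ θ, θ ∈ R ↔ ∃ u : Ω ≃ₐ[U] Ω, (∀ x ∈ E, u x = x) ∧ u ϖ' = θ) :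
    ∏ θ ∈ R, S.N (g θ - ϖ') ≤ S.N (g ϖ - ϖ) := by
  classical
  have hcl : IsAlgClosure U Ω := ⟨inferInstance, inferInstance⟩
  have hnor : Normal U Ω := IsAlgClosure.normal U Ω
  have hgal : IsGalois U Ω := ⟨⟩
  have hR1 : ∀ θ ∈ R, S.N θ ≤ 1 := by
    intro θ hθ
    obtain ⟨u, -, rfl⟩ := (hR θ).1 hθ
    exact h'.aut_le u
  set f : Polynomial Ω := ∏ θ ∈ R, (X - C θ) with hf
  have hfi : ∀ i, S.N (f.coeff i) ≤ 1 := na_prod_coeff S.nonarch R hR1
  have hfE : ∀ i, f.coeff i ∈ E := by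
    intro i
    rw [← InfiniteGalois.fixedField_fixingSubgroup E, IntermediateField.mem_fixedField_iff]
    intro u hu
    have hu' : ∀ x ∈ E, u x = x := (IntermediateField.mem_fixingSubgroup_iff E u).1 hu
    have himg : R.image u = R := by
      refine Finset.eq_of_subset_of_card_le ?_ ?_
      · intro θ hθ
        obtain ⟨θ', hθ', rfl⟩ := Finset.mem_image.1 hθ
        obtain ⟨v, hv, rfl⟩ := (hR θ').1 hθ'
        refine (hR _).2 ⟨v.trans u, fun x hx => ?_, rfl⟩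
        show u (v x) = x
        rw [hv x hx, hu' x hx]
      · rw [Finset.card_image_of_injective _ u.injective]
    have hmap : f.map (u : Ω →+* Ω) = f := by
      rw [hf, Polynomial.map_prod]
      conv_rhs => rw [← himg]
      rw [Finset.prod_image (fun a _ b _ hab => u.injective hab)]
      refine Finset.prod_congr rfl fun θ _ => ?_
      rw [Polynomial.map_sub, map_X, map_C]
      rfl
    have h1 := congrArg (fun P => P.coeff i) hmap
    beta_reduce at h1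
    rw [coeff_map] at h1
    exact h1
  have hroot : f.eval ϖ' = 0 := by
    rw [hf, eval_prod]
    refine Finset.prod_eq_zero ((hR ϖ').2 ⟨AlgEquiv.refl, fun x _ => rfl, rfl⟩) ?_
    rw [eval_sub, eval_X, eval_C, sub_self]
  have h1 : ∏ θ ∈ R, S.N (g θ - ϖ') = S.N ((f.map (g : Ω →+* Ω) - f).eval ϖ') := by
    rw [eval_sub, hroot, sub_zero, hf, Polynomial.map_prod, eval_prod, map_prod]
    refine Finset.prod_congr rfl fun θ _ => ?_
    rw [Polynomial.map_sub, map_X, map_C, eval_sub, eval_X, eval_C, S.N.map_sub]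
    rfl
  rw [h1]
  refine na_eval_le S.nonarch (S.N.nonneg _) (fun i => ?_) h'.lt.le
  rw [coeff_sub, coeff_map]
  exact h.sub_le (hfE i) (hfi i) g

end sloc

end Pool.Agent.ORB.WP
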