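import Pool.Agent.ORB.YDefs
import Pool.Agent.ORB.NRigid

/-!
ORB, Theorem W, row Y4: the conjugates of the uniformizers along a tower.
-/

set_option autoImplicit false

namespace Pool.Agent.ORB.WP

open Polynomial NI GP NumberField IsDedekindDomain IntermediateField

universe u

section

variable {U Ω : Type*} [Field U] [Field Ω] [Algebra U Ω]

/-- an automorphism which fixes `y` fixes `U(y)` -/
theorem fix_adjoin {y : Ω} {τ : Ω ≃ₐ[U] Ω} (h : τ y = y) {x : Ω} (hx : x ∈ U⟮y⟯) : τ x = x := by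
  induction hx using adjoin_induction with
  | mem x hx =>
    rw [Set.mem_singleton_iff] at hx
    rw [hx, h]
  | algebraMap x => exact τ.commutes x
  | add x y _ _ hx hy => rw [map_add, hx, hy]
  | inv x _ hx => rw [map_inv₀, hx]
  | mul x y _ _ hx hy => rw [map_mul, hx, hy]

theorem vv_le_iff (N : AbsoluteValue Ω ℝ) {x : Ω} (hx : x ≠ 0) (t : ℝ) : vv N x ≤ t ↔ Real.exp (-t) ≤ N x := by
  have h0 : 0 < N x := N.pos hx
  unfold vv
  rw [← Real.le_log_iff_exp_le h0]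
  constructor <;> intro h <;> linarith

theorem le_vv_iff (N : AbsoluteValue Ω ℝ) {x : Ω} (hx : x ≠ 0) (t : ℝ) : t ≤ vv N x ↔ N x ≤ Real.exp (-t) := by
  have h0 : 0 < N x := N.pos hx
  unfold vv
  rw [← Real.log_le_iff_le_exp h0]
  constructor <;> intro h <;> linarith

end

section

variable {U Ω : Type*} [Field U] [Field Ω] [Algebra U Ω] [CharZero U] [IsAlgClosed Ω] [Algebra.IsAlgebraic U Ω]

/-- an automorphism over `U(y)` which moves `z` -/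
theorem exists_move {y z : Ω} (h : z ∉ U⟮y⟯) : ∃ τ : Ω ≃ₐ[U] Ω, τ y = y ∧ τ z ≠ z := by
  have := rg_isGalois (F := U) (Ω := Ω)
  rw [← InfiniteGalois.fixedField_fixingSubgroup U⟮y⟯, IntermediateField.mem_fixedField_iff] at h
  push Not at h
  obtain ⟨τ, h1, h2⟩ := h
  exact ⟨τ, (IntermediateField.mem_fixingSubgroup_iff _ τ).1 h1 y (mem_adjoin_simple_self U y), h2⟩

/-- the degree grows: the next point is new -/
theorem not_mem_of_deg {p : ℕ} (hp : p.Prime) {y z : Ω} (hyz : y ∈ U⟮z⟯)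
    (hdeg : Module.finrank U U⟮z⟯ = p * Module.finrank U U⟮y⟯) : z ∉ U⟮y⟯ := by
  intro hz
  have h1 : U⟮z⟯ ≤ U⟮y⟯ := by
    rw [adjoin_le_iff, Set.singleton_subset_iff]
    exact hz
  have h2 : U⟮y⟯ ≤ U⟮z⟯ := by
    rw [adjoin_le_iff, Set.singleton_subset_iff]
    exact hyz
  have h3 : U⟮y⟯ = U⟮z⟯ := le_antisymm h2 h1
  have hfd : FiniteDimensional U U⟮y⟯ := adjoin.finiteDimensional (Algebra.IsIntegral.isIntegral y)
  have h4 : 0 < Module.finrank U U⟮y⟯ := Module.finrank_pos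
  rw [← h3] at hdeg
  have h5 := hp.two_le
  nlinarith

/-- **Y4**, with the properties Y1a, Y2a, Y3c of the fields `U(y n)` as hypotheses -/
theorem kappa_of {S : SLoc U Ω} {p : ℕ} (hp : p.Prime) (y : ℕ → Ω)
    (hmono : ∀ n, y n ∈ U⟮y (n + 1)⟯) (hnot : ∀ n, y (n + 1) ∉ U⟮y n⟯) (hint : ∀ n, S.N (y n) ≤ 1)
    {δ Δ : ℝ} (hδ : 0 < δ) (hle : δ ≤ Δ) (hΔ : 2 * Δ ≤ p * δ)
    (hup : ∀ (σ : Ω ≃ₐ[U] Ω) (n k : ℕ), σ (y n) ≠ y n → vv S.N (σ (y (n + k)) - y (n + k)) ≤ Δ / p ^ k)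
    (hlow : ∀ (σ : Ω ≃ₐ[U] Ω) (n k : ℕ), σ (y n) = y n → σ (y (n + 1)) ≠ y (n + 1) →
      δ / p ^ k ≤ vv S.N (σ (y (n + 1 + k)) - y (n + 1 + k)))
    (hfin : ∃ k, ∀ x ∈ U⟮y 0⟯, y k ≠ x ∧ vv S.N (y k - x) ≤ Δ / p ^ k)
    (hunif : ∀ n, ∃ ϖ : Ω, Unif S U⟮y n⟯ ϖ)
    (hsub : ∀ (n : ℕ) (ϖ : Ω), Unif S U⟮y n⟯ ϖ → ∀ x ∈ U⟮y n⟯, S.N x ≤ 1 → ∀ g : Ω ≃ₐ[U] Ω,
      S.N (g x - x) ≤ S.N (g ϖ - ϖ))
    (hbest : ∀ (n : ℕ) (ϖ' : Ω), Unif S U⟮y (n + 1)⟯ ϖ' → ∀ x ∈ U⟮y (n + 1)⟯, x ∉ U⟮y n⟯ → ∃ a ∈ U⟮y n⟯,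
      ∀ τ : Ω ≃ₐ[U] Ω, (∀ x ∈ U⟮y n⟯, τ x = x) → S.N (τ x - x) * S.N ϖ' = S.N (x - a) * S.N (τ ϖ' - ϖ')) :
    ∃ n₀ : ℕ, ∀ n, n₀ ≤ n → ∀ ϖ ϖ' : Ω, Unif S U⟮y n⟯ ϖ → Unif S U⟮y (n + 1)⟯ ϖ' → ∀ σ τ : Ω ≃ₐ[U] Ω,
      σ (y n) ≠ y n → τ (y n) = y n → τ (y (n + 1)) ≠ y (n + 1) → S.N (τ ϖ' - ϖ') ^ p < S.N (σ ϖ - ϖ) := by
  classical
  have hp0 : (0 : ℝ) < p := by exact_mod_cast hp.pos
  have hp1 : (1 : ℝ) ≤ p := by exact_mod_cast hp.one_le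
  have hΔ0 : 0 < Δ := lt_of_lt_of_le hδ hle
  -- the points of lower levels
  have hmem : ∀ n k, y n ∈ U⟮y (n + k)⟯ := by
    intro n k
    induction k with
    | zero => exact mem_adjoin_simple_self U _
    | succ k ih =>
      have h1 : U⟮y (n + k)⟯ ≤ U⟮y (n + (k + 1))⟯ := by
        rw [adjoin_le_iff, Set.singleton_subset_iff]
        exact hmono (n + k)
      exact h1 ih
  have hmove : ∀ (σ : Ω ≃ₐ[U] Ω) (n k : ℕ), σ (y n) ≠ y n → σ (y (n + k)) - y (n + k) ≠ 0 := by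
    intro σ n k h1 h2
    exact h1 (fix_adjoin (sub_eq_zero.1 h2) (hmem n k))
  have hup' : ∀ (σ : Ω ≃ₐ[U] Ω) (n k : ℕ), σ (y n) ≠ y n →
      Real.exp (-(Δ / p ^ k)) ≤ S.N (σ (y (n + k)) - y (n + k)) := fun σ n k h1 =>
    (vv_le_iff S.N (hmove σ n k h1) _).1 (hup σ n k h1)
  have hlow' : ∀ (σ : Ω ≃ₐ[U] Ω) (n k : ℕ), σ (y n) = y n → σ (y (n + 1)) ≠ y (n + 1) →
      S.N (σ (y (n + 1 + k)) - y (n + 1 + k)) ≤ Real.exp (-(δ / p ^ k)) := fun σ n k h1 h2 =>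
    (le_vv_iff S.N (hmove σ (n + 1) k h2) _).1 (hlow σ n k h1 h2)
  -- the element `y (n + k)` has a good approximation in `U(y n)`
  let C : ℕ → ℕ → Prop := fun k n => ∃ x ∈ U⟮y n⟯, S.N (y (n + k) - x) < Real.exp (-(Δ / p ^ k))
  have hneg : ∀ x : Ω, S.N (-x) = S.N x := fun x => S.N.map_neg x
  have hsubm : ∀ x y : Ω, S.N (x - y) ≤ max (S.N x) (S.N y) := by
    intro x y
    rw [sub_eq_add_neg, ← hneg y]
    exact S.nonarch _ _
  have hCint : ∀ k n, ∀ x : Ω, S.N (y (n + k) - x) < Real.exp (-(Δ / p ^ k)) → S.N x ≤ 1 := by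
    intro k n x hx
    have h1 : Real.exp (-(Δ / p ^ k)) ≤ 1 := by
      rw [Real.exp_le_one_iff]
      have : 0 ≤ Δ / (p : ℝ) ^ k := by positivity
      linarith
    have h2 : x = y (n + k) - (y (n + k) - x) := by ring
    rw [h2]
    exact (hsubm _ _).trans (max_le (hint _) (hx.le.trans h1))
  have hmv : ∀ (g : Ω ≃ₐ[U] Ω) (a x : Ω), S.N (g (a - x) - (a - x)) ≤ S.N (a - x) := by
    intro g a x
    refine (hsubm _ _).trans (max_le ?_ le_rfl)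
    rw [S.inv]
  -- (1)
  have one : ∀ k n, C k n → ∀ σ : Ω ≃ₐ[U] Ω, σ (y n) ≠ y n → ∀ ϖ : Ω, Unif S U⟮y n⟯ ϖ →
      Real.exp (-(Δ / p ^ k)) ≤ S.N (σ ϖ - ϖ) := by
    rintro k n ⟨x, hx, hxy⟩ σ hσ ϖ hϖ
    refine le_trans ?_ (hsub n ϖ hϖ x hx (hCint k n x hxy) σ)
    have h1 := hup' σ n k hσ
    by_contra hlt
    push Not at hlt
    have h2 : σ (y (n + k)) - y (n + k) = (σ (y (n + k) - x) - (y (n + k) - x)) + (σ x - x) := by
      rw [map_sub]; ring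
    have h3 : S.N (σ (y (n + k)) - y (n + k)) < Real.exp (-(Δ / p ^ k)) := by
      rw [h2]
      exact lt_of_le_of_lt (S.nonarch _ _) (max_lt (lt_of_le_of_lt (hmv _ _ _) hxy) hlt)
    exact absurd h1 (not_le.2 h3)
  -- (2)
  have two : ∀ k n, C k (n + 1) → ∀ τ : Ω ≃ₐ[U] Ω, τ (y n) = y n → τ (y (n + 1)) ≠ y (n + 1) → ∀ ϖ' : Ω,
      Unif S U⟮y (n + 1)⟯ ϖ' → Real.exp (-(δ / p ^ k - Δ / p ^ (k + 1))) ≤ S.N (τ ϖ' - ϖ') → C (k + 1) n := by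
    rintro k n ⟨x, hx, hxy⟩ τ hτ1 hτ2 ϖ' hϖ' hJ
    have hmon : Real.exp (-(Δ / p ^ k)) ≤ Real.exp (-(Δ / p ^ (k + 1))) := by
      rw [Real.exp_le_exp]
      have : Δ / (p : ℝ) ^ (k + 1) ≤ Δ / (p : ℝ) ^ k :=
        div_le_div_of_nonneg_left hΔ0.le (by positivity) (pow_le_pow_right₀ hp1 (by omega))
      linarith
    have hidx : n + (k + 1) = n + 1 + k := by ring
    show ∃ x ∈ U⟮y n⟯, S.N (y (n + (k + 1)) - x) < Real.exp (-(Δ / p ^ (k + 1)))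
    rw [hidx]
    by_cases hxn : x ∈ U⟮y n⟯
    · exact ⟨x, hxn, lt_of_lt_of_le hxy hmon⟩
    obtain ⟨a, ha, hbest'⟩ := hbest n ϖ' hϖ' x hx hxn
    have h1 := hbest' τ fun z hz => fix_adjoin hτ1 hz
    have h2 : S.N (τ x - x) ≤ Real.exp (-(δ / p ^ k)) := by
      have h3 : τ x - x = (τ (y (n + 1 + k)) - y (n + 1 + k)) -
          (τ (y (n + 1 + k) - x) - (y (n + 1 + k) - x)) := by
        rw [map_sub]; ring
      rw [h3]
      refine (hsubm _ _).trans (max_le (hlow' τ n k hτ1 hτ2) ((hmv _ _ _).trans (hxy.le.trans ?_)))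
      rw [Real.exp_le_exp]
      have : δ / (p : ℝ) ^ k ≤ Δ / (p : ℝ) ^ k := div_le_div_of_nonneg_right hle (by positivity)
      linarith
    have h4 : S.N (x - a) < Real.exp (-(Δ / p ^ (k + 1))) := by
      by_contra hge
      push Not at hge
      have h5 : Real.exp (-(Δ / p ^ (k + 1))) * Real.exp (-(δ / p ^ k - Δ / p ^ (k + 1))) ≤
          S.N (x - a) * S.N (τ ϖ' - ϖ') :=
        mul_le_mul hge hJ (Real.exp_pos _).le (S.N.nonneg _)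
      rw [← h1, ← Real.exp_add] at h5
      have h6 : -(Δ / (p : ℝ) ^ (k + 1)) + -(δ / p ^ k - Δ / p ^ (k + 1)) = -(δ / p ^ k) := by ring
      rw [h6] at h5
      have h7 : S.N (τ x - x) * S.N ϖ' < Real.exp (-(δ / p ^ k)) := by
        have h8 : S.N (τ x - x) * S.N ϖ' ≤ Real.exp (-(δ / p ^ k)) * S.N ϖ' :=
          mul_le_mul_of_nonneg_right h2 (S.N.nonneg _)
        have h9 : Real.exp (-(δ / p ^ k)) * S.N ϖ' < Real.exp (-(δ / p ^ k)) * 1 :=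
          mul_lt_mul_of_pos_left hϖ'.lt (Real.exp_pos _)
        linarith
      exact absurd h5 (not_le.2 h7)
    refine ⟨a, ha, ?_⟩
    have h5 : y (n + 1 + k) - a = (y (n + 1 + k) - x) + (x - a) := by ring
    rw [h5]
    exact lt_of_le_of_lt (S.nonarch _ _) (max_lt (lt_of_lt_of_le hxy hmon) h4)
  -- (3)
  have three : ∀ j n, C (j + 1) (n + 1) → C j (n + 1) → C (j + 1) n := by
    intro j n h1 h2
    obtain ⟨τ, hτ1, hτ2⟩ := exists_move (hnot n)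
    obtain ⟨ϖ', hϖ'⟩ := hunif (n + 1)
    refine two j n h2 τ hτ1 hτ2 ϖ' hϖ' (le_trans ?_ (one (j + 1) (n + 1) h1 τ hτ2 ϖ' hϖ'))
    rw [Real.exp_le_exp]
    have h3 : Δ / (p : ℝ) ^ (j + 1) + Δ / (p : ℝ) ^ (j + 1) ≤ δ / (p : ℝ) ^ j := by
      rw [← add_div, pow_succ, ← div_div, div_le_iff₀ hp0]
      have h4 : (Δ + Δ) / (p : ℝ) ^ j ≤ (p * δ) / (p : ℝ) ^ j := by
        apply div_le_div_of_nonneg_right _ (by positivity)
        linarith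
      calc (Δ + Δ) / (p : ℝ) ^ j ≤ (p * δ) / (p : ℝ) ^ j := h4
        _ = δ / (p : ℝ) ^ j * p := by ring
    linarith
  have hC0 : ∀ n, C 0 n := fun n => ⟨y n, mem_adjoin_simple_self U _, by
    rw [Nat.add_zero, sub_self, map_zero]; exact Real.exp_pos _⟩
  have hex : ∀ n, ∃ k, ¬ C k n := by
    intro n
    induction n with
    | zero =>
      obtain ⟨k, hk⟩ := hfin
      refine ⟨k, ?_⟩
      rintro ⟨x, hx, hxy⟩
      rw [Nat.zero_add] at hxy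
      obtain ⟨h1, h2⟩ := hk x hx
      exact absurd ((vv_le_iff S.N (sub_ne_zero.2 h1) _).1 h2) (not_le.2 hxy)
    | succ n ih =>
      obtain ⟨k, hk⟩ := ih
      rcases k with _ | j
      · exact absurd (hC0 n) hk
      · by_contra hall
        push Not at hall
        exact hk (three j n (hall _) (hall _))
  set f : ℕ → ℕ := fun n => Nat.find (hex n) with hf
  have hf1 : ∀ n, 1 ≤ f n := by
    intro n
    rw [Nat.one_le_iff_ne_zero]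
    intro h0
    have h1 : ¬ C (f n) n := Nat.find_spec (hex n)
    rw [h0] at h1
    exact h1 (hC0 n)
  have hanti : ∀ n, f (n + 1) ≤ f n := by
    intro n
    obtain ⟨j, hj⟩ : ∃ j, f n = j + 1 := ⟨f n - 1, by have := hf1 n; omega⟩
    have h1 : ¬ C (j + 1) n := by rw [← hj]; exact Nat.find_spec (hex n)
    by_cases h2 : C (j + 1) (n + 1)
    · have h3 : ¬ C j (n + 1) := fun h3 => h1 (three j n h2 h3)
      have h4 : f (n + 1) ≤ j := Nat.find_le h3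
      omega
    · have h4 : f (n + 1) ≤ j + 1 := Nat.find_le h2
      omega
  have hA : Antitone f := antitone_nat_of_succ_le hanti
  obtain ⟨n₀, hn₀⟩ : ∃ n₀, ∀ n, n₀ ≤ n → f n = f n₀ := by
    obtain ⟨n₀, hn₀⟩ := Nat.sInf_mem (Set.range_nonempty f)
    exact ⟨n₀, fun n hn => le_antisymm (hA hn) (hn₀.trans_le (Nat.sInf_le ⟨n, rfl⟩))⟩
  refine ⟨n₀, fun n hn ϖ ϖ' hϖ hϖ' σ τ hσ hτ1 hτ2 => ?_⟩
  obtain ⟨j, hj⟩ : ∃ j, f n = j + 1 := ⟨f n - 1, by have := hf1 n; omega⟩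
  have hj' : f (n + 1) = j + 1 := by rw [hn₀ (n + 1) (by omega), ← hn₀ n hn, hj]
  have h1 : C j n := by
    by_contra h
    have := Nat.find_le (h := hex n) h
    have h2 : f n ≤ j := this
    omega
  have h2 : C j (n + 1) := by
    by_contra h
    have := Nat.find_le (h := hex (n + 1)) h
    have h2 : f (n + 1) ≤ j := this
    omega
  have h3 : ¬ C (j + 1) n := by rw [← hj]; exact Nat.find_spec (hex n)
  have h4 : S.N (τ ϖ' - ϖ') < Real.exp (-(δ / p ^ j - Δ / p ^ (j + 1))) := by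
    by_contra hge
    push Not at hge
    exact h3 (two j n h2 τ hτ1 hτ2 ϖ' hϖ' hge)
  refine lt_of_lt_of_le (pow_lt_pow_left₀ h4 (S.N.nonneg _) hp.ne_zero) (le_trans ?_ (one j n h1 σ hσ ϖ hϖ))
  rw [← Real.exp_nat_mul, Real.exp_le_exp]
  have h5 : (p : ℝ) * (Δ / (p : ℝ) ^ (j + 1)) = Δ / (p : ℝ) ^ j := by
    rw [pow_succ]; field_simp
  have h6 : Δ / (p : ℝ) ^ j + Δ / (p : ℝ) ^ j ≤ p * (δ / (p : ℝ) ^ j) := by
    rw [← add_div, ← mul_div_assoc]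
    apply div_le_div_of_nonneg_right _ (by positivity)
    linarith
  have h7 : (p : ℝ) * -(δ / (p : ℝ) ^ j - Δ / (p : ℝ) ^ (j + 1)) =
      -(p * (δ / (p : ℝ) ^ j)) + p * (Δ / (p : ℝ) ^ (j + 1)) := by ring
  rw [h7, h5]
  linarith

end

end Pool.Agent.ORB.WP
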