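import Pool.Agent.ORB.YHerb

/-!
ORB, Theorem W, row Y5: an automorphism which moves the uniformizer of a normal field as little as possible fixes `y`.

-/

set_option autoImplicit false

namespace Pool.Agent.ORB.WP

open Polynomial NI GP IntermediateField

section fixes
variable {U Ω : Type*} [Field U] [Field Ω] [Algebra U Ω]

/-- fixing a generator -/
theorem fix_adjoin_iff {u : Ω ≃ₐ[U] Ω} {y : Ω} : (∀ x ∈ U⟮y⟯, u x = x) ↔ u y = y := by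
  constructor
  · intro h
    exact h y (mem_adjoin_simple_self U y)
  · intro h x hx
    induction hx using IntermediateField.adjoin_induction with
    | mem x hx =>
      rw [Set.mem_singleton_iff] at hx
      rw [hx, h]
    | algebraMap x => exact u.commutes x
    | add x z _ _ hx hz => rw [map_add, hx, hz]
    | inv x _ hx => rw [map_inv₀, hx]
    | mul x z _ _ hx hz => rw [map_mul, hx, hz]

/-- the orbit of a point under a set of automorphisms is finite -/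
theorem aut_orbit_finite [Algebra.IsAlgebraic U Ω] (P : (Ω ≃ₐ[U] Ω) → Prop) (x : Ω) :
    {θ : Ω | ∃ u : Ω ≃ₐ[U] Ω, P u ∧ u x = θ}.Finite := by
  have hx : IsIntegral U x := Algebra.IsIntegral.isIntegral x
  refine Set.Finite.subset ((minpoly U x).rootSet_finite Ω) ?_
  rintro θ ⟨u, _, rfl⟩
  rw [mem_rootSet]
  refine ⟨minpoly.ne_zero hx, ?_⟩
  have h1 : u (aeval x (minpoly U x)) = aeval (u x) (minpoly U x) := by
    have := Polynomial.aeval_algHom_apply (u : Ω →ₐ[U] Ω) x (minpoly U x)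
    simpa using this.symm
  rw [← h1, minpoly.aeval, map_zero]

end fixes

section main
variable {U Ω : Type*} [Field U] [Field Ω] [Algebra U Ω] [CharZero U] [IsAlgClosed Ω] [Algebra.IsAlgebraic U Ω]

omit [CharZero U] [IsAlgClosed Ω] [Algebra.IsAlgebraic U Ω] in
/-- an automorphism which fixes a uniformizer fixes the field -/
theorem fix_of_unif {S : SLoc U Ω} {M : IntermediateField U Ω} {ϖ : Ω}
    (hpoly : ∀ x ∈ M, S.N x ≤ 1 →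
      ∃ q : U[X], (∀ i, S.N (algebraMap U Ω (q.coeff i)) ≤ 1) ∧ aeval ϖ q = x)
    {u : Ω ≃ₐ[U] Ω} (hu : u ϖ = ϖ) {x : Ω} (hx : x ∈ M) : u x = x := by
  have key : ∀ x ∈ M, S.N x ≤ 1 → u x = x := by
    intro x hx h1
    obtain ⟨q, -, rfl⟩ := hpoly x hx h1
    have := Polynomial.aeval_algHom_apply (u : Ω →ₐ[U] Ω) ϖ q
    have h2 : u (aeval ϖ q) = aeval (u ϖ) q := by simpa using this.symm
    rw [h2, hu]
  by_cases h1 : S.N x ≤ 1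
  · exact key x hx h1
  · have h2 : S.N x⁻¹ ≤ 1 := by
      rw [map_inv₀]
      exact inv_le_one_of_one_le₀ (not_le.1 h1).le
    have h3 := key x⁻¹ (M.inv_mem hx) h2
    rw [map_inv₀, inv_inj] at h3
    exact h3

/-- **Y5**, the rows Y1 and Y2 are hypotheses -/
theorem min_fixes_of {S : SLoc U Ω}
    (hunif : ∀ (E : IntermediateField U Ω), FiniteDimensional U E → ∃ ϖ : Ω, Unif S E ϖ)
    (hpoly : ∀ (E : IntermediateField U Ω), FiniteDimensional U E → ∀ ϖ : Ω, Unif S E ϖ → ∀ x ∈ E, S.N x ≤ 1 →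
      ∃ q : U[X], (∀ i, S.N (algebraMap U Ω (q.coeff i)) ≤ 1) ∧ aeval ϖ q = x)
    (hsub : ∀ (E : IntermediateField U Ω), FiniteDimensional U E → ∀ ϖ : Ω, Unif S E ϖ → ∀ x ∈ E, S.N x ≤ 1 →
      ∀ g : Ω ≃ₐ[U] Ω, S.N (g x - x) ≤ S.N (g ϖ - ϖ))
    (hle : ∀ (E E' : IntermediateField U Ω), FiniteDimensional U E → FiniteDimensional U E' → E ≤ E' →
      ∀ ϖ ϖ' : Ω, Unif S E ϖ → Unif S E' ϖ' → ∀ (g : Ω ≃ₐ[U] Ω) (R : Finset Ω),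
      (∀ θ, θ ∈ R ↔ ∃ u : Ω ≃ₐ[U] Ω, (∀ x ∈ E, u x = x) ∧ u ϖ' = θ) →
      S.N (g ϖ - ϖ) ≤ ∏ θ ∈ R, S.N (g θ - ϖ'))
    (hge : ∀ (E E' : IntermediateField U Ω), FiniteDimensional U E → FiniteDimensional U E' → E ≤ E' →
      ∀ ϖ ϖ' : Ω, Unif S E ϖ → Unif S E' ϖ' → ∀ (g : Ω ≃ₐ[U] Ω) (R : Finset Ω),
      (∀ θ, θ ∈ R ↔ ∃ u : Ω ≃ₐ[U] Ω, (∀ x ∈ E, u x = x) ∧ u ϖ' = θ) →
      ∏ θ ∈ R, S.N (g θ - ϖ') ≤ S.N (g ϖ - ϖ))
    {M : IntermediateField U Ω} [FiniteDimensional U M]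
    (hM : ∀ (g : Ω ≃ₐ[U] Ω), ∀ x ∈ M, g x ∈ M) {ϖ : Ω} (hϖ : Unif S M ϖ) (σ₀ : Ω ≃ₐ[U] Ω) (_h0 : σ₀ ϖ ≠ ϖ)
    (hmin : ∀ σ : Ω ≃ₐ[U] Ω, σ ϖ ≠ ϖ → S.N (σ₀ ϖ - ϖ) ≤ S.N (σ ϖ - ϖ)) {y z : Ω} (hyz : y ∈ U⟮z⟯) (hz : z ∈ M)
    {p : ℕ} (hp : 2 ≤ p) (C : Finset Ω) (hC : ∀ x, x ∈ C ↔ ∃ τ : Ω ≃ₐ[U] Ω, τ y = y ∧ τ z = x) (hCp : C.card = p)
    (hstar : ∀ ϖy ϖz : Ω, Unif S U⟮y⟯ ϖy → Unif S U⟮z⟯ ϖz → ∀ σ τ : Ω ≃ₐ[U] Ω, σ y ≠ y → τ y = y → τ z ≠ z →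
      S.N (τ ϖz - ϖz) ^ p < S.N (σ ϖy - ϖy)) : σ₀ y = y := by
  classical
  by_contra hσ
  -- fields
  have hint : ∀ x : Ω, IsIntegral U x := fun x => Algebra.IsIntegral.isIntegral x
  have fy : FiniteDimensional U U⟮y⟯ := adjoin.finiteDimensional (hint y)
  have fz : FiniteDimensional U U⟮z⟯ := adjoin.finiteDimensional (hint z)
  have hyz' : U⟮y⟯ ≤ U⟮z⟯ := adjoin_simple_le_iff.2 hyz
  have hzM : U⟮z⟯ ≤ M := adjoin_simple_le_iff.2 hz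
  have hyM : U⟮y⟯ ≤ M := hyz'.trans hzM
  have fM : FiniteDimensional U M := inferInstance
  obtain ⟨ϖy, hϖy⟩ := hunif _ fy
  obtain ⟨ϖz, hϖz⟩ := hunif _ fz
  have hst := hstar ϖy ϖz hϖy hϖz
  -- automorphisms which fix `z` fix `y`
  have hzy : ∀ u : Ω ≃ₐ[U] Ω, u z = z → u y = y := fun u hu => (fix_adjoin_iff.2 hu) y hyz
  have hN1 : S.N ϖ ≤ 1 := hϖ.lt.le
  have hNpos : ∀ x : Ω, 0 ≤ S.N x := fun x => S.N.nonneg x
  -- the orbits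
  have hRyf := aut_orbit_finite (U := U) (fun u => u y = y) ϖ
  have hRzf := aut_orbit_finite (U := U) (fun u => u z = z) ϖ
  set Ry := hRyf.toFinset with hRy
  set Rz := hRzf.toFinset with hRz
  have mRy : ∀ θ, θ ∈ Ry ↔ ∃ u : Ω ≃ₐ[U] Ω, u y = y ∧ u ϖ = θ := by
    intro θ; rw [hRy, Set.Finite.mem_toFinset]; rfl
  have mRz : ∀ θ, θ ∈ Rz ↔ ∃ u : Ω ≃ₐ[U] Ω, u z = z ∧ u ϖ = θ := by
    intro θ; rw [hRz, Set.Finite.mem_toFinset]; rfl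
  have mRy' : ∀ θ, θ ∈ Ry ↔ ∃ u : Ω ≃ₐ[U] Ω, (∀ x ∈ U⟮y⟯, u x = x) ∧ u ϖ = θ := by
    intro θ; rw [mRy]
    exact exists_congr fun u => by rw [fix_adjoin_iff]
  have mRz' : ∀ θ, θ ∈ Rz ↔ ∃ u : Ω ≃ₐ[U] Ω, (∀ x ∈ U⟮z⟯, u x = x) ∧ u ϖ = θ := by
    intro θ; rw [mRz]
    exact exists_congr fun u => by rw [fix_adjoin_iff]
  have hRzy : Rz ⊆ Ry := by
    intro θ hθ
    obtain ⟨u, hu, rfl⟩ := (mRz θ).1 hθ
    exact (mRy _).2 ⟨u, hzy u hu, rfl⟩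
  have hϖRz : ϖ ∈ Rz := (mRz ϖ).2 ⟨1, rfl, rfl⟩
  have hϖRy : ϖ ∈ Ry := hRzy hϖRz
  set n0 := S.N (σ₀ ϖ - ϖ) with hn0
  -- elements of the orbit are integral elements of `M`
  have hmemM : ∀ u : Ω ≃ₐ[U] Ω, u ϖ ∈ M := fun u => hM u ϖ hϖ.mem
  have hintM : ∀ u : Ω ≃ₐ[U] Ω, S.N (u ϖ) ≤ 1 := fun u => by rw [S.inv]; exact hN1
  -- the ultrametric inequality in the form we need
  have hultra : ∀ a b c : Ω, S.N (a - b) ≤ max (S.N (c - a)) (S.N (c - b)) := by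
    intro a b c
    have e : a - b = (a - c) + (c - b) := by ring
    rw [e]
    refine (S.nonarch _ _).trans ?_
    rw [← S.N.map_neg (a - c), neg_sub]
  -- the first estimate
  have hfirst : S.N (σ₀ ϖy - ϖy) ≤ n0 * ∏ θ ∈ Ry.erase ϖ, S.N (θ - ϖ) := by
    refine (hle _ _ fy fM hyM ϖy ϖ hϖy hϖ σ₀ Ry mRy').trans ?_
    rw [← Finset.mul_prod_erase Ry (fun θ => S.N (σ₀ θ - ϖ)) hϖRy]
    refine mul_le_mul_of_nonneg_left ?_ (hNpos _)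
    refine Finset.prod_le_prod (fun θ _ => hNpos _) fun θ hθ => ?_
    rw [Finset.mem_erase] at hθ
    obtain ⟨u, hu, rfl⟩ := (mRy _).1 hθ.2
    have h1 : S.N (σ₀ (u ϖ) - u ϖ) ≤ n0 := hsub M fM ϖ hϖ (u ϖ) (hmemM u) (hintM u) σ₀
    have h2 : n0 ≤ S.N (u ϖ - ϖ) := hmin u hθ.1
    have h3 : S.N (σ₀ (u ϖ) - ϖ) ≤ max (S.N (σ₀ (u ϖ) - u ϖ)) (S.N (u ϖ - ϖ)) := by
      have e : σ₀ (u ϖ) - ϖ = (σ₀ (u ϖ) - u ϖ) + (u ϖ - ϖ) := by ring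
      rw [e]
      exact S.nonarch _ _
    exact h3.trans (max_le (h1.trans h2) le_rfl)
  -- choice of automorphisms for the points of `C`
  have hchoose : ∀ c, ∃ τ : Ω ≃ₐ[U] Ω, c ∈ C → τ y = y ∧ τ z = c := by
    intro c
    by_cases hc : c ∈ C
    · obtain ⟨τ, h1, h2⟩ := (hC c).1 hc
      exact ⟨τ, fun _ => ⟨h1, h2⟩⟩
    · exact ⟨1, fun h => absurd h hc⟩
  choose τ hτ using hchoose
  have hzC : z ∈ C := (hC z).2 ⟨1, rfl, rfl⟩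
  obtain ⟨c0, hc0, hc0z⟩ : ∃ c ∈ C, c ≠ z := by
    have h1 : 1 < C.card := by omega
    obtain ⟨a, ha, b, hb, hab⟩ := Finset.one_lt_card.1 h1
    by_cases haz : a = z
    · exact ⟨b, hb, fun h => hab (haz.trans h.symm)⟩
    · exact ⟨a, ha, haz⟩
  -- the parts
  have hpart : Ry = C.biUnion fun c => Rz.image (τ c) := by
    ext θ
    rw [Finset.mem_biUnion, mRy]
    constructor
    · rintro ⟨g, hg, rfl⟩
      have hgz : g z ∈ C := (hC _).2 ⟨g, hg, rfl⟩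
      refine ⟨g z, hgz, Finset.mem_image.2 ⟨(τ (g z)).symm (g ϖ), (mRz _).2 ⟨g.trans (τ (g z)).symm, ?_, rfl⟩, ?_⟩⟩
      · show (τ (g z)).symm (g z) = z
        rw [AlgEquiv.symm_apply_eq]
        exact (hτ _ hgz).2.symm
      · exact AlgEquiv.apply_symm_apply _ _
    · rintro ⟨c, hc, hθ⟩
      obtain ⟨θ', hθ', rfl⟩ := Finset.mem_image.1 hθ
      obtain ⟨u, hu, rfl⟩ := (mRz _).1 hθ'
      refine ⟨u.trans (τ c), ?_, rfl⟩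
      show τ c (u y) = y
      rw [hzy u hu, (hτ c hc).1]
  -- `g z` is determined by `g ϖ`
  have hdet : ∀ g g' : Ω ≃ₐ[U] Ω, g ϖ = g' ϖ → g z = g' z := by
    intro g g' h
    have h1 : (g.trans g'.symm) ϖ = ϖ := by
      show g'.symm (g ϖ) = ϖ
      rw [AlgEquiv.symm_apply_eq]; exact h
    have h2 := fix_of_unif (hpoly M fM ϖ hϖ) h1 hz
    have h3 : g'.symm (g z) = z := h2
    rwa [AlgEquiv.symm_apply_eq] at h3
  have hdisj : ∀ c ∈ C, ∀ c' ∈ C, c ≠ c' → Disjoint (Rz.image (τ c)) (Rz.image (τ c')) := by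
    intro c hc c' hc' hne
    rw [Finset.disjoint_left]
    intro θ h1 h2
    obtain ⟨θ1, hθ1, h1⟩ := Finset.mem_image.1 h1
    obtain ⟨θ2, hθ2, h2⟩ := Finset.mem_image.1 h2
    obtain ⟨u1, hu1, rfl⟩ := (mRz _).1 hθ1
    obtain ⟨u2, hu2, rfl⟩ := (mRz _).1 hθ2
    have h3 := hdet (u1.trans (τ c)) (u2.trans (τ c')) (by
      show τ c (u1 ϖ) = τ c' (u2 ϖ)
      rw [h1, h2])
    have h4 : τ c (u1 z) = τ c' (u2 z) := h3
    rw [hu1, hu2, (hτ c hc).2, (hτ c' hc').2] at h4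
    exact hne h4
  have hprodpart : ∀ f : Ω → ℝ, ∏ θ ∈ Ry, f θ = ∏ c ∈ C, ∏ θ ∈ Rz, f (τ c θ) := by
    intro f
    rw [hpart, Finset.prod_biUnion (fun c hc c' hc' hne => hdisj c hc c' hc' hne)]
    refine Finset.prod_congr rfl fun c _ => ?_
    rw [Finset.prod_image fun a _ b _ hab => (τ c).injective hab]
  -- the part of `z`: `τ z` fixes `z`
  have hpz : ∏ θ ∈ Rz, (if τ z θ = ϖ then 1 else S.N (τ z θ - ϖ)) = ∏ θ ∈ Rz.erase ϖ, S.N (θ - ϖ) := by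
    have h1 : Rz.image (τ z) = Rz := by
      apply Finset.eq_of_subset_of_card_le
      · intro θ hθ
        obtain ⟨θ1, hθ1, rfl⟩ := Finset.mem_image.1 hθ
        obtain ⟨u1, hu1, rfl⟩ := (mRz _).1 hθ1
        refine (mRz _).2 ⟨u1.trans (τ z), ?_, rfl⟩
        show τ z (u1 z) = z
        rw [hu1, (hτ z hzC).2]
      · rw [Finset.card_image_of_injective _ (τ z).injective]
    have h2 : ∏ θ ∈ Rz, (if τ z θ = ϖ then 1 else S.N (τ z θ - ϖ)) =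
        ∏ θ ∈ Rz.image (τ z), (if θ = ϖ then 1 else S.N (θ - ϖ)) := by
      rw [Finset.prod_image fun a _ b _ hab => (τ z).injective hab]
    rw [h2, h1, ← Finset.mul_prod_erase Rz _ hϖRz, if_pos rfl, one_mul]
    refine Finset.prod_congr rfl fun θ hθ => ?_
    rw [if_neg (Finset.ne_of_mem_erase hθ)]
  have hrest : ∏ θ ∈ Ry.erase ϖ, S.N (θ - ϖ) =
      (∏ θ ∈ Rz.erase ϖ, S.N (θ - ϖ)) * ∏ c ∈ C.erase z, ∏ θ ∈ Rz, S.N (τ c θ - ϖ) := by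
    have h1 : ∏ θ ∈ Ry.erase ϖ, S.N (θ - ϖ) = ∏ θ ∈ Ry, (if θ = ϖ then 1 else S.N (θ - ϖ)) := by
      rw [← Finset.mul_prod_erase Ry _ hϖRy, if_pos rfl, one_mul]
      refine Finset.prod_congr rfl fun θ hθ => ?_
      rw [if_neg (Finset.ne_of_mem_erase hθ)]
    rw [h1, hprodpart, ← Finset.mul_prod_erase C _ hzC, hpz]
    congr 1
    refine Finset.prod_congr rfl fun c hc => Finset.prod_congr rfl fun θ hθ => ?_
    rw [if_neg]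
    intro h2
    obtain ⟨u, hu, rfl⟩ := (mRz _).1 hθ
    have hcC := Finset.mem_of_mem_erase hc
    have h3 := hdet (u.trans (τ c)) 1 h2
    have h4 : τ c (u z) = z := h3
    rw [hu, (hτ c hcC).2] at h4
    exact Finset.ne_of_mem_erase hc h4
  -- a minimal element of the coset of `τ c0`
  obtain ⟨ρ, hρy, hρz, hρmin⟩ : ∃ ρ : Ω ≃ₐ[U] Ω, ρ y = y ∧ ρ z = c0 ∧
      ∀ ρ' : Ω ≃ₐ[U] Ω, ρ' y = y → ρ' z = c0 → S.N (ρ ϖ - ϖ) ≤ S.N (ρ' ϖ - ϖ) := by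
    have hf := aut_orbit_finite (U := U) (fun u => u y = y ∧ u z = c0) ϖ
    have hne : hf.toFinset.Nonempty := by
      refine ⟨τ c0 ϖ, ?_⟩
      rw [Set.Finite.mem_toFinset]
      exact ⟨τ c0, hτ c0 hc0, rfl⟩
    obtain ⟨θ, hθ, hmin'⟩ := Finset.exists_min_image hf.toFinset (fun θ => S.N (θ - ϖ)) hne
    rw [Set.Finite.mem_toFinset] at hθ
    obtain ⟨ρ, ⟨h1, h2⟩, rfl⟩ := hθ
    refine ⟨ρ, h1, h2, fun ρ' h3 h4 => ?_⟩
    apply hmin'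
    rw [Set.Finite.mem_toFinset]
    exact ⟨ρ', ⟨h3, h4⟩, rfl⟩
  have hρϖ : ρ ϖ ≠ ϖ := by
    intro h
    have h1 := hdet ρ 1 h
    rw [hρz] at h1
    exact hc0z h1
  have hz1 : n0 * ∏ θ ∈ Rz.erase ϖ, S.N (θ - ϖ) ≤ S.N (ρ ϖz - ϖz) := by
    refine le_trans ?_ (hge _ _ fz fM hzM ϖz ϖ hϖz hϖ ρ Rz mRz')
    rw [← Finset.mul_prod_erase Rz (fun θ => S.N (ρ θ - ϖ)) hϖRz]
    refine mul_le_mul (hmin ρ hρϖ) ?_ (Finset.prod_nonneg fun θ _ => hNpos _) (hNpos _)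
    refine Finset.prod_le_prod (fun θ _ => hNpos _) fun θ hθ => ?_
    obtain ⟨u, hu, rfl⟩ := (mRz _).1 (Finset.mem_of_mem_erase hθ)
    have h1 : S.N (ρ (u ϖ) - u ϖ) ≤ S.N (ρ ϖ - ϖ) := hsub M fM ϖ hϖ (u ϖ) (hmemM u) (hintM u) ρ
    have h2 : S.N (ρ ϖ - ϖ) ≤ S.N (ρ (u ϖ) - ϖ) := by
      have h3 := hρmin (u.trans ρ) (by
        show ρ (u y) = y
        rw [hzy u hu, hρy]) (by
        show ρ (u z) = c0
        rw [hu, hρz])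
      exact h3
    exact (hultra (u ϖ) ϖ (ρ (u ϖ))).trans (max_le (h1.trans h2) le_rfl)
  have hcle : ∀ c ∈ C.erase z, ∏ θ ∈ Rz, S.N (τ c θ - ϖ) ≤ S.N (τ c ϖz - ϖz) := fun c _ =>
    hge _ _ fz fM hzM ϖz ϖ hϖz hϖ (τ c) Rz mRz'
  -- assembly
  set Sg := S.N (σ₀ ϖy - ϖy) with hSg
  let t : Ω → ℝ := fun c => if c = z then S.N (ρ ϖz - ϖz) else S.N (τ c ϖz - ϖz)
  have ht0 : ∀ c, 0 ≤ t c := by
    intro c
    show 0 ≤ if c = z then S.N (ρ ϖz - ϖz) else S.N (τ c ϖz - ϖz)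
    split_ifs <;> exact hNpos _
  have htlt : ∀ c ∈ C, t c ^ p < Sg := by
    intro c hc
    show (if c = z then S.N (ρ ϖz - ϖz) else S.N (τ c ϖz - ϖz)) ^ p < Sg
    split_ifs with hcz
    · exact hst σ₀ ρ hσ hρy (by rw [hρz]; exact hc0z)
    · exact hst σ₀ (τ c) hσ (hτ c hc).1 (by rw [(hτ c hc).2]; exact hcz)
  have hSg0 : 0 < Sg := lt_of_le_of_lt (pow_nonneg (ht0 z) p) (htlt z hzC)
  have hprod : Sg ≤ ∏ c ∈ C, t c := by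
    refine hfirst.trans ?_
    rw [hrest, ← mul_assoc, ← Finset.mul_prod_erase C t hzC]
    have htz : t z = S.N (ρ ϖz - ϖz) := if_pos rfl
    rw [htz]
    refine mul_le_mul hz1 ?_ (Finset.prod_nonneg fun c _ => Finset.prod_nonneg fun θ _ => hNpos _) (hNpos _)
    refine Finset.prod_le_prod (fun c _ => Finset.prod_nonneg fun θ _ => hNpos _) fun c hc => ?_
    have : t c = S.N (τ c ϖz - ϖz) := if_neg (Finset.ne_of_mem_erase hc)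
    rw [this]
    exact hcle c hc
  have hpow : (∏ c ∈ C, t c) ^ p < Sg ^ p := by
    rw [← Finset.prod_pow]
    by_cases hzero : ∃ c ∈ C, t c = 0
    · obtain ⟨c, hc, h1⟩ := hzero
      have h2 : ∏ c ∈ C, t c ^ p = 0 := Finset.prod_eq_zero hc (by rw [h1]; exact zero_pow (by omega))
      rw [h2]
      exact pow_pos hSg0 p
    · push Not at hzero
      have h1 : ∏ c ∈ C, t c ^ p < ∏ _c ∈ C, Sg := by
        apply Finset.prod_lt_prod_of_nonempty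
        · intro c hc
          exact pow_pos (lt_of_le_of_ne (ht0 c) (Ne.symm (hzero c hc))) p
        · exact htlt
        · exact ⟨z, hzC⟩
      rw [Finset.prod_const, hCp] at h1
      exact h1
  have := pow_le_pow_left₀ hSg0.le hprod p
  linarith

/-- **Y5** (an automorphism which moves the uniformizer of a normal field as little as possible fixes `y`) -/
theorem min_fixes {S : SLoc U Ω} {M : IntermediateField U Ω} [FiniteDimensional U M]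
    (hM : ∀ (g : Ω ≃ₐ[U] Ω), ∀ x ∈ M, g x ∈ M) {ϖ : Ω} (hϖ : Unif S M ϖ) (σ₀ : Ω ≃ₐ[U] Ω) (h0 : σ₀ ϖ ≠ ϖ)
    (hmin : ∀ σ : Ω ≃ₐ[U] Ω, σ ϖ ≠ ϖ → S.N (σ₀ ϖ - ϖ) ≤ S.N (σ ϖ - ϖ)) {y z : Ω} (hyz : y ∈ U⟮z⟯) (hz : z ∈ M)
    {p : ℕ} (hp : 2 ≤ p) (C : Finset Ω) (hC : ∀ x, x ∈ C ↔ ∃ τ : Ω ≃ₐ[U] Ω, τ y = y ∧ τ z = x) (hCp : C.card = p)
    (hstar : ∀ ϖy ϖz : Ω, Unif S U⟮y⟯ ϖy → Unif S U⟮z⟯ ϖz → ∀ σ τ : Ω ≃ₐ[U] Ω, σ y ≠ y → τ y = y → τ z ≠ z →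
      S.N (τ ϖz - ϖz) ^ p < S.N (σ ϖy - ϖy)) : σ₀ y = y :=
  min_fixes_of (S := S) (fun E _ => exists_unif S E) (fun _ _ _ h _ hx hx1 => h.exists_poly hx hx1)
    (fun _ _ _ h _ hx hx1 g => h.sub_le hx hx1 g)
    (fun _ _ _ _ hE _ _ h h' g R hR => herb_le hE h h' g R hR)
    (fun _ _ _ _ hE _ _ h h' g R hR => herb_ge hE h h' g R hR)
    hM hϖ σ₀ h0 hmin hyz hz hp C hC hCp hstar

end main

end Pool.Agent.ORB.WP
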