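import Pool.Agent.ORB.YDefs
import Pool.Agent.ORB.NBasic

/-!
ORB, Theorem W: elementary lemmas for rows Y8 and Y9 (additive values of sums, the Taylor expansion).
-/

set_option autoImplicit false

namespace Pool.Agent.ORB.WP

open Polynomial NI GP

section

variable {Ω : Type*} [Field Ω]

theorem nw_mul (N : AbsoluteValue Ω ℝ) {x y : Ω} (hx : x ≠ 0) (hy : y ≠ 0) : vv N (x * y) = vv N x + vv N y := by
  unfold vv
  rw [map_mul, Real.log_mul (N.ne_zero hx) (N.ne_zero hy)]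
  ring

theorem nw_pow (N : AbsoluteValue Ω ℝ) (x : Ω) (n : ℕ) : vv N (x ^ n) = n * vv N x := by
  unfold vv
  rw [map_pow, Real.log_pow]
  ring

theorem nw_inv (N : AbsoluteValue Ω ℝ) (x : Ω) : vv N x⁻¹ = -vv N x := by
  unfold vv
  rw [map_inv₀, Real.log_inv]

theorem nw_neg (N : AbsoluteValue Ω ℝ) (x : Ω) : vv N (-x) = vv N x := by
  unfold vv
  rw [AbsoluteValue.map_neg]

theorem nw_symm (N : AbsoluteValue Ω ℝ) (x y : Ω) : vv N (x - y) = vv N (y - x) := by
  rw [← nw_neg, neg_sub]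

theorem nw_lt (N : AbsoluteValue Ω ℝ) {x y : Ω} (hx : x ≠ 0) (hy : y ≠ 0) : vv N x < vv N y ↔ N y < N x := by
  unfold vv
  rw [neg_lt_neg_iff]
  exact Real.log_lt_log_iff (N.pos hy) (N.pos hx)

theorem nw_lt_iff (N : AbsoluteValue Ω ℝ) {x : Ω} (hx : x ≠ 0) (t : ℝ) : t < vv N x ↔ N x < Real.exp (-t) := by
  unfold vv
  rw [← Real.log_lt_iff_lt_exp (N.pos hx)]
  constructor <;> intro h <;> linarith

theorem nw_le_iff (N : AbsoluteValue Ω ℝ) {x : Ω} (hx : x ≠ 0) (t : ℝ) : t ≤ vv N x ↔ N x ≤ Real.exp (-t) := by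
  unfold vv
  rw [← Real.log_le_iff_le_exp (N.pos hx)]
  constructor <;> intro h <;> linarith

/-- a sum with a dominating term -/
theorem nw_dom {N : AbsoluteValue Ω ℝ} (hN : ∀ x y : Ω, N (x + y) ≤ max (N x) (N y)) {s : Finset ℕ} {f : ℕ → Ω}
    {k : ℕ} (hk : k ∈ s) (h0 : f k ≠ 0) (h : ∀ j ∈ s, j ≠ k → f j = 0 ∨ vv N (f k) < vv N (f j)) :
    ∑ i ∈ s, f i ≠ 0 ∧ vv N (∑ i ∈ s, f i) = vv N (f k) := by
  have h1 : N (∑ i ∈ s, f i) = N (f k) := by
    refine IsNonarchimedean.apply_sum_eq_of_lt (f := fun x => N x) hN (fun a => (N.map_neg a).symm) hk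
      (fun j hj hjk => ?_)
    rcases h j hj hjk with h2 | h2
    · rw [h2, map_zero]
      exact N.pos h0
    · by_cases h3 : f j = 0
      · rw [h3, map_zero]
        exact N.pos h0
      · exact (nw_lt N h0 h3).1 h2
  refine ⟨fun h2 => ?_, by unfold vv; rw [h1]⟩
  rw [h2, map_zero] at h1
  exact N.ne_zero h0 h1.symm

/-- a sum of terms of value `> g` -/
theorem nw_sum_lt {N : AbsoluteValue Ω ℝ} (hN : ∀ x y : Ω, N (x + y) ≤ max (N x) (N y)) {s : Finset ℕ} {f : ℕ → Ω}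
    {g : ℝ} (h : ∀ j ∈ s, f j = 0 ∨ g < vv N (f j)) : ∑ i ∈ s, f i = 0 ∨ g < vv N (∑ i ∈ s, f i) := by
  by_cases h0 : ∑ i ∈ s, f i = 0
  · exact Or.inl h0
  right
  rw [nw_lt_iff N h0]
  obtain ⟨j, hj, hj1⟩ := IsNonarchimedean.finset_image_add_of_nonempty (f := fun x => N x) hN f
    (t := s) (Finset.nonempty_iff_ne_empty.2 fun h1 => h0 (by rw [h1, Finset.sum_empty]))
  refine hj1.trans_lt ?_
  by_cases h2 : f j = 0
  · simp only [h2, map_zero]
    exact Real.exp_pos _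
  · exact (nw_lt_iff N h2 g).1 ((h j hj).resolve_left h2)

end

section

variable {U Ω : Type*} [Field U] [Field Ω] [Algebra U Ω]

/-- the Taylor expansion at `x` -/
theorem nw_taylor {h : U[X]} {p : ℕ} (hd : h.natDegree = p) (x x' : Ω) :
    ev h x' - ev h x = ∑ i ∈ Finset.range p, (taylor x (h.map (algebraMap U Ω))).coeff (i + 1) * (x' - x) ^ (i + 1) := by
  have h1 : ev h x' = eval (x' - x) (taylor x (h.map (algebraMap U Ω))) := by
    rw [taylor_eval_sub, ev_eq]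
  have h2 : (taylor x (h.map (algebraMap U Ω))).natDegree = p := by
    rw [natDegree_taylor, natDegree_map, hd]
  have h3 : (taylor x (h.map (algebraMap U Ω))).coeff 0 = ev h x := by
    rw [taylor_coeff_zero, ev_eq]
  rw [h1, eval_eq_sum_range, h2, Finset.sum_range_succ', h3, pow_zero, mul_one, add_sub_cancel_right]

end

end Pool.Agent.ORB.WP
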