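import Pool.Agent.ORB.YDefs
import Pool.Agent.ORB.YRef
import Pool.Agent.ORB.NRes
import Pool.Agent.ORB.GLoc

/-!
ORB, Theorem W, rows Y12, Y14: the conditions at a wild place.
-/

set_option autoImplicit false

namespace Pool.Agent.ORB.WP

open Polynomial NI GP NumberField IsDedekindDomain IntermediateField

universe u

section loc

variable {F Ω : Type*} [Field F] [Field Ω] [Algebra F Ω]

/-- the Taylor coefficients at integral points -/
theorem WildL.taylor_lt {D : LocAbs F Ω} {h : F[X]} (hw : WildL D h) {r : F} (hr : D.N (algebraMap F Ω r) ≤ 1) :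
    ∀ i, 0 < i → i < h.natDegree → D.N (algebraMap F Ω ((taylor r h).coeff i)) < 1 := by
  intro i hi hid
  have hch : ∀ m : ℕ, D.N (algebraMap F Ω (m : F)) ≤ 1 := by
    intro m
    rw [map_natCast]
    exact na_nat_le D.N D.nonarch m
  rw [taylor_coeff, hasseDeriv_apply, sum_def, eval_finset_sum, map_sum]
  refine rg_sum_lt D _ _ one_pos fun j hj => ?_
  rw [eval_monomial, map_mul, map_mul, map_pow, map_mul, map_mul, map_pow]
  have hr' : D.N (algebraMap F Ω r) ^ (j - i) ≤ 1 := pow_le_one₀ (D.N.nonneg _) hr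
  have h0 : 0 ≤ D.N (algebraMap F Ω r) ^ (j - i) := pow_nonneg (D.N.nonneg _) _
  have key : D.N (algebraMap F Ω ((j.choose i : ℕ) : F)) * D.N (algebraMap F Ω (h.coeff j)) < 1 := by
    by_cases hjd : j = h.natDegree
    · have h4 : h.natDegree ∣ j.choose i := by
        rw [hjd]
        exact hw.prime.dvd_choose_self hi.ne' hid
      obtain ⟨m, hm⟩ := h4
      rw [hm, Nat.cast_mul, map_mul, map_mul]
      have h5 : D.N (algebraMap F Ω ((h.natDegree : ℕ) : F)) < 1 := by
        rw [map_natCast]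
        exact hw.pN
      calc D.N (algebraMap F Ω ((h.natDegree : ℕ) : F)) * D.N (algebraMap F Ω (m : F)) *
            D.N (algebraMap F Ω (h.coeff j))
          ≤ D.N (algebraMap F Ω ((h.natDegree : ℕ) : F)) * 1 * 1 :=
            mul_le_mul (mul_le_mul_of_nonneg_left (hch m) (D.N.nonneg _)) (hw.coef j) (D.N.nonneg _)
              (mul_nonneg (D.N.nonneg _) zero_le_one)
        _ < 1 := by rw [mul_one, mul_one]; exact h5
    · by_cases hji : j < i
      · rw [Nat.choose_eq_zero_of_lt hji, Nat.cast_zero, map_zero, map_zero, zero_mul]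
        exact one_pos
      · have h4 : j ≤ h.natDegree := le_natDegree_of_mem_supp j hj
        calc D.N (algebraMap F Ω ((j.choose i : ℕ) : F)) * D.N (algebraMap F Ω (h.coeff j))
            ≤ 1 * D.N (algebraMap F Ω (h.coeff j)) := mul_le_mul_of_nonneg_right (hch _) (D.N.nonneg _)
          _ < 1 := by rw [one_mul]; exact hw.mid j (by omega) (by omega)
  calc _ ≤ D.N (algebraMap F Ω ((j.choose i : ℕ) : F)) * D.N (algebraMap F Ω (h.coeff j)) * 1 :=
        mul_le_mul_of_nonneg_left hr' (mul_nonneg (D.N.nonneg _) (D.N.nonneg _))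
    _ < 1 := by rw [mul_one]; exact key

/-- **Y12** (the wild conditions give the hypothesis of `exists_ref`) -/
theorem WildL.per [CharZero F] [IsAlgClosed Ω] [Algebra.IsAlgebraic F Ω] {D : LocAbs F Ω} {h : F[X]} (hw : WildL D h) (b : F) :
    1 < D.N (algebraMap F Ω b) ∨
      ((∃ m, 1 ≤ m ∧ D.N (algebraMap F Ω ((fun x => eval x h)^[m] b - b)) < 1) ∧
      ∀ n i, 0 < i → i < h.natDegree →
        D.N (algebraMap F Ω ((taylor ((fun x => eval x h)^[n] b) h).coeff i)) < 1) := by
  rcases lt_or_ge 1 (D.N (algebraMap F Ω b)) with hb | hb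
  · exact Or.inl hb
  have hint : ∀ (x : F), D.N (algebraMap F Ω x) ≤ 1 → ∀ n, D.N (algebraMap F Ω ((fun x => eval x h)^[n] x)) ≤ 1 := by
    intro x hx n
    rw [← ev_algebraMap]
    exact nint D hw.coef hx n
  refine Or.inr ⟨?_, fun n i hi hid => hw.taylor_lt (hint b hb n) i hi hid⟩
  obtain ⟨i, m, hm, h1⟩ := residual_orbit D h hw.coef (algebraMap F Ω b) hb
  refine ⟨m, hm, ?_⟩
  have h2 := h1 i le_rfl
  rw [ev_algebraMap, ev_algebraMap, Function.iterate_add_apply, ← map_sub] at h2
  -- cancel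
  have hback : ∀ (n : ℕ) (x y : F), D.N (algebraMap F Ω x) ≤ 1 → D.N (algebraMap F Ω y) ≤ 1 →
      D.N (algebraMap F Ω ((fun x => eval x h)^[n] x - (fun x => eval x h)^[n] y)) < 1 →
        D.N (algebraMap F Ω (x - y)) < 1 := by
    intro n
    induction n with
    | zero => intro x y _ _ h; exact h
    | succ n ih =>
      intro x y hx hy hxy
      rw [Function.iterate_succ_apply', Function.iterate_succ_apply'] at hxy
      refine ih x y hx hy ?_
      have hx' := hint x hx n
      have hy' := hint y hy n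
      set X := (fun x => eval x h)^[n] x with hX
      set Y := (fun x => eval x h)^[n] y with hY
      obtain ⟨θ, hθ0, hθ1, hθ⟩ : ∃ θ : ℝ, 0 < θ ∧ θ < 1 ∧ ∀ i, 0 < i → i < h.natDegree →
          D.N (algebraMap F Ω ((taylor Y h).coeff i)) ≤ θ := by
        refine ⟨D.N (algebraMap F Ω D.π), D.N.pos ((_root_.map_ne_zero _).2 D.π_ne), D.π_lt, fun i hi hid => ?_⟩
        exact le_pi D (hw.taylor_lt hy' i hi hid)
      have hXY : D.N (algebraMap F Ω X - algebraMap F Ω Y) ≤ 1 := by
        have h3 := D.nonarch (algebraMap F Ω X) (-algebraMap F Ω Y)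
        rw [← sub_eq_add_neg, D.N.map_neg] at h3
        exact h3.trans (max_le hx' hy')
      obtain ⟨S, T, h3, h4, h5⟩ := near_step D hw.prime.two_le hw.lead hθ0 hθ hXY
      have h6 : D.N S < 1 := h4.trans_lt (by
        calc θ * D.N (algebraMap F Ω X - algebraMap F Ω Y) ≤ θ * 1 := mul_le_mul_of_nonneg_left hXY hθ0.le
          _ < 1 := by rw [mul_one]; exact hθ1)
      have h7 : D.N T < 1 := by
        have h8 : T = algebraMap F Ω (eval X h - eval Y h) - S := by
          have h9 : ev h (algebraMap F Ω X) = algebraMap F Ω (eval X h) := by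
            have := ev_algebraMap (Ω := Ω) h X 1
            rwa [Function.iterate_one, Function.iterate_one] at this
          rw [h9] at h3
          rw [map_sub, h3]
          ring
        rw [h8, sub_eq_add_neg]
        refine (D.nonarch _ _).trans_lt (max_lt hxy ?_)
        rw [D.N.map_neg]
        exact h6
      rw [h5] at h7
      rw [map_sub]
      exact (pow_lt_one_iff_of_nonneg (D.N.nonneg _) (by have := hw.prime.two_le; omega)).1 h7
  exact hback i _ b (hint b hb m) hb h2

end loc

/-- **Y14a** -/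
theorem WildT.ext {K K' : Type u} [Field K] [NumberField K] [Field K'] [NumberField K'] [Algebra K K'] {h : K[X]}
    (ht : WildT h) : WildT (h.map (algebraMap K K')) := by
  obtain ⟨hp, hodd, v, hpv, hg, hl, hm⟩ := ht
  obtain ⟨⟨Q, hQ1, hQ2⟩⟩ := v.asIdeal.nonempty_primesOver (S := 𝓞 K')
  have hQ0 : Q ≠ ⊥ := Ideal.ne_bot_of_mem_primesOver v.ne_bot ⟨hQ1, hQ2⟩
  let P : HeightOneSpectrum (𝓞 K') := ⟨Q, hQ1, hQ0⟩
  have hlo : P.asIdeal.LiesOver v.asIdeal := hQ2
  refine ⟨by rw [natDegree_map]; exact hp, by rw [natDegree_map]; exact hodd, P, ?_, fun i => ?_, ?_,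
    fun i hi hid => ?_⟩
  · rw [natDegree_map, ← map_natCast (algebraMap K K')]
    exact (val_lt_iff v P _).2 hpv
  · rw [coeff_map]
    exact (val_le_iff v P _).2 (hg i)
  · rw [leadingCoeff_map]
    refine le_antisymm ((val_le_iff v P _).2 hl.le) ?_
    by_contra hlt
    push Not at hlt
    exact absurd ((val_lt_iff v P _).1 hlt) (by rw [hl]; exact lt_irrefl _)
  · rw [coeff_map]
    rw [natDegree_map] at hid
    exact (val_lt_iff v P _).2 (hm i hi hid)

/-- **Y14b** -/
theorem WildT.locT {K : Type u} [Field K] [NumberField K] {h : K[X]} (ht : WildT h) (b : K) : LocT h b := by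
  obtain ⟨hp, -, v, hpv, hg, hl, hm⟩ := ht
  exact LocT.of_pow hp.two_le hp (k := 1) (by rw [pow_one]) v hpv hl hm (hg 0) b

end Pool.Agent.ORB.WP
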