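import Pool.Agent.ORB.YKappa
import Pool.Agent.ORB.GEngine
import Pool.Agent.ORB.NTopB
import Pool.Agent.ORB.GDatum

/-!
ORB, Theorem W, row Y6: the inequality of `kappa` for all points of high levels.
-/

set_option autoImplicit false

namespace Pool.Agent.ORB.WP

open Polynomial NI GP NumberField IsDedekindDomain IntermediateField

universe u

section

variable {U Ω : Type*} [Field U] [Field Ω] [Algebra U Ω] [CharZero U] [IsAlgClosed Ω] [Algebra.IsAlgebraic U Ω]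

omit [CharZero U] in
theorem normal_of_closed : Normal U Ω := normal_iff.2 fun x =>
  ⟨Algebra.IsIntegral.isIntegral x, IsAlgClosed.splits _⟩

/-- the degree of an element is the number of its conjugates -/
theorem finrank_orbit (z : Ω) : Module.finrank U U⟮z⟯ = {x : Ω | ∃ g : Ω ≃ₐ[U] Ω, g z = x}.ncard := by
  classical
  have hn : Normal U Ω := normal_of_closed
  have hz : IsIntegral U z := Algebra.IsIntegral.isIntegral z
  have hs : (minpoly U z).Separable := (minpoly.irreducible hz).separable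
  have h1 : {x : Ω | ∃ g : Ω ≃ₐ[U] Ω, g z = x} = (minpoly U z).rootSet Ω := by
    ext x
    rw [mem_rootSet]
    constructor
    · rintro ⟨g, rfl⟩
      exact ⟨minpoly.ne_zero hz, by rw [aeval_ae, minpoly.aeval, map_zero]⟩
    · rintro ⟨-, h2⟩
      have h3 : minpoly U z = minpoly U x :=
        minpoly.eq_of_irreducible_of_monic (minpoly.irreducible hz) h2 (minpoly.monic hz)
      obtain ⟨g, hg⟩ := IsConjRoot.exists_algEquiv (K := U) (L := Ω) (x := x) (y := z) h3.symm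
      exact ⟨g, hg⟩
  rw [h1, adjoin.finrank hz, ← Nat.card_coe_set_eq, Nat.card_eq_fintype_card]
  exact (card_rootSet_eq_natDegree hs (IsAlgClosed.splits _)).symm

theorem orbit_finite (z : Ω) : {x : Ω | ∃ g : Ω ≃ₐ[U] Ω, g z = x}.Finite := by
  by_contra h
  have h1 := finrank_orbit (U := U) z
  rw [Set.Infinite.ncard h] at h1
  have hfd : FiniteDimensional U U⟮z⟯ := adjoin.finiteDimensional (Algebra.IsIntegral.isIntegral z)
  have h2 : 0 < Module.finrank U U⟮z⟯ := Module.finrank_pos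
  omega

/-- the degree of a step of the tree -/
theorem finrank_step {h : U[X]} {p : ℕ} {y z : Ω} (hz : ev h z = y) (hc : {x : Ω | ev h x = y}.ncard = p)
    (hp : 0 < p) (ht : ∀ x : Ω, ev h x = y → ∃ g : Ω ≃ₐ[U] Ω, g z = x) :
    Module.finrank U U⟮z⟯ = p * Module.finrank U U⟮y⟯ := by
  classical
  rw [finrank_orbit, finrank_orbit]
  have hfy : {x : Ω | ev h x = y}.Finite := Set.finite_of_ncard_pos (by omega)
  have fz := orbit_finite (U := U) z
  have fy := orbit_finite (U := U) y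
  rw [Set.ncard_eq_toFinset_card _ fz, Set.ncard_eq_toFinset_card _ fy]
  rw [Finset.card_eq_sum_card_fiberwise (f := ev h) (t := fy.toFinset)]
  · have h1 : ∀ b ∈ fy.toFinset, (fz.toFinset.filter fun x => ev h x = b).card = p := by
      intro b hb
      obtain ⟨g, rfl⟩ := (Set.Finite.mem_toFinset _).1 hb
      rw [← hc, Set.ncard_eq_toFinset_card _ hfy]
      refine (Finset.card_bij (fun x _ => g x) (fun x hx => ?_) (fun a _ b _ hab => g.injective hab)
        (fun x hx => ?_)).symm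
      · have hx' : ev h x = y := hfy.mem_toFinset.1 hx
        obtain ⟨g', hg'⟩ := ht x hx'
        rw [Finset.mem_filter, Set.Finite.mem_toFinset]
        refine ⟨⟨g * g', ?_⟩, ?_⟩
        · show g (g' z) = g x
          rw [hg']
        · rw [ev_ae, hx']
      · rw [Finset.mem_filter, Set.Finite.mem_toFinset] at hx
        refine ⟨g.symm x, ?_, g.apply_symm_apply x⟩
        rw [Set.Finite.mem_toFinset]
        show ev h (g.symm x) = y
        rw [ev_ae, hx.2, g.symm_apply_apply]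
    rw [Finset.sum_congr rfl h1, Finset.sum_const, smul_eq_mul, mul_comm]
  · intro x hx
    obtain ⟨g, rfl⟩ := (Set.Finite.mem_toFinset _).1 hx
    rw [Finset.mem_coe, Set.Finite.mem_toFinset]
    exact ⟨g, by rw [ev_ae, hz]⟩

/-- `ψ` is the identity or the inverse -/
theorem psi_adjoin {ψ : Ω → Ω} (hψ : ψ = id ∨ ψ = fun x => x⁻¹) (x : Ω) : U⟮ψ x⟯ = U⟮x⟯ := by
  rcases hψ with rfl | rfl
  · rfl
  · show U⟮x⁻¹⟯ = U⟮x⟯
    refine le_antisymm ?_ ?_
    · rw [adjoin_le_iff, Set.singleton_subset_iff]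
      exact inv_mem (mem_adjoin_simple_self U x)
    · rw [adjoin_le_iff, Set.singleton_subset_iff]
      have h1 := inv_mem (mem_adjoin_simple_self U x⁻¹)
      rwa [inv_inv] at h1

omit [CharZero U] [IsAlgClosed Ω] [Algebra.IsAlgebraic U Ω] in
theorem psi_aut {ψ : Ω → Ω} (hψ : ψ = id ∨ ψ = fun x => x⁻¹) (g : Ω ≃ₐ[U] Ω) (x : Ω) : g (ψ x) = ψ (g x) := by
  rcases hψ with rfl | rfl
  · rfl
  · exact map_inv₀ g x

omit [CharZero U] [IsAlgClosed Ω] [Algebra.IsAlgebraic U Ω] in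
theorem psi_inj {ψ : Ω → Ω} (hψ : ψ = id ∨ ψ = fun x => x⁻¹) : Function.Injective ψ := by
  rcases hψ with rfl | rfl
  · exact Function.injective_id
  · exact inv_injective

omit [CharZero U] [IsAlgClosed Ω] [Algebra.IsAlgebraic U Ω] in
/-- conjugation of a uniformizer -/
theorem Unif.conj {S : SLoc U Ω} (g : Ω ≃ₐ[U] Ω) {x ϖ : Ω} (h : Unif S U⟮g x⟯ ϖ) : Unif S U⟮x⟯ (g.symm ϖ) := by
  have hmem : ∀ w : Ω, w ∈ U⟮g x⟯ → g.symm w ∈ U⟮x⟯ := by
    intro w hw
    induction hw using adjoin_induction with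
    | mem w hw =>
      rw [Set.mem_singleton_iff] at hw
      rw [hw, g.symm_apply_apply]
      exact mem_adjoin_simple_self U x
    | algebraMap w =>
      rw [g.symm.commutes]
      exact U⟮x⟯.algebraMap_mem w
    | add a b _ _ ha hb => rw [map_add]; exact add_mem ha hb
    | inv a _ ha => rw [map_inv₀]; exact inv_mem ha
    | mul a b _ _ ha hb => rw [map_mul]; exact mul_mem ha hb
  have hmem' : ∀ w : Ω, w ∈ U⟮x⟯ → g w ∈ U⟮g x⟯ := by
    intro w hw
    induction hw using adjoin_induction with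
    | mem w hw =>
      rw [Set.mem_singleton_iff] at hw
      rw [hw]
      exact mem_adjoin_simple_self U (g x)
    | algebraMap w =>
      rw [g.commutes]
      exact U⟮g x⟯.algebraMap_mem w
    | add a b _ _ ha hb => rw [map_add]; exact add_mem ha hb
    | inv a _ ha => rw [map_inv₀]; exact inv_mem ha
    | mul a b _ _ ha hb => rw [map_mul]; exact mul_mem ha hb
  refine ⟨hmem ϖ h.mem, fun h0 => h.ne ?_, ?_, fun w hw hw0 => ?_⟩
  · have h1 := congrArg g h0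
    rwa [g.apply_symm_apply, map_zero] at h1
  · rw [S.inv]
    exact h.lt
  · obtain ⟨k, hk⟩ := h.gen (g w) (hmem' w hw) (by rw [Ne, map_eq_zero_iff g g.injective]; exact hw0)
    refine ⟨k, ?_⟩
    rw [S.inv] at hk
    rw [S.inv, hk]

omit [CharZero U] [Algebra.IsAlgebraic U Ω] in
theorem exists_pre (h : U[X]) (hd : 1 ≤ h.natDegree) (y : Ω) : ∃ z : Ω, ev h z = y := by
  have h1 : (h.map (algebraMap U Ω) - C y).natDegree = h.natDegree := by
    rw [natDegree_sub_C, natDegree_map]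
  have h2 : (h.map (algebraMap U Ω) - C y).degree ≠ 0 := by
    intro h0
    have := natDegree_eq_zero_iff_degree_le_zero.2 h0.le
    omega
  obtain ⟨z, hz⟩ := IsAlgClosed.exists_root _ h2
  refine ⟨z, ?_⟩
  rw [IsRoot, eval_sub, eval_C, eval_map_algebraMap, sub_eq_zero] at hz
  exact hz

omit [CharZero U] [Algebra.IsAlgebraic U Ω] in
/-- a branch above a point -/
theorem exists_branch (h : U[X]) (hd : 1 ≤ h.natDegree) (y : Ω) :
    ∃ β : ℕ → Ω, β 0 = y ∧ ∀ n, ev h (β (n + 1)) = β n := by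
  choose f hf using exists_pre (Ω := Ω) h hd
  refine ⟨fun n => f^[n] y, rfl, fun n => ?_⟩
  show ev h (f^[n + 1] y) = f^[n] y
  rw [Function.iterate_succ_apply', hf]

omit [CharZero U] [IsAlgClosed Ω] [Algebra.IsAlgebraic U Ω] in
theorem ev_mem_adjoin (h : U[X]) (x : Ω) : ev h x ∈ U⟮x⟯ := by
  have h1 := (aeval (AdjoinSimple.gen U x) h).2
  rw [← IntermediateField.aeval_coe, AdjoinSimple.coe_gen] at h1
  exact h1

/-- **Y6**, with the properties Y1a, Y2a, Y3c of finite extensions as hypotheses -/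
theorem Tree.star_of {S : SLoc U Ω} {h : U[X]} {b : U} {p : ℕ} {ψ : Ω → Ω} {δ Δ : ℝ} (hT : Tree S h b p ψ δ Δ)
    (HU : ∀ E : IntermediateField U Ω, FiniteDimensional U E → ∃ ϖ : Ω, Unif S E ϖ)
    (HS : ∀ (E : IntermediateField U Ω) (ϖ : Ω), FiniteDimensional U E → Unif S E ϖ → ∀ x ∈ E, S.N x ≤ 1 →
      ∀ g : Ω ≃ₐ[U] Ω, S.N (g x - x) ≤ S.N (g ϖ - ϖ))
    (HB : ∀ (E E' : IntermediateField U Ω) (ϖ' : Ω), FiniteDimensional U E → FiniteDimensional U E' → E ≤ E' →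
      Module.finrank U E' = p * Module.finrank U E → Unif S E' ϖ' → ∀ x ∈ E', x ∉ E → ∃ a ∈ E,
      ∀ τ : Ω ≃ₐ[U] Ω, (∀ x ∈ E, τ x = x) → S.N (τ x - x) * S.N ϖ' = S.N (x - a) * S.N (τ ϖ' - ϖ')) :
    ∃ m₀ : ℕ, ∀ m, m₀ ≤ m → ∀ y ∈ Node Ω h b m, ∀ z : Ω, ev h z = y → ∀ ϖ ϖ' : Ω,
      Unif S U⟮y⟯ ϖ → Unif S U⟮z⟯ ϖ' → ∀ σ τ : Ω ≃ₐ[U] Ω, σ y ≠ y → τ y = y → τ z ≠ z →
        S.N (τ ϖ' - ϖ') ^ p < S.N (σ ϖ - ϖ) := by
  classical
  have hd : 1 ≤ h.natDegree := by rw [hT.deg]; exact hT.prime.one_le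
  have hfd : ∀ x : Ω, FiniteDimensional U U⟮x⟯ := fun x =>
    adjoin.finiteDimensional (Algebra.IsIntegral.isIntegral x)
  obtain ⟨k₀, hk₀⟩ := hT.tran
  -- the fibres
  have hfib : ∀ m, ∀ y ∈ Node Ω h b m, {x : Ω | ev h x = y}.ncard = p := by
    intro m y hy
    rw [ncard_fibre h hd y, hT.deg]
    intro c hc hcy
    refine hT.sep m c ?_ hc
    show (ev h)^[m + 1] c = algebraMap U Ω b
    rw [Function.iterate_succ_apply, hcy]
    exact hy
  have haut : ∀ (g : Ω ≃ₐ[U] Ω) (k : ℕ) (x : Ω), (ev h)^[k] (g x) = g ((ev h)^[k] x) := fun g k x =>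
    ev_ae_iter g h k x
  have hnode : ∀ (g : Ω ≃ₐ[U] Ω) (k : ℕ) (x : Ω), x ∈ Node Ω h b k → g x ∈ Node Ω h b k := by
    intro g k x hx
    show (ev h)^[k] (g x) = algebraMap U Ω b
    rw [haut]
    have h1 : (ev h)^[k] x = algebraMap U Ω b := hx
    rw [h1, g.commutes]
  have hpsi := hT.psi
  -- the branches
  have key : ∀ y₀ ∈ Node Ω h b k₀, ∃ (β : ℕ → Ω) (n₀ : ℕ), β 0 = y₀ ∧ (∀ n, ev h (β (n + 1)) = β n) ∧
      ∀ n, n₀ ≤ n → ∀ ϖ ϖ' : Ω, Unif S U⟮β n⟯ ϖ → Unif S U⟮β (n + 1)⟯ ϖ' → ∀ σ τ : Ω ≃ₐ[U] Ω,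
        σ (β n) ≠ β n → τ (β n) = β n → τ (β (n + 1)) ≠ β (n + 1) → S.N (τ ϖ' - ϖ') ^ p < S.N (σ ϖ - ϖ) := by
    intro y₀ hy₀
    obtain ⟨β, hβ0, hβ⟩ := exists_branch (Ω := Ω) h hd y₀
    have hβk : ∀ n k, (ev h)^[k] (β (n + k)) = β n := by
      intro n k
      induction k with
      | zero => rfl
      | succ k ih => rw [Function.iterate_succ_apply, show n + (k + 1) = n + k + 1 by ring, hβ, ih]
    have hβn : ∀ n, β n ∈ Node Ω h b (k₀ + n) := by
      intro n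
      show (ev h)^[k₀ + n] (β n) = algebraMap U Ω b
      rw [Function.iterate_add_apply]
      have h1 := hβk 0 n
      rw [Nat.zero_add] at h1
      rw [h1, hβ0]
      exact hy₀
    have hmem : ∀ n, β n ∈ U⟮β (n + 1)⟯ := by
      intro n
      rw [← hβ n]
      exact ev_mem_adjoin h _
    have hadj : ∀ x, U⟮ψ x⟯ = U⟮x⟯ := fun x => psi_adjoin hpsi x
    have hdeg : ∀ n, Module.finrank U U⟮β (n + 1)⟯ = p * Module.finrank U U⟮β n⟯ := by
      intro n
      refine finrank_step (hβ n) (hfib (k₀ + n) _ (hβn n)) hT.prime.pos fun x hx => ?_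
      refine hk₀ (n + 1) (β (n + 1)) (hβn (n + 1)) x ?_
      rw [Function.iterate_succ_apply, Function.iterate_succ_apply, hβ, hx]
    have hmono : ∀ n, ψ (β n) ∈ U⟮ψ (β (n + 1))⟯ := by
      intro n
      have h1 : ψ (β n) ∈ U⟮β n⟯ := by
        rw [← hadj]
        exact mem_adjoin_simple_self U _
      rw [hadj]
      have h2 : U⟮β n⟯ ≤ U⟮β (n + 1)⟯ := by
        rw [adjoin_le_iff, Set.singleton_subset_iff]
        exact hmem n
      exact h2 h1
    have hle : ∀ n, U⟮ψ (β n)⟯ ≤ U⟮ψ (β (n + 1))⟯ := by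
      intro n
      rw [adjoin_le_iff, Set.singleton_subset_iff]
      exact hmono n
    have hdeg' : ∀ n, Module.finrank U U⟮ψ (β (n + 1))⟯ = p * Module.finrank U U⟮ψ (β n)⟯ := by
      intro n
      rw [hadj, hadj]
      exact hdeg n
    have hne : ∀ (σ : Ω ≃ₐ[U] Ω) (x : Ω), σ (ψ x) ≠ ψ x ↔ σ x ≠ x := by
      intro σ x
      rw [psi_aut hpsi, Ne, Ne, (psi_inj hpsi).eq_iff]
    obtain ⟨n₀, hn₀⟩ := kappa_of (S := S) hT.prime (fun n => ψ (β n)) hmono
      (fun n => not_mem_of_deg hT.prime (hmono n) (hdeg' n)) (fun n => hT.int _ _ (hβn n)) hT.δ_pos hT.le hT.Δ_le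
      (fun σ n k hσ => by
        rw [psi_aut hpsi]
        refine hT.up (k₀ + n) k _ (hnode σ _ _ ?_) _ ?_ ?_
        · rw [add_assoc]; exact hβn (n + k)
        · rw [add_assoc]; exact hβn (n + k)
        · rw [haut, hβk]
          exact (hne σ (β n)).1 hσ)
      (fun σ n k hσ1 hσ2 => by
        rw [psi_aut hpsi]
        refine hT.low (k₀ + n) k _ (hnode σ _ _ ?_) _ ?_ ?_ ?_
        · rw [show k₀ + n + 1 + k = k₀ + (n + 1 + k) by ring]; exact hβn (n + 1 + k)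
        · rw [show k₀ + n + 1 + k = k₀ + (n + 1 + k) by ring]; exact hβn (n + 1 + k)
        · rw [haut, Function.iterate_succ_apply', hβk, hβ]
          by_contra hcon
          exact (hne σ (β n)).2 hcon hσ1
        · rw [haut, hβk]
          exact (hne σ (β (n + 1))).1 hσ2)
      (by
        obtain ⟨k, hk⟩ := hT.fin k₀ y₀ hy₀
        refine ⟨k, fun x hx => hk (β k) ?_ x ?_⟩
        · have h1 := hβk 0 k
          rw [Nat.zero_add] at h1
          rw [h1, hβ0]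
        · have h1 : x ∈ U⟮ψ (β 0)⟯ := hx
          rwa [hadj, hβ0] at h1)
      (fun n => HU _ (hfd _)) (fun n ϖ hϖ x hx hx1 g => HS _ ϖ (hfd _) hϖ x hx hx1 g)
      (fun n ϖ' hϖ' x hx hxn => HB _ _ ϖ' (hfd _) (hfd _) (hle n) (hdeg' n) hϖ' x hx hxn)
    refine ⟨β, n₀, hβ0, hβ, fun n hn ϖ ϖ' h1 h2 σ τ h3 h4 h5 => hn₀ n hn ϖ ϖ' ?_ ?_ σ τ ?_ ?_ ?_⟩
    · show Unif S U⟮ψ (β n)⟯ ϖ
      rw [hadj]; exact h1
    · show Unif S U⟮ψ (β (n + 1))⟯ ϖ'
      rw [hadj]; exact h2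
    · exact (hne σ (β n)).2 h3
    · by_contra hcon
      exact (hne τ (β n)).1 hcon h4
    · exact (hne τ (β (n + 1))).2 h5
  choose! β N hβ0 hβ hstar using key
  set m₀ : ℕ := (nodeW_finite (W := Ω) h hd b k₀).toFinset.sup N with hm₀
  refine ⟨k₀ + m₀, fun m hm y hy z hz ϖ ϖ' h1 h2 σ τ h3 h4 h5 => ?_⟩
  obtain ⟨n, rfl⟩ : ∃ n, m = k₀ + n := ⟨m - k₀, by omega⟩
  set y₀ := (ev h)^[n] y with hy₀
  have hy₀n : y₀ ∈ Node Ω h b k₀ := (nodeW_iff h b k₀ n y).1 hy
  have hn : N y₀ ≤ n := by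
    have h6 : N y₀ ≤ m₀ := Finset.le_sup (f := N) ((Set.Finite.mem_toFinset _).2 hy₀n)
    omega
  have hβk : ∀ k, (ev h)^[k] (β y₀ k) = y₀ := by
    intro k
    induction k with
    | zero => exact hβ0 y₀ hy₀n
    | succ k ih => rw [Function.iterate_succ_apply, hβ y₀ hy₀n, ih]
  have hβn : β y₀ (n + 1) ∈ Node Ω h b (k₀ + (n + 1)) := by
    rw [nodeW_iff, hβk]
    exact hy₀n
  obtain ⟨g, hg⟩ := hk₀ (n + 1) (β y₀ (n + 1)) hβn z (by
    rw [hβk, Function.iterate_succ_apply, hz])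
  have hg' : g (β y₀ n) = y := by
    rw [← hβ y₀ hy₀n n, ← hz, ← hg, ev_ae]
  have h6 : Unif S U⟮β y₀ n⟯ (g.symm ϖ) := Unif.conj g (by rw [hg']; exact h1)
  have h7 : Unif S U⟮β y₀ (n + 1)⟯ (g.symm ϖ') := Unif.conj g (by rw [hg]; exact h2)
  have hc : ∀ (s : Ω ≃ₐ[U] Ω) (x : Ω), (g.trans (s.trans g.symm)) x = g.symm (s (g x)) := fun s x => rfl
  have h8 := hstar y₀ hy₀n n hn _ _ h6 h7 (g.trans (σ.trans g.symm)) (g.trans (τ.trans g.symm))
    (by
      rw [hc, hg']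
      intro h0
      apply h3
      rw [← g.apply_symm_apply (σ y), h0, hg'])
    (by
      rw [hc, hg', h4, ← hg', g.symm_apply_apply])
    (by
      rw [hc, hg]
      intro h0
      apply h5
      rw [← g.apply_symm_apply (τ z), h0, hg])
  rw [hc, hc, g.apply_symm_apply, g.apply_symm_apply, ← map_sub, ← map_sub, S.inv, S.inv] at h8
  exact h8

end

end Pool.Agent.ORB.WP
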