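import Pool.Agent.ORB.YStar

/-!
ORB, Theorem W, row Y7: an automorphism which fixes the levels up to `m` and moves a point of the level `m + 1`.
-/

set_option autoImplicit false

namespace Pool.Agent.ORB.WP

open Polynomial NI GP NumberField IsDedekindDomain IntermediateField

universe u

section

variable {U Ω : Type*} [Field U] [Field Ω] [Algebra U Ω] [CharZero U] [IsAlgClosed Ω] [Algebra.IsAlgebraic U Ω]

/-- **Y7**, with the properties Y1a, Y2a of finite extensions, the inequality Y6 and the theorem Y5 as hypotheses -/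
theorem Tree.last_of {S : SLoc U Ω} {h : U[X]} {b : U} {p : ℕ} {ψ : Ω → Ω} {δ Δ : ℝ} (hT : Tree S h b p ψ δ Δ)
    (HU : ∀ E : IntermediateField U Ω, FiniteDimensional U E → ∃ ϖ : Ω, Unif S E ϖ)
    (HS : ∀ (E : IntermediateField U Ω) (ϖ : Ω), FiniteDimensional U E → Unif S E ϖ → ∀ x ∈ E, S.N x ≤ 1 →
      ∀ g : Ω ≃ₐ[U] Ω, S.N (g x - x) ≤ S.N (g ϖ - ϖ))
    (hst : ∃ m₀ : ℕ, ∀ m, m₀ ≤ m → ∀ y ∈ Node Ω h b m, ∀ z : Ω, ev h z = y → ∀ ϖ ϖ' : Ω,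
      Unif S U⟮y⟯ ϖ → Unif S U⟮z⟯ ϖ' → ∀ σ τ : Ω ≃ₐ[U] Ω, σ y ≠ y → τ y = y → τ z ≠ z →
        S.N (τ ϖ' - ϖ') ^ p < S.N (σ ϖ - ϖ))
    (HM : ∀ (M : IntermediateField U Ω), FiniteDimensional U M → (∀ (g : Ω ≃ₐ[U] Ω), ∀ x ∈ M, g x ∈ M) →
      ∀ ϖ : Ω, Unif S M ϖ → ∀ σ₀ : Ω ≃ₐ[U] Ω, σ₀ ϖ ≠ ϖ →
      (∀ σ : Ω ≃ₐ[U] Ω, σ ϖ ≠ ϖ → S.N (σ₀ ϖ - ϖ) ≤ S.N (σ ϖ - ϖ)) → ∀ y z : Ω, y ∈ U⟮z⟯ → z ∈ M →
      ∀ C : Finset Ω, (∀ x, x ∈ C ↔ ∃ τ : Ω ≃ₐ[U] Ω, τ y = y ∧ τ z = x) → C.card = p →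
      (∀ ϖy ϖz : Ω, Unif S U⟮y⟯ ϖy → Unif S U⟮z⟯ ϖz → ∀ σ τ : Ω ≃ₐ[U] Ω, σ y ≠ y → τ y = y → τ z ≠ z →
        S.N (τ ϖz - ϖz) ^ p < S.N (σ ϖy - ϖy)) → σ₀ y = y) :
    ∃ m₀ : ℕ, ∀ m, m₀ ≤ m → ∃ A : Ω ≃ₐ[U] Ω, (∀ k, k ≤ m → ∀ x ∈ Node Ω h b k, A x = x) ∧
      ∃ z ∈ Node Ω h b (m + 1), A z ≠ z := by
  classical
  have hd : 1 ≤ h.natDegree := by rw [hT.deg]; exact hT.prime.one_le
  obtain ⟨k₀, hk₀⟩ := hT.tran
  obtain ⟨m₁, hm₁⟩ := hst
  refine ⟨k₀ + m₁, fun m hm => ?_⟩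
  have hfib : ∀ y ∈ Node Ω h b m, {x : Ω | ev h x = y}.ncard = p := by
    intro y hy
    rw [ncard_fibre h hd y, hT.deg]
    intro c hc hcy
    refine hT.sep m c ?_ hc
    show (ev h)^[m + 1] c = algebraMap U Ω b
    rw [Function.iterate_succ_apply, hcy]
    exact hy
  have hnode : ∀ (g : Ω ≃ₐ[U] Ω) (k : ℕ) (x : Ω), x ∈ Node Ω h b k → g x ∈ Node Ω h b k := by
    intro g k x hx
    show (ev h)^[k] (g x) = algebraMap U Ω b
    rw [ev_ae_iter]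
    have h1 : (ev h)^[k] x = algebraMap U Ω b := hx
    rw [h1, g.commutes]
  have hup : ∀ z : Ω, ev h z ∈ Node Ω h b m → z ∈ Node Ω h b (m + 1) := by
    intro z hz
    show (ev h)^[m + 1] z = algebraMap U Ω b
    rw [Function.iterate_succ_apply]
    exact hz
  -- the points of a fibre are conjugate
  have hconj : ∀ y ∈ Node Ω h b m, ∀ z x : Ω, ev h z = y → ev h x = y → ∃ τ : Ω ≃ₐ[U] Ω, τ y = y ∧ τ z = x := by
    intro y hy z x hz hx
    obtain ⟨l, hl⟩ : ∃ l, m = k₀ + l := ⟨m - k₀, by omega⟩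
    have hz1 : z ∈ Node Ω h b (k₀ + (l + 1)) := by
      rw [← add_assoc, ← hl]
      exact hup z (by rw [hz]; exact hy)
    obtain ⟨τ, hτ⟩ := hk₀ (l + 1) z hz1 x (by
      rw [Function.iterate_succ_apply, Function.iterate_succ_apply, hz, hx])
    exact ⟨τ, by rw [← hz, ← ev_ae, hτ, hx, hz], hτ⟩
  set B : Set Ω := Node Ω h b (m + 1) with hB
  have hBf : B.Finite := nodeW_finite h hd b (m + 1)
  set M : IntermediateField U Ω := adjoin U B with hMdef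
  have hMfd : FiniteDimensional U M := by
    have := hBf.to_subtype
    exact finiteDimensional_adjoin fun x _ => Algebra.IsIntegral.isIntegral x
  have hMg : ∀ (g : Ω ≃ₐ[U] Ω), ∀ x ∈ M, g x ∈ M := by
    intro g x hx
    induction hx using adjoin_induction with
    | mem x hx => exact subset_adjoin U B (hnode g _ x hx)
    | algebraMap x => rw [g.commutes]; exact M.algebraMap_mem x
    | add a b _ _ ha hb => rw [map_add]; exact add_mem ha hb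
    | inv a _ ha => rw [map_inv₀]; exact inv_mem ha
    | mul a b _ _ ha hb => rw [map_mul]; exact mul_mem ha hb
  obtain ⟨ϖ, hϖ⟩ := HU M hMfd
  -- an automorphism which fixes the uniformizer fixes the field
  have hfix : ∀ g : Ω ≃ₐ[U] Ω, g ϖ = ϖ → ∀ x ∈ M, g x = x := by
    intro g hg
    have h1 : ∀ x ∈ M, S.N x ≤ 1 → g x = x := by
      intro x hx hx1
      have h2 := HS M ϖ hMfd hϖ x hx hx1 g
      rw [hg, sub_self, map_zero] at h2
      exact sub_eq_zero.1 (S.N.eq_zero.1 (le_antisymm h2 (S.N.nonneg _)))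
    intro x hx
    rcases le_total (S.N x) 1 with h2 | h2
    · exact h1 x hx h2
    · have h3 := h1 x⁻¹ (inv_mem hx) (by rw [map_inv₀]; exact inv_le_one_of_one_le₀ h2)
      rw [map_inv₀] at h3
      exact inv_injective h3
  have hfixM : ∀ g : Ω ≃ₐ[U] Ω, (∀ x ∈ B, g x = x) → ∀ x ∈ M, g x = x := by
    intro g hg x hx
    induction hx using adjoin_induction with
    | mem x hx => exact hg x hx
    | algebraMap x => exact g.commutes x
    | add a b _ _ ha hb => rw [map_add, ha, hb]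
    | inv a _ ha => rw [map_inv₀, ha]
    | mul a b _ _ ha hb => rw [map_mul, ha, hb]
  -- points of the level m
  have hex : ∀ n, ∃ y : Ω, y ∈ Node Ω h b n := by
    intro n
    induction n with
    | zero => exact ⟨algebraMap U Ω b, rfl⟩
    | succ n ih =>
      obtain ⟨y, hy⟩ := ih
      obtain ⟨z, hz⟩ := exists_pre (Ω := Ω) h hd y
      refine ⟨z, ?_⟩
      show (ev h)^[n + 1] z = algebraMap U Ω b
      rw [Function.iterate_succ_apply, hz]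
      exact hy
  -- some automorphism moves the uniformizer
  obtain ⟨g₁, hg₁⟩ : ∃ g : Ω ≃ₐ[U] Ω, g ϖ ≠ ϖ := by
    obtain ⟨y, hy⟩ := hex m
    have h1 : 1 < {x : Ω | ev h x = y}.ncard := by rw [hfib y hy]; exact hT.prime.one_lt
    obtain ⟨z, hz, x, hx, hzx⟩ := (Set.one_lt_ncard (Set.finite_of_ncard_pos (by omega))).1 h1
    obtain ⟨τ, -, hτ⟩ := hconj y hy z x hz hx
    refine ⟨τ, fun h2 => hzx ?_⟩
    rw [← hτ]
    exact (hfix τ h2 z (subset_adjoin U B (hup z (by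
      have h3 : ev h z = y := hz
      rw [h3]; exact hy)))).symm
  -- the automorphism which moves it as little as possible
  obtain ⟨σ₀, hσ₀, hmin⟩ : ∃ σ₀ : Ω ≃ₐ[U] Ω, σ₀ ϖ ≠ ϖ ∧
      ∀ σ : Ω ≃ₐ[U] Ω, σ ϖ ≠ ϖ → S.N (σ₀ ϖ - ϖ) ≤ S.N (σ ϖ - ϖ) := by
    have hfin : {x : Ω | (∃ g : Ω ≃ₐ[U] Ω, g ϖ = x) ∧ x ≠ ϖ}.Finite :=
      (orbit_finite (U := U) ϖ).subset fun x hx => hx.1
    obtain ⟨x, ⟨⟨σ₀, rfl⟩, h1⟩, h2⟩ := Set.exists_min_image _ (fun x => S.N (x - ϖ)) hfin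
      ⟨g₁ ϖ, ⟨g₁, rfl⟩, hg₁⟩
    exact ⟨σ₀, h1, fun σ hσ => h2 (σ ϖ) ⟨⟨σ, rfl⟩, hσ⟩⟩
  have hlev : ∀ y ∈ Node Ω h b m, σ₀ y = y := by
    intro y hy
    obtain ⟨z, hz⟩ := exists_pre (Ω := Ω) h hd y
    have hfy : {x : Ω | ev h x = y}.Finite := Set.finite_of_ncard_pos (by rw [hfib y hy]; exact hT.prime.pos)
    refine HM M hMfd hMg ϖ hϖ σ₀ hσ₀ hmin y z (by rw [← hz]; exact ev_mem_adjoin h z)
      (subset_adjoin U B (hup z (by rw [hz]; exact hy))) hfy.toFinset (fun x => ?_) ?_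
      (hm₁ m (by omega) y hy z hz)
    · rw [hfy.mem_toFinset]
      constructor
      · intro hx
        exact hconj y hy z x hz hx
      · rintro ⟨τ, h1, rfl⟩
        show ev h (τ z) = y
        rw [ev_ae, hz, h1]
    · rw [← Set.ncard_eq_toFinset_card _ hfy, hfib y hy]
  refine ⟨σ₀, fun k hk x hx => ?_, ?_⟩
  · -- a point of a lower level
    have hpre : ∀ j, ∃ y : Ω, (ev h)^[j] y = x := by
      intro j
      induction j with
      | zero => exact ⟨x, rfl⟩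
      | succ j ih =>
        obtain ⟨y, hy⟩ := ih
        obtain ⟨z, hz⟩ := exists_pre (Ω := Ω) h hd y
        exact ⟨z, by rw [Function.iterate_succ_apply, hz, hy]⟩
    obtain ⟨y, hy⟩ := hpre (m - k)
    have hym : y ∈ Node Ω h b m := by
      have h1 : m = k + (m - k) := by omega
      rw [h1, nodeW_iff, hy]
      exact hx
    rw [← hy, ← ev_ae_iter, hlev y hym]
  · by_contra hno
    push Not at hno
    exact hσ₀ (hfixM σ₀ hno ϖ hϖ.mem)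

end

end Pool.Agent.ORB.WP
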