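import Pool.Agent.ORB.YWild
import Pool.Agent.ORB.YMin
import Pool.Agent.ORB.YTree

/-!
ORB, Theorem W, rows Y4, Y6, Y7, closed.
-/

set_option autoImplicit false

namespace Pool.Agent.ORB.WP

open Polynomial NI GP NumberField IsDedekindDomain IntermediateField

section sloc

variable {U Ω : Type*} [Field U] [Field Ω] [Algebra U Ω] [CharZero U] [IsAlgClosed Ω] [Algebra.IsAlgebraic U Ω]

/-- **Y4** (the conjugates of the uniformizers along a tower) -/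
theorem kappa {S : SLoc U Ω} {p : ℕ} (hp : p.Prime) (hpN : S.N (p : Ω) < 1) (y : ℕ → Ω)
    (hmono : ∀ n, y n ∈ U⟮y (n + 1)⟯)
    (hdeg : ∀ n, Module.finrank U U⟮y (n + 1)⟯ = p * Module.finrank U U⟮y n⟯) (hint : ∀ n, S.N (y n) ≤ 1)
    {δ Δ : ℝ} (hδ : 0 < δ) (hle : δ ≤ Δ) (hΔ : 2 * Δ ≤ p * δ)
    (hup : ∀ (σ : Ω ≃ₐ[U] Ω) (n k : ℕ), σ (y n) ≠ y n → vv S.N (σ (y (n + k)) - y (n + k)) ≤ Δ / p ^ k)
    (hlow : ∀ (σ : Ω ≃ₐ[U] Ω) (n k : ℕ), σ (y n) = y n → σ (y (n + 1)) ≠ y (n + 1) →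
      δ / p ^ k ≤ vv S.N (σ (y (n + 1 + k)) - y (n + 1 + k)))
    (hfin : ∃ k, ∀ x ∈ U⟮y 0⟯, y k ≠ x ∧ vv S.N (y k - x) ≤ Δ / p ^ k) :
    ∃ n₀ : ℕ, ∀ n, n₀ ≤ n → ∀ ϖ ϖ' : Ω, Unif S U⟮y n⟯ ϖ → Unif S U⟮y (n + 1)⟯ ϖ' → ∀ σ τ : Ω ≃ₐ[U] Ω,
      σ (y n) ≠ y n → τ (y n) = y n → τ (y (n + 1)) ≠ y (n + 1) → S.N (τ ϖ' - ϖ') ^ p < S.N (σ ϖ - ϖ) := by
  have hfd : ∀ n, FiniteDimensional U U⟮y n⟯ := fun n =>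
    adjoin.finiteDimensional (Algebra.IsIntegral.isIntegral (y n))
  exact kappa_of hp y hmono (fun n => not_mem_of_deg hp (hmono n) (hdeg n)) hint hδ hle hΔ hup hlow hfin
    (fun n => exists_unif S _) (fun n ϖ h x hx hx1 g => h.sub_le hx hx1 g)
    (fun n ϖ' h' x hx hxn => exists_best hp hpN
      (by rw [adjoin_le_iff, Set.singleton_subset_iff]; exact hmono n) (hdeg n) h' hx hxn)

/-- **Y6** (the inequality of `kappa` for all points of high levels) -/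
theorem Tree.star {S : SLoc U Ω} {h : U[X]} {b : U} {p : ℕ} {ψ : Ω → Ω} {δ Δ : ℝ} (hT : Tree S h b p ψ δ Δ) :
    ∃ m₀ : ℕ, ∀ m, m₀ ≤ m → ∀ y ∈ Node Ω h b m, ∀ z : Ω, ev h z = y → ∀ ϖ ϖ' : Ω,
      Unif S U⟮y⟯ ϖ → Unif S U⟮z⟯ ϖ' → ∀ σ τ : Ω ≃ₐ[U] Ω, σ y ≠ y → τ y = y → τ z ≠ z →
        S.N (τ ϖ' - ϖ') ^ p < S.N (σ ϖ - ϖ) :=
  hT.star_of (fun E _ => exists_unif S E) (fun _ _ _ h _ hx hx1 g => h.sub_le hx hx1 g)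
    (fun _ _ _ _ _ hE hdeg h' _ hx hxn => exists_best hT.prime hT.pN hE hdeg h' hx hxn)

/-- **Y7** -/
theorem Tree.last {S : SLoc U Ω} {h : U[X]} {b : U} {p : ℕ} {ψ : Ω → Ω} {δ Δ : ℝ} (hT : Tree S h b p ψ δ Δ) :
    ∃ m₀ : ℕ, ∀ m, m₀ ≤ m → ∃ A : Ω ≃ₐ[U] Ω, (∀ k, k ≤ m → ∀ x ∈ Node Ω h b k, A x = x) ∧
      ∃ z ∈ Node Ω h b (m + 1), A z ≠ z :=
  hT.last_of (fun E _ => exists_unif S E) (fun _ _ _ h _ hx hx1 g => h.sub_le hx hx1 g) hT.star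
    (fun _ _ hM _ hϖ σ₀ h0 hmin _ _ hyz hz C hC hCp hst =>
      min_fixes hM hϖ σ₀ h0 hmin hyz hz hT.prime.two_le C hC hCp hst)

end sloc

end Pool.Agent.ORB.WP
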