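import Pool.Agent.ORB.YHerb

/-!
ORB, Theorem W, row Y3: extensions of degree `p` at a place above `p`.
-/

set_option autoImplicit false

namespace Pool.Agent.ORB.WP

open Polynomial NI GP NumberField IsDedekindDomain IntermediateField

section na

variable {Ω : Type*} [Field Ω] {N : AbsoluteValue Ω ℝ}

theorem na_eq_of_lt (hN : ∀ x y : Ω, N (x + y) ≤ max (N x) (N y)) {x y : Ω} (h : N (x - y) < N y) :
    N x = N y := by
  have h1 : x = (x - y) + y := by ring
  rw [h1]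
  exact na_add_eq hN h

/-- `(u - 1) ^ p` and `u ^ p - 1` -/
theorem na_frob (hN : ∀ x y : Ω, N (x + y) ≤ max (N x) (N y)) {p : ℕ} (hp : p.Prime) (hpN : N (p : Ω) < 1)
    {u : Ω} (hu : N u ≤ 1) (h : N (u ^ p - 1) < 1) : N (u - 1) < 1 := by
  have hu1 : N (u - 1) ≤ 1 := (na_sub_le hN _ _).trans (max_le hu (by rw [map_one]))
  obtain ⟨r, hr⟩ := exists_add_pow_prime_eq hp (⟨u - 1, hu1⟩ : na_int N hN) 1
  have hr' := congrArg (fun z : na_int N hN => (z : Ω)) hr
  have h2 : u ^ p = (u - 1) ^ p + 1 + p * ((u - 1) * (r : Ω)) := by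
    have h3 : (u - 1 + 1) ^ p = (u - 1) ^ p + 1 ^ p + p * (u - 1) * 1 * (r : Ω) := by
      have := hr'
      push_cast at this
      exact this
    rw [sub_add_cancel, one_pow] at h3
    rw [h3]
    ring
  have h4 : (u - 1) ^ p = (u ^ p - 1) - p * ((u - 1) * (r : Ω)) := by rw [h2]; ring
  have hr1 : N ((u - 1) * (r : Ω)) ≤ 1 := by
    rw [map_mul]
    exact mul_le_one₀ hu1 (N.nonneg _) r.2
  have h5 : N ((u - 1) ^ p) < 1 := by
    rw [h4]
    refine (na_sub_le hN _ _).trans_lt (max_lt h ?_)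
    rw [map_mul]
    exact (mul_le_of_le_one_right (N.nonneg _) hr1).trans_lt hpN
  rw [map_pow] at h5
  exact (pow_lt_one_iff_of_nonneg (N.nonneg _) hp.ne_zero).1 h5

/-- integers prime to `p` are units -/
theorem na_int_unit (hN : ∀ x y : Ω, N (x + y) ≤ max (N x) (N y)) {p : ℕ} (hp : p.Prime) (hpN : N (p : Ω) < 1)
    {k : ℤ} (hk : ¬ (p : ℤ) ∣ k) : N (k : Ω) = 1 := by
  have hint : ∀ k : ℤ, N (k : Ω) ≤ 1 := by
    intro k
    obtain ⟨n, rfl | rfl⟩ := k.eq_nat_or_neg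
    · rw [Int.cast_natCast]
      exact na_nat_le hN n
    · rw [Int.cast_neg, N.map_neg, Int.cast_natCast]
      exact na_nat_le hN n
  refine le_antisymm (hint k) ?_
  have hcop : IsCoprime (p : ℤ) k := (Nat.prime_iff_prime_int.1 hp).irreducible.coprime_iff_not_dvd.2 hk
  obtain ⟨a, b, hab⟩ := hcop
  by_contra hlt
  push Not at hlt
  have h1 : N (1 : Ω) < 1 := by
    have h2 : (1 : Ω) = (a : Ω) * (p : Ω) + (b : Ω) * (k : Ω) := by
      have := congrArg (fun z : ℤ => (z : Ω)) hab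
      push_cast at this
      exact this.symm
    rw [h2]
    refine (hN _ _).trans_lt (max_lt ?_ ?_)
    · rw [map_mul]
      exact (mul_le_of_le_one_left (N.nonneg _) (hint a)).trans_lt hpN
    · rw [map_mul]
      exact (mul_le_of_le_one_left (N.nonneg _) (hint b)).trans_lt hlt
  rw [map_one] at h1
  exact lt_irrefl _ h1

/-- powers of elements near one -/
theorem na_one_add_pow (hN : ∀ x y : Ω, N (x + y) ≤ max (N x) (N y)) {p : ℕ} (hp : p.Prime)
    (hpN : N (p : Ω) < 1) {v : Ω} (hv : N (v - 1) < 1) {k : ℤ} (hk : ¬ (p : ℤ) ∣ k) :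
    N (v ^ k - 1) = N (v - 1) := by
  have hv1 : N v = 1 := by
    rw [na_eq_of_lt hN (y := 1) (by rwa [map_one]), map_one]
  have hnat : ∀ n : ℕ, ¬ (p : ℤ) ∣ n → N (v ^ n - 1) = N (v - 1) := by
    intro n hn
    have h1 : v ^ n - 1 = (v - 1) * ∑ i ∈ Finset.range n, v ^ i := (mul_geom_sum v n).symm
    have h2 : N (∑ i ∈ Finset.range n, v ^ i) = 1 := by
      have h3 : N ((∑ i ∈ Finset.range n, v ^ i) - (n : Ω)) < N ((n : ℤ) : Ω) := by
        rw [na_int_unit hN hp hpN hn]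
        have h4 : (∑ i ∈ Finset.range n, v ^ i) - (n : Ω) = ∑ i ∈ Finset.range n, (v ^ i - 1) := by
          rw [Finset.sum_sub_distrib, Finset.sum_const, Finset.card_range, nsmul_eq_mul, mul_one]
        rw [h4]
        refine na_sum_lt hN _ _ one_pos fun i _ => ?_
        have h5 := na_pow_diff hN hv1.le (by rw [map_one] : N (1 : Ω) ≤ 1) i
        rw [one_pow] at h5
        exact h5.trans_lt hv
      rw [Int.cast_natCast] at h3
      rw [na_eq_of_lt hN h3]
      have h6 := na_int_unit hN hp hpN hn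
      rwa [Int.cast_natCast] at h6
    rw [h1, map_mul, h2, mul_one]
  obtain ⟨n, rfl | rfl⟩ := k.eq_nat_or_neg
  · rw [zpow_natCast]
    exact hnat n hk
  · have hv0 : v ≠ 0 := by
      rintro rfl
      rw [map_zero] at hv1
      exact zero_ne_one hv1
    have hn : ¬ (p : ℤ) ∣ n := fun h => hk (by rwa [dvd_neg])
    have h1 : v ^ (-(n : ℤ)) - 1 = -((v ^ n - 1) / v ^ n) := by
      rw [zpow_neg, zpow_natCast]
      have h2 : v ^ n ≠ 0 := pow_ne_zero _ hv0
      field_simp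
      ring
    rw [h1, N.map_neg, map_div₀, map_pow, hv1, one_pow, div_one]
    exact hnat n hn

end na

section sloc

variable {U Ω : Type*} [Field U] [Field Ω] [Algebra U Ω] [CharZero U] [IsAlgClosed Ω] [Algebra.IsAlgebraic U Ω]

/-- the values of the uniformizers of a totally ramified extension -/
theorem Unif.pow_eq {S : SLoc U Ω} {p : ℕ} {E E' : IntermediateField U Ω}
    [FiniteDimensional U E] [FiniteDimensional U E']
    (hdeg : Module.finrank U E' = p * Module.finrank U E) {ϖ ϖ' : Ω} (h : Unif S E ϖ) (h' : Unif S E' ϖ') :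
    S.N ϖ' ^ p = S.N ϖ := by
  have h1 := h'.pow
  rw [hdeg, pow_mul, ← h.pow] at h1
  exact (pow_left_inj₀ (pow_nonneg (S.N.nonneg _) _) (S.N.nonneg _) Module.finrank_pos.ne').1 h1

/-- **Y3a** (wild ramification) -/
theorem wild_lt {S : SLoc U Ω} {p : ℕ} (hp : p.Prime) (hpN : S.N (p : Ω) < 1) {E E' : IntermediateField U Ω}
    [FiniteDimensional U E] [FiniteDimensional U E'] (hE : E ≤ E')
    (hdeg : Module.finrank U E' = p * Module.finrank U E) {ϖ' : Ω} (h' : Unif S E' ϖ') (τ : Ω ≃ₐ[U] Ω)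
    (hτ : ∀ x ∈ E, τ x = x) : S.N (τ ϖ' - ϖ') < S.N ϖ' := by
  obtain ⟨ϖ, h⟩ := exists_unif S E
  have hpow := Unif.pow_eq hdeg h h'
  have hϖ0 := h.ne
  have hϖ'0 := h'.ne
  set w : Ω := ϖ' ^ p / ϖ with hw
  have hwN : S.N w = 1 := by
    rw [hw, map_div₀, map_pow, hpow, div_self h.pos.ne']
  obtain ⟨w0, hw0⟩ := S.res w hwN
  have hτw : S.N (τ w - w) < 1 := by
    have h1 : τ w - w = τ (w - algebraMap U Ω w0) - (w - algebraMap U Ω w0) := by
      rw [map_sub, τ.commutes]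
      ring
    rw [h1]
    refine (na_sub_le S.nonarch _ _).trans_lt (max_lt ?_ hw0)
    rw [S.inv]
    exact hw0
  set u : Ω := τ ϖ' / ϖ' with hu
  have hw0' : w ≠ 0 := div_ne_zero (pow_ne_zero _ hϖ'0) hϖ0
  have huN : S.N u = 1 := by
    rw [hu, map_div₀, S.inv, div_self h'.pos.ne']
  have hup : S.N (u ^ p - 1) < 1 := by
    have h1 : u ^ p - 1 = (τ w - w) / w := by
      have h2 : τ w = (τ ϖ') ^ p / ϖ := by rw [hw, map_div₀, map_pow, hτ ϖ h.mem]
      rw [hu, h2, hw, div_pow]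
      field_simp
    rw [h1, map_div₀, hwN, div_one]
    exact hτw
  have h1 := na_frob S.nonarch hp hpN huN.le hup
  have h2 : τ ϖ' - ϖ' = (u - 1) * ϖ' := by
    rw [hu, sub_mul, div_mul_cancel₀ _ hϖ'0, one_mul]
  rw [h2, map_mul]
  exact mul_lt_of_lt_one_left h'.pos h1

/-- **Y3b** -/
theorem move_eq {S : SLoc U Ω} {p : ℕ} (hp : p.Prime) (hpN : S.N (p : Ω) < 1) {E E' : IntermediateField U Ω}
    [FiniteDimensional U E] [FiniteDimensional U E'] (hE : E ≤ E')
    (hdeg : Module.finrank U E' = p * Module.finrank U E) {ϖ' : Ω} (h' : Unif S E' ϖ') (τ : Ω ≃ₐ[U] Ω)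
    (hτ : ∀ x ∈ E, τ x = x) {w : Ω} (hw : w ∈ E') {k : ℤ} (hk : S.N w = S.N ϖ' ^ k) (hpk : ¬ (p : ℤ) ∣ k) :
    S.N (τ w - w) * S.N ϖ' = S.N w * S.N (τ ϖ' - ϖ') := by
  have hlt := wild_lt hp hpN hE hdeg h' τ hτ
  have hϖ0 := h'.ne
  have hϖp := h'.pos
  set J : ℝ := S.N (τ ϖ' - ϖ') with hJ
  have hJ0 : 0 ≤ J := S.N.nonneg _
  set v : Ω := τ ϖ' / ϖ' with hv
  have hv1 : S.N (v - 1) = J / S.N ϖ' := by
    have h1 : v - 1 = (τ ϖ' - ϖ') / ϖ' := by
      rw [hv]
      field_simp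
    rw [h1, map_div₀]
  have hv2 : S.N (v - 1) < 1 := by
    rw [hv1, div_lt_one hϖp]
    exact hlt
  have hvk := na_one_add_pow S.nonarch hp hpN hv2 hpk
  set u : Ω := w / ϖ' ^ k with hu
  have hϖk : ϖ' ^ k ≠ 0 := zpow_ne_zero _ hϖ0
  have huN : S.N u = 1 := by
    rw [hu, map_div₀, map_zpow₀, hk, div_self (zpow_ne_zero _ hϖp.ne')]
  have huE : u ∈ E' := div_mem hw (zpow_mem h'.mem k)
  obtain ⟨u0, hu0⟩ := S.res u huN
  -- the unit moves little
  have hτu : S.N (τ u - u) ≤ J := by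
    set s : Ω := (u - algebraMap U Ω u0) / ϖ' with hs
    have hsE : s ∈ E' := div_mem (sub_mem huE (E'.algebraMap_mem _)) h'.mem
    have hs1 : S.N s ≤ 1 := by
      rw [hs, map_div₀, div_le_one hϖp]
      exact h'.le_of_lt (sub_mem huE (E'.algebraMap_mem _)) hu0
    have h1 : τ u - u = τ ϖ' * (τ s - s) + (τ ϖ' - ϖ') * s := by
      have h2 : u = ϖ' * s + algebraMap U Ω u0 := by
        rw [hs, mul_div_cancel₀ _ hϖ0]
        ring
      have h3 : τ u = τ ϖ' * τ s + algebraMap U Ω u0 := by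
        conv_lhs => rw [h2]
        rw [map_add, map_mul, τ.commutes]
      rw [h3]
      conv_lhs => rw [h2]
      ring
    rw [h1]
    refine (S.nonarch _ _).trans (max_le ?_ ?_)
    · rw [map_mul]
      exact (mul_le_of_le_one_left (S.N.nonneg _) (h'.aut_le τ)).trans (h'.sub_le hsE hs1 τ)
    · rw [map_mul]
      exact mul_le_of_le_one_right hJ0 hs1
  -- the decomposition
  have hwu : w = ϖ' ^ k * u := by rw [hu, mul_div_cancel₀ _ hϖk]
  have hdec : τ w - w = ϖ' ^ k * ((v ^ k - 1) * τ u) + ϖ' ^ k * (τ u - u) := by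
    have h1 : τ w = τ ϖ' ^ k * τ u := by rw [hwu, map_mul, map_zpow₀]
    have h2 : τ ϖ' ^ k = ϖ' ^ k * v ^ k := by
      rw [hv, div_zpow, mul_div_cancel₀ _ hϖk]
    rw [h1, h2]
    conv_lhs => rw [hwu]
    ring
  have hfirst : S.N (ϖ' ^ k * ((v ^ k - 1) * τ u)) = S.N w * (J / S.N ϖ') := by
    rw [map_mul, map_mul, S.inv, huN, mul_one, hvk, hv1, map_zpow₀, hk]
  have hsecond : S.N (ϖ' ^ k * (τ u - u)) ≤ S.N w * J := by
    rw [map_mul, map_zpow₀, hk]
    exact mul_le_mul_of_nonneg_left hτu (zpow_nonneg hϖp.le _)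
  have hwp : 0 < S.N w := by
    rw [hk]
    exact zpow_pos hϖp _
  rcases hJ0.eq_or_lt with h0 | hpos
  · have h1 : S.N (τ w - w) ≤ 0 := by
      rw [hdec]
      refine (S.nonarch _ _).trans (max_le ?_ ?_)
      · rw [hfirst, ← h0]
        simp
      · refine hsecond.trans ?_
        rw [← h0]
        simp
    have h2 : S.N (τ w - w) = 0 := le_antisymm h1 (S.N.nonneg _)
    rw [h2, ← h0]
    simp
  · have h1 : S.N (ϖ' ^ k * (τ u - u)) < S.N (ϖ' ^ k * ((v ^ k - 1) * τ u)) := by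
      rw [hfirst]
      refine hsecond.trans_lt (mul_lt_mul_of_pos_left ?_ hwp)
      rw [lt_div_iff₀ hϖp]
      exact mul_lt_of_lt_one_right hpos h'.lt
    have h2 : S.N (τ w - w) = S.N w * (J / S.N ϖ') := by
      rw [hdec, add_comm, na_add_eq S.nonarch h1, hfirst]
    rw [h2]
    field_simp

/-- **Y3c** (best approximation) -/
theorem exists_best {S : SLoc U Ω} {p : ℕ} (hp : p.Prime) (hpN : S.N (p : Ω) < 1) {E E' : IntermediateField U Ω}
    [FiniteDimensional U E] [FiniteDimensional U E'] (hE : E ≤ E')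
    (hdeg : Module.finrank U E' = p * Module.finrank U E) {ϖ' : Ω} (h' : Unif S E' ϖ') {x : Ω} (hx : x ∈ E')
    (hxE : x ∉ E) : ∃ a ∈ E, ∀ τ : Ω ≃ₐ[U] Ω, (∀ x ∈ E, τ x = x) →
      S.N (τ x - x) * S.N ϖ' = S.N (x - a) * S.N (τ ϖ' - ϖ') := by
  classical
  have hcl : IsAlgClosure U Ω := ⟨inferInstance, inferInstance⟩
  have hnor : Normal U Ω := IsAlgClosure.normal U Ω
  have hgal : IsGalois U Ω := ⟨⟩
  obtain ⟨ϖ, h⟩ := exists_unif S E
  have hpow := Unif.pow_eq hdeg h h'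
  have hϖp := h'.pos
  -- an automorphism which moves `x`
  obtain ⟨σ, hσE, hσx⟩ : ∃ σ : Ω ≃ₐ[U] Ω, (∀ y ∈ E, σ y = y) ∧ σ x ≠ x := by
    by_contra hcon
    push Not at hcon
    refine hxE ?_
    rw [← InfiniteGalois.fixedField_fixingSubgroup E, IntermediateField.mem_fixedField_iff]
    intro u hu
    exact hcon u ((IntermediateField.mem_fixingSubgroup_iff E u).1 hu)
  have hc : 0 < S.N (σ x - x) := S.N.pos (sub_ne_zero.2 hσx)
  have hlow : ∀ a ∈ E, S.N (σ x - x) ≤ S.N (x - a) := by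
    intro a ha
    have h1 : σ x - x = σ (x - a) - (x - a) := by
      rw [map_sub, hσE a ha]
      ring
    rw [h1]
    refine (na_sub_le S.nonarch _ _).trans (max_le ?_ le_rfl)
    rw [S.inv]
  obtain ⟨M, hM⟩ := exists_pow_lt_of_lt_one hc h'.lt
  have hne : ∀ a ∈ E, x - a ≠ 0 := by
    intro a ha h0
    rw [sub_eq_zero] at h0
    exact hxE (h0 ▸ ha)
  obtain ⟨m, ⟨a, haE, ham⟩, hmax⟩ := Int.exists_greatest_of_bdd
    (P := fun m : ℤ => ∃ a ∈ E, S.N (x - a) = S.N ϖ' ^ m)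
    ⟨M, fun m => by
      rintro ⟨a, ha, hm⟩
      by_contra hcon
      push Not at hcon
      have h1 := hlow a ha
      rw [hm] at h1
      have h2 : S.N ϖ' ^ m ≤ S.N ϖ' ^ (M : ℤ) := zpow_le_zpow_right_of_le_one₀ hϖp h'.lt.le hcon.le
      rw [zpow_natCast] at h2
      linarith⟩
    (by
      obtain ⟨k, hk⟩ := h'.gen (x - 0) (sub_mem hx (E'.zero_mem)) (hne 0 E.zero_mem)
      exact ⟨k, 0, E.zero_mem, hk⟩)
  refine ⟨a, haE, fun τ hτ => ?_⟩
  have hpm : ¬ (p : ℤ) ∣ m := by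
    rintro ⟨j, hj⟩
    have h1 : S.N (x - a) = S.N ϖ ^ j := by
      rw [ham, hj, zpow_mul, zpow_natCast, hpow]
    have h2 : S.N ((x - a) / ϖ ^ j) = 1 := by
      rw [map_div₀, map_zpow₀, h1, div_self (zpow_ne_zero _ h.pos.ne')]
    obtain ⟨u, hu⟩ := S.res _ h2
    set a' : Ω := a + algebraMap U Ω u * ϖ ^ j with ha'
    have ha'E : a' ∈ E := add_mem haE (mul_mem (E.algebraMap_mem _) (zpow_mem h.mem j))
    have h3 : x - a' = ((x - a) / ϖ ^ j - algebraMap U Ω u) * ϖ ^ j := by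
      rw [sub_mul, div_mul_cancel₀ _ (zpow_ne_zero _ h.ne), ha']
      ring
    obtain ⟨m', hm'⟩ := h'.gen (x - a') (sub_mem hx (hE ha'E)) (hne a' ha'E)
    have h4 : S.N (x - a') < S.N (x - a) := by
      rw [h3, map_mul, map_zpow₀, h1]
      exact mul_lt_of_lt_one_left (zpow_pos h.pos _) hu
    rw [hm', ham] at h4
    have h5 : m < m' := by
      by_contra hcon
      push Not at hcon
      have h6 := zpow_le_zpow_right_of_le_one₀ hϖp h'.lt.le hcon
      linarith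
    have h7 := hmax m' ⟨a', ha'E, hm'⟩
    omega
  have h1 := move_eq hp hpN hE hdeg h' τ hτ (w := x - a) (sub_mem hx (hE haE)) ham hpm
  have h2 : τ (x - a) - (x - a) = τ x - x := by
    rw [map_sub, hτ a haE]
    ring
  rw [h2] at h1
  exact h1

end sloc

end Pool.Agent.ORB.WP
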